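import Pool.Agent.Lib.MP_6bd702_zc.Pre

section Parth60OutDefs

/-!
# The outer boundary of a compact set: definition
-/

set_option autoImplicit false

namespace Pool.Agent.PercS5

/-- The unbounded component of the complement of `K`. -/
def outC (K : Set ℂ) : Set ℂ := {z | ¬ Bornology.IsBounded (connectedComponentIn Kᶜ z)}

/-- The outer boundary of `K`: the boundary of the unbounded component of its complement. -/
def outB (K : Set ℂ) : Set ℂ := frontier (outC K)

end Pool.Agent.PercS5

end Parth60OutDefs

section Partperc3CellDefs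

/-!
# Cells of the twisted plane: definitions (helper23)

The cell `g = (i, j)` is the closed square `[i w, (i + 1) w] × [j w, (j + 1) w]` in the chart
`chS g`: the lower left cells are read in lower coordinates, which are the chart coordinates
plus one.
-/

set_option autoImplicit false

namespace Pool.Agent.Perc

/-- The chart of a cell. -/
def chS (g : ℤ × ℤ) : ℤ := if g.1 < 0 then 1 else 0

/-- The cells which do not contain the core and are not in the cut column below the axis. -/
def CellOk (g : ℤ × ℤ) : Prop := 0 ≤ g.2 ∨ (g.1 ≠ 0 ∧ (g.2 = -1 → g.1 ≠ -1))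

/-- Adjacent cells. -/
def CAdj (g g' : ℤ × ℤ) : Prop :=
  (g'.1 = g.1 + 1 ∧ g'.2 = g.2) ∨ (g.1 = g'.1 + 1 ∧ g'.2 = g.2) ∨
    (g'.1 = g.1 ∧ g'.2 = g.2 + 1) ∨ (g'.1 = g.1 ∧ g.2 = g'.2 + 1)

/-- No face of the cell is in `BW R`. -/
def COut (w R : ℤ) (g : ℤ × ℤ) : Prop :=
  R ≤ g.1 * w ∨ (g.1 + 1) * w ≤ -(R + 2) ∨ R ≤ g.2 * w ∨ (g.2 + 1) * w ≤ -R

/-- All faces of the cell are in `BW R`. -/
def CIn (w R : ℤ) (g : ℤ × ℤ) : Prop :=
  -(R + 2) ≤ g.1 * w ∧ (g.1 + 1) * w ≤ R ∧ -R ≤ g.2 * w ∧ (g.2 + 1) * w ≤ R

/-- The cell of the boundary edge `t` of `BW R`. -/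
def tcell (w R t : ℤ) : ℤ × ℤ :=
  if t < R then (R / w, t / w) else if t < 3 * R + 2 then ((2 * R - t - 1) / w, R / w)
  else if t < 5 * R + 2 then ((-(R + 2)) / w, (4 * R + 1 - t) / w)
  else if t < 6 * R + 3 then ((t - 6 * R - 4) / w, (-R) / w)
  else if t < 7 * R + 3 then ((t - 6 * R - 3) / w, (-R) / w) else (R / w, (t - 8 * R - 3) / w)

/-- The outward direction at the boundary edge `t` of `BW R`. -/
def tdir (R t : ℤ) : ℤ × ℤ :=
  if t < R then (1, 0) else if t < 3 * R + 2 then (0, 1) else if t < 5 * R + 2 then (-1, 0)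
  else if t < 7 * R + 3 then (0, -1) else (1, 0)

/-- The linear coordinate on the boundary of `BW R`, cut at the middle of the lower side. -/
def tlin (R t : ℤ) : ℤ := if 6 * R + 3 ≤ t then t - (6 * R + 3) else t + 2 * R

end Pool.Agent.Perc

end Partperc3CellDefs

section Partperc3RoutesA

/-!
# Routes of the three walls: polar coordinates around a rectangle of cells

`lay` is the layer of a cell around the rectangle `[a, b] × [c, d]` of cells, `ang` its angle,
counterclockwise from the cut below the rectangle (column `0`).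
-/

set_option autoImplicit false

namespace Pool.Agent.Perc.Rt

open Finset Relation Pool.Agent.Perc

/-- A rectangle of cells. -/
structure Rc where
  a : ℤ
  b : ℤ
  c : ℤ
  d : ℤ
  ha : a < 0
  hb : 0 < b
  hcd : c ≤ d

variable {r : Rc} {g h g' : ℤ × ℤ} {S S' : Set (ℤ × ℤ)} {k l : ℤ}

/-- The layer. -/
def lay (r : Rc) (g : ℤ × ℤ) : ℤ := max (max (g.1 - r.b) (r.a - g.1)) (max (g.2 - r.d) (r.c - g.2))

/-- The angle. -/
def ang (r : Rc) (g : ℤ × ℤ) : ℤ :=
  if g.2 < r.c ∧ 0 < g.1 then (if g.1 ≤ r.b then g.1 else r.b + 1)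
  else if r.b < g.1 then (if g.2 ≤ r.d then r.b + 2 + (g.2 - r.c) else r.b + 3 + (r.d - r.c))
  else if r.d < g.2 then
    (if r.a ≤ g.1 then r.b + 4 + (r.d - r.c) + (r.b - g.1)
      else r.b + 5 + (r.d - r.c) + (r.b - r.a))
  else if g.1 < r.a then
    (if r.c ≤ g.2 then r.b + 6 + (r.d - r.c) + (r.b - r.a) + (r.d - g.2)
      else r.b + 7 + (r.d - r.c) + (r.b - r.a) + (r.d - r.c))
  else r.b + 8 + (r.d - r.c) + (r.b - r.a) + (r.d - r.c) + (g.1 - r.a)

/-- Outside the rectangle, not in the cut, not in a corner region. -/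
def Reg (r : Rc) (g : ℤ × ℤ) : Prop :=
  (g.2 < r.c ∧ 0 < g.1 ∧ g.1 ≤ r.b) ∨ (r.b < g.1 ∧ r.c ≤ g.2 ∧ g.2 ≤ r.d) ∨
    (r.d < g.2 ∧ r.a ≤ g.1 ∧ g.1 ≤ r.b) ∨ (g.1 < r.a ∧ r.c ≤ g.2 ∧ g.2 ≤ r.d) ∨
      (g.2 < r.c ∧ r.a ≤ g.1 ∧ g.1 < 0)

/-- Not in the cut. -/
def NCut (r : Rc) (g : ℤ × ℤ) : Prop := r.c ≤ g.2 ∨ g.1 ≠ 0

/-- Connection by adjacent cells of `S`. -/
def Cn (S : Set (ℤ × ℤ)) : ℤ × ℤ → ℤ × ℤ → Prop :=
  ReflTransGen fun x y => x ∈ S ∧ y ∈ S ∧ CAdj x y

theorem Cn.mono (hS : S ⊆ S') (h : Cn S g g') : Cn S' g g' := by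
  induction h with
  | refl => exact ReflTransGen.refl
  | tail _ hb ih => exact ih.tail ⟨hS hb.1, hS hb.2.1, hb.2.2⟩

theorem CAdj.symm (h : CAdj g g') : CAdj g' g := by
  unfold CAdj at *
  omega

theorem Cn.symm (h : Cn S g g') : Cn S g' g := by
  induction h with
  | refl => exact ReflTransGen.refl
  | tail _ hb ih => exact ih.head ⟨hb.2.1, hb.1, CAdj.symm hb.2.2⟩

theorem Cn.trans {x y z : ℤ × ℤ} (h : Cn S x y) (h' : Cn S y z) : Cn S x z :=
  ReflTransGen.trans h h'

theorem run_h {x x' y : ℤ} (hx : x ≤ x') (h : ∀ u, x ≤ u → u ≤ x' → (u, y) ∈ S) :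
    Cn S (x, y) (x', y) := by
  revert h
  induction x', hx using Int.leInduction with
  | base => exact fun _ => ReflTransGen.refl
  | succ x' hx ih =>
    intro h
    exact (ih fun u h1 h2 => h u h1 (by omega)).tail
      ⟨h _ hx (by omega), h _ (by omega) le_rfl, Or.inl ⟨rfl, rfl⟩⟩

theorem run_v {x y y' : ℤ} (hy : y ≤ y') (h : ∀ u, y ≤ u → u ≤ y' → (x, u) ∈ S) :
    Cn S (x, y) (x, y') := by
  revert h
  induction y', hy using Int.leInduction with
  | base => exact fun _ => ReflTransGen.refl
  | succ y' hy ih =>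
    intro h
    exact (ih fun u h1 h2 => h u h1 (by omega)).tail
      ⟨h _ hy (by omega), h _ (by omega) le_rfl, Or.inr (Or.inr (Or.inl ⟨rfl, rfl⟩))⟩

/-- The arc of the layer `l` between two angles. -/
def Arc (r : Rc) (l p q : ℤ) : Set (ℤ × ℤ) :=
  {g | NCut r g ∧ lay r g = l ∧ p ≤ ang r g ∧ ang r g ≤ q}

/-- The radial line. -/
def Rad (r : Rc) (p k l : ℤ) : Set (ℤ × ℤ) :=
  {g | NCut r g ∧ k ≤ lay r g ∧ lay r g ≤ l ∧ ang r g = p}

/-- The cell on the radial line of `g` in the layer `l`. -/
def foot (r : Rc) (g : ℤ × ℤ) (l : ℤ) : ℤ × ℤ :=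
  if g.2 < r.c then (g.1, r.c - l) else if r.b < g.1 then (r.b + l, g.2)
  else if r.d < g.2 then (g.1, r.d + l) else (r.a - l, g.2)

theorem foot_self (h : Reg r g) : foot r g (lay r g) = g := by
  have h1 := r.ha
  have h2 := r.hb
  have h3 := r.hcd
  unfold Reg at h
  unfold foot lay
  obtain ⟨x, y⟩ := g
  simp only at h ⊢
  split_ifs <;> simp only [Prod.mk.injEq, true_and, and_true] <;> omega

section
variable {x y : ℤ}

theorem ang_s0 (h : y < r.c) (h' : 0 < x) (h'' : x ≤ r.b) : ang r (x, y) = x := by
  unfold ang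
  rw [if_pos ⟨h, h'⟩, if_pos h'']

theorem ang_c0 (h : y < r.c) (h' : r.b < x) : ang r (x, y) = r.b + 1 := by
  have := r.hb
  unfold ang
  rw [if_pos ⟨h, by simp only; omega⟩, if_neg (by simp only; omega)]

theorem ang_s1 (h : r.b < x) (h' : r.c ≤ y) (h'' : y ≤ r.d) :
    ang r (x, y) = r.b + 2 + (y - r.c) := by
  unfold ang
  rw [if_neg (by simp only; omega), if_pos h, if_pos h'']

theorem ang_c1 (h : r.b < x) (h' : r.d < y) : ang r (x, y) = r.b + 3 + (r.d - r.c) := by
  have := r.hcd
  unfold ang
  rw [if_neg (by simp only; omega), if_pos h, if_neg (by simp only; omega)]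

theorem ang_s2 (h : r.d < y) (h' : r.a ≤ x) (h'' : x ≤ r.b) :
    ang r (x, y) = r.b + 4 + (r.d - r.c) + (r.b - x) := by
  have := r.hcd
  unfold ang
  rw [if_neg (by simp only; omega), if_neg (by simp only; omega), if_pos h, if_pos h']

theorem ang_c2 (h : r.d < y) (h' : x < r.a) :
    ang r (x, y) = r.b + 5 + (r.d - r.c) + (r.b - r.a) := by
  have := r.hcd
  have := r.ha
  have := r.hb
  unfold ang
  rw [if_neg (by simp only; omega), if_neg (by simp only; omega), if_pos h,
    if_neg (by simp only; omega)]

theorem ang_s3 (h : x < r.a) (h' : r.c ≤ y) (h'' : y ≤ r.d) :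
    ang r (x, y) = r.b + 6 + (r.d - r.c) + (r.b - r.a) + (r.d - y) := by
  have := r.ha
  have := r.hb
  unfold ang
  rw [if_neg (by simp only; omega), if_neg (by simp only; omega), if_neg (by simp only; omega),
    if_pos h, if_pos h']

theorem ang_c3 (h : x < r.a) (h' : y < r.c) :
    ang r (x, y) = r.b + 7 + (r.d - r.c) + (r.b - r.a) + (r.d - r.c) := by
  have := r.ha
  have := r.hb
  have := r.hcd
  unfold ang
  rw [if_neg (by simp only; omega), if_neg (by simp only; omega), if_neg (by simp only; omega),
    if_pos h, if_neg (by simp only; omega)]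

theorem ang_s4 (h : y < r.c) (h' : r.a ≤ x) (h'' : x < 0) :
    ang r (x, y) = r.b + 8 + (r.d - r.c) + (r.b - r.a) + (r.d - r.c) + (x - r.a) := by
  have := r.hb
  have := r.hcd
  unfold ang
  rw [if_neg (by simp only; omega), if_neg (by simp only; omega), if_neg (by simp only; omega),
    if_neg (by simp only; omega)]

end

theorem foot_prop (h : Reg r g) (hl : 0 < l) : Reg r (foot r g l) ∧ lay r (foot r g l) = l ∧
    ang r (foot r g l) = ang r g := by
  have h1 := r.ha
  have h2 := r.hb
  have h3 := r.hcd
  obtain ⟨x, y⟩ := g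
  unfold Reg at h
  simp only at h
  unfold foot
  simp only
  rcases h with h | h | h | h | h
  · rw [if_pos (by omega), ang_s0 (by omega) (by omega) (by omega),
      ang_s0 (by omega) (by omega) (by omega)]
    unfold Reg lay
    exact ⟨by simp only; omega, by simp only; omega, rfl⟩
  · rw [if_neg (by omega), if_pos (by omega), ang_s1 (by omega) (by omega) (by omega),
      ang_s1 (by omega) (by omega) (by omega)]
    unfold Reg lay
    exact ⟨by simp only; omega, by simp only; omega, rfl⟩
  · rw [if_neg (by omega), if_neg (by omega), if_pos (by omega),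
      ang_s2 (by omega) (by omega) (by omega), ang_s2 (by omega) (by omega) (by omega)]
    unfold Reg lay
    exact ⟨by simp only; omega, by simp only; omega, rfl⟩
  · rw [if_neg (by omega), if_neg (by omega), if_neg (by omega),
      ang_s3 (by omega) (by omega) (by omega), ang_s3 (by omega) (by omega) (by omega)]
    unfold Reg lay
    exact ⟨by simp only; omega, by simp only; omega, rfl⟩
  · rw [if_pos (by omega), ang_s4 (by omega) (by omega) (by omega),
      ang_s4 (by omega) (by omega) (by omega)]
    unfold Reg lay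
    exact ⟨by simp only; omega, by simp only; omega, rfl⟩

theorem Reg.ncut (h : Reg r g) : NCut r g := by
  have h1 := r.ha
  have h2 := r.hb
  have h3 := r.hcd
  unfold Reg at h
  unfold NCut
  omega

theorem Reg.lay_pos (h : Reg r g) : 0 < lay r g := by
  unfold Reg at h
  unfold lay
  omega

/-- Radial lines are connected. -/
theorem cn_rad {k l l' : ℤ} (h : Reg r g) (hk : 0 < k) (hkl : k ≤ l) (hll : l ≤ l') :
    Cn (Rad r (ang r g) k l') (foot r g l) (foot r g l') := by
  have key : ∀ u, l ≤ u → u ≤ l' → foot r g u ∈ Rad r (ang r g) k l' := fun u h1 h2 => by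
    obtain ⟨h3, h4, h5⟩ := foot_prop (l := u) h (by omega)
    exact ⟨h3.ncut, by omega, by omega, h5⟩
  have h1 := r.ha
  have h2 := r.hb
  have h3 := r.hcd
  unfold foot at key ⊢
  obtain ⟨x, y⟩ := g
  simp only at key ⊢
  split_ifs at key ⊢
  · refine Cn.symm (run_v (by omega) fun u hu hu' => ?_)
    have := key (r.c - u) (by omega) (by omega)
    rwa [show r.c - (r.c - u) = u by omega] at this
  · refine run_h (by omega) fun u hu hu' => ?_
    have := key (u - r.b) (by omega) (by omega)
    rwa [show r.b + (u - r.b) = u by omega] at this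
  · refine run_v (by omega) fun u hu hu' => ?_
    have := key (u - r.d) (by omega) (by omega)
    rwa [show r.d + (u - r.d) = u by omega] at this
  · refine Cn.symm (run_h (by omega) fun u hu hu' => ?_)
    have := key (r.a - u) (by omega) (by omega)
    rwa [show r.a - (r.a - u) = u by omega] at this

theorem mem_arc {x y p q : ℤ} {r : Rc} {l : ℤ} (h0 : r.c ≤ y ∨ x ≠ 0) (h1 : lay r (x, y) = l)
    (h2 : p ≤ ang r (x, y)) (h3 : ang r (x, y) ≤ q) : (x, y) ∈ Arc r l p q := ⟨h0, h1, h2, h3⟩

/-- The number of the side. -/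
def sd (r : Rc) (g : ℤ × ℤ) : ℕ :=
  if g.2 < r.c ∧ 0 < g.1 then 0 else if r.b < g.1 then 1 else if r.d < g.2 then 2
  else if g.1 < r.a then 3 else 4

/-- The corner cells of the layer `l`. -/
def cc (r : Rc) (l : ℤ) (s : ℕ) : ℤ × ℤ :=
  if s = 0 then (r.b + l, r.c - l) else if s = 1 then (r.b + l, r.d + l)
  else if s = 2 then (r.a - l, r.d + l) else (r.a - l, r.c - l)

/-- The angle of the corner `s`. -/
def ca (r : Rc) (s : ℕ) : ℤ :=
  if s = 0 then r.b + 1 else if s = 1 then r.b + 3 + (r.d - r.c)
  else if s = 2 then r.b + 5 + (r.d - r.c) + (r.b - r.a)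
  else r.b + 7 + (r.d - r.c) + (r.b - r.a) + (r.d - r.c)

/-- From a cell to the next corner. -/
theorem cn_corner (h : Reg r g) (hl : 0 < l) (hg : lay r g = l) (hs : sd r g ≤ 3) :
    ang r g < ca r (sd r g) ∧ Cn (Arc r l (ang r g) (ca r (sd r g))) g (cc r l (sd r g)) := by
  have h1 := r.ha
  have h2 := r.hb
  have h3 := r.hcd
  obtain ⟨x, y⟩ := g
  unfold Reg at h
  unfold lay at hg
  simp only at h hg
  rcases h with h | h | h | h | h
  · have e : sd r (x, y) = 0 := by unfold sd; rw [if_pos (by simp only; omega)]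
    rw [e, ang_s0 (by omega) (by omega) (by omega)]
    simp only [cc, ca, if_true]
    refine ⟨by omega, ?_⟩
    rw [show y = r.c - l by omega]
    refine run_h (by omega) fun u hu hu' => ?_
    rcases le_or_gt u r.b with hb | hb
    · exact mem_arc (by omega) (by unfold lay; simp only; omega)
        (by rw [ang_s0 (by omega) (by omega) (by omega)]; omega)
        (by rw [ang_s0 (by omega) (by omega) (by omega)]; omega)
    · exact mem_arc (by omega) (by unfold lay; simp only; omega)
        (by rw [ang_c0 (by omega) (by omega)]; omega)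
        (by rw [ang_c0 (by omega) (by omega)])
  · have e : sd r (x, y) = 1 := by
      unfold sd; rw [if_neg (by simp only; omega), if_pos (by simp only; omega)]
    rw [e, ang_s1 (by omega) (by omega) (by omega)]
    simp only [cc, ca, one_ne_zero, if_false, if_true]
    refine ⟨by omega, ?_⟩
    rw [show x = r.b + l by omega]
    refine run_v (by omega) fun u hu hu' => ?_
    rcases le_or_gt u r.d with hb | hb
    · exact mem_arc (by omega) (by unfold lay; simp only; omega)
        (by rw [ang_s1 (by omega) (by omega) (by omega)]; omega)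
        (by rw [ang_s1 (by omega) (by omega) (by omega)]; omega)
    · exact mem_arc (by omega) (by unfold lay; simp only; omega)
        (by rw [ang_c1 (by omega) (by omega)]; omega)
        (by rw [ang_c1 (by omega) (by omega)])
  · have e : sd r (x, y) = 2 := by
      unfold sd
      rw [if_neg (by simp only; omega), if_neg (by simp only; omega), if_pos (by simp only; omega)]
    rw [e, ang_s2 (by omega) (by omega) (by omega)]
    simp only [cc, ca, OfNat.ofNat_ne_zero, OfNat.ofNat_ne_one, if_false, if_true]
    refine ⟨by omega, ?_⟩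
    rw [show y = r.d + l by omega]
    refine Cn.symm (run_h (by omega) fun u hu hu' => ?_)
    rcases le_or_gt r.a u with hb | hb
    · exact mem_arc (by omega) (by unfold lay; simp only; omega)
        (by rw [ang_s2 (by omega) (by omega) (by omega)]; omega)
        (by rw [ang_s2 (by omega) (by omega) (by omega)]; omega)
    · exact mem_arc (by omega) (by unfold lay; simp only; omega)
        (by rw [ang_c2 (by omega) (by omega)]; omega)
        (by rw [ang_c2 (by omega) (by omega)])
  · have e : sd r (x, y) = 3 := by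
      unfold sd
      rw [if_neg (by simp only; omega), if_neg (by simp only; omega), if_neg (by simp only; omega),
        if_pos (by simp only; omega)]
    rw [e, ang_s3 (by omega) (by omega) (by omega)]
    simp only [cc, ca, OfNat.ofNat_ne_zero, OfNat.ofNat_ne_one, if_false,
      show ¬ (3 : ℕ) = 2 by decide]
    refine ⟨by omega, ?_⟩
    rw [show x = r.a - l by omega]
    refine Cn.symm (run_v (by omega) fun u hu hu' => ?_)
    rcases le_or_gt r.c u with hb | hb
    · exact mem_arc (by omega) (by unfold lay; simp only; omega)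
        (by rw [ang_s3 (by omega) (by omega) (by omega)]; omega)
        (by rw [ang_s3 (by omega) (by omega) (by omega)]; omega)
    · exact mem_arc (by omega) (by unfold lay; simp only; omega)
        (by rw [ang_c3 (by omega) (by omega)]; omega)
        (by rw [ang_c3 (by omega) (by omega)])
  · exfalso
    have e : sd r (x, y) = 4 := by
      unfold sd
      rw [if_neg (by simp only; omega), if_neg (by simp only; omega), if_neg (by simp only; omega),
        if_neg (by simp only; omega)]
    omega

/-- From a corner to the next one. -/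
theorem cn_cc (hl : 0 < l) {s : ℕ} (hs : s ≤ 2) :
    ca r s < ca r (s + 1) ∧ Cn (Arc r l (ca r s) (ca r (s + 1))) (cc r l s) (cc r l (s + 1)) := by
  have h1 := r.ha
  have h2 := r.hb
  have h3 := r.hcd
  have hs' : s = 0 ∨ s = 1 ∨ s = 2 := by omega
  rcases hs' with rfl | rfl | rfl
  · simp only [cc, ca, if_true, zero_add, one_ne_zero, if_false]
    refine ⟨by omega, run_v (by omega) fun u hu hu' => ?_⟩
    rcases lt_or_ge u r.c with hc | hc
    · exact mem_arc (by omega) (by unfold lay; simp only; omega)
        (by rw [ang_c0 (by omega) (by omega)]) (by rw [ang_c0 (by omega) (by omega)]; omega)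
    rcases le_or_gt u r.d with hd | hd
    · exact mem_arc (by omega) (by unfold lay; simp only; omega)
        (by rw [ang_s1 (by omega) (by omega) (by omega)]; omega)
        (by rw [ang_s1 (by omega) (by omega) (by omega)]; omega)
    · exact mem_arc (by omega) (by unfold lay; simp only; omega)
        (by rw [ang_c1 (by omega) (by omega)]; omega) (by rw [ang_c1 (by omega) (by omega)])
  · simp only [cc, ca, if_true, one_ne_zero, if_false, show (1 : ℕ) + 1 = 2 by rfl,
      OfNat.ofNat_ne_zero, OfNat.ofNat_ne_one]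
    refine ⟨by omega, Cn.symm (run_h (by omega) fun u hu hu' => ?_)⟩
    rcases lt_or_ge u r.a with hc | hc
    · exact mem_arc (by omega) (by unfold lay; simp only; omega)
        (by rw [ang_c2 (by omega) (by omega)]; omega) (by rw [ang_c2 (by omega) (by omega)])
    rcases le_or_gt u r.b with hd | hd
    · exact mem_arc (by omega) (by unfold lay; simp only; omega)
        (by rw [ang_s2 (by omega) (by omega) (by omega)]; omega)
        (by rw [ang_s2 (by omega) (by omega) (by omega)]; omega)
    · exact mem_arc (by omega) (by unfold lay; simp only; omega)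
        (by rw [ang_c1 (by omega) (by omega)]) (by rw [ang_c1 (by omega) (by omega)]; omega)
  · simp only [cc, ca, if_true, if_false, show (2 : ℕ) + 1 = 3 by rfl,
      OfNat.ofNat_ne_zero, OfNat.ofNat_ne_one, show ¬ (3 : ℕ) = 2 by decide]
    refine ⟨by omega, Cn.symm (run_v (by omega) fun u hu hu' => ?_)⟩
    rcases lt_or_ge u r.c with hc | hc
    · exact mem_arc (by omega) (by unfold lay; simp only; omega)
        (by rw [ang_c3 (by omega) (by omega)]; omega) (by rw [ang_c3 (by omega) (by omega)])
    rcases le_or_gt u r.d with hd | hd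
    · exact mem_arc (by omega) (by unfold lay; simp only; omega)
        (by rw [ang_s3 (by omega) (by omega) (by omega)]; omega)
        (by rw [ang_s3 (by omega) (by omega) (by omega)]; omega)
    · exact mem_arc (by omega) (by unfold lay; simp only; omega)
        (by rw [ang_c2 (by omega) (by omega)]) (by rw [ang_c2 (by omega) (by omega)]; omega)

/-- From the previous corner to a cell. -/
theorem cn_from (h : Reg r g) (hl : 0 < l) (hg : lay r g = l) {s : ℕ} (hs : sd r g = s + 1) :
    ca r s < ang r g ∧ Cn (Arc r l (ca r s) (ang r g)) (cc r l s) g := by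
  have h1 := r.ha
  have h2 := r.hb
  have h3 := r.hcd
  obtain ⟨x, y⟩ := g
  unfold Reg at h
  unfold lay at hg
  simp only at h hg
  rcases h with h | h | h | h | h
  · exfalso
    have e : sd r (x, y) = 0 := by unfold sd; rw [if_pos (by simp only; omega)]
    omega
  · have e : sd r (x, y) = 1 := by
      unfold sd; rw [if_neg (by simp only; omega), if_pos (by simp only; omega)]
    obtain rfl : s = 0 := by omega
    rw [ang_s1 (by omega) (by omega) (by omega)]
    simp only [cc, ca, if_true]
    refine ⟨by omega, ?_⟩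
    rw [show x = r.b + l by omega]
    refine run_v (by omega) fun u hu hu' => ?_
    rcases lt_or_ge u r.c with hc | hc
    · exact mem_arc (by omega) (by unfold lay; simp only; omega)
        (by rw [ang_c0 (by omega) (by omega)]) (by rw [ang_c0 (by omega) (by omega)]; omega)
    · exact mem_arc (by omega) (by unfold lay; simp only; omega)
        (by rw [ang_s1 (by omega) (by omega) (by omega)]; omega)
        (by rw [ang_s1 (by omega) (by omega) (by omega)]; omega)
  · have e : sd r (x, y) = 2 := by
      unfold sd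
      rw [if_neg (by simp only; omega), if_neg (by simp only; omega), if_pos (by simp only; omega)]
    obtain rfl : s = 1 := by omega
    rw [ang_s2 (by omega) (by omega) (by omega)]
    simp only [cc, ca, if_true, one_ne_zero, if_false]
    refine ⟨by omega, ?_⟩
    rw [show y = r.d + l by omega]
    refine Cn.symm (run_h (by omega) fun u hu hu' => ?_)
    rcases le_or_gt u r.b with hd | hd
    · exact mem_arc (by omega) (by unfold lay; simp only; omega)
        (by rw [ang_s2 (by omega) (by omega) (by omega)]; omega)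
        (by rw [ang_s2 (by omega) (by omega) (by omega)]; omega)
    · exact mem_arc (by omega) (by unfold lay; simp only; omega)
        (by rw [ang_c1 (by omega) (by omega)]) (by rw [ang_c1 (by omega) (by omega)]; omega)
  · have e : sd r (x, y) = 3 := by
      unfold sd
      rw [if_neg (by simp only; omega), if_neg (by simp only; omega), if_neg (by simp only; omega),
        if_pos (by simp only; omega)]
    obtain rfl : s = 2 := by omega
    rw [ang_s3 (by omega) (by omega) (by omega)]
    simp only [cc, ca, OfNat.ofNat_ne_zero, OfNat.ofNat_ne_one, if_false, if_true]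
    refine ⟨by omega, ?_⟩
    rw [show x = r.a - l by omega]
    refine Cn.symm (run_v (by omega) fun u hu hu' => ?_)
    rcases le_or_gt u r.d with hd | hd
    · exact mem_arc (by omega) (by unfold lay; simp only; omega)
        (by rw [ang_s3 (by omega) (by omega) (by omega)]; omega)
        (by rw [ang_s3 (by omega) (by omega) (by omega)]; omega)
    · exact mem_arc (by omega) (by unfold lay; simp only; omega)
        (by rw [ang_c2 (by omega) (by omega)]) (by rw [ang_c2 (by omega) (by omega)]; omega)
  · have e : sd r (x, y) = 4 := by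
      unfold sd
      rw [if_neg (by simp only; omega), if_neg (by simp only; omega), if_neg (by simp only; omega),
        if_neg (by simp only; omega)]
    obtain rfl : s = 3 := by omega
    rw [ang_s4 (by omega) (by omega) (by omega)]
    simp only [cc, ca, OfNat.ofNat_ne_zero, OfNat.ofNat_ne_one, if_false,
      show ¬ (3 : ℕ) = 2 by decide]
    refine ⟨by omega, ?_⟩
    rw [show y = r.c - l by omega]
    refine run_h (by omega) fun u hu hu' => ?_
    rcases lt_or_ge u r.a with hc | hc
    · exact mem_arc (by omega) (by unfold lay; simp only; omega)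
        (by rw [ang_c3 (by omega) (by omega)]) (by rw [ang_c3 (by omega) (by omega)]; omega)
    · exact mem_arc (by omega) (by unfold lay; simp only; omega)
        (by rw [ang_s4 (by omega) (by omega) (by omega)]; omega)
        (by rw [ang_s4 (by omega) (by omega) (by omega)]; omega)

/-- Two cells on the same side. -/
theorem cn_same (h : Reg r g) (h' : Reg r g') (hl : 0 < l) (hg : lay r g = l) (hg' : lay r g' = l)
    (hs : sd r g = sd r g') (ha : ang r g ≤ ang r g') :
    Cn (Arc r l (ang r g) (ang r g')) g g' := by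
  have h1 := r.ha
  have h2 := r.hb
  have h3 := r.hcd
  obtain ⟨x, y⟩ := g
  obtain ⟨x', y'⟩ := g'
  have sd0 : ∀ x y, y < r.c → 0 < x → sd r (x, y) = 0 := fun x y h h' => by
    unfold sd; rw [if_pos (by simp only; omega)]
  have sd1 : ∀ x y, r.b < x → r.c ≤ y → sd r (x, y) = 1 := fun x y h h' => by
    unfold sd; rw [if_neg (by simp only; omega), if_pos (by simp only; omega)]
  have sd2 : ∀ x y, r.d < y → x ≤ r.b → sd r (x, y) = 2 := fun x y h h' => by
    unfold sd
    rw [if_neg (by simp only; omega), if_neg (by simp only; omega), if_pos (by simp only; omega)]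
  have sd3 : ∀ x y, x < r.a → r.c ≤ y → y ≤ r.d → sd r (x, y) = 3 := fun x y h h' h'' => by
    unfold sd
    rw [if_neg (by simp only; omega), if_neg (by simp only; omega), if_neg (by simp only; omega),
      if_pos (by simp only; omega)]
  have sd4 : ∀ x y, y < r.c → r.a ≤ x → x < 0 → sd r (x, y) = 4 := fun x y h h' h'' => by
    unfold sd
    rw [if_neg (by simp only; omega), if_neg (by simp only; omega), if_neg (by simp only; omega),
      if_neg (by simp only; omega)]
  unfold Reg at h h'
  unfold lay at hg hg'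
  simp only at h h' hg hg'
  rcases h with h | h | h | h | h
  · rw [sd0 x y (by omega) (by omega)] at hs
    rcases h' with h' | h' | h' | h' | h'
    · rw [ang_s0 (by omega) (by omega) (by omega), ang_s0 (by omega) (by omega) (by omega)] at ha ⊢
      rw [show y = r.c - l by omega, show y' = r.c - l by omega]
      exact run_h (by omega) fun u hu hu' => mem_arc (by omega) (by unfold lay; simp only; omega)
        (by rw [ang_s0 (by omega) (by omega) (by omega)]; omega)
        (by rw [ang_s0 (by omega) (by omega) (by omega)]; omega)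
    · rw [sd1 x' y' (by omega) (by omega)] at hs; omega
    · rw [sd2 x' y' (by omega) (by omega)] at hs; omega
    · rw [sd3 x' y' (by omega) (by omega) (by omega)] at hs; omega
    · rw [sd4 x' y' (by omega) (by omega) (by omega)] at hs; omega
  · rw [sd1 x y (by omega) (by omega)] at hs
    rcases h' with h' | h' | h' | h' | h'
    · rw [sd0 x' y' (by omega) (by omega)] at hs; omega
    · rw [ang_s1 (by omega) (by omega) (by omega), ang_s1 (by omega) (by omega) (by omega)] at ha ⊢
      rw [show x = r.b + l by omega, show x' = r.b + l by omega]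
      exact run_v (by omega) fun u hu hu' => mem_arc (by omega) (by unfold lay; simp only; omega)
        (by rw [ang_s1 (by omega) (by omega) (by omega)]; omega)
        (by rw [ang_s1 (by omega) (by omega) (by omega)]; omega)
    · rw [sd2 x' y' (by omega) (by omega)] at hs; omega
    · rw [sd3 x' y' (by omega) (by omega) (by omega)] at hs; omega
    · rw [sd4 x' y' (by omega) (by omega) (by omega)] at hs; omega
  · rw [sd2 x y (by omega) (by omega)] at hs
    rcases h' with h' | h' | h' | h' | h'
    · rw [sd0 x' y' (by omega) (by omega)] at hs; omega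
    · rw [sd1 x' y' (by omega) (by omega)] at hs; omega
    · rw [ang_s2 (by omega) (by omega) (by omega), ang_s2 (by omega) (by omega) (by omega)] at ha ⊢
      rw [show y = r.d + l by omega, show y' = r.d + l by omega]
      exact Cn.symm (run_h (by omega) fun u hu hu' =>
        mem_arc (by omega) (by unfold lay; simp only; omega)
          (by rw [ang_s2 (by omega) (by omega) (by omega)]; omega)
          (by rw [ang_s2 (by omega) (by omega) (by omega)]; omega))
    · rw [sd3 x' y' (by omega) (by omega) (by omega)] at hs; omega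
    · rw [sd4 x' y' (by omega) (by omega) (by omega)] at hs; omega
  · rw [sd3 x y (by omega) (by omega) (by omega)] at hs
    rcases h' with h' | h' | h' | h' | h'
    · rw [sd0 x' y' (by omega) (by omega)] at hs; omega
    · rw [sd1 x' y' (by omega) (by omega)] at hs; omega
    · rw [sd2 x' y' (by omega) (by omega)] at hs; omega
    · rw [ang_s3 (by omega) (by omega) (by omega), ang_s3 (by omega) (by omega) (by omega)] at ha ⊢
      rw [show x = r.a - l by omega, show x' = r.a - l by omega]
      exact Cn.symm (run_v (by omega) fun u hu hu' =>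
        mem_arc (by omega) (by unfold lay; simp only; omega)
          (by rw [ang_s3 (by omega) (by omega) (by omega)]; omega)
          (by rw [ang_s3 (by omega) (by omega) (by omega)]; omega))
    · rw [sd4 x' y' (by omega) (by omega) (by omega)] at hs; omega
  · rw [sd4 x y (by omega) (by omega) (by omega)] at hs
    rcases h' with h' | h' | h' | h' | h'
    · rw [sd0 x' y' (by omega) (by omega)] at hs; omega
    · rw [sd1 x' y' (by omega) (by omega)] at hs; omega
    · rw [sd2 x' y' (by omega) (by omega)] at hs; omega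
    · rw [sd3 x' y' (by omega) (by omega) (by omega)] at hs; omega
    · rw [ang_s4 (by omega) (by omega) (by omega), ang_s4 (by omega) (by omega) (by omega)] at ha ⊢
      rw [show y = r.c - l by omega, show y' = r.c - l by omega]
      exact run_h (by omega) fun u hu hu' => mem_arc (by omega) (by unfold lay; simp only; omega)
        (by rw [ang_s4 (by omega) (by omega) (by omega)]; omega)
        (by rw [ang_s4 (by omega) (by omega) (by omega)]; omega)

theorem arc_mono {p q p' q' : ℤ} (h : p' ≤ p) (h' : q ≤ q') : Arc r l p q ⊆ Arc r l p' q' :=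
  fun _ hg => ⟨hg.1, hg.2.1, by have := hg.2.2.1; omega, by have := hg.2.2.2; omega⟩

theorem sd_le (g : ℤ × ℤ) : sd r g ≤ 4 := by
  unfold sd
  split_ifs <;> omega

/-- From a corner to a later one. -/
theorem cn_ccs (hl : 0 < l) {s t : ℕ} (hst : s ≤ t) (ht : t ≤ 3) :
    ca r s ≤ ca r t ∧ Cn (Arc r l (ca r s) (ca r t)) (cc r l s) (cc r l t) := by
  induction t, hst using Nat.le_induction with
  | base => exact ⟨le_rfl, ReflTransGen.refl⟩
  | succ t hst ih =>
    obtain ⟨h1, h2⟩ := ih (by omega)
    obtain ⟨h3, h4⟩ := cn_cc (r := r) hl (s := t) (by omega)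
    exact ⟨by omega, (h2.mono (arc_mono le_rfl (by omega))).trans
      (h4.mono (arc_mono h1 le_rfl))⟩

/-- Arcs are connected. -/
theorem cn_arc (h : Reg r g) (h' : Reg r g') (hl : 0 < l) (hg : lay r g = l) (hg' : lay r g' = l)
    (ha : ang r g ≤ ang r g') : Cn (Arc r l (ang r g) (ang r g')) g g' := by
  rcases lt_trichotomy (sd r g) (sd r g') with hs | hs | hs
  · obtain ⟨t, ht⟩ : ∃ t, sd r g' = t + 1 := ⟨sd r g' - 1, by omega⟩
    have := sd_le (r := r) g'
    obtain ⟨h1, h2⟩ := cn_corner h hl hg (by omega)
    obtain ⟨h3, h4⟩ := cn_from h' hl hg' ht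
    obtain ⟨h5, h6⟩ := cn_ccs (r := r) hl (s := sd r g) (t := t) (by omega) (by omega)
    exact ((h2.mono (arc_mono le_rfl (by omega))).trans
      (h6.mono (arc_mono (by omega) (by omega)))).trans (h4.mono (arc_mono (by omega) le_rfl))
  · exact cn_same h h' hl hg hg' hs ha
  · exfalso
    obtain ⟨t, ht⟩ : ∃ t, sd r g = t + 1 := ⟨sd r g - 1, by omega⟩
    have := sd_le (r := r) g
    obtain ⟨h1, h2⟩ := cn_corner h' hl hg' (by omega)
    obtain ⟨h3, h4⟩ := cn_from h hl hg ht
    obtain ⟨h5, h6⟩ := cn_ccs (r := r) hl (s := sd r g') (t := t) (by omega) (by omega)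
    omega

end Pool.Agent.Perc.Rt

end Partperc3RoutesA

section Partperc3RoutesB

/-!
# Routes of the three walls: three disjoint walls with prescribed ends

Every wall runs radially to its lane, along the lane to the angle of its end, and radially to its
end. The lanes `6, 5, 4` are used by the walls `0, 1, 2` which move to larger angles, the lanes
`7, 8, 9` by those which move to smaller angles.
-/

set_option autoImplicit false

namespace Pool.Agent.Perc.Rt

open Finset Relation Pool.Agent.Perc

variable {r : Rc} {g h g' : ℤ × ℤ} {k l : ℤ}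

/-- The lane of the wall `i`. -/
def lane (i : ℤ) (p q : ℤ) : ℤ := if p ≤ q then 6 - i else 7 + i

/-- The wall from `P` to `Q` in the lane `l`. -/
def Wall (r : Rc) (l : ℤ) (P Q : ℤ × ℤ) : Set (ℤ × ℤ) :=
  {g | NCut r g ∧ ((lay r P ≤ lay r g ∧ lay r g ≤ l ∧ ang r g = ang r P) ∨
    (lay r g = l ∧ min (ang r P) (ang r Q) ≤ ang r g ∧ ang r g ≤ max (ang r P) (ang r Q)) ∨
    (l ≤ lay r g ∧ lay r g ≤ lay r Q ∧ ang r g = ang r Q))}

theorem wall_disjoint {P Q P' Q' : ℤ × ℤ} {i j : ℤ} (h0 : 0 ≤ i) (hij : i < j) (hj : j ≤ 2)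
    (hP : ang r P < ang r P') (hQ : ang r Q < ang r Q') :
    Disjoint (Wall r (lane i (ang r P) (ang r Q)) P Q)
      (Wall r (lane j (ang r P') (ang r Q')) P' Q') := by
  rw [Set.disjoint_left]
  rintro g ⟨-, h1⟩ ⟨-, h2⟩
  unfold lane at h1 h2
  generalize lay r g = x at h1 h2
  generalize ang r g = y at h1 h2
  generalize ang r P = p at *
  generalize ang r Q = q at *
  generalize ang r P' = p' at *
  generalize ang r Q' = q' at *
  split_ifs at h1 h2 <;> omega

/-- The wall is connected. -/
theorem cn_wall {P Q : ℤ × ℤ} (hP : Reg r P) (hQ : Reg r Q) (hl : lay r P ≤ l) (hl' : l ≤ lay r Q) :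
    Cn (Wall r l P Q) P Q := by
  have hp := hP.lay_pos
  have h1 : Cn (Wall r l P Q) P (foot r P l) := by
    have := cn_rad (k := lay r P) (l := lay r P) (l' := l) hP hp le_rfl hl
    rw [foot_self hP] at this
    exact this.mono fun g hg => ⟨hg.1, Or.inl ⟨hg.2.1, hg.2.2.1, hg.2.2.2⟩⟩
  have h3 : Cn (Wall r l P Q) (foot r Q l) Q := by
    have := cn_rad (k := l) (l := l) (l' := lay r Q) hQ (by omega) le_rfl hl'
    rw [foot_self hQ] at this
    exact this.mono fun g hg => ⟨hg.1, Or.inr (Or.inr ⟨hg.2.1, hg.2.2.1, hg.2.2.2⟩)⟩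
  obtain ⟨p1, p2, p3⟩ := foot_prop (l := l) hP (by omega)
  obtain ⟨q1, q2, q3⟩ := foot_prop (l := l) hQ (by omega)
  refine (h1.trans ?_).trans h3
  rcases le_total (ang r P) (ang r Q) with h | h
  · refine (cn_arc p1 q1 (by omega) p2 q2 (by omega)).mono fun g hg => ⟨hg.1, Or.inr (Or.inl ?_)⟩
    obtain ⟨-, g2, g3, g4⟩ := hg
    rw [p3] at g3
    rw [q3] at g4
    omega
  · refine Cn.symm ((cn_arc q1 p1 (by omega) q2 p2 (by omega)).mono fun g hg =>
      ⟨hg.1, Or.inr (Or.inl ?_)⟩)
    obtain ⟨-, g2, g3, g4⟩ := hg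
    rw [q3] at g3
    rw [p3] at g4
    omega

/-- Three disjoint walls. -/
theorem three_walls {P Q : Fin 3 → ℤ × ℤ} (hP : ∀ i, Reg r (P i)) (hQ : ∀ i, Reg r (Q i))
    (hPl : ∀ i, lay r (P i) ≤ 3) (hQl : ∀ i, 10 ≤ lay r (Q i))
    (hPa : ∀ i j, i < j → ang r (P i) < ang r (P j))
    (hQa : ∀ i j, i < j → ang r (Q i) < ang r (Q j)) :
    ∃ W : Fin 3 → Set (ℤ × ℤ), (∀ i j, i ≠ j → Disjoint (W i) (W j)) ∧
      (∀ i, Cn (W i) (P i) (Q i)) ∧
      (∀ i, ∀ g ∈ W i, NCut r g ∧ lay r (P i) ≤ lay r g ∧ lay r g ≤ lay r (Q i)) ∧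
      (∀ i, ∀ g ∈ W i, lay r g ≤ 3 → ang r g = ang r (P i)) ∧
      ∀ i, ∀ g ∈ W i, 10 ≤ lay r g → ang r g = ang r (Q i) := by
  refine ⟨fun i => Wall r (lane ((i : ℕ) : ℤ) (ang r (P i)) (ang r (Q i))) (P i) (Q i),
    fun i j hij => ?_, fun i => ?_, fun i g hg => ?_, fun i g hg h3 => ?_, fun i g hg h3 => ?_⟩
  · rcases lt_or_gt_of_ne hij with h | h
    · exact wall_disjoint (by omega) (by exact_mod_cast h) (by omega) (hPa i j h) (hQa i j h)
    · exact (wall_disjoint (by omega) (by exact_mod_cast h) (by omega) (hPa j i h)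
        (hQa j i h)).symm
  · have h1 := hPl i
    have h2 := hQl i
    have h3 : ((i : ℕ) : ℤ) ≤ 2 := by omega
    refine cn_wall (hP i) (hQ i) ?_ ?_ <;> unfold lane <;> split_ifs <;> omega
  · have h1 := hPl i
    have h2 := hQl i
    have h3 : ((i : ℕ) : ℤ) ≤ 2 := by omega
    refine ⟨hg.1, ?_⟩
    have := hg.2
    unfold lane at this
    split_ifs at this <;> omega
  · have h2 : ((i : ℕ) : ℤ) ≤ 2 := by omega
    have := hg.2
    unfold lane at this
    split_ifs at this <;> omega
  · have h2 : ((i : ℕ) : ℤ) ≤ 2 := by omega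
    have := hg.2
    unfold lane at this
    split_ifs at this <;> omega

end Pool.Agent.Perc.Rt

end Partperc3RoutesB
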