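import Pool.Agent.Lib.MP_6bd702_zc.Pre
import Pool.Agent.Lib.MP_6bd702_z.Z010
import Pool.Agent.Lib.MP_6bd702_zc.Y001
import Pool.Agent.Lib.MP_6bd702_z.Prob
import Pool.Agent.Lib.MP_6bd702_z.Z016
import Pool.Agent.Lib.MP_6bd702_z.Z015

section Parth60OutChain

/-!
# The outer boundary of a compact set and chains of dyadic squares

`outC K` is the unbounded component of the complement of `K`, `outB K` its boundary (the outer
boundary of `K`). A point of the unbounded component is joined to points far away by a chain of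
small dyadic squares which avoid `K`, and conversely.
-/

set_option autoImplicit false

namespace Pool.Agent.PercS5

open Set Filter Topology TopologicalSpace Relation
open Pool.Agent.PercD

/-- The point `a / 2 ^ p`. -/
noncomputable def pt (p : ℕ) (a : ℤ × ℤ) : ℂ := ⟨a.1 / 2 ^ p, a.2 / 2 ^ p⟩

/-- The closed square of side `2 / 2 ^ p` centred at `a / 2 ^ p`. -/
def cbox (p : ℕ) (a : ℤ × ℤ) : Set ℂ :=
  {w | |w.re - a.1 / 2 ^ p| ≤ 1 / 2 ^ p ∧ |w.im - a.2 / 2 ^ p| ≤ 1 / 2 ^ p}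

/-- Neighbours in the square lattice. -/
def Adj (a b : ℤ × ℤ) : Prop := (a.1 = b.1 ∧ |a.2 - b.2| = 1) ∨ (|a.1 - b.1| = 1 ∧ a.2 = b.2)

/-- A step between neighbours in `B`. -/
def Stp (B : ℤ × ℤ → Prop) (a b : ℤ × ℤ) : Prop := Adj a b ∧ B a ∧ B b

/-- The lattice points outside the square of radius `2`. -/
def Far (p : ℕ) (b : ℤ × ℤ) : Prop := 2 * 2 ^ p < |b.1| ∨ 2 * 2 ^ p < |b.2|

/-- The closed square of `a` avoids `K`. -/
def FreeC (p : ℕ) (K : Set ℂ) (a : ℤ × ℤ) : Prop := Disjoint (cbox p a) K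

/-- The open square of `a` avoids `K`. -/
def FreeO (p : ℕ) (K : Set ℂ) (a : ℤ × ℤ) : Prop := Disjoint (cell p a) K

/-- A chain of closed squares (mesh `2 ^ (-p)`) which avoid `K` leads from the open cell `z` of
level `m` to points far away. -/
def SeenC (p m : ℕ) (z : ℤ × ℤ) (K : Set ℂ) : Prop :=
  ∃ a b, pt p a ∈ cell m z ∧ Far p b ∧ FreeC p K a ∧ ReflTransGen (Stp (FreeC p K)) a b

/-- A chain of open squares (mesh `2 ^ (-p)`) which avoid `K` leads from the closed cell `z` of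
level `m` to points far away. -/
def SeenO (p m : ℕ) (z : ℤ × ℤ) (K : Set ℂ) : Prop :=
  ∃ a b, pt p a ∈ cbox m z ∧ Far p b ∧ FreeO p K a ∧ ReflTransGen (Stp (FreeO p K)) a b

/-! ### Chains -/

theorem Adj.symm {a b : ℤ × ℤ} (h : Adj a b) : Adj b a := by
  rcases h with ⟨h1, h2⟩ | ⟨h1, h2⟩
  · left; exact ⟨h1.symm, by rw [abs_sub_comm]; exact h2⟩
  · right; exact ⟨by rw [abs_sub_comm]; exact h1, h2.symm⟩

theorem Stp.symm {B : ℤ × ℤ → Prop} {a b : ℤ × ℤ} (h : Stp B a b) : Stp B b a :=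
  ⟨h.1.symm, h.2.2, h.2.1⟩

theorem rtg_symm {B : ℤ × ℤ → Prop} {a b : ℤ × ℤ} (h : ReflTransGen (Stp B) a b) :
    ReflTransGen (Stp B) b a := by
  induction h with
  | refl => exact .refl
  | tail _ h2 ih => exact .head h2.symm ih

theorem rtg_mono {B B' : ℤ × ℤ → Prop} (hB : ∀ a, B a → B' a) {a b : ℤ × ℤ}
    (h : ReflTransGen (Stp B) a b) : ReflTransGen (Stp B') a b :=
  (ReflTransGen.mono (r := Stp B) (p := Stp B')
    fun _ _ h => ⟨h.1, hB _ h.2.1, hB _ h.2.2⟩) a b h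

theorem rtg_hor {B : ℤ × ℤ → Prop} (x y : ℤ) (k : ℕ) (h : ∀ i : ℕ, i ≤ k → B (x + i, y)) :
    ReflTransGen (Stp B) (x, y) (x + k, y) := by
  induction k with
  | zero => simp only [Nat.cast_zero, add_zero]; exact .refl
  | succ k ih =>
    refine (ih fun i hi => h i (by omega)).tail ⟨Or.inr ⟨?_, rfl⟩, h k (by omega), h (k + 1) le_rfl⟩
    push_cast
    rw [show x + (k : ℤ) - (x + (k + 1)) = -1 by ring]
    simp

theorem rtg_ver {B : ℤ × ℤ → Prop} (x y : ℤ) (k : ℕ) (h : ∀ i : ℕ, i ≤ k → B (x, y + i)) :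
    ReflTransGen (Stp B) (x, y) (x, y + k) := by
  induction k with
  | zero => simp only [Nat.cast_zero, add_zero]; exact .refl
  | succ k ih =>
    refine (ih fun i hi => h i (by omega)).tail ⟨Or.inl ⟨rfl, ?_⟩, h k (by omega), h (k + 1) le_rfl⟩
    push_cast
    rw [show y + (k : ℤ) - (y + (k + 1)) = -1 by ring]
    simp

/-- Real coordinates of `cbox`. -/
theorem mem_cbox {p : ℕ} {a : ℤ × ℤ} {w : ℂ} :
    w ∈ cbox p a ↔ |w.re * 2 ^ p - a.1| ≤ 1 ∧ |w.im * 2 ^ p - a.2| ≤ 1 := by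
  have hp : (0 : ℝ) < 2 ^ p := by positivity
  have aux : ∀ (x : ℝ) (k : ℤ), |x - k / 2 ^ p| ≤ 1 / 2 ^ p ↔ |x * 2 ^ p - k| ≤ 1 := by
    intro x k
    rw [show x * 2 ^ p - k = (x - k / 2 ^ p) * 2 ^ p by field_simp, abs_mul, abs_of_pos hp,
      le_div_iff₀ hp]
  exact and_congr (aux _ _) (aux _ _)

theorem mem_cell {p : ℕ} {a : ℤ × ℤ} {w : ℂ} :
    w ∈ cell p a ↔ |w.re * 2 ^ p - a.1| < 1 ∧ |w.im * 2 ^ p - a.2| < 1 := by
  have hp : (0 : ℝ) < 2 ^ p := by positivity
  have aux : ∀ (x : ℝ) (k : ℤ), |x - k / 2 ^ p| < 1 / 2 ^ p ↔ |x * 2 ^ p - k| < 1 := by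
    intro x k
    rw [show x * 2 ^ p - k = (x - k / 2 ^ p) * 2 ^ p by field_simp, abs_mul, abs_of_pos hp,
      lt_div_iff₀ hp]
  exact and_congr (aux _ _) (aux _ _)

theorem cell_sub_cbox (p : ℕ) (a : ℤ × ℤ) : cell p a ⊆ cbox p a :=
  fun _ hw => ⟨hw.1.le, hw.2.le⟩

theorem between {x y z : ℤ} {u : ℝ} (hx : |u - x| ≤ 1) (hy : |u - y| ≤ 1)
    (h1 : x ≤ z) (h2 : z ≤ y) : |u - z| ≤ 1 := by
  have h3 : (x : ℝ) ≤ z := by exact_mod_cast h1
  have h4 : (z : ℝ) ≤ y := by exact_mod_cast h2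
  rw [abs_le] at *
  constructor <;> linarith [hx.1, hx.2, hy.1, hy.2]

/-- The squares which contain a given point are joined to each other. -/
theorem near_conn {p : ℕ} {B : ℤ × ℤ → Prop} {y : ℂ} (hB : ∀ a, y ∈ cbox p a → B a)
    {a b : ℤ × ℤ} (ha : y ∈ cbox p a) (hb : y ∈ cbox p b) : ReflTransGen (Stp B) a b := by
  obtain ⟨a1, a2⟩ := a
  obtain ⟨b1, b2⟩ := b
  rw [mem_cbox] at ha hb
  have hmid : y ∈ cbox p (b1, a2) := mem_cbox.2 ⟨hb.1, ha.2⟩
  have hhor : ∀ {c d e : ℤ}, y ∈ cbox p (c, e) → y ∈ cbox p (d, e) → c ≤ d →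
      ReflTransGen (Stp B) (c, e) (d, e) := by
    intro c d e hc hd hcd
    obtain ⟨k, rfl⟩ : ∃ k : ℕ, d = c + k := ⟨(d - c).toNat, by omega⟩
    refine rtg_hor c e k fun i hi => hB _ ?_
    rw [mem_cbox] at hc hd ⊢
    exact ⟨between hc.1 hd.1 (by simp) (by simpa using hi), hc.2⟩
  have hver : ∀ {c d e : ℤ}, y ∈ cbox p (e, c) → y ∈ cbox p (e, d) → c ≤ d →
      ReflTransGen (Stp B) (e, c) (e, d) := by
    intro c d e hc hd hcd
    obtain ⟨k, rfl⟩ : ∃ k : ℕ, d = c + k := ⟨(d - c).toNat, by omega⟩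
    refine rtg_ver e c k fun i hi => hB _ ?_
    rw [mem_cbox] at hc hd ⊢
    exact ⟨hc.1, between hc.2 hd.2 (by simp) (by simpa using hi)⟩
  have h1 : ReflTransGen (Stp B) (a1, a2) (b1, a2) := by
    rcases le_total a1 b1 with h | h
    · exact hhor (mem_cbox.2 ha) hmid h
    · exact rtg_symm (hhor hmid (mem_cbox.2 ha) h)
  have h2 : ReflTransGen (Stp B) (b1, a2) (b1, b2) := by
    rcases le_total a2 b2 with h | h
    · exact hver hmid (mem_cbox.2 hb) h
    · exact rtg_symm (hver (mem_cbox.2 hb) hmid h)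
  exact h1.trans h2

theorem exists_cbox (p : ℕ) (y : ℂ) : ∃ a, y ∈ cbox p a := by
  refine ⟨(round (y.re * 2 ^ p), round (y.im * 2 ^ p)), mem_cbox.2 ⟨?_, ?_⟩⟩
  · have := abs_sub_round (y.re * 2 ^ p); linarith
  · have := abs_sub_round (y.im * 2 ^ p); linarith

theorem exists_common {p : ℕ} {x y : ℂ} (h : dist x y ≤ 1 / 2 ^ p) :
    ∃ c, x ∈ cbox p c ∧ y ∈ cbox p c := by
  have hp : (0 : ℝ) < 2 ^ p := by positivity
  have h1 : |(x - y).re| ≤ 1 / 2 ^ p := (Complex.abs_re_le_norm _).trans (by rwa [← dist_eq_norm])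
  have h2 : |(x - y).im| ≤ 1 / 2 ^ p := (Complex.abs_im_le_norm _).trans (by rwa [← dist_eq_norm])
  have aux : ∀ u v : ℝ, |u - v| ≤ 1 / 2 ^ p →
      |u * 2 ^ p - round ((u + v) / 2 * 2 ^ p)| ≤ 1 ∧ |v * 2 ^ p - round ((u + v) / 2 * 2 ^ p)| ≤ 1 := by
    intro u v huv
    have h3 := abs_le.1 (abs_sub_round ((u + v) / 2 * 2 ^ p))
    have h4 : |(u - v) * 2 ^ p| ≤ 1 := by
      rw [abs_mul, abs_of_pos hp]
      rwa [le_div_iff₀ hp] at huv
    have h5 := abs_le.1 h4
    constructor <;> rw [abs_le] <;> constructor <;> nlinarith [h3.1, h3.2, h5.1, h5.2]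
  refine ⟨(round ((x.re + y.re) / 2 * 2 ^ p), round ((x.im + y.im) / 2 * 2 ^ p)), ?_, ?_⟩
  · exact mem_cbox.2 ⟨(aux _ _ (by simpa using h1)).1, (aux _ _ (by simpa using h2)).1⟩
  · exact mem_cbox.2 ⟨(aux _ _ (by simpa using h1)).2, (aux _ _ (by simpa using h2)).2⟩

/-- A preconnected set is followed by a chain of squares. -/
theorem conn_of_preconnected {S : Set ℂ} (hS : IsPreconnected S) {p : ℕ} {B : ℤ × ℤ → Prop}
    (hB : ∀ y ∈ S, ∀ a, y ∈ cbox p a → B a) {y₀ y₁ : ℂ} (h₀ : y₀ ∈ S) (h₁ : y₁ ∈ S)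
    {a b : ℤ × ℤ} (ha : y₀ ∈ cbox p a) (hb : y₁ ∈ cbox p b) : ReflTransGen (Stp B) a b := by
  refine hS.induction₂ (fun x y => ∀ a b, x ∈ cbox p a → y ∈ cbox p b → ReflTransGen (Stp B) a b)
    ?_ ?_ ?_ h₀ h₁ a b ha hb
  · intro x hx
    have h1 : Metric.ball x (1 / 2 ^ p) ∈ 𝓝[S] x :=
      mem_nhdsWithin_of_mem_nhds (Metric.ball_mem_nhds x (by positivity))
    filter_upwards [h1, self_mem_nhdsWithin] with y hy hyS a b ha hb
    obtain ⟨c, hc, hc'⟩ := exists_common (p := p) (x := x) (y := y)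
      (by rw [dist_comm]; exact (Metric.mem_ball.1 hy).le)
    exact (near_conn (hB x hx) ha hc).trans (near_conn (hB y hyS) hc' hb)
  · intro x y z _ _ _ hxy hyz a c ha hc
    obtain ⟨b, hb⟩ := exists_cbox p y
    exact (hxy a b ha hb).trans (hyz b c hb hc)
  · intro x y _ _ hxy a b ha hb
    exact rtg_symm (hxy b a hb ha)

/-! ### The unbounded component -/

theorem mem_outC_iff {K s : Set ℂ} (hs : IsPreconnected s) (hsc : s ⊆ Kᶜ) {z w : ℂ} (hz : z ∈ s)
    (hw : w ∈ s) : z ∈ outC K ↔ w ∈ outC K := by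
  have h1 : w ∈ connectedComponentIn Kᶜ z := hs.subset_connectedComponentIn hz hsc hw
  have h2 := connectedComponentIn_eq h1
  unfold outC
  rw [mem_ofPred_eq, mem_ofPred_eq, h2]

theorem outC_sub {K : Set ℂ} {z : ℂ} (hz : z ∈ outC K) : z ∉ K := by
  intro h
  apply hz
  rw [connectedComponentIn_eq_empty (by simpa using h)]
  exact Bornology.isBounded_empty

theorem isOpen_outC {K : Set ℂ} (hK : IsClosed K) : IsOpen (outC K) := by
  have hc : IsOpen Kᶜ := hK.isOpen_compl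
  rw [isOpen_iff_forall_mem_open]
  intro z hz
  refine ⟨connectedComponentIn Kᶜ z, ?_, hc.connectedComponentIn, ?_⟩
  · intro w hw
    unfold outC at hz ⊢
    rw [mem_ofPred_eq] at hz ⊢
    rwa [← connectedComponentIn_eq hw]
  · exact mem_connectedComponentIn (outC_sub hz)

theorem outB_sub {K : Set ℂ} (hK : IsClosed K) : outB K ⊆ K := by
  intro z hz
  by_contra hcon
  obtain ⟨ε, hε, hb⟩ := Metric.isOpen_iff.1 hK.isOpen_compl z hcon
  have hz1 : z ∈ closure (outC K) := frontier_subset_closure hz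
  obtain ⟨w, hw, hd⟩ := Metric.mem_closure_iff.1 hz1 ε hε
  have h1 : z ∈ outC K :=
    (mem_outC_iff (convex_ball z ε).isPreconnected hb (Metric.mem_ball_self hε)
      (by rw [Metric.mem_ball, dist_comm]; exact hd)).2 hw
  have h2 : z ∈ interior (outC K) := by rw [(isOpen_outC hK).interior_eq]; exact h1
  exact hz.2 h2

theorem isCompact_outB {K : Set ℂ} (hK : IsCompact K) : IsCompact (outB K) :=
  hK.of_isClosed_subset isClosed_frontier (outB_sub hK.isClosed)

/-- A convex set which contains a point of `K` and a point of the unbounded component contains a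
point of the outer boundary. -/
theorem exists_outB {K s : Set ℂ} (hK : IsClosed K) (hs : Convex ℝ s) {x y : ℂ} (hx : x ∈ s)
    (hxK : x ∈ K) (hy : y ∈ s) (hyU : y ∈ outC K) : ∃ w ∈ s, w ∈ outB K := by
  by_contra hcon
  push Not at hcon
  have hO := isOpen_outC hK
  have hsub : s ⊆ outC K ∪ (closure (outC K))ᶜ := by
    intro w hw
    by_cases h : w ∈ closure (outC K)
    · left
      by_contra h'
      exact hcon w hw ⟨h, by rwa [hO.interior_eq]⟩
    · right; exact h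
  have h := IsPreconnected.subset_left_of_subset_union hO isClosed_closure.isOpen_compl
    (disjoint_compl_right.mono_left subset_closure) hsub ⟨y, hy, hyU⟩ hs.isPreconnected
  exact outC_sub (h hx) hxK

theorem far_mem_outC {K : Set ℂ} (hK : K ⊆ unitSq) {p : ℕ} {b : ℤ × ℤ} (hb : Far p b) :
    pt p b ∈ outC K := by
  have hp : (0 : ℝ) < 2 ^ p := by positivity
  -- a ray which avoids the unit square
  have key : ∀ (d : ℂ), d ≠ 0 → (∀ t : ℝ, 0 ≤ t → pt p b + t * d ∉ unitSq) → pt p b ∈ outC K := by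
    intro d hd0 hd hbd
    set R : Set ℂ := (fun t : ℝ => pt p b + t * d) '' Ici 0 with hR
    have hpre : IsPreconnected R :=
      isPreconnected_Ici.image _ (by fun_prop)
    have hsub : R ⊆ Kᶜ := by
      rintro w ⟨t, ht, rfl⟩ hwK
      exact hd t ht (hK hwK)
    have hmem : pt p b ∈ R := ⟨0, mem_Ici.2 le_rfl, by simp⟩
    have h1 : Bornology.IsBounded R := hbd.subset (hpre.subset_connectedComponentIn hmem hsub)
    obtain ⟨C, hC⟩ := h1.subset_closedBall (pt p b)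
    have hC0 : 0 ≤ C := by
      have := hC hmem
      rw [Metric.mem_closedBall, dist_self] at this; exact this
    have h2 := hC (show pt p b + ((C + 1) / ‖d‖ : ℝ) * d ∈ R from
      ⟨(C + 1) / ‖d‖, mem_Ici.2 (by positivity), rfl⟩)
    rw [Metric.mem_closedBall, dist_eq_norm, add_sub_cancel_left, norm_mul, Complex.norm_real,
      Real.norm_of_nonneg (by positivity), div_mul_cancel₀ _ (norm_ne_zero_iff.2 hd0)] at h2
    linarith
  rcases hb with hb | hb
  · have h1 : (2 : ℝ) < |(b.1 : ℝ) / 2 ^ p| := by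
      rw [abs_div, abs_of_pos hp, lt_div_iff₀ hp]
      have : ((2 * 2 ^ p : ℤ) : ℝ) < ((|b.1| : ℤ) : ℝ) := by exact_mod_cast hb
      push_cast at this
      exact this
    rcases lt_abs.1 h1 with h | h
    · refine key 1 one_ne_zero fun t ht hcon => ?_
      have := hcon.2.1
      simp [pt] at this
      linarith
    · refine key (-1) (by norm_num) fun t ht hcon => ?_
      have := hcon.1
      simp [pt] at this
      linarith
  · have h1 : (2 : ℝ) < |(b.2 : ℝ) / 2 ^ p| := by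
      rw [abs_div, abs_of_pos hp, lt_div_iff₀ hp]
      have : ((2 * 2 ^ p : ℤ) : ℝ) < ((|b.2| : ℤ) : ℝ) := by exact_mod_cast hb
      push_cast at this
      exact this
    rcases lt_abs.1 h1 with h | h
    · refine key Complex.I Complex.I_ne_zero fun t ht hcon => ?_
      have := hcon.2.2.2
      simp [pt] at this
      linarith
    · refine key (-Complex.I) (by simp) fun t ht hcon => ?_
      have := hcon.2.2.1
      simp [pt] at this
      linarith

theorem pt_mem_cell (p : ℕ) (a : ℤ × ℤ) : pt p a ∈ cell p a := by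
  rw [mem_cell]
  have hp : (2 : ℝ) ^ p ≠ 0 := by positivity
  simp [pt, div_mul_cancel₀ _ hp]

/-- A chain of free open squares stays in one component of the complement. -/
theorem step_outC {K : Set ℂ} {p : ℕ} {a b : ℤ × ℤ} (h : Stp (FreeO p K) a b) :
    pt p a ∈ outC K ↔ pt p b ∈ outC K := by
  have hp : (0 : ℝ) < 2 ^ p := by positivity
  obtain ⟨hadj, ha, hb⟩ := h
  -- the midpoint lies in both squares
  set c : ℂ := (pt p a + pt p b) / 2 with hc
  have hdiff : |((a.1 : ℝ) - b.1)| ≤ 1 ∧ |((a.2 : ℝ) - b.2)| ≤ 1 := by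
    rcases hadj with ⟨h1, h2⟩ | ⟨h1, h2⟩
    · refine ⟨by rw [h1, sub_self, abs_zero]; norm_num, ?_⟩
      have : (|a.2 - b.2| : ℤ) ≤ 1 := h2.le
      exact_mod_cast this
    · refine ⟨?_, by rw [h2, sub_self, abs_zero]; norm_num⟩
      have : (|a.1 - b.1| : ℤ) ≤ 1 := h1.le
      exact_mod_cast this
  have hre : c.re * 2 ^ p = ((a.1 : ℝ) + b.1) / 2 := by
    have : c.re = ((a.1 : ℝ) / 2 ^ p + b.1 / 2 ^ p) / 2 := by simp [hc, pt]
    rw [this]; field_simp
  have him : c.im * 2 ^ p = ((a.2 : ℝ) + b.2) / 2 := by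
    have : c.im = ((a.2 : ℝ) / 2 ^ p + b.2 / 2 ^ p) / 2 := by simp [hc, pt]
    rw [this]; field_simp
  have h3 := abs_le.1 hdiff.1
  have h4 := abs_le.1 hdiff.2
  have hca : c ∈ cell p a := by
    rw [mem_cell, hre, him, abs_lt, abs_lt]
    refine ⟨⟨?_, ?_⟩, ?_, ?_⟩ <;> linarith [h3.1, h3.2, h4.1, h4.2]
  have hcb : c ∈ cell p b := by
    rw [mem_cell, hre, him, abs_lt, abs_lt]
    refine ⟨⟨?_, ?_⟩, ?_, ?_⟩ <;> linarith [h3.1, h3.2, h4.1, h4.2]
  have hconv : ∀ a : ℤ × ℤ, IsPreconnected (cell p a) := by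
    intro a
    have hcv : Convex ℝ (cell p a) := by
      have e : cell p a = {w : ℂ | |w.re - a.1 / 2 ^ p| < 1 / 2 ^ p} ∩
          {w : ℂ | |w.im - a.2 / 2 ^ p| < 1 / 2 ^ p} := rfl
      rw [e]
      refine Convex.inter ?_ ?_
      · have e1 : {w : ℂ | |w.re - a.1 / 2 ^ p| < 1 / 2 ^ p} =
            Complex.reLm ⁻¹' (Metric.ball ((a.1 : ℝ) / 2 ^ p) (1 / 2 ^ p)) := by
          ext w; simp [Real.dist_eq]
        rw [e1]
        exact (convex_ball _ _).linear_preimage _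
      · have e1 : {w : ℂ | |w.im - a.2 / 2 ^ p| < 1 / 2 ^ p} =
            Complex.imLm ⁻¹' (Metric.ball ((a.2 : ℝ) / 2 ^ p) (1 / 2 ^ p)) := by
          ext w; simp [Real.dist_eq]
        rw [e1]
        exact (convex_ball _ _).linear_preimage _
    exact hcv.isPreconnected
  have h5 := mem_outC_iff (hconv a) (fun w hw hwK => Set.disjoint_left.1 ha hw hwK) (pt_mem_cell p a) hca
  have h6 := mem_outC_iff (hconv b) (fun w hw hwK => Set.disjoint_left.1 hb hw hwK) (pt_mem_cell p b) hcb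
  rw [h5, h6]

theorem mem_outC_of_chain {K : Set ℂ} (hK : K ⊆ unitSq) {p : ℕ} {a b : ℤ × ℤ} (hb : Far p b)
    (h : ReflTransGen (Stp (FreeO p K)) a b) : pt p a ∈ outC K := by
  induction h using ReflTransGen.head_induction_on with
  | refl => exact far_mem_outC hK hb
  | head h1 _ ih => exact (step_outC h1).2 ih

end Pool.Agent.PercS5

end Parth60OutChain

section Parth60OutLim

/-!
# Weak limits of random compact sets: the dimension of the outer boundary
-/

set_option autoImplicit false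

namespace Pool.Agent.PercS5

open Set Filter Topology MeasureTheory TopologicalSpace Relation
open Pool.Agent.PercD
open scoped ENNReal NNReal

theorem isClosed_cbox (p : ℕ) (a : ℤ × ℤ) : IsClosed (cbox p a) := by
  have h1 : Continuous fun w : ℂ => |w.re - a.1 / 2 ^ p| := by fun_prop
  have h2 : Continuous fun w : ℂ => |w.im - a.2 / 2 ^ p| := by fun_prop
  exact (isClosed_le h1 continuous_const).inter (isClosed_le h2 continuous_const)

theorem dist_le_of_cbox {p : ℕ} {a : ℤ × ℤ} {w y : ℂ} (hw : w ∈ cbox p a) (hy : y ∈ cbox p a) :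
    dist w y ≤ 4 / 2 ^ p := by
  have h1 : |(w - y).re| ≤ 2 / 2 ^ p := by
    have a1 := abs_le.1 hw.1
    have a2 := abs_le.1 hy.1
    have e : (2 : ℝ) / 2 ^ p = 1 / 2 ^ p + 1 / 2 ^ p := by ring
    rw [Complex.sub_re, abs_le]; constructor <;> linarith [a1.1, a1.2, a2.1, a2.2]
  have h2 : |(w - y).im| ≤ 2 / 2 ^ p := by
    have a1 := abs_le.1 hw.2
    have a2 := abs_le.1 hy.2
    have e : (2 : ℝ) / 2 ^ p = 1 / 2 ^ p + 1 / 2 ^ p := by ring
    rw [Complex.sub_im, abs_le]; constructor <;> linarith [a1.1, a1.2, a2.1, a2.2]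
  calc dist w y = ‖w - y‖ := dist_eq_norm _ _
    _ ≤ |(w - y).re| + |(w - y).im| := Complex.norm_le_abs_re_add_abs_im _
    _ ≤ 2 / 2 ^ p + 2 / 2 ^ p := add_le_add h1 h2
    _ = 4 / 2 ^ p := by ring

theorem pt_mem_cbox (p : ℕ) (a : ℤ × ℤ) : pt p a ∈ cbox p a := cell_sub_cbox p a (pt_mem_cell p a)

theorem dist_pt_le {p : ℕ} {a : ℤ × ℤ} {w : ℂ} (hw : w ∈ cbox p a) : dist (pt p a) w ≤ 2 / 2 ^ p := by
  have h1 : |(pt p a - w).re| ≤ 1 / 2 ^ p := by
    rw [Complex.sub_re, abs_sub_comm]; exact hw.1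
  have h2 : |(pt p a - w).im| ≤ 1 / 2 ^ p := by
    rw [Complex.sub_im, abs_sub_comm]; exact hw.2
  calc dist (pt p a) w = ‖pt p a - w‖ := dist_eq_norm _ _
    _ ≤ |(pt p a - w).re| + |(pt p a - w).im| := Complex.norm_le_abs_re_add_abs_im _
    _ ≤ 1 / 2 ^ p + 1 / 2 ^ p := add_le_add h1 h2
    _ = 2 / 2 ^ p := by ring

theorem convex_cbox (p : ℕ) (a : ℤ × ℤ) : Convex ℝ (cbox p a) := by
  have e : cbox p a = {w : ℂ | |w.re - a.1 / 2 ^ p| ≤ 1 / 2 ^ p} ∩
      {w : ℂ | |w.im - a.2 / 2 ^ p| ≤ 1 / 2 ^ p} := rfl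
  rw [e]
  refine Convex.inter ?_ ?_
  · have e1 : {w : ℂ | |w.re - a.1 / 2 ^ p| ≤ 1 / 2 ^ p} =
        Complex.reLm ⁻¹' (Metric.closedBall ((a.1 : ℝ) / 2 ^ p) (1 / 2 ^ p)) := by
      ext w; simp [Real.dist_eq]
    rw [e1]
    exact (convex_closedBall _ _).linear_preimage _
  · have e1 : {w : ℂ | |w.im - a.2 / 2 ^ p| ≤ 1 / 2 ^ p} =
        Complex.imLm ⁻¹' (Metric.closedBall ((a.2 : ℝ) / 2 ^ p) (1 / 2 ^ p)) := by
      ext w; simp [Real.dist_eq]
    rw [e1]
    exact (convex_closedBall _ _).linear_preimage _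

/-! ### Upper bound -/

theorem eventually_freeC {K₀ : NonemptyCompacts ℂ} {p : ℕ} {a : ℤ × ℤ} (h : FreeC p K₀ a) :
    ∀ᶠ K : NonemptyCompacts ℂ in 𝓝 K₀, FreeC p K a := by
  have h1 : IsOpen {K : NonemptyCompacts ℂ | (K : Set ℂ) ⊆ (cbox p a)ᶜ} :=
    NonemptyCompacts.isOpen_subsets_of_isOpen (isClosed_cbox p a).isOpen_compl
  filter_upwards [h1.mem_nhds (show K₀ ∈ {K : NonemptyCompacts ℂ | (K : Set ℂ) ⊆ (cbox p a)ᶜ} from
    fun w hw hw' => Set.disjoint_left.1 h hw' hw)] with K hK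
  exact Set.disjoint_left.2 fun w hw hw' => hK hw' hw

theorem eventually_rtg {K₀ : NonemptyCompacts ℂ} {p : ℕ} {a b : ℤ × ℤ}
    (h : ReflTransGen (Stp (FreeC p K₀)) a b) :
    ∀ᶠ K : NonemptyCompacts ℂ in 𝓝 K₀, ReflTransGen (Stp (FreeC p K)) a b := by
  induction h with
  | refl => exact Eventually.of_forall fun _ => .refl
  | tail _ h2 ih =>
    filter_upwards [ih, eventually_freeC h2.2.1, eventually_freeC h2.2.2] with K h3 h4 h5
    exact h3.tail ⟨h2.1, h4, h5⟩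

theorem eventually_seenC {K₀ : NonemptyCompacts ℂ} {p m : ℕ} {z : ℤ × ℤ} (h : SeenC p m z K₀) :
    ∀ᶠ K : NonemptyCompacts ℂ in 𝓝 K₀, SeenC p m z K := by
  obtain ⟨a, b, h1, h2, h3, h4⟩ := h
  filter_upwards [eventually_freeC h3, eventually_rtg h4] with K h5 h6
  exact ⟨a, b, h1, h2, h5, h6⟩

/-- The cell `z` of level `m` meets `K` and sees infinity through squares of mesh at least
`2 ^ (-p)`. -/
def HitC (p m : ℕ) (K : Set ℂ) (z : ℤ × ℤ) : Prop :=
  (K ∩ cell m z).Nonempty ∧ ∃ p' ≤ p, SeenC p' m z K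

open Classical in
/-- The number of cells of level `m` which meet `K` and see infinity. -/
noncomputable def NC (p m : ℕ) (K : Set ℂ) : ℕ := ((idx m).filter (HitC p m K)).card

/-- The weighted sum of the cell counts. -/
noncomputable def SmC (s : ℝ) (M p : ℕ) (K : Set ℂ) : ℝ :=
  ∑ m ∈ Finset.range M, (1 / 2 ^ m : ℝ) ^ s * NC p m K

theorem HitC.mono {p p' m : ℕ} (h : p ≤ p') {K : Set ℂ} {z : ℤ × ℤ} (hz : HitC p m K z) :
    HitC p' m K z := by
  obtain ⟨h1, q, hq, h2⟩ := hz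
  exact ⟨h1, q, hq.trans h, h2⟩

theorem NC_mono {p p' : ℕ} (h : p ≤ p') (m : ℕ) (K : Set ℂ) : NC p m K ≤ NC p' m K := by
  classical
  refine Finset.card_le_card fun z hz => ?_
  rw [Finset.mem_filter] at hz ⊢
  exact ⟨hz.1, hz.2.mono h⟩

theorem SmC_mono {s : ℝ} {M M' p p' : ℕ} (hM : M ≤ M') (hp : p ≤ p') (K : Set ℂ) :
    SmC s M p K ≤ SmC s M' p' K := by
  unfold SmC
  refine (Finset.sum_le_sum fun m _ => ?_).trans
    (Finset.sum_le_sum_of_subset_of_nonneg (Finset.range_mono hM) fun m _ _ => by positivity)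
  refine mul_le_mul_of_nonneg_left ?_ (by positivity)
  exact_mod_cast NC_mono hp m K

theorem isOpen_SmC (s lam : ℝ) (M p : ℕ) :
    IsOpen {K : NonemptyCompacts ℂ | lam < SmC s M p (K : Set ℂ)} := by
  classical
  rw [isOpen_iff_mem_nhds]
  intro K₀ hK₀
  rw [mem_ofPred_eq] at hK₀
  have h1 : ∀ m ∈ Finset.range M, ∀ z ∈ (idx m).filter (HitC p m (K₀ : Set ℂ)),
      ∀ᶠ K : NonemptyCompacts ℂ in 𝓝 K₀, HitC p m (K : Set ℂ) z := by
    intro m _ z hz
    obtain ⟨h2, q, hq, h3⟩ := (Finset.mem_filter.1 hz).2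
    have h4 : IsOpen {K : NonemptyCompacts ℂ | ((K : Set ℂ) ∩ cell m z).Nonempty} :=
      NonemptyCompacts.isOpen_inter_nonempty_of_isOpen (isOpen_cell m z)
    filter_upwards [h4.mem_nhds h2, eventually_seenC h3] with K h5 h6
    exact ⟨h5, q, hq, h6⟩
  have h2 : ∀ᶠ K : NonemptyCompacts ℂ in 𝓝 K₀, ∀ m ∈ Finset.range M,
      ∀ z ∈ (idx m).filter (HitC p m (K₀ : Set ℂ)), HitC p m (K : Set ℂ) z := by
    rw [eventually_all_finset]
    intro m hm
    rw [eventually_all_finset]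
    exact h1 m hm
  filter_upwards [h2] with K hK
  refine lt_of_lt_of_le hK₀ ?_
  refine Finset.sum_le_sum fun m hm => ?_
  refine mul_le_mul_of_nonneg_left ?_ (by positivity)
  have : NC p m (K₀ : Set ℂ) ≤ NC p m (K : Set ℂ) := by
    refine Finset.card_le_card fun z hz => ?_
    have h3 := hK m hm z hz
    rw [Finset.mem_filter] at hz ⊢
    exact ⟨hz.1, h3⟩
  exact_mod_cast this

/-- A cell which contains a point of the unbounded component sees infinity. -/
theorem seenC_of_mem {K : Set ℂ} (hK : IsCompact K) {m : ℕ} {z : ℤ × ℤ}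
    (h : (outC K ∩ cell m z).Nonempty) : ∀ᶠ p in atTop, SeenC p m z K := by
  obtain ⟨y, hyU, hyc⟩ := h
  have hKc : IsOpen Kᶜ := hK.isClosed.isOpen_compl
  set C := connectedComponentIn Kᶜ y with hC
  have hCo : IsOpen C := hKc.connectedComponentIn
  have hCc : IsConnected C := isConnected_connectedComponentIn_iff.2 (outC_sub hyU)
  have hCp : IsPathConnected C := hCo.isConnected_iff_isPathConnected.1 hCc
  have hyC : y ∈ C := mem_connectedComponentIn (outC_sub hyU)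
  obtain ⟨y₁, hy₁, hy₁'⟩ : ∃ y₁ ∈ C, 10 < ‖y₁‖ := by
    by_contra hcon
    push Not at hcon
    apply hyU
    refine (Metric.isBounded_closedBall (x := (0 : ℂ)) (r := 10)).subset fun w hw => ?_
    rw [mem_closedBall_zero_iff]
    exact hcon w hw
  obtain ⟨γ, hγ⟩ := hCp.joinedIn y hyC y₁ hy₁
  set S : Set ℂ := Set.range γ with hS
  have hSpre : IsPreconnected S := isPreconnected_range γ.continuous
  have hScpt : IsCompact S := isCompact_range γ.continuous
  have hSK : S ⊆ Kᶜ := by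
    rintro w ⟨t, rfl⟩
    exact connectedComponentIn_subset _ _ (hγ t)
  obtain ⟨δ, hδ, hδ'⟩ := hScpt.exists_thickening_subset_open hKc hSK
  obtain ⟨ε, hε, hε'⟩ := Metric.isOpen_iff.1 (isOpen_cell m z) y hyc
  have hlim : Tendsto (fun p : ℕ => (4 : ℝ) / 2 ^ p) atTop (𝓝 0) := by
    have := (tendsto_pow_atTop_nhds_zero_of_lt_one (by norm_num : (0 : ℝ) ≤ 1 / 2)
      (by norm_num)).const_mul (4 : ℝ)
    rw [mul_zero] at this
    refine this.congr fun m => ?_
    rw [one_div, inv_pow]; rfl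
  filter_upwards [hlim.eventually_lt_const hδ, hlim.eventually_lt_const hε] with p hp1 hp2
  have hp : (0 : ℝ) < 2 ^ p := by positivity
  have hB : ∀ w ∈ S, ∀ a, w ∈ cbox p a → FreeC p K a := by
    intro w hw a ha
    refine Set.disjoint_left.2 fun x hx hxK => ?_
    refine hδ' (Metric.mem_thickening_iff.2 ⟨w, hw, ?_⟩) hxK
    exact (dist_le_of_cbox hx ha).trans_lt hp1
  obtain ⟨a, ha⟩ := exists_cbox p y
  obtain ⟨b, hb⟩ := exists_cbox p y₁
  have hyS : y ∈ S := ⟨0, γ.source⟩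
  have hy₁S : y₁ ∈ S := ⟨1, γ.target⟩
  refine ⟨a, b, ?_, ?_, hB y hyS a ha, conn_of_preconnected hSpre hB hyS hy₁S ha hb⟩
  · apply hε'
    rw [Metric.mem_ball]
    refine lt_of_le_of_lt (dist_pt_le ha) (lt_trans ?_ hp2)
    rw [div_lt_div_iff_of_pos_right hp]; norm_num
  · have h1 : ‖y₁‖ ≤ |y₁.re| + |y₁.im| := Complex.norm_le_abs_re_add_abs_im _
    rw [mem_cbox] at hb
    have h2 : (1 : ℝ) ≤ 2 ^ p := one_le_pow₀ (by norm_num)
    have aux : ∀ (x : ℝ) (k : ℤ), 5 < |x| → |x * 2 ^ p - k| ≤ 1 → 2 * 2 ^ p < |k| := by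
      intro x k hx hk
      have h3 : 5 * 2 ^ p < |x * 2 ^ p| := by
        rw [abs_mul, abs_of_pos hp]
        exact mul_lt_mul_of_pos_right hx hp
      have h4 : |x * 2 ^ p| ≤ |x * 2 ^ p - k| + |(k : ℝ)| := by
        have := abs_add_le (x * 2 ^ p - k) (k : ℝ)
        rwa [sub_add_cancel] at this
      have h5 : (2 * 2 ^ p : ℝ) < |(k : ℝ)| := by linarith
      exact_mod_cast h5
    by_cases h3 : 5 < |y₁.re|
    · exact Or.inl (aux _ _ h3 hb.1)
    · refine Or.inr (aux _ _ ?_ hb.2)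
      push Not at h3
      linarith

theorem hitC_of_outB {K : Set ℂ} (hK : IsCompact K) {m : ℕ} {z : ℤ × ℤ}
    (h : (outB K ∩ cell m z).Nonempty) : ∀ᶠ p in atTop, HitC p m K z := by
  obtain ⟨x, hx, hxc⟩ := h
  have h1 : (outC K ∩ cell m z).Nonempty := by
    obtain ⟨ε, hε, hε'⟩ := Metric.isOpen_iff.1 (isOpen_cell m z) x hxc
    obtain ⟨w, hw, hd⟩ := Metric.mem_closure_iff.1 (frontier_subset_closure hx) ε hε
    exact ⟨w, hw, hε' (by rw [Metric.mem_ball, dist_comm]; exact hd)⟩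
  filter_upwards [seenC_of_mem hK h1] with p hp
  exact ⟨⟨x, outB_sub hK.isClosed hx, hxc⟩, p, le_rfl, hp⟩

theorem dimH_outB_le_of_SmC {s : ℝ≥0} {K : Set ℂ} (hc : IsCompact K) (hK : K ⊆ unitSq) {lam : ℝ}
    (h : ∀ n, SmC s n n K ≤ lam) : dimH (outB K) ≤ s := by
  classical
  refine dimH_le_of_Sm ((outB_sub hc.isClosed).trans hK) (lam := lam) fun M => ?_
  have h1 : ∀ᶠ p in atTop, ∀ m ∈ Finset.range M,
      ∀ z ∈ (idx m).filter (fun z => (outB K ∩ cell m z).Nonempty), HitC p m K z := by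
    rw [eventually_all_finset]
    intro m _
    rw [eventually_all_finset]
    intro z hz
    exact hitC_of_outB hc (Finset.mem_filter.1 hz).2
  obtain ⟨p, hp⟩ := h1.exists
  refine le_trans ?_ ((SmC_mono (le_max_left M p) (le_max_right M p) K).trans (h (max M p)))
  refine Finset.sum_le_sum fun m hm => ?_
  refine mul_le_mul_of_nonneg_left ?_ (by positivity)
  have : Nm m (outB K) ≤ NC p m K := by
    refine Finset.card_le_card fun z hz => ?_
    have h3 := hp m hm z (by convert hz)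
    rw [Finset.mem_filter] at hz ⊢
    exact ⟨hz.1, h3⟩
  exact_mod_cast this

/-! ### Lower bound -/

/-- The closed cell `z` of level `m` meets `K` and sees infinity through open squares of mesh
`2 ^ (-p)` which avoid `K`. -/
def HitO (p m : ℕ) (K : Set ℂ) (z : ℤ × ℤ) : Prop := (K ∩ cbox m z).Nonempty ∧ SeenO p m z K

open Classical in
/-- The set of these cells. -/
noncomputable def GO (p m : ℕ) (K : Set ℂ) : Finset (ℤ × ℤ) := (idx m).filter (HitO p m K)

/-- A probability measure on the cells of `Φ` with energy at most `A`. -/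
def Good (s : ℝ) (m : ℕ) (A : ℝ) (Φ : Finset (ℤ × ℤ)) : Prop :=
  ∃ c : ℤ × ℤ → ℝ, (∀ z, 0 ≤ c z) ∧ ∑ z ∈ Φ, c z = 1 ∧
    ∑ z ∈ Φ, ∑ z' ∈ Φ, c z * c z' * (max (dist (pt m z) (pt m z')) (1 / 2 ^ m)) ^ (-s) ≤ A

theorem Good.mono {s : ℝ} {m : ℕ} {A : ℝ} {Φ Φ' : Finset (ℤ × ℤ)} (h : Φ ⊆ Φ')
    (hG : Good s m A Φ) : Good s m A Φ' := by
  classical
  obtain ⟨c, h0, h1, h2⟩ := hG
  refine ⟨fun z => if z ∈ Φ then c z else 0, fun z => ?_, ?_, ?_⟩
  · dsimp only
    split_ifs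
    · exact h0 z
    · exact le_rfl
  · rw [← h1, Finset.sum_ite_mem, Finset.inter_eq_right.2 h]
  · refine le_trans (le_of_eq ?_) h2
    have e1 : ∀ z z' : ℤ × ℤ, (if z ∈ Φ then c z else 0) * (if z' ∈ Φ then c z' else 0) *
        (max (dist (pt m z) (pt m z')) (1 / 2 ^ m)) ^ (-s) =
        if z ∈ Φ then (if z' ∈ Φ then c z * c z' *
          (max (dist (pt m z) (pt m z')) (1 / 2 ^ m)) ^ (-s) else 0) else 0 := by
      intro z z'
      split_ifs <;> simp
    simp_rw [e1]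
    rw [← Finset.sum_subset h fun z _ hz => by simp [hz]]
    refine Finset.sum_congr rfl fun z hz => ?_
    simp only [hz, if_true]
    rw [Finset.sum_ite_mem, Finset.inter_eq_right.2 h]

theorem Good.mono_right {s : ℝ} {m : ℕ} {A A' : ℝ} (hA : A ≤ A') {Φ : Finset (ℤ × ℤ)}
    (hG : Good s m A Φ) : Good s m A' Φ := by
  obtain ⟨c, h0, h1, h2⟩ := hG
  exact ⟨c, h0, h1, h2.trans hA⟩

/-- The squares which meet a compact set are finitely many. -/
theorem finite_not_freeO {K : Set ℂ} (hK : IsCompact K) (p : ℕ) : {a | ¬ FreeO p K a}.Finite := by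
  obtain ⟨R, hR⟩ := hK.isBounded.subset_closedBall (0 : ℂ)
  have hp : (0 : ℝ) < 2 ^ p := by positivity
  obtain ⟨N, hN⟩ := exists_nat_gt (R * 2 ^ p + 1)
  refine ((Finset.Icc (-(N : ℤ)) N ×ˢ Finset.Icc (-(N : ℤ)) N).finite_toSet).subset ?_
  intro a ha
  obtain ⟨w, hw, hwK⟩ := Set.not_disjoint_iff.1 ha
  rw [mem_cell] at hw
  have h1 := hR hwK
  rw [mem_closedBall_zero_iff] at h1
  have aux : ∀ (x : ℝ) (k : ℤ), |x| ≤ R → |x * 2 ^ p - k| < 1 → -(N : ℤ) ≤ k ∧ k ≤ N := by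
    intro x k hx hk
    have h3 : |x * 2 ^ p| ≤ R * 2 ^ p := by
      rw [abs_mul, abs_of_pos hp]
      exact mul_le_mul_of_nonneg_right hx hp.le
    have h4 := abs_lt.1 hk
    have h5 := abs_le.1 h3
    have h6 : -(N : ℝ) ≤ k := by linarith [h4.1, h4.2, h5.1, h5.2]
    have h7 : (k : ℝ) ≤ N := by linarith [h4.1, h4.2, h5.1, h5.2]
    exact ⟨by exact_mod_cast h6, by exact_mod_cast h7⟩
  have h8 := aux w.re a.1 ((Complex.abs_re_le_norm w).trans h1) hw.1
  have h9 := aux w.im a.2 ((Complex.abs_im_le_norm w).trans h1) hw.2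
  simp only [Finset.coe_product, Finset.coe_Icc, Set.mem_prod, Set.mem_Icc]
  exact ⟨h8, h9⟩

theorem eventually_freeO (K₀ : NonemptyCompacts ℂ) (p : ℕ) :
    ∀ᶠ K : NonemptyCompacts ℂ in 𝓝 K₀, ∀ a, FreeO p K a → FreeO p K₀ a := by
  have h1 : ∀ᶠ K : NonemptyCompacts ℂ in 𝓝 K₀,
      ∀ a ∈ (finite_not_freeO K₀.isCompact p).toFinset, ¬ FreeO p K a := by
    rw [eventually_all_finset]
    intro a ha
    rw [Set.Finite.mem_toFinset] at ha
    have h2 : ((K₀ : Set ℂ) ∩ cell p a).Nonempty := by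
      obtain ⟨w, hw, hwK⟩ := Set.not_disjoint_iff.1 ha
      exact ⟨w, hwK, hw⟩
    have h4 : IsOpen {K : NonemptyCompacts ℂ | ((K : Set ℂ) ∩ cell p a).Nonempty} :=
      NonemptyCompacts.isOpen_inter_nonempty_of_isOpen (isOpen_cell p a)
    filter_upwards [h4.mem_nhds h2] with K hK hcon
    obtain ⟨w, hw, hw'⟩ := hK
    exact Set.disjoint_left.1 hcon hw' hw
  filter_upwards [h1] with K hK a ha
  by_contra hcon
  exact hK a ((Set.Finite.mem_toFinset _).2 hcon) ha

theorem SeenO.mono {p m : ℕ} {z : ℤ × ℤ} {K K' : Set ℂ} (h : ∀ a, FreeO p K a → FreeO p K' a)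
    (hs : SeenO p m z K) : SeenO p m z K' := by
  obtain ⟨a, b, h1, h2, h3, h4⟩ := hs
  exact ⟨a, b, h1, h2, h a h3, rtg_mono h h4⟩

theorem eventually_not_hitO {K₀ : NonemptyCompacts ℂ} {p m : ℕ} {z : ℤ × ℤ} (h : ¬ HitO p m K₀ z) :
    ∀ᶠ K : NonemptyCompacts ℂ in 𝓝 K₀, ¬ HitO p m K z := by
  by_cases h1 : ((K₀ : Set ℂ) ∩ cbox m z).Nonempty
  · have h2 : ¬ SeenO p m z K₀ := fun h3 => h ⟨h1, h3⟩
    filter_upwards [eventually_freeO K₀ p] with K hK hcon
    exact h2 (hcon.2.mono hK)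
  · have h3 : IsOpen {K : NonemptyCompacts ℂ | (K : Set ℂ) ⊆ (cbox m z)ᶜ} :=
      NonemptyCompacts.isOpen_subsets_of_isOpen (isClosed_cbox m z).isOpen_compl
    filter_upwards [h3.mem_nhds (show K₀ ∈ {K : NonemptyCompacts ℂ | (K : Set ℂ) ⊆ (cbox m z)ᶜ}
      from fun w hw hw' => h1 ⟨w, hw, hw'⟩)] with K hK hcon
    obtain ⟨w, hw, hw'⟩ := hcon.1
    exact hK hw hw'

theorem isOpen_not_good (s A : ℝ) (m p : ℕ) :
    IsOpen {K : NonemptyCompacts ℂ | ¬ Good s m A (GO p m (K : Set ℂ))} := by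
  classical
  rw [isOpen_iff_mem_nhds]
  intro K₀ hK₀
  rw [mem_ofPred_eq] at hK₀
  have h1 : ∀ᶠ K : NonemptyCompacts ℂ in 𝓝 K₀,
      ∀ z ∈ (idx m).filter (fun z => ¬ HitO p m (K₀ : Set ℂ) z), ¬ HitO p m (K : Set ℂ) z := by
    rw [eventually_all_finset]
    intro z hz
    exact eventually_not_hitO (Finset.mem_filter.1 hz).2
  filter_upwards [h1] with K hK hcon
  refine hK₀ (hcon.mono fun z hz => ?_)
  unfold GO at hz ⊢
  rw [Finset.mem_filter] at hz ⊢
  refine ⟨hz.1, ?_⟩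
  by_contra hcon'
  exact hK z (Finset.mem_filter.2 ⟨hz.1, hcon'⟩) hz.2

/-- Weighted points with small truncated energy exclude efficient covers. -/
theorem energyW {s r η : ℝ} (hs : 0 ≤ s) (hr : 0 < r) {X : Set ℂ} (hc : Cov s r η X)
    {ι : Type*} (I : Finset ι) (x : ι → ℂ) (hx : ∀ i ∈ I, x i ∈ X) (c : ι → ℝ)
    (hc0 : ∀ i, 0 ≤ c i) :
    (∑ i ∈ I, c i) ^ 2 ≤ η * ∑ i ∈ I, ∑ j ∈ I, c i * c j * (max (dist (x i) (x j)) r) ^ (-s) := by
  classical
  obtain ⟨F, U, d, hU, hd0, hd, hK, hsum⟩ := hc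
  have h1 : ∀ i ∈ I, ∃ k ∈ F, x i ∈ U k := by
    intro i hi
    have := hK (hx i hi)
    simpa using this
  have h2 : ∀ i : ι, ∃ k, i ∈ I → k ∈ F ∧ x i ∈ U k := by
    intro i
    by_cases hi : i ∈ I
    · obtain ⟨k, hk, hk'⟩ := h1 i hi
      exact ⟨k, fun _ => ⟨hk, hk'⟩⟩
    · exact ⟨0, fun h => absurd h hi⟩
  choose g hg using h2
  set w : ℕ → ℝ := fun k => (max (d k) r) ^ s with hw
  have hwpos : ∀ k, 0 < w k := fun k => Real.rpow_pos_of_pos (lt_max_of_lt_right hr) _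
  set n : ℕ → ℝ := fun k => ∑ i ∈ I.filter (fun i => g i = k), c i with hn
  have hmass : ∑ i ∈ I, c i = ∑ k ∈ F, n k := by
    rw [← Finset.sum_fiberwise_of_maps_to (fun i hi => (hg i hi).1)]
  have hcs : (∑ k ∈ F, n k) ^ 2 ≤ (∑ k ∈ F, w k) * ∑ k ∈ F, n k ^ 2 / w k := by
    apply Finset.sum_sq_le_sum_mul_sum_of_sq_le_mul
    · exact fun k _ => (hwpos k).le
    · exact fun k _ => div_nonneg (sq_nonneg _) (hwpos k).le
    · intro k _
      rw [mul_div_cancel₀ _ (hwpos k).ne']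
  have hterm : ∀ i j, 0 ≤ c i * c j * (max (dist (x i) (x j)) r) ^ (-s) := fun i j =>
    mul_nonneg (mul_nonneg (hc0 i) (hc0 j)) (Real.rpow_nonneg (hr.le.trans (le_max_right _ _)) _)
  have hE : ∑ k ∈ F, n k ^ 2 / w k
      ≤ ∑ i ∈ I, ∑ j ∈ I, c i * c j * (max (dist (x i) (x j)) r) ^ (-s) := by
    have h3 : ∀ k ∈ F, n k ^ 2 / w k ≤
        ∑ i ∈ I.filter (fun i => g i = k),
          ∑ j ∈ I, c i * c j * (max (dist (x i) (x j)) r) ^ (-s) := by
      intro k _
      have h4 : n k ^ 2 / w k = ∑ i ∈ I.filter (fun i => g i = k),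
          ∑ j ∈ I.filter (fun i => g i = k), c i * c j * (w k)⁻¹ := by
        rw [sq, div_eq_mul_inv, hn]
        simp only
        rw [Finset.sum_mul_sum, Finset.sum_mul]
        refine Finset.sum_congr rfl fun i _ => ?_
        rw [Finset.sum_mul]
      rw [h4]
      refine Finset.sum_le_sum fun i hi => ?_
      rw [Finset.mem_filter] at hi
      refine (Finset.sum_le_sum fun j hj => ?_).trans
        (Finset.sum_le_sum_of_subset_of_nonneg (Finset.filter_subset _ _) fun j _ _ => hterm i j)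
      rw [Finset.mem_filter] at hj
      have hij : dist (x i) (x j) ≤ d k := by
        apply hd k
        · have := (hg i hi.1).2; rwa [hi.2] at this
        · have := (hg j hj.1).2; rwa [hj.2] at this
      have hm : max (dist (x i) (x j)) r ≤ max (d k) r := max_le_max hij le_rfl
      have hm0 : 0 < max (dist (x i) (x j)) r := lt_max_of_lt_right hr
      refine mul_le_mul_of_nonneg_left ?_ (mul_nonneg (hc0 i) (hc0 j))
      rw [Real.rpow_neg hm0.le]
      exact inv_anti₀ (Real.rpow_pos_of_pos hm0 _) (Real.rpow_le_rpow hm0.le hm hs)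
    refine (Finset.sum_le_sum h3).trans (le_of_eq ?_)
    rw [Finset.sum_fiberwise_of_maps_to (fun i hi => (hg i hi).1)]
  have hE0 : 0 ≤ ∑ i ∈ I, ∑ j ∈ I, c i * c j * (max (dist (x i) (x j)) r) ^ (-s) :=
    Finset.sum_nonneg fun i _ => Finset.sum_nonneg fun j _ => hterm i j
  have hw0 : 0 ≤ ∑ k ∈ F, w k := Finset.sum_nonneg fun k _ => (hwpos k).le
  calc (∑ i ∈ I, c i) ^ 2 = (∑ k ∈ F, n k) ^ 2 := by rw [hmass]
    _ ≤ (∑ k ∈ F, w k) * ∑ k ∈ F, n k ^ 2 / w k := hcs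
    _ ≤ (∑ k ∈ F, w k) * ∑ i ∈ I, ∑ j ∈ I, c i * c j * (max (dist (x i) (x j)) r) ^ (-s) :=
        mul_le_mul_of_nonneg_left hE hw0
    _ ≤ _ := mul_le_mul_of_nonneg_right hsum.le hE0

theorem not_cov_of_good {s : ℝ} (hs : 0 ≤ s) {K : Set ℂ} (hc : IsCompact K) (hK : K ⊆ unitSq)
    {p m : ℕ} {A η : ℝ} (hη : 0 < η) (hηA : η * (5 ^ s * A) < 1) (hG : Good s m A (GO p m K)) :
    ¬ Cov s (1 / 2 ^ m) η (outB K) := by
  classical
  intro hcov
  obtain ⟨c, h0, h1, h2⟩ := hG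
  have hr : (0 : ℝ) < 1 / 2 ^ m := by positivity
  have hpt : ∀ z : ℤ × ℤ, ∃ w, z ∈ GO p m K → w ∈ cbox m z ∧ w ∈ outB K := by
    intro z
    by_cases hz : z ∈ GO p m K
    · have hz' := (Finset.mem_filter.1 (by unfold GO at hz; exact hz)).2
      obtain ⟨⟨x, hxK, hx⟩, a, b, ha, hb, _, hab⟩ := hz'
      obtain ⟨w, hw, hw'⟩ := exists_outB hc.isClosed (convex_cbox m z) hx hxK ha
        (mem_outC_of_chain hK hb hab)
      exact ⟨w, fun _ => ⟨hw, hw'⟩⟩
    · exact ⟨0, fun h => absurd h hz⟩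
  choose x hx using hpt
  have h3 := energyW hs hr hcov (GO p m K) x (fun z hz => (hx z hz).2) c h0
  rw [h1, one_pow] at h3
  have h4 : ∑ z ∈ GO p m K, ∑ z' ∈ GO p m K, c z * c z' * (max (dist (x z) (x z')) (1 / 2 ^ m)) ^ (-s)
      ≤ 5 ^ s * A := by
    refine le_trans ?_ (mul_le_mul_of_nonneg_left h2 (by positivity))
    rw [Finset.mul_sum]
    refine Finset.sum_le_sum fun z hz => ?_
    rw [Finset.mul_sum]
    refine Finset.sum_le_sum fun z' hz' => ?_
    have h5 : max (dist (pt m z) (pt m z')) (1 / 2 ^ m) ≤ 5 * max (dist (x z) (x z')) (1 / 2 ^ m) := by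
      have h6 : dist (pt m z) (pt m z') ≤ dist (x z) (x z') + 4 * (1 / 2 ^ m) := by
        have h7 := dist_pt_le (hx z hz).1
        have h8 := dist_pt_le (hx z' hz').1
        rw [dist_comm] at h8
        calc dist (pt m z) (pt m z') ≤ dist (pt m z) (x z) + dist (x z) (x z') + dist (x z') (pt m z') :=
              dist_triangle4 _ _ _ _
          _ ≤ 2 / 2 ^ m + dist (x z) (x z') + 2 / 2 ^ m := by linarith
          _ = _ := by ring
      have h9 := le_max_left (dist (x z) (x z')) (1 / 2 ^ m : ℝ)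
      have h10 := le_max_right (dist (x z) (x z')) (1 / 2 ^ m : ℝ)
      refine max_le ?_ ?_
      · linarith
      · linarith
    have h11 : 0 < max (dist (x z) (x z')) (1 / 2 ^ m : ℝ) := lt_max_of_lt_right hr
    have h12 : 0 < max (dist (pt m z) (pt m z')) (1 / 2 ^ m : ℝ) := lt_max_of_lt_right hr
    have h13 : (max (dist (x z) (x z')) (1 / 2 ^ m : ℝ)) ^ (-s) ≤
        5 ^ s * (max (dist (pt m z) (pt m z')) (1 / 2 ^ m : ℝ)) ^ (-s) := by
      rw [Real.rpow_neg h11.le, Real.rpow_neg h12.le, ← div_eq_mul_inv,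
        le_div_iff₀ (Real.rpow_pos_of_pos h12 _), inv_mul_le_iff₀ (Real.rpow_pos_of_pos h11 _),
        mul_comm, ← Real.mul_rpow (by norm_num) h11.le]
      exact Real.rpow_le_rpow h12.le h5 hs
    calc _ ≤ c z * c z' * (5 ^ s * (max (dist (pt m z) (pt m z')) (1 / 2 ^ m : ℝ)) ^ (-s)) :=
          mul_le_mul_of_nonneg_left h13 (mul_nonneg (h0 z) (h0 z'))
      _ = _ := by ring
  have h5 := mul_le_mul_of_nonneg_left h4 hη.le
  linarith

/-! ### The limit theorems -/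

variable [MeasurableSpace (NonemptyCompacts ℂ)] [BorelSpace (NonemptyCompacts ℂ)]

theorem sub_unitSq_limit {μs : ℕ → ProbabilityMeasure (NonemptyCompacts ℂ)}
    {ν : ProbabilityMeasure (NonemptyCompacts ℂ)} (h : Tendsto μs atTop (𝓝 ν))
    (hsq : ∀ᶠ k in atTop, (μs k : Measure (NonemptyCompacts ℂ))
      {K : NonemptyCompacts ℂ | ¬ (K : Set ℂ) ⊆ unitSq} = 0) :
    (ν : Measure (NonemptyCompacts ℂ)) {K : NonemptyCompacts ℂ | ¬ (K : Set ℂ) ⊆ unitSq} = 0 := by
  refine le_antisymm ?_ zero_le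
  refine measure_open_le h ?_ (hsq.mono fun k hk => hk.le)
  exact (NonemptyCompacts.isClosed_subsets_of_isClosed isClosed_unitSq).isOpen_compl

/-- Upper bound for the outer boundary of the limit. -/
theorem dimH_outB_le_ae {s : ℝ≥0} {μs : ℕ → ProbabilityMeasure (NonemptyCompacts ℂ)}
    {ν : ProbabilityMeasure (NonemptyCompacts ℂ)} (h : Tendsto μs atTop (𝓝 ν))
    (hsq : ∀ᶠ k in atTop, (μs k : Measure (NonemptyCompacts ℂ))
      {K : NonemptyCompacts ℂ | ¬ (K : Set ℂ) ⊆ unitSq} = 0)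
    (H : ∀ ε : ℝ, 0 < ε → ∃ lam : ℝ, ∀ n : ℕ, ∀ᶠ k in atTop,
      (μs k : Measure (NonemptyCompacts ℂ))
        {K : NonemptyCompacts ℂ | lam < SmC s n n (K : Set ℂ)} ≤ ENNReal.ofReal ε) :
    ∀ᵐ K : NonemptyCompacts ℂ ∂(ν : Measure (NonemptyCompacts ℂ)),
      dimH (outB (K : Set ℂ)) ≤ s := by
  have hsq' := sub_unitSq_limit h hsq
  have key : ∀ ε : ℝ, 0 < ε → (ν : Measure (NonemptyCompacts ℂ))
      {K : NonemptyCompacts ℂ | ¬ dimH (outB (K : Set ℂ)) ≤ s} ≤ ENNReal.ofReal ε := by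
    intro ε hε
    obtain ⟨lam, hlam⟩ := H ε hε
    have h1 : ∀ n : ℕ, (ν : Measure (NonemptyCompacts ℂ))
        {K : NonemptyCompacts ℂ | lam < SmC s n n (K : Set ℂ)} ≤ ENNReal.ofReal ε :=
      fun n => measure_open_le h (isOpen_SmC _ _ _ _) (hlam n)
    have hmono : Monotone fun n : ℕ => {K : NonemptyCompacts ℂ | lam < SmC s n n (K : Set ℂ)} := by
      intro n n' hn K hK
      exact lt_of_lt_of_le hK (SmC_mono hn hn _)
    have h3 : (ν : Measure (NonemptyCompacts ℂ)) (⋃ n : ℕ, {K : NonemptyCompacts ℂ |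
        lam < SmC s n n (K : Set ℂ)}) ≤ ENNReal.ofReal ε := by
      rw [hmono.measure_iUnion]
      exact iSup_le h1
    have h4 : {K : NonemptyCompacts ℂ | ¬ dimH (outB (K : Set ℂ)) ≤ s} ⊆
        {K : NonemptyCompacts ℂ | ¬ (K : Set ℂ) ⊆ unitSq} ∪ ⋃ n : ℕ, {K : NonemptyCompacts ℂ |
          lam < SmC s n n (K : Set ℂ)} := by
      intro K hK
      by_cases h5 : (K : Set ℂ) ⊆ unitSq
      · right
        by_contra h6
        apply hK
        refine dimH_outB_le_of_SmC K.isCompact h5 (lam := lam) fun M => ?_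
        by_contra h7
        exact h6 (mem_iUnion.2 ⟨M, not_le.1 h7⟩)
      · left; exact h5
    refine (measure_mono h4).trans ((measure_union_le _ _).trans ?_)
    rw [hsq', zero_add]
    exact h3
  rw [ae_iff]
  refine le_antisymm ?_ zero_le
  refine ENNReal.le_of_forall_pos_le_add fun ε hε _ => ?_
  rw [zero_add]
  have h9 := key ε (by exact_mod_cast hε)
  rwa [ENNReal.ofReal_coe_nnreal] at h9

/-- Lower bound for the outer boundary of the limit. -/
theorem le_dimH_outB_ae {s : ℝ≥0} (hs : 0 < s) {μs : ℕ → ProbabilityMeasure (NonemptyCompacts ℂ)}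
    {ν : ProbabilityMeasure (NonemptyCompacts ℂ)} (h : Tendsto μs atTop (𝓝 ν))
    (hsq : ∀ᶠ k in atTop, (μs k : Measure (NonemptyCompacts ℂ))
      {K : NonemptyCompacts ℂ | ¬ (K : Set ℂ) ⊆ unitSq} = 0)
    (H : ∀ ε : ℝ, 0 < ε → ∃ A : ℝ, ∀ m : ℕ, ∃ p : ℕ, ∀ᶠ k in atTop,
      (μs k : Measure (NonemptyCompacts ℂ))
        {K : NonemptyCompacts ℂ | ¬ Good s m A (GO p m (K : Set ℂ))} ≤ ENNReal.ofReal ε) :
    ∀ᵐ K : NonemptyCompacts ℂ ∂(ν : Measure (NonemptyCompacts ℂ)),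
      (s : ℝ≥0∞) ≤ dimH (outB (K : Set ℂ)) := by
  have hsq' := sub_unitSq_limit h hsq
  have key : ∀ ε : ℝ, 0 < ε → (ν : Measure (NonemptyCompacts ℂ))
      {K : NonemptyCompacts ℂ | ¬ (s : ℝ≥0∞) ≤ dimH (outB (K : Set ℂ))} ≤ ENNReal.ofReal ε := by
    intro ε hε
    obtain ⟨A, hA⟩ := H ε hε
    set A' : ℝ := max A 1 with hA'
    set η : ℝ := 1 / (2 * (5 ^ (s : ℝ) * A')) with hη
    have hA1 : 1 ≤ A' := le_max_right _ _
    have h5 : (0 : ℝ) < 5 ^ (s : ℝ) := by positivity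
    have hη0 : 0 < η := by positivity
    have hηA : η * (5 ^ (s : ℝ) * A') < 1 := by
      rw [hη, one_div, mul_comm 2, mul_inv, mul_assoc, mul_comm, mul_assoc,
        mul_inv_cancel₀ (by positivity)]
      norm_num
    have h1 : ∀ m : ℕ, (ν : Measure (NonemptyCompacts ℂ))
        {K : NonemptyCompacts ℂ | (K : Set ℂ) ⊆ unitSq ∧
          Cov s (1 / 2 ^ m) η (outB (K : Set ℂ))} ≤ ENNReal.ofReal ε := by
      intro m
      obtain ⟨p, hp⟩ := hA m
      have h2 := measure_open_le h (isOpen_not_good s A m p) hp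
      refine (measure_mono ?_).trans h2
      rintro K ⟨hK, hcov⟩ hG
      exact not_cov_of_good s.coe_nonneg K.isCompact hK hη0 hηA
        (hG.mono_right (le_max_left A 1)) hcov
    have hmono : Monotone fun m : ℕ => {K : NonemptyCompacts ℂ | (K : Set ℂ) ⊆ unitSq ∧
        Cov s (1 / 2 ^ m) η (outB (K : Set ℂ))} := by
      rintro m m' hm K ⟨hK, hcov⟩
      refine ⟨hK, Cov.mono s.coe_nonneg ?_ hcov⟩
      exact one_div_le_one_div_of_le (by positivity) (pow_le_pow_right₀ (by norm_num) hm)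
    have h3 : (ν : Measure (NonemptyCompacts ℂ)) (⋃ m : ℕ, {K : NonemptyCompacts ℂ |
        (K : Set ℂ) ⊆ unitSq ∧ Cov s (1 / 2 ^ m) η (outB (K : Set ℂ))}) ≤ ENNReal.ofReal ε := by
      rw [hmono.measure_iUnion]
      exact iSup_le h1
    have h4 : {K : NonemptyCompacts ℂ | ¬ (s : ℝ≥0∞) ≤ dimH (outB (K : Set ℂ))} ⊆
        {K : NonemptyCompacts ℂ | ¬ (K : Set ℂ) ⊆ unitSq} ∪ ⋃ m : ℕ, {K : NonemptyCompacts ℂ |
        (K : Set ℂ) ⊆ unitSq ∧ Cov s (1 / 2 ^ m) η (outB (K : Set ℂ))} := by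
      intro K hK
      by_cases h6 : (K : Set ℂ) ⊆ unitSq
      · right
        rw [mem_ofPred_eq, not_le] at hK
        obtain ⟨m, hm⟩ := cov_of_dimH_lt hs (isCompact_outB K.isCompact) hK hη0
        refine mem_iUnion.2 ⟨m + 1, h6, Cov.mono s.coe_nonneg ?_ hm⟩
        refine one_div_le_one_div_of_le (by positivity) ?_
        have : m + 1 < 2 ^ (m + 1) := Nat.lt_two_pow_self
        exact_mod_cast this.le
      · left; exact h6
    refine (measure_mono h4).trans ((measure_union_le _ _).trans ?_)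
    rw [hsq', zero_add]
    exact h3
  rw [ae_iff]
  refine le_antisymm ?_ zero_le
  refine ENNReal.le_of_forall_pos_le_add fun ε hε _ => ?_
  rw [zero_add]
  have h9 := key ε (by exact_mod_cast hε)
  rwa [ENNReal.ofReal_coe_nnreal] at h9

end Pool.Agent.PercS5

end Parth60OutLim

section Partperc3Transp

/-!
# Transport of stopping sets

Let `S ζ` be a stopping set for the configurations `ζ` on an index set `ι` and `A` an event which
depends only on `S ζ` and on `ζ` on `S ζ`. If a map `p : ι → ℤ × ℤ` is injective on all `S ζ`,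
`ζ ∈ A`, then the probability of the event `ω ∘ p ∈ A` does not depend on `p`.
-/

set_option autoImplicit false

namespace Pool.Agent.Perc3

open Finset Pool.Agent.Perc

variable {ι : Type}

/-- `S` is a stopping set. -/
def Stopping (S : (ι → Bool) → Set ι) : Prop :=
  ∀ ζ ζ' : ι → Bool, (∀ s ∈ S ζ, ζ s = ζ' s) → S ζ' = S ζ

/-- The event `A` is determined by the stopping set `S`. -/
def DetBy (S : (ι → Bool) → Set ι) (A : Set (ι → Bool)) : Prop :=
  ∀ ζ ζ' : ι → Bool, (∀ s ∈ S ζ, ζ s = ζ' s) → (ζ ∈ A ↔ ζ' ∈ A)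

open Classical in
/-- The configuration with the value `true` exactly on `T`. -/
noncomputable def cfgI (T : Finset ι) : ι → Bool := fun s => decide (s ∈ T)

theorem cfgI_eq_true {T : Finset ι} {s : ι} : cfgI T s = true ↔ s ∈ T := by
  simp [cfgI]

theorem cfg_eq_true {T : Finset (ℤ × ℤ)} {f : ℤ × ℤ} : cfg T f = true ↔ f ∈ T := by
  simp [cfg]

open Classical in
/-- The finite set of the visited indices. -/
noncomputable def fin (Ft : Finset ι) (S : (ι → Bool) → Set ι) (ζ : ι → Bool) : Finset ι :=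
  Ft.filter fun s => s ∈ S ζ

theorem mem_fin {Ft : Finset ι} {S : (ι → Bool) → Set ι} (hF : ∀ ζ, S ζ ⊆ Ft) {ζ : ι → Bool}
    {s : ι} : s ∈ fin Ft S ζ ↔ s ∈ S ζ := by
  classical
  unfold fin
  rw [mem_filter]
  exact ⟨fun h => h.2, fun h => ⟨hF _ h, h⟩⟩

open Classical in
/-- The patterns of the event `A`. -/
noncomputable def pats (Ft : Finset ι) (S : (ι → Bool) → Set ι) (A : Set (ι → Bool)) :
    Finset (Finset ι) :=
  Ft.powerset.filter fun T => cfgI T ∈ A ∧ ∀ s ∈ T, s ∈ S (cfgI T)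

open Classical in
/-- The probability as a sum over the patterns. -/
theorem pr_eq_pats {Ft : Finset ι} {S : (ι → Bool) → Set ι} (hF : ∀ ζ, S ζ ⊆ Ft)
    (hS : Stopping S) {A : Set (ι → Bool)} (hA : DetBy S A) {p : ι → ℤ × ℤ}
    (hp : ∀ ζ ∈ A, Set.InjOn p (S ζ)) {W : Finset (ℤ × ℤ)} (hW : ∀ s ∈ Ft, p s ∈ W) :
    pr W {ω | (fun s => ω (p s)) ∈ A} =
      ∑ T ∈ pats Ft S A, ((2 : ℝ) ^ (fin Ft S (cfgI T)).card)⁻¹ := by
  set X : Finset (Finset (ℤ × ℤ)) :=
    W.powerset.filter fun U => cfg U ∈ {ω : Cfg | (fun s => ω (p s)) ∈ A} with hX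
  let tr : Finset (ℤ × ℤ) → Finset ι := fun U =>
    Ft.filter fun s => s ∈ S (fun s => cfg U (p s)) ∧ p s ∈ U
  have memtr : ∀ (U : Finset (ℤ × ℤ)) (s : ι),
      s ∈ tr U ↔ s ∈ S (fun s => cfg U (p s)) ∧ p s ∈ U := by
    intro U s
    simp only [tr, mem_filter]
    exact ⟨fun h => h.2, fun h => ⟨hF _ h.1, h⟩⟩
  -- agreement on the stopping set
  have agree : ∀ U : Finset (ℤ × ℤ), ∀ s ∈ S (fun s => cfg U (p s)),
      cfg U (p s) = cfgI (tr U) s := by
    intro U s hs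
    rw [Bool.eq_iff_iff, cfg_eq_true, cfgI_eq_true, memtr]
    exact ⟨fun h => ⟨hs, h⟩, fun h => h.2⟩
  have hmap : ∀ U ∈ X, tr U ∈ pats Ft S A := by
    intro U hU
    rw [hX, mem_filter] at hU
    unfold pats
    rw [mem_filter]
    refine ⟨mem_powerset.2 (filter_subset _ _), (hA _ _ (agree U)).1 hU.2, fun s hs => ?_⟩
    rw [hS _ _ (agree U)]
    exact ((memtr U s).1 hs).1
  have hfib : ∀ T ∈ pats Ft S A, ((X.filter fun U => tr U = T).card : ℝ) =
      2 ^ W.card * ((2 : ℝ) ^ (fin Ft S (cfgI T)).card)⁻¹ := by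
    intro T hT
    unfold pats at hT
    rw [mem_filter, mem_powerset] at hT
    obtain ⟨hTF, hTA, hTS⟩ := hT
    set ST := fin Ft S (cfgI T) with hST
    have memST : ∀ s, s ∈ ST ↔ s ∈ S (cfgI T) := fun s => mem_fin hF
    have hinj : Set.InjOn p (S (cfgI T)) := hp _ hTA
    have hsub : ST.image p ⊆ W := by
      intro f hf
      obtain ⟨s, hs, rfl⟩ := mem_image.1 hf
      exact hW s (hF _ ((memST s).1 hs))
    -- the fibre
    have hfibre : X.filter (fun U => tr U = T) =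
        (W \ ST.image p).powerset.image (fun V => V ∪ T.image p) := by
      ext U
      rw [mem_filter, mem_image]
      constructor
      · rintro ⟨hU, rfl⟩
        rw [hX, mem_filter, mem_powerset] at hU
        have hSS : S (cfgI (tr U)) = S (fun s => cfg U (p s)) := hS _ _ (agree U)
        refine ⟨U \ ST.image p, ?_, ?_⟩
        · rw [mem_powerset]
          exact sdiff_subset_sdiff hU.1 (le_refl _)
        · ext f
          rw [mem_union, mem_sdiff]
          constructor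
          · rintro (h | h)
            · exact h.1
            · obtain ⟨s, hs, rfl⟩ := mem_image.1 h
              exact ((memtr U s).1 hs).2
          · intro hf
            by_cases h : f ∈ ST.image p
            · right
              obtain ⟨s, hs, rfl⟩ := mem_image.1 h
              rw [memST, hSS] at hs
              exact mem_image.2 ⟨s, (memtr U s).2 ⟨hs, hf⟩, rfl⟩
            · exact Or.inl ⟨hf, h⟩
      · rintro ⟨V, hV, rfl⟩
        rw [mem_powerset] at hV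
        have hVW : V ∪ T.image p ⊆ W := by
          refine union_subset (hV.trans sdiff_subset) ?_
          refine (image_subset_image ?_).trans hsub
          intro s hs
          exact (memST s).2 (hTS s hs)
        have hag : ∀ s ∈ S (cfgI T), cfgI T s = cfg (V ∪ T.image p) (p s) := by
          intro s hs
          rw [Bool.eq_iff_iff, cfg_eq_true, cfgI_eq_true, mem_union]
          constructor
          · intro h
            exact Or.inr (mem_image_of_mem p h)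
          · rintro (h | h)
            · exact absurd (mem_image_of_mem p ((memST s).2 hs)) (mem_sdiff.1 (hV h)).2
            · obtain ⟨s', hs', e⟩ := mem_image.1 h
              rw [← hinj (hTS s' hs') hs e]
              exact hs'
        have hSS : S (fun s => cfg (V ∪ T.image p) (p s)) = S (cfgI T) := hS _ _ hag
        refine ⟨?_, ?_⟩
        · rw [hX, mem_filter, mem_powerset]
          exact ⟨hVW, (hA _ _ hag).1 hTA⟩
        · ext s
          rw [memtr, hSS]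
          constructor
          · rintro ⟨h1, h2⟩
            have h3 := hag s h1
            rw [Bool.eq_iff_iff, cfg_eq_true, cfgI_eq_true] at h3
            exact h3.2 h2
          · intro h
            exact ⟨hTS s h, mem_union_right _ (mem_image_of_mem p h)⟩
    have hTp : Disjoint (W \ ST.image p) (T.image p) := by
      rw [disjoint_left]
      intro f hf hf'
      obtain ⟨s, hs, rfl⟩ := mem_image.1 hf'
      exact (mem_sdiff.1 hf).2 (mem_image_of_mem p ((memST s).2 (hTS s hs)))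
    rw [hfibre, card_image_of_injOn, card_powerset, card_sdiff_of_subset hsub,
      card_image_of_injOn]
    · have hle : ST.card ≤ W.card := by
        rw [← card_image_of_injOn (f := p) (s := ST)]
        · exact card_le_card hsub
        · intro s hs s' hs' e
          exact hinj ((memST s).1 (mem_coe.1 hs)) ((memST s').1 (mem_coe.1 hs')) e
      push_cast
      rw [pow_sub₀ _ (by norm_num) hle]
    · intro s hs s' hs' e
      exact hinj ((memST s).1 (mem_coe.1 hs)) ((memST s').1 (mem_coe.1 hs')) e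
    · intro V hV V' hV' e
      rw [mem_coe, mem_powerset] at hV hV'
      simp only at e
      ext f
      have h1 : f ∈ V ∪ T.image p ↔ f ∈ V' ∪ T.image p := by rw [e]
      rw [mem_union, mem_union] at h1
      constructor
      · intro hf
        rcases h1.1 (Or.inl hf) with h | h
        · exact h
        · exact absurd h (disjoint_left.1 hTp (hV hf))
      · intro hf
        rcases h1.2 (Or.inl hf) with h | h
        · exact h
        · exact absurd h (disjoint_left.1 hTp (hV' hf))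
  have hsum : (X.card : ℝ) = ∑ T ∈ pats Ft S A, ((X.filter fun U => tr U = T).card : ℝ) := by
    rw [card_eq_sum_card_fiberwise hmap]
    push_cast
    rfl
  unfold pr
  rw [← hX]
  rw [div_eq_iff (by positivity), hsum, sum_mul]
  refine sum_congr rfl fun T hT => ?_
  rw [hfib T hT, mul_comm]

/-- Transport of stopping sets: the probability does not depend on the embedding. -/
theorem pr_transport {Ft : Finset ι} {S : (ι → Bool) → Set ι} (hF : ∀ ζ, S ζ ⊆ Ft)
    (hS : Stopping S) {A : Set (ι → Bool)} (hA : DetBy S A) {p p' : ι → ℤ × ℤ}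
    (hp : ∀ ζ ∈ A, Set.InjOn p (S ζ)) (hp' : ∀ ζ ∈ A, Set.InjOn p' (S ζ))
    {W W' : Finset (ℤ × ℤ)} (hW : ∀ s ∈ Ft, p s ∈ W) (hW' : ∀ s ∈ Ft, p' s ∈ W') :
    pr W {ω | (fun s => ω (p s)) ∈ A} = pr W' {ω | (fun s => ω (p' s)) ∈ A} := by
  rw [pr_eq_pats hF hS hA hp hW, pr_eq_pats hF hS hA hp' hW']

end Pool.Agent.Perc3

end Partperc3Transp

section Partperc3Cover

/-!
# The common cover of the square grid and of the grid with a dislocation, comparison of the laws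

Lifted faces are pairs of a face of `ℤ × ℤ` and an index in `ℤ`, lifted unit edges are pairs of a
unit edge and an index. The index changes by one at the cut, the horizontal unit edges
`(x, 0, false)` with `x ≤ -2`: the lifted cut edge of index `n` is a side of the upper face with
index `n` and of the lower face with index `n + 1`. The square grid is obtained from the cover by
the projection `pj 0`, the grid with a dislocation of Burgers vector `c` by `pj c`, where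
`pj c (f, n) = f + (c * n, 0)`.
-/

set_option autoImplicit false

namespace Pool.Agent.Perc3

open Finset Pool.Agent.Perc

/-- Lifted faces. -/
abbrev LF := (ℤ × ℤ) × ℤ

/-- Lifted unit edges. -/
abbrev LE := UE × ℤ

/-- The unit edge `a` is on the cut. -/
def IsCut (a : UE) : Prop := a.2.2 = false ∧ a.2.1 = 0 ∧ a.1 ≤ -2

instance : DecidablePred IsCut := fun a => by unfold IsCut; infer_instance

/-- The lift of the side `a` of the lifted face `s`. -/
def lft (s : LF) (a : UE) : LE := (a, if IsCut a ∧ s.1.2 < 0 then s.2 - 1 else s.2)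

/-- The lifted sides `b` and `b'` of the lifted face `s` are matched. -/
def MtL (ζ : LF → Bool) (s : LF) (b b' : LE) : Prop :=
  ∃ a a', Mt (fun _ => ζ s) s.1 a a' ∧ b = lft s a ∧ b' = lft s a'

/-- The union of the components of the lifted unit edges in `E` under the matching in the lifted
faces of `Ft`. -/
def ML (ζ : LF → Bool) (Ft : Set LF) (E : Set LE) : Set LE :=
  {b | ∃ e ∈ E, Relation.ReflTransGen (fun b b' => ∃ s ∈ Ft, MtL ζ s b b') e b}

/-- The visited lifted faces. -/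
def SL (ζ : LF → Bool) (Ft : Set LF) (E : Set LE) : Set LF :=
  {s | s ∈ Ft ∧ ∃ a, IsSide s.1 a ∧ lft s a ∈ ML ζ Ft E}

/-- The projection to the grid with Burgers vector `c`. -/
def pj (c : ℤ) (s : LF) : ℤ × ℤ := (s.1.1 + c * s.2, s.1.2)

/-- Two visited lifted faces in the same half plane with different indices have a distance of at
least `k` times the difference of the indices. -/
def Thick (k : ℤ) (S : Set LF) : Prop :=
  ∀ s ∈ S, ∀ s' ∈ S, (0 ≤ s.1.2 ↔ 0 ≤ s'.1.2) →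
    k * |s.2 - s'.2| ≤ max |s.1.1 - s'.1.1| |s.1.2 - s'.1.2|

variable {ζ ζ' : LF → Bool} {Ft : Set LF} {E : Set LE} {s : LF} {b b' : LE}

theorem MtL.symm (h : MtL ζ s b b') : MtL ζ s b' b := by
  obtain ⟨a, a', hm, h1, h2⟩ := h
  exact ⟨a', a, hm.symm, h2, h1⟩

theorem MtL.congr (he : ζ s = ζ' s) (h : MtL ζ s b b') : MtL ζ' s b b' := by
  unfold MtL at *
  rwa [← he]

theorem mem_ML_of_mem (h : b ∈ E) : b ∈ ML ζ Ft E := ⟨b, h, Relation.ReflTransGen.refl⟩

theorem ML_step (hs : s ∈ Ft) (h : MtL ζ s b b') (hb : b ∈ ML ζ Ft E) : b' ∈ ML ζ Ft E := by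
  obtain ⟨e, he, hr⟩ := hb
  exact ⟨e, he, hr.tail ⟨s, hs, h⟩⟩

theorem ML_iff (hs : s ∈ Ft) (h : MtL ζ s b b') : b ∈ ML ζ Ft E ↔ b' ∈ ML ζ Ft E :=
  ⟨ML_step hs h, ML_step hs h.symm⟩

/-- Induction principle. -/
theorem ML_induction {P : LE → Prop} (h0 : ∀ b ∈ E, P b)
    (h1 : ∀ b b' s, s ∈ Ft → MtL ζ s b b' → b ∈ ML ζ Ft E → P b → P b') :
    ∀ b ∈ ML ζ Ft E, P b := by
  rintro b ⟨e, he, hr⟩
  have key : b ∈ ML ζ Ft E ∧ P b := by
    induction hr with
    | refl => exact ⟨mem_ML_of_mem he, h0 _ he⟩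
    | tail _ hs ih =>
      obtain ⟨s, hs, hm⟩ := hs
      exact ⟨ML_step hs hm ih.1, h1 _ _ s hs hm ih.1 ih.2⟩
  exact key.2

theorem ML_mono {Ft' : Set LF} {E' : Set LE} (hF : Ft ⊆ Ft') (hE : E ⊆ E') :
    ML ζ Ft E ⊆ ML ζ Ft' E' := by
  intro b hb
  exact ML_induction (P := fun b => b ∈ ML ζ Ft' E') (fun b hb => mem_ML_of_mem (hE hb))
    (fun b b' s hs hm _ ih => ML_step (hF hs) hm ih) b hb

theorem SL_sub : SL ζ Ft E ⊆ Ft := fun _ h => h.1

/-- A face with a matched side in the component is visited. -/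
theorem SL_of_MtL (hs : s ∈ Ft) (h : MtL ζ s b b') (hb : b ∈ ML ζ Ft E) : s ∈ SL ζ Ft E := by
  obtain ⟨a, a', hm, h1, -⟩ := h
  exact ⟨hs, a, hm.left, h1 ▸ hb⟩

theorem ML_eq (h : ∀ s ∈ SL ζ Ft E, ζ s = ζ' s) : ML ζ' Ft E = ML ζ Ft E := by
  apply Set.Subset.antisymm
  · intro b hb
    refine ML_induction (P := fun b => b ∈ ML ζ Ft E) (fun b hb => mem_ML_of_mem hb) ?_ b hb
    intro b b' s hs hm _ ih
    have hsS : s ∈ SL ζ Ft E := by
      obtain ⟨a, a', hm', h1, -⟩ := hm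
      exact ⟨hs, a, hm'.left, h1 ▸ ih⟩
    exact ML_step hs (hm.congr (h s hsS).symm) ih
  · intro b hb
    refine ML_induction (P := fun b => b ∈ ML ζ' Ft E) (fun b hb => mem_ML_of_mem hb) ?_ b hb
    intro b b' s hs hm hbM ih
    exact ML_step hs (hm.congr (h s (SL_of_MtL hs hm hbM))) ih

/-- The visited faces form a stopping set. -/
theorem stopping_SL (Ft : Set LF) (E : Set LE) : Stopping fun ζ => SL ζ Ft E := by
  intro ζ ζ' h
  simp only [SL]
  rw [ML_eq h]

theorem Thick.mono {k : ℤ} {S S' : Set LF} (h : Thick k S) (hS : S' ⊆ S) : Thick k S' :=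
  fun s hs s' hs' => h s (hS hs) s' (hS hs')

theorem Thick.mono_left {k k' : ℤ} {S : Set LF} (h : Thick k S) (hk : k' ≤ k) : Thick k' S :=
  fun s hs s' hs' hh => (mul_le_mul_of_nonneg_right hk (abs_nonneg _)).trans (h s hs s' hs' hh)

/-- The projection is injective on thick sets. -/
theorem Thick.injOn {k c : ℤ} {S : Set LF} (h : Thick k S) (hk : |c| < k) :
    Set.InjOn (pj c) S := by
  intro s hs s' hs' e
  obtain ⟨⟨x, y⟩, n⟩ := s
  obtain ⟨⟨x', y'⟩, n'⟩ := s'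
  unfold pj at e
  simp only [Prod.mk.injEq] at e
  obtain ⟨e1, rfl⟩ := e
  have h1 := h _ hs _ hs' Iff.rfl
  simp only [sub_self, abs_zero] at h1
  have h2 : x - x' = -(c * (n - n')) := by linarith
  rw [h2, abs_neg, abs_mul, max_eq_left (by positivity)] at h1
  have h3 : n = n' := by
    by_contra hne
    have h4 : 0 < |n - n'| := abs_pos.2 (sub_ne_zero.2 hne)
    exact absurd (le_of_mul_le_mul_right h1 h4) (not_le.2 hk)
  subst h3
  have h5 : x = x' := by linarith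
  rw [h5]

/-- Comparison of the laws: an event which is determined by the lifted components and which implies
that the set of the visited lifted faces is thick has the same probability in all grids. -/
theorem compare {Ft : Finset LF} {E : Set LE} {A : Set (LF → Bool)}
    (hA : DetBy (fun ζ => SL ζ Ft E) A) {k c c' : ℤ} (hc : |c| < k) (hc' : |c'| < k)
    (hk : ∀ ζ ∈ A, Thick k (SL ζ Ft E)) {W W' : Finset (ℤ × ℤ)} (hW : ∀ s ∈ Ft, pj c s ∈ W)
    (hW' : ∀ s ∈ Ft, pj c' s ∈ W') :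
    pr W {ω | (fun s => ω (pj c s)) ∈ A} = pr W' {ω | (fun s => ω (pj c' s)) ∈ A} :=
  pr_transport (fun _ => SL_sub) (stopping_SL (Ft : Set LF) E) hA
    (fun ζ hζ => (hk ζ hζ).injOn hc) (fun ζ hζ => (hk ζ hζ).injOn hc') hW hW'

end Pool.Agent.Perc3

end Partperc3Cover

section Partperc3Loop

/-!
# Winding numbers of closed rectilinear loops

A rectilinear path is given by its first corner `u` and the list `l` of the other corners. `wnd u l f`
is the signed number of the horizontal segments above the face `f`.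
-/

set_option autoImplicit false

namespace Pool.Agent.Perc3

open Finset Pool.Agent.Perc

/-- Signed indicator: the horizontal segment from `u` to `v` is above the face `f`. -/
def seg (u v f : ℤ × ℤ) : ℤ :=
  (if f.2 < u.2 then 1 else 0) * ((if f.1 < v.1 then 1 else 0) - (if f.1 < u.1 then 1 else 0))

/-- Signed number of the horizontal segments above the face `f`. -/
def wnd : ℤ × ℤ → List (ℤ × ℤ) → ℤ × ℤ → ℤ
  | _, [], _ => 0
  | u, v :: l, f => seg u v f + wnd v l f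

/-- The last corner. -/
def lst : ℤ × ℤ → List (ℤ × ℤ) → ℤ × ℤ
  | u, [] => u
  | _, v :: l => lst v l

/-- All segments are horizontal or vertical. -/
def Rectil : ℤ × ℤ → List (ℤ × ℤ) → Prop
  | _, [] => True
  | u, v :: l => (u.1 = v.1 ∨ u.2 = v.2) ∧ Rectil v l

/-- The unit edge `a` is on the segment from `u` to `v`. -/
def OnSeg (u v : ℤ × ℤ) (a : UE) : Prop :=
  (a.2.2 = false ∧ u.2 = a.2.1 ∧ v.2 = a.2.1 ∧
    ((u.1 ≤ a.1 ∧ a.1 < v.1) ∨ (v.1 ≤ a.1 ∧ a.1 < u.1))) ∨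
  (a.2.2 = true ∧ u.1 = a.1 ∧ v.1 = a.1 ∧
    ((u.2 ≤ a.2.1 ∧ a.2.1 < v.2) ∨ (v.2 ≤ a.2.1 ∧ a.2.1 < u.2)))

/-- The unit edge `a` is on the path. -/
def OnPath : ℤ × ℤ → List (ℤ × ℤ) → UE → Prop
  | _, [], _ => False
  | u, v :: l, a => OnSeg u v a ∨ OnPath v l a

/-- Indicator of the vertices on the vertical half line above `(i, j)`. -/
def abv (i j : ℤ) (p : ℤ × ℤ) : ℤ := if p.1 = i ∧ j < p.2 then 1 else 0

theorem seg_ver {u v : ℤ × ℤ} {i j : ℤ} (hr : u.1 = v.1 ∨ u.2 = v.2)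
    (h : ¬ OnSeg u v (i, j, true)) :
    seg u v (i - 1, j) = seg u v (i, j) + abv i j v - abv i j u := by
  unfold OnSeg at h
  unfold seg abv
  simp only [Bool.true_eq_false, false_and, true_and, false_or] at h
  rcases hr with hr | hr
  · split_ifs <;> omega
  · split_ifs <;> omega

theorem seg_hor {u v : ℤ × ℤ} {i j : ℤ} (hr : u.1 = v.1 ∨ u.2 = v.2)
    (h : ¬ OnSeg u v (i, j, false)) : seg u v (i, j - 1) = seg u v (i, j) := by
  unfold OnSeg at h
  unfold seg
  simp only [Bool.false_eq_true, false_and, true_and, or_false] at h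
  rcases hr with hr | hr
  · split_ifs <;> omega
  · split_ifs <;> omega

theorem wnd_ver {i j : ℤ} (l : List (ℤ × ℤ)) : ∀ (u : ℤ × ℤ), Rectil u l →
    ¬ OnPath u l (i, j, true) →
    wnd u l (i - 1, j) = wnd u l (i, j) + abv i j (lst u l) - abv i j u := by
  induction l with
  | nil =>
    intro u _ _
    simp [wnd, lst]
  | cons v l ih =>
    intro u hr h
    unfold OnPath at h
    rw [not_or] at h
    have h1 := seg_ver hr.1 h.1
    have h2 := ih v hr.2 h.2
    unfold wnd lst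
    rw [h1, h2]
    ring

theorem wnd_hor {i j : ℤ} (l : List (ℤ × ℤ)) : ∀ (u : ℤ × ℤ), Rectil u l →
    ¬ OnPath u l (i, j, false) → wnd u l (i, j - 1) = wnd u l (i, j) := by
  induction l with
  | nil =>
    intro u _ _
    simp [wnd]
  | cons v l ih =>
    intro u hr h
    unfold OnPath at h
    rw [not_or] at h
    unfold wnd
    rw [seg_hor hr.1 h.1, ih v hr.2 h.2]

theorem abs_seg_le (u v f : ℤ × ℤ) : |seg u v f| ≤ 1 := by
  unfold seg
  rw [abs_le]
  split_ifs <;> norm_num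

theorem abs_wnd_le (l : List (ℤ × ℤ)) : ∀ (u f : ℤ × ℤ), |wnd u l f| ≤ l.length := by
  induction l with
  | nil =>
    intro u f
    simp [wnd]
  | cons v l ih =>
    intro u f
    unfold wnd
    have h1 := abs_seg_le u v f
    have h2 := ih v f
    have h3 := abs_add_le (seg u v f) (wnd v l f)
    rw [List.length_cons]
    push_cast
    linarith

/-- All corners but the last have the property `P`. -/
def Init (P : ℤ × ℤ → Prop) : ℤ × ℤ → List (ℤ × ℤ) → Prop
  | _, [] => True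
  | u, v :: l => P u ∧ Init P v l

theorem Init.mono {P Q : ℤ × ℤ → Prop} (h : ∀ u, P u → Q u) (l : List (ℤ × ℤ)) :
    ∀ u, Init P u l → Init Q u l := by
  induction l with
  | nil => intro u _; trivial
  | cons v l ih => intro u hu; exact ⟨h u hu.1, ih v hu.2⟩

/-- No segment is above `f` if all corners but the last are not above `f`. -/
theorem wnd_eq_zero {f : ℤ × ℤ} (l : List (ℤ × ℤ)) : ∀ u, Init (fun p => p.2 ≤ f.2) u l →
    wnd u l f = 0 := by
  induction l with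
  | nil => intro u _; rfl
  | cons v l ih =>
    intro u hu
    unfold wnd
    rw [ih v hu.2]
    unfold seg
    rw [if_neg (not_lt.2 hu.1)]
    ring

/-- If all corners but the last are above `f`, the winding number depends only on the ends. -/
theorem wnd_eq_ends {f : ℤ × ℤ} (l : List (ℤ × ℤ)) : ∀ u, Init (fun p => f.2 < p.2) u l →
    wnd u l f = (if f.1 < (lst u l).1 then 1 else 0) - (if f.1 < u.1 then 1 else 0) := by
  induction l with
  | nil =>
    intro u _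
    simp only [wnd, lst]
    exact (sub_self _).symm
  | cons v l ih =>
    intro u hu
    unfold wnd lst
    rw [ih v hu.2]
    unfold seg
    rw [if_pos hu.1]
    ring

/-! ### The corridor -/

/-- The rectilinear path with the corners `u` and `l` starts in the open box of radius `d`, all
corners but the last are in the rectangle `[-L, L] × [-w, w]` and the last one is next to it. -/
structure Corr (L w d : ℤ) (u : ℤ × ℤ) (l : List (ℤ × ℤ)) : Prop where
  rect : Rectil u l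
  inn : |u.1| < d ∧ |u.2| < d
  mid : Init (fun p => |p.1| ≤ L ∧ |p.2| ≤ w) u l
  out : (|(lst u l).1| ≤ L ∧ |(lst u l).2| = w + 1) ∨ (|(lst u l).1| = L + 1 ∧ |(lst u l).2| ≤ w)

/-- The path outside the rectangle. -/
def outp (L w : ℤ) (p : ℤ × ℤ) : List (ℤ × ℤ) :=
  if p.2 = -(w + 1) then [(-L - 1, -(w + 1)), (-L - 1, 0)]
  else if p.1 = -L - 1 then [(-L - 1, 0)]
  else [(p.1, w + 1), (-L - 1, w + 1), (-L - 1, 0)]

/-- The index of the face `f` with respect to the corridor. -/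
def ind (L w : ℤ) (u : ℤ × ℤ) (l : List (ℤ × ℤ)) (f : ℤ × ℤ) : ℤ :=
  wnd (-1, 0) [(u.1, 0), u] f + wnd u l f + wnd (lst u l) (outp L w (lst u l)) f +
    seg (-L - 1, 0) (-1, 0) f

/-- The index of the unit edge `a` with respect to the corridor. -/
def indE (L w : ℤ) (u : ℤ × ℤ) (l : List (ℤ × ℤ)) (a : UE) : ℤ := ind L w u l (a.1, a.2.1)

theorem outp_cases (L w : ℤ) (p : ℤ × ℤ) :
    (p.2 = -(w + 1) ∧ outp L w p = [(-L - 1, -(w + 1)), (-L - 1, 0)]) ∨
    (p.2 ≠ -(w + 1) ∧ p.1 = -L - 1 ∧ outp L w p = [(-L - 1, 0)]) ∨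
    (p.2 ≠ -(w + 1) ∧ p.1 ≠ -L - 1 ∧ outp L w p = [(p.1, w + 1), (-L - 1, w + 1), (-L - 1, 0)]) := by
  unfold outp
  split_ifs with h1 h2
  · exact Or.inl ⟨h1, rfl⟩
  · exact Or.inr (Or.inl ⟨h1, h2, rfl⟩)
  · exact Or.inr (Or.inr ⟨h1, h2, rfl⟩)

theorem lst_outp {L w : ℤ} (p : ℤ × ℤ) : lst p (outp L w p) = (-L - 1, 0) := by
  unfold outp
  split_ifs <;> rfl

theorem rectil_outp {L w : ℤ} {p : ℤ × ℤ}
    (hp : (|p.1| ≤ L ∧ |p.2| = w + 1) ∨ (|p.1| = L + 1 ∧ |p.2| ≤ w)) :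
    Rectil p (outp L w p) := by
  unfold outp
  split_ifs with h1 h2
  · simp [Rectil, h1]
  · simp [Rectil, h2]
  · simp [Rectil]

variable {L w d : ℤ} {u : ℤ × ℤ} {l : List (ℤ × ℤ)}

/-- The unit edges of the path outside are not in the rectangle. -/
theorem outp_out (hL : 0 ≤ L) (hw : 0 ≤ w) {p : ℤ × ℤ}
    (hp : (|p.1| ≤ L ∧ |p.2| = w + 1) ∨ (|p.1| = L + 1 ∧ |p.2| ≤ w)) {a : UE}
    (ha : OnPath p (outp L w p) a) (h1 : -L ≤ a.1) (h2 : a.1 ≤ L) (h3 : -w - 1 ≤ a.2.1)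
    (h4 : a.2.1 ≤ w) : a.2.2 = false ∧ a.2.1 = -w - 1 := by
  obtain ⟨i, j, b⟩ := a
  simp only at h1 h2 h3 h4 ⊢
  unfold outp at ha
  split_ifs at ha with h5 h6
  · simp only [OnPath, OnSeg, or_false] at ha
    rcases ha with (ha | ha) | (ha | ha)
    · exact ⟨ha.1, by omega⟩
    · omega
    · omega
    · omega
  · simp only [OnPath, OnSeg, or_false] at ha
    omega
  · simp only [OnPath, OnSeg, or_false] at ha
    have h7 : p.1 = L + 1 ∨ p.2 = w + 1 := by
      rcases hp with hp | hp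
      · right
        rcases abs_eq (by omega : (0:ℤ) ≤ w + 1) |>.1 hp.2 with h | h <;> omega
      · left
        rcases abs_eq (by omega : (0:ℤ) ≤ L + 1) |>.1 hp.1 with h | h <;> omega
    omega

theorem inn_out (hd : 1 < d) (hu : |u.1| < d ∧ |u.2| < d) {a : UE}
    (ha : OnPath (-1, 0) [(u.1, 0), u] a) :
    -d < a.1 ∧ a.1 < d ∧ -d < a.2.1 ∧ a.2.1 < d ∧ (a.2.2 = false → a.1 < d - 1) ∧
      (a.2.2 = true → a.2.1 < d - 1) := by
  obtain ⟨i, j, b⟩ := a
  simp only [OnPath, OnSeg, or_false] at ha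
  rw [abs_lt, abs_lt] at hu
  simp only
  rcases ha with (ha | ha) | (ha | ha)
  · obtain ⟨h0, h1⟩ := ha
    subst h0
    simp
    omega
  · omega
  · omega
  · obtain ⟨h0, h1⟩ := ha
    subst h0
    simp
    omega

/-- The index does not change across a vertical unit edge. -/
theorem ind_ver (hc : Corr L w d u l) {i j : ℤ}
    (h1 : ¬ OnPath (-1, 0) [(u.1, 0), u] (i, j, true)) (h2 : ¬ OnPath u l (i, j, true))
    (h3 : ¬ OnPath (lst u l) (outp L w (lst u l)) (i, j, true)) :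
    ind L w u l (i - 1, j) = ind L w u l (i, j) := by
  unfold ind
  rw [wnd_ver _ _ (by simp [Rectil]) h1, wnd_ver _ _ hc.rect h2,
    wnd_ver _ _ (rectil_outp hc.out) h3, lst_outp]
  rw [seg_ver (u := (-L - 1, 0)) (v := (-1, 0)) (i := i) (j := j) (Or.inr rfl)
    (by unfold OnSeg; simp)]
  simp only [lst]
  ring

/-- The index changes by one across the cut, and does not change across the other horizontal
unit edges. -/
theorem ind_hor (hc : Corr L w d u l) (hL : 0 ≤ L) {i j : ℤ}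
    (h1 : ¬ OnPath (-1, 0) [(u.1, 0), u] (i, j, false)) (h2 : ¬ OnPath u l (i, j, false))
    (h3 : ¬ OnPath (lst u l) (outp L w (lst u l)) (i, j, false)) :
    ind L w u l (i, j - 1) =
      ind L w u l (i, j) + if j = 0 ∧ i ≤ -2 ∧ -L - 1 ≤ i then 1 else 0 := by
  unfold ind
  rw [wnd_hor _ _ (by simp [Rectil]) h1, wnd_hor _ _ hc.rect h2,
    wnd_hor _ _ (rectil_outp hc.out) h3]
  have : seg (-L - 1, 0) (-1, 0) (i, j - 1) = seg (-L - 1, 0) (-1, 0) (i, j) +
      if j = 0 ∧ i ≤ -2 ∧ -L - 1 ≤ i then 1 else 0 := by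
    unfold seg
    split_ifs <;> omega
  rw [this]
  ring

theorem abs_ind_le (f : ℤ × ℤ) : |ind L w u l f| ≤ l.length + 6 := by
  unfold ind
  have h1 := abs_wnd_le [(u.1, 0), u] (-1, 0) f
  have h2 := abs_wnd_le l u f
  have h3 := abs_wnd_le (outp L w (lst u l)) (lst u l) f
  have h4 := abs_seg_le (-L - 1, 0) (-1, 0) f
  have h5 : (outp L w (lst u l)).length ≤ 3 := by
    unfold outp
    split_ifs <;> simp
  have h5' : ((outp L w (lst u l)).length : ℤ) ≤ 3 := by exact_mod_cast h5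
  simp only [List.length_cons, List.length_nil] at h1
  push_cast at h1
  rw [abs_le] at *
  constructor <;> linarith

/-- The index above the rectangle. -/
theorem ind_top (hc : Corr L w d u l) (hd : 1 < d) (hdw : d ≤ w) {x : ℤ}
    (hx : -L - 1 ≤ x) :
    ind L w u l (x, w) = 0 ∨ (ind L w u l (x, w) = -1 ∧ (lst u l).2 ≠ -(w + 1)) := by
  have hu := hc.inn
  rw [abs_lt, abs_lt] at hu
  unfold ind
  rw [wnd_eq_zero [(u.1, 0), u] (-1, 0) ⟨by simp only; omega, by simp only; omega, trivial⟩,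
    wnd_eq_zero l u (hc.mid.mono (fun p hp => by rw [abs_le, abs_le] at hp; exact hp.2.2) l u)]
  have h3 : seg (-L - 1, 0) (-1, 0) (x, w) = 0 := by
    unfold seg
    rw [if_neg (by simp only; omega)]
    ring
  rw [h3]
  rcases outp_cases L w (lst u l) with ⟨h1, h2⟩ | ⟨h1, h2, h4⟩ | ⟨h1, h2, h4⟩
  · left
    rw [h2]
    simp only [wnd, seg]
    rw [if_neg (by omega), if_neg (by omega)]
    ring
  · left
    rw [h4]
    simp only [wnd, seg, h2]
    ring
  · rw [h4]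
    simp only [wnd, seg]
    split_ifs <;> omega

/-- The index below the rectangle. -/
theorem ind_bot (hc : Corr L w d u l) (hd : 1 < d) (hdw : d ≤ w) (hL : 0 ≤ L) {x : ℤ}
    (hx : -L - 1 ≤ x) :
    ind L w u l (x, -w - 1) = 0 ∨ (ind L w u l (x, -w - 1) = 1 ∧ (lst u l).2 = -(w + 1)) := by
  have hu := hc.inn
  rw [abs_lt, abs_lt] at hu
  unfold ind
  rw [wnd_eq_ends [(u.1, 0), u] (-1, 0) ⟨by simp only; omega, by simp only; omega, trivial⟩,
    wnd_eq_ends l u (hc.mid.mono (fun p hp => by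
      rw [abs_le, abs_le] at hp; simp only; omega) l u)]
  have h3 : seg (-L - 1, 0) (-1, 0) (x, -w - 1) =
      (if x < -1 then 1 else 0) - (if x < -L - 1 then 1 else 0) := by
    unfold seg
    rw [if_pos (by simp only; omega)]
    ring
  rw [h3]
  simp only [lst]
  have ho := hc.out
  rw [abs_le, abs_le] at ho
  have h4 : (lst u l).2 = -(w + 1) ∨ -w ≤ (lst u l).2 := by
    rcases ho with ho | ho
    · rcases abs_eq (by omega : (0:ℤ) ≤ w + 1) |>.1 ho.2 with h | h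
      · right; omega
      · left; omega
    · right; omega
  have h5 : (lst u l).2 = -(w + 1) → -L ≤ (lst u l).1 ∧ (lst u l).1 ≤ L := by
    intro h
    rcases ho with ho | ho <;> omega
  have h6 : -L - 1 ≤ (lst u l).1 := by
    rcases ho with ho | ho
    · omega
    · rcases abs_eq (by omega : (0:ℤ) ≤ L + 1) |>.1 ho.1 with h | h <;> omega
  rcases outp_cases L w (lst u l) with ⟨h1, h2⟩ | ⟨h1, h2, h7⟩ | ⟨h1, h2, h7⟩
  · rw [h2]
    simp only [wnd, seg]
    split_ifs <;> omega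
  · rw [h7]
    simp only [wnd, seg]
    split_ifs <;> omega
  · rw [h7]
    simp only [wnd, seg]
    split_ifs <;> omega

end Pool.Agent.Perc3

end Partperc3Loop

section Partperc3RoutesC

/-!
# Routes of the three walls: two concentric rectangles
-/

set_option autoImplicit false

namespace Pool.Agent.Perc.Rt

open Finset Relation Pool.Agent.Perc

variable {r₁ r₂ : Rc}

/-- The rectangle `r₂` contains the twelve layers around `r₁`. -/
def Far2 (r₁ r₂ : Rc) : Prop :=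
  r₂.a ≤ r₁.a - 12 ∧ r₁.b + 12 ≤ r₂.b ∧ r₂.c ≤ r₁.c - 12 ∧ r₁.d + 12 ≤ r₂.d ∧
    r₁.a ≤ -6 ∧ 6 ≤ r₁.b ∧ r₁.c ≤ -2 ∧ 2 ≤ r₁.d

/-- Three disjoint walls from the neighbourhood of the inner rectangle to the neighbourhood of the
outer one. -/
theorem routes_core (hr : Far2 r₁ r₂) {P Q : Fin 3 → ℤ × ℤ} (hP : ∀ i, Reg r₁ (P i))
    (hQ : ∀ i, Reg r₂ (Q i)) (hPl : ∀ i, lay r₁ (P i) ≤ 3) (hQl : ∀ i, 10 ≤ lay r₂ (Q i))
    (hPa : ∀ i j, i < j → ang r₁ (P i) < ang r₁ (P j))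
    (hQa : ∀ i j, i < j → ang r₂ (Q i) < ang r₂ (Q j)) :
    ∃ W : Fin 3 → Set (ℤ × ℤ), (∀ i j, i ≠ j → Disjoint (W i) (W j)) ∧
      (∀ i, Cn (W i) (P i) (Q i)) ∧
      (∀ i, ∀ g ∈ W i, CellOk g ∧ lay r₁ (P i) ≤ lay r₁ g ∧ lay r₂ g ≤ lay r₂ (Q i)) ∧
      (∀ i, ∀ g ∈ W i, lay r₁ g ≤ 3 → ang r₁ g = ang r₁ (P i)) ∧
      ∀ i, ∀ g ∈ W i, 10 ≤ lay r₂ g → ang r₂ g = ang r₂ (Q i) := by
  obtain ⟨ha, hb, hc, hd, ha', hb', hc', hd'⟩ := hr
  set U : Fin 3 → ℤ × ℤ := fun i => (4 - 4 * ((i : ℕ) : ℤ), r₁.d + 12) with hU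
  set V : Fin 3 → ℤ × ℤ := fun i => (4 - 4 * ((i : ℕ) : ℤ), r₂.d + 1) with hV
  have h3 : ∀ i : Fin 3, ((i : ℕ) : ℤ) ≤ 2 ∧ 0 ≤ ((i : ℕ) : ℤ) := fun i => by omega
  have hUr : ∀ i, Reg r₁ (U i) := fun i => by
    have := h3 i
    simp only [hU]
    unfold Reg
    simp only
    omega
  have hVr : ∀ i, Reg r₂ (V i) := fun i => by
    have := h3 i
    simp only [hV]
    unfold Reg
    simp only
    omega
  have hUl : ∀ i, lay r₁ (U i) = 12 := fun i => by
    have := h3 i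
    simp only [hU]
    unfold lay
    simp only
    omega
  have hVl : ∀ i, lay r₂ (V i) = 1 := fun i => by
    have := h3 i
    simp only [hV]
    unfold lay
    simp only
    omega
  have hUa : ∀ i, ang r₁ (U i) = r₁.b + 4 + (r₁.d - r₁.c) + (r₁.b - (4 - 4 * ((i : ℕ) : ℤ))) :=
    fun i => by
      have := h3 i
      simp only [hU]
      rw [ang_s2 (by omega) (by omega) (by omega)]
  have hVa : ∀ i, ang r₂ (V i) = r₂.b + 4 + (r₂.d - r₂.c) + (r₂.b - (4 - 4 * ((i : ℕ) : ℤ))) :=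
    fun i => by
      have := h3 i
      simp only [hV]
      rw [ang_s2 (by omega) (by omega) (by omega)]
  obtain ⟨W1, d1, c1, b1, n1, m1⟩ := three_walls hP hUr hPl (fun i => by rw [hUl]; omega) hPa
    (fun i j hij => by
      rw [hUa, hUa]
      have : ((i : ℕ) : ℤ) < ((j : ℕ) : ℤ) := by exact_mod_cast hij
      omega)
  obtain ⟨W2, d2, c2, b2, n2, m2⟩ := three_walls hVr hQ (fun i => by rw [hVl]; omega) hQl
    (fun i j hij => by
      rw [hVa, hVa]
      have : ((i : ℕ) : ℤ) < ((j : ℕ) : ℤ) := by exact_mod_cast hij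
      omega) hQa
  set Z : Fin 3 → Set (ℤ × ℤ) := fun i =>
    {g | g.1 = 4 - 4 * ((i : ℕ) : ℤ) ∧ r₁.d + 12 ≤ g.2 ∧ g.2 ≤ r₂.d + 1} with hZ
  have zl1 : ∀ i, ∀ g ∈ Z i, lay r₁ g = g.2 - r₁.d := fun i g hg => by
    have := h3 i
    simp only [hZ, Set.mem_ofPred_eq] at hg
    unfold lay
    omega
  have zl2 : ∀ i, ∀ g ∈ Z i, r₂.d < g.2 → lay r₂ g = g.2 - r₂.d := fun i g hg hg' => by
    have := h3 i
    simp only [hZ, Set.mem_ofPred_eq] at hg
    unfold lay
    omega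
  have zl3 : ∀ i, ∀ g ∈ Z i, g.2 ≤ r₂.d → lay r₂ g ≤ 0 := fun i g hg hg' => by
    have := h3 i
    simp only [hZ, Set.mem_ofPred_eq] at hg
    unfold lay
    omega
  have za1 : ∀ i, ∀ g ∈ Z i, ang r₁ g = ang r₁ (U i) := fun i g hg => by
    have := h3 i
    obtain ⟨x, y⟩ := g
    simp only [hZ, Set.mem_ofPred_eq] at hg
    rw [hUa, ang_s2 (by omega) (by omega) (by omega), hg.1]
  have za2 : ∀ i, ∀ g ∈ Z i, r₂.d < g.2 → ang r₂ g = ang r₂ (V i) := fun i g hg hg' => by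
    have := h3 i
    obtain ⟨x, y⟩ := g
    simp only [hZ, Set.mem_ofPred_eq] at hg hg'
    rw [hVa, ang_s2 (by omega) (by omega) (by omega), hg.1]
  have l12 : ∀ g, 1 ≤ lay r₂ g → 13 ≤ lay r₁ g := fun g hg => by
    unfold lay at hg ⊢
    omega
  have hWZ1 : ∀ i j, i ≠ j → Disjoint (W1 i) (Z j) := fun i j hij => by
    rw [Set.disjoint_left]
    intro g hg hg'
    have e1 := zl1 j g hg'
    have e2 := (b1 i g hg).2.2
    rw [hUl] at e2
    have e3 : r₁.d + 12 ≤ g.2 := hg'.2.1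
    have e4 := m1 i g hg (by omega)
    rw [za1 j g hg', hUa, hUa] at e4
    have : ((i : ℕ) : ℤ) ≠ ((j : ℕ) : ℤ) := by
      intro h; exact hij (Fin.ext (by exact_mod_cast h))
    omega
  have hWZ2 : ∀ i j, i ≠ j → Disjoint (W2 i) (Z j) := fun i j hij => by
    rw [Set.disjoint_left]
    intro g hg hg'
    have e2 := (b2 i g hg).2.1
    rw [hVl] at e2
    have e5 : r₂.d < g.2 := by
      by_contra h
      have := zl3 j g hg' (by omega)
      omega
    have e1 := zl2 j g hg' e5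
    have e3 : g.2 ≤ r₂.d + 1 := hg'.2.2
    have e4 := n2 i g hg (by omega)
    rw [za2 j g hg' e5, hVa, hVa] at e4
    have : ((i : ℕ) : ℤ) ≠ ((j : ℕ) : ℤ) := by
      intro h; exact hij (Fin.ext (by exact_mod_cast h))
    omega
  have hWW : ∀ i j, Disjoint (W1 i) (W2 j) := fun i j => by
    rw [Set.disjoint_left]
    intro g hg hg'
    have e1 := (b1 i g hg).2.2
    rw [hUl] at e1
    have e2 := (b2 j g hg').2.1
    rw [hVl] at e2
    have := l12 g e2
    omega
  have hZZ : ∀ i j, i ≠ j → Disjoint (Z i) (Z j) := fun i j hij => by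
    rw [Set.disjoint_left]
    intro g hg hg'
    have e1 : g.1 = 4 - 4 * ((i : ℕ) : ℤ) := hg.1
    have e2 : g.1 = 4 - 4 * ((j : ℕ) : ℤ) := hg'.1
    have : ((i : ℕ) : ℤ) ≠ ((j : ℕ) : ℤ) := by
      intro h; exact hij (Fin.ext (by exact_mod_cast h))
    omega
  refine ⟨fun i => W1 i ∪ Z i ∪ W2 i, fun i j hij => ?_, fun i => ?_, fun i g hg => ?_,
    fun i g hg hl => ?_, fun i g hg hl => ?_⟩
  · simp only [Set.disjoint_union_left, Set.disjoint_union_right]
    exact ⟨⟨⟨⟨d1 i j hij, (hWZ1 j i hij.symm).symm⟩, (hWW j i).symm⟩,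
      ⟨hWZ1 i j hij, hZZ i j hij⟩, hWZ2 i j hij⟩, ⟨hWW i j, (hWZ2 j i hij.symm).symm⟩,
      d2 i j hij⟩
  · have k1 : Cn (W1 i ∪ Z i ∪ W2 i) (P i) (U i) := (c1 i).mono fun g hg => Or.inl (Or.inl hg)
    have k3 : Cn (W1 i ∪ Z i ∪ W2 i) (V i) (Q i) := (c2 i).mono fun g hg => Or.inr hg
    refine (k1.trans ?_).trans k3
    simp only [hU, hV]
    exact run_v (by omega) fun u hu hu' => Or.inl (Or.inr ⟨rfl, hu, hu'⟩)
  · rcases hg with (hg | hg) | hg
    · obtain ⟨e1, e2, e3⟩ := b1 i g hg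
      have e4 := (hP i).lay_pos
      rw [hUl] at e3
      refine ⟨?_, e2, ?_⟩
      · unfold NCut at e1
        unfold CellOk
        unfold lay at e2 e4
        omega
      · have := hQl i
        by_contra h
        have := l12 g (by omega)
        omega
    · have e1 := zl1 i g hg
      have e2 := hPl i
      have e3 := hQl i
      have e4 : r₁.d + 12 ≤ g.2 := hg.2.1
      have e5 : g.2 ≤ r₂.d + 1 := hg.2.2
      refine ⟨Or.inl (by omega), by omega, ?_⟩
      rcases le_or_gt g.2 r₂.d with h | h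
      · have := zl3 i g hg h
        omega
      · have := zl2 i g hg h
        omega
    · obtain ⟨e1, e2, e3⟩ := b2 i g hg
      rw [hVl] at e2
      have e4 := l12 g e2
      have e5 := hPl i
      refine ⟨?_, by omega, e3⟩
      unfold NCut at e1
      unfold CellOk
      unfold lay at e2
      omega
  · rcases hg with (hg | hg) | hg
    · exact n1 i g hg hl
    · exfalso
      have e1 := zl1 i g hg
      have e4 : r₁.d + 12 ≤ g.2 := hg.2.1
      omega
    · exfalso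
      obtain ⟨e1, e2, e3⟩ := b2 i g hg
      rw [hVl] at e2
      have e4 := l12 g e2
      omega
  · rcases hg with (hg | hg) | hg
    · exfalso
      have e1 := (b1 i g hg).2.2
      rw [hUl] at e1
      have := l12 g (by omega)
      omega
    · exfalso
      have e5 : g.2 ≤ r₂.d + 1 := hg.2.2
      rcases le_or_gt g.2 r₂.d with h | h
      · have := zl3 i g hg h
        omega
      · have := zl2 i g hg h
        omega
    · exact m2 i g hg hl

end Pool.Agent.Perc.Rt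

end Partperc3RoutesC

section Parth60C1Cor

/-!
# From chains of free squares to rectilinear corridors in the rotated grid
-/

set_option autoImplicit false

namespace Pool.Agent.PercS5

open Relation
open Pool.Agent.Perc Pool.Agent.PercD

/-- The axis-parallel segment from `a` to `b` is in the set of the points with `P`. -/
def SegP (P : ℤ × ℤ → Prop) (a b : ℤ × ℤ) : Prop :=
  (a.1 = b.1 ∨ a.2 = b.2) ∧ ∀ q : ℤ × ℤ, min a.1 b.1 ≤ q.1 → q.1 ≤ max a.1 b.1 →
    min a.2 b.2 ≤ q.2 → q.2 ≤ max a.2 b.2 → P q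

/-- The lattice point of the square `a` in the rotated grid. -/
noncomputable def gp (n p : ℕ) (a : ℤ × ℤ) : ℤ × ℤ :=
  (⌊(n : ℝ) * (a.1 + a.2) / 2 ^ p⌋, ⌊(n : ℝ) * (a.1 - a.2) / 2 ^ p⌋)

/-- The point `q` is close to the centre of the square `a` in the rotated grid. -/
def NearC (n p : ℕ) (a q : ℤ × ℤ) : Prop :=
  |(q.1 : ℝ) - n * (a.1 + a.2) / 2 ^ p| + |(q.2 : ℝ) - n * (a.1 - a.2) / 2 ^ p| ≤ n / 2 ^ p + 2

/-- A point close to the centre of a free square is far from all points of the compact set. -/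
theorem clear {n p : ℕ} (hn : 0 < n) {a : ℤ × ℤ} {K : Set ℂ} (ha : FreeC p K a) {v : ℤ × ℤ}
    (hv : toC v / n ∈ K) {q : ℤ × ℤ} (hq : NearC n p a q) {κ : ℝ}
    (hκ : 2 * κ + 2 ≤ n / 2 ^ p) :
    κ < |(q.1 : ℝ) - (phiV v).1| ∨ κ < |(q.2 : ℝ) - (phiV v).2| := by
  by_contra hcon
  push Not at hcon
  obtain ⟨h1, h2⟩ := hcon
  refine Set.disjoint_left.1 ha ?_ hv
  have hn0 : (0 : ℝ) < n := by exact_mod_cast hn
  have hP : (0 : ℝ) < 2 ^ p := by positivity
  set s : ℝ := n / 2 ^ p with hs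
  unfold NearC at hq
  rw [← hs] at hq
  have e1 : ((phiV v).1 : ℝ) = v.1 + v.2 := by simp [phiV]
  have e2 : ((phiV v).2 : ℝ) = v.1 - v.2 := by simp [phiV]
  rw [e1] at h1
  rw [e2] at h2
  set A : ℝ := n * (a.1 + a.2) / 2 ^ p with hA
  set B : ℝ := n * (a.1 - a.2) / 2 ^ p with hB
  have h3 : |(v.1 : ℝ) + v.2 - A| + |(v.1 : ℝ) - v.2 - B| ≤ 2 * s := by
    have h4 : |(v.1 : ℝ) + v.2 - A| ≤ |(q.1 : ℝ) - A| + |(q.1 : ℝ) - (v.1 + v.2)| := by
      have := abs_sub ((q.1 : ℝ) - A) ((q.1 : ℝ) - (v.1 + v.2))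
      have e : (q.1 : ℝ) - A - ((q.1 : ℝ) - (v.1 + v.2)) = v.1 + v.2 - A := by ring
      rwa [e] at this
    have h5 : |(v.1 : ℝ) - v.2 - B| ≤ |(q.2 : ℝ) - B| + |(q.2 : ℝ) - (v.1 - v.2)| := by
      have := abs_sub ((q.2 : ℝ) - B) ((q.2 : ℝ) - (v.1 - v.2))
      have e : (q.2 : ℝ) - B - ((q.2 : ℝ) - (v.1 - v.2)) = v.1 - v.2 - B := by ring
      rwa [e] at this
    linarith
  have e3 : A + B = 2 * (n * a.1 / 2 ^ p) := by rw [hA, hB]; ring
  have e4 : A - B = 2 * (n * a.2 / 2 ^ p) := by rw [hA, hB]; ring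
  have h6 := abs_le.1 (le_refl |(v.1 : ℝ) + v.2 - A|)
  have h7 := abs_le.1 (le_refl |(v.1 : ℝ) - v.2 - B|)
  have h8 : |(v.1 : ℝ) - n * a.1 / 2 ^ p| ≤ s := by
    rw [abs_le]; constructor <;> linarith [h6.1, h6.2, h7.1, h7.2]
  have h9 : |(v.2 : ℝ) - n * a.2 / 2 ^ p| ≤ s := by
    rw [abs_le]; constructor <;> linarith [h6.1, h6.2, h7.1, h7.2]
  have key : ∀ x y : ℤ, |(x : ℝ) - n * y / 2 ^ p| ≤ s → |(x : ℝ) / n - y / 2 ^ p| ≤ 1 / 2 ^ p := by
    intro x y h
    have e : (x : ℝ) / n - y / 2 ^ p = ((x : ℝ) - n * y / 2 ^ p) / n := by field_simp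
    rw [e, abs_div, abs_of_pos hn0, div_le_iff₀ hn0]
    refine h.trans (le_of_eq ?_)
    rw [hs]; ring
  have er : (toC v / (n : ℂ)).re = v.1 / n := by
    rw [Complex.div_natCast_re]; simp [toC]
  have ei : (toC v / (n : ℂ)).im = v.2 / n := by
    rw [Complex.div_natCast_im]; simp [toC]
  exact ⟨by rw [er]; exact key _ _ h8, by rw [ei]; exact key _ _ h9⟩

/-- The points near the free squares. -/
def NearB (n p : ℕ) (B : ℤ × ℤ → Prop) (q : ℤ × ℤ) : Prop := ∃ a, B a ∧ NearC n p a q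

theorem nearC_gp (n p : ℕ) (a : ℤ × ℤ) : NearC n p a (gp n p a) := by
  unfold NearC gp
  simp only
  have h1 := Int.floor_le ((n : ℝ) * (a.1 + a.2) / 2 ^ p)
  have h2 := Int.lt_floor_add_one ((n : ℝ) * (a.1 + a.2) / 2 ^ p)
  have h3 := Int.floor_le ((n : ℝ) * (a.1 - a.2) / 2 ^ p)
  have h4 := Int.lt_floor_add_one ((n : ℝ) * (a.1 - a.2) / 2 ^ p)
  have h5 : |(⌊(n : ℝ) * (a.1 + a.2) / 2 ^ p⌋ : ℝ) - n * (a.1 + a.2) / 2 ^ p| ≤ 1 := by
    rw [abs_le]; constructor <;> linarith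
  have h6 : |(⌊(n : ℝ) * (a.1 - a.2) / 2 ^ p⌋ : ℝ) - n * (a.1 - a.2) / 2 ^ p| ≤ 1 := by
    rw [abs_le]; constructor <;> linarith
  have h7 : (0 : ℝ) ≤ n / 2 ^ p := by positivity
  linarith

/-- A step between neighbouring squares gives two segments. -/
theorem seg_step {n p : ℕ} {B : ℤ × ℤ → Prop} {a b : ℤ × ℤ} (h : Stp B a b) :
    SegP (NearB n p B) (gp n p a) ((gp n p b).1, (gp n p a).2) ∧
      SegP (NearB n p B) ((gp n p b).1, (gp n p a).2) (gp n p b) := by
  obtain ⟨hadj, ha, hb⟩ := h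
  have hP : (0 : ℝ) < 2 ^ p := by positivity
  have hd : |((a.1 : ℝ) + a.2) - (b.1 + b.2)| ≤ 1 ∧ |((a.1 : ℝ) - a.2) - (b.1 - b.2)| ≤ 1 := by
    rcases hadj with ⟨h1, h2⟩ | ⟨h1, h2⟩
    · have h3 : |(a.2 : ℝ) - b.2| ≤ 1 := by
        have : (|a.2 - b.2| : ℤ) ≤ 1 := h2.le
        exact_mod_cast this
      rw [h1]
      constructor
      · rwa [show (b.1 : ℝ) + a.2 - (b.1 + b.2) = a.2 - b.2 by ring]
      · rw [show (b.1 : ℝ) - a.2 - (b.1 - b.2) = -(a.2 - b.2) by ring, abs_neg]; exact h3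
    · have h3 : |(a.1 : ℝ) - b.1| ≤ 1 := by
        have : (|a.1 - b.1| : ℤ) ≤ 1 := h1.le
        exact_mod_cast this
      rw [h2]
      constructor
      · rwa [show (a.1 : ℝ) + b.2 - (b.1 + b.2) = a.1 - b.1 by ring]
      · rwa [show (a.1 : ℝ) - b.2 - (b.1 - b.2) = a.1 - b.1 by ring]
  have hs : (0 : ℝ) ≤ n / 2 ^ p := by positivity
  have hscale : ∀ x y : ℝ, |x - y| ≤ 1 → |n * x / 2 ^ p - n * y / 2 ^ p| ≤ n / 2 ^ p := by
    intro x y h
    have e : (n : ℝ) * x / 2 ^ p - n * y / 2 ^ p = (n / 2 ^ p) * (x - y) := by ring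
    rw [e, abs_mul, abs_of_nonneg hs]
    calc (n : ℝ) / 2 ^ p * |x - y| ≤ n / 2 ^ p * 1 := mul_le_mul_of_nonneg_left h hs
      _ = n / 2 ^ p := mul_one _
  have hX := hscale _ _ hd.1
  have hY := hscale _ _ hd.2
  set A1 : ℝ := n * ((a.1 : ℝ) + a.2) / 2 ^ p with hA1
  set A2 : ℝ := n * ((a.1 : ℝ) - a.2) / 2 ^ p with hA2
  set B1 : ℝ := n * ((b.1 : ℝ) + b.2) / 2 ^ p with hB1
  set B2 : ℝ := n * ((b.1 : ℝ) - b.2) / 2 ^ p with hB2
  have g1 : (gp n p a).1 = ⌊A1⌋ := rfl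
  have g2 : (gp n p a).2 = ⌊A2⌋ := rfl
  have g3 : (gp n p b).1 = ⌊B1⌋ := rfl
  have g4 : (gp n p b).2 = ⌊B2⌋ := rfl
  have fl : ∀ x : ℝ, |(⌊x⌋ : ℝ) - x| ≤ 1 := by
    intro x
    have h1 := Int.floor_le x
    have h2 := Int.lt_floor_add_one x
    rw [abs_le]; constructor <;> linarith
  -- a coordinate between two floors
  have btw : ∀ (x y : ℝ) (k : ℤ), |x - y| ≤ n / 2 ^ p → min ⌊x⌋ ⌊y⌋ ≤ k → k ≤ max ⌊x⌋ ⌊y⌋ →
      |(k : ℝ) - x| ≤ n / 2 ^ p + 1 ∧ |(k : ℝ) - y| ≤ n / 2 ^ p + 1 := by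
    intro x y k hxy h1 h2
    have h3 : ((min ⌊x⌋ ⌊y⌋ : ℤ) : ℝ) ≤ k := by exact_mod_cast h1
    have h4 : (k : ℝ) ≤ ((max ⌊x⌋ ⌊y⌋ : ℤ) : ℝ) := by exact_mod_cast h2
    push_cast at h3 h4
    have fx1 := Int.floor_le x
    have fx2 := Int.lt_floor_add_one x
    have fy1 := Int.floor_le y
    have fy2 := Int.lt_floor_add_one y
    have hxy' := abs_le.1 hxy
    have h5 : x - n / 2 ^ p - 1 ≤ k := by
      refine le_trans (le_min ?_ ?_) h3 <;> linarith [hxy'.1, hxy'.2]
    have h6 : (k : ℝ) ≤ x + n / 2 ^ p := by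
      refine h4.trans (max_le ?_ ?_) <;> linarith [hxy'.1, hxy'.2]
    have h7 : y - n / 2 ^ p - 1 ≤ k := by
      refine le_trans (le_min ?_ ?_) h3 <;> linarith [hxy'.1, hxy'.2]
    have h8 : (k : ℝ) ≤ y + n / 2 ^ p := by
      refine h4.trans (max_le ?_ ?_) <;> linarith [hxy'.1, hxy'.2]
    constructor <;> rw [abs_le] <;> constructor <;> linarith
  refine ⟨⟨Or.inr rfl, ?_⟩, ⟨Or.inl rfl, ?_⟩⟩
  · intro q q1 q2 q3 q4
    refine ⟨a, ha, ?_⟩
    simp only [min_self, max_self, g1, g2, g3] at q1 q2 q3 q4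
    have e : q.2 = ⌊A2⌋ := le_antisymm q4 q3
    have h1 := (btw A1 B1 q.1 hX q1 q2).1
    have h2 := fl A2
    unfold NearC
    rw [← hA1, ← hA2, e]
    linarith
  · intro q q1 q2 q3 q4
    refine ⟨b, hb, ?_⟩
    simp only [min_self, max_self, g2, g3, g4] at q1 q2 q3 q4
    have e : q.1 = ⌊B1⌋ := le_antisymm q2 q1
    have h1 := (btw A2 B2 q.2 hY q3 q4).2
    have h2 := fl B1
    unfold NearC
    rw [← hB1, ← hB2, e]
    linarith

end Pool.Agent.PercS5

end Parth60C1Cor
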