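import Pool.Agent.Lib.MP_6bd702_zc.Pre
import Pool.Agent.Lib.MP_6bd702_zc.Y002
import Pool.Agent.Lib.MP_6bd702_z.Z007
import Pool.Agent.Lib.MP_6bd702_z.Z049
import Pool.Agent.Lib.MP_6bd702_z.Z069
import Pool.Agent.Lib.MP_6bd702_z.Z026
import Pool.Agent.Lib.MP_6bd702_z.Z028
import Pool.Agent.Lib.MP_6bd702_z.Z047

section Parth60OutTargets

/-!
# The outer boundary of the limit: statements of the finite volume estimates
-/

set_option autoImplicit false

namespace Pool.Agent.PercS5

open Filter Topology MeasureTheory TopologicalSpace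
open Pool.Agent.Perc Pool.Agent.PercD

/-- C1 (one point estimate from above): for every mesh `2 ^ (-p)` of the corridors and all large
`n`, the cell `z` of level `m` is met by the outer perimeter of a large cluster and sees infinity
with probability at most `C j ^ (-α)`, `j` the distance to the boundary of the box in units of
`2 ^ (-m)`, for every `α < 2 / 3`. -/
def TargetC1 : Prop := ∀ k₀ α : ℝ, 0 < k₀ → 0 < α → α < 2 / 3 → ∃ C : ℝ, ∀ m p : ℕ,
  ∀ᶠ n : ℕ in atTop, ∀ z : ℤ × ℤ, ∀ j : ℝ, 1 ≤ j → j ≤ z.1 → j ≤ 2 ^ m - z.1 → j ≤ z.2 →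
    j ≤ 2 ^ m - z.2 →
      prB n {T | ∃ u, k₀ * n ≤ Metric.diam (clS T u) ∧ HitC p m (perK n T u : Set ℂ) z} ≤
        C * j ^ (-α)

/-- C3: with high probability the cells which meet the outer perimeter of the largest cluster and
see infinity carry a probability measure of bounded energy of every order `s < 4 / 3`. -/
def TargetC3 : Prop := ∀ s : ℝ, 0 < s → s < 4 / 3 → ∀ ε : ℝ, 0 < ε → ∃ A : ℝ, ∀ m : ℕ, ∃ p : ℕ,
  ∀ sel : ℕ → Finset Edg → ℤ × ℤ, (∀ n, IsSel n (sel n)) → ∀ᶠ n : ℕ in atTop,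
    prB n {T | ¬ Good s m A (GO p m (perK n T (sel n T) : Set ℂ))} ≤ ε

/-- The target: almost surely for every subsequential limit law of the outer perimeters the outer
boundary has Hausdorff dimension `4 / 3`. -/
def TargetOutB : Prop := ∀ [MeasurableSpace (NonemptyCompacts ℂ)] [BorelSpace (NonemptyCompacts ℂ)]
  (sel : ℕ → Finset Edg → ℤ × ℤ) (φ : ℕ → ℕ) (ν : Measure (NonemptyCompacts ℂ))
  [IsProbabilityMeasure ν], (∀ n, IsSel n (sel n)) → StrictMono φ → LimitLaw sel φ ν →
    ∀ᵐ K : NonemptyCompacts ℂ ∂ν, dimH (outB (K : Set ℂ)) = 4 / 3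

end Pool.Agent.PercS5

end Parth60OutTargets

section Partperc3Uni3Defs

/-!
# The relations of the three leg sums: definitions

`S m` has the `2m+3` variables `z_0, …, z_{2m-1}, y_1, y_2, y_3`; `T m` (`m ≥ 1`) has the `2m+2`
variables `z_0, …, z_{2m-2}, x, y_1, y_2`.
-/

set_option autoImplicit false

namespace Pool.Agent.Perc

open Finset MvPolynomial

/-- Insert the value `x` at the place `j`. -/
def ins1 (j : ℕ) (x : ℂ) (u : ℕ → ℂ) : ℕ → ℂ := fun k =>
  if k < j then u k else if k = j then x else u (k - 1)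

/-- Omit the place `j`. -/
def skip1 (j : ℕ) (w : ℕ → ℂ) : ℕ → ℂ := fun k => if k < j then w k else w (k + 1)

/-- The relations which determine the two families from `S 0`. -/
structure Rec3 (q : ℂ) (κ κ' : ℕ → ℂ) (S T : ℕ → MvPolynomial ℕ ℂ) : Prop where
  degS : ∀ m, (S (m + 1)).degreeOf (2 * m + 2) ≤ 2 * m + 4
  degT : ∀ m, (T (m + 1)).degreeOf (2 * m + 1) ≤ 2 * m + 1
  symS : ∀ m i, i + 1 < 2 * m + 2 → ∀ w, eval (swapV i w) (S (m + 1)) = eval w (S (m + 1))
  symT : ∀ m i, i + 1 < 2 * m + 1 → ∀ w, eval (swapV i w) (T (m + 1)) = eval w (T (m + 1))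
  excS : ∀ m i, (i = 2 * m + 2 ∨ i = 2 * m + 3) → ∀ w,
    (q * w (i + 1) - q ^ 2 * w i) * eval (swapV i w) (S (m + 1)) =
      (q * w i - q ^ 2 * w (i + 1)) * eval w (S (m + 1))
  leftS : ∀ m v u, v ≠ 0 → eval (insV (2 * m + 1) (q ^ 2 * v) v u) (S (m + 1)) =
    κ m * v * (∏ j ∈ range (2 * m + 3), (u j - q * v) ^ 2) *
      eval (ins1 (2 * m + 1) (q ^ 2 * v) u) (T (m + 1))
  seamS : ∀ m v u, v ≠ 0 → eval (ins1 0 v (ins1 (2 * m + 3) (q ^ 2 * v) u)) (S (m + 1)) =
    κ m * v * (∏ j ∈ range (2 * m + 3), (u j - q * v) ^ 2) *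
      eval (ins1 (2 * m + 1) v u) (T (m + 1))
  leftT : ∀ m v u, v ≠ 0 → eval (insV (2 * m) v (q ^ 2 * v) u) (T (m + 1)) =
    κ' m * v * (∏ j ∈ range (2 * m), (u j - q * v) ^ 2) * eval (ins1 (2 * m) v u) (S m)
  seamT : ∀ m v u, v ≠ 0 → eval (ins1 0 (q ^ 2 * v) (ins1 (2 * m) v u)) (T (m + 1)) =
    κ' m * v * (∏ j ∈ range (2 * m), (u j - q * v) ^ 2) *
      eval (ins1 (2 * m + 2) (q ^ 2 * v) u) (S m)

/-- The relations which determine the sum of the components for an odd number `2m+1` of sites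
from `F 0`. -/
structure RecO (q : ℂ) (c : ℕ → ℂ) (F : ℕ → MvPolynomial ℕ ℂ) : Prop where
  deg : ∀ m, (F (m + 1)).degreeOf 0 ≤ 2 * m + 2
  symm : ∀ m i, i + 1 < 2 * m + 3 → ∀ z, eval (swapV i z) (F (m + 1)) = eval z (F (m + 1))
  ins : ∀ m v z, v ≠ 0 → eval (insV 0 (q ^ 2 * v) v z) (F (m + 1)) =
    c m * v * (∏ k ∈ range (2 * m + 1), (z k - q * v) ^ 2) * eval z (F m)

end Pool.Agent.Perc

end Partperc3Uni3Defs

section Partperc3OStDefs

/-!
# Odd link patterns: definitions

An odd state of `N` sites (`N` odd) is an involution `p : ℕ → ℕ`, the identity outside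
`0, …, N - 1`, with exactly one fixed point `t < N` (the site of the through line) and noncrossing
arcs. The arcs never cross the through line, which goes from the site `t` to the puncture (the point
at infinity of the half cylinder): an arc is separating (label `true`) if and only if `t` lies
between its ends.
-/

set_option autoImplicit false

namespace Pool.Agent.Perc

open Finset

/-- Noncrossing patterns with one through line. -/
structure NCO (N : ℕ) (p : ℕ → ℕ) : Prop where
  lt : ∀ x < N, p x < N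
  inv : ∀ x, p (p x) = x
  out : ∀ x, N ≤ x → p x = x
  nc : ∀ x y, x < y → y < p x → x < p y ∧ p y < p x
  fix : ∃ t < N, p t = t ∧ ∀ x < N, p x = x → x = t

/-- The site of the through line. -/
noncomputable def thr (p : ℕ → ℕ) : ℕ := sInf {x | p x = x}

/-- The label of the arc of `x`: the through line is between its ends. -/
noncomputable def labO (p : ℕ → ℕ) (x : ℕ) : Bool :=
  xor (decide (x < thr p)) (decide (p x < thr p))

/-- The Temperley-Lieb generator at the sites `i`, `i + 1`. -/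
def eO (i : ℕ) (p : ℕ → ℕ) : ℕ → ℕ := fun x =>
  if x = i then i + 1 else if x = i + 1 then i
  else if p x = i then (if p (i + 1) = i + 1 then x else p (i + 1))
  else if p x = i + 1 then (if p i = i then x else p i) else p x

/-- The site `x` is an opening (the puncture is to the left of every arc) or the through line. -/
noncomputable def opO (p : ℕ → ℕ) (x : ℕ) : Bool :=
  decide (x = thr p) || xor (decide (x < p x)) (labO p x)

/-- The evaluation point of a state: `q²` at openings and at the through line, `1` at closings. -/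
noncomputable def zptO (q : ℂ) (p : ℕ → ℕ) : ℕ → ℂ := fun k => if opO p k = true then q ^ 2 else 1

/-- The nested pattern of `2 n + 1` sites: word `-ⁿ + +ⁿ`. -/
def nestO (n : ℕ) : ℕ → ℕ := fun x => if x < 2 * n + 1 then 2 * n - x else x

/-- Length of the arc of `x` in the universal cover (`0` for the through line). -/
noncomputable def lenO (N : ℕ) (p : ℕ → ℕ) (x : ℕ) : ℕ :=
  if labO p x = true then N - ((p x - x) + (x - p x)) else (p x - x) + (x - p x)

/-- Total length (every arc is counted twice). -/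
noncomputable def totO (N : ℕ) (p : ℕ → ℕ) : ℕ := ∑ x ∈ range N, lenO N p x

/-- Close the sites `i`, `i + 1` by a small arc and remove them. -/
def capO (i : ℕ) (p : ℕ → ℕ) : ℕ → ℕ := delArc i (eO i p)

/-- The faces `0, …, k - 1` of a row; `w i = true` if the face `i` acts by `e_i`. -/
def rowO (w : ℕ → Bool) : ℕ → (ℕ → ℕ) → (ℕ → ℕ)
  | 0, p => p
  | k + 1, p => if w k then eO k (rowO w k p) else rowO w k p

/-- One row of the cylinder of odd circumference `L`. -/
def trowO (L : ℕ) (w : ℕ → Bool) (p : ℕ → ℕ) : ℕ → ℕ := resP L (eO L (rowO w L (cupO L p)))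

/-- Average over the configurations of a row. -/
noncomputable def avgO (L : ℕ) (f : (ℕ → ℕ) → ℂ) (p : ℕ → ℕ) : ℂ :=
  (∑ T ∈ (range L).powerset, f (trowO L (fun k => decide (k ∈ T)) p)) / 2 ^ L

/-- The initial state of `L` sites (`L` odd): small arcs `(0, 1), (2, 3), …`, the last site is the
through line. -/
def flatO (L : ℕ) : ℕ → ℕ := fun x =>
  if L ≤ x + 1 then x else if x % 2 = 0 then x + 1 else x - 1

end Pool.Agent.Perc

end Partperc3OStDefs

section Partperc3OStA

/-!
# Odd states: generators, insertion, deletion, rotation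
-/

set_option autoImplicit false

namespace Pool.Agent.Perc

open Finset PatA PatB

variable {N : ℕ} {p : ℕ → ℕ}

namespace OStA

/-- The involution part of the structure. -/
theorem swap (h : ∀ x, p (p x) = x) {x y : ℕ} : p x = y ↔ p y = x :=
  ⟨fun e => by rw [← e, h], fun e => by rw [← e, h]⟩

/-- values of `eO` -/
theorem eO_left (i : ℕ) (p : ℕ → ℕ) : eO i p i = i + 1 := by
  unfold eO; rw [if_pos rfl]

theorem eO_right (i : ℕ) (p : ℕ → ℕ) : eO i p (i + 1) = i := by
  unfold eO; rw [if_neg (by omega), if_pos rfl]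

theorem eO_a {i x : ℕ} (p : ℕ → ℕ) (h1 : x ≠ i) (h2 : x ≠ i + 1) (h3 : p x = i) :
    eO i p x = if p (i + 1) = i + 1 then x else p (i + 1) := by
  unfold eO; rw [if_neg h1, if_neg h2, if_pos h3]

theorem eO_b {i x : ℕ} (p : ℕ → ℕ) (h1 : x ≠ i) (h2 : x ≠ i + 1) (h3 : p x = i + 1) :
    eO i p x = if p i = i then x else p i := by
  unfold eO; rw [if_neg h1, if_neg h2, if_neg (by omega), if_pos h3]

theorem eO_other {i x : ℕ} (p : ℕ → ℕ) (h1 : x ≠ i) (h2 : x ≠ i + 1) (h3 : p x ≠ i)
    (h4 : p x ≠ i + 1) : eO i p x = p x := by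
  unfold eO; rw [if_neg h1, if_neg h2, if_neg h3, if_neg h4]

end OStA

open OStA

theorem NCO.swap (h : NCO N p) {x y : ℕ} : p x = y ↔ p y = x := OStA.swap h.inv

theorem NCO.btw (h : NCO N p) {s t : ℕ} (ht : Bt s (p s) t) : Bt s (p s) (p t) := by
  rcases ht with ht | ht
  · exact Or.inl (h.nc s t ht.1 ht.2)
  · have := h.nc (p s) t ht.1 (by rw [h.inv]; exact ht.2)
    rw [h.inv] at this
    exact Or.inr this

theorem NCO.of_btw (h1 : ∀ x < N, p x < N) (h2 : ∀ x, p (p x) = x)
    (h4 : ∀ x, N ≤ x → p x = x) (h5 : ∀ s t, Bt s (p s) t → Bt s (p s) (p t))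
    (h3 : ∃ t < N, p t = t ∧ ∀ x < N, p x = x → x = t) : NCO N p := by
  refine ⟨h1, h2, h4, fun x y hxy hy => ?_, h3⟩
  rcases h5 x y (Or.inl ⟨hxy, hy⟩) with h | h
  · exact h
  · exact absurd (h.1.trans h.2) (by omega)

/-- The fixed point is unique. -/
theorem NCO.fix_unique (h : NCO N p) {x y : ℕ} (hx : x < N) (hy : y < N) (h1 : p x = x)
    (h2 : p y = y) : x = y := by
  obtain ⟨t, _, _, h3⟩ := h.fix
  rw [h3 x hx h1, h3 y hy h2]

theorem NCO.eO (h : NCO N p) {i : ℕ} (hi : i + 1 < N) : NCO N (eO i p) := by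
  have hli := h.lt i (by omega)
  have hli1 := h.lt (i + 1) hi
  -- in the cases `a`, `b`
  have key1 : ∀ x, x ≠ i → x ≠ i + 1 → p x = i → p i = x ∧ p i ≠ i ∧ p (i + 1) ≠ i := by
    intro x h1 h2 h3
    have h4 := h.swap.1 h3
    refine ⟨h4, by omega, fun e => ?_⟩
    rw [h.swap, h4] at e
    exact h2 e
  have key2 : ∀ x, x ≠ i → x ≠ i + 1 → p x = i + 1 →
      p (i + 1) = x ∧ p (i + 1) ≠ i + 1 ∧ p i ≠ i + 1 := by
    intro x h1 h2 h3
    have h4 := h.swap.1 h3
    refine ⟨h4, by omega, fun e => ?_⟩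
    rw [h.swap, h4] at e
    exact h1 e
  have hnot : ¬ (p i = i ∧ p (i + 1) = i + 1) := by
    rintro ⟨h1, h2⟩
    have := h.fix_unique (by omega) hi h1 h2
    omega
  refine NCO.of_btw ?_ ?_ ?_ ?_ ?_
  · intro x hx
    rcases PatA.cases i x p with rfl | rfl | ⟨h1, h2, h3⟩ | ⟨h1, h2, h3⟩ | ⟨h1, h2, h3, h4⟩
    · rw [eO_left]; exact hi
    · rw [eO_right]; omega
    · rw [eO_a p h1 h2 h3]; split_ifs
      · exact hx
      · exact hli1
    · rw [eO_b p h1 h2 h3]; split_ifs
      · exact hx
      · exact hli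
    · rw [eO_other p h1 h2 h3 h4]; exact h.lt x hx
  · intro x
    rcases PatA.cases i x p with rfl | rfl | ⟨h1, h2, h3⟩ | ⟨h1, h2, h3⟩ | ⟨h1, h2, h3, h4⟩
    · rw [eO_left, eO_right]
    · rw [eO_right, eO_left]
    · obtain ⟨h4, h5, h6⟩ := key1 x h1 h2 h3
      by_cases hb : p (i + 1) = i + 1
      · rw [eO_a p h1 h2 h3, if_pos hb, eO_a p h1 h2 h3, if_pos hb]
      · rw [eO_a p h1 h2 h3, if_neg hb, eO_b p h6 hb (h.inv _), if_neg h5, h4]
    · obtain ⟨h4, h5, h6⟩ := key2 x h1 h2 h3
      by_cases hb : p i = i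
      · rw [eO_b p h1 h2 h3, if_pos hb, eO_b p h1 h2 h3, if_pos hb]
      · rw [eO_b p h1 h2 h3, if_neg hb, eO_a p hb h6 (h.inv _), if_neg h5, h4]
    · rw [eO_other p h1 h2 h3 h4, eO_other p h3 h4 (by rw [h.inv]; exact h1)
        (by rw [h.inv]; exact h2), h.inv]
  · intro x hx
    have := h.out x hx
    rw [eO_other p (by omega) (by omega) (by omega) (by omega)]
    exact this
  · intro s t hst
    have hpt : ∀ s, Bt s (p s) t ↔ Bt s (p s) (p t) := fun s =>
      ⟨fun hh => h.btw hh, fun hh => by have := h.btw hh; rwa [h.inv] at this⟩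
    rcases PatA.cases i s p with rfl | rfl | ⟨s1, s2, s3⟩ | ⟨s1, s2, s3⟩ | ⟨s1, s2, s3, s4⟩
    · rw [eO_left] at hst
      exfalso; unfold Bt at hst; omega
    · rw [eO_right] at hst
      exfalso; unfold Bt at hst; omega
    · obtain ⟨s4, s5, s6⟩ := key1 s s1 s2 s3
      rw [eO_a p s1 s2 s3] at hst ⊢
      by_cases hb : p (i + 1) = i + 1
      · rw [if_pos hb] at hst
        exfalso; unfold Bt at hst; omega
      rw [if_neg hb] at hst ⊢
      rcases PatA.cases i t p with rfl | rfl | ⟨t1, t2, t3⟩ | ⟨t1, t2, t3⟩ | ⟨t1, t2, t3, t4⟩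
      · rw [eO_left]; unfold Bt at *; omega
      · rw [eO_right]; unfold Bt at *; omega
      · exfalso
        have := (key1 t t1 t2 t3).1
        unfold Bt at hst; omega
      · exfalso
        have := (key2 t t1 t2 t3).1
        unfold Bt at hst; omega
      · rw [eO_other p t1 t2 t3 t4]
        have e1 := hpt i
        have e2 := hpt (i + 1)
        rw [s4] at e1
        refine PatA.btw_xor e1 e2 t1 t2 ?_ ?_ t3 t4 ?_ ?_ hst
        · rintro rfl; exact t3 s3
        · rintro rfl; exact t4 (h.inv _)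
        · intro e; rw [h.swap, s3] at e; exact t1 e.symm
        · intro e
          have := congrArg p e
          rw [h.inv, h.inv] at this
          exact t2 this
    · obtain ⟨s4, s5, s6⟩ := key2 s s1 s2 s3
      rw [eO_b p s1 s2 s3] at hst ⊢
      by_cases hb : p i = i
      · rw [if_pos hb] at hst
        exfalso; unfold Bt at hst; omega
      rw [if_neg hb] at hst ⊢
      rcases PatA.cases i t p with rfl | rfl | ⟨t1, t2, t3⟩ | ⟨t1, t2, t3⟩ | ⟨t1, t2, t3, t4⟩
      · rw [eO_left]; unfold Bt at *; omega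
      · rw [eO_right]; unfold Bt at *; omega
      · exfalso
        have := (key1 t t1 t2 t3).1
        unfold Bt at hst; omega
      · exfalso
        have := (key2 t t1 t2 t3).1
        unfold Bt at hst; omega
      · rw [eO_other p t1 t2 t3 t4]
        have e1 := hpt i
        have e2 := hpt (i + 1)
        rw [s4] at e2
        refine PatA.btw_comm (PatA.btw_xor e1 e2 t1 t2 ?_ ?_ t3 t4 ?_ ?_ (PatA.btw_comm hst))
        · rintro rfl; exact t3 (h.inv _)
        · rintro rfl; exact t4 s3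
        · intro e
          have := congrArg p e
          rw [h.inv, h.inv] at this
          exact t1 this
        · intro e; rw [h.swap, s3] at e; exact t2 e.symm
    · rw [eO_other p s1 s2 s3 s4] at hst ⊢
      rcases PatA.cases i t p with rfl | rfl | ⟨t1, t2, t3⟩ | ⟨t1, t2, t3⟩ | ⟨t1, t2, t3, t4⟩
      · rw [eO_left]; unfold Bt at *; omega
      · rw [eO_right]; unfold Bt at *; omega
      · rw [eO_a p t1 t2 t3]
        by_cases hb : p (i + 1) = i + 1
        · rw [if_pos hb]; exact hst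
        rw [if_neg hb]
        have e1 := h.btw hst
        rw [t3] at e1
        apply h.btw
        unfold Bt at e1 ⊢; omega
      · rw [eO_b p t1 t2 t3]
        by_cases hb : p i = i
        · rw [if_pos hb]; exact hst
        rw [if_neg hb]
        have e1 := h.btw hst
        rw [t3] at e1
        apply h.btw
        unfold Bt at e1 ⊢; omega
      · rw [eO_other p t1 t2 t3 t4]
        exact h.btw hst
  · obtain ⟨t, ht, h1, h2⟩ := h.fix
    by_cases ti : t = i
    · -- the through line is at `i`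
      subst ti
      have hb : p (t + 1) ≠ t + 1 := fun e => hnot ⟨h1, e⟩
      have hb' : p (t + 1) ≠ t := by
        intro e; rw [h.swap] at e; omega
      refine ⟨p (t + 1), hli1, ?_, ?_⟩
      · rw [eO_b p hb' hb (h.inv _), if_pos h1]
      · intro x hx hx'
        rcases PatA.cases t x p with rfl | rfl | ⟨x1, x2, x3⟩ | ⟨x1, x2, x3⟩ | ⟨x1, x2, x3, x4⟩
        · rw [eO_left] at hx'; omega
        · rw [eO_right] at hx'; omega
        · have := (key1 x x1 x2 x3).1; omega
        · exact (key2 x x1 x2 x3).1.symm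
        · rw [eO_other p x1 x2 x3 x4] at hx'
          exact absurd (h2 x hx hx') x1
    by_cases ti1 : t = i + 1
    · subst ti1
      have ha : p i ≠ i := fun e => hnot ⟨e, h1⟩
      have ha' : p i ≠ i + 1 := by
        intro e; rw [h.swap] at e; omega
      refine ⟨p i, hli, ?_, ?_⟩
      · rw [eO_a p ha ha' (h.inv _), if_pos h1]
      · intro x hx hx'
        rcases PatA.cases i x p with rfl | rfl | ⟨x1, x2, x3⟩ | ⟨x1, x2, x3⟩ | ⟨x1, x2, x3, x4⟩
        · rw [eO_left] at hx'; omega
        · rw [eO_right] at hx'; omega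
        · exact (key1 x x1 x2 x3).1.symm
        · have := (key2 x x1 x2 x3).1; omega
        · rw [eO_other p x1 x2 x3 x4] at hx'
          exact absurd (h2 x hx hx') x2
    · refine ⟨t, ht, ?_, ?_⟩
      · rw [eO_other p ti ti1 (by omega) (by omega)]; exact h1
      · intro x hx hx'
        have hi' : p i ≠ i := fun e => ti (h2 i (by omega) e).symm
        have hi1' : p (i + 1) ≠ i + 1 := fun e => ti1 (h2 (i + 1) hi e).symm
        rcases PatA.cases i x p with rfl | rfl | ⟨x1, x2, x3⟩ | ⟨x1, x2, x3⟩ | ⟨x1, x2, x3, x4⟩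
        · rw [eO_left] at hx'; omega
        · rw [eO_right] at hx'; omega
        · rw [eO_a p x1 x2 x3, if_neg hi1'] at hx'
          have := h.inv (i + 1)
          rw [hx', x3] at this
          omega
        · rw [eO_b p x1 x2 x3, if_neg hi'] at hx'
          have := h.inv i
          rw [hx', x3] at this
          omega
        · rw [eO_other p x1 x2 x3 x4] at hx'
          exact h2 x hx hx'

theorem NCO.insArc (h : NCO N p) {i : ℕ} (hi : i ≤ N) : NCO (N + 2) (insArc i p) := by
  constructor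
  · intro x hx
    rcases cases_sh i x with rfl | rfl | ⟨a, rfl⟩
    · rw [ins_left]; omega
    · rw [ins_right]; omega
    · rw [ins_sh, sh_lt_iff hi]
      rw [sh_lt_iff hi] at hx
      exact h.lt a hx
  · intro x
    rcases cases_sh i x with rfl | rfl | ⟨a, rfl⟩
    · rw [ins_left, ins_right]
    · rw [ins_right, ins_left]
    · rw [ins_sh, ins_sh, h.inv]
  · intro x hx
    rcases cases_sh i x with rfl | rfl | ⟨a, rfl⟩
    · omega
    · omega
    · rw [ins_sh, sh_inj]
      apply h.out
      by_contra hc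
      have := (sh_lt_iff (N := N) hi (x := a)).mpr (by omega)
      omega
  · intro x y hxy hy
    rcases cases_sh i x with rfl | rfl | ⟨a, rfl⟩
    · rw [ins_left] at hy; omega
    · rw [ins_right] at hy; omega
    · rw [ins_sh] at hy ⊢
      have h1 := sh_ne (i := i) (x := a)
      have h2 := sh_ne' (i := i) (x := a)
      have h3 := sh_ne (i := i) (x := p a)
      have h4 := sh_ne' (i := i) (x := p a)
      rcases cases_sh i y with rfl | rfl | ⟨b, rfl⟩
      · rw [ins_left]; omega
      · rw [ins_right]; omega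
      · rw [ins_sh]
        rw [sh_lt] at hxy hy ⊢
        rw [sh_lt]
        exact h.nc a b hxy hy
  · obtain ⟨t, ht, h1, h2⟩ := h.fix
    refine ⟨sh i t, (sh_lt_iff hi).2 ht, by rw [ins_sh, h1], ?_⟩
    intro x hx hx'
    rcases cases_sh i x with rfl | rfl | ⟨a, rfl⟩
    · rw [ins_left] at hx'; omega
    · rw [ins_right] at hx'; omega
    · rw [ins_sh, sh_inj] at hx'
      rw [h2 a ((sh_lt_iff hi).1 hx) hx']

theorem OStA.sh_del (h : ∀ x, p (p x) = x) {i : ℕ} (hp : p i = i + 1) (x : ℕ) :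
    sh i (Perc.delArc i p x) = p (sh i x) := by
  have hp' : p (i + 1) = i := by rw [← hp, h]
  have h1 : p (sh i x) ≠ i := by
    intro h1
    have := h (sh i x)
    rw [h1, hp] at this
    exact sh_ne' this.symm
  have h2 : p (sh i x) ≠ i + 1 := by
    intro h2
    have := h (sh i x)
    rw [h2, hp'] at this
    exact sh_ne this.symm
  have e : Perc.delArc i p x = if p (sh i x) < i then p (sh i x) else p (sh i x) - 2 := rfl
  rw [e]
  generalize p (sh i x) = y at h1 h2 ⊢
  unfold sh
  by_cases hy : y < i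
  · rw [if_pos hy, if_pos hy]
  · rw [if_neg hy, if_neg (by omega)]; omega

theorem NCO.delArc (h : NCO (N + 2) p) {i : ℕ} (hi : i < N + 1) (hp : p i = i + 1) :
    NCO N (delArc i p) := by
  have hs := OStA.sh_del h.inv hp
  constructor
  · intro x hx
    rw [← sh_lt_iff (N := N) (i := i) (by omega), hs]
    exact h.lt _ ((sh_lt_iff (by omega)).mpr hx)
  · intro x
    rw [← sh_inj (i := i), hs, hs, h.inv]
  · intro x hx
    rw [← sh_inj (i := i), hs]
    apply h.out
    by_contra hc
    have := (sh_lt_iff (N := N) (i := i) (x := x) (by omega)).mp (by omega)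
    omega
  · intro x y hxy hy
    have h1 := h.nc (sh i x) (sh i y) (sh_lt.mpr hxy) (by rw [← hs]; exact sh_lt.mpr hy)
    rw [← hs, ← hs, sh_lt, sh_lt] at h1
    exact h1
  · obtain ⟨t, ht, h1, h2⟩ := h.fix
    have hp' : p (i + 1) = i := by rw [← hp, h.inv]
    rcases cases_sh i t with rfl | rfl | ⟨a, rfl⟩
    · omega
    · omega
    · refine ⟨a, (sh_lt_iff (by omega)).1 ht, ?_, ?_⟩
      · rw [← sh_inj (i := i), hs, h1]
      · intro x hx hx'
        rw [← sh_inj (i := i), hs] at hx'
        exact sh_inj.1 (h2 (sh i x) ((sh_lt_iff (by omega)).2 hx) hx')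

theorem insArc_delArcO (h : NCO (N + 2) p) {i : ℕ} (hp : p i = i + 1) :
    Perc.insArc i (delArc i p) = p := by
  funext x
  rcases cases_sh i x with rfl | rfl | ⟨a, rfl⟩
  · rw [ins_left, hp]
  · rw [ins_right, ← hp, h.inv]
  · rw [ins_sh, OStA.sh_del h.inv hp]

theorem delArc_insArcO (h : NCO N p) {i : ℕ} (hi : i ≤ N) : Perc.delArc i (insArc i p) = p := by
  funext x
  rw [← sh_inj (i := i), OStA.sh_del (h.insArc hi).inv (ins_left i p), ins_sh]

/-- `e_i` fixes a small arc. -/
theorem eO_of_small {i : ℕ} (h : ∀ x, p (p x) = x) (hp : p i = i + 1) : Perc.eO i p = p := by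
  have hp' : p (i + 1) = i := by rw [← hp, h]
  funext x
  rcases PatA.cases i x p with rfl | rfl | ⟨h1, h2, h3⟩ | ⟨h1, h2, h3⟩ | ⟨h1, h2, h3, h4⟩
  · rw [eO_left, hp]
  · rw [eO_right, hp']
  · rw [OStA.swap h] at h3; omega
  · rw [OStA.swap h] at h3; omega
  · rw [eO_other p h1 h2 h3 h4]

theorem NCO.capO (h : NCO (N + 2) p) {i : ℕ} (hi : i < N + 1) : NCO N (capO i p) :=
  (h.eO (by omega)).delArc hi (eO_left i p)

theorem insArc_capO (h : NCO (N + 2) p) {i : ℕ} (hi : i < N + 1) :
    Perc.insArc i (Perc.capO i p) = Perc.eO i p :=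
  insArc_delArcO (h.eO (by omega)) (eO_left i p)

theorem NCO.cupO (h : NCO N p) : NCO (N + 2) (cupO N p) := by
  have e0 : Perc.cupO N p 0 = N + 1 := by unfold Perc.cupO; rw [if_pos rfl]
  have e1 : Perc.cupO N p (N + 1) = 0 := by
    unfold Perc.cupO; rw [if_neg (by omega), if_pos rfl]
  have e2 : ∀ x < N, Perc.cupO N p (x + 1) = p x + 1 := by
    intro x hx
    unfold Perc.cupO
    rw [if_neg (by omega), if_neg (by omega), if_pos (by omega)]
    rfl
  have e3 : ∀ x, N + 2 ≤ x → Perc.cupO N p x = x := by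
    intro x hx
    unfold Perc.cupO
    rw [if_neg (by omega), if_neg (by omega), if_neg (by omega)]
  have hc : ∀ x, x = 0 ∨ x = N + 1 ∨ (∃ a, a < N ∧ x = a + 1) ∨ N + 2 ≤ x := by
    intro x
    by_cases h1 : x = 0
    · exact Or.inl h1
    · by_cases h2 : x = N + 1
      · exact Or.inr (Or.inl h2)
      · by_cases h3 : x < N + 1
        · exact Or.inr (Or.inr (Or.inl ⟨x - 1, by omega, by omega⟩))
        · exact Or.inr (Or.inr (Or.inr (by omega)))
  constructor
  · intro x hx
    rcases hc x with rfl | rfl | ⟨a, ha, rfl⟩ | hx'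
    · rw [e0]; omega
    · rw [e1]; omega
    · rw [e2 a ha]; have := h.lt a ha; omega
    · omega
  · intro x
    rcases hc x with rfl | rfl | ⟨a, ha, rfl⟩ | hx'
    · rw [e0, e1]
    · rw [e1, e0]
    · rw [e2 a ha, e2 _ (h.lt a ha), h.inv]
    · rw [e3 x hx', e3 x hx']
  · intro x hx
    exact e3 x hx
  · intro x y hxy hy
    rcases hc x with rfl | rfl | ⟨a, ha, rfl⟩ | hx'
    · rw [e0] at hy ⊢
      rcases hc y with rfl | rfl | ⟨b, hb, rfl⟩ | hy'
      · omega
      · omega
      · rw [e2 b hb]; have := h.lt b hb; omega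
      · omega
    · rw [e1] at hy; omega
    · rw [e2 a ha] at hy ⊢
      rcases hc y with rfl | rfl | ⟨b, hb, rfl⟩ | hy'
      · omega
      · have := h.lt a ha; omega
      · rw [e2 b hb]
        have := h.nc a b (by omega) (by omega)
        omega
      · have := h.lt a ha; omega
    · rw [e3 x hx'] at hy; omega
  · obtain ⟨t, ht, h1, h2⟩ := h.fix
    refine ⟨t + 1, by omega, by rw [e2 t ht, h1], ?_⟩
    intro x hx hx'
    rcases hc x with rfl | rfl | ⟨a, ha, rfl⟩ | hx''
    · rw [e0] at hx'; omega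
    · rw [e1] at hx'; omega
    · rw [e2 a ha] at hx'
      rw [h2 a ha (by omega)]
    · omega

end Pool.Agent.Perc

end Partperc3OStA

section Partperc3OStB

/-!
# Odd states: rotation, labels, small arcs
-/

set_option autoImplicit false

namespace Pool.Agent.Perc

open Finset PatA PatB OStA

variable {N : ℕ} {p : ℕ → ℕ}

/-! ## The through line -/

theorem NCO.thr_eq (h : NCO N p) {t : ℕ} (ht : t < N) (h1 : p t = t) : thr p = t := by
  obtain ⟨s, hs, h2, h3⟩ := h.fix
  have hst : t = s := h3 t ht h1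
  subst hst
  apply le_antisymm
  · exact Nat.sInf_le h1
  · have hne : ({x | p x = x} : Set ℕ).Nonempty := ⟨t, h1⟩
    have hm := Nat.sInf_mem hne
    by_contra hlt
    have hlt' : sInf {x | p x = x} < t := by unfold thr at hlt; omega
    have := h3 _ (by omega) hm
    omega

theorem NCO.thr_lt (h : NCO N p) : thr p < N := by
  obtain ⟨t, ht, h1, _⟩ := h.fix
  rw [h.thr_eq ht h1]; exact ht

theorem NCO.thr_fix (h : NCO N p) : p (thr p) = thr p := by
  obtain ⟨t, ht, h1, _⟩ := h.fix
  rw [h.thr_eq ht h1]; exact h1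

theorem NCO.eq_thr_iff (h : NCO N p) {x : ℕ} (hx : x < N) : p x = x ↔ x = thr p := by
  constructor
  · intro h1; exact (h.thr_eq hx h1).symm
  · rintro rfl; exact h.thr_fix

theorem labO_of_fix {x : ℕ} (hx : p x = x) : labO p x = false := by
  unfold labO; rw [hx, Bool.xor_self]

theorem labO_thr (h : NCO N p) : labO p (thr p) = false := labO_of_fix h.thr_fix

theorem labO_out (h : NCO N p) {x : ℕ} (hx : N ≤ x) : labO p x = false := labO_of_fix (h.out x hx)

theorem labO_partner (h : ∀ x, p (p x) = x) (x : ℕ) : labO p (p x) = labO p x := by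
  unfold labO; rw [h, Bool.xor_comm]

/-! ## Insertion -/

theorem NCO.thr_insArc (h : NCO N p) {i : ℕ} (hi : i ≤ N) :
    thr (Perc.insArc i p) = sh i (thr p) := by
  apply (h.insArc hi).thr_eq ((sh_lt_iff hi).2 h.thr_lt)
  rw [ins_sh, h.thr_fix]

theorem labO_insArc (h : NCO N p) {i : ℕ} (hi : i ≤ N) (x : ℕ) :
    labO (Perc.insArc i p) (sh i x) = labO p x := by
  unfold labO
  rw [h.thr_insArc hi, ins_sh]
  simp only [sh_lt]

theorem labO_insArc_left (h : NCO N p) {i : ℕ} (hi : i ≤ N) : labO (Perc.insArc i p) i = false := by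
  unfold labO
  rw [h.thr_insArc hi, ins_left]
  have h1 := sh_ne (i := i) (x := thr p)
  have h2 := sh_ne' (i := i) (x := thr p)
  by_cases h3 : i < sh i (thr p)
  · have h4 : i + 1 < sh i (thr p) := by omega
    simp [h3, h4]
  · have h4 : ¬ i + 1 < sh i (thr p) := by omega
    simp [h3, h4]

theorem labO_insArc_right (h : NCO N p) {i : ℕ} (hi : i ≤ N) :
    labO (Perc.insArc i p) (i + 1) = false := by
  have := labO_partner (h.insArc hi).inv i
  rw [ins_left] at this
  rw [this, labO_insArc_left h hi]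

/-- A small arc has the label `false`. -/
theorem labO_small (h : NCO N p) {i : ℕ} (hi : i < N) (hp : p i = i + 1) : labO p i = false := by
  have h0 := h.thr_fix
  have h1 : thr p ≠ i := by intro e; rw [e] at h0; omega
  have h2 : thr p ≠ i + 1 := by
    intro e; rw [e] at h0
    have := h.inv i
    rw [hp] at this; omega
  have _ := hi
  unfold labO
  rw [hp]
  by_cases h3 : i < thr p
  · have h4 : i + 1 < thr p := by omega
    simp [h3, h4]
  · have h4 : ¬ i + 1 < thr p := by omega
    simp [h3, h4]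

/-! ## Outer arc -/

theorem cupO_zero (N : ℕ) (p : ℕ → ℕ) : cupO N p 0 = N + 1 := by unfold cupO; rw [if_pos rfl]

theorem cupO_last (N : ℕ) (p : ℕ → ℕ) : cupO N p (N + 1) = 0 := by
  unfold cupO; rw [if_neg (by omega), if_pos rfl]

theorem cupO_succ {x : ℕ} (hx : x < N) (p : ℕ → ℕ) : cupO N p (x + 1) = p x + 1 := by
  unfold cupO
  rw [if_neg (by omega), if_neg (by omega), if_pos (by omega)]
  rfl

theorem NCO.thr_cupO (h : NCO N p) : thr (Perc.cupO N p) = thr p + 1 := by
  have := h.thr_lt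
  apply h.cupO.thr_eq (by omega)
  rw [cupO_succ h.thr_lt, h.thr_fix]

theorem labO_cupO_succ (h : NCO N p) {x : ℕ} (hx : x < N) :
    labO (Perc.cupO N p) (x + 1) = labO p x := by
  unfold labO
  rw [h.thr_cupO, cupO_succ hx]
  simp

theorem labO_cupO_zero (h : NCO N p) : labO (Perc.cupO N p) 0 = true := by
  have := h.thr_lt
  unfold labO
  rw [h.thr_cupO, cupO_zero]
  have h1 : ¬ N + 1 < thr p + 1 := by omega
  simp [h1]

theorem labO_cupO_last (h : NCO N p) : labO (Perc.cupO N p) (N + 1) = true := by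
  have := labO_partner h.cupO.inv 0
  rw [cupO_zero] at this
  rw [this, labO_cupO_zero h]

/-! ## Rotation -/

theorem NCO.rotP (h : NCO N p) : NCO N (rotP N p) := by
  constructor
  · intro x hx
    rw [rot_of_lt hx]
    exact rh_lt (h.lt _ (rh'_lt hx))
  · intro x
    by_cases hx : x < N
    · rw [rot_of_lt hx, rot_rh (h.lt _ (rh'_lt hx)), h.inv, rh_rh' hx]
    · rw [rot_of_ge (x := x) (by omega), rot_of_ge (x := x) (by omega)]
  · intro x hx
    exact rot_of_ge hx
  · intro x y hxy hy
    by_cases hx : x < N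
    · have hlt : Perc.rotP N p x < N := by
        rw [rot_of_lt hx]
        exact rh_lt (h.lt _ (rh'_lt hx))
      have hyN : y < N := by omega
      rw [rot_of_lt hx] at hy hlt ⊢
      rw [rot_of_lt hyN]
      have ex : rh' N x = x + 1 := by unfold rh'; rw [if_neg (by omega)]
      have ey : rh' N y = y + 1 := by unfold rh'; rw [if_neg (by omega)]
      rw [ex] at hy hlt ⊢
      rw [ey]
      have h1 := h.lt (x + 1) (by omega)
      have h2 := h.lt (y + 1) (by omega)
      by_cases h0 : p (x + 1) = 0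
      · have h00 : p 0 = x + 1 := by rw [← h0, h.inv]
        have h3 : p (y + 1) ≠ 0 := by
          intro h3
          have : p 0 = y + 1 := by rw [← h3, h.inv]
          omega
        have h4 : p (y + 1) ≠ x + 1 := by
          intro h4
          have : p (x + 1) = y + 1 := by rw [← h4, h.inv]
          omega
        have h5 : ¬ p (y + 1) < x + 1 := by
          intro h5
          have := h.nc 0 (p (y + 1)) (by omega) (by omega)
          rw [h.inv] at this
          omega
        unfold rh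
        rw [if_pos h0, if_neg h3]
        omega
      · have e3 : rh N (p (x + 1)) = p (x + 1) - 1 := by unfold rh; rw [if_neg h0]
        rw [e3] at hy ⊢
        have h3 := h.nc (x + 1) (y + 1) (by omega) (by omega)
        have e4 : rh N (p (y + 1)) = p (y + 1) - 1 := by unfold rh; rw [if_neg (by omega)]
        rw [e4]
        omega
    · rw [rot_of_ge (by omega)] at hy; omega
  · refine ⟨rh N (thr p), rh_lt h.thr_lt, ?_, ?_⟩
    · rw [rot_rh h.thr_lt, h.thr_fix]
    · intro x hx hx'
      rw [rot_of_lt hx] at hx'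
      have h1 := rh'_lt hx
      have h2 := congrArg (rh' N) hx'
      rw [rh'_rh (h.lt _ h1)] at h2
      rw [← (h.eq_thr_iff h1).1 h2, rh_rh' hx]

theorem NCO.thr_rotP (h : NCO N p) : thr (Perc.rotP N p) = rh N (thr p) := by
  apply h.rotP.thr_eq (rh_lt h.thr_lt)
  rw [rot_rh h.thr_lt, h.thr_fix]

/-- Labels after the rotation: the arc of the old site `0` is flipped. -/
theorem labO_rotP (h : NCO N p) {x : ℕ} (hx : x < N) :
    labO (Perc.rotP N p) (rh N x) =
      if p x ≠ x ∧ (x = 0 ∨ p x = 0) then !labO p x else labO p x := by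
  have ht := h.thr_lt
  have hp := h.lt x hx
  have hfx := h.thr_fix
  by_cases hxx : p x = x
  · rw [if_neg (fun e => e.1 hxx), labO_of_fix hxx]
    apply labO_of_fix
    rw [rot_rh hx, hxx]
  unfold labO
  rw [h.thr_rotP, rot_rh hx]
  by_cases ht0 : thr p = 0
  · -- the through line is at the seam
    have hx0 : x ≠ 0 := by
      rintro rfl
      rw [ht0] at hfx
      exact hxx hfx
    have hp0 : p x ≠ 0 := by
      intro e
      have := h.inv x
      rw [e] at this
      rw [ht0] at hfx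
      omega
    rw [if_neg (by tauto), ht0]
    have e1 : rh N x < rh N 0 := by unfold rh; rw [if_neg hx0, if_pos rfl]; omega
    have e2 : rh N (p x) < rh N 0 := by unfold rh; rw [if_neg hp0, if_pos rfl]; omega
    simp [e1, e2]
  · have et : rh N (thr p) = thr p - 1 := by unfold rh; rw [if_neg ht0]
    rw [et]
    by_cases hx0 : x = 0
    · subst hx0
      have hp0 : p 0 ≠ 0 := hxx
      rw [if_pos ⟨hxx, Or.inl rfl⟩]
      have e1 : rh N 0 = N - 1 := by unfold rh; rw [if_pos rfl]
      have e2 : rh N (p 0) = p 0 - 1 := by unfold rh; rw [if_neg hp0]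
      have e3 : ¬ (N - 1 < thr p - 1) := by omega
      have e4 : 0 < thr p := by omega
      rw [e1, e2]
      by_cases e5 : p 0 < thr p
      · have e6 : p 0 - 1 < thr p - 1 := by omega
        simp [e3, e4, e5, e6]
      · have e6 : ¬ p 0 - 1 < thr p - 1 := by omega
        simp [e3, e4, e5, e6]
    · by_cases hp0 : p x = 0
      · rw [if_pos ⟨hxx, Or.inr hp0⟩, hp0]
        have e1 : rh N 0 = N - 1 := by unfold rh; rw [if_pos rfl]
        have e2 : rh N x = x - 1 := by unfold rh; rw [if_neg hx0]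
        have e3 : ¬ (N - 1 < thr p - 1) := by omega
        have e4 : 0 < thr p := by omega
        rw [e1, e2]
        by_cases e5 : x < thr p
        · have e6 : x - 1 < thr p - 1 := by omega
          simp [e3, e4, e5, e6]
        · have e6 : ¬ x - 1 < thr p - 1 := by omega
          simp [e3, e4, e5, e6]
      · rw [if_neg (by tauto)]
        have e1 : rh N x = x - 1 := by unfold rh; rw [if_neg hx0]
        have e2 : rh N (p x) = p x - 1 := by unfold rh; rw [if_neg hp0]
        rw [e1, e2]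
        have e3 : x - 1 < thr p - 1 ↔ x < thr p := by omega
        have e4 : p x - 1 < thr p - 1 ↔ p x < thr p := by omega
        simp only [e3, e4]


theorem NCO.rotP_insArc_zero (h : NCO N p) :
    Perc.rotP (N + 2) (Perc.insArc 0 p) = Perc.cupO N p := by
  have _ := h
  funext x
  by_cases hx : x < N + 2
  · rw [rot_of_lt hx]
    unfold Perc.cupO
    by_cases h0 : x = 0
    · subst h0
      have : rh' (N + 2) 0 = 0 + 1 := by unfold rh'; rw [if_neg (by omega)]
      rw [this, ins_right, if_pos rfl]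
      unfold rh; rw [if_pos rfl]; omega
    · rw [if_neg h0]
      by_cases h1 : x = N + 1
      · subst h1
        have : rh' (N + 2) (N + 1) = 0 := by unfold rh'; rw [if_pos (by omega)]
        rw [this, ins_left, if_pos rfl]
        unfold rh; rw [if_neg (by omega)]
      · rw [if_neg h1, if_pos (by omega)]
        have : rh' (N + 2) x = sh 0 (x - 1) := by
          unfold rh' sh; rw [if_neg (by omega), if_neg (by omega)]; omega
        rw [this, ins_sh, sh_zero]
        unfold rh
        rw [if_neg (by omega)]; omega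
  · rw [rot_of_ge (by omega)]
    unfold Perc.cupO
    rw [if_neg (by omega), if_neg (by omega), if_neg (by omega)]

theorem NCO.rotP_insArc (h : NCO N p) {k : ℕ} (hk : 0 < k) (hkN : k ≤ N) :
    Perc.rotP (N + 2) (Perc.insArc k p) = Perc.insArc (k - 1) (Perc.rotP N p) := by
  obtain ⟨j, rfl⟩ : ∃ j, k = j + 1 := ⟨k - 1, by omega⟩
  have hj : j + 1 - 1 = j := rfl
  rw [hj]
  funext x
  rcases cases_sh j x with rfl | rfl | ⟨a, rfl⟩
  · rw [ins_left, rot_of_lt (by omega)]
    have : rh' (N + 2) x = x + 1 := by unfold rh'; rw [if_neg (by omega)]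
    rw [this, ins_left]
    unfold rh; rw [if_neg (by omega)]; omega
  · rw [ins_right, rot_of_lt (by omega)]
    have : rh' (N + 2) (j + 1) = j + 1 + 1 := by unfold rh'; rw [if_neg (by omega)]
    rw [this, ins_right]
    unfold rh; rw [if_neg (by omega)]; omega
  · rw [ins_sh]
    by_cases ha : a < N
    · have h1 : sh j a < N + 2 := (sh_lt_iff (by omega)).mpr ha
      rw [rot_of_lt h1, rot_of_lt ha]
      rw [rh'_sh ha (by omega), ins_sh, rh_sh (h.lt _ (rh'_lt ha)) (by omega)]
    · have h1 : ¬ sh j a < N + 2 := by rw [sh_lt_iff (by omega)]; exact ha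
      rw [rot_of_ge (by omega), rot_of_ge (by omega)]

theorem rotP_injO {p p' : ℕ → ℕ} (hp : NCO N p) (hp' : NCO N p')
    (he : Perc.rotP N p = Perc.rotP N p') : p = p' := by
  funext x
  by_cases hx : x < N
  · have h1 := congrFun he (rh N x)
    rw [rot_rh hx, rot_rh hx] at h1
    exact rh_inj (hp.lt x hx) (hp'.lt x hx) h1
  · rw [hp.out x (by omega), hp'.out x (by omega)]

/-! ## Small arcs -/

/-- There is a small arc or an arc from the first to the last site. -/
theorem NCO.exists_small (h : NCO (N + 2) p) (hN : 0 < N) :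
    (∃ i, i < N + 1 ∧ p i = i + 1) ∨ p 0 = N + 1 := by
  by_contra hc
  push Not at hc
  obtain ⟨hc1, hc2⟩ := hc
  obtain ⟨t, ht, h1, h2⟩ := h.fix
  -- minimal arc not enclosing the through line
  have key : ∀ d x, x < N + 2 → x < p x → p x - x ≤ d → (p x < t ∨ t < x) → False := by
    intro d
    induction d using Nat.strong_induction_on with
    | _ d ih =>
      intro x hx hxp hd hside
      have hpx := h.lt x hx
      have h3 : p x ≠ x + 1 := fun e => hc1 x (by omega) e
      have h4 := h.nc x (x + 1) (by omega) (by omega)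
      have h5 : p (x + 1) ≠ x + 1 := by
        intro e
        have := h2 (x + 1) (by omega) e
        omega
      have h6 : x + 1 < p (x + 1) := by
        rcases lt_trichotomy (p (x + 1)) (x + 1) with h7 | h7 | h7
        · omega
        · exact absurd h7 h5
        · exact h7
      exact ih (p (x + 1) - (x + 1)) (by omega) (x + 1) (by omega) h6 le_rfl
        (by rcases hside with h8 | h8 <;> omega)
  -- consider the sites next to the through line
  have hall : ∀ x, x < N + 2 → x < p x → x < t ∧ t < p x := by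
    intro x hx hxp
    by_contra h3
    have hx' : p x ≠ t := by
      intro e
      have := h.inv x
      rw [e, h1] at this
      omega
    have hx'' : x ≠ t := by rintro rfl; omega
    exact key _ x hx hxp le_rfl (by omega)
  -- the arc of site `0`
  by_cases ht0 : t = 0
  · subst ht0
    have h3 : p 1 ≠ 1 := by
      intro e; have := h2 1 (by omega) e; omega
    rcases lt_trichotomy (p 1) 1 with h4 | h4 | h4
    · have h5 : p 1 = 0 := by omega
      have := h.inv 1
      rw [h5, h1] at this; omega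
    · exact h3 h4
    · have := hall 1 (by omega) h4; omega
  · have h3 : p 0 ≠ 0 := by
      intro e; have := h2 0 (by omega) e; omega
    have h4 := hall 0 (by omega) (by omega)
    have h5 := h.lt 0 (by omega)
    -- the last site
    have h6 : p (N + 1) ≠ N + 1 := by
      intro e; have := h2 (N + 1) (by omega) e; omega
    have h7 : p (N + 1) < N + 1 := by
      have := h.lt (N + 1) (by omega); omega
    have h8 := hall (p (N + 1)) (by omega) (by rw [h.inv]; exact h7)
    -- the arcs of `0` and `N + 1` cross unless they are equal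
    have h9 : p 0 ≠ N + 1 := hc2
    have h10 : p (N + 1) ≠ 0 := by
      intro e
      have := h.inv (N + 1)
      rw [e] at this; exact h9 this
    have h11 : p (N + 1) < p 0 := by omega
    have h12 := h.nc 0 (p (N + 1)) (by omega) h11
    rw [h.inv] at h12
    omega

/-- Remove an arc from the first to the last site. -/
theorem NCO.exists_delCup (h : NCO (N + 2) p) (h1 : p 0 = N + 1) :
    ∃ p', NCO N p' ∧ Perc.cupO N p' = p := by
  have h1' : p (N + 1) = 0 := by rw [← h1, h.inv]
  have hin : ∀ x, 0 < x → x < N + 1 → 0 < p x ∧ p x < N + 1 := by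
    intro x hx hx'
    have := h.nc 0 x hx (by omega)
    omega
  refine ⟨fun x => if x < N then p (x + 1) - 1 else x, ?_, ?_⟩
  · constructor
    · intro x hx
      simp only [if_pos hx]
      have := hin (x + 1) (by omega) (by omega)
      omega
    · intro x
      by_cases hx : x < N
      · have h2 := hin (x + 1) (by omega) (by omega)
        simp only [if_pos hx]
        have h3 : p (x + 1) - 1 < N := by omega
        simp only [if_pos h3]
        have h4 : p (x + 1) - 1 + 1 = p (x + 1) := by omega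
        rw [h4, h.inv]; omega
      · simp only [if_neg hx]
    · intro x hx
      simp only [if_neg (not_lt.2 hx)]
    · intro x y hxy hy
      by_cases hx : x < N
      · simp only [if_pos hx] at hy ⊢
        have h2 := hin (x + 1) (by omega) (by omega)
        have hyN : y < N := by omega
        simp only [if_pos hyN]
        have h3 := h.nc (x + 1) (y + 1) (by omega) (by omega)
        omega
      · simp only [if_neg hx] at hy; omega
    · obtain ⟨t, ht, h2, h3⟩ := h.fix
      have ht0 : t ≠ 0 := by rintro rfl; omega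
      have ht1 : t ≠ N + 1 := by rintro rfl; omega
      refine ⟨t - 1, by omega, ?_, ?_⟩
      · simp only [if_pos (show t - 1 < N by omega)]
        have : t - 1 + 1 = t := by omega
        rw [this, h2]
      · intro x hx hx'
        simp only [if_pos hx] at hx'
        have h4 := hin (x + 1) (by omega) (by omega)
        have := h3 (x + 1) (by omega) (by omega)
        omega
  · funext x
    unfold Perc.cupO
    by_cases hx0 : x = 0
    · rw [if_pos hx0, hx0, h1]
    · rw [if_neg hx0]
      by_cases hx1 : x = N + 1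
      · rw [if_pos hx1, hx1, h1']
      · rw [if_neg hx1]
        by_cases hx2 : x < N + 1
        · rw [if_pos hx2]
          have h2 := hin x (by omega) (by omega)
          simp only [if_pos (show x - 1 < N by omega)]
          have : x - 1 + 1 = x := by omega
          rw [this]; omega
        · rw [if_neg hx2, h.out x (by omega)]

/-- Delete a small arc. -/
theorem NCO.exists_del (h : NCO (N + 2) p) {i : ℕ} (hi : i < N + 1) (h1 : p i = i + 1) :
    ∃ p', NCO N p' ∧ Perc.insArc i p' = p :=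
  ⟨_, h.delArc hi h1, insArc_delArcO h h1⟩

theorem nco_nestO (m : ℕ) : NCO (2 * m + 1) (nestO m) := by
  constructor
  · intro x hx; unfold nestO; rw [if_pos hx]; omega
  · intro x; unfold nestO; split_ifs <;> omega
  · intro x hx; unfold nestO; rw [if_neg (by omega)]
  · intro x y hxy; unfold nestO; split_ifs <;> omega
  · refine ⟨m, by omega, ?_, ?_⟩
    · unfold nestO; rw [if_pos (by omega)]; omega
    · intro x hx; unfold nestO; rw [if_pos hx]; omega

theorem thr_nestO (m : ℕ) : thr (nestO m) = m := by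
  apply (nco_nestO m).thr_eq (by omega)
  unfold nestO; rw [if_pos (by omega)]; omega

end Pool.Agent.Perc

end Partperc3OStB

section Partperc3OStC

/-!
# Odd states: generators and insertions, words
-/

set_option autoImplicit false

namespace Pool.Agent.Perc

open Finset PatA PatB OStA

variable {N : ℕ} {p p' : ℕ → ℕ}

/-! ## Generators and insertions -/

theorem eO_insArc_self (i : ℕ) (h : NCO N p) (hi : i ≤ N) :
    eO i (insArc i p) = insArc i p := eO_of_small (h.insArc hi).inv (ins_left i p)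

theorem OStC.eO_ins {i j k : ℕ} (p : ℕ → ℕ) (h1 : sh k j = i) (h2 : sh k (j + 1) = i + 1) :
    eO i (insArc k p) = insArc k (eO j p) := by
  have hk1 : k ≠ i := by rw [← h1]; exact sh_ne.symm
  have hk2 : k ≠ i + 1 := by rw [← h2]; exact sh_ne.symm
  have hk3 : k + 1 ≠ i := by rw [← h1]; exact sh_ne'.symm
  have hk4 : k + 1 ≠ i + 1 := by rw [← h2]; exact sh_ne'.symm
  funext x
  rcases cases_sh k x with rfl | rfl | ⟨a, rfl⟩
  · rw [ins_left]
    unfold eO
    rw [if_neg hk1, if_neg hk2, ins_left, if_neg hk3, if_neg hk4]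
  · rw [ins_right]
    unfold eO
    rw [if_neg hk3, if_neg hk4, ins_right, if_neg hk1, if_neg hk2]
  · rw [ins_sh]
    unfold eO
    rw [ins_sh]
    subst h1
    rw [← h2, ins_sh, ins_sh]
    simp only [sh_inj]
    split_ifs <;> rfl

theorem eO_insArc_of_le {i k : ℕ} (hik : k + 2 ≤ i) (p : ℕ → ℕ) :
    eO i (insArc k p) = insArc k (eO (i - 2) p) := by
  apply OStC.eO_ins
  · unfold sh; rw [if_neg (by omega)]; omega
  · unfold sh; rw [if_neg (by omega)]; omega

theorem eO_insArc_of_lt {i k : ℕ} (hik : i + 1 < k) (p : ℕ → ℕ) :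
    eO i (insArc k p) = insArc k (eO i p) := by
  apply OStC.eO_ins
  · unfold sh; rw [if_pos (by omega)]
  · unfold sh; rw [if_pos (by omega)]

theorem eO_insArc_succ (h : ∀ x, p (p x) = x) (i : ℕ) :
    eO i (insArc (i + 1) p) = insArc i p := by
  have e1 : insArc (i + 1) p (i + 1) = i + 1 + 1 := ins_left (i + 1) p
  have e2 : insArc (i + 1) p (i + 1 + 1) = i + 1 := ins_right (i + 1) p
  have e3 : insArc (i + 1) p i = sh (i + 1) (p i) := by
    have := ins_sh (i + 1) p i
    rwa [sh_succ_self] at this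
  funext x
  rcases cases_sh i x with rfl | rfl | ⟨a, rfl⟩
  · rw [ins_left, eO_left]
  · rw [ins_right, eO_right]
  · rw [ins_sh]
    unfold eO
    rw [if_neg sh_ne, if_neg sh_ne']
    by_cases ha : a = i
    · subst ha
      rw [sh_self, e2, if_neg (by omega), if_pos rfl, e3]
      by_cases hpa : p a = a
      · rw [hpa, sh_succ_self, if_pos rfl, sh_self]
      · rw [sh_succ hpa, if_neg sh_ne]
    · rw [← sh_succ ha, ins_sh]
      by_cases hb : p a = i
      · rw [hb, sh_succ_self, if_pos rfl, e1, if_neg (by omega), sh_self]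
      · rw [sh_succ hb, if_neg sh_ne, if_neg sh_ne']

theorem eO_succ_insArc (h : ∀ x, p (p x) = x) (i : ℕ) :
    eO (i + 1) (insArc i p) = insArc (i + 1) p := by
  have e1 : insArc i p (i + 1) = i := ins_right i p
  have e3 : insArc i p (i + 1 + 1) = sh i (p i) := by
    have : i + 1 + 1 = sh i i := by rw [sh_self]
    rw [this, ins_sh]
  funext x
  rcases cases_sh (i + 1) x with rfl | rfl | ⟨a, rfl⟩
  · rw [ins_left, eO_left]
  · rw [ins_right, eO_right]
  · rw [ins_sh]
    unfold eO
    rw [if_neg sh_ne, if_neg sh_ne']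
    by_cases ha : a = i
    · subst ha
      rw [sh_succ_self, ins_left, if_pos rfl, e3]
      by_cases hpa : p a = a
      · rw [hpa, sh_self, if_pos rfl, sh_succ_self]
      · rw [sh_succ hpa, if_neg (by
          have := sh_ne' (i := a) (x := p a)
          have h2 : sh a (p a) ≠ sh a a := fun e => hpa (sh_inj.1 e)
          rw [sh_self] at h2
          exact h2)]
    · rw [sh_succ ha, ins_sh]
      by_cases hb : p a = i
      · rw [hb, sh_self, if_neg (by omega), if_pos rfl, e1, if_neg (by omega), sh_succ_self]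
      · rw [sh_succ hb, if_neg sh_ne', if_neg]
        intro e
        apply hb
        rw [← sh_inj (i := i), sh_self]
        exact e

theorem eO_idem (h : ∀ x, p (p x) = x) (i : ℕ) : eO i (eO i p) = eO i p := by
  funext x
  have h0 := eO_left i p
  have h1 := eO_right i p
  by_cases x1 : x = i
  · subst x1; rw [eO_left, eO_left]
  by_cases x2 : x = i + 1
  · subst x2; rw [eO_right, eO_right]
  have hx : eO i p x ≠ i ∧ eO i p x ≠ i + 1 := by
    rcases PatA.cases i x p with e | e | ⟨_, _, x3⟩ | ⟨_, _, x3⟩ | ⟨_, _, x3, x4⟩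
    · exact absurd e x1
    · exact absurd e x2
    · rw [eO_a p x1 x2 x3]
      split_ifs with h4
      · exact ⟨x1, x2⟩
      · refine ⟨fun e => ?_, h4⟩
        rw [OStA.swap h] at e
        rw [OStA.swap h] at x3
        omega
    · rw [eO_b p x1 x2 x3]
      split_ifs with h4
      · exact ⟨x1, x2⟩
      · refine ⟨h4, fun e => ?_⟩
        rw [OStA.swap h] at e
        rw [OStA.swap h] at x3
        omega
    · rw [eO_other p x1 x2 x3 x4]; exact ⟨x3, x4⟩
  rw [eO_other _ x1 x2 hx.1 hx.2]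

/-! ## Rotation and generators -/

theorem NCO.rotP_eO (h : NCO N p) {i : ℕ} (hi : i + 2 < N) :
    Perc.rotP N (Perc.eO (i + 1) p) = Perc.eO i (Perc.rotP N p) := by
  have r1 : rh N (i + 1) = i := by unfold rh; rw [if_neg (by omega)]; rfl
  have r2 : rh N (i + 2) = i + 1 := by unfold rh; rw [if_neg (by omega)]; rfl
  have inj : ∀ {x y : ℕ}, x < N → y < N → (rh N x = rh N y ↔ x = y) := fun hx hy =>
    ⟨fun e => rh_inj hx hy e, fun e => by rw [e]⟩
  funext x
  by_cases hx : x < N
  · obtain ⟨y, hy, rfl⟩ : ∃ y < N, x = rh N y := ⟨rh' N x, rh'_lt hx, (rh_rh' hx).symm⟩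
    rw [rot_rh hy]
    have hpy := h.lt y hy
    have hp1 := h.lt (i + 1) (by omega)
    have hp2 := h.lt (i + 2) (by omega)
    have e1 : Perc.rotP N p (i + 1) = rh N (p (i + 2)) := by
      have := rot_rh (N := N) (p := p) (x := i + 2) (by omega)
      rwa [r2] at this
    have e0 : Perc.rotP N p i = rh N (p (i + 1)) := by
      have := rot_rh (N := N) (p := p) (x := i + 1) (by omega)
      rwa [r1] at this
    by_cases y1 : y = i + 1
    · subst y1; rw [r1, eO_left, eO_left, r2]
    by_cases y2 : y = i + 2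
    · subst y2
      have e5 : Perc.eO (i + 1) p (i + 2) = i + 1 := eO_right (i + 1) p
      have e6 : Perc.eO i (Perc.rotP N p) (i + 1) = i := eO_right i _
      rw [e5, r2, e6, r1]
    have z1 : rh N y ≠ i := by rw [← r1, Ne, inj hy (by omega)]; exact y1
    have z2 : rh N y ≠ i + 1 := by rw [← r2, Ne, inj hy (by omega)]; exact y2
    by_cases y3 : p y = i + 1
    · rw [eO_a p y1 y2 y3]
      have y3' : Perc.rotP N p (rh N y) = i := by rw [rot_rh hy, y3, r1]
      rw [eO_a _ z1 z2 y3', e1]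
      by_cases h5 : p (i + 2) = i + 2
      · rw [if_pos h5, h5, r2, if_pos rfl]
      · rw [if_neg h5, if_neg]
        rw [← r2, inj hp2 (by omega)]; exact h5
    by_cases y4 : p y = i + 2
    · rw [eO_b p y1 y2 y4]
      have y4' : Perc.rotP N p (rh N y) = i + 1 := by rw [rot_rh hy, y4, r2]
      rw [eO_b _ z1 z2 y4', e0]
      by_cases h5 : p (i + 1) = i + 1
      · rw [if_pos h5, h5, r1, if_pos rfl]
      · rw [if_neg h5, if_neg]
        intro e
        apply h5
        rw [← inj hp1 (show i + 1 < N by omega), r1]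
        exact e
    · rw [eO_other p y1 y2 y3 y4]
      have y3' : Perc.rotP N p (rh N y) ≠ i := by
        rw [rot_rh hy, ← r1, Ne, inj hpy (by omega)]; exact y3
      have y4' : Perc.rotP N p (rh N y) ≠ i + 1 := by
        rw [rot_rh hy, ← r2, Ne, inj hpy (by omega)]; exact y4
      rw [eO_other _ z1 z2 y3' y4', rot_rh hy]
  · have hp := h.out x (by omega)
    have hr : Perc.rotP N p x = x := rot_of_ge (by omega)
    rw [rot_of_ge (by omega)]
    rw [eO_other _ (by omega) (by omega) (by omega) (by omega), hr]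

theorem NCO.rotP_cupO (h : NCO N p) :
    Perc.rotP (N + 2) (Perc.cupO N p) = Perc.insArc N p := by
  funext x
  by_cases hx : x < N + 2
  · obtain ⟨y, hy, rfl⟩ : ∃ y < N + 2, x = rh (N + 2) y := ⟨rh' (N + 2) x, rh'_lt hx, (rh_rh' hx).symm⟩
    rw [rot_rh hy]
    by_cases y0 : y = 0
    · subst y0
      have e1 : rh (N + 2) 0 = N + 1 := by unfold rh; rw [if_pos rfl]; omega
      have e2 : rh (N + 2) (N + 1) = N := by unfold rh; rw [if_neg (by omega)]; omega
      rw [cupO_zero, e1, e2, ins_right]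
    · by_cases y1 : y = N + 1
      · subst y1
        have e1 : rh (N + 2) 0 = N + 1 := by unfold rh; rw [if_pos rfl]; omega
        have e2 : rh (N + 2) (N + 1) = N := by unfold rh; rw [if_neg (by omega)]; omega
        rw [cupO_last, e1, e2, ins_left]
      · obtain ⟨a, rfl⟩ : ∃ a, y = a + 1 := ⟨y - 1, by omega⟩
        have ha : a < N := by omega
        have hpa := h.lt a ha
        rw [cupO_succ ha]
        have e1 : ∀ b, rh (N + 2) (b + 1) = b := by intro b; unfold rh; rw [if_neg (by omega)]; rfl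
        rw [e1, e1]
        have e2 : ∀ b, b < N → sh N b = b := by intro b hb; unfold sh; rw [if_pos hb]
        have := ins_sh N p a
        rw [e2 a ha, e2 _ hpa] at this
        exact this.symm
  · have h1 := (h.insArc (le_refl N)).out x (by omega)
    rw [rot_of_ge (by omega), h1]

/-! ## Words -/

theorem opO_thr (p : ℕ → ℕ) : opO p (thr p) = true := by
  unfold opO; simp

theorem NCO.ne_of_ne (h : NCO N p) {x : ℕ} (hx : x < N) (h1 : x ≠ thr p) : p x ≠ x := fun e =>
  h1 ((h.eq_thr_iff hx).1 e)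

theorem opO_of_ne {x : ℕ} (h1 : x ≠ thr p) : opO p x = xor (decide (x < p x)) (labO p x) := by
  unfold opO; rw [decide_eq_false h1, Bool.false_or]

theorem opO_out (h : NCO N p) {x : ℕ} (hx : N ≤ x) : opO p x = false := by
  have := h.thr_lt
  rw [opO_of_ne (by omega), labO_out h hx, h.out x hx]
  simp

theorem opO_partner (h : NCO N p) {x : ℕ} (hx : x < N) (h1 : p x ≠ x) :
    opO p (p x) = !opO p x := by
  have h2 : x ≠ thr p := by rintro rfl; exact h1 h.thr_fix
  have h3 : p x ≠ thr p := by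
    intro e
    have := h.inv x
    rw [e, h.thr_fix] at this
    exact h2 this.symm
  have _ := hx
  rw [opO_of_ne h3, opO_of_ne h2, labO_partner h.inv, h.inv]
  have h4 : decide (p x < x) = !decide (x < p x) := by
    rcases Nat.lt_or_gt_of_ne h1 with h5 | h5
    · rw [decide_eq_true h5, decide_eq_false (by omega)]; rfl
    · rw [decide_eq_true (show x < p x from h5), decide_eq_false (by omega)]; rfl
  rw [h4]
  cases decide (x < p x) <;> cases labO p x <;> rfl

theorem opO_rotP (h : NCO N p) {x : ℕ} (hx : x < N) :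
    opO (Perc.rotP N p) x = opO p (if x + 1 = N then 0 else x + 1) := by
  have hr : (if x + 1 = N then 0 else x + 1) = rh' N x := rfl
  rw [hr]
  obtain ⟨y, hy, rfl⟩ : ∃ y < N, x = rh N y := ⟨rh' N x, rh'_lt hx, (rh_rh' hx).symm⟩
  rw [rh'_rh hy]
  by_cases hyt : y = thr p
  · subst hyt
    rw [opO_thr, ← h.thr_rotP, opO_thr]
  · have h1 := h.ne_of_ne hy hyt
    have h2 : rh N y ≠ thr (Perc.rotP N p) := by
      rw [h.thr_rotP]; intro e; exact hyt (rh_inj hy h.thr_lt e)
    rw [opO_of_ne h2, opO_of_ne hyt, labO_rotP h hy, rot_rh hy]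
    have hpy := h.lt y hy
    by_cases y0 : y = 0
    · subst y0
      rw [if_pos ⟨h1, Or.inl rfl⟩]
      have e1 : rh N 0 = N - 1 := by unfold rh; rw [if_pos rfl]
      have e2 : rh N (p 0) = p 0 - 1 := by unfold rh; rw [if_neg h1]
      rw [e1, e2, decide_eq_false (by omega), decide_eq_true (show 0 < p 0 by omega)]
      cases labO p 0 <;> rfl
    · by_cases p0 : p y = 0
      · rw [if_pos ⟨h1, Or.inr p0⟩]
        have e1 : rh N (p y) = N - 1 := by rw [p0]; unfold rh; rw [if_pos rfl]
        have e2 : rh N y = y - 1 := by unfold rh; rw [if_neg y0]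
        rw [e1, e2, decide_eq_true (by omega), decide_eq_false (by omega)]
        cases labO p y <;> rfl
      · rw [if_neg (by tauto)]
        have e1 : rh N (p y) = p y - 1 := by unfold rh; rw [if_neg p0]
        have e2 : rh N y = y - 1 := by unfold rh; rw [if_neg y0]
        rw [e1, e2]
        congr 1
        rw [decide_eq_decide]
        omega

theorem opO_insArc (h : NCO N p) {i : ℕ} (hi : i ≤ N) (x : ℕ) :
    opO (Perc.insArc i p) x = if x = i then true else if x = i + 1 then false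
      else opO p (if x < i then x else x - 2) := by
  rcases cases_sh i x with rfl | rfl | ⟨a, rfl⟩
  · rw [if_pos rfl, opO_of_ne (by rw [h.thr_insArc hi]; exact sh_ne.symm), labO_insArc_left h hi,
      ins_left, decide_eq_true (by omega)]
    rfl
  · rw [if_neg (by omega), if_pos rfl, opO_of_ne (by rw [h.thr_insArc hi]; exact sh_ne'.symm),
      labO_insArc_right h hi, ins_right, decide_eq_false (by omega)]
    rfl
  · rw [if_neg sh_ne, if_neg sh_ne']
    have e : (if sh i a < i then sh i a else sh i a - 2) = a := by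
      unfold sh; split_ifs <;> omega
    rw [e]
    unfold opO
    rw [h.thr_insArc hi, ins_sh, labO_insArc h hi]
    simp only [sh_inj, sh_lt]

theorem zptO_insArc (q : ℂ) (h : NCO N p) {i : ℕ} (hi : i ≤ N) :
    zptO q (Perc.insArc i p) = insV i (q ^ 2) 1 (zptO q p) := by
  funext x
  unfold zptO insV
  rw [opO_insArc h hi]
  by_cases h1 : x = i
  · subst h1; simp
  · by_cases h2 : x = i + 1
    · subst h2; simp
    · by_cases h3 : x < i
      · rw [if_neg h1, if_neg h2, if_pos h3, if_pos h3]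
      · rw [if_neg h1, if_neg h2, if_neg h3, if_neg h3, if_neg h1, if_neg h2]

theorem zptO_rotP (q : ℂ) (h : NCO N p) : zptO q (Perc.rotP N p) = rotV N (zptO q p) := by
  funext x
  simp only [zptO, rotV]
  by_cases hx : x < N
  · rw [opO_rotP h hx]
    by_cases h1 : x + 1 = N
    · have h2 : ¬ x + 1 < N := by omega
      simp only [h1, if_true, lt_irrefl, if_false]
    · have h2 : x + 1 < N := by omega
      simp only [h1, h2, if_true, if_false]
  · have h2 : opO p x = false := opO_out h (by omega)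
    have h3 : ¬ x + 1 < N := by omega
    have h4 : ¬ x + 1 = N := by omega
    rw [opO_out h.rotP (by omega)]
    simp only [h2, h3, h4, if_false]

theorem opO_nestO (m : ℕ) {x : ℕ} : opO (nestO m) x = decide (m ≤ x ∧ x < 2 * m + 1) := by
  have ht := thr_nestO m
  by_cases h1 : x = m
  · subst h1
    have : opO (nestO x) (thr (nestO x)) = true := opO_thr _
    rw [ht] at this
    rw [this, decide_eq_true (by omega)]
  · rw [opO_of_ne (by rw [ht]; exact h1)]
    unfold labO
    rw [ht]
    unfold nestO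
    by_cases h2 : x < 2 * m + 1
    · rw [if_pos h2]
      by_cases h3 : m ≤ x
      · have a1 : ¬ x < 2 * m - x := by omega
        have a2 : ¬ x < m := by omega
        have a3 : 2 * m - x < m := by omega
        simp [h2, h3, a1, a2, a3]
      · have a1 : x < 2 * m - x := by omega
        have a2 : x < m := by omega
        have a3 : ¬ 2 * m - x < m := by omega
        simp [h3, a1, a2, a3]
    · rw [if_neg h2]
      simp [h2]

end Pool.Agent.Perc

end Partperc3OStC

section Partperc3QCore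

/-!
# Directed strands in a complex of quadrangles

`V` vertices, `Φ` faces, `c f k` the corners of the face `f` in counterclockwise order. A directed
unit edge is a pair `(p, q)`: the strand crosses the unit edge with `p` on its left and `q` on its
right. The only condition is that a directed unit edge has at most one face ahead. The bond of the face
`f` joins the corners `k` and `k + 2` with `ω f = ev k`.
-/

set_option autoImplicit false

namespace Pool.Agent.Perc.Q

open Relation

/-- A complex of quadrangles: the corners of the faces. -/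
structure QC (V Φ : Type) where
  c : Φ → ZMod 4 → V
  inj : ∀ {f k f' k'}, c f k = c f' k' → c f (k + 1) = c f' (k' + 1) → f = f' ∧ k = k'

/-- The corners `0` and `2`. -/
def ev (k : ZMod 4) : Bool := decide (k = 0 ∨ k = 2)

theorem ev_add_two (k : ZMod 4) : ev (k + 2) = ev k := by revert k; decide

theorem ev_add_one (k : ZMod 4) : ev (k + 1) = !ev k := by revert k; decide

theorem ev_add_three (k : ZMod 4) : ev (k + 3) = !ev k := by revert k; decide

theorem z1 (k : ZMod 4) : k + 1 + 1 = k + 2 := by revert k; decide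
theorem z2 (k : ZMod 4) : k + 1 + 2 = k + 3 := by revert k; decide
theorem z3 (k : ZMod 4) : k + 1 + 3 = k := by revert k; decide
theorem z4 (k : ZMod 4) : k + 2 + 2 = k := by revert k; decide
theorem z5 (k : ZMod 4) : k + 3 + 1 = k := by revert k; decide
theorem z6 (k : ZMod 4) : k + 3 + 2 = k + 1 := by revert k; decide
theorem z4_cases (k0 k : ZMod 4) : k0 = k ∨ k0 = k + 1 ∨ k0 = k + 2 ∨ k0 = k + 3 := by
  revert k0 k; decide
theorem z7 (k : ZMod 4) : k + 2 + 1 = k + 3 := by revert k; decide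

theorem rtg_mono {α : Type} {r r' : α → α → Prop} (h : ∀ a b, r a b → r' a b) {a b : α}
    (hab : ReflTransGen r a b) : ReflTransGen r' a b := by
  induction hab with
  | refl => exact ReflTransGen.refl
  | tail _ hb ih => exact ih.tail (h _ _ hb)

theorem rtg_symm {α : Type} {r : α → α → Prop} (h : ∀ a b, r a b → r b a) {a b : α}
    (hab : ReflTransGen r a b) : ReflTransGen r b a := by
  induction hab with
  | refl => exact ReflTransGen.refl
  | tail _ hb ih => exact ReflTransGen.head (h _ _ hb) ih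

variable {V Φ ι S : Type} {Q : QC V Φ} {ω ω' ξ ζ : Φ → Bool} {F F' G : Set Φ} {e a b : V × V}
  {f g : Φ} {k : ZMod 4} {u v w p q : V}

/-- The bonds in the faces of `F`. -/
def BondQ (Q : QC V Φ) (ω : Φ → Bool) (F : Set Φ) (u v : V) : Prop :=
  ∃ f ∈ F, ∃ k, ω f = ev k ∧ u = Q.c f k ∧ v = Q.c f (k + 2)

/-- Connection by bonds in the faces of `F`. -/
def ConnQ (Q : QC V Φ) (ω : Φ → Bool) (F : Set Φ) : V → V → Prop := ReflTransGen (BondQ Q ω F)

theorem BondQ.symm (h : BondQ Q ω F u v) : BondQ Q ω F v u := by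
  obtain ⟨f, hf, k, h, rfl, rfl⟩ := h
  exact ⟨f, hf, k + 2, by rw [ev_add_two, h], rfl, by rw [z4]⟩

theorem ConnQ.symm (h : ConnQ Q ω F u v) : ConnQ Q ω F v u :=
  rtg_symm (fun _ _ h => BondQ.symm h) h

theorem BondQ.mono (hF : F ⊆ F') (h : BondQ Q ω F u v) : BondQ Q ω F' u v := by
  obtain ⟨f, hf, h⟩ := h
  exact ⟨f, hF hf, h⟩

theorem ConnQ.mono (hF : F ⊆ F') (h : ConnQ Q ω F u v) : ConnQ Q ω F' u v :=
  rtg_mono (fun _ _ h => BondQ.mono hF h) h

theorem BondQ.congr (h : ∀ f ∈ F, ω f = ω' f) (hb : BondQ Q ω F u v) : BondQ Q ω' F u v := by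
  obtain ⟨f, hf, k, h1, h2, h3⟩ := hb
  exact ⟨f, hf, k, by rw [← h f hf, h1], h2, h3⟩

theorem ConnQ.congr (h : ∀ f ∈ F, ω f = ω' f) (hb : ConnQ Q ω F u v) : ConnQ Q ω' F u v :=
  rtg_mono (fun _ _ hb => BondQ.congr h hb) hb

/-- One step of a strand: from the side through which it enters the face `f` of `F` to the side
through which it leaves it. -/
def Nx (Q : QC V Φ) (ω : Φ → Bool) (F : Set Φ) (a b : V × V) : Prop :=
  ∃ f ∈ F, ∃ k, a = (Q.c f k, Q.c f (k + 1)) ∧
    ((ω f = ev k ∧ b = (Q.c f (k + 2), Q.c f (k + 1))) ∨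
      (ω f = !ev k ∧ b = (Q.c f k, Q.c f (k + 3))))

/-- The strand which starts with the directed unit edge `e`. -/
def Orb (Q : QC V Φ) (ω : Φ → Bool) (F : Set Φ) (e : V × V) : Set (V × V) :=
  {a | ReflTransGen (Nx Q ω F) e a}

/-- The faces which are visited by the strand. -/
def Vis (Q : QC V Φ) (ω : Φ → Bool) (F : Set Φ) (e : V × V) : Set Φ :=
  {f | f ∈ F ∧ ∃ k, (Q.c f k, Q.c f (k + 1)) ∈ Orb Q ω F e}

/-- The unit edges of the strand, in both directions. -/
def Un (Q : QC V Φ) (ω : Φ → Bool) (F : Set Φ) (e : V × V) : Set (V × V) :=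
  {a | a ∈ Orb Q ω F e ∨ a.swap ∈ Orb Q ω F e}

/-- No face of `F` is behind `e`. -/
def Ini (Q : QC V Φ) (F : Set Φ) (e : V × V) : Prop := ∀ f ∈ F, ∀ k, e ≠ (Q.c f (k + 1), Q.c f k)

/-- No face of `F` is ahead of `a`. -/
def Ter (Q : QC V Φ) (F : Set Φ) (a : V × V) : Prop := ∀ f ∈ F, ∀ k, a ≠ (Q.c f k, Q.c f (k + 1))

theorem Nx.rev (h : Nx Q ω F a b) : Nx Q ω F b.swap a.swap := by
  obtain ⟨f, hf, k, rfl, ⟨h, rfl⟩ | ⟨h, rfl⟩⟩ := h
  · refine ⟨f, hf, k + 1, by rw [z1]; rfl, Or.inr ⟨by rw [ev_add_one, Bool.not_not, h], ?_⟩⟩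
    rw [z3]; rfl
  · refine ⟨f, hf, k + 3, by rw [z5]; rfl, Or.inl ⟨by rw [ev_add_three, h], ?_⟩⟩
    rw [z5, z6]; rfl

theorem Nx.unique (h : Nx Q ω F a b) {b' : V × V} (h' : Nx Q ω F a b') : b = b' := by
  obtain ⟨f, hf, k, rfl, h⟩ := h
  obtain ⟨f', hf', k', ha, h'⟩ := h'
  obtain ⟨rfl, rfl⟩ := Q.inj (Prod.mk.inj ha).1 (Prod.mk.inj ha).2
  rcases h with ⟨h, rfl⟩ | ⟨h, rfl⟩ <;> rcases h' with ⟨h', rfl⟩ | ⟨h', rfl⟩
  · rfl
  · rw [h] at h'; cases hk : ev k <;> rw [hk] at h' <;> cases h'
  · rw [h] at h'; cases hk : ev k <;> rw [hk] at h' <;> cases h'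
  · rfl

theorem Nx.inj (h : Nx Q ω F a b) {a' : V × V} (h' : Nx Q ω F a' b) : a = a' :=
  Prod.swap_injective (h.rev.unique h'.rev)

theorem mem_Orb_self : e ∈ Orb Q ω F e := ReflTransGen.refl

theorem Orb_step (ha : a ∈ Orb Q ω F e) (h : Nx Q ω F a b) : b ∈ Orb Q ω F e :=
  ReflTransGen.tail ha h

theorem Orb_mono (hF : F ⊆ F') : Orb Q ω F e ⊆ Orb Q ω F' e := by
  intro a ha
  refine rtg_mono ?_ ha
  rintro x y ⟨f, hf, h⟩
  exact ⟨f, hF hf, h⟩

theorem Vis_sub : Vis Q ω F e ⊆ F := fun _ h => h.1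

theorem Vis_mono (hF : F ⊆ F') : Vis Q ω F e ⊆ Vis Q ω F' e :=
  fun _ h => ⟨hF h.1, h.2.imp fun _ h => Orb_mono hF h⟩

/-- An element of the strand other than the first has a predecessor. -/
theorem Orb_pred (ha : a ∈ Orb Q ω F e) : a = e ∨ ∃ b ∈ Orb Q ω F e, Nx Q ω F b a := by
  rcases ReflTransGen.cases_tail ha with h | ⟨b, h1, h2⟩
  · exact Or.inl h
  · exact Or.inr ⟨b, h1, h2⟩

/-- The successor of a side of `f` which is entered. -/
theorem Nx.mk_left (hf : f ∈ F) (h : ω f = ev k) :
    Nx Q ω F (Q.c f k, Q.c f (k + 1)) (Q.c f (k + 2), Q.c f (k + 1)) :=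
  ⟨f, hf, k, rfl, Or.inl ⟨h, rfl⟩⟩

theorem Nx.mk_right (hf : f ∈ F) (h : ω f = !ev k) :
    Nx Q ω F (Q.c f k, Q.c f (k + 1)) (Q.c f k, Q.c f (k + 3)) :=
  ⟨f, hf, k, rfl, Or.inr ⟨h, rfl⟩⟩

/-- A side through which the strand leaves the face `f`: the strand has visited `f`. -/
theorem entered_of_left (he : Ini Q F e) (hf : f ∈ F)
    (h : (Q.c f (k + 1), Q.c f k) ∈ Orb Q ω F e) :
    ∃ b ∈ Orb Q ω F e, Nx Q ω F (Q.c f k, Q.c f (k + 1)) b.swap ∧
      ∃ k', b = (Q.c f k', Q.c f (k' + 1)) := by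
  rcases Orb_pred h with h1 | ⟨b, hb, h1⟩
  · exact absurd h1.symm (he f hf k)
  · refine ⟨b, hb, h1.rev, ?_⟩
    obtain ⟨f', hf', k', hb', h2⟩ := h1
    have h3 : f' = f := by
      rcases h2 with ⟨_, h2⟩ | ⟨_, h2⟩
      · have h4 := Prod.mk.inj h2
        exact ((Q.inj (f := f) (k := k) (f' := f') (k' := k' + 1) h4.2
          (by rw [z1]; exact h4.1)).1).symm
      · have h4 := Prod.mk.inj h2
        exact ((Q.inj (f := f) (k := k) (f' := f') (k' := k' + 3) h4.2
          (by rw [z5]; exact h4.1)).1).symm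
    exact ⟨k', by rw [hb', h3]⟩

/-- A face with a side in the strand is visited. -/
theorem vis_of_un (he : Ini Q F e) (hf : f ∈ F) (h : (Q.c f k, Q.c f (k + 1)) ∈ Un Q ω F e) :
    f ∈ Vis Q ω F e := by
  rcases h with h | h
  · exact ⟨hf, k, h⟩
  · obtain ⟨b, hb, -, k', rfl⟩ := entered_of_left he hf h
    exact ⟨hf, k', hb⟩

theorem Un_swap : a.swap ∈ Un Q ω F e ↔ a ∈ Un Q ω F e := by
  unfold Un
  simp only [Set.mem_ofPred_eq, Prod.swap_swap]
  tauto

/-- The two sides at the corner `k + 1` of a face whose bond joins `k` and `k + 2`. -/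
theorem un_iff (he : Ini Q F e) (hf : f ∈ F) (h : ω f = ev k) :
    (Q.c f k, Q.c f (k + 1)) ∈ Un Q ω F e ↔ (Q.c f (k + 1), Q.c f (k + 2)) ∈ Un Q ω F e := by
  have h1 : Nx Q ω F (Q.c f k, Q.c f (k + 1)) (Q.c f (k + 2), Q.c f (k + 1)) := Nx.mk_left hf h
  have h2 : Nx Q ω F (Q.c f (k + 1), Q.c f (k + 2)) (Q.c f (k + 1), Q.c f k) := h1.rev
  constructor
  · rintro (h3 | h3)
    · exact Or.inr (Orb_step h3 h1)
    · obtain ⟨b, hb, h4, -⟩ := entered_of_left he hf h3
      have h5 := h4.unique h1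
      refine Or.inl ?_
      have : b = (Q.c f (k + 1), Q.c f (k + 2)) := by rw [← Prod.swap_swap b, h5]; rfl
      rwa [← this]
  · rintro (h3 | h3)
    · exact Or.inr (Orb_step h3 h2)
    · have h3' : (Q.c f (k + 1 + 1), Q.c f (k + 1)) ∈ Orb Q ω F e := by rw [z1]; exact h3
      obtain ⟨b, hb, h4, -⟩ := entered_of_left he hf h3'
      rw [z1] at h4
      have h5 := h4.unique h2
      refine Or.inl ?_
      have : b = (Q.c f k, Q.c f (k + 1)) := by rw [← Prod.swap_swap b, h5]; rfl
      rwa [← this]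

/-- The marks: the left ends of the strand are joined to the first left end, the right ends to the
first right end, inside the visited faces. -/
theorem marks (ha : a ∈ Orb Q ω F e) :
    ConnQ Q ω (Vis Q ω F e) e.1 a.1 ∧ ConnQ Q ω (Vis Q ω F e) e.2 a.2 := by
  induction ha with
  | refl => exact ⟨ReflTransGen.refl, ReflTransGen.refl⟩
  | tail hab hs ih =>
    rename_i b b'
    obtain ⟨f, hf, k, rfl, ⟨h, rfl⟩ | ⟨h, rfl⟩⟩ := hs
    · exact ⟨ih.1.tail ⟨f, ⟨hf, k, hab⟩, k, h, rfl, rfl⟩, ih.2⟩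
    · refine ⟨ih.1, ih.2.tail ⟨f, ⟨hf, k, hab⟩, k + 1, by rw [ev_add_one, h], rfl, ?_⟩⟩
      change Q.c f (k + 3) = Q.c f (k + 1 + 2)
      rw [z2]

/-- The strand is determined by the configuration in the visited faces. -/
theorem Orb_congr (h : ∀ f ∈ Vis Q ω F e, ω f = ω' f) : Orb Q ω' F e = Orb Q ω F e := by
  apply Set.Subset.antisymm
  · intro a ha
    induction ha with
    | refl => exact mem_Orb_self
    | tail _ hs ih =>
      obtain ⟨f, hf, k, rfl, hs⟩ := hs
      refine Orb_step ih ⟨f, hf, k, rfl, ?_⟩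
      rw [h f ⟨hf, k, ih⟩]; exact hs
  · intro a ha
    induction ha with
    | refl => exact mem_Orb_self
    | tail hab hs ih =>
      obtain ⟨f, hf, k, rfl, hs⟩ := hs
      refine Orb_step ih ⟨f, hf, k, rfl, ?_⟩
      rw [← h f ⟨hf, k, hab⟩]; exact hs

theorem Vis_congr (h : ∀ f ∈ Vis Q ω F e, ω f = ω' f) : Vis Q ω' F e = Vis Q ω F e := by
  unfold Vis
  rw [Orb_congr h]

/-- The strand has at most one last element. -/
theorem ter_unique (ha : a ∈ Orb Q ω F e) (hb : b ∈ Orb Q ω F e) (ha' : Ter Q F a)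
    (hb' : Ter Q F b) : a = b := by
  have key : ∀ {a b : V × V}, ReflTransGen (Nx Q ω F) a b → Ter Q F a → a = b := by
    intro a b h ha
    rcases ReflTransGen.cases_head h with h | ⟨c, ⟨f, hf, k, h, -⟩, -⟩
    · exact h
    · exact absurd h (ha f hf k)
  have hu : Relator.RightUnique (Nx Q ω F) := fun _ _ _ h h' => Nx.unique h h'
  rcases ReflTransGen.total_of_right_unique hu ha hb with h | h
  · exact key h ha'
  · exact (key h hb').symm

/-- The strand of an initial element ends, if `F` is finite. -/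
theorem exists_ter (hF : F.Finite) (he : Ini Q F e) : ∃ a ∈ Orb Q ω F e, Ter Q F a := by
  by_contra hcon
  push Not at hcon
  have hs : ∀ a : Orb Q ω F e, ∃ b : Orb Q ω F e, Nx Q ω F a b := by
    rintro ⟨a, ha⟩
    have h1 := hcon a ha
    unfold Ter at h1
    push Not at h1
    obtain ⟨f, hf, k, rfl⟩ := h1
    rcases Bool.eq_or_eq_not (ω f) (ev k) with h | h
    · exact ⟨⟨_, Orb_step ha (Nx.mk_left hf h)⟩, Nx.mk_left hf h⟩
    · exact ⟨⟨_, Orb_step ha (Nx.mk_right hf h)⟩, Nx.mk_right hf h⟩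
  choose n hn using hs
  have hfin : Finite (Orb Q ω F e) := by
    have h1 : Orb Q ω F e ⊆ (fun x : Φ × ZMod 4 => (Q.c x.1 x.2, Q.c x.1 (x.2 + 1))) ''
        (F ×ˢ (Set.univ : Set (ZMod 4))) := by
      intro a ha
      have h1 := hcon a ha
      unfold Ter at h1
      push Not at h1
      obtain ⟨f, hf, k, h⟩ := h1
      exact ⟨(f, k), ⟨hf, Set.mem_univ _⟩, h.symm⟩
    exact ((hF.prod Set.finite_univ).image _).subset h1
  have hinj : Function.Injective n := by
    intro a a' h
    have h1 := hn a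
    rw [h] at h1
    exact Subtype.ext (h1.inj (hn a'))
  have hsurj := Finite.surjective_of_injective hinj
  obtain ⟨a, ha⟩ := hsurj ⟨e, mem_Orb_self⟩
  have h1 := hn a
  rw [ha] at h1
  obtain ⟨f, hf, k, -, ⟨-, h⟩ | ⟨-, h⟩⟩ := h1
  · exact he f hf (k + 1) (by rw [z1]; exact h)
  · exact he f hf (k + 3) (by rw [z5]; exact h)

/-! ### Several strands -/

/-- The unit edges of the strands `e i`. -/
def MU (Q : QC V Φ) (ω : Φ → Bool) (F : Set Φ) (e : ι → V × V) : Set (V × V) :=
  {a | ∃ i, a ∈ Un Q ω F (e i)}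

/-- The faces which are visited by the strands `e i`. -/
def VU (Q : QC V Φ) (ω : Φ → Bool) (F : Set Φ) (e : ι → V × V) : Set Φ :=
  {f | ∃ i, f ∈ Vis Q ω F (e i)}

/-- The strands `e i` divide the faces of `F` in sectors: `sec` is constant across the other unit
edges and `kap` changes exactly across the other unit edges; `L i` and `R i` are the sectors on the
left and on the right of the strand `i`. -/
structure IsSec (Q : QC V Φ) (ω : Φ → Bool) (F : Set Φ) (e : ι → V × V) (L R : ι → S)
    (sec : V → S) (kap : V → ZMod 2) : Prop where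
  ini : ∀ i, Ini Q F (e i)
  sec_eq : ∀ f ∈ F, ∀ k, (Q.c f k, Q.c f (k + 1)) ∉ MU Q ω F e →
    sec (Q.c f k) = sec (Q.c f (k + 1))
  kap_ne : ∀ f ∈ F, ∀ k, (Q.c f k, Q.c f (k + 1)) ∉ MU Q ω F e →
    kap (Q.c f k) ≠ kap (Q.c f (k + 1))
  left : ∀ i, ∀ a ∈ Orb Q ω F (e i), sec a.1 = L i ∧ kap a.1 = 0
  right : ∀ i, ∀ a ∈ Orb Q ω F (e i), sec a.2 = R i ∧ kap a.2 = 0

variable {ei : ι → V × V} {L R : ι → S} {sec : V → S} {kap : V → ZMod 2}

theorem MU_swap : a.swap ∈ MU Q ω F ei ↔ a ∈ MU Q ω F ei := by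
  unfold MU
  simp only [Set.mem_ofPred_eq, Un_swap]

theorem VU_sub : VU Q ω F ei ⊆ F := fun _ ⟨_, h⟩ => Vis_sub h

theorem VU_congr (h : ∀ f ∈ VU Q ω F ei, ω f = ω' f) : VU Q ω' F ei = VU Q ω F ei := by
  ext f
  unfold VU
  simp only [Set.mem_ofPred_eq]
  refine exists_congr fun i => ?_
  rw [Vis_congr fun f hf => h f ⟨i, hf⟩]

theorem MU_congr (h : ∀ f ∈ VU Q ω F ei, ω f = ω' f) : MU Q ω' F ei = MU Q ω F ei := by
  ext a
  unfold MU Un
  simp only [Set.mem_ofPred_eq]
  refine exists_congr fun i => ?_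
  rw [Orb_congr fun f hf => h f ⟨i, hf⟩]

/-- The sides of a face which is not visited do not belong to the strands. -/
theorem notMem_MU (he : ∀ i, Ini Q F (ei i)) (hf : f ∈ F) (hS : f ∉ VU Q ω F ei) :
    (Q.c f k, Q.c f (k + 1)) ∉ MU Q ω F ei := by
  rintro ⟨i, h⟩
  exact hS ⟨i, vis_of_un (he i) hf h⟩

namespace IsSec

variable (H : IsSec Q ω F ei L R sec kap)
include H

/-- The ends of a unit edge of the strands. -/
theorem kap_of_mem (ha : a ∈ MU Q ω F ei) : kap a.1 = 0 ∧ kap a.2 = 0 := by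
  obtain ⟨i, ha | ha⟩ := ha
  · exact ⟨(H.left i a ha).2, (H.right i a ha).2⟩
  · exact ⟨(H.right i _ ha).2, (H.left i _ ha).2⟩

/-- Corners of a visited face: the end of a side of the strands. -/
theorem land_corner (hf : f ∈ VU Q ω F ei) (hk : kap (Q.c f k) = 0) :
    ∃ i, (sec (Q.c f k) = L i ∧ ConnQ Q ω (VU Q ω F ei) (ei i).1 (Q.c f k)) ∨
      (sec (Q.c f k) = R i ∧ ConnQ Q ω (VU Q ω F ei) (ei i).2 (Q.c f k)) := by
  obtain ⟨j, hfF, k0, h0⟩ := hf
  have h0' : (Q.c f k0, Q.c f (k0 + 1)) ∈ MU Q ω F ei := ⟨j, Or.inl h0⟩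
  have h1 : kap (Q.c f k0) = 0 ∧ kap (Q.c f (k0 + 1)) = 0 := H.kap_of_mem h0'
  -- one of the two sides at the corner `k` belongs to the strands
  have h2 : (Q.c f k, Q.c f (k + 1)) ∈ MU Q ω F ei ∨
      (Q.c f (k + 3), Q.c f k) ∈ MU Q ω F ei := by
    by_contra hcon
    push Not at hcon
    have a1 := H.kap_ne f hfF k hcon.1
    have a2 := H.kap_ne f hfF (k + 3) (by rw [z5]; exact hcon.2)
    rw [z5] at a2
    rw [hk] at a1 a2
    have hc := z4_cases k0 k
    rcases hc with rfl | rfl | rfl | rfl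
    · exact a1 h1.2.symm
    · exact a1 h1.1.symm
    · rw [z7] at h1
      exact a2 h1.2
    · exact a2 h1.1
  have hmono : ∀ i, Vis Q ω F (ei i) ⊆ VU Q ω F ei := fun i f hf => ⟨i, hf⟩
  rcases h2 with ⟨i, h | h⟩ | ⟨i, h | h⟩
  · exact ⟨i, Or.inl ⟨(H.left i _ h).1, (marks h).1.mono (hmono i)⟩⟩
  · exact ⟨i, Or.inr ⟨(H.right i _ h).1, (marks h).2.mono (hmono i)⟩⟩
  · exact ⟨i, Or.inr ⟨(H.right i _ h).1, (marks h).2.mono (hmono i)⟩⟩
  · exact ⟨i, Or.inl ⟨(H.left i _ h).1, (marks h).1.mono (hmono i)⟩⟩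

/-- The ends of the bond of a visited face. -/
theorem bond_vis (hf : f ∈ VU Q ω F ei) (hk : ω f = ev k) (h0 : kap (Q.c f k) = 0) :
    sec (Q.c f k) = sec (Q.c f (k + 2)) ∧ kap (Q.c f (k + 2)) = 0 := by
  have hfF : f ∈ F := VU_sub hf
  have key : ∀ i, ((Q.c f k, Q.c f (k + 1)) ∈ Un Q ω F (ei i) ↔
      (Q.c f (k + 1), Q.c f (k + 2)) ∈ Un Q ω F (ei i)) := fun i => un_iff (H.ini i) hfF hk
  have hiff : (Q.c f k, Q.c f (k + 1)) ∈ MU Q ω F ei ↔
      (Q.c f (k + 1), Q.c f (k + 2)) ∈ MU Q ω F ei := exists_congr key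
  by_cases hm : (Q.c f k, Q.c f (k + 1)) ∈ MU Q ω F ei
  · obtain ⟨i, h | h⟩ := hm
    · have h2 := Orb_step h (Nx.mk_left hfF hk)
      exact ⟨(H.left i _ h).1.trans (H.left i _ h2).1.symm, (H.left i _ h2).2⟩
    · -- the strand leaves through the side `k`
      obtain ⟨b, hb, h4, -⟩ := entered_of_left (H.ini i) hfF h
      have h5 := h4.unique (Nx.mk_left hfF hk)
      have h6 : b = (Q.c f (k + 1), Q.c f (k + 2)) := by rw [← Prod.swap_swap b, h5]; rfl
      rw [h6] at hb
      exact ⟨(H.right i _ h).1.trans (H.right i _ hb).1.symm, (H.right i _ hb).2⟩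
  · have hm2 := fun h => hm (hiff.2 h)
    have a1 := H.sec_eq f hfF k hm
    have a2 := H.sec_eq f hfF (k + 1) (by rw [z1]; exact hm2)
    have b1 := H.kap_ne f hfF k hm
    have b2 := H.kap_ne f hfF (k + 1) (by rw [z1]; exact hm2)
    rw [z1] at a2 b2
    refine ⟨a1.trans a2, ?_⟩
    rw [h0] at b1
    generalize kap (Q.c f (k + 1)) = x at b1 b2
    generalize kap (Q.c f (k + 2)) = y at b2
    revert x y
    decide

/-- `sec` and `kap` are constant along all bonds in `F` (general). -/
theorem bond_eq (hfF : f ∈ F) (hk : ω f = ev k) :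
    sec (Q.c f k) = sec (Q.c f (k + 2)) ∧ kap (Q.c f k) = kap (Q.c f (k + 2)) := by
  have key : ∀ i, ((Q.c f k, Q.c f (k + 1)) ∈ Un Q ω F (ei i) ↔
      (Q.c f (k + 1), Q.c f (k + 2)) ∈ Un Q ω F (ei i)) := fun i => un_iff (H.ini i) hfF hk
  have hiff : (Q.c f k, Q.c f (k + 1)) ∈ MU Q ω F ei ↔
      (Q.c f (k + 1), Q.c f (k + 2)) ∈ MU Q ω F ei := exists_congr key
  by_cases hm : (Q.c f k, Q.c f (k + 1)) ∈ MU Q ω F ei
  · have h0 := (H.kap_of_mem hm).1
    obtain ⟨i, h⟩ := hm
    have hv : f ∈ VU Q ω F ei := ⟨i, vis_of_un (H.ini i) hfF h⟩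
    have := H.bond_vis hv hk h0
    exact ⟨this.1, by rw [this.2]; exact h0⟩
  · have hm2 := fun h => hm (hiff.2 h)
    have a1 := H.sec_eq f hfF k hm
    have a2 := H.sec_eq f hfF (k + 1) (by rw [z1]; exact hm2)
    have b1 := H.kap_ne f hfF k hm
    have b2 := H.kap_ne f hfF (k + 1) (by rw [z1]; exact hm2)
    rw [z1] at a2 b2
    refine ⟨a1.trans a2, ?_⟩
    generalize kap (Q.c f k) = z at b1 ⊢
    generalize kap (Q.c f (k + 1)) = x at b1 b2
    generalize kap (Q.c f (k + 2)) = y at b2 ⊢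
    revert x y z
    decide

theorem bondQ_eq (h : BondQ Q ω F u v) : sec u = sec v ∧ kap u = kap v := by
  obtain ⟨f, hf, k, hk, rfl, rfl⟩ := h
  exact H.bond_eq hf hk

theorem conn_eq (h : ConnQ Q ω F u v) : sec u = sec v ∧ kap u = kap v := by
  induction h with
  | refl => exact ⟨rfl, rfl⟩
  | tail _ hb ih =>
    have := H.bondQ_eq hb
    exact ⟨ih.1.trans this.1, ih.2.trans this.2⟩

/-- Opposite corners of a face which is not visited. -/
theorem fresh_opp (hfF : f ∈ F) (hS : f ∉ VU Q ω F ei) :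
    sec (Q.c f k) = sec (Q.c f (k + 2)) ∧ kap (Q.c f k) = kap (Q.c f (k + 2)) := by
  have hm := notMem_MU (k := k) H.ini hfF hS
  have hm2 := notMem_MU (k := k + 1) H.ini hfF hS
  have a1 := H.sec_eq f hfF k hm
  have a2 := H.sec_eq f hfF (k + 1) hm2
  have b1 := H.kap_ne f hfF k hm
  have b2 := H.kap_ne f hfF (k + 1) hm2
  rw [z1] at a2 b2
  refine ⟨a1.trans a2, ?_⟩
  generalize kap (Q.c f k) = z at b1 ⊢
  generalize kap (Q.c f (k + 1)) = x at b1 b2
  generalize kap (Q.c f (k + 2)) = y at b2 ⊢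
  revert x y z
  decide

end IsSec

/-! ### Landing and exits -/

/-- Landing: a path from outside `T` to `T`; `T` is preserved by the bonds of the faces of `G`
which are not in `S`, and the corners of the faces of `S` in `T` have the property `C`. -/
theorem land {S : Set Φ} {T : Set V} {C : V → Prop}
    (hfresh : ∀ g ∈ G, g ∉ S → ∀ k, (Q.c g k ∈ T ↔ Q.c g (k + 2) ∈ T))
    (hvis : ∀ g ∈ S, ∀ k, Q.c g k ∈ T → C (Q.c g k))
    (h0 : p ∉ T) (hn : q ∈ T) (hpath : ConnQ Q ξ G p q) :
    ∃ w, C w ∧ w ∈ T ∧ ConnQ Q ξ (G \ S) w q := by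
  have key : ∀ p, ConnQ Q ξ G p q → (p ∈ T ∧ ConnQ Q ξ (G \ S) p q) ∨
      ∃ w, C w ∧ w ∈ T ∧ ConnQ Q ξ (G \ S) w q := by
    intro p hp
    induction hp using ReflTransGen.head_induction_on with
    | refl => exact Or.inl ⟨hn, ReflTransGen.refl⟩
    | head hb hc ih =>
      rename_i p p'
      rcases ih with ⟨h1, h2⟩ | h
      · obtain ⟨g, hg, k, hk, rfl, rfl⟩ := hb
        by_cases hgS : g ∈ S
        · exact Or.inr ⟨_, hvis g hgS _ h1, h1, h2⟩
        · exact Or.inl ⟨(hfresh g hg hgS k).2 h1,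
            ReflTransGen.head ⟨g, ⟨hg, hgS⟩, k, hk, rfl, rfl⟩ h2⟩
      · exact Or.inr h
  rcases key p hpath with h | h
  · exact absurd h.1 h0
  · exact h

/-- Exit: a path from `T` to the outside of `T`; `P` holds along the path. The ends of the bonds of
the path in the faces of `S` are in `T`; `T` is preserved by the bonds of the faces of `F` which are
not in `S`; the corners in `T` of the faces of `G` which are not in `F` belong to `Y`. -/
theorem near {S F : Set Φ} {T Y : Set V} {P : V → Prop}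
    (hP : ∀ u v, BondQ Q ζ G u v → P u → P v)
    (hS : ∀ g ∈ S, ∀ k, ζ g = ev k → P (Q.c g k) → Q.c g k ∈ T)
    (hfresh : ∀ g ∈ F, g ∉ S → ∀ k, Q.c g k ∈ T → Q.c g (k + 2) ∈ T)
    (hY : ∀ g ∈ G, g ∉ F → ∀ k, Q.c g k ∈ T → Q.c g k ∈ Y)
    (h0 : p ∈ T) (hp : P p) (hn : q ∉ T) (hpath : ConnQ Q ζ G p q) :
    ∃ y ∈ Y, y ∈ T ∧ ConnQ Q ζ (G \ S) y q := by
  have key : ∀ p, ConnQ Q ζ G p q → P p → (p ∉ T ∧ ConnQ Q ζ (G \ S) p q) ∨
      ∃ y ∈ Y, y ∈ T ∧ ConnQ Q ζ (G \ S) y q := by
    intro p hp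
    induction hp using ReflTransGen.head_induction_on with
    | refl => exact fun _ => Or.inl ⟨hn, ReflTransGen.refl⟩
    | head hb hc ih =>
      rename_i p p'
      intro hPp
      have hPp' := hP _ _ hb hPp
      rcases ih hPp' with ⟨h1, h2⟩ | h
      · obtain ⟨g, hg, k, hk, rfl, rfl⟩ := hb
        have hgS : g ∉ S := fun h => h1 (hS g h (k + 2) (by rw [ev_add_two, hk]) hPp')
        have hconn : ConnQ Q ζ (G \ S) (Q.c g k) q :=
          ReflTransGen.head ⟨g, ⟨hg, hgS⟩, k, hk, rfl, rfl⟩ h2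
        by_cases hgF : g ∈ F
        · exact Or.inl ⟨fun h => h1 (hfresh g hgF hgS k h), hconn⟩
        · by_cases hT : Q.c g k ∈ T
          · exact Or.inr ⟨_, hY g hg hgF k hT, hT, hconn⟩
          · exact Or.inl ⟨hT, hconn⟩
      · exact Or.inr h
  rcases key p hpath hp with h | h
  · exact absurd h0 h.1
  · exact h

end Pool.Agent.Perc.Q

end Partperc3QCore

section Partperc6BcPush

/-!
# Push-forward of weights of bounded energy
-/

set_option autoImplicit false

namespace Pool.Agent.PercBc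

open Finset
open Pool.Agent.PercS5

theorem good_push {ι : Type*} {I : Finset ι} {c : ι → ℝ} {Φ : ι → ℤ × ℤ} {G : Finset (ℤ × ℤ)}
    {s B A : ℝ} {m : ℕ} (k : ι → ι → ℝ) (h0 : ∀ i, 0 ≤ c i) (h1 : ∑ i ∈ I, c i = 1)
    (hG : ∀ i ∈ I, c i ≠ 0 → Φ i ∈ G) (hB : 0 ≤ B)
    (hk : ∀ i ∈ I, ∀ j ∈ I, (max (dist (pt m (Φ i)) (pt m (Φ j))) (1 / 2 ^ m)) ^ (-s) ≤ B * k i j)
    (hE : ∑ i ∈ I, ∑ j ∈ I, c i * c j * k i j ≤ A) : Good s m (B * A) G := by
  classical
  set I' := I.filter fun i => c i ≠ 0 with hI'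
  have hG' : ∀ i ∈ I', Φ i ∈ G := fun i hi => hG i (mem_filter.1 hi).1 (mem_filter.1 hi).2
  have hsum : ∀ f : ι → ℝ, (∀ i ∈ I, c i = 0 → f i = 0) → ∑ i ∈ I', f i = ∑ i ∈ I, f i := by
    intro f hf
    refine sum_subset (filter_subset _ _) fun i hi hi' => hf i hi ?_
    by_contra hc
    exact hi' (mem_filter.2 ⟨hi, hc⟩)
  refine ⟨fun ζ => ∑ i ∈ I'.filter (fun i => Φ i = ζ), c i, fun ζ => sum_nonneg fun i _ => h0 i,
    ?_, ?_⟩
  · rw [sum_fiberwise_of_maps_to hG', hsum _ (fun i _ h => h), h1]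
  · have e1 : ∀ ζ ∈ G, ∀ ζ' ∈ G, (∑ i ∈ I'.filter (fun i => Φ i = ζ), c i) *
        (∑ i ∈ I'.filter (fun i => Φ i = ζ'), c i) *
          (max (dist (pt m ζ) (pt m ζ')) (1 / 2 ^ m)) ^ (-s) =
        ∑ i ∈ I'.filter (fun i => Φ i = ζ), ∑ j ∈ I'.filter (fun i => Φ i = ζ'), c i * c j *
          (max (dist (pt m (Φ i)) (pt m (Φ j))) (1 / 2 ^ m)) ^ (-s) := by
      intro ζ _ ζ' _
      rw [sum_mul_sum, sum_mul]
      refine sum_congr rfl fun i hi => ?_
      rw [sum_mul]
      refine sum_congr rfl fun j hj => ?_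
      rw [(mem_filter.1 hi).2, (mem_filter.1 hj).2]
    rw [sum_congr rfl fun ζ hζ => sum_congr rfl fun ζ' hζ' => e1 ζ hζ ζ' hζ']
    have e2 : ∀ ζ ∈ G, ∑ ζ' ∈ G, ∑ i ∈ I'.filter (fun i => Φ i = ζ),
        ∑ j ∈ I'.filter (fun i => Φ i = ζ'), c i * c j *
          (max (dist (pt m (Φ i)) (pt m (Φ j))) (1 / 2 ^ m)) ^ (-s) =
        ∑ i ∈ I'.filter (fun i => Φ i = ζ), ∑ j ∈ I', c i * c j *
          (max (dist (pt m (Φ i)) (pt m (Φ j))) (1 / 2 ^ m)) ^ (-s) := by
      intro ζ _
      rw [sum_comm]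
      exact sum_congr rfl fun i _ => sum_fiberwise_of_maps_to hG' _
    rw [sum_congr rfl e2, sum_fiberwise_of_maps_to hG']
    calc ∑ i ∈ I', ∑ j ∈ I', c i * c j *
          (max (dist (pt m (Φ i)) (pt m (Φ j))) (1 / 2 ^ m)) ^ (-s)
        ≤ ∑ i ∈ I', ∑ j ∈ I', B * (c i * c j * k i j) := by
          refine sum_le_sum fun i hi => sum_le_sum fun j hj => ?_
          have h2 := hk i (mem_filter.1 hi).1 j (mem_filter.1 hj).1
          calc _ ≤ c i * c j * (B * k i j) :=
                mul_le_mul_of_nonneg_left h2 (mul_nonneg (h0 i) (h0 j))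
            _ = _ := by ring
      _ = B * ∑ i ∈ I', ∑ j ∈ I', c i * c j * k i j := by
          simp_rw [mul_sum]
      _ = B * ∑ i ∈ I, ∑ j ∈ I, c i * c j * k i j := by
          congr 1
          rw [hsum _ (fun i _ h => by simp [h])]
          refine sum_congr rfl fun i _ => hsum _ (fun j _ h => by simp [h])
      _ ≤ B * A := mul_le_mul_of_nonneg_left hE hB

end Pool.Agent.PercBc

end Partperc6BcPush
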