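import Pool.Agent.Lib.MP_6bd702_zc.Pre
import Pool.Agent.Lib.MP_6bd702_zc.Y004
import Pool.Agent.Lib.MP_6bd702_zc.Y002
import Pool.Agent.Lib.MP_6bd702_z.Z016
import Pool.Agent.Lib.MP_6bd702_z.Z034
import Pool.Agent.Lib.MP_6bd702_z.Z018

section Partperc3TriA

/-!
# Contraction at the common sites (task TriA)

All four statements follow from `PR.contract` (for the second and the fourth one with the roles of
the two involutions exchanged, `PR.comm`); the `D`-nodes are shifted by two. For `B2`: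
`dnO (n + 2) (insL i s)` is obtained from `dnO n s` by insertion, since `i + 1 < n + 2`.
-/

set_option autoImplicit false

namespace Pool.Agent.Perc

open Finset

variable {n i : ℕ} {s : St} {p : ℕ → ℕ}

namespace TriA

open PatB

variable {N : ℕ}

/-- `u₀` arises from `u` by closing the sites `i`, `i + 1` and removing them. -/
structure Cap (i : ℕ) (u u₀ : St) : Prop where
  u1 : ∀ x, u.1 (sh i x) ≠ i → u.1 (sh i x) ≠ i + 1 →
    sh i (u₀.1 x) = u.1 (sh i x) ∧ u₀.2 x = u.2 (sh i x)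
  u2 : ∀ x, u.1 (sh i x) = i → u.1 (i + 1) ≠ i + 1 →
    sh i (u₀.1 x) = u.1 (i + 1) ∧ u₀.2 x = xor (u.2 i) (u.2 (i + 1))
  u3 : ∀ x, u.1 (sh i x) = i → u.1 (i + 1) = i + 1 → u₀.1 x = x ∧ u₀.2 x = false
  u4 : ∀ x, u.1 (sh i x) = i + 1 → u.1 i ≠ i →
    sh i (u₀.1 x) = u.1 i ∧ u₀.2 x = xor (u.2 i) (u.2 (i + 1))
  u5 : ∀ x, u.1 (sh i x) = i + 1 → u.1 i = i → u₀.1 x = x ∧ u₀.2 x = false

/-- `d` is `d₀` with a small arc at `i`, `i + 1`. -/
structure Ins (i : ℕ) (d d₀ : St) : Prop where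
  d1 : d.1 i = i + 1
  d2 : d.2 i = false
  d3 : ∀ x, d.1 (sh i x) = sh i (d₀.1 x) ∧ d.2 (sh i x) = d₀.2 x

theorem labO_ins_sh (h : NCO N p) (hi : i ≤ N) (x : ℕ) :
    labO (insArc i p) (sh i x) = labO p x := by
  unfold sh
  by_cases hx : x < i
  · rw [if_pos hx, labO_insArc_lt h hi hx]
  · rw [if_neg hx, labO_insArc_ge h hi (by omega)]

theorem capO_sh (h : NCO (N + 2) p) (hi : i ≤ N) (x : ℕ) :
    sh i (capO i p x) = eO i p (sh i x) := by
  rw [← insArc_capO h (by omega), ins_sh]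

theorem labO_capO (h : NCO (N + 2) p) (hi : i ≤ N) (x : ℕ) :
    labO (capO i p) x = labO (eO i p) (sh i x) := by
  rw [← insArc_capO h (by omega), labO_ins_sh (h.capO (by omega)) hi]

theorem Cap.up (h : NCO (N + 2) p) (hi : i ≤ N) : Cap i (upO p) (upO (capO i p)) := by
  have hsw : ∀ {x y : ℕ}, p x = y ↔ p y = x := fun {x y} => h.swap
  constructor
  · intro x h1 h2
    have h1' : p (sh i x) ≠ i := h1
    have h2' : p (sh i x) ≠ i + 1 := h2
    refine ⟨?_, ?_⟩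
    · show sh i (capO i p x) = p (sh i x)
      rw [capO_sh h hi, OStA.eO_other p sh_ne sh_ne' h1' h2']
    · show labO (capO i p) x = labO p (sh i x)
      rw [labO_capO h hi, labO_eO_other h (by omega) sh_ne sh_ne' h1' h2']
  · intro x h1 h2
    have h1' : p (sh i x) = i := h1
    have h2' : p (i + 1) ≠ i + 1 := h2
    have h3 : p i ≠ i := by
      rw [hsw.1 h1']; exact sh_ne
    refine ⟨?_, ?_⟩
    · show sh i (capO i p x) = p (i + 1)
      rw [capO_sh h hi, OStA.eO_a p sh_ne sh_ne' h1', if_neg h2']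
    · show labO (capO i p) x = xor (labO p i) (labO p (i + 1))
      rw [labO_capO h hi, labO_eO_mid h (by omega) sh_ne sh_ne' (Or.inl h1') h3 h2']
  · intro x h1 h2
    have h1' : p (sh i x) = i := h1
    have h2' : p (i + 1) = i + 1 := h2
    have h4 : capO i p x = x := by
      rw [← sh_inj (i := i), capO_sh h hi, OStA.eO_a p sh_ne sh_ne' h1', if_pos h2']
    exact ⟨h4, labO_fix h4⟩
  · intro x h1 h2
    have h1' : p (sh i x) = i + 1 := h1
    have h2' : p i ≠ i := h2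
    have h3 : p (i + 1) ≠ i + 1 := by
      rw [hsw.1 h1']; exact sh_ne'
    refine ⟨?_, ?_⟩
    · show sh i (capO i p x) = p i
      rw [capO_sh h hi, OStA.eO_b p sh_ne sh_ne' h1', if_neg h2']
    · show labO (capO i p) x = xor (labO p i) (labO p (i + 1))
      rw [labO_capO h hi, labO_eO_mid h (by omega) sh_ne sh_ne' (Or.inr h1') h2' h3]
  · intro x h1 h2
    have h1' : p (sh i x) = i + 1 := h1
    have h2' : p i = i := h2
    have h4 : capO i p x = x := by
      rw [← sh_inj (i := i), capO_sh h hi, OStA.eO_b p sh_ne sh_ne' h1', if_pos h2']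
    exact ⟨h4, labO_fix h4⟩

theorem capL_sh (h : IsAnn (N + 2) s) (hi : i ≤ N) (x : ℕ) :
    sh i ((capL i s).1 x) = (eL i s).1 (sh i x) := by
  rw [← insL_capL h hi]
  exact (ins_sh i _ x).symm

theorem Cap.low (h : IsAnn (N + 2) s) (hi : i ≤ N) : Cap i s (capL i s) := by
  have hl : ∀ x, (capL i s).2 x = (eL i s).2 (sh i x) := fun x => rfl
  have hsw : ∀ {x y : ℕ}, s.1 x = y → s.1 y = x := by
    intro x y e
    rw [← e, h.nc.inv]
  constructor
  · intro x h1 h2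
    refine ⟨?_, ?_⟩
    · rw [capL_sh h hi]
      show eAct i s.1 (sh i x) = _
      unfold eAct
      rw [if_neg sh_ne, if_neg sh_ne', if_neg h1, if_neg h2]
    · rw [hl, QStB.eL_lab3 i s (by rintro (h3 | h3); exacts [sh_ne h3, sh_ne' h3])
        (by rintro (h3 | h3); exacts [h1 h3, h2 h3])]
  · intro x h1 h2
    refine ⟨?_, ?_⟩
    · rw [capL_sh h hi]
      show eAct i s.1 (sh i x) = _
      unfold eAct
      rw [if_neg sh_ne, if_neg sh_ne', if_pos h1]
    · rw [hl, QStB.eL_lab2 i s (by rintro (h3 | h3); exacts [sh_ne h3, sh_ne' h3]) (Or.inl h1)]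
  · intro x h1 h2
    exact absurd h2 (h.nc.ne (i + 1) (by omega))
  · intro x h1 h2
    refine ⟨?_, ?_⟩
    · rw [capL_sh h hi]
      show eAct i s.1 (sh i x) = _
      unfold eAct
      rw [if_neg sh_ne, if_neg sh_ne', if_neg (by omega), if_pos h1]
    · rw [hl, QStB.eL_lab2 i s (by rintro (h3 | h3); exacts [sh_ne h3, sh_ne' h3]) (Or.inr h1)]
  · intro x h1 h2
    exact absurd h2 (h.nc.ne i (by omega))

theorem Ins.low (i : ℕ) (s : St) : Ins i (insL i s) s :=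
  ⟨ins_left i _, QStA.insL_left i s, fun x => ⟨ins_sh i _ x, QStA.insL_sh i s x⟩⟩

theorem Ins.up (h : NCO N p) (hi : i ≤ N) : Ins i (upO (insArc i p)) (upO p) :=
  ⟨ins_left i _, labO_insArc_left h hi, fun x => ⟨ins_sh i _ x, labO_ins_sh h hi x⟩⟩

theorem swap_lt {x : ℕ} (n : ℕ) (h : x < n) : Equiv.swap n (n + 2) x = x :=
  Equiv.swap_apply_of_ne_of_ne (by omega) (by omega)

theorem swap_sh (hi : i ≤ n) (x : ℕ) :
    Equiv.swap (n + 2) (n + 2 + 2) (sh i x) = sh i (Equiv.swap n (n + 2) x) := by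
  have e1 : sh i n = n + 2 := by unfold sh; rw [if_neg (by omega)]
  have e2 : sh i (n + 2) = n + 2 + 2 := by unfold sh; rw [if_neg (by omega)]
  by_cases h1 : x = n
  · subst h1
    rw [e1, Equiv.swap_apply_left, Equiv.swap_apply_left, e2]
  · by_cases h2 : x = n + 2
    · subst h2
      rw [e2, Equiv.swap_apply_right, Equiv.swap_apply_right, e1]
    · rw [Equiv.swap_apply_of_ne_of_ne h1 h2, Equiv.swap_apply_of_ne_of_ne]
      · rw [← e1, Ne, sh_inj]; exact h1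
      · rw [← e2, Ne, sh_inj]; exact h2

theorem Ins.dn (hi : i ≤ n) {d d₀ : St} (h : Ins i d d₀) :
    Ins i (dnO (n + 2) d) (dnO n d₀) := by
  have a1 : Equiv.swap (n + 2) (n + 2 + 2) i = i := swap_lt (n + 2) (by omega)
  have a2 : Equiv.swap (n + 2) (n + 2 + 2) (i + 1) = i + 1 := swap_lt (n + 2) (by omega)
  refine ⟨?_, ?_, fun x => ⟨?_, ?_⟩⟩
  · show Equiv.swap (n + 2) (n + 2 + 2) (d.1 (Equiv.swap (n + 2) (n + 2 + 2) i)) = i + 1
    rw [a1, h.d1, a2]
  · show d.2 (Equiv.swap (n + 2) (n + 2 + 2) i) = false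
    rw [a1, h.d2]
  · show Equiv.swap (n + 2) (n + 2 + 2) (d.1 (Equiv.swap (n + 2) (n + 2 + 2) (sh i x))) =
      sh i (Equiv.swap n (n + 2) (d₀.1 (Equiv.swap n (n + 2) x)))
    rw [swap_sh hi, (h.d3 _).1, swap_sh hi]
  · show d.2 (Equiv.swap (n + 2) (n + 2 + 2) (sh i x)) = d₀.2 (Equiv.swap n (n + 2) x)
    rw [swap_sh hi, (h.d3 _).2]

theorem Cap.dn (hi : i ≤ n) {u u₀ : St} (h : Cap i u u₀) :
    Cap i (dnO (n + 2) u) (dnO n u₀) := by
  have a1 : Equiv.swap (n + 2) (n + 2 + 2) i = i := swap_lt (n + 2) (by omega)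
  have a2 : Equiv.swap (n + 2) (n + 2 + 2) (i + 1) = i + 1 := swap_lt (n + 2) (by omega)
  have b1 : ∀ y, Equiv.swap (n + 2) (n + 2 + 2) y = i ↔ y = i := by
    intro y
    constructor
    · intro e
      have := congrArg (Equiv.swap (n + 2) (n + 2 + 2)) e
      rwa [Equiv.swap_apply_self, a1] at this
    · rintro rfl; exact a1
  have b2 : ∀ y, Equiv.swap (n + 2) (n + 2 + 2) y = i + 1 ↔ y = i + 1 := by
    intro y
    constructor
    · intro e
      have := congrArg (Equiv.swap (n + 2) (n + 2 + 2)) e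
      rwa [Equiv.swap_apply_self, a2] at this
    · rintro rfl; exact a2
  have c1 : ∀ x, (dnO (n + 2) u).1 (sh i x) =
      Equiv.swap (n + 2) (n + 2 + 2) (u.1 (sh i (Equiv.swap n (n + 2) x))) := by
    intro x
    rw [← swap_sh hi]
    rfl
  have c2 : ∀ x, (dnO (n + 2) u).2 (sh i x) = u.2 (sh i (Equiv.swap n (n + 2) x)) := by
    intro x
    rw [← swap_sh hi]
    rfl
  have c3 : (dnO (n + 2) u).1 i = Equiv.swap (n + 2) (n + 2 + 2) (u.1 i) := by
    show Equiv.swap (n + 2) (n + 2 + 2) (u.1 (Equiv.swap (n + 2) (n + 2 + 2) i)) = _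
    rw [a1]
  have c4 : (dnO (n + 2) u).1 (i + 1) = Equiv.swap (n + 2) (n + 2 + 2) (u.1 (i + 1)) := by
    show Equiv.swap (n + 2) (n + 2 + 2) (u.1 (Equiv.swap (n + 2) (n + 2 + 2) (i + 1))) = _
    rw [a2]
  have c5 : (dnO (n + 2) u).2 i = u.2 i := by
    show u.2 (Equiv.swap (n + 2) (n + 2 + 2) i) = _
    rw [a1]
  have c6 : (dnO (n + 2) u).2 (i + 1) = u.2 (i + 1) := by
    show u.2 (Equiv.swap (n + 2) (n + 2 + 2) (i + 1)) = _
    rw [a2]
  have c7 : ∀ x, sh i ((dnO n u₀).1 x) =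
      Equiv.swap (n + 2) (n + 2 + 2) (sh i (u₀.1 (Equiv.swap n (n + 2) x))) := by
    intro x
    rw [swap_sh hi]
    rfl
  have c8 : ∀ x, (dnO n u₀).2 x = u₀.2 (Equiv.swap n (n + 2) x) := fun x => rfl
  have c9 : ∀ x, u₀.1 (Equiv.swap n (n + 2) x) = Equiv.swap n (n + 2) x →
      (dnO n u₀).1 x = x := by
    intro x e
    show Equiv.swap n (n + 2) (u₀.1 (Equiv.swap n (n + 2) x)) = x
    rw [e, Equiv.swap_apply_self]
  constructor
  · intro x h1 h2
    rw [c1, Ne, b1] at h1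
    rw [c1, Ne, b2] at h2
    obtain ⟨h3, h4⟩ := h.u1 _ h1 h2
    exact ⟨by rw [c7, c1, h3], by rw [c8, c2, h4]⟩
  · intro x h1 h2
    rw [c1, b1] at h1
    rw [c4, Ne, b2] at h2
    obtain ⟨h3, h4⟩ := h.u2 _ h1 h2
    exact ⟨by rw [c7, c4, h3], by rw [c8, c5, c6, h4]⟩
  · intro x h1 h2
    rw [c1, b1] at h1
    rw [c4, b2] at h2
    obtain ⟨h3, h4⟩ := h.u3 _ h1 h2
    exact ⟨c9 x h3, by rw [c8, h4]⟩
  · intro x h1 h2
    rw [c1, b2] at h1
    rw [c3, Ne, b1] at h2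
    obtain ⟨h3, h4⟩ := h.u4 _ h1 h2
    exact ⟨by rw [c7, c3, h3], by rw [c8, c5, c6, h4]⟩
  · intro x h1 h2
    rw [c1, b2] at h1
    rw [c3, b1] at h2
    obtain ⟨h3, h4⟩ := h.u5 _ h1 h2
    exact ⟨c9 x h3, by rw [c8, h4]⟩

theorem tri_comm (n : ℕ) (u d : St) : Tri n u d ↔ Tri n d u := by
  unfold Tri
  constructor <;> rintro ⟨a, b, h1, h2, h3, h4, h5, h6⟩ <;>
    exact ⟨a, b, h1, h2, h3, h4, h5, (PR.comm _ _ _ _).1 h6⟩

theorem tri_iff {u d u₀ d₀ : St} (hu : LInv u) (hd : LInv d) (hu₀ : LInv u₀) (hd₀ : LInv d₀)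
    (hi : i ≤ n) (hC : Cap i u u₀) (hI : Ins i d d₀) : Tri (n + 2) u d ↔ Tri n u₀ d₀ := by
  have key : ∀ {x y : ℕ} {ε δ : Bool},
      PR u d (sh i x, ε) (sh i y, δ) ↔ PR u₀ d₀ (x, ε) (y, δ) := fun {x y ε δ} =>
    PR.contract hu hd i hI.d1 hI.d2 hI.d3 hC.u1 hC.u2 hC.u3 hC.u4 hC.u5
  have e : ∀ x, n ≤ x → sh i x = x + 2 := by
    intro x hx
    unfold sh
    rw [if_neg (by omega)]
  constructor
  · rintro ⟨a, b, h1, h2, h3, h4, h5, h6⟩
    refine ⟨a - 2, b - 2, by omega, by omega, by omega, by omega, by omega, ?_⟩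
    rw [← key, e _ (by omega), e _ (by omega), Nat.sub_add_cancel (by omega),
      Nat.sub_add_cancel (by omega)]
    exact h6
  · rintro ⟨a, b, h1, h2, h3, h4, h5, h6⟩
    refine ⟨a + 2, b + 2, by omega, by omega, by omega, by omega, by omega, ?_⟩
    rw [← key, e _ h1, e _ h3] at h6
    exact h6

end TriA

open TriA

theorem B3_insL (hs : IsAnn n s) (hp : NCO (n + 5) p) (hi : i ≤ n) :
    B3 (n + 2) (insL i s) p = B3 n s (capO i p) := by
  have hc : NCO (n + 3) (capO i p) := hp.capO (by omega)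
  have key := tri_iff (LInv.upO hp) (LInv.ann (hs.insL hi)) (LInv.upO hc) (LInv.ann hs) hi
    (Cap.up (N := n + 3) hp (by omega)) (Ins.low i s)
  unfold B3
  classical exact if_congr key rfl rfl

theorem B3_insArc (hs : IsAnn (n + 2) s) (hp : NCO (n + 3) p) (hi : i ≤ n) :
    B3 (n + 2) s (insArc i p) = B3 n (capL i s) p := by
  have hp' : NCO (n + 3 + 2) (insArc i p) := hp.insArc (by omega)
  have key := tri_iff (LInv.ann hs) (LInv.upO hp') (LInv.ann (hs.capL hi)) (LInv.upO hp) hi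
    (Cap.low hs hi) (Ins.up hp (by omega))
  unfold B3
  rw [tri_comm (n + 2), tri_comm n] at key
  classical exact if_congr key rfl rfl

theorem B2_insL (hs : IsAnn (n + 1) s) (hp : NCO (n + 4) p) (hi : i ≤ n) :
    B2 (n + 2) (insL i s) p = B2 n s (capO i p) := by
  have hc : NCO (n + 2) (capO i p) := hp.capO (by omega)
  have key := tri_iff (LInv.upO hp) ((LInv.ann (hs.insL (by omega))).dnO (n + 2)) (LInv.upO hc)
    ((LInv.ann hs).dnO n) hi (Cap.up (N := n + 2) hp (by omega)) ((Ins.low i s).dn hi)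
  unfold B2
  classical exact if_congr key rfl rfl

theorem B2_insArc (hs : IsAnn (n + 3) s) (hp : NCO (n + 2) p) (hi : i ≤ n) :
    B2 (n + 2) s (insArc i p) = B2 n (capL i s) p := by
  have hp' : NCO (n + 2 + 2) (insArc i p) := hp.insArc (by omega)
  have hs' : IsAnn (n + 1) (capL i s) := IsAnn.capL (N := n + 1) hs (by omega)
  have key := tri_iff ((LInv.ann hs).dnO (n + 2)) (LInv.upO hp') ((LInv.ann hs').dnO n)
    (LInv.upO hp) hi ((Cap.low (N := n + 1) hs (by omega)).dn hi) (Ins.up hp (by omega))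
  unfold B2
  rw [tri_comm (n + 2), tri_comm n] at key
  classical exact if_congr key rfl rfl

/-- The generators at the common sites are adjoint to each other. -/
theorem B3_eL (hs : IsAnn n s) (hp : NCO (n + 3) p) (hi : i + 1 < n) :
    B3 n (eL i s) p = B3 n s (eO i p) := by
  obtain ⟨m, rfl⟩ : ∃ m, n = m + 2 := ⟨n - 2, by omega⟩
  have hp2 : NCO (m + 3 + 2) p := hp
  have hc : NCO (m + 3) (capO i p) := hp2.capO (by omega)
  rw [← insL_capL hs (by omega), B3_insL (hs.capL (by omega)) hp (by omega),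
    ← insArc_capO hp2 (by omega), B3_insArc hs hc (by omega)]

theorem B2_eL (hs : IsAnn (n + 1) s) (hp : NCO (n + 2) p) (hi : i + 1 < n) :
    B2 n (eL i s) p = B2 n s (eO i p) := by
  obtain ⟨m, rfl⟩ : ∃ m, n = m + 2 := ⟨n - 2, by omega⟩
  have hs2 : IsAnn (m + 1 + 2) s := hs
  have hp2 : NCO (m + 2 + 2) p := hp
  have hc : NCO (m + 2) (capO i p) := hp2.capO (by omega)
  rw [← insL_capL hs2 (by omega), B2_insL (hs2.capL (by omega)) hp (by omega),
    ← insArc_capO hp2 (by omega), B2_insArc hs hc (by omega)]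

end Pool.Agent.Perc

end Partperc3TriA

section Partperc3Z2side

/-!
# The square grid and the cover: strands which avoid a corridor
-/

set_option autoImplicit false

namespace Pool.Agent.Perc3

open Finset Pool.Agent.Perc

/-- `N` on the faces of `X` and `ν` on the unit edges are compatible with the cover. -/
def IsInd (X : Set (ℤ × ℤ)) (N : ℤ × ℤ → ℤ) (ν : UE → ℤ) : Prop :=
  ∀ f ∈ X, ∀ a, IsSide f a → lft (f, N f) a = (a, ν a)

theorem IsInd.sub_const {X : Set (ℤ × ℤ)} {N : ℤ × ℤ → ℤ} {ν : UE → ℤ} (h : IsInd X N ν) (m : ℤ) :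
    IsInd X (fun f => N f - m) (fun a => ν a - m) := by
  intro f hf a ha
  have h1 := h f hf a ha
  unfold lft at h1 ⊢
  simp only [Prod.mk.injEq, true_and] at h1 ⊢
  split_ifs at h1 ⊢ <;> omega

theorem IsInd.mono {X X' : Set (ℤ × ℤ)} {N : ℤ × ℤ → ℤ} {ν : UE → ℤ} (h : IsInd X N ν)
    (hX : X' ⊆ X) : IsInd X' N ν := fun f hf => h f (hX hf)

/-- The configuration on the cover of the configuration `ω` on the grid with Burgers vector `c`. -/
def lcf (c : ℤ) (ω : Cfg) : LF → Bool := fun s => ω (pj c s)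

theorem lcf_zero (ω : Cfg) (s : LF) : lcf 0 ω s = ω s.1 := by
  unfold lcf pj
  rw [zero_mul, add_zero]

theorem Mt_const {ω : Cfg} {ζ : LF → Bool} {s : LF} (h : ζ s = ω s.1) {a a' : UE} :
    Mt (fun _ => ζ s) s.1 a a' ↔ Mt ω s.1 a a' := by
  unfold Mt
  rw [h]

section lift

variable {ω : Cfg} {F : Set (ℤ × ℤ)} {Ft : Set LF} {b : UE} {N : ℤ × ℤ → ℤ} {ν : UE → ℤ}

theorem lft_eq_imp {f : ℤ × ℤ} {n m : ℤ} {a : UE} (h : lft (f, n) a = lft (f, m) a) : n = m := by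
  unfold lft at h
  simp only [Prod.mk.injEq, true_and] at h
  split_ifs at h <;> omega

/-- Lifting of a component. -/
theorem ML_of_MM (hI : IsInd (SS ω F b) N ν) (hF : ∀ f ∈ SS ω F b, (f, N f) ∈ Ft) {a : UE}
    (ha : a ∈ MM ω F b) : (a, ν a) ∈ ML (lcf 0 ω) Ft {(b, ν b)} := by
  induction ha with
  | refl => exact mem_ML_of_mem rfl
  | @tail x y hx hs ih =>
    obtain ⟨f, hf, hm⟩ := hs
    have hS : f ∈ SS ω F b := ⟨hf, x, hx, hm.left⟩
    refine ML_step (s := (f, N f)) (hF f hS) ?_ ih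
    refine ⟨x, y, ?_, (hI f hS x hm.left).symm, (hI f hS y hm.right).symm⟩
    rw [Mt_const (lcf_zero ω _)]
    exact hm

/-- Projection of a lifted component. -/
theorem MM_of_ML (hI : IsInd (SS ω F b) N ν) (hF : ∀ s ∈ Ft, s.1 ∈ F) {c : LE}
    (hc : c ∈ ML (lcf 0 ω) Ft {(b, ν b)}) : c.1 ∈ MM ω F b ∧ c.2 = ν c.1 := by
  refine ML_induction (P := fun c => c.1 ∈ MM ω F b ∧ c.2 = ν c.1) ?_ ?_ c hc
  · rintro c rfl
    exact ⟨mem_MM_self, rfl⟩
  · rintro c c' ⟨f, n⟩ hs ⟨a, a', hm, rfl, rfl⟩ _ ⟨h1, h2⟩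
    rw [Mt_const (lcf_zero ω _)] at hm
    have hf : f ∈ F := hF _ hs
    have hS : f ∈ SS ω F b := ⟨hf, a, h1, hm.left⟩
    have h3 : lft (f, n) a = lft (f, N f) a := by
      rw [hI f hS a hm.left]
      exact Prod.ext rfl h2
    have h4 := lft_eq_imp h3
    subst h4
    have h5 := hI f hS a' hm.right
    refine ⟨MM_step hf hm h1, ?_⟩
    rw [h5]

/-- The visited lifted faces. -/
theorem SL_iff (hI : IsInd (SS ω F b) N ν) (hF : ∀ s ∈ Ft, s.1 ∈ F)
    (hF' : ∀ f ∈ SS ω F b, (f, N f) ∈ Ft) {s : LF} :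
    s ∈ SL (lcf 0 ω) Ft {(b, ν b)} ↔ s.1 ∈ SS ω F b ∧ s.2 = N s.1 := by
  obtain ⟨f, n⟩ := s
  constructor
  · rintro ⟨hs, a, ha, hm⟩
    obtain ⟨h1, h2⟩ := MM_of_ML hI hF hm
    have hS : f ∈ SS ω F b := ⟨hF _ hs, a, h1, ha⟩
    refine ⟨hS, ?_⟩
    have h3 : lft (f, n) a = lft (f, N f) a := by
      rw [hI f hS a ha]
      exact Prod.ext rfl h2
    exact lft_eq_imp h3
  · rintro ⟨hS, hn⟩
    simp only at hS hn
    subst hn
    obtain ⟨hf, a, ha, hsd⟩ := hS
    refine ⟨hF' f ⟨hf, a, ha, hsd⟩, a, hsd, ?_⟩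
    rw [hI f ⟨hf, a, ha, hsd⟩ a hsd]
    exact ML_of_MM hI hF' ha

end lift

theorem ML_union {ζ : LF → Bool} {Ft : Set LF} {E E' : Set LE} :
    ML ζ Ft (E ∪ E') = ML ζ Ft E ∪ ML ζ Ft E' := by
  ext c
  constructor
  · rintro ⟨e, he | he, hr⟩
    · exact Or.inl ⟨e, he, hr⟩
    · exact Or.inr ⟨e, he, hr⟩
  · rintro (⟨e, he, hr⟩ | ⟨e, he, hr⟩)
    · exact ⟨e, Or.inl he, hr⟩
    · exact ⟨e, Or.inr he, hr⟩

theorem SL_union {ζ : LF → Bool} {Ft : Set LF} {E E' : Set LE} :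
    SL ζ Ft (E ∪ E') = SL ζ Ft E ∪ SL ζ Ft E' := by
  ext s
  unfold SL
  rw [ML_union]
  constructor
  · rintro ⟨hs, a, ha, h | h⟩
    · exact Or.inl ⟨hs, a, ha, h⟩
    · exact Or.inr ⟨hs, a, ha, h⟩
  · rintro (⟨hs, a, ha, h⟩ | ⟨hs, a, ha, h⟩)
    · exact ⟨hs, a, ha, Or.inl h⟩
    · exact ⟨hs, a, ha, Or.inr h⟩

/-- A set of lifted faces over `X` with indices given by a bounded function `N` which is equal on
faces of the same half plane at distance less than `D` is thick. -/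
theorem thick_of_sep {S : Set LF} {X : Set (ℤ × ℤ)} {N : ℤ × ℤ → ℤ} {k n₀ D : ℤ} (hk : 0 ≤ k)
    (hS : ∀ s ∈ S, s.1 ∈ X ∧ s.2 = N s.1) (hN : ∀ f ∈ X, |N f| ≤ n₀) (hD : k * (2 * n₀) ≤ D)
    (hsep : ∀ f ∈ X, ∀ f' ∈ X, (0 ≤ f.2 ↔ 0 ≤ f'.2) → |f.1 - f'.1| < D → |f.2 - f'.2| < D →
      N f = N f') : Thick k S := by
  intro s hs s' hs' hh
  obtain ⟨h1, h2⟩ := hS s hs
  obtain ⟨h1', h2'⟩ := hS s' hs'
  by_cases hd : |s.1.1 - s'.1.1| < D ∧ |s.1.2 - s'.1.2| < D
  · rw [h2, h2', hsep _ h1 _ h1' hh hd.1 hd.2, sub_self, abs_zero, mul_zero]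
    exact le_max_of_le_left (abs_nonneg _)
  · have h3 : D ≤ max |s.1.1 - s'.1.1| |s.1.2 - s'.1.2| := by
      rw [le_max_iff]
      by_contra hc
      rw [not_or, not_le, not_le] at hc
      exact hd hc
    refine le_trans (le_trans ?_ hD) h3
    refine mul_le_mul_of_nonneg_left ?_ hk
    rw [h2, h2']
    have h4 := hN _ h1
    have h5 := hN _ h1'
    rw [abs_le] at h4 h5 ⊢
    constructor <;> linarith

/-! ### The annulus -/

/-- The faces of the rectangle `[-L, L] × [-w, w]` outside the box of radius `d`. -/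
noncomputable def AnF (L w d : ℤ) : Finset (ℤ × ℤ) := RF (-L) L (-w) w \ RF (-d) d (-d) d

theorem mem_AnF {L w d : ℤ} {f : ℤ × ℤ} : f ∈ AnF L w d ↔
    (-L ≤ f.1 ∧ f.1 < L ∧ -w ≤ f.2 ∧ f.2 < w) ∧
      ¬ (-d ≤ f.1 ∧ f.1 < d ∧ -d ≤ f.2 ∧ f.2 < d) := by
  unfold AnF
  rw [mem_sdiff, mem_RF, mem_RF]

variable {L w d : ℤ} {u : ℤ × ℤ} {l : List (ℤ × ℤ)}

/-- A side of a face of the annulus is not on the path in the inner box. -/
theorem side_inn (hd : 1 < d) (hc : Corr L w d u l) {f : ℤ × ℤ} (hf : f ∈ AnF L w d) {a : UE}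
    (ha : IsSide f a) : ¬ OnPath (-1, 0) [(u.1, 0), u] a := by
  intro h
  have h1 := inn_out hd hc.inn h
  rw [mem_AnF] at hf
  obtain ⟨i, j⟩ := f
  rcases ha with rfl | rfl | rfl | rfl
  · simp only [bo] at h1 hf
    simp at h1
    omega
  · simp only [le'] at h1 hf
    simp at h1
    omega
  · simp only [to'] at h1 hf
    simp at h1
    omega
  · simp only [ri] at h1 hf
    simp at h1
    omega

/-- A side of a face of the rectangle is not on the path outside. -/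
theorem side_outp (hL : 0 ≤ L) (hw : 0 ≤ w) (hc : Corr L w d u l) {f : ℤ × ℤ}
    (hf : f ∈ AnF L w d) {a : UE} (ha : IsSide f a) :
    ¬ OnPath (lst u l) (outp L w (lst u l)) a := by
  intro h
  rw [mem_AnF] at hf
  obtain ⟨i, j⟩ := f
  rcases ha with rfl | rfl | rfl | rfl
  · have h1 := outp_out hL hw hc.out h (by simp only [bo]; omega) (by simp only [bo]; omega)
      (by simp only [bo]; omega) (by simp only [bo]; omega)
    simp only [bo] at h1 hf
    omega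
  · have h1 := outp_out hL hw hc.out h (by simp only [le']; omega) (by simp only [le']; omega)
      (by simp only [le']; omega) (by simp only [le']; omega)
    simp only [le'] at h1 hf
    omega
  · have h1 := outp_out hL hw hc.out h (by simp only [to']; omega) (by simp only [to']; omega)
      (by simp only [to']; omega) (by simp only [to']; omega)
    simp only [to'] at h1 hf
    omega
  · have h1 := outp_out hL hw hc.out h (by simp only [ri]; omega) (by simp only [ri]; omega)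
      (by simp only [ri]; omega) (by simp only [ri]; omega)
    simp only [ri] at h1 hf
    omega

/-- The index with respect to a corridor is compatible with the cover. -/
theorem isInd_ind (hd : 1 < d) (hL : 0 ≤ L) (hw : 0 ≤ w) (hc : Corr L w d u l)
    {X : Set (ℤ × ℤ)} (hX : X ⊆ AnF L w d)
    (hfar : ∀ f ∈ X, ∀ a, IsSide f a → ¬ OnPath u l a) :
    IsInd X (ind L w u l) (indE L w u l) := by
  intro f hf a ha
  have hfA : f ∈ AnF L w d := hX hf
  have h1 := side_inn hd hc hfA ha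
  have h2 := hfar f hf a ha
  have h3 := side_outp hL hw hc hfA ha
  rw [mem_AnF] at hfA
  obtain ⟨i, j⟩ := f
  simp only at hfA
  unfold lft indE
  rcases ha with rfl | rfl | rfl | rfl
  · simp only [bo, IsCut]
    rw [if_neg (by omega)]
  · simp only [le', IsCut, Bool.true_eq_false, false_and, if_false]
  · simp only [to'] at h1 h2 h3 ⊢
    have h4 := ind_hor hc hL h1 h2 h3
    rw [add_sub_cancel_right] at h4
    simp only [IsCut, Prod.mk.injEq, true_and]
    split_ifs at h4 ⊢ <;> omega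
  · simp only [ri] at h1 h2 h3 ⊢
    have h4 := ind_ver hc h1 h2 h3
    rw [add_sub_cancel_right] at h4
    simp only [IsCut, Bool.true_eq_false, false_and, if_false, Prod.mk.injEq, true_and]
    exact h4

end Pool.Agent.Perc3

end Partperc3Z2side

section Partperc3PairsZ

/-!
# Pairs of strands with a corridor: from the square grid to the grid with a dislocation
-/

set_option autoImplicit false

namespace Pool.Agent.Perc3

open Finset Pool.Agent.Perc

variable {L w d D : ℤ} {u : ℤ × ℤ} {l : List (ℤ × ℤ)}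

/-- The path is at distance more than `D` from the face `f`. -/
def FarP (D : ℤ) (u : ℤ × ℤ) (l : List (ℤ × ℤ)) (f : ℤ × ℤ) : Prop :=
  ∀ a, OnPath u l a → D < max |a.1 - f.1| |a.2.1 - f.2|

theorem FarP.side {f : ℤ × ℤ} (h : FarP D u l f) (hD : 1 ≤ D) {a : UE} (ha : IsSide f a) :
    ¬ OnPath u l a := by
  intro hp
  have h1 := h a hp
  rw [lt_max_iff, lt_abs, lt_abs] at h1
  rcases ha with rfl | rfl | rfl | rfl
  · simp only [bo] at h1; omega
  · simp only [le'] at h1; omega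
  · simp only [to'] at h1; omega
  · simp only [ri] at h1; omega

theorem ind_right (hd : 1 < d) (hL : 0 ≤ L) (hw : 0 ≤ w) (hc : Corr L w d u l) {i j : ℤ}
    (hf : (i, j) ∈ AnF L w d) (ha : ¬ OnPath u l (i + 1, j, true)) :
    ind L w u l (i, j) = ind L w u l (i + 1, j) := by
  have h1 := side_inn hd hc hf (a := ri (i, j)) (Or.inr (Or.inr (Or.inr rfl)))
  have h3 := side_outp hL hw hc hf (a := ri (i, j)) (Or.inr (Or.inr (Or.inr rfl)))
  have h4 := ind_ver hc h1 ha h3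
  rwa [add_sub_cancel_right] at h4

theorem ind_up (hd : 1 < d) (hL : 0 ≤ L) (hw : 0 ≤ w) (hc : Corr L w d u l) {i j : ℤ}
    (hf : (i, j) ∈ AnF L w d) (hj : j ≠ -1) (ha : ¬ OnPath u l (i, j + 1, false)) :
    ind L w u l (i, j) = ind L w u l (i, j + 1) := by
  have h1 := side_inn hd hc hf (a := to' (i, j)) (Or.inr (Or.inr (Or.inl rfl)))
  have h3 := side_outp hL hw hc hf (a := to' (i, j)) (Or.inr (Or.inr (Or.inl rfl)))
  have h4 := ind_hor hc hL h1 ha h3
  rw [add_sub_cancel_right, if_neg (by omega), add_zero] at h4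
  exact h4

theorem ind_hmove (hd : 1 < d) (hL : 0 ≤ L) (hw : 0 ≤ w) (hc : Corr L w d u l) {y x₁ x₂ : ℤ}
    (hx : x₁ ≤ x₂) (hf : ∀ i, x₁ ≤ i → i ≤ x₂ → (i, y) ∈ AnF L w d)
    (ha : ∀ i, x₁ < i → i ≤ x₂ → ¬ OnPath u l (i, y, true)) :
    ind L w u l (x₁, y) = ind L w u l (x₂, y) := by
  induction x₂, hx using Int.leInduction with
  | base => rfl
  | succ x hx ih =>
    rw [ih (fun i h1 h2 => hf i h1 (by omega)) (fun i h1 h2 => ha i h1 (by omega))]
    exact ind_right hd hL hw hc (hf x hx (by omega)) (ha _ (by omega) le_rfl)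

theorem ind_vmove (hd : 1 < d) (hL : 0 ≤ L) (hw : 0 ≤ w) (hc : Corr L w d u l) {x y₁ y₂ : ℤ}
    (hy : y₁ ≤ y₂) (hh : 0 ≤ y₁ ∨ y₂ < 0) (hf : ∀ j, y₁ ≤ j → j ≤ y₂ → (x, j) ∈ AnF L w d)
    (ha : ∀ j, y₁ < j → j ≤ y₂ → ¬ OnPath u l (x, j, false)) :
    ind L w u l (x, y₁) = ind L w u l (x, y₂) := by
  induction y₂, hy using Int.leInduction with
  | base => rfl
  | succ y hy ih =>
    rw [ih (by omega) (fun i h1 h2 => hf i h1 (by omega)) (fun i h1 h2 => ha i h1 (by omega))]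
    exact ind_up hd hL hw hc (hf y hy (by omega)) (by omega) (ha _ (by omega) le_rfl)

theorem ind_hmove' (hd : 1 < d) (hL : 0 ≤ L) (hw : 0 ≤ w) (hc : Corr L w d u l) {y x₁ x₂ : ℤ}
    (hf : ∀ i, min x₁ x₂ ≤ i → i ≤ max x₁ x₂ → (i, y) ∈ AnF L w d)
    (ha : ∀ i, min x₁ x₂ ≤ i → i ≤ max x₁ x₂ → ¬ OnPath u l (i, y, true)) :
    ind L w u l (x₁, y) = ind L w u l (x₂, y) := by
  rcases le_total x₁ x₂ with h | h
  · rw [min_eq_left h, max_eq_right h] at hf ha
    exact ind_hmove hd hL hw hc h hf fun i h1 h2 => ha i h1.le h2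
  · rw [min_eq_right h, max_eq_left h] at hf ha
    exact (ind_hmove hd hL hw hc h hf fun i h1 h2 => ha i h1.le h2).symm

theorem ind_vmove' (hd : 1 < d) (hL : 0 ≤ L) (hw : 0 ≤ w) (hc : Corr L w d u l) {x y₁ y₂ : ℤ}
    (hh : 0 ≤ y₁ ↔ 0 ≤ y₂) (hf : ∀ j, min y₁ y₂ ≤ j → j ≤ max y₁ y₂ → (x, j) ∈ AnF L w d)
    (ha : ∀ j, min y₁ y₂ ≤ j → j ≤ max y₁ y₂ → ¬ OnPath u l (x, j, false)) :
    ind L w u l (x, y₁) = ind L w u l (x, y₂) := by
  rcases le_total y₁ y₂ with h | h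
  · rw [min_eq_left h, max_eq_right h] at hf ha
    exact ind_vmove hd hL hw hc h (by omega) hf fun i h1 h2 => ha i h1.le h2
  · rw [min_eq_right h, max_eq_left h] at hf ha
    exact (ind_vmove hd hL hw hc h (by omega) hf fun i h1 h2 => ha i h1.le h2).symm

/-- Faces of the same half plane which are close to each other and far from the corridor have the
same index. -/
theorem ind_eq_of_near (hd : 1 < d) (hL : 0 ≤ L) (hw : 0 ≤ w) (hc : Corr L w d u l)
    (hD : D ≤ 2 * d) {f f' : ℤ × ℤ} (hf : f ∈ AnF L w d) (hf' : f' ∈ AnF L w d)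
    (hh : 0 ≤ f.2 ↔ 0 ≤ f'.2) (h1 : |f.1 - f'.1| < D) (h2 : |f.2 - f'.2| < D)
    (hfar : FarP D u l f) : ind L w u l f = ind L w u l f' := by
  obtain ⟨x₁, y₁⟩ := f
  obtain ⟨x₂, y₂⟩ := f'
  rw [mem_AnF] at hf hf'
  simp only at hf hf' hh h1 h2
  rw [abs_lt] at h1 h2
  have hno : ∀ i j : ℤ, ∀ b : Bool, min x₁ x₂ ≤ i → i ≤ max x₁ x₂ → min y₁ y₂ ≤ j →
      j ≤ max y₁ y₂ → ¬ OnPath u l (i, j, b) := by
    intro i j b h3 h4 h5 h6 hp
    have h7 := hfar _ hp
    simp only at h7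
    rw [lt_max_iff, lt_abs, lt_abs] at h7
    omega
  have key : ((x₁ < -d ∨ d ≤ x₁ ∨ (d ≤ y₁ ∧ d ≤ y₂) ∨ (y₁ < -d ∧ y₂ < -d)) ∧
      (y₂ < -d ∨ d ≤ y₂ ∨ (x₁ < -d ∧ x₂ < -d) ∨ (d ≤ x₁ ∧ d ≤ x₂))) ∨
    ((x₂ < -d ∨ d ≤ x₂ ∨ (d ≤ y₁ ∧ d ≤ y₂) ∨ (y₁ < -d ∧ y₂ < -d)) ∧
      (y₁ < -d ∨ d ≤ y₁ ∨ (x₁ < -d ∧ x₂ < -d) ∨ (d ≤ x₁ ∧ d ≤ x₂))) := by omega
  rcases key with ⟨k1, k2⟩ | ⟨k1, k2⟩
  · rw [ind_vmove' hd hL hw hc hh (x := x₁) ?_ ?_, ind_hmove' hd hL hw hc (x₁ := x₁) (x₂ := x₂) ?_ ?_]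
    · intro i h3 h4
      rw [mem_AnF]
      simp only
      omega
    · intro i h3 h4
      exact hno _ _ _ h3 h4 (by omega) (by omega)
    · intro i h3 h4
      rw [mem_AnF]
      simp only
      omega
    · intro i h3 h4
      exact hno _ _ _ (by omega) (by omega) h3 h4
  · rw [ind_hmove' hd hL hw hc (x₁ := x₁) (x₂ := x₂) ?_ ?_, ind_vmove' hd hL hw hc hh (x := x₂) ?_ ?_]
    · intro i h3 h4
      rw [mem_AnF]
      simp only
      omega
    · intro i h3 h4
      exact hno _ _ _ (by omega) (by omega) h3 h4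
    · intro i h3 h4
      rw [mem_AnF]
      simp only
      omega
    · intro i h3 h4
      exact hno _ _ _ h3 h4 (by omega) (by omega)

/-! ### The event on the cover -/

/-- The unit edges on the upper and on the lower side of the rectangle. -/
noncomputable def TBF (L w : ℤ) : Finset UE :=
  (Ico (-L) L) ×ˢ (({-w, w} : Finset ℤ) ×ˢ ({false} : Finset Bool))

theorem mem_TBF {a : UE} : a ∈ TBF L w ↔
    -L ≤ a.1 ∧ a.1 < L ∧ (a.2.1 = -w ∨ a.2.1 = w) ∧ a.2.2 = false := by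
  unfold TBF
  simp only [mem_product, mem_Ico, mem_insert, mem_singleton]
  tauto

/-- The lifted faces of the annulus with index at most `n`. -/
noncomputable def LAF (L w d n : ℤ) : Finset LF := AnF L w d ×ˢ Icc (-n) n

theorem mem_LAF {n : ℤ} {s : LF} : s ∈ LAF L w d n ↔ s.1 ∈ AnF L w d ∧ |s.2| ≤ n := by
  unfold LAF
  rw [mem_product, mem_Icc, abs_le]

/-- The lifted component of `e` reaches the inner box. -/
def RinL (ζ : LF → Bool) (L w d n : ℤ) (e : LE) : Prop :=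
  ∃ c ∈ ML ζ (LAF L w d n) {e}, BdE (-d) d (-d) d c.1

/-- The lifted components of `(b, 0)` and `(b', ε)` reach the inner box and are thick. -/
def PairL (L w d n k : ℤ) (b b' : UE) (ε : ℤ) : Set (LF → Bool) :=
  {ζ | Thick k (SL ζ (LAF L w d n) ({(b, 0)} ∪ {(b', ε)})) ∧ RinL ζ L w d n (b, 0) ∧
    RinL ζ L w d n (b', ε)}

theorem detBy_PairL (L w d n k : ℤ) (b b' : UE) (ε : ℤ) :
    DetBy (fun ζ => SL ζ (LAF L w d n) ({(b, 0)} ∪ {(b', ε)})) (PairL L w d n k b b' ε) := by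
  intro ζ ζ' h
  have h0 : SL ζ' (LAF L w d n) ({(b, 0)} ∪ {(b', ε)}) =
      SL ζ (LAF L w d n) ({(b, 0)} ∪ {(b', ε)}) := stopping_SL _ _ ζ ζ' h
  have h1 : ML ζ' (LAF L w d n) {(b, 0)} = ML ζ (LAF L w d n) {(b, 0)} :=
    ML_eq fun s hs => h s (by simp only [SL_union]; exact Or.inl hs)
  have h2 : ML ζ' (LAF L w d n) {(b', ε)} = ML ζ (LAF L w d n) {(b', ε)} :=
    ML_eq fun s hs => h s (by simp only [SL_union]; exact Or.inr hs)
  unfold PairL RinL
  simp only [Set.mem_ofPred_eq]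
  rw [h0, h1, h2]

/-- The component of `b` in the annulus reaches the inner box. -/
def Rin (ω : Cfg) (L w d : ℤ) (b : UE) : Prop :=
  ∃ a ∈ MM ω (AnF L w d) b, BdE (-d) d (-d) d a

/-- Two components which start at the upper or lower side reach the inner box, and a corridor with
at most `m` corners from the inner box to the outside is at distance more than `D` from them. -/
def CorrEv (L w d D : ℤ) (m : ℕ) (b b' : UE) : Set Cfg :=
  {ω | Rin ω L w d b ∧ Rin ω L w d b' ∧ ∃ (u : ℤ × ℤ) (l : List (ℤ × ℤ)), Corr L w d u l ∧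
    l.length ≤ m ∧ ∀ f ∈ SS ω (AnF L w d) b ∪ SS ω (AnF L w d) b', FarP D u l f}

/-- The index of a starting unit edge. -/
theorem indE_start (hd : 1 < d) (hdw : d ≤ w) (hL : 0 ≤ L) (hc : Corr L w d u l) {b : UE}
    (hb : b ∈ TBF L w) (hp : ¬ OnPath u l b) :
    indE L w u l b = 0 ∨ (indE L w u l b = -1 ∧ (lst u l).2 ≠ -(w + 1)) ∨
      (indE L w u l b = 1 ∧ (lst u l).2 = -(w + 1)) := by
  obtain ⟨x, y, c⟩ := b
  rw [mem_TBF] at hb
  obtain ⟨h1, h2, h3, h4⟩ := hb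
  simp only at h1 h2 h3 h4
  subst h4
  unfold indE
  simp only
  rcases h3 with rfl | rfl
  · have h5 : ¬ OnPath (-1, 0) [(u.1, 0), u] (x, -w, false) := by
      intro h
      have := inn_out hd hc.inn h
      simp only at this
      omega
    have h6 : ¬ OnPath (lst u l) (outp L w (lst u l)) (x, -w, false) := by
      intro h
      have := outp_out hL (by omega) hc.out h (by simp only; omega) (by simp only; omega)
        (by simp only; omega) (by simp only; omega)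
      simp only at this
      omega
    have h7 := ind_hor hc hL h5 hp h6
    rw [if_neg (by omega), add_zero] at h7
    rw [← h7]
    rcases ind_bot hc hd hdw hL (x := x) (by omega) with h | h
    · exact Or.inl h
    · exact Or.inr (Or.inr h)
  · rcases ind_top hc hd hdw (x := x) (by omega) with h | h
    · exact Or.inl h
    · exact Or.inr (Or.inl h)

/-- A starting unit edge is a side of a face of the annulus. -/
theorem start_side (hd : 0 ≤ d) (hdw : d < w) {b : UE} (hb : b ∈ TBF L w) :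
    ∃ f ∈ AnF L w d, IsSide f b := by
  obtain ⟨x, y, c⟩ := b
  rw [mem_TBF] at hb
  obtain ⟨h1, h2, h3, h4⟩ := hb
  simp only at h1 h2 h3 h4
  subst h4
  rcases h3 with h3 | h3
  · rw [h3]
    refine ⟨(x, -w), ?_, Or.inl rfl⟩
    rw [mem_AnF]
    simp only
    omega
  · rw [h3]
    refine ⟨(x, w - 1), ?_, Or.inr (Or.inr (Or.inl ?_))⟩
    · rw [mem_AnF]
      simp only
      omega
    · simp only [to', sub_add_cancel]

/-- The lifts of two components which avoid a corridor. -/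
theorem pairL_of_corr {ω : Cfg} {n k : ℤ} {m : ℕ} {b b' : UE} (hd : 1 < d) (hdw : d < w)
    (hL : 0 ≤ L) (hb : b ∈ TBF L w) (hb' : b' ∈ TBF L w) (hD1 : 1 ≤ D) (hD2 : D ≤ 2 * d)
    (hk : 0 ≤ k) (hn : 2 * (m + 6) ≤ n) (hkD : k * (2 * n) ≤ D) (h : ω ∈ CorrEv L w d D m b b') :
    ∃ ε ∈ ({-1, 0, 1} : Finset ℤ), lcf 0 ω ∈ PairL L w d n k b b' ε := by
  obtain ⟨⟨a₁, ha₁, hB₁⟩, ⟨a₂, ha₂, hB₂⟩, u, l, hc, hlm, hfar⟩ := h
  have hw : 0 ≤ w := by omega
  have hlm' : (l.length : ℤ) ≤ m := by exact_mod_cast hlm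
  set F : Set (ℤ × ℤ) := (AnF L w d : Set (ℤ × ℤ)) with hF
  obtain ⟨f, hfF, hfb⟩ := start_side (by omega) hdw hb
  obtain ⟨f', hfF', hfb'⟩ := start_side (by omega) hdw hb'
  have hfS : f ∈ SS ω F b := ⟨hfF, b, mem_MM_self, hfb⟩
  have hfS' : f' ∈ SS ω F b' := ⟨hfF', b', mem_MM_self, hfb'⟩
  have hI1 : IsInd (SS ω F b ∪ SS ω F b') (ind L w u l) (indE L w u l) := by
    refine isInd_ind hd hL hw hc ?_ fun f hf a ha => (hfar f hf).side hD1 ha
    rintro f (hf | hf)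
    · exact hf.1
    · exact hf.1
  have e1 := indE_start hd (by omega) hL hc hb ((hfar f (Or.inl hfS)).side hD1 hfb)
  have e2 := indE_start hd (by omega) hL hc hb' ((hfar f' (Or.inr hfS')).side hD1 hfb')
  set μ := indE L w u l b with hμ
  have hI := hI1.sub_const μ
  set N : ℤ × ℤ → ℤ := fun f => ind L w u l f - μ with hN
  set ν : UE → ℤ := fun a => indE L w u l a - μ with hν
  have hν0 : ν b = 0 := by
    rw [hν]
    simp only
    rw [← hμ, sub_self]
  have hNle : ∀ f, |N f| ≤ n := by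
    intro f
    have h1 := abs_ind_le (L := L) (w := w) (u := u) (l := l) f
    have h2 : |μ| ≤ l.length + 6 := by
      rw [hμ]
      exact abs_ind_le _
    rw [hN]
    simp only
    rw [abs_le] at h1 h2 ⊢
    constructor <;> linarith
  have hFt : ∀ s ∈ (LAF L w d n : Set LF), s.1 ∈ F := fun s hs => (mem_LAF.1 (mem_coe.1 hs)).1
  have hF1 : ∀ f ∈ SS ω F b, (f, N f) ∈ (LAF L w d n : Set LF) := fun f hf =>
    mem_coe.2 (mem_LAF.2 ⟨hf.1, hNle f⟩)
  have hF2 : ∀ f ∈ SS ω F b', (f, N f) ∈ (LAF L w d n : Set LF) := fun f hf =>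
    mem_coe.2 (mem_LAF.2 ⟨hf.1, hNle f⟩)
  have hIb : IsInd (SS ω F b) N ν := hI.mono Set.subset_union_left
  have hIb' : IsInd (SS ω F b') N ν := hI.mono Set.subset_union_right
  refine ⟨ν b', ?_, ?_, ?_, ?_⟩
  · rw [hν]
    simp only [mem_insert, mem_singleton]
    omega
  · have hE : ({(b, (0 : ℤ))} : Set LE) = {(b, ν b)} := by rw [hν0]
    rw [SL_union, hE]
    refine thick_of_sep (X := SS ω F b ∪ SS ω F b') (N := N) hk ?_ (fun f _ => hNle f) hkD ?_
    · rintro s (hs | hs)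
      · rw [SL_iff hIb hFt hF1] at hs
        exact ⟨Or.inl hs.1, hs.2⟩
      · rw [SL_iff hIb' hFt hF2] at hs
        exact ⟨Or.inr hs.1, hs.2⟩
    · intro g hg g' hg' hh h1 h2
      have hgF : g ∈ AnF L w d := by
        rcases hg with hg | hg
        · exact hg.1
        · exact hg.1
      have hgF' : g' ∈ AnF L w d := by
        rcases hg' with hg' | hg'
        · exact hg'.1
        · exact hg'.1
      rw [hN]
      simp only
      rw [ind_eq_of_near hd hL hw hc hD2 hgF hgF' hh h1 h2 (hfar g hg)]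
  · refine ⟨(a₁, ν a₁), ?_, hB₁⟩
    have := ML_of_MM hIb hF1 ha₁
    rwa [hν0] at this
  · exact ⟨(a₂, ν a₂), ML_of_MM hIb' hF2 ha₂, hB₂⟩

theorem pr_of_forall_notMem (W : Finset (ℤ × ℤ)) {A : Set Cfg} (h : ∀ ω, ω ∉ A) : pr W A = 0 := by
  classical
  unfold pr
  rw [div_eq_zero_iff]
  left
  rw [Nat.cast_eq_zero, card_eq_zero]
  ext T
  simp [h]

/-- A union bound. -/
theorem pr_sum_le {ι : Type} (W : Finset (ℤ × ℤ)) (s : Finset ι) (A : Set Cfg)
    (B : ι → Set Cfg) (h : ∀ ω ∈ A, ∃ i ∈ s, ω ∈ B i) : pr W A ≤ ∑ i ∈ s, pr W (B i) := by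
  classical
  have key : ∀ s : Finset ι, pr W {ω | ∃ i ∈ s, ω ∈ B i} ≤ ∑ i ∈ s, pr W (B i) := by
    intro s
    induction s using Finset.induction_on with
    | empty =>
      rw [sum_empty]
      refine le_of_eq (pr_of_forall_notMem W ?_)
      rintro ω ⟨i, hi, _⟩
      exact absurd hi (notMem_empty i)
    | @insert i s hi ih =>
      rw [sum_insert hi]
      refine le_trans (pr_mono W (B := B i ∪ {ω | ∃ i ∈ s, ω ∈ B i}) ?_)
        ((pr_union_le W _ _).trans (add_le_add le_rfl ih))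
      rintro ω ⟨j, hj, hω⟩
      rcases mem_insert.1 hj with rfl | hj
      · exact Or.inl hω
      · exact Or.inr ⟨j, hj, hω⟩
  exact (pr_mono W h).trans (key s)

/-- The projections of the lifted annulus. -/
theorem pj_LAF {c n : ℤ} (hc : |c| ≤ 1) {s : LF} (hs : s ∈ LAF L w d n) :
    pj c s ∈ RF (-L - n) (L + n) (-w) w := by
  rw [mem_LAF, mem_AnF] at hs
  obtain ⟨⟨h1, -⟩, h2⟩ := hs
  have h3 : |c * s.2| ≤ n := by
    rw [abs_mul]
    calc |c| * |s.2| ≤ 1 * |s.2| := mul_le_mul_of_nonneg_right hc (abs_nonneg _)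
      _ ≤ n := by rw [one_mul]; exact h2
  rw [abs_le] at h3
  unfold pj
  rw [mem_RF]
  simp only
  omega

/-- Comparison for one pair. -/
theorem pr_pairL_eq {n k : ℤ} (hk : 1 < k) (b b' : UE) (ε : ℤ) :
    pr (RF (-L) L (-w) w) {ω | lcf 0 ω ∈ PairL L w d n k b b' ε} =
      pr (RF (-L - n) (L + n) (-w) w) {ω | lcf 1 ω ∈ PairL L w d n k b b' ε} := by
  have h := compare (Ft := LAF L w d n) (E := {(b, 0)} ∪ {(b', ε)}) (c := 0) (c' := 1)
    (A := PairL L w d n k b b' ε) (k := k) (detBy_PairL L w d n k b b' ε)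
    (by rw [abs_zero]; omega) (by rw [abs_one]; exact hk) (fun ζ hζ => hζ.1)
    (W := RF (-L) L (-w) w) (W' := RF (-L - n) (L + n) (-w) w) (by
      intro s hs
      rw [mem_LAF, mem_AnF] at hs
      unfold pj
      rw [mem_RF]
      simp only
      omega) (fun s hs => pj_LAF (by norm_num) hs)
  unfold lcf
  exact h

/-- Comparison: the probability that two components which start at the upper or lower side reach the
inner box and leave room for a corridor is at most the expected number of the pairs of lifted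
components in the grid with a dislocation. -/
theorem pr_pairs_le {n k : ℤ} {m : ℕ} (hd : 1 < d) (hdw : d < w)
    (hL : 0 ≤ L) (hD1 : 1 ≤ D) (hD2 : D ≤ 2 * d) (hk : 1 < k) (hn : 2 * (m + 6) ≤ n)
    (hkD : k * (2 * n) ≤ D) :
    pr (RF (-L) L (-w) w) {ω | ∃ b ∈ TBF L w, ∃ b' ∈ TBF L w, b ≠ b' ∧ ω ∈ CorrEv L w d D m b b'} ≤
      ∑ p ∈ ((TBF L w ×ˢ TBF L w).filter fun p => p.1 ≠ p.2) ×ˢ ({-1, 0, 1} : Finset ℤ),
        pr (RF (-L - n) (L + n) (-w) w) {ω | lcf 1 ω ∈ PairL L w d n k p.1.1 p.1.2 p.2} := by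
  have h0 := pr_sum_le (RF (-L) L (-w) w)
    (((TBF L w ×ˢ TBF L w).filter fun p => p.1 ≠ p.2) ×ˢ ({-1, 0, 1} : Finset ℤ))
    {ω | ∃ b ∈ TBF L w, ∃ b' ∈ TBF L w, b ≠ b' ∧ ω ∈ CorrEv L w d D m b b'}
    (fun p => {ω | lcf 0 ω ∈ PairL L w d n k p.1.1 p.1.2 p.2}) (by
      rintro ω ⟨b, hb, b', hb', hne, hω⟩
      obtain ⟨ε, hε, h⟩ := pairL_of_corr hd hdw hL hb hb' hD1 hD2 (by omega) hn hkD hω
      refine ⟨((b, b'), ε), ?_, h⟩
      rw [mem_product, mem_filter, mem_product]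
      exact ⟨⟨⟨hb, hb'⟩, hne⟩, hε⟩)
  refine h0.trans (le_of_eq ?_)
  refine sum_congr rfl fun p _ => ?_
  exact pr_pairL_eq hk p.1.1 p.1.2 p.2

end Pool.Agent.Perc3

end Partperc3PairsZ

section Parth60C1Lat

/-!
# Strands which run far in a thin strip are rare
-/

set_option autoImplicit false

namespace Pool.Agent.PercS5

open Finset Pool.Agent.Perc Pool.Agent.PercD

/-- The crossings of `N` consecutive squares of a horizontal strip. -/
def Blocks (col x y w : ℤ) (N : ℕ) : Set Cfg :=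
  {ω | ∀ i : ℕ, i < N → ω ∈ LR col (x + 2 * w * i) (x + 2 * w * (i + 1)) (y - w) (y + w)}

theorem depOn_blocks (col x y w : ℤ) (N : ℕ) (hw : 0 < w) :
    DepOn (RF x (x + 2 * w * N) (y - w) (y + w) : Set (ℤ × ℤ)) (Blocks col x y w N) := by
  intro ω ω' h
  refine forall₂_congr fun i hi => ?_
  refine depOn_LR _ _ _ _ _ ω ω' fun f hf => h f ?_
  rw [mem_RF'] at hf ⊢
  have h1 : (2 * w) * ((i : ℤ) + 1) ≤ (2 * w) * N :=
    mul_le_mul_of_nonneg_left (by exact_mod_cast hi) (by omega)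
  have h2 : 0 ≤ (2 * w) * (i : ℤ) := by positivity
  omega

/-- The probability decays exponentially in the number of the squares. -/
theorem pr_blocks : ∃ θ : ℝ, 0 ≤ θ ∧ θ < 1 ∧ ∀ (col x y w : ℤ) (N : ℕ), 0 < w →
    pr (RF x (x + 2 * w * N) (y - w) (y + w)) (Blocks col x y w N) ≤ θ ^ N := by
  obtain ⟨c, hc, h⟩ := rswF' 1
  refine ⟨max 0 (1 - c), le_max_left _ _, max_lt (by norm_num) (by linarith), ?_⟩
  intro col x y w N hw
  induction N with
  | zero => rw [pow_zero]; exact pr_le_one _ _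
  | succ N ih =>
    have hLR : pr (RF (x + 2 * w * N) (x + 2 * w * (N + 1)) (y - w) (y + w))
        (LR col (x + 2 * w * N) (x + 2 * w * (N + 1)) (y - w) (y + w)) ≤ max 0 (1 - c) := by
      have e : x + 2 * w * (N + 1) = x + 2 * w * N + 2 * w := by ring
      have h1 := h (col + 1) (x + 2 * w * N) (x + 2 * w * (N + 1)) (y - w) (y + w)
        (by rw [e]; omega) (by omega) (by rw [e]; push_cast; omega)
      have h2 := pr_compl (RF (x + 2 * w * N) (x + 2 * w * (N + 1)) (y - w) (y + w))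
        (BT (col + 1) (x + 2 * w * N) (x + 2 * w * (N + 1)) (y - w) (y + w))
      have h3 : pr (RF (x + 2 * w * N) (x + 2 * w * (N + 1)) (y - w) (y + w))
          (LR col (x + 2 * w * N) (x + 2 * w * (N + 1)) (y - w) (y + w)) ≤
          pr (RF (x + 2 * w * N) (x + 2 * w * (N + 1)) (y - w) (y + w))
          (BT (col + 1) (x + 2 * w * N) (x + 2 * w * (N + 1)) (y - w) (y + w))ᶜ := by
        refine pr_mono _ fun ω hω hω' => ?_
        exact not_lr_and_bt col (by rw [e]; omega) (by omega) ω ⟨hω, hω'⟩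
      refine le_trans ?_ (le_max_right _ _)
      linarith
    have hdis : Disjoint (RF x (x + 2 * w * N) (y - w) (y + w))
        (RF (x + 2 * w * N) (x + 2 * w * (N + 1)) (y - w) (y + w)) := by
      rw [Finset.disjoint_left]
      intro f hf hf'
      rw [Perc.mem_RF] at hf hf'
      omega
    have h0 : 0 ≤ (2 * w) * (N : ℤ) := by positivity
    have e : x + 2 * w * ((N + 1 : ℕ) : ℤ) = x + 2 * w * N + 2 * w := by push_cast; ring
    have e' : x + 2 * w * ((N : ℤ) + 1) = x + 2 * w * N + 2 * w := by ring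
    have hmul := pr_indep (W := RF x (x + 2 * w * ((N + 1 : ℕ) : ℤ)) (y - w) (y + w))
      (depOn_blocks col x y w N hw)
      (depOn_LR col (x + 2 * w * N) (x + 2 * w * (N + 1)) (y - w) (y + w)) hdis
      (fun f hf => by rw [Perc.mem_RF] at hf ⊢; omega)
      (fun f hf => by rw [Perc.mem_RF] at hf ⊢; omega)
    have hmono : pr (RF x (x + 2 * w * ((N + 1 : ℕ) : ℤ)) (y - w) (y + w))
        (Blocks col x y w (N + 1)) ≤ pr (RF x (x + 2 * w * ((N + 1 : ℕ) : ℤ)) (y - w) (y + w))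
        (Blocks col x y w N ∩
          LR col (x + 2 * w * N) (x + 2 * w * (N + 1)) (y - w) (y + w)) := by
      refine pr_mono _ fun ω hω => ⟨fun i hi => hω i (by omega), hω N (by omega)⟩
    refine hmono.trans ?_
    rw [hmul, pow_succ]
    exact mul_le_mul ih hLR (pr_nonneg _ _) (by positivity)

/-- A long horizontal connection in the strip. -/
def Long (x y w : ℤ) (N : ℕ) (F : Set (ℤ × ℤ)) : Set Cfg :=
  {ω | ∃ u v : ℤ × ℤ, u.1 ≤ x ∧ x + 2 * w * N ≤ v.1 ∧ Conn ω F u v}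

theorem long_sub {x y w : ℤ} {N : ℕ} {F : Set (ℤ × ℤ)} (hw : 0 < w)
    (hF : ∀ f ∈ F, y - w ≤ f.2 ∧ f.2 < y + w) :
    Long x y w N F ⊆ Blocks 0 x y w N ∪ Blocks 1 x y w N := by
  rintro ω ⟨u, v, hu, hv, h⟩
  have key : ∀ col : ℤ, (u.1 + u.2 - col) % 2 = 0 → ω ∈ Blocks col x y w N := by
    intro col hcol i hi
    have h1 : (2 * w) * ((i : ℤ) + 1) ≤ (2 * w) * N :=
      mul_le_mul_of_nonneg_left (by exact_mod_cast hi) (by omega)
    have h2 : 0 ≤ (2 * w) * (i : ℤ) := by positivity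
    have e : x + 2 * w * ((i : ℤ) + 1) = x + 2 * w * i + 2 * w := by ring
    exact lr_of_conn hF (by rw [e]; omega) hcol (by omega) (by omega) h
  rcases Int.emod_two_eq_zero_or_one (u.1 + u.2) with h0 | h0
  · exact Or.inl (key 0 (by omega))
  · exact Or.inr (key 1 (by omega))

theorem pr_long {θ : ℝ} (hθ : ∀ (col x y w : ℤ) (N : ℕ), 0 < w →
    pr (RF x (x + 2 * w * N) (y - w) (y + w)) (Blocks col x y w N) ≤ θ ^ N) {x y w : ℤ} {N : ℕ}
    (hw : 0 < w) {F : Set (ℤ × ℤ)} (hF : ∀ f ∈ F, y - w ≤ f.2 ∧ f.2 < y + w)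
    {W : Finset (ℤ × ℤ)} (hW : RF x (x + 2 * w * N) (y - w) (y + w) ⊆ W) :
    pr W (Long x y w N F) ≤ 2 * θ ^ N := by
  refine (pr_mono _ (fun ω hω => long_sub hw hF hω)).trans ?_
  refine (pr_union_le _ _ _).trans ?_
  rw [pr_eq_of_depOn (depOn_blocks 0 x y w N hw) hW, pr_eq_of_depOn (depOn_blocks 1 x y w N hw) hW]
  linarith [hθ 0 x y w N hw, hθ 1 x y w N hw]

/-- The rectangle with centre `c` and half sides `L`, `w`. -/
noncomputable def RL (c : ℤ × ℤ) (L w : ℤ) : Finset (ℤ × ℤ) :=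
  RF (c.1 - L) (c.1 + L) (c.2 - w) (c.2 + w)

theorem mem_RL {c : ℤ × ℤ} {L w : ℤ} {f : ℤ × ℤ} :
    f ∈ RL c L w ↔ c.1 - L ≤ f.1 ∧ f.1 < c.1 + L ∧ c.2 - w ≤ f.2 ∧ f.2 < c.2 + w := by
  unfold RL
  exact Perc.mem_RF

/-- The lateral event: the strand in the rectangle of some unit edge of the inner box of radius `d`
comes to distance at least `X` from the centre in the horizontal direction. -/
def Lat (c : ℤ × ℤ) (d X L w : ℤ) : Set Cfg :=
  {ω | ∃ e, InE c d e ∧ ∃ a ∈ MM ω (RL c L w) e, c.1 + X ≤ (ua a).1 ∨ (ub a).1 ≤ c.1 - X}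

/-- The lateral event is rare. -/
theorem pr_lat : ∃ θ : ℝ, 0 < θ ∧ θ < 1 ∧ ∀ (c : ℤ × ℤ) (d X L w : ℤ) (N : ℕ), 0 < w →
    d + 2 * w * N ≤ X → X ≤ L → 0 ≤ d → pr (RL c L w) (Lat c d X L w) ≤ 4 * θ ^ N := by
  obtain ⟨θ₀, hθ0, hθ1, hθ⟩ := pr_blocks
  have hθ' : ∀ (col x y w : ℤ) (N : ℕ), 0 < w →
      pr (RF x (x + 2 * w * N) (y - w) (y + w)) (Blocks col x y w N) ≤ (max θ₀ (1 / 2)) ^ N := by
    intro col x y w N hw
    exact (hθ col x y w N hw).trans (pow_le_pow_left₀ hθ0 (le_max_left _ _) N)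
  refine ⟨max θ₀ (1 / 2), by positivity, max_lt hθ1 (by norm_num), ?_⟩
  intro c d X L w N hw hX hL hd
  have h0 : 0 ≤ (2 * w) * (N : ℤ) := by positivity
  have hF : ∀ f ∈ (RL c L w : Set (ℤ × ℤ)), c.2 - w ≤ f.2 ∧ f.2 < c.2 + w := by
    intro f hf
    rw [mem_coe, mem_RL] at hf
    omega
  have h1 := pr_long hθ' (x := c.1 + d) (y := c.2) (N := N) hw hF (W := RL c L w) (fun f hf => by
    rw [Perc.mem_RF] at hf; rw [mem_RL]; omega)
  have h2 := pr_long hθ' (x := c.1 - d - 2 * w * N) (y := c.2) (N := N) hw hF (W := RL c L w)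
    (fun f hf => by rw [Perc.mem_RF] at hf; rw [mem_RL]; omega)
  refine (pr_mono _ (B := Long (c.1 + d) c.2 w N (RL c L w) ∪
    Long (c.1 - d - 2 * w * N) c.2 w N (RL c L w)) ?_).trans ((pr_union_le _ _ _).trans (by linarith))
  rintro ω ⟨e, he, a, ha, hlat⟩
  obtain ⟨p, q, hj, -, hc⟩ := MM_conn (Or.inl ⟨rfl, rfl⟩ : Joins e (ua e) (ub e)) ha
  have hc' := hc.mono SS_sub
  have h3 : (ua a).1 ≤ (ub a).1 := by
    obtain ⟨x, y, _ | _⟩ := a <;> simp [ua, ub]
  have h4 : (ua a).1 ≤ p.1 ∧ p.1 ≤ (ub a).1 := by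
    rcases hj with ⟨rfl, -⟩ | ⟨rfl, -⟩
    · exact ⟨le_rfl, h3⟩
    · exact ⟨h3, le_rfl⟩
  have h5 := he.1
  unfold InR at h5
  rcases hlat with hl | hl
  · exact Or.inl ⟨ua e, p, by omega, by omega, hc'⟩
  · exact Or.inr ⟨p, ua e, by omega, by omega, hc'.symm⟩

end Pool.Agent.PercS5

end Parth60C1Lat
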