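import Pool.Agent.Lib.MP_6bd702_zc.Pre
import Pool.Agent.Lib.MP_6bd702_zc.Y004
import Pool.Agent.Lib.MP_6bd702_zc.Y003
import Pool.Agent.Lib.MP_6bd702_z.Z018
import Pool.Agent.Lib.MP_6bd702_z.Z033
import Pool.Agent.Lib.MP_6bd702_z.Z034
import Pool.Agent.Lib.MP_6bd702_z.Z013
import Pool.Agent.Lib.MP_6bd702_z.Z014

section Partperc3TriB

/-!
# Generators at two neighbouring upper `D`-sites kill the pairing (task TriB)

The component of the two `D`-sites consists of these two nodes with parity `false`; the third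
`D`-node is not connected to them.
-/

set_option autoImplicit false

namespace Pool.Agent.Perc

open Finset

variable {n i : ℕ} {s : St} {p : ℕ → ℕ}

/-- A small component `{i, i + 1}`: paths which start there stay there and keep the parity. -/
theorem PR.trap {u d : St} {i : ℕ} (u0 : u.1 i = i + 1) (u1 : u.1 (i + 1) = i)
    (v0 : u.2 i = false) (v1 : u.2 (i + 1) = false)
    (d0 : d.1 i = i) (d1 : d.1 (i + 1) = i + 1)
    (w0 : d.2 i = false) (w1 : d.2 (i + 1) = false)
    {a b : ℕ × Bool} (ha : a.1 = i ∨ a.1 = i + 1) (h : PR u d a b) :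
    (b.1 = i ∨ b.1 = i + 1) ∧ b.2 = a.2 := by
  unfold PR at h
  induction h with
  | refl => exact ⟨ha, rfl⟩
  | tail _ hstep ih =>
    obtain ⟨hb, hb2⟩ := ih
    rcases hstep with ⟨h1, h2⟩ | ⟨h1, h2⟩
    · rcases hb with hb | hb
      · rw [hb] at h1 h2
        rw [u0] at h1
        rw [v0] at h2
        refine ⟨Or.inr h1, ?_⟩
        rw [h2, hb2]; simp
      · rw [hb] at h1 h2
        rw [u1] at h1
        rw [v1] at h2
        refine ⟨Or.inl h1, ?_⟩
        rw [h2, hb2]; simp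
    · rcases hb with hb | hb
      · rw [hb] at h1 h2
        rw [d0] at h1
        rw [w0] at h2
        refine ⟨Or.inl h1, ?_⟩
        rw [h2, hb2]; simp
      · rw [hb] at h1 h2
        rw [d1] at h1
        rw [w1] at h2
        refine ⟨Or.inr h1, ?_⟩
        rw [h2, hb2]; simp

/-- If the nodes `i`, `i + 1` form a component of their own, the three-leg event is impossible. -/
theorem Tri.trap {u d : St} (hu : LInv u) (hd : LInv d) {i : ℕ} (hi : i = n ∨ i = n + 1)
    (u0 : u.1 i = i + 1) (v0 : u.2 i = false) (v1 : u.2 (i + 1) = false)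
    (d0 : d.1 i = i) (d1 : d.1 (i + 1) = i + 1) : ¬ Tri n u d := by
  have u1 : u.1 (i + 1) = i := by rw [← u0]; exact hu.inv i
  have w0 : d.2 i = false := hd.fix i d0
  have w1 : d.2 (i + 1) = false := hd.fix (i + 1) d1
  rintro ⟨a, b, ha, ha', hb, hb', hab, h⟩
  by_cases hai : a = i ∨ a = i + 1
  · have := (PR.trap (a := (a, false)) (b := (b, true)) u0 u1 v0 v1 d0 d1 w0 w1 hai h).2
    simp at this
  · by_cases hbi : b = i ∨ b = i + 1
    · have h' := PR.symm hu hd h
      have := (PR.trap (a := (b, true)) (b := (a, false)) u0 u1 v0 v1 d0 d1 w0 w1 hbi h').2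
      simp at this
    · omega

theorem B3_kill (hs : IsAnn n s) (hp : NCO (n + 3) p) (hi : i = n ∨ i = n + 1) :
    B3 n s (eO i p) = 0 := by
  have hO : NCO (n + 3) (eO i p) := NCO.eO hp (by omega)
  have : ¬ Tri n (upO (eO i p)) s := by
    refine Tri.trap (LInv.upO hO) (LInv.ann hs) hi ?_ ?_ ?_ ?_ ?_
    · exact eO_small i p
    · exact labO_eO_left hp (by omega)
    · exact labO_eO_right hp (by omega)
    · exact hs.nc.out i (by omega)
    · exact hs.nc.out (i + 1) (by omega)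
  simp [B3, this]

theorem B2_kill (hs : IsAnn (n + 1) s) (hp : NCO (n + 2) p) : B2 n s (eO n p) = 0 := by
  have hO : NCO (n + 2) (eO n p) := NCO.eO hp (by omega)
  have : ¬ Tri n (upO (eO n p)) (dnO n s) := by
    refine Tri.trap (i := n) (LInv.upO hO) ((LInv.ann hs).dnO n) (Or.inl rfl) ?_ ?_ ?_ ?_ ?_
    · exact eO_small n p
    · exact labO_eO_left hp (by omega)
    · exact labO_eO_right hp (by omega)
    · show Equiv.swap n (n + 2) (s.1 (Equiv.swap n (n + 2) n)) = n
      rw [Equiv.swap_apply_left, hs.nc.out (n + 2) (by omega), Equiv.swap_apply_right]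
    · show Equiv.swap n (n + 2) (s.1 (Equiv.swap n (n + 2) (n + 1))) = n + 1
      have h1 : Equiv.swap n (n + 2) (n + 1) = n + 1 :=
        Equiv.swap_apply_of_ne_of_ne (by omega) (by omega)
      rw [h1, hs.nc.out (n + 1) (by omega), h1]
  simp [B2, this]

end Pool.Agent.Perc

end Partperc3TriB

section Partperc3QSec

/-!
# Sectors from potentials

Three strands; `P i` is a potential of the strands `i` and `i + 1`, `K` a potential of the
complement of the three strands.
-/

set_option autoImplicit false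

namespace Pool.Agent.Perc.Q

open Relation

variable {V Φ : Type} {Q : QC V Φ} {ω : Φ → Bool} {F : Set Φ} {e : Fin 3 → V × V} {f : Φ}
  {k : ZMod 4} {χ : V → ZMod 2} {m : V → V → ZMod 2} {i j : Fin 3}

open Classical in
/-- The indicator of a strand. -/
noncomputable def indU (Q : QC V Φ) (ω : Φ → Bool) (F : Set Φ) (e : V × V) (p q : V) : ZMod 2 :=
  if (p, q) ∈ Un Q ω F e then 1 else 0

theorem indU_symm (Q : QC V Φ) (ω : Φ → Bool) (F : Set Φ) (e : V × V) (p q : V) :
    indU Q ω F e p q = indU Q ω F e q p := by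
  classical
  unfold indU
  have h : (p, q) ∈ Un Q ω F e ↔ (q, p) ∈ Un Q ω F e := (Un_swap (a := (p, q))).symm
  by_cases hq : (q, p) ∈ Un Q ω F e
  · rw [if_pos hq, if_pos (h.2 hq)]
  · rw [if_neg hq, if_neg fun h' => hq (h.1 h')]

theorem indU_eq {e : V × V} (he : Ini Q F e) (hf : f ∈ F) (h : ω f = ev k) :
    indU Q ω F e (Q.c f k) (Q.c f (k + 1)) = indU Q ω F e (Q.c f (k + 1)) (Q.c f (k + 2)) := by
  unfold indU
  have h1 := un_iff he hf h
  by_cases hq : (Q.c f (k + 1), Q.c f (k + 2)) ∈ Un Q ω F e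
  · rw [if_pos hq, if_pos (h1.2 hq)]
  · rw [if_neg hq, if_neg fun h' => hq (h1.1 h')]

/-- The increments at the two sides at the corner `k + 1` are equal. -/
def Mat (Q : QC V Φ) (ω : Φ → Bool) (F : Set Φ) (m : V → V → ZMod 2) : Prop :=
  ∀ f ∈ F, ∀ k, ω f = ev k → m (Q.c f k) (Q.c f (k + 1)) = m (Q.c f (k + 1)) (Q.c f (k + 2))

theorem sumQ4 (g : ZMod 4 → ZMod 2) : ∑ k, g k = g 0 + g 1 + g 2 + g 3 := Fin.sum_univ_four g

theorem Mat.even (h : Mat Q ω F m) (hf : f ∈ F) : ∑ k, m (Q.c f k) (Q.c f (k + 1)) = 0 := by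
  rw [sumQ4]
  have a0 : (0 : ZMod 4) + 1 = 1 := by decide
  have a1 : (1 : ZMod 4) + 1 = 2 := by decide
  have a2 : (2 : ZMod 4) + 1 = 3 := by decide
  have a3 : (3 : ZMod 4) + 1 = 0 := by decide
  have b0 : (0 : ZMod 4) + 2 = 2 := by decide
  have b1 : (1 : ZMod 4) + 2 = 3 := by decide
  have b2 : (2 : ZMod 4) + 2 = 0 := by decide
  have b3 : (3 : ZMod 4) + 2 = 1 := by decide
  rw [a0, a1, a2, a3]
  rcases Bool.eq_or_eq_not (ω f) (ev 0) with hw | hw
  · have h0 := h f hf 0 hw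
    have h2 := h f hf 2 (by rw [hw]; decide)
    rw [a0, b0] at h0
    rw [a2, b2] at h2
    rw [h0, h2]
    generalize m (Q.c f 1) (Q.c f 2) = x
    generalize m (Q.c f 3) (Q.c f 0) = y
    revert x y; decide
  · have h1 := h f hf 1 (by rw [hw]; decide)
    have h3 := h f hf 3 (by rw [hw]; decide)
    rw [a1, b1] at h1
    rw [a3, b3] at h3
    rw [h1, h3]
    generalize m (Q.c f 0) (Q.c f 1) = x
    generalize m (Q.c f 2) (Q.c f 3) = y
    revert x y; decide

/-- `χ` is a potential of `m` on the faces of `F`. -/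
def PotQ (Q : QC V Φ) (F : Set Φ) (m : V → V → ZMod 2) (χ : V → ZMod 2) : Prop :=
  ∀ f ∈ F, ∀ k, χ (Q.c f k) + χ (Q.c f (k + 1)) = m (Q.c f k) (Q.c f (k + 1))

theorem PotQ.bond (h : PotQ Q F m χ) (hm : Mat Q ω F m) (hf : f ∈ F) (hk : ω f = ev k) :
    χ (Q.c f k) = χ (Q.c f (k + 2)) := by
  have h1 := h f hf k
  have h2 := h f hf (k + 1)
  rw [z1] at h2
  rw [hm f hf k hk, ← h2] at h1
  generalize χ (Q.c f k) = x at h1 ⊢
  generalize χ (Q.c f (k + 1)) = y at h1
  generalize χ (Q.c f (k + 2)) = z at h1 ⊢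
  revert x y z; decide

theorem PotQ.conn (h : PotQ Q F m χ) (hm : Mat Q ω F m) {u v : V} (hc : ConnQ Q ω F u v) :
    χ u = χ v := by
  induction hc with
  | refl => rfl
  | tail _ hb ih =>
    obtain ⟨f, hf, k, hk, rfl, rfl⟩ := hb
    exact ih.trans (h.bond hm hf hk)

theorem PotQ.marks (h : PotQ Q F m χ) (hm : Mat Q ω F m) {e a : V × V} (ha : a ∈ Orb Q ω F e) :
    χ a.1 = χ e.1 ∧ χ a.2 = χ e.2 :=
  ⟨(h.conn hm ((Pool.Agent.Perc.Q.marks ha).1.mono Vis_sub)).symm, (h.conn hm ((Pool.Agent.Perc.Q.marks ha).2.mono Vis_sub)).symm⟩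

/-- The cochain of the strands `i` and `i + 1`. -/
noncomputable def mP (Q : QC V Φ) (ω : Φ → Bool) (F : Set Φ) (e : Fin 3 → V × V) (i : Fin 3)
    (p q : V) : ZMod 2 := indU Q ω F (e i) p q + indU Q ω F (e (i + 1)) p q

/-- The cochain of the complement of the three strands. -/
noncomputable def mK (Q : QC V Φ) (ω : Φ → Bool) (F : Set Φ) (e : Fin 3 → V × V)
    (p q : V) : ZMod 2 := 1 + ∑ i, indU Q ω F (e i) p q

theorem mat_mP (he : ∀ i, Ini Q F (e i)) : Mat Q ω F (mP Q ω F e i) := by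
  intro f hf k hk
  unfold mP
  rw [indU_eq (he _) hf hk, indU_eq (he _) hf hk]

theorem mat_mK (he : ∀ i, Ini Q F (e i)) : Mat Q ω F (mK Q ω F e) := by
  intro f hf k hk
  unfold mK
  congr 1
  exact Finset.sum_congr rfl fun i _ => indU_eq (he i) hf hk

theorem mP_symm (p q : V) : mP Q ω F e i p q = mP Q ω F e i q p := by
  unfold mP
  rw [indU_symm Q ω F (e i), indU_symm Q ω F (e (i + 1))]

theorem mK_symm (p q : V) : mK Q ω F e p q = mK Q ω F e q p := by
  unfold mK
  congr 1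
  exact Finset.sum_congr rfl fun i _ => indU_symm Q ω F (e i) p q

/-- The sector with `P s = 0`. -/
def secP (P : Fin 3 → V → ZMod 2) (v : V) : Fin 3 :=
  if P 0 v = 0 then 0 else if P 1 v = 0 then 1 else 2

theorem secP_eq {P : Fin 3 → V → ZMod 2} {v : V} {s : Fin 3}
    (h : ∀ j, P j v = if j = s then 0 else 1) : secP P v = s := by
  unfold secP
  rw [h 0, h 1]
  clear h
  revert s
  decide

/-- Existence of the sectors. -/
theorem isSec_of_pot (he : ∀ i, Ini Q F (e i)) {L R : Fin 3 → Fin 3} {P : Fin 3 → V → ZMod 2}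
    (hP : ∀ i, PotQ Q F (mP Q ω F e i) (P i)) {K : V → ZMod 2}
    (hK : PotQ Q F (mK Q ω F e) K)
    (hL : ∀ i j, P j (e i).1 = if j = L i then 0 else 1)
    (hR : ∀ i j, P j (e i).2 = if j = R i then 0 else 1)
    (hK0 : ∀ i, K (e i).1 = 0 ∧ K (e i).2 = 0) :
    IsSec Q ω F e L R (secP P) K := by
  have hind : ∀ f ∈ F, ∀ k, (Q.c f k, Q.c f (k + 1)) ∉ MU Q ω F e → ∀ i,
      indU Q ω F (e i) (Q.c f k) (Q.c f (k + 1)) = 0 := by
    intro f _ k h i
    unfold indU
    exact if_neg fun h' => h ⟨i, h'⟩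
  refine ⟨he, ?_, ?_, ?_, ?_⟩
  · intro f hf k h
    have h1 : ∀ i, P i (Q.c f k) = P i (Q.c f (k + 1)) := by
      intro i
      have h2 := hP i f hf k
      unfold mP at h2
      rw [hind f hf k h, hind f hf k h, add_zero] at h2
      generalize P i (Q.c f k) = x at h2 ⊢
      generalize P i (Q.c f (k + 1)) = y at h2 ⊢
      revert x y; decide
    unfold secP
    rw [h1 0, h1 1]
  · intro f hf k h
    have h2 := hK f hf k
    unfold mK at h2
    rw [Finset.sum_eq_zero (fun i _ => hind f hf k h i), add_zero] at h2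
    generalize K (Q.c f k) = x at h2 ⊢
    generalize K (Q.c f (k + 1)) = y at h2 ⊢
    revert x y; decide
  · intro i a ha
    refine ⟨secP_eq fun j => ?_, ?_⟩
    · rw [((hP j).marks (mat_mP he) ha).1, hL]
    · rw [(hK.marks (mat_mK he) ha).1, (hK0 i).1]
  · intro i a ha
    refine ⟨secP_eq fun j => ?_, ?_⟩
    · rw [((hP j).marks (mat_mP he) ha).2, hR]
    · rw [(hK.marks (mat_mK he) ha).2, (hK0 i).2]

end Pool.Agent.Perc.Q

end Partperc3QSec

section Partperc3TriG

/-!
# The ends of the paths (task TriG, helper71)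
-/

set_option autoImplicit false

namespace Pool.Agent.Perc

open Finset Function

namespace TriG

/-- The step with the parity. -/
def st (u : St) (x : ℕ × Bool) : ℕ × Bool := (u.1 x.1, xor x.2 (u.2 x.1))

theorem st_st {u : St} (hu : LInv u) (x : ℕ × Bool) : st u (st u x) = x := by
  refine Prod.ext (hu.inv _) ?_
  show xor (xor x.2 (u.2 x.1)) (u.2 (u.1 x.1)) = x.2
  rw [hu.lab, Bool.xor_assoc, Bool.xor_self, Bool.xor_false]

theorem st_fix {u : St} (hu : LInv u) {x : ℕ × Bool} (h : u.1 x.1 = x.1) : st u x = x := by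
  refine Prod.ext h ?_
  show xor x.2 (u.2 x.1) = x.2
  rw [hu.fix _ h, Bool.xor_false]

variable {N : ℕ} {u d : St}

/-- First `u`, then `d`. -/
def FF (u d : St) (x : ℕ × Bool) : ℕ × Bool := st d (st u x)

/-- The same on nodes. -/
def ff (u d : St) (x : ℕ) : ℕ := d.1 (u.1 x)

theorem FF_fst (x : ℕ × Bool) : (FF u d x).1 = ff u d x.1 := rfl

theorem FF_iter_fst (k : ℕ) (x : ℕ × Bool) : ((FF u d)^[k] x).1 = (ff u d)^[k] x.1 := by
  induction k with
  | zero => rfl
  | succ k ih => rw [iterate_succ_apply', iterate_succ_apply', FF_fst, ih]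

theorem ff_inj (hu : LInv u) (hd : LInv d) : Injective (ff u d) := by
  intro x y h
  have h1 : d.1 (d.1 (u.1 x)) = d.1 (d.1 (u.1 y)) := congrArg d.1 h
  rw [hd.inv, hd.inv] at h1
  have h2 := congrArg u.1 h1
  rwa [hu.inv, hu.inv] at h2

theorem FF_inj (hu : LInv u) (hd : LInv d) : Injective (FF u d) := by
  intro x y h
  have h1 : st d (st d (st u x)) = st d (st d (st u y)) := congrArg (st d) h
  rw [st_st hd, st_st hd] at h1
  have h2 := congrArg (st u) h1
  rwa [st_st hu, st_st hu] at h2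

/-- The reflection in `u`. -/
theorem reflU (hu : LInv u) (hd : LInv d) {a₀ : ℕ × Bool} (ha : st d a₀ = a₀) (k : ℕ) :
    (FF u d)^[k + 1] (st u ((FF u d)^[k] a₀)) = a₀ := by
  induction k with
  | zero =>
    show st d (st u (st u a₀)) = a₀
    rw [st_st hu, ha]
  | succ k ih =>
    rw [iterate_succ_apply]
    have : FF u d (st u ((FF u d)^[k + 1] a₀)) = st u ((FF u d)^[k] a₀) := by
      rw [iterate_succ_apply']
      show st d (st u (st u (st d (st u ((FF u d)^[k] a₀))))) = _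
      rw [st_st hu, st_st hd]
    rw [this, ih]

/-- The reflection in `d`. -/
theorem reflD (hu : LInv u) (hd : LInv d) {a₀ : ℕ × Bool} (ha : st d a₀ = a₀) (k : ℕ) :
    (FF u d)^[k] (st d ((FF u d)^[k] a₀)) = a₀ := by
  induction k with
  | zero => exact ha
  | succ k ih =>
    rw [iterate_succ_apply]
    have : FF u d (st d ((FF u d)^[k + 1] a₀)) = st d ((FF u d)^[k] a₀) := by
      rw [iterate_succ_apply']
      show st d (st u (st d (st d (st u ((FF u d)^[k] a₀))))) = _
      rw [st_st hd, st_st hu]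
    rw [this, ih]

/-- The nodes which are reached. -/
theorem form {a₀ b : ℕ × Bool} (hu : LInv u) (hd : LInv d) (ha : st d a₀ = a₀)
    (h : PR u d a₀ b) : ∃ k, b = (FF u d)^[k] a₀ ∨ b = st u ((FF u d)^[k] a₀) := by
  induction h with
  | refl => exact ⟨0, Or.inl rfl⟩
  | @tail b c _ hbc ih =>
    have hc : c = st u b ∨ c = st d b := by
      rcases hbc with ⟨e1, e2⟩ | ⟨e1, e2⟩
      · exact Or.inl (Prod.ext e1 e2)
      · exact Or.inr (Prod.ext e1 e2)
    obtain ⟨k, hk | hk⟩ := ih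
    · rcases hc with hc | hc
      · exact ⟨k, Or.inr (by rw [hc, hk])⟩
      · rcases k with _ | k
        · exact ⟨0, Or.inl (by rw [hc, hk]; exact ha)⟩
        · refine ⟨k, Or.inr ?_⟩
          rw [hc, hk, iterate_succ_apply']
          exact st_st hd _
    · rcases hc with hc | hc
      · exact ⟨k, Or.inl (by rw [hc, hk]; exact st_st hu _)⟩
      · refine ⟨k + 1, Or.inl ?_⟩
        rw [hc, hk, iterate_succ_apply']; rfl

theorem reach (u d : St) (a₀ : ℕ × Bool) (k : ℕ) : PR u d a₀ ((FF u d)^[k] a₀) := by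
  induction k with
  | zero => exact PR.refl _ _ _
  | succ k ih =>
    rw [iterate_succ_apply']
    exact (ih.trans (PR.stepU _ _)).trans (PR.stepD _ _)

/-- The period. -/
theorem period_pos (hu : LInv u) (hd : LInv d) (huN : ∀ x < N, u.1 x < N)
    (hdN : ∀ x < N, d.1 x < N) {a : ℕ} (ha : a < N) : 0 < minimalPeriod (ff u d) a := by
  have hmem : ∀ k, (ff u d)^[k] a < N := by
    intro k
    induction k with
    | zero => exact ha
    | succ k ih => rw [iterate_succ_apply']; exact hdN _ (huN _ ih)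
  obtain ⟨i, j, hij, he⟩ : ∃ i j, i < j ∧ (ff u d)^[i] a = (ff u d)^[j] a := by
    by_contra hcon
    push Not at hcon
    have hinj : Injective fun k : Fin (N + 1) => (⟨(ff u d)^[(k : ℕ)] a, hmem _⟩ : Fin N) := by
      intro x y hxy
      have h1 : (ff u d)^[(x : ℕ)] a = (ff u d)^[(y : ℕ)] a := congrArg Fin.val hxy
      rcases lt_trichotomy (x : ℕ) (y : ℕ) with h | h | h
      · exact absurd h1 (hcon _ _ h)
      · exact Fin.ext h
      · exact absurd h1.symm (hcon _ _ h)
    have := Fintype.card_le_of_injective _ hinj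
    rw [Fintype.card_fin, Fintype.card_fin] at this
    omega
  refine IsPeriodicPt.minimalPeriod_pos (n := j - i) (by omega) ?_
  show (ff u d)^[j - i] a = a
  have h1 : (ff u d)^[i] ((ff u d)^[j - i] a) = (ff u d)^[i] a := by
    rw [← iterate_add_apply, he]
    congr 1
    omega
  exact (ff_inj hu hd).iterate i h1

/-- The middle of the period is the other end, and the period has parity `false`. -/
theorem middle (hu : LInv u) (hd : LInv d) {a : ℕ} (ha : d.1 a = a) :
    (FF u d)^[minimalPeriod (ff u d) a] (a, false) = (a, false) ∧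
      (u.1 ((ff u d)^[minimalPeriod (ff u d) a / 2] a) = (ff u d)^[minimalPeriod (ff u d) a / 2] a ∨
        d.1 ((ff u d)^[minimalPeriod (ff u d) a / 2] a) =
          (ff u d)^[minimalPeriod (ff u d) a / 2] a) := by
  set T := minimalPeriod (ff u d) a with hT
  have hper : (ff u d)^[T] a = a := iterate_minimalPeriod
  have ha' : st d (a, false) = (a, false) := st_fix hd ha
  rcases Nat.even_or_odd' T with ⟨k, hk | hk⟩
  · have e : T / 2 = k := by omega
    rw [e]
    have h1 := reflD hu hd ha' k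
    have h2 := congrArg Prod.fst h1
    rw [FF_iter_fst] at h2
    have h3 : (ff u d)^[k] (d.1 ((ff u d)^[k] a)) = (ff u d)^[k] ((ff u d)^[k] a) := by
      have h4 : (ff u d)^[k] ((ff u d)^[k] a) = a := by
        rw [← iterate_add_apply, show k + k = T by omega, hper]
      rw [h4]
      have h5 : (st d ((FF u d)^[k] (a, false))).1 = d.1 ((ff u d)^[k] a) := by
        show d.1 ((FF u d)^[k] (a, false)).1 = _
        rw [FF_iter_fst]
      rw [h5] at h2
      exact h2
    have h4 := (ff_inj hu hd).iterate k h3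
    refine ⟨?_, Or.inr h4⟩
    have h5 : st d ((FF u d)^[k] (a, false)) = (FF u d)^[k] (a, false) := by
      apply st_fix hd
      rw [FF_iter_fst]
      exact h4
    rw [h5, ← iterate_add_apply, show k + k = T by omega] at h1
    exact h1
  · have e : T / 2 = k := by omega
    rw [e]
    have h1 := reflU hu hd ha' k
    have h2 := congrArg Prod.fst h1
    rw [FF_iter_fst] at h2
    have h3 : (ff u d)^[k + 1] (u.1 ((ff u d)^[k] a)) = (ff u d)^[k + 1] ((ff u d)^[k] a) := by
      have h4 : (ff u d)^[k + 1] ((ff u d)^[k] a) = a := by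
        rw [← iterate_add_apply, show k + 1 + k = T by omega, hper]
      rw [h4]
      have h5 : (st u ((FF u d)^[k] (a, false))).1 = u.1 ((ff u d)^[k] a) := by
        show u.1 ((FF u d)^[k] (a, false)).1 = _
        rw [FF_iter_fst]
      rw [h5] at h2
      exact h2
    have h4 := (ff_inj hu hd).iterate (k + 1) h3
    refine ⟨?_, Or.inl h4⟩
    have h5 : st u ((FF u d)^[k] (a, false)) = (FF u d)^[k] (a, false) := by
      apply st_fix hu
      rw [FF_iter_fst]
      exact h4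
    rw [h5, ← iterate_add_apply, show k + 1 + k = T by omega] at h1
    exact h1

theorem FF_mul {x : ℕ × Bool} {T : ℕ} (h : (FF u d)^[T] x = x) (j : ℕ) :
    (FF u d)^[T * j] x = x := by
  rw [iterate_mul]
  exact iterate_fixed h j

/-- Every node which is reached is in the forward orbit, before one period. -/
theorem form' (hu : LInv u) (hd : LInv d) (huN : ∀ x < N, u.1 x < N)
    (hdN : ∀ x < N, d.1 x < N) {a : ℕ} (haN : a < N) (ha : d.1 a = a) {b : ℕ × Bool}
    (h : PR u d (a, false) b) :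
    ∃ k < minimalPeriod (ff u d) a, b = (FF u d)^[k] (a, false) := by
  have hT := period_pos hu hd huN hdN haN
  have ha' : st d (a, false) = (a, false) := st_fix hd ha
  obtain ⟨hm, -⟩ := middle hu hd ha
  set T := minimalPeriod (ff u d) a
  have key : ∀ k, ∃ l < T, (FF u d)^[k] (a, false) = (FF u d)^[l] (a, false) := by
    intro k
    refine ⟨k % T, Nat.mod_lt _ hT, ?_⟩
    conv_lhs => rw [← Nat.mod_add_div k T, iterate_add_apply, FF_mul hm]
  obtain ⟨k, hk | hk⟩ := form hu hd ha' h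
  · obtain ⟨l, hl, e⟩ := key k
    exact ⟨l, hl, hk.trans e⟩
  · have h1 := reflU hu hd ha' k
    have h2 : (FF u d)^[k + 1] ((FF u d)^[T * (k + 1) - (k + 1)] (a, false)) = (a, false) := by
      rw [← iterate_add_apply]
      have : k + 1 + (T * (k + 1) - (k + 1)) = T * (k + 1) := by
        have : k + 1 ≤ T * (k + 1) := Nat.le_mul_of_pos_left _ hT
        omega
      rw [this, FF_mul hm]
    have h3 := (FF_inj hu hd).iterate (k + 1) (h1.trans h2.symm)
    obtain ⟨l, hl, e⟩ := key (T * (k + 1) - (k + 1))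
    exact ⟨l, hl, hk.trans (h3.trans e)⟩

/-- The index of an end. -/
theorem index_end (hu : LInv u) (hd : LInv d) {a : ℕ} (ha : d.1 a = a) {k : ℕ} (hk0 : 0 < k)
    (hk : k < minimalPeriod (ff u d) a)
    (h : u.1 ((ff u d)^[k] a) = (ff u d)^[k] a ∨ d.1 ((ff u d)^[k] a) = (ff u d)^[k] a) :
    k = minimalPeriod (ff u d) a / 2 := by
  have ha' : st d (a, false) = (a, false) := st_fix hd ha
  set T := minimalPeriod (ff u d) a with hT
  rcases h with h | h
  · have h1 := congrArg Prod.fst (reflU hu hd ha' k)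
    rw [FF_iter_fst] at h1
    have h5 : (st u ((FF u d)^[k] (a, false))).1 = (ff u d)^[k] a := by
      show u.1 ((FF u d)^[k] (a, false)).1 = _
      rw [FF_iter_fst]; exact h
    rw [h5, ← iterate_add_apply] at h1
    have h2 : T ∣ k + 1 + k := IsPeriodicPt.minimalPeriod_dvd h1
    obtain ⟨c, hc⟩ := h2
    have h3 : c = 1 := by
      rcases c with _ | _ | c
      · omega
      · rfl
      · nlinarith
    rw [h3] at hc
    omega
  · have h1 := congrArg Prod.fst (reflD hu hd ha' k)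
    rw [FF_iter_fst] at h1
    have h5 : (st d ((FF u d)^[k] (a, false))).1 = (ff u d)^[k] a := by
      show d.1 ((FF u d)^[k] (a, false)).1 = _
      rw [FF_iter_fst]; exact h
    rw [h5, ← iterate_add_apply] at h1
    have h2 : T ∣ k + k := IsPeriodicPt.minimalPeriod_dvd h1
    obtain ⟨c, hc⟩ := h2
    have h3 : c = 1 := by
      rcases c with _ | _ | c
      · omega
      · rfl
      · nlinarith
    rw [h3] at hc
    omega

theorem two_ends_d (hu : LInv u) (hd : LInv d) (huN : ∀ x < N, u.1 x < N)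
    (hdN : ∀ x < N, d.1 x < N) {a b c : ℕ} {ε δ : Bool} (haN : a < N) (ha : d.1 a = a)
    (hb : u.1 b = b ∨ d.1 b = b) (hc : u.1 c = c ∨ d.1 c = c)
    (hab : PR u d (a, false) (b, ε)) (hac : PR u d (a, false) (c, δ)) :
    a = b ∨ a = c ∨ b = c := by
  obtain ⟨k, hk, ek⟩ := form' hu hd huN hdN haN ha hab
  obtain ⟨l, hl, el⟩ := form' hu hd huN hdN haN ha hac
  have ek' : b = (ff u d)^[k] a := by
    have := congrArg Prod.fst ek
    rwa [FF_iter_fst] at this
  have el' : c = (ff u d)^[l] a := by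
    have := congrArg Prod.fst el
    rwa [FF_iter_fst] at this
  rcases Nat.eq_zero_or_pos k with h0 | h0
  · left; rw [ek', h0]; rfl
  rcases Nat.eq_zero_or_pos l with h1 | h1
  · right; left; rw [el', h1]; rfl
  right; right
  rw [ek'] at hb
  rw [el'] at hc
  rw [ek', el', index_end hu hd ha h0 hk hb, index_end hu hd ha h1 hl hc]

theorem parity_d (hu : LInv u) (hd : LInv d) (huN : ∀ x < N, u.1 x < N)
    (hdN : ∀ x < N, d.1 x < N) {a b : ℕ} {ε δ : Bool} (haN : a < N) (ha : d.1 a = a)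
    (h : PR u d (a, false) (b, ε)) (h' : PR u d (a, false) (b, δ)) : ε = δ := by
  obtain ⟨k, hk, ek⟩ := form' hu hd huN hdN haN ha h
  obtain ⟨l, hl, el⟩ := form' hu hd huN hdN haN ha h'
  have ek' : b = (ff u d)^[k] a := by
    have := congrArg Prod.fst ek
    rwa [FF_iter_fst] at this
  have el' : b = (ff u d)^[l] a := by
    have := congrArg Prod.fst el
    rwa [FF_iter_fst] at this
  have hkl : k = l := by
    have h1 : (ff u d)^[k] a = (ff u d)^[l] a := ek'.symm.trans el'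
    rwa [iterate_eq_iterate_iff_of_lt_minimalPeriod hk hl] at h1
  rw [hkl] at ek
  exact congrArg Prod.snd (ek.trans el.symm)

theorem exists_end_d (hu : LInv u) (hd : LInv d) (huN : ∀ x < N, u.1 x < N)
    (hdN : ∀ x < N, d.1 x < N) {a : ℕ} (haN : a < N) (ha : d.1 a = a) (hne : u.1 a ≠ a) :
    ∃ b ε, b ≠ a ∧ (u.1 b = b ∨ d.1 b = b) ∧ PR u d (a, false) (b, ε) := by
  have hT := period_pos hu hd huN hdN haN
  obtain ⟨-, hm⟩ := middle hu hd ha
  set T := minimalPeriod (ff u d) a with hTdef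
  have hT2 : 1 < T := by
    rcases Nat.lt_or_ge 1 T with h | h
    · exact h
    · exfalso
      have h1 : T = 1 := by omega
      have h2 : (ff u d)^[T] a = a := iterate_minimalPeriod
      rw [h1] at h2
      have h3 : d.1 (u.1 a) = a := h2
      have h4 := congrArg d.1 h3
      rw [hd.inv, ha] at h4
      exact hne h4
  refine ⟨(ff u d)^[T / 2] a, ((FF u d)^[T / 2] (a, false)).2, ?_, hm, ?_⟩
  · intro h
    have h1 : T ∣ T / 2 := IsPeriodicPt.minimalPeriod_dvd h
    have h2 := Nat.le_of_dvd (by omega) h1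
    omega
  · have := reach u d (a, false) (T / 2)
    have e : (FF u d)^[T / 2] (a, false) =
        ((ff u d)^[T / 2] a, ((FF u d)^[T / 2] (a, false)).2) :=
      Prod.ext (by rw [FF_iter_fst]) rfl
    rwa [e] at this

end TriG

open TriG

/-- A path has at most two ends. -/
theorem PR.two_ends {N : ℕ} {u d : St} (hu : LInv u) (hd : LInv d)
    (huN : ∀ x < N, u.1 x < N) (hdN : ∀ x < N, d.1 x < N) {a b c : ℕ} {ε δ : Bool} (haN : a < N)
    (ha : u.1 a = a ∨ d.1 a = a) (hb : u.1 b = b ∨ d.1 b = b) (hc : u.1 c = c ∨ d.1 c = c)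
    (hab : PR u d (a, false) (b, ε)) (hac : PR u d (a, false) (c, δ)) :
    a = b ∨ a = c ∨ b = c := by
  rcases ha with ha | ha
  · exact two_ends_d hd hu hdN huN haN ha hb.symm hc.symm hab.swap hac.swap
  · exact two_ends_d hu hd huN hdN haN ha hb hc hab hac

/-- The parity of a path which starts at an end is unique. -/
theorem PR.parity_unique {N : ℕ} {u d : St} (hu : LInv u) (hd : LInv d)
    (huN : ∀ x < N, u.1 x < N) (hdN : ∀ x < N, d.1 x < N) {a b : ℕ} {ε δ : Bool} (haN : a < N)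
    (ha : u.1 a = a ∨ d.1 a = a) (h : PR u d (a, false) (b, ε)) (h' : PR u d (a, false) (b, δ)) :
    ε = δ := by
  rcases ha with ha | ha
  · exact parity_d hd hu hdN huN haN ha h.swap h'.swap
  · exact parity_d hu hd huN hdN haN ha h h'

/-- A path which is not a point has a second end. -/
theorem PR.exists_end {N : ℕ} {u d : St} (hu : LInv u) (hd : LInv d)
    (huN : ∀ x < N, u.1 x < N) (hdN : ∀ x < N, d.1 x < N) {a : ℕ} (haN : a < N)
    (ha : u.1 a = a ∨ d.1 a = a) (hne : ¬ (u.1 a = a ∧ d.1 a = a)) :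
    ∃ b ε, b ≠ a ∧ (u.1 b = b ∨ d.1 b = b) ∧ PR u d (a, false) (b, ε) := by
  rcases ha with ha | ha
  · obtain ⟨b, ε, h1, h2, h3⟩ := exists_end_d hd hu hdN huN haN ha (fun h => hne ⟨ha, h⟩)
    exact ⟨b, ε, h1, h2.symm, h3.swap⟩
  · exact exists_end_d hu hd huN hdN haN ha (fun h => hne ⟨h, ha⟩)

/-- The component of a node which is fixed by both involutions. -/
theorem PR.eq_of_fix {u d : St} {a b : ℕ} {ε δ : Bool} (h1 : u.1 a = a) (h2 : d.1 a = a)
    (h : PR u d (a, ε) (b, δ)) : b = a := by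
  have key : ∀ c : ℕ × Bool, PR u d (a, ε) c → c.1 = a := by
    intro c hc
    induction hc with
    | refl => rfl
    | @tail b c _ hbc ih =>
      rcases hbc with ⟨e, -⟩ | ⟨e, -⟩
      · rw [e, ih, h1]
      · rw [e, ih, h2]
  exact key _ h

namespace TriG

variable {n : ℕ} {s : St} {p : ℕ → ℕ}

theorem dn_n (hs : IsAnn (n + 1) s) : (dnO n s).1 n = n := by
  show Equiv.swap n (n + 2) (s.1 (Equiv.swap n (n + 2) n)) = n
  rw [Equiv.swap_apply_left, hs.nc.out (n + 2) (by omega), Equiv.swap_apply_right]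

theorem dn_n1 (hs : IsAnn (n + 1) s) : (dnO n s).1 (n + 1) = n + 1 := by
  show Equiv.swap n (n + 2) (s.1 (Equiv.swap n (n + 2) (n + 1))) = n + 1
  have e : Equiv.swap n (n + 2) (n + 1) = n + 1 :=
    Equiv.swap_apply_of_ne_of_ne (by omega) (by omega)
  rw [e, hs.nc.out (n + 1) (by omega), e]

theorem dn_n2 (hs : IsAnn (n + 1) s) : (dnO n s).1 (n + 2) < n := by
  show Equiv.swap n (n + 2) (s.1 (Equiv.swap n (n + 2) (n + 2))) < n
  rw [Equiv.swap_apply_right]
  have h1 := hs.nc.lt n (by omega)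
  have h2 := hs.nc.ne n (by omega)
  rw [Equiv.swap_apply_of_ne_of_ne h2 (by omega)]
  omega

theorem dn_lt (hs : IsAnn (n + 1) s) {x : ℕ} (hx : x < n) :
    (dnO n s).1 x ≠ x ∧ (dnO n s).1 x < n + 3 := by
  have e : (dnO n s).1 x = Equiv.swap n (n + 2) (s.1 x) := by
    show Equiv.swap n (n + 2) (s.1 (Equiv.swap n (n + 2) x)) = _
    have e1 : Equiv.swap n (n + 2) x = x := Equiv.swap_apply_of_ne_of_ne (by omega) (by omega)
    rw [e1]
  have h1 := hs.nc.lt x (by omega)
  have h2 := hs.nc.ne x (by omega)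
  rw [e]
  rcases Nat.lt_or_ge (s.1 x) n with h3 | h3
  · rw [Equiv.swap_apply_of_ne_of_ne (by omega) (by omega)]
    exact ⟨h2, by omega⟩
  · rw [show s.1 x = n by omega, Equiv.swap_apply_left]
    exact ⟨by omega, by omega⟩

theorem dn_range (hs : IsAnn (n + 1) s) : ∀ x < n + 3, (dnO n s).1 x < n + 3 := by
  intro x hx
  rcases Nat.lt_or_ge x n with h | h
  · exact (dn_lt hs h).2
  · rcases Nat.lt_or_ge x (n + 1) with h1 | h1
    · rw [show x = n by omega, dn_n hs]; omega
    · rcases Nat.lt_or_ge x (n + 2) with h2 | h2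
      · rw [show x = n + 1 by omega, dn_n1 hs]; omega
      · have := dn_n2 hs
        rw [show x = n + 2 by omega]; omega

theorem up_range (hp : NCO (n + 2) p) : ∀ x < n + 3, (upO p).1 x < n + 3 := by
  intro x hx
  show p x < n + 3
  rcases Nat.lt_or_ge x (n + 2) with h | h
  · have := hp.lt x h; omega
  · rw [hp.out x h]; exact hx

/-- The ends. -/
theorem ends (hs : IsAnn (n + 1) s) (hp : NCO (n + 2) p) {x : ℕ} (hx : x < n + 3)
    (h : (upO p).1 x = x ∨ (dnO n s).1 x = x) : x = thr p ∨ x = n ∨ x = n + 1 ∨ x = n + 2 := by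
  rcases h with h | h
  · have h' : p x = x := h
    rcases Nat.lt_or_ge x (n + 2) with h1 | h1
    · exact Or.inl ((hp.eq_thr_iff h1).1 h')
    · omega
  · rcases Nat.lt_or_ge x n with h1 | h1
    · exact absurd h (dn_lt hs h1).1
    · omega

theorem PR_lt {N : ℕ} {u d : St} (huN : ∀ x < N, u.1 x < N) (hdN : ∀ x < N, d.1 x < N)
    {a b : ℕ × Bool} (ha : a.1 < N) (h : PR u d a b) : b.1 < N := by
  induction h with
  | refl => exact ha
  | @tail b c _ hbc ih =>
    rcases hbc with ⟨e, -⟩ | ⟨e, -⟩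
    · rw [e]; exact huN _ ih
    · rw [e]; exact hdN _ ih

end TriG

open TriG in
/-- Two of the three `D`-nodes are joined, and they are not joined to the through line. -/
theorem exists_joined {n : ℕ} {s : St} {p : ℕ → ℕ} (hs : IsAnn (n + 1) s)
    (hp : NCO (n + 2) p) :
    ∃ a b ε, n ≤ a ∧ a < n + 3 ∧ n ≤ b ∧ b < n + 3 ∧ a ≠ b ∧
      PR (upO p) (dnO n s) (a, false) (b, ε) ∧
      ∀ δ, ¬ PR (upO p) (dnO n s) (a, false) (thr p, δ) := by
  have hu := LInv.upO hp
  have hd := (LInv.ann hs).dnO n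
  have huN := up_range hp
  have hdN := dn_range hs
  have htl := hp.thr_lt
  have htf : (upO p).1 (thr p) = thr p := hp.thr_fix
  have e0 := dn_n hs
  have e1 := dn_n1 hs
  have e2 : (upO p).1 (n + 2) = n + 2 := hp.out (n + 2) le_rfl
  -- the other end of a node
  have other : ∀ a, a < n + 3 → ((upO p).1 a = a ∨ (dnO n s).1 a = a) →
      ¬ ((upO p).1 a = a ∧ (dnO n s).1 a = a) →
      ∃ b ε, b ≠ a ∧ (b = thr p ∨ b = n ∨ b = n + 1 ∨ b = n + 2) ∧
        PR (upO p) (dnO n s) (a, false) (b, ε) := by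
    intro a ha h1 h2
    obtain ⟨b, ε, h3, h4, h5⟩ := PR.exists_end hu hd huN hdN ha h1 h2
    exact ⟨b, ε, h3, ends hs hp (PR_lt huN hdN ha h5) h4, h5⟩
  -- a node which is joined to another `D`-node is not joined to the through line
  have good : ∀ a b ε, a < n + 3 → ((upO p).1 a = a ∨ (dnO n s).1 a = a) →
      ((upO p).1 b = b ∨ (dnO n s).1 b = b) → a ≠ b → a ≠ thr p → b ≠ thr p →
      PR (upO p) (dnO n s) (a, false) (b, ε) →
      ∀ δ, ¬ PR (upO p) (dnO n s) (a, false) (thr p, δ) := by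
    intro a b ε ha h1 h2 h3 h4 h5 h6 δ h7
    rcases PR.two_ends hu hd huN hdN ha h1 h2 (Or.inl htf) h6 h7 with h | h | h
    · exact h3 h
    · exact h4 h
    · exact h5 h
  have E0 : (upO p).1 n = n ∨ (dnO n s).1 n = n := Or.inr e0
  have E1 : (upO p).1 (n + 1) = n + 1 ∨ (dnO n s).1 (n + 1) = n + 1 := Or.inr e1
  have E2 : (upO p).1 (n + 2) = n + 2 ∨ (dnO n s).1 (n + 2) = n + 2 := Or.inl e2
  have thrOf : ∀ x < n + 2, (upO p).1 x = x → x = thr p := fun x hx h => (hp.eq_thr_iff hx).1 h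
  rcases eq_or_ne (thr p) n with ht | ht
  · -- the through line is the node `n`
    obtain ⟨b, ε, h1, h2, h3⟩ := other (n + 1) (by omega) E1
      (fun h => by have := thrOf (n + 1) (by omega) h.1; omega)
    have hb : b = n + 2 := by
      rcases h2 with h2 | h2 | h2 | h2
      · exfalso
        have h4 := PR.symm hu hd h3
        rw [h2] at h4
        have h5 := PR.eq_of_fix htf (by rw [ht]; exact e0) h4
        omega
      · exfalso
        have h4 := PR.symm hu hd h3
        rw [h2, ← ht] at h4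
        have h5 := PR.eq_of_fix htf (by rw [ht]; exact e0) h4
        omega
      · exact absurd h2 h1
      · exact h2
    subst hb
    exact ⟨n + 1, n + 2, ε, by omega, by omega, by omega, by omega, by omega, h3,
      good _ _ ε (by omega) E1 E2 (by omega) (by omega) (by omega) h3⟩
  · obtain ⟨b, ε, h1, h2, h3⟩ := other n (by omega) E0
      (fun h => by have := thrOf n (by omega) h.1; omega)
    by_cases hb : b = thr p
    · -- the node `n` is joined to the through line
      rcases eq_or_ne (thr p) (n + 1) with ht' | ht'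
      · exfalso
        have h4 := PR.symm hu hd h3
        rw [hb] at h4
        have h5 := PR.eq_of_fix htf (by rw [ht']; exact e1) h4
        omega
      obtain ⟨b', ε', h1', h2', h3'⟩ := other (n + 1) (by omega) E1
        (fun h => by have := thrOf (n + 1) (by omega) h.1; omega)
      by_cases hb' : b' = thr p
      · exfalso
        rw [hb] at h3
        rw [hb'] at h3'
        have h4 := (PR.symm hu hd h3).add ε
        have h5 := (PR.symm hu hd h3').add ε'
        simp only [Bool.xor_self, Bool.false_xor] at h4 h5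
        rcases PR.two_ends hu hd huN hdN (by omega) (Or.inl htf) E0 E1 h4 h5 with h | h | h
        · exact ht h
        · exact ht' h
        · omega
      · have hbD : b' = n ∨ b' = n + 2 := by
          rcases h2' with h | h | h | h
          · exact absurd h hb'
          · exact Or.inl h
          · exact absurd h h1'
          · exact Or.inr h
        have hbE : (upO p).1 b' = b' ∨ (dnO n s).1 b' = b' := by
          rcases hbD with h | h
          · rw [h]; exact E0
          · rw [h]; exact E2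
        exact ⟨n + 1, b', ε', by omega, by omega, by omega, by omega, h1'.symm, h3',
          good _ _ ε' (by omega) E1 hbE h1'.symm (fun h => ht' h.symm) hb' h3'⟩
    · have hbD : b = n + 1 ∨ b = n + 2 := by
        rcases h2 with h | h | h | h
        · exact absurd h hb
        · exact absurd h h1
        · exact Or.inl h
        · exact Or.inr h
      have hbE : (upO p).1 b = b ∨ (dnO n s).1 b = b := by
        rcases hbD with h | h
        · rw [h]; exact E1
        · rw [h]; exact E2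
      exact ⟨n, b, ε, by omega, by omega, by omega, by omega, h1.symm, h3,
        good _ _ ε (by omega) E0 hbE h1.symm (fun h => ht h.symm) hb h3⟩

end Pool.Agent.Perc

end Partperc3TriG

section Partperc6Defs

/-!
# Almost sure lower bound for the outer boundary: definitions

The band `|y - h| ≤ w`, the ray (the faces of the band to the right of a point), the slit regions,
the tags (rightmost vertex of a cluster in the band), the two strands of a pair of boundary unit
edges, the windows and the successes.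
-/

set_option autoImplicit false

namespace Pool.Agent.Perc6

open Finset Pool.Agent.Perc Pool.Agent.PercD Pool.Agent.PercL

/-! ### Potentials in general regions -/

/-- The corners of the faces of `F`. -/
def VF (F : Set (ℤ × ℤ)) : Set (ℤ × ℤ) := {w | ∃ f ∈ F, IsCor f w}

/-- `Φ` changes exactly across the unit edges of `M` (sides of faces of `F`). -/
def IsPot (F : Set (ℤ × ℤ)) (M : Set UE) (Φ : ℤ × ℤ → ZMod 2) : Prop :=
  ∀ f ∈ F, ∀ a, IsSide f a → (a ∈ M ↔ Φ (ua a) ≠ Φ (ub a))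

/-- Every set of unit edges which is even in the faces of `F` has a potential. -/
def HasPot (F : Set (ℤ × ℤ)) : Prop :=
  ∀ M : Set UE, (∀ f ∈ F, EvenAt M f) → ∃ Φ : ℤ × ℤ → ZMod 2, IsPot F M Φ

/-- The faces visited by the two strands. -/
def S2 (ω : Cfg) (F : Set (ℤ × ℤ)) (e e' : UE) : Set (ℤ × ℤ) := SS ω F e ∪ SS ω F e'

/-- The two strands of `e` and `e'` in `F`: `u`, `u'` are the ends of the colour of the cluster
(colour P), `v`, `v'` the other ends (colour D). Sectors: `Φ = Ψ = 0` (upper D sector, contains `v`),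
`Φ = 1, Ψ = 0` (P sector, contains `u` and `u'`), `Φ = Ψ = 1` (lower D sector, contains `v'`). -/
structure Duo (ω : Cfg) (F : Set (ℤ × ℤ)) (e e' : UE) (u v u' v' : ℤ × ℤ)
    (Φ Ψ : ℤ × ℤ → ZMod 2) : Prop where
  potE : IsPot F (MM ω F e) Φ
  potE' : IsPot F (MM ω F e') Ψ
  side : ∃ f ∈ F, IsSide f e
  side' : ∃ f ∈ F, IsSide f e'
  je : Joins e u v
  je' : Joins e' u' v'
  par_eq : par u = par u'
  Φu : Φ u = 1
  Φv : Φ v = 0
  Φu' : Φ u' = 1
  Φv' : Φ v' = 1
  Ψu : Ψ u = 0
  Ψv : Ψ v = 0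
  Ψu' : Ψ u' = 0
  Ψv' : Ψ v' = 1

/-! ### Regions -/

/-- The faces of the band `h - w ≤ y ≤ h + w` to the right of `X`. -/
def Ray (h w X : ℤ) : Set (ℤ × ℤ) := {f | X ≤ f.1 ∧ h - w ≤ f.2 ∧ f.2 < h + w}

/-- The box of radius `RB` around `(cB, h)` without the box of radius `R` around `(c, h)` and
without the ray to the right of this box. -/
def Slit (h w cB RB c R : ℤ) : Set (ℤ × ℤ) :=
  {f | f ∈ BR (cB, h) RB ∧ f ∉ BR (c, h) R ∧ f ∉ Ray h w (c + R)}

/-- The box of radius `RB` around `(cB, h)` without the ray to the right of `X`. -/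
def Notch (h w cB RB X : ℤ) : Set (ℤ × ℤ) := {f | f ∈ BR (cB, h) RB ∧ f ∉ Ray h w X}

/-- The boundary vertices of the box of radius `R` around `(c, h)`, counterclockwise from
`(c + R, h + w)` to `(c + R, h - w)`, `0 ≤ k ≤ 8 R - 2 w`. -/
def cyc (c h w R k : ℤ) : ℤ × ℤ :=
  if k ≤ R - w then (c + R, h + w + k)
  else if k ≤ 3 * R - w then (c + 2 * R - w - k, h + R)
  else if k ≤ 5 * R - w then (c - R, h + 4 * R - w - k)
  else if k ≤ 7 * R - w then (c - 6 * R + w + k, h - R)
  else (c + R, h - 8 * R + w + k)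

/-- The unit edge from `cyc k` to `cyc (k + 1)`, `0 ≤ k < 8 R - 2 w`. -/
def cycE (c h w R k : ℤ) : UE :=
  if k < R - w then (c + R, h + w + k, true)
  else if k < 3 * R - w then (c + 2 * R - w - k - 1, h + R, false)
  else if k < 5 * R - w then (c - R, h + 4 * R - w - k - 1, true)
  else if k < 7 * R - w then (c - 6 * R + w + k, h - R, false)
  else (c + R, h - 8 * R + w + k, true)

/-- The length of the boundary. -/
def len (w R : ℤ) : ℤ := 8 * R - 2 * w

/-! ### Tags -/

/-- `X` is the tag of its cluster in the box of radius `R` around `(c, h)`: the cluster reaches the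
boundary of the box and `X` is its rightmost (then topmost) vertex in the band. -/
def TagEv (h w c R : ℤ) (X : ℤ × ℤ) : Set Cfg :=
  {ω | (∃ y, Conn ω (BR (c, h) R) X y ∧ OnBd (c - R) (c + R) (h - R) (h + R) y) ∧
    ∀ y, Conn ω (BR (c, h) R) X y → h - w ≤ y.2 → y.2 ≤ h + w →
      y.1 < X.1 ∨ (y.1 = X.1 ∧ y.2 ≤ X.2)}

/-- The unit edge to the right of `X`. -/
def tagE (X : ℤ × ℤ) : UE := (X.1, X.2, false)

/-- The vertices of colour `col` of the band with first coordinate in `[x₁, x₂)`. -/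
noncomputable def BandV (col h w x₁ x₂ : ℤ) : Finset (ℤ × ℤ) :=
  ((Ico x₁ x₂) ×ˢ (Icc (h - w) (h + w))).filter fun X => par X = col

/-- Pairs of boundary unit edges with the right colours. -/
noncomputable def KP (col cB h w RB : ℤ) : Finset (ℤ × ℤ) :=
  ((Ico 0 (len w RB)) ×ˢ (Ico 0 (len w RB))).filter fun k => k.1 < k.2 ∧
    par (cyc cB h w RB k.1) ≠ col ∧ par (cyc cB h w RB k.2) = col

/-- The strand of the tag unit edge of `X` leaves the box through the unit edges `k.1`, `k.2`. -/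
def Exit (h w cB RB : ℤ) (X k : ℤ × ℤ) : Set Cfg :=
  {ω | cycE cB h w RB k.1 ∈ MM ω (BR (cB, h) RB) (tagE X) ∧
    cycE cB h w RB k.2 ∈ MM ω (BR (cB, h) RB) (tagE X)}

/-- The strands of the pair reach the box of radius `R` around `(c, h)`. -/
def Gev (h w cB RB c R : ℤ) (k : ℤ × ℤ) : Set Cfg :=
  {ω | (∃ τ, 0 ≤ τ ∧ τ < len w R ∧
      cycE c h w R τ ∈ MM ω (Slit h w cB RB c R) (cycE cB h w RB k.1)) ∧
    (∃ τ, 0 ≤ τ ∧ τ < len w R ∧
      cycE c h w R τ ∈ MM ω (Slit h w cB RB c R) (cycE cB h w RB k.2))}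

/-- The tips are separated (`a` is the mesh). -/
def SepEv (h w cB RB c R a : ℤ) (k : ℤ × ℤ) : Set Cfg :=
  {ω | ∃ τ τ', 3 * a ≤ τ ∧ τ + 8 * a ≤ τ' ∧ τ' + 3 * a ≤ len w R ∧
    cycE c h w R τ ∈ MM ω (Slit h w cB RB c R) (cycE cB h w RB k.1) ∧
    cycE c h w R τ' ∈ MM ω (Slit h w cB RB c R) (cycE cB h w RB k.2)}

/-! ### Windows -/

/-- `p` is joined in the box `[x, x + s] × [y, y + s]` to the left, right or upper side. -/
def Rim (ω : Cfg) (x y s : ℤ) (p : ℤ × ℤ) : Prop :=
  ∃ z, Conn ω (RF x (x + s) y (y + s)) p z ∧ (z.1 = x ∨ z.1 = x + s ∨ z.2 = y + s)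

/-- The closed square `t` of mesh `η` of the box contains no vertex of colour `col` which is joined
to the left, right or upper side. -/
def FreeSq (ω : Cfg) (col x y s η : ℤ) (t : ℤ × ℤ) : Prop :=
  (0 ≤ t.1 ∧ η * (t.1 + 1) ≤ s ∧ 0 ≤ t.2 ∧ η * (t.2 + 1) ≤ s) ∧
    ∀ p : ℤ × ℤ, x + η * t.1 ≤ p.1 → p.1 ≤ x + η * (t.1 + 1) → y + η * t.2 ≤ p.2 →
      p.2 ≤ y + η * (t.2 + 1) → par p = col → ¬ Rim ω x y s p

/-- Neighbouring free squares. -/
def SqStep (ω : Cfg) (col x y s η : ℤ) (t t' : ℤ × ℤ) : Prop :=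
  ((t.1 = t'.1 ∧ |t.2 - t'.2| = 1) ∨ (t.2 = t'.2 ∧ |t.1 - t'.1| = 1)) ∧
    FreeSq ω col x y s η t ∧ FreeSq ω col x y s η t'

/-- A window is the box `[x, x + 4 μ] × [y, y + 4 μ]` with `μ = M q η`; the cell `z` of the window
(`0 ≤ z.1, z.2 < 2 M`) is the square of side `q η` with lower left corner
`(x + μ + q η z.1, y + μ + q η z.2)`. -/
def InCell (x y M q η : ℤ) (z p : ℤ × ℤ) : Prop :=
  x + q * η * (M + z.1) ≤ p.1 ∧ p.1 ≤ x + q * η * (M + z.1 + 1) ∧
    y + q * η * (M + z.2) ≤ p.2 ∧ p.2 ≤ y + q * η * (M + z.2 + 1)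

/-- The cell `z` of the window is joined to the lower side by a chain of free squares. -/
def Seen (ω : Cfg) (col x y M q η : ℤ) (z : ℤ × ℤ) : Prop :=
  ∃ t t' : ℤ × ℤ, (q * (M + z.1) ≤ t.1 ∧ t.1 < q * (M + z.1 + 1) ∧ q * (M + z.2) ≤ t.2 ∧
      t.2 < q * (M + z.2 + 1)) ∧ t'.2 = 0 ∧ FreeSq ω col x y (4 * (M * q * η)) η t ∧
    Relation.ReflTransGen (SqStep ω col x y (4 * (M * q * η)) η) t t'

/-- The cell `z` contains a unit edge whose end of colour `col` is joined to the upper side, whose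
other end is joined to the lower side, and it is seen from the lower side. -/
def OccAt (ω : Cfg) (col x y M q η : ℤ) (z : ℤ × ℤ) : Prop :=
  (∃ (b : UE) (p p' : ℤ × ℤ), Joins b p p' ∧ par p = col ∧ InCell x y M q η z p ∧
    InCell x y M q η z p' ∧
    (∃ t, Conn ω (RF x (x + 4 * (M * q * η)) y (y + 4 * (M * q * η))) p t ∧
      t.2 = y + 4 * (M * q * η)) ∧
    (∃ t, Conn ω (RF x (x + 4 * (M * q * η)) y (y + 4 * (M * q * η))) p' t ∧ t.2 = y)) ∧
  Seen ω col x y M q η z

/-- The indices of the cells. -/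
noncomputable def IM (M : ℤ) : Finset (ℤ × ℤ) := Ico 0 (2 * M) ×ˢ Ico 0 (2 * M)

/-- Sup-distance of indices, at least `1`. -/
noncomputable def dsup (z z' : ℤ × ℤ) : ℝ := max (max |((z.1 - z'.1 : ℤ) : ℝ)| |((z.2 - z'.2 : ℤ) : ℝ)|) 1

/-- The set `Z` of indices carries a probability measure of `s`-energy at most `A` (in units of the
window). -/
def GoodW (s A : ℝ) (M : ℤ) (Z : Set (ℤ × ℤ)) : Prop :=
  ∃ c : ℤ × ℤ → ℝ, (∀ z, 0 ≤ c z) ∧ (∀ z, z ∉ Z → c z = 0) ∧ ∑ z ∈ IM M, c z = 1 ∧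
    ∑ z ∈ IM M, ∑ z' ∈ IM M, c z * c z' * dsup z z' ^ (-s) ≤ A * (M : ℝ) ^ (-s)

/-- The input from the three-leg estimates. `𝒫` and `𝒟` are arbitrary increasing events (walls) of
the two colours; inside the window they use only faces in the upper quarter, the lower eighth. -/
def OccHyp (col : ℤ) : Prop :=
  ∀ s : ℝ, 0 < s → s < 4 / 3 → ∀ δ : ℝ, 0 < δ → ∃ (κ A : ℝ) (M₀ : ℕ), 0 < κ ∧ 1 ≤ M₀ ∧
    ∀ M : ℕ, M₀ ≤ M → ∃ q n₀ : ℕ, 1 ≤ q ∧ ∀ (η x y : ℤ), (n₀ : ℤ) ≤ η → 1 ≤ η →
    ∀ (W SP SD : Finset (ℤ × ℤ))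
      (P D : Set Cfg),
      RF x (x + 4 * (M * q * η)) y (y + 4 * (M * q * η)) ⊆ W → SP ⊆ W → SD ⊆ W → Disjoint SP SD →
      DepOn SP P → DepOn SD D → IncD (parD col) P → IncD (parD (col + 1)) D →
      (∀ f ∈ SP, f ∈ RF x (x + 4 * (M * q * η)) y (y + 4 * (M * q * η)) →
        y + 3 * (M * q * η) ≤ f.2) →
      (∀ f ∈ SD, f ∈ RF x (x + 4 * (M * q * η)) y (y + 4 * (M * q * η)) →
        2 * f.2 < 2 * y + M * q * η) →
      δ ≤ pr W P → δ ≤ pr W D →
      κ ≤ pr W (P ∩ D ∩ {ω | GoodW s A M {z | OccAt ω col x y M q η z}})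

/-- Success for the pair `k` at the cell with centre `c` and half length `μ = M q η`: the strand of
`k.1` meets many cells of the window which are seen from the ray. The window is
`[c + 8 μ, c + 12 μ] × [h + w, h + w + 4 μ]`. -/
def LS (col h w cB RB c M q η : ℤ) (s A : ℝ) (k : ℤ × ℤ) : Set Cfg :=
  {ω | GoodW s A M {z | (∃ (b : UE) (p p' : ℤ × ℤ), Joins b p p' ∧
      InCell (c + 8 * (M * q * η)) (h + w) M q η z p ∧
      InCell (c + 8 * (M * q * η)) (h + w) M q η z p' ∧
      b ∈ MM ω (Slit h w cB RB c (4 * (M * q * η))) (cycE cB h w RB k.1)) ∧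
    Seen ω col (c + 8 * (M * q * η)) (h + w) M q η z}}

/-- Success for the cluster of `X` at the cell with centre `c` and half length `μ = M q η`. -/
def SuccX (col h w cB RB c M q η : ℤ) (s A : ℝ) (X : ℤ × ℤ) : Set Cfg :=
  {ω | GoodW s A M {z | (∃ p : ℤ × ℤ, Conn ω (BR (cB, h) RB) X p ∧
      InCell (c + 8 * (M * q * η)) (h + w) M q η z p) ∧
    Seen ω col (c + 8 * (M * q * η)) (h + w) M q η z}}

/-! ### Levels -/

/-- The parameters: height `h` and half width `w` of the band, left end `x₀` of the segment, colour,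
unit `b`, mesh number `N`, ratio `L`, numbers `M`, `q` of the cells, `m` levels. -/
structure Geo where
  h : ℤ
  w : ℤ
  x₀ : ℤ
  col : ℤ
  b : ℤ
  N : ℤ
  L : ℕ
  M : ℕ
  q : ℕ
  m : ℕ

namespace Geo

variable (g : Geo)

/-- The mesh of the corridors at level `j`. -/
def a (j : ℕ) : ℤ := g.M * g.q * g.b * (g.L : ℤ) ^ j
/-- The mesh of the small squares at level `j`. -/
def η (j : ℕ) : ℤ := g.N * g.b * (g.L : ℤ) ^ j
/-- The half length of the cells of level `j`. -/
def μ (j : ℕ) : ℤ := g.M * g.q * g.η j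
/-- The centre of the cell `i` of level `j`. -/
def cen (j : ℕ) (i : ℤ) : ℤ := g.x₀ + (2 * i + 1) * g.μ j
/-- The centre of the large box. -/
def cB : ℤ := g.cen g.m 0
/-- The radius of the large box. -/
def RB : ℤ := 32 * g.μ g.m
/-- The faces of the large box. -/
noncomputable def B : Finset (ℤ × ℤ) := BR (g.cB, g.h) g.RB
/-- The index of the ancestor of level `j'` of the cell `i` of level `j`. -/
def anc (j : ℕ) (i : ℤ) (j' : ℕ) : ℤ := i / (g.L : ℤ) ^ (j' - j)

/-- The admissible parameters. -/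
structure Ok : Prop where
  w1 : 1 ≤ g.w
  wa : g.w ≤ g.a 0
  col01 : g.col = 0 ∨ g.col = 1
  b1 : 1 ≤ g.b
  N8 : 8 ≤ g.N
  L64 : 64 ≤ g.L
  M1 : 1 ≤ g.M
  q1 : 1 ≤ g.q
  m1 : 2 ≤ g.m

/-- The pairs of exits. -/
noncomputable def K : Finset (ℤ × ℤ) := KP g.col g.cB g.h g.w g.RB

/-- The strands of the pair `k` reach the box of the cell `(j, i)`. -/
def G (j : ℕ) (i : ℤ) (k : ℤ × ℤ) : Set Cfg := Gev g.h g.w g.cB g.RB (g.cen j i) (32 * g.μ j) k

/-- The tips are separated. -/
def Sep (j : ℕ) (i : ℤ) (k : ℤ × ℤ) : Set Cfg :=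
  SepEv g.h g.w g.cB g.RB (g.cen j i) (32 * g.μ j) (g.a j) k

/-- Success at the cell `(j, i)`. -/
def Ls (s A : ℝ) (j : ℕ) (i : ℤ) (k : ℤ × ℤ) : Set Cfg :=
  LS g.col g.h g.w g.cB g.RB (g.cen j i) g.M g.q (g.η j) s A k

/-- No success at the strict ancestors of the cell `(j, i)`. -/
def NS (s A : ℝ) (j : ℕ) (i : ℤ) (k : ℤ × ℤ) : Set Cfg :=
  {ω | ∀ j', j < j' → j' < g.m → ω ∉ g.Ls s A j' (g.anc j i j') k}

/-- The tags of the cell `(j, i)` in its own box. -/
def T0 (j : ℕ) (i : ℤ) (X : ℤ × ℤ) : Set Cfg := TagEv g.h g.w (g.cen j i) (32 * g.μ j) X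

/-- The vertices of the cell `(j, i)` of the band. -/
noncomputable def Vs (j : ℕ) (i : ℤ) : Finset (ℤ × ℤ) :=
  BandV g.col g.h g.w (g.x₀ + 2 * i * g.μ j) (g.x₀ + 2 * (i + 1) * g.μ j)

/-- Some tag in the cell `(j, i)` has the exits `k`, the first success (from outside) is at `(j, i)`. -/
def Fs (s A : ℝ) (j : ℕ) (i : ℤ) (k : ℤ × ℤ) : Set Cfg :=
  {ω | (∃ X ∈ g.Vs j i, ω ∈ TagEv g.h g.w g.cB g.RB X ∧ ω ∈ Exit g.h g.w g.cB g.RB X k) ∧
    ω ∈ g.NS s A j i k ∧ ω ∈ g.Ls s A j i k}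

/-- The cells of level `j`. -/
noncomputable def Is (j : ℕ) : Finset ℤ := Ico 0 ((g.L : ℤ) ^ (g.m - j))

end Geo

end Pool.Agent.Perc6

end Partperc6Defs

section Partperc6BcTop

/-!
# Paths away from the cluster and chains of dyadic squares
-/

set_option autoImplicit false

namespace Pool.Agent.PercBc

open Filter Topology Relation
open Pool.Agent.Perc Pool.Agent.Perc.PercD Pool.Agent.PercD Pool.Agent.PercS5

variable {T : Finset Edg} {u : ℤ × ℤ} {ρ : ℝ} {w w' z : ℂ} {n p m : ℕ}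

/-- No vertex of the cluster of `u` is at distance at most `ρ` from `w` (coordinates turned by 45
degrees). -/
def NoV (T : Finset Edg) (u : ℤ × ℤ) (ρ : ℝ) (w : ℂ) : Prop :=
  ∀ v ∈ clV T u, ρ < |w.re + w.im - ((v.1 : ℝ) + v.2)| ∨ ρ < |w.re - w.im - ((v.1 : ℝ) - v.2)|

/-- All points of the segment are far from the cluster. -/
def Lk (T : Finset Edg) (u : ℤ × ℤ) (ρ : ℝ) (w w' : ℂ) : Prop := ∀ z ∈ segment ℝ w w', NoV T u ρ z

theorem near_clV (hz : z ∈ clS T u) : ∃ v ∈ clV T u, |z.re - v.1| + |z.im - v.2| ≤ 1 := by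
  rw [BoxAux.mem_clS] at hz
  rcases hz with ⟨v, hv, rfl⟩ | ⟨⟨a, b, t⟩, he, hv, hz⟩
  · exact ⟨v, hv, by simp [toC]⟩
  · refine ⟨_, hv, ?_⟩
    cases t
    · have hz' : z ∈ segment ℝ (toC (a, b)) (toC (a + 1, b)) := by simpa [tl, hd] using hz
      obtain ⟨h1, h2, h3⟩ := DictC.seg_h hz'
      simp only [tl]
      rw [h3, sub_self, abs_zero, add_zero, abs_le]
      constructor <;> linarith
    · have hz' : z ∈ segment ℝ (toC (a, b)) (toC (a, b + 1)) := by simpa [tl, hd] using hz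
      obtain ⟨h1, h2, h3⟩ := DictC.seg_v hz'
      simp only [tl]
      rw [h1, sub_self, abs_zero, zero_add, abs_le]
      constructor <;> linarith

theorem NoV.not_mem {d : ℝ} (hρ : 1 + d ≤ ρ) (h : NoV T u ρ w)
    (hz : |z.re - w.re| + |z.im - w.im| ≤ d) : z ∉ clS T u := by
  intro hcl
  obtain ⟨v, hv, hzv⟩ := near_clV hcl
  have h1 := abs_le.1 (le_refl |z.re - w.re|)
  have h2 := abs_le.1 (le_refl |z.im - w.im|)
  have h3 := abs_le.1 (le_refl |z.re - v.1|)
  have h4 := abs_le.1 (le_refl |z.im - v.2|)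
  rcases h v hv with hh | hh
  · rw [lt_abs] at hh
    rcases hh with hh | hh <;> linarith [h1.1, h1.2, h2.1, h2.2, h3.1, h3.2, h4.1, h4.2]
  · rw [lt_abs] at hh
    rcases hh with hh | hh <;> linarith [h1.1, h1.2, h2.1, h2.2, h3.1, h3.2, h4.1, h4.2]

theorem NoV.not_mem' (hρ : 1 ≤ ρ) (h : NoV T u ρ w) : w ∉ clS T u :=
  h.not_mem (d := 0) (by linarith) (by simp)

theorem NoV.freeO (hn : 0 < n) (hρ : 1 + 4 * n / 2 ^ p ≤ ρ) (h : NoV T u ρ w) {a : ℤ × ℤ}
    (ha : w / n ∈ cbox p a) : FreeO p (perK n T u : Set ℂ) a := by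
  refine Set.disjoint_left.2 ?_
  rintro z hz ⟨x, hx, rfl⟩
  have hn0 : (0 : ℝ) < n := by exact_mod_cast hn
  have hp : (0 : ℝ) < 2 ^ p := by positivity
  refine h.not_mem (d := 4 * n / 2 ^ p) hρ ?_ (frontier_outU_sub T u hx)
  have h1 : |(x / (n : ℂ)).re - a.1 / 2 ^ p| < 1 / 2 ^ p := hz.1
  have h2 : |(x / (n : ℂ)).im - a.2 / 2 ^ p| < 1 / 2 ^ p := hz.2
  have h3 : |(w / (n : ℂ)).re - a.1 / 2 ^ p| ≤ 1 / 2 ^ p := ha.1
  have h4 : |(w / (n : ℂ)).im - a.2 / 2 ^ p| ≤ 1 / 2 ^ p := ha.2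
  rw [Complex.div_natCast_re] at h1 h3
  rw [Complex.div_natCast_im] at h2 h4
  have key : ∀ s t c : ℝ, |s / n - c| < 1 / 2 ^ p → |t / n - c| ≤ 1 / 2 ^ p →
      |s - t| ≤ 2 * n / 2 ^ p := by
    intro s t c h5 h6
    have h7 : |s / n - t / n| ≤ 2 / 2 ^ p := by
      have e : s / n - t / n = (s / n - c) - (t / n - c) := by ring
      rw [e]
      refine (abs_sub _ _).trans ?_
      have e2 : (2 : ℝ) / 2 ^ p = 1 / 2 ^ p + 1 / 2 ^ p := by ring
      linarith
    have e : s - t = n * (s / n - t / n) := by field_simp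
    rw [e, abs_mul, abs_of_pos hn0]
    calc (n : ℝ) * |s / n - t / n| ≤ n * (2 / 2 ^ p) := mul_le_mul_of_nonneg_left h7 hn0.le
      _ = 2 * n / 2 ^ p := by ring
  have h5 := key _ _ _ h1 h3
  have h6 := key _ _ _ h2 h4
  have e : (4 : ℝ) * n / 2 ^ p = 2 * n / 2 ^ p + 2 * n / 2 ^ p := by ring
  linarith

theorem Lk.chain (hn : 0 < n) (hρ : 1 + 4 * n / 2 ^ p ≤ ρ) (h : Lk T u ρ w w') {a b : ℤ × ℤ}
    (ha : w / n ∈ cbox p a) (hb : w' / n ∈ cbox p b) :
    ReflTransGen (Stp (FreeO p (perK n T u : Set ℂ))) a b := by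
  refine conn_of_preconnected (S := (fun z : ℂ => z / n) '' segment ℝ w w') ?_ ?_
    ⟨w, left_mem_segment ℝ _ _, rfl⟩ ⟨w', right_mem_segment ℝ _ _, rfl⟩ ha hb
  · exact (convex_segment w w').isPreconnected.image _ (by fun_prop)
  · rintro _ ⟨z, hz, rfl⟩ a ha
    exact (h z hz).freeO hn hρ ha

theorem chain_rtg (hn : 0 < n) (hρ : 1 + 4 * n / 2 ^ p ≤ ρ) (hw : NoV T u ρ w)
    (h : ReflTransGen (Lk T u ρ) w w') {a b : ℤ × ℤ} (ha : w / n ∈ cbox p a)
    (hb : w' / n ∈ cbox p b) : ReflTransGen (Stp (FreeO p (perK n T u : Set ℂ))) a b := by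
  induction h generalizing b with
  | refl => exact near_conn (fun a ha => hw.freeO hn hρ ha) ha hb
  | @tail c d _ hs ih =>
    obtain ⟨e, he⟩ := exists_cbox p (c / n)
    exact (ih he).trans (hs.chain hn hρ he hb)

theorem Lk.out (hρ : 1 ≤ ρ) (h : Lk T u ρ w w') : w ∈ outU T u ↔ w' ∈ outU T u :=
  mem_outU_iff (convex_segment w w').isPreconnected (fun z hz => (h z hz).not_mem' hρ)
    (left_mem_segment ℝ _ _) (right_mem_segment ℝ _ _)

theorem out_rtg (hρ : 1 ≤ ρ) (h : ReflTransGen (Lk T u ρ) w w') :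
    w ∈ outU T u ↔ w' ∈ outU T u := by
  induction h with
  | refl => exact Iff.rfl
  | tail _ hs ih => exact ih.trans (hs.out hρ)

/-- The point at distance `t` in the direction of the ray. -/
noncomputable def rp (w : ℂ) (t : ℝ) : ℂ := ⟨w.re + t, w.im + t⟩

theorem out_ray (hρ : 1 ≤ ρ) (h : ∀ t : ℝ, 0 ≤ t → NoV T u ρ (rp w t)) : w ∈ outU T u := by
  set S : Set ℂ := (fun t : ℝ => rp w t) '' Set.Ici 0 with hS
  have hcont : Continuous fun t : ℝ => rp w t := by
    have e : (fun t : ℝ => rp w t) = fun t : ℝ => w + (t : ℂ) + (t : ℂ) * Complex.I := by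
      funext t
      apply Complex.ext <;> simp [rp]
    rw [e]
    fun_prop
  have hpre : IsPreconnected S := (convex_Ici (0 : ℝ)).isPreconnected.image _ hcont.continuousOn
  have hsub : S ⊆ (clS T u)ᶜ := by
    rintro _ ⟨t, ht, rfl⟩
    exact (h t ht).not_mem' hρ
  have hw : w ∈ S := ⟨0, Set.mem_Ici.2 le_rfl, by simp [rp]⟩
  intro hb
  have h1 : S ⊆ connectedComponentIn (clS T u)ᶜ w := hpre.subset_connectedComponentIn hw hsub
  obtain ⟨C, hC⟩ := (hb.subset h1).subset_closedBall (0 : ℂ)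
  have h2 : rp w (|w.re| + |C| + 1) ∈ S := ⟨_, Set.mem_Ici.2 (by positivity), rfl⟩
  have h3 := hC h2
  rw [mem_closedBall_zero_iff] at h3
  have h4 := Complex.re_le_norm (rp w (|w.re| + |C| + 1))
  have h5 := neg_abs_le w.re
  have h6 := le_abs_self C
  simp only [rp] at h4 h3
  linarith

theorem far_ray (hn : 0 < n) (hρ : 1 + 4 * n / 2 ^ p ≤ ρ)
    (h : ∀ t : ℝ, 0 ≤ t → NoV T u ρ (rp w t)) :
    ∃ b, Far p b ∧ ∀ a, w / n ∈ cbox p a →
      ReflTransGen (Stp (FreeO p (perK n T u : Set ℂ))) a b := by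
  have hn0 : (0 : ℝ) < n := by exact_mod_cast hn
  set t₀ : ℝ := |w.re| + 4 * n with ht₀
  have ht0 : 0 ≤ t₀ := by positivity
  have hL : Lk T u ρ w (rp w t₀) := by
    intro z hz
    obtain ⟨s, t, hs, ht, hst, rfl⟩ := hz
    have e : s • w + t • rp w t₀ = rp w (t * t₀) := by
      have hs' : s = 1 - t := by linarith
      subst hs'
      apply Complex.ext
      · simp [rp]; ring
      · simp [rp]; ring
    rw [e]
    exact h _ (by positivity)
  obtain ⟨b, hb⟩ := exists_cbox p (rp w t₀ / n)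
  refine ⟨b, ?_, fun a ha => hL.chain hn hρ ha hb⟩
  have hp : (1 : ℝ) ≤ 2 ^ p := one_le_pow₀ (by norm_num)
  have h1 := (mem_cbox.1 hb).1
  rw [Complex.div_natCast_re] at h1
  have h2 : (4 : ℝ) ≤ (rp w t₀).re / n := by
    rw [le_div_iff₀ hn0]
    simp only [rp]
    linarith [neg_abs_le w.re]
  have h3 : (4 : ℝ) * 2 ^ p ≤ (rp w t₀).re / n * 2 ^ p := mul_le_mul_of_nonneg_right h2 (by positivity)
  have h4 := (abs_le.1 h1).2
  left
  have h5 : (2 * 2 ^ p : ℝ) < b.1 := by linarith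
  have h6 : (2 * 2 ^ p : ℤ) < b.1 := by exact_mod_cast h5
  exact lt_of_lt_of_le h6 (le_abs_self _)

theorem meets_frontier {S U : Set ℂ} (hS : IsPreconnected S) (hU : IsOpen U)
    (h1 : (S ∩ U).Nonempty) (h2 : (S ∩ Uᶜ).Nonempty) : (S ∩ frontier U).Nonempty := by
  by_contra hcon
  rw [Set.not_nonempty_iff_eq_empty] at hcon
  have hfr : ∀ z ∈ S, z ∉ frontier U := fun z hz hf => by
    have : z ∈ S ∩ frontier U := ⟨hz, hf⟩
    rw [hcon] at this
    exact this
  have hcov : S ⊆ U ∪ (closure U)ᶜ := by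
    intro z hz
    by_cases hzU : z ∈ closure U
    · left
      by_contra hzn
      exact hfr z hz ⟨hzU, by rwa [hU.interior_eq]⟩
    · exact Or.inr hzU
  obtain ⟨z, hz, hzn⟩ := h2
  obtain ⟨x, -, hx1, hx2⟩ := hS U (closure U)ᶜ hU isClosed_closure.isOpen_compl hcov h1
    ⟨z, hz, fun hzc => hfr z hz ⟨hzc, by rwa [hU.interior_eq]⟩⟩
  exact hx2 (subset_closure hx1)

/-- A cell which contains a vertex of the cluster and the start of a free path to infinity. -/
theorem hitO_of (hn : 0 < n) (hρ : 1 + 4 * n / 2 ^ p ≤ ρ) {ζ v : ℤ × ℤ} (hv : v ∈ clV T u)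
    (hvc : toC v / n ∈ cbox m ζ) (hwc : w / n ∈ cbox m ζ)
    (hwp : ∀ a, w / n ∈ cbox p a → pt p a ∈ cbox m ζ) (hNo : NoV T u ρ w)
    (hch : ReflTransGen (Lk T u ρ) w w') (hray : ∀ t : ℝ, 0 ≤ t → NoV T u ρ (rp w' t)) :
    HitO p m (perK n T u : Set ℂ) ζ := by
  have hn0 : (0 : ℝ) < n := by exact_mod_cast hn
  have hnc : (n : ℂ) ≠ 0 := by exact_mod_cast hn.ne'
  have hρ1 : 1 ≤ ρ := le_trans (by
    have : (0 : ℝ) ≤ 4 * n / 2 ^ p := by positivity
    linarith) hρ
  have hout : w ∈ outU T u := (out_rtg hρ1 hch).2 (out_ray hρ1 hray)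
  constructor
  · -- a point of the frontier
    obtain ⟨x, hx, hxf⟩ := meets_frontier (S := segment ℝ w (toC v)) (U := outU T u)
      (convex_segment _ _).isPreconnected (isOpen_outU T u) ⟨w, left_mem_segment ℝ _ _, hout⟩
      ⟨toC v, right_mem_segment ℝ _ _, not_mem_outU (toC_mem_clS hv)⟩
    refine ⟨x / n, ⟨x, hxf, rfl⟩, ?_⟩
    obtain ⟨s, t, hs, ht, hst, rfl⟩ := hx
    have e : (s • w + t • toC v) / (n : ℂ) = s • (w / n) + t • (toC v / n) := by
      simp only [Complex.real_smul]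
      field_simp
    rw [e]
    exact convex_cbox m ζ hwc hvc hs ht hst
  · obtain ⟨a, ha⟩ := exists_cbox p (w / n)
    obtain ⟨b', hb'⟩ := exists_cbox p (w' / n)
    obtain ⟨b, hb, hbf⟩ := far_ray hn hρ hray
    exact ⟨a, b, hwp a ha, hb, hNo.freeO hn hρ ha,
      (chain_rtg hn hρ hNo hch ha hb').trans (hbf _ hb')⟩

end Pool.Agent.PercBc

end Partperc6BcTop
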