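import Pool.Agent.Lib.MP_6bd702_zc.Pre
import Pool.Agent.Lib.MP_6bd702_zc.Y003
import Pool.Agent.Lib.MP_6bd702_z.Z011
import Pool.Agent.Lib.MP_6bd702_zc.Y002
import Pool.Agent.Lib.MP_6bd702_zc.Y006
import Pool.Agent.Lib.MP_6bd702_zc.Y005
import Pool.Agent.Lib.MP_6bd702_z.Z016
import Pool.Agent.Lib.MP_6bd702_z.Z041
import Pool.Agent.Lib.MP_6bd702_z.Z037

section Parth60OutAssembly

/-!
# The outer boundary of every subsequential limit has dimension `4 / 3`, from the finite volume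
estimates C1 and C3
-/

set_option autoImplicit false

namespace Pool.Agent.PercS5

open Finset Filter Topology MeasureTheory TopologicalSpace
open Pool.Agent.Perc Pool.Agent.PercD Pool.Agent.Perc.PercD
open scoped ENNReal NNReal

theorem sumq_left {q : ℝ} (hq1 : q < 1) (hq0 : 0 ≤ q) {m : ℕ} :
    ∑ a ∈ Icc (-1 : ℤ) (2 ^ m + 1), (max (a : ℝ) 1) ^ (-q) ≤
    (1 + 2 / (1 - q)) * ((2 : ℝ) ^ m * 2) ^ (1 - q) := by
  have hq : 0 < 1 - q := by linarith
  have h1 := sum_abs_rpow (q := q) hq1 hq0 (N := 2 ^ m + 1) (Nat.le_add_left 1 _)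
  have h2 : ∑ a ∈ Icc (-1 : ℤ) (2 ^ m + 1), (max (a : ℝ) 1) ^ (-q) ≤
      ∑ a ∈ Icc (-((2 ^ m + 1 : ℕ) : ℤ)) ((2 ^ m + 1 : ℕ) : ℤ), (max |(a : ℝ)| 1) ^ (-q) := by
    calc ∑ a ∈ Icc (-1 : ℤ) (2 ^ m + 1), (max (a : ℝ) 1) ^ (-q)
        = ∑ a ∈ Icc (-1 : ℤ) (2 ^ m + 1), (max |(a : ℝ)| 1) ^ (-q) := by
          refine sum_congr rfl fun a ha => ?_
          rw [mem_Icc] at ha
          rcases lt_or_ge a 0 with h | h
          · have : a = -1 := by omega
            subst this; norm_num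
          · rw [abs_of_nonneg (by exact_mod_cast h)]
      _ ≤ _ := by
          refine sum_le_sum_of_subset_of_nonneg ?_ fun a _ _ =>
            Real.rpow_nonneg (le_trans zero_le_one (le_max_right _ _)) _
          intro a ha
          rw [mem_Icc] at ha ⊢
          have : (0 : ℤ) < 2 ^ m := by positivity
          push_cast
          constructor <;> omega
  refine h2.trans (h1.trans ?_)
  refine mul_le_mul_of_nonneg_left ?_ (by positivity)
  refine Real.rpow_le_rpow (by positivity) ?_ hq.le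
  push_cast
  have : (1 : ℝ) ≤ 2 ^ m := one_le_pow₀ (by norm_num)
  linarith

theorem sumq_right {q : ℝ} (hq1 : q < 1) (hq0 : 0 ≤ q) {m : ℕ} :
    ∑ a ∈ Icc (-1 : ℤ) (2 ^ m + 1), (max ((2 : ℝ) ^ m - a) 1) ^ (-q) ≤
    (1 + 2 / (1 - q)) * ((2 : ℝ) ^ m * 2) ^ (1 - q) := by
  refine le_trans (le_of_eq ?_) (sumq_left hq1 hq0 (m := m))
  refine sum_nbij' (fun a => 2 ^ m - a) (fun a => 2 ^ m - a) ?_ ?_ ?_ ?_ ?_
  · intro a ha; rw [mem_Icc] at ha ⊢; constructor <;> omega
  · intro a ha; rw [mem_Icc] at ha ⊢; constructor <;> omega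
  · intro a _; ring
  · intro a _; ring
  · intro a _; push_cast; rfl

/-- The weight of a cell. -/
noncomputable def wq (q : ℝ) (m : ℕ) (z : ℤ × ℤ) : ℝ :=
  ((max (z.1 : ℝ) 1) ^ (-q) + (max ((2 : ℝ) ^ m - z.1) 1) ^ (-q)) +
    ((max (z.2 : ℝ) 1) ^ (-q) + (max ((2 : ℝ) ^ m - z.2) 1) ^ (-q))

theorem sum_wq {q : ℝ} (hq1 : q < 1) (hq0 : 0 ≤ q) (m : ℕ) :
    ∑ z ∈ idx m, wq q m z ≤ 32 * (1 + 2 / (1 - q)) * ((2 : ℝ) ^ m) ^ (2 - q) := by
  have hq : 0 < 1 - q := by linarith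
  unfold idx
  have hA := sumq_left hq1 hq0 (m := m)
  have hB := sumq_right hq1 hq0 (m := m)
  set S₁ := ∑ a ∈ Icc (-1 : ℤ) (2 ^ m + 1), (max (a : ℝ) 1) ^ (-q) with hS₁
  set S₂ := ∑ a ∈ Icc (-1 : ℤ) (2 ^ m + 1), (max ((2 : ℝ) ^ m - a) 1) ^ (-q) with hS₂
  have hcard : ((Icc (-1 : ℤ) (2 ^ m + 1)).card : ℝ) ≤ 4 * 2 ^ m := by
    rw [Int.card_Icc]
    have h1 : ((2 : ℤ) ^ m + 1 + 1 - (-1)) = ((2 ^ m + 3 : ℕ) : ℤ) := by push_cast; ring
    rw [h1, Int.toNat_natCast]; push_cast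
    have : (1 : ℝ) ≤ 2 ^ m := one_le_pow₀ (by norm_num)
    linarith
  have h2 : ∑ z ∈ Icc (-1 : ℤ) (2 ^ m + 1) ×ˢ Icc (-1 : ℤ) (2 ^ m + 1), wq q m z =
      ((Icc (-1 : ℤ) (2 ^ m + 1)).card : ℝ) * (S₁ + S₂) +
        ((Icc (-1 : ℤ) (2 ^ m + 1)).card : ℝ) * (S₁ + S₂) := by
    unfold wq
    rw [sum_add_distrib]
    congr 1
    · rw [sum_product]
      simp only [sum_const, nsmul_eq_mul]
      rw [← mul_sum, sum_add_distrib]
    · rw [sum_product]
      simp only [sum_const, nsmul_eq_mul]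
      rw [sum_add_distrib]
  rw [h2]
  have hp : (0 : ℝ) < 2 ^ m := by positivity
  have h3 : ((2 : ℝ) ^ m * 2) ^ (1 - q) ≤ 2 * ((2 : ℝ) ^ m) ^ (1 - q) := by
    rw [Real.mul_rpow hp.le (by norm_num), mul_comm]
    refine mul_le_mul_of_nonneg_right ?_ (by positivity)
    calc (2 : ℝ) ^ (1 - q) ≤ (2 : ℝ) ^ (1 : ℝ) :=
          Real.rpow_le_rpow_of_exponent_le (by norm_num) (by linarith)
      _ = 2 := Real.rpow_one 2
  set D : ℝ := 1 + 2 / (1 - q) with hD
  have hD0 : 0 < D := by positivity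
  have h4 : S₁ + S₂ ≤ 4 * D * ((2 : ℝ) ^ m) ^ (1 - q) := by
    have h5 := mul_le_mul_of_nonneg_left h3 hD0.le
    linarith
  have hS0 : 0 ≤ S₁ + S₂ := by
    refine add_nonneg (sum_nonneg fun a _ => ?_) (sum_nonneg fun a _ => ?_) <;>
      exact Real.rpow_nonneg (le_trans zero_le_one (le_max_right _ _)) _
  have h6 : ((2 : ℝ) ^ m) ^ (2 - q) = 2 ^ m * ((2 : ℝ) ^ m) ^ (1 - q) := by
    rw [show (2 - q : ℝ) = 1 + (1 - q) by ring, Real.rpow_add hp, Real.rpow_one]
  rw [h6]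
  calc _ = 2 * (((Icc (-1 : ℤ) (2 ^ m + 1)).card : ℝ) * (S₁ + S₂)) := by ring
    _ ≤ 2 * ((4 * 2 ^ m) * (4 * D * ((2 : ℝ) ^ m) ^ (1 - q))) := by
        refine mul_le_mul_of_nonneg_left ?_ (by norm_num)
        exact mul_le_mul hcard h4 hS0 (by positivity)
    _ = _ := by ring

theorem wq_ge {q : ℝ} {m : ℕ} (z : ℤ × ℤ) :
    (max (min (min (z.1 : ℝ) (2 ^ m - z.1)) (min (z.2 : ℝ) (2 ^ m - z.2))) 1) ^ (-q) ≤ wq q m z := by
  have h0 : ∀ x : ℝ, 0 ≤ (max x 1) ^ (-q) := fun x =>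
    Real.rpow_nonneg (le_trans zero_le_one (le_max_right _ _)) _
  unfold wq
  have a1 := h0 z.1
  have a2 := h0 (2 ^ m - z.1)
  have a3 := h0 z.2
  have a4 := h0 (2 ^ m - z.2)
  rcases min_choice (min (z.1 : ℝ) (2 ^ m - z.1)) (min (z.2 : ℝ) (2 ^ m - z.2)) with h | h <;> rw [h]
  · rcases min_choice (z.1 : ℝ) (2 ^ m - z.1) with h' | h' <;> rw [h'] <;> linarith
  · rcases min_choice (z.2 : ℝ) (2 ^ m - z.2) with h' | h' <;> rw [h'] <;> linarith

/-- C1 for all cells. -/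
theorem cellC_bound (h1 : TargetC1) {k₀ α : ℝ} (hk₀ : 0 < k₀) (hα0 : 0 < α) (hα : α < 2 / 3) :
    ∃ C : ℝ, 0 ≤ C ∧ ∀ m p : ℕ, ∀ᶠ n : ℕ in atTop, ∀ z : ℤ × ℤ,
      prB n {T | ∃ u, k₀ * n ≤ Metric.diam (clS T u) ∧ HitC p m (perK n T u : Set ℂ) z} ≤
        C * wq α m z := by
  obtain ⟨C₀, hC₀⟩ := h1 k₀ α hk₀ hα0 hα
  refine ⟨max C₀ 1, by positivity, fun m p => ?_⟩
  filter_upwards [hC₀ m p] with n hn z
  set j : ℝ := min (min (z.1 : ℝ) (2 ^ m - z.1)) (min (z.2 : ℝ) (2 ^ m - z.2)) with hj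
  have hwt : (max j 1) ^ (-α) ≤ wq α m z := wq_ge z
  have hmx : (0 : ℝ) < max j 1 := lt_max_of_lt_right one_pos
  have hwt0 : 0 ≤ wq α m z := le_trans (Real.rpow_nonneg hmx.le _) hwt
  by_cases hj1 : 1 ≤ j
  · refine (hn z j hj1 ((min_le_left _ _).trans (min_le_left _ _))
      ((min_le_left _ _).trans (min_le_right _ _)) ((min_le_right _ _).trans (min_le_left _ _))
      ((min_le_right _ _).trans (min_le_right _ _))).trans ?_
    rw [max_eq_left hj1] at hwt
    have hj0 : 0 ≤ j ^ (-α) := Real.rpow_nonneg (by linarith) _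
    calc C₀ * j ^ (-α) ≤ max C₀ 1 * j ^ (-α) := mul_le_mul_of_nonneg_right (le_max_left _ _) hj0
      _ ≤ max C₀ 1 * wq α m z := mul_le_mul_of_nonneg_left hwt (by positivity)
  · push Not at hj1
    rw [max_eq_right hj1.le, Real.one_rpow] at hwt
    refine (prB_le_one _).trans ?_
    calc (1 : ℝ) = 1 * 1 := by norm_num
      _ ≤ max C₀ 1 * wq α m z := mul_le_mul (le_max_right _ _) hwt (by norm_num) (by positivity)

/-- Tightness of the weighted counts of visible cells. -/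
theorem upper_SC (h1 : TargetC1) (h3 : TargetB3) {s : ℝ} (hs : 4 / 3 < s)
    {sel : ℕ → Finset Edg → ℤ × ℤ} (hsel : ∀ n, IsSel n (sel n)) {ε : ℝ} (hε : 0 < ε) :
    ∃ lam : ℝ, ∀ M : ℕ, ∀ᶠ n : ℕ in atTop,
      prB n {T | lam < SmC s M M (perK n T (sel n T) : Set ℂ)} ≤ ε := by
  classical
  obtain ⟨κ, k₀, c, hκ, hk₀, hc, h3⟩ := h3 (ε / 2) (by positivity)
  -- the exponent
  set α : ℝ := max (1 / 3) (2 / 3 - (s - 4 / 3) / 2) with hαdef
  have hα0 : 0 < α := lt_of_lt_of_le (by norm_num) (le_max_left _ _)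
  have hα : α < 2 / 3 := by rw [hαdef]; exact max_lt (by norm_num) (by linarith)
  have hαs : 2 - α < s := by
    have := le_max_right (1 / 3 : ℝ) (2 / 3 - (s - 4 / 3) / 2)
    rw [← hαdef] at this
    linarith
  obtain ⟨C, hC0, hC⟩ := cellC_bound h1 hk₀ hα0 hα
  set D : ℝ := 32 * (1 + 2 / (1 - α)) with hDdef
  have hD0 : 0 ≤ D := by
    have : 0 < 1 - α := by linarith
    positivity
  set ρ : ℝ := (2 : ℝ) ^ (2 - α - s) with hρ
  have hρ0 : 0 < ρ := Real.rpow_pos_of_pos (by norm_num) _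
  have hρ1 : ρ < 1 := Real.rpow_lt_one_of_one_lt_of_neg (by norm_num) (by linarith)
  set B : ℝ := D * C * (1 - ρ)⁻¹ with hB
  have hB0 : 0 ≤ B := by have : 0 < 1 - ρ := by linarith
                         positivity
  set lam : ℝ := 2 * B / ε + 1 with hlam
  have hlam0 : 0 < lam := by positivity
  refine ⟨lam, fun M => ?_⟩
  have hev : ∀ᶠ n : ℕ in atTop, ∀ m ∈ range M, ∀ z : ℤ × ℤ,
      prB n {T | ∃ u, k₀ * n ≤ Metric.diam (clS T u) ∧ HitC M m (perK n T u : Set ℂ) z} ≤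
        C * wq α m z := by
    rw [eventually_all_finset]
    intro m _
    exact hC m M
  filter_upwards [h3 sel hsel, hev] with n hn hnM
  -- expected counts
  have hE : ∀ m ∈ range M, exB n (fun T => (1 / 2 ^ m : ℝ) ^ s *
      if k₀ * n ≤ Metric.diam (clS T (sel n T)) then (NC M m (perK n T (sel n T) : Set ℂ) : ℝ)
        else 0) ≤ D * C * ρ ^ m := by
    intro m hm
    rw [exB_mul_left]
    have h4 : exB n (fun T => if k₀ * n ≤ Metric.diam (clS T (sel n T)) then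
        (NC M m (perK n T (sel n T) : Set ℂ) : ℝ) else 0) ≤ ∑ z ∈ idx m, prB n {T | ∃ u, k₀ * n ≤
          Metric.diam (clS T u) ∧ HitC M m (perK n T u : Set ℂ) z} := by
      simp_rw [prB_eq]
      rw [← exB_sum]
      refine exB_mono fun T _ => ?_
      split_ifs with hd
      · unfold NC
        rw [card_filter]
        push_cast
        refine sum_le_sum fun z _ => ?_
        by_cases hz : HitC M m (perK n T (sel n T) : Set ℂ) z
        · rw [if_pos hz, if_pos (show T ∈ {T | ∃ u, k₀ * n ≤ Metric.diam (clS T u) ∧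
            HitC M m (perK n T u : Set ℂ) z} from ⟨sel n T, hd, hz⟩)]
        · rw [if_neg hz]; split_ifs <;> norm_num
      · exact sum_nonneg fun z _ => by split_ifs <;> norm_num
    have h5 : exB n (fun T => if k₀ * n ≤ Metric.diam (clS T (sel n T)) then
        (NC M m (perK n T (sel n T) : Set ℂ) : ℝ) else 0) ≤ C * (D * ((2 : ℝ) ^ m) ^ (2 - α)) := by
      refine h4.trans ((sum_le_sum fun z _ => hnM m hm z).trans ?_)
      rw [← mul_sum]
      exact mul_le_mul_of_nonneg_left (sum_wq (by linarith) hα0.le m) hC0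
    have hP0 : (0 : ℝ) < 2 ^ m := by positivity
    have h6 : (1 / 2 ^ m : ℝ) ^ s * ((2 : ℝ) ^ m) ^ (2 - α) = ρ ^ m := by
      rw [one_div, Real.inv_rpow hP0.le, ← Real.rpow_neg hP0.le, ← Real.rpow_add hP0, hρ,
        ← Real.rpow_natCast, ← Real.rpow_natCast, ← Real.rpow_mul (by norm_num),
        ← Real.rpow_mul (by norm_num)]
      congr 1; ring
    calc _ ≤ (1 / 2 ^ m : ℝ) ^ s * (C * (D * ((2 : ℝ) ^ m) ^ (2 - α))) :=
          mul_le_mul_of_nonneg_left h5 (by positivity)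
      _ = D * C * ((1 / 2 ^ m : ℝ) ^ s * ((2 : ℝ) ^ m) ^ (2 - α)) := by ring
      _ = _ := by rw [h6]
  set g : Finset Edg → ℝ := fun T => ∑ m ∈ range M, (1 / 2 ^ m : ℝ) ^ s *
      if k₀ * n ≤ Metric.diam (clS T (sel n T)) then (NC M m (perK n T (sel n T) : Set ℂ) : ℝ)
        else 0 with hg
  have hsum : exB n g ≤ B := by
    rw [hg, exB_sum]
    refine (sum_le_sum hE).trans ?_
    rw [← mul_sum, hB]
    refine mul_le_mul_of_nonneg_left ?_ (by positivity)
    have h7 := (summable_geometric_of_lt_one hρ0.le hρ1).sum_le_tsum (range M)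
      (fun i _ => pow_nonneg hρ0.le i)
    rwa [tsum_geometric_of_lt_one hρ0.le hρ1] at h7
  set X : Set (Finset Edg) := {T | ¬ (k₀ * n ≤ Metric.diam (clS T (sel n T)) ∧
      c * (n : ℝ) ^ (7 / 4 : ℝ) ≤ ({v | v ∈ OutV T (sel n T) ∧ Bulk n (κ * n) v}).ncard)} with hX
  set Y : Set (Finset Edg) := {T | lam ≤ g T} with hY
  have hYb : prB n Y ≤ ε / 2 := by
    have h8 := prB_markov (n := n) (g := g) (t := lam) (A := Y) (by
        intro T _
        refine sum_nonneg fun m _ => mul_nonneg (by positivity) ?_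
        split_ifs <;> positivity) hlam0 (fun T _ hT => hT)
    refine h8.trans ?_
    rw [div_le_iff₀ hlam0]
    refine hsum.trans ?_
    rw [hlam]
    have : ε / 2 * (2 * B / ε + 1) = B + ε / 2 := by field_simp
    rw [this]; linarith
  have h9 := prB_union (n := n) X Y {T | lam < SmC s M M (perK n T (sel n T) : Set ℂ)} (by
    intro T _ hT
    by_contra hcon
    push Not at hcon
    obtain ⟨hx, hy⟩ := hcon
    rw [hX, Set.mem_ofPred_eq, not_not] at hx
    apply hy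
    rw [hY, Set.mem_ofPred_eq, hg]
    simp only [if_pos hx.1]
    exact (le_of_lt hT : lam ≤ SmC s M M (perK n T (sel n T) : Set ℂ)))
  linarith

variable [MeasurableSpace (NonemptyCompacts ℂ)] [BorelSpace (NonemptyCompacts ℂ)]

omit [MeasurableSpace (NonemptyCompacts ℂ)] [BorelSpace (NonemptyCompacts ℂ)] in
theorem perK_sub_unitSq {n : ℕ} (hn : 1 ≤ n) {T : Finset Edg} (hT : T ⊆ boxE n)
    {sel : ℕ → Finset Edg → ℤ × ℤ} (hsel : ∀ n, IsSel n (sel n)) :
    (perK n T (sel n T) : Set ℂ) ⊆ unitSq := by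
  intro ζ hζ
  obtain ⟨z, hz, rfl⟩ := hζ
  have hn0 : (0 : ℝ) < n := by exact_mod_cast hn
  obtain ⟨a, b, c, d⟩ := clS_sub hT (hsel n T hT).1
    (Pool.Agent.Perc.PercD.frontier_outU_sub T _ hz)
  simp only [unitSq, Set.mem_ofPred_eq, Complex.div_natCast_re, Complex.div_natCast_im]
  exact ⟨by positivity, by rw [div_le_one hn0]; exact b, by positivity,
    by rw [div_le_one hn0]; exact d⟩

/-- The main theorem of this file. -/
theorem dim_outB {sel : ℕ → Finset Edg → ℤ × ℤ} (hsel : ∀ n, IsSel n (sel n))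
    (h1 : TargetC1) (h2 : TargetC3) (h3 : TargetB3)
    {φ : ℕ → ℕ} (hφ : Tendsto φ atTop atTop) (ν : Measure (NonemptyCompacts ℂ))
    [IsProbabilityMeasure ν] (hν : LimitLaw sel φ ν) :
    ∀ᵐ K : NonemptyCompacts ℂ ∂ν, dimH (outB (K : Set ℂ)) = 4 / 3 := by
  set KK : ℕ → Finset Edg → NonemptyCompacts ℂ := fun n T => perK n T (sel n T) with hKK
  set μs : ℕ → ProbabilityMeasure (NonemptyCompacts ℂ) :=
    fun k => ⟨lawM (φ k) (KK (φ k)), isProb_lawM _ _⟩ with hμs
  set ν' : ProbabilityMeasure (NonemptyCompacts ℂ) := ⟨ν, inferInstance⟩ with hν'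
  have hlim : Tendsto μs atTop (𝓝 ν') := by
    rw [ProbabilityMeasure.tendsto_iff_forall_integral_tendsto]
    intro F
    have := hν F
    simp only [hμs, hν', ProbabilityMeasure.coe_mk]
    simp only [integral_lawM]
    exact this
  have hsq : ∀ᶠ k in atTop, (μs k : Measure (NonemptyCompacts ℂ))
      {K : NonemptyCompacts ℂ | ¬ (K : Set ℂ) ⊆ unitSq} = 0 := by
    filter_upwards [hφ.eventually_ge_atTop 1] with k hk
    have hm : MeasurableSet {K : NonemptyCompacts ℂ | ¬ (K : Set ℂ) ⊆ unitSq} :=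
      (NonemptyCompacts.isClosed_subsets_of_isClosed isClosed_unitSq).isOpen_compl.measurableSet
    have e : prB (φ k) {T | KK (φ k) T ∈ {K : NonemptyCompacts ℂ | ¬ (K : Set ℂ) ⊆ unitSq}} = 0 := by
      refine le_antisymm ?_ (prB_nonneg _)
      have h4 : prB (φ k) {T | KK (φ k) T ∈ {K : NonemptyCompacts ℂ | ¬ (K : Set ℂ) ⊆ unitSq}} ≤
          prB (φ k) ∅ := prB_mono fun T hT hT' => hT' (perK_sub_unitSq hk hT hsel)
      refine h4.trans (le_of_eq ?_)
      unfold prB; simp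
    change lawM (φ k) (KK (φ k)) _ = 0
    rw [lawM_apply _ _ hm, e, ENNReal.ofReal_zero]
  -- upper bounds
  have hup : ∀ s : ℝ≥0, (4 / 3 : ℝ) < s →
      ∀ᵐ K : NonemptyCompacts ℂ ∂ν, dimH (outB (K : Set ℂ)) ≤ s := by
    intro s hs
    refine dimH_outB_le_ae (ν := ν') hlim hsq ?_
    intro ε hε
    obtain ⟨lam, hlam⟩ := upper_SC h1 h3 hs hsel hε
    refine ⟨lam, fun M => ?_⟩
    filter_upwards [hφ.eventually (hlam M)] with k hk
    change lawM (φ k) (KK (φ k)) _ ≤ _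
    rw [lawM_apply _ _ (isOpen_SmC _ _ _ _).measurableSet]
    exact ENNReal.ofReal_le_ofReal hk
  -- lower bounds
  have hlow : ∀ s : ℝ≥0, 0 < s → (s : ℝ) < 4 / 3 →
      ∀ᵐ K : NonemptyCompacts ℂ ∂ν, (s : ℝ≥0∞) ≤ dimH (outB (K : Set ℂ)) := by
    intro s hs0 hs
    refine le_dimH_outB_ae (ν := ν') hs0 hlim hsq ?_
    intro ε hε
    obtain ⟨A, hA⟩ := h2 s (by exact_mod_cast hs0) hs ε hε
    refine ⟨A, fun m => ?_⟩
    obtain ⟨p, hp⟩ := hA m
    refine ⟨p, ?_⟩
    filter_upwards [hφ.eventually (hp sel hsel)] with k hk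
    change lawM (φ k) (KK (φ k)) _ ≤ _
    rw [lawM_apply _ _ (isOpen_not_good _ _ _ _).measurableSet]
    exact ENNReal.ofReal_le_ofReal hk
  -- conclusion
  have hup' : ∀ᵐ K : NonemptyCompacts ℂ ∂ν, ∀ m : ℕ,
      dimH (outB (K : Set ℂ)) ≤ ((4 / 3 + 1 / ((m : ℝ≥0) + 1) : ℝ≥0) : ℝ≥0∞) := by
    rw [ae_all_iff]
    intro m
    refine hup _ ?_
    push_cast
    have : (0 : ℝ) < 1 / ((m : ℝ) + 1) := by positivity
    linarith
  have hlow' : ∀ᵐ K : NonemptyCompacts ℂ ∂ν, ∀ m : ℕ,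
      ((4 / 3 - 1 / ((m : ℝ≥0) + 1) : ℝ≥0) : ℝ≥0∞) ≤ dimH (outB (K : Set ℂ)) := by
    rw [ae_all_iff]
    intro m
    have h5 : (1 : ℝ≥0) / ((m : ℝ≥0) + 1) ≤ 1 := by
      rw [div_le_one (by positivity)]; exact le_add_of_nonneg_left (zero_le)
    have h6 : (1 : ℝ≥0) / ((m : ℝ≥0) + 1) < 4 / 3 := by
      refine lt_of_le_of_lt h5 ?_
      rw [lt_div_iff₀ (by norm_num)]; norm_num
    refine hlow _ (tsub_pos_of_lt h6) ?_
    rw [NNReal.coe_sub h6.le]
    push_cast
    have : (0 : ℝ) < 1 / ((m : ℝ) + 1) := by positivity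
    linarith
  filter_upwards [hup', hlow'] with K hKu hKl
  have hlim0 : Tendsto (fun m : ℕ => (1 : ℝ≥0) / ((m : ℝ≥0) + 1)) atTop (𝓝 0) :=
    tendsto_one_div_add_atTop_nhds_zero_nat
  have e43 : ((4 / 3 : ℝ≥0) : ℝ≥0∞) = 4 / 3 := by
    rw [ENNReal.coe_div (by norm_num)]; norm_num
  apply le_antisymm
  · have h7 : Tendsto (fun m : ℕ => ((4 / 3 + 1 / ((m : ℝ≥0) + 1) : ℝ≥0) : ℝ≥0∞)) atTop
        (𝓝 ((4 / 3 + 0 : ℝ≥0) : ℝ≥0∞)) :=
      ENNReal.tendsto_coe.2 (tendsto_const_nhds.add hlim0)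
    rw [add_zero, e43] at h7
    exact ge_of_tendsto' h7 hKu
  · have h7 : Tendsto (fun m : ℕ => ((4 / 3 - 1 / ((m : ℝ≥0) + 1) : ℝ≥0) : ℝ≥0∞)) atTop
        (𝓝 ((4 / 3 - 0 : ℝ≥0) : ℝ≥0∞)) :=
      ENNReal.tendsto_coe.2 (tendsto_const_nhds.sub hlim0)
    rw [tsub_zero, e43] at h7
    exact le_of_tendsto' h7 hKl

omit [MeasurableSpace (NonemptyCompacts ℂ)] [BorelSpace (NonemptyCompacts ℂ)] in
/-- The outer boundary theorem from the finite volume estimates. -/
theorem targetOutB_of (h1 : TargetC1) (h2 : TargetC3) (h3 : TargetB3) : TargetOutB := by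
  intro _ _ sel φ ν _ hsel hφ hν
  exact dim_outB hsel h1 h2 h3 hφ.tendsto_atTop ν hν

end Pool.Agent.PercS5

end Parth60OutAssembly

section Parth60BK

/-!
# The van den Berg-Kesten inequality for increasing events, uniform measure on a finite cube
-/

set_option autoImplicit false

namespace Pool.Agent.Perc

open Finset

namespace BK

variable {α : Type}

/-- Increasing families. -/
def Up (A : Set (Finset α)) : Prop := ∀ ⦃T T' : Finset α⦄, T ⊆ T' → T ∈ A → T' ∈ A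

/-- Disjoint occurrence. -/
def box (A B : Set (Finset α)) : Set (Finset α) :=
  {T | ∃ K L : Finset α, K ⊆ T ∧ L ⊆ T ∧ Disjoint K L ∧ K ∈ A ∧ L ∈ B}

variable [DecidableEq α]

/-- The section at an open element. -/
def sec (e : α) (A : Set (Finset α)) : Set (Finset α) := {T | insert e T ∈ A}

open Classical in
/-- The number of members which are subsets of `S`. -/
noncomputable def cnt (S : Finset α) (A : Set (Finset α)) : ℝ :=
  ((S.powerset.filter fun T => T ∈ A).card : ℝ)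

lemma Up.sec {A : Set (Finset α)} (hA : Up A) (e : α) : Up (sec e A) :=
  fun _ _ h hT => hA (Finset.insert_subset_insert e h) hT

lemma Up.subset_sec {A : Set (Finset α)} (hA : Up A) (e : α) : A ⊆ BK.sec e A :=
  fun _ hT => hA (Finset.subset_insert e _) hT

lemma up_box (A B : Set (Finset α)) : Up (box A B) := by
  rintro T T' h ⟨K, L, h1, h2, h3⟩
  exact ⟨K, L, h1.trans h, h2.trans h, h3⟩

lemma box_mono {A A' B B' : Set (Finset α)} (h : A ⊆ A') (h' : B ⊆ B') :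
    box A B ⊆ box A' B' := by
  rintro T ⟨K, L, h1, h2, h3, h4, h5⟩
  exact ⟨K, L, h1, h2, h3, h h4, h' h5⟩

lemma cnt_mono (S : Finset α) {A B : Set (Finset α)} (h : ∀ T, T ⊆ S → T ∈ A → T ∈ B) :
    cnt S A ≤ cnt S B := by
  classical
  unfold cnt
  refine Nat.cast_le.2 (Finset.card_le_card ?_)
  intro T hT
  rw [Finset.mem_filter, Finset.mem_powerset] at hT ⊢
  exact ⟨hT.1, h T hT.1 hT.2⟩

open Classical in
lemma cnt_eq_sum (S : Finset α) (A : Set (Finset α)) :
    cnt S A = ∑ T ∈ S.powerset, if T ∈ A then (1 : ℝ) else 0 := by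
  rw [Finset.sum_ite, Finset.sum_const_zero, add_zero, Finset.sum_const, nsmul_eq_mul, mul_one]
  rfl

lemma cnt_union_add (S : Finset α) (A B : Set (Finset α)) :
    cnt S (A ∪ B) + cnt S (A ∩ B) = cnt S A + cnt S B := by
  classical
  rw [cnt_eq_sum, cnt_eq_sum, cnt_eq_sum, cnt_eq_sum, ← Finset.sum_add_distrib,
    ← Finset.sum_add_distrib]
  refine Finset.sum_congr rfl fun T _ => ?_
  by_cases h1 : T ∈ A <;> by_cases h2 : T ∈ B <;> simp [h1, h2]

lemma cnt_insert {e : α} {S : Finset α} (he : e ∉ S) (A : Set (Finset α)) :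
    cnt (insert e S) A = cnt S A + cnt S (sec e A) := by
  classical
  rw [cnt_eq_sum, cnt_eq_sum, cnt_eq_sum, Finset.sum_powerset_insert he]
  rfl

lemma cnt_le (S : Finset α) (A : Set (Finset α)) : cnt S A ≤ 2 ^ S.card := by
  classical
  unfold cnt
  have h3 := Finset.card_filter_le S.powerset (fun T => T ∈ A)
  rw [Finset.card_powerset] at h3
  exact_mod_cast h3

lemma cnt_nonneg (S : Finset α) (A : Set (Finset α)) : 0 ≤ cnt S A := by
  unfold cnt
  positivity

/-- The van den Berg-Kesten inequality. -/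
theorem bk_cnt (S : Finset α) : ∀ (A B : Set (Finset α)), Up A → Up B →
    cnt S (box A B) * 2 ^ S.card ≤ cnt S A * cnt S B := by
  classical
  induction S using Finset.induction_on with
  | empty =>
    intro A B hA hB
    have h1 : ∀ C : Set (Finset α), cnt (∅ : Finset α) C = if ∅ ∈ C then 1 else 0 := by
      intro C
      rw [cnt_eq_sum, Finset.powerset_empty, Finset.sum_singleton]
    rw [h1, h1, h1, Finset.card_empty, pow_zero, mul_one]
    by_cases hA' : ∅ ∈ A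
    · by_cases hB' : ∅ ∈ B
      · rw [if_pos hA', if_pos hB']
        split_ifs <;> norm_num
      · have : ∅ ∉ box A B := by
          rintro ⟨K, L, h2, h3, _, _, h6⟩
          rw [Finset.subset_empty] at h3
          subst h3
          exact hB' h6
        rw [if_neg this]
        split_ifs <;> norm_num
    · have : ∅ ∉ box A B := by
        rintro ⟨K, L, h2, h3, _, h5, _⟩
        rw [Finset.subset_empty] at h2
        subst h2
        exact hA' h5
      rw [if_neg this]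
      split_ifs <;> norm_num
  | @insert e S he ih =>
    intro A B hA hB
    have h00 := ih A B hA hB
    have h10 := ih (sec e A) B (hA.sec e) hB
    have h01 := ih A (sec e B) hA (hB.sec e)
    have hX : cnt S (sec e (box A B)) ≤ cnt S (box (sec e A) B ∪ box A (sec e B)) := by
      refine cnt_mono S ?_
      rintro T hT ⟨K, L, h1, h2, h3, h4, h5⟩
      by_cases hK : e ∈ K
      · left
        have hL : e ∉ L := fun h => (Finset.disjoint_left.1 h3) hK h
        refine ⟨K.erase e, L, ?_, ?_, ?_, ?_, h5⟩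
        · exact Finset.subset_insert_iff.1 h1
        · exact (Finset.subset_insert_iff_of_notMem hL).1 h2
        · exact h3.mono_left (Finset.erase_subset _ _)
        · change insert e (K.erase e) ∈ A
          rw [Finset.insert_erase hK]
          exact h4
      · right
        refine ⟨K, L.erase e, ?_, ?_, ?_, h4, ?_⟩
        · exact (Finset.subset_insert_iff_of_notMem hK).1 h1
        · exact Finset.subset_insert_iff.1 h2
        · exact h3.mono_right (Finset.erase_subset _ _)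
        · change insert e (L.erase e) ∈ B
          exact hB (Finset.insert_erase_subset e L |> fun _ => by
            intro x hx
            by_cases hxe : x = e
            · subst hxe
              exact Finset.mem_insert_self _ _
            · exact Finset.mem_insert_of_mem (Finset.mem_erase.2 ⟨hxe, hx⟩)) h5
    have hI : cnt S (box A B) ≤ cnt S (box (sec e A) B ∩ box A (sec e B)) := by
      refine cnt_mono S fun T _ hT => ⟨?_, ?_⟩
      · exact box_mono (hA.subset_sec e) (le_refl B) hT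
      · exact box_mono (le_refl A) (hB.subset_sec e) hT
    have hU := cnt_union_add S (box (sec e A) B) (box A (sec e B))
    have hAA : cnt S A ≤ cnt S (sec e A) := cnt_mono S fun T _ hT => hA.subset_sec e hT
    have hBB : cnt S B ≤ cnt S (sec e B) := cnt_mono S fun T _ hT => hB.subset_sec e hT
    have h2 : (0 : ℝ) < 2 ^ S.card := by positivity
    rw [cnt_insert he, cnt_insert he, cnt_insert he, Finset.card_insert_of_notMem he, pow_succ]
    nlinarith [mul_nonneg (sub_nonneg.2 hAA) (sub_nonneg.2 hBB)]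

/-- `k`-fold disjoint occurrence. -/
def boxPow (A : Set (Finset α)) : ℕ → Set (Finset α)
  | 0 => Set.univ
  | k + 1 => box A (boxPow A k)

lemma up_boxPow (A : Set (Finset α)) (k : ℕ) : Up (boxPow A k) := by
  cases k with
  | zero => exact fun _ _ _ _ => Set.mem_univ _
  | succ k => exact up_box _ _

lemma mem_boxPow {A : Set (Finset α)} {k : ℕ} {T : Finset α} (K : Fin k → Finset α)
    (h1 : ∀ i, K i ⊆ T) (h2 : ∀ i j, i ≠ j → Disjoint (K i) (K j)) (h3 : ∀ i, K i ∈ A) :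
    T ∈ boxPow A k := by
  induction k generalizing T with
  | zero => exact Set.mem_univ _
  | succ k ih =>
    refine ⟨K 0, Finset.univ.biUnion fun i : Fin k => K i.succ, h1 0, ?_, ?_, h3 0, ?_⟩
    · intro x hx
      obtain ⟨i, _, hi⟩ := Finset.mem_biUnion.1 hx
      exact h1 _ hi
    · rw [Finset.disjoint_biUnion_right]
      intro i _
      exact h2 _ _ (Fin.succ_ne_zero i).symm
    · refine ih (fun i => K i.succ) ?_ ?_ (fun i => h3 _)
      · intro i x hx
        exact Finset.mem_biUnion.2 ⟨i, Finset.mem_univ _, hx⟩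
      · intro i j hij
        exact h2 _ _ (fun h => hij (Fin.succ_injective _ h))

theorem bk_pow (S : Finset α) {A : Set (Finset α)} (hA : Up A) (k : ℕ) :
    cnt S (boxPow A k) / 2 ^ S.card ≤ (cnt S A / 2 ^ S.card) ^ k := by
  have h2 : (0 : ℝ) < 2 ^ S.card := by positivity
  induction k with
  | zero =>
    rw [pow_zero, div_le_one h2]
    exact cnt_le S _
  | succ k ih =>
    have h1 := bk_cnt S A (boxPow A k) hA (up_boxPow A k)
    have h0 : 0 ≤ cnt S A := cnt_nonneg S A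
    rw [pow_succ]
    calc cnt S (boxPow A (k + 1)) / 2 ^ S.card
        ≤ (cnt S (boxPow A k) / 2 ^ S.card) * (cnt S A / 2 ^ S.card) := by
          change cnt S (box A (boxPow A k)) / 2 ^ S.card ≤ _
          rw [div_mul_div_comm, div_le_div_iff₀ h2 (by positivity)]
          nlinarith
      _ ≤ _ := by
          apply mul_le_mul_of_nonneg_right ih
          positivity

end BK

end Pool.Agent.Perc

end Parth60BK

section Parth60C1Path

/-!
# Rectilinear corridors of bounded length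
-/

set_option autoImplicit false

namespace Pool.Agent.PercS5

open Relation
open Pool.Agent.Perc Pool.Agent.Perc3

variable {P : ℤ × ℤ → Prop} {u v : ℤ × ℤ}

/-- All segments of the path are in the set of the points with `P`. -/
def PathP (P : ℤ × ℤ → Prop) : ℤ × ℤ → List (ℤ × ℤ) → Prop
  | _, [] => True
  | u, v :: l => SegP P u v ∧ PathP P v l

theorem PathP.rectil (l : List (ℤ × ℤ)) : ∀ {u : ℤ × ℤ}, PathP P u l → Rectil u l := by
  induction l with
  | nil => intro u _; trivial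
  | cons v l ih => intro u h; exact ⟨h.1.1, ih h.2⟩

theorem PathP.onPath (l : List (ℤ × ℤ)) : ∀ {u : ℤ × ℤ}, PathP P u l → ∀ a, OnPath u l a →
    P (a.1, a.2.1) := by
  induction l with
  | nil => intro u _ a h; exact absurd h (by simp [OnPath])
  | cons v l ih =>
    intro u h a ha
    rcases ha with ha | ha
    · refine h.1.2 _ ?_ ?_ ?_ ?_
      all_goals
        rcases ha with ⟨h0, h1, h2, h3⟩ | ⟨h0, h1, h2, h3⟩ <;> simp only <;> omega
    · exact ih h.2 a ha

theorem lst_append (l l' : List (ℤ × ℤ)) : ∀ u, lst u (l ++ l') = lst (lst u l) l' := by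
  induction l with
  | nil => intro u; rfl
  | cons v l ih => intro u; exact ih v

theorem pathP_append (l l' : List (ℤ × ℤ)) : ∀ {u}, PathP P u l → PathP P (lst u l) l' →
    PathP P u (l ++ l') := by
  induction l with
  | nil => intro u _ h; exact h
  | cons v l ih => intro u h h'; exact ⟨h.1, ih h.2 h'⟩

theorem SegP.mono {P Q : ℤ × ℤ → Prop} (h : ∀ q, P q → Q q) {a b : ℤ × ℤ} (hs : SegP P a b) :
    SegP Q a b := ⟨hs.1, fun q h1 h2 h3 h4 => h q (hs.2 q h1 h2 h3 h4)⟩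

theorem PathP.mono {P Q : ℤ × ℤ → Prop} (h : ∀ q, P q → Q q) (l : List (ℤ × ℤ)) :
    ∀ {u}, PathP P u l → PathP Q u l := by
  induction l with
  | nil => intro u _; trivial
  | cons v l ih => intro u hu; exact ⟨hu.1.mono h, ih hu.2⟩

/-- The part of a path up to the ring around the rectangle. -/
theorem trim {L w : ℤ} (l : List (ℤ × ℤ)) : ∀ u : ℤ × ℤ, |u.1| ≤ L → |u.2| ≤ w → PathP P u l →
    ¬ (|(lst u l).1| ≤ L ∧ |(lst u l).2| ≤ w) →
    ∃ l', PathP P u l' ∧ l'.length ≤ l.length ∧ Init (fun p => |p.1| ≤ L ∧ |p.2| ≤ w) u l' ∧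
      ((|(lst u l').1| ≤ L ∧ |(lst u l').2| = w + 1) ∨
        (|(lst u l').1| = L + 1 ∧ |(lst u l').2| ≤ w)) := by
  induction l with
  | nil => intro u h1 h2 _ h3; exact absurd ⟨h1, h2⟩ h3
  | cons v l ih =>
    intro u h1 h2 h h3
    by_cases hv : |v.1| ≤ L ∧ |v.2| ≤ w
    · obtain ⟨l', k1, k2, k3, k4⟩ := ih v hv.1 hv.2 h.2 h3
      exact ⟨v :: l', ⟨h.1, k1⟩, by simpa using k2, ⟨⟨h1, h2⟩, k3⟩, k4⟩
    · obtain ⟨hax, hseg⟩ := h.1
      have key : ∀ v' : ℤ × ℤ, (u.1 = v'.1 ∨ u.2 = v'.2) →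
          (min u.1 v.1 ≤ min u.1 v'.1 ∧ max u.1 v'.1 ≤ max u.1 v.1 ∧
            min u.2 v.2 ≤ min u.2 v'.2 ∧ max u.2 v'.2 ≤ max u.2 v.2) →
          ((|v'.1| ≤ L ∧ |v'.2| = w + 1) ∨ (|v'.1| = L + 1 ∧ |v'.2| ≤ w)) →
          ∃ l', PathP P u l' ∧ l'.length ≤ (v :: l).length ∧
            Init (fun p => |p.1| ≤ L ∧ |p.2| ≤ w) u l' ∧
            ((|(lst u l').1| ≤ L ∧ |(lst u l').2| = w + 1) ∨
              (|(lst u l').1| = L + 1 ∧ |(lst u l').2| ≤ w)) := by
        intro v' k1 k2 k3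
        refine ⟨[v'], ⟨⟨k1, fun q q1 q2 q3 q4 => hseg q ?_ ?_ ?_ ?_⟩, trivial⟩, by simp,
          ⟨⟨h1, h2⟩, trivial⟩, k3⟩
        · exact k2.1.trans q1
        · exact q2.trans k2.2.1
        · exact k2.2.2.1.trans q3
        · exact q4.trans k2.2.2.2
      rw [abs_le] at h1 h2
      rw [abs_le, abs_le] at hv
      rcases hax with hax | hax
      · rcases lt_or_ge w v.2 with hw | hw
        · refine key (u.1, w + 1) (Or.inl rfl) ?_ (Or.inl ⟨?_, ?_⟩)
          · simp only; omega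
          · simp only; rw [abs_le]; omega
          · simp only; rw [abs_of_nonneg (by omega)]
        · refine key (u.1, -(w + 1)) (Or.inl rfl) ?_ (Or.inl ⟨?_, ?_⟩)
          · simp only; omega
          · simp only; rw [abs_le]; omega
          · simp only; rw [abs_neg, abs_of_nonneg (by omega)]
      · rcases lt_or_ge L v.1 with hw | hw
        · refine key (L + 1, u.2) (Or.inr rfl) ?_ (Or.inr ⟨?_, ?_⟩)
          · simp only; omega
          · simp only; rw [abs_of_nonneg (by omega)]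
          · simp only; rw [abs_le]; omega
        · refine key (-(L + 1), u.2) (Or.inr rfl) ?_ (Or.inr ⟨?_, ?_⟩)
          · simp only; omega
          · simp only; rw [abs_neg, abs_of_nonneg (by omega)]
          · simp only; rw [abs_le]; omega

/-- The graph of the steps in a finite set. -/
def stG (B : ℤ × ℤ → Prop) (S : Finset (ℤ × ℤ)) : SimpleGraph {x // x ∈ S} where
  Adj x y := Stp B x.1 y.1
  symm := ⟨fun _ _ h => h.symm⟩
  loopless := ⟨fun x h => by
    rcases h.1 with ⟨-, h⟩ | ⟨h, -⟩ <;> simp at h⟩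

theorem reach_or {B : ℤ × ℤ → Prop} {S : Finset (ℤ × ℤ)} {a : ℤ × ℤ} (ha : a ∈ S) {c : ℤ × ℤ}
    (h : ReflTransGen (Stp B) a c) :
    (∃ hc : c ∈ S, (stG B S).Reachable ⟨a, ha⟩ ⟨c, hc⟩) ∨
      ∃ x : {x // x ∈ S}, (stG B S).Reachable ⟨a, ha⟩ x ∧ ∃ y, y ∉ S ∧ Stp B x.1 y := by
  induction h with
  | refl => exact Or.inl ⟨ha, SimpleGraph.Reachable.refl _⟩
  | @tail b c _ hs ih =>
    rcases ih with ⟨hb, hr⟩ | ih
    · by_cases hc : c ∈ S
      · refine Or.inl ⟨hc, hr.trans (SimpleGraph.Adj.reachable ?_)⟩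
        exact hs
      · exact Or.inr ⟨⟨b, hb⟩, hr, c, hc, hs⟩
    · exact Or.inr ih

theorem path_of_walk {B : ℤ × ℤ → Prop} {S : Finset (ℤ × ℤ)} {g : ℤ × ℤ → ℤ × ℤ}
    (hg : ∀ a b, Stp B a b → ∃ c, SegP P (g a) c ∧ SegP P c (g b)) {x y : {x // x ∈ S}}
    (W : (stG B S).Walk x y) : ∃ l, PathP P (g x.1) l ∧ lst (g x.1) l = g y.1 ∧
      l.length = 2 * W.length := by
  induction W with
  | nil => exact ⟨[], trivial, rfl, rfl⟩
  | @cons x z y h W ih =>
    obtain ⟨l, h1, h2, h3⟩ := ih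
    obtain ⟨c, h4, h5⟩ := hg _ _ h
    refine ⟨c :: g z.1 :: l, ⟨h4, h5, h1⟩, h2, ?_⟩
    simp only [List.length_cons, SimpleGraph.Walk.length_cons, h3]
    ring

/-- A chain which leaves a finite set gives a rectilinear path of bounded length. -/
theorem exists_path {B : ℤ × ℤ → Prop} {S : Finset (ℤ × ℤ)} {g : ℤ × ℤ → ℤ × ℤ}
    (hg : ∀ a b, Stp B a b → ∃ c, SegP P (g a) c ∧ SegP P c (g b)) {a b : ℤ × ℤ} (ha : a ∈ S)
    (hb : b ∉ S) (h : ReflTransGen (Stp B) a b) : ∃ b' l, b' ∉ S ∧ PathP P (g a) l ∧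
      lst (g a) l = g b' ∧ l.length ≤ 2 * S.card := by
  classical
  rcases reach_or ha h with ⟨hc, -⟩ | ⟨x, hr, y, hy, hs⟩
  · exact absurd hc hb
  · obtain ⟨W⟩ := hr
    obtain ⟨l, h1, h2, h3⟩ := path_of_walk hg W.toPath.1
    have h4 := W.toPath.2.length_lt
    rw [Fintype.card_coe] at h4
    obtain ⟨c, h5, h6⟩ := hg _ _ hs
    refine ⟨y, l ++ [c, g y], hy, pathP_append l _ h1 ?_, ?_, ?_⟩
    · simp only at h2
      rw [h2]
      exact ⟨h5, h6, trivial⟩
    · rw [lst_append]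
      rfl
    · rw [List.length_append, h3]
      simp only [List.length_cons, List.length_nil]
      omega

end Pool.Agent.PercS5

end Parth60C1Path

section Partperc6Core

/-!
# Potentials of strands in general regions

The proofs are those of `percw/CoreB.lean` (there for rectangles), with `IsPot` instead of `potR`.
-/

set_option autoImplicit false

namespace Pool.Agent.Perc6

open Finset Pool.Agent.Perc Pool.Agent.PercD Pool.Agent.PercL

variable {ω ω' : Cfg} {F : Set (ℤ × ℤ)} {e a : UE} {f : ℤ × ℤ} {u v p q w : ℤ × ℤ}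
  {M : Set UE} {Φ : ℤ × ℤ → ZMod 2}

theorem IsPot.joins (hP : IsPot F M Φ) (hf : f ∈ F) (hs : IsSide f a) (hj : Joins a p q) :
    a ∈ M ↔ Φ p ≠ Φ q := by
  rcases hj with ⟨rfl, rfl⟩ | ⟨rfl, rfl⟩
  · exact hP f hf a hs
  · rw [hP f hf a hs, ne_comm]

/-- A potential can be normalised. -/
theorem IsPot.add_const (hP : IsPot F M Φ) (c : ZMod 2) : IsPot F M fun w => Φ w + c := by
  intro f hf a hs
  rw [hP f hf a hs, Ne, Ne, add_left_inj]

/-- The potential is constant on the faces which are not visited. -/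
theorem IsPot.fresh (hP : IsPot F (MM ω F e) Φ) (hf : f ∈ F) (hS : f ∉ SS ω F e)
    (hp : IsCor f p) (hq : IsCor f q) : Φ p = Φ q := by
  have key : ∀ {p q : ℤ × ℤ}, IsCor f p → IsCor f q → par p ≠ par q → Φ p = Φ q := by
    intro p q hp hq hpq
    obtain ⟨a, ha, hj⟩ := exists_side hp hq hpq
    by_contra hne
    exact hS ⟨hf, a, (hP.joins hf ha hj).2 hne, ha⟩
  by_cases hpq : par p = par q
  · -- use a third corner of the other parity
    obtain ⟨r, hr, hpr⟩ : ∃ r, IsCor f r ∧ par p ≠ par r := by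
      by_cases h : par p = par f
      · refine ⟨(f.1 + 1, f.2), by simp [IsCor], ?_⟩
        rw [h]; unfold par; simp only; omega
      · exact ⟨f, by simp [IsCor], h⟩
    rw [key hp hr hpr, key hq hr (by rw [← hpq]; exact hpr)]
  · exact key hp hq hpq

/-- The potential is constant along the bonds. -/
theorem IsPot.bond (hP : IsPot F (MM ω F e) Φ) (h : Bond ω F p q) : Φ p = Φ q := by
  obtain ⟨x, y, hf, h⟩ := h
  have hb := hP.joins (a := bo (x, y)) (p := (x, y)) (q := (x + 1, y)) hf (Or.inl rfl)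
    (by simp [Joins, bo, ua, ub])
  have hl := hP.joins (a := le' (x, y)) (p := (x, y)) (q := (x, y + 1)) hf (Or.inr (Or.inl rfl))
    (by simp [Joins, le', ua, ub])
  have ht := hP.joins (a := to' (x, y)) (p := (x, y + 1)) (q := (x + 1, y + 1)) hf
    (Or.inr (Or.inr (Or.inl rfl))) (by simp [Joins, to', ua, ub])
  have hr := hP.joins (a := ri (x, y)) (p := (x + 1, y)) (q := (x + 1, y + 1)) hf
    (Or.inr (Or.inr (Or.inr rfl))) (by simp [Joins, ri, ua, ub])
  have ev := MM_even (ω := ω) (e := e) hf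
  have key : (ω (x, y) = true → Φ (x, y) = Φ (x + 1, y + 1)) ∧
      (ω (x, y) = false → Φ (x, y + 1) = Φ (x + 1, y)) := by
    generalize Φ (x, y) = p00 at *
    generalize Φ (x + 1, y) = p10 at *
    generalize Φ (x, y + 1) = p01 at *
    generalize Φ (x + 1, y + 1) = p11 at *
    rcases ev with ⟨h1, h2, h3⟩ | ⟨h1, h2, h3⟩
    · refine ⟨fun _ => ?_, fun h' => by rw [h3] at h'; exact absurd h' (by decide)⟩
      rw [hb, hr] at h1
      clear hb hl ht hr h2
      revert p00 p10 p11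
      decide
    · refine ⟨fun h' => by rw [h3] at h'; exact absurd h' (by decide), fun _ => ?_⟩
      rw [hb, hl] at h1
      clear hb hl ht hr h2
      revert p00 p10 p01
      decide
  rcases h with ⟨ht, (⟨rfl, rfl⟩ | ⟨rfl, rfl⟩)⟩ | ⟨ht, (⟨rfl, rfl⟩ | ⟨rfl, rfl⟩)⟩
  · exact key.1 ht
  · exact (key.1 ht).symm
  · exact key.2 ht
  · exact (key.2 ht).symm

theorem IsPot.conn (hP : IsPot F (MM ω F e) Φ) (h : Conn ω F p q) : Φ p = Φ q := by
  induction h with
  | refl => rfl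
  | tail _ hb ih => rw [ih, hP.bond hb]

theorem IsPot.ne (hP : IsPot F (MM ω F e) Φ) (he : Joins e u v) (hs : ∃ f ∈ F, IsSide f e) :
    Φ u ≠ Φ v := by
  obtain ⟨f, hf, hs⟩ := hs
  exact (hP.joins hf hs he).1 mem_MM_self

theorem IsPot.mm (hP : IsPot F (MM ω F e) Φ) (he : Joins e u v) (ha : a ∈ MM ω F e)
    (hj : Joins a p q) (hp : par p = par u) : Φ p = Φ u ∧ Φ q = Φ v := by
  obtain ⟨p', q', hj', hp', hc⟩ := MM_conn he ha
  obtain ⟨rfl, rfl⟩ := hj.of_par hj' (hp.trans hp'.symm)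
  obtain ⟨r, s, hj2, hr, hc2⟩ := MM_conn he.symm ha
  obtain ⟨rfl, rfl⟩ := hj.symm.of_par hj2 (by
    have h1 := hj.par_ne
    have h2 := he.par_ne
    have h3 := par_cases p
    have h4 := par_cases q
    have h5 := par_cases u
    have h6 := par_cases v
    omega)
  exact ⟨(hP.conn (hc.mono SS_sub)).symm, (hP.conn (hc2.mono SS_sub)).symm⟩

/-- A corner of a visited face on the side of `u` with the parity of `u` is joined to `u` inside the
visited faces. -/
theorem IsPot.ss_conn (hP : IsPot F (MM ω F e) Φ) (he : Joins e u v) (hs : ∃ f ∈ F, IsSide f e)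
    (hf : f ∈ SS ω F e) (hw : IsCor f w) (hp : par w = par u) (h : Φ w = Φ u) :
    Conn ω (SS ω F e) u w := by
  obtain ⟨hfF, a, ha, hside⟩ := hf
  obtain ⟨p, q, hj, hpu, hc⟩ := MM_conn he ha
  have h1 := hP.mm he ha hj hpu
  have hq : IsCor f q := hside.cor_left hj.symm
  obtain ⟨b, hb, hjb⟩ := exists_side hw hq (by rw [hp, ← hpu]; exact hj.par_ne)
  have huv : Φ u ≠ Φ v := hP.ne he hs
  have hbM : b ∈ MM ω F e := (hP.joins hfF hb hjb).2 (by rw [h, h1.2]; exact huv)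
  obtain ⟨p', q', hj', hp', hc'⟩ := MM_conn he hbM
  obtain ⟨rfl, -⟩ := hjb.of_par hj' (hp.trans hp'.symm)
  exact hc'

/-- The ends of a bond in a visited face with the parity of `u`. -/
theorem IsPot.ss_bond (hP : IsPot F (MM ω F e) Φ) (he : Joins e u v) (hs : ∃ f ∈ F, IsSide f e)
    (hf : f ∈ SS ω F e) (hb : Bond ω {f} p q) (hp : par p = par u) :
    Φ p = Φ u ∧ Conn ω (SS ω F e) u p := by
  have hfF := hf.1
  obtain ⟨g, hg, hb', hcp, hcq⟩ := hb.exists_face
  rw [Set.mem_singleton_iff] at hg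
  subst hg
  have hpq := hP.bond (hb.of_single hfF)
  obtain ⟨-, a, ha, hside⟩ := hf
  obtain ⟨r, s, hj, hru, hc⟩ := MM_conn he ha
  have h1 := hP.mm he ha hj hru
  -- the corner `r` of the parity of `u` is `p` or `q`
  have hr : IsCor g r := hside.cor_left hj
  have hrpq : r = p ∨ r = q := by
    obtain ⟨x, y, hxy, h⟩ := hb
    rw [Set.mem_singleton_iff] at hxy
    subst hxy
    obtain ⟨r1, r2⟩ := r
    unfold IsCor at hr
    simp only at hr
    have h2 : par (r1, r2) = par p := hru.trans hp.symm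
    unfold par at h2
    rcases h with ⟨-, (⟨rfl, rfl⟩ | ⟨rfl, rfl⟩)⟩ | ⟨-, (⟨rfl, rfl⟩ | ⟨rfl, rfl⟩)⟩ <;>
      simp only [Prod.mk.injEq] at h2 ⊢ <;> omega
  have hpu : Φ p = Φ u := by
    rcases hrpq with rfl | rfl
    · exact h1.1
    · rw [hpq]; exact h1.1
  exact ⟨hpu, hP.ss_conn he hs ⟨hfF, a, ha, hside⟩ hcp hp hpu⟩

/-- Completeness: if the two ends of `e'` are joined in `F` to the two ends of `e`, then `e'`
belongs to the component of `e`. -/
theorem IsPot.mem_of_conn (hP : IsPot F (MM ω F e) Φ) (he : Joins e u v)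
    (hs : ∃ f ∈ F, IsSide f e) {e' : UE} {u' v' : ℤ × ℤ} (he' : Joins e' u' v')
    (hs' : ∃ f ∈ F, IsSide f e') (h1 : Conn ω F u u') (h2 : Conn ω F v v') : e' ∈ MM ω F e := by
  obtain ⟨f, hf, hs'⟩ := hs'
  rw [hP.joins hf hs' he', ← hP.conn h1, ← hP.conn h2]
  exact hP.ne he hs

/-- The region may be enlarged if nothing new is visited. -/
theorem MM_eq_of_closed {F F' : Set (ℤ × ℤ)} (h : F ⊆ F') (hc : SS ω F' e ⊆ F) :
    MM ω F' e = MM ω F e := by
  apply Set.Subset.antisymm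
  · intro a ha
    change Relation.ReflTransGen _ e a at ha
    induction ha with
    | refl => exact mem_MM_self
    | tail hab hs ih =>
      obtain ⟨f, hf, hm⟩ := hs
      have hS : f ∈ SS ω F' e := ⟨hf, _, hab, hm.left⟩
      exact MM_step (hc hS) hm ih
  · intro a ha
    change Relation.ReflTransGen _ e a at ha
    induction ha with
    | refl => exact mem_MM_self
    | tail hab hs ih =>
      obtain ⟨f, hf, hm⟩ := hs
      exact MM_step (h hf) hm ih

/-! ### Unit edges on the boundary of a region -/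

/-- A unit edge between a face of `F` and a face outside `F`. -/
def BdU (F : Set (ℤ × ℤ)) (a : UE) : Prop := (∃ f ∈ F, IsSide f a) ∧ ∃ f, f ∉ F ∧ IsSide f a

namespace C2Aux

open Pool.Agent.Perc.Tips

variable {ω ω' : Cfg} {F F' : Set (ℤ × ℤ)} {e a : UE} {f : ℤ × ℤ}

theorem isSide_ahead (a : UE) (d : Bool) : IsSide (ahead (a, d)) a := by
  obtain ⟨x, y, b⟩ := a
  cases b <;> cases d <;> simp [ahead, IsSide, bo, le', to', ri]

theorem eq_ahead (h : IsSide f a) : f = ahead (a, true) ∨ f = ahead (a, false) := by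
  obtain ⟨x, y⟩ := f
  rcases h with rfl | rfl | rfl | rfl <;> simp [ahead, bo, le', to', ri]

theorem mt_nx (ω : Cfg) (A : UE × Bool) : Mt ω (ahead A) A.1 (Tips.nx ω A).1 := by
  obtain ⟨⟨x, y, _ | _⟩, _ | _⟩ := A <;> simp only [Tips.nx, ahead]
  · by_cases h : ω (x, y - 1) = true <;> simp [Mt, h, bo, le', to', ri]
  · by_cases h : ω (x, y) = true <;> simp [Mt, h, bo, le', to', ri]
  · by_cases h : ω (x - 1, y) = true <;> simp [Mt, h, bo, le', to', ri]
  · by_cases h : ω (x, y) = true <;> simp [Mt, h, bo, le', to', ri]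

theorem bdU_dir (h : BdU F a) : ∃ d : Bool, ahead (a, d) ∉ F ∧ ahead (a, !d) ∈ F := by
  obtain ⟨⟨f, hf, hs⟩, g, hg, hs'⟩ := h
  rcases eq_ahead hs with rfl | rfl <;> rcases eq_ahead hs' with rfl | rfl
  · exact absurd hf hg
  · exact ⟨false, hg, hf⟩
  · exact ⟨true, hg, hf⟩
  · exact absurd hf hg

theorem bdU_not (h : BdU F a) {d : Bool} (hd : ahead (a, !d) ∈ F) : ahead (a, d) ∉ F := by
  obtain ⟨d', h1, h2⟩ := bdU_dir h
  cases d <;> cases d' <;> simp_all

theorem exists_terminal (hF : F ⊆ F') {t : UE} (ht : t ∈ MM ω F e) (hb : BdU F' t) :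
    ∃ s d, Relation.ReflTransGen (R ω F) (e, s) (t, d) ∧ ahead (t, d) ∉ F' := by
  obtain ⟨s, d, h⟩ := reach ht
  rcases Relation.ReflTransGen.cases_tail h with h' | ⟨B, hB, hBF, hB2⟩
  · simp only [Prod.mk.injEq] at h'
    obtain ⟨d', h1, -⟩ := bdU_dir hb
    refine ⟨d', d', ?_, h1⟩
    rw [h'.1]
  · refine ⟨s, d, h, bdU_not hb ?_⟩
    have h1 : ahead (rv (t, d)) ∈ F := by
      rw [hB2, ahead_rv_nx]; exact hBF
    exact hF h1

theorem follow (hF : F ⊆ F') {A T B : UE × Bool} (h1 : Relation.ReflTransGen (R ω F) A T)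
    (hT : ahead T ∉ F') (h2 : Relation.ReflTransGen (R ω F') A B) :
    Relation.ReflTransGen (R ω F) A B := by
  have hU : Relator.RightUnique (R ω F) := by
    intro A B C h h'
    rw [h.2, h'.2]
  induction h2 with
  | refl => exact Relation.ReflTransGen.refl
  | @tail C D _ hs ih =>
    rcases Relation.ReflTransGen.total_of_right_unique hU ih h1 with h | h
    · rcases Relation.ReflTransGen.cases_head h with h | ⟨E, hE, -⟩
      · subst h
        exact absurd hs.1 hT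
      · exact ih.tail ⟨hE.1, hs.2⟩
    · rcases Relation.ReflTransGen.cases_head h with h | ⟨E, hE, -⟩
      · subst h
        exact absurd hs.1 hT
      · exact absurd (hF hE.1) hT

theorem mem_of_reach {A B : UE × Bool} (h : Relation.ReflTransGen (R ω F) A B)
    (hA : A.1 ∈ MM ω F e) : B.1 ∈ MM ω F e := by
  induction h with
  | refl => exact hA
  | @tail C D _ hs ih =>
    have h1 := mt_nx ω C
    rw [← hs.2] at h1
    exact Relation.ReflTransGen.tail ih ⟨ahead C, hs.1, h1⟩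

end C2Aux

open C2Aux Pool.Agent.Perc.Tips

variable {ω ω' : Cfg} {F : Set (ℤ × ℤ)} {e a : UE}

/-- The component of a boundary unit edge contains at most one other boundary unit edge. -/
theorem bdU_unique {t t' : UE} (he : BdU F e) (ht : t ∈ MM ω F e) (ht' : t' ∈ MM ω F e)
    (hb : BdU F t) (hb' : BdU F t') (h1 : t ≠ e) (h2 : t' ≠ e) : t = t' := by
  obtain ⟨c, hc, -⟩ := bdU_dir he
  obtain ⟨s, d, h, hT⟩ := exists_terminal le_rfl ht hb
  obtain ⟨s', d', h', hT'⟩ := exists_terminal le_rfl ht' hb'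
  have k : s ≠ c := by
    rintro rfl
    have := eq_of_terminal (Relation.ReflTransGen.refl (a := (e, s))) h hc hT
    simp only [Prod.mk.injEq] at this
    exact h1 this.1.symm
  have k' : s' ≠ c := by
    rintro rfl
    have := eq_of_terminal (Relation.ReflTransGen.refl (a := (e, s'))) h' hc hT'
    simp only [Prod.mk.injEq] at this
    exact h2 this.1.symm
  have k2 : s = s' := by
    cases s <;> cases s' <;> cases c <;> simp_all
  subst k2
  exact congrArg Prod.fst (eq_of_terminal h h' hT hT')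

/-- A component contains at most two boundary unit edges. -/
theorem bdU_le_two {t t' t'' : UE} (ht : t ∈ MM ω F e) (ht' : t' ∈ MM ω F e)
    (ht'' : t'' ∈ MM ω F e) (hb : BdU F t) (hb' : BdU F t') (hb'' : BdU F t'') :
    t = t' ∨ t = t'' ∨ t' = t'' := by
  obtain ⟨s, d, h, k⟩ := exists_terminal le_rfl ht hb
  obtain ⟨s', d', h', k'⟩ := exists_terminal le_rfl ht' hb'
  obtain ⟨s'', d'', h'', k''⟩ := exists_terminal le_rfl ht'' hb''
  by_cases h1 : s = s'
  · subst h1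
    left
    exact congrArg Prod.fst (eq_of_terminal h h' k k')
  · by_cases h2 : s = s''
    · subst h2
      right; left
      exact congrArg Prod.fst (eq_of_terminal h h'' k k'')
    · have h3 : s' = s'' := by
        cases s <;> cases s' <;> cases s'' <;> simp_all
      subst h3
      right; right
      exact congrArg Prod.fst (eq_of_terminal h' h'' k' k'')

/-- If the component of `e` in `F` contains two different boundary unit edges of the larger region
`F'` then it is the whole component in `F'`. -/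
theorem MM_eq_of_two {F F' : Set (ℤ × ℤ)} (h : F ⊆ F') {t t' : UE} (ht : t ∈ MM ω F e)
    (ht' : t' ∈ MM ω F e) (hne : t ≠ t') (hb : BdU F' t) (hb' : BdU F' t') :
    MM ω F' e = MM ω F e := by
  obtain ⟨s, d, hs, k⟩ := exists_terminal h ht hb
  obtain ⟨s', d', hs', k'⟩ := exists_terminal h ht' hb'
  have hss : s ≠ s' := by
    rintro rfl
    exact hne (congrArg Prod.fst (eq_of_terminal hs hs' (fun hh => k (h hh))
      (fun hh => k' (h hh))))
  refine Set.Subset.antisymm (fun b hbM => ?_) (fun _ hx => Perc.MM_mono h hx)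
  obtain ⟨c, c', hc⟩ := reach hbM
  have h0 : ((e, c) : UE × Bool).1 ∈ MM ω F e := Relation.ReflTransGen.refl
  by_cases hcs : c = s
  · subst hcs
    exact mem_of_reach (follow h hs k hc) h0
  · have : c = s' := by
      cases s <;> cases s' <;> cases c <;> simp_all
    subst this
    exact mem_of_reach (follow h hs' k' hc) h0

end Pool.Agent.Perc6

end Partperc6Core

section Partperc6Pot

/-!
# Potentials exist in the slit regions
-/

set_option autoImplicit false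

namespace Pool.Agent.Perc6

open Finset Pool.Agent.Perc Pool.Agent.PercD Pool.Agent.PercL

/-- Rectangles have potentials (`pot_ver`, `pot_hor` of `percw/CoreA.lean`). -/
theorem hasPot_RF (x₀ x₁ y₀ y₁ : ℤ) : HasPot (RF x₀ x₁ y₀ y₁ : Set (ℤ × ℤ)) := by
  intro M hM
  have hM' : ∀ f ∈ RF x₀ x₁ y₀ y₁, EvenAt M f := fun f hf => hM f (Finset.mem_coe.2 hf)
  refine ⟨pot x₀ y₀ M, ?_⟩
  intro f hf a ha
  rw [mem_RF'] at hf
  obtain ⟨x, y⟩ := f
  simp only at hf
  rcases ha with rfl | rfl | rfl | rfl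
  · unfold bo
    rw [ua_mk, ub_false, pot_hor (x₁ := x₁) (y₁ := y₁) hM' hf.1 hf.2.1 hf.2.2.1 hf.2.2.2.le,
      ne_add_ind2]
  · unfold le'
    rw [ua_mk, ub_true, pot_ver hf.2.2.1, ne_add_ind2]
  · unfold to'
    rw [ua_mk, ub_false, pot_hor (x₁ := x₁) (y₁ := y₁) hM' hf.1 hf.2.1 (by simp only; omega)
      (by simp only; omega), ne_add_ind2]
  · unfold ri
    rw [ua_mk, ub_true, pot_ver hf.2.2.1, ne_add_ind2]

namespace PotB

theorem cor_ua {f : ℤ × ℤ} {a : UE} (h : IsSide f a) : IsCor f (ua a) := by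
  obtain ⟨x, y⟩ := f
  rcases h with rfl | rfl | rfl | rfl <;> simp [IsCor, bo, le', to', ri, ua]

theorem cor_ub {f : ℤ × ℤ} {a : UE} (h : IsSide f a) : IsCor f (ub a) := by
  obtain ⟨x, y⟩ := f
  rcases h with rfl | rfl | rfl | rfl <;> simp [IsCor, bo, le', to', ri, ub]

end PotB

/-- Gluing: a function which does not change across the sides of the faces of the intersection is
constant on the common vertices. -/
theorem HasPot.union {F₁ F₂ : Set (ℤ × ℤ)} (h1 : HasPot F₁) (h2 : HasPot F₂)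
    (hl : ∀ Θ : ℤ × ℤ → ZMod 2, (∀ f ∈ F₁ ∩ F₂, ∀ a, IsSide f a → Θ (ua a) = Θ (ub a)) →
      ∀ w ∈ VF F₁ ∩ VF F₂, ∀ w' ∈ VF F₁ ∩ VF F₂, Θ w = Θ w') : HasPot (F₁ ∪ F₂) := by
  classical
  intro M hM
  obtain ⟨Φ, hΦ⟩ := h1 M fun f hf => hM f (Or.inl hf)
  obtain ⟨Ψ, hΨ⟩ := h2 M fun f hf => hM f (Or.inr hf)
  have hc := hl (fun w => Φ w + Ψ w) (by
    rintro f ⟨hf1, hf2⟩ a ha
    have k1 := hΦ f hf1 a ha
    have k2 := hΨ f hf2 a ha
    rw [k1] at k2
    revert k2
    generalize Φ (ua a) = p1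
    generalize Φ (ub a) = p2
    generalize Ψ (ua a) = p3
    generalize Ψ (ub a) = p4
    revert p1 p2 p3 p4
    decide)
  obtain ⟨t, ht⟩ : ∃ t : ZMod 2, ∀ w ∈ VF F₁ ∩ VF F₂, Φ w = Ψ w + t := by
    by_cases hne : (VF F₁ ∩ VF F₂).Nonempty
    · obtain ⟨w₀, hw₀⟩ := hne
      refine ⟨Φ w₀ + Ψ w₀, fun w hw => ?_⟩
      have := hc w hw w₀ hw₀
      revert this
      generalize Φ w = p1
      generalize Ψ w = p2
      generalize Φ w₀ = p3
      generalize Ψ w₀ = p4
      revert p1 p2 p3 p4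
      decide
    · exact ⟨0, fun w hw => absurd ⟨w, hw⟩ hne⟩
  refine ⟨fun w => if w ∈ VF F₁ then Φ w else Ψ w + t, ?_⟩
  intro f hf a ha
  rcases hf with hf | hf
  · have k1 : ua a ∈ VF F₁ := ⟨f, hf, PotB.cor_ua ha⟩
    have k2 : ub a ∈ VF F₁ := ⟨f, hf, PotB.cor_ub ha⟩
    simp only [k1, k2, if_true]
    exact hΦ f hf a ha
  · have k : ∀ w, w ∈ VF F₂ → (if w ∈ VF F₁ then Φ w else Ψ w + t) = Ψ w + t := by
      intro w hw
      split_ifs with h
      · exact ht w ⟨h, hw⟩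
      · rfl
    have k1 := k (ua a) ⟨f, hf, PotB.cor_ua ha⟩
    have k2 := k (ub a) ⟨f, hf, PotB.cor_ub ha⟩
    simp only [k1, k2]
    rw [hΨ f hf a ha]
    exact not_congr (add_left_inj t).symm

/-- The box of radius `R` around `(c, h)` is strictly inside the box of radius `RB` around
`(cB, h)`. -/
structure Nest (h w cB RB c R : ℤ) : Prop where
  w1 : 1 ≤ w
  wR : w < R
  left : cB - RB < c - R
  right : c + R < cB + RB
  rad : R < RB

namespace PotB

theorem VF_union (A B : Set (ℤ × ℤ)) : VF (A ∪ B) = VF A ∪ VF B := by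
  ext w
  constructor
  · rintro ⟨f, hf | hf, h⟩
    · exact Or.inl ⟨f, hf, h⟩
    · exact Or.inr ⟨f, hf, h⟩
  · rintro (⟨f, hf, h⟩ | ⟨f, hf, h⟩)
    · exact ⟨f, Or.inl hf, h⟩
    · exact ⟨f, Or.inr hf, h⟩

theorem VF_RF {x₀ x₁ y₀ y₁ : ℤ} {w : ℤ × ℤ} (h : w ∈ VF (RF x₀ x₁ y₀ y₁ : Set (ℤ × ℤ))) :
    x₀ ≤ w.1 ∧ w.1 ≤ x₁ ∧ y₀ ≤ w.2 ∧ w.2 ≤ y₁ := by
  obtain ⟨f, hf, hc⟩ := h
  rw [mem_RF'] at hf
  unfold IsCor at hc
  omega

/-- A function which does not change across the sides of the faces of a rectangle is constant. -/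
theorem const_RF {x₀ x₁ y₀ y₁ : ℤ} (hx : x₀ < x₁) (hy : y₀ < y₁) (Θ : ℤ × ℤ → ZMod 2)
    (h : ∀ f ∈ (RF x₀ x₁ y₀ y₁ : Set (ℤ × ℤ)), ∀ a, IsSide f a → Θ (ua a) = Θ (ub a)) {x y : ℤ}
    (h1 : x₀ ≤ x) (h2 : x ≤ x₁) (h3 : y₀ ≤ y) (h4 : y ≤ y₁) : Θ (x, y) = Θ (x₀, y₀) := by
  have hv : ∀ y, y₀ ≤ y → y ≤ y₁ → Θ (x₀, y) = Θ (x₀, y₀) := by
    intro y hy0
    induction y, hy0 using Int.leInduction with
    | base => intro _; rfl
    | succ y hy0 ih =>
      intro hy1
      rw [← ih (by omega)]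
      have := h (x₀, y) (mem_RF'.2 ⟨le_refl _, hx, hy0, by simp only; omega⟩) (le' (x₀, y))
        (Or.inr (Or.inl rfl))
      unfold le' at this
      rw [ua_mk, ub_true] at this
      exact this.symm
  rw [← hv y h3 h4]
  revert h2
  induction x, h1 using Int.leInduction with
  | base => intro _; rfl
  | succ x hx0 ih =>
    intro hx1
    rw [← ih (by omega)]
    by_cases hyy : y < y₁
    · have := h (x, y) (mem_RF'.2 ⟨hx0, by simp only; omega, h3, hyy⟩) (bo (x, y)) (Or.inl rfl)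
      unfold bo at this
      rw [ua_mk, ub_false] at this
      exact this.symm
    · have e : y = (y - 1) + 1 := by omega
      have := h (x, y - 1) (mem_RF'.2 ⟨hx0, by simp only; omega, by simp only; omega,
        by simp only; omega⟩) (to' (x, y - 1)) (Or.inr (Or.inr (Or.inl rfl)))
      unfold to' at this
      simp only at this
      rw [← e, ua_mk, ub_false] at this
      exact this.symm

/-- Gluing of a rectangle along a rectangle. -/
theorem glue {F : Set (ℤ × ℤ)} (hF : HasPot F) {a₀ a₁ b₀ b₁ x₀ x₁ y₀ y₁ : ℤ} (hx : x₀ < x₁)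
    (hy : y₀ < y₁) (hs : (RF x₀ x₁ y₀ y₁ : Set (ℤ × ℤ)) ⊆ F)
    (hs' : (RF x₀ x₁ y₀ y₁ : Set (ℤ × ℤ)) ⊆ RF a₀ a₁ b₀ b₁)
    (hv : ∀ w ∈ VF F, a₀ ≤ w.1 → w.1 ≤ a₁ → b₀ ≤ w.2 → w.2 ≤ b₁ →
      x₀ ≤ w.1 ∧ w.1 ≤ x₁ ∧ y₀ ≤ w.2 ∧ w.2 ≤ y₁) :
    HasPot (F ∪ (RF a₀ a₁ b₀ b₁ : Set (ℤ × ℤ))) := by
  refine hF.union (hasPot_RF _ _ _ _) ?_
  intro Θ hΘ
  have key : ∀ w ∈ VF F ∩ VF (RF a₀ a₁ b₀ b₁ : Set (ℤ × ℤ)), Θ w = Θ (x₀, y₀) := by
    rintro ⟨x, y⟩ ⟨hw1, hw2⟩
    have k := VF_RF hw2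
    have k' := hv _ hw1 k.1 k.2.1 k.2.2.1 k.2.2.2
    exact const_RF hx hy Θ (fun f hf => hΘ f ⟨hs hf, hs' hf⟩) k'.1 k'.2.1 k'.2.2.1 k'.2.2.2
  intro w hw w' hw'
  rw [key w hw, key w' hw']

end PotB

theorem hasPot_Slit {h w cB RB c R : ℤ} (hn : Nest h w cB RB c R) :
    HasPot (Slit h w cB RB c R) := by
  obtain ⟨w1, wR, hl, hr, hrad⟩ := hn
  have e : Slit h w cB RB c R = (((((RF (c + R) (cB + RB) (h + w) (h + RB) : Set (ℤ × ℤ)) ∪
      (RF (cB - RB) (cB + RB) (h + R) (h + RB) : Set (ℤ × ℤ))) ∪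
      (RF (cB - RB) (c - R) (h - RB) (h + RB) : Set (ℤ × ℤ))) ∪
      (RF (cB - RB) (cB + RB) (h - RB) (h - R) : Set (ℤ × ℤ))) ∪
      (RF (c + R) (cB + RB) (h - RB) (h - w) : Set (ℤ × ℤ))) := by
    ext f
    simp only [Slit, Ray, BR, Set.mem_union, Set.mem_ofPred_eq, mem_RF, mem_RF']
    constructor
    · rintro ⟨h1, h2, h3⟩
      omega
    · rintro ((((h1 | h1) | h1) | h1) | h1)
      · refine ⟨by omega, by omega, by omega⟩
      · refine ⟨by omega, by omega, by omega⟩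
      · refine ⟨by omega, by omega, by omega⟩
      · refine ⟨by omega, by omega, by omega⟩
      · refine ⟨by omega, by omega, by omega⟩
  rw [e]
  refine PotB.glue (x₀ := c + R) (x₁ := cB + RB) (y₀ := h - RB) (y₁ := h - R) ?_ (by omega)
    (by omega) ?_ ?_ ?_
  · refine PotB.glue (x₀ := cB - RB) (x₁ := c - R) (y₀ := h - RB) (y₁ := h - R) ?_ (by omega)
      (by omega) ?_ ?_ ?_
    · refine PotB.glue (x₀ := cB - RB) (x₁ := c - R) (y₀ := h + R) (y₁ := h + RB) ?_ (by omega)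
        (by omega) ?_ ?_ ?_
      · refine PotB.glue (x₀ := c + R) (x₁ := cB + RB) (y₀ := h + R) (y₁ := h + RB)
          (hasPot_RF _ _ _ _) (by omega) (by omega) ?_ ?_ ?_
        · intro f hf
          rw [mem_RF'] at hf ⊢
          omega
        · intro f hf
          rw [mem_RF'] at hf ⊢
          omega
        · intro v hv
          have := PotB.VF_RF hv
          omega
      · intro f hf
        rw [Set.mem_union, mem_RF', mem_RF']
        rw [mem_RF'] at hf
        omega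
      · intro f hf
        rw [mem_RF'] at hf ⊢
        omega
      · intro v hv
        rw [PotB.VF_union] at hv
        rcases hv with hv | hv <;>
        · have := PotB.VF_RF hv
          omega
    · intro f hf
      rw [Set.mem_union, Set.mem_union, mem_RF', mem_RF', mem_RF']
      rw [mem_RF'] at hf
      omega
    · intro f hf
      rw [mem_RF'] at hf ⊢
      omega
    · intro v hv
      rw [PotB.VF_union, PotB.VF_union] at hv
      rcases hv with (hv | hv) | hv <;>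
      · have := PotB.VF_RF hv
        omega
  · intro f hf
    rw [Set.mem_union, Set.mem_union, Set.mem_union, mem_RF', mem_RF', mem_RF', mem_RF']
    rw [mem_RF'] at hf
    omega
  · intro f hf
    rw [mem_RF'] at hf ⊢
    omega
  · intro v hv
    rw [PotB.VF_union, PotB.VF_union, PotB.VF_union] at hv
    rcases hv with ((hv | hv) | hv) | hv <;>
    · have := PotB.VF_RF hv
      omega

theorem hasPot_Notch {h w cB RB X : ℤ} (hw : 1 ≤ w) (hR : w < RB) (h1 : cB - RB < X)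
    (h2 : X < cB + RB) : HasPot (Notch h w cB RB X) := by
  have e : Notch h w cB RB X = (((RF (cB - RB) (cB + RB) (h + w) (h + RB) : Set (ℤ × ℤ)) ∪
      (RF (cB - RB) X (h - RB) (h + RB) : Set (ℤ × ℤ))) ∪
      (RF (cB - RB) (cB + RB) (h - RB) (h - w) : Set (ℤ × ℤ))) := by
    ext f
    simp only [Notch, Ray, BR, Set.mem_union, Set.mem_ofPred_eq, mem_RF, mem_RF']
    constructor
    · rintro ⟨h1, h3⟩
      omega
    · rintro ((h1 | h1) | h1)
      · refine ⟨by omega, by omega⟩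
      · refine ⟨by omega, by omega⟩
      · refine ⟨by omega, by omega⟩
  rw [e]
  refine PotB.glue (x₀ := cB - RB) (x₁ := X) (y₀ := h - RB) (y₁ := h - w) ?_ (by omega)
    (by omega) ?_ ?_ ?_
  · refine PotB.glue (x₀ := cB - RB) (x₁ := X) (y₀ := h + w) (y₁ := h + RB)
      (hasPot_RF _ _ _ _) (by omega) (by omega) ?_ ?_ ?_
    · intro f hf
      rw [mem_RF'] at hf ⊢
      omega
    · intro f hf
      rw [mem_RF'] at hf ⊢
      omega
    · intro v hv
      have := PotB.VF_RF hv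
      omega
  · intro f hf
    rw [Set.mem_union, mem_RF', mem_RF']
    rw [mem_RF'] at hf
    omega
  · intro f hf
    rw [mem_RF'] at hf ⊢
    omega
  · intro v hv
    rw [PotB.VF_union] at hv
    rcases hv with hv | hv <;>
    · have := PotB.VF_RF hv
      omega

end Pool.Agent.Perc6

end Partperc6Pot

section Partperc6Tube

/-!
# Corridors made of square cells

The plane is divided into square cells of side `a` with corner `(c, h)`. For a finite set `K` of
cells the event `TubeEv` gives both crossings of every cell and the long crossing of every domino: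
all these crossings are connected to each other inside a connected set of cells.
-/

set_option autoImplicit false

namespace Pool.Agent.Perc6

open Finset Pool.Agent.Perc Pool.Agent.PercD Pool.Agent.PercL

/-- The faces of the cell `k`. -/
noncomputable def cellF (c h a : ℤ) (k : ℤ × ℤ) : Finset (ℤ × ℤ) :=
  RF (c + a * k.1) (c + a * (k.1 + 1)) (h + a * k.2) (h + a * (k.2 + 1))

/-- The faces of the cells of `K`. -/
noncomputable def cellsF (c h a : ℤ) (K : Finset (ℤ × ℤ)) : Finset (ℤ × ℤ) :=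
  K.biUnion (cellF c h a)

/-- Both crossings of every cell of `K` and the long crossing of every domino. -/
def TubeEv (col c h a : ℤ) (K : Finset (ℤ × ℤ)) : Set Cfg :=
  {ω | ∀ k ∈ K,
    ω ∈ LR col (c + a * k.1) (c + a * (k.1 + 1)) (h + a * k.2) (h + a * (k.2 + 1)) ∧
    ω ∈ BT col (c + a * k.1) (c + a * (k.1 + 1)) (h + a * k.2) (h + a * (k.2 + 1)) ∧
    ((k.1 + 1, k.2) ∈ K →
      ω ∈ LR col (c + a * k.1) (c + a * (k.1 + 2)) (h + a * k.2) (h + a * (k.2 + 1))) ∧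
    ((k.1, k.2 + 1) ∈ K →
      ω ∈ BT col (c + a * k.1) (c + a * (k.1 + 1)) (h + a * k.2) (h + a * (k.2 + 2)))}

/-- Neighbouring cells of `K`. -/
def CAdj (K : Finset (ℤ × ℤ)) (k k' : ℤ × ℤ) : Prop :=
  k ∈ K ∧ k' ∈ K ∧ ((k.1 = k'.1 ∧ |k.2 - k'.2| = 1) ∨ (k.2 = k'.2 ∧ |k.1 - k'.1| = 1))

/-- Connection of cells in `K`. -/
def CConn (K : Finset (ℤ × ℤ)) : ℤ × ℤ → ℤ × ℤ → Prop := Relation.ReflTransGen (CAdj K)

/-- `u` is on the skeleton of the cell `k`: it is joined in the cell to both vertical sides or to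
both horizontal sides. -/
def Spine (ω : Cfg) (col c h a : ℤ) (k u : ℤ × ℤ) : Prop :=
  (u.1 + u.2 - col) % 2 = 0 ∧
    (c + a * k.1 ≤ u.1 ∧ u.1 ≤ c + a * (k.1 + 1) ∧ h + a * k.2 ≤ u.2 ∧ u.2 ≤ h + a * (k.2 + 1)) ∧
    ((∃ v v', Conn ω (cellF c h a k) u v ∧ Conn ω (cellF c h a k) u v' ∧ v.1 = c + a * k.1 ∧
        v'.1 = c + a * (k.1 + 1)) ∨
      (∃ v v', Conn ω (cellF c h a k) u v ∧ Conn ω (cellF c h a k) u v' ∧ v.2 = h + a * k.2 ∧
        v'.2 = h + a * (k.2 + 1)))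

variable {ω : Cfg} {col c h a : ℤ} {K : Finset (ℤ × ℤ)} {k k' u u' : ℤ × ℤ}

theorem cellsF_mono {K K' : Finset (ℤ × ℤ)} (hK : K ⊆ K') : cellsF c h a K ⊆ cellsF c h a K' :=
  biUnion_subset_biUnion_of_subset_left _ hK

theorem tubeEv_mono {K K' : Finset (ℤ × ℤ)} (hK : K ⊆ K') (hω : ω ∈ TubeEv col c h a K') :
    ω ∈ TubeEv col c h a K := by
  intro k hk
  obtain ⟨h1, h2, h3, h4⟩ := hω k (hK hk)
  exact ⟨h1, h2, fun h => h3 (hK h), fun h => h4 (hK h)⟩

namespace TubeAux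

theorem mul_succ' (a k : ℤ) : a * (k + 1) = a * k + a := by ring

theorem mul_succ2 (a k : ℤ) : a * (k + 2) = a * k + 2 * a := by ring

theorem cellF_sub (hk : k ∈ K) : (cellF c h a k : Set (ℤ × ℤ)) ⊆ cellsF c h a K := by
  intro f hf
  exact Finset.mem_coe.2 (mem_biUnion.2 ⟨k, hk, Finset.mem_coe.1 hf⟩)

theorem domH_sub (hk : k ∈ K) (hk' : (k.1 + 1, k.2) ∈ K) :
    (RF (c + a * k.1) (c + a * (k.1 + 2)) (h + a * k.2) (h + a * (k.2 + 1)) : Set (ℤ × ℤ)) ⊆
      cellsF c h a K := by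
  intro f hf
  rw [Finset.mem_coe, mem_RFi] at hf
  have e0 := mul_succ2 a k.1
  have e1 := mul_succ' a k.1
  have e2 := mul_succ' a k.2
  have e3 := mul_succ' a (k.1 + 1)
  by_cases h0 : f.1 < c + a * k.1 + a
  · refine Finset.mem_coe.2 (mem_biUnion.2 ⟨k, hk, ?_⟩)
    unfold cellF
    rw [mem_RFi]
    omega
  · refine Finset.mem_coe.2 (mem_biUnion.2 ⟨_, hk', ?_⟩)
    unfold cellF
    rw [mem_RFi]
    simp only
    omega

theorem domV_sub (hk : k ∈ K) (hk' : (k.1, k.2 + 1) ∈ K) :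
    (RF (c + a * k.1) (c + a * (k.1 + 1)) (h + a * k.2) (h + a * (k.2 + 2)) : Set (ℤ × ℤ)) ⊆
      cellsF c h a K := by
  intro f hf
  rw [Finset.mem_coe, mem_RFi] at hf
  have e0 := mul_succ2 a k.2
  have e1 := mul_succ' a k.1
  have e2 := mul_succ' a k.2
  have e3 := mul_succ' a (k.2 + 1)
  by_cases h0 : f.2 < h + a * k.2 + a
  · refine Finset.mem_coe.2 (mem_biUnion.2 ⟨k, hk, ?_⟩)
    unfold cellF
    rw [mem_RFi]
    omega
  · refine Finset.mem_coe.2 (mem_biUnion.2 ⟨_, hk', ?_⟩)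
    unfold cellF
    rw [mem_RFi]
    simp only
    omega

/-- A vertex of the skeleton is connected to the beginning of each vertical crossing. -/
theorem spine_link (ha : 1 ≤ a) (hω : ω ∈ TubeEv col c h a K) (hk : k ∈ K)
    (hu : Spine ω col c h a k u) {p q : ℤ × ℤ} (hp : p.2 = h + a * k.2)
    (hp1 : c + a * k.1 ≤ p.1) (hp2 : p.1 ≤ c + a * (k.1 + 1)) (hq : q.2 = h + a * (k.2 + 1))
    (hpar : (p.1 + p.2 - col) % 2 = 0) (hpq : Conn ω (cellF c h a k) p q) :
    Conn ω (cellF c h a k) u p := by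
  have e1 := mul_succ' a k.1
  have e2 := mul_succ' a k.2
  obtain ⟨h1, h2, h3⟩ := hu
  rcases h3 with ⟨v, v', c1, c2, v1, v2⟩ | ⟨v, v', c1, c2, v1, v2⟩
  · have r1 := Conn.mem_rect c1 h2
    have p1 := Conn.parity c1
    have h5 : Conn ω (cellF c h a k) v v' := (Conn.symm c1).trans c2
    have := crossings_meet (by omega) (by omega) ⟨v1, r1.2.2⟩ v2 ⟨hp, hp1, hp2⟩ hq (by omega)
      h5 hpq
    exact c1.trans this
  · obtain ⟨s, t, s1, s2, s3, t1, s4, st⟩ := (hω k hk).1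
    have r1 := Conn.mem_rect c1 h2
    have p1 := Conn.parity c1
    have h5 : Conn ω (cellF c h a k) v v' := (Conn.symm c1).trans c2
    have h6 := crossings_meet (by omega) (by omega) ⟨s1, s2, s3⟩ t1 ⟨v1, r1.1, r1.2.1⟩ v2 (by omega)
      st h5
    have h7 := crossings_meet (by omega) (by omega) ⟨s1, s2, s3⟩ t1 ⟨hp, hp1, hp2⟩ hq (by omega)
      st hpq
    exact c1.trans ((Conn.symm h6).trans h7)

/-- Neighbouring cells to the right. -/
theorem link_H (ha : 1 ≤ a) (hω : ω ∈ TubeEv col c h a K) (hk : k ∈ K)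
    (hk' : (k.1 + 1, k.2) ∈ K) (hu : Spine ω col c h a k u)
    (hu' : Spine ω col c h a (k.1 + 1, k.2) u') : Conn ω (cellsF c h a K) u u' := by
  obtain ⟨p, q, p1, p2, p3, q1, p4, pq⟩ := (hω k hk).2.1
  obtain ⟨p', q', p1', p2', p3', q1', p4', pq'⟩ := (hω _ hk').2.1
  obtain ⟨s, t, s1, s2, s3, t1, s4, st⟩ := (hω k hk).2.2.1 hk'
  have f1 := spine_link ha hω hk hu p1 p2 p3 q1 p4 pq
  have f2 := spine_link ha hω hk' hu' p1' p2' p3' q1' p4' pq'
  simp only at p1' p2' p3' q1' pq'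
  have e0 := mul_succ2 a k.1
  have e1 := mul_succ' a k.1
  have e2 := mul_succ' a k.2
  have e3 := mul_succ' a (k.1 + 1)
  obtain ⟨z1, -, -, -, -, g1, g2⟩ := PercT.cross_meet le_rfl (by omega) (by omega) le_rfl
    (by omega) le_rfl ⟨s1, s2, s3⟩ t1 ⟨p1, p2, p3⟩ q1 (by omega) st pq
  obtain ⟨z2, -, -, -, -, g3, g4⟩ := PercT.cross_meet (by omega) (by omega) (by omega) le_rfl
    (by omega) le_rfl ⟨s1, s2, s3⟩ t1 ⟨p1', p2', p3'⟩ q1' (by omega) st pq'
  have m1 := cellF_sub (c := c) (h := h) (a := a) hk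
  have m2 := cellF_sub (c := c) (h := h) (a := a) hk'
  have m3 := domH_sub (c := c) (h := h) (a := a) hk hk'
  exact ((f1.mono m1).trans ((g2.mono m1).trans (Conn.symm (g1.mono m3)))).trans
    ((g3.mono m3).trans ((Conn.symm (g4.mono m2)).trans (Conn.symm (f2.mono m2))))

/-- Neighbouring cells above. -/
theorem link_V (ha : 1 ≤ a) (hω : ω ∈ TubeEv col c h a K) (hk : k ∈ K)
    (hk' : (k.1, k.2 + 1) ∈ K) (hu : Spine ω col c h a k u)
    (hu' : Spine ω col c h a (k.1, k.2 + 1) u') : Conn ω (cellsF c h a K) u u' := by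
  obtain ⟨p, q, p1, p2, p3, q1, p4, pq⟩ := (hω k hk).2.1
  obtain ⟨r, s, r1, r2, r3, s1, r4, rs⟩ := (hω k hk).1
  obtain ⟨p', q', p1', p2', p3', q1', p4', pq'⟩ := (hω _ hk').2.1
  obtain ⟨r', s', r1', r2', r3', s1', r4', rs'⟩ := (hω _ hk').1
  obtain ⟨y, z, y1, y2, y3, zz, y4, yz⟩ := (hω k hk).2.2.2 hk'
  have f1 := spine_link ha hω hk hu p1 p2 p3 q1 p4 pq
  have f2 := spine_link ha hω hk' hu' p1' p2' p3' q1' p4' pq'
  simp only at p1' p2' p3' q1' pq' r1' r2' r3' s1' rs'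
  have e0 := mul_succ2 a k.2
  have e1 := mul_succ' a k.1
  have e2 := mul_succ' a k.2
  have e3 := mul_succ' a (k.2 + 1)
  have g1 := crossings_meet (by omega) (by omega) ⟨r1, r2, r3⟩ s1 ⟨p1, p2, p3⟩ q1 (by omega)
    rs pq
  have g2 := crossings_meet (by omega) (by omega) ⟨r1', r2', r3'⟩ s1' ⟨p1', p2', p3'⟩ q1'
    (by omega) rs' pq'
  obtain ⟨z1, -, -, -, -, g3, g4⟩ := PercT.cross_meet le_rfl (by omega) le_rfl le_rfl
    (by omega) (by omega) ⟨r1, r2, r3⟩ s1 ⟨y1, y2, y3⟩ zz (by omega) rs yz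
  obtain ⟨z2, -, -, -, -, g5, g6⟩ := PercT.cross_meet le_rfl (by omega) le_rfl (by omega)
    (by omega) (by omega) ⟨r1', r2', r3'⟩ s1' ⟨y1, y2, y3⟩ zz (by omega) rs' yz
  have m1 := cellF_sub (c := c) (h := h) (a := a) hk
  have m2 := cellF_sub (c := c) (h := h) (a := a) hk'
  have m3 := domV_sub (c := c) (h := h) (a := a) hk hk'
  have A1 : Conn ω (cellsF c h a K) u y :=
    (Conn.mono m1 (f1.trans (Conn.symm g1))).trans ((g3.mono m1).trans (Conn.symm (g4.mono m3)))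
  have A2 : Conn ω (cellsF c h a K) u' y :=
    (Conn.mono m2 (f2.trans (Conn.symm g2))).trans ((g5.mono m2).trans (Conn.symm (g6.mono m3)))
  exact A1.trans (Conn.symm A2)

theorem spine_of_LR {u v : ℤ × ℤ} (h1 : u.1 = c + a * k.1) (h2 : h + a * k.2 ≤ u.2)
    (h3 : u.2 ≤ h + a * (k.2 + 1)) (h4 : v.1 = c + a * (k.1 + 1)) (ha : 1 ≤ a)
    (h5 : (u.1 + u.2 - col) % 2 = 0) (h6 : Conn ω (cellF c h a k) u v) :
    Spine ω col c h a k u ∧ Spine ω col c h a k v := by
  have e1 := mul_succ' a k.1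
  have hin : c + a * k.1 ≤ u.1 ∧ u.1 ≤ c + a * (k.1 + 1) ∧ h + a * k.2 ≤ u.2 ∧
      u.2 ≤ h + a * (k.2 + 1) := ⟨h1.ge, by omega, h2, h3⟩
  have hp := Conn.parity h6
  exact ⟨⟨h5, hin, Or.inl ⟨u, v, Relation.ReflTransGen.refl, h6, h1, h4⟩⟩,
    by omega, Conn.mem_rect h6 hin, Or.inl ⟨u, v, Conn.symm h6, Relation.ReflTransGen.refl, h1, h4⟩⟩

theorem spine_of_BT {u v : ℤ × ℤ} (h1 : u.2 = h + a * k.2) (h2 : c + a * k.1 ≤ u.1)
    (h3 : u.1 ≤ c + a * (k.1 + 1)) (h4 : v.2 = h + a * (k.2 + 1)) (ha : 1 ≤ a)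
    (h5 : (u.1 + u.2 - col) % 2 = 0) (h6 : Conn ω (cellF c h a k) u v) :
    Spine ω col c h a k u ∧ Spine ω col c h a k v := by
  have e1 := mul_succ' a k.2
  have hin : c + a * k.1 ≤ u.1 ∧ u.1 ≤ c + a * (k.1 + 1) ∧ h + a * k.2 ≤ u.2 ∧
      u.2 ≤ h + a * (k.2 + 1) := ⟨h2, h3, h1.ge, by omega⟩
  have hp := Conn.parity h6
  exact ⟨⟨h5, hin, Or.inr ⟨u, v, Relation.ReflTransGen.refl, h6, h1, h4⟩⟩,
    by omega, Conn.mem_rect h6 hin, Or.inr ⟨u, v, Conn.symm h6, Relation.ReflTransGen.refl, h1, h4⟩⟩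

end TubeAux

open TubeAux

/-- A crossing from left to right, given by its end on the left side. -/
theorem exists_spine_LR (ha : 1 ≤ a) (hω : ω ∈ TubeEv col c h a K) (hk : k ∈ K) :
    ∃ u v, u.1 = c + a * k.1 ∧ v.1 = c + a * (k.1 + 1) ∧ Spine ω col c h a k u ∧
      Spine ω col c h a k v ∧ Conn ω (cellF c h a k) u v := by
  obtain ⟨u, v, h1, h2, h3, h4, h5, h6⟩ := (hω k hk).1
  obtain ⟨s1, s2⟩ := spine_of_LR h1 h2 h3 h4 ha h5 h6
  exact ⟨u, v, h1, h4, s1, s2, h6⟩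

/-- A crossing from bottom to top, given by its end on the lower side. -/
theorem exists_spine_BT (ha : 1 ≤ a) (hω : ω ∈ TubeEv col c h a K) (hk : k ∈ K) :
    ∃ u v, u.2 = h + a * k.2 ∧ v.2 = h + a * (k.2 + 1) ∧ Spine ω col c h a k u ∧
      Spine ω col c h a k v ∧ Conn ω (cellF c h a k) u v := by
  obtain ⟨u, v, h1, h2, h3, h4, h5, h6⟩ := (hω k hk).2.1
  obtain ⟨s1, s2⟩ := spine_of_BT h1 h2 h3 h4 ha h5 h6
  exact ⟨u, v, h1, h4, s1, s2, h6⟩

/-- All skeletons of a connected set of cells are connected. -/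
theorem tube_conn (ha : 1 ≤ a) (hω : ω ∈ TubeEv col c h a K) (hk : CConn K k k') (hkK : k ∈ K)
    (hu : Spine ω col c h a k u) (hu' : Spine ω col c h a k' u') :
    Conn ω (cellsF c h a K) u u' := by
  unfold CConn at hk
  induction hk generalizing u' with
  | refl =>
    obtain ⟨p, q, p1, p2, p3, q1, p4, pq⟩ := (hω k hkK).2.1
    have f1 := spine_link ha hω hkK hu p1 p2 p3 q1 p4 pq
    have f2 := spine_link ha hω hkK hu' p1 p2 p3 q1 p4 pq
    exact Conn.mono (cellF_sub hkK) (f1.trans (Conn.symm f2))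
  | @tail l l' _ hadj ih =>
    obtain ⟨h1, h2, h3⟩ := hadj
    obtain ⟨r, s, -, -, hr, -, -⟩ := exists_spine_LR ha hω h1
    refine (ih hr).trans ?_
    have hcase : (l'.1 = l.1 ∧ l'.2 = l.2 + 1) ∨ (l'.1 = l.1 ∧ l.2 = l'.2 + 1) ∨
        (l'.2 = l.2 ∧ l'.1 = l.1 + 1) ∨ (l'.2 = l.2 ∧ l.1 = l'.1 + 1) := by
      rcases h3 with ⟨h3, h4⟩ | ⟨h3, h4⟩
      · rw [abs_eq (by norm_num)] at h4
        omega
      · rw [abs_eq (by norm_num)] at h4
        omega
    rcases hcase with ⟨h4, h5⟩ | ⟨h4, h5⟩ | ⟨h4, h5⟩ | ⟨h4, h5⟩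
    · obtain rfl : l' = (l.1, l.2 + 1) := Prod.ext h4 h5
      exact link_V ha hω h1 h2 hr hu'
    · obtain rfl : l = (l'.1, l'.2 + 1) := Prod.ext h4.symm h5
      exact Conn.symm (link_V ha hω h2 h1 hu' hr)
    · obtain rfl : l' = (l.1 + 1, l.2) := Prod.ext h5 h4
      exact link_H ha hω h1 h2 hr hu'
    · obtain rfl : l = (l'.1 + 1, l'.2) := Prod.ext h5 h4.symm
      exact Conn.symm (link_H ha hω h2 h1 hu' hr)

/-- A path of the same colour which crosses a horizontal row of cells meets the tube: the path goes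
from `p` (not above the row) to `t` (not below the row) inside `[x₀, x₁] × ℤ`, the cells of the row
over `[x₀, x₁]` belong to `K`. -/
theorem tube_meet_row (ha : 1 ≤ a) (hω : ω ∈ TubeEv col c h a K) {i₁ i₂ j y₀ y₁ : ℤ} (hi : i₁ < i₂)
    (hK : ∀ i, i₁ ≤ i → i < i₂ → (i, j) ∈ K) {p t : ℤ × ℤ}
    (hp : Conn ω (RF (c + a * i₁) (c + a * i₂) y₀ y₁) p t) (hpar : (p.1 + p.2 - col) % 2 = 0)
    (hpi : c + a * i₁ ≤ p.1 ∧ p.1 ≤ c + a * i₂ ∧ y₀ ≤ p.2 ∧ p.2 ≤ y₁)
    (h1 : (p.2 ≤ h + a * j ∧ h + a * (j + 1) ≤ t.2) ∨ (t.2 ≤ h + a * j ∧ h + a * (j + 1) ≤ p.2)) :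
    ∃ k ∈ K, ∃ u, k.2 = j ∧ i₁ ≤ k.1 ∧ k.1 < i₂ ∧ Spine ω col c h a k u ∧
      Conn ω ((RF (c + a * i₁) (c + a * i₂) y₀ y₁ : Set (ℤ × ℤ)) ∪
        cellsF c h a ((Ico i₁ i₂) ×ˢ {j})) p u := by
  set K' : Finset (ℤ × ℤ) := (Ico i₁ i₂) ×ˢ {j} with hK'
  have hmem : ∀ k : ℤ × ℤ, k ∈ K' ↔ (i₁ ≤ k.1 ∧ k.1 < i₂) ∧ k.2 = j := by
    intro k
    rw [hK', mem_product, mem_Ico, mem_singleton]
  have hKK : K' ⊆ K := by
    intro k hk
    obtain ⟨⟨k1, k2⟩, k3⟩ := (hmem k).1 hk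
    have := hK k.1 k1 k2
    rwa [← k3] at this
  have hω' := tubeEv_mono hKK hω
  have hl : (i₁, j) ∈ K' := (hmem _).2 ⟨⟨le_rfl, hi⟩, rfl⟩
  have hr : (i₂ - 1, j) ∈ K' := (hmem _).2 ⟨⟨by simp only; omega, by simp only; omega⟩, rfl⟩
  have hcc : ∀ n : ℕ, i₁ + n < i₂ → CConn K' (i₁, j) (i₁ + n, j) := by
    intro n
    induction n with
    | zero =>
      intro _
      rw [Nat.cast_zero, add_zero]
      exact Relation.ReflTransGen.refl
    | succ n ih =>
      intro hn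
      push_cast at hn
      refine (ih (by omega)).tail ⟨(hmem _).2 ⟨⟨by simp only; omega, by simp only; omega⟩, rfl⟩,
        (hmem _).2 ⟨⟨by push_cast; omega, by push_cast; omega⟩, rfl⟩, Or.inr ⟨rfl, ?_⟩⟩
      simp only
      push_cast
      rw [show i₁ + (n : ℤ) - (i₁ + (n + 1)) = -1 by ring]
      norm_num
  have hcc' : CConn K' (i₁, j) (i₂ - 1, j) := by
    have := hcc (i₂ - 1 - i₁).toNat (by omega)
    rwa [Int.toNat_of_nonneg (by omega), show i₁ + (i₂ - 1 - i₁) = i₂ - 1 by ring] at this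
  obtain ⟨u, u', u1, -, hu, -, -⟩ := exists_spine_LR ha hω' hl
  obtain ⟨v, v', -, v1, -, hv, -⟩ := exists_spine_LR ha hω' hr
  simp only [sub_add_cancel] at u1 v1
  have huv := tube_conn ha hω' hcc' hl hu hv
  have hsub : (cellsF c h a K' : Set (ℤ × ℤ)) ⊆
      RF (c + a * i₁) (c + a * i₂) (h + a * j) (h + a * (j + 1)) := by
    intro f hf
    obtain ⟨k, hk, hf'⟩ := mem_biUnion.1 (Finset.mem_coe.1 hf)
    obtain ⟨⟨k1, k2⟩, k3⟩ := (hmem k).1 hk
    unfold cellF at hf'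
    rw [mem_RFi] at hf'
    rw [k3] at hf'
    have b1 : a * i₁ ≤ a * k.1 := mul_le_mul_of_nonneg_left k1 (by omega)
    have b2 : a * (k.1 + 1) ≤ a * i₂ := mul_le_mul_of_nonneg_left (by omega) (by omega)
    refine Finset.mem_coe.2 (mem_RFi.2 ?_)
    omega
  have e1 := mul_succ' a j
  have e2 : a * i₁ < a * i₂ := (mul_lt_mul_iff_right₀ (by omega)).2 hi
  have huv' := huv.mono hsub
  have hpr := Conn.mem_rect hp hpi
  have hup := hu.1
  have hui := hu.2.1
  simp only at hui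
  -- the vertical part
  have hvert : ∃ y z : ℤ × ℤ, y.2 = h + a * j ∧ c + a * i₁ ≤ y.1 ∧ y.1 ≤ c + a * i₂ ∧
      z.2 = h + a * (j + 1) ∧ Conn ω (RF (c + a * i₁) (c + a * i₂) (h + a * j) (h + a * (j + 1)))
        y z ∧ Conn ω (RF (c + a * i₁) (c + a * i₂) y₀ y₁) p y := by
    rcases h1 with ⟨g1, g2⟩ | ⟨g1, g2⟩
    · obtain ⟨y, z, y1, y2, y3, z1, yz, py⟩ := PercT.strip_ver (y₀' := h + a * j)
        (y₁' := h + a * (j + 1)) (by omega) (by omega) (by omega) g1
        ⟨hpi.2.2.1, hpi.1, hpi.2.1⟩ g2 hp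
      exact ⟨y, z, y1, y2, y3, z1, yz, py⟩
    · obtain ⟨y, z, y1, y2, y3, z1, yz, ty⟩ := PercT.strip_ver (y₀' := h + a * j)
        (y₁' := h + a * (j + 1)) (by omega) (by omega) (by omega) g1
        ⟨hpr.2.2.1, hpr.1, hpr.2.1⟩ g2 (Conn.symm hp)
      exact ⟨y, z, y1, y2, y3, z1, yz, hp.trans ty⟩
  obtain ⟨y, z, y1, y2, y3, z1, yz, py⟩ := hvert
  have hpy := Conn.parity py
  have hm := crossings_meet (by omega) (by omega) ⟨u1, hui.2.2.1, hui.2.2.2⟩ v1 ⟨y1, y2, y3⟩ z1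
    (by omega) huv' yz
  have hrow : (RF (c + a * i₁) (c + a * i₂) (h + a * j) (h + a * (j + 1)) : Set (ℤ × ℤ)) ⊆
      RF (c + a * i₁) (c + a * i₂) y₀ y₁ :=
    PercT.Cross.rf_sub le_rfl le_rfl (by omega) (by omega)
  refine ⟨(i₁, j), hKK hl, u, rfl, le_rfl, hi, hu, ?_⟩
  exact Conn.mono Set.subset_union_left (py.trans (Conn.mono hrow (Conn.symm hm)))

theorem depOn_tube (col c h a : ℤ) (K : Finset (ℤ × ℤ)) (ha : 1 ≤ a) :
    DepOn (cellsF c h a K : Set (ℤ × ℤ)) (TubeEv col c h a K) := by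
  intro ω ω' hω
  refine forall_congr' fun k => forall_congr' fun hk => ?_
  have m1 := cellF_sub (c := c) (h := h) (a := a) hk
  refine and_congr (depOn_mono' (depOn_LR _ _ _ _ _) m1 ω ω' hω)
    (and_congr (depOn_mono' (depOn_BT _ _ _ _ _) m1 ω ω' hω) (and_congr ?_ ?_))
  · exact forall_congr' fun hk' =>
      depOn_mono' (depOn_LR _ _ _ _ _) (domH_sub (c := c) (h := h) (a := a) hk hk') ω ω' hω
  · exact forall_congr' fun hk' =>
      depOn_mono' (depOn_BT _ _ _ _ _) (domV_sub (c := c) (h := h) (a := a) hk hk') ω ω' hω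

theorem incD_tube (col c h a : ℤ) (K : Finset (ℤ × ℤ)) : IncD (parD col) (TubeEv col c h a K) := by
  intro ω ω' hle hω k hk
  obtain ⟨h1, h2, h3, h4⟩ := hω k hk
  exact ⟨incD_LR _ _ _ _ _ ω ω' hle h1, incD_BT' _ _ _ _ _ ω ω' hle h2,
    fun h => incD_LR _ _ _ _ _ ω ω' hle (h3 h), fun h => incD_BT' _ _ _ _ _ ω ω' hle (h4 h)⟩

theorem pr_tube (n : ℕ) : ∃ δ : ℝ, 0 < δ ∧ ∀ (col c h a : ℤ) (K W : Finset (ℤ × ℤ)), 1 ≤ a →
    K.card ≤ n → cellsF c h a K ⊆ W → δ ≤ pr W (TubeEv col c h a K) := by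
  classical
  obtain ⟨c₁, hc1, hL⟩ := rswF 2
  obtain ⟨c₂, hc2, hB⟩ := rswF' 2
  set c' := min c₁ c₂ with hc'
  have hc0 : 0 < c' := lt_min hc1 hc2
  have hcle : c' ≤ 1 := (min_le_left _ _).trans
    ((hL 0 0 1 0 1 (by norm_num) (by norm_num) (by norm_num)).trans (pr_le_one _ _))
  refine ⟨(c' ^ 4) ^ n, by positivity, fun col c h a K W ha hK hW => ?_⟩
  let A : (ℤ × ℤ) × Fin 4 → Set Cfg := fun i =>
    ![LR col (c + a * i.1.1) (c + a * (i.1.1 + 1)) (h + a * i.1.2) (h + a * (i.1.2 + 1)),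
      BT col (c + a * i.1.1) (c + a * (i.1.1 + 1)) (h + a * i.1.2) (h + a * (i.1.2 + 1)),
      {ω | (i.1.1 + 1, i.1.2) ∈ K →
        ω ∈ LR col (c + a * i.1.1) (c + a * (i.1.1 + 2)) (h + a * i.1.2) (h + a * (i.1.2 + 1))},
      {ω | (i.1.1, i.1.2 + 1) ∈ K →
        ω ∈ BT col (c + a * i.1.1) (c + a * (i.1.1 + 1)) (h + a * i.1.2) (h + a * (i.1.2 + 2))}] i.2
  have hWc : (cellsF c h a K : Set (ℤ × ℤ)) ⊆ W := by exact_mod_cast hW
  have gL : ∀ x₀ x₁ y₀ y₁ : ℤ, x₀ < x₁ → y₀ < y₁ → x₁ - x₀ ≤ 2 * (y₁ - y₀) →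
      (RF x₀ x₁ y₀ y₁ : Set (ℤ × ℤ)) ⊆ W → DepOn W (LR col x₀ x₁ y₀ y₁) ∧
        c' ≤ pr W (LR col x₀ x₁ y₀ y₁) := by
    intro x₀ x₁ y₀ y₁ hx hy hk hs
    refine ⟨depOn_mono' (depOn_LR _ _ _ _ _) hs, ?_⟩
    rw [pr_eq_of_depOn (depOn_LR _ _ _ _ _) (by exact_mod_cast hs)]
    exact (min_le_left _ _).trans (hL _ _ _ _ _ hx hy (by push_cast; exact hk))
  have gB : ∀ x₀ x₁ y₀ y₁ : ℤ, x₀ < x₁ → y₀ < y₁ → y₁ - y₀ ≤ 2 * (x₁ - x₀) →
      (RF x₀ x₁ y₀ y₁ : Set (ℤ × ℤ)) ⊆ W → DepOn W (BT col x₀ x₁ y₀ y₁) ∧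
        c' ≤ pr W (BT col x₀ x₁ y₀ y₁) := by
    intro x₀ x₁ y₀ y₁ hx hy hk hs
    refine ⟨depOn_mono' (depOn_BT _ _ _ _ _) hs, ?_⟩
    rw [pr_eq_of_depOn (depOn_BT _ _ _ _ _) (by exact_mod_cast hs)]
    exact (min_le_right _ _).trans (hB _ _ _ _ _ hx hy (by push_cast; exact hk))
  have huniv : DepOn (W : Set (ℤ × ℤ)) (Set.univ : Set Cfg) ∧ c' ≤ pr W (Set.univ : Set Cfg) := by
    refine ⟨fun _ _ _ => Iff.rfl, ?_⟩
    have h1 := pr_compl W (∅ : Set Cfg)
    have h2 : pr W (∅ : Set Cfg) = 0 := by rw [ProbA.pr_eq_sum]; simp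
    rw [Set.compl_empty, h2, sub_zero] at h1
    rw [h1]
    exact hcle
  have hA : ∀ i ∈ K ×ˢ (univ : Finset (Fin 4)),
      DepOn W (A i) ∧ IncD (parD col) (A i) ∧ c' ≤ pr W (A i) := by
    rintro ⟨k, e⟩ hi
    have hk : k ∈ K := (mem_product.1 hi).1
    have e0 := mul_succ2 a k.1
    have e0' := mul_succ2 a k.2
    have e1 := mul_succ' a k.1
    have e2 := mul_succ' a k.2
    have m1 := (cellF_sub (c := c) (h := h) (a := a) hk).trans hWc
    fin_cases e
    · have := gL (c + a * k.1) (c + a * (k.1 + 1)) (h + a * k.2) (h + a * (k.2 + 1)) (by omega)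
        (by omega) (by omega) m1
      exact ⟨this.1, incD_LR _ _ _ _ _, this.2⟩
    · have := gB (c + a * k.1) (c + a * (k.1 + 1)) (h + a * k.2) (h + a * (k.2 + 1)) (by omega)
        (by omega) (by omega) m1
      exact ⟨this.1, incD_BT' _ _ _ _ _, this.2⟩
    · by_cases hk' : (k.1 + 1, k.2) ∈ K
      · have e : A (k, 2) = LR col (c + a * k.1) (c + a * (k.1 + 2)) (h + a * k.2)
            (h + a * (k.2 + 1)) := by
          ext ω
          exact ⟨fun h => h hk', fun h _ => h⟩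
        change DepOn W (A (k, 2)) ∧ IncD (parD col) (A (k, 2)) ∧ c' ≤ pr W (A (k, 2))
        rw [e]
        have := gL (c + a * k.1) (c + a * (k.1 + 2)) (h + a * k.2) (h + a * (k.2 + 1)) (by omega)
          (by omega) (by omega) ((domH_sub hk hk').trans hWc)
        exact ⟨this.1, incD_LR _ _ _ _ _, this.2⟩
      · have e : A (k, 2) = Set.univ := by
          ext ω
          exact ⟨fun _ => trivial, fun _ h => absurd h hk'⟩
        change DepOn W (A (k, 2)) ∧ IncD (parD col) (A (k, 2)) ∧ c' ≤ pr W (A (k, 2))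
        rw [e]
        exact ⟨huniv.1, fun _ _ _ _ => trivial, huniv.2⟩
    · by_cases hk' : (k.1, k.2 + 1) ∈ K
      · have e : A (k, 3) = BT col (c + a * k.1) (c + a * (k.1 + 1)) (h + a * k.2)
            (h + a * (k.2 + 2)) := by
          ext ω
          exact ⟨fun h => h hk', fun h _ => h⟩
        change DepOn W (A (k, 3)) ∧ IncD (parD col) (A (k, 3)) ∧ c' ≤ pr W (A (k, 3))
        rw [e]
        have := gB (c + a * k.1) (c + a * (k.1 + 1)) (h + a * k.2) (h + a * (k.2 + 2)) (by omega)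
          (by omega) (by omega) ((domV_sub hk hk').trans hWc)
        exact ⟨this.1, incD_BT' _ _ _ _ _, this.2⟩
      · have e : A (k, 3) = Set.univ := by
          ext ω
          exact ⟨fun _ => trivial, fun _ h => absurd h hk'⟩
        change DepOn W (A (k, 3)) ∧ IncD (parD col) (A (k, 3)) ∧ c' ≤ pr W (A (k, 3))
        rw [e]
        exact ⟨huniv.1, fun _ _ _ _ => trivial, huniv.2⟩
  have h1 := harris_list (parD col) (K ×ˢ (univ : Finset (Fin 4))) A (fun i hi => (hA i hi).1)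
    (fun i hi => (hA i hi).2.1)
  have h2 : (c' ^ 4) ^ K.card ≤ ∏ i ∈ K ×ˢ (univ : Finset (Fin 4)), pr W (A i) := by
    have h3 : (c' ^ 4) ^ K.card = ∏ _i ∈ K ×ˢ (univ : Finset (Fin 4)), c' := by
      rw [prod_const, card_product, card_univ, Fintype.card_fin, ← pow_mul, mul_comm]
    rw [h3]
    exact prod_le_prod (fun _ _ => hc0.le) fun i hi => (hA i hi).2.2
  have h4 : (c' ^ 4) ^ n ≤ (c' ^ 4) ^ K.card :=
    pow_le_pow_of_le_one (by positivity) (pow_le_one₀ hc0.le hcle) hK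
  refine (h4.trans h2).trans (h1.trans (pr_mono _ ?_))
  intro ω hω k hk
  have g := fun e => hω (k, e) (mem_product.2 ⟨hk, mem_univ _⟩)
  exact ⟨g 0, g 1, g 2, g 3⟩

end Pool.Agent.Perc6

end Partperc6Tube

section Partperc3Duality

/-!
# A separated lifted set leaves room for a corridor

`T` is a finite set of faces which contains the four faces at the vertex `(-1, 0)`. If an integer
valued function on the faces next to `T` had the monodromy of the cut, the sum over all vertices of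
the increments along the boundary of `T` would be both `0` and `-1`.
-/

set_option autoImplicit false

namespace Pool.Agent.Perc3

open Finset Pool.Agent.Perc

section stokes

variable (T : ℤ × ℤ → Prop) [DecidablePred T] (h : ℤ × ℤ → ℤ)

/-- Contribution of a horizontal unit edge. -/
def FH (i j : ℤ) : ℤ :=
  (if T (i, j) ∧ ¬ T (i, j - 1) then h (i, j - 1) else 0) -
    (if T (i, j - 1) ∧ ¬ T (i, j) then h (i, j) else 0)

/-- Contribution of a vertical unit edge. -/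
def FV (i j : ℤ) : ℤ :=
  (if T (i - 1, j) ∧ ¬ T (i, j) then h (i, j) else 0) -
    (if T (i, j) ∧ ¬ T (i - 1, j) then h (i - 1, j) else 0)

/-- The unit edge `(x, 0, false)` is a side of a face of `T`. -/
def tT (x : ℤ) : ℤ := if T (x, 0) ∨ T (x, -1) then 1 else 0

/-- The correction at the cut. -/
def cadj (x y b : ℤ) : ℤ := if y = 0 ∧ x ≤ -1 ∧ b < 0 then 1 else 0

/-- The faces `f` and `f'` at the vertex `(x, y)` have compatible values. -/
def RelV (x y : ℤ) (f f' : ℤ × ℤ) : Prop := h f - cadj x y f.2 = h f' - cadj x y f'.2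

variable {T h}

theorem vertex_sum {x y : ℤ}
    (r1 : ¬ T (x, y) → ¬ T (x - 1, y) → T (x, y - 1) → T (x - 1, y - 1) →
      RelV h x y (x, y) (x - 1, y))
    (r2 : ¬ T (x, y) → ¬ T (x, y - 1) → T (x - 1, y) → T (x - 1, y - 1) →
      RelV h x y (x, y) (x, y - 1))
    (r3 : ¬ T (x, y) → ¬ T (x - 1, y - 1) → (T (x - 1, y) ∨ T (x, y - 1)) →
      RelV h x y (x, y) (x - 1, y - 1))
    (r4 : ¬ T (x - 1, y) → ¬ T (x, y - 1) → (T (x, y) ∨ T (x - 1, y - 1)) →
      RelV h x y (x - 1, y) (x, y - 1))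
    (r5 : ¬ T (x - 1, y) → ¬ T (x - 1, y - 1) → T (x, y) → T (x, y - 1) →
      RelV h x y (x - 1, y) (x - 1, y - 1))
    (r6 : ¬ T (x, y - 1) → ¬ T (x - 1, y - 1) → T (x, y) → T (x - 1, y) →
      RelV h x y (x, y - 1) (x - 1, y - 1)) :
    FH T h (x - 1) y - FH T h x y + FV T h x (y - 1) - FV T h x y =
      if y = 0 ∧ x ≤ -1 then tT T (x - 1) - tT T x else 0 := by
  obtain ⟨u, hu⟩ : ∃ u : ℤ, u = if y = 0 ∧ x ≤ -1 then 1 else 0 := ⟨_, rfl⟩
  obtain ⟨c1, hc1⟩ : ∃ c : ℤ, c = cadj x y y := ⟨_, rfl⟩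
  obtain ⟨c2, hc2⟩ : ∃ c : ℤ, c = cadj x y (y - 1) := ⟨_, rfl⟩
  have hc3 : c2 = c1 + u := by
    rw [hc1, hc2, hu]
    unfold cadj
    split_ifs <;> omega
  have e2 : (if y = 0 ∧ x ≤ -1 then tT T (x - 1) - tT T x else 0) =
      u * ((if T (x - 1, y) ∨ T (x - 1, y - 1) then 1 else 0) -
        (if T (x, y) ∨ T (x, y - 1) then 1 else 0)) := by
    by_cases hy : y = 0 ∧ x ≤ -1
    · obtain ⟨rfl, hx⟩ := hy
      rw [hu, if_pos ⟨rfl, hx⟩, if_pos ⟨rfl, hx⟩, one_mul]
      unfold tT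
      rw [zero_sub]
    · rw [hu, if_neg hy, if_neg hy, zero_mul]
  rw [e2]
  unfold RelV at *
  simp only [← hc1, ← hc2] at r1 r2 r3 r4 r5 r6
  clear e2 hu hc1 hc2
  unfold FH FV
  by_cases a : T (x, y) <;> by_cases b : T (x - 1, y) <;> by_cases c : T (x, y - 1) <;>
    by_cases d : T (x - 1, y - 1) <;>
    simp [a, b, c, d] at r1 r2 r3 r4 r5 r6 ⊢ <;> omega

theorem sum_Ico_tel {a b : ℤ} (hab : a ≤ b) (g : ℤ → ℤ) :
    ∑ i ∈ Ico a b, (g (i - 1) - g i) = g (a - 1) - g (b - 1) := by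
  induction b, hab using Int.leInduction with
  | base => simp
  | succ b hb ih =>
    rw [show Ico a (b + 1) = insert b (Ico a b) by ext i; simp only [mem_Ico, mem_insert]; omega,
      sum_insert (by simp), ih, add_sub_cancel_right]
    ring

/-- Stokes: the sum over all vertices vanishes. -/
theorem total_sum {M : ℤ} (hM : 0 ≤ M) (hT : ∀ f, T f → -M < f.1 ∧ f.1 < M ∧ -M < f.2 ∧ f.2 < M) :
    ∑ y ∈ Ico (-M) (M + 1), ∑ x ∈ Ico (-M) (M + 1),
      (FH T h (x - 1) y - FH T h x y + FV T h x (y - 1) - FV T h x y) = 0 := by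
  have h1 : ∀ y ∈ Ico (-M) (M + 1), ∑ x ∈ Ico (-M) (M + 1),
      (FH T h (x - 1) y - FH T h x y + FV T h x (y - 1) - FV T h x y) =
      ∑ x ∈ Ico (-M) (M + 1), (FV T h x (y - 1) - FV T h x y) := by
    intro y _
    have e : ∑ x ∈ Ico (-M) (M + 1), (FH T h (x - 1) y - FH T h x y) = 0 := by
      rw [sum_Ico_tel (by omega) fun x => FH T h x y]
      have z1 : FH T h (-M - 1) y = 0 := by
        unfold FH
        rw [if_neg (fun hc => by have := hT _ hc.1; simp only at this; omega),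
          if_neg (fun hc => by have := hT _ hc.1; simp only at this; omega)]
        rfl
      have z2 : FH T h (M + 1 - 1) y = 0 := by
        unfold FH
        rw [if_neg (fun hc => by have := hT _ hc.1; simp only at this; omega),
          if_neg (fun hc => by have := hT _ hc.1; simp only at this; omega)]
        rfl
      rw [z1, z2]
      rfl
    calc ∑ x ∈ Ico (-M) (M + 1),
          (FH T h (x - 1) y - FH T h x y + FV T h x (y - 1) - FV T h x y)
        = ∑ x ∈ Ico (-M) (M + 1), ((FH T h (x - 1) y - FH T h x y) +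
            (FV T h x (y - 1) - FV T h x y)) := by
          refine sum_congr rfl fun x _ => ?_
          ring
      _ = _ := by rw [sum_add_distrib, e, zero_add]
  rw [sum_congr rfl h1, sum_comm]
  refine sum_eq_zero fun x _ => ?_
  rw [sum_Ico_tel (by omega) fun y => FV T h x y]
  have z1 : FV T h x (-M - 1) = 0 := by
    unfold FV
    rw [if_neg (fun hc => by have := hT _ hc.1; simp only at this; omega),
      if_neg (fun hc => by have := hT _ hc.1; simp only at this; omega)]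
    rfl
  have z2 : FV T h x (M + 1 - 1) = 0 := by
    unfold FV
    rw [if_neg (fun hc => by have := hT _ hc.1; simp only at this; omega),
      if_neg (fun hc => by have := hT _ hc.1; simp only at this; omega)]
    rfl
  rw [z1, z2]
  rfl

/-- The value of the sum given by the monodromy. -/
theorem cut_sum {M : ℤ} (hM : 1 < M) (hT : ∀ f, T f → -M < f.1 ∧ f.1 < M ∧ -M < f.2 ∧ f.2 < M)
    (h0 : T (-1, 0)) :
    ∑ y ∈ Ico (-M) (M + 1), ∑ x ∈ Ico (-M) (M + 1),
      (if y = 0 ∧ x ≤ -1 then tT T (x - 1) - tT T x else 0) = -1 := by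
  rw [sum_eq_single_of_mem (0 : ℤ) (by rw [mem_Ico]; omega)]
  · have e : ∑ x ∈ Ico (-M) (M + 1), (if (0 : ℤ) = 0 ∧ x ≤ -1 then tT T (x - 1) - tT T x else 0) =
        ∑ x ∈ Ico (-M) 0, (tT T (x - 1) - tT T x) := by
      rw [← sum_filter]
      refine sum_congr ?_ fun _ _ => rfl
      ext x
      rw [mem_filter, mem_Ico, mem_Ico]
      constructor
      · rintro ⟨h1, h2⟩
        omega
      · intro h1
        exact ⟨by omega, rfl, by omega⟩
    rw [e, sum_Ico_tel (by omega) fun x => tT T x]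
    have z1 : tT T (-M - 1) = 0 := by
      unfold tT
      rw [if_neg]
      rintro (hc | hc)
      · have := hT _ hc
        simp only at this
        omega
      · have := hT _ hc
        simp only at this
        omega
    have z2 : tT T (0 - 1) = 1 := by
      unfold tT
      rw [zero_sub, if_pos (Or.inl h0)]
    rw [z1, z2]
    rfl
  · intro y _ hy
    refine sum_eq_zero fun x _ => ?_
    rw [if_neg (fun hc => hy hc.1)]

/-- The faces at the vertex `(x, y)`. -/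
def FaceAt (x y : ℤ) (f : ℤ × ℤ) : Prop := (f.1 = x ∨ f.1 = x - 1) ∧ (f.2 = y ∨ f.2 = y - 1)

/-- Two faces have a common side. -/
def Adj4 (f g : ℤ × ℤ) : Prop :=
  (f.2 = g.2 ∧ (g.1 = f.1 + 1 ∨ f.1 = g.1 + 1)) ∨ (f.1 = g.1 ∧ (g.2 = f.2 + 1 ∨ f.2 = g.2 + 1))

theorem Adj4.symm {f g : ℤ × ℤ} (h : Adj4 f g) : Adj4 g f := by
  unfold Adj4 at *
  omega

/-- There is no function with the monodromy of the cut on the faces next to a finite set of faces
which contains the four faces at `(-1, 0)`. -/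
theorem no_function {M : ℤ} (hM : 1 < M)
    (hT : ∀ f, T f → -M < f.1 ∧ f.1 < M ∧ -M < f.2 ∧ f.2 < M)
    (h1 : T (-1, 0)) (h2 : T (-2, 0)) (h3 : T (-1, -1)) (h4 : T (-2, -1))
    (hrel : ∀ x y : ℤ, (x, y) ≠ (-1, 0) → ∀ f f' g g' : ℤ × ℤ, FaceAt x y f → FaceAt x y f' →
      ¬ T f → ¬ T f' → T g → T g' → Adj4 f g → Adj4 f' g' → RelV h x y f f') : False := by
  have key := total_sum (T := T) (h := h) (by omega) hT
  have e : ∀ x y : ℤ, FH T h (x - 1) y - FH T h x y + FV T h x (y - 1) - FV T h x y =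
      if y = 0 ∧ x ≤ -1 then tT T (x - 1) - tT T x else 0 := by
    intro x y
    by_cases hv : (x, y) = (-1, 0)
    · simp only [Prod.mk.injEq] at hv
      obtain ⟨rfl, rfl⟩ := hv
      apply vertex_sum
      · intro ha; exact absurd h1 ha
      · intro ha; exact absurd h1 ha
      · intro ha; exact absurd h1 ha
      · intro ha; exact absurd h2 ha
      · intro ha; exact absurd h2 ha
      · intro ha; exact absurd h3 ha
    · have r := hrel x y hv
      apply vertex_sum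
      · intro ha hb hc hd
        exact r _ _ _ _ (by unfold FaceAt; simp) (by unfold FaceAt; simp) ha hb hc hd
          (by unfold Adj4; simp) (by unfold Adj4; simp)
      · intro ha hb hc hd
        exact r _ _ _ _ (by unfold FaceAt; simp) (by unfold FaceAt; simp) ha hb hc hd
          (by unfold Adj4; simp) (by unfold Adj4; simp)
      · rintro ha hb (hc | hc)
        · exact r _ _ _ _ (by unfold FaceAt; simp) (by unfold FaceAt; simp) ha hb hc hc
            (by unfold Adj4; simp) (by unfold Adj4; simp)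
        · exact r _ _ _ _ (by unfold FaceAt; simp) (by unfold FaceAt; simp) ha hb hc hc
            (by unfold Adj4; simp) (by unfold Adj4; simp)
      · rintro ha hb (hc | hc)
        · exact r _ _ _ _ (by unfold FaceAt; simp) (by unfold FaceAt; simp) ha hb hc hc
            (by unfold Adj4; simp) (by unfold Adj4; simp)
        · exact r _ _ _ _ (by unfold FaceAt; simp) (by unfold FaceAt; simp) ha hb hc hc
            (by unfold Adj4; simp) (by unfold Adj4; simp)
      · intro ha hb hc hd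
        exact r _ _ _ _ (by unfold FaceAt; simp) (by unfold FaceAt; simp) ha hb hc hd
          (by unfold Adj4; simp) (by unfold Adj4; simp)
      · intro ha hb hc hd
        exact r _ _ _ _ (by unfold FaceAt; simp) (by unfold FaceAt; simp) ha hb hc hd
          (by unfold Adj4; simp) (by unfold Adj4; simp)
  have h5 := cut_sum (T := T) hM hT h1
  have h6 : ∑ y ∈ Ico (-M) (M + 1), ∑ x ∈ Ico (-M) (M + 1),
      (FH T h (x - 1) y - FH T h x y + FV T h x (y - 1) - FV T h x y) =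
      ∑ y ∈ Ico (-M) (M + 1), ∑ x ∈ Ico (-M) (M + 1),
      (if y = 0 ∧ x ≤ -1 then tT T (x - 1) - tT T x else 0) :=
    sum_congr rfl fun y _ => sum_congr rfl fun x _ => e x y
  rw [key, h5] at h6
  exact absurd h6 (by norm_num)

end stokes

/-! ### The corridor -/

/-- `1` for the lower faces on the negative side, `0` otherwise. -/
def lv (x y : ℤ) : ℤ := if x < 0 ∧ y < 0 then 1 else 0

/-- Two lifted faces of `S` at distance at most `D` are close to each other in the cover. -/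
def Sep (D : ℤ) (S : Set LF) : Prop :=
  ∀ s ∈ S, ∀ s' ∈ S, |s.1.1 - s'.1.1| ≤ D → |s.1.2 - s'.1.2| ≤ D →
    s'.2 - lv s.1.1 s'.1.2 = s.2 - lv s.1.1 s.1.2

/-- The face `f` is at distance more than `ρ` from `S`. -/
def FreeF (ρ : ℤ) (S : Set LF) (f : ℤ × ℤ) : Prop :=
  ∀ s ∈ S, ρ < max |f.1 - s.1.1| |f.2 - s.1.2|

/-- Chains of neighbouring free faces. -/
def ChainF (ρ : ℤ) (S : Set LF) : ℤ × ℤ → ℤ × ℤ → Prop :=
  Relation.ReflTransGen fun f g => Adj4 f g ∧ FreeF ρ S f ∧ FreeF ρ S g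

theorem rel_aux {ρ d x y a b a' b' p q i p' q' i' : ℤ} (hρ : 0 ≤ ρ) (hd : 2 * ρ + 3 < d)
    (hf : (a = x ∨ a = x - 1) ∧ (b = y ∨ b = y - 1))
    (hf' : (a' = x ∨ a' = x - 1) ∧ (b' = y ∨ b' = y - 1))
    (o : ¬ (-d ≤ p ∧ p < d ∧ -d ≤ q ∧ q < d))
    (h1 : -ρ ≤ a - p ∧ a - p ≤ ρ) (h2 : -ρ ≤ b - q ∧ b - q ≤ ρ)
    (h3 : -ρ ≤ a' - p' ∧ a' - p' ≤ ρ) (h4 : -ρ ≤ b' - q' ∧ b' - q' ≤ ρ)
    (o' : ¬ (-d ≤ p' ∧ p' < d ∧ -d ≤ q' ∧ q' < d))
    (hs : i' - lv p q' = i - lv p q) :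
    i - lv p q + lv p b - cadj x y b = i' - lv p' q' + lv p' b' - cadj x y b' := by
  have key : lv p' b' = lv p b' ∧ lv p' q' = lv p q' ∨
      (lv p' b' = lv p' q' ∧ lv p b' = lv p q' ∧ lv p b = lv p q ∧ b < 0 ∧ b' < 0) ∨
      (lv p' b' = 0 ∧ lv p' q' = 0 ∧ lv p b' = 0 ∧ lv p q' = 0 ∧ 0 ≤ b ∧ 0 ≤ b') := by
    by_cases hq : 0 ≤ b ∧ 0 ≤ b' ∧ 0 ≤ q ∧ 0 ≤ q'
    · right; right
      unfold lv
      refine ⟨if_neg (by omega), if_neg (by omega), if_neg (by omega), if_neg (by omega), hq.1,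
        hq.2.1⟩
    · by_cases hq2 : b < 0 ∧ b' < 0 ∧ q < 0 ∧ q' < 0
      · right; left
        unfold lv
        refine ⟨?_, ?_, ?_, hq2.1, hq2.2.1⟩ <;> split_ifs <;> omega
      · left
        have hpp : p < 0 ↔ p' < 0 := by omega
        unfold lv
        simp only [hpp]
        exact ⟨trivial, trivial⟩
  have hc : (lv p b - cadj x y b) = (lv p b' - cadj x y b') ∨ (b < 0 ∧ b' < 0) ∨
      (0 ≤ b ∧ 0 ≤ b') := by
    by_cases hb : (b < 0 ∧ b' < 0) ∨ (0 ≤ b ∧ 0 ≤ b')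
    · exact Or.inr hb
    · left
      have hy : y = 0 := by omega
      unfold lv cadj
      by_cases hp : p < 0
      · have hx : x ≤ -1 := by omega
        split_ifs <;> omega
      · have hx : ¬ x ≤ -1 := by omega
        split_ifs <;> omega
  have hc2 : b < 0 ∧ b' < 0 → cadj x y b = cadj x y b' := by
    intro h
    unfold cadj
    split_ifs <;> omega
  have hc3 : 0 ≤ b ∧ 0 ≤ b' → cadj x y b = cadj x y b' := by
    intro h
    unfold cadj
    split_ifs <;> omega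
  have hl2 : b < 0 ∧ b' < 0 → lv p b = lv p b' := by
    intro h
    unfold lv
    split_ifs <;> omega
  have hl3 : 0 ≤ b ∧ 0 ≤ b' → lv p b = lv p b' := by
    intro h
    unfold lv
    split_ifs <;> omega
  have hl4 : 0 ≤ b → lv p b = 0 := by
    intro h
    unfold lv
    exact if_neg (by omega)
  omega

/-- A separated set leaves room for a corridor. -/
theorem exists_corridor {S : Set LF} {L w d ρ : ℤ} (hρ : 0 ≤ ρ) (hd : 2 * ρ + 3 < d)
    (hS : ∀ s ∈ S, ¬ (-d ≤ s.1.1 ∧ s.1.1 < d ∧ -d ≤ s.1.2 ∧ s.1.2 < d))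
    (hSep : Sep (2 * ρ + 1) S) :
    ∃ f, ¬ (-L ≤ f.1 ∧ f.1 < L ∧ -w ≤ f.2 ∧ f.2 < w) ∧ ChainF ρ S (-1, 0) f := by
  classical
  by_contra hcon
  have hin : ∀ f, ChainF ρ S (-1, 0) f → -L ≤ f.1 ∧ f.1 < L ∧ -w ≤ f.2 ∧ f.2 < w := by
    intro f hf
    by_contra hc
    exact hcon ⟨f, hc, hf⟩
  -- faces near the centre are free
  have hfree : ∀ f : ℤ × ℤ, -2 ≤ f.1 → f.1 ≤ 0 → -2 ≤ f.2 → f.2 ≤ 0 → FreeF ρ S f := by
    intro f h1 h2 h3 h4 s hs
    have h5 := hS s hs
    rw [lt_max_iff, lt_abs, lt_abs]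
    omega
  let T : ℤ × ℤ → Prop := fun f => ChainF ρ S (-1, 0) f
  have t1 : T (-1, 0) := Relation.ReflTransGen.refl
  have t2 : T (-2, 0) := Relation.ReflTransGen.single
    ⟨by unfold Adj4; simp, hfree _ (by norm_num) (by norm_num) (by norm_num) (by norm_num),
      hfree _ (by norm_num) (by norm_num) (by norm_num) (by norm_num)⟩
  have t3 : T (-1, -1) := Relation.ReflTransGen.single
    ⟨by unfold Adj4; simp, hfree _ (by norm_num) (by norm_num) (by norm_num) (by norm_num),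
      hfree _ (by norm_num) (by norm_num) (by norm_num) (by norm_num)⟩
  have t4 : T (-2, -1) := Relation.ReflTransGen.tail t2
    ⟨by unfold Adj4; simp, hfree _ (by norm_num) (by norm_num) (by norm_num) (by norm_num),
      hfree _ (by norm_num) (by norm_num) (by norm_num) (by norm_num)⟩
  have hTfree : ∀ f, T f → FreeF ρ S f := by
    intro f hf
    induction hf with
    | refl => exact hfree _ (by norm_num) (by norm_num) (by norm_num) (by norm_num)
    | tail _ hs _ => exact hs.2.2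
  -- the neighbours of `T` are close to `S`
  have hnear : ∀ f g, ¬ T f → T g → Adj4 f g → ∃ s ∈ S, |f.1 - s.1.1| ≤ ρ ∧ |f.2 - s.1.2| ≤ ρ := by
    intro f g hf hg ha
    by_contra hc
    apply hf
    refine Relation.ReflTransGen.tail hg ⟨ha.symm, hTfree g hg, ?_⟩
    intro s hs
    rw [lt_max_iff]
    by_contra h
    rw [not_or, not_lt, not_lt] at h
    exact hc ⟨s, hs, h⟩
  let Q : ℤ × ℤ → LF → Prop := fun f s => s ∈ S ∧ |f.1 - s.1.1| ≤ ρ ∧ |f.2 - s.1.2| ≤ ρ
  let h : ℤ × ℤ → ℤ := fun f => if hf : ∃ s, Q f s then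
    (Classical.choose hf).2 - lv (Classical.choose hf).1.1 (Classical.choose hf).1.2 +
      lv (Classical.choose hf).1.1 f.2 else 0
  have hspec : ∀ f g, ¬ T f → T g → Adj4 f g → ∃ s, Q f s ∧
      h f = s.2 - lv s.1.1 s.1.2 + lv s.1.1 f.2 := by
    intro f g hf hg ha
    obtain ⟨s, hs, h1, h2⟩ := hnear f g hf hg ha
    have hf' : ∃ s, Q f s := ⟨s, hs, h1, h2⟩
    refine ⟨Classical.choose hf', Classical.choose_spec hf', ?_⟩
    simp only [h]
    rw [dif_pos hf']
  refine no_function (T := T) (h := h) (M := |L| + |w| + 2) ?_ ?_ t1 t2 t3 t4 ?_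
  · have h1 := abs_nonneg L
    have h2 := abs_nonneg w
    omega
  · intro f hf
    have h1 := hin f hf
    have h2 := le_abs_self L
    have h3 := le_abs_self w
    have h4 := abs_nonneg L
    have h5 := abs_nonneg w
    omega
  · intro x y hv f f' g g' hf hf' hTf hTf' hg hg' ha ha'
    obtain ⟨s, ⟨hs, hs1, hs2⟩, e⟩ := hspec f g hTf hg ha
    obtain ⟨s', ⟨hs', hs1', hs2'⟩, e'⟩ := hspec f' g' hTf' hg' ha'
    unfold FaceAt at hf hf'
    have o := hS s hs
    rw [abs_le] at hs1 hs2 hs1' hs2'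
    have hsep := hSep s hs s' hs' (by rw [abs_le]; omega) (by rw [abs_le]; omega)
    unfold RelV
    rw [e, e']
    exact rel_aux hρ hd hf hf' o hs1 hs2 hs1' hs2' (hS s' hs') hsep

end Pool.Agent.Perc3

end Partperc3Duality
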