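import Pool.Agent.Lib.MP_6bd702_zc.Pre
import Pool.Agent.Lib.MP_6bd702_z.Z015
import Pool.Agent.Lib.MP_6bd702_z.Z013
import Pool.Agent.Lib.MP_6bd702_z.Z034

/-!
# The clusters of the box in the face grid
-/

set_option autoImplicit false

namespace Pool.Agent.PercBc

open Finset Pool.Agent.Perc
open Pool.Agent.PercX60 (Sn eE phiE_eE eE_phiE)

variable {n : ℕ} {ω : Cfg} {u v x y : ℤ × ℤ}

/-- The vertices of the cluster of `u` in the face grid. -/
def CL (n : ℕ) (ω : Cfg) (u : ℤ × ℤ) : Set (ℤ × ℤ) := {x | ∃ v ∈ clV (cfgE n ω) u, phiV v = x}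

theorem phiV_injective : Function.Injective phiV := by
  rintro ⟨a, b⟩ ⟨c, d⟩ h
  simp only [phiV, Prod.mk.injEq] at h ⊢
  omega

theorem mem_Sn {f : ℤ × ℤ} : f ∈ Sn n ↔ eE f ∈ boxE n := by
  unfold Sn
  rw [Finset.mem_image]
  constructor
  · rintro ⟨e, he, rfl⟩
    rwa [eE_phiE]
  · intro h
    exact ⟨eE f, h, phiE_eE f⟩

/-- The faces of a small box in the diamond. -/
theorem sub_Sn {a h r : ℤ} (hr : |a - n| + |h| + 2 * r ≤ n) :
    RF (a - r) (a + r) (h - r) (h + r) ⊆ Sn n := by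
  rintro ⟨x, y⟩ hf
  rw [mem_RFi] at hf
  rw [mem_Sn, DictB.mem_boxE, DictB.mem_Box, DictB.mem_Box]
  have h1 := neg_abs_le (a - n)
  have h2 := le_abs_self (a - n)
  have h3 := neg_abs_le h
  have h4 := le_abs_self h
  unfold eE
  simp only at hf
  by_cases hp : (x + y) % 2 = 0
  · simp only [hp, if_true, tl, hd, Bool.false_eq_true, if_false]
    omega
  · simp only [hp, if_false, tl, hd, if_true]
    omega

theorem adjT_bond (h : AdjT (cfgE n ω) u v) : Bond ω (Sn n) (phiV u) (phiV v) := by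
  have key : ∀ e ∈ cfgE n ω, Bond ω (Sn n) (phiV (tl e)) (phiV (hd e)) := by
    intro e he
    obtain ⟨h1, h2⟩ := DictB.mem_cfgE.1 he
    have hS : phiE e ∈ Sn n := mem_image_of_mem _ h1
    obtain ⟨a, b, t⟩ := e
    cases t
    · refine ⟨a + b, a - b, by simpa [phiE] using hS, Or.inl ⟨by simpa [phiE] using h2, Or.inl ?_⟩⟩
      constructor <;> ext <;> simp [phiV, tl, hd] <;> ring
    · refine ⟨a + b, a - b - 1, by simpa [phiE] using hS, Or.inr ⟨by simpa [phiE] using h2,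
        Or.inl ?_⟩⟩
      constructor <;> ext <;> simp [phiV, tl, hd] <;> ring
  obtain ⟨e, he, ⟨rfl, rfl⟩ | ⟨rfl, rfl⟩⟩ := h
  · exact key e he
  · exact (key e he).symm

theorem bond_adjT (h : Bond ω (Sn n) (phiV u) y) : ∃ v, phiV v = y ∧ AdjT (cfgE n ω) u v := by
  obtain ⟨a, b, hf, hh⟩ := h
  have hf' := mem_Sn.1 (mem_coe.1 hf)
  obtain ⟨p, q⟩ := u
  unfold eE at hf'
  simp only at hf'
  rcases hh with ⟨h0, hh⟩ | ⟨h0, hh⟩
  · have hpar : (a + b) % 2 = 0 := by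
      simp only [phiV, Prod.mk.injEq] at hh
      omega
    rw [if_pos hpar] at hf'
    have he : ((a + b) / 2, (a - b) / 2, false) ∈ cfgE n ω := by
      rw [DictB.mem_cfgE]
      refine ⟨hf', ?_⟩
      have : phiE ((a + b) / 2, (a - b) / 2, false) = (a, b) := by
        simp only [phiE, Bool.false_eq_true, if_false, Prod.mk.injEq]
        omega
      rw [this, h0]
      rfl
    rcases hh with ⟨h1, rfl⟩ | ⟨h1, rfl⟩
    · refine ⟨((a + b) / 2 + 1, (a - b) / 2), ?_, _, he, Or.inl ⟨?_, ?_⟩⟩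
      · simp only [phiV, Prod.mk.injEq]
        omega
      · simp only [phiV, tl, Prod.mk.injEq] at h1 ⊢
        omega
      · simp [hd]
    · refine ⟨((a + b) / 2, (a - b) / 2), ?_, _, he, Or.inr ⟨?_, ?_⟩⟩
      · simp only [phiV, Prod.mk.injEq]
        omega
      · simp only [tl]
      · simp only [phiV, hd, Bool.false_eq_true, if_false, Prod.mk.injEq] at h1 ⊢
        omega
  · have hpar : ¬ (a + b) % 2 = 0 := by
      simp only [phiV, Prod.mk.injEq] at hh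
      omega
    rw [if_neg hpar] at hf'
    have he : ((a + b + 1) / 2, (a - b - 1) / 2, true) ∈ cfgE n ω := by
      rw [DictB.mem_cfgE]
      refine ⟨hf', ?_⟩
      have : phiE ((a + b + 1) / 2, (a - b - 1) / 2, true) = (a, b) := by
        simp only [phiE, if_true, Prod.mk.injEq]
        omega
      rw [this, h0]
      rfl
    rcases hh with ⟨h1, rfl⟩ | ⟨h1, rfl⟩
    · refine ⟨((a + b + 1) / 2, (a - b - 1) / 2 + 1), ?_, _, he, Or.inl ⟨?_, ?_⟩⟩
      · simp only [phiV, Prod.mk.injEq]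
        omega
      · simp only [phiV, tl, Prod.mk.injEq] at h1 ⊢
        omega
      · simp [hd]
    · refine ⟨((a + b + 1) / 2, (a - b - 1) / 2), ?_, _, he, Or.inr ⟨?_, ?_⟩⟩
      · simp only [phiV, Prod.mk.injEq]
        omega
      · simp only [tl]
      · simp only [phiV, hd, if_true, Prod.mk.injEq] at h1 ⊢
        omega

theorem conn_of_clV (h : v ∈ clV (cfgE n ω) u) : Conn ω (Sn n) (phiV u) (phiV v) := by
  induction h with
  | refl => exact .refl
  | tail _ h ih => exact ih.tail (adjT_bond h)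

theorem clV_of_conn' (h : Conn ω (Sn n) (phiV u) y) : y ∈ CL n ω u := by
  induction h with
  | refl => exact ⟨u, BoxAux.mem_clV_self _ _, rfl⟩
  | tail _ hb ih =>
    obtain ⟨w, hw, rfl⟩ := ih
    obtain ⟨v, rfl, h⟩ := bond_adjT hb
    exact ⟨v, Relation.ReflTransGen.tail hw h, rfl⟩

theorem mem_CL_iff : y ∈ CL n ω u ↔ Conn ω (Sn n) (phiV u) y :=
  ⟨by rintro ⟨v, hv, rfl⟩; exact conn_of_clV hv, clV_of_conn'⟩

theorem CL_conn (hx : x ∈ CL n ω u) (hy : y ∈ CL n ω u) : Conn ω (Sn n) x y :=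
  (mem_CL_iff.1 hx).symm.trans (mem_CL_iff.1 hy)

theorem CL_of_conn (hx : x ∈ CL n ω u) (h : Conn ω (Sn n) x y) : y ∈ CL n ω u :=
  mem_CL_iff.2 ((mem_CL_iff.1 hx).trans h)

theorem CL_par (hx : x ∈ CL n ω u) : (x.1 + x.2) % 2 = 0 := by
  obtain ⟨v, -, rfl⟩ := hx
  simp only [phiV]
  omega

theorem CL_diamond (hu : u ∈ Box n) (hx : x ∈ CL n ω u) : |x.1 - n| + |x.2| ≤ n := by
  obtain ⟨v, hv, rfl⟩ := hx
  have h := DictB.mem_Box.1 (DictB.clV_box (DictB.cfgE_subset n ω) hu hv)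
  simp only [phiV]
  rcases abs_cases (v.1 + v.2 - (n : ℤ)) with ⟨h1, -⟩ | ⟨h1, -⟩ <;>
    rcases abs_cases (v.1 - v.2) with ⟨h2, -⟩ | ⟨h2, -⟩ <;> rw [h1, h2] <;> omega

theorem CL_finite (hu : u ∈ Box n) : (CL n ω u).Finite := by
  refine ((BoxAux.clV_finite (DictB.cfgE_subset n ω) hu).image phiV).subset ?_
  rintro x ⟨v, hv, rfl⟩
  exact ⟨v, hv, rfl⟩

theorem CL_nonempty : (CL n ω u).Nonempty := ⟨phiV u, u, BoxAux.mem_clV_self _ _, rfl⟩

/-- The law of the clusters of the box in a large set of faces. -/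
theorem pr_box {S : Finset (ℤ × ℤ)} (hS : Sn n ⊆ S) (A : Set (Finset Edg)) :
    pr S {ω | cfgE n ω ∈ A} = prB n A :=
  pr_cfgE n (fun _ he => hS (mem_image_of_mem _ he)) A

/-- Two vertices of a cluster of large diameter which are far apart. -/
theorem exists_far {D : ℝ} (hD : 0 < D) (h : D ≤ Metric.diam (clS (cfgE n ω) u)) :
    ∃ a ∈ CL n ω u, ∃ b ∈ CL n ω u, D < ((|a.1 - b.1| + |a.2 - b.2| : ℤ) : ℝ) := by
  by_contra hcon
  push Not at hcon
  refine absurd h (not_le.2 (PercW.diam_lt hD fun a ha b hb => ?_))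
  have h1 := hcon (phiV a) ⟨a, ha, rfl⟩ (phiV b) ⟨b, hb, rfl⟩
  have h2 : 2 * |a.1 - b.1| ≤ |(phiV a).1 - (phiV b).1| + |(phiV a).2 - (phiV b).2| := by
    simp only [phiV]
    rcases abs_cases (a.1 - b.1) with e1 | e1 <;>
      rcases abs_cases (a.1 + a.2 - (b.1 + b.2)) with e2 | e2 <;>
      rcases abs_cases (a.1 - a.2 - (b.1 - b.2)) with e3 | e3 <;>
      rw [e1.1, e2.1, e3.1] <;> omega
  have h3 : 2 * |a.2 - b.2| ≤ |(phiV a).1 - (phiV b).1| + |(phiV a).2 - (phiV b).2| := by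
    simp only [phiV]
    rcases abs_cases (a.2 - b.2) with e1 | e1 <;>
      rcases abs_cases (a.1 + a.2 - (b.1 + b.2)) with e2 | e2 <;>
      rcases abs_cases (a.1 - a.2 - (b.1 - b.2)) with e3 | e3 <;>
      rw [e1.1, e2.1, e3.1] <;> omega
  have h4 : ((2 * |a.1 - b.1| : ℤ) : ℝ) ≤ D := le_trans (by exact_mod_cast h2) h1
  have h5 : ((2 * |a.2 - b.2| : ℤ) : ℝ) ≤ D := le_trans (by exact_mod_cast h3) h1
  push_cast at h4 h5 ⊢
  constructor <;> linarith

end Pool.Agent.PercBc
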