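import Pool.Agent.Lib.MP_6bd702_zc.Pre
import Pool.Agent.Lib.MP_6bd702_zc.Y004
import Pool.Agent.Lib.MP_6bd702_zc.Y006
import Pool.Agent.Lib.MP_6bd702_z.Z104
import Pool.Agent.Lib.MP_6bd702_zc.Y005
import Pool.Agent.Lib.MP_6bd702_zc.Y009
import Pool.Agent.Lib.MP_6bd702_zc.Y003

section Partperc3TriC

/-!
# A small arc between a common site and a `D`-site (task TriC)

Pure renaming of nodes (`PR.map` in both directions, or a variant of `PR.contract`).
-/

set_option autoImplicit false

namespace Pool.Agent.Perc

open Finset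

variable {n : ℕ} {s : St} {p : ℕ → ℕ}

namespace TriC

/-- One step in the first half. -/
theorem up (u d : St) (x : ℕ) (ε : Bool) : PR u d (x, ε) (u.1 x, xor ε (u.2 x)) :=
  Relation.ReflTransGen.single (Or.inl ⟨rfl, rfl⟩)

/-- One step in the second half. -/
theorem dn (u d : St) (x : ℕ) (ε : Bool) : PR u d (x, ε) (d.1 x, xor ε (d.2 x)) :=
  Relation.ReflTransGen.single (Or.inr ⟨rfl, rfl⟩)

theorem up' {u d : St} {x y : ℕ} {ε δ : Bool} (h1 : u.1 x = y) (h2 : xor ε (u.2 x) = δ) :
    PR u d (x, ε) (y, δ) := by
  subst h1; subst h2; exact up u d x ε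

theorem dn' {u d : St} {x y : ℕ} {ε δ : Bool} (h1 : d.1 x = y) (h2 : xor ε (d.2 x) = δ) :
    PR u d (x, ε) (y, δ) := by
  subst h1; subst h2; exact dn u d x ε

theorem dnO_lt {x : ℕ} (hx : x < n) (hy : s.1 x ≠ n) (hy' : s.1 x ≠ n + 2) :
    (dnO n s).1 x = s.1 x := by
  change Equiv.swap n (n + 2) (s.1 (Equiv.swap n (n + 2) x)) = _
  have e : Equiv.swap n (n + 2) x = x := Equiv.swap_apply_of_ne_of_ne (by omega) (by omega)
  rw [e, Equiv.swap_apply_of_ne_of_ne hy hy']

theorem dnO_lt_eq {x : ℕ} (hx : x < n) (hy : s.1 x = n) : (dnO n s).1 x = n + 2 := by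
  change Equiv.swap n (n + 2) (s.1 (Equiv.swap n (n + 2) x)) = _
  have e : Equiv.swap n (n + 2) x = x := Equiv.swap_apply_of_ne_of_ne (by omega) (by omega)
  rw [e, hy, Equiv.swap_apply_left]

theorem dnO_lab_lt {x : ℕ} (hx : x < n) : (dnO n s).2 x = s.2 x := by
  change s.2 (Equiv.swap n (n + 2) x) = _
  rw [Equiv.swap_apply_of_ne_of_ne (by omega) (by omega)]

theorem dnO_self (h : s.1 (n + 2) = n + 2) : (dnO n s).1 n = n := by
  change Equiv.swap n (n + 2) (s.1 (Equiv.swap n (n + 2) n)) = _
  rw [Equiv.swap_apply_left, h, Equiv.swap_apply_right]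

theorem dnO_lab_self : (dnO n s).2 n = s.2 (n + 2) := by
  change s.2 (Equiv.swap n (n + 2) n) = _
  rw [Equiv.swap_apply_left]

theorem dnO_succ (h : s.1 (n + 1) = n + 1) : (dnO n s).1 (n + 1) = n + 1 := by
  change Equiv.swap n (n + 2) (s.1 (Equiv.swap n (n + 2) (n + 1))) = _
  have e : Equiv.swap n (n + 2) (n + 1) = n + 1 :=
    Equiv.swap_apply_of_ne_of_ne (by omega) (by omega)
  rw [e, h, e]

theorem dnO_lab_succ : (dnO n s).2 (n + 1) = s.2 (n + 1) := by
  change s.2 (Equiv.swap n (n + 2) (n + 1)) = _
  rw [Equiv.swap_apply_of_ne_of_ne (by omega) (by omega)]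

theorem dnO_two {y : ℕ} (h : s.1 n = y) (hy : y ≠ n) (hy' : y ≠ n + 2) :
    (dnO n s).1 (n + 2) = y := by
  change Equiv.swap n (n + 2) (s.1 (Equiv.swap n (n + 2) (n + 2))) = _
  rw [Equiv.swap_apply_right, h, Equiv.swap_apply_of_ne_of_ne hy hy']

theorem dnO_lab_two : (dnO n s).2 (n + 2) = s.2 n := by
  change s.2 (Equiv.swap n (n + 2) (n + 2)) = _
  rw [Equiv.swap_apply_right]

theorem labFix {x : ℕ} (hx : p x = x) : labO p x = false := by
  unfold labO; rw [hx, Bool.xor_self]

theorem labOut {N : ℕ} (h : NCO N p) {x : ℕ} (hx : N ≤ x) : labO p x = false :=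
  labFix (h.out x hx)

/-- The label of a shifted site. -/
theorem labO_sh {N : ℕ} (h : NCO N p) {i : ℕ} (hi : i ≤ N) (x : ℕ) :
    labO (insArc i p) (PatB.sh i x) = labO p x := by
  exact labO_insArc h hi x

theorem bne_false (b : Bool) : (b != false) = b := by cases b <;> rfl

end TriC

open TriC

/-- The upper `D`-site `n + 1` is joined to the common site `n`. -/
theorem B3_left (hs : IsAnn (n + 1) s) (hp : NCO (n + 2) p) :
    B3 (n + 1) s (insArc n p) = B2 n s p := by
  have slt : ∀ x < n + 1, s.1 x < n + 1 := hs.nc.lt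
  have sout : ∀ x, n + 1 ≤ x → s.1 x = x := hs.nc.out
  have slab : ∀ x, n + 1 ≤ x → s.2 x = false := hs.out
  have hsn : s.1 n ≠ n := hs.nc.ne n (by omega)
  have hsn' : s.1 n < n := by have := slt n (by omega); omega
  have key : Tri (n + 1) (upO (insArc n p)) s ↔ Tri n (upO p) (dnO n s) := by
    constructor
    · -- from the larger to the smaller one
      set g : ℕ → ℕ := fun x => if x < n then x else if x ≤ n + 1 then n + 2 else x - 2 with hg
      have gsh : ∀ x, x < n + 2 → g (PatB.sh n x) = x := by
        intro x hx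
        simp only [hg]
        unfold PatB.sh
        split_ifs <;> omega
      have h1 : ∀ x, x < n + 4 → PR (upO p) (dnO n s) (g x, false)
          (g ((upO (insArc n p)).1 x), xor ((upO (insArc n p)).2 x) false) := by
        intro x hx
        rw [Bool.xor_false]
        change PR (upO p) (dnO n s) (g x, false) (g (insArc n p x), labO (insArc n p) x)
        rcases PatB.cases_sh n x with h | h | ⟨y, rfl⟩
        · rw [h, PatB.ins_left, labO_insArc_left hp (by omega)]
          have : g (n + 1) = g n := by simp only [hg]; split_ifs <;> omega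
          rw [this]
          exact Relation.ReflTransGen.refl
        · rw [h, PatB.ins_right, labO_insArc_right hp (by omega)]
          have : g (n + 1) = g n := by simp only [hg]; split_ifs <;> omega
          rw [this]
          exact Relation.ReflTransGen.refl
        · have hy : y < n + 2 := (PatB.sh_lt_iff (N := n + 2) (i := n) (by omega)).1 hx
          rw [PatB.ins_sh, labO_sh hp (by omega), gsh y hy, gsh _ (hp.lt y hy)]
          exact up' rfl (by change xor false (labO p y) = _; rw [Bool.false_xor])
      have h2 : ∀ x, x < n + 4 → PR (upO p) (dnO n s) (g x, false)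
          (g (s.1 x), xor (s.2 x) false) := by
        intro x hx
        rw [Bool.xor_false]
        rcases lt_trichotomy x n with h | h | h
        · have gx : g x = x := by simp only [hg]; split_ifs <;> omega
          have hsx := slt x (by omega)
          rw [gx]
          by_cases h3 : s.1 x = n
          · have e : g (s.1 x) = n + 2 := by rw [h3]; simp only [hg]; split_ifs <;> omega
            rw [e]
            exact dn' (dnO_lt_eq h h3) (by rw [dnO_lab_lt h, Bool.false_xor])
          · have e : g (s.1 x) = s.1 x := by simp only [hg]; split_ifs <;> omega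
            rw [e]
            exact dn' (dnO_lt h h3 (by omega)) (by rw [dnO_lab_lt h, Bool.false_xor])
        · rw [h]
          have gx : g n = n + 2 := by simp only [hg]; split_ifs <;> omega
          have e : g (s.1 n) = s.1 n := by simp only [hg]; split_ifs <;> omega
          rw [gx, e]
          exact dn' (dnO_two rfl hsn (by omega)) (by rw [dnO_lab_two, Bool.false_xor])
        · rw [sout x (by omega), slab x (by omega)]
          exact Relation.ReflTransGen.refl
      rintro ⟨a, b, ha, ha', hb, hb', hab, hPR⟩
      have h3 := PR.map (fun x => x < n + 4) g (fun _ => false)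
        (fun x hx => (hp.insArc (i := n) (by omega)).lt x hx)
        (fun x hx => by
          by_cases h : x < n + 1
          · have := slt x h
            change s.1 x < n + 4
            omega
          · change s.1 x < n + 4
            rw [sout x (by omega)]; exact hx)
        h1 h2 (show a < n + 4 by omega) hPR
      rw [Bool.xor_false, Bool.xor_false] at h3
      refine ⟨g a, g b, ?_, ?_, ?_, ?_, ?_, h3⟩
      all_goals
        simp only [hg]
        split_ifs <;> omega
    · set f : ℕ → ℕ := fun x => if x = n + 2 then n + 1 else PatB.sh n x with hf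
      have fsh : ∀ x, x < n + 2 → f x = PatB.sh n x := by
        intro x hx
        simp only [hf]
        rw [if_neg (by omega)]
      have f2 : f (n + 2) = n + 1 := by simp only [hf]; rw [if_pos trivial]
      have small : ∀ ε : Bool, PR (upO (insArc n p)) s (n, ε) (n + 1, ε) := fun ε =>
        up' (PatB.ins_left n p) (by
          change xor ε (labO (insArc n p) n) = ε
          rw [labO_insArc_left hp (by omega), Bool.xor_false])
      have small' : ∀ ε : Bool, PR (upO (insArc n p)) s (n + 1, ε) (n, ε) := fun ε =>
        up' (PatB.ins_right n p) (by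
          change xor ε (labO (insArc n p) (n + 1)) = ε
          rw [labO_insArc_right hp (by omega), Bool.xor_false])
      have shx : ∀ x < n, PatB.sh n x = x := by
        intro x hx
        unfold PatB.sh
        rw [if_pos hx]
      have h1 : ∀ x, x < n + 3 → PR (upO (insArc n p)) s (f x, false)
          (f ((upO p).1 x), xor ((upO p).2 x) false) := by
        intro x hx
        rw [Bool.xor_false]
        change PR (upO (insArc n p)) s (f x, false) (f (p x), labO p x)
        by_cases h : x = n + 2
        · subst h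
          rw [hp.out _ le_rfl, labOut hp le_rfl]
          exact Relation.ReflTransGen.refl
        · have hx' : x < n + 2 := by omega
          rw [fsh x hx', fsh _ (hp.lt x hx')]
          exact up' (PatB.ins_sh n p x) (by
            change xor false (labO (insArc n p) (PatB.sh n x)) = _
            rw [Bool.false_xor, labO_sh hp (by omega)])
      have h2 : ∀ x, x < n + 3 → PR (upO (insArc n p)) s (f x, false)
          (f ((dnO n s).1 x), xor ((dnO n s).2 x) false) := by
        intro x hx
        rw [Bool.xor_false]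
        rcases lt_trichotomy x n with h | h | h
        · have hsx := slt x (by omega)
          rw [fsh x (by omega), shx x h, dnO_lab_lt h]
          by_cases h3 : s.1 x = n
          · rw [dnO_lt_eq h h3, f2]
            exact (dn' h3 (Bool.false_xor _)).trans (small _)
          · rw [dnO_lt h h3 (by omega), fsh _ (by omega), shx _ (by omega)]
            exact dn' rfl (Bool.false_xor _)
        · rw [h, dnO_self (sout _ (by omega)), dnO_lab_self, slab _ (by omega)]
          exact Relation.ReflTransGen.refl
        · by_cases h4 : x = n + 1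
          · subst h4
            rw [dnO_succ (sout _ (by omega)), dnO_lab_succ, slab _ (by omega)]
            exact Relation.ReflTransGen.refl
          · have h5 : x = n + 2 := by omega
            subst h5
            rw [dnO_two rfl hsn (by omega), dnO_lab_two, f2, fsh _ (by omega), shx _ hsn']
            exact (small' false).trans (dn' rfl (Bool.false_xor _))
      rintro ⟨a, b, ha, ha', hb, hb', hab, hPR⟩
      have h3 := PR.map (fun x => x < n + 3) f (fun _ => false)
        (fun x hx => by
          change p x < n + 3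
          by_cases h : x < n + 2
          · have := hp.lt x h; omega
          · rw [hp.out x (by omega)]; exact hx)
        (fun x hx => by
          change (dnO n s).1 x < n + 3
          rcases lt_trichotomy x n with h | h | h
          · have hsx := slt x (by omega)
            by_cases h3 : s.1 x = n
            · rw [dnO_lt_eq h h3]; omega
            · rw [dnO_lt h h3 (by omega)]; omega
          · rw [h, dnO_self (sout _ (by omega))]; omega
          · by_cases h4 : x = n + 1
            · subst h4
              rw [dnO_succ (sout _ (by omega))]; omega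
            · have h5 : x = n + 2 := by omega
              subst h5
              rw [dnO_two rfl hsn (by omega)]; omega)
        h1 h2 (show a < n + 3 by omega) hPR
      rw [Bool.xor_false, Bool.xor_false] at h3
      refine ⟨f a, f b, ?_, ?_, ?_, ?_, ?_, h3⟩
      all_goals
        simp only [hf]
        unfold PatB.sh
        split_ifs <;> omega
  classical
  unfold B3 B2
  simp only [key]

/-- The lower `D`-site `n + 1` is joined to the common site `n`. -/
theorem B2_left (hs : IsAnn n s) (hp : NCO (n + 3) p) :
    B2 (n + 1) (insL n s) p = B3 n s p := by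
  have slt : ∀ x < n, s.1 x < n := hs.nc.lt
  have sout : ∀ x, n ≤ x → s.1 x = x := hs.nc.out
  have slab : ∀ x, n ≤ x → s.2 x = false := hs.out
  set d := dnO (n + 1) (insL n s) with hd
  have i1 : ∀ x, x < n → (insL n s).1 x = s.1 x := by
    intro x hx
    have h1 := PatB.ins_sh n s.1 x
    have h2 := slt x hx
    unfold PatB.sh at h1
    rw [if_pos hx, if_pos h2] at h1
    exact h1
  have i2 : (insL n s).1 n = n + 1 := PatB.ins_left n s.1
  have i3 : (insL n s).1 (n + 1) = n := PatB.ins_right n s.1
  have i4 : ∀ x, n + 2 ≤ x → (insL n s).1 x = x := by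
    intro x hx
    have h1 := PatB.ins_sh n s.1 (x - 2)
    have h2 : PatB.sh n (x - 2) = x := by unfold PatB.sh; rw [if_neg (by omega)]; omega
    rw [sout (x - 2) (by omega), h2] at h1
    exact h1
  have l1 : ∀ x, x < n → (insL n s).2 x = s.2 x := by
    intro x hx
    change (if x = n ∨ x = n + 1 then false else s.2 (if x < n then x else x - 2)) = _
    rw [if_neg (by omega), if_pos hx]
  have l2 : (insL n s).2 n = false := by
    change (if n = n ∨ n = n + 1 then false else _) = _
    rw [if_pos (Or.inl rfl)]
  have l3 : (insL n s).2 (n + 1) = false := by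
    change (if n + 1 = n ∨ n + 1 = n + 1 then false else _) = _
    rw [if_pos (Or.inr rfl)]
  have l4 : ∀ x, n + 2 ≤ x → (insL n s).2 x = false := by
    intro x hx
    change (if x = n ∨ x = n + 1 then false else s.2 (if x < n then x else x - 2)) = _
    rw [if_neg (by omega), if_neg (by omega), slab _ (by omega)]
  have d1 : ∀ x, x < n → d.1 x = s.1 x := by
    intro x hx
    have := slt x hx
    rw [hd, dnO_lt (by omega) (by rw [i1 x hx]; omega) (by rw [i1 x hx]; omega), i1 x hx]
  have d2 : d.1 n = n + 3 := dnO_lt_eq (by omega) i2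
  have d3 : d.1 (n + 3) = n := dnO_two (n := n + 1) i3 (by omega) (by omega)
  have d4 : d.1 (n + 1) = n + 1 := dnO_self (n := n + 1) (i4 _ (by omega))
  have d5 : d.1 (n + 2) = n + 2 := dnO_succ (n := n + 1) (i4 _ (by omega))
  have m1 : ∀ x, x < n → d.2 x = s.2 x := by
    intro x hx
    rw [hd, dnO_lab_lt (by omega), l1 x hx]
  have m2 : d.2 n = false := by rw [hd, dnO_lab_lt (by omega), l2]
  have m3 : d.2 (n + 3) = false := by
    have := dnO_lab_two (n := n + 1) (s := insL n s)
    rw [l3] at this
    exact this
  have m4 : d.2 (n + 1) = false := by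
    have := dnO_lab_self (n := n + 1) (s := insL n s)
    rw [l4 _ (by omega)] at this
    exact this
  have m5 : d.2 (n + 2) = false := by
    have := dnO_lab_succ (n := n + 1) (s := insL n s)
    rw [l4 _ (by omega)] at this
    exact this
  have key : Tri (n + 1) (upO p) d ↔ Tri n (upO p) s := by
    constructor
    · set g : ℕ → ℕ := fun x => if x = n + 3 then n else x with hg
      have gne : ∀ x, x < n + 3 → g x = x := by
        intro x hx
        simp only [hg]
        rw [if_neg (by omega)]
      have g3 : g (n + 3) = n := by simp only [hg]; rw [if_pos trivial]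
      have h1 : ∀ x, x < n + 4 → PR (upO p) s (g x, false)
          (g ((upO p).1 x), xor ((upO p).2 x) false) := by
        intro x hx
        rw [Bool.xor_false]
        change PR (upO p) s (g x, false) (g (p x), labO p x)
        by_cases h : x = n + 3
        · rw [h, hp.out _ le_rfl, labOut hp le_rfl]
          exact Relation.ReflTransGen.refl
        · have hx' : x < n + 3 := by omega
          rw [gne x hx', gne _ (hp.lt x hx')]
          exact up' rfl (by change xor false (labO p x) = _; rw [Bool.false_xor])
      have h2 : ∀ x, x < n + 4 → PR (upO p) s (g x, false)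
          (g (d.1 x), xor (d.2 x) false) := by
        intro x hx
        rw [Bool.xor_false]
        by_cases h : x < n
        · have := slt x h
          rw [d1 x h, m1 x h, gne x (by omega), gne _ (by omega)]
          exact dn' rfl (Bool.false_xor _)
        · have h' : x = n ∨ x = n + 1 ∨ x = n + 2 ∨ x = n + 3 := by omega
          rcases h' with h' | h' | h' | h'
          · rw [h', d2, m2, g3, gne n (by omega)]
            exact Relation.ReflTransGen.refl
          · rw [h', d4, m4]
            exact Relation.ReflTransGen.refl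
          · rw [h', d5, m5]
            exact Relation.ReflTransGen.refl
          · rw [h', d3, m3, g3, gne n (by omega)]
            exact Relation.ReflTransGen.refl
      rintro ⟨a, b, ha, ha', hb, hb', hab, hPR⟩
      have h3 := PR.map (fun x => x < n + 4) g (fun _ => false)
        (fun x hx => by
          change p x < n + 4
          by_cases h : x < n + 3
          · have := hp.lt x h; omega
          · rw [hp.out x (by omega)]; exact hx)
        (fun x hx => by
          change d.1 x < n + 4
          by_cases h : x < n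
          · have := slt x h
            rw [d1 x h]; omega
          · have hx' : x < n + 4 := hx
            have h' : x = n ∨ x = n + 1 ∨ x = n + 2 ∨ x = n + 3 := by omega
            rcases h' with h' | h' | h' | h'
            · rw [h', d2]; omega
            · rw [h', d4]; omega
            · rw [h', d5]; omega
            · rw [h', d3]; omega)
        h1 h2 (show a < n + 4 by omega) hPR
      rw [Bool.xor_false, Bool.xor_false] at h3
      refine ⟨g a, g b, ?_, ?_, ?_, ?_, ?_, h3⟩
      all_goals
        simp only [hg]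
        split_ifs <;> omega
    · set f : ℕ → ℕ := fun x => if x = n then n + 3 else x with hf
      have fne : ∀ x, x ≠ n → f x = x := by
        intro x hx
        simp only [hf]
        rw [if_neg hx]
      have fn : f n = n + 3 := by simp only [hf]; rw [if_pos trivial]
      have small : ∀ ε : Bool, PR (upO p) d (n, ε) (n + 3, ε) := fun ε =>
        dn' d2 (by rw [m2, Bool.xor_false])
      have small' : ∀ ε : Bool, PR (upO p) d (n + 3, ε) (n, ε) := fun ε =>
        dn' d3 (by rw [m3, Bool.xor_false])
      have stp : ∀ x, PR (upO p) d (x, false) (p x, labO p x) := fun x =>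
        up' rfl (by change xor false (labO p x) = _; rw [Bool.false_xor])
      have h1 : ∀ x, x < n + 3 → PR (upO p) d (f x, false)
          (f ((upO p).1 x), xor ((upO p).2 x) false) := by
        intro x hx
        rw [Bool.xor_false]
        change PR (upO p) d (f x, false) (f (p x), labO p x)
        by_cases h : x = n
        · by_cases h' : p n = n
          · rw [h, h', labFix h']
            exact Relation.ReflTransGen.refl
          · rw [h, fn, fne _ h']
            exact (small' false).trans (stp n)
        · rw [fne x h]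
          by_cases h' : p x = n
          · rw [h', fn]
            have := stp x
            rw [h'] at this
            exact this.trans (small _)
          · rw [fne _ h']
            exact stp x
      have h2 : ∀ x, x < n + 3 → PR (upO p) d (f x, false)
          (f (s.1 x), xor (s.2 x) false) := by
        intro x hx
        rw [Bool.xor_false]
        by_cases h : x < n
        · have := slt x h
          rw [fne x (by omega), fne _ (by omega)]
          exact dn' (d1 x h) (by rw [m1 x h, Bool.false_xor])
        · rw [sout x (by omega), slab x (by omega)]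
          exact Relation.ReflTransGen.refl
      rintro ⟨a, b, ha, ha', hb, hb', hab, hPR⟩
      have h3 := PR.map (fun x => x < n + 3) f (fun _ => false)
        (fun x hx => hp.lt x hx)
        (fun x hx => by
          change s.1 x < n + 3
          by_cases h : x < n
          · have := slt x h
            omega
          · rw [sout x (by omega)]; exact hx)
        h1 h2 (show a < n + 3 by omega) hPR
      rw [Bool.xor_false, Bool.xor_false] at h3
      refine ⟨f a, f b, ?_, ?_, ?_, ?_, ?_, h3⟩
      all_goals
        simp only [hf]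
        split_ifs <;> omega
  classical
  unfold B3 B2
  rw [← hd]
  simp only [key]

end Pool.Agent.Perc

end Partperc3TriC

section Partperc3TriD

/-!
# A small arc at the seam between the common site `0` and the last `D`-site (task TriD)

Renaming of nodes with a change of the parities at the old site `0` (`PR.map` with offsets).
-/

set_option autoImplicit false

namespace Pool.Agent.Perc

open Finset TriC

variable {n : ℕ} {s : St} {p : ℕ → ℕ}

namespace TriD

theorem xor_not' (a b : Bool) : xor a (!b) = !xor a b := by cases a <;> cases b <;> rfl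

theorem xor_true_not (b : Bool) : xor true b = !b := by cases b <;> rfl

end TriD

open TriD

/-- The upper `D`-site `n + 3` is joined to the site `0` across the seam. -/
theorem B3_seam (hs : IsAnn (n + 1) s) (hp : NCO (n + 2) p) :
    B3 (n + 1) s (cupO (n + 2) p) = B2 n (rotL (n + 1) s) p := by
  have slt : ∀ x < n + 1, s.1 x < n + 1 := hs.nc.lt
  have sout : ∀ x, n + 1 ≤ x → s.1 x = x := hs.nc.out
  have slab : ∀ x, n + 1 ≤ x → s.2 x = false := hs.out
  have s0 : s.1 0 ≠ 0 := hs.nc.ne 0 (by omega)
  have s0' := slt 0 (by omega)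
  set d := dnO n (rotL (n + 1) s) with hd
  set u' := upO (cupO (n + 2) p) with hu'
  -- the rotated state
  have r1 : ∀ x, x < n → s.1 (x + 1) ≠ 0 → (rotL (n + 1) s).1 x = s.1 (x + 1) - 1 := by
    intro x hx h
    change (if x < n + 1 then _ else _) = _
    rw [if_pos (by omega), if_neg (show ¬ x + 1 = n + 1 by omega)]
    change (if s.1 (x + 1) = 0 then _ else _) = _
    rw [if_neg h]
  have r2 : ∀ x, x < n → s.1 (x + 1) = 0 → (rotL (n + 1) s).1 x = n := by
    intro x hx h
    change (if x < n + 1 then _ else _) = _
    rw [if_pos (by omega), if_neg (show ¬ x + 1 = n + 1 by omega)]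
    change (if s.1 (x + 1) = 0 then _ else _) = _
    rw [if_pos h]
    omega
  have r3 : (rotL (n + 1) s).1 n = s.1 0 - 1 := by
    change (if n < n + 1 then _ else _) = _
    rw [if_pos (by omega), if_pos rfl]
    change (if s.1 0 = 0 then _ else _) = _
    rw [if_neg s0]
  have r4 : ∀ x, n + 1 ≤ x → (rotL (n + 1) s).1 x = x := by
    intro x hx
    change (if x < n + 1 then _ else _) = _
    rw [if_neg (by omega)]
  have k1 : ∀ x, x < n → s.1 (x + 1) ≠ 0 → (rotL (n + 1) s).2 x = s.2 (x + 1) := by
    intro x hx h
    change (if x < n + 1 then _ else _) = _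
    rw [if_pos (by omega), if_neg (by push Not; exact ⟨by omega, h⟩)]
  have k2 : ∀ x, x < n → s.1 (x + 1) = 0 → (rotL (n + 1) s).2 x = !s.2 (x + 1) := by
    intro x hx h
    change (if x < n + 1 then _ else _) = _
    rw [if_pos (by omega), if_pos (Or.inr h), if_neg (show ¬ x + 1 = n + 1 by omega)]
  have k3 : (rotL (n + 1) s).2 n = !s.2 0 := by
    change (if n < n + 1 then _ else _) = _
    rw [if_pos (by omega), if_pos (Or.inl rfl), if_pos rfl]
  have k4 : ∀ x, n + 1 ≤ x → (rotL (n + 1) s).2 x = false := by
    intro x hx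
    change (if x < n + 1 then _ else _) = _
    rw [if_neg (by omega)]
  -- the renamed rotated state
  have d1 : ∀ x, x < n → s.1 (x + 1) ≠ 0 → d.1 x = s.1 (x + 1) - 1 := by
    intro x hx h
    have h1 := slt (x + 1) (by omega)
    rw [hd, dnO_lt hx (by rw [r1 x hx h]; omega) (by rw [r1 x hx h]; omega), r1 x hx h]
  have d2 : ∀ x, x < n → s.1 (x + 1) = 0 → d.1 x = n + 2 := by
    intro x hx h
    rw [hd, dnO_lt_eq hx (r2 x hx h)]
  have d3 : d.1 (n + 2) = s.1 0 - 1 := by
    rw [hd]
    exact dnO_two r3 (by omega) (by omega)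
  have d4 : d.1 n = n := dnO_self (r4 _ (by omega))
  have d5 : d.1 (n + 1) = n + 1 := dnO_succ (r4 _ (by omega))
  have m1 : ∀ x, x < n → s.1 (x + 1) ≠ 0 → d.2 x = s.2 (x + 1) := by
    intro x hx h
    rw [hd, dnO_lab_lt hx, k1 x hx h]
  have m2 : ∀ x, x < n → s.1 (x + 1) = 0 → d.2 x = !s.2 (x + 1) := by
    intro x hx h
    rw [hd, dnO_lab_lt hx, k2 x hx h]
  have m3 : d.2 (n + 2) = !s.2 0 := by rw [hd, dnO_lab_two, k3]
  have m4 : d.2 n = false := by rw [hd, dnO_lab_self, k4 _ (by omega)]
  have m5 : d.2 (n + 1) = false := by rw [hd, dnO_lab_succ, k4 _ (by omega)]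
  -- the upper state
  have u1 : u'.1 0 = n + 3 := by
    change cupO (n + 2) p 0 = _
    unfold cupO
    rw [if_pos rfl]
  have u2 : u'.1 (n + 3) = 0 := by
    change cupO (n + 2) p (n + 3) = _
    unfold cupO
    rw [if_neg (by omega), if_pos rfl]
  have u3 : ∀ x, x < n + 2 → u'.1 (x + 1) = p x + 1 := by
    intro x hx
    change cupO (n + 2) p (x + 1) = _
    unfold cupO
    rw [if_neg (by omega), if_neg (by omega), if_pos (by omega), Nat.add_sub_cancel]
  have v1 : u'.2 0 = true := labO_cupO_zero hp
  have v2 : u'.2 (n + 3) = true := labO_cupO_last hp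
  have v3 : ∀ x, x < n + 2 → u'.2 (x + 1) = labO p x := fun x hx => labO_cupO_succ hp hx
  have key : Tri (n + 1) u' s ↔ Tri n (upO p) d := by
    constructor
    · set g : ℕ → ℕ := fun x => if x = 0 then n + 2 else x - 1 with hg
      set θ : ℕ → Bool := fun x => decide (x = 0) with hθ
      have g0 : g 0 = n + 2 := by simp only [hg]; rw [if_pos trivial]
      have g1 : ∀ x, g (x + 1) = x := by
        intro x
        simp only [hg]
        rw [if_neg (by omega), Nat.add_sub_cancel]
      have t0 : θ 0 = true := by simp [hθ]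
      have t1 : ∀ x, θ (x + 1) = false := by intro x; simp [hθ]
      have h1 : ∀ x, x < n + 4 → PR (upO p) d (g x, θ x) (g (u'.1 x), xor (u'.2 x) (θ (u'.1 x))) := by
        intro x hx
        rcases Nat.eq_zero_or_pos x with h | h
        · rw [h, u1, v1, g0, t0, g1, t1, Bool.xor_false]
          exact Relation.ReflTransGen.refl
        · obtain ⟨y, rfl⟩ : ∃ y, x = y + 1 := ⟨x - 1, by omega⟩
          by_cases h' : y = n + 2
          · rw [h', u2, v2, g0, t0, g1, t1]
            exact Relation.ReflTransGen.refl
          · have hy : y < n + 2 := by omega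
            rw [u3 y hy, v3 y hy, g1, t1, g1, t1, Bool.xor_false]
            exact up' rfl (by change xor false (labO p y) = _; rw [Bool.false_xor])
      have h2 : ∀ x, x < n + 4 → PR (upO p) d (g x, θ x) (g (s.1 x), xor (s.2 x) (θ (s.1 x))) := by
        intro x hx
        rcases Nat.eq_zero_or_pos x with h | h
        · obtain ⟨z, hz⟩ : ∃ z, s.1 0 = z + 1 := ⟨s.1 0 - 1, by omega⟩
          rw [h, g0, t0, hz, g1, t1, Bool.xor_false]
          refine dn' ?_ ?_
          · rw [d3, hz, Nat.add_sub_cancel]
          · rw [m3, xor_true_not, Bool.not_not]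
        · obtain ⟨y, rfl⟩ : ∃ y, x = y + 1 := ⟨x - 1, by omega⟩
          rw [g1, t1]
          by_cases hy : y < n
          · by_cases h0 : s.1 (y + 1) = 0
            · rw [h0, g0, t0]
              refine dn' (d2 y hy h0) ?_
              rw [m2 y hy h0, Bool.false_xor, Bool.xor_true]
            · obtain ⟨z, hz⟩ : ∃ z, s.1 (y + 1) = z + 1 := ⟨s.1 (y + 1) - 1, by omega⟩
              rw [hz, g1, t1, Bool.xor_false]
              refine dn' ?_ ?_
              · rw [d1 y hy h0, hz, Nat.add_sub_cancel]
              · rw [m1 y hy h0, Bool.false_xor]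
          · rw [sout (y + 1) (by omega), slab (y + 1) (by omega), g1, t1]
            exact Relation.ReflTransGen.refl
      rintro ⟨a, b, ha, ha', hb, hb', hab, hPR⟩
      have h3 := PR.map (fun x => x < n + 4) g θ
        (fun x hx => (hp.cupO).lt x hx)
        (fun x hx => by
          change s.1 x < n + 4
          by_cases h : x < n + 1
          · have := slt x h
            omega
          · rw [sout x (by omega)]; exact hx)
        h1 h2 (show a < n + 4 by omega) hPR
      obtain ⟨a', rfl⟩ : ∃ a', a = a' + 1 := ⟨a - 1, by omega⟩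
      obtain ⟨b', rfl⟩ : ∃ b', b = b' + 1 := ⟨b - 1, by omega⟩
      rw [t1, t1, Bool.xor_false, Bool.xor_false, g1, g1] at h3
      exact ⟨a', b', by omega, by omega, by omega, by omega, by omega, h3⟩
    · have small : ∀ ε : Bool, PR u' s (0, ε) (n + 3, !ε) := fun ε =>
        up' u1 (by rw [v1, Bool.xor_true])
      have small' : ∀ ε : Bool, PR u' s (n + 3, ε) (0, !ε) := fun ε =>
        up' u2 (by rw [v2, Bool.xor_true])
      have h1 : ∀ x, x < n + 3 → PR u' s (x + 1, false)
          ((upO p).1 x + 1, xor ((upO p).2 x) false) := by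
        intro x hx
        rw [Bool.xor_false]
        change PR u' s (x + 1, false) (p x + 1, labO p x)
        by_cases h : x = n + 2
        · rw [h, hp.out _ le_rfl, labOut hp le_rfl]
          exact Relation.ReflTransGen.refl
        · exact up' (u3 x (by omega)) (by rw [v3 x (by omega), Bool.false_xor])
      have h2 : ∀ x, x < n + 3 → PR u' s (x + 1, false) (d.1 x + 1, xor (d.2 x) false) := by
        intro x hx
        rw [Bool.xor_false]
        rcases lt_trichotomy x n with h | h | h
        · by_cases h0 : s.1 (x + 1) = 0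
          · rw [d2 x h h0, m2 x h h0]
            have h3 : PR u' s (x + 1, false) (0, s.2 (x + 1)) := dn' h0 (Bool.false_xor _)
            exact h3.trans (small _)
          · rw [d1 x h h0, m1 x h h0]
            refine dn' ?_ (Bool.false_xor _)
            omega
        · rw [h, d4, m4]
          exact Relation.ReflTransGen.refl
        · by_cases h4 : x = n + 1
          · rw [h4, d5, m5]
            exact Relation.ReflTransGen.refl
          · have h5 : x = n + 2 := by omega
            rw [h5, d3, m3]
            have h6 : PR u' s (0, true) (s.1 0 - 1 + 1, !s.2 0) :=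
              dn' (by omega) (by rw [xor_true_not])
            exact (small' false).trans h6
      rintro ⟨a, b, ha, ha', hb, hb', hab, hPR⟩
      have h3 := PR.map (fun x => x < n + 3) (fun x => x + 1) (fun _ => false)
        (fun x hx => by
          change p x < n + 3
          by_cases h : x < n + 2
          · have := hp.lt x h; omega
          · rw [hp.out x (by omega)]; exact hx)
        (fun x hx => by
          change d.1 x < n + 3
          have hx' : x < n + 3 := hx
          rcases lt_trichotomy x n with h | h | h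
          · by_cases h0 : s.1 (x + 1) = 0
            · rw [d2 x h h0]; omega
            · have := slt (x + 1) (by omega)
              rw [d1 x h h0]; omega
          · rw [h, d4]; omega
          · by_cases h4 : x = n + 1
            · rw [h4, d5]; omega
            · have h5 : x = n + 2 := by omega
              rw [h5, d3]; omega)
        h1 h2 (show a < n + 3 by omega) hPR
      rw [Bool.xor_false, Bool.xor_false] at h3
      exact ⟨a + 1, b + 1, by omega, by omega, by omega, by omega, by omega, h3⟩
  classical
  unfold B3 B2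
  rw [← hd, ← hu']
  simp only [key]

/-- The lower `D`-site `n + 1` is joined to the site `0` across the seam. -/
theorem B2_seam (hs : IsAnn n s) (hp : NCO (n + 3) p) :
    B2 (n + 1) (cupL n s) p = B3 n s (rotP (n + 3) p) := by
  have slt : ∀ x < n, s.1 x < n := hs.nc.lt
  have sout : ∀ x, n ≤ x → s.1 x = x := hs.nc.out
  have slab : ∀ x, n ≤ x → s.2 x = false := hs.out
  set d' := dnO (n + 1) (cupL n s) with hd'
  set u := upO (rotP (n + 3) p) with hu
  -- the lower state with the arc across the seam
  have c1 : (cupL n s).1 0 = n + 1 := by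
    change cupO n s.1 0 = _
    unfold cupO
    rw [if_pos rfl]
  have c2 : (cupL n s).1 (n + 1) = 0 := by
    change cupO n s.1 (n + 1) = _
    unfold cupO
    rw [if_neg (by omega), if_pos rfl]
  have c3 : ∀ x, x < n → (cupL n s).1 (x + 1) = s.1 x + 1 := by
    intro x hx
    change cupO n s.1 (x + 1) = _
    unfold cupO
    rw [if_neg (by omega), if_neg (by omega), if_pos (by omega), Nat.add_sub_cancel]
  have c4 : ∀ x, n + 2 ≤ x → (cupL n s).1 x = x := by
    intro x hx
    change cupO n s.1 x = _
    unfold cupO
    rw [if_neg (by omega), if_neg (by omega), if_neg (by omega)]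
  have k1 : (cupL n s).2 0 = true := by
    unfold cupL
    simp
  have k2 : (cupL n s).2 (n + 1) = true := by
    unfold cupL
    simp
  have k3 : ∀ x, x < n → (cupL n s).2 (x + 1) = s.2 x := by
    intro x hx
    change (if x + 1 = 0 ∨ x + 1 = n + 1 then true else if x + 1 < n + 1 then s.2 (x + 1 - 1)
      else false) = _
    rw [if_neg (by omega), if_pos (by omega), Nat.add_sub_cancel]
  have k4 : ∀ x, n + 2 ≤ x → (cupL n s).2 x = false := by
    intro x hx
    change (if x = 0 ∨ x = n + 1 then true else if x < n + 1 then s.2 (x - 1)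
      else false) = _
    rw [if_neg (by omega), if_neg (by omega)]
  have d0 : d'.1 0 = n + 3 := dnO_lt_eq (n := n + 1) (by omega) c1
  have d1 : ∀ x, x < n → d'.1 (x + 1) = s.1 x + 1 := by
    intro x hx
    have := slt x hx
    rw [hd', dnO_lt (by omega) (by rw [c3 x hx]; omega) (by rw [c3 x hx]; omega), c3 x hx]
  have d3 : d'.1 (n + 3) = 0 := dnO_two (n := n + 1) c2 (by omega) (by omega)
  have d4 : d'.1 (n + 1) = n + 1 := dnO_self (n := n + 1) (c4 _ (by omega))
  have d5 : d'.1 (n + 2) = n + 2 := dnO_succ (n := n + 1) (c4 _ (by omega))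
  have m0 : d'.2 0 = true := by rw [hd', dnO_lab_lt (by omega), k1]
  have m1 : ∀ x, x < n → d'.2 (x + 1) = s.2 x := by
    intro x hx
    rw [hd', dnO_lab_lt (by omega), k3 x hx]
  have m3 : d'.2 (n + 3) = true := by
    have := dnO_lab_two (n := n + 1) (s := cupL n s)
    rw [k2] at this
    exact this
  have m4 : d'.2 (n + 1) = false := by
    have := dnO_lab_self (n := n + 1) (s := cupL n s)
    rw [k4 _ (by omega)] at this
    exact this
  have m5 : d'.2 (n + 2) = false := by
    have := dnO_lab_succ (n := n + 1) (s := cupL n s)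
    rw [k4 _ (by omega)] at this
    exact this
  -- the rotated upper state
  have plt := hp.lt
  have u1 : ∀ x, x < n + 2 → p (x + 1) ≠ 0 → u.1 x = p (x + 1) - 1 := by
    intro x hx h
    change rotP (n + 3) p x = _
    unfold rotP
    rw [if_pos (by omega), if_neg (show ¬ x + 1 = n + 3 by omega)]
    change (if p (x + 1) = 0 then _ else _) = _
    rw [if_neg h]
  have u2 : ∀ x, x < n + 2 → p (x + 1) = 0 → u.1 x = n + 2 := by
    intro x hx h
    change rotP (n + 3) p x = _
    unfold rotP
    rw [if_pos (by omega), if_neg (show ¬ x + 1 = n + 3 by omega)]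
    change (if p (x + 1) = 0 then _ else _) = _
    rw [if_pos h]
    omega
  have u3 : p 0 ≠ 0 → u.1 (n + 2) = p 0 - 1 := by
    intro h
    change rotP (n + 3) p (n + 2) = _
    unfold rotP
    rw [if_pos (by omega), if_pos rfl]
    change (if p 0 = 0 then _ else _) = _
    rw [if_neg h]
  have u3' : p 0 = 0 → u.1 (n + 2) = n + 2 := by
    intro h
    change rotP (n + 3) p (n + 2) = _
    unfold rotP
    rw [if_pos (by omega), if_pos rfl]
    change (if p 0 = 0 then _ else _) = _
    rw [if_pos h]
    omega
  have v1 : ∀ x, x < n + 2 → p (x + 1) ≠ 0 → u.2 x = labO p (x + 1) := by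
    intro x hx h
    have h1 := labO_rotP hp (x := x + 1) (by omega)
    rw [PatB.rh, if_neg (by omega), if_neg (by rintro ⟨-, h2 | h2⟩ <;> omega),
      Nat.add_sub_cancel] at h1
    exact h1
  have v2 : ∀ x, x < n + 2 → p (x + 1) = 0 → u.2 x = !labO p (x + 1) := by
    intro x hx h
    have h1 := labO_rotP hp (x := x + 1) (by omega)
    rw [PatB.rh, if_neg (by omega), if_pos ⟨by omega, Or.inr h⟩, Nat.add_sub_cancel] at h1
    exact h1
  have v3 : p 0 ≠ 0 → u.2 (n + 2) = !labO p 0 := by
    intro h
    have h1 := labO_rotP hp (x := 0) (by omega)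
    rw [PatB.rh, if_pos rfl, if_pos ⟨h, Or.inl rfl⟩] at h1
    exact h1
  have v3' : p 0 = 0 → u.2 (n + 2) = false := by
    intro h
    exact labFix (u3' h)
  have key : Tri (n + 1) (upO p) d' ↔ Tri n u s := by
    constructor
    · set g : ℕ → ℕ := fun x => if x = 0 then n + 2 else x - 1 with hg
      set θ : ℕ → Bool := fun x => decide (x = 0) with hθ
      have g0 : g 0 = n + 2 := by simp only [hg]; rw [if_pos trivial]
      have g1 : ∀ x, g (x + 1) = x := by
        intro x
        simp only [hg]
        rw [if_neg (by omega), Nat.add_sub_cancel]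
      have t0 : θ 0 = true := by simp [hθ]
      have t1 : ∀ x, θ (x + 1) = false := by intro x; simp [hθ]
      have h1 : ∀ x, x < n + 4 → PR u s (g x, θ x)
          (g ((upO p).1 x), xor ((upO p).2 x) (θ ((upO p).1 x))) := by
        intro x hx
        change PR u s (g x, θ x) (g (p x), xor (labO p x) (θ (p x)))
        rcases Nat.eq_zero_or_pos x with h | h
        · rw [h]
          by_cases h0 : p 0 = 0
          · rw [h0, labFix h0, Bool.false_xor]
            exact Relation.ReflTransGen.refl
          · obtain ⟨z, hz⟩ : ∃ z, p 0 = z + 1 := ⟨p 0 - 1, by omega⟩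
            rw [g0, t0, hz, g1, t1, Bool.xor_false]
            refine up' ?_ ?_
            · rw [u3 h0, hz, Nat.add_sub_cancel]
            · rw [v3 h0, xor_true_not, Bool.not_not]
        · obtain ⟨y, rfl⟩ : ∃ y, x = y + 1 := ⟨x - 1, by omega⟩
          by_cases h' : y = n + 2
          · rw [h', hp.out _ le_rfl, labOut hp le_rfl, g1, t1]
            exact Relation.ReflTransGen.refl
          · have hy : y < n + 2 := by omega
            rw [g1, t1]
            by_cases h0 : p (y + 1) = 0
            · rw [h0, g0, t0]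
              refine up' (u2 y hy h0) ?_
              rw [v2 y hy h0, Bool.false_xor, Bool.xor_true]
            · obtain ⟨z, hz⟩ : ∃ z, p (y + 1) = z + 1 := ⟨p (y + 1) - 1, by omega⟩
              rw [hz, g1, t1, Bool.xor_false]
              refine up' ?_ ?_
              · rw [u1 y hy h0, hz, Nat.add_sub_cancel]
              · rw [v1 y hy h0, Bool.false_xor]
      have h2 : ∀ x, x < n + 4 → PR u s (g x, θ x) (g (d'.1 x), xor (d'.2 x) (θ (d'.1 x))) := by
        intro x hx
        rcases Nat.eq_zero_or_pos x with h | h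
        · rw [h, d0, m0, g0, t0, g1, t1, Bool.xor_false]
          exact Relation.ReflTransGen.refl
        · obtain ⟨y, rfl⟩ : ∃ y, x = y + 1 := ⟨x - 1, by omega⟩
          rw [g1, t1]
          by_cases hy : y < n
          · rw [d1 y hy, m1 y hy, g1, t1, Bool.xor_false]
            exact dn' rfl (Bool.false_xor _)
          · have h' : y = n ∨ y = n + 1 ∨ y = n + 2 := by omega
            rcases h' with h' | h' | h'
            · rw [h', d4, m4, g1, t1]
              exact Relation.ReflTransGen.refl
            · rw [h', d5, m5, g1, t1]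
              exact Relation.ReflTransGen.refl
            · rw [h', d3, m3, g0, t0]
              exact Relation.ReflTransGen.refl
      rintro ⟨a, b, ha, ha', hb, hb', hab, hPR⟩
      have h3 := PR.map (fun x => x < n + 4) g θ
        (fun x hx => by
          change p x < n + 4
          by_cases h : x < n + 3
          · have := hp.lt x h; omega
          · rw [hp.out x (by omega)]; exact hx)
        (fun x hx => by
          change d'.1 x < n + 4
          have hx' : x < n + 4 := hx
          rcases Nat.eq_zero_or_pos x with h | h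
          · rw [h, d0]; omega
          · obtain ⟨y, rfl⟩ : ∃ y, x = y + 1 := ⟨x - 1, by omega⟩
            by_cases hy : y < n
            · have := slt y hy
              rw [d1 y hy]; omega
            · have h' : y = n ∨ y = n + 1 ∨ y = n + 2 := by omega
              rcases h' with h' | h' | h'
              · rw [h', d4]; omega
              · rw [h', d5]; omega
              · rw [h', d3]; omega)
        h1 h2 (show a < n + 4 by omega) hPR
      obtain ⟨a', rfl⟩ : ∃ a', a = a' + 1 := ⟨a - 1, by omega⟩
      obtain ⟨b', rfl⟩ : ∃ b', b = b' + 1 := ⟨b - 1, by omega⟩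
      rw [t1, t1, Bool.xor_false, Bool.xor_false, g1, g1] at h3
      exact ⟨a', b', by omega, by omega, by omega, by omega, by omega, h3⟩
    · have small : ∀ ε : Bool, PR (upO p) d' (0, ε) (n + 3, !ε) := fun ε =>
        dn' d0 (by rw [m0, Bool.xor_true])
      have small' : ∀ ε : Bool, PR (upO p) d' (n + 3, ε) (0, !ε) := fun ε =>
        dn' d3 (by rw [m3, Bool.xor_true])
      have h1 : ∀ x, x < n + 3 → PR (upO p) d' (x + 1, false) (u.1 x + 1, xor (u.2 x) false) := by
        intro x hx
        rw [Bool.xor_false]
        by_cases h : x = n + 2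
        · rw [h]
          by_cases h0 : p 0 = 0
          · rw [u3' h0, v3' h0]
            exact Relation.ReflTransGen.refl
          · rw [u3 h0, v3 h0]
            have h6 : PR (upO p) d' (0, true) (p 0 - 1 + 1, !labO p 0) :=
              up' (by change p 0 = _; omega) (by change xor true (labO p 0) = _; rw [xor_true_not])
            exact (small' false).trans h6
        · have hx' : x < n + 2 := by omega
          by_cases h0 : p (x + 1) = 0
          · rw [u2 x hx' h0, v2 x hx' h0]
            have h3 : PR (upO p) d' (x + 1, false) (0, labO p (x + 1)) :=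
              up' h0 (Bool.false_xor _)
            exact h3.trans (small _)
          · rw [u1 x hx' h0, v1 x hx' h0]
            exact up' (by change p (x + 1) = _; omega) (Bool.false_xor _)
      have h2 : ∀ x, x < n + 3 → PR (upO p) d' (x + 1, false) (s.1 x + 1, xor (s.2 x) false) := by
        intro x hx
        rw [Bool.xor_false]
        by_cases h : x < n
        · exact dn' (d1 x h) (by rw [m1 x h, Bool.false_xor])
        · rw [sout x (by omega), slab x (by omega)]
          exact Relation.ReflTransGen.refl
      rintro ⟨a, b, ha, ha', hb, hb', hab, hPR⟩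
      have h3 := PR.map (fun x => x < n + 3) (fun x => x + 1) (fun _ => false)
        (fun x hx => by
          change u.1 x < n + 3
          have hx' : x < n + 3 := hx
          by_cases h : x = n + 2
          · rw [h]
            by_cases h0 : p 0 = 0
            · rw [u3' h0]; omega
            · have := plt 0 (by omega)
              rw [u3 h0]; omega
          · by_cases h0 : p (x + 1) = 0
            · rw [u2 x (by omega) h0]; omega
            · have := plt (x + 1) (by omega)
              rw [u1 x (by omega) h0]; omega)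
        (fun x hx => by
          change s.1 x < n + 3
          by_cases h : x < n
          · have := slt x h
            omega
          · rw [sout x (by omega)]; exact hx)
        h1 h2 (show a < n + 3 by omega) hPR
      rw [Bool.xor_false, Bool.xor_false] at h3
      exact ⟨a + 1, b + 1, by omega, by omega, by omega, by omega, by omega, h3⟩
  classical
  unfold B3 B2
  rw [← hd', ← hu]
  simp only [key]

end Pool.Agent.Perc

end Partperc3TriD

section Parth60C1Str

/-!
# The two strands of a unit edge in the rectangle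
-/

set_option autoImplicit false

namespace Pool.Agent.PercS5

open Finset Pool.Agent.Perc Pool.Agent.PercD

variable {ω : Cfg} {c : ℤ × ℤ} {d X L w : ℤ} {e a b : UE} {F : Set (ℤ × ℤ)}

/-- Last exit from the inner box. -/
theorem last_exit' (he : InE c d e) (ha : a ∈ MM ω F e) :
    InE c d a ∨ ∃ b ∈ MM ω F e, BdR c d b ∧ a ∈ MM ω (F \ BR c d) b := by
  induction ha with
  | refl => exact Or.inl he
  | tail hab hs ih =>
    obtain ⟨f, hf, hm⟩ := hs
    by_cases hf' : f ∈ (BR c d : Set (ℤ × ℤ))
    · exact Or.inl (inE_of_side hf' hm.right)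
    · right
      rcases ih with ih | ⟨b, hb1, hb2, hb3⟩
      · exact ⟨_, hab, bd_of_side ih hm.left hf', Relation.ReflTransGen.single ⟨f, ⟨hf, hf'⟩, hm⟩⟩
      · exact ⟨b, hb1, hb2, MM_step ⟨hf, hf'⟩ hm hb3⟩

/-- First exit from a set of faces: if the component in the bigger set contains a unit edge which is
not in the component in the smaller set, then the latter contains a side of a face outside. -/
theorem first_exit' {F' : Set (ℤ × ℤ)} (ha : a ∈ MM ω F' e) :
    a ∈ MM ω F e ∨ ∃ b ∈ MM ω F e, ∃ f ∈ F', f ∉ F ∧ IsSide f b := by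
  induction ha with
  | refl => exact Or.inl mem_MM_self
  | tail _ hs ih =>
    obtain ⟨f, hf, hm⟩ := hs
    rcases ih with ih | ih
    · by_cases hf' : f ∈ F
      · exact Or.inl (MM_step hf' hm ih)
      · exact Or.inr ⟨_, ih, f, hf, hf', hm.left⟩
    · exact Or.inr ih

/-- The unit edge is on the upper or the lower side of the rectangle. -/
def TB (c : ℤ × ℤ) (L w : ℤ) (b : UE) : Prop :=
  b.2.2 = false ∧ c.1 - L ≤ b.1 ∧ b.1 < c.1 + L ∧ (b.2.1 = c.2 - w ∨ b.2.1 = c.2 + w)

/-- The boundary unit edges of the rectangle. -/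
def BdL (c : ℤ × ℤ) (L w : ℤ) (a : UE) : Prop := BdE (c.1 - L) (c.1 + L) (c.2 - w) (c.2 + w) a

theorem TB_of_bd (he : InE c d e) (hXL : X ≤ L) (hLat : ω ∉ Lat c d X L w)
    (ha : a ∈ MM ω (RL c L w) e) (hb : BdL c L w a) : TB c L w a := by
  rcases hb with ⟨h1, h2, h3, h4⟩ | ⟨h1, h2, h3, h4⟩
  · exact ⟨h1, h2, h3, h4⟩
  · exfalso
    apply hLat
    refine ⟨e, he, a, ha, ?_⟩
    obtain ⟨x, y, b⟩ := a
    simp only at h1 h4
    subst h1
    rw [ua_mk, ub_true]
    simp only
    rcases h4 with h4 | h4
    · right; omega
    · left; omega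

/-- A unit edge on the upper or lower side is not in the inner box. -/
theorem not_inE_of_TB (hdw : d < w) (h : TB c L w a) : ¬ InE c d a := by
  intro h'
  obtain ⟨x, y, b⟩ := a
  obtain ⟨h1, h2, h3, h4⟩ := h
  simp only at h1 h2 h3 h4
  subst h1
  unfold InE InR at h'
  rw [ua_mk, ub_false] at h'
  simp only at h'
  omega

/-- The two strands. -/
theorem strands (he : InE c d e) (hd : 0 < d) (hdw : d < w) (hwL : 0 < L) (hXL : X ≤ L)
    (hLat : ω ∉ Lat c d X L w) {t : UE} (ht : t ∈ MM ω (RL c L w) e) (htb : BdL c L w t) :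
    ∃ b b', b ≠ b' ∧ TB c L w b ∧ TB c L w b' ∧ b ∈ MM ω (RL c L w) e ∧
      b' ∈ MM ω (RL c L w) e ∧ (∃ s ∈ MM ω ((RL c L w : Set (ℤ × ℤ)) \ BR c d) b, BdR c d s) ∧
      ∃ s ∈ MM ω ((RL c L w : Set (ℤ × ℤ)) \ BR c d) b', BdR c d s := by
  obtain ⟨t', ht', htb', hne⟩ := Pool.Agent.PercT.exists_other (x₀ := c.1 - L) (x₁ := c.1 + L)
    (y₀ := c.2 - w) (y₁ := c.2 + w) (by omega) (by omega) ht htb
  have h1 := TB_of_bd he hXL hLat ht htb
  have h2 := TB_of_bd he hXL hLat ht' htb'
  have key : ∀ t, t ∈ MM ω (RL c L w) e → TB c L w t →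
      ∃ s ∈ MM ω ((RL c L w : Set (ℤ × ℤ)) \ BR c d) t, BdR c d s := by
    intro t ht htb
    rcases last_exit' he ht with h | ⟨s, -, hs, hst⟩
    · exact absurd h (not_inE_of_TB hdw htb)
    · exact ⟨s, MM_symm hst, hs⟩
  exact ⟨t', t, hne, h2, h1, ht', ht, key _ ht' h2, key _ ht h1⟩

end Pool.Agent.PercS5

end Parth60C1Str

section Partperc6BcGood

/-!
# A success of the cluster gives a measure on the cells which see infinity
-/

set_option autoImplicit false

namespace Pool.Agent.PercBc

open Filter Topology Relation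
open Pool.Agent.Perc Pool.Agent.Perc.PercD Pool.Agent.PercD Pool.Agent.PercS5 Pool.Agent.Perc6
open Pool.Agent.PercX60 (Sn)

/-- The point of the plane with the turned coordinates `α`, `β`. -/
noncomputable def fp (α β : ℝ) : ℂ := ⟨(α + β) / 2, (α - β) / 2⟩

variable {n p m : ℕ} {ω : Cfg} {u X : ℤ × ℤ} {ρ α β α' β' : ℝ} {h w x y s η M q : ℤ}

theorem noV_fp : NoV (cfgE n ω) u ρ (fp α β) ↔
    ∀ c ∈ CL n ω u, ρ < |α - c.1| ∨ ρ < |β - c.2| := by
  have e1 : (fp α β).re + (fp α β).im = α := by simp only [fp]; ring
  have e2 : (fp α β).re - (fp α β).im = β := by simp only [fp]; ring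
  constructor
  · rintro hh _ ⟨v, hv, rfl⟩
    have := hh v hv
    rw [e1, e2] at this
    simpa [phiV] using this
  · intro hh v hv
    have := hh _ ⟨v, hv, rfl⟩
    rw [e1, e2]
    simpa [phiV] using this

theorem seg_fp {z : ℂ} (hz : z ∈ segment ℝ (fp α β) (fp α' β')) :
    ∃ t : ℝ, 0 ≤ t ∧ t ≤ 1 ∧ z = fp (α + t * (α' - α)) (β + t * (β' - β)) := by
  obtain ⟨a, b, ha, hb, hab, rfl⟩ := hz
  refine ⟨b, hb, by linarith, ?_⟩
  have ha' : a = 1 - b := by linarith
  subst ha'
  apply Complex.ext
  · simp only [fp, Complex.add_re, Complex.real_smul, Complex.mul_re, Complex.ofReal_re,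
      Complex.ofReal_im]
    ring
  · simp only [fp, Complex.add_im, Complex.real_smul, Complex.mul_im, Complex.ofReal_re,
      Complex.ofReal_im]
    ring

theorem rp_fp (t : ℝ) : rp (fp α β) t = fp (α + 2 * t) β := by
  apply Complex.ext
  · simp only [rp, fp]; ring
  · simp only [rp, fp]; ring

/-- The rightmost vertex of the cluster in the band. -/
structure Tg (n : ℕ) (ω : Cfg) (u : ℤ × ℤ) (h w : ℤ) (X : ℤ × ℤ) : Prop where
  mem : X ∈ CL n ω u
  max : ∀ c ∈ CL n ω u, h - w ≤ c.2 → c.2 ≤ h + w → c.1 ≤ X.1

/-- No vertex of the cluster in a free square. -/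
theorem Tg.free (ht : Tg n ω u h w X) (hw : 0 ≤ w) (hX : X.1 < x) {t : ℤ × ℤ} (hη : 0 ≤ η)
    (hf : FreeSq ω 0 x (h + w) s η t) {c : ℤ × ℤ} (hc : c ∈ CL n ω u)
    (h1 : x + η * t.1 ≤ c.1) (h2 : c.1 ≤ x + η * (t.1 + 1)) (h3 : h + w + η * t.2 ≤ c.2)
    (h4 : c.2 ≤ h + w + η * (t.2 + 1)) : False := by
  obtain ⟨⟨a1, a2, a3, a4⟩, hr⟩ := hf
  have b1 : 0 ≤ η * t.1 := mul_nonneg hη a1
  have b2 : 0 ≤ η * t.2 := mul_nonneg hη a3
  refine hr c h1 h2 h3 h4 (by have := CL_par hc; unfold par; omega) ?_
  obtain ⟨z, hz, hzb, z1, z2, z3, z4⟩ := (CL_conn hc ht.mem).toBd (x₀ := x) (x₁ := x + s)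
    (y₀ := h + w) (y₁ := h + w + s) (by omega) (by omega)
  refine ⟨z, hz.mono Set.inter_subset_right, ?_⟩
  have hzC : z ∈ CL n ω u := CL_of_conn hc (hz.mono Set.inter_subset_left)
  by_contra hcon
  have := ht.max z hzC (by omega) (by omega)
  omega

/-- The centre of a small square. -/
noncomputable def cs (x y η : ℤ) (t : ℤ × ℤ) : ℂ :=
  fp (x + η * (t.1 + 1 / 2)) (y + η * (t.2 + 1 / 2))

theorem Tg.noV_cs (ht : Tg n ω u h w X) (hw : 0 ≤ w) (hX : X.1 < x) {t : ℤ × ℤ} (hη : 0 ≤ η)
    (hf : FreeSq ω 0 x (h + w) s η t) :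
    NoV (cfgE n ω) u (η / 4) (cs x (h + w) η t) := by
  rw [cs, noV_fp]
  intro c hc
  by_contra hcon
  push Not at hcon
  obtain ⟨h1, h2⟩ := hcon
  rw [abs_le] at h1 h2
  have hη0 : (0 : ℝ) ≤ η := by exact_mod_cast hη
  refine ht.free hw hX hη hf hc ?_ ?_ ?_ ?_
  · have : (x : ℝ) + η * t.1 ≤ c.1 := by linarith [h1.1, h1.2]
    exact_mod_cast this
  · have : (c.1 : ℝ) ≤ x + η * (t.1 + 1) := by linarith [h1.1, h1.2]
    exact_mod_cast this
  · have : ((h + w : ℤ) : ℝ) + η * t.2 ≤ c.2 := by linarith [h2.1, h2.2]
    exact_mod_cast this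
  · have : (c.2 : ℝ) ≤ ((h + w : ℤ) : ℝ) + η * (t.2 + 1) := by linarith [h2.1, h2.2]
    exact_mod_cast this

theorem Tg.lk_cs (ht : Tg n ω u h w X) (hw : 0 ≤ w) (hX : X.1 < x) {t t' : ℤ × ℤ} (hη : 0 ≤ η)
    (hst : SqStep ω 0 x (h + w) s η t t') :
    Lk (cfgE n ω) u (η / 4) (cs x (h + w) η t) (cs x (h + w) η t') := by
  obtain ⟨hadj, hf, hf'⟩ := hst
  have hη0 : (0 : ℝ) ≤ η := by exact_mod_cast hη
  intro z hz
  obtain ⟨b, hb0, hb1, rfl⟩ := seg_fp hz
  rw [noV_fp]
  intro c hc
  by_contra hcon
  push Not at hcon
  obtain ⟨h1, h2⟩ := hcon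
  rw [abs_le] at h1 h2
  have hbη : 0 ≤ b * η := mul_nonneg hb0 hη0
  have hbη' : b * η ≤ η := mul_le_of_le_one_left hη0 hb1
  rcases hadj with ⟨he, ha⟩ | ⟨he, ha⟩
  · have he' : (t'.1 : ℝ) = t.1 := by exact_mod_cast he.symm
    rw [he'] at h1
    have c1 : x + η * t.1 ≤ c.1 := by
      have : (x : ℝ) + η * t.1 ≤ c.1 := by linarith [h1.1, h1.2]
      exact_mod_cast this
    have c2 : c.1 ≤ x + η * (t.1 + 1) := by
      have : (c.1 : ℝ) ≤ x + η * (t.1 + 1) := by linarith [h1.1, h1.2]
      exact_mod_cast this
    have ha' : t'.2 = t.2 + 1 ∨ t'.2 = t.2 - 1 := by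
      rcases abs_cases (t.2 - t'.2) with h0 | h0 <;> omega
    rcases ha' with ha' | ha'
    · have e : (t'.2 : ℝ) = t.2 + 1 := by exact_mod_cast ha'
      rw [e] at h2
      have d1 : h + w + η * t.2 ≤ c.2 := by
        have : ((h + w : ℤ) : ℝ) + η * t.2 ≤ c.2 := by linarith [h2.1, h2.2]
        exact_mod_cast this
      have d2 : c.2 ≤ h + w + η * (t'.2 + 1) := by
        have : (c.2 : ℝ) ≤ ((h + w : ℤ) : ℝ) + η * (t'.2 + 1) := by rw [e]; linarith [h2.1, h2.2]
        exact_mod_cast this
      by_cases hd : c.2 ≤ h + w + η * (t.2 + 1)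
      · exact ht.free hw hX hη hf hc c1 c2 d1 hd
      · refine ht.free hw hX hη hf' hc ?_ ?_ ?_ d2
        · rw [← he]; exact c1
        · rw [← he]; exact c2
        · rw [ha']; omega
    · have e : (t'.2 : ℝ) = t.2 - 1 := by exact_mod_cast ha'
      rw [e] at h2
      have d1 : h + w + η * t'.2 ≤ c.2 := by
        have : ((h + w : ℤ) : ℝ) + η * t'.2 ≤ c.2 := by rw [e]; linarith [h2.1, h2.2]
        exact_mod_cast this
      have d2 : c.2 ≤ h + w + η * (t.2 + 1) := by
        have : (c.2 : ℝ) ≤ ((h + w : ℤ) : ℝ) + η * (t.2 + 1) := by linarith [h2.1, h2.2]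
        exact_mod_cast this
      by_cases hd : h + w + η * t.2 ≤ c.2
      · exact ht.free hw hX hη hf hc c1 c2 hd d2
      · refine ht.free hw hX hη hf' hc ?_ ?_ d1 ?_
        · rw [← he]; exact c1
        · rw [← he]; exact c2
        · rw [ha']
          have : t.2 - 1 + 1 = t.2 := by ring
          rw [this]; omega
  · have he' : (t'.2 : ℝ) = t.2 := by exact_mod_cast he.symm
    rw [he'] at h2
    have c1 : h + w + η * t.2 ≤ c.2 := by
      have : ((h + w : ℤ) : ℝ) + η * t.2 ≤ c.2 := by linarith [h2.1, h2.2]
      exact_mod_cast this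
    have c2 : c.2 ≤ h + w + η * (t.2 + 1) := by
      have : (c.2 : ℝ) ≤ ((h + w : ℤ) : ℝ) + η * (t.2 + 1) := by linarith [h2.1, h2.2]
      exact_mod_cast this
    have ha' : t'.1 = t.1 + 1 ∨ t'.1 = t.1 - 1 := by
      rcases abs_cases (t.1 - t'.1) with h0 | h0 <;> omega
    rcases ha' with ha' | ha'
    · have e : (t'.1 : ℝ) = t.1 + 1 := by exact_mod_cast ha'
      rw [e] at h1
      have d1 : x + η * t.1 ≤ c.1 := by
        have : (x : ℝ) + η * t.1 ≤ c.1 := by linarith [h1.1, h1.2]
        exact_mod_cast this
      have d2 : c.1 ≤ x + η * (t'.1 + 1) := by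
        have : (c.1 : ℝ) ≤ x + η * (t'.1 + 1) := by rw [e]; linarith [h1.1, h1.2]
        exact_mod_cast this
      by_cases hd : c.1 ≤ x + η * (t.1 + 1)
      · exact ht.free hw hX hη hf hc d1 hd c1 c2
      · refine ht.free hw hX hη hf' hc ?_ d2 ?_ ?_
        · rw [ha']; omega
        · rw [← he]; exact c1
        · rw [← he]; exact c2
    · have e : (t'.1 : ℝ) = t.1 - 1 := by exact_mod_cast ha'
      rw [e] at h1
      have d1 : x + η * t'.1 ≤ c.1 := by
        have : (x : ℝ) + η * t'.1 ≤ c.1 := by rw [e]; linarith [h1.1, h1.2]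
        exact_mod_cast this
      have d2 : c.1 ≤ x + η * (t.1 + 1) := by
        have : (c.1 : ℝ) ≤ x + η * (t.1 + 1) := by linarith [h1.1, h1.2]
        exact_mod_cast this
      by_cases hd : x + η * t.1 ≤ c.1
      · exact ht.free hw hX hη hf hc hd d2 c1 c2
      · refine ht.free hw hX hη hf' hc d1 ?_ ?_ ?_
        · rw [ha']
          have : t.1 - 1 + 1 = t.1 := by ring
          rw [this]; omega
        · rw [← he]; exact c1
        · rw [← he]; exact c2

theorem Tg.chain_cs (ht : Tg n ω u h w X) (hw : 0 ≤ w) (hX : X.1 < x) {t t' : ℤ × ℤ} (hη : 0 ≤ η)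
    (hst : ReflTransGen (SqStep ω 0 x (h + w) s η) t t') :
    ReflTransGen (Lk (cfgE n ω) u (η / 4)) (cs x (h + w) η t) (cs x (h + w) η t') := by
  induction hst with
  | refl => exact .refl
  | tail _ hs ih => exact ih.tail (ht.lk_cs hw hX hη hs)

/-- From a free square at the lower side of the window into the band. -/
theorem Tg.lk_down (ht : Tg n ω u h w X) (hX : X.1 < x) {t : ℤ × ℤ} (hη : 0 ≤ η)
    (hηw : η ≤ 4 * w) (hf : FreeSq ω 0 x (h + w) s η t) (ht0 : t.2 = 0) :
    Lk (cfgE n ω) u (η / 4) (cs x (h + w) η t) (fp (x + η * (t.1 + 1 / 2)) h) := by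
  have hη0 : (0 : ℝ) ≤ η := by exact_mod_cast hη
  have hηw' : (η : ℝ) ≤ 4 * w := by exact_mod_cast hηw
  have hw : 0 ≤ w := by omega
  have hw0 : (0 : ℝ) ≤ w := by exact_mod_cast hw
  intro z hz
  obtain ⟨b, hb0, hb1, rfl⟩ := seg_fp hz
  rw [noV_fp]
  intro c hc
  by_contra hcon
  push Not at hcon
  obtain ⟨h1, h2⟩ := hcon
  rw [abs_le] at h1 h2
  rw [ht0] at h2
  push_cast at h2
  have hbη : 0 ≤ b * η := mul_nonneg hb0 hη0
  have hbη' : b * η ≤ η := mul_le_of_le_one_left hη0 hb1
  have hbw : 0 ≤ b * w := mul_nonneg hb0 hw0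
  have hbw' : b * w ≤ w := mul_le_of_le_one_left hw0 hb1
  have c1 : x + η * t.1 ≤ c.1 := by
    have : (x : ℝ) + η * t.1 ≤ c.1 := by linarith [h1.1, h1.2]
    exact_mod_cast this
  have c2 : c.1 ≤ x + η * (t.1 + 1) := by
    have : (c.1 : ℝ) ≤ x + η * (t.1 + 1) := by linarith [h1.1, h1.2]
    exact_mod_cast this
  have c0 : 0 ≤ η * t.1 := mul_nonneg hη hf.1.1
  have d1 : h - w ≤ c.2 := by
    have : (h : ℝ) - w ≤ c.2 := by nlinarith [h2.1, h2.2]
    exact_mod_cast this
  by_cases hd : c.2 ≤ h + w
  · have := ht.max c hc d1 hd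
    omega
  · refine ht.free hw hX hη hf hc c1 c2 ?_ ?_
    · rw [ht0]; omega
    · rw [ht0]
      have : (c.2 : ℝ) ≤ h + w + η := by nlinarith [h2.1, h2.2]
      have : c.2 ≤ h + w + η := by exact_mod_cast this
      omega

/-- Along the band to infinity. -/
theorem Tg.ray (ht : Tg n ω u h w X) (hX : X.1 < x) {t : ℤ × ℤ} (hη : 0 < η)
    (hηw : η ≤ 4 * w) (hf : 0 ≤ t.1) (b : ℝ) (hb : 0 ≤ b) :
    NoV (cfgE n ω) u (η / 4) (rp (fp (x + η * (t.1 + 1 / 2)) h) b) := by
  have hη0 : (0 : ℝ) < η := by exact_mod_cast hη
  have hηw' : (η : ℝ) ≤ 4 * w := by exact_mod_cast hηw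
  rw [rp_fp, noV_fp]
  intro c hc
  by_contra hcon
  push Not at hcon
  obtain ⟨h1, h2⟩ := hcon
  rw [abs_le] at h1 h2
  have d1 : h - w ≤ c.2 := by
    have : (h : ℝ) - w ≤ c.2 := by linarith [h2.1, h2.2]
    exact_mod_cast this
  have d2 : c.2 ≤ h + w := by
    have : (c.2 : ℝ) ≤ h + w := by linarith [h2.1, h2.2]
    exact_mod_cast this
  have hm := ht.max c hc d1 d2
  have hm' : (c.1 : ℝ) ≤ X.1 := by exact_mod_cast hm
  have hX' : (X.1 : ℝ) < x := by exact_mod_cast hX
  have c0 : 0 ≤ (η : ℝ) * t.1 := mul_nonneg hη0.le (by exact_mod_cast hf)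
  linarith [h1.1, h1.2]

end Pool.Agent.PercBc

end Partperc6BcGood
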