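import Pool.Agent.Lib.MP_6bd702_zc.Pre
import Pool.Agent.Lib.MP_6bd702_zc.Y003
import Pool.Agent.Lib.MP_6bd702_z.Z094
import Pool.Agent.Lib.MP_6bd702_z.Z098
import Pool.Agent.Lib.MP_6bd702_z.Z095
import Pool.Agent.Lib.MP_6bd702_z.Z093

section Partperc3Uni3

/-!
# Uniqueness of the three leg sums (task Uni3)
-/

set_option autoImplicit false

namespace Pool.Agent.Perc

open Finset MvPolynomial

namespace Uni3

/-- Replace the value at the place `N`. -/
def upd (N : ℕ) (x : ℂ) (w : ℕ → ℂ) : ℕ → ℂ := fun k => if k = N then x else w k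

theorem insV_self (i : ℕ) (w : ℕ → ℂ) :
    insV i (w i) (w (i + 1)) (fun k => if k < i then w k else w (k + 2)) = w := by
  funext k
  unfold insV
  by_cases h1 : k < i
  · rw [if_pos h1]
    exact if_pos h1
  · rw [if_neg h1]
    by_cases h2 : k = i
    · rw [if_pos h2, h2]
    · rw [if_neg h2]
      by_cases h3 : k = i + 1
      · rw [if_pos h3, h3]
      · rw [if_neg h3]
        refine (if_neg (by omega)).trans ?_
        congr 1
        omega

theorem ins1_self (j : ℕ) (w : ℕ → ℂ) : ins1 j (w j) (skip1 j w) = w := by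
  funext k
  unfold ins1 skip1
  by_cases h1 : k < j
  · rw [if_pos h1, if_pos h1]
  · rw [if_neg h1]
    by_cases h2 : k = j
    · rw [if_pos h2, h2]
    · rw [if_neg h2, if_neg (by omega)]
      congr 1
      omega

/-- A polynomial which vanishes at sufficiently many points of every generic line in a coordinate
direction is zero. -/
theorem eq_zero_of_lines {H : MvPolynomial ℕ ℂ} (N D : ℕ) (J : Finset ℕ)
    (hdeg : H.degreeOf N ≤ D)
    (hz : ∀ w : ℕ → ℂ, (∀ k ∈ J, w k ≠ 0) → (∀ i ∈ J, ∀ j ∈ J, w i ^ 3 = w j ^ 3 → i = j) →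
      ∃ P : Finset ℂ, D < P.card ∧ ∀ x ∈ P, eval (upd N x w) H = 0) : H = 0 := by
  classical
  let Δ : MvPolynomial ℕ ℂ := (∏ k ∈ J, X k) *
    ∏ p ∈ (J ×ˢ J).filter (fun p => p.1 ≠ p.2), (X p.1 ^ 3 - X p.2 ^ 3)
  have hΔ : Δ ≠ 0 := by
    intro h
    have h1 := congrArg (eval fun k : ℕ => ((k + 1 : ℕ) : ℂ)) h
    simp only [Δ, map_mul, map_prod, eval_X, map_sub, map_pow, map_zero] at h1
    rcases mul_eq_zero.1 h1 with h2 | h2
    · obtain ⟨k, -, hk⟩ := Finset.prod_eq_zero_iff.1 h2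
      have : ((k + 1 : ℕ) : ℂ) ≠ 0 := Nat.cast_ne_zero.2 (by omega)
      exact this hk
    · obtain ⟨p, hp, hk⟩ := Finset.prod_eq_zero_iff.1 h2
      rw [mem_filter] at hp
      have h3 : ((p.1 + 1 : ℕ) : ℂ) ^ 3 = ((p.2 + 1 : ℕ) : ℂ) ^ 3 := sub_eq_zero.1 hk
      have h4 : (p.1 + 1) ^ 3 = (p.2 + 1) ^ 3 := by exact_mod_cast h3
      have h5 := Nat.pow_left_injective (n := 3) (by norm_num) h4
      exact hp.2 (by simpa using h5)
  have hprod : H * Δ = 0 := by
    refine MvPolynomial.funext fun z => ?_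
    rw [map_mul, map_zero]
    by_cases hgen : (∀ k ∈ J, z k ≠ 0) ∧ ∀ i ∈ J, ∀ j ∈ J, z i ^ 3 = z j ^ 3 → i = j
    · obtain ⟨P, hP, hP'⟩ := hz z hgen.1 hgen.2
      have hg0 : QSchur.sub1 N z H = 0 := by
        refine Polynomial.eq_zero_of_natDegree_lt_card_of_eval_eq_zero' _ P ?_ ?_
        · intro x hx
          rw [QSchur.eval_sub1]
          exact hP' x hx
        · exact lt_of_le_of_lt ((QSchur.natDegree_sub1_le N z H).trans hdeg) hP
      have h1 := QSchur.eval_sub1 N z H (z N)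
      have h2 : (fun k => if k = N then z N else z k) = z := by
        funext k
        by_cases hk : k = N
        · rw [if_pos hk, hk]
        · rw [if_neg hk]
      rw [h2, hg0, Polynomial.eval_zero] at h1
      rw [← h1, zero_mul]
    · have h1 : eval z Δ = 0 := by
        simp only [Δ, map_mul, map_prod, eval_X, map_sub, map_pow]
        rw [not_and_or] at hgen
        rcases hgen with h | h
        · push Not at h
          obtain ⟨k, hk, h⟩ := h
          rw [Finset.prod_eq_zero hk h, zero_mul]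
        · push Not at h
          obtain ⟨i, hi', j, hj', h, hij⟩ := h
          refine mul_eq_zero_of_right _ (Finset.prod_eq_zero (i := (i, j)) ?_ ?_)
          · rw [mem_filter, mem_product]
            exact ⟨⟨hi', hj'⟩, hij⟩
          · simp only
            rw [h, sub_self]
      rw [h1, mul_zero]
  exact (mul_eq_zero.1 hprod).resolve_right hΔ

/-- Invariance under the exchange of the coordinate `k` with the last one of the first `L`. -/
theorem swap_last {L : ℕ} {H : MvPolynomial ℕ ℂ}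
    (hs : ∀ i, i + 1 < L + 1 → ∀ z, eval (swapV i z) H = eval z H) {k : ℕ} (hk : k ≤ L)
    (z : ℕ → ℂ) : eval (fun j => z (Equiv.swap k L j)) H = eval z H := by
  rcases Nat.lt_or_ge k L with h | h
  · exact UniF.swap_inv hs h (by omega) z
  · have : k = L := le_antisymm hk h
    subst this
    congr 2
    funext j
    simp

/-- Invariance under the exchange of the coordinate `k` with the first one. -/
theorem swap_first {L : ℕ} {H : MvPolynomial ℕ ℂ}
    (hs : ∀ i, i + 1 < L + 1 → ∀ z, eval (swapV i z) H = eval z H) {k : ℕ} (hk : k ≤ L)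
    (z : ℕ → ℂ) : eval (fun j => z (Equiv.swap 0 k j)) H = eval z H := by
  rcases Nat.eq_zero_or_pos k with h | h
  · subst h
    congr 2
    funext j
    simp
  · exact UniF.swap_inv hs h (by omega) z

section T

variable {q : ℂ} {m : ℕ} {H : MvPolynomial ℕ ℂ} (hq : q ^ 2 + q + 1 = 0)
  (hdeg : H.degreeOf (2 * m + 1) ≤ 2 * m + 1)
  (hs : ∀ i, i + 1 < 2 * m + 1 → ∀ z, eval (swapV i z) H = eval z H)
  (hl : ∀ v u, v ≠ 0 → eval (insV (2 * m) v (q ^ 2 * v) u) H = 0)
  (hr : ∀ v u, v ≠ 0 → eval (ins1 0 (q ^ 2 * v) (ins1 (2 * m) v u)) H = 0)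

include hq hdeg hs hl hr in
theorem eq_zero_T : H = 0 := by
  have h3 := UniF.q_cube hq
  have hq0 := UniF.q_ne_zero hq
  refine eq_zero_of_lines (2 * m + 1) (2 * m + 1) (range (2 * m + 1)) hdeg ?_
  intro w h0 hd
  refine ⟨UniF.pts q (2 * m + 1) w, ?_, ?_⟩
  · rw [UniF.card_pts hq (fun k hk => h0 k (mem_range.2 hk))
      (fun i hi j hj => hd i (mem_range.2 hi) j (mem_range.2 hj))]
    omega
  intro x hx
  rw [UniF.pts, mem_union, mem_image, mem_image] at hx
  rcases hx with ⟨k, hk, rfl⟩ | ⟨k, hk, rfl⟩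
  · rw [mem_range] at hk
    -- `x = q z_k`: the seam
    rw [← swap_first (L := 2 * m) hs (k := k) (by omega)]
    set w' : ℕ → ℂ := fun j => upd (2 * m + 1) (q * w k) w (Equiv.swap 0 k j) with hw'
    have e0 : w' 0 = w k := by
      rw [hw']
      simp only [Equiv.swap_apply_left]
      unfold upd
      rw [if_neg (by omega)]
    have e1 : w' (2 * m + 1) = q * w k := by
      rw [hw']
      simp only
      rw [Equiv.swap_apply_of_ne_of_ne (by omega) (by omega)]
      unfold upd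
      rw [if_pos rfl]
    have hv : q * w k ≠ 0 := mul_ne_zero hq0 (h0 k (mem_range.2 hk))
    have h := hr (q * w k) (skip1 (2 * m) (skip1 0 w')) hv
    have e2 : ins1 (2 * m) (q * w k) (skip1 (2 * m) (skip1 0 w')) = skip1 0 w' := by
      have : skip1 0 w' (2 * m) = q * w k := by
        unfold skip1
        rw [if_neg (by omega), e1]
      rw [← this, ins1_self]
    have e3 : q ^ 2 * (q * w k) = w' 0 := by
      rw [e0]
      linear_combination (w k) * h3
    rw [e2, e3, ins1_self] at h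
    exact h
  · rw [mem_range] at hk
    rw [← swap_last (L := 2 * m) hs (k := k) (by omega)]
    set w' : ℕ → ℂ := fun j => upd (2 * m + 1) (q ^ 2 * w k) w (Equiv.swap k (2 * m) j) with hw'
    have e0 : w' (2 * m) = w k := by
      rw [hw']
      simp only [Equiv.swap_apply_right]
      unfold upd
      rw [if_neg (by omega)]
    have e1 : w' (2 * m + 1) = q ^ 2 * w k := by
      rw [hw']
      simp only
      rw [Equiv.swap_apply_of_ne_of_ne (by omega) (by omega)]
      unfold upd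
      rw [if_pos rfl]
    have h := hl (w k) (fun j => if j < 2 * m then w' j else w' (j + 2)) (h0 k (mem_range.2 hk))
    have e2 := insV_self (2 * m) w'
    rw [e0, e1] at e2
    rw [e2] at h
    exact h

end T

section S

variable {q : ℂ} {m : ℕ} {H : MvPolynomial ℕ ℂ} (hq : q ^ 2 + q + 1 = 0)
  (hdeg : H.degreeOf (2 * m + 2) ≤ 2 * m + 4)
  (hs : ∀ i, i + 1 < 2 * m + 2 → ∀ z, eval (swapV i z) H = eval z H)
  (he : ∀ i, (i = 2 * m + 2 ∨ i = 2 * m + 3) → ∀ w,
    (q * w (i + 1) - q ^ 2 * w i) * eval (swapV i w) H =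
      (q * w i - q ^ 2 * w (i + 1)) * eval w H)
  (hl : ∀ v u, v ≠ 0 → eval (insV (2 * m + 1) (q ^ 2 * v) v u) H = 0)
  (hr : ∀ v u, v ≠ 0 → eval (ins1 0 v (ins1 (2 * m + 3) (q ^ 2 * v) u)) H = 0)

theorem swapV_left (i : ℕ) (w : ℕ → ℂ) : swapV i w i = w (i + 1) := by
  unfold swapV
  rw [Equiv.swap_apply_left]

theorem swapV_right (i : ℕ) (w : ℕ → ℂ) : swapV i w (i + 1) = w i := by
  unfold swapV
  rw [Equiv.swap_apply_right]

theorem swapV_ne {i k : ℕ} (w : ℕ → ℂ) (h1 : k ≠ i) (h2 : k ≠ i + 1) : swapV i w k = w k := by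
  unfold swapV
  rw [Equiv.swap_apply_of_ne_of_ne h1 h2]

include hq hdeg hs he hl hr in
theorem eq_zero_S : H = 0 := by
  have h3 := UniF.q_cube hq
  have hq0 := UniF.q_ne_zero hq
  have hq1 := UniF.q_ne_one hq
  refine eq_zero_of_lines (2 * m + 2) (2 * m + 4)
    (insert (2 * m + 3) (insert (2 * m + 4) (range (2 * m + 2)))) hdeg ?_
  intro w h0 hd
  have hr' : ∀ k < 2 * m + 2, k ∈ insert (2 * m + 3) (insert (2 * m + 4) (range (2 * m + 2))) :=
    fun k hk => mem_insert_of_mem (mem_insert_of_mem (mem_range.2 hk))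
  have hy2 : 2 * m + 3 ∈ insert (2 * m + 3) (insert (2 * m + 4) (range (2 * m + 2))) :=
    mem_insert_self _ _
  have hy3 : 2 * m + 4 ∈ insert (2 * m + 3) (insert (2 * m + 4) (range (2 * m + 2))) :=
    mem_insert_of_mem (mem_insert_self _ _)
  refine ⟨insert (q ^ 2 * w (2 * m + 3)) (UniF.pts q (2 * m + 2) w), ?_, ?_⟩
  · rw [card_insert_of_notMem, UniF.card_pts hq (fun k hk => h0 k (hr' k hk))
      (fun i hi j hj => hd i (hr' i hi) j (hr' j hj))]
    · omega
    · intro h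
      rw [UniF.pts, mem_union, mem_image, mem_image] at h
      rcases h with ⟨k, hk, h⟩ | ⟨k, hk, h⟩
      · rw [mem_range] at hk
        have h1 : w k ^ 3 = w (2 * m + 3) ^ 3 := by
          have h2 : (q * w k) ^ 3 = (q ^ 2 * w (2 * m + 3)) ^ 3 := by rw [h]
          linear_combination h2 + (w (2 * m + 3) ^ 3 * (q ^ 3 + 1) - w k ^ 3) * h3
        have := hd k (hr' k hk) (2 * m + 3) hy2 h1
        omega
      · rw [mem_range] at hk
        have h1 : w k = w (2 * m + 3) := mul_left_cancel₀ (pow_ne_zero 2 hq0) h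
        have := hd k (hr' k hk) (2 * m + 3) hy2 (by rw [h1])
        omega
  intro x hx
  rw [mem_insert] at hx
  rcases hx with rfl | hx
  · -- the zero `y_1 = q^2 y_2`
    have h := he (2 * m + 2) (Or.inl rfl) (upd (2 * m + 2) (q ^ 2 * w (2 * m + 3)) w)
    have e1 : upd (2 * m + 2) (q ^ 2 * w (2 * m + 3)) w (2 * m + 2) = q ^ 2 * w (2 * m + 3) := by
      unfold upd
      rw [if_pos rfl]
    have e2 : upd (2 * m + 2) (q ^ 2 * w (2 * m + 3)) w (2 * m + 2 + 1) = w (2 * m + 3) := by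
      unfold upd
      rw [if_neg (by omega)]
    rw [e1, e2] at h
    have e3 : q * w (2 * m + 3) - q ^ 2 * (q ^ 2 * w (2 * m + 3)) = 0 := by
      linear_combination (-(q * w (2 * m + 3))) * h3
    have e4 : q * (q ^ 2 * w (2 * m + 3)) - q ^ 2 * w (2 * m + 3) ≠ 0 := by
      have : q * (q ^ 2 * w (2 * m + 3)) - q ^ 2 * w (2 * m + 3) =
          q ^ 2 * (q - 1) * w (2 * m + 3) := by ring
      rw [this]
      exact mul_ne_zero (mul_ne_zero (pow_ne_zero 2 hq0) (sub_ne_zero.2 hq1))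
        (h0 (2 * m + 3) hy2)
    rw [e3, zero_mul] at h
    exact (mul_eq_zero.1 h.symm).resolve_left e4
  rw [UniF.pts, mem_union, mem_image, mem_image] at hx
  rcases hx with ⟨k, hk, rfl⟩ | ⟨k, hk, rfl⟩
  · rw [mem_range] at hk
    rw [← swap_last (L := 2 * m + 1) hs (k := k) (by omega)]
    set w' : ℕ → ℂ := fun j => upd (2 * m + 2) (q * w k) w (Equiv.swap k (2 * m + 1) j) with hw'
    have e0 : w' (2 * m + 1) = w k := by
      rw [hw']
      simp only [Equiv.swap_apply_right]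
      unfold upd
      rw [if_neg (by omega)]
    have e1 : w' (2 * m + 1 + 1) = q * w k := by
      rw [hw']
      simp only
      rw [Equiv.swap_apply_of_ne_of_ne (by omega) (by omega)]
      unfold upd
      rw [if_pos rfl]
    have hv : q * w k ≠ 0 := mul_ne_zero hq0 (h0 k (hr' k hk))
    have h := hl (q * w k) (fun j => if j < 2 * m + 1 then w' j else w' (j + 2)) hv
    have e2 := insV_self (2 * m + 1) w'
    rw [e0, e1] at e2
    have e3 : q ^ 2 * (q * w k) = w k := by linear_combination (w k) * h3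
    rw [e3, e2] at h
    exact h
  · rw [mem_range] at hk
    -- `y_1 = q^2 z_k`: move `y_1` to the last place, then the seam
    have key : ∀ a : ℕ → ℂ, a (2 * m + 4) = q ^ 2 * a k → a k ≠ 0 → eval a H = 0 := by
      intro a ha hak
      rw [← swap_first (L := 2 * m + 1) hs (k := k) (by omega)]
      set w' : ℕ → ℂ := fun j => a (Equiv.swap 0 k j) with hw'
      have e0 : w' 0 = a k := by
        rw [hw']
        simp only [Equiv.swap_apply_left]
      have e1 : w' (2 * m + 4) = q ^ 2 * a k := by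
        rw [hw']
        simp only
        rw [Equiv.swap_apply_of_ne_of_ne (by omega) (by omega), ha]
      have h := hr (a k) (skip1 (2 * m + 3) (skip1 0 w')) hak
      have e2 : ins1 (2 * m + 3) (q ^ 2 * a k) (skip1 (2 * m + 3) (skip1 0 w')) = skip1 0 w' := by
        have : skip1 0 w' (2 * m + 3) = q ^ 2 * a k := by
          unfold skip1
          rw [if_neg (by omega), e1]
        rw [← this, ins1_self]
      rw [e2, ← e0, ins1_self] at h
      exact h
    set a : ℕ → ℂ := upd (2 * m + 2) (q ^ 2 * w k) w with ha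
    have a1 : a (2 * m + 2) = q ^ 2 * w k := by
      rw [ha]
      unfold upd
      rw [if_pos rfl]
    have an : ∀ j, j ≠ 2 * m + 2 → a j = w j := by
      intro j hj
      rw [ha]
      unfold upd
      rw [if_neg hj]
    have h1 := he (2 * m + 2) (Or.inl rfl) a
    have h2 := he (2 * m + 3) (Or.inr rfl) (swapV (2 * m + 2) a)
    have h4 : eval (swapV (2 * m + 3) (swapV (2 * m + 2) a)) H = 0 := by
      apply key
      · rw [swapV_right, swapV_right, a1, swapV_ne _ (by omega) (by omega),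
          swapV_ne _ (by omega) (by omega), an _ (by omega)]
      · rw [swapV_ne _ (by omega) (by omega), swapV_ne _ (by omega) (by omega), an _ (by omega)]
        exact h0 k (hr' k hk)
    rw [h4, mul_zero] at h2
    have c2 : q * swapV (2 * m + 2) a (2 * m + 3) -
        q ^ 2 * swapV (2 * m + 2) a (2 * m + 3 + 1) ≠ 0 := by
      rw [swapV_right, swapV_ne _ (by omega) (by omega), a1, an _ (by omega)]
      intro hc
      have h5 : w k = q ^ 2 * w (2 * m + 3 + 1) := by
        linear_combination hc - (w k) * h3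
      have h6 : w k ^ 3 = w (2 * m + 4) ^ 3 := by
        rw [h5]
        linear_combination (w (2 * m + 4) ^ 3 * (q ^ 3 + 1)) * h3
      have := hd k (hr' k hk) (2 * m + 4) hy3 h6
      omega
    have h5 : eval (swapV (2 * m + 2) a) H = 0 := (mul_eq_zero.1 h2.symm).resolve_left c2
    rw [h5, mul_zero] at h1
    refine (mul_eq_zero.1 h1.symm).resolve_left ?_
    rw [a1, an _ (by omega)]
    intro hc
    have h5 : w k = q ^ 2 * w (2 * m + 2 + 1) := by
      linear_combination hc - (w k) * h3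
    have h6 : w k ^ 3 = w (2 * m + 3) ^ 3 := by
      rw [h5]
      linear_combination (w (2 * m + 3) ^ 3 * (q ^ 3 + 1)) * h3
    have := hd k (hr' k hk) (2 * m + 3) hy2 h6
    omega

end S

section O

variable {q : ℂ} {m : ℕ} {H : MvPolynomial ℕ ℂ} (hq : q ^ 2 + q + 1 = 0)
  (hdeg : H.degreeOf 0 ≤ 2 * m + 2)
  (hs : ∀ i, i + 1 < 2 * m + 3 → ∀ z, eval (swapV i z) H = eval z H)
  (hi : ∀ v z, v ≠ 0 → eval (insV 0 (q ^ 2 * v) v z) H = 0)

include hs hi in
theorem zeroA {j : ℕ} (h0 : 0 < j) (hj : j < 2 * m + 3) {z : ℕ → ℂ} (h : z 0 = q ^ 2 * z j)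
    (hz : z j ≠ 0) : eval z H = 0 := by
  rw [← swap_last (L := 2 * m + 2) hs (k := 2 * m + 2) le_rfl]
  have key : ∀ w : ℕ → ℂ, w 0 = q ^ 2 * w 1 → w 1 ≠ 0 → eval w H = 0 := by
    intro w hw hw1
    have e := insV_self 0 w
    rw [hw, zero_add] at e
    have h := hi (w 1) (fun k => if k < 0 then w k else w (k + 2)) hw1
    rw [e] at h
    exact h
  have e : (fun j => z (Equiv.swap (2 * m + 2) (2 * m + 2) j)) = z := by
    funext j
    simp
  rw [e]
  by_cases h1 : j = 1
  · subst h1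
    exact key z h hz
  · rw [← UniF.swap_inv hs (i := 1) (j := j) (by omega) hj z]
    refine key _ ?_ ?_
    · rw [Equiv.swap_apply_left, Equiv.swap_apply_of_ne_of_ne (by omega) (by omega)]
      exact h
    · rw [Equiv.swap_apply_left]
      exact hz

include hq hdeg hs hi in
theorem eq_zero_O : H = 0 := by
  have h3 := UniF.q_cube hq
  have hq0 := UniF.q_ne_zero hq
  refine eq_zero_of_lines 0 (2 * m + 2) ((range (2 * m + 2)).image (fun k => k + 1)) hdeg ?_
  intro w h0 hd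
  have hm : ∀ k < 2 * m + 2, k + 1 ∈ (range (2 * m + 2)).image (fun k => k + 1) :=
    fun k hk => mem_image.2 ⟨k, mem_range.2 hk, rfl⟩
  refine ⟨UniF.pts q (2 * m + 2) (fun k => w (k + 1)), ?_, ?_⟩
  · rw [UniF.card_pts hq (fun k hk => h0 (k + 1) (hm k hk)) (fun i hi j hj h => by
      have := hd (i + 1) (hm i hi) (j + 1) (hm j hj) h
      omega)]
    omega
  intro x hx
  rw [UniF.pts, mem_union, mem_image, mem_image] at hx
  rcases hx with ⟨k, hk, rfl⟩ | ⟨k, hk, rfl⟩
  · rw [mem_range] at hk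
    rw [← UniF.swap_inv hs (i := 0) (j := k + 1) (by omega) (by omega)]
    refine zeroA hs hi (j := k + 1) (by omega) (by omega) ?_ ?_
    · rw [Equiv.swap_apply_left, Equiv.swap_apply_right]
      unfold upd
      rw [if_neg (by omega), if_pos rfl]
      linear_combination (-(w (k + 1))) * h3
    · rw [Equiv.swap_apply_right]
      unfold upd
      rw [if_pos rfl]
      exact mul_ne_zero hq0 (h0 (k + 1) (hm k hk))
  · rw [mem_range] at hk
    refine zeroA hs hi (j := k + 1) (by omega) (by omega) ?_ ?_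
    · unfold upd
      rw [if_pos rfl, if_neg (by omega)]
    · unfold upd
      rw [if_neg (by omega)]
      exact h0 (k + 1) (hm k hk)

end O

end Uni3

open Uni3

/-- The two families are determined by the relations and `S 0`. -/
theorem Rec3.unique {q : ℂ} (hq : q ^ 2 + q + 1 = 0) {κ κ' : ℕ → ℂ}
    {S T S' T' : ℕ → MvPolynomial ℕ ℂ} (h : Rec3 q κ κ' S T) (h' : Rec3 q κ κ' S' T')
    (h0 : S 0 = S' 0) (m : ℕ) : S m = S' m ∧ T (m + 1) = T' (m + 1) := by
  have hT : ∀ m, S m = S' m → T (m + 1) = T' (m + 1) := by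
    intro m hm
    have : T (m + 1) - T' (m + 1) = 0 := by
      refine eq_zero_T hq (m := m) ?_ ?_ ?_ ?_
      · exact (degreeOf_sub_le _ _ _).trans (max_le (h.degT m) (h'.degT m))
      · intro i hi w
        rw [map_sub, map_sub, h.symT m i hi, h'.symT m i hi]
      · intro v u hv
        rw [map_sub, h.leftT m v u hv, h'.leftT m v u hv, hm, sub_self]
      · intro v u hv
        rw [map_sub, h.seamT m v u hv, h'.seamT m v u hv, hm, sub_self]
    exact sub_eq_zero.1 this
  have hS : ∀ m, S m = S' m := by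
    intro m
    induction m with
    | zero => exact h0
    | succ m ih =>
      have : S (m + 1) - S' (m + 1) = 0 := by
        refine eq_zero_S hq (m := m) ?_ ?_ ?_ ?_ ?_
        · exact (degreeOf_sub_le _ _ _).trans (max_le (h.degS m) (h'.degS m))
        · intro i hi w
          rw [map_sub, map_sub, h.symS m i hi, h'.symS m i hi]
        · intro i hi w
          rw [map_sub, map_sub, mul_sub, mul_sub, h.excS m i hi, h'.excS m i hi]
        · intro v u hv
          rw [map_sub, h.leftS m v u hv, h'.leftS m v u hv, hT m ih, sub_self]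
        · intro v u hv
          rw [map_sub, h.seamS m v u hv, h'.seamS m v u hv, hT m ih, sub_self]
      exact sub_eq_zero.1 this
  exact ⟨hS m, hT m (hS m)⟩

theorem RecO.unique {q : ℂ} (hq : q ^ 2 + q + 1 = 0) {c : ℕ → ℂ} {F G : ℕ → MvPolynomial ℕ ℂ}
    (hF : RecO q c F) (hG : RecO q c G) (h0 : F 0 = G 0) (m : ℕ) : F m = G m := by
  induction m with
  | zero => exact h0
  | succ m ih =>
    have : F (m + 1) - G (m + 1) = 0 := by
      refine eq_zero_O hq (m := m) ?_ ?_ ?_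
      · exact (degreeOf_sub_le _ _ _).trans (max_le (hF.deg m) (hG.deg m))
      · intro i hi w
        rw [map_sub, map_sub, hF.symm m i hi, hG.symm m i hi]
      · intro v u hv
        rw [map_sub, hF.ins m v u hv, hG.ins m v u hv, ih, sub_self]
    exact sub_eq_zero.1 this

end Pool.Agent.Perc

end Partperc3Uni3

section Partperc3Schur3

/-!
# The Schur products of the three leg formula (task Schur3)
-/

set_option autoImplicit false

namespace Pool.Agent.Perc

open Finset MvPolynomial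

/-- Omit the index `j`. -/
def sk (j : ℕ) (k : ℕ) : ℕ := if k < j then k else k + 1

/-- The product for `S m`: the variables are `z_0, …, z_{2m-1}, y_1, y_2, y_3`. -/
noncomputable def PS (q : ℂ) (m : ℕ) : MvPolynomial ℕ ℂ :=
  (X (2 * m) - C (q ^ 2) * X (2 * m + 1)) * (X (2 * m) - C (q ^ 2) * X (2 * m + 2)) *
    (X (2 * m + 1) - C (q ^ 2) * X (2 * m + 2)) * (∏ k ∈ range (2 * m), X k) *
    (schur (2 * m) eS3 * schur (2 * (m + 1)) eS3 *
      rename (sk (2 * m + 1)) (schur (2 * (m + 1)) eS3) *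
      rename (sk (2 * m)) (schur (2 * (m + 1)) eS3))

/-- The product for `T (m + 1)`: the variables are `z_0, …, z_{2m}, x, y_1, y_2`. -/
noncomputable def PT (q : ℂ) : ℕ → MvPolynomial ℕ ℂ
  | 0 => 0
  | m + 1 => (X (2 * m + 2) - C (q ^ 2) * X (2 * m + 3)) * (∏ k ∈ range (2 * m + 1), X k) *
    (schur (2 * (m + 1)) eS3 * rename (sk (2 * m + 1)) (schur (2 * (m + 1)) eS3) *
      rename (sk (2 * m + 1)) (rename (sk (2 * m + 1)) (schur (2 * (m + 1)) eS3)) *
      schur (2 * (m + 1 + 1)) eS3)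

namespace Schur3

open Uni3

/-- The value of the Schur polynomial. -/
noncomputable def sg (m : ℕ) (w : ℕ → ℂ) : ℂ := eval w (schur (2 * m) eS3)

theorem sg_congr {m : ℕ} {w w' : ℕ → ℂ} (h : ∀ k < 2 * m, w k = w' k) : sg m w = sg m w' :=
  QSchur.eval_schur_congr _ _ h

theorem eval_sk (j : ℕ) (w : ℕ → ℂ) (P : MvPolynomial ℕ ℂ) :
    eval w (rename (sk j) P) = eval (skip1 j w) P := by
  rw [eval_rename]
  congr 2
  funext k
  simp only [Function.comp, sk, skip1]
  split_ifs <;> rfl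

theorem eval_PS (q : ℂ) (m : ℕ) (w : ℕ → ℂ) : eval w (PS q m) =
    (w (2 * m) - q ^ 2 * w (2 * m + 1)) * (w (2 * m) - q ^ 2 * w (2 * m + 2)) *
      (w (2 * m + 1) - q ^ 2 * w (2 * m + 2)) * (∏ k ∈ range (2 * m), w k) *
      (sg m w * sg (m + 1) w * sg (m + 1) (skip1 (2 * m + 1) w) *
        sg (m + 1) (skip1 (2 * m) w)) := by
  unfold PS sg
  simp only [map_mul, map_sub, eval_X, eval_C, map_prod, eval_sk]

theorem eval_PT (q : ℂ) (m : ℕ) (w : ℕ → ℂ) : eval w (PT q (m + 1)) =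
    (w (2 * m + 2) - q ^ 2 * w (2 * m + 3)) * (∏ k ∈ range (2 * m + 1), w k) *
      (sg (m + 1) w * sg (m + 1) (skip1 (2 * m + 1) w) *
        sg (m + 1) (skip1 (2 * m + 1) (skip1 (2 * m + 1) w)) * sg (m + 1 + 1) w) := by
  unfold PT sg
  simp only [map_mul, map_sub, eval_X, eval_C, map_prod, eval_sk]

theorem sg_swap (m : ℕ) {i : ℕ} (hi : i + 1 < 2 * m) (w : ℕ → ℂ) : sg m (swapV i w) = sg m w := by
  have h := schur_perm (2 * m) eS3 (Equiv.swap i (i + 1))
    (fun k hk => Equiv.swap_apply_of_ne_of_ne (by omega) (by omega)) w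
  exact h

theorem swapV_ins1 (i : ℕ) (x : ℂ) (u : ℕ → ℂ) : swapV i (ins1 i x u) = ins1 (i + 1) x u := by
  funext k
  unfold swapV
  rcases eq_or_ne k i with rfl | h1
  · rw [Equiv.swap_apply_left]
    unfold ins1
    rw [if_neg (by omega), if_neg (by omega), if_pos (by omega)]
    rfl
  · rcases eq_or_ne k (i + 1) with rfl | h2
    · rw [Equiv.swap_apply_right]
      unfold ins1
      rw [if_neg (by omega), if_pos rfl, if_neg (by omega), if_pos rfl]
    · rw [Equiv.swap_apply_of_ne_of_ne h1 h2]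
      unfold ins1
      by_cases h3 : k < i
      · rw [if_pos h3, if_pos (by omega)]
      · rw [if_neg h3, if_neg h1, if_neg (by omega), if_neg h2]

theorem sg_move (m : ℕ) {i j : ℕ} (hij : i ≤ j) (hj : j < 2 * m) (x : ℂ) (u : ℕ → ℂ) :
    sg m (ins1 i x u) = sg m (ins1 j x u) := by
  induction j, hij using Nat.le_induction with
  | base => rfl
  | succ j hij ih => rw [ih (by omega), ← swapV_ins1 j x u, sg_swap m hj]

theorem sg_insV {q : ℂ} (hq : q ^ 2 + q + 1 = 0) (m : ℕ) {i : ℕ} (hi : i ≤ 2 * m) (v : ℂ)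
    (u : ℕ → ℂ) : sg (m + 1) (insV i (q ^ 2 * v) v u) =
      (∏ k ∈ range (2 * m), (u k - q * v)) * sg m u :=
  QSchur.eS3_restrict hq m hi u v

theorem swapV_insV (i : ℕ) (x y : ℂ) (u : ℕ → ℂ) : swapV i (insV i x y u) = insV i y x u := by
  funext k
  unfold swapV
  rcases eq_or_ne k i with rfl | h1
  · rw [Equiv.swap_apply_left]
    unfold insV
    rw [if_neg (by omega), if_neg (by omega), if_pos rfl, if_neg (by omega), if_pos rfl]
  · rcases eq_or_ne k (i + 1) with rfl | h2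
    · rw [Equiv.swap_apply_right]
      unfold insV
      rw [if_neg (by omega), if_pos rfl, if_neg (by omega), if_neg (by omega), if_pos rfl]
    · rw [Equiv.swap_apply_of_ne_of_ne h1 h2]
      unfold insV
      by_cases h3 : k < i
      · rw [if_pos h3, if_pos h3]
      · rw [if_neg h3, if_neg h1, if_neg h2, if_neg h3, if_neg h1, if_neg h2]

theorem sg_insV' {q : ℂ} (hq : q ^ 2 + q + 1 = 0) (m : ℕ) {i : ℕ} (hi : i ≤ 2 * m) (v : ℂ)
    (u : ℕ → ℂ) : sg (m + 1) (insV i v (q ^ 2 * v) u) =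
      (∏ k ∈ range (2 * m), (u k - q * v)) * sg m u := by
  rw [← sg_insV hq m hi v u, ← swapV_insV i (q ^ 2 * v) v u, sg_swap (m + 1) (by omega)]

theorem q4 {q : ℂ} (hq : q ^ 2 + q + 1 = 0) : q ^ 4 = q := by
  linear_combination (q ^ 2 - q) * hq

theorem prod_insV (n : ℕ) (x y : ℂ) (u : ℕ → ℂ) :
    ∏ k ∈ range (n + 1), insV n x y u k = (∏ k ∈ range n, u k) * x := by
  rw [prod_range_succ]
  congr 1
  · refine prod_congr rfl fun k hk => ?_
    rw [mem_range] at hk
    unfold insV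
    rw [if_pos hk]
  · unfold insV
    rw [if_neg (by omega), if_pos rfl]

theorem prod_ins1 (n : ℕ) (x : ℂ) (u : ℕ → ℂ) :
    ∏ k ∈ range n, ins1 n x u k = ∏ k ∈ range n, u k := by
  refine prod_congr rfl fun k hk => ?_
  rw [mem_range] at hk
  unfold ins1
  rw [if_pos hk]

theorem prod_ins0 (n : ℕ) (x : ℂ) (u : ℕ → ℂ) :
    ∏ k ∈ range (n + 1), ins1 0 x u k = x * ∏ k ∈ range n, u k := by
  rw [prod_range_succ']
  rw [mul_comm]
  congr 1

theorem ins1_at (j : ℕ) (x : ℂ) (u : ℕ → ℂ) : ins1 j x u j = x := by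
  unfold ins1
  rw [if_neg (by omega), if_pos rfl]

theorem ins1_lt {j k : ℕ} (h : k < j) (x : ℂ) (u : ℕ → ℂ) : ins1 j x u k = u k := by
  unfold ins1
  rw [if_pos h]

theorem ins1_gt {j k : ℕ} (h : j ≤ k) (x : ℂ) (u : ℕ → ℂ) : ins1 j x u (k + 1) = u k := by
  unfold ins1
  rw [if_neg (by omega), if_neg (by omega)]
  rfl

theorem skip1_lt {j k : ℕ} (h : k < j) (w : ℕ → ℂ) : skip1 j w k = w k := by
  unfold skip1
  rw [if_pos h]

theorem skip1_ge {j k : ℕ} (h : j ≤ k) (w : ℕ → ℂ) : skip1 j w k = w (k + 1) := by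
  unfold skip1
  rw [if_neg (by omega)]

theorem insV_lt {j k : ℕ} (h : k < j) (x y : ℂ) (u : ℕ → ℂ) : insV j x y u k = u k := by
  unfold insV
  rw [if_pos h]

theorem insV_at (j : ℕ) (x y : ℂ) (u : ℕ → ℂ) : insV j x y u j = x := by
  unfold insV
  rw [if_neg (by omega), if_pos rfl]

theorem insV_at' (j : ℕ) (x y : ℂ) (u : ℕ → ℂ) : insV j x y u (j + 1) = y := by
  unfold insV
  rw [if_neg (by omega), if_neg (by omega), if_pos rfl]

theorem insV_ge {j k : ℕ} (h : j ≤ k) (x y : ℂ) (u : ℕ → ℂ) : insV j x y u (k + 2) = u k := by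
  unfold insV
  rw [if_neg (by omega), if_neg (by omega), if_neg (by omega)]
  rfl

theorem skip_ins1 (j : ℕ) (x : ℂ) (u : ℕ → ℂ) : skip1 j (ins1 j x u) = u := by
  funext k
  simp only [skip1, ins1, insV]
  split_ifs <;> first | rfl | omega | (congr 1 <;> omega)

theorem skip_ins1_lt {i j : ℕ} (h : i ≤ j) (x : ℂ) (u : ℕ → ℂ) :
    skip1 (j + 1) (ins1 i x u) = ins1 i x (skip1 j u) := by
  funext k
  simp only [skip1, ins1, insV]
  split_ifs <;> first | rfl | omega | (congr 1 <;> omega)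

theorem skip_ins1_ge {i j : ℕ} (h : j ≤ i) (x : ℂ) (u : ℕ → ℂ) :
    skip1 j (ins1 (i + 1) x u) = ins1 i x (skip1 j u) := by
  funext k
  simp only [skip1, ins1, insV]
  split_ifs <;> first | rfl | omega | (congr 1 <;> omega)

theorem skip_insV_gt {i j : ℕ} (h : i ≤ j) (x y : ℂ) (u : ℕ → ℂ) :
    skip1 (j + 2) (insV i x y u) = insV i x y (skip1 j u) := by
  funext k
  simp only [skip1, ins1, insV]
  split_ifs <;> first | rfl | omega | (congr 1 <;> omega)

theorem skip_insV_at (i : ℕ) (x y : ℂ) (u : ℕ → ℂ) :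
    skip1 (i + 1) (insV i x y u) = ins1 i x u := by
  funext k
  simp only [skip1, ins1, insV]
  split_ifs <;> first | rfl | omega | (congr 1 <;> omega)

/-- `ins1` twice in neighbouring places. -/
theorem ins1_ins1 (i : ℕ) (x y : ℂ) (u : ℕ → ℂ) :
    ins1 i x (ins1 i y u) = insV i x y u := by
  funext k
  simp only [skip1, ins1, insV]
  split_ifs <;> first | rfl | omega | (congr 1 <;> omega)

theorem ins1_succ_ins1 (i : ℕ) (x y : ℂ) (u : ℕ → ℂ) :
    ins1 (i + 1) x (ins1 i y u) = insV i y x u := by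
  rw [← swapV_ins1, ins1_ins1, swapV_insV]

theorem skip_swap {i j : ℕ} (h : i + 1 < j) (w : ℕ → ℂ) :
    skip1 j (swapV i w) = swapV i (skip1 j w) := by
  funext k
  rcases eq_or_ne k i with rfl | h1
  · rw [swapV_left, skip1_lt (by omega), skip1_lt h, swapV_left]
  · rcases eq_or_ne k (i + 1) with rfl | h2
    · rw [swapV_right, skip1_lt (by omega), skip1_lt (by omega), swapV_right]
    · rw [swapV_ne (skip1 j w) h1 h2]
      by_cases h3 : k < j
      · rw [skip1_lt h3, skip1_lt h3, swapV_ne w h1 h2]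
      · rw [skip1_ge (by omega), skip1_ge (by omega), swapV_ne w (by omega) (by omega)]

theorem skip_swap_ge {i j : ℕ} (h : j ≤ i) (w : ℕ → ℂ) :
    skip1 j (swapV (i + 1) w) = swapV i (skip1 j w) := by
  funext k
  unfold skip1
  rcases eq_or_ne k i with rfl | h1
  · rw [if_neg (by omega), swapV_left, swapV_left, if_neg (by omega)]
  · rcases eq_or_ne k (i + 1) with rfl | h2
    · rw [if_neg (by omega), swapV_right, swapV_right, if_neg (by omega)]
    · rw [swapV_ne _ h1 h2]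
      by_cases h3 : k < j
      · rw [if_pos h3, swapV_ne _ (by omega) (by omega)]
        exact (if_pos h3).symm
      · rw [if_neg h3, swapV_ne _ (by omega) (by omega)]
        exact (if_neg h3).symm

theorem skip_swap_at (i : ℕ) (w : ℕ → ℂ) : skip1 i (swapV i w) = skip1 (i + 1) w := by
  funext k
  unfold skip1
  rcases lt_trichotomy k i with h | h | h
  · rw [if_pos h, if_pos (by omega), swapV_ne _ (by omega) (by omega)]
  · subst h
    rw [if_neg (by omega), if_pos (by omega), swapV_right]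
  · rw [if_neg (by omega), if_neg (by omega), swapV_ne _ (by omega) (by omega)]

theorem skip_swap_at' (i : ℕ) (w : ℕ → ℂ) : skip1 (i + 1) (swapV i w) = skip1 i w := by
  funext k
  unfold skip1
  rcases lt_trichotomy k i with h | h | h
  · rw [if_pos (by omega), if_pos h, swapV_ne _ (by omega) (by omega)]
  · subst h
    rw [if_pos (by omega), if_neg (by omega), swapV_left]
  · rw [if_neg (by omega), if_neg (by omega), swapV_ne _ (by omega) (by omega)]

theorem prod_swapV {n i : ℕ} (hi : i + 1 < n) (w : ℕ → ℂ) :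
    ∏ k ∈ range n, swapV i w k = ∏ k ∈ range n, w k := by
  unfold swapV
  refine Finset.prod_nbij' (fun k => Equiv.swap i (i + 1) k) (fun k => Equiv.swap i (i + 1) k)
    ?_ ?_ ?_ ?_ ?_
  · intro k hk
    rw [mem_range] at hk ⊢
    rcases eq_or_ne k i with rfl | h1
    · rw [Equiv.swap_apply_left]; exact hi
    · rcases eq_or_ne k (i + 1) with rfl | h2
      · rw [Equiv.swap_apply_right]; omega
      · rw [Equiv.swap_apply_of_ne_of_ne h1 h2]; exact hk
  · intro k hk
    rw [mem_range] at hk ⊢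
    rcases eq_or_ne k i with rfl | h1
    · rw [Equiv.swap_apply_left]; exact hi
    · rcases eq_or_ne k (i + 1) with rfl | h2
      · rw [Equiv.swap_apply_right]; omega
      · rw [Equiv.swap_apply_of_ne_of_ne h1 h2]; exact hk
  · intro k _; simp
  · intro k _; simp
  · intro k _; rfl

theorem prod_swapV_ge {n i : ℕ} (hi : n ≤ i) (w : ℕ → ℂ) :
    ∏ k ∈ range n, swapV i w k = ∏ k ∈ range n, w k := by
  refine prod_congr rfl fun k hk => ?_
  rw [mem_range] at hk
  exact swapV_ne _ (by omega) (by omega)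

theorem prod_skip {n j : ℕ} (hj : j ≤ n) (f : ℂ → ℂ) (u : ℕ → ℂ) :
    ∏ k ∈ range n, f (skip1 j u k) = (∏ k ∈ range j, f (u k)) *
      ∏ k ∈ range (n - j), f (u (j + k + 1)) := by
  obtain ⟨t, rfl⟩ := Nat.exists_eq_add_of_le hj
  rw [prod_range_add, Nat.add_sub_cancel_left]
  congr 1
  · refine prod_congr rfl fun k hk => ?_
    rw [skip1_lt (mem_range.1 hk)]
  · refine prod_congr rfl fun k _ => ?_
    rw [skip1_ge (by omega)]

/-! ### The degrees -/

theorem degreeOf_sg_le (m k : ℕ) : (schur (2 * (m + 1)) eS3).degreeOf k ≤ m := by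
  refine degreeOf_schur_le _ _ (d := m) (fun j hj => ?_) k
  unfold eS3
  omega

theorem degreeOf_rename_sk (j k : ℕ) (h : k ≠ j) (P : MvPolynomial ℕ ℂ) :
    ∃ k', (rename (sk j) P).degreeOf k = P.degreeOf k' := by
  have hinj : Function.Injective (sk j) := by
    intro a b hab
    unfold sk at hab
    split_ifs at hab <;> omega
  rcases lt_or_gt_of_ne h with h1 | h1
  · refine ⟨k, ?_⟩
    have e : sk j k = k := by
      unfold sk
      rw [if_pos h1]
    conv_lhs => rw [← e]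
    exact degreeOf_rename_of_injective hinj k
  · refine ⟨k - 1, ?_⟩
    have e : sk j (k - 1) = k := by
      unfold sk
      rw [if_neg (by omega)]
      omega
    conv_lhs => rw [← e]
    exact degreeOf_rename_of_injective hinj (k - 1)

theorem degreeOf_rename_self (j : ℕ) (P : MvPolynomial ℕ ℂ) :
    (rename (sk j) P).degreeOf j = 0 := by
  classical
  rw [← Nat.le_zero]
  refine degreeOf_le_iff.2 fun d hd => ?_
  obtain ⟨e, rfl, -⟩ := coeff_rename_ne_zero _ _ _ (mem_support_iff.1 hd)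
  rw [Finsupp.mapDomain_notin_range _ _ ?_]
  rintro ⟨k, hk⟩
  unfold sk at hk
  split_ifs at hk <;> omega

theorem degreeOf_lin_le (a b k : ℕ) (c : ℂ) :
    (X a - C c * X b : MvPolynomial ℕ ℂ).degreeOf k ≤ max (if k = a then 1 else 0)
      (if k = b then 1 else 0) := by
  refine (degreeOf_sub_le _ _ _).trans (max_le_max ?_ ?_)
  · rw [degreeOf_X]
  · refine (degreeOf_C_mul_le _ _ _).trans ?_
    rw [degreeOf_X]

theorem degreeOf_prodX (n k : ℕ) (hk : n ≤ k) :
    (∏ j ∈ range n, (X j : MvPolynomial ℕ ℂ)).degreeOf k = 0 := by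
  rw [← Nat.le_zero]
  refine (degreeOf_prod_le _ _ _).trans ?_
  rw [Nat.le_zero, Finset.sum_eq_zero_iff]
  intro j hj
  rw [mem_range] at hj
  rw [degreeOf_X, if_neg (by omega)]

/-! ### The relations -/

variable {q : ℂ}

theorem leftS_aux (hq : q ^ 2 + q + 1 = 0) (m : ℕ) (v : ℂ) (u : ℕ → ℂ) :
    eval (insV (2 * m + 1) (q ^ 2 * v) v u) (PS q (m + 1)) =
      v * (∏ j ∈ range (2 * m + 3), (u j - q * v) ^ 2) *
        eval (ins1 (2 * m + 1) (q ^ 2 * v) u) (PT q (m + 1)) := by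
  rw [eval_PS, eval_PT]
  have e1 : insV (2 * m + 1) (q ^ 2 * v) v u (2 * (m + 1)) = v := insV_at' (2 * m + 1) _ _ _
  have e2 : insV (2 * m + 1) (q ^ 2 * v) v u (2 * (m + 1) + 1) = u (2 * m + 1) :=
    insV_ge (j := 2 * m + 1) (k := 2 * m + 1) le_rfl _ _ _
  have e3 : insV (2 * m + 1) (q ^ 2 * v) v u (2 * (m + 1) + 2) = u (2 * m + 2) :=
    insV_ge (j := 2 * m + 1) (k := 2 * m + 2) (by omega) _ _ _
  have e4 : ∏ k ∈ range (2 * (m + 1)), insV (2 * m + 1) (q ^ 2 * v) v u k =
      (∏ k ∈ range (2 * m + 1), u k) * (q ^ 2 * v) := prod_insV (2 * m + 1) _ _ _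
  have f2 : ins1 (2 * m + 1) (q ^ 2 * v) u (2 * m + 2) = u (2 * m + 1) := ins1_gt le_rfl _ _
  have f3 : ins1 (2 * m + 1) (q ^ 2 * v) u (2 * m + 3) = u (2 * m + 2) := ins1_gt (by omega) _ _
  have f4 := prod_ins1 (2 * m + 1) (q ^ 2 * v) u
  have s1 : sg (m + 1) (insV (2 * m + 1) (q ^ 2 * v) v u) =
      sg (m + 1) (ins1 (2 * m + 1) (q ^ 2 * v) u) := by
    refine sg_congr fun k hk => ?_
    rcases lt_or_ge k (2 * m + 1) with h | h
    · rw [insV_lt h, ins1_lt h]
    · have : k = 2 * m + 1 := by omega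
      rw [this, insV_at, ins1_at]
  have s2 : sg (m + 1 + 1) (insV (2 * m + 1) (q ^ 2 * v) v u) =
      (∏ k ∈ range (2 * m + 2), (u k - q * v)) * sg (m + 1) u :=
    sg_insV hq (m + 1) (by omega) v u
  have s3 : sg (m + 1 + 1) (skip1 (2 * (m + 1) + 1) (insV (2 * m + 1) (q ^ 2 * v) v u)) =
      (∏ k ∈ range (2 * m + 2), (skip1 (2 * m + 1) u k - q * v)) *
        sg (m + 1) (skip1 (2 * m + 1) u) := by
    rw [show 2 * (m + 1) + 1 = 2 * m + 1 + 2 by ring, skip_insV_gt le_rfl]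
    exact sg_insV hq (m + 1) (by omega) v _
  have s4 : sg (m + 1 + 1) (skip1 (2 * (m + 1)) (insV (2 * m + 1) (q ^ 2 * v) v u)) =
      sg (m + 1 + 1) (ins1 (2 * m + 1) (q ^ 2 * v) u) := by
    rw [show 2 * (m + 1) = 2 * m + 1 + 1 by ring, skip_insV_at]
  have t2 : skip1 (2 * m + 1) (ins1 (2 * m + 1) (q ^ 2 * v) u) = u := skip_ins1 _ _ _
  rw [e1, e2, e3, e4, f2, f3, f4, s1, s2, s3, s4, t2]
  have p1 : ∏ k ∈ range (2 * m + 2), (u k - q * v) =
      (∏ k ∈ range (2 * m + 1), (u k - q * v)) * (u (2 * m + 1) - q * v) := prod_range_succ _ _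
  have p2 : ∏ k ∈ range (2 * m + 2), (skip1 (2 * m + 1) u k - q * v) =
      (∏ k ∈ range (2 * m + 1), (u k - q * v)) * (u (2 * m + 2) - q * v) := by
    rw [prod_range_succ, skip1_ge le_rfl]
    congr 1
    refine prod_congr rfl fun k hk => ?_
    rw [skip1_lt (mem_range.1 hk)]
  have p3 : ∏ j ∈ range (2 * m + 3), (u j - q * v) ^ 2 =
      (∏ k ∈ range (2 * m + 1), (u k - q * v)) ^ 2 * (u (2 * m + 1) - q * v) ^ 2 *
        (u (2 * m + 2) - q * v) ^ 2 := by
    rw [prod_range_succ, prod_range_succ, Finset.prod_pow]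
  rw [p1, p2, p3]
  have c1 : v - q ^ 2 * u (2 * m + 1) = -q ^ 2 * (u (2 * m + 1) - q * v) := by
    linear_combination (-v) * UniF.q_cube hq
  have c2 : v - q ^ 2 * u (2 * m + 2) = -q ^ 2 * (u (2 * m + 2) - q * v) := by
    linear_combination (-v) * UniF.q_cube hq
  rw [c1, c2]
  have h6 : q ^ 6 = 1 := by
    have := UniF.q_cube hq
    calc q ^ 6 = (q ^ 3) ^ 2 := by ring
      _ = 1 := by rw [this]; ring
  generalize (∏ k ∈ range (2 * m + 1), (u k - q * v)) = A
  generalize (∏ k ∈ range (2 * m + 1), u k) = B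
  generalize sg (m + 1) (ins1 (2 * m + 1) (q ^ 2 * v) u) = s
  generalize sg (m + 1) u = s'
  generalize sg (m + 1) (skip1 (2 * m + 1) u) = s''
  generalize sg (m + 1 + 1) (ins1 (2 * m + 1) (q ^ 2 * v) u) = t
  generalize u (2 * m + 1) = a
  generalize u (2 * m + 2) = b
  linear_combination (v * (a - q * v) ^ 2 * (b - q * v) ^ 2 * (a - q ^ 2 * b) * A ^ 2 * B * s * s' *
    s'' * t) * h6

theorem seamS_aux (hq : q ^ 2 + q + 1 = 0) (m : ℕ) (v : ℂ) (u : ℕ → ℂ) :
    eval (ins1 0 v (ins1 (2 * m + 3) (q ^ 2 * v) u)) (PS q (m + 1)) =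
      v * (∏ j ∈ range (2 * m + 3), (u j - q * v) ^ 2) *
        eval (ins1 (2 * m + 1) v u) (PT q (m + 1)) := by
  rw [eval_PS, eval_PT]
  have e1 : ins1 0 v (ins1 (2 * m + 3) (q ^ 2 * v) u) (2 * (m + 1)) = u (2 * m + 1) := by
    rw [show 2 * (m + 1) = 2 * m + 1 + 1 by ring, ins1_gt (by omega), ins1_lt (by omega)]
  have e2 : ins1 0 v (ins1 (2 * m + 3) (q ^ 2 * v) u) (2 * (m + 1) + 1) = u (2 * m + 2) := by
    rw [show 2 * (m + 1) + 1 = 2 * m + 2 + 1 by ring, ins1_gt (by omega), ins1_lt (by omega)]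
  have e3 : ins1 0 v (ins1 (2 * m + 3) (q ^ 2 * v) u) (2 * (m + 1) + 2) = q ^ 2 * v := by
    rw [show 2 * (m + 1) + 2 = 2 * m + 3 + 1 by ring, ins1_gt (by omega), ins1_at]
  have e4 : ∏ k ∈ range (2 * (m + 1)), ins1 0 v (ins1 (2 * m + 3) (q ^ 2 * v) u) k =
      v * ∏ k ∈ range (2 * m + 1), u k := by
    rw [show 2 * (m + 1) = 2 * m + 1 + 1 by ring, prod_ins0]
    congr 1
    refine prod_congr rfl fun k hk => ?_
    rw [ins1_lt (by rw [mem_range] at hk; omega)]
  have f2 : ins1 (2 * m + 1) v u (2 * m + 2) = u (2 * m + 1) := ins1_gt le_rfl _ _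
  have f3 : ins1 (2 * m + 1) v u (2 * m + 3) = u (2 * m + 2) := ins1_gt (by omega) _ _
  have f4 := prod_ins1 (2 * m + 1) v u
  have s1 : sg (m + 1) (ins1 0 v (ins1 (2 * m + 3) (q ^ 2 * v) u)) =
      sg (m + 1) (ins1 (2 * m + 1) v u) := by
    rw [← sg_move (m + 1) (i := 0) (j := 2 * m + 1) (by omega) (by omega)]
    refine sg_congr fun k hk => ?_
    rcases Nat.eq_zero_or_pos k with h | h
    · rw [h, ins1_at, ins1_at]
    · obtain ⟨j, rfl⟩ : ∃ j, k = j + 1 := ⟨k - 1, by omega⟩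
      rw [ins1_gt (by omega), ins1_gt (by omega), ins1_lt (by omega)]
  have s2 : sg (m + 1 + 1) (ins1 0 v (ins1 (2 * m + 3) (q ^ 2 * v) u)) =
      sg (m + 1 + 1) (ins1 (2 * m + 1) v u) := by
    rw [← sg_move (m + 1 + 1) (i := 0) (j := 2 * m + 1) (by omega) (by omega)]
    refine sg_congr fun k hk => ?_
    rcases Nat.eq_zero_or_pos k with h | h
    · rw [h, ins1_at, ins1_at]
    · obtain ⟨j, rfl⟩ : ∃ j, k = j + 1 := ⟨k - 1, by omega⟩
      rw [ins1_gt (by omega), ins1_gt (by omega), ins1_lt (by omega)]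
  have s3 : sg (m + 1 + 1) (skip1 (2 * (m + 1) + 1) (ins1 0 v (ins1 (2 * m + 3) (q ^ 2 * v) u))) =
      (∏ k ∈ range (2 * m + 2), (u k - q * v)) * sg (m + 1) u := by
    rw [skip_ins1_lt (by omega)]
    have e : sg (m + 1 + 1) (ins1 0 v (skip1 (2 * (m + 1)) (ins1 (2 * m + 3) (q ^ 2 * v) u))) =
        sg (m + 1 + 1) (ins1 0 v (ins1 (2 * m + 2) (q ^ 2 * v) (skip1 (2 * m + 2) u))) := by
      rw [show 2 * (m + 1) = 2 * m + 2 by ring, skip_ins1_ge le_rfl]
    rw [e, sg_move (m + 1 + 1) (i := 0) (j := 2 * m + 3) (by omega) (by omega), ins1_succ_ins1,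
      sg_insV hq (m + 1) (by omega)]
    congr 1
    · refine prod_congr rfl fun k hk => ?_
      rw [skip1_lt (by rw [mem_range] at hk; omega)]
    · refine sg_congr fun k hk => ?_
      rw [skip1_lt (by omega)]
  have s4 : sg (m + 1 + 1) (skip1 (2 * (m + 1)) (ins1 0 v (ins1 (2 * m + 3) (q ^ 2 * v) u))) =
      (∏ k ∈ range (2 * m + 2), (skip1 (2 * m + 1) u k - q * v)) *
        sg (m + 1) (skip1 (2 * m + 1) u) := by
    rw [show 2 * (m + 1) = 2 * m + 1 + 1 by ring, skip_ins1_lt (by omega), skip_ins1_ge (by omega),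
      sg_move (m + 1 + 1) (i := 0) (j := 2 * m + 3) (by omega) (by omega), ins1_succ_ins1,
      sg_insV hq (m + 1) (by omega)]
    rfl
  have t2 : skip1 (2 * m + 1) (ins1 (2 * m + 1) v u) = u := skip_ins1 _ _ _
  rw [e1, e2, e3, e4, f2, f3, f4, s1, s2, s3, s4, t2]
  have p1 : ∏ k ∈ range (2 * m + 2), (u k - q * v) =
      (∏ k ∈ range (2 * m + 1), (u k - q * v)) * (u (2 * m + 1) - q * v) := prod_range_succ _ _
  have p2 : ∏ k ∈ range (2 * m + 2), (skip1 (2 * m + 1) u k - q * v) =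
      (∏ k ∈ range (2 * m + 1), (u k - q * v)) * (u (2 * m + 2) - q * v) := by
    rw [prod_range_succ, skip1_ge le_rfl]
    congr 1
    refine prod_congr rfl fun k hk => ?_
    rw [skip1_lt (mem_range.1 hk)]
  have p3 : ∏ j ∈ range (2 * m + 3), (u j - q * v) ^ 2 =
      (∏ k ∈ range (2 * m + 1), (u k - q * v)) ^ 2 * (u (2 * m + 1) - q * v) ^ 2 *
        (u (2 * m + 2) - q * v) ^ 2 := by
    rw [prod_range_succ, prod_range_succ, Finset.prod_pow]
  have c1 : q ^ 2 * (q ^ 2 * v) = q * v := by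
    linear_combination (q * v) * UniF.q_cube hq
  rw [p1, p2, p3, c1]
  ring

theorem leftT_aux (hq : q ^ 2 + q + 1 = 0) (m : ℕ) (v : ℂ) (u : ℕ → ℂ) :
    eval (insV (2 * m) v (q ^ 2 * v) u) (PT q (m + 1)) =
      q ^ 2 * v * (∏ j ∈ range (2 * m), (u j - q * v) ^ 2) *
        eval (ins1 (2 * m) v u) (PS q m) := by
  rw [eval_PS, eval_PT]
  have e1 : insV (2 * m) v (q ^ 2 * v) u (2 * m + 2) = u (2 * m) := insV_ge le_rfl _ _ _
  have e2 : insV (2 * m) v (q ^ 2 * v) u (2 * m + 3) = u (2 * m + 1) :=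
    insV_ge (k := 2 * m + 1) (by omega) _ _ _
  have e4 : ∏ k ∈ range (2 * m + 1), insV (2 * m) v (q ^ 2 * v) u k =
      (∏ k ∈ range (2 * m), u k) * v := prod_insV (2 * m) _ _ _
  have f1 : ins1 (2 * m) v u (2 * m) = v := ins1_at _ _ _
  have f2 : ins1 (2 * m) v u (2 * m + 1) = u (2 * m) := ins1_gt le_rfl _ _
  have f3 : ins1 (2 * m) v u (2 * m + 2) = u (2 * m + 1) := ins1_gt (by omega) _ _
  have f4 := prod_ins1 (2 * m) v u
  have s1 : sg (m + 1) (insV (2 * m) v (q ^ 2 * v) u) =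
      (∏ k ∈ range (2 * m), (u k - q * v)) * sg m u := sg_insV' hq m le_rfl v u
  have s2 : skip1 (2 * m + 1) (insV (2 * m) v (q ^ 2 * v) u) = ins1 (2 * m) v u :=
    skip_insV_at _ _ _ _
  have s3 : skip1 (2 * m + 1) (ins1 (2 * m) v u) = ins1 (2 * m) v (skip1 (2 * m) u) :=
    skip_ins1_lt le_rfl _ _
  have s4 : sg (m + 1 + 1) (insV (2 * m) v (q ^ 2 * v) u) =
      (∏ k ∈ range (2 * m + 2), (u k - q * v)) * sg (m + 1) u :=
    sg_insV' hq (m + 1) (by omega) v u
  have t1 : sg m (ins1 (2 * m) v u) = sg m u := by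
    refine sg_congr fun k hk => ?_
    rw [ins1_lt hk]
  have t2 : skip1 (2 * m) (ins1 (2 * m) v u) = u := skip_ins1 _ _ _
  rw [e1, e2, e4, f1, f2, f3, f4, s1, s2, s3, s4, t1, t2]
  have p1 : ∏ k ∈ range (2 * m + 2), (u k - q * v) =
      (∏ k ∈ range (2 * m), (u k - q * v)) * (u (2 * m) - q * v) * (u (2 * m + 1) - q * v) := by
    rw [prod_range_succ, prod_range_succ]
  rw [p1, Finset.prod_pow]
  have c1 : v - q ^ 2 * u (2 * m) = -q ^ 2 * (u (2 * m) - q * v) := by
    linear_combination (-v) * UniF.q_cube hq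
  have c2 : v - q ^ 2 * u (2 * m + 1) = -q ^ 2 * (u (2 * m + 1) - q * v) := by
    linear_combination (-v) * UniF.q_cube hq
  rw [c1, c2]
  have h6 : q ^ 6 = 1 := by
    have := UniF.q_cube hq
    calc q ^ 6 = (q ^ 3) ^ 2 := by ring
      _ = 1 := by rw [this]; ring
  generalize (∏ k ∈ range (2 * m), (u k - q * v)) = A
  generalize (∏ k ∈ range (2 * m), u k) = B
  generalize sg (m + 1) (ins1 (2 * m) v (skip1 (2 * m) u)) = s
  generalize sg (m + 1) (ins1 (2 * m) v u) = s0
  generalize sg (m + 1) u = s'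
  generalize sg m u = s''
  generalize u (2 * m) = a
  generalize u (2 * m + 1) = b
  linear_combination (-(v * (a - q * v) * (b - q * v) * (a - q ^ 2 * b) * A ^ 2 * B * s * s' *
    s'' * s0)) * h6

theorem seamT_aux (hq : q ^ 2 + q + 1 = 0) (m : ℕ) (v : ℂ) (u : ℕ → ℂ) :
    eval (ins1 0 (q ^ 2 * v) (ins1 (2 * m) v u)) (PT q (m + 1)) =
      q ^ 2 * v * (∏ j ∈ range (2 * m), (u j - q * v) ^ 2) *
        eval (ins1 (2 * m + 2) (q ^ 2 * v) u) (PS q m) := by
  rw [eval_PS, eval_PT]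
  have e1 : ins1 0 (q ^ 2 * v) (ins1 (2 * m) v u) (2 * m + 2) = u (2 * m) := by
    rw [ins1_gt (j := 0) (k := 2 * m + 1) (by omega), ins1_gt le_rfl]
  have e2 : ins1 0 (q ^ 2 * v) (ins1 (2 * m) v u) (2 * m + 3) = u (2 * m + 1) := by
    rw [ins1_gt (j := 0) (k := 2 * m + 2) (by omega), ins1_gt (j := 2 * m) (k := 2 * m + 1) (by omega)]
  have e4 : ∏ k ∈ range (2 * m + 1), ins1 0 (q ^ 2 * v) (ins1 (2 * m) v u) k =
      (q ^ 2 * v) * ∏ k ∈ range (2 * m), u k := by
    rw [prod_ins0, prod_ins1]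
  have f1 : ins1 (2 * m + 2) (q ^ 2 * v) u (2 * m) = u (2 * m) := ins1_lt (by omega) _ _
  have f2 : ins1 (2 * m + 2) (q ^ 2 * v) u (2 * m + 1) = u (2 * m + 1) := ins1_lt (by omega) _ _
  have f3 : ins1 (2 * m + 2) (q ^ 2 * v) u (2 * m + 2) = q ^ 2 * v := ins1_at _ _ _
  have f4 : ∏ k ∈ range (2 * m), ins1 (2 * m + 2) (q ^ 2 * v) u k = ∏ k ∈ range (2 * m), u k := by
    refine prod_congr rfl fun k hk => ?_
    rw [ins1_lt (by rw [mem_range] at hk; omega)]
  have s1 : sg (m + 1) (ins1 0 (q ^ 2 * v) (ins1 (2 * m) v u)) =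
      (∏ k ∈ range (2 * m), (u k - q * v)) * sg m u := by
    rw [sg_move (m + 1) (i := 0) (j := 2 * m) (by omega) (by omega), ins1_ins1,
      sg_insV hq m le_rfl v u]
  have s2 : sg (m + 1) (skip1 (2 * m + 1) (ins1 0 (q ^ 2 * v) (ins1 (2 * m) v u))) =
      sg (m + 1) (ins1 0 (q ^ 2 * v) u) := by
    rw [skip_ins1_lt (by omega), skip_ins1]
  have s3 : sg (m + 1) (skip1 (2 * m + 1) (skip1 (2 * m + 1)
      (ins1 0 (q ^ 2 * v) (ins1 (2 * m) v u)))) =
      sg (m + 1) (ins1 0 (q ^ 2 * v) (skip1 (2 * m) u)) := by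
    rw [skip_ins1_lt (by omega), skip_ins1, skip_ins1_lt (by omega)]
  have s4 : sg (m + 1 + 1) (ins1 0 (q ^ 2 * v) (ins1 (2 * m) v u)) =
      (∏ k ∈ range (2 * m + 2), (u k - q * v)) * sg (m + 1) u := by
    rw [sg_move (m + 1 + 1) (i := 0) (j := 2 * m) (by omega) (by omega), ins1_ins1,
      sg_insV hq (m + 1) (by omega) v u]
    rfl
  have t1 : sg m (ins1 (2 * m + 2) (q ^ 2 * v) u) = sg m u := by
    refine sg_congr fun k hk => ?_
    rw [ins1_lt (by omega)]
  have t2 : sg (m + 1) (ins1 (2 * m + 2) (q ^ 2 * v) u) = sg (m + 1) u := by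
    refine sg_congr fun k hk => ?_
    rw [ins1_lt (by omega)]
  have t3 : sg (m + 1) (skip1 (2 * m + 1) (ins1 (2 * m + 2) (q ^ 2 * v) u)) =
      sg (m + 1) (ins1 0 (q ^ 2 * v) u) := by
    rw [skip_ins1_ge le_rfl, sg_move (m + 1) (i := 0) (j := 2 * m + 1) (by omega) (by omega)]
    refine sg_congr fun k hk => ?_
    rcases lt_or_ge k (2 * m + 1) with h | h
    · rw [ins1_lt h, ins1_lt h, skip1_lt h]
    · have : k = 2 * m + 1 := by omega
      rw [this, ins1_at, ins1_at]
  have t4 : sg (m + 1) (skip1 (2 * m) (ins1 (2 * m + 2) (q ^ 2 * v) u)) =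
      sg (m + 1) (ins1 0 (q ^ 2 * v) (skip1 (2 * m) u)) := by
    rw [skip_ins1_ge (by omega), sg_move (m + 1) (i := 0) (j := 2 * m + 1) (by omega) (by omega)]
  rw [e1, e2, e4, f1, f2, f3, f4, s1, s2, s3, s4, t1, t2, t3, t4]
  have p1 : ∏ k ∈ range (2 * m + 2), (u k - q * v) =
      (∏ k ∈ range (2 * m), (u k - q * v)) * (u (2 * m) - q * v) * (u (2 * m + 1) - q * v) := by
    rw [prod_range_succ, prod_range_succ]
  have c1 : q ^ 2 * (q ^ 2 * v) = q * v := by
    linear_combination (q * v) * UniF.q_cube hq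
  rw [p1, Finset.prod_pow, c1]
  ring

end Schur3

end Pool.Agent.Perc

end Partperc3Schur3

section Partperc3Schur3B

/-!
# The Schur products satisfy the relations (task Schur3)
-/

set_option autoImplicit false

namespace Pool.Agent.Perc

open Finset MvPolynomial

namespace Schur3

open Uni3

variable {q : ℂ}

theorem symS_aux (m : ℕ) {i : ℕ} (hi : i + 1 < 2 * m) (w : ℕ → ℂ) :
    eval (swapV i w) (PS q m) = eval w (PS q m) := by
  rw [eval_PS, eval_PS, swapV_ne w (by omega) (by omega), swapV_ne w (by omega) (by omega),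
    swapV_ne w (by omega) (by omega), prod_swapV hi, sg_swap m hi, sg_swap (m + 1) (by omega),
    skip_swap (by omega), skip_swap hi, sg_swap (m + 1) (by omega), sg_swap (m + 1) (by omega)]

theorem symT_aux (m : ℕ) {i : ℕ} (hi : i + 1 < 2 * m + 1) (w : ℕ → ℂ) :
    eval (swapV i w) (PT q (m + 1)) = eval w (PT q (m + 1)) := by
  rw [eval_PT, eval_PT, swapV_ne w (by omega) (by omega), swapV_ne w (by omega) (by omega),
    prod_swapV hi, sg_swap (m + 1) (by omega), skip_swap hi, skip_swap hi,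
    sg_swap (m + 1) (by omega), sg_swap (m + 1) (by omega), sg_swap (m + 1 + 1) (by omega)]

theorem excS_aux (hq : q ^ 2 + q + 1 = 0) (m : ℕ) {i : ℕ} (hi : i = 2 * m ∨ i = 2 * m + 1)
    (w : ℕ → ℂ) : (q * w (i + 1) - q ^ 2 * w i) * eval (swapV i w) (PS q m) =
      (q * w i - q ^ 2 * w (i + 1)) * eval w (PS q m) := by
  have h3 := UniF.q_cube hq
  rw [eval_PS, eval_PS]
  rcases hi with rfl | rfl
  · have s0 : sg m (swapV (2 * m) w) = sg m w := by
      refine sg_congr fun k hk => ?_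
      rw [swapV_ne w (by omega) (by omega)]
    rw [swapV_left, swapV_right, swapV_ne w (by omega) (by omega), prod_swapV_ge le_rfl, s0,
      sg_swap (m + 1) (by omega), skip_swap_at, skip_swap_at']
    generalize sg m w = a
    generalize sg (m + 1) w = b
    generalize sg (m + 1) (skip1 (2 * m) w) = c
    generalize sg (m + 1) (skip1 (2 * m + 1) w) = d
    generalize (∏ k ∈ range (2 * m), w k) = e
    generalize w (2 * m) = x
    generalize w (2 * m + 1) = y
    generalize w (2 * m + 2) = z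
    linear_combination (e * (a * b * c * d) * (y - q ^ 2 * z) * (x - q ^ 2 * z) *
      (x ^ 2 - y ^ 2) * q) * h3
  · have s0 : sg m (swapV (2 * m + 1) w) = sg m w := by
      refine sg_congr fun k hk => ?_
      rw [swapV_ne w (by omega) (by omega)]
    have s1 : sg (m + 1) (swapV (2 * m + 1) w) = sg (m + 1) (skip1 (2 * m + 1) w) := by
      refine sg_congr fun k hk => ?_
      rcases lt_or_ge k (2 * m + 1) with h | h
      · rw [swapV_ne w (by omega) (by omega), skip1_lt h]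
      · have : k = 2 * m + 1 := by omega
        rw [this, swapV_left, skip1_ge le_rfl]
    have s2 : sg (m + 1) (skip1 (2 * m + 1) w) = sg (m + 1) (skip1 (2 * m + 1) w) := rfl
    have s3 : sg (m + 1) (skip1 (2 * m + 1 + 1) w) = sg (m + 1) w := by
      refine sg_congr fun k hk => ?_
      rw [skip1_lt (by omega)]
    have s4 : sg (m + 1) (skip1 (2 * m) (swapV (2 * m + 1) w)) =
        sg (m + 1) (skip1 (2 * m) w) := by
      rw [skip_swap_ge le_rfl, sg_swap (m + 1) (by omega)]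
    rw [swapV_ne w (by omega) (by omega), swapV_left, swapV_right, prod_swapV_ge (by omega), s0,
      s1, skip_swap_at, s3, s4]
    generalize sg m w = a
    generalize sg (m + 1) w = b
    generalize sg (m + 1) (skip1 (2 * m) w) = c
    generalize sg (m + 1) (skip1 (2 * m + 1) w) = d
    generalize (∏ k ∈ range (2 * m), w k) = e
    generalize w (2 * m) = x
    rw [show 2 * m + 1 + 1 = 2 * m + 2 by ring]
    generalize w (2 * m + 1) = y
    generalize w (2 * m + 2) = z
    linear_combination (e * (a * b * c * d) * (x - q ^ 2 * z) * (x - q ^ 2 * y) *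
      (y ^ 2 - z ^ 2) * q) * h3

theorem degS_aux (m : ℕ) : (PS q m).degreeOf (2 * m) ≤ 2 * m + 2 := by
  unfold PS
  have h1 := degreeOf_lin_le (2 * m) (2 * m + 1) (2 * m) (q ^ 2)
  have h2 := degreeOf_lin_le (2 * m) (2 * m + 2) (2 * m) (q ^ 2)
  have h3 := degreeOf_lin_le (2 * m + 1) (2 * m + 2) (2 * m) (q ^ 2)
  rw [if_pos rfl, if_neg (by omega)] at h1 h2
  rw [if_neg (by omega), if_neg (by omega)] at h3
  have h4 := degreeOf_prodX (2 * m) (2 * m) le_rfl
  have h5 : (schur (2 * m) eS3).degreeOf (2 * m) = 0 := degreeOf_schur_out _ _ le_rfl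
  have h6 := degreeOf_sg_le m (2 * m)
  obtain ⟨k', h7⟩ := degreeOf_rename_sk (2 * m + 1) (2 * m) (by omega) (schur (2 * (m + 1)) eS3)
  have h8 := degreeOf_sg_le m k'
  have h9 := degreeOf_rename_self (2 * m) (schur (2 * (m + 1)) eS3)
  refine (degreeOf_mul_le _ _ _).trans ?_
  have a1 := degreeOf_mul_le (2 * m) ((X (2 * m) - C (q ^ 2) * X (2 * m + 1)) *
    (X (2 * m) - C (q ^ 2) * X (2 * m + 2)) * (X (2 * m + 1) - C (q ^ 2) * X (2 * m + 2)))
    (∏ k ∈ range (2 * m), (X k : MvPolynomial ℕ ℂ))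
  have a2 := degreeOf_mul_le (2 * m) ((X (2 * m) - C (q ^ 2) * X (2 * m + 1)) *
    (X (2 * m) - C (q ^ 2) * X (2 * m + 2))) (X (2 * m + 1) - C (q ^ 2) * X (2 * m + 2))
  have a3 := degreeOf_mul_le (2 * m) (X (2 * m) - C (q ^ 2) * X (2 * m + 1))
    (X (2 * m) - C (q ^ 2) * X (2 * m + 2))
  have b1 := degreeOf_mul_le (2 * m) (schur (2 * m) eS3 * schur (2 * (m + 1)) eS3 *
    rename (sk (2 * m + 1)) (schur (2 * (m + 1)) eS3))
    (rename (sk (2 * m)) (schur (2 * (m + 1)) eS3))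
  have b2 := degreeOf_mul_le (2 * m) (schur (2 * m) eS3 * schur (2 * (m + 1)) eS3)
    (rename (sk (2 * m + 1)) (schur (2 * (m + 1)) eS3))
  have b3 := degreeOf_mul_le (2 * m) (schur (2 * m) eS3) (schur (2 * (m + 1)) eS3)
  omega

theorem degT_aux (m : ℕ) : (PT q (m + 1)).degreeOf (2 * m + 1) ≤ 2 * m + 1 := by
  unfold PT
  have h1 := degreeOf_lin_le (2 * m + 2) (2 * m + 3) (2 * m + 1) (q ^ 2)
  rw [if_neg (by omega), if_neg (by omega)] at h1
  have h4 := degreeOf_prodX (2 * m + 1) (2 * m + 1) le_rfl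
  have h6 := degreeOf_sg_le m (2 * m + 1)
  have h7 := degreeOf_rename_self (2 * m + 1) (schur (2 * (m + 1)) eS3)
  have h8 := degreeOf_rename_self (2 * m + 1)
    (rename (sk (2 * m + 1)) (schur (2 * (m + 1)) eS3))
  have h9 := degreeOf_sg_le (m + 1) (2 * m + 1)
  refine (degreeOf_mul_le _ _ _).trans ?_
  have a1 := degreeOf_mul_le (2 * m + 1) (X (2 * m + 2) - C (q ^ 2) * X (2 * m + 3))
    (∏ k ∈ range (2 * m + 1), (X k : MvPolynomial ℕ ℂ))
  have b1 := degreeOf_mul_le (2 * m + 1) (schur (2 * (m + 1)) eS3 *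
    rename (sk (2 * m + 1)) (schur (2 * (m + 1)) eS3) *
    rename (sk (2 * m + 1)) (rename (sk (2 * m + 1)) (schur (2 * (m + 1)) eS3)))
    (schur (2 * (m + 1 + 1)) eS3)
  have b2 := degreeOf_mul_le (2 * m + 1) (schur (2 * (m + 1)) eS3 *
    rename (sk (2 * m + 1)) (schur (2 * (m + 1)) eS3))
    (rename (sk (2 * m + 1)) (rename (sk (2 * m + 1)) (schur (2 * (m + 1)) eS3)))
  have b3 := degreeOf_mul_le (2 * m + 1) (schur (2 * (m + 1)) eS3)
    (rename (sk (2 * m + 1)) (schur (2 * (m + 1)) eS3))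
  omega

end Schur3

open Schur3

/-- The Schur products satisfy the relations with the constants `1` and `q²`. -/
theorem rec3_PS {q : ℂ} (hq : q ^ 2 + q + 1 = 0) :
    Rec3 q (fun _ => 1) (fun _ => q ^ 2) (PS q) (PT q) where
  degS m := degS_aux (m + 1)
  degT m := degT_aux m
  symS m i hi w := symS_aux (m + 1) (by omega) w
  symT m i hi w := symT_aux m hi w
  excS m i hi w := excS_aux hq (m + 1) (by omega) w
  leftS m v u _ := by
    rw [leftS_aux hq, one_mul]
  seamS m v u _ := by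
    rw [seamS_aux hq, one_mul]
  leftT m v u _ := leftT_aux hq m v u
  seamT m v u _ := seamT_aux hq m v u

/-- Scaling of the two families. -/
theorem Rec3.smul {q : ℂ} {κ κ' : ℕ → ℂ} {S T : ℕ → MvPolynomial ℕ ℂ} (h : Rec3 q κ κ' S T)
    {κ₁ κ₁' a b : ℕ → ℂ} (h1 : ∀ m, a (m + 1) * κ m = κ₁ m * b (m + 1))
    (h2 : ∀ m, b (m + 1) * κ' m = κ₁' m * a m) :
    Rec3 q κ₁ κ₁' (fun m => C (a m) * S m) (fun m => C (b m) * T m) where
  degS m := (degreeOf_C_mul_le _ _ _).trans (h.degS m)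
  degT m := (degreeOf_C_mul_le _ _ _).trans (h.degT m)
  symS m i hi w := by
    simp only [map_mul, eval_C]
    rw [h.symS m i hi]
  symT m i hi w := by
    simp only [map_mul, eval_C]
    rw [h.symT m i hi]
  excS m i hi w := by
    simp only [map_mul, eval_C]
    linear_combination a (m + 1) * h.excS m i hi w
  leftS m v u hv := by
    simp only [map_mul, eval_C]
    rw [h.leftS m v u hv]
    linear_combination (v * (∏ j ∈ range (2 * m + 3), (u j - q * v) ^ 2) *
      eval (ins1 (2 * m + 1) (q ^ 2 * v) u) (T (m + 1))) * h1 m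
  seamS m v u hv := by
    simp only [map_mul, eval_C]
    rw [h.seamS m v u hv]
    linear_combination (v * (∏ j ∈ range (2 * m + 3), (u j - q * v) ^ 2) *
      eval (ins1 (2 * m + 1) v u) (T (m + 1))) * h1 m
  leftT m v u hv := by
    simp only [map_mul, eval_C]
    rw [h.leftT m v u hv]
    linear_combination (v * (∏ j ∈ range (2 * m), (u j - q * v) ^ 2) *
      eval (ins1 (2 * m) v u) (S m)) * h2 m
  seamT m v u hv := by
    simp only [map_mul, eval_C]
    rw [h.seamT m v u hv]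
    linear_combination (v * (∏ j ∈ range (2 * m), (u j - q * v) ^ 2) *
      eval (ins1 (2 * m + 2) (q ^ 2 * v) u) (S m)) * h2 m

/-- The two families are multiples of the Schur products. -/
theorem Rec3.eq_schur {q : ℂ} (hq : q ^ 2 + q + 1 = 0) {κ κ' : ℕ → ℂ}
    {S T : ℕ → MvPolynomial ℕ ℂ} (h : Rec3 q κ κ' S T) {a b : ℕ → ℂ}
    (h0 : S 0 = C (a 0) * PS q 0) (h1 : ∀ m, a (m + 1) = κ m * b (m + 1))
    (h2 : ∀ m, b (m + 1) * q ^ 2 = κ' m * a m) (m : ℕ) :
    S m = C (a m) * PS q m ∧ T (m + 1) = C (b (m + 1)) * PT q (m + 1) :=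
  h.unique hq ((rec3_PS hq).smul (a := a) (b := b) (fun m => by rw [mul_one, h1]) h2) h0 m

theorem Schur3.schur_two : schur (2 * (0 + 1)) eS3 = 1 := by
  have h := vdm_mul_schur (2 * (0 + 1)) eS3
  have h1 : alt (2 * (0 + 1)) eS3 = vdm (2 * (0 + 1)) := by
    rw [← alt_id]
    unfold alt
    congr 1
    ext i j : 2
    simp only [Matrix.of_apply]
    congr 1
    have hj : (j : ℕ) = 0 ∨ (j : ℕ) = 1 := by omega
    rcases hj with hj | hj <;> rw [hj] <;> rfl
  rw [h1] at h
  exact mul_left_cancel₀ (SumA.vdm_ne_zero _) (h.trans (mul_one _).symm)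

/-- The product of the first family at level `0`. -/
theorem PS_zero (q : ℂ) : PS q 0 = (X 0 - C (q ^ 2) * X 1) * (X 0 - C (q ^ 2) * X 2) *
    (X 1 - C (q ^ 2) * X 2) := by
  have h0 : schur (2 * 0) eS3 = 1 := QSchur.schur_zero eS3
  unfold PS
  rw [Schur3.schur_two, h0, map_one, map_one]
  simp

/-- The value at one. -/
theorem eval_one_PT (q : ℂ) (m : ℕ) : eval (fun _ => 1) (PT q (m + 1)) =
    (1 - q ^ 2) * (eval (fun _ => 1) (schur (2 * (m + 1)) eS3) ^ 3 *
      eval (fun _ => 1) (schur (2 * (m + 1 + 1)) eS3)) := by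
  rw [eval_PT]
  have e : skip1 (2 * m + 1) (fun _ => (1 : ℂ)) = fun _ => 1 := by
    funext k
    unfold skip1
    split_ifs <;> rfl
  rw [e, e]
  simp only [prod_const_one, mul_one]
  unfold sg
  ring

end Pool.Agent.Perc

end Partperc3Schur3B

section Partperc3Num3

/-!
# The numbers of the three leg formula

`p3v m = s_{2m}(1)^3 s_{2m+2}(1) / (F_{2m}(1) F_{2m+1}(1)) = (3m+1) / ((2m+1) E1(m)^2)`, where
`F_N` is the product of the two Schur polynomials with exponents `0, 1, 3, 4, …` and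
`0, 2, 3, 5, …` in `N` variables. Result: `m^(-2/3) / 3 ≤ p3v m ≤ m^(-2/3)`.
-/

set_option autoImplicit false

namespace Pool.Agent.Perc

open Finset MvPolynomial

namespace Num3

open SumB QAsym

/-- The three leg probability on the cylinder. -/
noncomputable def p3v (m : ℕ) : ℝ := (3 * (m : ℝ) + 1) / ((2 * m + 1) * E1 m ^ 2)

theorem dd_succ (e : ℕ → ℕ) (N : ℕ) :
    dd e (N + 1) = dd e N * ∏ i ∈ range N, ((e N : ℂ) - e i) := by
  unfold dd
  rw [prod_range_succ]

theorem dd_id_odd (m : ℕ) : dd (fun j => j) (2 * m + 1) = dd (fun j => j) (2 * m) *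
    ((2 * m).factorial : ℂ) := by
  rw [dd_succ]
  congr 1
  have h := reflect (fun x => x) (2 * m)
  rw [h, ← Finset.prod_range_add_one_eq_factorial]
  push_cast
  rfl

theorem dd_eS3_odd (m : ℕ) : dd eS3 (2 * m + 1) = dd eS3 (2 * m) *
    ∏ k ∈ range m, ((3 * ((k : ℂ) + 1)) * (3 * ((k : ℂ) + 1) - 1)) := by
  rw [dd_succ]
  congr 1
  rw [prod_two, ← reflect (fun x => (3 * x) * (3 * x - 1))]
  refine prod_congr rfl fun k _ => ?_
  rw [eS3_even, eS3_even, eS3_odd]
  ring

theorem dd_eP_odd (m : ℕ) : dd eP (2 * m + 1) = dd eP (2 * m) *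
    ∏ k ∈ range m, ((3 * ((k : ℂ) + 1)) * (3 * ((k : ℂ) + 1) - 2)) := by
  rw [dd_succ]
  congr 1
  rw [prod_two, ← reflect (fun x => (3 * x) * (3 * x - 2))]
  refine prod_congr rfl fun k _ => ?_
  rw [eP_even, eP_even, eP_odd]
  ring

theorem prod_odd (m : ℕ) :
    (∏ k ∈ range m, ((3 * ((k : ℂ) + 1)) * (3 * ((k : ℂ) + 1) - 1))) *
      ∏ k ∈ range m, ((3 * ((k : ℂ) + 1)) * (3 * ((k : ℂ) + 1) - 2)) =
      3 ^ m * (m.factorial : ℂ) * ((3 * m).factorial : ℂ) := by
  induction m with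
  | zero => simp
  | succ m ih =>
    rw [prod_range_succ, prod_range_succ]
    have e : ((3 * (m + 1)).factorial : ℂ) =
        (3 * (m : ℂ) + 3) * (3 * m + 2) * (3 * m + 1) * ((3 * m).factorial : ℂ) := by
      rw [show 3 * (m + 1) = 3 * m + 1 + 1 + 1 by ring, Nat.factorial_succ (3 * m + 1 + 1),
        Nat.factorial_succ (3 * m + 1), Nat.factorial_succ (3 * m)]
      push_cast
      ring
    rw [e, Nat.factorial_succ m, pow_succ]
    push_cast
    linear_combination ((3 * ((m : ℂ) + 1)) * (3 * ((m : ℂ) + 1) - 1)) *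
      ((3 * ((m : ℂ) + 1)) * (3 * ((m : ℂ) + 1) - 2)) * ih

/-- The value at `1` for an odd number of variables. -/
theorem eval_one_odd (m : ℕ) :
    eval (fun _ => 1) (schur (2 * m + 1) eS3) * eval (fun _ => 1) (schur (2 * m + 1) eP) =
      ((D1 m ^ 2 * E1 m * (3 ^ m * m.factorial * (3 * m).factorial / (2 * m).factorial ^ 2) : ℝ) : ℂ) := by
  have h1 := value eS3 SumB.strictMono_eS3 (2 * m + 1)
  have h2 := value eP strictMono_eP (2 * m + 1)
  rw [dd_id_odd, dd_eS3_odd, dd_eS3] at h1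
  rw [dd_id_odd, dd_eP_odd, ratio, dd_eS3] at h2
  have h3 := value_ne (2 * m)
  have h4 : ((2 * m).factorial : ℂ) ≠ 0 := Nat.cast_ne_zero.2 (Nat.factorial_ne_zero _)
  have h5 := prod_odd m
  have h6 : ((E1 m : ℝ) : ℂ) = ∏ k ∈ range m, ((3 * k + 2 : ℂ) / (3 * k + 1)) := by
    rw [E1]
    push_cast
    rfl
  rw [← h6] at h2
  push_cast
  have h7 : (eval (fun _ => 1) (schur (2 * m + 1) eS3) *
      eval (fun _ => 1) (schur (2 * m + 1) eP)) * (dd (fun j => j) (2 * m) *
      ((2 * m).factorial : ℂ)) ^ 2 = ((D1 m : ℝ) : ℂ) ^ 2 * ((E1 m : ℝ) : ℂ) *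
      (3 ^ m * (m.factorial : ℂ) * ((3 * m).factorial : ℂ)) * dd (fun j => j) (2 * m) ^ 2 := by
    rw [← h5]
    calc _ = (eval (fun _ => 1) (schur (2 * m + 1) eS3) * (dd (fun j => j) (2 * m) *
          ((2 * m).factorial : ℂ))) * (eval (fun _ => 1) (schur (2 * m + 1) eP) *
          (dd (fun j => j) (2 * m) * ((2 * m).factorial : ℂ))) := by ring
      _ = _ := by rw [h1, h2]; ring
  have h8 : (eval (fun _ => 1) (schur (2 * m + 1) eS3) *
      eval (fun _ => 1) (schur (2 * m + 1) eP)) * ((2 * m).factorial : ℂ) ^ 2 =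
      ((D1 m : ℝ) : ℂ) ^ 2 * ((E1 m : ℝ) : ℂ) *
      (3 ^ m * (m.factorial : ℂ) * ((3 * m).factorial : ℂ)) := by
    apply mul_right_cancel₀ (pow_ne_zero 2 h3)
    linear_combination h7
  rw [← mul_div_assoc, eq_div_iff (pow_ne_zero 2 h4), h8]

theorem E1_pos (m : ℕ) : 0 < E1 m := by
  unfold E1
  exact prod_pos fun k _ => by positivity

theorem D1_pos (m : ℕ) : 0 < D1 m := by
  unfold D1
  exact prod_pos fun k _ => r1_pos k

/-- `p3v` in terms of the Schur values. -/
theorem p3v_eq (m : ℕ) : ((p3v m : ℝ) : ℂ) =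
    eval (fun _ => 1) (schur (2 * m) eS3) ^ 3 * eval (fun _ => 1) (schur (2 * (m + 1)) eS3) /
      ((eval (fun _ => 1) (schur (2 * m) eS3) * eval (fun _ => 1) (schur (2 * m) eP)) *
        (eval (fun _ => 1) (schur (2 * m + 1) eS3) *
          eval (fun _ => 1) (schur (2 * m + 1) eP))) := by
  rw [eval_one_odd, eval_one_schur_eS3, eval_one_schur_eS3, eval_one_schur_eP]
  norm_cast
  have h1 := D1_pos m
  have h2 := E1_pos m
  have h3 : D1 (m + 1) = D1 m * r1 m := by
    unfold D1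
    rw [prod_range_succ]
  rw [h3, r1, p3v]
  have h4 : ((3 * m + 1).factorial : ℝ) = (3 * m + 1) * ((3 * m).factorial : ℝ) := by
    rw [Nat.factorial_succ]
    push_cast
    ring
  have h5 : ((2 * m + 1).factorial : ℝ) = (2 * m + 1) * ((2 * m).factorial : ℝ) := by
    rw [Nat.factorial_succ]
    push_cast
    ring
  rw [h4, h5]
  have h6 : ((3 * m).factorial : ℝ) ≠ 0 := Nat.cast_ne_zero.2 (Nat.factorial_ne_zero _)
  have h7 : ((2 * m).factorial : ℝ) ≠ 0 := Nat.cast_ne_zero.2 (Nat.factorial_ne_zero _)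
  have h8 : (m.factorial : ℝ) ≠ 0 := Nat.cast_ne_zero.2 (Nat.factorial_ne_zero _)
  push_cast
  field_simp

theorem E1_succ (m : ℕ) : E1 (m + 1) = E1 m * ((3 * (m : ℝ) + 2) / (3 * m + 1)) := by
  unfold E1
  rw [prod_range_succ]

theorem E1_lower (m : ℕ) : 3 * (m : ℝ) + 1 ≤ E1 m ^ 3 := by
  induction m with
  | zero => simp [E1]
  | succ m ih =>
    rw [E1_succ, mul_pow, div_pow]
    have h0 : (0 : ℝ) < (3 * (m : ℝ) + 1) ^ 3 := by positivity
    rw [← mul_div_assoc, le_div_iff₀ h0]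
    push_cast
    have hm : (0 : ℝ) ≤ m := Nat.cast_nonneg m
    have h1 : (3 * ((m : ℝ) + 1) + 1) * (3 * m + 1) ^ 3 ≤ (3 * m + 1) * (3 * m + 2) ^ 3 := by
      nlinarith [mul_nonneg hm hm, mul_nonneg (mul_nonneg hm hm) hm]
    refine h1.trans ?_
    exact mul_le_mul_of_nonneg_right ih (by positivity)

theorem E1_upper (m : ℕ) (hm : 1 ≤ m) : E1 m ^ 3 ≤ 8 * (m : ℝ) := by
  induction m, hm using Nat.le_induction with
  | base =>
    simp [E1]
    norm_num
  | succ m hm ih =>
    rw [E1_succ, mul_pow, div_pow]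
    have h0 : (0 : ℝ) < (3 * (m : ℝ) + 1) ^ 3 := by positivity
    rw [← mul_div_assoc, div_le_iff₀ h0]
    push_cast
    have hm : (0 : ℝ) ≤ m := Nat.cast_nonneg m
    have h1 : 8 * (m : ℝ) * (3 * m + 2) ^ 3 ≤ 8 * (m + 1) * (3 * m + 1) ^ 3 := by
      nlinarith [mul_nonneg hm hm, mul_nonneg (mul_nonneg hm hm) hm]
    exact (mul_le_mul_of_nonneg_right ih (by positivity)).trans h1

theorem p3v_pos (m : ℕ) : 0 < p3v m := by
  have := E1_pos m
  unfold p3v
  positivity

/-- The lower bound. -/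
theorem p3v_lower (m : ℕ) (hm : 1 ≤ m) : 1 / (27 * (m : ℝ) ^ 2) ≤ p3v m ^ 3 := by
  have h0 := E1_pos m
  have h1 := E1_upper m hm
  have h2 := E1_lower m
  have hm' : (1 : ℝ) ≤ m := by exact_mod_cast hm
  have h3 : p3v m ^ 3 = (3 * (m : ℝ) + 1) ^ 3 / ((2 * m + 1) ^ 3 * (E1 m ^ 3) ^ 2) := by
    unfold p3v
    rw [div_pow, mul_pow]
    ring
  rw [h3, div_le_div_iff₀ (by positivity) (by positivity), one_mul]
  have h4 : (E1 m ^ 3) ^ 2 ≤ (8 * (m : ℝ)) ^ 2 := pow_le_pow_left₀ (by positivity) h1 2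
  calc (2 * (m : ℝ) + 1) ^ 3 * (E1 m ^ 3) ^ 2 ≤ (2 * (m : ℝ) + 1) ^ 3 * (8 * (m : ℝ)) ^ 2 :=
        mul_le_mul_of_nonneg_left h4 (by positivity)
    _ = (4 * (2 * (m : ℝ) + 1)) ^ 3 * (m : ℝ) ^ 2 := by ring
    _ ≤ (3 * (3 * (m : ℝ) + 1)) ^ 3 * (m : ℝ) ^ 2 := by
        apply mul_le_mul_of_nonneg_right _ (by positivity)
        exact pow_le_pow_left₀ (by positivity) (by linarith) 3
    _ = _ := by ring

/-- The upper bound. -/
theorem p3v_upper (m : ℕ) (hm : 1 ≤ m) : p3v m ^ 3 ≤ 1 / (m : ℝ) ^ 2 := by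
  have h0 := E1_pos m
  have h2 := E1_lower m
  have hm' : (1 : ℝ) ≤ m := by exact_mod_cast hm
  have h3 : p3v m ^ 3 = (3 * (m : ℝ) + 1) ^ 3 / ((2 * m + 1) ^ 3 * (E1 m ^ 3) ^ 2) := by
    unfold p3v
    rw [div_pow, mul_pow]
    ring
  rw [h3, div_le_div_iff₀ (by positivity) (by positivity), one_mul]
  have h4 : (3 * (m : ℝ) + 1) ^ 2 ≤ (E1 m ^ 3) ^ 2 := pow_le_pow_left₀ (by positivity) h2 2
  calc (3 * (m : ℝ) + 1) ^ 3 * (m : ℝ) ^ 2 =
        ((3 * (m : ℝ) + 1) * m ^ 2) * (3 * (m : ℝ) + 1) ^ 2 := by ring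
    _ ≤ (2 * (m : ℝ) + 1) ^ 3 * (3 * (m : ℝ) + 1) ^ 2 := by
        apply mul_le_mul_of_nonneg_right _ (by positivity)
        nlinarith [mul_nonneg (sub_nonneg.2 hm') (sub_nonneg.2 hm')]
    _ ≤ _ := mul_le_mul_of_nonneg_left h4 (by positivity)

theorem p3v_lower_rpow (m : ℕ) (hm : 1 ≤ m) : 1 / 3 * (m : ℝ) ^ (-(2 / 3) : ℝ) ≤ p3v m := by
  have hm' : (0 : ℝ) < m := by exact_mod_cast hm
  refine le_of_pow_le_pow_left₀ (n := 3) (by norm_num) (p3v_pos m).le ?_
  refine le_trans (le_of_eq ?_) (p3v_lower m hm)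
  rw [mul_pow, ← Real.rpow_natCast ((m : ℝ) ^ (-(2 / 3) : ℝ)) 3, ← Real.rpow_mul hm'.le]
  have h3 : (-(2 / 3) : ℝ) * ((3 : ℕ) : ℝ) = -((2 : ℕ) : ℝ) := by norm_num
  rw [h3, Real.rpow_neg hm'.le, Real.rpow_natCast]
  field_simp
  norm_num

theorem p3v_upper_rpow (m : ℕ) (hm : 1 ≤ m) : p3v m ≤ (m : ℝ) ^ (-(2 / 3) : ℝ) := by
  have hm' : (0 : ℝ) < m := by exact_mod_cast hm
  refine le_of_pow_le_pow_left₀ (n := 3) (by norm_num) (by positivity) ?_
  refine (p3v_upper m hm).trans (le_of_eq ?_)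
  rw [← Real.rpow_natCast ((m : ℝ) ^ (-(2 / 3) : ℝ)) 3, ← Real.rpow_mul hm'.le]
  have h3 : (-(2 / 3) : ℝ) * ((3 : ℕ) : ℝ) = -((2 : ℕ) : ℝ) := by norm_num
  rw [h3, Real.rpow_neg hm'.le, Real.rpow_natCast, one_div]

end Num3

end Pool.Agent.Perc

end Partperc3Num3

section Partperc3SchurO

/-!
# The Schur product for an odd number of sites (task SchurO)
-/

set_option autoImplicit false

namespace Pool.Agent.Perc

open Finset MvPolynomial

/-- The product for `2m+1` sites. -/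
noncomputable def GO (m : ℕ) : MvPolynomial ℕ ℂ :=
  schur (2 * m + 1) eS3 * schur (2 * m + 1) SumB.eP

namespace SchurO

open Uni3 QSchur

variable {q : ℂ}

theorem restrict_S (hq : q ^ 2 + q + 1 = 0) (m : ℕ) {i : ℕ} (hi : i ≤ 2 * m + 1) (v : ℂ)
    (z : ℕ → ℂ) : eval (insV i (q ^ 2 * v) v z) (schur (2 * (m + 1) + 1) eS3) =
      (∏ k ∈ range (2 * m + 1), (z k - q * v)) * eval z (schur (2 * m + 1) eS3) := by
  have h1 := top_schur (2 * (m + 1) + 1) (m + 1) SumB.strictMono_eS3 (by unfold eS3; omega)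
    (insV i (q ^ 2 * v) v z)
  have h2 := top_schur (2 * m + 1) m SumB.strictMono_eS3 (by unfold eS3; omega) z
  set F := sub1 (2 * m + 1) z (schur (2 * m + 1 + 1) eS3) with hF
  set c := (∏ k ∈ range (2 * m + 1), (z k - q * v)) with hc
  have h3 : sub1 (2 * (m + 1) + 1) (insV i (q ^ 2 * v) v z) (schur (2 * (m + 1) + 1 + 1) eS3) =
      Polynomial.C c * ((Polynomial.X - Polynomial.C (q * v)) * F) := by
    apply Polynomial.funext
    intro y
    rw [eval_sub1]
    have h4 : (fun k => if k = 2 * (m + 1) + 1 then y else insV i (q ^ 2 * v) v z k) =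
        insV i (q ^ 2 * v) v (fun k => if k = 2 * m + 1 then y else z k) := by
      funext k
      unfold insV
      by_cases h5 : k = 2 * (m + 1) + 1
      · subst h5
        rw [if_pos rfl, if_neg (by omega), if_neg (by omega), if_neg (by omega)]
        exact (if_pos (by omega)).symm
      · rw [if_neg h5]
        by_cases h6 : k < i
        · rw [if_pos h6, if_pos h6]
          exact (if_neg (by omega)).symm
        · by_cases h7 : k = i
          · rw [if_neg h6, if_neg h6, if_pos h7, if_pos h7]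
          · by_cases h8 : k = i + 1
            · rw [if_neg h6, if_neg h6, if_neg h7, if_neg h7, if_pos h8, if_pos h8]
            · rw [if_neg h6, if_neg h6, if_neg h7, if_neg h7, if_neg h8, if_neg h8]
              exact (if_neg (by omega)).symm
    have h5 := eS3_restrict hq (m + 1) (i := i) (by omega)
      (fun k => if k = 2 * m + 1 then y else z k) v
    rw [h4, show 2 * (m + 1) + 1 + 1 = 2 * (m + 1 + 1) from rfl, h5]
    rw [Polynomial.eval_mul, Polynomial.eval_mul, Polynomial.eval_C, Polynomial.eval_sub,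
      Polynomial.eval_X, Polynomial.eval_C, hF, eval_sub1]
    rw [show 2 * (m + 1) = 2 * m + 1 + 1 from rfl, prod_range_succ]
    have h6 : ∏ x ∈ range (2 * m + 1), ((if x = 2 * m + 1 then y else z x) - q * v) = c := by
      rw [hc]
      refine Finset.prod_congr rfl fun k hk => ?_
      rw [mem_range] at hk
      rw [if_neg (by omega)]
    rw [h6, if_pos rfl]
    ring
  rw [← h1, ← h2]
  change Polynomial.coeff (sub1 (2 * (m + 1) + 1) (insV i (q ^ 2 * v) v z)
    (schur (2 * (m + 1) + 1 + 1) eS3)) (m + 1) = c * Polynomial.coeff F m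
  rw [h3, Polynomial.coeff_C_mul, sub_mul, Polynomial.coeff_sub, Polynomial.coeff_X_mul,
    Polynomial.coeff_C_mul, Polynomial.coeff_eq_zero_of_natDegree_lt (n := m + 1)]
  · ring
  · refine lt_of_le_of_lt (natDegree_sub1_le _ _ _) ?_
    have h7 := Schur3.degreeOf_sg_le m (2 * m + 1)
    rw [show 2 * (m + 1) = 2 * m + 1 + 1 from rfl] at h7
    omega

theorem restrict_P (hq : q ^ 2 + q + 1 = 0) (m : ℕ) {i : ℕ} (hi : i ≤ 2 * m + 1) (v : ℂ)
    (z : ℕ → ℂ) : eval (insV i (q ^ 2 * v) v z) (schur (2 * (m + 1) + 1) SumB.eP) =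
      -q * v * (∏ k ∈ range (2 * m + 1), (z k - q * v)) * eval z (schur (2 * m + 1) SumB.eP) := by
  set ζ : ℕ → ℂ := fun k => if k = 2 * m + 1 then 0 else z k with hζ
  have hζz : ∀ k < 2 * m + 1, ζ k = z k := fun k hk => by
    rw [hζ]
    simp only
    rw [if_neg (by omega)]
  have hins : ∀ k < 2 * (m + 1) + 1, insV i (q ^ 2 * v) v z k = insV i (q ^ 2 * v) v ζ k := by
    intro k hk
    unfold insV
    split_ifs with h1 h2 h3
    · rw [hζz k (by omega)]
    · rfl
    · rfl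
    · rw [hζz (k - 2) (by omega)]
  rw [eval_schur_congr _ _ hins, ← eval_schur_congr (2 * m + 1) SumB.eP hζz]
  have h1 := zero_schur (2 * (m + 1) + 1) SumB.strictMono_eS3 (by simp [eS3])
    (insV i (q ^ 2 * v) v ζ) (by
      unfold insV
      rw [if_neg (by omega), if_neg (by omega), if_neg (by omega), hζ]
      exact if_pos (by omega))
  have h2 := zero_schur (2 * m + 1) SumB.strictMono_eS3 (by simp [eS3]) ζ (by
    rw [hζ]
    exact if_pos rfl)
  have h3 : (fun j => eS3 (j + 1) - 1) = SumB.eP := rfl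
  rw [h3] at h1 h2
  rw [← h1, ← h2]
  have h5 := eS3_restrict hq (m + 1) (i := i) (by omega) ζ v
  rw [show 2 * (m + 1) + 1 + 1 = 2 * (m + 1 + 1) from rfl, h5,
    show 2 * (m + 1) = 2 * m + 1 + 1 from rfl, prod_range_succ]
  have h6 : ∏ x ∈ range (2 * m + 1), (ζ x - q * v) = ∏ k ∈ range (2 * m + 1), (z k - q * v) := by
    refine Finset.prod_congr rfl fun k hk => ?_
    rw [mem_range] at hk
    rw [hζz k hk]
  have h7 : ζ (2 * m + 1) = 0 := by
    rw [hζ]
    exact if_pos rfl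
  rw [h6, h7]
  ring

theorem schur_one {e : ℕ → ℕ} (he : e 0 = 0) : schur (2 * 0 + 1) e = 1 := by
  have h := vdm_mul_schur (2 * 0 + 1) e
  have h1 : alt (2 * 0 + 1) e = vdm (2 * 0 + 1) := by
    rw [← alt_id]
    unfold alt
    congr 1
    ext i j : 2
    simp only [Matrix.of_apply]
    congr 1
    have hj : (j : ℕ) = 0 := by omega
    rw [hj, he]
  rw [h1] at h
  exact mul_left_cancel₀ (SumA.vdm_ne_zero _) (h.trans (mul_one _).symm)

end SchurO

open SchurO

theorem GO_zero : GO 0 = 1 := by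
  unfold GO
  rw [schur_one (by rfl), schur_one (by rfl), one_mul]

/-- The product for an odd number of sites satisfies the recursion with the constant `-q`. -/
theorem recO_GO {q : ℂ} (hq : q ^ 2 + q + 1 = 0) : RecO q (fun _ => -q) GO where
  deg m := by
    unfold GO
    refine (degreeOf_mul_le _ _ _).trans ?_
    have h1 := degreeOf_schur_le (2 * (m + 1) + 1) eS3 (d := m + 1) (by
      intro j hj
      unfold eS3
      omega) 0
    have h2 := degreeOf_schur_le (2 * (m + 1) + 1) SumB.eP (d := m + 1) (by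
      intro j hj
      unfold SumB.eP eS3
      omega) 0
    omega
  symm m i hi z := by
    unfold GO
    have h := fun e => schur_perm (2 * (m + 1) + 1) e (Equiv.swap i (i + 1))
      (fun k hk => Equiv.swap_apply_of_ne_of_ne (by omega) (by omega)) z
    rw [map_mul, map_mul]
    exact congrArg₂ (· * ·) (h eS3) (h SumB.eP)
  ins m v z _ := by
    unfold GO
    rw [map_mul, map_mul, restrict_S hq m (by omega), restrict_P hq m (by omega), Finset.prod_pow]
    ring

/-- The sum of the components for an odd number of sites is a multiple of the product. -/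
theorem RecO.eq_schur {q : ℂ} (hq : q ^ 2 + q + 1 = 0) {c : ℕ → ℂ} {F : ℕ → MvPolynomial ℕ ℂ}
    (h : RecO q c F) {a : ℕ → ℂ} (h0 : F 0 = C (a 0)) (h1 : ∀ m, a (m + 1) * (-q) = c m * a m)
    (m : ℕ) : F m = C (a m) * GO m := by
  have hG : RecO q c (fun m => C (a m) * GO m) := by
    have hg := recO_GO hq
    refine ⟨fun m => (degreeOf_C_mul_le _ _ _).trans (hg.deg m), fun m i hi z => ?_,
      fun m v z hv => ?_⟩
    · simp only [map_mul, eval_C]
      rw [hg.symm m i hi]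
    · simp only [map_mul, eval_C]
      rw [hg.ins m v z hv]
      linear_combination (v * (∏ k ∈ range (2 * m + 1), (z k - q * v) ^ 2) * eval z (GO m)) * h1 m
  refine h.unique hq hG ?_ m
  rw [h0, GO_zero, mul_one]

/-- The number of the three leg formula. -/
theorem p3v_eq_GO (m : ℕ) : ((Num3.p3v m : ℝ) : ℂ) =
    eval (fun _ => 1) (schur (2 * m) eS3) ^ 3 * eval (fun _ => 1) (schur (2 * (m + 1)) eS3) /
      ((eval (fun _ => 1) (schur (2 * m) eS3) * eval (fun _ => 1) (schur (2 * m) SumB.eP)) *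
        eval (fun _ => 1) (GO m)) := by
  rw [Num3.p3v_eq, GO, map_mul]

theorem eval_GO_ne (m : ℕ) : eval (fun _ => 1) (GO m) ≠ 0 := by
  have key : ∀ {e : ℕ → ℕ}, StrictMono e → eval (fun _ => 1) (schur (2 * m + 1) e) ≠ 0 := by
    intro e he h0
    have h1 := SumB.value e he (2 * m + 1)
    rw [h0, zero_mul] at h1
    exact SumB.dd_ne_zero he (2 * m + 1) h1.symm
  rw [GO, map_mul]
  exact mul_ne_zero (key SumB.strictMono_eS3) (key SumB.strictMono_eP)

end Pool.Agent.Perc

end Partperc3SchurO
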