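import Pool.Agent.Lib.MP_6bd702_zc.Pre
import Pool.Agent.Lib.MP_6bd702_zc.Y004
import Pool.Agent.Lib.MP_6bd702_z.Z071

/-!
# Odd link patterns: total length and valleys (task OStT)

Model: perq/QStC.lean. Difference: the inequality `totO_lt` is only true at valleys whose opening
is not the through line (this is what `nested_or_valleyO` provides): then the small arc of `e_i π`
is directly surrounded by an arc, and the through line is not visible from it.
-/

set_option autoImplicit false

namespace Pool.Agent.Perc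

open Finset

variable {N : ℕ} {p π : ℕ → ℕ}

namespace OStT

open QStC (ln ln_comm)

theorem ne_of_ne {x : ℕ} (h : NCO N p) {y : ℕ} (e : x ≠ y) : p x ≠ p y := fun e' =>
  e (by rw [← h.inv x, e', h.inv])

/-- the labels in terms of the through line -/
theorem mark (h : NCO N p) (x : ℕ) :
    labO p x = true ↔ (x < thr p ∧ thr p < p x) ∨ (p x < thr p ∧ thr p < x) := by
  have ht := h.thr_fix
  unfold labO
  by_cases hx : x = thr p
  · rw [hx, ht]; simp
  · have h2 : p x ≠ thr p := by
      rw [← ht]; exact ne_of_ne h hx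
    by_cases h3 : x < thr p <;> by_cases h4 : p x < thr p <;> simp [h3, h4] <;> omega

theorem op_true_iff (h : NCO N p) {x : ℕ} (hx : p x ≠ x) :
    opO p x = true ↔ (x < p x ↔ labO p x = false) := by
  have h1 : x ≠ thr p := by
    rintro rfl
    exact hx h.thr_fix
  unfold opO
  by_cases h : x < p x <;> cases hs : labO p x <;> simp [h, h1]

theorem op_false_iff (h : NCO N p) {x : ℕ} (hx : p x ≠ x) :
    opO p x = false ↔ (x < p x ↔ labO p x = true) := by
  have h1 : x ≠ thr p := by
    rintro rfl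
    exact hx h.thr_fix
  unfold opO
  by_cases h : x < p x <;> cases hs : labO p x <;> simp [h, h1]

theorem op_fix (h : NCO N p) {x : ℕ} (hN : x < N) (hx : p x = x) : opO p x = true := by
  rw [(h.eq_thr_iff hN).1 hx]; exact opO_thr p

theorem ne_of_op_false (h : NCO N p) {x : ℕ} (hN : x < N) (hx : opO p x = false) : p x ≠ x := by
  intro e
  rw [op_fix h hN e] at hx
  exact Bool.noConfusion hx

theorem eO_right (i : ℕ) (p : ℕ → ℕ) : eO i p (i + 1) = i := by
  unfold eO; rw [if_neg (by omega), if_pos rfl]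

theorem eO_a {i x : ℕ} (p : ℕ → ℕ) (h1 : x ≠ i) (h2 : x ≠ i + 1) (h3 : p x = i)
    (h4 : p (i + 1) ≠ i + 1) : eO i p x = p (i + 1) := by
  unfold eO; rw [if_neg h1, if_neg h2, if_pos h3, if_neg h4]

theorem eO_b {i x : ℕ} (p : ℕ → ℕ) (h1 : x ≠ i) (h2 : x ≠ i + 1) (h3 : p x = i + 1)
    (h4 : p i ≠ i) : eO i p x = p i := by
  unfold eO; rw [if_neg h1, if_neg h2, if_neg (by omega), if_pos h3, if_neg h4]

theorem eO_a' {i x : ℕ} (p : ℕ → ℕ) (h1 : x ≠ i) (h2 : x ≠ i + 1) (h3 : p x = i)
    (h4 : p (i + 1) = i + 1) : eO i p x = x := by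
  unfold eO; rw [if_neg h1, if_neg h2, if_pos h3, if_pos h4]

theorem eO_b' {i x : ℕ} (p : ℕ → ℕ) (h1 : x ≠ i) (h2 : x ≠ i + 1) (h3 : p x = i + 1)
    (h4 : p i = i) : eO i p x = x := by
  unfold eO; rw [if_neg h1, if_neg h2, if_neg (by omega), if_pos h3, if_pos h4]

theorem eO_other {i x : ℕ} (p : ℕ → ℕ) (h1 : x ≠ i) (h2 : x ≠ i + 1) (h3 : p x ≠ i)
    (h4 : p x ≠ i + 1) : eO i p x = p x := by
  unfold eO; rw [if_neg h1, if_neg h2, if_neg h3, if_neg h4]

theorem lenO_eq (N : ℕ) (p : ℕ → ℕ) (x : ℕ) : lenO N p x = ln N x (p x) (labO p x) := rfl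

/-- the change of the total length (no through line at `i`, `i + 1`) -/
theorem totO_eO (h : NCO N p) {i : ℕ} (hi : i + 1 < N) (hs : p i ≠ i + 1) (f1 : p i ≠ i)
    (f2 : p (i + 1) ≠ i + 1) :
    totO N (eO i p) + 2 * (ln N i (p i) (labO p i) + ln N (i + 1) (p (i + 1)) (labO p (i + 1)))
      = totO N p + 2 * (ln N (p i) (p (i + 1)) (xor (labO p i) (labO p (i + 1))) + 1) := by
  set a := p i with ha
  set b := p (i + 1) with hb
  have pa : p a = i := h.inv i
  have pb : p b = i + 1 := h.inv (i + 1)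
  have haN : a < N := h.lt i (by omega)
  have hbN : b < N := h.lt (i + 1) hi
  have hbi : b ≠ i := by
    intro e
    rw [e] at pb
    exact hs (by rw [ha, pb])
  have hab : a ≠ b := by
    intro e
    rw [e, pb] at pa
    omega
  have la : labO p a = labO p i := labO_partner h.inv i
  have lb : labO p b = labO p (i + 1) := labO_partner h.inv (i + 1)
  have hsub : ({i, i + 1, a, b} : Finset ℕ) ⊆ range N := by
    intro x hx
    simp only [mem_insert, mem_singleton] at hx
    rw [mem_range]
    rcases hx with rfl | rfl | rfl | rfl <;> omega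
  have hrest : ∑ x ∈ range N \ {i, i + 1, a, b}, lenO N p x
      = ∑ x ∈ range N \ {i, i + 1, a, b}, lenO N (eO i p) x := by
    refine sum_congr rfl fun x hx => ?_
    rw [mem_sdiff] at hx
    simp only [mem_insert, mem_singleton, not_or] at hx
    obtain ⟨_, h1, h2, h3, h4⟩ := hx
    have h5 : p x ≠ i := fun e => h3 (by rw [ha, ← e, h.inv])
    have h6 : p x ≠ i + 1 := fun e => h4 (by rw [hb, ← e, h.inv])
    rw [lenO_eq, lenO_eq, eO_other p h1 h2 h5 h6, labO_eO_other h hi h1 h2 h5 h6]
  have hsplit : ∀ f : ℕ → ℕ, ∑ x ∈ range N, f x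
      = ∑ x ∈ range N \ {i, i + 1, a, b}, f x + (f i + (f (i + 1) + (f a + f b))) := by
    intro f
    rw [← sum_sdiff hsub]
    congr 1
    rw [sum_insert (by simp; omega), sum_insert (by simp; omega), sum_insert (by simpa using hab),
      sum_singleton]
  have e1 : totO N p = _ := hsplit (lenO N p)
  have e2 : totO N (eO i p) = _ := hsplit (lenO N (eO i p))
  rw [e1, e2, ← hrest]
  have k1 : lenO N p i = ln N i a (labO p i) := rfl
  have k2 : lenO N p (i + 1) = ln N (i + 1) b (labO p (i + 1)) := rfl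
  have k3 : lenO N p a = ln N i a (labO p i) := by rw [lenO_eq, pa, la, ln_comm]
  have k4 : lenO N p b = ln N (i + 1) b (labO p (i + 1)) := by rw [lenO_eq, pb, lb, ln_comm]
  have g1 : lenO N (eO i p) i = 1 := by
    rw [lenO_eq, OStA.eO_left, labO_eO_left h hi]
    unfold QStC.ln
    simp
  have g2 : lenO N (eO i p) (i + 1) = 1 := by
    rw [lenO_eq, eO_right, labO_eO_right h hi]
    unfold QStC.ln
    simp
  have g3 : lenO N (eO i p) a = ln N a b (xor (labO p i) (labO p (i + 1))) := by
    rw [lenO_eq, eO_a p f1 hs pa f2, labO_eO_mid h hi f1 hs (Or.inl pa) f1 f2]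
  have g4 : lenO N (eO i p) b = ln N a b (xor (labO p i) (labO p (i + 1))) := by
    rw [lenO_eq, eO_b p hbi f2 pb f1, labO_eO_mid h hi hbi f2 (Or.inr pb) f1 f2, ln_comm]
  rw [k1, k2, k3, k4, g1, g2, g3, g4]
  ring

/-- the change of the total length, through line at `i + 1` -/
theorem totO_eO_right (h : NCO N p) {i : ℕ} (hi : i + 1 < N) (f2 : p (i + 1) = i + 1) :
    totO N (eO i p) ≤ totO N p := by
  set a := p i with ha
  have pa : p a = i := h.inv i
  have haN : a < N := h.lt i (by omega)
  have hs : a ≠ i + 1 := by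
    intro e
    rw [e, f2] at pa
    omega
  have f1 : a ≠ i := by
    intro e
    have h1 := (h.eq_thr_iff (x := i) (by omega)).1 (by rw [← ha, e])
    have h2 := (h.eq_thr_iff hi).1 f2
    omega
  have la : labO p a = labO p i := labO_partner h.inv i
  have hsub : ({i, i + 1, a} : Finset ℕ) ⊆ range N := by
    intro x hx
    simp only [mem_insert, mem_singleton] at hx
    rw [mem_range]
    rcases hx with rfl | rfl | rfl <;> omega
  have hrest : ∑ x ∈ range N \ {i, i + 1, a}, lenO N p x
      = ∑ x ∈ range N \ {i, i + 1, a}, lenO N (eO i p) x := by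
    refine sum_congr rfl fun x hx => ?_
    rw [mem_sdiff] at hx
    simp only [mem_insert, mem_singleton, not_or] at hx
    obtain ⟨_, h1, h2, h3⟩ := hx
    have h5 : p x ≠ i := fun e => h3 (by rw [ha, ← e, h.inv])
    have h6 : p x ≠ i + 1 := fun e => h2 (by rw [← f2, ← e, h.inv])
    rw [lenO_eq, lenO_eq, eO_other p h1 h2 h5 h6, labO_eO_other h hi h1 h2 h5 h6]
  have hsplit : ∀ f : ℕ → ℕ, ∑ x ∈ range N, f x
      = ∑ x ∈ range N \ {i, i + 1, a}, f x + (f i + (f (i + 1) + f a)) := by
    intro f
    rw [← sum_sdiff hsub]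
    congr 1
    rw [sum_insert (by simp; omega), sum_insert (by simp; omega), sum_singleton]
  have e1 : totO N p = _ := hsplit (lenO N p)
  have e2 : totO N (eO i p) = _ := hsplit (lenO N (eO i p))
  rw [e1, e2, ← hrest]
  have k1 : lenO N p i = ln N i a (labO p i) := rfl
  have k3 : lenO N p a = ln N i a (labO p i) := by rw [lenO_eq, pa, la, ln_comm]
  have g1 : lenO N (eO i p) i = 1 := by
    rw [lenO_eq, OStA.eO_left, labO_eO_left h hi]
    unfold QStC.ln
    simp
  have g2 : lenO N (eO i p) (i + 1) = 1 := by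
    rw [lenO_eq, eO_right, labO_eO_right h hi]
    unfold QStC.ln
    simp
  have g3 : lenO N (eO i p) a = 0 := by
    have e3 := eO_a' p f1 hs pa f2
    rw [lenO_eq, e3, labO_of_fix e3]
    unfold QStC.ln
    simp
  have hln : 1 ≤ ln N i a (labO p i) := by
    unfold QStC.ln
    split_ifs <;> omega
  rw [k1, k3, g1, g2, g3]
  omega

/-- the change of the total length, through line at `i` -/
theorem totO_eO_left (h : NCO N p) {i : ℕ} (hi : i + 1 < N) (f1 : p i = i) :
    totO N (eO i p) ≤ totO N p := by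
  set b := p (i + 1) with hb
  have pb : p b = i + 1 := h.inv (i + 1)
  have hbN : b < N := h.lt (i + 1) hi
  have hs : b ≠ i := by
    intro e
    rw [e, f1] at pb
    omega
  have f2 : b ≠ i + 1 := by
    intro e
    have h1 := (h.eq_thr_iff (x := i) (by omega)).1 f1
    have h2 := (h.eq_thr_iff hi).1 (by rw [← hb, e])
    omega
  have lb : labO p b = labO p (i + 1) := labO_partner h.inv (i + 1)
  have hsub : ({i, i + 1, b} : Finset ℕ) ⊆ range N := by
    intro x hx
    simp only [mem_insert, mem_singleton] at hx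
    rw [mem_range]
    rcases hx with rfl | rfl | rfl <;> omega
  have hrest : ∑ x ∈ range N \ {i, i + 1, b}, lenO N p x
      = ∑ x ∈ range N \ {i, i + 1, b}, lenO N (eO i p) x := by
    refine sum_congr rfl fun x hx => ?_
    rw [mem_sdiff] at hx
    simp only [mem_insert, mem_singleton, not_or] at hx
    obtain ⟨_, h1, h2, h3⟩ := hx
    have h5 : p x ≠ i + 1 := fun e => h3 (by rw [hb, ← e, h.inv])
    have h6 : p x ≠ i := fun e => h1 (by rw [← f1, ← e, h.inv])
    rw [lenO_eq, lenO_eq, eO_other p h1 h2 h6 h5, labO_eO_other h hi h1 h2 h6 h5]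
  have hsplit : ∀ f : ℕ → ℕ, ∑ x ∈ range N, f x
      = ∑ x ∈ range N \ {i, i + 1, b}, f x + (f i + (f (i + 1) + f b)) := by
    intro f
    rw [← sum_sdiff hsub]
    congr 1
    rw [sum_insert (by simp; omega), sum_insert (by simp; omega), sum_singleton]
  have e1 : totO N p = _ := hsplit (lenO N p)
  have e2 : totO N (eO i p) = _ := hsplit (lenO N (eO i p))
  rw [e1, e2, ← hrest]
  have k1 : lenO N p (i + 1) = ln N (i + 1) b (labO p (i + 1)) := rfl
  have k3 : lenO N p b = ln N (i + 1) b (labO p (i + 1)) := by rw [lenO_eq, pb, lb, ln_comm]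
  have g1 : lenO N (eO i p) i = 1 := by
    rw [lenO_eq, OStA.eO_left, labO_eO_left h hi]
    unfold QStC.ln
    simp
  have g2 : lenO N (eO i p) (i + 1) = 1 := by
    rw [lenO_eq, eO_right, labO_eO_right h hi]
    unfold QStC.ln
    simp
  have g3 : lenO N (eO i p) b = 0 := by
    have e3 := eO_b' p hs f2 pb f1
    rw [lenO_eq, e3, labO_of_fix e3]
    unfold QStC.ln
    simp
  have hln : 1 ≤ ln N (i + 1) b (labO p (i + 1)) := by
    unfold QStC.ln
    split_ifs <;> omega
  rw [k1, k3, g1, g2, g3]
  omega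

/-- the geometry of a state at two neighbouring sites -/
theorem geom (h : NCO N p) {i : ℕ} (hi : i + 1 < N) (hs : p i ≠ i + 1) (f1 : p i ≠ i)
    (f2 : p (i + 1) ≠ i + 1) :
    (opO p i = false ∧ opO p (i + 1) = true ∧
      ln N (p i) (p (i + 1)) (xor (labO p i) (labO p (i + 1)))
        = ln N i (p i) (labO p i) + ln N (i + 1) (p (i + 1)) (labO p (i + 1)) + 1) ∨
    (¬ (opO p i = false ∧ opO p (i + 1) = true) ∧
      ln N (p i) (p (i + 1)) (xor (labO p i) (labO p (i + 1))) + 1
        ≤ ln N i (p i) (labO p i) + ln N (i + 1) (p (i + 1)) (labO p (i + 1))) := by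
  have m1 := mark h i
  have m2 := mark h (i + 1)
  have o1 := op_true_iff h f1
  have o2 := op_false_iff h f1
  have o3 := op_true_iff h f2
  have o4 := op_false_iff h f2
  have htN := h.thr_lt
  have ht := h.thr_fix
  set t := thr p with htdef
  set a := p i with ha
  set b := p (i + 1) with hb
  have pa : p a = i := h.inv i
  have pb : p b = i + 1 := h.inv (i + 1)
  have haN : a < N := h.lt i (by omega)
  have hbN : b < N := h.lt (i + 1) hi
  have hti : i ≠ t := by rintro e; rw [e] at f1; exact f1 (by rw [ha, e, ht])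
  have hti1 : i + 1 ≠ t := by rintro e; rw [e] at f2; exact f2 (by rw [hb, e, ht])
  have hbi : b ≠ i := by
    intro e
    rw [e] at pb
    exact hs (by rw [ha, pb])
  have hab : a ≠ b := by
    intro e
    rw [e, pb] at pa
    omega
  -- noncrossing
  have n1 : i < i + 1 → i + 1 < a → i < b ∧ b < a := h.nc i (i + 1)
  have n2 : b < i → i < i + 1 → b < a ∧ a < i + 1 := by
    have := h.nc b i
    rw [pb] at this
    exact this
  unfold QStC.ln
  cases hl1 : labO p i <;> cases hl2 : labO p (i + 1) <;> rw [hl1] at m1 o1 o2 <;>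
    rw [hl2] at m2 o3 o4 <;> cases ho1 : opO p i <;> cases ho2 : opO p (i + 1) <;>
    rw [ho1] at o1 o2 <;> rw [ho2] at o3 o4 <;> simp at m1 m2 o1 o2 o3 o4 ⊢ <;> omega

end OStT

open OStT

theorem totO_le (N : ℕ) (h : NCO N p) : totO N p ≤ N * N := by
  unfold totO
  calc ∑ x ∈ range N, lenO N p x ≤ ∑ _x ∈ range N, N := by
        refine sum_le_sum fun x hx => ?_
        rw [mem_range] at hx
        have := h.lt x hx
        rw [lenO_eq]
        unfold QStC.ln
        split_ifs <;> omega
    _ = N * N := by simp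

theorem totO_rotP (h : NCO N p) : totO N (rotP N p) = totO N p := by
  have key : ∀ x < N, lenO N (rotP N p) x = lenO N p (if x + 1 = N then 0 else x + 1) := by
    intro x hx
    rw [lenO_eq, lenO_eq]
    have e1 : (rotP N p) x = (if p (if x + 1 = N then 0 else x + 1) = 0 then N - 1
        else p (if x + 1 = N then 0 else x + 1) - 1) := by
      unfold rotP
      simp only [hx, if_true]
    by_cases hN : x + 1 = N
    · have e2 := labO_rotP h (x := 0) (by omega)
      rw [show PatB.rh N 0 = x by unfold PatB.rh; rw [if_pos rfl]; omega] at e2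
      have h1 := h.lt 0 (by omega)
      by_cases h0 : p 0 = 0
      · have h2 : labO p 0 = false := labO_of_fix h0
        rw [if_neg (fun hh => hh.1 h0)] at e2
        rw [e1, e2]
        simp only [hN, if_true]
        rw [h0, h2]
        simp only [if_true]
        unfold QStC.ln
        simp
        omega
      · rw [if_pos ⟨h0, Or.inl rfl⟩] at e2
        rw [e1, e2]
        simp only [hN, if_true]
        rw [if_neg h0]
        unfold QStC.ln
        cases labO p 0 <;> simp <;> omega
    · have e2 := labO_rotP h (x := x + 1) (by omega)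
      rw [show PatB.rh N (x + 1) = x by unfold PatB.rh; rw [if_neg (by omega)]; omega] at e2
      rw [e1, e2]
      simp only [hN, if_false]
      have h1 := h.lt (x + 1) (by omega)
      by_cases h2 : p (x + 1) = 0
      · rw [if_pos h2, if_pos ⟨by omega, Or.inr h2⟩]
        unfold QStC.ln
        cases labO p (x + 1) <;> simp <;> omega
      · rw [if_neg h2, if_neg (fun hh => hh.2.elim (by omega) h2)]
        unfold QStC.ln
        cases labO p (x + 1) <;> simp <;> omega
  unfold totO
  rw [sum_congr rfl fun x hx => key x (mem_range.1 hx)]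
  rcases N with _ | N
  · simp
  · rw [sum_range_succ, sum_range_succ' (fun x => lenO (N + 1) p x)]
    simp only [if_true]
    congr 1
    refine sum_congr rfl fun x hx => ?_
    rw [mem_range] at hx
    rw [if_neg (by omega)]

/-- the total length of a state and of its image -/
theorem OStT.totO_cases (h : NCO N p) {i : ℕ} (hi : i + 1 < N) :
    (opO p i = false ∧ opO p (i + 1) = true ∧ p (i + 1) ≠ i + 1 ∧
      totO N (eO i p) = totO N p + 4) ∨
    (¬ (opO p i = false ∧ opO p (i + 1) = true ∧ p (i + 1) ≠ i + 1) ∧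
      totO N (eO i p) ≤ totO N p) := by
  by_cases hs : p i = i + 1
  · right
    have h1 : p i ≠ i := by omega
    have h2 : labO p i = false := labO_small h (by omega) hs
    refine ⟨fun hh => ?_, ?_⟩
    · have h3 := (op_false_iff h h1).1 hh.1
      rw [h2, hs] at h3
      simp at h3
    · rw [eO_of_small h.inv hs]
  by_cases f2 : p (i + 1) = i + 1
  · right
    exact ⟨fun hh => hh.2.2 f2, totO_eO_right h hi f2⟩
  by_cases f1 : p i = i
  · right
    refine ⟨fun hh => ?_, totO_eO_left h hi f1⟩
    exact ne_of_op_false h (by omega) hh.1 f1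
  have h1 := totO_eO h hi hs f1 f2
  rcases geom h hi hs f1 f2 with ⟨h2, h3, h4⟩ | ⟨h2, h3⟩
  · left
    exact ⟨h2, h3, f2, by omega⟩
  · right
    exact ⟨fun hh => h2 ⟨hh.1, hh.2.1⟩, by omega⟩

/-- at a valley the two sites are not matched -/
theorem OStT.valley_ne (h : NCO N p) {i : ℕ} (hi : i < N) (h1 : opO p i = false) : p i ≠ i + 1 := by
  intro e
  have h2 := (op_false_iff h (by omega)).1 h1
  rw [labO_small h hi e, e] at h2
  simp at h2

/-- the order of the partners at a valley -/
theorem OStT.valley_order (h : NCO N p) {i : ℕ} (hi : i + 1 < N)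
    (h1 : opO p i = false) (h2 : opO p (i + 1) = true) (f2 : p (i + 1) ≠ i + 1) :
    (if i < p (i + 1) then p (i + 1) else p (i + 1) + N)
      < (if i < p i then p i else p i + N) := by
  have h3 := OStT.valley_ne h (by omega) h1
  have f1 : p i ≠ i := ne_of_op_false h (by omega) h1
  rw [op_false_iff h f1] at h1
  rw [op_true_iff h f2] at h2
  have m1 := mark h i
  have m2 := mark h (i + 1)
  have htN := h.thr_lt
  have ht := h.thr_fix
  set t := thr p with htdef
  set a := p i with ha
  set b := p (i + 1) with hb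
  have pa : p a = i := h.inv i
  have pb : p b = i + 1 := h.inv (i + 1)
  have haN : a < N := h.lt i (by omega)
  have hbN : b < N := h.lt (i + 1) hi
  have hbi : b ≠ i := by
    intro e
    rw [e] at pb
    exact h3 (by rw [ha, pb])
  have hab : a ≠ b := by
    intro e
    rw [e, pb] at pa
    omega
  have n1 : i < i + 1 → i + 1 < a → i < b ∧ b < a := h.nc i (i + 1)
  have n2 : b < i → i < i + 1 → b < a ∧ a < i + 1 := by
    have := h.nc b i
    rw [pb] at this
    exact this
  cases hl1 : labO p i <;> cases hl2 : labO p (i + 1) <;> rw [hl1] at m1 h1 <;>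
    rw [hl2] at m2 h2 <;> simp at m1 m2 h1 h2 <;> split_ifs <;> omega

/-- one half of the uniqueness -/
theorem OStT.valley_le (hπ : NCO N π) (h : NCO N p) {i : ℕ} (hi : i + 1 < N)
    (h1 : opO π i = false) (h2 : opO π (i + 1) = true) (f2 : π (i + 1) ≠ i + 1)
    (k1 : opO p i = false) (k2 : opO p (i + 1) = true) (k3 : p (i + 1) ≠ i + 1)
    (he : eO i p = eO i π) :
    ¬ ((if i < π (i + 1) then π (i + 1) else π (i + 1) + N)
      < (if i < p (i + 1) then p (i + 1) else p (i + 1) + N)) := by
  intro hlt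
  have c1 := OStT.valley_order hπ hi h1 h2 f2
  have c2 := OStT.valley_order h hi k1 k2 k3
  have h3 := OStT.valley_ne hπ (by omega) h1
  have h3' := OStT.valley_ne h (by omega) k1
  have f1 : π i ≠ i := ne_of_op_false hπ (by omega) h1
  have f1' : p i ≠ i := ne_of_op_false h (by omega) k1
  rw [op_false_iff hπ f1] at h1
  rw [op_false_iff h f1'] at k1
  rw [op_true_iff hπ f2] at h2
  rw [op_true_iff h k3] at k2
  have m1 := mark hπ i
  have m2 := mark hπ (i + 1)
  have m1' := mark h i
  have m2' := mark h (i + 1)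
  have htN := hπ.thr_lt
  have ht := hπ.thr_fix
  have ht' := h.thr_fix
  have hti : i ≠ thr π := by intro e; rw [← e] at ht; exact f1 ht
  have hti1 : i + 1 ≠ thr π := by intro e; rw [← e] at ht; exact f2 ht
  have hti' : i ≠ thr p := by intro e; rw [← e] at ht'; exact f1' ht'
  have hti1' : i + 1 ≠ thr p := by intro e; rw [← e] at ht'; exact k3 ht'
  have htt : thr p = thr π := by
    have e1 := thr_eO hπ hi
    have e2 := thr_eO h hi
    rw [if_neg (Ne.symm hti), if_neg (Ne.symm hti1)] at e1
    rw [if_neg (Ne.symm hti'), if_neg (Ne.symm hti1')] at e2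
    rw [← e1, ← e2, he]
  rw [htt] at m1' m2' hti' hti1' ht'
  set t := thr π with htdef
  set a := π i with ha
  set b := π (i + 1) with hb
  set a' := p i with ha'
  set b' := p (i + 1) with hb'
  have pa : π a = i := hπ.inv i
  have pb : π b = i + 1 := hπ.inv (i + 1)
  have haN : a < N := hπ.lt i (by omega)
  have hbN : b < N := hπ.lt (i + 1) hi
  have hbi : b ≠ i := by
    intro e
    rw [e] at pb
    exact h3 (by rw [ha, pb])
  have hab : a ≠ b := by
    intro e
    rw [e, pb] at pa
    omega
  have pa' : p a' = i := h.inv i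
  have pb' : p b' = i + 1 := h.inv (i + 1)
  have haN' : a' < N := h.lt i (by omega)
  have hbN' : b' < N := h.lt (i + 1) hi
  have hbi' : b' ≠ i := by
    intro e
    rw [e] at pb'
    exact h3' (by rw [ha', pb'])
  have hab' : a' ≠ b' := by
    intro e
    rw [e, pb'] at pa'
    omega
  have hbb : b ≠ b' := by
    rintro e
    rw [← e] at hlt
    exact lt_irrefl _ hlt
  -- the common image
  have qa : eO i π a = b := eO_a π f1 h3 pa f2
  have qb : eO i π b = a := eO_b π hbi f2 pb f1
  have hba' : b ≠ a' := by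
    intro e
    have : eO i p a' = b' := eO_a p f1' h3' pa' k3
    rw [he, ← e, qb] at this
    rw [← this, ← e] at c2
    exact lt_asymm c1 c2
  have hab2 : a ≠ b' := by
    intro e
    have : eO i p b' = a' := eO_b p hbi' k3 pb' f1'
    rw [he, ← e, qa] at this
    exact hba' this
  have haa' : a ≠ a' := by
    intro e
    have : eO i p a' = b' := eO_a p f1' h3' pa' k3
    rw [he, ← e, qa] at this
    exact hbb this
  have sb1 : p b ≠ i := fun e => hba' (by rw [ha', ← e, h.inv])
  have sb2 : p b ≠ i + 1 := fun e => hbb (by rw [hb', ← e, h.inv])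
  have sb : p b = a := by
    rw [← qb, ← he]
    exact (eO_other p hbi f2 sb1 sb2).symm
  have sa : p a = b := by rw [← sb, h.inv]
  have hta : a ≠ t := by intro e; rw [← e] at ht; exact absurd (pa.symm.trans ht) (Ne.symm f1)
  have htb : b ≠ t := by intro e; rw [← e] at ht; exact absurd (pb.symm.trans ht) (Ne.symm f2)
  have n1 := hπ.nc i (i + 1) (by omega)
  have n2 := hπ.nc b i
  have n3 := hπ.nc (i + 1) a
  have n4 := hπ.nc a (i + 1)
  rw [← ha, ← hb] at n1
  rw [pb] at n2
  rw [← hb, pa] at n3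
  rw [pa, ← hb] at n4
  have n1' := h.nc i (i + 1) (by omega)
  have n2' := h.nc b' i
  have n3' := h.nc (i + 1) a
  have n4' := h.nc (i + 1) b
  have n5' := h.nc a (i + 1)
  have n6' := h.nc b (i + 1)
  have n7' := h.nc b' a
  have n8' := h.nc b' b
  have n9' := h.nc a b'
  have n10' := h.nc b b'
  rw [← ha', ← hb'] at n1'
  rw [pb'] at n2' n7' n8'
  rw [← hb', sa] at n3'
  rw [← hb', sb] at n4'
  rw [sa, ← hb'] at n5'
  rw [sb, ← hb'] at n6'
  rw [sa] at n7'
  rw [sb] at n8'
  rw [sa, pb'] at n9'
  rw [sb, pb'] at n10'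
  clear c1 c2 qa qb pa pb pa' pb' sa sb ht ht' sb1 sb2 he htt
  cases hl1 : labO π i <;> cases hl2 : labO π (i + 1) <;> cases hl3 : labO p i <;>
    cases hl4 : labO p (i + 1) <;> rw [hl1] at m1 h1 <;> rw [hl2] at m2 h2 <;>
    rw [hl3] at m1' k1 <;> rw [hl4] at m2' k2 <;> simp at m1 m2 m1' m2' h1 h2 k1 k2 <;>
    split_ifs at hlt <;> omega

theorem OStT.valley_unique (hπ : NCO N π) (h : NCO N p) {i : ℕ} (hi : i + 1 < N)
    (h1 : opO π i = false) (h2 : opO π (i + 1) = true) (f2 : π (i + 1) ≠ i + 1)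
    (k1 : opO p i = false) (k2 : opO p (i + 1) = true) (k3 : p (i + 1) ≠ i + 1)
    (he : eO i p = eO i π) : p = π := by
  have l1 := OStT.valley_le hπ h hi h1 h2 f2 k1 k2 k3 he
  have l2 := OStT.valley_le h hπ hi k1 k2 k3 h1 h2 f2 he.symm
  have h3 := OStT.valley_ne hπ (by omega) h1
  have f1 : π i ≠ i := ne_of_op_false hπ (by omega) h1
  have f1' : p i ≠ i := ne_of_op_false h (by omega) k1
  have hbN : π (i + 1) < N := hπ.lt (i + 1) hi
  have hbN' : p (i + 1) < N := h.lt (i + 1) hi
  have hb : p (i + 1) = π (i + 1) := by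
    split_ifs at l1 l2 <;> omega
  have hbi : π (i + 1) ≠ i := fun e => h3 (by have := hπ.inv (i + 1); rwa [e] at this)
  have ha : p i = π i := by
    have e1 := eO_b π hbi f2 (hπ.inv (i + 1)) f1
    have e2 := eO_b p (x := p (i + 1)) (by rw [hb]; exact hbi) (by rw [hb]; exact f2)
      (h.inv (i + 1)) f1'
    rw [hb, he, e1] at e2
    exact e2.symm
  funext x
  by_cases x1 : x = i
  · rw [x1, ha]
  by_cases x2 : x = i + 1
  · rw [x2, hb]
  by_cases x3 : x = π i
  · rw [x3, hπ.inv, ← ha, h.inv]
  by_cases x4 : x = π (i + 1)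
  · rw [x4, hπ.inv, ← hb, h.inv]
  · have y1 : p x ≠ i := fun e => x3 (by rw [← ha, ← e, h.inv])
    have y2 : p x ≠ i + 1 := fun e => x4 (by rw [← hb, ← e, h.inv])
    have y3 : π x ≠ i := fun e => x3 (by rw [← e, hπ.inv])
    have y4 : π x ≠ i + 1 := fun e => x4 (by rw [← e, hπ.inv])
    rw [← eO_other p x1 x2 y1 y2, ← eO_other π x1 x2 y3 y4, he]

/-- Among the preimages under `e_i` of `e_i π`, where `π` has a valley at `i` away from the through
line, the state `π` is the only one of minimal total length. -/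
theorem totO_lt (hπ : NCO N π) {i : ℕ} (hi : i + 1 < N) (h1 : opO π i = false)
    (h2 : opO π (i + 1) = true) (h3 : π (i + 1) ≠ i + 1) (h : NCO N p) (he : eO i p = eO i π)
    (hne : p ≠ π) : totO N π < totO N p := by
  have e1 : totO N (eO i π) = totO N π + 4 := by
    rcases OStT.totO_cases hπ hi with ⟨_, _, _, h4⟩ | ⟨h4, _⟩
    · exact h4
    · exact absurd ⟨h1, h2, h3⟩ h4
  rcases OStT.totO_cases h hi with ⟨k1, k2, k3, _⟩ | ⟨_, h4⟩
  · exact absurd (OStT.valley_unique hπ h hi h1 h2 h3 k1 k2 k3 he) hne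
  · rw [he, e1] at h4
    omega

theorem OStT.nco_iter (h : NCO N p) (k : ℕ) : NCO N ((rotP N)^[k] p) := by
  induction k with
  | zero => exact h
  | succ k ih => rw [Function.iterate_succ_apply']; exact ih.rotP

theorem OStT.opO_iter (h : NCO N p) (k : ℕ) {x : ℕ} (hx : x < N) :
    opO ((rotP N)^[k] p) x = opO p ((x + k) % N) := by
  induction k generalizing x with
  | zero => rw [Nat.add_zero, Nat.mod_eq_of_lt hx]; rfl
  | succ k ih =>
    rw [Function.iterate_succ_apply', opO_rotP (OStT.nco_iter h k) hx]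
    split_ifs with hN
    · rw [ih (by omega)]
      congr 1
      rw [show x + (k + 1) = N + k by omega, Nat.add_mod_left, Nat.zero_add]
    · rw [ih (by omega)]
      congr 1
      rw [show x + 1 + k = x + (k + 1) by omega]

theorem OStT.rot_back (h : NCO N p) (k : ℕ) : ∃ k', p = (rotP N)^[k'] ((rotP N)^[k] p) := by
  have hfix : Function.IsFixedPt ((rotP N)^[N]) p := rotO_iterate h
  have h2 : ((rotP N)^[N])^[k] p = p := hfix.iterate k
  have hN : 0 < N := by have := h.thr_lt; omega
  refine ⟨(N - 1) * k, ?_⟩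
  rw [← Function.iterate_add_apply]
  rw [← Function.iterate_mul] at h2
  rw [show (N - 1) * k + k = N * k by
    obtain ⟨n, rfl⟩ := Nat.exists_eq_add_of_lt hN
    simp only [Nat.zero_add, Nat.add_sub_cancel]
    ring]
  exact h2.symm

/-- Up to a rotation a state is completely nested or has a valley (a closing followed by an
opening which is not the through line) away from the seam. -/
theorem nested_or_valleyO {n : ℕ} (h : NCO (2 * n + 1) p) :
    (∃ k, p = (rotP (2 * n + 1))^[k] (nestO n)) ∨
      ∃ k p', NCO (2 * n + 1) p' ∧ p = (rotP (2 * n + 1))^[k] p' ∧ ∃ i, i + 1 < 2 * n + 1 ∧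
        opO p' i = false ∧ opO p' (i + 1) = true ∧ p' (i + 1) ≠ i + 1 := by
  rcases Nat.eq_zero_or_pos n with hm | hm
  · subst hm
    exact Or.inl ⟨0, nco_one h⟩
  -- a rotation such that the seam is at a peak
  obtain ⟨k, hk0, hk1⟩ : ∃ k, opO ((rotP (2 * n + 1))^[k] p) 0 = false ∧
      opO ((rotP (2 * n + 1))^[k] p) (2 * n) = true := by
    obtain ⟨x, y, hx, hy, hx1, hy1⟩ : ∃ x y, x < 2 * n + 1 ∧ y < 2 * n + 1 ∧ opO p x = true ∧
        opO p y = false := by
      obtain ⟨w, hw, hw2⟩ : ∃ w < 2 * n + 1, p w ≠ w := by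
        by_contra hcon
        push Not at hcon
        have h0 := (h.eq_thr_iff (x := 0) (by omega)).1 (hcon 0 (by omega))
        have h1 := (h.eq_thr_iff (x := 1) (by omega)).1 (hcon 1 (by omega))
        omega
      have h0 := opO_partner h hw hw2
      have h1 := h.lt w hw
      cases hc : opO p w
      · exact ⟨p w, w, h1, hw, by rw [h0, hc]; rfl, hc⟩
      · exact ⟨w, p w, hw, h1, hc, by rw [h0, hc]; rfl⟩
    obtain ⟨z, _, _, hz1, hz2⟩ := QStC.exists_valley (f := fun t => !opO p (t % (2 * n + 1)))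
      (x := x) (y := y + (2 * n + 1)) (by omega)
      (by simp only [Nat.mod_eq_of_lt hx, hx1]; rfl)
      (by simp only [Nat.add_mod_right, Nat.mod_eq_of_lt hy, hy1]; rfl)
    refine ⟨z + 1, ?_, ?_⟩
    · rw [OStT.opO_iter h _ (by omega), Nat.zero_add]
      simpa using hz2
    · rw [OStT.opO_iter h _ (by omega), show 2 * n + (z + 1) = z + (2 * n + 1) by omega,
        Nat.add_mod_right]
      simpa using hz1
  set s1 := (rotP (2 * n + 1))^[k] p with hs1
  have hA : NCO (2 * n + 1) s1 := OStT.nco_iter h k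
  obtain ⟨k', hk'⟩ := OStT.rot_back h k
  rw [← hs1] at hk'
  by_cases hne : s1 = nestO n
  · left
    exact ⟨k', by rw [← hne]; exact hk'⟩
  right
  refine ⟨k', s1, hA, hk', ?_⟩
  obtain ⟨i, j, hij, hj, hi1, hj1⟩ := exists_op_clO hA hne
  have hi0 : 0 < i := by
    rcases Nat.eq_zero_or_pos i with h0 | h0
    · rw [h0, hk0] at hi1; exact absurd hi1 (by decide)
    · exact h0
  have hjN : j < 2 * n := by
    rcases Nat.lt_or_ge j (2 * n) with h0 | h0
    · exact h0
    · rw [show j = 2 * n by omega, hk1] at hj1; exact absurd hj1 (by decide)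
  obtain ⟨y, _, hy2, hy3, hy4⟩ := QStC.exists_valley hi0 hk0 hi1
  obtain ⟨z, hz1, hz2, hz3, hz4⟩ := QStC.exists_valley hjN hj1 hk1
  by_cases hy : s1 (y + 1) = y + 1
  · by_cases hz : s1 (z + 1) = z + 1
    · exfalso
      have e1 := (hA.eq_thr_iff (by omega)).1 hy
      have e2 := (hA.eq_thr_iff (by omega)).1 hz
      omega
    · exact ⟨z, by omega, hz3, hz4, hz⟩
  · exact ⟨y, by omega, hy3, hy4, hy⟩

end Pool.Agent.Perc
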