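import Pool.Agent.Lib.MP_6bd702_zc.Pre
import Pool.Agent.Lib.MP_6bd702_z.Z076
import Pool.Agent.Lib.MP_6bd702_z.Z074
import Pool.Agent.Lib.MP_6bd702_zc.Y004

section Partperc3DWo1

/-!
# The double wheel space in an odd number of variables: uniqueness (task DWo1)

Model: the last theorem of perq/DWB.lean (`DW.restrict`, `DW.eq_minPoly` hold for every number of
variables) and the last part of perq/DWF.lean.
-/

set_option autoImplicit false

namespace Pool.Agent.Perc

open Finset MvPolynomial

variable {q : ℂ} {n : ℕ} {p : ℕ → ℕ} {P : MvPolynomial ℕ ℂ}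

theorem eval_minPoly_of_neO (hq : q ^ 2 + q + 1 = 0) (h : NCO (2 * n + 1) p)
    (hne : p ≠ nestO n) : eval (zptO q p) (minPoly q (2 * n + 1)) = 0 := by
  have _ := hq
  obtain ⟨i, j, hij, hj, h1, h2⟩ := exists_op_clO h hne
  refine DWF.eval_eq_zero hij hj ?_
  unfold zptO
  rw [if_pos h1, if_neg (by rw [h2]; simp), mul_one]

namespace DWo1

/-- The product polynomial does not vanish at points without the forbidden ratio. -/
theorem eval_minPoly_ne_zero {L : ℕ} {z : ℕ → ℂ}
    (h : ∀ i j, i < j → j < L → z i ≠ q ^ 2 * z j) : eval z (minPoly q L) ≠ 0 := by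
  unfold minPoly
  rw [map_prod, Finset.prod_ne_zero_iff]
  intro j hj
  rw [map_prod, Finset.prod_ne_zero_iff]
  intro i hi
  rw [mem_range] at hi hj
  rw [map_sub, map_mul, eval_X, eval_X, eval_C]
  exact sub_ne_zero.2 (h i j hi hj)

end DWo1

theorem eval_minPoly_nestO (hq : q ^ 2 + q + 1 = 0) (n : ℕ) :
    eval (zptO q (nestO n)) (minPoly q (2 * n + 1)) ≠ 0 := by
  have hq0 := WheelA.q_ne_zero hq
  have hq1 := WheelC.q_ne_one hq
  have hq3 := WheelA.q_cube hq
  apply DWo1.eval_minPoly_ne_zero
  intro i j hij hj h1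
  unfold zptO at h1
  rw [opO_nestO, opO_nestO] at h1
  by_cases hi : n ≤ i
  · rw [if_pos (by rw [decide_eq_true_eq]; omega), if_pos (by rw [decide_eq_true_eq]; omega)] at h1
    apply hq1
    linear_combination q ^ 2 * h1 - q * hq3 + (q ^ 3 + 1) * hq3
  · rw [if_neg (by rw [decide_eq_true_eq]; omega)] at h1
    by_cases hj' : n ≤ j
    · rw [if_pos (by rw [decide_eq_true_eq]; omega)] at h1
      apply hq1
      linear_combination (-1) * h1 - q * hq3
    · rw [if_neg (by rw [decide_eq_true_eq]; omega)] at h1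
      apply hq1
      linear_combination hq3 + q * h1

/-- A polynomial of the space is determined by its values at the odd states. -/
theorem DW.eq_zeroO (hq : q ^ 2 + q + 1 = 0) (h : DW q (2 * n + 1) P)
    (h0 : ∀ p, NCO (2 * n + 1) p → eval (zptO q p) P = 0) : P = 0 := by
  classical
  have hq0 := WheelA.q_ne_zero hq
  have hq1 := WheelC.q_ne_one hq
  have hq3 := WheelA.q_cube hq
  induction n generalizing P with
  | zero =>
    obtain ⟨c, hc⟩ := h.eq_minPoly hq (fun i hi => absurd hi (by omega))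
    have h1 := h0 _ (nco_nestO 0)
    rw [hc, map_mul, eval_C] at h1
    rcases mul_eq_zero.1 h1 with h2 | h2
    · rw [hc, h2]
      simp
    · exact absurd h2 (eval_minPoly_nestO hq 0)
  | succ n ih =>
    have hN : 2 * (n + 1) + 1 = 2 * n + 1 + 2 := by ring
    rw [hN] at h h0
    have hres : ∀ (P : MvPolynomial ℕ ℂ), DW q (2 * n + 1 + 2) P → ∀ i ≤ 2 * n + 1,
        (∀ p, NCO (2 * n + 1) p → eval (zptO q (insArc i p)) P = 0) →
        ∀ z : ℕ → ℂ, z i = q ^ 2 * z (i + 1) → eval z P = 0 := by
      intro P hP i hi h1 z hz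
      obtain ⟨R, hR, hPR⟩ := hP.restrict hq hi
      have hR0 : R = 0 := by
        apply ih hR
        intro p hp
        have h2 := hPR 1 (zptO q p)
        simp only [mul_one, one_mul] at h2
        rw [← zptO_insArc q hp hi, h1 p hp, prod_zptO hq hp] at h2
        rcases mul_eq_zero.1 h2.symm with h3 | h3
        · exfalso
          refine mul_ne_zero (by norm_num) (pow_ne_zero _ (mul_ne_zero (by norm_num) hq0)) h3
        · exact h3
      have h2 := hPR (z (i + 1)) (fun k => z (WheelA.sh i k))
      rw [← WheelC.eq_insV hz, hR0, map_zero, mul_zero] at h2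
      exact h2
    obtain ⟨c, hc⟩ := h.eq_minPoly hq (fun i hi => hres P h i (by omega)
      (fun p hp => h0 _ (hp.insArc (by omega))))
    obtain ⟨Q, hQ, hPQ⟩ := h.exists_rot hq
    have h1 := hres Q hQ 0 (by omega) (fun p hp => by
      rw [hPQ, ← zptO_rotP q (hp.insArc (by omega))]
      exact h0 _ (hp.insArc (by omega)).rotP)
    -- the value at the seam
    have h2 := h1 (fun k => if k = 0 then q ^ 2 else 1) (by simp)
    rw [hPQ, hc, map_mul, eval_C] at h2
    rcases mul_eq_zero.1 h2 with h3 | h3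
    · rw [hc, h3]
      simp
    · exfalso
      refine DWo1.eval_minPoly_ne_zero ?_ h3
      intro i j hi hj
      have h4 : rotV (2 * n + 1 + 2) (fun k => if k = 0 then q ^ 2 else 1) i = 1 := by
        unfold rotV
        rw [if_pos (by omega)]
        exact if_neg (by omega)
      rw [h4]
      by_cases hj2 : j + 1 = 2 * n + 1 + 2
      · have h5 : rotV (2 * n + 1 + 2) (fun k => if k = 0 then q ^ 2 else 1) j = q ^ 2 := by
          unfold rotV
          rw [if_neg (by omega), if_pos hj2]
          exact if_pos rfl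
        rw [h5]
        intro h6
        apply hq1
        linear_combination (-1) * h6 - q * hq3
      · have h5 : rotV (2 * n + 1 + 2) (fun k => if k = 0 then q ^ 2 else 1) j = 1 := by
          unfold rotV
          rw [if_pos (by omega)]
          exact if_neg (by omega)
        rw [h5]
        intro h6
        apply hq1
        linear_combination hq3 + q * h6

end Pool.Agent.Perc

end Partperc3DWo1

section Partperc3DWo2

/-!
# The double wheel space in an odd number of variables: values of `E_i P` (task DWo2)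

Model: perq/DWV.lean.
-/

set_option autoImplicit false

namespace Pool.Agent.Perc

open Finset MvPolynomial

variable {q : ℂ} {n : ℕ} {P Q : MvPolynomial ℕ ℂ}

namespace DWo2

open DWV (Rel q_ne_one q_ne_zero q_cube q2_ne_one exists_prod_ne eq_of_mul_prod insV_of_lt
  insV_self insV_succ insV_of_gt swapV_def rotV_swapV rotV_of_lt case_eq)

/-- the arc of i+1 and i+2 -/
theorem case_succ (hq : q ^ 2 + q + 1 = 0) (h : DW q (2 * n + 1 + 2) P)
    (hQ : DW q (2 * n + 1 + 2) Q) {i : ℕ} (hi : i + 1 ≤ 2 * n + 1) (hR : Rel q i P Q) {s : ℕ → ℕ}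
    (hs : NCO (2 * n + 1) s) :
    eval (zptO q (insArc (i + 1) s)) Q = eval (zptO q (insArc i s)) P := by
  obtain ⟨RQ, hRQ, hRQ'⟩ := hQ.restrict hq (i := i + 1) (by omega)
  obtain ⟨RP, hRP, hRP'⟩ := h.restrict hq (i := i) (by omega)
  have hRR : RQ = RP := by
    apply eq_of_mul_prod (2 * n + 1) i q (q_ne_one hq)
    intro z hz
    apply mul_left_cancel₀ hz
    rw [← mul_assoc, ← mul_assoc, ← hRQ' (z i) z, ← hRP' (z i) z]
    have h1 := hR (insV (i + 1) (q ^ 2 * z i) (z i) z)
    rw [insV_self, insV_of_lt (by omega)] at h1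
    have h2 : swapV i (insV (i + 1) (q ^ 2 * z i) (z i) z) = insV i (q ^ 2 * z i) (z i) z := by
      funext k
      rw [swapV_def]
      split_ifs with h3 h4
      · rw [h3, insV_self, insV_self]
      · rw [h4, insV_succ, insV_of_lt (by omega)]
      · by_cases h5 : k < i
        · rw [insV_of_lt (by omega), insV_of_lt h5]
        · by_cases h6 : k = i + 2
          · subst h6
            rw [insV_succ, insV_of_gt (by omega)]
            simp
          · rw [insV_of_gt (by omega), insV_of_gt (by omega)]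
    rw [h2] at h1
    have h4 : z i - q ^ 2 * z i ≠ 0 := by
      have h5 : z i - q ^ 2 * z i = z i * (1 - q ^ 2) := by ring
      rw [h5]
      exact mul_ne_zero hz (sub_ne_zero.2 (Ne.symm (q2_ne_one hq)))
    apply mul_left_cancel₀ h4
    rw [h1]
    linear_combination ((q - 1) * z i * eval (insV i (q ^ 2 * z i) (z i) z) P) * hq +
      ((q ^ 2 - q) * z i * eval (insV (i + 1) (q ^ 2 * z i) (z i) z) P) * hq
  have e1 := zptO_insArc q hs (i := i + 1) (by omega)
  have e2 := zptO_insArc q hs (i := i) (by omega)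
  have e3 := hRQ' 1 (zptO q s)
  have e4 := hRP' 1 (zptO q s)
  rw [mul_one, ← e1] at e3
  rw [mul_one, ← e2] at e4
  rw [e3, e4, hRR]

/-- the arc of i-1 and i -/
theorem case_pred (hq : q ^ 2 + q + 1 = 0) (h : DW q (2 * n + 1 + 2) P)
    (hQ : DW q (2 * n + 1 + 2) Q) {i : ℕ} (hi : i + 1 ≤ 2 * n + 1) (hR : Rel q (i + 1) P Q)
    {s : ℕ → ℕ} (hs : NCO (2 * n + 1) s) :
    eval (zptO q (insArc i s)) Q = eval (zptO q (insArc (i + 1) s)) P := by
  obtain ⟨RQ, hRQ, hRQ'⟩ := hQ.restrict hq (i := i) (by omega)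
  obtain ⟨RP, hRP, hRP'⟩ := h.restrict hq (i := i + 1) (by omega)
  have hc := q_cube hq
  have hRR : RQ = RP := by
    apply eq_of_mul_prod (2 * n + 1) i (q ^ 2) (q2_ne_one hq)
    intro z hz
    have f1 := hRQ' (q * z i) z
    have f2 := hRP' (q * z i) z
    have f3 : ∀ k, z k - q * (q * z i) = z k - q ^ 2 * z i := fun k => by ring
    have f4 : q ^ 2 * (q * z i) = z i := by linear_combination (z i) * hc
    simp only [f3, f4] at f1 f2
    apply mul_left_cancel₀ (mul_ne_zero (q_ne_zero hq) hz)
    rw [← mul_assoc, ← mul_assoc, ← f1, ← f2]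
    have h1 := hR (insV i (z i) (q * z i) z)
    rw [insV_succ, insV_of_gt (by omega)] at h1
    have f5 : i + 1 + 1 - 2 = i := by omega
    rw [f5] at h1
    have h2 : swapV (i + 1) (insV i (z i) (q * z i) z) = insV (i + 1) (z i) (q * z i) z := by
      funext k
      rw [swapV_def]
      split_ifs with h3 h4
      · rw [h3, insV_of_gt (by omega), f5, insV_self]
      · rw [h4, insV_succ, insV_succ]
      · by_cases h5 : k < i
        · rw [insV_of_lt (by omega), insV_of_lt (by omega)]
        · by_cases h6 : k = i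
          · subst h6
            rw [insV_self, insV_of_lt (by omega)]
          · rw [insV_of_gt (by omega), insV_of_gt (by omega)]
    rw [h2] at h1
    have h4 : q * z i - z i ≠ 0 := by
      have h5 : q * z i - z i = z i * (q - 1) := by ring
      rw [h5]
      exact mul_ne_zero hz (sub_ne_zero.2 (q_ne_one hq))
    apply mul_left_cancel₀ h4
    rw [h1]
    linear_combination ((1 - q) * z i * eval (insV (i + 1) (z i) (q * z i) z) P) * hq
  have e1 := zptO_insArc q hs (i := i) (by omega)
  have e2 := zptO_insArc q hs (i := i + 1) (by omega)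
  have e3 := hRQ' 1 (zptO q s)
  have e4 := hRP' 1 (zptO q s)
  rw [mul_one, ← e1] at e3
  rw [mul_one, ← e2] at e4
  rw [e3, e4, hRR]

/-- the arcs which do not meet `i`, `i + 1` -/
theorem case_far (hq : q ^ 2 + q + 1 = 0) (h : DW q (2 * n + 1 + 2) P)
    (hQ : DW q (2 * n + 1 + 2) Q) {i i' k : ℕ} (hk : k ≤ 2 * n + 1) (hi' : i' + 1 < 2 * n + 1)
    (hik : (i + 1 < k ∧ i' = i) ∨ (k + 2 ≤ i ∧ i' = i - 2)) (hR : Rel q i P Q)
    (ih : ∀ P' Q' : MvPolynomial ℕ ℂ, DW q (2 * n + 1) P' → DW q (2 * n + 1) Q' → Rel q i' P' Q' →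
      ∀ s, NCO (2 * n + 1) s → eval (zptO q s) Q' = eval (zptO q (eO i' s)) P')
    {s : ℕ → ℕ} (hs : NCO (2 * n + 1) s) :
    eval (zptO q (insArc k s)) Q = eval (zptO q (insArc k (eO i' s))) P := by
  obtain ⟨RQ, hRQ, hRQ'⟩ := hQ.restrict hq (i := k) (by omega)
  obtain ⟨RP, hRP, hRP'⟩ := h.restrict hq (i := k) (by omega)
  have hrel : Rel q i' RP RQ := by
    intro z
    obtain ⟨v, hv⟩ := exists_prod_ne hq (2 * n + 1) z
    have h1 := hR (insV k (q ^ 2 * v) v z)
    have e1 : insV k (q ^ 2 * v) v z i = z i' := by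
      rcases hik with ⟨h2, rfl⟩ | ⟨h2, rfl⟩
      · rw [insV_of_lt (by omega)]
      · rw [insV_of_gt (by omega)]
    have e2 : insV k (q ^ 2 * v) v z (i + 1) = z (i' + 1) := by
      rcases hik with ⟨h2, rfl⟩ | ⟨h2, rfl⟩
      · rw [insV_of_lt (by omega)]
      · rw [insV_of_gt (by omega)]
        congr 1
        omega
    have e3 : swapV i (insV k (q ^ 2 * v) v z) = insV k (q ^ 2 * v) v (swapV i' z) := by
      funext l
      rw [swapV_def]
      by_cases h3 : l < k
      · rw [insV_of_lt h3 _ _ (swapV i' z), swapV_def, e1, e2]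
        rcases hik with ⟨h2, rfl⟩ | ⟨h2, rfl⟩
        · split_ifs <;> first | rfl | (rw [insV_of_lt (by omega)])
        · rw [if_neg (by omega), if_neg (by omega), if_neg (by omega), if_neg (by omega),
            insV_of_lt h3]
      · by_cases h4 : l = k
        · subst h4
          rw [if_neg (by omega), if_neg (by omega), insV_self, insV_self]
        · by_cases h5 : l = k + 1
          · subst h5
            rw [if_neg (by omega), if_neg (by omega), insV_succ, insV_succ]
          · rw [insV_of_gt (by omega) _ _ (swapV i' z), swapV_def, e1, e2]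
            rcases hik with ⟨h2, rfl⟩ | ⟨h2, rfl⟩
            · rw [if_neg (by omega), if_neg (by omega), if_neg (by omega), if_neg (by omega),
                insV_of_gt (by omega)]
            · by_cases h6 : l = i
              · subst h6
                rw [if_pos rfl, if_pos rfl]
              · by_cases h7 : l = i + 1
                · subst h7
                  rw [if_neg (by omega), if_pos rfl, if_neg (by omega), if_pos (by omega)]
                · rw [if_neg h6, if_neg h7, if_neg (by omega), if_neg (by omega),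
                    insV_of_gt (by omega)]
    have e4 : (∏ l ∈ range (2 * n + 1), (swapV i' z l - q * v) ^ 2) =
        ∏ l ∈ range (2 * n + 1), (z l - q * v) ^ 2 := by
      have h5 : ∏ l ∈ range (2 * n + 1), (z l - q * v) ^ 2 =
          ∏ l ∈ range (2 * n + 1), (z (Equiv.swap i' (i' + 1) l) - q * v) ^ 2 := by
        symm
        refine Finset.prod_bij (fun l _ => Equiv.swap i' (i' + 1) l) ?_ ?_ ?_ ?_
        · intro l hl
          rw [mem_range] at hl ⊢
          rw [Equiv.swap_apply_def]
          split_ifs <;> omega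
        · intro a _ b _ hab
          exact (Equiv.swap i' (i' + 1)).injective hab
        · intro b hb
          refine ⟨Equiv.swap i' (i' + 1) b, ?_, Equiv.swap_apply_self _ _ _⟩
          rw [mem_range] at hb ⊢
          rw [Equiv.swap_apply_def]
          split_ifs <;> omega
        · intro l _
          rfl
      rw [h5]
      rfl
    rw [e1, e2, e3, hRQ', hRP', hRP', e4] at h1
    apply mul_left_cancel₀ hv
    linear_combination h1
  have hE : NCO (2 * n + 1) (eO i' s) := hs.eO hi'
  have e1 := zptO_insArc q hs (i := k) (by omega)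
  have e2 := zptO_insArc q hE (i := k) (by omega)
  have e3 := hRQ' 1 (zptO q s)
  have e4 := hRP' 1 (zptO q (eO i' s))
  rw [mul_one, ← e1, mul_one, prod_zptO hq hs] at e3
  rw [mul_one, ← e2, mul_one, prod_zptO hq hE] at e4
  rw [e3, e4, ih RP RQ hRP hRQ hrel s hs]

/-- a state with a small arc away from the seam -/
theorem step (hq : q ^ 2 + q + 1 = 0)
    (ih : ∀ (i : ℕ) (P' Q' : MvPolynomial ℕ ℂ), i + 1 < 2 * n + 1 → DW q (2 * n + 1) P' →
      DW q (2 * n + 1) Q' → Rel q i P' Q' →
      ∀ s, NCO (2 * n + 1) s → eval (zptO q s) Q' = eval (zptO q (eO i s)) P')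
    {i : ℕ} (hi : i + 1 < 2 * n + 1 + 2) (hP : DW q (2 * n + 1 + 2) P)
    (hQ : DW q (2 * n + 1 + 2) Q) (hR : Rel q i P Q) {k : ℕ} (hk : k ≤ 2 * n + 1) {s : ℕ → ℕ}
    (hs : NCO (2 * n + 1) s) :
    eval (zptO q (insArc k s)) Q = eval (zptO q (eO i (insArc k s))) P := by
  by_cases h1 : k = i
  · subst h1
    rw [eO_insArc_self _ hs hk, zptO_insArc q hs hk]
    exact case_eq hq hR (insV_self _ _ _ _) (insV_succ _ _ _ _)
  by_cases h2 : k = i + 1
  · subst h2
    rw [eO_insArc_succ hs.inv _]
    exact case_succ hq hP hQ hk hR hs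
  by_cases h3 : k + 1 = i
  · subst h3
    rw [eO_succ_insArc hs.inv _]
    exact case_pred hq hP hQ (by omega) hR hs
  rcases Nat.lt_or_ge (i + 1) k with h4 | h4
  · rw [eO_insArc_of_lt h4 _]
    exact case_far hq hP hQ (i' := i) hk (by omega) (Or.inl ⟨h4, rfl⟩) hR
      (fun P' Q' a b c => ih i P' Q' (by omega) a b c) hs
  · rw [eO_insArc_of_le (by omega) _]
    exact case_far hq hP hQ (i' := i - 2) hk (by omega) (Or.inr ⟨by omega, rfl⟩) hR
      (fun P' Q' a b c => ih (i - 2) P' Q' (by omega) a b c) hs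

theorem main (hq : q ^ 2 + q + 1 = 0) (n : ℕ) : ∀ (i : ℕ) (P Q : MvPolynomial ℕ ℂ),
    i + 1 < 2 * n + 1 → DW q (2 * n + 1) P → DW q (2 * n + 1) Q → Rel q i P Q →
    ∀ s, NCO (2 * n + 1) s → eval (zptO q s) Q = eval (zptO q (eO i s)) P := by
  induction n with
  | zero => intro i P Q hi; omega
  | succ n ih =>
    intro i P Q hi hP hQ hR s hs
    have hs' : NCO (2 * n + 1 + 2) s := hs
    have hP' : DW q (2 * n + 1 + 2) P := hP
    have hQ' : DW q (2 * n + 1 + 2) Q := hQ
    have hi' : i + 1 < 2 * n + 1 + 2 := hi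
    rcases hs'.exists_small' (by omega) with ⟨k, hk, h1⟩ | h1
    · obtain ⟨s₁, hs₁, rfl⟩ := hs'.exists_del' hk h1
      exact step hq ih hi' hP' hQ' hR hk hs₁
    · obtain ⟨s₁, hs₁, rfl⟩ := hs'.exists_delCup' h1
      rcases Nat.lt_or_ge (i + 2) (2 * n + 1 + 2) with h3 | h3
      · -- rotate to the left
        obtain ⟨P', hP1, hP2⟩ := hP'.exists_rot hq
        obtain ⟨Q', hQ1, hQ2⟩ := hQ'.exists_rot hq
        have hR' : Rel q (i + 1) P' Q' := by
          intro z
          have h4 := hR (rotV (2 * n + 1 + 2) z)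
          rw [rotV_of_lt (by omega), rotV_of_lt (by omega), ← rotV_swapV (by omega)] at h4
          rw [hP2, hP2, hQ2]
          exact h4
        have hins : NCO (2 * n + 1 + 2) (insArc 0 s₁) := hs₁.insArc (Nat.zero_le _)
        have h5 := step hq ih (by omega) hP1 hQ1 hR' (Nat.zero_le _) hs₁
        rw [hP2, hQ2, ← zptO_rotP q hins, ← zptO_rotP q (hins.eO (by omega)),
          rotO_eO hins (by omega), rotO_insArc_zero hs₁] at h5
        exact h5
      · -- rotate to the right
        obtain ⟨j, rfl⟩ : ∃ j, i = j + 1 := ⟨i - 1, by omega⟩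
        obtain ⟨P', hP1, hP2⟩ := hP'.exists_rot_iterate hq (2 * n + 1 + 1)
        obtain ⟨Q', hQ1, hQ2⟩ := hQ'.exists_rot_iterate hq (2 * n + 1 + 1)
        have hrr : ∀ z, (rotV (2 * n + 1 + 2))^[2 * n + 1 + 1] (rotV (2 * n + 1 + 2) z) = z := by
          intro z
          exact (Function.iterate_succ_apply (rotV (2 * n + 1 + 2)) (2 * n + 1 + 1) z).symm.trans
            (rotV_iterate (2 * n + 1 + 2) z)
        have hrr' : ∀ z, rotV (2 * n + 1 + 2) ((rotV (2 * n + 1 + 2))^[2 * n + 1 + 1] z) = z := by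
          intro z
          exact (Function.iterate_succ_apply' (rotV (2 * n + 1 + 2)) (2 * n + 1 + 1) z).symm.trans
            (rotV_iterate (2 * n + 1 + 2) z)
        have hP3 : ∀ z, eval (rotV (2 * n + 1 + 2) z) P' = eval z P := by
          intro z
          rw [hP2, hrr]
        have hQ3 : ∀ z, eval (rotV (2 * n + 1 + 2) z) Q' = eval z Q := by
          intro z
          rw [hQ2, hrr]
        have hR' : Rel q j P' Q' := by
          intro w
          obtain ⟨z, rfl⟩ : ∃ z, w = rotV (2 * n + 1 + 2) z := ⟨_, (hrr' w).symm⟩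
          have h4 := hR z
          rw [rotV_of_lt (by omega), rotV_of_lt (by omega), ← rotV_swapV (by omega), hP3, hP3,
            hQ3]
          exact h4
        have h5 := step hq ih (i := j) (by omega) hP1 hQ1 hR' (le_refl (2 * n + 1)) hs₁
        rw [← rotO_cupO hs₁, ← rotO_eO hs' (by omega), zptO_rotP q hs',
          zptO_rotP q (hs'.eO hi'), hP3, hQ3] at h5
        exact h5

end DWo2

theorem DW.eval_EO (hq : q ^ 2 + q + 1 = 0) (h : DW q (2 * n + 1) P) (h' : DW q (2 * n + 1) Q)
    {i : ℕ} (hi : i + 1 < 2 * n + 1)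
    (hE : ∀ z, (z i - z (i + 1)) * eval z Q =
      (q * z (i + 1) - q ^ 2 * z i) * eval (swapV i z) P -
        (q * z i - q ^ 2 * z (i + 1)) * eval z P)
    {p : ℕ → ℕ} (hp : NCO (2 * n + 1) p) : eval (zptO q p) Q = eval (zptO q (eO i p)) P :=
  DWo2.main hq n i P Q hi h h' hE p hp

end Pool.Agent.Perc

end Partperc3DWo2
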