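import Pool.Agent.Lib.MP_6bd702_zc.Pre
import Pool.Agent.Lib.MP_6bd702_z.Z076
import Pool.Agent.Lib.MP_6bd702_zc.Y011
import Pool.Agent.Lib.MP_6bd702_zc.Y012
import Pool.Agent.Lib.MP_6bd702_z.Z098

section Partperc3DWo3

/-!
# The double wheel space in an odd number of variables: the dual basis (task DWo3)

Model: perq/DWG.lean.
-/

set_option autoImplicit false

namespace Pool.Agent.Perc

open Finset MvPolynomial

namespace DWo3

open DWG (dw_zero dw_add dw_smul)

variable {q : ℂ} {n N : ℕ} {P Q : MvPolynomial ℕ ℂ}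

/-- the function `f` of the state is given by the evaluations of a polynomial of the space -/
def Rep (q : ℂ) (n : ℕ) (f : (ℕ → ℕ) → ℂ) : Prop :=
  ∃ P, DW q (2 * n + 1) P ∧ ∀ p, NCO (2 * n + 1) p → eval (zptO q p) P = f p

lemma Rep.zero : Rep q n (fun _ => 0) := ⟨0, dw_zero, fun s _ => by simp⟩

lemma Rep.add {f g : (ℕ → ℕ) → ℂ} (hf : Rep q n f) (hg : Rep q n g) :
    Rep q n (fun s => f s + g s) := by
  obtain ⟨P, hP, hPf⟩ := hf
  obtain ⟨Q, hQ, hQg⟩ := hg
  exact ⟨P + Q, dw_add hP hQ, fun s hs => by rw [map_add, hPf s hs, hQg s hs]⟩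

lemma Rep.smul {f : (ℕ → ℕ) → ℂ} (c : ℂ) (hf : Rep q n f) : Rep q n (fun s => c * f s) := by
  obtain ⟨P, hP, hPf⟩ := hf
  exact ⟨C c * P, dw_smul c hP, fun s hs => by rw [map_mul, hPf s hs, eval_C]⟩

lemma Rep.sum {ι : Type*} (S : Finset ι) {f : ι → (ℕ → ℕ) → ℂ} (hf : ∀ x ∈ S, Rep q n (f x)) :
    Rep q n (fun s => ∑ x ∈ S, f x s) := by
  classical
  induction S using Finset.induction_on with
  | empty => simpa using Rep.zero
  | insert a S ha ih =>
    have h1 := (hf a (mem_insert_self a S)).add (ih fun x hx => hf x (mem_insert_of_mem hx))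
    simpa only [sum_insert ha] using h1

lemma Rep.congr {f g : (ℕ → ℕ) → ℂ} (hf : Rep q n f)
    (hfg : ∀ s, NCO (2 * n + 1) s → f s = g s) : Rep q n g := by
  obtain ⟨P, hP, hPf⟩ := hf
  exact ⟨P, hP, fun s hs => by rw [hPf s hs, hfg s hs]⟩

lemma Rep.comp_eO (hq : q ^ 2 + q + 1 = 0) {f : (ℕ → ℕ) → ℂ} (hf : Rep q n f) {i : ℕ}
    (hi : i + 1 < 2 * n + 1) : Rep q n (fun s => f (eO i s)) := by
  obtain ⟨P, hP, hPf⟩ := hf
  obtain ⟨Q, hQ, hE⟩ := hP.exists_E hq hi
  exact ⟨Q, hQ, fun s hs => by rw [DW.eval_EO hq hP hQ hi hE hs, hPf _ (hs.eO hi)]⟩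

lemma Rep.comp_rotP (hq : q ^ 2 + q + 1 = 0) {f : (ℕ → ℕ) → ℂ} (hf : Rep q n f) :
    Rep q n (fun s => f (rotP (2 * n + 1) s)) := by
  obtain ⟨P, hP, hPf⟩ := hf
  obtain ⟨Q, hQ, hQe⟩ := hP.exists_rot hq
  refine ⟨Q, hQ, fun s hs => ?_⟩
  rw [hQe, ← zptO_rotP q hs, hPf _ hs.rotP]

lemma nco_iterate {s : ℕ → ℕ} (hs : NCO N s) (k : ℕ) : NCO N ((rotP N)^[k] s) := by
  induction k with
  | zero => exact hs
  | succ k ih =>
    rw [Function.iterate_succ_apply']
    exact ih.rotP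

lemma Rep.comp_iterate (hq : q ^ 2 + q + 1 = 0) {f : (ℕ → ℕ) → ℂ} (hf : Rep q n f) (k : ℕ) :
    Rep q n (fun s => f ((rotP (2 * n + 1))^[k] s)) := by
  induction k with
  | zero => exact hf
  | succ k ih =>
    have := ih.comp_rotP hq
    simpa only [Function.iterate_succ_apply] using this

lemma iterate_mul {s : ℕ → ℕ} (hs : NCO N s) (k : ℕ) : (rotP N)^[N * k] s = s := by
  induction k with
  | zero => rfl
  | succ k ih =>
    rw [Nat.mul_succ, Function.iterate_add_apply, rotO_iterate hs, ih]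

lemma iterate_inj (k : ℕ) : ∀ {s s' : ℕ → ℕ}, NCO N s → NCO N s' →
    (rotP N)^[k] s = (rotP N)^[k] s' → s = s' := by
  induction k with
  | zero => exact fun _ _ h => h
  | succ k ih =>
    intro s s' hs hs' h
    rw [Function.iterate_succ_apply', Function.iterate_succ_apply'] at h
    exact ih hs hs' (rotP_injO (nco_iterate hs k) (nco_iterate hs' k) h)

/-- rotations can be inverted by rotations -/
lemma exists_inv {s₀ : ℕ → ℕ} (h₀ : NCO (2 * n + 1) s₀) (k : ℕ) :
    ∃ j, ∀ s, NCO (2 * n + 1) s →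
      (s = (rotP (2 * n + 1))^[k] s₀ ↔ (rotP (2 * n + 1))^[j] s = s₀) := by
  refine ⟨k * (2 * n), fun s hs => ?_⟩
  have e : k * (2 * n) + k = (2 * n + 1) * k := by ring
  constructor
  · intro h
    rw [h, ← Function.iterate_add_apply, e, iterate_mul h₀]
  · intro h
    refine iterate_inj (k * (2 * n)) hs (nco_iterate h₀ k) ?_
    rw [h, ← Function.iterate_add_apply, e, iterate_mul h₀]

open Classical in
lemma rep_rot (hq : q ^ 2 + q + 1 = 0) {s₀ : ℕ → ℕ} (h₀ : NCO (2 * n + 1) s₀)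
    (h : Rep q n (fun s => if s = s₀ then 1 else 0)) (k : ℕ) :
    Rep q n (fun s => if s = (rotP (2 * n + 1))^[k] s₀ then 1 else 0) := by
  obtain ⟨j, hj⟩ := exists_inv h₀ k
  refine (h.comp_iterate hq j).congr fun s hs => ?_
  by_cases hs' : s = (rotP (2 * n + 1))^[k] s₀
  · rw [if_pos hs', if_pos ((hj s hs).1 hs')]
  · rw [if_neg hs', if_neg (fun h => hs' ((hj s hs).2 h))]

open Classical in
lemma rep_nest (hq : q ^ 2 + q + 1 = 0) :
    Rep q n (fun s => if s = nestO n then 1 else 0) := by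
  have hc := eval_minPoly_nestO hq n
  have h1 : Rep q n (fun s => eval (zptO q s) (minPoly q (2 * n + 1))) :=
    ⟨minPoly q (2 * n + 1), dw_minPoly hq _, fun s _ => rfl⟩
  refine (h1.smul (eval (zptO q (nestO n)) (minPoly q (2 * n + 1)))⁻¹).congr fun s hs => ?_
  by_cases hss : s = nestO n
  · rw [if_pos hss, hss, inv_mul_cancel₀ hc]
  · rw [if_neg hss, eval_minPoly_of_neO hq hs hss, mul_zero]

open Classical in
lemma rep_delta (hq : q ^ 2 + q + 1 = 0) : ∀ (m : ℕ) {s : ℕ → ℕ}, NCO (2 * n + 1) s →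
    (2 * n + 1) * (2 * n + 1) - totO (2 * n + 1) s = m →
      Rep q n (fun s' => if s' = s then 1 else 0) := by
  intro m
  induction m using Nat.strong_induction_on with
  | _ m ih =>
  intro s hs hn
  rcases nested_or_valleyO hs with ⟨k, rfl⟩ | ⟨k, π, hπ, rfl, i, hi, h1, h2, h3⟩
  · exact rep_rot hq (nco_nestO n) (rep_nest hq) k
  · refine rep_rot hq hπ ?_ k
    have htot : ∀ k, totO (2 * n + 1) ((rotP (2 * n + 1))^[k] π) = totO (2 * n + 1) π := by
      intro k
      induction k with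
      | zero => rfl
      | succ k ih =>
        rw [Function.iterate_succ_apply', totO_rotP (nco_iterate hπ k), ih]
    rw [htot k] at hn
    -- states of larger total length
    have hIH : ∀ s', NCO (2 * n + 1) s' → totO (2 * n + 1) π < totO (2 * n + 1) s' →
        Rep q n (fun s'' => if s'' = s' then 1 else 0) := by
      intro s' hs' hlt
      have := totO_le (2 * n + 1) hs'
      exact ih _ (by omega) hs' rfl
    have hne : eO i π ≠ π := by
      intro h
      have h4 := OStA.eO_left i π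
      rw [h] at h4
      exact OStT.valley_ne hπ (by omega) h1 h4
    have hf := (hIH (eO i π) (hπ.eO hi) (totO_lt hπ hi h1 h2 h3 (hπ.eO hi)
      (eO_idem hπ.inv i) hne)).comp_eO hq hi
    set S : Finset (ℕ → ℕ) := (finite_nco (2 * n + 1)).toFinset.filter
      (fun s' => s' ≠ π ∧ eO i s' = eO i π) with hS
    have hrest : ∀ s' ∈ S, Rep q n (fun s'' => if s'' = s' then 1 else 0) := by
      intro s' hs'
      rw [hS, mem_filter, Set.Finite.mem_toFinset] at hs'
      obtain ⟨hnc, hne', he⟩ := hs'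
      exact hIH s' hnc (totO_lt hπ hi h1 h2 h3 hnc he hne')
    refine (hf.add ((Rep.sum S hrest).smul (-1))).congr fun s' hs' => ?_
    by_cases hpp : s' = π
    · subst hpp
      have h0 : ∑ x ∈ S, (if s' = x then (1 : ℂ) else 0) = 0 := by
        refine sum_eq_zero fun x hx => ?_
        rw [hS, mem_filter] at hx
        rw [if_neg (fun e => hx.2.1 e.symm)]
      simp [h0]
    · by_cases he : eO i s' = eO i π
      · have hmem : s' ∈ S := by
          rw [hS, mem_filter, Set.Finite.mem_toFinset]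
          exact ⟨hs', hpp, he⟩
        have h0 : ∑ x ∈ S, (if s' = x then (1 : ℂ) else 0) = 1 := by
          rw [sum_ite_eq, if_pos hmem]
        rw [h0, if_pos he, if_neg hpp]
        ring
      · have hmem : s' ∉ S := by
          rw [hS, mem_filter]
          exact fun h => he h.2.2
        have h0 : ∑ x ∈ S, (if s' = x then (1 : ℂ) else 0) = 0 := by
          rw [sum_ite_eq, if_neg hmem]
        rw [h0, if_neg he, if_neg hpp]
        ring

end DWo3

open Classical in
theorem exists_dualO {q : ℂ} (hq : q ^ 2 + q + 1 = 0) {n : ℕ} {p : ℕ → ℕ}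
    (hp : NCO (2 * n + 1) p) : ∃ P, DW q (2 * n + 1) P ∧
      ∀ p', NCO (2 * n + 1) p' → eval (zptO q p') P = if p' = p then 1 else 0 :=
  DWo3.rep_delta hq _ hp rfl

end Pool.Agent.Perc

end Partperc3DWo3

section Partperc3PsiODefs

/-!
# The polynomial solution for odd circumference: definitions
-/

set_option autoImplicit false

namespace Pool.Agent.Perc

open Finset MvPolynomial

open Classical in
/-- The component of the solution at the odd state `p` of `2 n + 1` sites (zero if `p` is not a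
state). -/
noncomputable def PsiO (q : ℂ) (n : ℕ) (p : ℕ → ℕ) : MvPolynomial ℕ ℂ :=
  if h : q ^ 2 + q + 1 = 0 ∧ NCO (2 * n + 1) p then (exists_dualO h.1 h.2).choose else 0

/-- The finite set of odd states. -/
noncomputable def nco (N : ℕ) : Finset (ℕ → ℕ) := (finite_nco N).toFinset

theorem mem_nco {N : ℕ} {p : ℕ → ℕ} : p ∈ nco N ↔ NCO N p := by
  rw [nco, Set.Finite.mem_toFinset]; rfl

/-- The vector `Ψ(z)` of odd size. -/
noncomputable def PsiOV (q : ℂ) (n : ℕ) (z : ℕ → ℂ) : (ℕ → ℕ) →₀ ℂ :=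
  ∑ p ∈ nco (2 * n + 1), Finsupp.single p (eval z (PsiO q n p))

/-- Vectors supported on the odd states. -/
def SuppO (N : ℕ) (f : (ℕ → ℕ) →₀ ℂ) : Prop := ∀ p, f p ≠ 0 → NCO N p

end Pool.Agent.Perc

end Partperc3PsiODefs

section Partperc3PsiOA

/-!
# The solution for odd circumference: exchange relation (task PsiOA)

Model: perq/PsiSA.lean.
-/

set_option autoImplicit false

namespace Pool.Agent.Perc

open Finset MvPolynomial

variable {q : ℂ} {n : ℕ} {p : ℕ → ℕ}

theorem dw_PsiO (hq : q ^ 2 + q + 1 = 0) (n : ℕ) (p : ℕ → ℕ) :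
    DW q (2 * n + 1) (PsiO q n p) := by
  classical
  unfold PsiO
  split_ifs with h
  · exact (exists_dualO h.1 h.2).choose_spec.1
  · exact dw_zero

open Classical in
theorem eval_zptO_PsiO (hq : q ^ 2 + q + 1 = 0) (hp : NCO (2 * n + 1) p) {p' : ℕ → ℕ}
    (h : NCO (2 * n + 1) p') : eval (zptO q p') (PsiO q n p) = if p' = p then 1 else 0 := by
  unfold PsiO
  rw [dif_pos ⟨hq, hp⟩]
  exact (exists_dualO hq hp).choose_spec.2 p' h

/-- Expansion in the dual basis. -/
theorem DW.eq_sum_PsiO (hq : q ^ 2 + q + 1 = 0) {P : MvPolynomial ℕ ℂ}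
    (h : DW q (2 * n + 1) P) :
    P = ∑ p ∈ nco (2 * n + 1), C (eval (zptO q p) P) * PsiO q n p := by
  classical
  rw [← sub_eq_zero]
  have hneg : P - ∑ p ∈ nco (2 * n + 1), C (eval (zptO q p) P) * PsiO q n p =
      P + C (-1) * ∑ p ∈ nco (2 * n + 1), C (eval (zptO q p) P) * PsiO q n p := by
    rw [C_neg, C_1, neg_one_mul, sub_eq_add_neg]
  have hDW : DW q (2 * n + 1)
      (P - ∑ p ∈ nco (2 * n + 1), C (eval (zptO q p) P) * PsiO q n p) := by
    rw [hneg]
    exact h.add ((DW.sum _ _ fun p _ => (dw_PsiO hq n p).smul _).smul _)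
  refine hDW.eq_zeroO hq ?_
  intro p hp
  rw [map_sub, map_sum, Finset.sum_eq_single p]
  · rw [map_mul, eval_C, eval_zptO_PsiO hq hp hp, if_pos rfl, mul_one, sub_self]
  · intro π hπ hne
    rw [map_mul, eval_zptO_PsiO hq (mem_nco.mp hπ) hp, if_neg (fun h => hne h.symm), mul_zero]
  · intro hp'
    exact absurd (mem_nco.mpr hp) hp'

theorem PsiOV_apply (z : ℕ → ℂ) (hp : NCO (2 * n + 1) p) :
    PsiOV q n z p = eval z (PsiO q n p) := by
  classical
  unfold PsiOV
  rw [Finsupp.finsetSum_apply, Finset.sum_eq_single p]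
  · rw [Finsupp.single_eq_same]
  · intro b _ hb
    rw [Finsupp.single_eq_of_ne (Ne.symm hb)]
  · intro h
    exact absurd (mem_nco.mpr hp) h

theorem PsiOV_apply_of_not (z : ℕ → ℂ) (hp : ¬ NCO (2 * n + 1) p) : PsiOV q n z p = 0 := by
  classical
  unfold PsiOV
  rw [Finsupp.finsetSum_apply]
  refine Finset.sum_eq_zero fun b hb => ?_
  rw [Finsupp.single_eq_of_ne]
  rintro rfl
  exact hp (mem_nco.mp hb)

theorem PsiOV_congr (hq : q ^ 2 + q + 1 = 0) {z z' : ℕ → ℂ} (h : ∀ k < 2 * n + 1, z k = z' k) :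
    PsiOV q n z = PsiOV q n z' := by
  unfold PsiOV
  refine Finset.sum_congr rfl fun p _ => ?_
  rw [(dw_PsiO hq n p).eval_congr h]

theorem suppO_PsiOV (q : ℂ) (n : ℕ) (z : ℕ → ℂ) : SuppO (2 * n + 1) (PsiOV q n z) := by
  intro p h
  by_contra hp
  exact h (PsiOV_apply_of_not z hp)

theorem degreeOf_PsiO_out (hq : q ^ 2 + q + 1 = 0) (n : ℕ) (p : ℕ → ℕ) {k : ℕ}
    (hk : 2 * n + 1 ≤ k) : (PsiO q n p).degreeOf k = 0 :=
  (dw_PsiO hq n p).out k hk

theorem degreeOf_PsiO_le (hq : q ^ 2 + q + 1 = 0) (n : ℕ) (p : ℕ → ℕ) (k : ℕ) :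
    (PsiO q n p).degreeOf k ≤ 2 * n := by
  by_cases hk : k < 2 * n + 1
  · rw [degreeOf_eq_sup]
    refine Finset.sup_le fun d hd => ?_
    have h := (dw_PsiO hq n p).maj d hd {k} (by simpa using hk)
    simpa using h
  · rw [(dw_PsiO hq n p).out k (by omega)]
    exact Nat.zero_le _

namespace PsiOA

/-- Coefficients of the push-forward. -/
theorem mapDomain_PsiOV {α : Type} (q : ℂ) (n : ℕ) (z : ℕ → ℂ) (f : (ℕ → ℕ) → α) :
    (PsiOV q n z).mapDomain f =
      ∑ p ∈ nco (2 * n + 1), Finsupp.single (f p) (eval z (PsiO q n p)) := by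
  unfold PsiOV
  rw [Finsupp.mapDomain_finsetSum]
  exact Finset.sum_congr rfl fun π _ => Finsupp.mapDomain_single

open Classical in
theorem mapDomain_PsiOV_apply {α : Type} (q : ℂ) (n : ℕ) (z : ℕ → ℂ) (f : (ℕ → ℕ) → α) (s : α) :
    (PsiOV q n z).mapDomain f s =
      ∑ p ∈ nco (2 * n + 1), (if f p = s then eval z (PsiO q n p) else 0) := by
  rw [mapDomain_PsiOV, Finsupp.finsetSum_apply]
  refine Finset.sum_congr rfl fun p _ => ?_
  rw [Finsupp.single_apply]

open Classical in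
/-- A push-forward, evaluated by a polynomial of the space with prescribed values. -/
theorem eval_eq_mapDomain {α : Type} (hq : q ^ 2 + q + 1 = 0) {Q : MvPolynomial ℕ ℂ}
    (hQ : DW q (2 * n + 1) Q) (f : (ℕ → ℕ) → α) (s : α) (c : ℂ)
    (h : ∀ p, NCO (2 * n + 1) p → eval (zptO q p) Q = if f p = s then c else 0) (z : ℕ → ℂ) :
    eval z Q = c * (PsiOV q n z).mapDomain f s := by
  conv_lhs => rw [hQ.eq_sum_PsiO hq]
  rw [map_sum, mapDomain_PsiOV_apply, Finset.mul_sum]
  refine Finset.sum_congr rfl fun p hp => ?_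
  rw [map_mul, eval_C, h p (mem_nco.mp hp)]
  split_ifs <;> simp

theorem mapDomain_apply_zero {α : Type} (z : ℕ → ℂ) (f : (ℕ → ℕ) → α) (s : α)
    (h : ∀ p, NCO (2 * n + 1) p → f p ≠ s) : (PsiOV q n z).mapDomain f s = 0 := by
  classical
  rw [mapDomain_PsiOV_apply]
  refine Finset.sum_eq_zero fun p hp => ?_
  rw [if_neg (h p (mem_nco.mp hp))]

/-- Push-forwards along two maps which agree on the odd states. -/
theorem mapDomain_congr_nco {α : Type} (z : ℕ → ℂ) {f g : (ℕ → ℕ) → α}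
    (h : ∀ p, NCO (2 * n + 1) p → f p = g p) :
    (PsiOV q n z).mapDomain f = (PsiOV q n z).mapDomain g := by
  rw [mapDomain_PsiOV, mapDomain_PsiOV]
  exact Finset.sum_congr rfl fun p hp => by rw [h p (mem_nco.mp hp)]

end PsiOA

open PsiOA

/-- Exchange relation. -/
theorem exchangeO (hq : q ^ 2 + q + 1 = 0) {i : ℕ} (hi : i + 1 < 2 * n + 1) (z : ℕ → ℂ) :
    (q * z (i + 1) - q ^ 2 * z i) • PsiOV q n (swapV i z) =
      (q * z i - q ^ 2 * z (i + 1)) • PsiOV q n z +
        (z i - z (i + 1)) • (PsiOV q n z).mapDomain (eO i) := by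
  classical
  ext s
  rw [Finsupp.add_apply, Finsupp.smul_apply, Finsupp.smul_apply, Finsupp.smul_apply,
    smul_eq_mul, smul_eq_mul, smul_eq_mul]
  by_cases hs : NCO (2 * n + 1) s
  · rw [PsiOV_apply _ hs, PsiOV_apply _ hs]
    obtain ⟨Q, hQ, h1⟩ := (dw_PsiO hq n s).exists_E hq hi
    have h3 : eval z Q = 1 * (PsiOV q n z).mapDomain (eO i) s :=
      eval_eq_mapDomain hq hQ (eO i) s 1 (fun p hp => by
        rw [(dw_PsiO hq n s).eval_EO hq hQ hi h1 hp, eval_zptO_PsiO hq hs (hp.eO hi)]) z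
    rw [one_mul] at h3
    rw [← h3]
    have h4 := h1 z
    linear_combination -h4
  · rw [PsiOV_apply_of_not _ hs, PsiOV_apply_of_not _ hs, mapDomain_apply_zero z (eO i) s]
    · ring
    · rintro p hp rfl
      exact hs (hp.eO hi)

end Pool.Agent.Perc

end Partperc3PsiOA

section Partperc3PsiOB

/-!
# The solution for odd circumference: rotation, insertion, seam (task PsiOB)

Model: perq/PsiSB.lean, `PsiSV_seam` of perq/PsiMA.lean. (`put2` is defined in perq/PsiMA.lean.)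
-/

set_option autoImplicit false

namespace Pool.Agent.Perc

open Finset MvPolynomial

variable {q : ℂ} {n : ℕ}

open PsiOA in
theorem PsiOV_rot (hq : q ^ 2 + q + 1 = 0) (n : ℕ) (z : ℕ → ℂ) :
    PsiOV q n (rotV (2 * n + 1) z) = (PsiOV q n z).mapDomain (rotP (2 * n + 1)) := by
  classical
  ext s
  by_cases hs : NCO (2 * n + 1) s
  · rw [PsiOV_apply _ hs]
    obtain ⟨Q, hQ, h1⟩ := (dw_PsiO hq n s).exists_rot hq
    rw [← h1 z, eval_eq_mapDomain hq hQ (rotP (2 * n + 1)) s 1 (fun p hp => ?_) z, one_mul]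
    rw [h1, ← zptO_rotP q hp, eval_zptO_PsiO hq hs hp.rotP]
  · rw [PsiOV_apply_of_not _ hs, mapDomain_apply_zero]
    rintro p hp rfl
    exact hs hp.rotP

open PsiOA in
theorem PsiOV_insV (hq : q ^ 2 + q + 1 = 0) (n : ℕ) {i : ℕ} (hi : i ≤ 2 * n + 1) (v : ℂ)
    (z : ℕ → ℂ) : PsiOV q (n + 1) (insV i (q ^ 2 * v) v z) =
      (v * (∏ k ∈ range (2 * n + 1), (z k - q * v) ^ 2) / (-3 * (9 * q) ^ n)) •
        (PsiOV q n z).mapDomain (insArc i) := by
  classical
  have hq0 := PsiSB.q_ne_zero hq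
  have h3 : (-3 * (9 * q) ^ n : ℂ) ≠ 0 :=
    mul_ne_zero (by norm_num) (pow_ne_zero _ (mul_ne_zero (by norm_num) hq0))
  ext s
  rw [Finsupp.smul_apply, smul_eq_mul]
  by_cases hs : NCO (2 * (n + 1) + 1) s
  · rw [PsiOV_apply _ hs]
    obtain ⟨R, hR, h1⟩ := DW.restrict (m := 2 * n + 1) hq (dw_PsiO hq (n + 1) s) (i := i) hi
    rw [h1 v z, eval_eq_mapDomain hq hR (insArc i) s (1 / (-3 * (9 * q) ^ n)) (fun p hp => ?_) z]
    · ring
    · have h4 := h1 1 (zptO q p)
      rw [mul_one, mul_one, one_mul, ← zptO_insArc q hp hi, prod_zptO hq hp] at h4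
      rw [eval_zptO_PsiO hq hs (hp.insArc hi)] at h4
      rw [eq_comm, mul_comm] at h4
      rw [eq_div_of_mul_eq h3 h4]
      split_ifs <;> simp
  · rw [PsiOV_apply_of_not _ hs, mapDomain_apply_zero, mul_zero]
    rintro p hp rfl
    exact hs (hp.insArc hi)

/-- Recursion at the seam. -/
theorem PsiOV_seam (hq : q ^ 2 + q + 1 = 0) (n : ℕ) (v : ℂ) (z : ℕ → ℂ) :
    PsiOV q (n + 1) (put2 (2 * n + 2) v (q ^ 2 * v) z) =
      (v * (∏ k ∈ range (2 * n + 1), (z k - q * v) ^ 2) / (-3 * (9 * q) ^ n)) •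
        (PsiOV q n z).mapDomain (cupO (2 * n + 1)) := by
  have hN : 2 * (n + 1) + 1 = 2 * n + 1 + 2 := by ring
  have h1 : ∀ k < 2 * (n + 1) + 1, put2 (2 * n + 2) v (q ^ 2 * v) z k =
      rotV (2 * (n + 1) + 1) (insV 0 (q ^ 2 * v) v z) k := by
    intro k hk
    unfold put2 rotV insV
    by_cases c1 : k = 0
    · subst c1
      rw [if_pos rfl, if_pos (by omega), if_neg (by omega), if_neg (by omega), if_pos (by omega)]
    · by_cases c2 : k < 2 * n + 2
      · rw [if_neg c1, if_pos c2, if_pos (by omega), if_neg (by omega), if_neg (by omega),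
          if_neg (by omega)]
        congr 1
      · rw [if_neg c1, if_neg c2, if_pos (by omega), if_neg (by omega), if_pos (by omega),
          if_neg (by omega), if_pos rfl]
  rw [PsiOV_congr hq h1, PsiOV_rot hq, PsiOV_insV hq n (Nat.zero_le _), Finsupp.mapDomain_smul,
    ← Finsupp.mapDomain_comp]
  congr 1
  refine PsiOA.mapDomain_congr_nco z fun p hp => ?_
  change rotP (2 * (n + 1) + 1) (insArc 0 p) = cupO (2 * n + 1) p
  rw [hN, rotO_insArc_zero hp]

/-- The component of the nested state. -/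
theorem eval_PsiO_nestO (hq : q ^ 2 + q + 1 = 0) (n : ℕ) (z : ℕ → ℂ) :
    eval z (PsiO q n (nestO n)) =
      (∏ j ∈ range (2 * n + 1), ∏ i ∈ range j, (z i - q ^ 2 * z j)) /
        eval (zptO q (nestO n)) (minPoly q (2 * n + 1)) := by
  have hc := eval_minPoly_nestO hq n
  have h1 := (dw_minPoly hq (2 * n + 1)).eq_sum_PsiO hq
  rw [Finset.sum_eq_single (nestO n)] at h1
  · have h2 := congrArg (eval z) h1
    rw [PsiSB.eval_minPoly, map_mul, eval_C] at h2
    rw [h2, mul_div_cancel_left₀ _ hc]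
  · intro s hs hne
    rw [eval_minPoly_of_neO hq (mem_nco.mp hs) hne, C_0, zero_mul]
  · intro h
    exact absurd (mem_nco.mpr (nco_nestO n)) h

theorem PsiOV_zero (hq : q ^ 2 + q + 1 = 0) (z : ℕ → ℂ) :
    PsiOV q 0 z = Finsupp.single (nestO 0) 1 := by
  have h1 : nco (2 * 0 + 1) = {nestO 0} := by
    ext s
    rw [mem_nco, Finset.mem_singleton]
    exact ⟨fun h => nco_one h, fun h => h ▸ nco_nestO 0⟩
  unfold PsiOV
  rw [h1, Finset.sum_singleton, eval_PsiO_nestO hq, PsiSB.eval_minPoly]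
  simp

namespace PsiOB

theorem prod_rotV (m : ℕ) (z : ℕ → ℂ) (g : ℂ → ℂ) :
    ∏ k ∈ range (2 * m), g (rotV (2 * m) z k) = ∏ k ∈ range (2 * m), g (z k) := by
  rcases Nat.eq_zero_or_pos (2 * m) with h | h
  · rw [h]; simp
  · obtain ⟨N, hN⟩ : ∃ N, 2 * m = N + 1 := ⟨2 * m - 1, by omega⟩
    rw [hN, Finset.prod_range_succ, Finset.prod_range_succ' (fun k => g (z k))]
    congr 1
    · refine Finset.prod_congr rfl fun k hk => ?_
      have hk := mem_range.mp hk
      unfold rotV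
      rw [if_pos (by omega)]
    · unfold rotV
      rw [if_neg (by omega), if_pos (by omega)]

theorem cont_rotV (N k : ℕ) : Continuous fun z : ℕ → ℂ => rotV N z k := by
  unfold rotV
  split_ifs
  · exact continuous_apply _
  · exact continuous_apply _
  · exact continuous_apply _

end PsiOB

/-- The reciprocal even solution and the rotation. -/
theorem PsiMV_rot (hq : q ^ 2 + q + 1 = 0) (m : ℕ) (z : ℕ → ℂ) :
    PsiMV q m (rotV (2 * m) z) = (PsiMV q m z).mapDomain (rotL (2 * m)) := by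
  ext s
  refine PsiMA.ext_ne (F := fun z => PsiMV q m (rotV (2 * m) z) s)
    (G := fun z => ((PsiMV q m z).mapDomain (rotL (2 * m))) s) ?_ ?_ ?_ z
  · exact PsiMA.cont_PsiMV (PsiOB.cont_rotV (2 * m)) s
  · exact PsiMA.cont_mapDomain (fun k => continuous_apply k) _ s
  · intro z hz
    have hz' : ∀ k < 2 * m, rotV (2 * m) z k ≠ 0 := by
      intro k _
      unfold rotV
      split_ifs
      · exact hz _
      · exact hz _
      · exact hz _
    have hinv : (fun k => (rotV (2 * m) z k)⁻¹) = rotV (2 * m) fun k => (z k)⁻¹ := by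
      funext k
      unfold rotV
      split_ifs <;> rfl
    show PsiMV q m (rotV (2 * m) z) s = (PsiMV q m z).mapDomain (rotL (2 * m)) s
    rw [PsiMV_eq hq m hz', PsiMV_eq hq m (fun k _ => hz k), hinv, PsiSV_rot hq,
      Finsupp.mapDomain_smul, PsiOB.prod_rotV m z (fun x => x ^ (2 * m - 1))]

end Pool.Agent.Perc

end Partperc3PsiOB
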