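import Pool.Agent.Lib.MP_6bd702_zc.Pre
import Pool.Agent.Lib.MP_6bd702_zc.Y006
import Pool.Agent.Lib.MP_6bd702_zc.Y005
import Pool.Agent.Lib.MP_6bd702_zc.Y010
import Pool.Agent.Lib.MP_6bd702_zc.Y013
import Pool.Agent.Lib.MP_6bd702_z.Z098
import Pool.Agent.Lib.MP_6bd702_zc.Y003
import Pool.Agent.Lib.MP_6bd702_z.Z099

section Partperc3TriE

/-!
# The bilinear forms (task TriE)

Model: perq/PairE.lean.
-/

set_option autoImplicit false

namespace Pool.Agent.Perc

open Finset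

variable {n : ℕ}

/-- The form with three upper `D`-sites. -/
noncomputable def V3 (n : ℕ) (f : St →₀ ℂ) (g : (ℕ → ℕ) →₀ ℂ) : ℂ :=
  ∑ s ∈ anns n, ∑ p ∈ nco (n + 3), f s * g p * B3 n s p

/-- The form with two upper and one lower `D`-site. -/
noncomputable def V2 (n : ℕ) (f : St →₀ ℂ) (g : (ℕ → ℕ) →₀ ℂ) : ℂ :=
  ∑ s ∈ anns (n + 1), ∑ p ∈ nco (n + 2), f s * g p * B2 n s p

/-! ## Vectors supported on odd states -/

namespace TriE

theorem supp_subset {N : ℕ} {f : (ℕ → ℕ) →₀ ℂ} (hf : SuppO N f) : f.support ⊆ nco N := by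
  intro s hs
  rw [mem_nco]
  exact hf s (Finsupp.mem_support_iff.1 hs)

theorem supp_map {N M : ℕ} {f : (ℕ → ℕ) →₀ ℂ} (hf : SuppO N f) {φ : (ℕ → ℕ) → (ℕ → ℕ)}
    (hφ : ∀ s, NCO N s → NCO M (φ s)) : SuppO M (f.mapDomain φ) := by
  classical
  intro s hs
  have h1 : s ∈ (f.mapDomain φ).support := Finsupp.mem_support_iff.2 hs
  obtain ⟨t, ht, rfl⟩ := Finset.mem_image.1 (Finsupp.mapDomain_support h1)
  exact hφ t (hf t (Finsupp.mem_support_iff.1 ht))

/-- Sums over the odd states of a push-forward. -/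
theorem sum_map {N M : ℕ} {f : (ℕ → ℕ) →₀ ℂ} (hf : SuppO N f) {φ : (ℕ → ℕ) → (ℕ → ℕ)}
    (hφ : ∀ s, NCO N s → NCO M (φ s)) (h : (ℕ → ℕ) → ℂ) :
    ∑ s ∈ nco M, f.mapDomain φ s * h s = ∑ s ∈ nco N, f s * h (φ s) := by
  have h1 : (f.mapDomain φ).sum (fun s c => c * h s) = f.sum fun s c => c * h (φ s) :=
    Finsupp.sum_mapDomain_index (fun b => by simp) (fun b m₁ m₂ => by ring)
  rw [Finsupp.sum_of_support_subset _ (supp_subset (supp_map hf hφ)) _
    (fun s _ => by simp),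
    Finsupp.sum_of_support_subset _ (supp_subset hf) _ (fun s _ => by simp)] at h1
  exact h1

/-- A general bilinear form. -/
noncomputable def W (N M : ℕ) (K : St → (ℕ → ℕ) → ℂ) (f : St →₀ ℂ) (g : (ℕ → ℕ) →₀ ℂ) : ℂ :=
  ∑ s ∈ anns N, ∑ p ∈ nco M, f s * g p * K s p

variable {N M : ℕ} {K : St → (ℕ → ℕ) → ℂ}

theorem W_add_left (f f' : St →₀ ℂ) (g : (ℕ → ℕ) →₀ ℂ) :
    W N M K (f + f') g = W N M K f g + W N M K f' g := by
  unfold W
  rw [← sum_add_distrib]
  refine sum_congr rfl fun s' _ => ?_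
  rw [← sum_add_distrib]
  refine sum_congr rfl fun s _ => ?_
  rw [Finsupp.add_apply]
  ring

theorem W_add_right (f : St →₀ ℂ) (g g' : (ℕ → ℕ) →₀ ℂ) :
    W N M K f (g + g') = W N M K f g + W N M K f g' := by
  unfold W
  rw [← sum_add_distrib]
  refine sum_congr rfl fun s' _ => ?_
  rw [← sum_add_distrib]
  refine sum_congr rfl fun s _ => ?_
  rw [Finsupp.add_apply]
  ring

theorem W_smul_left (c : ℂ) (f : St →₀ ℂ) (g : (ℕ → ℕ) →₀ ℂ) :
    W N M K (c • f) g = c * W N M K f g := by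
  unfold W
  rw [mul_sum]
  refine sum_congr rfl fun s' _ => ?_
  rw [mul_sum]
  refine sum_congr rfl fun s _ => ?_
  rw [Finsupp.smul_apply, smul_eq_mul]
  ring

theorem W_smul_right (c : ℂ) (f : St →₀ ℂ) (g : (ℕ → ℕ) →₀ ℂ) :
    W N M K f (c • g) = c * W N M K f g := by
  unfold W
  rw [mul_sum]
  refine sum_congr rfl fun s' _ => ?_
  rw [mul_sum]
  refine sum_congr rfl fun s _ => ?_
  rw [Finsupp.smul_apply, smul_eq_mul]
  ring

/-- Push-forward of the first vector. -/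
theorem W_map_left {N' : ℕ} {f : St →₀ ℂ} (hf : SuppA N f) {φ : St → St}
    (hφ : ∀ s, IsAnn N s → IsAnn N' (φ s)) (g : (ℕ → ℕ) →₀ ℂ) :
    W N' M K (f.mapDomain φ) g = W N M (fun s p => K (φ s) p) f g := by
  unfold W
  have h1 := sum_mapDomain hf hφ fun s' => ∑ p ∈ nco M, g p * K s' p
  refine Eq.trans ?_ (h1.trans ?_)
  · refine sum_congr rfl fun s' _ => ?_
    rw [mul_sum]
    exact sum_congr rfl fun s _ => by ring
  · refine sum_congr rfl fun s' _ => ?_
    rw [mul_sum]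
    exact sum_congr rfl fun s _ => by ring

/-- Push-forward of the second vector. -/
theorem W_map_right {M' : ℕ} {g : (ℕ → ℕ) →₀ ℂ} (hg : SuppO M g) {φ : (ℕ → ℕ) → (ℕ → ℕ)}
    (hφ : ∀ s, NCO M s → NCO M' (φ s)) (f : St →₀ ℂ) :
    W N M' K f (g.mapDomain φ) = W N M (fun s p => K s (φ p)) f g := by
  unfold W
  refine sum_congr rfl fun s' _ => ?_
  have h1 := sum_map hg hφ fun s => f s' * K s' s
  refine Eq.trans ?_ (h1.trans ?_)
  · exact sum_congr rfl fun s _ => by ring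
  · exact sum_congr rfl fun s _ => by ring

theorem W_congr {K' : St → (ℕ → ℕ) → ℂ} (h : ∀ s p, IsAnn N s → NCO M p → K s p = K' s p)
    (f : St →₀ ℂ) (g : (ℕ → ℕ) →₀ ℂ) : W N M K f g = W N M K' f g := by
  unfold W
  refine sum_congr rfl fun s hs => sum_congr rfl fun p hp => ?_
  rw [h s p (mem_anns.1 hs) (mem_nco.1 hp)]

theorem W_zero (h : ∀ s p, IsAnn N s → NCO M p → K s p = 0)
    (f : St →₀ ℂ) (g : (ℕ → ℕ) →₀ ℂ) : W N M K f g = 0 := by
  unfold W
  refine sum_eq_zero fun s hs => sum_eq_zero fun p hp => ?_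
  rw [h s p (mem_anns.1 hs) (mem_nco.1 hp), mul_zero]

end TriE

open TriE

theorem SuppO.add {N : ℕ} {f g : (ℕ → ℕ) →₀ ℂ} (hf : SuppO N f) (hg : SuppO N g) :
    SuppO N (f + g) := by
  intro s hs
  by_cases h : f s = 0
  · refine hg s fun h' => hs ?_
    rw [Finsupp.add_apply, h, h', add_zero]
  · exact hf s h

theorem SuppO.smul {N : ℕ} {f : (ℕ → ℕ) →₀ ℂ} (hf : SuppO N f) (c : ℂ) : SuppO N (c • f) := by
  intro s hs
  refine hf s fun h => hs ?_
  rw [Finsupp.smul_apply, h, smul_zero]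

theorem SuppO.mapDomain {N M : ℕ} {f : (ℕ → ℕ) →₀ ℂ} (hf : SuppO N f) {φ : (ℕ → ℕ) → (ℕ → ℕ)}
    (hφ : ∀ s, NCO N s → NCO M (φ s)) : SuppO M (f.mapDomain φ) := supp_map hf hφ

theorem V3_eq (f : St →₀ ℂ) (g : (ℕ → ℕ) →₀ ℂ) : V3 n f g = W n (n + 3) (B3 n) f g := rfl

theorem V2_eq (f : St →₀ ℂ) (g : (ℕ → ℕ) →₀ ℂ) : V2 n f g = W (n + 1) (n + 2) (B2 n) f g := rfl

theorem V3_add_left (f f' : St →₀ ℂ) (g : (ℕ → ℕ) →₀ ℂ) :
    V3 n (f + f') g = V3 n f g + V3 n f' g := W_add_left f f' g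

theorem V3_add_right (f : St →₀ ℂ) (g g' : (ℕ → ℕ) →₀ ℂ) :
    V3 n f (g + g') = V3 n f g + V3 n f g' := W_add_right f g g'

theorem V3_smul_left (c : ℂ) (f : St →₀ ℂ) (g : (ℕ → ℕ) →₀ ℂ) :
    V3 n (c • f) g = c * V3 n f g := W_smul_left c f g

theorem V3_smul_right (c : ℂ) (f : St →₀ ℂ) (g : (ℕ → ℕ) →₀ ℂ) :
    V3 n f (c • g) = c * V3 n f g := W_smul_right c f g

theorem V2_add_left (f f' : St →₀ ℂ) (g : (ℕ → ℕ) →₀ ℂ) :
    V2 n (f + f') g = V2 n f g + V2 n f' g := W_add_left f f' g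

theorem V2_add_right (f : St →₀ ℂ) (g g' : (ℕ → ℕ) →₀ ℂ) :
    V2 n f (g + g') = V2 n f g + V2 n f g' := W_add_right f g g'

theorem V2_smul_left (c : ℂ) (f : St →₀ ℂ) (g : (ℕ → ℕ) →₀ ℂ) :
    V2 n (c • f) g = c * V2 n f g := W_smul_left c f g

theorem V2_smul_right (c : ℂ) (f : St →₀ ℂ) (g : (ℕ → ℕ) →₀ ℂ) :
    V2 n f (c • g) = c * V2 n f g := W_smul_right c f g

theorem V3_eL {f : St →₀ ℂ} {g : (ℕ → ℕ) →₀ ℂ} (hf : SuppA n f) (hg : SuppO (n + 3) g) {i : ℕ}
    (hi : i + 1 < n) : V3 n (f.mapDomain (eL i)) g = V3 n f (g.mapDomain (eO i)) := by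
  rw [V3_eq, V3_eq, W_map_left hf (fun s hs => hs.eL hi),
    W_map_right hg (fun s hs => hs.eO (by omega))]
  exact W_congr (fun s p hs hp => B3_eL hs hp hi) f g

theorem V2_eL {f : St →₀ ℂ} {g : (ℕ → ℕ) →₀ ℂ} (hf : SuppA (n + 1) f) (hg : SuppO (n + 2) g)
    {i : ℕ} (hi : i + 1 < n) : V2 n (f.mapDomain (eL i)) g = V2 n f (g.mapDomain (eO i)) := by
  rw [V2_eq, V2_eq, W_map_left hf (fun s hs => hs.eL (by omega)),
    W_map_right hg (fun s hs => hs.eO (by omega))]
  exact W_congr (fun s p hs hp => B2_eL hs hp hi) f g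

theorem V3_kill {f : St →₀ ℂ} {g : (ℕ → ℕ) →₀ ℂ} (hf : SuppA n f) (hg : SuppO (n + 3) g) {i : ℕ}
    (hi : i = n ∨ i = n + 1) : V3 n f (g.mapDomain (eO i)) = 0 := by
  have _ := hf
  rw [V3_eq, W_map_right hg (fun s hs => hs.eO (by omega))]
  exact W_zero (fun s p hs hp => B3_kill hs hp hi) f g

theorem V2_kill {f : St →₀ ℂ} {g : (ℕ → ℕ) →₀ ℂ} (hf : SuppA (n + 1) f) (hg : SuppO (n + 2) g) :
    V2 n f (g.mapDomain (eO n)) = 0 := by
  have _ := hf
  rw [V2_eq, W_map_right hg (fun s hs => hs.eO (by omega))]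
  exact W_zero (fun s p hs hp => B2_kill hs hp) f g

theorem V3_left {f : St →₀ ℂ} {g : (ℕ → ℕ) →₀ ℂ} (hf : SuppA (n + 1) f) (hg : SuppO (n + 2) g) :
    V3 (n + 1) f (g.mapDomain (insArc n)) = V2 n f g := by
  have _ := hf
  rw [V3_eq, V2_eq, W_map_right hg (fun s hs => hs.insArc (by omega))]
  exact W_congr (fun s p hs hp => B3_left hs hp) f g

theorem V2_left {f : St →₀ ℂ} {g : (ℕ → ℕ) →₀ ℂ} (hf : SuppA n f) (hg : SuppO (n + 3) g) :
    V2 (n + 1) (f.mapDomain (insL n)) g = V3 n f g := by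
  have _ := hg
  rw [V3_eq, V2_eq, W_map_left hf (fun s hs => hs.insL le_rfl)]
  exact W_congr (fun s p hs hp => B2_left hs hp) f g

theorem V3_seam {f : St →₀ ℂ} {g : (ℕ → ℕ) →₀ ℂ} (hf : SuppA (n + 1) f) (hg : SuppO (n + 2) g) :
    V3 (n + 1) f (g.mapDomain (cupO (n + 2))) = V2 n (f.mapDomain (rotL (n + 1))) g := by
  rw [V3_eq, V2_eq, W_map_right hg (fun s hs => hs.cupO),
    W_map_left hf (fun s hs => hs.rotL)]
  exact W_congr (fun s p hs hp => B3_seam hs hp) f g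

theorem V2_seam {f : St →₀ ℂ} {g : (ℕ → ℕ) →₀ ℂ} (hf : SuppA n f) (hg : SuppO (n + 3) g) :
    V2 (n + 1) (f.mapDomain (cupL n)) g = V3 n f (g.mapDomain (rotP (n + 3))) := by
  rw [V3_eq, V2_eq, W_map_left hf (fun s hs => hs.cupL),
    W_map_right hg (fun s hs => hs.rotP)]
  exact W_congr (fun s p hs hp => B2_seam hs hp) f g

theorem eOV_idem {N : ℕ} {g : (ℕ → ℕ) →₀ ℂ} (hg : SuppO N g) {i : ℕ} (hi : i + 1 < N) :
    (g.mapDomain (eO i)).mapDomain (eO i) = g.mapDomain (eO i) := by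
  have _ := hi
  rw [← Finsupp.mapDomain_comp]
  refine Finsupp.mapDomain_congr fun s hs => ?_
  exact eO_idem (hg s (Finsupp.mem_support_iff.1 hs)).inv i

end Pool.Agent.Perc

end Partperc3TriE

section Partperc3STDefs

/-!
# The three-leg sums: definitions
-/

set_option autoImplicit false

namespace Pool.Agent.Perc

open Finset MvPolynomial

/-- The three-leg sum with three upper `D`-sites: variables `z_0, …, z_{2m-1}, y_1, y_2, y_3`. -/
noncomputable def SS3 (q : ℂ) (m : ℕ) : MvPolynomial ℕ ℂ :=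
  ∑ s ∈ anns (2 * m), ∑ p ∈ nco (2 * m + 3), C (B3 (2 * m) s p) * PsiM q m s * PsiO q (m + 1) p

/-- The three-leg sum with two upper and one lower `D`-site (`m ≥ 1`): variables
`z_0, …, z_{2m-2}, x, y_1, y_2`. -/
noncomputable def TT2 (q : ℂ) : ℕ → MvPolynomial ℕ ℂ
  | 0 => 0
  | m + 1 => ∑ s ∈ anns (2 * m + 2), ∑ p ∈ nco (2 * m + 3), C (B2 (2 * m + 1) s p) *
      PsiM q (m + 1) s * rename (fun k => if k < 2 * m + 1 then k else k + 1) (PsiO q (m + 1) p)

/-- The constants of the two recursions. -/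
noncomputable def kO (q : ℂ) (m : ℕ) : ℂ := 1 / (-3 * (9 * q) ^ (m + 1))

/-- The constants of the two recursions. -/
noncomputable def kM (q : ℂ) (m : ℕ) : ℂ := 1 / (9 * q) ^ m

/-- The sum of the components for odd circumference. -/
noncomputable def FO (q : ℂ) (n : ℕ) : MvPolynomial ℕ ℂ := ∑ p ∈ nco (2 * n + 1), PsiO q n p

end Pool.Agent.Perc

end Partperc3STDefs

section Partperc3STA

/-!
# The three-leg sums: values, degrees, symmetry (task STA)

Exchange: multiply `exchangeM` (perq/PsiMA) and `exchangeO`; model: the symmetry of `SH` in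
perq/SHatA.lean.
-/

set_option autoImplicit false

namespace Pool.Agent.Perc

open Finset MvPolynomial

variable {q : ℂ} {m : ℕ}

theorem eval_SS3 (q : ℂ) (m : ℕ) (w : ℕ → ℂ) :
    eval w (SS3 q m) = V3 (2 * m) (PsiMV q m w) (PsiOV q (m + 1) w) := by
  unfold SS3 V3
  rw [map_sum]
  refine sum_congr rfl fun s hs => ?_
  rw [map_sum]
  refine sum_congr rfl fun p hp => ?_
  have hp' : NCO (2 * (m + 1) + 1) p := mem_nco.1 hp
  rw [map_mul, map_mul, eval_C, PsiMV_apply w (mem_anns.1 hs), PsiOV_apply w hp']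
  ring

theorem eval_TT2 (q : ℂ) (m : ℕ) (w : ℕ → ℂ) :
    eval w (TT2 q (m + 1)) =
      V2 (2 * m + 1) (PsiMV q (m + 1) w) (PsiOV q (m + 1) (skip1 (2 * m + 1) w)) := by
  unfold V2
  show eval w (∑ s ∈ anns (2 * m + 2), ∑ p ∈ nco (2 * m + 3), C (B2 (2 * m + 1) s p) *
      PsiM q (m + 1) s * rename (fun k => if k < 2 * m + 1 then k else k + 1) (PsiO q (m + 1) p)) =
    ∑ s ∈ anns (2 * m + 2), ∑ p ∈ nco (2 * m + 3), _
  rw [map_sum]
  refine sum_congr rfl fun s hs => ?_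
  rw [map_sum]
  refine sum_congr rfl fun p hp => ?_
  have hp' : NCO (2 * (m + 1) + 1) p := mem_nco.1 hp
  have hs' : IsAnn (2 * (m + 1)) s := mem_anns.1 hs
  have hw : (w ∘ fun k => if k < 2 * m + 1 then k else k + 1) = skip1 (2 * m + 1) w := by
    funext k
    unfold skip1
    show w (if k < 2 * m + 1 then k else k + 1) = _
    split_ifs <;> rfl
  rw [map_mul, map_mul, eval_C, eval_rename, hw, PsiMV_apply w hs', PsiOV_apply _ hp']
  ring

namespace STA

theorem degreeOf_PsiM_le (q : ℂ) (m k : ℕ) (s : St) : (PsiM q m s).degreeOf k ≤ 2 * m - 1 :=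
  SHatA.degreeOf_recP_le _ fun _ => le_rfl

theorem degreeOf_PsiM_out (q : ℂ) (m : ℕ) {k : ℕ} (hk : 2 * m ≤ k) (s : St) :
    (PsiM q m s).degreeOf k ≤ 0 :=
  SHatA.degreeOf_recP_le _ fun h => absurd h (by omega)

theorem degreeOf_rename_zero {f : ℕ → ℕ} {k : ℕ} (hf : ∀ x, f x ≠ k) (P : MvPolynomial ℕ ℂ) :
    (rename f P).degreeOf k ≤ 0 := by
  rw [degreeOf_eq_sup]
  refine Finset.sup_le fun d hd => ?_
  obtain ⟨u, hu, _⟩ := coeff_rename_ne_zero f P d (mem_support_iff.1 hd)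
  rw [← hu, Finsupp.mapDomain_of_notMem_range]
  rintro ⟨x, hx⟩
  exact hf x hx

/-- `PsiMV` depends only on the first `2 m` variables. -/
theorem PsiMV_congr (q : ℂ) (m : ℕ) {z z' : ℕ → ℂ} (h : ∀ k < 2 * m, z k = z' k) :
    PsiMV q m z = PsiMV q m z' := by
  unfold PsiMV
  refine sum_congr rfl fun s hs => ?_
  congr 1
  rw [eval_eq, eval_eq]
  refine Finset.sum_congr rfl fun d hd => ?_
  congr 1
  refine Finset.prod_congr rfl fun k hk => ?_
  rw [h k]
  by_contra hk'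
  have h1 := degreeOf_PsiM_out q m (k := k) (by omega) s
  have h2 := monomial_le_degreeOf k hd
  rw [Finsupp.mem_support_iff] at hk
  omega

/-- Symmetry of a polynomial from the exchange relations. -/
theorem symm_of_exch (hq : q ^ 2 + q + 1 = 0) (P : MvPolynomial ℕ ℂ) {i : ℕ}
    (h : ∀ w : ℕ → ℂ, ((q * w i - q ^ 2 * w (i + 1)) * (q * w (i + 1) - q ^ 2 * w i)) *
      (eval (swapV i w) P - eval w P) = 0) (z : ℕ → ℂ) :
    eval (swapV i z) P = eval z P := by
  have key : ∀ w : ℕ → ℂ, eval (swapV i w) P =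
      eval w (rename (Equiv.swap i (i + 1)) P) := by
    intro w
    rw [eval_rename]
    rfl
  have hp : ((C q * X i - C (q ^ 2) * X (i + 1)) * (C q * X (i + 1) - C (q ^ 2) * X i)) *
      (rename (Equiv.swap i (i + 1)) P - P) = 0 := by
    refine MvPolynomial.funext fun w => ?_
    have h := h w
    rw [key] at h
    simp only [map_mul, map_sub, eval_C, eval_X, map_zero]
    exact h
  have hne : (C q * X (i + 1) - C (q ^ 2) * X i : MvPolynomial ℕ ℂ) ≠ 0 := by
    intro h0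
    have h1 := congrArg (eval fun k => if k = i then (1 : ℂ) else 0) h0
    rw [map_sub, map_mul, map_mul, eval_C, eval_C, eval_X, eval_X, map_zero, if_pos rfl,
      if_neg (by omega : ¬ i + 1 = i), mul_zero, zero_sub, mul_one, neg_eq_zero] at h1
    exact pow_ne_zero 2 (SHatA.q_ne hq) h1
  have hne' : (C q * X i - C (q ^ 2) * X (i + 1) : MvPolynomial ℕ ℂ) ≠ 0 := by
    intro h0
    have h1 := congrArg (eval fun k => if k = i then (1 : ℂ) else 0) h0
    rw [map_sub, map_mul, map_mul, eval_C, eval_C, eval_X, eval_X, map_zero, if_pos rfl,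
      if_neg (by omega : ¬ i + 1 = i), mul_zero, sub_zero, mul_one] at h1
    exact (SHatA.q_ne hq) h1
  have h2 := sub_eq_zero.1 ((mul_eq_zero.1 hp).resolve_left (mul_ne_zero hne' hne))
  rw [key, h2]

/-- The exchange relations of the two factors give the exchange relation of the form. -/
theorem exch_form (hq : q ^ 2 + q + 1 = 0)
    (V : (St →₀ ℂ) → ((ℕ → ℕ) →₀ ℂ) → ℂ)
    (al : ∀ f f' g, V (f + f') g = V f g + V f' g) (ar : ∀ f g g', V f (g + g') = V f g + V f g')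
    (sl : ∀ c f g, V (c • f) g = c * V f g) (sr : ∀ (c : ℂ) f g, V f (c • g) = c * V f g)
    {f f₁ ef : St →₀ ℂ} {g g₁ eg : (ℕ → ℕ) →₀ ℂ} {a b : ℂ}
    (h1 : (q * a - q ^ 2 * b) • f₁ = (q * b - q ^ 2 * a) • f - (a - b) • ef)
    (h2 : (q * b - q ^ 2 * a) • g₁ = (q * a - q ^ 2 * b) • g + (a - b) • eg)
    (e1 : V ef g = V f eg) (e2 : V ef eg = V f eg) :
    ((q * a - q ^ 2 * b) * (q * b - q ^ 2 * a)) * (V f₁ g₁ - V f g) = 0 := by
  have h3 : (q * a - q ^ 2 * b) * ((q * b - q ^ 2 * a) * V f₁ g₁) =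
      V ((q * a - q ^ 2 * b) • f₁) ((q * b - q ^ 2 * a) • g₁) := by
    rw [sl, sr]
  have h1' : (q * a - q ^ 2 * b) • f₁ = (q * b - q ^ 2 * a) • f + (-(a - b)) • ef := by
    rw [h1, neg_smul, ← sub_eq_add_neg]
  rw [h1', h2, al, ar, ar, sl, sl, sl, sl, sr, sr, sr, sr, e1, e2] at h3
  rw [mul_sub, mul_assoc, h3]
  linear_combination (-(V f eg * (a - b) * (a - b))) * hq

theorem suppO_mapDomain {M N : ℕ} {g : (ℕ → ℕ) →₀ ℂ} (hg : SuppO N g) {φ : (ℕ → ℕ) → ℕ → ℕ}
    (hφ : ∀ p, NCO N p → NCO M (φ p)) : SuppO M (g.mapDomain φ) := by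
  classical
  intro p hp
  have h1 : p ∈ (g.mapDomain φ).support := Finsupp.mem_support_iff.2 hp
  obtain ⟨t, ht, rfl⟩ := Finset.mem_image.1 (Finsupp.mapDomain_support h1)
  exact hφ t (hg t (Finsupp.mem_support_iff.1 ht))

theorem swapV_left (i : ℕ) (w : ℕ → ℂ) : swapV i w i = w (i + 1) := by
  unfold swapV; rw [Equiv.swap_apply_left]

theorem swapV_right (i : ℕ) (w : ℕ → ℂ) : swapV i w (i + 1) = w i := by
  unfold swapV; rw [Equiv.swap_apply_right]

theorem swapV_other {i k : ℕ} (w : ℕ → ℂ) (h1 : k ≠ i) (h2 : k ≠ i + 1) : swapV i w k = w k := by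
  unfold swapV; rw [Equiv.swap_apply_of_ne_of_ne h1 h2]

theorem skip1_swapV {i j : ℕ} (hij : i + 1 < j) (w : ℕ → ℂ) :
    skip1 j (swapV i w) = swapV i (skip1 j w) := by
  funext k
  by_cases h1 : k = i
  · subst h1
    rw [swapV_left]
    unfold skip1
    rw [if_pos (by omega), if_pos hij, swapV_left]
  · by_cases h2 : k = i + 1
    · subst h2
      rw [swapV_right]
      unfold skip1
      rw [if_pos hij, if_pos (by omega), swapV_right]
    · rw [swapV_other _ h1 h2]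
      unfold skip1
      by_cases h3 : k < j
      · rw [if_pos h3, if_pos h3, swapV_other _ h1 h2]
      · rw [if_neg h3, if_neg h3, swapV_other _ (by omega) (by omega)]

end STA

open STA

theorem degreeOf_SS3 (hq : q ^ 2 + q + 1 = 0) (m : ℕ) :
    (SS3 q (m + 1)).degreeOf (2 * m + 2) ≤ 2 * m + 4 := by
  unfold SS3
  refine (degreeOf_sum_le _ _ _).trans (Finset.sup_le fun s _ => ?_)
  refine (degreeOf_sum_le _ _ _).trans (Finset.sup_le fun p _ => ?_)
  refine (degreeOf_mul_le _ _ _).trans ?_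
  have h1 := degreeOf_mul_le (2 * m + 2) (C (B3 (2 * (m + 1)) s p)) (PsiM q (m + 1) s)
  rw [degreeOf_C, zero_add] at h1
  have h2 := degreeOf_PsiM_out q (m + 1) (k := 2 * m + 2) (by omega) s
  have h3 := degreeOf_PsiO_le hq (m + 1 + 1) p (2 * m + 2)
  omega

theorem degreeOf_TT2 (hq : q ^ 2 + q + 1 = 0) (m : ℕ) :
    (TT2 q (m + 1)).degreeOf (2 * m + 1) ≤ 2 * m + 1 := by
  unfold TT2
  refine (degreeOf_sum_le _ _ _).trans (Finset.sup_le fun s _ => ?_)
  refine (degreeOf_sum_le _ _ _).trans (Finset.sup_le fun p _ => ?_)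
  refine (degreeOf_mul_le _ _ _).trans ?_
  have h1 := degreeOf_mul_le (2 * m + 1) (C (B2 (2 * m + 1) s p)) (PsiM q (m + 1) s)
  rw [degreeOf_C, zero_add] at h1
  have h2 := degreeOf_PsiM_le q (m + 1) (2 * m + 1) s
  have h3 := degreeOf_rename_zero (f := fun k => if k < 2 * m + 1 then k else k + 1)
    (k := 2 * m + 1) (fun x => by split_ifs <;> omega) (PsiO q (m + 1) p)
  omega

theorem symm_SS3 (hq : q ^ 2 + q + 1 = 0) (m : ℕ) {i : ℕ} (hi : i + 1 < 2 * m) (w : ℕ → ℂ) :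
    eval (swapV i w) (SS3 q m) = eval w (SS3 q m) := by
  refine symm_of_exch hq _ (fun w => ?_) w
  have hM := suppA_PsiMV q m w
  have hO : SuppO (2 * m + 3) (PsiOV q (m + 1) w) := suppO_PsiOV q (m + 1) w
  rw [eval_SS3, eval_SS3]
  refine exch_form hq (V3 (2 * m)) V3_add_left V3_add_right V3_smul_left V3_smul_right
    (exchangeM hq hi w) (exchangeO hq (n := m + 1) (i := i) (by omega) w) (V3_eL hM hO hi) ?_
  rw [V3_eL hM (suppO_mapDomain hO fun p hp => hp.eO (by omega)) hi, eOV_idem hO (by omega)]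

theorem symm_TT2 (hq : q ^ 2 + q + 1 = 0) (m : ℕ) {i : ℕ} (hi : i + 1 < 2 * m + 1) (w : ℕ → ℂ) :
    eval (swapV i w) (TT2 q (m + 1)) = eval w (TT2 q (m + 1)) := by
  refine symm_of_exch hq _ (fun w => ?_) w
  have hM : SuppA (2 * m + 1 + 1) (PsiMV q (m + 1) w) := suppA_PsiMV q (m + 1) w
  have hO : SuppO (2 * m + 1 + 2) (PsiOV q (m + 1) (skip1 (2 * m + 1) w)) :=
    suppO_PsiOV q (m + 1) _
  rw [eval_TT2, eval_TT2, skip1_swapV hi]
  have hx := exchangeO hq (n := m + 1) (i := i) (by omega) (skip1 (2 * m + 1) w)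
  have e1 : skip1 (2 * m + 1) w i = w i := by unfold skip1; rw [if_pos (by omega)]
  have e2 : skip1 (2 * m + 1) w (i + 1) = w (i + 1) := by unfold skip1; rw [if_pos hi]
  rw [e1, e2] at hx
  refine exch_form hq (V2 (2 * m + 1)) V2_add_left V2_add_right V2_smul_left V2_smul_right
    (exchangeM hq (m := m + 1) (i := i) (by omega) w) hx (V2_eL hM hO hi) ?_
  rw [V2_eL hM (suppO_mapDomain hO fun p hp => hp.eO (by omega)) hi, eOV_idem hO (by omega)]

theorem exch_SS3 (hq : q ^ 2 + q + 1 = 0) (m : ℕ) {i : ℕ} (hi : i = 2 * m ∨ i = 2 * m + 1)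
    (w : ℕ → ℂ) : (q * w (i + 1) - q ^ 2 * w i) * eval (swapV i w) (SS3 q m) =
      (q * w i - q ^ 2 * w (i + 1)) * eval w (SS3 q m) := by
  have hM := suppA_PsiMV q m w
  have hO : SuppO (2 * m + 3) (PsiOV q (m + 1) w) := suppO_PsiOV q (m + 1) w
  have hc : PsiMV q m (swapV i w) = PsiMV q m w :=
    PsiMV_congr q m fun k hk => swapV_other w (by omega) (by omega)
  rw [eval_SS3, eval_SS3, hc, ← V3_smul_right, exchangeO hq (n := m + 1) (i := i) (by omega) w,
    V3_add_right, V3_smul_right, V3_smul_right, V3_kill hM hO hi, mul_zero, add_zero]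

end Pool.Agent.Perc

end Partperc3STA

section Partperc3STB

/-!
# The three-leg sums: restrictions (task STB)
-/

set_option autoImplicit false

namespace Pool.Agent.Perc

open Finset MvPolynomial

variable {q : ℂ}

namespace STB

theorem PsiMV_congr (q : ℂ) (m : ℕ) {z z' : ℕ → ℂ} (h : ∀ k < 2 * m, z k = z' k) :
    PsiMV q m z = PsiMV q m z' := by
  unfold PsiMV PsiM
  refine Finset.sum_congr rfl fun s _ => ?_
  congr 1
  rw [RecP.eval_recP_eq, RecP.eval_recP_eq]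
  refine Finset.sum_congr rfl fun d _ => ?_
  congr 1
  refine Finset.prod_congr rfl fun k hk => ?_
  rw [h k (mem_range.mp hk)]

theorem skip1_ins1 (j : ℕ) (x : ℂ) (u : ℕ → ℂ) : skip1 j (ins1 j x u) = u := by
  funext k
  unfold skip1 ins1
  by_cases h : k < j
  · rw [if_pos h, if_pos h]
  · rw [if_neg h, if_neg (by omega), if_neg (by omega)]
    rfl

theorem ins1_ins1 (j : ℕ) (x y : ℂ) (u : ℕ → ℂ) : ins1 0 x (ins1 j y u) = put2 (j + 1) x y u := by
  funext k
  unfold ins1 put2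
  by_cases h0 : k = 0
  · rw [if_neg (by omega), if_pos h0, if_pos h0]
  · by_cases h1 : k < j + 1
    · rw [if_neg (by omega), if_neg h0, if_pos (by omega), if_neg h0, if_pos h1]
    · by_cases h2 : k = j + 1
      · rw [if_neg (by omega), if_neg h0, if_neg (by omega), if_pos (by omega), if_neg h0,
          if_neg h1, if_pos h2]
      · rw [if_neg (by omega), if_neg h0, if_neg (by omega), if_neg (by omega), if_neg h0,
          if_neg h1, if_neg h2]
        congr 1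

theorem skip1_insV (j : ℕ) (x y : ℂ) (u : ℕ → ℂ) :
    skip1 (j + 1) (insV j x y u) = ins1 j x u := by
  funext k
  unfold skip1 insV ins1
  by_cases h0 : k < j
  · rw [if_pos (by omega), if_pos h0, if_pos h0]
  · by_cases h1 : k = j
    · rw [if_pos (by omega), if_neg h0, if_pos h1, if_neg h0, if_pos h1]
    · rw [if_neg (by omega), if_neg (by omega), if_neg (by omega), if_neg (by omega), if_neg h0,
        if_neg h1]
      congr 1

theorem skip1_put2 (j : ℕ) (x y : ℂ) (u : ℕ → ℂ) :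
    skip1 (j + 1) (put2 (j + 1) x y u) = ins1 0 x u := by
  funext k
  unfold skip1 put2 ins1
  by_cases h0 : k = 0
  · rw [if_pos (by omega), if_pos h0, if_neg (by omega), if_pos h0]
  · by_cases h1 : k < j + 1
    · rw [if_pos h1, if_neg h0, if_pos h1, if_neg (by omega), if_neg h0]
    · rw [if_neg h1, if_neg (by omega), if_neg (by omega), if_neg (by omega), if_neg (by omega),
        if_neg h0]
      congr 1

theorem suppA_m (q : ℂ) (m : ℕ) (z : ℕ → ℂ) : SuppA (2 * m + 2) (PsiMV q (m + 1) z) :=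
  suppA_PsiMV q (m + 1) z

theorem suppO_m (q : ℂ) (m : ℕ) (z : ℕ → ℂ) : SuppO (2 * m + 3) (PsiOV q (m + 1) z) :=
  suppO_PsiOV q (m + 1) z

end STB

open STB

theorem left_SS3 (hq : q ^ 2 + q + 1 = 0) (m : ℕ) (v : ℂ) (u : ℕ → ℂ) :
    eval (insV (2 * m + 1) (q ^ 2 * v) v u) (SS3 q (m + 1)) =
      kO q m * v * (∏ j ∈ range (2 * m + 3), (u j - q * v) ^ 2) *
        eval (ins1 (2 * m + 1) (q ^ 2 * v) u) (TT2 q (m + 1)) := by
  rw [eval_SS3, eval_TT2, skip1_ins1, PsiOV_insV hq (m + 1) (i := 2 * m + 1) (by omega)]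
  have h1 : PsiMV q (m + 1) (insV (2 * m + 1) (q ^ 2 * v) v u) =
      PsiMV q (m + 1) (ins1 (2 * m + 1) (q ^ 2 * v) u) := by
    refine PsiMV_congr q _ fun k hk => ?_
    unfold insV ins1
    by_cases h0 : k < 2 * m + 1
    · rw [if_pos h0, if_pos h0]
    · rw [if_neg h0, if_neg h0, if_pos (by omega), if_pos (by omega)]
  rw [h1]
  have h2 : V3 (2 * (m + 1)) (PsiMV q (m + 1) (ins1 (2 * m + 1) (q ^ 2 * v) u))
      ((v * (∏ k ∈ range (2 * (m + 1) + 1), (u k - q * v) ^ 2) / (-3 * (9 * q) ^ (m + 1))) •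
        (PsiOV q (m + 1) u).mapDomain (insArc (2 * m + 1))) =
      (v * (∏ k ∈ range (2 * (m + 1) + 1), (u k - q * v) ^ 2) / (-3 * (9 * q) ^ (m + 1))) *
      V2 (2 * m + 1) (PsiMV q (m + 1) (ins1 (2 * m + 1) (q ^ 2 * v) u)) (PsiOV q (m + 1) u) := by
    rw [V3_smul_right]
    congr 1
    exact V3_left (n := 2 * m + 1) (suppA_m q m _) (suppO_m q m _)
  rw [h2]
  unfold kO
  rw [show 2 * (m + 1) + 1 = 2 * m + 3 by ring]
  ring

theorem seam_SS3 (hq : q ^ 2 + q + 1 = 0) (m : ℕ) (v : ℂ) (u : ℕ → ℂ) :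
    eval (ins1 0 v (ins1 (2 * m + 3) (q ^ 2 * v) u)) (SS3 q (m + 1)) =
      kO q m * v * (∏ j ∈ range (2 * m + 3), (u j - q * v) ^ 2) *
        eval (ins1 (2 * m + 1) v u) (TT2 q (m + 1)) := by
  rw [eval_SS3, eval_TT2, skip1_ins1, ins1_ins1]
  have h0 : PsiOV q (m + 1 + 1) (put2 (2 * m + 3 + 1) v (q ^ 2 * v) u) =
      (v * (∏ k ∈ range (2 * (m + 1) + 1), (u k - q * v) ^ 2) / (-3 * (9 * q) ^ (m + 1))) •
        (PsiOV q (m + 1) u).mapDomain (cupO (2 * m + 3)) := by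
    have h := PsiOV_seam hq (m + 1) v u
    rw [show 2 * (m + 1) + 2 = 2 * m + 3 + 1 by ring] at h
    exact h
  rw [h0]
  have h2 : V3 (2 * (m + 1)) (PsiMV q (m + 1) (put2 (2 * m + 3 + 1) v (q ^ 2 * v) u))
      ((v * (∏ k ∈ range (2 * (m + 1) + 1), (u k - q * v) ^ 2) / (-3 * (9 * q) ^ (m + 1))) •
        (PsiOV q (m + 1) u).mapDomain (cupO (2 * m + 3))) =
      (v * (∏ k ∈ range (2 * (m + 1) + 1), (u k - q * v) ^ 2) / (-3 * (9 * q) ^ (m + 1))) *
      V2 (2 * m + 1) ((PsiMV q (m + 1) (put2 (2 * m + 3 + 1) v (q ^ 2 * v) u)).mapDomain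
        (rotL (2 * m + 2))) (PsiOV q (m + 1) u) := by
    rw [V3_smul_right]
    congr 1
    exact V3_seam (n := 2 * m + 1) (suppA_m q m _) (suppO_m q m _)
  rw [h2]
  have h3 : (PsiMV q (m + 1) (put2 (2 * m + 3 + 1) v (q ^ 2 * v) u)).mapDomain
        (rotL (2 * m + 2)) = PsiMV q (m + 1) (ins1 (2 * m + 1) v u) := by
    have h := PsiMV_rot hq (m + 1) (put2 (2 * m + 3 + 1) v (q ^ 2 * v) u)
    rw [show 2 * (m + 1) = 2 * m + 2 by ring] at h
    rw [← h]
    refine PsiMV_congr q _ fun k hk => ?_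
    unfold rotV put2 ins1
    by_cases h4 : k < 2 * m + 1
    · rw [if_pos (by omega), if_neg (by omega), if_pos (by omega), if_pos h4]
      rfl
    · rw [if_neg (by omega), if_pos (by omega), if_pos rfl, if_neg h4, if_pos (by omega)]
  rw [h3]
  unfold kO
  rw [show 2 * (m + 1) + 1 = 2 * m + 3 by ring]
  ring

theorem left_TT2 (hq : q ^ 2 + q + 1 = 0) (m : ℕ) (v : ℂ) (u : ℕ → ℂ) :
    eval (insV (2 * m) v (q ^ 2 * v) u) (TT2 q (m + 1)) =
      kM q m * v * (∏ j ∈ range (2 * m), (u j - q * v) ^ 2) *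
        eval (ins1 (2 * m) v u) (SS3 q m) := by
  rw [eval_SS3, eval_TT2, skip1_insV, PsiMV_insV hq m le_rfl, V2_smul_left]
  have h1 : PsiMV q m (ins1 (2 * m) v u) = PsiMV q m u := by
    refine PsiMV_congr q _ fun k hk => ?_
    unfold ins1
    rw [if_pos hk]
  rw [h1]
  have h2 := V2_left (n := 2 * m) (suppA_PsiMV q m u) (suppO_m q m (ins1 (2 * m) v u))
  rw [h2]
  unfold kM
  ring

theorem seam_TT2 (hq : q ^ 2 + q + 1 = 0) (m : ℕ) (v : ℂ) (u : ℕ → ℂ) :
    eval (ins1 0 (q ^ 2 * v) (ins1 (2 * m) v u)) (TT2 q (m + 1)) =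
      kM q m * v * (∏ j ∈ range (2 * m), (u j - q * v) ^ 2) *
        eval (ins1 (2 * m + 2) (q ^ 2 * v) u) (SS3 q m) := by
  rw [eval_SS3, eval_TT2, ins1_ins1, skip1_put2, PsiMV_seam hq m, V2_smul_left]
  have h1 : PsiMV q m (ins1 (2 * m + 2) (q ^ 2 * v) u) = PsiMV q m u := by
    refine PsiMV_congr q _ fun k hk => ?_
    unfold ins1
    rw [if_pos (by omega)]
  rw [h1]
  have h2 := V2_seam (n := 2 * m) (suppA_PsiMV q m u) (suppO_m q m (ins1 0 (q ^ 2 * v) u))
  rw [h2]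
  have h3 : (PsiOV q (m + 1) (ins1 0 (q ^ 2 * v) u)).mapDomain (rotP (2 * m + 3)) =
      PsiOV q (m + 1) (ins1 (2 * m + 2) (q ^ 2 * v) u) := by
    have h := PsiOV_rot hq (m + 1) (ins1 0 (q ^ 2 * v) u)
    rw [show 2 * (m + 1) + 1 = 2 * m + 3 by ring] at h
    rw [← h]
    refine PsiOV_congr hq fun k hk => ?_
    unfold rotV ins1
    by_cases h4 : k < 2 * m + 2
    · rw [if_pos (by omega), if_neg (by omega), if_neg (by omega), if_pos h4]
      rfl
    · rw [if_neg (by omega), if_pos (by omega), if_neg (by omega), if_pos rfl, if_neg h4,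
        if_pos (by omega)]
  rw [h3]
  unfold kM
  ring

theorem rec3_ST (hq : q ^ 2 + q + 1 = 0) : Rec3 q (kO q) (kM q) (SS3 q) (TT2 q) where
  degS m := degreeOf_SS3 hq m
  degT m := degreeOf_TT2 hq m
  symS m i hi w := symm_SS3 hq (m + 1) (by omega) w
  symT m i hi w := symm_TT2 hq m (by omega) w
  excS m i hi w := exch_SS3 hq (m + 1) (by omega) w
  leftS m v u _ := left_SS3 hq m v u
  seamS m v u _ := seam_SS3 hq m v u
  leftT m v u _ := left_TT2 hq m v u
  seamT m v u _ := seam_TT2 hq m v u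

namespace STB

theorem anns_zero : anns (2 * 0) = {nestS 0} := by
  ext s
  rw [mem_anns, Finset.mem_singleton]
  constructor
  · intro h
    exact isAnn_zero h
  · rintro rfl
    exact isAnn_nestS 0

/-- If all labels are `false`, the parity does not change. -/
theorem pr_false {u d : St} (hu : ∀ x, u.2 x = false) (hd : ∀ x, d.2 x = false) {a b : ℕ × Bool}
    (h : PR u d a b) : b.2 = a.2 := by
  induction h with
  | refl => rfl
  | tail _ h1 ih =>
    rcases h1 with h1 | h1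
    · rw [h1.2, hu, Bool.xor_false, ih]
    · rw [h1.2, hd, Bool.xor_false, ih]

/-- If two different nodes of an odd state of three sites are joined by an arc with label `true`,
the state is nested. -/
theorem tri_zero {p : ℕ → ℕ} (hp : NCO 3 p) (h : Tri 0 (upO p) (nestS 0)) : p = nestO 1 := by
  obtain ⟨a, b, -, -, -, -, -, hr⟩ := h
  have hex : ∃ x, labO p x = true := by
    by_contra hc
    push Not at hc
    have h1 := pr_false (u := upO p) (d := nestS 0) (fun x => by simpa [upO] using hc x)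
      (fun x => by simp [nestS]) hr
    simp at h1
  obtain ⟨x, hx⟩ := hex
  have hx3 : x < 3 := by
    by_contra hc
    rw [labO_out hp (by omega)] at hx
    exact absurd hx (by simp)
  have hne : p x ≠ x := by
    intro hc
    rw [labO_of_fix hc] at hx
    exact absurd hx (by simp)
  have hpx := hp.lt x hx3
  have ht := hp.thr_lt
  have htf := hp.thr_fix
  have h1 : x ≠ thr p := fun e => hne (by rw [e]; exact htf)
  have h2 : p x ≠ thr p := by
    intro e
    have e2 := hp.inv x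
    rw [e, htf] at e2
    exact h1 e2.symm
  have h3 : (x < thr p ∧ thr p < p x) ∨ (p x < thr p ∧ thr p < x) := by
    unfold labO at hx
    by_cases c1 : x < thr p
    · by_cases c2 : p x < thr p
      · simp [c1, c2] at hx
      · left
        exact ⟨c1, by omega⟩
    · by_cases c2 : p x < thr p
      · right
        exact ⟨c2, by omega⟩
      · simp [c1, c2] at hx
  have h4 : thr p = 1 ∧ ((x = 0 ∧ p x = 2) ∨ (x = 2 ∧ p x = 0)) := by omega
  have h5 : p 1 = 1 := by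
    have := htf
    rw [h4.1] at this
    exact this
  have h6 : p 0 = 2 ∧ p 2 = 0 := by
    rcases h4.2 with ⟨e1, e2⟩ | ⟨e1, e2⟩
    · rw [e1] at e2
      exact ⟨e2, by rw [← e2]; exact hp.inv 0⟩
    · rw [e1] at e2
      exact ⟨by rw [← e2]; exact hp.inv 2, e2⟩
  funext y
  unfold nestO
  by_cases c : y < 2 * 1 + 1
  · rw [if_pos c]
    have : y = 0 ∨ y = 1 ∨ y = 2 := by omega
    rcases this with rfl | rfl | rfl
    · exact h6.1
    · exact h5
    · exact h6.2
  · rw [if_neg c]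
    exact hp.out y (by omega)

theorem tri_nest : Tri 0 (upO (nestO 1)) (nestS 0) := by
  refine ⟨0, 2, le_rfl, by omega, by omega, by omega, by omega, ?_⟩
  refine Relation.ReflTransGen.single (Or.inl ⟨?_, ?_⟩)
  · simp [upO, nestO]
  · have h : thr (nestO 1) = 1 := thr_nestO 1
    simp [upO, labO, h, nestO]

end STB

/-- The smallest case: only the state with the through line in the middle contributes. -/
theorem eval_SS3_zero (hq : q ^ 2 + q + 1 = 0) (w : ℕ → ℂ) :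
    eval w (SS3 q 0) = (w 0 - q ^ 2 * w 1) * (w 0 - q ^ 2 * w 2) * (w 1 - q ^ 2 * w 2) /
      (-q * (1 - q) ^ 3) := by
  classical
  have hn : NCO 3 (nestO 1) := nco_nestO 1
  rw [eval_SS3, PsiMV_zero hq]
  unfold V3
  rw [anns_zero, Finset.sum_singleton, Finset.sum_eq_single (nestO 1)]
  · rw [Finsupp.single_eq_same, one_mul]
    have h1 : B3 (2 * 0) (nestS 0) (nestO 1) = 1 := if_pos tri_nest
    rw [h1, mul_one, PsiOV_apply w (n := 0 + 1) hn]
    have h2 := eval_PsiO_nestO hq 1 w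
    change eval w (PsiO q 1 (nestO 1)) = _
    rw [h2]
    have z0 : zptO q (nestO 1) 0 = 1 := by
      unfold zptO
      rw [opO_nestO, if_neg (by simp)]
    have z1 : zptO q (nestO 1) 1 = q ^ 2 := by
      unfold zptO
      rw [opO_nestO, if_pos (by simp)]
    have z2 : zptO q (nestO 1) 2 = q ^ 2 := by
      unfold zptO
      rw [opO_nestO, if_pos (by simp)]
    have h3 : eval (zptO q (nestO 1)) (minPoly q (2 * 1 + 1)) = -q * (1 - q) ^ 3 := by
      unfold minPoly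
      simp only [Nat.reduceMul, Nat.reduceAdd, Finset.prod_range_succ, Finset.prod_range_zero,
        one_mul, map_mul, map_sub, eval_X, eval_C, z0, z1, z2]
      linear_combination (q - 3 * q ^ 2 + 5 * q ^ 3 - 4 * q ^ 4 - q ^ 5 + 3 * q ^ 6 - 2 * q ^ 7 +
        q ^ 8 + q ^ 9 - q ^ 10) * hq
    rw [h3]
    congr 1
    simp only [Nat.reduceMul, Nat.reduceAdd, Finset.prod_range_succ, Finset.prod_range_zero,
      one_mul]
    ring
  · intro p hp hne
    have h1 : B3 (2 * 0) (nestS 0) p = 0 := by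
      refine if_neg fun h => hne ?_
      exact tri_zero (mem_nco.mp hp) h
    rw [h1, mul_zero]
  · intro h
    exact absurd (mem_nco.mpr hn) h

end Pool.Agent.Perc

end Partperc3STB

section Partperc3FSumO

/-!
# The sum of the components for odd circumference (task FSumO)

Model: perq/FSumA.lean.
-/

set_option autoImplicit false

namespace Pool.Agent.Perc

open Finset MvPolynomial

variable {q : ℂ}

namespace FSumO

variable {m : ℕ}

/-- The sum of the coefficients. -/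
noncomputable def tot : ((ℕ → ℕ) →₀ ℂ) →ₗ[ℂ] ℂ :=
  Finsupp.linearCombination ℂ (fun _ : ℕ → ℕ => (1 : ℂ))

theorem tot_single (s : ℕ → ℕ) (c : ℂ) : tot (Finsupp.single s c) = c := by
  rw [tot, Finsupp.linearCombination_single, smul_eq_mul, mul_one]

theorem tot_mapDomain (f : (ℕ → ℕ) →₀ ℂ) (g : (ℕ → ℕ) → ℕ → ℕ) : tot (f.mapDomain g) = tot f := by
  rw [tot, Finsupp.linearCombination_mapDomain]
  rfl

theorem eval_FO_tot (q : ℂ) (m : ℕ) (z : ℕ → ℂ) : eval z (FO q m) = tot (PsiOV q m z) := by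
  rw [FO, map_sum, PsiOV, map_sum]
  exact Finset.sum_congr rfl fun s _ => (tot_single s _).symm

theorem degreeOf_FO_le {k n : ℕ} (h : ∀ s, (PsiO q m s).degreeOf k ≤ n) :
    (FO q m).degreeOf k ≤ n := by
  rw [FO]
  exact (degreeOf_sum_le k _ _).trans (Finset.sup_le fun s _ => h s)

theorem exch (hq : q ^ 2 + q + 1 = 0) {i : ℕ} (hi : i + 1 < 2 * m + 1) (z : ℕ → ℂ) :
    (q * z (i + 1) - q ^ 2 * z i) * (eval (swapV i z) (FO q m) - eval z (FO q m)) = 0 := by
  have h := congrArg tot (exchangeO hq hi z)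
  rw [map_smul, map_add, map_smul, map_smul, tot_mapDomain, smul_eq_mul, smul_eq_mul,
    smul_eq_mul, ← eval_FO_tot, ← eval_FO_tot] at h
  have e : q * z i - q ^ 2 * z (i + 1) + (z i - z (i + 1)) = q * z (i + 1) - q ^ 2 * z i := by
    linear_combination (z i - z (i + 1)) * hq
  rw [mul_sub, h, ← add_mul, e, sub_self]

theorem q_ne (hq : q ^ 2 + q + 1 = 0) : q ≠ 0 := by
  rintro rfl
  norm_num at hq

theorem symm (hq : q ^ 2 + q + 1 = 0) {i : ℕ} (hi : i + 1 < 2 * m + 1) (z : ℕ → ℂ) :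
    eval (swapV i z) (FO q m) = eval z (FO q m) := by
  have key : ∀ w : ℕ → ℂ, eval (swapV i w) (FO q m) =
      eval w (rename (Equiv.swap i (i + 1)) (FO q m)) := by
    intro w
    rw [eval_rename]
    rfl
  have hp : (C q * X (i + 1) - C (q ^ 2) * X i) *
      (rename (Equiv.swap i (i + 1)) (FO q m) - FO q m) = 0 := by
    refine MvPolynomial.funext fun w => ?_
    have h := exch (m := m) hq hi w
    rw [key] at h
    rw [map_mul, map_sub, map_sub, map_mul, map_mul, eval_C, eval_C, eval_X, eval_X, map_zero]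
    exact h
  have hne : (C q * X (i + 1) - C (q ^ 2) * X i : MvPolynomial ℕ ℂ) ≠ 0 := by
    intro h0
    have h1 := congrArg (eval fun k => if k = i then (1 : ℂ) else 0) h0
    rw [map_sub, map_mul, map_mul, eval_C, eval_C, eval_X, eval_X, map_zero, if_pos rfl,
      if_neg (by omega : ¬ i + 1 = i), mul_zero, zero_sub, mul_one, neg_eq_zero] at h1
    exact pow_ne_zero 2 (q_ne hq) h1
  have h2 := sub_eq_zero.1 ((mul_eq_zero.1 hp).resolve_left hne)
  rw [key, h2]

end FSumO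

theorem recO_FO (hq : q ^ 2 + q + 1 = 0) : RecO q (fun m => 1 / (-3 * (9 * q) ^ m)) (FO q) where
  deg m := FSumO.degreeOf_FO_le fun s => degreeOf_PsiO_le hq (m + 1) s 0
  symm m i hi z := FSumO.symm hq (by omega) z
  ins m v z _ := by
    rw [FSumO.eval_FO_tot, PsiOV_insV hq m (Nat.zero_le _) v z, map_smul, FSumO.tot_mapDomain,
      ← FSumO.eval_FO_tot, smul_eq_mul]
    ring

theorem eval_FO_zero (hq : q ^ 2 + q + 1 = 0) (z : ℕ → ℂ) : eval z (FO q 0) = 1 := by
  rw [FSumO.eval_FO_tot, PsiOV_zero hq z, FSumO.tot_single]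

end Pool.Agent.Perc

end Partperc3FSumO
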