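import Pool.Agent.Lib.MP_6bd702_zc.Pre
import Pool.Agent.Lib.MP_6bd702_zc.Y013
import Pool.Agent.Lib.MP_6bd702_zc.Y002

section Partperc3StatO

/-!
# Stationarity on the cylinder of odd circumference (task StatO)

Model: perq/StatS.lean (points `apt` with `2 n + 3` coordinates).
-/

set_option autoImplicit false

namespace Pool.Agent.Perc

open Finset MvPolynomial

theorem NCO.trowO {L : ℕ} {p : ℕ → ℕ} (h : NCO L p) (w : ℕ → Bool) : NCO L (trowO L w p) := by
  have h1 : ∀ k ≤ L, NCO (L + 2) (rowO w k (Perc.cupO L p)) := by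
    intro k hk
    induction k with
    | zero => exact h.cupO
    | succ k ih =>
      have h2 := ih (by omega)
      change NCO (L + 2) (if w k then Perc.eO k (rowO w k (Perc.cupO L p))
        else rowO w k (Perc.cupO L p))
      split_ifs
      · exact h2.eO (by omega)
      · exact h2
  have h2 := (h1 L le_rfl).eO (i := L) (by omega)
  obtain ⟨p', hp', he⟩ := h2.exists_del' (i := L) le_rfl (eO_small _ _)
  change NCO L (resP L (Perc.eO L (rowO w L (Perc.cupO L p))))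
  rw [he, resO_insArc hp']
  exact hp'

namespace StatO

/-- One face: the average of the two states. -/
noncomputable def rPO (i : ℕ) (f : (ℕ → ℕ) →₀ ℂ) : (ℕ → ℕ) →₀ ℂ :=
  (1 / 2 : ℂ) • (f + f.mapDomain (eO i))

/-- The faces `0, …, k - 1` of a row. -/
noncomputable def rowPO : ℕ → ((ℕ → ℕ) →₀ ℂ) → ((ℕ → ℕ) →₀ ℂ)
  | 0, f => f
  | k + 1, f => rPO k (rowPO k f)

theorem rPO_smul (i : ℕ) (c : ℂ) (f : (ℕ → ℕ) →₀ ℂ) : rPO i (c • f) = c • rPO i f := by
  unfold rPO
  rw [Finsupp.mapDomain_smul, ← smul_add, smul_comm]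

theorem rowPO_smul (k : ℕ) (c : ℂ) (f : (ℕ → ℕ) →₀ ℂ) : rowPO k (c • f) = c • rowPO k f := by
  induction k with
  | zero => rfl
  | succ k ih =>
    change rPO k (rowPO k (c • f)) = c • rPO k (rowPO k f)
    rw [ih, rPO_smul]

/-- The point with `-q ^ 2` at `k` and `-q` at the last place. -/
def apt (q : ℂ) (n k : ℕ) : ℕ → ℂ := fun j =>
  if j = k then -q ^ 2 else if j = 2 * n + 2 then -q else 1

variable {q : ℂ}

theorem q3 (hq : q ^ 2 + q + 1 = 0) : q ^ 3 = 1 := by linear_combination (q - 1) * hq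

theorem q_ne (hq : q ^ 2 + q + 1 = 0) : q ≠ 0 := by
  rintro rfl
  norm_num at hq

theorem swap_apt (n k : ℕ) (hk : k < 2 * n + 1) : swapV k (apt q n k) = apt q n (k + 1) := by
  ext j
  unfold swapV apt
  by_cases h1 : j = k
  · subst h1
    rw [Equiv.swap_apply_left, if_neg (by omega), if_neg (by omega), if_neg (by omega),
      if_neg (by omega)]
  · by_cases h2 : j = k + 1
    · subst h2
      rw [Equiv.swap_apply_right, if_pos rfl, if_pos rfl]
    · rw [Equiv.swap_apply_of_ne_of_ne h1 h2, if_neg h1, if_neg h2]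

theorem apt_step (hq : q ^ 2 + q + 1 = 0) (n k : ℕ) (hk : k < 2 * n + 1) :
    PsiOV q (n + 1) (apt q n (k + 1)) = rPO k (PsiOV q (n + 1) (apt q n k)) := by
  have hq0 := q_ne hq
  have h := exchangeO hq (n := n + 1) (i := k) (by omega) (apt q n k)
  have hz : apt q n k k = -q ^ 2 := if_pos rfl
  have hz' : apt q n k (k + 1) = 1 := by
    unfold apt
    rw [if_neg (by omega), if_neg (by omega)]
  rw [swap_apt n k hk, hz, hz'] at h
  have e1 : q * 1 - q ^ 2 * -q ^ 2 = 2 * q := by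
    linear_combination q * q3 hq
  have e2 : q * -q ^ 2 - q ^ 2 * 1 = q := by
    linear_combination -q3 hq - hq
  have e3 : -q ^ 2 - 1 = q := by linear_combination -hq
  rw [e1, e2, e3] at h
  have h2 : (2 * q : ℂ) ≠ 0 := mul_ne_zero two_ne_zero hq0
  have h3 : PsiOV q (n + 1) (apt q n (k + 1)) = (2 * q)⁻¹ • ((2 * q) •
      PsiOV q (n + 1) (apt q n (k + 1))) := by
    rw [smul_smul, inv_mul_cancel₀ h2, one_smul]
  rw [h3, h, ← smul_add, smul_smul]
  unfold rPO
  congr 1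
  field_simp

theorem apt_row (hq : q ^ 2 + q + 1 = 0) (n k : ℕ) (hk : k ≤ 2 * n + 1) :
    PsiOV q (n + 1) (apt q n k) = rowPO k (PsiOV q (n + 1) (apt q n 0)) := by
  induction k with
  | zero => rfl
  | succ k ih =>
    rw [apt_step hq n k (by omega), ih (by omega)]
    rfl

/-- The constant. -/
noncomputable def cst (q : ℂ) (n : ℕ) : ℂ := -q ^ 2 * (4 : ℂ) ^ (2 * n + 1) / (-3 * (9 * q) ^ n)

theorem cst_ne (hq : q ^ 2 + q + 1 = 0) (n : ℕ) : cst q n ≠ 0 := by
  have hq0 := q_ne hq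
  exact div_ne_zero (mul_ne_zero (neg_ne_zero.mpr (pow_ne_zero _ hq0))
    (pow_ne_zero _ (by norm_num))) (mul_ne_zero (by norm_num)
      (pow_ne_zero _ (mul_ne_zero (by norm_num) hq0)))

theorem prod_one (hq : q ^ 2 + q + 1 = 0) (n : ℕ) :
    ∏ _k ∈ range (2 * n + 1), ((1 : ℂ) - q * -q ^ 2) ^ 2 = 4 ^ (2 * n + 1) := by
  have h1 : (1 : ℂ) - q * -q ^ 2 = 2 := by linear_combination q3 hq
  rw [h1, Finset.prod_const, Finset.card_range]
  norm_num

theorem ins_one (hq : q ^ 2 + q + 1 = 0) (n i : ℕ) (hi : i ≤ 2 * n + 1) :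
    PsiOV q (n + 1) (insV i (q ^ 2 * -q ^ 2) (-q ^ 2) fun _ => 1) =
      cst q n • (PsiOV q n fun _ => 1).mapDomain (insArc i) := by
  rw [PsiOV_insV hq n hi, prod_one hq]
  rfl

theorem apt_zero (hq : q ^ 2 + q + 1 = 0) (n : ℕ) :
    PsiOV q (n + 1) (apt q n 0) =
      cst q n • (PsiOV q n fun _ => 1).mapDomain (cupO (2 * n + 1)) := by
  have h1 : ∀ k < 2 * (n + 1) + 1, apt q n 0 k =
      put2 (2 * n + 2) (-q ^ 2) (q ^ 2 * -q ^ 2) (fun _ => 1) k := by
    intro k hk
    unfold apt put2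
    by_cases h1 : k = 0
    · rw [if_pos h1, if_pos h1]
    · rw [if_neg h1, if_neg h1]
      by_cases h2 : k = 2 * n + 2
      · rw [if_pos h2, if_neg (by omega), if_pos h2]
        linear_combination q * q3 hq
      · rw [if_neg h2, if_pos (by omega)]
  rw [PsiOV_congr hq h1, PsiOV_seam hq n (-q ^ 2), prod_one hq]
  rfl

theorem apt_last (hq : q ^ 2 + q + 1 = 0) (n : ℕ) :
    (PsiOV q (n + 1) (apt q n (2 * n + 1))).mapDomain (eO (2 * n + 1)) =
      cst q n • (PsiOV q n fun _ => 1).mapDomain (insArc (2 * n + 1)) := by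
  have hq0 := q_ne hq
  have h := exchangeO hq (n := n + 1) (i := 2 * n + 1) (by omega) (apt q n (2 * n + 1))
  have hz : apt q n (2 * n + 1) (2 * n + 1) = -q ^ 2 := if_pos rfl
  have hz' : apt q n (2 * n + 1) (2 * n + 1 + 1) = -q := by
    unfold apt
    rw [if_neg (by omega), if_pos rfl]
  have h1 : ∀ k < 2 * (n + 1) + 1, swapV (2 * n + 1) (apt q n (2 * n + 1)) k =
      insV (2 * n + 1) (q ^ 2 * -q ^ 2) (-q ^ 2) (fun _ => 1) k := by
    intro k hk
    unfold swapV insV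
    by_cases h1 : k = 2 * n + 1
    · subst h1
      rw [Equiv.swap_apply_left, hz', if_neg (lt_irrefl _), if_pos rfl]
      linear_combination q * q3 hq
    · by_cases h2 : k = 2 * n + 1 + 1
      · subst h2
        rw [Equiv.swap_apply_right, hz, if_neg (by omega), if_neg (by omega), if_pos rfl]
      · rw [Equiv.swap_apply_of_ne_of_ne h1 h2]
        unfold apt
        rw [if_neg h1, if_neg h2, if_pos (by omega)]
  rw [PsiOV_congr hq h1, ins_one hq n (2 * n + 1) le_rfl, hz, hz'] at h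
  have e1 : q * -q - q ^ 2 * -q ^ 2 = q - q ^ 2 := by
    linear_combination q * q3 hq
  have e2 : q * -q ^ 2 - q ^ 2 * -q = 0 := by ring
  have e3 : -q ^ 2 - -q = q - q ^ 2 := by ring
  rw [e1, e2, e3, zero_smul, zero_add] at h
  have h2 : q - q ^ 2 ≠ 0 := by
    intro h0
    have h4 : q * (1 - q) = 0 := by linear_combination h0
    rcases mul_eq_zero.mp h4 with h5 | h5
    · exact hq0 h5
    · have h6 : q = 1 := by linear_combination -h5
      rw [h6] at hq
      norm_num at hq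
  have h3 := congrArg (fun f => (q - q ^ 2)⁻¹ • f) h
  simp only [smul_smul _ (q - q ^ 2), inv_mul_cancel₀ h2, one_smul] at h3
  exact h3.symm

/-- Stationarity as an identity of vectors. -/
theorem statV (hq : q ^ 2 + q + 1 = 0) (n : ℕ) :
    (rowPO (2 * n + 1) ((PsiOV q n fun _ => 1).mapDomain (cupO (2 * n + 1)))).mapDomain
        (eO (2 * n + 1)) =
      (PsiOV q n fun _ => 1).mapDomain (insArc (2 * n + 1)) := by
  have h := apt_last hq n
  rw [apt_row hq n (2 * n + 1) le_rfl, apt_zero hq n, rowPO_smul, Finsupp.mapDomain_smul] at h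
  have h3 := congrArg (fun f => (cst q n)⁻¹ • f) h
  simp only [smul_smul, inv_mul_cancel₀ (cst_ne hq n), one_smul] at h3
  exact h3

/-- Pairing of a vector with a function. -/
noncomputable def pr (f : (ℕ → ℕ) → ℂ) (g : (ℕ → ℕ) →₀ ℂ) : ℂ := g.sum fun s c => c * f s

theorem pr_add (f : (ℕ → ℕ) → ℂ) (g g' : (ℕ → ℕ) →₀ ℂ) : pr f (g + g') = pr f g + pr f g' :=
  Finsupp.sum_add_index' (fun _ => zero_mul _) fun _ _ _ => add_mul _ _ _

theorem pr_smul (f : (ℕ → ℕ) → ℂ) (c : ℂ) (g : (ℕ → ℕ) →₀ ℂ) : pr f (c • g) = c * pr f g := by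
  unfold pr
  rw [Finsupp.sum_smul_index' (fun _ => zero_mul _), Finsupp.mul_sum]
  refine Finsupp.sum_congr fun s _ => ?_
  rw [smul_eq_mul, mul_assoc]

theorem pr_mapDomain (f : (ℕ → ℕ) → ℂ) (h : (ℕ → ℕ) → (ℕ → ℕ)) (g : (ℕ → ℕ) →₀ ℂ) :
    pr f (g.mapDomain h) = pr (fun s => f (h s)) g :=
  Finsupp.sum_mapDomain_index (fun _ => zero_mul _) fun _ _ _ => add_mul _ _ _

theorem rowO_congr {w w' : ℕ → Bool} {k : ℕ} (h : ∀ i < k, w i = w' i) (s : ℕ → ℕ) :
    rowO w k s = rowO w' k s := by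
  induction k with
  | zero => rfl
  | succ k ih =>
    change (if w k then eO k (rowO w k s) else rowO w k s) =
      if w' k then eO k (rowO w' k s) else rowO w' k s
    rw [ih fun i hi => h i (by omega), h k (by omega)]

theorem trowO_congr {L : ℕ} {w w' : ℕ → Bool} (h : ∀ j < L, w j = w' j) (t : ℕ → ℕ) :
    trowO L w t = trowO L w' t := by
  unfold trowO
  rw [rowO_congr h]

theorem pr_rowPO (k : ℕ) (f : (ℕ → ℕ) → ℂ) (g : (ℕ → ℕ) →₀ ℂ) : pr f (rowPO k g) =
    (∑ T ∈ (range k).powerset, pr (fun s => f (rowO (fun i => decide (i ∈ T)) k s)) g) /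
      2 ^ k := by
  classical
  induction k generalizing f with
  | zero =>
    rw [Finset.range_zero, Finset.powerset_empty, Finset.sum_singleton, pow_zero, div_one]
    rfl
  | succ k ih =>
    change pr f (rPO k (rowPO k g)) = _
    unfold rPO
    rw [pr_smul, pr_add, pr_mapDomain, ih, ih, Finset.range_add_one,
      Finset.sum_powerset_insert (by simp)]
    have h1 : ∀ T ∈ (range k).powerset,
        pr (fun s => f (rowO (fun i => decide (i ∈ T)) (k + 1) s)) g =
          pr (fun s => f (rowO (fun i => decide (i ∈ T)) k s)) g := by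
      intro T hT
      rw [mem_powerset] at hT
      congr 1
      funext s
      congr 1
      change (if decide (k ∈ T) = true then _ else _) = _
      rw [if_neg]
      intro hk
      have := hT (of_decide_eq_true hk)
      simp at this
    have h2 : ∀ T ∈ (range k).powerset,
        pr (fun s => f (rowO (fun i => decide (i ∈ insert k T)) (k + 1) s)) g =
          pr (fun s => f (eO k (rowO (fun i => decide (i ∈ T)) k s))) g := by
      intro T hT
      rw [mem_powerset] at hT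
      congr 1
      funext s
      congr 1
      change (if decide (k ∈ insert k T) = true then _ else _) = _
      rw [if_pos (by simp)]
      congr 1
      refine rowO_congr (fun i hi => ?_) s
      congr 1
      rw [Finset.mem_insert]
      simp only [eq_iff_iff, or_iff_right_iff_imp]
      intro h
      omega
    rw [Finset.sum_congr rfl h1, Finset.sum_congr rfl h2, pow_succ]
    field_simp

end StatO

open StatO

/-- The homogeneous solution is stationary for the rows of the cylinder. -/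
theorem stationaryO {q : ℂ} (hq : q ^ 2 + q + 1 = 0) (n : ℕ) (f : (ℕ → ℕ) → ℂ) :
    ∑ p ∈ nco (2 * n + 1), eval (fun _ => 1) (PsiO q n p) * avgO (2 * n + 1) f p =
      ∑ p ∈ nco (2 * n + 1), eval (fun _ => 1) (PsiO q n p) * f p := by
  classical
  have h0 := congrArg (fun g => StatO.pr (fun s => f (resP (2 * n + 1) s)) g) (statV hq n)
  simp only at h0
  have hpr : ∀ F : (ℕ → ℕ) → ℂ, StatO.pr F (PsiOV q n fun _ => 1) =
      ∑ s ∈ nco (2 * n + 1), eval (fun _ => 1) (PsiO q n s) * F s := by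
    intro F
    unfold PsiOV StatO.pr
    rw [← Finsupp.sum_finsetSum_index (fun _ => zero_mul _) fun _ _ _ => add_mul _ _ _]
    refine Finset.sum_congr rfl fun s _ => ?_
    rw [Finsupp.sum_single_index (zero_mul _)]
  rw [pr_mapDomain, pr_rowPO, pr_mapDomain, hpr] at h0
  have h1 : ∑ s ∈ nco (2 * n + 1), eval (fun _ => 1) (PsiO q n s) *
      f (resP (2 * n + 1) (insArc (2 * n + 1) s)) =
      ∑ s ∈ nco (2 * n + 1), eval (fun _ => 1) (PsiO q n s) * f s := by
    refine Finset.sum_congr rfl fun s hs => ?_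
    rw [resO_insArc (mem_nco.mp hs)]
  rw [h1] at h0
  rw [← h0]
  have h2 : ∀ T ∈ (range (2 * n + 1)).powerset,
      StatO.pr (fun s => f (resP (2 * n + 1) (eO (2 * n + 1)
          (rowO (fun i => decide (i ∈ T)) (2 * n + 1) s))))
        ((PsiOV q n fun _ => 1).mapDomain (cupO (2 * n + 1))) =
      ∑ s ∈ nco (2 * n + 1), eval (fun _ => 1) (PsiO q n s) *
        f (trowO (2 * n + 1) (fun k => decide (k ∈ T)) s) := by
    intro T _
    rw [pr_mapDomain, hpr]
    rfl
  rw [Finset.sum_congr rfl h2, Finset.sum_comm, Finset.sum_div]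
  refine Finset.sum_congr rfl fun s _ => ?_
  unfold avgO
  rw [← Finset.mul_sum, mul_div_assoc]

end Pool.Agent.Perc

end Partperc3StatO

section Partperc3LimO

/-!
# Convergence to the stationary law, odd circumference (task LimO)

Model: perq/LimS.lean and perc/AnnB.lean.
-/

set_option autoImplicit false

namespace Pool.Agent.Perc

open Finset MvPolynomial Filter Topology

theorem nco_flatO {L : ℕ} (hL : L % 2 = 1) : NCO L (flatO L) := by
  have hv : ∀ x, flatO L x = if L ≤ x + 1 then x else if x % 2 = 0 then x + 1 else x - 1 :=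
    fun x => rfl
  refine ⟨fun x hx => ?_, fun x => ?_, fun x hx => ?_, fun x y h1 h2 => ?_,
    ⟨L - 1, by omega, ?_, fun x hx hp => ?_⟩⟩
  · rw [hv]
    split_ifs <;> omega
  · rw [hv x]
    split_ifs with h1 h2
    · rw [hv, if_pos h1]
    · rw [hv]
      split_ifs <;> omega
    · rw [hv]
      split_ifs <;> omega
  · rw [hv, if_pos (by omega)]
  · rw [hv] at h2 ⊢
    rw [hv]
    split_ifs at h2 ⊢ <;> omega
  · rw [hv, if_pos (by omega)]
  · rw [hv] at hp
    split_ifs at hp <;> omega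

namespace LimO

/-- The site `x` is matched as in the flat state. -/
def Good (x : ℕ) (t : ℕ → ℕ) : Prop := t x = if x % 2 = 0 then x + 1 else x - 1

theorem good_eO {i x : ℕ} {t : ℕ → ℕ} (hi : i % 2 = 0) (hx : x < i) (h : Good x t) :
    Good x (eO i t) := by
  have h3 : t x < i := by
    rw [h]
    split_ifs with h <;> omega
  unfold Good eO
  rw [if_neg (by omega), if_neg (by omega), if_neg (by omega), if_neg (by omega), h]

theorem good_new {i x : ℕ} {t : ℕ → ℕ} (hi : i % 2 = 0) (hx : i ≤ x) (hx2 : x < i + 2) :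
    Good x (eO i t) := by
  unfold Good eO
  have hcase : x = i ∨ x = i + 1 := by omega
  rcases hcase with rfl | rfl
  · rw [if_pos rfl, if_pos hi]
  · rw [if_neg (by omega), if_pos rfl, if_neg (by omega)]
    omega

theorem good_rowO (t : ℕ → ℕ) (k : ℕ) :
    ∀ x, x < k + k % 2 → Good x (rowO (fun k => decide (k % 2 = 0)) k t) := by
  induction k with
  | zero => intro x hx; omega
  | succ k ih =>
    intro x hx
    simp only [rowO]
    by_cases hk : k % 2 = 0
    · rw [if_pos (by simpa using hk)]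
      rcases lt_or_ge x k with hxk | hxk
      · exact good_eO hk hxk (ih x (by omega))
      · exact good_new hk hxk (by omega)
    · rw [if_neg (by simpa using hk)]
      exact ih x (by omega)

end LimO

open LimO

/-- The alternating row resets the state. -/
theorem trowO_reset {L : ℕ} {p : ℕ → ℕ} (h : NCO L p) :
    trowO L (fun k => decide (k % 2 = 0)) p = flatO L := by
  have hL : L % 2 = 1 := h.odd
  set t := rowO (fun k => decide (k % 2 = 0)) L (Perc.cupO L p) with ht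
  have hg : ∀ x, x < L + 1 → Good x t := fun x hx => good_rowO _ L x (by omega)
  have htr := h.trowO (fun k => decide (k % 2 = 0))
  have hval : ∀ x, x + 1 < L → trowO L (fun k => decide (k % 2 = 0)) p x = flatO L x := by
    intro x hx
    have h1 := hg x (by omega)
    have h3 : t x < L := by
      rw [h1]
      split_ifs <;> omega
    change resP L (eO L t) x = _
    unfold resP eO flatO
    rw [if_pos (by omega), if_neg (by omega), if_neg (by omega), if_neg (by omega),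
      if_neg (by omega), if_neg (by omega)]
    exact h1
  funext x
  rcases lt_or_ge (x + 1) L with hx | hx
  · exact hval x hx
  · rcases eq_or_lt_of_le hx with he | hlt
    · -- the last site
      have hfl : flatO L x = x := by
        unfold flatO
        rw [if_pos hx]
      rw [hfl]
      by_contra hne
      have hlt : trowO L (fun k => decide (k % 2 = 0)) p x < L := htr.lt x (by omega)
      set y := trowO L (fun k => decide (k % 2 = 0)) p x with hy
      have hyx : y + 1 < L := by omega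
      have h1 := hval y hyx
      have h2 := htr.inv x
      rw [← hy, h1] at h2
      have h3 := (nco_flatO hL).inv y
      rw [h2, hfl] at h3
      omega
    · rw [htr.out x (by omega), (nco_flatO hL).out x (by omega)]

namespace LimO

/-- Doeblin's argument for a bounded function. -/
theorem avgO_iterate_sub_le {L : ℕ} {f : (ℕ → ℕ) → ℂ} {B : ℝ}
    (hB : ∀ s s' : ℕ → ℕ, NCO L s → NCO L s' → ‖f s - f s'‖ ≤ B) (M : ℕ) {s s' : ℕ → ℕ}
    (h : NCO L s) (h' : NCO L s') :
    ‖((avgO L)^[M] f) s - ((avgO L)^[M] f) s'‖ ≤ (1 - 1 / 2 ^ L) ^ M * B := by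
  induction M generalizing s s' with
  | zero => simpa using hB s s' h h'
  | succ M ih =>
    rw [Function.iterate_succ_apply']
    set F := (avgO L)^[M] f with hF
    unfold avgO
    rw [← sub_div, ← Finset.sum_sub_distrib]
    set T0 : Finset ℕ := (range L).filter (fun k => k % 2 = 0) with hT0
    have hT0m : T0 ∈ (range L).powerset := by
      rw [Finset.mem_powerset]
      exact Finset.filter_subset _ _
    have hreset : ∀ t : ℕ → ℕ, NCO L t → trowO L (fun k => decide (k ∈ T0)) t = flatO L := by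
      intro t ht
      rw [← trowO_reset ht]
      refine StatO.trowO_congr (fun j hj => ?_) t
      simp [hT0, hj]
    rw [norm_div]
    have h2 : ‖(2 : ℂ) ^ L‖ = 2 ^ L := by simp
    rw [h2, div_le_iff₀ (by positivity)]
    have h3 : ‖∑ T ∈ (range L).powerset, (F (trowO L (fun k => decide (k ∈ T)) s)
        - F (trowO L (fun k => decide (k ∈ T)) s'))‖
        ≤ ∑ T ∈ (range L).powerset, if T = T0 then (0 : ℝ) else (1 - 1 / 2 ^ L) ^ M * B := by
      refine (norm_sum_le _ _).trans (Finset.sum_le_sum fun T _ => ?_)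
      split_ifs with hT
      · rw [hT, hreset s h, hreset s' h', sub_self, norm_zero]
      · exact ih (h.trowO _) (h'.trowO _)
    refine h3.trans (le_of_eq ?_)
    rw [← Finset.sum_erase_add _ _ hT0m, if_pos rfl, add_zero]
    have h4 : ∀ T ∈ (range L).powerset.erase T0,
        (if T = T0 then (0 : ℝ) else (1 - 1 / 2 ^ L) ^ M * B)
        = (1 - 1 / 2 ^ L) ^ M * B := fun T hT => if_neg (Finset.ne_of_mem_erase hT)
    rw [Finset.sum_congr rfl h4, Finset.sum_const, Finset.card_erase_of_mem hT0m,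
      Finset.card_powerset, Finset.card_range, nsmul_eq_mul, pow_succ,
      Nat.cast_sub Nat.one_le_two_pow]
    push_cast
    have : (2 : ℝ) ^ L ≠ 0 := by positivity
    field_simp

/-- Stationarity for the iterates. -/
theorem stationary_iterate {q : ℂ} (hq : q ^ 2 + q + 1 = 0) (n : ℕ) (f : (ℕ → ℕ) → ℂ) (M : ℕ) :
    ∑ s ∈ nco (2 * n + 1), eval (fun _ => 1) (PsiO q n s) * ((avgO (2 * n + 1))^[M] f) s =
      ∑ s ∈ nco (2 * n + 1), eval (fun _ => 1) (PsiO q n s) * f s := by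
  induction M with
  | zero => rfl
  | succ M ih =>
    rw [Function.iterate_succ_apply']
    rw [stationaryO hq n ((avgO (2 * n + 1))^[M] f), ih]

end LimO

theorem tendsto_avgO {q : ℂ} (hq : q ^ 2 + q + 1 = 0) {n : ℕ}
    (h0 : ∑ p ∈ nco (2 * n + 1), eval (fun _ => 1) (PsiO q n p) ≠ 0) (f : (ℕ → ℕ) → ℂ) :
    Tendsto (fun M => ((avgO (2 * n + 1))^[M] f) (flatO (2 * n + 1))) atTop
      (𝓝 ((∑ p ∈ nco (2 * n + 1), eval (fun _ => 1) (PsiO q n p) * f p) /
        ∑ p ∈ nco (2 * n + 1), eval (fun _ => 1) (PsiO q n p))) := by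
  classical
  set S := ∑ s ∈ nco (2 * n + 1), eval (fun _ => 1) (PsiO q n s) with hS
  set W := ∑ s ∈ nco (2 * n + 1), eval (fun _ => 1) (PsiO q n s) * f s with hW
  -- a bound for the differences
  set B : ℝ := 2 * ∑ s ∈ nco (2 * n + 1), ‖f s‖ with hBdef
  have hB : ∀ s s' : ℕ → ℕ, NCO (2 * n + 1) s → NCO (2 * n + 1) s' → ‖f s - f s'‖ ≤ B := by
    intro s s' h h'
    have h1 : ‖f s‖ ≤ ∑ t ∈ nco (2 * n + 1), ‖f t‖ :=
      Finset.single_le_sum (f := fun t => ‖f t‖) (fun t _ => norm_nonneg _) (mem_nco.2 h)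
    have h2 : ‖f s'‖ ≤ ∑ t ∈ nco (2 * n + 1), ‖f t‖ :=
      Finset.single_le_sum (f := fun t => ‖f t‖) (fun t _ => norm_nonneg _) (mem_nco.2 h')
    calc ‖f s - f s'‖ ≤ ‖f s‖ + ‖f s'‖ := norm_sub_le _ _
      _ ≤ B := by rw [hBdef]; linarith
  have hnco0 : NCO (2 * n + 1) (flatO (2 * n + 1)) := nco_flatO (by omega)
  set g : ℕ → ℂ := fun M => ((avgO (2 * n + 1))^[M] f) (flatO (2 * n + 1)) with hg
  -- the difference
  have hdiff : ∀ M, ‖W - S * g M‖ ≤
      (∑ s ∈ nco (2 * n + 1), ‖eval (fun _ => 1) (PsiO q n s)‖) * B *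
        (1 - 1 / 2 ^ (2 * n + 1)) ^ M := by
    intro M
    have h1 : W - S * g M = ∑ s ∈ nco (2 * n + 1), eval (fun _ => 1) (PsiO q n s)
        * (((avgO (2 * n + 1))^[M] f) s - g M) := by
      rw [hW, ← LimO.stationary_iterate hq n f M, hS, Finset.sum_mul, ← Finset.sum_sub_distrib]
      refine Finset.sum_congr rfl fun s _ => ?_
      ring
    rw [h1, mul_assoc, Finset.sum_mul]
    refine (norm_sum_le _ _).trans (Finset.sum_le_sum fun s hs => ?_)
    rw [norm_mul, mul_comm B]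
    exact mul_le_mul_of_nonneg_left
      (LimO.avgO_iterate_sub_le hB M (mem_nco.1 hs) hnco0) (norm_nonneg _)
  have hlim : Tendsto (fun M : ℕ =>
      (∑ s ∈ nco (2 * n + 1), ‖eval (fun _ => 1) (PsiO q n s)‖) * B
      * ((1 : ℝ) - 1 / 2 ^ (2 * n + 1)) ^ M) atTop (𝓝 0) := by
    have h1 : Tendsto (fun M : ℕ => ((1 : ℝ) - 1 / 2 ^ (2 * n + 1)) ^ M) atTop (𝓝 0) := by
      refine tendsto_pow_atTop_nhds_zero_of_lt_one ?_ ?_
      · rw [sub_nonneg, div_le_one (by positivity)]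
        exact one_le_pow₀ (by norm_num)
      · have : (0 : ℝ) < 1 / 2 ^ (2 * n + 1) := by positivity
        linarith
    simpa using h1.const_mul ((∑ s ∈ nco (2 * n + 1), ‖eval (fun _ => 1) (PsiO q n s)‖) * B)
  have h2 : Tendsto (fun M => W - S * g M) atTop (𝓝 0) :=
    squeeze_zero_norm hdiff hlim
  have h3 : Tendsto (fun M => S * g M) atTop (𝓝 W) := by
    have := h2.const_sub W
    simpa using this
  have h4 := h3.div_const S
  refine h4.congr fun M => ?_
  rw [mul_div_cancel_left₀ _ h0]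

end Pool.Agent.Perc

end Partperc3LimO

section Partperc3RoutesD

/-!
# Routes of the three walls: positions of the tips
-/

set_option autoImplicit false

namespace Pool.Agent.Perc.Rt

open Finset Relation Pool.Agent.Perc

variable {r : Rc} {w R τ τ' : ℤ} {P P' g : ℤ × ℤ}

/-- The cell `P` outside the rectangle is at the position `τ`, away from corners and cut. -/
def PosAt (r : Rc) (w R τ : ℤ) (P : ℤ × ℤ) : Prop :=
  (P.2 < r.c ∧ 5 ≤ P.1 ∧ P.1 ≤ r.b - 5 ∧ 0 ≤ τ ∧ τ < R ∧ w * P.1 ≤ τ ∧ τ < w * P.1 + w) ∨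
  (r.b < P.1 ∧ r.c + 5 ≤ P.2 ∧ P.2 ≤ r.d - 5 ∧ R ≤ τ ∧ τ < 3 * R ∧ w * P.2 ≤ τ - 2 * R ∧
    τ - 2 * R < w * P.2 + w) ∨
  (r.d < P.2 ∧ r.a + 5 ≤ P.1 ∧ P.1 ≤ r.b - 5 ∧ 3 * R ≤ τ ∧ τ < 5 * R + 2 ∧
    w * P.1 ≤ 4 * R - 1 - τ ∧ 4 * R - 1 - τ < w * P.1 + w) ∨
  (P.1 < r.a ∧ r.c + 5 ≤ P.2 ∧ P.2 ≤ r.d - 5 ∧ 5 * R + 2 ≤ τ ∧ τ < 7 * R + 2 ∧
    w * P.2 ≤ 6 * R + 1 - τ ∧ 6 * R + 1 - τ < w * P.2 + w) ∨
  (P.2 < r.c ∧ r.a + 5 ≤ P.1 ∧ P.1 ≤ -5 ∧ 7 * R + 2 ≤ τ ∧ τ < 8 * R + 3 ∧
    w * P.1 ≤ τ - 8 * R - 4 ∧ τ - 8 * R - 4 < w * P.1 + w)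

theorem PosAt.reg (h : PosAt r w R τ P) : Reg r P := by
  have h1 := r.ha
  have h2 := r.hb
  have h3 := r.hcd
  unfold PosAt at h
  unfold Reg
  omega

theorem gap {w x y z z' : ℤ} (hw : 0 < w) (h1 : w * z ≤ x) (h2 : y < w * z' + w)
    (h : x + 20 * w ≤ y) : z + 19 ≤ z' := by
  by_contra hc
  have h3 : z' ≤ z + 18 := by omega
  have h4 : w * z' ≤ w * (z + 18) := mul_le_mul_of_nonneg_left h3 hw.le
  rw [mul_add] at h4
  omega

theorem pos_ang (hw : 0 < w) (h : PosAt r w R τ P) (h' : PosAt r w R τ' P')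
    (hg : τ + 20 * w ≤ τ') : ang r P + 5 ≤ ang r P' := by
  have h1 := r.ha
  have h2 := r.hb
  have h3 := r.hcd
  obtain ⟨x, y⟩ := P
  obtain ⟨x', y'⟩ := P'
  unfold PosAt at h h'
  simp only at h h'
  rcases h with ⟨p1, p2, p3, p4, p5, p6, p7⟩ | ⟨p1, p2, p3, p4, p5, p6, p7⟩ |
    ⟨p1, p2, p3, p4, p5, p6, p7⟩ | ⟨p1, p2, p3, p4, p5, p6, p7⟩ | ⟨p1, p2, p3, p4, p5, p6, p7⟩
  · rw [ang_s0 (x := x) (y := y) (by omega) (by omega) (by omega)]
    rcases h' with ⟨q1, q2, q3, q4, q5, q6, q7⟩ | ⟨q1, q2, q3, q4, q5, q6, q7⟩ |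
      ⟨q1, q2, q3, q4, q5, q6, q7⟩ | ⟨q1, q2, q3, q4, q5, q6, q7⟩ | ⟨q1, q2, q3, q4, q5, q6, q7⟩
    · rw [ang_s0 (by omega) (by omega) (by omega)]
      have := gap hw p6 q7 hg
      omega
    · rw [ang_s1 (by omega) (by omega) (by omega)]; omega
    · rw [ang_s2 (by omega) (by omega) (by omega)]; omega
    · rw [ang_s3 (by omega) (by omega) (by omega)]; omega
    · rw [ang_s4 (by omega) (by omega) (by omega)]; omega
  · rw [ang_s1 (x := x) (y := y) (by omega) (by omega) (by omega)]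
    rcases h' with ⟨q1, q2, q3, q4, q5, q6, q7⟩ | ⟨q1, q2, q3, q4, q5, q6, q7⟩ |
      ⟨q1, q2, q3, q4, q5, q6, q7⟩ | ⟨q1, q2, q3, q4, q5, q6, q7⟩ | ⟨q1, q2, q3, q4, q5, q6, q7⟩
    · omega
    · rw [ang_s1 (by omega) (by omega) (by omega)]
      have := gap hw p6 q7 (by omega)
      omega
    · rw [ang_s2 (by omega) (by omega) (by omega)]; omega
    · rw [ang_s3 (by omega) (by omega) (by omega)]; omega
    · rw [ang_s4 (by omega) (by omega) (by omega)]; omega
  · rw [ang_s2 (x := x) (y := y) (by omega) (by omega) (by omega)]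
    rcases h' with ⟨q1, q2, q3, q4, q5, q6, q7⟩ | ⟨q1, q2, q3, q4, q5, q6, q7⟩ |
      ⟨q1, q2, q3, q4, q5, q6, q7⟩ | ⟨q1, q2, q3, q4, q5, q6, q7⟩ | ⟨q1, q2, q3, q4, q5, q6, q7⟩
    · omega
    · omega
    · rw [ang_s2 (by omega) (by omega) (by omega)]
      have := gap hw q6 p7 (by omega)
      omega
    · rw [ang_s3 (by omega) (by omega) (by omega)]; omega
    · rw [ang_s4 (by omega) (by omega) (by omega)]; omega
  · rw [ang_s3 (x := x) (y := y) (by omega) (by omega) (by omega)]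
    rcases h' with ⟨q1, q2, q3, q4, q5, q6, q7⟩ | ⟨q1, q2, q3, q4, q5, q6, q7⟩ |
      ⟨q1, q2, q3, q4, q5, q6, q7⟩ | ⟨q1, q2, q3, q4, q5, q6, q7⟩ | ⟨q1, q2, q3, q4, q5, q6, q7⟩
    · omega
    · omega
    · omega
    · rw [ang_s3 (by omega) (by omega) (by omega)]
      have := gap hw q6 p7 (by omega)
      omega
    · rw [ang_s4 (by omega) (by omega) (by omega)]; omega
  · rw [ang_s4 (x := x) (y := y) (by omega) (by omega) (by omega)]
    rcases h' with ⟨q1, q2, q3, q4, q5, q6, q7⟩ | ⟨q1, q2, q3, q4, q5, q6, q7⟩ |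
      ⟨q1, q2, q3, q4, q5, q6, q7⟩ | ⟨q1, q2, q3, q4, q5, q6, q7⟩ | ⟨q1, q2, q3, q4, q5, q6, q7⟩
    · omega
    · omega
    · omega
    · omega
    · rw [ang_s4 (by omega) (by omega) (by omega)]
      have := gap hw p6 q7 (by omega)
      omega

/-- The ports of different tips are at distance at least `5`. -/
theorem pos_far (hw : 0 < w) (hcd : r.c + 5 ≤ r.d) (hab : r.a + 5 ≤ r.b) (h : PosAt r w R τ P)
    (h' : PosAt r w R τ' P') (hg : τ + 20 * w ≤ τ') : 5 ≤ |P.1 - P'.1| ∨ 5 ≤ |P.2 - P'.2| := by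
  have h1 := r.ha
  have h2 := r.hb
  obtain ⟨x, y⟩ := P
  obtain ⟨x', y'⟩ := P'
  unfold PosAt at h h'
  simp only at h h' ⊢
  rw [le_abs, le_abs]
  rcases h with ⟨p1, p2, p3, p4, p5, p6, p7⟩ | ⟨p1, p2, p3, p4, p5, p6, p7⟩ |
    ⟨p1, p2, p3, p4, p5, p6, p7⟩ | ⟨p1, p2, p3, p4, p5, p6, p7⟩ | ⟨p1, p2, p3, p4, p5, p6, p7⟩
  · rcases h' with ⟨q1, q2, q3, q4, q5, q6, q7⟩ | ⟨q1, q2, q3, q4, q5, q6, q7⟩ |
      ⟨q1, q2, q3, q4, q5, q6, q7⟩ | ⟨q1, q2, q3, q4, q5, q6, q7⟩ | ⟨q1, q2, q3, q4, q5, q6, q7⟩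
    · have := gap hw p6 q7 hg
      omega
    all_goals omega
  · rcases h' with ⟨q1, q2, q3, q4, q5, q6, q7⟩ | ⟨q1, q2, q3, q4, q5, q6, q7⟩ |
      ⟨q1, q2, q3, q4, q5, q6, q7⟩ | ⟨q1, q2, q3, q4, q5, q6, q7⟩ | ⟨q1, q2, q3, q4, q5, q6, q7⟩
    · omega
    · have := gap hw p6 q7 (by omega)
      omega
    all_goals omega
  · rcases h' with ⟨q1, q2, q3, q4, q5, q6, q7⟩ | ⟨q1, q2, q3, q4, q5, q6, q7⟩ |
      ⟨q1, q2, q3, q4, q5, q6, q7⟩ | ⟨q1, q2, q3, q4, q5, q6, q7⟩ | ⟨q1, q2, q3, q4, q5, q6, q7⟩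
    · omega
    · omega
    · have := gap hw q6 p7 (by omega)
      omega
    all_goals omega
  · rcases h' with ⟨q1, q2, q3, q4, q5, q6, q7⟩ | ⟨q1, q2, q3, q4, q5, q6, q7⟩ |
      ⟨q1, q2, q3, q4, q5, q6, q7⟩ | ⟨q1, q2, q3, q4, q5, q6, q7⟩ | ⟨q1, q2, q3, q4, q5, q6, q7⟩
    · omega
    · omega
    · omega
    · have := gap hw q6 p7 (by omega)
      omega
    · omega
  · rcases h' with ⟨q1, q2, q3, q4, q5, q6, q7⟩ | ⟨q1, q2, q3, q4, q5, q6, q7⟩ |
      ⟨q1, q2, q3, q4, q5, q6, q7⟩ | ⟨q1, q2, q3, q4, q5, q6, q7⟩ | ⟨q1, q2, q3, q4, q5, q6, q7⟩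
    · omega
    · omega
    · omega
    · omega
    · have := gap hw p6 q7 (by omega)
      omega

/-- The angle near a port. -/
theorem near_ang (hcd : r.c + 2 ≤ r.d) (hab : r.a + 2 ≤ r.b) (h : PosAt r w R τ P)
    (h1 : |g.1 - P.1| ≤ 2) (h2 : |g.2 - P.2| ≤ 2) (hl : 1 ≤ lay r g) :
    |ang r g - ang r P| ≤ 2 := by
  have h3 := r.ha
  have h4 := r.hb
  obtain ⟨x, y⟩ := P
  obtain ⟨x', y'⟩ := g
  unfold PosAt at h
  unfold lay at hl
  rw [abs_le] at h1 h2
  simp only at h h1 h2 hl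
  rw [abs_le]
  rcases h with ⟨p1, p2, p3, p4, p5, p6, p7⟩ | ⟨p1, p2, p3, p4, p5, p6, p7⟩ |
    ⟨p1, p2, p3, p4, p5, p6, p7⟩ | ⟨p1, p2, p3, p4, p5, p6, p7⟩ | ⟨p1, p2, p3, p4, p5, p6, p7⟩
  · rw [ang_s0 (x := x) (y := y) (by omega) (by omega) (by omega),
      ang_s0 (by omega) (by omega) (by omega)]
    omega
  · rw [ang_s1 (x := x) (y := y) (by omega) (by omega) (by omega),
      ang_s1 (by omega) (by omega) (by omega)]
    omega
  · rw [ang_s2 (x := x) (y := y) (by omega) (by omega) (by omega),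
      ang_s2 (by omega) (by omega) (by omega)]
    omega
  · rw [ang_s3 (x := x) (y := y) (by omega) (by omega) (by omega),
      ang_s3 (by omega) (by omega) (by omega)]
    omega
  · rw [ang_s4 (x := x) (y := y) (by omega) (by omega) (by omega),
      ang_s4 (by omega) (by omega) (by omega)]
    omega

/-- Cells near a port are allowed. -/
theorem near_ok (hd : 3 ≤ r.d) (ha : r.a ≤ -4) (hb : 4 ≤ r.b) (h : PosAt r w R τ P)
    (h1 : |g.1 - P.1| ≤ 2) (h2 : |g.2 - P.2| ≤ 2) : CellOk g := by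
  have h3 := r.ha
  have h4 := r.hb
  unfold PosAt at h
  rw [abs_le] at h1 h2
  unfold CellOk
  rcases h with ⟨p1, p2, p3, p4, p5, p6, p7⟩ | ⟨p1, p2, p3, p4, p5, p6, p7⟩ |
    ⟨p1, p2, p3, p4, p5, p6, p7⟩ | ⟨p1, p2, p3, p4, p5, p6, p7⟩ | ⟨p1, p2, p3, p4, p5, p6, p7⟩
  all_goals omega

end Pool.Agent.Perc.Rt

end Partperc3RoutesD
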