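import Pool.Agent.Lib.MP_6bd702_zc.Pre
import Pool.Agent.Lib.MP_6bd702_zc.Y014
import Pool.Agent.Lib.MP_6bd702_zc.Y008
import Pool.Agent.Lib.MP_6bd702_z.Z099
import Pool.Agent.Lib.MP_6bd702_zc.Y015
import Pool.Agent.Lib.MP_6bd702_z.Z076
import Pool.Agent.Lib.MP_6bd702_zc.Y003

section Partperc3IdentO

/-!
# The exact three-leg probability (task IdentO; with Schur3 of helper13)
-/

set_option autoImplicit false

namespace Pool.Agent.Perc

open Finset MvPolynomial

variable {q : ℂ}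

namespace IdentO

/-- The constants of the sum of the components for odd circumference. -/
noncomputable def KO (q : ℂ) : ℕ → ℂ
  | 0 => 1
  | m + 1 => KO q m / (3 * q * (9 * q) ^ m)

/-- The constants of the second three-leg family (shifted). -/
noncomputable def KT (q : ℂ) : ℕ → ℂ
  | 0 => 1 / (-q ^ 3 * (1 - q) ^ 3)
  | m + 1 => KT q m / (-3 * q ^ 2 * (9 * q) ^ (2 * m + 2))

/-- The constants of the first three-leg family. -/
noncomputable def aa (q : ℂ) : ℕ → ℂ
  | 0 => 1 / (-q * (1 - q) ^ 3)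
  | m + 1 => kO q m * KT q m

/-- The constants of the second three-leg family. -/
noncomputable def bb (q : ℂ) : ℕ → ℂ
  | 0 => 0
  | m + 1 => KT q m

theorem q_ne_one (hq : q ^ 2 + q + 1 = 0) : q ≠ 1 := by
  rintro rfl; norm_num at hq

theorem one_sub_ne (hq : q ^ 2 + q + 1 = 0) : 1 - q ≠ 0 :=
  sub_ne_zero.2 (q_ne_one hq).symm

theorem bb_mul (hq : q ^ 2 + q + 1 = 0) (m : ℕ) : bb q (m + 1) * q ^ 2 = kM q m * aa q m := by
  have h0 := IdentA.q_ne hq
  have h9 := IdentA.nine_ne hq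
  have h1 := one_sub_ne hq
  cases m with
  | zero =>
    rw [bb, KT, kM, aa, pow_zero]
    field_simp
  | succ m =>
    rw [bb, KT, kM, aa, kO]
    have h2 : (9 * q) ^ (m + 1) ≠ 0 := pow_ne_zero _ h9
    have h3 : (9 * q) ^ (2 * m + 2) = (9 * q) ^ (m + 1) * (9 * q) ^ (m + 1) := by
      rw [← pow_add]; congr 1; ring
    rw [h3]
    generalize (9 * q) ^ (m + 1) = t at h2 ⊢
    field_simp

theorem KT_eq (hq : q ^ 2 + q + 1 = 0) (m : ℕ) :
    KT q m * (1 - q ^ 2) = KF q (m + 1) * KO q (m + 1) := by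
  have h0 := IdentA.q_ne hq
  have h9 := IdentA.nine_ne hq
  have h1 := one_sub_ne hq
  induction m with
  | zero =>
    rw [KT, KF, KF, KO, KO, pow_zero]
    field_simp
    linear_combination (-q ^ 2 + 4 * q - 3) * hq
  | succ m ih =>
    have e1 : KF q (m + 1 + 1) = KF q (m + 1) / (-q * (9 * q) ^ (m + 1)) := by rw [KF]
    have e2 : KO q (m + 1 + 1) = KO q (m + 1) / (3 * q * (9 * q) ^ (m + 1)) := by rw [KO]
    rw [e1, e2, KT]
    have h2 : (9 * q) ^ (m + 1) ≠ 0 := pow_ne_zero _ h9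
    have h3 : (9 * q) ^ (2 * m + 2) = (9 * q) ^ (m + 1) * (9 * q) ^ (m + 1) := by
      rw [← pow_add]; congr 1; ring
    rw [h3]
    generalize (9 * q) ^ (m + 1) = t at h2 ⊢
    have h4 : KT q m / (-3 * q ^ 2 * (t * t)) * (1 - q ^ 2) =
        KT q m * (1 - q ^ 2) / (-3 * q ^ 2 * (t * t)) := by ring
    rw [h4, ih]
    field_simp

theorem SS3_zero (hq : q ^ 2 + q + 1 = 0) : SS3 q 0 = C (aa q 0) * PS q 0 := by
  apply MvPolynomial.funext
  intro w
  rw [eval_SS3_zero hq w, PS_zero, aa]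
  simp only [map_mul, map_sub, eval_C, eval_X]
  ring

theorem TT2_eq (hq : q ^ 2 + q + 1 = 0) (m : ℕ) :
    TT2 q (m + 1) = C (KT q m) * PT q (m + 1) :=
  ((rec3_ST hq).eq_schur hq (a := aa q) (b := bb q) (SS3_zero hq) (fun _ => rfl) (bb_mul hq) m).2

theorem FO_eq (hq : q ^ 2 + q + 1 = 0) (m : ℕ) : FO q m = C (KO q m) * GO m := by
  have h0 := IdentA.q_ne hq
  have h9 := IdentA.nine_ne hq
  refine (recO_FO hq).eq_schur hq (a := KO q) ?_ (fun m => ?_) m
  · apply MvPolynomial.funext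
    intro w
    rw [eval_FO_zero hq w, eval_C, KO]
  · rw [KO]
    have h2 : (9 * q) ^ m ≠ 0 := pow_ne_zero _ h9
    field_simp

theorem KO_ne (hq : q ^ 2 + q + 1 = 0) (m : ℕ) : KO q m ≠ 0 := by
  have h0 := IdentA.q_ne hq
  have h9 := IdentA.nine_ne hq
  induction m with
  | zero => simp [KO]
  | succ m ih =>
    rw [KO]
    exact div_ne_zero ih (mul_ne_zero (mul_ne_zero (by norm_num) h0) (pow_ne_zero _ h9))

theorem sum_eq (hq : q ^ 2 + q + 1 = 0) (m : ℕ) :
    ∑ p ∈ nco (2 * m + 1), eval (fun _ => 1) (PsiO q m p) = KO q m * eval (fun _ => 1) (GO m) := by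
  have h := congrArg (eval (fun _ => (1 : ℂ))) (FO_eq hq m)
  rw [FO, map_sum, map_mul, eval_C] at h
  exact h

end IdentO

theorem sum_PsiO_ne (hq : q ^ 2 + q + 1 = 0) (n : ℕ) :
    ∑ p ∈ nco (2 * n + 1), eval (fun _ => 1) (PsiO q n p) ≠ 0 := by
  rw [IdentO.sum_eq hq n]
  exact mul_ne_zero (IdentO.KO_ne hq n) (eval_GO_ne n)

/-- The exact value of the three-leg sum at the homogeneous point. -/
theorem tri_one (hq : q ^ 2 + q + 1 = 0) (m : ℕ) :
    ∑ s ∈ anns (2 * m + 2), ∑ p ∈ nco (2 * m + 3), eval (fun _ => 1) (PsiS q (m + 1) s) *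
      eval (fun _ => 1) (PsiO q (m + 1) p) * B2 (2 * m + 1) s p =
      ((Num3.p3v (m + 1) : ℝ) : ℂ) *
        ((∑ s ∈ anns (2 * (m + 1)), eval (fun _ => 1) (PsiS q (m + 1) s)) *
          ∑ p ∈ nco (2 * (m + 1) + 1), eval (fun _ => 1) (PsiO q (m + 1) p)) := by
  have h1 : ∑ s ∈ anns (2 * m + 2), ∑ p ∈ nco (2 * m + 3), eval (fun _ => 1) (PsiS q (m + 1) s) *
      eval (fun _ => 1) (PsiO q (m + 1) p) * B2 (2 * m + 1) s p =
      eval (fun _ => 1) (TT2 q (m + 1)) := by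
    rw [TT2, map_sum]
    refine Finset.sum_congr rfl fun s _ => ?_
    rw [map_sum]
    refine Finset.sum_congr rfl fun p _ => ?_
    rw [map_mul, map_mul, eval_C, PsiM, eval_one_recP, eval_rename]
    have e : ((fun _ => (1 : ℂ)) ∘ fun k => if k < 2 * m + 1 then k else k + 1) = fun _ => 1 := rfl
    rw [e]
    ring
  rw [h1, IdentO.TT2_eq hq, map_mul, eval_C, eval_one_PT, IdentA.sum_eq hq, IdentO.sum_eq hq,
    p3v_eq_GO, GP, map_mul, QSchurQ.eP2_eq]
  have h2 := eval_GO_ne (m + 1)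
  have h3 := eval_GP_one_ne (m + 1)
  rw [GP, map_mul, QSchurQ.eP2_eq] at h3
  have h4 := IdentO.KT_eq hq m
  generalize eval (fun _ => 1) (GO (m + 1)) = g at h2 ⊢
  generalize eval (fun _ => 1) (schur (2 * (m + 1)) eS3) = s1 at h3 ⊢
  generalize eval (fun _ => 1) (schur (2 * (m + 1)) SumB.eP) = s2 at h3 ⊢
  generalize eval (fun _ => 1) (schur (2 * (m + 1 + 1)) eS3) = s3
  have h5 : s1 ≠ 0 := left_ne_zero_of_mul h3
  have h6 : s2 ≠ 0 := right_ne_zero_of_mul h3
  have h7 : KF q (m + 1) * (s1 * s2) * (IdentO.KO q (m + 1) * g) =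
      KF q (m + 1) * IdentO.KO q (m + 1) * (s1 * s2 * g) := by ring
  rw [h7, ← h4]
  field_simp

end Pool.Agent.Perc

end Partperc3IdentO

section Partperc3TwoO

/-!
# The two-sided cylinder with circumference `2 m + 1` above and `2 m` below (task TwoO)

Model: perq/TwoC.lean. The faces of the upper half are `(x, y)` with `0 ≤ x < 2 m + 1`,
`0 ≤ y < M`, those of the lower half `0 ≤ x < 2 m`, `- M ≤ y < 0`.
-/

set_option autoImplicit false

namespace Pool.Agent.Perc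

open Finset MvPolynomial Filter Topology

/-- Run the rows `M - 1, …, 0` of the cylinder of odd circumference `L`, the top row first. -/
def runO (L : ℕ) (ω : Cfg) : ℕ → (ℕ → ℕ) → (ℕ → ℕ)
  | 0, p => p
  | M + 1, p => runO L ω M (trowO L (fun i => ω ((i : ℤ), (M : ℤ))) p)

/-- The state of the upper half of odd circumference. -/
def upOS (L M : ℕ) (ω : Cfg) : ℕ → ℕ := runO L ω M (flatO L)

namespace TwoO

open CylArmB TwoC

theorem rowO_congr {w w' : ℕ → Bool} (p : ℕ → ℕ) {k : ℕ} (h : ∀ i < k, w i = w' i) :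
    rowO w k p = rowO w' k p := by
  induction k with
  | zero => rfl
  | succ k ih =>
    simp only [rowO]
    rw [ih (fun i hi => h i (by omega)), h k (by omega)]

theorem trowO_congr {L : ℕ} {w w' : ℕ → Bool} (p : ℕ → ℕ) (h : ∀ i < L, w i = w' i) :
    trowO L w p = trowO L w' p := by
  unfold trowO
  rw [rowO_congr _ h]

theorem runO_congr {L : ℕ} {ω ω' : Cfg} {M : ℕ}
    (h : ∀ i < L, ∀ m < M, ω ((i : ℤ), (m : ℤ)) = ω' ((i : ℤ), (m : ℤ))) (p : ℕ → ℕ) :
    runO L ω M p = runO L ω' M p := by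
  induction M generalizing p with
  | zero => rfl
  | succ M ih =>
    simp only [runO]
    rw [ih (fun i hi m hm => h i hi m (by omega)),
      trowO_congr p (fun i hi => h i hi M (by omega))]

theorem ex_runO {L : ℕ} (M : ℕ) (f : (ℕ → ℕ) → ℂ) (p : ℕ → ℕ) :
    ex (RF 0 L 0 M) (fun ω => f (runO L ω M p)) = ((avgO L)^[M] f) p := by
  induction M generalizing p with
  | zero =>
    unfold ex
    have e : RF 0 L 0 ((0 : ℕ) : ℤ) = ∅ := by simp [RF]
    rw [e]
    simp [runO]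
  | succ M ih =>
    rw [Function.iterate_succ_apply', ex_row]
    unfold avgO
    congr 1
    refine sum_congr rfl (fun T _ => ?_)
    change _ = ((avgO L)^[M] f) _
    rw [← ih]
    apply ex_congr
    intro T2 hT2
    simp only [runO]
    congr 1
    have hT2' : ∀ i : ℕ, ((i : ℤ), (M : ℤ)) ∉ T2 := fun i hi => by
      have := (CylArmB.mem_RF.1 (hT2 hi)).2.2
      simp at this
    rw [trowO_congr p
      (w := fun i => cfg T2 ((i : ℤ), (M : ℤ)) || decide (((i : ℤ), (M : ℤ)) ∈ row M T))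
      (w' := fun k => decide (k ∈ T))]
    · apply runO_congr
      intro i _ m hm
      have : ((i : ℤ), (m : ℤ)) ∉ row M T := by
        intro h
        obtain ⟨k, _, hk⟩ := mem_row.1 h
        have := congrArg Prod.snd hk
        simp only [Nat.cast_inj] at this
        omega
      simp [this]
    · intro i _
      simp [cfg, hT2', nat_mem_row]

theorem disjO (L L' M : ℕ) : Disjoint (RF 0 L 0 M) (RF 0 L' (-(M : ℤ)) 0) := by
  rw [disjoint_left]
  intro f h1 h2
  rw [CylArmB.mem_RF] at h1 h2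
  omega

/-- The two halves are independent. -/
theorem ex_twoO (L L' M : ℕ) (f : St → (ℕ → ℕ) → ℂ) :
    ex (RF 0 L 0 M ∪ RF 0 L' (-(M : ℤ)) 0) (fun ω => f (loS L' M ω) (upOS L M ω)) =
      ((avgO L)^[M] (fun p => ((avgL L')^[M] (fun s => f s p)) (s0 L'))) (flatO L) := by
  rw [← ex_runO, ex_union (disjO L L' M)]
  apply ex_congr
  intro T1 hT1
  rw [← ex_run]
  have e1 : ∀ h : St → ℂ, ex (RF 0 L' 0 M) (fun ω => h (run L' ω M (s0 L'))) =
      ex (RF 0 L' (-(M : ℤ)) 0) (fun ω => h (loS L' M ω)) := fun h => (ex_low L' M h).symm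
  rw [e1 (fun s => f s (runO L (cfg T1) M (flatO L)))]
  apply ex_congr
  intro T2 hT2
  have e2 : upOS L M (fun x => cfg T1 x || cfg T2 x) = runO L (cfg T1) M (flatO L) := by
    unfold upOS
    apply runO_congr
    intro i _ m hm
    have h1 : ((i : ℤ), (m : ℤ)) ∉ T2 := by
      intro h1
      have := (CylArmB.mem_RF.1 (hT2 h1)).2.2
      simp only at this
      omega
    simp [cfg, h1]
  have e3 : loS L' M (fun x => cfg T1 x || cfg T2 x) = loS L' M (cfg T2) := by
    unfold loS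
    apply run_congr
    intro i _ m hm
    have h1 : ((i : ℤ), -1 - (m : ℤ)) ∉ T1 := by
      intro h1
      have := (CylArmB.mem_RF.1 (hT1 h1)).2.1
      simp only at this
      omega
    simp [lowC, cfg, h1]
  rw [e2, e3]

theorem nco_runO (L : ℕ) (ω : Cfg) (M : ℕ) {p : ℕ → ℕ} (hp : NCO L p) :
    NCO L (runO L ω M p) := by
  induction M generalizing p with
  | zero => exact hp
  | succ M ih => exact ih (hp.trowO _)

open Classical in
/-- The law of the state after `M` rows. -/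
noncomputable def muO (L M : ℕ) (t : ℕ → ℕ) : ℂ :=
  ((avgO L)^[M] (fun p => if p = t then 1 else 0)) (flatO L)

theorem iter_eqO {n : ℕ} (M : ℕ) (h : (ℕ → ℕ) → ℂ) :
    ((avgO (2 * n + 1))^[M] h) (flatO (2 * n + 1)) =
      ∑ t ∈ nco (2 * n + 1), muO (2 * n + 1) M t * h t := by
  classical
  unfold muO
  rw [← ex_runO]
  have e1 : ∀ t ∈ nco (2 * n + 1), ((avgO (2 * n + 1))^[M] (fun p => if p = t then 1 else 0))
      (flatO (2 * n + 1)) * h t = ex (RF 0 ((2 * n + 1 : ℕ) : ℤ) 0 M) (fun ω =>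
        (if runO (2 * n + 1) ω M (flatO (2 * n + 1)) = t then (1 : ℂ) else 0) * h t) := by
    intro t _
    rw [← ex_runO]
    unfold ex
    rw [← sum_mul]
    ring
  rw [sum_congr rfl e1, ← ex_sum]
  apply ex_congr
  intro T _
  simp only [ite_mul, one_mul, zero_mul]
  rw [sum_ite_eq, if_pos]
  rw [mem_nco]
  exact nco_runO _ _ _ (nco_flatO (by omega))

theorem tendsto_muO {q : ℂ} (hq : q ^ 2 + q + 1 = 0) {n : ℕ}
    (h0 : ∑ p ∈ nco (2 * n + 1), eval (fun _ => 1) (PsiO q n p) ≠ 0) {t : ℕ → ℕ}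
    (ht : t ∈ nco (2 * n + 1)) :
    Tendsto (fun M : ℕ => muO (2 * n + 1) M t) atTop
      (𝓝 (eval (fun _ => 1) (PsiO q n t) /
        ∑ p ∈ nco (2 * n + 1), eval (fun _ => 1) (PsiO q n p))) := by
  classical
  have h1 := tendsto_avgO hq h0 (fun p => if p = t then (1 : ℂ) else 0)
  have e : ∑ p ∈ nco (2 * n + 1), eval (fun _ => 1) (PsiO q n p) * (if p = t then (1 : ℂ) else 0) =
      eval (fun _ => 1) (PsiO q n t) := by
    simp only [mul_ite, mul_one, mul_zero]
    rw [sum_ite_eq' , if_pos ht]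
  rw [e] at h1
  refine h1.congr fun M => ?_
  unfold muO
  congr 1

end TwoO

open CylArmB TwoO in
/-- The exact asymptotic probability of the three-leg event. -/
theorem tendsto_tri {m : ℕ} (hm : 0 < m) :
    Tendsto (fun M : ℕ => ex (RF 0 ((2 * m + 1 : ℕ) : ℤ) 0 M ∪ RF 0 ((2 * m : ℕ) : ℤ) (-M) 0)
      (fun ω => B2 (2 * m - 1) (loS (2 * m) M ω) (upOS (2 * m + 1) M ω))) atTop
      (𝓝 ((Num3.p3v m : ℝ) : ℂ)) := by
  obtain ⟨n, rfl⟩ : ∃ n, m = n + 1 := ⟨m - 1, by omega⟩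
  obtain ⟨q, hq⟩ : ∃ q : ℂ, q ^ 2 + q + 1 = 0 := by
    obtain ⟨z, hz⟩ := IsAlgClosed.exists_root (Polynomial.X ^ 2 + Polynomial.X + 1 : Polynomial ℂ)
      (by
        have : (Polynomial.X ^ 2 + Polynomial.X + 1 : Polynomial ℂ).degree = 2 := by compute_degree!
        rw [this]; decide)
    refine ⟨z, ?_⟩
    simpa [Polynomial.IsRoot] using hz
  have hS := sum_PsiS_ne hq (n + 1)
  have hO := sum_PsiO_ne hq (n + 1)
  have e1 : ∀ M : ℕ, ex (RF 0 ((2 * (n + 1) + 1 : ℕ) : ℤ) 0 M ∪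
      RF 0 ((2 * (n + 1) : ℕ) : ℤ) (-M) 0)
      (fun ω => B2 (2 * (n + 1) - 1) (loS (2 * (n + 1)) M ω) (upOS (2 * (n + 1) + 1) M ω)) =
      ∑ s ∈ anns (2 * (n + 1)), ∑ p ∈ nco (2 * (n + 1) + 1),
        TwoC.muM (2 * (n + 1)) M s * muO (2 * (n + 1) + 1) M p * B2 (2 * (n + 1) - 1) s p := by
    intro M
    rw [ex_twoO (2 * (n + 1) + 1) (2 * (n + 1)) M (B2 (2 * (n + 1) - 1)), iter_eqO, sum_comm]
    refine sum_congr rfl fun p _ => ?_
    rw [TwoC.iter_eq, mul_sum]
    refine sum_congr rfl fun s _ => ?_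
    ring
  simp only [e1]
  have h2 := tri_one hq n
  have e2 : ((Num3.p3v (n + 1) : ℝ) : ℂ) = ∑ s ∈ anns (2 * (n + 1)),
      ∑ p ∈ nco (2 * (n + 1) + 1),
        eval (fun _ => 1) (PsiS q (n + 1) s) /
          (∑ s ∈ anns (2 * (n + 1)), eval (fun _ => 1) (PsiS q (n + 1) s)) *
        (eval (fun _ => 1) (PsiO q (n + 1) p) /
          ∑ p ∈ nco (2 * (n + 1) + 1), eval (fun _ => 1) (PsiO q (n + 1) p)) *
        B2 (2 * (n + 1) - 1) s p := by
    rw [eq_comm, ← mul_left_inj' (mul_ne_zero hS hO), ← h2, sum_mul]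
    refine sum_congr rfl fun s _ => ?_
    rw [sum_mul]
    refine sum_congr rfl fun p _ => ?_
    rw [show 2 * (n + 1) - 1 = 2 * n + 1 by omega]
    field_simp
  rw [e2]
  refine tendsto_finsetSum _ fun s hs => ?_
  refine tendsto_finsetSum _ fun p hp => ?_
  exact ((TwoC.tendsto_muM hq hS hs).mul (tendsto_muO hq hO hp)).mul_const _

end Pool.Agent.Perc

end Partperc3TwoO

section Partperc3TwDefs

/-!
# The twisted plane and the twisted cylinder: definitions

The twisted plane has the upper vertices `(x, y)` with `y ≥ 0` and the lower vertices `(x, y)` with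
`y < 0`; the faces with `y ≥ 0` are unit squares with upper corners, the faces with `y < 0` unit
squares with corners in lower coordinates, and the lower corner `(l, 0)` is glued to the upper
vertex `(emP l, 0)`. So the vertex `(-1, 0)` has no lower face, and the three vertices
`A = (-2, 0)`, `B = (-1, 0)`, `C = (0, 0)` form the core. The two-sided cylinder has the
circumference `2 m + 1` above and `2 m` below; in its universal cover the lower corner `(l, 0)` is
glued to `(emC m l, 0)`.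
-/

set_option autoImplicit false

namespace Pool.Agent.Perc

open Finset

/-- The upper position of the lower corner `(l, 0)` in the twisted plane. -/
def emP (l : ℤ) : ℤ := if 0 ≤ l then l else l - 1

/-- The upper position of the lower corner `(l, 0)` in the universal cover of the cylinder. -/
def emC (m : ℕ) (l : ℤ) : ℤ := (2 * m + 1) * (l / (2 * m)) + l % (2 * m)

/-- The vertex of a corner of a lower face. -/
def twV (em : ℤ → ℤ) (v : ℤ × ℤ) : ℤ × ℤ := if v.2 = 0 then (em v.1, 0) else v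

/-- The bonds in the faces of `F`. -/
def BondW (em : ℤ → ℤ) (ω : Cfg) (F : Set (ℤ × ℤ)) (u v : ℤ × ℤ) : Prop :=
  Bond ω {f | f ∈ F ∧ 0 ≤ f.2} u v ∨
    ∃ u' v', Bond ω {f | f ∈ F ∧ f.2 < 0} u' v' ∧ u = twV em u' ∧ v = twV em v'

/-- Connection by bonds in the faces of `F`. -/
def ConnW (em : ℤ → ℤ) (ω : Cfg) (F : Set (ℤ × ℤ)) : ℤ × ℤ → ℤ × ℤ → Prop :=
  Relation.ReflTransGen (BondW em ω F)

/-- The periodic extension of a configuration of the cylinder. -/
def perW (m : ℕ) (ω : Cfg) : Cfg := fun f =>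
  if 0 ≤ f.2 then ω (f.1 % (2 * m + 1), f.2) else ω (f.1 % (2 * m), f.2)

/-- The fundamental domain of the cylinder of heights `|y| ≤ M`. -/
noncomputable def FW (m M : ℕ) : Finset (ℤ × ℤ) :=
  RF 0 ((2 * m + 1 : ℕ) : ℤ) 0 M ∪ RF 0 ((2 * m : ℕ) : ℤ) (-M) 0

/-- The first coordinates of the core vertices. -/
def Core (x : ℤ) : Prop := x = -2 ∨ x = -1 ∨ x = 0

/-- Every core vertex is connected to a neighbouring core, and some core vertex is connected to its
translate. -/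
def Wrap3 (m M : ℕ) : Set Cfg :=
  {ω | (∀ x, Core x → ∃ x' s, Core x' ∧ (s = 1 ∨ s = -1) ∧
      ConnW (emC m) (perW m ω) (strip M) (x, 0) (x' + s * (2 * m + 1), 0)) ∧
    ∃ x, Core x ∧ ConnW (emC m) (perW m ω) (strip M) (x, 0) (x + (2 * m + 1), 0)}

/-- The faces of the box of radius `R` of the twisted plane. -/
noncomputable def BW (R : ℤ) : Finset (ℤ × ℤ) := RF (-(R + 2)) R 0 R ∪ RF (-(R + 1)) R (-R) 0

/-- The boundary of the box. -/
def BdW (R : ℤ) (v : ℤ × ℤ) : Prop :=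
  (0 ≤ v.2 ∧ (v.1 = -(R + 2) ∨ v.1 = R ∨ v.2 = R)) ∨
    (v.2 < 0 ∧ (v.1 = -(R + 1) ∨ v.1 = R ∨ v.2 = -R))

/-- The three core vertices are connected to the boundary of the box of radius `R`. -/
def Arm3 (R : ℤ) : Set Cfg :=
  {ω | ∀ x, Core x → ∃ v, ConnW emP ω (BW R) (x, 0) v ∧ BdW R v}

/-- Connection in the strip of the cylinder, where all the vertices of the heights `M` and `-M` are
identified. -/
def RelW (m M : ℕ) (ω : Cfg) (u v : ℤ × ℤ) : Prop :=
  ConnW (emC m) (perW m ω) (strip M) u v ∨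
    ((∃ u', ConnW (emC m) (perW m ω) (strip M) u u' ∧ (u'.2 = M ∨ u'.2 = -M)) ∧
      ∃ v', ConnW (emC m) (perW m ω) (strip M) v v' ∧ (v'.2 = M ∨ v'.2 = -M))

/-- The partner of a site of an odd state in the universal cover (`N` sites per period). -/
noncomputable def liftO (N : ℕ) (p : ℕ → ℕ) (x : ℤ) : ℤ :=
  x / N * N + (p (x % N).toNat : ℤ) +
    (if labO p (x % N).toNat = true then (if (x % N).toNat < p (x % N).toNat then -(N : ℤ) else N)
      else 0)

/-- Two gaps of the universal cover are in the same region of an odd state: no arc and no through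
line separates them. -/
def SameRegO (N : ℕ) (p : ℕ → ℕ) (k l : ℤ) : Prop :=
  ∀ x : ℤ, (liftO N p x = x → (x < k ↔ x < l)) ∧
    ((x < k ↔ liftO N p x < k) ↔ (x < l ↔ liftO N p x < l))

end Pool.Agent.Perc

end Partperc3TwDefs

section Partperc3TwQ

/-!
# The twisted plane as a complex of quadrangles (task TwQ)
-/

set_option autoImplicit false

namespace Pool.Agent.Perc.Q

open Finset Pool.Agent.Perc

/-- The corners of a unit square, counterclockwise from the lower left one. -/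
def cor0 (f : ℤ × ℤ) (k : ZMod 4) : ℤ × ℤ :=
  if k = 0 then f else if k = 1 then (f.1 + 1, f.2) else if k = 2 then (f.1 + 1, f.2 + 1)
  else (f.1, f.2 + 1)

/-- The corners of a face of the twisted plane. -/
def corT (em : ℤ → ℤ) (f : ℤ × ℤ) (k : ZMod 4) : ℤ × ℤ :=
  if 0 ≤ f.2 then cor0 f k else twV em (cor0 f k)

theorem cor0_0 (f : ℤ × ℤ) : cor0 f 0 = f := rfl

theorem cor0_1 (f : ℤ × ℤ) : cor0 f 1 = (f.1 + 1, f.2) := rfl

theorem cor0_2 (f : ℤ × ℤ) : cor0 f 2 = (f.1 + 1, f.2 + 1) := rfl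

theorem cor0_3 (f : ℤ × ℤ) : cor0 f 3 = (f.1, f.2 + 1) := rfl

theorem k4_cases (k : ZMod 4) : k = 0 ∨ k = 1 ∨ k = 2 ∨ k = 3 := by revert k; decide

theorem k01 : (0 : ZMod 4) + 1 = 1 := rfl
theorem k11 : (1 : ZMod 4) + 1 = 2 := rfl
theorem k21 : (2 : ZMod 4) + 1 = 3 := rfl
theorem k31 : (3 : ZMod 4) + 1 = 0 := rfl
theorem k02 : (0 : ZMod 4) + 2 = 2 := rfl
theorem k12 : (1 : ZMod 4) + 2 = 3 := rfl
theorem k22 : (2 : ZMod 4) + 2 = 0 := rfl
theorem k32 : (3 : ZMod 4) + 2 = 1 := rfl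

theorem corT_up {em : ℤ → ℤ} {f : ℤ × ℤ} (h : 0 ≤ f.2) (k : ZMod 4) :
    corT em f k = cor0 f k := if_pos h

theorem corT_low {em : ℤ → ℤ} {f : ℤ × ℤ} (h : f.2 < 0) (k : ZMod 4) :
    corT em f k = twV em (cor0 f k) := if_neg (by omega)

theorem twV_zero {em : ℤ → ℤ} {x y : ℤ} (h : y = 0) : twV em (x, y) = (em x, 0) := if_pos h

theorem twV_ne {em : ℤ → ℤ} {x y : ℤ} (h : y ≠ 0) : twV em (x, y) = (x, y) := if_neg h

/-- The corners of a face, explicitly. -/
theorem corT_eq (em : ℤ → ℤ) (x y : ℤ) :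
    corT em (x, y) 0 = (x, y) ∧ corT em (x, y) 1 = (x + 1, y) ∧
      (y ≠ -1 → corT em (x, y) 2 = (x + 1, y + 1) ∧ corT em (x, y) 3 = (x, y + 1)) ∧
      (y = -1 → corT em (x, y) 2 = (em (x + 1), 0) ∧ corT em (x, y) 3 = (em x, 0)) := by
  rcases lt_or_ge y 0 with h | h
  · simp only [corT_low (f := (x, y)) h, cor0_0, cor0_1, cor0_2, cor0_3]
    refine ⟨twV_ne (by omega), twV_ne (by omega), fun h1 => ⟨twV_ne (by omega), twV_ne (by omega)⟩,
      fun h1 => ⟨twV_zero (by omega), twV_zero (by omega)⟩⟩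
  · simp only [corT_up (f := (x, y)) h, cor0_0, cor0_1, cor0_2, cor0_3]
    refine ⟨trivial, trivial, fun h1 => ⟨trivial, trivial⟩, fun h1 => absurd h1 (by omega)⟩

theorem corT_inj {em : ℤ → ℤ} (hem : StrictMono em) {f : ℤ × ℤ} {k : ZMod 4} {f' : ℤ × ℤ}
    {k' : ZMod 4} (h : corT em f k = corT em f' k') (h' : corT em f (k + 1) = corT em f' (k' + 1)) :
    f = f' ∧ k = k' := by
  obtain ⟨x, y⟩ := f
  obtain ⟨x', y'⟩ := f'
  obtain ⟨a0, a1, a2, a3⟩ := corT_eq em x y
  obtain ⟨b0, b1, b2, b3⟩ := corT_eq em x' y'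
  have m1 := hem (lt_add_one x)
  have m2 := hem (lt_add_one x')
  by_cases hy : y = -1
  · obtain ⟨a4, a5⟩ := a3 hy
    by_cases hy' : y' = -1
    · obtain ⟨b4, b5⟩ := b3 hy'
      rcases k4_cases k with rfl | rfl | rfl | rfl <;>
        rcases k4_cases k' with rfl | rfl | rfl | rfl <;>
        simp only [k01, k11, k21, k31, a0, a1, a4, a5, b0, b1, b4, b5, Prod.mk.injEq,
          hem.injective.eq_iff] at h h' ⊢ <;>
        first | omega | (refine ⟨⟨?_, ?_⟩, trivial⟩ <;> omega)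
    · obtain ⟨b4, b5⟩ := b2 hy'
      rcases k4_cases k with rfl | rfl | rfl | rfl <;>
        rcases k4_cases k' with rfl | rfl | rfl | rfl <;>
        simp only [k01, k11, k21, k31, a0, a1, a4, a5, b0, b1, b4, b5, Prod.mk.injEq] at h h' ⊢ <;>
        omega
  · obtain ⟨a4, a5⟩ := a2 hy
    by_cases hy' : y' = -1
    · obtain ⟨b4, b5⟩ := b3 hy'
      rcases k4_cases k with rfl | rfl | rfl | rfl <;>
        rcases k4_cases k' with rfl | rfl | rfl | rfl <;>
        simp only [k01, k11, k21, k31, a0, a1, a4, a5, b0, b1, b4, b5, Prod.mk.injEq] at h h' ⊢ <;>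
        omega
    · obtain ⟨b4, b5⟩ := b2 hy'
      rcases k4_cases k with rfl | rfl | rfl | rfl <;>
        rcases k4_cases k' with rfl | rfl | rfl | rfl <;>
        simp only [k01, k11, k21, k31, a0, a1, a4, a5, b0, b1, b4, b5, Prod.mk.injEq] at h h' ⊢ <;>
        first | omega | (refine ⟨⟨?_, ?_⟩, trivial⟩ <;> omega)

/-- The complex with the gluing map `em`. -/
def TQe (em : ℤ → ℤ) (hem : StrictMono em) : QC (ℤ × ℤ) (ℤ × ℤ) where
  c := corT em
  inj := corT_inj hem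

theorem emP_mono : StrictMono emP := by
  intro a b h
  unfold emP
  split_ifs <;> omega

theorem emC_eq (m : ℕ) (l : ℤ) : emC m l = l + l / (2 * m) := by
  unfold emC
  have h := Int.emod_add_mul_ediv l (2 * m)
  have e : (2 * (m : ℤ) + 1) * (l / (2 * m)) = 2 * m * (l / (2 * m)) + l / (2 * m) := by ring
  rw [e]
  omega

theorem emC_mono {m : ℕ} (hm : 0 < m) : StrictMono (emC m) := by
  intro a b h
  rw [emC_eq, emC_eq]
  have h1 : a / (2 * m : ℤ) ≤ b / (2 * m : ℤ) := Int.ediv_le_ediv (by omega) h.le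
  omega

/-- The twisted plane. -/
def TQ : QC (ℤ × ℤ) (ℤ × ℤ) := TQe emP emP_mono

theorem bondQ_iff {em : ℤ → ℤ} (hem : StrictMono em) {ω : Cfg} {F : Set (ℤ × ℤ)} {u v : ℤ × ℤ} :
    BondQ (TQe em hem) ω F u v ↔ BondW em ω F u v := by
  constructor
  · rintro ⟨⟨x, y⟩, hf, k, hk, hu, hv⟩
    change u = corT em (x, y) k at hu
    change v = corT em (x, y) (k + 2) at hv
    subst hu hv
    rcases lt_or_ge y 0 with h | h
    · refine Or.inr ?_
      rw [corT_low (f := (x, y)) h, corT_low (f := (x, y)) h]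
      refine ⟨_, _, ⟨x, y, ⟨hf, h⟩, ?_⟩, rfl, rfl⟩
      rcases k4_cases k with rfl | rfl | rfl | rfl
      · exact Or.inl ⟨hk, Or.inl ⟨rfl, rfl⟩⟩
      · exact Or.inr ⟨hk, Or.inr ⟨rfl, rfl⟩⟩
      · exact Or.inl ⟨hk, Or.inr ⟨rfl, rfl⟩⟩
      · exact Or.inr ⟨hk, Or.inl ⟨rfl, rfl⟩⟩
    · refine Or.inl ?_
      rw [corT_up (f := (x, y)) h, corT_up (f := (x, y)) h]
      refine ⟨x, y, ⟨hf, h⟩, ?_⟩
      rcases k4_cases k with rfl | rfl | rfl | rfl
      · exact Or.inl ⟨hk, Or.inl ⟨rfl, rfl⟩⟩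
      · exact Or.inr ⟨hk, Or.inr ⟨rfl, rfl⟩⟩
      · exact Or.inl ⟨hk, Or.inr ⟨rfl, rfl⟩⟩
      · exact Or.inr ⟨hk, Or.inl ⟨rfl, rfl⟩⟩
  · have key : ∀ x y : ℤ, (x, y) ∈ F → ∀ u v : ℤ × ℤ,
        ((ω (x, y) = true ∧ ((u = (x, y) ∧ v = (x + 1, y + 1)) ∨
          (u = (x + 1, y + 1) ∧ v = (x, y)))) ∨
        (ω (x, y) = false ∧ ((u = (x, y + 1) ∧ v = (x + 1, y)) ∨
          (u = (x + 1, y) ∧ v = (x, y + 1))))) →
        ∃ k, ω (x, y) = ev k ∧ u = cor0 (x, y) k ∧ v = cor0 (x, y) (k + 2) := by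
      rintro x y hf u v (⟨h, ⟨rfl, rfl⟩ | ⟨rfl, rfl⟩⟩ | ⟨h, ⟨rfl, rfl⟩ | ⟨rfl, rfl⟩⟩)
      · exact ⟨0, h, rfl, rfl⟩
      · exact ⟨2, h, rfl, rfl⟩
      · exact ⟨3, h, rfl, rfl⟩
      · exact ⟨1, h, rfl, rfl⟩
    rintro (⟨x, y, ⟨hf, h⟩, hb⟩ | ⟨u', v', ⟨x, y, ⟨hf, h⟩, hb⟩, rfl, rfl⟩)
    · obtain ⟨k, hk, rfl, rfl⟩ := key x y hf u v hb
      exact ⟨(x, y), hf, k, hk, (corT_up (f := (x, y)) h k).symm,
        (corT_up (f := (x, y)) h (k + 2)).symm⟩
    · obtain ⟨k, hk, rfl, rfl⟩ := key x y hf u' v' hb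
      exact ⟨(x, y), hf, k, hk, (corT_low (f := (x, y)) h k).symm,
        (corT_low (f := (x, y)) h (k + 2)).symm⟩

theorem connQ_iff {em : ℤ → ℤ} (hem : StrictMono em) {ω : Cfg} {F : Set (ℤ × ℤ)} {u v : ℤ × ℤ} :
    ConnQ (TQe em hem) ω F u v ↔ ConnW em ω F u v := by
  constructor
  · intro h
    induction h with
    | refl => exact Relation.ReflTransGen.refl
    | tail _ hb ih => exact Relation.ReflTransGen.tail ih ((bondQ_iff hem).1 hb)
  · intro h
    induction h with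
    | refl => exact Relation.ReflTransGen.refl
    | tail _ hb ih => exact Relation.ReflTransGen.tail ih ((bondQ_iff hem).2 hb)

/-- The vertices of the box of radius `r`. -/
def InW (r : ℤ) (v : ℤ × ℤ) : Prop :=
  (0 ≤ v.2 ∧ v.2 ≤ r ∧ -(r + 2) ≤ v.1 ∧ v.1 ≤ r) ∨ (v.2 < 0 ∧ -r ≤ v.2 ∧ -(r + 1) ≤ v.1 ∧ v.1 ≤ r)

theorem inW_corner {r : ℤ} (hr : 0 ≤ r) {f : ℤ × ℤ} (hf : f ∈ BW r) (k : ZMod 4) :
    InW r (TQ.c f k) := by
  obtain ⟨x, y⟩ := f
  change InW r (corT emP (x, y) k)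
  unfold BW RF at hf
  simp only [mem_union, mem_product, mem_Ico] at hf
  obtain ⟨a0, a1, a2, a3⟩ := corT_eq emP x y
  by_cases hy : y = -1
  · obtain ⟨a4, a5⟩ := a3 hy
    unfold InW
    rcases k4_cases k with rfl | rfl | rfl | rfl
    · rw [a0]; simp only; omega
    · rw [a1]; simp only; omega
    · rw [a4]; unfold emP; simp only; split_ifs <;> omega
    · rw [a5]; unfold emP; simp only; split_ifs <;> omega
  · obtain ⟨a4, a5⟩ := a2 hy
    unfold InW
    rcases k4_cases k with rfl | rfl | rfl | rfl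
    · rw [a0]; simp only; omega
    · rw [a1]; simp only; omega
    · rw [a4]; simp only; omega
    · rw [a5]; simp only; omega

/-- Every side of a face is a side of another face in the opposite direction, or one of the three
core edges. -/
theorem exists_opp (f : ℤ × ℤ) (k : ZMod 4) :
    (∃ g l, (TQ.c g l, TQ.c g (l + 1)) = (TQ.c f (k + 1), TQ.c f k)) ∨
      (TQ.c f k, TQ.c f (k + 1)) = ((-1, 0), (0, 0)) ∨
      (TQ.c f k, TQ.c f (k + 1)) = ((-2, 0), (-1, 0)) ∨
      (TQ.c f k, TQ.c f (k + 1)) = ((0, 0), (-2, 0)) := by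
  obtain ⟨x, y⟩ := f
  have hc : ∀ g l, TQ.c g l = corT emP g l := fun _ _ => rfl
  simp only [hc]
  obtain ⟨a0, a1, a2, a3⟩ := corT_eq emP x y
  rcases k4_cases k with rfl | rfl | rfl | rfl
  · -- the bottom side
    rw [k01, a0, a1]
    rcases eq_or_ne y 0 with rfl | hy
    · rcases lt_or_ge x (-2) with h1 | h1
      · refine Or.inl ⟨(x + 1, -1), 2, ?_⟩
        obtain ⟨-, -, -, b3⟩ := corT_eq emP (x + 1) (-1)
        obtain ⟨b4, b5⟩ := b3 rfl
        rw [k21, b4, b5]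
        unfold emP
        rw [if_neg (by omega), if_neg (by omega)]
        simp only [Prod.mk.injEq, and_true]
        omega
      · rcases lt_or_ge x 0 with h2 | h2
        · right
          simp only [Prod.mk.injEq, and_true]
          omega
        · refine Or.inl ⟨(x, -1), 2, ?_⟩
          obtain ⟨-, -, -, b3⟩ := corT_eq emP x (-1)
          obtain ⟨b4, b5⟩ := b3 rfl
          rw [k21, b4, b5]
          unfold emP
          rw [if_pos (by omega), if_pos (by omega)]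
    · refine Or.inl ⟨(x, y - 1), 2, ?_⟩
      obtain ⟨-, -, b2, -⟩ := corT_eq emP x (y - 1)
      obtain ⟨b4, b5⟩ := b2 (by omega)
      rw [k21, b4, b5]
      simp only [Prod.mk.injEq, true_and]
      omega
  · -- the right side
    refine Or.inl ⟨(x + 1, y), 3, ?_⟩
    obtain ⟨b0, b1, b2, b3⟩ := corT_eq emP (x + 1) y
    rw [k31, k11, b0, a1]
    by_cases hy : y = -1
    · rw [(b3 hy).2, (a3 hy).1]
    · rw [(b2 hy).2, (a2 hy).1]
  · -- the top side
    rw [k21]
    by_cases hy : y = -1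
    · obtain ⟨a4, a5⟩ := a3 hy
      rw [a4, a5]
      rcases lt_or_ge x (-1) with h1 | h1
      · refine Or.inl ⟨(x - 1, 0), 0, ?_⟩
        obtain ⟨b0, b1, -, -⟩ := corT_eq emP (x - 1) 0
        rw [k01, b0, b1]
        unfold emP
        rw [if_neg (by omega), if_neg (by omega)]
        simp only [Prod.mk.injEq, and_true, true_and]
        omega
      · rcases lt_or_ge x 0 with h2 | h2
        · right; right; right
          obtain rfl : x = -1 := by omega
          rfl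
        · refine Or.inl ⟨(x, 0), 0, ?_⟩
          obtain ⟨b0, b1, -, -⟩ := corT_eq emP x 0
          rw [k01, b0, b1]
          unfold emP
          rw [if_pos (by omega), if_pos (by omega)]
    · obtain ⟨a4, a5⟩ := a2 hy
      rw [a4, a5]
      refine Or.inl ⟨(x, y + 1), 0, ?_⟩
      obtain ⟨b0, b1, -, -⟩ := corT_eq emP x (y + 1)
      rw [k01, b0, b1]
  · -- the left side
    refine Or.inl ⟨(x - 1, y), 1, ?_⟩
    obtain ⟨b0, b1, b2, b3⟩ := corT_eq emP (x - 1) y
    rw [k31, k11, b1, a0, sub_add_cancel]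
    by_cases hy : y = -1
    · rw [(b3 hy).1, (a3 hy).2, sub_add_cancel]
    · rw [(b2 hy).1, (a2 hy).2, sub_add_cancel]

end Pool.Agent.Perc.Q

end Partperc3TwQ
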