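import Pool.Agent.Lib.MP_6bd702_zc.Pre
import Pool.Agent.Lib.MP_6bd702_zc.Y016
import Pool.Agent.Lib.MP_6bd702_z.Z016
import Pool.Agent.Lib.MP_6bd702_zc.Y006
import Pool.Agent.Lib.MP_6bd702_zc.Y007
import Pool.Agent.Lib.MP_6bd702_z.Z034
import Pool.Agent.Lib.MP_6bd702_z.Z018
import Pool.Agent.Lib.MP_6bd702_zc.Y010
import Pool.Agent.Lib.MP_6bd702_z.Z110
import Pool.Agent.Lib.MP_6bd702_zc.Y005

section Partperc3TwEdge

/-!
# Unit edges and strands in the twisted plane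

A unit edge is given by its two ends, which are vertices of the twisted plane.
-/

set_option autoImplicit false

namespace Pool.Agent.Perc

open Finset

/-- Unit edges of the twisted plane. -/
abbrev TE := (ℤ × ℤ) × (ℤ × ℤ)

/-- The side `a` (in the coordinates of the face) of the face `f`. -/
def twE (em : ℤ → ℤ) (f : ℤ × ℤ) (a : UE) : TE :=
  if 0 ≤ f.2 then (ua a, ub a) else (twV em (ua a), twV em (ub a))

/-- The sides `p` and `p'` of the face `f` are matched. -/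
def MtW (em : ℤ → ℤ) (ω : Cfg) (f : ℤ × ℤ) (p p' : TE) : Prop :=
  ∃ a a', Mt ω f a a' ∧ p = twE em f a ∧ p' = twE em f a'

/-- The component of `e` under the matching in the faces of `F`. -/
def MMW (em : ℤ → ℤ) (ω : Cfg) (F : Set (ℤ × ℤ)) (e : TE) : Set TE :=
  {p | Relation.ReflTransGen (fun p p' => ∃ f ∈ F, MtW em ω f p p') e p}

/-- `p` is a side of the face `f`. -/
def IsSideW (em : ℤ → ℤ) (f : ℤ × ℤ) (p : TE) : Prop := ∃ a, IsSide f a ∧ p = twE em f a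

/-- The faces of `F` which are visited by the component of `e`. -/
def SSW (em : ℤ → ℤ) (ω : Cfg) (F : Set (ℤ × ℤ)) (e : TE) : Set (ℤ × ℤ) :=
  {f | f ∈ F ∧ ∃ p ∈ MMW em ω F e, IsSideW em f p}

variable {em : ℤ → ℤ} {ω ω' : Cfg} {F F' : Set (ℤ × ℤ)} {e p p' : TE} {f : ℤ × ℤ}

theorem MtW.symm (h : MtW em ω f p p') : MtW em ω f p' p := by
  obtain ⟨a, a', hm, h1, h2⟩ := h
  exact ⟨a', a, hm.symm, h2, h1⟩

theorem MtW.left (h : MtW em ω f p p') : IsSideW em f p := by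
  obtain ⟨a, a', hm, h1, -⟩ := h
  exact ⟨a, hm.left, h1⟩

theorem MtW.right (h : MtW em ω f p p') : IsSideW em f p' := h.symm.left

theorem MtW.congr (he : ω f = ω' f) (h : MtW em ω f p p') : MtW em ω' f p p' := by
  obtain ⟨a, a', hm, h1, h2⟩ := h
  refine ⟨a, a', ?_, h1, h2⟩
  unfold Mt at *
  rwa [← he]

theorem mem_MMW_self : e ∈ MMW em ω F e := Relation.ReflTransGen.refl

theorem MMW_step (hf : f ∈ F) (h : MtW em ω f p p') (hp : p ∈ MMW em ω F e) :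
    p' ∈ MMW em ω F e :=
  Relation.ReflTransGen.tail hp ⟨f, hf, h⟩

theorem MMW_mono (h : F ⊆ F') (hp : p ∈ MMW em ω F e) : p ∈ MMW em ω F' e := by
  induction hp with
  | refl => exact mem_MMW_self
  | tail _ hs ih =>
    obtain ⟨f, hf, hm⟩ := hs
    exact MMW_step (h hf) hm ih

theorem SSW_sub : SSW em ω F e ⊆ F := fun _ h => h.1

theorem SSW_of_MtW (hf : f ∈ F) (h : MtW em ω f p p') (hp : p ∈ MMW em ω F e) :
    f ∈ SSW em ω F e := ⟨hf, p, hp, h.left⟩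

/-- The component stays in `F'` or it reaches a face outside `F'`. -/
theorem MMW_exit (hp : p ∈ MMW em ω F e) :
    p ∈ MMW em ω F' e ∨ ∃ q ∈ MMW em ω F' e, ∃ f ∈ F, f ∉ F' ∧ IsSideW em f q := by
  induction hp with
  | refl => exact Or.inl mem_MMW_self
  | @tail x y _ hs ih =>
    rcases ih with ih | ih
    · obtain ⟨f, hf, hm⟩ := hs
      by_cases hF : f ∈ F'
      · exact Or.inl (MMW_step hF hm ih)
      · exact Or.inr ⟨x, ih, f, hf, hF, hm.left⟩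
    · exact Or.inr ih

/-- The component depends only on the visited faces. -/
theorem MMW_congr (h : ∀ f ∈ SSW em ω F e, ω f = ω' f) : MMW em ω' F e = MMW em ω F e := by
  apply Set.Subset.antisymm
  · intro p hp
    induction hp with
    | refl => exact mem_MMW_self
    | @tail x y _ hs ih =>
      obtain ⟨f, hf, hm⟩ := hs
      have hS : f ∈ SSW em ω F e := ⟨hf, x, ih, hm.left⟩
      exact MMW_step hf (hm.congr (h f hS).symm) ih
  · intro p hp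
    induction hp with
    | refl => exact mem_MMW_self
    | @tail x y hx hs ih =>
      obtain ⟨f, hf, hm⟩ := hs
      exact MMW_step hf (hm.congr (h f ⟨hf, x, hx, hm.left⟩)) ih

theorem SSW_congr (h : ∀ f ∈ SSW em ω F e, ω f = ω' f) : SSW em ω' F e = SSW em ω F e := by
  unfold SSW
  rw [MMW_congr h]

end Pool.Agent.Perc

end Partperc3TwEdge

section Partperc3TTside

/-!
# The grid with a dislocation and the cover
-/

set_option autoImplicit false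

namespace Pool.Agent.Perc3

open Finset Pool.Agent.Perc

/-- The translation of a unit edge. -/
def shE (n : ℤ) (a : UE) : UE := (a.1 + n, a.2.1, a.2.2)

/-- The translation of a vertex. -/
def shV (n : ℤ) (v : ℤ × ℤ) : ℤ × ℤ := (v.1 + n, v.2)

/-- The projection of a lifted unit edge to the twisted plane. -/
def pE (c : LE) : TE :=
  if 0 ≤ c.1.2.1 then (ua (shE c.2 c.1), ub (shE c.2 c.1))
  else (twV emP (ua (shE c.2 c.1)), twV emP (ub (shE c.2 c.1)))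

theorem Mt_shift {ω : Cfg} {f : ℤ × ℤ} {n : ℤ} {v : Bool} {a a' : UE}
    (hv : ω (f.1 + n, f.2) = v) (h : Mt (fun _ => v) f a a') :
    Mt ω (f.1 + n, f.2) (shE n a) (shE n a') := by
  unfold Mt at *
  rw [hv]
  obtain ⟨x, y⟩ := f
  simp only [bo, ri, le', to'] at h ⊢
  rcases h with ⟨h0, h⟩ | ⟨h0, h⟩
  · refine Or.inl ⟨h0, ?_⟩
    rcases h with ⟨rfl, rfl⟩ | ⟨rfl, rfl⟩ | ⟨rfl, rfl⟩ | ⟨rfl, rfl⟩ <;> simp [shE] <;> omega
  · refine Or.inr ⟨h0, ?_⟩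
    rcases h with ⟨rfl, rfl⟩ | ⟨rfl, rfl⟩ | ⟨rfl, rfl⟩ | ⟨rfl, rfl⟩ <;> simp [shE] <;> omega

theorem IsSide_shift {f : ℤ × ℤ} {n : ℤ} {a : UE} (h : IsSide f a) :
    IsSide (f.1 + n, f.2) (shE n a) := by
  obtain ⟨x, y⟩ := f
  unfold IsSide at *
  simp only [bo, ri, le', to'] at h ⊢
  rcases h with rfl | rfl | rfl | rfl <;> simp [shE] <;> omega

variable {L w d n : ℤ}

/-- The projection of a lifted side of a lifted face of the annulus. -/
theorem pE_lft (hn : n ≤ d - 2) {s : LF} (hs : s ∈ LAF L w d n) {a : UE} (ha : IsSide s.1 a) :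
    pE (lft s a) = twE emP (pj 1 s) (shE s.2 a) := by
  obtain ⟨⟨x, y⟩, i⟩ := s
  rw [mem_LAF, mem_AnF] at hs
  simp only at hs ha
  obtain ⟨⟨h1, h2⟩, h3⟩ := hs
  rw [abs_le] at h3
  unfold pE twE lft pj
  simp only
  rcases ha with rfl | rfl | rfl | rfl
  · by_cases hy : 0 ≤ y
    · rw [if_pos (show 0 ≤ (bo (x, y)).2.1 by simpa [bo] using hy), if_pos hy,
        if_neg (show ¬ (IsCut (bo (x, y)) ∧ y < 0) by omega)]
    · rw [if_neg (show ¬ 0 ≤ (bo (x, y)).2.1 by simpa [bo] using hy), if_neg hy,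
        if_neg (show ¬ (IsCut (bo (x, y)) ∧ y < 0) by unfold IsCut bo; simp only; omega)]
  · by_cases hy : 0 ≤ y
    · rw [if_pos (show 0 ≤ (le' (x, y)).2.1 by simpa [le'] using hy), if_pos hy,
        if_neg (show ¬ (IsCut (le' (x, y)) ∧ y < 0) by omega)]
    · rw [if_neg (show ¬ 0 ≤ (le' (x, y)).2.1 by simpa [le'] using hy), if_neg hy,
        if_neg (show ¬ (IsCut (le' (x, y)) ∧ y < 0) by unfold IsCut le'; simp)]
  · by_cases hy : 0 ≤ y
    · rw [if_pos (show 0 ≤ (to' (x, y)).2.1 by simp only [to']; omega), if_pos hy,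
        if_neg (show ¬ (IsCut (to' (x, y)) ∧ y < 0) by omega)]
    · by_cases hy1 : y = -1
      · subst hy1
        rw [if_pos (show 0 ≤ (to' (x, -1)).2.1 by simp [to']), if_neg hy]
        by_cases hx : x ≤ -2
        · rw [if_pos (show IsCut (to' (x, -1)) ∧ (-1 : ℤ) < 0 by
            unfold IsCut to'; simp only; exact ⟨⟨trivial, by norm_num, hx⟩, by norm_num⟩)]
          simp only [to', shE, ua, ub, twV, emP, Bool.false_eq_true, if_false,
            show (-1 : ℤ) + 1 = 0 from rfl, if_true]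
          rw [if_neg (by omega), if_neg (by omega)]
          refine Prod.ext (Prod.ext ?_ rfl) (Prod.ext ?_ rfl)
          · simp only
            omega
          · simp only
            omega
        · rw [if_neg (show ¬ (IsCut (to' (x, -1)) ∧ (-1 : ℤ) < 0) by
            unfold IsCut to'; simp only; omega)]
          simp only [to', shE, ua, ub, twV, emP, Bool.false_eq_true, if_false,
            show (-1 : ℤ) + 1 = 0 from rfl, if_true]
          rw [if_pos (by omega), if_pos (by omega)]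
      · rw [if_neg (show ¬ 0 ≤ (to' (x, y)).2.1 by simp only [to']; omega), if_neg hy,
          if_neg (show ¬ (IsCut (to' (x, y)) ∧ y < 0) by unfold IsCut to'; simp only; omega)]
  · by_cases hy : 0 ≤ y
    · rw [if_pos (show 0 ≤ (ri (x, y)).2.1 by simpa [ri] using hy), if_pos hy,
        if_neg (show ¬ (IsCut (ri (x, y)) ∧ y < 0) by omega)]
    · rw [if_neg (show ¬ 0 ≤ (ri (x, y)).2.1 by simpa [ri] using hy), if_neg hy,
        if_neg (show ¬ (IsCut (ri (x, y)) ∧ y < 0) by unfold IsCut ri; simp)]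

/-- The projection of a lifted component is contained in a component of the twisted plane. -/
theorem pE_ML {ω : Cfg} (hn : n ≤ d - 2) {Ft : Set LF} (hFt : Ft ⊆ LAF L w d n)
    {G : Set (ℤ × ℤ)} (hG : ∀ s ∈ Ft, pj 1 s ∈ G) {e c : LE} (hc : c ∈ ML (lcf 1 ω) Ft {e}) :
    pE c ∈ MMW emP ω G (pE e) := by
  refine ML_induction (P := fun c => pE c ∈ MMW emP ω G (pE e)) ?_ ?_ c hc
  · rintro c rfl
    exact mem_MMW_self
  · rintro c c' s hs ⟨a, a', hm, rfl, rfl⟩ _ ih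
    have hsA : s ∈ LAF L w d n := hFt hs
    refine MMW_step (hG s hs) ?_ ih
    refine ⟨shE s.2 a, shE s.2 a', ?_, pE_lft hn hsA hm.left, pE_lft hn hsA hm.right⟩
    have h1 : pj 1 s = (s.1.1 + s.2, s.1.2) := by
      unfold pj
      rw [one_mul]
    rw [h1]
    refine Mt_shift (v := lcf 1 ω s) ?_ hm
    unfold lcf
    rw [h1]

/-- The component of `t` in the rectangle `[-L, L] × [-w, w]` of the twisted plane reaches the box of
radius `r`. -/
def ReachT (ω : Cfg) (L w r : ℤ) (t : TE) : Prop :=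
  ∃ p ∈ MMW emP ω (RF (-L) L (-w) w \ BW r : Finset (ℤ × ℤ)) t, ∃ f ∈ BW r, IsSideW emP f p

theorem mem_BW {r : ℤ} {f : ℤ × ℤ} : f ∈ BW r ↔
    (-(r + 2) ≤ f.1 ∧ f.1 < r ∧ 0 ≤ f.2 ∧ f.2 < r) ∨
      (-(r + 1) ≤ f.1 ∧ f.1 < r ∧ -r ≤ f.2 ∧ f.2 < 0) := by
  unfold BW
  rw [mem_union, mem_RF, mem_RF]

/-- If a lifted component reaches the inner box, its projection reaches the box of radius
`r ≥ d + n + 1`. -/
theorem reachT_of_rinL {ω : Cfg} (hn0 : 0 ≤ n) (hn : n ≤ d - 2) {r : ℤ} (hr : d + n + 1 ≤ r)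
    {b : UE} {i : ℤ} (hb : b.2.1 < -d ∨ d < b.2.1) (h : RinL (lcf 1 ω) L w d n (b, i)) :
    ReachT ω (L + n) w r (pE (b, i)) := by
  obtain ⟨c, hc, hB⟩ := h
  set G : Set (ℤ × ℤ) := ((RF (-(L + n)) (L + n) (-w) w \ BW r : Finset (ℤ × ℤ)) :
    Set (ℤ × ℤ)) with hG
  have key : ReachT ω (L + n) w r (pE (b, i)) ∨ (pE c ∈ MMW emP ω G (pE (b, i)) ∧
      (c = (b, i) ∨ ∃ s ∈ LAF L w d n, pj 1 s ∉ BW r ∧ ∃ a, IsSide s.1 a ∧ c = lft s a)) := by
    refine ML_induction (P := fun c => ReachT ω (L + n) w r (pE (b, i)) ∨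
      (pE c ∈ MMW emP ω G (pE (b, i)) ∧ (c = (b, i) ∨
        ∃ s ∈ LAF L w d n, pj 1 s ∉ BW r ∧ ∃ a, IsSide s.1 a ∧ c = lft s a))) ?_ ?_ c hc
    · rintro c rfl
      exact Or.inr ⟨mem_MMW_self, Or.inl rfl⟩
    · rintro c c' s hs ⟨a, a', hm, rfl, rfl⟩ _ (ih | ⟨ih, -⟩)
      · exact Or.inl ih
      · have hsA : s ∈ LAF L w d n := hs
        have h1 : pj 1 s = (s.1.1 + s.2, s.1.2) := by
          unfold pj
          rw [one_mul]
        have hmt : MtW emP ω (pj 1 s) (pE (lft s a)) (pE (lft s a')) := by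
          refine ⟨shE s.2 a, shE s.2 a', ?_, pE_lft hn hsA hm.left, pE_lft hn hsA hm.right⟩
          rw [h1]
          refine Mt_shift (v := lcf 1 ω s) ?_ hm
          unfold lcf
          rw [h1]
        by_cases hsB : pj 1 s ∈ BW r
        · exact Or.inl ⟨_, ih, pj 1 s, hsB, hmt.left⟩
        · refine Or.inr ⟨MMW_step ?_ hmt ih, Or.inr ⟨s, hsA, hsB, a', hm.right, rfl⟩⟩
          rw [hG, mem_coe, mem_sdiff]
          refine ⟨?_, hsB⟩
          have h2 := pj_LAF (c := 1) (by norm_num) hsA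
          rwa [show -L - n = -(L + n) by ring] at h2
  rcases key with key | ⟨-, key | ⟨s, hs, hsB, a, ha, rfl⟩⟩
  · exact key
  · exfalso
    subst key
    unfold BdE at hB
    simp only at hB
    omega
  · exfalso
    apply hsB
    rw [mem_LAF, mem_AnF, abs_le] at hs
    rw [mem_BW]
    unfold BdE lft at hB
    simp only at hB
    obtain ⟨⟨x, y⟩, j⟩ := s
    unfold pj
    simp only [one_mul] at hs ⊢
    rcases ha with rfl | rfl | rfl | rfl
    · simp [bo] at hB; omega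
    · simp [le'] at hB; omega
    · simp [to'] at hB; omega
    · simp [ri] at hB; omega

/-- The unit edges of the lines `y = w` and `y = -w` of the twisted plane. -/
noncomputable def TBT (L w : ℤ) : Finset TE :=
  (TBF L w).image fun b => ((b.1, b.2.1), (b.1 + 1, b.2.1))

theorem pE_TBF (hw : 0 < w) {b : UE} (hb : b ∈ TBF L w) (i : ℤ) :
    pE (b, i) = ((b.1 + i, b.2.1), (b.1 + i + 1, b.2.1)) := by
  rw [mem_TBF] at hb
  obtain ⟨x, y, c⟩ := b
  obtain ⟨h1, h2, h3, h4⟩ := hb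
  simp only at h1 h2 h3 h4
  subst h4
  unfold pE shE
  rcases h3 with h3 | h3
  · rw [if_neg (by simp only; omega)]
    simp only [ua, ub, twV, Bool.false_eq_true, if_false]
    rw [if_neg (by omega), if_neg (by omega)]
  · rw [if_pos (by simp only; omega)]
    simp only [ua, ub, Bool.false_eq_true, if_false]

theorem mem_TBT {t : TE} : t ∈ TBT L w ↔
    ∃ x, (-L ≤ x ∧ x < L) ∧ (t = ((x, -w), (x + 1, -w)) ∨ t = ((x, w), (x + 1, w))) := by
  unfold TBT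
  rw [mem_image]
  constructor
  · rintro ⟨⟨x, y, c⟩, hb, rfl⟩
    rw [mem_TBF] at hb
    simp only at hb
    refine ⟨x, ⟨hb.1, hb.2.1⟩, ?_⟩
    rcases hb.2.2.1 with h | h
    · left; simp only [h]
    · right; simp only [h]
  · rintro ⟨x, hx, h | h⟩
    · exact ⟨(x, -w, false), by rw [mem_TBF]; exact ⟨hx.1, hx.2, Or.inl rfl, rfl⟩, h.symm⟩
    · exact ⟨(x, w, false), by rw [mem_TBF]; exact ⟨hx.1, hx.2, Or.inr rfl, rfl⟩, h.symm⟩

/-- The starting unit edges of a pair are different in the twisted plane. -/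
theorem pE_ne {ζ : LF → Bool} (hd : 0 ≤ d) (hdw : d < w) (hn1 : 1 ≤ n) {k : ℤ} (hk : 1 < k)
    {b b' : UE} (hb : b ∈ TBF L w) (hb' : b' ∈ TBF L w) (hne : b ≠ b') {ε : ℤ} (hε : |ε| ≤ 1)
    (h : ζ ∈ PairL L w d n k b b' ε) : pE (b, 0) ≠ pE (b', ε) := by
  intro he
  rw [pE_TBF (by omega) hb, pE_TBF (by omega) hb'] at he
  simp only [Prod.mk.injEq] at he
  have hinj := h.1.injOn (c := 1) (by rw [abs_one]; exact hk)
  rw [mem_TBF] at hb hb'
  obtain ⟨x, y, c⟩ := b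
  obtain ⟨x', y', c'⟩ := b'
  simp only at he hb hb'
  obtain ⟨⟨e1, rfl⟩, -⟩ := he
  obtain ⟨h1, h2, h3, rfl⟩ := hb
  obtain ⟨h1', h2', -, rfl⟩ := hb'
  have hx : x = x' + ε := by omega
  obtain ⟨y₀, hy₀, hs⟩ : ∃ y₀, (-w ≤ y₀ ∧ y₀ < w ∧ ¬ (-d ≤ y₀ ∧ y₀ < d)) ∧
      ∀ x : ℤ, IsSide (x, y₀) (x, y, false) := by
    rcases h3 with rfl | rfl
    · exact ⟨-w, by omega, fun x => Or.inl rfl⟩
    · refine ⟨y - 1, by omega, fun x => Or.inr (Or.inr (Or.inl ?_))⟩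
      simp only [to', sub_add_cancel]
  have hcut : ∀ x, ¬ IsCut (x, y, false) := by
    intro x hc
    unfold IsCut at hc
    simp only at hc
    omega
  rw [abs_le] at hε
  have m1 : (((x, y₀), 0) : LF) ∈ SL ζ (LAF L w d n)
      ({((x, y, false), 0)} ∪ {((x', y, false), ε)}) := by
    refine ⟨?_, (x, y, false), hs x, ?_⟩
    · rw [mem_coe, mem_LAF, mem_AnF, abs_zero]
      simp only
      omega
    · unfold lft
      rw [if_neg (fun h => hcut x h.1)]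
      exact mem_ML_of_mem (Or.inl rfl)
  have m2 : (((x', y₀), ε) : LF) ∈ SL ζ (LAF L w d n)
      ({((x, y, false), 0)} ∪ {((x', y, false), ε)}) := by
    refine ⟨?_, (x', y, false), hs x', ?_⟩
    · rw [mem_coe, mem_LAF, mem_AnF, abs_le]
      simp only
      omega
    · unfold lft
      rw [if_neg (fun h => hcut x' h.1)]
      exact mem_ML_of_mem (Or.inr rfl)
  have h5 := hinj m1 m2 (by unfold pj; simp only [Prod.mk.injEq, and_true]; omega)
  simp only [Prod.mk.injEq] at h5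
  exact hne (by rw [h5.1.1])

/-- The number of the pairs of lifted components is bounded by three times the number of the pairs
of components of the twisted plane. -/
theorem sum_pairL_le (hd : 0 ≤ d) (hdw : d < w) (hn1 : 1 ≤ n) (hn : n ≤ d - 2) {k : ℤ}
    (hk : 1 < k) {r : ℤ} (hr : d + n + 1 ≤ r) (W : Finset (ℤ × ℤ)) :
    ∑ p ∈ ((TBF L w ×ˢ TBF L w).filter fun p => p.1 ≠ p.2) ×ˢ ({-1, 0, 1} : Finset ℤ),
        pr W {ω | lcf 1 ω ∈ PairL L w d n k p.1.1 p.1.2 p.2} ≤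
      3 * ∑ q ∈ (TBT (L + 1) w ×ˢ TBT (L + 1) w).filter fun q => q.1 ≠ q.2,
        pr W {ω | ReachT ω (L + n) w r q.1 ∧ ReachT ω (L + n) w r q.2} := by
  have hw : 0 < w := by omega
  rw [sum_product_right]
  have h1 : ∀ ε ∈ ({-1, 0, 1} : Finset ℤ),
      ∑ p ∈ (TBF L w ×ˢ TBF L w).filter (fun p => p.1 ≠ p.2),
        pr W {ω | lcf 1 ω ∈ PairL L w d n k p.1 p.2 ε} ≤
      ∑ q ∈ (TBT (L + 1) w ×ˢ TBT (L + 1) w).filter fun q => q.1 ≠ q.2,
        pr W {ω | ReachT ω (L + n) w r q.1 ∧ ReachT ω (L + n) w r q.2} := by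
    intro ε hε
    have hε1 : |ε| ≤ 1 := by
      simp only [mem_insert, mem_singleton] at hε
      rw [abs_le]
      omega
    have hε2 := abs_le.1 hε1
    set P := (TBF L w ×ˢ TBF L w).filter (fun p => p.1 ≠ p.2) with hP
    set Q := (TBT (L + 1) w ×ˢ TBT (L + 1) w).filter (fun q => q.1 ≠ q.2) with hQ
    set P' := P.filter fun p => pE (p.1, 0) ≠ pE (p.2, ε) with hP'
    have e1 : ∑ p ∈ P, pr W {ω | lcf 1 ω ∈ PairL L w d n k p.1 p.2 ε} =
        ∑ p ∈ P', pr W {ω | lcf 1 ω ∈ PairL L w d n k p.1 p.2 ε} := by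
      symm
      refine sum_subset (filter_subset _ _) ?_
      intro p hp hp'
      refine pr_of_forall_notMem W ?_
      intro ω hω
      apply hp'
      rw [hP', mem_filter]
      rw [hP, mem_filter, mem_product] at hp
      refine ⟨by rw [hP, mem_filter, mem_product]; exact hp, ?_⟩
      exact pE_ne hd hdw hn1 hk hp.1.1 hp.1.2 hp.2 hε1 hω
    rw [e1]
    have e2 : ∑ p ∈ P', pr W {ω | lcf 1 ω ∈ PairL L w d n k p.1 p.2 ε} ≤
        ∑ p ∈ P', pr W {ω | ReachT ω (L + n) w r (pE (p.1, 0)) ∧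
          ReachT ω (L + n) w r (pE (p.2, ε))} := by
      refine sum_le_sum fun p hp => pr_mono W ?_
      rw [hP', mem_filter, hP, mem_filter, mem_product, mem_TBF, mem_TBF] at hp
      intro ω hω
      exact ⟨reachT_of_rinL (by omega) hn hr (by omega) hω.2.1,
        reachT_of_rinL (by omega) hn hr (by omega) hω.2.2⟩
    refine e2.trans ?_
    have hinj : Set.InjOn (fun p : UE × UE => (pE (p.1, 0), pE (p.2, ε))) P' := by
      rintro ⟨p1, p2⟩ hp ⟨q1, q2⟩ hq he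
      rw [hP', mem_coe, mem_filter, hP, mem_filter, mem_product] at hp hq
      simp only [Prod.mk.injEq] at he
      obtain ⟨he1, he2⟩ := he
      rw [pE_TBF hw hp.1.1.1, pE_TBF hw hq.1.1.1] at he1
      rw [pE_TBF hw hp.1.1.2, pE_TBF hw hq.1.1.2] at he2
      have g1 := mem_TBF.1 hp.1.1.1
      have g2 := mem_TBF.1 hp.1.1.2
      have g3 := mem_TBF.1 hq.1.1.1
      have g4 := mem_TBF.1 hq.1.1.2
      obtain ⟨x1, y1, c1⟩ := p1
      obtain ⟨x2, y2, c2⟩ := p2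
      obtain ⟨x3, y3, c3⟩ := q1
      obtain ⟨x4, y4, c4⟩ := q2
      simp only [Prod.mk.injEq] at he1 he2 g1 g2 g3 g4 ⊢
      refine ⟨⟨by omega, by omega, ?_⟩, by omega, by omega, ?_⟩
      · rw [g1.2.2.2, g3.2.2.2]
      · rw [g2.2.2.2, g4.2.2.2]
    rw [← sum_image (s := P') (g := fun p : UE × UE => (pE (p.1, 0), pE (p.2, ε)))
      (f := fun q : TE × TE => pr W {ω | ReachT ω (L + n) w r q.1 ∧ ReachT ω (L + n) w r q.2})
      hinj]
    refine sum_le_sum_of_subset_of_nonneg ?_ fun _ _ _ => pr_nonneg _ _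
    intro q hq
    obtain ⟨p, hp, rfl⟩ := mem_image.1 hq
    rw [hP', mem_filter, hP, mem_filter, mem_product] at hp
    rw [hQ, mem_filter, mem_product]
    refine ⟨⟨?_, ?_⟩, hp.2⟩
    · have g1 := mem_TBF.1 hp.1.1.1
      rw [mem_TBT]
      refine ⟨p.1.1 + 0, by omega, ?_⟩
      rw [pE_TBF hw hp.1.1.1]
      rcases g1.2.2.1 with h | h <;> simp [h]
    · have g1 := mem_TBF.1 hp.1.1.2
      rw [mem_TBT]
      refine ⟨p.2.1 + ε, by omega, ?_⟩
      simp only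
      rw [pE_TBF hw hp.1.1.2]
      rcases g1.2.2.1 with h | h <;> simp [h]
  refine (sum_le_sum h1).trans (le_of_eq ?_)
  rw [sum_const]
  simp

/-- The probability that two components which start at the upper or lower side reach the inner box
and leave room for a corridor is at most three times the expected number of the pairs of components
in the twisted plane. -/
theorem pr_corr_le {D : ℤ} {m : ℕ} (hd : 1 < d) (hdw : d < w) (hL : 0 ≤ L) (hD2 : D ≤ 2 * d)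
    (hmn : 2 * (m + 6) ≤ n) (hn : n ≤ d - 2) (hnD : 4 * n ≤ D) {r : ℤ} (hr : d + n + 1 ≤ r) :
    pr (RF (-L) L (-w) w) {ω | ∃ b ∈ TBF L w, ∃ b' ∈ TBF L w, b ≠ b' ∧ ω ∈ CorrEv L w d D m b b'} ≤
      3 * ∑ q ∈ (TBT (L + 1) w ×ˢ TBT (L + 1) w).filter fun q => q.1 ≠ q.2,
        pr (RF (-(L + n)) (L + n) (-w) w)
          {ω | ReachT ω (L + n) w r q.1 ∧ ReachT ω (L + n) w r q.2} := by
  have h1 := pr_pairs_le (L := L) (w := w) (d := d) (D := D) (n := n) (k := 2) (m := m) hd hdw hL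
    (by omega) hD2 (by norm_num) hmn (by omega)
  rw [show -L - n = -(L + n) by ring] at h1
  exact h1.trans (sum_pairL_le (by omega) hdw (by omega) hn (by norm_num) hr _)

end Pool.Agent.Perc3

end Partperc3TTside

section Parth22BKRect

/-!
# The number of strands which cross a rectangle

Disjoint occurrence for configurations of the face grid, `k` different strands from the left to the
right side of a rectangle give `(k + 1) / 2` disjoint crossings of one colour.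
-/

set_option autoImplicit false

namespace Pool.Agent.PercN

open Finset Pool.Agent.Perc Pool.Agent.PercD

/-! ### Disjoint occurrence for configurations -/

/-- `k` disjoint witnesses of the increasing event `A` in `S`. -/
def Wit (D : ℤ × ℤ → Bool) (S : Finset (ℤ × ℤ)) (A : Set Cfg) (k : ℕ) : Set Cfg :=
  {ω | ∃ K : Fin k → Finset (ℤ × ℤ), (∀ i, K i ⊆ S) ∧ (∀ i, ∀ f ∈ K i, flip D ω f = true) ∧
    (∀ i j, i ≠ j → Disjoint (K i) (K j)) ∧ ∀ i, flip D (cfg (K i)) ∈ A}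

theorem flip_flip (D : ℤ × ℤ → Bool) (ω : Cfg) : flip D (flip D ω) = ω := by
  funext f
  unfold Perc.flip
  rw [← Bool.xor_assoc, Bool.xor_self, Bool.false_xor]

theorem depOn_Wit (D : ℤ × ℤ → Bool) (S : Finset (ℤ × ℤ)) (A : Set Cfg) (k : ℕ) :
    DepOn (S : Set (ℤ × ℤ)) (Wit D S A k) := by
  have key : ∀ ω ω' : Cfg, (∀ f ∈ (S : Set (ℤ × ℤ)), ω f = ω' f) → ω ∈ Wit D S A k →
      ω' ∈ Wit D S A k := by
    rintro ω ω' h ⟨K, h1, h2, h3, h4⟩
    refine ⟨K, h1, fun i f hf => ?_, h3, h4⟩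
    have := h2 i f hf
    unfold Perc.flip at this ⊢
    rw [← h f (h1 i hf)]
    exact this
  exact fun ω ω' h => ⟨key ω ω' h, key ω' ω fun f hf => (h f hf).symm⟩

theorem pr_Wit_le {D : ℤ × ℤ → Bool} {S : Finset (ℤ × ℤ)} {A : Set Cfg}
    (hA : DepOn (S : Set (ℤ × ℤ)) A) (hI : IncD D A) (k : ℕ) :
    pr S (Wit D S A k) ≤ (pr S A) ^ k := by
  classical
  set A' : Set (Finset (ℤ × ℤ)) := {T | flip D (cfg T) ∈ A} with hA'
  have hUp : BK.Up A' := by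
    intro T T' hTT hT
    refine hI _ _ (fun f hf => ?_) hT
    rw [flip_flip] at hf ⊢
    unfold cfg at hf ⊢
    rw [decide_eq_true_eq] at hf ⊢
    exact hTT hf
  have h1 : pr S (Wit D S A k) = pr S {ω | flip D ω ∈ Wit D S A k} :=
    (pr_flip D (depOn_Wit D S A k)).symm
  have h2 : pr S A = pr S {ω | flip D ω ∈ A} := (pr_flip D hA).symm
  have e1 : ∀ X : Set Cfg, pr S {ω | flip D ω ∈ X} =
      BK.cnt S {T | flip D (cfg T) ∈ X} / 2 ^ S.card := by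
    intro X
    unfold pr BK.cnt
    congr 2
  rw [h1, h2, e1, e1]
  refine le_trans ?_ (BK.bk_pow S hUp k)
  refine div_le_div_of_nonneg_right (BK.cnt_mono S ?_) (by positivity)
  rintro T hT ⟨K, k1, k2, k3, k4⟩
  refine BK.mem_boxPow K (fun i f hf => ?_) k3 k4
  have := k2 i f hf
  rw [flip_flip] at this
  unfold cfg at this
  rw [decide_eq_true_eq] at this
  exact this

/-! ### Disjoint crossings -/

/-- `k` left-right crossings of colour `c` in disjoint sets of faces. -/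
def DisLR (k : ℕ) (c x₀ x₁ y₀ y₁ : ℤ) : Set Cfg :=
  {ω | ∃ K : Fin k → Finset (ℤ × ℤ), (∀ i, K i ⊆ RF x₀ x₁ y₀ y₁) ∧
    (∀ i j, i ≠ j → Disjoint (K i) (K j)) ∧ ∀ i, ∃ u v : ℤ × ℤ, u.1 = x₀ ∧ y₀ ≤ u.2 ∧ u.2 ≤ y₁ ∧
      v.1 = x₁ ∧ (u.1 + u.2 - c) % 2 = 0 ∧ Conn ω (K i) u v}

/-- `k` bottom-top crossings of colour `c` in disjoint sets of faces. -/
def DisBT (k : ℕ) (c x₀ x₁ y₀ y₁ : ℤ) : Set Cfg :=
  {ω | ∃ K : Fin k → Finset (ℤ × ℤ), (∀ i, K i ⊆ RF x₀ x₁ y₀ y₁) ∧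
    (∀ i j, i ≠ j → Disjoint (K i) (K j)) ∧ ∀ i, ∃ u v : ℤ × ℤ, u.2 = y₀ ∧ x₀ ≤ u.1 ∧ u.1 ≤ x₁ ∧
      v.2 = y₁ ∧ (u.1 + u.2 - c) % 2 = 0 ∧ Conn ω (K i) u v}

/-- A bond of colour `c` in the open faces of colour `c`. -/
theorem conn_open {ω : Cfg} {c : ℤ} {K : Finset (ℤ × ℤ)} {F : Set (ℤ × ℤ)} {u v : ℤ × ℤ}
    (hKF : (K : Set (ℤ × ℤ)) ⊆ F) (hu : (u.1 + u.2 - c) % 2 = 0) (h : Conn ω K u v) :
    Conn (flip (parD c) (cfg (K.filter fun f => flip (parD c) ω f = true))) F u v := by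
  induction h with
  | refl => exact Relation.ReflTransGen.refl
  | tail hab hb ih =>
    rename_i p q
    refine ih.tail ?_
    have hp : (p.1 + p.2 - c) % 2 = 0 := by
      have h1 : par p = par u := (Conn.par_eq hab).symm
      unfold par at h1
      omega
    obtain ⟨x, y, hf, hh⟩ := hb
    have hD : flip (parD c) ω (x, y) = true := by
      unfold Perc.flip parD
      rcases hh with ⟨h1, ⟨rfl, rfl⟩ | ⟨rfl, rfl⟩⟩ | ⟨h1, ⟨rfl, rfl⟩ | ⟨rfl, rfl⟩⟩ <;>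
        simp only at hp <;> rw [h1] <;> simp <;> omega
    have he : flip (parD c) (cfg (K.filter fun f => flip (parD c) ω f = true)) (x, y) =
        ω (x, y) := by
      have h1 : cfg (K.filter fun f => flip (parD c) ω f = true) (x, y) = true := by
        unfold cfg
        rw [decide_eq_true_eq, mem_filter]
        exact ⟨hf, hD⟩
      unfold Perc.flip at hD ⊢
      unfold Perc.flip at h1
      rw [h1]
      revert hD
      cases parD c (x, y) <;> cases ω (x, y) <;> simp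
    exact ⟨x, y, hKF hf, by rw [he]; exact hh⟩

theorem wit_of_disLR {ω : Cfg} {k : ℕ} {c x₀ x₁ y₀ y₁ : ℤ} (h : ω ∈ DisLR k c x₀ x₁ y₀ y₁) :
    ω ∈ Wit (parD c) (RF x₀ x₁ y₀ y₁) (LR c x₀ x₁ y₀ y₁) k := by
  obtain ⟨K, h1, h2, h3⟩ := h
  refine ⟨fun i => (K i).filter fun f => flip (parD c) ω f = true,
    fun i => (filter_subset _ _).trans (h1 i), fun i f hf => (mem_filter.1 hf).2,
    fun i j hij => disjoint_filter_filter (h2 i j hij), fun i => ?_⟩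
  obtain ⟨u, v, e1, e2, e3, e4, e5, e6⟩ := h3 i
  exact ⟨u, v, e1, e2, e3, e4, e5, conn_open (by exact_mod_cast h1 i) e5 e6⟩

theorem wit_of_disBT {ω : Cfg} {k : ℕ} {c x₀ x₁ y₀ y₁ : ℤ} (h : ω ∈ DisBT k c x₀ x₁ y₀ y₁) :
    ω ∈ Wit (parD c) (RF x₀ x₁ y₀ y₁) (BT c x₀ x₁ y₀ y₁) k := by
  obtain ⟨K, h1, h2, h3⟩ := h
  refine ⟨fun i => (K i).filter fun f => flip (parD c) ω f = true,
    fun i => (filter_subset _ _).trans (h1 i), fun i f hf => (mem_filter.1 hf).2,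
    fun i j hij => disjoint_filter_filter (h2 i j hij), fun i => ?_⟩
  obtain ⟨u, v, e1, e2, e3, e4, e5, e6⟩ := h3 i
  exact ⟨u, v, e1, e2, e3, e4, e5, conn_open (by exact_mod_cast h1 i) e5 e6⟩

theorem depOn_disLR (k : ℕ) (c x₀ x₁ y₀ y₁ : ℤ) :
    DepOn (RF x₀ x₁ y₀ y₁ : Set (ℤ × ℤ)) (DisLR k c x₀ x₁ y₀ y₁) := by
  have key : ∀ ω ω' : Cfg, (∀ f ∈ (RF x₀ x₁ y₀ y₁ : Set (ℤ × ℤ)), ω f = ω' f) →
      ω ∈ DisLR k c x₀ x₁ y₀ y₁ → ω' ∈ DisLR k c x₀ x₁ y₀ y₁ := by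
    rintro ω ω' h ⟨K, h1, h2, h3⟩
    refine ⟨K, h1, h2, fun i => ?_⟩
    obtain ⟨u, v, e1, e2, e3, e4, e5, e6⟩ := h3 i
    exact ⟨u, v, e1, e2, e3, e4, e5,
      GridA.conn_congr _ (fun f hf => h f (by exact_mod_cast h1 i hf)) e6⟩
  exact fun ω ω' h => ⟨key ω ω' h, key ω' ω fun f hf => (h f hf).symm⟩

theorem depOn_disBT (k : ℕ) (c x₀ x₁ y₀ y₁ : ℤ) :
    DepOn (RF x₀ x₁ y₀ y₁ : Set (ℤ × ℤ)) (DisBT k c x₀ x₁ y₀ y₁) := by
  have key : ∀ ω ω' : Cfg, (∀ f ∈ (RF x₀ x₁ y₀ y₁ : Set (ℤ × ℤ)), ω f = ω' f) →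
      ω ∈ DisBT k c x₀ x₁ y₀ y₁ → ω' ∈ DisBT k c x₀ x₁ y₀ y₁ := by
    rintro ω ω' h ⟨K, h1, h2, h3⟩
    refine ⟨K, h1, h2, fun i => ?_⟩
    obtain ⟨u, v, e1, e2, e3, e4, e5, e6⟩ := h3 i
    exact ⟨u, v, e1, e2, e3, e4, e5,
      GridA.conn_congr _ (fun f hf => h f (by exact_mod_cast h1 i hf)) e6⟩
  exact fun ω ω' h => ⟨key ω ω' h, key ω' ω fun f hf => (h f hf).symm⟩

theorem pr_LR_lt (m : ℕ) : ∃ q : ℝ, 0 < q ∧ q < 1 ∧ ∀ c x₀ x₁ y₀ y₁ : ℤ, x₀ < x₁ → y₀ < y₁ →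
    y₁ - y₀ ≤ m * (x₁ - x₀) → pr (RF x₀ x₁ y₀ y₁) (LR c x₀ x₁ y₀ y₁) ≤ q := by
  obtain ⟨c, hc, h⟩ := rswF' m
  refine ⟨max (1 - c) (1 / 2), by positivity, max_lt (by linarith) (by norm_num), ?_⟩
  intro col x₀ x₁ y₀ y₁ hx hy hm
  refine le_trans ?_ (le_max_left _ _)
  have h2 := h (col + 1) x₀ x₁ y₀ y₁ hx hy hm
  have h3 : pr (RF x₀ x₁ y₀ y₁) (LR col x₀ x₁ y₀ y₁) ≤
      pr (RF x₀ x₁ y₀ y₁) (BT (col + 1) x₀ x₁ y₀ y₁)ᶜ :=
    pr_mono _ fun ω hω hb => not_lr_and_bt col hx hy ω ⟨hω, hb⟩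
  rw [pr_compl] at h3
  linarith

theorem pr_BT_lt (m : ℕ) : ∃ q : ℝ, 0 < q ∧ q < 1 ∧ ∀ c x₀ x₁ y₀ y₁ : ℤ, x₀ < x₁ → y₀ < y₁ →
    x₁ - x₀ ≤ m * (y₁ - y₀) → pr (RF x₀ x₁ y₀ y₁) (BT c x₀ x₁ y₀ y₁) ≤ q := by
  obtain ⟨q, h0, h1, h⟩ := pr_LR_lt m
  refine ⟨q, h0, h1, fun c x₀ x₁ y₀ y₁ hx hy hm => ?_⟩
  rw [pr_BT_eq]
  exact h c y₀ y₁ x₀ x₁ hy hx hm

/-- BK bound for the number of disjoint crossings in the short direction. -/
theorem pr_disLR_le (m : ℕ) : ∃ q : ℝ, 0 < q ∧ q < 1 ∧ ∀ (k : ℕ) (c x₀ x₁ y₀ y₁ : ℤ),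
    x₀ < x₁ → y₀ < y₁ → y₁ - y₀ ≤ m * (x₁ - x₀) →
    pr (RF x₀ x₁ y₀ y₁) (DisLR k c x₀ x₁ y₀ y₁) ≤ q ^ k := by
  obtain ⟨q, h0, h1, h⟩ := pr_LR_lt m
  refine ⟨q, h0, h1, fun k c x₀ x₁ y₀ y₁ hx hy hm => ?_⟩
  exact ((pr_mono _ fun ω hω => wit_of_disLR hω).trans
    (pr_Wit_le (depOn_LR c x₀ x₁ y₀ y₁) (incD_LR c x₀ x₁ y₀ y₁) k)).trans
    (pow_le_pow_left₀ (pr_nonneg _ _) (h c x₀ x₁ y₀ y₁ hx hy hm) k)

theorem pr_disBT_le (m : ℕ) : ∃ q : ℝ, 0 < q ∧ q < 1 ∧ ∀ (k : ℕ) (c x₀ x₁ y₀ y₁ : ℤ),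
    x₀ < x₁ → y₀ < y₁ → x₁ - x₀ ≤ m * (y₁ - y₀) →
    pr (RF x₀ x₁ y₀ y₁) (DisBT k c x₀ x₁ y₀ y₁) ≤ q ^ k := by
  obtain ⟨q, h0, h1, h⟩ := pr_BT_lt m
  refine ⟨q, h0, h1, fun k c x₀ x₁ y₀ y₁ hx hy hm => ?_⟩
  exact ((pr_mono _ fun ω hω => wit_of_disBT hω).trans
    (pr_Wit_le (depOn_BT c x₀ x₁ y₀ y₁) (incD_BT' c x₀ x₁ y₀ y₁) k)).trans
    (pow_le_pow_left₀ (pr_nonneg _ _) (h c x₀ x₁ y₀ y₁ hx hy hm) k)

/-! ### Clusters as witnesses -/

variable {ω : Cfg} {x₀ x₁ y₀ y₁ c : ℤ} {u v w w' : ℤ × ℤ}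

open Classical in
/-- The open faces of colour `c` of the cluster of `w`. -/
noncomputable def KC (ω : Cfg) (c x₀ x₁ y₀ y₁ : ℤ) (w : ℤ × ℤ) : Finset (ℤ × ℤ) :=
  (RF x₀ x₁ y₀ y₁).filter fun f => flip (parD c) ω f = true ∧
    ∃ p, IsCor f p ∧ (p.1 + p.2 - c) % 2 = 0 ∧ Conn ω (RF x₀ x₁ y₀ y₁) w p

theorem mem_KC {f : ℤ × ℤ} : f ∈ KC ω c x₀ x₁ y₀ y₁ w ↔ f ∈ RF x₀ x₁ y₀ y₁ ∧
    flip (parD c) ω f = true ∧
    ∃ p, IsCor f p ∧ (p.1 + p.2 - c) % 2 = 0 ∧ Conn ω (RF x₀ x₁ y₀ y₁) w p := by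
  classical
  unfold KC
  rw [mem_filter]

theorem conn_mod (h : Conn ω (RF x₀ x₁ y₀ y₁) u v) : (v.1 + v.2) % 2 = (u.1 + u.2) % 2 := by
  have := h.par_eq
  unfold par at this
  omega

theorem conn_KC (hw : (w.1 + w.2 - c) % 2 = 0) (h : Conn ω (RF x₀ x₁ y₀ y₁) w v) :
    Conn (flip (parD c) (cfg (KC ω c x₀ x₁ y₀ y₁ w))) (RF x₀ x₁ y₀ y₁) w v := by
  induction h with
  | refl => exact Relation.ReflTransGen.refl
  | tail hab hb ih =>
    rename_i p q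
    refine ih.tail ?_
    have hp : (p.1 + p.2 - c) % 2 = 0 := by
      have := conn_mod hab
      omega
    obtain ⟨x, y, hf, hh⟩ := hb
    have hD : flip (parD c) ω (x, y) = true := by
      unfold Perc.flip parD
      rcases hh with ⟨h1, ⟨rfl, rfl⟩ | ⟨rfl, rfl⟩⟩ | ⟨h1, ⟨rfl, rfl⟩ | ⟨rfl, rfl⟩⟩ <;>
        simp only at hp <;> rw [h1] <;> simp <;> omega
    have hcor : IsCor (x, y) p := by
      unfold IsCor
      rcases hh with ⟨h1, ⟨rfl, rfl⟩ | ⟨rfl, rfl⟩⟩ | ⟨h1, ⟨rfl, rfl⟩ | ⟨rfl, rfl⟩⟩ <;> simp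
    have hK : (x, y) ∈ KC ω c x₀ x₁ y₀ y₁ w :=
      mem_KC.2 ⟨hf, hD, p, hcor, hp, hab⟩
    have he : flip (parD c) (cfg (KC ω c x₀ x₁ y₀ y₁ w)) (x, y) = ω (x, y) := by
      have h1 : cfg (KC ω c x₀ x₁ y₀ y₁ w) (x, y) = true := by
        unfold cfg
        rw [decide_eq_true_eq]
        exact hK
      unfold Perc.flip at hD ⊢
      rw [h1]
      revert hD
      cases parD c (x, y) <;> cases ω (x, y) <;> simp
    exact ⟨x, y, hf, by rw [he]; exact hh⟩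

/-- Two corners of an open face of the colour of the face bond. -/
theorem bond_of_cor {f p q : ℤ × ℤ} (hf : flip (parD c) ω f = true) (hfR : f ∈ RF x₀ x₁ y₀ y₁)
    (hp : IsCor f p) (hq : IsCor f q) (hp2 : (p.1 + p.2 - c) % 2 = 0)
    (hq2 : (q.1 + q.2 - c) % 2 = 0) : Conn ω (RF x₀ x₁ y₀ y₁) p q := by
  by_cases hpq : p = q
  · subst hpq
    exact Relation.ReflTransGen.refl
  refine Relation.ReflTransGen.single ?_
  obtain ⟨x, y⟩ := f
  refine ⟨x, y, hfR, ?_⟩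
  obtain ⟨p1, p2⟩ := p
  obtain ⟨q1, q2⟩ := q
  unfold IsCor at hp hq
  unfold Perc.flip parD at hf
  simp only [Prod.mk.injEq, not_and] at hp hq hp2 hq2 hpq hf ⊢
  by_cases h : (x + y - c) % 2 = 0
  · have hω : ω (x, y) = true := by
      have : decide ((x + y - c) % 2 ≠ 0) = false := by simp [h]
      rw [this, Bool.false_xor] at hf
      exact hf
    left
    refine ⟨hω, ?_⟩
    omega
  · have hω : ω (x, y) = false := by
      have : decide ((x + y - c) % 2 ≠ 0) = true := by simp [h]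
      rw [this, Bool.true_xor, Bool.not_eq_true'] at hf
      exact hf
    right
    refine ⟨hω, ?_⟩
    omega

theorem KC_disjoint (h : ¬ Conn ω (RF x₀ x₁ y₀ y₁) w w') :
    Disjoint (KC ω c x₀ x₁ y₀ y₁ w) (KC ω c x₀ x₁ y₀ y₁ w') := by
  rw [Finset.disjoint_left]
  intro f hf hf'
  obtain ⟨h1, h2, p, h3, h4, h5⟩ := mem_KC.1 hf
  obtain ⟨-, -, p', h3', h4', h5'⟩ := mem_KC.1 hf'
  exact h (h5.trans ((bond_of_cor h2 h1 h3 h3' h4 h4').trans (Conn.symm h5')))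

/-! ### Terminal unit edges -/

/-- At most one of the two faces of the unit edge is in `F`. -/
def BdF (F : Set (ℤ × ℤ)) (a : UE) : Prop :=
  ∀ d, Tips.ahead (a, d) ∈ F → Tips.ahead (a, !d) ∉ F

/-- A component contains at most one boundary unit edge different from the boundary unit edge
`e`. -/
theorem other_unique {F : Set (ℤ × ℤ)} {e t t' : UE} (he : BdF F e) (ht : t ∈ MM ω F e)
    (ht' : t' ∈ MM ω F e) (hb : BdF F t) (hb' : BdF F t') (h : t ≠ e) (h' : t' ≠ e) : t = t' := by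
  obtain ⟨s₀, hs⟩ : ∃ s₀, Tips.ahead (e, s₀) ∉ F := by
    by_cases h : Tips.ahead (e, true) ∈ F
    · exact ⟨_, he true h⟩
    · exact ⟨true, h⟩
  have reach : ∀ {t : UE}, t ∈ MM ω F e → t ≠ e → BdF F t →
      ∃ d, Relation.ReflTransGen (Tips.R ω F) (e, !s₀) (t, d) ∧ Tips.ahead (t, d) ∉ F := by
    intro t ht hte hb
    obtain ⟨s, d, h⟩ := Tips.reach ht
    have hss : s = !s₀ := by
      by_contra hne
      have : s = s₀ := by cases s <;> cases s₀ <;> simp_all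
      subst this
      rcases Relation.ReflTransGen.cases_head h with h' | ⟨D, hD, -⟩
      · simp only [Prod.mk.injEq] at h'
        exact hte h'.1.symm
      · exact hs hD.1
    subst hss
    refine ⟨d, h, ?_⟩
    rcases Relation.ReflTransGen.cases_tail h with h' | ⟨B, hB, hBF, hB2⟩
    · simp only [Prod.mk.injEq] at h'
      exact absurd h'.1 hte
    · have h1 : Tips.ahead (Tips.rv (t, d)) ∈ F := by
        rw [hB2, Tips.ahead_rv_nx]; exact hBF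
      have h2 := hb (!d) h1
      rwa [Bool.not_not] at h2
  obtain ⟨d, h1, h2⟩ := reach ht h hb
  obtain ⟨d', h1', h2'⟩ := reach ht' h' hb'
  exact congrArg Prod.fst (Tips.eq_of_terminal h1 h1' h2 h2')

theorem bdF_of_bdE {a : UE} (h : BdE x₀ x₁ y₀ y₁ a) : BdF (RF x₀ x₁ y₀ y₁ : Set (ℤ × ℤ)) a :=
  fun d hd => Tips.ahead_bdE h d hd

/-! ### Strands which cross a rectangle -/

open Classical in
/-- The heights of the left ends of the strands from the left to the right side. -/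
noncomputable def LT (ω : Cfg) (x₀ x₁ y₀ y₁ : ℤ) : Finset ℤ :=
  (Ico y₀ y₁).filter fun h => ∃ g, y₀ ≤ g ∧ g < y₁ ∧
    ((x₁, g, true) : UE) ∈ MM ω (RF x₀ x₁ y₀ y₁) (x₀, h, true)

theorem mem_LT {h : ℤ} : h ∈ LT ω x₀ x₁ y₀ y₁ ↔ (y₀ ≤ h ∧ h < y₁) ∧ ∃ g, y₀ ≤ g ∧ g < y₁ ∧
    ((x₁, g, true) : UE) ∈ MM ω (RF x₀ x₁ y₀ y₁) (x₀, h, true) := by
  classical
  unfold LT
  rw [mem_filter, mem_Ico]

theorem bdE_left {h : ℤ} (h1 : y₀ ≤ h) (h2 : h < y₁) : BdE x₀ x₁ y₀ y₁ (x₀, h, true) :=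
  Or.inr ⟨rfl, h1, h2, Or.inl rfl⟩

theorem bdE_right {h : ℤ} (h1 : y₀ ≤ h) (h2 : h < y₁) : BdE x₀ x₁ y₀ y₁ (x₁, h, true) :=
  Or.inr ⟨rfl, h1, h2, Or.inr rfl⟩

/-- A strand separates the strands below it from the strands above it. -/
theorem LT_sep (hx : x₀ < x₁) {h₁ h₂ h₃ : ℤ} (H1 : h₁ ∈ LT ω x₀ x₁ y₀ y₁)
    (H2 : h₂ ∈ LT ω x₀ x₁ y₀ y₁) (H3 : h₃ ∈ LT ω x₀ x₁ y₀ y₁) (h12 : h₁ < h₂) (h23 : h₂ < h₃)
    {a b : ℤ} (ha : a = h₁ ∨ a = h₁ + 1) (hb : b = h₃ ∨ b = h₃ + 1) :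
    ¬ Conn ω (RF x₀ x₁ y₀ y₁) (x₀, a) (x₀, b) := by
  intro hc
  obtain ⟨⟨k1, k2⟩, -⟩ := mem_LT.1 H1
  obtain ⟨⟨l1, l2⟩, g, g1, g2, hg⟩ := mem_LT.1 H2
  obtain ⟨⟨m1, m2⟩, -⟩ := mem_LT.1 H3
  have hno : ∀ j, y₀ ≤ j → j < y₁ → j ≠ h₂ →
      ((x₀, j, true) : UE) ∉ MM ω (RF x₀ x₁ y₀ y₁) (x₀, h₂, true) := by
    intro j hj hj' hne hm
    have := other_unique (bdF_of_bdE (bdE_left l1 l2)) hg hm (bdF_of_bdE (bdE_right g1 g2))
      (bdF_of_bdE (bdE_left hj hj')) (by simp only [ne_eq, Prod.mk.injEq, not_and]; omega)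
      (by simp only [ne_eq, Prod.mk.injEq, not_and]; omega)
    simp only [Prod.mk.injEq] at this
    omega
  have e1 := seg_v (ω := ω) (e := (x₀, h₂, true)) (x₀ := x₀) (x₁ := x₁) (y₀ := y₀) (y₁ := y₁)
    (c := x₀) (a := a) (b := h₂) ⟨le_rfl, hx.le⟩ (by omega) (by omega) (by omega)
    (fun j j1 j2 => hno j (by omega) (by omega) (by omega))
  have e2 := seg_v (ω := ω) (e := (x₀, h₂, true)) (x₀ := x₀) (x₁ := x₁) (y₀ := y₀) (y₁ := y₁)
    (c := x₀) (a := h₂ + 1) (b := b) ⟨le_rfl, hx.le⟩ (by omega) (by omega) (by omega)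
    (fun j j1 j2 => hno j (by omega) (by omega) (by omega))
  have e3 : potR ω x₀ x₁ y₀ y₁ (x₀, h₂, true) (x₀, h₂) ≠
      potR ω x₀ x₁ y₀ y₁ (x₀, h₂, true) (x₀, h₂ + 1) :=
    (potR_joins (ω := ω) (e := (x₀, h₂, true)) (a := (x₀, h₂, true)) (p := (x₀, h₂))
      (q := (x₀, h₂ + 1)) (by simp [Joins, ua, ub]) (by unfold InR; simp only; omega)
      (by unfold InR; simp only; omega)).1 mem_MM_self
  have e4 := potR_conn (e := (x₀, h₂, true)) hc
  exact e3 (by rw [← e1, e4, e2])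

/-- The lower or upper end of the left unit edge of height `h`, of parity `c`. -/
def cend (c x₀ h : ℤ) : ℤ × ℤ := if (x₀ + h - c) % 2 = 0 then (x₀, h) else (x₀, h + 1)

theorem cend_cases (c x₀ h : ℤ) : cend c x₀ h = (x₀, h) ∨ cend c x₀ h = (x₀, h + 1) := by
  unfold cend
  split_ifs <;> simp

theorem cend_par (c x₀ h : ℤ) : ((cend c x₀ h).1 + (cend c x₀ h).2 - c) % 2 = 0 := by
  unfold cend
  split_ifs with h1
  · exact h1
  · simp only; omega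

theorem cend_joins (c x₀ h : ℤ) : ∃ q, Joins ((x₀, h, true) : UE) (cend c x₀ h) q := by
  rcases cend_cases c x₀ h with e | e
  · exact ⟨(x₀, h + 1), by rw [e]; simp [Joins, ua, ub]⟩
  · exact ⟨(x₀, h), by rw [e]; simp [Joins, ua, ub]⟩

theorem LR_of_LT {h : ℤ} (H : h ∈ LT ω x₀ x₁ y₀ y₁) :
    flip (parD c) (cfg (KC ω c x₀ x₁ y₀ y₁ (cend c x₀ h))) ∈ LR c x₀ x₁ y₀ y₁ := by
  obtain ⟨⟨k1, k2⟩, g, g1, g2, hg⟩ := mem_LT.1 H
  obtain ⟨q, hq⟩ := cend_joins c x₀ h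
  obtain ⟨p, p', hj, hp, hc⟩ := MM_conn hq hg
  have hp1 : p.1 = x₁ := by
    rcases hj with ⟨rfl, -⟩ | ⟨rfl, -⟩ <;> simp [ua, ub]
  have hc' : Conn ω (RF x₀ x₁ y₀ y₁) (cend c x₀ h) p := hc.mono SS_sub
  have h0 : (cend c x₀ h).1 = x₀ ∧ y₀ ≤ (cend c x₀ h).2 ∧ (cend c x₀ h).2 ≤ y₁ := by
    rcases cend_cases c x₀ h with e | e
    · rw [e]; exact ⟨rfl, k1, k2.le⟩
    · rw [e]; exact ⟨rfl, by simp only; omega, by simp only; omega⟩
  exact ⟨cend c x₀ h, p, h0.1, h0.2.1, h0.2.2, hp1, cend_par c x₀ h,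
    conn_KC (cend_par c x₀ h) hc'⟩

/-- Many strands give many disjoint crossings. -/
theorem wit_of_LT (hx : x₀ < x₁) {k : ℕ} (hk : 2 * k ≤ (LT ω x₀ x₁ y₀ y₁).card + 1) (c : ℤ) :
    ω ∈ Wit (parD c) (RF x₀ x₁ y₀ y₁) (LR c x₀ x₁ y₀ y₁) k := by
  classical
  set s := (LT ω x₀ x₁ y₀ y₁).orderEmbOfFin rfl with hs
  have hlt : ∀ i : Fin k, 2 * (i : ℕ) < (LT ω x₀ x₁ y₀ y₁).card := fun i => by
    have := i.2
    omega
  have hmem : ∀ j, s j ∈ LT ω x₀ x₁ y₀ y₁ := fun j => Finset.orderEmbOfFin_mem _ _ _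
  set t : Fin k → ℤ := fun i => s ⟨2 * (i : ℕ), hlt i⟩ with ht
  refine ⟨fun i => KC ω c x₀ x₁ y₀ y₁ (cend c x₀ (t i)), fun i => ?_, fun i f hf => ?_,
    fun i j hij => ?_, fun i => ?_⟩
  · intro f hf
    exact (mem_KC.1 hf).1
  · exact (mem_KC.1 hf).2.1
  · have key : ∀ i j : Fin k, i < j →
        ¬ Conn ω (RF x₀ x₁ y₀ y₁) (cend c x₀ (t i)) (cend c x₀ (t j)) := by
      intro i j hij
      have hij' : (i : ℕ) < j := hij
      have hm : 2 * (i : ℕ) + 1 < (LT ω x₀ x₁ y₀ y₁).card := by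
        have := hlt j
        omega
      have o1 : t i < s ⟨2 * (i : ℕ) + 1, hm⟩ := by
        apply s.strictMono
        exact Fin.mk_lt_mk.2 (by omega)
      have o2 : s ⟨2 * (i : ℕ) + 1, hm⟩ < t j := by
        apply s.strictMono
        exact Fin.mk_lt_mk.2 (by omega)
      rcases cend_cases c x₀ (t i) with e | e <;> rcases cend_cases c x₀ (t j) with e' | e' <;>
        rw [e, e']
      · exact LT_sep hx (hmem _) (hmem _) (hmem _) o1 o2 (Or.inl rfl) (Or.inl rfl)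
      · exact LT_sep hx (hmem _) (hmem _) (hmem _) o1 o2 (Or.inl rfl) (Or.inr rfl)
      · exact LT_sep hx (hmem _) (hmem _) (hmem _) o1 o2 (Or.inr rfl) (Or.inl rfl)
      · exact LT_sep hx (hmem _) (hmem _) (hmem _) o1 o2 (Or.inr rfl) (Or.inr rfl)
    rcases lt_or_gt_of_ne hij with h | h
    · exact KC_disjoint (key i j h)
    · exact KC_disjoint fun hc => key j i h (Conn.symm hc)
  · exact LR_of_LT (hmem _)

theorem depOn_LT (k : ℕ) :
    DepOn (RF x₀ x₁ y₀ y₁ : Set (ℤ × ℤ)) {ω | k ≤ (LT ω x₀ x₁ y₀ y₁).card} := by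
  intro ω ω' h
  have : LT ω' x₀ x₁ y₀ y₁ = LT ω x₀ x₁ y₀ y₁ := by
    ext j
    rw [mem_LT, mem_LT, MM_congr' h]
  rw [Set.mem_ofPred_eq, Set.mem_ofPred_eq, this]

/-- Tail of the number of strands which cross a rectangle. -/
theorem pr_LT_le (m : ℕ) : ∃ q : ℝ, 0 < q ∧ q < 1 ∧ ∀ (x₀ x₁ y₀ y₁ : ℤ) (W : Finset (ℤ × ℤ)),
    x₀ < x₁ → y₀ < y₁ → y₁ - y₀ ≤ m * (x₁ - x₀) → RF x₀ x₁ y₀ y₁ ⊆ W → ∀ k : ℕ,
    pr W {ω | 2 * k ≤ (LT ω x₀ x₁ y₀ y₁).card + 1} ≤ q ^ k := by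
  obtain ⟨q, hq0, hq1, h⟩ := pr_LR_lt m
  refine ⟨q, hq0, hq1, ?_⟩
  intro x₀ x₁ y₀ y₁ W hx hy hm hW k
  have h0 : DepOn (RF x₀ x₁ y₀ y₁ : Set (ℤ × ℤ))
      {ω | 2 * k ≤ (LT ω x₀ x₁ y₀ y₁).card + 1} := by
    intro ω ω' hh
    have : LT ω' x₀ x₁ y₀ y₁ = LT ω x₀ x₁ y₀ y₁ := by
      ext j
      rw [mem_LT, mem_LT, MM_congr' hh]
    rw [Set.mem_ofPred_eq, Set.mem_ofPred_eq, this]
  rw [pr_eq_of_depOn h0 hW]
  exact ((pr_mono _ fun ω hω => wit_of_LT hx hω 0).trans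
      (pr_Wit_le (depOn_LR 0 x₀ x₁ y₀ y₁) (incD_LR 0 x₀ x₁ y₀ y₁) k)).trans
    (pow_le_pow_left₀ (pr_nonneg _ _) (h 0 x₀ x₁ y₀ y₁ hx hy hm) k)

end Pool.Agent.PercN

end Parth22BKRect

section Parth60C1Det

/-!
# Cells which are met by the outer perimeter and see infinity: two strands and a corridor
-/

set_option autoImplicit false

namespace Pool.Agent.PercS5

open Relation
open Pool.Agent.Perc Pool.Agent.Perc3 Pool.Agent.PercD
open Pool.Agent.MP_6bd702.H23 (Ed)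
open Pool.Agent.PercU (Cor vtx fce)
open Pool.Agent.PercO (Orb Oc mem_Oc)
open Pool.Agent.PercX60 (dB TA Sn gV gF)
open Pool.Agent.PercW (kap ua_kap joins_kap)

/-! ### Translations -/

/-- Translation of a unit edge. -/
def shE (c : ℤ × ℤ) (a : UE) : UE := (a.1 + c.1, a.2.1 + c.2, a.2.2)

/-- Translation back. -/
def shE' (c : ℤ × ℤ) (a : UE) : UE := (a.1 - c.1, a.2.1 - c.2, a.2.2)

theorem shE_shE' (c : ℤ × ℤ) (a : UE) : shE c (shE' c a) = a := by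
  obtain ⟨x, y, b⟩ := a
  simp [shE, shE']

theorem shE'_inj {c : ℤ × ℤ} {a b : UE} (h : shE' c a = shE' c b) : a = b := by
  rw [← shE_shE' c a, h, shE_shE']

theorem mt_shift {ω : Cfg} {c f : ℤ × ℤ} {a a' : UE}
    (h : Mt ω (f.1 + c.1, f.2 + c.2) a a') :
    Mt (shiftC c.1 c.2 ω) f (shE' c a) (shE' c a') := by
  obtain ⟨x, y⟩ := f
  obtain ⟨c1, c2⟩ := c
  unfold Mt at h ⊢
  simp only [shiftC, shE', bo, le', to', ri, Prod.mk.injEq] at h ⊢
  rcases h with ⟨h0, h⟩ | ⟨h0, h⟩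
  · left
    refine ⟨h0, ?_⟩
    rcases h with ⟨rfl, rfl⟩ | ⟨rfl, rfl⟩ | ⟨rfl, rfl⟩ | ⟨rfl, rfl⟩ <;> simp <;> omega
  · right
    refine ⟨h0, ?_⟩
    rcases h with ⟨rfl, rfl⟩ | ⟨rfl, rfl⟩ | ⟨rfl, rfl⟩ | ⟨rfl, rfl⟩ <;> simp <;> omega

theorem mt_unshift {ω : Cfg} {c f : ℤ × ℤ} {a a' : UE}
    (h : Mt (shiftC c.1 c.2 ω) f a a') :
    Mt ω (f.1 + c.1, f.2 + c.2) (shE c a) (shE c a') := by
  obtain ⟨x, y⟩ := f
  obtain ⟨c1, c2⟩ := c
  unfold Mt at h ⊢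
  simp only [shiftC, shE, bo, le', to', ri] at h ⊢
  rcases h with ⟨h0, h⟩ | ⟨h0, h⟩
  · left
    refine ⟨h0, ?_⟩
    rcases h with ⟨rfl, rfl⟩ | ⟨rfl, rfl⟩ | ⟨rfl, rfl⟩ | ⟨rfl, rfl⟩ <;> simp <;> omega
  · right
    refine ⟨h0, ?_⟩
    rcases h with ⟨rfl, rfl⟩ | ⟨rfl, rfl⟩ | ⟨rfl, rfl⟩ | ⟨rfl, rfl⟩ <;> simp <;> omega

theorem MM_shift {ω : Cfg} {c : ℤ × ℤ} {F G : Set (ℤ × ℤ)}
    (hFG : ∀ f ∈ F, (f.1 - c.1, f.2 - c.2) ∈ G) {e a : UE} (h : a ∈ MM ω F e) :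
    shE' c a ∈ MM (shiftC c.1 c.2 ω) G (shE' c e) := by
  induction h with
  | refl => exact mem_MM_self
  | tail _ hs ih =>
    obtain ⟨f, hf, hm⟩ := hs
    refine MM_step (hFG f hf) (mt_shift ?_) ih
    simpa using hm

theorem MM_unshift {ω : Cfg} {c : ℤ × ℤ} {F G : Set (ℤ × ℤ)}
    (hFG : ∀ f ∈ F, (f.1 + c.1, f.2 + c.2) ∈ G) {e a : UE}
    (h : a ∈ MM (shiftC c.1 c.2 ω) F e) : shE c a ∈ MM ω G (shE c e) := by
  induction h with
  | refl => exact mem_MM_self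
  | tail _ hs ih =>
    obtain ⟨f, hf, hm⟩ := hs
    exact MM_step (hFG f hf) (mt_unshift hm) ih

/-! ### The deterministic statement -/

/-- The event of the comparison theorem: two strands and a corridor. -/
def CorrU (L w d D : ℤ) (M : ℕ) : Set Cfg :=
  {ω | ∃ b ∈ TBF L w, ∃ b' ∈ TBF L w, b ≠ b' ∧ ω ∈ CorrEv L w d D M b b'}

/-- The cells outside the square of radius `2`. -/
noncomputable def cellS (p : ℕ) : Finset (ℤ × ℤ) :=
  Finset.Icc (-(2 * 2 ^ p)) (2 * 2 ^ p) ×ˢ Finset.Icc (-(2 * 2 ^ p)) (2 * 2 ^ p)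

theorem not_mem_cellS {p : ℕ} {b : ℤ × ℤ} : b ∉ cellS p ↔ Far p b := by
  unfold cellS Far
  rw [Finset.mem_product, Finset.mem_Icc, Finset.mem_Icc, lt_abs, lt_abs]
  omega

/-- The bound for the number of the corners of the corridors of mesh `2 ^ (-p)`. -/
def corN (p : ℕ) : ℕ := 2 * (4 * 2 ^ p + 1) ^ 2

theorem card_cellS (p : ℕ) : 2 * (cellS p).card = corN p := by
  unfold cellS corN
  rw [Finset.card_product, Int.card_Icc]
  have h : ((2 : ℤ) * 2 ^ p + 1 - -(2 * 2 ^ p)).toNat = 4 * 2 ^ p + 1 := by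
    have h1 : ((2 : ℤ) * 2 ^ p + 1 - -(2 * 2 ^ p)) = ((4 * 2 ^ p + 1 : ℕ) : ℤ) := by
      push_cast; ring
    rw [h1, Int.toNat_natCast]
  rw [h]
  ring

section

variable {ω : Cfg} {c : ℤ × ℤ} {d X L w R D : ℤ} {e a b : UE} {n p : ℕ} {u : ℤ × ℤ} {k : Cor}

/-- The unit edge is in the closed rectangle. -/
def InL (c : ℤ × ℤ) (L w : ℤ) (a : UE) : Prop :=
  InR (c.1 - L) (c.1 + L) (c.2 - w) (c.2 + w) (ua a) ∧
    InR (c.1 - L) (c.1 + L) (c.2 - w) (c.2 + w) (ub a)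

theorem inL_of_side {f : ℤ × ℤ} (hf : f ∈ RL c L w) (hs : IsSide f a) : InL c L w a := by
  rw [mem_RL] at hf
  obtain ⟨x, y⟩ := f
  unfold InL InR
  rcases hs with rfl | rfl | rfl | rfl
  · simp only [bo, ua_mk, ub_false] at hf ⊢; omega
  · simp only [le', ua_mk, ub_true] at hf ⊢; omega
  · simp only [to', ua_mk, ub_false] at hf ⊢; omega
  · simp only [ri, ua_mk, ub_true] at hf ⊢; omega

theorem MM_inL (he : InL c L w e) (ha : a ∈ MM ω (RL c L w) e) : InL c L w a := by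
  induction ha with
  | refl => exact he
  | tail _ hs _ =>
    obtain ⟨f, hf, hm⟩ := hs
    exact inL_of_side (Finset.mem_coe.1 hf) hm.right

theorem bdL_of_side {f : ℤ × ℤ} (ha : InL c L w a) (hs : IsSide f a) (hf : f ∉ RL c L w) :
    BdL c L w a := by
  rw [mem_RL] at hf
  obtain ⟨x, y⟩ := f
  unfold InL InR at ha
  unfold BdL BdE
  rcases hs with rfl | rfl | rfl | rfl
  · simp only [bo, ua_mk, ub_false] at ha ⊢
    simp at hf ⊢
    omega
  · simp only [le', ua_mk, ub_true] at ha ⊢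
    simp at hf ⊢
    omega
  · simp only [to', ua_mk, ub_false] at ha ⊢
    simp at hf ⊢
    omega
  · simp only [ri, ua_mk, ub_true] at ha ⊢
    simp at hf ⊢
    omega

/-- A boundary unit edge of a box is a side of a face outside. -/
theorem exists_out {v : ℤ × ℤ} {r : ℤ} (h : BdR v r a) : ∃ f, f ∉ BR v r ∧ IsSide f a := by
  obtain ⟨x, y, t⟩ := a
  unfold BdR BdE at h
  simp only at h
  rcases h with ⟨rfl, h1, h2, h3⟩ | ⟨rfl, h1, h2, h3⟩
  · rcases h3 with h3 | h3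
    · refine ⟨(x, y - 1), ?_, Or.inr (Or.inr (Or.inl ?_))⟩
      · rw [mem_BR]; simp only; omega
      · simp [to']
    · refine ⟨(x, y), ?_, Or.inl rfl⟩
      rw [mem_BR]; simp only; omega
  · rcases h3 with h3 | h3
    · refine ⟨(x - 1, y), ?_, Or.inr (Or.inr (Or.inr ?_))⟩
      · rw [mem_BR]; simp only; omega
      · simp [ri]
    · refine ⟨(x, y), ?_, Or.inr (Or.inl rfl)⟩
      rw [mem_BR]; simp only; omega

theorem inL_of_inE (he : InE c d e) (hdw : d ≤ w) (hwL : w ≤ L) : InL c L w e := by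
  unfold InE InR at he
  unfold InL InR
  omega

/-- The rectangle in the big box. -/
theorem RL_sub_BR (he : InE c d e) (hR : L + d ≤ R) (hwL : w ≤ L) : RL c L w ⊆ BR (ua e) R := by
  intro f hf
  rw [mem_RL] at hf
  rw [mem_BR]
  have h1 := he.1
  unfold InR at h1
  omega

/-- The component of a long strand in the rectangle reaches the boundary. -/
theorem exists_tipL (he : InE c d e) (hdw : d ≤ w) (hwL : w ≤ L) (hR : L + d ≤ R)
    (h : ω ∈ Rch (ua e) R e) : ∃ t ∈ MM ω (RL c L w) e, BdL c L w t := by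
  obtain ⟨t, ht, htb⟩ := h
  have heL := inL_of_inE (c := c) he hdw hwL
  rcases first_exit' (F := (RL c L w : Set (ℤ × ℤ))) ht with h1 | ⟨s, hs, f, hf, hf', hsd⟩
  · obtain ⟨f, hf, hsd⟩ := exists_out htb
    exact ⟨t, h1, bdL_of_side (MM_inL heL h1) hsd fun h2 => hf (RL_sub_BR he hR hwL h2)⟩
  · exact ⟨s, hs, bdL_of_side (MM_inL heL hs) hsd fun h2 => hf' (Finset.mem_coe.2 h2)⟩

/-- The ends of the unit edges of the strand are vertices of the outer perimeter. -/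
theorem mem_perK_of_MM (hk : k ∈ Oc (cfgE n ω : Set Ed) u)
    (hpos : 0 < Metric.diam (clS (cfgE n ω) u)) (hR : R + 1 ≤ dB n (vtx k))
    (ha : a ∈ MM ω (BR (ua (kap k)) R) (kap k)) :
    ∃ v : ℤ × ℤ, (phiV v = ua a ∨ phiV v = ub a) ∧
      toC v / n ∈ (perK n (cfgE n ω) u : Set ℂ) := by
  obtain ⟨k', hk', rfl⟩ := mem_orb_of_MM hR ha
  have hT : cfgE n ω ⊆ boxE n := Finset.filter_subset _ _
  have h1 : k' ∈ Oc (cfgE n ω : Set Ed) u :=
    Pool.Agent.PercO.orb_sub_Oc (Pool.Agent.PercO.boxE_sub hT) hk hk'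
  have h2 := outV_of_cor hpos h1
  refine ⟨vtx k', ?_, ⟨toC (vtx k'), Perc.PercD.toC_mem_frontier h2, rfl⟩⟩
  rcases joins_kap k' with ⟨h3, -⟩ | ⟨h3, -⟩
  · exact Or.inl h3
  · exact Or.inr h3

/-- The centred lattice point of the cell `a`. -/
noncomputable def gc (n p : ℕ) (c a : ℤ × ℤ) : ℤ × ℤ := ((gp n p a).1 - c.1, (gp n p a).2 - c.2)

theorem segP_shift {P : ℤ × ℤ → Prop} {x y : ℤ × ℤ} (h : SegP P x y) :
    SegP (fun q => P (q.1 + c.1, q.2 + c.2)) (x.1 - c.1, x.2 - c.2) (y.1 - c.1, y.2 - c.2) := by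
  refine ⟨h.1.imp (by intro h; simp only; omega) (by intro h; simp only; omega), ?_⟩
  intro q h1 h2 h3 h4
  simp only at h1 h2 h3 h4
  refine h.2 _ ?_ ?_ ?_ ?_ <;> simp only <;> omega

theorem gc_step {B : ℤ × ℤ → Prop} (x y : ℤ × ℤ) (h : Stp B x y) :
    ∃ z, SegP (fun q => NearB n p B (q.1 + c.1, q.2 + c.2)) (gc n p c x) z ∧
      SegP (fun q => NearB n p B (q.1 + c.1, q.2 + c.2)) z (gc n p c y) := by
  obtain ⟨h1, h2⟩ := seg_step (n := n) (p := p) h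
  exact ⟨_, segP_shift h1, segP_shift h2⟩

theorem far_of_clear {q v f : ℤ × ℤ} {κ : ℝ} (hκ : (D : ℝ) + 1 ≤ κ)
    (h : κ < |((q.1 + c.1 : ℤ) : ℝ) - v.1| ∨ κ < |((q.2 + c.2 : ℤ) : ℝ) - v.2|)
    (h1 : |v.1 - c.1 - f.1| ≤ 1) (h2 : |v.2 - c.2 - f.2| ≤ 1) :
    D < max |q.1 - f.1| |q.2 - f.2| := by
  have key : ∀ x y z t : ℤ, κ < |((x + y : ℤ) : ℝ) - z| → |z - y - t| ≤ 1 → D < |x - t| := by
    intro x y z t h h'
    have h3 : (D : ℝ) + 1 < ((|x + y - z| : ℤ) : ℝ) := by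
      push_cast at h ⊢
      linarith
    have h4 : D + 1 < |x + y - z| := by exact_mod_cast h3
    rw [lt_abs] at h4 ⊢
    rw [abs_le] at h'
    omega
  rcases h with h | h
  · exact lt_max_of_lt_left (key _ _ _ _ h h1)
  · exact lt_max_of_lt_right (key _ _ _ _ h h2)

/-- **The deterministic statement**: a corner of the outer perimeter in the inner box and a chain of
free squares from the inner box to points far away give two strands and a corridor. -/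
theorem corrU_of (hn : 0 < n) (hk : k ∈ Oc (cfgE n ω : Set Ed) u)
    (hin : InE c d (kap k)) (hd : 0 < d) (hdw : d < w) (hwL : w ≤ L) (hXL : X ≤ L)
    (hR : R + 1 ≤ dB n (vtx k)) (hR1 : L + d ≤ R) {D₀ : ℝ}
    (hdiam : D₀ ≤ Metric.diam (clS (cfgE n ω) u)) (hRD : 4 * ((R : ℝ) + 2) ≤ D₀)
    (hLat : ω ∉ Lat c d X L w) {a b : ℤ × ℤ}
    (hab : ReflTransGen (Stp (FreeC p (perK n (cfgE n ω) u : Set ℂ))) a b)
    (hb : Far p b) (ha1 : |(gc n p c a).1| < d) (ha2 : |(gc n p c a).2| < d)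
    (hout : ∀ b, Far p b → ¬ (|(gc n p c b).1| ≤ L ∧ |(gc n p c b).2| ≤ w))
    (hD : 2 * ((D : ℝ) + 1) + 2 ≤ n / 2 ^ p) :
    shiftC c.1 c.2 ω ∈ CorrU L w d D (corN p) := by
  have hR0 : (0 : ℝ) ≤ R := by
    have : 0 ≤ R := by omega
    exact_mod_cast this
  have hpos : 0 < Metric.diam (clS (cfgE n ω) u) := by linarith
  have hRch := Rch_of_outer hk hdiam hR (by omega) hRD
  obtain ⟨t, ht, htb⟩ := exists_tipL hin hdw.le hwL hR1 hRch
  obtain ⟨b₁, b₂, hne, hb1, hb2, hM1, hM2, ⟨s₁, hs1, hs1'⟩, s₂, hs2, hs2'⟩ :=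
    strands (X := X) hin hd hdw (by omega) hXL hLat ht htb
  -- translation
  have hFG : ∀ f ∈ ((RL c L w : Set (ℤ × ℤ)) \ BR c d),
      (f.1 - c.1, f.2 - c.2) ∈ (AnF L w d : Set (ℤ × ℤ)) := by
    rintro f ⟨hf1, hf2⟩
    rw [Finset.mem_coe, mem_RL] at hf1
    rw [mem_BR'] at hf2
    rw [Finset.mem_coe, mem_AnF]
    simp only
    omega
  have hGF : ∀ f ∈ (AnF L w d : Set (ℤ × ℤ)),
      (f.1 + c.1, f.2 + c.2) ∈ ((RL c L w : Set (ℤ × ℤ)) \ BR c d) := by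
    intro f hf
    rw [Finset.mem_coe, mem_AnF] at hf
    refine ⟨?_, ?_⟩
    · rw [Finset.mem_coe, mem_RL]; simp only; omega
    · rw [mem_BR']; simp only; omega
  have hTBF : ∀ b, TB c L w b → shE' c b ∈ TBF L w := by
    rintro ⟨x, y, t⟩ ⟨h1, h2, h3, h4⟩
    rw [mem_TBF]
    simp only [shE'] at h1 h2 h3 h4 ⊢
    exact ⟨by omega, by omega, by omega, h1⟩
  have hBd : ∀ s, BdR c d s → BdE (-d) d (-d) d (shE' c s) := by
    rintro ⟨x, y, t⟩ h
    unfold BdR BdE at h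
    unfold BdE
    simp only [shE'] at h ⊢
    rcases h with ⟨h0, h⟩ | ⟨h0, h⟩
    · exact Or.inl ⟨h0, by omega, by omega, by omega⟩
    · exact Or.inr ⟨h0, by omega, by omega, by omega⟩
  -- the visited faces are near the perimeter
  have hvis : ∀ b, b ∈ MM ω (RL c L w) (kap k) →
      ∀ f ∈ SS (shiftC c.1 c.2 ω) (AnF L w d) (shE' c b), ∃ v : ℤ × ℤ,
        toC v / n ∈ (perK n (cfgE n ω) u : Set ℂ) ∧ |(phiV v).1 - c.1 - f.1| ≤ 1 ∧
          |(phiV v).2 - c.2 - f.2| ≤ 1 := by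
    rintro b hb f ⟨-, s, hs, hsd⟩
    have h1 := MM_unshift hGF hs
    rw [shE_shE'] at h1
    have h2 : shE c s ∈ MM ω (RL c L w) (kap k) := MM_trans hb (MM_mono (fun f hf => hf.1) h1)
    have h3 : shE c s ∈ MM ω (BR (ua (kap k)) R) (kap k) :=
      MM_mono (fun f hf => Finset.mem_coe.2 (RL_sub_BR hin hR1 hwL (Finset.mem_coe.1 hf))) h2
    obtain ⟨v, hv, hvK⟩ := mem_perK_of_MM hk hpos hR h3
    refine ⟨v, hvK, ?_⟩
    obtain ⟨x, y⟩ := f
    rcases hsd with rfl | rfl | rfl | rfl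
    · simp only [shE, bo, ua_mk, ub_false] at hv
      rcases hv with hv | hv <;> rw [hv] <;> simp only <;> rw [abs_le, abs_le] <;> omega
    · simp only [shE, le', ua_mk, ub_true] at hv
      rcases hv with hv | hv <;> rw [hv] <;> simp only <;> rw [abs_le, abs_le] <;> omega
    · simp only [shE, to', ua_mk, ub_false] at hv
      rcases hv with hv | hv <;> rw [hv] <;> simp only <;> rw [abs_le, abs_le] <;> omega
    · simp only [shE, ri, ua_mk, ub_true] at hv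
      rcases hv with hv | hv <;> rw [hv] <;> simp only <;> rw [abs_le, abs_le] <;> omega
  -- the corridor
  have haS : a ∈ cellS p := by
    by_contra h
    rw [not_mem_cellS] at h
    exact hout a h ⟨by omega, by omega⟩
  obtain ⟨b', l, hb', hl1, hl2, hl3⟩ := exists_path (g := gc n p c)
    (P := fun q => NearB n p (FreeC p (perK n (cfgE n ω) u : Set ℂ)) (q.1 + c.1, q.2 + c.2))
    (fun x y h => gc_step x y h) haS (not_mem_cellS.2 hb) hab
  obtain ⟨l', k1, k2, k3, k4⟩ := trim l (gc n p c a) (L := L) (w := w) (by omega) (by omega) hl1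
    (by rw [hl2]; exact hout b' (not_mem_cellS.1 hb'))
  have hCorr : Corr L w d (gc n p c a) l' := ⟨PathP.rectil l' k1, ⟨ha1, ha2⟩, k3, k4⟩
  refine ⟨shE' c b₁, hTBF _ hb1, shE' c b₂, hTBF _ hb2, fun h => hne (shE'_inj h),
    ⟨_, MM_shift hFG hs1, hBd _ hs1'⟩, ⟨_, MM_shift hFG hs2, hBd _ hs2'⟩, gc n p c a, l', hCorr, ?_,
    ?_⟩
  · rw [← card_cellS]
    exact k2.trans hl3
  · intro f hf
    obtain ⟨v, hvK, hv1, hv2⟩ : ∃ v : ℤ × ℤ,
        toC v / n ∈ (perK n (cfgE n ω) u : Set ℂ) ∧ |(phiV v).1 - c.1 - f.1| ≤ 1 ∧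
          |(phiV v).2 - c.2 - f.2| ≤ 1 := by
      rcases hf with hf | hf
      · exact hvis _ hM1 f hf
      · exact hvis _ hM2 f hf
    intro x hx
    obtain ⟨y, hy, hyq⟩ := PathP.onPath l' k1 x hx
    have hcl := clear hn hy hvK hyq (κ := (D : ℝ) + 1) hD
    exact far_of_clear (q := (x.1, x.2.1)) le_rfl (by exact_mod_cast hcl) hv1 hv2

end

end Pool.Agent.PercS5

end Parth60C1Det

section Partperc6Cyc

/-!
# The boundary of a box, counterclockwise from the ray to the ray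
-/

set_option autoImplicit false

namespace Pool.Agent.Perc6

open Finset Pool.Agent.Perc Pool.Agent.PercD Pool.Agent.PercL

variable {c h w R k : ℤ}

theorem cycY1_cases (hw : 1 ≤ w) (hR : w < R) (h0 : 0 ≤ k) (h1 : k < len w R) :
    (k < R - w ∧ cyc c h w R k = (c + R, h + w + k) ∧
      cyc c h w R (k + 1) = (c + R, h + w + k + 1) ∧ cycE c h w R k = (c + R, h + w + k, true)) ∨
    (R - w ≤ k ∧ k < 3 * R - w ∧ cyc c h w R k = (c + 2 * R - w - k, h + R) ∧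
      cyc c h w R (k + 1) = (c + 2 * R - w - k - 1, h + R) ∧
      cycE c h w R k = (c + 2 * R - w - k - 1, h + R, false)) ∨
    (3 * R - w ≤ k ∧ k < 5 * R - w ∧ cyc c h w R k = (c - R, h + 4 * R - w - k) ∧
      cyc c h w R (k + 1) = (c - R, h + 4 * R - w - k - 1) ∧
      cycE c h w R k = (c - R, h + 4 * R - w - k - 1, true)) ∨
    (5 * R - w ≤ k ∧ k < 7 * R - w ∧ cyc c h w R k = (c - 6 * R + w + k, h - R) ∧
      cyc c h w R (k + 1) = (c - 6 * R + w + k + 1, h - R) ∧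
      cycE c h w R k = (c - 6 * R + w + k, h - R, false)) ∨
    (7 * R - w ≤ k ∧ k < 8 * R - 2 * w ∧ cyc c h w R k = (c + R, h - 8 * R + w + k) ∧
      cyc c h w R (k + 1) = (c + R, h - 8 * R + w + k + 1) ∧
      cycE c h w R k = (c + R, h - 8 * R + w + k, true)) := by
  unfold len at h1
  by_cases hA : k < R - w
  · refine Or.inl ⟨hA, ?_, ?_, ?_⟩
    · unfold cyc; rw [if_pos (by omega)]
    · unfold cyc; rw [if_pos (by omega), add_assoc (h + w) k 1]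
    · unfold cycE; rw [if_pos (by omega)]
  by_cases hB : k < 3 * R - w
  · refine Or.inr (Or.inl ⟨by omega, hB, ?_, ?_, ?_⟩)
    · unfold cyc
      split_ifs <;> (refine Prod.ext ?_ ?_ <;> dsimp only <;> omega)
    · unfold cyc
      rw [if_neg (by omega), if_pos (by omega)]
      refine Prod.ext ?_ ?_ <;> dsimp only
      omega
    · unfold cycE
      rw [if_neg (by omega), if_pos (by omega)]
  by_cases hC : k < 5 * R - w
  · refine Or.inr (Or.inr (Or.inl ⟨by omega, hC, ?_, ?_, ?_⟩))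
    · unfold cyc
      split_ifs <;> (refine Prod.ext ?_ ?_ <;> dsimp only <;> omega)
    · unfold cyc
      rw [if_neg (by omega), if_neg (by omega), if_pos (by omega)]
      refine Prod.ext ?_ ?_ <;> dsimp only
      omega
    · unfold cycE
      rw [if_neg (by omega), if_neg (by omega), if_pos (by omega)]
  by_cases hD : k < 7 * R - w
  · refine Or.inr (Or.inr (Or.inr (Or.inl ⟨by omega, hD, ?_, ?_, ?_⟩)))
    · unfold cyc
      split_ifs <;> (refine Prod.ext ?_ ?_ <;> dsimp only <;> omega)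
    · unfold cyc
      rw [if_neg (by omega), if_neg (by omega), if_neg (by omega), if_pos (by omega)]
      refine Prod.ext ?_ ?_ <;> dsimp only
      omega
    · unfold cycE
      rw [if_neg (by omega), if_neg (by omega), if_neg (by omega), if_pos (by omega)]
  · refine Or.inr (Or.inr (Or.inr (Or.inr ⟨by omega, by omega, ?_, ?_, ?_⟩)))
    · unfold cyc
      split_ifs <;> (refine Prod.ext ?_ ?_ <;> dsimp only <;> omega)
    · unfold cyc
      rw [if_neg (by omega), if_neg (by omega), if_neg (by omega), if_neg (by omega)]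
      refine Prod.ext ?_ ?_ <;> dsimp only
      omega
    · unfold cycE
      rw [if_neg (by omega), if_neg (by omega), if_neg (by omega), if_neg (by omega)]

theorem cycY1_vert (hw : 1 ≤ w) (hR : w < R) (h0 : 0 ≤ k) (h1 : k ≤ len w R) :
    (k ≤ R - w ∧ cyc c h w R k = (c + R, h + w + k)) ∨
    (R - w < k ∧ k ≤ 3 * R - w ∧ cyc c h w R k = (c + 2 * R - w - k, h + R)) ∨
    (3 * R - w < k ∧ k ≤ 5 * R - w ∧ cyc c h w R k = (c - R, h + 4 * R - w - k)) ∨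
    (5 * R - w < k ∧ k ≤ 7 * R - w ∧ cyc c h w R k = (c - 6 * R + w + k, h - R)) ∨
    (7 * R - w < k ∧ k ≤ 8 * R - 2 * w ∧ cyc c h w R k = (c + R, h - 8 * R + w + k)) := by
  unfold len at h1
  unfold cyc
  split_ifs with hA hB hC hD
  · exact Or.inl ⟨hA, rfl⟩
  · exact Or.inr (Or.inl ⟨by omega, hB, rfl⟩)
  · exact Or.inr (Or.inr (Or.inl ⟨by omega, hC, rfl⟩))
  · exact Or.inr (Or.inr (Or.inr (Or.inl ⟨by omega, hD, rfl⟩)))
  · exact Or.inr (Or.inr (Or.inr (Or.inr ⟨by omega, by omega, rfl⟩)))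

theorem cyc_joins (hw : 1 ≤ w) (hR : w < R) (h0 : 0 ≤ k) (h1 : k < len w R) :
    Joins (cycE c h w R k) (cyc c h w R k) (cyc c h w R (k + 1)) := by
  rcases cycY1_cases (c := c) (h := h) hw hR h0 h1 with ⟨_, e1, e2, e3⟩ | ⟨_, _, e1, e2, e3⟩ |
    ⟨_, _, e1, e2, e3⟩ | ⟨_, _, e1, e2, e3⟩ | ⟨_, _, e1, e2, e3⟩
  · rw [e1, e2, e3]
    exact Or.inl ⟨rfl, by rw [ub_true]⟩
  · rw [e1, e2, e3]
    refine Or.inr ⟨?_, rfl⟩
    rw [ub_false, sub_add_cancel]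
  · rw [e1, e2, e3]
    refine Or.inr ⟨?_, rfl⟩
    rw [ub_true, sub_add_cancel]
  · rw [e1, e2, e3]
    exact Or.inl ⟨rfl, by rw [ub_false]⟩
  · rw [e1, e2, e3]
    exact Or.inl ⟨rfl, by rw [ub_true]⟩

theorem cycE_inj (hw : 1 ≤ w) (hR : w < R) {k' : ℤ} (h0 : 0 ≤ k) (h1 : k < len w R)
    (h0' : 0 ≤ k') (h1' : k' < len w R) (h : cycE c h w R k = cycE c h w R k') : k = k' := by
  rcases cycY1_cases (c := c) (h := _) hw hR h0 h1 with ⟨_, _, _, e3⟩ | ⟨_, _, _, _, e3⟩ |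
    ⟨_, _, _, _, e3⟩ | ⟨_, _, _, _, e3⟩ | ⟨_, _, _, _, e3⟩ <;>
  rcases cycY1_cases (c := c) (h := _) hw hR h0' h1' with ⟨_, _, _, e3'⟩ | ⟨_, _, _, _, e3'⟩ |
    ⟨_, _, _, _, e3'⟩ | ⟨_, _, _, _, e3'⟩ | ⟨_, _, _, _, e3'⟩ <;>
  · rw [e3, e3'] at h
    simp only [Prod.mk.injEq, reduceCtorEq, and_false, and_true] at h
    try omega

theorem cyc_inj (hw : 1 ≤ w) (hR : w < R) {k' : ℤ} (h0 : 0 ≤ k) (h1 : k ≤ len w R)
    (h0' : 0 ≤ k') (h1' : k' ≤ len w R) (h : cyc c h w R k = cyc c h w R k') : k = k' := by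
  rcases cycY1_vert (c := c) (h := _) hw hR h0 h1 with ⟨_, e3⟩ | ⟨_, _, e3⟩ |
    ⟨_, _, e3⟩ | ⟨_, _, e3⟩ | ⟨_, _, e3⟩ <;>
  rcases cycY1_vert (c := c) (h := _) hw hR h0' h1' with ⟨_, e3'⟩ | ⟨_, _, e3'⟩ |
    ⟨_, _, e3'⟩ | ⟨_, _, e3'⟩ | ⟨_, _, e3'⟩ <;>
  · rw [e3, e3'] at h
    simp only [Prod.mk.injEq] at h
    omega

theorem par_cyc (hw : 1 ≤ w) (hR : w < R) (h0 : 0 ≤ k) (h1 : k < len w R) :
    par (cyc c h w R (k + 1)) ≠ par (cyc c h w R k) := by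
  unfold par
  rcases cycY1_cases (c := c) (h := h) hw hR h0 h1 with ⟨_, e1, e2, e3⟩ | ⟨_, _, e1, e2, e3⟩ |
    ⟨_, _, e1, e2, e3⟩ | ⟨_, _, e1, e2, e3⟩ | ⟨_, _, e1, e2, e3⟩ <;>
  · rw [e1, e2]
    dsimp only
    omega

theorem cyc_onBd (hw : 1 ≤ w) (hR : w < R) (h0 : 0 ≤ k) (h1 : k ≤ len w R) :
    OnBd (c - R) (c + R) (h - R) (h + R) (cyc c h w R k) := by
  unfold OnBd
  rcases cycY1_vert (c := c) (h := h) hw hR h0 h1 with ⟨_, e3⟩ | ⟨_, _, e3⟩ |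
    ⟨_, _, e3⟩ | ⟨_, _, e3⟩ | ⟨_, _, e3⟩ <;>
  · rw [e3]
    dsimp only
    omega

theorem bdR_cycE (hw : 1 ≤ w) (hR : w < R) (h0 : 0 ≤ k) (h1 : k < len w R) :
    BdR (c, h) R (cycE c h w R k) := by
  unfold BdR BdE
  rcases cycY1_cases (c := c) (h := h) hw hR h0 h1 with ⟨_, _, _, e3⟩ | ⟨_, _, _, _, e3⟩ |
    ⟨_, _, _, _, e3⟩ | ⟨_, _, _, _, e3⟩ | ⟨_, _, _, _, e3⟩
  · rw [e3]
    refine Or.inr ⟨rfl, ?_⟩
    dsimp only
    omega
  · rw [e3]
    refine Or.inl ⟨rfl, ?_⟩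
    dsimp only
    omega
  · rw [e3]
    refine Or.inr ⟨rfl, ?_⟩
    dsimp only
    omega
  · rw [e3]
    refine Or.inl ⟨rfl, ?_⟩
    dsimp only
    omega
  · rw [e3]
    refine Or.inr ⟨rfl, ?_⟩
    dsimp only
    omega

/-- A boundary unit edge is some `cycE k` or it is on the ray. -/
theorem bdR_cases (hw : 1 ≤ w) (hR : w < R) {a : UE} (ha : BdR (c, h) R a) :
    (∃ k, 0 ≤ k ∧ k < len w R ∧ a = cycE c h w R k) ∨
      (a.1 = c + R ∧ a.2.2 = true ∧ h - w ≤ a.2.1 ∧ a.2.1 < h + w) := by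
  obtain ⟨x, y, b⟩ := a
  unfold BdR BdE at ha
  dsimp only at ha ⊢
  unfold len
  rcases ha with ⟨rfl, h1, h2, h3 | h3⟩ | ⟨rfl, h1, h2, h3 | h3⟩
  · refine Or.inl ⟨x - c + 6 * R - w, by omega, by omega, ?_⟩
    unfold cycE
    rw [if_neg (by omega), if_neg (by omega), if_neg (by omega), if_pos (by omega)]
    refine Prod.ext ?_ (Prod.ext ?_ rfl) <;> dsimp only <;> omega
  · refine Or.inl ⟨c + 2 * R - w - 1 - x, by omega, by omega, ?_⟩
    unfold cycE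
    rw [if_neg (by omega), if_pos (by omega)]
    refine Prod.ext ?_ (Prod.ext ?_ rfl) <;> dsimp only <;> omega
  · refine Or.inl ⟨h + 4 * R - w - 1 - y, by omega, by omega, ?_⟩
    unfold cycE
    rw [if_neg (by omega), if_neg (by omega), if_pos (by omega)]
    refine Prod.ext ?_ (Prod.ext ?_ rfl) <;> dsimp only <;> omega
  · by_cases h4 : h + w ≤ y
    · refine Or.inl ⟨y - h - w, by omega, by omega, ?_⟩
      unfold cycE
      rw [if_pos (by omega)]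
      refine Prod.ext ?_ (Prod.ext ?_ rfl) <;> dsimp only <;> omega
    · by_cases h5 : y < h - w
      · refine Or.inl ⟨y - h + 8 * R - w, by omega, by omega, ?_⟩
        unfold cycE
        rw [if_neg (by omega), if_neg (by omega), if_neg (by omega), if_neg (by omega)]
        refine Prod.ext ?_ (Prod.ext ?_ rfl) <;> dsimp only <;> omega
      · exact Or.inr ⟨h3, rfl, by omega, by omega⟩

theorem onBd_cases (hw : 1 ≤ w) (hR : w < R) {z : ℤ × ℤ}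
    (hz : OnBd (c - R) (c + R) (h - R) (h + R) z) :
    (∃ k, 0 ≤ k ∧ k ≤ len w R ∧ z = cyc c h w R k) ∨
      (z.1 = c + R ∧ h - w < z.2 ∧ z.2 < h + w) := by
  obtain ⟨x, y⟩ := z
  unfold OnBd at hz
  dsimp only at hz ⊢
  unfold len
  by_cases hA : y = h + R
  · refine Or.inl ⟨c + 2 * R - w - x, by omega, by omega, ?_⟩
    unfold cyc
    split_ifs <;> (refine Prod.ext ?_ ?_ <;> dsimp only <;> omega)
  by_cases hB : y = h - R
  · refine Or.inl ⟨x - c + 6 * R - w, by omega, by omega, ?_⟩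
    unfold cyc
    split_ifs <;> (refine Prod.ext ?_ ?_ <;> dsimp only <;> omega)
  by_cases hC : x = c - R
  · refine Or.inl ⟨h + 4 * R - w - y, by omega, by omega, ?_⟩
    unfold cyc
    split_ifs <;> (refine Prod.ext ?_ ?_ <;> dsimp only <;> omega)
  · by_cases h4 : h + w ≤ y
    · refine Or.inl ⟨y - h - w, by omega, by omega, ?_⟩
      unfold cyc
      split_ifs <;> (refine Prod.ext ?_ ?_ <;> dsimp only <;> omega)
    · by_cases h5 : y ≤ h - w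
      · refine Or.inl ⟨y - h + 8 * R - w, by omega, by omega, ?_⟩
        unfold cyc
        split_ifs <;> (refine Prod.ext ?_ ?_ <;> dsimp only <;> omega)
      · exact Or.inr ⟨by omega, by omega, by omega⟩

theorem cycY1_mem_Slit {cB RB : ℤ} {f : ℤ × ℤ} : f ∈ Slit h w cB RB c R ↔
    (cB - RB ≤ f.1 ∧ f.1 < cB + RB ∧ h - RB ≤ f.2 ∧ f.2 < h + RB) ∧
      ¬ (c - R ≤ f.1 ∧ f.1 < c + R ∧ h - R ≤ f.2 ∧ f.2 < h + R) ∧
      ¬ (c + R ≤ f.1 ∧ h - w ≤ f.2 ∧ f.2 < h + w) := by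
  unfold Slit Ray
  rw [Set.mem_ofPred_eq, Set.mem_ofPred_eq, mem_BR, mem_BR]

/-- The unit edges of the outer boundary are boundary unit edges of the slit region. -/
theorem bdU_outer {cB RB : ℤ} (hn : Nest h w cB RB c R) (h0 : 0 ≤ k) (h1 : k < len w RB) :
    BdU (Slit h w cB RB c R) (cycE cB h w RB k) := by
  obtain ⟨n1, n2, n3, n4, n5⟩ := hn
  unfold BdU
  rcases cycY1_cases (c := cB) (h := h) (w := w) (R := RB) n1 (by omega) h0 h1 with
    ⟨_, _, _, e3⟩ | ⟨_, _, _, _, e3⟩ | ⟨_, _, _, _, e3⟩ | ⟨_, _, _, _, e3⟩ | ⟨_, _, _, _, e3⟩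
  · rw [e3]
    refine ⟨⟨(cB + RB - 1, h + w + k), ?_, ?_⟩, ⟨(cB + RB, h + w + k), ?_, ?_⟩⟩
    · rw [cycY1_mem_Slit]
      dsimp only
      omega
    · refine Or.inr (Or.inr (Or.inr ?_))
      simp only [ri, sub_add_cancel]
    · rw [cycY1_mem_Slit]
      dsimp only
      omega
    · exact Or.inr (Or.inl rfl)
  · rw [e3]
    refine ⟨⟨(cB + 2 * RB - w - k - 1, h + RB - 1), ?_, ?_⟩,
      ⟨(cB + 2 * RB - w - k - 1, h + RB), ?_, ?_⟩⟩
    · rw [cycY1_mem_Slit]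
      dsimp only
      omega
    · refine Or.inr (Or.inr (Or.inl ?_))
      simp only [to', sub_add_cancel]
    · rw [cycY1_mem_Slit]
      dsimp only
      omega
    · exact Or.inl rfl
  · rw [e3]
    refine ⟨⟨(cB - RB, h + 4 * RB - w - k - 1), ?_, ?_⟩,
      ⟨(cB - RB - 1, h + 4 * RB - w - k - 1), ?_, ?_⟩⟩
    · rw [cycY1_mem_Slit]
      dsimp only
      omega
    · exact Or.inr (Or.inl rfl)
    · rw [cycY1_mem_Slit]
      dsimp only
      omega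
    · refine Or.inr (Or.inr (Or.inr ?_))
      simp only [ri, sub_add_cancel]
  · rw [e3]
    refine ⟨⟨(cB - 6 * RB + w + k, h - RB), ?_, ?_⟩,
      ⟨(cB - 6 * RB + w + k, h - RB - 1), ?_, ?_⟩⟩
    · rw [cycY1_mem_Slit]
      dsimp only
      omega
    · exact Or.inl rfl
    · rw [cycY1_mem_Slit]
      dsimp only
      omega
    · refine Or.inr (Or.inr (Or.inl ?_))
      simp only [to', sub_add_cancel]
  · rw [e3]
    refine ⟨⟨(cB + RB - 1, h - 8 * RB + w + k), ?_, ?_⟩,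
      ⟨(cB + RB, h - 8 * RB + w + k), ?_, ?_⟩⟩
    · rw [cycY1_mem_Slit]
      dsimp only
      omega
    · refine Or.inr (Or.inr (Or.inr ?_))
      simp only [ri, sub_add_cancel]
    · rw [cycY1_mem_Slit]
      dsimp only
      omega
    · exact Or.inr (Or.inl rfl)

/-- The unit edges of the inner boundary are boundary unit edges of the slit region. -/
theorem bdU_inner {cB RB : ℤ} (hn : Nest h w cB RB c R) (h0 : 0 ≤ k) (h1 : k < len w R) :
    BdU (Slit h w cB RB c R) (cycE c h w R k) := by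
  obtain ⟨n1, n2, n3, n4, n5⟩ := hn
  unfold BdU
  rcases cycY1_cases (c := c) (h := h) (w := w) (R := R) n1 n2 h0 h1 with
    ⟨_, _, _, e3⟩ | ⟨_, _, _, _, e3⟩ | ⟨_, _, _, _, e3⟩ | ⟨_, _, _, _, e3⟩ | ⟨_, _, _, _, e3⟩
  · rw [e3]
    refine ⟨⟨(c + R, h + w + k), ?_, ?_⟩, ⟨(c + R - 1, h + w + k), ?_, ?_⟩⟩
    · rw [cycY1_mem_Slit]
      dsimp only
      omega
    · exact Or.inr (Or.inl rfl)
    · rw [cycY1_mem_Slit]
      dsimp only
      omega
    · refine Or.inr (Or.inr (Or.inr ?_))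
      simp only [ri, sub_add_cancel]
  · rw [e3]
    refine ⟨⟨(c + 2 * R - w - k - 1, h + R), ?_, ?_⟩,
      ⟨(c + 2 * R - w - k - 1, h + R - 1), ?_, ?_⟩⟩
    · rw [cycY1_mem_Slit]
      dsimp only
      omega
    · exact Or.inl rfl
    · rw [cycY1_mem_Slit]
      dsimp only
      omega
    · refine Or.inr (Or.inr (Or.inl ?_))
      simp only [to', sub_add_cancel]
  · rw [e3]
    refine ⟨⟨(c - R - 1, h + 4 * R - w - k - 1), ?_, ?_⟩,
      ⟨(c - R, h + 4 * R - w - k - 1), ?_, ?_⟩⟩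
    · rw [cycY1_mem_Slit]
      dsimp only
      omega
    · refine Or.inr (Or.inr (Or.inr ?_))
      simp only [ri, sub_add_cancel]
    · rw [cycY1_mem_Slit]
      dsimp only
      omega
    · exact Or.inr (Or.inl rfl)
  · rw [e3]
    refine ⟨⟨(c - 6 * R + w + k, h - R - 1), ?_, ?_⟩,
      ⟨(c - 6 * R + w + k, h - R), ?_, ?_⟩⟩
    · rw [cycY1_mem_Slit]
      dsimp only
      omega
    · refine Or.inr (Or.inr (Or.inl ?_))
      simp only [to', sub_add_cancel]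
    · rw [cycY1_mem_Slit]
      dsimp only
      omega
    · exact Or.inl rfl
  · rw [e3]
    refine ⟨⟨(c + R, h - 8 * R + w + k), ?_, ?_⟩,
      ⟨(c + R - 1, h - 8 * R + w + k), ?_, ?_⟩⟩
    · rw [cycY1_mem_Slit]
      dsimp only
      omega
    · exact Or.inr (Or.inl rfl)
    · rw [cycY1_mem_Slit]
      dsimp only
      omega
    · refine Or.inr (Or.inr (Or.inr ?_))
      simp only [ri, sub_add_cancel]

/-- The inner and the outer boundary are disjoint. -/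
theorem cycE_ne {cB RB k' : ℤ} (hn : Nest h w cB RB c R) (h0 : 0 ≤ k) (h1 : k < len w R)
    (h0' : 0 ≤ k') (h1' : k' < len w RB) : cycE c h w R k ≠ cycE cB h w RB k' := by
  obtain ⟨n1, n2, n3, n4, n5⟩ := hn
  intro he
  have e1 := bdR_cycE (c := c) (h := h) n1 n2 h0 h1
  have e2 := bdR_cycE (c := cB) (h := h) (w := w) (R := RB) n1 (by omega) h0' h1'
  rw [← he] at e2
  unfold BdR BdE at e1 e2
  generalize cycE c h w R k = a at e1 e2
  obtain ⟨x, y, b⟩ := a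
  dsimp only at e1 e2
  rcases e1 with ⟨rfl, h2⟩ | ⟨rfl, h2⟩
  · rcases e2 with ⟨_, h3⟩ | ⟨h3, _⟩
    · omega
    · exact absurd h3 (by decide)
  · rcases e2 with ⟨h3, _⟩ | ⟨_, h3⟩
    · exact absurd h3 (by decide)
    · omega

/-- The values of the potential along the boundary. -/
theorem pot_cyc {F : Set (ℤ × ℤ)} {M : Set UE} {Φ : ℤ × ℤ → ZMod 2} (hP : IsPot F M Φ)
    (hw : 1 ≤ w) (hR : w < R) (hs : ∀ k, 0 ≤ k → k < len w R → ∃ f ∈ F, IsSide f (cycE c h w R k))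
    {τ : ℤ} (hτ : ∀ k, 0 ≤ k → k < len w R → (cycE c h w R k ∈ M ↔ k = τ)) (h0 : 0 ≤ k)
    (h1 : k ≤ len w R) (hτ0 : 0 ≤ τ) :
    Φ (cyc c h w R k) = Φ (cyc c h w R 0) + if k ≤ τ then 0 else 1 := by
  revert h1
  induction k, h0 using Int.leInduction with
  | base =>
    intro _
    rw [if_pos hτ0, add_zero]
  | succ k hk ih =>
    intro h1
    have ih' := ih (by omega)
    obtain ⟨f, hf, hfs⟩ := hs k hk (by omega)
    have hj := hP.joins hf hfs (cyc_joins (c := c) (h := h) hw hR hk (by omega))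
    rw [hτ k hk (by omega)] at hj
    by_cases hkτ : k = τ
    · have h3 := hj.1 hkτ
      rw [ih', if_pos (by omega), add_zero] at h3
      rw [if_neg (by omega)]
      exact (z2_ne _ _).1 h3.symm
    · have h3 : Φ (cyc c h w R k) = Φ (cyc c h w R (k + 1)) := by
        by_contra h4
        exact hkτ (hj.2 h4)
      rw [← h3, ih']
      by_cases h5 : k ≤ τ
      · rw [if_pos h5, if_pos (by omega)]
      · rw [if_neg h5, if_neg (by omega)]

namespace DuoAux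

variable {h w cB RB c R : ℤ} {ω : Cfg}

theorem cyc_zero (hR : w < R) : cyc c h w R 0 = (c + R, h + w) := by
  unfold cyc
  rw [if_pos (by omega)]
  simp

theorem cyc_len (hw : 1 ≤ w) (hR : w < R) : cyc c h w R (len w R) = (c + R, h - w) := by
  unfold cyc len
  rw [if_neg (by omega), if_neg (by omega), if_neg (by omega), if_neg (by omega)]
  simp only [Prod.mk.injEq, true_and]
  omega

theorem len_pos (hR : w < R) (hw : 1 ≤ w) : 0 < len w R := by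
  unfold len; omega

theorem mem_Slit {f : ℤ × ℤ} : f ∈ Slit h w cB RB c R ↔
    (cB - RB ≤ f.1 ∧ f.1 < cB + RB ∧ h - RB ≤ f.2 ∧ f.2 < h + RB) ∧
    ¬ (c - R ≤ f.1 ∧ f.1 < c + R ∧ h - R ≤ f.2 ∧ f.2 < h + R) ∧
    ¬ (c + R ≤ f.1 ∧ h - w ≤ f.2 ∧ f.2 < h + w) := by
  unfold Slit Ray
  rw [Set.mem_ofPred_eq, mem_BR, mem_BR, Set.mem_ofPred_eq]

/-- A horizontal unit edge at height `h + w` or `h - w` is not on the outer or inner boundary. -/
theorem cycE_ne_hor (hw : 1 ≤ w) (hR : w < R) {k x y : ℤ} (hy : y = h + w ∨ y = h - w) :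
    cycE c h w R k ≠ (x, y, false) := by
  unfold cycE
  intro hh
  split_ifs at hh <;> simp only [Prod.mk.injEq, Bool.true_eq_false, and_false] at hh <;> omega

theorem bdU_up (hn : Nest h w cB RB c R) {x : ℤ} (h1 : c + R ≤ x) (h2 : x < cB + RB) :
    BdU (Slit h w cB RB c R) (x, h + w, false) := by
  obtain ⟨a1, a2, a3, a4, a5⟩ := hn
  refine ⟨⟨(x, h + w), ?_, Or.inl rfl⟩, (x, h + w - 1), ?_, Or.inr (Or.inr (Or.inl ?_))⟩
  · rw [mem_Slit]; simp only; omega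
  · rw [mem_Slit]; simp only; omega
  · unfold to'; simp

theorem bdU_dn (hn : Nest h w cB RB c R) {x : ℤ} (h1 : c + R ≤ x) (h2 : x < cB + RB) :
    BdU (Slit h w cB RB c R) (x, h - w, false) := by
  obtain ⟨a1, a2, a3, a4, a5⟩ := hn
  refine ⟨⟨(x, h - w - 1), ?_, Or.inr (Or.inr (Or.inl ?_))⟩, (x, h - w), ?_, Or.inl rfl⟩
  · rw [mem_Slit]; simp only; omega
  · unfold to'; simp
  · rw [mem_Slit]; simp only; omega

/-- One strand: the potential along the outer boundary, the inner boundary and the ray. -/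
theorem one_strand (hn : Nest h w cB RB c R) {k : ℤ} (hk0 : 0 ≤ k) (hk1 : k < len w RB)
    (hω : ∃ τ, 0 ≤ τ ∧ τ < len w R ∧
      cycE c h w R τ ∈ MM ω (Slit h w cB RB c R) (cycE cB h w RB k)) :
    ∃ (Φ : ℤ × ℤ → ZMod 2) (τ : ℤ), IsPot (Slit h w cB RB c R)
        (MM ω (Slit h w cB RB c R) (cycE cB h w RB k)) Φ ∧ 0 ≤ τ ∧ τ < len w R ∧
      (∀ t, 0 ≤ t → t < len w R →
        (cycE c h w R t ∈ MM ω (Slit h w cB RB c R) (cycE cB h w RB k) ↔ t = τ)) ∧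
      (∀ t, 0 ≤ t → t < len w RB →
        (cycE cB h w RB t ∈ MM ω (Slit h w cB RB c R) (cycE cB h w RB k) ↔ t = k)) ∧
      (∀ t, 0 ≤ t → t ≤ len w RB → Φ (cyc cB h w RB t) = if t ≤ k then 0 else 1) ∧
      (∀ t, 0 ≤ t → t ≤ len w R → Φ (cyc c h w R t) = if t ≤ τ then 0 else 1) ∧
      (∀ x, c + R ≤ x → x ≤ cB + RB → Φ (x, h + w) = 0) ∧
      (∀ x, c + R ≤ x → x ≤ cB + RB → Φ (x, h - w) = 1) := by
  obtain ⟨τ, hτ0, hτ1, hτ⟩ := hω
  have hw := hn.w1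
  have hR := hn.wR
  have hRB : w < RB := by have := hn.rad; omega
  set F := Slit h w cB RB c R with hF
  set e := cycE cB h w RB k with he
  obtain ⟨Φ₀, hΦ₀⟩ := hasPot_Slit hn (MM ω F e) fun f hf => evenAt_MM hf
  have hbe : BdU F e := bdU_outer hn hk0 hk1
  have hin : ∀ t, 0 ≤ t → t < len w R → (cycE c h w R t ∈ MM ω F e ↔ t = τ) := by
    intro t h0 h1
    constructor
    · intro hm
      have := bdU_unique hbe hm hτ (bdU_inner hn h0 h1) (bdU_inner hn hτ0 hτ1)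
        (cycE_ne hn h0 h1 hk0 hk1) (cycE_ne hn hτ0 hτ1 hk0 hk1)
      exact cycE_inj hw hR h0 h1 hτ0 hτ1 this
    · rintro rfl; exact hτ
  have hout : ∀ t, 0 ≤ t → t < len w RB → (cycE cB h w RB t ∈ MM ω F e ↔ t = k) := by
    intro t h0 h1
    constructor
    · intro hm
      by_contra hne
      have h3 : cycE cB h w RB t ≠ e := fun hh => hne (cycE_inj hw hRB h0 h1 hk0 hk1 hh)
      have := bdU_unique hbe hm hτ (bdU_outer hn h0 h1) (bdU_inner hn hτ0 hτ1) h3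
        (cycE_ne hn hτ0 hτ1 hk0 hk1)
      exact cycE_ne hn hτ0 hτ1 h0 h1 this.symm
    · rintro rfl; exact mem_MM_self
  have hray : ∀ x y : ℤ, (y = h + w ∨ y = h - w) → BdU F (x, y, false) →
      ((x, y, false) : UE) ∉ MM ω F e := by
    intro x y hy hb hm
    have := bdU_unique hbe hm hτ hb (bdU_inner hn hτ0 hτ1)
      (cycE_ne_hor (c := cB) (k := k) hw hRB hy).symm (cycE_ne hn hτ0 hτ1 hk0 hk1)
    exact cycE_ne_hor (c := c) (k := τ) hw hR hy this.symm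
  set Φ : ℤ × ℤ → ZMod 2 := fun z => Φ₀ z + Φ₀ (cyc cB h w RB 0) with hΦdef
  have hΦ : IsPot F (MM ω F e) Φ := hΦ₀.add_const _
  have hb0 : Φ (cyc cB h w RB 0) = 0 := by rw [hΦdef]; exact z2_add_self _
  have hO : ∀ t, 0 ≤ t → t ≤ len w RB → Φ (cyc cB h w RB t) = if t ≤ k then 0 else 1 := by
    intro t h0 h1
    rw [pot_cyc hΦ hw hRB (fun k h0 h1 => (bdU_outer hn h0 h1).1) hout h0 h1 hk0, hb0, zero_add]
  -- the upper side of the ray
  have hup : ∀ n : ℕ, c + R ≤ cB + RB - n → Φ (cB + RB - n, h + w) = 0 := by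
    intro n
    induction n with
    | zero =>
      intro _
      rw [Nat.cast_zero, sub_zero, ← cyc_zero (c := cB) (h := h) hRB]
      exact hb0
    | succ n ih =>
      intro hn1
      push_cast at hn1 ⊢
      have h3 := ih (by omega)
      have hb := bdU_up hn (x := cB + RB - (n + 1)) (by omega) (by omega)
      have h4 := hray _ _ (Or.inl rfl) hb
      obtain ⟨f, hf, hs⟩ := hb.1
      have h5 := hΦ.joins (p := (cB + RB - (n + 1), h + w)) (q := (cB + RB - n, h + w)) hf hs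
        (Or.inl ⟨rfl, by simp only [ub]; simp; ring⟩)
      by_contra hne
      exact h4 (h5.2 (by rw [h3]; exact hne))
  have hup' : ∀ x, c + R ≤ x → x ≤ cB + RB → Φ (x, h + w) = 0 := by
    intro x h1 h2
    have := hup (cB + RB - x).toNat (by omega)
    rwa [show (cB + RB - (((cB + RB - x).toNat : ℕ) : ℤ)) = x by omega] at this
  have hI0 : Φ (cyc c h w R 0) = 0 := by
    rw [cyc_zero hR]
    exact hup' _ le_rfl (by have := hn.right; omega)
  have hI : ∀ t, 0 ≤ t → t ≤ len w R → Φ (cyc c h w R t) = if t ≤ τ then 0 else 1 := by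
    intro t h0 h1
    rw [pot_cyc hΦ hw hR (fun k h0 h1 => (bdU_inner hn h0 h1).1) hin h0 h1 hτ0, hI0, zero_add]
  have hdn : ∀ n : ℕ, c + R + n ≤ cB + RB → Φ (c + R + n, h - w) = 1 := by
    intro n
    induction n with
    | zero =>
      intro _
      have h1 := hI (len w R) (by have := len_pos hR hw; omega) le_rfl
      rw [cyc_len hw hR, if_neg (by omega)] at h1
      simpa using h1
    | succ n ih =>
      intro hn1
      push_cast at hn1 ⊢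
      have h3 := ih (by omega)
      have hb := bdU_dn hn (x := c + R + n) (by omega) (by omega)
      have h4 := hray _ _ (Or.inr rfl) hb
      obtain ⟨f, hf, hs⟩ := hb.1
      have h5 := hΦ.joins (p := (c + R + n, h - w)) (q := (c + R + (n + 1), h - w)) hf hs
        (Or.inl ⟨rfl, by simp only [ub]; simp; ring⟩)
      by_contra hne
      exact h4 (h5.2 (by rw [h3]; exact fun hh => hne hh.symm))
  have hdn' : ∀ x, c + R ≤ x → x ≤ cB + RB → Φ (x, h - w) = 1 := by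
    intro x h1 h2
    have := hdn (x - (c + R)).toNat (by omega)
    rwa [show (c + R + (((x - (c + R)).toNat : ℕ) : ℤ)) = x by omega] at this
  exact ⟨Φ, τ, hΦ, hτ0, hτ1, hin, hout, hO, hI, hup', hdn'⟩

end DuoAux

open DuoAux in
theorem duo_of_Gev {h w c R : ℤ} {col cB RB : ℤ} (hn : Nest h w cB RB c R) {κ : ℤ × ℤ}
    (hκ : κ ∈ KP col cB h w RB) {ω : Cfg} (hω : ω ∈ Gev h w cB RB c R κ) :
    ∃ (Φ Ψ : ℤ × ℤ → ZMod 2) (τ τ' : ℤ),
      Duo ω (Slit h w cB RB c R) (cycE cB h w RB κ.1) (cycE cB h w RB κ.2)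
        (cyc cB h w RB (κ.1 + 1)) (cyc cB h w RB κ.1) (cyc cB h w RB κ.2)
        (cyc cB h w RB (κ.2 + 1)) Φ Ψ ∧
      0 ≤ τ ∧ τ < τ' ∧ τ' < len w R ∧
      (∀ t, 0 ≤ t → t < len w R →
        (cycE c h w R t ∈ MM ω (Slit h w cB RB c R) (cycE cB h w RB κ.1) ↔ t = τ)) ∧
      (∀ t, 0 ≤ t → t < len w R →
        (cycE c h w R t ∈ MM ω (Slit h w cB RB c R) (cycE cB h w RB κ.2) ↔ t = τ')) ∧
      (∀ t, 0 ≤ t → t ≤ len w R → Φ (cyc c h w R t) = if t ≤ τ then 0 else 1) ∧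
      (∀ t, 0 ≤ t → t ≤ len w R → Ψ (cyc c h w R t) = if t ≤ τ' then 0 else 1) ∧
      (∀ x, c + R ≤ x → x ≤ cB + RB → Φ (x, h + w) = 0 ∧ Ψ (x, h + w) = 0) ∧
      (∀ x, c + R ≤ x → x ≤ cB + RB → Φ (x, h - w) = 1 ∧ Ψ (x, h - w) = 1) := by
  have hw := hn.w1
  have hR := hn.wR
  have hRB : w < RB := by have := hn.rad; omega
  unfold KP at hκ
  rw [mem_filter, mem_product, mem_Ico, mem_Ico] at hκ
  obtain ⟨⟨⟨a1, a2⟩, a3, a4⟩, a5, a6, a7⟩ := hκ
  obtain ⟨Φ, τ, hΦ, t0, t1, hin, hout, hO, hI, hu, hd⟩ := one_strand hn a1 a2 hω.1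
  obtain ⟨Ψ, τ', hΨ, t0', t1', hin', hout', hO', hI', hu', hd'⟩ := one_strand hn a3 a4 hω.2
  have hje := cyc_joins (c := cB) (h := h) hw hRB a1 a2
  have hje' := cyc_joins (c := cB) (h := h) hw hRB a3 a4
  have hjt' := cyc_joins (c := c) (h := h) hw hR t0' t1'
  have hmt' := (hin' τ' t0' t1').2 rfl
  have hmt := (hin τ t0 t1).2 rfl
  -- the order of the tips
  have h1 : τ ≤ τ' := by
    obtain ⟨p, q, hj, hp, hc⟩ := MM_conn hje' hmt'
    have h2 := hΦ.conn (hc.mono SS_sub)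
    rw [hO κ.2 a3 (by omega), if_neg (by omega)] at h2
    by_contra hlt
    have h4 : Φ (cyc c h w R τ') = 0 := by rw [hI τ' t0' (by omega), if_pos (by omega)]
    have h5 : Φ (cyc c h w R (τ' + 1)) = 0 := by
      rw [hI (τ' + 1) (by omega) (by omega), if_pos (by omega)]
    have h6 : p = cyc c h w R τ' ∨ p = cyc c h w R (τ' + 1) := by
      rcases hj with ⟨hj1, hj2⟩ | ⟨hj1, hj2⟩ <;> rcases hjt' with ⟨hk1, hk2⟩ | ⟨hk1, hk2⟩
      · left; rw [hj1, hk1]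
      · right; rw [hj1, hk2]
      · right; rw [hj1, hk2]
      · left; rw [hj1, hk1]
    rcases h6 with rfl | rfl
    · rw [h4] at h2; exact absurd h2 (by decide)
    · rw [h5] at h2; exact absurd h2 (by decide)
  have h2 : τ ≠ τ' := by
    rintro rfl
    have h3 : cycE cB h w RB κ.2 ∈ MM ω (Slit h w cB RB c R) (cycE cB h w RB κ.1) :=
      MM_trans hmt (MM_symm hmt')
    have h4 := (hout κ.2 a3 a4).1 h3
    omega
  have hp1 := par_cyc (c := cB) (h := h) hw hRB a1 a2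
  refine ⟨Φ, Ψ, τ, τ', ⟨hΦ, hΨ, (bdU_outer hn a1 a2).1, (bdU_outer hn a3 a4).1, hje.symm, hje', ?_,
    ?_, ?_, ?_, ?_, ?_, ?_, ?_, ?_⟩, t0, by omega, t1', hin, hin', hI, hI',
    fun x h3 h4 => ⟨hu x h3 h4, hu' x h3 h4⟩, fun x h3 h4 => ⟨hd x h3 h4, hd' x h3 h4⟩⟩
  · have c1 := par_cases (cyc cB h w RB κ.1)
    have c2 := par_cases (cyc cB h w RB (κ.1 + 1))
    have c3 := par_cases (cyc cB h w RB κ.2)
    omega
  · rw [hO _ (by omega) (by omega), if_neg (by omega)]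
  · rw [hO _ (by omega) (by omega), if_pos (by omega)]
  · rw [hO _ (by omega) (by omega), if_neg (by omega)]
  · rw [hO _ (by omega) (by omega), if_neg (by omega)]
  · rw [hO' _ (by omega) (by omega), if_pos (by omega)]
  · rw [hO' _ (by omega) (by omega), if_pos (by omega)]
  · rw [hO' _ (by omega) (by omega), if_pos (by omega)]
  · rw [hO' _ (by omega) (by omega), if_neg (by omega)]

end Pool.Agent.Perc6

end Partperc6Cyc

section PartoccPtDefs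

/-!
# One point and two point estimates for the occupied cells of a window: definitions
-/

set_option autoImplicit false

namespace Pool.Agent.Occ

open Finset Pool.Agent.Perc Pool.Agent.PercL Pool.Agent.Perc6

/-- The faces of the window `[x, x + 4 M q η] × [y, y + 4 M q η]`. -/
noncomputable def Wd (x y M q η : ℤ) : Finset (ℤ × ℤ) :=
  RF x (x + 4 * (M * q * η)) y (y + 4 * (M * q * η))

/-- The walls `P` and `D` are admissible for the window. -/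
structure Walls (col x y M q η : ℤ) (δ : ℝ) (W SP SD : Finset (ℤ × ℤ)) (P D : Set Cfg) : Prop where
  sub : Wd x y M q η ⊆ W
  subP : SP ⊆ W
  subD : SD ⊆ W
  disj : Disjoint SP SD
  depP : DepOn SP P
  depD : DepOn SD D
  incP : IncD (parD col) P
  incD : IncD (parD (col + 1)) D
  upP : ∀ f ∈ SP, f ∈ Wd x y M q η → y + 3 * (M * q * η) ≤ f.2
  lowD : ∀ f ∈ SD, f ∈ Wd x y M q η → 2 * f.2 < 2 * y + M * q * η
  prP : δ ≤ pr W P
  prD : δ ≤ pr W D

/-- The cells in the middle of the window. -/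
def MidZ (M : ℤ) (z : ℤ × ℤ) : Prop := 3 * M ≤ 4 * z.1 ∧ 4 * z.1 < 5 * M ∧ 3 * M ≤ 4 * z.2 ∧ 4 * z.2 < 5 * M

/-- (O1) One point estimate from below. -/
def OnePt (col : ℤ) : Prop := ∀ δ : ℝ, 0 < δ → ∃ (c₀ : ℝ) (M₀ : ℕ), 0 < c₀ ∧ 1 ≤ M₀ ∧
  ∀ M : ℕ, M₀ ≤ M → ∃ q n₀ : ℕ, 1 ≤ q ∧ ∀ (η x y : ℤ), (n₀ : ℤ) ≤ η → 1 ≤ η →
  ∀ (W SP SD : Finset (ℤ × ℤ)) (P D : Set Cfg), Walls col x y M q η δ W SP SD P D →
  ∀ z : ℤ × ℤ, MidZ M z →
    c₀ * (M : ℝ) ^ (-(2 / 3) : ℝ) ≤ pr W (P ∩ D ∩ {ω | OccAt ω col x y M q η z})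

/-- (O2) Two point estimate from above. -/
def TwoPt (col : ℤ) : Prop := ∃ (C : ℝ) (M₀ : ℕ), 0 < C ∧ ∀ M q : ℕ, M₀ ≤ M → 1 ≤ M → 1 ≤ q →
  ∃ n₀ : ℕ, ∀ (η x y : ℤ), (n₀ : ℤ) ≤ η → 1 ≤ η → ∀ z z' : ℤ × ℤ, MidZ M z → MidZ M z' →
    pr (Wd x y M q η) {ω | OccAt ω col x y M q η z ∧ OccAt ω col x y M q η z'} ≤
      C * (M : ℝ) ^ (-(2 / 3) : ℝ) * dsup z z' ^ (-(2 / 3) : ℝ)

end Pool.Agent.Occ

end PartoccPtDefs
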