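import Pool.Agent.Lib.MP_6bd702_zc.Pre
import Pool.Agent.Lib.MP_6bd702_zc.Y016
import Pool.Agent.Lib.MP_6bd702_z.Z068
import Pool.Agent.Lib.MP_6bd702_z.Z079
import Pool.Agent.Lib.MP_6bd702_zc.Y005
import Pool.Agent.Lib.MP_6bd702_z.Z080

section Partperc3TwA

/-!
# The twisted cylinder: soundness of the two states (task TwA)

Models: perc/CylArmA.lean (rows of the even cylinder, `SoundT`), perq/TwoA.lean. For the odd upper
half the marked gap of `SoundT` is replaced by the through line `t`: the sites to the right of `t`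
are shifted by one period to the left.
-/

set_option autoImplicit false

namespace Pool.Agent.Perc

open Finset

variable {m M : ℕ}

namespace TwA

open CylArmA

variable {L N : ℕ} {R : ℤ × ℤ → ℤ × ℤ → Prop} {p : ℕ → ℕ}

/-- Soundness of an odd state: the sites to the right of the through line are shifted. -/
def SoundO (L N : ℕ) (R : ℤ × ℤ → ℤ × ℤ → Prop) (p : ℕ → ℕ) (V : ℕ → ℤ × ℤ) : Prop :=
  ∀ x < N, p x ≠ x → R (sh L (thr p < x) (V x)) (sh L (thr p < p x) (V (p x + 1)))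

theorem soundO_congr (hR : Good L R) {m : ℕ} {V V' : ℕ → ℤ × ℤ}
    (h : SoundO L N R p V) (hV : ∀ k, k ≠ m → V' k = V k) (hm : R (V m) (V' m)) :
    SoundO L N R p V' := by
  have key : ∀ (k : ℕ) (b : Prop) [Decidable b], R (sh L b (V k)) (sh L b (V' k)) := by
    intro k b _
    by_cases hk : k = m
    · subst hk; exact hR.sh Iff.rfl hm
    · rw [hV k hk]; exact hR.refl _
  intro x hx hp
  exact hR.trans (hR.symm (key x (thr p < x))) (hR.trans (h x hx hp) (key _ (thr p < p x)))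

/-- The action of a face. -/
theorem soundO_eO (hR : Good L R) (hs : NCO N p) {i : ℕ} (hi : i + 1 < N)
    {V V' : ℕ → ℤ × ℤ} (h : SoundO L N R p V)
    (hV : ∀ k, k ≠ i + 1 → V' k = V k) (hb : R (V i) (V (i + 2))) :
    SoundO L N R (eO i p) V' := by
  have hs' := hs.eO hi
  have ht' := thr_eO hs hi
  have hf := hs.thr_fix
  have hf' := hs'.thr_fix
  intro x hx hpx
  have n1 : thr (eO i p) ≠ i := by
    intro e; rw [e, OStA.eO_left] at hf'; omega
  have n2 : thr (eO i p) ≠ i + 1 := by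
    intro e; rw [e, OStA.eO_right] at hf'; omega
  by_cases hx1 : x = i
  · subst hx1
    rw [OStA.eO_left, hV x (by omega), hV (x + 1 + 1) (by omega)]
    exact hR.sh (by omega) hb
  by_cases hx2 : x = i + 1
  · subst hx2
    rw [OStA.eO_right]
    exact hR.sh (by omega) (hR.refl _)
  by_cases hx3 : p x = i
  · have hxi : p i = x := hs.swap.1 hx3
    have t1 : thr p ≠ i := by intro e; rw [e] at hf; omega
    by_cases hy : p (i + 1) = i + 1
    · exfalso
      apply hpx
      rw [OStA.eO_a p hx1 hx2 hx3, if_pos hy]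
    have t2 : thr p ≠ i + 1 := by intro e; rw [e] at hf; exact hy hf
    have hyi : p (i + 1) ≠ i := by
      intro h1
      have := hs.inv (i + 1)
      rw [h1, hxi] at this
      exact hx2 this
    rw [if_neg t1, if_neg t2] at ht'
    rw [ht', OStA.eO_a p hx1 hx2 hx3, if_neg hy, hV x hx2, hV (p (i + 1) + 1) (by omega)]
    have h1 := h x hx (by omega)
    have h2 := h (i + 1) hi hy
    rw [hx3] at h1
    refine hR.trans h1 (hR.trans ?_ h2)
    exact hR.sh (by omega) (hR.refl _)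
  by_cases hx4 : p x = i + 1
  · have hxi : p (i + 1) = x := hs.swap.1 hx4
    have t2 : thr p ≠ i + 1 := by intro e; rw [e] at hf; omega
    by_cases hy : p i = i
    · exfalso
      apply hpx
      rw [OStA.eO_b p hx1 hx2 hx4, if_pos hy]
    have t1 : thr p ≠ i := by intro e; rw [e] at hf; exact hy hf
    rw [if_neg t1, if_neg t2] at ht'
    rw [ht', OStA.eO_b p hx1 hx2 hx4, if_neg hy, hV x hx2, hV (p i + 1) (by omega)]
    have h1 := h x hx (by omega)
    have h2 := h i (by omega) hy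
    rw [hx4] at h1
    refine hR.trans h1 (hR.trans ?_ h2)
    exact hR.sh (by omega) (hR.symm hb)
  · have e := OStA.eO_other p hx1 hx2 hx3 hx4
    rw [e] at hpx
    rw [e, hV x hx2, hV (p x + 1) (by omega)]
    have h1 := h x hx hpx
    rw [ht']
    split_ifs with c1 c2
    · have hb1 := hs.btw (s := x) (t := i + 1)
      have hb2 := hs.btw (s := x) (t := p (i + 1))
      rw [hs.inv] at hb2
      unfold PatA.Bt at hb1 hb2
      have q1 : p (i + 1) ≠ x := fun e => hx4 (hs.swap.1 e)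
      have q2 : p (i + 1) ≠ p x := fun e => by
        have := congrArg p e; rw [hs.inv, hs.inv] at this; exact hx2 this.symm
      by_cases hab : (thr p < x ↔ thr p < p x)
      · exact hR.sh (by omega) (hR.of_sh hab h1)
      · rw [sh_congr (show p (i + 1) < x ↔ thr p < x by omega),
          sh_congr (show p (i + 1) < p x ↔ thr p < p x by omega)]
        exact h1
    · have hb1 := hs.btw (s := x) (t := i)
      have hb2 := hs.btw (s := x) (t := p i)
      rw [hs.inv] at hb2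
      unfold PatA.Bt at hb1 hb2
      have q1 : p i ≠ x := fun e => hx3 (hs.swap.1 e)
      have q2 : p i ≠ p x := fun e => by
        have := congrArg p e; rw [hs.inv, hs.inv] at this; exact hx1 this.symm
      by_cases hab : (thr p < x ↔ thr p < p x)
      · exact hR.sh (by omega) (hR.of_sh hab h1)
      · rw [sh_congr (show p i < x ↔ thr p < x by omega),
          sh_congr (show p i < p x ↔ thr p < p x by omega)]
        exact h1
    · exact h1

theorem soundO_cupO (hR : Good L R) (hs : NCO L p) {y : ℤ}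
    (h : SoundO L L R p (fun k => ((k : ℤ), y + 1))) :
    SoundO L (L + 2) R (cupO L p) (Vf L y 0) := by
  have ht := hs.thr_cupO
  have htl := hs.thr_lt
  intro x hx hpx
  rw [ht]
  by_cases hx0 : x = 0
  · subst hx0
    have e : cupO L p 0 = L + 1 := cupO_zero _ _
    rw [e, sh_false (by omega), sh_true (by omega)]
    have e1 : Vf L y 0 0 = (0, y) := by simp [Vf]
    have e2 : Vf L y 0 (L + 1 + 1) = ((L : ℤ), y) := by simp [Vf]
    rw [e1, e2]
    simp only [sub_self]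
    exact hR.refl _
  by_cases hx1 : x = L + 1
  · subst hx1
    have e : cupO L p (L + 1) = 0 := cupO_last _ _
    rw [e, sh_true (by omega), sh_false (by omega)]
    have e1 : Vf L y 0 (L + 1) = ((L : ℤ), y + 1) := by simp [Vf]
    have e2 : Vf L y 0 (0 + 1) = (0, y + 1) := by simp [Vf]
    rw [e1, e2]
    simp only [sub_self]
    exact hR.refl _
  obtain ⟨x, rfl⟩ : ∃ x', x = x' + 1 := ⟨x - 1, by omega⟩
  have hxL : x < L := by omega
  have e : cupO L p (x + 1) = p x + 1 := cupO_succ hxL p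
  rw [e] at hpx ⊢
  have h1 : R (sh L (thr p < x) ((x : ℤ), y + 1))
    (sh L (thr p < p x) (((p x + 1 : ℕ) : ℤ), y + 1)) := h x hxL (by omega)
  have hlt : p x < L := hs.lt _ hxL
  have e1 : Vf L y 0 (x + 1) = ((x : ℤ), y + 1) := by
    unfold Vf
    rw [if_neg (by omega), if_pos (by omega)]
    ext
    · simp only; omega
    · rfl
  have e2 : Vf L y 0 (p x + 1 + 1) = (((p x + 1 : ℕ) : ℤ), y + 1) := by
    unfold Vf
    rw [if_neg (by omega), if_pos (by omega)]
    ext
    · simp only; omega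
    · rfl
  rw [e1, e2, sh_congr (show thr p + 1 < x + 1 ↔ thr p < x by omega),
    sh_congr (show thr p + 1 < p x + 1 ↔ thr p < p x by omega)]
  exact h1

theorem nco_rowO (hs : NCO N p) (w : ℕ → Bool) {k : ℕ} (hk : k + 1 ≤ N) : NCO N (rowO w k p) := by
  induction k with
  | zero => exact hs
  | succ k ih =>
    have h1 := ih (by omega)
    by_cases hwk : w k = true
    · have e : rowO w (k + 1) p = eO k (rowO w k p) := by simp [rowO, hwk]
      rw [e]
      exact h1.eO (by omega)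
    · have e : rowO w (k + 1) p = rowO w k p := by simp [rowO, hwk]
      rw [e]
      exact h1

theorem soundO_rowO (hR : Good L R) (hs : NCO L p) {y : ℤ}
    (h : SoundO L L R p (fun k => ((k : ℤ), y + 1))) (w : ℕ → Bool) (hw : RowB L y R w) {k : ℕ}
    (hk : k ≤ L) : SoundO L (L + 2) R (rowO w k (cupO L p)) (Vf L y k) := by
  induction k with
  | zero => exact soundO_cupO hR hs h
  | succ k ih =>
    have h2 := ih (by omega)
    have hnc : NCO (L + 2) (rowO w k (cupO L p)) := nco_rowO hs.cupO w (by omega)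
    have hV : ∀ m, m ≠ k + 1 → Vf L y (k + 1) m = Vf L y k m := by
      intro m hm
      unfold Vf
      by_cases h3 : m ≤ k
      · rw [if_pos h3, if_pos (by omega)]
      · rw [if_neg h3, if_neg (by omega)]
    have e1 : Vf L y k k = ((k : ℤ), y) := by simp [Vf]
    have e2 : Vf L y k (k + 2) = ((k : ℤ) + 1, y + 1) := by
      unfold Vf
      rw [if_neg (by omega)]
      rw [if_pos (by omega)]
      ext
      · simp only; push_cast; ring
      · rfl
    have e3 : Vf L y k (k + 1) = ((k : ℤ), y + 1) := by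
      unfold Vf
      rw [if_neg (by omega), if_pos (by omega)]
      ext
      · simp only; push_cast; ring
      · rfl
    have e4 : Vf L y (k + 1) (k + 1) = ((k : ℤ) + 1, y) := by
      unfold Vf
      rw [if_pos (le_refl _)]
      ext
      · simp only; push_cast; ring
      · rfl
    by_cases hwk : w k = true
    · have e : rowO w (k + 1) (cupO L p) = eO k (rowO w k (cupO L p)) := by simp [rowO, hwk]
      rw [e]
      refine soundO_eO hR hnc (by omega) h2 hV ?_
      rw [e1, e2]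
      exact (hw k (by omega)).1 hwk
    · have e : rowO w (k + 1) (cupO L p) = rowO w k (cupO L p) := by simp [rowO, hwk]
      rw [e]
      refine soundO_congr hR h2 hV ?_
      rw [e3, e4]
      exact (hw k (by omega)).2 (by simpa using hwk)

theorem soundO_trowO (hR : Good L R) (hs : NCO L p) {y : ℤ}
    (h : SoundO L L R p (fun k => ((k : ℤ), y + 1))) (w : ℕ → Bool) (hw : RowB L y R w) :
    SoundO L L R (trowO L w p) (fun k => ((k : ℤ), y)) := by
  have h2 := soundO_rowO hR hs h w hw le_rfl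
  have hnc : NCO (L + 2) (rowO w L (cupO L p)) := nco_rowO hs.cupO w (by omega)
  have e1 : Vf L y L L = ((L : ℤ), y) := by simp [Vf]
  have e2 : Vf L y L (L + 2) = ((L : ℤ), y) := by
    unfold Vf
    rw [if_neg (by omega), if_neg (by omega)]
  have h3 := soundO_eO (V' := Vf L y L) hR hnc (show L + 1 < L + 2 by omega) h2 (fun _ _ => rfl)
    (by rw [e1, e2]; exact hR.refl _)
  have hnc' : NCO (L + 2) (eO L (rowO w L (cupO L p))) := hnc.eO (by omega)
  have hp : eO L (rowO w L (cupO L p)) L = L + 1 := OStA.eO_left _ _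
  obtain ⟨p', hp', he'⟩ := hnc'.exists_del (i := L) (by omega) hp
  have hres : trowO L w p = p' := by
    unfold trowO
    rw [← he', resO_insArc hp']
  rw [hres]
  intro x hx hpx
  rw [← he'] at h3
  have esh : ∀ z, z < L → PatB.sh L z = z := by
    intro z hz; unfold PatB.sh; rw [if_pos hz]
  have h4 := h3 x (by omega) (by
    have := PatB.ins_sh L p' x
    rw [esh x hx, esh _ (hp'.lt x hx)] at this
    rw [this]; exact hpx)
  have e3 : insArc L p' x = p' x := by
    have := PatB.ins_sh L p' x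
    rwa [esh x hx, esh _ (hp'.lt x hx)] at this
  have e4 : thr (insArc L p') = thr p' := by
    rw [hp'.thr_insArc le_rfl, esh _ hp'.thr_lt]
  have hlt := hp'.lt x hx
  rw [e3, e4] at h4
  have e5 : Vf L y L x = ((x : ℤ), y) := by
    unfold Vf; rw [if_pos (by omega)]
  have e6 : Vf L y L (p' x + 1) = (((p' x + 1 : ℕ) : ℤ), y) := by
    unfold Vf; rw [if_pos (by omega)]
  rw [e5, e6] at h4
  exact h4

/-- Soundness after the rows `M - 1, …, M - j`. -/
theorem soundO_run {M : ℕ} (hL : L % 2 = 1) (ω : Cfg) {j : ℕ} (hj : j ≤ M) :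
    ∃ p : ℕ → ℕ, NCO L p ∧
      SoundO L L (RelT L M ω (M - j)) p (fun k => ((k : ℤ), (M : ℤ) - j)) ∧
      runO L ω M (flatO L) = runO L ω (M - j) p := by
  induction j with
  | zero =>
    refine ⟨flatO L, nco_flatO hL, ?_, by simp⟩
    intro x hx _
    right
    refine ⟨⟨_, Relation.ReflTransGen.refl, by simp [sh]⟩,
      ⟨_, Relation.ReflTransGen.refl, by simp [sh]⟩⟩
  | succ j ih =>
    obtain ⟨s, h1, h3, h4⟩ := ih (by omega)
    have hy : (M : ℤ) - (j : ℤ) = (M : ℤ) - ((j + 1 : ℕ) : ℤ) + 1 := by push_cast; ring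
    have hMy : ((M - (j + 1) : ℕ) : ℤ) = (M : ℤ) - ((j + 1 : ℕ) : ℤ) := by omega
    have h3' : SoundO L L (RelT L M ω ((M : ℤ) - ((j + 1 : ℕ) : ℤ))) s
        (fun k => ((k : ℤ), (M : ℤ) - ((j + 1 : ℕ) : ℤ) + 1)) := by
      intro x hx hpx
      have := h3 x hx hpx
      rw [hy] at this
      exact relT_mono (by omega) this
    have h6 := soundO_trowO (relT_good L M ω _) h1 h3' _
      (rowB_relT ω (show (M : ℤ) - ((j + 1 : ℕ) : ℤ) < M by omega))
    refine ⟨_, h1.trowO _, h6, ?_⟩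
    rw [h4, show M - j = M - (j + 1) + 1 by omega]
    rw [← hMy]
    rfl

/-- Translation by `j` periods. -/
def tr (m : ℕ) (j : ℤ) (v : ℤ × ℤ) : ℤ × ℤ :=
  (v.1 + j * (if 0 ≤ v.2 then 2 * (m : ℤ) + 1 else 2 * (m : ℤ)), v.2)

theorem emC_add (hm : 0 < m) (l j : ℤ) : emC m (l + j * (2 * m)) = emC m l + j * (2 * m + 1) := by
  unfold emC
  rw [Int.add_mul_ediv_right _ _ (by omega), Int.add_mul_emod_self_right]
  ring

theorem bondW_tr (hm : 0 < m) {ω : Cfg} {u v : ℤ × ℤ} (j : ℤ)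
    (h : BondW (emC m) (perW m ω) (strip M) u v) :
    BondW (emC m) (perW m ω) (strip M) (tr m j u) (tr m j v) := by
  rcases h with ⟨x, y, ⟨hF, hy⟩, h⟩ | ⟨u', v', ⟨x, y, ⟨hF, hy⟩, h⟩, rfl, rfl⟩
  · left
    simp only at hy
    refine ⟨x + j * (2 * m + 1), y, ⟨hF, hy⟩, ?_⟩
    have e : perW m ω (x + j * (2 * m + 1), y) = perW m ω (x, y) := by
      unfold perW
      simp only [if_pos hy, Int.add_mul_emod_self_right]
    rw [e]
    have t1 : tr m j (x, y) = (x + j * (2 * m + 1), y) := by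
      unfold tr; simp only [if_pos hy]
    have t2 : tr m j (x + 1, y + 1) = (x + j * (2 * m + 1) + 1, y + 1) := by
      unfold tr; simp only [if_pos (show (0 : ℤ) ≤ y + 1 by omega)]; ext
      · simp only; ring
      · rfl
    have t3 : tr m j (x, y + 1) = (x + j * (2 * m + 1), y + 1) := by
      unfold tr; simp only [if_pos (show (0 : ℤ) ≤ y + 1 by omega)]
    have t4 : tr m j (x + 1, y) = (x + j * (2 * m + 1) + 1, y) := by
      unfold tr; simp only [if_pos hy]; ext
      · simp only; ring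
      · rfl
    rcases h with ⟨h, ⟨rfl, rfl⟩ | ⟨rfl, rfl⟩⟩ | ⟨h, ⟨rfl, rfl⟩ | ⟨rfl, rfl⟩⟩
    · exact Or.inl ⟨h, Or.inl ⟨t1, t2⟩⟩
    · exact Or.inl ⟨h, Or.inr ⟨t2, t1⟩⟩
    · exact Or.inr ⟨h, Or.inl ⟨t3, t4⟩⟩
    · exact Or.inr ⟨h, Or.inr ⟨t4, t3⟩⟩
  · right
    simp only at hy
    have key : ∀ a b : ℤ, b ≤ 0 →
        tr m j (twV (emC m) (a, b)) = twV (emC m) (a + j * (2 * m), b) := by
      intro a b hb
      unfold tr twV
      by_cases h0 : b = 0
      · subst h0
        simp only [if_true, le_refl]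
        rw [emC_add hm]
      · have h1 : ¬ (0 : ℤ) ≤ b := by omega
        simp only [h0, if_false, if_neg h1]
    have e : perW m ω (x + j * (2 * m), y) = perW m ω (x, y) := by
      unfold perW
      have h1 : ¬ (0 : ℤ) ≤ y := by omega
      simp only [if_neg h1, Int.add_mul_emod_self_right]
    have t1 : (x + 1 + j * (2 * m), y + 1) = (x + j * (2 * m) + 1, y + 1) := by ext <;> simp; ring
    have t2 : (x + 1 + j * (2 * m), y) = (x + j * (2 * m) + 1, y) := by ext <;> simp; ring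
    rcases h with ⟨h, ⟨rfl, rfl⟩ | ⟨rfl, rfl⟩⟩ | ⟨h, ⟨rfl, rfl⟩ | ⟨rfl, rfl⟩⟩
    · exact ⟨(x + j * (2 * m), y), (x + j * (2 * m) + 1, y + 1),
        ⟨x + j * (2 * m), y, ⟨hF, hy⟩, Or.inl ⟨by rw [e]; exact h, Or.inl ⟨rfl, rfl⟩⟩⟩,
        key _ _ (by omega), by rw [← t1]; exact key _ _ (by omega)⟩
    · exact ⟨(x + j * (2 * m) + 1, y + 1), (x + j * (2 * m), y),
        ⟨x + j * (2 * m), y, ⟨hF, hy⟩, Or.inl ⟨by rw [e]; exact h, Or.inr ⟨rfl, rfl⟩⟩⟩,
        by rw [← t1]; exact key _ _ (by omega), key _ _ (by omega)⟩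
    · exact ⟨(x + j * (2 * m), y + 1), (x + j * (2 * m) + 1, y),
        ⟨x + j * (2 * m), y, ⟨hF, hy⟩, Or.inr ⟨by rw [e]; exact h, Or.inl ⟨rfl, rfl⟩⟩⟩,
        key _ _ (by omega), by rw [← t2]; exact key _ _ (by omega)⟩
    · exact ⟨(x + j * (2 * m) + 1, y), (x + j * (2 * m), y + 1),
        ⟨x + j * (2 * m), y, ⟨hF, hy⟩, Or.inr ⟨by rw [e]; exact h, Or.inr ⟨rfl, rfl⟩⟩⟩,
        by rw [← t2]; exact key _ _ (by omega), key _ _ (by omega)⟩

theorem connW_tr (hm : 0 < m) {ω : Cfg} {u v : ℤ × ℤ} (j : ℤ)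
    (h : ConnW (emC m) (perW m ω) (strip M) u v) :
    ConnW (emC m) (perW m ω) (strip M) (tr m j u) (tr m j v) := by
  induction h with
  | refl => exact Relation.ReflTransGen.refl
  | tail _ hb ih => exact ih.tail (bondW_tr hm j hb)

theorem bondW_symm {em : ℤ → ℤ} {ω : Cfg} {F : Set (ℤ × ℤ)} {u v : ℤ × ℤ}
    (h : BondW em ω F u v) : BondW em ω F v u := by
  rcases h with h | ⟨u', v', h, rfl, rfl⟩
  · exact Or.inl h.symm
  · exact Or.inr ⟨v', u', h.symm, rfl, rfl⟩

theorem connW_symm {em : ℤ → ℤ} {ω : Cfg} {F : Set (ℤ × ℤ)} {u v : ℤ × ℤ}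
    (h : ConnW em ω F u v) : ConnW em ω F v u := by
  induction h with
  | refl => exact Relation.ReflTransGen.refl
  | tail _ hb ih => exact Relation.ReflTransGen.head (bondW_symm hb) ih

/-- The bonds of the upper half. -/
theorem bondW_up {ω : Cfg} {u v : ℤ × ℤ}
    (h : Bond (perC (2 * m + 1) ω) {f | 0 ≤ f.2 ∧ f.2 < M} u v) :
    BondW (emC m) (perW m ω) (strip M) u v := by
  left
  obtain ⟨x, y, ⟨hy, hy'⟩, h⟩ := h
  simp only at hy hy'
  have e : perW m ω (x, y) = perC (2 * m + 1) ω (x, y) := by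
    unfold perW perC
    simp only [if_pos hy]
    push_cast
    rfl
  exact ⟨x, y, ⟨⟨by simp only; omega, hy'⟩, hy⟩, by rw [e]; exact h⟩

theorem connW_up {ω : Cfg} {u v : ℤ × ℤ}
    (h : Conn (perC (2 * m + 1) ω) {f | 0 ≤ f.2 ∧ f.2 < M} u v) :
    ConnW (emC m) (perW m ω) (strip M) u v := by
  induction h with
  | refl => exact Relation.ReflTransGen.refl
  | tail _ hb ih => exact ih.tail (bondW_up hb)

theorem relW_of_relT_up {ω : Cfg} {u v : ℤ × ℤ} (h : RelT (2 * m + 1) M ω 0 u v) :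
    RelW m M ω u v := by
  rcases h with h | ⟨⟨x, hx, hx'⟩, ⟨z, hz, hz'⟩⟩
  · exact Or.inl (connW_up h)
  · exact Or.inr ⟨⟨x, connW_up hx, Or.inl hx'⟩, ⟨z, connW_up hz, Or.inl hz'⟩⟩

/-- The bonds of the lower half. -/
theorem bondW_lo {ω : Cfg} {u v : ℤ × ℤ}
    (h : Bond (perC (2 * m) (lowC ω)) {f | 0 ≤ f.2 ∧ f.2 < M} u v) :
    BondW (emC m) (perW m ω) (strip M) (twV (emC m) (u.1, -u.2)) (twV (emC m) (v.1, -v.2)) := by
  right
  have h1 := bond_low h
  refine ⟨(u.1, -u.2), (v.1, -v.2), ?_, rfl, rfl⟩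
  obtain ⟨i, j, ⟨hj, hj'⟩, h⟩ := h
  simp only at hj hj'
  have e : perC (2 * m) (lowC ω) (i, j) = !perW m ω (i, -1 - j) := by
    unfold perC lowC perW
    have h2 : ¬ (0 : ℤ) ≤ -1 - j := by omega
    simp only [if_neg h2]
    push_cast
    rfl
  rw [e] at h
  refine ⟨i, -1 - j, ⟨⟨by simp only; omega, by simp only; omega⟩, by simp only; omega⟩, ?_⟩
  rcases h with ⟨h, h'⟩ | ⟨h, h'⟩
  · right
    refine ⟨by simpa using h, ?_⟩
    rcases h' with ⟨rfl, rfl⟩ | ⟨rfl, rfl⟩
    · left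
      refine ⟨?_, ?_⟩
      · ext
        · rfl
        · simp only; ring
      · ext
        · rfl
        · simp only; ring
    · right
      refine ⟨?_, ?_⟩
      · ext
        · rfl
        · simp only; ring
      · ext
        · rfl
        · simp only; ring
  · left
    refine ⟨by simpa using h, ?_⟩
    rcases h' with ⟨rfl, rfl⟩ | ⟨rfl, rfl⟩
    · left
      refine ⟨?_, ?_⟩
      · ext
        · rfl
        · simp only; ring
      · ext
        · rfl
        · simp only; ring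
    · right
      refine ⟨?_, ?_⟩
      · ext
        · rfl
        · simp only; ring
      · ext
        · rfl
        · simp only; ring

theorem connW_lo {ω : Cfg} {u v : ℤ × ℤ}
    (h : Conn (perC (2 * m) (lowC ω)) {f | 0 ≤ f.2 ∧ f.2 < M} u v) :
    ConnW (emC m) (perW m ω) (strip M) (twV (emC m) (u.1, -u.2)) (twV (emC m) (v.1, -v.2)) := by
  induction h with
  | refl => exact Relation.ReflTransGen.refl
  | tail _ hb ih => exact ih.tail (bondW_lo hb)

theorem twV_snd (em : ℤ → ℤ) (v : ℤ × ℤ) : (twV em v).2 = v.2 := by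
  unfold twV
  split_ifs with h
  · exact h.symm
  · rfl

theorem relW_of_relT_lo {ω : Cfg} {u v : ℤ × ℤ}
    (h : RelT (2 * m) M (lowC ω) 0 u v) :
    RelW m M ω (twV (emC m) (u.1, -u.2)) (twV (emC m) (v.1, -v.2)) := by
  rcases h with h | ⟨⟨x, hx, hx'⟩, ⟨z, hz, hz'⟩⟩
  · exact Or.inl (connW_lo h)
  · refine Or.inr ⟨⟨_, connW_lo hx, Or.inr ?_⟩, ⟨_, connW_lo hz, Or.inr ?_⟩⟩
    · rw [twV_snd]; simp only [hx']
    · rw [twV_snd]; simp only [hz']

end TwA

open TwA CylArmA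

theorem relW_equivalence (m M : ℕ) (ω : Cfg) : Equivalence (RelW m M ω) := by
  refine ⟨fun u => Or.inl Relation.ReflTransGen.refl, ?_, ?_⟩
  · rintro u v (h | ⟨h, h'⟩)
    · exact Or.inl (connW_symm h)
    · exact Or.inr ⟨h', h⟩
  · rintro u v w (h | ⟨h, h'⟩) (h1 | ⟨h1, h1'⟩)
    · exact Or.inl (h.trans h1)
    · obtain ⟨x, hx, hx'⟩ := h1
      exact Or.inr ⟨⟨x, h.trans hx, hx'⟩, h1'⟩
    · obtain ⟨x, hx, hx'⟩ := h'
      exact Or.inr ⟨h, ⟨x, (connW_symm h1).trans hx, hx'⟩⟩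
    · exact Or.inr ⟨h, h1'⟩

/-- Translation by `j` periods of a vertex in the row `0` or above. -/
theorem relW_shift (hm : 0 < m) {ω : Cfg} {x x' : ℤ} (h : RelW m M ω (x, 0) (x', 0)) (j : ℤ) :
    RelW m M ω (x + j * (2 * m + 1), 0) (x' + j * (2 * m + 1), 0) := by
  have e : ∀ a : ℤ, tr m j (a, 0) = (a + j * (2 * m + 1), 0) := by
    intro a
    unfold tr
    simp only [le_refl, if_true]
  rw [← e, ← e]
  rcases h with h | ⟨⟨u, hu, hu'⟩, ⟨v, hv, hv'⟩⟩
  · exact Or.inl (connW_tr hm j h)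
  · exact Or.inr ⟨⟨_, connW_tr hm j hu, hu'⟩, ⟨_, connW_tr hm j hv, hv'⟩⟩

theorem nco_upOS (m M : ℕ) (ω : Cfg) : NCO (2 * m + 1) (upOS (2 * m + 1) M ω) :=
  TwoO.nco_runO _ _ _ (nco_flatO (by omega))

/-- The arcs of the upper state are sound: the left gap of `x` is connected to the right gap of the
partner, with a shift by an odd number of periods if and only if the label is `true`. -/
theorem sound_upO (hm : 0 < m) (ω : Cfg) {x : ℕ} (hx : x < 2 * m + 1)
    (hp : upOS (2 * m + 1) M ω x ≠ x) :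
    ∃ k : ℤ, (k % 2 = 1 ↔ labO (upOS (2 * m + 1) M ω) x = true) ∧
      RelW m M ω ((x : ℤ), 0)
        (((upOS (2 * m + 1) M ω x : ℕ) : ℤ) + 1 + k * (2 * m + 1), 0) := by
  obtain ⟨p, h1, h3, h4⟩ := soundO_run (L := 2 * m + 1) (M := M) (by omega) ω le_rfl
  have h5 : upOS (2 * m + 1) M ω = p := by
    unfold upOS
    rw [h4, Nat.sub_self]; rfl
  rw [h5] at hp ⊢
  rw [sub_self] at h3
  have h7 := relW_of_relT_up (h3 x hx hp)
  have hf := h1.thr_fix
  have n1 : x ≠ thr p := by rintro rfl; exact hp hf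
  have n2 : p x ≠ thr p := by
    intro e
    have := h1.inv x
    rw [e, hf] at this
    exact n1 this.symm
  refine ⟨(if thr p < x then 1 else 0) - (if thr p < p x then 1 else 0), ?_, ?_⟩
  · unfold labO
    rcases Nat.lt_or_gt_of_ne n1 with a1 | a1 <;> rcases Nat.lt_or_gt_of_ne n2 with a2 | a2
    · simp [a1, a2, not_lt.2 a1.le, not_lt.2 a2.le]
    · simp [a1, a2, not_lt.2 a1.le, not_lt.2 a2.le]
    · simp [a1, a2, not_lt.2 a1.le, not_lt.2 a2.le]
    · simp [a1, a2, not_lt.2 a1.le, not_lt.2 a2.le]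
  · have h8 := relW_shift hm h7 (if thr p < x then 1 else 0)
    have e1 : ((x : ℤ) - (if thr p < x then ((2 * m + 1 : ℕ) : ℤ) else 0)) +
        (if thr p < x then 1 else 0) * (2 * m + 1) = x := by
      split_ifs <;> push_cast <;> ring
    have e2 : (((p x + 1 : ℕ) : ℤ) - (if thr p < p x then ((2 * m + 1 : ℕ) : ℤ) else 0)) +
        (if thr p < x then 1 else 0) * (2 * m + 1) =
        ((p x : ℕ) : ℤ) + 1 + ((if thr p < x then 1 else 0) - (if thr p < p x then 1 else 0)) *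
          (2 * m + 1) := by
      split_ifs <;> push_cast <;> ring
    rw [e1, e2] at h8
    exact h8

/-- The arcs of the lower state are sound (in upper coordinates; `x` and the partner are lower
sites, the gap `2 m` of a period is the gap `0` of the next one). -/
theorem sound_loW (hm : 0 < m) (ω : Cfg) {x : ℕ} (hx : x < 2 * m) :
    ∃ k : ℤ, (k % 2 = 1 ↔ (loS (2 * m) M ω).2 x = true) ∧
      RelW m M ω (emC m x, 0)
        (emC m (((loS (2 * m) M ω).1 x : ℕ) + 1) + k * (2 * m + 1), 0) := by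
  obtain ⟨k, hk, a, ha⟩ := sound_aux (L := 2 * m) (M := M) (by omega) (by omega) (lowC ω) hx
  refine ⟨k, hk, ?_⟩
  have h1 := relW_of_relT_lo ha
  have e0 : ∀ b : ℤ, twV (emC m) (b, -0) = (emC m b, 0) := by
    intro b; unfold twV; simp
  simp only [e0] at h1
  have h2 := relW_shift hm h1 (-a)
  have e1 : emC m ((x : ℤ) + a * ((2 * m : ℕ) : ℤ)) + -a * (2 * m + 1) = emC m x := by
    push_cast
    rw [emC_add hm]; ring
  have e2 : emC m ((((run (2 * m) (lowC ω) M (s0 (2 * m))).1 x : ℕ) : ℤ) + 1 +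
      (k + a) * ((2 * m : ℕ) : ℤ)) + -a * (2 * m + 1) =
      emC m ((((run (2 * m) (lowC ω) M (s0 (2 * m))).1 x : ℕ) : ℤ) + 1) + k * (2 * m + 1) := by
    push_cast
    rw [emC_add hm]; ring
  rw [e1, e2] at h2
  exact h2

end Pool.Agent.Perc

end Partperc3TwA

section Partperc3TwB

/-!
# The twisted cylinder: the three-leg event gives relations of the core vertices (task TwB_rel)

Follow the path of arcs from a `D`-node to another `D`-node. An arc relates the left gap of a site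
to the right gap of its partner and the right gap to the left gap; the glued sites have the same
gaps. The gaps of the three `D`-nodes are the pairs of core vertices (at the end of the period `0`).
-/

set_option autoImplicit false

namespace Pool.Agent.Perc

open Finset

variable {m M : ℕ}

namespace TwB

/-- The left gap of a node. -/
def Lg (m x : ℕ) : ℤ := if x = 2 * m + 1 then 2 * m - 1 else x

/-- The right gap of a node. -/
def Rg (m x : ℕ) : ℤ := if x = 2 * m + 1 then 2 * m + 1 else x + 1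

/-- Two gaps are related with a shift of the given parity. -/
def RR (m M : ℕ) (ω : Cfg) (g g' : ℤ) (ε : Bool) : Prop :=
  ∃ k : ℤ, (k % 2 = 1 ↔ ε = true) ∧ RelW m M ω (g, 0) (g' + k * (2 * m + 1), 0)

theorem RR.refl (ω : Cfg) (g : ℤ) : RR m M ω g g false :=
  ⟨0, by simp, by simpa using (relW_equivalence m M ω).refl _⟩

theorem RR.symm (hm : 0 < m) {ω : Cfg} {g g' : ℤ} {ε : Bool} (h : RR m M ω g g' ε) : RR m M ω g' g ε := by
  obtain ⟨k, hk, h⟩ := h
  refine ⟨-k, ?_, ?_⟩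
  · rw [← hk]
    omega
  · have h1 := relW_shift hm h (-k)
    have e : g' + k * (2 * (m : ℤ) + 1) + -k * (2 * m + 1) = g' := by ring
    rw [e] at h1
    exact (relW_equivalence m M ω).symm h1

theorem RR.trans (hm : 0 < m) {ω : Cfg} {g g' g'' : ℤ} {ε δ : Bool} (h : RR m M ω g g' ε)
    (h' : RR m M ω g' g'' δ) : RR m M ω g g'' (xor ε δ) := by
  obtain ⟨k, hk, h⟩ := h
  obtain ⟨l, hl, h'⟩ := h'
  refine ⟨l + k, ?_, ?_⟩
  · have e : xor ε δ = true ↔ ¬ (ε = true ↔ δ = true) := by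
      cases ε <;> cases δ <;> simp
    rw [e, ← hk, ← hl]
    omega
  · have h1 := relW_shift hm h' k
    have e : g'' + l * (2 * (m : ℤ) + 1) + k * (2 * m + 1) = g'' + (l + k) * (2 * m + 1) := by ring
    rw [e] at h1
    exact (relW_equivalence m M ω).trans h h1

/-- Every gap of the node `a` is related to a gap of the node `c`. -/
def GR (m M : ℕ) (ω : Cfg) (a c : ℕ) (ε : Bool) : Prop :=
  ∀ g, g = Lg m a ∨ g = Rg m a → ∃ g', (g' = Lg m c ∨ g' = Rg m c) ∧ RR m M ω g g' ε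

theorem GR.refl (ω : Cfg) (a : ℕ) : GR m M ω a a false := fun g hg => ⟨g, hg, RR.refl ω g⟩

theorem GR.trans (hm : 0 < m) {ω : Cfg} {a b c : ℕ} {ε δ : Bool} (h : GR m M ω a b ε) (h' : GR m M ω b c δ) :
    GR m M ω a c (xor ε δ) := by
  intro g hg
  obtain ⟨g', hg', h1⟩ := h g hg
  obtain ⟨g'', hg'', h2⟩ := h' g' hg'
  exact ⟨g'', hg'', RR.trans hm h1 h2⟩

theorem GR.of_cross (hm : 0 < m) {ω : Cfg} {a c : ℕ} {ε : Bool} (h1 : RR m M ω (Lg m a) (Rg m c) ε)
    (h2 : RR m M ω (Lg m c) (Rg m a) ε) : GR m M ω a c ε := by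
  rintro g (rfl | rfl)
  · exact ⟨_, Or.inr rfl, h1⟩
  · exact ⟨_, Or.inl rfl, RR.symm hm h2⟩

theorem gp_up (hm : 0 < m) (hM : 0 < M) (ω : Cfg) (x : ℕ) :
    GR m M ω x ((upO (upOS (2 * m + 1) M ω)).1 x) ((upO (upOS (2 * m + 1) M ω)).2 x) := by
  have hN := nco_upOS m M ω
  have hI := LInv.upO hN
  change GR m M ω x (upOS (2 * m + 1) M ω x) (labO (upOS (2 * m + 1) M ω) x)
  by_cases hx : upOS (2 * m + 1) M ω x = x
  · rw [hx, show labO (upOS (2 * m + 1) M ω) x = false from hI.fix x hx]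
    exact GR.refl ω x
  · have hx1 : x < 2 * m + 1 := by
      by_contra hcon
      exact hx (hN.out x (by omega))
    have hy1 : upOS (2 * m + 1) M ω x < 2 * m + 1 := hN.lt x hx1
    have hyy : upOS (2 * m + 1) M ω (upOS (2 * m + 1) M ω x) = x := hN.inv x
    have key : ∀ y, y < 2 * m + 1 → upOS (2 * m + 1) M ω y < 2 * m + 1 →
        upOS (2 * m + 1) M ω y ≠ y →
        RR m M ω (Lg m y) (Rg m (upOS (2 * m + 1) M ω y)) (labO (upOS (2 * m + 1) M ω) y) := by
      intro y hy hy' hyn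
      obtain ⟨k, hk, h⟩ := sound_upO hm ω hy hyn
      refine ⟨k, hk, ?_⟩
      rw [Lg, Rg, if_neg (by omega), if_neg (by omega)]
      exact h
    refine GR.of_cross hm (key x hx1 hy1 hx) ?_
    have h2 := key _ hy1 (by rw [hyy]; exact hx1) (by rw [hyy]; exact Ne.symm hx)
    rw [hyy, show labO (upOS (2 * m + 1) M ω) (upOS (2 * m + 1) M ω x) =
      labO (upOS (2 * m + 1) M ω) x from hI.lab x] at h2
    exact h2

theorem emC_lt {y : ℕ} (hy : y < 2 * m) : emC m (y : ℤ) = y := by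
  have h0 : (0 : ℤ) ≤ y := by omega
  have h1 : (y : ℤ) < 2 * m := by omega
  rw [emC, Int.ediv_eq_zero_of_lt h0 h1, Int.emod_eq_of_lt h0 h1]
  ring

theorem emC_top (hm : 0 < m) : emC m (2 * m : ℤ) = 2 * m + 1 := by
  have h : (2 * m : ℤ) ≠ 0 := by omega
  rw [emC, Int.ediv_self h, Int.emod_self]
  ring

theorem lg_swap (hm : 0 < m) {y : ℕ} (hy : y < 2 * m) :
    Lg m (Equiv.swap (2 * m - 1) (2 * m - 1 + 2) y) = emC m y := by
  rcases Nat.lt_or_ge y (2 * m - 1) with h | h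
  · rw [Equiv.swap_apply_of_ne_of_ne (by omega) (by omega), emC_lt hy, Lg, if_neg (by omega)]
  · have e : y = 2 * m - 1 := by omega
    rw [emC_lt hy, e, Equiv.swap_apply_left, Lg, if_pos (by omega)]
    omega

theorem rg_swap (hm : 0 < m) {y : ℕ} (hy : y < 2 * m) :
    Rg m (Equiv.swap (2 * m - 1) (2 * m - 1 + 2) y) = emC m ((y : ℤ) + 1) := by
  rcases Nat.lt_or_ge y (2 * m - 1) with h | h
  · have e : ((y : ℤ) + 1) = ((y + 1 : ℕ) : ℤ) := by push_cast; ring
    rw [e, emC_lt (by omega : y + 1 < 2 * m),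
      Equiv.swap_apply_of_ne_of_ne (by omega) (by omega), Rg, if_neg (by omega)]
    push_cast
    ring
  · have e : y = 2 * m - 1 := by omega
    have e2 : ((y : ℤ) + 1) = 2 * m := by omega
    rw [e2, emC_top hm, e, Equiv.swap_apply_left, Rg, if_pos (by omega)]

theorem gp_lo (hm : 0 < m) (ω : Cfg) (x : ℕ) :
    GR m M ω x ((dnO (2 * m - 1) (loS (2 * m) M ω)).1 x)
      ((dnO (2 * m - 1) (loS (2 * m) M ω)).2 x) := by
  have hA : IsAnn (2 * m) (loS (2 * m) M ω) := TwoB.isAnn_lo (by omega) (by omega) ω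
  have hI := LInv.ann hA
  have key : ∀ y, y < 2 * m →
      RR m M ω (Lg m (Equiv.swap (2 * m - 1) (2 * m - 1 + 2) y))
        (Rg m (Equiv.swap (2 * m - 1) (2 * m - 1 + 2) ((loS (2 * m) M ω).1 y)))
        ((loS (2 * m) M ω).2 y) := by
    intro y hy
    obtain ⟨k, hk, h⟩ := sound_loW (M := M) hm ω hy
    refine ⟨k, hk, ?_⟩
    rw [lg_swap hm hy, rg_swap hm (hA.nc.lt y hy)]
    exact h
  obtain ⟨y, rfl⟩ : ∃ y, x = Equiv.swap (2 * m - 1) (2 * m - 1 + 2) y :=
    ⟨Equiv.swap (2 * m - 1) (2 * m - 1 + 2) x, by rw [Equiv.swap_apply_self]⟩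
  change GR m M ω _ (Equiv.swap (2 * m - 1) (2 * m - 1 + 2) ((loS (2 * m) M ω).1
    (Equiv.swap (2 * m - 1) (2 * m - 1 + 2) (Equiv.swap (2 * m - 1) (2 * m - 1 + 2) y))))
    ((loS (2 * m) M ω).2 (Equiv.swap (2 * m - 1) (2 * m - 1 + 2)
      (Equiv.swap (2 * m - 1) (2 * m - 1 + 2) y)))
  rw [Equiv.swap_apply_self]
  rcases Nat.lt_or_ge y (2 * m) with hy | hy
  · refine GR.of_cross hm (key y hy) ?_
    have h2 := key _ (hA.nc.lt y hy)
    rw [hI.inv, hI.lab] at h2
    exact h2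
  · rw [hA.nc.out y hy, hA.out y hy]
    exact GR.refl ω _

theorem gp_path (hm : 0 < m) (hM : 0 < M) (ω : Cfg) {a : ℕ} {b : ℕ × Bool}
    (h : PR (upO (upOS (2 * m + 1) M ω)) (dnO (2 * m - 1) (loS (2 * m) M ω)) (a, false) b) :
    GR m M ω a b.1 b.2 := by
  induction h with
  | refl => exact GR.refl ω a
  | @tail x y _ hbc ih =>
    rcases hbc with ⟨h1, h2⟩ | ⟨h1, h2⟩
    · rw [h1, h2]
      exact GR.trans hm ih (gp_up hm hM ω x.1)
    · rw [h1, h2]
      exact GR.trans hm ih (gp_lo hm ω x.1)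

end TwB

open TwB in
/-- The relations between the core vertices (translated to the core at the period `0`). -/
theorem relW_of_tri (hm : 0 < m) (hM : 0 < M) (ω : Cfg)
    (h : Tri (2 * m - 1) (upO (upOS (2 * m + 1) M ω)) (dnO (2 * m - 1) (loS (2 * m) M ω))) :
    ∀ x, Core x → ∃ x' s, Core x' ∧ s % 2 = 1 ∧
      RelW m M ω (x, 0) (x' + s * (2 * m + 1), 0) := by
  obtain ⟨a, b, ha1, ha2, hb1, hb2, hab, hP⟩ := h
  have hI1 := LInv.upO (nco_upOS m M ω)
  have hI2 := (LInv.ann (TwoB.isAnn_lo (M := M) (by omega : (2 * m) % 2 = 0) (by omega) ω)).dnO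
    (2 * m - 1)
  have h1 := gp_path hm hM ω hP
  have h2 : GR m M ω b a true := by
    have h3 := ((PR.symm hI1 hI2 hP).add true)
    have h4 := gp_path hm hM ω h3
    exact h4
  have fin : ∀ x : ℤ, ∀ c d : ℕ, 2 * m - 1 ≤ d → d < 2 * m - 1 + 3 → GR m M ω c d true →
      (x + (2 * m + 1) = Lg m c ∨ x + (2 * m + 1) = Rg m c) →
      ∃ x' s, Core x' ∧ s % 2 = 1 ∧ RelW m M ω (x, 0) (x' + s * (2 * m + 1), 0) := by
    intro x c d hd1 hd2 hG hx
    obtain ⟨g', hg', k, hk, hR⟩ := hG _ hx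
    refine ⟨g' - (2 * m + 1), k, ?_, hk.2 rfl, ?_⟩
    · rcases hg' with rfl | rfl
      · rw [Lg]
        unfold Core
        split_ifs <;> omega
      · rw [Rg]
        unfold Core
        split_ifs <;> omega
    · have h5 := relW_shift hm hR (-1)
      have e1 : x + (2 * (m : ℤ) + 1) + -1 * (2 * m + 1) = x := by ring
      have e2 : g' + k * (2 * (m : ℤ) + 1) + -1 * (2 * m + 1) =
        g' - (2 * m + 1) + k * (2 * m + 1) := by ring
      rw [e1, e2] at h5
      exact h5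
  intro x hx
  have hcov : (x + (2 * m + 1) = Lg m a ∨ x + (2 * m + 1) = Rg m a) ∨
      (x + (2 * m + 1) = Lg m b ∨ x + (2 * m + 1) = Rg m b) := by
    rw [Lg, Rg, Lg, Rg]
    unfold Core at hx
    split_ifs <;> omega
  rcases hcov with h3 | h3
  · exact fin x a b hb1 hb2 h1 h3
  · exact fin x b a ha1 ha2 h2 h3

end Pool.Agent.Perc

end Partperc3TwB

section Partperc3TwBarm

/-!
# The twisted cylinder: three arms of the core of the twisted plane (task TwB_arm)
-/

set_option autoImplicit false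

namespace Pool.Agent.Perc

open Finset

variable {m M : ℕ}

namespace TwBarm

/-- Strictly inside the box of radius `m - 1`. -/
def Ins (m : ℕ) (v : ℤ × ℤ) : Prop :=
  (0 ≤ v.2 ∧ -((m : ℤ) + 1) < v.1 ∧ v.1 < m - 1 ∧ v.2 < m - 1) ∨
    (v.2 < 0 ∧ -(m : ℤ) < v.1 ∧ v.1 < m - 1 ∧ -((m : ℤ) - 1) < v.2)

/-- In the closed box of radius `m - 1`. -/
def Clo (m : ℕ) (v : ℤ × ℤ) : Prop :=
  (0 ≤ v.2 ∧ -((m : ℤ) + 1) ≤ v.1 ∧ v.1 ≤ m - 1 ∧ v.2 ≤ m - 1) ∨
    (v.2 < 0 ∧ -(m : ℤ) ≤ v.1 ∧ v.1 ≤ m - 1 ∧ -((m : ℤ) - 1) ≤ v.2)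

theorem bd_of_clo {v : ℤ × ℤ} (h : Clo m v) (h' : ¬ Ins m v) : BdW ((m : ℤ) - 1) v := by
  unfold Clo at h
  unfold Ins at h'
  unfold BdW
  omega

theorem emC_eq (hm : 0 < m) {l : ℤ} (h1 : -(2 * (m : ℤ)) ≤ l) (h2 : l < 2 * m) :
    emC m l = emP l := by
  unfold emC emP
  have hm' : (0 : ℤ) < 2 * m := by omega
  by_cases h : 0 ≤ l
  · rw [if_pos h, Int.ediv_eq_zero_of_lt h h2, Int.emod_eq_of_lt h h2]; ring
  · rw [if_neg h]
    have e1 : l = (l + 2 * m) + (-1) * (2 * m) := by ring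
    have e2 : l / (2 * (m : ℤ)) = -1 := by
      rw [e1, Int.add_mul_ediv_right _ _ (by omega), Int.ediv_eq_zero_of_lt (by omega) (by omega)]
      ring
    have e3 : l % (2 * (m : ℤ)) = l + 2 * m := by
      rw [e1, Int.add_mul_emod_self_right, Int.emod_eq_of_lt (by omega) (by omega)]; ring
    rw [e2, e3]; ring

theorem emC_inv (hm : 0 < m) {l : ℤ} (h1 : -((m : ℤ) + 1) < emC m l) (h2 : emC m l < m - 1) :
    -(m : ℤ) < l ∧ l < m - 1 := by
  unfold emC at h1 h2
  have hm' : (0 : ℤ) < 2 * m := by omega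
  have e := Int.emod_add_mul_ediv l (2 * m)
  have r1 := Int.emod_nonneg l hm'.ne'
  have r2 := Int.emod_lt_of_pos l hm'
  set k := l / (2 * (m : ℤ)) with hk
  set r := l % (2 * (m : ℤ)) with hr
  have hm1 : (1 : ℤ) ≤ m := by exact_mod_cast hm
  have k1 : k < 1 := by
    by_contra hc
    have : (1 : ℤ) ≤ k := by omega
    nlinarith
  have k2 : -2 < k := by
    by_contra hc
    have : k ≤ -2 := by omega
    nlinarith
  obtain hk0 | hk0 : k = 0 ∨ k = -1 := by omega
  · rw [hk0] at e h1 h2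
    constructor <;> linarith
  · rw [hk0] at e h1 h2
    constructor <;> linarith

theorem step_up {ω : Cfg} {u v : ℤ × ℤ} (hu : Ins m u)
    (h : Bond ω {f | f ∈ strip M ∧ 0 ≤ f.2} u v) :
    Bond ω {f | f ∈ (BW ((m : ℤ) - 1) : Set (ℤ × ℤ)) ∧ 0 ≤ f.2} u v ∧ Clo m v := by
  obtain ⟨x, y, ⟨_, hy⟩, h⟩ := h
  simp only at hy
  have key : ∀ u : ℤ × ℤ, Ins m u → (u.1 = x ∨ u.1 = x + 1) → (u.2 = y ∨ u.2 = y + 1) →
      ((x, y) : ℤ × ℤ) ∈ (BW ((m : ℤ) - 1) : Set (ℤ × ℤ)) ∧ -((m : ℤ) + 1) ≤ x ∧ x < m - 1 ∧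
        y < m - 1 := by
    intro u hu h1 h2
    unfold Ins at hu
    have h3 : -((m : ℤ) + 1) ≤ x ∧ x < m - 1 ∧ y < m - 1 := by omega
    refine ⟨?_, h3⟩
    unfold BW RF
    rw [mem_coe, mem_union, mem_product, mem_Ico, mem_Ico]
    left
    simp only
    omega
  rcases h with ⟨h, ⟨rfl, rfl⟩ | ⟨rfl, rfl⟩⟩ | ⟨h, ⟨rfl, rfl⟩ | ⟨rfl, rfl⟩⟩
  · obtain ⟨k1, k2⟩ := key _ hu (Or.inl rfl) (Or.inl rfl)
    refine ⟨⟨x, y, ⟨k1, hy⟩, Or.inl ⟨h, Or.inl ⟨rfl, rfl⟩⟩⟩, ?_⟩
    unfold Clo; simp only; omega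
  · obtain ⟨k1, k2⟩ := key _ hu (Or.inr rfl) (Or.inr rfl)
    refine ⟨⟨x, y, ⟨k1, hy⟩, Or.inl ⟨h, Or.inr ⟨rfl, rfl⟩⟩⟩, ?_⟩
    unfold Clo; simp only; omega
  · obtain ⟨k1, k2⟩ := key _ hu (Or.inl rfl) (Or.inr rfl)
    refine ⟨⟨x, y, ⟨k1, hy⟩, Or.inr ⟨h, Or.inl ⟨rfl, rfl⟩⟩⟩, ?_⟩
    unfold Clo; simp only; omega
  · obtain ⟨k1, k2⟩ := key _ hu (Or.inr rfl) (Or.inl rfl)
    refine ⟨⟨x, y, ⟨k1, hy⟩, Or.inr ⟨h, Or.inr ⟨rfl, rfl⟩⟩⟩, ?_⟩
    unfold Clo; simp only; omega

theorem ins_twV (hm : 0 < m) {u : ℤ × ℤ} (h2 : u.2 ≤ 0) (hu : Ins m (twV (emC m) u)) :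
    -(m : ℤ) < u.1 ∧ u.1 < m - 1 ∧ -((m : ℤ) - 1) < u.2 ∧ 1 < m := by
  unfold twV at hu
  by_cases h0 : u.2 = 0
  · rw [if_pos h0] at hu
    unfold Ins at hu
    simp only at hu
    have h1 : -((m : ℤ) + 1) < emC m u.1 ∧ emC m u.1 < m - 1 ∧ (0 : ℤ) < m - 1 := by omega
    have h3 := emC_inv hm h1.1 h1.2.1
    omega
  · rw [if_neg h0] at hu
    unfold Ins at hu
    omega

theorem step_lo (hm : 0 < m) {ω : Cfg} {u v : ℤ × ℤ} (hu : Ins m (twV (emC m) u))
    (h : Bond ω {f | f ∈ strip M ∧ f.2 < 0} u v) :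
    Bond ω {f | f ∈ (BW ((m : ℤ) - 1) : Set (ℤ × ℤ)) ∧ f.2 < 0} u v ∧
      twV (emC m) u = twV emP u ∧ twV (emC m) v = twV emP v ∧ Clo m (twV emP v) := by
  obtain ⟨x, y, ⟨_, hy⟩, h⟩ := h
  simp only at hy
  have key : ∀ u : ℤ × ℤ, Ins m (twV (emC m) u) → (u.1 = x ∨ u.1 = x + 1) →
      (u.2 = y ∨ u.2 = y + 1) →
      ((x, y) : ℤ × ℤ) ∈ (BW ((m : ℤ) - 1) : Set (ℤ × ℤ)) ∧ -(m : ℤ) ≤ x ∧ x < m - 1 ∧
        -((m : ℤ) - 1) ≤ y ∧ 1 < m := by
    intro u hu h1 h2
    have h3 := ins_twV hm (by omega) hu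
    have h4 : -(m : ℤ) ≤ x ∧ x < m - 1 ∧ -((m : ℤ) - 1) ≤ y ∧ 1 < m := by omega
    refine ⟨?_, h4⟩
    unfold BW RF
    rw [mem_coe, mem_union, mem_product, mem_product, mem_Ico, mem_Ico, mem_Ico, mem_Ico]
    right
    simp only
    omega
  have key2 : ∀ a b : ℤ, -(m : ℤ) ≤ a → a ≤ m - 1 → twV (emC m) (a, b) = twV emP (a, b) := by
    intro a b h1 h2
    unfold twV
    simp only
    rw [emC_eq hm (by omega) (by omega)]
  have key3 : ∀ a b : ℤ, -(m : ℤ) ≤ a → a ≤ m - 1 → -((m : ℤ) - 1) ≤ b → b ≤ 0 → 1 < m →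
      Clo m (twV emP (a, b)) := by
    intro a b h1 h2 h3 h4 h5
    unfold twV Clo emP
    simp only
    by_cases hb : b = 0
    · rw [if_pos hb]
      simp only
      split_ifs <;> omega
    · rw [if_neg hb]
      simp only
      omega
  rcases h with ⟨h, ⟨rfl, rfl⟩ | ⟨rfl, rfl⟩⟩ | ⟨h, ⟨rfl, rfl⟩ | ⟨rfl, rfl⟩⟩
  · obtain ⟨k1, k2⟩ := key _ hu (Or.inl rfl) (Or.inl rfl)
    exact ⟨⟨x, y, ⟨k1, hy⟩, Or.inl ⟨h, Or.inl ⟨rfl, rfl⟩⟩⟩, key2 _ _ (by omega) (by omega),
      key2 _ _ (by omega) (by omega),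
      key3 _ _ (by omega) (by omega) (by omega) (by omega) (by omega)⟩
  · obtain ⟨k1, k2⟩ := key _ hu (Or.inr rfl) (Or.inr rfl)
    exact ⟨⟨x, y, ⟨k1, hy⟩, Or.inl ⟨h, Or.inr ⟨rfl, rfl⟩⟩⟩, key2 _ _ (by omega) (by omega),
      key2 _ _ (by omega) (by omega),
      key3 _ _ (by omega) (by omega) (by omega) (by omega) (by omega)⟩
  · obtain ⟨k1, k2⟩ := key _ hu (Or.inl rfl) (Or.inr rfl)
    exact ⟨⟨x, y, ⟨k1, hy⟩, Or.inr ⟨h, Or.inl ⟨rfl, rfl⟩⟩⟩, key2 _ _ (by omega) (by omega),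
      key2 _ _ (by omega) (by omega),
      key3 _ _ (by omega) (by omega) (by omega) (by omega) (by omega)⟩
  · obtain ⟨k1, k2⟩ := key _ hu (Or.inr rfl) (Or.inl rfl)
    exact ⟨⟨x, y, ⟨k1, hy⟩, Or.inr ⟨h, Or.inr ⟨rfl, rfl⟩⟩⟩, key2 _ _ (by omega) (by omega),
      key2 _ _ (by omega) (by omega),
      key3 _ _ (by omega) (by omega) (by omega) (by omega) (by omega)⟩

theorem step (hm : 0 < m) {ω : Cfg} {u v : ℤ × ℤ} (hu : Ins m u)
    (h : BondW (emC m) ω (strip M) u v) :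
    BondW emP ω (BW ((m : ℤ) - 1)) u v ∧ Clo m v := by
  rcases h with h | ⟨u', v', h, rfl, rfl⟩
  · obtain ⟨h1, h2⟩ := step_up hu h
    exact ⟨Or.inl h1, h2⟩
  · obtain ⟨h1, h2, h3, h4⟩ := step_lo hm hu h
    refine ⟨Or.inr ⟨u', v', h1, h2, h3⟩, ?_⟩
    rw [h3]; exact h4

theorem cut (hm : 0 < m) {ω : Cfg} {u w : ℤ × ℤ}
    (h : ConnW (emC m) ω (strip M) u w) (hu : Ins m u) :
    (∃ v, ConnW emP ω (BW ((m : ℤ) - 1)) u v ∧ BdW ((m : ℤ) - 1) v) ∨
      (Ins m w ∧ ConnW emP ω (BW ((m : ℤ) - 1)) u w) := by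
  induction h with
  | refl => exact Or.inr ⟨hu, Relation.ReflTransGen.refl⟩
  | @tail b c _ hb ih =>
    rcases ih with ih | ⟨ih1, ih2⟩
    · exact Or.inl ih
    · obtain ⟨h1, h2⟩ := step hm ih1 hb
      by_cases hc : Ins m c
      · exact Or.inr ⟨hc, ih2.tail h1⟩
      · exact Or.inl ⟨c, ih2.tail h1, bd_of_clo h2 hc⟩

theorem arm_of_relW (hm : 0 < m) (hM : m ≤ M) {ω : Cfg} {u w : ℤ × ℤ}
    (h : RelW m M ω u w) (hu : Ins m u) (hw : ¬ Ins m w) :
    ∃ v, ConnW emP (perW m ω) (BW ((m : ℤ) - 1)) u v ∧ BdW ((m : ℤ) - 1) v := by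
  have hM' : (m : ℤ) ≤ M := by exact_mod_cast hM
  rcases h with h | ⟨⟨u', h, h'⟩, -⟩
  · rcases cut hm h hu with h1 | h1
    · exact h1
    · exact absurd h1.1 hw
  · rcases cut hm h hu with h1 | h1
    · exact h1
    · exfalso
      have h2 := h1.1
      unfold Ins at h2
      omega

end TwBarm

open TwBarm

/-- The three arms in the box of radius `m - 1` of the twisted plane. -/
theorem arm3_of_tri (hm : 0 < m) (hM : m ≤ M) (ω : Cfg)
    (h : Tri (2 * m - 1) (upO (upOS (2 * m + 1) M ω)) (dnO (2 * m - 1) (loS (2 * m) M ω))) :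
    perW m ω ∈ Arm3 ((m : ℤ) - 1) := by
  intro x hx
  by_cases h1 : m = 1
  · refine ⟨(x, 0), Relation.ReflTransGen.refl, ?_⟩
    subst h1
    left
    simp
  have hr := relW_of_tri hm (by omega : 0 < M) ω h
  obtain ⟨x', s, hx', hs, hrel⟩ := hr x hx
  refine arm_of_relW hm hM hrel ?_ ?_
  · unfold Core at hx
    unfold Ins
    simp only
    omega
  · unfold Core at hx'
    unfold Ins
    simp only
    have hs1 : 1 ≤ s ∨ s ≤ -1 := by omega
    have hm' : (1 : ℤ) ≤ m := by exact_mod_cast hm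
    rcases hs1 with hs1 | hs1
    · have : (2 * (m : ℤ) + 1) ≤ s * (2 * m + 1) := by nlinarith
      omega
    · have : s * (2 * m + 1) ≤ -(2 * (m : ℤ) + 1) := by nlinarith
      omega

end Pool.Agent.Perc

end Partperc3TwBarm

section Partperc3TwCup

/-!
# The twisted cylinder: completeness of the upper state (task TwC, first half)

Model: perq/TwoD.lean.
-/

set_option autoImplicit false

namespace Pool.Agent.Perc

open Finset

variable {L M m : ℕ}

namespace TwCup

open TwoD (Lt lt_iff lt_iff' iff4 nx nx_snd_lt nx_snd_ne Fr Vf emod_aux exists_block bond_Fr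
  conn_isolated bond_symm conn_symm isolated_true isolated_zero rho rho_conn rho_Vf Vf_low)

/-- The shift of the block of the partner. -/
noncomputable def dl (p : ℕ → ℕ) (r : ℕ) : ℤ :=
  if labO p r = true then (if r < p r then -1 else 1) else 0

/-- Two gaps, given by block and residue, are in the same region. -/
def Reg (N : ℕ) (p : ℕ → ℕ) (K K' : ℤ × ℕ) : Prop :=
  ∀ (a : ℤ) (r : ℕ), r < N → (p r = r → (Lt a r K ↔ Lt a r K')) ∧
    ((Lt a r K ↔ Lt (a + dl p r) (p r) K) ↔ (Lt a r K' ↔ Lt (a + dl p r) (p r) K'))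

theorem Reg.refl (N : ℕ) (p : ℕ → ℕ) (K : ℤ × ℕ) : Reg N p K K :=
  fun _ _ _ => ⟨fun _ => Iff.rfl, Iff.rfl⟩

theorem Reg.symm {N : ℕ} {p : ℕ → ℕ} {K K' : ℤ × ℕ} (h : Reg N p K K') : Reg N p K' K :=
  fun a r hr => ⟨fun e => ((h a r hr).1 e).symm, (h a r hr).2.symm⟩

theorem Reg.trans {N : ℕ} {p : ℕ → ℕ} {K K' K'' : ℤ × ℕ} (h : Reg N p K K')
    (h' : Reg N p K' K'') : Reg N p K K'' :=
  fun a r hr => ⟨fun e => ((h a r hr).1 e).trans ((h' a r hr).1 e),
    (h a r hr).2.trans (h' a r hr).2⟩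

theorem lift_eq {N : ℕ} (p : ℕ → ℕ) (a : ℤ) {r : ℕ} (hr : r < N) :
    liftO N p (a * N + r) = (a + dl p r) * N + p r := by
  have h0 : (0 : ℤ) < N := by omega
  have h1 : (a * N + r) / (N : ℤ) = a := by
    rw [add_comm, Int.add_mul_ediv_right _ _ (by omega), Int.ediv_eq_zero_of_lt (by omega)
      (by omega), zero_add]
  have h2 : (a * N + r) % (N : ℤ) = r := by
    rw [add_comm, Int.add_mul_emod_self_right, Int.emod_eq_of_lt (by omega) (by omega)]
  unfold liftO dl
  rw [h1, h2, Int.toNat_natCast]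
  split_ifs <;> ring

/-- The fixed points of the lifted partner map. -/
theorem lift_fix_iff {N : ℕ} {p : ℕ → ℕ} (hp : NCO N p) (a : ℤ) {r : ℕ} (hr : r < N) :
    liftO N p (a * N + r) = a * N + r ↔ p r = r := by
  rw [lift_eq p a hr]
  constructor
  · intro h
    have h1 : (a + dl p r) * N + ((p r : ℕ) : ℤ) = a * N + ((r : ℕ) : ℤ) := h
    exact (TwoD.block_uniq (hp.lt r hr) hr h1).2
  · intro h
    have h1 : dl p r = 0 := by
      unfold dl
      rw [labO_of_fix h]
      simp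
    rw [h1, h, add_zero]

theorem reg_iff {N : ℕ} {p : ℕ → ℕ} (hp : NCO N p) {b b' : ℤ} {t t' : ℕ}
    (ht : t < N) (ht' : t' < N) :
    SameRegO N p (b * N + t) (b' * N + t') ↔ Reg N p (b, t) (b', t') := by
  have h0 : (0 : ℤ) < N := by omega
  constructor
  · intro h a r hr
    have h1 := h (a * N + r)
    rw [lift_fix_iff hp a hr, lift_eq p a hr, lt_iff hr ht, lt_iff (hp.lt r hr) ht, lt_iff hr ht',
      lt_iff (hp.lt r hr) ht'] at h1
    exact h1
  · intro h x
    obtain ⟨a, r, hr, rfl⟩ := exists_block (L := N) (by omega) x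
    rw [lift_fix_iff hp a hr, lift_eq p a hr, lt_iff hr ht, lt_iff (hp.lt r hr) ht, lt_iff hr ht',
      lt_iff (hp.lt r hr) ht']
    exact h a r hr

section EO

variable {N : ℕ} {p : ℕ → ℕ} {i : ℕ}

theorem mark (h : NCO N p) (x : ℕ) :
    labO p x = true ↔ (x < thr p ∧ thr p < p x) ∨ (p x < thr p ∧ thr p < x) := by
  have ht := h.thr_fix
  unfold labO
  by_cases hx : x = thr p
  · rw [hx, ht]; simp
  · have h2 : p x ≠ thr p := by
      intro e
      apply hx
      have := h.inv x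
      rw [e, ht] at this
      exact this.symm
    by_cases h3 : x < thr p <;> by_cases h4 : p x < thr p <;> simp [h3, h4] <;> omega

theorem eO_i1 (i : ℕ) (p : ℕ → ℕ) : eO i p (i + 1) = i := OStA.eO_right i p

theorem dl_eO_i (h : NCO N p) (hi : i + 1 < N) : dl (eO i p) i = 0 := by
  unfold dl
  rw [labO_eO_left h hi]
  simp

theorem dl_eO_i1 (h : NCO N p) (hi : i + 1 < N) : dl (eO i p) (i + 1) = 0 := by
  unfold dl
  rw [labO_eO_right h hi]
  simp

theorem eO_of_i (h : NCO N p) (hi : i + 1 < N) {r : ℕ} (hr : r < N) (h1 : r ≠ i)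
    (h2 : r ≠ i + 1) (h3 : p r = i) (h4 : p (i + 1) ≠ i + 1) :
    eO i p r = p (i + 1) ∧ dl (eO i p) r = dl p r + dl p (i + 1) := by
  have e1 : eO i p r = p (i + 1) := by rw [OStA.eO_a p h1 h2 h3, if_neg h4]
  refine ⟨e1, ?_⟩
  have hpi : p i = r := by rw [← h3]; exact h.inv r
  have h5 : p i ≠ i := by rw [hpi]; exact h1
  have e2 : labO (eO i p) r = xor (labO p i) (labO p (i + 1)) :=
    labO_eO_mid h hi h1 h2 (Or.inl h3) h5 h4
  have htN := h.thr_lt
  have ht := h.thr_fix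
  set b := p (i + 1) with hb
  have hpb : p b = i + 1 := by rw [hb]; exact h.inv _
  have hbN : b < N := h.lt _ hi
  have hbr : b ≠ r := by
    intro h4
    rw [h4, h3] at hpb
    omega
  have hbi : b ≠ i := by
    intro h4
    rw [h4, hpi] at hpb
    omega
  have lr : labO p r = labO p i := by
    have := labO_partner h.inv r
    rw [h3] at this
    exact this.symm
  have t1 : thr p ≠ i := by intro e; rw [e] at ht; exact h5 ht
  have t2 : thr p ≠ i + 1 := by intro e; rw [e] at ht; exact h4 ht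
  have t3 : thr p ≠ r := by intro e; rw [e, h3] at ht; exact h1 ht.symm
  have t4 : thr p ≠ b := by intro e; rw [e, hpb] at ht; exact h4 ht.symm
  have g1 := mark h i
  have g2 := mark h (i + 1)
  rw [hpi] at g1
  rw [← hb] at g2
  have n1 := h.nc i (i + 1) (by omega)
  have n2 := h.nc b i
  have n3 := h.nc r b
  rw [hpi, ← hb] at n1
  rw [hpi, hpb] at n2
  rw [h3, hpb] at n3
  unfold dl
  rw [e1, e2, lr, h3, ← hb]
  cases hA : labO p i <;> cases hB : labO p (i + 1) <;> rw [hA] at g1 <;> rw [hB] at g2 <;>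
    simp only [Bool.xor_true, Bool.xor_false, Bool.not_true, Bool.not_false, if_true,
      Bool.false_eq_true, false_iff, true_iff, if_false] at g1 g2 ⊢ <;>
    (try split_ifs) <;> omega

theorem eO_of_i1 (h : NCO N p) (hi : i + 1 < N) {r : ℕ} (hr : r < N) (h1 : r ≠ i)
    (h2 : r ≠ i + 1) (h3 : p r = i + 1) (h4 : p i ≠ i) :
    eO i p r = p i ∧ dl (eO i p) r = dl p r + dl p i := by
  have e1 : eO i p r = p i := by rw [OStA.eO_b p h1 h2 h3, if_neg h4]
  refine ⟨e1, ?_⟩
  have hpi : p (i + 1) = r := by rw [← h3]; exact h.inv r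
  have h5 : p (i + 1) ≠ i + 1 := by rw [hpi]; exact h2
  have e2 : labO (eO i p) r = xor (labO p i) (labO p (i + 1)) :=
    labO_eO_mid h hi h1 h2 (Or.inr h3) h4 h5
  have htN := h.thr_lt
  have ht := h.thr_fix
  set b := p i with hb
  have hpb : p b = i := by rw [hb]; exact h.inv _
  have hbN : b < N := h.lt _ (by omega)
  have hbr : b ≠ r := by
    intro h4
    rw [h4, h3] at hpb
    omega
  have hbi : b ≠ i + 1 := by
    intro h4
    rw [h4, hpi] at hpb
    omega
  have lr : labO p r = labO p (i + 1) := by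
    have := labO_partner h.inv r
    rw [h3] at this
    exact this.symm
  have t1 : thr p ≠ i := by intro e; rw [e] at ht; exact h4 ht
  have t2 : thr p ≠ i + 1 := by intro e; rw [e] at ht; exact h5 ht
  have t3 : thr p ≠ r := by intro e; rw [e, h3] at ht; exact h2 ht.symm
  have t4 : thr p ≠ b := by intro e; rw [e, hpb] at ht; exact h4 ht.symm
  have g1 := mark h i
  have g2 := mark h (i + 1)
  rw [hpi] at g2
  rw [← hb] at g1
  have n1 := h.nc i (i + 1) (by omega)
  have n2 := h.nc r i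
  have n3 := h.nc b r
  rw [hpi, ← hb] at n1
  rw [h3, ← hb] at n2
  rw [h3, hpb] at n3
  unfold dl
  rw [e1, e2, lr, h3, ← hb]
  cases hA : labO p i <;> cases hB : labO p (i + 1) <;> rw [hA] at g1 <;> rw [hB] at g2 <;>
    simp only [Bool.xor_true, Bool.xor_false, Bool.not_true, Bool.not_false, if_true,
      Bool.false_eq_true, false_iff, true_iff, if_false] at g1 g2 ⊢ <;>
    (try split_ifs) <;> omega

theorem eO_oth (h : NCO N p) (hi : i + 1 < N) {r : ℕ} (h1 : r ≠ i) (h2 : r ≠ i + 1)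
    (h3 : p r ≠ i) (h4 : p r ≠ i + 1) :
    eO i p r = p r ∧ dl (eO i p) r = dl p r := by
  have e1 : eO i p r = p r := OStA.eO_other p h1 h2 h3 h4
  refine ⟨e1, ?_⟩
  unfold dl
  rw [e1, labO_eO_other h hi h1 h2 h3 h4]

theorem dl_fix {r : ℕ} (h : p r = r) : dl p r = 0 := by
  unfold dl
  rw [labO_of_fix h]
  simp

/-- Regions and the Temperley-Lieb action. -/
theorem Reg.eO (h : NCO N p) (hi : i + 1 < N) {K K' : ℤ × ℕ} (hK : K.2 ≠ i + 1)
    (hK' : K'.2 ≠ i + 1) (hR : Reg N p K K') : Reg N (eO i p) K K' := by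
  intro a r hr
  have q0 : ∀ (c : ℤ) (Q : ℤ × ℕ), Q.2 ≠ i + 1 → (Lt c i Q ↔ Lt c (i + 1) Q) := by
    intro c Q hQ
    unfold TwoD.Lt
    omega
  by_cases h1 : r = i
  · subst h1
    rw [dl_eO_i h hi, OStA.eO_left, add_zero]
    refine ⟨fun e => absurd e (by omega), ?_⟩
    rw [q0 a K hK, q0 a K' hK']
    simp
  by_cases h2 : r = i + 1
  · subst h2
    rw [dl_eO_i1 h hi, eO_i1, add_zero]
    refine ⟨fun e => absurd e (by omega), ?_⟩
    rw [q0 a K hK, q0 a K' hK']
    simp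
  by_cases h3 : p r = i
  · have r1 := (hR a r hr).2
    rw [h3] at r1
    by_cases hf : p (i + 1) = i + 1
    · have e1 : Perc.eO i p r = r := by rw [OStA.eO_a p h1 h2 h3, if_pos hf]
      rw [dl_fix e1, e1, add_zero]
      refine ⟨fun _ => ?_, by simp⟩
      have r2 := (hR (a + dl p r) (i + 1) hi).1 hf
      rw [← q0 _ K hK, ← q0 _ K' hK'] at r2
      rw [r2] at r1
      by_cases hA : Lt a r K <;> by_cases hB : Lt a r K' <;> by_cases hC : Lt (a + dl p r) i K' <;>
        simp [hA, hB, hC] at r1 ⊢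
    · obtain ⟨e1, e2⟩ := eO_of_i h hi hr h1 h2 h3 hf
      rw [e1, e2]
      refine ⟨fun e => ?_, ?_⟩
      · exfalso
        have h5 := h.inv (i + 1)
        rw [e, h3] at h5
        omega
      · have r2 := (hR (a + dl p r) (i + 1) hi).2
        rw [← add_assoc]
        rw [q0 _ K hK, q0 _ K' hK'] at r1
        exact iff4 r1 r2
  by_cases h4 : p r = i + 1
  · have r1 := (hR a r hr).2
    rw [h4] at r1
    by_cases hf : p i = i
    · have e1 : Perc.eO i p r = r := by rw [OStA.eO_b p h1 h2 h4, if_pos hf]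
      rw [dl_fix e1, e1, add_zero]
      refine ⟨fun _ => ?_, by simp⟩
      have r2 := (hR (a + dl p r) i (by omega)).1 hf
      rw [q0 _ K hK, q0 _ K' hK'] at r2
      rw [r2] at r1
      by_cases hA : Lt a r K <;> by_cases hB : Lt a r K' <;>
        by_cases hC : Lt (a + dl p r) (i + 1) K' <;> simp [hA, hB, hC] at r1 ⊢
    · obtain ⟨e1, e2⟩ := eO_of_i1 h hi hr h1 h2 h4 hf
      rw [e1, e2]
      refine ⟨fun e => ?_, ?_⟩
      · exfalso
        have h5 := h.inv i
        rw [e, h4] at h5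
        omega
      · have r2 := (hR (a + dl p r) i (by omega)).2
        rw [← add_assoc]
        rw [← q0 _ K hK, ← q0 _ K' hK'] at r1
        exact iff4 r1 r2
  · obtain ⟨e1, e2⟩ := eO_oth h hi h1 h2 h3 h4
    rw [e1, e2]
    exact hR a r hr

theorem reg_eO_nx (h : NCO N p) (hi : i + 1 < N) (b : ℤ) :
    Reg N (Perc.eO i p) (b, i) (nx N b i) := by
  intro a r hr
  have hnc' := h.eO hi
  by_cases h1 : r = i
  · subst h1
    rw [dl_eO_i h hi, OStA.eO_left]
    refine ⟨fun e => absurd e (by omega), ?_⟩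
    unfold TwoD.nx TwoD.Lt
    split_ifs <;> simp only <;> omega
  by_cases h2 : r = i + 1
  · subst h2
    rw [dl_eO_i1 h hi, eO_i1]
    refine ⟨fun e => absurd e (by omega), ?_⟩
    unfold TwoD.nx TwoD.Lt
    split_ifs <;> simp only <;> omega
  have h3 : Perc.eO i p r ≠ i := by
    intro h3
    have := hnc'.inv r
    rw [h3, OStA.eO_left] at this
    exact h2 this.symm
  have h4 : Perc.eO i p r ≠ i + 1 := by
    intro h3
    have := hnc'.inv r
    rw [h3, eO_i1] at this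
    exact h1 this.symm
  have h5 := hnc'.lt r hr
  have q : ∀ (c : ℤ) (t : ℕ), t < N → t ≠ i → t ≠ i + 1 → (Lt c t (b, i) ↔ Lt c t (nx N b i)) := by
    intro c t ht ht1 ht2
    unfold TwoD.nx TwoD.Lt
    split_ifs <;> simp only <;> omega
  refine ⟨fun _ => q a r hr h1 h2, ?_⟩
  rw [q a r hr h1 h2, q _ _ h5 h3 h4]

end EO

section Merge

variable {N : ℕ} {p : ℕ → ℕ} {i : ℕ} {c : Cfg} {F F' : Set (ℤ × ℤ)} {V : ℤ × ℕ → ℤ × ℤ}

/-- A bond between the gaps on both sides of a small arc. -/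
theorem merge_step (hs : NCO N p) (hi : i + 1 < N)
    (old : ∀ K K' : ℤ × ℕ, K.2 < N → K'.2 < N → Conn c F (V K) (V K') → Reg N p K K')
    (hb : ∀ u v, Bond c F' u v → Bond c F u v ∨
      ∃ a : ℤ, (u = V (a, i) ∧ v = V (nx N a i)) ∨ (u = V (nx N a i) ∧ v = V (a, i)))
    (K K' : ℤ × ℕ) (hK : K.2 < N) (hK' : K'.2 < N) (hKi : K.2 ≠ i + 1) (hKi' : K'.2 ≠ i + 1)
    (h : Conn c F' (V K) (V K')) : Reg N (Perc.eO i p) K K' := by
  have key : ∀ u, Conn c F' (V K) u → ∃ K'' : ℤ × ℕ, K''.2 < N ∧ K''.2 ≠ i + 1 ∧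
      Reg N (Perc.eO i p) K K'' ∧ Conn c F (V K'') u := by
    intro u hu
    induction hu with
    | refl => exact ⟨K, hK, hKi, Reg.refl _ _ _, Relation.ReflTransGen.refl⟩
    | tail _ hb1 ih =>
      obtain ⟨K'', h1, h2, h3, h4⟩ := ih
      rcases hb _ _ hb1 with h5 | ⟨a, ⟨rfl, rfl⟩ | ⟨rfl, rfl⟩⟩
      · exact ⟨K'', h1, h2, h3, h4.tail h5⟩
      · refine ⟨nx N a i, nx_snd_lt hi a, nx_snd_ne a, ?_, Relation.ReflTransGen.refl⟩
        have h6 := old K'' (a, i) h1 (by simp only; omega) h4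
        exact (h3.trans (Reg.eO hs hi h2 (by simp only; omega) h6)).trans (reg_eO_nx hs hi a)
      · refine ⟨(a, i), by simp only; omega, by simp only; omega, ?_,
          Relation.ReflTransGen.refl⟩
        have h6 := old K'' (nx N a i) h1 (nx_snd_lt hi a) h4
        exact (h3.trans (Reg.eO hs hi h2 (nx_snd_ne a) h6)).trans (reg_eO_nx hs hi a).symm
  obtain ⟨K'', h1, h2, h3, h4⟩ := key _ h
  exact h3.trans (Reg.eO hs hi h2 hKi' (old K'' K' h1 hK' h4))

end Merge

/-- The start of a row. -/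
theorem start_row {L M : ℕ} (hL0 : 0 < L) {ω : Cfg} {y : ℤ} {p : ℕ → ℕ} (hs : NCO L p)
    (old : ∀ k l : ℤ, Conn (perC L ω) {f | y + 1 ≤ f.2 ∧ f.2 < M} (k, y + 1) (l, y + 1) →
      SameRegO L p k l) (K K' : ℤ × ℕ) (hK : K.2 < L + 2) (hK' : K'.2 < L + 2)
    (h : Conn (perC L ω) (Fr L M y 0) (Vf L y 0 K) (Vf L y 0 K')) :
    Reg (L + 2) (cupO L p) K K' := by
  obtain ⟨a, r⟩ := K
  obtain ⟨b, t⟩ := K'
  simp only at hK hK'
  by_cases hr : r = 0
  · subst hr
    have e : Vf L y 0 (a, 0) = (a * L + ((0 : ℕ) : ℤ), y) := by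
      unfold TwoD.Vf
      rw [if_pos le_rfl]
    rw [e] at h
    have h1 := conn_isolated (isolated_zero hL0 _) h
    rw [Vf_low hL0 le_rfl h1]
    exact Reg.refl _ _ _
  by_cases ht : t = 0
  · subst ht
    have e : Vf L y 0 (b, 0) = (b * L + ((0 : ℕ) : ℤ), y) := by
      unfold TwoD.Vf
      rw [if_pos le_rfl]
    rw [e] at h
    have h1 := conn_isolated (isolated_zero hL0 _) (conn_symm h)
    rw [Vf_low hL0 le_rfl h1]
    exact Reg.refl _ _ _
  have hF : Fr L M y 0 = {f : ℤ × ℤ | y + 1 ≤ f.2 ∧ f.2 < (M : ℤ)} := by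
    ext f
    unfold TwoD.Fr
    simp only [Set.mem_ofPred_eq]
    have := Int.emod_nonneg f.1 (show (L : ℤ) ≠ 0 by omega)
    omega
  have e1 : Vf L y 0 (a, r) = (a * L + ((r - 1 : ℕ) : ℤ), y + 1) := by
    unfold TwoD.Vf
    rw [if_neg (by simp only; omega)]
    simp only [Prod.mk.injEq, and_true]
    omega
  have e2 : Vf L y 0 (b, t) = (b * L + ((t - 1 : ℕ) : ℤ), y + 1) := by
    unfold TwoD.Vf
    rw [if_neg (by simp only; omega)]
    simp only [Prod.mk.injEq, and_true]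
    omega
  rw [hF, e1, e2] at h
  have h1 := old _ _ h
  intro c x hx
  by_cases hx0 : x = 0
  · subst hx0
    have d2 : cupO L p 0 = L + 1 := cupO_zero L p
    have d1 : dl (cupO L p) 0 = -1 := by
      unfold dl
      rw [labO_cupO_zero hs, d2]
      simp
    rw [d1, d2]
    refine ⟨fun e => absurd e (by omega), ?_⟩
    unfold TwoD.Lt
    simp only
    omega
  by_cases hx1 : x = L + 1
  · subst hx1
    have d2 : cupO L p (L + 1) = 0 := cupO_last L p
    have d1 : dl (cupO L p) (L + 1) = 1 := by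
      unfold dl
      rw [labO_cupO_last hs, d2]
      simp
    rw [d1, d2]
    refine ⟨fun e => absurd e (by omega), ?_⟩
    unfold TwoD.Lt
    simp only
    omega
  · obtain ⟨x, rfl⟩ : ∃ x', x = x' + 1 := ⟨x - 1, by omega⟩
    have hxL : x < L := by omega
    have d2 : cupO L p (x + 1) = p x + 1 := cupO_succ hxL p
    have l1 : labO (cupO L p) (x + 1) = labO p x := labO_cupO_succ hs hxL
    have d1 : dl (cupO L p) (x + 1) = dl p x := by
      unfold dl
      rw [d2, l1]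
      simp only [Nat.add_lt_add_iff_right]
    rw [d1, d2]
    have h2 := h1 (c * L + x)
    have hp := hs.lt x hxL
    rw [lift_fix_iff hs c hxL, lift_eq p c hxL, lt_iff' hxL (by omega), lt_iff' hp (by omega),
      lt_iff' hxL (by omega), lt_iff' hp (by omega)] at h2
    have q : ∀ (d : ℤ) (z : ℕ) (e : ℤ) (m : ℕ), m ≠ 0 →
        (Lt d (z + 1) (e, m) ↔ Lt d z (e, m - 1)) := by
      intro d z e m hm
      unfold TwoD.Lt
      simp only
      omega
    rw [q _ _ _ _ hr, q _ _ _ _ hr, q _ _ _ _ ht, q _ _ _ _ ht, Nat.add_left_inj]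
    exact h2

theorem nco_rowO {L : ℕ} {p : ℕ → ℕ} (h : NCO L p) (w : ℕ → Bool) {k : ℕ} (hk : k ≤ L) :
    NCO (L + 2) (rowO w k (Perc.cupO L p)) := by
  induction k with
  | zero => exact h.cupO
  | succ k ih =>
    have h2 := ih (by omega)
    change NCO (L + 2) (if w k then Perc.eO k (rowO w k (Perc.cupO L p))
      else rowO w k (Perc.cupO L p))
    split_ifs
    · exact h2.eO (by omega)
    · exact h2

/-- The faces of a row. -/
theorem row_step {L M : ℕ} (hL0 : 0 < L) {ω : Cfg} {y : ℤ} {p : ℕ → ℕ} (hs : NCO L p)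
    (old : ∀ k l : ℤ, Conn (perC L ω) {f | y + 1 ≤ f.2 ∧ f.2 < M} (k, y + 1) (l, y + 1) →
      SameRegO L p k l) (i : ℕ) (hi : i < L) (K K' : ℤ × ℕ) (hK : K.2 < L + 2)
    (hK' : K'.2 < L + 2) (h : Conn (perC L ω) (Fr L M y i) (Vf L y i K) (Vf L y i K')) :
    Reg (L + 2) (rowO (fun i => ω ((i : ℤ), y)) i (cupO L p)) K K' := by
  induction i generalizing K K' with
  | zero => exact start_row hL0 hs old K K' hK hK' h
  | succ i ih =>
    have ih' := ih (by omega)
    cases hw : ω ((i : ℤ), y) with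
    | false =>
      have e : rowO (fun i => ω ((i : ℤ), y)) (i + 1) (cupO L p) =
          rowO (fun i => ω ((i : ℤ), y)) i (cupO L p) := by
        simp only [rowO, hw]
        simp
      rw [e]
      have h1 := rho_conn hi hw h
      rw [rho_Vf hi, rho_Vf hi] at h1
      exact ih' K K' hK hK' h1
    | true =>
      have e : rowO (fun i => ω ((i : ℤ), y)) (i + 1) (cupO L p) =
          eO i (rowO (fun i => ω ((i : ℤ), y)) i (cupO L p)) := by
        simp only [rowO, hw]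
        simp
      rw [e]
      by_cases hr : K.2 = i + 1
      · have e1 : Vf L y (i + 1) K = (K.1 * L + ((i + 1 : ℕ) : ℤ), y) := by
          unfold TwoD.Vf
          rw [if_pos (by omega), hr]
        rw [e1] at h
        have h1 := conn_isolated (isolated_true hi hw _) h
        have h2 := Vf_low hi le_rfl h1
        have h3 : K' = K := by rw [h2, ← hr]
        rw [h3]
        exact Reg.refl _ _ _
      by_cases ht : K'.2 = i + 1
      · have e1 : Vf L y (i + 1) K' = (K'.1 * L + ((i + 1 : ℕ) : ℤ), y) := by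
          unfold TwoD.Vf
          rw [if_pos (by omega), ht]
        rw [e1] at h
        have h1 := conn_isolated (isolated_true hi hw _) (conn_symm h)
        have h2 := Vf_low hi le_rfl h1
        have h3 : K = K' := by rw [h2, ← ht]
        rw [h3]
        exact Reg.refl _ _ _
      have hV : ∀ Q : ℤ × ℕ, Q.2 ≠ i + 1 → Vf L y (i + 1) Q = Vf L y i Q := by
        intro Q hQ
        unfold TwoD.Vf
        by_cases hq : Q.2 ≤ i
        · rw [if_pos (by omega), if_pos hq]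
        · rw [if_neg (by omega), if_neg hq]
      rw [hV K hr, hV K' ht] at h
      refine merge_step (V := Vf L y i) (nco_rowO hs _ (by omega)) (by omega) ih' ?_ K K' hK hK'
        hr ht h
      intro u v hb
      rcases bond_Fr (by omega) hb with h1 | ⟨a, ⟨-, h2⟩ | ⟨h2, -⟩⟩
      · exact Or.inl h1
      · right
        refine ⟨a, ?_⟩
        have e1 : Vf L y i (a, i) = (a * L + i, y) := by
          unfold TwoD.Vf
          rw [if_pos le_rfl]
        have e2 : Vf L y i (nx (L + 2) a i) = (a * L + i + 1, y + 1) := by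
          unfold TwoD.nx
          rw [if_pos (by omega)]
          unfold TwoD.Vf
          rw [if_neg (by simp only; omega)]
          simp only [Prod.mk.injEq, and_true]
          push_cast
          ring
        rw [e1, e2]
        exact h2
      · rw [hw] at h2
        exact Bool.noConfusion h2

/-- The last face of a row. -/
theorem last_step {L M : ℕ} (hL0 : 0 < L) {ω : Cfg} {y : ℤ} (hyM : y < M) {p : ℕ → ℕ}
    (hs : NCO L p)
    (old : ∀ k l : ℤ, Conn (perC L ω) {f | y + 1 ≤ f.2 ∧ f.2 < M} (k, y + 1) (l, y + 1) →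
      SameRegO L p k l) (K K' : ℤ × ℕ) (hK : K.2 < L)
    (hK' : K'.2 < L) (h : Conn (perC L ω) {f | y ≤ f.2 ∧ f.2 < M} (K.1 * L + K.2, y)
      (K'.1 * L + K'.2, y)) :
    Reg (L + 2) (eO L (rowO (fun i => ω ((i : ℤ), y)) L (cupO L p))) K K' := by
  obtain ⟨n, rfl⟩ : ∃ n, L = n + 1 := ⟨L - 1, by omega⟩
  have hF : {f : ℤ × ℤ | y ≤ f.2 ∧ f.2 < (M : ℤ)} = Fr (n + 1) M y (n + 1) := by
    ext f
    unfold TwoD.Fr
    simp only [Set.mem_ofPred_eq]
    have := Int.emod_lt_of_pos f.1 (show (0 : ℤ) < ((n + 1 : ℕ) : ℤ) by omega)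
    omega
  have e0 : ∀ Q : ℤ × ℕ, Q.2 < n + 1 → (Q.1 * ((n + 1 : ℕ) : ℤ) + Q.2, y) = Vf (n + 1) y n Q := by
    intro Q hQ
    unfold TwoD.Vf
    rw [if_pos (by omega)]
  rw [hF, e0 K hK, e0 K' hK'] at h
  have ih := row_step hL0 hs old n (by omega)
  have hA : NCO (n + 1 + 2) (rowO (fun i => ω ((i : ℤ), y)) n (cupO (n + 1) p)) :=
    nco_rowO hs _ (by omega)
  cases hw : ω ((n : ℤ), y) with
  | false =>
    have e : rowO (fun i => ω ((i : ℤ), y)) (n + 1) (cupO (n + 1) p) =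
        rowO (fun i => ω ((i : ℤ), y)) n (cupO (n + 1) p) := by
      simp only [rowO, hw]
      simp
    rw [e]
    refine merge_step (V := Vf (n + 1) y n) hA (by omega) ih ?_ K K' (by omega) (by omega)
      (by omega) (by omega) h
    intro u v hb
    rcases bond_Fr (by omega) hb with h1 | ⟨a, ⟨h2, -⟩ | ⟨-, h2⟩⟩
    · exact Or.inl h1
    · rw [hw] at h2
      exact Bool.noConfusion h2
    · right
      refine ⟨a, ?_⟩
      have e1 : Vf (n + 1) y n (a, n + 1) = (a * ((n + 1 : ℕ) : ℤ) + n, y + 1) := by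
        unfold TwoD.Vf
        rw [if_neg (by omega)]
        simp only [Prod.mk.injEq, and_true]
        push_cast
        ring
      have e2 : Vf (n + 1) y n (nx (n + 1 + 2) a (n + 1)) =
          (a * ((n + 1 : ℕ) : ℤ) + n + 1, y) := by
        unfold TwoD.nx
        rw [if_neg (by omega)]
        unfold TwoD.Vf
        rw [if_pos (by simp only; omega)]
        simp only [Prod.mk.injEq, and_true]
        push_cast
        ring
      rw [e1, e2]
      exact h2
  | true =>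
    have e : rowO (fun i => ω ((i : ℤ), y)) (n + 1) (cupO (n + 1) p) =
        eO n (rowO (fun i => ω ((i : ℤ), y)) n (cupO (n + 1) p)) := by
      simp only [rowO, hw]
      simp
    rw [e]
    have h3 : Reg (n + 1 + 2) (eO n (rowO (fun i => ω ((i : ℤ), y)) n (cupO (n + 1) p))) K K' := by
      refine merge_step (V := Vf (n + 1) y n) hA (by omega) ih ?_ K K' (by omega) (by omega)
        (by omega) (by omega) h
      intro u v hb
      rcases bond_Fr (by omega) hb with h1 | ⟨a, ⟨-, h2⟩ | ⟨h2, -⟩⟩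
      · exact Or.inl h1
      · right
        refine ⟨a, ?_⟩
        have e1 : Vf (n + 1) y n (a, n) = (a * ((n + 1 : ℕ) : ℤ) + n, y) := by
          unfold TwoD.Vf
          rw [if_pos le_rfl]
        have e2 : Vf (n + 1) y n (nx (n + 1 + 2) a n) =
            (a * ((n + 1 : ℕ) : ℤ) + n + 1, y + 1) := by
          unfold TwoD.nx
          rw [if_pos (by omega)]
          unfold TwoD.Vf
          rw [if_neg (by simp only; omega)]
          simp only [Prod.mk.injEq, and_true]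
          push_cast
          ring
        rw [e1, e2]
        exact h2
      · rw [hw] at h2
        exact Bool.noConfusion h2
    exact Reg.eO (hA.eO (by omega)) (by omega) (by omega) (by omega) h3

theorem labO_resP {L : ℕ} {p : ℕ → ℕ} (h : NCO (L + 2) p) (h' : NCO L (resP L p)) {r : ℕ}
    (hr : r < L) : labO (resP L p) r = labO p r := by
  have e1 : resP L p r = p r := by simp [resP, hr]
  have e2 : thr (resP L p) = thr p := by
    have h1 := h'.thr_lt
    have h2 := h'.thr_fix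
    have e3 : resP L p (thr (resP L p)) = p (thr (resP L p)) := by simp [resP, h1]
    rw [e3] at h2
    exact (h.thr_eq (by omega) h2).symm
  unfold labO
  rw [e1, e2]

theorem reg_resP {L : ℕ} {p : ℕ → ℕ} (hp : NCO (L + 2) p) (hp' : NCO L (resP L p)) {K K' : ℤ × ℕ}
    (h : Reg (L + 2) p K K') : Reg L (resP L p) K K' := by
  intro a r hr
  have e1 : resP L p r = p r := by simp [resP, hr]
  have e2 : dl (resP L p) r = dl p r := by
    unfold dl
    rw [e1, labO_resP hp hp' hr]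
  rw [e1, e2]
  exact h a r (by omega)

/-- One row. -/
theorem row {L M : ℕ} (hL0 : 0 < L) {ω : Cfg} {y : ℤ} (hyM : y < M) {p : ℕ → ℕ} (hs : NCO L p)
    (old : ∀ k l : ℤ, Conn (perC L ω) {f | y + 1 ≤ f.2 ∧ f.2 < M} (k, y + 1) (l, y + 1) →
      SameRegO L p k l) (k l : ℤ)
    (h : Conn (perC L ω) {f | y ≤ f.2 ∧ f.2 < M} (k, y) (l, y)) :
    SameRegO L (trowO L (fun i => ω ((i : ℤ), y)) p) k l := by
  obtain ⟨a, r, hr, rfl⟩ := exists_block hL0 k
  obtain ⟨b, t, ht, rfl⟩ := exists_block hL0 l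
  rw [reg_iff (hs.trowO _) hr ht]
  exact reg_resP ((nco_rowO hs _ le_rfl).eO (by omega)) (hs.trowO _)
    (last_step hL0 hyM hs old (a, r) (b, t) hr ht h)

/-- The state at height `m`. -/
theorem run_inv {L M : ℕ} (hL0 : 0 < L) {ω : Cfg} (m : ℕ) (hm : m ≤ M) (p : ℕ → ℕ)
    (hs : NCO L p)
    (old : ∀ k l : ℤ, Conn (perC L ω) {f | (m : ℤ) ≤ f.2 ∧ f.2 < M} (k, m) (l, m) →
      SameRegO L p k l) (k l : ℤ)
    (h : Conn (perC L ω) {f | 0 ≤ f.2 ∧ f.2 < M} (k, 0) (l, 0)) :
    SameRegO L (runO L ω m p) k l := by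
  induction m generalizing p with
  | zero =>
    simp only [runO]
    refine old k l ?_
    simpa using h
  | succ m ih =>
    simp only [runO]
    refine ih (by omega) _ (hs.trowO _) ?_
    intro k l h1
    refine row hL0 (by omega) hs ?_ k l h1
    intro k l h2
    refine old k l ?_
    push_cast
    exact h2

end TwCup

/-- Vertices of height `0` which are connected in the upper half are in the same region of the
upper state. -/
theorem complete_upO (m : ℕ) (ω : Cfg) {k l : ℤ}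
    (h : Conn (perC (2 * m + 1) ω) {f | 0 ≤ f.2 ∧ f.2 < M} (k, 0) (l, 0)) :
    SameRegO (2 * m + 1) (upOS (2 * m + 1) M ω) k l := by
  refine TwCup.run_inv (Nat.succ_pos _) M le_rfl _ (nco_flatO (by omega)) ?_ k l h
  intro k l h1
  have h2 : ((l, (M : ℤ)) : ℤ × ℤ) = (k, (M : ℤ)) := by
    refine TwoD.conn_isolated ?_ h1
    rintro w ⟨x, y, hF, -⟩
    simp only [Set.mem_ofPred_eq] at hF
    omega
  have h3 : l = k := congrArg Prod.fst h2
  subst h3
  intro x
  exact ⟨fun _ => Iff.rfl, Iff.rfl⟩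

end Pool.Agent.Perc

end Partperc3TwCup

section Partperc3TwC

/-!
# The twisted cylinder: completeness of the two states (task TwC)

Model: perq/TwoD.lean (`complete_run`, `complete_low` is already there).
-/

set_option autoImplicit false

namespace Pool.Agent.Perc

open Finset

variable {m M : ℕ}

namespace TwC

theorem twV_snd (em : ℤ → ℤ) (v : ℤ × ℤ) : (twV em v).2 = v.2 := by
  unfold twV
  split_ifs with h
  · exact h.symm
  · rfl

theorem twV_ne {em : ℤ → ℤ} {v : ℤ × ℤ} (h : v.2 ≠ 0) : twV em v = v := by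
  unfold twV
  rw [if_neg h]

theorem twV_zero (em : ℤ → ℤ) {v : ℤ × ℤ} (h : v.2 = 0) : twV em v = (em v.1, 0) := by
  unfold twV
  rw [if_pos h]

/-- The upper bonds. -/
theorem bond_up {ω : Cfg} {u v : ℤ × ℤ}
    (h : Bond (perW m ω) {f | f ∈ strip M ∧ 0 ≤ f.2} u v) :
    Bond (perC (2 * m + 1) ω) {f | 0 ≤ f.2 ∧ f.2 < (M : ℤ)} u v ∧ 0 ≤ u.2 ∧ 0 ≤ v.2 := by
  obtain ⟨x, y, hF, hb⟩ := h
  simp only [strip, Set.mem_ofPred_eq] at hF
  have e : perW m ω (x, y) = perC (2 * m + 1) ω (x, y) := by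
    unfold perW perC
    simp only
    rw [if_pos hF.2]
    push_cast
    rfl
  rw [e] at hb
  refine ⟨⟨x, y, by simp only [Set.mem_ofPred_eq]; omega, hb⟩, ?_⟩
  rcases hb with ⟨-, ⟨rfl, rfl⟩ | ⟨rfl, rfl⟩⟩ | ⟨-, ⟨rfl, rfl⟩ | ⟨rfl, rfl⟩⟩ <;>
    simp only <;> omega

/-- The lower bonds. -/
theorem bond_lo {ω : Cfg} {u v : ℤ × ℤ}
    (h : Bond (perW m ω) {f | f ∈ strip M ∧ f.2 < 0} u v) :
    Bond (perC (2 * m) ω) {f | -(M : ℤ) ≤ f.2 ∧ f.2 < 0} u v ∧ u.2 ≤ 0 ∧ v.2 ≤ 0 := by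
  obtain ⟨x, y, hF, hb⟩ := h
  simp only [strip, Set.mem_ofPred_eq] at hF
  have e : perW m ω (x, y) = perC (2 * m) ω (x, y) := by
    unfold perW perC
    simp only
    rw [if_neg (by omega)]
    push_cast
    rfl
  rw [e] at hb
  refine ⟨⟨x, y, by simp only [Set.mem_ofPred_eq]; omega, hb⟩, ?_⟩
  rcases hb with ⟨-, ⟨rfl, rfl⟩ | ⟨rfl, rfl⟩⟩ | ⟨-, ⟨rfl, rfl⟩ | ⟨rfl, rfl⟩⟩ <;>
    simp only <;> omega

end TwC

/-- A connection in the strip decomposes into connections in the two halves (in upper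
coordinates). -/
theorem connW_strip (hm : 0 < m) (ω : Cfg) {k l : ℤ}
    (h : ConnW (emC m) (perW m ω) (strip M) (k, 0) (l, 0)) :
    Relation.ReflTransGen (fun k l : ℤ =>
      SameRegO (2 * m + 1) (upOS (2 * m + 1) M ω) k l ∨
        ∃ k' l', SameReg (2 * m) (loS (2 * m) M ω) k' l' ∧ k = emC m k' ∧ l = emC m l') k l := by
  set R : ℤ → ℤ → Prop := fun k l : ℤ =>
      SameRegO (2 * m + 1) (upOS (2 * m + 1) M ω) k l ∨
        ∃ k' l', SameReg (2 * m) (loS (2 * m) M ω) k' l' ∧ k = emC m k' ∧ l = emC m l' with hR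
  -- at height zero both normal forms give the same information
  have flat : ∀ u : ℤ × ℤ, u.2 = 0 →
      ((∃ j, Relation.ReflTransGen R k j ∧
        Conn (perC (2 * m + 1) ω) {f | 0 ≤ f.2 ∧ f.2 < (M : ℤ)} (j, 0) u) ∨
      (∃ j u', Relation.ReflTransGen R k (emC m j) ∧ u = twV (emC m) u' ∧
        Conn (perC (2 * m) ω) {f | -(M : ℤ) ≤ f.2 ∧ f.2 < 0} (j, 0) u')) →
      Relation.ReflTransGen R k u.1 := by
    intro u h0 hu
    rcases hu with ⟨j, hj, h1⟩ | ⟨j, u', hj, rfl, h1⟩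
    · refine hj.tail (Or.inl (complete_upO m ω ?_))
      have e : u = (u.1, 0) := Prod.ext rfl h0
      rw [← e]
      exact h1
    · rw [TwC.twV_snd] at h0
      rw [TwC.twV_zero _ h0]
      refine hj.tail (Or.inr ⟨j, u'.1, complete_low (by omega) (by omega) ω ?_, rfl, rfl⟩)
      have e : u' = (u'.1, 0) := Prod.ext rfl h0
      rw [← e]
      exact h1
  have key : ∀ u, ConnW (emC m) (perW m ω) (strip M) (k, 0) u →
      ((0 ≤ u.2 ∧ ∃ j, Relation.ReflTransGen R k j ∧
        Conn (perC (2 * m + 1) ω) {f | 0 ≤ f.2 ∧ f.2 < (M : ℤ)} (j, 0) u) ∨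
      (u.2 ≤ 0 ∧ ∃ j u', Relation.ReflTransGen R k (emC m j) ∧ u = twV (emC m) u' ∧
        Conn (perC (2 * m) ω) {f | -(M : ℤ) ≤ f.2 ∧ f.2 < 0} (j, 0) u')) := by
    intro u hu
    induction hu with
    | refl =>
      exact Or.inl ⟨le_rfl, k, Relation.ReflTransGen.refl, Relation.ReflTransGen.refl⟩
    | tail _ hb ih =>
      rename_i u v _
      have hz : u.2 = 0 → Relation.ReflTransGen R k u.1 := by
        intro h0
        refine flat u h0 ?_
        rcases ih with ⟨-, h1⟩ | ⟨-, h1⟩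
        · exact Or.inl h1
        · exact Or.inr h1
      rcases hb with hb | ⟨u', v', hb, hu', hv'⟩
      · obtain ⟨hb1, hu0, hv0⟩ := TwC.bond_up hb
        left
        refine ⟨hv0, ?_⟩
        rcases ih with ⟨-, j, hj, h1⟩ | ⟨h0, -⟩
        · exact ⟨j, hj, h1.tail hb1⟩
        · have h0' : u.2 = 0 := by omega
          have e : u = (u.1, 0) := Prod.ext rfl h0'
          refine ⟨u.1, hz h0', ?_⟩
          rw [← e]
          exact Relation.ReflTransGen.single hb1
      · obtain ⟨hb1, hu0, hv0⟩ := TwC.bond_lo hb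
        right
        have hus : u.2 = u'.2 := by rw [hu', TwC.twV_snd]
        refine ⟨by rw [hv', TwC.twV_snd]; exact hv0, ?_⟩
        by_cases h0 : u.2 = 0
        · have h1 : u'.2 = 0 := by omega
          have h2 := hz h0
          rw [hu', TwC.twV_zero _ h1] at h2
          refine ⟨u'.1, v', h2, hv', ?_⟩
          have e : u' = (u'.1, 0) := Prod.ext rfl h1
          rw [← e]
          exact Relation.ReflTransGen.single hb1
        · rcases ih with ⟨h1, -⟩ | ⟨-, j, u'', hj, h2, h1⟩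
          · exact absurd (by omega) h0
          · have h3 : u''.2 = u.2 := by rw [h2, TwC.twV_snd]
            have h4 : u'' = u' := by
              rw [← TwC.twV_ne (em := emC m) (v := u'') (by omega), ← h2, hu']
              exact TwC.twV_ne (by omega)
            subst h4
            exact ⟨j, v', hj, hv', h1.tail hb1⟩
  refine flat (l, 0) rfl ?_
  rcases key _ h with ⟨-, h1⟩ | ⟨-, h1⟩
  · exact Or.inl h1
  · exact Or.inr h1

end Pool.Agent.Perc

end Partperc3TwC

section Partperc3TwD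

/-!
# The twisted cylinder: wrapping core clusters give the three-leg event (task TwD)

Suppose the event fails. Let `a, b` be two `D`-nodes which are joined (`exists_joined`); the parity
of the path is even and unique. Let `G` be the set of the lifted upper sites `q * (2 m + 1) + r`
with `PR … (a, false) (r, parity of q)` and `G'` the set of the lifted lower sites
`q * 2 m + r` with `PR … (a, false) (node of r, parity of q)`. They are closed under the lifted
partner maps and agree at the common sites; in the periods `q` with `q` even both `a` and `b` belong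
to them, in the periods with `q` odd no `D`-node does. Hence the number of elements modulo 2
between two gaps gives a potential `h` on the gaps which is the same for the two halves, constant
on the clusters. The three vertices of the cores between the periods `-1, 0` and `1, 2` have the
same value, and these two values are equal by the wrapping core vertex; every vertex of the core
between the periods `0, 1` is connected to one of these cores, so it has the same value, too. But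
then the `D`-sites between them do not belong to `G`.
-/

set_option autoImplicit false

namespace Pool.Agent.Perc

open Finset

variable {m M : ℕ}

namespace TwD

open TwoE

variable {N : ℕ} {u : St}

theorem jump_partner (hu : LInv u) (r : ℕ) : jump u (u.1 r) = - jump u r := by
  unfold jump
  rw [hu.lab, hu.inv]
  by_cases h : u.2 r = true
  · have h1 : u.1 r ≠ r := by
      intro e
      rw [hu.fix r e] at h
      exact absurd h (by decide)
    rw [if_pos h, if_pos h]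
    split_ifs <;> omega
  · rw [if_neg h, if_neg h]
    rfl

theorem lift_lift (hN : 0 < N) (hu : LInv u) (hlt : ∀ x < N, u.1 x < N) (x : ℤ) :
    liftS N u (liftS N u x) = x := by
  have hr := toNat_emod_lt hN x
  rw [liftS_eq (N := N) u x, liftS_form hN u _ (hlt _ hr), jump_partner hu, hu.inv]
  conv_rhs => rw [eq_div_add hN x]
  ring

open Classical in
theorem sum_even (hN : 0 < N) (hu : LInv u) (hlt : ∀ x < N, u.1 x < N) {G : ℤ → Prop}
    (hG : ∀ x, G x → G (liftS N u x)) {k l : ℤ}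
    (h : ∀ x : ℤ, (liftS N u x = x → (x < k ↔ x < l)) ∧
      ((x < k ↔ liftS N u x < k) ↔ (x < l ↔ liftS N u x < l))) :
    (∑ x ∈ Ico k l, (if G x then 1 else 0 : ZMod 2)) = 0 := by
  have hG' : ∀ x, G (liftS N u x) ↔ G x := by
    intro x
    refine ⟨fun h => ?_, hG x⟩
    have := hG _ h
    rwa [lift_lift hN hu hlt] at this
  refine Finset.sum_involution (fun x _ => liftS N u x) ?_ ?_ ?_ ?_
  · intro x _
    simp only [hG' x]
    split_ifs
    · decide
    · decide
  · intro x hx _ he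
    have := (h x).1 he
    rw [mem_Ico] at hx
    omega
  · intro x hx
    have := (h x).2
    rw [mem_Ico] at hx ⊢
    omega
  · intro x _
    exact lift_lift hN hu hlt x

theorem pot_eqO (hN : 0 < N) (hu : LInv u) (hlt : ∀ x < N, u.1 x < N) {G : ℤ → Prop}
    (hG : ∀ x, G x → G (liftS N u x)) {k l : ℤ}
    (h : ∀ x : ℤ, (liftS N u x = x → (x < k ↔ x < l)) ∧
      ((x < k ↔ liftS N u x < k) ↔ (x < l ↔ liftS N u x < l))) : TwoE.pot G k = TwoE.pot G l := by
  classical
  rcases le_total k l with hkl | hkl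
  · rw [← pot_add G hkl, sum_even hN hu hlt hG h, add_zero]
  · rw [← pot_add G hkl, sum_even hN hu hlt hG (fun x => ⟨fun e => ((h x).1 e).symm,
      ((h x).2).symm⟩), add_zero]

theorem pot_succ (G : ℤ → Prop) [DecidablePred G] (k : ℤ) :
    TwoE.pot G (k + 1) = TwoE.pot G k + (if G k then 1 else 0) := by
  classical
  rw [← pot_add G (show k ≤ k + 1 by omega)]
  have i0 : Ico k (k + 1) = {k} := by ext x; simp only [mem_Ico, mem_singleton]; omega
  rw [i0, sum_singleton]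
  congr

/-- The set of the lifted sites of one half; `f` gives the nodes of the sites. -/
def GG (u d : St) (a : ℕ) (N : ℕ) (f : ℕ → ℕ) (x : ℤ) : Prop :=
  PR u d (a, false) (f (x % N).toNat, decide ((x / N) % 2 = 1))

theorem GG_form (hN : 0 < N) (u d : St) (a : ℕ) (f : ℕ → ℕ) (q : ℤ) {r : ℕ} (hr : r < N) :
    GG u d a N f (q * N + r) ↔ PR u d (a, false) (f r, decide (q % 2 = 1)) := by
  unfold GG
  rw [div_of_form hN q hr, mod_of_form q hr]

theorem GG_closed {d v : St} {a : ℕ} {f : ℕ → ℕ} (hN : 0 < N) (hlt : ∀ x < N, v.1 x < N)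
    (hstep : ∀ r < N, ∀ ε, PR u d (f r, ε) (f (v.1 r), xor ε (v.2 r))) {x : ℤ}
    (h : GG u d a N f x) : GG u d a N f (liftS N v x) := by
  have hr := toNat_emod_lt hN x
  rw [liftS_eq, GG_form hN _ _ _ _ _ (hlt _ hr)]
  refine PR.trans h ?_
  have h1 := hstep _ hr (decide (x / N % 2 = 1))
  have h2 : xor (decide (x / N % 2 = 1)) (v.2 (x % N).toNat) =
      decide ((x / N + jump v (x % N).toNat) % 2 = 1) := by
    unfold jump
    by_cases h3 : v.2 (x % N).toNat = true
    · rw [h3, if_pos rfl, Bool.xor_true, ← decide_not]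
      apply decide_eq_decide.2
      split_ifs <;> omega
    · rw [if_neg h3, add_zero]
      rw [Bool.not_eq_true] at h3
      rw [h3, Bool.xor_false]
  rw [← h2]
  exact h1

theorem emC_form (hm : 0 < m) (q : ℤ) {r : ℕ} (hr : r < 2 * m) :
    emC m (q * ((2 * m : ℕ) : ℤ) + r) = q * ((2 * m + 1 : ℕ) : ℤ) + r := by
  unfold emC
  have h1 := div_of_form (show 0 < 2 * m by omega) q hr
  have h2 := Int.emod_nonneg (q * ((2 * m : ℕ) : ℤ) + r) (show (((2 * m : ℕ) : ℤ)) ≠ 0 by omega)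
  have h3 := mod_of_form (N := 2 * m) q hr
  have h4 : (q * ((2 * m : ℕ) : ℤ) + r) % ((2 * m : ℕ) : ℤ) = r := by omega
  have e : (2 * (m : ℤ)) = ((2 * m : ℕ) : ℤ) := by push_cast; ring
  rw [e, h1, h4]
  push_cast
  ring

/-- The potentials of the two halves agree. -/
theorem pot_em (hm : 0 < m) {G G' : ℤ → Prop} [DecidablePred G] [DecidablePred G']
    (hc : ∀ (q : ℤ) (r : ℕ), r + 1 < 2 * m →
      (G (q * ((2 * m + 1 : ℕ) : ℤ) + r) ↔ G' (q * ((2 * m : ℕ) : ℤ) + r)))
    (hd : ∀ q : ℤ, ((if G (q * ((2 * m + 1 : ℕ) : ℤ) + ((2 * m - 1 : ℕ) : ℤ)) then 1 else 0 :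
        ZMod 2)) + (if G (q * ((2 * m + 1 : ℕ) : ℤ) + ((2 * m : ℕ) : ℤ)) then 1 else 0) =
      if G' (q * ((2 * m : ℕ) : ℤ) + ((2 * m - 1 : ℕ) : ℤ)) then 1 else 0) (k : ℤ) :
    TwoE.pot G (emC m k) = TwoE.pot G' k := by
  have hN : 0 < 2 * m := by omega
  have step : ∀ k : ℤ, TwoE.pot G (emC m (k + 1)) + TwoE.pot G' k = TwoE.pot G (emC m k) + TwoE.pot G' (k + 1) := by
    intro k
    obtain ⟨q, r, hr, rfl⟩ : ∃ (q : ℤ) (r : ℕ), r < 2 * m ∧ k = q * ((2 * m : ℕ) : ℤ) + r :=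
      ⟨k / ((2 * m : ℕ) : ℤ), (k % ((2 * m : ℕ) : ℤ)).toNat, toNat_emod_lt hN k, eq_div_add hN k⟩
    rw [emC_form hm q hr, pot_succ G']
    by_cases h1 : r + 1 < 2 * m
    · have e1 : q * ((2 * m : ℕ) : ℤ) + r + 1 = q * ((2 * m : ℕ) : ℤ) + ((r + 1 : ℕ) : ℤ) := by
        push_cast; ring
      rw [e1, emC_form hm q h1]
      have e2 : q * ((2 * m + 1 : ℕ) : ℤ) + ((r + 1 : ℕ) : ℤ) =
          (q * ((2 * m + 1 : ℕ) : ℤ) + r) + 1 := by push_cast; ring
      rw [e2, pot_succ G]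
      have h2 := hc q r h1
      by_cases h3 : G (q * ((2 * m + 1 : ℕ) : ℤ) + r)
      · rw [if_pos h3, if_pos (h2.1 h3)]; ring
      · rw [if_neg h3, if_neg (fun h => h3 (h2.2 h))]; ring
    · obtain rfl : r = 2 * m - 1 := by omega
      have e1 : q * ((2 * m : ℕ) : ℤ) + ((2 * m - 1 : ℕ) : ℤ) + 1 =
          (q + 1) * ((2 * m : ℕ) : ℤ) + ((0 : ℕ) : ℤ) := by
        have : ((2 * m - 1 : ℕ) : ℤ) = ((2 * m : ℕ) : ℤ) - 1 := by omega
        rw [this]; push_cast; ring
      rw [e1, emC_form hm (q + 1) hN]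
      have e2 : (q + 1) * ((2 * m + 1 : ℕ) : ℤ) + ((0 : ℕ) : ℤ) =
          (q * ((2 * m + 1 : ℕ) : ℤ) + ((2 * m : ℕ) : ℤ)) + 1 := by push_cast; ring
      have e3 : q * ((2 * m + 1 : ℕ) : ℤ) + ((2 * m : ℕ) : ℤ) =
          (q * ((2 * m + 1 : ℕ) : ℤ) + ((2 * m - 1 : ℕ) : ℤ)) + 1 := by
        have : ((2 * m - 1 : ℕ) : ℤ) = ((2 * m : ℕ) : ℤ) - 1 := by omega
        rw [this]; ring
      rw [e2, pot_succ G, ← hd q]
      conv_lhs => rw [e3, pot_succ G, ← e3]
      ring
  have step' : ∀ k : ℤ, TwoE.pot G (emC m (k + 1)) - TwoE.pot G' (k + 1) = TwoE.pot G (emC m k) - TwoE.pot G' k := by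
    intro k
    linear_combination step k
  have h0 : emC m 0 = 0 := by unfold emC; simp
  have key : ∀ k : ℤ, TwoE.pot G (emC m k) - TwoE.pot G' k = 0 := by
    intro k
    induction k using Int.induction_on with
    | zero => rw [h0]; simp [TwoE.pot]
    | succ k ih => rw [step', ih]
    | pred k ih =>
      have h1 := step' (-(k : ℤ) - 1)
      rw [sub_add_cancel, ih] at h1
      exact h1.symm
  exact sub_eq_zero.1 (key k)

/-- The relation of the two families of regions. -/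
def RR (m : ℕ) (s : St) (p : ℕ → ℕ) (k l : ℤ) : Prop :=
  SameRegO (2 * m + 1) p k l ∨ ∃ k' l', SameReg (2 * m) s k' l' ∧ k = emC m k' ∧ l = emC m l'

theorem emC_add (hm : 0 < m) (k : ℤ) : emC m (k + ((2 * m : ℕ) : ℤ)) = emC m k + (2 * m + 1) := by
  have hN : 0 < 2 * m := by omega
  obtain ⟨q, r, hr, rfl⟩ : ∃ (q : ℤ) (r : ℕ), r < 2 * m ∧ k = q * ((2 * m : ℕ) : ℤ) + r :=
    ⟨k / ((2 * m : ℕ) : ℤ), (k % ((2 * m : ℕ) : ℤ)).toNat, toNat_emod_lt hN k, eq_div_add hN k⟩
  have e : q * ((2 * m : ℕ) : ℤ) + r + ((2 * m : ℕ) : ℤ) = (q + 1) * ((2 * m : ℕ) : ℤ) + r := by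
    ring
  rw [e, emC_form hm _ hr, emC_form hm _ hr]
  push_cast
  ring

theorem RR_add (hm : 0 < m) {s : St} {p : ℕ → ℕ} {k l : ℤ} (h : RR m s p k l) :
    RR m s p (k + (2 * m + 1)) (l + (2 * m + 1)) := by
  rcases h with h | ⟨k', l', h, rfl, rfl⟩
  · refine Or.inl fun x => ?_
    have h1 := h (x - (2 * m + 1))
    have h2 : liftO (2 * m + 1) p (x - (2 * m + 1)) = liftO (2 * m + 1) p x - (2 * m + 1) := by
      have h3 := liftS_add_mul (N := 2 * m + 1) (by omega) (upO p) x (-1)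
      have h4 : x + -1 * ((2 * m + 1 : ℕ) : ℤ) = x - (2 * m + 1) := by push_cast; ring
      rw [h4] at h3
      have h5 : ∀ y, liftO (2 * m + 1) p y = liftS (2 * m + 1) (upO p) y := fun y => rfl
      rw [h5, h5, h3]
      push_cast
      ring
    rw [h2] at h1
    omega
  · refine Or.inr ⟨k' + ((2 * m : ℕ) : ℤ), l' + ((2 * m : ℕ) : ℤ), fun x => ?_, ?_, ?_⟩
    · have h1 := h (x - ((2 * m : ℕ) : ℤ))
      have h3 := liftS_add_mul (N := 2 * m) (by omega) s x (-1)
      have h4 : x + -1 * ((2 * m : ℕ) : ℤ) = x - ((2 * m : ℕ) : ℤ) := by ring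
      rw [h4] at h3
      rw [h3] at h1
      omega
    · rw [emC_add hm]
    · rw [emC_add hm]

theorem RRs_add (hm : 0 < m) {s : St} {p : ℕ → ℕ} {k l : ℤ}
    (h : Relation.ReflTransGen (RR m s p) k l) :
    Relation.ReflTransGen (RR m s p) (k + (2 * m + 1)) (l + (2 * m + 1)) := by
  induction h with
  | refl => exact Relation.ReflTransGen.refl
  | tail _ h1 ih => exact ih.tail (RR_add hm h1)

/-- The node of a lower site. -/
theorem dn_step (n : ℕ) (s u : St) (r : ℕ) (ε : Bool) :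
    PR u (dnO n s) (Equiv.swap n (n + 2) r, ε) (Equiv.swap n (n + 2) (s.1 r), xor ε (s.2 r)) := by
  have h := PR.stepD (u := u) (d := dnO n s) (Equiv.swap n (n + 2) r) ε
  have e1 : (dnO n s).1 (Equiv.swap n (n + 2) r) = Equiv.swap n (n + 2) (s.1 r) := by
    show Equiv.swap n (n + 2) (s.1 (Equiv.swap n (n + 2) (Equiv.swap n (n + 2) r))) = _
    rw [Equiv.swap_apply_self]
  have e2 : (dnO n s).2 (Equiv.swap n (n + 2) r) = s.2 r := by
    show s.2 (Equiv.swap n (n + 2) (Equiv.swap n (n + 2) r)) = _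
    rw [Equiv.swap_apply_self]
  rw [e1, e2] at h
  exact h

end TwD

open TwD TwoE in
/-- Combinatorial form. -/
theorem tri_of_regions {s : St} {p : ℕ → ℕ} (hm : 0 < m) (hs : IsAnn (2 * m) s)
    (hp : NCO (2 * m + 1) p)
    {E : ℤ → ℤ → Prop} (hE : ∀ k l, E k l → Relation.ReflTransGen (fun k l : ℤ =>
      SameRegO (2 * m + 1) p k l ∨ ∃ k' l', SameReg (2 * m) s k' l' ∧ k = emC m k' ∧ l = emC m l')
      k l)
    (h1 : ∀ x, Core x → ∃ x' s, Core x' ∧ (s = 1 ∨ s = -1) ∧ E x (x' + s * (2 * m + 1)))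
    (h2 : ∃ x, Core x ∧ E x (x + (2 * m + 1))) :
    Tri (2 * m - 1) (upO p) (dnO (2 * m - 1) s) := by
  classical
  obtain ⟨n, hn⟩ : ∃ n, 2 * m = n + 1 := ⟨2 * m - 1, by omega⟩
  have hn1 : 2 * m - 1 = n := by omega
  rw [hn1]
  by_contra hT
  have hs' : IsAnn (n + 1) s := by rw [← hn]; exact hs
  have hp' : NCO (n + 2) p := by
    have e : n + 2 = 2 * m + 1 := by omega
    rw [e]; exact hp
  obtain ⟨a, b, ε, ha1, ha2, hb1, hb2, hab, hP, -⟩ := exists_joined hs' hp'
  have hu : LInv (upO p) := LInv.upO hp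
  have hd : LInv (dnO n s) := (LInv.ann hs).dnO n
  have hε : ε = false := by
    cases ε
    · rfl
    · exact absurd ⟨a, b, ha1, ha2, hb1, hb2, hab, hP⟩ hT
  subst hε
  have hfix : ∀ x, n ≤ x → x < n + 3 → (upO p).1 x = x ∨ (dnO n s).1 x = x := by
    intro x hx1 hx2
    have hx : x = n ∨ x = n + 1 ∨ x = n + 2 := by omega
    rcases hx with rfl | rfl | rfl
    · right
      show Equiv.swap x (x + 2) (s.1 (Equiv.swap x (x + 2) x)) = x
      rw [Equiv.swap_apply_left, hs'.nc.out (x + 2) (by omega), Equiv.swap_apply_right]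
    · right
      show Equiv.swap n (n + 2) (s.1 (Equiv.swap n (n + 2) (n + 1))) = n + 1
      have e : Equiv.swap n (n + 2) (n + 1) = n + 1 :=
        Equiv.swap_apply_of_ne_of_ne (by omega) (by omega)
      rw [e, hs'.nc.out (n + 1) (by omega), e]
    · left
      exact hp'.out (n + 2) (by omega)
  have huN : ∀ x < n + 3, (upO p).1 x < n + 3 := by
    intro x hx
    show p x < n + 3
    rcases Nat.lt_or_ge x (n + 2) with h | h
    · have := hp'.lt x h; omega
    · rw [hp'.out x h]; exact hx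
  have hsw : ∀ y < n + 3, Equiv.swap n (n + 2) y < n + 3 := by
    intro y hy
    rw [Equiv.swap_apply_def]
    split_ifs <;> omega
  have hdN : ∀ x < n + 3, (dnO n s).1 x < n + 3 := by
    intro x hx
    show Equiv.swap n (n + 2) (s.1 (Equiv.swap n (n + 2) x)) < n + 3
    apply hsw
    rcases Nat.lt_or_ge (Equiv.swap n (n + 2) x) (n + 1) with h | h
    · have := hs'.nc.lt _ h; omega
    · rw [hs'.nc.out _ h]; exact hsw x hx
  have hodd : ∀ x, n ≤ x → x < n + 3 → ¬ PR (upO p) (dnO n s) (a, false) (x, true) := by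
    intro x hx1 hx2 h
    by_cases hxa : x = a
    · subst hxa
      have := PR.parity_unique hu hd huN hdN ha2 (hfix x ha1 ha2) h (PR.refl _ _ _)
      exact absurd this (by decide)
    · exact hT ⟨a, x, ha1, ha2, hx1, hx2, fun e => hxa e.symm, h⟩
  have hev : ∀ x, n ≤ x → x < n + 3 →
      (PR (upO p) (dnO n s) (a, false) (x, false) ↔ (x = a ∨ x = b)) := by
    intro x hx1 hx2
    constructor
    · intro h
      have := PR.two_ends hu hd huN hdN ha2 (hfix a ha1 ha2) (hfix b hb1 hb2) (hfix x hx1 hx2) hP h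
      rcases this with h | h | h
      · exact absurd h hab
      · exact Or.inl h.symm
      · exact Or.inr h.symm
    · rintro (rfl | rfl)
      · exact PR.refl _ _ _
      · exact hP
  have hN : 0 < 2 * m := by omega
  have hN1 : 0 < 2 * m + 1 := by omega
  set G : ℤ → Prop := GG (upO p) (dnO n s) a (2 * m + 1) id with hGdef
  set G' : ℤ → Prop := GG (upO p) (dnO n s) a (2 * m) (Equiv.swap n (n + 2)) with hG'def
  have hG : ∀ x, G x → G (liftS (2 * m + 1) (upO p) x) := fun x hx =>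
    GG_closed hN1 hp.lt (fun r _ ε => PR.stepU r ε) hx
  have hG' : ∀ x, G' x → G' (liftS (2 * m) s x) := fun x hx =>
    GG_closed hN hs.nc.lt (fun r _ ε => dn_step n s (upO p) r ε) hx
  have hGform : ∀ (q : ℤ) (r : ℕ), r < 2 * m + 1 → (G (q * ((2 * m + 1 : ℕ) : ℤ) + r) ↔
      PR (upO p) (dnO n s) (a, false) (r, decide (q % 2 = 1))) := fun q r hr =>
    GG_form hN1 _ _ _ _ _ hr
  have hpot : ∀ k, TwoE.pot G (emC m k) = TwoE.pot G' k := by
    refine pot_em hm ?_ ?_
    · intro q r hr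
      rw [hGform q r (by omega), hG'def, GG_form hN _ _ _ _ _ (by omega),
        Equiv.swap_apply_of_ne_of_ne (by omega) (by omega)]
    · intro q
      have e1 : G (q * ((2 * m + 1 : ℕ) : ℤ) + ((2 * m - 1 : ℕ) : ℤ)) ↔
          PR (upO p) (dnO n s) (a, false) (n, decide (q % 2 = 1)) := by
        rw [hn1]; exact hGform q n (by omega)
      have e2 : G (q * ((2 * m + 1 : ℕ) : ℤ) + ((2 * m : ℕ) : ℤ)) ↔
          PR (upO p) (dnO n s) (a, false) (n + 1, decide (q % 2 = 1)) := by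
        have := hGform q (2 * m) (by omega)
        rw [this, hn]
      have e3 : G' (q * ((2 * m : ℕ) : ℤ) + ((2 * m - 1 : ℕ) : ℤ)) ↔
          PR (upO p) (dnO n s) (a, false) (n + 2, decide (q % 2 = 1)) := by
        rw [hG'def, hn1, GG_form hN _ _ _ _ _ (by omega), Equiv.swap_apply_left]
      simp only [e1, e2, e3]
      by_cases hq : q % 2 = 1
      · rw [decide_eq_true hq, if_neg (hodd n (by omega) (by omega)),
          if_neg (hodd (n + 1) (by omega) (by omega)), if_neg (hodd (n + 2) (by omega) (by omega)),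
          add_zero]
      · rw [decide_eq_false hq]
        simp only [hev n (by omega) (by omega), hev (n + 1) (by omega) (by omega),
          hev (n + 2) (by omega) (by omega)]
        have ha : a = n ∨ a = n + 1 ∨ a = n + 2 := by omega
        have hb : b = n ∨ b = n + 1 ∨ b = n + 2 := by omega
        have h11 : (1 : ZMod 2) + 1 = 0 := by decide
        rcases ha with rfl | rfl | rfl <;> rcases hb with rfl | rfl | rfl <;>
          first | exact absurd rfl hab | simp [h11]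
  have hR : ∀ k l, RR m s p k l → TwoE.pot G k = TwoE.pot G l := by
    rintro k l (h | ⟨k', l', h, rfl, rfl⟩)
    · exact pot_eqO hN1 hu hp.lt hG h
    · rw [hpot, hpot]
      exact TwoE.pot_eq hN hs hG' h
  have hRs : ∀ k l, Relation.ReflTransGen (RR m s p) k l → TwoE.pot G k = TwoE.pot G l := by
    intro k l h
    induction h with
    | refl => rfl
    | tail _ h ih => rw [ih]; exact hR _ _ h
  have hE' : ∀ k l, E k l → Relation.ReflTransGen (RR m s p) k l := hE
  -- the cores between the periods `-1, 0` and `1, 2`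
  have hcore : ∀ (q : ℤ), q % 2 = 1 → ∀ x, Core x →
      TwoE.pot G (x + (q + 1) * (2 * m + 1)) = TwoE.pot G ((q + 1) * (2 * m + 1)) := by
    intro q hq x hx
    have g1 : ¬ G (-2 + (q + 1) * (2 * m + 1)) := by
      have e : -2 + (q + 1) * (2 * (m : ℤ) + 1) = q * ((2 * m + 1 : ℕ) : ℤ) + (n : ℤ) := by
        have : (n : ℤ) = 2 * m - 1 := by omega
        rw [this]; push_cast; ring
      rw [e, hGform q n (by omega), decide_eq_true hq]
      exact hodd n (by omega) (by omega)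
    have g2 : ¬ G (-1 + (q + 1) * (2 * m + 1)) := by
      have e : -1 + (q + 1) * (2 * (m : ℤ) + 1) = q * ((2 * m + 1 : ℕ) : ℤ) + ((n + 1 : ℕ) : ℤ) := by
        have : (n : ℤ) = 2 * m - 1 := by omega
        push_cast
        rw [this]; ring
      rw [e, hGform q (n + 1) (by omega), decide_eq_true hq]
      exact hodd (n + 1) (by omega) (by omega)
    have p1 := pot_succ G (-2 + (q + 1) * (2 * m + 1))
    have p2 := pot_succ G (-1 + (q + 1) * (2 * m + 1))
    rw [if_neg g1, add_zero] at p1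
    rw [if_neg g2, add_zero] at p2
    have e1 : -2 + (q + 1) * (2 * (m : ℤ) + 1) + 1 = -1 + (q + 1) * (2 * m + 1) := by ring
    have e2 : -1 + (q + 1) * (2 * (m : ℤ) + 1) + 1 = (q + 1) * (2 * m + 1) := by ring
    rw [e1] at p1
    rw [e2] at p2
    rcases hx with rfl | rfl | rfl
    · rw [← p1, ← p2]
    · exact p2.symm
    · rw [zero_add]
  have hc0 : ∀ x, Core x → TwoE.pot G x = TwoE.pot G 0 := by
    intro x hx
    have := hcore (-1) (by decide) x hx
    simpa using this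
  have hc2 : ∀ x, Core x → TwoE.pot G (x + 2 * (2 * m + 1)) = TwoE.pot G (2 * (2 * m + 1)) := by
    intro x hx
    have := hcore 1 (by decide) x hx
    simpa [one_add_one_eq_two] using this
  have hz : TwoE.pot G 0 = TwoE.pot G (2 * (2 * m + 1)) := by
    obtain ⟨x, hx, h⟩ := h2
    have k1 := hE' _ _ h
    have k2 := hRs _ _ (RRs_add hm k1)
    have k3 := hRs _ _ k1
    have e : x + (2 * (m : ℤ) + 1) + (2 * m + 1) = x + 2 * (2 * m + 1) := by ring
    rw [← hc0 x hx, k3, k2, e, hc2 x hx]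
  have hc1 : ∀ x, Core x → TwoE.pot G (x + (2 * m + 1)) = TwoE.pot G 0 := by
    intro x hx
    obtain ⟨x', t, hx', ht, h⟩ := h1 x hx
    have k2 := hRs _ _ (RRs_add hm (hE' _ _ h))
    rw [k2]
    rcases ht with rfl | rfl
    · have e : x' + 1 * (2 * (m : ℤ) + 1) + (2 * m + 1) = x' + 2 * (2 * m + 1) := by ring
      rw [e, hc2 x' hx', hz]
    · have e : x' + -1 * (2 * (m : ℤ) + 1) + (2 * m + 1) = x' := by ring
      rw [e, hc0 x' hx']
  have g1 : ¬ G (-2 + (2 * m + 1)) := by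
    intro h
    have p1 := pot_succ G (-2 + (2 * m + 1))
    have e : -2 + (2 * (m : ℤ) + 1) + 1 = -1 + (2 * m + 1) := by ring
    rw [e, if_pos h, hc1 _ (Or.inl rfl), hc1 _ (Or.inr (Or.inl rfl))] at p1
    have : ∀ a : ZMod 2, a ≠ a + 1 := by decide
    exact this _ p1
  have g2 : ¬ G (-1 + (2 * m + 1)) := by
    intro h
    have p1 := pot_succ G (-1 + (2 * m + 1))
    have e : -1 + (2 * (m : ℤ) + 1) + 1 = 0 + (2 * m + 1) := by ring
    rw [e, if_pos h, hc1 _ (Or.inr (Or.inl rfl)), hc1 _ (Or.inr (Or.inr rfl))] at p1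
    have : ∀ a : ZMod 2, a ≠ a + 1 := by decide
    exact this _ p1
  have e1 : -2 + (2 * (m : ℤ) + 1) = 0 * ((2 * m + 1 : ℕ) : ℤ) + (n : ℤ) := by
    have : (n : ℤ) = 2 * m - 1 := by omega
    rw [this]; ring
  have e2 : -1 + (2 * (m : ℤ) + 1) = 0 * ((2 * m + 1 : ℕ) : ℤ) + ((n + 1 : ℕ) : ℤ) := by
    have : (n : ℤ) = 2 * m - 1 := by omega
    push_cast
    rw [this]; ring
  have hf : decide ((0 : ℤ) % 2 = 1) = false := by decide
  rw [e1, hGform 0 n (by omega), hf, hev n (by omega) (by omega)] at g1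
  rw [e2, hGform 0 (n + 1) (by omega), hf, hev (n + 1) (by omega) (by omega)] at g2
  omega

theorem tri_of_wrap3 (hm : 0 < m) {ω : Cfg} (h : ω ∈ Wrap3 m M) :
    Tri (2 * m - 1) (upO (upOS (2 * m + 1) M ω)) (dnO (2 * m - 1) (loS (2 * m) M ω)) := by
  have hs : IsAnn (2 * m) (loS (2 * m) M ω) :=
    TwoE.isAnn_run (lowC ω) M _ (isAnn_s0 (by omega))
  have hp : NCO (2 * m + 1) (upOS (2 * m + 1) M ω) :=
    TwoO.nco_runO _ _ _ (nco_flatO (by omega))
  exact tri_of_regions hm hs hp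
    (E := fun k l => ConnW (emC m) (perW m ω) (strip M) (k, 0) (l, 0))
    (fun k l hkl => connW_strip hm ω hkl) h.1 h.2

end Pool.Agent.Perc

end Partperc3TwD

section Partperc3TwE

/-!
# The twisted cylinder: the two exact bounds (task TwE)

Models: perq/TwoC.lean (`p2_ge_exSt`), perq/TwoF.lean.
-/

set_option autoImplicit false

namespace Pool.Agent.Perc

open Finset Filter Topology

namespace TwE

theorem bondW_congr {em : ℤ → ℤ} {ω ω' : Cfg} {F F' : Set (ℤ × ℤ)} (hF : F ⊆ F')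
    (h : ∀ f ∈ F, ω f = ω' f) {u v : ℤ × ℤ} (hb : BondW em ω F u v) : BondW em ω' F' u v := by
  rcases hb with ⟨x, y, hm, hh⟩ | ⟨u', v', ⟨x, y, hm, hh⟩, hu, hv⟩
  · rw [h _ hm.1] at hh
    exact Or.inl ⟨x, y, ⟨hF hm.1, hm.2⟩, hh⟩
  · rw [h _ hm.1] at hh
    exact Or.inr ⟨u', v', ⟨x, y, ⟨hF hm.1, hm.2⟩, hh⟩, hu, hv⟩

theorem connW_congr {em : ℤ → ℤ} {ω ω' : Cfg} {F F' : Set (ℤ × ℤ)} (hF : F ⊆ F')
    (h : ∀ f ∈ F, ω f = ω' f) {u v : ℤ × ℤ} (hc : ConnW em ω F u v) : ConnW em ω' F' u v :=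
  Relation.ReflTransGen.mono (fun _ _ hb => bondW_congr hF h hb) _ _ hc

theorem connW_iff {em : ℤ → ℤ} {ω ω' : Cfg} {F : Set (ℤ × ℤ)} (h : ∀ f ∈ F, ω f = ω' f)
    (u v : ℤ × ℤ) : ConnW em ω F u v ↔ ConnW em ω' F u v :=
  ⟨connW_congr subset_rfl h, connW_congr subset_rfl fun f hf => (h f hf).symm⟩

theorem depOn_arm3 (R : ℤ) : DepOn (BW R : Set (ℤ × ℤ)) (Arm3 R) := by
  intro ω ω' h
  unfold Arm3
  simp only [Set.mem_ofPred_eq, connW_iff (em := emP) h]

theorem mem_RF' {x₀ x₁ y₀ y₁ : ℤ} {f : ℤ × ℤ} :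
    f ∈ RF x₀ x₁ y₀ y₁ ↔ (x₀ ≤ f.1 ∧ f.1 < x₁) ∧ y₀ ≤ f.2 ∧ f.2 < y₁ := by
  unfold RF
  rw [mem_product, mem_Ico, mem_Ico]

theorem mem_FW {m M : ℕ} {f : ℤ × ℤ} : f ∈ FW m M ↔
    ((0 ≤ f.1 ∧ f.1 < 2 * m + 1) ∧ 0 ≤ f.2 ∧ f.2 < M) ∨
      ((0 ≤ f.1 ∧ f.1 < 2 * m) ∧ -(M : ℤ) ≤ f.2 ∧ f.2 < 0) := by
  unfold FW
  rw [mem_union, mem_RF', mem_RF']
  push_cast
  rfl

/-- The face of the fundamental domain. -/
def red (m : ℕ) (f : ℤ × ℤ) : ℤ × ℤ :=
  if 0 ≤ f.2 then (f.1 % (2 * m + 1), f.2) else (f.1 % (2 * m), f.2)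

theorem perW_eq (m : ℕ) (ω : Cfg) : perW m ω = fun f => ω (red m f) := by
  funext f
  unfold perW red
  split_ifs <;> rfl

theorem red_mem {m M : ℕ} (hm : 0 < m) {f : ℤ × ℤ} (hf : f ∈ strip M) : red m f ∈ FW m M := by
  obtain ⟨h1, h2⟩ := hf
  rw [mem_FW]
  unfold red
  have e1 := Int.emod_nonneg f.1 (b := 2 * (m : ℤ) + 1) (by omega)
  have e2 := Int.emod_lt_of_pos f.1 (b := 2 * (m : ℤ) + 1) (by omega)
  have e3 := Int.emod_nonneg f.1 (b := 2 * (m : ℤ)) (by omega)
  have e4 := Int.emod_lt_of_pos f.1 (b := 2 * (m : ℤ)) (by omega)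
  split_ifs with h
  · exact Or.inl ⟨⟨e1, e2⟩, h, h2⟩
  · exact Or.inr ⟨⟨e3, e4⟩, h1, by omega⟩

theorem depOn_wrap3 {m : ℕ} (hm : 0 < m) (M : ℕ) :
    DepOn (FW m M : Set (ℤ × ℤ)) (Wrap3 m M) := by
  intro ω ω' h
  have h1 : ∀ f ∈ strip M, perW m ω f = perW m ω' f := by
    intro f hf
    rw [perW_eq, perW_eq]
    exact h _ (by exact_mod_cast red_mem hm hf)
  unfold Wrap3
  simp only [Set.mem_ofPred_eq, connW_iff (em := emC m) h1]

theorem wrap3_mono {m M M' : ℕ} (h : M ≤ M') {ω : Cfg} (hω : ω ∈ Wrap3 m M) :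
    ω ∈ Wrap3 m M' := by
  have hs : strip M ⊆ strip M' := TwoF.strip_mono h
  obtain ⟨h1, x, hx, h2⟩ := hω
  refine ⟨fun x hx => ?_, x, hx, connW_congr hs (fun _ _ => rfl) h2⟩
  obtain ⟨x', s, hx', hs', hc⟩ := h1 x hx
  exact ⟨x', s, hx', hs', connW_congr hs (fun _ _ => rfl) hc⟩

theorem FW_mono (m : ℕ) {M M' : ℕ} (h : M ≤ M') : FW m M ⊆ FW m M' := by
  intro f hf
  rw [mem_FW] at hf ⊢
  omega

/-- The event with three legs. -/
def triE (m M : ℕ) : Set Cfg :=
  {ω | Tri (2 * m - 1) (upO (upOS (2 * m + 1) M ω)) (dnO (2 * m - 1) (loS (2 * m) M ω))}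

theorem tendsto_triE {m : ℕ} (hm : 0 < m) :
    Tendsto (fun M : ℕ => pr (FW m M) (triE m M)) atTop (𝓝 (Num3.p3v m)) := by
  have h1 := (Complex.continuous_re.tendsto _).comp (tendsto_tri hm)
  rw [Complex.ofReal_re] at h1
  refine h1.congr fun M => ?_
  classical
  rw [Function.comp_apply, ex_indicator (triE m M)
    (fun ω => B2 (2 * m - 1) (loS (2 * m) M ω) (upOS (2 * m + 1) M ω))
    (fun ω hω => if_pos hω) (fun ω hω => if_neg hω), Complex.ofReal_re]
  rfl

theorem red_injOn {m : ℕ} (hm : 0 < m) : Set.InjOn (red m) (BW ((m : ℤ) - 1) : Set (ℤ × ℤ)) := by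
  intro x hx x' hx' h
  rw [mem_coe] at hx hx'
  unfold BW at hx hx'
  rw [mem_union, mem_RF', mem_RF'] at hx hx'
  have key : ∀ (a b L : ℤ), 0 < L → a % L = b % L → a - b < L → b - a < L → a = b := by
    intro a b L hL hab h1 h2
    have h6 : L ∣ a - b := Int.dvd_of_emod_eq_zero (by rw [Int.sub_emod, hab]; simp)
    obtain ⟨c, hc⟩ := h6
    have hc0 : c = 0 := by
      by_contra hne
      rcases lt_or_gt_of_ne hne with h7 | h7
      · have : L * c ≤ -L := by nlinarith
        omega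
      · have : L ≤ L * c := by nlinarith
        omega
    rw [hc0] at hc
    omega
  unfold red at h
  split_ifs at h with h1 h2 h2
  · simp only [Prod.mk.injEq] at h
    obtain ⟨h3, h4⟩ := h
    refine Prod.ext (key _ _ _ (by omega) h3 (by omega) (by omega)) h4
  · simp only [Prod.mk.injEq] at h
    omega
  · simp only [Prod.mk.injEq] at h
    omega
  · simp only [Prod.mk.injEq] at h
    obtain ⟨h3, h4⟩ := h
    refine Prod.ext (key _ _ _ (by omega) h3 (by omega) (by omega)) h4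

end TwE

open TwE

/-- Exact upper bound for wrapping core clusters. -/
theorem pr_wrap3_le {m : ℕ} (hm : 0 < m) (M : ℕ) : pr (FW m M) (Wrap3 m M) ≤ Num3.p3v m := by
  refine ge_of_tendsto (tendsto_triE hm) ?_
  filter_upwards [eventually_ge_atTop M] with M' hM'
  rw [← pr_eq_of_depOn (depOn_wrap3 hm M) (FW_mono m hM')]
  exact pr_mono _ fun ω hω => tri_of_wrap3 hm (wrap3_mono hM' hω)

/-- Exact lower bound for three arms of the core of the twisted plane. -/
theorem p3v_le_arm3 {m : ℕ} (hm : 0 < m) :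
    Num3.p3v m ≤ pr (BW ((m : ℤ) - 1)) (Arm3 ((m : ℤ) - 1)) := by
  refine le_of_tendsto (tendsto_triE hm) ?_
  filter_upwards [eventually_ge_atTop m] with M hM
  have h3 : pr (FW m M) (triE m M) ≤
      pr (FW m M) {ω : Cfg | (fun f : ℤ × ℤ => ω (red m f)) ∈ Arm3 ((m : ℤ) - 1)} := by
    refine pr_mono _ fun ω hω => ?_
    have h := arm3_of_tri hm hM ω hω
    rwa [perW_eq] at h
  refine h3.trans (le_of_eq ?_)
  refine pr_comp (red_injOn hm) ?_ (depOn_arm3 _)
  intro x hx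
  refine red_mem hm ?_
  unfold BW at hx
  rw [mem_union, TwE.mem_RF', TwE.mem_RF'] at hx
  constructor <;> omega

end Pool.Agent.Perc

end Partperc3TwE
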