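import Pool.Agent.Lib.MP_6bd702_zc.Pre
import Pool.Agent.Lib.MP_6bd702_zc.Y016

/-!
# The boundary of the boxes of the twisted plane (task TwBd)

`bd r t`, `0 ≤ t ≤ 8 r + 3`, runs counterclockwise through the boundary vertices of the box of
radius `r`, from `(r, 0)` to `(r, 0)`. For `r = 0` it is the core.
-/

set_option autoImplicit false

namespace Pool.Agent.Perc.Q

open Finset Pool.Agent.Perc

/-- The boundary of the box of radius `r`. -/
def bd (r t : ℤ) : ℤ × ℤ :=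
  if t ≤ r then (r, t) else if t ≤ 3 * r + 2 then (2 * r - t, r)
  else if t ≤ 4 * r + 2 then (-(r + 2), 4 * r + 2 - t)
  else if t ≤ 5 * r + 2 then (-(r + 1), 4 * r + 2 - t)
  else if t ≤ 7 * r + 3 then (t - 6 * r - 3, -r) else (r, t - 8 * r - 3)

/-- The directed unit edge through which a strand enters the box. -/
def ine (r t : ℤ) : (ℤ × ℤ) × (ℤ × ℤ) := (bd r t, bd r (t + 1))

variable {r t t' d w : ℤ}

/-! ### coordinates -/

namespace BdAux

theorem mem_BW {r : ℤ} {f : ℤ × ℤ} : f ∈ BW r ↔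
    (-(r + 2) ≤ f.1 ∧ f.1 < r ∧ 0 ≤ f.2 ∧ f.2 < r) ∨
      (-(r + 1) ≤ f.1 ∧ f.1 < r ∧ -r ≤ f.2 ∧ f.2 < 0) := by
  unfold BW RF
  rw [Finset.mem_union, Finset.mem_product, Finset.mem_product, Finset.mem_Ico, Finset.mem_Ico,
    Finset.mem_Ico, Finset.mem_Ico]
  constructor
  · rintro (⟨⟨h1, h2⟩, h3, h4⟩ | ⟨⟨h1, h2⟩, h3, h4⟩)
    · exact Or.inl ⟨h1, h2, h3, h4⟩
    · exact Or.inr ⟨h1, h2, h3, h4⟩
  · rintro (⟨h1, h2, h3, h4⟩ | ⟨h1, h2, h3, h4⟩)
    · exact Or.inl ⟨⟨h1, h2⟩, h3, h4⟩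
    · exact Or.inr ⟨⟨h1, h2⟩, h3, h4⟩

theorem zk (k : ZMod 4) : k = 0 ∨ k = 1 ∨ k = 2 ∨ k = 3 := by revert k; decide

theorem zk0 : (0 : ZMod 4) + 1 = 1 := rfl
theorem zk1 : (1 : ZMod 4) + 1 = 2 := rfl
theorem zk2 : (2 : ZMod 4) + 1 = 3 := rfl
theorem zk3 : (3 : ZMod 4) + 1 = 0 := rfl

theorem zn01 : ((0 : ZMod 4) = 1) = False := by decide
theorem zn02 : ((0 : ZMod 4) = 2) = False := by decide
theorem zn03 : ((0 : ZMod 4) = 3) = False := by decide
theorem zn10 : ((1 : ZMod 4) = 0) = False := by decide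
theorem zn12 : ((1 : ZMod 4) = 2) = False := by decide
theorem zn13 : ((1 : ZMod 4) = 3) = False := by decide
theorem zn20 : ((2 : ZMod 4) = 0) = False := by decide
theorem zn21 : ((2 : ZMod 4) = 1) = False := by decide
theorem zn23 : ((2 : ZMod 4) = 3) = False := by decide
theorem zn30 : ((3 : ZMod 4) = 0) = False := by decide
theorem zn31 : ((3 : ZMod 4) = 1) = False := by decide
theorem zn32 : ((3 : ZMod 4) = 2) = False := by decide
theorem zp0 : (0 : ZMod 4) + 2 = 2 := by decide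
theorem zp1 : (1 : ZMod 4) + 2 = 3 := by decide
theorem zp2 : (2 : ZMod 4) + 2 = 0 := by decide
theorem zp3 : (3 : ZMod 4) + 2 = 1 := by decide

/-- The glued coordinates of the naive corner `(a, b)` of the face `f`. -/
def gl (y a b : ℤ) : ℤ × ℤ := if y < 0 ∧ b = 0 ∧ a < 0 then (a - 1, b) else (a, b)

theorem gl_eq {em : ℤ → ℤ} (hem : em = emP) (f v : ℤ × ℤ) :
    (if 0 ≤ f.2 then v else twV em v) = gl f.2 v.1 v.2 := by
  subst hem
  obtain ⟨a, b⟩ := v
  unfold gl twV emP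
  by_cases h : 0 ≤ f.2
  · rw [if_pos h, if_neg (by omega)]
  · rw [if_neg h]
    by_cases hb : b = 0
    · subst hb
      by_cases ha : 0 ≤ a
      · simp only [if_true]
        rw [if_pos ha, if_neg (by omega)]
      · simp only [if_true]
        rw [if_neg ha, if_pos ⟨by omega, trivial, by omega⟩]
    · rw [if_neg hb, if_neg (by omega)]

theorem c_eq (f : ℤ × ℤ) (k : ZMod 4) : TQ.c f k = gl f.2 (cor0 f k).1 (cor0 f k).2 := by
  change corT emP f k = _
  rw [← gl_eq rfl]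
  rfl

theorem c_0 (f : ℤ × ℤ) : TQ.c f 0 = gl f.2 f.1 f.2 := by rw [c_eq, cor0_0]
theorem c_1 (f : ℤ × ℤ) : TQ.c f 1 = gl f.2 (f.1 + 1) f.2 := by rw [c_eq, cor0_1]
theorem c_2 (f : ℤ × ℤ) : TQ.c f 2 = gl f.2 (f.1 + 1) (f.2 + 1) := by rw [c_eq, cor0_2]
theorem c_3 (f : ℤ × ℤ) : TQ.c f 3 = gl f.2 f.1 (f.2 + 1) := by rw [c_eq, cor0_3]

/-- An omega friendly description of `gl`. -/
theorem gl_spec (y a b : ℤ) : (gl y a b).2 = b ∧
    ((y < 0 ∧ b = 0 ∧ a < 0 ∧ (gl y a b).1 = a - 1) ∨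
      ((0 ≤ y ∨ b ≠ 0 ∨ 0 ≤ a) ∧ (gl y a b).1 = a)) := by
  unfold gl
  split_ifs with h
  · exact ⟨rfl, Or.inl ⟨h.1, h.2.1, h.2.2, rfl⟩⟩
  · exact ⟨rfl, Or.inr ⟨by omega, rfl⟩⟩

end BdAux

open BdAux

theorem bd_last (hr : 0 ≤ r) : bd r (8 * r + 3) = bd r 0 := by
  unfold bd
  split_ifs <;> (rw [Prod.mk.injEq]; omega)

theorem bd_inj (hr : 0 ≤ r) (h0 : 0 ≤ t) (h1 : t < 8 * r + 3) (h0' : 0 ≤ t') (h1' : t' < 8 * r + 3)
    (h : bd r t = bd r t') : t = t' := by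
  unfold bd at h
  split_ifs at h <;> (rw [Prod.mk.injEq] at h; omega)

theorem ine_inj (hr : 0 ≤ r) (h0 : 0 ≤ t) (h1 : t < 8 * r + 3) (h0' : 0 ≤ t') (h1' : t' < 8 * r + 3)
    (h : ine r t = ine r t') : t = t' :=
  bd_inj hr h0 h1 h0' h1' (Prod.mk.inj h).1

/-- The vertices of `bd` are the boundary vertices of the box. -/
theorem bdW_iff (hr : 0 < r) {v : ℤ × ℤ} :
    (BdW r v ∧ InW r v) ↔ ∃ t, 0 ≤ t ∧ t < 8 * r + 3 ∧ bd r t = v := by
  obtain ⟨a, b⟩ := v
  unfold BdW InW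
  simp only
  constructor
  · rintro ⟨h, h'⟩
    by_cases hb : 0 ≤ b
    · by_cases h1 : a = r
      · refine ⟨b, hb, by omega, ?_⟩
        unfold bd
        rw [if_pos (by omega), h1]
      · by_cases h2 : b = r
        · refine ⟨2 * r - a, by omega, by omega, ?_⟩
          unfold bd
          rw [if_neg (by omega), if_pos (by omega), h2, sub_sub_cancel]
        · refine ⟨4 * r + 2 - b, by omega, by omega, ?_⟩
          unfold bd
          rw [if_neg (by omega), if_neg (by omega), if_pos (by omega), Prod.mk.injEq]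
          omega
    · by_cases h1 : b = -r
      · refine ⟨a + 6 * r + 3, by omega, by omega, ?_⟩
        unfold bd
        by_cases h3 : a + 6 * r + 3 ≤ 5 * r + 2
        · rw [if_neg (by omega), if_neg (by omega), if_neg (by omega), if_pos (by omega),
            Prod.mk.injEq]
          omega
        · rw [if_neg (by omega), if_neg (by omega), if_neg (by omega), if_neg (by omega),
            if_pos (by omega), Prod.mk.injEq]
          omega
      · by_cases h2 : a = r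
        · refine ⟨b + 8 * r + 3, by omega, by omega, ?_⟩
          unfold bd
          rw [if_neg (by omega), if_neg (by omega), if_neg (by omega), if_neg (by omega),
            if_neg (by omega), Prod.mk.injEq]
          omega
        · refine ⟨4 * r + 2 - b, by omega, by omega, ?_⟩
          unfold bd
          rw [if_neg (by omega), if_neg (by omega), if_neg (by omega), if_pos (by omega),
            Prod.mk.injEq]
          omega
  · rintro ⟨t, h0, h1, h⟩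
    unfold bd at h
    split_ifs at h <;> (rw [Prod.mk.injEq] at h; omega)

namespace BdAux

/-! ### the pieces -/

theorem bd_R (h : t ≤ r) : bd r t = (r, t) := by
  unfold bd; rw [if_pos h]

theorem bd_T (h : r ≤ t) (h' : t ≤ 3 * r + 2) : bd r t = (2 * r - t, r) := by
  unfold bd
  by_cases h1 : t ≤ r
  · rw [if_pos h1, Prod.mk.injEq]; omega
  · rw [if_neg h1, if_pos h']

theorem bd_L (hr : 0 ≤ r) (h : 3 * r + 2 ≤ t) (h' : t ≤ 4 * r + 2) :
    bd r t = (-(r + 2), 4 * r + 2 - t) := by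
  unfold bd
  rw [if_neg (by omega)]
  by_cases h1 : t ≤ 3 * r + 2
  · rw [if_pos h1, Prod.mk.injEq]; omega
  · rw [if_neg h1, if_pos h']

theorem bd_Ll (hr : 0 ≤ r) (h : 4 * r + 2 < t) (h' : t ≤ 5 * r + 2) :
    bd r t = (-(r + 1), 4 * r + 2 - t) := by
  unfold bd
  rw [if_neg (by omega), if_neg (by omega), if_neg (by omega), if_pos h']

theorem bd_B (hr : 0 < r) (h : 5 * r + 2 ≤ t) (h' : t ≤ 7 * r + 3) :
    bd r t = (t - 6 * r - 3, -r) := by
  unfold bd
  rw [if_neg (by omega), if_neg (by omega), if_neg (by omega)]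
  by_cases h1 : t ≤ 5 * r + 2
  · rw [if_pos h1, Prod.mk.injEq]; omega
  · rw [if_neg h1, if_pos h']

theorem bd_Rl (hr : 0 < r) (h : 7 * r + 3 ≤ t) : bd r t = (r, t - 8 * r - 3) := by
  unfold bd
  rw [if_neg (by omega), if_neg (by omega), if_neg (by omega), if_neg (by omega)]
  by_cases h1 : t ≤ 7 * r + 3
  · rw [if_pos h1, Prod.mk.injEq]; omega
  · rw [if_neg h1]

theorem gl_of_ne {y a b : ℤ} (h : 0 ≤ y ∨ b ≠ 0 ∨ 0 ≤ a) : gl y a b = (a, b) := by
  unfold gl; rw [if_neg (by omega)]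

theorem gl_of {y a b : ℤ} (h : y < 0) (hb : b = 0) (ha : a < 0) : gl y a b = (a - 1, b) := by
  unfold gl; rw [if_pos ⟨h, hb, ha⟩]

/-- The cases of a boundary edge: the face `f` inside and the face `g` outside. -/
theorem ine_cases (hr : 0 ≤ r) (h0 : 0 ≤ t) (h1 : t < 8 * r + 3) :
    (0 < r → ∃ f ∈ BW r, f ∉ BW (r - 1) ∧ ∃ k, ine r t = (TQ.c f k, TQ.c f (k + 1))) ∧
    ∃ f ∈ BW (r + 1), f ∉ BW r ∧ ∃ k, (ine r t).swap = (TQ.c f k, TQ.c f (k + 1)) := by
  unfold ine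
  rw [Prod.swap_prod_mk]
  by_cases a1 : t < r
  · rw [bd_R (by omega), bd_R (by omega)]
    constructor
    · intro hr0
      refine ⟨(r - 1, t), by rw [mem_BW]; omega, by rw [mem_BW]; omega, 1, ?_⟩
      rw [zk1, c_1, c_2, gl_of_ne (by omega), gl_of_ne (by omega), sub_add_cancel]
    · refine ⟨(r, t), by rw [mem_BW]; omega, by rw [mem_BW]; omega, 3, ?_⟩
      rw [zk3, c_3, c_0, gl_of_ne (by omega), gl_of_ne (by omega)]
  by_cases a2 : t < 3 * r + 2
  · rw [bd_T (by omega) (by omega), bd_T (by omega) (by omega)]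
    constructor
    · intro hr0
      refine ⟨(2 * r - t - 1, r - 1), by rw [mem_BW]; omega, by rw [mem_BW]; omega, 2, ?_⟩
      rw [zk2, c_2, c_3, gl_of_ne (by omega), gl_of_ne (by omega), sub_add_cancel, sub_add_cancel,
        sub_add_eq_sub_sub]
    · refine ⟨(2 * r - t - 1, r), by rw [mem_BW]; omega, by rw [mem_BW]; omega, 0, ?_⟩
      rw [zk0, c_0, c_1, gl_of_ne (by omega), gl_of_ne (by omega), sub_add_cancel,
        sub_add_eq_sub_sub]
  by_cases a3 : t < 4 * r + 2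
  · rw [bd_L hr (by omega) (by omega), bd_L hr (by omega) (by omega)]
    constructor
    · intro hr0
      refine ⟨(-(r + 2), 4 * r + 1 - t), by rw [mem_BW]; omega, by rw [mem_BW]; omega, 3, ?_⟩
      rw [zk3, c_3, c_0, gl_of_ne (by omega), gl_of_ne (by omega), Prod.ext_iff, Prod.ext_iff,
        Prod.ext_iff]
      dsimp only
      omega
    · refine ⟨(-(r + 3), 4 * r + 1 - t), by rw [mem_BW]; omega, by rw [mem_BW]; omega, 1, ?_⟩
      rw [zk1, c_1, c_2, gl_of_ne (by omega), gl_of_ne (by omega), Prod.ext_iff, Prod.ext_iff,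
        Prod.ext_iff]
      dsimp only
      omega
  by_cases a4 : t < 5 * r + 2
  · have hq : bd r (t + 1) = (-(r + 1), 4 * r + 1 - t) := by
      rw [bd_Ll hr (by omega) (by omega), Prod.mk.injEq]; omega
    have hp : bd r t = gl (-1) (-(r + 1)) (4 * r + 2 - t) := by
      by_cases h : t = 4 * r + 2
      · rw [gl_of (by omega) (by omega) (by omega), bd_L hr (by omega) (by omega), Prod.mk.injEq]
        omega
      · rw [gl_of_ne (by omega), bd_Ll hr (by omega) (by omega)]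
    have hgl : ∀ y, y < 0 → gl y (-(r + 1)) (4 * r + 2 - t) =
        gl (-1) (-(r + 1)) (4 * r + 2 - t) := by
      intro y hy
      unfold gl
      simp only [hy, show (-1 : ℤ) < 0 by norm_num]
    have e2 : gl (4 * r + 1 - t) (-(r + 1)) (4 * r + 1 - t) = (-(r + 1), 4 * r + 1 - t) :=
      gl_of_ne (by omega)
    rw [hp, hq]
    constructor
    · intro hr0
      refine ⟨(-(r + 1), 4 * r + 1 - t), by rw [mem_BW]; omega, by rw [mem_BW]; omega, 3, ?_⟩
      rw [zk3, c_3, c_0]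
      dsimp only
      rw [show 4 * r + 1 - t + 1 = 4 * r + 2 - t by ring, hgl (4 * r + 1 - t) (by omega), e2]
    · refine ⟨(-(r + 2), 4 * r + 1 - t), by rw [mem_BW]; omega, by rw [mem_BW]; omega, 1, ?_⟩
      rw [zk1, c_1, c_2]
      dsimp only
      rw [show 4 * r + 1 - t + 1 = 4 * r + 2 - t by ring, show -(r + 2) + 1 = -(r + 1) by ring,
        hgl (4 * r + 1 - t) (by omega), e2]
  by_cases a5 : t < 7 * r + 3
  · rcases hr.lt_or_eq with hr0 | hr0
    · rw [bd_B hr0 (by omega) (by omega), bd_B hr0 (by omega) (by omega)]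
      constructor
      · intro _
        refine ⟨(t - 6 * r - 3, -r), by rw [mem_BW]; omega, by rw [mem_BW]; omega, 0, ?_⟩
        rw [zk0, c_0, c_1, gl_of_ne (by omega), gl_of_ne (by omega), Prod.ext_iff, Prod.ext_iff,
          Prod.ext_iff]
        dsimp only
        omega
      · refine ⟨(t - 6 * r - 3, -r - 1), by rw [mem_BW]; omega, by rw [mem_BW]; omega, 2, ?_⟩
        rw [zk2, c_2, c_3, gl_of_ne (by omega), gl_of_ne (by omega), Prod.ext_iff, Prod.ext_iff,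
          Prod.ext_iff]
        dsimp only
        omega
    · subst hr0
      have ht : t = 2 := by omega
      subst ht
      refine ⟨fun h => absurd h (lt_irrefl _), (-1, -1), by rw [mem_BW]; omega,
        by rw [mem_BW]; omega, 2, ?_⟩
      rw [zk2, c_2, c_3]
      decide
  · rw [bd_Rl (by omega) (by omega), bd_Rl (by omega) (by omega)]
    constructor
    · intro hr0
      refine ⟨(r - 1, t - 8 * r - 3), by rw [mem_BW]; omega, by rw [mem_BW]; omega, 1, ?_⟩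
      rw [zk1, c_1, c_2, gl_of_ne (by omega), gl_of_ne (by omega), Prod.ext_iff, Prod.ext_iff,
        Prod.ext_iff]
      dsimp only
      omega
    · refine ⟨(r, t - 8 * r - 3), by rw [mem_BW]; omega, by rw [mem_BW]; omega, 3, ?_⟩
      rw [zk3, c_3, c_0, gl_of_ne (by omega), gl_of_ne (by omega), Prod.ext_iff, Prod.ext_iff,
        Prod.ext_iff]
      dsimp only
      omega

end BdAux

/-- The face of the box behind a boundary edge. -/
theorem ine_face (hr : 0 < r) (h0 : 0 ≤ t) (h1 : t < 8 * r + 3) :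
    ∃ f ∈ BW r, f ∉ BW (r - 1) ∧ ∃ k, ine r t = (TQ.c f k, TQ.c f (k + 1)) :=
  (ine_cases hr.le h0 h1).1 hr

/-- The face outside the box at a boundary edge. -/
theorem ine_opp (hr : 0 ≤ r) (h0 : 0 ≤ t) (h1 : t < 8 * r + 3) :
    ∃ f ∈ BW (r + 1), f ∉ BW r ∧ ∃ k, (ine r t).swap = (TQ.c f k, TQ.c f (k + 1)) :=
  (ine_cases hr h0 h1).2

namespace BdAux

/-- An omega friendly description of the corners. -/
theorem c_spec (f : ℤ × ℤ) (k : ZMod 4) : ∃ a b : ℤ, ((k = 0 ∧ a = 0 ∧ b = 0) ∨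
    (k = 1 ∧ a = 1 ∧ b = 0) ∨ (k = 2 ∧ a = 1 ∧ b = 1) ∨ (k = 3 ∧ a = 0 ∧ b = 1)) ∧
    (TQ.c f k).2 = f.2 + b ∧
    ((f.2 < 0 ∧ f.2 + b = 0 ∧ f.1 + a < 0 ∧ (TQ.c f k).1 = f.1 + a - 1) ∨
      ((0 ≤ f.2 ∨ f.2 + b ≠ 0 ∨ 0 ≤ f.1 + a) ∧ (TQ.c f k).1 = f.1 + a)) := by
  rcases zk k with rfl | rfl | rfl | rfl
  · refine ⟨0, 0, Or.inl ⟨rfl, rfl, rfl⟩, ?_⟩
    rw [c_0, add_zero, add_zero]
    exact gl_spec _ _ _
  · refine ⟨1, 0, Or.inr (Or.inl ⟨rfl, rfl, rfl⟩), ?_⟩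
    rw [c_1, add_zero]
    exact gl_spec _ _ _
  · refine ⟨1, 1, Or.inr (Or.inr (Or.inl ⟨rfl, rfl, rfl⟩)), ?_⟩
    rw [c_2]
    exact gl_spec _ _ _
  · refine ⟨0, 1, Or.inr (Or.inr (Or.inr ⟨rfl, rfl, rfl⟩)), ?_⟩
    rw [c_3, add_zero]
    exact gl_spec _ _ _

/-- The integer form of the equality of two opposite sides. -/
theorem side_eq {f g : ℤ × ℤ} {k l : ZMod 4}
    (h : (TQ.c g l, TQ.c g (l + 1)) = (TQ.c f (k + 1), TQ.c f k)) :
    l = k + 2 ∧
    ((k = 0 ∧ g.2 = f.2 - 1 ∧ ((f.2 ≠ 0 ∧ g.1 = f.1) ∨ (f.2 = 0 ∧ 0 ≤ f.1 ∧ g.1 = f.1) ∨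
        (f.2 = 0 ∧ f.1 + 2 < 0 ∧ g.1 = f.1 + 1))) ∨
      (k = 1 ∧ g.2 = f.2 ∧ g.1 = f.1 + 1) ∨
      (k = 2 ∧ g.2 = f.2 + 1 ∧ ((f.2 ≠ -1 ∧ g.1 = f.1) ∨ (f.2 = -1 ∧ 0 ≤ f.1 ∧ g.1 = f.1) ∨
        (f.2 = -1 ∧ f.1 + 1 < 0 ∧ g.1 = f.1 - 1))) ∨
      (k = 3 ∧ g.2 = f.2 ∧ g.1 = f.1 - 1)) := by
  obtain ⟨h1, h2⟩ := Prod.mk.inj h
  obtain ⟨a1, b1, e1, y1, x1⟩ := c_spec f k
  obtain ⟨a2, b2, e2, y2, x2⟩ := c_spec f (k + 1)
  obtain ⟨a3, b3, e3, y3, x3⟩ := c_spec g l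
  obtain ⟨a4, b4, e4, y4, x4⟩ := c_spec g (l + 1)
  rw [h1] at y3 x3
  rw [h2] at y4 x4
  rcases zk k with rfl | rfl | rfl | rfl <;> rcases zk l with rfl | rfl | rfl | rfl <;>
    simp only [zk0, zk1, zk2, zk3, zn01, zn02, zn03, zn10, zn12, zn13, zn20, zn21, zn23, zn30,
      zn31, zn32, zp0, zp1, zp2, zp3, false_and, true_and, or_false, false_or,
      or_self] at e1 e2 e3 e4 ⊢ <;>
    obtain ⟨rfl, rfl⟩ := e1 <;> obtain ⟨rfl, rfl⟩ := e2 <;> obtain ⟨rfl, rfl⟩ := e3 <;>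
    obtain ⟨rfl, rfl⟩ := e4 <;> omega

end BdAux

/-- The sides of the faces of the box whose opposite face is not in the box. -/
theorem ine_of_side (hr : 0 ≤ r) {f g : ℤ × ℤ} {k l : ZMod 4} (hf : f ∈ BW r) (hg : g ∉ BW r)
    (h : (TQ.c g l, TQ.c g (l + 1)) = (TQ.c f (k + 1), TQ.c f k)) :
    ∃ t, 0 ≤ t ∧ t < 8 * r + 3 ∧ (TQ.c f k, TQ.c f (k + 1)) = ine r t := by
  obtain ⟨-, h⟩ := side_eq h
  rw [mem_BW] at hf hg
  unfold ine
  rcases h with ⟨rfl, h⟩ | ⟨rfl, h⟩ | ⟨rfl, h⟩ | ⟨rfl, h⟩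
  · have h1 : f.2 = -r := by omega
    refine ⟨f.1 + 6 * r + 3, by omega, by omega, ?_⟩
    rw [zk0, c_0, c_1, gl_of_ne (by omega), gl_of_ne (by omega), bd_B (by omega) (by omega)
      (by omega), bd_B (by omega) (by omega) (by omega)]
    rw [Prod.ext_iff, Prod.ext_iff, Prod.ext_iff]
    dsimp only
    omega
  · have h1 : f.1 = r - 1 := by omega
    by_cases h2 : 0 ≤ f.2
    · refine ⟨f.2, by omega, by omega, ?_⟩
      rw [zk1, c_1, c_2, gl_of_ne (by omega), gl_of_ne (by omega), bd_R (by omega),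
        bd_R (by omega)]
      rw [Prod.ext_iff, Prod.ext_iff, Prod.ext_iff]
      dsimp only
      omega
    · refine ⟨f.2 + 8 * r + 3, by omega, by omega, ?_⟩
      rw [zk1, c_1, c_2, gl_of_ne (by omega), gl_of_ne (by omega), bd_Rl (by omega) (by omega),
        bd_Rl (by omega) (by omega)]
      rw [Prod.ext_iff, Prod.ext_iff, Prod.ext_iff]
      dsimp only
      omega
  · have h1 : f.2 = r - 1 := by omega
    refine ⟨2 * r - f.1 - 1, by omega, by omega, ?_⟩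
    rw [zk2, c_2, c_3, gl_of_ne (by omega), gl_of_ne (by omega), bd_T (by omega) (by omega),
      bd_T (by omega) (by omega)]
    rw [Prod.ext_iff, Prod.ext_iff, Prod.ext_iff]
    dsimp only
    omega
  · by_cases h2 : 0 ≤ f.2
    · have h1 : f.1 = -(r + 2) := by omega
      refine ⟨4 * r + 1 - f.2, by omega, by omega, ?_⟩
      rw [zk3, c_3, c_0, gl_of_ne (by omega), gl_of_ne (by omega), bd_L hr (by omega) (by omega),
        bd_L hr (by omega) (by omega)]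
      rw [Prod.ext_iff, Prod.ext_iff, Prod.ext_iff]
      dsimp only
      omega
    · have h1 : f.1 = -(r + 1) := by omega
      refine ⟨4 * r + 1 - f.2, by omega, by omega, ?_⟩
      have h3 : bd r (4 * r + 1 - f.2) = gl f.2 f.1 (f.2 + 1) := by
        by_cases h4 : f.2 = -1
        · rw [gl_of (by omega) (by omega) (by omega), bd_L hr (by omega) (by omega),
            Prod.mk.injEq]
          omega
        · rw [gl_of_ne (by omega), bd_Ll hr (by omega) (by omega), Prod.mk.injEq]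
          omega
      rw [zk3, c_3, c_0, gl_of_ne (y := f.2) (a := f.1) (b := f.2) (by omega), h3,
        bd_Ll hr (by omega) (by omega)]
      rw [Prod.ext_iff, Prod.ext_iff, Prod.ext_iff]
      dsimp only
      omega

/-- The core edges. -/
theorem ine_zero (h0 : 0 ≤ t) (h1 : t < 3) : ine 0 t = ((0, 0), (-1, 0)) ∨
    ine 0 t = ((-1, 0), (-2, 0)) ∨ ine 0 t = ((-2, 0), (0, 0)) := by
  have h2 : t = 0 ∨ t = 1 ∨ t = 2 := by omega
  rcases h2 with rfl | rfl | rfl <;> decide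

/-- No face is ahead of a core edge. -/
theorem core_ne (h0 : 0 ≤ t) (h1 : t < 3) (f : ℤ × ℤ) (k : ZMod 4) :
    ine 0 t ≠ (TQ.c f k, TQ.c f (k + 1)) := by
  intro h
  obtain ⟨a1, b1, e1, y1, x1⟩ := c_spec f k
  obtain ⟨a2, b2, e2, y2, x2⟩ := c_spec f (k + 1)
  rcases ine_zero h0 h1 with h2 | h2 | h2 <;> rw [h2] at h <;>
    obtain ⟨h3, h4⟩ := Prod.mk.inj h <;> rw [← h3] at y1 x1 <;> rw [← h4] at y2 x2 <;>
    rcases zk k with rfl | rfl | rfl | rfl <;>
    simp only [zk0, zk1, zk2, zk3, zn01, zn02, zn03, zn10, zn12, zn13, zn20, zn21, zn23, zn30,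
      zn31, zn32, false_and, true_and, or_false, false_or] at e1 e2 <;>
    obtain ⟨rfl, rfl⟩ := e1 <;> obtain ⟨rfl, rfl⟩ := e2 <;> omega

/-- The annulus `BW w \ BW d`: the last elements of the strands are the edges `ine d t` (entering
the inner box) and `(ine w t).swap` (leaving the outer box). -/
theorem ter_annulus (hd : 0 ≤ d) (hdw : d < w) {f : ℤ × ℤ} {k : ZMod 4}
    (hf : f ∈ (BW w : Set (ℤ × ℤ)) \ BW d)
    (h : Ter TQ ((BW w : Set (ℤ × ℤ)) \ BW d) (TQ.c f (k + 1), TQ.c f k)) :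
    (∃ t, 0 ≤ t ∧ t < 8 * d + 3 ∧ (TQ.c f (k + 1), TQ.c f k) = ine d t) ∨
      ∃ t, 0 ≤ t ∧ t < 8 * w + 3 ∧ (TQ.c f (k + 1), TQ.c f k) = (ine w t).swap := by
  have hfw : f ∈ BW w := hf.1
  have hfd : f ∉ BW d := hf.2
  have hcore : ∀ t, 0 ≤ t → t < 3 → (TQ.c f k, TQ.c f (k + 1)) = (ine 0 t).swap → d = 0 := by
    intro t h0 h1 h2
    by_contra h3
    obtain ⟨f', hf', -, k', h4⟩ := ine_opp le_rfl h0 h1
    rw [h4] at h2
    have h5 := (TQ.inj (Prod.mk.inj h2).1 (Prod.mk.inj h2).2).1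
    rw [← h5] at hf'
    refine hfd ?_
    rw [mem_BW] at hf' ⊢
    omega
  rcases exists_opp f k with ⟨g, l, hg⟩ | h1 | h1 | h1
  · by_cases hgw : g ∈ BW w
    · have hgd : g ∈ BW d := by
        by_contra hgd
        exact h g ⟨hgw, hgd⟩ l hg.symm
      have h2 : (TQ.c f k, TQ.c f (k + 1)) = (TQ.c g (l + 1), TQ.c g l) := by
        have h3 := Prod.mk.inj hg
        rw [h3.1, h3.2]
      obtain ⟨t, h0, h1, h3⟩ := ine_of_side hd hgd hfd h2
      exact Or.inl ⟨t, h0, h1, by rw [← h3, hg]⟩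
    · obtain ⟨t, h0, h1, h3⟩ := ine_of_side (hd.trans hdw.le) hfw hgw hg
      exact Or.inr ⟨t, h0, h1, by rw [← h3]; rfl⟩
  · have h2 : (ine 0 0).swap = ((-1, 0), (0, 0)) := by decide
    rw [← h2] at h1
    have h3 := hcore 0 le_rfl (by norm_num) h1
    subst h3
    refine Or.inl ⟨0, le_rfl, by norm_num, ?_⟩
    have h4 := congrArg Prod.swap h1
    rwa [Prod.swap_swap] at h4
  · have h2 : (ine 0 1).swap = ((-2, 0), (-1, 0)) := by decide
    rw [← h2] at h1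
    have h3 := hcore 1 (by norm_num) (by norm_num) h1
    subst h3
    refine Or.inl ⟨1, by norm_num, by norm_num, ?_⟩
    have h4 := congrArg Prod.swap h1
    rwa [Prod.swap_swap] at h4
  · have h2 : (ine 0 2).swap = ((0, 0), (-2, 0)) := by decide
    rw [← h2] at h1
    have h3 := hcore 2 (by norm_num) (by norm_num) h1
    subst h3
    refine Or.inl ⟨2, by norm_num, by norm_num, ?_⟩
    have h4 := congrArg Prod.swap h1
    rwa [Prod.swap_swap] at h4

theorem ini_outer (hd : 0 ≤ d) (hdw : d < w) (h0 : 0 ≤ t) (h1 : t < 8 * w + 3) :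
    Ini TQ ((BW w : Set (ℤ × ℤ)) \ BW d) (ine w t) := by
  intro f hf k h
  obtain ⟨g, -, hg, l, h2⟩ := ine_opp (hd.trans hdw.le) h0 h1
  rw [h, Prod.swap_prod_mk] at h2
  have h3 := (TQ.inj (Prod.mk.inj h2).1 (Prod.mk.inj h2).2).1
  rw [← h3] at hg
  exact hg hf.1

theorem ini_inner (hd : 0 ≤ d) (hdw : d < w) (h0 : 0 ≤ t) (h1 : t < 8 * d + 3) :
    Ini TQ ((BW w : Set (ℤ × ℤ)) \ BW d) (ine d t).swap := by
  intro f hf k h
  have h2 : ine d t = (TQ.c f k, TQ.c f (k + 1)) := by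
    rw [← Prod.swap_swap (ine d t), h]
    rfl
  rcases hd.lt_or_eq with hd0 | hd0
  · obtain ⟨g, hg, -, l, h3⟩ := ine_face hd0 h0 h1
    rw [h3] at h2
    have h4 := (TQ.inj (Prod.mk.inj h2).1 (Prod.mk.inj h2).2).1
    rw [h4] at hg
    exact hf.2 hg
  · subst hd0
    exact core_ne h0 (by omega) f k h2

end Pool.Agent.Perc.Q
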