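import Pool.Agent.Lib.MP_6bd702_zc.Pre
import Pool.Agent.Lib.MP_6bd702_zc.Y016
import Pool.Agent.Lib.MP_6bd702_z.Z037
import Pool.Agent.Lib.MP_6bd702_z.Z105
import Pool.Agent.Lib.MP_6bd702_zc.Y001
import Pool.Agent.Lib.MP_6bd702_z.Z034

section Partperc3TwChart

/-!
# Charts of the twisted plane and of the cover of the twisted cylinder

The chart with the shift `s` sends the upper half plane identically to itself and shifts the lower
half plane by `s`. It is valid at the places of the axis where the lower corner `(l + s, 0)` is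
glued to the upper vertex `(l, 0)`.
-/

set_option autoImplicit false

namespace Pool.Agent.Perc

open Finset

/-- The chart with the shift `s` (faces and vertices). -/
def chF (s : ℤ) (f : ℤ × ℤ) : ℤ × ℤ := if 0 ≤ f.2 then f else (f.1 + s, f.2)

/-- A configuration in the chart with the shift `s`. -/
def chC (s : ℤ) (ω : Cfg) : Cfg := fun f => ω (chF s f)

/-- The chart with the shift `s` is valid for the faces of `F`. -/
def ChOk (em : ℤ → ℤ) (s : ℤ) (F : Set (ℤ × ℤ)) : Prop :=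
  ∀ f ∈ F, f.2 = -1 → em (f.1 + s) = f.1 ∧ em (f.1 + 1 + s) = f.1 + 1

variable {em : ℤ → ℤ} {s t : ℤ} {ω ω' : Cfg} {F G : Set (ℤ × ℤ)} {u v w f : ℤ × ℤ}

theorem chF_up (h : 0 ≤ f.2) : chF s f = f := if_pos h

theorem chF_low (h : f.2 < 0) : chF s f = (f.1 + s, f.2) := if_neg (by omega)

theorem chF_snd : (chF s f).2 = f.2 := by
  unfold chF
  split_ifs <;> rfl

theorem chF_inj (s : ℤ) : Function.Injective (chF s) := by
  intro f g h
  have h2 : f.2 = g.2 := by rw [← chF_snd (s := s) (f := f), h, chF_snd]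
  rcases lt_or_ge f.2 0 with h0 | h0
  · rw [chF_low h0, chF_low (by omega), Prod.mk.injEq] at h
    exact Prod.ext (by omega) h2
  · rwa [chF_up h0, chF_up (by omega)] at h

theorem chF_zero (f : ℤ × ℤ) : chF 0 f = f := by
  unfold chF
  split_ifs
  · rfl
  · simp

theorem chC_zero (ω : Cfg) : chC 0 ω = ω := by
  funext f
  unfold chC
  rw [chF_zero]

theorem ChOk.mono (h : ChOk em s G) (hF : F ⊆ G) : ChOk em s F := fun f hf => h f (hF hf)

theorem ChOk.of_up (h : ∀ f ∈ F, 0 ≤ f.2) : ChOk em s F := by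
  intro f hf h1
  have := h f hf
  omega

theorem ChOk.of_low (h : ∀ f ∈ F, f.2 ≠ -1) : ChOk em s F := fun f hf h1 => absurd h1 (h f hf)

/-- The vertex of a corner of a lower face in the chart. -/
theorem chF_cor (hF : ChOk em s F) (hf : f ∈ F) (h0 : f.2 < 0) (hw : IsCor f w) :
    chF s w = twV em (w.1 + s, w.2) := by
  unfold IsCor at hw
  unfold twV
  rcases lt_or_ge w.2 0 with h1 | h1
  · rw [chF_low h1, if_neg (by simp only; omega)]
  · have h2 : w.2 = 0 := by omega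
    have h3 := hF f hf (by omega)
    rw [chF_up h1, if_pos h2]
    refine Prod.ext ?_ h2
    simp only
    rcases hw.1 with h4 | h4
    · rw [h4, h3.1]
    · rw [h4, h3.2]

theorem BondW.mono (hF : F ⊆ G) (h : BondW em ω F u v) : BondW em ω G u v := by
  rcases h with h | ⟨u', v', h, h1, h2⟩
  · exact Or.inl (h.mono fun f hf => ⟨hF hf.1, hf.2⟩)
  · exact Or.inr ⟨u', v', h.mono fun f hf => ⟨hF hf.1, hf.2⟩, h1, h2⟩

theorem ConnW.mono (hF : F ⊆ G) (h : ConnW em ω F u v) : ConnW em ω G u v := by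
  induction h with
  | refl => exact Relation.ReflTransGen.refl
  | tail _ hb ih => exact Relation.ReflTransGen.tail ih (hb.mono hF)

theorem BondW.symm' (h : BondW em ω F u v) : BondW em ω F v u := by
  rcases h with h | ⟨u', v', h, h1, h2⟩
  · exact Or.inl h.symm
  · exact Or.inr ⟨v', u', h.symm, h2, h1⟩

theorem ConnW.symm' (h : ConnW em ω F u v) : ConnW em ω F v u := by
  induction h with
  | refl => exact Relation.ReflTransGen.refl
  | tail _ hb ih => exact Relation.ReflTransGen.head hb.symm' ih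

/-- A bond in a chart. -/
theorem bondW_chart (hF : ChOk em s F) (hG : ∀ f ∈ F, chF s f ∈ G)
    (h : Bond (chC s ω) F u v) : BondW em ω G (chF s u) (chF s v) := by
  obtain ⟨f, hf, hb, hu, hv⟩ := h.exists_face
  rcases lt_or_ge f.2 0 with h0 | h0
  · refine Or.inr ⟨(u.1 + s, u.2), (v.1 + s, v.2), ?_, chF_cor hF hf h0 hu,
      chF_cor hF hf h0 hv⟩
    obtain ⟨x, y, hxy, hh⟩ := hb
    rw [Set.mem_singleton_iff] at hxy
    subst hxy
    have e : chF s (x, y) = (x + s, y) := chF_low h0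
    refine ⟨x + s, y, ⟨by rw [← e]; exact hG _ hf, h0⟩, ?_⟩
    unfold chC at hh
    rw [e] at hh
    rcases hh with ⟨h1, ⟨rfl, rfl⟩ | ⟨rfl, rfl⟩⟩ | ⟨h1, ⟨rfl, rfl⟩ | ⟨rfl, rfl⟩⟩
    · exact Or.inl ⟨h1, Or.inl ⟨rfl, Prod.ext (by simp only; omega) rfl⟩⟩
    · exact Or.inl ⟨h1, Or.inr ⟨Prod.ext (by simp only; omega) rfl, rfl⟩⟩
    · exact Or.inr ⟨h1, Or.inl ⟨rfl, Prod.ext (by simp only; omega) rfl⟩⟩
    · exact Or.inr ⟨h1, Or.inr ⟨Prod.ext (by simp only; omega) rfl, rfl⟩⟩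
  · refine Or.inl ?_
    unfold IsCor at hu hv
    rw [chF_up (by omega), chF_up (by omega)]
    obtain ⟨x, y, hxy, hh⟩ := hb
    rw [Set.mem_singleton_iff] at hxy
    subst hxy
    have e : chF s (x, y) = (x, y) := chF_up h0
    refine ⟨x, y, ⟨by rw [← e]; exact hG _ hf, h0⟩, ?_⟩
    unfold chC at hh
    rw [e] at hh
    exact hh

/-- A path in a chart. -/
theorem connW_chart (hF : ChOk em s F) (hG : ∀ f ∈ F, chF s f ∈ G)
    (h : Conn (chC s ω) F u v) : ConnW em ω G (chF s u) (chF s v) := by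
  induction h with
  | refl => exact Relation.ReflTransGen.refl
  | tail _ hb ih => exact Relation.ReflTransGen.tail ih (bondW_chart hF hG hb)

/-- A path in the upper half plane. -/
theorem connW_up (hF : ∀ f ∈ F, 0 ≤ f.2) (h : Conn ω F u v) : ConnW em ω F u v := by
  have h1 := connW_chart (em := em) (s := 0) (ω := ω) (G := F) (ChOk.of_up hF)
    (fun f hf => by rw [chF_zero]; exact hf) (by rw [chC_zero]; exact h)
  rwa [chF_zero, chF_zero] at h1

/-- A path in the lower half plane, in lower coordinates. -/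
theorem connW_low (hF : ∀ f ∈ F, f.2 < 0) (h : Conn ω F u v) :
    ConnW em ω F (twV em u) (twV em v) := by
  induction h with
  | refl => exact Relation.ReflTransGen.refl
  | @tail v w _ hb ih =>
    exact Relation.ReflTransGen.tail ih
      (Or.inr ⟨v, w, hb.mono fun f hf => ⟨hf, hF f hf⟩, rfl, rfl⟩)

/-- Paths in the upper half plane do not depend on the chart. -/
theorem conn_chC_up (hF : ∀ f ∈ F, 0 ≤ f.2) :
    Conn (chC s ω) F u v ↔ Conn ω F u v := by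
  have key : ∀ ω₁ ω₂ : Cfg, (∀ f ∈ F, ω₁ f = ω₂ f) → ∀ {u v : ℤ × ℤ},
      Conn ω₁ F u v → Conn ω₂ F u v := by
    intro ω₁ ω₂ h u v hc
    induction hc with
    | refl => exact Relation.ReflTransGen.refl
    | tail _ hb ih =>
      obtain ⟨x, y, hxy, hh⟩ := hb
      exact Relation.ReflTransGen.tail ih ⟨x, y, hxy, by rw [← h _ hxy]; exact hh⟩
  have e : ∀ f ∈ F, chC s ω f = ω f := by
    intro f hf
    unfold chC
    rw [chF_up (hF f hf)]
  exact ⟨key _ _ e, key _ _ fun f hf => (e f hf).symm⟩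

/-- Paths in the lower half plane in two charts. -/
theorem conn_chC_low (hF : ∀ f ∈ F, f.2 < 0) (hG : ∀ f ∈ F, (f.1 + s - t, f.2) ∈ G)
    (h : Conn (chC s ω) F u v) :
    Conn (chC t ω) G (u.1 + s - t, u.2) (v.1 + s - t, v.2) := by
  induction h with
  | refl => exact Relation.ReflTransGen.refl
  | @tail v w _ hb ih =>
    refine Relation.ReflTransGen.tail ih ?_
    obtain ⟨x, y, hxy, hh⟩ := hb
    have h0 := hF _ hxy
    refine ⟨x + s - t, y, hG _ hxy, ?_⟩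
    have e : chC t ω (x + s - t, y) = chC s ω (x, y) := by
      unfold chC
      rw [chF_low h0, chF_low (by exact h0)]
      congr 2
      omega
    rw [e]
    rcases hh with ⟨h1, ⟨rfl, rfl⟩ | ⟨rfl, rfl⟩⟩ | ⟨h1, ⟨rfl, rfl⟩ | ⟨rfl, rfl⟩⟩
    · exact Or.inl ⟨h1, Or.inl ⟨rfl, Prod.ext (by simp only; omega) rfl⟩⟩
    · exact Or.inl ⟨h1, Or.inr ⟨Prod.ext (by simp only; omega) rfl, rfl⟩⟩
    · exact Or.inr ⟨h1, Or.inl ⟨rfl, Prod.ext (by simp only; omega) rfl⟩⟩
    · exact Or.inr ⟨h1, Or.inr ⟨Prod.ext (by simp only; omega) rfl, rfl⟩⟩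

/-! ### Probabilities -/

/-- The faces in the window for a chart of the cylinder. -/
def chW (m : ℕ) (s : ℤ) (f : ℤ × ℤ) : ℤ × ℤ :=
  if 0 ≤ f.2 then (f.1 % (2 * m + 1), f.2) else ((f.1 + s) % (2 * m), f.2)

theorem chC_perW (m : ℕ) (s : ℤ) (ω : Cfg) : chC s (perW m ω) = fun f => ω (chW m s f) := by
  funext f
  unfold chC perW chW
  rcases lt_or_ge f.2 0 with h | h
  · rw [chF_low h, if_neg (by simp only; omega), if_neg (by omega)]
  · rw [chF_up h, if_pos h, if_pos h]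

/-- An event in a chart, in the twisted plane. -/
theorem pr_chart {S W : Finset (ℤ × ℤ)} {A : Set Cfg} (hA : DepOn S A)
    (hW : ∀ f ∈ S, chF s f ∈ W) : pr W {ω | chC s ω ∈ A} = pr S A :=
  pr_comp (f := chF s) ((chF_inj s).injOn) hW hA

theorem emod_inj {L a x y : ℤ} (hL : 0 < L) (h : x % L = y % L) (hx : a ≤ x) (hx1 : x < a + L)
    (hy : a ≤ y) (hy1 : y < a + L) : x = y := by
  have h1 := Int.emod_add_mul_ediv x L
  have h2 := Int.emod_add_mul_ediv y L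
  have h3 : x - y = L * (x / L - y / L) := by
    rw [mul_sub]
    omega
  have h4 : x / L - y / L = 0 := by
    by_contra h5
    have h6 : 1 ≤ |x / L - y / L| := Int.one_le_abs h5
    have h7 : L * 1 ≤ |x - y| := by
      rw [h3, abs_mul, abs_of_pos hL]
      exact mul_le_mul_of_nonneg_left h6 hL.le
    have h8 : |x - y| < L := by
      rw [abs_lt]
      omega
    omega
  rw [h4, mul_zero] at h3
  omega

/-- An event in a chart, on the cylinder. -/
theorem pr_chart_perW {m : ℕ} {S W : Finset (ℤ × ℤ)} {A : Set Cfg} (hA : DepOn S A) {a : ℤ}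
    (hS : ∀ f ∈ S, a ≤ f.1 ∧ f.1 < a + 2 * m) (hW : ∀ f ∈ S, chW m s f ∈ W) :
    pr W {ω | chC s (perW m ω) ∈ A} = pr S A := by
  have e : {ω : Cfg | chC s (perW m ω) ∈ A} = {ω | (fun f => ω (chW m s f)) ∈ A} := by
    ext ω
    simp only [Set.mem_ofPred_eq, chC_perW]
  rw [e]
  refine pr_comp ?_ hW hA
  intro f hf g hg h
  rw [Finset.mem_coe] at hf hg
  obtain ⟨h1, h2⟩ := hS f hf
  obtain ⟨h3, h4⟩ := hS g hg
  unfold chW at h
  rcases lt_or_ge f.2 0 with h5 | h5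
  · rw [if_neg (by omega)] at h
    rcases lt_or_ge g.2 0 with h6 | h6
    · rw [if_neg (by omega), Prod.mk.injEq] at h
      have h7 := emod_inj (a := a + s) (by omega) h.1 (by omega) (by omega) (by omega) (by omega)
      exact Prod.ext (by omega) h.2
    · rw [if_pos h6, Prod.mk.injEq] at h
      omega
  · rw [if_pos h5] at h
    rcases lt_or_ge g.2 0 with h6 | h6
    · rw [if_neg (by omega), Prod.mk.injEq] at h
      omega
    · rw [if_pos h6, Prod.mk.injEq] at h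
      have h7 := emod_inj (a := a) (by omega) h.1 (by omega) (by omega) (by omega) (by omega)
      exact Prod.ext h7 h.2

/-- The window of the cylinder contains the faces of the strip. -/
theorem chW_mem {m M : ℕ} (hm : 0 < m) (h : -(M : ℤ) ≤ f.2 ∧ f.2 < M) : chW m s f ∈ FW m M := by
  unfold chW FW
  have h1 : (0 : ℤ) < 2 * m + 1 := by omega
  have h2 : (0 : ℤ) < 2 * m := by omega
  rw [mem_union]
  rcases lt_or_ge f.2 0 with h5 | h5
  · rw [if_neg (by omega)]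
    right
    rw [mem_RF]
    refine ⟨Int.emod_nonneg _ (by omega), ?_, h.1, h5⟩
    push_cast
    exact Int.emod_lt_of_pos _ h2
  · rw [if_pos h5]
    left
    rw [mem_RF]
    refine ⟨Int.emod_nonneg _ (by omega), ?_, h5, h.2⟩
    push_cast
    exact Int.emod_lt_of_pos _ h1

/-! ### Monotone events -/

/-- A monotone event which depends on `F` is monotone for every order which agrees on `F`. -/
theorem incD_of_depOn {D D' : ℤ × ℤ → Bool} {A : Set Cfg} (hA : DepOn F A) (hD : IncD D A)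
    (h : ∀ f ∈ F, D' f = D f) : IncD D' A := by
  classical
  intro ω ω' hle hω
  have h1 : (fun f => if f ∈ F then ω' f else ω f : Cfg) ∈ A := by
    refine hD ω _ (fun f hf => ?_) hω
    by_cases hfF : f ∈ F
    · have h2 := hle f (by
        unfold Perc.flip at hf ⊢
        rw [h f hfF]
        exact hf)
      unfold Perc.flip at h2 ⊢
      rw [h f hfF] at h2
      simp only [if_pos hfF]
      exact h2
    · unfold Perc.flip at hf ⊢
      simp only [if_neg hfF]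
      exact hf
  refine (hA _ _ fun f hf => ?_).1 h1
  simp only [if_pos hf]

/-- Monotone events under a change of the indices. -/
theorem incD_comp {D D' : ℤ × ℤ → Bool} {A : Set Cfg} (g : ℤ × ℤ → ℤ × ℤ) (hA : DepOn F A)
    (hD : IncD D A) (h : ∀ f ∈ F, D' (g f) = D f) : IncD D' {ω | (fun f => ω (g f)) ∈ A} := by
  intro ω ω' hle hω
  exact incD_of_depOn (D' := fun f => D' (g f)) hA hD h _ _ (fun f hf => hle (g f) hf) hω

/-- Dependence under a change of the indices. -/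
theorem depOn_comp {A : Set Cfg} (g : ℤ × ℤ → ℤ × ℤ) (hA : DepOn F A) (hG : ∀ f ∈ F, g f ∈ G) :
    DepOn G {ω | (fun f => ω (g f)) ∈ A} :=
  fun _ _ h => hA _ _ fun f hf => h _ (hG f hf)

end Pool.Agent.Perc

end Partperc3TwChart

section Partperc3TubeC

/-!
# Cells and tubes in the twisted plane

The cell `(i, j)` of the mesh `w` is the square `[i w, (i + 1) w] × [j w, (j + 1) w]` in the chart
`0` for `i ≥ 0` and in the chart `1` for `i < 0`. The tube event of a finite set of cells consists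
of crossings of the cells and of the unions of two adjacent cells.
-/

set_option autoImplicit false

namespace Pool.Agent.Perc

open Finset

/-- The faces of a cell in its chart. -/
noncomputable def sqF (w : ℤ) (g : ℤ × ℤ) : Finset (ℤ × ℤ) :=
  RF (g.1 * w) (g.1 * w + w) (g.2 * w) (g.2 * w + w)

/-- The faces of a cell. -/
noncomputable def cellF (w : ℤ) (g : ℤ × ℤ) : Finset (ℤ × ℤ) := (sqF w g).image (chF (chS g))

/-- The vertex `v` belongs to the closed cell `g`. -/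
def InCell (w : ℤ) (g v : ℤ × ℤ) : Prop :=
  g.2 * w ≤ v.2 ∧ v.2 ≤ g.2 * w + w ∧
    ((0 ≤ v.2 ∧ g.1 * w ≤ v.1 ∧ v.1 ≤ g.1 * w + w) ∨
      (v.2 < 0 ∧ g.1 * w + chS g ≤ v.1 ∧ v.1 ≤ g.1 * w + w + chS g))

/-- The parity of a vertex in the chart `s`. -/
def parV (s : ℤ) (v : ℤ × ℤ) : ℤ := if 0 ≤ v.2 then v.1 + v.2 else v.1 - s + v.2

variable {w c s : ℤ} {ω ω' : Cfg} {G G' : Finset (ℤ × ℤ)} {F : Set (ℤ × ℤ)} {f g g' u v : ℤ × ℤ}

theorem chS_cases (g : ℤ × ℤ) : (g.1 < 0 ∧ chS g = 1) ∨ (0 ≤ g.1 ∧ chS g = 0) := by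
  unfold chS
  split_ifs <;> omega

theorem mem_cellF : f ∈ cellF w g ↔ g.2 * w ≤ f.2 ∧ f.2 < g.2 * w + w ∧
    ((0 ≤ f.2 ∧ g.1 * w ≤ f.1 ∧ f.1 < g.1 * w + w) ∨
      (f.2 < 0 ∧ g.1 * w + chS g ≤ f.1 ∧ f.1 < g.1 * w + w + chS g)) := by
  unfold cellF sqF
  rw [mem_image]
  constructor
  · rintro ⟨a, ha, rfl⟩
    rw [mem_RFi] at ha
    rcases lt_or_ge a.2 0 with h | h
    · rw [chF_low h]
      simp only
      omega
    · rw [chF_up h]
      omega
  · rintro ⟨h1, h2, ⟨h3, h4⟩ | ⟨h3, h4⟩⟩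
    · exact ⟨f, mem_RFi.2 (by omega), chF_up h3⟩
    · refine ⟨(f.1 - chS g, f.2), mem_RFi.2 ?_, ?_⟩
      · simp only
        omega
      · rw [chF_low (f := (f.1 - chS g, f.2)) h3]
        simp

theorem chF_mem_cellF (h : f ∈ sqF w g) : chF (chS g) f ∈ cellF w g := mem_image_of_mem _ h

theorem inCell_chF (h1 : g.2 * w ≤ u.2) (h2 : u.2 ≤ g.2 * w + w) (h3 : g.1 * w ≤ u.1)
    (h4 : u.1 ≤ g.1 * w + w) : InCell w g (chF (chS g) u) := by
  unfold InCell
  rcases lt_or_ge u.2 0 with h | h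
  · rw [chF_low h]
    simp only
    omega
  · rw [chF_up h]
    omega

theorem parV_chF : parV s (chF s u) = u.1 + u.2 := by
  unfold parV
  rcases lt_or_ge u.2 0 with h | h
  · rw [chF_low h, if_neg (by simp only; omega)]
    simp only
    omega
  · rw [chF_up h, if_pos h]

theorem mul_lt_of_lt {a b w : ℤ} (hw : 0 < w) (h : a < b) : a * w + w ≤ b * w := by
  have h1 : (a + 1) * w ≤ b * w := mul_le_mul_of_nonneg_right (by omega) hw.le
  rw [add_mul, one_mul] at h1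
  exact h1

theorem eq_of_mem_cell {a b w x : ℤ} (hw : 0 < w) (h1 : a * w ≤ x) (h2 : x < a * w + w)
    (h3 : b * w ≤ x) (h4 : x < b * w + w) : a = b := by
  rcases lt_trichotomy a b with h | h | h
  · have := mul_lt_of_lt hw h
    omega
  · exact h
  · have := mul_lt_of_lt hw h
    omega

/-- Different cells have no common face. -/
theorem cell_unique (hw : 2 ≤ w) (hg : CellOk g) (hg' : CellOk g') (h : f ∈ cellF w g)
    (h' : f ∈ cellF w g') : g = g' := by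
  rw [mem_cellF] at h h'
  obtain ⟨h1, h2, h3⟩ := h
  obtain ⟨k1, k2, k3⟩ := h'
  have e2 : g.2 = g'.2 := eq_of_mem_cell (by omega) h1 h2 k1 k2
  refine Prod.ext ?_ e2
  rcases h3 with ⟨h3, h4, h5⟩ | ⟨h3, h4, h5⟩ <;> rcases k3 with ⟨k3, k4, k5⟩ | ⟨k3, k4, k5⟩
  · exact eq_of_mem_cell (by omega) h4 h5 k4 k5
  · omega
  · omega
  · have hneg : g.2 < 0 := by
      by_contra hn
      have : 0 ≤ g.2 * w := mul_nonneg (by omega) (by omega)
      omega
    unfold CellOk at hg hg'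
    rcases chS_cases g with ⟨a1, a2⟩ | ⟨a1, a2⟩ <;> rcases chS_cases g' with ⟨b1, b2⟩ | ⟨b1, b2⟩
    · rw [a2] at h4 h5
      rw [b2] at k4 k5
      exact eq_of_mem_cell (x := f.1 - 1) (w := w) (by omega) (by omega) (by omega) (by omega)
        (by omega)
    · exfalso
      have hb : 0 < g'.1 := by omega
      have c1 := mul_lt_of_lt (w := w) (by omega) a1
      have c2 := mul_lt_of_lt (w := w) (by omega) hb
      rw [zero_mul] at c1 c2
      omega
    · exfalso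
      have hb : 0 < g.1 := by omega
      have c1 := mul_lt_of_lt (w := w) (by omega) b1
      have c2 := mul_lt_of_lt (w := w) (by omega) hb
      rw [zero_mul] at c1 c2
      omega
    · rw [a2] at h4 h5
      rw [b2] at k4 k5
      exact eq_of_mem_cell (x := f.1) (w := w) (by omega) (by omega) (by omega) (by omega)
        (by omega)

/-! ### The events -/

/-- The rectangles of a cell: the cell (two crossings), the union with the right neighbour and the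
union with the upper neighbour. -/
noncomputable def tR (w : ℤ) (g : ℤ × ℤ) (k : Fin 4) : Finset (ℤ × ℤ) :=
  ![sqF w g, sqF w g, RF (g.1 * w) (g.1 * w + 2 * w) (g.2 * w) (g.2 * w + w),
    RF (g.1 * w) (g.1 * w + w) (g.2 * w) (g.2 * w + 2 * w)] k

/-- The crossings. -/
def tA (w c : ℤ) (g : ℤ × ℤ) (k : Fin 4) : Set Cfg :=
  ![LR c (g.1 * w) (g.1 * w + w) (g.2 * w) (g.2 * w + w),
    BT c (g.1 * w) (g.1 * w + w) (g.2 * w) (g.2 * w + w),
    LR c (g.1 * w) (g.1 * w + 2 * w) (g.2 * w) (g.2 * w + w),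
    BT c (g.1 * w) (g.1 * w + w) (g.2 * w) (g.2 * w + 2 * w)] k

/-- The crossing `k` is required. -/
def tQ (G : Finset (ℤ × ℤ)) (g : ℤ × ℤ) (k : Fin 4) : Prop :=
  (k = 2 → (g.1 + 1, g.2) ∈ G) ∧ (k = 3 → (g.1, g.2 + 1) ∈ G)

/-- The tube event of the colour `c` of a set of cells. -/
def Tub (w c : ℤ) (G : Finset (ℤ × ℤ)) : Set Cfg :=
  {ω | ∀ g ∈ G, ∀ k, tQ G g k → chC (chS g) ω ∈ tA w c g k}

/-- The order for which the tube events of colour `c` are increasing. -/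
def colD (c : ℤ) (f : ℤ × ℤ) : Bool :=
  if f.2 < 0 ∧ f.1 ≤ 0 then parD c (f.1 - 1, f.2) else parD c f

theorem depOn_tA (w c : ℤ) (g : ℤ × ℤ) (k : Fin 4) : DepOn (tR w g k) (tA w c g k) := by
  fin_cases k
  · exact depOn_LR _ _ _ _ _
  · exact depOn_BT _ _ _ _ _
  · exact depOn_LR _ _ _ _ _
  · exact depOn_BT _ _ _ _ _

theorem incD_tA (w c : ℤ) (g : ℤ × ℤ) (k : Fin 4) : IncD (parD c) (tA w c g k) := by
  fin_cases k
  · exact incD_LR _ _ _ _ _
  · exact incD_BT' _ _ _ _ _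
  · exact incD_LR _ _ _ _ _
  · exact incD_BT' _ _ _ _ _

/-- The faces of the rectangles belong to the cells of `G`. -/
theorem tR_sub (hg : g ∈ G) {k : Fin 4} (hk : tQ G g k) (hG : ∀ g ∈ G, CellOk g)
    (hf : f ∈ tR w g k) : ∃ g' ∈ G, (g' = g ∨ (k = 2 ∧ g' = (g.1 + 1, g.2)) ∨
      (k = 3 ∧ g' = (g.1, g.2 + 1))) ∧ chF (chS g) f ∈ cellF w g' := by
  by_cases h0 : f ∈ sqF w g
  · exact ⟨g, hg, Or.inl rfl, chF_mem_cellF h0⟩
  · obtain ⟨hk2, hk3⟩ := hk
    have hh : (k = 2 ∧ f ∈ RF (g.1 * w) (g.1 * w + 2 * w) (g.2 * w) (g.2 * w + w)) ∨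
        (k = 3 ∧ f ∈ RF (g.1 * w) (g.1 * w + w) (g.2 * w) (g.2 * w + 2 * w)) := by
      fin_cases k
      · exact absurd hf h0
      · exact absurd hf h0
      · exact Or.inl ⟨rfl, hf⟩
      · exact Or.inr ⟨rfl, hf⟩
    unfold sqF at h0
    rw [mem_RFi] at h0
    clear hf
    rcases hh with ⟨rfl, hf⟩ | ⟨rfl, hf⟩
    · have h1 := hk2 rfl
      refine ⟨_, h1, Or.inr (Or.inl ⟨rfl, rfl⟩), ?_⟩
      rw [mem_RFi] at hf
      have hOk := hG _ hg
      have hOk1 := hG _ h1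
      unfold CellOk at hOk hOk1
      rw [mem_cellF]
      simp only at hOk hOk1 ⊢
      rw [add_mul, one_mul]
      rcases lt_or_ge f.2 0 with h | h
      · rw [chF_low h]
        have hneg : g.2 < 0 := by
          by_contra hn
          have hw : 0 < w := by omega
          have : 0 ≤ g.2 * w := mul_nonneg (by omega) (by omega)
          omega
        rcases chS_cases g with ⟨a1, a2⟩ | ⟨a1, a2⟩ <;>
          rcases chS_cases (g.1 + 1, g.2) with ⟨b1, b2⟩ | ⟨b1, b2⟩ <;>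
          simp only at b1 ⊢ <;> omega
      · rw [chF_up h]
        omega
    · have h1 := hk3 rfl
      refine ⟨_, h1, Or.inr (Or.inr ⟨rfl, rfl⟩), ?_⟩
      rw [mem_RFi] at hf
      have e : chS g = chS (g.1, g.2 + 1) := rfl
      rw [e]
      refine chF_mem_cellF ?_
      unfold sqF
      rw [mem_RFi]
      simp only
      rw [add_mul, one_mul]
      omega

/-- The faces of a set of cells. -/
noncomputable def cellsF (w : ℤ) (G : Finset (ℤ × ℤ)) : Finset (ℤ × ℤ) := G.biUnion (cellF w)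

theorem mem_cellsF : f ∈ cellsF w G ↔ ∃ g ∈ G, f ∈ cellF w g := mem_biUnion

theorem depOn_chC {S S' : Finset (ℤ × ℤ)} {A : Set Cfg} (hA : DepOn S A)
    (h : ∀ f ∈ S, chF s f ∈ S') : DepOn S' {ω | chC s ω ∈ A} :=
  depOn_comp (chF s) hA h

theorem depOn_tub_aux (hG : ∀ g ∈ G, CellOk g) (hg : g ∈ G) {k : Fin 4} (hk : tQ G g k) :
    DepOn (cellsF w G) {ω | chC (chS g) ω ∈ tA w c g k} := by
  refine depOn_chC (S := tR w g k) (depOn_tA w c g k) fun f hf => ?_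
  obtain ⟨g', h1, -, h3⟩ := tR_sub hg hk hG hf
  exact mem_cellsF.2 ⟨g', h1, h3⟩

/-- The tube event depends on the faces of the cells. -/
theorem depOn_tub (hG : ∀ g ∈ G, CellOk g) : DepOn (cellsF w G) (Tub w c G) := by
  intro ω ω' h
  refine forall_congr' fun g => forall_congr' fun hg => forall_congr' fun k =>
    forall_congr' fun hk => ?_
  exact depOn_tub_aux hG hg hk ω ω' h

theorem colD_chF (hw : 2 ≤ w) (hG : ∀ g ∈ G, CellOk g) (hg : g ∈ G) {k : Fin 4}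
    (hk : tQ G g k) (hf : f ∈ tR w g k) : colD c (chF (chS g) f) = parD c f := by
  obtain ⟨g', h1, h2, h3⟩ := tR_sub hg hk hG hf
  rcases lt_or_ge f.2 0 with h | h
  · rw [mem_cellF] at h3
    rw [chF_low h] at h3 ⊢
    simp only at h3
    have hOk := hG _ hg
    have hOk' := hG _ h1
    unfold CellOk at hOk hOk'
    have hneg : g'.2 < 0 := by
      by_contra hn
      have : 0 ≤ g'.2 * w := mul_nonneg (by omega) (by omega)
      omega
    unfold colD
    simp only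
    have key : chS g = chS g' := by
      rcases h2 with rfl | ⟨-, rfl⟩ | ⟨-, rfl⟩
      · rfl
      · simp only at hOk' hneg ⊢
        rcases chS_cases g with ⟨a1, a2⟩ | ⟨a1, a2⟩ <;>
          rcases chS_cases (g.1 + 1, g.2) with ⟨b1, b2⟩ | ⟨b1, b2⟩ <;>
          simp only at b1 <;> omega
      · rfl
    rcases chS_cases g' with ⟨b1, b2⟩ | ⟨b1, b2⟩
    · have c1 := mul_lt_of_lt (w := w) (by omega) b1
      rw [zero_mul] at c1
      rw [if_pos ⟨h, by omega⟩, key, b2, add_sub_cancel_right]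
    · have hb : 0 < g'.1 := by omega
      have c1 := mul_lt_of_lt (w := w) (by omega) hb
      rw [zero_mul] at c1
      rw [if_neg (by omega), key, b2, add_zero]
  · rw [chF_up h]
    unfold colD
    rw [if_neg (by omega)]

theorem incD_tub_aux (hw : 2 ≤ w) (hG : ∀ g ∈ G, CellOk g) (hg : g ∈ G) {k : Fin 4}
    (hk : tQ G g k) : IncD (colD c) {ω | chC (chS g) ω ∈ tA w c g k} :=
  incD_comp (F := (tR w g k : Set (ℤ × ℤ))) (chF (chS g)) (depOn_tA w c g k) (incD_tA w c g k)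
    fun _ hf => colD_chF hw hG hg hk hf

/-- The probability of a tube. -/
theorem pr_tub : ∃ c₀ : ℝ, 0 < c₀ ∧ c₀ ≤ 1 ∧ ∀ w c : ℤ, 2 ≤ w → ∀ G : Finset (ℤ × ℤ),
    (∀ g ∈ G, CellOk g) → c₀ ^ G.card ≤ pr (cellsF w G) (Tub w c G) := by
  classical
  obtain ⟨c', hc0, hc⟩ := PercT.rsw_holds 2
  have hc1 : c' ≤ 1 := by
    have h1 := (hc 0 0 1 0 1 (by norm_num) (by norm_num)).1 (by norm_num)
    exact h1.trans (pr_le_one _ _)
  refine ⟨c' ^ 4, by positivity, pow_le_one₀ hc0.le hc1, fun w c hw G hG => ?_⟩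
  have hrect : ∀ g : ℤ × ℤ, ∀ k : Fin 4, c' ≤ pr (tR w g k) (tA w c g k) := by
    intro g k
    fin_cases k
    · exact (hc _ _ _ _ _ (by omega) (by omega)).1 (by push_cast; omega)
    · exact (hc _ _ _ _ _ (by omega) (by omega)).2 (by push_cast; omega)
    · exact (hc _ _ _ _ _ (by omega) (by omega)).1 (by push_cast; omega)
    · exact (hc _ _ _ _ _ (by omega) (by omega)).2 (by push_cast; omega)
  let A : (ℤ × ℤ) × Fin 4 → Set Cfg := fun i =>
    {ω | tQ G i.1 i.2 → chC (chS i.1) ω ∈ tA w c i.1 i.2}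
  have hA : ∀ i ∈ G ×ˢ (univ : Finset (Fin 4)),
      DepOn (cellsF w G) (A i) ∧ IncD (colD c) (A i) ∧ c' ≤ pr (cellsF w G) (A i) := by
    rintro ⟨g, k⟩ hi
    have hg : g ∈ G := (mem_product.1 hi).1
    by_cases hk : tQ G g k
    · have e : A (g, k) = {ω | chC (chS g) ω ∈ tA w c g k} := by
        ext ω
        exact ⟨fun h => h hk, fun h _ => h⟩
      rw [e]
      refine ⟨depOn_tub_aux hG hg hk, incD_tub_aux hw hG hg hk, ?_⟩
      rw [pr_chart (S := tR w g k) (depOn_tA w c g k) fun f hf => ?_]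
      · exact hrect g k
      · obtain ⟨g', h1, -, h3⟩ := tR_sub hg hk hG hf
        exact mem_cellsF.2 ⟨g', h1, h3⟩
    · have e : A (g, k) = Set.univ := by
        ext ω
        exact ⟨fun _ => trivial, fun _ h => absurd h hk⟩
      rw [e, PercT.TubeP.pr_univ]
      exact ⟨fun _ _ _ => Iff.rfl, fun _ _ _ _ => trivial, hc1⟩
  have h1 := harris_list (colD c) (G ×ˢ (univ : Finset (Fin 4))) A (fun i hi => (hA i hi).1)
    (fun i hi => (hA i hi).2.1)
  have h2 : (c' ^ 4) ^ G.card ≤ ∏ i ∈ G ×ˢ (univ : Finset (Fin 4)), pr (cellsF w G) (A i) := by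
    have h3 : (c' ^ 4) ^ G.card = ∏ _i ∈ G ×ˢ (univ : Finset (Fin 4)), c' := by
      rw [prod_const, card_product, card_univ, Fintype.card_fin, ← pow_mul, mul_comm]
    rw [h3]
    exact prod_le_prod (fun _ _ => hc0.le) fun i hi => (hA i hi).2.2
  refine h2.trans (h1.trans (pr_mono _ ?_))
  intro ω hω g hg k hk
  exact hω (g, k) (mem_product.2 ⟨hg, mem_univ _⟩) hk

/-! ### Representatives and connections -/

open Classical in
/-- The representative of a cell: the beginning of the left-right crossing. -/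
noncomputable def rep (w c : ℤ) (ω : Cfg) (g : ℤ × ℤ) : ℤ × ℤ :=
  if h : chC (chS g) ω ∈ LR c (g.1 * w) (g.1 * w + w) (g.2 * w) (g.2 * w + w) then
    chF (chS g) h.choose else (0, 0)

theorem tub_LR (h : ω ∈ Tub w c G) (hg : g ∈ G) :
    chC (chS g) ω ∈ LR c (g.1 * w) (g.1 * w + w) (g.2 * w) (g.2 * w + w) :=
  h g hg 0 ⟨fun h => absurd h (by decide), fun h => absurd h (by decide)⟩

theorem tub_BT (h : ω ∈ Tub w c G) (hg : g ∈ G) :
    chC (chS g) ω ∈ BT c (g.1 * w) (g.1 * w + w) (g.2 * w) (g.2 * w + w) :=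
  h g hg 1 ⟨fun h => absurd h (by decide), fun h => absurd h (by decide)⟩

theorem tub_H (h : ω ∈ Tub w c G) (hg : g ∈ G) (hg' : (g.1 + 1, g.2) ∈ G) :
    chC (chS g) ω ∈ LR c (g.1 * w) (g.1 * w + 2 * w) (g.2 * w) (g.2 * w + w) :=
  h g hg 2 ⟨fun _ => hg', fun h => absurd h (by decide)⟩

theorem tub_V (h : ω ∈ Tub w c G) (hg : g ∈ G) (hg' : (g.1, g.2 + 1) ∈ G) :
    chC (chS g) ω ∈ BT c (g.1 * w) (g.1 * w + w) (g.2 * w) (g.2 * w + 2 * w) :=
  h g hg 3 ⟨fun h => absurd h (by decide), fun _ => hg'⟩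

/-- The representative in its chart. -/
theorem rep_spec (h : ω ∈ Tub w c G) (hg : g ∈ G) : ∃ u v : ℤ × ℤ, rep w c ω g = chF (chS g) u ∧
    u.1 = g.1 * w ∧ g.2 * w ≤ u.2 ∧ u.2 ≤ g.2 * w + w ∧ v.1 = g.1 * w + w ∧
    (u.1 + u.2 - c) % 2 = 0 ∧ Conn (chC (chS g) ω) (sqF w g) u v := by
  have h1 := tub_LR h hg
  obtain ⟨v, h2, h3, h4, h5, h6, h7⟩ := h1.choose_spec
  exact ⟨h1.choose, v, by unfold rep; rw [dif_pos h1], h2, h3, h4, h5, h6, h7⟩

theorem rep_inCell (hw : 0 ≤ w) (h : ω ∈ Tub w c G) (hg : g ∈ G) :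
    InCell w g (rep w c ω g) := by
  obtain ⟨u, v, h1, h2, h3, h4, -⟩ := rep_spec h hg
  rw [h1]
  exact inCell_chF h3 h4 h2.ge (by omega)

theorem rep_parV (h : ω ∈ Tub w c G) (hg : g ∈ G) :
    (parV (chS g) (rep w c ω g) - c) % 2 = 0 := by
  obtain ⟨u, v, h1, h2, h3, h4, h5, h6, -⟩ := rep_spec h hg
  rw [h1, parV_chF]
  exact h6

/-- The crossings of two squares with a common side and of their union. -/
theorem conn_squares {η : Cfg} {x₀ y₀ : ℤ} (hw : 0 < w) {u v p q u' v' p' q' a b : ℤ × ℤ}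
    (hu : u.1 = x₀ ∧ y₀ ≤ u.2 ∧ u.2 ≤ y₀ + w) (hv : v.1 = x₀ + w)
    (hp : p.2 = y₀ ∧ x₀ ≤ p.1 ∧ p.1 ≤ x₀ + w) (hq : q.2 = y₀ + w)
    (hu' : u'.1 = x₀ + w ∧ y₀ ≤ u'.2 ∧ u'.2 ≤ y₀ + w) (hv' : v'.1 = x₀ + 2 * w)
    (hp' : p'.2 = y₀ ∧ x₀ + w ≤ p'.1 ∧ p'.1 ≤ x₀ + 2 * w) (hq' : q'.2 = y₀ + w)
    (ha : a.1 = x₀ ∧ y₀ ≤ a.2 ∧ a.2 ≤ y₀ + w) (hb : b.1 = x₀ + 2 * w)
    (h1 : (u.1 + u.2 - c) % 2 = 0) (h2 : (p.1 + p.2 - c) % 2 = 0)
    (h3 : (u'.1 + u'.2 - c) % 2 = 0) (h4 : (p'.1 + p'.2 - c) % 2 = 0)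
    (h5 : (a.1 + a.2 - c) % 2 = 0)
    (k1 : Conn η (RF x₀ (x₀ + w) y₀ (y₀ + w)) u v) (k2 : Conn η (RF x₀ (x₀ + w) y₀ (y₀ + w)) p q)
    (k3 : Conn η (RF (x₀ + w) (x₀ + 2 * w) y₀ (y₀ + w)) u' v')
    (k4 : Conn η (RF (x₀ + w) (x₀ + 2 * w) y₀ (y₀ + w)) p' q')
    (k5 : Conn η (RF x₀ (x₀ + 2 * w) y₀ (y₀ + w)) a b) :
    Conn η (RF x₀ (x₀ + 2 * w) y₀ (y₀ + w)) u u' := by
  have m1 : (RF x₀ (x₀ + w) y₀ (y₀ + w) : Set (ℤ × ℤ)) ⊆ RF x₀ (x₀ + 2 * w) y₀ (y₀ + w) :=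
    PercT.Cross.rf_sub le_rfl (by omega) le_rfl le_rfl
  have m2 : (RF (x₀ + w) (x₀ + 2 * w) y₀ (y₀ + w) : Set (ℤ × ℤ)) ⊆
      RF x₀ (x₀ + 2 * w) y₀ (y₀ + w) :=
    PercT.Cross.rf_sub (by omega) le_rfl le_rfl le_rfl
  obtain ⟨z1, -, -, -, -, a1, a2⟩ := PercT.cross_meet (x₀ := x₀) (x₁ := x₀ + w) (x₀' := x₀)
    (x₁' := x₀ + w) (y₀ := y₀) (y₁ := y₀ + w) (y₀' := y₀) (y₁' := y₀ + w) le_rfl (by omega)
    le_rfl le_rfl (by omega) le_rfl hu hv hp hq (by omega) k1 k2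
  obtain ⟨z2, -, -, -, -, b1, b2⟩ := PercT.cross_meet (x₀ := x₀) (x₁ := x₀ + 2 * w) (x₀' := x₀)
    (x₁' := x₀ + w) (y₀ := y₀) (y₁ := y₀ + w) (y₀' := y₀) (y₁' := y₀ + w) le_rfl (by omega)
    (by omega) le_rfl (by omega) le_rfl ha hb hp hq (by omega) k5 k2
  obtain ⟨z3, -, -, -, -, c1, c2⟩ := PercT.cross_meet (x₀ := x₀) (x₁ := x₀ + 2 * w)
    (x₀' := x₀ + w) (x₁' := x₀ + 2 * w) (y₀ := y₀) (y₁ := y₀ + w) (y₀' := y₀) (y₁' := y₀ + w)
    (by omega) (by omega) le_rfl le_rfl (by omega) le_rfl ha hb hp' hq' (by omega) k5 k4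
  obtain ⟨z4, -, -, -, -, d1, d2⟩ := PercT.cross_meet (x₀ := x₀ + w) (x₁ := x₀ + 2 * w)
    (x₀' := x₀ + w) (x₁' := x₀ + 2 * w) (y₀ := y₀) (y₁ := y₀ + w) (y₀' := y₀) (y₁' := y₀ + w)
    le_rfl (by omega) le_rfl le_rfl (by omega) le_rfl hu' hv' hp' hq' (by omega) k3 k4
  exact (((a1.mono m1).trans (Conn.symm (a2.mono m1))).trans
    ((b2.mono m1).trans (Conn.symm b1))).trans
    ((c1.trans (Conn.symm (c2.mono m2))).trans ((d2.mono m2).trans (Conn.symm (d1.mono m2))))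

/-- The same for two squares on top of each other. -/
theorem conn_squares' {η : Cfg} {x₀ y₀ : ℤ} (hw : 0 < w) {u v u' v' a b : ℤ × ℤ}
    (hu : u.1 = x₀ ∧ y₀ ≤ u.2 ∧ u.2 ≤ y₀ + w) (hv : v.1 = x₀ + w)
    (hu' : u'.1 = x₀ ∧ y₀ + w ≤ u'.2 ∧ u'.2 ≤ y₀ + 2 * w) (hv' : v'.1 = x₀ + w)
    (ha : a.2 = y₀ ∧ x₀ ≤ a.1 ∧ a.1 ≤ x₀ + w) (hb : b.2 = y₀ + 2 * w)
    (h1 : (u.1 + u.2 - c) % 2 = 0) (h3 : (u'.1 + u'.2 - c) % 2 = 0)
    (h5 : (a.1 + a.2 - c) % 2 = 0)
    (k1 : Conn η (RF x₀ (x₀ + w) y₀ (y₀ + w)) u v)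
    (k3 : Conn η (RF x₀ (x₀ + w) (y₀ + w) (y₀ + 2 * w)) u' v')
    (k5 : Conn η (RF x₀ (x₀ + w) y₀ (y₀ + 2 * w)) a b) :
    Conn η (RF x₀ (x₀ + w) y₀ (y₀ + 2 * w)) u u' := by
  have m1 : (RF x₀ (x₀ + w) y₀ (y₀ + w) : Set (ℤ × ℤ)) ⊆ RF x₀ (x₀ + w) y₀ (y₀ + 2 * w) :=
    PercT.Cross.rf_sub le_rfl le_rfl le_rfl (by omega)
  have m2 : (RF x₀ (x₀ + w) (y₀ + w) (y₀ + 2 * w) : Set (ℤ × ℤ)) ⊆
      RF x₀ (x₀ + w) y₀ (y₀ + 2 * w) :=
    PercT.Cross.rf_sub le_rfl le_rfl (by omega) le_rfl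
  obtain ⟨z1, -, -, -, -, a1, a2⟩ := PercT.cross_meet (x₀ := x₀) (x₁ := x₀ + w) (x₀' := x₀)
    (x₁' := x₀ + w) (y₀ := y₀) (y₁ := y₀ + w) (y₀' := y₀) (y₁' := y₀ + 2 * w) le_rfl (by omega)
    le_rfl le_rfl (by omega) (by omega) hu hv ha hb (by omega) k1 k5
  obtain ⟨z2, -, -, -, -, b1, b2⟩ := PercT.cross_meet (x₀ := x₀) (x₁ := x₀ + w) (x₀' := x₀)
    (x₁' := x₀ + w) (y₀ := y₀ + w) (y₁ := y₀ + 2 * w) (y₀' := y₀) (y₁' := y₀ + 2 * w) le_rfl
    (by omega) le_rfl (by omega) (by omega) le_rfl hu' hv' ha hb (by omega) k3 k5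
  exact ((a1.mono m1).trans (Conn.symm a2)).trans (b2.trans (Conn.symm (b1.mono m2)))

theorem chOk_emP {S : Set (ℤ × ℤ)} (h : ∀ f ∈ S, f.2 = -1 → (s = 0 ∧ 0 ≤ f.1) ∨ (s = 1 ∧ f.1 ≤ -3)) :
    ChOk emP s S := by
  intro f hf h1
  unfold emP
  rcases h f hf h1 with ⟨rfl, h2⟩ | ⟨rfl, h2⟩
  · rw [if_pos (by omega), if_pos (by omega)]
    omega
  · rw [if_neg (by omega), if_neg (by omega)]
    omega

/-- The chart of the rectangles is valid. -/
theorem chOk_tR (hw : 2 ≤ w) (hG : ∀ g ∈ G, CellOk g) (hg : g ∈ G) {k : Fin 4}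
    (hk : tQ G g k) : ChOk emP (chS g) (tR w g k : Set (ℤ × ℤ)) := by
  refine chOk_emP fun f hf h1 => ?_
  obtain ⟨g', h2, h3, h4⟩ := tR_sub hg hk hG hf
  rw [mem_cellF, chF_low (by omega)] at h4
  simp only at h4
  have hOk := hG _ hg
  have hOk' := hG _ h2
  unfold CellOk at hOk hOk'
  have hneg : g'.2 = -1 := eq_of_mem_cell (x := f.2) (w := w) (by omega) h4.1 h4.2.1 (by omega)
    (by omega)
  have key : chS g = chS g' := by
    rcases h3 with rfl | ⟨-, rfl⟩ | ⟨-, rfl⟩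
    · rfl
    · simp only at hOk' hneg ⊢
      rcases chS_cases g with ⟨a1, a2⟩ | ⟨a1, a2⟩ <;>
        rcases chS_cases (g.1 + 1, g.2) with ⟨b1, b2⟩ | ⟨b1, b2⟩ <;>
        simp only at b1 <;> omega
    · rfl
  rw [key] at h4 ⊢
  rcases chS_cases g' with ⟨b1, b2⟩ | ⟨b1, b2⟩
  · have hb : g'.1 < -1 := by omega
    have c1 := mul_lt_of_lt (w := w) (by omega) hb
    right
    omega
  · have c1 : 0 ≤ g'.1 * w := mul_nonneg b1 (by omega)
    left
    omega

/-- Adjacent cells: the representatives are connected in the faces of the two cells. -/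
theorem tub_adj (hw : 2 ≤ w) (hG : ∀ g ∈ G, CellOk g) (h : ω ∈ Tub w c G) (hg : g ∈ G)
    (hg' : g' ∈ G) (ha : CAdj g g') :
    ConnW emP ω (cellF w g ∪ cellF w g' : Finset (ℤ × ℤ)) (rep w c ω g) (rep w c ω g') := by
  -- the two basic cases
  have hH : ∀ g, g ∈ G → (g.1 + 1, g.2) ∈ G →
      ConnW emP ω (cellF w g ∪ cellF w (g.1 + 1, g.2) : Finset (ℤ × ℤ)) (rep w c ω g)
        (rep w c ω (g.1 + 1, g.2)) := by
    intro g hg hg'
    have hk : tQ G g 2 := ⟨fun _ => hg', fun h => absurd h (by decide)⟩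
    have hok := chOk_tR hw hG hg hk
    have hOk := hG _ hg
    have hOk' := hG _ hg'
    unfold CellOk at hOk hOk'
    simp only at hOk'
    obtain ⟨u, v, e1, u1, u2, u3, v1, u4, k1⟩ := rep_spec h hg
    obtain ⟨u', v', e1', u1', u2', u3', v1', u4', k1'⟩ := rep_spec h hg'
    obtain ⟨p, q, p1, p2, p3, q1, p4, k2⟩ := tub_BT h hg
    obtain ⟨p', q', p1', p2', p3', q1', p4', k2'⟩ := tub_BT h hg'
    obtain ⟨a, b, a1, a2, a3, b1, a4, k5⟩ := tub_H h hg hg'
    -- the right neighbour in the chart of `g`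
    have hch : (chS (g.1 + 1, g.2) = chS g) ∨ 0 ≤ g.2 := by
      rcases chS_cases g with ⟨a1, a2⟩ | ⟨a1, a2⟩ <;>
        rcases chS_cases (g.1 + 1, g.2) with ⟨b1, b2⟩ | ⟨b1, b2⟩ <;>
        simp only at b1 <;> omega
    have key : ∀ {x y : ℤ × ℤ}, Conn (chC (chS (g.1 + 1, g.2)) ω) (sqF w (g.1 + 1, g.2)) x y →
        Conn (chC (chS g) ω) (sqF w (g.1 + 1, g.2)) x y := by
      intro x y hxy
      rcases hch with h1 | h1
      · rw [← h1]
        exact hxy
      · have hpos : ∀ f ∈ (sqF w (g.1 + 1, g.2) : Set (ℤ × ℤ)), 0 ≤ f.2 := by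
          intro f hf
          have hf' := mem_RFi.1 (Finset.mem_coe.1 hf)
          have : 0 ≤ g.2 * w := mul_nonneg h1 (by omega)
          simp only at hf'
          omega
        exact (conn_chC_up hpos).2 ((conn_chC_up hpos).1 hxy)
    have hrep : chF (chS (g.1 + 1, g.2)) u' = chF (chS g) u' := by
      rcases hch with h1 | h1
      · rw [h1]
      · have : 0 ≤ g.2 * w := mul_nonneg h1 (by omega)
        simp only at u2'
        rw [chF_up (by omega), chF_up (by omega)]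
    have k1'' := key k1'
    have k2'' := key k2'
    unfold sqF at k1 k1'' k2''
    simp only at u1' u2' u3' v1' p1' p2' p3' q1' k1'' k2''
    rw [add_mul, one_mul] at u1' v1' p2' p3' k1'' k2''
    rw [show g.1 * w + w + w = g.1 * w + 2 * w by ring] at v1' p3' k1'' k2''
    have hc := conn_squares (c := c) (w := w) (by omega) ⟨u1, u2, u3⟩ v1 ⟨p1, p2, p3⟩ q1
      ⟨u1', u2', u3'⟩ v1' ⟨p1', p2', p3'⟩ q1' ⟨a1, a2, a3⟩ b1 u4 p4 u4' p4' a4 k1 k2 k1'' k2'' k5
    rw [e1, e1', hrep]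
    refine connW_chart (G := ((cellF w g ∪ cellF w (g.1 + 1, g.2) : Finset (ℤ × ℤ)) :
      Set (ℤ × ℤ))) hok ?_ hc
    intro f hf
    obtain ⟨g'', -, h3, h4⟩ := tR_sub hg hk hG hf
    rw [Finset.mem_coe, mem_union]
    rcases h3 with rfl | ⟨-, rfl⟩ | ⟨h3, -⟩
    · exact Or.inl h4
    · exact Or.inr h4
    · exact absurd h3 (by decide)
  have hV : ∀ g, g ∈ G → (g.1, g.2 + 1) ∈ G →
      ConnW emP ω (cellF w g ∪ cellF w (g.1, g.2 + 1) : Finset (ℤ × ℤ)) (rep w c ω g)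
        (rep w c ω (g.1, g.2 + 1)) := by
    intro g hg hg'
    have hk : tQ G g 3 := ⟨fun h => absurd h (by decide), fun _ => hg'⟩
    have hok := chOk_tR hw hG hg hk
    obtain ⟨u, v, e1, u1, u2, u3, v1, u4, k1⟩ := rep_spec h hg
    obtain ⟨u', v', e1', u1', u2', u3', v1', u4', k1'⟩ := rep_spec h hg'
    obtain ⟨a, b, a1, a2, a3, b1, a4, k5⟩ := tub_V h hg hg'
    have e : chS (g.1, g.2 + 1) = chS g := rfl
    rw [e] at e1' k1'
    unfold sqF at k1 k1'
    simp only at u1' u2' u3' v1' k1'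
    rw [add_mul, one_mul] at u2' u3' k1'
    rw [show g.2 * w + w + w = g.2 * w + 2 * w by ring] at u3' k1'
    have hc := conn_squares' (c := c) (w := w) (by omega) ⟨u1, u2, u3⟩ v1 ⟨u1', u2', u3'⟩ v1'
      ⟨a1, a2, a3⟩ b1 u4 u4' a4 k1 k1' k5
    rw [e1, e1']
    refine connW_chart (G := ((cellF w g ∪ cellF w (g.1, g.2 + 1) : Finset (ℤ × ℤ)) :
      Set (ℤ × ℤ))) hok ?_ hc
    intro f hf
    obtain ⟨g'', -, h3, h4⟩ := tR_sub hg hk hG hf
    rw [Finset.mem_coe, mem_union]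
    rcases h3 with rfl | ⟨h3, -⟩ | ⟨-, rfl⟩
    · exact Or.inl h4
    · exact absurd h3 (by decide)
    · exact Or.inr h4
  rcases ha with ⟨h1, h2⟩ | ⟨h1, h2⟩ | ⟨h1, h2⟩ | ⟨h1, h2⟩
  · obtain rfl : g' = (g.1 + 1, g.2) := Prod.ext h1 h2
    exact hH g hg hg'
  · obtain rfl : g = (g'.1 + 1, g'.2) := Prod.ext h1 h2.symm
    rw [union_comm]
    exact (hH g' hg' hg).symm'
  · obtain rfl : g' = (g.1, g.2 + 1) := Prod.ext h1 h2
    exact hV g hg hg'
  · obtain rfl : g = (g'.1, g'.2 + 1) := Prod.ext h1.symm h2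
    rw [union_comm]
    exact (hV g' hg' hg).symm'

/-- Connection along a chain of cells with the property `P`. -/
theorem tub_link (hw : 2 ≤ w) (hG : ∀ g ∈ G, CellOk g) (h : ω ∈ Tub w c G) {P : ℤ × ℤ → Prop}
    (hgg : Relation.ReflTransGen (fun a b => a ∈ G ∧ b ∈ G ∧ P a ∧ P b ∧ CAdj a b) g g') :
    ConnW emP ω {f | ∃ a ∈ G, P a ∧ f ∈ cellF w a} (rep w c ω g) (rep w c ω g') := by
  induction hgg with
  | refl => exact Relation.ReflTransGen.refl
  | tail _ hb ih =>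
    obtain ⟨h1, h2, h3, h4, h5⟩ := hb
    refine Relation.ReflTransGen.trans ih ((tub_adj hw hG h h1 h2 h5).mono ?_)
    intro f hf
    rcases mem_union.1 (Finset.mem_coe.1 hf) with h6 | h6
    · exact ⟨_, h1, h3, h6⟩
    · exact ⟨_, h2, h4, h6⟩

/-- Disjoint sets of cells have disjoint sets of faces. -/
theorem disjoint_cellsF (hw : 2 ≤ w) (hG : ∀ g ∈ G, CellOk g) (hG' : ∀ g ∈ G', CellOk g)
    (h : Disjoint G G') : Disjoint (cellsF w G) (cellsF w G') := by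
  rw [disjoint_left]
  intro f h1 h2
  obtain ⟨g, hg, h3⟩ := mem_cellsF.1 h1
  obtain ⟨g', hg', h4⟩ := mem_cellsF.1 h2
  obtain rfl := cell_unique hw (hG g hg) (hG' g' hg') h3 h4
  exact (disjoint_left.1 h) hg hg'

/-- The connection depends only on the glueing at the faces of `F`. -/
theorem ConnW.congr_em {em em' : ℤ → ℤ}
    (he : ∀ f ∈ F, f.2 = -1 → em f.1 = em' f.1 ∧ em (f.1 + 1) = em' (f.1 + 1))
    (h : ConnW em ω F u v) : ConnW em' ω F u v := by
  induction h with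
  | refl => exact Relation.ReflTransGen.refl
  | tail _ hb ih =>
    refine Relation.ReflTransGen.tail ih ?_
    rcases hb with hb | ⟨u', v', hb, h1, h2⟩
    · exact Or.inl hb
    · obtain ⟨f, hf, -, c1, c2⟩ := hb.exists_face
      refine Or.inr ⟨u', v', hb, ?_, ?_⟩
      · rw [h1]
        unfold twV
        split_ifs with h0
        · unfold IsCor at c1
          have h3 := he f hf.1 (by have := hf.2; omega)
          rcases c1.1 with h4 | h4
          · rw [h4, h3.1]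
          · rw [h4, h3.2]
        · rfl
      · rw [h2]
        unfold twV
        split_ifs with h0
        · unfold IsCor at c2
          have h3 := he f hf.1 (by have := hf.2; omega)
          rcases c2.1 with h4 | h4
          · rw [h4, h3.1]
          · rw [h4, h3.2]
        · rfl

/-- The connection depends on the faces of `F`. -/
theorem ConnW.congr_cfg {em : ℤ → ℤ} (he : ∀ f ∈ F, ω f = ω' f) (h : ConnW em ω F u v) :
    ConnW em ω' F u v := by
  have key : ∀ {H : Set (ℤ × ℤ)} {x y : ℤ × ℤ}, (∀ f ∈ H, ω f = ω' f) → Bond ω H x y →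
      Bond ω' H x y := by
    rintro H x y hH ⟨a, b, hab, hh⟩
    exact ⟨a, b, hab, by rw [← hH _ hab]; exact hh⟩
  induction h with
  | refl => exact Relation.ReflTransGen.refl
  | tail _ hb ih =>
    refine Relation.ReflTransGen.tail ih ?_
    rcases hb with hb | ⟨u', v', hb, h1, h2⟩
    · exact Or.inl (key (fun f hf => he f hf.1) hb)
    · exact Or.inr ⟨u', v', key (fun f hf => he f hf.1) hb, h1, h2⟩

end Pool.Agent.Perc

end Partperc3TubeC

section Partperc3OneArmT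

/-!
# One arm in the twisted plane (task OneArmT)

In a ball which does not meet the core a path of the twisted plane is a path of the square grid in a
chart (`TwChart`), so the bound `oneArm` of `percw/RswC` applies.
-/

set_option autoImplicit false

namespace Pool.Agent.Perc.Q

open Finset Pool.Agent.Perc

/-- The sup distance of two vertices in coordinates. -/
def dT (u v : ℤ × ℤ) : ℤ := max |u.1 - v.1| |u.2 - v.2|

/-- The chart with the shift `s` is exact in the box of radius `R` around `p`. -/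
def ChEx (s : ℤ) (p : ℤ × ℤ) (R : ℤ) : Prop :=
  ∀ x, p.1 - R ≤ x → x ≤ p.1 + R → p.2 - R ≤ 0 → 0 ≤ p.2 + R → ∀ l, emP l = x ↔ l = x + s

/-- A bond of the twisted plane at a vertex of the chart is a bond of the chart. -/
theorem bond_lift {ω : Cfg} {W : Set (ℤ × ℤ)} {s : ℤ} {p : ℤ × ℤ} {R : ℤ} (H : ChEx s p R)
    {w u2 : ℤ × ℤ} (h1 : p.1 - R < w.1) (h2 : w.1 < p.1 + R) (h3 : p.2 - R < w.2)
    (h4 : w.2 < p.2 + R) (hb : BondW emP ω W (chF s w) u2) :
    ∃ w2, chF s w2 = u2 ∧ Bond (chC s ω) (RFb p R) w w2 := by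
  rcases hb with hb | ⟨u', v', hb, hu, hv⟩
  · obtain ⟨x, y, ⟨_, hy⟩, hh⟩ := hb
    change 0 ≤ y at hy
    have hw2 : 0 ≤ (chF s w).2 := by
      rcases hh with ⟨_, ⟨h, _⟩ | ⟨h, _⟩⟩ | ⟨_, ⟨h, _⟩ | ⟨h, _⟩⟩ <;> rw [h] <;> simp only <;> omega
    rw [chF_snd] at hw2
    rw [chF_up hw2] at hh
    have hu2 : 0 ≤ u2.2 := by
      rcases hh with ⟨_, ⟨_, h⟩ | ⟨_, h⟩⟩ | ⟨_, ⟨_, h⟩ | ⟨_, h⟩⟩ <;> rw [h] <;> simp only <;> omega
    refine ⟨u2, chF_up hu2, x, y, ?_, ?_⟩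
    · rw [Finset.mem_coe, mem_RFb]
      rcases hh with ⟨_, ⟨h, _⟩ | ⟨h, _⟩⟩ | ⟨_, ⟨h, _⟩ | ⟨h, _⟩⟩ <;> rw [h] at h1 h2 h3 h4 <;>
        simp only at h1 h2 h3 h4 ⊢ <;> omega
    · have e : chC s ω (x, y) = ω (x, y) := by
        unfold chC
        rw [chF_up (by exact hy)]
      rw [e]
      exact hh
  · obtain ⟨x, y, ⟨_, hy⟩, hh⟩ := hb
    change y < 0 at hy
    -- both corners
    have hcu : (u'.1 = x ∨ u'.1 = x + 1) ∧ (u'.2 = y ∨ u'.2 = y + 1) := by
      rcases hh with ⟨_, ⟨h, _⟩ | ⟨h, _⟩⟩ | ⟨_, ⟨h, _⟩ | ⟨h, _⟩⟩ <;> rw [h] <;> simp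
    have hcv : (v'.1 = x ∨ v'.1 = x + 1) ∧ (v'.2 = y ∨ v'.2 = y + 1) := by
      rcases hh with ⟨_, ⟨_, h⟩ | ⟨_, h⟩⟩ | ⟨_, ⟨_, h⟩ | ⟨_, h⟩⟩ <;> rw [h] <;> simp
    have hw : w = (u'.1 - s, u'.2) := by
      unfold twV at hu
      split_ifs at hu with h0
      · have h5 : w.2 = 0 := by
          have := congrArg Prod.snd hu
          rwa [chF_snd] at this
        rw [chF_up (by omega)] at hu
        have h6 : emP u'.1 = w.1 := (congrArg Prod.fst hu).symm
        rw [H w.1 (by omega) (by omega) (by omega) (by omega)] at h6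
        exact Prod.ext (by simp only; omega) (by simp only; omega)
      · have h5 : w.2 = u'.2 := by
          have := congrArg Prod.snd hu
          rwa [chF_snd] at this
        rw [chF_low (by omega)] at hu
        have h6 : w.1 + s = u'.1 := congrArg Prod.fst hu
        exact Prod.ext (by simp only; omega) (by simp only; omega)
    have hw1 : w.1 = u'.1 - s := by rw [hw]
    have hw2 : w.2 = u'.2 := by rw [hw]
    refine ⟨(v'.1 - s, v'.2), ?_, x - s, y, ?_, ?_⟩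
    · rw [hv]
      unfold twV
      split_ifs with h0
      · rw [chF_up (by simp only; omega)]
        have h6 := (H (v'.1 - s) (by omega) (by omega) (by omega) (by omega) v'.1).2 (by omega)
        rw [h6]
        exact Prod.ext rfl (by simp only; omega)
      · rw [chF_low (by simp only; omega)]
        exact Prod.ext (by simp only; omega) rfl
    · rw [Finset.mem_coe, mem_RFb]
      simp only
      omega
    · have e : chC s ω (x - s, y) = ω (x, y) := by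
        unfold chC
        rw [chF_low (by exact hy)]
        simp
      rw [e, hw]
      rcases hh with ⟨h5, ⟨rfl, rfl⟩ | ⟨rfl, rfl⟩⟩ | ⟨h5, ⟨rfl, rfl⟩ | ⟨rfl, rfl⟩⟩
      · exact Or.inl ⟨h5, Or.inl ⟨rfl, Prod.ext (by simp only; omega) rfl⟩⟩
      · exact Or.inl ⟨h5, Or.inr ⟨Prod.ext (by simp only; omega) rfl, rfl⟩⟩
      · exact Or.inr ⟨h5, Or.inl ⟨rfl, Prod.ext (by simp only; omega) rfl⟩⟩
      · exact Or.inr ⟨h5, Or.inr ⟨Prod.ext (by simp only; omega) rfl, rfl⟩⟩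

/-- A path of the twisted plane which starts in the chart stays in the chart or reaches the boundary
of the box. -/
theorem path_lift {ω : Cfg} {W : Set (ℤ × ℤ)} {s : ℤ} {p : ℤ × ℤ} {R : ℤ} (H : ChEx s p R)
    {w z : ℤ × ℤ} (h1 : p.1 - R < w.1) (h2 : w.1 < p.1 + R) (h3 : p.2 - R < w.2)
    (h4 : w.2 < p.2 + R) (hb : ConnW emP ω W (chF s w) z) :
    (∃ z', chF s z' = z ∧ p.1 - R < z'.1 ∧ z'.1 < p.1 + R ∧ p.2 - R < z'.2 ∧ z'.2 < p.2 + R) ∨
      ∃ v, OnBd (p.1 - R) (p.1 + R) (p.2 - R) (p.2 + R) v ∧ Conn (chC s ω) (RFb p R) w v := by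
  have key : (∃ z', chF s z' = z ∧ p.1 - R < z'.1 ∧ z'.1 < p.1 + R ∧ p.2 - R < z'.2 ∧
      z'.2 < p.2 + R ∧ Conn (chC s ω) (RFb p R) w z') ∨
      ∃ v, OnBd (p.1 - R) (p.1 + R) (p.2 - R) (p.2 + R) v ∧ Conn (chC s ω) (RFb p R) w v := by
    induction hb with
    | refl => exact Or.inl ⟨w, rfl, h1, h2, h3, h4, Relation.ReflTransGen.refl⟩
    | @tail u v _ hbv ih =>
      rcases ih with ⟨u', rfl, a1, a2, a3, a4, a5⟩ | h
      · obtain ⟨v', rfl, hbd⟩ := bond_lift H a1 a2 a3 a4 hbv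
        obtain ⟨f, hf, _, hcu, hcv⟩ := hbd.exists_face
        unfold IsCor at hcu hcv
        by_cases hin : p.1 - R < v'.1 ∧ v'.1 < p.1 + R ∧ p.2 - R < v'.2 ∧ v'.2 < p.2 + R
        · exact Or.inl ⟨v', rfl, hin.1, hin.2.1, hin.2.2.1, hin.2.2.2, a5.tail hbd⟩
        · refine Or.inr ⟨v', ?_, a5.tail hbd⟩
          unfold OnBd
          omega
      · exact Or.inr h
  rcases key with ⟨z', b1, b2, b3, b4, b5, _⟩ | h
  · exact Or.inl ⟨z', b1, b2, b3, b4, b5⟩
  · exact Or.inr h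

theorem emP_iff_nonneg {x : ℤ} (hx : 0 ≤ x) (l : ℤ) : emP l = x ↔ l = x + 0 := by
  unfold emP
  split_ifs <;> omega

theorem emP_iff_neg {x : ℤ} (hx : x ≤ -2) (l : ℤ) : emP l = x ↔ l = x + 1 := by
  unfold emP
  split_ifs <;> omega

/-- Every ball which does not meet the core has a chart. -/
theorem exists_chart {v₀ : ℤ × ℤ} {R : ℤ} (hR : 2 ≤ R) (h : R + 4 ≤ max |v₀.1| |v₀.2|) :
    ∃ s, 0 ≤ s ∧ s ≤ 1 ∧ ChEx s v₀ (R - 2) := by
  rw [le_max_iff] at h
  by_cases h1 : R + 4 ≤ |v₀.2|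
  · refine ⟨0, le_rfl, by norm_num, ?_⟩
    intro x _ _ h4 h5
    rw [le_abs] at h1
    omega
  · have h2 : R + 4 ≤ |v₀.1| := by tauto
    rw [le_abs] at h2
    rcases h2 with h2 | h2
    · refine ⟨0, le_rfl, by norm_num, ?_⟩
      intro x h4 h5 _ _
      exact emP_iff_nonneg (by omega)
    · refine ⟨1, by norm_num, le_rfl, ?_⟩
      intro x h4 h5 _ _
      exact emP_iff_neg (by omega)

/-- One arm: a path of the faces of `W` from the ball of radius `g` to the outside of the ball of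
radius `R`, where the ball of radius `R` does not contain the core. -/
theorem oneArmT : ∃ C β : ℝ, 0 < C ∧ 0 < β ∧ ∀ (v₀ : ℤ × ℤ) (g R : ℤ) (W : Finset (ℤ × ℤ)),
    1 ≤ g → g ≤ R → R + 4 ≤ max |v₀.1| |v₀.2| →
    pr W {ξ | ∃ y z, dT y v₀ ≤ g ∧ R ≤ dT z v₀ ∧ ConnQ TQ ξ W y z} ≤ C * ((g : ℝ) / R) ^ β := by
  obtain ⟨C, β, hC, hβ, hone⟩ := oneArm
  refine ⟨2 * C * 8 ^ β + 8 ^ β, β, by positivity, hβ, ?_⟩
  intro v₀ g R W hg hgR hR
  have hg' : (0 : ℝ) < g := by exact_mod_cast (by omega : 0 < g)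
  have hR' : (0 : ℝ) < R := by exact_mod_cast (by omega : 0 < R)
  by_cases hbig : R < 8 * g
  · -- trivial case
    have h1 : (1 : ℝ) ≤ 8 ^ β * ((g : ℝ) / R) ^ β := by
      rw [← Real.mul_rpow (by norm_num) (by positivity)]
      refine Real.one_le_rpow ?_ hβ.le
      rw [← mul_div_assoc, one_le_div hR']
      exact_mod_cast hbig.le
    have h2 : (0 : ℝ) ≤ 2 * C * 8 ^ β * ((g : ℝ) / R) ^ β := by positivity
    calc _ ≤ (1 : ℝ) := pr_le_one _ _
      _ ≤ _ := by rw [add_mul]; linarith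
  rw [not_lt] at hbig
  obtain ⟨s, hs0, hs1, hex⟩ := exists_chart (by omega) hR
  set E : Set Cfg := {ξ | ∃ y z, dT y v₀ ≤ g ∧ R ≤ dT z v₀ ∧ ConnQ TQ ξ W y z} with hE
  have hdep : DepOn (W : Set (ℤ × ℤ)) E := by
    intro ω ω' h
    constructor
    · rintro ⟨y, z, h1, h2, h3⟩
      exact ⟨y, z, h1, h2, h3.congr h⟩
    · rintro ⟨y, z, h1, h2, h3⟩
      exact ⟨y, z, h1, h2, h3.congr fun f hf => (h f hf).symm⟩
  set W' : Finset (ℤ × ℤ) := W ∪ (RFb v₀ (R - 2)).image (chF s) with hW'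
  have e1 : pr W' E = pr W E := pr_eq_of_depOn hdep subset_union_left
  have hsub : ∀ ω ∈ E, ω ∈ {ω | chC s ω ∈ ArmB 0 v₀ (2 * g) (R - 2)} ∪
      {ω | chC s ω ∈ ArmB 1 v₀ (2 * g) (R - 2)} := by
    rintro ω ⟨y, z, hy, hz, hc⟩
    have hcw : ConnW emP ω W y z := (connQ_iff emP_mono).1 hc
    -- the chart at `y`
    obtain ⟨y', hy', hyc1, hyc2⟩ : ∃ y', chF s y' = y ∧ |y'.1 - y.1| ≤ 1 ∧ y'.2 = y.2 := by
      by_cases h0 : 0 ≤ y.2
      · exact ⟨y, chF_up h0, by simp, rfl⟩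
      · refine ⟨(y.1 - s, y.2), ?_, ?_, rfl⟩
        · rw [chF_low (by simp only; omega)]
          exact Prod.ext (by simp only; omega) rfl
        · simp only
          rw [abs_le]
          omega
    unfold dT at hy hz
    rw [max_le_iff, abs_le, abs_le] at hy
    rw [abs_le] at hyc1
    subst hy'
    rcases path_lift hex (w := y') (by omega) (by omega) (by omega) (by omega) hcw with
      ⟨z', rfl, b1, b2, b3, b4⟩ | ⟨v, hv, hvc⟩
    · exfalso
      have hz1 : |(chF s z').1 - z'.1| ≤ 1 := by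
        unfold chF
        split_ifs
        · simp
        · simp only
          rw [abs_le]
          omega
      have hz2 : (chF s z').2 = z'.2 := chF_snd
      rw [abs_le] at hz1
      rw [le_max_iff, le_abs, le_abs] at hz
      omega
    · rcases Int.emod_two_eq_zero_or_one (y'.1 + y'.2) with h | h
      · refine Or.inl ⟨y', v, by omega, by omega, by omega, by omega, by omega, hv, hvc⟩
      · refine Or.inr ⟨y', v, by omega, by omega, by omega, by omega, by omega, hv, hvc⟩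
  have hmem : ∀ f ∈ RFb v₀ (R - 2), chF s f ∈ W' := fun f hf =>
    mem_union_right _ (mem_image_of_mem _ hf)
  have hg2 : 0 < 2 * g := by omega
  have hgR2 : 2 * g ≤ R - 2 := by omega
  have h0 := hone 0 v₀ (2 * g) (R - 2) hg2 hgR2
  have h1 := hone 1 v₀ (2 * g) (R - 2) hg2 hgR2
  have hRr : (8 : ℝ) ≤ R := by exact_mod_cast (by omega : (8 : ℤ) ≤ R)
  have hpow : ((((2 * g : ℤ) : ℝ)) / ((R - 2 : ℤ) : ℝ)) ^ β ≤ 8 ^ β * ((g : ℝ) / R) ^ β := by
    rw [← Real.mul_rpow (by norm_num) (by positivity)]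
    push_cast
    refine Real.rpow_le_rpow (div_nonneg (by positivity) (by linarith)) ?_ hβ.le
    rw [← mul_div_assoc, div_le_div_iff₀ (by linarith) hR']
    nlinarith
  rw [← e1]
  calc pr W' E ≤ pr W' ({ω | chC s ω ∈ ArmB 0 v₀ (2 * g) (R - 2)} ∪
        {ω | chC s ω ∈ ArmB 1 v₀ (2 * g) (R - 2)}) := pr_mono _ hsub
    _ ≤ pr W' {ω | chC s ω ∈ ArmB 0 v₀ (2 * g) (R - 2)} +
        pr W' {ω | chC s ω ∈ ArmB 1 v₀ (2 * g) (R - 2)} := pr_union_le _ _ _
    _ = pr (RFb v₀ (R - 2)) (ArmB 0 v₀ (2 * g) (R - 2)) +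
        pr (RFb v₀ (R - 2)) (ArmB 1 v₀ (2 * g) (R - 2)) := by
        rw [pr_chart (depOn_ArmB 0 v₀ (2 * g) (R - 2)) hmem,
          pr_chart (depOn_ArmB 1 v₀ (2 * g) (R - 2)) hmem]
    _ ≤ C * (8 ^ β * ((g : ℝ) / R) ^ β) + C * (8 ^ β * ((g : ℝ) / R) ^ β) :=
        add_le_add (h0.trans (mul_le_mul_of_nonneg_left hpow hC.le))
          (h1.trans (mul_le_mul_of_nonneg_left hpow hC.le))
    _ ≤ (2 * C * 8 ^ β + 8 ^ β) * ((g : ℝ) / R) ^ β := by
        have : (0 : ℝ) ≤ 8 ^ β * ((g : ℝ) / R) ^ β := by positivity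
        nlinarith

end Pool.Agent.Perc.Q

end Partperc3OneArmT
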