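import Pool.Agent.Lib.MP_6bd702_zc.Pre
import Pool.Agent.Lib.MP_6bd702_zc.Y022
import Pool.Agent.Lib.MP_6bd702_z.Z101
import Pool.Agent.Lib.MP_6bd702_zc.Y021
import Pool.Agent.Lib.MP_6bd702_zc.Y017

section Partperc3Cyl3A

/-!
# The ring and the tube on the twisted cylinder: deterministic part
-/

set_option autoImplicit false

namespace Pool.Agent.Perc.Q

open Finset Pool.Agent.Perc

namespace Cyl3

variable {η : Cfg} {w y₀ c : ℤ} {m : ℕ}

/-- The faces of a row. -/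
def row (y₀ w : ℤ) : Set (ℤ × ℤ) := {f | y₀ ≤ f.2 ∧ f.2 < y₀ + w}

theorem rf_row (a b y₀ w : ℤ) : (RF a b y₀ (y₀ + w) : Set (ℤ × ℤ)) ⊆ row y₀ w := by
  intro f hf
  have := mem_RFi.1 (Finset.mem_coe.1 hf)
  exact ⟨this.2.2.1, this.2.2.2⟩

/-- A vertical crossing is connected to the domino around it. -/
theorem dom_link (hw : 0 < w) {i a b : ℤ} (ha : i * w ≤ a) (hab : a < b) (hb : b ≤ i * w + 2 * w)
    {u v u' v' : ℤ × ℤ}
    (hu : u.1 = i * w ∧ y₀ ≤ u.2 ∧ u.2 ≤ y₀ + w) (hv : v.1 = i * w + 2 * w)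
    (hu' : u'.2 = y₀ ∧ a ≤ u'.1 ∧ u'.1 ≤ b) (hv' : v'.2 = y₀ + w)
    (hp : (u.1 + u.2 - c) % 2 = 0) (hp' : (u'.1 + u'.2 - c) % 2 = 0)
    (h : Conn η (RF (i * w) (i * w + 2 * w) y₀ (y₀ + w)) u v)
    (h' : Conn η (RF a b y₀ (y₀ + w)) u' v') : Conn η (row y₀ w) u u' := by
  obtain ⟨z, -, -, -, -, h1, h2⟩ := PercT.cross_meet ha hab hb le_rfl (by omega) le_rfl hu hv hu'
    hv' (by omega) h h'
  exact (h1.mono (rf_row _ _ _ _)).trans (Conn.symm (h2.mono (rf_row _ _ _ _)))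

/-- The ring. -/
theorem ring_link (hw : 0 < w) (hLR : ∀ i : ℤ, η ∈ LR c (i * w) (i * w + 2 * w) y₀ (y₀ + w))
    (hBT : ∀ i : ℤ, η ∈ BT c (i * w) (i * w + w) y₀ (y₀ + w)) {i j a b a' b' : ℤ}
    {u v u' v' : ℤ × ℤ} (ha : i * w ≤ a) (hab : a < b) (hb : b ≤ i * w + 2 * w)
    (ha' : j * w ≤ a') (hab' : a' < b') (hb' : b' ≤ j * w + 2 * w)
    (hu : u.2 = y₀ ∧ a ≤ u.1 ∧ u.1 ≤ b) (hv : v.2 = y₀ + w)
    (hu' : u'.2 = y₀ ∧ a' ≤ u'.1 ∧ u'.1 ≤ b') (hv' : v'.2 = y₀ + w)
    (hp : (u.1 + u.2 - c) % 2 = 0) (hp' : (u'.1 + u'.2 - c) % 2 = 0)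
    (h : Conn η (RF a b y₀ (y₀ + w)) u v) (h' : Conn η (RF a' b' y₀ (y₀ + w)) u' v') :
    Conn η (row y₀ w) u u' := by
  choose p q p1 p2 p3 q1 p4 pq using hLR
  choose r s r1 r2 r3 s1 r4 rs using hBT
  have key : ∀ i, Conn η (row y₀ w) (p i) (p (i + 1)) := by
    intro i
    have e1 := dom_link (i := i) (a := (i + 1) * w) (b := (i + 1) * w + w) hw
      (by rw [add_mul]; omega) (by omega) (by rw [add_mul]; omega) ⟨p1 i, p2 i, p3 i⟩ (q1 i)
      ⟨r1 (i + 1), r2 (i + 1), r3 (i + 1)⟩ (s1 (i + 1)) (p4 i) (r4 (i + 1)) (pq i) (rs (i + 1))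
    have e2 := dom_link (i := i + 1) (a := (i + 1) * w) (b := (i + 1) * w + w) hw
      le_rfl (by omega) (by omega) ⟨p1 (i + 1), p2 (i + 1), p3 (i + 1)⟩ (q1 (i + 1))
      ⟨r1 (i + 1), r2 (i + 1), r3 (i + 1)⟩ (s1 (i + 1)) (p4 (i + 1)) (r4 (i + 1)) (pq (i + 1))
      (rs (i + 1))
    exact e1.trans (Conn.symm e2)
  have key2 : ∀ (n : ℕ) (i : ℤ), Conn η (row y₀ w) (p i) (p (i + n)) := by
    intro n
    induction n with
    | zero =>
      intro i
      rw [Nat.cast_zero, add_zero]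
      exact Relation.ReflTransGen.refl
    | succ n ih =>
      intro i
      have := key (i + n)
      rw [add_assoc] at this
      exact (ih i).trans (by exact_mod_cast this)
  have key3 : ∀ i j, Conn η (row y₀ w) (p i) (p j) := by
    intro i j
    rcases le_total i j with hij | hij
    · have := key2 (j - i).toNat i
      rwa [Int.toNat_of_nonneg (by omega), add_sub_cancel] at this
    · have := key2 (i - j).toNat j
      rw [Int.toNat_of_nonneg (by omega), add_sub_cancel] at this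
      exact Conn.symm this
  have e1 := dom_link hw ha hab hb ⟨p1 i, p2 i, p3 i⟩ (q1 i) hu hv (p4 i) hp (pq i) h
  have e2 := dom_link hw ha' hab' hb' ⟨p1 j, p2 j, p3 j⟩ (q1 j) hu' hv' (p4 j) hp' (pq j) h'
  exact (Conn.symm e1).trans ((key3 i j).trans e2)

theorem conn_cfg {ω ω' : Cfg} {F : Set (ℤ × ℤ)} {u v : ℤ × ℤ} (h : ∀ f ∈ F, ω f = ω' f)
    (hc : Conn ω F u v) : Conn ω' F u v := by
  induction hc with
  | refl => exact Relation.ReflTransGen.refl
  | tail _ hb ih =>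
    obtain ⟨x, y, hxy, hh⟩ := hb
    exact Relation.ReflTransGen.tail ih ⟨x, y, hxy, by rw [← h _ hxy]; exact hh⟩

theorem perW_up {ω : Cfg} {f : ℤ × ℤ} (h : 0 ≤ f.2) : perW m ω f = perC (2 * m + 1) ω f := by
  unfold perW perC
  rw [if_pos h]
  push_cast
  rfl

theorem perW_low {ω : Cfg} {f : ℤ × ℤ} (h : f.2 < 0) : perW m ω f = perC (2 * m) ω f := by
  unfold perW perC
  rw [if_neg (by omega)]
  push_cast
  rfl

theorem shift_perC (L : ℕ) (q : ℤ) (ξ : Cfg) : shiftC (L * q) 0 (perC L ξ) = perC L ξ := by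
  funext f
  simp only [shiftC, perC]
  rw [add_zero, Int.add_mul_emod_self_left]

/-- The crossings of the ring (`2 L` dominoes and cells). -/
def RGev (L : ℕ) (w : ℕ) (J : ℤ) (i : ℕ) (e : Bool) : Set Cfg :=
  if e then {ξ | perC (2 * (L * w)) ξ ∈ LR 1 (i * w) (i * w + 2 * w) ((-J - 1) * w)
    ((-J - 1) * w + w)}
  else {ξ | perC (2 * (L * w)) ξ ∈ BT 1 (i * w) (i * w + w) ((-J - 1) * w) ((-J - 1) * w + w)}

/-- The tube between the right and the left port. -/
def EWev (L : ℕ) (w : ℕ) (J : ℤ) : Set Cfg :=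
  {ξ | perC (2 * (L * w) + 1) ξ ∈ LR 0 (J * w) (2 * (L * w) + 1 - J * w) 0 w}

/-- The event of the fresh configuration. -/
def CylEv (L : ℕ) (w : ℕ) (J : ℤ) (G : Fin 3 → Finset (ℤ × ℤ)) : Set Cfg :=
  {ξ | (∀ i : Fin 3, perW (L * w) ξ ∈ Tub w ((i : ℕ) : ℤ) (G i)) ∧ ξ ∈ EWev L w J ∧
    ∀ i ∈ range (2 * L), ∀ e, ξ ∈ RGev L w J i e}

theorem ring_all {L w : ℕ} {J : ℤ} {ξ : Cfg} (hL : 0 < L)
    (h : ∀ i ∈ range (2 * L), ∀ e, ξ ∈ RGev L w J i e) (i : ℤ) :
    perC (2 * (L * w)) ξ ∈ LR 1 (i * w) (i * w + 2 * w) ((-J - 1) * w) ((-J - 1) * w + w) ∧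
      perC (2 * (L * w)) ξ ∈ BT 1 (i * w) (i * w + w) ((-J - 1) * w) ((-J - 1) * w + w) := by
  have hL' : (0 : ℤ) < 2 * L := by omega
  have hi0 : 0 ≤ i % (2 * L) := Int.emod_nonneg _ (by omega)
  have hi1 : i % (2 * L) < 2 * L := Int.emod_lt_of_pos _ hL'
  obtain ⟨j, hj⟩ := Int.eq_ofNat_of_zero_le hi0
  have hjr : j ∈ range (2 * L) := by rw [Finset.mem_range]; omega
  have h1 : perC (2 * (L * w)) ξ ∈ LR 1 (j * w) (j * w + 2 * w) ((-J - 1) * w)
      ((-J - 1) * w + w) := by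
    have := h j hjr true
    unfold RGev at this
    rwa [if_pos rfl] at this
  have h2 : perC (2 * (L * w)) ξ ∈ BT 1 (j * w) (j * w + w) ((-J - 1) * w)
      ((-J - 1) * w + w) := by
    have := h j hjr false
    unfold RGev at this
    rwa [if_neg (by decide)] at this
  have hs := shift_perC (2 * (L * w)) (i / (2 * L)) ξ
  have hpar : ((2 * (L * w) : ℕ) : ℤ) * (i / (2 * L)) % 2 = 0 := by
    push_cast
    rw [mul_assoc, Int.mul_emod_right]
  have e : (i : ℤ) * w = j * w + ((2 * (L * w) : ℕ) : ℤ) * (i / (2 * L)) := by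
    have h3 := Int.emod_add_mul_ediv i (2 * L)
    rw [hj] at h3
    conv_lhs => rw [← h3]
    push_cast
    ring
  constructor
  · have h3 := PercT.TubeP.LR_transl hpar hs h1
    rw [e, show (j : ℤ) * w + ((2 * (L * w) : ℕ) : ℤ) * (i / (2 * L)) + 2 * w =
      j * w + 2 * w + ((2 * (L * w) : ℕ) : ℤ) * (i / (2 * L)) by ring]
    exact h3
  · have h3 := PercT.TubeP.BT_transl hpar hs h2
    rw [e, show (j : ℤ) * w + ((2 * (L * w) : ℕ) : ℤ) * (i / (2 * L)) + w =
      j * w + w + ((2 * (L * w) : ℕ) : ℤ) * (i / (2 * L)) by ring]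
    exact h3


/-- The tube connects the right port and the translate of the left port. -/
theorem EW_link {L w : ℕ} {J : ℤ} {ξ : Cfg} (hw : 0 < w) (hJ : 0 ≤ J) (hJL : J + 2 ≤ L)
    {G G' : Finset (ℤ × ℤ)} (h0 : perW (L * w) ξ ∈ Tub w 0 G) (hE : (J, (0 : ℤ)) ∈ G)
    (h1 : perW (L * w) ξ ∈ Tub w 1 G') (hW : (-J - 1, (0 : ℤ)) ∈ G') (h2 : ξ ∈ EWev L w J) :
    Conn (perW (L * w) ξ) (RF (J * w) (2 * (L * w) + 1 - J * w) 0 w)
      (rep w 0 (perW (L * w) ξ) (J, 0))
      ((rep w 1 (perW (L * w) ξ) (-J - 1, 0)).1 + (2 * (L * w) + 1),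
        (rep w 1 (perW (L * w) ξ) (-J - 1, 0)).2) := by
  have hwz : (0 : ℤ) < w := by exact_mod_cast hw
  have hJw : 0 ≤ J * w := mul_nonneg hJ hwz.le
  have hLw : J * w + 2 * w ≤ L * w := by
    have := mul_le_mul_of_nonneg_right hJL hwz.le
    rw [add_mul] at this
    exact this
  have eN : (-J - 1) * (w : ℤ) = - (J * w) - w := by ring
  have eC : ((2 * (L * w) + 1 : ℕ) : ℤ) = 2 * (L * w) + 1 := by push_cast; ring
  set η := perW (L * w) ξ with hη
  -- the tube
  obtain ⟨a, b, a1, a2, a3, b1, a4, ab⟩ := h2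
  have ab' : Conn η (RF (J * w) (2 * (L * w) + 1 - J * w) 0 w) a b := by
    refine conn_cfg (fun f hf => ?_) ab
    have := mem_RFi.1 (Finset.mem_coe.1 hf)
    rw [hη, perW_up this.2.2.1]
  -- the right port
  obtain ⟨u, v, e1, u1, u2, u3, v1, u4, k1⟩ := rep_spec h0 hE
  obtain ⟨p, q, p1, p2, p3, q1, p4, k2⟩ := tub_BT h0 hE
  have hch : chS (J, (0 : ℤ)) = 0 := by unfold chS; rw [if_neg (by simp only; omega)]
  rw [hch, chF_zero] at e1
  rw [hch, chC_zero] at k1 k2
  unfold sqF at k1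
  simp only [zero_mul, zero_add] at u1 u2 u3 v1 p1 p2 p3 q1 k1 k2
  obtain ⟨z1, -, -, -, -, c1, c2⟩ := PercT.cross_meet le_rfl (by omega) le_rfl le_rfl
    hwz le_rfl ⟨u1, u2, u3⟩ v1 ⟨p1, p2, p3⟩ q1 (by omega) k1 k2
  obtain ⟨z2, -, -, -, -, d1, d2⟩ := PercT.cross_meet le_rfl (by omega) (by omega) le_rfl
    hwz le_rfl ⟨a1, a2, a3⟩ b1 ⟨p1, p2, p3⟩ q1 (by omega) ab' k2
  have m1 : (RF (J * w) (J * w + w) 0 w : Set (ℤ × ℤ)) ⊆ RF (J * w) (2 * (L * w) + 1 - J * w) 0 w :=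
    PercT.Cross.rf_sub le_rfl (by omega) le_rfl le_rfl
  have hEa : Conn η (RF (J * w) (2 * (L * w) + 1 - J * w) 0 w) u a :=
    ((c1.mono m1).trans (Conn.symm (c2.mono m1))).trans ((d2.mono m1).trans (Conn.symm d1))
  -- the left port
  obtain ⟨u', v', e1', u1', u2', u3', v1', u4', k1'⟩ := rep_spec h1 hW
  obtain ⟨p', q', p1', p2', p3', q1', p4', k2'⟩ := tub_BT h1 hW
  have hch' : chS (-J - 1, (0 : ℤ)) = 1 := by unfold chS; rw [if_pos (by simp only; omega)]
  rw [hch'] at e1' k1' k2'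
  unfold sqF at k1'
  simp only [zero_mul, zero_add] at u1' u2' u3' v1' p1' p2' p3' q1' k1' k2'
  rw [chF_up (by omega)] at e1'
  rw [eN] at u1' v1' p2' p3' k1' k2'
  have hup : ∀ f ∈ (RF (-(J * w) - w) (-(J * w) - w + w) 0 w : Set (ℤ × ℤ)), 0 ≤ f.2 := by
    intro f hf
    exact (mem_RFi.1 (Finset.mem_coe.1 hf)).2.2.1
  have k1'' := (conn_chC_up hup).1 k1'
  have k2'' := (conn_chC_up hup).1 k2'
  have hshift : ∀ {x y : ℤ × ℤ}, Conn η (RF (-(J * w) - w) (-(J * w) - w + w) 0 w) x y →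
      Conn η (RF (2 * (L * w) + 1 - J * w - w) (2 * (L * w) + 1 - J * w) 0 w)
        (x.1 + (2 * (L * w) + 1), x.2) (y.1 + (2 * (L * w) + 1), y.2) := by
    intro x y hxy
    have g1 : Conn (perC (2 * (L * w) + 1) ξ) (RF (-(J * w) - w) (-(J * w) - w + w) 0 w) x y :=
      conn_cfg (fun f hf => by rw [hη, perW_up (hup f hf)]) hxy
    have g2 := shift_perC (2 * (L * w) + 1) 1 ξ
    rw [mul_one] at g2
    rw [← g2] at g1
    have g3 := (conn_shift _ _ _ _ _ _).1 g1
    rw [eC] at g3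
    simp only [add_zero] at g3
    refine conn_cfg (fun f hf => ?_) (g3.mono ?_)
    · have := mem_RFi.1 (Finset.mem_coe.1 hf)
      rw [hη, perW_up this.2.2.1]
    · intro f hf
      have := mem_RFi.1 (Finset.mem_coe.1 hf)
      refine Finset.mem_coe.2 (mem_RFi.2 ?_)
      simp only at this
      omega
  have s1 := hshift k1''
  have s2 := hshift k2''
  obtain ⟨z3, -, -, -, -, f1, f2⟩ := PercT.cross_meet (u := (u'.1 + (2 * (L * w) + 1), u'.2))
    (v := (v'.1 + (2 * (L * w) + 1), v'.2)) (u' := (p'.1 + (2 * (L * w) + 1), p'.2))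
    (v' := (q'.1 + (2 * (L * w) + 1), q'.2)) le_rfl (by omega) le_rfl le_rfl
    hwz le_rfl ⟨by simp only; omega, u2', u3'⟩ (by simp only; omega)
    ⟨p1', by simp only; omega, by simp only; omega⟩ q1' (by simp only; omega) s1 s2
  obtain ⟨z4, -, -, -, -, g1, g2⟩ := PercT.cross_meet (u' := (p'.1 + (2 * (L * w) + 1), p'.2))
    (v' := (q'.1 + (2 * (L * w) + 1), q'.2)) (by omega) (by omega) le_rfl le_rfl
    hwz le_rfl ⟨a1, a2, a3⟩ b1
    ⟨p1', by simp only; omega, by simp only; omega⟩ q1' (by simp only; omega) ab' s2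
  have m2 : (RF (2 * (L * w) + 1 - J * w - w) (2 * (L * w) + 1 - J * w) 0 w : Set (ℤ × ℤ)) ⊆
      RF (J * w) (2 * (L * w) + 1 - J * w) 0 w :=
    PercT.Cross.rf_sub (by omega) le_rfl le_rfl le_rfl
  rw [e1, e1']
  exact hEa.trans ((g1.trans (Conn.symm (g2.mono m2))).trans
    ((f2.mono m2).trans (Conn.symm (f1.mono m2))))

/-- The ring connects the lower port and its translate. -/
theorem RG_link {L w : ℕ} {J : ℤ} {ξ : Cfg} (hw : 0 < w) (hJ : 0 < J) (hL : 0 < L)
    {G : Finset (ℤ × ℤ)} (h0 : perW (L * w) ξ ∈ Tub w 2 G) (hS : (-20, -J - 1) ∈ G)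
    (h : ∀ i ∈ range (2 * L), ∀ e, ξ ∈ RGev L w J i e) :
    Conn (perW (L * w) ξ) (row ((-J - 1) * w) w)
      (rep w 2 (perW (L * w) ξ) (-20, -J - 1))
      ((rep w 2 (perW (L * w) ξ) (-20, -J - 1)).1 + 2 * (L * w),
        (rep w 2 (perW (L * w) ξ) (-20, -J - 1)).2) := by
  have hwz : (0 : ℤ) < w := by exact_mod_cast hw
  have hJw : w ≤ J * w := by nlinarith
  have eN : (-J - 1) * (w : ℤ) = - (J * w) - w := by ring
  have eC : ((2 * (L * w) : ℕ) : ℤ) = 2 * (L * w) := by push_cast; ring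
  set η := perW (L * w) ξ with hη
  have hring := fun i => (ring_all (w := w) (J := J) hL h i)
  rw [eN] at hring
  obtain ⟨u, v, e1, u1, u2, u3, v1, u4, k1⟩ := rep_spec h0 hS
  obtain ⟨p, q, p1, p2, p3, q1, p4, k2⟩ := tub_BT h0 hS
  have hch : chS (-20, -J - 1) = 1 := by unfold chS; rw [if_pos (by norm_num)]
  rw [hch] at e1 k1 k2
  unfold sqF at k1
  simp only at u1 u2 u3 v1 p1 p2 p3 q1 k1 k2
  rw [eN] at u2 u3 p1 q1 k1 k2 ⊢
  rw [chF_low (by omega)] at e1
  have hdn : ∀ f ∈ (RF (-20 * w) (-20 * w + w) (-(J * w) - w) (-(J * w) - w + w) : Set (ℤ × ℤ)),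
      f.2 < 0 := by
    intro f hf
    have := mem_RFi.1 (Finset.mem_coe.1 hf)
    omega
  have hrow : ∀ f ∈ row (-(J * w) - w) w, f.2 < 0 := by
    intro f hf
    unfold row at hf
    obtain ⟨f1, f2⟩ := hf
    omega
  have hlow : ∀ {x y : ℤ × ℤ}, Conn (chC 1 η) (RF (-20 * w) (-20 * w + w) (-(J * w) - w)
      (-(J * w) - w + w)) x y →
      Conn (perC (2 * (L * w)) ξ) (RF (-20 * w + 1) (-20 * w + w + 1) (-(J * w) - w)
        (-(J * w) - w + w)) (x.1 + 1, x.2) (y.1 + 1, y.2) := by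
    intro x y hxy
    have g1 : Conn (shiftC 1 0 (perC (2 * (L * w)) ξ)) (RF (-20 * w) (-20 * w + w) (-(J * w) - w)
      (-(J * w) - w + w)) x y := by
      refine conn_cfg (fun f hf => ?_) hxy
      unfold chC shiftC
      rw [chF_low (hdn f hf), hη, perW_low (by exact hdn f hf)]
      simp only [add_zero]
    have g3 := (conn_shift _ _ _ _ _ _).1 g1
    simp only [add_zero] at g3
    refine g3.mono ?_
    intro f hf
    have := mem_RFi.1 (Finset.mem_coe.1 hf)
    refine Finset.mem_coe.2 (mem_RFi.2 ?_)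
    simp only at this
    omega
  have s1 := hlow k1
  have s2 := hlow k2
  obtain ⟨z1, -, -, -, -, c1, c2⟩ := PercT.cross_meet (u := (u.1 + 1, u.2))
    (v := (v.1 + 1, v.2)) (u' := (p.1 + 1, p.2)) (v' := (q.1 + 1, q.2)) le_rfl (by omega) le_rfl
    le_rfl (by omega) le_rfl ⟨by simp only; omega, u2, u3⟩ (by simp only; omega)
    ⟨p1, by simp only; omega, by simp only; omega⟩ q1 (by simp only; omega) s1 s2
  have c3 : Conn (perC (2 * (L * w)) ξ) (row (-(J * w) - w) w) (u.1 + 1, u.2) (p.1 + 1, p.2) :=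
    (c1.mono (rf_row _ _ _ _)).trans (Conn.symm (c2.mono (rf_row _ _ _ _)))
  have hsh : ∀ {F F' : Set (ℤ × ℤ)} {x y : ℤ × ℤ},
      (∀ f ∈ F, (f.1 + 2 * (L * w), f.2) ∈ F') → Conn (perC (2 * (L * w)) ξ) F x y →
      Conn (perC (2 * (L * w)) ξ) F' (x.1 + 2 * (L * w), x.2) (y.1 + 2 * (L * w), y.2) := by
    intro F F' x y hF hxy
    have g2 := shift_perC (2 * (L * w)) 1 ξ
    rw [mul_one] at g2
    rw [← g2] at hxy
    have g3 := (conn_shift _ _ _ _ _ _).1 hxy
    rw [eC] at g3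
    simp only [add_zero] at g3
    refine g3.mono ?_
    intro f hf
    have := hF _ hf
    simpa using this
  have c4 : Conn (perC (2 * (L * w)) ξ) (row (-(J * w) - w) w) (u.1 + 1 + 2 * (L * w), u.2)
      (p.1 + 1 + 2 * (L * w), p.2) := hsh (F := row (-(J * w) - w) w) (fun f hf => hf) c3
  have s4 : Conn (perC (2 * (L * w)) ξ) (RF (-20 * w + 1 + 2 * (L * w))
      (-20 * w + w + 1 + 2 * (L * w)) (-(J * w) - w) (-(J * w) - w + w))
      (p.1 + 1 + 2 * (L * w), p.2) (q.1 + 1 + 2 * (L * w), q.2) := by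
    refine hsh (fun f hf => ?_) s2
    have := mem_RFi.1 (Finset.mem_coe.1 hf)
    refine Finset.mem_coe.2 (mem_RFi.2 ?_)
    simp only
    omega
  have c5 := ring_link (c := 1) (i := -20) (j := -20 + 2 * L) (a := -20 * w + 1)
    (b := -20 * w + w + 1) (a' := -20 * w + 1 + 2 * (L * w)) (b' := -20 * w + w + 1 + 2 * (L * w))
    (u := (p.1 + 1, p.2)) (v := (q.1 + 1, q.2)) (u' := (p.1 + 1 + 2 * (L * w), p.2))
    (v' := (q.1 + 1 + 2 * (L * w), q.2)) hwz (fun i => (hring i).1) (fun i => (hring i).2)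
    (by omega) (by omega) (by omega)
    (by rw [add_mul, mul_assoc]; omega) (by omega) (by rw [add_mul, mul_assoc]; omega)
    ⟨p1, by simp only; omega, by simp only; omega⟩ q1
    ⟨p1, by simp only; omega, by simp only; omega⟩ q1 (by simp only; omega) (by simp only; omega)
    s2 s4
  have c6 := (c3.trans c5).trans (Conn.symm c4)
  rw [e1]
  exact conn_cfg (fun f hf => by rw [hη, perW_low (hrow f hf)]) c6

end Cyl3

end Pool.Agent.Perc.Q

end Partperc3Cyl3A

section Partperc3Cyl3B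

/-!
# The ring and the tube on the twisted cylinder: probability
-/

set_option autoImplicit false

namespace Pool.Agent.Perc.Q

open Finset Pool.Agent.Perc

namespace Cyl3

variable {η : Cfg} {w y₀ c : ℤ} {m : ℕ}

/-- The representative of a face of the fundamental domain in the window around the core. -/
def unr (m : ℕ) (f : ℤ × ℤ) : ℤ × ℤ :=
  if 0 ≤ f.2 then (if f.1 ≤ m then f else (f.1 - (2 * m + 1), f.2))
  else (if f.1 < m then f else (f.1 - 2 * m, f.2))

theorem unr_up {f : ℤ × ℤ} (hm : 0 < m) (h : 0 ≤ f.2) :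
    (unr m (f.1 % (2 * m + 1), f.2)).2 = f.2 ∧ -(m : ℤ) ≤ (unr m (f.1 % (2 * m + 1), f.2)).1 ∧
      (unr m (f.1 % (2 * m + 1), f.2)).1 ≤ m ∧
      ∃ k : ℤ, f.1 = (unr m (f.1 % (2 * m + 1), f.2)).1 + k * (2 * m + 1) := by
  have h1 := Int.emod_nonneg f.1 (b := 2 * (m : ℤ) + 1) (by omega)
  have h2 := Int.emod_lt_of_pos f.1 (b := 2 * (m : ℤ) + 1) (by omega)
  have h3 := Int.emod_add_mul_ediv f.1 (2 * (m : ℤ) + 1)
  unfold unr
  rw [if_pos (by exact h)]
  split_ifs with h4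
  · exact ⟨rfl, by simp only at h4 ⊢; omega, h4, f.1 / (2 * m + 1), by simp only; rw [mul_comm (f.1 / _)]; omega⟩
  · simp only at h4
    refine ⟨rfl, by simp only; omega, by simp only; omega, f.1 / (2 * m + 1) + 1, ?_⟩
    simp only
    rw [add_mul, mul_comm (f.1 / _)]
    omega

theorem unr_low {f : ℤ × ℤ} (hm : 0 < m) (h : f.2 < 0) :
    (unr m (f.1 % (2 * m), f.2)).2 = f.2 ∧ -(m : ℤ) ≤ (unr m (f.1 % (2 * m), f.2)).1 ∧
      (unr m (f.1 % (2 * m), f.2)).1 < m ∧
      ∃ k : ℤ, f.1 = (unr m (f.1 % (2 * m), f.2)).1 + k * (2 * m) := by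
  have h1 := Int.emod_nonneg f.1 (b := 2 * (m : ℤ)) (by omega)
  have h2 := Int.emod_lt_of_pos f.1 (b := 2 * (m : ℤ)) (by omega)
  have h3 := Int.emod_add_mul_ediv f.1 (2 * (m : ℤ))
  unfold unr
  rw [if_neg (by simp only; omega)]
  split_ifs with h4
  · exact ⟨rfl, by simp only at h4 ⊢; omega, h4, f.1 / (2 * m), by simp only; rw [mul_comm (f.1 / _)]; omega⟩
  · simp only at h4
    refine ⟨rfl, by simp only; omega, by simp only; omega, f.1 / (2 * m) + 1, ?_⟩
    simp only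
    rw [add_mul, mul_comm (f.1 / _)]
    omega

theorem unr_red {f : ℤ × ℤ} (hm : 0 < m)
    (h : (0 ≤ f.2 ∧ -(m : ℤ) ≤ f.1 ∧ f.1 ≤ m) ∨ (f.2 < 0 ∧ -(m : ℤ) ≤ f.1 ∧ f.1 < m)) :
    unr m (TwE.red m f) = f := by
  unfold TwE.red
  rcases h with ⟨h0, h1, h2⟩ | ⟨h0, h1, h2⟩
  · rw [if_pos h0]
    obtain ⟨e1, e2, e3, k, e4⟩ := unr_up (m := m) (f := f) hm h0
    have hk : k = 0 := by
      by_contra hne
      rcases lt_or_gt_of_ne hne with h7 | h7
      · have : k * (2 * (m : ℤ) + 1) ≤ -1 * (2 * m + 1) :=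
          mul_le_mul_of_nonneg_right (by omega) (by omega)
        omega
      · have : 1 * (2 * (m : ℤ) + 1) ≤ k * (2 * m + 1) :=
          mul_le_mul_of_nonneg_right (by omega) (by omega)
        omega
    rw [hk, zero_mul, add_zero] at e4
    exact Prod.ext e4.symm e1
  · rw [if_neg (by omega)]
    obtain ⟨e1, e2, e3, k, e4⟩ := unr_low (m := m) (f := f) hm h0
    have hk : k = 0 := by
      by_contra hne
      rcases lt_or_gt_of_ne hne with h7 | h7
      · have : k * (2 * (m : ℤ)) ≤ -1 * (2 * m) :=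
          mul_le_mul_of_nonneg_right (by omega) (by omega)
        omega
      · have : 1 * (2 * (m : ℤ)) ≤ k * (2 * m) :=
          mul_le_mul_of_nonneg_right (by omega) (by omega)
        omega
    rw [hk, zero_mul, add_zero] at e4
    exact Prod.ext e4.symm e1

open Classical in
/-- The order of the fresh configuration. -/
noncomputable def ordD (m : ℕ) (w : ℤ) (G : Fin 3 → Finset (ℤ × ℤ)) (f : ℤ × ℤ) : Bool :=
  if unr m f ∈ cellsF w (G 0) then colD 0 (unr m f)
  else if unr m f ∈ cellsF w (G 1) then colD 1 (unr m f)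
  else if unr m f ∈ cellsF w (G 2) then colD 2 (unr m f)
  else if 0 ≤ f.2 then parD 0 f else parD 1 f

/-- The properties of the sets of cells. -/
def GOk (J : ℤ) (G : Fin 3 → Finset (ℤ × ℤ)) : Prop :=
  (∀ i j, i ≠ j → Disjoint (G i) (G j)) ∧ (∀ i, ∀ g ∈ G i, CellOk g) ∧
    ∀ i, ∀ g ∈ G i, g = port3 J i ∨ (-J ≤ g.1 ∧ g.1 < J ∧ -J ≤ g.2 ∧ g.2 < J)

theorem parD_add_even {c : ℤ} {x y k : ℤ} (hk : k % 2 = 0) : parD c (x + k, y) = parD c (x, y) := by
  unfold parD
  simp only [decide_eq_decide]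
  omega

theorem parD_congr {c c' : ℤ} {x y x' y' : ℤ} (h : (x + y - c) % 2 = (x' + y' - c') % 2) :
    parD c (x, y) = parD c' (x', y') := by
  unfold parD
  simp only [decide_eq_decide]
  omega

/-- The cells are in the window. -/
theorem cells_window {L w : ℕ} {J : ℤ} {G : Fin 3 → Finset (ℤ × ℤ)} (hG : GOk J G) (hw : 2 ≤ w)
    (hJ : 20 ≤ J) (hJL : J + 2 ≤ L) {i : Fin 3} {f : ℤ × ℤ} (hf : f ∈ cellsF w (G i)) :
    -((J + 1) * w) ≤ f.1 ∧ f.1 < (J + 1) * w ∧ -((J + 1) * w) ≤ f.2 ∧ f.2 < (J + 1) * w := by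
  have hwz : (0 : ℤ) < w := by omega
  obtain ⟨g, hg, h1⟩ := mem_cellsF.1 hf
  rw [mem_cellF] at h1
  have key : -J - 1 ≤ g.1 ∧ g.1 ≤ J ∧ -J - 1 ≤ g.2 ∧ g.2 ≤ J := by
    rcases hG.2.2 i g hg with rfl | h
    · fin_cases i
      · change -J - 1 ≤ J ∧ J ≤ J ∧ -J - 1 ≤ 0 ∧ 0 ≤ J
        omega
      · change -J - 1 ≤ -J - 1 ∧ -J - 1 ≤ J ∧ -J - 1 ≤ 0 ∧ 0 ≤ J
        omega
      · change -J - 1 ≤ -20 ∧ -20 ≤ J ∧ -J - 1 ≤ -J - 1 ∧ -J - 1 ≤ J
        omega
    · omega
  have a1 : (-J - 1) * (w : ℤ) ≤ g.1 * w := mul_le_mul_of_nonneg_right key.1 hwz.le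
  have a2 : g.1 * (w : ℤ) ≤ J * w := mul_le_mul_of_nonneg_right key.2.1 hwz.le
  have a3 : (-J - 1) * (w : ℤ) ≤ g.2 * w := mul_le_mul_of_nonneg_right key.2.2.1 hwz.le
  have a4 : g.2 * (w : ℤ) ≤ J * w := mul_le_mul_of_nonneg_right key.2.2.2 hwz.le
  have e1 : (-J - 1) * (w : ℤ) = -((J + 1) * w) := by ring
  have e2 : (J + 1) * (w : ℤ) = J * w + w := by ring
  rw [e1] at a1 a3
  rcases chS_cases g with ⟨b1, b2⟩ | ⟨b1, b2⟩
  · have a5 : g.1 * (w : ℤ) ≤ -1 * w := mul_le_mul_of_nonneg_right (by omega) hwz.le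
    have a6 : 0 ≤ J * (w : ℤ) := mul_nonneg (by omega) hwz.le
    omega
  · omega

theorem mem_window {L w : ℕ} {J : ℤ} {G : Fin 3 → Finset (ℤ × ℤ)} (hG : GOk J G) (hw : 2 ≤ w)
    (hJ : 20 ≤ J) (hJL : J + 2 ≤ L) {i : Fin 3} {f : ℤ × ℤ} (hf : f ∈ cellsF w (G i)) :
    f ∈ BW (((L * w : ℕ) : ℤ) - 1) := by
  have h := cells_window hG hw hJ hJL hf
  have h1 : (J + 1) * (w : ℤ) + w ≤ L * w := by
    have := mul_le_mul_of_nonneg_right hJL (show (0 : ℤ) ≤ w by omega)
    rw [show (J + 2) * (w : ℤ) = (J + 1) * w + w by ring] at this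
    exact this
  unfold BW
  rw [mem_union, mem_RFi, mem_RFi]
  push_cast
  rcases lt_or_ge f.2 0 with h0 | h0
  · right; omega
  · left; omega

theorem ordD_cells {L w : ℕ} {J : ℤ} {G : Fin 3 → Finset (ℤ × ℤ)} (hG : GOk J G) (hw : 2 ≤ w)
    (hJ : 20 ≤ J) (hJL : J + 2 ≤ L) (i : Fin 3) {f : ℤ × ℤ} (hf : f ∈ cellsF w (G i)) :
    ordD (L * w) w G (TwE.red (L * w) f) = colD ((i : ℕ) : ℤ) f := by
  have hwz : (2 : ℤ) ≤ w := by exact_mod_cast hw
  have hm : 0 < L * w := Nat.mul_pos (by omega) (by omega)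
  have h1 := cells_window hG hw hJ hJL hf
  have h2 : (J + 1) * (w : ℤ) + w ≤ L * w := by
    have := mul_le_mul_of_nonneg_right hJL (show (0 : ℤ) ≤ w by omega)
    rw [show (J + 2) * (w : ℤ) = (J + 1) * w + w by ring] at this
    exact this
  have e : unr (L * w) (TwE.red (L * w) f) = f := unr_red hm (by push_cast; omega)
  have hne : ∀ j, j ≠ i → f ∉ cellsF w (G j) := fun j hj hf' =>
    (disjoint_left.1 (disjoint_cellsF hwz (hG.2.1 i) (hG.2.1 j) (hG.1 i j hj.symm))) hf hf'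
  unfold ordD
  rw [e]
  fin_cases i
  · change f ∈ cellsF w (G 0) at hf
    rw [if_pos hf]; rfl
  · change f ∈ cellsF w (G 1) at hf
    rw [if_neg (hne 0 (by decide)), if_pos hf]; rfl
  · change f ∈ cellsF w (G 2) at hf
    rw [if_neg (hne 0 (by decide)), if_neg (hne 1 (by decide)), if_pos hf]; rfl

/-- The cells at the upper faces beyond `J w` are ports. -/
theorem ordD_ew {L w : ℕ} {J : ℤ} {G : Fin 3 → Finset (ℤ × ℤ)} (hG : GOk J G) (hw : 2 ≤ w)
    (hJ : 20 ≤ J) (hJL : J + 2 ≤ L) {f : ℤ × ℤ}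
    (hf : f ∈ RF (J * w) (2 * (L * w) + 1 - J * w) 0 w) :
    ordD (L * w) w G (f.1 % ((2 * (L * w) + 1 : ℕ) : ℤ), f.2) = parD 0 f := by
  have hwz : (2 : ℤ) ≤ w := by exact_mod_cast hw
  have hm : 0 < L * w := Nat.mul_pos (by omega) (by omega)
  have hJw : 0 ≤ J * (w : ℤ) := mul_nonneg (by omega) (by omega)
  rw [mem_RFi] at hf
  have e0 : f.1 % ((2 * (L * w) + 1 : ℕ) : ℤ) = f.1 := by
    refine Int.emod_eq_of_lt (by omega) ?_
    push_cast
    omega
  rw [e0]
  -- cells which contain the representative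
  have key : ∀ i : Fin 3, unr (L * w) (f.1, f.2) ∈ cellsF w (G i) →
      colD ((i : ℕ) : ℤ) (unr (L * w) (f.1, f.2)) = parD 0 f := by
    intro i hi
    obtain ⟨g, hg, h1⟩ := mem_cellsF.1 hi
    rw [mem_cellF] at h1
    have hu : (unr (L * w) (f.1, f.2) = f ∧ f.1 ≤ L * w) ∨
        (unr (L * w) (f.1, f.2) = (f.1 - (2 * (L * w) + 1), f.2) ∧ L * w < f.1) := by
      unfold unr
      rw [if_pos (by exact hf.2.2.1)]
      split_ifs with h4
      · left
        refine ⟨rfl, ?_⟩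
        simp only at h4
        push_cast at h4
        exact h4
      · right
        refine ⟨by push_cast; rfl, ?_⟩
        simp only at h4
        push_cast at h4
        omega
    have hport : g = port3 J i := by
      rcases hG.2.2 i g hg with h | ⟨b1, b2, -, -⟩
      · exact h
      · exfalso
        have a1 : -J * (w : ℤ) ≤ g.1 * w := mul_le_mul_of_nonneg_right b1 (by omega)
        have a2 : g.1 * (w : ℤ) ≤ (J - 1) * w := mul_le_mul_of_nonneg_right (by omega) (by omega)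
        rw [neg_mul] at a1
        rw [sub_mul, one_mul] at a2
        rcases hu with ⟨hu, hu'⟩ | ⟨hu, hu'⟩
        · rw [hu] at h1
          omega
        · rw [hu] at h1
          simp only at h1
          omega
    have hup : ∀ c : ℤ, ∀ g : ℤ × ℤ, 0 ≤ g.2 → colD c g = parD c g := by
      intro c g hg
      unfold colD
      rw [if_neg (by omega)]
    rcases hu with ⟨hu, hu'⟩ | ⟨hu, hu'⟩
    · rw [hu] at h1 ⊢
      rw [hup _ _ hf.2.2.1]
      fin_cases i
      · rfl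
      · exfalso
        rw [hport] at h1
        change _ ∧ _ ∧ ((0 ≤ f.2 ∧ (-J - 1) * (w : ℤ) ≤ f.1 ∧ f.1 < (-J - 1) * w + w) ∨
          (f.2 < 0 ∧ _)) at h1
        rw [show (-J - 1) * (w : ℤ) + w = -(J * w) by ring] at h1
        omega
      · exfalso
        rw [hport] at h1
        change (-J - 1) * (w : ℤ) ≤ f.2 ∧ f.2 < (-J - 1) * (w : ℤ) + w ∧ _ at h1
        rw [show (-J - 1) * (w : ℤ) + w = -(J * w) by ring] at h1
        omega
    · rw [hu] at h1 ⊢
      rw [hup _ (f.1 - (2 * (L * w) + 1), f.2) hf.2.2.1]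
      fin_cases i
      · exfalso
        rw [hport] at h1
        change _ ∧ _ ∧ ((0 ≤ f.2 ∧ J * (w : ℤ) ≤ f.1 - (2 * (L * w) + 1) ∧ _) ∨
          (f.2 < 0 ∧ _)) at h1
        omega
      · refine parD_congr ?_
        change (f.1 - (2 * (L * w) + 1) + f.2 - ((1 : ℕ) : ℤ)) % 2 = _
        push_cast
        omega
      · exfalso
        rw [hport] at h1
        change (-J - 1) * (w : ℤ) ≤ f.2 ∧ f.2 < (-J - 1) * (w : ℤ) + w ∧ _ at h1
        rw [show (-J - 1) * (w : ℤ) + w = -(J * w) by ring] at h1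
        omega
  unfold ordD
  split_ifs with k0 k1 k2 k3
  · exact key 0 k0
  · exact key 1 k1
  · exact key 2 k2
  · rfl
  · exact absurd hf.2.2.1 k3

/-- The order in the ring. -/
theorem ordD_ring {L w : ℕ} {J : ℤ} {G : Fin 3 → Finset (ℤ × ℤ)} (hG : GOk J G) (hw : 2 ≤ w)
    (hJ : 20 ≤ J) (hJL : J + 2 ≤ L) {f : ℤ × ℤ}
    (hf : (-J - 1) * (w : ℤ) ≤ f.2 ∧ f.2 < (-J - 1) * w + w) :
    ordD (L * w) w G (f.1 % ((2 * (L * w) : ℕ) : ℤ), f.2) = parD 1 f := by
  have hwz : (2 : ℤ) ≤ w := by exact_mod_cast hw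
  have hm : 0 < L * w := Nat.mul_pos (by omega) (by omega)
  have hJw : 20 * (w : ℤ) ≤ J * (w : ℤ) := mul_le_mul_of_nonneg_right hJ (by omega)
  have e1 : (-J - 1) * (w : ℤ) + w = -(J * w) := by ring
  have e2 : (-J - 1) * (w : ℤ) = -(J * w) - w := by ring
  have hneg : f.2 < 0 := by omega
  have ec : ((2 * (L * w) : ℕ) : ℤ) = 2 * ((L * w : ℕ) : ℤ) := by push_cast; ring
  rw [ec]
  obtain ⟨u1, u2, u3, k, u4⟩ := unr_low (m := L * w) (f := f) hm hneg
  set v := unr (L * w) (f.1 % (2 * ((L * w : ℕ) : ℤ)), f.2) with hv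
  have key : ∀ i : Fin 3, v ∈ cellsF w (G i) → colD ((i : ℕ) : ℤ) v = parD 1 f := by
    intro i hi
    obtain ⟨g, hg, h1⟩ := mem_cellsF.1 hi
    rw [mem_cellF, u1] at h1
    have hport : g = port3 J i := by
      rcases hG.2.2 i g hg with h | ⟨-, -, b3, b4⟩
      · exact h
      · exfalso
        have a1 : -J * (w : ℤ) ≤ g.2 * w := mul_le_mul_of_nonneg_right b3 (by omega)
        rw [neg_mul] at a1
        omega
    fin_cases i
    · exfalso
      rw [hport] at h1
      change 0 * (w : ℤ) ≤ f.2 ∧ _ at h1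
      omega
    · exfalso
      rw [hport] at h1
      change 0 * (w : ℤ) ≤ f.2 ∧ _ at h1
      omega
    · rw [hport] at h1
      change _ ∧ _ ∧ (_ ∨ (f.2 < 0 ∧ -20 * (w : ℤ) + 1 ≤ v.1 ∧ v.1 < -20 * w + w + 1)) at h1
      unfold colD
      rw [if_pos ⟨by omega, by omega⟩]
      refine parD_congr ?_
      change (v.1 - 1 + v.2 - ((2 : ℕ) : ℤ)) % 2 = _
      have : f.1 = v.1 + 2 * (k * ((L * w : ℕ) : ℤ)) := by rw [u4]; ring
      push_cast
      omega
  unfold ordD
  rw [← hv]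
  split_ifs with k0 k1 k2 k3
  · exact key 0 k0
  · exact key 1 k1
  · exact key 2 k2
  · exact absurd k3 (by simp only; omega)
  · refine parD_congr ?_
    have h5 := Int.emod_add_mul_ediv f.1 (2 * ((L * w : ℕ) : ℤ))
    rw [mul_assoc] at h5
    omega

end Cyl3

end Pool.Agent.Perc.Q

end Partperc3Cyl3B

section Partperc3Cyl3

/-!
# The gluing of the three legs on the cylinder
-/

set_option autoImplicit false

namespace Pool.Agent.Perc.Q

open Finset Pool.Agent.Perc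

namespace Cyl3

theorem good {F W : Finset (ℤ × ℤ)} {A : Set Cfg} {D₀ D : ℤ × ℤ → Bool} {g : ℤ × ℤ → ℤ × ℤ}
    {c : ℝ} (hA : DepOn F A) (hD : IncD D₀ A) (hg : Set.InjOn g F) (hm : ∀ f ∈ F, g f ∈ W)
    (hDD : ∀ f ∈ F, D (g f) = D₀ f) (hc : c ≤ pr F A) :
    DepOn W {ξ : Cfg | (fun f => ξ (g f)) ∈ A} ∧ IncD D {ξ : Cfg | (fun f => ξ (g f)) ∈ A} ∧
      c ≤ pr W {ξ : Cfg | (fun f => ξ (g f)) ∈ A} := by
  refine ⟨depOn_comp g hA fun f hf => Finset.mem_coe.2 (hm f (Finset.mem_coe.1 hf)),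
    incD_comp g hA hD fun f hf => hDD f (Finset.mem_coe.1 hf), ?_⟩
  rw [pr_comp hg hm hA]
  exact hc

theorem incD_tub {w c : ℤ} {G : Finset (ℤ × ℤ)} (hw : 2 ≤ w) (hG : ∀ g ∈ G, CellOk g) :
    IncD (colD c) (Tub w c G) := by
  intro ω ω' h hω g hg k hk
  exact incD_tub_aux hw hG hg hk ω ω' h (hω g hg k hk)

/-- The probability of the event of the fresh configuration. -/
theorem pr_cyl (J K : ℕ) (hJ : 20 ≤ J) : ∃ c : ℝ, 0 < c ∧ ∀ w : ℕ, 2 ≤ w →
    ∀ G : Fin 3 → Finset (ℤ × ℤ), GOk J G → (∀ i, (G i).card ≤ K) →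
      c ≤ pr (FW ((J + 3) * w) ((J + 3) * w)) (CylEv (J + 3) w J G) := by
  classical
  obtain ⟨c₀, hc0, hc1, htub⟩ := pr_tub
  obtain ⟨c', hc', hrsw⟩ := PercT.rsw_holds 7
  set c₁ : ℝ := min (c₀ ^ K) c' with hc₁
  have hc₁0 : 0 < c₁ := lt_min (by positivity) hc'
  refine ⟨c₁ ^ (4 + 2 * (2 * (J + 3))), by positivity, fun w hw G hG hK => ?_⟩
  set L : ℕ := J + 3 with hL
  set m : ℕ := L * w with hm
  have hwz : (2 : ℤ) ≤ w := by exact_mod_cast hw
  have hm0 : 0 < m := Nat.mul_pos (by omega) (by omega)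
  have hJz : (20 : ℤ) ≤ (J : ℤ) := by exact_mod_cast hJ
  have hJL : (J : ℤ) + 2 ≤ L := by push_cast [hL]; omega
  have hmz : (m : ℤ) = J * w + 3 * w := by rw [hm, hL]; push_cast; ring
  have hJw : 20 * (w : ℤ) ≤ J * w := mul_le_mul_of_nonneg_right hJz (by omega)
  have e2 : (-(J : ℤ) - 1) * (w : ℤ) = -(J * w) - w := by ring
  have hcm : ((2 * (L * w) : ℕ) : ℤ) = 2 * m := by rw [hm]; push_cast; ring
  have hcm' : ((2 * (L * w) + 1 : ℕ) : ℤ) = 2 * m + 1 := by rw [hm]; push_cast; ring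
  -- the list of events
  set l : List (Set Cfg) := [{ξ | perW m ξ ∈ Tub w ((0 : ℕ) : ℤ) (G 0)},
    {ξ | perW m ξ ∈ Tub w ((1 : ℕ) : ℤ) (G 1)}, {ξ | perW m ξ ∈ Tub w ((2 : ℕ) : ℤ) (G 2)},
    EWev L w J] ++ ((List.range (2 * L)).map (fun i => RGev L w J i true) ++
      (List.range (2 * L)).map (fun i => RGev L w J i false)) with hl
  have hlen : l.length = 4 + 2 * (2 * L) := by
    rw [hl]
    simp only [List.length_append, List.length_cons, List.length_nil, List.length_map,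
      List.length_range]
    omega
  have htubs : ∀ i : Fin 3, DepOn (FW m m) {ξ | perW m ξ ∈ Tub w ((i : ℕ) : ℤ) (G i)} ∧
      IncD (ordD m w G) {ξ | perW m ξ ∈ Tub w ((i : ℕ) : ℤ) (G i)} ∧
      c₁ ≤ pr (FW m m) {ξ | perW m ξ ∈ Tub w ((i : ℕ) : ℤ) (G i)} := by
    intro i
    have e : ({ξ | perW m ξ ∈ Tub w ((i : ℕ) : ℤ) (G i)} : Set Cfg) =
        {ξ | (fun f => ξ (TwE.red m f)) ∈ Tub w ((i : ℕ) : ℤ) (G i)} := by
      simp only [TwE.perW_eq]
    rw [e]
    have hcell : ∀ g ∈ G i, CellOk g := hG.2.1 i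
    refine good (F := cellsF w (G i)) (D₀ := colD ((i : ℕ) : ℤ)) (depOn_tub hcell)
      (incD_tub hwz hcell) ?_ ?_ ?_ ?_
    · intro f hf f' hf' h
      exact TwE.red_injOn hm0 (Finset.mem_coe.2 (mem_window hG hw hJz hJL (Finset.mem_coe.1 hf)))
        (Finset.mem_coe.2 (mem_window hG hw hJz hJL (Finset.mem_coe.1 hf'))) h
    · intro f hf
      have h1 := cells_window hG hw hJz hJL hf
      rw [show ((J : ℤ) + 1) * (w : ℤ) = J * w + w by ring] at h1
      refine TwE.red_mem hm0 ?_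
      constructor <;> omega
    · intro f hf
      exact ordD_cells hG hw hJz hJL i hf
    · refine le_trans ?_ (htub w _ hwz (G i) hcell)
      refine (min_le_left _ _).trans ?_
      exact pow_le_pow_of_le_one hc0.le hc1 (hK i)
  have hgood : ∀ A ∈ l, DepOn (FW m m) A ∧ IncD (ordD m w G) A ∧ c₁ ≤ pr (FW m m) A := by
    intro A hA
    rw [hl, List.mem_append, List.mem_append] at hA
    rcases hA with hA | hA | hA
    · simp only [List.mem_cons, List.not_mem_nil, or_false] at hA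
      rcases hA with rfl | rfl | rfl | rfl
      · exact htubs 0
      · exact htubs 1
      · exact htubs 2
      · refine good (F := RF (J * w) (2 * (L * w) + 1 - J * w) 0 w) (D₀ := parD 0)
          (g := fun f : ℤ × ℤ => (f.1 % ((2 * (L * w) + 1 : ℕ) : ℤ), f.2)) (depOn_LR _ _ _ _ _)
          (incD_LR _ _ _ _ _) ?_ ?_ ?_ ?_
        · intro f hf f' hf' h
          have hf1 := mem_RFi.1 (Finset.mem_coe.1 hf)
          have hf1' := mem_RFi.1 (Finset.mem_coe.1 hf')
          simp only [Prod.mk.injEq] at h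
          rw [hcm'] at h
          have h3 : (2 * ((L : ℤ) * w) + 1) = 2 * m + 1 := by rw [hm]; push_cast; ring
          refine Prod.ext (emod_inj (a := 0) (by omega) h.1 (by omega) (by omega) (by omega)
            (by omega)) h.2
        · intro f hf
          have hf1 := mem_RFi.1 hf
          rw [TwE.mem_FW]
          simp only
          rw [hcm']
          have e1 := Int.emod_nonneg f.1 (b := 2 * (m : ℤ) + 1) (by omega)
          have e2 := Int.emod_lt_of_pos f.1 (b := 2 * (m : ℤ) + 1) (by omega)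
          left
          omega
        · intro f hf
          exact ordD_ew hG hw hJz hJL hf
        · refine (min_le_right _ _).trans ((hrsw 0 _ _ _ _ ?_ (by omega)).1 ?_)
          · have h3 : (2 * ((L : ℤ) * w) + 1) = 2 * m + 1 := by rw [hm]; push_cast; ring
            omega
          · have h3 : (2 * ((L : ℤ) * w) + 1) = 2 * m + 1 := by rw [hm]; push_cast; ring
            push_cast
            omega
    · rw [List.mem_map] at hA
      obtain ⟨i, hi, rfl⟩ := hA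
      rw [List.mem_range] at hi
      have e : RGev L w J i true = {ξ | perC (2 * (L * w)) ξ ∈ LR 1 (i * w) (i * w + 2 * w)
          ((-(J : ℤ) - 1) * w) ((-(J : ℤ) - 1) * w + w)} := by
        unfold RGev
        rw [if_pos rfl]
      rw [e]
      refine good (F := RF (i * w) (i * w + 2 * w) ((-(J : ℤ) - 1) * w) ((-(J : ℤ) - 1) * w + w))
          (D₀ := parD 1)
          (g := fun f : ℤ × ℤ => (f.1 % ((2 * (L * w) : ℕ) : ℤ), f.2)) (depOn_LR _ _ _ _ _)
          (incD_LR _ _ _ _ _) ?_ ?_ ?_ ?_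
      · intro f hf f' hf' h
        have hf1 := mem_RFi.1 (Finset.mem_coe.1 hf)
        have hf1' := mem_RFi.1 (Finset.mem_coe.1 hf')
        simp only [Prod.mk.injEq] at h
        rw [hcm] at h
        refine Prod.ext (emod_inj (a := i * w) (by omega) h.1 (by omega) (by omega) (by omega)
          (by omega)) h.2
      · intro f hf
        have hf1 := mem_RFi.1 hf
        rw [TwE.mem_FW]
        simp only
        rw [hcm]
        have e1 := Int.emod_nonneg f.1 (b := 2 * (m : ℤ)) (by omega)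
        have e2 := Int.emod_lt_of_pos f.1 (b := 2 * (m : ℤ)) (by omega)
        right
        omega
      · intro f hf
        have hf1 := mem_RFi.1 hf
        exact ordD_ring hG hw hJz hJL ⟨hf1.2.2.1, hf1.2.2.2⟩
      · refine (min_le_right _ _).trans ((hrsw 1 _ _ _ _ (by omega) (by omega)).1 ?_)
        push_cast
        omega
    · rw [List.mem_map] at hA
      obtain ⟨i, hi, rfl⟩ := hA
      rw [List.mem_range] at hi
      have e : RGev L w J i false = {ξ | perC (2 * (L * w)) ξ ∈ BT 1 (i * w) (i * w + w)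
          ((-(J : ℤ) - 1) * w) ((-(J : ℤ) - 1) * w + w)} := by
        unfold RGev
        rw [if_neg (by decide)]
      rw [e]
      refine good (F := RF (i * w) (i * w + w) ((-(J : ℤ) - 1) * w) ((-(J : ℤ) - 1) * w + w))
          (D₀ := parD 1)
          (g := fun f : ℤ × ℤ => (f.1 % ((2 * (L * w) : ℕ) : ℤ), f.2)) (depOn_BT _ _ _ _ _)
          (incD_BT' _ _ _ _ _) ?_ ?_ ?_ ?_
      · intro f hf f' hf' h
        have hf1 := mem_RFi.1 (Finset.mem_coe.1 hf)
        have hf1' := mem_RFi.1 (Finset.mem_coe.1 hf')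
        simp only [Prod.mk.injEq] at h
        rw [hcm] at h
        refine Prod.ext (emod_inj (a := i * w) (by omega) h.1 (by omega) (by omega) (by omega)
          (by omega)) h.2
      · intro f hf
        have hf1 := mem_RFi.1 hf
        rw [TwE.mem_FW]
        simp only
        rw [hcm]
        have e1 := Int.emod_nonneg f.1 (b := 2 * (m : ℤ)) (by omega)
        have e2 := Int.emod_lt_of_pos f.1 (b := 2 * (m : ℤ)) (by omega)
        right
        omega
      · intro f hf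
        have hf1 := mem_RFi.1 hf
        exact ordD_ring hG hw hJz hJL ⟨hf1.2.2.1, hf1.2.2.2⟩
      · refine (min_le_right _ _).trans ((hrsw 1 _ _ _ _ (by omega) (by omega)).2 ?_)
        push_cast
        omega
  have hfin := PercT.TubeP.harris_list hc₁0.le l hgood
  rw [hlen] at hfin
  refine hfin.trans (pr_mono _ ?_)
  intro ξ hξ
  have hmem : ∀ A ∈ l, ξ ∈ A := hξ
  refine ⟨fun i => ?_, ?_, fun i hi e => ?_⟩
  · fin_cases i
    · exact hmem _ (List.mem_append_left _ List.mem_cons_self)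
    · exact hmem _ (List.mem_append_left _ (List.mem_cons_of_mem _ List.mem_cons_self))
    · exact hmem _ (List.mem_append_left _ (List.mem_cons_of_mem _
        (List.mem_cons_of_mem _ List.mem_cons_self)))
  · exact hmem _ (List.mem_append_left _ (List.mem_cons_of_mem _
      (List.mem_cons_of_mem _ (List.mem_cons_of_mem _ List.mem_cons_self))))
  · rw [Finset.mem_range] at hi
    cases e
    · exact hmem _ (List.mem_append_right _ (List.mem_append_right _
        (List.mem_map.2 ⟨i, List.mem_range.2 hi, rfl⟩)))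
    · exact hmem _ (List.mem_append_right _ (List.mem_append_left _
        (List.mem_map.2 ⟨i, List.mem_range.2 hi, rfl⟩)))

end Cyl3

end Pool.Agent.Perc.Q

end Partperc3Cyl3

section Partperc6Tag

/-!
# Tags and their strands
-/

set_option autoImplicit false

namespace Pool.Agent.Perc6

open Finset Pool.Agent.Perc Pool.Agent.PercD Pool.Agent.PercL

variable {h w cB RB : ℤ} {ω : Cfg} {X : ℤ × ℤ}

namespace T12Aux

theorem tagE_joins (X : ℤ × ℤ) : Joins (tagE X) X (X.1 + 1, X.2) := by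
  unfold tagE
  left
  rw [ua_mk, ub_false]
  exact ⟨rfl, rfl⟩

/-- A vertex of the cluster of the tag in the band is not to the right of the tag. -/
theorem no_right (hω : ω ∈ TagEv h w cB RB X) {p : ℤ × ℤ}
    (hp : Conn ω (BR (cB, h) RB) X p) (h1 : h - w ≤ p.2) (h2 : p.2 ≤ h + w) : p.1 ≤ X.1 := by
  rcases hω.2 p hp h1 h2 with h3 | h3
  · exact h3.le
  · exact h3.1.le

/-- The end of parity `par X` of a unit edge of the strand is joined to `X`. -/
theorem mm_end {F : Set (ℤ × ℤ)} {a : UE} (ha : a ∈ MM ω F (tagE X)) {p q : ℤ × ℤ}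
    (hj : Joins a p q) (hp : par p = par X) : Conn ω F X p := by
  obtain ⟨p', q', hj', hp', hc⟩ := MM_conn (tagE_joins X) ha
  obtain ⟨rfl, -⟩ := hj.of_par hj' (hp.trans hp'.symm)
  exact hc.mono SS_sub

theorem joins_self (a : UE) : Joins a (ua a) (ub a) := Or.inl ⟨rfl, rfl⟩

/-- Some end of the unit edge has the given parity. -/
theorem exists_end (a : UE) (c : ℤ) (hc : c = 0 ∨ c = 1) :
    ∃ p q, Joins a p q ∧ par p = c := by
  have h1 := par_cases (ua a)
  have h2 := par_cases (ub a)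
  have h3 := par_ub a
  by_cases h4 : par (ua a) = c
  · exact ⟨ua a, ub a, joins_self a, h4⟩
  · refine ⟨ub a, ua a, (joins_self a).symm, ?_⟩
    omega

theorem bdU_of_bdR {v : ℤ × ℤ} {r : ℤ} (hr : 1 ≤ r) {a : UE} (ha : BdR v r a) :
    BdU (BR v r : Set (ℤ × ℤ)) a := by
  obtain ⟨x, y, b⟩ := a
  unfold BdR BdE at ha
  unfold BdU
  rcases ha with ⟨hb, h1, h2, h3⟩ | ⟨hb, h1, h2, h3⟩
  · simp only at hb h1 h2 h3
    subst hb
    rcases h3 with h3 | h3
    · refine ⟨⟨(x, y), ?_, Or.inl rfl⟩, ⟨(x, y - 1), ?_, Or.inr (Or.inr (Or.inl ?_))⟩⟩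
      · rw [mem_BR']; simp only; omega
      · rw [mem_BR']; simp only; omega
      · simp [to']
    · refine ⟨⟨(x, y - 1), ?_, Or.inr (Or.inr (Or.inl ?_))⟩, ⟨(x, y), ?_, Or.inl rfl⟩⟩
      · rw [mem_BR']; simp only; omega
      · simp [to']
      · rw [mem_BR']; simp only; omega
  · simp only at hb h1 h2 h3
    subst hb
    rcases h3 with h3 | h3
    · refine ⟨⟨(x, y), ?_, Or.inr (Or.inl rfl)⟩, ⟨(x - 1, y), ?_, Or.inr (Or.inr (Or.inr ?_))⟩⟩
      · rw [mem_BR']; simp only; omega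
      · rw [mem_BR']; simp only; omega
      · simp [ri]
    · refine ⟨⟨(x - 1, y), ?_, Or.inr (Or.inr (Or.inr ?_))⟩, ⟨(x, y), ?_, Or.inr (Or.inl rfl)⟩⟩
      · rw [mem_BR']; simp only; omega
      · simp [ri]
      · rw [mem_BR']; simp only; omega

/-- The last index with the property. -/
theorem last_true {Q : ℤ → Prop} {a b : ℤ} (hab : a ≤ b) (h1 : Q a) (h2 : ¬ Q b) :
    ∃ k, a ≤ k ∧ k < b ∧ Q k ∧ ¬ Q (k + 1) := by
  by_contra hcon
  push Not at hcon
  have key : ∀ n : ℕ, a + n ≤ b → Q (a + n) := by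
    intro n
    induction n with
    | zero => intro _; simpa using h1
    | succ n ih =>
      intro hn
      have h3 := hcon (a + n) (by omega) (by push_cast at hn; omega) (ih (by push_cast at hn; omega))
      have e : a + ((n + 1 : ℕ) : ℤ) = a + n + 1 := by push_cast; ring
      rw [e]
      exact h3
  have h4 := key (b - a).toNat (by omega)
  have e : a + (((b - a).toNat : ℕ) : ℤ) = b := by omega
  rw [e] at h4
  exact h2 h4

end T12Aux

open T12Aux

/-- The strand of a tag does not visit the ray to the right of the tag: the end of parity `par X` of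
every unit edge of the strand is joined to `X`. -/
theorem tag_no_ray (hω : ω ∈ TagEv h w cB RB X) (hX : h - w ≤ X.2 ∧ X.2 ≤ h + w) {f : ℤ × ℤ}
    (hf : f ∈ SS ω (BR (cB, h) RB : Set (ℤ × ℤ)) (tagE X)) : f ∉ Ray h w (X.1 + 1) := by
  intro hr
  obtain ⟨-, a, ha, hs⟩ := hf
  obtain ⟨p, q, hj, hp⟩ := exists_end a (par X) (par_cases X)
  have h1 := mm_end ha hj hp
  have h2 := hs.cor_left hj
  unfold Ray at hr
  rw [Set.mem_ofPred_eq] at hr
  unfold IsCor at h2
  have h3 := no_right hω h1 (by omega) (by omega)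
  omega

/-- The strand of a tag leaves the box through two unit edges `cycE k.1`, `cycE k.2` of the right
colours. (Potential in the box: if there are no exits then the row to the right of `X` gives a
contradiction; the number of exits is even.) -/
theorem tag_exit (hw : 1 ≤ w) (hR : w < RB) (h1 : cB - RB < X.1) (h2 : X.1 < cB + RB)
    (hX : h - w ≤ X.2 ∧ X.2 ≤ h + w) (hω : ω ∈ TagEv h w cB RB X) :
    ∃ k ∈ KP (par X) cB h w RB, ω ∈ Exit h w cB RB X k := by
  classical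
  set Φ : ℤ × ℤ → ZMod 2 := potR ω (cB - RB) (cB + RB) (h - RB) (h + RB) (tagE X) with hΦ
  have hinX : InR (cB - RB) (cB + RB) (h - RB) (h + RB) X := by unfold InR; omega
  have hinV : InR (cB - RB) (cB + RB) (h - RB) (h + RB) (X.1 + 1, X.2) := by
    unfold InR; simp only; omega
  have hmem : ∀ {a : UE} {p q : ℤ × ℤ}, Joins a p q → InR (cB - RB) (cB + RB) (h - RB) (h + RB) p →
      InR (cB - RB) (cB + RB) (h - RB) (h + RB) q →
      (a ∈ MM ω (BR (cB, h) RB) (tagE X) ↔ Φ p ≠ Φ q) := by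
    intro a p q hj hp hq
    exact potR_joins hj hp hq
  have huv : Φ X ≠ Φ (X.1 + 1, X.2) := (hmem (tagE_joins X) hinX hinV).1 mem_MM_self
  -- a unit edge in the band to the right of the tag is not in the strand
  have hnot : ∀ a : UE, X.1 + 1 ≤ (ua a).1 → X.1 + 1 ≤ (ub a).1 → h - w ≤ (ua a).2 →
      (ua a).2 ≤ h + w → h - w ≤ (ub a).2 → (ub a).2 ≤ h + w →
      a ∉ MM ω (BR (cB, h) RB) (tagE X) := by
    intro a g1 g2 g3 g4 g5 g6 ha
    obtain ⟨p, q, hj, hp⟩ := exists_end a (par X) (par_cases X)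
    have hc := mm_end ha hj hp
    rcases hj with ⟨rfl, rfl⟩ | ⟨rfl, rfl⟩
    · have := no_right hω hc g3 g4
      omega
    · have := no_right hω hc g5 g6
      omega
  -- along the row
  have hrow : ∀ n : ℕ, X.1 + 1 + n ≤ cB + RB → Φ (X.1 + 1 + n, X.2) = Φ (X.1 + 1, X.2) := by
    intro n
    induction n with
    | zero => intro _; simp
    | succ n ih =>
      intro hn
      push_cast at hn
      have e1 := ih (by omega)
      have e2 := hnot (X.1 + 1 + n, X.2, false) (by rw [ua_mk]; simp only; omega)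
        (by rw [ub_false]; simp only; omega) (by rw [ua_mk]; exact hX.1) (by rw [ua_mk]; exact hX.2)
        (by rw [ub_false]; exact hX.1) (by rw [ub_false]; exact hX.2)
      rw [hmem (p := (X.1 + 1 + n, X.2)) (q := (X.1 + 1 + n + 1, X.2))
        (Or.inl ⟨by rw [ua_mk], by rw [ub_false]⟩) (by unfold InR; simp only; omega)
        (by unfold InR; simp only; omega), not_not] at e2
      have e3 : (X.1 + 1 + ((n + 1 : ℕ) : ℤ), X.2) = (X.1 + 1 + n + 1, X.2) := by
        push_cast; ring_nf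
      rw [e3, ← e2, e1]
  -- along the right side
  have hcol : ∀ n : ℕ, h - w + n ≤ h + w → Φ (cB + RB, h - w + n) = Φ (cB + RB, h - w) := by
    intro n
    induction n with
    | zero => intro _; simp
    | succ n ih =>
      intro hn
      push_cast at hn
      have e1 := ih (by omega)
      have e2 := hnot (cB + RB, h - w + n, true) (by rw [ua_mk]; simp only; omega)
        (by rw [ub_true]; simp only; omega) (by rw [ua_mk]; simp only; omega)
        (by rw [ua_mk]; simp only; omega)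
        (by rw [ub_true]; simp only; omega) (by rw [ub_true]; simp only; omega)
      rw [hmem (p := (cB + RB, h - w + n)) (q := (cB + RB, h - w + n + 1))
        (Or.inl ⟨by rw [ua_mk], by rw [ub_true]⟩) (by unfold InR; simp only; omega)
        (by unfold InR; simp only; omega), not_not] at e2
      have e3 : (cB + RB, h - w + ((n + 1 : ℕ) : ℤ)) = (cB + RB, h - w + n + 1) := by
        push_cast; ring_nf
      rw [e3, ← e2, e1]
  have hside : ∀ y, h - w ≤ y → y ≤ h + w → Φ (cB + RB, y) = Φ (X.1 + 1, X.2) := by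
    intro y hy1 hy2
    have e1 := hcol (y - (h - w)).toNat (by omega)
    have e2 := hcol (X.2 - (h - w)).toNat (by omega)
    have e3 := hrow (cB + RB - (X.1 + 1)).toNat (by omega)
    have t1 : h - w + (((y - (h - w)).toNat : ℕ) : ℤ) = y := by omega
    have t2 : h - w + (((X.2 - (h - w)).toNat : ℕ) : ℤ) = X.2 := by omega
    have t3 : X.1 + 1 + (((cB + RB - (X.1 + 1)).toNat : ℕ) : ℤ) = cB + RB := by omega
    rw [t1] at e1
    rw [t2] at e2
    rw [t3] at e3
    rw [e1, ← e2, e3]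
  -- the cluster reaches the boundary
  obtain ⟨⟨y, hy1, hy2⟩, -⟩ := id hω
  have hΦy : Φ y = Φ X := (potR_conn hy1).symm
  obtain ⟨k0, hk0, hk0', rfl⟩ : ∃ k, 0 ≤ k ∧ k ≤ len w RB ∧ y = cyc cB h w RB k := by
    rcases onBd_cases hw hR hy2 with hz | ⟨hz1, hz2, hz3⟩
    · exact hz
    · exfalso
      have := no_right hω hy1 (by omega) (by omega)
      omega
  have hlen : 0 < len w RB := by unfold len; omega
  have hc0 : Φ (cyc cB h w RB 0) = Φ (X.1 + 1, X.2) := by
    have e : cyc cB h w RB 0 = (cB + RB, h + w) := by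
      unfold cyc
      rw [if_pos (by omega), add_zero]
    rw [e]
    exact hside _ (by omega) (by omega)
  have hc1 : Φ (cyc cB h w RB (len w RB)) = Φ (X.1 + 1, X.2) := by
    have e : cyc cB h w RB (len w RB) = (cB + RB, h - w) := by
      unfold cyc len
      rw [if_neg (by omega), if_neg (by omega), if_neg (by omega), if_neg (by omega)]
      congr 1
      ring
    rw [e]
    exact hside _ (by omega) (by omega)
  obtain ⟨k1, a1, a2, a3, a4⟩ := last_true (Q := fun k => Φ (cyc cB h w RB k) = Φ (X.1 + 1, X.2))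
    hk0 hc0 (by rw [hΦy]; exact huv)
  obtain ⟨k2, b1, b2, b3, b4⟩ := last_true (Q := fun k => Φ (cyc cB h w RB k) = Φ X)
    hk0' hΦy (by rw [hc1]; exact huv.symm)
  have a5 : Φ (cyc cB h w RB (k1 + 1)) = Φ X := z2_of_ne a4 huv
  have b5 : Φ (cyc cB h w RB (k2 + 1)) = Φ (X.1 + 1, X.2) := z2_of_ne b4 huv.symm
  have hin : ∀ k, 0 ≤ k → k ≤ len w RB →
      InR (cB - RB) (cB + RB) (h - RB) (h + RB) (cyc cB h w RB k) := fun k q1 q2 => by
    have := cyc_onBd (c := cB) (h := h) hw hR q1 q2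
    unfold OnBd at this
    unfold InR
    exact this.2
  have j1 := cyc_joins (c := cB) (h := h) hw hR a1 (by omega : k1 < len w RB)
  have j2 := cyc_joins (c := cB) (h := h) hw hR (by omega : 0 ≤ k2) b2
  have m1 : cycE cB h w RB k1 ∈ MM ω (BR (cB, h) RB) (tagE X) := by
    rw [hmem j1 (hin _ a1 (by omega)) (hin _ (by omega) (by omega)), a3, a5]
    exact huv.symm
  have m2 : cycE cB h w RB k2 ∈ MM ω (BR (cB, h) RB) (tagE X) := by
    rw [hmem j2 (hin _ (by omega) (by omega)) (hin _ (by omega) (by omega)), b3, b5]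
    exact huv
  -- the parities
  have hpot : ∀ {a : UE} {p q : ℤ × ℤ}, a ∈ MM ω (BR (cB, h) RB) (tagE X) → Joins a p q →
      par p = par X → Φ p = Φ X := fun ha hj hp => (MM_pot (tagE_joins X) ha hj hp).1
  have p1 : par (cyc cB h w RB k1) ≠ par X := by
    intro hp
    have := hpot m1 j1 hp
    rw [a3] at this
    exact huv this.symm
  have p2 : par (cyc cB h w RB k2) = par X := by
    by_contra hp
    have hp' : par (cyc cB h w RB (k2 + 1)) = par X := by
      have q1 := par_cases (cyc cB h w RB k2)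
      have q2 := par_cases (cyc cB h w RB (k2 + 1))
      have q3 := par_cases X
      have q4 := j2.par_ne
      omega
    have := hpot m2 j2.symm hp'
    rw [b5] at this
    exact huv this.symm
  refine ⟨(k1, k2), ?_, m1, m2⟩
  unfold KP
  rw [mem_filter, mem_product, mem_Ico, mem_Ico]
  exact ⟨⟨⟨a1, by simp only; omega⟩, ⟨by simp only; omega, b2⟩⟩, by simp only; omega, p1, p2⟩

theorem exit_unique (hw : 1 ≤ w) (hR : w < RB) {k k' : ℤ × ℤ} (hk : k ∈ KP (par X) cB h w RB)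
    (hk' : k' ∈ KP (par X) cB h w RB) (h1 : ω ∈ Exit h w cB RB X k)
    (h2 : ω ∈ Exit h w cB RB X k') : k = k' := by
  unfold KP at hk hk'
  rw [mem_filter, mem_product, mem_Ico, mem_Ico] at hk hk'
  obtain ⟨⟨⟨c1, c2⟩, c3, c4⟩, c5, c6, c7⟩ := hk
  obtain ⟨⟨⟨d1, d2⟩, d3, d4⟩, d5, d6, d7⟩ := hk'
  unfold Exit at h1 h2
  rw [Set.mem_ofPred_eq] at h1 h2
  have B : ∀ t, 0 ≤ t → t < len w RB → BdU (BR (cB, h) RB : Set (ℤ × ℤ)) (cycE cB h w RB t) :=
    fun t q1 q2 => bdU_of_bdR (by omega) (bdR_cycE hw hR q1 q2)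
  have hne : cycE cB h w RB k.1 ≠ cycE cB h w RB k.2 := fun e =>
    absurd (cycE_inj hw hR c1 c2 c3 c4 e) (by omega)
  have e1 : k.1 = k'.1 := by
    rcases bdU_le_two h1.1 h1.2 h2.1 (B _ c1 c2) (B _ c3 c4) (B _ d1 d2) with e | e | e
    · exact absurd e hne
    · exact cycE_inj hw hR c1 c2 d1 d2 e
    · have := cycE_inj hw hR c3 c4 d1 d2 e
      rw [this] at c7
      exact absurd c7 d6
  have e2 : k.2 = k'.2 := by
    rcases bdU_le_two h1.1 h1.2 h2.2 (B _ c1 c2) (B _ c3 c4) (B _ d3 d4) with e | e | e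
    · exact absurd e hne
    · have := cycE_inj hw hR c1 c2 d3 d4 e
      rw [this] at c6
      exact absurd d7 c6
    · exact cycE_inj hw hR c3 c4 d3 d4 e
  exact Prod.ext e1 e2

/-- The two strands reach every box around the tag. -/
theorem tag_Gev {c R : ℤ} (hn : Nest h w cB RB c R) (h1 : c - R < X.1) (h2 : X.1 < c + R)
    (hX : h - w ≤ X.2 ∧ X.2 ≤ h + w) (hω : ω ∈ TagEv h w cB RB X) {k : ℤ × ℤ}
    (hk : k ∈ KP (par X) cB h w RB) (he : ω ∈ Exit h w cB RB X k) : ω ∈ Gev h w cB RB c R k := by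
  obtain ⟨w1, wR, nl, nr, nR⟩ := hn
  unfold KP at hk
  rw [mem_filter, mem_product, mem_Ico, mem_Ico] at hk
  obtain ⟨⟨⟨c1, c2⟩, c3, c4⟩, -, -, -⟩ := hk
  unfold Exit at he
  rw [Set.mem_ofPred_eq] at he
  have key : ∀ t, 0 ≤ t → t < len w RB → cycE cB h w RB t ∈ MM ω (BR (cB, h) RB) (tagE X) →
      ∃ τ, 0 ≤ τ ∧ τ < len w R ∧
        cycE c h w R τ ∈ MM ω (Slit h w cB RB c R) (cycE cB h w RB t) := by
    intro t t1 t2 ht
    have hin : InE (c, h) R (tagE X) := by
      unfold InE InR tagE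
      rw [ua_mk, ub_false]
      simp only
      omega
    rcases last_exit hin ht with h3 | ⟨b, hb1, hb2, hb3⟩
    · exfalso
      have e1 := cyc_onBd (c := cB) (h := h) w1 (by omega : w < RB) t1 (by omega : t ≤ len w RB)
      have e2 := cyc_joins (c := cB) (h := h) w1 (by omega : w < RB) t1 t2
      unfold InE at h3
      have e3 : InR (c - R) (c + R) (h - R) (h + R) (cyc cB h w RB t) := by
        rcases e2 with ⟨e2, -⟩ | ⟨e2, -⟩
        · rw [e2]; exact h3.1
        · rw [e2]; exact h3.2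
      unfold OnBd at e1
      unfold InR at e3
      omega
    · obtain ⟨τ, τ1, τ2, rfl⟩ : ∃ τ, 0 ≤ τ ∧ τ < len w R ∧ b = cycE c h w R τ := by
        rcases bdR_cases w1 wR hb2 with hz | ⟨z1, z2, z3, z4⟩
        · exact hz
        · exfalso
          obtain ⟨x, y, d⟩ := b
          simp only at z1 z2 z3 z4
          subst z1 z2
          obtain ⟨p, q, hj, hp⟩ := exists_end (c + R, y, true) (par X) (par_cases X)
          have hc := mm_end hb1 hj hp
          have hp1 : p.1 = c + R ∧ h - w ≤ p.2 ∧ p.2 ≤ h + w := by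
            unfold Joins at hj
            rw [ua_mk, ub_true] at hj
            rcases hj with ⟨rfl, -⟩ | ⟨rfl, -⟩
            · exact ⟨rfl, z3, z4.le⟩
            · exact ⟨rfl, (by omega : h - w ≤ y + 1), (by omega : y + 1 ≤ h + w)⟩
          have := no_right hω hc hp1.2.1 hp1.2.2
          omega
      refine ⟨τ, τ1, τ2, ?_⟩
      have hsub : Slit h w cB RB c R ⊆ ((BR (cB, h) RB \ BR (c, h) R : Finset (ℤ × ℤ)) :
          Set (ℤ × ℤ)) := by
        intro f hf
        unfold Slit at hf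
        rw [Set.mem_ofPred_eq] at hf
        rw [mem_coe, mem_sdiff]
        exact ⟨hf.1, hf.2.1⟩
      have hcl : SS ω ((BR (cB, h) RB \ BR (c, h) R : Finset (ℤ × ℤ)) : Set (ℤ × ℤ))
          (cycE c h w R τ) ⊆ Slit h w cB RB c R := by
        intro f hf
        obtain ⟨hf1, a, ha, hs⟩ := hf
        rw [mem_coe, mem_sdiff] at hf1
        unfold Slit
        rw [Set.mem_ofPred_eq]
        refine ⟨hf1.1, hf1.2, fun hr => ?_⟩
        have hbig : ((BR (cB, h) RB \ BR (c, h) R : Finset (ℤ × ℤ)) : Set (ℤ × ℤ)) ⊆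
            (BR (cB, h) RB : Set (ℤ × ℤ)) := by
          intro g hg
          rw [mem_coe, mem_sdiff] at hg
          exact mem_coe.2 hg.1
        have ha' : a ∈ MM ω (BR (cB, h) RB) (tagE X) := MM_trans hb1 (MM_mono hbig ha)
        have := tag_no_ray hω hX (f := f) ⟨mem_coe.2 hf1.1, a, ha', hs⟩
        apply this
        unfold Ray at hr ⊢
        rw [Set.mem_ofPred_eq] at hr ⊢
        omega
      have e := MM_eq_of_closed hsub hcl
      rw [e] at hb3
      exact MM_symm hb3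
  exact ⟨key k.1 c1 c2 he.1, key k.2 c3 c4 he.2⟩

/-- A tag is also a tag of every smaller box around it. -/
theorem tag_sub {c R : ℤ} (hn : Nest h w cB RB c R) (h1 : c - R < X.1) (h2 : X.1 < c + R)
    (hX : h - w ≤ X.2 ∧ X.2 ≤ h + w) (hω : ω ∈ TagEv h w cB RB X) : ω ∈ TagEv h w c R X := by
  obtain ⟨w1, wR, nl, nr, nR⟩ := hn
  have hsub : (BR (c, h) R : Set (ℤ × ℤ)) ⊆ (BR (cB, h) RB : Set (ℤ × ℤ)) := by
    intro f hf
    rw [mem_BR'] at hf ⊢
    simp only at hf ⊢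
    omega
  have hin : InR (c - R) (c + R) (h - R) (h + R) X := by unfold InR; omega
  have key : ∀ y, Conn ω (BR (cB, h) RB) X y →
      (Conn ω (BR (c, h) R) X y ∧ InR (c - R) (c + R) (h - R) (h + R) y) ∨
        ∃ z, Conn ω (BR (c, h) R) X z ∧ OnBd (c - R) (c + R) (h - R) (h + R) z := by
    intro y hy
    induction hy with
    | refl => exact Or.inl ⟨Relation.ReflTransGen.refl, hin⟩
    | tail _ hb ih =>
      rcases ih with ⟨i1, i2⟩ | i
      · obtain ⟨g, hg, hbg, hcp, hcq⟩ := hb.exists_face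
        by_cases hgF : g ∈ (BR (c, h) R : Set (ℤ × ℤ))
        · exact Or.inl ⟨i1.tail (hbg.of_single hgF), IsCor.inR hgF hcq⟩
        · exact Or.inr ⟨_, i1, onBd_of_cor hcp i2 hgF⟩
      · exact Or.inr i
  obtain ⟨⟨y, hy1, hy2⟩, h3⟩ := hω
  refine ⟨?_, fun y hy => h3 y (hy.mono hsub)⟩
  rcases key y hy1 with ⟨-, i2⟩ | ⟨z, i1, i2⟩
  · exfalso
    unfold OnBd at hy2
    unfold InR at i2
    omega
  · exact ⟨z, i1, i2⟩

/-- Success for the pair of exits of the strand of `X` is success for the cluster of `X`. -/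
theorem succX_of_LS {c M q η : ℤ} {s A : ℝ} {k : ℤ × ℤ} (hM : 1 ≤ M) (hq : 1 ≤ q) (hη : 1 ≤ η)
    (hn : Nest h w cB RB c (4 * (M * q * η))) (hX : h - w ≤ X.2 ∧ X.2 ≤ h + w)
    (h1 : cB - RB < X.1) (h2 : X.1 < cB + RB) (hk : k ∈ KP (par X) cB h w RB)
    (he : ω ∈ Exit h w cB RB X k) (hω : ω ∈ LS (par X) h w cB RB c M q η s A k) :
    ω ∈ SuccX (par X) h w cB RB c M q η s A X := by
  unfold LS at hω
  unfold SuccX
  rw [Set.mem_ofPred_eq] at hω ⊢
  unfold GoodW at hω ⊢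
  obtain ⟨cc, q1, q2, q3, q4⟩ := hω
  refine ⟨cc, q1, fun z hz => q2 z fun hz' => hz ?_, q3, q4⟩
  rw [Set.mem_ofPred_eq] at hz' ⊢
  obtain ⟨⟨b, p, p', hj, hp, hp', hb⟩, hs⟩ := hz'
  refine ⟨?_, hs⟩
  have hsub : Slit h w cB RB c (4 * (M * q * η)) ⊆ (BR (cB, h) RB : Set (ℤ × ℤ)) := by
    intro f hf
    unfold Slit at hf
    rw [Set.mem_ofPred_eq] at hf
    exact mem_coe.2 hf.1
  have hb' : b ∈ MM ω (BR (cB, h) RB) (tagE X) := MM_trans he.1 (MM_mono hsub hb)
  by_cases hpar : par p = par X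
  · exact ⟨p, mm_end hb' hj hpar, hp⟩
  · refine ⟨p', mm_end hb' hj.symm ?_, hp'⟩
    have e1 := par_cases p
    have e2 := par_cases p'
    have e3 := par_cases X
    have e4 := hj.par_ne
    omega

/-! ### Creation of a tag -/

namespace TC

theorem side_ver (x y : ℤ) : IsSide (x, y) (x, y, true) ∧ IsSide (x - 1, y) (x, y, true) := by
  refine ⟨Or.inr (Or.inl rfl), Or.inr (Or.inr (Or.inr ?_))⟩
  unfold ri
  simp

theorem side_hor (x y : ℤ) : IsSide (x, y) (x, y, false) ∧ IsSide (x, y - 1) (x, y, false) := by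
  refine ⟨Or.inl rfl, Or.inr (Or.inr (Or.inl ?_))⟩
  unfold to'
  simp

/-- A unit edge is a side of two faces. -/
theorem side_two {f g k : ℤ × ℤ} {a : UE} (hf : IsSide f a) (hg : IsSide g a) (hk : IsSide k a) :
    f = g ∨ f = k ∨ g = k := by
  obtain ⟨x, y, b⟩ := a
  have key : ∀ f : ℤ × ℤ, IsSide f (x, y, b) → (b = true ∧ f.2 = y ∧ (f.1 = x ∨ f.1 = x - 1)) ∨
      (b = false ∧ f.1 = x ∧ (f.2 = y ∨ f.2 = y - 1)) := by
    intro f hf
    unfold IsSide bo le' to' ri at hf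
    simp only [Prod.mk.injEq] at hf
    rcases hf with ⟨h1, h2, h3⟩ | ⟨h1, h2, h3⟩ | ⟨h1, h2, h3⟩ | ⟨h1, h2, h3⟩
    · exact Or.inr ⟨h3, by omega, by omega⟩
    · exact Or.inl ⟨h3, by omega, by omega⟩
    · exact Or.inr ⟨h3, by omega, by omega⟩
    · exact Or.inl ⟨h3, by omega, by omega⟩
  simp only [Prod.ext_iff]
  rcases key f hf with ⟨b1, h1⟩ | ⟨b1, h1⟩ <;> rcases key g hg with ⟨b2, h2⟩ | ⟨b2, h2⟩ <;>
    rcases key k hk with ⟨b3, h3⟩ | ⟨b3, h3⟩ <;>
    first
    | (rw [b1] at b2; exact absurd b2 (by decide))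
    | (rw [b1] at b3; exact absurd b3 (by decide))
    | omega

/-- The faces at a boundary unit edge of the large box. -/
theorem cyc_faces {x₂ : ℤ} (hw : 1 ≤ w) (hR : w < RB) (h1 : cB - RB < x₂) {k : ℤ} (h0 : 0 ≤ k)
    (hk : k < len w RB) : (∃ f ∈ Notch h w cB RB x₂, IsSide f (cycE cB h w RB k)) ∧
      ∃ g, g ∉ (BR (cB, h) RB : Set (ℤ × ℤ)) ∧ IsSide g (cycE cB h w RB k) := by
  have key : ∀ f g : ℤ × ℤ, f ∈ BR (cB, h) RB → f ∉ Ray h w x₂ → IsSide f (cycE cB h w RB k) →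
      g ∉ BR (cB, h) RB → IsSide g (cycE cB h w RB k) →
      (∃ f ∈ Notch h w cB RB x₂, IsSide f (cycE cB h w RB k)) ∧
      ∃ g, g ∉ (BR (cB, h) RB : Set (ℤ × ℤ)) ∧ IsSide g (cycE cB h w RB k) :=
    fun f g a b c d e => ⟨⟨f, ⟨a, b⟩, c⟩, g, d, e⟩
  unfold len at hk
  by_cases c1 : k < RB - w
  · have e : cycE cB h w RB k = (cB + RB, h + w + k, true) := by
      unfold cycE; rw [if_pos c1]
    refine key (cB + RB - 1, h + w + k) (cB + RB, h + w + k) ?_ ?_ ?_ ?_ ?_
    · rw [mem_BR]; simp only; omega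
    · unfold Ray; simp only [Set.mem_ofPred_eq]; omega
    · rw [e]; exact (side_ver _ _).2
    · rw [mem_BR]; simp only; omega
    · rw [e]; exact (side_ver _ _).1
  by_cases c2 : k < 3 * RB - w
  · have e : cycE cB h w RB k = (cB + 2 * RB - w - k - 1, h + RB, false) := by
      unfold cycE; rw [if_neg c1, if_pos c2]
    refine key (cB + 2 * RB - w - k - 1, h + RB - 1) (cB + 2 * RB - w - k - 1, h + RB) ?_ ?_ ?_ ?_ ?_
    · rw [mem_BR]; simp only; omega
    · unfold Ray; simp only [Set.mem_ofPred_eq]; omega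
    · rw [e]; exact (side_hor _ _).2
    · rw [mem_BR]; simp only; omega
    · rw [e]; exact (side_hor _ _).1
  by_cases c3 : k < 5 * RB - w
  · have e : cycE cB h w RB k = (cB - RB, h + 4 * RB - w - k - 1, true) := by
      unfold cycE; rw [if_neg c1, if_neg c2, if_pos c3]
    refine key (cB - RB, h + 4 * RB - w - k - 1) (cB - RB - 1, h + 4 * RB - w - k - 1) ?_ ?_ ?_ ?_ ?_
    · rw [mem_BR]; simp only; omega
    · unfold Ray; simp only [Set.mem_ofPred_eq]; omega
    · rw [e]; exact (side_ver _ _).1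
    · rw [mem_BR]; simp only; omega
    · rw [e]; exact (side_ver _ _).2
  by_cases c4 : k < 7 * RB - w
  · have e : cycE cB h w RB k = (cB - 6 * RB + w + k, h - RB, false) := by
      unfold cycE; rw [if_neg c1, if_neg c2, if_neg c3, if_pos c4]
    refine key (cB - 6 * RB + w + k, h - RB) (cB - 6 * RB + w + k, h - RB - 1) ?_ ?_ ?_ ?_ ?_
    · rw [mem_BR]; simp only; omega
    · unfold Ray; simp only [Set.mem_ofPred_eq]; omega
    · rw [e]; exact (side_hor _ _).1
    · rw [mem_BR]; simp only; omega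
    · rw [e]; exact (side_hor _ _).2
  · have e : cycE cB h w RB k = (cB + RB, h - 8 * RB + w + k, true) := by
      unfold cycE; rw [if_neg c1, if_neg c2, if_neg c3, if_neg c4]
    refine key (cB + RB - 1, h - 8 * RB + w + k) (cB + RB, h - 8 * RB + w + k) ?_ ?_ ?_ ?_ ?_
    · rw [mem_BR]; simp only; omega
    · unfold Ray; simp only [Set.mem_ofPred_eq]; omega
    · rw [e]; exact (side_ver _ _).2
    · rw [mem_BR]; simp only; omega
    · rw [e]; exact (side_ver _ _).1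

theorem notch_sub {x₂ : ℤ} : Notch h w cB RB x₂ ⊆ (BR (cB, h) RB : Set (ℤ × ℤ)) := fun _ hf => hf.1

theorem bdU_B (hw : 1 ≤ w) (hR : w < RB) {k : ℤ} (h0 : 0 ≤ k) (hk : k < len w RB) :
    BdU (BR (cB, h) RB : Set (ℤ × ℤ)) (cycE cB h w RB k) := by
  obtain ⟨⟨f, hf, hf'⟩, g⟩ := cyc_faces (h := h) (cB := cB) (x₂ := cB) hw hR (by omega) h0 hk
  exact ⟨⟨f, notch_sub hf, hf'⟩, g⟩

theorem bdU_N {x₂ : ℤ} (hw : 1 ≤ w) (hR : w < RB) (h1 : cB - RB < x₂) {k : ℤ} (h0 : 0 ≤ k)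
    (hk : k < len w RB) : BdU (Notch h w cB RB x₂) (cycE cB h w RB k) := by
  obtain ⟨hf, g, hg, hg'⟩ := cyc_faces (h := h) (cB := cB) hw hR h1 h0 hk
  exact ⟨hf, g, fun h => hg (notch_sub h), hg'⟩

/-- No face of the ray is visited. -/
theorem not_ray {x₂ : ℤ} (hw : 1 ≤ w) (hR : w < RB) (h1 : cB - RB < x₂) {k k' : ℤ} (h0 : 0 ≤ k)
    (hk : k < len w RB) (h0' : 0 ≤ k') (hk' : k' < len w RB)
    (hne : cycE cB h w RB k ≠ cycE cB h w RB k')
    (hm : cycE cB h w RB k' ∈ MM ω (Notch h w cB RB x₂) (cycE cB h w RB k))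
    (he : MM ω (BR (cB, h) RB : Set (ℤ × ℤ)) (cycE cB h w RB k) =
      MM ω (Notch h w cB RB x₂) (cycE cB h w RB k)) {f : ℤ × ℤ} (hf : f ∈ BR (cB, h) RB)
    (hf2 : f ∈ Ray h w x₂) {a : UE} (ha : IsSide f a) :
    a ∉ MM ω (BR (cB, h) RB : Set (ℤ × ℤ)) (cycE cB h w RB k) := by
  intro hmem
  rw [he] at hmem
  have hfN : f ∉ Notch h w cB RB x₂ := fun h => h.2 hf2
  -- an end on the boundary of the box is no side of `f`
  have hno : ∀ {l : ℤ}, 0 ≤ l → l < len w RB → a ≠ cycE cB h w RB l := by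
    intro l hl0 hl1 hal
    obtain ⟨⟨f1, hf1, hs1⟩, g, hg, hs2⟩ := cyc_faces (h := h) (cB := cB) hw hR h1 hl0 hl1
    rw [← hal] at hs1 hs2
    rcases side_two ha hs1 hs2 with h | h | h
    · exact hfN (h ▸ hf1)
    · exact hg (by rw [← h]; exact hf)
    · exact hg (by rw [← h]; exact notch_sub hf1)
  -- `a` is a side of a face of the notched box
  have haN : ∃ g ∈ Notch h w cB RB x₂, IsSide g a := by
    rcases Relation.ReflTransGen.cases_tail hmem with h | ⟨b, -, g, hg, hb⟩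
    · exact absurd h (hno h0 hk)
    · exact ⟨g, hg, hb.right⟩
  have hbd : BdU (Notch h w cB RB x₂) a := ⟨haN, f, hfN, ha⟩
  rcases bdU_le_two hmem hm mem_MM_self hbd (bdU_N hw hR h1 h0' hk') (bdU_N hw hR h1 h0 hk) with
    h | h | h
  · exact hno h0' hk' h
  · exact hno h0 hk h
  · exact hne h.symm

theorem const_line {g : ℤ → ZMod 2} {a b : ℤ} (h : ∀ t, a ≤ t → t < b → g t = g (t + 1)) {t : ℤ}
    (h0 : a ≤ t) (h1 : t ≤ b) : g a = g t := by
  revert h1
  induction t, h0 using Int.leInduction with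
  | base => intro _; rfl
  | succ t ht ih =>
    intro h1
    exact (ih (by omega)).trans (h t ht (by omega))

theorem conn_in {x₀ x₁ y₀ y₁ : ℤ} {u y : ℤ × ℤ} (hu : InR x₀ x₁ y₀ y₁ u)
    (h : Conn ω (RF x₀ x₁ y₀ y₁) u y) : InR x₀ x₁ y₀ y₁ y := by
  induction h with
  | refl => exact hu
  | tail _ hb _ =>
    obtain ⟨f, hf, -, -, hc⟩ := hb.exists_face
    exact hc.inR hf

/-- The end of colour `par u` of a unit edge of the component is joined to `u`. -/
theorem mm_conn {F : Set (ℤ × ℤ)} {e a : UE} {u v p q : ℤ × ℤ} {Φ : ℤ × ℤ → ZMod 2}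
    (hP : IsPot F (MM ω F e) Φ) (he : Joins e u v) (hs : ∃ f ∈ F, IsSide f e)
    (ha : a ∈ MM ω F e) (haF : ∃ f ∈ F, IsSide f a) (hj : Joins a p q) (hp : par p = par u) :
    Conn ω F u p := by
  obtain ⟨f, hf, hfa⟩ := haF
  exact (hP.ss_conn he hs ⟨hf, a, ha, hfa⟩ (hfa.cor_left hj) hp (hP.mm he ha hj hp).1).mono SS_sub

end TC

open TC in
/-- Creation of a tag: if the two ends of `cycE k.1` are joined to the ends of `cycE k.2` in the
notched box and the cluster of `cyc (k.1 + 1)` has a vertex in the band to the left of the notch,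
then there is a tag between this vertex and the notch with the exits `k`. -/
theorem tag_create {x₁ x₂ : ℤ} (hw : 1 ≤ w) (hR : w < RB) (h1 : cB - RB < x₁) (h12 : x₁ < x₂)
    (h2 : x₂ < cB + RB) {col : ℤ} {k : ℤ × ℤ} (hk : k ∈ KP col cB h w RB)
    (hP : Conn ω (Notch h w cB RB x₂) (cyc cB h w RB (k.1 + 1)) (cyc cB h w RB k.2))
    (hD : Conn ω (Notch h w cB RB x₂) (cyc cB h w RB k.1) (cyc cB h w RB (k.2 + 1)))
    {p : ℤ × ℤ} (hp : Conn ω (Notch h w cB RB x₂) (cyc cB h w RB (k.1 + 1)) p)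
    (hp1 : x₁ ≤ p.1) (hp2 : h - w ≤ p.2 ∧ p.2 ≤ h + w) :
    ∃ X : ℤ × ℤ, x₁ ≤ X.1 ∧ X.1 < x₂ ∧ h - w ≤ X.2 ∧ X.2 ≤ h + w ∧ par X = col ∧
      ω ∈ TagEv h w cB RB X ∧ ω ∈ Exit h w cB RB X k := by
  classical
  unfold KP at hk
  rw [mem_filter, mem_product, mem_Ico, mem_Ico] at hk
  obtain ⟨⟨⟨ha0, ha1⟩, hb0, hb1⟩, hlt, hcol, hcol'⟩ := hk
  set B : Set (ℤ × ℤ) := (BR (cB, h) RB : Set (ℤ × ℤ)) with hB
  set e := cycE cB h w RB k.1 with he
  set e' := cycE cB h w RB k.2 with he'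
  set u := cyc cB h w RB (k.1 + 1) with hu
  set v := cyc cB h w RB k.1 with hv
  have hje : Joins e u v := (cyc_joins hw hR ha0 ha1).symm
  have hje' : Joins e' (cyc cB h w RB k.2) (cyc cB h w RB (k.2 + 1)) := cyc_joins hw hR hb0 hb1
  have hNe := bdU_N (h := h) hw hR (h1.trans h12) ha0 ha1
  have hNe' := bdU_N (h := h) hw hR (h1.trans h12) hb0 hb1
  have hBe := bdU_B (h := h) (cB := cB) hw hR ha0 ha1
  have hBe' := bdU_B (h := h) (cB := cB) hw hR hb0 hb1
  have hne : e ≠ e' := fun h => by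
    have := cycE_inj hw hR ha0 ha1 hb0 hb1 h
    omega
  obtain ⟨ΦN, hΦN⟩ := hasPot_Notch (h := h) hw hR (h1.trans h12) h2
    (MM ω (Notch h w cB RB x₂) e) fun f hf => evenAt_MM hf
  have hm : e' ∈ MM ω (Notch h w cB RB x₂) e := hΦN.mem_of_conn hje hNe.1 hje' hNe'.1 hP hD
  have heq : MM ω B e = MM ω (Notch h w cB RB x₂) e :=
    MM_eq_of_two notch_sub mem_MM_self hm hne hBe hBe'
  obtain ⟨Φ, hΦ⟩ := hasPot_RF (cB - RB) (cB + RB) (h - RB) (h + RB) (MM ω B e)
    fun f hf => evenAt_MM hf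
  replace hΦ : IsPot B (MM ω B e) Φ := hΦ
  have huv : Φ u ≠ Φ v := hΦ.ne hje hBe.1
  -- no jump along the outer boundary before `e`
  have hout : Φ (cyc cB h w RB 0) = Φ v := by
    refine const_line (g := fun t => Φ (cyc cB h w RB t)) (a := 0) (b := k.1) ?_ ha0 le_rfl
    intro t ht0 ht1
    by_contra hcon
    have hBt := bdU_B (h := h) (cB := cB) hw hR ht0 (show t < len w RB by omega)
    obtain ⟨f, hf, hft⟩ := hBt.1
    have hmt : cycE cB h w RB t ∈ MM ω B e :=
      (hΦ.joins hf hft (cyc_joins hw hR ht0 (by omega))).2 hcon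
    have hm' : e' ∈ MM ω B e := by rw [heq]; exact hm
    rcases bdU_le_two hmt hm' mem_MM_self hBt hBe' hBe with h | h | h
    · have := cycE_inj hw hR ht0 (by omega) hb0 hb1 h
      omega
    · have := cycE_inj hw hR ht0 (by omega) ha0 ha1 h
      omega
    · exact hne h.symm
  have hcyc0 : cyc cB h w RB 0 = (cB + RB, h + w) := by
    unfold cyc
    rw [if_pos (by omega), add_zero]
  rw [hcyc0] at hout
  -- the potential on the ray
  have hstep : ∀ (f a : ℤ × ℤ) (b : UE), f ∈ BR (cB, h) RB → f ∈ Ray h w x₂ → IsSide f b →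
      ua b = a → Φ a = Φ (ub b) := by
    intro f a b hf hf2 hs hab
    have h3 := not_ray hw hR (h1.trans h12) ha0 ha1 hb0 hb1 hne hm heq hf hf2 hs
    by_contra hcon
    refine h3 ((hΦ f hf b hs).2 ?_)
    rw [hab]
    exact hcon
  have hray : ∀ x y : ℤ, x₂ ≤ x → x ≤ cB + RB → h - w ≤ y → y ≤ h + w → Φ (x, y) = Φ v := by
    intro x y hx0 hx1 hy0 hy1
    rw [← hout]
    have hver : Φ (x, y) = Φ (x, h + w) := by
      refine const_line (g := fun t => Φ (x, t)) (a := y) (b := h + w) ?_ hy1 le_rfl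
      intro t ht0 ht1
      rcases hx1.lt_or_eq with hx | hx
      · exact hstep (x, t) (x, t) (x, t, true) (by rw [mem_BR]; simp only; omega)
          ⟨hx0, by simp only; omega, by simp only; omega⟩ (side_ver _ _).1 rfl
      · exact hstep (x - 1, t) (x, t) (x, t, true) (by rw [mem_BR]; simp only; omega)
          ⟨by simp only; omega, by simp only; omega, by simp only; omega⟩ (side_ver _ _).2 rfl
    rw [hver]
    refine const_line (g := fun t => Φ (t, h + w)) (a := x) (b := cB + RB) ?_ hx1 le_rfl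
    intro t ht0 ht1
    exact hstep (t, h + w - 1) (t, h + w) (t, h + w, false) (by rw [mem_BR]; simp only; omega)
      ⟨by simp only; omega, by simp only; omega, by simp only; omega⟩ (side_hor _ _).2 rfl
  -- the vertices of the cluster in the band
  have hparu : par u = col := by
    have h3 := hje.par_ne
    have h4 := par_cases u
    have h5 := par_cases v
    have h6 := par_cases (cyc cB h w RB k.2)
    rw [hcol'] at h6
    omega
  have huR : InR (cB - RB) (cB + RB) (h - RB) (h + RB) u :=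
    (cyc_onBd hw hR (k := k.1 + 1) (by omega) (by omega)).2
  have hclu : ∀ y, Conn ω B u y → h - w ≤ y.2 → y.2 ≤ h + w → y.1 < x₂ := by
    intro y hy hy1 hy2
    have hyR := conn_in huR hy
    unfold InR at hyR
    by_contra hcon
    have h3 := hray y.1 y.2 (by omega) (by omega) hy1 hy2
    rw [Prod.mk.eta, ← hΦ.conn hy] at h3
    exact huv h3
  set S : Finset (ℤ × ℤ) := ((Icc (cB - RB) (cB + RB)) ×ˢ (Icc (h - w) (h + w))).filter
    fun y => Conn ω B u y with hS
  have hpB : Conn ω B u p := hp.mono notch_sub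
  have hpS : p ∈ S := by
    rw [hS, mem_filter, mem_product, mem_Icc, mem_Icc]
    have := conn_in huR hpB
    unfold InR at this
    exact ⟨⟨⟨this.1, this.2.1⟩, hp2⟩, hpB⟩
  obtain ⟨X, hXS, hXmax⟩ := Finset.exists_max_image S (fun y : ℤ × ℤ => toLex (y.1, y.2)) ⟨p, hpS⟩
  have hmemS : ∀ y, Conn ω B u y → h - w ≤ y.2 → y.2 ≤ h + w → y ∈ S := by
    intro y hy hy1 hy2
    rw [hS, mem_filter, mem_product, mem_Icc, mem_Icc]
    have := conn_in huR hy
    unfold InR at this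
    exact ⟨⟨⟨this.1, this.2.1⟩, hy1, hy2⟩, hy⟩
  rw [hS, mem_filter, mem_product, mem_Icc, mem_Icc] at hXS
  obtain ⟨⟨⟨hX1, hX2⟩, hX3, hX4⟩, hXc⟩ := hXS
  have hmax : ∀ y, Conn ω B u y → h - w ≤ y.2 → y.2 ≤ h + w →
      y.1 < X.1 ∨ (y.1 = X.1 ∧ y.2 ≤ X.2) := by
    intro y hy hy1 hy2
    have h3 := hXmax y (hmemS y hy hy1 hy2)
    rw [Prod.Lex.toLex_le_toLex] at h3
    exact h3
  have hXx₁ : x₁ ≤ X.1 := by
    rcases hmax p hpB hp2.1 hp2.2 with h | h <;> omega
  have hXx₂ : X.1 < x₂ := hclu X hXc hX3 hX4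
  -- the row of `X`
  have hface : ∀ x, X.1 ≤ x → x < x₂ → (x, X.2) ∈ BR (cB, h) RB := by
    intro x hx0 hx1
    rw [mem_BR]
    simp only
    omega
  have hrow : ∀ x, X.1 + 1 ≤ x → x < x₂ → Φ (x, X.2) = Φ (x + 1, X.2) := by
    intro x hx0 hx1
    by_contra hcon
    have hf := hface x (by omega) hx1
    have hmem : ((x, X.2, false) : UE) ∈ MM ω B e := (hΦ _ hf _ (side_hor _ _).1).2 hcon
    have hj : Joins ((x, X.2, false) : UE) (x, X.2) (x + 1, X.2) := Or.inl ⟨rfl, rfl⟩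
    have hex : ∃ f ∈ B, IsSide f ((x, X.2, false) : UE) := ⟨_, hf, (side_hor _ _).1⟩
    by_cases hpx : par (x, X.2) = par u
    · have h3 := mm_conn hΦ hje hBe.1 hmem hex hj hpx
      rcases hmax _ h3 hX3 hX4 with h | h <;> simp only at h <;> omega
    · have hpx' : par (x + 1, X.2) = par u := by
        have a1 := par_cases (x, X.2)
        have a2 := par_cases (x + 1, X.2)
        have a3 := par_cases u
        have a4 := hj.par_ne
        omega
      have h3 := mm_conn hΦ hje hBe.1 hmem hex hj.symm hpx'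
      rcases hmax _ h3 hX3 hX4 with h | h <;> simp only at h <;> omega
  have hX5 : Φ (X.1 + 1, X.2) = Φ v := by
    rw [← hray x₂ X.2 le_rfl h2.le hX3 hX4]
    exact const_line (g := fun t => Φ (t, X.2)) (a := X.1 + 1) (b := x₂) hrow (by omega) le_rfl
  have htag : tagE X ∈ MM ω B e := by
    refine (hΦ (X.1, X.2) (hface X.1 le_rfl hXx₂) (tagE X) (side_hor _ _).1).2 ?_
    change Φ (X.1, X.2) ≠ Φ (X.1 + 1, X.2)
    rw [hX5, Prod.mk.eta, ← hΦ.conn hXc]
    exact huv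
  have hsymm := MM_symm htag
  refine ⟨X, hXx₁, hXx₂, hX3, hX4, hXc.par_eq.symm.trans hparu, ⟨?_, ?_⟩, hsymm, ?_⟩
  · exact ⟨u, hXc.symm, cyc_onBd hw hR (k := k.1 + 1) (by omega) (by omega)⟩
  · intro y hy hy1 hy2
    exact hmax y (hXc.trans hy) hy1 hy2
  · exact MM_trans hsymm (by rw [← hB, heq]; exact hm)

end Pool.Agent.Perc6

end Partperc6Tag
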