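import Pool.Agent.Lib.MP_6bd702_zc.Pre
import Pool.Agent.Lib.MP_6bd702_zc.Y019
import Pool.Agent.Lib.MP_6bd702_zc.Y005

section Partperc3TwPot

/-!
# Potentials on the annuli of the twisted plane (task TwPot)

A function `m` on the unit edges with values in `ZMod 2` which is even on every face of
`BW w \ BW d` is the increment of a function on the vertices if its sum over the outer boundary (or
over the inner boundary) is zero. Proof: for `y ≥ 0` add `m` along the upper side `y = w` of the box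
and then down along the column; the same below; the two functions differ by a constant on the
right part and on the left part of the axis, and the two constants are equal by the assumption.
-/

set_option autoImplicit false

namespace Pool.Agent.Perc.Q

open Finset Pool.Agent.Perc

variable {d w : ℤ} {m : ℤ × ℤ → ℤ × ℤ → ZMod 2}

/-- `χ` is a potential of `m` on the faces of `F`. -/
def PotOn (F : Set (ℤ × ℤ)) (m : ℤ × ℤ → ℤ × ℤ → ZMod 2) (χ : ℤ × ℤ → ZMod 2) : Prop :=
  ∀ f ∈ F, ∀ k, χ (TQ.c f k) + χ (TQ.c f (k + 1)) = m (TQ.c f k) (TQ.c f (k + 1))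

theorem z2_add_self (a : ZMod 2) : a + a = 0 := by revert a; decide

theorem z2_eq {a b : ZMod 2} (h : a + b = 0) : a = b := by revert a b; decide

theorem tele (g : ℤ → ZMod 2) {a b : ℤ} (h : a ≤ b) :
    ∑ t ∈ Ico a b, (g t + g (t + 1)) = g a + g b := by
  induction b, h using Int.leInduction with
  | base => simp [z2_add_self]
  | succ n hn ih =>
    rw [← Finset.insert_Ico_right_eq_Ico_add_one hn, Finset.sum_insert (by simp), ih]
    generalize g a = x; generalize g n = y; generalize g (n + 1) = z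
    revert x y z; decide

theorem sum_Ico_left (g : ℤ → ZMod 2) {a b : ℤ} (h : a < b) :
    ∑ t ∈ Ico a b, g t = g a + ∑ t ∈ Ico (a + 1) b, g t := by
  have : Ico a b = insert a (Ico (a + 1) b) := by
    ext t; simp only [mem_Ico, mem_insert]; omega
  rw [this, Finset.sum_insert (by simp)]

theorem sum_Ico_right (g : ℤ → ZMod 2) {a b : ℤ} (h : a ≤ b) :
    ∑ t ∈ Ico a (b + 1), g t = g b + ∑ t ∈ Ico a b, g t := by
  have : Ico a (b + 1) = insert b (Ico a b) := by
    ext t; simp only [mem_Ico, mem_insert]; omega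
  rw [this, Finset.sum_insert (by simp)]

/-- The sum over the sides of a unit square. -/
def cell (M : ℤ × ℤ → ℤ × ℤ → ZMod 2) (x y : ℤ) : ZMod 2 :=
  M (x, y) (x + 1, y) + M (x + 1, y) (x + 1, y + 1) + M (x + 1, y + 1) (x, y + 1) +
    M (x, y + 1) (x, y)

/-- Along the row `y = w`, then down the column. -/
noncomputable def upP (M : ℤ × ℤ → ℤ × ℤ → ZMod 2) (w : ℤ) (v : ℤ × ℤ) : ZMod 2 :=
  ∑ s ∈ Ico v.1 w, M (s, w) (s + 1, w) + ∑ t ∈ Ico v.2 w, M (v.1, t) (v.1, t + 1)

/-- Along the row `y = -w`, then up the column. -/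
noncomputable def dnP (M : ℤ × ℤ → ℤ × ℤ → ZMod 2) (w : ℤ) (v : ℤ × ℤ) : ZMod 2 :=
  ∑ s ∈ Ico v.1 w, M (s, -w) (s + 1, -w) + ∑ t ∈ Ico (-w) v.2, M (v.1, t) (v.1, t + 1)

variable {M : ℤ × ℤ → ℤ × ℤ → ZMod 2} {x y : ℤ}

theorem up_v (h : y < w) : upP M w (x, y) + upP M w (x, y + 1) = M (x, y) (x, y + 1) := by
  unfold upP
  simp only
  rw [sum_Ico_left _ h]
  generalize ∑ s ∈ Ico x w, M (s, w) (s + 1, w) = a
  generalize ∑ t ∈ Ico (y + 1) w, M (x, t) (x, t + 1) = b
  generalize M (x, y) (x, y + 1) = c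
  revert a b c; decide

theorem dn_v (h : -w ≤ y) : dnP M w (x, y) + dnP M w (x, y + 1) = M (x, y) (x, y + 1) := by
  unfold dnP
  simp only
  rw [sum_Ico_right _ h]
  generalize ∑ s ∈ Ico x w, M (s, -w) (s + 1, -w) = a
  generalize ∑ t ∈ Ico (-w) y, M (x, t) (x, t + 1) = b
  generalize M (x, y) (x, y + 1) = c
  revert a b c; decide

theorem up_h (hs : ∀ p q, M p q = M q p) (hx : x < w) (hy : y ≤ w)
    (hc : ∀ t, y ≤ t → t < w → cell M x t = 0) :
    upP M w (x, y) + upP M w (x + 1, y) = M (x, y) (x + 1, y) := by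
  obtain ⟨n, rfl⟩ : ∃ n : ℕ, y = w - n := ⟨(w - y).toNat, by omega⟩
  induction n with
  | zero =>
    unfold upP
    simp only [Nat.cast_zero, sub_zero, Ico_self, sum_empty, add_zero]
    rw [sum_Ico_left _ hx]
    generalize ∑ t ∈ Ico (x + 1) w, M (t, w) (t + 1, w) = b
    generalize M (x, w) (x + 1, w) = c
    revert b c; decide
  | succ n ih =>
    have e : w - ((n + 1 : ℕ) : ℤ) + 1 = w - n := by push_cast; ring
    have h1 := up_v (M := M) (w := w) (x := x) (y := w - ((n + 1 : ℕ) : ℤ)) (by push_cast; omega)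
    have h2 := up_v (M := M) (w := w) (x := x + 1) (y := w - ((n + 1 : ℕ) : ℤ))
      (by push_cast; omega)
    have h3 := ih (by omega) (fun t h h' => hc t (by push_cast; omega) h')
    have h4 := hc (w - ((n + 1 : ℕ) : ℤ)) le_rfl (by push_cast; omega)
    unfold cell at h4
    rw [e] at h1 h2 h4
    rw [hs (x + 1, w - (n : ℤ)) (x, w - (n : ℤ)), hs (x, w - (n : ℤ)) (x, _)] at h4
    generalize upP M w (x, w - ((n + 1 : ℕ) : ℤ)) = a1 at *
    generalize upP M w (x + 1, w - ((n + 1 : ℕ) : ℤ)) = a2 at *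
    generalize upP M w (x, w - (n : ℤ)) = a3 at *
    generalize upP M w (x + 1, w - (n : ℤ)) = a4 at *
    generalize M (x, w - ((n + 1 : ℕ) : ℤ)) (x + 1, w - ((n + 1 : ℕ) : ℤ)) = b1 at *
    generalize M (x + 1, w - ((n + 1 : ℕ) : ℤ)) (x + 1, w - (n : ℤ)) = b2 at *
    generalize M (x, w - (n : ℤ)) (x + 1, w - (n : ℤ)) = b3 at *
    generalize M (x, w - ((n + 1 : ℕ) : ℤ)) (x, w - (n : ℤ)) = b4 at *
    clear hs hc ih hx hy e
    subst h1 h2 h3
    revert a1 a2 a3 a4 b1; decide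

theorem dn_h (hs : ∀ p q, M p q = M q p) (hx : x < w) (hy : -w ≤ y)
    (hc : ∀ t, -w ≤ t → t < y → cell M x t = 0) :
    dnP M w (x, y) + dnP M w (x + 1, y) = M (x, y) (x + 1, y) := by
  obtain ⟨n, rfl⟩ : ∃ n : ℕ, y = -w + n := ⟨(w + y).toNat, by omega⟩
  induction n with
  | zero =>
    unfold dnP
    simp only [Nat.cast_zero, add_zero, Ico_self, sum_empty]
    rw [sum_Ico_left _ hx]
    generalize ∑ t ∈ Ico (x + 1) w, M (t, -w) (t + 1, -w) = b
    generalize M (x, -w) (x + 1, -w) = c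
    revert b c; decide
  | succ n ih =>
    have e : -w + ((n + 1 : ℕ) : ℤ) = -w + n + 1 := by push_cast; ring
    rw [e] at hc ⊢
    have h1 := dn_v (M := M) (w := w) (x := x) (y := -w + n) (by omega)
    have h2 := dn_v (M := M) (w := w) (x := x + 1) (y := -w + n) (by omega)
    have h3 := ih (by omega) (fun t h h' => hc t h (by omega))
    have h4 := hc (-w + n) (by omega) (by omega)
    unfold cell at h4
    rw [hs (x + 1, -w + (n : ℤ) + 1) (x, -w + (n : ℤ) + 1),
      hs (x, -w + (n : ℤ) + 1) (x, -w + (n : ℤ))] at h4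
    generalize dnP M w (x, -w + (n : ℤ) + 1) = a1 at *
    generalize dnP M w (x + 1, -w + (n : ℤ) + 1) = a2 at *
    generalize dnP M w (x, -w + (n : ℤ)) = a3 at *
    generalize dnP M w (x + 1, -w + (n : ℤ)) = a4 at *
    generalize M (x, -w + (n : ℤ) + 1) (x + 1, -w + (n : ℤ) + 1) = b1 at *
    generalize M (x + 1, -w + (n : ℤ)) (x + 1, -w + (n : ℤ) + 1) = b2 at *
    generalize M (x, -w + (n : ℤ)) (x + 1, -w + (n : ℤ)) = b3 at *
    generalize M (x, -w + (n : ℤ)) (x, -w + (n : ℤ) + 1) = b4 at *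
    clear hs hc ih hx hy e
    subst h1 h2 h3
    revert a1 a2 a3 a4 b1; decide

/-- The cochain in lower coordinates. -/
def Mlow (m : ℤ × ℤ → ℤ × ℤ → ZMod 2) (p q : ℤ × ℤ) : ZMod 2 := m (twV emP p) (twV emP q)

/-- The lower coordinates of the lower part of the boundary. -/
def bl (r t : ℤ) : ℤ × ℤ :=
  if t ≤ 5 * r + 2 then (-(r + 1), 4 * r + 2 - t)
  else if t ≤ 7 * r + 3 then (t - 6 * r - 3, -r) else (r, t - 8 * r - 3)

variable {r t : ℤ}

theorem twV_bl (hr : 0 ≤ r) (h0 : 4 * r + 2 ≤ t) (h1 : t ≤ 8 * r + 3) :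
    twV emP (bl r t) = bd r t := by
  unfold twV emP bl bd
  split_ifs <;> dsimp only at * <;> refine Prod.ext ?_ ?_ <;> dsimp only at * <;> omega

theorem up_bd (hs : ∀ p q, m p q = m q p) (hr : 0 ≤ r) (hrw : r ≤ w)
    (hc : ∀ x t, -(r + 2) ≤ x → x < r → r ≤ t → t < w → cell m x t = 0)
    (h0 : 0 ≤ t) (h1 : t < 4 * r + 2) :
    m (bd r t) (bd r (t + 1)) = upP m w (bd r t) + upP m w (bd r (t + 1)) := by
  rcases lt_or_ge t r with h | h
  · have e1 : bd r t = (r, t) := by unfold bd; rw [if_pos h.le]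
    have e2 : bd r (t + 1) = (r, t + 1) := by unfold bd; rw [if_pos (by omega)]
    rw [e1, e2, up_v (by omega)]
  rcases lt_or_ge t (3 * r + 2) with h' | h'
  · have e1 : bd r t = (2 * r - t - 1 + 1, r) := by
      unfold bd
      split_ifs <;> refine Prod.ext ?_ ?_ <;> dsimp only <;> omega
    have e2 : bd r (t + 1) = (2 * r - t - 1, r) := by
      unfold bd
      split_ifs <;> refine Prod.ext ?_ ?_ <;> dsimp only <;> omega
    rw [e1, e2, hs]
    refine (up_h hs (by omega) hrw ?_).symm.trans (add_comm _ _)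
    intro t' h3 h4
    exact hc _ _ (by omega) (by omega) h3 h4
  · have e1 : bd r t = (-(r + 2), 4 * r + 1 - t + 1) := by
      unfold bd
      split_ifs <;> refine Prod.ext ?_ ?_ <;> dsimp only <;> omega
    have e2 : bd r (t + 1) = (-(r + 2), 4 * r + 1 - t) := by
      unfold bd
      split_ifs <;> refine Prod.ext ?_ ?_ <;> dsimp only <;> omega
    rw [e1, e2, hs]
    exact (up_v (by omega)).symm.trans (add_comm _ _)

theorem dn_bl (hs : ∀ p q, M p q = M q p) (hr : 0 ≤ r) (hrw : r ≤ w)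
    (hc : ∀ x t, -(r + 1) ≤ x → x < r → -w ≤ t → t < -r → cell M x t = 0)
    (h0 : 4 * r + 2 ≤ t) (h1 : t < 8 * r + 3) :
    M (bl r t) (bl r (t + 1)) = dnP M w (bl r t) + dnP M w (bl r (t + 1)) := by
  rcases lt_or_ge t (5 * r + 2) with h | h
  · have e1 : bl r t = (-(r + 1), 4 * r + 1 - t + 1) := by
      unfold bl
      split_ifs <;> refine Prod.ext ?_ ?_ <;> dsimp only <;> omega
    have e2 : bl r (t + 1) = (-(r + 1), 4 * r + 1 - t) := by
      unfold bl
      split_ifs <;> refine Prod.ext ?_ ?_ <;> dsimp only <;> omega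
    rw [e1, e2, hs]
    exact (dn_v (by omega)).symm.trans (add_comm _ _)
  rcases lt_or_ge t (7 * r + 3) with h' | h'
  · have e1 : bl r t = (t - 6 * r - 3, -r) := by
      unfold bl
      split_ifs <;> refine Prod.ext ?_ ?_ <;> dsimp only <;> omega
    have e2 : bl r (t + 1) = (t - 6 * r - 3 + 1, -r) := by
      unfold bl
      split_ifs <;> refine Prod.ext ?_ ?_ <;> dsimp only <;> omega
    rw [e1, e2, dn_h hs (by omega) (by omega)]
    intro t' h3 h4
    exact hc _ _ (by omega) (by omega) h3 h4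
  · have e1 : bl r t = (r, t - 8 * r - 3) := by
      unfold bl
      split_ifs <;> refine Prod.ext ?_ ?_ <;> dsimp only <;> omega
    have e2 : bl r (t + 1) = (r, t - 8 * r - 3 + 1) := by
      unfold bl
      split_ifs <;> refine Prod.ext ?_ ?_ <;> dsimp only <;> omega
    rw [e1, e2, dn_v (by omega)]

/-- The difference of the two potentials on the axis. -/
noncomputable def Dax (m : ℤ × ℤ → ℤ × ℤ → ZMod 2) (w x : ℤ) : ZMod 2 :=
  upP m w (emP x, 0) + dnP (Mlow m) w (x, 0)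

theorem Mlow_symm (hs : ∀ p q, m p q = m q p) (p q : ℤ × ℤ) : Mlow m p q = Mlow m q p := hs _ _

theorem sum_bd (hs : ∀ p q, m p q = m q p) (hr : 0 ≤ r) (hrw : r ≤ w)
    (hc : ∀ x t, -(r + 2) ≤ x → x < r → r ≤ t → t < w → cell m x t = 0)
    (hc' : ∀ x t, -(r + 1) ≤ x → x < r → -w ≤ t → t < -r → cell (Mlow m) x t = 0) :
    ∑ t ∈ Ico (0 : ℤ) (8 * r + 3), m (bd r t) (bd r (t + 1)) = Dax m w r + Dax m w (-(r + 1)) := by
  have hu : Ico (0 : ℤ) (8 * r + 3) = Ico 0 (4 * r + 2) ∪ Ico (4 * r + 2) (8 * r + 3) :=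
    (Finset.Ico_union_Ico_eq_Ico (by omega) (by omega)).symm
  rw [hu, Finset.sum_union (Finset.Ico_disjoint_Ico_consecutive _ _ _)]
  have h1 : ∑ t ∈ Ico (0 : ℤ) (4 * r + 2), m (bd r t) (bd r (t + 1)) =
      upP m w (bd r 0) + upP m w (bd r (4 * r + 2)) := by
    rw [← tele (fun t => upP m w (bd r t)) (by omega)]
    refine Finset.sum_congr rfl fun t ht => ?_
    rw [mem_Ico] at ht
    exact up_bd hs hr hrw hc ht.1 ht.2
  have h2 : ∑ t ∈ Ico (4 * r + 2) (8 * r + 3), m (bd r t) (bd r (t + 1)) =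
      dnP (Mlow m) w (bl r (4 * r + 2)) + dnP (Mlow m) w (bl r (8 * r + 3)) := by
    rw [← tele (fun t => dnP (Mlow m) w (bl r t)) (by omega)]
    refine Finset.sum_congr rfl fun t ht => ?_
    rw [mem_Ico] at ht
    rw [← twV_bl hr ht.1 (by omega), ← twV_bl hr (by omega) (by omega)]
    exact dn_bl (Mlow_symm hs) hr hrw hc' ht.1 ht.2
  have e0 : bd r 0 = (r, 0) := by unfold bd; rw [if_pos hr]
  have e1 : bd r (4 * r + 2) = (-(r + 2), 0) := by
    unfold bd
    split_ifs <;> refine Prod.ext ?_ ?_ <;> dsimp only <;> omega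
  have e2 : bl r (4 * r + 2) = (-(r + 1), 0) := by
    unfold bl
    split_ifs <;> refine Prod.ext ?_ ?_ <;> dsimp only <;> omega
  have e3 : bl r (8 * r + 3) = (r, 0) := by
    unfold bl
    split_ifs <;> refine Prod.ext ?_ ?_ <;> dsimp only <;> omega
  have e4 : emP r = r := by unfold emP; rw [if_pos hr]
  have e5 : emP (-(r + 1)) = -(r + 2) := by unfold emP; rw [if_neg (by omega)]; ring
  rw [h1, h2, e0, e1, e2, e3]
  unfold Dax
  rw [e4, e5]
  ring

theorem dax_const {a b : ℤ} (h : ∀ x, a ≤ x → x < b → Dax m w x = Dax m w (x + 1)) (hx : a ≤ x)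
    (hxb : x ≤ b) : Dax m w x = Dax m w b := by
  obtain ⟨n, hn⟩ : ∃ n : ℕ, x = b - n := ⟨(b - x).toNat, by omega⟩
  induction n generalizing x with
  | zero => rw [hn]; simp
  | succ n ih =>
    rw [h x hx (by push_cast at hn; omega)]
    exact ih (by omega) (by push_cast at hn; omega) (by push_cast at hn; omega)

theorem psum_z4 {α : Type} [AddCommMonoid α] (g : ZMod 4 → α) :
    ∑ k, g k = g 0 + g 1 + g 2 + g 3 := Fin.sum_univ_four g

theorem mem_ann_up (hx : -(w + 2) ≤ x) (hx' : x < w) (hy : 0 ≤ y) (hy' : y < w)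
    (h : x < -(d + 2) ∨ d ≤ x ∨ d ≤ y) :
    (x, y) ∈ (BW w : Set (ℤ × ℤ)) \ BW d := by
  constructor
  · simp only [BW, RF, coe_union, coe_product, coe_Ico, Set.mem_union, Set.mem_prod, Set.mem_Ico]
    left; omega
  · simp only [BW, RF, coe_union, coe_product, coe_Ico, Set.mem_union, Set.mem_prod, Set.mem_Ico]
    omega

theorem mem_ann_dn (hx : -(w + 1) ≤ x) (hx' : x < w) (hy : -w ≤ y) (hy' : y < 0)
    (h : x < -(d + 1) ∨ d ≤ x ∨ y < -d) :
    (x, y) ∈ (BW w : Set (ℤ × ℤ)) \ BW d := by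
  constructor
  · simp only [BW, RF, coe_union, coe_product, coe_Ico, Set.mem_union, Set.mem_prod, Set.mem_Ico]
    right; omega
  · simp only [BW, RF, coe_union, coe_product, coe_Ico, Set.mem_union, Set.mem_prod, Set.mem_Ico]
    omega

theorem cell_up (hev : ∀ f ∈ (BW w : Set (ℤ × ℤ)) \ BW d,
      ∑ k, m (TQ.c f k) (TQ.c f (k + 1)) = 0)
    (hx : -(w + 2) ≤ x) (hx' : x < w) (hy : 0 ≤ y) (hy' : y < w)
    (h : x < -(d + 2) ∨ d ≤ x ∨ d ≤ y) : cell m x y = 0 := by
  have h1 := hev _ (mem_ann_up hx hx' hy hy' h)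
  rw [psum_z4] at h1
  have c0 : TQ.c (x, y) 0 = (x, y) := by
    show corT emP (x, y) 0 = _
    unfold corT; rw [if_pos hy]; rfl
  have c1 : TQ.c (x, y) 1 = (x + 1, y) := by
    show corT emP (x, y) 1 = _
    unfold corT; rw [if_pos hy]; rfl
  have c2 : TQ.c (x, y) 2 = (x + 1, y + 1) := by
    show corT emP (x, y) 2 = _
    unfold corT; rw [if_pos hy]; rfl
  have c3 : TQ.c (x, y) 3 = (x, y + 1) := by
    show corT emP (x, y) 3 = _
    unfold corT; rw [if_pos hy]; rfl
  have e1 : (0 : ZMod 4) + 1 = 1 := by decide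
  have e2 : (1 : ZMod 4) + 1 = 2 := by decide
  have e3 : (2 : ZMod 4) + 1 = 3 := by decide
  have e4 : (3 : ZMod 4) + 1 = 0 := by decide
  rw [e1, e2, e3, e4, c0, c1, c2, c3] at h1
  exact h1

theorem cell_dn (hev : ∀ f ∈ (BW w : Set (ℤ × ℤ)) \ BW d,
      ∑ k, m (TQ.c f k) (TQ.c f (k + 1)) = 0)
    (hx : -(w + 1) ≤ x) (hx' : x < w) (hy : -w ≤ y) (hy' : y < 0)
    (h : x < -(d + 1) ∨ d ≤ x ∨ y < -d) : cell (Mlow m) x y = 0 := by
  have h1 := hev _ (mem_ann_dn hx hx' hy hy' h)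
  rw [psum_z4] at h1
  have c0 : TQ.c (x, y) 0 = twV emP (x, y) := by
    show corT emP (x, y) 0 = _
    unfold corT; rw [if_neg (by dsimp only; omega)]; rfl
  have c1 : TQ.c (x, y) 1 = twV emP (x + 1, y) := by
    show corT emP (x, y) 1 = _
    unfold corT; rw [if_neg (by dsimp only; omega)]; rfl
  have c2 : TQ.c (x, y) 2 = twV emP (x + 1, y + 1) := by
    show corT emP (x, y) 2 = _
    unfold corT; rw [if_neg (by dsimp only; omega)]; rfl
  have c3 : TQ.c (x, y) 3 = twV emP (x, y + 1) := by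
    show corT emP (x, y) 3 = _
    unfold corT; rw [if_neg (by dsimp only; omega)]; rfl
  have e1 : (0 : ZMod 4) + 1 = 1 := by decide
  have e2 : (1 : ZMod 4) + 1 = 2 := by decide
  have e3 : (2 : ZMod 4) + 1 = 3 := by decide
  have e4 : (3 : ZMod 4) + 1 = 0 := by decide
  rw [e1, e2, e3, e4, c0, c1, c2, c3] at h1
  exact h1

theorem emP_nonneg (h : 0 ≤ x) : emP x = x := by unfold emP; rw [if_pos h]

theorem emP_neg (h : x < 0) : emP x = x - 1 := by unfold emP; rw [if_neg (by omega)]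

theorem ptwV_zero : twV emP (x, 0) = (emP x, 0) := by unfold twV; rw [if_pos rfl]

theorem ptwV_ne (h : y ≠ 0) : twV emP (x, y) = (x, y) := by unfold twV; rw [if_neg h]

theorem dax_right (hs : ∀ p q, m p q = m q p) (hd : 0 ≤ d) (hdw : d < w)
    (hev : ∀ f ∈ (BW w : Set (ℤ × ℤ)) \ BW d, ∑ k, m (TQ.c f k) (TQ.c f (k + 1)) = 0)
    (hx : d ≤ x) (hxw : x < w) : Dax m w x = Dax m w (x + 1) := by
  have h1 := up_h (M := m) (w := w) (x := x) (y := 0) hs hxw (by omega)
    (fun t ht ht' => cell_up hev (by omega) hxw ht ht' (Or.inr (Or.inl hx)))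
  have h2 := dn_h (M := Mlow m) (w := w) (x := x) (y := 0) (Mlow_symm hs) hxw (by omega)
    (fun t ht ht' => cell_dn hev (by omega) hxw ht ht' (Or.inr (Or.inl hx)))
  have h3 : Mlow m (x, 0) (x + 1, 0) = m (x, 0) (x + 1, 0) := by
    unfold Mlow
    rw [ptwV_zero, ptwV_zero, emP_nonneg (by omega), emP_nonneg (by omega)]
  unfold Dax
  rw [emP_nonneg (by omega), emP_nonneg (by omega)]
  rw [h3] at h2
  generalize upP m w (x, 0) = a1 at *
  generalize upP m w (x + 1, 0) = a2 at *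
  generalize dnP (Mlow m) w (x, 0) = a3 at *
  generalize dnP (Mlow m) w (x + 1, 0) = a4 at *
  clear hs hev h3
  generalize m (x, 0) (x + 1, 0) = b at *
  subst h1
  revert a1 a2 a3 a4; decide

theorem dax_left (hs : ∀ p q, m p q = m q p) (hd : 0 ≤ d) (hdw : d < w)
    (hev : ∀ f ∈ (BW w : Set (ℤ × ℤ)) \ BW d, ∑ k, m (TQ.c f k) (TQ.c f (k + 1)) = 0)
    (hx : -(w + 1) ≤ x) (hxw : x < -(d + 1)) : Dax m w x = Dax m w (x + 1) := by
  have h1 := up_h (M := m) (w := w) (x := x - 1) (y := 0) hs (by omega) (by omega)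
    (fun t ht ht' => cell_up hev (by omega) (by omega) ht ht' (Or.inl (by omega)))
  have h2 := dn_h (M := Mlow m) (w := w) (x := x) (y := 0) (Mlow_symm hs) (by omega) (by omega)
    (fun t ht ht' => cell_dn hev (by omega) (by omega) ht ht' (Or.inl hxw))
  have h3 : Mlow m (x, 0) (x + 1, 0) = m (x - 1, 0) (x - 1 + 1, 0) := by
    unfold Mlow
    rw [ptwV_zero, ptwV_zero, emP_neg (by omega), emP_neg (by omega)]
    ring_nf
  unfold Dax
  rw [emP_neg (by omega), emP_neg (by omega)]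
  have e : x + 1 - 1 = x - 1 + 1 := by ring
  rw [h3] at h2
  rw [e]
  generalize upP m w (x - 1, 0) = a1 at *
  generalize upP m w (x - 1 + 1, 0) = a2 at *
  generalize dnP (Mlow m) w (x, 0) = a3 at *
  generalize dnP (Mlow m) w (x + 1, 0) = a4 at *
  clear hs hev h3
  generalize m (x - 1, 0) (x - 1 + 1, 0) = b at *
  subst h1
  revert a1 a2 a3 a4; decide

/-- The potential. -/
noncomputable def chi (m : ℤ × ℤ → ℤ × ℤ → ZMod 2) (w : ℤ) (v : ℤ × ℤ) : ZMod 2 :=
  if 0 ≤ v.2 then upP m w v else dnP (Mlow m) w v + Dax m w w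

theorem exists_pot_aux (hs : ∀ p q, m p q = m q p) (hd : 0 ≤ d) (hdw : d < w)
    (hev : ∀ f ∈ (BW w : Set (ℤ × ℤ)) \ BW d, ∑ k, m (TQ.c f k) (TQ.c f (k + 1)) = 0)
    (hR : ∀ x, d ≤ x → x ≤ w → Dax m w x = Dax m w w)
    (hL : ∀ x, -(w + 1) ≤ x → x ≤ -(d + 1) → Dax m w x = Dax m w w) :
    PotOn ((BW w : Set (ℤ × ℤ)) \ BW d) m (chi m w) := by
  have hlow : ∀ v : ℤ × ℤ, v.2 ≤ 0 → (v.2 = 0 → (d ≤ v.1 ∧ v.1 ≤ w) ∨
      (-(w + 1) ≤ v.1 ∧ v.1 ≤ -(d + 1))) →
      chi m w (twV emP v) = dnP (Mlow m) w v + Dax m w w := by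
    rintro ⟨x, y⟩ hy h
    dsimp only at hy h
    rcases hy.lt_or_eq with h' | h'
    · rw [ptwV_ne h'.ne]
      unfold chi
      rw [if_neg (by dsimp only; omega)]
    · subst h'
      have hD : Dax m w x = Dax m w w := by
        rcases h rfl with ⟨h1, h2⟩ | ⟨h1, h2⟩
        · exact hR x h1 h2
        · exact hL x h1 h2
      rw [ptwV_zero]
      unfold chi
      rw [if_pos (le_refl _), ← hD]
      unfold Dax
      generalize upP m w (emP x, 0) = a
      generalize dnP (Mlow m) w (x, 0) = b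
      clear hD h
      revert a b; decide
  have hcases : ∀ k : ZMod 4, k = 0 ∨ k = 1 ∨ k = 2 ∨ k = 3 := by decide
  have e1 : (0 : ZMod 4) + 1 = 1 := by decide
  have e2 : (1 : ZMod 4) + 1 = 2 := by decide
  have e3 : (2 : ZMod 4) + 1 = 3 := by decide
  have e4 : (3 : ZMod 4) + 1 = 0 := by decide
  rintro ⟨x, y⟩ hf k
  have hf' := hf
  simp only [BW, RF, coe_union, coe_product, coe_Ico, Set.mem_union, Set.mem_prod, Set.mem_Ico,
    Set.mem_sdiff] at hf'
  rcases le_or_gt 0 y with hy | hy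
  · have hx : -(w + 2) ≤ x ∧ x < w ∧ y < w := by omega
    have hx2 : x < -(d + 2) ∨ d ≤ x ∨ d ≤ y := by omega
    have c : ∀ k, TQ.c (x, y) k = cor0 (x, y) k := by
      intro k
      show corT emP (x, y) k = _
      unfold corT; rw [if_pos hy]
    have hc : ∀ v : ℤ × ℤ, 0 ≤ v.2 → chi m w v = upP m w v := by
      intro v hv
      unfold chi; rw [if_pos hv]
    have hcell : ∀ t, y ≤ t → t < w → cell m x t = 0 := fun t ht ht' =>
      cell_up hev hx.1 hx.2.1 (by omega) ht' (by omega)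
    rw [c, c]
    rcases hcases k with rfl | rfl | rfl | rfl
    · rw [e1]
      show chi m w (x, y) + chi m w (x + 1, y) = m (x, y) (x + 1, y)
      rw [hc _ hy, hc _ hy]
      exact up_h hs hx.2.1 hx.2.2.le hcell
    · rw [e2]
      show chi m w (x + 1, y) + chi m w (x + 1, y + 1) = m (x + 1, y) (x + 1, y + 1)
      rw [hc _ hy, hc _ (by dsimp only; omega)]
      exact up_v hx.2.2
    · rw [e3]
      show chi m w (x + 1, y + 1) + chi m w (x, y + 1) = m (x + 1, y + 1) (x, y + 1)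
      rw [hc _ (by dsimp only; omega), hc _ (by dsimp only; omega), hs, add_comm]
      exact up_h hs hx.2.1 (by omega) fun t ht ht' => hcell t (by omega) ht'
    · rw [e4]
      show chi m w (x, y + 1) + chi m w (x, y) = m (x, y + 1) (x, y)
      rw [hc _ (by dsimp only; omega), hc _ hy, hs, add_comm]
      exact up_v hx.2.2
  · have hx : -(w + 1) ≤ x ∧ x < w ∧ -w ≤ y := by omega
    have hx2 : x < -(d + 1) ∨ d ≤ x ∨ y < -d := by omega
    have c : ∀ k, TQ.c (x, y) k = twV emP (cor0 (x, y) k) := by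
      intro k
      show corT emP (x, y) k = _
      unfold corT; rw [if_neg (by dsimp only; omega)]
    have hcell : ∀ t, -w ≤ t → t < y + 1 → cell (Mlow m) x t = 0 := fun t ht ht' =>
      cell_dn hev hx.1 hx.2.1 ht (by omega) (by omega)
    have hm : ∀ u v, m (twV emP u) (twV emP v) = Mlow m u v := fun _ _ => rfl
    have hcan : ∀ a b c e : ZMod 2, a + b = e → a + c + (b + c) = e := by decide
    rw [c, c, hm]
    have hgood : ∀ z, z = x ∨ z = x + 1 → y + 1 = 0 → (d ≤ z ∧ z ≤ w) ∨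
        (-(w + 1) ≤ z ∧ z ≤ -(d + 1)) := by
      intro z hz hy0
      omega
    rcases hcases k with rfl | rfl | rfl | rfl
    · rw [e1]
      show chi m w (twV emP (x, y)) + chi m w (twV emP (x + 1, y)) = Mlow m (x, y) (x + 1, y)
      rw [hlow _ (by dsimp only; omega) (by dsimp only; omega),
        hlow _ (by dsimp only; omega) (by dsimp only; omega)]
      exact hcan _ _ _ _ (dn_h (Mlow_symm hs) hx.2.1 hx.2.2 fun t ht ht' => hcell t ht (by omega))
    · rw [e2]
      show chi m w (twV emP (x + 1, y)) + chi m w (twV emP (x + 1, y + 1)) =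
        Mlow m (x + 1, y) (x + 1, y + 1)
      rw [hlow _ (by dsimp only; omega) (by dsimp only; omega),
        hlow _ (by dsimp only; omega) (hgood _ (Or.inr rfl))]
      exact hcan _ _ _ _ (dn_v hx.2.2)
    · rw [e3]
      show chi m w (twV emP (x + 1, y + 1)) + chi m w (twV emP (x, y + 1)) =
        Mlow m (x + 1, y + 1) (x, y + 1)
      rw [hlow _ (by dsimp only; omega) (hgood _ (Or.inr rfl)),
        hlow _ (by dsimp only; omega) (hgood _ (Or.inl rfl)), Mlow_symm hs, add_comm]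
      exact hcan _ _ _ _ (dn_h (Mlow_symm hs) hx.2.1 (by omega) hcell)
    · rw [e4]
      show chi m w (twV emP (x, y + 1)) + chi m w (twV emP (x, y)) = Mlow m (x, y + 1) (x, y)
      rw [hlow _ (by dsimp only; omega) (hgood _ (Or.inl rfl)),
        hlow _ (by dsimp only; omega) (by dsimp only; omega), Mlow_symm hs, add_comm]
      exact hcan _ _ _ _ (dn_v hx.2.2)

theorem exists_pot_outer (hd : 0 ≤ d) (hdw : d < w) (hsym : ∀ p q, m p q = m q p)
    (hev : ∀ f ∈ (BW w : Set (ℤ × ℤ)) \ BW d, ∑ k, m (TQ.c f k) (TQ.c f (k + 1)) = 0)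
    (hout : ∑ t ∈ Ico (0 : ℤ) (8 * w + 3), m (bd w t) (bd w (t + 1)) = 0) :
    ∃ χ, PotOn ((BW w : Set (ℤ × ℤ)) \ BW d) m χ := by
  refine ⟨chi m w, exists_pot_aux hsym hd hdw hev ?_ ?_⟩
  · intro x hx hxw
    exact dax_const (fun x hx hx' => dax_right hsym hd hdw hev hx hx') hx hxw
  · rw [sum_bd (w := w) hsym (by omega) le_rfl (fun x t _ _ h h' => absurd h' (by omega))
      (fun x t _ _ h h' => absurd h' (by omega))] at hout
    intro x hx hxw
    rw [z2_eq hout, dax_const (a := -(w + 1)) (b := -(d + 1))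
      (fun x hx hx' => dax_left hsym hd hdw hev hx hx') hx hxw,
      ← dax_const (a := -(w + 1)) (b := -(d + 1))
      (fun x hx hx' => dax_left hsym hd hdw hev hx hx') le_rfl (by omega)]

theorem exists_pot_inner (hd : 0 ≤ d) (hdw : d < w) (hsym : ∀ p q, m p q = m q p)
    (hev : ∀ f ∈ (BW w : Set (ℤ × ℤ)) \ BW d, ∑ k, m (TQ.c f k) (TQ.c f (k + 1)) = 0)
    (hin : ∑ t ∈ Ico (0 : ℤ) (8 * d + 3), m (bd d t) (bd d (t + 1)) = 0) :
    ∃ χ, PotOn ((BW w : Set (ℤ × ℤ)) \ BW d) m χ := by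
  have hR : ∀ x, d ≤ x → x ≤ w → Dax m w x = Dax m w w := fun x hx hxw =>
    dax_const (fun x hx hx' => dax_right hsym hd hdw hev hx hx') hx hxw
  refine ⟨chi m w, exists_pot_aux hsym hd hdw hev hR ?_⟩
  rw [sum_bd (w := w) hsym hd hdw.le
    (fun x t h1 h2 h3 h4 => cell_up hev (by omega) (by omega) (by omega) h4 (Or.inr (Or.inr h3)))
    (fun x t h1 h2 h3 h4 => cell_dn hev (by omega) (by omega) h3 (by omega)
      (Or.inr (Or.inr h4)))] at hin
  intro x hx hxw
  rw [← hR d le_rfl hdw.le, z2_eq hin]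
  exact dax_const (a := -(w + 1)) (b := -(d + 1))
      (fun x hx hx' => dax_left hsym hd hdw hev hx hx') hx hxw

end Pool.Agent.Perc.Q

end Partperc3TwPot

section Partperc3TwSec

/-!
# The sectors of three strands in an annulus of the twisted plane
-/

set_option autoImplicit false

namespace Pool.Agent.Perc.Q

open Finset Pool.Agent.Perc Relation

variable {d w r : ℤ} {ω : Cfg}

/-- The faces of the annulus. -/
def An (d w : ℤ) : Set (ℤ × ℤ) := (BW w : Set (ℤ × ℤ)) \ BW d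

theorem BW_mono {d w : ℤ} (h : d ≤ w) : (BW d : Set (ℤ × ℤ)) ⊆ BW w := by
  intro f hf
  unfold BW at *
  simp only [coe_union, Set.mem_union, mem_coe] at *
  unfold RF at *
  simp only [mem_product, mem_Ico] at *
  omega

theorem bd_ne (hd : 0 ≤ d) (hdw : d < w) {s t : ℤ} (h0 : 0 ≤ s) (h1 : s ≤ 8 * d + 3) (h2 : 0 ≤ t)
    (h3 : t ≤ 8 * w + 3) : bd d s ≠ bd w t := by
  intro h
  unfold bd at h
  split_ifs at h <;> (rw [Prod.mk.injEq] at h; omega)

/-- An initial edge which belongs to a strand is its first edge. -/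
theorem eq_of_ini {V Φ : Type} {Q : QC V Φ} {ω : Φ → Bool} {F : Set Φ} {e a : V × V}
    (ha : a ∈ Orb Q ω F e) (hi : Ini Q F a) : a = e := by
  rcases Orb_pred ha with h | ⟨b, -, f, hf, k, -, h | h⟩
  · exact h
  · exact absurd (by rw [z1]; exact h.2) (hi f hf (k + 1))
  · exact absurd (by rw [z5]; exact h.2) (hi f hf (k + 3))

/-- The reversed edge of an initial edge is terminal. -/
theorem Ini.ter_swap {V Φ : Type} {Q : QC V Φ} {F : Set Φ} {a : V × V} (h : Ini Q F a) :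
    Ter Q F a.swap := by
  intro f hf k hk
  refine h f hf k ?_
  rw [← Prod.swap_swap a, hk]; rfl

/-- The strand which starts at the outer boundary edge `t` reaches the inner box. -/
def Rea (d w : ℤ) (ω : Cfg) (t : ℤ) : Prop :=
  ∃ s, 0 ≤ s ∧ s < 8 * d + 3 ∧ ine d s ∈ Orb TQ ω (An d w) (ine w t)

/-- Three outer boundary edges, the numbers of the boundary edges between them are even. -/
def Alt (w : ℤ) (t : Fin 3 → ℤ) : Prop :=
  0 ≤ t 0 ∧ t 0 < t 1 ∧ t 1 < t 2 ∧ t 2 < 8 * w + 3 ∧ (t 1 - t 0) % 2 = 1 ∧ (t 2 - t 1) % 2 = 1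

theorem Alt.mem {t : Fin 3 → ℤ} (h : Alt w t) (i : Fin 3) : 0 ≤ t i ∧ t i < 8 * w + 3 := by
  obtain ⟨h0, h1, h2, h3, -, -⟩ := h
  fin_cases i <;> constructor <;> simp only [Fin.isValue, Fin.zero_eta, Fin.mk_one, Fin.reduceFinMk]
    <;> omega

/-- The outer boundary edges in a strand which reaches the inner box. -/
theorem indU_outer (hd : 0 ≤ d) (hdw : d < w) {t t' : ℤ} (h0 : 0 ≤ t) (h1 : t < 8 * w + 3)
    (h0' : 0 ≤ t') (h1' : t' < 8 * w + 3) (hr : Rea d w ω t) :
    indU TQ ω (An d w) (ine w t) (bd w t') (bd w (t' + 1)) = if t' = t then 1 else 0 := by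
  have key : (bd w t', bd w (t' + 1)) ∈ Un TQ ω (An d w) (ine w t) ↔ t' = t := by
    refine ⟨?_, fun h => h ▸ Or.inl mem_Orb_self⟩
    rintro (h | h)
    · exact ine_inj (by omega) h0' h1' h0 h1 (eq_of_ini h (ini_outer hd hdw h0' h1'))
    · exfalso
      obtain ⟨s, hs0, hs1, hs⟩ := hr
      have h2 : Ter TQ (An d w) (ine w t').swap := (ini_outer hd hdw h0' h1').ter_swap
      have h3 : Ter TQ (An d w) (ine d s) := by
        have := (ini_inner hd hdw hs0 hs1).ter_swap
        rwa [Prod.swap_swap] at this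
      have h4 := ter_unique hs h h3 h2
      exact bd_ne hd hdw hs0 hs1.le (by omega) (by omega : t' + 1 ≤ 8 * w + 3) (Prod.mk.inj h4).1
  unfold indU
  by_cases h : t' = t
  · rw [if_pos h, if_pos (key.2 h)]
  · rw [if_neg h, if_neg fun h' => h (key.1 h')]

theorem z2_step : ∀ x y z u v : ZMod 2, x + y = u + v → x = z + u → y = z + v := by decide

/-- A step function on the boundary. -/
theorem step_fun {n : ℤ} {g : ℤ → ZMod 2} {j : ℤ → ZMod 2} {G : ℤ → ZMod 2} (hG0 : G 0 = 0)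
    (hg : ∀ t, 0 ≤ t → t < n → g t + g (t + 1) = j t)
    (hG : ∀ t, 0 ≤ t → t < n → G t + G (t + 1) = j t) {t : ℤ} (h0 : 0 ≤ t) (h1 : t ≤ n) :
    g t = g 0 + G t := by
  revert h1
  induction t, h0 using Int.leInduction with
  | base => intro _; rw [hG0, add_zero]
  | succ t ht ih =>
    intro h1
    have a1 := ih (by omega)
    have a2 := hg t ht (by omega)
    have a3 := hG t ht (by omega)
    exact z2_step _ _ _ _ _ (a2.trans a3.symm) a1

/-- Indicator of `a < t`. -/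
def lt2 (a t : ℤ) : ZMod 2 := if a < t then 1 else 0

theorem lt2_step (a t : ℤ) : lt2 a t + lt2 a (t + 1) = if t = a then 1 else 0 := by
  unfold lt2
  split_ifs <;> first | rfl | omega

theorem lt2_zero {a : ℤ} (h : 0 ≤ a) : lt2 a 0 = 0 := if_neg (by omega)

theorem sum_ite_Ico {n a : ℤ} (h0 : 0 ≤ a) (h1 : a < n) :
    ∑ t ∈ Ico (0 : ℤ) n, (if t = a then (1 : ZMod 2) else 0) = 1 := by
  rw [Finset.sum_ite_eq' (Ico (0 : ℤ) n) a (fun _ => (1 : ZMod 2))]
  rw [if_pos (by rw [mem_Ico]; exact ⟨h0, h1⟩)]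

/-- A side of the annulus on its outer boundary. -/
theorem pot_outer (hd : 0 ≤ d) (hdw : d < w) {m : ℤ × ℤ → ℤ × ℤ → ZMod 2} {χ : ℤ × ℤ → ZMod 2}
    (h : PotQ TQ (An d w) m χ) {t : ℤ} (h0 : 0 ≤ t) (h1 : t < 8 * w + 3) :
    χ (bd w t) + χ (bd w (t + 1)) = m (bd w t) (bd w (t + 1)) := by
  obtain ⟨f, hf, hf', k, hk⟩ := ine_face (r := w) (by omega) h0 h1
  have hk' := Prod.mk.inj hk
  have h2 := h f ⟨hf, fun h3 => hf' (BW_mono (by omega) h3)⟩ k
  rw [← hk'.1, ← hk'.2] at h2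
  exact h2

/-- A side of the annulus on its inner boundary. -/
theorem pot_inner (hd : 0 ≤ d) (hdw : d < w) {m : ℤ × ℤ → ℤ × ℤ → ZMod 2}
    (hsym : ∀ p q, m p q = m q p) {χ : ℤ × ℤ → ZMod 2}
    (h : PotQ TQ (An d w) m χ) {t : ℤ} (h0 : 0 ≤ t) (h1 : t < 8 * d + 3) :
    χ (bd d t) + χ (bd d (t + 1)) = m (bd d t) (bd d (t + 1)) := by
  obtain ⟨f, hf, hf', k, hk⟩ := ine_opp hd h0 h1
  have hk' := Prod.mk.inj hk
  have h2 := h f ⟨BW_mono (by omega) hf, hf'⟩ k
  change (bd d (t + 1)) = _ ∧ (bd d t) = _ at hk'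
  rw [← hk'.1, ← hk'.2] at h2
  rw [hsym (bd d t), ← h2, add_comm]

theorem par_cast {a b : ℤ} (h : (a - b) % 2 = 0) : (a : ZMod 2) = b := by
  have : ((a - b : ℤ) : ZMod 2) = 0 := (ZMod.intCast_zmod_eq_zero_iff_dvd _ 2).2 (by
    exact_mod_cast Int.dvd_of_emod_eq_zero h)
  push_cast at this
  exact sub_eq_zero.1 this

theorem par_cast' {a b : ℤ} (h : (a - b) % 2 = 1) : (a : ZMod 2) = b + 1 := by
  have h1 := par_cast (a := a) (b := b + 1) (by omega)
  rw [h1]; push_cast; rfl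

/-- The potentials of three strands, with their values on a boundary cycle. -/
theorem pot_cycle {F : Set (ℤ × ℤ)} {ρ : ℤ} (hρ : 0 ≤ ρ) {t : Fin 3 → ℤ} (ht : Alt ρ t)
    {e : Fin 3 → (ℤ × ℤ) × (ℤ × ℤ)} (hini : ∀ i, Ini TQ F (e i))
    (hind : ∀ i t', 0 ≤ t' → t' < 8 * ρ + 3 →
      indU TQ ω F (e i) (bd ρ t') (bd ρ (t' + 1)) = if t' = t i then 1 else 0)
    (hex : ∀ m : ℤ × ℤ → ℤ × ℤ → ZMod 2, (∀ p q, m p q = m q p) →
      (∀ f ∈ F, ∑ k, m (TQ.c f k) (TQ.c f (k + 1)) = 0) →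
      ∑ t ∈ Ico (0 : ℤ) (8 * ρ + 3), m (bd ρ t) (bd ρ (t + 1)) = 0 → ∃ χ, PotQ TQ F m χ)
    (hside : ∀ (m : ℤ × ℤ → ℤ × ℤ → ZMod 2) (χ : ℤ × ℤ → ZMod 2), (∀ p q, m p q = m q p) →
      PotQ TQ F m χ → ∀ t, 0 ≤ t → t < 8 * ρ + 3 →
      χ (bd ρ t) + χ (bd ρ (t + 1)) = m (bd ρ t) (bd ρ (t + 1))) :
    ∃ (P : Fin 3 → ℤ × ℤ → ZMod 2) (K : ℤ × ℤ → ZMod 2),
      (∀ i, PotQ TQ F (mP TQ ω F e i) (P i)) ∧ PotQ TQ F (mK TQ ω F e) K ∧
      (∀ i j, P j (bd ρ (t i)) = if j = i + 2 then 0 else 1) ∧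
      (∀ i j, P j (bd ρ (t i + 1)) = if j = i then 0 else 1) ∧
      ∀ i, K (bd ρ (t i)) = 0 ∧ K (bd ρ (t i + 1)) = 0 := by
  have hm := ht.mem
  -- pair potentials
  have hex1 : ∀ i, ∃ χ, PotQ TQ F (mP TQ ω F e i) χ := by
    intro i
    refine hex _ (fun p q => mP_symm p q)
      (fun f hf => (mat_mP (i := i) hini).even hf) ?_
    have h1 : ∀ t' ∈ Ico (0 : ℤ) (8 * ρ + 3), mP TQ ω F e i
        (bd ρ t') (bd ρ (t' + 1)) = (if t' = t i then 1 else 0) + if t' = t (i + 1) then 1 else 0 := by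
      intro t' ht'
      rw [mem_Ico] at ht'
      unfold mP
      rw [hind i t' ht'.1 ht'.2, hind (i + 1) t' ht'.1 ht'.2]
    rw [Finset.sum_congr rfl h1, Finset.sum_add_distrib,
      sum_ite_Ico (hm i).1 (hm i).2, sum_ite_Ico (hm _).1 (hm _).2]
    decide
  choose P0 hP0 using hex1
  have hexK : ∃ χ, PotQ TQ F (mK TQ ω F e) χ := by
    refine hex _ (fun p q => mK_symm p q)
      (fun f hf => (mat_mK hini).even hf) ?_
    have h1 : ∀ t' ∈ Ico (0 : ℤ) (8 * ρ + 3), mK TQ ω F e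
        (bd ρ t') (bd ρ (t' + 1)) = 1 + ((if t' = t 0 then 1 else 0) +
          (if t' = t 1 then 1 else 0) + if t' = t 2 then 1 else 0) := by
      intro t' ht'
      rw [mem_Ico] at ht'
      unfold mK
      rw [Fin.sum_univ_three, hind 0 t' ht'.1 ht'.2, hind 1 t' ht'.1 ht'.2,
        hind 2 t' ht'.1 ht'.2]
    rw [Finset.sum_congr rfl h1, Finset.sum_add_distrib, Finset.sum_add_distrib,
      Finset.sum_add_distrib, sum_ite_Ico (hm 0).1 (hm 0).2, sum_ite_Ico (hm 1).1 (hm 1).2,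
      sum_ite_Ico (hm 2).1 (hm 2).2, Finset.sum_const, Int.card_Ico, nsmul_eq_mul, mul_one]
    have h1 : (((8 * ρ + 3 - 0).toNat : ℕ) : ZMod 2) = ((8 * ρ + 3 : ℤ) : ZMod 2) := by
      rw [← Int.cast_natCast, Int.toNat_of_nonneg (by omega), sub_zero]
    rw [h1, par_cast (a := 8 * ρ + 3) (b := 1) (by omega)]
    push_cast
    decide
  obtain ⟨K0, hK0⟩ := hexK
  -- the functions on the cycle
  have hg : ∀ i t', 0 ≤ t' → t' ≤ 8 * ρ + 3 →
      P0 i (bd ρ t') = P0 i (bd ρ 0) + (lt2 (t i) t' + lt2 (t (i + 1)) t') := by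
    intro i t' h0 h1
    refine step_fun (g := fun t' => P0 i (bd ρ t')) (n := 8 * ρ + 3)
      (G := fun t' => lt2 (t i) t' + lt2 (t (i + 1)) t')
      (j := fun t' => (if t' = t i then 1 else 0) + if t' = t (i + 1) then 1 else 0)
      (by simp only [lt2_zero (hm i).1, lt2_zero (hm (i + 1)).1, add_zero]) ?_ ?_ h0 h1
    · intro s hs0 hs1
      rw [hside _ _ (fun p q => mP_symm p q) (hP0 i) s hs0 hs1]
      unfold mP
      rw [hind i s hs0 hs1, hind (i + 1) s hs0 hs1]
    · intro s _ _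
      rw [← lt2_step, ← lt2_step]
      ring
  have hgK : ∀ t', 0 ≤ t' → t' ≤ 8 * ρ + 3 →
      K0 (bd ρ t') = K0 (bd ρ 0) + (t' + lt2 (t 0) t' + lt2 (t 1) t' + lt2 (t 2) t') := by
    intro t' h0 h1
    refine step_fun (g := fun t' => K0 (bd ρ t')) (n := 8 * ρ + 3)
      (G := fun t' => (t' : ZMod 2) + lt2 (t 0) t' + lt2 (t 1) t' + lt2 (t 2) t')
      (j := fun t' => 1 + ((if t' = t 0 then 1 else 0) + (if t' = t 1 then 1 else 0) +
        if t' = t 2 then 1 else 0))
      (by simp only [lt2_zero (hm 0).1, lt2_zero (hm 1).1, lt2_zero (hm 2).1, add_zero,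
        Int.cast_zero]) ?_ ?_ h0 h1
    · intro s hs0 hs1
      rw [hside _ _ (fun p q => mK_symm p q) hK0 s hs0 hs1]
      unfold mK
      rw [Fin.sum_univ_three, hind 0 s hs0 hs1, hind 1 s hs0 hs1, hind 2 s hs0 hs1]
    · intro s _ _
      rw [← lt2_step, ← lt2_step, ← lt2_step]
      push_cast
      generalize (s : ZMod 2) = x
      generalize lt2 (t 0) s = a
      generalize lt2 (t 1) s = b
      generalize lt2 (t 2) s = c
      generalize lt2 (t 0) (s + 1) = a'
      generalize lt2 (t 1) (s + 1) = b'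
      generalize lt2 (t 2) (s + 1) = c'
      revert x a b c a' b' c'
      decide
  obtain ⟨h0, h1, h2, h3, h4, h5⟩ := ht
  -- the constants
  set C : Fin 3 → ZMod 2 := fun i => P0 i (bd ρ 0) + (if i = 2 then 0 else 1) with hC
  set D : ZMod 2 := K0 (bd ρ 0) + (t 0 : ℤ) with hD
  have shiftP : ∀ {m : ℤ × ℤ → ℤ × ℤ → ZMod 2} {χ : ℤ × ℤ → ZMod 2} (c : ZMod 2),
      PotQ TQ F m χ → PotQ TQ F m (fun v => χ v + c) := by
    intro m χ c h f hf k
    have := h f hf k
    simp only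
    rw [← this]
    generalize χ (TQ.c f k) = x
    generalize χ (TQ.c f (k + 1)) = y
    revert x y c
    decide
  have e1 : ∀ x y : ZMod 2, ∀ z, x + y + (x + z) = y + z := by decide
  refine ⟨fun i v => P0 i v + C i, fun v => K0 v + D, fun i => shiftP (C i) (hP0 i),
    shiftP D hK0, ?_, ?_, ?_⟩
  · intro i j
    simp only
    rw [hg j (t i) (hm i).1 (hm i).2.le, hC]
    simp only
    rw [e1]
    clear_value C D
    clear hC hD hg hgK shiftP hP0 hK0 hind hini hex hside e1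
    fin_cases i <;> fin_cases j <;>
      simp only [Fin.isValue, Fin.zero_eta, Fin.mk_one, Fin.reduceFinMk, Fin.reduceAdd, lt2] <;>
      split_ifs <;> first | rfl | (exfalso; omega) | (exfalso; simp_all)
  · intro i j
    simp only
    rw [hg j (t i + 1) (by have := (hm i).1; omega) (by have := (hm i).2; omega), hC]
    simp only
    rw [e1]
    clear_value C D
    clear hC hD hg hgK shiftP hP0 hK0 hind hini hex hside e1
    fin_cases i <;> fin_cases j <;>
      simp only [Fin.isValue, Fin.zero_eta, Fin.mk_one, Fin.reduceFinMk, Fin.reduceAdd, lt2] <;>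
      split_ifs <;> first | rfl | (exfalso; omega) | (exfalso; simp_all)
  · intro i
    simp only
    rw [hgK (t i) (hm i).1 (hm i).2.le, hgK (t i + 1) (by have := (hm i).1; omega)
      (by have := (hm i).2; omega), hD]
    have c1 : ((t 1 : ℤ) : ZMod 2) = (t 0 : ℤ) + 1 := par_cast' h4
    have c2 : ((t 2 : ℤ) : ZMod 2) = (t 0 : ℤ) := par_cast (by omega)
    clear_value C D
    clear hC hD hg hgK shiftP hP0 hK0 hind hini hex hside e1
    generalize K0 (bd ρ 0) = x
    fin_cases i <;>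
      simp only [Fin.isValue, Fin.zero_eta, Fin.mk_one, Fin.reduceFinMk, lt2, Int.cast_add,
        Int.cast_one, c1, c2] <;>
      (generalize ((t 0 : ℤ) : ZMod 2) = y; split_ifs <;>
        first | (exfalso; omega) | (clear * -; revert x y; decide))

/-- Three strands which come from the outer boundary and reach the inner box: the sectors. -/
theorem secIn (hd : 0 ≤ d) (hdw : d < w) {t : Fin 3 → ℤ} (ht : Alt w t)
    (hr : ∀ i, Rea d w ω (t i)) :
    ∃ (sec : ℤ × ℤ → Fin 3) (kap : ℤ × ℤ → ZMod 2),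
      IsSec TQ ω (An d w) (fun i => ine w (t i)) (fun i => i + 2) (fun i => i) sec kap := by
  have hm := ht.mem
  have hini : ∀ i, Ini TQ (An d w) (ine w (t i)) := fun i => ini_outer hd hdw (hm i).1 (hm i).2
  obtain ⟨P, K, h1, h2, h3, h4, h5⟩ := pot_cycle (ω := ω) (F := An d w) (ρ := w) (by omega) ht
    (e := fun i => ine w (t i)) hini
    (fun i t' h0 h1 => indU_outer hd hdw (hm i).1 (hm i).2 h0 h1 (hr i))
    (fun m hs he ho => exists_pot_outer hd hdw hs he ho)
    (fun m χ _ h t h0 h1 => pot_outer hd hdw h h0 h1)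
  exact ⟨_, _, isSec_of_pot hini h1 h2 h3 h4 h5⟩

/-- The strand which leaves the inner box through the edge `t` reaches the outer boundary. -/
def Lea (d w : ℤ) (ω : Cfg) (t : ℤ) : Prop :=
  ∃ s, 0 ≤ s ∧ s < 8 * w + 3 ∧ (ine w s).swap ∈ Orb TQ ω (An d w) (ine d t).swap

/-- The inner boundary edges in a strand which reaches the outer boundary. -/
theorem indU_inner (hd : 0 ≤ d) (hdw : d < w) {t t' : ℤ} (h0 : 0 ≤ t) (h1 : t < 8 * d + 3)
    (h0' : 0 ≤ t') (h1' : t' < 8 * d + 3) (hr : Lea d w ω t) :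
    indU TQ ω (An d w) (ine d t).swap (bd d t') (bd d (t' + 1)) = if t' = t then 1 else 0 := by
  have key : (bd d t', bd d (t' + 1)) ∈ Un TQ ω (An d w) (ine d t).swap ↔ t' = t := by
    refine ⟨?_, fun h => h ▸ Or.inr mem_Orb_self⟩
    rintro (h | h)
    · exfalso
      obtain ⟨s, hs0, hs1, hs⟩ := hr
      have h2 : Ter TQ (An d w) (ine d t') := by
        have := (ini_inner hd hdw h0' h1').ter_swap
        rwa [Prod.swap_swap] at this
      have h3 : Ter TQ (An d w) (ine w s).swap := (ini_outer hd hdw hs0 hs1).ter_swap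
      have h4 := ter_unique h hs h2 h3
      exact bd_ne hd hdw h0' h1'.le (by omega) (by omega : s + 1 ≤ 8 * w + 3) (Prod.mk.inj h4).1
    · have h2 : (ine d t').swap = (ine d t).swap := eq_of_ini h (ini_inner hd hdw h0' h1')
      exact ine_inj hd h0' h1' h0 h1 (Prod.swap_injective h2)
  unfold indU
  by_cases h : t' = t
  · rw [if_pos h, if_pos (key.2 h)]
  · rw [if_neg h, if_neg fun h' => h (key.1 h')]

/-- Three strands which leave the inner box and reach the outer boundary: the sectors. -/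
theorem secOut (hd : 0 ≤ d) (hdw : d < w) {t : Fin 3 → ℤ} (ht : Alt d t)
    (hr : ∀ i, Lea d w ω (t i)) :
    ∃ (sec : ℤ × ℤ → Fin 3) (kap : ℤ × ℤ → ZMod 2),
      IsSec TQ ω (An d w) (fun i => (ine d (t i)).swap) (fun i => i) (fun i => i + 2) sec kap := by
  have hm := ht.mem
  have hini : ∀ i, Ini TQ (An d w) (ine d (t i)).swap :=
    fun i => ini_inner hd hdw (hm i).1 (hm i).2
  obtain ⟨P, K, h1, h2, h3, h4, h5⟩ := pot_cycle (ω := ω) (F := An d w) (ρ := d) hd ht
    (e := fun i => (ine d (t i)).swap) hini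
    (fun i t' h0 h1 => indU_inner hd hdw (hm i).1 (hm i).2 h0 h1 (hr i))
    (fun m hs he ho => exists_pot_inner hd hdw hs he ho)
    (fun m χ hs h t h0 h1 => pot_inner hd hdw hs h h0 h1)
  exact ⟨_, _, isSec_of_pot hini h1 h2 h4 h3 fun i => (h5 i).symm⟩

/-- The core edges form an alternating triple. -/
theorem alt_core : Alt 0 (fun i : Fin 3 => (i : ℤ)) := by
  unfold Alt
  simp

end Pool.Agent.Perc.Q

end Partperc3TwSec

section Partperc3TwArc

/-!
# The arcs of the sectors on a boundary cycle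

`S` and `K` are periodic functions with period `L`; `S` changes from `j + 2` to `j` at the tip
`s j` and nowhere else, `K` alternates except at the tips, where it is zero. Then the tips are in
cyclic order, the gaps are odd and `S = i` exactly on the arc from `s i + 1` to `s (i + 1)`.
-/

set_option autoImplicit false

namespace Pool.Agent.Perc.Q

open Finset Pool.Agent.Perc Relation

/-- The cyclic distance from the tip `i` to the tip `i + 1`. -/
def gap (L : ℤ) (s : Fin 3 → ℤ) (i : Fin 3) : ℤ := (s (i + 1) - s i) % L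

section Cyc

variable {L : ℤ} {s : Fin 3 → ℤ} {S : ℤ → Fin 3} {K : ℤ → ZMod 2}

/-- The assumptions on the cycle. -/
structure Cyc (L : ℤ) (s : Fin 3 → ℤ) (S : ℤ → Fin 3) (K : ℤ → ZMod 2) : Prop where
  pos : 0 < L
  odd : L % 2 = 1
  perS : ∀ x y, L ∣ x - y → S x = S y
  perK : ∀ x y, L ∣ x - y → K x = K y
  step : ∀ x, (∀ j, ¬ L ∣ x - s j) → S (x + 1) = S x ∧ K (x + 1) = K x + 1
  tip : ∀ j, S (s j) = j + 2 ∧ S (s j + 1) = j ∧ K (s j) = 0 ∧ K (s j + 1) = 0

variable (H : Cyc L s S K)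
include H

theorem Cyc.gap_lt (i : Fin 3) : gap L s i < L := Int.emod_lt_of_pos _ H.pos

theorem Cyc.dvd (i : Fin 3) : L ∣ (s i + gap L s i) - s (i + 1) := by
  unfold gap
  have := Int.emod_add_mul_ediv (s (i + 1) - s i) L
  exact ⟨-((s (i + 1) - s i) / L), by linarith⟩

theorem Cyc.gap_pos (i : Fin 3) : 0 < gap L s i := by
  have h0 : 0 ≤ gap L s i := Int.emod_nonneg _ H.pos.ne'
  rcases h0.lt_or_eq with h | h
  · exact h
  · exfalso
    have h1 := H.perS _ _ (H.dvd i)
    rw [← h, add_zero, (H.tip i).1, (H.tip (i + 1)).1] at h1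
    revert h1
    fin_cases i <;> decide

theorem Cyc.arc (i : Fin 3) {n : ℤ} (h1 : 1 ≤ n) (h2 : n ≤ gap L s i) :
    S (s i + n) = i ∧ K (s i + n) = n - 1 := by
  revert h2
  induction n, h1 using Int.leInduction with
  | base => intro _; rw [(H.tip i).2.1, (H.tip i).2.2.2]; simp
  | succ n hn ih =>
    intro h2
    have h3 := ih (by omega)
    have h4 : ∀ j, ¬ L ∣ s i + n - s j := by
      intro j hj
      have h5 := H.perS _ _ hj
      rw [h3.1, (H.tip j).1] at h5
      have h6 : j = i + 1 := by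
        revert h5
        clear * -
        fin_cases i <;> fin_cases j <;> decide
      subst h6
      have h7 := H.dvd i
      have h8 : L ∣ gap L s i - n := by
        have := dvd_sub h7 hj
        have e : s i + gap L s i - s (i + 1) - (s i + n - s (i + 1)) = gap L s i - n := by ring
        rwa [e] at this
      have h9 := Int.le_of_dvd (by omega) h8
      have h10 := H.gap_lt i
      omega
    have h5 := H.step _ h4
    rw [← add_assoc, h5.1, h5.2, h3.1, h3.2]
    refine ⟨rfl, ?_⟩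
    push_cast
    ring

theorem Cyc.gap_odd (i : Fin 3) : gap L s i % 2 = 1 := by
  have h1 := (H.arc i (H.gap_pos i) le_rfl).2
  rw [H.perK _ _ (H.dvd i), (H.tip (i + 1)).2.2.1] at h1
  by_contra h
  have h2 : ((gap L s i : ℤ) : ZMod 2) = (0 : ℤ) := par_cast (by omega)
  rw [h2] at h1
  revert h1
  simp

theorem Cyc.sum_gap : gap L s 0 + gap L s 1 + gap L s 2 = L := by
  have h0 := H.dvd 0
  have h1 := H.dvd 1
  have h2 := H.dvd 2
  have e1 : (0 : Fin 3) + 1 = 1 := rfl
  have e2 : (1 : Fin 3) + 1 = 2 := rfl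
  have e3 : (2 : Fin 3) + 1 = 0 := rfl
  rw [e1] at h0
  rw [e2] at h1
  rw [e3] at h2
  have h3 : L ∣ gap L s 0 + gap L s 1 + gap L s 2 := by
    have := dvd_add (dvd_add h0 h1) h2
    have e : s 0 + gap L s 0 - s 1 + (s 1 + gap L s 1 - s 2) + (s 2 + gap L s 2 - s 0) =
      gap L s 0 + gap L s 1 + gap L s 2 := by ring
    rwa [e] at this
  have p0 := H.gap_pos 0
  have p1 := H.gap_pos 1
  have p2 := H.gap_pos 2
  have l0 := H.gap_lt 0
  have l1 := H.gap_lt 1
  have l2 := H.gap_lt 2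
  have o0 := H.gap_odd 0
  have o1 := H.gap_odd 1
  have o2 := H.gap_odd 2
  have oL := H.odd
  obtain ⟨c, hc⟩ := h3
  have hc1 : c = 1 := by
    have hL := H.pos
    have c1 : 0 < c := by
      by_contra h
      have : L * c ≤ 0 := mul_nonpos_of_nonneg_of_nonpos hL.le (by omega)
      omega
    have c2 : c < 3 := by
      by_contra h
      have : L * 3 ≤ L * c := mul_le_mul_of_nonneg_left (by omega) hL.le
      omega
    have c3 : c ≠ 2 := by
      rintro rfl
      omega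
    omega
  rw [hc, hc1, mul_one]

/-- Every position belongs to exactly one arc. -/
theorem Cyc.exists_arc (x : ℤ) : ∃ i n, 1 ≤ n ∧ n ≤ gap L s i ∧ L ∣ x - (s i + n) := by
  -- position relative to `s 0`
  have hsum := H.sum_gap
  set y := (x - s 0 - 1) % L with hy
  have hy0 : 0 ≤ y := Int.emod_nonneg _ H.pos.ne'
  have hy1 : y < L := Int.emod_lt_of_pos _ H.pos
  have hd : L ∣ x - (s 0 + (y + 1)) := by
    have := Int.emod_add_mul_ediv (x - s 0 - 1) L
    exact ⟨(x - s 0 - 1) / L, by rw [hy]; linarith⟩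
  by_cases h0 : y + 1 ≤ gap L s 0
  · exact ⟨0, y + 1, by omega, h0, hd⟩
  have d0 := H.dvd 0
  have d1 := H.dvd 1
  have e1 : (0 : Fin 3) + 1 = 1 := rfl
  have e2 : (1 : Fin 3) + 1 = 2 := rfl
  rw [e1] at d0
  rw [e2] at d1
  by_cases h1 : y + 1 - gap L s 0 ≤ gap L s 1
  · refine ⟨1, y + 1 - gap L s 0, by omega, h1, ?_⟩
    have := dvd_add hd d0
    have e : x - (s 0 + (y + 1)) + (s 0 + gap L s 0 - s 1) = x - (s 1 + (y + 1 - gap L s 0)) := by
      ring
    rwa [e] at this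
  · refine ⟨2, y + 1 - gap L s 0 - gap L s 1, by omega, by omega, ?_⟩
    have := dvd_add (dvd_add hd d0) d1
    have e : x - (s 0 + (y + 1)) + (s 0 + gap L s 0 - s 1) + (s 1 + gap L s 1 - s 2) =
      x - (s 2 + (y + 1 - gap L s 0 - gap L s 1)) := by ring
    rwa [e] at this

/-- The vertices of the sector `i`. -/
theorem Cyc.mem_arc {x : ℤ} {i : Fin 3} (hx : S x = i) :
    ∃ n, 1 ≤ n ∧ n ≤ gap L s i ∧ L ∣ x - (s i + n) := by
  obtain ⟨j, n, h1, h2, h3⟩ := H.exists_arc x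
  have h4 := H.perS _ _ h3
  rw [hx, (H.arc j h1 h2).1] at h4
  subst h4
  exact ⟨n, h1, h2, h3⟩

end Cyc

variable {d w r : ℤ} {ω : Cfg} {t s : Fin 3 → ℤ} {sec : ℤ × ℤ → Fin 3} {kap : ℤ × ℤ → ZMod 2}

/-- The boundary cycle with all integers as positions. -/
def bdc (r x : ℤ) : ℤ × ℤ := bd r (x % (8 * r + 3))

theorem bdc_eq {x : ℤ} (h0 : 0 ≤ x) (h1 : x < 8 * r + 3) : bdc r x = bd r x := by
  unfold bdc
  rw [Int.emod_eq_of_lt h0 h1]

theorem bdc_succ (hr : 0 ≤ r) {x : ℤ} (h0 : 0 ≤ x) (h1 : x < 8 * r + 3) :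
    bdc r (x + 1) = bd r (x + 1) := by
  rcases eq_or_lt_of_le (show x + 1 ≤ 8 * r + 3 by omega) with h | h
  · rw [h, bd_last hr]
    unfold bdc
    rw [Int.emod_self]
  · exact bdc_eq (by omega) h

theorem bdc_per {x y : ℤ} (h : 8 * r + 3 ∣ x - y) : bdc r x = bdc r y := by
  unfold bdc
  rw [Int.emod_eq_emod_iff_emod_sub_eq_zero.2 (Int.emod_eq_zero_of_dvd h)]

/-- From the data at the boundary positions to a cycle. -/
theorem cyc_of (hr : 0 ≤ r) (hs : ∀ i, 0 ≤ s i ∧ s i < 8 * r + 3)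
    (hstep : ∀ x, 0 ≤ x → x < 8 * r + 3 → (∀ j, x ≠ s j) →
      sec (bd r x) = sec (bd r (x + 1)) ∧ kap (bd r x) ≠ kap (bd r (x + 1)))
    (htip : ∀ j, sec (bd r (s j)) = j + 2 ∧ sec (bd r (s j + 1)) = j ∧ kap (bd r (s j)) = 0 ∧
      kap (bd r (s j + 1)) = 0) :
    Cyc (8 * r + 3) s (fun x => sec (bdc r x)) (fun x => kap (bdc r x)) := by
  have hpos : 0 < 8 * r + 3 := by omega
  refine ⟨hpos, by omega, fun x y h => by simp only [bdc_per h], fun x y h => by
    simp only [bdc_per h], ?_, ?_⟩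
  · intro x hx
    have h0 := Int.emod_nonneg x hpos.ne'
    have h1 := Int.emod_lt_of_pos x hpos
    have e1 : bdc r x = bd r (x % (8 * r + 3)) := rfl
    have e2 : bdc r (x + 1) = bd r (x % (8 * r + 3) + 1) := by
      rw [← bdc_succ hr h0 h1]
      refine bdc_per ?_
      have := Int.emod_add_mul_ediv x (8 * r + 3)
      exact ⟨x / (8 * r + 3), by linarith⟩
    have h2 := hstep _ h0 h1 fun j hj => hx j (by
      have := Int.emod_add_mul_ediv x (8 * r + 3)
      exact ⟨x / (8 * r + 3), by rw [← hj]; linarith⟩)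
    simp only [e1, e2]
    refine ⟨h2.1.symm, ?_⟩
    have h3 := h2.2
    generalize kap (bd r (x % (8 * r + 3))) = a at h3 ⊢
    generalize kap (bd r (x % (8 * r + 3) + 1)) = b at h3 ⊢
    revert a b
    decide
  · intro j
    simp only [bdc_eq (hs j).1 (hs j).2, bdc_succ hr (hs j).1 (hs j).2]
    exact htip j

/-- The arcs of the sectors on the inner boundary, for strands which come from outside. -/
theorem cyc_in (hd : 0 ≤ d) (hdw : d < w) (ht : ∀ i, 0 ≤ t i ∧ t i < 8 * w + 3)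
    (H : IsSec TQ ω (An d w) (fun i => ine w (t i)) (fun i => i + 2) (fun i => i) sec kap)
    (hs : ∀ i, 0 ≤ s i ∧ s i < 8 * d + 3)
    (hO : ∀ i, ine d (s i) ∈ Orb TQ ω (An d w) (ine w (t i))) :
    Cyc (8 * d + 3) s (fun x => sec (bdc d x)) (fun x => kap (bdc d x)) := by
  refine cyc_of hd hs ?_ ?_
  · intro x h0 h1 hx
    obtain ⟨f, hf, hf', k, hk⟩ := ine_opp hd h0 h1
    have hfA : f ∈ An d w := ⟨BW_mono (by omega) hf, hf'⟩
    have hk' := Prod.mk.inj hk
    change (bd d (x + 1)) = _ ∧ (bd d x) = _ at hk'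
    have hm : (TQ.c f k, TQ.c f (k + 1)) ∉ MU TQ ω (An d w) fun i => ine w (t i) := by
      rw [← hk]
      rintro ⟨i, h | h⟩
      · -- the outgoing edge is initial
        have h2 := eq_of_ini h (ini_inner hd hdw h0 h1)
        exact bd_ne hd hdw (by omega) (by omega) (ht i).1 (ht i).2.le
          (Prod.mk.inj h2).1
      · rw [Prod.swap_swap] at h
        have h2 : Ter TQ (An d w) (ine d x) := by
          have := (ini_inner hd hdw h0 h1).ter_swap
          rwa [Prod.swap_swap] at this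
        have h3 : Ter TQ (An d w) (ine d (s i)) := by
          have := (ini_inner hd hdw (hs i).1 (hs i).2).ter_swap
          rwa [Prod.swap_swap] at this
        exact hx i (ine_inj hd h0 h1 (hs i).1 (hs i).2 (ter_unique h (hO i) h2 h3))
    rw [hk'.1, hk'.2]
    exact ⟨(H.sec_eq f hfA k hm).symm, (H.kap_ne f hfA k hm).symm⟩
  · intro j
    have h1 := H.left j _ (hO j)
    have h2 := H.right j _ (hO j)
    exact ⟨h1.1, h2.1, h1.2, h2.2⟩

/-- The arcs of the sectors on the outer boundary, for strands which come from inside. -/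
theorem cyc_out (hd : 0 ≤ d) (hdw : d < w) (ht : ∀ i, 0 ≤ t i ∧ t i < 8 * d + 3)
    (H : IsSec TQ ω (An d w) (fun i => (ine d (t i)).swap) (fun i => i) (fun i => i + 2) sec kap)
    (hs : ∀ i, 0 ≤ s i ∧ s i < 8 * w + 3)
    (hO : ∀ i, (ine w (s i)).swap ∈ Orb TQ ω (An d w) (ine d (t i)).swap) :
    Cyc (8 * w + 3) s (fun x => sec (bdc w x)) (fun x => kap (bdc w x)) := by
  have hw : 0 ≤ w := by omega
  refine cyc_of hw hs ?_ ?_
  · intro x h0 h1 hx
    obtain ⟨f, hf, hf', k, hk⟩ := ine_face (r := w) (by omega) h0 h1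
    have hfA : f ∈ An d w := ⟨hf, fun h3 => hf' (BW_mono (by omega) h3)⟩
    have hk' := Prod.mk.inj hk
    change (bd w x) = _ ∧ (bd w (x + 1)) = _ at hk'
    have hm : (TQ.c f k, TQ.c f (k + 1)) ∉ MU TQ ω (An d w) fun i => (ine d (t i)).swap := by
      rw [← hk]
      rintro ⟨i, h | h⟩
      · have h2 := eq_of_ini h (ini_outer hd hdw h0 h1)
        have h3 := (Prod.mk.inj h2).1
        exact bd_ne hd hdw (s := t i + 1) (by have := (ht i).1; omega)
          (by have := (ht i).2; omega) h0 h1.le h3.symm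
      · have h2 : Ter TQ (An d w) (ine w x).swap := (ini_outer hd hdw h0 h1).ter_swap
        have h3 : Ter TQ (An d w) (ine w (s i)).swap :=
          (ini_outer hd hdw (hs i).1 (hs i).2).ter_swap
        exact hx i (ine_inj hw h0 h1 (hs i).1 (hs i).2
          (Prod.swap_injective (ter_unique h (hO i) h2 h3)))
    rw [hk'.1, hk'.2]
    exact ⟨H.sec_eq f hfA k hm, H.kap_ne f hfA k hm⟩
  · intro j
    have h1 := H.left j _ (hO j)
    have h2 := H.right j _ (hO j)
    exact ⟨h2.1, h1.1, h2.2, h1.2⟩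

end Pool.Agent.Perc.Q

end Partperc3TwArc
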