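import Pool.Agent.Lib.MP_6bd702_zc.Pre
import Pool.Agent.Lib.MP_6bd702_zc.Y020
import Pool.Agent.Lib.MP_6bd702_zc.Y019
import Pool.Agent.Lib.MP_6bd702_zc.Y016

section Partperc3TwTip

/-!
# Landing at a tip
-/

set_option autoImplicit false

namespace Pool.Agent.Perc.Q

open Finset Pool.Agent.Perc Relation

variable {w c s R t : ℤ} {ω : Cfg} {G : Finset (ℤ × ℤ)} {f g v z : ℤ × ℤ} {k : ZMod 4}

theorem isCor_cor0 (f : ℤ × ℤ) (k : ZMod 4) : IsCor f (cor0 f k) := by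
  rcases k4_cases k with rfl | rfl | rfl | rfl
  · rw [cor0_0]; exact ⟨Or.inl rfl, Or.inl rfl⟩
  · rw [cor0_1]; exact ⟨Or.inr rfl, Or.inl rfl⟩
  · rw [cor0_2]; exact ⟨Or.inr rfl, Or.inr rfl⟩
  · rw [cor0_3]; exact ⟨Or.inl rfl, Or.inr rfl⟩

theorem cor0_opp (f : ℤ × ℤ) (k : ZMod 4) :
    ((cor0 f k).1 + (cor0 f k).2 - ((cor0 f (k + 2)).1 + (cor0 f (k + 2)).2)) % 2 = 0 := by
  rcases k4_cases k with rfl | rfl | rfl | rfl
  · rw [k02, cor0_0, cor0_2]; simp only; omega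
  · rw [k12, cor0_1, cor0_3]; simp only; omega
  · rw [k22, cor0_2, cor0_0]; simp only; omega
  · rw [k32, cor0_3, cor0_1]; simp only; omega

/-- The corners of a face in a chart. -/
theorem corner_chF {F : Set (ℤ × ℤ)} (hF : ChOk emP s F) (hf : f ∈ F) (k : ZMod 4) :
    TQ.c (chF s f) k = chF s (cor0 f k) := by
  change corT emP (chF s f) k = _
  have hc := isCor_cor0 f k
  rcases lt_or_ge f.2 0 with h | h
  · rw [chF_low h, corT_low (f := (f.1 + s, f.2)) h, chF_cor hF hf h hc]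
    congr 1
    rcases k4_cases k with rfl | rfl | rfl | rfl
    · rfl
    · rw [cor0_1, cor0_1]; simp only [Prod.mk.injEq, and_true]; omega
    · rw [cor0_2, cor0_2]; simp only [Prod.mk.injEq, and_true]; omega
    · rfl
  · rw [chF_up h, corT_up h]
    unfold IsCor at hc
    rw [chF_up (by omega)]

theorem chOk_sqF (hw : 2 ≤ w) (hg : CellOk g) : ChOk emP (chS g) (sqF w g : Set (ℤ × ℤ)) := by
  refine chOk_emP fun f hf h1 => ?_
  have h2 := mem_RFi.1 (Finset.mem_coe.1 hf)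
  unfold CellOk at hg
  have hneg : g.2 = -1 := eq_of_mem_cell (x := f.2) (w := w) (by omega) h2.2.2.1 h2.2.2.2 (by omega)
    (by omega)
  rcases chS_cases g with ⟨b1, b2⟩ | ⟨b1, b2⟩
  · have hb : g.1 < -1 := by omega
    have c1 := mul_lt_of_lt (w := w) (by omega) hb
    right
    omega
  · have c1 : 0 ≤ g.1 * w := mul_nonneg b1 (by omega)
    left
    omega

/-- The corners of the faces of a cell. -/
theorem corner_cell (hw : 2 ≤ w) (hg : CellOk g) (hf : f ∈ cellF w g) (k : ZMod 4) :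
    InCell w g (TQ.c f k) ∧
      (parV (chS g) (TQ.c f k) - parV (chS g) (TQ.c f (k + 2))) % 2 = 0 := by
  unfold cellF at hf
  obtain ⟨a, ha, rfl⟩ := mem_image.1 hf
  rw [corner_chF (chOk_sqF hw hg) ha, corner_chF (chOk_sqF hw hg) ha, parV_chF, parV_chF]
  refine ⟨?_, cor0_opp a k⟩
  have h1 := mem_RFi.1 ha
  have h2 := isCor_cor0 a k
  unfold IsCor at h2
  exact inCell_chF (by omega) (by omega) (by omega) (by omega)

/-- Every vertex of a closed cell is a corner of a face of the cell. -/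
theorem exists_face_cell (hw : 2 ≤ w) (hg : CellOk g) (hv : InCell w g v) :
    ∃ f ∈ cellF w g, ∃ k, TQ.c f k = v := by
  -- the chart coordinates
  obtain ⟨u, rfl, h1, h2, h3, h4⟩ : ∃ u, chF (chS g) u = v ∧ g.1 * w ≤ u.1 ∧ u.1 ≤ g.1 * w + w ∧
      g.2 * w ≤ u.2 ∧ u.2 ≤ g.2 * w + w := by
    unfold InCell at hv
    rcases hv with ⟨h1, h2, ⟨h3, h4, h5⟩ | ⟨h3, h4, h5⟩⟩
    · exact ⟨v, chF_up h3, h4, h5, h1, h2⟩
    · refine ⟨(v.1 - chS g, v.2), ?_, ?_, ?_, h1, h2⟩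
      · rw [chF_low (f := (v.1 - chS g, v.2)) h3]
        simp
      · simp only; omega
      · simp only; omega
  have key : ∀ a : ℤ × ℤ, a ∈ sqF w g → ∀ k, cor0 a k = u →
      ∃ f ∈ cellF w g, ∃ k, TQ.c f k = chF (chS g) u := by
    intro a ha k hk
    refine ⟨chF (chS g) a, chF_mem_cellF ha, k, ?_⟩
    rw [corner_chF (chOk_sqF hw hg) ha, hk]
  obtain ⟨x, y⟩ := u
  simp only at h1 h2 h3 h4
  rcases eq_or_lt_of_le h2 with e1 | e1 <;> rcases eq_or_lt_of_le h4 with e2 | e2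
  · refine key (x - 1, y - 1) (mem_RFi.2 ?_) 2 ?_
    · simp only; omega
    · rw [cor0_2]; simp
  · refine key (x - 1, y) (mem_RFi.2 ?_) 1 ?_
    · simp only; omega
    · rw [cor0_1]; simp
  · refine key (x, y - 1) (mem_RFi.2 ?_) 3 ?_
    · simp only; omega
    · rw [cor0_3]; simp
  · refine key (x, y) (mem_RFi.2 ?_) 0 ?_
    · simp only; omega
    · rw [cor0_0]

/-- The vertex `v` lies on the common boundary of the faces of `Y` and the other faces. -/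
def OnB (Y : Set (ℤ × ℤ)) (v : ℤ × ℤ) : Prop :=
  (∃ f ∈ Y, ∃ k, TQ.c f k = v) ∧ ∃ f, f ∉ Y ∧ ∃ k, TQ.c f k = v

/-- Landing, abstract form: `AC` are the cells after the tip, `BC` the cells before the tip, `MC`
the cells between them in the explored domain `Y`; `S` are the visited faces. -/
theorem land_cells (hw : 2 ≤ w) (hG : ∀ g ∈ G, CellOk g) (hω : ω ∈ Tub w c G)
    {AC BC MC : Set (ℤ × ℤ)} {Y S T : Set (ℤ × ℤ)} {g₀ g₁ : ℤ × ℤ}
    (hs : ∀ g, g ∈ AC ∨ g ∈ BC → chS g = s)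
    (hAG : ∀ g ∈ AC, g ∈ G) (hBG : ∀ g ∈ BC, g ∈ G) (hMG : ∀ g ∈ MC, g ∈ G)
    (hMY : ∀ g ∈ MC, ∀ f ∈ cellF w g, f ∈ Y)
    (hAB : ∀ g ∈ AC, ∀ g' ∈ BC, ∀ v, InCell w g v → ¬ InCell w g' v)
    (hg₀ : g₀ ∈ BC) (hg₀' : ∀ f ∈ cellF w g₀, f ∉ Y)
    (hg₁ : g₁ ∈ AC) (hg₁' : ∀ f ∈ cellF w g₁, f ∉ Y)
    (hpath : ReflTransGen (fun a b => a ∈ G ∧ b ∈ G ∧ (a ∈ AC ∨ a ∈ BC ∨ a ∈ MC) ∧
      (b ∈ AC ∨ b ∈ BC ∨ b ∈ MC) ∧ CAdj a b) g₀ g₁)
    (hSY : S ⊆ Y)
    (H1 : ∀ g ∈ AC, ∀ v, InCell w g v → OnB Y v → (v ∈ T ↔ (parV s v - c) % 2 = 0))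
    (H2 : ∀ g ∈ BC, ∀ v, InCell w g v → OnB Y v → v ∉ T)
    (H3 : ∀ a ∈ G, (a ∈ AC ∨ a ∈ BC ∨ a ∈ MC) → ∀ f ∈ cellF w a, f ∈ Y → f ∉ S →
      ∀ k, TQ.c f k ∈ T ↔ TQ.c f (k + 2) ∈ T) :
    ∃ z ∈ T, (∃ f ∈ S, ∃ k, TQ.c f k = z) ∧
      ConnW emP ω ({f | ∃ a ∈ G, (a ∈ AC ∨ a ∈ BC ∨ a ∈ MC) ∧ f ∈ cellF w a} \ S) z
        (rep w c ω g₁) := by
  classical
  set VY : ℤ × ℤ → Prop := fun v => ∃ f ∈ Y, ∃ k, TQ.c f k = v with hVY
  set T' : Set (ℤ × ℤ) := {v | (VY v ∧ v ∈ T) ∨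
    (¬ VY v ∧ (∃ g ∈ AC, InCell w g v) ∧ (parV s v - c) % 2 = 0)} with hT'
  have hA : ∀ g ∈ AC, ∀ v, InCell w g v → (∃ f, f ∉ Y ∧ ∃ k, TQ.c f k = v) →
      (v ∈ T' ↔ (parV s v - c) % 2 = 0) := by
    intro g hg v hv hout
    by_cases h : VY v
    · have h1 := H1 g hg v hv ⟨h, hout⟩
      rw [hT', Set.mem_ofPred_eq, ← h1]
      exact ⟨fun hh => hh.elim (fun h' => h'.2) (fun h' => absurd h h'.1), fun hh => Or.inl ⟨h, hh⟩⟩
    · rw [hT', Set.mem_ofPred_eq]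
      exact ⟨fun hh => hh.elim (fun h' => absurd h'.1 h) (fun h' => h'.2.2),
        fun hh => Or.inr ⟨h, ⟨g, hg, hv⟩, hh⟩⟩
  have hB : ∀ g ∈ BC, ∀ v, InCell w g v → (∃ f, f ∉ Y ∧ ∃ k, TQ.c f k = v) → v ∉ T' := by
    intro g hg v hv hout h
    rcases h with ⟨h1, h2⟩ | ⟨-, ⟨g', hg', h1⟩, -⟩
    · exact H2 g hg v hv ⟨h1, hout⟩ h2
    · exact hAB g' hg' g hg v h1 hv
  have hmem : ∀ a, (a ∈ AC ∨ a ∈ BC ∨ a ∈ MC) → a ∈ G := by
    rintro a (h | h | h)
    · exact hAG a h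
    · exact hBG a h
    · exact hMG a h
  have hconn := tub_link hw hG hω (P := fun a => a ∈ AC ∨ a ∈ BC ∨ a ∈ MC) hpath
  have hconn' := (connQ_iff emP_mono).2 hconn
  have h0G := hBG g₀ hg₀
  have h1G := hAG g₁ hg₁
  have hr0 := rep_inCell (by omega) hω h0G
  have hr1 := rep_inCell (by omega) hω h1G
  have k1 : ∀ f ∈ {f | ∃ a ∈ G, (a ∈ AC ∨ a ∈ BC ∨ a ∈ MC) ∧ f ∈ cellF w a}, f ∉ S → ∀ k,
      (TQ.c f k ∈ T' ↔ TQ.c f (k + 2) ∈ T') := by
    rintro f ⟨a, ha, haP, hfa⟩ hfS k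
    by_cases hfY : f ∈ Y
    · have v1 : VY (TQ.c f k) := ⟨f, hfY, k, rfl⟩
      have v2 : VY (TQ.c f (k + 2)) := ⟨f, hfY, k + 2, rfl⟩
      have h3 := H3 a ha haP f hfa hfY hfS k
      rw [hT', Set.mem_ofPred_eq, Set.mem_ofPred_eq]
      exact ⟨fun hh => hh.elim (fun h' => Or.inl ⟨v2, h3.1 h'.2⟩) (fun h' => absurd v1 h'.1),
        fun hh => hh.elim (fun h' => Or.inl ⟨v1, h3.2 h'.2⟩) (fun h' => absurd v2 h'.1)⟩
    · have hc1 := corner_cell hw (hG a ha) hfa k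
      have hc2 := corner_cell hw (hG a ha) hfa (k + 2)
      rcases haP with h | h | h
      · rw [hA a h _ hc1.1 ⟨f, hfY, k, rfl⟩, hA a h _ hc2.1 ⟨f, hfY, k + 2, rfl⟩]
        have := hc1.2
        rw [hs a (Or.inl h)] at this
        omega
      · have b1 := hB a h _ hc1.1 ⟨f, hfY, k, rfl⟩
        have b2 := hB a h _ hc2.1 ⟨f, hfY, k + 2, rfl⟩
        exact ⟨fun h' => absurd h' b1, fun h' => absurd h' b2⟩
      · exact absurd (hMY a h f hfa) hfY
  have k2 : ∀ f ∈ S, ∀ k, TQ.c f k ∈ T' →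
      (fun z => z ∈ T ∧ ∃ f ∈ S, ∃ k, TQ.c f k = z) (TQ.c f k) := by
    intro f hf k hk
    refine ⟨?_, f, hf, k, rfl⟩
    rcases hk with h | h
    · exact h.2
    · exact absurd ⟨f, hSY hf, k, rfl⟩ h.1
  have k3 : rep w c ω g₀ ∉ T' := by
    obtain ⟨f, hf, k, hk⟩ := exists_face_cell hw (hG g₀ h0G) hr0
    exact hB g₀ hg₀ _ hr0 ⟨f, hg₀' f hf, k, hk⟩
  have k4 : rep w c ω g₁ ∈ T' := by
    obtain ⟨f, hf, k, hk⟩ := exists_face_cell hw (hG g₁ h1G) hr1
    rw [hA g₁ hg₁ _ hr1 ⟨f, hg₁' f hf, k, hk⟩]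
    have := rep_parV hω h1G
    rwa [hs g₁ (Or.inl hg₁)] at this
  obtain ⟨z, ⟨hz1, f, hfS, k, hk⟩, -, hz3⟩ :=
    land (C := fun z => z ∈ T ∧ ∃ f ∈ S, ∃ k, TQ.c f k = z) k1 k2 k3 k4 hconn'
  exact ⟨z, hz1, ⟨f, hfS, k, hk⟩, (connQ_iff emP_mono).1 hz3⟩

end Pool.Agent.Perc.Q

end Partperc3TwTip

section Partperc3StrandRect

/-!
# Several strands which cross a rectangle

Strands which enter a simply connected set of faces through consecutive sides of its boundary and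
which do not leave it through these sides: the faces of the left marks of two such strands are
disjoint, and the faces of the right marks as well.
-/

set_option autoImplicit false

namespace Pool.Agent.Perc.Q

open Finset Pool.Agent.Perc Relation

section Abstract

variable {V Φ : Type} {Q : QC V Φ} {ω : Φ → Bool} {F : Set Φ} {e a b : V × V} {f : Φ}
  {k : ZMod 4} {u v p q : V}

/-- The faces in which the left mark of the strand moves. -/
def LV (Q : QC V Φ) (ω : Φ → Bool) (F : Set Φ) (e : V × V) : Set Φ :=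
  {f | f ∈ F ∧ ∃ k, (Q.c f k, Q.c f (k + 1)) ∈ Orb Q ω F e ∧ ω f = ev k}

/-- The faces in which the right mark of the strand moves. -/
def RV (Q : QC V Φ) (ω : Φ → Bool) (F : Set Φ) (e : V × V) : Set Φ :=
  {f | f ∈ F ∧ ∃ k, (Q.c f k, Q.c f (k + 1)) ∈ Orb Q ω F e ∧ ω f = !ev k}

theorem LV_sub : LV Q ω F e ⊆ F := fun _ h => h.1

theorem RV_sub : RV Q ω F e ⊆ F := fun _ h => h.1

theorem left_path (ha : a ∈ Orb Q ω F e) : ConnQ Q ω (LV Q ω F e) e.1 a.1 := by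
  induction ha with
  | refl => exact ReflTransGen.refl
  | tail hab hs ih =>
    rename_i b b'
    obtain ⟨f, hf, k, rfl, ⟨h, rfl⟩ | ⟨h, rfl⟩⟩ := hs
    · exact ih.tail ⟨f, ⟨hf, k, hab, h⟩, k, h, rfl, rfl⟩
    · exact ih

theorem right_path (ha : a ∈ Orb Q ω F e) : ConnQ Q ω (RV Q ω F e) e.2 a.2 := by
  induction ha with
  | refl => exact ReflTransGen.refl
  | tail hab hs ih =>
    rename_i b b'
    obtain ⟨f, hf, k, rfl, ⟨h, rfl⟩ | ⟨h, rfl⟩⟩ := hs
    · exact ih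
    · refine ih.tail ⟨f, ⟨hf, k, hab, h⟩, k + 1, by rw [ev_add_one, h], rfl, ?_⟩
      change Q.c f (k + 3) = Q.c f (k + 1 + 2)
      rw [z2]

/-- Every even cochain on the faces of `F` has a potential. -/
def SC (Q : QC V Φ) (F : Set Φ) : Prop :=
  ∀ m : V → V → ZMod 2, (∀ p q, m p q = m q p) →
    (∀ f ∈ F, ∑ k, m (Q.c f k) (Q.c f (k + 1)) = 0) →
    ∃ χ : V → ZMod 2, ∀ f ∈ F, ∀ k, χ (Q.c f k) + χ (Q.c f (k + 1)) = m (Q.c f k) (Q.c f (k + 1))

open Classical in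
/-- The cochain of a strand. -/
noncomputable def cochain (Q : QC V Φ) (ω : Φ → Bool) (F : Set Φ) (e : V × V) (p q : V) : ZMod 2 :=
  if (p, q) ∈ Un Q ω F e then 1 else 0

theorem cochain_symm (p q : V) : cochain Q ω F e p q = cochain Q ω F e q p := by
  unfold cochain
  have : (p, q) ∈ Un Q ω F e ↔ (q, p) ∈ Un Q ω F e := by
    rw [← Un_swap]
    rfl
  by_cases h : (p, q) ∈ Un Q ω F e
  · rw [if_pos h, if_pos (this.1 h)]
  · rw [if_neg h, if_neg (fun h' => h (this.2 h'))]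

/-- The cochain agrees on the two sides at the corner `k + 1` of a face with a bond from `k` to
`k + 2`. -/
theorem cochain_eq (he : Ini Q F e) (hf : f ∈ F) (h : ω f = ev k) :
    cochain Q ω F e (Q.c f k) (Q.c f (k + 1)) =
      cochain Q ω F e (Q.c f (k + 1)) (Q.c f (k + 2)) := by
  unfold cochain
  have := un_iff he hf h
  by_cases h1 : (Q.c f k, Q.c f (k + 1)) ∈ Un Q ω F e
  · rw [if_pos h1, if_pos (this.1 h1)]
  · rw [if_neg h1, if_neg (fun h' => h1 (this.2 h'))]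

theorem sum_four (g : ZMod 4 → ZMod 2) (k : ZMod 4) :
    ∑ i, g i = g k + g (k + 1) + (g (k + 2) + g (k + 3)) := by
  have h1 : ∑ i, g i = ∑ i, g (k + i) := (Equiv.sum_comp (Equiv.addLeft k) g).symm
  rw [h1]
  have h2 : (univ : Finset (ZMod 4)) = {0, 1, 2, 3} := by decide
  rw [h2, sum_insert (by decide), sum_insert (by decide), sum_insert (by decide), sum_singleton,
    add_zero]
  ring

theorem cochain_even (he : Ini Q F e) (hf : f ∈ F) :
    ∑ k, cochain Q ω F e (Q.c f k) (Q.c f (k + 1)) = 0 := by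
  obtain ⟨k, hk⟩ : ∃ k, ω f = ev k := by
    cases h : ω f
    · exact ⟨1, rfl⟩
    · exact ⟨0, rfl⟩
  rw [sum_four _ k, z1, z7, z5]
  have h1 := cochain_eq he hf hk
  have h2 := cochain_eq (ω := ω) (k := k + 2) he hf (by rw [ev_add_two, hk])
  rw [z7, z4] at h2
  rw [h1, h2, CharTwo.add_self_eq_zero, CharTwo.add_self_eq_zero, add_zero]

/-- The potential of a strand is constant on the clusters. -/
theorem pot_conn {χ : V → ZMod 2} (he : Ini Q F e)
    (hχ : ∀ f ∈ F, ∀ k, χ (Q.c f k) + χ (Q.c f (k + 1)) =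
      cochain Q ω F e (Q.c f k) (Q.c f (k + 1))) (h : ConnQ Q ω F u v) : χ u = χ v := by
  induction h with
  | refl => rfl
  | tail _ hb ih =>
    obtain ⟨f, hf, k, hk, rfl, rfl⟩ := hb
    rw [ih]
    have h1 := hχ f hf k
    have h2 := hχ f hf (k + 1)
    rw [z1, ← cochain_eq he hf hk, ← h1, add_comm (χ (Q.c f k))] at h2
    exact (add_left_cancel h2).symm

/-- A strand which enters through one of the consecutive sides `(s l, s (l + 1))`, `a ≤ l < b`, and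
does not leave through one of them separates the clusters of the sides before it from the clusters
of the sides after it. -/
theorem not_conn_side (hSC : SC Q F) {s : ℤ → V} {a b : ℤ}
    (hside : ∀ l, a ≤ l → l < b → ∃ f ∈ F, ∃ k, (s l, s (l + 1)) = (Q.c f k, Q.c f (k + 1)))
    (hini : ∀ l, a ≤ l → l < b → Ini Q F (s l, s (l + 1)))
    (hinj : ∀ l l', a ≤ l → l < b → a ≤ l' → l' < b → (s l, s (l + 1)) = (s l', s (l' + 1)) →
      l = l') {j : ℤ} (hj : a ≤ j ∧ j < b)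
    (hout : ∀ l, a ≤ l → l < b → (s (l + 1), s l) ∉ Orb Q ω F (s j, s (j + 1)))
    {l l' : ℤ} (h1 : a ≤ l) (h2 : l ≤ j) (h3 : j < l') (h4 : l' ≤ b) :
    ¬ ConnQ Q ω F (s l) (s l') := by
  set e := (s j, s (j + 1)) with he
  have hIe : Ini Q F e := hini j hj.1 hj.2
  obtain ⟨χ, hχ⟩ := hSC (cochain Q ω F e) cochain_symm fun f hf => cochain_even hIe hf
  have hstep : ∀ i, a ≤ i → i < b → χ (s i) + χ (s (i + 1)) = if i = j then 1 else 0 := by
    intro i hi hi'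
    obtain ⟨f, hf, k, hk⟩ := hside i hi hi'
    have h5 := hχ f hf k
    have hk1 := (Prod.mk.inj hk).1
    have hk2 := (Prod.mk.inj hk).2
    rw [← hk1, ← hk2] at h5
    rw [h5]
    unfold cochain
    by_cases hij : i = j
    · subst hij
      rw [if_pos rfl, if_pos]
      exact Or.inl mem_Orb_self
    · rw [if_neg hij, if_neg]
      rintro (h6 | h6)
      · rcases Orb_pred h6 with h7 | ⟨c, -, f', hf', k', -, h7⟩
        · exact hij (hinj i j hi hi' hj.1 hj.2 h7)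
        · rcases h7 with ⟨-, h7⟩ | ⟨-, h7⟩
          · refine hini i hi hi' f' hf' (k' + 1) ?_
            rw [h7, z1]
          · refine hini i hi hi' f' hf' (k' + 3) ?_
            rw [h7, z5]
      · exact hout i hi hi' h6
  have hbef : ∀ n : ℕ, ∀ i, a ≤ i → i + n = j → χ (s i) = χ (s j) := by
    intro n
    induction n with
    | zero => intro i _ hi; rw [show i = j by omega]
    | succ n ih =>
      intro i hi hij
      have h5 := hstep i hi (by push_cast at hij; omega)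
      rw [if_neg (by push_cast at hij; omega), ih (i + 1) (by omega) (by push_cast at hij; omega)]
        at h5
      exact CharTwo.add_eq_zero.1 h5
  have haft : ∀ n : ℕ, ∀ i, i ≤ b → j + 1 + n = i → χ (s i) = χ (s (j + 1)) := by
    intro n
    induction n with
    | zero => intro i _ hi; rw [show i = j + 1 by omega]
    | succ n ih =>
      intro i hi hij
      have h5 := hstep (i - 1) (by push_cast at hij; omega) (by omega)
      rw [if_neg (by push_cast at hij; omega), sub_add_cancel,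
        ih (i - 1) (by omega) (by push_cast at hij; omega)] at h5
      exact (CharTwo.add_eq_zero.1 h5).symm
  intro hc
  have h5 := pot_conn hIe hχ hc
  rw [hbef (j - l).toNat l h1 (by omega), haft (l' - (j + 1)).toNat l' h4 (by omega)] at h5
  have h6 := hstep j hj.1 hj.2
  rw [if_pos rfl, h5, CharTwo.add_self_eq_zero] at h6
  exact absurd h6 (by decide)

/-- Two strands which enter through consecutive sides and do not leave through these sides. -/
theorem side_disj (hSC : SC Q F) {s : ℤ → V} {a b : ℤ}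
    (hside : ∀ l, a ≤ l → l < b → ∃ f ∈ F, ∃ k, (s l, s (l + 1)) = (Q.c f k, Q.c f (k + 1)))
    (hini : ∀ l, a ≤ l → l < b → Ini Q F (s l, s (l + 1)))
    (hinj : ∀ l l', a ≤ l → l < b → a ≤ l' → l' < b → (s l, s (l + 1)) = (s l', s (l' + 1)) →
      l = l') {i j : ℤ} (hi : a ≤ i ∧ i < b) (hj : a ≤ j ∧ j < b) (hij : i < j)
    (hout : ∀ l, a ≤ l → l < b → (s (l + 1), s l) ∉ Orb Q ω F (s i, s (i + 1)))
    (hout' : ∀ l, a ≤ l → l < b → (s (l + 1), s l) ∉ Orb Q ω F (s j, s (j + 1))) :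
    Disjoint (LV Q ω F (s i, s (i + 1))) (LV Q ω F (s j, s (j + 1))) ∧
      Disjoint (RV Q ω F (s i, s (i + 1))) (RV Q ω F (s j, s (j + 1))) := by
  have key : ∀ {f : Φ} {k k' : ZMod 4}, f ∈ F → ω f = ev k → ω f = ev k' →
      ConnQ Q ω F (Q.c f k) (Q.c f k') := by
    intro f k k' hf h1 h2
    rw [h1] at h2
    have h3 : k' = k ∨ k' = k + 2 := by
      clear h1
      revert k k'
      decide
    rcases h3 with rfl | rfl
    · exact ReflTransGen.refl
    · exact ReflTransGen.single ⟨f, hf, k, h1, rfl, rfl⟩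
  constructor
  · rw [Set.disjoint_left]
    rintro f ⟨hf, k, h1, h2⟩ ⟨-, k', h3, h4⟩
    have h5 : ConnQ Q ω F (s i) (Q.c f k) := (left_path h1).mono LV_sub
    have h6 : ConnQ Q ω F (s j) (Q.c f k') := (left_path h3).mono LV_sub
    have h7 : ConnQ Q ω F (s i) (s j) := (h5.trans (key hf h2 h4)).trans h6.symm
    exact not_conn_side hSC hside hini hinj hi hout hi.1 le_rfl hij hj.2.le h7
  · rw [Set.disjoint_left]
    rintro f ⟨hf, k, h1, h2⟩ ⟨-, k', h3, h4⟩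
    have h5 : ConnQ Q ω F (s (i + 1)) (Q.c f (k + 1)) := (right_path h1).mono RV_sub
    have h6 : ConnQ Q ω F (s (j + 1)) (Q.c f (k' + 1)) := (right_path h3).mono RV_sub
    have h7 : ConnQ Q ω F (s (i + 1)) (s (j + 1)) :=
      (h5.trans (key hf (by rw [ev_add_one, h2]) (by rw [ev_add_one, h4]))).trans h6.symm
    exact not_conn_side hSC hside hini hinj hj hout' (by omega) (by omega) (by omega)
      (by omega) h7

/-- Half of the strands have disjoint paths of marks of the given colour. -/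
theorem exists_disj (hSC : SC Q F) {s : ℤ → V} {a b : ℤ}
    (hside : ∀ l, a ≤ l → l < b → ∃ f ∈ F, ∃ k, (s l, s (l + 1)) = (Q.c f k, Q.c f (k + 1)))
    (hini : ∀ l, a ≤ l → l < b → Ini Q F (s l, s (l + 1)))
    (hinj : ∀ l l', a ≤ l → l < b → a ≤ l' → l' < b → (s l, s (l + 1)) = (s l', s (l' + 1)) →
      l = l') {T : V × V → Prop} (hT : ∀ t, T t → Ter Q F t)
    (hT' : ∀ l, a ≤ l → l < b → ¬ T (s (l + 1), s l)) {col : V → Prop}
    (hcol : ∀ l, a ≤ l → l < b → col (s l) ∨ col (s (l + 1))) {J : Finset ℤ}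
    (hJ : ∀ j ∈ J, a ≤ j ∧ j < b ∧ ∃ t ∈ Orb Q ω F (s j, s (j + 1)), T t) :
    ∃ J' ⊆ J, J.card ≤ 2 * J'.card ∧ ∃ K : ℤ → Set Φ, (∀ j ∈ J', K j ⊆ F) ∧
      (∀ i ∈ J', ∀ j ∈ J', i ≠ j → Disjoint (K i) (K j)) ∧
      ∀ j ∈ J', ∃ u v, (u = s j ∨ u = s (j + 1)) ∧ col u ∧ (∃ t, T t ∧ (v = t.1 ∨ v = t.2)) ∧
        ConnQ Q ω (K j) u v := by
  classical
  have hout : ∀ j ∈ J, ∀ l, a ≤ l → l < b → (s (l + 1), s l) ∉ Orb Q ω F (s j, s (j + 1)) := by
    intro j hj l hl hl' h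
    obtain ⟨-, -, t, ht, hTt⟩ := hJ j hj
    have h1 : Ter Q F (s (l + 1), s l) := by
      intro f hf k h2
      refine hini l hl hl' f hf k ?_
      exact Prod.ext (Prod.mk.inj h2).2 (Prod.mk.inj h2).1
    have h2 := ter_unique h ht h1 (hT t hTt)
    exact hT' l hl hl' (by rw [h2]; exact hTt)
  set JL := J.filter fun j => col (s j) with hJL
  set JR := J.filter fun j => col (s (j + 1)) with hJR
  have hun : J ⊆ JL ∪ JR := by
    intro j hj
    obtain ⟨h1, h2, -⟩ := hJ j hj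
    rw [hJL, hJR, mem_union, mem_filter, mem_filter]
    rcases hcol j h1 h2 with h | h
    · exact Or.inl ⟨hj, h⟩
    · exact Or.inr ⟨hj, h⟩
  have hcard : J.card ≤ JL.card + JR.card := (card_le_card hun).trans (card_union_le _ _)
  have hd : ∀ i ∈ J, ∀ j ∈ J, i < j →
      Disjoint (LV Q ω F (s i, s (i + 1))) (LV Q ω F (s j, s (j + 1))) ∧
        Disjoint (RV Q ω F (s i, s (i + 1))) (RV Q ω F (s j, s (j + 1))) := by
    intro i hi j hj hij
    obtain ⟨h1, h2, -⟩ := hJ i hi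
    obtain ⟨h3, h4, -⟩ := hJ j hj
    exact side_disj hSC hside hini hinj ⟨h1, h2⟩ ⟨h3, h4⟩ hij (hout i hi) (hout j hj)
  rcases le_total JL.card JR.card with hle | hle
  · refine ⟨JR, filter_subset _ _, by omega, fun j => RV Q ω F (s j, s (j + 1)),
      fun j _ => RV_sub, ?_, ?_⟩
    · intro i hi j hj hij
      have hi' := (mem_filter.1 hi).1
      have hj' := (mem_filter.1 hj).1
      rcases lt_or_gt_of_ne hij with h | h
      · exact (hd i hi' j hj' h).2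
      · exact (hd j hj' i hi' h).2.symm
    · intro j hj
      obtain ⟨hj1, hj2⟩ := mem_filter.1 hj
      obtain ⟨-, -, t, ht, hTt⟩ := hJ j hj1
      exact ⟨s (j + 1), t.2, Or.inr rfl, hj2, ⟨t, hTt, Or.inr rfl⟩, right_path ht⟩
  · refine ⟨JL, filter_subset _ _, by omega, fun j => LV Q ω F (s j, s (j + 1)),
      fun j _ => LV_sub, ?_, ?_⟩
    · intro i hi j hj hij
      have hi' := (mem_filter.1 hi).1
      have hj' := (mem_filter.1 hj).1
      rcases lt_or_gt_of_ne hij with h | h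
      · exact (hd i hi' j hj' h).1
      · exact (hd j hj' i hi' h).1.symm
    · intro j hj
      obtain ⟨hj1, hj2⟩ := mem_filter.1 hj
      obtain ⟨-, -, t, ht, hTt⟩ := hJ j hj1
      exact ⟨s j, t.1, Or.inl rfl, hj2, ⟨t, hTt, Or.inl rfl⟩, left_path ht⟩

/-! ### Maps of complexes -/

variable {V' Φ' : Type} {Q' : QC V' Φ'} {φ : Φ → Φ'} {ψ : V → V'} {ω' : Φ' → Bool}

theorem Nx_map (hc : ∀ f ∈ F, ∀ k, Q'.c (φ f) k = ψ (Q.c f k))
    (h : Nx Q (fun f => ω' (φ f)) F a b) : Nx Q' ω' (φ '' F) (Prod.map ψ ψ a) (Prod.map ψ ψ b) := by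
  obtain ⟨f, hf, k, rfl, h⟩ := h
  refine ⟨φ f, ⟨f, hf, rfl⟩, k, ?_, ?_⟩
  · rw [hc f hf, hc f hf]; rfl
  · rcases h with ⟨h, rfl⟩ | ⟨h, rfl⟩
    · exact Or.inl ⟨h, by rw [hc f hf, hc f hf]; rfl⟩
    · exact Or.inr ⟨h, by rw [hc f hf, hc f hf]; rfl⟩

theorem Orb_map (hc : ∀ f ∈ F, ∀ k, Q'.c (φ f) k = ψ (Q.c f k))
    (h : a ∈ Orb Q (fun f => ω' (φ f)) F e) :
    Prod.map ψ ψ a ∈ Orb Q' ω' (φ '' F) (Prod.map ψ ψ e) := by
  induction h with
  | refl => exact mem_Orb_self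
  | tail _ hs ih => exact Orb_step ih (Nx_map hc hs)

end Abstract

/-! ### The plane -/

theorem corT_id (f : ℤ × ℤ) (k : ZMod 4) : corT id f k = cor0 f k := by
  unfold corT
  split_ifs with h
  · rfl
  · unfold twV
    split_ifs with h1
    · exact Prod.ext rfl h1.symm
    · rfl

theorem cor0_inj {f : ℤ × ℤ} {k : ZMod 4} {f' : ℤ × ℤ} {k' : ZMod 4} (h : cor0 f k = cor0 f' k')
    (h' : cor0 f (k + 1) = cor0 f' (k' + 1)) : f = f' ∧ k = k' :=
  corT_inj (em := id) strictMono_id (by rw [corT_id, corT_id, h]) (by rw [corT_id, corT_id, h'])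

/-- The plane. -/
def ZQ : QC (ℤ × ℤ) (ℤ × ℤ) where
  c := cor0
  inj := cor0_inj

theorem ZQ_c (f : ℤ × ℤ) (k : ZMod 4) : ZQ.c f k = cor0 f k := rfl

variable {ω : Cfg} {F : Set (ℤ × ℤ)} {u v : ℤ × ℤ} {x₀ x₁ y₀ y₁ : ℤ}

theorem bond_of_bondZ (h : BondQ ZQ ω F u v) : Bond ω F u v := by
  obtain ⟨⟨x, y⟩, hf, k, h, rfl, rfl⟩ := h
  refine ⟨x, y, hf, ?_⟩
  rcases k4_cases k with rfl | rfl | rfl | rfl
  · exact Or.inl ⟨h, Or.inl ⟨rfl, rfl⟩⟩
  · exact Or.inr ⟨h, Or.inr ⟨rfl, rfl⟩⟩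
  · exact Or.inl ⟨h, Or.inr ⟨rfl, rfl⟩⟩
  · exact Or.inr ⟨h, Or.inl ⟨rfl, rfl⟩⟩

theorem bondZ_of_bond (h : Bond ω F u v) : BondQ ZQ ω F u v := by
  obtain ⟨x, y, hf, ⟨h, ⟨rfl, rfl⟩ | ⟨rfl, rfl⟩⟩ | ⟨h, ⟨rfl, rfl⟩ | ⟨rfl, rfl⟩⟩⟩ := h
  · exact ⟨(x, y), hf, 0, h, rfl, rfl⟩
  · exact ⟨(x, y), hf, 2, h, rfl, rfl⟩
  · exact ⟨(x, y), hf, 3, h, rfl, rfl⟩
  · exact ⟨(x, y), hf, 1, h, rfl, rfl⟩

theorem connZ_iff : ConnQ ZQ ω F u v ↔ Conn ω F u v :=
  ⟨rtg_mono fun _ _ h => bond_of_bondZ h, rtg_mono fun _ _ h => bondZ_of_bond h⟩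

/-- Rectangles are simply connected. -/
theorem sc_rect : SC ZQ (RF x₀ x₁ y₀ y₁ : Finset (ℤ × ℤ)) := by
  intro m hsym hev
  set A : ℤ → ZMod 2 := fun x => ∑ i ∈ Ico x₀ x, m (i, y₁) (i + 1, y₁) with hA
  set B : ℤ → ℤ → ZMod 2 := fun x y => ∑ j ∈ Ico y y₁, m (x, j) (x, j + 1) with hB
  have hBs : ∀ x y, y < y₁ → B x y = m (x, y) (x, y + 1) + B x (y + 1) := by
    intro x y hy
    rw [hB]
    simp only
    rw [← insert_Ico_add_one_left_eq_Ico hy, sum_insert (by simp)]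
  have hAs : ∀ x, x₀ ≤ x → A (x + 1) = A x + m (x, y₁) (x + 1, y₁) := by
    intro x hx
    rw [hA]
    simp only
    rw [← insert_Ico_right_eq_Ico_add_one hx, sum_insert (by simp), add_comm]
  have hface : ∀ x y, (x, y) ∈ RF x₀ x₁ y₀ y₁ →
      m (x, y) (x + 1, y) + m (x + 1, y) (x + 1, y + 1) + (m (x + 1, y + 1) (x, y + 1) +
        m (x, y + 1) (x, y)) = 0 := by
    intro x y h
    have h1 := hev (x, y) (by exact_mod_cast h)
    rw [sum_four _ 0] at h1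
    exact h1
  have hor : ∀ n : ℕ, ∀ x y, x₀ ≤ x → x < x₁ → y₀ ≤ y → y + n = y₁ →
      A x + B x y + (A (x + 1) + B (x + 1) y) = m (x, y) (x + 1, y) := by
    intro n
    induction n with
    | zero =>
      intro x y hx hx' hy hn
      have hy1 : y = y₁ := by push_cast at hn; omega
      subst hy1
      rw [hB]
      simp only [Ico_self, sum_empty, add_zero]
      rw [hAs x hx, ← add_assoc, CharTwo.add_self_eq_zero, zero_add]
    | succ n ih =>
      intro x y hx hx' hy hn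
      push_cast at hn
      have h1 := ih x (y + 1) hx hx' (by omega) (by omega)
      have h2 := hface x y (by unfold RF; rw [mem_product, mem_Ico, mem_Ico]; simp only; omega)
      rw [hBs x y (by omega), hBs (x + 1) y (by omega)]
      rw [hsym (x + 1, y + 1) (x, y + 1), hsym (x, y + 1) (x, y)] at h2
      have h3 : m (x, y) (x + 1, y) = m (x + 1, y) (x + 1, y + 1) + m (x, y + 1) (x + 1, y + 1) +
          m (x, y) (x, y + 1) := by
        have h4 := CharTwo.add_eq_zero.1 (show m (x, y) (x + 1, y) +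
          (m (x + 1, y) (x + 1, y + 1) + m (x, y + 1) (x + 1, y + 1) + m (x, y) (x, y + 1)) = 0 by
            rw [← h2]; ring)
        exact h4
      rw [h3, ← h1]
      ring
  have hA' : ∀ x y, x₀ ≤ x → x < x₁ → y₀ ≤ y → y ≤ y₁ →
      A x + B x y + (A (x + 1) + B (x + 1) y) = m (x, y) (x + 1, y) := fun x y h1 h2 h3 h4 =>
    hor (y₁ - y).toNat x y h1 h2 h3 (by omega)
  have hve : ∀ x y, y < y₁ → A x + B x y + (A x + B x (y + 1)) = m (x, y) (x, y + 1) := by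
    intro x y hy
    rw [hBs x y hy]
    have : A x + (m (x, y) (x, y + 1) + B x (y + 1)) + (A x + B x (y + 1)) =
        (A x + A x) + (B x (y + 1) + B x (y + 1)) + m (x, y) (x, y + 1) := by ring
    rw [this, CharTwo.add_self_eq_zero, CharTwo.add_self_eq_zero, zero_add, zero_add]
  refine ⟨fun v => A v.1 + B v.1 v.2, ?_⟩
  rintro ⟨x, y⟩ hf k
  rw [mem_coe] at hf
  unfold RF at hf
  rw [mem_product, mem_Ico, mem_Ico] at hf
  simp only at hf
  rcases k4_cases k with rfl | rfl | rfl | rfl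
  · exact hA' x y (by omega) (by omega) (by omega) (by omega)
  · exact hve (x + 1) y (by omega)
  · change A (x + 1) + B (x + 1) (y + 1) + (A x + B x (y + 1)) = m (x + 1, y + 1) (x, y + 1)
    rw [hsym, add_comm]
    exact hA' x (y + 1) (by omega) (by omega) (by omega) (by omega)
  · change A x + B x (y + 1) + (A x + B x y) = m (x, y + 1) (x, y)
    rw [hsym, add_comm]
    exact hve x y (by omega)

end Pool.Agent.Perc.Q

end Partperc3StrandRect

section Parth60C1Num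

/-!
# Choice of the scales
-/

set_option autoImplicit false

namespace Pool.Agent.PercS5

/-- The number of the blocks. -/
theorem numA {k₀ α θ A : ℝ} (hk : 0 < k₀) (hα : 0 < α) (hα1 : α < 2 / 3) (hθ : 0 < θ)
    (hθ1 : θ < 1) (hA : 1 ≤ A) : ∃ C J₀ : ℝ, 0 < C ∧ 1 ≤ J₀ ∧ ∀ j : ℝ, J₀ ≤ j → ∃ N : ℕ, 1 ≤ N ∧
      θ ^ N ≤ j ^ (-α) ∧ 384 * A * N < k₀ * j ∧ 128 ≤ k₀ * j ∧
      (384 * N / (k₀ * j)) ^ (2 / 3 : ℝ) ≤ C * j ^ (-α) := by
  set lθ : ℝ := -Real.log θ with hlθ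
  have hlθ0 : 0 < lθ := by rw [hlθ]; linarith [Real.log_neg hθ hθ1]
  set B : ℝ := 1 / lθ with hB
  have hB0 : 0 < B := by positivity
  set ε : ℝ := 1 - 3 / 2 * α with hε
  have hε0 : 0 < ε := by rw [hε]; linarith
  set C₁ : ℝ := 384 * (B + 1) / (k₀ * ε) with hC₁
  have hC₁0 : 0 < C₁ := by positivity
  -- `log j / j` is small
  have hlim : Filter.Tendsto (fun j : ℝ => Real.log j / j) Filter.atTop (nhds 0) := by
    have := Real.isLittleO_log_id_atTop.tendsto_div_nhds_zero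
    exact this
  have hev := (hlim.eventually_lt_const (show (0 : ℝ) < k₀ / (384 * A * (B + 1)) by positivity))
  obtain ⟨J₁, hJ₁⟩ := Filter.eventually_atTop.1 hev
  refine ⟨C₁ ^ (2 / 3 : ℝ), max (max J₁ (Real.exp 1)) (max 1 (128 / k₀)), by positivity,
    le_max_of_le_right (le_max_left _ _), ?_⟩
  intro j hj
  have hj1 : J₁ ≤ j := (le_max_left _ _).trans ((le_max_left _ _).trans hj)
  have hj2 : Real.exp 1 ≤ j := (le_max_right _ _).trans ((le_max_left _ _).trans hj)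
  have hj3 : 1 ≤ j := (le_max_left _ _).trans ((le_max_right _ _).trans hj)
  have hj4 : 128 / k₀ ≤ j := (le_max_right _ _).trans ((le_max_right _ _).trans hj)
  have hj0 : 0 < j := by linarith
  have hlog : 1 ≤ Real.log j := by
    rw [Real.le_log_iff_exp_le hj0]; exact hj2
  set N : ℕ := ⌈B * Real.log j⌉₊ with hN
  have hN1 : B * Real.log j ≤ N := Nat.le_ceil _
  have hN2 : (N : ℝ) < B * Real.log j + 1 := Nat.ceil_lt_add_one (by positivity)
  have hN3 : (N : ℝ) ≤ (B + 1) * Real.log j := by nlinarith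
  have hN0 : 0 < B * Real.log j := by positivity
  have hNpos : 1 ≤ N := Nat.one_le_iff_ne_zero.2 (Nat.ceil_pos.2 hN0).ne'
  refine ⟨N, hNpos, ?_, ?_, ?_, ?_⟩
  · have h1 : θ ^ N = Real.exp (-(lθ * N)) := by
      rw [← Real.rpow_natCast, Real.rpow_def_of_pos hθ, hlθ]
      congr 1; ring
    rw [h1, Real.rpow_def_of_pos hj0]
    apply Real.exp_le_exp.2
    have h2 : lθ * (B * Real.log j) = Real.log j := by rw [hB]; field_simp
    have h3 : lθ * (B * Real.log j) ≤ lθ * N := mul_le_mul_of_nonneg_left hN1 hlθ0.le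
    nlinarith
  · have h1 := hJ₁ j hj1
    rw [div_lt_div_iff₀ hj0 (by positivity)] at h1
    calc 384 * A * N ≤ 384 * A * ((B + 1) * Real.log j) :=
          mul_le_mul_of_nonneg_left hN3 (by positivity)
      _ = Real.log j * (384 * A * (B + 1)) := by ring
      _ < k₀ * j := h1
  · rw [div_le_iff₀ hk] at hj4
    linarith
  · have h1 : Real.log j ≤ j ^ ε / ε := Real.log_le_rpow_div hj0.le hε0
    have h2 : 384 * N / (k₀ * j) ≤ C₁ * j ^ (ε - 1) := by
      rw [div_le_iff₀ (by positivity)]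
      have h3 : j ^ (ε - 1) * j = j ^ ε := by
        rw [← Real.rpow_add_one hj0.ne']; congr 1; ring
      calc 384 * (N : ℝ) ≤ 384 * ((B + 1) * (j ^ ε / ε)) := by
            refine mul_le_mul_of_nonneg_left (hN3.trans ?_) (by norm_num)
            exact mul_le_mul_of_nonneg_left h1 (by positivity)
        _ = C₁ * (j ^ ε) * k₀ := by rw [hC₁]; field_simp
        _ = C₁ * j ^ (ε - 1) * (k₀ * j) := by rw [← h3]; ring
    calc (384 * N / (k₀ * j)) ^ (2 / 3 : ℝ) ≤ (C₁ * j ^ (ε - 1)) ^ (2 / 3 : ℝ) :=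
          Real.rpow_le_rpow (by positivity) h2 (by norm_num)
      _ = C₁ ^ (2 / 3 : ℝ) * j ^ (-α) := by
          rw [Real.mul_rpow hC₁0.le (by positivity), ← Real.rpow_mul hj0.le]
          congr 2
          rw [hε]; ring

/-- The scales. -/
theorem numB {k₀ A ν j : ℝ} {N : ℕ} (hk : 0 < k₀) (hk1 : k₀ ≤ 1) (hA : 1 ≤ A) (hν : 1 ≤ ν)
    (hN : 1 ≤ N) (h1 : 384 * A * N < k₀ * j) (h2 : 128 ≤ k₀ * j) :
    ∃ R L w : ℤ, ((R : ℝ) ≤ k₀ * ν * j / 8) ∧ L + ⌊3 * ν⌋ ≤ R ∧ w ≤ L ∧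
      A * (⌊3 * ν⌋ : ℝ) < w ∧ ⌊3 * ν⌋ + 2 * w * N ≤ L ∧ 0 < w ∧
      (⌊3 * ν⌋ : ℝ) / w ≤ 384 * N / (k₀ * j) := by
  have hN1 : (1 : ℝ) ≤ N := by exact_mod_cast hN
  have hkj : 0 < k₀ * j := by linarith
  have hν0 : 0 < ν := by linarith
  set d : ℤ := ⌊3 * ν⌋ with hd
  have hd1 : (d : ℝ) ≤ 3 * ν := Int.floor_le _
  have hd2 : 3 * ν < d + 1 := Int.lt_floor_add_one _
  have hd0 : (0 : ℝ) < d := by linarith
  set R : ℤ := ⌊k₀ * ν * j / 8⌋ with hR
  have hR1 : (R : ℝ) ≤ k₀ * ν * j / 8 := Int.floor_le _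
  have hR2 : k₀ * ν * j / 8 < R + 1 := Int.lt_floor_add_one _
  set L : ℤ := ⌊k₀ * ν * j / 16⌋ with hL
  have hL1 : (L : ℝ) ≤ k₀ * ν * j / 16 := Int.floor_le _
  have hL2 : k₀ * ν * j / 16 < L + 1 := Int.lt_floor_add_one _
  have hkν : 128 * ν ≤ k₀ * ν * j := by nlinarith
  set w : ℤ := ⌊((L : ℝ) - d) / (2 * N)⌋ with hw
  have hw1 : (w : ℝ) ≤ ((L : ℝ) - d) / (2 * N) := Int.floor_le _
  have hw2 : ((L : ℝ) - d) / (2 * N) < w + 1 := Int.lt_floor_add_one _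
  have hLd : k₀ * ν * j / 32 ≤ (L : ℝ) - d := by linarith
  -- the main lower bound
  have hwl : k₀ * ν * j / (128 * N) ≤ w := by
    have h3 : k₀ * ν * j / (64 * N) ≤ ((L : ℝ) - d) / (2 * N) := by
      rw [div_le_div_iff₀ (by positivity) (by positivity)]
      nlinarith
    have h4 : 1 ≤ k₀ * ν * j / (128 * N) := by
      rw [one_le_div (by positivity)]
      have : 384 * (1 : ℝ) * N ≤ 384 * A * N := by
        apply mul_le_mul_of_nonneg_right _ (by positivity); linarith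
      nlinarith
    have h5 : k₀ * ν * j / (64 * N) = 2 * (k₀ * ν * j / (128 * N)) := by field_simp; ring
    linarith
  have hwA : A * (d : ℝ) < w := by
    refine lt_of_lt_of_le ?_ hwl
    rw [lt_div_iff₀ (by positivity)]
    calc A * d * (128 * N) ≤ A * (3 * ν) * (128 * N) := by
          apply mul_le_mul_of_nonneg_right _ (by positivity)
          exact mul_le_mul_of_nonneg_left hd1 (by linarith)
      _ = (384 * A * N) * ν := by ring
      _ < k₀ * j * ν := by nlinarith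
      _ = k₀ * ν * j := by ring
  have hw0 : (0 : ℝ) < w := lt_of_le_of_lt (by positivity) hwA
  have hdw : (d : ℝ) + 2 * w * N ≤ L := by
    have h3 : (w : ℝ) * (2 * N) ≤ (L : ℝ) - d := by
      rw [le_div_iff₀ (by positivity)] at hw1
      exact hw1
    linarith
  refine ⟨R, L, w, hR1, ?_, ?_, hwA, ?_, ?_, ?_⟩
  · have : ((L + d : ℤ) : ℝ) < ((R + 1 : ℤ) : ℝ) := by push_cast; linarith
    have h3 : L + d < R + 1 := by exact_mod_cast this
    omega
  · have : (w : ℝ) ≤ L := by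
      have h3 : (w : ℝ) ≤ 2 * w * N := by nlinarith
      linarith
    exact_mod_cast this
  · exact_mod_cast hdw
  · exact_mod_cast hw0
  · rw [div_le_div_iff₀ hw0 hkj]
    have h3 : k₀ * ν * j ≤ w * (128 * N) := by
      rwa [div_le_iff₀ (by positivity)] at hwl
    calc (d : ℝ) * (k₀ * j) ≤ 3 * ν * (k₀ * j) := mul_le_mul_of_nonneg_right hd1 hkj.le
      _ = 3 * (k₀ * ν * j) := by ring
      _ ≤ 3 * (w * (128 * N)) := by linarith
      _ = 384 * N * w := by ring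

end Pool.Agent.PercS5

end Parth60C1Num
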