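import Pool.Agent.Lib.MP_6bd702_zc.Pre
import Pool.Agent.Lib.MP_6bd702_zc.Y025
import Pool.Agent.Lib.MP_6bd702_zc.Y022
import Pool.Agent.Lib.MP_6bd702_z.Prob
import Pool.Agent.Lib.MP_6bd702_zc.Y024
import Pool.Agent.Lib.MP_6bd702_zc.Y017

section Partperc3T2Defs

/-!
# Crossing strands of the annuli of the twisted plane (T2): definitions

`Rea d w ω t`: the strand which enters the box of radius `w` through the boundary edge `t` reaches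
the box of radius `d`. The main result T2 is the bound `C (d / w) ^ (2 / 3)` for the expected number
of ordered pairs of crossing strands.
-/

set_option autoImplicit false

namespace Pool.Agent.Perc.Q

open Finset Pool.Agent.Perc

/-- The alternating triples of outer boundary edges. -/
noncomputable def TA (w : ℤ) : Finset (Fin 3 → ℤ) := by
  classical
  exact (Fintype.piFinset fun _ : Fin 3 => Ico (0 : ℤ) (8 * w + 3)).filter fun t => Alt w t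

theorem mem_TA {w : ℤ} {t : Fin 3 → ℤ} : t ∈ TA w ↔ Alt w t := by
  classical
  unfold TA
  rw [mem_filter, Fintype.mem_piFinset]
  refine ⟨fun h => h.2, fun h => ⟨fun i => ?_, h⟩⟩
  rw [mem_Ico]
  exact h.mem i

/-- The three strands reach the box of radius `d`. -/
def Rea3 (d w : ℤ) (t : Fin 3 → ℤ) : Set Cfg := {ω | ∀ i, Rea d w ω (t i)}

/-- The expected number of alternating triples of crossing strands. -/
noncomputable def aT (d w : ℤ) : ℝ := ∑ t ∈ TA w, pr (BW w) (Rea3 d w t)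

/-- `s` is the tip of the strand `i` of the triple `t` on the boundary of the inner box. -/
def TipI (d w : ℤ) (ω : Cfg) (t : Fin 3 → ℤ) (i : Fin 3) (s : ℤ) : Prop :=
  0 ≤ s ∧ s < 8 * d + 3 ∧ ine d s ∈ Orb TQ ω (An d w) (ine w (t i))

/-- Two tips are close to each other. -/
def CloseI (d w g : ℤ) (t : Fin 3 → ℤ) : Set Cfg :=
  {ω | ω ∈ Rea3 d w t ∧ ∃ i j s s', i ≠ j ∧ TipI d w ω t i s ∧ TipI d w ω t j s' ∧ Near d g s s'}

/-- A tip is close to a special position. -/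
def SpecI (d w g : ℤ) (t : Fin 3 → ℤ) : Set Cfg :=
  {ω | ω ∈ Rea3 d w t ∧ ∃ i s, TipI d w ω t i s ∧ ¬ Away d g s}

/-- The tips are separated. -/
def SepI (d w g : ℤ) (t : Fin 3 → ℤ) : Set Cfg :=
  {ω | ∃ s : Fin 3 → ℤ, (∀ i, TipI d w ω t i (s i) ∧ Away d g (s i)) ∧
    ∀ i j, i ≠ j → g ≤ |s i - s j|}

/-- Close tips cost a small factor. -/
def CloseInP : Prop := ∀ q : ℝ, 0 < q → ∃ M : ℕ, 0 < M ∧ ∀ g r w : ℕ, 1 ≤ g → M * g ≤ r →
  2 * r < w → ∀ t : Fin 3 → ℤ, Alt w t →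
  pr (BW w) (Rea3 r w t ∩ CloseI (2 * r) w g t) ≤ q * pr (BW w) (Rea3 (2 * r) w t)

/-- Tips near the special positions cost a small factor from the previous scale. -/
def SpecInP : Prop := ∀ q : ℝ, 0 < q → ∃ M : ℕ, 0 < M ∧ ∀ g d w : ℕ, 1 ≤ g → M * g ≤ d →
  2 * d < w → ∀ t : Fin 3 → ℤ, Alt w t →
  pr (BW w) (SpecI d w g t) ≤ q * pr (BW w) (Rea3 (2 * d) w t)

/-- Separated tips can be joined to the core: all the core vertices are then connected to the outer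
boundary. -/
def GlueInP : Prop := ∀ K : ℕ, ∃ C : ℝ, ∃ g₀ : ℕ, 0 < C ∧ ∀ g d w : ℕ, g₀ ≤ g → 1 ≤ d →
  d ≤ K * g → 2 * d < w → ∀ t : Fin 3 → ℤ, Alt w t →
  pr (BW w) (SepI d w g t) * (d : ℝ) ^ (-(2 / 3 : ℝ)) ≤ C * pr (BW w) (Rea3 d w t ∩ Arm3 w)

/-- The expected number of triples of strands which cross the annulus of ratio `2`. -/
def BaseP : Prop := ∃ C : ℝ, 0 < C ∧ ∀ d w : ℕ, 1 ≤ d → w ≤ 4 * d → 2 * d ≤ w → aT d w ≤ C

/-- The expected number of ordered pairs of crossing strands. -/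
noncomputable def nT (d w : ℤ) : ℝ :=
  ∑ p ∈ ((Ico (0 : ℤ) (8 * w + 3)) ×ˢ Ico (0 : ℤ) (8 * w + 3)).filter fun p => p.1 ≠ p.2,
    pr (BW w) {ω | Rea d w ω p.1 ∧ Rea d w ω p.2}

end Pool.Agent.Perc.Q

end Partperc3T2Defs

section Partperc3Legs

/-!
# The three legs of the core leave every box (task Legs)
-/

set_option autoImplicit false

namespace Pool.Agent.Perc.Q

open Finset Pool.Agent.Perc Relation

namespace LegsAux

variable {R : ℤ} {ω : Cfg}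

theorem an_zero (R : ℤ) : An 0 R = (BW R : Set (ℤ × ℤ)) := by
  have h : (BW 0 : Set (ℤ × ℤ)) = ∅ := by
    apply Set.eq_empty_of_forall_notMem
    intro f hf
    have h1 : f ∈ BW 0 := hf
    rw [BdAux.mem_BW] at h1
    omega
  unfold An
  rw [h, Set.sdiff_empty]

theorem ini_leg (hR : 0 < R) (i : Fin 3) : Ini TQ (BW R : Set (ℤ × ℤ)) (leg i) := by
  have h := ini_inner (d := 0) (w := R) (t := (i : ℕ)) le_rfl hR (by omega) (by omega)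
  rw [← an_zero R]
  exact h

theorem ini_out (hR : 0 < R) {t : ℤ} (h0 : 0 ≤ t) (h1 : t < 8 * R + 3) :
    Ini TQ (BW R : Set (ℤ × ℤ)) (ine R t) := by
  have h := ini_outer (d := 0) (w := R) (t := t) le_rfl hR h0 h1
  rw [← an_zero R]
  exact h

/-- Two strands with a common element. -/
theorem orb_eq {V Φ : Type} {Q : QC V Φ} {ω : Φ → Bool} {F : Set Φ} {e e' a : V × V}
    (he : Ini Q F e) (he' : Ini Q F e') (ha : a ∈ Orb Q ω F e) (ha' : a ∈ Orb Q ω F e') :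
    e = e' := by
  have h1 : ReflTransGen (Function.swap (Nx Q ω F)) a e := reflTransGen_swap.2 ha
  have h2 : ReflTransGen (Function.swap (Nx Q ω F)) a e' := reflTransGen_swap.2 ha'
  have hu : Relator.RightUnique (Function.swap (Nx Q ω F)) := fun _ _ _ h h' => Nx.inj h h'
  rcases ReflTransGen.total_of_right_unique hu h1 h2 with h | h
  · exact eq_of_ini (reflTransGen_swap.1 h) he |>.symm ▸ rfl
  · exact (eq_of_ini (reflTransGen_swap.1 h) he').symm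

/-- A potential of a matched cochain is constant on the clusters. -/
theorem pot_bond {F : Set (ℤ × ℤ)} {m : ℤ × ℤ → ℤ × ℤ → ZMod 2} {χ : ℤ × ℤ → ZMod 2}
    (hm : Mat TQ ω F m) (hp : PotOn F m χ) {u v : ℤ × ℤ} (h : ConnQ TQ ω F u v) : χ u = χ v := by
  induction h with
  | refl => rfl
  | tail _ hb ih =>
    rw [ih]
    obtain ⟨f, hf, k, hk, rfl, rfl⟩ := hb
    have h1 := hp f hf k
    have h2 := hp f hf (k + 1)
    rw [z1] at h2
    rw [hm f hf k hk, ← h2] at h1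
    generalize χ (TQ.c f k) = a at h1 ⊢
    generalize χ (TQ.c f (k + 1)) = b at h1
    generalize χ (TQ.c f (k + 2)) = c at h1 ⊢
    revert a b c
    decide

theorem inW_of_conn (hR : 0 ≤ R) {u v : ℤ × ℤ} (hu : InW R u)
    (h : ConnQ TQ ω (BW R : Set (ℤ × ℤ)) u v) : InW R v := by
  rcases ReflTransGen.cases_tail h with h | ⟨b, -, f, hf, k, -, -, rfl⟩
  · rw [h]; exact hu
  · exact inW_corner hR hf _

theorem inW_core (hR : 0 ≤ R) {x : ℤ} (hx : Core x) : InW R (x, 0) := by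
  unfold Core at hx
  unfold InW
  dsimp only
  omega

/-- A vertex of the box with a face outside the box is a boundary vertex. -/
theorem bdW_of_corner (hR : 1 ≤ R) {f : ℤ × ℤ} {k : ZMod 4} (hf : f ∉ BW R)
    (h : InW R (TQ.c f k)) : BdW R (TQ.c f k) := by
  obtain ⟨a, b, e, y, x⟩ := BdAux.c_spec f k
  have e' : (a = 0 ∨ a = 1) ∧ (b = 0 ∨ b = 1) := by
    rcases e with ⟨-, h1, h2⟩ | ⟨-, h1, h2⟩ | ⟨-, h1, h2⟩ | ⟨-, h1, h2⟩ <;> omega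
  clear e
  rw [BdAux.mem_BW] at hf
  unfold InW at h
  unfold BdW
  generalize (TQ.c f k).1 = p at *
  generalize (TQ.c f k).2 = q at *
  omega

theorem exit_leg (hR : 1 ≤ R) (hω : ω ∈ Arm3 R) (i : Fin 3) :
    ∃ t, 0 ≤ t ∧ t < 8 * R + 3 ∧ (ine R t).swap ∈ Orb TQ ω (BW R) (leg i) := by
  by_contra hcon
  push Not at hcon
  have hR0 : 0 < R := by omega
  have hi := ini_leg (R := R) hR0 i
  have hout : ∀ t, 0 ≤ t → t < 8 * R + 3 →
      indU TQ ω (BW R : Set (ℤ × ℤ)) (leg i) (bd R t) (bd R (t + 1)) = 0 := by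
    intro t h0 h1
    unfold indU
    rw [if_neg]
    rintro (h | h)
    · have h2 := eq_of_ini h (ini_out hR0 h0 h1)
      have h3 : bd R t = bd 0 ((i : ℕ) + 1) := (Prod.mk.inj h2).1
      exact bd_ne (d := 0) (w := R) le_rfl hR0 (by omega) (by omega) h0 (by omega) h3.symm
    · exact hcon t h0 h1 h
  have hmat : Mat TQ ω (BW R : Set (ℤ × ℤ)) (indU TQ ω (BW R : Set (ℤ × ℤ)) (leg i)) :=
    fun f hf k hk => indU_eq hi hf hk
  obtain ⟨χ, hχ⟩ := exists_pot_outer (d := 0) (w := R)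
    (m := indU TQ ω (BW R : Set (ℤ × ℤ)) (leg i)) le_rfl hR0 (indU_symm TQ ω _ _)
    (fun f hf => hmat.even hf.1)
    (Finset.sum_eq_zero fun t ht => hout t (mem_Ico.1 ht).1 (mem_Ico.1 ht).2)
  have hA : (BW R : Set (ℤ × ℤ)) \ BW 0 = BW R := an_zero R
  rw [hA] at hχ
  have hbd : ∀ t, 0 ≤ t → t < 8 * R + 3 → χ (bd R t) = χ (bd R 0) := by
    intro t h0 h1
    have := step_fun (n := 8 * R + 3) (g := fun t => χ (bd R t)) (j := fun _ => 0)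
      (G := fun _ => 0) rfl ?_ (fun _ _ _ => rfl) h0 h1.le
    · rwa [add_zero] at this
    · intro t h0 h1
      obtain ⟨f, hf, -, k, hk⟩ := ine_face (r := R) hR0 h0 h1
      have hk' := Prod.mk.inj hk
      have h2 := hχ f hf k
      rw [← hk'.1, ← hk'.2, hout t h0 h1] at h2
      exact h2
  have hcore : ∀ x, Core x → χ (x, 0) = χ (bd R 0) := by
    intro x hx
    obtain ⟨v, hv, hb⟩ := hω x hx
    have hv' : ConnQ TQ ω (BW R : Set (ℤ × ℤ)) (x, 0) v := (connQ_iff emP_mono).2 hv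
    rw [pot_bond hmat hχ hv']
    obtain ⟨t, h0, h1, rfl⟩ := (bdW_iff hR0).1 ⟨hb, inW_of_conn hR0.le (inW_core hR0.le hx) hv'⟩
    exact hbd t h0 h1
  obtain ⟨f, hf, -, k, hk⟩ := ine_opp (r := 0) (t := (i : ℕ)) le_rfl (by omega) (by omega)
  have hk' := Prod.mk.inj hk
  have hf' : f ∈ (BW R : Set (ℤ × ℤ)) := BW_mono (by omega) hf
  have h1 := hχ f hf' k
  have h2 : indU TQ ω (BW R : Set (ℤ × ℤ)) (leg i) (TQ.c f k) (TQ.c f (k + 1)) = 1 := by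
    unfold indU
    rw [if_pos]
    rw [← hk]
    exact Or.inl mem_Orb_self
  rw [h2, ← hk'.1, ← hk'.2] at h1
  have h3 : ∀ t : ℤ, 0 ≤ t → t ≤ 3 → χ (bd 0 t) = χ (bd R 0) := by
    intro t h0 h3
    have h4 : ∃ x, Core x ∧ bd 0 t = (x, 0) := by
      have : t = 0 ∨ t = 1 ∨ t = 2 ∨ t = 3 := by omega
      rcases this with rfl | rfl | rfl | rfl
      · exact ⟨0, by unfold Core; omega, by decide⟩
      · exact ⟨-1, by unfold Core; omega, by decide⟩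
      · exact ⟨-2, by unfold Core; omega, by decide⟩
      · exact ⟨0, by unfold Core; omega, by decide⟩
    obtain ⟨x, hx, h5⟩ := h4
    rw [h5, hcore x hx]
  unfold ine at h1
  rw [h3 _ (by omega) (by omega), h3 _ (by omega) (by omega)] at h1
  generalize χ (bd R 0) = a at h1
  revert a
  decide

theorem sort3 {P : ℤ → Prop} {a b c : ℤ} (ha : P a) (hb : P b) (hc : P c) (h1 : a ≠ b)
    (h2 : b ≠ c) (h3 : a ≠ c) : ∃ t : Fin 3 → ℤ, (∀ i, P (t i)) ∧ t 0 < t 1 ∧ t 1 < t 2 := by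
  have key : ∀ a b c : ℤ, P a → P b → P c → a < b → b < c →
      ∃ t : Fin 3 → ℤ, (∀ i, P (t i)) ∧ t 0 < t 1 ∧ t 1 < t 2 := by
    intro a b c ha hb hc h1 h2
    refine ⟨![a, b, c], ?_, h1, h2⟩
    intro i
    fin_cases i
    · exact ha
    · exact hb
    · exact hc
  rcases lt_or_gt_of_ne h1 with h1 | h1 <;> rcases lt_or_gt_of_ne h2 with h2 | h2 <;>
    rcases lt_or_gt_of_ne h3 with h3 | h3
  · exact key a b c ha hb hc h1 h2
  · omega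
  · exact key a c b ha hc hb h3 h2
  · exact key c a b hc ha hb h3 h1
  · exact key b a c hb ha hc h1 h3
  · exact key b c a hb hc ha h2 h3
  · omega
  · exact key c b a hc hb ha h2 h1

end LegsAux

open LegsAux

/-- The three legs have three different tips. -/
theorem tips3 : Tips3 := by
  intro R hR ω hω
  have hR0 : (0 : ℤ) < R := by exact_mod_cast hR
  choose t h0 h1 h2 using exit_leg (R := R) (by omega) hω
  have hne : ∀ i j, t i = t j → i = j := by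
    intro i j hij
    have h3 := h2 j
    rw [← hij] at h3
    have h4 := orb_eq (ini_leg hR0 i) (ini_leg hR0 j) (h2 i) h3
    have h5 : ine 0 (i : ℕ) = ine 0 (j : ℕ) := Prod.swap_injective h4
    have h6 := ine_inj (r := 0) le_rfl (by omega) (by omega) (by omega) (by omega) h5
    exact Fin.ext (by exact_mod_cast h6)
  exact sort3 (P := IsTip R ω) ⟨h0 0, h1 0, 0, h2 0⟩ ⟨h0 1, h1 1, 1, h2 1⟩ ⟨h0 2, h1 2, 2, h2 2⟩
    (fun h => absurd (hne _ _ h) (by decide)) (fun h => absurd (hne _ _ h) (by decide))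
    (fun h => absurd (hne _ _ h) (by decide))

/-- Monotonicity. -/
theorem arm3Anti : Arm3Anti := by
  intro R R' hR hRR ω hω x hx
  have hR0 : (0 : ℤ) < R := by exact_mod_cast hR
  have hRR' : (R : ℤ) ≤ R' := by exact_mod_cast hRR
  obtain ⟨v, hv, hb⟩ := hω x hx
  have hv' : ConnQ TQ ω (BW R' : Set (ℤ × ℤ)) (x, 0) v := (connQ_iff emP_mono).2 hv
  have key : ∀ w, ConnQ TQ ω (BW R' : Set (ℤ × ℤ)) (x, 0) w →
      (ConnQ TQ ω (BW R : Set (ℤ × ℤ)) (x, 0) w ∧ InW R w) ∨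
        ∃ v, ConnQ TQ ω (BW R : Set (ℤ × ℤ)) (x, 0) v ∧ BdW R v := by
    intro w hw
    induction hw with
    | refl => exact Or.inl ⟨ReflTransGen.refl, inW_core hR0.le hx⟩
    | tail _ hb ih =>
      rcases ih with ⟨h1, h2⟩ | h1
      · obtain ⟨f, hf, k, hk, rfl, rfl⟩ := hb
        by_cases hfR : f ∈ BW R
        · exact Or.inl ⟨h1.tail ⟨f, hfR, k, hk, rfl, rfl⟩, inW_corner hR0.le hfR _⟩
        · exact Or.inr ⟨_, h1, bdW_of_corner (by omega) hfR h2⟩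
      · exact Or.inr h1
  rcases key v hv' with ⟨h1, h2⟩ | ⟨v, h1, h2⟩
  · refine ⟨v, (connQ_iff emP_mono).1 h1, ?_⟩
    unfold BdW at hb ⊢
    unfold InW at h2
    omega
  · exact ⟨v, (connQ_iff emP_mono).1 h1, h2⟩

end Pool.Agent.Perc.Q

end Partperc3Legs

section Partperc3StrandRectB

/-!
# The strands which cross a rectangle of the plane, from one of the four sides to the opposite side
-/

set_option autoImplicit false

namespace Pool.Agent.Perc.Q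

open Finset Pool.Agent.Perc Relation
open Pool.Agent.PercN (DisLR DisBT)

variable {ω : Cfg} {F : Set (ℤ × ℤ)} {u v : ℤ × ℤ} {x₀ x₁ y₀ y₁ c : ℤ} {k : ℕ}

theorem rf_iff {f : ℤ × ℤ} : f ∈ RF x₀ x₁ y₀ y₁ ↔ (x₀ ≤ f.1 ∧ f.1 < x₁) ∧ y₀ ≤ f.2 ∧ f.2 < y₁ := by
  unfold RF
  rw [mem_product, mem_Ico, mem_Ico]

/-- The exit edges: `right`, `top`, `left`, `bottom`. -/
theorem ter_right (y : ℤ) :
    Ter ZQ (RF x₀ x₁ y₀ y₁ : Finset (ℤ × ℤ)) ((x₁, y + 1), (x₁, y)) := by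
  rintro ⟨a, b⟩ hf k h
  rw [mem_coe, rf_iff] at hf
  rcases k4_cases k with rfl | rfl | rfl | rfl <;>
    simp only [ZQ_c, k01, k11, k21, k31, cor0_0, cor0_1, cor0_2, cor0_3, Prod.mk.injEq] at h hf <;>
    omega

theorem ter_left (y : ℤ) :
    Ter ZQ (RF x₀ x₁ y₀ y₁ : Finset (ℤ × ℤ)) ((x₀, y), (x₀, y + 1)) := by
  rintro ⟨a, b⟩ hf k h
  rw [mem_coe, rf_iff] at hf
  rcases k4_cases k with rfl | rfl | rfl | rfl <;>
    simp only [ZQ_c, k01, k11, k21, k31, cor0_0, cor0_1, cor0_2, cor0_3, Prod.mk.injEq] at h hf <;>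
    omega

theorem ter_top (x : ℤ) :
    Ter ZQ (RF x₀ x₁ y₀ y₁ : Finset (ℤ × ℤ)) ((x, y₁), (x + 1, y₁)) := by
  rintro ⟨a, b⟩ hf k h
  rw [mem_coe, rf_iff] at hf
  rcases k4_cases k with rfl | rfl | rfl | rfl <;>
    simp only [ZQ_c, k01, k11, k21, k31, cor0_0, cor0_1, cor0_2, cor0_3, Prod.mk.injEq] at h hf <;>
    omega

theorem ter_bot (x : ℤ) :
    Ter ZQ (RF x₀ x₁ y₀ y₁ : Finset (ℤ × ℤ)) ((x + 1, y₀), (x, y₀)) := by
  rintro ⟨a, b⟩ hf k h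
  rw [mem_coe, rf_iff] at hf
  rcases k4_cases k with rfl | rfl | rfl | rfl <;>
    simp only [ZQ_c, k01, k11, k21, k31, cor0_0, cor0_1, cor0_2, cor0_3, Prod.mk.injEq] at h hf <;>
    omega

theorem ini_of_ter {V Φ : Type} {Q : QC V Φ} {F : Set Φ} {a b : V} (h : Ter Q F (b, a)) :
    Ini Q F (a, b) := by
  intro f hf k hk
  refine h f hf k ?_
  exact Prod.ext (Prod.mk.inj hk).2 (Prod.mk.inj hk).1

/-- A terminal side of a rectangle is an exit edge. -/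
theorem ter_cases {f : ℤ × ℤ} {k : ZMod 4} (hf : f ∈ RF x₀ x₁ y₀ y₁)
    (h : Ter ZQ (RF x₀ x₁ y₀ y₁ : Finset (ℤ × ℤ)) (ZQ.c f (k + 1), ZQ.c f k)) :
    (∃ y, (y₀ ≤ y ∧ y < y₁) ∧ (ZQ.c f (k + 1), ZQ.c f k) = ((x₁, y + 1), (x₁, y))) ∨
      (∃ x, (x₀ ≤ x ∧ x < x₁) ∧ (ZQ.c f (k + 1), ZQ.c f k) = ((x, y₁), (x + 1, y₁))) ∨
      (∃ y, (y₀ ≤ y ∧ y < y₁) ∧ (ZQ.c f (k + 1), ZQ.c f k) = ((x₀, y), (x₀, y + 1))) ∨
      ∃ x, (x₀ ≤ x ∧ x < x₁) ∧ (ZQ.c f (k + 1), ZQ.c f k) = ((x + 1, y₀), (x, y₀)) := by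
  obtain ⟨a, b⟩ := f
  rw [rf_iff] at hf
  simp only at hf
  rcases k4_cases k with rfl | rfl | rfl | rfl <;>
    simp only [ZQ_c, k01, k11, k21, k31, cor0_0, cor0_1, cor0_2, cor0_3] at h ⊢
  · by_cases hb : b = y₀
    · subst hb
      exact Or.inr (Or.inr (Or.inr ⟨a, by omega, rfl⟩))
    · exfalso
      refine h (a, b - 1) (by rw [mem_coe, rf_iff]; simp only; omega) 2 ?_
      simp only [ZQ_c, k21, cor0_2, cor0_3, sub_add_cancel]
  · by_cases ha : a + 1 = x₁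
    · subst ha
      exact Or.inl ⟨b, by omega, rfl⟩
    · exfalso
      refine h (a + 1, b) (by rw [mem_coe, rf_iff]; simp only; omega) 3 ?_
      simp only [ZQ_c, k31, cor0_3, cor0_0]
  · by_cases hb : b + 1 = y₁
    · subst hb
      exact Or.inr (Or.inl ⟨a, by omega, rfl⟩)
    · exfalso
      refine h (a, b + 1) (by rw [mem_coe, rf_iff]; simp only; omega) 0 ?_
      simp only [ZQ_c, k01, cor0_0, cor0_1]
  · by_cases ha : a = x₀
    · subst ha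
      exact Or.inr (Or.inr (Or.inl ⟨b, by omega, rfl⟩))
    · exfalso
      refine h (a - 1, b) (by rw [mem_coe, rf_iff]; simp only; omega) 1 ?_
      simp only [ZQ_c, k11, cor0_1, cor0_2, sub_add_cancel]

/-- The last element of a strand which enters a rectangle is an exit edge. -/
theorem exit_cases {e : (ℤ × ℤ) × (ℤ × ℤ)}
    (hini : Ini ZQ (RF x₀ x₁ y₀ y₁ : Finset (ℤ × ℤ)) e)
    (hside : ∃ f ∈ (RF x₀ x₁ y₀ y₁ : Finset (ℤ × ℤ)), ∃ k, e = (ZQ.c f k, ZQ.c f (k + 1))) :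
    (∃ y, (y₀ ≤ y ∧ y < y₁) ∧ ((x₁, y + 1), (x₁, y)) ∈
        Orb ZQ ω (RF x₀ x₁ y₀ y₁ : Finset (ℤ × ℤ)) e) ∨
      (∃ x, (x₀ ≤ x ∧ x < x₁) ∧ ((x, y₁), (x + 1, y₁)) ∈
        Orb ZQ ω (RF x₀ x₁ y₀ y₁ : Finset (ℤ × ℤ)) e) ∨
      (∃ y, (y₀ ≤ y ∧ y < y₁) ∧ ((x₀, y), (x₀, y + 1)) ∈
        Orb ZQ ω (RF x₀ x₁ y₀ y₁ : Finset (ℤ × ℤ)) e) ∨
      ∃ x, (x₀ ≤ x ∧ x < x₁) ∧ ((x + 1, y₀), (x, y₀)) ∈
        Orb ZQ ω (RF x₀ x₁ y₀ y₁ : Finset (ℤ × ℤ)) e := by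
  obtain ⟨a, ha, hter⟩ := exists_ter (ω := ω) (Finset.finite_toSet (RF x₀ x₁ y₀ y₁)) hini
  rcases Orb_pred ha with rfl | ⟨b, -, f, hf, k, -, h⟩
  · obtain ⟨f, hf, k, rfl⟩ := hside
    exact absurd rfl (hter f hf k)
  · rw [mem_coe] at hf
    rcases h with ⟨-, rfl⟩ | ⟨-, rfl⟩
    · have h1 := ter_cases (k := k + 1) hf (by rw [z1]; exact hter)
      rw [z1] at h1
      rcases h1 with ⟨y, hy, h1⟩ | ⟨x, hx, h1⟩ | ⟨y, hy, h1⟩ | ⟨x, hx, h1⟩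
      · exact Or.inl ⟨y, hy, by rw [← h1]; exact ha⟩
      · exact Or.inr (Or.inl ⟨x, hx, by rw [← h1]; exact ha⟩)
      · exact Or.inr (Or.inr (Or.inl ⟨y, hy, by rw [← h1]; exact ha⟩))
      · exact Or.inr (Or.inr (Or.inr ⟨x, hx, by rw [← h1]; exact ha⟩))
    · have h1 := ter_cases (k := k + 3) hf (by rw [z5]; exact hter)
      rw [z5] at h1
      rcases h1 with ⟨y, hy, h1⟩ | ⟨x, hx, h1⟩ | ⟨y, hy, h1⟩ | ⟨x, hx, h1⟩
      · exact Or.inl ⟨y, hy, by rw [← h1]; exact ha⟩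
      · exact Or.inr (Or.inl ⟨x, hx, by rw [← h1]; exact ha⟩)
      · exact Or.inr (Or.inr (Or.inl ⟨y, hy, by rw [← h1]; exact ha⟩))
      · exact Or.inr (Or.inr (Or.inr ⟨x, hx, by rw [← h1]; exact ha⟩))

/-- Enumeration of a family of disjoint sets. -/
theorem fin_family {R : Finset (ℤ × ℤ)} {J : Finset ℤ} {K : ℤ → Set (ℤ × ℤ)}
    (hk : k ≤ J.card) (hK : ∀ j ∈ J, K j ⊆ R)
    (hd : ∀ i ∈ J, ∀ j ∈ J, i ≠ j → Disjoint (K i) (K j)) {P : Set (ℤ × ℤ) → Prop}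
    (hP : ∀ j ∈ J, P (K j)) :
    ∃ K' : Fin k → Finset (ℤ × ℤ), (∀ i, K' i ⊆ R) ∧ (∀ i j, i ≠ j → Disjoint (K' i) (K' j)) ∧
      ∀ i, P (K' i : Set (ℤ × ℤ)) := by
  classical
  set g := J.orderEmbOfCardLe hk with hg
  have hgm : ∀ i, g i ∈ J := fun i => J.orderEmbOfCardLe_mem hk i
  have hco : ∀ i, ((R.filter fun f => f ∈ K (g i) : Finset (ℤ × ℤ)) : Set (ℤ × ℤ)) = K (g i) := by
    intro i
    ext f
    rw [mem_coe, mem_filter]
    exact ⟨fun h => h.2, fun h => ⟨by exact_mod_cast hK _ (hgm i) h, h⟩⟩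
  refine ⟨fun i => R.filter fun f => f ∈ K (g i), fun i => filter_subset _ _, ?_, ?_⟩
  · intro i j hij
    rw [← disjoint_coe, hco, hco]
    exact hd _ (hgm i) _ (hgm j) fun h => hij (g.injective h)
  · intro i
    rw [hco]
    exact hP _ (hgm i)

theorem parity_or {a b : ℤ} (h : b = a + 1 ∨ a = b + 1) (c : ℤ) :
    (a - c) % 2 = 0 ∨ (b - c) % 2 = 0 := by omega

/-- The strands which enter a rectangle through the sides `(s l, s (l + 1))` and leave it through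
the sides `T`. -/
theorem dis_gen {s : ℤ → ℤ × ℤ} {a b : ℤ} {T : (ℤ × ℤ) × (ℤ × ℤ) → Prop} {J : Finset ℤ}
    (hs : ∀ l, a ≤ l → l ≤ b → x₀ ≤ (s l).1 ∧ (s l).1 ≤ x₁ ∧ y₀ ≤ (s l).2 ∧ (s l).2 ≤ y₁)
    (hside : ∀ l, a ≤ l → l < b → ∃ f ∈ (RF x₀ x₁ y₀ y₁ : Finset (ℤ × ℤ)), ∃ k,
      (s l, s (l + 1)) = (ZQ.c f k, ZQ.c f (k + 1)))
    (hini : ∀ l, a ≤ l → l < b → Ter ZQ (RF x₀ x₁ y₀ y₁ : Finset (ℤ × ℤ)) (s (l + 1), s l))
    (hinj : ∀ l l', s l = s l' → l = l')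
    (hT : ∀ t, T t → Ter ZQ (RF x₀ x₁ y₀ y₁ : Finset (ℤ × ℤ)) t)
    (hT' : ∀ l, a ≤ l → l < b → ¬ T (s (l + 1), s l))
    (hcol : ∀ l, a ≤ l → l < b → (s (l + 1)).1 + (s (l + 1)).2 = (s l).1 + (s l).2 + 1 ∨
      (s l).1 + (s l).2 = (s (l + 1)).1 + (s (l + 1)).2 + 1)
    (hJ : ∀ j ∈ J, a ≤ j ∧ j < b ∧ ∃ t ∈ Orb ZQ ω (RF x₀ x₁ y₀ y₁ : Finset (ℤ × ℤ))
      (s j, s (j + 1)), T t) (hk : 2 * k ≤ J.card + 1) :
    ∃ K : Fin k → Finset (ℤ × ℤ), (∀ i, K i ⊆ RF x₀ x₁ y₀ y₁) ∧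
      (∀ i j, i ≠ j → Disjoint (K i) (K j)) ∧ ∀ i, ∃ u v : ℤ × ℤ,
        (∃ j, a ≤ j ∧ j ≤ b ∧ u = s j) ∧ (∃ t, T t ∧ (v = t.1 ∨ v = t.2)) ∧
        (x₀ ≤ v.1 ∧ v.1 ≤ x₁ ∧ y₀ ≤ v.2 ∧ v.2 ≤ y₁) ∧ (u.1 + u.2 - c) % 2 = 0 ∧
        (v.1 + v.2 - c) % 2 = 0 ∧ Conn ω (K i) u v := by
  obtain ⟨J', hJ', hcard, K, hK, hd, hP⟩ := exists_disj (Q := ZQ) (ω := ω) (sc_rect (x₀ := x₀)
    (x₁ := x₁) (y₀ := y₀) (y₁ := y₁)) (s := s) (a := a) (b := b) hside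
    (fun l h1 h2 => ini_of_ter (hini l h1 h2))
    (fun l l' _ _ _ _ h => hinj l l' (Prod.mk.inj h).1)
    (T := T) hT hT' (col := fun v => (v.1 + v.2 - c) % 2 = 0)
    (fun l h1 h2 => parity_or (hcol l h1 h2) c) (J := J) hJ
  refine fin_family (k := k) (by omega) hK hd (P := fun S => ∃ u v : ℤ × ℤ,
    (∃ j, a ≤ j ∧ j ≤ b ∧ u = s j) ∧ (∃ t, T t ∧ (v = t.1 ∨ v = t.2)) ∧
    (x₀ ≤ v.1 ∧ v.1 ≤ x₁ ∧ y₀ ≤ v.2 ∧ v.2 ≤ y₁) ∧ (u.1 + u.2 - c) % 2 = 0 ∧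
    (v.1 + v.2 - c) % 2 = 0 ∧ Conn ω S u v) ?_
  intro j hj
  obtain ⟨u, v, hu, hcu, hv, hc⟩ := hP j hj
  obtain ⟨h1, h2, -⟩ := hJ j (hJ' hj)
  have hu' : ∃ j, a ≤ j ∧ j ≤ b ∧ u = s j := by
    rcases hu with rfl | rfl
    · exact ⟨j, h1, h2.le, rfl⟩
    · exact ⟨j + 1, by omega, by omega, rfl⟩
  have hc' := connZ_iff.1 hc
  refine ⟨u, v, hu', hv, ?_, hcu, ?_, hc'⟩
  · obtain ⟨i, hi, hi', rfl⟩ := hu'
    exact (hc'.mono (hK j hj)).mem_rect (hs i hi hi')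
  · have := hc'.parity
    omega

/-- Strands from the right side to the left side. -/
theorem dis_right {J : Finset ℤ} (hJ : ∀ j ∈ J, y₀ ≤ j ∧ j < y₁ ∧ ∃ y, ((x₀, y), (x₀, y + 1)) ∈
      Orb ZQ ω (RF x₀ x₁ y₀ y₁ : Finset (ℤ × ℤ)) ((x₁, j), (x₁, j + 1)))
    (hx : x₀ < x₁) (hk : 2 * k ≤ J.card + 1) : ω ∈ DisLR k c x₀ x₁ y₀ y₁ := by
  obtain ⟨K, h1, h2, h3⟩ := dis_gen (ω := ω) (x₀ := x₀) (x₁ := x₁) (y₀ := y₀) (y₁ := y₁) (c := c)
    (k := k) (s := fun l => (x₁, l)) (a := y₀) (b := y₁)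
    (T := fun t => ∃ y, t = ((x₀, y), (x₀, y + 1))) (J := J)
    (fun l h1 h2 => by simp only; omega)
    (fun l h1 h2 => ⟨(x₁ - 1, l), by rw [rf_iff]; simp only; omega, 1, by
      simp only [ZQ_c, k11, cor0_1, cor0_2, sub_add_cancel]⟩)
    (fun l _ _ => ter_right l)
    (fun l l' h => (Prod.mk.inj h).2)
    (by rintro t ⟨y, rfl⟩; exact ter_left y)
    (by rintro l - - ⟨y, h⟩; simp only [Prod.mk.injEq] at h; omega)
    (fun l _ _ => by simp only; omega)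
    (fun j hj => by
      obtain ⟨h1, h2, y, h3⟩ := hJ j hj
      exact ⟨h1, h2, _, h3, y, rfl⟩) hk
  refine ⟨K, h1, h2, fun i => ?_⟩
  obtain ⟨u, v, ⟨j, -, -, rfl⟩, ⟨t, ⟨y, rfl⟩, hv⟩, hr, -, hp, hc⟩ := h3 i
  exact ⟨v, _, by rcases hv with rfl | rfl <;> rfl, by omega, by omega, rfl, hp, hc.symm⟩

/-- Strands from the left side to the right side. -/
theorem dis_left {J : Finset ℤ} (hJ : ∀ j ∈ J, -y₁ ≤ j ∧ j < -y₀ ∧ ∃ y, ((x₁, y + 1), (x₁, y)) ∈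
      Orb ZQ ω (RF x₀ x₁ y₀ y₁ : Finset (ℤ × ℤ)) ((x₀, -j), (x₀, -(j + 1))))
    (hx : x₀ < x₁) (hk : 2 * k ≤ J.card + 1) : ω ∈ DisLR k c x₀ x₁ y₀ y₁ := by
  obtain ⟨K, h1, h2, h3⟩ := dis_gen (ω := ω) (x₀ := x₀) (x₁ := x₁) (y₀ := y₀) (y₁ := y₁) (c := c)
    (k := k) (s := fun l => (x₀, -l)) (a := -y₁) (b := -y₀)
    (T := fun t => ∃ y, t = ((x₁, y + 1), (x₁, y))) (J := J)
    (fun l h1 h2 => by simp only; omega)
    (fun l h1 h2 => ⟨(x₀, -(l + 1)), by rw [rf_iff]; simp only; omega, 3, by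
      simp only [ZQ_c, k31, cor0_3, cor0_0, show -(l + 1) + 1 = -l by ring]⟩)
    (fun l _ _ => by
      have h := ter_left (x₀ := x₀) (x₁ := x₁) (y₀ := y₀) (y₁ := y₁) (-(l + 1))
      rwa [show -(l + 1) + 1 = -l by ring] at h)
    (fun l l' h => by have := (Prod.mk.inj h).2; omega)
    (by rintro t ⟨y, rfl⟩; exact ter_right y)
    (by rintro l - - ⟨y, h⟩; simp only [Prod.mk.injEq] at h; omega)
    (fun l _ _ => by simp only; omega)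
    (fun j hj => by
      obtain ⟨h1, h2, y, h3⟩ := hJ j hj
      exact ⟨h1, h2, _, h3, y, rfl⟩) hk
  refine ⟨K, h1, h2, fun i => ?_⟩
  obtain ⟨u, v, ⟨j, hj1, hj2, rfl⟩, ⟨t, ⟨y, rfl⟩, hv⟩, hr, hp, -, hc⟩ := h3 i
  exact ⟨_, v, rfl, by simp only; omega, by simp only; omega,
    by rcases hv with rfl | rfl <;> rfl, hp, hc⟩

/-- Strands from the top side to the bottom side. -/
theorem dis_top {J : Finset ℤ} (hJ : ∀ j ∈ J, -x₁ ≤ j ∧ j < -x₀ ∧ ∃ x, ((x + 1, y₀), (x, y₀)) ∈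
      Orb ZQ ω (RF x₀ x₁ y₀ y₁ : Finset (ℤ × ℤ)) ((-j, y₁), (-(j + 1), y₁)))
    (hy : y₀ < y₁) (hk : 2 * k ≤ J.card + 1) : ω ∈ DisBT k c x₀ x₁ y₀ y₁ := by
  obtain ⟨K, h1, h2, h3⟩ := dis_gen (ω := ω) (x₀ := x₀) (x₁ := x₁) (y₀ := y₀) (y₁ := y₁) (c := c)
    (k := k) (s := fun l => (-l, y₁)) (a := -x₁) (b := -x₀)
    (T := fun t => ∃ x, t = ((x + 1, y₀), (x, y₀))) (J := J)
    (fun l h1 h2 => by simp only; omega)
    (fun l h1 h2 => ⟨(-(l + 1), y₁ - 1), by rw [rf_iff]; simp only; omega, 2, by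
      simp only [ZQ_c, k21, cor0_2, cor0_3, sub_add_cancel, show -(l + 1) + 1 = -l by ring]⟩)
    (fun l _ _ => by
      have h := ter_top (x₀ := x₀) (x₁ := x₁) (y₀ := y₀) (y₁ := y₁) (-(l + 1))
      rwa [show -(l + 1) + 1 = -l by ring] at h)
    (fun l l' h => by have := (Prod.mk.inj h).1; omega)
    (by rintro t ⟨x, rfl⟩; exact ter_bot x)
    (by rintro l - - ⟨x, h⟩; simp only [Prod.mk.injEq] at h; omega)
    (fun l _ _ => by simp only; omega)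
    (fun j hj => by
      obtain ⟨h1, h2, x, h3⟩ := hJ j hj
      exact ⟨h1, h2, _, h3, x, rfl⟩) hk
  refine ⟨K, h1, h2, fun i => ?_⟩
  obtain ⟨u, v, ⟨j, -, -, rfl⟩, ⟨t, ⟨x, rfl⟩, hv⟩, hr, -, hp, hc⟩ := h3 i
  exact ⟨v, _, by rcases hv with rfl | rfl <;> rfl, by omega, by omega, rfl, hp, hc.symm⟩

/-- Strands from the bottom side to the top side. -/
theorem dis_bot {J : Finset ℤ} (hJ : ∀ j ∈ J, x₀ ≤ j ∧ j < x₁ ∧ ∃ x, ((x, y₁), (x + 1, y₁)) ∈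
      Orb ZQ ω (RF x₀ x₁ y₀ y₁ : Finset (ℤ × ℤ)) ((j, y₀), (j + 1, y₀)))
    (hy : y₀ < y₁) (hk : 2 * k ≤ J.card + 1) : ω ∈ DisBT k c x₀ x₁ y₀ y₁ := by
  obtain ⟨K, h1, h2, h3⟩ := dis_gen (ω := ω) (x₀ := x₀) (x₁ := x₁) (y₀ := y₀) (y₁ := y₁) (c := c)
    (k := k) (s := fun l => (l, y₀)) (a := x₀) (b := x₁)
    (T := fun t => ∃ x, t = ((x, y₁), (x + 1, y₁))) (J := J)
    (fun l h1 h2 => by simp only; omega)
    (fun l h1 h2 => ⟨(l, y₀), by rw [rf_iff]; simp only; omega, 0, by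
      simp only [ZQ_c, k01, cor0_0, cor0_1]⟩)
    (fun l _ _ => ter_bot l)
    (fun l l' h => (Prod.mk.inj h).1)
    (by rintro t ⟨x, rfl⟩; exact ter_top x)
    (by rintro l - - ⟨x, h⟩; simp only [Prod.mk.injEq] at h; omega)
    (fun l _ _ => by simp only; omega)
    (fun j hj => by
      obtain ⟨h1, h2, x, h3⟩ := hJ j hj
      exact ⟨h1, h2, _, h3, x, rfl⟩) hk
  refine ⟨K, h1, h2, fun i => ?_⟩
  obtain ⟨u, v, ⟨j, hj1, hj2, rfl⟩, ⟨t, ⟨x, rfl⟩, hv⟩, hr, hp, -, hc⟩ := h3 i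
  exact ⟨_, v, rfl, by simp only; omega, by simp only; omega,
    by rcases hv with rfl | rfl <;> rfl, hp, hc⟩

end Pool.Agent.Perc.Q

end Partperc3StrandRectB
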