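import Pool.Agent.Lib.MP_6bd702_zc.Pre
import Pool.Agent.Lib.MP_6bd702_zc.Y023
import Pool.Agent.Lib.MP_6bd702_zc.Y022
import Pool.Agent.Lib.MP_6bd702_zc.Y025
import Pool.Agent.Lib.MP_6bd702_zc.Y020
import Pool.Agent.Lib.MP_6bd702_z.Z032
import Pool.Agent.Lib.MP_6bd702_zc.Y026
import Pool.Agent.Lib.MP_6bd702_zc.Y007

section Partperc3Glue3

/-!
# The gluing of the three legs on the cylinder: assembly
-/

set_option autoImplicit false

namespace Pool.Agent.Perc.Q

open Finset Pool.Agent.Perc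

namespace Cyl3

/-- Three core vertices connected to the three ports. -/
theorem wrap_of_ports {m : ℕ} (hm : 0 < m) {ζ : Cfg} {x : Fin 3 → ℤ} (hx : Function.Injective x)
    (hC : ∀ i, Core (x i)) {r : Fin 3 → ℤ × ℤ}
    (h : ∀ i, ConnW (emC m) (perW m ζ) (strip m) (x i, 0) (r i))
    (h01 : ConnW (emC m) (perW m ζ) (strip m) (r 0) (TwA.tr m 1 (r 1)))
    (h22 : ConnW (emC m) (perW m ζ) (strip m) (r 2) (TwA.tr m 1 (r 2))) : ζ ∈ Wrap3 m m := by
  have htr : ∀ (y j : ℤ), TwA.tr m j (y, 0) = (y + j * (2 * m + 1), 0) := by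
    intro y j
    unfold TwA.tr
    rw [if_pos (by exact le_rfl)]
  have e01 : ConnW (emC m) (perW m ζ) (strip m) (x 0, 0) (x 1 + 1 * (2 * m + 1), 0) := by
    have := TwA.connW_tr hm 1 (h 1)
    rw [htr] at this
    exact ((h 0).trans h01).trans this.symm'
  have e10 : ConnW (emC m) (perW m ζ) (strip m) (x 1, 0) (x 0 + -1 * (2 * m + 1), 0) := by
    have := TwA.connW_tr hm (-1) e01
    rw [htr, htr] at this
    rw [show x 1 + 1 * (2 * (m : ℤ) + 1) + -1 * (2 * m + 1) = x 1 by ring] at this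
    exact this.symm'
  have e22 : ConnW (emC m) (perW m ζ) (strip m) (x 2, 0) (x 2 + 1 * (2 * m + 1), 0) := by
    have := TwA.connW_tr hm 1 (h 2)
    rw [htr] at this
    exact ((h 2).trans h22).trans this.symm'
  have hall : ∀ y, Core y → y = x 0 ∨ y = x 1 ∨ y = x 2 := by
    intro y hy
    have h0 := hC 0
    have h1 := hC 1
    have h2 := hC 2
    have n01 : x 0 ≠ x 1 := fun h => absurd (hx h) (by decide)
    have n02 : x 0 ≠ x 2 := fun h => absurd (hx h) (by decide)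
    have n12 : x 1 ≠ x 2 := fun h => absurd (hx h) (by decide)
    unfold Core at hy h0 h1 h2
    omega
  refine ⟨fun y hy => ?_, x 2, hC 2, by rw [one_mul] at e22; exact e22⟩
  rcases hall y hy with rfl | rfl | rfl
  · exact ⟨x 1, 1, hC 1, Or.inl rfl, e01⟩
  · exact ⟨x 0, -1, hC 0, Or.inr rfl, e10⟩
  · exact ⟨x 2, 1, hC 2, Or.inl rfl, e22⟩

theorem vul_congr {R : ℤ} {η η' : Cfg} (h : ∀ f ∈ VUL R η, η f = η' f) : VUL R η' = VUL R η := by
  unfold VUL
  ext f
  simp only [Set.mem_ofPred_eq]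
  refine exists_congr fun i => ?_
  rw [Vis_congr (ω := η) (ω' := η') fun f hf => h f ⟨i, hf⟩]

theorem vul_sub {R : ℤ} {η : Cfg} {f : ℤ × ℤ} (h : f ∈ VUL R η) : f ∈ BW R := by
  obtain ⟨i, hi⟩ := h
  exact Finset.mem_coe.1 (Vis_sub hi)

theorem cout_not {w R : ℤ} (hw : 0 < w) (hR : 0 < R) {a f : ℤ × ℤ} (h : COut w R a)
    (hf : f ∈ cellF w a) : f ∉ BW R := by
  unfold BW
  rw [mem_union, mem_RFi, mem_RFi]
  rw [mem_cellF] at hf
  unfold COut at h
  rw [add_mul, one_mul, add_mul, one_mul] at h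
  rcases h with h | h | h | h
  · have h1 : 0 < a.1 := by
      by_contra hn
      have := mul_le_mul_of_nonneg_right (not_lt.1 hn) hw.le
      omega
    have h2 : chS a = 0 := by unfold chS; rw [if_neg (by omega)]
    omega
  · have h1 : a.1 < 0 := by
      by_contra hn
      have := mul_nonneg (not_lt.1 hn) hw.le
      omega
    have h2 : chS a = 1 := by unfold chS; rw [if_pos h1]
    omega
  · omega
  · omega

theorem emP_emC {m : ℕ} {l : ℤ} (h1 : -(m : ℤ) ≤ l) (h2 : l < m) : emP l = emC m l := by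
  rw [emC_eq]
  unfold emP
  split_ifs with h
  · rw [Int.ediv_eq_zero_of_lt h (by omega)]
    omega
  · have : l / (2 * m) = -1 := by
      rw [Int.ediv_eq_iff_of_pos (by omega)]
      constructor <;> omega
    omega

/-- The sorted positions. -/
theorem sort_tlin {R g : ℤ} {t : Fin 3 → ℤ} {P : ℤ → Prop} (hP : ∀ i, P (t i))
    (h0 : ∀ i, 0 ≤ t i ∧ t i < 8 * R + 3 ∧ Away R g (t i)) (h01 : t 0 + g ≤ t 1)
    (h12 : t 1 + g ≤ t 2) (hg : 0 ≤ g) : ∃ s : Fin 3 → ℤ, (∀ i, P (s i)) ∧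
      (∀ i, 0 ≤ s i ∧ s i < 8 * R + 3 ∧ Away R g (s i)) ∧
      tlin R (s 0) + g ≤ tlin R (s 1) ∧ tlin R (s 1) + g ≤ tlin R (s 2) := by
  have a0 := (h0 0).2.2 0 (by unfold spec; simp)
  have a2 := (h0 2).2.2 (8 * R + 3) (by unfold spec; simp)
  have b0 := h0 0
  have b1 := h0 1
  have b2 := h0 2
  rw [le_abs] at a0 a2
  by_cases c0 : 6 * R + 3 ≤ t 0
  · refine ⟨t, hP, h0, ?_, ?_⟩ <;>
    · unfold tlin
      split_ifs <;> omega
  by_cases c1 : 6 * R + 3 ≤ t 1
  · refine ⟨![t 1, t 2, t 0], ?_, ?_, ?_, ?_⟩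
    · intro i
      fin_cases i
      · exact hP 1
      · exact hP 2
      · exact hP 0
    · intro i
      fin_cases i
      · exact h0 1
      · exact h0 2
      · exact h0 0
    · change tlin R (t 1) + g ≤ tlin R (t 2)
      unfold tlin
      split_ifs <;> omega
    · change tlin R (t 2) + g ≤ tlin R (t 0)
      unfold tlin
      split_ifs <;> omega
  by_cases c2 : 6 * R + 3 ≤ t 2
  · refine ⟨![t 2, t 0, t 1], ?_, ?_, ?_, ?_⟩
    · intro i
      fin_cases i
      · exact hP 2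
      · exact hP 0
      · exact hP 1
    · intro i
      fin_cases i
      · exact h0 2
      · exact h0 0
      · exact h0 1
    · change tlin R (t 2) + g ≤ tlin R (t 0)
      unfold tlin
      split_ifs <;> omega
    · change tlin R (t 0) + g ≤ tlin R (t 1)
      unfold tlin
      split_ifs <;> omega
  · refine ⟨t, hP, h0, ?_, ?_⟩ <;>
    · unfold tlin
      split_ifs <;> omega

/-- The data of a configuration with separated tips. -/
def Dat (w R J : ℤ) (K : ℕ) (η : Cfg) (s : Fin 3 → ℤ) (G : Fin 3 → Finset (ℤ × ℤ)) : Prop :=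
  TipPos w R s ∧ (∀ i, IsTip R η (s i)) ∧ WallsOk w R s G ∧ (∀ i, (G i).card ≤ K) ∧
    (∀ i, ∀ g ∈ G i, g = port3 J i ∨ (-J ≤ g.1 ∧ g.1 < J ∧ -J ≤ g.2 ∧ g.2 < J)) ∧
    ∀ i, Relation.ReflTransGen (fun a b => a ∈ G i ∧ b ∈ G i ∧ COut w R a ∧ COut w R b ∧ CAdj a b)
      (oport w R (s i)) (port3 J i)

/-- The mixed configuration wraps. -/
theorem wrap_mix (hL : LinkP) {w J : ℕ} {R : ℤ} {K : ℕ} (hw : 3 ≤ w) (hR : 60 * (w : ℤ) ≤ R)
    (hJ : 60 ≤ J) (hRJ : R + 60 * w ≤ J * w) {ω ξ : Cfg} {s : Fin 3 → ℤ}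
    {G : Fin 3 → Finset (ℤ × ℤ)} (hD : Dat w R J K (perW ((J + 3) * w) ω) s G)
    (hξ : ξ ∈ CylEv (J + 3) w J G) :
    PercT.mix (TwE.red ((J + 3) * w) '' VUL R (perW ((J + 3) * w) ω)) ω ξ ∈
      Wrap3 ((J + 3) * w) ((J + 3) * w) := by
  obtain ⟨d1, d2, d3, d4, d5, d6⟩ := hD
  obtain ⟨x1, x2, x3⟩ := hξ
  set L : ℕ := J + 3 with hLdef
  set m : ℕ := L * w with hm
  set S := TwE.red m '' VUL R (perW m ω) with hS
  set ζ₀ := PercT.mix S ω ξ with hζ₀
  set ζ := perW m ζ₀ with hζ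
  have hwz : (3 : ℤ) ≤ w := by exact_mod_cast hw
  have hm0 : 0 < m := Nat.mul_pos (by omega) (by omega)
  have hJz : (60 : ℤ) ≤ (J : ℤ) := by exact_mod_cast hJ
  have hJL : (J : ℤ) + 2 ≤ L := by push_cast [hLdef]; omega
  have hmz : (m : ℤ) = J * w + 3 * w := by rw [hm, hLdef]; push_cast; ring
  have hLw : (L : ℤ) * w = m := by rw [hm]; push_cast; ring
  have hGOk : GOk J G := ⟨d3.1, d3.2.1, d5⟩
  -- values of the mixed configuration
  have v1 : ∀ f ∈ VUL R (perW m ω), ζ f = perW m ω f := by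
    intro f hf
    rw [hζ, TwE.perW_eq, TwE.perW_eq]
    have : TwE.red m f ∈ S := ⟨f, hf, rfl⟩
    change ζ₀ (TwE.red m f) = ω (TwE.red m f)
    rw [hζ₀]
    unfold PercT.mix
    rw [if_pos this]
  have v2 : ∀ f, TwE.red m f ∉ S → ζ f = perW m ξ f := by
    intro f hf
    rw [hζ, TwE.perW_eq, TwE.perW_eq]
    change ζ₀ (TwE.red m f) = ξ (TwE.red m f)
    rw [hζ₀]
    unfold PercT.mix
    rw [if_neg hf]
  have hsub : ∀ f, f ∈ BW R → f ∈ BW ((m : ℤ) - 1) := fun f hf => BW_sub (by omega) hf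
  have v3 : ∀ f ∈ BW ((m : ℤ) - 1), f ∉ VUL R (perW m ω) → ζ f = perW m ξ f := by
    intro f hf hf'
    refine v2 f ?_
    rintro ⟨f', h1, h2⟩
    have := TwE.red_injOn hm0 (Finset.mem_coe.2 (hsub f' (vul_sub h1))) (Finset.mem_coe.2 hf) h2
    rw [this] at h1
    exact hf' h1
  -- landing
  obtain ⟨x, hx, hC, hland⟩ := hL w R 0 (perW m ω) (perW m ξ) ζ s G hwz hR d1 d2 d3
    (fun i => by rw [zero_add]; exact x1 i) v1 (by
      intro f hf hf'
      refine v3 f ?_ hf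
      rcases hf' with h | ⟨i, h⟩
      · exact hsub f h
      · exact mem_window hGOk (by omega) (by omega) hJL h)
  simp only [zero_add] at hland
  -- from the ports to the cylinder
  have hstrip : ∀ f ∈ BW ((m : ℤ) - 1), f ∈ strip m := by
    intro f hf
    unfold BW at hf
    rw [mem_union, mem_RFi, mem_RFi] at hf
    constructor <;> omega
  have hem : ∀ f ∈ BW ((m : ℤ) - 1), f.2 = -1 → emP f.1 = emC m f.1 ∧
      emP (f.1 + 1) = emC m (f.1 + 1) := by
    intro f hf h1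
    unfold BW at hf
    rw [mem_union, mem_RFi, mem_RFi] at hf
    exact ⟨emP_emC (by omega) (by omega), emP_emC (by omega) (by omega)⟩
  have hport : ∀ i, ConnW (emC m) ζ (strip m) (x i, 0)
      (rep w ((i : ℕ) : ℤ) (perW m ξ) (port3 J i)) := by
    intro i
    have h1 : ConnW emP ζ (BW ((m : ℤ) - 1) : Set (ℤ × ℤ)) (x i, 0)
        (rep w ((i : ℕ) : ℤ) (perW m ξ) (oport w R (s i))) := by
      refine (hland i).mono ?_
      rintro f (hf | hf)
      · exact Finset.mem_coe.2 (hsub f (Finset.mem_coe.1 hf))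
      · exact Finset.mem_coe.2 (mem_window hGOk (by omega) (by omega) hJL (Finset.mem_coe.1 hf))
    have h2 := tub_link (w := (w : ℤ)) (P := COut w R) (by omega) (d3.2.1 i) (x1 i)
      (g := oport w R (s i)) (g' := port3 J i)
      (Relation.ReflTransGen.mono (fun a b h => ⟨h.1, h.2.1, h.2.2.1, h.2.2.2.1, h.2.2.2.2⟩) _ _ (d6 i))
    have h3 : ConnW emP ζ (BW ((m : ℤ) - 1) : Set (ℤ × ℤ))
        (rep w ((i : ℕ) : ℤ) (perW m ξ) (oport w R (s i)))
        (rep w ((i : ℕ) : ℤ) (perW m ξ) (port3 J i)) := by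
      refine (ConnW.congr_cfg (ω' := ζ) ?_ h2).mono ?_
      · rintro f ⟨a, ha, ha', hfa⟩
        refine (v3 f ?_ ?_).symm
        · exact mem_window hGOk (by omega) (by omega) hJL (mem_cellsF.2 ⟨a, ha, hfa⟩)
        · intro hf
          exact cout_not (by omega) (by omega) ha' hfa (vul_sub hf)
      · rintro f ⟨a, ha, ha', hfa⟩
        exact Finset.mem_coe.2 (mem_window hGOk (by omega) (by omega) hJL
          (mem_cellsF.2 ⟨a, ha, hfa⟩))
    exact (ConnW.congr_em (fun f hf h => hem f (Finset.mem_coe.1 hf) h) (h1.trans h3)).mono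
      fun f hf => hstrip f (Finset.mem_coe.1 hf)
  have hmemP : ∀ i, port3 J i ∈ G i := by
    intro i
    rcases Relation.ReflTransGen.cases_tail (d6 i) with h | ⟨b, -, h⟩
    · -- the ports are equal: the ring contains the outer port
      rw [h]
      have h4 := d3.2.2.2 i (tdir R (s i)).1 (tdir R (s i)).2
      have h5 : (tdir R (s i) = (1, 0)) ∨ (tdir R (s i) = (0, 1)) ∨ (tdir R (s i) = (-1, 0)) ∨
          (tdir R (s i) = (0, -1)) := by
        unfold tdir
        split_ifs <;> simp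
      unfold oport
      rcases h5 with h5 | h5 | h5 | h5 <;> rw [h5] at h4 ⊢ <;>
        exact h4 (by norm_num) (by norm_num) (by norm_num) (by norm_num) (by decide)
    · exact h.2.1
  -- the tube and the ring
  have hred : ∀ f f' : ℤ × ℤ, TwE.red m f' = TwE.red m f → f'.2 = f.2 := by
    intro f f' h
    unfold TwE.red at h
    split_ifs at h <;> exact (Prod.mk.inj h).2
  have h01 : ConnW (emC m) ζ (strip m) (rep w 0 (perW m ξ) (port3 J 0))
      (TwA.tr m 1 (rep w 1 (perW m ξ) (port3 J 1))) := by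
    have h1 := EW_link (L := L) (w := w) (J := J) (ξ := ξ) (by omega) (by omega) hJL
      (G := G 0) (G' := G 1) (x1 0) (hmemP 0) (x1 1) (hmemP 1) x2
    have h2 : Conn ζ (RF (J * w) (2 * (L * w) + 1 - J * w) 0 w)
        (rep w 0 (perW m ξ) (port3 J 0))
        ((rep w 1 (perW m ξ) (port3 J 1)).1 + (2 * (L * w) + 1),
          (rep w 1 (perW m ξ) (port3 J 1)).2) := by
      refine conn_cfg (fun f hf => ?_) h1
      refine (v2 f ?_).symm
      rintro ⟨f', h3, h4⟩
      have hf1 := mem_RFi.1 (Finset.mem_coe.1 hf)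
      have hf2 := vul_sub h3
      have hf3 := hred _ _ h4
      unfold BW at hf2
      rw [mem_union, mem_RFi, mem_RFi] at hf2
      unfold TwE.red at h4
      rw [if_pos (by omega), if_pos (by omega)] at h4
      have h5 := (Prod.mk.inj h4).1
      rw [hLw] at hf1
      have := emod_inj (L := 2 * (m : ℤ) + 1) (a := -(R + 2)) (by omega) h5 (by omega) (by omega)
        (by omega) (by omega)
      omega
    have h3 := connW_up (em := emC m) (fun f hf => (mem_RFi.1 (Finset.mem_coe.1 hf)).2.2.1) h2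
    have h4 : TwA.tr m 1 (rep w 1 (perW m ξ) (port3 J 1)) =
        ((rep w 1 (perW m ξ) (port3 J 1)).1 + (2 * (L * w) + 1),
          (rep w 1 (perW m ξ) (port3 J 1)).2) := by
      have h5 := (rep_inCell (by omega) (x1 1) (hmemP 1)).1
      change 0 * (w : ℤ) ≤ _ at h5
      unfold TwA.tr
      rw [if_pos (by rw [zero_mul] at h5; exact h5), hLw]
      simp only [one_mul]
    rw [h4]
    refine h3.mono fun f hf => ?_
    have hf1 := mem_RFi.1 (Finset.mem_coe.1 hf)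
    constructor <;> omega
  have h22 : ConnW (emC m) ζ (strip m) (rep w 2 (perW m ξ) (port3 J 2))
      (TwA.tr m 1 (rep w 2 (perW m ξ) (port3 J 2))) := by
    have e1 : (-(J : ℤ) - 1) * (w : ℤ) = -(J * w) - w := by ring
    have h1 := RG_link (L := L) (w := w) (J := J) (ξ := ξ) (by omega) (by omega) (by omega)
      (G := G 2) (x1 2) (hmemP 2) x3
    have h2 : Conn ζ (row ((-(J : ℤ) - 1) * w) w)
        (rep w 2 (perW m ξ) (port3 J 2))
        ((rep w 2 (perW m ξ) (port3 J 2)).1 + 2 * (L * w),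
          (rep w 2 (perW m ξ) (port3 J 2)).2) := by
      refine conn_cfg (fun f hf => ?_) h1
      refine (v2 f ?_).symm
      rintro ⟨f', h3, h4⟩
      unfold row at hf
      obtain ⟨hf1, hf1'⟩ := hf
      have hf2 := vul_sub h3
      have hf3 := hred _ _ h4
      unfold BW at hf2
      rw [mem_union, mem_RFi, mem_RFi] at hf2
      omega
    have hneg : ∀ f ∈ row ((-(J : ℤ) - 1) * w) w, f.2 < 0 := by
      intro f hf
      unfold row at hf
      obtain ⟨hf1, hf1'⟩ := hf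
      omega
    have h3 := connW_low (em := emC m) hneg h2
    have h5 := (rep_inCell (by omega) (x1 2) (hmemP 2)).2.1
    change (rep w 2 (perW m ξ) (port3 J 2)).2 ≤ (-(J : ℤ) - 1) * w + w at h5
    have h6 : (rep w 2 (perW m ξ) (port3 J 2)).2 < 0 := by omega
    unfold twV at h3
    rw [if_neg (by omega), if_neg (by simp only; omega)] at h3
    have h4 : TwA.tr m 1 (rep w 2 (perW m ξ) (port3 J 2)) =
        ((rep w 2 (perW m ξ) (port3 J 2)).1 + 2 * (L * w),
          (rep w 2 (perW m ξ) (port3 J 2)).2) := by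
      unfold TwA.tr
      rw [if_neg (by omega), hLw]
      simp only [one_mul]
    rw [h4]
    refine h3.mono fun f hf => ?_
    unfold row at hf
    obtain ⟨hf1, hf1'⟩ := hf
    constructor <;> omega
  exact wrap_of_ports hm0 hx hC (r := fun i => rep w ((i : ℕ) : ℤ) (perW m ξ) (port3 J i)) hport
    h01 h22

end Cyl3

open Cyl3 in
/-- Gluing on the cylinder. -/
theorem glue3_of (hL : LinkP) (hP : PortsP) : Glue3 := by
  classical
  intro K
  set N : ℕ := 60 * K with hN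
  obtain ⟨Kc, hPorts⟩ := hP N
  set J : ℕ := N + 60 with hJ
  obtain ⟨c, hc, hcyl⟩ := pr_cyl J Kc (by omega)
  set C : ℝ := ((120 * K + 1 : ℕ) : ℝ) ^ (2 / 3 : ℝ) + c⁻¹ with hC
  have hC1 : ((120 * K + 1 : ℕ) : ℝ) ^ (2 / 3 : ℝ) ≤ C := by
    have : 0 < c⁻¹ := inv_pos.2 hc
    linarith
  have hC2 : c⁻¹ ≤ C := by
    have : 0 ≤ ((120 * K + 1 : ℕ) : ℝ) ^ (2 / 3 : ℝ) := by positivity
    linarith
  have hC0 : 0 < C := lt_of_lt_of_le (inv_pos.2 hc) hC2
  refine ⟨C, hC0, fun g R hg hR hRg => ?_⟩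
  have hRpos : (0 : ℝ) < R := by exact_mod_cast hR
  have hRp : 0 ≤ (R : ℝ) ^ (-(2 / 3 : ℝ)) := Real.rpow_nonneg hRpos.le _
  by_cases hsmall : g < 120
  · refine (pr_le_one _ _).trans ?_
    have k2 : (R : ℝ) ^ (2 / 3 : ℝ) ≤ ((120 * K + 1 : ℕ) : ℝ) ^ (2 / 3 : ℝ) := by
      refine Real.rpow_le_rpow hRpos.le ?_ (by norm_num)
      have : R ≤ 120 * K + 1 := by nlinarith
      exact_mod_cast this
    have k3 : 0 < (R : ℝ) ^ (2 / 3 : ℝ) := Real.rpow_pos_of_pos hRpos _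
    rw [Real.rpow_neg hRpos.le, ← div_eq_mul_inv, le_div_iff₀ k3]
    linarith
  set w : ℕ := g / 40 with hw
  have hw3 : 3 ≤ w := by omega
  have hgw : g ≤ 60 * w := by omega
  have hRw : (R : ℤ) ≤ N * w := by
    have h1 : R ≤ K * (60 * w) := hRg.trans (Nat.mul_le_mul_left _ hgw)
    have h2 : K * (60 * w) = N * w := by rw [hN]; ring
    exact_mod_cast h2 ▸ h1
  by_cases hR60 : (R : ℤ) < 60 * w
  · have hemp : Sep3 (R : ℤ) (g : ℤ) = ∅ := by
      rw [Set.eq_empty_iff_forall_notMem]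
      rintro ω ⟨t, h1, h2, h3⟩
      obtain ⟨⟨a1, a2, -⟩, a3⟩ := h1 0
      have b := fun z hz => a3 z hz
      unfold spec at b
      simp only [List.mem_cons, List.not_mem_nil, or_false, forall_eq_or_imp, forall_eq, le_abs] at b
      omega
    rw [hemp]
    have : pr (BW (R : ℤ)) (∅ : Set Cfg) = 0 := by
      rw [ProbA.pr_eq_sum]
      simp
    rw [this]
    positivity
  rw [not_lt] at hR60
  have hRJ : (R : ℤ) + 60 * w ≤ J * w := by
    rw [hJ]
    push_cast
    rw [add_mul]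
    omega
  set m : ℕ := (J + 3) * w with hm
  have hm0 : 0 < m := Nat.mul_pos (by omega) (by omega)
  have hmz : (m : ℤ) = J * w + 3 * w := by rw [hm]; push_cast; ring
  -- the data
  have hdat : ∀ η : Cfg, η ∈ Sep3 (R : ℤ) (g : ℤ) → ∃ s G, Dat w R J Kc η s G := by
    rintro η ⟨t, h1, h2, h3⟩
    obtain ⟨s, s1, s2, s3, s4⟩ := sort_tlin (R := (R : ℤ)) (g := (g : ℤ)) (P := IsTip R η)
      (fun i => (h1 i).1) (fun i => ⟨(h1 i).1.1, (h1 i).1.2.1, (h1 i).2⟩) h2 h3 (by omega)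
    have hpos : TipPos w R s := by
      refine ⟨fun i => ⟨(s2 i).1, (s2 i).2.1, fun z hz => le_trans ?_ ((s2 i).2.2 z hz)⟩, ?_, ?_⟩
      · omega
      · omega
      · omega
    obtain ⟨G, g1, g2, g3, g4⟩ := hPorts w R (by omega) hR60 hRw s hpos
    refine ⟨s, G, hpos, s1, g1, g2, ?_, ?_⟩
    · rw [hJ]
      push_cast
      exact g3
    · rw [hJ]
      push_cast
      exact g4
  set A : Set Cfg := {ω | perW m ω ∈ Sep3 (R : ℤ) (g : ℤ)} with hA
  let B : Cfg → Set Cfg := fun ω =>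
    if h : ∃ s G, Dat w R J Kc (perW m ω) s G then CylEv (J + 3) w J h.choose_spec.choose else ∅
  have key := PercT.pr_mix (W := FW m m) (S := fun ω => TwE.red m '' VUL R (perW m ω)) (c := c)
    (by
      intro ω ω' h
      have h1 : VUL R (perW m ω') = VUL R (perW m ω) := by
        refine vul_congr fun f hf => ?_
        rw [TwE.perW_eq, TwE.perW_eq]
        exact h _ ⟨f, hf, rfl⟩
      simp only [h1]) A B (Wrap3 m m)
    (by
      intro ω hω
      have h := hdat _ hω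
      simp only [B]
      rw [dif_pos h]
      obtain ⟨d1, d2, d3, d4, d5, d6⟩ := h.choose_spec.choose_spec
      exact hcyl w (by omega) _ ⟨d3.1, d3.2.1, d5⟩ d4)
    (by
      intro ω hω ξ hξ
      have h := hdat _ hω
      simp only [B] at hξ
      rw [dif_pos h] at hξ
      exact wrap_mix hL hw3 hR60 (by omega) hRJ h.choose_spec.choose_spec hξ)
  have hprA : pr (FW m m) A = pr (BW R) (Sep3 R g) := by
    have e : A = {ω : Cfg | (fun f => ω (TwE.red m f)) ∈ Sep3 (R : ℤ) (g : ℤ)} := by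
      rw [hA]
      simp only [TwE.perW_eq]
    rw [e]
    have hsub : BW (R : ℤ) ⊆ BW ((m : ℤ) - 1) := BW_sub (by omega)
    refine pr_comp (fun f hf f' hf' h => TwE.red_injOn hm0 (Finset.mem_coe.2 (hsub
      (Finset.mem_coe.1 hf))) (Finset.mem_coe.2 (hsub (Finset.mem_coe.1 hf'))) h) ?_
      (depOn_sep3 _ _)
    intro f hf
    refine TwE.red_mem hm0 ?_
    unfold BW at hf
    rw [mem_union, mem_RFi, mem_RFi] at hf
    constructor <;> omega
  rw [hprA] at key
  have k1 := key.trans (pr_wrap3_le hm0 m)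
  have k2 := Num3.p3v_upper_rpow m (by omega)
  have k3 : (m : ℝ) ^ (-(2 / 3) : ℝ) ≤ (R : ℝ) ^ (-(2 / 3) : ℝ) := by
    refine Real.rpow_le_rpow_of_nonpos hRpos ?_ (by norm_num)
    have : (R : ℤ) ≤ m := by omega
    exact_mod_cast this
  have k4 : pr (BW R) (Sep3 R g) ≤ c⁻¹ * (R : ℝ) ^ (-(2 / 3) : ℝ) := by
    rw [inv_mul_eq_div, le_div_iff₀ hc, mul_comm]
    linarith
  refine k4.trans ?_
  exact mul_le_mul_of_nonneg_right hC2 hRp

end Pool.Agent.Perc.Q

end Partperc3Glue3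

section Partperc3CloseOut

/-!
# Close tips and tips near a special position (task CloseOut)
-/

set_option autoImplicit false

namespace Pool.Agent.Perc.Q

open Finset Pool.Agent.Perc Relation Pool.Agent.PercT BdAux

namespace CO

/-- The three legs leave the box of radius `R` through the edges `s i`. -/
def Exits (R : ℤ) (ω : Cfg) (s : Fin 3 → ℤ) : Prop :=
  ∀ i, 0 ≤ s i ∧ s i < 8 * R + 3 ∧ (ine R (s i)).swap ∈ Orb TQ ω (BW R) (leg i)

theorem BW_zero : (BW 0 : Set (ℤ × ℤ)) = ∅ := by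
  ext f
  rw [Finset.mem_coe, mem_BW]
  simp only [Set.mem_empty_iff_false, iff_false]
  omega

theorem An_zero (R : ℤ) : An 0 R = (BW R : Set (ℤ × ℤ)) := by
  unfold An
  rw [BW_zero, Set.sdiff_empty]

theorem ter_ine {R t : ℤ} (hR : 0 < R) (h0 : 0 ≤ t) (h1 : t < 8 * R + 3) :
    Ter TQ (BW R : Set (ℤ × ℤ)) (ine R t).swap := by
  have := (ini_outer (d := 0) le_rfl hR h0 h1).ter_swap
  change Ter TQ (An 0 R) _ at this
  rwa [An_zero] at this

theorem exit_unique {R t t' : ℤ} (hR : 0 < R) {ω : Cfg} {i : Fin 3} (h0 : 0 ≤ t)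
    (h1 : t < 8 * R + 3) (h0' : 0 ≤ t') (h1' : t' < 8 * R + 3)
    (h : (ine R t).swap ∈ Orb TQ ω (BW R) (leg i)) (h' : (ine R t').swap ∈ Orb TQ ω (BW R) (leg i)) :
    t = t' :=
  ine_inj hR.le h0 h1 h0' h1' (Prod.swap_injective
    (ter_unique h h' (ter_ine hR h0 h1) (ter_ine hR h0' h1')))

theorem exits_of (hT : Tips3) {R : ℕ} (hR : 1 ≤ R) {ω : Cfg} (hω : ω ∈ Arm3 R) :
    ∃ s, Exits R ω s := by
  obtain ⟨t, h1, h2, h3⟩ := hT R hR ω hω
  choose h0 h00 σ hσ using h1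
  have hR' : (0 : ℤ) < R := by exact_mod_cast hR
  have ht : ∀ i j, t i = t j → i = j := by
    intro i j h
    fin_cases i <;> fin_cases j <;> simp only [Fin.zero_eta, Fin.mk_one, Fin.reduceFinMk,
      Fin.isValue] at h ⊢ <;> omega
  have hinj : Function.Injective σ := by
    intro i j h
    have h5 := hσ i
    rw [h] at h5
    exact ht _ _ (exit_unique hR' (h0 i) (h00 i) (h0 j) (h00 j) h5 (hσ j))
  set e := Equiv.ofBijective σ ⟨hinj, Finite.injective_iff_surjective.1 hinj⟩ with he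
  refine ⟨fun i => t (e.symm i), fun i => ⟨h0 _, h00 _, ?_⟩⟩
  have h4 := hσ (e.symm i)
  have h5 : σ (e.symm i) = i := e.apply_symm_apply i
  rwa [h5] at h4

/-- The sectors of the three legs. -/
theorem sec_of_exits {R : ℤ} (hR : 0 < R) {ω : Cfg} {s : Fin 3 → ℤ} (h : Exits R ω s) :
    ∃ (sec : ℤ × ℤ → Fin 3) (kap : ℤ × ℤ → ZMod 2),
      IsSec TQ ω (BW R : Set (ℤ × ℤ)) leg (fun i => i) (fun i => i + 2) sec kap ∧
      Cyc (8 * R + 3) s (fun x => sec (bdc R x)) (fun x => kap (bdc R x)) := by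
  have h1 : ∀ i : Fin 3, (ine R (s i)).swap ∈ Orb TQ ω (An 0 R) (ine 0 ((i : ℕ) : ℤ)).swap := by
    intro i
    rw [An_zero]
    exact (h i).2.2
  obtain ⟨sec, kap, H⟩ := secOut (d := 0) (w := R) (ω := ω) le_rfl hR alt_core
    (fun i => ⟨s i, (h i).1, (h i).2.1, h1 i⟩)
  have hc := cyc_out (s := s) le_rfl hR (fun i => alt_core.mem i) H
    (fun i => ⟨(h i).1, (h i).2.1⟩) h1
  rw [An_zero] at H
  exact ⟨sec, kap, H, hc⟩

theorem mark_eq (i : Fin 3) : (leg i).2 = (leg (i + 2)).1 := by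
  fin_cases i <;> decide

theorem leg_core (i : Fin 3) : ∃ x, Core x ∧ (leg i).1 = (x, 0) := by
  fin_cases i
  · exact ⟨-1, Or.inr (Or.inl rfl), by decide⟩
  · exact ⟨-2, Or.inl rfl, by decide⟩
  · exact ⟨0, Or.inr (Or.inr rfl), by decide⟩

theorem core_leg {x : ℤ} (h : Core x) : ∃ i, (leg i).1 = (x, 0) := by
  rcases h with rfl | rfl | rfl
  · exact ⟨1, by decide⟩
  · exact ⟨0, by decide⟩
  · exact ⟨2, by decide⟩

theorem inW_leg {R : ℤ} (hR : 0 < R) (i : Fin 3) : InW R (leg i).1 := by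
  obtain ⟨x, hx, h⟩ := leg_core i
  rw [h]
  unfold Core at hx
  unfold InW
  simp only
  omega

/-- A vertex of an outer face in the box is a boundary vertex. -/
theorem bdW_of_out {R : ℤ} (hR : 0 < R) {f : ℤ × ℤ} (hf : f ∉ BW R) (k : ZMod 4)
    (h : InW R (TQ.c f k)) : BdW R (TQ.c f k) := by
  obtain ⟨a, b, h1, h2, h3⟩ := c_spec f k
  rw [mem_BW] at hf
  unfold InW at h
  unfold BdW
  omega

/-! ### Distances -/

theorem dT_self (u : ℤ × ℤ) : dT u u = 0 := by
  unfold dT; simp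

theorem dT_le {u v : ℤ × ℤ} {n : ℤ} : dT u v ≤ n ↔
    u.1 - v.1 ≤ n ∧ v.1 - u.1 ≤ n ∧ u.2 - v.2 ≤ n ∧ v.2 - u.2 ≤ n := by
  unfold dT
  rw [max_le_iff, abs_le, abs_le]
  omega

theorem le_dT {u v : ℤ × ℤ} {n : ℤ} : n ≤ dT u v ↔
    n ≤ u.1 - v.1 ∨ n ≤ v.1 - u.1 ∨ n ≤ u.2 - v.2 ∨ n ≤ v.2 - u.2 := by
  unfold dT
  rw [le_max_iff, le_abs, le_abs]
  omega

theorem dT_triangle {u v w : ℤ × ℤ} {m n : ℤ} (h1 : dT u v ≤ m) (h2 : dT v w ≤ n) :
    dT u w ≤ m + n := by
  rw [dT_le] at *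
  omega

theorem bd_step {R t : ℤ} (hR : 0 < R) : dT (bd R (t + 1)) (bd R t) ≤ 1 := by
  rw [dT_le]
  unfold bd
  split_ifs <;> simp only <;> omega

theorem bd_dist {R t n : ℤ} (hR : 0 < R) (hn : 0 ≤ n) : dT (bd R (t + n)) (bd R t) ≤ n := by
  induction n, hn using Int.leInduction with
  | base => rw [add_zero, dT_self]
  | succ n hn ih =>
    have h1 := bd_step (R := R) (t := t + n) hR
    have h2 := dT_triangle h1 ih
    rw [show t + (n + 1) = t + n + 1 by ring]
    omega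

theorem dT_comm (u v : ℤ × ℤ) : dT u v = dT v u := by
  unfold dT
  rw [abs_sub_comm, abs_sub_comm u.2]

theorem bd_dist' {R t t' : ℤ} (hR : 0 < R) : dT (bd R t) (bd R t') ≤ |t - t'| := by
  rcases le_total t' t with h | h
  · have := bd_dist (R := R) (t := t') (n := t - t') hR (by omega)
    rw [abs_of_nonneg (by omega)]
    rwa [show t' + (t - t') = t by ring] at this
  · have := bd_dist (R := R) (t := t) (n := t' - t) hR (by omega)
    rw [abs_of_nonpos (by omega), dT_comm]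
    rw [show t + (t' - t) = t' by ring] at this
    rwa [neg_sub]

theorem bdc_step {R x : ℤ} (hR : 0 < R) : dT (bdc R (x + 1)) (bdc R x) ≤ 1 := by
  have hpos : 0 < 8 * R + 3 := by omega
  have h0 := Int.emod_nonneg x hpos.ne'
  have h1 := Int.emod_lt_of_pos x hpos
  have e1 : bdc R x = bd R (x % (8 * R + 3)) := rfl
  have e2 : bdc R (x + 1) = bd R (x % (8 * R + 3) + 1) := by
    rw [← bdc_succ hR.le h0 h1]
    refine bdc_per ?_
    have := Int.emod_add_mul_ediv x (8 * R + 3)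
    exact ⟨x / (8 * R + 3), by linarith⟩
  rw [e1, e2]
  exact bd_step hR

theorem bdc_dist {R x n : ℤ} (hR : 0 < R) (hn : 0 ≤ n) : dT (bdc R (x + n)) (bdc R x) ≤ n := by
  induction n, hn using Int.leInduction with
  | base => rw [add_zero, dT_self]
  | succ n hn ih =>
    have h1 := bdc_step (R := R) (x := x + n) hR
    have h2 := dT_triangle h1 ih
    rw [show x + (n + 1) = x + n + 1 by ring]
    omega

theorem inW_bd {R t : ℤ} (hR : 0 < R) (h0 : 0 ≤ t) (h1 : t < 8 * R + 3) : InW R (bd R t) :=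
  ((bdW_iff hR).2 ⟨t, h0, h1, rfl⟩).2

theorem bdW_bd {R t : ℤ} (hR : 0 < R) (h0 : 0 ≤ t) (h1 : t < 8 * R + 3) : BdW R (bd R t) :=
  ((bdW_iff hR).2 ⟨t, h0, h1, rfl⟩).1

/-! ### Close tips -/

/-- Close tips: the fresh configuration has an arm. -/
theorem close_det {R g : ℤ} (hR : 0 < R) {ω ξ : Cfg} {s s' : Fin 3 → ℤ}
    (hs : Exits R ω s) {i : Fin 3} (hi : gap (8 * R + 3) s i < g)
    (hs' : Exits (2 * R) (mix (VU TQ ω (BW R) leg) ω ξ) s')
    (harm : mix (VU TQ ω (BW R) leg) ω ξ ∈ Arm3 (2 * R)) :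
    ∃ y z, dT y (bd R (s i)) ≤ g ∧ R - 4 ≤ dT z (bd R (s i)) ∧
      ConnQ TQ ξ (BW (2 * R)) y z := by
  set S : Set (ℤ × ℤ) := VU TQ ω (BW R) leg with hS
  set ζ : Cfg := mix S ω ξ with hζ
  obtain ⟨sec, kap, H, hc⟩ := sec_of_exits hR hs
  obtain ⟨sec', kap', H', -⟩ := sec_of_exits (by omega) hs'
  obtain ⟨x, hx, hxi⟩ := leg_core i
  obtain ⟨q, hq, hqb⟩ := harm x hx
  have hq' : ConnQ TQ ζ (BW (2 * R)) (leg i).1 q := by
    rw [hxi]
    exact (connQ_iff emP_mono).2 hq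
  have hsub : (BW R : Set (ℤ × ℤ)) ⊆ BW (2 * R) := BW_mono (by omega)
  have hζS : ∀ f ∈ S, ω f = ζ f := fun f hf => (mix_of_mem hf).symm
  obtain ⟨y, hy, -, hc2⟩ := near (Q := TQ) (ζ := ζ) (G := (BW (2 * R) : Set (ℤ × ℤ))) (S := S)
    (F := (BW R : Set (ℤ × ℤ))) (T := {v | InW R v ∧ sec v = i ∧ kap v = 0})
    (Y := {v | ∃ t, 0 ≤ t ∧ t < 8 * R + 3 ∧ bd R t = v ∧ sec v = i})
    (P := fun v => ConnQ TQ ζ (BW (2 * R)) (leg i).1 v) (p := (leg i).1) (q := q)
    (fun u v hb hu => hu.tail hb)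
    (fun f hf k hk hP => by
      have hfF : f ∈ (BW R : Set (ℤ × ℤ)) := VU_sub hf
      have hk' : ω f = ev k := (hζS f hf).trans hk
      -- `kap` vanishes at the ends of the bond of a visited face
      have hk0 : kap (TQ.c f k) = 0 := by
        obtain ⟨j, hfj, l, hl⟩ := hf
        have h1 := H.kap_of_mem (a := (TQ.c f l, TQ.c f (l + 1))) ⟨j, Or.inl hl⟩
        have h2 := (H.bond_eq hfF hk').2
        rcases z4_cases l k with rfl | rfl | rfl | rfl
        · exact h1.1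
        · have h3 := h1.2
          simp only [z1] at h3
          rw [h2, h3]
        · rw [h2]
          exact h1.1
        · have h3 := h1.2
          simp only [z5] at h3
          exact h3
      obtain ⟨j, h⟩ := H.land_corner hf hk0
      have hVU : VU TQ ω (BW R) leg ⊆ (BW (2 * R) : Set (ℤ × ℤ)) := VU_sub.trans hsub
      have hcong : ∀ u v, ConnQ TQ ω (VU TQ ω (BW R) leg) u v → ConnQ TQ ζ (BW (2 * R)) u v :=
        fun u v huv => (ConnQ.congr hζS huv).mono hVU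
      have key : ∀ j', sec (TQ.c f k) = j' → ConnQ TQ ζ (BW (2 * R)) (leg j').1 (TQ.c f k) →
          sec (TQ.c f k) = i := by
        intro j' h1 h2
        have h3 := H'.conn_eq h2
        have h4 := H'.conn_eq hP
        have h5 := (H'.left j' _ mem_Orb_self).1
        have h6 := (H'.left i _ mem_Orb_self).1
        rw [h1]
        rw [h5] at h3
        rw [h6] at h4
        exact h3.1.trans h4.1.symm
      refine ⟨inW_corner hR.le hfF k, ?_, hk0⟩
      rcases h with ⟨h1, h2⟩ | ⟨h1, h2⟩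
      · exact key j h1 (hcong _ _ h2)
      · rw [mark_eq] at h2
        exact key (j + 2) h1 (hcong _ _ h2))
    (fun f hf hfS k hk => by
      have h1 := H.fresh_opp (k := k) hf hfS
      exact ⟨inW_corner hR.le hf _, h1.1.symm.trans hk.2.1, h1.2.symm.trans hk.2.2⟩)
    (fun f _ hf k hk => by
      obtain ⟨t, h0, h1, h2⟩ := (bdW_iff hR).1 ⟨bdW_of_out hR hf k hk.1, hk.1⟩
      exact ⟨t, h0, h1, h2, hk.2.1⟩)
    ⟨inW_leg hR i, (H.left i _ mem_Orb_self).1, (H.left i _ mem_Orb_self).2⟩ ReflTransGen.refl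
    (fun h => by
      have h1 := h.1
      unfold InW at h1
      unfold BdW at hqb
      omega) hq'
  obtain ⟨t, h0, h1, rfl, h3⟩ := hy
  refine ⟨bd R t, q, ?_, ?_, ?_⟩
  · have h4 : (fun x => sec (bdc R x)) t = i := by
      simp only [bdc_eq h0 h1]
      exact h3
    obtain ⟨n, hn1, hn2, hn3⟩ := hc.mem_arc h4
    have h5 : bd R t = bdc R (s i + n) := by
      rw [← bdc_eq h0 h1]
      exact bdc_per hn3
    have h6 := bdc_dist (R := R) (x := s i) (n := n) hR (by omega)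
    rw [← h5, bdc_eq (hs i).1 (hs i).2.1] at h6
    omega
  · have h4 := inW_bd hR (hs i).1 (hs i).2.1
    rw [le_dT]
    unfold InW at h4
    unfold BdW at hqb
    omega
  · refine (ConnQ.congr (fun f hf => ?_) hc2).mono Set.sdiff_subset
    exact mix_of_notMem hf.2

/-- The exits of the legs are tips. -/
theorem Exits.arm {R : ℤ} (hR : 0 < R) {ω : Cfg} {s : Fin 3 → ℤ} (h : Exits R ω s) :
    ω ∈ Arm3 R := by
  intro x hx
  obtain ⟨i, hi⟩ := core_leg hx
  obtain ⟨h0, h1, h2⟩ := h i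
  refine ⟨bd R (s i + 1), ?_, ?_⟩
  · rw [← hi]
    exact (connQ_iff emP_mono).1 ((marks h2).1.mono Vis_sub)
  · rcases eq_or_lt_of_le (show s i + 1 ≤ 8 * R + 3 by omega) with h3 | h3
    · rw [h3, bd_last hR.le]
      exact bdW_bd hR le_rfl (by omega)
    · exact bdW_bd hR (by omega) h3

/-- Two near exits: a small sector. -/
theorem gap_of_near {R g : ℤ} {s : Fin 3 → ℤ} {S : ℤ → Fin 3} {K : ℤ → ZMod 2}
    (hc : Cyc (8 * R + 3) s S K) {i j : Fin 3} (hij : i ≠ j)
    (hi : 0 ≤ s i ∧ s i < 8 * R + 3) (hj : 0 ≤ s j ∧ s j < 8 * R + 3) (h : Near R g (s i) (s j)) :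
    ∃ l, gap (8 * R + 3) s l < g := by
  have key : ∀ i j : Fin 3, j = i + 1 → 0 ≤ s i ∧ s i < 8 * R + 3 → 0 ≤ s j ∧ s j < 8 * R + 3 →
      (|s i - s j| < g ∨ 8 * R + 3 - g < |s i - s j|) → ∃ l, gap (8 * R + 3) s l < g := by
    intro i j hj1 hi hj h
    have hg : gap (8 * R + 3) s i = (s j - s i) % (8 * R + 3) := by unfold gap; rw [hj1]
    have hsum := hc.sum_gap
    have p0 := hc.gap_pos 0
    have p1 := hc.gap_pos 1
    have p2 := hc.gap_pos 2
    by_contra hcon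
    push Not at hcon
    have c0 := hcon 0
    have c1 := hcon 1
    have c2 := hcon 2
    have hgi := hcon i
    have hgi2 : gap (8 * R + 3) s i ≤ 8 * R + 3 - g := by
      fin_cases i <;> simp only [Fin.zero_eta, Fin.mk_one, Fin.reduceFinMk, Fin.isValue] <;> omega
    rcases le_total (s i) (s j) with h1 | h1
    · rw [Int.emod_eq_of_lt (by omega) (by omega)] at hg
      rw [abs_of_nonpos (by omega)] at h
      omega
    · rw [abs_of_nonneg (by omega)] at h
      rcases h1.lt_or_eq with h2 | h2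
      · have e : (s j - s i) % (8 * R + 3) = s j - s i + (8 * R + 3) := by
          rw [← Int.add_emod_right, Int.emod_eq_of_lt (by omega) (by omega)]
        omega
      · rw [h2, sub_self, Int.zero_emod] at hg
        have := hc.gap_pos i
        omega
  have h2 : j = i + 1 ∨ i = j + 1 := by
    revert hij
    clear * -
    revert i j
    decide
  rcases h2 with h2 | h2
  · exact key i j h2 hi hj h
  · refine key j i h2 hj hi ?_
    rw [abs_sub_comm]
    exact h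

/-- One arm around a boundary vertex. -/
theorem ball {q : ℝ} (hq : 0 < q) : ∃ M : ℕ, 8 ≤ M ∧ ∀ g R : ℕ, 1 ≤ g → M * g ≤ R →
    ∀ (v : ℤ × ℤ) (W : Finset (ℤ × ℤ)), (R : ℤ) ≤ max |v.1| |v.2| →
    pr W {ξ | ∃ y z, dT y v ≤ g ∧ ((R / 4 : ℕ) : ℤ) ≤ dT z v ∧ ConnQ TQ ξ W y z} ≤ q := by
  obtain ⟨C, β, hC, hβ, H⟩ := oneArmT
  set δ : ℝ := (q / C) ^ (1 / β) with hδ
  have hδ0 : 0 < δ := by positivity
  have hδβ : C * δ ^ β = q := by
    rw [hδ, ← Real.rpow_mul (by positivity), one_div, inv_mul_cancel₀ hβ.ne', Real.rpow_one]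
    field_simp
  refine ⟨⌈8 / δ⌉₊ + 8, by omega, fun g R hg hR v W hv => ?_⟩
  have hR8 : 8 * g ≤ R := by nlinarith
  have h1 := H v g ((R / 4 : ℕ) : ℤ) W (by exact_mod_cast hg) (by
    have : g ≤ R / 4 := by omega
    exact_mod_cast this) (by
    have : R / 4 + 4 ≤ R := by omega
    have h2 : ((R / 4 : ℕ) : ℤ) + 4 ≤ R := by exact_mod_cast this
    exact h2.trans hv)
  refine h1.trans ?_
  rw [← hδβ]
  have hR4 : (0 : ℝ) < ((R / 4 : ℕ) : ℝ) := by
    have : 0 < R / 4 := by omega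
    exact_mod_cast this
  refine mul_le_mul_of_nonneg_left (Real.rpow_le_rpow (by positivity) ?_ hβ.le) hC.le
  have hR8' : R ≤ 8 * (R / 4) := by omega
  have h3 : (R : ℝ) ≤ 8 * ((R / 4 : ℕ) : ℝ) := by exact_mod_cast hR8'
  have h4 : ((⌈8 / δ⌉₊ + 8 : ℕ) : ℝ) * g ≤ R := by exact_mod_cast hR
  have h5 : 8 / δ ≤ ((⌈8 / δ⌉₊ + 8 : ℕ) : ℝ) := by
    push_cast
    have := Nat.le_ceil (8 / δ)
    linarith
  have hg0 : (0 : ℝ) ≤ g := by positivity
  have h6 : 8 / δ * g ≤ R := (mul_le_mul_of_nonneg_right h5 hg0).trans h4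
  have h7 : 8 * (g : ℝ) ≤ δ * R := by
    have := mul_le_mul_of_nonneg_left h6 hδ0.le
    calc 8 * (g : ℝ) = δ * (8 / δ * g) := by field_simp
      _ ≤ δ * R := this
  have h8 : δ * R ≤ δ * (8 * ((R / 4 : ℕ) : ℝ)) := mul_le_mul_of_nonneg_left h3 hδ0.le
  have h9 : (g : ℝ) ≤ δ * ((R / 4 : ℕ) : ℝ) := by nlinarith
  have e1 : (((g : ℕ) : ℤ) : ℝ) = (g : ℝ) := by norm_cast
  have e2 : (((R / 4 : ℕ) : ℤ) : ℝ) = ((R / 4 : ℕ) : ℝ) := by norm_cast
  rw [e1, e2, div_le_iff₀ hR4]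
  exact h9

theorem le_max_bd {R t : ℤ} (hR : 0 < R) (h0 : 0 ≤ t) (h1 : t ≤ 8 * R + 3) :
    R ≤ max |(bd R t).1| |(bd R t).2| := by
  have h2 : BdW R (bd R t) := by
    rcases h1.lt_or_eq with h | h
    · exact bdW_bd hR h0 h
    · rw [h, bd_last hR.le]
      exact bdW_bd hR le_rfl (by omega)
  rw [le_max_iff, le_abs, le_abs]
  unfold BdW at h2
  omega

/-- The last exit from the faces of `F`. -/
theorem last_exit {V Φ : Type} {Q : QC V Φ} {ω : Φ → Bool} {G F : Set Φ} {P : V → Prop}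
    (hF : ∀ f ∈ F, ∀ k, P (Q.c f k)) {u v : V} (h : ConnQ Q ω G u v) (hu : P u) :
    ∃ x, P x ∧ ConnQ Q ω (G \ F) x v := by
  induction h with
  | refl => exact ⟨u, hu, ReflTransGen.refl⟩
  | tail _ hb ih =>
    obtain ⟨x, hx, hc⟩ := ih
    obtain ⟨f, hf, k, hk, h1, h2⟩ := hb
    by_cases hfF : f ∈ F
    · exact ⟨_, h2 ▸ hF f hfF _, ReflTransGen.refl⟩
    · exact ⟨x, hx, hc.tail ⟨f, ⟨hf, hfF⟩, k, hk, h1, h2⟩⟩

theorem pr_list {W : Finset (ℤ × ℤ)} {E : ℤ → Set Cfg} {c : ℝ} (l : List ℤ)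
    (h : ∀ z ∈ l, pr W (E z) ≤ c) : pr W {ω | ∃ z ∈ l, ω ∈ E z} ≤ l.length * c := by
  induction l with
  | nil =>
    have e : {ω : Cfg | ∃ z ∈ ([] : List ℤ), ω ∈ E z} = ∅ := by
      ext ω; simp
    rw [e]
    unfold pr
    simp
  | cons a l ih =>
    have e : {ω : Cfg | ∃ z ∈ (a :: l), ω ∈ E z} = E a ∪ {ω | ∃ z ∈ l, ω ∈ E z} := by
      ext ω; simp
    rw [e]
    refine (pr_union_le _ _ _).trans ?_
    have h1 := h a (List.mem_cons_self ..)
    have h2 := ih fun z hz => h z (List.mem_cons_of_mem _ hz)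
    rw [List.length_cons]
    push_cast
    linarith

end CO

/-- Close tips cost a small factor at the next scale. -/
theorem closeOut_of (hT : Tips3) (hA : Arm3Anti) : CloseOut := by
  intro q hq
  obtain ⟨M, hM, hball⟩ := CO.ball hq
  refine ⟨M, by omega, fun g R hg hR => ?_⟩
  have hR8 : 8 * g ≤ R := by nlinarith
  have hR0 : (0 : ℤ) < R := by omega
  have hcast : ((2 * R : ℕ) : ℤ) = 2 * (R : ℤ) := by push_cast; ring
  set A : Set Cfg := {ω | ∃ s, CO.Exits R ω s ∧ ∃ i, gap (8 * (R : ℤ) + 3) s i < g} with hAdef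
  have hchoose : ∀ ω ∈ A, ∃ p : (Fin 3 → ℤ) × Fin 3, CO.Exits R ω p.1 ∧
      gap (8 * (R : ℤ) + 3) p.1 p.2 < g := by
    rintro ω ⟨s, hs, i, hi⟩
    exact ⟨(s, i), hs, hi⟩
  choose! p hp hpg using hchoose
  have hmix := pr_mix_le (W := BW (2 * R)) (S := fun ω => VU TQ ω (BW R : Set (ℤ × ℤ)) leg)
    (fun ω ω' h => VU_congr h) (A := A) (fun ω hω ω' h => by
      obtain ⟨s, hs, hi⟩ := hω
      refine ⟨s, fun i => ⟨(hs i).1, (hs i).2.1, ?_⟩, hi⟩
      rw [Orb_congr (ω := ω) (ω' := ω') fun f hf => h f ⟨i, hf⟩]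
      exact (hs i).2.2)
    (fun ω => {ξ | ∃ y z, dT y (bd R ((p ω).1 (p ω).2)) ≤ g ∧
      ((R / 4 : ℕ) : ℤ) ≤ dT z (bd R ((p ω).1 (p ω).2)) ∧ ConnQ TQ ξ (BW (2 * R)) y z})
    (Arm3 (2 * R)) (q := q)
    (fun ω hω => hball g R hg hR _ _
      (CO.le_max_bd hR0 (hp ω hω _).1 (hp ω hω _).2.1.le))
    (fun ω hω ξ hξ => by
      have hξ' : mix (VU TQ ω (BW R : Set (ℤ × ℤ)) leg) ω ξ ∈ Arm3 ((2 * R : ℕ) : ℤ) := by
        rw [hcast]; exact hξ
      obtain ⟨s', hs'⟩ := CO.exits_of hT (R := 2 * R) (by omega) hξ'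
      rw [hcast] at hs'
      obtain ⟨y, z, h1, h2, h3⟩ := CO.close_det hR0 (hp ω hω) (hpg ω hω) hs' hξ
      exact ⟨y, z, h1, by omega, h3⟩)
  have hsub : BW (R : ℤ) ⊆ BW (2 * (R : ℤ)) := BW_sub (by omega)
  rw [hcast]
  calc pr (BW (2 * (R : ℤ))) (Arm3 (2 * R) ∩ Close3 R g)
      ≤ pr (BW (2 * (R : ℤ))) (A ∩ Arm3 (2 * R)) := by
        refine pr_mono _ fun ω h => ⟨?_, h.1⟩
        have hω : ω ∈ Arm3 (R : ℤ) := hA R (2 * R) (by omega) (by omega) ω (by
          rw [hcast]; exact h.1)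
        obtain ⟨s, hs⟩ := CO.exits_of hT (by omega) hω
        obtain ⟨sec, kap, -, hc⟩ := CO.sec_of_exits hR0 hs
        obtain ⟨t, t', ⟨a0, a1, i, a2⟩, ⟨b0, b1, j, b2⟩, htt, hn⟩ := h.2
        have e1 := CO.exit_unique hR0 a0 a1 (hs i).1 (hs i).2.1 a2 (hs i).2.2
        have e2 := CO.exit_unique hR0 b0 b1 (hs j).1 (hs j).2.1 b2 (hs j).2.2
        rw [e1, e2] at hn
        refine ⟨s, hs, CO.gap_of_near hc (i := i) (j := j) ?_ ⟨(hs i).1, (hs i).2.1⟩
          ⟨(hs j).1, (hs j).2.1⟩ hn⟩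
        rintro rfl
        exact htt (e1.trans e2.symm)
    _ ≤ q * pr (BW (2 * (R : ℤ))) A := hmix
    _ ≤ q * pr (BW (2 * (R : ℤ))) (Arm3 R) := by
        refine mul_le_mul_of_nonneg_left (pr_mono _ fun ω h => ?_) hq.le
        obtain ⟨s, hs, -⟩ := h
        exact hs.arm hR0
    _ = q * pr (BW R) (Arm3 R) := by
        rw [pr_eq_of_depOn (depOn_arm3' (R : ℤ)) hsub]

/-- A tip near a special position costs a small factor from the previous scale. -/
theorem specOut_of (hA : Arm3Anti) : SpecOut := by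
  classical
  intro q hq
  obtain ⟨M, hM, hball⟩ := CO.ball (q := q / 9) (by positivity)
  refine ⟨M, by omega, fun g R hg hR => ?_⟩
  have hR8 : 8 * g ≤ R := by nlinarith
  have hR0 : (0 : ℤ) < R := by omega
  set r : ℕ := R / 2 with hr
  have hsub : BW (r : ℤ) ⊆ BW (R : ℤ) := BW_sub (by omega)
  set W : Finset (ℤ × ℤ) := BW (R : ℤ) \ BW (r : ℤ) with hW
  set E : ℤ → Set Cfg := fun z => {ω | ∃ y x, dT y (bd R z) ≤ g ∧
    ((R / 4 : ℕ) : ℤ) ≤ dT x (bd R z) ∧ ConnQ TQ ω W y x} with hE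
  have hspec : ∀ z ∈ spec (R : ℤ), 0 ≤ z ∧ z ≤ 8 * (R : ℤ) + 3 := by
    intro z hz
    unfold spec at hz
    simp only [List.mem_cons, List.not_mem_nil, or_false] at hz
    omega
  have h1 : pr W {ω | ∃ z ∈ spec (R : ℤ), ω ∈ E z} ≤ q := by
    refine (CO.pr_list (c := q / 9) _ fun z hz => hball g R hg hR _ _
      (CO.le_max_bd hR0 (hspec z hz).1 (hspec z hz).2)).trans ?_
    have : (spec (R : ℤ)).length = 9 := rfl
    rw [this]
    push_cast
    linarith
  have hdep : DepOn (W : Set (ℤ × ℤ)) {ω | ∃ z ∈ spec (R : ℤ), ω ∈ E z} := by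
    have key : ∀ ω ω' : Cfg, (∀ f ∈ (W : Set (ℤ × ℤ)), ω f = ω' f) →
        ω ∈ {ω | ∃ z ∈ spec (R : ℤ), ω ∈ E z} → ω' ∈ {ω | ∃ z ∈ spec (R : ℤ), ω ∈ E z} := by
      rintro ω ω' h ⟨z, hz, y, x, h1, h2, h3⟩
      exact ⟨z, hz, y, x, h1, h2, h3.congr h⟩
    exact fun ω ω' h => ⟨key ω ω' h, key ω' ω fun f hf => (h f hf).symm⟩
  have hdisj : Disjoint (BW (r : ℤ)) W := Finset.disjoint_sdiff
  have hun : BW (r : ℤ) ∪ W = BW (R : ℤ) := Finset.union_sdiff_of_subset hsub
  have h2 := pr_inter_of_disjoint (depOn_arm3' (r : ℤ)) hdep hdisj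
  rw [hun] at h2
  calc pr (BW (R : ℤ)) (Arm3 R ∩ Spec3 R g)
      ≤ pr (BW (R : ℤ)) (Arm3 r ∩ {ω | ∃ z ∈ spec (R : ℤ), ω ∈ E z}) := by
        refine pr_mono _ fun ω h => ⟨hA r R (by omega) (by omega) ω h.1, ?_⟩
        obtain ⟨t, ⟨h0, h1, i, ht⟩, haw⟩ := h.2
        unfold Away at haw
        push Not at haw
        obtain ⟨z, hz, hlt⟩ := haw
        have hm := (marks ht).1.mono Vis_sub
        obtain ⟨x, hx, hc⟩ := CO.last_exit (F := (BW (r : ℤ) : Set (ℤ × ℤ)))
          (P := InW r) (fun f hf k => inW_corner (by omega) hf k) hm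
          (CO.inW_leg (by omega) i)
        have hc' : ConnQ TQ ω W (bd R (t + 1)) x := by
          have e : ((W : Finset (ℤ × ℤ)) : Set (ℤ × ℤ)) = (BW (R : ℤ) : Set (ℤ × ℤ)) \ BW (r : ℤ) := by
            rw [hW, Finset.coe_sdiff]
          rw [e]
          exact hc.symm
        refine ⟨z, hz, bd R (t + 1), x, ?_, ?_, hc'⟩
        · refine (CO.bd_dist' hR0).trans ?_
          rw [abs_lt] at hlt
          rw [abs_le]
          omega
        · have h5 := CO.le_max_bd hR0 (hspec z hz).1 (hspec z hz).2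
          have h6 : BdW (R : ℤ) (bd R z) := by
            rcases (hspec z hz).2.lt_or_eq with h | h
            · exact CO.bdW_bd hR0 (hspec z hz).1 h
            · rw [h, bd_last hR0.le]
              exact CO.bdW_bd hR0 le_rfl (by omega)
          rw [CO.le_dT]
          unfold InW at hx
          unfold BdW at h6
          omega
    _ = pr (BW (r : ℤ)) (Arm3 r) * pr W {ω | ∃ z ∈ spec (R : ℤ), ω ∈ E z} := h2
    _ ≤ pr (BW (r : ℤ)) (Arm3 r) * q := mul_le_mul_of_nonneg_left h1 (pr_nonneg _ _)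
    _ = q * pr (BW (r : ℤ)) (Arm3 r) := mul_comm _ _

theorem closeOut : CloseOut := closeOut_of tips3 arm3Anti

theorem specOut : SpecOut := specOut_of arm3Anti

end Pool.Agent.Perc.Q

end Partperc3CloseOut

section Partperc6Land

/-!
# Landing on two strands

`η` is a configuration which agrees with `ω` on the faces visited by the two strands.
-/

set_option autoImplicit false

namespace Pool.Agent.Perc6

open Finset Pool.Agent.Perc Pool.Agent.PercD Pool.Agent.PercL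

variable {ω η : Cfg} {F G : Set (ℤ × ℤ)} {e e' : UE} {u v u' v' : ℤ × ℤ} {Φ Ψ : ℤ × ℤ → ZMod 2}

theorem S2_sub : S2 ω F e e' ⊆ F := Set.union_subset SS_sub SS_sub

theorem S2_comm : S2 ω F e' e = S2 ω F e e' := Set.union_comm _ _

/-- Connections in another configuration which agrees on the faces used. -/
theorem conn_transfer {F₁ F₂ : Set (ℤ × ℤ)} (h : ∀ f ∈ F₁, η f = ω f) (hsub : F₁ ⊆ F₂)
    {p q : ℤ × ℤ} (hc : Conn ω F₁ p q) : Conn η F₂ p q := by
  induction hc with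
  | refl => exact Relation.ReflTransGen.refl
  | tail _ hb ih =>
    obtain ⟨f, hf, hbf, -, -⟩ := hb.exists_face
    exact ih.tail ((Bond.congr (h f hf).symm hbf).of_single (hsub hf))

theorem conn_symm {F₁ : Set (ℤ × ℤ)} {p q : ℤ × ℤ} (hc : Conn ω F₁ p q) : Conn ω F₁ q p := by
  induction hc with
  | refl => exact Relation.ReflTransGen.refl
  | tail _ hb ih => exact Relation.ReflTransGen.head hb.symm' ih

/-- The two strands in the other order. -/
theorem Duo.swap (hD : Duo ω F e e' u v u' v' Φ Ψ) :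
    Duo ω F e' e u' v' u v (fun w => Ψ w + 1) (fun w => Φ w + 1) where
  potE := hD.potE'.add_const 1
  potE' := hD.potE.add_const 1
  side := hD.side'
  side' := hD.side
  je := hD.je'
  je' := hD.je
  par_eq := hD.par_eq.symm
  Φu := by rw [hD.Ψu']; decide
  Φv := by rw [hD.Ψv']; decide
  Φu' := by rw [hD.Ψu]; decide
  Φv' := by rw [hD.Ψv]; decide
  Ψu := by rw [hD.Φu']; decide
  Ψv := by rw [hD.Φv']; decide
  Ψu' := by rw [hD.Φu]; decide
  Ψv' := by rw [hD.Φv]; decide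

theorem Duo.par_v (hD : Duo ω F e e' u v u' v' Φ Ψ) : par v = par v' := by
  have h1 := hD.je.par_ne
  have h2 := hD.je'.par_ne
  have h3 := hD.par_eq
  have h4 := par_cases u
  have h5 := par_cases v
  have h6 := par_cases u'
  have h7 := par_cases v'
  omega

theorem Duo.mem_u (hD : Duo ω F e e' u v u' v' Φ Ψ) : u ∈ VF F := by
  obtain ⟨f, hf, hs⟩ := hD.side
  exact ⟨f, hf, hs.cor_left hD.je⟩

theorem Duo.mem_v (hD : Duo ω F e e' u v u' v' Φ Ψ) : v ∈ VF F := by
  obtain ⟨f, hf, hs⟩ := hD.side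
  exact ⟨f, hf, hs.cor_left hD.je.symm⟩

/-- A path of the colour of the cluster from the P sector to the upper D sector: its first vertex is
joined to `u`. -/
theorem Duo.landP (hD : Duo ω F e e' u v u' v' Φ Ψ) (hη : ∀ f ∈ S2 ω F e e', η f = ω f)
    {ξ : Cfg} (hξ : ∀ g ∈ G, g ∉ S2 ω F e e' → η g = ξ g)
    (hG : ∀ g ∈ G, g ∉ F → ∀ w, IsCor g w → w ∈ VF F → Φ w = 1 ∧ Ψ w = 0)
    {p₀ pₙ : ℤ × ℤ} (hpar : par pₙ = par u) (hn : pₙ ∈ VF F → Φ pₙ = 1 ∧ Ψ pₙ = 0)
    (hpath : Conn ξ G pₙ p₀) (h0 : p₀ ∈ VF F) (h0' : Φ p₀ = 0) :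
    Conn η (G ∪ S2 ω F e e') pₙ u := by
  have tr : ∀ {p q : ℤ × ℤ}, Conn ω (SS ω F e) p q → Conn η (G ∪ S2 ω F e e') p q :=
    fun hc => conn_transfer (fun f hf => hη f (Or.inl hf)) (fun f hf => Or.inr (Or.inl hf)) hc
  have tr' : ∀ {p q : ℤ × ℤ}, Conn ω (SS ω F e') p q → Conn η (G ∪ S2 ω F e e') p q :=
    fun hc => conn_transfer (fun f hf => hη f (Or.inr hf)) (fun f hf => Or.inr (Or.inr hf)) hc
  have key : ∀ p, Conn ξ G pₙ p →
      ((p ∈ VF F → Φ p = 1 ∧ Ψ p = 0) ∧ Conn η (G ∪ S2 ω F e e') pₙ p) ∨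
      ((p ∈ VF F ∧ Φ p = 1 ∧ Ψ p = 1) ∧ Conn η (G ∪ S2 ω F e e') pₙ u') ∨
      Conn η (G ∪ S2 ω F e e') pₙ u := by
    intro p hp
    induction hp with
    | refl => exact Or.inl ⟨hn, Relation.ReflTransGen.refl⟩
    | tail hc hb ih =>
      rename_i p p'
      have hpp : par p = par u := by rw [← Conn.par_eq hc]; exact hpar
      have hpp' : par p' = par u := by rw [← hb.par_eq]; exact hpp
      obtain ⟨g, hg, hbg, hcp, hcp'⟩ := hb.exists_face
      rcases ih with ⟨h1, h2⟩ | ⟨⟨h1, h2, h3⟩, h4⟩ | h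
      · -- state A
        by_cases hgF : g ∈ F
        · obtain ⟨hΦ, hΨ⟩ := h1 ⟨g, hgF, hcp⟩
          by_cases hgS : g ∈ SS ω F e
          · right; right
            have := hD.potE.ss_conn hD.je hD.side hgS hcp hpp (by rw [hΦ, hD.Φu])
            exact h2.trans (tr (conn_symm this))
          · have hΦ' : Φ p' = 1 := by rw [← hD.potE.fresh hgF hgS hcp hcp', hΦ]
            by_cases hgS' : g ∈ SS ω F e'
            · have hc1 := hD.potE'.ss_conn hD.je' hD.side' hgS' hcp (by rw [hpp, hD.par_eq])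
                (by rw [hΨ, hD.Ψu'])
              have hc2 : Conn η (G ∪ S2 ω F e e') pₙ u' := h2.trans (tr' (conn_symm hc1))
              rcases z2_cases (Ψ p') with h5 | h5
              · left
                have hc3 := hD.potE'.ss_conn hD.je' hD.side' hgS' hcp' (by rw [hpp', hD.par_eq])
                  (by rw [h5, hD.Ψu'])
                exact ⟨fun _ => ⟨hΦ', h5⟩, hc2.trans (tr' hc3)⟩
              · right; left
                exact ⟨⟨⟨g, hgF, hcp'⟩, hΦ', h5⟩, hc2⟩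
            · left
              have hS2 : g ∉ S2 ω F e e' := fun h => h.elim hgS hgS'
              have hΨ' : Ψ p' = 0 := by rw [← hD.potE'.fresh hgF hgS' hcp hcp', hΨ]
              exact ⟨fun _ => ⟨hΦ', hΨ'⟩,
                h2.tail ((Bond.congr (hξ g hg hS2).symm hbg).of_single (Or.inl hg))⟩
        · left
          have hS2 : g ∉ S2 ω F e e' := fun h => hgF (S2_sub h)
          exact ⟨fun hV => hG g hg hgF p' hcp' hV,
            h2.tail ((Bond.congr (hξ g hg hS2).symm hbg).of_single (Or.inl hg))⟩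
      · -- state B
        by_cases hgF : g ∈ F
        · by_cases hgS : g ∈ SS ω F e
          · exfalso
            have := hD.potE.ss_conn hD.je hD.side hgS hcp hpp (by rw [h2, hD.Φu])
            have h5 := hD.potE'.conn (this.mono SS_sub)
            rw [hD.Ψu, h3] at h5
            exact absurd h5 (by decide)
          · have hΦ' : Φ p' = 1 := by rw [← hD.potE.fresh hgF hgS hcp hcp', h2]
            by_cases hgS' : g ∈ SS ω F e'
            · rcases z2_cases (Ψ p') with h5 | h5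
              · left
                have hc3 := hD.potE'.ss_conn hD.je' hD.side' hgS' hcp' (by rw [hpp', hD.par_eq])
                  (by rw [h5, hD.Ψu'])
                exact ⟨fun _ => ⟨hΦ', h5⟩, h4.trans (tr' hc3)⟩
              · right; left
                exact ⟨⟨⟨g, hgF, hcp'⟩, hΦ', h5⟩, h4⟩
            · right; left
              have hΨ' : Ψ p' = 1 := by rw [← hD.potE'.fresh hgF hgS' hcp hcp', h3]
              exact ⟨⟨⟨g, hgF, hcp'⟩, hΦ', hΨ'⟩, h4⟩
        · exfalso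
          have h5 := (hG g hg hgF p hcp h1).2
          rw [h3] at h5
          exact absurd h5 (by decide)
      · exact Or.inr (Or.inr h)
  rcases key p₀ hpath with ⟨h1, -⟩ | ⟨⟨-, h2, -⟩, -⟩ | h
  · have h2 := (h1 h0).1
    rw [h0'] at h2
    exact absurd h2 (by decide)
  · rw [h0'] at h2
    exact absurd h2 (by decide)
  · exact h

/-- The same for the lower D sector. -/
theorem Duo.landP' (hD : Duo ω F e e' u v u' v' Φ Ψ) (hη : ∀ f ∈ S2 ω F e e', η f = ω f)
    {ξ : Cfg} (hξ : ∀ g ∈ G, g ∉ S2 ω F e e' → η g = ξ g)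
    (hG : ∀ g ∈ G, g ∉ F → ∀ w, IsCor g w → w ∈ VF F → Φ w = 1 ∧ Ψ w = 0)
    {p₀ pₙ : ℤ × ℤ} (hpar : par pₙ = par u) (hn : pₙ ∈ VF F → Φ pₙ = 1 ∧ Ψ pₙ = 0)
    (hpath : Conn ξ G pₙ p₀) (h0 : p₀ ∈ VF F) (h0' : Ψ p₀ = 1) :
    Conn η (G ∪ S2 ω F e e') pₙ u' := by
  have hsw : ∀ w, Φ w = 1 ∧ Ψ w = 0 → Ψ w + 1 = 1 ∧ Φ w + 1 = 0 := by
    rintro w ⟨h1, h2⟩
    rw [h1, h2]
    decide
  have h := hD.swap.landP (η := η) (G := G) (by rw [S2_comm]; exact hη) (ξ := ξ)
    (by rw [S2_comm]; exact hξ)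
    (fun g hg hgF w hw hV => hsw w (hG g hg hgF w hw hV))
    (by rw [hpar, hD.par_eq]) (fun hV => hsw _ (hn hV)) hpath h0 (by rw [h0']; decide)
  rwa [S2_comm] at h

/-- A path of the other colour from the upper D sector to the outside of it. -/
theorem Duo.landD (hD : Duo ω F e e' u v u' v' Φ Ψ) (hη : ∀ f ∈ S2 ω F e e', η f = ω f)
    {ξ : Cfg} (hξ : ∀ g ∈ G, g ∉ S2 ω F e e' → η g = ξ g)
    (hG : ∀ g ∈ G, g ∉ F → ∀ w, IsCor g w → w ∈ VF F → Φ w = 0)
    {p₀ pₙ : ℤ × ℤ} (hpar : par pₙ = par v) (hn : pₙ ∈ VF F → Φ pₙ = 0)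
    (hpath : Conn ξ G pₙ p₀) (h0 : p₀ ∈ VF F) (h0' : Φ p₀ = 1) :
    Conn η (G ∪ S2 ω F e e') pₙ v := by
  have tr : ∀ {p q : ℤ × ℤ}, Conn ω (SS ω F e) p q → Conn η (G ∪ S2 ω F e e') p q :=
    fun hc => conn_transfer (fun f hf => hη f (Or.inl hf)) (fun f hf => Or.inr (Or.inl hf)) hc
  have key : ∀ p, Conn ξ G pₙ p →
      ((p ∈ VF F → Φ p = 0) ∧ Conn η (G ∪ S2 ω F e e') pₙ p) ∨
      Conn η (G ∪ S2 ω F e e') pₙ v := by
    intro p hp
    induction hp with
    | refl => exact Or.inl ⟨hn, Relation.ReflTransGen.refl⟩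
    | tail hc hb ih =>
      rename_i p p'
      have hpp : par p = par v := by rw [← Conn.par_eq hc]; exact hpar
      obtain ⟨g, hg, hbg, hcp, hcp'⟩ := hb.exists_face
      rcases ih with ⟨h1, h2⟩ | h
      · by_cases hgF : g ∈ F
        · have hΦ := h1 ⟨g, hgF, hcp⟩
          by_cases hgS : g ∈ SS ω F e
          · right
            have hside : ∃ f ∈ F, IsSide f e := hD.side
            have := hD.potE.ss_conn hD.je.symm hside hgS hcp hpp (by rw [hΦ, hD.Φv])
            exact h2.trans (tr (conn_symm this))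
          · by_cases hgS' : g ∈ SS ω F e'
            · exfalso
              obtain ⟨-, a, ha, hside⟩ := hgS'
              obtain ⟨r, s, hj, hr, hcr⟩ := MM_conn hD.je' ha
              have h5 := hD.potE.conn (hcr.mono SS_sub)
              have h6 := hD.potE.fresh hgF hgS hcp (hside.cor_left hj)
              rw [hΦ, ← h5, hD.Φu'] at h6
              exact absurd h6 (by decide)
            · left
              have hS2 : g ∉ S2 ω F e e' := fun h => h.elim hgS hgS'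
              have hΦ' : Φ p' = 0 := by rw [← hD.potE.fresh hgF hgS hcp hcp', hΦ]
              exact ⟨fun _ => hΦ',
                h2.tail ((Bond.congr (hξ g hg hS2).symm hbg).of_single (Or.inl hg))⟩
        · left
          have hS2 : g ∉ S2 ω F e e' := fun h => hgF (S2_sub h)
          exact ⟨fun hV => hG g hg hgF p' hcp' hV,
            h2.tail ((Bond.congr (hξ g hg hS2).symm hbg).of_single (Or.inl hg))⟩
      · exact Or.inr h
  rcases key p₀ hpath with ⟨h1, -⟩ | h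
  · have h2 := h1 h0
    rw [h0'] at h2
    exact absurd h2 (by decide)
  · exact h

/-- The same for the lower D sector. -/
theorem Duo.landD' (hD : Duo ω F e e' u v u' v' Φ Ψ) (hη : ∀ f ∈ S2 ω F e e', η f = ω f)
    {ξ : Cfg} (hξ : ∀ g ∈ G, g ∉ S2 ω F e e' → η g = ξ g)
    (hG : ∀ g ∈ G, g ∉ F → ∀ w, IsCor g w → w ∈ VF F → Ψ w = 1)
    {p₀ pₙ : ℤ × ℤ} (hpar : par pₙ = par v) (hn : pₙ ∈ VF F → Ψ pₙ = 1)
    (hpath : Conn ξ G pₙ p₀) (h0 : p₀ ∈ VF F) (h0' : Ψ p₀ = 0) :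
    Conn η (G ∪ S2 ω F e e') pₙ v' := by
  have hsw : ∀ w, Ψ w = 1 → Ψ w + 1 = 0 := by
    intro w h1
    rw [h1]
    decide
  have h := hD.swap.landD (η := η) (G := G) (by rw [S2_comm]; exact hη) (ξ := ξ)
    (by rw [S2_comm]; exact hξ)
    (fun g hg hgF w hw hV => hsw w (hG g hg hgF w hw hV))
    (by rw [hpar, hD.par_v]) (fun hV => hsw _ (hn hV)) hpath h0 (by rw [h0']; decide)
  rwa [S2_comm] at h

/-- A path from `u` to a point which is not in the P sector contains a path in the faces which are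
not visited from an exit of the P sector. -/
theorem Duo.nearP (hD : Duo ω F e e' u v u' v' Φ Ψ) (hη : ∀ f ∈ S2 ω F e e', η f = ω f)
    {z : ℤ × ℤ} (hz : z ∉ VF F) (hpath : Conn η G u z) :
    ∃ y, y ∈ VF F ∧ Φ y = 1 ∧ Ψ y = 0 ∧ par y = par u ∧ (∃ g ∈ G, g ∉ F ∧ IsCor g y) ∧
      Conn η (G \ S2 ω F e e') y z := by
  have hzu : par z = par u := hpath.par_eq.symm
  have key : ∀ p, Conn η G p z →
      ((p ∈ VF F → ¬ (Φ p = 1 ∧ Ψ p = 0)) ∧ Conn η (G \ S2 ω F e e') p z) ∨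
      ∃ y, y ∈ VF F ∧ Φ y = 1 ∧ Ψ y = 0 ∧ par y = par u ∧ (∃ g ∈ G, g ∉ F ∧ IsCor g y) ∧
        Conn η (G \ S2 ω F e e') y z := by
    intro p hp
    induction hp using Relation.ReflTransGen.head_induction_on with
    | refl => exact Or.inl ⟨fun h => absurd h hz, Relation.ReflTransGen.refl⟩
    | head hb hc ih =>
      rename_i p p'
      rcases ih with ⟨h1, h2⟩ | h
      · obtain ⟨g, hg, hbg, hcp, hcp'⟩ := hb.exists_face
        have hp' : par p' = par u := h2.par_eq.trans hzu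
        have hgS : g ∉ SS ω F e := by
          intro hgS
          have h3 := hD.potE.ss_bond hD.je hD.side hgS
            (Bond.congr (hη g (Or.inl hgS)) hbg.symm') hp'
          have h4 := hD.potE'.conn (h3.2.mono SS_sub)
          exact h1 ⟨g, hgS.1, hcp'⟩ ⟨h3.1.trans hD.Φu, h4.symm.trans hD.Ψu⟩
        have hgS' : g ∉ SS ω F e' := by
          intro hgS'
          have h3 := hD.potE'.ss_bond hD.je' hD.side' hgS'
            (Bond.congr (hη g (Or.inr hgS')) hbg.symm') (hp'.trans hD.par_eq)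
          have h4 := hD.potE.conn (h3.2.mono SS_sub)
          exact h1 ⟨g, hgS'.1, hcp'⟩ ⟨h4.symm.trans hD.Φu', h3.1.trans hD.Ψu'⟩
        have hS2 : g ∉ S2 ω F e e' := fun h => h.elim hgS hgS'
        have hconn : Conn η (G \ S2 ω F e e') p z :=
          Relation.ReflTransGen.head (hbg.of_single ⟨hg, hS2⟩) h2
        by_cases hgF : g ∈ F
        · left
          refine ⟨fun _ h3 => h1 ⟨g, hgF, hcp'⟩ ?_, hconn⟩
          rw [← hD.potE.fresh hgF hgS hcp hcp', ← hD.potE'.fresh hgF hgS' hcp hcp']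
          exact h3
        · by_cases h3 : p ∈ VF F ∧ (Φ p = 1 ∧ Ψ p = 0)
          · right
            exact ⟨p, h3.1, h3.2.1, h3.2.2, hconn.par_eq.trans hzu, ⟨g, hg, hgF, hcp⟩, hconn⟩
          · left
            exact ⟨fun h4 h5 => h3 ⟨h4, h5⟩, hconn⟩
      · exact Or.inr h
  rcases key u hpath with h | h
  · exact absurd ⟨hD.Φu, hD.Ψu⟩ (h.1 hD.mem_u)
  · exact h

/-- A path from `v` to a point outside `F` contains a path in the faces which are not visited from an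
exit of the upper D sector to the point or to a vertex of the lower D sector. -/
theorem Duo.nearD (hD : Duo ω F e e' u v u' v' Φ Ψ) (hη : ∀ f ∈ S2 ω F e e', η f = ω f)
    {z : ℤ × ℤ} (hz : z ∉ VF F) (hpath : Conn η G v z) :
    ∃ y z', y ∈ VF F ∧ Φ y = 0 ∧ par y = par v ∧ (∃ g ∈ G, g ∉ F ∧ IsCor g y) ∧
      Conn η (G \ S2 ω F e e') y z' ∧ (z' = z ∨ (z' ∈ VF F ∧ Ψ z' = 1)) := by
  have hzv : par z = par v := hpath.par_eq.symm
  have key : ∀ p, Conn η G p z →
      (∃ z', (p ∈ VF F → Φ p = 1) ∧ Conn η (G \ S2 ω F e e') p z' ∧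
        (z' = z ∨ (z' ∈ VF F ∧ Ψ z' = 1))) ∨
      ∃ y z', y ∈ VF F ∧ Φ y = 0 ∧ par y = par v ∧ (∃ g ∈ G, g ∉ F ∧ IsCor g y) ∧
        Conn η (G \ S2 ω F e e') y z' ∧ (z' = z ∨ (z' ∈ VF F ∧ Ψ z' = 1)) := by
    intro p hp
    induction hp using Relation.ReflTransGen.head_induction_on with
    | refl => exact Or.inl ⟨z, fun h => absurd h hz, Relation.ReflTransGen.refl, Or.inl rfl⟩
    | head hb hc ih =>
      rename_i p p'
      rcases ih with ⟨z', h1, h2, h3⟩ | h
      · obtain ⟨g, hg, hbg, hcp, hcp'⟩ := hb.exists_face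
        have hp' : par p' = par v := (Conn.par_eq hc).trans hzv
        have hpv : par p = par v := hb.par_eq.trans hp'
        have hgS : g ∉ SS ω F e := by
          intro hgS
          have h4 := hD.potE.ss_bond hD.je.symm hD.side hgS
            (Bond.congr (hη g (Or.inl hgS)) hbg.symm') hp'
          have h5 := h1 ⟨g, hgS.1, hcp'⟩
          rw [h4.1, hD.Φv] at h5
          exact absurd h5 (by decide)
        by_cases hgS' : g ∈ SS ω F e'
        · left
          have h4 := hD.potE'.ss_bond hD.je'.symm hD.side' hgS'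
            (Bond.congr (hη g (Or.inr hgS')) hbg) (hpv.trans hD.par_v)
          have h5 := hD.potE.conn (h4.2.mono SS_sub)
          exact ⟨p, fun _ => h5.symm.trans hD.Φv', Relation.ReflTransGen.refl,
            Or.inr ⟨⟨g, hgS'.1, hcp⟩, h4.1.trans hD.Ψv'⟩⟩
        · have hS2 : g ∉ S2 ω F e e' := fun h => h.elim hgS hgS'
          have hconn : Conn η (G \ S2 ω F e e') p z' :=
            Relation.ReflTransGen.head (hbg.of_single ⟨hg, hS2⟩) h2
          by_cases hgF : g ∈ F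
          · left
            refine ⟨z', fun _ => ?_, hconn, h3⟩
            rw [hD.potE.fresh hgF hgS hcp hcp']
            exact h1 ⟨g, hgF, hcp'⟩
          · by_cases h4 : p ∈ VF F ∧ Φ p = 0
            · right
              exact ⟨p, z', h4.1, h4.2, hpv, ⟨g, hg, hgF, hcp⟩, hconn, h3⟩
            · left
              refine ⟨z', fun h5 => ?_, hconn, h3⟩
              rcases z2_cases (Φ p) with h6 | h6
              · exact absurd ⟨h5, h6⟩ h4
              · exact h6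
      · exact Or.inr h
  rcases key v hpath with ⟨z', h1, -⟩ | h
  · have h2 := h1 hD.mem_v
    rw [hD.Φv] at h2
    exact absurd h2 (by decide)
  · exact h

/-- The same for the lower D sector. -/
theorem Duo.nearD' (hD : Duo ω F e e' u v u' v' Φ Ψ) (hη : ∀ f ∈ S2 ω F e e', η f = ω f)
    {z : ℤ × ℤ} (hz : z ∉ VF F) (hpath : Conn η G v' z) :
    ∃ y z', y ∈ VF F ∧ Ψ y = 1 ∧ par y = par v ∧ (∃ g ∈ G, g ∉ F ∧ IsCor g y) ∧
      Conn η (G \ S2 ω F e e') y z' ∧ (z' = z ∨ (z' ∈ VF F ∧ Φ z' = 0)) := by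
  obtain ⟨y, z', h1, h2, h3, h4, h5, h6⟩ := hD.swap.nearD (η := η) (G := G)
    (by rw [S2_comm]; exact hη) hz hpath
  rw [S2_comm] at h5
  refine ⟨y, z', h1, ?_, h3.trans hD.par_v.symm, h4, h5, ?_⟩
  · rcases z2_cases (Ψ y) with h | h
    · rw [h] at h2
      exact absurd h2 (by decide)
    · exact h
  · rcases h6 with h6 | ⟨h6, h7⟩
    · exact Or.inl h6
    · right
      refine ⟨h6, ?_⟩
      rcases z2_cases (Φ z') with h | h
      · exact h
      · rw [h] at h7
        exact absurd h7 (by decide)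

end Pool.Agent.Perc6

end Partperc6Land
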