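import Pool.Agent.Lib.MP_6bd702_zc.Pre
import Pool.Agent.Lib.MP_6bd702_zc.Y025
import Pool.Agent.Lib.MP_6bd702_zc.Y022
import Pool.Agent.Lib.MP_6bd702_zc.Y020
import Pool.Agent.Lib.MP_6bd702_zc.Y017
import Pool.Agent.Lib.MP_6bd702_zc.Y007

section Partperc3T3Defs

/-!
# T3: near touches of two legs across the corridor, lifting of two strands of the twisted plane to
the common cover: definitions

The legs `i`, `i + 1` bound the sector `i`; the corridor is on the other side (it contains the leg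
`i + 2`): on the right of the leg `i` and on the left of the leg `i + 1`.
-/

set_option autoImplicit false

namespace Pool.Agent.Perc.Q

open Finset Pool.Agent.Perc Relation

section general

variable {V Φ : Type}

/-- Two faces have a common side. -/
def AdjQ (Q : QC V Φ) (f g : Φ) : Prop :=
  ∃ k l, Q.c g l = Q.c f (k + 1) ∧ Q.c g (l + 1) = Q.c f k

/-- The faces which are visited by the strand with the bond on its right. -/
def VR (Q : QC V Φ) (ω : Φ → Bool) (F : Set Φ) (e : V × V) : Set Φ :=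
  {f | f ∈ F ∧ ∃ k, (Q.c f k, Q.c f (k + 1)) ∈ Orb Q ω F e ∧ ω f = !ev k}

/-- The faces which are visited by the strand with the bond on its left. -/
def VL (Q : QC V Φ) (ω : Φ → Bool) (F : Set Φ) (e : V × V) : Set Φ :=
  {f | f ∈ F ∧ ∃ k, (Q.c f k, Q.c f (k + 1)) ∈ Orb Q ω F e ∧ ω f = ev k}

/-- The faces of `X` outside `A` which are joined to `B` by a chain of at most `r` faces of `X`
outside `A`. -/
def Zn (Q : QC V Φ) (X A B : Set Φ) : ℕ → Set Φ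
  | 0 => ∅
  | r + 1 => {f | f ∈ X ∧ f ∉ A ∧ ∃ g, AdjQ Q f g ∧ (g ∈ B ∨ g ∈ Zn Q X A B r)}

end general

/-- The faces which are visited by the leg `i` in the box of radius `W`. -/
def VT (W : ℤ) (ω : Cfg) (i : Fin 3) : Set (ℤ × ℤ) := Vis TQ ω (An 0 W) (leg i)

/-- The faces of the annulus `BW w \ BW d` which are close to the leg `i` on its right side. -/
def ZT (r : ℕ) (d w W : ℤ) (ω : Cfg) (i : Fin 3) : Set (ℤ × ℤ) :=
  Zn TQ (An d w) (VT W ω i) (VR TQ ω (An 0 W) (leg i) ∩ An d w) r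

/-- The explored faces: the leg `i`, and the leg `i + 1` until it comes close to the right side of
the leg `i`. -/
def ET (r : ℕ) (d w W : ℤ) (ω : Cfg) (i : Fin 3) : Set (ℤ × ℤ) :=
  VT W ω i ∪ Vis TQ ω (An 0 W \ ZT r d w W ω i) (leg (i + 1))

/-- The leg `i + 1` comes close to the right side of the leg `i`. -/
def NT (r : ℕ) (d w W : ℤ) (i : Fin 3) : Set Cfg :=
  {ω | (VT W ω (i + 1) ∩ ZT r d w W ω i).Nonempty}

/-- The three legs reach the boundary of the box of radius `W`. -/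
def Lea3 (W : ℤ) (ω : Cfg) : Prop := ∀ j : Fin 3, Lea 0 W ω (j : ℕ)

/-- The corner of the face `f` which is an end of its bond. -/
def bnd (ω : Cfg) (f : ℤ × ℤ) : ℤ × ℤ := TQ.c f (if ω f = true then 0 else 1)

/-- The cut: the core edge from `(-2, 0)` to `(-1, 0)` and the vertical unit edges from `(x, 0)` to
`(x, 1)`, `x ≤ -2`. -/
def cutK (p q : ℤ × ℤ) : ZMod 2 :=
  if (p = (-2, 0) ∧ q = (-1, 0)) ∨ (q = (-2, 0) ∧ p = (-1, 0)) ∨
    (p.1 = q.1 ∧ p.1 ≤ -2 ∧ ((p.2 = 0 ∧ q.2 = 1) ∨ (q.2 = 0 ∧ p.2 = 1))) then 1 else 0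

/-- The value of the potential `χ` at the bond of a face; the vertices of the cut are seen from the
side of the face. -/
def hF (χ : ℤ × ℤ → ZMod 2) (ω : Cfg) (f : ℤ × ℤ) : ZMod 2 :=
  χ (bnd ω f) + if 0 ≤ f.2 ∧ (bnd ω f).2 = 0 ∧ (bnd ω f).1 ≤ -2 then 1 else 0

/-- `1` for the lower faces on the negative side. -/
def lv2 (x y : ℤ) : ZMod 2 := if x < 0 ∧ y < 0 then 1 else 0

/-- `h` has the monodromy of the cut on `S` and is otherwise constant at the scale `D`. -/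
def SepH (D : ℤ) (S : Set (ℤ × ℤ)) (h : ℤ × ℤ → ZMod 2) : Prop :=
  ∀ s ∈ S, ∀ s' ∈ S, |s.1 - s'.1| ≤ D → |s.2 - s'.2| ≤ D →
    h s' + lv2 s.1 s'.2 = h s + lv2 s.1 s.2

end Pool.Agent.Perc.Q

namespace Pool.Agent.Perc3

open Finset Pool.Agent.Perc Pool.Agent.Perc.Q Relation

/-- The face `f` is at distance more than `ρ` from `S`. -/
def FreeS (ρ : ℤ) (S : Set (ℤ × ℤ)) (f : ℤ × ℤ) : Prop :=
  ∀ s ∈ S, ρ < max |f.1 - s.1| |f.2 - s.2|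

/-- Chains of neighbouring free faces. -/
def ChainS (ρ : ℤ) (S : Set (ℤ × ℤ)) : ℤ × ℤ → ℤ × ℤ → Prop :=
  Relation.ReflTransGen fun f g => Adj4 f g ∧ FreeS ρ S f ∧ FreeS ρ S g

/-! ### Lifting -/

/-- The side `k` (from the corner `k` to the corner `k + 1`) of the face `f` of the square grid. -/
def sd (f : ℤ × ℤ) (k : ZMod 4) : UE :=
  if k = 0 then bo f else if k = 1 then ri f else if k = 2 then to' f else le' f

/-- The lift of the face `f` of the twisted plane with the index `N f`. -/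
def shF (N : ℤ × ℤ → ℤ) (f : ℤ × ℤ) : LF := ((f.1 - N f, f.2), N f)

/-- The lift of the side `k` of the face `f`. -/
def shS (N : ℤ × ℤ → ℤ) (f : ℤ × ℤ) (k : ZMod 4) : LE := lft (shF N f) (sd (shF N f).1 k)

/-- `N` is compatible with the cover on the faces of `X`. -/
def IsIndT (X : Set (ℤ × ℤ)) (N : ℤ × ℤ → ℤ) : Prop :=
  ∀ f ∈ X, ∀ g ∈ X, ∀ k l, TQ.c g l = TQ.c f (k + 1) → TQ.c g (l + 1) = TQ.c f k →
    shS N f k = shS N g l

/-- The lifted faces over the annulus `BW w \ BW d` of the twisted plane with index at most `n`. -/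
noncomputable def LAT (d w n : ℤ) : Finset LF :=
  ((BW w \ BW d) ×ˢ Icc (-n) n).image fun p => ((p.1.1 - p.2, p.1.2), p.2)

theorem mem_LAT {d w n : ℤ} {s : LF} :
    s ∈ LAT d w n ↔ (pj 1 s ∈ BW w ∧ pj 1 s ∉ BW d) ∧ |s.2| ≤ n := by
  unfold LAT pj
  rw [mem_image, abs_le]
  constructor
  · rintro ⟨⟨⟨x, y⟩, i⟩, hp, rfl⟩
    rw [mem_product, mem_sdiff, mem_Icc] at hp
    simp only at hp ⊢
    rw [one_mul, sub_add_cancel]
    exact hp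
  · obtain ⟨⟨x, y⟩, i⟩ := s
    rintro ⟨h1, h2⟩
    simp only [one_mul] at h1 h2
    refine ⟨((x + i, y), i), ?_, ?_⟩
    · rw [mem_product, mem_sdiff, mem_Icc]
      exact ⟨h1, h2⟩
    · simp only [add_sub_cancel_right]

/-- The boundary edge `t` of the box of radius `r` in the coordinates of its faces. -/
def bdU (r t : ℤ) : UE :=
  if t < r then (r, t, true)
  else if t < 3 * r + 2 then (2 * r - t - 1, r, false)
  else if t < 4 * r + 2 then (-(r + 2), 4 * r + 1 - t, true)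
  else if t < 5 * r + 2 then (-(r + 1), 4 * r + 1 - t, true)
  else if t < 7 * r + 3 then (t - 6 * r - 3, -r, false)
  else (r, t - 8 * r - 3, true)

/-- The lift with index `i` of the boundary edge `t`. -/
def bdL (r t i : ℤ) : LE := (shE (-i) (bdU r t), i)

/-- The lifted component of `e` reaches the inner box. -/
def RinT (ζ : LF → Bool) (d w n : ℤ) (e : LE) : Prop :=
  ∃ s i, (0 ≤ s ∧ s < 8 * d + 3) ∧ bdL d s i ∈ ML ζ (LAT d w n) {e}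

/-- The lifted components of two starting edges on the boundary of `BW w`, with the indices `0` and
`ε`, reach the inner box, they avoid a corridor with at most `m` corners at distance `D`, and the
index of the visited faces is the index with respect to the corridor. -/
def PairT (L d₀ d w n D : ℤ) (m : ℕ) (t₁ t₂ ε : ℤ) : Set (LF → Bool) :=
  {ζ | RinT ζ d w n (bdL w t₁ 0) ∧ RinT ζ d w n (bdL w t₂ ε) ∧
    ∃ (u : ℤ × ℤ) (l : List (ℤ × ℤ)) (μ : ℤ), Corr L L d₀ u l ∧ l.length ≤ m ∧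
      |μ| ≤ m + 6 ∧ ∀ s ∈ SL ζ (LAT d w n) ({bdL w t₁ 0} ∪ {bdL w t₂ ε}), FarP D u l s.1 ∧
        s.2 = ind L L u l s.1 - μ}

end Pool.Agent.Perc3

end Partperc3T3Defs

section PartoccXDefs

/-!
# Two legs with tips in the ports, separated inner tips and good balls: definitions

Outer box `BW w`, inner box `BW d`. The two ports are the heights `w / 4 ≤ y < w / 2` of the right and
of the left side. `Ai` is the mesh at the inner box, `A` the mesh at the outer box.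
-/

set_option autoImplicit false

namespace Pool.Agent.Occ

open Finset Pool.Agent.Perc Pool.Agent.Perc.Q Pool.Agent.Perc3

/-- The lifted boundary edge of the right side at the height `y`. -/
def eR (w y : ℤ) : LE := bdL w y 0

/-- The lifted boundary edge of the left side at the height `y`. -/
def eLf (w y : ℤ) : LE := bdL w (4 * w + 1 - y) 0

/-- The additional conditions on the two lifted components: they are different, the inner tips are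
at distance at least `g` from the special positions and from each other, the visited faces at
distance at most `6 A` of the outer tips have the index `0`. -/
structure AX (ζ : LF → Bool) (A g d w n ya yb : ℤ) : Prop where
  ne : eLf w yb ∉ ML ζ (LAT d w n) {eR w ya}
  away₁ : ∀ s i, 0 ≤ s → s < 8 * d + 3 → bdL d s i ∈ ML ζ (LAT d w n) {eR w ya} → Away d g s
  away₂ : ∀ s i, 0 ≤ s → s < 8 * d + 3 → bdL d s i ∈ ML ζ (LAT d w n) {eLf w yb} → Away d g s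
  near : ∀ s i s' i', 0 ≤ s → s < 8 * d + 3 → bdL d s i ∈ ML ζ (LAT d w n) {eR w ya} →
    0 ≤ s' → s' < 8 * d + 3 → bdL d s' i' ∈ ML ζ (LAT d w n) {eLf w yb} → ¬ Near d g s s'
  ball₁ : ∀ s ∈ SL ζ (LAT d w n) ({eR w ya} ∪ {eLf w yb}), |s.1.1 - w| ≤ 6 * A →
    |s.1.2 - ya| ≤ 6 * A → s.2 = 0
  ball₂ : ∀ s ∈ SL ζ (LAT d w n) ({eR w ya} ∪ {eLf w yb}), |s.1.1 + w| ≤ 6 * A →
    |s.1.2 - yb| ≤ 6 * A → s.2 = 0

/-- The complete event on the cover. `w = N A`, `d = Ni Ai`, `n = 2 m + 12`. -/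
def PX (N A Ni Ai σ : ℤ) (m : ℕ) (ya yb : ℤ) : Set (LF → Bool) :=
  {ζ | ζ ∈ PairT (N * A + σ) (Ni * Ai - σ) (Ni * Ai) (N * A) (2 * m + 12) σ m ya
      (4 * (N * A) + 1 - yb) 0 ∧
    AX ζ A (20 * Ai) (Ni * Ai) (N * A) (2 * m + 12) ya yb}

/-- The pairs of ports of the same parity. -/
noncomputable def Ports (w : ℤ) : Finset (ℤ × ℤ) :=
  ((Ico 0 w) ×ˢ (Ico 0 w)).filter fun p => w ≤ 4 * p.1 ∧ 2 * p.1 < w ∧ w ≤ 4 * p.2 ∧ 2 * p.2 < w ∧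
    (p.1 + p.2) % 2 = 0

/-- The lower bound in the twisted plane. -/
def TTLow : Prop := ∃ (N Ni : ℕ) (c : ℝ), 0 < c ∧ 100 ≤ N ∧ 100 ≤ Ni ∧ ∀ K : ℕ, ∃ Q m a₀ : ℕ,
  100 ≤ Q ∧ ∀ A Ai : ℕ, a₀ ≤ Ai → (Ni + 4) * Ai ≤ A → A ≤ K * Ai →
    16 * (m + 7) ≤ Ai / Q ∧
    c * ((Ai : ℝ) / A) ^ ((2 : ℝ) / 3) ≤ ∑ p ∈ Ports (N * A),
      pr (BW (N * A)) {ω | lcf 1 ω ∈ PX N A Ni Ai ((Ai / Q : ℕ) : ℤ) m p.1 p.2}

/-- The lower bound in the square grid. -/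
def ZLow : Prop := ∃ (N Ni : ℕ) (c : ℝ), 0 < c ∧ 100 ≤ N ∧ 100 ≤ Ni ∧ ∀ K : ℕ, ∃ Q m a₀ : ℕ,
  100 ≤ Q ∧ ∀ A Ai : ℕ, a₀ ≤ Ai → (Ni + 4) * Ai ≤ A → A ≤ K * Ai →
    16 * (m + 7) ≤ Ai / Q ∧ ∀ W : Finset (ℤ × ℤ),
    RF (-(N * A + 2 * m + 14)) (N * A + 2 * m + 12) (-(N * A)) (N * A) ⊆ W →
    c * ((Ai : ℝ) / A) ^ ((2 : ℝ) / 3) ≤ ∑ p ∈ Ports (N * A),
      pr W {ω | lcf 0 ω ∈ PX N A Ni Ai ((Ai / Q : ℕ) : ℤ) m p.1 p.2}

/-! ### The four inputs -/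

/-- `t` is the tip of the leg `i` on the boundary of `BW w`. -/
def TipL (w : ℤ) (ω : Cfg) (i : Fin 3) (t : ℤ) : Prop :=
  (0 ≤ t ∧ t < 8 * w + 3) ∧ (ine w t).swap ∈ Orb TQ ω (BW w) (leg i)

/-- The legs `i` and `i + 1` have their tips in the two ports, of the same parity; the counterclockwise
arc from `t₁` to `t₂` (the upper side) is the sector `i`. -/
def PortEv (w : ℤ) (ω : Cfg) (i : Fin 3) (ya yb : ℤ) : Prop :=
  (ya, yb) ∈ Ports w ∧ TipL w ω i ya ∧ TipL w ω (i + 1) (4 * w + 1 - yb)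

/-- The legs have their tips in the ports. -/
def PortLow : Prop := ∃ (c : ℝ) (w₀ : ℕ), 0 < c ∧ ∀ w : ℕ, w₀ ≤ w →
  c * (w : ℝ) ^ (-(2 / 3) : ℝ) ≤
    pr (BW ((2 * w : ℕ) : ℤ)) {ω | ω ∈ Arm3 ((2 * w : ℕ) : ℤ) ∧ ∃ i ya yb, PortEv w ω i ya yb}

/-- The strand which enters the box of radius `w` at the tip `t` of a leg has its inner tip near a
special position, or near the inner tip of another leg. -/
def CloseL (d w g : ℤ) : Set Cfg :=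
  {ω | ∃ i t s, TipL w ω i t ∧ (0 ≤ s ∧ s < 8 * d + 3) ∧ ine d s ∈ Orb TQ ω (An d w) (ine w t) ∧
    (¬ Away d g s ∨ ∃ j t' s', j ≠ i ∧ TipL w ω j t' ∧ (0 ≤ s' ∧ s' < 8 * d + 3) ∧
      ine d s' ∈ Orb TQ ω (An d w) (ine w t') ∧ Near d g s s')}

/-- Close inner tips are unlikely. -/
def CloseLow : Prop := ∀ q : ℝ, 0 < q → ∃ M : ℕ, 0 < M ∧ ∀ g d w : ℕ, 1 ≤ g → M * g ≤ d →
  4 * d < w → d % 2 = 0 → pr (BW ((2 * w : ℕ) : ℤ)) (Arm3 ((2 * w : ℕ) : ℤ) ∩ CloseL d w g) ≤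
    q * (w : ℝ) ^ (-(2 / 3) : ℝ)

/-- The faces of `BW w` at distance at most `R` of the tip on the right side at the height `y`. -/
noncomputable def FbR (w R y : ℤ) : Finset (ℤ × ℤ) := RF (w - R) w (y - R) (y + R)

/-- The same for the left side. -/
noncomputable def FbL (w R y : ℤ) : Finset (ℤ × ℤ) := RF (-(w + 2)) (-(w + 2) + R) (y - R) (y + R)

/-- Some face visited by the legs before they leave `BW w`, at distance at most `r` of the tip in a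
port, does not belong to the strand of the tip in the half box of radius `w / 8`. -/
def BallBad (w r : ℤ) : Set Cfg :=
  {ω | ∃ i ya yb, PortEv w ω i ya yb ∧
    ((∃ f ∈ Vis TQ ω (BW w) (leg i) ∪ Vis TQ ω (BW w) (leg (i + 1)), f ∈ FbR w r ya ∧
        f ∉ Vis TQ ω (FbR w (w / 8) ya) (ine w ya)) ∨
      ∃ f ∈ Vis TQ ω (BW w) (leg i) ∪ Vis TQ ω (BW w) (leg (i + 1)), f ∈ FbL w r yb ∧
        f ∉ Vis TQ ω (FbL w (w / 8) yb) (ine w (4 * w + 1 - yb)))}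

/-- Bad balls are unlikely. -/
def BallLow : Prop := ∀ q : ℝ, 0 < q → ∃ M w₀ : ℕ, 0 < M ∧ ∀ r w : ℕ, w₀ ≤ w → 1 ≤ r → M * r ≤ w →
  pr (BW ((2 * w : ℕ) : ℤ)) (Arm3 ((2 * w : ℕ) : ℤ) ∩ BallBad w r) ≤ q * (w : ℝ) ^ (-(2 / 3) : ℝ)

end Pool.Agent.Occ

end PartoccXDefs

section PartoccZDefs

/-!
# The window closing: definitions

Cochains mod 2 on the unit edges, dual paths, potentials; the reading of the lifted event in the
square grid (`StrZ`), the corridor as a list of faces (`KapZ`), the tubes.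
-/

set_option autoImplicit false

namespace Pool.Agent.Occ

open Finset Pool.Agent.Perc Pool.Agent.Perc3 Pool.Agent.PercD

/-! ### Cochains mod 2 -/

/-- Cochains. -/
abbrev Co := UE → ZMod 2

/-- The sum over the sides of a face. -/
def bdC (c : Co) (f : ℤ × ℤ) : ZMod 2 := c (bo f) + c (ri f) + (c (to' f) + c (le' f))

/-- `Φ` is a potential of `c` on the faces of `F`. -/
def PotC (F : Set (ℤ × ℤ)) (c : Co) (Φ : ℤ × ℤ → ZMod 2) : Prop :=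
  ∀ f ∈ F, ∀ a, IsSide f a → Φ (ub a) = Φ (ua a) + c a

/-- The indicator of a set of unit edges. -/
noncomputable def cM (M : Set UE) : Co := fun a => ind2 (a ∈ M)

/-- The common side of two neighbouring faces. -/
def cr (f g : ℤ × ℤ) : UE :=
  if g.1 = f.1 + 1 then ri f else if f.1 = g.1 + 1 then le' f else
    if g.2 = f.2 + 1 then to' f else bo f

/-- The unit edges crossed by a dual path, mod 2. -/
noncomputable def xp : List (ℤ × ℤ) → Co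
  | [] => fun _ => 0
  | [_] => fun _ => 0
  | f :: g :: l => fun a => ind2 (a = cr f g) + xp (g :: l) a

/-- The faces of the list are neighbours. -/
def IsCh : List (ℤ × ℤ) → Prop
  | [] => True
  | [_] => True
  | f :: g :: l => Adj4 f g ∧ IsCh (g :: l)

/-! ### Parameters -/

/-- Outer box of radius `w = N A`, inner box of radius `d = Ni Ai`, hole of radius
`R = (Ni - 1) Ai`, bound `n` of the indices, width `σ` of the corridor. -/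
structure Par where
  N : ℤ
  A : ℤ
  Ni : ℤ
  Ai : ℤ
  n : ℤ
  σ : ℤ

namespace Par

variable (g : Par)

/-- Outer radius. -/
def w : ℤ := g.N * g.A
/-- Inner radius. -/
def d : ℤ := g.Ni * g.Ai
/-- Radius of the hole. -/
def R : ℤ := (g.Ni - 1) * g.Ai

/-- Admissible parameters. -/
structure Ok : Prop where
  N1 : 100 ≤ g.N
  Ni1 : 100 ≤ g.Ni
  n1 : 12 ≤ g.n
  σn : 8 * g.n ≤ g.σ
  σA : 100 * g.σ ≤ g.Ai
  AA : (g.Ni + 4) * g.Ai ≤ g.A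

end Par

/-! ### The strands in the square grid -/

/-- The tip on the right side. -/
def tR (w y : ℤ) : UE := (w, y, true)

/-- The tip on the left side. -/
def tL (w y : ℤ) : UE := (-(w + 2), y, true)

/-- All faces except the two faces ahead of the inner tips and the two faces behind the outer
tips. -/
def DZ (w ya yb : ℤ) (a₁ a₂ : ℤ × ℤ) : Set (ℤ × ℤ) :=
  {f | f ≠ a₁ ∧ f ≠ a₂ ∧ f ≠ (w, ya) ∧ f ≠ (-(w + 3), yb)}

/-- The face `f` is in the straight row outside the boundary unit edge `k` of the box of radius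
`R`. -/
def OutR (R k : ℤ) (f : ℤ × ℤ) : Prop :=
  (0 ≤ k ∧ k < R ∧ f.2 = k ∧ R ≤ f.1) ∨
  (R ≤ k ∧ k < 3 * R ∧ f.1 = 2 * R - k - 1 ∧ R ≤ f.2) ∨
  (3 * R ≤ k ∧ k < 5 * R ∧ f.2 = 4 * R - k - 1 ∧ f.1 < -R) ∨
  (5 * R ≤ k ∧ k < 7 * R ∧ f.1 = k - 6 * R ∧ f.2 < -R) ∨
  (7 * R ≤ k ∧ k < 8 * R ∧ f.2 = k - 8 * R ∧ R ≤ f.1)

/-- The dual path `l` leads from the face `a` straight into the hole, through the boundary unit edge
`k`, and to the centre. -/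
structure InL (g : Par) (S : Set (ℤ × ℤ)) (a : ℤ × ℤ) (k : ℤ) (l : List (ℤ × ℤ)) : Prop where
  rng : 0 ≤ k ∧ k < 8 * g.R
  chain : IsCh l
  head : l.head? = some a
  last : l.getLast? = some (-1, 0)
  fresh : ∀ f ∈ l, f ∉ S
  loc : ∀ f ∈ l, f ∈ BR (0, 0) g.R ∨ (OutR g.R k f ∧ f ∈ BR (0, 0) (g.d + 2 * g.n + 4))
  jump : ∀ k', 0 ≤ k' → k' < 8 * g.R → xp l (Perc6.cycE 0 0 0 g.R k') = ind2 (k' = k)

/-- The two strands in the square grid: `aᵢ` is the face ahead of the inner tip `xᵢ`, `S` the set of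
the visited faces. -/
structure StrZ (g : Par) (ω : Cfg) (ya yb : ℤ) (a₁ a₂ : ℤ × ℤ) (x₁ x₂ : UE) (k₁ k₂ : ℤ)
    (l₁ l₂ : List (ℤ × ℤ)) (S : Set (ℤ × ℤ)) : Prop where
  port : (ya, yb) ∈ Ports g.w
  xm₁ : x₁ ∈ MM ω (DZ g.w ya yb a₁ a₂) (tR g.w ya)
  xm₂ : x₂ ∈ MM ω (DZ g.w ya yb a₁ a₂) (tL g.w yb)
  xs₁ : IsSide a₁ x₁
  xs₂ : IsSide a₂ x₂
  only₁ : ∀ a f, (f = a₁ ∨ f = a₂ ∨ f = (g.w, ya) ∨ f = (-(g.w + 3), yb)) → IsSide f a →
    a ∈ MM ω (DZ g.w ya yb a₁ a₂) (tR g.w ya) → (f = a₁ ∧ a = x₁) ∨ (f = (g.w, ya) ∧ a = tR g.w ya)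
  only₂ : ∀ a f, (f = a₁ ∨ f = a₂ ∨ f = (g.w, ya) ∨ f = (-(g.w + 3), yb)) → IsSide f a →
    a ∈ MM ω (DZ g.w ya yb a₁ a₂) (tL g.w yb) →
      (f = a₂ ∧ a = x₂) ∨ (f = (-(g.w + 3), yb) ∧ a = tL g.w yb)
  ne : tL g.w yb ∉ MM ω (DZ g.w ya yb a₁ a₂) (tR g.w ya)
  vis : SS ω (DZ g.w ya yb a₁ a₂) (tR g.w ya) ∪ SS ω (DZ g.w ya yb a₁ a₂) (tL g.w yb) = S
  box : ∀ f ∈ S, -(g.w + 2 + g.n) ≤ f.1 ∧ f.1 < g.w + g.n ∧ -g.w ≤ f.2 ∧ f.2 < g.w
  hole : ∀ f ∈ S, f ∉ BR (0, 0) (g.d - g.n - 2)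
  near₁ : ∀ f ∈ S, |f.1 - g.w| ≤ 5 * g.A → |f.2 - ya| ≤ 5 * g.A → f.1 < g.w
  near₂ : ∀ f ∈ S, |f.1 + g.w| ≤ 5 * g.A → |f.2 - yb| ≤ 5 * g.A → -(g.w + 2) ≤ f.1
  in₁ : InL g S a₁ k₁ l₁
  in₂ : InL g S a₂ k₂ l₂
  sep : 10 * g.Ai ≤ |k₁ - k₂| ∧ |k₁ - k₂| ≤ 8 * g.R - 10 * g.Ai
  cor : ∀ j : ℤ, (j = 1 ∨ j = 3 ∨ j = 5 ∨ j = 7) →
    10 * g.Ai ≤ |k₁ - j * g.R| ∧ 10 * g.Ai ≤ |k₂ - j * g.R|

/-- The visited faces of the lifted components, in the square grid. -/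
def SPZ (w d n : ℤ) (ya yb : ℤ) (ω : Cfg) : Set (ℤ × ℤ) :=
  {f | ∃ s ∈ SL (lcf 0 ω) (LAT d w n) ({eR w ya} ∪ {eLf w yb}), s.1 = f}

/-- The corridor: a dual path from the centre to the face `(0, Y₀ - 1)` below the window. Outside the
hole it does not meet the dual paths `l₁`, `l₂`. -/
structure KapZ (g : Par) (Y₀ ya yb : ℤ) (S : Set (ℤ × ℤ)) (l₁ l₂ : List (ℤ × ℤ)) (k : ℤ)
    (l : List (ℤ × ℤ)) : Prop where
  rng : 0 ≤ k ∧ k < 8 * g.R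
  chain : IsCh l
  head : l.head? = some (-1, 0)
  last : l.getLast? = some (0, Y₀ - 1)
  only : ∀ f ∈ l, f = (0, Y₀ - 1) ∨ Y₀ ≤ f.2
  split : ∃ l' l'', l = l' ++ l'' ∧ (∀ f ∈ l', f ∈ BR (0, 0) g.R) ∧ ∀ f ∈ l'', f ∉ BR (0, 0) g.R
  far : ∀ f ∈ l, ∀ s ∈ S, g.σ / 2 - 2 < max |f.1 - s.1| |f.2 - s.2|
  ball₁ : ∀ f ∈ l, ¬ (|f.1 - g.w| ≤ 5 * g.A ∧ |f.2 - ya| ≤ 5 * g.A)
  ball₂ : ∀ f ∈ l, ¬ (|f.1 + g.w| ≤ 5 * g.A ∧ |f.2 - yb| ≤ 5 * g.A)
  box : ∀ f ∈ l, -(g.w + g.A / 2 + 8) ≤ f.1 ∧ f.1 ≤ g.w + g.A / 2 + 8 ∧ f.2 ≤ g.w + g.A - 2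
  free : ∀ f ∈ l, f ∉ BR (0, 0) g.R → f ∉ l₁ ∧ f ∉ l₂
  side : ∀ f ∈ l, (g.w + g.A / 4 + 2 ≤ f.1 → f.2 < ya) ∧ (f.1 < -(g.w + g.A / 4 + 2) → f.2 < yb)
  low : ∀ f ∈ l, f.2 < -(g.w + g.A) → f.1 = 0
  jump : ∀ k', 0 ≤ k' → k' < 8 * g.R → xp l (Perc6.cycE 0 0 0 g.R k') = ind2 (k' = k)

/-! ### Potentials in the window -/

/-- The row behind the tip on the right side, to the first face outside the window. -/
noncomputable def eRow (w y X : ℤ) : List (ℤ × ℤ) :=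
  (List.range (X - w + 1).toNat).map fun i => (w + i, y)

/-- The row behind the tip on the left side. -/
noncomputable def wRow (w y X : ℤ) : List (ℤ × ℤ) :=
  (List.range (-(w + 3) - (X - 1) + 1).toNat).map fun i => (-(w + 3) - i, y)

/-- The two potentials in the window `[X₀, X₁] × [Y₀, Y₁]`. -/
structure Pots (g : Par) (X₀ X₁ Y₀ Y₁ : ℤ) (ω : Cfg) (ya yb : ℤ) (a₁ a₂ : ℤ × ℤ)
    (l₁ l₂ lk : List (ℤ × ℤ)) (Φ₁ Φ₂ : ℤ × ℤ → ZMod 2) : Prop where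
  p₁ : PotC (RF X₀ X₁ Y₀ Y₁) (fun a => cM (MM ω (DZ g.w ya yb a₁ a₂) (tR g.w ya)) a + xp l₁ a +
    xp (eRow g.w ya X₁) a + xp lk a) Φ₁
  p₂ : PotC (RF X₀ X₁ Y₀ Y₁) (fun a => cM (MM ω (DZ g.w ya yb a₁ a₂) (tL g.w yb)) a + xp l₂ a +
    xp (wRow g.w yb X₀) a + xp lk a) Φ₂
  v₁ : Φ₁ (g.w, ya) = 1 ∧ Φ₂ (g.w, ya) = 0
  v₂ : Φ₁ (-(g.w + 2), yb) = 0 ∧ Φ₂ (-(g.w + 2), yb) = 1
  top : ∀ x, X₀ ≤ x → x ≤ X₁ → Φ₁ (x, Y₁) = 0 ∧ Φ₂ (x, Y₁) = 0
  botR : ∀ x, 1 ≤ x → x ≤ X₁ → Φ₁ (x, Y₀) = 1 ∧ Φ₂ (x, Y₀) = 0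
  botL : ∀ x, X₀ ≤ x → x ≤ 0 → Φ₁ (x, Y₀) = 0 ∧ Φ₂ (x, Y₀) = 1
  right : ∀ y, ya < y → y ≤ Y₁ → Φ₁ ((g.N + 2) * g.A, y) = 0 ∧ Φ₂ ((g.N + 2) * g.A, y) = 0
  left : ∀ y, yb < y → y ≤ Y₁ → Φ₁ (-((g.N + 2) * g.A), y) = 0 ∧ Φ₂ (-((g.N + 2) * g.A), y) = 0
  strip : ∀ x, 1 ≤ x → x ≤ X₁ → Φ₁ (x, -((g.N + 1) * g.A)) = 1 ∧ Φ₂ (x, -((g.N + 1) * g.A)) = 0

/-- The window is large enough. -/
structure WinOk (g : Par) (X₀ X₁ Y₀ Y₁ : ℤ) : Prop where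
  x₀ : X₀ ≤ -((g.N + 4) * g.A)
  x₁ : (g.N + 4) * g.A ≤ X₁
  y₀ : Y₀ ≤ -((g.N + 4) * g.A)
  y₁ : (g.N + 4) * g.A ≤ Y₁

/-! ### Tubes -/

/-- The lower end of the row of the tip. -/
def rw' (A y : ℤ) : ℤ := A * (y / A)

/-- The four rectangles of the leg on the right side. -/
noncomputable def F1 (g : Par) (Y₀ ya : ℤ) : Finset (ℤ × ℤ) :=
  RF ((g.N + 1) * g.A) ((g.N + 2) * g.A) Y₀ (rw' g.A ya - g.A) ∪
  RF ((g.N - 3) * g.A) ((g.N + 2) * g.A) (rw' g.A ya - 2 * g.A) (rw' g.A ya - g.A) ∪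
  RF ((g.N - 3) * g.A) ((g.N - 2) * g.A) (rw' g.A ya - 2 * g.A) (rw' g.A ya + 3 * g.A) ∪
  RF ((g.N - 3) * g.A) ((g.N + 2) * g.A) (rw' g.A ya + 2 * g.A) (rw' g.A ya + 3 * g.A)

/-- The leg on the right side. -/
def D1 (g : Par) (c Y₀ ya : ℤ) : Set Cfg :=
  BT c ((g.N + 1) * g.A) ((g.N + 2) * g.A) Y₀ (rw' g.A ya - g.A) ∩
  LR c ((g.N - 3) * g.A) ((g.N + 2) * g.A) (rw' g.A ya - 2 * g.A) (rw' g.A ya - g.A) ∩
  BT c ((g.N - 3) * g.A) ((g.N - 2) * g.A) (rw' g.A ya - 2 * g.A) (rw' g.A ya + 3 * g.A) ∩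
  LR c ((g.N - 3) * g.A) ((g.N + 2) * g.A) (rw' g.A ya + 2 * g.A) (rw' g.A ya + 3 * g.A)

/-- The four rectangles of the leg on the left side. -/
noncomputable def F2 (g : Par) (Y₀ yb : ℤ) : Finset (ℤ × ℤ) :=
  RF (-((g.N + 2) * g.A)) (-((g.N + 1) * g.A)) Y₀ (rw' g.A yb - g.A) ∪
  RF (-((g.N + 2) * g.A)) (-((g.N - 3) * g.A)) (rw' g.A yb - 2 * g.A) (rw' g.A yb - g.A) ∪
  RF (-((g.N - 2) * g.A)) (-((g.N - 3) * g.A)) (rw' g.A yb - 2 * g.A) (rw' g.A yb + 3 * g.A) ∪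
  RF (-((g.N + 2) * g.A)) (-((g.N - 3) * g.A)) (rw' g.A yb + 2 * g.A) (rw' g.A yb + 3 * g.A)

/-- The leg on the left side. -/
def D2 (g : Par) (c Y₀ yb : ℤ) : Set Cfg :=
  BT c (-((g.N + 2) * g.A)) (-((g.N + 1) * g.A)) Y₀ (rw' g.A yb - g.A) ∩
  LR c (-((g.N + 2) * g.A)) (-((g.N - 3) * g.A)) (rw' g.A yb - 2 * g.A) (rw' g.A yb - g.A) ∩
  BT c (-((g.N - 2) * g.A)) (-((g.N - 3) * g.A)) (rw' g.A yb - 2 * g.A) (rw' g.A yb + 3 * g.A) ∩
  LR c (-((g.N + 2) * g.A)) (-((g.N - 3) * g.A)) (rw' g.A yb + 2 * g.A) (rw' g.A yb + 3 * g.A)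

/-- The faces of the P strip. -/
noncomputable def FP (g : Par) (Y₁ : ℤ) : Finset (ℤ × ℤ) :=
  RF ((g.N - 20) * g.A) ((g.N - 19) * g.A) (-((g.N + 1) * g.A)) Y₁

/-- The P strip. -/
def PS (g : Par) (c Y₁ : ℤ) : Set Cfg :=
  BT c ((g.N - 20) * g.A) ((g.N - 19) * g.A) (-((g.N + 1) * g.A)) Y₁

/-- The cell of the side `s` (right, upper, left, lower) in the layer `r` at the position `i`. -/
def ceS (s : Fin 4) (r i : ℤ) : ℤ × ℤ := ![(r, i), (i, r), (-r - 1, i), (i, -r - 1)] s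

/-- The cells of the layer `r`. -/
noncomputable def lay (r : ℤ) : Finset (ℤ × ℤ) :=
  ((Icc (-r - 1) r) ×ˢ (Icc (-r - 1) r)).filter fun c =>
    c.1 = r ∨ c.1 = -r - 1 ∨ c.2 = r ∨ c.2 = -r - 1

/-- The cells of the D ring with the gate at the position `i` of the side `s`. -/
noncomputable def RD (g : Par) (s : Fin 4) (i : ℤ) : Finset (ℤ × ℤ) :=
  (lay (g.Ni + 1)).erase (ceS s (g.Ni + 1) i) ∪
    {ceS s g.Ni (i - 1), ceS s (g.Ni - 1) (i - 1), ceS s g.Ni (i + 1), ceS s (g.Ni - 1) (i + 1)}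

/-- The gate is not near a corner of the hole. -/
def GateOk (g : Par) (i : ℤ) : Prop := -(g.Ni - 1) + 2 ≤ i ∧ i ≤ g.Ni - 2 - 2

/-- The faces of the D ring. -/
noncomputable def FR (g : Par) (s : Fin 4) (i : ℤ) : Finset (ℤ × ℤ) :=
  Perc6.cellsF 0 0 g.Ai (RD g s i)

end Pool.Agent.Occ

end PartoccZDefs
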