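import Pool.Agent.Lib.MP_6bd702_zc.Pre
import Pool.Agent.Lib.MP_6bd702_zc.Y026
import Pool.Agent.Lib.MP_6bd702_zc.Y021
import Pool.Agent.Lib.MP_6bd702_zc.Y017
import Pool.Agent.Lib.MP_6bd702_z.Z033
import Pool.Agent.Lib.MP_6bd702_z.Z032
import Pool.Agent.Lib.MP_6bd702_z.Z023
import Pool.Agent.Lib.MP_6bd702_zc.Y028

section Partperc3T2Mono

/-!
# Crossing strands: elementary facts
-/

set_option autoImplicit false

namespace Pool.Agent.Perc.Q

open Finset Pool.Agent.Perc Relation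

variable {d d' w : ℤ} {ω ω' : Cfg} {t : ℤ} {T : Fin 3 → ℤ} {a : (ℤ × ℤ) × (ℤ × ℤ)}

theorem An_finite (d w : ℤ) : (An d w).Finite := (BW w).finite_toSet.subset Set.diff_subset

theorem An_mono (h : d ≤ d') : An d' w ⊆ An d w := fun _ hf => ⟨hf.1, fun h1 => hf.2 (BW_mono h h1)⟩

/-- An outer boundary edge is not terminal. -/
theorem not_ter_outer (hd : 0 ≤ d) (hdw : d < w) (h0 : 0 ≤ t) (h1 : t < 8 * w + 3) :
    ¬ Ter TQ (An d w) (ine w t) := by
  obtain ⟨f, hf, hf', k, hk⟩ := ine_face (r := w) (by omega) h0 h1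
  intro h
  exact h f ⟨hf, fun h3 => hf' (BW_mono (by omega) h3)⟩ k hk

/-- The last element of the strand of an outer boundary edge. -/
theorem ter_an_cases (hd : 0 ≤ d) (hdw : d < w) (h0 : 0 ≤ t) (h1 : t < 8 * w + 3)
    (ha : a ∈ Orb TQ ω (An d w) (ine w t)) (hT : Ter TQ (An d w) a) :
    (∃ s, 0 ≤ s ∧ s < 8 * d + 3 ∧ a = ine d s) ∨
      ∃ s, 0 ≤ s ∧ s < 8 * w + 3 ∧ a = (ine w s).swap := by
  rcases Orb_pred ha with h | ⟨b, -, f, hf, k, -, ⟨-, h⟩ | ⟨-, h⟩⟩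
  · exact absurd (h ▸ hT) (not_ter_outer hd hdw h0 h1)
  · have h2 : a = (TQ.c f (k + 1 + 1), TQ.c f (k + 1)) := by rw [z1]; exact h
    rw [h2] at hT
    rw [h2]
    exact ter_annulus hd hdw hf hT
  · have h2 : a = (TQ.c f (k + 3 + 1), TQ.c f (k + 3)) := by rw [z5]; exact h
    rw [h2] at hT
    rw [h2]
    exact ter_annulus hd hdw hf hT

/-- A strand which does not return to the outer boundary reaches the inner box. -/
theorem rea_of_not_out (hd : 0 ≤ d) (hdw : d < w) (h0 : 0 ≤ t) (h1 : t < 8 * w + 3)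
    (h : ∀ s, 0 ≤ s → s < 8 * w + 3 → (ine w s).swap ∉ Orb TQ ω (An d w) (ine w t)) :
    Rea d w ω t := by
  obtain ⟨a, ha, hT⟩ := exists_ter (ω := ω) (An_finite d w) (ini_outer hd hdw h0 h1)
  rcases ter_an_cases hd hdw h0 h1 ha hT with ⟨s, hs0, hs1, rfl⟩ | ⟨s, hs0, hs1, rfl⟩
  · exact ⟨s, hs0, hs1, ha⟩
  · exact absurd ha (h s hs0 hs1)

/-- A strand which reaches the inner box does not return to the outer boundary. -/
theorem Rea.not_out (hd : 0 ≤ d) (hdw : d < w) (h : Rea d w ω t) {s : ℤ} (hs0 : 0 ≤ s)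
    (hs1 : s < 8 * w + 3) : (ine w s).swap ∉ Orb TQ ω (An d w) (ine w t) := by
  intro hs
  obtain ⟨x, hx0, hx1, hx⟩ := h
  have h2 : Ter TQ (An d w) (ine w s).swap := (ini_outer hd hdw hs0 hs1).ter_swap
  have h3 : Ter TQ (An d w) (ine d x) := by
    have := (ini_inner hd hdw hx0 hx1).ter_swap
    rwa [Prod.swap_swap] at this
  have h4 := ter_unique hx hs h3 h2
  exact bd_ne hd hdw hx0 hx1.le (by omega) (by omega : s + 1 ≤ 8 * w + 3) (Prod.mk.inj h4).1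

theorem rea_mono (hd : 0 ≤ d) (h : d ≤ d') (hdw : d' < w) (h0 : 0 ≤ t) (h1 : t < 8 * w + 3)
    (hr : Rea d w ω t) : Rea d' w ω t :=
  rea_of_not_out (hd.trans h) hdw h0 h1 fun _ hs0 hs1 hs =>
    hr.not_out hd (h.trans_lt hdw) hs0 hs1 (Orb_mono (An_mono h) hs)

theorem rea3_mono (hd : 0 ≤ d) (h : d ≤ d') (hdw : d' < w) (hT : Alt w T)
    (hr : ω ∈ Rea3 d w T) : ω ∈ Rea3 d' w T :=
  fun i => rea_mono hd h hdw (hT.mem i).1 (hT.mem i).2 (hr i)

theorem rea_congr (h : ∀ f ∈ An d w, ω f = ω' f) : Rea d w ω t ↔ Rea d w ω' t := by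
  unfold Rea
  rw [Orb_congr (ω := ω) (ω' := ω') fun f hf => h f (Vis_sub hf)]

theorem depOn_rea3 (d w : ℤ) (T : Fin 3 → ℤ) :
    DepOn ((BW w \ BW d : Finset (ℤ × ℤ)) : Set (ℤ × ℤ)) (Rea3 d w T) := by
  intro ω ω' h
  rw [coe_sdiff] at h
  exact forall_congr' fun i => rea_congr h

theorem TipI.unique {i : Fin 3} {s s' : ℤ} (hd : 0 ≤ d) (hdw : d < w)
    (h : TipI d w ω T i s) (h' : TipI d w ω T i s') : s = s' := by
  refine ine_inj hd h.1 h.2.1 h'.1 h'.2.1 (ter_unique h.2.2 h'.2.2 ?_ ?_)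
  · have := (ini_inner hd hdw h.1 h.2.1).ter_swap
    rwa [Prod.swap_swap] at this
  · have := (ini_inner hd hdw h'.1 h'.2.1).ter_swap
    rwa [Prod.swap_swap] at this

theorem exists_tip (h : ω ∈ Rea3 d w T) : ∃ s : Fin 3 → ℤ, ∀ i, TipI d w ω T i (s i) := by
  choose s hs using h
  exact ⟨s, hs⟩

/-- The three cases. -/
theorem cases_tips {g : ℤ} (hg : 1 ≤ g) (h : ω ∈ Rea3 d w T) :
    ω ∈ CloseI d w g T ∨ ω ∈ SpecI d w g T ∨ ω ∈ SepI d w g T := by
  obtain ⟨s, hs⟩ := exists_tip h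
  by_cases h1 : ω ∈ CloseI d w g T
  · exact Or.inl h1
  by_cases h2 : ω ∈ SpecI d w g T
  · exact Or.inr (Or.inl h2)
  refine Or.inr (Or.inr ⟨s, fun i => ⟨hs i, ?_⟩, fun i j hij => ?_⟩)
  · by_contra hcon
    exact h2 ⟨h, i, s i, hs i, hcon⟩
  · by_contra hcon
    exact h1 ⟨h, i, j, s i, s j, hij, hs i, hs j, Or.inl (by omega)⟩

theorem aT_nonneg (d w : ℤ) : 0 ≤ aT d w := sum_nonneg fun _ _ => pr_nonneg _ _

theorem aT_mono (hd : 0 ≤ d) (h : d ≤ d') (hdw : d' < w) : aT d w ≤ aT d' w :=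
  sum_le_sum fun _ ht => pr_mono _ fun _ hω => rea3_mono hd h hdw (mem_TA.1 ht) hω

/-- Independence of the annulus and of the inner box. -/
theorem pr_rea3_inter (h : d ≤ w) {A : Set Cfg} (hA : DepOn (BW d : Set (ℤ × ℤ)) A) :
    pr (BW w) (Rea3 d w T ∩ A) = pr (BW w) (Rea3 d w T) * pr (BW d) A := by
  have e : BW w \ BW d ∪ BW d = BW w := sdiff_union_of_subset (BW_mono h)
  have h1 := pr_inter_of_disjoint (depOn_rea3 d w T) hA sdiff_disjoint
  rw [e] at h1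
  rw [h1, pr_eq_of_depOn (depOn_rea3 d w T) sdiff_subset]

end Pool.Agent.Perc.Q

end Partperc3T2Mono

section Partperc3TTBd

/-!
# The components of the strip which reach the inner box and the crossing strands of the annuli

A component which starts at the lower or upper side of the strip and reaches the box of radius `r`
contains a strand which crosses the annulus `BW w' \ BW r`, `w' < w`, from outside to inside, and
different components contain different strands.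
-/

set_option autoImplicit false

namespace Pool.Agent.Perc.TTBd

open Finset Pool.Agent.Perc Pool.Agent.Perc.Q Relation
open Pool.Agent.Perc3 (ReachT TBT mem_TBT)

variable {ω : Cfg} {F : Set (ℤ × ℤ)} {e p p' q a b t : TE} {f g : ℤ × ℤ} {r w w' L M : ℤ}

/-! ### Sides -/

theorem twE_bo (f : ℤ × ℤ) : twE emP f (bo f) = (TQ.c f 0, TQ.c f 1) := by
  change _ = (corT emP f 0, corT emP f 1)
  unfold twE corT
  split_ifs <;> rfl

theorem twE_ri (f : ℤ × ℤ) : twE emP f (ri f) = (TQ.c f 1, TQ.c f 2) := by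
  change _ = (corT emP f 1, corT emP f 2)
  unfold twE corT
  split_ifs <;> rfl

theorem twE_to (f : ℤ × ℤ) : twE emP f (to' f) = (TQ.c f 3, TQ.c f 2) := by
  change _ = (corT emP f 3, corT emP f 2)
  unfold twE corT
  split_ifs <;> rfl

theorem twE_le (f : ℤ × ℤ) : twE emP f (le' f) = (TQ.c f 0, TQ.c f 3) := by
  change _ = (corT emP f 0, corT emP f 3)
  unfold twE corT
  split_ifs <;> rfl

theorem side_cases (h : IsSideW emP g p) :
    ∃ m, p = (TQ.c g m, TQ.c g (m + 1)) ∨ p = (TQ.c g (m + 1), TQ.c g m) := by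
  obtain ⟨a, rfl | rfl | rfl | rfl, rfl⟩ := h
  · exact ⟨0, Or.inl (twE_bo g)⟩
  · exact ⟨3, Or.inr (twE_le g)⟩
  · exact ⟨2, Or.inr (twE_to g)⟩
  · exact ⟨1, Or.inl (twE_ri g)⟩

/-- The matching preserves the unit edges of a strand. -/
theorem un_step (he : Ini TQ F e) (hf : f ∈ F) (h : MtW emP ω f p p') (hp : p ∈ Un TQ ω F e) :
    p' ∈ Un TQ ω F e := by
  obtain ⟨a, a', hm, rfl, rfl⟩ := h
  have s1 : ∀ k l, (TQ.c f k, TQ.c f l) ∈ Un TQ ω F e ↔ (TQ.c f l, TQ.c f k) ∈ Un TQ ω F e :=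
    fun k l => (Un_swap (a := (TQ.c f l, TQ.c f k)))
  rcases hm with ⟨h0, h⟩ | ⟨h0, h⟩
  · have u0 := un_iff (k := 0) (ω := ω) he hf h0
    have u2 := un_iff (k := 2) (ω := ω) he hf h0
    change (TQ.c f 0, TQ.c f 1) ∈ _ ↔ (TQ.c f 1, TQ.c f 2) ∈ _ at u0
    change (TQ.c f 2, TQ.c f 3) ∈ _ ↔ (TQ.c f 3, TQ.c f 0) ∈ _ at u2
    rcases h with ⟨rfl, rfl⟩ | ⟨rfl, rfl⟩ | ⟨rfl, rfl⟩ | ⟨rfl, rfl⟩
    · rw [twE_bo] at hp
      rw [twE_ri]
      exact u0.1 hp
    · rw [twE_ri] at hp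
      rw [twE_bo]
      exact u0.2 hp
    · rw [twE_le, s1] at hp
      rw [twE_to, s1]
      exact u2.2 hp
    · rw [twE_to, s1] at hp
      rw [twE_le, s1]
      exact u2.1 hp
  · have u1 := un_iff (k := 1) (ω := ω) he hf h0
    have u3 := un_iff (k := 3) (ω := ω) he hf h0
    change (TQ.c f 1, TQ.c f 2) ∈ _ ↔ (TQ.c f 2, TQ.c f 3) ∈ _ at u1
    change (TQ.c f 3, TQ.c f 0) ∈ _ ↔ (TQ.c f 0, TQ.c f 1) ∈ _ at u3
    rcases h with ⟨rfl, rfl⟩ | ⟨rfl, rfl⟩ | ⟨rfl, rfl⟩ | ⟨rfl, rfl⟩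
    · rw [twE_bo] at hp
      rw [twE_le, s1]
      exact u3.2 hp
    · rw [twE_le, s1] at hp
      rw [twE_bo]
      exact u3.1 hp
    · rw [twE_to, s1] at hp
      rw [twE_ri]
      exact u1.2 hp
    · rw [twE_ri] at hp
      rw [twE_to, s1]
      exact u1.1 hp

theorem mmw_sub (he : Ini TQ F e) (ht : t ∈ Un TQ ω F e) (hp : p ∈ MMW emP ω F t) :
    p ∈ Un TQ ω F e := by
  induction hp with
  | refl => exact ht
  | tail _ hs ih =>
    obtain ⟨f, hf, hm⟩ := hs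
    exact un_step he hf hm ih

theorem left_of_nx {k : ZMod 4} (h : (ω f = ev k ∧ b = (TQ.c f (k + 2), TQ.c f (k + 1))) ∨
      (ω f = !ev k ∧ b = (TQ.c f k, TQ.c f (k + 3)))) :
    ∃ l, b = (TQ.c f (l + 1), TQ.c f l) := by
  rcases h with ⟨-, h⟩ | ⟨-, h⟩
  · exact ⟨k + 1, by rw [z1]; exact h⟩
  · exact ⟨k + 3, by rw [z5]; exact h⟩

/-- A strand outside the box which contains a side of the box enters the box. -/
theorem entry (hr : 0 ≤ r) (hF : ∀ f ∈ F, f ∉ BW r)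
    (hq : ∀ g ∈ BW r, ∀ m, q ≠ (TQ.c g m, TQ.c g (m + 1)) ∧ q ≠ (TQ.c g (m + 1), TQ.c g m))
    (ha : a ∈ Orb TQ ω F q) (hg : g ∈ BW r)
    (hs : ∃ m, a = (TQ.c g m, TQ.c g (m + 1)) ∨ a = (TQ.c g (m + 1), TQ.c g m)) :
    ∃ s, 0 ≤ s ∧ s < 8 * r + 3 ∧ ine r s ∈ Orb TQ ω F q := by
  obtain ⟨m, hs⟩ := hs
  rcases Orb_pred ha with rfl | ⟨b, -, f, hf, k, -, h⟩
  · exact absurd hs (not_or.2 (hq g hg m))
  · obtain ⟨l, hl⟩ := left_of_nx h
    rcases hs with hs | hs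
    · have h1 : (TQ.c f l, TQ.c f (l + 1)) = (TQ.c g (m + 1), TQ.c g m) := by
        rw [hs] at hl
        obtain ⟨h2, h3⟩ := Prod.mk.inj hl
        rw [h2, h3]
      obtain ⟨s, h2, h3, h4⟩ := ine_of_side hr hg (hF f hf) h1
      refine ⟨s, h2, h3, ?_⟩
      rw [← h4, ← hs]
      exact ha
    · exfalso
      rw [hs] at hl
      obtain ⟨h2, h3⟩ := Prod.mk.inj hl
      have h4 := (TQ.inj h3 h2).1
      rw [h4] at hg
      exact hF f hf hg

/-- The last passage through the boundary of the box of radius `w'`. -/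
theorem middle (hw : 0 ≤ w') (hF : ∀ f ∈ F, f ∉ BW r)
    (hq : ∀ g ∈ BW w', ∀ k, q ≠ (TQ.c g k, TQ.c g (k + 1))) (ha : a ∈ Orb TQ ω F q) :
    (∃ t, 0 ≤ t ∧ t < 8 * w' + 3 ∧ ine w' t ∈ Orb TQ ω F q ∧
      a ∈ Orb TQ ω (An r w') (ine w' t)) ∨ ∀ g ∈ BW w', ∀ k, a ≠ (TQ.c g k, TQ.c g (k + 1)) := by
  induction ha with
  | refl => exact Or.inr hq
  | @tail b c hb hs ih =>
    obtain ⟨f, hf, k, hk, hh⟩ := hs
    obtain ⟨l, hl⟩ := left_of_nx hh
    have hc : c ∈ Orb TQ ω F q := Orb_step hb ⟨f, hf, k, hk, hh⟩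
    by_cases hfw : f ∈ BW w'
    · rcases ih with ⟨t, h0, h1, h2, h3⟩ | ih
      · exact Or.inl ⟨t, h0, h1, h2, Orb_step h3 ⟨f, ⟨hfw, hF f hf⟩, k, hk, hh⟩⟩
      · exact absurd hk (ih f hfw k)
    · by_cases hex : ∃ g ∈ BW w', ∃ m, c = (TQ.c g m, TQ.c g (m + 1))
      · obtain ⟨g, hg, m, hm⟩ := hex
        have h1 : (TQ.c f l, TQ.c f (l + 1)) = (TQ.c g (m + 1), TQ.c g m) := by
          rw [hm] at hl
          obtain ⟨h2, h3⟩ := Prod.mk.inj hl
          rw [h2, h3]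
        obtain ⟨s, h2, h3, h4⟩ := ine_of_side hw hg hfw h1
        have h5 : c = ine w' s := by rw [← h4, ← hm]
        refine Or.inl ⟨s, h2, h3, ?_, ?_⟩
        · rw [← h5]; exact hc
        · rw [h5]; exact mem_Orb_self
      · push Not at hex
        exact Or.inr hex

/-! ### The starting edges -/

/-- The inward direction of an edge of the lower or upper side of the strip. -/
def ori (t : TE) : TE := if t.1.2 < 0 then t else t.swap

theorem ori_bot {x : ℤ} (hw : 0 < w) : ori ((x, -w), (x + 1, -w)) = ((x, -w), (x + 1, -w)) :=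
  if_pos (by simp only; omega)

theorem ori_top {x : ℤ} (hw : 0 < w) : ori ((x, w), (x + 1, w)) = ((x + 1, w), (x, w)) :=
  if_neg (by simp only; omega)

theorem ori_inj (hw : 0 < w) {t t' : TE} (ht : t ∈ TBT M w) (ht' : t' ∈ TBT M w)
    (h : ori t = ori t') : t = t' := by
  rw [mem_TBT] at ht ht'
  obtain ⟨x, -, rfl | rfl⟩ := ht <;> obtain ⟨x', -, rfl | rfl⟩ := ht' <;>
    simp only [ori_bot hw, ori_top hw, Prod.mk.injEq, and_true] at h ⊢ <;> omega

theorem ini_ori (hw : 0 < w) (ht : t ∈ TBT M w) (hF : ∀ f ∈ F, -w ≤ f.2 ∧ f.2 < w) :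
    Ini TQ F (ori t) := by
  rw [mem_TBT] at ht
  intro f hf k h
  have hf' := hF f hf
  obtain ⟨a1, b1, e1, y1, x1⟩ := BdAux.c_spec f k
  obtain ⟨a2, b2, e2, y2, x2⟩ := BdAux.c_spec f (k + 1)
  obtain ⟨x, -, rfl | rfl⟩ := ht
  · rw [ori_bot hw] at h
    obtain ⟨h3, h4⟩ := Prod.mk.inj h
    rw [← h3] at y2 x2
    rw [← h4] at y1 x1
    rcases BdAux.zk k with rfl | rfl | rfl | rfl <;>
    simp only [BdAux.zk0, BdAux.zk1, BdAux.zk2, BdAux.zk3, BdAux.zn01, BdAux.zn02, BdAux.zn03,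
      BdAux.zn10, BdAux.zn12, BdAux.zn13, BdAux.zn20, BdAux.zn21, BdAux.zn23, BdAux.zn30,
      BdAux.zn31, BdAux.zn32, false_and, true_and, or_false, false_or] at e1 e2 <;>
    obtain ⟨rfl, rfl⟩ := e1 <;> obtain ⟨rfl, rfl⟩ := e2 <;> simp only at x1 x2 y1 y2 <;> omega
  · rw [ori_top hw] at h
    obtain ⟨h3, h4⟩ := Prod.mk.inj h
    rw [← h3] at y2 x2
    rw [← h4] at y1 x1
    rcases BdAux.zk k with rfl | rfl | rfl | rfl <;>
    simp only [BdAux.zk0, BdAux.zk1, BdAux.zk2, BdAux.zk3, BdAux.zn01, BdAux.zn02, BdAux.zn03,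
      BdAux.zn10, BdAux.zn12, BdAux.zn13, BdAux.zn20, BdAux.zn21, BdAux.zn23, BdAux.zn30,
      BdAux.zn31, BdAux.zn32, false_and, true_and, or_false, false_or] at e1 e2 <;>
    obtain ⟨rfl, rfl⟩ := e1 <;> obtain ⟨rfl, rfl⟩ := e2 <;> simp only at x1 x2 y1 y2 <;> omega

/-- The starting edge is not a side of a face of the box. -/
theorem ori_ne (hw' : 0 ≤ w') (hw : w' < w) (ht : t ∈ TBT M w) (hg : g ∈ BW w') (k : ZMod 4)
    (v : ℤ × ℤ) : ori t ≠ (TQ.c g k, v) ∧ ori t ≠ (v, TQ.c g k) := by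
  have h1 := inW_corner hw' hg k
  rw [mem_TBT] at ht
  unfold InW at h1
  obtain ⟨x, -, rfl | rfl⟩ := ht
  · rw [ori_bot (by omega)]
    constructor
    · intro h
      rw [← (Prod.mk.inj h).1] at h1
      simp only at h1
      omega
    · intro h
      rw [← (Prod.mk.inj h).2] at h1
      simp only at h1
      omega
  · rw [ori_top (by omega)]
    constructor
    · intro h
      rw [← (Prod.mk.inj h).1] at h1
      simp only at h1
      omega
    · intro h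
      rw [← (Prod.mk.inj h).2] at h1
      simp only at h1
      omega

theorem self_un (t : TE) : t ∈ Un TQ ω F (ori t) := by
  unfold ori
  split_ifs
  · exact Or.inl mem_Orb_self
  · exact Or.inr mem_Orb_self

/-- A component which reaches the inner box contains a crossing strand. -/
theorem exists_rea (hr : 0 < r) (hrw : r < w') (hw : w' < w) (ht : t ∈ TBT M w)
    (h : ReachT ω L w r t) :
    ∃ s, 0 ≤ s ∧ s < 8 * w' + 3 ∧ Rea r w' ω s ∧
      ine w' s ∈ Orb TQ ω (RF (-L) L (-w) w \ BW r : Finset (ℤ × ℤ)) (ori t) := by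
  obtain ⟨p, hp, g, hg, hs⟩ := h
  set F : Set (ℤ × ℤ) := ((RF (-L) L (-w) w \ BW r : Finset (ℤ × ℤ)) : Set (ℤ × ℤ)) with hFd
  have hF : ∀ f ∈ F, f ∉ BW r := by
    intro f hf
    rw [hFd, mem_coe, mem_sdiff] at hf
    exact hf.2
  have hF2 : ∀ f ∈ F, -w ≤ f.2 ∧ f.2 < w := by
    intro f hf
    rw [hFd, mem_coe, mem_sdiff, mem_RF] at hf
    exact ⟨hf.1.2.2.1, hf.1.2.2.2⟩
  have hini : Ini TQ F (ori t) := ini_ori (by omega) ht hF2
  have hpu : p ∈ Un TQ ω F (ori t) := mmw_sub hini (self_un t) hp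
  obtain ⟨m, hm⟩ := side_cases hs
  have hne : ∀ g ∈ BW r, ∀ m, ori t ≠ (TQ.c g m, TQ.c g (m + 1)) ∧
      ori t ≠ (TQ.c g (m + 1), TQ.c g m) := fun g hg m =>
    ⟨(ori_ne hr.le (hrw.trans hw) ht hg m _).1, (ori_ne hr.le (hrw.trans hw) ht hg m _).2⟩
  obtain ⟨s, hs0, hs1, hs2⟩ : ∃ s, 0 ≤ s ∧ s < 8 * r + 3 ∧ ine r s ∈ Orb TQ ω F (ori t) := by
    rcases hpu with h1 | h1
    · exact entry hr.le hF hne h1 hg ⟨m, hm⟩
    · refine entry hr.le hF hne h1 hg ⟨m, ?_⟩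
      rcases hm with hm | hm
      · right; rw [hm]; rfl
      · left; rw [hm]; rfl
  rcases middle (w' := w') (by omega) hF
    (fun g hg k => (ori_ne (by omega) hw ht hg k _).1) hs2 with ⟨x, h0, h1, h2, h3⟩ | h
  · exact ⟨x, h0, h1, ⟨s, hs0, hs1, h3⟩, h2⟩
  · exfalso
    obtain ⟨g', hg', -, k, hk⟩ := ine_face hr hs0 hs1
    exact h g' (BW_mono hrw.le hg') k hk

/-! ### The sum -/

theorem sum_ite_le {α β : Type} {I : Finset α} {J : Finset β} {P : α → Prop} {P' : β → Prop}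
    {dP : DecidablePred P} {dP' : DecidablePred P'} (f : α → β)
    (h1 : ∀ i ∈ I, P i → f i ∈ J ∧ P' (f i))
    (h2 : ∀ i ∈ I, ∀ j ∈ I, P i → P j → f i = f j → i = j) :
    ∑ i ∈ I, (if P i then (1 : ℝ) else 0) ≤ ∑ j ∈ J, if P' j then (1 : ℝ) else 0 := by
  rw [Finset.sum_boole, Finset.sum_boole]
  refine Nat.cast_le.2 (Finset.card_le_card_of_injOn f ?_ ?_)
  · intro i hi
    rw [mem_coe, mem_filter] at hi ⊢
    exact h1 i hi.1 hi.2
  · intro i hi j hj he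
    rw [mem_coe, mem_filter] at hi hj
    exact h2 i hi.1 j hj.1 hi.2 hj.2 he

theorem depOn_rea2 (d w s s' : ℤ) :
    DepOn (BW w : Set (ℤ × ℤ)) {ω | Rea d w ω s ∧ Rea d w ω s'} := by
  intro ω ω' h
  exact and_congr (rea_congr fun f hf => h f hf.1) (rea_congr fun f hf => h f hf.1)

/-- The expected number of pairs of components of the strip is at most the expected number of pairs
of crossing strands. -/
theorem sum_reach_le (hr : 0 < r) (hrw : r < w') (hw : w' < w) (hL : w' + 2 ≤ L) :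
    ∑ q ∈ (TBT M w ×ˢ TBT M w).filter fun q => q.1 ≠ q.2,
      pr (RF (-L) L (-w) w) {ω | ReachT ω L w r q.1 ∧ ReachT ω L w r q.2} ≤ nT r w' := by
  classical
  have hsub : BW w' ⊆ RF (-L) L (-w) w := by
    intro f hf
    rw [BdAux.mem_BW] at hf
    rw [mem_RF]
    omega
  have e1 : nT r w' = ∑ p ∈ ((Ico (0 : ℤ) (8 * w' + 3)) ×ˢ Ico (0 : ℤ) (8 * w' + 3)).filter
      (fun p => p.1 ≠ p.2), pr (RF (-L) L (-w) w) {ω | Rea r w' ω p.1 ∧ Rea r w' ω p.2} := by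
    unfold nT
    exact Finset.sum_congr rfl fun p _ => (pr_eq_of_depOn (depOn_rea2 r w' p.1 p.2) hsub).symm
  rw [e1, PercL.sum_pr_eq, PercL.sum_pr_eq]
  refine div_le_div_of_nonneg_right (Finset.sum_le_sum fun T _ => ?_) (by positivity)
  generalize cfg T = ω
  -- the choice of the strand
  have key : ∀ t : TE, ∃ s : ℤ, t ∈ TBT M w → ReachT ω L w r t →
      0 ≤ s ∧ s < 8 * w' + 3 ∧ Rea r w' ω s ∧
        ine w' s ∈ Orb TQ ω (RF (-L) L (-w) w \ BW r : Finset (ℤ × ℤ)) (ori t) := by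
    intro t
    by_cases h : t ∈ TBT M w ∧ ReachT ω L w r t
    · obtain ⟨s, hs⟩ := exists_rea hr hrw hw h.1 h.2
      exact ⟨s, fun _ _ => hs⟩
    · exact ⟨0, fun h1 h2 => absurd ⟨h1, h2⟩ h⟩
  choose g hg using key
  have hF2 : ∀ f ∈ ((RF (-L) L (-w) w \ BW r : Finset (ℤ × ℤ)) : Set (ℤ × ℤ)),
      -w ≤ f.2 ∧ f.2 < w := by
    intro f hf
    rw [mem_coe, mem_sdiff, mem_RF] at hf
    exact ⟨hf.1.2.2.1, hf.1.2.2.2⟩
  have hinj : ∀ t t', t ∈ TBT M w → t' ∈ TBT M w → ReachT ω L w r t → ReachT ω L w r t' →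
      g t = g t' → t = t' := by
    intro t t' ht ht' h h' he
    have h1 := (hg t ht h).2.2.2
    have h2 := (hg t' ht' h').2.2.2
    rw [he] at h1
    exact ori_inj (by omega) ht ht' (LegsAux.orb_eq (ini_ori (by omega) ht hF2)
      (ini_ori (by omega) ht' hF2) h1 h2)
  refine sum_ite_le (fun q => (g q.1, g q.2)) ?_ ?_
  · intro q hq hR
    rw [mem_filter, mem_product] at hq
    obtain ⟨⟨h1, h2⟩, h3⟩ := hq
    obtain ⟨h4, h5⟩ := hR
    have a1 := hg q.1 h1 h4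
    have a2 := hg q.2 h2 h5
    rw [mem_filter, mem_product, mem_Ico, mem_Ico]
    exact ⟨⟨⟨⟨a1.1, a1.2.1⟩, a2.1, a2.2.1⟩, fun h => h3 (hinj _ _ h1 h2 h4 h5 h)⟩,
      a1.2.2.1, a2.2.2.1⟩
  · intro q hq q' hq' hR hR' he
    rw [mem_filter, mem_product] at hq hq'
    obtain ⟨⟨h1, h2⟩, h3⟩ := hq
    obtain ⟨⟨h1', h2'⟩, h3'⟩ := hq'
    obtain ⟨h4, h5⟩ := hR
    obtain ⟨h4', h5'⟩ := hR'
    obtain ⟨e2, e3⟩ := Prod.mk.inj he
    exact Prod.ext (hinj _ _ h1 h1' h4 h4' e2) (hinj _ _ h2 h2' h5 h5' e3)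

end Pool.Agent.Perc.TTBd

end Partperc3TTBd

section Partperc6Levels

/-!
# Arithmetic of the levels
-/

set_option autoImplicit false

namespace Pool.Agent.Perc6

open Finset Pool.Agent.Perc Pool.Agent.PercD Pool.Agent.PercL

namespace Geo

variable {g : Geo}

theorem μ_eq (g : Geo) (j : ℕ) : g.μ j = g.N * g.a j := by
  unfold μ η a; ring

theorem μ_succ (g : Geo) (j : ℕ) : g.μ (j + 1) = g.L * g.μ j := by
  unfold μ η; rw [pow_succ]; ring

theorem Ok.Lpow (hg : g.Ok) (j : ℕ) : 1 ≤ (g.L : ℤ) ^ j :=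
  one_le_pow₀ (by have := hg.L64; omega)

theorem Ok.w_le (hg : g.Ok) (j : ℕ) : g.w ≤ g.a j := by
  have h1 : g.a j = g.a 0 * (g.L : ℤ) ^ j := by unfold a; ring
  have h2 := hg.wa
  have h3 := hg.w1
  have h4 := hg.Lpow j
  rw [h1]
  have h5 : g.a 0 * 1 ≤ g.a 0 * (g.L : ℤ) ^ j := mul_le_mul_of_nonneg_left h4 (by omega)
  omega

theorem Ok.a_pos (hg : g.Ok) (j : ℕ) : 1 ≤ g.a j := by
  have h1 := hg.w_le j
  have h2 := hg.w1
  omega

theorem Ok.b_le_η' (hg : g.Ok) (j : ℕ) : g.b ≤ g.η j := by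
  unfold η
  have h1 := hg.b1
  have h2 := hg.N8
  have h3 := hg.Lpow j
  have h4 : 1 * g.b ≤ g.N * g.b := mul_le_mul_of_nonneg_right (by omega) (by omega)
  have h5 : g.N * g.b * 1 ≤ g.N * g.b * (g.L : ℤ) ^ j :=
    mul_le_mul_of_nonneg_left h3 (by omega)
  omega

theorem Ok.η_pos (hg : g.Ok) (j : ℕ) : 1 ≤ g.η j := by
  have h1 := hg.b_le_η' j
  have h2 := hg.b1
  omega

theorem Ok.b_le_η (hg : g.Ok) (j : ℕ) : g.b ≤ g.η j := hg.b_le_η' j

theorem Ok.μ_pos (hg : g.Ok) (j : ℕ) : 8 * g.a j ≤ g.μ j := by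
  rw [μ_eq]
  have h1 := hg.a_pos j
  exact mul_le_mul_of_nonneg_right hg.N8 (by omega)

/-- `L ^ (j' - j) μ j = μ j'`. -/
theorem μ_pow (g : Geo) {j j' : ℕ} (h : j ≤ j') : g.μ j' = (g.L : ℤ) ^ (j' - j) * g.μ j := by
  obtain ⟨k, rfl⟩ := Nat.exists_eq_add_of_le h
  rw [Nat.add_sub_cancel_left]
  unfold μ η; rw [pow_add]; ring

theorem Ok.μ_pos' (hg : g.Ok) (j : ℕ) : 8 ≤ g.μ j := by
  have h1 := hg.μ_pos j
  have h2 := hg.a_pos j
  omega

theorem Ok.μ_lt (hg : g.Ok) {j j' : ℕ} (h : j < j') : 64 * g.μ j ≤ g.μ j' := by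
  rw [μ_pow g h.le]
  have h1 := hg.μ_pos' j
  obtain ⟨k, hk⟩ : ∃ k, j' - j = k + 1 := ⟨j' - j - 1, by omega⟩
  rw [hk, pow_succ]
  have h2 := hg.Lpow k
  have h3 : (64 : ℤ) ≤ (g.L : ℤ) := by have := hg.L64; omega
  have h4 : 1 * 64 ≤ (g.L : ℤ) ^ k * (g.L : ℤ) := mul_le_mul h2 h3 (by norm_num) (by omega)
  exact mul_le_mul_of_nonneg_right (by omega) (by omega)

theorem anc_self (g : Geo) (j : ℕ) (i : ℤ) : g.anc j i j = i := by
  unfold anc; rw [Nat.sub_self, pow_zero, Int.ediv_one]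

theorem anc_anc (g : Geo) {j j' j'' : ℕ} (h : j ≤ j') (h' : j' ≤ j'') (i : ℤ) (hL : 1 ≤ g.L) :
    g.anc j' (g.anc j i j') j'' = g.anc j i j'' := by
  unfold anc
  rw [Int.ediv_ediv_of_nonneg (by positivity), ← pow_add]
  congr 2
  omega

theorem Ok.anc_bd (hg : g.Ok) {j j' : ℕ} (i : ℤ) :
    (g.L : ℤ) ^ (j' - j) * g.anc j i j' ≤ i ∧ i + 1 ≤ (g.L : ℤ) ^ (j' - j) * (g.anc j i j' + 1) := by
  unfold anc
  have h1 := hg.Lpow (j' - j)
  generalize (g.L : ℤ) ^ (j' - j) = P at *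
  have h2 := Int.emod_add_mul_ediv i P
  have h3 := Int.emod_nonneg i (b := P) (by omega)
  have h4 := Int.emod_lt_of_pos i (b := P) (by omega)
  constructor
  · omega
  · rw [mul_add, mul_one]; omega

theorem Ok.anc_mem (hg : g.Ok) {j j' : ℕ} (h : j ≤ j') (h' : j' ≤ g.m) {i : ℤ}
    (hi : i ∈ g.Is j) : g.anc j i j' ∈ g.Is j' := by
  unfold Is at *
  rw [mem_Ico] at *
  have h1 := hg.Lpow (j' - j)
  obtain ⟨h2, h3⟩ := hg.anc_bd (j := j) (j' := j') i
  have h4 : (g.L : ℤ) ^ (g.m - j) = (g.L : ℤ) ^ (j' - j) * (g.L : ℤ) ^ (g.m - j') := by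
    rw [← pow_add]; congr 1; omega
  rw [h4] at hi
  generalize (g.L : ℤ) ^ (j' - j) = P at *
  generalize (g.L : ℤ) ^ (g.m - j') = Q at *
  generalize g.anc j i j' = t at *
  constructor
  · by_contra hlt
    push Not at hlt
    nlinarith
  · by_contra hlt
    push Not at hlt
    nlinarith

/-- The cell of the ancestor contains the cell. -/
theorem Ok.cen_anc (hg : g.Ok) {j j' : ℕ} (h : j ≤ j') (i : ℤ) :
    g.cen j' (g.anc j i j') - g.μ j' ≤ g.cen j i - g.μ j ∧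
      g.cen j i + g.μ j ≤ g.cen j' (g.anc j i j') + g.μ j' := by
  obtain ⟨h2, h3⟩ := hg.anc_bd (j := j) (j' := j') i
  unfold cen
  rw [μ_pow g h]
  have h1 := hg.μ_pos' j
  generalize (g.L : ℤ) ^ (j' - j) = P at *
  generalize g.anc j i j' = t at *
  generalize g.μ j = μ at *
  constructor
  · nlinarith [mul_le_mul_of_nonneg_right h2 (by omega : (0 : ℤ) ≤ μ)]
  · nlinarith [mul_le_mul_of_nonneg_right h3 (by omega : (0 : ℤ) ≤ μ)]

theorem Ok.cen_bd (hg : g.Ok) {j : ℕ} (h : j ≤ g.m) {i : ℤ} (hi : i ∈ g.Is j) :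
    g.x₀ + g.μ j ≤ g.cen j i ∧ g.cen j i + g.μ j ≤ g.x₀ + 2 * g.μ g.m := by
  have h1 := hg.μ_pos' j
  unfold Is at hi
  rw [mem_Ico] at hi
  unfold cen
  rw [μ_pow g h]
  generalize (g.L : ℤ) ^ (g.m - j) = P at *
  generalize g.μ j = μ at *
  constructor
  · nlinarith [mul_nonneg hi.1 (by omega : (0 : ℤ) ≤ μ)]
  · nlinarith [mul_le_mul_of_nonneg_right (show i + 1 ≤ P by omega) (by omega : (0 : ℤ) ≤ μ)]

/-- The boxes of the cells of level `j < m` are inside the large box. -/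
theorem Ok.nest (hg : g.Ok) {j : ℕ} (h : j < g.m) {i : ℤ} (hi : i ∈ g.Is j) :
    Nest g.h g.w g.cB g.RB (g.cen j i) (32 * g.μ j) := by
  obtain ⟨h1, h2⟩ := hg.cen_bd h.le hi
  have h3 := hg.μ_lt h
  have h4 := hg.μ_pos j
  have h5 := hg.w_le j
  have h6 := hg.w1
  have h7 : g.cB = g.x₀ + g.μ g.m := by unfold cB cen; ring
  have h8 : g.RB = 32 * g.μ g.m := rfl
  constructor <;> (first | rw [h7, h8] | rw [h8] | skip) <;> omega

theorem Ok.nest4 (hg : g.Ok) {j : ℕ} (h : j < g.m) {i : ℤ} (hi : i ∈ g.Is j) :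
    Nest g.h g.w g.cB g.RB (g.cen j i) (4 * g.μ j) := by
  obtain ⟨h1, h2⟩ := hg.cen_bd h.le hi
  have h3 := hg.μ_lt h
  have h4 := hg.μ_pos j
  have h5 := hg.w_le j
  have h6 := hg.w1
  have h7 : g.cB = g.x₀ + g.μ g.m := by unfold cB cen; ring
  have h8 : g.RB = 32 * g.μ g.m := rfl
  constructor <;> (first | rw [h7, h8] | rw [h8] | skip) <;> omega

/-- The box of a cell with a margin is inside the inner box of every strict ancestor. -/
theorem Ok.box_anc (hg : g.Ok) {j j' : ℕ} (h : j < j') (i : ℤ) :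
    BR (g.cen j i, g.h) (64 * g.μ j) ⊆
      BR (g.cen j' (g.anc j i j'), g.h) (4 * g.μ j') := by
  obtain ⟨h1, h2⟩ := hg.cen_anc h.le i
  have h3 := hg.μ_lt h
  have h4 := hg.μ_pos' j
  intro f hf
  rw [mem_BR] at *
  simp only at *
  omega

/-- The slit regions increase when the cell decreases. -/
theorem Ok.slit_anc (hg : g.Ok) {j j' : ℕ} (h : j < j') (i : ℤ) :
    Slit g.h g.w g.cB g.RB (g.cen j' (g.anc j i j')) (4 * g.μ j') ⊆
      Slit g.h g.w g.cB g.RB (g.cen j i) (32 * g.μ j) := by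
  obtain ⟨h1, h2⟩ := hg.cen_anc h.le i
  have h3 := hg.μ_lt h
  have h4 := hg.μ_pos' j
  have h5 := hg.w_le j
  have h6 := hg.μ_pos j
  rintro f ⟨hB, hR, hRay⟩
  refine ⟨hB, fun hf => hR ?_, fun hf => ?_⟩
  · rw [mem_BR] at *
    simp only at *
    omega
  · unfold Ray at hRay hf
    simp only [Set.mem_setOf_eq] at hRay hf
    rw [mem_BR] at hR
    simp only at hR
    omega

theorem slit_sub {h w cB RB c μ : ℤ} (hμ : 1 ≤ μ) (hw : 1 ≤ w) (hwμ : w ≤ μ) :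
    Slit h w cB RB c (32 * μ) ⊆ Slit h w cB RB c (4 * μ) := by
  rintro f ⟨hB, hR, hRay⟩
  refine ⟨hB, fun hf => hR ?_, fun hf => ?_⟩
  · rw [mem_BR] at *
    simp only at *
    omega
  · unfold Ray at hRay hf
    simp only [Set.mem_setOf_eq] at hRay hf
    rw [mem_BR] at hR
    simp only at hR
    omega

theorem Ok.slit_anc' (hg : g.Ok) {j j' : ℕ} (h : j < j') (i : ℤ) :
    Slit g.h g.w g.cB g.RB (g.cen j' (g.anc j i j')) (32 * g.μ j') ⊆
      Slit g.h g.w g.cB g.RB (g.cen j i) (32 * g.μ j) := by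
  have h4 := hg.μ_pos' j'
  have h5 := hg.w_le j'
  have h6 := hg.μ_pos j'
  have h7 := hg.w1
  exact (slit_sub (by omega) h7 (by omega)).trans (hg.slit_anc h i)

/-- The window of the cell `(j, i)`. -/
noncomputable def Win (g : Geo) (j : ℕ) (i : ℤ) : Finset (ℤ × ℤ) :=
  RF (g.cen j i + 8 * g.μ j) (g.cen j i + 12 * g.μ j) (g.h + g.w) (g.h + g.w + 4 * g.μ j)

theorem Ok.win_disj (hg : g.Ok) {j j' : ℕ} (h : j < j') (i : ℤ) :
    Disjoint (BR (g.cen j i, g.h) (64 * g.μ j)) (g.Win j' (g.anc j i j')) := by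
  rw [Finset.disjoint_left]
  intro f hf hf'
  have h1 := hg.box_anc h i hf
  have h4 := hg.μ_pos' j'
  unfold Win at hf'
  rw [mem_BR] at h1
  rw [mem_RF] at hf'
  simp only at h1
  omega

theorem Ok.win_sub (hg : g.Ok) (j : ℕ) (i : ℤ) :
    g.Win j i ⊆ BR (g.cen j i, g.h) (32 * g.μ j) \ BR (g.cen j i, g.h) (4 * g.μ j) := by
  intro f hf
  have h4 := hg.μ_pos' j
  have h5 := hg.w_le j
  have h6 := hg.μ_pos j
  have h7 := hg.w1
  unfold Win at hf
  rw [mem_RF] at hf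
  rw [mem_sdiff, mem_BR, mem_BR]
  simp only
  omega

theorem mem_Vs {j : ℕ} {i : ℤ} {X : ℤ × ℤ} : X ∈ g.Vs j i ↔
    (g.x₀ + 2 * i * g.μ j ≤ X.1 ∧ X.1 < g.x₀ + 2 * (i + 1) * g.μ j) ∧
      (g.h - g.w ≤ X.2 ∧ X.2 ≤ g.h + g.w) ∧ par X = g.col := by
  unfold Vs BandV
  rw [mem_filter, mem_product, mem_Ico, mem_Icc]
  tauto

/-- Every vertex of the segment is in exactly one cell of level `j`. -/
theorem Ok.exists_cell (hg : g.Ok) {j : ℕ} (h : j ≤ g.m) {X : ℤ × ℤ} (hX : X ∈ g.Vs g.m 0) :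
    ∃ i ∈ g.Is j, X ∈ g.Vs j i ∧ ∀ i', X ∈ g.Vs j i' → i' = i := by
  rw [mem_Vs] at hX
  have h4 := hg.μ_pos' j
  obtain ⟨hX1, hX2, hX3⟩ := hX
  rw [μ_pow g h] at hX1
  have e1 := Int.emod_add_mul_ediv (X.1 - g.x₀) (2 * g.μ j)
  have e2 := Int.emod_nonneg (X.1 - g.x₀) (b := 2 * g.μ j) (by omega)
  have e3 := Int.emod_lt_of_pos (X.1 - g.x₀) (b := 2 * g.μ j) (by omega)
  have h0 : 0 ≤ (X.1 - g.x₀) / (2 * g.μ j) := Int.ediv_nonneg (by nlinarith) (by omega)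
  generalize (X.1 - g.x₀) / (2 * g.μ j) = i at *
  generalize (X.1 - g.x₀) % (2 * g.μ j) = r at *
  have hL := hg.Lpow (g.m - j)
  refine ⟨i, ?_, ?_, ?_⟩
  · unfold Is
    rw [mem_Ico]
    refine ⟨h0, ?_⟩
    generalize (g.L : ℤ) ^ (g.m - j) = P at *
    by_contra hlt
    push Not at hlt
    nlinarith
  · rw [mem_Vs]
    refine ⟨⟨by linarith [mul_comm (2 * g.μ j) i, mul_assoc 2 i (g.μ j), mul_comm i (g.μ j), mul_assoc 2 (g.μ j) i], ?_⟩, hX2, hX3⟩
    nlinarith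
  · intro i' hi'
    rw [mem_Vs] at hi'
    obtain ⟨⟨h5, h6⟩, -⟩ := hi'
    generalize g.μ j = μ at *
    rcases lt_trichotomy i' i with hlt | heq | hgt
    · exfalso; nlinarith [mul_le_mul_of_nonneg_right (show i' + 1 ≤ i by omega) (by omega : (0 : ℤ) ≤ μ)]
    · exact heq
    · exfalso; nlinarith [mul_le_mul_of_nonneg_right (show i + 1 ≤ i' by omega) (by omega : (0 : ℤ) ≤ μ)]

theorem Ok.vs_sub (hg : g.Ok) {j : ℕ} (h : j ≤ g.m) {i : ℤ} (hi : i ∈ g.Is j) :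
    g.Vs j i ⊆ g.Vs g.m 0 := by
  intro X hX
  obtain ⟨h1, h2⟩ := hg.cen_bd h hi
  unfold cen at h1 h2
  rw [mem_Vs] at *
  obtain ⟨⟨h3, h4⟩, h5⟩ := hX
  refine ⟨⟨?_, ?_⟩, h5⟩
  · nlinarith
  · nlinarith

theorem Ok.vs_anc (hg : g.Ok) {j j' : ℕ} (h : j ≤ j') {i : ℤ} {X : ℤ × ℤ} (hX : X ∈ g.Vs j i) :
    X ∈ g.Vs j' (g.anc j i j') := by
  obtain ⟨h1, h2⟩ := hg.cen_anc h i
  unfold cen at h1 h2
  rw [mem_Vs] at *
  obtain ⟨⟨h3, h4⟩, h5⟩ := hX
  refine ⟨⟨?_, ?_⟩, h5⟩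
  · nlinarith
  · nlinarith

theorem children_aux (L : ℕ) (hL : 1 ≤ L) (f : ℤ → ℝ) (K : ℕ) :
    ∑ i ∈ Ico (0 : ℤ) ((L : ℤ) * K), f (i / (L : ℤ)) = L * ∑ i ∈ Ico (0 : ℤ) (K : ℤ), f i := by
  induction K with
  | zero => simp
  | succ K ih =>
    have h1 : Ico (0 : ℤ) ((L : ℤ) * ((K + 1 : ℕ) : ℤ)) =
        Ico (0 : ℤ) ((L : ℤ) * K) ∪ Ico ((L : ℤ) * K) ((L : ℤ) * K + L) := by
      rw [Finset.Ico_union_Ico_eq_Ico (by positivity) (by omega)]
      push_cast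
      congr 1
    have h2 : Ico (0 : ℤ) ((K + 1 : ℕ) : ℤ) = Ico (0 : ℤ) (K : ℤ) ∪ {(K : ℤ)} := by
      ext x
      simp only [mem_union, mem_Ico, mem_singleton]
      push_cast
      omega
    rw [h1, h2, Finset.sum_union, Finset.sum_union, ih, Finset.sum_singleton, mul_add]
    · congr 1
      rw [Finset.sum_congr rfl (g := fun _ => f (K : ℤ)), Finset.sum_const, Int.card_Ico]
      · rw [nsmul_eq_mul]
        congr 2
        omega
      · intro x hx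
        rw [mem_Ico] at hx
        congr 1
        refine le_antisymm (Int.lt_add_one_iff.1 (Int.ediv_lt_of_lt_mul (by omega) ?_))
          (Int.le_ediv_of_mul_le (by omega) ?_)
        · rw [add_mul, one_mul, mul_comm (K : ℤ)]
          exact hx.2
        · rw [mul_comm]
          exact hx.1
    · rw [Finset.disjoint_singleton_right, mem_Ico]
      omega
    · exact Finset.Ico_disjoint_Ico_consecutive _ _ _

/-- The children of a cell. -/
theorem Ok.children (hg : g.Ok) {j : ℕ} (h : j < g.m) (f : ℤ → ℝ) (hf : ∀ i, 0 ≤ f i) :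
    ∑ i ∈ g.Is j, f (g.anc j i (j + 1)) = g.L * ∑ i ∈ g.Is (j + 1), f i := by
  have h1 : (g.L : ℤ) ^ (g.m - j) = (g.L : ℤ) * ((g.L ^ (g.m - (j + 1)) : ℕ) : ℤ) := by
    rw [show g.m - j = (g.m - (j + 1)) + 1 by omega, pow_succ]
    push_cast
    ring
  have h2 := children_aux g.L (by have := hg.L64; omega) f (g.L ^ (g.m - (j + 1)))
  unfold Is
  rw [h1, show (g.L : ℤ) ^ (g.m - (j + 1)) = ((g.L ^ (g.m - (j + 1)) : ℕ) : ℤ) by push_cast; rfl,
    ← h2]
  refine Finset.sum_congr rfl fun i _ => ?_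
  unfold anc
  rw [show j + 1 - j = 1 by omega, pow_one]

end Geo

end Pool.Agent.Perc6

end Partperc6Levels

section Partperc6Stop

/-!
# The stopping set of a cell and a pair: the two strands and the windows of the strict ancestors
-/

set_option autoImplicit false

namespace Pool.Agent.Perc6

open Finset Pool.Agent.Perc Pool.Agent.PercD Pool.Agent.PercL

theorem S1_rim {ω ω' : Cfg} {x y s : ℤ}
    (h : ∀ f ∈ (RF x (x + s) y (y + s) : Set (ℤ × ℤ)), ω f = ω' f) {p : ℤ × ℤ}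
    (hr : Rim ω x y s p) : Rim ω' x y s p := by
  obtain ⟨z, hz, hz'⟩ := hr
  exact ⟨z, GridA.conn_congr _ h hz, hz'⟩

theorem S1_freeSq {ω ω' : Cfg} {col x y s η : ℤ}
    (h : ∀ f ∈ (RF x (x + s) y (y + s) : Set (ℤ × ℤ)), ω f = ω' f) {t : ℤ × ℤ}
    (hr : FreeSq ω col x y s η t) : FreeSq ω' col x y s η t :=
  ⟨hr.1, fun p h1 h2 h3 h4 h5 h6 =>
    hr.2 p h1 h2 h3 h4 h5 (S1_rim (fun f hf => (h f hf).symm) h6)⟩

theorem S1_seen {ω ω' : Cfg} {col x y M q η : ℤ}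
    (h : ∀ f ∈ (RF x (x + 4 * (M * q * η)) y (y + 4 * (M * q * η)) : Set (ℤ × ℤ)), ω f = ω' f)
    {z : ℤ × ℤ} (hr : Seen ω col x y M q η z) : Seen ω' col x y M q η z := by
  obtain ⟨t, t', h1, h2, h3, h4⟩ := hr
  refine ⟨t, t', h1, h2, S1_freeSq h h3, ?_⟩
  clear h1 h2 h3
  induction h4 with
  | refl => exact Relation.ReflTransGen.refl
  | tail _ hab ih => exact ih.tail ⟨hab.1, S1_freeSq h hab.2.1, S1_freeSq h hab.2.2⟩

theorem S1_LS {ω ω' : Cfg} {col h w cB RB c M q η : ℤ} {s A : ℝ} {k : ℤ × ℤ}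
    (h1 : ∀ f ∈ SS ω (Slit h w cB RB c (4 * (M * q * η))) (cycE cB h w RB k.1), ω f = ω' f)
    (h2 : ∀ f ∈ (RF (c + 8 * (M * q * η)) (c + 8 * (M * q * η) + 4 * (M * q * η)) (h + w)
      (h + w + 4 * (M * q * η)) : Set (ℤ × ℤ)), ω f = ω' f) :
    ω' ∈ LS col h w cB RB c M q η s A k ↔ ω ∈ LS col h w cB RB c M q η s A k := by
  have hm := MM_congr h1
  have hs : ∀ z : ℤ × ℤ, Seen ω' col (c + 8 * (M * q * η)) (h + w) M q η z ↔
      Seen ω col (c + 8 * (M * q * η)) (h + w) M q η z := fun z =>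
    ⟨S1_seen fun f hf => (h2 f hf).symm, S1_seen h2⟩
  unfold LS
  rw [Set.mem_ofPred_eq, Set.mem_ofPred_eq, hm]
  simp only [hs]

/-- First exit from a smaller region. -/
theorem S1_exit {ω : Cfg} {F F' : Set (ℤ × ℤ)} {e a : UE} (ha : a ∈ MM ω F' e) :
    a ∈ MM ω F e ∨ ∃ b ∈ MM ω F e, ∃ f ∈ F', f ∉ F ∧ IsSide f b := by
  induction ha with
  | refl => exact Or.inl mem_MM_self
  | tail _ hs ih =>
    obtain ⟨f, hf, hm⟩ := hs
    rcases ih with ih | ih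
    · by_cases hf' : f ∈ F
      · exact Or.inl (MM_step hf' hm ih)
      · exact Or.inr ⟨_, ih, f, hf, hf', hm.left⟩
    · exact Or.inr ih

theorem S1_side {ω : Cfg} {F : Set (ℤ × ℤ)} {e a : UE} (he : ∃ f ∈ F, IsSide f e)
    (ha : a ∈ MM ω F e) : ∃ f ∈ F, IsSide f a := by
  induction ha with
  | refl => exact he
  | tail _ hs _ =>
    obtain ⟨f, hf, hm⟩ := hs
    exact ⟨f, hf, hm.right⟩

theorem S1_SS_mono {ω : Cfg} {F F' : Set (ℤ × ℤ)} {e : UE} (h : F ⊆ F') :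
    SS ω F e ⊆ SS ω F' e := by
  rintro f ⟨hf, a, ha, hs⟩
  exact ⟨h hf, a, MM_mono h ha, hs⟩

theorem S1_mem_Slit {h w cB RB c R : ℤ} {f : ℤ × ℤ} : f ∈ Slit h w cB RB c R ↔
    (cB - RB ≤ f.1 ∧ f.1 < cB + RB ∧ h - RB ≤ f.2 ∧ f.2 < h + RB) ∧
      ¬ (c - R ≤ f.1 ∧ f.1 < c + R ∧ h - R ≤ f.2 ∧ f.2 < h + R) ∧
      ¬ (c + R ≤ f.1 ∧ h - w ≤ f.2 ∧ f.2 < h + w) := by
  unfold Slit Ray
  rw [Set.mem_ofPred_eq, Set.mem_ofPred_eq, mem_BR, mem_BR]

/-- A strand which reaches the box of radius `R` around `(c, h)` reaches every larger box with the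
slit on the same side. -/
theorem S1_reach {ω : Cfg} {h w cB RB c R c' R' k : ℤ} (hn : Nest h w cB RB c R)
    (hn' : Nest h w cB RB c' R') (h1 : c' - R' ≤ c - R - 1) (h2 : c + R + 1 ≤ c' + R')
    (h3 : R + 1 ≤ R') (hk0 : 0 ≤ k) (hk1 : k < len w RB)
    (hG : ∃ τ, 0 ≤ τ ∧ τ < len w R ∧
      cycE c h w R τ ∈ MM ω (Slit h w cB RB c R) (cycE cB h w RB k)) :
    ∃ τ, 0 ≤ τ ∧ τ < len w R' ∧
      cycE c' h w R' τ ∈ MM ω (Slit h w cB RB c' R') (cycE cB h w RB k) := by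
  obtain ⟨τ, ht0, ht1, ht⟩ := hG
  have he := (bdU_outer (k := k) hn' hk0 hk1).1
  rcases S1_exit (F := Slit h w cB RB c' R') ht with h4 | ⟨b, hb, f, hf, hf', hs⟩
  · exfalso
    obtain ⟨f, hf, hs⟩ := S1_side he h4
    have hbd := bdR_cycE (c := c) (h := h) hn.w1 hn.wR ht0 ht1
    have hR0 : 0 ≤ R := by have := hn.w1; have := hn.wR; omega
    have hin := hbd.inE hR0
    rw [S1_mem_Slit] at hf
    unfold InE InR at hin
    generalize cycE c h w R τ = a at hs hin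
    obtain ⟨x, y⟩ := f
    dsimp only at hf hin
    rcases hs with rfl | rfl | rfl | rfl
    · simp only [bo, ua_mk, ub_false] at hin
      omega
    · simp only [le', ua_mk, ub_true] at hin
      omega
    · simp only [to', ua_mk, ub_false] at hin
      omega
    · simp only [ri, ua_mk, ub_true] at hin
      omega
  · obtain ⟨f1, hf1, hs1⟩ := S1_side he hb
    have hfB : f ∈ (BR (c', h) R' : Set (ℤ × ℤ)) := by
      rw [mem_BR']
      rw [S1_mem_Slit] at hf hf'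
      dsimp only
      omega
    have hf1B : f1 ∉ (BR (c', h) R' : Set (ℤ × ℤ)) := by
      rw [mem_BR']
      rw [S1_mem_Slit] at hf1
      dsimp only
      omega
    have hbd := bd_of_side (inE_of_side hfB hs) hs1 hf1B
    rcases bdR_cases hn'.w1 hn'.wR hbd with ⟨τ', h5, h6, h7⟩ | ⟨h5, h6, h7, h8⟩
    · refine ⟨τ', h5, h6, ?_⟩
      rw [← h7]
      exact hb
    · exfalso
      have hwR := hn'.wR
      rw [S1_mem_Slit] at hf1
      obtain ⟨x, y⟩ := f1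
      dsimp only at hf1
      rcases hs1 with rfl | rfl | rfl | rfl
      · simp [bo] at h6
      · simp only [le'] at h5 h7 h8
        omega
      · simp [to'] at h6
      · simp only [ri] at h5 h7 h8
        omega

namespace Geo

variable {g : Geo} {ω ω' : Cfg} {j : ℕ} {i : ℤ} {k : ℤ × ℤ} {s A : ℝ}

/-- The revealed faces. -/
def St (g : Geo) (ω : Cfg) (j : ℕ) (i : ℤ) (k : ℤ × ℤ) : Set (ℤ × ℤ) :=
  S2 ω (Slit g.h g.w g.cB g.RB (g.cen j i) (32 * g.μ j)) (cycE g.cB g.h g.w g.RB k.1)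
      (cycE g.cB g.h g.w g.RB k.2) ∪
    {f | ∃ j', j < j' ∧ j' < g.m ∧ f ∈ g.Win j' (g.anc j i j')}

theorem S1_win (g : Geo) (j : ℕ) (i : ℤ) :
    RF (g.cen j i + 8 * (g.M * g.q * g.η j)) (g.cen j i + 8 * (g.M * g.q * g.η j) +
      4 * (g.M * g.q * g.η j)) (g.h + g.w) (g.h + g.w + 4 * (g.M * g.q * g.η j)) = g.Win j i := by
  unfold Win μ
  rw [show g.cen j i + 8 * (g.M * g.q * g.η j) + 4 * (g.M * g.q * g.η j) =
    g.cen j i + 12 * (g.M * g.q * g.η j) by ring]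

theorem S1_mem_St {f : ℤ × ℤ} : f ∈ g.St ω j i k ↔
    (f ∈ SS ω (Slit g.h g.w g.cB g.RB (g.cen j i) (32 * g.μ j)) (cycE g.cB g.h g.w g.RB k.1) ∨
      f ∈ SS ω (Slit g.h g.w g.cB g.RB (g.cen j i) (32 * g.μ j)) (cycE g.cB g.h g.w g.RB k.2)) ∨
      ∃ j', j < j' ∧ j' < g.m ∧ f ∈ g.Win j' (g.anc j i j') := Iff.rfl

theorem S1_Ls (hg : g.Ok) (h : ∀ f ∈ g.St ω j i k, ω f = ω' f) {j' : ℕ} (h1 : j < j')
    (h2 : j' < g.m) : ω' ∈ g.Ls s A j' (g.anc j i j') k ↔ ω ∈ g.Ls s A j' (g.anc j i j') k := by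
  unfold Ls
  refine S1_LS (fun f hf => h f ?_) fun f hf => h f ?_
  · rw [S1_mem_St]
    exact Or.inl (Or.inl (S1_SS_mono (hg.slit_anc h1 i) hf))
  · rw [S1_mem_St]
    rw [S1_win] at hf
    exact Or.inr ⟨j', h1, h2, mem_coe.1 hf⟩

theorem st_congr (h : ∀ f ∈ g.St ω j i k, ω f = ω' f) : g.St ω' j i k = g.St ω j i k := by
  have e1 := SS_congr (ω := ω) (ω' := ω') (F := Slit g.h g.w g.cB g.RB (g.cen j i) (32 * g.μ j))
    (e := cycE g.cB g.h g.w g.RB k.1) fun f hf => h f (S1_mem_St.2 (Or.inl (Or.inl hf)))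
  have e2 := SS_congr (ω := ω) (ω' := ω') (F := Slit g.h g.w g.cB g.RB (g.cen j i) (32 * g.μ j))
    (e := cycE g.cB g.h g.w g.RB k.2) fun f hf => h f (S1_mem_St.2 (Or.inl (Or.inr hf)))
  unfold St S2
  rw [e1, e2]

/-- The events of the cell are decided by the revealed faces. -/
theorem G_congr (h : ∀ f ∈ g.St ω j i k, ω f = ω' f) (hω : ω ∈ g.G j i k) : ω' ∈ g.G j i k := by
  have e1 := MM_congr (ω := ω) (ω' := ω') (F := Slit g.h g.w g.cB g.RB (g.cen j i) (32 * g.μ j))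
    (e := cycE g.cB g.h g.w g.RB k.1) fun f hf => h f (S1_mem_St.2 (Or.inl (Or.inl hf)))
  have e2 := MM_congr (ω := ω) (ω' := ω') (F := Slit g.h g.w g.cB g.RB (g.cen j i) (32 * g.μ j))
    (e := cycE g.cB g.h g.w g.RB k.2) fun f hf => h f (S1_mem_St.2 (Or.inl (Or.inr hf)))
  unfold G Gev at hω ⊢
  rw [Set.mem_ofPred_eq] at hω ⊢
  rw [e1, e2]
  exact hω

theorem NS_congr (hg : g.Ok) (h : ∀ f ∈ g.St ω j i k, ω f = ω' f) (hω : ω ∈ g.NS s A j i k) :
    ω' ∈ g.NS s A j i k := by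
  intro j' h1 h2 h3
  exact hω j' h1 h2 ((S1_Ls hg h h1 h2).1 h3)

theorem Sep_congr (h : ∀ f ∈ g.St ω j i k, ω f = ω' f) (hω : ω ∈ g.Sep j i k) :
    ω' ∈ g.Sep j i k := by
  have e1 := MM_congr (ω := ω) (ω' := ω') (F := Slit g.h g.w g.cB g.RB (g.cen j i) (32 * g.μ j))
    (e := cycE g.cB g.h g.w g.RB k.1) fun f hf => h f (S1_mem_St.2 (Or.inl (Or.inl hf)))
  have e2 := MM_congr (ω := ω) (ω' := ω') (F := Slit g.h g.w g.cB g.RB (g.cen j i) (32 * g.μ j))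
    (e := cycE g.cB g.h g.w g.RB k.2) fun f hf => h f (S1_mem_St.2 (Or.inl (Or.inr hf)))
  unfold Sep SepEv at hω ⊢
  rw [Set.mem_ofPred_eq] at hω ⊢
  rw [e1, e2]
  exact hω

/-- The revealed faces are outside the box of the cell. -/
theorem St_disj (hg : g.Ok) (hj : j < g.m) (hi : i ∈ g.Is j) :
    Disjoint (g.St ω j i k) (BR (g.cen j i, g.h) (32 * g.μ j) : Set (ℤ × ℤ)) := by
  have hμ := hg.μ_pos j
  have ha := hg.a_pos j
  rw [Set.disjoint_left]
  intro f hf hB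
  rw [mem_BR'] at hB
  rcases S1_mem_St.1 hf with (h | h) | ⟨j', h1, h2, h3⟩
  · have h' := S1_mem_Slit.1 h.1
    dsimp only at hB
    omega
  · have h' := S1_mem_Slit.1 h.1
    dsimp only at hB
    omega
  · refine Finset.disjoint_left.1 (hg.win_disj h1 i) ?_ h3
    rw [mem_BR]
    dsimp only at hB ⊢
    omega

/-- Near the box only the visited faces are revealed. -/
theorem St_near (hg : g.Ok) (hj : j < g.m) (hi : i ∈ g.Is j) {f : ℤ × ℤ}
    (hf : f ∈ BR (g.cen j i, g.h) (64 * g.μ j)) (h : f ∈ g.St ω j i k) :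
    f ∈ S2 ω (Slit g.h g.w g.cB g.RB (g.cen j i) (32 * g.μ j)) (cycE g.cB g.h g.w g.RB k.1)
      (cycE g.cB g.h g.w g.RB k.2) := by
  rcases S1_mem_St.1 h with h | ⟨j', h1, h2, h3⟩
  · exact h
  · exact absurd h3 (Finset.disjoint_left.1 (hg.win_disj h1 i) hf)

theorem S1_St_sub (hg : g.Ok) (hj : j < g.m) (hi : i ∈ g.Is j) {f : ℤ × ℤ}
    (hf : f ∈ g.St ω j i k) :
    f ∈ ((g.B \ BR (g.cen j i, g.h) (32 * g.μ j) : Finset (ℤ × ℤ)) : Set (ℤ × ℤ)) := by
  rw [mem_coe, mem_sdiff]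
  refine ⟨?_, fun h => Set.disjoint_left.1 (St_disj hg hj hi) hf (mem_coe.2 h)⟩
  unfold B
  rcases S1_mem_St.1 hf with (h | h) | ⟨j', h1, h2, h3⟩
  · have h' := S1_mem_Slit.1 h.1
    rw [mem_BR]
    exact h'.1
  · have h' := S1_mem_Slit.1 h.1
    rw [mem_BR]
    exact h'.1
  · have h4 := hg.win_sub j' (g.anc j i j') h3
    rw [mem_sdiff] at h4
    have h5 := h4.1
    have h6 := hg.nest h2 (hg.anc_mem h1.le h2.le hi)
    obtain ⟨n1, n2, n3, n4, n5⟩ := h6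
    rw [mem_BR] at h5 ⊢
    dsimp only at h5 ⊢
    omega

/-- The events of the cell depend only on the faces of the large box outside the box of the cell. -/
theorem depOn_GNS (hg : g.Ok) (hj : j < g.m) (hi : i ∈ g.Is j) :
    DepOn (g.B \ BR (g.cen j i, g.h) (32 * g.μ j) : Finset (ℤ × ℤ))
      (g.G j i k ∩ g.NS s A j i k) := by
  intro ω ω' h
  have key : ∀ ω ω' : Cfg, (∀ f ∈ ((g.B \ BR (g.cen j i, g.h) (32 * g.μ j) : Finset (ℤ × ℤ)) :
      Set (ℤ × ℤ)), ω f = ω' f) → ω ∈ g.G j i k ∩ g.NS s A j i k →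
      ω' ∈ g.G j i k ∩ g.NS s A j i k := by
    intro ω ω' h hω
    have h' : ∀ f ∈ g.St ω j i k, ω f = ω' f := fun f hf => h f (S1_St_sub hg hj hi hf)
    exact ⟨G_congr h' hω.1, NS_congr hg h' hω.2⟩
  exact ⟨key ω ω' h, key ω' ω fun f hf => (h f hf).symm⟩

theorem depOn_T0 (j : ℕ) (i : ℤ) (X : ℤ × ℤ) :
    DepOn (BR (g.cen j i, g.h) (32 * g.μ j) : Finset (ℤ × ℤ)) (g.T0 j i X) := by
  have key : ∀ ω ω' : Cfg, (∀ f ∈ (BR (g.cen j i, g.h) (32 * g.μ j) : Set (ℤ × ℤ)),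
      ω f = ω' f) → ω ∈ g.T0 j i X → ω' ∈ g.T0 j i X := by
    intro ω ω' h hω
    obtain ⟨⟨y, hy, hy'⟩, h2⟩ := hω
    exact ⟨⟨y, GridA.conn_congr _ h hy, hy'⟩, fun z hz =>
      h2 z (GridA.conn_congr _ (fun f hf => (h f hf).symm) hz)⟩
  intro ω ω' h
  exact ⟨key ω ω' h, key ω' ω fun f hf => (h f hf).symm⟩

/-- Monotonicity: the events of a cell imply the events of the next larger cell. -/
theorem G_mono (hg : g.Ok) (hj : j + 1 < g.m) (hi : i ∈ g.Is j) (hk : k ∈ g.K)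
    (h : ω ∈ g.G j i k) : ω ∈ g.G (j + 1) (g.anc j i (j + 1)) k := by
  have hn := hg.nest (by omega : j < g.m) hi
  have hn' := hg.nest hj (hg.anc_mem (Nat.le_succ j) hj.le hi)
  have hc := hg.cen_anc (Nat.le_succ j) i
  have hμ := hg.μ_lt (Nat.lt_succ_self j)
  have hμ0 := hg.μ_pos j
  have ha := hg.a_pos j
  have hk' : 0 ≤ k.1 ∧ k.1 < len g.w g.RB ∧ 0 ≤ k.2 ∧ k.2 < len g.w g.RB := by
    unfold K KP at hk
    rw [mem_filter, mem_product, mem_Ico, mem_Ico] at hk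
    exact ⟨hk.1.1.1, hk.1.1.2, hk.1.2.1, hk.1.2.2⟩
  simp only [Nat.succ_eq_add_one] at hc hμ
  unfold G Gev at h ⊢
  rw [Set.mem_ofPred_eq] at h ⊢
  exact ⟨S1_reach hn hn' (by omega) (by omega) (by omega) hk'.1 hk'.2.1 h.1,
    S1_reach hn hn' (by omega) (by omega) (by omega) hk'.2.2.1 hk'.2.2.2 h.2⟩

theorem NS_mono (hg : g.Ok) (h : ω ∈ g.NS s A j i k) :
    ω ∈ g.NS s A (j + 1) (g.anc j i (j + 1)) k := by
  intro j' h1 h2
  have hL := hg.L64
  rw [anc_anc g (Nat.le_succ j) (by omega) i (by omega)]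
  exact h j' (by omega) h2

end Geo

end Pool.Agent.Perc6

end Partperc6Stop

section Parth22CountZ

/-!
# The number of strands which cross the annulus between the boxes of radius `r` and `2 r`

All moments are bounded, uniformly in `r`.
-/

set_option autoImplicit false

namespace Pool.Agent.PercN

open Finset Pool.Agent.Perc Pool.Agent.PercD

variable {ω : Cfg} {v : ℤ × ℤ} {r : ℤ} {a b t : UE}

/-- The faces of the annulus. -/
noncomputable def An (v : ℤ × ℤ) (r R : ℤ) : Finset (ℤ × ℤ) := BR v R \ BR v r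

theorem mem_An {f : ℤ × ℤ} {R : ℤ} : f ∈ An v r R ↔ f ∈ BR v R ∧ f ∉ BR v r := by
  unfold An
  rw [mem_sdiff]

open Classical in
/-- The inner boundary unit edges whose component in the annulus reaches the outer boundary in a unit
edge with the property `P`. -/
noncomputable def NP (P : UE → Prop) (v : ℤ × ℤ) (r R : ℤ) (ω : Cfg) : Finset UE :=
  (UB v r).filter fun b => BdR v r b ∧ ∃ a ∈ MM ω (An v r R) b, BdR v R a ∧ P a

theorem mem_NP {P : UE → Prop} {R : ℤ} (hr : 0 ≤ r) : b ∈ NP P v r R ω ↔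
    BdR v r b ∧ ∃ a ∈ MM ω (An v r R) b, BdR v R a ∧ P a := by
  classical
  unfold NP
  rw [mem_filter]
  exact ⟨fun h => h.2, fun h => ⟨(h.1.inE hr).mem_UB, h⟩⟩

/-- The number of strands which cross the annulus. -/
noncomputable def NC (v : ℤ × ℤ) (r R : ℤ) (ω : Cfg) : ℕ := (NP (fun _ => True) v r R ω).card

theorem bdF_in {R : ℤ} (h : BdR v r b) : BdF (An v r R : Set (ℤ × ℤ)) b := by
  intro d h1 h2
  rw [mem_coe, mem_An, mem_BR, mem_BR] at h1 h2
  obtain ⟨x, y, c⟩ := b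
  unfold BdR BdE at h
  cases c <;> cases d <;> simp [Tips.ahead] at h h1 h2 <;> omega

theorem bdF_out {R : ℤ} (h : BdR v R a) : BdF (An v r R : Set (ℤ × ℤ)) a := by
  intro d h1 h2
  rw [mem_coe, mem_An, mem_BR, mem_BR] at h1 h2
  obtain ⟨x, y, c⟩ := a
  unfold BdR BdE at h
  cases c <;> cases d <;> simp [Tips.ahead] at h h1 h2 <;> omega

/-- The side of the outer box on the right. -/
def PR (v : ℤ × ℤ) (R : ℤ) (a : UE) : Prop := a.2.2 = true ∧ a.1 = v.1 + R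
/-- The left side. -/
def PL (v : ℤ × ℤ) (R : ℤ) (a : UE) : Prop := a.2.2 = true ∧ a.1 = v.1 - R
/-- The upper side. -/
def PT (v : ℤ × ℤ) (R : ℤ) (a : UE) : Prop := a.2.2 = false ∧ a.2.1 = v.2 + R
/-- The lower side. -/
def PB (v : ℤ × ℤ) (R : ℤ) (a : UE) : Prop := a.2.2 = false ∧ a.2.1 = v.2 - R

theorem P_cases {R : ℤ} (h : BdR v R a) : PR v R a ∨ PL v R a ∨ PT v R a ∨ PB v R a := by
  unfold BdR BdE at h
  unfold PR PL PT PB
  rcases h with ⟨h1, -, -, h | h⟩ | ⟨h1, -, -, h | h⟩ <;> tauto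

/-- The strand from a unit edge on the right side reaches the line of the inner box inside the right
rectangle. -/
theorem right_exit {R : ℤ} (hr : 0 < r) (hR : r < R) {g : ℤ} (hg : v.2 - R ≤ g) (hg' : g < v.2 + R)
    (hb : BdR v r b) (h : b ∈ MM ω (An v r R) ((v.1 + R, g, true) : UE)) :
    ∃ h, v.2 - R ≤ h ∧ h < v.2 + R ∧
      ((v.1 + r, h, true) : UE) ∈ MM ω (RF (v.1 + r) (v.1 + R) (v.2 - R) (v.2 + R))
        ((v.1 + R, g, true) : UE) := by
  have key : ∀ b ∈ MM ω (An v r R : Set (ℤ × ℤ)) ((v.1 + R, g, true) : UE),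
      (b ∈ MM ω (RF (v.1 + r) (v.1 + R) (v.2 - R) (v.2 + R)) ((v.1 + R, g, true) : UE) ∧
        InR (v.1 + r) (v.1 + R) (v.2 - R) (v.2 + R) (ua b) ∧
        InR (v.1 + r) (v.1 + R) (v.2 - R) (v.2 + R) (ub b)) ∨
      ∃ h, v.2 - R ≤ h ∧ h < v.2 + R ∧
        ((v.1 + r, h, true) : UE) ∈ MM ω (RF (v.1 + r) (v.1 + R) (v.2 - R) (v.2 + R))
          ((v.1 + R, g, true) : UE) := by
    intro b hb
    induction hb with
    | refl =>
      left
      refine ⟨mem_MM_self, ?_, ?_⟩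
      · rw [ua_mk]; unfold InR; simp only; omega
      · rw [ub_true]; unfold InR; simp only; omega
    | tail _ hs ih =>
      rename_i b₁ b₂ _
      obtain ⟨f, hf, hm⟩ := hs
      rcases ih with ⟨ih, i1, i2⟩ | ih
      · by_cases hfR : f ∈ (RF (v.1 + r) (v.1 + R) (v.2 - R) (v.2 + R) : Set (ℤ × ℤ))
        · left
          exact ⟨MM_step hfR hm ih, IsCor.inR hfR hm.right.cor.1, IsCor.inR hfR hm.right.cor.2⟩
        · right
          rw [mem_coe, mem_An, mem_BR, mem_BR] at hf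
          rw [mem_RF'] at hfR
          obtain ⟨x, y⟩ := f
          have hs := hm.left
          unfold IsSide at hs
          simp only at hf hfR
          rcases hs with rfl | rfl | rfl | rfl
          · exfalso
            simp only [bo, ua_mk, ub_false] at i1 i2
            unfold InR at i1 i2
            simp only at i1 i2
            omega
          · exfalso
            simp only [le', ua_mk, ub_true] at i1 i2
            unfold InR at i1 i2
            simp only at i1 i2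
            omega
          · exfalso
            simp only [to', ua_mk, ub_false] at i1 i2
            unfold InR at i1 i2
            simp only at i1 i2
            omega
          · simp only [ri, ua_mk, ub_true] at i1 i2 ih
            unfold InR at i1 i2
            simp only at i1 i2
            have hx : x + 1 = v.1 + r := by omega
            rw [hx] at ih
            exact ⟨y, by omega, by omega, ih⟩
      · exact Or.inr ih
  rcases key b h with ⟨h1, h2, h3⟩ | h1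
  · obtain ⟨x, y, c⟩ := b
    unfold BdR BdE at hb
    cases c
    · exfalso
      rw [ua_mk] at h2
      rw [ub_false] at h3
      unfold InR at h2 h3
      simp at hb h2 h3
      omega
    · rw [ua_mk] at h2
      rw [ub_true] at h3
      unfold InR at h2 h3
      simp at hb h2 h3
      have hx : x = v.1 + r := by omega
      rw [hx] at h1
      exact ⟨y, by omega, by omega, h1⟩
  · exact h1

theorem card_NP_right {R : ℤ} (hr : 0 < r) (hR : r < R) :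
    (NP (PR v R) v r R ω).card ≤ (LT ω (v.1 + r) (v.1 + R) (v.2 - R) (v.2 + R)).card := by
  classical
  have H : ∀ b ∈ NP (PR v R) v r R ω, ∃ h g, v.2 - R ≤ g ∧ g < v.2 + R ∧ v.2 - R ≤ h ∧
      h < v.2 + R ∧ b ∈ MM ω (An v r R) ((v.1 + R, g, true) : UE) ∧
      ((v.1 + R, g, true) : UE) ∈ MM ω (RF (v.1 + r) (v.1 + R) (v.2 - R) (v.2 + R))
        ((v.1 + r, h, true) : UE) := by
    intro b hb
    obtain ⟨h1, a, h2, h3, h4⟩ := (mem_NP hr.le).1 hb
    obtain ⟨x, g, c⟩ := a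
    unfold PR at h4
    simp only at h4
    obtain ⟨rfl, rfl⟩ := h4
    have hg : v.2 - R ≤ g ∧ g < v.2 + R := by
      unfold BdR BdE at h3
      simp only [Bool.true_eq_false, false_and, true_and, false_or] at h3
      exact ⟨h3.1, h3.2.1⟩
    obtain ⟨h, k1, k2, k3⟩ := right_exit hr hR hg.1 hg.2 h1 (MM_symm h2)
    exact ⟨h, g, hg.1, hg.2, k1, k2, MM_symm h2, MM_symm k3⟩
  choose! h g k1 k2 k3 k4 k5 k6 using H
  refine Finset.card_le_card_of_injOn h (fun b hb => ?_) ?_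
  · exact mem_coe.2 (mem_LT.2 ⟨⟨k3 b hb, k4 b hb⟩, g b, k1 b hb, k2 b hb, k6 b hb⟩)
  · intro b hb b' hb' hbb
    have hb2 := mem_coe.1 hb
    have hb2' := mem_coe.1 hb'
    have e1 : ((v.1 + R, g b, true) : UE) = (v.1 + R, g b', true) := by
      refine other_unique (ω := ω) (bdF_of_bdE (bdE_left (k3 b hb2) (k4 b hb2))) (k6 b hb2)
        (by rw [hbb]; exact k6 b' hb2') (bdF_of_bdE (bdE_right (k1 b hb2) (k2 b hb2)))
        (bdF_of_bdE (bdE_right (k1 b' hb2') (k2 b' hb2'))) ?_ ?_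
      · simp only [ne_eq, Prod.mk.injEq, not_and]; omega
      · simp only [ne_eq, Prod.mk.injEq, not_and]; omega
    have B1 := ((mem_NP hr.le).1 hb2).1
    have B2 := ((mem_NP hr.le).1 hb2').1
    have hout : BdR v R ((v.1 + R, g b, true) : UE) := by
      unfold BdR BdE
      right
      exact ⟨rfl, k1 b hb2, k2 b hb2, Or.inr rfl⟩
    have ne : ∀ {c : UE} {g' : ℤ}, BdR v r c → c ≠ ((v.1 + R, g', true) : UE) := by
      rintro c g' hc rfl
      unfold BdR BdE at hc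
      simp only [Bool.true_eq_false, false_and, true_and, false_or] at hc
      omega
    refine other_unique (ω := ω) (F := (An v r R : Set (ℤ × ℤ))) (bdF_out hout) (k5 b hb2)
      (by rw [e1]; exact k5 b' hb2') (bdF_in B1) (bdF_in B2) (ne B1) (ne B2)

/-! ### Symmetries -/

/-- A symmetry which maps the boxes around `v` to the boxes around `v'`. -/
theorem card_NP_sym {σ : Perc.Sym} {v v' : ℤ × ℤ} {R : ℤ} {P P' : UE → Prop} (hr : 0 ≤ r)
    (M1 : σ.Maps (v.1 - r) (v.1 + r) (v.2 - r) (v.2 + r) (v'.1 - r) (v'.1 + r) (v'.2 - r) (v'.2 + r))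
    (M2 : σ.Maps (v.1 - R) (v.1 + R) (v.2 - R) (v.2 + R) (v'.1 - R) (v'.1 + R) (v'.2 - R) (v'.2 + R))
    (hP : ∀ a, P a → P' (σ.s a)) (ω : Cfg) :
    (NP P v r R ω).card ≤ (NP P' v' r R (σ.act ω)).card := by
  classical
  have hA : (An v' r R : Set (ℤ × ℤ)) = σ.f '' (An v r R : Set (ℤ × ℤ)) := by
    unfold An
    rw [Finset.coe_sdiff, Finset.coe_sdiff, Set.image_sdiff σ.f.injective]
    unfold BR
    rw [M1.img, M2.img]
  refine Finset.card_le_card_of_injOn σ.s (fun b hb => ?_) (σ.s.injective.injOn)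
  obtain ⟨h1, a, h2, h3, h4⟩ := (mem_NP hr).1 (mem_coe.1 hb)
  refine mem_coe.2 ((mem_NP hr).2 ⟨(M1.bdE b).2 h1, σ.s a, ?_, (M2.bdE a).2 h3, hP a h4⟩)
  rw [hA]
  exact σ.mem_MM_iff.2 h2

theorem maps_X' (v : ℤ × ℤ) (r : ℤ) : (symX (2 * v.1)).Maps (v.1 - r) (v.1 + r) (v.2 - r) (v.2 + r)
    (v.1 - r) (v.1 + r) (v.2 - r) (v.2 + r) := by
  have h := Perc.Sym.maps_X (2 * v.1) (v.1 - r) (v.1 + r) (v.2 - r) (v.2 + r)
  have e1 : 2 * v.1 - (v.1 + r) = v.1 - r := by ring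
  have e2 : 2 * v.1 - (v.1 - r) = v.1 + r := by ring
  rw [e1, e2] at h
  exact h

theorem card_NP_left {R : ℤ} (hr : 0 ≤ r) (ω : Cfg) :
    (NP (PL v R) v r R ω).card ≤ (NP (PR v R) v r R ((symX (2 * v.1)).act ω)).card := by
  refine card_NP_sym hr (maps_X' v r) (maps_X' v R) (fun a ha => ?_) ω
  obtain ⟨x, y, c⟩ := a
  obtain ⟨rfl, h⟩ := ha
  simp only at h
  subst h
  refine ⟨by simp [symX, hsymX], ?_⟩
  simp only [symX, hsymX, Equiv.coe_fn_mk, if_true]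
  ring

theorem card_NP_top {R : ℤ} (hr : 0 ≤ r) (ω : Cfg) :
    (NP (PT v R) v r R ω).card ≤ (NP (PR (v.2, v.1) R) (v.2, v.1) r R (symT.act ω)).card := by
  refine card_NP_sym (v' := (v.2, v.1)) hr (Perc.Sym.maps_T _ _ _ _) (Perc.Sym.maps_T _ _ _ _) (fun a ha => ?_) ω
  obtain ⟨x, y, c⟩ := a
  obtain ⟨h1, h⟩ := ha
  simp only at h h1
  subst h h1
  exact ⟨rfl, rfl⟩

theorem card_NP_bot {R : ℤ} (hr : 0 ≤ r) (ω : Cfg) :
    (NP (PB v R) v r R ω).card ≤ (NP (PL (v.2, v.1) R) (v.2, v.1) r R (symT.act ω)).card := by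
  refine card_NP_sym (v' := (v.2, v.1)) hr (Perc.Sym.maps_T _ _ _ _) (Perc.Sym.maps_T _ _ _ _) (fun a ha => ?_) ω
  obtain ⟨x, y, c⟩ := a
  obtain ⟨h1, h⟩ := ha
  simp only at h h1
  subst h h1
  exact ⟨rfl, rfl⟩

theorem card_NC_le {R : ℤ} (hr : 0 ≤ r) (ω : Cfg) :
    NC v r R ω ≤ (NP (PR v R) v r R ω).card + (NP (PL v R) v r R ω).card +
      (NP (PT v R) v r R ω).card + (NP (PB v R) v r R ω).card := by
  classical
  have h : NP (fun _ => True) v r R ω ⊆ NP (PR v R) v r R ω ∪ NP (PL v R) v r R ω ∪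
      NP (PT v R) v r R ω ∪ NP (PB v R) v r R ω := by
    intro b hb
    obtain ⟨h1, a, h2, h3, -⟩ := (mem_NP hr).1 hb
    simp only [mem_union, mem_NP hr]
    rcases P_cases h3 with h | h | h | h
    · exact Or.inl (Or.inl (Or.inl ⟨h1, a, h2, h3, h⟩))
    · exact Or.inl (Or.inl (Or.inr ⟨h1, a, h2, h3, h⟩))
    · exact Or.inl (Or.inr ⟨h1, a, h2, h3, h⟩)
    · exact Or.inr ⟨h1, a, h2, h3, h⟩
  refine (card_le_card h).trans ?_
  refine (card_union_le _ _).trans (Nat.add_le_add_right ?_ _)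
  refine (card_union_le _ _).trans (Nat.add_le_add_right ?_ _)
  exact card_union_le _ _

theorem depOn_NP (P : UE → Prop) (v : ℤ × ℤ) (r R : ℤ) (hr : 0 ≤ r) (k m : ℕ) :
    DepOn (BR v R : Set (ℤ × ℤ)) {ω | k ≤ (NP P v r R ω).card + m} := by
  intro ω ω' h
  have : NP P v r R ω' = NP P v r R ω := by
    ext b
    rw [mem_NP hr, mem_NP hr]
    have : MM ω' (An v r R : Set (ℤ × ℤ)) b = MM ω (An v r R) b :=
      MM_congr' fun f hf => h f (by
        rw [mem_coe, mem_An] at hf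
        exact mem_coe.2 hf.1)
    rw [this]
  rw [Set.mem_ofPred_eq, Set.mem_ofPred_eq, this]

theorem pr_right_le : ∃ q : ℝ, 0 < q ∧ q < 1 ∧ ∀ (v : ℤ × ℤ) (r : ℤ), 0 < r → ∀ k : ℕ,
    pr (BR v (2 * r)) {ω | 2 * k ≤ (NP (PR v (2 * r)) v r (2 * r) ω).card + 1} ≤ q ^ k := by
  obtain ⟨q, h0, h1, h⟩ := pr_LT_le 4
  refine ⟨q, h0, h1, fun v r hr k => ?_⟩
  refine (pr_mono _ fun ω hω => ?_).trans (h (v.1 + r) (v.1 + 2 * r) (v.2 - 2 * r) (v.2 + 2 * r)
    (BR v (2 * r)) (by omega) (by omega) (by push_cast; omega) ?_ k)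
  · have := card_NP_right (ω := ω) (v := v) hr (R := 2 * r) (by omega)
    rw [Set.mem_ofPred_eq] at hω ⊢
    omega
  · intro f hf
    rw [mem_BR]
    rw [mem_RF] at hf
    omega

theorem image_X (v : ℤ × ℤ) (R : ℤ) : (BR v R).image (symX (2 * v.1)).f = BR v R := by
  unfold BR
  exact (maps_X' v R).image_RF

theorem image_T (v : ℤ × ℤ) (R : ℤ) : (BR v R).image symT.f = BR (v.2, v.1) R := by
  unfold BR
  exact (Perc.Sym.maps_T _ _ _ _).image_RF

theorem pr_left_le : ∃ q : ℝ, 0 < q ∧ q < 1 ∧ ∀ (v : ℤ × ℤ) (r : ℤ), 0 < r → ∀ k : ℕ,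
    pr (BR v (2 * r)) {ω | 2 * k ≤ (NP (PL v (2 * r)) v r (2 * r) ω).card + 1} ≤ q ^ k := by
  obtain ⟨q, h0, h1, h⟩ := pr_right_le
  refine ⟨q, h0, h1, fun v r hr k => ?_⟩
  refine (pr_mono _ (B := {ω | (symX (2 * v.1)).act ω ∈
    {ω | 2 * k ≤ (NP (PR v (2 * r)) v r (2 * r) ω).card + 1}}) fun ω hω => ?_).trans ?_
  · have := card_NP_left (v := v) (R := 2 * r) hr.le ω
    rw [Set.mem_ofPred_eq] at hω
    rw [Set.mem_ofPred_eq, Set.mem_ofPred_eq]
    omega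
  · rw [Perc.Sym.pr_act _ (by rw [image_X]; exact depOn_NP _ _ _ _ hr.le _ _), image_X]
    exact h v r hr k

theorem pr_top_le : ∃ q : ℝ, 0 < q ∧ q < 1 ∧ ∀ (v : ℤ × ℤ) (r : ℤ), 0 < r → ∀ k : ℕ,
    pr (BR v (2 * r)) {ω | 2 * k ≤ (NP (PT v (2 * r)) v r (2 * r) ω).card + 1} ≤ q ^ k := by
  obtain ⟨q, h0, h1, h⟩ := pr_right_le
  refine ⟨q, h0, h1, fun v r hr k => ?_⟩
  refine (pr_mono _ (B := {ω | symT.act ω ∈
    {ω | 2 * k ≤ (NP (PR (v.2, v.1) (2 * r)) (v.2, v.1) r (2 * r) ω).card + 1}})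
    fun ω hω => ?_).trans ?_
  · have := card_NP_top (v := v) (R := 2 * r) hr.le ω
    rw [Set.mem_ofPred_eq] at hω
    rw [Set.mem_ofPred_eq, Set.mem_ofPred_eq]
    omega
  · rw [Perc.Sym.pr_act _ (by rw [image_T]; exact depOn_NP _ _ _ _ hr.le _ _), image_T]
    exact h _ r hr k

theorem pr_bot_le : ∃ q : ℝ, 0 < q ∧ q < 1 ∧ ∀ (v : ℤ × ℤ) (r : ℤ), 0 < r → ∀ k : ℕ,
    pr (BR v (2 * r)) {ω | 2 * k ≤ (NP (PB v (2 * r)) v r (2 * r) ω).card + 1} ≤ q ^ k := by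
  obtain ⟨q, h0, h1, h⟩ := pr_left_le
  refine ⟨q, h0, h1, fun v r hr k => ?_⟩
  refine (pr_mono _ (B := {ω | symT.act ω ∈
    {ω | 2 * k ≤ (NP (PL (v.2, v.1) (2 * r)) (v.2, v.1) r (2 * r) ω).card + 1}})
    fun ω hω => ?_).trans ?_
  · have := card_NP_bot (v := v) (R := 2 * r) hr.le ω
    rw [Set.mem_ofPred_eq] at hω
    rw [Set.mem_ofPred_eq, Set.mem_ofPred_eq]
    omega
  · rw [Perc.Sym.pr_act _ (by rw [image_T]; exact depOn_NP _ _ _ _ hr.le _ _), image_T]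
    exact h _ r hr k

/-- Exponential tail of the number of strands which cross the annulus. -/
theorem pr_NC_le : ∃ q : ℝ, 0 < q ∧ q < 1 ∧ ∀ (v : ℤ × ℤ) (r : ℤ) (W : Finset (ℤ × ℤ)), 0 < r →
    BR v (2 * r) ⊆ W → ∀ k : ℕ, pr W {ω | 8 * k ≤ NC v r (2 * r) ω + 7} ≤ 4 * q ^ k := by
  obtain ⟨q1, a1, b1, h1⟩ := pr_right_le
  obtain ⟨q2, a2, b2, h2⟩ := pr_left_le
  obtain ⟨q3, a3, b3, h3⟩ := pr_top_le
  obtain ⟨q4, a4, b4, h4⟩ := pr_bot_le
  set q := max (max q1 q2) (max q3 q4) with hq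
  refine ⟨q, lt_of_lt_of_le a1 ((le_max_left _ _).trans (le_max_left _ _)),
    max_lt (max_lt b1 b2) (max_lt b3 b4), fun v r W hr hW k => ?_⟩
  have hd : DepOn (BR v (2 * r) : Set (ℤ × ℤ)) {ω | 8 * k ≤ NC v r (2 * r) ω + 7} :=
    depOn_NP _ _ _ _ hr.le _ _
  rw [pr_eq_of_depOn hd hW]
  have e1 : q1 ^ k ≤ q ^ k :=
    pow_le_pow_left₀ a1.le ((le_max_left _ _).trans (le_max_left _ _)) k
  have e2 : q2 ^ k ≤ q ^ k :=
    pow_le_pow_left₀ a2.le ((le_max_right _ _).trans (le_max_left _ _)) k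
  have e3 : q3 ^ k ≤ q ^ k :=
    pow_le_pow_left₀ a3.le ((le_max_left _ _).trans (le_max_right _ _)) k
  have e4 : q4 ^ k ≤ q ^ k :=
    pow_le_pow_left₀ a4.le ((le_max_right _ _).trans (le_max_right _ _)) k
  set A1 := {ω | 2 * k ≤ (NP (PR v (2 * r)) v r (2 * r) ω).card + 1} with hA1
  set A2 := {ω | 2 * k ≤ (NP (PL v (2 * r)) v r (2 * r) ω).card + 1} with hA2
  set A3 := {ω | 2 * k ≤ (NP (PT v (2 * r)) v r (2 * r) ω).card + 1} with hA3
  set A4 := {ω | 2 * k ≤ (NP (PB v (2 * r)) v r (2 * r) ω).card + 1} with hA4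
  have hu : pr (BR v (2 * r)) {ω | 8 * k ≤ NC v r (2 * r) ω + 7} ≤
      pr (BR v (2 * r)) (((A1 ∪ A2) ∪ A3) ∪ A4) := by
    refine pr_mono _ fun ω hω => ?_
    rw [Set.mem_ofPred_eq] at hω
    have := card_NC_le (v := v) (R := 2 * r) hr.le ω
    simp only [Set.mem_union, hA1, hA2, hA3, hA4, Set.mem_ofPred_eq]
    omega
  have u1 := pr_union_le (BR v (2 * r)) ((A1 ∪ A2) ∪ A3) A4
  have u2 := pr_union_le (BR v (2 * r)) (A1 ∪ A2) A3
  have u3 := pr_union_le (BR v (2 * r)) A1 A2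
  linarith [h1 v r hr k, h2 v r hr k, h3 v r hr k, h4 v r hr k]

/-- Moments from an exponential tail. -/
theorem moment_of_tail {q : ℝ} (hq0 : 0 < q) (hq1 : q < 1) (p : ℕ) : ∃ C : ℝ, 0 < C ∧
    ∀ (W : Finset (ℤ × ℤ)) (N : Cfg → ℕ),
      (∀ k : ℕ, pr W {ω | 8 * k ≤ N ω + 7} ≤ 4 * q ^ k) →
      (∑ T ∈ W.powerset, (N (cfg T) : ℝ) ^ p) / 2 ^ W.card ≤ C := by
  classical
  set f : ℕ → ℝ := fun k => (8 * ((k : ℝ) + 1)) ^ p * (4 * q ^ (k + 1)) with hf
  have hfn : ∀ k, 0 ≤ f k := fun k => by positivity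
  have hsum : Summable f := by
    have h1 : Summable fun k : ℕ => ((k : ℝ) ^ p * q ^ k : ℝ) :=
      summable_pow_mul_geometric_of_norm_lt_one p (by rw [Real.norm_of_nonneg hq0.le]; exact hq1)
    have h2 : Summable fun k : ℕ => (((k + 1 : ℕ) : ℝ) ^ p * q ^ (k + 1) : ℝ) :=
      (summable_nat_add_iff 1).2 h1
    refine (h2.mul_left (8 ^ p * 4)).congr fun k => ?_
    rw [hf]
    push_cast
    rw [mul_pow]
    ring
  refine ⟨1 + ∑' k, f k, by
    have : 0 ≤ ∑' k, f k := tsum_nonneg hfn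
    linarith, fun W N hN => ?_⟩
  have hpow : (0 : ℝ) < 2 ^ W.card := by positivity
  -- a bound for `N`
  obtain ⟨K, hK⟩ : ∃ K : ℕ, ∀ T ∈ W.powerset, N (cfg T) ≤ K :=
    ⟨W.powerset.sup fun T => N (cfg T), fun T hT => Finset.le_sup (f := fun T => N (cfg T)) hT⟩
  have h1 : ∀ T ∈ W.powerset, ((N (cfg T) : ℝ)) ^ p ≤
      1 + ∑ k ∈ range (K + 1), (8 * ((k : ℝ) + 1)) ^ p *
        (if cfg T ∈ {ω | 8 * (k + 1) ≤ N ω + 7} then (1 : ℝ) else 0) := by
    intro T hT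
    have hnn : ∀ k ∈ range (K + 1), (0 : ℝ) ≤ (8 * ((k : ℝ) + 1)) ^ p *
        (if cfg T ∈ {ω | 8 * (k + 1) ≤ N ω + 7} then (1 : ℝ) else 0) := by
      intro k _
      split_ifs
      · positivity
      · rw [mul_zero]
    by_cases h0 : N (cfg T) = 0
    · have h2 : (N (cfg T) : ℝ) ^ p ≤ 1 := by
        rw [h0]
        rcases Nat.eq_zero_or_pos p with h | h
        · subst h; simp
        · rw [Nat.cast_zero, zero_pow h.ne']; norm_num
      have := Finset.sum_nonneg hnn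
      linarith
    · set k := (N (cfg T) - 1) / 8 with hk
      have hkK : k ∈ range (K + 1) := by
        rw [mem_range]
        have := hK T hT
        omega
      have h3 : (N (cfg T) : ℝ) ≤ 8 * ((k : ℝ) + 1) := by
        have : N (cfg T) ≤ 8 * (k + 1) := by omega
        exact_mod_cast this
      have h4 : cfg T ∈ {ω | 8 * (k + 1) ≤ N ω + 7} := by
        rw [Set.mem_ofPred_eq]
        omega
      have h5 := Finset.single_le_sum hnn hkK
      simp only [if_pos h4, mul_one] at h5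
      have h6 : (N (cfg T) : ℝ) ^ p ≤ (8 * ((k : ℝ) + 1)) ^ p :=
        pow_le_pow_left₀ (Nat.cast_nonneg _) h3 p
      linarith
  calc (∑ T ∈ W.powerset, (N (cfg T) : ℝ) ^ p) / 2 ^ W.card
      ≤ (∑ T ∈ W.powerset, (1 + ∑ k ∈ range (K + 1), (8 * ((k : ℝ) + 1)) ^ p *
        (if cfg T ∈ {ω | 8 * (k + 1) ≤ N ω + 7} then (1 : ℝ) else 0))) / 2 ^ W.card :=
        div_le_div_of_nonneg_right (Finset.sum_le_sum h1) hpow.le
    _ = 1 + ∑ k ∈ range (K + 1), (8 * ((k : ℝ) + 1)) ^ p *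
        pr W {ω | 8 * (k + 1) ≤ N ω + 7} := by
        rw [Finset.sum_add_distrib, Finset.sum_const, card_powerset, nsmul_eq_mul, mul_one,
          Finset.sum_comm, add_div]
        push_cast
        rw [div_self hpow.ne', Finset.sum_div]
        congr 1
        refine Finset.sum_congr rfl fun k _ => ?_
        rw [← Finset.mul_sum, mul_div_assoc, ProbA.pr_eq_sum]
        congr!
    _ ≤ 1 + ∑ k ∈ range (K + 1), f k := by
        refine add_le_add le_rfl (Finset.sum_le_sum fun k _ => ?_)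
        exact mul_le_mul_of_nonneg_left (hN (k + 1)) (by positivity)
    _ ≤ 1 + ∑' k, f k := add_le_add le_rfl (hsum.sum_le_tsum _ fun k _ => hfn k)

/-- All moments of the number of strands which cross the annulus are bounded. -/
theorem moment_NC (p : ℕ) : ∃ C : ℝ, 0 < C ∧ ∀ (v : ℤ × ℤ) (r : ℤ) (W : Finset (ℤ × ℤ)), 0 < r →
    BR v (2 * r) ⊆ W →
    (∑ T ∈ W.powerset, (NC v r (2 * r) (cfg T) : ℝ) ^ p) / 2 ^ W.card ≤ C := by
  obtain ⟨q, hq0, hq1, h⟩ := pr_NC_le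
  obtain ⟨C, hC, hC'⟩ := moment_of_tail hq0 hq1 p
  exact ⟨C, hC, fun v r W hr hW => hC' W _ fun k => h v r W hr hW k⟩

end Pool.Agent.PercN

end Parth22CountZ

section Partperc3T3Geo

/-!
# T3, row Geo: the index with respect to a corridor in the twisted plane

The index of the face `f` of the twisted plane is the winding number `ind` of the corridor at the
same coordinates. Tools: `ind_hmove'`, `ind_right`, `ind_up`, `ind_hor` of `PairsZ` and `Loop`,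
`corT_eq` of `TwQ`.
-/

set_option autoImplicit false

namespace Pool.Agent.Perc3

open Finset Pool.Agent.Perc Pool.Agent.Perc.Q

variable {L d₀ d w D n μ : ℤ} {u : ℤ × ℤ} {l : List (ℤ × ℤ)} {X : Set (ℤ × ℤ)}

namespace GeoAux

theorem mem_An' {f : ℤ × ℤ} : f ∈ An d w ↔
    ((-(w + 2) ≤ f.1 ∧ f.1 < w ∧ 0 ≤ f.2 ∧ f.2 < w) ∨
      (-(w + 1) ≤ f.1 ∧ f.1 < w ∧ -w ≤ f.2 ∧ f.2 < 0)) ∧
    ¬ ((-(d + 2) ≤ f.1 ∧ f.1 < d ∧ 0 ≤ f.2 ∧ f.2 < d) ∨
      (-(d + 1) ≤ f.1 ∧ f.1 < d ∧ -d ≤ f.2 ∧ f.2 < 0)) := by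
  unfold An
  rw [Set.mem_sdiff, mem_coe, mem_coe, BdAux.mem_BW, BdAux.mem_BW]

end GeoAux

open GeoAux

/-- Faces of the twisted plane are faces of the annulus of the square grid. -/
theorem an_sub_AnF (hd : d₀ + n ≤ d) (hw : w + n + 2 ≤ L) {f : ℤ × ℤ} (hf : f ∈ An d w) {j : ℤ}
    (hj : |j| ≤ n) : (f.1 + j, f.2) ∈ AnF L L d₀ := by
  rw [mem_An'] at hf
  rw [mem_AnF]
  rw [abs_le] at hj
  simp only
  omega

/-- The index does not change by a horizontal move of length at most `n < D`. -/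
theorem ind_move (hc : Corr L L d₀ u l) (h1 : 1 < d₀) (hd : d₀ + n ≤ d) (hw : w + n + 2 ≤ L)
    (hD : n < D) {f : ℤ × ℤ} (hf : f ∈ An d w) (hfar : FarP D u l f) {j : ℤ} (hj : |j| ≤ n) :
    ind L L u l (f.1 + j, f.2) = ind L L u l f := by
  have hf' := mem_An'.1 hf
  have hj' := abs_le.1 hj
  have hL : 0 ≤ L := by omega
  refine (ind_hmove' h1 hL hL hc (y := f.2) (x₁ := f.1) (x₂ := f.1 + j) ?_ ?_).symm
  · intro i hi1 hi2
    have h2 : |i - f.1| ≤ n := by rw [abs_le]; omega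
    have h3 := an_sub_AnF hd hw hf h2
    rwa [add_sub_cancel] at h3
  · intro i hi1 hi2 hp
    have h2 := hfar _ hp
    simp only at h2
    rw [sub_self, abs_zero, lt_max_iff, lt_abs] at h2
    omega

namespace GeoAux

/-- Steps which do not change the index. -/
theorem ind_step (hc : Corr L L d₀ u l) (h1 : 1 < d₀) (hn : 2 ≤ n) (hd : d₀ + n ≤ d)
    (hw : w + n + 2 ≤ L) (hD : n < D) {x y x' y' : ℤ} (hf : (x, y) ∈ An d w)
    (hg : (x', y') ∈ An d w) (hfar : FarP D u l (x, y)) (hfar' : FarP D u l (x', y'))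
    (h : (y' = y ∧ (x' = x ∨ x' = x + 1 ∨ x' = x - 1)) ∨
      (x' = x ∧ ((y' = y + 1 ∧ (y ≠ -1 ∨ 0 ≤ x)) ∨ (y' = y - 1 ∧ (y ≠ 0 ∨ 0 ≤ x))))) :
    ind L L u l (x', y') = ind L L u l (x, y) := by
  have hf' := mem_An'.1 hf
  have hL : 0 ≤ L := by simp only at hf'; omega
  have hup : ∀ x y : ℤ, (x, y) ∈ An d w → FarP D u l (x, y) → (y ≠ -1 ∨ 0 ≤ x) →
      ind L L u l (x, y + 1) = ind L L u l (x, y) := by
    intro x y hf hfar hy
    have hf2 := an_sub_AnF hd hw hf (j := 0) (by rw [abs_zero]; omega)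
    rw [add_zero] at hf2
    have ha : ¬ OnPath u l (x, y + 1, false) :=
      hfar.side (by omega) (a := to' (x, y)) (Or.inr (Or.inr (Or.inl rfl)))
    have k1 := side_inn h1 hc hf2 (a := to' (x, y)) (Or.inr (Or.inr (Or.inl rfl)))
    have k3 := side_outp hL hL hc hf2 (a := to' (x, y)) (Or.inr (Or.inr (Or.inl rfl)))
    have h4 := ind_hor hc hL k1 ha k3
    rw [add_sub_cancel_right, if_neg (by omega), add_zero] at h4
    exact h4.symm
  rcases h with ⟨rfl, rfl | rfl | rfl⟩ | ⟨rfl, ⟨rfl, h⟩ | ⟨rfl, h⟩⟩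
  · rfl
  · exact ind_move hc h1 hd hw hD hf hfar (j := 1) (by rw [abs_one]; omega)
  · have := ind_move hc h1 hd hw hD hf hfar (j := -1) (by rw [abs_neg, abs_one]; omega)
    exact this
  · exact hup _ _ hf hfar h
  · have := hup _ _ hg hfar' (by omega)
    rw [sub_add_cancel] at this
    exact this.symm

/-- The step across the cut. -/
theorem ind_cross (hc : Corr L L d₀ u l) (h1 : 1 < d₀) (hn : 2 ≤ n) (hd : d₀ + n ≤ d)
    (hw : w + n + 2 ≤ L) (hD : n < D) {x : ℤ} (hf : (x, 0) ∈ An d w) (hx : x < -2)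
    (hfar : FarP D u l (x, 0)) :
    ind L L u l (x + 1, -1) = ind L L u l (x, 0) + 1 := by
  have hf' := mem_An'.1 hf
  have hL : 0 ≤ L := by simp only at hf'; omega
  have h0 := ind_move hc h1 hd hw hD hf hfar (j := 1) (by rw [abs_one]; omega)
  simp only at h0
  rw [← h0]
  have hf2 := an_sub_AnF hd hw hf (j := 1) (by rw [abs_one]; omega)
  simp only at hf2
  have ha : ¬ OnPath u l (x + 1, 0, false) := by
    intro hp
    have h2 := hfar _ hp
    simp only at h2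
    rw [lt_max_iff, lt_abs, lt_abs] at h2
    omega
  have k1 := side_inn h1 hc hf2 (a := bo (x + 1, 0)) (Or.inl rfl)
  have k3 := side_outp hL hL hc hf2 (a := bo (x + 1, 0)) (Or.inl rfl)
  have h4 := ind_hor hc hL k1 ha k3
  rw [if_pos (by simp only at hf'; omega)] at h4
  exact h4

end GeoAux

/-- The index is compatible with the cover. -/
theorem isIndT_ind (hc : Corr L L d₀ u l) (h1 : 1 < d₀) (hn : 2 ≤ n) (hd : d₀ + n ≤ d)
    (hw : w + n + 2 ≤ L) (hD : n < D) (hX : X ⊆ An d w) (hfar : ∀ f ∈ X, FarP D u l f)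
    (hN : ∀ f, |ind L L u l f - μ| ≤ n) : IsIndT X (fun f => ind L L u l f - μ) := by
  have key : ∀ f ∈ X, ∀ g ∈ X, ∀ k l', (k = 1 ∨ k = 2) →
      TQ.c g l' = TQ.c f (k + 1) → TQ.c g (l' + 1) = TQ.c f k →
      shS (fun f => ind L L u l f - μ) f k = shS (fun f => ind L L u l f - μ) g l' := by
    rintro ⟨x, y⟩ hf ⟨x', y'⟩ hg k l' hk e1 e2
    obtain ⟨hl, hcase⟩ := BdAux.side_eq (f := (x, y)) (g := (x', y')) (k := k) (l := l')
      (by rw [e1, e2])
    have hfa := hX hf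
    have hga := hX hg
    have hfa' := mem_An'.1 hfa
    have hga' := mem_An'.1 hga
    have hNf := abs_le.1 (hN (x, y))
    have hNg := abs_le.1 (hN (x', y'))
    simp only at hcase hfa' hga'
    rcases hk with rfl | rfl
    · -- right side
      have hcase' : y' = y ∧ x' = x + 1 := by
        rcases hcase with ⟨h, -⟩ | ⟨-, h⟩ | ⟨h, -⟩ | ⟨h, -⟩
        · exact absurd h (by decide)
        · exact h
        · exact absurd h (by decide)
        · exact absurd h (by decide)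
      obtain ⟨rfl, rfl⟩ := hcase'
      have hl' : l' = 3 := by rw [hl]; rfl
      subst hl'
      have hi := ind_step hc h1 hn hd hw hD hfa hga (hfar _ hf) (hfar _ hg)
        (Or.inl ⟨rfl, Or.inr (Or.inl rfl)⟩)
      unfold shS shF
      simp only [hi]
      have hs1 : ∀ a : ℤ × ℤ, sd a 1 = ri a := fun a => rfl
      have hs3 : ∀ a : ℤ × ℤ, sd a 3 = le' a := fun a => rfl
      rw [hs1, hs3]
      unfold lft
      have c1 : ¬ IsCut (ri (x - (ind L L u l (x, y') - μ), y')) := by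
        unfold IsCut ri; simp
      have c2 : ¬ IsCut (le' (x + 1 - (ind L L u l (x, y') - μ), y')) := by
        unfold IsCut le'; simp
      rw [if_neg (fun h => c1 h.1), if_neg (fun h => c2 h.1)]
      unfold ri le'
      simp only [Prod.mk.injEq, and_true]
      ring
    · -- upper side
      have hcase' : y' = y + 1 ∧ ((y ≠ -1 ∧ x' = x) ∨ (y = -1 ∧ 0 ≤ x ∧ x' = x) ∨
          (y = -1 ∧ x + 1 < 0 ∧ x' = x - 1)) := by
        rcases hcase with ⟨h, -⟩ | ⟨h, -⟩ | ⟨-, h⟩ | ⟨h, -⟩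
        · exact absurd h (by decide)
        · exact absurd h (by decide)
        · exact h
        · exact absurd h (by decide)
      have hl' : l' = 0 := by rw [hl]; rfl
      subst hl'
      have hs2 : ∀ a : ℤ × ℤ, sd a 2 = to' a := fun a => rfl
      have hs0 : ∀ a : ℤ × ℤ, sd a 0 = bo a := fun a => rfl
      unfold shS shF
      rw [hs2, hs0]
      unfold lft IsCut to' bo
      simp only [true_and]
      obtain ⟨hy, hc2⟩ := hcase'
      subst hy
      by_cases hcr : y = -1 ∧ x + 1 < 0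
      · obtain ⟨rfl, hx⟩ := hcr
        have hx' : x' = x - 1 := by omega
        subst hx'
        have hi := ind_cross hc h1 hn hd hw hD (x := x - 1) hga (by omega) (hfar _ hg)
        rw [sub_add_cancel] at hi
        have h0 : ((-1 : ℤ) + 1) = 0 := by norm_num
        rw [h0] at hNg ⊢
        rw [hi]
        rw [hi] at hNf
        rw [if_pos (by omega), if_neg (by omega)]
        simp only [Prod.mk.injEq, and_true]
        omega
      · have hx' : x' = x := by omega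
        subst hx'
        have hi := ind_step hc h1 hn hd hw hD hfa hga (hfar _ hf) (hfar _ hg)
          (Or.inr ⟨rfl, Or.inl ⟨rfl, by omega⟩⟩)
        rw [hi]
        rw [hi] at hNg
        by_cases hy : y = -1
        · rw [if_neg (by omega), if_neg (by omega)]
        · rw [if_neg (by omega), if_neg (by omega)]
  intro f hf g hg k l' e1 e2
  rcases BdAux.zk k with rfl | rfl | rfl | rfl
  · obtain ⟨hl, -⟩ := BdAux.side_eq (f := f) (g := g) (k := 0) (l := l') (by rw [e1, e2])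
    exact (key g hg f hf l' 0 (Or.inr (by rw [hl]; rfl)) e2.symm e1.symm).symm
  · exact key f hf g hg 1 l' (Or.inl rfl) e1 e2
  · exact key f hf g hg 2 l' (Or.inr rfl) e1 e2
  · obtain ⟨hl, -⟩ := BdAux.side_eq (f := f) (g := g) (k := 3) (l := l') (by rw [e1, e2])
    exact (key g hg f hf l' 3 (Or.inl (by rw [hl]; rfl)) e2.symm e1.symm).symm

namespace GeoAux

/-- The face behind the boundary edge. -/
def fcW (r t : ℤ) : ℤ × ℤ :=
  if t < r then (r - 1, t) else if t < 3 * r + 2 then (2 * r - t - 1, r - 1)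
  else if t < 4 * r + 2 then (-(r + 2), 4 * r + 1 - t)
  else if t < 5 * r + 2 then (-(r + 1), 4 * r + 1 - t)
  else if t < 7 * r + 3 then (t - 6 * r - 3, -r) else (r - 1, t - 8 * r - 3)

open BdAux

theorem ine_fcW {r t : ℤ} (hr : 0 < r) (h0 : 0 ≤ t) (h1 : t < 8 * r + 3) :
    ∃ k, ine r t = (TQ.c (fcW r t) k, TQ.c (fcW r t) (k + 1)) := by
  unfold ine fcW
  by_cases a1 : t < r
  · rw [bd_R (by omega), bd_R (by omega), if_pos a1]
    refine ⟨1, ?_⟩
    rw [zk1, c_1, c_2, gl_of_ne (by omega), gl_of_ne (by omega), sub_add_cancel]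
  rw [if_neg a1]
  by_cases a2 : t < 3 * r + 2
  · rw [bd_T (by omega) (by omega), bd_T (by omega) (by omega), if_pos a2]
    refine ⟨2, ?_⟩
    rw [zk2, c_2, c_3, gl_of_ne (by omega), gl_of_ne (by omega), sub_add_cancel, sub_add_cancel,
      sub_add_eq_sub_sub]
  rw [if_neg a2]
  by_cases a3 : t < 4 * r + 2
  · rw [bd_L hr.le (by omega) (by omega), bd_L hr.le (by omega) (by omega), if_pos a3]
    refine ⟨3, ?_⟩
    rw [zk3, c_3, c_0, gl_of_ne (by omega), gl_of_ne (by omega), Prod.ext_iff, Prod.ext_iff,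
      Prod.ext_iff]
    dsimp only
    omega
  rw [if_neg a3]
  by_cases a4 : t < 5 * r + 2
  · rw [if_pos a4]
    have hq : bd r (t + 1) = (-(r + 1), 4 * r + 1 - t) := by
      rw [bd_Ll hr.le (by omega) (by omega), Prod.mk.injEq]; omega
    have hp : bd r t = gl (-1) (-(r + 1)) (4 * r + 2 - t) := by
      by_cases h : t = 4 * r + 2
      · rw [gl_of (by omega) (by omega) (by omega), bd_L hr.le (by omega) (by omega),
          Prod.mk.injEq]
        omega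
      · rw [gl_of_ne (by omega), bd_Ll hr.le (by omega) (by omega)]
    have hgl : ∀ y, y < 0 → gl y (-(r + 1)) (4 * r + 2 - t) =
        gl (-1) (-(r + 1)) (4 * r + 2 - t) := by
      intro y hy
      unfold gl
      simp only [hy, show (-1 : ℤ) < 0 by norm_num]
    have e2 : gl (4 * r + 1 - t) (-(r + 1)) (4 * r + 1 - t) = (-(r + 1), 4 * r + 1 - t) :=
      gl_of_ne (by omega)
    rw [hp, hq]
    refine ⟨3, ?_⟩
    rw [zk3, c_3, c_0]
    dsimp only
    rw [show 4 * r + 1 - t + 1 = 4 * r + 2 - t by ring, hgl (4 * r + 1 - t) (by omega), e2]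
  rw [if_neg a4]
  by_cases a5 : t < 7 * r + 3
  · rw [bd_B hr (by omega) (by omega), bd_B hr (by omega) (by omega), if_pos a5]
    refine ⟨0, ?_⟩
    rw [zk0, c_0, c_1, gl_of_ne (by omega), gl_of_ne (by omega), Prod.ext_iff, Prod.ext_iff,
      Prod.ext_iff]
    dsimp only
    omega
  · rw [bd_Rl (by omega) (by omega), bd_Rl (by omega) (by omega), if_neg a5]
    refine ⟨1, ?_⟩
    rw [zk1, c_1, c_2, gl_of_ne (by omega), gl_of_ne (by omega), Prod.ext_iff, Prod.ext_iff,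
      Prod.ext_iff]
    dsimp only
    omega

theorem face_eq {r t : ℤ} (hr : 0 < r) (h0 : 0 ≤ t) (h1 : t < 8 * r + 3) {f : ℤ × ℤ} {k : ZMod 4}
    (h : ine r t = (TQ.c f k, TQ.c f (k + 1))) : f = fcW r t := by
  obtain ⟨k', hk'⟩ := ine_fcW hr h0 h1
  rw [h, Prod.mk.injEq] at hk'
  exact (TQ.inj hk'.1 hk'.2).1

end GeoAux

/-- The index of two neighbouring boundary faces: it increases by one when the cut is crossed
counterclockwise. -/
theorem ind_bd (hc : Corr L L d₀ u l) (h1 : 1 < d₀) (hn : 2 ≤ n) (hd : d₀ + n ≤ d) (hdw : d < w)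
    (hw : w + n + 2 ≤ L) (hD : n < D) {t : ℤ} (h0 : 0 ≤ t) (ht : t + 1 < 8 * w + 3) {f g : ℤ × ℤ}
    {k k' : ZMod 4} (hf : f ∈ BW w) (hg : g ∈ BW w) (hft : ine w t = (TQ.c f k, TQ.c f (k + 1)))
    (hgt : ine w (t + 1) = (TQ.c g k', TQ.c g (k' + 1))) (hfar : FarP D u l f)
    (hfar' : FarP D u l g) :
    ind L L u l g = ind L L u l f + if t + 1 = 4 * w + 2 then 1 else 0 := by
  have hw0 : 0 < w := by omega
  have ef := face_eq hw0 h0 (by omega) hft
  have eg := face_eq hw0 (by omega) ht hgt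
  have hfA : f ∈ An d w := by
    rw [mem_An', ef]
    unfold fcW
    split_ifs <;> simp only <;> omega
  have hgA : g ∈ An d w := by
    rw [mem_An', eg]
    unfold fcW
    split_ifs <;> simp only <;> omega
  obtain ⟨x, y⟩ := f
  obtain ⟨x', y'⟩ := g
  by_cases hcr : t + 1 = 4 * w + 2
  · have e1 : x = -(w + 2) ∧ y = 0 := by
      unfold fcW at ef
      rw [if_neg (by omega), if_neg (by omega), if_pos (by omega), Prod.mk.injEq] at ef
      omega
    have e2 : x' = -(w + 1) ∧ y' = -1 := by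
      unfold fcW at eg
      rw [if_neg (by omega), if_neg (by omega), if_neg (by omega), if_pos (by omega),
        Prod.mk.injEq] at eg
      omega
    obtain ⟨rfl, rfl⟩ := e1
    obtain ⟨rfl, rfl⟩ := e2
    rw [if_pos hcr]
    have := ind_cross hc h1 hn hd hw hD hfA (by omega) hfar
    rw [show -(w + 2) + 1 = -(w + 1) by ring] at this
    exact this
  · rw [if_neg hcr, add_zero]
    refine ind_step hc h1 hn hd hw hD hfA hgA hfar hfar' ?_
    unfold fcW at ef eg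
    split_ifs at ef eg <;> (rw [Prod.mk.injEq] at ef eg; omega)

/-- The same for the last and the first boundary face. -/
theorem ind_bd_last (hc : Corr L L d₀ u l) (h1 : 1 < d₀) (hn : 2 ≤ n) (hd : d₀ + n ≤ d)
    (hdw : d < w) (hw : w + n + 2 ≤ L) (hD : n < D) {f g : ℤ × ℤ} {k k' : ZMod 4} (hf : f ∈ BW w)
    (hg : g ∈ BW w) (hft : ine w (8 * w + 2) = (TQ.c f k, TQ.c f (k + 1)))
    (hgt : ine w 0 = (TQ.c g k', TQ.c g (k' + 1))) (hfar : FarP D u l f)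
    (hfar' : FarP D u l g) : ind L L u l g = ind L L u l f := by
  have hw0 : 0 < w := by omega
  have ef := face_eq hw0 (by omega) (by omega) hft
  have eg := face_eq hw0 (by omega) (by omega) hgt
  have hfA : f ∈ An d w := by
    rw [mem_An', ef]
    unfold fcW
    split_ifs <;> simp only <;> omega
  have hgA : g ∈ An d w := by
    rw [mem_An', eg]
    unfold fcW
    split_ifs <;> simp only <;> omega
  obtain ⟨x, y⟩ := f
  obtain ⟨x', y'⟩ := g
  refine ind_step hc h1 hn hd hw hD hfA hgA hfar hfar' ?_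
  unfold fcW at ef eg
  split_ifs at ef eg <;> (rw [Prod.mk.injEq] at ef eg; omega)

end Pool.Agent.Perc3

end Partperc3T3Geo

section Partperc3T3Cmp

/-!
# T3, row Cmp: thickness, separation and comparison
-/

set_option autoImplicit false

namespace Pool.Agent.Perc3

open Finset Pool.Agent.Perc Pool.Agent.Perc.Q

variable {L d₀ d w n D : ℤ} {m : ℕ} {t₁ t₂ ε : ℤ}

/-- The lifted starting edges. -/
def ST (w t₁ t₂ ε : ℤ) : Set LE := {bdL w t₁ 0} ∪ {bdL w t₂ ε}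

theorem abs_index_le {ζ : LF → Bool} (h : ζ ∈ PairT L d₀ d w n D m t₁ t₂ ε) {s : LF}
    (hs : s ∈ SL ζ (LAT d w n) (ST w t₁ t₂ ε)) : |s.2| ≤ 2 * m + 12 := by
  obtain ⟨-, -, u, l, μ, -, hl, hμ, hall⟩ := h
  have h1 := (hall s hs).2
  have h2 := abs_ind_le (L := L) (w := L) (u := u) (l := l) s.1
  have hl' : (l.length : ℤ) ≤ m := by exact_mod_cast hl
  rw [h1]
  rw [abs_le] at h2 hμ ⊢
  constructor <;> linarith

/-- The base faces of the lifted annulus of the twisted plane. -/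
theorem fst_mem_AnF (hd : d₀ + n ≤ d) (hw : w + n + 2 ≤ L) {s : LF} (hs : s ∈ LAT d w n) :
    s.1 ∈ AnF L L d₀ := by
  obtain ⟨⟨h1, h2⟩, h3⟩ := mem_LAT.1 hs
  rw [mem_BW] at h1 h2
  unfold pj at h1 h2
  rw [mem_AnF]
  rw [abs_le] at h3
  simp only [one_mul] at h1 h2
  omega

theorem thick_pairT (h1 : 1 < d₀) (hd : d₀ + 2 * n ≤ d) (hw : w + 2 * n + 2 ≤ L)
    (hD1 : D ≤ 2 * d₀) (hD : 4 * (2 * m + 12) ≤ D) {ζ : LF → Bool}
    (h : ζ ∈ PairT L d₀ d w n D m t₁ t₂ ε) : Thick 2 (SL ζ (LAT d w n) (ST w t₁ t₂ ε)) := by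
  have hidx := fun s hs => abs_index_le (s := s) h hs
  obtain ⟨-, -, u, l, μ, hc, hl, hμ, hall⟩ := h
  intro s hs s' hs' hh
  have hsL := mem_coe.1 (SL_sub hs)
  have hsL' := mem_coe.1 (SL_sub hs')
  have hn : 0 ≤ n := (abs_nonneg _).trans (mem_LAT.1 hsL).2
  have hf := fst_mem_AnF (d₀ := d₀) (L := L) (by omega) (by omega) hsL
  have hf' := fst_mem_AnF (d₀ := d₀) (L := L) (by omega) (by omega) hsL'
  have hL : 0 ≤ L := by
    rw [mem_AnF] at hf
    omega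
  have e1 := hall s hs
  have e2 := hall s' hs'
  by_cases hd' : |s.1.1 - s'.1.1| < D ∧ |s.1.2 - s'.1.2| < D
  · have h3 := ind_eq_of_near h1 hL hL hc hD1 hf hf' hh hd'.1 hd'.2 e1.1
    rw [e1.2, e2.2, h3, sub_self, abs_zero, mul_zero]
    exact le_max_of_le_left (abs_nonneg _)
  · have h3 : D ≤ max |s.1.1 - s'.1.1| |s.1.2 - s'.1.2| := by
      rw [le_max_iff]
      by_contra hcon
      rw [not_or, not_le, not_le] at hcon
      exact hd' hcon
    refine le_trans (le_trans ?_ hD) h3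
    have h4 := hidx s hs
    have h5 := hidx s' hs'
    have h6 : |s.2 - s'.2| ≤ 2 * (2 * m + 12) := by
      rw [abs_le] at h4 h5 ⊢
      constructor <;> linarith
    linarith

/-- The vertical move across the cut. -/
theorem ind_lv_vmove {L d : ℤ} {u : ℤ × ℤ} {l : List (ℤ × ℤ)} (hd : 1 < d) (hL : 0 ≤ L)
    (hc : Corr L L d u l) {x y₁ y₂ : ℤ} (hy : y₁ ≤ y₂)
    (hf : ∀ j, y₁ ≤ j → j ≤ y₂ → (x, j) ∈ AnF L L d)
    (ha : ∀ j, y₁ < j → j ≤ y₂ → ¬ OnPath u l (x, j, false)) :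
    ind L L u l (x, y₁) - lv x y₁ = ind L L u l (x, y₂) - lv x y₂ := by
  induction y₂, hy using Int.leInduction with
  | base => rfl
  | succ y hy ih =>
    rw [ih (fun i h1 h2 => hf i h1 (by omega)) (fun i h1 h2 => ha i h1 (by omega))]
    have hfy := hf y hy (by omega)
    have hay := ha (y + 1) (by omega) le_rfl
    by_cases hy1 : y = -1
    · subst hy1
      have h1 := side_inn hd hc hfy (a := to' (x, -1)) (Or.inr (Or.inr (Or.inl rfl)))
      have h3 := side_outp hL hL hc hfy (a := to' (x, -1)) (Or.inr (Or.inr (Or.inl rfl)))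
      have h4 : ind L L u l (x, -1 + 1 - 1) = ind L L u l (x, -1 + 1) +
          if (-1 + 1 : ℤ) = 0 ∧ x ≤ -2 ∧ -L - 1 ≤ x then 1 else 0 := ind_hor hc hL h1 hay h3
      rw [add_sub_cancel_right] at h4
      rw [h4]
      rw [mem_AnF] at hfy
      simp only at hfy
      unfold lv
      split_ifs <;> omega
    · rw [ind_up hd hL hL hc hfy hy1 hay]
      unfold lv
      split_ifs <;> omega

theorem ind_lv_vmove' {L d : ℤ} {u : ℤ × ℤ} {l : List (ℤ × ℤ)} (hd : 1 < d) (hL : 0 ≤ L)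
    (hc : Corr L L d u l) {x y₁ y₂ : ℤ}
    (hf : ∀ j, min y₁ y₂ ≤ j → j ≤ max y₁ y₂ → (x, j) ∈ AnF L L d)
    (ha : ∀ j, min y₁ y₂ ≤ j → j ≤ max y₁ y₂ → ¬ OnPath u l (x, j, false)) :
    ind L L u l (x, y₁) - lv x y₁ = ind L L u l (x, y₂) - lv x y₂ := by
  rcases le_total y₁ y₂ with h | h
  · rw [min_eq_left h, max_eq_right h] at hf ha
    exact ind_lv_vmove hd hL hc h hf fun i h1 h2 => ha i h1.le h2
  · rw [min_eq_right h, max_eq_left h] at hf ha
    exact (ind_lv_vmove hd hL hc h hf fun i h1 h2 => ha i h1.le h2).symm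

/-- The index of faces which are close to each other, also across the cut. -/
theorem ind_lv_of_near {L d D : ℤ} {u : ℤ × ℤ} {l : List (ℤ × ℤ)} (hd : 1 < d) (hL : 0 ≤ L)
    (hc : Corr L L d u l) (hD : D < d) {f f' : ℤ × ℤ} (hf : f ∈ AnF L L d)
    (hf' : f' ∈ AnF L L d) (h1 : |f.1 - f'.1| ≤ D) (h2 : |f.2 - f'.2| ≤ D)
    (hfar : FarP D u l f) :
    ind L L u l f' - lv f.1 f'.2 = ind L L u l f - lv f.1 f.2 := by
  obtain ⟨x₁, y₁⟩ := f
  obtain ⟨x₂, y₂⟩ := f'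
  rw [mem_AnF] at hf hf'
  simp only at hf hf' h1 h2 ⊢
  rw [abs_le] at h1 h2
  have hno : ∀ i j : ℤ, ∀ b : Bool, min x₁ x₂ ≤ i → i ≤ max x₁ x₂ → min y₁ y₂ ≤ j →
      j ≤ max y₁ y₂ → ¬ OnPath u l (i, j, b) := by
    intro i j b h3 h4 h5 h6 hp
    have h7 := hfar _ hp
    simp only at h7
    rw [lt_max_iff, lt_abs, lt_abs] at h7
    omega
  have key : ((x₁ < -d ∨ d ≤ x₁ ∨ (d ≤ y₁ ∧ d ≤ y₂) ∨ (y₁ < -d ∧ y₂ < -d)) ∧
      (y₂ < -d ∨ d ≤ y₂ ∨ (x₁ < -d ∧ x₂ < -d) ∨ (d ≤ x₁ ∧ d ≤ x₂))) ∨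
    ((x₂ < -d ∨ d ≤ x₂ ∨ (d ≤ y₁ ∧ d ≤ y₂) ∨ (y₁ < -d ∧ y₂ < -d)) ∧
      (y₁ < -d ∨ d ≤ y₁ ∨ (x₁ < -d ∧ x₂ < -d) ∨ (d ≤ x₁ ∧ d ≤ x₂))) := by omega
  rcases key with ⟨k1, k2⟩ | ⟨k1, k2⟩
  · have e1 : ind L L u l (x₁, y₁) - lv x₁ y₁ = ind L L u l (x₁, y₂) - lv x₁ y₂ := by
      refine ind_lv_vmove' hd hL hc ?_ ?_
      · intro i h3 h4
        rw [mem_AnF]
        simp only
        omega
      · intro i h3 h4
        exact hno _ _ _ (by omega) (by omega) h3 h4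
    have e2 : ind L L u l (x₁, y₂) = ind L L u l (x₂, y₂) := by
      refine ind_hmove' hd hL hL hc ?_ ?_
      · intro i h3 h4
        rw [mem_AnF]
        simp only
        omega
      · intro i h3 h4
        exact hno _ _ _ h3 h4 (by omega) (by omega)
    rw [e1, e2]
  · have e1 : ind L L u l (x₁, y₁) = ind L L u l (x₂, y₁) := by
      refine ind_hmove' hd hL hL hc ?_ ?_
      · intro i h3 h4
        rw [mem_AnF]
        simp only
        omega
      · intro i h3 h4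
        exact hno _ _ _ h3 h4 (by omega) (by omega)
    have e2 : ind L L u l (x₂, y₁) - lv x₂ y₁ = ind L L u l (x₂, y₂) - lv x₂ y₂ := by
      refine ind_lv_vmove' hd hL hc ?_ ?_
      · intro i h3 h4
        rw [mem_AnF]
        simp only
        omega
      · intro i h3 h4
        exact hno _ _ _ (by omega) (by omega) h3 h4
    have e3 : lv x₂ y₁ - lv x₂ y₂ = lv x₁ y₁ - lv x₁ y₂ := by
      unfold lv
      split_ifs <;> omega
    rw [e1]
    omega

/-- The separation in the sense of `Duality.lean` (also across the axis). -/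
theorem sep_pairT (h1 : 1 < d₀) (hd : d₀ + 2 * n ≤ d) (hw : w + 2 * n + 2 ≤ L)
    (hD1 : D + 1 < d₀) {ζ : LF → Bool}
    (h : ζ ∈ PairT L d₀ d w n D m t₁ t₂ ε) : Sep (D - 1) (SL ζ (LAT d w n) (ST w t₁ t₂ ε)) := by
  obtain ⟨-, -, u, l, μ, hc, hl, hμ, hall⟩ := h
  intro s hs s' hs' h2 h3
  have hsL := mem_coe.1 (SL_sub hs)
  have hsL' := mem_coe.1 (SL_sub hs')
  have hn : 0 ≤ n := (abs_nonneg _).trans (mem_LAT.1 hsL).2
  have hf := fst_mem_AnF (d₀ := d₀) (L := L) (by omega) (by omega) hsL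
  have hf' := fst_mem_AnF (d₀ := d₀) (L := L) (by omega) (by omega) hsL'
  have hL : 0 ≤ L := by
    rw [mem_AnF] at hf
    omega
  have e1 := hall s hs
  have e2 := hall s' hs'
  have key := ind_lv_of_near h1 hL hc (D := D) (by omega) hf hf' (by omega) (by omega) e1.1
  rw [e1.2, e2.2]
  linarith

theorem detBy_pairT : DetBy (fun ζ => SL ζ (LAT d w n) (ST w t₁ t₂ ε))
    (PairT L d₀ d w n D m t₁ t₂ ε) := by
  intro ζ ζ' h
  have h0 : SL ζ' (LAT d w n) (ST w t₁ t₂ ε) =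
      SL ζ (LAT d w n) (ST w t₁ t₂ ε) := stopping_SL _ _ ζ ζ' h
  have h1 : ML ζ' (LAT d w n) {bdL w t₁ 0} = ML ζ (LAT d w n) {bdL w t₁ 0} :=
    ML_eq fun s hs => h s (by unfold ST; simp only [SL_union]; exact Or.inl hs)
  have h2 : ML ζ' (LAT d w n) {bdL w t₂ ε} = ML ζ (LAT d w n) {bdL w t₂ ε} :=
    ML_eq fun s hs => h s (by unfold ST; simp only [SL_union]; exact Or.inr hs)
  unfold ST at h0
  unfold PairT RinT
  simp only [Set.mem_ofPred_eq]
  rw [h0, h1, h2]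

/-- Comparison, with an additional event which is determined by the lifted components. -/
theorem pr_pairT_eq (h1 : 1 < d₀) (hd : d₀ + 2 * n ≤ d) (hw : w + 2 * n + 2 ≤ L)
    (hD1 : D ≤ 2 * d₀) (hD : 4 * (2 * m + 12) ≤ D) {A : Set (LF → Bool)}
    (hA : DetBy (fun ζ => SL ζ (LAT d w n) (ST w t₁ t₂ ε)) A) {W₀ W₁ : Finset (ℤ × ℤ)}
    (h0 : ∀ s ∈ LAT d w n, pj 0 s ∈ W₀) (h2 : BW w ⊆ W₁) :
    pr W₀ {ω | lcf 0 ω ∈ PairT L d₀ d w n D m t₁ t₂ ε ∩ A} =
      pr W₁ {ω | lcf 1 ω ∈ PairT L d₀ d w n D m t₁ t₂ ε ∩ A} := by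
  have hdet : DetBy (fun ζ => SL ζ (LAT d w n) (ST w t₁ t₂ ε))
      (PairT L d₀ d w n D m t₁ t₂ ε ∩ A) := by
    intro ζ ζ' h
    rw [Set.mem_inter_iff, Set.mem_inter_iff, detBy_pairT ζ ζ' h, hA ζ ζ' h]
  have h := compare (Ft := LAT d w n) (E := ST w t₁ t₂ ε) (c := 0) (c' := 1)
    (A := PairT L d₀ d w n D m t₁ t₂ ε ∩ A) (k := 2) hdet
    (by rw [abs_zero]; omega) (by rw [abs_one]; omega)
    (fun ζ hζ => thick_pairT h1 hd hw hD1 hD hζ.1)
    (W := W₀) (W' := W₁) h0 (fun s hs => h2 (mem_LAT.1 hs).1.1)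
  unfold lcf
  exact h

end Pool.Agent.Perc3

end Partperc3T3Cmp
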