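import Pool.Agent.Lib.MP_6bd702_zc.Pre
import Pool.Agent.Lib.MP_6bd702_zc.Y018
import Pool.Agent.Lib.MP_6bd702_zc.Y029
import Pool.Agent.Lib.MP_6bd702_zc.Y027
import Pool.Agent.Lib.MP_6bd702_zc.Y023
import Pool.Agent.Lib.MP_6bd702_zc.Y017
import Pool.Agent.Lib.MP_6bd702_zc.Y007
import Pool.Agent.Lib.MP_6bd702_zc.Y028

section Partperc6WallsB

/-!
# The walls: definitions
-/

set_option autoImplicit false

namespace Pool.Agent.Perc6

open Finset Pool.Agent.Perc Pool.Agent.PercD Pool.Agent.PercL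

/-- The properties of a P wall. `a` = mesh, `μ = N a`, box radius `R = 32 μ`, inner box radius
`4 μ`, tips at `τ < τ'`. -/
structure WallP (col h w c a N τ τ' : ℤ) (SP : Finset (ℤ × ℤ)) (P : Set Cfg) : Prop where
  sub : SP ⊆ BR (c, h) (32 * (N * a) + 2 * a)
  ray : ∀ f ∈ SP, f ∉ Ray h w (c + a)
  dep : DepOn SP P
  inc : IncD (parD col) P
  win : ∀ f ∈ SP, f ∈ RF (c + 8 * (N * a)) (c + 12 * (N * a)) (h + w) (h + w + 4 * (N * a)) →
    h + w + 3 * (N * a) ≤ f.2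
  touch : ∀ f ∈ SP, f ∈ BR (c, h) (32 * (N * a)) → ∀ z, IsCor f z →
    OnBd (c - 32 * (N * a)) (c + 32 * (N * a)) (h - 32 * (N * a)) (h + 32 * (N * a)) z →
      ∃ x, τ < x ∧ x ≤ τ' ∧ z = cyc c h w (32 * (N * a)) x
  /-- the skeleton: a vertex `p₀` joined (outside the inner box) to both sides of the ray, and
  joined to a vertex of the band in the cell; paths in the window which reach the upper side from
  below the upper quarter are joined to `p₀` -/
  main : ∀ ξ ∈ P, ∃ p₀ pu pl pb : ℤ × ℤ, (p₀.1 + p₀.2 - col) % 2 = 0 ∧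
    (c - 32 * (N * a) < p₀.1 ∧ p₀.1 < c + 32 * (N * a) ∧ h - 32 * (N * a) < p₀.2 ∧
      p₀.2 < h + 32 * (N * a)) ∧
    Conn ξ (SP \ BR (c, h) (4 * (N * a)) : Finset (ℤ × ℤ)) p₀ pu ∧ c + 32 * (N * a) ≤ pu.1 ∧
      pu.1 ≤ c + 32 * (N * a) + 2 * a ∧ pu.2 = h + w ∧
    Conn ξ (SP \ BR (c, h) (4 * (N * a)) : Finset (ℤ × ℤ)) p₀ pl ∧ c + 32 * (N * a) ≤ pl.1 ∧
      pl.1 ≤ c + 32 * (N * a) + 2 * a ∧ pl.2 = h - w ∧
    Conn ξ SP p₀ pb ∧ c - a ≤ pb.1 ∧ pb.1 ≤ c ∧ h - w ≤ pb.2 ∧ pb.2 ≤ h + w ∧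
    ∀ p t : ℤ × ℤ, (p.1 + p.2 - col) % 2 = 0 →
      Conn ξ (RF (c + 8 * (N * a)) (c + 12 * (N * a)) (h + w) (h + w + 4 * (N * a))) p t →
      c + 8 * (N * a) ≤ p.1 → p.1 ≤ c + 12 * (N * a) → h + w ≤ p.2 →
      p.2 ≤ h + w + 3 * (N * a) → t.2 = h + w + 4 * (N * a) →
      Conn ξ ((RF (c + 8 * (N * a)) (c + 12 * (N * a)) (h + w) (h + w + 4 * (N * a)) ∪ SP) \
        BR (c, h) (4 * (N * a)) : Finset (ℤ × ℤ)) p p₀

/-- The properties of a D wall, `SU` and `SL` are the upper and the lower part. -/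
structure WallD (col h w c a N τ τ' : ℤ) (SD SU SL : Finset (ℤ × ℤ)) (D : Set Cfg) : Prop where
  sub : SD ⊆ BR (c, h) (32 * (N * a) + 2 * a)
  ray : ∀ f ∈ SD, f ∉ Ray h w (c + a)
  subU : SU ⊆ SD
  subL : SL ⊆ SD
  dep : DepOn SD D
  inc : IncD (parD (col + 1)) D
  win : ∀ f ∈ SD, f ∈ RF (c + 8 * (N * a)) (c + 12 * (N * a)) (h + w) (h + w + 4 * (N * a)) →
    2 * f.2 < 2 * (h + w) + N * a
  touchU : ∀ f ∈ SU, f ∈ BR (c, h) (32 * (N * a)) → ∀ z, IsCor f z →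
    OnBd (c - 32 * (N * a)) (c + 32 * (N * a)) (h - 32 * (N * a)) (h + 32 * (N * a)) z →
      ∃ x, 0 ≤ x ∧ x ≤ τ ∧ z = cyc c h w (32 * (N * a)) x
  touchL : ∀ f ∈ SL, f ∈ BR (c, h) (32 * (N * a)) → ∀ z, IsCor f z →
    OnBd (c - 32 * (N * a)) (c + 32 * (N * a)) (h - 32 * (N * a)) (h + 32 * (N * a)) z →
      ∃ x, τ' < x ∧ x ≤ len w (32 * (N * a)) ∧ z = cyc c h w (32 * (N * a)) x
  main : ∀ ξ ∈ D, ∃ q₀ q₁ : ℤ × ℤ, ∃ xu xl : ℤ, (q₀.1 + q₀.2 - (col + 1)) % 2 = 0 ∧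
    (q₁.1 + q₁.2 - (col + 1)) % 2 = 0 ∧
    (c - 32 * (N * a) < q₀.1 ∧ q₀.1 < c + 32 * (N * a) ∧ h - 32 * (N * a) < q₀.2 ∧
      q₀.2 < h + 32 * (N * a)) ∧
    (c - 32 * (N * a) < q₁.1 ∧ q₁.1 < c + 32 * (N * a) ∧ h - 32 * (N * a) < q₁.2 ∧
      q₁.2 < h + 32 * (N * a)) ∧
    (τ < xu ∧ xu ≤ τ' ∧ Conn ξ (SU \ BR (c, h) (4 * (N * a)) : Finset (ℤ × ℤ)) q₀
      (cyc c h w (32 * (N * a)) xu)) ∧
    (τ < xl ∧ xl ≤ τ' ∧ Conn ξ SL q₁ (cyc c h w (32 * (N * a)) xl)) ∧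
    Conn ξ (SD ∩ BR (c, h) (32 * (N * a)) : Finset (ℤ × ℤ)) q₀ q₁ ∧
    ∀ p t : ℤ × ℤ, (p.1 + p.2 - (col + 1)) % 2 = 0 →
      Conn ξ (RF (c + 8 * (N * a)) (c + 12 * (N * a)) (h + w) (h + w + 4 * (N * a))) p t →
      c + 8 * (N * a) ≤ p.1 → p.1 ≤ c + 12 * (N * a) → h + w + N * a ≤ p.2 →
      p.2 ≤ h + w + 4 * (N * a) → t.2 = h + w →
      Conn ξ ((RF (c + 8 * (N * a)) (c + 12 * (N * a)) (h + w) (h + w + 4 * (N * a)) ∪ SU) \
        BR (c, h) (4 * (N * a)) : Finset (ℤ × ℤ)) p q₀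

end Pool.Agent.Perc6

end Partperc6WallsB

section Partperc6WallsD

/-!
# The D wall
-/

set_option autoImplicit false

namespace Pool.Agent.Perc6

open Finset Pool.Agent.Perc Pool.Agent.PercD Pool.Agent.PercL

namespace WallAux

theorem cell_ray {c h w a : ℤ} {k f : ℤ × ℤ} (ha : 1 ≤ a) (hwa : w ≤ a) (hf : f ∈ cellF c h a k)
    (hr : f ∈ Ray h w (c + a)) : 1 ≤ k.1 ∧ -1 ≤ k.2 ∧ k.2 ≤ 0 := by
  obtain ⟨h1, h2, h3⟩ := hr
  have e1 := cell_fst ha hf 1
  have e2 := cell_snd ha hf (-1)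
  have e3 := cell_snd ha hf 1
  rw [mul_one] at e1 e3
  have e4 : a * (-1) = -a := by ring
  rw [e4] at e2
  omega

/-- The window and its cells. -/
theorem cell_win {c h w a N : ℤ} {k f : ℤ × ℤ} (ha : 1 ≤ a) (hw : 1 ≤ w) (hwa : w ≤ a)
    (hf : f ∈ cellF c h a k)
    (hr : f ∈ RF (c + 8 * (N * a)) (c + 12 * (N * a)) (h + w) (h + w + 4 * (N * a))) :
    8 * N ≤ k.1 ∧ k.1 < 12 * N ∧ 0 ≤ k.2 ∧ k.2 < 4 * N + 1 := by
  rw [Perc.mem_RFi] at hr
  have e1 := cell_fst ha hf (8 * N)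
  have e2 := cell_fst ha hf (12 * N)
  have e3 := cell_snd ha hf 0
  have e4 := cell_snd ha hf (4 * N + 1)
  have f1 : a * (8 * N) = 8 * (N * a) := by ring
  have f2 : a * (12 * N) = 12 * (N * a) := by ring
  have f3 : a * (4 * N + 1) = 4 * (N * a) + a := by ring
  rw [f1] at e1
  rw [f2] at e2
  rw [f3] at e4
  rw [mul_zero] at e3
  omega

/-- The cells of the upper part. -/
noncomputable def KU (n G : ℤ) : Finset (ℤ × ℤ) :=
  (Icc 0 (n - 1) ×ˢ {1}) ∪ (Icc 1 (G - 1)).image (ring n)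
/-- The cells of the lower part. -/
noncomputable def KL (n G : ℤ) : Finset (ℤ × ℤ) :=
  (Icc 0 (n - 1) ×ˢ {-2}) ∪ (Icc (G + 1) (8 * n + 2)).image (ring n)
/-- All cells of the D wall. -/
noncomputable def KD (n G : ℤ) : Finset (ℤ × ℤ) := (KU n G ∪ KL n G) ∪ ({0} ×ˢ Icc (-2) 1)
/-- The cells of the upper part outside the inner box. -/
noncomputable def KV (n N G : ℤ) : Finset (ℤ × ℤ) :=
  (Icc (4 * N) (n - 1) ×ˢ {1}) ∪ (Icc 1 (G - 1)).image (ring n)

theorem mem_KU {n G : ℤ} {k : ℤ × ℤ} : k ∈ KU n G ↔ (0 ≤ k.1 ∧ k.1 ≤ n - 1 ∧ k.2 = 1) ∨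
    ∃ p, 1 ≤ p ∧ p ≤ G - 1 ∧ ring n p = k := by
  simp only [KU, mem_union, mem_product, mem_Icc, mem_singleton, mem_image, and_assoc]

theorem mem_KL {n G : ℤ} {k : ℤ × ℤ} : k ∈ KL n G ↔ (0 ≤ k.1 ∧ k.1 ≤ n - 1 ∧ k.2 = -2) ∨
    ∃ p, G + 1 ≤ p ∧ p ≤ 8 * n + 2 ∧ ring n p = k := by
  simp only [KL, mem_union, mem_product, mem_Icc, mem_singleton, mem_image, and_assoc]

theorem mem_KV {n N G : ℤ} {k : ℤ × ℤ} : k ∈ KV n N G ↔ (4 * N ≤ k.1 ∧ k.1 ≤ n - 1 ∧ k.2 = 1) ∨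
    ∃ p, 1 ≤ p ∧ p ≤ G - 1 ∧ ring n p = k := by
  simp only [KV, mem_union, mem_product, mem_Icc, mem_singleton, mem_image, and_assoc]

theorem mem_KD {n G : ℤ} {k : ℤ × ℤ} : k ∈ KD n G ↔ (k ∈ KU n G ∨ k ∈ KL n G) ∨
    (k.1 = 0 ∧ -2 ≤ k.2 ∧ k.2 ≤ 1) := by
  simp only [KD, mem_union, mem_product, mem_Icc, mem_singleton]

theorem KD_spec {n G : ℤ} {k : ℤ × ℤ} (hn : 16 ≤ n) (h1 : 5 ≤ G) (h2 : G ≤ 8 * n - 2)
    (hk : k ∈ KD n G) : (0 ≤ k.1 ∧ k.1 ≤ n - 1 ∧ (k.2 = 1 ∨ k.2 = -2)) ∨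
      (k.1 = 0 ∧ -2 ≤ k.2 ∧ k.2 ≤ 1) ∨ (Lay n k ∧ k ≠ ring n G) := by
  rw [mem_KD, mem_KU, mem_KL] at hk
  rcases hk with ((hk | ⟨p, hp1, hp2, rfl⟩) | (hk | ⟨p, hp1, hp2, rfl⟩)) | hk
  · exact Or.inl ⟨hk.1, hk.2.1, Or.inl hk.2.2⟩
  · refine Or.inr (Or.inr ⟨lay_ring (by omega) hp1 (by omega), fun h => ?_⟩)
    have := ring_inj (by omega) hp1 (by omega) (by omega) (by omega) h
    omega
  · exact Or.inl ⟨hk.1, hk.2.1, Or.inr hk.2.2⟩
  · refine Or.inr (Or.inr ⟨lay_ring (by omega) (by omega) hp2, fun h => ?_⟩)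
    have := ring_inj (by omega) (by omega) hp2 (by omega) (by omega) h
    omega
  · exact Or.inr (Or.inl hk)

theorem KV_sub {n N G : ℤ} (hN : 0 ≤ N) : KV n N G ⊆ KU n G := by
  intro k hk
  rw [mem_KV] at hk
  rw [mem_KU]
  rcases hk with hk | hk
  · exact Or.inl ⟨by omega, hk.2⟩
  · exact Or.inr hk

theorem KU_sub {n G : ℤ} : KU n G ⊆ KD n G := fun k hk => by
  rw [mem_KD]; exact Or.inl (Or.inl hk)

theorem KL_sub {n G : ℤ} : KL n G ⊆ KD n G := fun k hk => by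
  rw [mem_KD]; exact Or.inl (Or.inr hk)

theorem cellsF_mono' {c h a : ℤ} {K K' : Finset (ℤ × ℤ)} (hK : K ⊆ K') :
    cellsF c h a K ⊆ cellsF c h a K' := fun f hf => by
  rw [mem_cellsF] at hf ⊢
  obtain ⟨k, hk, hf⟩ := hf
  exact ⟨k, hK hk, hf⟩

/-- Faces of cells outside the inner box. -/
theorem cellsF_out {c h a r : ℤ} {K K' : Finset (ℤ × ℤ)} (ha : 1 ≤ a) (hK : K ⊆ K')
    (hr : ∀ k ∈ K, ¬ (-r ≤ k.1 ∧ k.1 < r ∧ -r ≤ k.2 ∧ k.2 < r)) :
    cellsF c h a K ⊆ cellsF c h a K' \ BR (c, h) (a * r) := fun f hf => by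
  rw [mem_cellsF] at hf
  obtain ⟨k, hk, hf⟩ := hf
  rw [mem_sdiff, mem_cellsF, cell_BR ha hf]
  exact ⟨⟨k, hK hk, hf⟩, hr k hk⟩

theorem KV_out {n N G : ℤ} (hN : 8 ≤ N) (hn : n = 32 * N) (h1 : 5 ≤ G) (h2 : G ≤ 8 * n - 2)
    {k : ℤ × ℤ} (hk : k ∈ KV n N G) :
    ¬ (-(4 * N) ≤ k.1 ∧ k.1 < 4 * N ∧ -(4 * N) ≤ k.2 ∧ k.2 < 4 * N) := by
  rw [mem_KV] at hk
  rcases hk with hk | ⟨p, hp1, hp2, rfl⟩
  · omega
  · have := lay_ring (n := n) (p := p) (by omega) hp1 (by omega)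
    unfold Lay at this
    omega

theorem conn_KV {n N G : ℤ} (hN : 8 ≤ N) (hn : n = 32 * N) (h1 : 5 ≤ G) (h2 : G ≤ 8 * n - 2) :
    CConn (KV n N G) (4 * N, 1) (ring n (G - 1)) := by
  have s1 : CConn (KV n N G) (4 * N, 1) (n - 1, 1) := cconn_row (by omega) fun x hx hx' => by
    rw [mem_KV]; exact Or.inl ⟨hx, hx', rfl⟩
  have hr : ring n 1 = (n, 1) := by unfold ring; rw [if_pos (by omega)]
  have s3 : CConn (KV n N G) (ring n 1) (ring n (G - 1)) :=
    cconn_ring (by omega) le_rfl (by omega) (by omega) fun q hq hq' => by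
      rw [mem_KV]; exact Or.inr ⟨q, hq, hq', rfl⟩
  refine (s1.tail ⟨?_, ?_, ?_⟩).trans s3
  · rw [mem_KV]; exact Or.inl ⟨by dsimp only; omega, le_rfl, rfl⟩
  · rw [mem_KV]; exact Or.inr ⟨1, le_rfl, by omega, rfl⟩
  · rw [hr]
    exact Or.inr ⟨rfl, by dsimp only; rw [show n - 1 - n = -1 by ring]; rfl⟩

theorem conn_KL {n G : ℤ} (hn : 16 ≤ n) (h1 : 5 ≤ G) (h2 : G ≤ 8 * n - 2) :
    CConn (KL n G) (0, -2) (ring n (G + 1)) := by
  have s1 : CConn (KL n G) (0, -2) (n - 1, -2) := cconn_row (by omega) fun x hx hx' => by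
    rw [mem_KL]; exact Or.inl ⟨hx, hx', rfl⟩
  have hr : ring n (8 * n + 2) = (n, -2) := by
    unfold ring
    rw [if_neg (by omega), if_neg (by omega), if_neg (by omega), if_neg (by omega)]
    ext <;> dsimp only
    ring
  have s3 : CConn (KL n G) (ring n (G + 1)) (ring n (8 * n + 2)) :=
    cconn_ring (by omega) (by omega) (by omega) le_rfl fun q hq hq' => by
      rw [mem_KL]; exact Or.inr ⟨q, hq, hq', rfl⟩
  refine (s1.tail ⟨?_, ?_, ?_⟩).trans (cconn_symm s3)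
  · rw [mem_KL]; exact Or.inl ⟨by dsimp only; omega, le_rfl, rfl⟩
  · rw [mem_KL]; exact Or.inr ⟨8 * n + 2, by omega, le_rfl, rfl⟩
  · rw [hr]
    exact Or.inr ⟨rfl, by dsimp only; rw [show n - 1 - n = -1 by ring]; rfl⟩

/-- Column 0 and the first part of row 1. -/
noncomputable def KC (N : ℤ) : Finset (ℤ × ℤ) := (Icc 0 (4 * N) ×ˢ {1}) ∪ ({0} ×ˢ Icc (-2) 1)

theorem mem_KC {N : ℤ} {k : ℤ × ℤ} : k ∈ KC N ↔ (0 ≤ k.1 ∧ k.1 ≤ 4 * N ∧ k.2 = 1) ∨
    (k.1 = 0 ∧ -2 ≤ k.2 ∧ k.2 ≤ 1) := by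
  simp only [KC, mem_union, mem_product, mem_Icc, mem_singleton, and_assoc]

theorem conn_KC {N : ℤ} (hN : 8 ≤ N) : CConn (KC N) (4 * N, 1) (0, -2) := by
  have s1 : CConn (KC N) (0, 1) (4 * N, 1) := cconn_row (by omega) fun x hx hx' => by
    rw [mem_KC]; exact Or.inl ⟨hx, by dsimp only; omega, rfl⟩
  have s2 : CConn (KC N) (0, -2) (0, 1) := cconn_col (by omega) fun y hy hy' => by
    rw [mem_KC]; exact Or.inr ⟨rfl, hy, hy'⟩
  exact cconn_symm (s2.trans s1)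

theorem wallD {col h w c a N τ τ' m G : ℤ} (hN : 8 ≤ N) (hw : 1 ≤ w) (hwa : w ≤ a)
    (h3 : 3 * a ≤ τ) (h5 : τ' + 3 * a ≤ len w (32 * (N * a)))
    (hmτ : τ < a * (m - 1) - w) (hmτ' : a * (m + 2) - w ≤ τ')
    (hG1 : 5 ≤ G) (hG2 : G ≤ 8 * (32 * N) - 2) (hm1 : 2 ≤ m) (hm2 : m + 1 ≤ 8 * (32 * N) - 1)
    (hr1 : ring (32 * N) (G - 1) = scell (32 * N) (m - 1))
    (hr3 : ring (32 * N) (G + 1) = scell (32 * N) (m + 1)) :
    WallD col h w c a N τ τ' (cellsF c h a (KD (32 * N) G)) (cellsF c h a (KU (32 * N) G))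
      (cellsF c h a (KL (32 * N) G)) (TubeEv (col + 1) c h a (KD (32 * N) G)) := by
  have ha : 1 ≤ a := by omega
  have hNa : 8 * a ≤ N * a := mul_le_mul_of_nonneg_right hN (by omega)
  unfold len at h5
  have eN : 32 * (N * a) = a * (32 * N) := by ring
  have eN2 : 32 * (N * a) + 2 * a = a * (32 * N + 2) := by ring
  have eN4 : 4 * (N * a) = a * (4 * N) := by ring
  have hKU : ∀ {f : ℤ × ℤ}, f ∈ cellsF c h a (KD (32 * N) G) → ∃ k, f ∈ cellF c h a k ∧
      ((0 ≤ k.1 ∧ k.1 ≤ 32 * N - 1 ∧ (k.2 = 1 ∨ k.2 = -2)) ∨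
      (k.1 = 0 ∧ -2 ≤ k.2 ∧ k.2 ≤ 1) ∨ (Lay (32 * N) k ∧ k ≠ ring (32 * N) G)) := by
    intro f hf
    rw [mem_cellsF] at hf
    obtain ⟨k, hk, hf⟩ := hf
    exact ⟨k, hf, KD_spec (by omega) hG1 hG2 hk⟩
  refine ⟨?_, ?_, cellsF_mono' KU_sub, cellsF_mono' KL_sub, depOn_tube _ _ _ _ _ ha,
    incD_tube _ _ _ _ _, ?_, ?_, ?_, ?_⟩
  · intro f hf
    obtain ⟨k, hfk, hk⟩ := hKU hf
    rw [eN2, cell_BR ha hfk]
    unfold Lay at hk
    omega
  · intro f hf hray
    obtain ⟨k, hfk, hk⟩ := hKU hf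
    have := cell_ray ha hwa hfk hray
    unfold Lay at hk
    omega
  · intro f hf hwin
    obtain ⟨k, hfk, hk⟩ := hKU hf
    have h6 := cell_win ha hw hwa hfk hwin
    have h7 := cell_snd ha hfk 2
    have e2 : a * 2 = 2 * a := by ring
    rw [e2] at h7
    unfold Lay at hk
    have h8 : k.2 = 1 := by omega
    omega
  · -- the upper part touches the boundary near the ray
    intro f hf hbr z hz hbd
    rw [mem_cellsF] at hf
    obtain ⟨k, hk, hfk⟩ := hf
    rw [eN, cell_BR ha hfk] at hbr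
    have hk1 : 0 ≤ k.1 ∧ k.1 ≤ 32 * N - 1 ∧ k.2 = 1 := by
      rw [mem_KU] at hk
      rcases hk with hk | ⟨p, hp1, hp2, rfl⟩
      · exact hk
      · have := lay_ring (n := 32 * N) (p := p) (by omega) hp1 (by omega)
        unfold Lay at this
        omega
    rw [mem_cellF, hk1.2.2] at hfk
    obtain ⟨z1, z2⟩ := hz
    obtain ⟨hb1, hb2⟩ := hbd
    have e1 : a * (1 + 1) = 2 * a := by ring
    have e2 : (0 : ℤ) ≤ a * k.1 := mul_nonneg (by omega) hk1.1
    have e3 : a * (k.1 + 1) ≤ a * (32 * N) := mul_le_mul_of_nonneg_left (by omega) (by omega)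
    have e4 : a * 1 = a := mul_one a
    rw [← eN] at e3
    have hz1 : z.1 = c + 32 * (N * a) := by omega
    exact ⟨z.2 - h - w, by omega, by omega,
      cyc_of (by omega) (Or.inl ⟨by omega, by omega, by omega⟩)⟩
  · intro f hf hbr z hz hbd
    rw [mem_cellsF] at hf
    obtain ⟨k, hk, hfk⟩ := hf
    rw [eN, cell_BR ha hfk] at hbr
    have hk1 : 0 ≤ k.1 ∧ k.1 ≤ 32 * N - 1 ∧ k.2 = -2 := by
      rw [mem_KL] at hk
      rcases hk with hk | ⟨p, hp1, hp2, rfl⟩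
      · exact hk
      · have := lay_ring (n := 32 * N) (p := p) (by omega) (by omega) hp2
        unfold Lay at this
        omega
    rw [mem_cellF, hk1.2.2] at hfk
    obtain ⟨z1, z2⟩ := hz
    obtain ⟨hb1, hb2⟩ := hbd
    have e1 : a * (-2 + 1) = -a := by ring
    have e2 : (0 : ℤ) ≤ a * k.1 := mul_nonneg (by omega) hk1.1
    have e3 : a * (k.1 + 1) ≤ a * (32 * N) := mul_le_mul_of_nonneg_left (by omega) (by omega)
    have e4 : a * -2 = -(2 * a) := by ring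
    rw [← eN] at e3
    have hz1 : z.1 = c + 32 * (N * a) := by omega
    refine ⟨z.2 - h + 8 * (32 * (N * a)) - w, by omega, ?_,
      cyc_of (by omega) (Or.inr (Or.inr (Or.inr (Or.inr ⟨by omega, by omega, by omega⟩))))⟩
    unfold len
    omega
  · intro ξ hξ
    have hKVD : KV (32 * N) N G ⊆ KD (32 * N) G := (KV_sub (by omega)).trans KU_sub
    have hξV := tubeEv_mono hKVD hξ
    have hξL := tubeEv_mono KL_sub hξ
    have hmemV : ((4 * N, 1) : ℤ × ℤ) ∈ KV (32 * N) N G := by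
      rw [mem_KV]; exact Or.inl ⟨le_rfl, by dsimp only; omega, rfl⟩
    have hmemL : ((0, -2) : ℤ × ℤ) ∈ KL (32 * N) G := by
      rw [mem_KL]; exact Or.inl ⟨le_rfl, by dsimp only; omega, rfl⟩
    obtain ⟨q₀, -, -, -, sq₀, -, -⟩ := exists_spine_LR ha hξV hmemV
    obtain ⟨q₁, -, -, -, sq₁, -, -⟩ := exists_spine_LR ha hξL hmemL
    have hmU : scell (32 * N) (m - 1) ∈ KV (32 * N) N G := by
      rw [← hr1, mem_KV]; exact Or.inr ⟨_, by omega, le_rfl, rfl⟩
    have hmL : scell (32 * N) (m + 1) ∈ KL (32 * N) G := by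
      rw [← hr3, mem_KL]; exact Or.inr ⟨_, le_rfl, by omega, rfl⟩
    obtain ⟨xu, hxu1, hxu2, sxu⟩ := bd_spine (w := w) (m := m - 1) ha (by omega) hξV hmU
      (by omega) (by omega)
    obtain ⟨xl, hxl1, hxl2, sxl⟩ := bd_spine (w := w) (m := m + 1) ha (by omega) hξL hmL
      (by omega) (by omega)
    have hcV := conn_KV hN rfl hG1 hG2
    have hcL := conn_KL (n := 32 * N) (by omega) hG1 hG2
    rw [hr1] at hcV
    rw [hr3] at hcL
    have hV := tube_conn ha hξV hcV hmemV sq₀ sxu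
    have hL := tube_conn ha hξL hcL hmemL sq₁ sxl
    have hKC : KC N ⊆ KD (32 * N) G := by
      intro k hk
      rw [mem_KC] at hk
      rw [mem_KD, mem_KU]
      rcases hk with hk | hk
      · exact Or.inl (Or.inl (Or.inl ⟨hk.1, by omega, hk.2.2⟩))
      · exact Or.inr hk
    have hD := tube_conn ha (tubeEv_mono hKC hξ) (conn_KC hN)
      (by rw [mem_KC]; exact Or.inl ⟨by dsimp only; omega, le_rfl, rfl⟩) sq₀ sq₁
    have hDsub : cellsF c h a (KC N) ⊆
        cellsF c h a (KD (32 * N) G) ∩ BR (c, h) (32 * (N * a)) := by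
      intro f hf
      rw [mem_inter]
      refine ⟨cellsF_mono hKC hf, ?_⟩
      rw [mem_cellsF] at hf
      obtain ⟨k, hk, hfk⟩ := hf
      rw [eN, cell_BR ha hfk]
      rw [mem_KC] at hk
      omega
    have hout : cellsF c h a (KV (32 * N) N G) ⊆
        cellsF c h a (KU (32 * N) G) \ BR (c, h) (4 * (N * a)) := by
      rw [eN4]
      exact cellsF_out ha (KV_sub (by omega)) fun k hk => KV_out hN rfl hG1 hG2 hk
    have e1 : a * (m - 1) = a * m - a := by ring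
    have e2 : a * (m + 2) = a * m + 2 * a := by ring
    have e3 : a * (m - 1 + 1) = a * m := by ring
    have e4 : a * (m + 1) = a * m + a := by ring
    have e5 : a * (m + 1 + 1) = a * m + 2 * a := by ring
    have b0 := sq₀.2.1
    have b1 := sq₁.2.1
    dsimp only at b0 b1
    have e6 : a * (4 * N + 1) = 4 * (N * a) + a := by ring
    have e7 : a * (4 * N) = 4 * (N * a) := by ring
    have e8 : a * (1 + 1) = 2 * a := by ring
    have e9 : a * 1 = a := mul_one a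
    have e10 : a * 0 = 0 := mul_zero a
    have e11 : a * (0 + 1) = a := by ring
    have e12 : a * -2 = -(2 * a) := by ring
    have e13 : a * (-2 + 1) = -a := by ring
    rw [← eN] at hV hL
    refine ⟨q₀, q₁, xu, xl, sq₀.1, sq₁.1, by omega, by omega, ⟨by omega, by omega,
      hV.mono (coe_subset.2 hout)⟩, ⟨by omega, by omega, hL⟩, hD.mono (coe_subset.2 hDsub), ?_⟩
    intro p t hpar hpt hp1 hp2 hp3 hp4 ht
    have hK : ∀ i, 8 * N ≤ i → i < 12 * N → ((i, 1) : ℤ × ℤ) ∈ KV (32 * N) N G := by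
      intro i hi1 hi2
      rw [mem_KV]; exact Or.inl ⟨by dsimp only; omega, by dsimp only; omega, rfl⟩
    have f1 : c + a * (8 * N) = c + 8 * (N * a) := by ring
    have f2 : c + a * (12 * N) = c + 12 * (N * a) := by ring
    rw [← f1, ← f2] at hpt
    obtain ⟨k, hkK, u, hk2, hk3, hk4, su, hpu⟩ := tube_meet_row (j := 1) ha hξV
      (show 8 * N < 12 * N by omega) hK hpt hpar ⟨by omega, by omega, by omega, by omega⟩
      (Or.inr ⟨by omega, by omega⟩)
    have hkk : CConn (KV (32 * N) N G) k (4 * N, 1) := by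
      have hk5 : k = (k.1, 1) := Prod.ext rfl hk2
      rw [hk5]
      refine cconn_symm (cconn_row (by omega) fun x hx hx' => ?_)
      rw [mem_KV]; exact Or.inl ⟨hx, by dsimp only; omega, rfl⟩
    have huq := tube_conn ha hξV hkk hkK su sq₀
    refine Relation.ReflTransGen.trans (hpu.mono ?_) (huq.mono ?_)
    · rintro f (hf | hf)
      · rw [mem_coe, Perc.mem_RFi, f1, f2] at hf
        rw [mem_coe, mem_sdiff, mem_union, Perc.mem_RFi, mem_BR]
        exact ⟨Or.inl hf, by dsimp only; omega⟩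
      · have hf' := hout (cellsF_mono' (K' := KV (32 * N) N G) (fun k hk => ?_) (mem_coe.1 hf))
        · rw [mem_sdiff] at hf'
          rw [mem_coe, mem_sdiff, mem_union]
          exact ⟨Or.inr hf'.1, hf'.2⟩
        · rw [mem_product, mem_Ico, mem_singleton] at hk
          have hk5 : k = (k.1, 1) := Prod.ext rfl hk.2
          rw [hk5]
          exact hK _ hk.1.1 hk.1.2
    · intro f hf
      have hf' := hout (mem_coe.1 hf)
      rw [mem_sdiff] at hf'
      rw [mem_coe, mem_sdiff, mem_union]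
      exact ⟨Or.inr hf'.1, hf'.2⟩

end WallAux

end Pool.Agent.Perc6

end Partperc6WallsD

section Partperc6WallsP

/-!
# The P wall
-/

set_option autoImplicit false

namespace Pool.Agent.Perc6

open Finset Pool.Agent.Perc Pool.Agent.PercD Pool.Agent.PercL

namespace WallAux

/-- The inner cells of the P wall. -/
def Inn (n N : ℤ) (k : ℤ × ℤ) : Prop :=
  (-n + 1 ≤ k.1 ∧ k.1 ≤ n - 2 ∧ -n + 1 ≤ k.2 ∧ k.2 ≤ n - 2) ∧
    ¬ (0 ≤ k.1 ∧ -2 ≤ k.2 ∧ k.2 ≤ 1) ∧ ¬ (8 * N ≤ k.1 ∧ k.1 < 12 * N ∧ 2 ≤ k.2 ∧ k.2 < 3 * N + 1)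

/-- The cells of the P wall. -/
def PP (n N m : ℤ) (k : ℤ × ℤ) : Prop :=
  Lay (n + 1) k ∨ k = scell n m ∨ k = sinn n m ∨ Inn n N k

open Classical in
/-- The cells of the P wall. -/
noncomputable def KP' (n N m : ℤ) : Finset (ℤ × ℤ) :=
  (Icc (-n - 2) (n + 1) ×ˢ Icc (-n - 2) (n + 1)).filter (PP n N m)

open Classical in
/-- The cells of the P wall outside the inner box. -/
noncomputable def KQ (n N m : ℤ) : Finset (ℤ × ℤ) :=
  (KP' n N m).filter fun k => ¬ (-(4 * N) ≤ k.1 ∧ k.1 < 4 * N ∧ -(4 * N) ≤ k.2 ∧ k.2 < 4 * N)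

theorem PP_bd {n N m : ℤ} (hn : 16 ≤ n) (hm : Mid n m) {k : ℤ × ℤ} (hk : PP n N m k) :
    -n - 2 ≤ k.1 ∧ k.1 ≤ n + 1 ∧ -n - 2 ≤ k.2 ∧ k.2 ≤ n + 1 := by
  rcases hk with hk | rfl | rfl | hk
  · unfold Lay at hk; omega
  · have := (lay_scell hn hm).1
    unfold Lay at this; omega
  · have := (sinn_spec hn hm).1
    omega
  · unfold Inn at hk; omega

theorem mem_KP' {n N m : ℤ} (hn : 16 ≤ n) (hm : Mid n m) {k : ℤ × ℤ} :
    k ∈ KP' n N m ↔ PP n N m k := by
  classical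
  unfold KP'
  rw [mem_filter, mem_product, mem_Icc, mem_Icc]
  constructor
  · exact fun h => h.2
  · intro h
    have := PP_bd hn hm h
    exact ⟨by omega, h⟩

theorem mem_KQ {n N m : ℤ} (hn : 16 ≤ n) (hm : Mid n m) {k : ℤ × ℤ} :
    k ∈ KQ n N m ↔ PP n N m k ∧
      ¬ (-(4 * N) ≤ k.1 ∧ k.1 < 4 * N ∧ -(4 * N) ≤ k.2 ∧ k.2 < 4 * N) := by
  classical
  unfold KQ
  rw [mem_filter, mem_KP' hn hm]

theorem KQ_sub {n N m : ℤ} : KQ n N m ⊆ KP' n N m := filter_subset _ _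

theorem inn_mem {n N m i j : ℤ} (hn : 16 ≤ n) (hm : Mid n m)
    (h : (-n + 1 ≤ i ∧ i ≤ n - 2 ∧ -n + 1 ≤ j ∧ j ≤ n - 2) ∧
    ¬ (0 ≤ i ∧ -2 ≤ j ∧ j ≤ 1) ∧ ¬ (8 * N ≤ i ∧ i < 12 * N ∧ 2 ≤ j ∧ j < 3 * N + 1))
    (h' : ¬ (-(4 * N) ≤ i ∧ i < 4 * N ∧ -(4 * N) ≤ j ∧ j < 4 * N)) : (i, j) ∈ KQ n N m := by
  rw [mem_KQ hn hm]
  exact ⟨Or.inr (Or.inr (Or.inr h)), h'⟩

theorem conn_top {n N m i : ℤ} (hN : 8 ≤ N) (hn : n = 32 * N) (hm : Mid n m) (h1 : -n + 1 ≤ i)
    (h2 : i ≤ n - 2) : CConn (KQ n N m) (-n + 1, 0) (i, n - 2) :=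
  (cconn_col (by omega) fun y hy hy' => inn_mem (by omega) hm (by omega) (by omega)).trans
    (cconn_row h1 fun x hx hx' => inn_mem (by omega) hm (by omega) (by omega))

theorem conn_bot {n N m i : ℤ} (hN : 8 ≤ N) (hn : n = 32 * N) (hm : Mid n m) (h1 : -n + 1 ≤ i)
    (h2 : i ≤ n - 2) : CConn (KQ n N m) (-n + 1, 0) (i, -n + 1) :=
  (cconn_symm (cconn_col (by omega) fun y hy hy' =>
    inn_mem (by omega) hm (by omega) (by omega))).trans
    (cconn_row h1 fun x hx hx' => inn_mem (by omega) hm (by omega) (by omega))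

theorem conn_sinn {n N m : ℤ} (hN : 8 ≤ N) (hn : n = 32 * N) (hm : Mid n m) :
    CConn (KQ n N m) (-n + 1, 0) (sinn n m) := by
  have e : ∀ x : ℤ, |x| = 1 ↔ x = 1 ∨ x = -1 := fun x => abs_eq (by norm_num)
  have hs : sinn n m ∈ KQ n N m := by
    rw [mem_KQ (by omega) hm]
    have := (sinn_spec (by omega) hm).2
    exact ⟨Or.inr (Or.inr (Or.inl rfl)), by omega⟩
  have hm' := hm
  unfold Mid at hm'
  rcases hm' with h | h | h | h | h
  · have hs' : sinn n m = (n - 1, m) := by unfold sinn; rw [if_pos (by omega)]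
    have h1 : CConn (KQ n N m) (n - 2, m) (n - 2, n - 2) :=
      cconn_col (by omega) fun y hy hy' => inn_mem (by omega) hm (by omega) (by omega)
    rw [hs'] at hs ⊢
    refine ((conn_top hN hn hm (by omega) le_rfl).trans (cconn_symm h1)).tail
      ⟨inn_mem (by omega) hm (by omega) (by omega), hs, Or.inr ⟨rfl, ?_⟩⟩
    rw [e]; dsimp only; omega
  · have hs' : sinn n m = (2 * n - 1 - m, n - 1) := by
      unfold sinn; rw [if_neg (by omega), if_pos (by omega)]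
    rw [hs'] at hs ⊢
    refine (conn_top hN hn hm (i := 2 * n - 1 - m) (by omega) (by omega)).tail
      ⟨inn_mem (by omega) hm (by omega) (by omega), hs, Or.inl ⟨rfl, ?_⟩⟩
    rw [e]; dsimp only; omega
  · have hs' : sinn n m = (-n, 4 * n - 1 - m) := by
      unfold sinn; rw [if_neg (by omega), if_neg (by omega), if_pos (by omega)]
    rw [hs'] at hs ⊢
    have h1 : CConn (KQ n N m) (-n + 1, 0) (-n + 1, 4 * n - 1 - m) := by
      rcases le_total 0 (4 * n - 1 - m) with h2 | h2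
      · exact cconn_col h2 fun y hy hy' => inn_mem (by omega) hm (by omega) (by omega)
      · exact cconn_symm (cconn_col h2 fun y hy hy' =>
          inn_mem (by omega) hm (by omega) (by omega))
    refine h1.tail ⟨inn_mem (by omega) hm (by omega) (by omega), hs, Or.inr ⟨rfl, ?_⟩⟩
    rw [e]; dsimp only; omega
  · have hs' : sinn n m = (m - 6 * n, -n) := by
      unfold sinn; rw [if_neg (by omega), if_neg (by omega), if_neg (by omega), if_pos (by omega)]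
    rw [hs'] at hs ⊢
    refine (conn_bot hN hn hm (i := m - 6 * n) (by omega) (by omega)).tail
      ⟨inn_mem (by omega) hm (by omega) (by omega), hs, Or.inl ⟨rfl, ?_⟩⟩
    rw [e]; dsimp only; omega
  · have hs' : sinn n m = (n - 1, m - 8 * n) := by
      unfold sinn; rw [if_neg (by omega), if_neg (by omega), if_neg (by omega), if_neg (by omega)]
    have h1 : CConn (KQ n N m) (n - 2, -n + 1) (n - 2, m - 8 * n) :=
      cconn_col (by omega) fun y hy hy' => inn_mem (by omega) hm (by omega) (by omega)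
    rw [hs'] at hs ⊢
    refine ((conn_bot hN hn hm (by omega) le_rfl).trans h1).tail
      ⟨inn_mem (by omega) hm (by omega) (by omega), hs, Or.inr ⟨rfl, ?_⟩⟩
    rw [e]; dsimp only; omega

theorem ring_mem {n N m p : ℤ} (hN : 8 ≤ N) (hn : n = 32 * N) (hm : Mid n m) (h1 : 1 ≤ p)
    (h2 : p ≤ 8 * (n + 1) + 2) : ring (n + 1) p ∈ KQ n N m := by
  have := lay_ring (n := n + 1) (p := p) (by omega) h1 h2
  rw [mem_KQ (by omega) hm]
  refine ⟨Or.inl this, ?_⟩
  unfold Lay at this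
  omega

/-- The cells of layer 2 are connected to the inner cells. -/
theorem conn_ring {n N m p : ℤ} (hN : 8 ≤ N) (hn : n = 32 * N) (hm : Mid n m) (h1 : 1 ≤ p)
    (h2 : p ≤ 8 * (n + 1) + 2) : CConn (KQ n N m) (-n + 1, 0) (ring (n + 1) p) := by
  obtain ⟨p', hp1, hp2, hadj⟩ := mid_out (by omega) hm
  have hs : sinn n m ∈ KQ n N m := by
    rw [mem_KQ (by omega) hm]
    have := (sinn_spec (by omega) hm).2
    exact ⟨Or.inr (Or.inr (Or.inl rfl)), by omega⟩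
  have hc : scell n m ∈ KQ n N m := by
    rw [mem_KQ (by omega) hm]
    have := (lay_scell (by omega) hm).1
    refine ⟨Or.inr (Or.inl rfl), ?_⟩
    unfold Lay at this
    omega
  have h3 : CConn (KQ n N m) (-n + 1, 0) (ring (n + 1) p') :=
    ((conn_sinn hN hn hm).tail ⟨hs, hc, scell_sinn⟩).tail ⟨hc, ring_mem hN hn hm hp1 hp2, hadj⟩
  refine h3.trans ?_
  rcases le_total p' p with h4 | h4
  · exact cconn_ring (by omega) hp1 h4 h2 fun q hq hq' => ring_mem hN hn hm (by omega) (by omega)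
  · exact cconn_symm (cconn_ring (by omega) h1 h4 hp2 fun q hq hq' =>
      ring_mem hN hn hm (by omega) (by omega))

theorem conn_win {n N m i : ℤ} (hN : 8 ≤ N) (hn : n = 32 * N) (hm : Mid n m) (h1 : 8 * N ≤ i)
    (h2 : i < 12 * N) : CConn (KQ n N m) (-n + 1, 0) (i, 3 * N + 1) := by
  have s1 : CConn (KQ n N m) (-n + 1, 0) (-n + 1, 4 * N) :=
    cconn_col (by omega) fun y hy hy' => inn_mem (by omega) hm (by omega) (by omega)
  have s2 : CConn (KQ n N m) (-n + 1, 4 * N) (i, 4 * N) :=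
    cconn_row (by omega) fun x hx hx' => inn_mem (by omega) hm (by omega) (by omega)
  have s3 : CConn (KQ n N m) (i, 3 * N + 1) (i, 4 * N) :=
    cconn_col (by omega) fun y hy hy' => inn_mem (by omega) hm (by omega) (by omega)
  exact (s1.trans s2).trans (cconn_symm s3)

theorem conn_mid {n N m : ℤ} (hN : 8 ≤ N) (hn : n = 32 * N) (hm : Mid n m) :
    CConn (KP' n N m) (-n + 1, 0) (-1, 0) :=
  cconn_row (by omega) fun x hx hx' => by
    rw [mem_KP' (by omega) hm]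
    exact Or.inr (Or.inr (Or.inr ⟨by dsimp only; omega, by dsimp only; omega,
      by dsimp only; omega⟩))

/-- The faces of the P wall. -/
noncomputable def SPf (c h w a N m : ℤ) : Finset (ℤ × ℤ) :=
  cellsF c h a (KP' (32 * N) N m) ∪
    (RF (c + a * (32 * N + 1)) (c + a * (32 * N + 1 + 1)) (h + w) (h + 2 * a) ∪
      RF (c + a * (32 * N + 1)) (c + a * (32 * N + 1 + 1)) (h - 2 * a) (h - w))

/-- The event of the P wall. -/
def PEv (col c h w a N m : ℤ) : Set Cfg :=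
  TubeEv col c h a (KP' (32 * N) N m) ∩
    (BT col (c + a * (32 * N + 1)) (c + a * (32 * N + 1 + 1)) (h + w) (h + 2 * a) ∩
      BT col (c + a * (32 * N + 1)) (c + a * (32 * N + 1 + 1)) (h - 2 * a) (h - w))

theorem depOn_PEv {col c h w a N m : ℤ} (ha : 1 ≤ a) :
    DepOn (SPf c h w a N m : Set (ℤ × ℤ)) (PEv col c h w a N m) := by
  unfold SPf PEv
  refine depOn_inter' (depOn_mono' (depOn_tube _ _ _ _ _ ha) ?_)
    (depOn_inter' (depOn_mono' (depOn_BT _ _ _ _ _) ?_) (depOn_mono' (depOn_BT _ _ _ _ _) ?_))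
  · exact coe_subset.2 subset_union_left
  · exact coe_subset.2 (subset_union_left.trans subset_union_right)
  · exact coe_subset.2 (subset_union_right.trans subset_union_right)

theorem incD_PEv {col c h w a N m : ℤ} : IncD (parD col) (PEv col c h w a N m) :=
  incD_inter' (incD_tube _ _ _ _ _) (incD_inter' (incD_BT' _ _ _ _ _) (incD_BT' _ _ _ _ _))

theorem SPf_spec {c h w a N m : ℤ} (hN : 8 ≤ N) (hm : Mid (32 * N) m) {f : ℤ × ℤ}
    (hf : f ∈ SPf c h w a N m) : (∃ k, f ∈ cellF c h a k ∧ PP (32 * N) N m k) ∨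
      ((c + a * (32 * N + 1) ≤ f.1 ∧ f.1 < c + a * (32 * N + 1 + 1)) ∧
        ((h + w ≤ f.2 ∧ f.2 < h + 2 * a) ∨ (h - 2 * a ≤ f.2 ∧ f.2 < h - w))) := by
  unfold SPf at hf
  rw [mem_union, mem_union, mem_cellsF, Perc.mem_RFi, Perc.mem_RFi] at hf
  rcases hf with ⟨k, hk, hf⟩ | hf | hf
  · rw [mem_KP' (by omega) hm] at hk
    exact Or.inl ⟨k, hf, hk⟩
  · exact Or.inr ⟨⟨hf.1, hf.2.1⟩, Or.inl hf.2.2⟩
  · exact Or.inr ⟨⟨hf.1, hf.2.1⟩, Or.inr hf.2.2⟩

/-- A crossing of the tall rectangle on the ray and the crossing of the cell. -/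
theorem special_meet {ξ : Cfg} {col c h a n j y₀ y₁ : ℤ} {K : Finset (ℤ × ℤ)} (ha : 1 ≤ a)
    (hξ : ξ ∈ TubeEv col c h a K) (hk : (n, j) ∈ K) (h1 : y₀ ≤ h + a * j)
    (h2 : h + a * (j + 1) ≤ y₁) (hb : ξ ∈ BT col (c + a * n) (c + a * (n + 1)) y₀ y₁) :
    ∃ s u v, Spine ξ col c h a (n, j) s ∧ u.2 = y₀ ∧ c + a * n ≤ u.1 ∧ u.1 ≤ c + a * (n + 1) ∧
      v.2 = y₁ ∧ c + a * n ≤ v.1 ∧ v.1 ≤ c + a * (n + 1) ∧
      Conn ξ (cellF c h a (n, j) ∪ RF (c + a * n) (c + a * (n + 1)) y₀ y₁ : Finset (ℤ × ℤ)) s u ∧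
      Conn ξ (cellF c h a (n, j) ∪ RF (c + a * n) (c + a * (n + 1)) y₀ y₁ : Finset (ℤ × ℤ))
        s v := by
  obtain ⟨s, s', hs, hs', ss, -, hss⟩ := exists_spine_LR ha hξ hk
  obtain ⟨u, v, hu, hu1, hu2, hv, hup, huv⟩ := hb
  have e1 : a * (n + 1) = a * n + a := by ring
  have e2 : a * (j + 1) = a * j + a := by ring
  have hb := ss.2.1
  dsimp only at hs hs' hb
  obtain ⟨x, -, -, -, -, hx1, hx2⟩ := PercT.cross_meet (x₀ := c + a * n) (x₁ := c + a * (n + 1))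
    (x₀' := c + a * n) (x₁' := c + a * (n + 1)) (y₀ := h + a * j) (y₁ := h + a * (j + 1))
    (y₀' := y₀) (y₁' := y₁) le_rfl (by omega) le_rfl h1 (by omega) h2
    ⟨hs, hb.2.2.1, hb.2.2.2⟩ hs' ⟨hu, hu1, hu2⟩ hv (by have := ss.1; omega) hss huv
  have hm := Conn.mem_rect huv ⟨hu1, hu2, by omega, by omega⟩
  refine ⟨s, u, v, ss, hu, hu1, hu2, hv, hm.1, hm.2.1, ?_, ?_⟩
  · exact (hx1.mono (coe_subset.2 subset_union_left)).trans
      (Conn.symm (hx2.mono (coe_subset.2 subset_union_right)))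
  · exact ((hx1.mono (coe_subset.2 subset_union_left)).trans
      (Conn.symm (hx2.mono (coe_subset.2 subset_union_right)))).trans
      (huv.mono (coe_subset.2 subset_union_right))

theorem wallP {col h w c a N τ τ' m : ℤ} (hN : 8 ≤ N) (hw : 1 ≤ w) (hwa : w ≤ a)
    (hm : Mid (32 * N) m) (hmτ : τ < a * (m - 1) - w) (hmτ' : a * (m + 2) - w ≤ τ') :
    WallP col h w c a N τ τ' (SPf c h w a N m) (PEv col c h w a N m) := by
  have ha : 1 ≤ a := by omega
  have hNa : 8 * a ≤ N * a := mul_le_mul_of_nonneg_right hN (by omega)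
  have eN : 32 * (N * a) = a * (32 * N) := by ring
  have eN2 : 32 * (N * a) + 2 * a = a * (32 * N + 2) := by ring
  have eN4 : 4 * (N * a) = a * (4 * N) := by ring
  have eM1 : a * (32 * N + 1) = 32 * (N * a) + a := by ring
  have eM2 : a * (32 * N + 1 + 1) = 32 * (N * a) + 2 * a := by ring
  have hl := lay_scell (n := 32 * N) (by omega) hm
  have hi := sinn_spec (n := 32 * N) (by omega) hm
  unfold Lay at hl
  refine ⟨?_, ?_, depOn_PEv ha, incD_PEv, ?_, ?_, ?_⟩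
  · intro f hf
    rcases SPf_spec hN hm hf with ⟨k, hfk, hk⟩ | hf
    · have := PP_bd (by omega) hm hk
      rw [eN2, cell_BR ha hfk]
      omega
    · rw [mem_BR]
      dsimp only
      omega
  · intro f hf hray
    rcases SPf_spec hN hm hf with ⟨k, hfk, hk⟩ | hf
    · have := cell_ray ha hwa hfk hray
      rcases hk with hk | rfl | rfl | hk
      · unfold Lay at hk; omega
      · omega
      · omega
      · unfold Inn at hk; omega
    · obtain ⟨h1, h2, h3⟩ := hray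
      omega
  · intro f hf hwin
    rcases SPf_spec hN hm hf with ⟨k, hfk, hk⟩ | hf
    · have h6 := cell_win ha hw hwa hfk hwin
      rcases hk with hk | rfl | rfl | hk
      · unfold Lay at hk; omega
      · omega
      · omega
      · unfold Inn at hk
        have h7 := (cell_snd ha hfk (3 * N + 1)).2 (by omega)
        have e2 : a * (3 * N + 1) = 3 * (N * a) + a := by ring
        rw [e2] at h7
        omega
    · rw [Perc.mem_RFi] at hwin
      omega
  · intro f hf hbr z hz hbd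
    rcases SPf_spec hN hm hf with ⟨k, hfk, hk⟩ | hf
    · have hbr' := hbr
      rw [eN, cell_BR ha hfk] at hbr'
      rcases hk with hk | rfl | rfl | hk
      · unfold Lay at hk; omega
      · omega
      · rw [eN] at hbd
        obtain ⟨x, hx1, hx2, hx3⟩ := inn_touch (w := w) ha (by omega) hm hfk hz hbd
        have e1 : a * (m - 1) = a * m - a := by ring
        have e2 : a * (m + 2) = a * m + 2 * a := by ring
        have e3 : a * (m + 1) = a * m + a := by ring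
        rw [eN]
        exact ⟨x, by omega, by omega, hx3⟩
      · exfalso
        unfold Inn at hk
        have h1 := (cell_fst ha hfk (-(32 * N) + 1)).2 (by omega)
        have h2 := cell_fst ha hfk (32 * N - 1)
        have h3 := (cell_snd ha hfk (-(32 * N) + 1)).2 (by omega)
        have h4 := cell_snd ha hfk (32 * N - 1)
        have e1 : a * (-(32 * N) + 1) = -(32 * (N * a)) + a := by ring
        have e2 : a * (32 * N - 1) = 32 * (N * a) - a := by ring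
        rw [e1] at h1 h3
        rw [e2] at h2 h4
        obtain ⟨z1, z2⟩ := hz
        obtain ⟨hb1, hb2⟩ := hbd
        omega
    · rw [mem_BR] at hbr
      dsimp only at hbr
      omega
  · intro ξ hξ
    obtain ⟨hξT, hξU, hξL⟩ := hξ
    have hξQ := tubeEv_mono KQ_sub hξT
    have hm0 : ((-(32 * N) + 1, 0) : ℤ × ℤ) ∈ KQ (32 * N) N m :=
      inn_mem (by omega) hm (by omega) (by omega)
    obtain ⟨p₀, -, -, -, sp₀, -, -⟩ := exists_spine_LR ha hξQ hm0
    -- the upper side of the ray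
    have r1 : ring (32 * N + 1) 1 = (32 * N + 1, 1) := by unfold ring; rw [if_pos (by omega)]
    have r2 : ring (32 * N + 1) (8 * (32 * N + 1) + 2) = (32 * N + 1, -2) := by
      unfold ring
      rw [if_neg (by omega), if_neg (by omega), if_neg (by omega), if_neg (by omega)]
      ext <;> dsimp only
      ring
    have m1 : ((32 * N + 1, 1) : ℤ × ℤ) ∈ KQ (32 * N) N m := by
      rw [← r1]; exact ring_mem hN rfl hm le_rfl (by omega)
    have m2 : ((32 * N + 1, -2) : ℤ × ℤ) ∈ KQ (32 * N) N m := by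
      rw [← r2]; exact ring_mem hN rfl hm (by omega) le_rfl
    have c1 : CConn (KQ (32 * N) N m) (-(32 * N) + 1, 0) (32 * N + 1, 1) := by
      rw [← r1]; exact conn_ring hN rfl hm le_rfl (by omega)
    have c2 : CConn (KQ (32 * N) N m) (-(32 * N) + 1, 0) (32 * N + 1, -2) := by
      rw [← r2]; exact conn_ring hN rfl hm (by omega) le_rfl
    have e8 : a * (1 + 1) = 2 * a := by ring
    have e9 : a * 1 = a := mul_one a
    have e12 : a * -2 = -(2 * a) := by ring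
    have e13 : a * (-2 + 1) = -a := by ring
    obtain ⟨s, u, -, ss, hu1, hu2, hu3, -, -, -, hsu, -⟩ := special_meet (j := 1) ha hξQ m1
      (y₀ := h + w) (y₁ := h + 2 * a) (by omega) (by omega) hξU
    obtain ⟨s', -, v, ss', -, -, -, hv1, hv2, hv3, -, hsv⟩ := special_meet (j := -2) ha hξQ m2
      (y₀ := h - 2 * a) (y₁ := h - w) (by omega) (by omega) hξL
    have hp1 := tube_conn ha hξQ c1 hm0 sp₀ ss
    have hp2 := tube_conn ha hξQ c2 hm0 sp₀ ss'
    have hout : cellsF c h a (KQ (32 * N) N m) ⊆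
        SPf c h w a N m \ BR (c, h) (4 * (N * a)) := by
      rw [eN4]
      refine (cellsF_out (r := 4 * N) ha (K' := KP' (32 * N) N m) KQ_sub fun k hk => ?_).trans ?_
      · rw [mem_KQ (by omega) hm] at hk
        exact hk.2
      · exact sdiff_subset_sdiff subset_union_left subset_rfl
    have hcell : ∀ k, k ∈ KQ (32 * N) N m → cellF c h a k ⊆
        SPf c h w a N m \ BR (c, h) (4 * (N * a)) := fun k hk f hf =>
      hout (mem_cellsF.2 ⟨k, hk, hf⟩)
    have hrU : RF (c + a * (32 * N + 1)) (c + a * (32 * N + 1 + 1)) (h + w) (h + 2 * a) ⊆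
        SPf c h w a N m \ BR (c, h) (4 * (N * a)) := fun f hf => by
      rw [mem_sdiff]
      refine ⟨?_, ?_⟩
      · unfold SPf
        exact mem_union_right _ (mem_union_left _ hf)
      · rw [Perc.mem_RFi] at hf
        rw [mem_BR]
        dsimp only
        omega
    have hrL : RF (c + a * (32 * N + 1)) (c + a * (32 * N + 1 + 1)) (h - 2 * a) (h - w) ⊆
        SPf c h w a N m \ BR (c, h) (4 * (N * a)) := fun f hf => by
      rw [mem_sdiff]
      refine ⟨?_, ?_⟩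
      · unfold SPf
        exact mem_union_right _ (mem_union_right _ hf)
      · rw [Perc.mem_RFi] at hf
        rw [mem_BR]
        dsimp only
        omega
    -- the band
    have mb : ((-1, 0) : ℤ × ℤ) ∈ KP' (32 * N) N m := by
      rw [mem_KP' (by omega) hm]
      exact Or.inr (Or.inr (Or.inr ⟨by dsimp only; omega, by dsimp only; omega,
        by dsimp only; omega⟩))
    obtain ⟨pb, -, hpb, -, spb, -, -⟩ := exists_spine_BT ha hξT mb
    have hpb' := tube_conn ha hξT (conn_mid hN rfl hm) (KQ_sub hm0) sp₀ spb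
    have b0 := sp₀.2.1
    have bb := spb.2.1
    dsimp only at b0 bb hpb
    have e1 : a * (-(32 * N) + 1) = -(32 * (N * a)) + a := by ring
    have e2 : a * (-(32 * N) + 1 + 1) = -(32 * (N * a)) + 2 * a := by ring
    have e3 : a * 0 = 0 := mul_zero a
    have e4 : a * (0 + 1) = a := by ring
    have e5 : a * (-1) = -a := by ring
    have e6 : a * (-1 + 1) = 0 := by ring
    refine ⟨p₀, u, v, pb, sp₀.1, by omega, ?_, by omega, by omega, hu1, ?_, by omega, by omega, hv1,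
      hpb'.mono (coe_subset.2 subset_union_left), by omega, by omega, by omega, by omega, ?_⟩
    · exact (hp1.mono (coe_subset.2 hout)).trans (hsu.mono (coe_subset.2
        (union_subset (hcell _ m1) hrU)))
    · exact (hp2.mono (coe_subset.2 hout)).trans (hsv.mono (coe_subset.2
        (union_subset (hcell _ m2) hrL)))
    · intro p t hpar hpt hp1 hp2 hp3 hp4 ht
      have hK : ∀ i, 8 * N ≤ i → i < 12 * N → ((i, 3 * N + 1) : ℤ × ℤ) ∈ KQ (32 * N) N m :=
        fun i hi1 hi2 => inn_mem (by omega) hm (by omega) (by omega)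
      have f1 : c + a * (8 * N) = c + 8 * (N * a) := by ring
      have f2 : c + a * (12 * N) = c + 12 * (N * a) := by ring
      have f3 : a * (3 * N + 1) = 3 * (N * a) + a := by ring
      have f4 : a * (3 * N + 1 + 1) = 3 * (N * a) + 2 * a := by ring
      rw [← f1, ← f2] at hpt
      obtain ⟨k, hkK, x, hk2, hk3, hk4, sx, hpx⟩ := tube_meet_row (j := 3 * N + 1) ha hξQ
        (show 8 * N < 12 * N by omega) hK hpt hpar ⟨by omega, by omega, by omega, by omega⟩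
        (Or.inl ⟨by omega, by omega⟩)
      have hkk : CConn (KQ (32 * N) N m) k (-(32 * N) + 1, 0) := by
        have hk5 : k = (k.1, 3 * N + 1) := Prod.ext rfl hk2
        rw [hk5]
        exact cconn_symm (conn_win hN rfl hm hk3 hk4)
      have hxp := tube_conn ha hξQ hkk hkK sx sp₀
      refine Relation.ReflTransGen.trans (hpx.mono ?_) (hxp.mono ?_)
      · rintro f (hf | hf)
        · rw [mem_coe, Perc.mem_RFi, f1, f2] at hf
          rw [mem_coe, mem_sdiff, mem_union, Perc.mem_RFi, mem_BR]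
          exact ⟨Or.inl hf, by dsimp only; omega⟩
        · have hf' := hout (cellsF_mono' (K' := KQ (32 * N) N m) (fun k hk => ?_)
            (mem_coe.1 hf))
          · rw [mem_sdiff] at hf'
            rw [mem_coe, mem_sdiff, mem_union]
            exact ⟨Or.inr hf'.1, hf'.2⟩
          · rw [mem_product, mem_Ico, mem_singleton] at hk
            have hk5 : k = (k.1, 3 * N + 1) := Prod.ext rfl hk.2
            rw [hk5]
            exact hK _ hk.1.1 hk.1.2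
      · intro f hf
        have hf' := hout (mem_coe.1 hf)
        rw [mem_sdiff] at hf'
        rw [mem_coe, mem_sdiff, mem_union]
        exact ⟨Or.inr hf'.1, hf'.2⟩

end WallAux

end Pool.Agent.Perc6

end Partperc6WallsP

section Partperc6Walls

/-!
# The walls inside and around the box of a cell

Cells of side `a` with corner `(c, h)`; the box of the cell is `-n ≤ i, j < n`, `n = 32 N`. Layer 1
and layer 2 are the cells around the box. P wall: layer 2 (from the upper side of the ray around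
the box to the lower side of the ray), the gate (a cell `g` of layer 1 and its inner neighbour), and
the inner part of the box outside the D wall and outside the middle of the window. D wall: layer 1
without the gate, row `1` and row `-2` from column `0` to layer 1, and column `0` between them.
-/

set_option autoImplicit false

namespace Pool.Agent.Perc6

open Finset Pool.Agent.Perc Pool.Agent.PercD Pool.Agent.PercL

namespace WallAux

theorem walls_disjoint {c h w a N m G : ℤ} (hN : 8 ≤ N) (ha : 1 ≤ a) (hm : Mid (32 * N) m)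
    (hG1 : 5 ≤ G) (hG2 : G ≤ 8 * (32 * N) - 2)
    (hr2 : ring (32 * N) G = scell (32 * N) m) :
    Disjoint (SPf c h w a N m) (cellsF c h a (KD (32 * N) G)) := by
  rw [Finset.disjoint_left]
  intro f hf hf'
  rw [mem_cellsF] at hf'
  obtain ⟨k, hk, hfk⟩ := hf'
  have hk' := KD_spec (by omega) hG1 hG2 hk
  rcases SPf_spec hN hm hf with ⟨k', hfk', hP⟩ | hf
  · have := cell_unique ha hfk hfk'
    subst this
    have hl := lay_scell (n := 32 * N) (by omega) hm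
    have hi := sinn_spec (n := 32 * N) (by omega) hm
    rcases hP with hP | rfl | rfl | hP
    · unfold Lay at hP hk'
      omega
    · rw [hr2] at hk'
      unfold Lay at hl
      rcases hk' with h | h | h
      · omega
      · omega
      · exact h.2 rfl
    · unfold Lay at hk'
      omega
    · unfold Lay Inn at *
      omega
  · have h1 := (cell_fst ha hfk (32 * N + 1)).1 hf.1.1
    unfold Lay at hk'
    omega

theorem card_KD_le {n G : ℤ} (hn : 16 ≤ n) (hG1 : 5 ≤ G) (hG2 : G ≤ 8 * n - 2) :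
    (KD n G).card ≤ ((2 * n + 4).toNat) ^ 2 := by
  have h1 : KD n G ⊆ Ico (-n - 2) (n + 2) ×ˢ Ico (-n - 2) (n + 2) := by
    intro k hk
    have := KD_spec hn hG1 hG2 hk
    rw [mem_product, mem_Ico, mem_Ico]
    unfold Lay at this
    omega
  refine (card_le_card h1).trans ?_
  rw [card_product, Int.card_Ico, sq]
  have e : n + 2 - (-n - 2) = 2 * n + 4 := by ring
  rw [e]

theorem card_KP_le {n N m : ℤ} (hn : 16 ≤ n) (hm : Mid n m) :
    (KP' n N m).card ≤ ((2 * n + 4).toNat) ^ 2 := by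
  have h1 : KP' n N m ⊆ Ico (-n - 2) (n + 2) ×ˢ Ico (-n - 2) (n + 2) := by
    intro k hk
    rw [mem_KP' hn hm] at hk
    have := PP_bd hn hm hk
    rw [mem_product, mem_Ico, mem_Ico]
    omega
  refine (card_le_card h1).trans ?_
  rw [card_product, Int.card_Ico, sq]
  have e : n + 2 - (-n - 2) = 2 * n + 4 := by ring
  rw [e]

theorem pr_walls {N : ℤ} (hN : 8 ≤ N) : ∃ δ : ℝ, 0 < δ ∧ ∀ (col h w c a m G : ℤ), 1 ≤ w →
    w ≤ a → Mid (32 * N) m → 5 ≤ G → G ≤ 8 * (32 * N) - 2 →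
    SPf c h w a N m ⊆ BR (c, h) (32 * (N * a) + 2 * a) →
    cellsF c h a (KD (32 * N) G) ⊆ BR (c, h) (32 * (N * a) + 2 * a) →
    ∀ W : Finset (ℤ × ℤ), BR (c, h) (32 * (N * a) + 2 * a) ⊆ W →
      δ ≤ pr W (PEv col c h w a N m) ∧ δ ≤ pr W (TubeEv (col + 1) c h a (KD (32 * N) G)) := by
  obtain ⟨δ, hδ, hT⟩ := pr_tube (((2 * (32 * N) + 4).toNat) ^ 2)
  obtain ⟨b, hb, hB⟩ := rswF' 2
  refine ⟨min (δ * (b * b)) δ, lt_min (by positivity) hδ, ?_⟩
  intro col h w c a m G hw hwa hm hG1 hG2 hP hD W hW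
  have ha : 1 ≤ a := by omega
  have hPW := hP.trans hW
  have hDW := hD.trans hW
  constructor
  · refine (min_le_left _ _).trans ?_
    unfold SPf at hPW
    have hK : cellsF c h a (KP' (32 * N) N m) ⊆ W := subset_union_left.trans hPW
    have e1 : a * (32 * N + 1 + 1) = a * (32 * N + 1) + a := by ring
    have o1 : TubesAux.Ok W (cellsF c h a (KP' (32 * N) N m)) (parD col) δ
        (TubeEv col c h a (KP' (32 * N) N m)) :=
      ⟨hK, depOn_tube _ _ _ _ _ ha, incD_tube _ _ _ _ _,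
        hT _ _ _ _ _ _ ha (card_KP_le (by omega) hm) hK⟩
    have o2 := TubesAux.ok_BT hB (W := W) col (x₀ := c + a * (32 * N + 1))
      (x₁ := c + a * (32 * N + 1 + 1)) (y₀ := h + w) (y₁ := h + 2 * a)
      ((subset_union_left.trans subset_union_right).trans hPW) (by omega) (by omega)
      (by push_cast; omega)
    have o3 := TubesAux.ok_BT hB (W := W) col (x₀ := c + a * (32 * N + 1))
      (x₁ := c + a * (32 * N + 1 + 1)) (y₀ := h - 2 * a) (y₁ := h - w)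
      ((subset_union_right.trans subset_union_right).trans hPW) (by omega) (by omega)
      (by push_cast; omega)
    exact (o1.inter (by positivity) (o2.inter hb.le o3)).2.2.2
  · exact (min_le_right _ _).trans (hT _ _ _ _ _ _ ha (card_KD_le (by omega) hG1 hG2) hDW)

end WallAux

/-- The walls exist and have positive probability. -/
theorem exists_walls {N : ℤ} (hN : 8 ≤ N) : ∃ δ : ℝ, 0 < δ ∧ ∀ (col h w c a τ τ' : ℤ), 1 ≤ w →
    w ≤ a → 3 * a ≤ τ → τ + 8 * a ≤ τ' → τ' + 3 * a ≤ len w (32 * (N * a)) →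
    ∃ (SP SD SU SL : Finset (ℤ × ℤ)) (P D : Set Cfg), Disjoint SP SD ∧
      WallP col h w c a N τ τ' SP P ∧ WallD col h w c a N τ τ' SD SU SL D ∧
      ∀ W : Finset (ℤ × ℤ), BR (c, h) (32 * (N * a) + 2 * a) ⊆ W → δ ≤ pr W P ∧ δ ≤ pr W D := by
  obtain ⟨δ, hδ, hpr⟩ := WallAux.pr_walls hN
  refine ⟨δ, hδ, ?_⟩
  intro col h w c a τ τ' hw hwa h1 h2 h3
  have ha : 1 ≤ a := by omega
  have h3' : τ' + 3 * a ≤ 8 * (a * (32 * N)) - 2 * w := by
    unfold len at h3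
    have e : 8 * (a * (32 * N)) = 8 * (32 * (N * a)) := by ring
    omega
  obtain ⟨m, hm, hm1, hm2⟩ := WallAux.exists_mid (n := 32 * N) (by omega) hw hwa h1 h2 h3'
  obtain ⟨G, hG1, hG2, r1, r2, r3⟩ := WallAux.mid_ring (by omega) hm
  have hP := WallAux.wallP (col := col) (h := h) (c := c) hN hw hwa hm hm1 hm2
  have hmm : 2 ≤ m ∧ m + 1 ≤ 8 * (32 * N) - 1 := by
    unfold WallAux.Mid at hm
    omega
  have hD := WallAux.wallD (col := col) (h := h) (c := c) hN hw hwa h1 h3 hm1 hm2 hG1 hG2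
    hmm.1 hmm.2 r1 r3
  exact ⟨_, _, _, _, _, _, WallAux.walls_disjoint hN ha hm hG1 hG2 r2, hP, hD,
    hpr col h w c a m G hw hwa hm hG1 hG2 hP.sub hD.sub⟩

end Pool.Agent.Perc6

end Partperc6Walls

section Partperc6InsertA

/-!
# Insertion of a success and a tag: the geometry of one cell
-/

set_option autoImplicit false

namespace Pool.Agent.Perc6

open Finset Pool.Agent.Perc Pool.Agent.PercD Pool.Agent.PercL

namespace InsertAux

section

variable {h w cB RB c R : ℤ} {f z : ℤ × ℤ}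

theorem onBd_of_vf (hf : f ∈ BR (c, h) R) (hz : IsCor f z)
    (hv : z ∈ VF (Slit h w cB RB c R)) : OnBd (c - R) (c + R) (h - R) (h + R) z := by
  obtain ⟨f', ⟨-, h2, -⟩, hz'⟩ := hv
  rw [mem_BR] at hf h2
  unfold IsCor at hz hz'
  unfold OnBd
  simp only at *
  omega

/-- A vertex strictly inside the box is not a vertex of the slit region. -/
theorem notMem_vf (h1 : c - R < z.1) (h2 : z.1 < c + R) (h3 : h - R < z.2) (h4 : z.2 < h + R) :
    z ∉ VF (Slit h w cB RB c R) := by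
  rintro ⟨f', ⟨-, h5, -⟩, hz'⟩
  rw [mem_BR] at h5
  unfold IsCor at hz'
  simp only at *
  omega

theorem mem_vf_up (hn : Nest h w cB RB c R) (h1 : c + R ≤ z.1) (h2 : z.1 < cB + RB)
    (h3 : z.2 = h + w) : z ∈ VF (Slit h w cB RB c R) := by
  obtain ⟨n1, n2, n3, n4, n5⟩ := hn
  refine ⟨(z.1, z.2), ⟨?_, ?_, ?_⟩, Or.inl rfl, Or.inl rfl⟩
  · rw [mem_BR]; simp only; omega
  · rw [mem_BR]; simp only; omega
  · unfold Ray
    simp only [Set.mem_ofPred_eq]
    omega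

theorem mem_vf_down (hn : Nest h w cB RB c R) (h1 : c + R ≤ z.1) (h2 : z.1 < cB + RB)
    (h3 : z.2 = h - w) : z ∈ VF (Slit h w cB RB c R) := by
  obtain ⟨n1, n2, n3, n4, n5⟩ := hn
  refine ⟨(z.1, z.2 - 1), ⟨?_, ?_, ?_⟩, Or.inl rfl, Or.inr (by simp)⟩
  · rw [mem_BR]; simp only; omega
  · rw [mem_BR]; simp only; omega
  · unfold Ray
    simp only [Set.mem_ofPred_eq]
    omega

theorem mem_vf_cyc (hn : Nest h w cB RB c R) {x : ℤ} (h0 : 0 ≤ x) (h1 : x < len w R) :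
    cyc c h w R x ∈ VF (Slit h w cB RB c R) := by
  obtain ⟨⟨f, hf, hs⟩, -⟩ := bdU_inner hn h0 h1
  exact ⟨f, hf, hs.cor_left (cyc_joins hn.w1 hn.wR h0 h1)⟩

end

/-- The window of the cell. -/
noncomputable def WF (h w c μ : ℤ) : Finset (ℤ × ℤ) :=
  RF (c + 8 * μ) (c + 12 * μ) (h + w) (h + w + 4 * μ)

section

variable {col h w cB RB c a N τ τ' : ℤ} {k : ℤ × ℤ} {ω ξ η : Cfg}
  {SP SD SU SL : Finset (ℤ × ℤ)} {P D : Set Cfg}

theorem par_of_mod {z : ℤ × ℤ} {col : ℤ} (hcol : col = 0 ∨ col = 1)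
    (h : (z.1 + z.2 - col) % 2 = 0) : par z = col := by
  unfold par
  omega

theorem mod_of_par {z : ℤ × ℤ} {col : ℤ} (h : par z = col) : (z.1 + z.2 - col) % 2 = 0 := by
  unfold par at h
  omega

/-- The faces of the walls are in the large box. -/
theorem insert_geo (hwa : w ≤ a) (hN : 8 ≤ N) (hn : Nest h w cB RB c (32 * (N * a)))
    (hn4 : Nest h w cB RB c (4 * (N * a))) (hB : BR (c, h) (64 * (N * a)) ⊆ BR (cB, h) RB)
    (hcol : col = 0 ∨ col = 1) (hk : k ∈ KP col cB h w RB)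
    (hω : ω ∈ Gev h w cB RB c (32 * (N * a)) k)
    (h1 : cycE c h w (32 * (N * a)) τ ∈ MM ω (Slit h w cB RB c (32 * (N * a)))
      (cycE cB h w RB k.1))
    (h2 : cycE c h w (32 * (N * a)) τ' ∈ MM ω (Slit h w cB RB c (32 * (N * a)))
      (cycE cB h w RB k.2))
    (h3 : 3 * a ≤ τ) (h4 : τ + 8 * a ≤ τ') (h5 : τ' + 3 * a ≤ len w (32 * (N * a)))
    (hP : WallP col h w c a N τ τ' SP P) (hD : WallD col h w c a N τ τ' SD SU SL D)
    (hξP : ξ ∈ P) (hξD : ξ ∈ D)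
    (hη : ∀ f ∈ S2 ω (Slit h w cB RB c (32 * (N * a))) (cycE cB h w RB k.1)
      (cycE cB h w RB k.2), η f = ω f)
    (hη' : ∀ f ∈ BR (c, h) (64 * (N * a)), f ∉ S2 ω (Slit h w cB RB c (32 * (N * a)))
      (cycE cB h w RB k.1) (cycE cB h w RB k.2) → η f = ξ f) :
    (∃ X : ℤ × ℤ, c - a ≤ X.1 ∧ X.1 < c + a ∧ h - w ≤ X.2 ∧ X.2 ≤ h + w ∧ par X = col ∧
      η ∈ TagEv h w cB RB X ∧ η ∈ Exit h w cB RB X k) ∧
    ∀ (b : UE) (p p' : ℤ × ℤ), Joins b p p' → par p = col →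
      (c + 8 * (N * a) ≤ p.1 ∧ p.1 ≤ c + 12 * (N * a) ∧ h + w ≤ p.2 ∧
        p.2 ≤ h + w + 3 * (N * a)) →
      (c + 8 * (N * a) ≤ p'.1 ∧ p'.1 ≤ c + 12 * (N * a) ∧ h + w + N * a ≤ p'.2 ∧
        p'.2 ≤ h + w + 4 * (N * a)) →
      (∃ t, Conn ξ (WF h w c (N * a)) p t ∧ t.2 = h + w + 4 * (N * a)) →
      (∃ t, Conn ξ (WF h w c (N * a)) p' t ∧ t.2 = h + w) →
      b ∈ MM η (Slit h w cB RB c (4 * (N * a))) (cycE cB h w RB k.1) := by
  classical
  -- arithmetic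
  have hw := hn.w1
  have hwR := hn.wR
  have ha : 1 ≤ a := hw.trans hwa
  have hμ : 8 * a ≤ N * a := mul_le_mul_of_nonneg_right hN (by omega)
  have hPs := hP.sub
  have hPray := hP.ray
  have hPtouch := hP.touch
  have hPmain := hP.main ξ hξP
  have hDs := hD.sub
  have hDray := hD.ray
  have hDU := hD.subU
  have hDL := hD.subL
  have hDtouchU := hD.touchU
  have hDtouchL := hD.touchL
  have hDmain := hD.main ξ hξD
  clear hP hD
  generalize hμdef : N * a = μ at *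
  clear hμdef
  have hBc : cB - RB ≤ c - 64 * μ ∧ c + 64 * μ ≤ cB + RB ∧ 64 * μ ≤ RB := by
    have q1 : ((c - 64 * μ, h - 64 * μ) : ℤ × ℤ) ∈ BR (cB, h) RB := hB (by
      rw [mem_BR]; simp only; omega)
    have q2 : ((c + 64 * μ - 1, h) : ℤ × ℤ) ∈ BR (cB, h) RB := hB (by
      rw [mem_BR]; simp only; omega)
    rw [mem_BR] at q1 q2
    simp only at q1 q2
    omega
  have hkm := hk
  unfold KP at hkm
  rw [mem_filter, mem_product, mem_Ico, mem_Ico] at hkm
  obtain ⟨⟨hk1, hk2⟩, hk12, hkv, hku'⟩ := hkm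
  obtain ⟨Φ, Ψ, t₀, t₁, hDuo, ht0, ht01, ht1, hτ, hτ', hΦ, hΨ, hup, hdown⟩ :=
    duo_of_Gev hn hk hω
  have hlen : τ' < len w (32 * μ) := by omega
  have e0 : τ = t₀ := (hτ τ (by omega) (by omega)).1 h1
  have e1 : τ' = t₁ := (hτ' τ' (by omega) hlen).1 h2
  subst e0 e1
  set F := Slit h w cB RB c (32 * μ) with hF
  set S := S2 ω F (cycE cB h w RB k.1) (cycE cB h w RB k.2) with hS
  set u := cyc cB h w RB (k.1 + 1) with hu
  set v := cyc cB h w RB k.1 with hv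
  set u' := cyc cB h w RB k.2 with hu'
  set v' := cyc cB h w RB (k.2 + 1) with hv'
  have hparu : par u = col := hDuo.par_eq.trans hku'
  have hparv : par v = col + 1 ∨ par v = col - 1 := by
    have := par_cases v
    rcases hcol with rfl | rfl <;> omega
  have hSF : S ⊆ F := by
    rintro f (hf | hf)
    · exact SS_sub hf
    · exact SS_sub hf
  -- the faces of the walls
  have hPsub : ∀ f ∈ SP, f ∈ BR (c, h) (64 * μ) := by
    intro f hf
    have := hPs hf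
    rw [mem_BR] at this ⊢
    simp only at this ⊢
    omega
  have hDsub : ∀ f ∈ SD, f ∈ BR (c, h) (64 * μ) := by
    intro f hf
    have := hDs hf
    rw [mem_BR] at this ⊢
    simp only at this ⊢
    omega
  have hWsub : ∀ f ∈ WF h w c μ, f ∈ BR (c, h) (32 * μ) ∧ f ∉ BR (c, h) (4 * μ) ∧
      f ∉ Ray h w (c + a) ∧ f ∈ BR (c, h) (64 * μ) := by
    intro f hf
    unfold WF at hf
    rw [mem_RF] at hf
    rw [mem_BR, mem_BR, mem_BR]
    unfold Ray
    simp only [Set.mem_ofPred_eq]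
    omega
  -- faces outside `F`
  have hnotF : ∀ f, f ∈ BR (c, h) (64 * μ) → f ∉ Ray h w (c + a) → f ∉ F →
      f ∈ BR (c, h) (32 * μ) := by
    intro f h6 h7 h8
    by_contra hcon
    refine h8 ⟨hB h6, hcon, fun h9 => h7 ?_⟩
    unfold Ray at h9 ⊢
    simp only [Set.mem_ofPred_eq] at h9 ⊢
    omega
  have hPG : ∀ f ∈ SP, f ∉ F → ∀ z, IsCor f z → z ∈ VF F → Φ z = 1 ∧ Ψ z = 0 := by
    intro f hf hfF z hz hzF
    have hfR := hnotF f (hPsub f hf) (hPray f hf) hfF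
    obtain ⟨x, hx1, hx2, rfl⟩ := hPtouch f hf hfR z hz (onBd_of_vf hfR hz hzF)
    rw [hΦ x (by omega) (by omega), hΨ x (by omega) (by omega), if_neg (by omega),
      if_pos (by omega)]
    exact ⟨rfl, rfl⟩
  have hWG : ∀ f ∈ WF h w c μ, ∀ z, IsCor f z → z ∉ VF F := by
    intro f hf z hz
    unfold WF at hf
    rw [mem_RF] at hf
    unfold IsCor at hz
    exact notMem_vf (by omega) (by omega) (by omega) (by omega)
  have hUG : ∀ f ∈ SU, f ∉ F → ∀ z, IsCor f z → z ∈ VF F → Φ z = 0 := by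
    intro f hf hfF z hz hzF
    have hfR := hnotF f (hDsub f (hDU hf)) (hDray f (hDU hf)) hfF
    obtain ⟨x, hx1, hx2, rfl⟩ := hDtouchU f hf hfR z hz (onBd_of_vf hfR hz hzF)
    rw [hΦ x (by omega) (by omega), if_pos (by omega)]
  have hLG : ∀ f ∈ SL, f ∉ F → ∀ z, IsCor f z → z ∈ VF F → Ψ z = 1 := by
    intro f hf hfF z hz hzF
    have hfR := hnotF f (hDsub f (hDL hf)) (hDray f (hDL hf)) hfF
    obtain ⟨x, hx1, hx2, rfl⟩ := hDtouchL f hf hfR z hz (onBd_of_vf hfR hz hzF)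
    rw [hΨ x (by omega) (by omega), if_neg (by omega)]
  -- the points of the walls
  obtain ⟨p₀, pu, pl, pb, hp0, hp0b, hpu, hpu1, hpu2, hpu3, hpl, hpl1, hpl2, hpl3, hpb, hpb1,
    hpb2, hpb3, hpb4, hPwin⟩ := hPmain
  obtain ⟨q₀, q₁, xu, xl, hq0, hq1, hq0b, hq1b, ⟨hxu1, hxu2, hqu⟩, ⟨hxl1, hxl2, hql⟩, hq01,
    hDwin⟩ := hDmain
  have hpuF : pu ∈ VF F := mem_vf_up hn hpu1 (by omega) hpu3
  have hplF : pl ∈ VF F := mem_vf_down hn hpl1 (by omega) hpl3
  have hΦu : Φ pu = 0 := by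
    have := (hup pu.1 hpu1 (by omega)).1
    rwa [← hpu3] at this
  have hΨl : Ψ pl = 1 := by
    have := (hdown pl.1 hpl1 (by omega)).2
    rwa [← hpl3] at this
  have hxuF : cyc c h w (32 * μ) xu ∈ VF F := mem_vf_cyc hn (by omega) (by omega)
  have hxlF : cyc c h w (32 * μ) xl ∈ VF F := mem_vf_cyc hn (by omega) (by omega)
  have hΦxu : Φ (cyc c h w (32 * μ) xu) = 1 := by
    rw [hΦ xu (by omega) (by omega), if_neg (by omega)]
  have hΨxl : Ψ (cyc c h w (32 * μ) xl) = 0 := by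
    rw [hΨ xl (by omega) (by omega), if_pos (by omega)]
  -- landing for the P wall
  have hGP : ∀ G : Finset (ℤ × ℤ), (∀ f ∈ G, f ∈ SP ∨ f ∈ WF h w c μ) →
      (∀ g ∈ (G : Set (ℤ × ℤ)), g ∉ S → η g = ξ g) ∧
      ∀ g ∈ (G : Set (ℤ × ℤ)), g ∉ F → ∀ z, IsCor g z → z ∈ VF F → Φ z = 1 ∧ Ψ z = 0 := by
    intro G hG
    constructor
    · intro g hg hgS
      rcases hG g hg with h6 | h6
      · exact hη' g (hPsub g h6) hgS
      · exact hη' g (hWsub g h6).2.2.2 hgS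
    · intro g hg hgF z hz hzF
      rcases hG g hg with h6 | h6
      · exact hPG g h6 hgF z hz hzF
      · exact absurd hzF (hWG g h6 z hz)
  have landP1 : ∀ G : Finset (ℤ × ℤ), (∀ f ∈ G, f ∈ SP ∨ f ∈ WF h w c μ) → ∀ p : ℤ × ℤ,
      par p = col → p ∉ VF F → Conn ξ G p pu → Conn η ((G : Set (ℤ × ℤ)) ∪ S) p u := by
    intro G hG p hp hpF hc
    obtain ⟨g1, g2⟩ := hGP G hG
    exact hDuo.landP hη g1 g2 (hp.trans hparu.symm) (fun h => absurd h hpF) hc hpuF hΦu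
  have landP2 : ∀ G : Finset (ℤ × ℤ), (∀ f ∈ G, f ∈ SP ∨ f ∈ WF h w c μ) → ∀ p : ℤ × ℤ,
      par p = col → p ∉ VF F → Conn ξ G p pl → Conn η ((G : Set (ℤ × ℤ)) ∪ S) p u' := by
    intro G hG p hp hpF hc
    obtain ⟨g1, g2⟩ := hGP G hG
    exact hDuo.landP' hη g1 g2 (hp.trans hparu.symm) (fun h => absurd h hpF) hc hplF hΨl
  have landD1 : ∀ G : Finset (ℤ × ℤ), (∀ f ∈ G, f ∈ SU ∨ f ∈ WF h w c μ) → ∀ p : ℤ × ℤ,
      par p = par v → p ∉ VF F → Conn ξ G p (cyc c h w (32 * μ) xu) →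
      Conn η ((G : Set (ℤ × ℤ)) ∪ S) p v := by
    intro G hG p hp hpF hc
    refine hDuo.landD hη ?_ ?_ hp (fun h => absurd h hpF) hc hxuF hΦxu
    · intro g hg hgS
      rcases hG g hg with h6 | h6
      · exact hη' g (hDsub g (hDU h6)) hgS
      · exact hη' g (hWsub g h6).2.2.2 hgS
    · intro g hg hgF z hz hzF
      rcases hG g hg with h6 | h6
      · exact hUG g h6 hgF z hz hzF
      · exact absurd hzF (hWG g h6 z hz)
  have landD2 : ∀ G : Finset (ℤ × ℤ), (∀ f ∈ G, f ∈ SL) → ∀ p : ℤ × ℤ,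
      par p = par v → p ∉ VF F → Conn ξ G p (cyc c h w (32 * μ) xl) →
      Conn η ((G : Set (ℤ × ℤ)) ∪ S) p v' := by
    intro G hG p hp hpF hc
    refine hDuo.landD' hη ?_ ?_ hp (fun h => absurd h hpF) hc hxlF hΨxl
    · intro g hg hgS
      exact hη' g (hDsub g (hDL (hG g hg))) hgS
    · intro g hg hgF z hz hzF
      exact hLG g (hG g hg) hgF z hz hzF
  have hp0F : p₀ ∉ VF F := notMem_vf hp0b.1 hp0b.2.1 hp0b.2.2.1 hp0b.2.2.2
  have hq0F : q₀ ∉ VF F := notMem_vf hq0b.1 hq0b.2.1 hq0b.2.2.1 hq0b.2.2.2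
  have hq1F : q₁ ∉ VF F := notMem_vf hq1b.1 hq1b.2.1 hq1b.2.2.1 hq1b.2.2.2
  have hpbF : pb ∉ VF F := notMem_vf (by omega) (by omega) (by omega) (by omega)
  have hparp0 : par p₀ = col := par_of_mod hcol hp0
  have hparD : ∀ z : ℤ × ℤ, (z.1 + z.2 - (col + 1)) % 2 = 0 → par z = par v := by
    intro z hz
    have := par_cases v
    unfold par at *
    omega
  have hsP : ∀ {p q : ℤ × ℤ}, Conn ξ (SP \ BR (c, h) (4 * μ) : Finset (ℤ × ℤ)) p q →
      Conn ξ (SP : Set (ℤ × ℤ)) p q := fun hc => hc.mono (by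
    intro f hf
    rw [mem_coe, mem_sdiff] at hf
    exact hf.1)
  have hsU : ∀ {p q : ℤ × ℤ}, Conn ξ (SU \ BR (c, h) (4 * μ) : Finset (ℤ × ℤ)) p q →
      Conn ξ (SU : Set (ℤ × ℤ)) p q := fun hc => hc.mono (by
    intro f hf
    rw [mem_coe, mem_sdiff] at hf
    exact hf.1)
  -- the connections of the tag
  have c1 : Conn η ((SP : Set (ℤ × ℤ)) ∪ S) p₀ u :=
    landP1 SP (fun f hf => Or.inl hf) p₀ hparp0 hp0F (hsP hpu)
  have c2 : Conn η ((SP : Set (ℤ × ℤ)) ∪ S) p₀ u' :=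
    landP2 SP (fun f hf => Or.inl hf) p₀ hparp0 hp0F (hsP hpl)
  have c3 : Conn η ((SP : Set (ℤ × ℤ)) ∪ S) pb u := by
    refine landP1 SP (fun f hf => Or.inl hf) pb ?_ hpbF (hpb.symm.trans (hsP hpu))
    rw [← hpb.par_eq]
    exact hparp0
  have c4 : Conn η ((SU : Set (ℤ × ℤ)) ∪ S) q₀ v :=
    landD1 SU (fun f hf => Or.inl hf) q₀ (hparD q₀ hq0) hq0F (hsU hqu)
  have c5 : Conn η ((SL : Set (ℤ × ℤ)) ∪ S) q₁ v' :=
    landD2 SL (fun f hf => hf) q₁ (hparD q₁ hq1) hq1F hql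
  have hSnotch : S ⊆ Notch h w cB RB (c + a) := by
    intro f hf
    obtain ⟨h6, h7, h8⟩ := hSF hf
    refine ⟨h6, fun h9 => ?_⟩
    rw [mem_BR] at h7
    unfold Ray at h8 h9
    simp only [Set.mem_ofPred_eq] at h8 h9
    simp only at h7
    omega
  have hPnotch : (SP : Set (ℤ × ℤ)) ⊆ Notch h w cB RB (c + a) :=
    fun f hf => ⟨hB (hPsub f hf), hPray f hf⟩
  have hDnotch : (SD : Set (ℤ × ℤ)) ⊆ Notch h w cB RB (c + a) :=
    fun f hf => ⟨hB (hDsub f hf), hDray f hf⟩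
  have n1 : (SP : Set (ℤ × ℤ)) ∪ S ⊆ Notch h w cB RB (c + a) := Set.union_subset hPnotch hSnotch
  have n2 : (SU : Set (ℤ × ℤ)) ∪ S ⊆ Notch h w cB RB (c + a) :=
    Set.union_subset (fun f hf => hDnotch (hDU hf)) hSnotch
  have n3 : (SL : Set (ℤ × ℤ)) ∪ S ⊆ Notch h w cB RB (c + a) :=
    Set.union_subset (fun f hf => hDnotch (hDL hf)) hSnotch
  have c6 : Conn η (Notch h w cB RB (c + a)) q₀ q₁ := by
    have h6 : Conn η (SD ∩ BR (c, h) (32 * μ) : Finset (ℤ × ℤ)) q₀ q₁ := by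
      refine GridA.conn_congr _ ?_ hq01
      intro f hf
      rw [mem_coe, mem_inter] at hf
      exact (hη' f (hDsub f hf.1) fun h7 => (hSF h7).2.1 hf.2).symm
    refine h6.mono ?_
    intro f hf
    rw [mem_coe, mem_inter] at hf
    exact hDnotch hf.1
  refine ⟨?_, ?_⟩
  · exact tag_create (x₁ := c - a) (x₂ := c + a) hw (by omega) (by omega) (by omega) (by omega)
      hk ((c1.mono n1).symm.trans (c2.mono n1))
      ((c4.mono n2).symm.trans (c6.trans (c5.mono n3))) ((c3.mono n1).symm) hpb1 ⟨hpb3, hpb4⟩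
  -- the strand meets the cells
  intro b p p' hb hparp hpw hpw' ⟨t, htc, ht⟩ ⟨t', htc', ht'⟩
  have hFF : F ⊆ Slit h w cB RB c (4 * μ) := Geo.slit_sub (by omega) hw (by omega)
  obtain ⟨Φ', hΦ'⟩ := hasPot_Slit hn4 (MM η (Slit h w cB RB c (4 * μ)) (cycE cB h w RB k.1))
    fun f hf => evenAt_MM hf
  have hparp' : par p' = par v := by
    have h6 := hb.par_ne
    have := par_cases p'
    have := par_cases v
    omega
  have hslit : ∀ f, f ∈ BR (c, h) (64 * μ) → f ∉ Ray h w (c + a) → f ∉ BR (c, h) (4 * μ) →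
      f ∈ Slit h w cB RB c (4 * μ) := by
    intro f h6 h7 h8
    refine ⟨hB h6, h8, fun h9 => h7 ?_⟩
    unfold Ray at h9 ⊢
    simp only [Set.mem_ofPred_eq] at h9 ⊢
    omega
  have hpF : p ∉ VF F := notMem_vf (by omega) (by omega) (by omega) (by omega)
  have hp'F : p' ∉ VF F := notMem_vf (by omega) (by omega) (by omega) (by omega)
  have d1 : Conn η (Slit h w cB RB c (4 * μ)) p u := by
    have h6 := hPwin p t (mod_of_par hparp) htc hpw.1 hpw.2.1 hpw.2.2.1 hpw.2.2.2 ht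
    have h7 : Conn ξ ((RF (c + 8 * μ) (c + 12 * μ) (h + w) (h + w + 4 * μ) ∪ SP) \
        BR (c, h) (4 * μ) : Finset (ℤ × ℤ)) p pu := by
      refine h6.trans (hpu.mono ?_)
      intro f hf
      rw [mem_coe, mem_sdiff] at hf ⊢
      exact ⟨mem_union_right _ hf.1, hf.2⟩
    refine (landP1 _ ?_ p hparp hpF h7).mono ?_
    · intro f hf
      rw [mem_sdiff, mem_union] at hf
      exact hf.1.symm
    · rintro f (hf | hf)
      · rw [mem_coe, mem_sdiff, mem_union] at hf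
        rcases hf.1 with h8 | h8
        · exact hslit f (hWsub f h8).2.2.2 (hWsub f h8).2.2.1 hf.2
        · exact hslit f (hPsub f h8) (hPray f h8) hf.2
      · exact hFF (hSF hf)
  have d2 : Conn η (Slit h w cB RB c (4 * μ)) p' v := by
    have h5' : (p'.1 + p'.2 - (col + 1)) % 2 = 0 := by
      have h6 := hb.par_ne
      unfold par at *
      omega
    have h6 := hDwin p' t' h5' htc' hpw'.1 hpw'.2.1 hpw'.2.2.1 hpw'.2.2.2 ht'
    have h7 : Conn ξ ((RF (c + 8 * μ) (c + 12 * μ) (h + w) (h + w + 4 * μ) ∪ SU) \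
        BR (c, h) (4 * μ) : Finset (ℤ × ℤ)) p' (cyc c h w (32 * μ) xu) := by
      refine h6.trans (hqu.mono ?_)
      intro f hf
      rw [mem_coe, mem_sdiff] at hf ⊢
      exact ⟨mem_union_right _ hf.1, hf.2⟩
    refine (landD1 _ ?_ p' hparp' hp'F h7).mono ?_
    · intro f hf
      rw [mem_sdiff, mem_union] at hf
      exact hf.1.symm
    · rintro f (hf | hf)
      · rw [mem_coe, mem_sdiff, mem_union] at hf
        rcases hf.1 with h8 | h8
        · exact hslit f (hWsub f h8).2.2.2 (hWsub f h8).2.2.1 hf.2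
        · exact hslit f (hDsub f (hDU h8)) (hDray f (hDU h8)) hf.2
      · exact hFF (hSF hf)
  refine hΦ'.mem_of_conn hDuo.je ?_ hb ?_ d1.symm d2.symm
  · obtain ⟨f, hf, hs⟩ := hDuo.side
    exact ⟨f, hFF hf, hs⟩
  · refine ⟨(b.1, b.2.1), ?_, ?_⟩
    · have e1 : (b.1 = p.1 ∨ b.1 = p'.1) ∧ (b.2.1 = p.2 ∨ b.2.1 = p'.2) := by
        rcases hb with ⟨rfl, rfl⟩ | ⟨rfl, rfl⟩
        · exact ⟨Or.inl rfl, Or.inl rfl⟩
        · exact ⟨Or.inr rfl, Or.inr rfl⟩
      refine ⟨hB ?_, ?_, ?_⟩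
      · rw [mem_BR]; simp only; omega
      · rw [mem_BR]; simp only; omega
      · unfold Ray
        simp only [Set.mem_ofPred_eq]
        omega
    · obtain ⟨x, y, bb⟩ := b
      cases bb
      · exact Or.inl rfl
      · exact Or.inr (Or.inl rfl)

end

end InsertAux

end Pool.Agent.Perc6

end Partperc6InsertA

section Partperc6Count

/-!
# Counting tags and pairs of strands
-/

set_option autoImplicit false

namespace Pool.Agent.Perc6

open Finset Pool.Agent.Perc Pool.Agent.PercD Pool.Agent.PercL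

namespace N1Aux

open Pool.Agent.PercN

variable {ω : Cfg} {v : ℤ × ℤ} {r R : ℤ} {e a b : UE}

/-- First exit from a box, in a general region. -/
theorem first_exitF {F : Set (ℤ × ℤ)} (he : InE v r e) (ha : a ∈ MM ω F e) :
    a ∈ MM ω (F ∩ BR v r) e ∨ ∃ b ∈ MM ω (F ∩ BR v r) e, BdR v r b := by
  have key : ∀ a ∈ MM ω F e, (a ∈ MM ω (F ∩ BR v r) e ∧ InE v r a) ∨
      ∃ b ∈ MM ω (F ∩ BR v r) e, BdR v r b := by
    intro a ha
    induction ha with
    | refl => exact Or.inl ⟨mem_MM_self, he⟩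
    | tail _ hs ih =>
      rename_i b₁ b₂ _
      obtain ⟨f, hf, hm⟩ := hs
      rcases ih with ⟨ih, hi⟩ | ih
      · by_cases hfR : f ∈ (BR v r : Set (ℤ × ℤ))
        · exact Or.inl ⟨MM_step ⟨hf, hfR⟩ hm ih, inE_of_side hfR hm.right⟩
        · exact Or.inr ⟨_, ih, bd_of_side hi hm.left hfR⟩
      · exact Or.inr ih
  rcases key a ha with h | h
  · exact Or.inl h.1
  · exact Or.inr h

/-- The event that the strand of the outer unit edge `e` crosses the annulus inwards. -/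
def Cr (v : ℤ × ℤ) (r R : ℤ) (e : UE) : Set Cfg := {ω | ∃ a ∈ MM ω (An v r R) e, BdR v r a}

theorem bdR_ne {r R : ℤ} (h : r < R) (ha : BdR v r a) (hb : BdR v R b) : a ≠ b := by
  rintro rfl
  unfold BdR BdE at ha hb
  omega

open Classical in
/-- The number of the strands which cross the annulus inwards. -/
theorem card_cr_le (hr : 0 < r) (hR : 2 * r ≤ R) (E : Finset UE) (hE : ∀ e ∈ E, BdR v R e) (ω : Cfg) :
    (E.filter fun e => ω ∈ Cr v r R e).card ≤ NC v r (2 * r) ω := by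
  have H : ∀ e ∈ E.filter fun e => ω ∈ Cr v r R e, ∃ a ∈ MM ω (An v r R) e, BdR v r a :=
    fun e he => (mem_filter.1 he).2
  choose! t ht1 ht2 using H
  unfold PercN.NC
  refine Finset.card_le_card_of_injOn t (fun e he => ?_) ?_
  · have he' := mem_coe.1 he
    refine mem_coe.2 ((mem_NP hr.le).2 ⟨ht2 e he', ?_⟩)
    have hin : InE v (2 * r) (t e) := (Sub.refl' (by omega)).inE ((ht2 e he').inE hr.le)
    have h1 := first_exitF hin (MM_symm (ht1 e he'))
    have hsub : ((An v r R : Set (ℤ × ℤ)) ∩ BR v (2 * r)) ⊆ (An v r (2 * r) : Set (ℤ × ℤ)) := by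
      rintro f ⟨hf, hf'⟩
      rw [mem_coe, mem_An] at hf ⊢
      exact ⟨hf', hf.2⟩
    rcases h1 with h1 | ⟨b, h1, h2⟩
    · refine ⟨e, MM_mono hsub h1, ?_, trivial⟩
      have hin' : InE v (2 * r) e := by
        have h2 := MM_mono (F' := (BR v (2 * r) : Set (ℤ × ℤ))) Set.inter_subset_right h1
        exact MM_inE hin h2
      exact bdR_of_sub (Sub.refl' hR) hin' (hE e (mem_filter.1 he').1)
    · exact ⟨b, MM_mono hsub h1, h2, trivial⟩
  · intro e he e' he' hee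
    have h1 := mem_coe.1 he
    have h2 := mem_coe.1 he'
    have b1 := hE e (mem_filter.1 h1).1
    have b2 := hE e' (mem_filter.1 h2).1
    refine other_unique (ω := ω) (bdF_in (R := R) (ht2 e h1)) (MM_symm (ht1 e h1))
      (by rw [hee]; exact MM_symm (ht1 e' h2)) (bdF_out b1) (bdF_out b2) ?_ ?_
    · exact (bdR_ne (by omega) (ht2 e h1) b1).symm
    · exact (bdR_ne (by omega) (ht2 e h1) b2).symm

/-- The expected number of pairs. -/
theorem sum_pairs {ι : Type} (W : Finset (ℤ × ℤ)) (E : Finset ι) (A : ι → Set Cfg) (N : Cfg → ℕ)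
    {C : ℝ} (h : ∀ ω : Cfg, ∀ S : Finset ι, S ⊆ E → (∀ i ∈ S, ω ∈ A i) → S.card ≤ N ω)
    (hN : (∑ T ∈ W.powerset, (N (cfg T) : ℝ) ^ 2) / 2 ^ W.card ≤ C) :
    ∑ e ∈ E, ∑ e' ∈ E, pr W (A e ∩ A e') ≤ C := by
  classical
  refine le_trans ?_ hN
  have e1 : ∑ e ∈ E, ∑ e' ∈ E, pr W (A e ∩ A e') =
      (∑ T ∈ W.powerset, (((E.filter fun i => cfg T ∈ A i).card : ℝ)) ^ 2) / 2 ^ W.card := by
    have e2 : ∀ T : Finset (ℤ × ℤ), (((E.filter fun i => cfg T ∈ A i).card : ℝ)) ^ 2 =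
        ∑ e ∈ E, ∑ e' ∈ E, if cfg T ∈ A e ∩ A e' then (1 : ℝ) else 0 := by
      intro T
      rw [Finset.card_filter]
      push_cast
      rw [sq, Finset.sum_mul_sum]
      refine Finset.sum_congr rfl fun i _ => Finset.sum_congr rfl fun j _ => ?_
      by_cases h1 : cfg T ∈ A i <;> by_cases h2 : cfg T ∈ A j <;> simp [h1, h2]
    have e3 : ∑ T ∈ W.powerset, (((E.filter fun i => cfg T ∈ A i).card : ℝ)) ^ 2 =
        ∑ e ∈ E, ∑ e' ∈ E, ∑ T ∈ W.powerset, if cfg T ∈ A e ∩ A e' then (1 : ℝ) else 0 := by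
      rw [Finset.sum_congr rfl fun T _ => e2 T, Finset.sum_comm]
      refine Finset.sum_congr rfl fun e _ => ?_
      rw [Finset.sum_comm]
    rw [e3, Finset.sum_div]
    refine Finset.sum_congr rfl fun i _ => ?_
    rw [Finset.sum_div]
    refine Finset.sum_congr rfl fun j _ => ?_
    rw [ProbA.pr_eq_sum]
    congr!
  rw [e1]
  refine div_le_div_of_nonneg_right (Finset.sum_le_sum fun T _ => ?_) (by positivity)
  have h1 := h (cfg T) (E.filter fun i => cfg T ∈ A i) (filter_subset _ _)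
    fun i hi => (mem_filter.1 hi).2
  exact pow_le_pow_left₀ (Nat.cast_nonneg _) (by exact_mod_cast h1) 2

theorem cr_pairs : ∃ C : ℝ, 0 < C ∧ ∀ (v : ℤ × ℤ) (r R : ℤ) (W : Finset (ℤ × ℤ)), 1 ≤ r →
    2 * r ≤ R → BR v R ⊆ W → ∀ E : Finset UE, (∀ e ∈ E, BdR v R e) →
      ∑ e ∈ E, ∑ e' ∈ E, pr W (Cr v r R e ∩ Cr v r R e') ≤ C := by
  classical
  obtain ⟨C, hC, h⟩ := moment_NC 2
  refine ⟨C, hC, fun v r R W hr hR hW E hE => ?_⟩
  refine sum_pairs W E (fun e => Cr v r R e) (fun ω => NC v r (2 * r) ω) ?_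
    (h v r W (by omega) ((Sub.refl' hR).subset.trans hW))
  intro ω S hS hA
  refine le_trans (card_le_card ?_) (card_cr_le (by omega) hR E hE ω)
  intro i hi
  exact mem_filter.2 ⟨hS hi, hA i hi⟩

end N1Aux

/-- The boundary unit edges of the box of radius `2 R` whose strand in the annulus reaches the box of
radius `R`. -/
def CrossE (v : ℤ × ℤ) (R : ℤ) (e : UE) : Set Cfg :=
  {ω | ∃ a ∈ MM ω (BR v (2 * R) \ BR v R : Finset (ℤ × ℤ)) e, BdR v R a}

/-- The number of pairs of crossing strands has bounded expectation. -/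
theorem count_pairs : ∃ C : ℝ, 0 < C ∧ ∀ (v : ℤ × ℤ) (R : ℤ) (W : Finset (ℤ × ℤ)), 1 ≤ R →
    BR v (2 * R) ⊆ W → ∀ E : Finset UE, (∀ e ∈ E, BdR v (2 * R) e) →
      ∑ e ∈ E, ∑ e' ∈ E, pr W (CrossE v R e ∩ CrossE v R e') ≤ C := by
  obtain ⟨C, hC, h⟩ := N1Aux.cr_pairs
  exact ⟨C, hC, fun v R W hR hW E hE => h v R (2 * R) W hR le_rfl hW E hE⟩

/-- The expected number of pairs which reach an inner box. -/
theorem count_Gev : ∃ C : ℝ, 0 < C ∧ ∀ (col h w cB RB c R : ℤ) (W : Finset (ℤ × ℤ)),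
    Nest h w cB RB c R → cB - 4 * R ≤ c → c ≤ cB + 4 * R → 16 * R ≤ RB →
      BR (cB, h) RB ⊆ W → ∑ k ∈ KP col cB h w RB, pr W (Gev h w cB RB c R k) ≤ C := by
  classical
  obtain ⟨C, hC, H⟩ := N1Aux.cr_pairs
  refine ⟨C, hC, fun col h w cB RB c R W hn h1 h2 h3 hW => ?_⟩
  have hw := hn.w1
  have hwR := hn.wR
  set r := RB / 2 with hr
  have hwRB : w < RB := by omega
  set E : Finset UE := (Ico 0 (len w RB)).image fun k => cycE cB h w RB k with hE
  have hinj : Set.InjOn (fun k => cycE cB h w RB k) (Ico 0 (len w RB) : Finset ℤ) := by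
    intro k hk k' hk' hkk
    rw [mem_coe, mem_Ico] at hk hk'
    exact cycE_inj hw hwRB hk.1 hk.2 hk'.1 hk'.2 hkk
  have hcross : ∀ (k : ℤ) (ω : Cfg), 0 ≤ k → k < len w RB → (∃ τ, 0 ≤ τ ∧ τ < len w R ∧
      cycE c h w R τ ∈ MM ω (Slit h w cB RB c R) (cycE cB h w RB k)) →
      ω ∈ N1Aux.Cr (cB, h) r RB (cycE cB h w RB k) := by
    rintro k ω hk0 hk1 ⟨τ, hτ0, hτ1, hτ⟩
    have hin : InE (c, h) R (cycE c h w R τ) := (bdR_cycE hw hwR hτ0 hτ1).inE (by omega)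
    have hin' : InE (cB, h) r (cycE c h w R τ) := by
      refine PercD.Sub.inE (v' := (c, h)) (r' := R) ?_ hin
      unfold PercD.Sub
      simp only
      omega
    have hb := bdR_cycE (c := cB) (h := h) hw hwRB hk0 hk1
    have hmm : cycE cB h w RB k ∈ MM ω (BR (cB, h) RB) (cycE c h w R τ) := by
      refine MM_symm (MM_mono ?_ hτ)
      intro f hf
      exact hf.1
    rcases last_exit hin' hmm with h4 | ⟨b, -, hb2, hb3⟩
    · exfalso
      have h5 := bdR_of_sub (v' := (cB, h)) (r' := r) (Sub.refl' (by omega)) h4 hb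
      exact N1Aux.bdR_ne (by omega : r < RB) h5 hb rfl
    · exact ⟨b, MM_symm hb3, hb2⟩
  calc ∑ k ∈ KP col cB h w RB, pr W (Gev h w cB RB c R k)
      ≤ ∑ k ∈ (Ico 0 (len w RB)) ×ˢ (Ico 0 (len w RB)),
          pr W (N1Aux.Cr (cB, h) r RB (cycE cB h w RB k.1) ∩
            N1Aux.Cr (cB, h) r RB (cycE cB h w RB k.2)) := by
        refine le_trans (Finset.sum_le_sum fun k hk => ?_)
          (Finset.sum_le_sum_of_subset_of_nonneg (Finset.filter_subset _ _)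
            fun k _ _ => pr_nonneg _ _)
        unfold KP at hk
        rw [mem_filter, mem_product, mem_Ico, mem_Ico] at hk
        refine pr_mono _ fun ω hω => ⟨hcross _ ω hk.1.1.1 hk.1.1.2 hω.1,
          hcross _ ω hk.1.2.1 hk.1.2.2 hω.2⟩
    _ = ∑ e ∈ E, ∑ e' ∈ E, pr W (N1Aux.Cr (cB, h) r RB e ∩ N1Aux.Cr (cB, h) r RB e') := by
        rw [hE, Finset.sum_product, Finset.sum_image hinj]
        refine Finset.sum_congr rfl fun k _ => ?_
        rw [Finset.sum_image hinj]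
    _ ≤ C := by
        refine H (cB, h) r RB W (by omega) (by omega) hW E fun e he => ?_
        rw [hE, mem_image] at he
        obtain ⟨k, hk, rfl⟩ := he
        rw [mem_Ico] at hk
        exact bdR_cycE hw hwRB hk.1 hk.2

namespace N2Aux

open Pool.Agent.PercN

variable {ω : Cfg}

/-- A coordinate: it changes by one along the bonds, and the corners of the face have the values of
the ends of the bond. -/
def Coord (φ : ℤ × ℤ → ℤ) : Prop := ∀ (ω : Cfg) (f p q : ℤ × ℤ), Bond ω {f} p q →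
  (φ q = φ p + 1 ∨ φ q = φ p - 1) ∧ ∀ w, IsCor f w → φ w = φ p ∨ φ w = φ q

theorem coord_all : Coord (fun v => v.1) ∧ Coord (fun v => -v.1) ∧ Coord (fun v => v.2) ∧
    Coord (fun v => -v.2) := by
  have key : ∀ (ω : Cfg) (f p q : ℤ × ℤ), Bond ω {f} p q →
      ((q.1 = p.1 + 1 ∨ q.1 = p.1 - 1) ∧ (q.2 = p.2 + 1 ∨ q.2 = p.2 - 1)) ∧
      ∀ w, IsCor f w → (w.1 = p.1 ∨ w.1 = q.1) ∧ (w.2 = p.2 ∨ w.2 = q.2) := by
    rintro ω f p q ⟨x, y, hf, h⟩
    rw [Set.mem_singleton_iff] at hf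
    subst hf
    unfold IsCor
    rcases h with ⟨-, ⟨rfl, rfl⟩ | ⟨rfl, rfl⟩⟩ | ⟨-, ⟨rfl, rfl⟩ | ⟨rfl, rfl⟩⟩ <;>
      refine ⟨?_, fun w hw => ?_⟩ <;> dsimp only at * <;> omega
  refine ⟨?_, ?_, ?_, ?_⟩ <;>
  · intro ω f p q h
    obtain ⟨h1, h2⟩ := key ω f p q h
    refine ⟨by dsimp only; omega, fun w hw => ?_⟩
    have := h2 w hw
    dsimp only
    omega

/-- Last passage through a line. -/
theorem last_pass {F : Set (ℤ × ℤ)} {φ : ℤ × ℤ → ℤ} {m : ℤ} (hφ : Coord φ) {p y : ℤ × ℤ}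
    (h : Conn ω F p y) (hp : φ p ≤ m) (hy : m ≤ φ y) :
    ∃ z, φ z = m ∧ Conn ω F p z ∧ Conn ω (F ∩ {f | ∀ w, IsCor f w → m ≤ φ w}) z y := by
  have key : ∀ y, Conn ω F p y → φ y < m ∨ (m ≤ φ y ∧ ∃ z, φ z = m ∧ Conn ω F p z ∧
      Conn ω (F ∩ {f | ∀ w, IsCor f w → m ≤ φ w}) z y) := by
    intro y hc
    induction hc with
    | refl =>
      rcases hp.lt_or_eq with h | h
      · exact Or.inl h
      · exact Or.inr ⟨h.ge, p, h, Relation.ReflTransGen.refl, Relation.ReflTransGen.refl⟩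
    | tail hab hb ih =>
      rename_i b₁ b₂
      have hconn : Conn ω F p b₂ := hab.tail hb
      obtain ⟨f, hf, hb', -, -⟩ := hb.exists_face
      obtain ⟨h1, h2⟩ := hφ ω f _ _ hb'
      rcases lt_or_ge (φ b₂) m with h3 | h3
      · exact Or.inl h3
      · rcases h3.lt_or_eq with h4 | h4
        · rcases ih with h5 | ⟨h5, z, hz1, hz2, hz3⟩
          · omega
          · refine Or.inr ⟨h3, z, hz1, hz2, hz3.tail (Bond.of_single ⟨hf, fun w hw => ?_⟩ hb')⟩
            rcases h2 w hw with h6 | h6 <;> omega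
        · exact Or.inr ⟨h3, b₂, h4.symm, hconn, Relation.ReflTransGen.refl⟩
  rcases key y h with h1 | h1
  · omega
  · exact h1.2

open Classical in
/-- The faces of `G` whose bond belongs to the cluster of `X` in `B`. -/
noncomputable def KX (ω : Cfg) (B G : Finset (ℤ × ℤ)) (X : ℤ × ℤ) : Finset (ℤ × ℤ) :=
  G.filter fun f => ∃ p q, Bond ω {f} p q ∧ Conn ω B X p

theorem mem_KX {B G : Finset (ℤ × ℤ)} {X f : ℤ × ℤ} :
    f ∈ KX ω B G X ↔ f ∈ G ∧ ∃ p q, Bond ω {f} p q ∧ Conn ω B X p := by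
  classical
  unfold KX
  rw [mem_filter]

theorem conn_KX {B G : Finset (ℤ × ℤ)} (hG : G ⊆ B) {X z y : ℤ × ℤ} (hX : Conn ω B X z)
    (h : Conn ω G z y) : Conn ω (KX ω B G X) z y := by
  induction h with
  | refl => exact Relation.ReflTransGen.refl
  | tail hab hb ih =>
    obtain ⟨f, hf, hb', -, -⟩ := hb.exists_face
    refine ih.tail (Bond.of_single ?_ hb')
    rw [mem_coe, mem_KX]
    exact ⟨mem_coe.1 hf, _, _, hb', Relation.ReflTransGen.trans hX
      (Conn.mono (by exact_mod_cast hG) hab)⟩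

theorem bond_ends {f p q p' q' : ℤ × ℤ} (h : Bond ω {f} p q) (h' : Bond ω {f} p' q') :
    p' = p ∨ p' = q := by
  obtain ⟨x, y, hf, h⟩ := h
  obtain ⟨x', y', hf', h'⟩ := h'
  rw [Set.mem_singleton_iff] at hf hf'
  subst hf
  obtain ⟨rfl, rfl⟩ := Prod.mk.inj hf'
  rcases h with ⟨h1, ⟨rfl, rfl⟩ | ⟨rfl, rfl⟩⟩ | ⟨h1, ⟨rfl, rfl⟩ | ⟨rfl, rfl⟩⟩ <;>
    rcases h' with ⟨h1', ⟨rfl, rfl⟩ | ⟨rfl, rfl⟩⟩ | ⟨h1', ⟨rfl, rfl⟩ | ⟨rfl, rfl⟩⟩ <;>
    simp_all

theorem KX_disjoint {B G : Finset (ℤ × ℤ)} (hG : G ⊆ B) {X X' : ℤ × ℤ} (h : ¬ Conn ω B X X') :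
    Disjoint (KX ω B G X) (KX ω B G X') := by
  rw [Finset.disjoint_left]
  intro f hf hf'
  obtain ⟨h1, p, q, h2, h3⟩ := mem_KX.1 hf
  obtain ⟨-, p', q', h2', h3'⟩ := mem_KX.1 hf'
  have hfB : f ∈ (B : Set (ℤ × ℤ)) := mem_coe.2 (hG h1)
  refine h (Relation.ReflTransGen.trans ?_ (Conn.symm h3'))
  rcases bond_ends h2 h2' with rfl | rfl
  · exact h3
  · exact h3.tail (Bond.of_single hfB h2)

theorem conn_inR {x₀ x₁ y₀ y₁ : ℤ} {p q : ℤ × ℤ} (h : Conn ω (RF x₀ x₁ y₀ y₁) p q)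
    (hp : InR x₀ x₁ y₀ y₁ p) : InR x₀ x₁ y₀ y₁ q := by
  induction h with
  | refl => exact hp
  | tail _ hb _ =>
    obtain ⟨f, hf, -, -, hc⟩ := hb.exists_face
    exact IsCor.inR hf hc

open Classical in
/-- The tags whose cluster reaches the side `φ y = m'`. -/
noncomputable def TS (φ : ℤ × ℤ → ℤ) (m' col h w c R : ℤ) (ω : Cfg) : Finset (ℤ × ℤ) :=
  (BandV col h w (c - R / 8) (c + R / 8)).filter fun X => ω ∈ TagEv h w c R X ∧
    ∃ y, Conn ω (BR (c, h) R) X y ∧ OnBd (c - R) (c + R) (h - R) (h + R) y ∧ φ y = m'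

theorem mem_TS {φ : ℤ × ℤ → ℤ} {m' col h w c R : ℤ} {X : ℤ × ℤ} : X ∈ TS φ m' col h w c R ω ↔
    ((c - R / 8 ≤ X.1 ∧ X.1 < c + R / 8) ∧ (h - w ≤ X.2 ∧ X.2 ≤ h + w) ∧ par X = col) ∧
      ω ∈ TagEv h w c R X ∧
      ∃ y, Conn ω (BR (c, h) R) X y ∧ OnBd (c - R) (c + R) (h - R) (h + R) y ∧ φ y = m' := by
  classical
  unfold TS BandV
  rw [mem_filter, mem_filter, mem_product, mem_Ico, mem_Icc]
  tauto

/-- Disjoint crossings from different tags. -/
theorem family {φ : ℤ × ℤ → ℤ} (hφ : Coord φ) {m m' col h w c R : ℤ} {G : Finset (ℤ × ℤ)}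
    (hG : G ⊆ BR (c, h) R) (hGφ : ∀ f ∈ BR (c, h) R, (∀ w, IsCor f w → m ≤ φ w) → f ∈ G)
    (hm : m ≤ m') (_hw : 1 ≤ w) (hwR : 8 * w ≤ R)
    (hφm : ∀ X : ℤ × ℤ, c - R / 8 ≤ X.1 → X.1 < c + R / 8 → h - w ≤ X.2 → X.2 ≤ h + w → φ X ≤ m)
    {k : ℕ} (hk : k ≤ (TS φ m' col h w c R ω).card) :
    ∃ K : Fin k → Finset (ℤ × ℤ), (∀ i, K i ⊆ G) ∧ (∀ i j, i ≠ j → Disjoint (K i) (K j)) ∧
      ∀ i, ∃ z y, φ z = m ∧ φ y = m' ∧ par z = col ∧ par y = col ∧
        InR (c - R) (c + R) (h - R) (h + R) z ∧ InR (c - R) (c + R) (h - R) (h + R) y ∧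
        Conn ω (K i) z y := by
  classical
  set g : Fin k → ℤ × ℤ := fun i =>
    ((TS φ m' col h w c R ω).equivFin.symm (Fin.castLE hk i) : ℤ × ℤ) with hg
  have hgm : ∀ i, g i ∈ TS φ m' col h w c R ω := fun i =>
    ((TS φ m' col h w c R ω).equivFin.symm (Fin.castLE hk i)).2
  have hgi : Function.Injective g := by
    intro i j hij
    have h1 := Subtype.ext hij
    exact Fin.castLE_injective hk ((TS φ m' col h w c R ω).equivFin.symm.injective h1)
  have hne : ∀ i j, i ≠ j → ¬ Conn ω (BR (c, h) R) (g i) (g j) := by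
    intro i j hij hc
    apply hij
    apply hgi
    obtain ⟨⟨-, a1, -⟩, a2, -⟩ := mem_TS.1 (hgm i)
    obtain ⟨⟨-, b1, -⟩, b2, -⟩ := mem_TS.1 (hgm j)
    have c1 := a2.2 _ hc b1.1 b1.2
    have c2 := b2.2 _ (Conn.symm hc) a1.1 a1.2
    exact Prod.ext (by omega) (by omega)
  refine ⟨fun i => KX ω (BR (c, h) R) G (g i), fun i => ?_, fun i j hij =>
    KX_disjoint hG (hne i j hij), fun i => ?_⟩
  · intro f hf
    exact (mem_KX.1 hf).1
  · obtain ⟨⟨a1, a2, a3⟩, -, y, hy1, hy2, hy3⟩ := mem_TS.1 (hgm i)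
    obtain ⟨z, hz1, hz2, hz3⟩ := last_pass hφ hy1 (hφm _ a1.1 a1.2 a2.1 a2.2) (hy3 ▸ hm)
    have hsub : ((BR (c, h) R : Set (ℤ × ℤ)) ∩ {f | ∀ w, IsCor f w → m ≤ φ w}) ⊆ G := by
      rintro f ⟨hf1, hf2⟩
      exact mem_coe.2 (hGφ f (mem_coe.1 hf1) hf2)
    have hX : InR (c - R) (c + R) (h - R) (h + R) (g i) := by
      unfold InR
      omega
    refine ⟨z, y, hz1, hy3, ?_, ?_, conn_inR hz2 hX, conn_inR hy1 hX,
      conn_KX hG hz2 (Conn.mono hsub hz3)⟩
    · rw [← hz2.par_eq, a3]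
    · rw [← hy1.par_eq, a3]

end N2Aux

/-- The expected number of tags in a cell: different tags belong to disjoint clusters which cross an
annulus. -/
theorem count_tags : ∃ C : ℝ, 0 < C ∧ ∀ (col h w c R : ℤ) (W : Finset (ℤ × ℤ)), 1 ≤ w →
    8 * w ≤ R → BR (c, h) R ⊆ W →
      ∑ X ∈ BandV col h w (c - R / 8) (c + R / 8), pr W (TagEv h w c R X) ≤ C := by
  classical
  obtain ⟨q₁, hq10, hq11, H1⟩ := PercN.pr_disLR_le 4
  obtain ⟨q₂, hq20, hq21, H2⟩ := PercN.pr_disBT_le 4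
  set q := max q₁ q₂ with hq
  have hq0 : 0 < q := lt_of_lt_of_le hq10 (le_max_left _ _)
  have hq1 : q < 1 := max_lt hq11 hq21
  obtain ⟨C, hC, HC⟩ := PercN.moment_of_tail hq0 hq1 1
  refine ⟨C, hC, fun col h w c R W hw hwR hW => ?_⟩
  set r := R / 2 with hr
  obtain ⟨φ1, φ2, φ3, φ4⟩ := N2Aux.coord_all
  set N : Cfg → ℕ := fun ω =>
    ((BandV col h w (c - R / 8) (c + R / 8)).filter fun X => ω ∈ TagEv h w c R X).card with hN
  -- the four sides
  have hpar : ∀ z : ℤ × ℤ, par z = col → (z.1 + z.2 - col) % 2 = 0 := by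
    intro z hz
    unfold par at hz
    omega
  have hbr : ∀ f, f ∈ BR (c, h) R ↔ (c - R ≤ f.1 ∧ f.1 < c + R ∧ h - R ≤ f.2 ∧ f.2 < h + R) :=
    fun f => mem_BR
  have s1 : ∀ (k : ℕ) (ω : Cfg), k ≤ (N2Aux.TS (fun v => v.1) (c + R) col h w c R ω).card →
      ω ∈ PercN.DisLR k col (c + r) (c + R) (h - R) (h + R) := by
    intro k ω hk
    obtain ⟨K, k1, k2, k3⟩ := N2Aux.family (m := c + r) φ1
      (G := RF (c + r) (c + R) (h - R) (h + R)) (fun f hf => by
        rw [hbr]; rw [mem_RF] at hf; omega)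
      (fun f hf hc => by
        have := hc (f.1, f.2) ⟨Or.inl rfl, Or.inl rfl⟩
        rw [hbr] at hf; rw [mem_RF]; simp only at this; omega)
      (by omega) hw hwR (fun X h1 h2 h3 h4 => by omega) hk
    refine ⟨K, k1, k2, fun i => ?_⟩
    obtain ⟨z, y, a1, a2, a3, a4, a5, a6, a7⟩ := k3 i
    exact ⟨z, y, a1, a5.2.2.1, a5.2.2.2, a2, hpar z a3, a7⟩
  have s2 : ∀ (k : ℕ) (ω : Cfg), k ≤ (N2Aux.TS (fun v => -v.1) (-(c - R)) col h w c R ω).card →
      ω ∈ PercN.DisLR k col (c - R) (c - r) (h - R) (h + R) := by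
    intro k ω hk
    obtain ⟨K, k1, k2, k3⟩ := N2Aux.family (m := -(c - r)) φ2
      (G := RF (c - R) (c - r) (h - R) (h + R)) (fun f hf => by
        rw [hbr]; rw [mem_RF] at hf; omega)
      (fun f hf hc => by
        have := hc (f.1 + 1, f.2) ⟨Or.inr rfl, Or.inl rfl⟩
        rw [hbr] at hf; rw [mem_RF]; simp only at this; omega)
      (by omega) hw hwR (fun X h1 h2 h3 h4 => by omega) hk
    refine ⟨K, k1, k2, fun i => ?_⟩
    obtain ⟨z, y, a1, a2, a3, a4, a5, a6, a7⟩ := k3 i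
    exact ⟨y, z, by omega, a6.2.2.1, a6.2.2.2, by omega, hpar y a4, Conn.symm a7⟩
  have s3 : ∀ (k : ℕ) (ω : Cfg), k ≤ (N2Aux.TS (fun v => v.2) (h + R) col h w c R ω).card →
      ω ∈ PercN.DisBT k col (c - R) (c + R) (h + r) (h + R) := by
    intro k ω hk
    obtain ⟨K, k1, k2, k3⟩ := N2Aux.family (m := h + r) φ3
      (G := RF (c - R) (c + R) (h + r) (h + R)) (fun f hf => by
        rw [hbr]; rw [mem_RF] at hf; omega)
      (fun f hf hc => by
        have := hc (f.1, f.2) ⟨Or.inl rfl, Or.inl rfl⟩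
        rw [hbr] at hf; rw [mem_RF]; simp only at this; omega)
      (by omega) hw hwR (fun X h1 h2 h3 h4 => by omega) hk
    refine ⟨K, k1, k2, fun i => ?_⟩
    obtain ⟨z, y, a1, a2, a3, a4, a5, a6, a7⟩ := k3 i
    exact ⟨z, y, a1, a5.1, a5.2.1, a2, hpar z a3, a7⟩
  have s4 : ∀ (k : ℕ) (ω : Cfg), k ≤ (N2Aux.TS (fun v => -v.2) (-(h - R)) col h w c R ω).card →
      ω ∈ PercN.DisBT k col (c - R) (c + R) (h - R) (h - r) := by
    intro k ω hk
    obtain ⟨K, k1, k2, k3⟩ := N2Aux.family (m := -(h - r)) φ4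
      (G := RF (c - R) (c + R) (h - R) (h - r)) (fun f hf => by
        rw [hbr]; rw [mem_RF] at hf; omega)
      (fun f hf hc => by
        have := hc (f.1, f.2 + 1) ⟨Or.inl rfl, Or.inr rfl⟩
        rw [hbr] at hf; rw [mem_RF]; simp only at this; omega)
      (by omega) hw hwR (fun X h1 h2 h3 h4 => by omega) hk
    refine ⟨K, k1, k2, fun i => ?_⟩
    obtain ⟨z, y, a1, a2, a3, a4, a5, a6, a7⟩ := k3 i
    exact ⟨y, z, by omega, a6.1, a6.2.1, by omega, hpar y a4, Conn.symm a7⟩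
  have hle : ∀ ω, N ω ≤ (N2Aux.TS (fun v => v.1) (c + R) col h w c R ω).card +
      (N2Aux.TS (fun v => -v.1) (-(c - R)) col h w c R ω).card +
      (N2Aux.TS (fun v => v.2) (h + R) col h w c R ω).card +
      (N2Aux.TS (fun v => -v.2) (-(h - R)) col h w c R ω).card := by
    intro ω
    have hsub : ((BandV col h w (c - R / 8) (c + R / 8)).filter fun X => ω ∈ TagEv h w c R X) ⊆
        ((N2Aux.TS (fun v => v.1) (c + R) col h w c R ω ∪
          N2Aux.TS (fun v => -v.1) (-(c - R)) col h w c R ω) ∪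
          N2Aux.TS (fun v => v.2) (h + R) col h w c R ω) ∪
          N2Aux.TS (fun v => -v.2) (-(h - R)) col h w c R ω := by
      intro X hX
      rw [mem_filter] at hX
      obtain ⟨hX1, hX2⟩ := hX
      unfold BandV at hX1
      rw [mem_filter, mem_product, mem_Ico, mem_Icc] at hX1
      obtain ⟨y, hy1, hy2⟩ := hX2.1
      simp only [mem_union, N2Aux.mem_TS]
      have hy3 := hy2.1
      rcases hy3 with h1 | h1 | h1 | h1
      · exact Or.inl (Or.inl (Or.inr ⟨⟨hX1.1.1, hX1.1.2, hX1.2⟩, hX2, y, hy1, hy2, by omega⟩))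
      · exact Or.inl (Or.inl (Or.inl ⟨⟨hX1.1.1, hX1.1.2, hX1.2⟩, hX2, y, hy1, hy2, by omega⟩))
      · exact Or.inr ⟨⟨hX1.1.1, hX1.1.2, hX1.2⟩, hX2, y, hy1, hy2, by omega⟩
      · exact Or.inl (Or.inr ⟨⟨hX1.1.1, hX1.1.2, hX1.2⟩, hX2, y, hy1, hy2, by omega⟩)
    refine (card_le_card hsub).trans ?_
    refine (card_union_le _ _).trans (Nat.add_le_add_right ?_ _)
    refine (card_union_le _ _).trans (Nat.add_le_add_right ?_ _)
    exact card_union_le _ _
  have htail : ∀ k : ℕ, pr W {ω | 8 * k ≤ N ω + 7} ≤ 4 * q ^ k := by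
    intro k
    have e1 : q₁ ^ k ≤ q ^ k := pow_le_pow_left₀ hq10.le (le_max_left _ _) k
    have e2 : q₂ ^ k ≤ q ^ k := pow_le_pow_left₀ hq20.le (le_max_right _ _) k
    have p1 := H1 k col (c + r) (c + R) (h - R) (h + R) (by omega) (by omega)
      (by push_cast; omega)
    have p2 := H1 k col (c - R) (c - r) (h - R) (h + R) (by omega) (by omega)
      (by push_cast; omega)
    have p3 := H2 k col (c - R) (c + R) (h + r) (h + R) (by omega) (by omega)
      (by push_cast; omega)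
    have p4 := H2 k col (c - R) (c + R) (h - R) (h - r) (by omega) (by omega)
      (by push_cast; omega)
    have hsubW : ∀ x₀ x₁ y₀ y₁ : ℤ, c - R ≤ x₀ → x₁ ≤ c + R → h - R ≤ y₀ → y₁ ≤ h + R →
        RF x₀ x₁ y₀ y₁ ⊆ W := by
      intro x₀ x₁ y₀ y₁ h1 h2 h3 h4 f hf
      apply hW
      rw [hbr]
      rw [mem_RF] at hf
      omega
    rw [← pr_eq_of_depOn (PercN.depOn_disLR _ _ _ _ _ _)
      (hsubW _ _ _ _ (by omega) (by omega) (by omega) (by omega))] at p1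
    rw [← pr_eq_of_depOn (PercN.depOn_disLR _ _ _ _ _ _)
      (hsubW _ _ _ _ (by omega) (by omega) (by omega) (by omega))] at p2
    rw [← pr_eq_of_depOn (PercN.depOn_disBT _ _ _ _ _ _)
      (hsubW _ _ _ _ (by omega) (by omega) (by omega) (by omega))] at p3
    rw [← pr_eq_of_depOn (PercN.depOn_disBT _ _ _ _ _ _)
      (hsubW _ _ _ _ (by omega) (by omega) (by omega) (by omega))] at p4
    have u0 : pr W {ω | 8 * k ≤ N ω + 7} ≤
        pr W (((PercN.DisLR k col (c + r) (c + R) (h - R) (h + R) ∪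
          PercN.DisLR k col (c - R) (c - r) (h - R) (h + R)) ∪
          PercN.DisBT k col (c - R) (c + R) (h + r) (h + R)) ∪
          PercN.DisBT k col (c - R) (c + R) (h - R) (h - r)) := by
      refine pr_mono _ fun ω hω => ?_
      rw [Set.mem_ofPred_eq] at hω
      have h1 := hle ω
      by_cases t1 : k ≤ (N2Aux.TS (fun v => v.1) (c + R) col h w c R ω).card
      · exact Or.inl (Or.inl (Or.inl (s1 k ω t1)))
      by_cases t2 : k ≤ (N2Aux.TS (fun v => -v.1) (-(c - R)) col h w c R ω).card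
      · exact Or.inl (Or.inl (Or.inr (s2 k ω t2)))
      by_cases t3 : k ≤ (N2Aux.TS (fun v => v.2) (h + R) col h w c R ω).card
      · exact Or.inl (Or.inr (s3 k ω t3))
      by_cases t4 : k ≤ (N2Aux.TS (fun v => -v.2) (-(h - R)) col h w c R ω).card
      · exact Or.inr (s4 k ω t4)
      · exfalso
        omega
    have u1 := pr_union_le W ((PercN.DisLR k col (c + r) (c + R) (h - R) (h + R) ∪
          PercN.DisLR k col (c - R) (c - r) (h - R) (h + R)) ∪
          PercN.DisBT k col (c - R) (c + R) (h + r) (h + R))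
          (PercN.DisBT k col (c - R) (c + R) (h - R) (h - r))
    have u2 := pr_union_le W (PercN.DisLR k col (c + r) (c + R) (h - R) (h + R) ∪
          PercN.DisLR k col (c - R) (c - r) (h - R) (h + R))
          (PercN.DisBT k col (c - R) (c + R) (h + r) (h + R))
    have u3 := pr_union_le W (PercN.DisLR k col (c + r) (c + R) (h - R) (h + R))
          (PercN.DisLR k col (c - R) (c - r) (h - R) (h + R))
    linarith
  refine le_trans (le_of_eq ?_) (HC W N htail)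
  have e1 : ∀ T : Finset (ℤ × ℤ), ((N (cfg T) : ℝ)) ^ 1 =
      ∑ X ∈ BandV col h w (c - R / 8) (c + R / 8), if cfg T ∈ TagEv h w c R X then (1 : ℝ) else 0 := by
    intro T
    rw [pow_one, hN]
    simp only
    rw [Finset.card_filter]
    push_cast
    rfl
  rw [Finset.sum_congr rfl fun T _ => e1 T, Finset.sum_comm, Finset.sum_div]
  refine Finset.sum_congr rfl fun X _ => ?_
  rw [ProbA.pr_eq_sum]

end Pool.Agent.Perc6

end Partperc6Count

section Partperc3T3Cut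

/-!
# T3, row Cut: the potential of one leg and the cut
-/

set_option autoImplicit false

namespace Pool.Agent.Perc.Q

open Finset Pool.Agent.Perc Relation

theorem cutK_symm (p q : ℤ × ℤ) : cutK p q = cutK q p := by
  unfold cutK
  refine if_congr ?_ rfl rfl
  constructor
  · rintro (h | h | ⟨h1, h2, h3⟩)
    · exact Or.inr (Or.inl h)
    · exact Or.inl h
    · exact Or.inr (Or.inr ⟨h1.symm, by omega, h3.symm⟩)
  · rintro (h | h | ⟨h1, h2, h3⟩)
    · exact Or.inr (Or.inl h)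
    · exact Or.inl h
    · exact Or.inr (Or.inr ⟨h1.symm, by omega, h3.symm⟩)

theorem cutK_zero {a b c d : ℤ} (h1 : ¬ (b = 0 ∧ d = 0 ∧ ((a = -2 ∧ c = -1) ∨ (c = -2 ∧ a = -1))))
    (h2 : ¬ (a = c ∧ a ≤ -2 ∧ ((b = 0 ∧ d = 1) ∨ (d = 0 ∧ b = 1)))) : cutK (a, b) (c, d) = 0 := by
  unfold cutK
  rw [if_neg]
  rintro (⟨h3, h4⟩ | ⟨h3, h4⟩ | h3)
  · rw [Prod.mk.injEq] at h3 h4
    exact h1 ⟨h3.2, h4.2, Or.inl ⟨h3.1, h4.1⟩⟩
  · rw [Prod.mk.injEq] at h3 h4
    exact h1 ⟨h4.2, h3.2, Or.inr ⟨h3.1, h4.1⟩⟩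
  · exact h2 h3

theorem cutK_one {a b c d : ℤ} (h2 : a = c ∧ a ≤ -2 ∧ ((b = 0 ∧ d = 1) ∨ (d = 0 ∧ b = 1))) :
    cutK (a, b) (c, d) = 1 := by
  unfold cutK
  rw [if_pos (Or.inr (Or.inr h2))]

/-- The cut is even in every face. -/
theorem cutK_even (f : ℤ × ℤ) : ∑ k, cutK (TQ.c f k) (TQ.c f (k + 1)) = 0 := by
  obtain ⟨x, y⟩ := f
  rw [sumQ4]
  have a0 : (0 : ZMod 4) + 1 = 1 := by decide
  have a1 : (1 : ZMod 4) + 1 = 2 := by decide
  have a2 : (2 : ZMod 4) + 1 = 3 := by decide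
  have a3 : (3 : ZMod 4) + 1 = 0 := by decide
  rw [a0, a1, a2, a3]
  have hc : ∀ k, TQ.c (x, y) k = corT emP (x, y) k := fun _ => rfl
  simp only [hc]
  obtain ⟨c0, c1, c2, c3⟩ := corT_eq emP x y
  rw [c0, c1]
  have zz : (0 : ZMod 2) + 0 + 0 + 0 = 0 := by decide
  by_cases hy : y = -1
  · obtain ⟨c4, c5⟩ := c3 hy
    rw [c4, c5]
    have e1 : emP x = x ∧ 0 ≤ x ∨ emP x = x - 1 ∧ x < 0 := by
      unfold emP; split_ifs with h <;> omega
    have e2 : emP (x + 1) = x + 1 ∧ 0 ≤ x + 1 ∨ emP (x + 1) = x ∧ x + 1 < 0 := by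
      unfold emP; split_ifs with h <;> omega
    generalize emP x = u at e1 ⊢
    generalize emP (x + 1) = v at e2 ⊢
    rw [cutK_zero (by omega) (by omega), cutK_zero (by omega) (by omega),
      cutK_zero (by omega) (by omega), cutK_zero (by omega) (by omega), zz]
  · obtain ⟨c4, c5⟩ := c2 hy
    rw [c4, c5]
    by_cases h0 : y = 0
    · subst h0
      by_cases h1 : x ≤ -3
      · rw [cutK_zero (by omega) (by omega), cutK_one (by omega), cutK_zero (by omega) (by omega),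
          cutK_one (by omega)]
        decide
      · by_cases h2 : x = -2
        · subst h2
          decide
        · rw [cutK_zero (by omega) (by omega), cutK_zero (by omega) (by omega),
            cutK_zero (by omega) (by omega), cutK_zero (by omega) (by omega), zz]
    · rw [cutK_zero (by omega) (by omega), cutK_zero (by omega) (by omega),
        cutK_zero (by omega) (by omega), cutK_zero (by omega) (by omega), zz]

/-- A leg which reaches the boundary together with the cut has a potential. -/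
theorem exists_cutPot {W : ℤ} (hW : 0 < W) {ω : Cfg} {j : Fin 3} (hj : Lea 0 W ω (j : ℕ)) :
    ∃ χ : ℤ × ℤ → ZMod 2,
      PotQ TQ (An 0 W) (fun p q => indU TQ ω (An 0 W) (leg j) p q + cutK p q) χ := by
  have hj0 : (0 : ℤ) ≤ (j : ℕ) := by omega
  have hj1 : ((j : ℕ) : ℤ) < 8 * 0 + 3 := by have := j.isLt; omega
  have hini : Ini TQ (An 0 W) (leg j) := ini_inner le_rfl hW hj0 hj1
  have hex : ∀ m : ℤ × ℤ → ℤ × ℤ → ZMod 2, (∀ p q, m p q = m q p) →
      (∀ f ∈ An 0 W, ∑ k, m (TQ.c f k) (TQ.c f (k + 1)) = 0) →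
      ∑ t ∈ Ico (0 : ℤ) (8 * 0 + 3), m (bd 0 t) (bd 0 (t + 1)) = 0 →
      ∃ χ, PotQ TQ (An 0 W) m χ := fun m hs he ho => exists_pot_inner le_rfl hW hs he ho
  refine hex _ (fun p q => ?_) (fun f hf => ?_) ?_
  · rw [indU_symm, cutK_symm]
  · rw [Finset.sum_add_distrib, cutK_even, add_zero]
    have hm : Mat TQ ω (An 0 W) (indU TQ ω (An 0 W) (leg j)) :=
      fun f hf k hk => indU_eq hini hf hk
    exact hm.even hf
  · have h1 : ∀ t ∈ Ico (0 : ℤ) (8 * 0 + 3), indU TQ ω (An 0 W) (leg j) (bd 0 t) (bd 0 (t + 1)) +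
        cutK (bd 0 t) (bd 0 (t + 1)) =
        (if t = ((j : ℕ) : ℤ) then 1 else 0) + if t = 1 then 1 else 0 := by
      intro t ht
      rw [mem_Ico] at ht
      have h3 : indU TQ ω (An 0 W) (leg j) (bd 0 t) (bd 0 (t + 1)) =
          if t = ((j : ℕ) : ℤ) then 1 else 0 :=
        indU_inner le_rfl hW hj0 hj1 ht.1 ht.2 hj
      have h4 : cutK (bd 0 t) (bd 0 (t + 1)) = if t = 1 then 1 else 0 := by
        have h2 : t = 0 ∨ t = 1 ∨ t = 2 := by omega
        rcases h2 with rfl | rfl | rfl <;> decide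
      rw [h3, h4]
    rw [Finset.sum_congr rfl h1, Finset.sum_add_distrib, sum_ite_Ico hj0 hj1,
      sum_ite_Ico (by norm_num) (by norm_num)]
    decide

end Pool.Agent.Perc.Q

end Partperc3T3Cut
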