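import Pool.Agent.Lib.MP_6bd702_zc.Pre
import Pool.Agent.Lib.MP_6bd702_zc.Y026
import Pool.Agent.Lib.MP_6bd702_zc.Y025
import Pool.Agent.Lib.MP_6bd702_zc.Y020

/-!
# The number of the strands which cross an annulus of the twisted plane

The number of the strands which cross `BW w \ BW d` from outside has an exponential tail, uniformly
if `w / (w - d)` is bounded: a strand which starts on one of the four sides of the box crosses the
rectangle at this side, and `n` strands which cross a rectangle give `n / 2` disjoint crossings of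
one colour.
-/

set_option autoImplicit false

namespace Pool.Agent.Perc.Q

open Finset Pool.Agent.Perc Relation
open Pool.Agent.PercN (DisLR DisBT pr_disLR_le pr_disBT_le depOn_disLR depOn_disBT)

variable {ω : Cfg} {d w s t c : ℤ} {F : Set (ℤ × ℤ)}

/-- The corners of a face in a chart. -/
theorem cor_chart (hF : ChOk emP s F) {f : ℤ × ℤ} (hf : f ∈ F) (k : ZMod 4) :
    TQ.c (chF s f) k = chF s (ZQ.c f k) := by
  obtain ⟨x, y⟩ := f
  change corT emP (chF s (x, y)) k = chF s (cor0 (x, y) k)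
  rcases lt_or_ge y 0 with h0 | h0
  · rw [chF_low (show (x, y).2 < 0 from h0)]
    simp only
    obtain ⟨a0, a1, a2, a3⟩ := corT_eq emP (x + s) y
    by_cases h1 : y = -1
    · obtain ⟨a4, a5⟩ := a3 h1
      obtain ⟨b1, b2⟩ := hF _ hf h1
      simp only at b1 b2
      rcases k4_cases k with rfl | rfl | rfl | rfl
      · rw [a0, cor0_0, chF_low (show (x, y).2 < 0 from h0)]
      · rw [a1, cor0_1, chF_low (by simp only; omega)]
        exact Prod.ext (by simp only; omega) rfl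
      · rw [a4, cor0_2, chF_up (by simp only; omega), show x + s + 1 = x + 1 + s by ring, b2]
        exact Prod.ext rfl (by simp only; omega)
      · rw [a5, cor0_3, chF_up (by simp only; omega), b1]
        exact Prod.ext rfl (by simp only; omega)
    · obtain ⟨a4, a5⟩ := a2 h1
      rcases k4_cases k with rfl | rfl | rfl | rfl
      · rw [a0, cor0_0, chF_low (show (x, y).2 < 0 from h0)]
      · rw [a1, cor0_1, chF_low (by simp only; omega)]
        exact Prod.ext (by simp only; omega) rfl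
      · rw [a4, cor0_2, chF_low (by simp only; omega)]
        exact Prod.ext (by simp only; omega) rfl
      · rw [a5, cor0_3, chF_low (by simp only; omega)]
  · rw [chF_up (show 0 ≤ (x, y).2 from h0), corT_up (show 0 ≤ (x, y).2 from h0)]
    rcases k4_cases k with rfl | rfl | rfl | rfl
    · rw [cor0_0, chF_up (show 0 ≤ (x, y).2 from h0)]
    · rw [cor0_1, chF_up (by simp only; omega)]
    · rw [cor0_2, chF_up (by simp only; omega)]
    · rw [cor0_3, chF_up (by simp only; omega)]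

/-- A strand of the plane in a chart. -/
theorem orb_chart (hF : ChOk emP s F) {G : Set (ℤ × ℤ)} (hG : ∀ f ∈ F, chF s f ∈ G)
    {a e : (ℤ × ℤ) × (ℤ × ℤ)} (ha : a ∈ Orb ZQ (chC s ω) F e) :
    Prod.map (chF s) (chF s) a ∈ Orb TQ ω G (Prod.map (chF s) (chF s) e) := by
  refine Orb_mono (F := chF s '' F) ?_ (Orb_map (Q := ZQ) (Q' := TQ) (φ := chF s) (ψ := chF s)
    (ω' := ω) (fun f hf k => cor_chart hF hf k) ha)
  rintro _ ⟨f, hf, rfl⟩
  exact hG f hf

/-- A strand which reaches the inner box does not leave the annulus through the outer boundary. -/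
theorem no_outer_exit (hd : 0 ≤ d) (hdw : d < w) (hr : Rea d w ω t) {t' : ℤ} (h0' : 0 ≤ t')
    (h1' : t' < 8 * w + 3) : (ine w t').swap ∉ Orb TQ ω (An d w) (ine w t) := by
  intro h
  obtain ⟨s, hs0, hs1, hs⟩ := hr
  have h2 : Ter TQ (An d w) (ine w t').swap := (ini_outer hd hdw h0' h1').ter_swap
  have h3 : Ter TQ (An d w) (ine d s) := by
    have := (ini_inner hd hdw hs0 hs1).ter_swap
    rwa [Prod.swap_swap] at this
  have h4 := ter_unique hs h h3 h2
  exact bd_ne hd hdw hs0 hs1.le (by omega) (by omega : t' + 1 ≤ 8 * w + 3) (Prod.mk.inj h4).1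

open Classical in
/-- The outer boundary edges whose strands reach the inner box. -/
noncomputable def crs (d w : ℤ) (ω : Cfg) : Finset ℤ :=
  (Ico 0 (8 * w + 3)).filter fun t => Rea d w ω t

theorem mem_BW' {r : ℤ} {f : ℤ × ℤ} : f ∈ BW r ↔
    (-(r + 2) ≤ f.1 ∧ f.1 < r ∧ 0 ≤ f.2 ∧ f.2 < r) ∨
      (-(r + 1) ≤ f.1 ∧ f.1 < r ∧ -r ≤ f.2 ∧ f.2 < 0) := by
  unfold BW
  rw [mem_union, rf_iff, rf_iff]
  omega

theorem mem_An {f : ℤ × ℤ} : f ∈ An d w ↔ f ∈ BW w ∧ f ∉ BW d := Iff.rfl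

/-! ### The four sides -/

theorem ine_R (_ : 0 < w) {j : ℤ} (h0 : -w ≤ j) (h1 : j < w) :
    ine w (if 0 ≤ j then j else j + 8 * w + 3) = ((w, j), (w, j + 1)) := by
  unfold ine bd
  split_ifs <;> refine Prod.ext (Prod.ext ?_ ?_) (Prod.ext ?_ ?_) <;> simp only <;> omega

theorem ine_T (hw : 0 < w) {j : ℤ} (h0 : -w ≤ j) (h1 : j < w + 2) :
    ine w (j + 2 * w) = ((-j, w), (-(j + 1), w)) := by
  unfold ine bd
  split_ifs <;> refine Prod.ext (Prod.ext ?_ ?_) (Prod.ext ?_ ?_) <;> simp only <;> omega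

theorem ine_L (hw : 0 < w) {j : ℤ} (h0 : -w ≤ j) (h1 : j < w) :
    ine w (j + 4 * w + 2) = Prod.map (chF 1) (chF 1) ((-(w + 2), -j), (-(w + 2), -(j + 1))) := by
  unfold ine bd chF Prod.map
  simp only
  split_ifs <;> refine Prod.ext (Prod.ext ?_ ?_) (Prod.ext ?_ ?_) <;> simp only <;> omega

theorem ine_B (hw : 0 < w) {j : ℤ} (h0 : -(w + 1) ≤ j) (h1 : j < w) :
    ine w (j + 6 * w + 3) = ((j, -w), (j + 1, -w)) := by
  unfold ine bd
  split_ifs <;> refine Prod.ext (Prod.ext ?_ ?_) (Prod.ext ?_ ?_) <;> simp only <;> omega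

theorem no_R (hd : 0 ≤ d) (hdw : d < w) (hr : Rea d w ω t) {j : ℤ} (h0 : -w ≤ j) (h1 : j < w) :
    ((w, j + 1), (w, j)) ∉ Orb TQ ω (An d w) (ine w t) := by
  have h := no_outer_exit (t' := if 0 ≤ j then j else j + 8 * w + 3) hd hdw hr
    (by split_ifs <;> omega) (by split_ifs <;> omega)
  rwa [ine_R (by omega) h0 h1] at h

theorem no_T (hd : 0 ≤ d) (hdw : d < w) (hr : Rea d w ω t) {x : ℤ} (h0 : -(w + 2) ≤ x)
    (h1 : x < w) : ((x, w), (x + 1, w)) ∉ Orb TQ ω (An d w) (ine w t) := by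
  have h := no_outer_exit (t' := -(x + 1) + 2 * w) hd hdw hr (by omega) (by omega)
  rw [ine_T (by omega) (by omega) (by omega), neg_neg, show -(-(x + 1) + 1) = x by ring] at h
  exact h

theorem no_L (hd : 0 ≤ d) (hdw : d < w) (hr : Rea d w ω t) {y : ℤ} (h0 : -w ≤ y)
    (h1 : y < w) : Prod.map (chF 1) (chF 1) ((-(w + 2), y), (-(w + 2), y + 1)) ∉
      Orb TQ ω (An d w) (ine w t) := by
  have h := no_outer_exit (t' := -(y + 1) + 4 * w + 2) hd hdw hr (by omega) (by omega)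
  rw [ine_L (by omega) (by omega) (by omega), neg_neg, show -(-(y + 1) + 1) = y by ring] at h
  exact h

theorem no_B (hd : 0 ≤ d) (hdw : d < w) (hr : Rea d w ω t) {x : ℤ} (h0 : -(w + 1) ≤ x)
    (h1 : x < w) : ((x + 1, -w), (x, -w)) ∉ Orb TQ ω (An d w) (ine w t) := by
  have h := no_outer_exit (t' := x + 6 * w + 3) hd hdw hr (by omega) (by omega)
  rwa [ine_B (by omega) (by omega) (by omega)] at h

theorem map_chF_zero (b : (ℤ × ℤ) × (ℤ × ℤ)) : Prod.map (chF 0) (chF 0) b = b :=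
  Prod.ext (chF_zero _) (chF_zero _)

theorem exit_R (hd : 0 ≤ d) (hdw : d < w) {j : ℤ} (h0 : -w ≤ j) (h1 : j < w)
    (ht : ine w t = ((w, j), (w, j + 1))) (hr : Rea d w ω t) :
    ∃ y, ((d, y), (d, y + 1)) ∈ Orb ZQ (chC 0 ω) (RF d w (-w) w : Finset (ℤ × ℤ))
      ((w, j), (w, j + 1)) := by
  have hF : ChOk emP 0 (RF d w (-w) w : Finset (ℤ × ℤ)) := by
    intro f hf _
    rw [mem_coe, rf_iff] at hf
    unfold emP
    rw [if_pos (by omega), if_pos (by omega)]
    omega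
  have hG : ∀ f ∈ ((RF d w (-w) w : Finset (ℤ × ℤ)) : Set (ℤ × ℤ)), chF 0 f ∈ An d w := by
    intro f hf
    rw [mem_coe, rf_iff] at hf
    rw [chF_zero, mem_An, mem_BW', mem_BW']
    omega
  have key : ∀ {a : (ℤ × ℤ) × (ℤ × ℤ)}, a ∈ Orb ZQ (chC 0 ω) (RF d w (-w) w : Finset (ℤ × ℤ))
      ((w, j), (w, j + 1)) → a ∈ Orb TQ ω (An d w) (ine w t) := by
    intro a ha
    have h2 := orb_chart hF hG ha
    rw [map_chF_zero, map_chF_zero] at h2
    rw [ht]
    exact h2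
  rcases exit_cases (ω := chC 0 ω) (ini_of_ter (ter_right (x₀ := d) (x₁ := w) (y₀ := -w)
    (y₁ := w) j)) ⟨(w - 1, j), by rw [rf_iff]; simp only; omega, 1, by
      simp only [ZQ_c, k11, cor0_1, cor0_2, sub_add_cancel]⟩ with
    ⟨y, hy, h2⟩ | ⟨x, hx, h2⟩ | ⟨y, hy, h2⟩ | ⟨x, hx, h2⟩
  · exact absurd (key h2) (no_R hd hdw hr hy.1 hy.2)
  · exact absurd (key h2) (no_T hd hdw hr (by omega) hx.2)
  · exact ⟨y, h2⟩
  · exact absurd (key h2) (no_B hd hdw hr (by omega) hx.2)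

theorem exit_T (hd : 0 ≤ d) (hdw : d < w) {j : ℤ} (h0 : -w ≤ j) (h1 : j < w + 2)
    (ht : ine w t = ((-j, w), (-(j + 1), w))) (hr : Rea d w ω t) :
    ∃ x, ((x + 1, d), (x, d)) ∈ Orb ZQ (chC 0 ω) (RF (-(w + 2)) w d w : Finset (ℤ × ℤ))
      ((-j, w), (-(j + 1), w)) := by
  have hF : ChOk emP 0 (RF (-(w + 2)) w d w : Finset (ℤ × ℤ)) := by
    refine ChOk.of_up fun f hf => ?_
    rw [mem_coe, rf_iff] at hf
    omega
  have hG : ∀ f ∈ ((RF (-(w + 2)) w d w : Finset (ℤ × ℤ)) : Set (ℤ × ℤ)), chF 0 f ∈ An d w := by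
    intro f hf
    rw [mem_coe, rf_iff] at hf
    rw [chF_zero, mem_An, mem_BW', mem_BW']
    omega
  have key : ∀ {a : (ℤ × ℤ) × (ℤ × ℤ)}, a ∈ Orb ZQ (chC 0 ω)
      (RF (-(w + 2)) w d w : Finset (ℤ × ℤ)) ((-j, w), (-(j + 1), w)) →
      a ∈ Orb TQ ω (An d w) (ine w t) := by
    intro a ha
    have h2 := orb_chart hF hG ha
    rw [map_chF_zero, map_chF_zero] at h2
    rw [ht]
    exact h2
  rcases exit_cases (ω := chC 0 ω) (ini_of_ter (by
      have h := ter_top (x₀ := -(w + 2)) (x₁ := w) (y₀ := d) (y₁ := w) (-(j + 1))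
      rwa [show -(j + 1) + 1 = -j by ring] at h)) ⟨(-(j + 1), w - 1), by
      rw [rf_iff]; simp only; omega, 2, by
      simp only [ZQ_c, k21, cor0_2, cor0_3, sub_add_cancel, show -(j + 1) + 1 = -j by ring]⟩ with
    ⟨y, hy, h2⟩ | ⟨x, hx, h2⟩ | ⟨y, hy, h2⟩ | ⟨x, hx, h2⟩
  · exact absurd (key h2) (no_R hd hdw hr (by omega) hy.2)
  · exact absurd (key h2) (no_T hd hdw hr (by omega) hx.2)
  · refine absurd (key h2) ?_
    have h3 := no_L (y := y) hd hdw hr (by omega) hy.2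
    unfold Prod.map at h3
    simp only at h3
    rw [chF_up (by simp only; omega), chF_up (by simp only; omega)] at h3
    exact h3
  · exact ⟨x, h2⟩

theorem exit_B (hd : 1 ≤ d) (hdw : d < w) {j : ℤ} (h0 : -(w + 1) ≤ j) (h1 : j < w)
    (ht : ine w t = ((j, -w), (j + 1, -w))) (hr : Rea d w ω t) :
    ∃ x, ((x, -d), (x + 1, -d)) ∈ Orb ZQ (chC 0 ω) (RF (-(w + 1)) w (-w) (-d) : Finset (ℤ × ℤ))
      ((j, -w), (j + 1, -w)) := by
  have hF : ChOk emP 0 (RF (-(w + 1)) w (-w) (-d) : Finset (ℤ × ℤ)) := by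
    refine ChOk.of_low fun f hf => ?_
    rw [mem_coe, rf_iff] at hf
    omega
  have hG : ∀ f ∈ ((RF (-(w + 1)) w (-w) (-d) : Finset (ℤ × ℤ)) : Set (ℤ × ℤ)),
      chF 0 f ∈ An d w := by
    intro f hf
    rw [mem_coe, rf_iff] at hf
    rw [chF_zero, mem_An, mem_BW', mem_BW']
    omega
  have key : ∀ {a : (ℤ × ℤ) × (ℤ × ℤ)}, a ∈ Orb ZQ (chC 0 ω)
      (RF (-(w + 1)) w (-w) (-d) : Finset (ℤ × ℤ)) ((j, -w), (j + 1, -w)) →
      a ∈ Orb TQ ω (An d w) (ine w t) := by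
    intro a ha
    have h2 := orb_chart hF hG ha
    rw [map_chF_zero, map_chF_zero] at h2
    rw [ht]
    exact h2
  rcases exit_cases (ω := chC 0 ω) (ini_of_ter (ter_bot (x₀ := -(w + 1)) (x₁ := w) (y₀ := -w)
    (y₁ := -d) j)) ⟨(j, -w), by rw [rf_iff]; simp only; omega, 0, by
      simp only [ZQ_c, k01, cor0_0, cor0_1]⟩ with
    ⟨y, hy, h2⟩ | ⟨x, hx, h2⟩ | ⟨y, hy, h2⟩ | ⟨x, hx, h2⟩
  · exact absurd (key h2) (no_R (by omega) hdw hr hy.1 (by omega))
  · exact ⟨x, h2⟩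
  · refine absurd (key h2) ?_
    have h3 := no_L (y := y) (by omega) hdw hr (by omega) (by omega)
    unfold Prod.map at h3
    simp only at h3
    rw [chF_low (by simp only; omega), chF_low (by simp only; omega),
      show -(w + 2) + 1 = -(w + 1) by ring] at h3
    exact h3
  · exact absurd (key h2) (no_B (by omega) hdw hr (by omega) hx.2)

theorem exit_L (hd : 0 ≤ d) (hdw : d < w) {j : ℤ} (h0 : -w ≤ j) (h1 : j < w)
    (ht : ine w t = Prod.map (chF 1) (chF 1) ((-(w + 2), -j), (-(w + 2), -(j + 1))))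
    (hr : Rea d w ω t) :
    ∃ y, ((-(d + 2), y + 1), (-(d + 2), y)) ∈ Orb ZQ (chC 1 ω)
      (RF (-(w + 2)) (-(d + 2)) (-w) w : Finset (ℤ × ℤ)) ((-(w + 2), -j), (-(w + 2), -(j + 1))) := by
  have hF : ChOk emP 1 (RF (-(w + 2)) (-(d + 2)) (-w) w : Finset (ℤ × ℤ)) := by
    intro f hf _
    rw [mem_coe, rf_iff] at hf
    unfold emP
    rw [if_neg (by omega), if_neg (by omega)]
    omega
  have hG : ∀ f ∈ ((RF (-(w + 2)) (-(d + 2)) (-w) w : Finset (ℤ × ℤ)) : Set (ℤ × ℤ)),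
      chF 1 f ∈ An d w := by
    intro f hf
    rw [mem_coe, rf_iff] at hf
    rcases lt_or_ge f.2 0 with h | h
    · rw [chF_low h, mem_An, mem_BW', mem_BW']
      simp only
      omega
    · rw [chF_up h, mem_An, mem_BW', mem_BW']
      omega
  have key : ∀ {a : (ℤ × ℤ) × (ℤ × ℤ)}, a ∈ Orb ZQ (chC 1 ω)
      (RF (-(w + 2)) (-(d + 2)) (-w) w : Finset (ℤ × ℤ)) ((-(w + 2), -j), (-(w + 2), -(j + 1))) →
      Prod.map (chF 1) (chF 1) a ∈ Orb TQ ω (An d w) (ine w t) := by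
    intro a ha
    rw [ht]
    exact orb_chart hF hG ha
  rcases exit_cases (ω := chC 1 ω) (ini_of_ter (by
      have h := ter_left (x₀ := -(w + 2)) (x₁ := -(d + 2)) (y₀ := -w) (y₁ := w) (-(j + 1))
      rwa [show -(j + 1) + 1 = -j by ring] at h)) ⟨(-(w + 2), -(j + 1)), by
      rw [rf_iff]; simp only; omega, 3, by
      simp only [ZQ_c, k31, cor0_3, cor0_0, show -(j + 1) + 1 = -j by ring]⟩ with
    ⟨y, hy, h2⟩ | ⟨x, hx, h2⟩ | ⟨y, hy, h2⟩ | ⟨x, hx, h2⟩
  · exact ⟨y, h2⟩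
  · refine absurd (key h2) ?_
    have h3 := no_T (x := x) hd hdw hr (by omega) (by omega)
    unfold Prod.map
    simp only
    rw [chF_up (by simp only; omega), chF_up (by simp only; omega)]
    exact h3
  · exact absurd (key h2) (no_L hd hdw hr hy.1 hy.2)
  · refine absurd (key h2) ?_
    have h3 := no_B (x := x + 1) hd hdw hr (by omega) (by omega)
    unfold Prod.map
    simp only
    rw [chF_low (by simp only; omega), chF_low (by simp only; omega)]
    exact h3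

/-! ### The tail -/

theorem card_crs (hw : 0 < w) {k : ℕ} (h : 8 * k ≤ (crs d w ω).card) (hd : 1 ≤ d) (hdw : d < w)
    (c : ℤ) : chC 0 ω ∈ DisLR k c d w (-w) w ∨ chC 0 ω ∈ DisBT k c (-(w + 2)) w d w ∨
      chC 1 ω ∈ DisLR k c (-(w + 2)) (-(d + 2)) (-w) w ∨
      chC 0 ω ∈ DisBT k c (-(w + 1)) w (-w) (-d) := by
  classical
  set JR := (Ico (-w) w).filter fun j => Rea d w ω (if 0 ≤ j then j else j + 8 * w + 3) with hR
  set JT := (Ico (-w) (w + 2)).filter fun j => Rea d w ω (j + 2 * w) with hT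
  set JL := (Ico (-w) w).filter fun j => Rea d w ω (j + 4 * w + 2) with hL
  set JB := (Ico (-(w + 1)) w).filter fun j => Rea d w ω (j + 6 * w + 3) with hB
  have hsub : crs d w ω ⊆ JR.image (fun j => if 0 ≤ j then j else j + 8 * w + 3) ∪
      (JT.image (fun j => j + 2 * w) ∪ (JL.image (fun j => j + 4 * w + 2) ∪
        JB.image (fun j => j + 6 * w + 3))) := by
    intro t ht
    unfold crs at ht
    rw [mem_filter, mem_Ico] at ht
    obtain ⟨⟨h0, h1⟩, hr⟩ := ht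
    rw [mem_union, mem_union, mem_union]
    rcases lt_or_ge t w with h2 | h2
    · left
      refine mem_image.2 ⟨t, ?_, if_pos h0⟩
      rw [hR, mem_filter, mem_Ico, if_pos h0]
      exact ⟨by omega, hr⟩
    rcases lt_or_ge t (3 * w + 2) with h3 | h3
    · right; left
      refine mem_image.2 ⟨t - 2 * w, ?_, by omega⟩
      rw [hT, mem_filter, mem_Ico, sub_add_cancel]
      exact ⟨by omega, hr⟩
    rcases lt_or_ge t (5 * w + 2) with h4 | h4
    · right; right; left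
      refine mem_image.2 ⟨t - 4 * w - 2, ?_, by omega⟩
      rw [hL, mem_filter, mem_Ico, show t - 4 * w - 2 + 4 * w + 2 = t by ring]
      exact ⟨by omega, hr⟩
    rcases lt_or_ge t (7 * w + 3) with h5 | h5
    · right; right; right
      refine mem_image.2 ⟨t - 6 * w - 3, ?_, by omega⟩
      rw [hB, mem_filter, mem_Ico, show t - 6 * w - 3 + 6 * w + 3 = t by ring]
      exact ⟨by omega, hr⟩
    · left
      refine mem_image.2 ⟨t - 8 * w - 3, ?_, ?_⟩
      · rw [hR, mem_filter, mem_Ico, if_neg (by omega), show t - 8 * w - 3 + 8 * w + 3 = t by ring]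
        exact ⟨by omega, hr⟩
      · rw [if_neg (by omega)]
        omega
  have hcard : (crs d w ω).card ≤ JR.card + (JT.card + (JL.card + JB.card)) := by
    refine (card_le_card hsub).trans ((card_union_le _ _).trans ?_)
    refine Nat.add_le_add card_image_le ((card_union_le _ _).trans ?_)
    refine Nat.add_le_add card_image_le ((card_union_le _ _).trans ?_)
    exact Nat.add_le_add card_image_le card_image_le
  have hcase : 2 * k ≤ JR.card + 1 ∨ 2 * k ≤ JT.card + 1 ∨ 2 * k ≤ JL.card + 1 ∨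
      2 * k ≤ JB.card + 1 := by omega
  rcases hcase with h2 | h2 | h2 | h2
  · refine Or.inl (dis_right (J := JR) (fun j hj => ?_) (by omega) h2)
    rw [hR, mem_filter, mem_Ico] at hj
    exact ⟨hj.1.1, hj.1.2, exit_R (by omega) hdw hj.1.1 hj.1.2 (ine_R hw hj.1.1 hj.1.2) hj.2⟩
  · refine Or.inr (Or.inl (dis_top (J := JT) (fun j hj => ?_) (by omega) h2))
    rw [hT, mem_filter, mem_Ico] at hj
    exact ⟨hj.1.1, by omega, exit_T (by omega) hdw hj.1.1 hj.1.2 (ine_T hw hj.1.1 hj.1.2) hj.2⟩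
  · refine Or.inr (Or.inr (Or.inl (dis_left (J := JL) (fun j hj => ?_) (by omega) h2)))
    rw [hL, mem_filter, mem_Ico] at hj
    exact ⟨hj.1.1, by omega, exit_L (by omega) hdw hj.1.1 hj.1.2 (ine_L hw hj.1.1 hj.1.2) hj.2⟩
  · refine Or.inr (Or.inr (Or.inr (dis_bot (J := JB) (fun j hj => ?_) (by omega) h2)))
    rw [hB, mem_filter, mem_Ico] at hj
    exact ⟨hj.1.1, hj.1.2, exit_B hd hdw hj.1.1 hj.1.2 (ine_B hw hj.1.1 hj.1.2) hj.2⟩

/-- The number of the crossing strands has an exponential tail. -/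
theorem pr_crs_le (K : ℕ) : ∃ q : ℝ, 0 < q ∧ q < 1 ∧ ∀ (k : ℕ) (d w : ℤ), 1 ≤ d → d < w →
    w ≤ K * (w - d) → pr (BW w) {ω | 8 * k ≤ (crs d w ω).card} ≤ 4 * q ^ k := by
  obtain ⟨q₁, h1, h1', H1⟩ := pr_disLR_le (4 * K)
  obtain ⟨q₂, h2, h2', H2⟩ := pr_disBT_le (4 * K)
  refine ⟨max q₁ q₂, lt_max_of_lt_left h1, max_lt h1' h2', fun k d w hd hdw hK => ?_⟩
  have hK' : 4 * w ≤ ((4 * K : ℕ) : ℤ) * (w - d) := by
    push_cast
    rw [mul_assoc]
    omega
  have e1 : pr (BW w) {ω | chC 0 ω ∈ DisLR k 0 d w (-w) w} ≤ max q₁ q₂ ^ k := by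
    rw [pr_chart (depOn_disLR k 0 d w (-w) w)]
    · exact (H1 k 0 d w (-w) w hdw (by omega) (by omega)).trans
        (pow_le_pow_left₀ h1.le (le_max_left _ _) k)
    · intro f hf
      rw [rf_iff] at hf
      rw [chF_zero, mem_BW']
      omega
  have e2 : pr (BW w) {ω | chC 0 ω ∈ DisBT k 0 (-(w + 2)) w d w} ≤ max q₁ q₂ ^ k := by
    rw [pr_chart (depOn_disBT k 0 (-(w + 2)) w d w)]
    · exact (H2 k 0 (-(w + 2)) w d w (by omega) hdw (by omega)).trans
        (pow_le_pow_left₀ h2.le (le_max_right _ _) k)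
    · intro f hf
      rw [rf_iff] at hf
      rw [chF_zero, mem_BW']
      omega
  have e3 : pr (BW w) {ω | chC 1 ω ∈ DisLR k 0 (-(w + 2)) (-(d + 2)) (-w) w} ≤
      max q₁ q₂ ^ k := by
    rw [pr_chart (depOn_disLR k 0 (-(w + 2)) (-(d + 2)) (-w) w)]
    · refine (H1 k 0 (-(w + 2)) (-(d + 2)) (-w) w (by omega) (by omega) ?_).trans
        (pow_le_pow_left₀ h1.le (le_max_left _ _) k)
      rw [show -(d + 2) - -(w + 2) = w - d by ring]
      omega
    · intro f hf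
      rw [rf_iff] at hf
      rw [mem_BW']
      rcases lt_or_ge f.2 0 with h | h
      · rw [chF_low h]
        simp only
        omega
      · rw [chF_up h]
        omega
  have e4 : pr (BW w) {ω | chC 0 ω ∈ DisBT k 0 (-(w + 1)) w (-w) (-d)} ≤ max q₁ q₂ ^ k := by
    rw [pr_chart (depOn_disBT k 0 (-(w + 1)) w (-w) (-d))]
    · refine (H2 k 0 (-(w + 1)) w (-w) (-d) (by omega) (by omega) ?_).trans
        (pow_le_pow_left₀ h2.le (le_max_right _ _) k)
      rw [show -d - -w = w - d by ring]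
      omega
    · intro f hf
      rw [rf_iff] at hf
      rw [chF_zero, mem_BW']
      omega
  have h3 : pr (BW w) {ω | 8 * k ≤ (crs d w ω).card} ≤
      pr (BW w) ({ω | chC 0 ω ∈ DisLR k 0 d w (-w) w} ∪
        ({ω | chC 0 ω ∈ DisBT k 0 (-(w + 2)) w d w} ∪
          ({ω | chC 1 ω ∈ DisLR k 0 (-(w + 2)) (-(d + 2)) (-w) w} ∪
            {ω | chC 0 ω ∈ DisBT k 0 (-(w + 1)) w (-w) (-d)}))) :=
    pr_mono _ fun ω hω => card_crs (by omega) hω hd hdw 0
  have h4 := h3.trans (pr_union_le _ _ _)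
  have h5 := pr_union_le (BW w) {ω | chC 0 ω ∈ DisBT k 0 (-(w + 2)) w d w}
    ({ω | chC 1 ω ∈ DisLR k 0 (-(w + 2)) (-(d + 2)) (-w) w} ∪
            {ω | chC 0 ω ∈ DisBT k 0 (-(w + 1)) w (-w) (-d)})
  have h6 := pr_union_le (BW w) {ω | chC 1 ω ∈ DisLR k 0 (-(w + 2)) (-(d + 2)) (-w) w}
            {ω | chC 0 ω ∈ DisBT k 0 (-(w + 1)) w (-w) (-d)}
  linarith

/-! ### Moments -/

/-- The third moment of the number of the events which occur, from an exponential tail. -/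
theorem sum_triple_le {q : ℝ} (hq : 0 < q) (hq1 : q < 1) : ∃ C : ℝ, 0 < C ∧
    ∀ (S : Finset (ℤ × ℤ)) (I : Finset ℤ) (A : ℤ → Set Cfg) (N : Cfg → Finset ℤ),
      (∀ ω i, i ∈ N ω ↔ i ∈ I ∧ ω ∈ A i) →
      (∀ k : ℕ, pr S {ω | 8 * k ≤ (N ω).card} ≤ 4 * q ^ k) →
      ∑ t ∈ Fintype.piFinset fun _ : Fin 3 => I, pr S {ω | ∀ i, ω ∈ A (t i)} ≤ C := by
  classical
  have hsum : Summable fun n : ℕ => ((n + 1 : ℕ) : ℝ) ^ 3 * q ^ (n + 1) :=
    (summable_nat_add_iff 1).2 (summable_pow_mul_geometric_of_norm_lt_one (R := ℝ) 3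
      (by rw [Real.norm_eq_abs, abs_of_pos hq]; exact hq1))
  set Z := ∑' n : ℕ, ((n + 1 : ℕ) : ℝ) ^ 3 * q ^ (n + 1) with hZ
  have hZ0 : 0 ≤ Z := tsum_nonneg fun n => by positivity
  refine ⟨2048 * Z / q + 1, by positivity, fun S I A N hN hT => ?_⟩
  have e1 : ∀ t : Fin 3 → ℤ, pr S {ω | ∀ i, ω ∈ A (t i)} =
      (∑ T ∈ S.powerset, if (∀ i, cfg T ∈ A (t i)) then (1 : ℝ) else 0) / 2 ^ S.card := by
    intro t
    rw [ProbA.pr_eq_sum]
    refine congrArg (fun x : ℝ => x / 2 ^ S.card) (sum_congr rfl fun T _ => ?_)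
    congr
  have e2 : ∀ T ∈ S.powerset, ∑ t ∈ Fintype.piFinset fun _ : Fin 3 => I,
      (if (∀ i, cfg T ∈ A (t i)) then (1 : ℝ) else 0) = ((N (cfg T)).card : ℝ) ^ 3 := by
    intro T _
    rw [Finset.sum_ite, sum_const_zero, add_zero, sum_const, nsmul_eq_mul, mul_one]
    have : (Fintype.piFinset fun _ : Fin 3 => I).filter (fun t => ∀ i, cfg T ∈ A (t i)) =
        Fintype.piFinset fun _ : Fin 3 => N (cfg T) := by
      ext t
      rw [mem_filter, Fintype.mem_piFinset, Fintype.mem_piFinset]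
      constructor
      · rintro ⟨h1, h2⟩ i
        exact (hN _ _).2 ⟨h1 i, h2 i⟩
      · intro h
        exact ⟨fun i => ((hN _ _).1 (h i)).1, fun i => ((hN _ _).1 (h i)).2⟩
    rw [this, Fintype.card_piFinset, prod_const, Finset.card_univ, Fintype.card_fin]
    push_cast
    rfl
  have e3 : ∑ t ∈ Fintype.piFinset fun _ : Fin 3 => I, pr S {ω | ∀ i, ω ∈ A (t i)} =
      (∑ T ∈ S.powerset, ((N (cfg T)).card : ℝ) ^ 3) / 2 ^ S.card := by
    rw [sum_congr rfl fun t _ => e1 t, ← sum_div, sum_comm, sum_congr rfl e2]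
  have e4 : ∀ T ∈ S.powerset, ((N (cfg T)).card : ℝ) ^ 3 ≤
      ∑ k ∈ range (I.card + 1), if 8 * k ≤ (N (cfg T)).card then
        (8 * ((k + 1 : ℕ) : ℝ)) ^ 3 else 0 := by
    intro T _
    have hle : (N (cfg T)).card ≤ I.card := card_le_card fun i hi => ((hN _ _).1 hi).1
    have h1 : ((N (cfg T)).card : ℝ) ^ 3 ≤
        (8 * (((N (cfg T)).card / 8 + 1 : ℕ) : ℝ)) ^ 3 := by
      have h2 : (N (cfg T)).card ≤ 8 * ((N (cfg T)).card / 8 + 1) := by omega
      have h3 : ((N (cfg T)).card : ℝ) ≤ 8 * (((N (cfg T)).card / 8 + 1 : ℕ) : ℝ) := by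
        exact_mod_cast h2
      exact pow_le_pow_left₀ (by positivity) h3 3
    refine h1.trans ?_
    have h2 := single_le_sum (f := fun k : ℕ => if 8 * k ≤ (N (cfg T)).card then
        (8 * ((k + 1 : ℕ) : ℝ)) ^ 3 else 0) (s := range (I.card + 1))
      (fun k _ => by split_ifs <;> positivity)
      (show (N (cfg T)).card / 8 ∈ range (I.card + 1) by rw [mem_range]; omega)
    rw [if_pos (by omega)] at h2
    exact h2
  have e5 : ∀ k : ℕ, (∑ T ∈ S.powerset, if 8 * k ≤ (N (cfg T)).card then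
        (8 * ((k + 1 : ℕ) : ℝ)) ^ 3 else 0) / 2 ^ S.card =
      (8 * ((k + 1 : ℕ) : ℝ)) ^ 3 * pr S {ω | 8 * k ≤ (N ω).card} := by
    intro k
    rw [ProbA.pr_eq_sum, mul_div_assoc', mul_sum]
    refine congrArg (fun x : ℝ => x / 2 ^ S.card) (sum_congr rfl fun T _ => ?_)
    by_cases h : 8 * k ≤ (N (cfg T)).card
    · rw [if_pos h, if_pos (show cfg T ∈ {ω | 8 * k ≤ (N ω).card} from h), mul_one]
    · rw [if_neg h, if_neg (show cfg T ∉ {ω | 8 * k ≤ (N ω).card} from h), mul_zero]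
  rw [e3]
  calc (∑ T ∈ S.powerset, ((N (cfg T)).card : ℝ) ^ 3) / 2 ^ S.card
      ≤ (∑ T ∈ S.powerset, ∑ k ∈ range (I.card + 1), if 8 * k ≤ (N (cfg T)).card then
        (8 * ((k + 1 : ℕ) : ℝ)) ^ 3 else 0) / 2 ^ S.card :=
        div_le_div_of_nonneg_right (sum_le_sum e4) (by positivity)
    _ = ∑ k ∈ range (I.card + 1), (8 * ((k + 1 : ℕ) : ℝ)) ^ 3 *
        pr S {ω | 8 * k ≤ (N ω).card} := by
        rw [sum_comm, sum_div]
        exact sum_congr rfl fun k _ => e5 k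
    _ ≤ ∑ k ∈ range (I.card + 1), (8 * ((k + 1 : ℕ) : ℝ)) ^ 3 * (4 * q ^ k) :=
        sum_le_sum fun k _ => mul_le_mul_of_nonneg_left (hT k) (by positivity)
    _ = 2048 / q * ∑ k ∈ range (I.card + 1), ((k + 1 : ℕ) : ℝ) ^ 3 * q ^ (k + 1) := by
        rw [mul_sum]
        refine sum_congr rfl fun k _ => ?_
        rw [pow_succ q k]
        field_simp
        ring
    _ ≤ 2048 / q * Z := by
        refine mul_le_mul_of_nonneg_left ?_ (by positivity)
        exact hsum.sum_le_tsum _ fun n _ => by positivity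
    _ ≤ 2048 * Z / q + 1 := by
        have : 2048 / q * Z = 2048 * Z / q := by ring
        linarith

/-- The third moment of the number of crossing strands. -/
theorem sum_rea3_le (K : ℕ) : ∃ C : ℝ, 0 < C ∧ ∀ d w : ℤ, 1 ≤ d → d < w → w ≤ K * (w - d) →
    ∑ t ∈ Fintype.piFinset fun _ : Fin 3 => Ico (0 : ℤ) (8 * w + 3),
      pr (BW w) {ω | ∀ i, Rea d w ω (t i)} ≤ C := by
  classical
  obtain ⟨q, hq, hq1, H⟩ := pr_crs_le K
  obtain ⟨C, hC, hC'⟩ := sum_triple_le hq hq1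
  refine ⟨C, hC, fun d w hd hdw hK => ?_⟩
  refine hC' (BW w) (Ico 0 (8 * w + 3)) (fun t => {ω | Rea d w ω t}) (fun ω => crs d w ω) ?_ ?_
  · intro ω i
    unfold crs
    rw [mem_filter]
    rfl
  · exact fun k => H k d w hd hdw hK

end Pool.Agent.Perc.Q
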