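import Pool.Agent.Lib.MP_6bd702_zc.Pre
import Pool.Agent.Lib.MP_6bd702_zc.Y026
import Pool.Agent.Lib.MP_6bd702_zc.Y025
import Pool.Agent.Lib.MP_6bd702_zc.Y020
import Pool.Agent.Lib.MP_6bd702_zc.Y029
import Pool.Agent.Lib.MP_6bd702_z.Z033
import Pool.Agent.Lib.MP_6bd702_zc.Y031
import Pool.Agent.Lib.MP_6bd702_zc.Y027
import Pool.Agent.Lib.MP_6bd702_z.Z034
import Pool.Agent.Lib.MP_6bd702_zc.Y028

section Partperc3T2Par

/-!
# Pairs and alternating triples of crossing strands (task T2Par)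

The strands which do not reach the inner box return to the outer boundary: a fixed point free
involution of these boundary edges (the reversed strand of the exit edge), so the number of the
crossing strands is odd. For two crossing strands `t₁ < t₂` the pair potential is `0` on
the arc between them and `1` outside, so the involution preserves the other edges between `t₁` and
`t₂`, whose number is even. So every pair of crossing strands belongs to an alternating triple.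
-/

set_option autoImplicit false

namespace Pool.Agent.Perc.Q

open Finset Pool.Agent.Perc Relation

variable {d w : ℤ} {ω : Cfg}

/-! ### Reversed strands -/

theorem rtg_rev {V Φ : Type} {Q : QC V Φ} {ω : Φ → Bool} {F : Set Φ} {a b : V × V}
    (h : ReflTransGen (Nx Q ω F) a b) : ReflTransGen (Nx Q ω F) b.swap a.swap := by
  induction h with
  | refl => exact ReflTransGen.refl
  | tail _ hb ih => exact ReflTransGen.head hb.rev ih

theorem not_nx_swap {V Φ : Type} {Q : QC V Φ} {ω : Φ → Bool} {F : Set Φ} {a : V × V} :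
    ¬ Nx Q ω F a a.swap := by
  rintro ⟨f, hf, k, rfl, ⟨-, h⟩ | ⟨-, h⟩⟩
  · have h1 := Prod.mk.inj h
    have h2 := (Q.inj (f := f) (k := k) (f' := f) (k' := k + 1)
      (by rw [← h1.2]) (by rw [z1]; exact h1.1)).2
    revert h2
    clear * -
    revert k
    decide
  · have h1 := Prod.mk.inj h
    have h2 := (Q.inj (f := f) (k := k + 3) (f' := f) (k' := k)
      h1.2.symm (by rw [z5]; exact h1.1.symm)).2
    revert h2
    clear * -
    revert k
    decide

/-- A strand does not contain its reversed first edge. -/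
theorem swap_notMem {V Φ : Type} {Q : QC V Φ} {ω : Φ → Bool} {F : Set Φ} {e : V × V}
    (hne : ∀ f k, Q.c f k ≠ Q.c f (k + 1)) (he : Ini Q F e) (hee : e ≠ e.swap) :
    e.swap ∉ Orb Q ω F e := by
  intro h
  have key : ∀ x, ReflTransGen (Nx Q ω F) e x → ReflTransGen (Nx Q ω F) x x.swap := by
    intro x hx
    induction hx with
    | refl => exact h
    | tail _ hb ih =>
      rename_i x x'
      rcases ReflTransGen.cases_head ih with h1 | ⟨y, hy, h1⟩
      · exfalso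
        obtain ⟨f, hf, k, rfl, -⟩ := hb
        exact hne f k (Prod.mk.inj h1).1
      · rw [← hb.unique hy] at h1
        rcases ReflTransGen.cases_tail h1 with h2 | ⟨z, h2, hz⟩
        · exfalso
          rw [← h2] at hb
          exact not_nx_swap hb
        · have h3 := hz.rev
          rw [Prod.swap_swap] at h3
          have h4 := hb.unique h3
          rw [← Prod.swap_swap z, ← h4] at h2
          exact h2
  have h1 := key _ h
  rw [Prod.swap_swap] at h1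
  rcases ReflTransGen.cases_head h1 with h2 | ⟨y, ⟨f, hf, k, h2, -⟩, -⟩
  · exact hee h2.symm
  · exact he.ter_swap f hf k h2

theorem TQ_ne (f : ℤ × ℤ) (k : ZMod 4) : TQ.c f k ≠ TQ.c f (k + 1) := by
  intro h
  have h1 := (BdAux.side_eq (f := f) (g := f) (k := k) (l := k) (by rw [← h])).1
  revert h1
  clear * -
  revert k
  decide

/-- The first edge is not the reversed last edge. -/
theorem ret_ne (hd : 0 ≤ d) (hdw : d < w) {t : ℤ} (h0 : 0 ≤ t) (h1 : t < 8 * w + 3) :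
    (ine w t).swap ∉ Orb TQ ω (An d w) (ine w t) := by
  refine swap_notMem TQ_ne (ini_outer hd hdw h0 h1) ?_
  obtain ⟨f, -, -, k, hk⟩ := ine_face (r := w) (by omega) h0 h1
  intro h
  rw [hk] at h
  exact TQ_ne f k (Prod.mk.inj h).1

/-! ### The exits of the strands which do not cross -/

/-- The strand `t` leaves the annulus through the outer boundary edge `s`. -/
def Ret (d w : ℤ) (ω : Cfg) (t s : ℤ) : Prop :=
  0 ≤ s ∧ s < 8 * w + 3 ∧ (ine w s).swap ∈ Orb TQ ω (An d w) (ine w t)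

theorem exists_ret (hd : 0 ≤ d) (hdw : d < w) {t : ℤ} (h0 : 0 ≤ t) (h1 : t < 8 * w + 3)
    (hr : ¬ Rea d w ω t) : ∃ s, Ret d w ω t s := by
  have hfin : (An d w).Finite := (BW w).finite_toSet.subset Set.sdiff_subset
  obtain ⟨a, ha, hter⟩ := exists_ter (ω := ω) hfin (ini_outer hd hdw h0 h1)
  rcases Orb_pred ha with h | ⟨b, hb, f, hf, k, -, h⟩
  · exfalso
    obtain ⟨f, hf, hf', k, hk⟩ := ine_face (r := w) (by omega) h0 h1
    exact hter f ⟨hf, fun h3 => hf' (BW_mono (by omega) h3)⟩ k (by rw [h, hk])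
  · have h2 : ∃ l, a = (TQ.c f (l + 1), TQ.c f l) := by
      rcases h with ⟨-, h⟩ | ⟨-, h⟩
      · exact ⟨k + 1, by rw [z1]; exact h⟩
      · exact ⟨k + 3, by rw [z5]; exact h⟩
    obtain ⟨l, rfl⟩ := h2
    rcases ter_annulus hd hdw hf hter with ⟨s, hs0, hs1, hs⟩ | ⟨s, hs0, hs1, hs⟩
    · exact absurd ⟨s, hs0, hs1, by rw [← hs]; exact ha⟩ hr
    · exact ⟨s, hs0, hs1, by rw [← hs]; exact ha⟩

theorem Ret.unique (hd : 0 ≤ d) (hdw : d < w) {t s s' : ℤ} (h : Ret d w ω t s)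
    (h' : Ret d w ω t s') : s = s' := by
  have h1 : Ter TQ (An d w) (ine w s).swap := (ini_outer hd hdw h.1 h.2.1).ter_swap
  have h2 : Ter TQ (An d w) (ine w s').swap := (ini_outer hd hdw h'.1 h'.2.1).ter_swap
  exact ine_inj (by omega) h.1 h.2.1 h'.1 h'.2.1
    (Prod.swap_injective (ter_unique h.2.2 h'.2.2 h1 h2))

theorem Ret.symm {t s : ℤ} (h0 : 0 ≤ t) (h1 : t < 8 * w + 3) (h : Ret d w ω t s) :
    Ret d w ω s t := by
  refine ⟨h0, h1, ?_⟩
  have := rtg_rev h.2.2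
  rwa [Prod.swap_swap] at this

theorem Ret.not_rea (hd : 0 ≤ d) (hdw : d < w) {t s : ℤ} (h : Ret d w ω t s) :
    ¬ Rea d w ω t := by
  rintro ⟨x, hx0, hx1, hx⟩
  have h2 : Ter TQ (An d w) (ine w s).swap := (ini_outer hd hdw h.1 h.2.1).ter_swap
  have h3 : Ter TQ (An d w) (ine d x) := by
    have := (ini_inner hd hdw hx0 hx1).ter_swap
    rwa [Prod.swap_swap] at this
  have h4 := ter_unique hx h.2.2 h3 h2
  have := h.1
  have := h.2.1
  exact bd_ne hd hdw hx0 hx1.le (by omega) (by omega : s + 1 ≤ 8 * w + 3) (Prod.mk.inj h4).1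

theorem Ret.ne (hd : 0 ≤ d) (hdw : d < w) {t s : ℤ} (h : Ret d w ω t s) : s ≠ t := by
  rintro rfl
  exact ret_ne hd hdw h.1 h.2.1 h.2.2

/-- A set of outer boundary edges whose strands do not cross, and which is preserved by the exits,
has an even number of elements. -/
theorem even_of_ret (hd : 0 ≤ d) (hdw : d < w) (N : Finset ℤ)
    (hN : ∀ t ∈ N, 0 ≤ t ∧ t < 8 * w + 3 ∧ ¬ Rea d w ω t)
    (hcl : ∀ t ∈ N, ∀ s, Ret d w ω t s → s ∈ N) : N.card % 2 = 0 := by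
  have hex : ∀ t, ∃ s, t ∈ N → Ret d w ω t s := by
    intro t
    by_cases ht : t ∈ N
    · obtain ⟨s, hs⟩ := exists_ret hd hdw (hN t ht).1 (hN t ht).2.1 (hN t ht).2.2
      exact ⟨s, fun _ => hs⟩
    · exact ⟨0, fun h => absurd h ht⟩
  choose g hg using hex
  have h1 : ∑ _t ∈ N, (1 : ZMod 2) = 0 := by
    refine Finset.sum_involution (fun t _ => g t) ?_ ?_ ?_ ?_
    · intro t _
      decide
    · intro t ht _
      exact (hg t ht).ne hd hdw
    · intro t ht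
      exact hcl t ht _ (hg t ht)
    · intro t ht
      have h2 := hg t ht
      have h3 := hg _ (hcl t ht _ h2)
      exact h3.unique hd hdw (h2.symm (hN t ht).1 (hN t ht).2.1)
  rw [Finset.sum_const, nsmul_eq_mul, mul_one, ZMod.natCast_eq_zero_iff] at h1
  omega

open Classical in
/-- The outer boundary edges from `a` to `b - 1` whose strands do not cross. -/
noncomputable def Nc (d w : ℤ) (ω : Cfg) (a b : ℤ) : Finset ℤ := (Ico a b).filter fun t => ¬ Rea d w ω t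

open Classical in
/-- The outer boundary edges from `a` to `b - 1` whose strands cross. -/
noncomputable def Cr (d w : ℤ) (ω : Cfg) (a b : ℤ) : Finset ℤ := (Ico a b).filter fun t => Rea d w ω t

theorem mem_Nc {a b t : ℤ} : t ∈ Nc d w ω a b ↔ a ≤ t ∧ t < b ∧ ¬ Rea d w ω t := by
  classical
  unfold Nc
  rw [mem_filter, mem_Ico, and_assoc]

theorem mem_Cr {a b t : ℤ} : t ∈ Cr d w ω a b ↔ a ≤ t ∧ t < b ∧ Rea d w ω t := by
  classical
  unfold Cr
  rw [mem_filter, mem_Ico, and_assoc]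

theorem card_Cr_Nc {a b : ℤ} (h : a ≤ b) :
    ((Cr d w ω a b).card : ℤ) + (Nc d w ω a b).card = b - a := by
  classical
  have h1 := Finset.card_filter_add_card_filter_not (s := Ico a b) (fun t => Rea d w ω t)
  unfold Cr Nc
  rw [← Nat.cast_add, h1, Int.card_Ico]
  omega

theorem even_all (hd : 0 ≤ d) (hdw : d < w) : (Nc d w ω 0 (8 * w + 3)).card % 2 = 0 := by
  refine even_of_ret hd hdw _ (fun t ht => mem_Nc.1 ht) ?_
  intro t ht s hs
  have h := mem_Nc.1 ht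
  exact mem_Nc.2 ⟨hs.1, hs.2.1, (hs.symm h.1 h.2.1).not_rea hd hdw⟩

/-- Between two crossing strands the number of the other strands is even. -/
theorem even_mid (hd : 0 ≤ d) (hdw : d < w) {t t' : ℤ} (h0 : 0 ≤ t) (h1 : t < t')
    (h2 : t' < 8 * w + 3) (hr : Rea d w ω t) (hr' : Rea d w ω t') :
    (Nc d w ω (t + 1) t').card % 2 = 0 := by
  refine even_of_ret (ω := ω) hd hdw _ (fun x hx => ?_) ?_
  · have := mem_Nc.1 hx
    exact ⟨by omega, by omega, this.2.2⟩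
  intro x hx s hs
  have hx' := mem_Nc.1 hx
  have hx0 : 0 ≤ x := by omega
  have hx1 : x < 8 * w + 3 := by omega
  have hsr := (hs.symm hx0 hx1).not_rea hd hdw
  -- the pair potential
  set e : Fin 3 → (ℤ × ℤ) × (ℤ × ℤ) := fun i => if i = 0 then ine w t else ine w t' with he
  have e0 : e 0 = ine w t := rfl
  have e1 : e (0 + 1) = ine w t' := rfl
  have hini : ∀ i, Ini TQ (An d w) (e i) := by
    intro i
    rw [he]
    simp only
    split_ifs
    · exact ini_outer hd hdw h0 (by omega)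
    · exact ini_outer hd hdw (by omega) h2
  have hm : ∀ y, 0 ≤ y → y < 8 * w + 3 → mP TQ ω (An d w) e 0 (bd w y) (bd w (y + 1)) =
      (if y = t then 1 else 0) + if y = t' then 1 else 0 := by
    intro y hy0 hy1
    unfold mP
    rw [e0, e1, indU_outer hd hdw h0 (by omega) hy0 hy1 hr,
      indU_outer hd hdw (by omega) h2 hy0 hy1 hr']
  obtain ⟨χ, hχ⟩ : ∃ χ, PotQ TQ (An d w) (mP TQ ω (An d w) e 0) χ := by
    refine exists_pot_outer hd hdw (fun p q => mP_symm p q)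
      (fun f hf => (mat_mP (i := 0) hini).even hf) ?_
    rw [Finset.sum_congr rfl fun y hy => hm y (mem_Ico.1 hy).1 (mem_Ico.1 hy).2,
      Finset.sum_add_distrib, sum_ite_Ico h0 (by omega), sum_ite_Ico (by omega) h2]
    decide
  have hg : ∀ y, 0 ≤ y → y ≤ 8 * w + 3 → χ (bd w y) = χ (bd w 0) + (lt2 t y + lt2 t' y) := by
    intro y hy0 hy1
    refine step_fun (g := fun y => χ (bd w y)) (n := 8 * w + 3)
      (G := fun y => lt2 t y + lt2 t' y)
      (j := fun y => (if y = t then 1 else 0) + if y = t' then 1 else 0)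
      (by simp only [lt2_zero h0, lt2_zero (show 0 ≤ t' by omega), add_zero]) ?_ ?_ hy0 hy1
    · intro s hs0 hs1
      rw [pot_outer hd hdw hχ hs0 hs1, hm s hs0 hs1]
    · intro s _ _
      rw [← lt2_step, ← lt2_step]
      ring
  have hmk := hχ.marks (mat_mP hini) hs.2.2
  have h3 : χ (bd w (s + 1)) = χ (bd w x) := hmk.1
  rw [hg (s + 1) (by have := hs.1; omega) (by have := hs.2.1; omega), hg x hx0 hx1.le] at h3
  have h4 := add_left_cancel h3
  have hst : s ≠ t := by rintro rfl; exact hsr hr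
  have hs0 := hs.1
  rw [mem_Nc]
  refine ⟨?_, ?_, hsr⟩
  all_goals
    by_contra hcon
    clear * - h4 hcon hx' hst h1 hs0
    unfold lt2 at h4
    split_ifs at h4 <;> first | omega | (revert h4; decide)

/-- Between two consecutive crossing strands there is an even number of boundary edges. -/
theorem even_between (hd : 0 ≤ d) (hdw : d < w) {t t' : ℤ} (h0 : 0 ≤ t) (h1 : t < t')
    (h2 : t' < 8 * w + 3) (hr : Rea d w ω t) (hr' : Rea d w ω t')
    (hno : ∀ x, t < x → x < t' → ¬ Rea d w ω x) : (t' - t) % 2 = 1 := by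
  have h3 := even_mid hd hdw h0 h1 h2 hr hr'
  have h4 := card_Cr_Nc (d := d) (w := w) (ω := ω) (show t + 1 ≤ t' by omega)
  have h5 : Cr d w ω (t + 1) t' = ∅ := by
    rw [Finset.eq_empty_iff_forall_notMem]
    intro x hx
    have := mem_Cr.1 hx
    exact hno x (by omega) (by omega) this.2.2
  rw [h5, Finset.card_empty] at h4
  omega

theorem odd_Cr (hd : 0 ≤ d) (hdw : d < w) : (Cr d w ω 0 (8 * w + 3)).card % 2 = 1 := by
  have h1 := even_all (ω := ω) hd hdw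
  have h2 := card_Cr_Nc (d := d) (w := w) (ω := ω) (show 0 ≤ 8 * w + 3 by omega)
  omega

/-- The number of crossing strands is odd. -/
theorem odd_crossing (hd : 0 ≤ d) (hdw : d < w) :
    Set.ncard {t : ℤ | 0 ≤ t ∧ t < 8 * w + 3 ∧ Rea d w ω t} % 2 = 1 := by
  have h : {t : ℤ | 0 ≤ t ∧ t < 8 * w + 3 ∧ Rea d w ω t} = (Cr d w ω 0 (8 * w + 3) : Set ℤ) := by
    ext t
    rw [Finset.mem_coe, mem_Cr]
    rfl
  rw [h, Set.ncard_coe_finset]
  exact odd_Cr hd hdw

theorem card_Cr_add {a b c : ℤ} (h1 : a ≤ b) (h2 : b ≤ c) :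
    (Cr d w ω a c).card = (Cr d w ω a b).card + (Cr d w ω b c).card := by
  classical
  rw [← Finset.card_union_of_disjoint]
  · congr 1
    ext t
    rw [mem_union, mem_Cr, mem_Cr, mem_Cr]
    constructor
    · rintro ⟨h3, h4, h5⟩
      rcases lt_or_ge t b with h | h
      · exact Or.inl ⟨h3, h, h5⟩
      · exact Or.inr ⟨h, h4, h5⟩
    · rintro (⟨h3, h4, h5⟩ | ⟨h3, h4, h5⟩)
      · exact ⟨h3, by omega, h5⟩
      · exact ⟨by omega, h4, h5⟩
  · rw [Finset.disjoint_left]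
    intro t ht ht'
    have h3 := mem_Cr.1 ht
    have h4 := mem_Cr.1 ht'
    omega

theorem card_Cr_one {t : ℤ} (hr : Rea d w ω t) : (Cr d w ω t (t + 1)).card = 1 := by
  rw [Finset.card_eq_one]
  refine ⟨t, ?_⟩
  ext x
  rw [mem_Cr, mem_singleton]
  constructor
  · rintro ⟨h1, h2, -⟩
    omega
  · rintro rfl
    exact ⟨le_rfl, by omega, hr⟩

/-- The first crossing strand after `a`. -/
theorem exists_first {a b : ℤ} (h : (Cr d w ω a b).card ≠ 0) :
    ∃ s, a ≤ s ∧ s < b ∧ Rea d w ω s ∧ ∀ x, a ≤ x → x < s → ¬ Rea d w ω x := by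
  have hne : (Cr d w ω a b).Nonempty := Finset.card_pos.1 (Nat.pos_of_ne_zero h)
  have h1 := mem_Cr.1 (Finset.min'_mem _ hne)
  refine ⟨_, h1.1, h1.2.1, h1.2.2, ?_⟩
  intro x hx hx' hrx
  have h2 := Finset.min'_le (Cr d w ω a b) x (mem_Cr.2 ⟨hx, by omega, hrx⟩)
  omega

theorem exists_last {a b : ℤ} (h : (Cr d w ω a b).card ≠ 0) :
    ∃ s, a ≤ s ∧ s < b ∧ Rea d w ω s ∧ ∀ x, s < x → x < b → ¬ Rea d w ω x := by
  have hne : (Cr d w ω a b).Nonempty := Finset.card_pos.1 (Nat.pos_of_ne_zero h)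
  have h1 := mem_Cr.1 (Finset.max'_mem _ hne)
  refine ⟨_, h1.1, h1.2.1, h1.2.2, ?_⟩
  intro x hx hx' hrx
  have h2 := Finset.le_max' (Cr d w ω a b) x (mem_Cr.2 ⟨by omega, hx', hrx⟩)
  omega

theorem alt_mk {a b c : ℤ} (h0 : 0 ≤ a) (h1 : a < b) (h2 : b < c) (h3 : c < 8 * w + 3)
    (h4 : (b - a) % 2 = 1) (h5 : (c - b) % 2 = 1) (ha : Rea d w ω a) (hb : Rea d w ω b)
    (hc : Rea d w ω c) : Alt w ![a, b, c] ∧ ∀ i, Rea d w ω (![a, b, c] i) := by
  refine ⟨⟨h0, h1, h2, h3, h4, h5⟩, ?_⟩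
  intro i
  fin_cases i
  · exact ha
  · exact hb
  · exact hc

/-- Every pair belongs to an alternating triple. -/
theorem exists_triple (hd : 0 ≤ d) (hdw : d < w) {t t' : ℤ} (h0 : 0 ≤ t) (h1 : t < t')
    (h2 : t' < 8 * w + 3) (hr : Rea d w ω t) (hr' : Rea d w ω t') :
    ∃ s : Fin 3 → ℤ, Alt w s ∧ (∀ i, Rea d w ω (s i)) ∧ (∃ i, s i = t) ∧ ∃ i, s i = t' := by
  have hmid := even_mid hd hdw h0 h1 h2 hr hr'
  have hc := card_Cr_Nc (d := d) (w := w) (ω := ω) (show t + 1 ≤ t' by omega)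
  rcases Int.emod_two_eq_zero_or_one (t' - t) with hp | hp
  · -- a strand in the middle
    obtain ⟨s, hs0, hs1, hs, hno⟩ := exists_first (d := d) (w := w) (ω := ω) (a := t + 1) (b := t')
      (by omega)
    have h3 := even_between hd hdw h0 (show t < s by omega) (by omega) hr hs
      (fun x hx hx' => hno x (by omega) hx')
    obtain ⟨h4, h5⟩ := alt_mk (w := w) h0 (show t < s by omega) hs1 h2 h3 (by omega) hr hs hr'
    exact ⟨_, h4, h5, ⟨0, rfl⟩, ⟨2, rfl⟩⟩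
  · -- a strand outside
    have hodd := odd_Cr (ω := ω) hd hdw
    rw [card_Cr_add (show 0 ≤ t by omega) (show t ≤ 8 * w + 3 by omega),
      card_Cr_add (show t ≤ t + 1 by omega) (show t + 1 ≤ 8 * w + 3 by omega),
      card_Cr_add (show t + 1 ≤ t' by omega) (show t' ≤ 8 * w + 3 by omega),
      card_Cr_add (show t' ≤ t' + 1 by omega) (show t' + 1 ≤ 8 * w + 3 by omega),
      card_Cr_one hr, card_Cr_one hr'] at hodd
    by_cases hA : (Cr d w ω 0 t).card = 0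
    · obtain ⟨s, hs0, hs1, hs, hno⟩ := exists_first (d := d) (w := w) (ω := ω) (a := t' + 1)
        (b := 8 * w + 3) (by omega)
      have h3 := even_between hd hdw (by omega) (show t' < s by omega) hs1 hr' hs
        (fun x hx hx' => hno x (by omega) hx')
      obtain ⟨h4, h5⟩ := alt_mk (w := w) h0 h1 (show t' < s by omega) hs1 hp h3 hr hr' hs
      exact ⟨_, h4, h5, ⟨0, rfl⟩, ⟨1, rfl⟩⟩
    · obtain ⟨s, hs0, hs1, hs, hno⟩ := exists_last (d := d) (w := w) (ω := ω) hA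
      have h3 := even_between hd hdw hs0 hs1 (by omega) hs hr hno
      obtain ⟨h4, h5⟩ := alt_mk (w := w) hs0 hs1 h1 h2 h3 hp hs hr hr'
      exact ⟨_, h4, h5, ⟨1, rfl⟩, ⟨2, rfl⟩⟩

theorem nT_le (hd : 0 ≤ d) (hdw : d < w) : nT d w ≤ 6 * aT d w := by
  classical
  unfold nT aT
  have key : ∀ ω : Cfg,
      ∑ p ∈ ((Ico (0 : ℤ) (8 * w + 3)) ×ˢ Ico (0 : ℤ) (8 * w + 3)).filter (fun p => p.1 ≠ p.2),
        (if ω ∈ {ω | Rea d w ω p.1 ∧ Rea d w ω p.2} then (1 : ℝ) else 0) ≤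
      6 * ∑ t ∈ TA w, (if ω ∈ Rea3 d w t then (1 : ℝ) else 0) := by
    intro ω
    rw [← Finset.sum_filter, ← Finset.sum_filter, Finset.sum_const, Finset.sum_const,
      nsmul_eq_mul, nsmul_eq_mul, mul_one, mul_one]
    have hI : ((univ : Finset (Fin 3 × Fin 3)).filter fun p => p.1 ≠ p.2).card = 6 := by decide
    have hsub : (((Ico (0 : ℤ) (8 * w + 3)) ×ˢ Ico (0 : ℤ) (8 * w + 3)).filter
        (fun p => p.1 ≠ p.2)).filter (fun p => ω ∈ {ω | Rea d w ω p.1 ∧ Rea d w ω p.2}) ⊆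
        ((TA w).filter fun t => ω ∈ Rea3 d w t).biUnion fun t =>
          ((univ : Finset (Fin 3 × Fin 3)).filter fun p => p.1 ≠ p.2).image
            fun q => (t q.1, t q.2) := by
      rintro ⟨x, y⟩ hp
      rw [mem_filter, mem_filter, mem_product, mem_Ico, mem_Ico] at hp
      obtain ⟨⟨⟨⟨hx0, hx1⟩, hy0, hy1⟩, hne⟩, hrx, hry⟩ := hp
      simp only at hx0 hx1 hy0 hy1 hne hrx hry
      have main : ∃ s : Fin 3 → ℤ, Alt w s ∧ (∀ i, Rea d w ω (s i)) ∧ (∃ i, s i = x) ∧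
          ∃ i, s i = y := by
        rcases lt_or_gt_of_ne hne with h | h
        · exact exists_triple hd hdw hx0 h hy1 hrx hry
        · obtain ⟨s, h1, h2, h3, h4⟩ := exists_triple hd hdw hy0 h hx1 hry hrx
          exact ⟨s, h1, h2, h4, h3⟩
      obtain ⟨s, hA, hS, ⟨i, hi⟩, j, hj⟩ := main
      rw [mem_biUnion]
      refine ⟨s, mem_filter.2 ⟨mem_TA.2 hA, hS⟩, ?_⟩
      rw [mem_image]
      refine ⟨(i, j), mem_filter.2 ⟨mem_univ _, ?_⟩, by simp only [hi, hj]⟩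
      intro hij
      simp only at hij
      rw [hij] at hi
      exact hne (hi.symm.trans hj)
    have h1 := (Finset.card_le_card hsub).trans Finset.card_biUnion_le
    have h2 : ∑ t ∈ (TA w).filter (fun t => ω ∈ Rea3 d w t),
        (((univ : Finset (Fin 3 × Fin 3)).filter fun p => p.1 ≠ p.2).image
            fun q => (t q.1, t q.2)).card ≤
        ∑ t ∈ (TA w).filter (fun t => ω ∈ Rea3 d w t), 6 :=
      Finset.sum_le_sum fun t _ => Finset.card_image_le.trans hI.le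
    have h3 := h1.trans h2
    rw [Finset.sum_const, smul_eq_mul] at h3
    have h4 : ((((Ico (0 : ℤ) (8 * w + 3)) ×ˢ Ico (0 : ℤ) (8 * w + 3)).filter
        (fun p => p.1 ≠ p.2)).filter
        (fun p => ω ∈ {ω | Rea d w ω p.1 ∧ Rea d w ω p.2})).card ≤
        6 * ((TA w).filter fun t => ω ∈ Rea3 d w t).card := by
      rw [Nat.mul_comm]; exact h3
    exact_mod_cast h4
  have e1 : ∀ A : Set Cfg, pr (BW w) A =
      (∑ T ∈ (BW w).powerset, if cfg T ∈ A then (1 : ℝ) else 0) / 2 ^ (BW w).card :=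
    fun A => ProbA.pr_eq_sum _ A
  simp only [e1]
  rw [← Finset.sum_div, ← Finset.sum_div, ← mul_div_assoc]
  refine div_le_div_of_nonneg_right ?_ (by positivity)
  rw [Finset.sum_comm, Finset.sum_comm (s := TA w), Finset.mul_sum]
  refine Finset.sum_le_sum fun T _ => ?_
  refine (le_of_eq (Finset.sum_congr rfl fun p _ => ?_)).trans (key (cfg T))
  congr

end Pool.Agent.Perc.Q

end Partperc3T2Par

section Partperc3BdExtra

/-!
# The boundary cycles: distances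
-/

set_option autoImplicit false

namespace Pool.Agent.Perc.Q

open Finset Pool.Agent.Perc Relation

variable {r d x y : ℤ} {f : ℤ × ℤ} {k : ZMod 4} {u v z : ℤ × ℤ}

theorem dT_comm (u v : ℤ × ℤ) : dT u v = dT v u := by
  unfold dT
  rw [abs_sub_comm u.1, abs_sub_comm u.2]

theorem dT_le_iff {n : ℤ} : dT u v ≤ n ↔ |u.1 - v.1| ≤ n ∧ |u.2 - v.2| ≤ n := max_le_iff

theorem dT_triangle (u v z : ℤ × ℤ) : dT u z ≤ dT u v + dT v z := by
  have h1 : dT u v ≤ dT u v := le_refl _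
  have h2 : dT v z ≤ dT v z := le_refl _
  rw [dT_le_iff, abs_le, abs_le] at h1 h2
  rw [dT_le_iff, abs_le, abs_le]
  omega

/-- The sup norm. -/
def nT1 (v : ℤ × ℤ) : ℤ := max |v.1| |v.2|

theorem nT1_le_iff {n : ℤ} : nT1 v ≤ n ↔ |v.1| ≤ n ∧ |v.2| ≤ n := max_le_iff

theorem nT1_sub_le (u v : ℤ × ℤ) : nT1 u - nT1 v ≤ dT u v := by
  have h1 : dT u v ≤ dT u v := le_refl _
  have h2 : nT1 v ≤ nT1 v := le_refl _
  rw [dT_le_iff, abs_le, abs_le] at h1
  rw [nT1_le_iff, abs_le, abs_le] at h2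
  have h3 : nT1 u ≤ dT u v + nT1 v := by
    rw [nT1_le_iff, abs_le, abs_le]
    omega
  omega

theorem nT1_inW (h : InW r v) : nT1 v ≤ r + 2 := by
  unfold InW at h
  rw [nT1_le_iff, abs_le, abs_le]
  omega

theorem bd_cases (hr : 0 ≤ r) (h0 : 0 ≤ x) (h1 : x ≤ 8 * r + 3) :
    InW r (bd r x) ∧ r ≤ nT1 (bd r x) := by
  unfold InW nT1 bd
  split_ifs <;> simp only [le_max_iff, le_abs] <;> omega

theorem bdc_cases (hr : 0 ≤ r) (x : ℤ) : InW r (bdc r x) ∧ r ≤ nT1 (bdc r x) := by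
  unfold bdc
  exact bd_cases hr (Int.emod_nonneg _ (by omega)) (Int.emod_lt_of_pos _ (by omega)).le

theorem inW_bdc (hr : 0 ≤ r) (x : ℤ) : InW r (bdc r x) := (bdc_cases hr x).1

theorem dT_bd_succ (hr : 1 ≤ r) (h0 : 0 ≤ x) (h1 : x < 8 * r + 3) :
    dT (bd r x) (bd r (x + 1)) ≤ 1 := by
  rw [dT_le_iff, abs_le, abs_le]
  unfold bd
  split_ifs <;> simp only <;> omega

theorem dT_bdc_succ (hr : 1 ≤ r) (x : ℤ) : dT (bdc r x) (bdc r (x + 1)) ≤ 1 := by
  have h0 := Int.emod_nonneg x (show 8 * r + 3 ≠ 0 by omega)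
  have h1 := Int.emod_lt_of_pos x (show 0 < 8 * r + 3 by omega)
  have e2 : bdc r (x + 1) = bd r (x % (8 * r + 3) + 1) := by
    rw [← bdc_succ (by omega) h0 h1]
    refine bdc_per ?_
    have := Int.emod_add_mul_ediv x (8 * r + 3)
    exact ⟨x / (8 * r + 3), by linarith⟩
  rw [e2]
  exact dT_bd_succ hr h0 h1

theorem dT_self (v : ℤ × ℤ) : dT v v = 0 := by simp [dT]

theorem dT_bdc_add (hr : 1 ≤ r) (x : ℤ) (n : ℕ) : dT (bdc r x) (bdc r (x + n)) ≤ n := by
  induction n with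
  | zero => rw [Nat.cast_zero, add_zero, dT_self]
  | succ n ih =>
    have h1 := dT_bdc_succ hr (x + n)
    have h2 := dT_triangle (bdc r x) (bdc r (x + n)) (bdc r (x + n + 1))
    push_cast
    rw [← add_assoc]
    omega

theorem dT_bdc (hr : 1 ≤ r) (x y : ℤ) : dT (bdc r x) (bdc r y) ≤ |x - y| := by
  rcases le_total x y with h | h
  · have h1 := dT_bdc_add hr x (y - x).toNat
    rw [Int.toNat_of_nonneg (by omega)] at h1
    rw [show x + (y - x) = y by ring] at h1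
    rw [abs_sub_comm, abs_of_nonneg (by omega)]
    exact h1
  · have h1 := dT_bdc_add hr y (x - y).toNat
    rw [Int.toNat_of_nonneg (by omega)] at h1
    rw [show y + (x - y) = x by ring] at h1
    rw [dT_comm, abs_of_nonneg (by omega)]
    exact h1

/-- The four corners, in a form for `omega`. -/
theorem corner_cases (f : ℤ × ℤ) (k : ZMod 4) :
    ((TQ.c f k).2 = f.2 ∨ (TQ.c f k).2 = f.2 + 1) ∧
    (((TQ.c f k).1 = f.1 ∨ (TQ.c f k).1 = f.1 + 1) ∨
      (f.2 = -1 ∧ (TQ.c f k).2 = 0 ∧ ((TQ.c f k).1 = f.1 - 1 ∨ (TQ.c f k).1 = f.1))) := by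
  obtain ⟨a, b, e, y, x⟩ := BdAux.c_spec f k
  have e' : (a = 0 ∨ a = 1) ∧ (b = 0 ∨ b = 1) := by
    rcases e with ⟨-, h1, h2⟩ | ⟨-, h1, h2⟩ | ⟨-, h1, h2⟩ | ⟨-, h1, h2⟩ <;> omega
  clear e
  generalize (TQ.c f k).1 = p at *
  generalize (TQ.c f k).2 = q at *
  omega

theorem not_inW (hr : 0 ≤ r) (hrd : r < d) (hf : f ∉ BW d) (k : ZMod 4) :
    ¬ InW r (TQ.c f k) := by
  intro h
  obtain ⟨a, b, e, y, x⟩ := BdAux.c_spec f k
  have e' : (a = 0 ∨ a = 1) ∧ (b = 0 ∨ b = 1) := by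
    rcases e with ⟨-, h1, h2⟩ | ⟨-, h1, h2⟩ | ⟨-, h1, h2⟩ | ⟨-, h1, h2⟩ <;> omega
  clear e
  rw [BdAux.mem_BW] at hf
  unfold InW at h
  generalize (TQ.c f k).1 = p at *
  generalize (TQ.c f k).2 = q at *
  omega

/-- A corner in the box of a face outside the box lies on the boundary cycle. -/
theorem corner_bd (hr : 0 < r) (hf : f ∉ BW r) (h : InW r (TQ.c f k)) :
    ∃ t, 0 ≤ t ∧ t < 8 * r + 3 ∧ bd r t = TQ.c f k := by
  obtain ⟨t, h0, h1, h2⟩ := (bdW_iff hr).1 ⟨LegsAux.bdW_of_corner (by omega) hf h, h⟩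
  exact ⟨t, h0, h1, by first | exact h2 | exact h2.symm⟩

/-- Cutting a path at the exit from a ball. -/
theorem cut_path {Q : QC (ℤ × ℤ) (ℤ × ℤ)} {F W : Set (ℤ × ℤ)} {ζ ξ : Cfg} {v₀ : ℤ × ℤ} {R : ℤ}
    (hF : ∀ f ∈ F, ∀ k, dT (Q.c f k) v₀ < R → f ∈ W ∧ ζ f = ξ f)
    {y z : ℤ × ℤ} (hz : R ≤ dT z v₀) (h : ConnQ Q ζ F y z) :
    ∃ z', R ≤ dT z' v₀ ∧ ConnQ Q ξ W y z' := by
  induction h using ReflTransGen.head_induction_on with
  | refl => exact ⟨z, hz, ReflTransGen.refl⟩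
  | head hb _ ih =>
    rename_i a b
    obtain ⟨f, hf, k, hk, rfl, rfl⟩ := hb
    by_cases h1 : dT (Q.c f k) v₀ < R
    · obtain ⟨hW, hζ⟩ := hF f hf k h1
      obtain ⟨z', h2, h3⟩ := ih
      exact ⟨z', h2, ReflTransGen.head ⟨f, hW, k, by rw [← hζ, hk], rfl, rfl⟩ h3⟩
    · exact ⟨_, not_lt.1 h1, ReflTransGen.refl⟩

end Pool.Agent.Perc.Q

end Partperc3BdExtra

section Partperc3T2Close

/-!
# Crossing strands: close tips and tips near the special positions
-/

set_option autoImplicit false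

namespace Pool.Agent.Perc.Q

open Finset Pool.Agent.Perc Pool.Agent.PercT Relation

variable {d d' r w g : ℤ} {ω ξ ζ : Cfg} {t : Fin 3 → ℤ} {sec sec' : ℤ × ℤ → Fin 3}
  {kap kap' : ℤ × ℤ → ZMod 2} {s : Fin 3 → ℤ}

/-- The faces which are visited by the three strands. -/
def VS (d w : ℤ) (t : Fin 3 → ℤ) (ω : Cfg) : Set (ℤ × ℤ) :=
  VU TQ ω (An d w) fun i => ine w (t i)

theorem VS_congr {ω' : Cfg} (h : ∀ f ∈ VS d w t ω, ω f = ω' f) : VS d w t ω' = VS d w t ω :=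
  VU_congr h

theorem orb_congr_VS {ω' : Cfg} (h : ∀ f ∈ VS d w t ω, ω f = ω' f) (i : Fin 3) :
    Orb TQ ω' (An d w) (ine w (t i)) = Orb TQ ω (An d w) (ine w (t i)) :=
  Orb_congr fun f hf => h f ⟨i, hf⟩

/-- The ends of the bond of a visited face lie in the same sector for both annuli. -/
theorem sec_eq_sec' (hd : 0 ≤ r) (hrd : r ≤ d) (hdw : d < w)
    (H : IsSec TQ ω (An d w) (fun i => ine w (t i)) (fun i => i + 2) (fun i => i) sec kap)
    (H' : IsSec TQ ω (An r w) (fun i => ine w (t i)) (fun i => i + 2) (fun i => i) sec' kap')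
    {f : ℤ × ℤ} (hf : f ∈ VS d w t ω) {k : ZMod 4} (hk : ω f = ev k) :
    sec (TQ.c f k) = sec' (TQ.c f k) := by
  obtain ⟨i, hfF, k₀, h0⟩ := id hf
  have hU : (TQ.c f k₀, TQ.c f (k₀ + 1)) ∈ Un TQ ω (An d w) (ine w (t i)) := Or.inl h0
  -- a side of `f` at the corner `k` belongs to the strand `i`
  have h1 : (TQ.c f k, TQ.c f (k + 1)) ∈ Un TQ ω (An d w) (ine w (t i)) ∨
      (TQ.c f (k + 3), TQ.c f k) ∈ Un TQ ω (An d w) (ine w (t i)) := by
    have a1 := un_iff (H.ini i) hfF hk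
    have hk2 : ω f = ev (k + 2) := by rw [ev_add_two, hk]
    have a2 := un_iff (H.ini i) hfF hk2
    rw [z7, z4] at a2
    rcases z4_cases k₀ k with rfl | rfl | rfl | rfl
    · exact Or.inl hU
    · rw [z1] at hU
      exact Or.inl (a1.2 hU)
    · rw [z7] at hU
      exact Or.inr (a2.1 hU)
    · rw [z5] at hU
      exact Or.inr hU
  have hmono : Orb TQ ω (An d w) (ine w (t i)) ⊆ Orb TQ ω (An r w) (ine w (t i)) :=
    Orb_mono (An_mono hrd)
  rcases h1 with (h | h) | (h | h)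
  · exact (H.left i _ h).1.trans (H'.left i _ (hmono h)).1.symm
  · exact (H.right i _ h).1.trans (H'.right i _ (hmono h)).1.symm
  · exact (H.right i _ h).1.trans (H'.right i _ (hmono h)).1.symm
  · exact (H.left i _ h).1.trans (H'.left i _ (hmono h)).1.symm

/-- The path of the right marks of the strand `i` from the outer boundary to the box of radius `r`
leaves the annulus `An d w` through the arc of the sector `i`, and then it uses fresh faces. -/
theorem exit_arc (hr : 0 ≤ r) (hrd : r < d) (hdw : d < w) (ht : Alt w t)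
    (hR : ω ∈ Rea3 r w t) (i : Fin 3)
    (H : IsSec TQ ω (An d w) (fun i => ine w (t i)) (fun i => i + 2) (fun i => i) sec kap) :
    ∃ y z, (∃ x, 0 ≤ x ∧ x < 8 * d + 3 ∧ bd d x = y ∧ sec y = i) ∧
      (∃ x, 0 ≤ x ∧ x < 8 * r + 3 ∧ bdc r (x + 1) = z) ∧
      ConnQ TQ ω (An r w \ VS d w t ω) y z := by
  obtain ⟨sec', kap', H'⟩ := secIn (ω := ω) hr (hrd.trans hdw) ht hR
  obtain ⟨x, hx0, hx1, hx⟩ := hR i
  have hm := ht.mem i
  -- the start
  obtain ⟨f₀, hf₀, hf₀', k₀, hk₀⟩ := ine_face (r := w) (by omega) hm.1 hm.2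
  have hf₀A : f₀ ∈ An d w := ⟨hf₀, fun h3 => hf₀' (BW_mono (by omega) h3)⟩
  have hk₀' := Prod.mk.inj hk₀
  set T : Set (ℤ × ℤ) := {v | (∃ f ∈ An d w, ∃ k, TQ.c f k = v) ∧ sec v = i} with hT
  have hp := (marks hx).2.mono (Vis_sub)
  have hend : ∀ v, (∃ f ∈ An d w, ∃ k, TQ.c f k = v) → InW r v → False := by
    rintro v ⟨f, hf, k, rfl⟩ hv
    exact not_inW hr hrd hf.2 k hv
  have key := near (Q := TQ) (ζ := ω) (G := An r w) (S := VS d w t ω) (F := An d w) (T := T)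
    (Y := {v | ∃ x, 0 ≤ x ∧ x < 8 * d + 3 ∧ bd d x = v ∧ sec v = i})
    (P := fun v => sec' v = i) (p := (ine w (t i)).2) (q := (ine r x).2) ?_ ?_ ?_ ?_ ?_ ?_ ?_ hp
  · obtain ⟨y, hy, -, hconn⟩ := key
    exact ⟨y, _, hy, ⟨x, hx0, hx1, bdc_succ hr hx0 hx1⟩, hconn⟩
  · intro u v hb hu
    rw [← (H'.bondQ_eq hb).1]; exact hu
  · intro g hg k hk hP
    refine ⟨⟨g, VU_sub hg, k, rfl⟩, ?_⟩
    rw [sec_eq_sec' hr hrd.le hdw H H' hg hk]
    exact hP
  · rintro g hg hgS k ⟨-, hs⟩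
    exact ⟨⟨g, hg, _, rfl⟩, ((H.fresh_opp hg hgS).1).symm.trans hs⟩
  · rintro g hg hgF k ⟨⟨f, hf, l, hfl⟩, hs⟩
    have hgd : g ∈ (BW d : Set (ℤ × ℤ)) := by
      by_contra hcon
      exact hgF ⟨hg.1, hcon⟩
    have hin : InW d (TQ.c f l) := by
      rw [hfl]
      exact inW_corner (by omega) (by exact_mod_cast hgd) k
    obtain ⟨x, h0, h1, h2⟩ := corner_bd (by omega) (by exact_mod_cast hf.2) hin
    exact ⟨x, h0, h1, h2.trans hfl, hs⟩
  · refine ⟨⟨f₀, hf₀A, k₀ + 1, hk₀'.2.symm⟩, ?_⟩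
    exact (H.right i _ mem_Orb_self).1
  · exact (H'.right i _ mem_Orb_self).1
  · rintro ⟨h1, -⟩
    refine hend _ h1 ?_
    change InW r (bd r (x + 1))
    rw [← bdc_succ hr hx0 hx1]
    exact inW_bdc hr _

/-! ### Close tips -/

theorem TipI.congr {ω' : Cfg} (h : ∀ f ∈ VS d w t ω, ω f = ω' f) {i : Fin 3} {x : ℤ} :
    TipI d w ω' t i x ↔ TipI d w ω t i x := by
  unfold TipI
  rw [orb_congr_VS h i]

theorem rea3_congr {ω' : Cfg} (h : ∀ f ∈ VS d w t ω, ω f = ω' f) (hω : ω ∈ Rea3 d w t) :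
    ω' ∈ Rea3 d w t := by
  intro i
  obtain ⟨x, h1, h2, h3⟩ := hω i
  refine ⟨x, h1, h2, ?_⟩
  rw [orb_congr_VS h i]
  exact h3

theorem closeI_congr {ω' : Cfg} (h : ∀ f ∈ VS d w t ω, ω f = ω' f) (hω : ω ∈ CloseI d w g t) :
    ω' ∈ CloseI d w g t := by
  obtain ⟨h1, i, j, x, y, h2, h3, h4, h5⟩ := hω
  exact ⟨rea3_congr h h1, i, j, x, y, h2, (TipI.congr h).2 h3, (TipI.congr h).2 h4, h5⟩

/-- The tip of a strand whose sector has a short arc. -/
def GoodV (d w g : ℤ) (t : Fin 3 → ℤ) (ω : Cfg) (v : ℤ × ℤ) : Prop :=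
  ∃ (k : Fin 3) (s : Fin 3 → ℤ), (∀ i, TipI d w ω t i (s i)) ∧ gap (8 * d + 3) s k < g ∧
    v = bdc d (s k)

theorem GoodV.congr {ω' : Cfg} (h : ∀ f ∈ VS d w t ω, ω f = ω' f) {v : ℤ × ℤ}
    (hv : GoodV d w g t ω v) : GoodV d w g t ω' v := by
  obtain ⟨k, s, h1, h2, h3⟩ := hv
  exact ⟨k, s, fun i => (TipI.congr h).2 (h1 i), h2, h3⟩

theorem gap_of_near {L : ℤ} {S : Fin 3 → ℤ} (hS : ∀ i, 0 ≤ S i ∧ S i < L) (hL : 0 < L) (i : Fin 3)
    (h : |S i - S (i + 1)| < g ∨ L - g < |S i - S (i + 1)|) :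
    gap L S i < g ∨ L - g < gap L S i := by
  have h1 := hS i
  have h2 := hS (i + 1)
  unfold gap
  rcases le_or_gt 0 (S (i + 1) - S i) with h3 | h3
  · rw [Int.emod_eq_of_lt h3 (by omega)]
    rw [abs_sub_comm, abs_of_nonneg h3] at h
    exact h
  · have e : (S (i + 1) - S i) % L = S (i + 1) - S i + L := by
      rw [← Int.add_emod_right, Int.emod_eq_of_lt (by omega) (by omega)]
    rw [e]
    rw [abs_of_pos (by omega)] at h
    omega

theorem exists_good (hd : 0 ≤ d) (hdw : d < w) (ht : Alt w t) (h : ω ∈ CloseI d w g t) :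
    ∃ v, GoodV d w g t ω v := by
  obtain ⟨hR, i, j, x, y, hij, hx, hy, hnear⟩ := h
  obtain ⟨S, hS⟩ := exists_tip hR
  obtain ⟨sec, kap, H⟩ := secIn hd hdw ht hR
  have C := cyc_in hd hdw ht.mem H (fun i => ⟨(hS i).1, (hS i).2.1⟩) fun i => (hS i).2.2
  have hS' : ∀ i, 0 ≤ S i ∧ S i < 8 * d + 3 := fun i => ⟨(hS i).1, (hS i).2.1⟩
  have hsum := C.sum_gap
  have key : ∀ i : Fin 3, (gap (8 * d + 3) S i < g ∨ 8 * d + 3 - g < gap (8 * d + 3) S i) →
      ∃ k, gap (8 * d + 3) S k < g := by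
    intro i hi
    rcases hi with hi | hi
    · exact ⟨i, hi⟩
    · refine ⟨i + 1, ?_⟩
      have p := C.gap_pos (i + 2)
      have e : gap (8 * d + 3) S i + gap (8 * d + 3) S (i + 1) + gap (8 * d + 3) S (i + 2) =
          8 * d + 3 := by
        clear hi p hx hy hij
        revert i
        intro i
        fin_cases i
        · exact hsum
        · change gap (8 * d + 3) S 1 + gap (8 * d + 3) S 2 + gap (8 * d + 3) S 0 = _
          omega
        · change gap (8 * d + 3) S 2 + gap (8 * d + 3) S 0 + gap (8 * d + 3) S 1 = _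
          omega
      omega
  have hk : ∃ k, gap (8 * d + 3) S k < g := by
    have e1 : x = S i := TipI.unique hd hdw hx (hS i)
    have e2 : y = S j := TipI.unique hd hdw hy (hS j)
    subst e1 e2
    have h3 : j = i + 1 ∨ i = j + 1 := by
      clear * - hij
      revert i j
      decide
    rcases h3 with rfl | rfl
    · exact key i (gap_of_near hS' (by omega) i hnear)
    · refine key j (gap_of_near hS' (by omega) j ?_)
      rw [abs_sub_comm]
      exact hnear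
  obtain ⟨k, hk⟩ := hk
  exact ⟨_, k, S, hS, hk, rfl⟩

/-- An arm which starts near the tip. -/
theorem close_arm (hr : 1 ≤ r) (hrd : r < d) (hdw : d < w) (ht : Alt w t) (hζ : ζ ∈ Rea3 r w t)
    {v : ℤ × ℤ} (hv : GoodV d w g t ζ v) :
    ∃ y z, dT y v ≤ g ∧ d - (r + 2) ≤ dT z v ∧ ConnQ TQ ζ (An r w \ VS d w t ζ) y z := by
  obtain ⟨k, s, hs, hk, rfl⟩ := hv
  have hRd : ζ ∈ Rea3 d w t := rea3_mono (by omega) hrd.le hdw ht hζ
  obtain ⟨sec, kap, H⟩ := secIn (d := d) (w := w) (ω := ζ) (by omega) hdw ht hRd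
  have C := cyc_in (by omega) hdw ht.mem H (fun i => ⟨(hs i).1, (hs i).2.1⟩) fun i => (hs i).2.2
  obtain ⟨y, z, ⟨x, h0, h1, hx, hsec⟩, ⟨x', -, -, hx'⟩, hconn⟩ :=
    exit_arc (by omega) hrd hdw ht hζ k H
  refine ⟨y, z, ?_, ?_, hconn⟩
  · have h2 : sec (bdc d x) = k := by rw [bdc_eq h0 h1, hx, hsec]
    obtain ⟨n, hn1, hn2, hn3⟩ := C.mem_arc (x := x) h2
    rw [← hx, ← bdc_eq h0 h1, bdc_per hn3]
    refine (dT_bdc (by omega) _ _).trans ?_
    rw [add_sub_cancel_left, abs_of_nonneg (by omega)]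
    omega
  · rw [← hx']
    have h2 := (bdc_cases (r := d) (by omega) (s k)).2
    have h3 := nT1_inW (inW_bdc (r := r) (by omega) (x' + 1))
    have h4 := nT1_sub_le (bdc d (s k)) (bdc r (x' + 1))
    rw [dT_comm] at h4
    omega

theorem VS_sub : VS d w t ω ⊆ An d w := VU_sub

theorem mix_agree {S : Set (ℤ × ℤ)} {ω ξ : Cfg} : ∀ f ∈ S, ω f = mix S ω ξ f :=
  fun _ hf => (mix_of_mem hf).symm

/-- Close tips cost a small factor. -/
theorem closeInP : CloseInP := by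
  obtain ⟨C, β, hC, hβ, hone⟩ := oneArmT
  intro q hq
  -- the constant
  obtain ⟨M, hM, hM0⟩ : ∃ M : ℕ, C * ((2 : ℝ) / M) ^ β ≤ q ∧ 1 ≤ M := by
    have h1 : Filter.Tendsto (fun M : ℕ => C * ((2 : ℝ) / M) ^ β) Filter.atTop (nhds (C * 0)) := by
      refine Filter.Tendsto.const_mul C ?_
      have h2 := (tendsto_const_div_atTop_nhds_zero_nat (2 : ℝ)).rpow_const (p := β)
        (Or.inr hβ.le)
      rwa [Real.zero_rpow hβ.ne'] at h2
    rw [mul_zero] at h1
    exact ((h1.eventually (ge_mem_nhds hq)).and (Filter.eventually_ge_atTop 1)).exists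
  refine ⟨M + 8, by omega, ?_⟩
  intro g r w hg hMr hrw t ht
  have hgr : (M + 8) * g ≤ r := hMr
  have hr8 : 8 * g ≤ r := le_trans (Nat.mul_le_mul_right g (by omega)) hgr
  have hMg : M * g ≤ r := le_trans (Nat.mul_le_mul_right g (by omega)) hgr
  have hgZ : (1 : ℤ) ≤ g := by exact_mod_cast hg
  have hrZ : 8 * (g : ℤ) ≤ r := by exact_mod_cast hr8
  have hwZ : 2 * (r : ℤ) < w := by exact_mod_cast hrw
  rw [Set.inter_comm]
  refine (pr_mix_le (W := BW w) (S := VS (2 * r) w t) (fun ω ω' h => VS_congr h)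
    (A := CloseI (2 * r) w g t) (fun ω hω ω' h => closeI_congr h hω)
    (fun ω => {ξ | ∀ v, GoodV (2 * r) w g t ω v → ∃ y z, dT y v ≤ g ∧ (r : ℤ) - 2 ≤ dT z v ∧
      ConnQ TQ ξ (BW (w : ℤ) : Set (ℤ × ℤ)) y z}) (Rea3 r w t) (q := q) ?_ ?_).trans ?_
  · intro ω hω
    obtain ⟨v, hv⟩ := exists_good (by omega) hwZ ht hω
    have hsub : {ξ | ∀ v, GoodV (2 * r) w g t ω v → ∃ y z, dT y v ≤ g ∧ (r : ℤ) - 2 ≤ dT z v ∧
        ConnQ TQ ξ (BW (w : ℤ) : Set (ℤ × ℤ)) y z} ⊆ {ξ | ∃ y z, dT y v ≤ g ∧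
        (r : ℤ) - 2 ≤ dT z v ∧ ConnQ TQ ξ (BW (w : ℤ) : Set (ℤ × ℤ)) y z} := fun ξ hξ => hξ v hv
    refine (pr_mono _ hsub).trans ?_
    refine (hone v g (r - 2) (BW w) hgZ (by omega) ?_).trans (le_trans ?_ hM)
    · obtain ⟨k, s, -, -, rfl⟩ := hv
      have h2 := (bdc_cases (r := 2 * (r : ℤ)) (by omega) (s k)).2
      unfold nT1 at h2
      omega
    · have hg0 : (0 : ℝ) < g := by exact_mod_cast hg
      have hr0 : (8 : ℝ) * g ≤ r := by exact_mod_cast hr8
      refine mul_le_mul_of_nonneg_left (Real.rpow_le_rpow (by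
        push_cast
        have : (1 : ℝ) ≤ g := by exact_mod_cast hg
        refine div_nonneg (by linarith) (by linarith)) ?_ hβ.le) hC.le
      push_cast
      have h1 : (1 : ℝ) ≤ g := by exact_mod_cast hg
      rw [div_le_div_iff₀ (by linarith) (by exact_mod_cast hM0)]
      have h2 : (M : ℝ) * g ≤ r := by exact_mod_cast hMg
      nlinarith
  · intro ω hω ξ hX v hv
    have hag : ∀ f ∈ VS (2 * r) w t ω, ω f = mix (VS (2 * r) w t ω) ω ξ f := mix_agree
    obtain ⟨y, z, h1, h2, h3⟩ := close_arm (r := r) (d := 2 * r) (by omega) (by omega) hwZ ht hX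
      (hv.congr hag)
    refine ⟨y, z, h1, by omega, ?_⟩
    rw [VS_congr hag] at h3
    refine ConnQ.mono (F := An r w \ VS (2 * r) w t ω) (fun f hf => hf.1.1) (h3.congr ?_)
    intro f hf
    exact mix_of_notMem hf.2
  · refine mul_le_mul_of_nonneg_left (pr_mono _ fun ω hω => hω.1) hq.le

/-! ### Tips near the special positions -/

theorem inW_of_nT1 {v : ℤ × ℤ} (h : nT1 v ≤ r) : InW r v := by
  rw [nT1_le_iff, abs_le, abs_le] at h
  unfold InW
  omega

theorem spec_arm (hd : 4 ≤ d) (hdw : 2 * d < w) (ht : Alt w t) {i : Fin 3} {x z : ℤ}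
    (hx : TipI d w ζ t i x) (hz : |x - z| < g)
    (hζ : ∀ f ∈ (BW (2 * d) : Set (ℤ × ℤ)), ζ f = ξ f) :
    ∃ y z', dT y (bdc d z) ≤ g ∧ d - 4 ≤ dT z' (bdc d z) ∧
      ConnQ TQ ξ (BW w : Set (ℤ × ℤ)) y z' := by
  have hv := bdc_cases (r := d) (by omega) z
  have hv3 := nT1_inW hv.1
  have hpath : ConnQ TQ ζ (An d w) (bd d x) (bd w (t i)) :=
    ((marks hx.2.2).1.mono Vis_sub).symm
  have hm := ht.mem i
  have key := cut_path (ξ := ξ) (W := (BW w : Set (ℤ × ℤ))) (v₀ := bdc d z)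
    (R := d - 4) ?_ ?_ hpath
  · obtain ⟨z', h1, h2⟩ := key
    refine ⟨bd d x, z', ?_, h1, h2⟩
    rw [← bdc_eq hx.1 hx.2.1]
    refine (dT_bdc (by omega) _ _).trans hz.le
  · intro f hf k hk
    refine ⟨hf.1, hζ f ?_⟩
    by_contra hcon
    refine not_inW (r := 2 * d - 1) (d := 2 * d) (by omega) (by omega)
      (f := f) (by exact_mod_cast hcon) k (inW_of_nT1 ?_)
    have := nT1_sub_le (TQ.c f k) (bdc d z)
    omega
  · have h2 := (bd_cases (r := w) (x := t i) (by omega) hm.1 (by omega)).2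
    have h4 := nT1_sub_le (bd w (t i)) (bdc d z)
    omega

/-- Tips near the special positions cost a small factor. -/
theorem specInP : SpecInP := by
  classical
  obtain ⟨C, β, hC, hβ, hone⟩ := oneArmT
  intro q hq
  -- the constant
  obtain ⟨M, hM, hM0⟩ : ∃ M : ℕ, 9 * C * ((2 : ℝ) / M) ^ β ≤ q ∧ 1 ≤ M := by
    have h1 : Filter.Tendsto (fun M : ℕ => 9 * C * ((2 : ℝ) / M) ^ β) Filter.atTop
        (nhds (9 * C * 0)) := by
      refine Filter.Tendsto.const_mul (9 * C) ?_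
      have h2 := (tendsto_const_div_atTop_nhds_zero_nat (2 : ℝ)).rpow_const (p := β)
        (Or.inr hβ.le)
      rwa [Real.zero_rpow hβ.ne'] at h2
    rw [mul_zero] at h1
    exact ((h1.eventually (ge_mem_nhds hq)).and (Filter.eventually_ge_atTop 1)).exists
  refine ⟨M + 8, by omega, ?_⟩
  intro g d w hg hMr hrw t ht
  have hgr : (M + 8) * g ≤ d := hMr
  have hr8 : 8 * g ≤ d := le_trans (Nat.mul_le_mul_right g (by omega)) hgr
  have hMg : M * g ≤ d := le_trans (Nat.mul_le_mul_right g (by omega)) hgr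
  have hgZ : (1 : ℤ) ≤ g := by exact_mod_cast hg
  have hrZ : 8 * (g : ℤ) ≤ d := by exact_mod_cast hr8
  have hwZ : 2 * (d : ℤ) < w := by exact_mod_cast hrw
  refine (pr_mono _ (B := Rea3 (2 * d) w t ∩ SpecI d w g t) ?_).trans ?_
  · intro ω hω
    exact ⟨rea3_mono (by omega) (by omega) hwZ ht hω.1, hω⟩
  refine (pr_mix_le (W := BW w) (S := VS (2 * d) w t) (fun ω ω' h => VS_congr h)
    (A := Rea3 (2 * d) w t) (fun ω hω ω' h => rea3_congr h hω)
    (fun ω => {ξ | ∃ z ∈ (spec d).toFinset, ξ ∈ {ξ : Cfg | ∃ y z', dT y (bdc d z) ≤ g ∧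
      (d : ℤ) - 4 ≤ dT z' (bdc d z) ∧
      ConnQ TQ ξ (BW (w : ℤ) : Set (ℤ × ℤ)) y z'}}) (SpecI d w g t) (q := q) ?_ ?_)
  · intro ω _
    refine (PercL.pr_biUnion_le _ _).trans ?_
    have h1 : ∀ z ∈ (spec d).toFinset, pr (BW w) {ξ : Cfg | ∃ y z', dT y (bdc d z) ≤ g ∧
        (d : ℤ) - 4 ≤ dT z' (bdc d z) ∧
        ConnQ TQ ξ (BW (w : ℤ) : Set (ℤ × ℤ)) y z'} ≤ C * ((2 : ℝ) / M) ^ β := by
      intro z _
      refine (hone (bdc d z) g (d - 4) (BW w) hgZ (by omega) ?_).trans ?_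
      · have h2 := (bdc_cases (r := (d : ℤ)) (by omega) z).2
        unfold nT1 at h2
        omega
      · have hr0 : (8 : ℝ) * g ≤ d := by exact_mod_cast hr8
        have h1 : (1 : ℝ) ≤ g := by exact_mod_cast hg
        refine mul_le_mul_of_nonneg_left (Real.rpow_le_rpow (by
          push_cast
          refine div_nonneg (by linarith) (by linarith)) ?_ hβ.le) hC.le
        push_cast
        rw [div_le_div_iff₀ (by linarith) (by exact_mod_cast hM0)]
        have h2 : (M : ℝ) * g ≤ d := by exact_mod_cast hMg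
        nlinarith
    refine (Finset.sum_le_sum h1).trans ?_
    rw [Finset.sum_const, nsmul_eq_mul]
    have h2 : (((spec (d : ℤ)).toFinset.card : ℕ) : ℝ) ≤ 9 := by
      exact_mod_cast List.toFinset_card_le (spec (d : ℤ))
    have h3 : 0 ≤ C * ((2 : ℝ) / M) ^ β := by positivity
    calc (((spec (d : ℤ)).toFinset.card : ℕ) : ℝ) * (C * ((2 : ℝ) / M) ^ β)
        ≤ 9 * (C * ((2 : ℝ) / M) ^ β) := mul_le_mul_of_nonneg_right h2 h3
      _ = 9 * C * ((2 : ℝ) / M) ^ β := by ring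
      _ ≤ q := hM
  · intro ω _ ξ hX
    obtain ⟨-, i, x, hx, haway⟩ := hX
    unfold Away at haway
    push Not at haway
    obtain ⟨z, hz, hxz⟩ := haway
    refine ⟨z, List.mem_toFinset.2 hz, ?_⟩
    refine spec_arm (by omega) hwZ ht hx hxz ?_
    intro f hf
    exact mix_of_notMem fun h => (VS_sub h).2 hf

end Pool.Agent.Perc.Q

end Partperc3T2Close

section Partperc3T2Base

/-!
# The expected number of alternating triples of strands which cross an annulus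
-/

set_option autoImplicit false

namespace Pool.Agent.Perc.Q

open Finset Pool.Agent.Perc

theorem aT_le (K : ℕ) : ∃ C : ℝ, 0 < C ∧ ∀ d w : ℤ, 1 ≤ d → d < w → w ≤ K * (w - d) →
    aT d w ≤ C := by
  classical
  obtain ⟨C, hC, H⟩ := sum_rea3_le K
  refine ⟨C, hC, fun d w hd hdw hK => le_trans ?_ (H d w hd hdw hK)⟩
  unfold aT
  refine sum_le_sum_of_subset_of_nonneg (fun t ht => ?_) fun _ _ _ => pr_nonneg _ _
  rw [Fintype.mem_piFinset]
  intro i
  rw [mem_Ico]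
  exact (mem_TA.1 ht).mem i

/-- The expected number of triples of strands which cross the annulus of ratio `2`. -/
theorem baseP : BaseP := by
  obtain ⟨C, hC, H⟩ := aT_le 2
  exact ⟨C, hC, fun d w hd _ hw => H d w (by omega) (by omega) (by push_cast; omega)⟩

end Pool.Agent.Perc.Q

end Partperc3T2Base

section Partperc6Theta

/-!
# Tips which are not separated do not go on
-/

set_option autoImplicit false

namespace Pool.Agent.Perc6

open Finset Pool.Agent.Perc Pool.Agent.PercD Pool.Agent.PercL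

namespace ThetaAux

variable {h w cB RB c' R' c R : ℤ}

theorem cyc_lip (hw : 1 ≤ w) (hR : w < R) {s t : ℤ} (h0 : 0 ≤ s) (hst : s ≤ t)
    (h1 : t ≤ len w R) :
    (cyc c h w R t).1 ≤ (cyc c h w R s).1 + (t - s) ∧
      (cyc c h w R s).1 ≤ (cyc c h w R t).1 + (t - s) ∧
      (cyc c h w R t).2 ≤ (cyc c h w R s).2 + (t - s) ∧
      (cyc c h w R s).2 ≤ (cyc c h w R t).2 + (t - s) := by
  unfold len at h1
  unfold cyc
  split_ifs <;> dsimp only <;> omega

theorem cyc_zero (_hR : w < R) : cyc c h w R 0 = (c + R, h + w) := by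
  unfold cyc
  rw [if_pos (by omega)]
  simp

theorem cyc_len (hw : 1 ≤ w) (hR : w < R) : cyc c h w R (len w R) = (c + R, h - w) := by
  unfold cyc len
  rw [if_neg (by omega), if_neg (by omega), if_neg (by omega), if_neg (by omega)]
  refine Prod.ext rfl ?_
  dsimp only
  omega

/-- A common vertex of the slit region of the outer box and of a face between the boxes. -/
theorem exists_cyc (hn' : Nest h w cB RB c' R') (hcR : c + R ≤ c' + R') {g y : ℤ × ℤ}
    (hg : g ∈ Slit h w cB RB c R) (hg' : g ∉ Slit h w cB RB c' R') (hc : IsCor g y)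
    (hy : y ∈ VF (Slit h w cB RB c' R')) : ∃ t, 0 ≤ t ∧ t ≤ len w R' ∧ y = cyc c' h w R' t := by
  obtain ⟨f, ⟨hf1, hf2, hf3⟩, hfc⟩ := hy
  obtain ⟨hg1, hg2, hg3⟩ := hg
  have hg4 : g ∈ BR (c', h) R' := by
    by_contra h1
    refine hg' ⟨hg1, h1, fun h2 => hg3 ?_⟩
    exact ⟨hcR.trans h2.1, h2.2⟩
  have hw := hn'.w1
  have hwR := hn'.wR
  rw [mem_BR] at hf1 hf2 hg4 hg1
  dsimp only at hf1 hf2 hg4 hg1
  unfold IsCor at hc hfc
  have hf3' : ¬ (c' + R' ≤ f.1 ∧ h - w ≤ f.2 ∧ f.2 < h + w) := hf3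
  have hb : OnBd (c' - R') (c' + R') (h - R') (h + R') y := by
    unfold OnBd
    omega
  rcases onBd_cases hw hwR hb with ⟨t, h1, h2, h3⟩ | ⟨h1, h2, h3⟩
  · exact ⟨t, h1, h2, h3⟩
  · exfalso
    omega

/-- A path which leaves a square contains an arm. -/
theorem arm_of_path {col r ρ : ℤ} {x y z : ℤ × ℤ} {η ξ : Cfg} {F : Set (ℤ × ℤ)} (hr : r ≤ ρ)
    (hy : x.1 - r ≤ y.1 ∧ y.1 ≤ x.1 + r ∧ x.2 - r ≤ y.2 ∧ y.2 ≤ x.2 + r)
    (hpar : (y.1 + y.2 - col) % 2 = 0)
    (hz : ¬ (x.1 - ρ < z.1 ∧ z.1 < x.1 + ρ ∧ x.2 - ρ < z.2 ∧ z.2 < x.2 + ρ))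
    (h : Conn η F y z)
    (hξ : ∀ f ∈ F, f ∈ (RF (x.1 - ρ) (x.1 + ρ) (x.2 - ρ) (x.2 + ρ) : Set (ℤ × ℤ)) → η f = ξ f) :
    ξ ∈ ArmB col x r ρ := by
  obtain ⟨v, h1, h2⟩ := Conn.toBd (x₀ := x.1 - ρ) (x₁ := x.1 + ρ) (y₀ := x.2 - ρ)
    (y₁ := x.2 + ρ) h (by omega) (by omega)
  refine ⟨y, v, hy.1, hy.2.1, hy.2.2.1, hy.2.2.2, hpar, h2, ?_⟩
  have h3 : Conn ξ (F ∩ (RF (x.1 - ρ) (x.1 + ρ) (x.2 - ρ) (x.2 + ρ) : Set (ℤ × ℤ))) y v :=
    GridA.conn_congr _ (fun f hf => hξ f hf.1 hf.2) h1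
  exact h3.mono Set.inter_subset_right

/-- A path either leaves a square or it keeps an invariant inside the square. -/
theorem exit_or_inv {x₀ x₁ y₀ y₁ : ℤ} {ω : Cfg} {F : Set (ℤ × ℤ)} {P : ℤ × ℤ → Prop}
    {u z : ℤ × ℤ} (h : Conn ω F u z) (hu : x₀ ≤ u.1 ∧ u.1 ≤ x₁ ∧ y₀ ≤ u.2 ∧ u.2 ≤ y₁) (hP : P u)
    (hstep : ∀ f ∈ F, f ∈ (RF x₀ x₁ y₀ y₁ : Set (ℤ × ℤ)) → ∀ p q, IsCor f p → IsCor f q → P p →
      P q) :
    (∃ v, Conn ω (F ∩ (RF x₀ x₁ y₀ y₁ : Set (ℤ × ℤ))) u v ∧ OnBd x₀ x₁ y₀ y₁ v) ∨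
      (P z ∧ x₀ ≤ z.1 ∧ z.1 ≤ x₁ ∧ y₀ ≤ z.2 ∧ z.2 ≤ y₁) := by
  revert hu hP
  induction h using Relation.ReflTransGen.head_induction_on with
  | refl => exact fun hu hP => Or.inr ⟨hP, hu⟩
  | @head p q hb hq ih =>
    intro hu hP
    by_cases hbd : OnBd x₀ x₁ y₀ y₁ p
    · exact Or.inl ⟨p, Relation.ReflTransGen.refl, hbd⟩
    · obtain ⟨f, hf, hbf, hcp, hcq⟩ := Bond.exists_face hb
      have hfR : f ∈ (RF x₀ x₁ y₀ y₁ : Set (ℤ × ℤ)) := by
        rw [mem_RF']
        unfold OnBd at hbd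
        unfold IsCor at hcp
        omega
      have hqR : x₀ ≤ q.1 ∧ q.1 ≤ x₁ ∧ y₀ ≤ q.2 ∧ q.2 ≤ y₁ := by
        rw [mem_RF'] at hfR
        unfold IsCor at hcq
        omega
      rcases ih hqR (hstep f hf hfR p q hcp hcq hP) with ⟨v, h1, h2⟩ | h1
      · exact Or.inl ⟨v, Relation.ReflTransGen.head (hbf.of_single ⟨hf, hfR⟩) h1, h2⟩
      · exact Or.inr h1

/-- The end of a unit edge of the strand with the parity of `u` is joined to `u`. -/
theorem tip_conn {η : Cfg} {G : Set (ℤ × ℤ)} {e t : UE} {u v : ℤ × ℤ} {Φ : ℤ × ℤ → ZMod 2}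
    (hP : IsPot G (MM η G e) Φ) (he : Joins e u v) (hs : ∃ f ∈ G, IsSide f e)
    (ht : t ∈ MM η G e) (hst : ∃ f ∈ G, IsSide f t) {p q : ℤ × ℤ} (hj : Joins t p q) :
    ∃ z, (z = p ∨ z = q) ∧ Conn η G u z := by
  obtain ⟨f, hf, hft⟩ := hst
  have hfS : f ∈ SS η G e := ⟨hf, t, ht, hft⟩
  by_cases hp : par p = par u
  · have h1 := (hP.mm he ht hj hp).1
    exact ⟨p, Or.inl rfl, (hP.ss_conn he hs hfS (hft.cor_left hj) hp h1).mono SS_sub⟩
  · have hq : par q = par u := by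
      have h1 := hj.par_ne
      rcases par_cases p with h2 | h2 <;> rcases par_cases q with h3 | h3 <;>
        rcases par_cases u with h4 | h4 <;> omega
    have h1 := (hP.mm he ht hj.symm hq).1
    exact ⟨q, Or.inr rfl, (hP.ss_conn he hs hfS (hft.cor_left hj.symm) hq h1).mono SS_sub⟩

/-- The deterministic part, without levels. -/
theorem core {col a μ Ka : ℤ} {κ : ℤ × ℤ} (hn' : Nest h w cB RB c' R')
    (hn : Nest h w cB RB c R) (hκ : κ ∈ KP col cB h w RB) (hwa : w ≤ a) (hKa : 8 * a ≤ Ka)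
    (hKμ : Ka ≤ μ) (hR' : R' = 32 * μ) (h1 : c' - 2 * μ ≤ c - R) (h2 : c + R ≤ c' + 2 * μ)
    (h3 : R ≤ 2 * μ) {ω : Cfg} (hω : ω ∈ Gev h w cB RB c' R' κ)
    (hns : ω ∉ SepEv h w cB RB c' R' a κ) :
    ∃ x : ℤ × ℤ, OnBd (c' - R') (c' + R') (h - R') (h + R') x ∧
      ∀ η ξ : Cfg, (∀ f ∈ S2 ω (Slit h w cB RB c' R') (cycE cB h w RB κ.1) (cycE cB h w RB κ.2),
          η f = ω f) →
        (∀ f ∈ BR (c', h) (64 * μ), f ∉ S2 ω (Slit h w cB RB c' R') (cycE cB h w RB κ.1)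
          (cycE cB h w RB κ.2) → η f = ξ f) →
        η ∈ Gev h w cB RB c R κ →
        ξ ∈ ArmB col x (10 * a) (8 * μ) ∨ ξ ∈ ArmB (col + 1) x (6 * a) Ka ∨
          ξ ∈ ArmB col x (4 * Ka) (8 * μ) := by
  have hw := hn'.w1
  have hwR' := hn'.wR
  obtain ⟨Φ, Ψ, τ, τ', hD, hτ0, hττ, hτl, hM, hM', hΦ, hΨ, -, -⟩ := duo_of_Gev hn' hκ hω
  have hκ' := hκ
  unfold KP at hκ'
  rw [mem_filter, mem_product, mem_Ico, mem_Ico] at hκ'
  obtain ⟨⟨⟨hk1, hk2⟩, hk3, hk4⟩, hk5, hk6, hk7⟩ := hκ'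
  set e := cycE cB h w RB κ.1 with he
  set e' := cycE cB h w RB κ.2 with he'
  set u := cyc cB h w RB (κ.1 + 1) with hu
  set v := cyc cB h w RB κ.1 with hv
  set u' := cyc cB h w RB κ.2 with hu'
  set v' := cyc cB h w RB (κ.2 + 1) with hv'
  have hparu : par u = col := hD.par_eq.trans hk7
  have hcol : col = 0 ∨ col = 1 := by
    rw [← hparu]; exact par_cases u
  have hparv : par v ≠ col := hk6
  have hparv' : par v' ≠ col := by
    rw [← hk7]
    exact hD.je'.par_ne.symm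
  set F := Slit h w cB RB c' R' with hF
  set G := Slit h w cB RB c R with hG
  -- the tips are not separated
  have hns' : ¬ (3 * a ≤ τ ∧ τ + 8 * a ≤ τ' ∧ τ' + 3 * a ≤ len w R') := by
    rintro ⟨a1, a2, a3⟩
    exact hns ⟨τ, τ', a1, a2, a3, (hM τ hτ0 (by omega)).2 rfl, (hM' τ' (by omega) hτl).2 rfl⟩
  -- paths of colour P for the resampled configuration
  have keyP : ∀ η ξ : Cfg, (∀ f ∈ S2 ω F e e', η f = ω f) →
      (∀ f ∈ BR (c', h) (64 * μ), f ∉ S2 ω F e e' → η f = ξ f) → η ∈ Gev h w cB RB c R κ →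
      ∀ (x : ℤ × ℤ) (r : ℤ), OnBd (c' - R') (c' + R') (h - R') (h + R') x → r ≤ 8 * μ →
      (∀ t, τ < t → t ≤ τ' → x.1 - r ≤ (cyc c' h w R' t).1 ∧ (cyc c' h w R' t).1 ≤ x.1 + r ∧
        x.2 - r ≤ (cyc c' h w R' t).2 ∧ (cyc c' h w R' t).2 ≤ x.2 + r) →
      ξ ∈ ArmB col x r (8 * μ) := by
    intro η ξ hη hξ hηG x r hx hr hxt
    obtain ⟨Φ₁, Ψ₁, σ, σ', hD₁, hσ0, hσσ, hσl, hM₁, hM₁', -, -, -, -⟩ := duo_of_Gev hn hκ hηG
    obtain ⟨z, hz, hzc⟩ := tip_conn hD₁.potE hD₁.je hD₁.side ((hM₁ σ hσ0 (by omega)).2 rfl)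
      (bdU_inner hn hσ0 (by omega)).1 (cyc_joins hw hn.wR hσ0 (by omega))
    have hzb : OnBd (c - R) (c + R) (h - R) (h + R) z := by
      rcases hz with rfl | rfl
      · exact cyc_onBd hw hn.wR hσ0 (by omega)
      · exact cyc_onBd hw hn.wR (by omega) (by omega)
    obtain ⟨-, hz1, hz2, hz3, hz4⟩ := hzb
    have hzF : z ∉ VF F := by
      rintro ⟨f, ⟨-, hf2, -⟩, hfc⟩
      apply hf2
      rw [mem_BR]
      unfold IsCor at hfc
      dsimp only
      omega
    obtain ⟨y, hyF, hyΦ, hyΨ, hyp, ⟨g, hgG, hgF, hgc⟩, hyz⟩ := hD.nearP hη hzF hzc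
    obtain ⟨t, ht0, ht1, rfl⟩ := exists_cyc hn' (by omega) hgG hgF hgc hyF
    have ht2 : τ < t := by
      by_contra hcon
      rw [hΦ t ht0 ht1, if_pos (by omega)] at hyΦ
      exact zero_ne_one hyΦ
    have ht3 : t ≤ τ' := by
      by_contra hcon
      rw [hΨ t ht0 ht1, if_neg (by omega)] at hyΨ
      exact one_ne_zero hyΨ
    refine arm_of_path hr (hxt t ht2 ht3) ?_ ?_ hyz ?_
    · rw [hparu] at hyp
      unfold par at hyp
      omega
    · unfold OnBd at hx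
      omega
    · rintro f ⟨hfG, hfS⟩ hfb
      refine hξ f ?_ hfS
      rw [mem_RF'] at hfb
      rw [mem_BR]
      unfold OnBd at hx
      dsimp only
      omega
  by_cases hA : τ' < τ + 8 * a
  · -- close tips
    refine ⟨cyc c' h w R' τ, cyc_onBd hw hwR' hτ0 (by omega), fun η ξ hη hξ hηG => Or.inl ?_⟩
    refine keyP η ξ hη hξ hηG _ _ (cyc_onBd hw hwR' hτ0 (by omega)) (by omega) ?_
    intro t ht1 ht2
    have h4 := cyc_lip (c := c') (h := h) hw hwR' hτ0 ht1.le (by omega : t ≤ len w R')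
    omega
  by_cases hB : τ < 3 * a
  · -- near the upper ray corner
    have hx : OnBd (c' - R') (c' + R') (h - R') (h + R') (cyc c' h w R' 0) :=
      cyc_onBd hw hwR' le_rfl (by unfold len; omega)
    refine ⟨cyc c' h w R' 0, hx, fun η ξ hη hξ hηG => Or.inr ?_⟩
    by_cases hB1 : τ' ≤ Ka
    · refine Or.inr (keyP η ξ hη hξ hηG _ _ hx ?_ ?_)
      · omega
      · intro t ht1 ht2
        have h4 := cyc_lip (c := c') (h := h) hw hwR' le_rfl (by omega : 0 ≤ t)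
          (by omega : t ≤ len w R')
        omega
    · refine Or.inl ?_
      obtain ⟨Φ₁, Ψ₁, σ, σ', hD₁, hσ0, hσσ, hσl, hM₁, hM₁', -, -, -, -⟩ := duo_of_Gev hn hκ hηG
      obtain ⟨z, hz, hzc⟩ := tip_conn hD₁.potE hD₁.je.symm hD₁.side
        ((hM₁ σ hσ0 (by omega)).2 rfl)
        (bdU_inner hn hσ0 (by omega)).1 (cyc_joins hw hn.wR hσ0 (by omega))
      have hzb : OnBd (c - R) (c + R) (h - R) (h + R) z := by
        rcases hz with rfl | rfl
        · exact cyc_onBd hw hn.wR hσ0 (by omega)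
        · exact cyc_onBd hw hn.wR (by omega) (by omega)
      obtain ⟨-, hz1, hz2, hz3, hz4⟩ := hzb
      have hzF : z ∉ VF F := by
        rintro ⟨f, ⟨-, hf2, -⟩, hfc⟩
        apply hf2
        rw [mem_BR]
        unfold IsCor at hfc
        dsimp only
        omega
      obtain ⟨y, z', hyF, hyΦ, hyp, ⟨g, hgG, hgF, hgc⟩, hyz, hz'⟩ := hD.nearD hη hzF hzc
      obtain ⟨t, ht0, ht1, rfl⟩ := exists_cyc hn' (by omega) hgG hgF hgc hyF
      have ht2 : t ≤ τ := by
        by_contra hcon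
        rw [hΦ t ht0 ht1, if_neg (by omega)] at hyΦ
        exact one_ne_zero hyΦ
      have hx0 : cyc c' h w R' 0 = (c' + R', h + w) := cyc_zero (by omega)
      have hyt : cyc c' h w R' t = (c' + R', h + w + t) := by
        unfold cyc
        rw [if_pos (by omega)]
      have hyΨ : Ψ (cyc c' h w R' t) = 0 := by
        rw [hΨ t ht0 ht1, if_pos (by omega)]
      rw [hx0]
      have hexit := exit_or_inv (x₀ := c' + R' - Ka) (x₁ := c' + R' + Ka) (y₀ := h + w - Ka)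
        (y₁ := h + w + Ka) (P := fun p => h + w ≤ p.2 ∧ (p ∈ VF F → Ψ p = 0)) hyz
        (by rw [hyt]; dsimp only; omega)
        ⟨by rw [hyt]; dsimp only; omega, fun _ => hyΨ⟩
        (by
          rintro f ⟨hfG, hfS⟩ hfR p q hcp hcq ⟨hp1, hp2⟩
          rw [mem_RF'] at hfR
          have hfr : ¬ (c + R ≤ f.1 ∧ h - w ≤ f.2 ∧ f.2 < h + w) := hfG.2.2
          have hq2 : h + w ≤ q.2 := by
            unfold IsCor at hcp hcq
            omega
          refine ⟨hq2, fun hqF => ?_⟩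
          by_cases hfF : f ∈ F
          · have h5 := hD.potE'.fresh hfF (fun h6 => hfS (Or.inr h6)) hcp hcq
            rw [← h5]
            exact hp2 ⟨f, hfF, hcp⟩
          · obtain ⟨s, hs0, hs1, rfl⟩ := exists_cyc hn' (by omega) hfG hfF hcq hqF
            have hs2 : s ≤ Ka := by
              unfold IsCor at hcq
              unfold len at hs1
              unfold cyc at hq2 hcq
              split_ifs at hq2 hcq <;> dsimp only at hq2 hcq <;> omega
            rw [hΨ s hs0 hs1, if_pos (by omega)])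
      rcases hexit with ⟨v₁, hv1, hv2⟩ | ⟨⟨hP1, hP2⟩, hb1, hb2, hb3, hb4⟩
      · refine ⟨cyc c' h w R' t, v₁, ?_, ?_, ?_, ?_, ?_, hv2, ?_⟩
        · rw [hyt]; dsimp only; omega
        · rw [hyt]; dsimp only; omega
        · rw [hyt]; dsimp only; omega
        · rw [hyt]; dsimp only; omega
        · rw [← hyp] at hparv
          unfold par at hparv
          omega
        · refine (GridA.conn_congr _ ?_ hv1).mono Set.inter_subset_right
          rintro f ⟨⟨hfG, hfS⟩, hfb⟩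
          refine hξ f ?_ hfS
          rw [mem_RF'] at hfb
          rw [mem_BR]
          dsimp only
          omega
      · exfalso
        rcases hz' with rfl | ⟨h5, h6⟩
        · omega
        · rw [hP2 h5] at h6
          exact zero_ne_one h6
  · -- near the lower ray corner
    have hl : len w R' = 8 * R' - 2 * w := rfl
    have hx : OnBd (c' - R') (c' + R') (h - R') (h + R') (cyc c' h w R' (len w R')) :=
      cyc_onBd hw hwR' (by omega) le_rfl
    refine ⟨cyc c' h w R' (len w R'), hx, fun η ξ hη hξ hηG => Or.inr ?_⟩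
    by_cases hC1 : len w R' - τ ≤ Ka
    · refine Or.inr (keyP η ξ hη hξ hηG _ _ hx ?_ ?_)
      · omega
      · intro t ht1 ht2
        have h4 := cyc_lip (c := c') (h := h) hw hwR' (by omega : 0 ≤ t)
          (by omega : t ≤ len w R') le_rfl
        omega
    · refine Or.inl ?_
      obtain ⟨Φ₁, Ψ₁, σ, σ', hD₁, hσ0, hσσ, hσl, hM₁, hM₁', -, -, -, -⟩ := duo_of_Gev hn hκ hηG
      obtain ⟨z, hz, hzc⟩ := tip_conn hD₁.potE' hD₁.je'.symm hD₁.side'
        ((hM₁' σ' (by omega) hσl).2 rfl)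
        (bdU_inner hn (by omega) hσl).1 (cyc_joins hw hn.wR (by omega) hσl)
      have hzb : OnBd (c - R) (c + R) (h - R) (h + R) z := by
        rcases hz with rfl | rfl
        · exact cyc_onBd hw hn.wR (by omega) (by omega)
        · exact cyc_onBd hw hn.wR (by omega) (by omega)
      obtain ⟨-, hz1, hz2, hz3, hz4⟩ := hzb
      have hzF : z ∉ VF F := by
        rintro ⟨f, ⟨-, hf2, -⟩, hfc⟩
        apply hf2
        rw [mem_BR]
        unfold IsCor at hfc
        dsimp only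
        omega
      obtain ⟨y, z', hyF, hyΨ, hyp, ⟨g, hgG, hgF, hgc⟩, hyz, hz'⟩ := hD.nearD' hη hzF hzc
      obtain ⟨t, ht0, ht1, rfl⟩ := exists_cyc hn' (by omega) hgG hgF hgc hyF
      have ht2 : τ' < t := by
        by_contra hcon
        rw [hΨ t ht0 ht1, if_pos (by omega)] at hyΨ
        exact zero_ne_one hyΨ
      have hx0 : cyc c' h w R' (len w R') = (c' + R', h - w) := cyc_len hw (by omega)
      have hyt : cyc c' h w R' t = (c' + R', h - 8 * R' + w + t) := by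
        unfold cyc
        rw [if_neg (by omega), if_neg (by omega), if_neg (by omega), if_neg (by omega)]
      have hyΦ : Φ (cyc c' h w R' t) = 1 := by
        rw [hΦ t ht0 ht1, if_neg (by omega)]
      rw [hx0]
      have hexit := exit_or_inv (x₀ := c' + R' - Ka) (x₁ := c' + R' + Ka) (y₀ := h - w - Ka)
        (y₁ := h - w + Ka) (P := fun p => p.2 ≤ h - w ∧ (p ∈ VF F → Φ p = 1)) hyz
        (by rw [hyt]; dsimp only; omega)
        ⟨by rw [hyt]; dsimp only; omega, fun _ => hyΦ⟩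
        (by
          rintro f ⟨hfG, hfS⟩ hfR p q hcp hcq ⟨hp1, hp2⟩
          rw [mem_RF'] at hfR
          have hfr : ¬ (c + R ≤ f.1 ∧ h - w ≤ f.2 ∧ f.2 < h + w) := hfG.2.2
          have hq2 : q.2 ≤ h - w := by
            unfold IsCor at hcp hcq
            omega
          refine ⟨hq2, fun hqF => ?_⟩
          by_cases hfF : f ∈ F
          · have h5 := hD.potE.fresh hfF (fun h6 => hfS (Or.inl h6)) hcp hcq
            rw [← h5]
            exact hp2 ⟨f, hfF, hcp⟩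
          · obtain ⟨s, hs0, hs1, rfl⟩ := exists_cyc hn' (by omega) hfG hfF hcq hqF
            have hs2 : len w R' - Ka ≤ s := by
              unfold IsCor at hcq
              unfold len at hs1 ⊢
              unfold cyc at hq2 hcq
              split_ifs at hq2 hcq <;> dsimp only at hq2 hcq <;> omega
            rw [hΦ s hs0 hs1, if_neg (by omega)])
      rcases hexit with ⟨v₁, hv1, hv2⟩ | ⟨⟨hP1, hP2⟩, hb1, hb2, hb3, hb4⟩
      · refine ⟨cyc c' h w R' t, v₁, ?_, ?_, ?_, ?_, ?_, hv2, ?_⟩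
        · rw [hyt]; dsimp only; omega
        · rw [hyt]; dsimp only; omega
        · rw [hyt]; dsimp only; omega
        · rw [hyt]; dsimp only; omega
        · rw [← hyp] at hparv
          unfold par at hparv
          omega
        · refine (GridA.conn_congr _ ?_ hv1).mono Set.inter_subset_right
          rintro f ⟨⟨hfG, hfS⟩, hfb⟩
          refine hξ f ?_ hfS
          rw [mem_RF'] at hfb
          rw [mem_BR]
          dsimp only
          omega
      · exfalso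
        rcases hz' with rfl | ⟨h5, h6⟩
        · omega
        · rw [hP2 h5] at h6
          exact one_ne_zero h6

/-- Powers of small ratios. -/
theorem exists_ratio {C β θ : ℝ} (hC : 0 < C) (hβ : 0 < β) (hθ : 0 < θ) {b : ℝ} (hb : 0 ≤ b) :
    ∃ n₀ : ℤ, 1 ≤ n₀ ∧ ∀ n : ℤ, n₀ ≤ n → ∀ t : ℝ, 0 ≤ t → t ≤ b / n → C * t ^ β ≤ θ := by
  set y : ℝ := (θ / C) ^ (1 / β) with hy
  have hy0 : 0 < y := by positivity
  refine ⟨max 1 ⌈b / y⌉, le_max_left _ _, fun n hn t ht0 ht => ?_⟩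
  have hn1 : (1 : ℝ) ≤ n := by
    have h1 := (le_max_left _ _).trans hn
    exact_mod_cast h1
  have hn2 : b / y ≤ n := by
    have h1 := (le_max_right _ _).trans hn
    exact (Int.le_ceil _).trans (by exact_mod_cast h1)
  have h2 : b / n ≤ y := by
    rw [div_le_iff₀ hy0] at hn2
    rw [div_le_iff₀ (by linarith)]
    linarith
  have h3 : t ^ β ≤ y ^ β := Real.rpow_le_rpow ht0 (ht.trans h2) hβ.le
  have h4 : y ^ β = θ / C := by
    rw [hy, ← Real.rpow_mul (by positivity), one_div, inv_mul_cancel₀ hβ.ne', Real.rpow_one]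
  rw [h4] at h3
  calc C * t ^ β ≤ C * (θ / C) := mul_le_mul_of_nonneg_left h3 hC.le
    _ = θ := by field_simp

end ThetaAux

/-- Deterministic part: if the tips at the box of `(j + 1, i')` are not separated and the two
strands reach the box of the child then there is an arm in the faces which are not revealed.
`a` = mesh of level `j + 1`, `K` an intermediate number: the arms are
(1) colour P from radius `10 a` around a point of the boundary of the box to radius `8 μ`;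
(2) colour D from radius `4 a` around a point next to the ray to radius `K a`;
(3) colour P from radius `4 K a` around a point next to the ray to radius `8 μ`.
The centres `x` belong to a set of three points which depends only on the revealed faces. -/
theorem theta_det {g : Geo} (hg : g.Ok) {s A : ℝ} {j : ℕ} (hj : j + 1 < g.m) {i : ℤ}
    (hi : i ∈ g.Is j) {k : ℤ × ℤ} (hk : k ∈ g.K) {K : ℤ} (hK : 8 ≤ K) (hKN : K ≤ g.N)
    {ω : Cfg} (hω : ω ∈ g.G (j + 1) (g.anc j i (j + 1)) k)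
    (hns : ω ∉ g.Sep (j + 1) (g.anc j i (j + 1)) k) :
    ∃ x : ℤ × ℤ, OnBd (g.cen (j + 1) (g.anc j i (j + 1)) - 32 * g.μ (j + 1))
        (g.cen (j + 1) (g.anc j i (j + 1)) + 32 * g.μ (j + 1)) (g.h - 32 * g.μ (j + 1))
        (g.h + 32 * g.μ (j + 1)) x ∧
      ∀ ξ : Cfg, mixC (g.St ω (j + 1) (g.anc j i (j + 1)) k) ω ξ ∈ g.G j i k →
        ξ ∈ ArmB g.col x (10 * g.a (j + 1)) (8 * g.μ (j + 1)) ∨
        ξ ∈ ArmB (g.col + 1) x (6 * g.a (j + 1)) (K * g.a (j + 1)) ∨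
        ξ ∈ ArmB g.col x (4 * K * g.a (j + 1)) (8 * g.μ (j + 1)) := by
  have hi' : g.anc j i (j + 1) ∈ g.Is (j + 1) := hg.anc_mem (by omega) (by omega) hi
  have ha := hg.a_pos (j + 1)
  have hμe := g.μ_eq (j + 1)
  have hcen := hg.cen_anc (by omega : j ≤ j + 1) i
  have hμl := hg.μ_lt (by omega : j < j + 1)
  have hμ1 := hg.μ_pos j
  have ha0 := hg.a_pos j
  have hKa : 8 * g.a (j + 1) ≤ K * g.a (j + 1) := by nlinarith
  have hKμ : K * g.a (j + 1) ≤ g.μ (j + 1) := by rw [hμe]; nlinarith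
  obtain ⟨x, hx, hmain⟩ := ThetaAux.core (col := g.col) (a := g.a (j + 1)) (μ := g.μ (j + 1))
    (Ka := K * g.a (j + 1)) (κ := k) (hg.nest hj hi') (hg.nest (by omega : j < g.m) hi) hk
    (hg.w_le (j + 1)) hKa hKμ rfl (by linarith) (by linarith) (by linarith) hω hns
  refine ⟨x, hx, fun ξ hξ => ?_⟩
  have h4 : 4 * K * g.a (j + 1) = 4 * (K * g.a (j + 1)) := by ring
  rw [h4]
  refine hmain _ ξ (fun f hf => ?_) (fun f hf hfS => ?_) hξ
  · exact if_pos (Or.inl hf)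
  · exact if_neg fun h => hfS (Geo.St_near hg hj hi' hf h)

namespace ThetaAux

/-- The squares around the boundary points of a box are inside the large box. -/
theorem qf_sub {g : Geo} (hg : g.Ok) {j : ℕ} (hj : j + 1 < g.m) {i : ℤ} (hi : i ∈ g.Is j)
    {x : ℤ × ℤ} (hx : OnBd (g.cen (j + 1) (g.anc j i (j + 1)) - 32 * g.μ (j + 1))
        (g.cen (j + 1) (g.anc j i (j + 1)) + 32 * g.μ (j + 1)) (g.h - 32 * g.μ (j + 1))
        (g.h + 32 * g.μ (j + 1)) x) {r : ℤ} (hr : r ≤ 8 * g.μ (j + 1)) : QF x r ⊆ g.B := by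
  have hi' : g.anc j i (j + 1) ∈ g.Is (j + 1) := hg.anc_mem (by omega) (by omega) hi
  have h0 : g.anc (j + 1) (g.anc j i (j + 1)) g.m ∈ g.Is g.m :=
    hg.anc_mem (by omega) (by omega) hi'
  have h00 : g.anc (j + 1) (g.anc j i (j + 1)) g.m = 0 := by
    unfold Geo.Is at h0
    rw [Nat.sub_self, pow_zero, mem_Ico] at h0
    omega
  have hcen := hg.cen_anc (by omega : j + 1 ≤ g.m) (g.anc j i (j + 1))
  rw [h00] at hcen
  have hμl := hg.μ_lt hj
  have hμ1 := hg.μ_pos (j + 1)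
  have ha0 := hg.a_pos (j + 1)
  intro f hf
  unfold QF at hf
  rw [mem_RFi] at hf
  unfold Geo.B
  rw [mem_BR]
  unfold OnBd at hx
  unfold Geo.cB Geo.RB
  dsimp only
  omega

end ThetaAux

/-- (T2) The theta lemma. -/
theorem theta_step {θ : ℝ} (hθ : 0 < θ) : ∃ N₀ : ℤ, ∀ g : Geo, g.Ok → N₀ ≤ g.N →
    ∀ (s A : ℝ) (W : Finset (ℤ × ℤ)), g.B ⊆ W → ∀ (j : ℕ), j + 1 < g.m → ∀ i ∈ g.Is j,
      ∀ k ∈ g.K, pr W (g.G j i k ∩ g.NS s A j i k) ≤
        pr W (g.G (j + 1) (g.anc j i (j + 1)) k ∩ g.NS s A (j + 1) (g.anc j i (j + 1)) k ∩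
          g.Sep (j + 1) (g.anc j i (j + 1)) k) +
        θ * pr W (g.G (j + 1) (g.anc j i (j + 1)) k ∩ g.NS s A (j + 1) (g.anc j i (j + 1)) k) := by
  obtain ⟨C, β, hC, hβ, harm⟩ := oneArm_le
  have hθ3 : 0 < θ / 3 := by positivity
  obtain ⟨n₁, -, hn₁⟩ := ThetaAux.exists_ratio hC hβ hθ3 (b := 10 / 8) (by norm_num)
  obtain ⟨K₀, hK₀1, hK₀⟩ := ThetaAux.exists_ratio hC hβ hθ3 (b := 6) (by norm_num)
  set K : ℤ := max 8 K₀ with hKdef
  have hK8 : 8 ≤ K := le_max_left _ _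
  have hKr : (8 : ℝ) ≤ K := by exact_mod_cast hK8
  obtain ⟨n₂, -, hn₂⟩ := ThetaAux.exists_ratio hC hβ hθ3 (b := (K : ℝ) / 2) (by positivity)
  refine ⟨max K (max n₁ n₂), fun g hg hN s A W hW j hj i hi k hk => ?_⟩
  have hNK : K ≤ g.N := (le_max_left _ _).trans hN
  have hN1 : n₁ ≤ g.N := ((le_max_left _ _).trans (le_max_right _ _)).trans hN
  have hN2 : n₂ ≤ g.N := ((le_max_right _ _).trans (le_max_right _ _)).trans hN
  have ha := hg.a_pos (j + 1)
  have hμe := g.μ_eq (j + 1)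
  have haR : (1 : ℝ) ≤ g.a (j + 1) := by exact_mod_cast ha
  have hNR : (8 : ℝ) ≤ g.N := by exact_mod_cast hg.N8
  have hNKR : (K : ℝ) ≤ g.N := by exact_mod_cast hNK
  have hμR : (g.μ (j + 1) : ℝ) = g.N * g.a (j + 1) := by
    rw [hμe]
    push_cast
    ring
  set i' := g.anc j i (j + 1) with hi'
  set A₁ : Set Cfg := g.G (j + 1) i' k ∩ g.NS s A (j + 1) i' k ∩ (g.Sep (j + 1) i' k)ᶜ with hA₁
  have key : pr W (A₁ ∩ (g.G j i k ∩ g.NS s A j i k)) ≤ θ * pr W A₁ := by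
    refine PercT.pr_mix_le (S := fun ω => g.St ω (j + 1) i' k)
      (fun ω ω' h => Geo.st_congr h) (A := A₁) ?_
      (fun ω => {ξ | mixC (g.St ω (j + 1) i' k) ω ξ ∈ g.G j i k}) _ ?_ ?_
    · rintro ω ⟨⟨h1, h2⟩, h3⟩ ω' h
      refine ⟨⟨Geo.G_congr h h1, Geo.NS_congr hg h h2⟩, fun h4 => h3 ?_⟩
      refine Geo.Sep_congr (ω := ω') (fun f hf => ?_) h4
      rw [Geo.st_congr h] at hf
      exact (h f hf).symm
    · rintro ω ⟨⟨h1, h2⟩, h3⟩
      obtain ⟨x, hx, hmain⟩ := theta_det hg (s := s) (A := A) hj hi hk hK8 hNK h1 h3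
      have hsub : {ξ | mixC (g.St ω (j + 1) i' k) ω ξ ∈ g.G j i k} ⊆
          ArmB g.col x (10 * g.a (j + 1)) (8 * g.μ (j + 1)) ∪
            (ArmB (g.col + 1) x (6 * g.a (j + 1)) (K * g.a (j + 1)) ∪
              ArmB g.col x (4 * K * g.a (j + 1)) (8 * g.μ (j + 1))) := fun ξ hξ => hmain ξ hξ
      have hKa : 8 * g.a (j + 1) ≤ K * g.a (j + 1) := by nlinarith
      have hKμ : K * g.a (j + 1) ≤ g.μ (j + 1) := by rw [hμe]; nlinarith
      have hNa : 8 * g.a (j + 1) ≤ g.μ (j + 1) := by rw [hμe]; nlinarith [hg.N8]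
      have e1 := harm g.col x (10 * g.a (j + 1)) (8 * g.μ (j + 1)) (by omega) (by omega) W
        ((ThetaAux.qf_sub hg hj hi hx le_rfl).trans hW)
      have e2 := harm (g.col + 1) x (6 * g.a (j + 1)) (K * g.a (j + 1)) (by omega) (by omega) W
        ((ThetaAux.qf_sub hg hj hi hx (by omega)).trans hW)
      have e3 := harm g.col x (4 * K * g.a (j + 1)) (8 * g.μ (j + 1)) (by nlinarith)
        (by nlinarith) W ((ThetaAux.qf_sub hg hj hi hx le_rfl).trans hW)
      have f1 : C * (((10 * g.a (j + 1) : ℤ) : ℝ) / (8 * g.μ (j + 1) : ℤ)) ^ β ≤ θ / 3 := by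
        refine hn₁ g.N hN1 _ (by push_cast; rw [hμR]; positivity) (le_of_eq ?_)
        push_cast
        rw [hμR]
        field_simp
      have f2 : C * (((6 * g.a (j + 1) : ℤ) : ℝ) / (K * g.a (j + 1) : ℤ)) ^ β ≤ θ / 3 := by
        refine hK₀ K (le_max_right _ _) _ (by push_cast; positivity) (le_of_eq ?_)
        push_cast
        field_simp
      have f3 : C * (((4 * K * g.a (j + 1) : ℤ) : ℝ) / (8 * g.μ (j + 1) : ℤ)) ^ β ≤ θ / 3 := by
        refine hn₂ g.N hN2 _ (by push_cast; rw [hμR]; positivity) (le_of_eq ?_)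
        push_cast
        rw [hμR]
        field_simp
        ring
      have u1 := pr_mono W hsub
      have u2 := pr_union_le W (ArmB g.col x (10 * g.a (j + 1)) (8 * g.μ (j + 1)))
        (ArmB (g.col + 1) x (6 * g.a (j + 1)) (K * g.a (j + 1)) ∪
              ArmB g.col x (4 * K * g.a (j + 1)) (8 * g.μ (j + 1)))
      have u3 := pr_union_le W (ArmB (g.col + 1) x (6 * g.a (j + 1)) (K * g.a (j + 1)))
              (ArmB g.col x (4 * K * g.a (j + 1)) (8 * g.μ (j + 1)))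
      linarith
    · rintro ω - ξ ⟨h4, -⟩
      exact h4
  have hsub : g.G j i k ∩ g.NS s A j i k ⊆
      (g.G (j + 1) i' k ∩ g.NS s A (j + 1) i' k ∩ g.Sep (j + 1) i' k) ∪
        (A₁ ∩ (g.G j i k ∩ g.NS s A j i k)) := by
    rintro ω ⟨h1, h2⟩
    have h3 := Geo.G_mono hg hj hi hk h1
    have h4 := Geo.NS_mono hg h2
    by_cases h5 : ω ∈ g.Sep (j + 1) i' k
    · exact Or.inl ⟨⟨h3, h4⟩, h5⟩
    · exact Or.inr ⟨⟨⟨h3, h4⟩, h5⟩, h1, h2⟩
  have v1 := pr_mono W hsub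
  have v2 := pr_union_le W (g.G (j + 1) i' k ∩ g.NS s A (j + 1) i' k ∩ g.Sep (j + 1) i' k)
    (A₁ ∩ (g.G j i k ∩ g.NS s A j i k))
  have v3 : pr W A₁ ≤ pr W (g.G (j + 1) i' k ∩ g.NS s A (j + 1) i' k) :=
    pr_mono W Set.inter_subset_left
  nlinarith

end Pool.Agent.Perc6

end Partperc6Theta

section PartoccXZ

/-!
# Row XZ: the lower bound in the square grid from the lower bound in the twisted plane
-/

set_option autoImplicit false

namespace Pool.Agent.Occ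

open Finset Pool.Agent.Perc Pool.Agent.Perc.Q Pool.Agent.Perc3

/-- The additional conditions are determined by the visited faces. -/
theorem detBy_AX (A g d w n ya yb : ℤ) :
    DetBy (fun ζ => SL ζ (LAT d w n) (ST w ya (4 * w + 1 - yb) 0))
      {ζ | AX ζ A g d w n ya yb} := by
  have key : ∀ ζ ζ' : LF → Bool,
      (∀ s ∈ SL ζ (LAT d w n) (ST w ya (4 * w + 1 - yb) 0), ζ s = ζ' s) →
      AX ζ A g d w n ya yb → AX ζ' A g d w n ya yb := by
    intro ζ ζ' h H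
    have h0 : SL ζ' (LAT d w n) ({eR w ya} ∪ {eLf w yb}) =
        SL ζ (LAT d w n) ({eR w ya} ∪ {eLf w yb}) := stopping_SL _ _ ζ ζ' h
    have h1 : ML ζ' (LAT d w n) {eR w ya} = ML ζ (LAT d w n) {eR w ya} :=
      ML_eq fun s hs => h s (by
        change s ∈ SL ζ (LAT d w n) ({eR w ya} ∪ {eLf w yb})
        simp only [SL_union]
        exact Or.inl hs)
    have h2 : ML ζ' (LAT d w n) {eLf w yb} = ML ζ (LAT d w n) {eLf w yb} :=
      ML_eq fun s hs => h s (by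
        change s ∈ SL ζ (LAT d w n) ({eR w ya} ∪ {eLf w yb})
        simp only [SL_union]
        exact Or.inr hs)
    refine ⟨?_, ?_, ?_, ?_, ?_, ?_⟩
    · rw [h1]; exact H.ne
    · rw [h1]; exact H.away₁
    · rw [h2]; exact H.away₂
    · rw [h1, h2]; exact H.near
    · rw [h0]; exact H.ball₁
    · rw [h0]; exact H.ball₂
  intro ζ ζ' h
  refine ⟨key ζ ζ' h, key ζ' ζ fun s hs => ?_⟩
  have h0 : SL ζ' (LAT d w n) (ST w ya (4 * w + 1 - yb) 0) =
      SL ζ (LAT d w n) (ST w ya (4 * w + 1 - yb) 0) := stopping_SL _ _ ζ ζ' h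
  have hs' : s ∈ SL ζ (LAT d w n) (ST w ya (4 * w + 1 - yb) 0) := h0 ▸ hs
  exact (h s hs').symm

/-- The probabilities of `PX` in the square grid and in the twisted plane. -/
theorem pr_PX_eq {N A Ni Ai σ : ℤ} {m : ℕ} {ya yb : ℤ} (hσ : 16 * (m + 7) ≤ σ)
    (hd : 3 * σ ≤ Ni * Ai) {W : Finset (ℤ × ℤ)}
    (hW : RF (-(N * A + 2 * m + 14)) (N * A + 2 * m + 12) (-(N * A)) (N * A) ⊆ W) :
    pr W {ω | lcf 0 ω ∈ PX N A Ni Ai σ m ya yb} =
      pr (BW (N * A)) {ω | lcf 1 ω ∈ PX N A Ni Ai σ m ya yb} := by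
  refine pr_pairT_eq (L := N * A + σ) (d₀ := Ni * Ai - σ) (d := Ni * Ai) (w := N * A)
    (n := 2 * m + 12) (D := σ) (m := m) (t₁ := ya) (t₂ := 4 * (N * A) + 1 - yb) (ε := 0)
    (by omega) (by omega) (by omega) (by omega) (by omega)
    (detBy_AX A (20 * Ai) (Ni * Ai) (N * A) (2 * m + 12) ya yb) ?_ subset_rfl
  intro s hs
  refine hW ?_
  obtain ⟨⟨h1, h2⟩, h3⟩ := mem_LAT.1 hs
  rw [mem_BW] at h1
  unfold pj at h1 ⊢
  rw [abs_le] at h3
  rw [mem_RF]
  simp only [one_mul, zero_mul, add_zero] at h1 ⊢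
  omega

/-- XZ -/
theorem zLow (h : TTLow) : ZLow := by
  obtain ⟨N, Ni, c, hc, hN, hNi, h⟩ := h
  refine ⟨N, Ni, c, hc, hN, hNi, fun K => ?_⟩
  obtain ⟨Q, m, a₀, hQ, h⟩ := h K
  refine ⟨Q, m, a₀, hQ, fun A Ai h1 h2 h3 => ?_⟩
  obtain ⟨h4, h5⟩ := h A Ai h1 h2 h3
  refine ⟨h4, fun W hW => ?_⟩
  refine h5.trans (le_of_eq (Finset.sum_congr rfl fun p _ => ?_))
  refine (pr_PX_eq ?_ ?_ hW).symm
  · exact_mod_cast h4
  · have h6 : 3 * (Ai / Q) ≤ Ni * Ai := by
      have h7 : Ai / Q ≤ Ai := Nat.div_le_self _ _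
      nlinarith
    exact_mod_cast h6

end Pool.Agent.Occ

end PartoccXZ
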