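import Pool.Agent.Lib.MP_6bd702_zc.Pre
import Pool.Agent.Lib.MP_6bd702_zc.Y017
import Pool.Agent.Lib.MP_6bd702_zc.Y024
import Pool.Agent.Lib.MP_6bd702_zc.Y003
import Pool.Agent.Lib.MP_6bd702_z.Z091
import Pool.Agent.Lib.MP_6bd702_zc.Y010
import Pool.Agent.Lib.MP_6bd702_zc.Y007
import Pool.Agent.Lib.MP_6bd702_z.Z020

section Parth60C1Bridge

/-!
# The upper bound C1 from the bound in the grid with a dislocation
-/

set_option autoImplicit false

namespace Pool.Agent.PercS5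

open Relation Filter Topology
open Pool.Agent.Perc Pool.Agent.Perc3 Pool.Agent.PercD
open Pool.Agent.MP_6bd702.H23 (Ed)
open Pool.Agent.PercU (Cor vtx fce)
open Pool.Agent.PercO (Orb Oc mem_Oc)
open Pool.Agent.PercX60 (dB TA Sn gV gF)
open Pool.Agent.PercW (kap ua_kap joins_kap)

/-- The bound for the pairs of strands in the grid with a dislocation. -/
def TTBound : Prop := ∃ (A : ℤ) (C : ℝ), 0 < C ∧ ∀ L w d N : ℤ, 1 < d → 1 ≤ N → N + 2 ≤ d →
  A * d < w → w ≤ L →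
    ∑ p ∈ ((TBF L w ×ˢ TBF L w).filter fun p => p.1 ≠ p.2) ×ˢ ({-1, 0, 1} : Finset ℤ),
      pr (RF (-L - N) (L + N) (-w) w) {ω | lcf 1 ω ∈ PairL L w d N 2 p.1.1 p.1.2 p.2} ≤
    C * ((d : ℝ) / w) ^ (2 / 3 : ℝ)

variable {ω ω' : Cfg} {c : ℤ × ℤ} {d X L w D : ℤ} {e : UE}

/-! ### Dependence on the faces -/

theorem depOn_Lat (c : ℤ × ℤ) (d X L w : ℤ) : DepOn (RL c L w : Set (ℤ × ℤ)) (Lat c d X L w) := by
  intro ω ω' h
  unfold Lat
  rw [Set.mem_ofPred_eq, Set.mem_ofPred_eq]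
  refine exists_congr fun e => and_congr_right fun _ => ?_
  rw [MM_congr' (ω := ω) (ω' := ω') h]

theorem depOn_CorrU (L w d D : ℤ) (M : ℕ) :
    DepOn (RF (-L) L (-w) w : Set (ℤ × ℤ)) (CorrU L w d D M) := by
  intro ω ω' h
  have h1 : ∀ f ∈ (AnF L w d : Set (ℤ × ℤ)), ω f = ω' f := fun f hf => h f (by
    rw [Finset.mem_coe, mem_AnF] at hf
    rw [mem_RF']
    exact hf.1)
  have hM : ∀ b, MM ω' (AnF L w d) b = MM ω (AnF L w d) b := fun b => MM_congr' h1
  have hS : ∀ b, SS ω' (AnF L w d) b = SS ω (AnF L w d) b := fun b => by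
    unfold SS
    rw [hM]
  unfold CorrU CorrEv Rin
  simp only [Set.mem_ofPred_eq, hM, hS]

theorem CorrU_mono {M M' : ℕ} (h : M ≤ M') : CorrU L w d D M ⊆ CorrU L w d D M' := by
  rintro ω ⟨b, hb, b', hb', hne, h1, h2, u, l, h3, h4, h5⟩
  exact ⟨b, hb, b', hb', hne, h1, h2, u, l, h3, h4.trans h, h5⟩

theorem corN_mono {p p' : ℕ} (h : p ≤ p') : corN p ≤ corN p' := by
  unfold corN
  have : 2 ^ p ≤ 2 ^ p' := Nat.pow_le_pow_right (by norm_num) h
  gcongr

/-- The probability of the shifted event. -/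
theorem pr_shift_CorrU (c : ℤ × ℤ) (L w d D : ℤ) (M : ℕ) :
    pr (RL c L w) {ω | shiftC c.1 c.2 ω ∈ CorrU L w d D M} =
      pr (RF (-L) L (-w) w) (CorrU L w d D M) := by
  refine TwoArm.pr_shift (depOn_CorrU L w d D M) c.1 c.2 ?_
  intro f hf
  rw [Perc.mem_RF] at hf
  rw [mem_RL]
  simp only
  omega

theorem depOn_shift_CorrU (c : ℤ × ℤ) (L w d D : ℤ) (M : ℕ) :
    DepOn (RL c L w : Set (ℤ × ℤ)) {ω | shiftC c.1 c.2 ω ∈ CorrU L w d D M} := by
  intro ω ω' h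
  refine depOn_CorrU L w d D M _ _ fun f hf => ?_
  refine h _ ?_
  rw [mem_RF'] at hf
  rw [Finset.mem_coe, mem_RL]
  simp only
  omega

theorem depOn_union {S : Set (ℤ × ℤ)} {A B : Set Cfg} (hA : DepOn S A) (hB : DepOn S B) :
    DepOn S (A ∪ B) := fun ω ω' h => or_congr (hA ω ω' h) (hB ω ω' h)

/-- The probability of the two strands with a corridor. -/
theorem pr_CorrU {A : ℤ} {C : ℝ} (hC : ∀ L w d N : ℤ, 1 < d → 1 ≤ N → N + 2 ≤ d →
    A * d < w → w ≤ L →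
    ∑ p ∈ ((TBF L w ×ˢ TBF L w).filter fun p => p.1 ≠ p.2) ×ˢ ({-1, 0, 1} : Finset ℤ),
      pr (RF (-L - N) (L + N) (-w) w) {ω | lcf 1 ω ∈ PairL L w d N 2 p.1.1 p.1.2 p.2} ≤
    C * ((d : ℝ) / w) ^ (2 / 3 : ℝ)) {M : ℕ} (hM : 4 * ((M : ℤ) + 6) ≤ d) (hA : A * d < w)
    (hdw : d < w) (hwL : w ≤ L) :
    pr (RF (-L) L (-w) w) (CorrU L w d (8 * (M + 6)) M) ≤ C * ((d : ℝ) / w) ^ (2 / 3 : ℝ) :=
  (pr_pairs_le (k := 2) (n := 2 * (M + 6)) (D := 8 * (M + 6)) (by omega) hdw (by omega) (by omega)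
    (by omega) (by norm_num) le_rfl (by omega)).trans
    (hC L w d (2 * (M + 6)) (by omega) (by omega) (by omega) hA hwL)

/-- The bound for one annulus. -/
theorem pr_annulus {A : ℤ} {C θ : ℝ} (hC : ∀ L w d N : ℤ, 1 < d → 1 ≤ N → N + 2 ≤ d →
    A * d < w → w ≤ L →
    ∑ p ∈ ((TBF L w ×ˢ TBF L w).filter fun p => p.1 ≠ p.2) ×ˢ ({-1, 0, 1} : Finset ℤ),
      pr (RF (-L - N) (L + N) (-w) w) {ω | lcf 1 ω ∈ PairL L w d N 2 p.1.1 p.1.2 p.2} ≤
    C * ((d : ℝ) / w) ^ (2 / 3 : ℝ))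
    (hθ : ∀ (c : ℤ × ℤ) (d X L w : ℤ) (N : ℕ), 0 < w →
      d + 2 * w * N ≤ X → X ≤ L → 0 ≤ d → pr (RL c L w) (Lat c d X L w) ≤ 4 * θ ^ N)
    {M N : ℕ} (c : ℤ × ℤ) (hM : 4 * ((M : ℤ) + 6) ≤ d) (hA : A * d < w)
    (hdw : d < w) (hwL : w ≤ L) (hN : d + 2 * w * N ≤ L) :
    pr (RL c L w) (Lat c d L L w ∪ {ω | shiftC c.1 c.2 ω ∈ CorrU L w d (8 * (M + 6)) M}) ≤
      4 * θ ^ N + C * ((d : ℝ) / w) ^ (2 / 3 : ℝ) := by
  refine (pr_union_le _ _ _).trans (add_le_add ?_ ?_)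
  · exact hθ c d L L w N (by omega) hN le_rfl (by omega)
  · rw [pr_shift_CorrU]
    exact pr_CorrU hC hM hA hdw hwL

/-- Squares far away are outside the rectangle. -/
theorem out_far {n q : ℕ} {v₀ : ℤ × ℤ} {L w : ℤ} (hn0 : (0 : ℝ) < n)
    (h1 : (0 : ℝ) ≤ v₀.1) (h2 : (v₀.1 : ℝ) ≤ n) (h3 : (0 : ℝ) ≤ v₀.2) (h4 : (v₀.2 : ℝ) ≤ n)
    (hL : (L : ℝ) + 1 ≤ n / 2) (hwL : w ≤ L) {b : ℤ × ℤ} (hb : Far q b) :
    ¬ (|(gc n q (phiV v₀) b).1| ≤ L ∧ |(gc n q (phiV v₀) b).2| ≤ w) := by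
  rintro ⟨k1, k2⟩
  have hQ : (0 : ℝ) < 2 ^ q := by positivity
  have hc1 : ((phiV v₀).1 : ℝ) = v₀.1 + v₀.2 := by simp [phiV]
  have hc2 : ((phiV v₀).2 : ℝ) = v₀.1 - v₀.2 := by simp [phiV]
  have k3 : |(((gp n q b).1 : ℤ) : ℝ) - (phiV v₀).1| ≤ L := by
    have : |(gp n q b).1 - (phiV v₀).1| ≤ L := k1
    exact_mod_cast this
  have k4 : |(((gp n q b).2 : ℤ) : ℝ) - (phiV v₀).2| ≤ L := by
    have : |(gp n q b).2 - (phiV v₀).2| ≤ L := k2.trans hwL
    exact_mod_cast this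
  have h5 : (((gp n q b).1 : ℤ) : ℝ) = ⌊(n : ℝ) * (b.1 + b.2) / 2 ^ q⌋ := rfl
  have h6 : (((gp n q b).2 : ℤ) : ℝ) = ⌊(n : ℝ) * (b.1 - b.2) / 2 ^ q⌋ := rfl
  rw [h5, hc1, abs_le] at k3
  rw [h6, hc2, abs_le] at k4
  have h7 := Int.floor_le ((n : ℝ) * (b.1 + b.2) / 2 ^ q)
  have h8 := Int.lt_floor_add_one ((n : ℝ) * (b.1 + b.2) / 2 ^ q)
  have h9 := Int.floor_le ((n : ℝ) * (b.1 - b.2) / 2 ^ q)
  have h10 := Int.lt_floor_add_one ((n : ℝ) * (b.1 - b.2) / 2 ^ q)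
  have h11 : (n : ℝ) * (b.1 + b.2) / 2 ^ q = n * b.1 / 2 ^ q + n * b.2 / 2 ^ q := by ring
  have h12 : (n : ℝ) * (b.1 - b.2) / 2 ^ q = n * b.1 / 2 ^ q - n * b.2 / 2 ^ q := by ring
  have h13 : |(n : ℝ) * b.1 / 2 ^ q| ≤ 2 * n := by
    rw [abs_le]; constructor <;> linarith [k3.1, k3.2, k4.1, k4.2]
  have h14 : |(n : ℝ) * b.2 / 2 ^ q| ≤ 2 * n := by
    rw [abs_le]; constructor <;> linarith [k3.1, k3.2, k4.1, k4.2]
  have key : ∀ t : ℤ, |(n : ℝ) * t / 2 ^ q| ≤ 2 * n → |t| ≤ 2 * 2 ^ q := by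
    intro t ht
    rw [abs_div, abs_mul, abs_of_pos hn0, abs_of_pos hQ, div_le_iff₀ hQ] at ht
    have h15 : |(t : ℝ)| ≤ 2 * 2 ^ q := by
      have : (n : ℝ) * |(t : ℝ)| ≤ n * (2 * 2 ^ q) := by linarith
      exact le_of_mul_le_mul_left this hn0
    exact_mod_cast h15
  rcases hb with hb | hb
  · exact absurd (key _ h13) (not_le.2 hb)
  · exact absurd (key _ h14) (not_le.2 hb)

/-- The first square is in the inner box. -/
theorem first_in {n q m : ℕ} {z a v₀ : ℤ × ℤ} {d : ℤ} (hn0 : (0 : ℝ) < n)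
    (hac : pt q a ∈ cell m z) (f1 : (v₀.1 : ℝ) ≤ n / 2 ^ m * z.1)
    (f2 : (n : ℝ) / 2 ^ m * z.1 < v₀.1 + 1) (f3 : (v₀.2 : ℝ) ≤ n / 2 ^ m * z.2)
    (f4 : (n : ℝ) / 2 ^ m * z.2 < v₀.2 + 1) (hd : 2 * ((n : ℝ) / 2 ^ m) + 3 ≤ d) :
    |(gc n q (phiV v₀) a).1| < d ∧ |(gc n q (phiV v₀) a).2| < d := by
  have hc1 : ((phiV v₀).1 : ℝ) = v₀.1 + v₀.2 := by simp [phiV]
  have hc2 : ((phiV v₀).2 : ℝ) = v₀.1 - v₀.2 := by simp [phiV]
  have h1 : |(a.1 : ℝ) / 2 ^ q - z.1 / 2 ^ m| < 1 / 2 ^ m := hac.1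
  have h2 : |(a.2 : ℝ) / 2 ^ q - z.2 / 2 ^ m| < 1 / 2 ^ m := hac.2
  have key : ∀ s t : ℤ, |(s : ℝ) / 2 ^ q - t / 2 ^ m| < 1 / 2 ^ m →
      |(n : ℝ) * s / 2 ^ q - n / 2 ^ m * t| < n / 2 ^ m := by
    intro s t h
    have e : (n : ℝ) * s / 2 ^ q - n / 2 ^ m * t = n * (s / 2 ^ q - t / 2 ^ m) := by ring
    rw [e, abs_mul, abs_of_pos hn0]
    calc (n : ℝ) * |(s : ℝ) / 2 ^ q - t / 2 ^ m| < n * (1 / 2 ^ m) :=
          mul_lt_mul_of_pos_left h hn0
      _ = n / 2 ^ m := by ring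
  have h3 := abs_lt.1 (key _ _ h1)
  have h4 := abs_lt.1 (key _ _ h2)
  have h7 := Int.floor_le ((n : ℝ) * (a.1 + a.2) / 2 ^ q)
  have h8 := Int.lt_floor_add_one ((n : ℝ) * (a.1 + a.2) / 2 ^ q)
  have h9 := Int.floor_le ((n : ℝ) * (a.1 - a.2) / 2 ^ q)
  have h10 := Int.lt_floor_add_one ((n : ℝ) * (a.1 - a.2) / 2 ^ q)
  have h11 : (n : ℝ) * (a.1 + a.2) / 2 ^ q = n * a.1 / 2 ^ q + n * a.2 / 2 ^ q := by ring
  have h12 : (n : ℝ) * (a.1 - a.2) / 2 ^ q = n * a.1 / 2 ^ q - n * a.2 / 2 ^ q := by ring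
  constructor
  · have : |((⌊(n : ℝ) * (a.1 + a.2) / 2 ^ q⌋ : ℤ) : ℝ) - (phiV v₀).1| < d := by
      rw [hc1, abs_lt]; constructor <;> linarith [h3.1, h3.2, h4.1, h4.2]
    have h13 : |⌊(n : ℝ) * (a.1 + a.2) / 2 ^ q⌋ - (phiV v₀).1| < d := by exact_mod_cast this
    exact h13
  · have : |((⌊(n : ℝ) * (a.1 - a.2) / 2 ^ q⌋ : ℤ) : ℝ) - (phiV v₀).2| < d := by
      rw [hc2, abs_lt]; constructor <;> linarith [h3.1, h3.2, h4.1, h4.2]
    have h13 : |⌊(n : ℝ) * (a.1 - a.2) / 2 ^ q⌋ - (phiV v₀).2| < d := by exact_mod_cast this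
    exact h13

/-- The geometric part: a hit cell in the bulk gives the event of the annulus. -/
theorem mem_annulus_of_hit {n m p : ℕ} {k₀ j : ℝ} {R : ℤ} {M : ℕ} (hk1 : k₀ ≤ 1) (hk0 : 0 < k₀)
    (hM : M = corN p)
    (hn : 0 < n) (hν : 20 ≤ (n : ℝ) / 2 ^ m) (hj : 4 ≤ j) {z : ℤ × ℤ} (hz1 : j ≤ z.1)
    (hz2 : j ≤ 2 ^ m - z.1) (hz3 : j ≤ z.2) (hz4 : j ≤ 2 ^ m - z.2)
    (hR : (R : ℝ) ≤ k₀ * (n / 2 ^ m) * j / 8) (hLR : L + ⌊3 * ((n : ℝ) / 2 ^ m)⌋ ≤ R)
    (hwL : w ≤ L) (hdw : ⌊3 * ((n : ℝ) / 2 ^ m)⌋ < w)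
    (hp : 16 * ((M : ℝ) + 6) + 4 ≤ n / 2 ^ p) {ω : Cfg} {u : ℤ × ℤ}
    (hdiam : k₀ * n ≤ Metric.diam (clS (cfgE n ω) u))
    (hH : HitC p m (perK n (cfgE n ω) u : Set ℂ) z) :
    ω ∈ Lat (phiV (⌊(n : ℝ) * z.1 / 2 ^ m⌋, ⌊(n : ℝ) * z.2 / 2 ^ m⌋))
        ⌊3 * ((n : ℝ) / 2 ^ m)⌋ L L w ∪
      {ω | shiftC (phiV (⌊(n : ℝ) * z.1 / 2 ^ m⌋, ⌊(n : ℝ) * z.2 / 2 ^ m⌋)).1
        (phiV (⌊(n : ℝ) * z.1 / 2 ^ m⌋, ⌊(n : ℝ) * z.2 / 2 ^ m⌋)).2 ω ∈
          CorrU L w ⌊3 * ((n : ℝ) / 2 ^ m)⌋ (8 * (M + 6)) M} := by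
  set P : ℝ := 2 ^ m with hP
  have hP0 : 0 < P := by positivity
  set ν : ℝ := (n : ℝ) / P with hνd
  set d : ℤ := ⌊3 * ν⌋ with hd
  set v₀ : ℤ × ℤ := (⌊(n : ℝ) * z.1 / P⌋, ⌊(n : ℝ) * z.2 / P⌋) with hv₀
  set c : ℤ × ℤ := phiV v₀ with hc
  have hn0 : (0 : ℝ) < n := by exact_mod_cast hn
  have hν0 : 0 < ν := by positivity
  have hd1 : (d : ℝ) ≤ 3 * ν := Int.floor_le _
  have hd2 : 3 * ν < d + 1 := Int.lt_floor_add_one _
  have hnν : (n : ℝ) = P * ν := by rw [hνd]; field_simp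
  by_cases hLat : ω ∈ Lat c d L L w
  · exact Or.inl hLat
  right
  obtain ⟨⟨y, hyK, hyc⟩, p', hp', a, b, hac, hbF, haF, hab⟩ := hH
  have hpos : 0 < Metric.diam (clS (cfgE n ω) u) := lt_of_lt_of_le (by positivity) hdiam
  -- floors
  have f1 : (v₀.1 : ℝ) ≤ n * z.1 / P := Int.floor_le _
  have f2 : (n : ℝ) * z.1 / P < v₀.1 + 1 := Int.lt_floor_add_one _
  have f3 : (v₀.2 : ℝ) ≤ n * z.2 / P := Int.floor_le _
  have f4 : (n : ℝ) * z.2 / P < v₀.2 + 1 := Int.lt_floor_add_one _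
  have e1 : (n : ℝ) * z.1 / P = ν * z.1 := by rw [hνd]; ring
  have e2 : (n : ℝ) * z.2 / P = ν * z.2 := by rw [hνd]; ring
  rw [e1] at f1 f2
  rw [e2] at f3 f4
  -- the vertex
  obtain ⟨x, hx, rfl⟩ := hyK
  obtain ⟨v, hv, hxv⟩ := Perc.PercD.exists_outV hpos hx
  obtain ⟨k, hk, rfl⟩ := exists_cor hv
  have hre := (Complex.abs_re_le_norm _).trans hxv
  have him := (Complex.abs_im_le_norm _).trans hxv
  have hre' : |x.re - (vtx k).1| ≤ 1 := by simpa [toC] using hre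
  have him' : |x.im - (vtx k).2| ≤ 1 := by simpa [toC] using him
  have hcell : |x.re - ν * z.1| < ν ∧ |x.im - ν * z.2| < ν := by
    have key : ∀ (t : ℝ) (b : ℤ), |t / n - b / P| < 1 / P → |t - ν * b| < ν := by
      intro t b h
      have e : t / n - b / P = (t - ν * b) / n := by rw [hνd]; field_simp
      rw [e, abs_div, abs_of_pos hn0, div_lt_iff₀ hn0] at h
      refine h.trans_le (le_of_eq ?_)
      rw [hνd]; ring
    have h1 : |(x / (n : ℂ)).re - z.1 / P| < 1 / P := hyc.1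
    have h2 : |(x / (n : ℂ)).im - z.2 / P| < 1 / P := hyc.2
    rw [Complex.div_natCast_re] at h1
    rw [Complex.div_natCast_im] at h2
    exact ⟨key _ _ h1, key _ _ h2⟩
  have g1 := abs_le.1 hre'
  have g2 := abs_le.1 him'
  have g3 := abs_lt.1 hcell.1
  have g4 := abs_lt.1 hcell.2
  have hd3 : ∃ d' : ℤ, 2 * d' + 1 ≤ d ∧ ν + 2 ≤ d' := by
    refine ⟨⌊ν + 3⌋, ?_, ?_⟩
    · rw [hd, Int.le_floor]
      push_cast
      have := Int.floor_le (ν + 3)
      linarith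
    · have := Int.lt_floor_add_one (ν + 3)
      linarith
  obtain ⟨d', hd', hνd'⟩ := hd3
  have hin : InE c d (kap k) := by
    have h1 : |((vtx k).1 : ℝ) - v₀.1| ≤ d' := by
      rw [abs_le]; constructor <;> linarith [g1.1, g1.2, g3.1, g3.2]
    have h2 : |((vtx k).2 : ℝ) - v₀.2| ≤ d' := by
      rw [abs_le]; constructor <;> linarith [g2.1, g2.2, g4.1, g4.2]
    exact kap_inE k (by exact_mod_cast h1) (by exact_mod_cast h2) hd'
  have hd0 : 0 < d := by
    have : (0 : ℝ) < d := by linarith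
    exact_mod_cast this
  -- the distance to the boundary of the box
  have hνj : 4 * ν ≤ ν * j := by
    have := mul_le_mul_of_nonneg_left hj hν0.le
    linarith
  have hkν : k₀ * ν * j ≤ ν * j := by
    have : k₀ * (ν * j) ≤ 1 * (ν * j) := mul_le_mul_of_nonneg_right hk1 (by positivity)
    linarith
  have hbd : ∀ (t : ℝ) (a b : ℤ), j ≤ a → j ≤ P - a → |t - ν * a| < ν → |t - b| ≤ 1 →
      (R : ℝ) + 1 ≤ b ∧ (R : ℝ) + 1 ≤ n - b := by
    intro t a b h1 h2 h3 h4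
    have h5 := abs_lt.1 h3
    have h6 := abs_le.1 h4
    have h7 : ν * j ≤ ν * a := mul_le_mul_of_nonneg_left h1 hν0.le
    have h8 : ν * j ≤ ν * (P - a) := mul_le_mul_of_nonneg_left h2 hν0.le
    have h9 : ν * (P - a) = n - ν * a := by rw [hnν]; ring
    constructor <;> linarith [h5.1, h5.2, h6.1, h6.2]
  have hdB : R + 1 ≤ dB n (vtx k) := by
    obtain ⟨h1, h2⟩ := hbd _ _ _ hz1 hz2 hcell.1 hre'
    obtain ⟨h3, h4⟩ := hbd _ _ _ hz3 hz4 hcell.2 him'
    have h5 : R + 1 ≤ (vtx k).1 := by exact_mod_cast h1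
    have h6 : R + 1 ≤ n - (vtx k).1 := by exact_mod_cast h2
    have h7 : R + 1 ≤ (vtx k).2 := by exact_mod_cast h3
    have h8 : R + 1 ≤ n - (vtx k).2 := by exact_mod_cast h4
    exact le_dB h5 (by omega) h7 (by omega)
  -- the diameter
  have hjP : 2 * j ≤ P := by linarith
  have hRn : 4 * ((R : ℝ) + 2) ≤ k₀ * n := by
    have h1 : k₀ * ν * j ≤ k₀ * n / 2 := by
      rw [hnν]
      have : k₀ * ν * (2 * j) ≤ k₀ * ν * P := mul_le_mul_of_nonneg_left hjP (by positivity)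
      linarith
    have h2 : 0 < R := by omega
    have h3 : (1 : ℝ) ≤ R := by exact_mod_cast h2
    have h4 : ((L + d : ℤ) : ℝ) ≤ R := by exact_mod_cast hLR
    have h5 : (d : ℝ) + 1 ≤ L := by
      have : d + 1 ≤ L := by omega
      exact_mod_cast this
    push_cast at h4
    linarith
  -- the rectangle is in the box
  have hLn : (L : ℝ) + 1 ≤ n / 2 := by
    have h4 : ((L + d : ℤ) : ℝ) ≤ R := by exact_mod_cast hLR
    push_cast at h4
    have h5 : k₀ * n ≤ n := mul_le_of_le_one_left hn0.le hk1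
    linarith
  have hv01 : (0 : ℝ) ≤ v₀.1 ∧ (v₀.1 : ℝ) ≤ n := by
    constructor
    · have : (0 : ℤ) ≤ v₀.1 := Int.floor_nonneg.2 (by
        rw [e1]; exact mul_nonneg hν0.le (by linarith))
      exact_mod_cast this
    · have : ν * (z.1 : ℝ) ≤ ν * P := mul_le_mul_of_nonneg_left (by linarith) hν0.le
      rw [hnν]; linarith
  have hv02 : (0 : ℝ) ≤ v₀.2 ∧ (v₀.2 : ℝ) ≤ n := by
    constructor
    · have : (0 : ℤ) ≤ v₀.2 := Int.floor_nonneg.2 (by
        rw [e2]; exact mul_nonneg hν0.le (by linarith))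
      exact_mod_cast this
    · have : ν * (z.2 : ℝ) ≤ ν * P := mul_le_mul_of_nonneg_left (by linarith) hν0.le
      rw [hnν]; linarith
  -- squares far away are outside the rectangle
  have hout : ∀ b, Far p' b → ¬ (|(gc n p' c b).1| ≤ L ∧ |(gc n p' c b).2| ≤ w) := fun b hb =>
    out_far hn0 hv01.1 hv01.2 hv02.1 hv02.2 hLn hwL hb
  -- the first square
  have ha : |(gc n p' c a).1| < d ∧ |(gc n p' c a).2| < d :=
    first_in hn0 hac f1 f2 f3 f4 (by linarith)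
  have hD : 2 * (((8 * ((M : ℤ) + 6) : ℤ) : ℝ) + 1) + 2 ≤ n / 2 ^ p' := by
    have h1 : (n : ℝ) / 2 ^ p ≤ n / 2 ^ p' := by
      apply div_le_div_of_nonneg_left hn0.le (by positivity)
      exact pow_le_pow_right₀ (by norm_num) hp'
    push_cast
    linarith
  have hfin := corrU_of hn hk hin hd0 hdw hwL le_rfl hdB hLR hdiam hRn hLat hab hbF ha.1 ha.2
    hout hD
  exact CorrU_mono (by rw [hM]; exact corN_mono hp') hfin

/-- **C1 from the bound in the grid with a dislocation.** -/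
theorem targetC1_of (hTT : TTBound) : TargetC1 := by
  obtain ⟨A, C₂, hC₂, hTT⟩ := hTT
  obtain ⟨θ, hθ0, hθ1, hθ⟩ := pr_lat
  intro k₀' α hk₀' hα hα1
  -- reduction to `k₀ ≤ 1`
  set k₀ : ℝ := min k₀' 1 with hk₀d
  have hk₀ : 0 < k₀ := lt_min hk₀' one_pos
  have hk₀1 : k₀ ≤ 1 := min_le_right _ _
  set A' : ℝ := max (A : ℝ) 1 with hA'
  have hA1 : 1 ≤ A' := le_max_right _ _
  obtain ⟨C₁, J₀, hC₁, hJ₀, hnum⟩ := numA hk₀ hα hα1 hθ0 hθ1 hA1
  refine ⟨max (4 + C₂ * C₁) (max J₀ 4 ^ α), fun m p => ?_⟩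
  set M : ℕ := corN p with hM
  -- large `n`
  have hlim : ∀ q : ℕ, Tendsto (fun n : ℕ => (n : ℝ) / 2 ^ q) atTop atTop := fun q =>
    tendsto_natCast_atTop_atTop.atTop_div_const (by positivity)
  filter_upwards [eventually_gt_atTop 0, (hlim m).eventually_ge_atTop (4 * ((M : ℝ) + 6) + 20),
    (hlim p).eventually_ge_atTop (16 * ((M : ℝ) + 6) + 4)] with n hn hn1 hn2 z j hj hz1 hz2 hz3 hz4
  have hj0 : 0 < j := by linarith
  have hM0 : (0 : ℝ) ≤ M := Nat.cast_nonneg _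
  by_cases hjJ : j < max J₀ 4
  · -- the trivial bound
    refine (PercX60.prB_le_one _ _).trans ?_
    have h1 : 1 ≤ (max J₀ 4) ^ α * j ^ (-α) := by
      rw [Real.rpow_neg hj0.le, ← div_eq_mul_inv, one_le_div (by positivity)]
      exact Real.rpow_le_rpow hj0.le hjJ.le hα.le
    refine h1.trans (mul_le_mul_of_nonneg_right (le_max_right _ _) (by positivity))
  · rw [not_lt, max_le_iff] at hjJ
    obtain ⟨hjJ, hj4⟩ := hjJ
    obtain ⟨N, hN, hN1, hN2, hN3, hN4⟩ := hnum j hjJ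
    set ν : ℝ := (n : ℝ) / 2 ^ m with hν
    have hν20 : 20 ≤ ν := by linarith
    obtain ⟨R, L, w, hR, hLR, hwL, hAw, hNL, hw0, hdw⟩ :=
      numB (A := A') (ν := ν) (j := j) (N := N) hk₀ hk₀1 hA1 (by linarith) hN hN2 hN3
    set d : ℤ := ⌊3 * ν⌋ with hd
    have hd1 : (d : ℝ) ≤ 3 * ν := Int.floor_le _
    have hd2 : 3 * ν < d + 1 := Int.lt_floor_add_one _
    have hd0 : (0 : ℝ) < d := by linarith
    have hAd : A * d < w := by
      have h1 : (A : ℝ) * d ≤ A' * d := mul_le_mul_of_nonneg_right (le_max_left _ _) hd0.le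
      have h2 : (A : ℝ) * d < w := lt_of_le_of_lt h1 hAw
      exact_mod_cast h2
    have hdw' : d < w := by
      have h1 : (1 : ℝ) * d ≤ A' * d := mul_le_mul_of_nonneg_right hA1 hd0.le
      have h2 : (d : ℝ) < w := by linarith
      exact_mod_cast h2
    have hMd : 4 * ((M : ℤ) + 6) ≤ d := by
      have h1 : ((4 * ((M : ℤ) + 6) : ℤ) : ℝ) ≤ 3 * ν := by push_cast; linarith
      exact Int.le_floor.2 h1
    set c : ℤ × ℤ := phiV (⌊(n : ℝ) * z.1 / 2 ^ m⌋, ⌊(n : ℝ) * z.2 / 2 ^ m⌋) with hc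
    have hann := pr_annulus (A := A) (C := C₂) (θ := θ) hTT hθ (M := M) (N := N) c hMd hAd hdw' hwL
      hNL
    -- the window
    have hsub : RL c L w ⊆ Sn n := by
      have hRc : R + 1 ≤ dB n (⌊(n : ℝ) * z.1 / 2 ^ m⌋, ⌊(n : ℝ) * z.2 / 2 ^ m⌋) := by
        have hνj : 4 * ν ≤ ν * j := by
          have := mul_le_mul_of_nonneg_left hj4 (show (0 : ℝ) ≤ ν by linarith)
          linarith
        have hkν : k₀ * ν * j ≤ ν * j := by
          have : k₀ * (ν * j) ≤ 1 * (ν * j) := mul_le_mul_of_nonneg_right hk₀1 (by positivity)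
          linarith
        have key : ∀ a : ℤ, j ≤ a → j ≤ 2 ^ m - a →
            R + 1 ≤ ⌊(n : ℝ) * a / 2 ^ m⌋ ∧ ⌊(n : ℝ) * a / 2 ^ m⌋ ≤ n - (R + 1) := by
          intro a h1 h2
          have h3 : (n : ℝ) * a / 2 ^ m = ν * a := by rw [hν]; ring
          have h4 : ν * j ≤ ν * a := mul_le_mul_of_nonneg_left h1 (by linarith)
          have h5 : ν * j ≤ ν * (2 ^ m - a) := mul_le_mul_of_nonneg_left h2 (by linarith)
          have h6 : ν * (2 ^ m - a) = n - ν * a := by rw [hν]; field_simp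
          rw [h3]
          constructor
          · rw [Int.le_floor]; push_cast; linarith
          · have h7 := Int.floor_le (ν * (a : ℝ))
            have h8 : ((⌊ν * (a : ℝ)⌋ : ℤ) : ℝ) ≤ ((n - (R + 1) : ℤ) : ℝ) := by
              push_cast; linarith
            exact_mod_cast h8
        exact le_dB (key _ hz1 hz2).1 (key _ hz1 hz2).2 (key _ hz3 hz4).1 (key _ hz3 hz4).2
      refine Finset.Subset.trans ?_ (BR_phiV_sub hRc)
      intro f hf
      rw [mem_RL] at hf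
      rw [mem_BR, ← hc]
      have hdpos : 0 < d := by exact_mod_cast hd0
      omega
    have hmain : prB n {T | ∃ u, k₀' * n ≤ Metric.diam (clS T u) ∧
        HitC p m (perK n T u : Set ℂ) z} ≤ pr (RL c L w)
          (Lat c d L L w ∪ {ω | shiftC c.1 c.2 ω ∈ CorrU L w d (8 * (M + 6)) M}) := by
      refine prB_le_pr (depOn_union (depOn_Lat c d L L w) (depOn_shift_CorrU c L w d _ M)) hsub ?_
      rintro ω ⟨u, hdiam, hH⟩
      have hdiam' : k₀ * n ≤ Metric.diam (clS (cfgE n ω) u) := by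
        refine le_trans ?_ hdiam
        exact mul_le_mul_of_nonneg_right (min_le_left _ _) (Nat.cast_nonneg _)
      exact mem_annulus_of_hit hk₀1 hk₀ hM hn hν20 hj4 hz1 hz2 hz3 hz4 hR hLR hwL hdw' hn2
        hdiam' hH
    have hjpow : 0 < j ^ (-α) := by positivity
    have hlast : C₂ * ((d : ℝ) / w) ^ (2 / 3 : ℝ) ≤ C₂ * (C₁ * j ^ (-α)) := by
      refine mul_le_mul_of_nonneg_left (le_trans ?_ hN4) hC₂.le
      have hw0' : (0 : ℝ) < w := by exact_mod_cast hw0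
      exact Real.rpow_le_rpow (by positivity) hdw (by norm_num)
    calc _ ≤ 4 * θ ^ N + C₂ * ((d : ℝ) / w) ^ (2 / 3 : ℝ) := hmain.trans hann
      _ ≤ (4 + C₂ * C₁) * j ^ (-α) := by nlinarith
      _ ≤ _ := mul_le_mul_of_nonneg_right (le_max_left _ _) hjpow.le

end Pool.Agent.PercS5

end Parth60C1Bridge

section Partperc6BcCell

/-!
# The cells of a window and the dyadic cells
-/

set_option autoImplicit false

namespace Pool.Agent.PercBc

open Filter Topology Relation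
open Pool.Agent.Perc Pool.Agent.Perc.PercD Pool.Agent.PercD Pool.Agent.PercS5 Pool.Agent.Perc6
open Pool.Agent.PercX60 (Sn)

variable {n p m : ℕ} {ω : Cfg} {u X z z' : ℤ × ℤ} {ρ α β α' β' s : ℝ} {h w x y η M q : ℤ}

/-- The centre of the cell `z` of a window. -/
noncomputable def cc (x y M q η : ℤ) (z : ℤ × ℤ) : ℂ :=
  fp (x + q * η * (M + z.1 + 1 / 2)) (y + q * η * (M + z.2 + 1 / 2))

/-- The nearest dyadic cell. -/
noncomputable def Fi (n m : ℕ) (x y M q η : ℤ) (z : ℤ × ℤ) : ℤ × ℤ :=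
  (round ((cc x y M q η z).re / n * 2 ^ m), round ((cc x y M q η z).im / n * 2 ^ m))

theorem near_Fi (hn : 0 < n) (hσ : 4 * ((q * η : ℤ) : ℝ) * 2 ^ m ≤ n)
    (h1 : |α - (x + q * η * (M + z.1 + 1 / 2))| ≤ ((q * η : ℤ) : ℝ) / 2)
    (h2 : |β - (y + q * η * (M + z.2 + 1 / 2))| ≤ ((q * η : ℤ) : ℝ) / 2) :
    |(fp α β / n).re * 2 ^ m - (Fi n m x y M q η z).1| ≤ 5 / 8 ∧
      |(fp α β / n).im * 2 ^ m - (Fi n m x y M q η z).2| ≤ 5 / 8 := by
  have hn0 : (0 : ℝ) < n := by exact_mod_cast hn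
  have key : ∀ s t : ℝ, |s - t| ≤ ((q * η : ℤ) : ℝ) / 2 →
      |s / n * 2 ^ m - round (t / n * 2 ^ m)| ≤ 5 / 8 := by
    intro s t hst
    have h3 : |s / n * 2 ^ m - t / n * 2 ^ m| ≤ 1 / 8 := by
      have e : s / n * 2 ^ m - t / n * 2 ^ m = (s - t) * (2 ^ m / n) := by ring
      rw [e, abs_mul, abs_of_pos (by positivity : (0 : ℝ) < 2 ^ m / n)]
      calc |s - t| * (2 ^ m / n) ≤ ((q * η : ℤ) : ℝ) / 2 * (2 ^ m / n) :=
            mul_le_mul_of_nonneg_right hst (by positivity)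
        _ = (4 * ((q * η : ℤ) : ℝ) * 2 ^ m) / n / 8 := by ring
        _ ≤ 1 / 8 := by
            have : (4 * ((q * η : ℤ) : ℝ) * 2 ^ m) / n ≤ 1 := by rwa [div_le_one hn0]
            linarith
    have h4 := abs_sub_round (t / n * 2 ^ m)
    calc |s / n * 2 ^ m - round (t / n * 2 ^ m)|
        = |(s / n * 2 ^ m - t / n * 2 ^ m) + (t / n * 2 ^ m - round (t / n * 2 ^ m))| := by
          congr 1; ring
      _ ≤ 1 / 8 + 1 / 2 := (abs_add_le _ _).trans (add_le_add h3 h4)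
      _ = 5 / 8 := by norm_num
  rw [abs_le] at h1 h2
  rw [Complex.div_natCast_re, Complex.div_natCast_im]
  constructor
  · refine key _ _ ?_
    simp only [cc, fp]
    rw [abs_le]
    constructor <;> linarith [h1.1, h1.2, h2.1, h2.2]
  · refine key _ _ ?_
    simp only [cc, fp]
    rw [abs_le]
    constructor <;> linarith [h1.1, h1.2, h2.1, h2.2]

/-- The distances of the dyadic cells. -/
theorem le_dist_Fi (hn : 0 < n) (hq : 0 ≤ q) (hη : 0 ≤ η)
    (hσ : 4 * ((q * η : ℤ) : ℝ) * 2 ^ m ≤ n) :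
    ((q * η : ℤ) : ℝ) / (4 * n) * dsup z z' ≤
      max (dist (pt m (Fi n m x y M q η z)) (pt m (Fi n m x y M q η z'))) (1 / 2 ^ m) := by
  have hn0 : (0 : ℝ) < n := by exact_mod_cast hn
  have hm0 : (0 : ℝ) < 2 ^ m := by positivity
  set σ : ℝ := ((q * η : ℤ) : ℝ) with hσd
  have hσ0 : 0 ≤ σ := by rw [hσd]; exact_mod_cast mul_nonneg hq hη
  set D : ℝ := dist (pt m (Fi n m x y M q η z)) (pt m (Fi n m x y M q η z')) with hD
  set d : ℝ := max |((z.1 - z'.1 : ℤ) : ℝ)| |((z.2 - z'.2 : ℤ) : ℝ)| with hd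
  -- the lower bound
  have hlow : σ / (2 * n) * d - 1 / 2 ^ m ≤ D := by
    have aux : ∀ (a b : ℝ) (i j : ℤ), |a * 2 ^ m - i| ≤ 1 / 2 → |b * 2 ^ m - j| ≤ 1 / 2 →
        |a - b| - 1 / 2 ^ m ≤ |(i : ℝ) / 2 ^ m - j / 2 ^ m| := by
      intro a b i j h1 h2
      have h3 : |(a - b) - ((i : ℝ) / 2 ^ m - j / 2 ^ m)| ≤ 1 / 2 ^ m := by
        have e : (a - b) - ((i : ℝ) / 2 ^ m - j / 2 ^ m) =
            ((a * 2 ^ m - i) - (b * 2 ^ m - j)) / 2 ^ m := by field_simp; ring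
        rw [e, abs_div, abs_of_pos hm0]
        refine div_le_div_of_nonneg_right ?_ hm0.le
        exact (abs_sub _ _).trans (by linarith)
      have h4 := abs_sub_abs_le_abs_sub (a - b) ((i : ℝ) / 2 ^ m - j / 2 ^ m)
      linarith
    have hr1 : |((cc x y M q η z).re / n * 2 ^ m - (Fi n m x y M q η z).1)| ≤ 1 / 2 :=
      abs_sub_round _
    have hr2 : |((cc x y M q η z').re / n * 2 ^ m - (Fi n m x y M q η z').1)| ≤ 1 / 2 :=
      abs_sub_round _
    have hi1 : |((cc x y M q η z).im / n * 2 ^ m - (Fi n m x y M q η z).2)| ≤ 1 / 2 :=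
      abs_sub_round _
    have hi2 : |((cc x y M q η z').im / n * 2 ^ m - (Fi n m x y M q η z').2)| ≤ 1 / 2 :=
      abs_sub_round _
    have hre := aux _ _ _ _ hr1 hr2
    have him := aux _ _ _ _ hi1 hi2
    have hDre : |((Fi n m x y M q η z).1 : ℝ) / 2 ^ m - (Fi n m x y M q η z').1 / 2 ^ m| ≤ D := by
      rw [hD, dist_eq_norm]
      refine le_trans (le_of_eq ?_) (Complex.abs_re_le_norm _)
      simp [pt]
    have hDim : |((Fi n m x y M q η z).2 : ℝ) / 2 ^ m - (Fi n m x y M q η z').2 / 2 ^ m| ≤ D := by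
      rw [hD, dist_eq_norm]
      refine le_trans (le_of_eq ?_) (Complex.abs_im_le_norm _)
      simp [pt]
    have e1 : (cc x y M q η z).re / n - (cc x y M q η z').re / n =
        σ / (2 * n) * (((z.1 - z'.1 : ℤ) : ℝ) + ((z.2 - z'.2 : ℤ) : ℝ)) := by
      simp only [cc, fp]
      rw [hσd]
      push_cast
      field_simp
      ring
    have e2 : (cc x y M q η z).im / n - (cc x y M q η z').im / n =
        σ / (2 * n) * (((z.1 - z'.1 : ℤ) : ℝ) - ((z.2 - z'.2 : ℤ) : ℝ)) := by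
      simp only [cc, fp]
      rw [hσd]
      push_cast
      field_simp
      ring
    rw [e1] at hre
    rw [e2] at him
    have hk0 : 0 ≤ σ / (2 * n) := by positivity
    rw [abs_mul, abs_of_nonneg hk0] at hre him
    set a : ℝ := ((z.1 - z'.1 : ℤ) : ℝ) with ha
    set b : ℝ := ((z.2 - z'.2 : ℤ) : ℝ) with hb
    have hmax : d ≤ |a + b| ∨ d ≤ |a - b| := by
      rw [hd]
      rcases le_total 0 a with h1 | h1 <;> rcases le_total 0 b with h2 | h2
      · left; rw [abs_of_nonneg h1, abs_of_nonneg h2, abs_of_nonneg (by linarith)]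
        exact max_le (by linarith) (by linarith)
      · right; rw [abs_of_nonneg h1, abs_of_nonpos h2, abs_of_nonneg (by linarith)]
        exact max_le (by linarith) (by linarith)
      · right; rw [abs_of_nonpos h1, abs_of_nonneg h2, abs_of_nonpos (by linarith)]
        exact max_le (by linarith) (by linarith)
      · left; rw [abs_of_nonpos h1, abs_of_nonpos h2, abs_of_nonpos (by linarith)]
        exact max_le (by linarith) (by linarith)
    rcases hmax with h1 | h1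
    · have := mul_le_mul_of_nonneg_left h1 hk0
      linarith
    · have := mul_le_mul_of_nonneg_left h1 hk0
      linarith
  have hsmall : σ / (4 * n) ≤ 1 / 2 ^ m := by
    rw [div_le_div_iff₀ (by positivity) hm0]
    nlinarith
  have e4 : σ / (4 * n) * d = (σ / (2 * n) * d) / 2 := by ring
  unfold dsup
  rw [← hd, mul_max_of_nonneg _ _ (by positivity), mul_one]
  refine max_le ?_ (hsmall.trans (le_max_right _ _))
  rw [e4]
  have h5 := le_max_left D (1 / 2 ^ m : ℝ)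
  have h6 := le_max_right D (1 / 2 ^ m : ℝ)
  linarith

theorem kernel_Fi (hn : 0 < n) (hq : 0 < q) (hη : 0 < η) (hs : 0 < s)
    (hσ : 4 * ((q * η : ℤ) : ℝ) * 2 ^ m ≤ n) :
    (max (dist (pt m (Fi n m x y M q η z)) (pt m (Fi n m x y M q η z'))) (1 / 2 ^ m)) ^ (-s) ≤
      (((q * η : ℤ) : ℝ) / (4 * n)) ^ (-s) * dsup z z' ^ (-s) := by
  have hn0 : (0 : ℝ) < n := by exact_mod_cast hn
  have hσ0 : (0 : ℝ) < ((q * η : ℤ) : ℝ) := by exact_mod_cast mul_pos hq hη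
  have hd : (0 : ℝ) < dsup z z' := lt_of_lt_of_le one_pos (le_max_right _ _)
  rw [← Real.mul_rpow (by positivity) hd.le]
  exact Real.rpow_le_rpow_of_nonpos (by positivity) (le_dist_Fi hn hq.le hη.le hσ) (by linarith)

/-- The cells of a success are hit. -/
theorem Tg.hit (hn : 0 < n) (hu : u ∈ Box n) (ht : Tg n ω u h w X) (hX : X.1 < x)
    (hη : 1 ≤ η) (hηw : η ≤ 4 * w) (hρ : 1 + 4 * n / 2 ^ p ≤ (η : ℝ) / 4)
    (hpm : (4 : ℝ) * 2 ^ m ≤ 2 ^ p) (hσ : 4 * ((q * η : ℤ) : ℝ) * 2 ^ m ≤ n)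
    {c : ℤ × ℤ} (hc : c ∈ CL n ω u) (hcz : InCell x (h + w) M q η z c)
    (hS : Seen ω 0 x (h + w) M q η z) :
    Fi n m x (h + w) M q η z ∈ GO p m (perK n (cfgE n ω) u : Set ℂ) := by
  classical
  have hn0 : (0 : ℝ) < n := by exact_mod_cast hn
  have hη0 : (0 : ℝ) < η := by exact_mod_cast (by omega : (0 : ℤ) < η)
  obtain ⟨t, t', ⟨t1, t2, t3, t4⟩, ht0, hf, hch⟩ := hS
  have hf' : FreeSq ω 0 x (h + w) (4 * (M * q * η)) η t' := by
    rcases ReflTransGen.cases_tail hch with h1 | ⟨b, -, h1⟩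
    · rw [h1]; exact hf
    · exact h1.2.2
  have hw : 0 ≤ w := by omega
  -- the vertex
  obtain ⟨v, hv, rfl⟩ := hc
  have hev : fp (((phiV v).1 : ℤ) : ℝ) (((phiV v).2 : ℤ) : ℝ) = toC v := by
    apply Complex.ext
    · simp only [fp, phiV, toC]
      push_cast
      simp
    · simp only [fp, phiV, toC]
      push_cast
      simp
  have hnv := near_Fi (z := z) (α := ((phiV v).1 : ℤ)) (β := ((phiV v).2 : ℤ)) (x := x)
    (y := h + w) (M := M) hn hσ (by
      obtain ⟨c1, c2, -, -⟩ := hcz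
      have c1' : (x : ℝ) + q * η * (M + z.1) ≤ (phiV v).1 := by exact_mod_cast c1
      have c2' : ((phiV v).1 : ℝ) ≤ x + q * η * (M + z.1 + 1) := by exact_mod_cast c2
      push_cast
      rw [abs_le]; constructor <;> linarith) (by
      obtain ⟨-, -, c1, c2⟩ := hcz
      have c1' : ((h + w : ℤ) : ℝ) + q * η * (M + z.2) ≤ (phiV v).2 := by exact_mod_cast c1
      have c2' : ((phiV v).2 : ℝ) ≤ ((h + w : ℤ) : ℝ) + q * η * (M + z.2 + 1) := by
        exact_mod_cast c2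
      push_cast at c1' c2' ⊢
      rw [abs_le]; constructor <;> linarith)
  rw [hev] at hnv
  -- the centre of the first square
  have hsq : ∀ (a b k : ℤ), q * (M + a) ≤ b → b < q * (M + a + 1) →
      |((k : ℝ) + η * (b + 1 / 2)) - (k + q * η * (M + a + 1 / 2))| ≤ ((q * η : ℤ) : ℝ) / 2 := by
    intro a b k h1 h2
    have h1' : (q : ℝ) * (M + a) ≤ b := by exact_mod_cast h1
    have h2' : (b : ℝ) + 1 ≤ q * (M + a + 1) := by exact_mod_cast h2
    have h3 := mul_le_mul_of_nonneg_left h1' hη0.le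
    have h4 := mul_le_mul_of_nonneg_left h2' hη0.le
    push_cast
    rw [abs_le]
    constructor <;> nlinarith
  have hns := near_Fi (z := z) (α := (x : ℝ) + η * (t.1 + 1 / 2))
    (β := ((h + w : ℤ) : ℝ) + η * (t.2 + 1 / 2)) (x := x) (y := h + w) (M := M) hn hσ
    (hsq z.1 t.1 x t1 t2) (hsq z.2 t.2 (h + w) t3 t4)
  have hwc : cs x (h + w) η t / n ∈ cbox m (Fi n m x (h + w) M q η z) := by
    rw [mem_cbox]
    exact ⟨hns.1.trans (by norm_num), hns.2.trans (by norm_num)⟩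
  have hvc : toC v / n ∈ cbox m (Fi n m x (h + w) M q η z) := by
    rw [mem_cbox]
    exact ⟨hnv.1.trans (by norm_num), hnv.2.trans (by norm_num)⟩
  have hwp : ∀ a, cs x (h + w) η t / n ∈ cbox p a →
      pt p a ∈ cbox m (Fi n m x (h + w) M q η z) := by
    intro a ha
    have hp0 : (0 : ℝ) < 2 ^ p := by positivity
    have hm0 : (0 : ℝ) < 2 ^ m := by positivity
    have key : ∀ (r : ℝ) (i j : ℤ), |r - i / 2 ^ p| ≤ 1 / 2 ^ p → |r * 2 ^ m - j| ≤ 5 / 8 →
        |(i : ℝ) / 2 ^ p * 2 ^ m - j| ≤ 1 := by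
      intro r i j h1 h2
      have h3 : |(i : ℝ) / 2 ^ p * 2 ^ m - r * 2 ^ m| ≤ 1 / 4 := by
        have e : (i : ℝ) / 2 ^ p * 2 ^ m - r * 2 ^ m = -(r - i / 2 ^ p) * 2 ^ m := by ring
        rw [e, abs_mul, abs_neg, abs_of_pos hm0]
        calc |r - i / 2 ^ p| * 2 ^ m ≤ 1 / 2 ^ p * 2 ^ m := mul_le_mul_of_nonneg_right h1 hm0.le
          _ = 2 ^ m / 2 ^ p := by ring
          _ ≤ 1 / 4 := by rw [div_le_div_iff₀ hp0 (by norm_num)]; linarith
      calc |(i : ℝ) / 2 ^ p * 2 ^ m - j|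
          = |((i : ℝ) / 2 ^ p * 2 ^ m - r * 2 ^ m) + (r * 2 ^ m - j)| := by congr 1; ring
        _ ≤ 1 / 4 + 5 / 8 := (abs_add_le _ _).trans (add_le_add h3 h2)
        _ ≤ 1 := by norm_num
    rw [mem_cbox]
    exact ⟨key _ _ _ ha.1 hns.1, key _ _ _ ha.2 hns.2⟩
  have hhit : HitO p m (perK n (cfgE n ω) u : Set ℂ) (Fi n m x (h + w) M q η z) :=
    hitO_of hn hρ hv hvc hwc hwp (ht.noV_cs hw hX (by omega) hf)
      ((ht.chain_cs hw hX (by omega) hch).tail (ht.lk_down hX (by omega) hηw hf' ht0))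
      (ht.ray hX (by omega) hηw hf'.1.1)
  unfold PercS5.GO
  rw [Finset.mem_filter]
  refine ⟨?_, hhit⟩
  -- the index
  have hbox := DictB.mem_Box.1 (DictB.clV_box (DictB.cfgE_subset n ω) hu hv)
  have hm1 : (1 : ℝ) ≤ 2 ^ m := one_le_pow₀ (by norm_num)
  have key : ∀ (a j : ℤ), 0 ≤ a → a ≤ n → |(a : ℝ) / n * 2 ^ m - j| ≤ 5 / 8 →
      -1 ≤ j ∧ j ≤ 2 ^ m + 1 := by
    intro a j h1 h2 h3
    have h1' : (0 : ℝ) ≤ a := by exact_mod_cast h1
    have h2' : (a : ℝ) ≤ n := by exact_mod_cast h2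
    have h4 : 0 ≤ (a : ℝ) / n * 2 ^ m := by positivity
    have h5 : (a : ℝ) / n * 2 ^ m ≤ 2 ^ m := by
      have : (a : ℝ) / n ≤ 1 := by rwa [div_le_one hn0]
      calc (a : ℝ) / n * 2 ^ m ≤ 1 * 2 ^ m := mul_le_mul_of_nonneg_right this (by positivity)
        _ = 2 ^ m := one_mul _
    rw [abs_le] at h3
    have h6 : (-1 : ℝ) ≤ j := by linarith [h3.1, h3.2]
    have h7 : (j : ℝ) ≤ 2 ^ m + 1 := by linarith [h3.1, h3.2]
    exact ⟨by exact_mod_cast h6, by exact_mod_cast h7⟩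
  have hre : (toC v / (n : ℂ)).re = (v.1 : ℝ) / n := by
    rw [Complex.div_natCast_re]; simp [toC]
  have him : (toC v / (n : ℂ)).im = (v.2 : ℝ) / n := by
    rw [Complex.div_natCast_im]; simp [toC]
  rw [hre, him] at hnv
  unfold idx
  rw [Finset.mem_product, Finset.mem_Icc, Finset.mem_Icc]
  exact ⟨key _ _ hbox.1.1 hbox.1.2 hnv.1, key _ _ hbox.2.1 hbox.2.2 hnv.2⟩

/-- **A success gives a measure of bounded energy on the hit cells.** -/
theorem good_of_succ {cB RB c : ℤ} {A₀ c₀ : ℝ} (hn : 0 < n) (hu : u ∈ Box n)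
    (ht : Tg n ω u h w X) (hsub : BR (cB, h) RB ⊆ Sn n) (hX : X.1 < c + 8 * (M * q * η))
    (hM : 1 ≤ M) (hq : 1 ≤ q) (hη : 1 ≤ η) (hηw : η ≤ 4 * w)
    (hρ : 1 + 4 * n / 2 ^ p ≤ (η : ℝ) / 4) (hpm : (4 : ℝ) * 2 ^ m ≤ 2 ^ p)
    (hσ : 4 * ((q * η : ℤ) : ℝ) * 2 ^ m ≤ n) (hs : 0 < s) (hc₀ : 0 < c₀)
    (hc : c₀ ≤ ((M * q * η : ℤ) : ℝ) / (4 * n))
    (hS : ω ∈ SuccX 0 h w cB RB c M q η s A₀ X) :
    Good s m (A₀ * c₀ ^ (-s)) (GO p m (perK n (cfgE n ω) u : Set ℂ)) := by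
  have hn0 : (0 : ℝ) < n := by exact_mod_cast hn
  have hM0 : (0 : ℝ) < M := by exact_mod_cast (by omega : (0 : ℤ) < M)
  have hqη : (0 : ℝ) < ((q * η : ℤ) : ℝ) := by exact_mod_cast mul_pos (by omega) (by omega)
  obtain ⟨g, g0, g1, g2, g3⟩ := hS
  have hA : 0 ≤ A₀ * (M : ℝ) ^ (-s) := by
    refine le_trans (Finset.sum_nonneg fun i _ => Finset.sum_nonneg fun j _ => ?_) g3
    have hd : (0 : ℝ) < dsup i j := lt_of_lt_of_le one_pos (le_max_right _ _)
    exact mul_nonneg (mul_nonneg (g0 i) (g0 j)) (Real.rpow_nonneg hd.le _)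
  have hMs : 0 < (M : ℝ) ^ (-s) := Real.rpow_pos_of_pos hM0 _
  have hA0 : 0 ≤ A₀ := by
    by_contra hcon
    push Not at hcon
    have := mul_neg_of_neg_of_pos hcon hMs
    linarith
  have hpush := good_push (m := m) (G := GO p m (perK n (cfgE n ω) u : Set ℂ))
    (Φ := Fi n m (c + 8 * (M * q * η)) (h + w) M q η) (s := s)
    (B := (((q * η : ℤ) : ℝ) / (4 * n)) ^ (-s)) (A := A₀ * (M : ℝ) ^ (-s))
    (fun z z' => dsup z z' ^ (-s)) g0 g2 (fun z hz hne => ?_) (by positivity)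
    (fun z _ z' _ => kernel_Fi hn (by omega) (by omega) hs hσ) g3
  · refine hpush.mono_right ?_
    have e : (((q * η : ℤ) : ℝ) / (4 * n)) ^ (-s) * (A₀ * (M : ℝ) ^ (-s)) =
        A₀ * (((M * q * η : ℤ) : ℝ) / (4 * n)) ^ (-s) := by
      have e2 : ((M * q * η : ℤ) : ℝ) / (4 * n) = M * (((q * η : ℤ) : ℝ) / (4 * n)) := by
        push_cast; ring
      rw [e2, Real.mul_rpow hM0.le (by positivity)]
      ring
    rw [e]
    exact mul_le_mul_of_nonneg_left (Real.rpow_le_rpow_of_nonpos hc₀ hc (by linarith)) hA0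
  · have hzZ : z ∈ {z | (∃ p : ℤ × ℤ, Conn ω (BR (cB, h) RB) X p ∧
        InCell (c + 8 * (M * q * η)) (h + w) M q η z p) ∧
        Seen ω 0 (c + 8 * (M * q * η)) (h + w) M q η z} := by
      by_contra hcon
      exact hne (g1 z hcon)
    obtain ⟨⟨v, hv, hvz⟩, hseen⟩ := hzZ
    exact ht.hit hn hu hX hη hηw hρ hpm hσ
      (CL_of_conn ht.mem (hv.mono (Finset.coe_subset.2 hsub))) hvz hseen

end Pool.Agent.PercBc

end Partperc6BcCell

section PartoccOccDefs

/-!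
# Occupied and visible cells of a strand in a window: definitions

The window is a square of `n × n` cells of side `a`. A strand enters through a unit edge of the left
side and leaves through the right side. A cell is occupied if it is visited and if a chain of
neighbouring faces at distance more than `ρ` from the strand leads from it to the upper side of the
window.
-/

set_option autoImplicit false

namespace Pool.Agent.Occ

open Finset Filter Pool.Agent.Perc Pool.Agent.PercL Pool.Agent.Perc3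

/-- The faces of the window. -/
noncomputable def Wn (n a : ℤ) : Finset (ℤ × ℤ) := RF 0 (n * a) 0 (n * a)

/-- The unit edge of the left side of the window. -/
def eL (y : ℤ) : UE := (0, y, true)

/-- The component of the unit edge `e` of the left side reaches the right side. -/
def Lr (n a : ℤ) (ω : Cfg) (e : UE) : Prop := ∃ y, ((n * a, y, true) : UE) ∈ MM ω (Wn n a) e

/-- The face `f` is in the cell `c`. -/
def InC (a : ℤ) (c f : ℤ × ℤ) : Prop :=
  c.1 * a ≤ f.1 ∧ f.1 < (c.1 + 1) * a ∧ c.2 * a ≤ f.2 ∧ f.2 < (c.2 + 1) * a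

/-- The face `f` is at distance at most one from the cell `c`. -/
def NearC (a : ℤ) (c f : ℤ × ℤ) : Prop :=
  c.1 * a - 1 ≤ f.1 ∧ f.1 ≤ (c.1 + 1) * a ∧ c.2 * a - 1 ≤ f.2 ∧ f.2 ≤ (c.2 + 1) * a

/-- The face `f` is at distance more than `ρ` from the faces of `S`. -/
def Clr (ρ : ℤ) (S : Set (ℤ × ℤ)) (f : ℤ × ℤ) : Prop := ∀ g ∈ S, ρ < max |f.1 - g.1| |f.2 - g.2|

/-- Chains of neighbouring faces of `F` at distance more than `ρ` from `S`. -/
def ChC (F : Set (ℤ × ℤ)) (ρ : ℤ) (S : Set (ℤ × ℤ)) : ℤ × ℤ → ℤ × ℤ → Prop :=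
  Relation.ReflTransGen fun f g => Adj4 f g ∧ f ∈ F ∧ g ∈ F ∧ Clr ρ S f ∧ Clr ρ S g

/-- The cell `c` is occupied: it is visited by the component of `e` and a chain of faces at distance
more than `ρ` from the component leads from a face next to the cell to the upper row of the
window. -/
def OccC (n a ρ : ℤ) (ω : Cfg) (e : UE) (c : ℤ × ℤ) : Prop :=
  (∃ f ∈ SS ω (Wn n a) e, InC a c f) ∧
    ∃ g h, NearC a c g ∧ g ∈ Wn n a ∧ Clr ρ (SS ω (Wn n a) e) g ∧ h.2 = n * a - 1 ∧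
      ChC (Wn n a) ρ (SS ω (Wn n a) e) g h

/-- The cells of the middle of the window. -/
def Mid (n : ℤ) (c : ℤ × ℤ) : Prop := 3 * n ≤ 8 * c.1 ∧ 8 * c.1 < 5 * n ∧ 3 * n ≤ 8 * c.2 ∧ 8 * c.2 < 5 * n

/-- The distance of two cells, at least one. -/
noncomputable def dC (c c' : ℤ × ℤ) : ℝ := max 1 (max (|c.1 - c'.1| : ℤ) (|c.2 - c'.2| : ℤ))

/-- The expected number of unit edges `e` of the left side with the property `A e`. -/
noncomputable def EL (n a : ℤ) (A : UE → Set Cfg) : ℝ := ∑ y ∈ Ico 0 (n * a), pr (Wn n a) (A (eL y))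

/-- (O1) One point estimate from below. -/
def OneLow : Prop := ∃ c₀ : ℝ, 0 < c₀ ∧ ∃ n₀ : ℕ, ∀ n : ℕ, n₀ ≤ n → ∃ k : ℕ, 0 < k ∧
  ∀ᶠ a : ℕ in atTop, ∀ ρ : ℤ, 0 ≤ ρ → k * ρ ≤ a → ∀ c : ℤ × ℤ, Mid n c →
    c₀ * (n : ℝ) ^ (-(2 / 3) : ℝ) ≤ EL n a fun e => {ω | Lr n a ω e ∧ OccC n a ρ ω e c}

/-- (O2) Two point estimate from above. -/
def TwoUp : Prop := ∃ C : ℝ, 0 < C ∧ ∃ n₀ : ℕ, ∀ n : ℕ, n₀ ≤ n → ∀ k : ℕ, ∀ᶠ a : ℕ in atTop,
  ∀ ρ : ℤ, (a : ℤ) ≤ k * ρ → ∀ c c' : ℤ × ℤ, Mid n c → Mid n c' →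
    EL n a (fun e => {ω | Lr n a ω e ∧ OccC n a ρ ω e c ∧ OccC n a ρ ω e c'}) ≤
      C * (n : ℝ) ^ (-(2 / 3) : ℝ) * dC c c' ^ (-(2 / 3) : ℝ)

/-- The expected number of strands which cross the window. -/
def MuTot : Prop := ∃ C : ℝ, ∀ n a : ℕ, 0 < n → 0 < a → EL n a (fun e => {ω | Lr n a ω e}) ≤ C

open Classical in
/-- The occupied cells of the middle carry a probability measure of energy at most `A`. -/
def GoodW (s A : ℝ) (n a ρ : ℤ) (ω : Cfg) (e : UE) : Prop :=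
  ∃ p : ℤ × ℤ → ℝ, (∀ c, 0 ≤ p c) ∧ (∀ c, p c ≠ 0 → Mid n c ∧ OccC n a ρ ω e c) ∧
    ∑ c ∈ Ico 0 n ×ˢ Ico 0 n, p c = 1 ∧
    ∑ c ∈ Ico 0 n ×ˢ Ico 0 n, ∑ c' ∈ Ico 0 n ×ˢ Ico 0 n, p c * p c' * (dC c c' / n) ^ (-s) ≤ A

/-- The hypothesis on the occupied cells. -/
def OccHyp : Prop := ∀ s : ℝ, 0 < s → s < 4 / 3 → ∃ c₀ A : ℝ, 0 < c₀ ∧ ∃ n₀ : ℕ, ∀ n : ℕ, n₀ ≤ n →
  ∃ k : ℕ, 0 < k ∧ ∀ᶠ a : ℕ in atTop, ∀ ρ : ℤ, 0 ≤ ρ → k * ρ ≤ a →
    c₀ ≤ EL n a fun e => {ω | Lr n a ω e ∧ GoodW s A n a ρ ω e}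

end Pool.Agent.Occ

end PartoccOccDefs

section Parth60AnnDet

/-!
# Two strands and a corridor across an annulus: deterministic part
-/

set_option autoImplicit false

namespace Pool.Agent.PercS5

open Relation
open Pool.Agent.Perc Pool.Agent.Perc3 Pool.Agent.PercD

variable {ω : Cfg} {L w L' w' d D : ℤ} {M : ℕ}

/-- Two different strands cross the annulus between the box of radius `d` and the rectangle
`[-L, L] × [-w, w]`, and a corridor with at most `M` corners is at distance more than `D` from both.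
-/
def Av (L w d D : ℤ) (M : ℕ) : Set Cfg :=
  {ω | ∃ s s' : UE, BdE (-d) d (-d) d s ∧ BdE (-d) d (-d) d s' ∧ s' ∉ MM ω (AnF L w d) s ∧
    (∃ t ∈ MM ω (AnF L w d) s, BdE (-L) L (-w) w t) ∧
    (∃ t ∈ MM ω (AnF L w d) s', BdE (-L) L (-w) w t) ∧
    ∃ (u : ℤ × ℤ) (l : List (ℤ × ℤ)), Corr L w d u l ∧ l.length ≤ M ∧
      ∀ f ∈ SS ω (AnF L w d) s ∪ SS ω (AnF L w d) s', FarP D u l f}

/-- A strand of a unit edge of the inner box reaches the boundary, and a corridor with at most `M`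
corners is at distance more than `D` from it. -/
def Ev (L w d D : ℤ) (M : ℕ) : Set Cfg :=
  {ω | ∃ e : UE, InE (0, 0) d e ∧ (∃ t ∈ MM ω (RF (-L) L (-w) w) e, BdE (-L) L (-w) w t) ∧
    ∃ (u : ℤ × ℤ) (l : List (ℤ × ℤ)), Corr L w d u l ∧ l.length ≤ M ∧
      ∀ f ∈ SS ω (RF (-L) L (-w) w) e, FarP D u l f}

/-! ### Trimming corridors -/

theorem trim' (l : List (ℤ × ℤ)) : ∀ u : ℤ × ℤ, |u.1| ≤ L → |u.2| ≤ w → Rectil u l →
    ¬ (|(lst u l).1| ≤ L ∧ |(lst u l).2| ≤ w) →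
    ∃ l', Rectil u l' ∧ l'.length ≤ l.length ∧ Init (fun p => |p.1| ≤ L ∧ |p.2| ≤ w) u l' ∧
      ((|(lst u l').1| ≤ L ∧ |(lst u l').2| = w + 1) ∨
        (|(lst u l').1| = L + 1 ∧ |(lst u l').2| ≤ w)) ∧ ∀ a, OnPath u l' a → OnPath u l a := by
  induction l with
  | nil => intro u h1 h2 _ h3; exact absurd ⟨h1, h2⟩ h3
  | cons v l ih =>
    intro u h1 h2 h h3
    by_cases hv : |v.1| ≤ L ∧ |v.2| ≤ w
    · obtain ⟨l', k1, k2, k3, k4, k5⟩ := ih v hv.1 hv.2 h.2 h3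
      exact ⟨v :: l', ⟨h.1, k1⟩, by simpa using k2, ⟨⟨h1, h2⟩, k3⟩, k4, fun a ha =>
        ha.imp id (k5 a)⟩
    · have hax := h.1
      have key : ∀ v' : ℤ × ℤ, (u.1 = v'.1 ∨ u.2 = v'.2) →
          (∀ a, OnSeg u v' a → OnSeg u v a) →
          ((|v'.1| ≤ L ∧ |v'.2| = w + 1) ∨ (|v'.1| = L + 1 ∧ |v'.2| ≤ w)) →
          ∃ l', Rectil u l' ∧ l'.length ≤ (v :: l).length ∧
            Init (fun p => |p.1| ≤ L ∧ |p.2| ≤ w) u l' ∧
            ((|(lst u l').1| ≤ L ∧ |(lst u l').2| = w + 1) ∨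
              (|(lst u l').1| = L + 1 ∧ |(lst u l').2| ≤ w)) ∧
              ∀ a, OnPath u l' a → OnPath u (v :: l) a := by
        intro v' k1 k2 k3
        refine ⟨[v'], ⟨k1, trivial⟩, by simp, ⟨⟨h1, h2⟩, trivial⟩, k3, fun a ha => Or.inl ?_⟩
        rcases ha with ha | ha
        · exact k2 a ha
        · exact absurd ha (by simp [OnPath])
      rw [abs_le] at h1 h2
      rw [abs_le, abs_le] at hv
      rcases hax with hax | hax
      · rcases lt_or_ge w v.2 with hw | hw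
        · refine key (u.1, w + 1) (Or.inl rfl) ?_ (Or.inl ⟨?_, ?_⟩)
          · rintro a (⟨h0, ha⟩ | ⟨h0, ha⟩)
            · left; simp only at ha; exact ⟨h0, by omega⟩
            · right; simp only at ha; exact ⟨h0, by omega⟩
          · simp only; rw [abs_le]; omega
          · simp only; rw [abs_of_nonneg (by omega)]
        · refine key (u.1, -(w + 1)) (Or.inl rfl) ?_ (Or.inl ⟨?_, ?_⟩)
          · rintro a (⟨h0, ha⟩ | ⟨h0, ha⟩)
            · left; simp only at ha; exact ⟨h0, by omega⟩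
            · right; simp only at ha; exact ⟨h0, by omega⟩
          · simp only; rw [abs_le]; omega
          · simp only; rw [abs_neg, abs_of_nonneg (by omega)]
      · rcases lt_or_ge L v.1 with hw | hw
        · refine key (L + 1, u.2) (Or.inr rfl) ?_ (Or.inr ⟨?_, ?_⟩)
          · rintro a (⟨h0, ha⟩ | ⟨h0, ha⟩)
            · left; simp only at ha; exact ⟨h0, by omega⟩
            · right; simp only at ha; exact ⟨h0, by omega⟩
          · simp only; rw [abs_of_nonneg (by omega)]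
          · simp only; rw [abs_le]; omega
        · refine key (-(L + 1), u.2) (Or.inr rfl) ?_ (Or.inr ⟨?_, ?_⟩)
          · rintro a (⟨h0, ha⟩ | ⟨h0, ha⟩)
            · left; simp only at ha; exact ⟨h0, by omega⟩
            · right; simp only at ha; exact ⟨h0, by omega⟩
          · simp only; rw [abs_neg, abs_of_nonneg (by omega)]
          · simp only; rw [abs_le]; omega

theorem FarP.mono_path {u : ℤ × ℤ} {l l' : List (ℤ × ℤ)} {f : ℤ × ℤ}
    (h : ∀ a, OnPath u l' a → OnPath u l a) (hf : FarP D u l f) : FarP D u l' f :=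
  fun a ha => hf a (h a ha)

/-- A corridor in a smaller rectangle. -/
theorem corr_trim {u : ℤ × ℤ} {l : List (ℤ × ℤ)} (h : Corr L w d u l) (hL : L' ≤ L)
    (hw : w' ≤ w) (hdL : d ≤ L') (hdw : d ≤ w') :
    ∃ l', Corr L' w' d u l' ∧ l'.length ≤ l.length ∧ ∀ a, OnPath u l' a → OnPath u l a := by
  have h1 := h.inn
  have h2 := h.out
  obtain ⟨l', k1, k2, k3, k4, k5⟩ := trim' (L := L') (w := w') l u (by omega) (by omega) h.rect
    (by omega)
  exact ⟨l', ⟨k1, h1, k3, k4⟩, k2, k5⟩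

/-! ### The closed rectangle -/

/-- The unit edge is in the closed rectangle `[-L, L] × [-w, w]`. -/
def InK (L w : ℤ) (a : UE) : Prop := InR (-L) L (-w) w (ua a) ∧ InR (-L) L (-w) w (ub a)

theorem inK_of_side {f : ℤ × ℤ} {a : UE} (hf : f ∈ AnF L w d) (hs : IsSide f a) : InK L w a := by
  rw [mem_AnF] at hf
  obtain ⟨x, y⟩ := f
  unfold InK InR
  rcases hs with rfl | rfl | rfl | rfl
  · simp only [bo, ua_mk, ub_false] at hf ⊢; omega
  · simp only [le', ua_mk, ub_true] at hf ⊢; omega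
  · simp only [to', ua_mk, ub_false] at hf ⊢; omega
  · simp only [ri, ua_mk, ub_true] at hf ⊢; omega

theorem inK_of_bd {s : UE} (hs : BdE (-d) d (-d) d s) (hdL : d ≤ L) (hdw : d ≤ w) :
    InK L w s := by
  obtain ⟨x, y, t⟩ := s
  unfold BdE at hs
  unfold InK InR
  simp only at hs
  rcases hs with ⟨rfl, h1, h2, h3⟩ | ⟨rfl, h1, h2, h3⟩
  · simp only [ua_mk, ub_false]; omega
  · simp only [ua_mk, ub_true]; omega

theorem MM_inK {s a : UE} (hs : InK L w s) (ha : a ∈ MM ω (AnF L w d) s) : InK L w a := by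
  induction ha with
  | refl => exact hs
  | tail _ hs _ =>
    obtain ⟨f, hf, hm⟩ := hs
    exact inK_of_side (Finset.mem_coe.1 hf) hm.right

theorem bdE_of_side {f : ℤ × ℤ} {a : UE} (ha : InK L w a) (hs : IsSide f a)
    (hf : ¬ (-L ≤ f.1 ∧ f.1 < L ∧ -w ≤ f.2 ∧ f.2 < w)) : BdE (-L) L (-w) w a := by
  obtain ⟨x, y⟩ := f
  unfold InK InR at ha
  unfold BdE
  rcases hs with rfl | rfl | rfl | rfl
  · simp only [bo, ua_mk, ub_false] at ha ⊢
    simp at hf ⊢
    omega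
  · simp only [le', ua_mk, ub_true] at ha ⊢
    simp at hf ⊢
    omega
  · simp only [to', ua_mk, ub_false] at ha ⊢
    simp at hf ⊢
    omega
  · simp only [ri, ua_mk, ub_true] at ha ⊢
    simp at hf ⊢
    omega

theorem out_of_bdE {a : UE} (h : BdE (-L) L (-w) w a) :
    ∃ f : ℤ × ℤ, ¬ (-L ≤ f.1 ∧ f.1 < L ∧ -w ≤ f.2 ∧ f.2 < w) ∧ IsSide f a := by
  obtain ⟨x, y, t⟩ := a
  unfold BdE at h
  simp only at h
  rcases h with ⟨rfl, h1, h2, h3⟩ | ⟨rfl, h1, h2, h3⟩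
  · rcases h3 with h3 | h3
    · refine ⟨(x, y - 1), ?_, Or.inr (Or.inr (Or.inl ?_))⟩
      · simp only; omega
      · simp [to']
    · exact ⟨(x, y), by simp only; omega, Or.inl rfl⟩
  · rcases h3 with h3 | h3
    · refine ⟨(x - 1, y), ?_, Or.inr (Or.inr (Or.inr ?_))⟩
      · simp only; omega
      · simp [ri]
    · exact ⟨(x, y), by simp only; omega, Or.inr (Or.inl rfl)⟩

theorem AnF_sub (hL : L' ≤ L) (hw : w' ≤ w) :
    (AnF L' w' d : Set (ℤ × ℤ)) ⊆ (AnF L w d : Set (ℤ × ℤ)) := by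
  intro f hf
  rw [Finset.mem_coe, mem_AnF] at hf ⊢
  omega

/-- Reaching the boundary of a smaller rectangle. -/
theorem reach_mono {s : UE} (hs : BdE (-d) d (-d) d s) (hL : L' ≤ L) (hw : w' ≤ w) (hdL : d ≤ L')
    (hdw : d ≤ w') (h : ∃ t ∈ MM ω (AnF L w d) s, BdE (-L) L (-w) w t) :
    ∃ t ∈ MM ω (AnF L' w' d) s, BdE (-L') L' (-w') w' t := by
  obtain ⟨t, ht, htb⟩ := h
  have hK := inK_of_bd (L := L') (w := w') hs hdL hdw
  rcases first_exit' (F := (AnF L' w' d : Set (ℤ × ℤ))) ht with h1 | ⟨b, hb, f, hf, hf', hsd⟩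
  · obtain ⟨f, hf, hsd⟩ := out_of_bdE htb
    exact ⟨t, h1, bdE_of_side (MM_inK hK h1) hsd (by omega)⟩
  · refine ⟨b, hb, bdE_of_side (MM_inK hK hb) hsd ?_⟩
    rw [Finset.mem_coe, mem_AnF] at hf hf'
    omega

theorem Av_mono (hL : L' ≤ L) (hw : w' ≤ w) (hdL : d ≤ L') (hdw : d ≤ w') :
    Av L w d D M ⊆ Av L' w' d D M := by
  rintro ω ⟨s, s', hs, hs', hne, ht, ht', u, l, hc, hl, hfar⟩
  have hsub := AnF_sub (d := d) hL hw
  obtain ⟨l', k1, k2, k3⟩ := corr_trim hc hL hw hdL hdw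
  refine ⟨s, s', hs, hs', fun h => hne (MM_mono hsub h), reach_mono hs hL hw hdL hdw ht,
    reach_mono hs' hL hw hdL hdw ht', u, l', k1, k2.trans hl, fun f hf => ?_⟩
  refine FarP.mono_path k3 (hfar f ?_)
  rcases hf with ⟨hf, a, ha, hsd⟩ | ⟨hf, a, ha, hsd⟩
  · exact Or.inl ⟨hsub hf, a, MM_mono hsub ha, hsd⟩
  · exact Or.inr ⟨hsub hf, a, MM_mono hsub ha, hsd⟩

/-! ### Three tips -/

/-- A component contains at most two unit edges with a side face outside. -/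
theorem tips_gen {F : Set (ℤ × ℤ)} {t t' t'' : UE} (h1 : t' ∈ MM ω F t) (h2 : t'' ∈ MM ω F t)
    (b : ∃ s, Tips.ahead (t, s) ∉ F) (b' : ∃ s, Tips.ahead (t', s) ∉ F)
    (b'' : ∃ s, Tips.ahead (t'', s) ∉ F) : t = t' ∨ t = t'' ∨ t' = t'' := by
  obtain ⟨s₀, hs₀⟩ := b
  have key : ∀ x, x ∈ MM ω F t → x ≠ t → (∃ s, Tips.ahead (x, s) ∉ F) →
      ∃ dd, Relation.ReflTransGen (Tips.R ω F) (t, !s₀) (x, dd) ∧ Tips.ahead (x, dd) ∉ F := by
    rintro x hx hne ⟨s₁, hs₁⟩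
    obtain ⟨s, dd, h⟩ := Tips.reach hx
    have hss : s = !s₀ := by
      by_contra hcon
      have : s = s₀ := by cases s <;> cases s₀ <;> simp_all
      subst this
      rcases Relation.ReflTransGen.cases_head h with h' | ⟨E, hE, -⟩
      · simp only [Prod.mk.injEq] at h'
        exact hne h'.1.symm
      · exact hs₀ hE.1
    subst hss
    refine ⟨dd, h, ?_⟩
    rcases Relation.ReflTransGen.cases_tail h with h' | ⟨B, hB, hBF, hB2⟩
    · simp only [Prod.mk.injEq] at h'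
      exact absurd h'.1 hne
    · have h1 : Tips.ahead (x, !dd) ∈ F := by
        have := Tips.ahead_rv_nx ω B
        rw [← hB2] at this
        have e : Tips.rv (x, dd) = (x, !dd) := rfl
        rw [e] at this
        rw [this]
        exact hBF
      have : s₁ ≠ !dd := by
        intro h'
        rw [h'] at hs₁
        exact hs₁ h1
      have : s₁ = dd := by cases s₁ <;> cases dd <;> simp_all
      rw [← this]
      exact hs₁
  by_cases e1 : t = t'
  · exact Or.inl e1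
  by_cases e2 : t = t''
  · exact Or.inr (Or.inl e2)
  obtain ⟨d1, k1, k2⟩ := key t' h1 (Ne.symm e1) b'
  obtain ⟨d2, k3, k4⟩ := key t'' h2 (Ne.symm e2) b''
  exact Or.inr (Or.inr (congrArg Prod.fst (Tips.eq_of_terminal k1 k3 k2 k4)))

theorem ahead_out_outer {t : UE} (h : BdE (-L) L (-w) w t) :
    ∃ s, Tips.ahead (t, s) ∉ (AnF L w d : Set (ℤ × ℤ)) := by
  obtain ⟨x, y, b⟩ := t
  unfold BdE at h
  simp only at h
  rcases h with ⟨rfl, h1, h2, h3⟩ | ⟨rfl, h1, h2, h3⟩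
  · rcases h3 with h3 | h3
    · exact ⟨false, by simp only [Tips.ahead]; rw [Finset.mem_coe, mem_AnF]; simp only; omega⟩
    · exact ⟨true, by simp only [Tips.ahead]; rw [Finset.mem_coe, mem_AnF]; simp only; omega⟩
  · rcases h3 with h3 | h3
    · exact ⟨false, by simp only [Tips.ahead]; rw [Finset.mem_coe, mem_AnF]; simp only; omega⟩
    · exact ⟨true, by simp only [Tips.ahead]; rw [Finset.mem_coe, mem_AnF]; simp only; omega⟩

theorem ahead_out_inner {t : UE} (h : BdE (-d) d (-d) d t) :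
    ∃ s, Tips.ahead (t, s) ∉ (AnF L w d : Set (ℤ × ℤ)) := by
  obtain ⟨x, y, b⟩ := t
  unfold BdE at h
  simp only at h
  rcases h with ⟨rfl, h1, h2, h3⟩ | ⟨rfl, h1, h2, h3⟩
  · rcases h3 with h3 | h3
    · exact ⟨true, by simp only [Tips.ahead]; rw [Finset.mem_coe, mem_AnF]; simp only; omega⟩
    · exact ⟨false, by simp only [Tips.ahead]; rw [Finset.mem_coe, mem_AnF]; simp only; omega⟩
  · rcases h3 with h3 | h3
    · exact ⟨true, by simp only [Tips.ahead]; rw [Finset.mem_coe, mem_AnF]; simp only; omega⟩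
    · exact ⟨false, by simp only [Tips.ahead]; rw [Finset.mem_coe, mem_AnF]; simp only; omega⟩

/-- The inner and the outer boundary have no common unit edge. -/
theorem bdE_ne {s t : UE} (hs : BdE (-d) d (-d) d s) (ht : BdE (-L) L (-w) w t) (hdL : d < L)
    (hdw : d < w) : s ≠ t := by
  rintro rfl
  unfold BdE at hs ht
  rcases hs with ⟨h0, h⟩ | ⟨h0, h⟩ <;> rcases ht with ⟨h0', h'⟩ | ⟨h0', h'⟩
  · omega
  · rw [h0] at h0'; exact absurd h0' (by decide)
  · rw [h0] at h0'; exact absurd h0' (by decide)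
  · omega

/-- The box event implies the annulus event. -/
theorem Ev_sub_Av (hd : 0 < d) (hdL : d < L) (hdw : d < w) : Ev L w d D M ⊆ Av L w d D M := by
  rintro ω ⟨e, he, ⟨t, ht, htb⟩, u, l, hc, hl, hfar⟩
  obtain ⟨t', ht', htb', hne⟩ := Pool.Agent.PercT.exists_other (x₀ := -L) (x₁ := L)
    (y₀ := -w) (y₁ := w) (by omega) (by omega) ht htb
  have hset : ((RF (-L) L (-w) w : Finset (ℤ × ℤ)) : Set (ℤ × ℤ)) \ BR (0, 0) d =
      (AnF L w d : Set (ℤ × ℤ)) := by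
    ext f
    rw [Set.mem_sdiff, mem_RF', mem_BR', Finset.mem_coe, mem_AnF]
    simp only
    omega
  have hBd : ∀ s, BdR (0, 0) d s → BdE (-d) d (-d) d s := by
    intro s h
    unfold BdR at h
    simpa using h
  have key : ∀ t, t ∈ MM ω (RF (-L) L (-w) w) e → BdE (-L) L (-w) w t →
      ∃ s ∈ MM ω (RF (-L) L (-w) w) e, BdE (-d) d (-d) d s ∧ t ∈ MM ω (AnF L w d) s := by
    intro t ht htb
    rcases last_exit' he ht with h | ⟨s, hsM, hs, hst⟩
    · exfalso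
      unfold InE InR at h
      unfold BdE at htb
      obtain ⟨x, y, b⟩ := t
      simp only at h htb
      rcases htb with ⟨rfl, h1, h2, h3⟩ | ⟨rfl, h1, h2, h3⟩
      · simp only [ua_mk, ub_false] at h; omega
      · simp only [ua_mk, ub_true] at h; omega
    · rw [hset] at hst
      exact ⟨s, hsM, hBd s hs, hst⟩
  obtain ⟨s, hsM, hs, hst⟩ := key t ht htb
  obtain ⟨s', hsM', hs', hst'⟩ := key t' ht' htb'
  have hsub : (AnF L w d : Set (ℤ × ℤ)) ⊆ (RF (-L) L (-w) w : Finset (ℤ × ℤ)) := by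
    rw [← hset]; exact Set.sdiff_subset
  refine ⟨s, s', hs, hs', ?_, ⟨t, hst, htb⟩, ⟨t', hst', htb'⟩, u, l, hc, hl, fun f hf => hfar f ?_⟩
  · intro h
    -- three tips `s`, `t`, `t'`
    have h1 : t' ∈ MM ω (AnF L w d) s := MM_trans h hst'
    rcases tips_gen hst h1 (ahead_out_inner hs) (ahead_out_outer htb) (ahead_out_outer htb') with
      h2 | h2 | h2
    · exact bdE_ne hs htb hdL hdw h2
    · exact bdE_ne hs htb' hdL hdw h2
    · exact hne h2.symm
  · rcases hf with ⟨hf, a, ha, hsd⟩ | ⟨hf, a, ha, hsd⟩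
    · exact ⟨hsub hf, a, MM_trans hsM (MM_mono hsub ha), hsd⟩
    · exact ⟨hsub hf, a, MM_trans hsM' (MM_mono hsub ha), hsd⟩

/-! ### The lateral event -/

/-- A strand of the inner boundary comes near the lateral sides. -/
def LatA (L w d X : ℤ) : Set Cfg :=
  {ω | ∃ s, BdE (-d) d (-d) d s ∧ ∃ a ∈ MM ω (AnF L w d) s, X ≤ (ua a).1 ∨ (ub a).1 ≤ -X}

/-- Without the lateral event the strands start at the upper and lower sides. -/
theorem corrU_of_Av (h : ω ∈ Av L w d D M) (hLat : ω ∉ LatA L w d L) :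
    ω ∈ CorrU L w d D M := by
  obtain ⟨s, s', hs, hs', hne, ⟨t, ht, htb⟩, ⟨t', ht', htb'⟩, u, l, hc, hl, hfar⟩ := h
  have key : ∀ s t, BdE (-d) d (-d) d s → t ∈ MM ω (AnF L w d) s → BdE (-L) L (-w) w t →
      t ∈ TBF L w := by
    intro s t hs ht htb
    obtain ⟨x, y, b⟩ := t
    unfold BdE at htb
    simp only at htb
    rcases htb with ⟨rfl, h1, h2, h3⟩ | ⟨rfl, h1, h2, h3⟩
    · rw [mem_TBF]
      exact ⟨h1, h2, h3, rfl⟩
    · exfalso
      refine hLat ⟨s, hs, _, ht, ?_⟩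
      rw [ua_mk, ub_true]
      simp only
      rcases h3 with h3 | h3
      · right; omega
      · left; omega
  refine ⟨t, key s t hs ht htb, t', key s' t' hs' ht' htb', ?_, ⟨s, MM_symm ht, hs⟩,
    ⟨s', MM_symm ht', hs'⟩, u, l, hc, hl, ?_⟩
  · rintro rfl
    exact hne (MM_trans ht (MM_symm ht'))
  · intro f hf
    refine hfar f ?_
    unfold SS at hf ⊢
    rw [MM_eq ht, MM_eq ht'] at hf
    exact hf

end Pool.Agent.PercS5

end Parth60AnnDet

section Parth60AnnSharp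

/-!
# The sharp bound for two strands and a corridor across an annulus
-/

set_option autoImplicit false

namespace Pool.Agent.PercS5

open Relation Filter Topology
open Pool.Agent.Perc Pool.Agent.Perc3 Pool.Agent.PercD

variable {ω : Cfg} {L w L' w' d D : ℤ} {M : ℕ}

theorem depOn_Av (L w d D : ℤ) (M : ℕ) : DepOn (AnF L w d : Set (ℤ × ℤ)) (Av L w d D M) := by
  intro ω ω' h
  have hM : ∀ b, MM ω' (AnF L w d) b = MM ω (AnF L w d) b := fun b => MM_congr' h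
  have hS : ∀ b, SS ω' (AnF L w d) b = SS ω (AnF L w d) b := fun b => by
    unfold SS
    rw [hM]
  unfold Av
  simp only [Set.mem_ofPred_eq, hM, hS]

theorem depOn_Ev (L w d D : ℤ) (M : ℕ) :
    DepOn (RF (-L) L (-w) w : Set (ℤ × ℤ)) (Ev L w d D M) := by
  intro ω ω' h
  have hM : ∀ b, MM ω' (RF (-L) L (-w) w) b = MM ω (RF (-L) L (-w) w) b := fun b => MM_congr' h
  have hS : ∀ b, SS ω' (RF (-L) L (-w) w) b = SS ω (RF (-L) L (-w) w) b := fun b => by
    unfold SS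
    rw [hM]
  unfold Ev
  simp only [Set.mem_ofPred_eq, hM, hS]

theorem AnF_sub_RF : AnF L w d ⊆ RF (-L) L (-w) w := by
  intro f hf
  rw [mem_AnF] at hf
  rw [Perc.mem_RF]
  exact hf.1

/-- The crossings of the blocks on both sides of the box of radius `w`. -/
def LO (w : ℤ) (N : ℕ) : Set Cfg :=
  (Blocks 0 w 0 w N ∪ Blocks 1 w 0 w N) ∪
    (Blocks 0 (-w - 2 * w * N) 0 w N ∪ Blocks 1 (-w - 2 * w * N) 0 w N)

/-- The faces of the blocks. -/
noncomputable def LOF (w : ℤ) (N : ℕ) : Finset (ℤ × ℤ) :=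
  RF w (w + 2 * w * N) (0 - w) (0 + w) ∪ RF (-w - 2 * w * N) (-w - 2 * w * N + 2 * w * N) (0 - w) (0 + w)

theorem depOn_LO {w : ℤ} (hw : 0 < w) (N : ℕ) : DepOn (LOF w N : Set (ℤ × ℤ)) (LO w N) := by
  have h1 : (RF w (w + 2 * w * N) (0 - w) (0 + w) : Set (ℤ × ℤ)) ⊆ LOF w N := by
    unfold LOF; rw [Finset.coe_union]; exact Set.subset_union_left
  have h2 : (RF (-w - 2 * w * N) (-w - 2 * w * N + 2 * w * N) (0 - w) (0 + w) : Set (ℤ × ℤ)) ⊆
      LOF w N := by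
    unfold LOF; rw [Finset.coe_union]; exact Set.subset_union_right
  exact depOn_union (depOn_union (PercD.depOn_mono h1 (depOn_blocks 0 w 0 w N hw))
    (PercD.depOn_mono h1 (depOn_blocks 1 w 0 w N hw)))
    (depOn_union (PercD.depOn_mono h2 (depOn_blocks 0 _ 0 w N hw))
      (PercD.depOn_mono h2 (depOn_blocks 1 _ 0 w N hw)))

theorem pr_LO {θ : ℝ} (hθ : ∀ (col x y w : ℤ) (N : ℕ), 0 < w →
    pr (RF x (x + 2 * w * N) (y - w) (y + w)) (Blocks col x y w N) ≤ θ ^ N) {w : ℤ} (hw : 0 < w)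
    (N : ℕ) : pr (LOF w N) (LO w N) ≤ 4 * θ ^ N := by
  have h1 : RF w (w + 2 * w * N) (0 - w) (0 + w) ⊆ LOF w N := Finset.subset_union_left
  have h2 : RF (-w - 2 * w * N) (-w - 2 * w * N + 2 * w * N) (0 - w) (0 + w) ⊆ LOF w N :=
    Finset.subset_union_right
  have a1 := hθ 0 w 0 w N hw
  have a2 := hθ 1 w 0 w N hw
  have a3 := hθ 0 (-w - 2 * w * N) 0 w N hw
  have a4 := hθ 1 (-w - 2 * w * N) 0 w N hw
  rw [← pr_eq_of_depOn (depOn_blocks 0 w 0 w N hw) h1] at a1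
  rw [← pr_eq_of_depOn (depOn_blocks 1 w 0 w N hw) h1] at a2
  rw [← pr_eq_of_depOn (depOn_blocks 0 _ 0 w N hw) h2] at a3
  rw [← pr_eq_of_depOn (depOn_blocks 1 _ 0 w N hw) h2] at a4
  have b1 := pr_union_le (LOF w N) (Blocks 0 w 0 w N) (Blocks 1 w 0 w N)
  have b2 := pr_union_le (LOF w N) (Blocks 0 (-w - 2 * w * N) 0 w N)
    (Blocks 1 (-w - 2 * w * N) 0 w N)
  have b3 := pr_union_le (LOF w N) (Blocks 0 w 0 w N ∪ Blocks 1 w 0 w N)
    (Blocks 0 (-w - 2 * w * N) 0 w N ∪ Blocks 1 (-w - 2 * w * N) 0 w N)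
  unfold LO
  linarith

/-- The lateral event implies crossings of the blocks. -/
theorem latA_sub {N : ℕ} (hw : 0 < w) (hdw : d ≤ w) :
    LatA (w + 2 * w * N) w d (w + 2 * w * N) ⊆ LO w N := by
  rintro ω ⟨s, hs, a, ha, hlat⟩
  have hF : ∀ f ∈ (AnF (w + 2 * w * N) w d : Set (ℤ × ℤ)), 0 - w ≤ f.2 ∧ f.2 < 0 + w := by
    intro f hf
    rw [Finset.mem_coe, mem_AnF] at hf
    omega
  obtain ⟨p, q, hj, -, hc⟩ := MM_conn (Or.inl ⟨rfl, rfl⟩ : Joins s (ua s) (ub s)) ha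
  have hc' := hc.mono SS_sub
  have h3 : (ua a).1 ≤ (ub a).1 := by
    obtain ⟨x, y, _ | _⟩ := a <;> simp [ua, ub]
  have h4 : (ua a).1 ≤ p.1 ∧ p.1 ≤ (ub a).1 := by
    rcases hj with ⟨rfl, -⟩ | ⟨rfl, -⟩
    · exact ⟨le_rfl, h3⟩
    · exact ⟨h3, le_rfl⟩
  have h5 : -d ≤ (ua s).1 ∧ (ua s).1 ≤ d := by
    obtain ⟨x, y, b⟩ := s
    unfold BdE at hs
    simp only at hs
    rw [ua_mk]
    simp only
    omega
  rcases hlat with hl | hl
  · exact Or.inl (long_sub (x := w) (y := 0) hw hF ⟨ua s, p, by omega, by omega, hc'⟩)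
  · exact Or.inr (long_sub (x := -w - 2 * w * N) (y := 0) hw hF
      ⟨p, ua s, by omega, by omega, hc'.symm⟩)

/-- The recursion. -/
theorem av_step {θ C : ℝ} {A : ℤ} {N : ℕ} (hθ : ∀ (col x y w : ℤ) (N : ℕ), 0 < w →
      pr (RF x (x + 2 * w * N) (y - w) (y + w)) (Blocks col x y w N) ≤ θ ^ N)
    (hC : ∀ L w d N : ℤ, 1 < d → 1 ≤ N → N + 2 ≤ d → A * d < w → w ≤ L →
      ∑ p ∈ ((TBF L w ×ˢ TBF L w).filter fun p => p.1 ≠ p.2) ×ˢ ({-1, 0, 1} : Finset ℤ),
        pr (RF (-L - N) (L + N) (-w) w) {ω | lcf 1 ω ∈ PairL L w d N 2 p.1.1 p.1.2 p.2} ≤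
      C * ((d : ℝ) / w) ^ (2 / 3 : ℝ)) (hM : 4 * ((M : ℤ) + 6) ≤ d) (hA : A * d < w)
    (hdw : d < w) :
    pr (RF (-(w + 2 * w * N)) (w + 2 * w * N) (-(w + 2 * w * N)) (w + 2 * w * N))
        (Av (w + 2 * w * N) (w + 2 * w * N) d (8 * (M + 6)) M) ≤
      C * ((d : ℝ) / w) ^ (2 / 3 : ℝ) +
        4 * θ ^ N * pr (RF (-w) w (-w) w) (Av w w d (8 * (M + 6)) M) := by
  set κ : ℤ := w + 2 * w * N with hκ
  have hw0 : 0 < w := by omega
  have h0 : 0 ≤ 2 * w * (N : ℤ) := by positivity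
  have hwκ : w ≤ κ := by omega
  have s1 : AnF κ w d ⊆ RF (-κ) κ (-κ) κ := by
    intro f hf
    rw [mem_AnF] at hf
    rw [Perc.mem_RF]
    omega
  have s2 : LOF w N ⊆ RF (-κ) κ (-w) w := by
    intro f hf
    unfold LOF at hf
    rw [Finset.mem_union, Perc.mem_RF, Perc.mem_RF] at hf
    rw [Perc.mem_RF]
    omega
  have s3 : AnF w w d ⊆ RF (-κ) κ (-w) w := by
    intro f hf
    rw [mem_AnF] at hf
    rw [Perc.mem_RF]
    omega
  have s4 : Disjoint (LOF w N) (AnF w w d) := by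
    rw [Finset.disjoint_left]
    intro f hf hf'
    unfold LOF at hf
    rw [Finset.mem_union, Perc.mem_RF, Perc.mem_RF] at hf
    rw [mem_AnF] at hf'
    omega
  have e1 : pr (RF (-κ) κ (-κ) κ) (Av κ κ d (8 * (M + 6)) M) ≤
      pr (RF (-κ) κ (-κ) κ) (Av κ w d (8 * (M + 6)) M) :=
    pr_mono _ (fun ω hω => Av_mono le_rfl hwκ (by omega) (by omega) hω)
  have e2 : pr (RF (-κ) κ (-κ) κ) (Av κ w d (8 * (M + 6)) M) =
      pr (RF (-κ) κ (-w) w) (Av κ w d (8 * (M + 6)) M) := by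
    rw [pr_eq_of_depOn (depOn_Av κ w d _ M) s1,
      pr_eq_of_depOn (depOn_Av κ w d _ M) AnF_sub_RF]
  have e3 : pr (RF (-κ) κ (-w) w) (Av κ w d (8 * (M + 6)) M) ≤
      pr (RF (-κ) κ (-w) w) (CorrU κ w d (8 * (M + 6)) M ∪
        (LO w N ∩ Av w w d (8 * (M + 6)) M)) := by
    refine pr_mono _ fun ω hω => ?_
    by_cases h : ω ∈ LatA κ w d κ
    · exact Or.inr ⟨latA_sub hw0 hdw.le h, Av_mono hwκ le_rfl (by omega) (by omega) hω⟩
    · exact Or.inl (corrU_of_Av hω h)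
  have e4 := pr_indep (depOn_LO hw0 N) (depOn_Av w w d (8 * (M + 6)) M) s4 s2 s3
  have e5 : pr (AnF w w d) (Av w w d (8 * (M + 6)) M) =
      pr (RF (-w) w (-w) w) (Av w w d (8 * (M + 6)) M) :=
    (pr_eq_of_depOn (depOn_Av w w d _ M) AnF_sub_RF).symm
  have e6 := pr_CorrU hC hM hA hdw hwκ
  have e7 := pr_LO hθ hw0 N
  refine e1.trans (e2.le.trans (e3.trans ((pr_union_le _ _ _).trans (add_le_add e6 ?_))))
  rw [e4, e5]
  exact mul_le_mul_of_nonneg_right e7 (pr_nonneg _ _)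

/-- **The sharp annulus bound.** -/
theorem av_sharp (hTT : TTBound) : ∃ C : ℝ, 0 < C ∧ ∀ (w d : ℤ) (M : ℕ),
    4 * ((M : ℤ) + 6) ≤ d → d ≤ w →
      pr (RF (-w) w (-w) w) (Av w w d (8 * (M + 6)) M) ≤ C * ((d : ℝ) / w) ^ (2 / 3 : ℝ) := by
  obtain ⟨A, C₂, hC₂, hTT⟩ := hTT
  obtain ⟨θ, hθ0, hθ1, hθ⟩ := pr_blocks
  -- the number of the blocks
  obtain ⟨N, hN⟩ : ∃ N : ℕ, 8 * (2 * (N : ℝ) + 1) * θ ^ N ≤ 1 / 2 := by
    have h1 : Tendsto (fun N : ℕ => (N : ℝ) * θ ^ N) atTop (𝓝 0) :=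
      tendsto_self_mul_const_pow_of_lt_one hθ0 hθ1
    have h2 : Tendsto (fun N : ℕ => θ ^ N) atTop (𝓝 0) :=
      tendsto_pow_atTop_nhds_zero_of_lt_one hθ0 hθ1
    have h3 : Tendsto (fun N : ℕ => 8 * (2 * (N : ℝ) + 1) * θ ^ N) atTop (𝓝 0) := by
      have := (h1.const_mul 16).add (h2.const_mul 8)
      simp only [mul_zero, add_zero] at this
      refine this.congr fun N => ?_
      ring
    obtain ⟨N, hN⟩ := (h3.eventually_lt_const (show (0 : ℝ) < 1 / 2 by norm_num)).exists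
    exact ⟨N, hN.le⟩
  set κ : ℤ := 2 * N + 1 with hκ
  have hκ1 : 1 ≤ κ := by omega
  have hκr : (κ : ℝ) = 2 * N + 1 := by rw [hκ]; push_cast; ring
  have hκ0 : (0 : ℝ) < κ := by rw [hκr]; positivity
  set A' : ℤ := max A 1 with hA'
  have hA'1 : 1 ≤ A' := le_max_right _ _
  have hA'r : (1 : ℝ) ≤ A' := by exact_mod_cast hA'1
  set C : ℝ := max (κ * (A' + 2)) (4 * κ * C₂) with hC
  have hC0 : 0 < C := lt_max_of_lt_left (by positivity)
  refine ⟨C, hC0, ?_⟩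
  -- strong induction
  have main : ∀ k : ℕ, ∀ (w d : ℤ) (M : ℕ), w ≤ k → 4 * ((M : ℤ) + 6) ≤ d → d ≤ w →
      pr (RF (-w) w (-w) w) (Av w w d (8 * (M + 6)) M) ≤ C * ((d : ℝ) / w) ^ (2 / 3 : ℝ) := by
    intro k
    induction k with
    | zero => intro w d M h1 h2 h3; exfalso; push_cast at h1; omega
    | succ k ih =>
      intro w d M hwk hM hdw
      have hd0 : 0 < d := by omega
      have hd1 : 1 ≤ d := by omega
      have hdr : (1 : ℝ) ≤ d := by exact_mod_cast hd1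
      have hwr : (d : ℝ) ≤ w := by exact_mod_cast hdw
      have hx0 : 0 < (d : ℝ) / w := div_pos (by linarith) (by linarith)
      have hx1 : (d : ℝ) / w ≤ 1 := by rw [div_le_one (by linarith)]; exact hwr
      have hpow : (d : ℝ) / w ≤ ((d : ℝ) / w) ^ (2 / 3 : ℝ) := by
        calc (d : ℝ) / w = ((d : ℝ) / w) ^ (1 : ℝ) := (Real.rpow_one _).symm
          _ ≤ ((d : ℝ) / w) ^ (2 / 3 : ℝ) :=
            Real.rpow_le_rpow_of_exponent_ge hx0 hx1 (by norm_num)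
      by_cases hbig : κ * ((A' + 1) * d + 1) ≤ w
      · -- recursion
        set w' : ℤ := w / κ with hw'
        have h1 : κ * w' ≤ w := Int.mul_ediv_self_le (by omega)
        have h2 : w < κ * (w' + 1) := by
          have := Int.lt_mul_ediv_self_add (x := w) (show 0 < κ by omega)
          linarith
        have h3 : (A' + 1) * d + 1 ≤ w' := by
          rw [hw', Int.le_ediv_iff_mul_le (by omega)]
          linarith
        have hAd : A * d ≤ A' * d := mul_le_mul_of_nonneg_right (le_max_left _ _) hd0.le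
        have hAd' : (A' + 1) * d = A' * d + d := by ring
        have hA'd : d ≤ A' * d := by nlinarith
        have hd_w' : d < w' := by omega
        have hAw' : A * d < w' := by omega
        have hw'0 : 0 < w' := by omega
        -- smaller scale
        have hκ2 : 2 ≤ κ ∨ κ = 1 := by omega
        have e0 : w' + 2 * w' * (N : ℤ) = κ * w' := by rw [hκ]; ring
        have hstep := av_step (N := N) hθ hTT (M := M) hM hAw' hd_w'
        rw [e0] at hstep
        have hmono : pr (RF (-w) w (-w) w) (Av w w d (8 * (M + 6)) M) ≤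
            pr (RF (-(κ * w')) (κ * w') (-(κ * w')) (κ * w'))
              (Av (κ * w') (κ * w') d (8 * (M + 6)) M) := by
          have hdκ : d ≤ κ * w' := by nlinarith
          have e1 : pr (RF (-w) w (-w) w) (Av w w d (8 * (M + 6)) M) ≤
              pr (RF (-w) w (-w) w) (Av (κ * w') (κ * w') d (8 * (M + 6)) M) :=
            pr_mono _ (fun ω hω => Av_mono h1 h1 hdκ hdκ hω)
          refine e1.trans (le_of_eq ?_)
          have s1 : AnF (κ * w') (κ * w') d ⊆ RF (-w) w (-w) w := by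
            intro f hf
            rw [mem_AnF] at hf
            rw [Perc.mem_RF]
            omega
          rw [pr_eq_of_depOn (depOn_Av _ _ d _ M) s1,
            pr_eq_of_depOn (depOn_Av _ _ d _ M) AnF_sub_RF]
        -- the bound at the smaller scale, which is smaller than `w`
        have hg' : pr (RF (-w') w' (-w') w') (Av w' w' d (8 * (M + 6)) M) ≤
            C * ((d : ℝ) / w') ^ (2 / 3 : ℝ) := by
          refine ih w' d M ?_ hM hd_w'.le
          have hN1 : 1 ≤ N ∨ N = 0 := by omega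
          rcases hN1 with hN1 | hN1
          · have : 3 * w' ≤ κ * w' := mul_le_mul_of_nonneg_right (by omega) hw'0.le
            push_cast at hwk
            omega
          · exfalso
            rw [hN1] at hN
            norm_num at hN
        have hw'r : (0 : ℝ) < w' := by exact_mod_cast hw'0
        have h2r : (w : ℝ) < κ * (w' + 1) := by exact_mod_cast h2
        have hw'1 : (1 : ℝ) ≤ w' := by exact_mod_cast hw'0
        have hratio : (d : ℝ) / w' ≤ 2 * κ * (d / w) := by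
          rw [← mul_div_assoc, div_le_div_iff₀ hw'r (by linarith)]
          have h4 : (w : ℝ) ≤ 2 * κ * w' := by nlinarith
          calc (d : ℝ) * w ≤ d * (2 * κ * w') := mul_le_mul_of_nonneg_left h4 (by linarith)
            _ = 2 * κ * d * w' := by ring
        have h2κ : 1 ≤ 2 * (κ : ℝ) := by rw [hκr]; nlinarith [Nat.cast_nonneg (α := ℝ) N]
        have hpw : ((d : ℝ) / w') ^ (2 / 3 : ℝ) ≤ 2 * κ * (d / w) ^ (2 / 3 : ℝ) := by
          calc ((d : ℝ) / w') ^ (2 / 3 : ℝ) ≤ (2 * κ * (d / w)) ^ (2 / 3 : ℝ) :=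
                Real.rpow_le_rpow (by positivity) hratio (by norm_num)
            _ = (2 * (κ : ℝ)) ^ (2 / 3 : ℝ) * (d / w) ^ (2 / 3 : ℝ) :=
                Real.mul_rpow (by positivity) hx0.le
            _ ≤ (2 * κ) * (d / w) ^ (2 / 3 : ℝ) := by
                refine mul_le_mul_of_nonneg_right ?_ (by positivity)
                calc (2 * (κ : ℝ)) ^ (2 / 3 : ℝ) ≤ (2 * (κ : ℝ)) ^ (1 : ℝ) :=
                      Real.rpow_le_rpow_of_exponent_le h2κ (by norm_num)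
                  _ = 2 * κ := Real.rpow_one _
        set y : ℝ := ((d : ℝ) / w) ^ (2 / 3 : ℝ) with hy
        have hy0 : 0 < y := by positivity
        set y' : ℝ := ((d : ℝ) / w') ^ (2 / 3 : ℝ) with hy'
        have hy'0 : 0 < y' := by positivity
        have hθN : 0 ≤ 4 * θ ^ N := by positivity
        calc pr (RF (-w) w (-w) w) (Av w w d (8 * (M + 6)) M)
            ≤ C₂ * y' + 4 * θ ^ N * (C * y') := hmono.trans (hstep.trans
              (add_le_add le_rfl (mul_le_mul_of_nonneg_left hg' hθN)))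
          _ = (C₂ + 4 * θ ^ N * C) * y' := by ring
          _ ≤ (C₂ + 4 * θ ^ N * C) * (2 * κ * y) :=
              mul_le_mul_of_nonneg_left hpw (by positivity)
          _ = (2 * κ * C₂ + (8 * (2 * (N : ℝ) + 1) * θ ^ N) * C) * y := by rw [hκr]; ring
          _ ≤ (C / 2 + 1 / 2 * C) * y := by
              refine mul_le_mul_of_nonneg_right (add_le_add ?_ ?_) hy0.le
              · have := le_max_right (κ * (A' + 2) : ℝ) (4 * κ * C₂)
                linarith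
              · exact mul_le_mul_of_nonneg_right hN hC0.le
          _ = C * y := by ring
      · -- the trivial bound
        refine (pr_le_one _ _).trans ?_
        push Not at hbig
        have hbr : (w : ℝ) < κ * ((A' + 1) * d + 1) := by exact_mod_cast hbig
        have h1 : (w : ℝ) ≤ κ * (A' + 2) * d := by
          have : (κ : ℝ) * ((A' + 1) * d + 1) ≤ κ * ((A' + 2) * d) := by
            apply mul_le_mul_of_nonneg_left _ hκ0.le
            nlinarith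
          linarith
        have h2 : 1 ≤ κ * (A' + 2) * ((d : ℝ) / w) := by
          rw [← mul_div_assoc, one_le_div (by linarith)]
          exact h1
        calc (1 : ℝ) ≤ κ * (A' + 2) * ((d : ℝ) / w) := h2
          _ ≤ C * ((d : ℝ) / w) ^ (2 / 3 : ℝ) :=
              mul_le_mul (le_max_left _ _) hpow hx0.le hC0.le
  intro w d M hM hdw
  have hw : 0 ≤ w := by omega
  exact main w.toNat w d M (by omega) hM hdw

end Pool.Agent.PercS5

end Parth60AnnSharp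

section PartoccTwoUpDet

/-!
# An occupied cell gives two strands and a corridor across every annulus around the cell
-/

set_option autoImplicit false

namespace Pool.Agent.Occ

open Relation Pool.Agent.Perc Pool.Agent.PercD Pool.Agent.Perc3
open Pool.Agent.PercS5 (Ev Av shE shE' shE_shE' MM_shift MM_unshift PathP SegP Stp Adj trim
  exists_path first_exit')

variable {ω : Cfg} {n a ρ q d w D y : ℤ} {c : ℤ × ℤ} {K : ℕ}

/-- The coarse cell of a face. -/
def cc (q : ℤ) (f : ℤ × ℤ) : ℤ × ℤ := (f.1 / q, f.2 / q)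

/-- The lattice point of a coarse cell, in coordinates with origin `z`. -/
def cg (q : ℤ) (z κ : ℤ × ℤ) : ℤ × ℤ := (κ.1 * q - z.1, κ.2 * q - z.2)

theorem div_step (hq : 0 < q) (x : ℤ) : (x + 1) / q = x / q ∨ (x + 1) / q = x / q + 1 := by
  have h1 : x / q ≤ (x + 1) / q := Int.ediv_le_ediv hq (by omega)
  have h2 : (x + 1) / q ≤ (x + q) / q := Int.ediv_le_ediv hq (by omega)
  rw [Int.add_ediv_of_dvd_right (dvd_refl q), Int.ediv_self (by omega)] at h2
  omega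

theorem cc_step (hq : 0 < q) {f g : ℤ × ℤ} (h : Adj4 f g) :
    cc q f = cc q g ∨ Adj (cc q f) (cc q g) := by
  unfold cc Adj
  obtain ⟨f1, f2⟩ := f
  obtain ⟨g1, g2⟩ := g
  unfold Adj4 at h
  simp only [Prod.mk.injEq] at h ⊢
  rcases h with ⟨rfl, rfl | rfl⟩ | ⟨rfl, rfl | rfl⟩
  · rcases div_step hq f1 with h | h
    · left; exact ⟨h.symm, rfl⟩
    · right; right; rw [h]; simp
  · rcases div_step hq g1 with h | h
    · left; exact ⟨h, rfl⟩
    · right; right; rw [h]; simp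
  · rcases div_step hq f2 with h | h
    · left; exact ⟨rfl, h.symm⟩
    · right; left; rw [h]; simp
  · rcases div_step hq g2 with h | h
    · left; exact ⟨rfl, h⟩
    · right; left; rw [h]; simp

/-- The coarse cells which contain a clear face. -/
def Bc (q ρ : ℤ) (S : Set (ℤ × ℤ)) (κ : ℤ × ℤ) : Prop := ∃ f, Clr ρ S f ∧ cc q f = κ

theorem chain_cc {F S : Set (ℤ × ℤ)} (hq : 0 < q) {g h : ℤ × ℤ} (hc : ChC F ρ S g h) :
    ReflTransGen (Stp (Bc q ρ S)) (cc q g) (cc q h) := by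
  induction hc with
  | refl => exact ReflTransGen.refl
  | tail _ hs ih =>
    obtain ⟨h1, -, -, h4, h5⟩ := hs
    rcases cc_step hq h1 with h | h
    · rw [← h]; exact ih
    · exact ih.tail ⟨h, ⟨_, h4, rfl⟩, ⟨_, h5, rfl⟩⟩

theorem cc_near (hq : 0 < q) (f : ℤ × ℤ) :
    (cc q f).1 * q ≤ f.1 ∧ f.1 < (cc q f).1 * q + q ∧ (cc q f).2 * q ≤ f.2 ∧
      f.2 < (cc q f).2 * q + q := by
  unfold cc
  simp only
  have h1 := Int.ediv_mul_le f.1 (show q ≠ 0 by omega)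
  have h2 := Int.lt_ediv_add_one_mul_self f.1 hq
  have h3 := Int.ediv_mul_le f.2 (show q ≠ 0 by omega)
  have h4 := Int.lt_ediv_add_one_mul_self f.2 hq
  rw [add_mul, one_mul] at h2 h4
  exact ⟨h1, h2, h3, h4⟩

/-- The points which are near a clear face, in coordinates with origin `z`. -/
def Pc (q ρ : ℤ) (S : Set (ℤ × ℤ)) (z p : ℤ × ℤ) : Prop :=
  ∃ f, Clr ρ S f ∧ |p.1 + z.1 - f.1| ≤ 2 * q ∧ |p.2 + z.2 - f.2| ≤ 2 * q

theorem cg_step {S : Set (ℤ × ℤ)} {z : ℤ × ℤ} (hq : 0 < q) (κ κ' : ℤ × ℤ)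
    (h : Stp (Bc q ρ S) κ κ') :
    ∃ v, SegP (Pc q ρ S z) (cg q z κ) v ∧ SegP (Pc q ρ S z) v (cg q z κ') := by
  obtain ⟨hadj, ⟨f, hf, rfl⟩, ⟨f', hf', rfl⟩⟩ := h
  have h1 := cc_near hq f
  have h2 := cc_near hq f'
  refine ⟨cg q z (cc q f), ⟨Or.inl rfl, ?_⟩, ?_, ?_⟩
  · intro p p1 p2 p3 p4
    rw [min_self] at p1 p3
    rw [max_self] at p2 p4
    refine ⟨f, hf, ?_, ?_⟩
    · unfold cg at p1 p2
      simp only at p1 p2
      rw [abs_le]; omega
    · unfold cg at p3 p4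
      simp only at p3 p4
      rw [abs_le]; omega
  · unfold cg
    simp only
    rcases hadj with ⟨h, -⟩ | ⟨-, h⟩
    · left; rw [h]
    · right; rw [h]
  · intro p p1 p2 p3 p4
    unfold cg at p1 p2 p3 p4
    simp only at p1 p2 p3 p4
    refine ⟨f, hf, ?_⟩
    rcases hadj with ⟨e, h⟩ | ⟨h, e⟩
    · rw [e] at p1 p2 h1
      rw [abs_eq (by norm_num)] at h
      rw [min_self] at p1
      rw [max_self] at p2
      rcases h with h | h
      · have e2 : (cc q f').2 * q = (cc q f).2 * q - q := by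
          rw [show (cc q f').2 = (cc q f).2 - 1 by omega]; ring
        rw [e2] at p3 p4
        rw [min_eq_right (by omega)] at p3
        rw [max_eq_left (by omega)] at p4
        rw [abs_le, abs_le]; omega
      · have e2 : (cc q f').2 * q = (cc q f).2 * q + q := by
          rw [show (cc q f').2 = (cc q f).2 + 1 by omega]; ring
        rw [e2] at p3 p4
        rw [min_eq_left (by omega)] at p3
        rw [max_eq_right (by omega)] at p4
        rw [abs_le, abs_le]; omega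
    · rw [e] at p3 p4 h1
      rw [abs_eq (by norm_num)] at h
      rw [min_self] at p3
      rw [max_self] at p4
      rcases h with h | h
      · have e2 : (cc q f').1 * q = (cc q f).1 * q - q := by
          rw [show (cc q f').1 = (cc q f).1 - 1 by omega]; ring
        rw [e2] at p1 p2
        rw [min_eq_right (by omega)] at p1
        rw [max_eq_left (by omega)] at p2
        rw [abs_le, abs_le]; omega
      · have e2 : (cc q f').1 * q = (cc q f).1 * q + q := by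
          rw [show (cc q f').1 = (cc q f).1 + 1 by omega]; ring
        rw [e2] at p1 p2
        rw [min_eq_left (by omega)] at p1
        rw [max_eq_right (by omega)] at p2
        rw [abs_le, abs_le]; omega

/-- The coarse cells whose lattice points are in the box. -/
noncomputable def cS (q w : ℤ) (z : ℤ × ℤ) : Finset (ℤ × ℤ) :=
  Finset.Icc (-((w - z.1) / q)) ((z.1 + w) / q) ×ˢ Finset.Icc (-((w - z.2) / q)) ((z.2 + w) / q)

theorem mem_cS (hq : 0 < q) {z κ : ℤ × ℤ} :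
    κ ∈ cS q w z ↔ |(cg q z κ).1| ≤ w ∧ |(cg q z κ).2| ≤ w := by
  have key : ∀ x t : ℤ, (-((w - t) / q) ≤ x ∧ x ≤ (t + w) / q) ↔ |x * q - t| ≤ w := by
    intro x t
    rw [neg_le, Int.le_ediv_iff_mul_le hq, Int.le_ediv_iff_mul_le hq, neg_mul, abs_le]
    omega
  unfold cS cg
  rw [Finset.mem_product, Finset.mem_Icc, Finset.mem_Icc, key, key]

theorem card_cS (hq : 0 < q) (hK : 2 * w < K * q) (z : ℤ × ℤ) : (cS q w z).card ≤ K ^ 2 := by
  have key : ∀ t : ℤ, (Finset.Icc (-((w - t) / q)) ((t + w) / q)).card ≤ K := by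
    intro t
    rw [Int.card_Icc]
    have h1 := Int.ediv_mul_le (w - t) (show q ≠ 0 by omega)
    have h2 := Int.ediv_mul_le (t + w) (show q ≠ 0 by omega)
    have h3 : ((w - t) / q + (t + w) / q) * q < K * q := by
      rw [add_mul]; omega
    have h4 : (w - t) / q + (t + w) / q < K := lt_of_mul_lt_mul_right h3 hq.le
    omega
  unfold cS
  rw [Finset.card_product, pow_two]
  exact Nat.mul_le_mul (key _) (key _)

/-! ### The deterministic statement -/

theorem mem_Wn {f : ℤ × ℤ} : f ∈ Wn n a ↔ (0 ≤ f.1 ∧ f.1 < n * a) ∧ 0 ≤ f.2 ∧ f.2 < n * a := by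
  unfold Wn
  rw [Perc.mem_RF, and_assoc]

/-- **The deterministic statement.** -/
theorem ev_of_occ (hq : 0 < q) (hqa : 4 * q ≤ a) (ha : 8 ≤ a) (hn : 0 < n) (hmid : Mid n c)
    (hocc : OccC n a ρ ω (eL y) c) (hd : 2 * a ≤ d) (hdw : d < w) (hw : 8 * w ≤ n * a)
    (hK : 2 * w < K * q) (hρ : D + 2 * q ≤ ρ) :
    shiftC (c.1 * a) (c.2 * a) ω ∈ Ev w w d D (2 * K ^ 2) := by
  obtain ⟨⟨f, ⟨hfW, b, hb, hside⟩, hfc⟩, g, h, hg, hgW, hgC, hh, hch⟩ := hocc
  set z : ℤ × ℤ := (c.1 * a, c.2 * a) with hz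
  have hz1 : z.1 = c.1 * a := rfl
  have hz2 : z.2 = c.2 * a := rfl
  have ha0 : 0 < a := by omega
  have hna : a ≤ n * a := by nlinarith [hn]
  obtain ⟨m1, m2, m3, m4⟩ := hmid
  have hc1 : 3 * (n * a) ≤ 8 * z.1 := by rw [hz1]; nlinarith
  have hc2 : 8 * z.1 < 5 * (n * a) := by rw [hz1]; nlinarith
  have hc3 : 3 * (n * a) ≤ 8 * z.2 := by rw [hz2]; nlinarith
  have hc4 : 8 * z.2 < 5 * (n * a) := by rw [hz2]; nlinarith
  have hw0 : 0 < w := by omega
  -- the box is in the window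
  have hbox : ∀ f : ℤ × ℤ, f ∈ RF (z.1 - w) (z.1 + w) (z.2 - w) (z.2 + w) → f ∈ Wn n a := by
    intro f hf
    rw [Perc.mem_RF] at hf
    rw [mem_Wn]
    omega
  -- the unit edge in the cell
  have hbin : Pool.Agent.PercD.InE z (2 * a) b := by
    obtain ⟨f1, f2⟩ := f
    unfold InC at hfc
    simp only [add_mul, one_mul] at hfc
    rw [← hz1, ← hz2] at hfc
    unfold Pool.Agent.PercD.InE InR
    rcases hside with rfl | rfl | rfl | rfl
    · simp only [bo, ua_mk, ub_false]; omega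
    · simp only [le', ua_mk, ub_true]; omega
    · simp only [to', ua_mk, ub_false]; omega
    · simp only [ri, ua_mk, ub_true]; omega
  -- the component reaches the boundary of the box
  have hInK : ∀ x, x ∈ MM ω (BR z w) b → Pool.Agent.PercD.InE z w x := by
    intro x hx
    induction hx with
    | refl =>
      unfold Pool.Agent.PercD.InE InR at hbin ⊢
      omega
    | tail _ hs _ =>
      obtain ⟨f, hf, hm⟩ := hs
      exact inE_of_side hf hm.right
  have hreach : ∃ t ∈ MM ω (BR z w) b, BdR z w t := by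
    have h1 : eL y ∈ MM ω (Wn n a) b := MM_symm hb
    rcases first_exit' (F := (BR z w : Set (ℤ × ℤ))) h1 with h2 | ⟨t, ht, f', -, hf', hsd⟩
    · exfalso
      have h3 := (hInK _ h2).1
      unfold InR eL at h3
      rw [ua_mk] at h3
      simp only at h3
      omega
    · exact ⟨t, ht, bd_of_side (hInK _ ht) hsd hf'⟩
  obtain ⟨t, ht, htb⟩ := hreach
  -- the corridor
  set S : Set (ℤ × ℤ) := SS ω (Wn n a) (eL y) with hS
  have hchain := chain_cc hq hch
  have hgn := cc_near hq g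
  have hhn := cc_near hq h
  unfold NearC at hg
  simp only [add_mul, one_mul] at hg
  rw [← hz1, ← hz2] at hg
  have hga : cc q g ∈ cS q w z := by
    rw [mem_cS hq]
    unfold cg
    simp only
    rw [abs_le, abs_le]
    omega
  have hhb : cc q h ∉ cS q w z := by
    rw [mem_cS hq]
    unfold cg
    simp only
    rw [abs_le, abs_le]
    rintro ⟨-, -, h5⟩
    rw [hh] at hhn
    omega
  obtain ⟨b', l, hb', hl1, hl2, hl3⟩ := exists_path (g := cg q z) (P := Pc q ρ S z)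
    (fun x y h => cg_step hq x y h) hga hhb hchain
  rw [mem_cS hq] at hb' hga
  obtain ⟨l', k1, k2, k3, k4⟩ := trim l (cg q z (cc q g)) (L := w) (w := w) hga.1 hga.2 hl1
    (by rw [hl2]; exact hb')
  have hin1 : |(cg q z (cc q g)).1| < d ∧ |(cg q z (cc q g)).2| < d := by
    unfold cg
    simp only
    rw [abs_lt, abs_lt]
    omega
  have hCorr : Corr w w d (cg q z (cc q g)) l' := ⟨PathP.rectil l' k1, hin1, k3, k4⟩
  have hFG : ∀ f ∈ (BR z w : Set (ℤ × ℤ)),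
      (f.1 - z.1, f.2 - z.2) ∈ (RF (-w) w (-w) w : Finset (ℤ × ℤ)) := by
    intro f hf
    rw [mem_BR'] at hf
    rw [Perc.mem_RF]
    simp only
    omega
  have hGF : ∀ f ∈ ((RF (-w) w (-w) w : Finset (ℤ × ℤ)) : Set (ℤ × ℤ)),
      (f.1 + z.1, f.2 + z.2) ∈ (BR z w : Set (ℤ × ℤ)) := by
    intro f hf
    rw [Finset.mem_coe, Perc.mem_RF] at hf
    rw [mem_BR']
    simp only
    omega
  refine ⟨shE' z b, ?_, ⟨shE' z t, MM_shift (fun f hf => Finset.mem_coe.2 (hFG f hf)) ht, ?_⟩,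
    cg q z (cc q g), l', hCorr, ?_, ?_⟩
  · -- the unit edge is in the inner box
    obtain ⟨x, v, s⟩ := b
    unfold Pool.Agent.PercD.InE InR at hbin ⊢
    unfold shE'
    cases s
    · simp only [ua_mk, ub_false] at hbin ⊢
      omega
    · simp only [ua_mk, ub_true] at hbin ⊢
      omega
  · obtain ⟨x, v, s⟩ := t
    unfold BdR BdE at htb
    unfold BdE shE'
    simp only at htb ⊢
    rcases htb with ⟨h0, h⟩ | ⟨h0, h⟩
    · exact Or.inl ⟨h0, by omega, by omega, by omega⟩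
    · exact Or.inr ⟨h0, by omega, by omega, by omega⟩
  · calc l'.length ≤ l.length := k2
      _ ≤ 2 * (cS q w z).card := hl3
      _ ≤ 2 * K ^ 2 := Nat.mul_le_mul le_rfl (card_cS hq hK z)
  · rintro f' ⟨hf', s, hs, hsd⟩ x hx
    -- the visited face is a visited face of the window
    have h1 := MM_unshift hGF hs
    rw [shE_shE'] at h1
    have h2 : PercS5.shE z s ∈ MM ω (Wn n a) (eL y) := by
      refine MM_trans hb (MM_mono ?_ h1)
      intro f hf
      refine Finset.mem_coe.2 (hbox f ?_)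
      rw [mem_BR'] at hf
      rw [Perc.mem_RF]
      omega
    have h3 : (f'.1 + z.1, f'.2 + z.2) ∈ S := by
      refine ⟨?_, PercS5.shE z s, h2, ?_⟩
      · refine Finset.mem_coe.2 (hbox _ ?_)
        rw [Finset.mem_coe, Perc.mem_RF] at hf'
        rw [Perc.mem_RF]
        simp only
        omega
      · obtain ⟨x1, x2⟩ := f'
        rcases hsd with rfl | rfl | rfl | rfl
        · left; rfl
        · right; left; rfl
        · right; right; left
          simp only [to', PercS5.shE, Prod.mk.injEq, and_true, true_and]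
          omega
        · right; right; right
          simp only [ri, PercS5.shE, Prod.mk.injEq, and_true]
          omega
    obtain ⟨p, hp, hp1, hp2⟩ := PathP.onPath l' k1 x hx
    have h4 := hp _ h3
    simp only at h4 hp1 hp2
    rw [lt_max_iff, lt_abs, lt_abs] at h4
    rw [abs_le] at hp1 hp2
    rw [lt_max_iff, lt_abs, lt_abs]
    omega

end Pool.Agent.Occ

end PartoccTwoUpDet

section PartoccOMu

/-!
# The expected number of strands which cross the window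
-/

set_option autoImplicit false

namespace Pool.Agent.Occ

open Finset Filter Pool.Agent.Perc Pool.Agent.PercL Pool.Agent.Perc3
open Pool.Agent.PercN (LT mem_LT pr_LT_le)

/-- The expected value of the number of elements of a random set, from an exponential tail. -/
theorem sum_card_le {q : ℝ} (hq : 0 < q) (hq1 : q < 1) (S : Finset (ℤ × ℤ)) (I : Finset ℤ)
    (A : ℤ → Set Cfg) (N : Cfg → Finset ℤ) (hN : ∀ ω i, i ∈ N ω ↔ i ∈ I ∧ ω ∈ A i)
    (hT : ∀ k : ℕ, pr S {ω | 2 * k ≤ (N ω).card + 1} ≤ q ^ k) :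
    ∑ t ∈ I, pr S (A t) ≤ 2 / (1 - q) := by
  classical
  have e1 : ∑ t ∈ I, pr S (A t) = (∑ T ∈ S.powerset, ((N (cfg T)).card : ℝ)) / 2 ^ S.card := by
    have : ∀ t ∈ I, pr S (A t) =
        (∑ T ∈ S.powerset, if cfg T ∈ A t then (1 : ℝ) else 0) / 2 ^ S.card := by
      intro t _
      rw [ProbA.pr_eq_sum]
    rw [sum_congr rfl this, ← sum_div, sum_comm]
    congr 1
    refine sum_congr rfl fun T _ => ?_
    rw [Finset.sum_ite, sum_const_zero, add_zero, sum_const, nsmul_eq_mul, mul_one]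
    congr 2
    ext t
    rw [mem_filter, hN]
  have e4 : ∀ T ∈ S.powerset, ((N (cfg T)).card : ℝ) ≤
      ∑ k ∈ range (I.card + 1), if 2 * (k + 1) ≤ (N (cfg T)).card + 1 then (2 : ℝ) else 0 := by
    intro T _
    have hle : (N (cfg T)).card ≤ I.card := card_le_card fun i hi => ((hN _ _).1 hi).1
    rw [Finset.sum_ite, sum_const_zero, add_zero, sum_const, nsmul_eq_mul]
    have h1 : range (((N (cfg T)).card + 1) / 2) ⊆
        (range (I.card + 1)).filter fun k => 2 * (k + 1) ≤ (N (cfg T)).card + 1 := by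
      intro k hk
      rw [mem_range] at hk
      rw [mem_filter, mem_range]
      omega
    have h2 := card_le_card h1
    rw [card_range] at h2
    have h3 : (N (cfg T)).card ≤ ((range (I.card + 1)).filter fun k =>
        2 * (k + 1) ≤ (N (cfg T)).card + 1).card * 2 := by omega
    exact_mod_cast h3
  have e5 : ∀ k : ℕ, (∑ T ∈ S.powerset, if 2 * (k + 1) ≤ (N (cfg T)).card + 1 then (2 : ℝ)
        else 0) / 2 ^ S.card = 2 * pr S {ω | 2 * (k + 1) ≤ (N ω).card + 1} := by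
    intro k
    rw [ProbA.pr_eq_sum, mul_div_assoc', mul_sum]
    refine congrArg (fun x : ℝ => x / 2 ^ S.card) (sum_congr rfl fun T _ => ?_)
    by_cases h : 2 * (k + 1) ≤ (N (cfg T)).card + 1
    · rw [if_pos h, if_pos (show cfg T ∈ {ω | 2 * (k + 1) ≤ (N ω).card + 1} from h), mul_one]
    · rw [if_neg h, if_neg (show cfg T ∉ {ω | 2 * (k + 1) ≤ (N ω).card + 1} from h), mul_zero]
  rw [e1]
  calc (∑ T ∈ S.powerset, ((N (cfg T)).card : ℝ)) / 2 ^ S.card
      ≤ (∑ T ∈ S.powerset, ∑ k ∈ range (I.card + 1),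
          if 2 * (k + 1) ≤ (N (cfg T)).card + 1 then (2 : ℝ) else 0) / 2 ^ S.card :=
        div_le_div_of_nonneg_right (sum_le_sum e4) (by positivity)
    _ = ∑ k ∈ range (I.card + 1), 2 * pr S {ω | 2 * (k + 1) ≤ (N ω).card + 1} := by
        rw [sum_comm, sum_div]
        exact sum_congr rfl fun k _ => e5 k
    _ ≤ ∑ k ∈ range (I.card + 1), 2 * q ^ k :=
        sum_le_sum fun k _ => mul_le_mul_of_nonneg_left ((hT (k + 1)).trans
          (pow_le_pow_of_le_one hq.le hq1.le (by omega))) (by norm_num)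
    _ = 2 * ∑ k ∈ range (I.card + 1), q ^ k := by rw [mul_sum]
    _ ≤ 2 * (1 - q)⁻¹ := by
        refine mul_le_mul_of_nonneg_left ?_ (by norm_num)
        rw [← tsum_geometric_of_lt_one hq.le hq1]
        exact (summable_geometric_of_lt_one hq.le hq1).sum_le_tsum _ fun i _ => by positivity
    _ = 2 / (1 - q) := by rw [div_eq_mul_inv]

/-- The right end of a strand. -/
theorem right_range {n a : ℤ} {ω : Cfg} (hna : 0 < n * a) {y y' : ℤ}
    (h : ((n * a, y', true) : UE) ∈ MM ω (Wn n a) (eL y)) : 0 ≤ y' ∧ y' < n * a := by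
  rcases Relation.ReflTransGen.cases_tail h with h1 | ⟨b, -, f, hf, hm⟩
  · unfold eL at h1
    simp only [Prod.mk.injEq] at h1
    omega
  · have hs := hm.right
    obtain ⟨x, z⟩ := f
    rw [mem_coe] at hf
    unfold Wn RF at hf
    rw [mem_product, mem_Ico, mem_Ico] at hf
    simp only at hf
    unfold IsSide bo ri to' le' at hs
    simp only [Prod.mk.injEq, and_true, and_false, false_or, Bool.true_eq_false] at hs
    omega

theorem muTot : MuTot := by
  classical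
  obtain ⟨q, hq, hq1, H⟩ := pr_LT_le 1
  refine ⟨2 / (1 - q), fun n a hn ha => ?_⟩
  have hna : (0 : ℤ) < (n : ℤ) * a := by positivity
  unfold EL
  refine sum_card_le hq hq1 (Wn n a) (Ico 0 (n * a)) (fun y => {ω | Lr n a ω (eL y)})
    (fun ω => LT ω 0 (n * a) 0 (n * a)) ?_ ?_
  · intro ω y
    rw [mem_LT, mem_Ico]
    refine and_congr Iff.rfl ?_
    constructor
    · rintro ⟨g, -, -, hg⟩
      exact ⟨g, hg⟩
    · rintro ⟨g, hg⟩
      obtain ⟨h1, h2⟩ := right_range hna hg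
      exact ⟨g, h1, h2, hg⟩
  · intro k
    refine H 0 (n * a) 0 (n * a) (Wn n a) hna hna ?_ (Finset.Subset.refl _) k
    push_cast
    omega

end Pool.Agent.Occ

end PartoccOMu
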