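import Pool.Agent.Lib.MP_6bd702_zc.Pre
import Pool.Agent.Lib.MP_6bd702_zc.Y022
import Pool.Agent.Lib.MP_6bd702_zc.Y015

section Partperc3T2GlueDefs

/-!
# The walls of the annulus between two boxes of the twisted plane
-/

set_option autoImplicit false

namespace Pool.Agent.Perc.Q

open Finset Pool.Agent.Perc

/-- The inner port of the boundary edge `t`. -/
def iport (w R t : ℤ) : ℤ × ℤ := tcell w R t - tdir R t

/-- The routes from the tips on the inner box to the tips on the outer box. -/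
def RoutesP : Prop := ∀ N : ℕ, ∃ K : ℕ, ∀ w R R' : ℤ, 3 ≤ w → 60 * w ≤ R → R + 60 * w ≤ R' →
  R' ≤ N * w → ∀ t s : Fin 3 → ℤ, TipPos w R t → TipPos w R' s →
  ∃ G : Fin 3 → Finset (ℤ × ℤ), (∀ i j, i ≠ j → Disjoint (G i) (G j)) ∧
    (∀ i, ∀ g ∈ G i, CellOk g) ∧ (∀ i, (G i).card ≤ K) ∧
    (∀ i j, tcell w R (t i) ∉ G j ∧ tcell w R' (s i) ∉ G j) ∧
    (∀ i, ∀ a b : ℤ, -1 ≤ a → a ≤ 1 → -1 ≤ b → b ≤ 1 → (a, b) ≠ (0, 0) →
      tcell w R (t i) + (a, b) ∈ G i ∧ tcell w R' (s i) + (a, b) ∈ G i) ∧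
    ∀ i, Relation.ReflTransGen (fun a b => a ∈ G i ∧ b ∈ G i ∧ COut w R a ∧ COut w R b ∧
      CIn w R' a ∧ CIn w R' b ∧ CAdj a b) (oport w R (t i)) (iport w R' (s i))

end Pool.Agent.Perc.Q

end Partperc3T2GlueDefs

section Partperc3RecBound

/-!
# Recursions over scales (claim 3, T2 (vi))
-/

set_option autoImplicit false

namespace Pool.Agent.Perc

/-- A two step recursion with a geometric inhomogeneity gives geometric decay. -/
theorem geom_of_rec {b : ℕ → ℝ} {β θ ε C₀ C₂ : ℝ} (hβ : 0 < β) (hβ1 : β ≤ 1) (hθ : 0 ≤ θ)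
    (hε : 0 ≤ ε) (hC₂ : 0 ≤ C₂) (hsmall : θ / β + ε / β ^ 2 ≤ 1 / 2) (hC₀ : 0 ≤ C₀)
    (h0 : b 0 ≤ C₀) (h1 : b 1 ≤ C₀)
    (hrec : ∀ k, b (k + 2) ≤ θ * b (k + 1) + ε * b k + C₂ * β ^ (k + 1)) (k : ℕ) :
    b k ≤ (C₀ + 2 * C₂) / β * β ^ k := by
  set M := (C₀ + 2 * C₂) / β with hM
  have hMβ : M * β = C₀ + 2 * C₂ := by
    rw [hM, div_mul_cancel₀ _ hβ.ne']
  have hM0 : 0 ≤ M := div_nonneg (by linarith) hβ.le
  have hkey : ∀ k, b k ≤ M * β ^ k ∧ b (k + 1) ≤ M * β ^ (k + 1) := by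
    intro k
    induction k with
    | zero =>
      constructor
      · rw [pow_zero, mul_one]
        have : M * β ≤ M * 1 := mul_le_mul_of_nonneg_left hβ1 hM0
        linarith
      · rw [zero_add, pow_one]
        linarith
    | succ k ih =>
      refine ⟨ih.2, ?_⟩
      have h2 := hrec k
      have h3 := mul_le_mul_of_nonneg_left ih.2 hθ
      have h4 := mul_le_mul_of_nonneg_left ih.1 hε
      have hp : 0 < β ^ (k + 2) := pow_pos hβ _
      have e1 : θ * (M * β ^ (k + 1)) = (θ / β) * (M * β ^ (k + 2)) := by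
        rw [pow_succ β (k + 1)]
        field_simp
      have e2 : ε * (M * β ^ k) = (ε / β ^ 2) * (M * β ^ (k + 2)) := by
        rw [pow_add β k 2]
        field_simp
      have e3 : C₂ * β ^ (k + 1) ≤ 1 / 2 * (M * β ^ (k + 2)) := by
        have : M * β ^ (k + 2) = (M * β) * β ^ (k + 1) := by ring
        rw [this, hMβ]
        have hp' : 0 < β ^ (k + 1) := pow_pos hβ _
        nlinarith
      have h5 : (θ / β + ε / β ^ 2) * (M * β ^ (k + 2)) ≤ 1 / 2 * (M * β ^ (k + 2)) :=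
        mul_le_mul_of_nonneg_right hsmall (mul_nonneg hM0 hp.le)
      have e4 : M * β ^ (k + 1 + 1) = M * β ^ (k + 2) := rfl
      rw [show k + 1 + 1 = k + 2 from rfl]
      linarith
  exact (hkey k).1

/-- The one step version. -/
theorem geom_of_rec_one {b : ℕ → ℝ} {β θ C₀ C₂ : ℝ} (hβ : 0 < β) (hθ : 0 ≤ θ)
    (hC₂ : 0 ≤ C₂) (hsmall : θ / β ≤ 1 / 2) (hC₀ : 0 ≤ C₀)
    (h0 : b 0 ≤ C₀) (hrec : ∀ k, b (k + 1) ≤ θ * b k + C₂ * β ^ (k + 1)) (k : ℕ) :
    b k ≤ (C₀ + 2 * C₂) * β ^ k := by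
  induction k with
  | zero =>
    rw [pow_zero, mul_one]
    linarith
  | succ k ih =>
    have h3 := mul_le_mul_of_nonneg_left ih hθ
    have h2 := hrec k
    have hp : 0 < β ^ (k + 1) := pow_pos hβ _
    have e1 : θ * ((C₀ + 2 * C₂) * β ^ k) = (θ / β) * ((C₀ + 2 * C₂) * β ^ (k + 1)) := by
      rw [pow_succ β k]
      field_simp
    have h5 : (θ / β) * ((C₀ + 2 * C₂) * β ^ (k + 1)) ≤ 1 / 2 * ((C₀ + 2 * C₂) * β ^ (k + 1)) :=
      mul_le_mul_of_nonneg_right hsmall (mul_nonneg (by linarith) hp.le)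
    nlinarith [mul_nonneg hC₀ hp.le, mul_nonneg hC₂ hp.le]

end Pool.Agent.Perc

end Partperc3RecBound

section Partperc3RoutesE

/-!
# Routes of the three walls: the ports of the tips
-/

set_option autoImplicit false

namespace Pool.Agent.Perc.Rt

open Finset Relation Pool.Agent.Perc Pool.Agent.Perc.Q

variable {w R t : ℤ}

theorem div_add_le {x y : ℤ} (k : ℤ) (hw : 0 < w) (h : x + w * k ≤ y) : x / w + k ≤ y / w := by
  rw [← Int.add_mul_ediv_left x k (by omega : w ≠ 0)]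
  exact Int.ediv_le_ediv hw h

theorem add_self_div (x : ℤ) (hw : 0 < w) : (x + w) / w = x / w + 1 := by
  have := Int.add_mul_ediv_right x 1 (by omega : w ≠ 0)
  rwa [one_mul] at this

theorem neg_div_bd (x : ℤ) (hw : 0 < w) : (-x) / w ≤ -(x / w) ∧ -(x / w) ≤ (-x) / w + 1 := by
  have h1 := Int.mul_ediv_add_emod x w
  have h2 := Int.emod_nonneg x (by omega : w ≠ 0)
  have h3 := Int.emod_lt_of_pos x hw
  have h4 := Int.mul_ediv_add_emod (-x) w
  have h5 := Int.emod_nonneg (-x) (by omega : w ≠ 0)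
  have h6 := Int.emod_lt_of_pos (-x) hw
  set q := x / w
  set q' := (-x) / w
  constructor
  · by_contra hc
    have h7 : w * (-q + 1) ≤ w * q' := mul_le_mul_of_nonneg_left (by omega) hw.le
    rw [mul_add, mul_neg] at h7
    omega
  · by_contra hc
    have h7 : w * (q' + 2) ≤ w * (-q) := mul_le_mul_of_nonneg_left (by omega) hw.le
    rw [mul_add, mul_neg] at h7
    omega

theorem div_lo (x : ℤ) (hw : 0 < w) : w * (x / w) ≤ x ∧ x < w * (x / w) + w := by
  have h1 := Int.mul_ediv_add_emod x w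
  have h2 := Int.emod_nonneg x (by omega : w ≠ 0)
  have h3 := Int.emod_lt_of_pos x hw
  omega

theorem away_le (h : Away R (20 * w) t) : (20 * w ≤ t - R ∨ 20 * w ≤ R - t) ∧
    (20 * w ≤ t - (3 * R + 2) ∨ 20 * w ≤ 3 * R + 2 - t) ∧
    (20 * w ≤ t - (5 * R + 2) ∨ 20 * w ≤ 5 * R + 2 - t) ∧
    (20 * w ≤ t - (6 * R + 3) ∨ 20 * w ≤ 6 * R + 3 - t) ∧
    (20 * w ≤ t - (7 * R + 3) ∨ 20 * w ≤ 7 * R + 3 - t) := by
  unfold Away spec at h
  simp only [List.mem_cons, List.not_mem_nil, or_false, forall_eq_or_imp, forall_eq, le_abs] at h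
  omega

section
variable (hw : 3 ≤ w) (hR : 60 * w ≤ R)
include hw hR

theorem bdsI : -((R - 1) / w) ≤ (-R) / w + 2 ∧ (-(R + 2)) / w ≤ (-R) / w ∧
    (-R) / w ≤ (-(R + 2)) / w + 1 ∧ 59 ≤ (R - 1) / w ∧ (R - 1) / w ≤ R / w ∧
    R / w ≤ (R - 1) / w + 1 ∧ (-R) / w ≤ -60 := by
  have hw0 : 0 < w := by omega
  have h1 := neg_div_bd R hw0
  have h2 := div_add_le (w := w) (x := 0) (y := R - 1) 59 hw0 (by omega)
  have h3 := div_add_le (w := w) (x := R - 1) (y := R) 0 hw0 (by omega)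
  have h4 := div_add_le (w := w) (x := R) (y := R - 1 + w) 0 hw0 (by omega)
  have h5 := add_self_div (w := w) (R - 1) (by omega)
  have h6 := div_add_le (w := w) (x := -(R + 2)) (y := -R) 0 hw0 (by omega)
  have h7 := div_add_le (w := w) (x := -R) (y := -(R + 2) + w) 0 hw0 (by omega)
  have h8 := add_self_div (w := w) (-(R + 2)) (by omega)
  have h9 := div_add_le (w := w) (x := -R) (y := 0) 60 hw0 (by omega)
  rw [Int.zero_ediv] at h2 h9
  omega

theorem bdsO : 60 ≤ R / w ∧ R / w ≤ (R + 2) / w ∧ (R + 2) / w ≤ R / w + 1 := by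
  have hw0 : 0 < w := by omega
  have h1 := div_add_le (w := w) (x := 0) (y := R) 60 hw0 (by omega)
  have h2 := div_add_le (w := w) (x := R) (y := R + 2) 0 hw0 (by omega)
  have h3 := div_add_le (w := w) (x := R + 2) (y := R + w) 0 hw0 (by omega)
  rw [Int.zero_ediv] at h1
  rw [add_self_div _ (by omega)] at h3
  omega

end

/-- The cells which meet `BW R`. -/
def mkI (w R : ℤ) (hw : 3 ≤ w) (hR : 60 * w ≤ R) : Rc where
  a := (-(R + 2)) / w
  b := (R - 1) / w
  c := (-R) / w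
  d := (R - 1) / w
  ha := by have := bdsI hw hR; omega
  hb := by have := bdsI hw hR; omega
  hcd := by have := bdsI hw hR; omega

/-- The cells in `BW R` without the last eleven layers. -/
def mkO (w R : ℤ) (hw : 3 ≤ w) (hR : 60 * w ≤ R) : Rc where
  a := -((R + 2) / w) + 11
  b := R / w - 12
  c := -(R / w) + 11
  d := R / w - 12
  ha := by have := bdsO hw hR; omega
  hb := by have := bdsO hw hR; omega
  hcd := by have := bdsO hw hR; omega

variable {g : ℤ × ℤ}

theorem le_div {y z : ℤ} (hw : 0 < w) : z ≤ y / w ↔ w * z ≤ y := by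
  rw [Int.le_ediv_iff_mul_le hw, mul_comm]

theorem cout_iff (hw : 3 ≤ w) (hR : 60 * w ≤ R) : COut w R g ↔ 1 ≤ lay (mkI w R hw hR) g := by
  have hw0 : 0 < w := by omega
  unfold COut lay mkI
  simp only
  have e1 : R ≤ g.1 * w ↔ (R - 1) / w < g.1 := by
    rw [Int.ediv_lt_iff_lt_mul hw0]; omega
  have e2 : R ≤ g.2 * w ↔ (R - 1) / w < g.2 := by
    rw [Int.ediv_lt_iff_lt_mul hw0]; omega
  have e3 : (g.1 + 1) * w ≤ -(R + 2) ↔ g.1 + 1 ≤ (-(R + 2)) / w := by
    rw [Int.le_ediv_iff_mul_le hw0]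
  have e4 : (g.2 + 1) * w ≤ -R ↔ g.2 + 1 ≤ (-R) / w := by
    rw [Int.le_ediv_iff_mul_le hw0]
  rw [e1, e2, e3, e4]
  omega

theorem cin_iff (hw : 3 ≤ w) (hR : 60 * w ≤ R) : CIn w R g ↔ lay (mkO w R hw hR) g ≤ 11 := by
  have hw0 : 0 < w := by omega
  unfold CIn lay mkO
  simp only
  have e1 : -(R + 2) ≤ g.1 * w ↔ -g.1 ≤ (R + 2) / w := by
    rw [Int.le_ediv_iff_mul_le hw0, neg_mul]; omega
  have e2 : -R ≤ g.2 * w ↔ -g.2 ≤ R / w := by
    rw [Int.le_ediv_iff_mul_le hw0, neg_mul]; omega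
  have e3 : (g.1 + 1) * w ≤ R ↔ g.1 + 1 ≤ R / w := by
    rw [Int.le_ediv_iff_mul_le hw0]
  have e4 : (g.2 + 1) * w ≤ R ↔ g.2 + 1 ≤ R / w := by
    rw [Int.le_ediv_iff_mul_le hw0]
  rw [e1, e2, e3, e4]
  omega

/-- The six cases of the cell of a tip. -/
theorem tip_cases (hR : 0 ≤ R) (w t : ℤ) :
    (t < R ∧ tcell w R t = (R / w, t / w) ∧ tdir R t = (1, 0) ∧ tlin R t = t + 2 * R) ∨
    (R ≤ t ∧ t < 3 * R + 2 ∧ tcell w R t = ((2 * R - t - 1) / w, R / w) ∧ tdir R t = (0, 1) ∧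
      tlin R t = t + 2 * R) ∨
    (3 * R + 2 ≤ t ∧ t < 5 * R + 2 ∧ tcell w R t = ((-(R + 2)) / w, (4 * R + 1 - t) / w) ∧
      tdir R t = (-1, 0) ∧ tlin R t = t + 2 * R) ∨
    (5 * R + 2 ≤ t ∧ t < 6 * R + 3 ∧ tcell w R t = ((t - 6 * R - 4) / w, (-R) / w) ∧
      tdir R t = (0, -1) ∧ tlin R t = t + 2 * R) ∨
    (6 * R + 3 ≤ t ∧ t < 7 * R + 3 ∧ tcell w R t = ((t - 6 * R - 3) / w, (-R) / w) ∧
      tdir R t = (0, -1) ∧ tlin R t = t - (6 * R + 3)) ∨
    (7 * R + 3 ≤ t ∧ tcell w R t = (R / w, (t - 8 * R - 3) / w) ∧ tdir R t = (1, 0) ∧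
      tlin R t = t - (6 * R + 3)) := by
  unfold tcell tdir tlin
  rcases lt_or_ge t R with c1 | c1
  · left
    refine ⟨c1, ?_, ?_, ?_⟩
    · rw [if_pos c1]
    · rw [if_pos c1]
    · rw [if_neg (by omega)]
  right
  rcases lt_or_ge t (3 * R + 2) with c2 | c2
  · left
    refine ⟨c1, c2, ?_, ?_, ?_⟩
    · rw [if_neg (by omega), if_pos c2]
    · rw [if_neg (by omega), if_pos c2]
    · rw [if_neg (by omega)]
  right
  rcases lt_or_ge t (5 * R + 2) with c3 | c3
  · left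
    refine ⟨c2, c3, ?_, ?_, ?_⟩
    · rw [if_neg (by omega), if_neg (by omega), if_pos c3]
    · rw [if_neg (by omega), if_neg (by omega), if_pos c3]
    · rw [if_neg (by omega)]
  right
  rcases lt_or_ge t (6 * R + 3) with c4 | c4
  · left
    refine ⟨c3, c4, ?_, ?_, ?_⟩
    · rw [if_neg (by omega), if_neg (by omega), if_neg (by omega), if_pos c4]
    · rw [if_neg (by omega), if_neg (by omega), if_neg (by omega), if_pos (by omega)]
    · rw [if_neg (by omega)]
  right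
  rcases lt_or_ge t (7 * R + 3) with c5 | c5
  · left
    refine ⟨c4, c5, ?_, ?_, ?_⟩
    · rw [if_neg (by omega), if_neg (by omega), if_neg (by omega), if_neg (by omega), if_pos c5]
    · rw [if_neg (by omega), if_neg (by omega), if_neg (by omega), if_pos (by omega)]
    · rw [if_pos (by omega)]
  · right
    refine ⟨c5, ?_, ?_, ?_⟩
    · rw [if_neg (by omega), if_neg (by omega), if_neg (by omega), if_neg (by omega),
        if_neg (by omega)]
    · rw [if_neg (by omega), if_neg (by omega), if_neg (by omega), if_neg (by omega)]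
    · rw [if_pos (by omega)]

/-- The position of the outer port. -/
theorem posI (hw : 3 ≤ w) (hR : 60 * w ≤ R) (h0 : 0 ≤ t) (h1 : t < 8 * R + 3)
    (ha : Away R (20 * w) t) : PosAt (mkI w R hw hR) w R (tlin R t) (oport w R t) ∧
      1 ≤ lay (mkI w R hw hR) (oport w R t) ∧ lay (mkI w R hw hR) (oport w R t) ≤ 2 ∧
      lay (mkI w R hw hR) (tcell w R t) < lay (mkI w R hw hR) (oport w R t) := by
  have hw0 : 0 < w := by omega
  obtain ⟨a1, a2, a3, a4, a5⟩ := away_le ha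
  obtain ⟨b1, b2, b3, b4, b5, b6, b7⟩ := bdsI hw hR
  unfold oport
  rcases tip_cases (by omega : 0 ≤ R) w t with ⟨c1, q1, q2, q3⟩ | ⟨c0, c1, q1, q2, q3⟩ |
    ⟨c0, c1, q1, q2, q3⟩ | ⟨c0, c1, q1, q2, q3⟩ | ⟨c0, c1, q1, q2, q3⟩ | ⟨c1, q1, q2, q3⟩ <;>
    rw [q1, q2, q3] <;> unfold PosAt lay mkI <;>
    simp only [Prod.fst_add, Prod.snd_add, add_zero]
  · have e1 := div_lo t hw0
    have e2 := div_add_le (w := w) (x := t) (y := R - 1) 5 hw0 (by omega)
    have e3 := div_add_le (w := w) (x := -R) (y := t) 5 hw0 (by omega)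
    omega
  · have e1 := div_lo (2 * R - t - 1) hw0
    have e2 := div_add_le (w := w) (x := 2 * R - t - 1) (y := R - 1) 5 hw0 (by omega)
    have e3 := div_add_le (w := w) (x := -(R + 2)) (y := 2 * R - t - 1) 5 hw0 (by omega)
    omega
  · have e1 := div_lo (4 * R + 1 - t) hw0
    have e2 := div_add_le (w := w) (x := 4 * R + 1 - t) (y := R - 1) 5 hw0 (by omega)
    have e3 := div_add_le (w := w) (x := -R) (y := 4 * R + 1 - t) 5 hw0 (by omega)
    omega
  · have e1 := div_lo (t - 6 * R - 4) hw0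
    have e2 := div_add_le (w := w) (x := t - 6 * R - 4) (y := 0) 5 hw0 (by omega)
    have e3 := div_add_le (w := w) (x := -(R + 2)) (y := t - 6 * R - 4) 5 hw0 (by omega)
    rw [Int.zero_ediv] at e2
    omega
  · have e1 := div_lo (t - 6 * R - 3) hw0
    have e2 := div_add_le (w := w) (x := t - 6 * R - 3) (y := R - 1) 5 hw0 (by omega)
    have e3 := div_add_le (w := w) (x := 0) (y := t - 6 * R - 3) 5 hw0 (by omega)
    rw [Int.zero_ediv] at e3
    omega
  · have e1 := div_lo (t - 8 * R - 3) hw0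
    have e2 := div_add_le (w := w) (x := t - 8 * R - 3) (y := R - 1) 5 hw0 (by omega)
    have e3 := div_add_le (w := w) (x := -R) (y := t - 8 * R - 3) 5 hw0 (by omega)
    omega

/-- The position of the inner port. -/
theorem posO (hw : 3 ≤ w) (hR : 60 * w ≤ R) (h0 : 0 ≤ t) (h1 : t < 8 * R + 3)
    (ha : Away R (20 * w) t) : PosAt (mkO w R hw hR) w R (tlin R t) (iport w R t) ∧
      10 ≤ lay (mkO w R hw hR) (iport w R t) ∧ lay (mkO w R hw hR) (iport w R t) ≤ 11 ∧
      lay (mkO w R hw hR) (iport w R t) < lay (mkO w R hw hR) (tcell w R t) := by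
  have hw0 : 0 < w := by omega
  obtain ⟨a1, a2, a3, a4, a5⟩ := away_le ha
  obtain ⟨b4, b5, b6⟩ := bdsO hw hR
  have n1 := neg_div_bd R hw0
  have n2 := neg_div_bd (R + 2) hw0
  unfold iport
  rcases tip_cases (by omega : 0 ≤ R) w t with ⟨c1, q1, q2, q3⟩ | ⟨c0, c1, q1, q2, q3⟩ |
    ⟨c0, c1, q1, q2, q3⟩ | ⟨c0, c1, q1, q2, q3⟩ | ⟨c0, c1, q1, q2, q3⟩ | ⟨c1, q1, q2, q3⟩ <;>
    rw [q1, q2, q3] <;> unfold PosAt lay mkO <;>
    simp only [Prod.fst_sub, Prod.snd_sub, sub_zero]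
  · have e1 := div_lo t hw0
    have e2 := div_add_le (w := w) (x := t) (y := R) 19 hw0 (by omega)
    have e3 := div_add_le (w := w) (x := -R) (y := t) 19 hw0 (by omega)
    omega
  · have e1 := div_lo (2 * R - t - 1) hw0
    have e2 := div_add_le (w := w) (x := 2 * R - t - 1) (y := R) 19 hw0 (by omega)
    have e3 := div_add_le (w := w) (x := -(R + 2)) (y := 2 * R - t - 1) 18 hw0 (by omega)
    omega
  · have e1 := div_lo (4 * R + 1 - t) hw0
    have e2 := div_add_le (w := w) (x := 4 * R + 1 - t) (y := R) 18 hw0 (by omega)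
    have e3 := div_add_le (w := w) (x := -R) (y := 4 * R + 1 - t) 18 hw0 (by omega)
    omega
  · have e1 := div_lo (t - 6 * R - 4) hw0
    have e2 := div_add_le (w := w) (x := t - 6 * R - 4) (y := 0) 5 hw0 (by omega)
    have e3 := div_add_le (w := w) (x := -(R + 2)) (y := t - 6 * R - 4) 18 hw0 (by omega)
    rw [Int.zero_ediv] at e2
    omega
  · have e1 := div_lo (t - 6 * R - 3) hw0
    have e2 := div_add_le (w := w) (x := t - 6 * R - 3) (y := R) 19 hw0 (by omega)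
    have e3 := div_add_le (w := w) (x := 0) (y := t - 6 * R - 3) 5 hw0 (by omega)
    rw [Int.zero_ediv] at e3
    omega
  · have e1 := div_lo (t - 8 * R - 3) hw0
    have e2 := div_add_le (w := w) (x := t - 8 * R - 3) (y := R) 19 hw0 (by omega)
    have e3 := div_add_le (w := w) (x := -R) (y := t - 8 * R - 3) 19 hw0 (by omega)
    omega

end Pool.Agent.Perc.Rt

end Partperc3RoutesE

section Partperc3Routes

/-!
# Routes of the three walls: the two theorems `portsP` and `routesP`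
-/

set_option autoImplicit false

namespace Pool.Agent.Perc.Rt

open Finset Relation Pool.Agent.Perc Pool.Agent.Perc.Q

variable {w R : ℤ} {r : Rc} {c g : ℤ × ℤ} {i j : Fin 3}

/-- At distance at most one. -/
def Nr (c g : ℤ × ℤ) : Prop :=
  (c.1 - 1 ≤ g.1 ∧ g.1 ≤ c.1 + 1) ∧ c.2 - 1 ≤ g.2 ∧ g.2 ≤ c.2 + 1

/-- The eight cells around a cell. -/
noncomputable def ring8 (c : ℤ × ℤ) : Finset (ℤ × ℤ) :=
  (Icc (c.1 - 1) (c.1 + 1) ×ˢ Icc (c.2 - 1) (c.2 + 1)).erase c

theorem mem_ring : g ∈ ring8 c ↔ g ≠ c ∧ Nr c g := by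
  unfold ring8 Nr
  rw [mem_erase, mem_product, mem_Icc, mem_Icc]

theorem card_ring (c : ℤ × ℤ) : (ring8 c).card ≤ 9 := by
  unfold ring8
  refine card_erase_le.trans ?_
  rw [card_product, Int.card_Icc, Int.card_Icc]
  have h1 : (c.1 + 1 + 1 - (c.1 - 1)).toNat = 3 := by omega
  have h2 : (c.2 + 1 + 1 - (c.2 - 1)).toNat = 3 := by omega
  rw [h1, h2]

theorem Nr.self (c : ℤ × ℤ) : Nr c c := by
  unfold Nr
  omega

theorem lay_nr (h : Nr c g) : lay r g ≤ lay r c + 1 ∧ lay r c ≤ lay r g + 1 := by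
  unfold Nr at h
  unfold lay
  omega

/-- Three tips `T` with ports `P` around a rectangle. -/
structure Tips (r : Rc) (w R : ℤ) (τ : Fin 3 → ℤ) (P T : Fin 3 → ℤ × ℤ) : Prop where
  hw : 0 < w
  hcd : r.c + 5 ≤ r.d
  hab : r.a + 5 ≤ r.b
  hd : 3 ≤ r.d
  ha : r.a ≤ -4
  hb : 4 ≤ r.b
  pos : ∀ i, PosAt r w R (τ i) (P i)
  near : ∀ i, Nr (P i) (T i)
  gap : ∀ i j, i < j → τ i + 20 * w ≤ τ j

namespace Tips

variable {τ : Fin 3 → ℤ} {P T : Fin 3 → ℤ × ℤ} (h : Tips r w R τ P T)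
include h

theorem lt (hij : i < j) : ang r (P i) < ang r (P j) := by
  have := pos_ang h.hw (h.pos i) (h.pos j) (h.gap i j hij)
  omega

theorem two (h1 : Nr (T i) g) : |g.1 - (P i).1| ≤ 2 ∧ |g.2 - (P i).2| ≤ 2 := by
  have h2 := h.near i
  unfold Nr at h1 h2
  rw [abs_le, abs_le]
  omega

theorem disj (hij : i ≠ j) (h1 : Nr (T i) g) (h2 : Nr (T j) g) : False := by
  obtain ⟨a1, a2⟩ := h.two h1
  obtain ⟨b1, b2⟩ := h.two h2
  rw [abs_le] at a1 a2 b1 b2
  rcases lt_or_gt_of_ne hij with hlt | hlt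
  · have := pos_far h.hw h.hcd h.hab (h.pos i) (h.pos j) (h.gap i j hlt)
    rw [le_abs, le_abs] at this
    omega
  · have := pos_far h.hw h.hcd h.hab (h.pos j) (h.pos i) (h.gap j i hlt)
    rw [le_abs, le_abs] at this
    omega

theorem ang_ne (hij : i ≠ j) (h1 : Nr (T i) g) (hl : 1 ≤ lay r g) : ang r g ≠ ang r (P j) := by
  intro he
  obtain ⟨a1, a2⟩ := h.two h1
  have hcd := h.hcd
  have hab := h.hab
  have := near_ang (by omega) (by omega) (h.pos i) a1 a2 hl
  rw [abs_le] at this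
  rcases lt_or_gt_of_ne hij with hlt | hlt
  · have := pos_ang h.hw (h.pos i) (h.pos j) (h.gap i j hlt)
    omega
  · have := pos_ang h.hw (h.pos j) (h.pos i) (h.gap j i hlt)
    omega

theorem ok (h1 : Nr (T i) g) : CellOk g := by
  obtain ⟨a1, a2⟩ := h.two h1
  exact near_ok h.hd h.ha h.hb (h.pos i) a1 a2

end Tips

theorem tdir_nr (R t : ℤ) : (tdir R t = (1, 0) ∨ tdir R t = (0, 1) ∨ tdir R t = (-1, 0) ∨
    tdir R t = (0, -1)) := by
  unfold tdir
  split_ifs <;> simp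

theorem oport_nr (w R t : ℤ) : Nr (oport w R t) (tcell w R t) ∧
    Nr (tcell w R t) (oport w R t) ∧ oport w R t ≠ tcell w R t := by
  unfold oport Nr
  rw [ne_eq, Prod.ext_iff]
  rcases tdir_nr R t with h | h | h | h <;> rw [h] <;>
    simp only [Prod.fst_add, Prod.snd_add] <;> omega

theorem iport_nr (w R t : ℤ) : Nr (iport w R t) (tcell w R t) ∧
    Nr (tcell w R t) (iport w R t) ∧ iport w R t ≠ tcell w R t := by
  unfold iport Nr
  rw [ne_eq, Prod.ext_iff]
  rcases tdir_nr R t with h | h | h | h <;> rw [h] <;>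
    simp only [Prod.fst_sub, Prod.snd_sub] <;> omega

theorem tip_gap {t : Fin 3 → ℤ} (ht : TipPos w R t) (hw : 0 < w) (i j : Fin 3) (hij : i < j) :
    tlin R (t i) + 20 * w ≤ tlin R (t j) := by
  obtain ⟨-, h1, h2⟩ := ht
  fin_cases i <;> fin_cases j <;> simp at hij ⊢ <;> omega

theorem tipsI {t : Fin 3 → ℤ} (hw : 3 ≤ w) (hR : 60 * w ≤ R) (ht : TipPos w R t) :
    Tips (mkI w R hw hR) w R (fun i => tlin R (t i)) (fun i => oport w R (t i))
      (fun i => tcell w R (t i)) := by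
  obtain ⟨b1, b2, b3, b4, b5, b6, b7⟩ := bdsI hw hR
  refine ⟨by omega, ?_, ?_, ?_, ?_, ?_, fun i => ?_, fun i => (oport_nr w R (t i)).1,
    tip_gap ht (by omega)⟩
  any_goals (unfold mkI; simp only; omega)
  obtain ⟨c0, c1, c2⟩ := ht.1 i
  exact (posI hw hR c0 c1 c2).1

theorem tipsO {t : Fin 3 → ℤ} (hw : 3 ≤ w) (hR : 60 * w ≤ R) (ht : TipPos w R t) :
    Tips (mkO w R hw hR) w R (fun i => tlin R (t i)) (fun i => iport w R (t i))
      (fun i => tcell w R (t i)) := by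
  obtain ⟨b4, b5, b6⟩ := bdsO hw hR
  refine ⟨by omega, ?_, ?_, ?_, ?_, ?_, fun i => ?_, fun i => (iport_nr w R (t i)).1,
    tip_gap ht (by omega)⟩
  any_goals (unfold mkO; simp only; omega)
  obtain ⟨c0, c1, c2⟩ := ht.1 i
  exact (posO hw hR c0 c1 c2).1

theorem far2_lay {r₁ r₂ : Rc} (h : Far2 r₁ r₂) (hg : 1 ≤ lay r₂ g) : 13 ≤ lay r₁ g := by
  unfold Far2 at h
  unfold lay at hg ⊢
  omega

theorem far2_IO {R' : ℤ} (hw : 3 ≤ w) (hR : 60 * w ≤ R) (hR' : 60 * w ≤ R')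
    (h : R + 60 * w ≤ R') : Far2 (mkI w R hw hR) (mkO w R' hw hR') := by
  have hw0 : 0 < w := by omega
  obtain ⟨b1, b2, b3, b4, b5, b6, b7⟩ := bdsI hw hR
  have e1 := div_add_le (w := w) (x := R + 2) (y := R' + 2) 60 hw0 (by omega)
  have e2 := div_add_le (w := w) (x := R) (y := R') 60 hw0 (by omega)
  have n1 := neg_div_bd R hw0
  have n2 := neg_div_bd (R + 2) hw0
  unfold Far2 mkI mkO
  simp only
  omega

/-- The box of cells. -/
theorem card_box (J : ℕ) : (Ico (-(J : ℤ)) J ×ˢ Ico (-(J : ℤ)) J).card = (2 * J) ^ 2 := by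
  rw [card_product, Int.card_Ico]
  have : ((J : ℤ) - -(J : ℤ)).toNat = 2 * J := by omega
  rw [this]
  ring

theorem routesP : RoutesP := by
  classical
  intro N
  refine ⟨9 + (9 + (2 * (N + 4)) ^ 2), fun w R R' hw hR hRR hN t s ht hs => ?_⟩
  have hw0 : 0 < w := by omega
  have hR' : 60 * w ≤ R' := by omega
  have hF := far2_IO hw hR hR' hRR
  have hI := tipsI hw hR ht
  have hO := tipsO hw hR' hs
  have pI := fun i => posI hw hR (ht.1 i).1 (ht.1 i).2.1 (ht.1 i).2.2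
  have pO := fun i => posO hw hR' (hs.1 i).1 (hs.1 i).2.1 (hs.1 i).2.2
  obtain ⟨W, d1, c1, b1, n1, m1⟩ := routes_core hF (P := fun i => oport w R (t i))
    (Q := fun i => iport w R' (s i)) (fun i => (hI.pos i).reg) (fun i => (hO.pos i).reg)
    (fun i => by have := (pI i).2.2.1; omega) (fun i => (pO i).2.1) (fun i j => hI.lt)
    (fun i j => hO.lt)
  -- layers
  have lI : ∀ i g, Nr (tcell w R (t i)) g → lay (mkI w R hw hR) g ≤ 2 := fun i g hg => by
    obtain ⟨-, q1, q2, q3⟩ := pI i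
    have := (lay_nr (r := mkI w R hw hR) hg).1
    omega
  have lO : ∀ i g, Nr (tcell w R' (s i)) g → 10 ≤ lay (mkO w R' hw hR') g := fun i g hg => by
    obtain ⟨-, q1, q2, q3⟩ := pO i
    have q4 : lay (mkO w R' hw hR') (iport w R' (s i)) < lay (mkO w R' hw hR')
      (tcell w R' (s i)) := q3
    have := (lay_nr (r := mkO w R' hw hR') hg).2
    omega
  have lIO : ∀ i j g, Nr (tcell w R (t i)) g → Nr (tcell w R' (s j)) g → False :=
    fun i j g hg hg' => by
      have e1 := lI i g hg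
      have e2 := lO j g hg'
      have := far2_lay hF (g := g) (by omega)
      omega
  have lW : ∀ i, ∀ g ∈ W i, 1 ≤ lay (mkI w R hw hR) g ∧ lay (mkO w R' hw hR') g ≤ 11 :=
    fun i g hg => by
      obtain ⟨-, q1, q2⟩ := b1 i g hg
      have e1 := (pI i).2.1
      have e2 := (pO i).2.2.1
      have e3 : lay (mkO w R' hw hR') (iport w R' (s i)) ≤ 11 := e2
      omega
  have wI : ∀ i j g, i ≠ j → Nr (tcell w R (t i)) g → g ∉ W j := fun i j g hij hg hg' =>
    hI.ang_ne hij hg (lW j g hg').1 (n1 j g hg' (by have := lI i g hg; omega))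
  have wO : ∀ i j g, i ≠ j → Nr (tcell w R' (s i)) g → g ∉ W j := fun i j g hij hg hg' =>
    hO.ang_ne hij hg (by have := lO i g hg; omega) (m1 j g hg' (lO i g hg))
  have wI' : ∀ i, tcell w R (t i) ∉ W i := fun i hg => by
    have e1 := (b1 i _ hg).2.1
    have e2 := (pI i).2.2.2
    omega
  have wO' : ∀ i, tcell w R' (s i) ∉ W i := fun i hg => by
    have e1 := (b1 i _ hg).2.2
    have e2 : lay (mkO w R' hw hR') (iport w R' (s i)) < lay (mkO w R' hw hR')
      (tcell w R' (s i)) := (pO i).2.2.2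
    omega
  -- the box
  have wB : ∀ i, ∀ g ∈ W i, g ∈ Ico (-((N + 4 : ℕ) : ℤ)) ((N + 4 : ℕ) : ℤ) ×ˢ
      Ico (-((N + 4 : ℕ) : ℤ)) ((N + 4 : ℕ) : ℤ) := fun i g hg => by
    have e1 := (lW i g hg).2
    rw [← cin_iff hw hR'] at e1
    have e2 := (b1 i g hg).1
    obtain ⟨k1, k2, k3, k4⟩ := e1
    have hNw : R' ≤ (N : ℤ) * w := hN
    rw [mem_product, mem_Ico, mem_Ico]
    push_cast
    refine ⟨⟨?_, ?_⟩, ?_, ?_⟩
    · by_contra hc
      have : g.1 * w ≤ (-((N : ℤ) + 4)) * w := mul_le_mul_of_nonneg_right (by omega) hw0.le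
      rw [neg_mul, add_mul] at this
      omega
    · by_contra hc
      have : ((N : ℤ) + 4) * w ≤ g.1 * w := mul_le_mul_of_nonneg_right (by omega) hw0.le
      rw [add_mul] at this k2
      omega
    · by_contra hc
      have : g.2 * w ≤ (-((N : ℤ) + 4)) * w := mul_le_mul_of_nonneg_right (by omega) hw0.le
      rw [neg_mul, add_mul] at this
      omega
    · by_contra hc
      have : ((N : ℤ) + 4) * w ≤ g.2 * w := mul_le_mul_of_nonneg_right (by omega) hw0.le
      rw [add_mul] at this k4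
      omega
  set B : Finset (ℤ × ℤ) := Ico (-((N + 4 : ℕ) : ℤ)) ((N + 4 : ℕ) : ℤ) ×ˢ
      Ico (-((N + 4 : ℕ) : ℤ)) ((N + 4 : ℕ) : ℤ) with hB
  set G : Fin 3 → Finset (ℤ × ℤ) := fun i =>
    ring8 (tcell w R (t i)) ∪ (ring8 (tcell w R' (s i)) ∪ B.filter (· ∈ W i)) with hG
  have mG : ∀ i g, g ∈ G i ↔ (g ≠ tcell w R (t i) ∧ Nr (tcell w R (t i)) g) ∨
      (g ≠ tcell w R' (s i) ∧ Nr (tcell w R' (s i)) g) ∨ g ∈ W i := fun i g => by
    simp only [hG]
    rw [mem_union, mem_union, mem_ring, mem_ring, mem_filter]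
    exact or_congr_right (or_congr_right ⟨fun h => h.2, fun h => ⟨wB i g h, h⟩⟩)
  refine ⟨G, fun i j hij => ?_, fun i g hg => ?_, fun i => ?_, fun i j => ⟨?_, ?_⟩,
    fun i a b ha ha' hb hb' hab => ⟨?_, ?_⟩, fun i => ?_⟩
  · rw [Finset.disjoint_left]
    intro g hg hg'
    rw [mG] at hg hg'
    rcases hg with hg | hg | hg <;> rcases hg' with hg' | hg' | hg'
    · exact hI.disj hij hg.2 hg'.2
    · exact lIO i j g hg.2 hg'.2
    · exact wI i j g hij hg.2 hg'
    · exact lIO j i g hg'.2 hg.2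
    · exact hO.disj hij hg.2 hg'.2
    · exact wO i j g hij hg.2 hg'
    · exact wI j i g hij.symm hg'.2 hg
    · exact wO j i g hij.symm hg'.2 hg
    · exact Set.disjoint_left.1 (d1 i j hij) hg hg'
  · rw [mG] at hg
    rcases hg with hg | hg | hg
    · exact hI.ok hg.2
    · exact hO.ok hg.2
    · exact (b1 i g hg).1
  · simp only [hG]
    refine (card_union_le _ _).trans (Nat.add_le_add (card_ring _) ?_)
    refine (card_union_le _ _).trans (Nat.add_le_add (card_ring _) ?_)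
    refine (card_filter_le _ _).trans ?_
    rw [hB, card_box]
  · intro hg
    rw [mG] at hg
    rcases hg with hg | hg | hg
    · by_cases hij : i = j
      · subst hij; exact hg.1 rfl
      · exact hI.disj hij (Nr.self _) hg.2
    · exact lIO i j _ (Nr.self _) hg.2
    · by_cases hij : i = j
      · subst hij; exact wI' i hg
      · exact wI i j _ hij (Nr.self _) hg
  · intro hg
    rw [mG] at hg
    rcases hg with hg | hg | hg
    · exact lIO j i _ hg.2 (Nr.self _)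
    · by_cases hij : i = j
      · subst hij; exact hg.1 rfl
      · exact hO.disj hij (Nr.self _) hg.2
    · by_cases hij : i = j
      · subst hij; exact wO' i hg
      · exact wO i j _ hij (Nr.self _) hg
  · rw [mG]
    left
    refine ⟨fun h => hab ?_, ?_⟩
    · rw [Prod.ext_iff] at h ⊢
      simp only [Prod.fst_add, Prod.snd_add] at h ⊢
      omega
    · unfold Nr
      simp only [Prod.fst_add, Prod.snd_add]
      omega
  · rw [mG]
    right; left
    refine ⟨fun h => hab ?_, ?_⟩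
    · rw [Prod.ext_iff] at h ⊢
      simp only [Prod.fst_add, Prod.snd_add] at h ⊢
      omega
    · unfold Nr
      simp only [Prod.fst_add, Prod.snd_add]
      omega
  · refine ReflTransGen.mono (fun x y hxy => ?_) _ _ (c1 i)
    obtain ⟨hx, hy, hc⟩ := hxy
    refine ⟨(mG i x).2 (Or.inr (Or.inr hx)), (mG i y).2 (Or.inr (Or.inr hy)), ?_, ?_, ?_, ?_, hc⟩
    · exact (cout_iff hw hR).2 (lW i x hx).1
    · exact (cout_iff hw hR).2 (lW i y hy).1
    · exact (cin_iff hw hR').2 (lW i x hx).2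
    · exact (cin_iff hw hR').2 (lW i y hy).2

/-- The rectangle inside the ports. -/
def mkP (N : ℕ) : Rc where
  a := -((N : ℤ) + 60) + 10
  b := (N : ℤ) + 60 - 11
  c := -((N : ℤ) + 60) + 10
  d := (N : ℤ) + 60 - 11
  ha := by omega
  hb := by omega
  hcd := by omega

/-- The cell before the port. -/
def pre3 (J : ℤ) (i : Fin 3) : ℤ × ℤ := ![(J - 1, 0), (-J, 0), (-20, -J)] i

theorem pre3_ok (N : ℕ) (i : Fin 3) : Reg (mkP N) (pre3 ((N : ℤ) + 60) i) ∧
    lay (mkP N) (pre3 ((N : ℤ) + 60) i) = 10 ∧ lay (mkP N) (port3 ((N : ℤ) + 60) i) = 11 ∧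
    CAdj (pre3 ((N : ℤ) + 60) i) (port3 ((N : ℤ) + 60) i) ∧
    CellOk (port3 ((N : ℤ) + 60) i) := by
  unfold pre3 port3 Reg lay CAdj CellOk mkP
  fin_cases i
  all_goals
    simp
    omega

theorem pre3_lt (N : ℕ) (i j : Fin 3) (hij : i < j) :
    ang (mkP N) (pre3 ((N : ℤ) + 60) i) < ang (mkP N) (pre3 ((N : ℤ) + 60) j) := by
  have e0 : ang (mkP N) (pre3 ((N : ℤ) + 60) 0) = (N + 60 - 11) + 2 + (N + 60 - 10) := by
    show ang (mkP N) ((N : ℤ) + 60 - 1, 0) = _
    rw [ang_s1 (by unfold mkP; simp only; omega) (by unfold mkP; simp only; omega)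
      (by unfold mkP; simp only; omega)]
    unfold mkP
    simp only
    omega
  have e1 : ang (mkP N) (pre3 ((N : ℤ) + 60) 1) = 6 * N + 302 := by
    show ang (mkP N) (-((N : ℤ) + 60), 0) = _
    rw [ang_s3 (by unfold mkP; simp only; omega) (by unfold mkP; simp only; omega)
      (by unfold mkP; simp only; omega)]
    unfold mkP
    simp only
    omega
  have e2 : ang (mkP N) (pre3 ((N : ℤ) + 60) 2) = 8 * N + 384 := by
    show ang (mkP N) (-20, -((N : ℤ) + 60)) = _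
    rw [ang_s4 (by unfold mkP; simp only; omega) (by unfold mkP; simp only; omega)
      (by omega)]
    unfold mkP
    simp only
    omega
  fin_cases i <;> fin_cases j <;> simp at hij ⊢ <;> omega

theorem far2_IP {N : ℕ} (hw : 3 ≤ w) (hR : 60 * w ≤ R) (hN : R ≤ N * w) :
    Far2 (mkI w R hw hR) (mkP N) := by
  have hw0 : 0 < w := by omega
  obtain ⟨b1, b2, b3, b4, b5, b6, b7⟩ := bdsI hw hR
  have e1 : (R - 1) / w ≤ N := by
    have := Int.ediv_lt_of_lt_mul hw0 (show R - 1 < ((N : ℤ) + 1) * w by rw [add_mul]; omega)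
    omega
  have e2 : -((N : ℤ) + 1) ≤ (-(R + 2)) / w := by
    rw [Int.le_ediv_iff_mul_le hw0, neg_mul, add_mul]
    omega
  unfold Far2 mkI mkP
  simp only
  omega

theorem portsP : PortsP := by
  classical
  intro N
  refine ⟨1 + (9 + (2 * (N + 60)) ^ 2), fun w R hw hR hN t ht => ?_⟩
  have hw0 : 0 < w := by omega
  have hF := far2_IP hw hR hN
  have hI := tipsI hw hR ht
  have pI := fun i => posI hw hR (ht.1 i).1 (ht.1 i).2.1 (ht.1 i).2.2
  have pO := pre3_ok N
  obtain ⟨W, d1, c1, b1, n1, m1⟩ := routes_core hF (P := fun i => oport w R (t i))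
    (Q := fun i => pre3 ((N : ℤ) + 60) i) (fun i => (hI.pos i).reg) (fun i => (pO i).1)
    (fun i => by have := (pI i).2.2.1; omega) (fun i => by have := (pO i).2.1; omega)
    (fun i j => hI.lt) (fun i j => pre3_lt N i j)
  -- layers
  have lI : ∀ i g, Nr (tcell w R (t i)) g → lay (mkI w R hw hR) g ≤ 2 := fun i g hg => by
    obtain ⟨-, q1, q2, q3⟩ := pI i
    have := (lay_nr (r := mkI w R hw hR) hg).1
    omega
  have lW : ∀ i, ∀ g ∈ W i, 1 ≤ lay (mkI w R hw hR) g ∧ lay (mkP N) g ≤ 10 :=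
    fun i g hg => by
      obtain ⟨-, q1, q2⟩ := b1 i g hg
      have e1 := (pI i).2.1
      have e2 := (pO i).2.1
      omega
  have lP : ∀ i, 13 ≤ lay (mkI w R hw hR) (port3 ((N : ℤ) + 60) i) := fun i =>
    far2_lay hF (by have := (pO i).2.2.1; omega)
  have wI : ∀ i j g, i ≠ j → Nr (tcell w R (t i)) g → g ∉ W j := fun i j g hij hg hg' =>
    hI.ang_ne hij hg (lW j g hg').1 (n1 j g hg' (by have := lI i g hg; omega))
  have wI' : ∀ i, tcell w R (t i) ∉ W i := fun i hg => by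
    have e1 := (b1 i _ hg).2.1
    have e2 := (pI i).2.2.2
    omega
  have wP : ∀ i j, port3 ((N : ℤ) + 60) i ∉ W j := fun i j hg => by
    have e1 := (lW j _ hg).2
    have e2 := (pO i).2.2.1
    omega
  have pR : ∀ i j, ¬ Nr (tcell w R (t i)) (port3 ((N : ℤ) + 60) j) := fun i j hg => by
    have e1 := lI i _ hg
    have e2 := lP j
    omega
  have pp : ∀ i j : Fin 3, i ≠ j → port3 ((N : ℤ) + 60) i ≠ port3 ((N : ℤ) + 60) j := by
    intro i j hij h
    rw [Prod.ext_iff] at h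
    unfold port3 at h
    fin_cases i <;> fin_cases j <;> simp at hij h <;> omega
  have bP : ∀ g, lay (mkP N) g ≤ 10 → -((N : ℤ) + 60) ≤ g.1 ∧ g.1 < N + 60 ∧
      -((N : ℤ) + 60) ≤ g.2 ∧ g.2 < N + 60 := fun g hg => by
    unfold lay mkP at hg
    simp only at hg
    omega
  set B : Finset (ℤ × ℤ) := Ico (-((N + 60 : ℕ) : ℤ)) ((N + 60 : ℕ) : ℤ) ×ˢ
      Ico (-((N + 60 : ℕ) : ℤ)) ((N + 60 : ℕ) : ℤ) with hB
  have wB : ∀ i, ∀ g ∈ W i, g ∈ B := fun i g hg => by
    have := bP g (lW i g hg).2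
    rw [hB, mem_product, mem_Ico, mem_Ico]
    push_cast
    omega
  set G : Fin 3 → Finset (ℤ × ℤ) := fun i =>
    {port3 ((N : ℤ) + 60) i} ∪ (ring8 (tcell w R (t i)) ∪ B.filter (· ∈ W i)) with hG
  have mG : ∀ i g, g ∈ G i ↔ g = port3 ((N : ℤ) + 60) i ∨
      (g ≠ tcell w R (t i) ∧ Nr (tcell w R (t i)) g) ∨ g ∈ W i := fun i g => by
    simp only [hG]
    rw [mem_union, mem_union, mem_ring, mem_singleton, mem_filter]
    exact or_congr_right (or_congr_right ⟨fun h => h.2, fun h => ⟨wB i g h, h⟩⟩)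
  refine ⟨G, ⟨fun i j hij => ?_, fun i g hg => ?_, fun i j => ?_,
    fun i a b ha ha' hb hb' hab => ?_⟩, fun i => ?_, fun i g hg => ?_, fun i => ?_⟩
  · rw [Finset.disjoint_left]
    intro g hg hg'
    rw [mG] at hg hg'
    rcases hg with hg | hg | hg <;> rcases hg' with hg' | hg' | hg'
    · exact pp i j hij (hg.symm.trans hg')
    · exact pR j i (hg ▸ hg'.2)
    · exact wP i j (hg ▸ hg')
    · exact pR i j (hg' ▸ hg.2)
    · exact hI.disj hij hg.2 hg'.2
    · exact wI i j g hij hg.2 hg'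
    · exact wP j i (hg' ▸ hg)
    · exact wI j i g hij.symm hg'.2 hg
    · exact Set.disjoint_left.1 (d1 i j hij) hg hg'
  · rw [mG] at hg
    rcases hg with hg | hg | hg
    · rw [hg]; exact (pO i).2.2.2.2
    · exact hI.ok hg.2
    · exact (b1 i g hg).1
  · intro hg
    rw [mG] at hg
    rcases hg with hg | hg | hg
    · exact pR i j (hg ▸ Nr.self _)
    · by_cases hij : i = j
      · subst hij; exact hg.1 rfl
      · exact hI.disj hij (Nr.self _) hg.2
    · by_cases hij : i = j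
      · subst hij; exact wI' i hg
      · exact wI i j _ hij (Nr.self _) hg
  · rw [mG]
    right; left
    refine ⟨fun h => hab ?_, ?_⟩
    · rw [Prod.ext_iff] at h ⊢
      simp only [Prod.fst_add, Prod.snd_add] at h ⊢
      omega
    · unfold Nr
      simp only [Prod.fst_add, Prod.snd_add]
      omega
  · simp only [hG]
    refine (card_union_le _ _).trans (Nat.add_le_add (by rw [card_singleton]) ?_)
    refine (card_union_le _ _).trans (Nat.add_le_add (card_ring _) ?_)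
    refine (card_filter_le _ _).trans ?_
    rw [hB, card_box]
  · rw [mG] at hg
    rcases hg with hg | hg | hg
    · exact Or.inl hg
    · right
      have e1 := lI i g hg.2
      refine bP g ?_
      by_contra hc
      have := far2_lay hF (g := g) (by omega)
      omega
    · exact Or.inr (bP g (lW i g hg).2)
  · have k1 : ReflTransGen (fun a b => a ∈ G i ∧ b ∈ G i ∧ COut w R a ∧ COut w R b ∧ CAdj a b)
        (oport w R (t i)) (pre3 ((N : ℤ) + 60) i) := by
      refine ReflTransGen.mono (fun x y hxy => ?_) _ _ (c1 i)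
      obtain ⟨hx, hy, hc⟩ := hxy
      refine ⟨(mG i x).2 (Or.inr (Or.inr hx)), (mG i y).2 (Or.inr (Or.inr hy)), ?_, ?_, hc⟩
      · exact (cout_iff hw hR).2 (lW i x hx).1
      · exact (cout_iff hw hR).2 (lW i y hy).1
    have k2 : pre3 ((N : ℤ) + 60) i ∈ W i := by
      rcases ReflTransGen.cases_tail (c1 i) with h | ⟨y, -, hy⟩
      · exfalso
        have h' : oport w R (t i) = pre3 ((N : ℤ) + 60) i := h.symm
        have e1 := (pI i).2.2.1
        have e2 := far2_lay hF (g := pre3 ((N : ℤ) + 60) i) (by have := (pO i).2.1; omega)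
        rw [h'] at e1
        omega
      · exact hy.2.1
    refine k1.tail ⟨(mG i _).2 (Or.inr (Or.inr k2)), (mG i _).2 (Or.inl rfl), ?_, ?_,
      (pO i).2.2.2.1⟩
    · exact (cout_iff hw hR).2 (lW i _ k2).1
    · exact (cout_iff hw hR).2 (by have := lP i; omega)

end Pool.Agent.Perc.Rt

end Partperc3Routes
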