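import Pool.Agent.Lib.MP_6bd702_zc.Pre
import Pool.Agent.Lib.MP_6bd702_zc.Y024
import Pool.Agent.Lib.MP_6bd702_zc.Y022

section Partperc3TwRing

/-!
# The ring of cells around a tip
-/

set_option autoImplicit false

namespace Pool.Agent.Perc.Q

open Finset Pool.Agent.Perc Relation

variable {w c s R t : ℤ} {ω : Cfg} {G : Finset (ℤ × ℤ)} {f g v z : ℤ × ℤ} {k : ZMod 4}

/-- The counterclockwise direction at the boundary edge `t`. -/
def ttan (R t : ℤ) : ℤ × ℤ := (-(tdir R t).2, (tdir R t).1)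

/-- The cells of the ring. -/
def rcell (w R t a b : ℤ) : ℤ × ℤ :=
  ((tcell w R t).1 + a * (tdir R t).1 + b * (ttan R t).1,
    (tcell w R t).2 + a * (tdir R t).2 + b * (ttan R t).2)

theorem mem_BW {R : ℤ} {f : ℤ × ℤ} : f ∈ BW R ↔
    (-(R + 2) ≤ f.1 ∧ f.1 < R ∧ 0 ≤ f.2 ∧ f.2 < R) ∨
      (-(R + 1) ≤ f.1 ∧ f.1 < R ∧ -R ≤ f.2 ∧ f.2 < 0) := by
  unfold BW
  rw [mem_union, mem_RFi, mem_RFi]

theorem cout_face (hw : 2 ≤ w) (h : COut w R g) (hf : f ∈ cellF w g) :
    f ∉ BW R := by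
  rw [mem_BW]
  rw [mem_cellF] at hf
  unfold COut at h
  rw [add_mul, add_mul, one_mul] at h
  rcases chS_cases g with ⟨a1, a2⟩ | ⟨a1, a2⟩ <;> rw [a2] at hf
  · omega
  · have : 0 ≤ g.1 * w := mul_nonneg a1 (by omega)
    omega

theorem cin_face (hR : 0 < R) (hw : 2 ≤ w) (h : CIn w R g) (hf : f ∈ cellF w g) :
    f ∈ BW R := by
  rw [mem_BW]
  rw [mem_cellF] at hf
  unfold CIn at h
  rw [add_mul, add_mul, one_mul] at h
  rcases chS_cases g with ⟨a1, a2⟩ | ⟨a1, a2⟩ <;> rw [a2] at hf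
  · have := mul_lt_of_lt (w := w) (by omega) a1
    rw [zero_mul] at this
    omega
  · have : 0 ≤ g.1 * w := mul_nonneg a1 (by omega)
    omega

/-- The chart at a tip: `P` are the coordinates of `bd R t`, `D` the outward direction, `E` the
tangent; `n₀`, `τ₀` describe the position of the cells. -/
structure TipC (w R t : ℤ) (P : ℤ × ℤ) (n₀ τ₀ : ℤ) : Prop where
  hR : 20 * w ≤ R
  hn : -w ≤ n₀ ∧ n₀ ≤ 0
  hτ : 1 - w ≤ τ₀ ∧ τ₀ ≤ 0
  bdE : ∀ τ, -(4 * w) ≤ τ → τ ≤ 4 * w →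
    bd R (t + τ) = chF (chS (tcell w R t)) (P.1 + τ * (ttan R t).1, P.2 + τ * (ttan R t).2)
  inW : ∀ n τ, -(4 * w) ≤ n → n ≤ 4 * w → -(4 * w) ≤ τ → τ ≤ 4 * w →
    (InW R (chF (chS (tcell w R t)) (P.1 + n * (tdir R t).1 + τ * (ttan R t).1,
      P.2 + n * (tdir R t).2 + τ * (ttan R t).2)) ↔ n ≤ 0)
  bdW : ∀ n τ, -(4 * w) ≤ n → n ≤ 4 * w → -(4 * w) ≤ τ → τ ≤ 4 * w →
    BdW R (chF (chS (tcell w R t)) (P.1 + n * (tdir R t).1 + τ * (ttan R t).1,
      P.2 + n * (tdir R t).2 + τ * (ttan R t).2)) → n = 0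
  cell : ∀ a b, -1 ≤ a → a ≤ 1 → -1 ≤ b → b ≤ 1 → ∀ v, InCell w (rcell w R t a b) v →
    ∃ n τ, v = chF (chS (tcell w R t)) (P.1 + n * (tdir R t).1 + τ * (ttan R t).1,
      P.2 + n * (tdir R t).2 + τ * (ttan R t).2) ∧ n₀ + a * w ≤ n ∧ n ≤ n₀ + a * w + w ∧
      τ₀ + b * w ≤ τ ∧ τ ≤ τ₀ + b * w + w
  ok : ∀ a b, -1 ≤ a → a ≤ 1 → -1 ≤ b → b ≤ 1 → CellOk (rcell w R t a b) ∧
    chS (rcell w R t a b) = chS (tcell w R t)
  out : ∀ b, -1 ≤ b → b ≤ 1 → COut w R (rcell w R t 1 b)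
  cin : ∀ b, -1 ≤ b → b ≤ 1 → CIn w R (rcell w R t (-1) b)
  cin3 : ∀ a b, -1 ≤ a → a ≤ 1 → -1 ≤ b → b ≤ 1 → CIn w (R + 3 * w) (rcell w R t a b)
  cout3 : ∀ a b, -1 ≤ a → a ≤ 1 → -1 ≤ b → b ≤ 1 → COut w (R - 3 * w) (rcell w R t a b)
  par : (tdir R t = (1, 0) ∧ ttan R t = (0, 1)) ∨ (tdir R t = (0, 1) ∧ ttan R t = (-1, 0)) ∨
    (tdir R t = (-1, 0) ∧ ttan R t = (0, -1)) ∨ (tdir R t = (0, -1) ∧ ttan R t = (1, 0))

theorem away_cases (hw : 0 < w) (h0 : 0 ≤ t) (h1 : t < 8 * R + 3) (hA : Away R (10 * w) t) :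
    (10 * w ≤ t ∧ t ≤ R - 10 * w) ∨
    (R + 10 * w ≤ t ∧ t ≤ 2 * R + 1 - 10 * w) ∨
    (2 * R + 1 + 10 * w ≤ t ∧ t ≤ 3 * R + 2 - 10 * w) ∨
    (3 * R + 2 + 10 * w ≤ t ∧ t ≤ 4 * R + 2 - 10 * w) ∨
    (4 * R + 2 + 10 * w ≤ t ∧ t ≤ 5 * R + 2 - 10 * w) ∨
    (5 * R + 2 + 10 * w ≤ t ∧ t ≤ 6 * R + 3 - 10 * w) ∨
    (6 * R + 3 + 10 * w ≤ t ∧ t ≤ 7 * R + 3 - 10 * w) ∨
    (7 * R + 3 + 10 * w ≤ t ∧ t ≤ 8 * R + 3 - 10 * w) := by
  unfold Away spec at hA
  simp only [List.mem_cons, List.not_mem_nil, or_false, forall_eq_or_imp, forall_eq] at hA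
  obtain ⟨a0, a1, a2, a3, a4, a5, a6, a7, a8⟩ := hA
  rw [le_abs] at a0 a1 a2 a3 a4 a5 a6 a7 a8
  omega

theorem div_bounds (hw : 0 < w) (x : ℤ) : x / w * w ≤ x ∧ x < x / w * w + w := by
  have h1 := Int.emod_add_mul_ediv x w
  have h2 := Int.emod_nonneg x (by omega : w ≠ 0)
  have h3 := Int.emod_lt_of_pos x hw
  rw [mul_comm]
  omega

theorem mexp (i a b d e w : ℤ) : (i + a * d + b * e) * w = i * w + a * w * d + b * w * e := by ring

theorem mexp1 (i a b d e w : ℤ) :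
    (i + a * d + b * e + 1) * w = i * w + a * w * d + b * w * e + w := by ring

theorem tipC_RU (hw : 2 ≤ w) (h0 : 10 * w ≤ t) (h1 : t ≤ R - 10 * w) :
    TipC w R t (R, t) (R / w * w - R) (t / w * w - t) := by
  have b1 := div_bounds (w := w) (by omega) R
  have b2 := div_bounds (w := w) (by omega) t
  have e1 : tcell w R t = (R / w, t / w) := if_pos (by omega)
  have e2 : tdir R t = (1, 0) := if_pos (by omega)
  have e3 : ttan R t = (0, 1) := by unfold ttan; rw [e2]; rfl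
  have i1 : 20 ≤ R / w := (Int.le_ediv_iff_mul_le (by omega)).2 (by omega)
  have i2 : 10 ≤ t / w := (Int.le_ediv_iff_mul_le (by omega)).2 (by omega)
  have e4 : chS (tcell w R t) = 0 := by rw [e1]; exact if_neg (by simp only; omega)
  have e5 : ∀ a b, rcell w R t a b = (R / w + a, t / w + b) := by
    intro a b
    unfold rcell
    rw [e1, e2, e3]
    simp only [mul_one, mul_zero, add_zero]
  refine ⟨by omega, by omega, by omega, ?_, ?_, ?_, ?_, ?_, ?_, ?_, ?_, ?_, ?_⟩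
  · intro τ h2 h3
    rw [e4, e3, chF_zero]
    unfold bd
    rw [if_pos (by omega)]
    simp only [Prod.mk.injEq]
    omega
  · intro n τ h2 h3 h4 h5
    rw [e4, e2, e3, chF_zero]
    unfold InW
    simp only
    omega
  · intro n τ h2 h3 h4 h5
    rw [e4, e2, e3, chF_zero]
    unfold BdW
    simp only
    omega
  · intro a b h2 h3 h4 h5 v hv
    rw [e5] at hv
    unfold InCell at hv
    simp only at hv
    rw [add_mul, add_mul] at hv
    rw [e4, e2, e3]
    refine ⟨v.1 - R, v.2 - t, ?_, ?_⟩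
    · rw [chF_zero]
      refine Prod.ext ?_ ?_ <;> simp only <;> omega
    · have : 0 ≤ t / w * w + b * w := by
        have h6 : 0 ≤ (t / w + b) * w := mul_nonneg (by omega) (by omega)
        rw [add_mul] at h6
        exact h6
      omega
  · intro a b h2 h3 h4 h5
    rw [e5, e4]
    unfold CellOk chS
    simp only
    exact ⟨by omega, if_neg (by omega)⟩
  · intro b h2 h3
    rw [e5]
    unfold COut
    simp only
    rw [add_mul]
    omega
  · intro b h2 h3
    rw [e5]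
    unfold CIn
    simp only
    obtain rfl | rfl | rfl : b = -1 ∨ b = 0 ∨ b = 1 := by omega
    all_goals simp only [add_mul]; omega
  · intro a b h2 h3 h4 h5
    rw [e5]
    unfold CIn
    simp only
    obtain rfl | rfl | rfl : b = -1 ∨ b = 0 ∨ b = 1 := by omega
    all_goals obtain rfl | rfl | rfl : a = -1 ∨ a = 0 ∨ a = 1 := by omega
    all_goals simp only [add_mul, sub_mul]; omega
  · intro a b h2 h3 h4 h5
    rw [e5]
    unfold COut
    simp only
    obtain rfl | rfl | rfl : b = -1 ∨ b = 0 ∨ b = 1 := by omega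
    all_goals obtain rfl | rfl | rfl : a = -1 ∨ a = 0 ∨ a = 1 := by omega
    all_goals simp only [add_mul, sub_mul]; omega
  · rw [e2, e3]
    decide

theorem tipC_T (hw : 2 ≤ w) (hR : 20 * w ≤ R) (h0 : R + 10 * w ≤ t) (h1 : t ≤ 3 * R + 2 - 10 * w)
    (hm : t ≤ 2 * R + 1 - 10 * w ∨ 2 * R + 1 + 10 * w ≤ t) :
    TipC w R t (2 * R - t, R) (R / w * w - R) (2 * R - t - (2 * R - t - 1) / w * w - w) := by
  have b1 := div_bounds (w := w) (by omega) R
  have b2 := div_bounds (w := w) (by omega) (2 * R - t - 1)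
  have e1 : tcell w R t = ((2 * R - t - 1) / w, R / w) := by
    unfold tcell
    rw [if_neg (by omega), if_pos (by omega)]
  have e2 : tdir R t = (0, 1) := by
    unfold tdir
    rw [if_neg (by omega), if_pos (by omega)]
  have e3 : ttan R t = (-1, 0) := by unfold ttan; rw [e2]
  have i1 : 20 ≤ R / w := (Int.le_ediv_iff_mul_le (by omega)).2 (by omega)
  have i2 : (9 ≤ (2 * R - t - 1) / w ∧ t ≤ 2 * R + 1 - 10 * w) ∨
      (2 * R - t - 1) / w < -9 := by
    rcases hm with hm | hm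
    · exact Or.inl ⟨(Int.le_ediv_iff_mul_le (by omega)).2 (by omega), hm⟩
    · exact Or.inr ((Int.ediv_lt_iff_lt_mul (by omega)).2 (by omega))
  have e5 : ∀ a b, rcell w R t a b = ((2 * R - t - 1) / w - b, R / w + a) := by
    intro a b
    unfold rcell
    rw [e1, e2, e3]
    simp only [mul_one, mul_zero, add_zero, mul_neg]
    rfl
  have ec : ∀ u : ℤ × ℤ, 0 ≤ u.2 → chF (chS (tcell w R t)) u = u := fun u hu => chF_up hu
  refine ⟨hR, by omega, by omega, ?_, ?_, ?_, ?_, ?_, ?_, ?_, ?_, ?_, ?_⟩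
  · intro τ h2 h3
    rw [ec _ (by rw [e3]; simp only; omega), e3]
    unfold bd
    rw [if_neg (by omega), if_pos (by omega)]
    simp only [Prod.mk.injEq]
    omega
  · intro n τ h2 h3 h4 h5
    rw [ec _ (by rw [e3, e2]; simp only; omega), e2, e3]
    unfold InW
    simp only
    omega
  · intro n τ h2 h3 h4 h5
    rw [ec _ (by rw [e3, e2]; simp only; omega), e2, e3]
    unfold BdW
    simp only
    omega
  · intro a b h2 h3 h4 h5 v hv
    rw [e5] at hv
    unfold InCell at hv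
    simp only at hv
    rw [add_mul, sub_mul] at hv
    have h7 : 0 ≤ R / w * w + a * w := by
      have h6 : 0 ≤ (R / w + a) * w := mul_nonneg (by omega) (by omega)
      rw [add_mul] at h6
      exact h6
    refine ⟨v.2 - R, 2 * R - t - v.1, ?_, ?_⟩
    · rw [ec _ (by rw [e3, e2]; simp only; omega), e2, e3]
      refine Prod.ext ?_ ?_ <;> simp only <;> omega
    · omega
  · intro a b h2 h3 h4 h5
    rw [e5, e1]
    unfold CellOk chS
    simp only
    refine ⟨by omega, ?_⟩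
    rcases i2 with ⟨i2, -⟩ | i2
    · rw [if_neg (by omega), if_neg (by omega)]
    · rw [if_pos (by omega), if_pos (by omega)]
  · intro b h2 h3
    rw [e5]
    unfold COut
    simp only
    rw [add_mul (R / w)]
    omega
  · intro b h2 h3
    rw [e5]
    unfold CIn
    simp only
    obtain rfl | rfl | rfl : b = -1 ∨ b = 0 ∨ b = 1 := by omega
    all_goals simp only [add_mul, sub_mul]; omega
  · intro a b h2 h3 h4 h5
    rw [e5]
    unfold CIn
    simp only
    obtain rfl | rfl | rfl : b = -1 ∨ b = 0 ∨ b = 1 := by omega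
    all_goals obtain rfl | rfl | rfl : a = -1 ∨ a = 0 ∨ a = 1 := by omega
    all_goals simp only [add_mul, sub_mul]; omega
  · intro a b h2 h3 h4 h5
    rw [e5]
    unfold COut
    simp only
    obtain rfl | rfl | rfl : b = -1 ∨ b = 0 ∨ b = 1 := by omega
    all_goals obtain rfl | rfl | rfl : a = -1 ∨ a = 0 ∨ a = 1 := by omega
    all_goals simp only [add_mul, sub_mul]; omega
  · rw [e2, e3]
    decide

theorem tipC_L (hw : 2 ≤ w) (hR : 20 * w ≤ R) (h0 : 3 * R + 2 + 10 * w ≤ t)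
    (h1 : t ≤ 5 * R + 2 - 10 * w) (hm : t ≤ 4 * R + 2 - 10 * w ∨ 4 * R + 2 + 10 * w ≤ t) :
    TipC w R t (-(R + 2), 4 * R + 2 - t) (-(R + 2) - (-(R + 2)) / w * w - w)
      (4 * R + 2 - t - (4 * R + 1 - t) / w * w - w) := by
  have b1 := div_bounds (w := w) (by omega) (-(R + 2))
  have b2 := div_bounds (w := w) (by omega) (4 * R + 1 - t)
  have e1 : tcell w R t = ((-(R + 2)) / w, (4 * R + 1 - t) / w) := by
    unfold tcell
    rw [if_neg (by omega), if_neg (by omega), if_pos (by omega)]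
  have e2 : tdir R t = (-1, 0) := by
    unfold tdir
    rw [if_neg (by omega), if_neg (by omega), if_pos (by omega)]
  have e3 : ttan R t = (0, -1) := by unfold ttan; rw [e2]; rfl
  have i1 : (-(R + 2)) / w < -19 := (Int.ediv_lt_iff_lt_mul (by omega)).2 (by omega)
  have i2 : (9 ≤ (4 * R + 1 - t) / w ∧ t ≤ 4 * R + 2 - 10 * w) ∨
      ((4 * R + 1 - t) / w < -9 ∧ 4 * R + 2 + 10 * w ≤ t) := by
    rcases hm with hm | hm
    · exact Or.inl ⟨(Int.le_ediv_iff_mul_le (by omega)).2 (by omega), hm⟩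
    · exact Or.inr ⟨(Int.ediv_lt_iff_lt_mul (by omega)).2 (by omega), hm⟩
  have e4 : chS (tcell w R t) = 1 := by rw [e1]; exact if_pos (by simp only; omega)
  have e5 : ∀ a b, rcell w R t a b = ((-(R + 2)) / w - a, (4 * R + 1 - t) / w - b) := by
    intro a b
    unfold rcell
    rw [e1, e2, e3]
    simp only [mul_zero, add_zero, mul_neg, mul_one]
    rfl
  refine ⟨hR, by omega, by omega, ?_, ?_, ?_, ?_, ?_, ?_, ?_, ?_, ?_, ?_⟩
  · intro τ h2 h3
    rw [e4, e3]
    unfold bd chF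
    rw [if_neg (by omega), if_neg (by omega)]
    simp only
    split_ifs <;> (rw [Prod.mk.injEq]; omega)
  · intro n τ h2 h3 h4 h5
    rw [e4, e2, e3]
    unfold InW chF
    simp only
    split_ifs <;> simp only <;> omega
  · intro n τ h2 h3 h4 h5
    rw [e4, e2, e3]
    unfold BdW chF
    simp only
    split_ifs <;> simp only <;> omega
  · intro a b h2 h3 h4 h5 v hv
    rw [e5] at hv
    unfold InCell at hv
    simp only at hv
    have e6 : chS ((-(R + 2)) / w - a, (4 * R + 1 - t) / w - b) = 1 :=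
      if_pos (by simp only; omega)
    rw [e6, sub_mul, sub_mul] at hv
    rw [e4, e2, e3]
    rcases lt_or_ge v.2 0 with h | h
    · refine ⟨-(R + 2) - (v.1 - 1), 4 * R + 2 - t - v.2, ?_, ?_⟩
      · rw [chF_low (by simp only; omega)]
        refine Prod.ext ?_ ?_ <;> simp only <;> omega
      · omega
    · refine ⟨-(R + 2) - v.1, 4 * R + 2 - t - v.2, ?_, ?_⟩
      · rw [chF_up (by simp only; omega)]
        refine Prod.ext ?_ ?_ <;> simp only <;> omega
      · omega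
  · intro a b h2 h3 h4 h5
    rw [e5, e4]
    unfold CellOk chS
    simp only
    exact ⟨by omega, if_pos (by omega)⟩
  · intro b h2 h3
    rw [e5]
    unfold COut
    simp only
    rw [add_mul, sub_mul]
    omega
  · intro b h2 h3
    rw [e5]
    unfold CIn
    simp only
    obtain rfl | rfl | rfl : b = -1 ∨ b = 0 ∨ b = 1 := by omega
    all_goals simp only [add_mul, sub_mul]; omega
  · intro a b h2 h3 h4 h5
    rw [e5]
    unfold CIn
    simp only
    obtain rfl | rfl | rfl : b = -1 ∨ b = 0 ∨ b = 1 := by omega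
    all_goals obtain rfl | rfl | rfl : a = -1 ∨ a = 0 ∨ a = 1 := by omega
    all_goals simp only [add_mul, sub_mul]; omega
  · intro a b h2 h3 h4 h5
    rw [e5]
    unfold COut
    simp only
    obtain rfl | rfl | rfl : b = -1 ∨ b = 0 ∨ b = 1 := by omega
    all_goals obtain rfl | rfl | rfl : a = -1 ∨ a = 0 ∨ a = 1 := by omega
    all_goals simp only [add_mul, sub_mul]; omega
  · rw [e2, e3]
    decide

theorem tipC_BL (hw : 2 ≤ w) (hR : 20 * w ≤ R) (h0 : 5 * R + 2 + 10 * w ≤ t)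
    (h1 : t ≤ 6 * R + 3 - 10 * w) :
    TipC w R t (t - 6 * R - 4, -R) (-R - (-R) / w * w - w)
      ((t - 6 * R - 4) / w * w - (t - 6 * R - 4)) := by
  have b1 := div_bounds (w := w) (by omega) (-R)
  have b2 := div_bounds (w := w) (by omega) (t - 6 * R - 4)
  have e1 : tcell w R t = ((t - 6 * R - 4) / w, (-R) / w) := by
    unfold tcell
    rw [if_neg (by omega), if_neg (by omega), if_neg (by omega), if_pos (by omega)]
  have e2 : tdir R t = (0, -1) := by
    unfold tdir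
    rw [if_neg (by omega), if_neg (by omega), if_neg (by omega), if_pos (by omega)]
  have e3 : ttan R t = (1, 0) := by unfold ttan; rw [e2]; rfl
  have i1 : (-R) / w < -19 := (Int.ediv_lt_iff_lt_mul (by omega)).2 (by omega)
  have i2 : (t - 6 * R - 4) / w < -9 := (Int.ediv_lt_iff_lt_mul (by omega)).2 (by omega)
  have e4 : chS (tcell w R t) = 1 := by rw [e1]; exact if_pos (by simp only; omega)
  have e5 : ∀ a b, rcell w R t a b = ((t - 6 * R - 4) / w + b, (-R) / w - a) := by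
    intro a b
    unfold rcell
    rw [e1, e2, e3]
    simp only [mul_zero, add_zero, mul_neg, mul_one]
    rfl
  refine ⟨hR, by omega, by omega, ?_, ?_, ?_, ?_, ?_, ?_, ?_, ?_, ?_, ?_⟩
  · intro τ h2 h3
    rw [e4, e3]
    unfold bd chF
    rw [if_neg (by omega), if_neg (by omega), if_neg (by omega), if_neg (by omega),
      if_pos (by omega), if_neg (by simp only; omega)]
    simp only [Prod.mk.injEq]
    omega
  · intro n τ h2 h3 h4 h5
    rw [e4, e2, e3]
    unfold InW chF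
    rw [if_neg (by simp only; omega)]
    simp only
    omega
  · intro n τ h2 h3 h4 h5
    rw [e4, e2, e3]
    unfold BdW chF
    rw [if_neg (by simp only; omega)]
    simp only
    omega
  · intro a b h2 h3 h4 h5 v hv
    rw [e5] at hv
    unfold InCell at hv
    simp only at hv
    have e6 : chS ((t - 6 * R - 4) / w + b, (-R) / w - a) = 1 := if_pos (by simp only; omega)
    rw [e6, sub_mul, add_mul] at hv
    have h7 : (-R) / w * w - a * w + w < 0 := by
      have h6 : ((-R) / w - a + 1) * w < 0 := mul_neg_of_neg_of_pos (by omega) (by omega)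
      rw [add_mul, sub_mul] at h6
      omega
    rw [e4, e2, e3]
    refine ⟨-R - v.2, v.1 - 1 - (t - 6 * R - 4), ?_, ?_⟩
    · rw [chF_low (by simp only; omega)]
      refine Prod.ext ?_ ?_ <;> simp only <;> omega
    · omega
  · intro a b h2 h3 h4 h5
    rw [e5, e4]
    unfold CellOk chS
    simp only
    exact ⟨by omega, if_pos (by omega)⟩
  · intro b h2 h3
    rw [e5]
    unfold COut
    simp only
    rw [add_mul ((-R) / w - 1), sub_mul]
    omega
  · intro b h2 h3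
    rw [e5]
    unfold CIn
    simp only
    obtain rfl | rfl | rfl : b = -1 ∨ b = 0 ∨ b = 1 := by omega
    all_goals simp only [add_mul, sub_mul]; omega
  · intro a b h2 h3 h4 h5
    rw [e5]
    unfold CIn
    simp only
    obtain rfl | rfl | rfl : b = -1 ∨ b = 0 ∨ b = 1 := by omega
    all_goals obtain rfl | rfl | rfl : a = -1 ∨ a = 0 ∨ a = 1 := by omega
    all_goals simp only [add_mul, sub_mul]; omega
  · intro a b h2 h3 h4 h5
    rw [e5]
    unfold COut
    simp only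
    obtain rfl | rfl | rfl : b = -1 ∨ b = 0 ∨ b = 1 := by omega
    all_goals obtain rfl | rfl | rfl : a = -1 ∨ a = 0 ∨ a = 1 := by omega
    all_goals simp only [add_mul, sub_mul]; omega
  · rw [e2, e3]
    decide

theorem tipC_BR (hw : 2 ≤ w) (hR : 20 * w ≤ R) (h0 : 6 * R + 3 + 10 * w ≤ t)
    (h1 : t ≤ 7 * R + 3 - 10 * w) :
    TipC w R t (t - 6 * R - 3, -R) (-R - (-R) / w * w - w)
      ((t - 6 * R - 3) / w * w - (t - 6 * R - 3)) := by
  have b1 := div_bounds (w := w) (by omega) (-R)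
  have b2 := div_bounds (w := w) (by omega) (t - 6 * R - 3)
  have e1 : tcell w R t = ((t - 6 * R - 3) / w, (-R) / w) := by
    unfold tcell
    rw [if_neg (by omega), if_neg (by omega), if_neg (by omega), if_neg (by omega),
      if_pos (by omega)]
  have e2 : tdir R t = (0, -1) := by
    unfold tdir
    rw [if_neg (by omega), if_neg (by omega), if_neg (by omega), if_pos (by omega)]
  have e3 : ttan R t = (1, 0) := by unfold ttan; rw [e2]; rfl
  have i1 : (-R) / w < -19 := (Int.ediv_lt_iff_lt_mul (by omega)).2 (by omega)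
  have i2 : 10 ≤ (t - 6 * R - 3) / w := (Int.le_ediv_iff_mul_le (by omega)).2 (by omega)
  have e4 : chS (tcell w R t) = 0 := by rw [e1]; exact if_neg (by simp only; omega)
  have e5 : ∀ a b, rcell w R t a b = ((t - 6 * R - 3) / w + b, (-R) / w - a) := by
    intro a b
    unfold rcell
    rw [e1, e2, e3]
    simp only [mul_zero, add_zero, mul_neg, mul_one]
    rfl
  refine ⟨hR, by omega, by omega, ?_, ?_, ?_, ?_, ?_, ?_, ?_, ?_, ?_, ?_⟩
  · intro τ h2 h3
    rw [e4, e3, chF_zero]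
    unfold bd
    rw [if_neg (by omega), if_neg (by omega), if_neg (by omega), if_neg (by omega),
      if_pos (by omega)]
    simp only [Prod.mk.injEq]
    omega
  · intro n τ h2 h3 h4 h5
    rw [e4, e2, e3, chF_zero]
    unfold InW
    simp only
    omega
  · intro n τ h2 h3 h4 h5
    rw [e4, e2, e3, chF_zero]
    unfold BdW
    simp only
    omega
  · intro a b h2 h3 h4 h5 v hv
    rw [e5] at hv
    unfold InCell at hv
    simp only at hv
    have e6 : chS ((t - 6 * R - 3) / w + b, (-R) / w - a) = 0 := if_neg (by simp only; omega)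
    rw [e6, sub_mul, add_mul] at hv
    have h7 : (-R) / w * w - a * w + w < 0 := by
      have h6 : ((-R) / w - a + 1) * w < 0 := mul_neg_of_neg_of_pos (by omega) (by omega)
      rw [add_mul, sub_mul] at h6
      omega
    rw [e4, e2, e3]
    refine ⟨-R - v.2, v.1 - (t - 6 * R - 3), ?_, ?_⟩
    · rw [chF_zero]
      refine Prod.ext ?_ ?_ <;> simp only <;> omega
    · omega
  · intro a b h2 h3 h4 h5
    rw [e5, e4]
    unfold CellOk chS
    simp only
    exact ⟨by omega, if_neg (by omega)⟩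
  · intro b h2 h3
    rw [e5]
    unfold COut
    simp only
    rw [add_mul ((-R) / w - 1), sub_mul]
    omega
  · intro b h2 h3
    rw [e5]
    unfold CIn
    simp only
    obtain rfl | rfl | rfl : b = -1 ∨ b = 0 ∨ b = 1 := by omega
    all_goals simp only [add_mul, sub_mul]; omega
  · intro a b h2 h3 h4 h5
    rw [e5]
    unfold CIn
    simp only
    obtain rfl | rfl | rfl : b = -1 ∨ b = 0 ∨ b = 1 := by omega
    all_goals obtain rfl | rfl | rfl : a = -1 ∨ a = 0 ∨ a = 1 := by omega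
    all_goals simp only [add_mul, sub_mul]; omega
  · intro a b h2 h3 h4 h5
    rw [e5]
    unfold COut
    simp only
    obtain rfl | rfl | rfl : b = -1 ∨ b = 0 ∨ b = 1 := by omega
    all_goals obtain rfl | rfl | rfl : a = -1 ∨ a = 0 ∨ a = 1 := by omega
    all_goals simp only [add_mul, sub_mul]; omega
  · rw [e2, e3]
    decide

theorem tipC_RL (hw : 2 ≤ w) (hR : 20 * w ≤ R) (h0 : 7 * R + 3 + 10 * w ≤ t)
    (h1 : t ≤ 8 * R + 3 - 10 * w) :
    TipC w R t (R, t - 8 * R - 3) (R / w * w - R)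
      ((t - 8 * R - 3) / w * w - (t - 8 * R - 3)) := by
  have b1 := div_bounds (w := w) (by omega) R
  have b2 := div_bounds (w := w) (by omega) (t - 8 * R - 3)
  have e1 : tcell w R t = (R / w, (t - 8 * R - 3) / w) := by
    unfold tcell
    rw [if_neg (by omega), if_neg (by omega), if_neg (by omega), if_neg (by omega),
      if_neg (by omega)]
  have e2 : tdir R t = (1, 0) := by
    unfold tdir
    rw [if_neg (by omega), if_neg (by omega), if_neg (by omega), if_neg (by omega)]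
  have e3 : ttan R t = (0, 1) := by unfold ttan; rw [e2]; rfl
  have i1 : 20 ≤ R / w := (Int.le_ediv_iff_mul_le (by omega)).2 (by omega)
  have i2 : (t - 8 * R - 3) / w < -9 := (Int.ediv_lt_iff_lt_mul (by omega)).2 (by omega)
  have e4 : chS (tcell w R t) = 0 := by rw [e1]; exact if_neg (by simp only; omega)
  have e5 : ∀ a b, rcell w R t a b = (R / w + a, (t - 8 * R - 3) / w + b) := by
    intro a b
    unfold rcell
    rw [e1, e2, e3]
    simp only [mul_one, mul_zero, add_zero]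
  refine ⟨hR, by omega, by omega, ?_, ?_, ?_, ?_, ?_, ?_, ?_, ?_, ?_, ?_⟩
  · intro τ h2 h3
    rw [e4, e3, chF_zero]
    unfold bd
    rw [if_neg (by omega), if_neg (by omega), if_neg (by omega), if_neg (by omega),
      if_neg (by omega)]
    simp only [Prod.mk.injEq]
    omega
  · intro n τ h2 h3 h4 h5
    rw [e4, e2, e3, chF_zero]
    unfold InW
    simp only
    omega
  · intro n τ h2 h3 h4 h5
    rw [e4, e2, e3, chF_zero]
    unfold BdW
    simp only
    omega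
  · intro a b h2 h3 h4 h5 v hv
    rw [e5] at hv
    unfold InCell at hv
    simp only at hv
    have e6 : chS (R / w + a, (t - 8 * R - 3) / w + b) = 0 := if_neg (by simp only; omega)
    rw [e6, add_mul, add_mul] at hv
    have h7 : (t - 8 * R - 3) / w * w + b * w + w < 0 := by
      have h6 : ((t - 8 * R - 3) / w + b + 1) * w < 0 :=
        mul_neg_of_neg_of_pos (by omega) (by omega)
      rw [add_mul, add_mul] at h6
      omega
    rw [e4, e2, e3]
    refine ⟨v.1 - R, v.2 - (t - 8 * R - 3), ?_, ?_⟩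
    · rw [chF_zero]
      refine Prod.ext ?_ ?_ <;> simp only <;> omega
    · omega
  · intro a b h2 h3 h4 h5
    rw [e5, e4]
    unfold CellOk chS
    simp only
    exact ⟨by omega, if_neg (by omega)⟩
  · intro b h2 h3
    rw [e5]
    unfold COut
    simp only
    rw [add_mul]
    omega
  · intro b h2 h3
    rw [e5]
    unfold CIn
    simp only
    obtain rfl | rfl | rfl : b = -1 ∨ b = 0 ∨ b = 1 := by omega
    all_goals simp only [add_mul, sub_mul]; omega
  · intro a b h2 h3 h4 h5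
    rw [e5]
    unfold CIn
    simp only
    obtain rfl | rfl | rfl : b = -1 ∨ b = 0 ∨ b = 1 := by omega
    all_goals obtain rfl | rfl | rfl : a = -1 ∨ a = 0 ∨ a = 1 := by omega
    all_goals simp only [add_mul, sub_mul]; omega
  · intro a b h2 h3 h4 h5
    rw [e5]
    unfold COut
    simp only
    obtain rfl | rfl | rfl : b = -1 ∨ b = 0 ∨ b = 1 := by omega
    all_goals obtain rfl | rfl | rfl : a = -1 ∨ a = 0 ∨ a = 1 := by omega
    all_goals simp only [add_mul, sub_mul]; omega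
  · rw [e2, e3]
    decide

/-- The chart at a tip. -/
theorem exists_tipC (hw : 2 ≤ w) (hR : 20 * w ≤ R) (h0 : 0 ≤ t) (h1 : t < 8 * R + 3) (hA : Away R (10 * w) t) :
    ∃ P n₀ τ₀, TipC w R t P n₀ τ₀ := by
  rcases away_cases (by omega) h0 h1 hA with h | h | h | h | h | h | h | h
  · exact ⟨_, _, _, tipC_RU hw h.1 h.2⟩
  · exact ⟨_, _, _, tipC_T hw hR (by omega) (by omega) (Or.inl h.2)⟩
  · exact ⟨_, _, _, tipC_T hw hR (by omega) (by omega) (Or.inr h.1)⟩
  · exact ⟨_, _, _, tipC_L hw hR (by omega) (by omega) (Or.inl h.2)⟩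
  · exact ⟨_, _, _, tipC_L hw hR (by omega) (by omega) (Or.inr h.1)⟩
  · exact ⟨_, _, _, tipC_BL hw hR (by omega) (by omega)⟩
  · exact ⟨_, _, _, tipC_BR hw hR (by omega) (by omega)⟩
  · exact ⟨_, _, _, tipC_RL hw hR (by omega) (by omega)⟩

end Pool.Agent.Perc.Q

end Partperc3TwRing

section Partperc3TwLand

/-!
# Landing of a wall at a tip
-/

set_option autoImplicit false

namespace Pool.Agent.Perc.Q

open Finset Pool.Agent.Perc Relation

variable {w c s R t e p : ℤ} {ω ξ ζ : Cfg} {G : Finset (ℤ × ℤ)} {f g v z : ℤ × ℤ} {k : ZMod 4}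

theorem onB_bdW (hR : 0 ≤ R) (h : OnB (BW R) v) : InW R v ∧ BdW R v := by
  obtain ⟨⟨f, hf, k, rfl⟩, f', hf', k', hk'⟩ := h
  have h1 := inW_corner hR hf k
  refine ⟨h1, ?_⟩
  rw [← hk'] at h1 ⊢
  clear hk'
  obtain ⟨x, y⟩ := f'
  change InW R (corT emP (x, y) k') at h1
  change BdW R (corT emP (x, y) k')
  rw [Finset.mem_coe, mem_BW] at hf'
  obtain ⟨a0, a1, a2, a3⟩ := corT_eq emP x y
  unfold InW at h1
  unfold BdW
  by_cases hy : y = -1
  · obtain ⟨a4, a5⟩ := a3 hy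
    rcases k4_cases k' with rfl | rfl | rfl | rfl
    · rw [a0] at h1 ⊢; simp only at h1 hf' ⊢; omega
    · rw [a1] at h1 ⊢; simp only at h1 hf' ⊢; omega
    · rw [a4] at h1 ⊢; unfold emP at h1 ⊢; simp only at h1 hf' ⊢; split_ifs at h1 ⊢ <;> omega
    · rw [a5] at h1 ⊢; unfold emP at h1 ⊢; simp only at h1 hf' ⊢; split_ifs at h1 ⊢ <;> omega
  · obtain ⟨a4, a5⟩ := a2 hy
    rcases k4_cases k' with rfl | rfl | rfl | rfl
    · rw [a0] at h1 ⊢; simp only at h1 hf' ⊢; omega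
    · rw [a1] at h1 ⊢; simp only at h1 hf' ⊢; omega
    · rw [a4] at h1 ⊢; simp only at h1 hf' ⊢; omega
    · rw [a5] at h1 ⊢; simp only at h1 hf' ⊢; omega

theorem cadj_symm {g g' : ℤ × ℤ} (h : CAdj g g') : CAdj g' g := by
  unfold CAdj at *
  omega

theorem radj1 {P : ℤ × ℤ} {n₀ τ₀ : ℤ} (H : TipC w R t P n₀ τ₀) (a b : ℤ) :
    CAdj (rcell w R t a b) (rcell w R t (a + 1) b) := by
  unfold CAdj rcell
  rcases H.par with ⟨h1, h2⟩ | ⟨h1, h2⟩ | ⟨h1, h2⟩ | ⟨h1, h2⟩ <;> rw [h1, h2] <;> simp only <;> omega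

theorem radj2 {P : ℤ × ℤ} {n₀ τ₀ : ℤ} (H : TipC w R t P n₀ τ₀) (a b : ℤ) :
    CAdj (rcell w R t a b) (rcell w R t a (b + 1)) := by
  unfold CAdj rcell
  rcases H.par with ⟨h1, h2⟩ | ⟨h1, h2⟩ | ⟨h1, h2⟩ | ⟨h1, h2⟩ <;> rw [h1, h2] <;> simp only <;> omega

/-- The parity along the boundary. -/
theorem TipC.parV_bd {P : ℤ × ℤ} {n₀ τ₀ : ℤ} (H : TipC w R t P n₀ τ₀) {x y : ℤ}
    (h1 : t - 4 * w ≤ x) (h2 : x ≤ t + 4 * w) (h3 : t - 4 * w ≤ y) (h4 : y ≤ t + 4 * w) :
    (parV (chS (tcell w R t)) (bd R x) - parV (chS (tcell w R t)) (bd R y) - (x - y)) % 2 = 0 := by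
  have e1 := H.bdE (x - t) (by omega) (by omega)
  have e2 := H.bdE (y - t) (by omega) (by omega)
  rw [add_sub_cancel] at e1 e2
  rw [e1, e2, parV_chF, parV_chF]
  rcases H.par with ⟨-, h⟩ | ⟨-, h⟩ | ⟨-, h⟩ | ⟨-, h⟩ <;> rw [h] <;> simp only <;> omega

/-- Landing at the ring of a tip; `p = 1`: the explored domain is inside the box, `p = -1`: it is
outside the box. `e = 1`: the wall lands after the tip, `e = -1`: before the tip. -/
theorem land_ring (hw : 2 ≤ w) (hG : ∀ g ∈ G, CellOk g) (hξ : ξ ∈ Tub w c G)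
    {P : ℤ × ℤ} {n₀ τ₀ : ℤ} (H : TipC w R t P n₀ τ₀) (he : e = 1 ∨ e = -1)
    {Y S T : Set (ℤ × ℤ)} (hY : (p = 1 ∧ Y = BW R) ∨ (p = -1 ∧ Y = (BW R : Set (ℤ × ℤ))ᶜ))
    (hring : ∀ a b, -1 ≤ a → a ≤ 1 → -1 ≤ b → b ≤ 1 → (a ≠ 0 ∨ b ≠ 0) → rcell w R t a b ∈ G)
    (hSY : S ⊆ Y)
    (hT1 : ∀ x, t - 4 * w ≤ x → x ≤ t + 4 * w → (e = 1 → t < x) → (e = -1 → x ≤ t) →
      (bd R x ∈ T ↔ (parV (chS (tcell w R t)) (bd R x) - c) % 2 = 0))
    (hT2 : ∀ x, t - 4 * w ≤ x → x ≤ t + 4 * w → (e = 1 → x ≤ t) → (e = -1 → t < x) →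
      bd R x ∉ T)
    (H3 : ∀ f ∈ Y, f ∈ BW (R + 3 * w) → f ∉ BW (R - 3 * w) → f ∉ S →
      ∀ k, TQ.c f k ∈ T ↔ TQ.c f (k + 2) ∈ T) :
    ∃ z ∈ T, (∃ f ∈ S, ∃ k, TQ.c f k = z) ∧
      ConnW emP ξ ((cellsF w G : Set (ℤ × ℤ)) \ S) z (rep w c ξ (rcell w R t p 0)) := by
  have hR := H.hR
  have hp : p = 1 ∨ p = -1 := by
    rcases hY with h | h
    · exact Or.inl h.1
    · exact Or.inr h.1
  have hpY : ∀ b, -1 ≤ b → b ≤ 1 → ∀ f ∈ cellF w (rcell w R t p b), f ∉ Y := by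
    intro b b1 b2 f hf
    rcases hY with ⟨rfl, rfl⟩ | ⟨rfl, rfl⟩
    · exact cout_face hw (H.out b b1 b2) hf
    · exact fun h => h (cin_face (by omega) hw (H.cin b b1 b2) hf)
  have hmY : ∀ f ∈ cellF w (rcell w R t (-p) 0), f ∈ Y := by
    intro f hf
    rcases hY with ⟨rfl, rfl⟩ | ⟨rfl, rfl⟩
    · exact cin_face (by omega) hw (H.cin 0 (by omega) (by omega)) hf
    · rw [neg_neg] at hf
      exact cout_face hw (H.out 0 (by omega) (by omega)) hf
  have hOn : ∀ v, OnB Y v → InW R v ∧ BdW R v := by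
    intro v hv
    refine onB_bdW (by omega) ?_
    rcases hY with ⟨-, rfl⟩ | ⟨-, rfl⟩
    · exact hv
    · obtain ⟨⟨f, hf, hk⟩, f', hf', hk'⟩ := hv
      exact ⟨⟨f', not_not.1 hf', hk'⟩, f, hf, hk⟩
  -- the position of a boundary vertex
  have hpos : ∀ a b, -1 ≤ a → a ≤ 1 → -1 ≤ b → b ≤ 1 → ∀ v, InCell w (rcell w R t a b) v →
      OnB Y v → ∃ τ, v = bd R (t + τ) ∧ τ₀ + b * w ≤ τ ∧ τ ≤ τ₀ + b * w + w := by
    intro a b a1 a2 b1 b2 v hv hB
    obtain ⟨n, τ, hv', n1, n2, t1, t2⟩ := H.cell a b a1 a2 b1 b2 v hv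
    obtain ⟨c1, c2⟩ := hOn v hB
    have hn := H.hn
    have hτ := H.hτ
    have hr : -(4 * w) ≤ n ∧ n ≤ 4 * w ∧ -(4 * w) ≤ τ ∧ τ ≤ 4 * w := by
      obtain rfl | rfl | rfl : b = -1 ∨ b = 0 ∨ b = 1 := by omega
      all_goals obtain rfl | rfl | rfl : a = -1 ∨ a = 0 ∨ a = 1 := by omega
      all_goals omega
    rw [hv'] at c2
    have hn0 := H.bdW n τ hr.1 hr.2.1 hr.2.2.1 hr.2.2.2 c2
    refine ⟨τ, ?_, t1, t2⟩
    rw [hv', H.bdE τ hr.2.2.1 hr.2.2.2, hn0]
    simp only [zero_mul, add_zero]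
  have he1 : -1 ≤ e ∧ e ≤ 1 ∧ e ≠ 0 := by omega
  have hp1 : -1 ≤ p ∧ p ≤ 1 ∧ p ≠ 0 := by omega
  have hτ := H.hτ
  have hcoord : ∀ n τ n' τ' : ℤ,
      chF (chS (tcell w R t)) (P.1 + n * (tdir R t).1 + τ * (ttan R t).1,
        P.2 + n * (tdir R t).2 + τ * (ttan R t).2) =
      chF (chS (tcell w R t)) (P.1 + n' * (tdir R t).1 + τ' * (ttan R t).1,
        P.2 + n' * (tdir R t).2 + τ' * (ttan R t).2) → τ = τ' := by
    intro n τ n' τ' h
    have h' := chF_inj _ h
    rw [Prod.mk.injEq] at h'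
    rcases H.par with ⟨h1, h2⟩ | ⟨h1, h2⟩ | ⟨h1, h2⟩ | ⟨h1, h2⟩ <;> rw [h1, h2] at h' <;>
      simp only at h' <;> omega
  -- adjacency
  have adjA : ∀ a a' b, (a' = a + 1 ∨ a = a' + 1) →
      CAdj (rcell w R t a b) (rcell w R t a' b) := by
    rintro a a' b (rfl | rfl)
    · exact radj1 H a b
    · exact cadj_symm (radj1 H a' b)
  have adjB : ∀ a b b', (b' = b + 1 ∨ b = b' + 1) →
      CAdj (rcell w R t a b) (rcell w R t a b') := by
    rintro a b b' (rfl | rfl)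
    · exact radj2 H a b
    · exact cadj_symm (radj2 H a b')
  obtain ⟨z, hz, hzS, hconn⟩ := land_cells (s := chS (tcell w R t)) hw hG hξ
    (AC := {g | ∃ a, -1 ≤ a ∧ a ≤ 1 ∧ g = rcell w R t a e})
    (BC := {g | ∃ a, -1 ≤ a ∧ a ≤ 1 ∧ g = rcell w R t a (-e)})
    (MC := {g | g = rcell w R t (-p) 0}) (Y := Y) (S := S) (T := T)
    (g₀ := rcell w R t p (-e)) (g₁ := rcell w R t p e)
    (by
      rintro g (⟨a, a1, a2, rfl⟩ | ⟨a, a1, a2, rfl⟩)
      · exact (H.ok a e a1 a2 he1.1 he1.2.1).2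
      · exact (H.ok a (-e) a1 a2 (by omega) (by omega)).2)
    (by
      rintro g ⟨a, a1, a2, rfl⟩
      exact hring a e a1 a2 he1.1 he1.2.1 (Or.inr he1.2.2))
    (by
      rintro g ⟨a, a1, a2, rfl⟩
      exact hring a (-e) a1 a2 (by omega) (by omega) (Or.inr (by omega)))
    (by
      rintro g rfl
      exact hring (-p) 0 (by omega) (by omega) (by omega) (by omega) (Or.inl (by omega)))
    (by
      rintro g rfl f hf
      exact hmY f hf)
    (by
      rintro g ⟨a, a1, a2, rfl⟩ g' ⟨a', a1', a2', rfl⟩ v hv hv'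
      obtain ⟨n, τ, e1, -, -, t1, t2⟩ := H.cell a e a1 a2 he1.1 he1.2.1 v hv
      obtain ⟨n', τ', e1', -, -, t1', t2'⟩ := H.cell a' (-e) a1' a2' (by omega) (by omega) v hv'
      rw [e1] at e1'
      have := hcoord _ _ _ _ e1'
      rcases he with rfl | rfl <;> omega)
    ⟨p, hp1.1, hp1.2.1, rfl⟩ (hpY (-e) (by omega) (by omega))
    ⟨p, hp1.1, hp1.2.1, rfl⟩ (hpY e (by omega) (by omega))
    (by
      -- the path around the tip
      have hstep : ∀ a b a' b' : ℤ, -1 ≤ a → a ≤ 1 → -1 ≤ b → b ≤ 1 → -1 ≤ a' → a' ≤ 1 →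
          -1 ≤ b' → b' ≤ 1 → (b = e ∨ b = -e ∨ (a = -p ∧ b = 0)) →
          (b' = e ∨ b' = -e ∨ (a' = -p ∧ b' = 0)) →
          CAdj (rcell w R t a b) (rcell w R t a' b') →
          (fun a b => a ∈ G ∧ b ∈ G ∧
            (a ∈ {g | ∃ a, -1 ≤ a ∧ a ≤ 1 ∧ g = rcell w R t a e} ∨
              a ∈ {g | ∃ a, -1 ≤ a ∧ a ≤ 1 ∧ g = rcell w R t a (-e)} ∨
              a ∈ {g | g = rcell w R t (-p) 0}) ∧
            (b ∈ {g | ∃ a, -1 ≤ a ∧ a ≤ 1 ∧ g = rcell w R t a e} ∨
              b ∈ {g | ∃ a, -1 ≤ a ∧ a ≤ 1 ∧ g = rcell w R t a (-e)} ∨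
              b ∈ {g | g = rcell w R t (-p) 0}) ∧ CAdj a b) (rcell w R t a b)
            (rcell w R t a' b') := by
        intro a b a' b' a1 a2 b1 b2 a1' a2' b1' b2' hb hb' hadj
        refine ⟨hring a b a1 a2 b1 b2 (by omega), hring a' b' a1' a2' b1' b2' (by omega), ?_, ?_,
          hadj⟩
        · rcases hb with rfl | rfl | ⟨rfl, rfl⟩
          · exact Or.inl ⟨a, a1, a2, rfl⟩
          · exact Or.inr (Or.inl ⟨a, a1, a2, rfl⟩)
          · exact Or.inr (Or.inr rfl)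
        · rcases hb' with rfl | rfl | ⟨rfl, rfl⟩
          · exact Or.inl ⟨a', a1', a2', rfl⟩
          · exact Or.inr (Or.inl ⟨a', a1', a2', rfl⟩)
          · exact Or.inr (Or.inr rfl)
      refine ReflTransGen.head (hstep p (-e) 0 (-e) (by omega) (by omega) (by omega) (by omega)
        (by omega) (by omega) (by omega) (by omega) (by omega) (by omega)
        (adjA p 0 (-e) (by omega))) ?_
      refine ReflTransGen.head (hstep 0 (-e) (-p) (-e) (by omega) (by omega) (by omega) (by omega)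
        (by omega) (by omega) (by omega) (by omega) (by omega) (by omega)
        (adjA 0 (-p) (-e) (by omega))) ?_
      refine ReflTransGen.head (hstep (-p) (-e) (-p) 0 (by omega) (by omega) (by omega) (by omega)
        (by omega) (by omega) (by omega) (by omega) (by omega) (by omega)
        (adjB (-p) (-e) 0 (by omega))) ?_
      refine ReflTransGen.head (hstep (-p) 0 (-p) e (by omega) (by omega) (by omega) (by omega)
        (by omega) (by omega) (by omega) (by omega) (by omega) (by omega)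
        (adjB (-p) 0 e (by omega))) ?_
      refine ReflTransGen.head (hstep (-p) e 0 e (by omega) (by omega) (by omega) (by omega)
        (by omega) (by omega) (by omega) (by omega) (by omega) (by omega)
        (adjA (-p) 0 e (by omega))) ?_
      exact ReflTransGen.single (hstep 0 e p e (by omega) (by omega) (by omega) (by omega)
        (by omega) (by omega) (by omega) (by omega) (by omega) (by omega)
        (adjA 0 p e (by omega))))
    hSY
    (by
      rintro g ⟨a, a1, a2, rfl⟩ v hv hB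
      obtain ⟨τ, rfl, t1, t2⟩ := hpos a e a1 a2 he1.1 he1.2.1 v hv hB
      exact hT1 (t + τ) (by rcases he with rfl | rfl <;> omega)
        (by rcases he with rfl | rfl <;> omega) (by rintro rfl; omega) (by rintro rfl; omega))
    (by
      rintro g ⟨a, a1, a2, rfl⟩ v hv hB
      obtain ⟨τ, rfl, t1, t2⟩ := hpos a (-e) a1 a2 (by omega) (by omega) v hv hB
      exact hT2 (t + τ) (by rcases he with rfl | rfl <;> omega)
        (by rcases he with rfl | rfl <;> omega) (by rintro rfl; omega) (by rintro rfl; omega))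
    (by
      intro g hgG hg f hf hfY hfS k
      obtain ⟨a, b, a1, a2, b1, b2, rfl⟩ : ∃ a b, -1 ≤ a ∧ a ≤ 1 ∧ -1 ≤ b ∧ b ≤ 1 ∧
          g = rcell w R t a b := by
        rcases hg with ⟨a, a1, a2, rfl⟩ | ⟨a, a1, a2, rfl⟩ | hg
        · exact ⟨a, e, a1, a2, he1.1, he1.2.1, rfl⟩
        · exact ⟨a, -e, a1, a2, by omega, by omega, rfl⟩
        · exact ⟨-p, 0, by omega, by omega, by omega, by omega, hg⟩
      exact H3 f hfY (cin_face (by omega) hw (H.cin3 a b a1 a2 b1 b2) hf)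
        (cout_face hw (H.cout3 a b a1 a2 b1 b2) hf) hfS k)
  refine ⟨z, hz, hzS, ReflTransGen.trans (hconn.mono ?_) ((tub_adj hw hG hξ
    (hring p e hp1.1 hp1.2.1 he1.1 he1.2.1 (Or.inl hp1.2.2))
    (hring p 0 hp1.1 hp1.2.1 (by omega) (by omega) (Or.inl hp1.2.2))
    (adjB p e 0 (by omega))).mono ?_)⟩
  · rintro f ⟨⟨a, ha, -, hfa⟩, hfS⟩
    exact ⟨mem_cellsF.2 ⟨a, ha, hfa⟩, hfS⟩
  · intro f hf
    rcases mem_union.1 (Finset.mem_coe.1 hf) with h | h
    · exact ⟨mem_cellsF.2 ⟨_, hring p e hp1.1 hp1.2.1 he1.1 he1.2.1 (Or.inl hp1.2.2), h⟩,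
        fun hS => hpY e he1.1 he1.2.1 f h (hSY hS)⟩
    · exact ⟨mem_cellsF.2 ⟨_, hring p 0 hp1.1 hp1.2.1 (by omega) (by omega) (Or.inl hp1.2.2), h⟩,
        fun hS => hpY 0 (by omega) (by omega) f h (hSY hS)⟩

/-- A wall lands at the cluster of the sector `σ` next to the tip `t`. `p = 1`: the explored
domain `F` is inside the box, `p = -1`: it is outside the box; `e = 1`: the sector after the tip,
`e = -1`: the sector before the tip. `ω` is the explored configuration, `ξ` the fresh one, `ζ` the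
mixture. -/
theorem land_sec {ι Sx : Type} {ei : ι → (ℤ × ℤ) × (ℤ × ℤ)} {L Rr : ι → Sx} {sec : ℤ × ℤ → Sx}
    {kap : ℤ × ℤ → ZMod 2} {F : Set (ℤ × ℤ)} {σ : Sx}
    (hw : 2 ≤ w) (hR : 20 * w ≤ R) (ht0 : 0 ≤ t) (ht1 : t < 8 * R + 3) (hA : Away R (10 * w) t)
    (hG : ∀ g ∈ G, CellOk g) (hξ : ξ ∈ Tub w c G) (he : e = 1 ∨ e = -1)
    (hF : (p = 1 ∧ F ⊆ BW R) ∨ (p = -1 ∧ F ⊆ (BW R : Set (ℤ × ℤ))ᶜ))
    (hF' : ∀ f, (p = 1 → f ∈ BW R) → (p = -1 → f ∉ BW R) → f ∈ BW (R + 3 * w) →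
      f ∉ BW (R - 3 * w) → f ∈ F)
    (hring : ∀ a b, -1 ≤ a → a ≤ 1 → -1 ≤ b → b ≤ 1 → (a ≠ 0 ∨ b ≠ 0) → rcell w R t a b ∈ G)
    (H : IsSec TQ ω F ei L Rr sec kap)
    (hs1 : ∀ x, t - 4 * w ≤ x → x ≤ t + 4 * w → (e = 1 → t < x) → (e = -1 → x ≤ t) →
      sec (bd R x) = σ ∧ (kap (bd R x) = 0 ↔ (x - t) % 2 = if e = 1 then 1 else 0))
    (hs2 : ∀ x, t - 4 * w ≤ x → x ≤ t + 4 * w → (e = 1 → x ≤ t) → (e = -1 → t < x) →
      sec (bd R x) ≠ σ)
    (hc : (parV (chS (tcell w R t)) (bd R t) + (if e = 1 then 1 else 0) - c) % 2 = 0)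
    (hζ1 : ∀ f ∈ VU TQ ω F ei, ω f = ζ f)
    (hζ2 : ∀ f ∈ cellsF w G, f ∉ VU TQ ω F ei → ξ f = ζ f) :
    ∃ i, (σ = L i ∧ ConnW emP ζ (VU TQ ω F ei ∪ cellsF w G) (ei i).1
        (rep w c ξ (rcell w R t p 0))) ∨
      (σ = Rr i ∧ ConnW emP ζ (VU TQ ω F ei ∪ cellsF w G) (ei i).2
        (rep w c ξ (rcell w R t p 0))) := by
  obtain ⟨P, n₀, τ₀, hT⟩ := exists_tipC hw hR ht0 ht1 hA
  have hSF : VU TQ ω F ei ⊆ F := VU_sub
  obtain ⟨z, ⟨hz1, hz2⟩, ⟨f, hf, k, rfl⟩, hconn⟩ := land_ring (p := p) (e := e) hw hG hξ hT he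
    (Y := if p = 1 then (BW R : Set (ℤ × ℤ)) else (BW R : Set (ℤ × ℤ))ᶜ)
    (S := VU TQ ω F ei) (T := {v | sec v = σ ∧ kap v = 0})
    (by
      rcases hF with ⟨rfl, -⟩ | ⟨rfl, -⟩
      · exact Or.inl ⟨rfl, if_pos rfl⟩
      · exact Or.inr ⟨rfl, if_neg (by omega)⟩)
    hring
    (by
      refine hSF.trans ?_
      rcases hF with ⟨rfl, h⟩ | ⟨rfl, h⟩
      · rw [if_pos rfl]; exact h
      · rw [if_neg (by omega)]; exact h)
    (by
      intro x h1 h2 h3 h4
      have h5 := hs1 x h1 h2 h3 h4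
      have h6 := hT.parV_bd h1 h2 (y := t) (by omega) (by omega)
      rw [Set.mem_ofPred_eq, h5.2]
      rcases he with rfl | rfl
      · rw [if_pos rfl] at hc ⊢
        exact ⟨fun h => by omega, fun h => ⟨h5.1, by omega⟩⟩
      · rw [if_neg (by omega)] at hc ⊢
        exact ⟨fun h => by omega, fun h => ⟨h5.1, by omega⟩⟩)
    (by
      intro x h1 h2 h3 h4 h
      exact hs2 x h1 h2 h3 h4 h.1)
    (by
      intro f hfY h1 h2 h3 k
      have hfF : f ∈ F := by
        refine hF' f ?_ ?_ h1 h2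
        · rintro rfl
          rw [if_pos rfl] at hfY
          exact hfY
        · rintro rfl
          rw [if_neg (by omega)] at hfY
          exact hfY
      have h4 := H.fresh_opp (k := k) hfF h3
      rw [Set.mem_ofPred_eq, Set.mem_ofPred_eq, h4.1, h4.2])
  have hconn' : ConnW emP ζ (VU TQ ω F ei ∪ cellsF w G) (TQ.c f k)
      (rep w c ξ (rcell w R t p 0)) :=
    (hconn.congr_cfg fun f hf => hζ2 f hf.1 hf.2).mono fun f hf => Or.inr hf.1
  obtain ⟨i, ⟨h1, h2⟩ | ⟨h1, h2⟩⟩ := H.land_corner hf hz2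
  · refine ⟨i, Or.inl ⟨hz1.symm.trans h1, ReflTransGen.trans ?_ hconn'⟩⟩
    exact ((connQ_iff emP_mono).1 (h2.congr hζ1)).mono fun f hf => Or.inl hf
  · refine ⟨i, Or.inr ⟨hz1.symm.trans h1, ReflTransGen.trans ?_ hconn'⟩⟩
    exact ((connQ_iff emP_mono).1 (h2.congr hζ1)).mono fun f hf => Or.inl hf

end Pool.Agent.Perc.Q

end Partperc3TwLand
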