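import Pool.Agent.Lib.MP_6bd702_zc.Pre
import Pool.Agent.Lib.MP_6bd702_zc.Y035
import Pool.Agent.Lib.MP_6bd702_zc.Y025
import Pool.Agent.Lib.MP_6bd702_zc.Y022
import Pool.Agent.Lib.MP_6bd702_zc.Y024
import Pool.Agent.Lib.MP_6bd702_zc.Y026

section Partperc3TwLandC

/-!
# Landing at the sectors of three strands
-/

set_option autoImplicit false

namespace Pool.Agent.Perc.Q

open Finset Pool.Agent.Perc Relation

variable {w c R e p L : ℤ} {s : Fin 3 → ℤ} {S : ℤ → Fin 3} {K : ℤ → ZMod 2}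

theorem zmod2_par (n : ℤ) : ((n : ℤ) : ZMod 2) = 0 ↔ n % 2 = 0 := by
  rw [ZMod.intCast_zmod_eq_zero_iff_dvd]
  norm_num

/-- The sectors near the tip `j`. -/
theorem cyc_local (C : Cyc L s S K) {m : ℤ} (hm : ∀ i, m < gap L s i) (j : Fin 3) {x : ℤ} :
    (s j < x → x ≤ s j + m → S x = j ∧ (K x = 0 ↔ (x - s j) % 2 = 1)) ∧
    (s j - m ≤ x → x ≤ s j → S x = j + 2 ∧ (K x = 0 ↔ (x - s j) % 2 = 0)) := by
  constructor
  · intro h1 h2
    have h3 := C.arc j (n := x - s j) (by omega) (by have := hm j; omega)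
    rw [add_sub_cancel] at h3
    refine ⟨h3.1, ?_⟩
    rw [h3.2]
    have e : ((x - s j : ℤ) : ZMod 2) - 1 = ((x - s j - 1 : ℤ) : ZMod 2) := by push_cast; ring
    rw [e, zmod2_par]
    omega
  · intro h1 h2
    have hg := hm (j + 2)
    have h3 := C.arc (j + 2) (n := gap L s (j + 2) - (s j - x)) (by omega) (by omega)
    have hd := C.dvd (j + 2)
    have ej : j + 2 + 1 = j := by fin_cases j <;> rfl
    rw [ej] at hd
    have hd' : L ∣ x - (s (j + 2) + (gap L s (j + 2) - (s j - x))) := by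
      have e : x - (s (j + 2) + (gap L s (j + 2) - (s j - x))) =
        -(s (j + 2) + gap L s (j + 2) - s j) := by ring
      rw [e]
      exact (dvd_neg).2 hd
    rw [C.perS _ _ hd', C.perK _ _ hd']
    refine ⟨h3.1, ?_⟩
    rw [h3.2]
    have e : ((gap L s (j + 2) - (s j - x) : ℤ) : ZMod 2) - 1 =
        ((gap L s (j + 2) - (s j - x) - 1 : ℤ) : ZMod 2) := by push_cast; ring
    rw [e, zmod2_par]
    have := C.gap_odd (j + 2)
    omega

/-- Gaps from distances. -/
theorem gap_gt {m : ℤ} (hm : 0 ≤ m) (hs : ∀ i, m < s i ∧ s i < L - m)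
    (hd : ∀ i j, i ≠ j → m < |s i - s j|) (i : Fin 3) : m < gap L s i := by
  unfold gap
  have h1 := hd (i + 1) i (by fin_cases i <;> decide)
  have h2 := hs i
  have h3 := hs (i + 1)
  rw [lt_abs] at h1
  rcases h1 with h1 | h1
  · rw [Int.emod_eq_of_lt (by omega) (by omega)]
    exact h1
  · rw [← Int.add_emod_right, Int.emod_eq_of_lt (by omega) (by omega)]
    omega

/-- A wall lands at the sector `j` (`e = 1`, after the tip `j`) or `j + 2` (`e = -1`, before the
tip). -/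
theorem land_cyc {ω ξ ζ : Cfg} {G : Finset (ℤ × ℤ)} {ι : Type} {ei : ι → (ℤ × ℤ) × (ℤ × ℤ)}
    {Ls Rs : ι → Fin 3} {sec : ℤ × ℤ → Fin 3} {kap : ℤ × ℤ → ZMod 2} {F : Set (ℤ × ℤ)}
    (hw : 2 ≤ w) (hR : 20 * w ≤ R)
    (hs : ∀ i, 0 ≤ s i ∧ s i < 8 * R + 3 ∧ Away R (10 * w) (s i))
    (hsep : ∀ i j, i ≠ j → 10 * w ≤ |s i - s j|)
    (hG : ∀ g ∈ G, CellOk g) (hξ : ξ ∈ Tub w c G) (he : e = 1 ∨ e = -1)
    (hF : (p = 1 ∧ F ⊆ BW R) ∨ (p = -1 ∧ F ⊆ (BW R : Set (ℤ × ℤ))ᶜ))
    (hF' : ∀ f, (p = 1 → f ∈ BW R) → (p = -1 → f ∉ BW R) → f ∈ BW (R + 3 * w) →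
      f ∉ BW (R - 3 * w) → f ∈ F)
    (j : Fin 3)
    (hring : ∀ a b, -1 ≤ a → a ≤ 1 → -1 ≤ b → b ≤ 1 → (a ≠ 0 ∨ b ≠ 0) →
      rcell w R (s j) a b ∈ G)
    (H : IsSec TQ ω F ei Ls Rs sec kap)
    (C : Cyc (8 * R + 3) s (fun x => sec (bdc R x)) (fun x => kap (bdc R x)))
    (hc : (parV (chS (tcell w R (s j))) (bd R (s j)) + (if e = 1 then 1 else 0) - c) % 2 = 0)
    (hζ1 : ∀ f ∈ VU TQ ω F ei, ω f = ζ f)
    (hζ2 : ∀ f ∈ cellsF w G, f ∉ VU TQ ω F ei → ξ f = ζ f) :
    ∃ i, ((if e = 1 then j else j + 2) = Ls i ∧ ConnW emP ζ (VU TQ ω F ei ∪ cellsF w G) (ei i).1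
        (rep w c ξ (rcell w R (s j) p 0))) ∨
      ((if e = 1 then j else j + 2) = Rs i ∧ ConnW emP ζ (VU TQ ω F ei ∪ cellsF w G) (ei i).2
        (rep w c ξ (rcell w R (s j) p 0))) := by
  have haw : ∀ i, 10 * w ≤ s i ∧ s i ≤ 8 * R + 3 - 10 * w := by
    intro i
    have := away_cases (w := w) (by omega) (hs i).1 (hs i).2.1 (hs i).2.2
    omega
  have hgap : ∀ i, 4 * w < gap (8 * R + 3) s i := by
    refine gap_gt (by omega) (fun i => ?_) fun i j hij => ?_
    · have := haw i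
      omega
    · have := hsep i j hij
      omega
  have hbd : ∀ x, s j - 4 * w ≤ x → x ≤ s j + 4 * w → bdc R x = bd R x := by
    intro x h1 h2
    have := haw j
    exact bdc_eq (by omega) (by omega)
  refine land_sec (σ := if e = 1 then j else j + 2) hw hR (hs j).1 (hs j).2.1 (hs j).2.2 hG hξ he
    hF hF' hring H ?_ ?_ hc hζ1 hζ2
  · intro x h1 h2 h3 h4
    have h5 := cyc_local C hgap j (x := x)
    rw [hbd x h1 h2] at h5
    rcases he with rfl | rfl
    · rw [if_pos rfl, if_pos rfl]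
      exact h5.1 (h3 rfl) h2
    · rw [if_neg (by omega), if_neg (by omega)]
      exact h5.2 h1 (h4 rfl)
  · intro x h1 h2 h3 h4
    have h5 := cyc_local C hgap j (x := x)
    rw [hbd x h1 h2] at h5
    have hj : j ≠ j + 2 := by fin_cases j <;> decide
    rcases he with rfl | rfl
    · rw [if_pos rfl, (h5.2 h1 (h3 rfl)).1]
      exact hj.symm
    · rw [if_neg (by omega), (h5.1 (h4 rfl) h2).1]
      exact hj

end Pool.Agent.Perc.Q

end Partperc3TwLandC

section Partperc3TwLink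

/-!
# The three walls land at three different core vertices
-/

set_option autoImplicit false

namespace Pool.Agent.Perc.Q

open Finset Pool.Agent.Perc Relation

variable {w c R t e p L : ℤ} {ω ξ ζ : Cfg}

theorem An_zero (R : ℤ) : An 0 R = (BW R : Set (ℤ × ℤ)) := by
  ext f
  unfold An
  rw [Set.mem_sdiff, Finset.mem_coe, Finset.mem_coe, mem_BW (R := 0)]
  constructor
  · exact fun h => h.1
  · intro h
    refine ⟨h, fun h' => ?_⟩
    omega

/-- The colour of the boundary positions. -/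
theorem parV_tlin (hw : 2 ≤ w) (hR : 20 * w ≤ R) (ht0 : 0 ≤ t) (ht1 : t < 8 * R + 3)
    (hA : Away R (10 * w) t) :
    (parV (chS (tcell w R t)) (bd R t) - tlin R t - R) % 2 = 0 := by
  have key : ∀ {P : ℤ × ℤ} {n₀ τ₀ : ℤ}, TipC w R t P n₀ τ₀ →
      parV (chS (tcell w R t)) (bd R t) = P.1 + P.2 := by
    intro P n₀ τ₀ H
    have h := H.bdE 0 (by omega) (by omega)
    rw [add_zero] at h
    rw [h, parV_chF]
    simp only [zero_mul, add_zero]
  unfold tlin
  rcases away_cases (by omega) ht0 ht1 hA with h | h | h | h | h | h | h | h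
  · rw [key (tipC_RU hw h.1 h.2), if_neg (by omega)]
    simp only; omega
  · rw [key (tipC_T hw hR (by omega) (by omega) (Or.inl h.2)), if_neg (by omega)]
    simp only; omega
  · rw [key (tipC_T hw hR (by omega) (by omega) (Or.inr h.1)), if_neg (by omega)]
    simp only; omega
  · rw [key (tipC_L hw hR (by omega) (by omega) (Or.inl h.2)), if_neg (by omega)]
    simp only; omega
  · rw [key (tipC_L hw hR (by omega) (by omega) (Or.inr h.1)), if_neg (by omega)]
    simp only; omega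
  · rw [key (tipC_BL hw hR (by omega) (by omega)), if_neg (by omega)]
    simp only; omega
  · rw [key (tipC_BR hw hR (by omega) (by omega)), if_pos (by omega)]
    simp only; omega
  · rw [key (tipC_RL hw hR (by omega) (by omega)), if_pos (by omega)]
    simp only; omega

/-- The gaps in the linear coordinate. -/
theorem gap_tlin {s : Fin 3 → ℤ} (hs : ∀ i, 0 ≤ s i ∧ s i < 8 * R + 3)
    (hne : ∀ i, s i ≠ s (i + 1)) (i : Fin 3) :
    gap (8 * R + 3) s i = tlin R (s (i + 1)) - tlin R (s i) +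
      if tlin R (s i) < tlin R (s (i + 1)) then 0 else 8 * R + 3 := by
  have h1 := hs i
  have h2 := hs (i + 1)
  have h3 := hne i
  unfold gap
  have key : ∀ x y : ℤ, 0 ≤ y → y < 8 * R + 3 → (∃ k, x = y + (8 * R + 3) * k) →
      x % (8 * R + 3) = y := by
    rintro x y hy0 hy1 ⟨k, rfl⟩
    rw [Int.add_mul_emod_self_left]
    exact Int.emod_eq_of_lt hy0 hy1
  unfold tlin
  generalize s i = a at *
  generalize s (i + 1) = b at *
  split_ifs with c1 c2 c3 c4 c5 c6
  all_goals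
    first
    | exact key _ _ (by omega) (by omega) ⟨0, by omega⟩
    | exact key _ _ (by omega) (by omega) ⟨-1, by omega⟩

/-- The vertex of a sector. -/
def cx (i : Fin 3) : ℤ := ![-1, -2, 0] i

theorem core_cx (i : Fin 3) : Core (cx i) := by
  unfold Core cx
  fin_cases i <;> simp

theorem cx_inj : Function.Injective cx := by
  intro i j h
  unfold cx at h
  fin_cases i <;> fin_cases j <;> simp at h <;> rfl

theorem leg_fst (i : Fin 3) : (leg i).1 = (cx i, 0) := by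
  fin_cases i <;> rfl

theorem leg_snd (i : Fin 3) : (leg i).2 = (cx (i + 2), 0) := by
  fin_cases i <;> rfl

/-- In the linear order from the cut the colours of the tips alternate. -/
theorem par_order {s t : Fin 3 → ℤ} {S : ℤ → Fin 3} {K : ℤ → ZMod 2} {a : Fin 3 → Fin 3}
    (ha : Function.Injective a) (hst : ∀ i, s (a i) = t i) (C : Cyc (8 * R + 3) s S K)
    (hs : ∀ i, 0 ≤ s i ∧ s i < 8 * R + 3) (hne : ∀ i, s i ≠ s (i + 1))
    (h01 : tlin R (t 0) < tlin R (t 1)) (h12 : tlin R (t 1) < tlin R (t 2)) (i : Fin 3) :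
    (tlin R (t i) - tlin R (t 0) - ((i : ℕ) : ℤ)) % 2 = 0 := by
  have g0 := gap_tlin hs hne 0
  have g1 := gap_tlin hs hne 1
  have g2 := gap_tlin hs hne 2
  have o0 := C.gap_odd 0
  have o1 := C.gap_odd 1
  have o2 := C.gap_odd 2
  have hsum := C.sum_gap
  have e1 : (0 : Fin 3) + 1 = 1 := rfl
  have e2 : (1 : Fin 3) + 1 = 2 := rfl
  have e3 : (2 : Fin 3) + 1 = 0 := rfl
  rw [e1] at g0
  rw [e2] at g1
  rw [e3] at g2
  have a0 := hst 0
  have a1 := hst 1
  have a2 := hst 2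
  have n01 : a 0 ≠ a 1 := fun h => absurd (ha h) (by decide)
  have n02 : a 0 ≠ a 2 := fun h => absurd (ha h) (by decide)
  have n12 : a 1 ≠ a 2 := fun h => absurd (ha h) (by decide)
  rw [← a0, ← a1] at h01
  rw [← a1, ← a2] at h12
  have goal' : (tlin R (s (a i)) - tlin R (s (a 0)) - ((i : ℕ) : ℤ)) % 2 = 0 := by
    clear hst a0 a1 a2 ha C hne
    generalize gap (8 * R + 3) s 0 = G0 at *
    generalize gap (8 * R + 3) s 1 = G1 at *
    generalize gap (8 * R + 3) s 2 = G2 at *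
    have hi : i = 0 ∨ i = 1 ∨ i = 2 := by fin_cases i <;> simp
    have c : ∀ x : Fin 3, x = 0 ∨ x = 1 ∨ x = 2 := by intro x; fin_cases x <;> simp
    have f1 : (((1 : Fin 3) : ℕ) : ℤ) = 1 := rfl
    have f2 : (((2 : Fin 3) : ℕ) : ℤ) = 2 := rfl
    have f0 : (((0 : Fin 3) : ℕ) : ℤ) = 0 := rfl
    rcases c (a 0) with b0 | b0 | b0 <;> rcases c (a 1) with b1 | b1 | b1 <;>
      rcases c (a 2) with b2 | b2 | b2 <;> rw [b0] at n01 n02 <;> rw [b1] at n01 n12 <;>
      rw [b2] at n02 n12 <;>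
      first
      | exact absurd rfl n01
      | exact absurd rfl n02
      | exact absurd rfl n12
      | (rw [b0, b1] at h01
         rw [b1, b2] at h12
         rcases hi with rfl | rfl | rfl
         all_goals
           simp only [b0, b1, b2, f0, f1, f2]
           split_ifs at g0 g1 g2 <;> omega)
  rw [hst i, hst 0] at goal'
  exact goal'

theorem linkP : LinkP := by
  intro w R b ω ξ ζ t G hw3 hwR hpos htip hwalls hξ hζ1 hζ2
  obtain ⟨hpos, hord1, hord2⟩ := hpos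
  obtain ⟨hdisj, hok, htc, hring⟩ := hwalls
  have hw : 2 ≤ w := by omega
  have hR : 20 * w ≤ R := by omega
  have hAw : ∀ i, Away R (10 * w) (t i) := fun i z hz => by
    have := (hpos i).2.2 z hz
    omega
  -- the legs of the tips
  have htip' := fun i => (htip i).2.2
  choose a ha using htip'
  have hEq : ∀ i j, a i = a j → t i = t j := by
    intro i j hij
    have h1 := ha i
    have h2 := ha j
    rw [← hij] at h2
    have hter : ∀ i, Ter TQ (BW R : Set (ℤ × ℤ)) (ine R (t i)).swap := by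
      intro i
      have h3 := (ini_outer (d := 0) (w := R) le_rfl (by omega) (hpos i).1 (hpos i).2.1).ter_swap
      have h4 : ((BW R : Set (ℤ × ℤ)) \ BW 0) = (BW R : Set (ℤ × ℤ)) := An_zero R
      rwa [h4] at h3
    have h3 := ter_unique h1 h2 (hter i) (hter j)
    exact ine_inj (by omega) (hpos i).1 (hpos i).2.1 (hpos j).1 (hpos j).2.1
      (Prod.swap_injective h3)
  have htne : ∀ i j, i ≠ j → 20 * w ≤ |tlin R (t i) - tlin R (t j)| := by
    intro i j hij
    rw [le_abs]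
    fin_cases i <;> fin_cases j <;> first | exact absurd rfl hij | skip
    all_goals simp only [Fin.zero_eta, Fin.mk_one, Fin.reduceFinMk, Fin.isValue]
    all_goals omega
  have hainj : Function.Injective a := by
    intro i j hij
    by_contra hne
    have h1 := htne i j hne
    rw [hEq i j hij, sub_self, abs_zero] at h1
    omega
  have hbij := Finite.injective_iff_bijective.1 hainj
  set E := Equiv.ofBijective a hbij with hE
  set s : Fin 3 → ℤ := fun i => t (E.symm i) with hs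
  have hsa : ∀ i, s (a i) = t i := by
    intro i
    have : E.symm (a i) = i := E.symm_apply_apply i
    simp only [hs, this]
  have hsr : ∀ i, 0 ≤ s i ∧ s i < 8 * R + 3 := fun i => ⟨(hpos _).1, (hpos _).2.1⟩
  have hsA : ∀ i, Away R (10 * w) (s i) := fun i => hAw _
  have hleg : ∀ i : Fin 3, (ine R (s i)).swap ∈ Orb TQ ω (An 0 R) (ine 0 ((i : ℕ) : ℤ)).swap := by
    intro i
    rw [An_zero]
    have h1 := ha (E.symm i)
    have h2 : a (E.symm i) = i := E.apply_symm_apply i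
    rw [h2] at h1
    exact h1
  -- distances of the tips
  have htsep : ∀ i j, i ≠ j → 10 * w ≤ |t i - t j| := by
    intro i j hij
    have h1 := htne i j hij
    have h2 := away_cases (w := w) (by omega) (hpos i).1 (hpos i).2.1 (hAw i)
    have h3 := away_cases (w := w) (by omega) (hpos j).1 (hpos j).2.1 (hAw j)
    rw [le_abs] at h1 ⊢
    unfold tlin at h1
    split_ifs at h1 <;> omega
  have hssep : ∀ i j, i ≠ j → 10 * w ≤ |s i - s j| := fun i j hij =>
    htsep _ _ fun h => hij (E.symm.injective h)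
  have hsne : ∀ i, s i ≠ s (i + 1) := by
    intro i h
    have h1 := hssep i (i + 1) (by fin_cases i <;> decide)
    rw [h, sub_self, abs_zero] at h1
    omega
  -- the sectors
  obtain ⟨sec, kap, H⟩ := secOut (ω := ω) (d := 0) (w := R) (t := fun i : Fin 3 => ((i : ℕ) : ℤ))
    le_rfl (by omega) alt_core fun i => ⟨s i, (hsr i).1, (hsr i).2, hleg i⟩
  have C := cyc_out (s := s) le_rfl (show (0 : ℤ) < R by omega)
    (fun i => alt_core.mem i) H hsr hleg
  -- the colours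
  have hpar := par_order hainj hsa C hsr hsne (by omega) (by omega)
  have hparV : ∀ i, (parV (chS (tcell w R (t i))) (bd R (t i)) -
      parV (chS (tcell w R (t 0))) (bd R (t 0)) - ((i : ℕ) : ℤ)) % 2 = 0 := by
    intro i
    have h1 := parV_tlin hw hR (hpos i).1 (hpos i).2.1 (hAw i)
    have h2 := parV_tlin hw hR (hpos 0).1 (hpos 0).2.1 (hAw 0)
    have h3 := hpar i
    omega
  obtain ⟨e, he, hc⟩ : ∃ e : ℤ, (e = 1 ∨ e = -1) ∧
      ∀ i : Fin 3, (parV (chS (tcell w R (t i))) (bd R (t i)) + (if e = 1 then 1 else 0) -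
        (b + ((i : ℕ) : ℤ))) % 2 = 0 := by
    rcases Int.emod_two_eq_zero_or_one (parV (chS (tcell w R (t 0))) (bd R (t 0)) - b) with h | h
    · refine ⟨-1, Or.inr rfl, fun i => ?_⟩
      have := hparV i
      rw [if_neg (by omega)]
      omega
    · refine ⟨1, Or.inl rfl, fun i => ?_⟩
      have := hparV i
      rw [if_pos rfl]
      omega
  -- the walls
  have hVU : VU TQ ω (An 0 R) (fun i : Fin 3 => (ine 0 ((i : ℕ) : ℤ)).swap) = VUL R ω := by
    rw [An_zero]
    rfl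
  have hland : ∀ i : Fin 3, ConnW emP ζ ((BW R : Set (ℤ × ℤ)) ∪ cellsF w (G i))
      (cx (if e = 1 then a i else a i + 2), 0)
      (rep w (b + ((i : ℕ) : ℤ)) ξ (oport w R (t i))) := by
    intro i
    have hport : rcell w R (t i) 1 0 = oport w R (t i) := by
      unfold rcell oport
      refine Prod.ext ?_ ?_ <;> simp
    obtain ⟨i', h | h⟩ := land_cyc (s := s) (j := a i) (p := 1) (e := e) (ζ := ζ) (F := An 0 R)
      hw hR (fun i => ⟨(hsr i).1, (hsr i).2, hsA i⟩) hssep (hok i) (hξ i) he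
      (Or.inl ⟨rfl, by rw [An_zero]⟩) (fun f h1 _ _ _ => by rw [An_zero]; exact h1 rfl)
      (by
        intro x y h1 h2 h3 h4 h5
        rw [hsa i]
        obtain ⟨P, n₀, τ₀, hT⟩ := exists_tipC hw hR (hpos i).1 (hpos i).2.1 (hAw i)
        have hq := hring i (x * (tdir R (t i)).1 + y * (ttan R (t i)).1)
          (x * (tdir R (t i)).2 + y * (ttan R (t i)).2)
        have e1 : rcell w R (t i) x y = tcell w R (t i) +
            (x * (tdir R (t i)).1 + y * (ttan R (t i)).1,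
              x * (tdir R (t i)).2 + y * (ttan R (t i)).2) := by
          unfold rcell
          refine Prod.ext ?_ ?_ <;> simp only [Prod.fst_add, Prod.snd_add] <;> ring
        rw [e1]
        rcases hT.par with ⟨q1, q2⟩ | ⟨q1, q2⟩ | ⟨q1, q2⟩ | ⟨q1, q2⟩ <;> rw [q1, q2] at hq ⊢ <;>
          refine hq ?_ ?_ ?_ ?_ ?_ <;> simp only [ne_eq, Prod.mk.injEq] <;> omega)
      H C (by rw [hsa i]; exact hc i) (fun f hf => by
        rw [hVU] at hf
        exact (hζ1 f hf).symm)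
      (fun f hf hf' => by
        rw [hVU] at hf'
        exact (hζ2 f hf' (Or.inr ⟨i, hf⟩)).symm)
    · rw [h.1, ← leg_fst, ← hport, ← hsa i]
      refine h.2.mono ?_
      rintro f (hf | hf)
      · rw [hVU] at hf
        obtain ⟨k, hk⟩ := hf
        exact Or.inl hk.1
      · exact Or.inr hf
    · rw [h.1, ← leg_snd, ← hport, ← hsa i]
      refine h.2.mono ?_
      rintro f (hf | hf)
      · rw [hVU] at hf
        obtain ⟨k, hk⟩ := hf
        exact Or.inl hk.1
      · exact Or.inr hf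
  refine ⟨fun i => cx (if e = 1 then a i else a i + 2), ?_, fun i => core_cx _, hland⟩
  intro i j h
  have h1 := cx_inj h
  rcases he with rfl | rfl
  · rw [if_pos rfl, if_pos rfl] at h1
    exact hainj h1
  · rw [if_neg (by omega), if_neg (by omega)] at h1
    exact hainj (add_right_cancel h1)

end Pool.Agent.Perc.Q

end Partperc3TwLink

section PartoccBallA

/-!
# A fresh arm near a tip: deterministic part, in a complex of quadrangles
-/

set_option autoImplicit false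

namespace Pool.Agent.Occ.Ball

open Finset Relation Pool.Agent.Perc Pool.Agent.Perc.Q

variable {V Φ : Type} {Q : QC V Φ} {ω : Φ → Bool} {F G : Set Φ} {e e₀ a b : V × V} {f : Φ}
  {k : ZMod 4}

theorem nx_out (h : Nx Q ω F a b) : ∃ f ∈ F, ∃ k, b = (Q.c f (k + 1), Q.c f k) := by
  obtain ⟨f, hf, k, -, ⟨-, rfl⟩ | ⟨-, rfl⟩⟩ := h
  · exact ⟨f, hf, k + 1, by rw [z1]⟩
  · exact ⟨f, hf, k + 3, by rw [add_assoc, show (3 : ZMod 4) + 1 = 0 from rfl, add_zero]⟩

theorem ini_of_out {g : Φ} (hg : g ∉ F) (k : ZMod 4) : Ini Q F (Q.c g (k + 1), Q.c g k) := by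
  intro f hf l h
  simp only [Prod.mk.injEq] at h
  exact hg ((Q.inj h.2 h.1).1 ▸ hf)

/-- Every mark of an orbit in `G` belongs to the orbit in `F` of an entry mark. -/
theorem exists_entry (he : Ini Q F e) (ha : a ∈ Orb Q ω G e) :
    ∃ b ∈ Orb Q ω G e, Ini Q F b ∧ a ∈ Orb Q ω F b ∧
      (b = e ∨ ∃ g ∈ G, g ∉ F ∧ ∃ k, b = (Q.c g (k + 1), Q.c g k)) := by
  change ReflTransGen _ _ _ at ha
  induction ha with
  | refl => exact ⟨e, ReflTransGen.refl, he, ReflTransGen.refl, Or.inl rfl⟩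
  | @tail c d hc hs ih =>
    obtain ⟨f, hf, k, h1, h2⟩ := hs
    by_cases hF : f ∈ F
    · obtain ⟨b, i1, i2, i3, i4⟩ := ih
      exact ⟨b, i1, i2, ReflTransGen.tail i3 ⟨f, hF, k, h1, h2⟩, i4⟩
    · obtain ⟨g, hg, l, hl⟩ := nx_out (Q := Q) (ω := ω) (F := {f}) ⟨f, rfl, k, h1, h2⟩
      have hgf : g = f := hg
      subst hgf
      refine ⟨d, ReflTransGen.tail hc ⟨g, hf, k, h1, h2⟩, ?_, ReflTransGen.refl,
        Or.inr ⟨g, hf, hF, l, hl⟩⟩
      rw [hl]
      exact ini_of_out hF l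

/-- Reversal. -/
theorem orb_rev (ha : a ∈ Orb Q ω F e) : e.swap ∈ Orb Q ω F a.swap := by
  change ReflTransGen _ _ _ at ha
  induction ha with
  | refl => exact ReflTransGen.refl
  | tail _ hs ih => exact ReflTransGen.head hs.rev ih

theorem un_nx (he₀ : Ini Q F e₀) (h : Nx Q ω F a b) : a ∈ Un Q ω F e₀ ↔ b ∈ Un Q ω F e₀ := by
  obtain ⟨f, hf, k, rfl, ⟨h1, rfl⟩ | ⟨h1, rfl⟩⟩ := h
  · rw [un_iff he₀ hf h1, ← Un_swap (a := (Q.c f (k + 1), Q.c f (k + 2)))]
    rfl
  · have h2 : ω f = ev (k + 3) := by rw [h1, ev_add_three]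
    have h3 := un_iff he₀ hf h2
    rw [add_assoc, add_assoc, show (3 : ZMod 4) + 1 = 0 from rfl,
      show (3 : ZMod 4) + 2 = 1 from rfl, add_zero] at h3
    rw [← h3, ← Un_swap (a := (Q.c f (k + 3), Q.c f k))]
    rfl

theorem orb_un (he₀ : Ini Q F e₀) (h : a ∈ Orb Q ω F b) :
    b ∈ Un Q ω F e₀ ↔ a ∈ Un Q ω F e₀ := by
  change ReflTransGen _ _ _ at h
  induction h with
  | refl => exact Iff.rfl
  | tail _ hs ih => exact ih.trans (un_nx he₀ hs)

/-- A colour function on the corners. -/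
def Col (Q : QC V Φ) (F : Set Φ) (κ : V → ZMod 2) : Prop :=
  ∀ f ∈ F, ∀ k, κ (Q.c f (k + 1)) = κ (Q.c f k) + 1

theorem Col.two {κ : V → ZMod 2} (hκ : Col Q F κ) (hf : f ∈ F) (k : ZMod 4) :
    κ (Q.c f (k + 2)) = κ (Q.c f k) := by
  rw [← z1, hκ f hf, hκ f hf, add_assoc, show (1 : ZMod 2) + 1 = 0 from rfl, add_zero]

theorem Col.conn {κ : V → ZMod 2} (hκ : Col Q F κ) {u v : V} (h : ConnQ Q ω F u v) :
    κ u = κ v := by
  induction h with
  | refl => rfl
  | tail _ hb ih =>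
    obtain ⟨f, hf, k, -, rfl, rfl⟩ := hb
    rw [ih, hκ.two hf]

/-- The fresh arm: a mark `a` of a face `f` which is not visited by the strand of `e₀`; the orbit of
`b` in `F` contains `a`. Then one of the ends of `a` is joined to the same end of `b` by faces which
are not visited by the strand of `e₀`. -/
theorem fresh_arm {χ κ : V → ZMod 2} (he₀ : Ini Q F e₀)
    (hχ : ∀ f ∈ F, ∀ k, χ (Q.c f k) + χ (Q.c f (k + 1)) =
      cochain Q ω F e₀ (Q.c f k) (Q.c f (k + 1)))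
    (hκ : Col Q F κ) (ha : (Q.c f k, Q.c f (k + 1)) ∈ Orb Q ω F b) (hf : f ∈ F)
    (hbad : f ∉ Vis Q ω F e₀) :
    ConnQ Q ω (F \ Vis Q ω F e₀) (Q.c f k) b.1 ∨
      ConnQ Q ω (F \ Vis Q ω F e₀) (Q.c f (k + 1)) b.2 := by
  classical
  set φ := χ (Q.c f k) with hφ
  have hnu : (Q.c f k, Q.c f (k + 1)) ∉ Un Q ω F e₀ := fun h => hbad (vis_of_un he₀ hf h)
  have hφ' : χ (Q.c f (k + 1)) = φ := by
    have h1 := hχ f hf k
    unfold cochain at h1
    rw [if_neg hnu, ← hφ] at h1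
    have h2 : ∀ x y : ZMod 2, x + y = 0 → y = x := by decide
    exact h2 _ _ h1
  set κ₂ : ZMod 2 := κ e₀.1 + 1 + φ + χ e₀.1 with hκ₂
  -- the marks of the strand of e₀
  have hπ : ∀ g ∈ F, ∀ l, (Q.c g l, Q.c g (l + 1)) ∈ Orb Q ω F e₀ →
      ¬ (χ (Q.c g l) = φ ∧ κ (Q.c g l) = κ₂) ∧
        ¬ (χ (Q.c g (l + 1)) = φ ∧ κ (Q.c g (l + 1)) = κ₂) := by
    intro g hg l hl
    obtain ⟨m1, m2⟩ := marks hl
    have m3 := m1.mono Vis_sub
    have c1 : χ e₀.1 = χ (Q.c g l) := pot_conn he₀ hχ m3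
    have c2 : κ e₀.1 = κ (Q.c g l) := hκ.conn m3
    have c3 := hχ g hg l
    have c4 := hκ g hg l
    unfold cochain at c3
    have hun : (Q.c g l, Q.c g (l + 1)) ∈ Un Q ω F e₀ := Or.inl hl
    rw [if_pos hun] at c3
    have h2 : ∀ x y z x' z' p c : ZMod 2, z + z' = 1 → x' = x + 1 → y = z → c = x →
        ¬ (z = p ∧ x = c + 1 + p + y) ∧ ¬ (z' = p ∧ x' = c + 1 + p + y) := by decide
    exact h2 _ _ _ _ _ _ _ c3 c4 c1 c2
  -- a face of the strand of b with a bond of the colour κ₂ on the side φ is fresh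
  have hfree : ∀ g ∈ F, ∀ l, ω g = ev l → χ (Q.c g l) = φ → κ (Q.c g l) = κ₂ →
      g ∉ Vis Q ω F e₀ := by
    rintro g hg l hl h1 h2 ⟨-, m, hm⟩
    have h3 : χ (Q.c g l) = χ (Q.c g (l + 2)) :=
      pot_conn he₀ hχ (ReflTransGen.single ⟨g, hg, l, hl, rfl, rfl⟩)
    have h4 := hκ.two hg l
    obtain ⟨p1, p2⟩ := hπ g hg m hm
    rcases z4_cases m l with rfl | h | h | h
    · exact p1 ⟨h1, h2⟩
    · have hm' : m + 1 = l + 2 := by rw [h, z1]
      rw [hm', ← h3, h4] at p2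
      exact p2 ⟨h1, h2⟩
    · rw [h, ← h3, h4] at p1
      exact p1 ⟨h1, h2⟩
    · have hm' : m + 1 = l := by
        rw [h, add_assoc, show (3 : ZMod 4) + 1 = 0 from rfl, add_zero]
      rw [hm'] at p2
      exact p2 ⟨h1, h2⟩
  -- along the orbit of b
  have key : ∀ x, ReflTransGen (Nx Q ω F) x (Q.c f k, Q.c f (k + 1)) →
      (χ x.1 = φ ∧ χ x.2 = φ ∧ κ x.1 = κ (Q.c f k) ∧ κ x.2 = κ (Q.c f (k + 1))) ∧
      (κ (Q.c f k) = κ₂ → ConnQ Q ω (F \ Vis Q ω F e₀) (Q.c f k) x.1) ∧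
      (κ (Q.c f (k + 1)) = κ₂ → ConnQ Q ω (F \ Vis Q ω F e₀) (Q.c f (k + 1)) x.2) := by
    intro x hx
    induction hx using ReflTransGen.head_induction_on with
    | refl => exact ⟨⟨rfl, hφ', rfl, rfl⟩, fun _ => ReflTransGen.refl, fun _ => ReflTransGen.refl⟩
    | @head x y hs _ ih =>
      obtain ⟨⟨i1, i2, i3, i4⟩, i5, i6⟩ := ih
      obtain ⟨g, hg, l, rfl, ⟨h1, rfl⟩ | ⟨h1, rfl⟩⟩ := hs
      · simp only at i1 i2 i3 i4 i5 i6 ⊢
        have h3 : χ (Q.c g l) = χ (Q.c g (l + 2)) :=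
          pot_conn he₀ hχ (ReflTransGen.single ⟨g, hg, l, h1, rfl, rfl⟩)
        have h4 := hκ.two hg l
        refine ⟨⟨h3.trans i1, i2, h4.symm.trans i3, i4⟩, fun h => (i5 h).tail ?_, i6⟩
        have hfr := hfree g hg l h1 (h3.trans i1) (h4.symm.trans (i3.trans h))
        exact BondQ.symm ⟨g, ⟨hg, hfr⟩, l, h1, rfl, rfl⟩
      · have h1' : ω g = ev (l + 1) := by rw [h1, ev_add_one]
        simp only at i1 i2 i3 i4 i5 i6 ⊢
        have h3 : χ (Q.c g (l + 1)) = χ (Q.c g (l + 3)) := by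
          have := pot_conn he₀ hχ (ReflTransGen.single ⟨g, hg, l + 1, h1', rfl, rfl⟩)
          rwa [z2] at this
        have h4 := hκ.two hg (l + 1)
        rw [z2] at h4
        refine ⟨⟨i1, h3.trans i2, i3, h4.symm.trans i4⟩, i5, fun h => (i6 h).tail ?_⟩
        have hfr := hfree g hg (l + 1) h1' (h3.trans i2) (h4.symm.trans (i4.trans h))
        have := BondQ.symm (Q := Q) (ω := ω) (F := F \ Vis Q ω F e₀)
          ⟨g, ⟨hg, hfr⟩, l + 1, h1', rfl, rfl⟩
        rwa [z2] at this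
  obtain ⟨-, k1, k2⟩ := key b ha
  have h5 := hκ f hf k
  have h6 : ∀ x y z : ZMod 2, y = x + 1 → x = z ∨ y = z := by decide
  rcases h6 _ _ κ₂ h5 with h | h
  · exact Or.inl (k1 h)
  · exact Or.inr (k2 h)

end Pool.Agent.Occ.Ball

end PartoccBallA
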