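import Pool.Agent.Lib.MP_6bd702_zc.Pre
import Pool.Agent.Lib.MP_6bd702_zc.Y034
import Pool.Agent.Lib.MP_6bd702_zc.Y026
import Pool.Agent.Lib.MP_6bd702_zc.Y036
import Pool.Agent.Lib.MP_6bd702_zc.Y027
import Pool.Agent.Lib.MP_6bd702_zc.Y028
import Pool.Agent.Lib.MP_6bd702_z.Z091

section Partperc3T2Link

/-!
# The walls of the annulus join the three core vertices to the outer boundary
-/

set_option autoImplicit false

namespace Pool.Agent.Perc.Q

open Finset Pool.Agent.Perc Relation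

variable {m r d w c R t : ℤ} {ω ξ ζ : Cfg} {G G' : Finset (ℤ × ℤ)} {f g : ℤ × ℤ}

/-- The eight cells around a cell. -/
noncomputable def ring8 (g : ℤ × ℤ) : Finset (ℤ × ℤ) :=
  (((Icc (-1 : ℤ) 1) ×ˢ (Icc (-1 : ℤ) 1)).erase (0, 0)).image fun p => g + p

theorem mem_ring8 {x : ℤ × ℤ} : x ∈ ring8 g ↔ ∃ a b : ℤ, -1 ≤ a ∧ a ≤ 1 ∧ -1 ≤ b ∧ b ≤ 1 ∧
    (a, b) ≠ (0, 0) ∧ g + (a, b) = x := by
  unfold ring8
  rw [mem_image]
  constructor
  · rintro ⟨⟨a, b⟩, h, rfl⟩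
    rw [mem_erase, mem_product, mem_Icc, mem_Icc] at h
    exact ⟨a, b, h.2.1.1, h.2.1.2, h.2.2.1, h.2.2.2, h.1, rfl⟩
  · rintro ⟨a, b, h1, h2, h3, h4, h5, rfl⟩
    refine ⟨(a, b), ?_, rfl⟩
    rw [mem_erase, mem_product, mem_Icc, mem_Icc]
    exact ⟨h5, ⟨h1, h2⟩, h3, h4⟩

attribute [irreducible] ring8

theorem tub_mono (h : G' ⊆ G) : Tub m c G ⊆ Tub m c G' := by
  intro ω hω g hg k hk
  refine hω g (h hg) k ⟨fun h2 => h (hk.1 h2), fun h3 => h (hk.2 h3)⟩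

/-- The cells around a tip cell in the coordinates of the tip. -/
theorem ring_rcell {P : ℤ × ℤ} {n₀ τ₀ : ℤ} (H : TipC m R t P n₀ τ₀) {a b : ℤ} (h1 : -1 ≤ a)
    (h2 : a ≤ 1) (h3 : -1 ≤ b) (h4 : b ≤ 1) : ∃ x y : ℤ, -1 ≤ x ∧ x ≤ 1 ∧ -1 ≤ y ∧ y ≤ 1 ∧
    tcell m R t + (a, b) = rcell m R t x y := by
  rcases H.par with ⟨e1, e2⟩ | ⟨e1, e2⟩ | ⟨e1, e2⟩ | ⟨e1, e2⟩
  · refine ⟨a, b, h1, h2, h3, h4, ?_⟩
    unfold rcell
    rw [e1, e2]
    refine Prod.ext ?_ ?_ <;> simp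
  · refine ⟨b, -a, h3, h4, by omega, by omega, ?_⟩
    unfold rcell
    rw [e1, e2]
    refine Prod.ext ?_ ?_ <;> simp
  · refine ⟨-a, -b, by omega, by omega, by omega, by omega, ?_⟩
    unfold rcell
    rw [e1, e2]
    refine Prod.ext ?_ ?_ <;> simp
  · refine ⟨-b, a, by omega, by omega, by omega, by omega, ?_⟩
    unfold rcell
    rw [e1, e2]
    refine Prod.ext ?_ ?_ <;> simp

theorem rcell_ring {P : ℤ × ℤ} {n₀ τ₀ : ℤ} (H : TipC m R t P n₀ τ₀)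
    (hring : ∀ a b : ℤ, -1 ≤ a → a ≤ 1 → -1 ≤ b → b ≤ 1 → (a, b) ≠ (0, 0) →
      tcell m R t + (a, b) ∈ G) (a b : ℤ) (h1 : -1 ≤ a) (h2 : a ≤ 1) (h3 : -1 ≤ b) (h4 : b ≤ 1)
    (h5 : a ≠ 0 ∨ b ≠ 0) : rcell m R t a b ∈ G := by
  have hq := hring (a * (tdir R t).1 + b * (ttan R t).1) (a * (tdir R t).2 + b * (ttan R t).2)
  have e1 : rcell m R t a b = tcell m R t +
      (a * (tdir R t).1 + b * (ttan R t).1, a * (tdir R t).2 + b * (ttan R t).2) := by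
    unfold rcell
    refine Prod.ext ?_ ?_ <;> simp only [Prod.fst_add, Prod.snd_add] <;> ring
  rw [e1]
  rcases H.par with ⟨q1, q2⟩ | ⟨q1, q2⟩ | ⟨q1, q2⟩ | ⟨q1, q2⟩ <;> rw [q1, q2] at hq ⊢ <;>
    refine hq ?_ ?_ ?_ ?_ ?_ <;> simp only [ne_eq, Prod.mk.injEq] <;> omega

/-- The faces of the ring of a tip are near the boundary of the box. -/
theorem ring_faces (hm : 2 ≤ m) (hR : 20 * m ≤ R) (h0 : 0 ≤ t) (h1 : t < 8 * R + 3)
    (hA : Away R (10 * m) t) (hf : f ∈ cellsF m (ring8 (tcell m R t))) :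
    f ∈ BW (R + 3 * m) ∧ f ∉ BW (R - 3 * m) := by
  obtain ⟨P, n₀, τ₀, H⟩ := exists_tipC hm hR h0 h1 hA
  obtain ⟨g, hg, hfg⟩ := mem_cellsF.1 hf
  obtain ⟨a, b, a1, a2, a3, a4, -, rfl⟩ := mem_ring8.1 hg
  obtain ⟨x, y, x1, x2, x3, x4, e⟩ := ring_rcell H a1 a2 a3 a4
  rw [e] at hfg
  exact ⟨cin_face (by omega) hm (H.cin3 x y x1 x2 x3 x4) hfg,
    cout_face hm (H.cout3 x y x1 x2 x3 x4) hfg⟩

theorem ring_in (hm : 2 ≤ m) (hR : 20 * m ≤ R) (h0 : 0 ≤ t) (h1 : t < 8 * R + 3)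
    (hA : Away R (20 * m) t) (hf : f ∈ cellsF m (ring8 (tcell m R t))) {w : ℤ}
    (hw : R + 3 * m ≤ w) : f ∈ (BW w : Set (ℤ × ℤ)) :=
  BW_mono hw (Finset.mem_coe.2
    (ring_faces hm hR h0 h1 (fun z hz => by have := hA z hz; omega) hf).1)

theorem ring_nin (hm : 2 ≤ m) (hR : 20 * m ≤ R) (h0 : 0 ≤ t) (h1 : t < 8 * R + 3)
    (hA : Away R (20 * m) t) (hf : f ∈ cellsF m (ring8 (tcell m R t))) {w : ℤ}
    (hw : w ≤ R - 3 * m) : f ∉ (BW w : Set (ℤ × ℤ)) := fun h =>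
  (ring_faces hm hR h0 h1 (fun z hz => by have := hA z hz; omega) hf).2
    (Finset.mem_coe.1 (BW_mono hw h))

theorem ring_sub (hring : ∀ a b : ℤ, -1 ≤ a → a ≤ 1 → -1 ≤ b → b ≤ 1 → (a, b) ≠ (0, 0) →
    g + (a, b) ∈ G) : ring8 g ⊆ G := by
  intro x hx
  obtain ⟨a, b, a1, a2, a3, a4, a5, rfl⟩ := mem_ring8.1 hx
  exact hring a b a1 a2 a3 a4 a5

theorem away_mono {g g' : ℤ} (h : g' ≤ g) (hA : Away R g t) : Away R g' t :=
  fun z hz => h.trans (hA z hz)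

/-- The distances of the tips. -/
theorem TipPos.sep {t : Fin 3 → ℤ} (hm : 0 < m) (H : TipPos m R t) (i j : Fin 3) (hij : i ≠ j) :
    10 * m ≤ |t i - t j| := by
  obtain ⟨hpos, hord1, hord2⟩ := H
  have h1 : 20 * m ≤ |tlin R (t i) - tlin R (t j)| := by
    rw [le_abs]
    fin_cases i <;> fin_cases j <;> first | exact absurd rfl hij | skip
    all_goals simp only [Fin.zero_eta, Fin.mk_one, Fin.reduceFinMk, Fin.isValue]
    all_goals omega
  have h2 := away_cases (w := m) hm (hpos i).1 (hpos i).2.1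
    (away_mono (by omega) (hpos i).2.2)
  have h3 := away_cases (w := m) hm (hpos j).1 (hpos j).2.1
    (away_mono (by omega) (hpos j).2.2)
  rw [le_abs] at h1 ⊢
  unfold tlin at h1
  split_ifs at h1 <;> omega

/-- The colours of the three walls fit to one side of the tips. -/
theorem exists_side {s t : Fin 3 → ℤ} {S : ℤ → Fin 3} {K : ℤ → ZMod 2} {a : Fin 3 → Fin 3}
    (hm : 2 ≤ m) (hR : 20 * m ≤ R) (ht : TipPos m R t)
    (ha : Function.Injective a) (hst : ∀ i, s (a i) = t i) (C : Cyc (8 * R + 3) s S K)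
    (hs : ∀ i, 0 ≤ s i ∧ s i < 8 * R + 3) (hne : ∀ i, s i ≠ s (i + 1)) (b : ℤ) :
    ∃ e : ℤ, (e = 1 ∨ e = -1) ∧
      ∀ i : Fin 3, (parV (chS (tcell m R (t i))) (bd R (t i)) + (if e = 1 then 1 else 0) -
        (b + ((i : ℕ) : ℤ))) % 2 = 0 := by
  obtain ⟨hpos, hord1, hord2⟩ := ht
  have hpar := par_order ha hst C hs hne (by omega) (by omega)
  have hparV : ∀ i, (parV (chS (tcell m R (t i))) (bd R (t i)) -
      parV (chS (tcell m R (t 0))) (bd R (t 0)) - ((i : ℕ) : ℤ)) % 2 = 0 := by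
    intro i
    have h1 := parV_tlin hm hR (hpos i).1 (hpos i).2.1 (away_mono (by omega) (hpos i).2.2)
    have h2 := parV_tlin hm hR (hpos 0).1 (hpos 0).2.1 (away_mono (by omega) (hpos 0).2.2)
    have h3 := hpar i
    omega
  rcases Int.emod_two_eq_zero_or_one (parV (chS (tcell m R (t 0))) (bd R (t 0)) - b) with h | h
  · refine ⟨-1, Or.inr rfl, fun i => ?_⟩
    have := hparV i
    rw [if_neg (by omega)]
    omega
  · refine ⟨1, Or.inl rfl, fun i => ?_⟩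
    have := hparV i
    rw [if_pos rfl]
    omega

theorem bdW_bd (hw : 0 < w) (h0 : 0 ≤ t) (h1 : t ≤ 8 * w + 3) : BdW w (bd w t) := by
  rcases h1.lt_or_eq with h | h
  · exact ((bdW_iff hw).2 ⟨t, h0, h, rfl⟩).1
  · rw [h, bd_last hw.le]
    exact ((bdW_iff hw).2 ⟨0, le_rfl, by omega, rfl⟩).1

/-- The walls of the annulus. -/
structure WallsA (m r d : ℤ) (t s : Fin 3 → ℤ) (G : Fin 3 → Finset (ℤ × ℤ)) : Prop where
  disj : ∀ i j, i ≠ j → Disjoint (G i) (G j)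
  ok : ∀ i, ∀ g ∈ G i, CellOk g
  tc : ∀ i j, tcell m r (t i) ∉ G j ∧ tcell m d (s i) ∉ G j
  ring : ∀ i, ∀ a b : ℤ, -1 ≤ a → a ≤ 1 → -1 ≤ b → b ≤ 1 → (a, b) ≠ (0, 0) →
      tcell m r (t i) + (a, b) ∈ G i ∧ tcell m d (s i) + (a, b) ∈ G i
  path : ∀ i, ReflTransGen (fun a b => a ∈ G i ∧ b ∈ G i ∧ COut m r a ∧ COut m r b ∧
      CIn m d a ∧ CIn m d b ∧ CAdj a b) (oport m r (t i)) (iport m d (s i))

/-- The faces visited by the outer strands. -/
def VUO (d w : ℤ) (T : Fin 3 → ℤ) (ω : Cfg) : Set (ℤ × ℤ) :=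
  VU TQ ω (An d w) fun i => ine w (T i)

/-- The outer landing. -/
theorem link_out (hm : 3 ≤ m) (hd : 60 * m ≤ d) (hdw : d + 3 * m ≤ w) {T s : Fin 3 → ℤ}
    (hT : Alt w T) (hsp : TipPos m d s) (htip : ∀ i, ∃ j, TipI d w ω T j (s i))
    {G : Fin 3 → Finset (ℤ × ℤ)} (hok : ∀ i, ∀ g ∈ G i, CellOk g)
    (hring : ∀ i, ∀ a b : ℤ, -1 ≤ a → a ≤ 1 → -1 ≤ b → b ≤ 1 → (a, b) ≠ (0, 0) →
      tcell m d (s i) + (a, b) ∈ G i)
    {b : ℤ} (hξ : ∀ i : Fin 3, ξ ∈ Tub m (b + ((i : ℕ) : ℤ)) (G i))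
    (hζ1 : ∀ f ∈ VUO d w T ω, ω f = ζ f)
    (hζ2 : ∀ i, ∀ f ∈ cellsF m (G i), f ∉ VUO d w T ω → ξ f = ζ f) (i : Fin 3) :
    ∃ v, BdW w v ∧ ConnW emP ζ (VUO d w T ω ∪ cellsF m (G i)) v
      (rep m (b + ((i : ℕ) : ℤ)) ξ (iport m d (s i))) := by
  have hm2 : 2 ≤ m := by omega
  have hd2 : 20 * m ≤ d := by omega
  have hsp' := hsp
  obtain ⟨hpos, hord1, hord2⟩ := hsp'
  have hAw : ∀ i, Away d (10 * m) (s i) := fun i => away_mono (by omega) (hpos i).2.2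
  choose a ha using htip
  have hEq : ∀ i j, a i = a j → s i = s j := by
    intro i j hij
    have h1 := (ha i).2.2
    have h2 := (ha j).2.2
    rw [← hij] at h2
    have hter : ∀ i, Ter TQ (An d w) (ine d (s i)) := by
      intro i
      have h3 := (ini_inner (d := d) (w := w) (by omega) (by omega) (hpos i).1
        (hpos i).2.1).ter_swap
      rwa [Prod.swap_swap] at h3
    have h3 := ter_unique h1 h2 (hter i) (hter j)
    exact ine_inj (by omega) (hpos i).1 (hpos i).2.1 (hpos j).1 (hpos j).2.1 h3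
  have hainj : Function.Injective a := by
    intro i j hij
    by_contra hne
    have h1 := hsp.sep (by omega) i j hne
    rw [hEq i j hij, sub_self, abs_zero] at h1
    omega
  have hbij := Finite.injective_iff_bijective.1 hainj
  set E := Equiv.ofBijective a hbij with hE
  set u : Fin 3 → ℤ := fun i => s (E.symm i) with hu
  have hua : ∀ i, u (a i) = s i := by
    intro i
    have : E.symm (a i) = i := E.symm_apply_apply i
    simp only [hu, this]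
  have hur : ∀ i, 0 ≤ u i ∧ u i < 8 * d + 3 := fun i => ⟨(hpos _).1, (hpos _).2.1⟩
  have huA : ∀ i, Away d (10 * m) (u i) := fun i => hAw _
  have hstr : ∀ i : Fin 3, ine d (u i) ∈ Orb TQ ω (An d w) (ine w (T i)) := by
    intro i
    have h1 := (ha (E.symm i)).2.2
    have h2 : a (E.symm i) = i := E.apply_symm_apply i
    rw [h2] at h1
    exact h1
  have husep : ∀ i j, i ≠ j → 10 * m ≤ |u i - u j| := fun i j hij =>
    hsp.sep (by omega) _ _ fun h => hij (E.symm.injective h)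
  have hune : ∀ i, u i ≠ u (i + 1) := by
    intro i h
    have h1 := husep i (i + 1) (by fin_cases i <;> decide)
    rw [h, sub_self, abs_zero] at h1
    omega
  obtain ⟨sec, kap, H⟩ := secIn (ω := ω) (d := d) (w := w) (by omega) (by omega) hT
    fun i => ⟨u i, (hur i).1, (hur i).2, hstr i⟩
  have C := cyc_in (s := u) (by omega) (show d < w by omega) hT.mem H hur hstr
  obtain ⟨e, he, hc⟩ := exists_side hm2 hd2 hsp hainj hua C hur hune b
  obtain ⟨P, n₀, τ₀, hTip⟩ := exists_tipC hm2 hd2 (hpos i).1 (hpos i).2.1 (hAw i)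
  have hport : rcell m d (s i) (-1) 0 = iport m d (s i) := by
    unfold rcell iport
    refine Prod.ext ?_ ?_ <;> simp <;> ring
  obtain ⟨i', h | h⟩ := land_cyc (s := u) (j := a i) (p := -1) (e := e) (ζ := ζ) (F := An d w)
    hm2 hd2 (fun i => ⟨(hur i).1, (hur i).2, huA i⟩) husep (hok i) (hξ i) he
    (Or.inr ⟨rfl, fun f hf => hf.2⟩)
    (fun f _ h2 h3 _ => ⟨BW_mono hdw h3, h2 rfl⟩)
    (by
      intro x y h1 h2 h3 h4 h5
      rw [hua i]
      exact rcell_ring hTip (hring i) x y h1 h2 h3 h4 h5)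
    H C (by rw [hua i]; exact hc i) hζ1 (hζ2 i)
  · refine ⟨(ine w (T i')).1, ?_, ?_⟩
    · exact bdW_bd (by omega) (hT.mem i').1 (by have := (hT.mem i').2; omega)
    · rw [← hport, ← hua i]
      exact h.2
  · refine ⟨(ine w (T i')).2, ?_, ?_⟩
    · exact bdW_bd (by omega) (by have := (hT.mem i').1; omega) (by have := (hT.mem i').2; omega)
    · rw [← hport, ← hua i]
      exact h.2

/-- All three core vertices are joined to the outer boundary. -/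
theorem link_arm (hm : 3 ≤ m) (hr : 60 * m ≤ r) (hrd : r + 60 * m ≤ d) (hdw : d + 3 * m ≤ w)
    {T t s : Fin 3 → ℤ} (hT : Alt w T) (htp : TipPos m r t) (hsp : TipPos m d s)
    (htip : ∀ i, IsTip r ω (t i)) (hstip : ∀ i, ∃ j, TipI d w ω T j (s i))
    {G : Fin 3 → Finset (ℤ × ℤ)} (hW : WallsA m r d t s G) {b : ℤ}
    (hξ : ∀ i : Fin 3, ξ ∈ Tub m (b + ((i : ℕ) : ℤ)) (G i))
    (hζ1 : ∀ f ∈ VUL r ω, ζ f = ω f) (hζ2 : ∀ f ∈ VUO d w T ω, ζ f = ω f)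
    (hζ3 : ∀ f, f ∉ VUL r ω → f ∉ VUO d w T ω → ζ f = ξ f) : ζ ∈ Arm3 w := by
  have hm2 : 2 ≤ m := by omega
  have hVO : ∀ f ∈ VUO d w T ω, f ∈ An d w := fun f hf => VU_sub hf
  have hVL : ∀ f ∈ VUL r ω, f ∈ (BW r : Set (ℤ × ℤ)) := by
    rintro f ⟨i, hf⟩
    exact Vis_sub hf
  -- the inner landing
  have hring1 : ∀ i, ring8 (tcell m r (t i)) ⊆ G i := fun i =>
    ring_sub fun a b a1 a2 a3 a4 a5 => (hW.ring i a b a1 a2 a3 a4 a5).1
  have hring2 : ∀ i, ring8 (tcell m d (s i)) ⊆ G i := fun i =>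
    ring_sub fun a b a1 a2 a3 a4 a5 => (hW.ring i a b a1 a2 a3 a4 a5).2
  obtain ⟨x, hxi, hxc, hx⟩ := linkP m r b ω ξ ζ t (fun i => ring8 (tcell m r (t i))) hm hr htp
    htip ⟨fun i j hij => (hW.disj i j hij).mono (hring1 i) (hring1 j),
      fun i g hg => hW.ok i g (hring1 i hg), fun i j h => (hW.tc i j).1 (hring1 j h),
      fun i a b a1 a2 a3 a4 a5 => mem_ring8.2 ⟨a, b, a1, a2, a3, a4, a5, rfl⟩⟩
    (fun i => tub_mono (hring1 i) (hξ i)) hζ1 (by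
      intro f hf hf2
      refine hζ3 f hf fun hO => (hVO f hO).2 ?_
      rcases hf2 with h | ⟨i, h⟩
      · exact BW_mono (by omega) (Finset.mem_coe.2 h)
      · exact ring_in hm2 (by omega) (htp.1 i).1 (htp.1 i).2.1 (htp.1 i).2.2 h (by omega))
  -- the outer landing
  have hout := link_out (ξ := ξ) (ζ := ζ) (b := b) hm (by omega) hdw hT hsp hstip
    (G := fun i => ring8 (tcell m d (s i))) (fun i g hg => hW.ok i g (hring2 i hg))
    (fun i a b a1 a2 a3 a4 a5 => mem_ring8.2 ⟨a, b, a1, a2, a3, a4, a5, rfl⟩)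
    (fun i => tub_mono (hring2 i) (hξ i)) (fun f hf => (hζ2 f hf).symm) (by
      intro i f hf hfO
      refine (hζ3 f (fun hL => ?_) hfO).symm
      exact ring_nin hm2 (by omega) (hsp.1 i).1 (hsp.1 i).2.1 (hsp.1 i).2.2 hf (by omega)
        (hVL f hL))
  -- the chain
  have hchain : ∀ i : Fin 3, ConnW emP ζ (BW w : Set (ℤ × ℤ))
      (rep m (b + ((i : ℕ) : ℤ)) ξ (oport m r (t i)))
      (rep m (b + ((i : ℕ) : ℤ)) ξ (iport m d (s i))) := by
    intro i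
    have h1 := tub_link hm2 (hW.ok i) (hξ i) (P := fun g => COut m r g ∧ CIn m d g)
      (rtg_mono (fun a b h => ⟨h.1, h.2.1, ⟨h.2.2.1, h.2.2.2.2.1⟩,
        ⟨h.2.2.2.1, h.2.2.2.2.2.1⟩, h.2.2.2.2.2.2⟩) (hW.path i))
    have hfa : ∀ f ∈ {f | ∃ a ∈ G i, (COut m r a ∧ CIn m d a) ∧ f ∈ cellF m a},
        f ∉ (BW r : Set (ℤ × ℤ)) ∧ f ∈ (BW d : Set (ℤ × ℤ)) := by
      rintro f ⟨g, -, ⟨g1, g2⟩, hf⟩
      exact ⟨fun h => cout_face hm2 g1 hf (Finset.mem_coe.1 h),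
        Finset.mem_coe.2 (cin_face (by omega) hm2 g2 hf)⟩
    refine (h1.congr_cfg fun f hf => ?_).mono fun f hf => BW_mono (by omega) (hfa f hf).2
    exact (hζ3 f (fun h => (hfa f hf).1 (hVL f h)) fun h => (hVO f h).2 (hfa f hf).2).symm
  -- conclusion
  intro y hy
  have hyx : ∃ i, x i = y := by
    by_contra hcon
    push Not at hcon
    have c0 := hcon 0
    have c1 := hcon 1
    have c2 := hcon 2
    have n01 : x 0 ≠ x 1 := fun h => absurd (hxi h) (by decide)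
    have n02 : x 0 ≠ x 2 := fun h => absurd (hxi h) (by decide)
    have n12 : x 1 ≠ x 2 := fun h => absurd (hxi h) (by decide)
    have k0 := hxc 0
    have k1 := hxc 1
    have k2 := hxc 2
    unfold Core at hy k0 k1 k2
    omega
  obtain ⟨i, rfl⟩ := hyx
  obtain ⟨v, hv, hconn⟩ := hout i
  refine ⟨v, ?_, hv⟩
  refine ReflTransGen.trans ((hx i).mono ?_) (ReflTransGen.trans (hchain i)
    ((hconn.mono ?_).symm'))
  · rintro f (hf | hf)
    · exact BW_mono (by omega) hf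
    · exact ring_in hm2 (by omega) (htp.1 i).1 (htp.1 i).2.1 (htp.1 i).2.2 hf (by omega)
  · rintro f (hf | hf)
    · exact (hVO f hf).1
    · exact ring_in hm2 (by omega) (hsp.1 i).1 (hsp.1 i).2.1 (hsp.1 i).2.2 hf hdw

end Pool.Agent.Perc.Q

end Partperc3T2Link

section Partperc3T2Glue

/-!
# Gluing the strands of the annulus with the legs of the core
-/

set_option autoImplicit false

namespace Pool.Agent.Perc.Q

open Finset Pool.Agent.Perc

namespace T2G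

variable {m r d w c R g : ℤ} {ω ω' ξ ζ : Cfg} {T : Fin 3 → ℤ}

/-- Sorted values. -/
theorem sort3 {s : Fin 3 → ℤ} (h : ∀ i j, i ≠ j → g ≤ |s i - s j|) :
    ∃ σ : Fin 3 → Fin 3, s (σ 0) + g ≤ s (σ 1) ∧ s (σ 1) + g ≤ s (σ 2) := by
  have hm := Tuple.monotone_sort s
  have key : ∀ i j : Fin 3, i ≤ j → i ≠ j → s (Tuple.sort s i) + g ≤ s (Tuple.sort s j) := by
    intro i j hij hne
    have h1 : s (Tuple.sort s i) ≤ s (Tuple.sort s j) := hm hij
    have h2 := h (Tuple.sort s i) (Tuple.sort s j) fun e => hne ((Tuple.sort s).injective e)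
    rw [le_abs] at h2
    omega
  exact ⟨Tuple.sort s, key 0 1 (by decide) (by decide), key 1 2 (by decide) (by decide)⟩

/-- The positions of the outer tips. -/
theorem sepI_tips (hm : 20 * m ≤ g) (hg : 0 ≤ g) (h : ω ∈ SepI d w g T) :
    ∃ s : Fin 3 → ℤ, TipPos m d s ∧ ∀ i, ∃ j, TipI d w ω T j (s i) := by
  obtain ⟨s, h1, h2⟩ := h
  obtain ⟨σ, s1, s2⟩ := sort3 h2
  obtain ⟨u, u1, u2, u3, u4⟩ := Cyl3.sort_tlin (R := d) (g := g) (t := fun i => s (σ i))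
    (P := fun x => ∃ j, TipI d w ω T j x) (fun i => ⟨σ i, (h1 (σ i)).1⟩)
    (fun i => ⟨(h1 (σ i)).1.1, (h1 (σ i)).1.2.1, (h1 (σ i)).2⟩) s1 s2 hg
  exact ⟨u, ⟨fun i => ⟨(u2 i).1, (u2 i).2.1, away_mono hm (u2 i).2.2⟩, by omega, by omega⟩, u1⟩

/-- The positions of the inner tips. -/
theorem sep3_tips (hm : 20 * m ≤ g) (hg : 0 ≤ g) (h : ω ∈ Sep3 r g) :
    ∃ t : Fin 3 → ℤ, TipPos m r t ∧ ∀ i, IsTip r ω (t i) := by
  obtain ⟨t, h1, s1, s2⟩ := h
  obtain ⟨u, u1, u2, u3, u4⟩ := Cyl3.sort_tlin (R := r) (g := g) (t := t)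
    (P := fun x => IsTip r ω x) (fun i => (h1 i).1)
    (fun i => ⟨(h1 i).1.1, (h1 i).1.2.1, (h1 i).2⟩) s1 s2 hg
  exact ⟨u, ⟨fun i => ⟨(u2 i).1, (u2 i).2.1, away_mono hm (u2 i).2.2⟩, by omega, by omega⟩, u1⟩

/-- The data of a configuration with separated tips. -/
structure DatA (m r d w : ℤ) (K : ℕ) (T : Fin 3 → ℤ) (ω : Cfg) (t s : Fin 3 → ℤ)
    (G : Fin 3 → Finset (ℤ × ℤ)) : Prop where
  tp : TipPos m r t
  sp : TipPos m d s
  tip : ∀ i, IsTip r ω (t i)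
  stip : ∀ i, ∃ j, TipI d w ω T j (s i)
  walls : WallsA m r d t s G
  card : ∀ i, (G i).card ≤ K
  inW : ∀ i, ∀ f ∈ cellsF m (G i), f ∈ BW w

theorem exists_datA (hR : RoutesP) (N : ℕ) : ∃ K : ℕ, ∀ m r d w : ℤ, 3 ≤ m → 60 * m ≤ r →
    r + 60 * m ≤ d → d ≤ N * m → d + 3 * m ≤ w → ∀ (T : Fin 3 → ℤ) (ω : Cfg) (t s : Fin 3 → ℤ),
    TipPos m r t → TipPos m d s → (∀ i, IsTip r ω (t i)) → (∀ i, ∃ j, TipI d w ω T j (s i)) →
    ∃ G, DatA m r d w K T ω t s G := by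
  classical
  obtain ⟨K, hK⟩ := hR N
  refine ⟨K, fun m r d w hm hr hrd hdN hdw T ω t s ht hs hti hsi => ?_⟩
  obtain ⟨G, g1, g2, g3, g4, g5, g6⟩ := hK m r d hm hr hrd hdN t s ht hs
  have hm2 : 2 ≤ m := by omega
  set G' : Fin 3 → Finset (ℤ × ℤ) := fun i => (G i).filter fun g => ∀ f ∈ cellF m g, f ∈ BW w
    with hG'
  have hsub : ∀ i, G' i ⊆ G i := fun i => filter_subset _ _
  have hin : ∀ i, ∀ g ∈ G i, CIn m d g → g ∈ G' i := fun i g hg hgd =>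
    mem_filter.2 ⟨hg, fun f hf => Finset.mem_coe.1 (BW_mono (show d ≤ w by omega)
      (Finset.mem_coe.2 (cin_face (by omega) hm2 hgd hf)))⟩
  refine ⟨G', ht, hs, hti, hsi, ⟨fun i j hij => (g1 i j hij).mono (hsub i) (hsub j),
    fun i g hg => g2 i g (hsub i hg), fun i j => ⟨fun h => (g4 i j).1 (hsub j h),
      fun h => (g4 i j).2 (hsub j h)⟩, ?_, ?_⟩, fun i => (card_le_card (hsub i)).trans (g3 i), ?_⟩
  · intro i a b a1 a2 a3 a4 a5
    refine ⟨mem_filter.2 ⟨(g5 i a b a1 a2 a3 a4 a5).1, fun f hf => ?_⟩,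
      mem_filter.2 ⟨(g5 i a b a1 a2 a3 a4 a5).2, fun f hf => ?_⟩⟩
    · exact Finset.mem_coe.1 (ring_in hm2 (by omega) (ht.1 i).1 (ht.1 i).2.1 (ht.1 i).2.2
        (mem_cellsF.2 ⟨_, mem_ring8.2 ⟨a, b, a1, a2, a3, a4, a5, rfl⟩, hf⟩) (by omega))
    · exact Finset.mem_coe.1 (ring_in hm2 (by omega) (hs.1 i).1 (hs.1 i).2.1 (hs.1 i).2.2
        (mem_cellsF.2 ⟨_, mem_ring8.2 ⟨a, b, a1, a2, a3, a4, a5, rfl⟩, hf⟩) (by omega))
  · intro i
    exact rtg_mono (fun a b h => ⟨hin i a h.1 h.2.2.2.2.1, hin i b h.2.1 h.2.2.2.2.2.1,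
      h.2.2.1, h.2.2.2.1, h.2.2.2.2.1, h.2.2.2.2.2.1, h.2.2.2.2.2.2⟩) (g6 i)
  · intro i f hf
    obtain ⟨g, hg, hfg⟩ := mem_cellsF.1 hf
    exact (mem_filter.1 hg).2 f hfg

/-- The probability of the three tubes. -/
theorem pr_tub3 {c₀ : ℝ} (h0 : 0 < c₀) (h1 : c₀ ≤ 1)
    (htub : ∀ w c : ℤ, 2 ≤ w → ∀ G : Finset (ℤ × ℤ), (∀ g ∈ G, CellOk g) →
      c₀ ^ G.card ≤ pr (cellsF w G) (Tub w c G)) {K : ℕ} (hm : 2 ≤ m)
    {G : Fin 3 → Finset (ℤ × ℤ)} (hok : ∀ i, ∀ g ∈ G i, CellOk g)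
    (hdis : ∀ i j, i ≠ j → Disjoint (G i) (G j)) (hK : ∀ i, (G i).card ≤ K)
    (hW : ∀ i, ∀ f ∈ cellsF m (G i), f ∈ BW w) :
    (c₀ ^ K) ^ 3 ≤ pr (BW w) {ξ | ∀ i : Fin 3, ξ ∈ Tub m (0 + ((i : ℕ) : ℤ)) (G i)} := by
  classical
  set A : Fin 3 → Set Cfg := fun i => Tub m (0 + ((i : ℕ) : ℤ)) (G i) with hA
  have hdep : ∀ i, DepOn (cellsF m (G i) : Set (ℤ × ℤ)) (A i) := fun i => depOn_tub (hok i)
  have hp : ∀ i, c₀ ^ K ≤ pr (cellsF m (G i)) (A i) := fun i =>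
    (pow_le_pow_of_le_one h0.le h1 (hK i)).trans (htub m _ hm (G i) (hok i))
  have hd : ∀ i j, i ≠ j → Disjoint (cellsF m (G i)) (cellsF m (G j)) := fun i j hij =>
    disjoint_cellsF hm (hok i) (hok j) (hdis i j hij)
  have hdep01 : DepOn ((cellsF m (G 0) ∪ cellsF m (G 1) : Finset (ℤ × ℤ)) : Set (ℤ × ℤ))
      (A 0 ∩ A 1) := by
    intro ω ω' h
    exact and_congr (hdep 0 ω ω' fun f hf => h f (by
      rw [Finset.coe_union]; exact Or.inl hf)) (hdep 1 ω ω' fun f hf => h f (by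
      rw [Finset.coe_union]; exact Or.inr hf))
  have hdep012 : DepOn (((cellsF m (G 0) ∪ cellsF m (G 1)) ∪ cellsF m (G 2) :
      Finset (ℤ × ℤ)) : Set (ℤ × ℤ)) ((A 0 ∩ A 1) ∩ A 2) := by
    intro ω ω' h
    exact and_congr (hdep01 ω ω' fun f hf => h f (by
      rw [Finset.coe_union]; exact Or.inl hf)) (hdep 2 ω ω' fun f hf => h f (by
      rw [Finset.coe_union]; exact Or.inr hf))
  have e1 := pr_inter_of_disjoint (hdep 0) (hdep 1) (hd 0 1 (by decide))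
  have e2 := pr_inter_of_disjoint hdep01 (hdep 2) (disjoint_union_left.2
    ⟨hd 0 2 (by decide), hd 1 2 (by decide)⟩)
  have e3 : pr (BW w) ((A 0 ∩ A 1) ∩ A 2) = _ := pr_eq_of_depOn hdep012 (by
    intro f hf
    rcases Finset.mem_union.1 hf with hf | hf
    · rcases Finset.mem_union.1 hf with hf | hf
      · exact hW 0 f hf
      · exact hW 1 f hf
    · exact hW 2 f hf)
  have e4 : ({ξ | ∀ i : Fin 3, ξ ∈ Tub m (0 + ((i : ℕ) : ℤ)) (G i)} : Set Cfg) =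
      (A 0 ∩ A 1) ∩ A 2 := by
    ext ξ
    constructor
    · intro h
      exact ⟨⟨h 0, h 1⟩, h 2⟩
    · rintro ⟨⟨a0, a1⟩, a2⟩ i
      fin_cases i
      · exact a0
      · exact a1
      · exact a2
  rw [e4, e3, e2, e1]
  have hc : 0 ≤ c₀ ^ K := by positivity
  calc (c₀ ^ K) ^ 3 = c₀ ^ K * c₀ ^ K * c₀ ^ K := by ring
    _ ≤ _ := mul_le_mul (mul_le_mul (hp 0) (hp 1) hc (hc.trans (hp 0))) (hp 2) hc
      (mul_nonneg (hc.trans (hp 0)) (hc.trans (hp 1)))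

theorem tipI_congr (h : ∀ f ∈ An d w, ω f = ω' f) (i : Fin 3) (s : ℤ) :
    TipI d w ω T i s ↔ TipI d w ω' T i s := by
  unfold TipI
  rw [Orb_congr (ω := ω) (ω' := ω') (e := ine w (T i)) fun f hf => h f (Vis_sub hf)]

theorem depOn_sepI : DepOn (An d w) (SepI d w g T) := by
  intro ω ω' h
  unfold SepI
  simp only [Set.mem_ofPred_eq, tipI_congr h]

theorem rea_congr (h : ∀ f ∈ VUO d w T ω, ω f = ω' f) (i : Fin 3) :
    Rea d w ω (T i) ↔ Rea d w ω' (T i) := by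
  unfold Rea
  rw [Orb_congr (ω := ω) (ω' := ω') (e := ine w (T i)) fun f hf => h f ⟨i, hf⟩]

/-- Independence of the annulus and the inner box. -/
theorem pr_sepI_sep3 {g' : ℤ} (hrd : r ≤ d) (hdw : d ≤ w) :
    pr (BW w) (SepI d w g T ∩ Sep3 r g') = pr (BW w) (SepI d w g T) * pr (BW r) (Sep3 r g') := by
  classical
  have hA : DepOn ((BW w \ BW d : Finset (ℤ × ℤ)) : Set (ℤ × ℤ)) (SepI d w g T) := by
    rw [Finset.coe_sdiff]
    exact depOn_sepI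
  have hB := depOn_sep3 r g'
  have hd : Disjoint (BW w \ BW d) (BW r) := by
    rw [Finset.disjoint_left]
    intro f hf hf'
    exact (Finset.mem_sdiff.1 hf).2 (Finset.mem_coe.1 (BW_mono hrd (Finset.mem_coe.2 hf')))
  have e1 := pr_inter_of_disjoint hA hB hd
  have e2 : pr (BW w) (SepI d w g T) = pr (BW w \ BW d) (SepI d w g T) :=
    pr_eq_of_depOn hA sdiff_subset
  have e3 : pr (BW w) (SepI d w g T ∩ Sep3 r g') =
      pr ((BW w \ BW d) ∪ BW r) (SepI d w g T ∩ Sep3 r g') := by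
    refine pr_eq_of_depOn ?_ ?_
    · intro ω ω' h
      exact and_congr (hA ω ω' fun f hf => h f (by
        rw [Finset.coe_union]; exact Or.inl hf)) (hB ω ω' fun f hf => h f (by
        rw [Finset.coe_union]; exact Or.inr hf))
    · refine Finset.union_subset sdiff_subset ?_
      intro f hf
      exact Finset.mem_coe.1 (BW_mono (hrd.trans hdw) (Finset.mem_coe.2 hf))
  rw [e3, e1, e2]

theorem sepI_empty (hg : d < g) : SepI d w g T = ∅ := by
  rw [Set.eq_empty_iff_forall_notMem]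
  rintro ω ⟨s, h1, -⟩
  obtain ⟨⟨a1, a2, -⟩, a3⟩ := h1 0
  have b := fun z hz => a3 z hz
  unfold spec at b
  simp only [List.mem_cons, List.not_mem_nil, or_false, forall_eq_or_imp, forall_eq, le_abs] at b
  omega

end T2G

open T2G in
/-- Gluing of the strands of the annulus with the legs of the core. -/
theorem glueIn_of (hR : RoutesP)
    (hS : ∃ (M : ℕ) (c : ℝ), 0 < M ∧ 0 < c ∧ ∀ g R : ℕ, 1 ≤ g → M * g ≤ R →
      c * (R : ℝ) ^ (-(2 / 3 : ℝ)) ≤ pr (BW R) (Sep3 R g)) : GlueInP := by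
  classical
  intro K
  obtain ⟨M, c, hM, hc, hsep⟩ := hS
  obtain ⟨c₀, hc0, hc1, htub⟩ := pr_tub
  obtain ⟨Kc, hdat⟩ := exists_datA hR (600 * K * M)
  refine ⟨(c * (c₀ ^ Kc) ^ 3)⁻¹, 900 * M + 15, by positivity, fun g d w hg hd hdK hdw T hT => ?_⟩
  have hdpos : (0 : ℝ) < d := by exact_mod_cast hd
  have hdp : 0 ≤ (d : ℝ) ^ (-(2 / 3 : ℝ)) := Real.rpow_nonneg hdpos.le _
  rcases Nat.lt_or_ge d g with hgd | hgd
  · rw [sepI_empty (by exact_mod_cast hgd)]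
    have : pr (BW (w : ℤ)) (∅ : Set Cfg) = 0 := by
      rw [ProbA.pr_eq_sum]
      simp
    rw [this, zero_mul]
    exact mul_nonneg (by positivity) (pr_nonneg _ _)
  set m : ℕ := g / (300 * M) with hm
  have hm1 : 300 * M * m ≤ g := Nat.mul_div_le g (300 * M)
  have hm2 : g < 300 * M * (m + 1) := Nat.lt_mul_div_succ g (by omega)
  have hm3 : 3 ≤ m := (Nat.le_div_iff_mul_le (by omega)).2 (by omega)
  have hMm : m ≤ M * m := Nat.le_mul_of_pos_left m hM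
  have hm4 : 300 * (M * m) ≤ g := by rw [← mul_assoc]; exact hm1
  set r : ℕ := d / 4 with hr
  have hr1 : 60 * m ≤ r := by omega
  have hr2 : r + 60 * m ≤ d := by omega
  have hr3 : M * (20 * m) ≤ r := by
    have : M * (20 * m) = 20 * (M * m) := by ring
    omega
  have hdN : d ≤ 600 * K * M * m := by
    have h1 : g ≤ 300 * M * (m + m) :=
      hm2.le.trans (Nat.mul_le_mul_left _ (by omega))
    calc d ≤ K * g := hdK
      _ ≤ K * (300 * M * (m + m)) := Nat.mul_le_mul_left _ h1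
      _ = 600 * K * M * m := by ring
  have hdw3 : d + 3 * m ≤ w := by omega
  -- the data
  have hex : ∀ ω : Cfg, ω ∈ SepI d w g T ∩ Sep3 r ((20 * m : ℕ) : ℤ) →
      ∃ t s G, DatA m r d w Kc T ω t s G := by
    rintro ω ⟨h1, h2⟩
    obtain ⟨s, s1, s2⟩ := sepI_tips (m := (m : ℤ)) (by omega) (by omega) h1
    obtain ⟨t, t1, t2⟩ := sep3_tips (m := (m : ℤ)) (by omega) (by omega) h2
    obtain ⟨G, hG⟩ := hdat m r d w (by exact_mod_cast hm3) (by exact_mod_cast hr1)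
      (by exact_mod_cast hr2) (by exact_mod_cast hdN) (by exact_mod_cast hdw3) T ω t s t1 s1 t2 s2
    exact ⟨t, s, G, hG⟩
  let B : Cfg → Set Cfg := fun ω =>
    if h : ∃ t s G, DatA m r d w Kc T ω t s G then
      {ξ | ∀ i : Fin 3, ξ ∈ Tub m (0 + ((i : ℕ) : ℤ)) (h.choose_spec.choose_spec.choose i)}
    else ∅
  have key := PercT.pr_mix (W := BW (w : ℤ)) (S := fun ω => VUL r ω ∪ VUO d w T ω)
    (c := (c₀ ^ Kc) ^ 3)
    (by
      intro ω ω' h
      have h1 : VUL r ω' = VUL r ω := Cyl3.vul_congr fun f hf => h f (Or.inl hf)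
      have h2 : VUO d w T ω' = VUO d w T ω := VU_congr fun f hf => h f (Or.inr hf)
      simp only [h1, h2]) (SepI d w g T ∩ Sep3 r ((20 * m : ℕ) : ℤ)) B (Rea3 d w T ∩ Arm3 w)
    (by
      intro ω hω
      have h := hex _ hω
      simp only [B]
      rw [dif_pos h]
      have hD := h.choose_spec.choose_spec.choose_spec
      exact pr_tub3 hc0 hc1 htub (by omega) hD.walls.ok hD.walls.disj hD.card hD.inW)
    (by
      intro ω hω ξ hξ
      have h := hex _ hω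
      simp only [B] at hξ
      rw [dif_pos h] at hξ
      have hD := h.choose_spec.choose_spec.choose_spec
      set ζ := PercT.mix (VUL r ω ∪ VUO d w T ω) ω ξ with hζ
      have v1 : ∀ f ∈ VUL r ω, ζ f = ω f := fun f hf => PercT.mix_of_mem (Or.inl hf)
      have v2 : ∀ f ∈ VUO d w T ω, ζ f = ω f := fun f hf => PercT.mix_of_mem (Or.inr hf)
      refine ⟨fun i => ?_, ?_⟩
      · refine (rea_congr (fun f hf => (v2 f hf).symm) i).1 ?_
        obtain ⟨s, hs, -⟩ := hω.1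
        exact ⟨s i, (hs i).1⟩
      · refine link_arm (m := (m : ℤ)) (r := (r : ℤ)) (d := (d : ℤ)) (w := (w : ℤ)) (b := 0)
          (by omega) (by omega) (by omega) (by omega) hT hD.tp hD.sp hD.tip hD.stip hD.walls
          hξ v1 v2 fun f hf hf' => PercT.mix_of_notMem ?_
        rintro (h1 | h1)
        · exact hf h1
        · exact hf' h1)
  rw [pr_sepI_sep3 (by omega) (by omega)] at key
  have k1 := hsep (20 * m) r (by omega) hr3
  have hrpos : (0 : ℝ) < r := by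
    have : 0 < r := by omega
    exact_mod_cast this
  have k2 : (d : ℝ) ^ (-(2 / 3) : ℝ) ≤ (r : ℝ) ^ (-(2 / 3) : ℝ) :=
    Real.rpow_le_rpow_of_nonpos hrpos (by exact_mod_cast (by omega : r ≤ d)) (by norm_num)
  have k3 : c * (d : ℝ) ^ (-(2 / 3) : ℝ) ≤ pr (BW r) (Sep3 r ((20 * m : ℕ) : ℤ)) :=
    (mul_le_mul_of_nonneg_left k2 hc.le).trans k1
  have hcc : 0 < (c₀ ^ Kc) ^ 3 := by positivity
  have hP := pr_nonneg (BW (w : ℤ)) (SepI d w g T)
  have k4 : (c₀ ^ Kc) ^ 3 * (pr (BW (w : ℤ)) (SepI d w g T) * (c * (d : ℝ) ^ (-(2 / 3) : ℝ))) ≤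
      pr (BW (w : ℤ)) (Rea3 d w T ∩ Arm3 w) :=
    le_trans (mul_le_mul_of_nonneg_left (mul_le_mul_of_nonneg_left k3 hP) hcc.le) key
  rw [inv_mul_eq_div, le_div_iff₀ (by positivity)]
  calc _ = (c₀ ^ Kc) ^ 3 * (pr (BW (w : ℤ)) (SepI d w g T) * (c * (d : ℝ) ^ (-(2 / 3) : ℝ))) := by
        ring
    _ ≤ _ := k4

end Pool.Agent.Perc.Q

end Partperc3T2Glue

section Partperc3S2Top

/-!
# The three legs of the core: the exponent (S2)
-/

set_option autoImplicit false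

namespace Pool.Agent.Perc.Q

open Finset Pool.Agent.Perc

theorem glue3_top (hP : PortsP) : Glue3 := glue3_of linkP hP

/-- The upper bound for the three legs. -/
theorem q3_upper_top (hP : PortsP) :
    ∃ C : ℝ, 0 < C ∧ ∀ R : ℕ, 1 ≤ R → q3 R ≤ C * (R : ℝ) ^ (-(2 / 3 : ℝ)) :=
  q3_upper closeOut specOut (glue3_top hP) tips3 arm3Anti

/-- Three legs with separated tips. -/
theorem sep3_lower_top (hP : PortsP) :
    ∃ M : ℕ, ∃ c : ℝ, 0 < M ∧ 0 < c ∧ ∀ g R : ℕ, 1 ≤ g → M * g ≤ R →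
      c * (R : ℝ) ^ (-(2 / 3 : ℝ)) ≤ pr (BW R) (Sep3 R g) :=
  sep3_lower closeOut specOut (glue3_top hP) tips3 arm3Anti

end Pool.Agent.Perc.Q

end Partperc3S2Top

section PartoccZJ

/-!
# Row ZJ: translations
-/

set_option autoImplicit false

namespace Pool.Agent.Occ

open Finset Pool.Agent.Perc Pool.Agent.Perc3 Pool.Agent.PercD Pool.Agent.Perc6

namespace ZJAux

variable {ω : Cfg} {a b col x y M q e s : ℤ} {z : ℤ × ℤ}

/-- Translation of a point. -/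
def sh (a b : ℤ) (p : ℤ × ℤ) : ℤ × ℤ := (p.1 + a, p.2 + b)

theorem rfs (x₀ x₁ y₀ y₁ a b : ℤ) :
    {f : ℤ × ℤ | (f.1 - a, f.2 - b) ∈ (RF x₀ x₁ y₀ y₁ : Set (ℤ × ℤ))} =
      (RF (x₀ + a) (x₁ + a) (y₀ + b) (y₁ + b) : Set (ℤ × ℤ)) := by
  ext f
  simp only [RF, Set.mem_ofPred_eq, Finset.coe_product, Set.mem_prod, Finset.coe_Ico, Set.mem_Ico]
  constructor
  · rintro ⟨⟨h1, h2⟩, h3, h4⟩
    exact ⟨⟨by linarith, by linarith⟩, by linarith, by linarith⟩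
  · rintro ⟨⟨h1, h2⟩, h3, h4⟩
    exact ⟨⟨by linarith, by linarith⟩, by linarith, by linarith⟩

theorem conn_sh {p t : ℤ × ℤ} :
    Conn (shiftC a b ω) (RF (x - a) (x - a + s) (y - b) (y - b + s)) p t ↔
      Conn ω (RF x (x + s) y (y + s)) (sh a b p) (sh a b t) := by
  rw [conn_shift, rfs]
  have e1 : x - a + a = x := by ring
  have e2 : x - a + s + a = x + s := by ring
  have e3 : y - b + b = y := by ring
  have e4 : y - b + s + b = y + s := by ring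
  rw [e1, e2, e3, e4]
  rfl

theorem par_sh (hcol : col = 0 ∨ col = 1) (p : ℤ × ℤ) :
    par p = (col + a + b) % 2 ↔ par (sh a b p) = col := by
  unfold par sh
  dsimp only
  constructor
  · intro h
    rcases hcol with rfl | rfl <;> omega
  · intro h
    rcases hcol with rfl | rfl <;> omega

theorem sh_neg (p : ℤ × ℤ) : sh a b (p.1 - a, p.2 - b) = p := by
  unfold sh
  ext <;> simp

theorem rim_sh {p : ℤ × ℤ} (h : Rim ω x y s p) :
    Rim (shiftC a b ω) (x - a) (y - b) s (p.1 - a, p.2 - b) := by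
  obtain ⟨t, h1, h2⟩ := h
  refine ⟨(t.1 - a, t.2 - b), ?_, ?_⟩
  · rw [conn_sh, sh_neg, sh_neg]
    exact h1
  · dsimp only
    omega

theorem free_sh (hcol : col = 0 ∨ col = 1) {t : ℤ × ℤ}
    (h : FreeSq (shiftC a b ω) ((col + a + b) % 2) (x - a) (y - b) s e t) :
    FreeSq ω col x y s e t := by
  obtain ⟨h1, h2⟩ := h
  refine ⟨h1, fun p hp1 hp2 hp3 hp4 hpc hr => ?_⟩
  refine h2 (p.1 - a, p.2 - b) (by dsimp only; linarith) (by dsimp only; linarith)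
    (by dsimp only; linarith) (by dsimp only; linarith) ?_ (rim_sh hr)
  rw [par_sh hcol, sh_neg]
  exact hpc

theorem seen_sh (hcol : col = 0 ∨ col = 1)
    (h : Seen (shiftC a b ω) ((col + a + b) % 2) (x - a) (y - b) M q e z) :
    Seen ω col x y M q e z := by
  obtain ⟨t, t', h1, h2, h3, h4⟩ := h
  refine ⟨t, t', h1, h2, free_sh hcol h3, ?_⟩
  clear h2
  induction h4 with
  | refl => exact Relation.ReflTransGen.refl
  | tail _ h ih =>
    obtain ⟨h5, h6, h7⟩ := h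
    exact Relation.ReflTransGen.tail ih ⟨h5, free_sh hcol h6, free_sh hcol h7⟩

theorem inCell_sh {p : ℤ × ℤ} (h : InCell (x - a) (y - b) M q e z p) :
    InCell x y M q e z (sh a b p) := by
  obtain ⟨h1, h2, h3, h4⟩ := h
  refine ⟨?_, ?_, ?_, ?_⟩ <;> unfold sh <;> dsimp only <;> linarith

theorem joins_sh {d : UE} {p p' : ℤ × ℤ} (h : Joins d p p') :
    Joins (d.1 + a, d.2.1 + b, d.2.2) (sh a b p) (sh a b p') := by
  have e1 : ua (d.1 + a, d.2.1 + b, d.2.2) = sh a b (ua d) := rfl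
  have e2 : ub (d.1 + a, d.2.1 + b, d.2.2) = sh a b (ub d) := by
    obtain ⟨u, v, w⟩ := d
    unfold ub sh
    rcases w with _ | _
    · ext
      · dsimp; ring
      · rfl
    · ext
      · rfl
      · dsimp; ring
  unfold Joins
  rw [e1, e2]
  rcases h with ⟨rfl, rfl⟩ | ⟨rfl, rfl⟩
  · exact Or.inl ⟨rfl, rfl⟩
  · exact Or.inr ⟨rfl, rfl⟩

end ZJAux

theorem occAt_shift {ω : Cfg} {a b col x y M q e : ℤ} {z : ℤ × ℤ} (hcol : col = 0 ∨ col = 1)
    (h : OccAt (shiftC a b ω) ((col + a + b) % 2) (x - a) (y - b) M q e z) :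
    OccAt ω col x y M q e z := by
  obtain ⟨⟨d, p, p', h1, h2, h3, h4, ⟨t, h5, h6⟩, ⟨t', h7, h8⟩⟩, h9⟩ := h
  refine ⟨⟨_, ZJAux.sh a b p, ZJAux.sh a b p', ZJAux.joins_sh h1, (ZJAux.par_sh hcol p).1 h2,
    ZJAux.inCell_sh h3, ZJAux.inCell_sh h4, ⟨ZJAux.sh a b t, ZJAux.conn_sh.1 h5, ?_⟩,
    ⟨ZJAux.sh a b t', ZJAux.conn_sh.1 h7, ?_⟩⟩, ZJAux.seen_sh hcol h9⟩
  · show t.2 + b = _
    rw [h6]
    ring
  · show t'.2 + b = _
    rw [h8]
    ring

/-- Translation invariance of the measure for events of a window. -/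
theorem pr_shiftC {W W' : Finset (ℤ × ℤ)} {X : Set Cfg} {a b : ℤ}
    (hX : DepOn (W : Set (ℤ × ℤ)) X) (hW : ∀ f ∈ W, (f.1 + a, f.2 + b) ∈ W') :
    pr W' {ω | shiftC a b ω ∈ X} = pr W X :=
  TwoArm.pr_shift hX a b hW

end Pool.Agent.Occ

end PartoccZJ
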