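import Pool.Agent.Lib.MP_6bd702_zc.Pre
import Pool.Agent.Lib.MP_6bd702_zc.Y010
import Pool.Agent.Lib.MP_6bd702_zc.Y037
import Pool.Agent.Lib.MP_6bd702_zc.Y028
import Pool.Agent.Lib.MP_6bd702_zc.Y007

section Partperc6BcTag

/-!
# The largest cluster has a tag in the bulk
-/

set_option autoImplicit false

namespace Pool.Agent.PercBc

open Relation
open Pool.Agent.Perc Pool.Agent.PercD Pool.Agent.Perc6
open Pool.Agent.PercX60 (Sn)

variable {n : ℕ} {ω : Cfg} {u : ℤ × ℤ} {h w D Δ κ R μ : ℤ}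

/-- A long horizontal connection in a strip (as in the upper bound). -/
def LongH (x l : ℤ) (F : Set (ℤ × ℤ)) : Set Cfg :=
  {ω | ∃ a b : ℤ × ℤ, a.1 ≤ x ∧ x + l ≤ b.1 ∧ Conn ω F a b}

/-- The faces of a horizontal strip. -/
def Strip (y₀ y₁ : ℤ) : Set (ℤ × ℤ) := {f | y₀ ≤ f.2 ∧ f.2 < y₁}

/-- A connection whose vertices are in the strip uses the faces of the strip. -/
theorem conn_strip {F : Set (ℤ × ℤ)} {a b : ℤ × ℤ} {y₀ y₁ : ℤ}
    (hC : ∀ c, Conn ω F a c → y₀ ≤ c.2 ∧ c.2 ≤ y₁) (hab : Conn ω F a b) :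
    Conn ω (Strip y₀ y₁) a b := by
  induction hab with
  | refl => exact .refl
  | @tail c d hac hb ih =>
    refine ih.tail ?_
    have h1 := hC c hac
    have h2 := hC d (hac.tail hb)
    obtain ⟨x, y, -, hh⟩ := hb
    refine ⟨x, y, ?_, hh⟩
    show y₀ ≤ y ∧ y < y₁
    rcases hh with ⟨-, ⟨rfl, rfl⟩ | ⟨rfl, rfl⟩⟩ | ⟨-, ⟨rfl, rfl⟩ | ⟨rfl, rfl⟩⟩ <;>
      simp only at h1 h2 <;> omega

/-- The heights of the vertices of a connection. -/
theorem conn_height {F : Set (ℤ × ℤ)} {a b : ℤ × ℤ} (hab : Conn ω F a b) (h1 : a.2 ≤ h)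
    (h2 : h ≤ b.2) : ∃ c, Conn ω F a c ∧ c.2 = h := by
  induction hab with
  | refl => exact ⟨a, .refl, by omega⟩
  | @tail c d hac hb ih =>
    by_cases hc : h ≤ c.2
    · exact ih hc
    · refine ⟨d, hac.tail hb, ?_⟩
      obtain ⟨x, y, -, hh⟩ := hb
      rcases hh with ⟨-, ⟨rfl, rfl⟩ | ⟨rfl, rfl⟩⟩ | ⟨-, ⟨rfl, rfl⟩ | ⟨rfl, rfl⟩⟩ <;>
        simp only at h2 hc ⊢ <;> omega

/-- The vertical extent of the cluster is large. -/
theorem exists_tall {N J : ℕ} (hu : u ∈ Box n) (hΔ : 0 < Δ) (hJ : (n : ℤ) ≤ 2 * J * Δ)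
    (hJ1 : 1 ≤ J)
    (hD : 6 * Δ * (N + 2) ≤ D) (hD0 : 0 < D)
    (hdiam : (D : ℝ) ≤ Metric.diam (clS (cfgE n ω) u))
    (hlong : ∀ j ∈ Finset.Icc (-(2 * J : ℤ)) (2 * J), ∀ k ∈ Finset.Icc (0 : ℤ) J,
      ω ∉ LongH (6 * Δ * k) (6 * Δ * N) (Strip (j * Δ) (j * Δ + 6 * Δ))) :
    ∃ a ∈ CL n ω u, ∃ b ∈ CL n ω u, a.2 + 4 * Δ ≤ b.2 := by
  by_contra hcon
  push Not at hcon
  obtain ⟨lo, hlo, hmin⟩ := Set.exists_min_image (CL n ω u) (fun c => c.2) (CL_finite hu)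
    CL_nonempty
  have hj0 : (lo.2 / Δ) * Δ ≤ lo.2 := Int.ediv_mul_le _ hΔ.ne'
  have hj1 : lo.2 < (lo.2 / Δ) * Δ + Δ := Int.lt_ediv_add_one_mul_self lo.2 hΔ |>.trans_eq (by ring)
  have hdl := CL_diamond hu hlo
  have hab1 := abs_nonneg (lo.1 - n)
  have hab2 := neg_abs_le lo.2
  have hab3 := le_abs_self lo.2
  have hj : lo.2 / Δ ∈ Finset.Icc (-(2 * J : ℤ)) (2 * J) := by
    rw [Finset.mem_Icc]
    constructor
    · rw [Int.le_ediv_iff_mul_le hΔ]
      nlinarith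
    · have : lo.2 / Δ < 2 * J + 1 := by
        rw [Int.ediv_lt_iff_lt_mul hΔ]
        nlinarith
      omega
  have key : ∀ a ∈ CL n ω u, ∀ b ∈ CL n ω u, a.1 ≤ b.1 →
      (D : ℝ) < ((|a.1 - b.1| + |a.2 - b.2| : ℤ) : ℝ) → False := by
    intro a ha b hb hab hd
    have hd' : D < |a.1 - b.1| + |a.2 - b.2| := by exact_mod_cast hd
    have h1 := hcon a ha b hb
    have h2 := hcon b hb a ha
    have h3 : |a.2 - b.2| < 4 * Δ := by rw [abs_lt]; omega
    rw [abs_of_nonpos (by omega : a.1 - b.1 ≤ 0)] at hd'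
    have hda := CL_diamond hu ha
    have hda1 := neg_abs_le (a.1 - n)
    have hda2 := abs_nonneg a.2
    have hda3 := le_abs_self (a.1 - n)
    have h6 : 0 < 6 * Δ := by omega
    -- the grid point
    set k : ℤ := -((-a.1) / (6 * Δ)) with hk
    have hk1 : (-a.1) / (6 * Δ) * (6 * Δ) ≤ -a.1 := Int.ediv_mul_le _ h6.ne'
    have hk2 : -a.1 < (-a.1) / (6 * Δ) * (6 * Δ) + 6 * Δ :=
      (Int.lt_ediv_add_one_mul_self (-a.1) h6).trans_eq (by ring)
    have hk3 : a.1 ≤ 6 * Δ * k := by rw [hk]; linarith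
    have hk4 : 6 * Δ * k < a.1 + 6 * Δ := by rw [hk]; linarith
    have hkm : k ∈ Finset.Icc (0 : ℤ) J := by
      rw [Finset.mem_Icc]
      constructor
      · by_contra hc
        have : 6 * Δ * k ≤ 6 * Δ * (-1) := mul_le_mul_of_nonneg_left (by omega) (by omega)
        omega
      · by_contra hc
        have h7 : 6 * Δ * ((J : ℤ) + 1) ≤ 6 * Δ * k := mul_le_mul_of_nonneg_left (by omega) (by omega)
        have h8 : a.1 ≤ 2 * n := by omega
        have h9 : 6 * Δ * ((J : ℤ) + 1) = 6 * (J * Δ) + 6 * Δ := by ring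
        have h10 : (2 : ℤ) * J * Δ = 2 * (J * Δ) := by ring
        have h11 : 0 < (J : ℤ) * Δ := by positivity
        omega
    refine hlong _ hj k hkm ⟨a, b, hk3, ?_, ?_⟩
    · have h12 : 6 * Δ * (N + 2) = 6 * Δ * N + 12 * Δ := by ring
      rw [h12] at hD
      omega
    · refine conn_strip (F := Sn n) (fun c hc => ?_) (CL_conn ha hb)
      have hcC := CL_of_conn ha hc
      have h13 := hmin c hcC
      have h14 := hcon lo hlo c hcC
      omega
  obtain ⟨a, ha, b, hb, hd⟩ := exists_far (by exact_mod_cast hD0 : (0 : ℝ) < D) hdiam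
  rcases le_total a.1 b.1 with h1 | h1
  · exact key a ha b hb h1 hd
  · refine key b hb a ha h1 ?_
    rwa [abs_sub_comm b.1, abs_sub_comm b.2]

/-- The cluster meets one of the bands. -/
theorem exists_band {J : ℕ} (hu : u ∈ Box n) (hΔ : 0 < Δ) (hJ : (n : ℤ) ≤ 2 * J * Δ)
    (htall : ∃ a ∈ CL n ω u, ∃ b ∈ CL n ω u, a.2 + 4 * Δ ≤ b.2) :
    ∃ i ∈ Finset.Icc (-(2 * J : ℤ)) (2 * J), |i * Δ| ≤ n - Δ ∧ ∃ c ∈ CL n ω u, c.2 = i * Δ := by
  obtain ⟨a, ha, b, hb, hab⟩ := htall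
  have h1 : (a.2 / Δ) * Δ ≤ a.2 := Int.ediv_mul_le _ hΔ.ne'
  have h2 : a.2 < (a.2 / Δ) * Δ + Δ := (Int.lt_ediv_add_one_mul_self a.2 hΔ).trans_eq (by ring)
  have hda := CL_diamond hu ha
  have hdb := CL_diamond hu hb
  have a1 := abs_nonneg (a.1 - n)
  have a2 := neg_abs_le a.2
  have b1 := abs_nonneg (b.1 - n)
  have b2 := le_abs_self b.2
  set i : ℤ := a.2 / Δ + 2 with hi
  have e : i * Δ = (a.2 / Δ) * Δ + 2 * Δ := by rw [hi]; ring
  have hiΔ : |i * Δ| ≤ n - Δ := by rw [abs_le]; omega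
  refine ⟨i, ?_, hiΔ, ?_⟩
  · rw [abs_le] at hiΔ
    rw [Finset.mem_Icc]
    constructor
    · by_contra hc
      have : i * Δ ≤ (-(2 * J) - 1) * Δ := mul_le_mul_of_nonneg_right (by omega) hΔ.le
      nlinarith [hiΔ.1]
    · by_contra hc
      have : (2 * J + 1) * Δ ≤ i * Δ := mul_le_mul_of_nonneg_right (by omega) hΔ.le
      nlinarith [hiΔ.2]
  · obtain ⟨c, hc, hc2⟩ := conn_height (h := i * Δ) (CL_conn ha hb) (by omega) (by omega)
    exact ⟨c, CL_of_conn ha hc, hc2⟩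

/-- The rightmost, then topmost vertex of the cluster in the band. -/
theorem exists_right (hu : u ∈ Box n) (hw : 0 ≤ w) (hb : ∃ c ∈ CL n ω u, c.2 = h) :
    ∃ X ∈ CL n ω u, (h - w ≤ X.2 ∧ X.2 ≤ h + w) ∧
      ∀ c ∈ CL n ω u, h - w ≤ c.2 → c.2 ≤ h + w → c.1 < X.1 ∨ (c.1 = X.1 ∧ c.2 ≤ X.2) := by
  set S : Set (ℤ × ℤ) := {c | c ∈ CL n ω u ∧ h - w ≤ c.2 ∧ c.2 ≤ h + w} with hS
  have hSf : S.Finite := (CL_finite hu).subset fun c hc => hc.1
  have hSn : S.Nonempty := by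
    obtain ⟨c, hc, h1⟩ := hb
    exact ⟨c, hc, by omega, by omega⟩
  obtain ⟨X, hX, hmax⟩ := Set.exists_max_image S (fun c => toLex c) hSf hSn
  refine ⟨X, hX.1, hX.2, fun c hc h1 h2 => ?_⟩
  have := hmax c ⟨hc, h1, h2⟩
  rwa [Prod.Lex.toLex_le_toLex] at this

/-- A vertex of the cluster outside a small box. -/
theorem exists_out (hD0 : 0 < D) (hdiam : (D : ℝ) ≤ Metric.diam (clS (cfgE n ω) u))
    (hR : 4 * R ≤ D) (p : ℤ × ℤ) : ∃ c ∈ CL n ω u,
      ¬ (p.1 - R < c.1 ∧ c.1 < p.1 + R ∧ p.2 - R < c.2 ∧ c.2 < p.2 + R) := by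
  obtain ⟨a, ha, b, hb, hd⟩ := exists_far (by exact_mod_cast hD0 : (0 : ℝ) < D) hdiam
  have hd' : D < |a.1 - b.1| + |a.2 - b.2| := by exact_mod_cast hd
  by_contra hcon
  push Not at hcon
  have h1 : p.1 - R < a.1 ∧ a.1 < p.1 + R ∧ p.2 - R < a.2 ∧ a.2 < p.2 + R := by
    by_contra h; exact absurd (hcon a ha) (by tauto)
  have h2 : p.1 - R < b.1 ∧ b.1 < p.1 + R ∧ p.2 - R < b.2 ∧ b.2 < p.2 + R := by
    by_contra h; exact absurd (hcon b hb) (by tauto)
  rcases abs_cases (a.1 - b.1) with h3 | h3 <;> rcases abs_cases (a.2 - b.2) with h4 | h4 <;> omega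

/-- The rightmost vertex is in the bulk. -/
theorem bulk (hu : u ∈ Box n) (hD0 : 0 < D)
    (hdiam : (D : ℝ) ≤ Metric.diam (clS (cfgE n ω) u)) (hR : 4 * R ≤ D) (hwκ : w ≤ κ)
    (hκR : κ ≤ R) (harm1 : ω ∉ ArmB 0 (|h|, h) κ R) (harm2 : ω ∉ ArmB 0 (2 * n - |h|, h) κ R)
    {X : ℤ × ℤ} (hX : X ∈ CL n ω u) (hXb : h - w ≤ X.2 ∧ X.2 ≤ h + w) :
    |h| + κ ≤ X.1 ∧ X.1 ≤ 2 * n - |h| - κ := by
  have hdX := CL_diamond hu hX
  have x1 := neg_abs_le (X.1 - n)
  have x2 := le_abs_self (X.1 - n)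
  have hh : |h| - w ≤ |X.2| := by
    have := abs_sub_abs_le_abs_sub h X.2
    have h2 : |h - X.2| ≤ w := by rw [abs_le]; omega
    omega
  have hpar := CL_par hX
  have key : ∀ p : ℤ × ℤ, p.1 - κ ≤ X.1 → X.1 ≤ p.1 + κ → p.2 - κ ≤ X.2 → X.2 ≤ p.2 + κ →
      ω ∈ ArmB 0 p κ R := by
    intro p h1 h2 h3 h4
    obtain ⟨c, hc, hcout⟩ := exists_out (ω := ω) (u := u) (n := n) hD0 hdiam hR p
    obtain ⟨z, hz, hzb⟩ := (CL_conn hX hc).toBd (x₀ := p.1 - R) (x₁ := p.1 + R) (y₀ := p.2 - R)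
      (y₁ := p.2 + R) (by omega) hcout
    exact ⟨X, z, h1, h2, h3, h4, by omega, hzb, hz.mono Set.inter_subset_right⟩
  constructor
  · by_contra hcon
    exact harm1 (key _ (by simp only; omega) (by simp only; omega) (by simp only; omega)
      (by simp only; omega))
  · by_contra hcon
    exact harm2 (key _ (by simp only; omega) (by simp only; omega) (by simp only; omega)
      (by simp only; omega))

/-- **The tag in the bulk.** -/
theorem exists_tag {N J L : ℕ} (hu : u ∈ Box n) (hΔ : 0 < Δ) (hJ : (n : ℤ) ≤ 2 * J * Δ)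
    (hJ1 : 1 ≤ J) (hD : 6 * Δ * (N + 2) ≤ D) (hD0 : 0 < D)
    (hdiam : (D : ℝ) ≤ Metric.diam (clS (cfgE n ω) u))
    (hlong : ∀ j ∈ Finset.Icc (-(2 * J : ℤ)) (2 * J), ∀ k ∈ Finset.Icc (0 : ℤ) J,
      ω ∉ LongH (6 * Δ * k) (6 * Δ * N) (Strip (j * Δ) (j * Δ + 6 * Δ)))
    (hR : 4 * R ≤ D) (hw : 0 ≤ w) (hwκ : w ≤ κ) (hκR : κ ≤ R)
    (harm : ∀ i ∈ Finset.Icc (-(2 * J : ℤ)) (2 * J), ω ∉ ArmB 0 (|i * Δ|, i * Δ) κ R ∧
      ω ∉ ArmB 0 (2 * n - |i * Δ|, i * Δ) κ R)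
    (hμ : 0 < μ) (hμκ : 65 * μ ≤ κ) (hwμ : w ≤ 32 * μ) (hL : (n : ℤ) ≤ L * μ) :
    ∃ i ∈ Finset.Icc (-(2 * J : ℤ)) (2 * J), ∃ l ∈ Finset.Icc (0 : ℤ) L, ∃ X : ℤ × ℤ,
      |i * Δ| + κ + 2 * μ * l ≤ X.1 ∧ X.1 < |i * Δ| + κ + 2 * μ * l + 2 * μ ∧
      (i * Δ - w ≤ X.2 ∧ X.2 ≤ i * Δ + w) ∧ Tg n ω u (i * Δ) w X ∧
      ω ∈ TagEv (i * Δ) w (|i * Δ| + κ + 2 * μ * l + μ) (32 * μ) X ∧
      BR (|i * Δ| + κ + 2 * μ * l + μ, i * Δ) (32 * μ) ⊆ Sn n := by
  obtain ⟨i, hi, hiΔ, hc⟩ := exists_band hu hΔ hJ (exists_tall hu hΔ hJ hJ1 hD hD0 hdiam hlong)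
  obtain ⟨X, hX, hXb, hmax⟩ := exists_right (h := i * Δ) hu hw hc
  obtain ⟨hb1, hb2⟩ := bulk hu hD0 hdiam hR hwκ hκR (harm i hi).1 (harm i hi).2 hX hXb
  set H : ℤ := |i * Δ| with hH
  have hH0 : 0 ≤ H := abs_nonneg _
  set l : ℤ := (X.1 - H - κ) / (2 * μ) with hl
  have h2μ : 0 < 2 * μ := by omega
  have l1 : 2 * μ * l ≤ X.1 - H - κ := by
    have := Int.ediv_mul_le (X.1 - H - κ) h2μ.ne'
    rw [← hl] at this
    linarith
  have l2 : X.1 - H - κ < 2 * μ * l + 2 * μ := by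
    have := Int.lt_ediv_add_one_mul_self (X.1 - H - κ) h2μ
    rw [← hl] at this
    linarith
  have l3 : 0 ≤ l := Int.ediv_nonneg (by omega) (by omega)
  have l4 : l ≤ L := by
    by_contra hcon
    have h1 : 2 * μ * ((L : ℤ) + 1) ≤ 2 * μ * l := mul_le_mul_of_nonneg_left (by omega) (by omega)
    have h2 : 2 * μ * ((L : ℤ) + 1) = 2 * (L * μ) + 2 * μ := by ring
    omega
  have hsub : BR (H + κ + 2 * μ * l + μ, i * Δ) (32 * μ) ⊆ Sn n := by
    unfold BR
    dsimp only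
    refine sub_Sn ?_
    have h3 : |H + κ + 2 * μ * l + μ - n| ≤ n - H - κ + μ := by rw [abs_le]; omega
    rw [← hH]
    omega
  refine ⟨i, hi, l, Finset.mem_Icc.2 ⟨l3, l4⟩, X, by omega, by omega, hXb, ⟨hX, fun c hc h1 h2 => ?_⟩,
    ⟨?_, fun y hy h1 h2 => ?_⟩, hsub⟩
  · rcases hmax c hc h1 h2 with h3 | h3 <;> omega
  · obtain ⟨c, hc, hcout⟩ := exists_out (ω := ω) (u := u) (n := n) (R := 32 * μ) hD0 hdiam
      (by omega) (H + κ + 2 * μ * l + μ, i * Δ)
    obtain ⟨z, hz, hzb⟩ := (CL_conn hX hc).toBd (x₀ := H + κ + 2 * μ * l + μ - 32 * μ)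
      (x₁ := H + κ + 2 * μ * l + μ + 32 * μ) (y₀ := i * Δ - 32 * μ)
      (y₁ := i * Δ + 32 * μ) (by omega) hcout
    exact ⟨z, hz.mono Set.inter_subset_right, hzb⟩
  · exact hmax y (CL_of_conn hX (hy.mono (Finset.coe_subset.2 hsub))) h1 h2

end Pool.Agent.PercBc

end Partperc6BcTag

section PartoccZK

/-!
# Row ZK: the tubes together with the walls have positive probability
-/

set_option autoImplicit false

namespace Pool.Agent.Occ

open Finset Pool.Agent.Perc Pool.Agent.Perc3 Pool.Agent.PercD Pool.Agent.Perc6 Pool.Agent.PercL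

namespace ZKA

/-- The shifted event. -/
def Sh (a b : ℤ) (X : Set Cfg) : Set Cfg := {ξ | shiftC a b ξ ∈ X}

/-- The shifted set of faces. -/
noncomputable def shF (a b : ℤ) (F : Finset (ℤ × ℤ)) : Finset (ℤ × ℤ) :=
  F.image fun f => (f.1 + a, f.2 + b)

theorem mem_shF {a b : ℤ} {F : Finset (ℤ × ℤ)} {f : ℤ × ℤ} :
    f ∈ shF a b F ↔ (f.1 - a, f.2 - b) ∈ F := by
  unfold shF
  rw [mem_image]
  constructor
  · rintro ⟨g, hg, rfl⟩
    simpa using hg
  · intro h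
    exact ⟨_, h, by ext <;> simp⟩

theorem depOn_Sh {a b : ℤ} {F : Finset (ℤ × ℤ)} {X : Set Cfg} (h : DepOn (F : Set (ℤ × ℤ)) X) :
    DepOn (shF a b F : Set (ℤ × ℤ)) (Sh a b X) := by
  intro ω ω' hω
  refine h _ _ fun f hf => ?_
  refine hω _ ?_
  rw [mem_coe, mem_shF]
  simpa using hf

theorem incD_Sh {a b col : ℤ} {X : Set Cfg} (h : IncD (parD col) X) :
    IncD (parD (col + a + b)) (Sh a b X) := by
  intro ω ω' hle hω
  refine h _ _ (fun f => ?_) hω
  have := hle (f.1 + a, f.2 + b)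
  unfold Perc.flip parD shiftC at *
  have e : f.1 + a + (f.2 + b) - (col + a + b) = f.1 + f.2 - col := by ring
  simp only [e] at this
  exact this

/-- Events with a lower bound. -/
structure Gd (W : Finset (ℤ × ℤ)) (D : ℤ × ℤ → Bool) (δ : ℝ) (X : Set Cfg) : Prop where
  dep : DepOn (W : Set (ℤ × ℤ)) X
  inc : IncD D X
  low : δ ≤ pr W X

theorem Gd.inter {W : Finset (ℤ × ℤ)} {D : ℤ × ℤ → Bool} {δ δ' : ℝ} {X Y : Set Cfg}
    (hX : Gd W D δ X) (hY : Gd W D δ' Y) (hδ : 0 ≤ δ') : Gd W D (δ * δ') (X ∩ Y) where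
  dep := depOn_inter' hX.dep hY.dep
  inc := incD_inter' hX.inc hY.inc
  low := (mul_le_mul hX.low hY.low hδ (pr_nonneg _ _)).trans
    (harris D hX.dep hY.dep hX.inc hY.inc)

end ZKA

open ZKA

/-- The tubes of colour P (`col`) and D (`col + 1`) in the window shifted by `(a, b)`. -/
theorem pr_tubes (N Ni H : ℤ) : ∃ c : ℝ, 0 < c ∧ ∀ g : Par, g.N = N → g.Ni = Ni → g.Ok →
    ∀ (a b X₀ X₁ Y₀ Y₁ ya yb col : ℤ) (s : Fin 4) (i : ℤ), WinOk g X₀ X₁ Y₀ Y₁ →
    X₁ - X₀ ≤ H * g.A → Y₁ - Y₀ ≤ H * g.A → (ya, yb) ∈ Ports g.w → GateOk g i →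
    ∀ (W SP SD : Finset (ℤ × ℤ)) (P D : Set Cfg), SP ⊆ W → SD ⊆ W → Disjoint SP SD →
    DepOn SP P → DepOn SD D → IncD (parD (col + a + b)) P → IncD (parD (col + a + b + 1)) D →
    (∀ f ∈ RF X₀ X₁ Y₀ Y₁, (f.1 + a, f.2 + b) ∈ W) →
    (∀ f ∈ RF X₀ X₁ Y₀ Y₁, (f.1 + a, f.2 + b) ∈ SP → (g.N + 4) * g.A ≤ f.2) →
    (∀ f ∈ RF X₀ X₁ Y₀ Y₁, (f.1 + a, f.2 + b) ∈ SD → f.2 < -((g.N + 4) * g.A)) →
    c * (pr W P * pr W D) ≤ pr W ((P ∩ D) ∩ {ξ | shiftC a b ξ ∈ PS g col Y₁ ∧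
      shiftC a b ξ ∈ D1 g (col + 1) Y₀ ya ∧ shiftC a b ξ ∈ D2 g (col + 1) Y₀ yb ∧
      shiftC a b ξ ∈ TubeEv (col + 1) 0 0 g.Ai (RD g s i)}) := by
  classical
  set k : ℕ := max H.toNat 5 with hk
  obtain ⟨c₁, hc1, hL⟩ := rswF k
  obtain ⟨c₂, hc2, hB⟩ := rswF' k
  obtain ⟨δ, hδ, hT⟩ := pr_tube ((2 * Ni + 5).toNat * (2 * Ni + 5).toNat + 4)
  set c' := min c₁ c₂ with hc'
  have hc0 : 0 < c' := lt_min hc1 hc2
  refine ⟨c' * (c' * c' * c' * c' * (c' * c' * c' * c') * δ), by positivity, ?_⟩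
  intro g hgN hgNi hg a b X₀ X₁ Y₀ Y₁ ya yb col s i hW hX hY hp hgate W SP SD P D hSP hSD hdis hP hD
    hPi hDi hRW hRP hRD
  obtain ⟨hN1, hNi1, hn1, hσn, hσA, hAA⟩ := hg
  obtain ⟨w1, w2, w3, w4⟩ := hW
  have hAi : 1 ≤ g.Ai := by omega
  have hAiA : 104 * g.Ai ≤ g.A := le_trans (mul_le_mul_of_nonneg_right (by omega) (by omega)) hAA
  have hA : 104 ≤ g.A := by omega
  have hA0 : 0 < g.A := by omega
  -- products
  have q1 : (g.N + 1) * g.A = g.N * g.A + g.A := by ring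
  have q2 : (g.N + 2) * g.A = g.N * g.A + 2 * g.A := by ring
  have q3 : (g.N - 3) * g.A = g.N * g.A - 3 * g.A := by ring
  have q4 : (g.N + 4) * g.A = g.N * g.A + 4 * g.A := by ring
  have q5 : (g.N - 2) * g.A = g.N * g.A - 2 * g.A := by ring
  have q6 : (g.N - 20) * g.A = g.N * g.A - 20 * g.A := by ring
  have q7 : (g.N - 19) * g.A = g.N * g.A - 19 * g.A := by ring
  have q8 : 100 * g.A ≤ g.N * g.A := mul_le_mul_of_nonneg_right hN1 hA0.le
  -- rows of the ports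
  have hw : g.w = g.N * g.A := rfl
  have hp' : 0 ≤ ya ∧ g.N * g.A ≤ 4 * ya ∧ 2 * ya < g.N * g.A ∧ 0 ≤ yb ∧ g.N * g.A ≤ 4 * yb ∧
      2 * yb < g.N * g.A := by
    unfold Ports at hp
    rw [mem_filter, mem_product, mem_Ico, mem_Ico, hw] at hp
    simp only at hp
    omega
  have hra : rw' g.A ya ≤ ya ∧ ya - g.A < rw' g.A ya := by
    unfold rw'
    have h1 := Int.mul_ediv_self_le (x := ya) (k := g.A) hA0.ne'
    have h2 := Int.lt_mul_ediv_self_add (x := ya) (k := g.A) hA0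
    omega
  have hrb : rw' g.A yb ≤ yb ∧ yb - g.A < rw' g.A yb := by
    unfold rw'
    have h1 := Int.mul_ediv_self_le (x := yb) (k := g.A) hA0.ne'
    have h2 := Int.lt_mul_ediv_self_add (x := yb) (k := g.A) hA0
    omega
  -- the bound by `k`
  have hkA : Y₁ - Y₀ ≤ (k : ℤ) * g.A := by
    refine hY.trans (mul_le_mul_of_nonneg_right ?_ hA0.le)
    rw [hk]
    push_cast
    exact le_max_of_le_left (Int.self_le_toNat H)
  have hk5 : 5 * g.A ≤ (k : ℤ) * g.A := by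
    refine mul_le_mul_of_nonneg_right ?_ hA0.le
    rw [hk]
    push_cast
    exact le_max_right _ _
  set R := RF X₀ X₁ Y₀ Y₁ with hR
  have memR : ∀ f : ℤ × ℤ, f ∈ R ↔ X₀ ≤ f.1 ∧ f.1 < X₁ ∧ Y₀ ≤ f.2 ∧ f.2 < Y₁ := fun f => mem_RFi
  set FPs := FP g Y₁ with hFPs
  have memFP : ∀ f : ℤ × ℤ, f ∈ FPs ↔ g.N * g.A - 20 * g.A ≤ f.1 ∧ f.1 < g.N * g.A - 19 * g.A ∧
      -(g.N * g.A + g.A) ≤ f.2 ∧ f.2 < Y₁ := by
    intro f
    rw [hFPs, FP, mem_RFi, q6, q7, q1]
  have hFPR : FPs ⊆ R := by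
    intro f hf
    rw [memFP] at hf
    rw [memR]
    omega
  set FD : Finset (ℤ × ℤ) := R.filter fun f => f.2 < g.N * g.A + 4 * g.A ∧ f ∉ FPs with hFD
  have memFD : ∀ f : ℤ × ℤ, f ∈ FD ↔ (X₀ ≤ f.1 ∧ f.1 < X₁ ∧ Y₀ ≤ f.2 ∧ f.2 < Y₁) ∧
      f.2 < g.N * g.A + 4 * g.A ∧ ¬ (g.N * g.A - 20 * g.A ≤ f.1 ∧ f.1 < g.N * g.A - 19 * g.A ∧
      -(g.N * g.A + g.A) ≤ f.2 ∧ f.2 < Y₁) := by
    intro f
    rw [hFD, mem_filter, memR, memFP]
  have hFDR : FD ⊆ R := filter_subset _ _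
  -- rectangles in `FD`
  have gL : ∀ x₀ x₁ y₀ y₁ : ℤ, x₀ < x₁ → y₀ < y₁ → x₁ - x₀ ≤ k * (y₁ - y₀) →
      (∀ f : ℤ × ℤ, x₀ ≤ f.1 ∧ f.1 < x₁ ∧ y₀ ≤ f.2 ∧ f.2 < y₁ → f ∈ FD) →
      Gd FD (parD (col + 1)) c' (LR (col + 1) x₀ x₁ y₀ y₁) := by
    intro x₀ x₁ y₀ y₁ hx hy hk hs
    have hsub : RF x₀ x₁ y₀ y₁ ⊆ FD := fun f hf => hs f (mem_RFi.1 hf)
    refine ⟨depOn_mono' (depOn_LR _ _ _ _ _) (by exact_mod_cast hsub), incD_LR _ _ _ _ _, ?_⟩
    rw [pr_eq_of_depOn (depOn_LR _ _ _ _ _) hsub]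
    exact (min_le_left _ _).trans (hL _ _ _ _ _ hx hy hk)
  have gB : ∀ x₀ x₁ y₀ y₁ : ℤ, x₀ < x₁ → y₀ < y₁ → y₁ - y₀ ≤ k * (x₁ - x₀) →
      (∀ f : ℤ × ℤ, x₀ ≤ f.1 ∧ f.1 < x₁ ∧ y₀ ≤ f.2 ∧ f.2 < y₁ → f ∈ FD) →
      Gd FD (parD (col + 1)) c' (BT (col + 1) x₀ x₁ y₀ y₁) := by
    intro x₀ x₁ y₀ y₁ hx hy hk hs
    have hsub : RF x₀ x₁ y₀ y₁ ⊆ FD := fun f hf => hs f (mem_RFi.1 hf)
    refine ⟨depOn_mono' (depOn_BT _ _ _ _ _) (by exact_mod_cast hsub), incD_BT' _ _ _ _ _, ?_⟩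
    rw [pr_eq_of_depOn (depOn_BT _ _ _ _ _) hsub]
    exact (min_le_right _ _).trans (hB _ _ _ _ _ hx hy hk)
  have kk : ∀ z : ℤ, z = g.A → (k : ℤ) * z = k * g.A := fun z hz => by rw [hz]
  -- the right leg
  have gD1 : Gd FD (parD (col + 1)) (c' * c' * c' * c') (D1 g (col + 1) Y₀ ya) := by
    unfold D1
    refine (((gB _ _ _ _ ?_ ?_ ?_ ?_).inter (gL _ _ _ _ ?_ ?_ ?_ ?_) hc0.le).inter
      (gB _ _ _ _ ?_ ?_ ?_ ?_) hc0.le).inter (gL _ _ _ _ ?_ ?_ ?_ ?_) hc0.le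
    · omega
    · omega
    · rw [kk _ (by omega)]; omega
    · intro f hf
      rw [memFD]; omega
    · omega
    · omega
    · rw [kk _ (by omega)]; omega
    · intro f hf
      rw [memFD]; omega
    · omega
    · omega
    · rw [kk _ (by omega)]; omega
    · intro f hf
      rw [memFD]; omega
    · omega
    · omega
    · rw [kk _ (by omega)]; omega
    · intro f hf
      rw [memFD]; omega
  have gD2 : Gd FD (parD (col + 1)) (c' * c' * c' * c') (D2 g (col + 1) Y₀ yb) := by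
    unfold D2
    refine (((gB _ _ _ _ ?_ ?_ ?_ ?_).inter (gL _ _ _ _ ?_ ?_ ?_ ?_) hc0.le).inter
      (gB _ _ _ _ ?_ ?_ ?_ ?_) hc0.le).inter (gL _ _ _ _ ?_ ?_ ?_ ?_) hc0.le
    · omega
    · omega
    · rw [kk _ (by omega)]; omega
    · intro f hf
      rw [memFD]; omega
    · omega
    · omega
    · rw [kk _ (by omega)]; omega
    · intro f hf
      rw [memFD]; omega
    · omega
    · omega
    · rw [kk _ (by omega)]; omega
    · intro f hf
      rw [memFD]; omega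
    · omega
    · omega
    · rw [kk _ (by omega)]; omega
    · intro f hf
      rw [memFD]; omega
  -- the ring
  have hcell : ∀ c ∈ RD g s i, -(g.Ni + 2) ≤ c.1 ∧ c.1 ≤ g.Ni + 1 ∧ -(g.Ni + 2) ≤ c.2 ∧
      c.2 ≤ g.Ni + 1 := by
    intro c hc
    unfold RD at hc
    rw [mem_union] at hc
    obtain ⟨g1, g2⟩ := hgate
    rcases hc with hc | hc
    · have := mem_of_mem_erase hc
      unfold lay at this
      rw [mem_filter, mem_product, mem_Icc, mem_Icc] at this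
      omega
    · simp only [mem_insert, mem_singleton] at hc
      fin_cases s <;> simp [ceS] at hc <;> rcases hc with rfl | rfl | rfl | rfl <;>
        refine ⟨?_, ?_, ?_, ?_⟩ <;> simp only <;> omega
  have hRcard : (RD g s i).card ≤ (2 * Ni + 5).toNat * (2 * Ni + 5).toNat + 4 := by
    have h1 : RD g s i ⊆ (Icc (-(g.Ni + 2)) (g.Ni + 2)) ×ˢ (Icc (-(g.Ni + 2)) (g.Ni + 2)) := by
      intro c hc
      have := hcell c hc
      rw [mem_product, mem_Icc, mem_Icc]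
      omega
    have h2 := card_le_card h1
    rw [card_product, Int.card_Icc] at h2
    have h3 : (g.Ni + 2 + 1 - -(g.Ni + 2)).toNat = (2 * Ni + 5).toNat := by
      congr 1
      omega
    rw [h3] at h2
    omega
  have hRF : cellsF 0 0 g.Ai (RD g s i) ⊆ FD := by
    intro f hf
    obtain ⟨c, hc, hf⟩ := mem_biUnion.1 hf
    have hcr := hcell c hc
    unfold Perc6.cellF at hf
    rw [mem_RFi] at hf
    have e1 : g.Ai * (c.1 + 1) ≤ g.Ai * (g.Ni + 2) :=
      mul_le_mul_of_nonneg_left (by omega) (by omega)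
    have e2 : g.Ai * (c.2 + 1) ≤ g.Ai * (g.Ni + 2) :=
      mul_le_mul_of_nonneg_left (by omega) (by omega)
    have e3 : g.Ai * (-(g.Ni + 2)) ≤ g.Ai * c.1 :=
      mul_le_mul_of_nonneg_left (by omega) (by omega)
    have e4 : g.Ai * (-(g.Ni + 2)) ≤ g.Ai * c.2 :=
      mul_le_mul_of_nonneg_left (by omega) (by omega)
    have e5 : g.Ai * (g.Ni + 2) = (g.Ni + 4) * g.Ai - 2 * g.Ai := by ring
    have e6 : g.Ai * (-(g.Ni + 2)) = -((g.Ni + 4) * g.Ai - 2 * g.Ai) := by ring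
    rw [memFD]
    omega
  have gT : Gd FD (parD (col + 1)) δ (TubeEv (col + 1) 0 0 g.Ai (RD g s i)) :=
    ⟨depOn_mono' (depOn_tube _ _ _ _ _ hAi) (by exact_mod_cast hRF), incD_tube _ _ _ _ _,
      hT _ _ _ _ _ _ hAi hRcard hRF⟩
  have gDD := (gD1.inter gD2 (by positivity)).inter gT hδ.le
  set XD : Set Cfg := D1 g (col + 1) Y₀ ya ∩ D2 g (col + 1) Y₀ yb ∩
    TubeEv (col + 1) 0 0 g.Ai (RD g s i) with hXD
  -- the strip
  have gP : Gd FPs (parD col) c' (PS g col Y₁) := by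
    refine ⟨?_, incD_BT' _ _ _ _ _, ?_⟩
    · exact depOn_BT _ _ _ _ _
    · refine (min_le_right _ _).trans (hB col _ _ _ _ ?_ ?_ ?_)
      · omega
      · omega
      · rw [kk _ (by omega)]; omega
  -- shift
  have sW : ∀ F : Finset (ℤ × ℤ), F ⊆ R → shF a b F ⊆ W := by
    intro F hF f hf
    rw [mem_shF] at hf
    have := hRW _ (hF hf)
    simpa using this
  have sP : pr W (Sh a b (PS g col Y₁)) = pr FPs (PS g col Y₁) :=
    pr_shiftC gP.dep fun f hf => hRW f (hFPR hf)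
  have sD : pr W (Sh a b XD) = pr FD XD := pr_shiftC gDD.dep fun f hf => hRW f (hFDR hf)
  have d1 := depOn_Sh (a := a) (b := b) gP.dep
  have d2 := depOn_Sh (a := a) (b := b) gDD.dep
  have i1 := incD_Sh (a := a) (b := b) gP.inc
  have i2 : IncD (parD (col + a + b + 1)) (Sh a b XD) := by
    have := incD_Sh (a := a) (b := b) gDD.inc
    rwa [show col + 1 + a + b = col + a + b + 1 by ring] at this
  -- windows
  set S1 := SP ∪ shF a b FPs with hS1
  set S2 := SD ∪ shF a b FD with hS2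
  have hS1W : S1 ⊆ W := union_subset hSP (sW _ hFPR)
  have hS2W : S2 ⊆ W := union_subset hSD (sW _ hFDR)
  have hd : Disjoint S1 S2 := by
    rw [disjoint_left]
    intro f h1 h2
    rw [hS1, mem_union] at h1
    rw [hS2, mem_union] at h2
    rcases h1 with h1 | h1 <;> rcases h2 with h2 | h2
    · exact disjoint_left.1 hdis h1 h2
    · rw [mem_shF] at h2
      have h3 := hRP _ (hFDR h2) (by simpa using h1)
      rw [memFD] at h2
      simp only at h3 h2
      omega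
    · rw [mem_shF] at h1
      have h3 := hRD _ (hFPR h1) (by simpa using h2)
      rw [memFP] at h1
      simp only at h3 h1
      omega
    · rw [mem_shF] at h1 h2
      rw [memFP] at h1
      rw [memFD] at h2
      exact h2.2.2 h1
  have D1' : DepOn (S1 : Set (ℤ × ℤ)) (P ∩ Sh a b (PS g col Y₁)) :=
    depOn_inter' (depOn_mono' hP (by exact_mod_cast subset_union_left))
      (depOn_mono' d1 (by exact_mod_cast subset_union_right))
  have D2' : DepOn (S2 : Set (ℤ × ℤ)) (D ∩ Sh a b XD) :=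
    depOn_inter' (depOn_mono' hD (by exact_mod_cast subset_union_left))
      (depOn_mono' d2 (by exact_mod_cast subset_union_right))
  have hi := pr_indep D1' D2' hd hS1W hS2W
  have e1 := pr_eq_of_depOn D1' hS1W
  have e2 := pr_eq_of_depOn D2' hS2W
  rw [← e1, ← e2] at hi
  have hSPW : DepOn (W : Set (ℤ × ℤ)) P := depOn_mono' hP (by exact_mod_cast hSP)
  have hSDW : DepOn (W : Set (ℤ × ℤ)) D := depOn_mono' hD (by exact_mod_cast hSD)
  have f1 : pr W P * c' ≤ pr W (P ∩ Sh a b (PS g col Y₁)) := by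
    refine le_trans ?_ (harris _ hSPW (depOn_mono' d1 (by exact_mod_cast sW _ hFPR)) hPi i1)
    rw [sP]
    exact mul_le_mul_of_nonneg_left gP.low (pr_nonneg _ _)
  have f2 : pr W D * (c' * c' * c' * c' * (c' * c' * c' * c') * δ) ≤ pr W (D ∩ Sh a b XD) := by
    refine le_trans ?_ (harris _ hSDW (depOn_mono' d2 (by exact_mod_cast sW _ hFDR)) hDi i2)
    rw [sD]
    exact mul_le_mul_of_nonneg_left gDD.low (pr_nonneg _ _)
  calc c' * (c' * c' * c' * c' * (c' * c' * c' * c') * δ) * (pr W P * pr W D)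
      = (pr W P * c') * (pr W D * (c' * c' * c' * c' * (c' * c' * c' * c') * δ)) := by ring
    _ ≤ pr W (P ∩ Sh a b (PS g col Y₁)) * pr W (D ∩ Sh a b XD) :=
        mul_le_mul f1 f2 (mul_nonneg (pr_nonneg _ _) (by positivity)) (pr_nonneg _ _)
    _ = pr W ((P ∩ Sh a b (PS g col Y₁)) ∩ (D ∩ Sh a b XD)) := hi.symm
    _ ≤ _ := pr_mono _ ?_
  rintro ω ⟨⟨h1, h2⟩, h3, ⟨h4, h5⟩, h6⟩
  exact ⟨⟨h1, h3⟩, h2, h4, h5, h6⟩

end Pool.Agent.Occ

end PartoccZK

section Partperc3T3H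

/-!
# T3, row H: without near touches the sector `i` does not come close to itself around the core

`χ` is a potential of the leg `i + 2` and of the cut. For a face `f` with a corner in the sector `i`
the value of `χ` at this corner (plus `1` if the corner is on the cut and the face is above) does
not depend on the corner. Two such faces at distance at most `D` are joined by a path of at most
`2 D + 1` faces in the annulus; the sector `i` is left through a face of the leg `i` with the bond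
on the right (or on the left) or of the leg `i + 1`; by the constancy of `χ + [sec = i + 1]` and of
`χ + [sec = i + 2]` away from the legs `i` and `i + 1` a change of the value means that the path has
a part from a face of the leg `i + 1` (bond on its left) to a face in `VR` of the leg `i`, with no
face of the legs `i`, `i + 1` in between: a near touch.
-/

set_option autoImplicit false

namespace Pool.Agent.Perc.Q

open Finset Pool.Agent.Perc Relation

namespace T3HAux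

/-! ### Faces and sectors -/

section general

variable {V Φ : Type} {Q : QC V Φ} {ω : Φ → Bool} {F A : Set Φ} {e : Fin 3 → V × V}
  {sec : V → Fin 3} {kap : V → ZMod 2} {i : Fin 3} {f g : Φ} {k : ZMod 4}

theorem adjQ_symm (h : AdjQ Q f g) : AdjQ Q g f := by
  obtain ⟨k, l, h1, h2⟩ := h
  exact ⟨l, k, h2.symm, h1.symm⟩

theorem zn_mono {X A B : Set Φ} {m n : ℕ} (h : m ≤ n) : Zn Q X A B m ⊆ Zn Q X A B n := by
  induction m generalizing n with
  | zero => exact fun f hf => absurd hf (Set.notMem_empty f)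
  | succ m ih =>
    obtain ⟨n, rfl⟩ : ∃ k, n = k + 1 := ⟨n - 1, by omega⟩
    rintro f ⟨h1, h2, g, h3, h4⟩
    exact ⟨h1, h2, g, h3, h4.imp_right fun h => ih (by omega) h⟩

theorem f1 (i : Fin 3) : i ≠ i + 1 := by revert i; decide
theorem f2 (i : Fin 3) : i ≠ i + 2 := by revert i; decide
theorem f3 (i : Fin 3) : i + 2 + 2 = i + 1 := by revert i; decide
theorem f4 (i : Fin 3) : i + 1 + 2 = i := by revert i; decide
theorem f5 (i j : Fin 3) : j = i ∨ j = i + 1 ∨ j = i + 2 := by revert i j; decide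
theorem f6 (i : Fin 3) : i + 1 ≠ i + 2 := by revert i; decide
theorem f7 {i j : Fin 3} (h : j + 2 = i) : j = i + 1 := by revert i j; decide

theorem un_sec (H : IsSec Q ω F e (fun j => j) (fun j => j + 2) sec kap) {j : Fin 3} {a b : V}
    (h : (a, b) ∈ Un Q ω F (e j)) :
    (sec a = j ∧ sec b = j + 2) ∨ (sec a = j + 2 ∧ sec b = j) := by
  rcases h with h | h
  · exact Or.inl ⟨(H.left _ _ h).1, (H.right _ _ h).1⟩
  · exact Or.inr ⟨(H.right _ _ h).1, (H.left _ _ h).1⟩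

/-- The leg `i + 2` does not touch the sector `i`. -/
theorem no_jump (H : IsSec Q ω F e (fun j => j) (fun j => j + 2) sec kap) {a b : V}
    (h : sec a = i ∨ sec b = i) : indU Q ω F (e (i + 2)) a b = 0 := by
  unfold indU
  rw [if_neg]
  intro h1
  rcases un_sec H h1 with ⟨h2, h3⟩ | ⟨h2, h3⟩ <;> rw [f3] at * <;> rcases h with h | h
  · exact f2 i (h.symm.trans h2)
  · exact f1 i (h.symm.trans h3)
  · exact f1 i (h.symm.trans h2)
  · exact f2 i (h.symm.trans h3)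

theorem zz_eq {a b : ZMod 2} (h : a + b = 0) : a = b := by revert a b; decide

/-- The value at the corners in the sector `i`. -/
theorem val_eq (H : IsSec Q ω F e (fun j => j) (fun j => j + 2) sec kap) {Y : ZMod 4 → ZMod 2}
    (hY : ∀ k, Y k + Y (k + 1) = indU Q ω F (e (i + 2)) (Q.c f k) (Q.c f (k + 1)))
    {a b : ZMod 4} (ha : sec (Q.c f a) = i) (hb : sec (Q.c f b) = i) : Y a = Y b := by
  have key : ∀ k, (sec (Q.c f k) = i ∨ sec (Q.c f (k + 1)) = i) → Y k = Y (k + 1) := by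
    intro k h
    exact zz_eq ((hY k).trans (no_jump H h))
  rcases z4_cases b a with rfl | rfl | rfl | rfl
  · rfl
  · exact key a (Or.inl ha)
  · exact (key a (Or.inl ha)).trans (by
      rw [key (a + 1) (Or.inr (by rw [z1]; exact hb)), z1])
  · have h := key (a + 3) (Or.inl hb)
    rw [z5] at h
    exact h.symm

/-- The value corrected by the indicator of a sector is constant. -/
theorem g_step (H : IsSec Q ω F e (fun j => j) (fun j => j + 2) sec kap) (hf : f ∈ F)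
    {Y : ZMod 4 → ZMod 2}
    (hY : ∀ k, Y k + Y (k + 1) = indU Q ω F (e (i + 2)) (Q.c f k) (Q.c f (k + 1)))
    {j t : Fin 3} (hjt : (j = i + 1 ∧ t = i + 1) ∨ (j = i ∧ t = i + 2))
    (hv : f ∉ Vis Q ω F (e j)) (k : ZMod 4) :
    Y k + (if sec (Q.c f k) = t then 1 else 0) =
      Y (k + 1) + (if sec (Q.c f (k + 1)) = t then 1 else 0) := by
  have h0 := hY k
  by_cases hm : (Q.c f k, Q.c f (k + 1)) ∈ MU Q ω F e
  · obtain ⟨j', hj'⟩ := hm
    have hne : j' ≠ j := by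
      rintro rfl
      exact hv (vis_of_un (H.ini _) hf hj')
    have hs := un_sec H hj'
    have hi : j' = i + 2 → indU Q ω F (e (i + 2)) (Q.c f k) (Q.c f (k + 1)) = 1 := by
      rintro rfl
      unfold indU
      exact if_pos hj'
    have hi' : j' ≠ i + 2 → indU Q ω F (e (i + 2)) (Q.c f k) (Q.c f (k + 1)) = 0 := by
      intro h
      refine no_jump H ?_
      rcases f5 i j' with rfl | rfl | rfl
      · rcases hs with hs | hs
        · exact Or.inl hs.1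
        · exact Or.inr hs.2
      · rw [f4] at hs
        rcases hs with hs | hs
        · exact Or.inr hs.2
        · exact Or.inl hs.1
      · exact absurd rfl h
    generalize indU Q ω F (e (i + 2)) (Q.c f k) (Q.c f (k + 1)) = u at h0 hi hi'
    generalize Y k = y1 at h0 ⊢
    generalize Y (k + 1) = y2 at h0 ⊢
    by_cases hj2 : j' = i + 2
    · have hu := hi hj2
      subst hu
      subst hj2
      rw [f3] at hs
      rcases hs with ⟨h1, h2⟩ | ⟨h1, h2⟩ <;> rw [h1, h2] <;>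
        rcases hjt with ⟨-, rfl⟩ | ⟨-, rfl⟩
      · rw [if_neg (f6 i).symm, if_pos rfl]; clear * - h0; revert y1 y2; decide
      · rw [if_pos rfl, if_neg (f6 i)]; clear * - h0; revert y1 y2; decide
      · rw [if_pos rfl, if_neg (f6 i).symm]; clear * - h0; revert y1 y2; decide
      · rw [if_neg (f6 i), if_pos rfl]; clear * - h0; revert y1 y2; decide
    · have hu := hi' hj2
      subst hu
      have hn : sec (Q.c f k) ≠ t ∧ sec (Q.c f (k + 1)) ≠ t := by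
        generalize sec (Q.c f k) = s1 at hs ⊢
        generalize sec (Q.c f (k + 1)) = s2 at hs ⊢
        rcases hjt with ⟨rfl, rfl⟩ | ⟨rfl, rfl⟩
        · have h3 : j' = i := by
            rcases f5 i j' with h | h | h
            · exact h
            · exact absurd h hne
            · exact absurd h hj2
          subst h3
          rcases hs with ⟨rfl, rfl⟩ | ⟨rfl, rfl⟩
          · exact ⟨f1 _, (f6 _).symm⟩
          · exact ⟨(f6 _).symm, f1 _⟩
        · have h3 : j' = j + 1 := by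
            rcases f5 j j' with h | h | h
            · exact absurd h hne
            · exact h
            · exact absurd h hj2
          subst h3
          rw [f4] at hs
          rcases hs with ⟨rfl, rfl⟩ | ⟨rfl, rfl⟩
          · exact ⟨f6 _, f2 _⟩
          · exact ⟨f2 _, f6 _⟩
      rw [if_neg hn.1, if_neg hn.2, zz_eq h0]
  · have h1 := H.sec_eq f hf k hm
    have h2 : indU Q ω F (e (i + 2)) (Q.c f k) (Q.c f (k + 1)) = 0 := by
      unfold indU
      exact if_neg fun h => hm ⟨_, h⟩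
    rw [h1, zz_eq (h0.trans h2)]

theorem g_face (H : IsSec Q ω F e (fun j => j) (fun j => j + 2) sec kap) (hf : f ∈ F)
    {Y : ZMod 4 → ZMod 2}
    (hY : ∀ k, Y k + Y (k + 1) = indU Q ω F (e (i + 2)) (Q.c f k) (Q.c f (k + 1)))
    {j t : Fin 3} (hjt : (j = i + 1 ∧ t = i + 1) ∨ (j = i ∧ t = i + 2))
    (hv : f ∉ Vis Q ω F (e j)) (k k' : ZMod 4) :
    Y k + (if sec (Q.c f k) = t then 1 else 0) =
      Y k' + (if sec (Q.c f k') = t then 1 else 0) := by
  have h0 := g_step H hf hY hjt hv k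
  have h1 := g_step H hf hY hjt hv (k + 1)
  have h2 := g_step H hf hY hjt hv (k + 2)
  rw [z1] at h1
  rw [z7] at h2
  rcases z4_cases k' k with rfl | rfl | rfl | rfl
  · rfl
  · exact h0
  · exact h0.trans h1
  · exact (h0.trans h1).trans h2

/-- A face without corners in the sector `i` is not visited by the legs `i` and `i + 1`. -/
theorem fresh_of_ne (H : IsSec Q ω F e (fun j => j) (fun j => j + 2) sec kap)
    (h : ∀ k, sec (Q.c f k) ≠ i) : f ∉ Vis Q ω F (e i) ∧ f ∉ Vis Q ω F (e (i + 1)) := by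
  constructor
  · rintro ⟨-, k, hk⟩
    exact h k (H.left _ _ hk).1
  · rintro ⟨-, k, hk⟩
    refine h (k + 1) ?_
    have h1 : sec (Q.c f (k + 1)) = i + 1 + 2 := (H.right _ _ hk).1
    rwa [f4] at h1

/-- The faces through which the sector `i` is left. -/
theorem type_s (H : IsSec Q ω F e (fun j => j) (fun j => j + 2) sec kap) (hf : f ∈ F)
    {s : ZMod 4} (hs : sec (Q.c f s) = i) (h1 : sec (Q.c f (s + 1)) ≠ i)
    (h2 : sec (Q.c f (s + 2)) ≠ i) (h3 : sec (Q.c f (s + 3)) ≠ i) (hb : ω f = ev (s + 1)) :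
    (f ∈ VR Q ω F (e i) ∧ f ∉ Vis Q ω F (e (i + 1))) ∨
      (f ∈ Vis Q ω F (e (i + 1)) ∧ f ∉ Vis Q ω F (e i)) := by
  have hs3 : sec (Q.c f (s + 1)) = sec (Q.c f (s + 3)) := by
    have := (H.bond_eq hf hb).1
    rwa [z2] at this
  have hu : ∀ k, sec (Q.c f k) = i → k = s := by
    intro k hk
    rcases z4_cases k s with rfl | rfl | rfl | rfl
    · rfl
    · exact absurd hk h1
    · exact absurd hk h2
    · exact absurd hk h3
  have hm : (Q.c f s, Q.c f (s + 1)) ∈ MU Q ω F e := by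
    by_contra hm
    have := H.sec_eq f hf s hm
    exact h1 (this.symm.trans hs)
  obtain ⟨j, hj⟩ := hm
  rcases hj with hj | hj
  · have a1 : sec (Q.c f s) = j := (H.left _ _ hj).1
    have a2 : sec (Q.c f (s + 1)) = j + 2 := (H.right _ _ hj).1
    have a3 : j = i := a1.symm.trans hs
    subst a3
    refine Or.inl ⟨⟨hf, s, hj, by rw [hb, ev_add_one]⟩, ?_⟩
    rintro ⟨-, k, hk⟩
    have b1 : sec (Q.c f k) = j + 1 := (H.left _ _ hk).1
    have b2 : sec (Q.c f (k + 1)) = j + 1 + 2 := (H.right _ _ hk).1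
    rw [f4] at b2
    have b3 : k = s + 3 := by
      have := hu _ b2
      rw [← this]
      clear * -
      revert k
      decide
    rw [b3, ← hs3, a2] at b1
    exact f6 j b1.symm
  · have a1 : sec (Q.c f (s + 1)) = j := (H.left _ _ hj).1
    have a2 : sec (Q.c f s) = j + 2 := (H.right _ _ hj).1
    have a3 : j = i + 1 := f7 (a2.symm.trans hs)
    subst a3
    refine Or.inr ⟨vis_of_un (H.ini _) hf (k := s) (Or.inr hj), ?_⟩
    rintro ⟨-, k, hk⟩
    have b1 : sec (Q.c f k) = i := (H.left _ _ hk).1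
    have b2 : sec (Q.c f (k + 1)) = i + 2 := (H.right _ _ hk).1
    rw [hu k b1, a1] at b2
    exact f6 i b2

theorem type_f (H : IsSec Q ω F e (fun j => j) (fun j => j + 2) sec kap) (hf : f ∈ F)
    (h0 : sec (Q.c f k) ≠ i) (h1 : sec (Q.c f (k + 1)) ≠ i) (hc : ∃ a, sec (Q.c f a) = i) :
    (f ∈ VR Q ω F (e i) ∧ f ∉ Vis Q ω F (e (i + 1))) ∨
      (f ∈ Vis Q ω F (e (i + 1)) ∧ f ∉ Vis Q ω F (e i)) := by
  obtain ⟨a, ha⟩ := hc
  rcases Bool.eq_or_eq_not (ω f) (ev k) with hw | hw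
  · -- the bond joins `k` and `k + 2`
    have h2 : sec (Q.c f (k + 2)) ≠ i := by
      rw [← (H.bond_eq hf hw).1]; exact h0
    have h3 : a = k + 3 := by
      rcases z4_cases a k with rfl | rfl | rfl | rfl
      · exact absurd ha h0
      · exact absurd ha h1
      · exact absurd ha h2
      · rfl
    subst h3
    refine type_s H hf ha ?_ ?_ ?_ ?_
    · rw [z5]; exact h0
    · rw [z6]; exact h1
    · have : k + 3 + 3 = k + 2 := by clear * -; revert k; decide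
      rw [this]; exact h2
    · rw [z5]; exact hw
  · have hw' : ω f = ev (k + 1) := by rw [ev_add_one, hw]
    have h3 : sec (Q.c f (k + 3)) ≠ i := by
      have := (H.bond_eq hf hw').1
      rw [z2] at this
      rw [← this]; exact h1
    have h3 : a = k + 2 := by
      rcases z4_cases a k with rfl | rfl | rfl | rfl
      · exact absurd ha h0
      · exact absurd ha h1
      · rfl
      · exact absurd ha h3
    subst h3
    refine type_s H hf ha ?_ ?_ ?_ ?_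
    · rw [z7]; assumption
    · rw [z4]; exact h0
    · have : k + 2 + 3 = k + 1 := by clear * -; revert k; decide
      rw [this]; exact h1
    · rw [z7, hw', ← ev_add_two (k + 1), z2]

/-! ### The walk -/

/-- The state after the sector `i` has been left through `VR` of the leg `i`. -/
def SR (Q : QC V Φ) (ω : Φ → Bool) (F A : Set Φ) (e : Fin 3 → V × V) (sec : V → Fin 3)
    (i : Fin 3) (y : ZMod 2) (n : ℕ) (f : Φ) (Y : ZMod 4 → ZMod 2) : Prop :=
  (f ∈ VR Q ω F (e i) ∩ A ∨ f ∈ Zn Q A (Vis Q ω F (e i)) (VR Q ω F (e i) ∩ A) n) ∧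
    f ∉ Vis Q ω F (e (i + 1)) ∧ ∀ k, Y k + (if sec (Q.c f k) = i + 1 then 1 else 0) = y

/-- The state after the sector `i` has been left through the leg `i + 1`. -/
def SL (Q : QC V Φ) (ω : Φ → Bool) (F A : Set Φ) (e : Fin 3 → V × V) (sec : V → Fin 3)
    (i : Fin 3) (y : ZMod 2) (n : ℕ) (f : Φ) (Y : ZMod 4 → ZMod 2) : Prop :=
  (∀ g m, AdjQ Q f g → (g ∈ VR Q ω F (e i) ∩ A ∨
      g ∈ Zn Q A (Vis Q ω F (e i)) (VR Q ω F (e i) ∩ A) m) →
    ∃ f₀ ∈ Vis Q ω F (e (i + 1)),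
      f₀ ∈ Zn Q A (Vis Q ω F (e i)) (VR Q ω F (e i) ∩ A) (m + n + 1)) ∧
    f ∉ Vis Q ω F (e i) ∧ ∀ k, Y k + (if sec (Q.c f k) = i + 2 then 1 else 0) = y

/-- The invariant of the walk. -/
def Inv (Q : QC V Φ) (ω : Φ → Bool) (F A : Set Φ) (e : Fin 3 → V × V) (sec : V → Fin 3)
    (i : Fin 3) (y : ZMod 2) (n : ℕ) (f : Φ) (Y : ZMod 4 → ZMod 2) : Prop :=
  (∃ a, sec (Q.c f a) = i ∧ Y a = y) ∨ ((∀ k, sec (Q.c f k) ≠ i) ∧
    (SR Q ω F A e sec i y n f Y ∨ SL Q ω F A e sec i y n f Y))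

theorem inv_step (H : IsSec Q ω F e (fun j => j) (fun j => j + 2) sec kap) (hAF : A ⊆ F) {r : ℕ}
    (hN : ∀ f ∈ Vis Q ω F (e (i + 1)),
      f ∉ Zn Q A (Vis Q ω F (e i)) (VR Q ω F (e i) ∩ A) r) (hf : f ∈ A) (hg : g ∈ A)
    {Y Y' : ZMod 4 → ZMod 2}
    (hY : ∀ k, Y k + Y (k + 1) = indU Q ω F (e (i + 2)) (Q.c f k) (Q.c f (k + 1)))
    (hY' : ∀ k, Y' k + Y' (k + 1) = indU Q ω F (e (i + 2)) (Q.c g k) (Q.c g (k + 1)))
    {k l : ZMod 4} (h1 : Q.c g l = Q.c f (k + 1)) (h2 : Q.c g (l + 1) = Q.c f k)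
    (h3 : Y' l = Y (k + 1)) (h4 : Y' (l + 1) = Y k) {y : ZMod 2} {n : ℕ} (hn : n + 1 ≤ r)
    (hI : Inv Q ω F A e sec i y n f Y) : Inv Q ω F A e sec i y (n + 1) g Y' := by
  have hadj : AdjQ Q f g := ⟨k, l, h1, h2⟩
  have hN' : ∀ f ∈ Vis Q ω F (e (i + 1)), ∀ m ≤ r,
      f ∉ Zn Q A (Vis Q ω F (e i)) (VR Q ω F (e i) ∩ A) m := fun f hf m hm h =>
    hN f hf (zn_mono hm h)
  -- the common side has an end in the sector `i`
  have hside : ∀ a, sec (Q.c f a) = i → Y a = y → (sec (Q.c f k) = i ∨ sec (Q.c f (k + 1)) = i) →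
      Inv Q ω F A e sec i y (n + 1) g Y' := by
    intro a ha hay h
    rcases h with h | h
    · exact Or.inl ⟨l + 1, by rw [h2]; exact h, by rw [h4, ← val_eq H hY ha h, hay]⟩
    · exact Or.inl ⟨l, by rw [h1]; exact h, by rw [h3, ← val_eq H hY ha h, hay]⟩
  -- the sector `i` has been left
  have hleft : (SR Q ω F A e sec i y n f Y ∨ SL Q ω F A e sec i y n f Y) →
      sec (Q.c f k) ≠ i → sec (Q.c f (k + 1)) ≠ i → Inv Q ω F A e sec i y (n + 1) g Y' := by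
    intro hS hk hk1
    have hgR : g ∉ Vis Q ω F (e (i + 1)) →
        (∀ k, Y k + (if sec (Q.c f k) = i + 1 then 1 else 0) = y) →
        ∀ k, Y' k + (if sec (Q.c g k) = i + 1 then 1 else 0) = y := by
      intro hv hc b
      rw [g_face H (hAF hg) hY' (Or.inl ⟨rfl, rfl⟩) hv b l, h3, h1]
      exact hc _
    have hgL : g ∉ Vis Q ω F (e i) →
        (∀ k, Y k + (if sec (Q.c f k) = i + 2 then 1 else 0) = y) →
        ∀ k, Y' k + (if sec (Q.c g k) = i + 2 then 1 else 0) = y := by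
      intro hv hc b
      rw [g_face H (hAF hg) hY' (Or.inr ⟨rfl, rfl⟩) hv b l, h3, h1]
      exact hc _
    by_cases hc : ∃ a, sec (Q.c g a) = i
    · obtain ⟨a, ha⟩ := hc
      have ht := type_f H (hAF hg) (k := l) (by rw [h1]; exact hk1) (by rw [h2]; exact hk)
        ⟨a, ha⟩
      rcases hS with ⟨s1, s2, s3⟩ | ⟨s1, s2, s3⟩
      · rcases ht with ⟨t1, t2⟩ | ⟨t1, t2⟩
        · refine Or.inl ⟨a, ha, ?_⟩
          have := hgR t2 s3 a
          rwa [ha, if_neg (f1 i), add_zero] at this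
        · exact absurd (show g ∈ Zn Q A (Vis Q ω F (e i)) (VR Q ω F (e i) ∩ A) (n + 1) from
            ⟨hg, t2, f, adjQ_symm hadj, s1⟩) (hN' g t1 _ hn)
      · rcases ht with ⟨t1, t2⟩ | ⟨t1, t2⟩
        · obtain ⟨f₀, u1, u2⟩ := s1 g 0 hadj (Or.inl ⟨t1, hg⟩)
          exact absurd u2 (hN' f₀ u1 _ (by omega))
        · refine Or.inl ⟨a, ha, ?_⟩
          have := hgL t2 s3 a
          rwa [ha, if_neg (f2 i), add_zero] at this
    · push Not at hc
      obtain ⟨v1, v2⟩ := fresh_of_ne H hc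
      refine Or.inr ⟨hc, ?_⟩
      rcases hS with ⟨s1, s2, s3⟩ | ⟨s1, s2, s3⟩
      · exact Or.inl ⟨Or.inr ⟨hg, v1, f, adjQ_symm hadj, s1⟩, v2, hgR v2 s3⟩
      · refine Or.inr ⟨?_, v1, hgL v1 s3⟩
        intro g' m ha' hz
        obtain ⟨f₀, u1, u2⟩ := s1 g (m + 1) hadj (Or.inr ⟨hg, v1, g', ha', hz⟩)
        exact ⟨f₀, u1, zn_mono (by omega) u2⟩
  rcases hI with ⟨a, ha, hay⟩ | ⟨hne, hS⟩
  · by_cases hk : sec (Q.c f k) = i
    · exact hside a ha hay (Or.inl hk)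
    · by_cases hk1 : sec (Q.c f (k + 1)) = i
      · exact hside a ha hay (Or.inr hk1)
      · refine hleft ?_ hk hk1
        rcases type_f H (hAF hf) hk hk1 ⟨a, ha⟩ with ⟨t1, t2⟩ | ⟨t1, t2⟩
        · refine Or.inl ⟨Or.inl ⟨t1, hf⟩, t2, fun b => ?_⟩
          rw [g_face H (hAF hf) hY (Or.inl ⟨rfl, rfl⟩) t2 b a, ha, if_neg (f1 i), add_zero, hay]
        · refine Or.inr ⟨?_, t2, fun b => ?_⟩
          · intro g' m ha' hz
            exact ⟨f, t1, zn_mono (show m + 1 ≤ m + n + 1 by omega) ⟨hf, t2, g', ha', hz⟩⟩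
          · rw [g_face H (hAF hf) hY (Or.inr ⟨rfl, rfl⟩) t2 b a, ha, if_neg (f2 i), add_zero,
              hay]
  · exact hleft hS (hne _) (hne _)

end general

/-! ### The walk in the twisted plane -/

theorem cut_zero {a b c d : ℤ} (h1 : ¬ (b = 0 ∧ d = 0 ∧ ((a = -2 ∧ c = -1) ∨ (c = -2 ∧ a = -1))))
    (h2 : ¬ (a = c ∧ a ≤ -2 ∧ ((b = 0 ∧ d = 1) ∨ (d = 0 ∧ b = 1)))) : cutK (a, b) (c, d) = 0 := by
  unfold cutK
  rw [if_neg]
  rintro (⟨h3, h4⟩ | ⟨h3, h4⟩ | h3)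
  · rw [Prod.mk.injEq] at h3 h4
    exact h1 ⟨h3.2, h4.2, Or.inl ⟨h3.1, h4.1⟩⟩
  · rw [Prod.mk.injEq] at h3 h4
    exact h1 ⟨h4.2, h3.2, Or.inr ⟨h3.1, h4.1⟩⟩
  · exact h2 h3

theorem cut_one {a b c d : ℤ} (h2 : a = c ∧ a ≤ -2 ∧ ((b = 0 ∧ d = 1) ∨ (d = 0 ∧ b = 1))) :
    cutK (a, b) (c, d) = 1 := by
  unfold cutK
  rw [if_pos (Or.inr (Or.inr h2))]

/-- The correction at the vertices of the cut. -/
def cb (f : ℤ × ℤ) (k : ZMod 4) : ZMod 2 :=
  if 0 ≤ f.2 ∧ (TQ.c f k).2 = 0 ∧ (TQ.c f k).1 ≤ -2 then 1 else 0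

theorem cb_add (f : ℤ × ℤ) (k : ZMod 4) :
    cb f k + cb f (k + 1) = cutK (TQ.c f k) (TQ.c f (k + 1)) := by
  obtain ⟨x, y⟩ := f
  have hc : ∀ k, TQ.c (x, y) k = corT emP (x, y) k := fun _ => rfl
  unfold cb
  simp only [hc]
  obtain ⟨c0, c1, c2, c3⟩ := corT_eq emP x y
  rcases lt_or_ge y 0 with hy | hy
  · rw [if_neg (fun h => absurd h.1 (by omega)), if_neg (fun h => absurd h.1 (by omega)), add_zero]
    symm
    by_cases hy1 : y = -1
    · obtain ⟨c4, c5⟩ := c3 hy1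
      have e1 : emP x = x ∧ 0 ≤ x ∨ emP x = x - 1 ∧ x < 0 := by
        unfold emP; split_ifs with h <;> omega
      have e2 : emP (x + 1) = x + 1 ∧ 0 ≤ x + 1 ∨ emP (x + 1) = x ∧ x + 1 < 0 := by
        unfold emP; split_ifs with h <;> omega
      generalize emP x = u at e1 c5
      generalize emP (x + 1) = v at e2 c4
      rcases k4_cases k with rfl | rfl | rfl | rfl
      · rw [k01, c0, c1]; exact cut_zero (by omega) (by omega)
      · rw [k11, c1, c4]; exact cut_zero (by omega) (by omega)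
      · rw [k21, c4, c5]; exact cut_zero (by omega) (by omega)
      · rw [k31, c5, c0]; exact cut_zero (by omega) (by omega)
    · obtain ⟨c4, c5⟩ := c2 hy1
      rcases k4_cases k with rfl | rfl | rfl | rfl
      · rw [k01, c0, c1]; exact cut_zero (by omega) (by omega)
      · rw [k11, c1, c4]; exact cut_zero (by omega) (by omega)
      · rw [k21, c4, c5]; exact cut_zero (by omega) (by omega)
      · rw [k31, c5, c0]; exact cut_zero (by omega) (by omega)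
  · obtain ⟨c4, c5⟩ := c2 (by omega)
    have t0 : (0 : ZMod 2) + 0 = 0 := by decide
    have t1 : (1 : ZMod 2) + 1 = 0 := by decide
    have t2 : (1 : ZMod 2) + 0 = 1 := by decide
    have t3 : (0 : ZMod 2) + 1 = 1 := by decide
    by_cases hy0 : y = 0
    · subst hy0
      rcases k4_cases k with rfl | rfl | rfl | rfl
      · rw [k01, c0, c1]
        rcases lt_trichotomy x (-2) with hx | hx | hx
        · rw [if_pos ⟨by omega, by omega, by omega⟩, if_pos ⟨by omega, by omega, by omega⟩,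
            cut_zero (by omega) (by omega), t1]
        · subst hx; decide
        · rw [if_neg (fun h => absurd h.2.2 (by omega)), if_neg (fun h => absurd h.2.2 (by omega)),
            cut_zero (by omega) (by omega), t0]
      · rw [k11, c1, c4]
        rw [if_neg (c := _ ∧ ((x + 1, (0 : ℤ) + 1) : ℤ × ℤ).2 = 0 ∧ _)
          (fun h => absurd h.2.1 (by dsimp only; omega))]
        rcases lt_or_ge (-2) (x + 1) with hx | hx
        · rw [if_neg (fun h => absurd h.2.2 (by dsimp only; omega)),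
            cut_zero (by omega) (by omega), t0]
        · rw [if_pos ⟨by omega, by omega, hx⟩, cut_one (by omega), t2]
      · rw [k21, c4, c5]
        rw [if_neg (fun h => absurd h.2.1 (by dsimp only; omega)),
          if_neg (fun h => absurd h.2.1 (by dsimp only; omega)),
          cut_zero (by omega) (by omega), t0]
      · rw [k31, c5, c0]
        rw [if_neg (c := _ ∧ ((x, (0 : ℤ) + 1) : ℤ × ℤ).2 = 0 ∧ _)
          (fun h => absurd h.2.1 (by dsimp only; omega))]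
        rcases lt_or_ge (-2) x with hx | hx
        · rw [if_neg (fun h => absurd h.2.2 (by dsimp only; omega)),
            cut_zero (by omega) (by omega), t0]
        · rw [if_pos ⟨by omega, by omega, hx⟩, cut_one (by omega), t3]
    · rcases k4_cases k with rfl | rfl | rfl | rfl
      · rw [k01, c0, c1, if_neg (fun h => absurd h.2.1 (by dsimp only; omega)),
          if_neg (fun h => absurd h.2.1 (by dsimp only; omega)),
          cut_zero (by omega) (by omega), t0]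
      · rw [k11, c1, c4, if_neg (fun h => absurd h.2.1 (by dsimp only; omega)),
          if_neg (fun h => absurd h.2.1 (by dsimp only; omega)),
          cut_zero (by omega) (by omega), t0]
      · rw [k21, c4, c5, if_neg (fun h => absurd h.2.1 (by dsimp only; omega)),
          if_neg (fun h => absurd h.2.1 (by dsimp only; omega)),
          cut_zero (by omega) (by omega), t0]
      · rw [k31, c5, c0, if_neg (fun h => absurd h.2.1 (by dsimp only; omega)),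
          if_neg (fun h => absurd h.2.1 (by dsimp only; omega)),
          cut_zero (by omega) (by omega), t0]

/-- One step of the walk. -/
def St (f g : ℤ × ℤ) (u : ZMod 2) : Prop :=
  ∃ k l, TQ.c g l = TQ.c f (k + 1) ∧ TQ.c g (l + 1) = TQ.c f k ∧
    cb g l = cb f (k + 1) + u ∧ cb g (l + 1) = cb f k + u

theorem z2a {a b u : ZMod 2} (h : a = b + u) : b = a + u := by revert a b u; decide

theorem St.symm {f g : ℤ × ℤ} {u : ZMod 2} (h : St f g u) : St g f u := by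
  obtain ⟨k, l, h1, h2, h3, h4⟩ := h
  exact ⟨l, k, h2.symm, h1.symm, z2a h4, z2a h3⟩

theorem st_of {f g : ℤ × ℤ} {k l : ZMod 4} (hfg : 0 ≤ f.2 ↔ 0 ≤ g.2)
    (h1 : TQ.c g l = TQ.c f (k + 1)) (h2 : TQ.c g (l + 1) = TQ.c f k) : St f g 0 := by
  refine ⟨k, l, h1, h2, ?_, ?_⟩
  · unfold cb
    rw [add_zero, h1]
    exact if_congr (and_congr hfg.symm Iff.rfl) rfl rfl
  · unfold cb
    rw [add_zero, h2]
    exact if_congr (and_congr hfg.symm Iff.rfl) rfl rfl

theorem st_h (x y : ℤ) : St (x, y) (x + 1, y) 0 := by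
  refine st_of (k := 1) (l := 3) Iff.rfl ?_ ?_
  · change corT emP (x + 1, y) 3 = corT emP (x, y) (1 + 1)
    obtain ⟨-, -, c2, c3⟩ := corT_eq emP x y
    obtain ⟨-, -, b2, b3⟩ := corT_eq emP (x + 1) y
    rw [k11]
    by_cases hy : y = -1
    · rw [(c3 hy).1, (b3 hy).2]
    · rw [(c2 hy).1, (b2 hy).2]
  · change corT emP (x + 1, y) (3 + 1) = corT emP (x, y) 1
    obtain ⟨-, c1, -, -⟩ := corT_eq emP x y
    obtain ⟨b0, -, -, -⟩ := corT_eq emP (x + 1) y
    rw [k31, c1, b0]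

theorem st_v {x y : ℤ} (hy : y ≠ -1) : St (x, y) (x, y + 1) 0 := by
  refine st_of (k := 2) (l := 0) (by dsimp only; omega) ?_ ?_
  · change corT emP (x, y + 1) 0 = corT emP (x, y) (2 + 1)
    obtain ⟨-, -, c2, -⟩ := corT_eq emP x y
    obtain ⟨b0, -, -, -⟩ := corT_eq emP x (y + 1)
    rw [k21, (c2 hy).2, b0]
  · change corT emP (x, y + 1) (0 + 1) = corT emP (x, y) 2
    obtain ⟨-, -, c2, -⟩ := corT_eq emP x y
    obtain ⟨-, b1, -, -⟩ := corT_eq emP x (y + 1)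
    rw [k01, (c2 hy).1, b1]

theorem st_r {x : ℤ} (hx : 0 ≤ x) : St (x, -1) (x, 0) 0 := by
  have e1 : emP x = x := by unfold emP; rw [if_pos hx]
  have e2 : emP (x + 1) = x + 1 := by unfold emP; rw [if_pos (by omega)]
  obtain ⟨-, -, -, c3⟩ := corT_eq emP x (-1)
  obtain ⟨b0, b1, -, -⟩ := corT_eq emP x 0
  obtain ⟨c4, c5⟩ := c3 rfl
  rw [e2] at c4
  rw [e1] at c5
  have b0' : TQ.c (x, 0) 0 = (x, 0) := b0
  have b1' : TQ.c (x, 0) 1 = (x + 1, 0) := b1
  have c4' : TQ.c (x, -1) 2 = (x + 1, 0) := c4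
  have c5' : TQ.c (x, -1) 3 = (x, 0) := c5
  have hlow : ∀ k, cb (x, -1) k = 0 := fun k => if_neg fun h => absurd h.1 (by dsimp only; omega)
  refine ⟨2, 0, ?_, ?_, ?_, ?_⟩
  · rw [k21, b0', c5']
  · rw [k01, b1', c4']
  · rw [hlow, add_zero]
    unfold cb
    rw [b0', if_neg fun h => absurd h.2.2 (by dsimp only; omega)]
  · rw [hlow, add_zero, k01]
    unfold cb
    rw [b1', if_neg fun h => absurd h.2.2 (by dsimp only; omega)]

theorem st_l {x : ℤ} (hx : x ≤ -3) : St (x + 1, -1) (x, 0) 1 := by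
  have e1 : emP (x + 1) = x := by unfold emP; rw [if_neg (by omega)]; omega
  have e2 : emP (x + 1 + 1) = x + 1 := by unfold emP; rw [if_neg (by omega)]; omega
  obtain ⟨-, -, -, c3⟩ := corT_eq emP (x + 1) (-1)
  obtain ⟨b0, b1, -, -⟩ := corT_eq emP x 0
  obtain ⟨c4, c5⟩ := c3 rfl
  rw [e2] at c4
  rw [e1] at c5
  have b0' : TQ.c (x, 0) 0 = (x, 0) := b0
  have b1' : TQ.c (x, 0) 1 = (x + 1, 0) := b1
  have c4' : TQ.c (x + 1, -1) 2 = (x + 1, 0) := c4
  have c5' : TQ.c (x + 1, -1) 3 = (x, 0) := c5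
  have hlow : ∀ k, cb (x + 1, -1) k = 0 := fun k =>
    if_neg fun h => absurd h.1 (by dsimp only; omega)
  refine ⟨2, 0, ?_, ?_, ?_, ?_⟩
  · rw [k21, b0', c5']
  · rw [k01, b1', c4']
  · rw [hlow, zero_add]
    unfold cb
    rw [b0', if_pos ⟨by omega, by omega, by omega⟩]
  · rw [hlow, k01, zero_add]
    unfold cb
    rw [b1', if_pos ⟨by omega, by omega, by omega⟩]

/-- Walks of `n` steps in the annulus with the total flip `v`. -/
inductive Wk (d w : ℤ) : ℕ → ℤ × ℤ → ℤ × ℤ → ZMod 2 → Prop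
  | refl {f : ℤ × ℤ} (h : f ∈ An d w) : Wk d w 0 f f 0
  | step {n : ℕ} {f g h : ℤ × ℤ} {v u : ZMod 2} (h1 : Wk d w n f g v) (h2 : h ∈ An d w)
      (h3 : St g h u) : Wk d w (n + 1) f h (v + u)

variable {d w : ℤ}

theorem Wk.left_mem {n : ℕ} {f g : ℤ × ℤ} {v : ZMod 2} (h : Wk d w n f g v) : f ∈ An d w := by
  induction h with
  | refl h => exact h
  | step _ _ _ ih => exact ih

theorem Wk.right_mem {n : ℕ} {f g : ℤ × ℤ} {v : ZMod 2} (h : Wk d w n f g v) : g ∈ An d w := by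
  cases h with
  | refl h => exact h
  | step _ h _ => exact h

theorem Wk.trans {n m : ℕ} {f g h : ℤ × ℤ} {v u : ZMod 2} (h1 : Wk d w n f g v)
    (h2 : Wk d w m g h u) : Wk d w (n + m) f h (v + u) := by
  induction h2 with
  | refl _ => rw [add_zero, add_zero]; exact h1
  | step _ h4 h5 ih =>
    rw [← add_assoc, ← add_assoc]
    exact Wk.step (ih h1) h4 h5

theorem Wk.symm {n : ℕ} {f g : ℤ × ℤ} {v : ZMod 2} (h : Wk d w n f g v) : Wk d w n g f v := by
  induction h with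
  | refl h => exact Wk.refl h
  | step h1 h2 h3 ih =>
    rename_i n f g h v u
    have h4 : Wk d w 1 h g (0 + u) := Wk.step (Wk.refl h2) h1.right_mem h3.symm
    have h5 := h4.trans ih
    rw [zero_add, add_comm 1 n, add_comm u v] at h5
    exact h5

theorem wk_h (x y : ℤ) (n : ℕ) (h : ∀ t, x ≤ t → t ≤ x + n → (t, y) ∈ An d w) :
    Wk d w n (x, y) (x + n, y) 0 := by
  induction n with
  | zero =>
    have := Wk.refl (h x le_rfl (by push_cast; omega))
    rw [show x + ((0 : ℕ) : ℤ) = x by push_cast; omega]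
    exact this
  | succ n ih =>
    have h1 := ih fun t h1 h2 => h t h1 (by push_cast; omega)
    have h2 := Wk.step h1 (h (x + n + 1) (by omega) (by push_cast; omega)) (st_h (x + n) y)
    rw [add_zero] at h2
    rw [show x + ((n + 1 : ℕ) : ℤ) = x + n + 1 by push_cast; omega]
    exact h2

theorem wk_v (x y : ℤ) (n : ℕ) (hy : 0 ≤ y ∨ y + n < 0)
    (h : ∀ t, y ≤ t → t ≤ y + n → (x, t) ∈ An d w) : Wk d w n (x, y) (x, y + n) 0 := by
  induction n with
  | zero =>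
    have := Wk.refl (h y le_rfl (by push_cast; omega))
    rw [show y + ((0 : ℕ) : ℤ) = y by push_cast; omega]
    exact this
  | succ n ih =>
    have h1 := ih (by push_cast at hy; omega) fun t h1 h2 => h t h1 (by push_cast; omega)
    have h2 := Wk.step h1 (h (y + n + 1) (by omega) (by push_cast; omega))
      (st_v (x := x) (y := y + n) (by push_cast at hy; omega))
    rw [add_zero] at h2
    rw [show y + ((n + 1 : ℕ) : ℤ) = y + n + 1 by push_cast; omega]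
    exact h2

/-- A horizontal walk in either direction. -/
theorem wk_h' {x x' y : ℤ} (h : ∀ t, (x ≤ t ∨ x' ≤ t) → (t ≤ x ∨ t ≤ x') → (t, y) ∈ An d w) :
    Wk d w (x' - x).natAbs (x, y) (x', y) 0 := by
  rcases le_total x x' with hx | hx
  · have h1 := wk_h x y (x' - x).natAbs fun t h1 h2 => h t (Or.inl h1) (Or.inr (by omega))
    rwa [show x + ((x' - x).natAbs : ℤ) = x' by omega] at h1
  · have h1 := wk_h x' y (x' - x).natAbs fun t h1 h2 => h t (Or.inr h1) (Or.inl (by omega))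
    rw [show x' + ((x' - x).natAbs : ℤ) = x by omega] at h1
    exact h1.symm

theorem mem_An {f : ℤ × ℤ} : f ∈ An d w ↔
    ((-(w + 2) ≤ f.1 ∧ f.1 < w ∧ 0 ≤ f.2 ∧ f.2 < w) ∨
      (-(w + 1) ≤ f.1 ∧ f.1 < w ∧ -w ≤ f.2 ∧ f.2 < 0)) ∧
    ¬ ((-(d + 2) ≤ f.1 ∧ f.1 < d ∧ 0 ≤ f.2 ∧ f.2 < d) ∨
      (-(d + 1) ≤ f.1 ∧ f.1 < d ∧ -d ≤ f.2 ∧ f.2 < 0)) := by
  rw [← BdAux.mem_BW, ← BdAux.mem_BW]
  rfl

/-- Two upper faces. -/
theorem wk_uu {D x y x' y' : ℤ} (hd : D + 2 < d) (hs : (x, y) ∈ An d w) (hs' : (x', y') ∈ An d w)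
    (h1 : |x - x'| ≤ D) (h2 : |y - y'| ≤ D) (hy : 0 ≤ y) (hyy : y ≤ y') :
    ∃ n : ℕ, (n : ℤ) ≤ 2 * D + 1 ∧ Wk d w n (x, y) (x', y') 0 := by
  rw [abs_le] at h1 h2
  have hs1 := mem_An.1 hs
  have hs2 := mem_An.1 hs'
  dsimp only at hs1 hs2
  have a1 : Wk d w (y' - y).natAbs (x, y) (x, y + ((y' - y).natAbs : ℕ)) 0 := by
    refine wk_v x y _ (Or.inl hy) fun t h3 h4 => ?_
    rw [mem_An]
    dsimp only
    omega
  rw [show y + ((y' - y).natAbs : ℤ) = y' by omega] at a1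
  have a2 : Wk d w (x' - x).natAbs (x, y') (x', y') 0 := by
    refine wk_h' fun t h3 h4 => ?_
    rw [mem_An]
    dsimp only
    omega
  refine ⟨_, ?_, by simpa using a1.trans a2⟩
  omega

/-- Two lower faces. -/
theorem wk_ll {D x y x' y' : ℤ} (hd : D + 2 < d) (hs : (x, y) ∈ An d w) (hs' : (x', y') ∈ An d w)
    (h1 : |x - x'| ≤ D) (h2 : |y - y'| ≤ D) (hy : y < 0) (hyy : y' ≤ y) :
    ∃ n : ℕ, (n : ℤ) ≤ 2 * D + 1 ∧ Wk d w n (x, y) (x', y') 0 := by
  rw [abs_le] at h1 h2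
  have hs1 := mem_An.1 hs
  have hs2 := mem_An.1 hs'
  dsimp only at hs1 hs2
  have a1 : Wk d w (y - y').natAbs (x, y') (x, y' + ((y - y').natAbs : ℕ)) 0 := by
    refine wk_v x y' _ (Or.inr (by omega)) fun t h3 h4 => ?_
    rw [mem_An]
    dsimp only
    omega
  rw [show y' + ((y - y').natAbs : ℤ) = y by omega] at a1
  have a2 : Wk d w (x' - x).natAbs (x, y') (x', y') 0 := by
    refine wk_h' fun t h3 h4 => ?_
    rw [mem_An]
    dsimp only
    omega
  refine ⟨_, ?_, by simpa using a1.symm.trans a2⟩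
  omega

/-- An upper and a lower face. -/
theorem wk_ul {D x y x' y' : ℤ} (hd : D + 2 < d) (hs : (x, y) ∈ An d w) (hs' : (x', y') ∈ An d w)
    (h1 : |x - x'| ≤ D) (h2 : |y - y'| ≤ D) (hy : 0 ≤ y) (hy' : y' < 0) :
    ∃ n : ℕ, (n : ℤ) ≤ 2 * D + 1 ∧ (x < 0 ↔ x' < 0) ∧
      Wk d w n (x, y) (x', y') (if x < 0 then 1 else 0) := by
  rw [abs_le] at h1 h2
  have hs1 := mem_An.1 hs
  have hs2 := mem_An.1 hs'
  dsimp only at hs1 hs2
  have a1 : Wk d w y.natAbs (x, 0) (x, 0 + (y.natAbs : ℕ)) 0 := by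
    refine wk_v x 0 _ (Or.inl le_rfl) fun t h3 h4 => ?_
    rw [mem_An]
    dsimp only
    omega
  rw [show (0 : ℤ) + (y.natAbs : ℤ) = y by omega] at a1
  by_cases hx : x < 0
  · rw [if_pos hx]
    have a2 : Wk d w (-1 - y').natAbs (x + 1, y') (x + 1, y' + ((-1 - y').natAbs : ℕ)) 0 := by
      refine wk_v (x + 1) y' _ (Or.inr (by omega)) fun t h3 h4 => ?_
      rw [mem_An]
      dsimp only
      omega
    rw [show y' + ((-1 - y').natAbs : ℤ) = -1 by omega] at a2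
    have a3 : Wk d w (x' - (x + 1)).natAbs (x + 1, y') (x', y') 0 := by
      refine wk_h' fun t h3 h4 => ?_
      rw [mem_An]
      dsimp only
      omega
    have a4 := Wk.step a1.symm a2.right_mem (st_l (x := x) (by omega)).symm
    refine ⟨_, ?_, by omega, by simpa using (a4.trans a2.symm).trans a3⟩
    omega
  · rw [if_neg hx]
    have a2 : Wk d w (-1 - y').natAbs (x, y') (x, y' + ((-1 - y').natAbs : ℕ)) 0 := by
      refine wk_v x y' _ (Or.inr (by omega)) fun t h3 h4 => ?_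
      rw [mem_An]
      dsimp only
      omega
    rw [show y' + ((-1 - y').natAbs : ℤ) = -1 by omega] at a2
    have a3 : Wk d w (x' - x).natAbs (x, y') (x', y') 0 := by
      refine wk_h' fun t h3 h4 => ?_
      rw [mem_An]
      dsimp only
      omega
    have a4 := Wk.step a1.symm a2.right_mem (st_r (x := x) (by omega)).symm
    refine ⟨_, ?_, by omega, by simpa using (a4.trans a2.symm).trans a3⟩
    omega

theorem exists_wk {D : ℤ} (hd : D + 2 < d) {s s' : ℤ × ℤ} (hs : s ∈ An d w) (hs' : s' ∈ An d w)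
    (h1 : |s.1 - s'.1| ≤ D) (h2 : |s.2 - s'.2| ≤ D) :
    ∃ n : ℕ, (n : ℤ) ≤ 2 * D + 1 ∧ Wk d w n s s' (lv2 s.1 s'.2 + lv2 s.1 s.2) := by
  obtain ⟨x, y⟩ := s
  obtain ⟨x', y'⟩ := s'
  dsimp only at h1 h2 ⊢
  have h1' : |x' - x| ≤ D := by rw [abs_sub_comm]; exact h1
  have h2' : |y' - y| ≤ D := by rw [abs_sub_comm]; exact h2
  have zz : ∀ a : ZMod 2, a + a = 0 := by decide
  rcases lt_or_ge y 0 with hy | hy <;> rcases lt_or_ge y' 0 with hy' | hy'
  · have e : lv2 x y' + lv2 x y = 0 := by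
      have : lv2 x y' = lv2 x y := by
        unfold lv2
        refine if_congr ?_ rfl rfl
        simp only [hy, hy', and_true]
      rw [this, zz]
    rw [e]
    rcases le_total y' y with h | h
    · exact wk_ll hd hs hs' h1 h2 hy h
    · obtain ⟨n, hn, hw⟩ := wk_ll hd hs' hs h1' h2' hy' h
      exact ⟨n, hn, hw.symm⟩
  · obtain ⟨n, hn, hx, hw⟩ := wk_ul hd hs' hs h1' h2' hy' hy
    refine ⟨n, hn, ?_⟩
    have e : lv2 x y' + lv2 x y = if x' < 0 then 1 else 0 := by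
      unfold lv2
      rw [if_neg (fun h => absurd h.2 (by omega)), zero_add]
      exact if_congr (by rw [hx]; exact and_iff_left hy) rfl rfl
    rw [e]
    exact hw.symm
  · obtain ⟨n, hn, hx, hw⟩ := wk_ul hd hs hs' h1 h2 hy hy'
    refine ⟨n, hn, ?_⟩
    have e : lv2 x y' + lv2 x y = if x < 0 then 1 else 0 := by
      unfold lv2
      rw [if_neg (c := x < 0 ∧ y < 0) (fun h => absurd h.2 (by omega)), add_zero]
      exact if_congr (and_iff_left hy') rfl rfl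
    rw [e]
    exact hw
  · have e : lv2 x y' + lv2 x y = 0 := by
      unfold lv2
      rw [if_neg (fun h => absurd h.2 (by omega)), if_neg (fun h => absurd h.2 (by omega)),
        add_zero]
    rw [e]
    rcases le_total y y' with h | h
    · exact wk_uu hd hs hs' h1 h2 hy h
    · obtain ⟨n, hn, hw⟩ := wk_uu hd hs' hs h1' h2' hy' h
      exact ⟨n, hn, hw.symm⟩

end T3HAux

theorem exists_sepH {r : ℕ} {d w W D : ℤ} (hD : 0 ≤ D) (hd : D + 2 < d) (hdw : d < w) (hwW : w ≤ W)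
    (hr : 2 * D + 1 ≤ r) {i : Fin 3} {ω : Cfg} {sec : ℤ × ℤ → Fin 3} {kap : ℤ × ℤ → ZMod 2}
    (H : IsSec TQ ω (An 0 W) leg (fun j => j) (fun j => j + 2) sec kap) {χ : ℤ × ℤ → ZMod 2}
    (hχ : PotQ TQ (An 0 W) (fun p q => indU TQ ω (An 0 W) (leg (i + 2)) p q + cutK p q) χ)
    (hN : ω ∉ NT r d w W i) :
    ∃ h : ℤ × ℤ → ZMod 2, SepH D {f | f ∈ An d w ∧ ∃ k, sec (TQ.c f k) = i} h := by
  classical
  have hAF : An d w ⊆ An 0 W := fun f hf =>
    ⟨BW_mono hwW hf.1, fun h => hf.2 (BW_mono (by omega) h)⟩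
  have hX : ∀ f ∈ An 0 W, ∀ (v : ZMod 2) k,
      (χ (TQ.c f k) + T3HAux.cb f k + v) + (χ (TQ.c f (k + 1)) + T3HAux.cb f (k + 1) + v) =
        indU TQ ω (An 0 W) (leg (i + 2)) (TQ.c f k) (TQ.c f (k + 1)) := by
    intro f hf v k
    have h1 := hχ f hf k
    have h2 := T3HAux.cb_add f k
    dsimp only at h1
    rw [← h2] at h1
    generalize indU TQ ω (An 0 W) (leg (i + 2)) (TQ.c f k) (TQ.c f (k + 1)) = u at h1 ⊢
    generalize χ (TQ.c f k) = a at h1 ⊢
    generalize χ (TQ.c f (k + 1)) = b at h1 ⊢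
    generalize T3HAux.cb f k = c at h1 ⊢
    generalize T3HAux.cb f (k + 1) = c' at h1 ⊢
    clear * - h1
    revert a b c c' u v
    decide
  have hN' : ∀ f ∈ Vis TQ ω (An 0 W) (leg (i + 1)),
      f ∉ Zn TQ (An d w) (Vis TQ ω (An 0 W) (leg i)) (VR TQ ω (An 0 W) (leg i) ∩ An d w) r :=
    fun f h1 h2 => hN ⟨f, h1, h2⟩
  have key : ∀ (n : ℕ) (f g : ℤ × ℤ) (v : ZMod 2), T3HAux.Wk d w n f g v → n ≤ r →
      ∀ a, sec (TQ.c f a) = i →
      T3HAux.Inv TQ ω (An 0 W) (An d w) leg sec i (χ (TQ.c f a) + T3HAux.cb f a) n g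
        (fun k => χ (TQ.c g k) + T3HAux.cb g k + v) := by
    intro n f g v hw
    induction hw with
    | refl h =>
      intro _ a ha
      exact Or.inl ⟨a, ha, add_zero _⟩
    | step h1 h2 h3 ih =>
      rename_i n f g h v u
      intro hn a ha
      obtain ⟨k, l, e1, e2, e3, e4⟩ := h3
      refine T3HAux.inv_step H hAF hN' h1.right_mem h2 (hX g (hAF h1.right_mem) v)
        (hX h (hAF h2) (v + u)) e1 e2 ?_ ?_ hn (ih (by omega) a ha)
      · rw [e1, e3]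
        generalize χ (TQ.c g (k + 1)) = x
        generalize T3HAux.cb g (k + 1) = y
        clear * -
        revert x y u v
        decide
      · rw [e2, e4]
        generalize χ (TQ.c g k) = x
        generalize T3HAux.cb g k = y
        clear * -
        revert x y u v
        decide
  refine ⟨fun f => if h : ∃ k, sec (TQ.c f k) = i then
    χ (TQ.c f h.choose) + T3HAux.cb f h.choose else 0, ?_⟩
  rintro s ⟨hs, hsi⟩ s' ⟨hs', hsi'⟩ h1 h2
  obtain ⟨n, hn, hw⟩ := T3HAux.exists_wk hd hs hs' h1 h2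
  dsimp only
  rw [dif_pos hsi, dif_pos hsi']
  have h3 := key n s s' _ hw (by omega) _ hsi.choose_spec
  have h4 : χ (TQ.c s' hsi'.choose) + T3HAux.cb s' hsi'.choose + (lv2 s.1 s'.2 + lv2 s.1 s.2) =
      χ (TQ.c s hsi.choose) + T3HAux.cb s hsi.choose := by
    rcases h3 with ⟨a, ha, h5⟩ | ⟨h5, -⟩
    · rw [← h5]
      exact T3HAux.val_eq H (hX s' (hAF hs') _) hsi'.choose_spec ha
    · exact absurd hsi'.choose_spec (h5 _)
  generalize χ (TQ.c s' hsi'.choose) + T3HAux.cb s' hsi'.choose = a at h4 ⊢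
  generalize χ (TQ.c s hsi.choose) + T3HAux.cb s hsi.choose = b at h4 ⊢
  generalize lv2 s.1 s'.2 = c at h4 ⊢
  generalize lv2 s.1 s.2 = c' at h4 ⊢
  clear * - h4
  revert a b c c'
  decide

end Pool.Agent.Perc.Q

end Partperc3T3H

section Partperc3T3Path

/-!
# T3, row Path: coarse graining of a chain to a rectilinear corridor with few corners
-/

set_option autoImplicit false

namespace Pool.Agent.Perc3

open Finset Pool.Agent.Perc Pool.Agent.Perc.Q Pool.Agent.PercS5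

/-- The square of side `σ` of a face. -/
def sqr (σ : ℤ) (f : ℤ × ℤ) : ℤ × ℤ := (f.1 / σ, f.2 / σ)

/-- The corner of a square. -/
def cnr (σ : ℤ) (a : ℤ × ℤ) : ℤ × ℤ := (a.1 * σ, a.2 * σ)

theorem cnr_sqr {σ : ℤ} (hσ : 1 ≤ σ) (f : ℤ × ℤ) :
    (cnr σ (sqr σ f)).1 ≤ f.1 ∧ f.1 < (cnr σ (sqr σ f)).1 + σ ∧
      (cnr σ (sqr σ f)).2 ≤ f.2 ∧ f.2 < (cnr σ (sqr σ f)).2 + σ := by
  unfold cnr sqr
  simp only
  have h1 := Int.ediv_mul_le f.1 (by omega : σ ≠ 0)
  have h2 := Int.ediv_mul_le f.2 (by omega : σ ≠ 0)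
  have h3 := Int.lt_ediv_add_one_mul_self f.1 (by omega : 0 < σ)
  have h4 := Int.lt_ediv_add_one_mul_self f.2 (by omega : 0 < σ)
  rw [add_mul, one_mul] at h3 h4
  exact ⟨h1, h3, h2, h4⟩

theorem div_step {σ x y : ℤ} (hσ : 1 ≤ σ) (h : y = x + 1) :
    y / σ = x / σ ∨ y / σ = x / σ + 1 := by
  subst h
  have h1 : x / σ ≤ (x + 1) / σ := Int.ediv_le_ediv (by omega) (by omega)
  have h2 : (x + 1) / σ ≤ (x + 1 * σ) / σ := Int.ediv_le_ediv (by omega) (by omega)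
  rw [Int.add_mul_ediv_right _ _ (by omega)] at h2
  omega

/-- The squares with a free face. -/
def FrS (σ : ℤ) (S : Set (ℤ × ℤ)) (a : ℤ × ℤ) : Prop := ∃ f, FreeS (4 * σ) S f ∧ sqr σ f = a

/-- The points which are far from `S`. -/
def FaS (σ : ℤ) (S : Set (ℤ × ℤ)) (q : ℤ × ℤ) : Prop :=
  ∀ s ∈ S, 2 * σ < max |q.1 - s.1| |q.2 - s.2|

theorem chain_sqr {σ : ℤ} {S : Set (ℤ × ℤ)} (hσ : 1 ≤ σ) {f g : ℤ × ℤ}
    (h : ChainS (4 * σ) S f g) :
    Relation.ReflTransGen (Stp (FrS σ S)) (sqr σ f) (sqr σ g) := by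
  induction h with
  | refl => exact Relation.ReflTransGen.refl
  | @tail b c _ hs ih =>
    obtain ⟨hadj, hb, hc⟩ := hs
    have hB : FrS σ S (sqr σ b) := ⟨b, hb, rfl⟩
    have hC : FrS σ S (sqr σ c) := ⟨c, hc, rfl⟩
    by_cases he : sqr σ b = sqr σ c
    · rwa [← he]
    · refine ih.tail ⟨?_, hB, hC⟩
      unfold sqr at he ⊢
      simp only [Prod.mk.injEq, not_and_or] at he
      rcases hadj with ⟨h1, h2 | h2⟩ | ⟨h1, h2 | h2⟩
      · rw [h1] at he ⊢
        right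
        refine ⟨?_, rfl⟩
        rcases div_step hσ h2 with h3 | h3
        · exact absurd h3.symm (he.resolve_right (by simp))
        · rw [h3]; simp
      · rw [h1] at he ⊢
        right
        refine ⟨?_, rfl⟩
        rcases div_step hσ h2 with h3 | h3
        · exact absurd h3 (he.resolve_right (by simp))
        · rw [h3]; simp
      · rw [h1] at he ⊢
        left
        refine ⟨rfl, ?_⟩
        rcases div_step hσ h2 with h3 | h3
        · exact absurd h3.symm (he.resolve_left (by simp))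
        · rw [h3]; simp
      · rw [h1] at he ⊢
        left
        refine ⟨rfl, ?_⟩
        rcases div_step hσ h2 with h3 | h3
        · exact absurd h3 (he.resolve_left (by simp))
        · rw [h3]; simp

theorem far_of_near {σ : ℤ} {S : Set (ℤ × ℤ)} (hσ : 1 ≤ σ) {a q : ℤ × ℤ} (ha : FrS σ S a)
    (h1 : |q.1 - (cnr σ a).1| ≤ σ) (h2 : |q.2 - (cnr σ a).2| ≤ σ) : FaS σ S q := by
  obtain ⟨f, hf, rfl⟩ := ha
  intro s hs
  have h3 := hf s hs
  have h4 := cnr_sqr hσ f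
  rw [lt_max_iff, lt_abs, lt_abs] at h3 ⊢
  rw [abs_le] at h1 h2
  omega

theorem seg_stp {σ : ℤ} {S : Set (ℤ × ℤ)} (hσ : 1 ≤ σ) {a b : ℤ × ℤ}
    (h : Stp (FrS σ S) a b) :
    ∃ c, SegP (FaS σ S) (cnr σ a) c ∧ SegP (FaS σ S) c (cnr σ b) := by
  obtain ⟨hadj, ha, hb⟩ := h
  refine ⟨cnr σ b, ⟨?_, ?_⟩, Or.inl rfl, ?_⟩
  · unfold cnr
    simp only
    rcases hadj with ⟨h1, -⟩ | ⟨-, h1⟩
    · exact Or.inl (by rw [h1])
    · exact Or.inr (by rw [h1])
  · intro q q1 q2 q3 q4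
    have e : |(cnr σ a).1 - (cnr σ b).1| ≤ σ ∧ |(cnr σ a).2 - (cnr σ b).2| ≤ σ := by
      unfold cnr
      simp only
      rw [← sub_mul, ← sub_mul, abs_mul, abs_mul, abs_of_nonneg (by omega : 0 ≤ σ)]
      rcases hadj with ⟨h1, h2⟩ | ⟨h2, h1⟩
      · rw [h1, h2]
        constructor
        · simp; omega
        · omega
      · rw [h1, h2]
        constructor
        · omega
        · simp; omega
    rw [abs_le, abs_le] at e
    refine far_of_near hσ ha ?_ ?_ <;> rw [abs_le] <;> omega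
  · intro q q1 q2 q3 q4
    rw [min_self] at q1 q3
    rw [max_self] at q2 q4
    refine far_of_near hσ hb ?_ ?_ <;> rw [abs_le] <;> omega

/-- Squares of side `σ`: at most `(2 K + 12) ^ 2` of them meet the box of radius `L + 4 σ`. -/
theorem exists_corr (K : ℕ) : ∃ m : ℕ, ∀ (L σ d : ℤ) (S : Set (ℤ × ℤ)) (f : ℤ × ℤ), 1 ≤ σ →
    2 * σ + 2 < d → d ≤ L → L ≤ K * σ →
    ¬ (-(L + 4 * σ) ≤ f.1 ∧ f.1 < L + 4 * σ ∧ -(L + 4 * σ) ≤ f.2 ∧ f.2 < L + 4 * σ) →
    ChainS (4 * σ) S (-1, 0) f →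
    ∃ (u : ℤ × ℤ) (l : List (ℤ × ℤ)), Corr L L d u l ∧ l.length ≤ m ∧
      ∀ g ∈ S, FarP (2 * σ) u l g := by
  classical
  refine ⟨2 * (Icc (-(K : ℤ)) K ×ˢ Icc (-(K : ℤ)) K).card, ?_⟩
  intro L σ d S f hσ hd hdL hLK hf hch
  set T : Finset (ℤ × ℤ) := (Icc (-(K : ℤ)) K ×ˢ Icc (-(K : ℤ)) K).filter
    fun a => |(cnr σ a).1| ≤ L ∧ |(cnr σ a).2| ≤ L with hT
  have hmul : ∀ x : ℤ, |x * σ| ≤ L → -(K : ℤ) ≤ x ∧ x ≤ K := by
    intro x hx
    rw [abs_le] at hx
    constructor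
    · by_contra hcon
      have h1 : x + 1 ≤ -(K : ℤ) := by omega
      have h2 := mul_le_mul_of_nonneg_right h1 (by omega : 0 ≤ σ)
      rw [add_mul, one_mul, neg_mul] at h2
      omega
    · by_contra hcon
      have h1 : (K : ℤ) + 1 ≤ x := by omega
      have h2 := mul_le_mul_of_nonneg_right h1 (by omega : 0 ≤ σ)
      rw [add_mul, one_mul] at h2
      omega
  have hmem : ∀ a : ℤ × ℤ, a ∈ T ↔ |(cnr σ a).1| ≤ L ∧ |(cnr σ a).2| ≤ L := by
    intro a
    rw [hT, mem_filter, mem_product, mem_Icc, mem_Icc]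
    constructor
    · exact fun h => h.2
    · exact fun h => ⟨⟨hmul _ h.1, hmul _ h.2⟩, h⟩
  have h0 : sqr σ (-1, 0) = (-1, 0) := by
    unfold sqr
    simp only [Int.zero_ediv, Prod.mk.injEq, and_true]
    rw [Int.ediv_eq_iff_of_pos (by omega)]
    omega
  have hch' := chain_sqr hσ hch
  rw [h0] at hch'
  have ha : ((-1, 0) : ℤ × ℤ) ∈ T := by
    rw [hmem]
    unfold cnr
    simp only
    rw [abs_le, abs_le]
    omega
  have hb : sqr σ f ∉ T := by
    rw [hmem]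
    have h4 := cnr_sqr hσ f
    rw [abs_le, abs_le]
    omega
  obtain ⟨b', l, hb', hP, hl, hlen⟩ := exists_path (P := FaS σ S) (g := cnr σ)
    (fun a b h => seg_stp hσ h) ha hb hch'
  have hu : cnr σ (-1, 0) = (-σ, 0) := by
    unfold cnr
    simp only [neg_mul, one_mul, zero_mul]
  rw [hu] at hP hl
  rw [hmem] at hb'
  obtain ⟨l', k1, k2, k3, k4⟩ := trim (L := L) (w := L) l (-σ, 0)
    (by simp only; rw [abs_le]; omega) (by simp only; rw [abs_zero]; omega) hP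
    (by rw [hl]; exact hb')
  refine ⟨(-σ, 0), l', ⟨k1.rectil, ?_, k3, k4⟩, ?_, ?_⟩
  · simp only
    rw [abs_lt, abs_lt]
    omega
  · refine k2.trans (hlen.trans ?_)
    exact Nat.mul_le_mul_left 2 (card_le_card (filter_subset _ _))
  · intro g hg a hon
    exact k1.onPath l' a hon g hg

end Pool.Agent.Perc3

end Partperc3T3Path
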