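import Pool.Agent.Lib.MP_6bd702_zc.Pre
import Pool.Agent.Lib.MP_6bd702_zc.Y030
import Pool.Agent.Lib.MP_6bd702_zc.Y032
import Pool.Agent.Lib.MP_6bd702_zc.Y038
import Pool.Agent.Lib.MP_6bd702_zc.Y033
import Pool.Agent.Lib.MP_6bd702_zc.Y006

section Partperc6Insert

/-!
# Insertion of a success and a tag
-/

set_option autoImplicit false

namespace Pool.Agent.Perc6

open Finset Pool.Agent.Perc Pool.Agent.PercD Pool.Agent.PercL

namespace InsertAux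

theorem mixC_mem {S : Set (ℤ × ℤ)} {ω ξ : Cfg} {f : ℤ × ℤ} (h : f ∈ S) : mixC S ω ξ f = ω f :=
  if_pos h

theorem mixC_notMem {S : Set (ℤ × ℤ)} {ω ξ : Cfg} {f : ℤ × ℤ} (h : f ∉ S) :
    mixC S ω ξ f = ξ f := if_neg h

/-- The box of a cell with a margin is in the large box. -/
theorem box_sub {g : Geo} (hg : g.Ok) {j : ℕ} (hj : j < g.m) {i : ℤ} (hi : i ∈ g.Is j) :
    BR (g.cen j i, g.h) (64 * g.μ j) ⊆ BR (g.cB, g.h) g.RB := by
  have h1 := hg.box_anc hj i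
  have h2 : g.anc j i g.m = 0 := by
    have := hg.anc_mem hj.le le_rfl hi
    unfold Geo.Is at this
    rw [mem_Ico, Nat.sub_self, pow_zero] at this
    omega
  rw [h2] at h1
  refine h1.trans ?_
  intro f hf
  have hμ := hg.μ_pos g.m
  have ha := hg.a_pos g.m
  rw [mem_BR] at hf ⊢
  unfold Geo.cB Geo.RB
  simp only at hf ⊢
  omega

/-- The weights on the cells with an index in the square. -/
theorem goodW_mono {s A : ℝ} {M : ℤ} {Z Z' : Set (ℤ × ℤ)} (h : GoodW s A M Z)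
    (hZ : ∀ z ∈ IM M, z ∈ Z → z ∈ Z') : GoodW s A M Z' := by
  classical
  obtain ⟨c, h1, h2, h3, h4⟩ := h
  refine ⟨fun z => if z ∈ IM M then c z else 0, ?_, ?_, ?_, ?_⟩
  · intro z
    simp only
    split_ifs
    · exact h1 z
    · exact le_refl _
  · intro z hz
    simp only
    split_ifs with h5
    · exact h2 z fun h6 => hz (hZ z h5 h6)
    · rfl
  · rw [← h3]
    exact Finset.sum_congr rfl fun z hz => if_pos hz
  · refine le_of_eq_of_le ?_ h4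
    refine Finset.sum_congr rfl fun z hz => Finset.sum_congr rfl fun z' hz' => ?_
    simp only
    rw [if_pos hz, if_pos hz']

theorem rim_congr {η ξ : Cfg} {x y s : ℤ} (h : ∀ f ∈ RF x (x + s) y (y + s), η f = ξ f) :
    Rim η x y s = Rim ξ x y s := by
  funext p
  unfold Rim
  refine propext (exists_congr fun z => and_congr_left' ?_)
  exact GridA.conn_iff _ (fun f hf => h f hf) p z

theorem seen_congr {η ξ : Cfg} {col x y M q e : ℤ} {z : ℤ × ℤ}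
    (h : ∀ f ∈ RF x (x + 4 * (M * q * e)) y (y + 4 * (M * q * e)), η f = ξ f)
    (hs : Seen ξ col x y M q e z) : Seen η col x y M q e z := by
  have h1 := rim_congr h
  have h2 : FreeSq η col x y (4 * (M * q * e)) e = FreeSq ξ col x y (4 * (M * q * e)) e := by
    funext t
    unfold FreeSq
    rw [h1]
  have h3 : SqStep η col x y (4 * (M * q * e)) e = SqStep ξ col x y (4 * (M * q * e)) e := by
    funext t t'
    unfold SqStep
    rw [h2]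
  unfold Seen at hs ⊢
  rw [h2, h3]
  exact hs

/-- The vertices of a cell of the window. -/
theorem inCell_bounds {x y M q e : ℤ} {z p : ℤ × ℤ} (hM : 1 ≤ M) (hq : 1 ≤ q) (he : 1 ≤ e)
    (hz : z ∈ IM M) (h : InCell x y M q e z p) :
    x ≤ p.1 ∧ p.1 ≤ x + 4 * (M * q * e) ∧ y + M * q * e ≤ p.2 ∧ p.2 ≤ y + 3 * (M * q * e) := by
  unfold IM at hz
  rw [mem_product, mem_Ico, mem_Ico] at hz
  unfold InCell at h
  obtain ⟨⟨z1, z2⟩, z3, z4⟩ := hz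
  obtain ⟨a1, a2, a3, a4⟩ := h
  have hqe : 0 < q * e := by positivity
  have e1 : M * q * e = q * e * M := by ring
  rw [e1]
  generalize q * e = Q at *
  have b1 : 0 ≤ Q * (M + z.1) := mul_nonneg hqe.le (by omega)
  have b2 : Q * (M + z.1 + 1) ≤ Q * (3 * M) := mul_le_mul_of_nonneg_left (by omega) hqe.le
  have b3 : Q * M ≤ Q * (M + z.2) := mul_le_mul_of_nonneg_left (by omega) hqe.le
  have b4 : Q * (M + z.2 + 1) ≤ Q * (3 * M) := mul_le_mul_of_nonneg_left (by omega) hqe.le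
  have b5 : Q * (3 * M) = 3 * (Q * M) := by ring
  have b6 : 0 < Q * M := mul_pos hqe (by omega)
  omega

end InsertAux

open InsertAux

/-- Deterministic part: the walls and the occupied cells of the window give the first success. -/
theorem insert_det {g : Geo} (hg : g.Ok) {s A : ℝ} {j : ℕ} (hj : j < g.m) {i : ℤ}
    (hi : i ∈ g.Is j) {k : ℤ × ℤ} (hk : k ∈ g.K) {τ τ' : ℤ} {ω ξ : Cfg} (hω : ω ∈ g.G j i k)
    (hns : ω ∈ g.NS s A j i k)
    (h1 : cycE (g.cen j i) g.h g.w (32 * g.μ j) τ ∈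
      MM ω (Slit g.h g.w g.cB g.RB (g.cen j i) (32 * g.μ j)) (cycE g.cB g.h g.w g.RB k.1))
    (h2 : cycE (g.cen j i) g.h g.w (32 * g.μ j) τ' ∈
      MM ω (Slit g.h g.w g.cB g.RB (g.cen j i) (32 * g.μ j)) (cycE g.cB g.h g.w g.RB k.2))
    (h3 : 3 * g.a j ≤ τ) (h4 : τ + 8 * g.a j ≤ τ') (h5 : τ' + 3 * g.a j ≤ len g.w (32 * g.μ j))
    {SP SD SU SL : Finset (ℤ × ℤ)} {P D : Set Cfg}
    (hP : WallP g.col g.h g.w (g.cen j i) (g.a j) g.N τ τ' SP P)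
    (hD : WallD g.col g.h g.w (g.cen j i) (g.a j) g.N τ τ' SD SU SL D)
    (hξP : ξ ∈ P) (hξD : ξ ∈ D)
    (hξO : GoodW s A g.M {z | OccAt ξ g.col (g.cen j i + 8 * g.μ j) (g.h + g.w) g.M g.q (g.η j) z}) :
    mixC (g.St ω j i k) ω ξ ∈ g.Fs s A j i k := by
  have hag : ∀ f ∈ g.St ω j i k, ω f = mixC (g.St ω j i k) ω ξ f := fun f hf =>
    (mixC_mem hf).symm
  have hμ := Geo.μ_eq g j
  have hn := hg.nest hj hi
  have hn4 := hg.nest4 hj hi
  have hbox := box_sub hg hj hi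
  have hM1 : (1 : ℤ) ≤ g.M := by exact_mod_cast hg.M1
  have hq1 : (1 : ℤ) ≤ g.q := by exact_mod_cast hg.q1
  have he1 := hg.η_pos j
  -- the window
  have hwin : ∀ f ∈ g.Win j i, mixC (g.St ω j i k) ω ξ f = ξ f := by
    intro f hf
    have h6 := (mem_sdiff.1 (hg.win_sub j i hf)).1
    refine mixC_notMem fun h7 => ?_
    exact Set.disjoint_left.1 (Geo.St_disj hg hj hi) h7 h6
  obtain ⟨⟨X, hX1, hX2, hX3, hX4, hX5, hX6, hX7⟩, hmeet⟩ := insert_geo (col := g.col)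
    (w := g.w) (c := g.cen j i) (a := g.a j) (N := g.N) (k := k) (τ := τ) (τ' := τ')
    (cB := g.cB) (RB := g.RB) (h := g.h)
    (ω := ω) (ξ := ξ) (η := mixC (g.St ω j i k) ω ξ) (hg.w_le j) hg.N8 (by rw [← hμ]; exact hn)
    (by rw [← hμ]; exact hn4) (by rw [← hμ]; exact hbox) hg.col01 hk (by rw [← hμ]; exact hω)
    (by rw [← hμ]; exact h1) (by rw [← hμ]; exact h2) h3 h4 (by rw [← hμ]; exact h5) hP hD hξP hξD
    (by
      rw [← hμ]
      intro f hf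
      exact mixC_mem (Or.inl hf))
    (by
      rw [← hμ]
      intro f hf hfS
      exact mixC_notMem fun h6 => hfS (Geo.St_near hg hj hi hf h6))
  rw [← hμ] at hmeet
  have hμ8 := hg.μ_pos j
  have ha1 := hg.a_pos j
  refine ⟨⟨X, ?_, hX6, hX7⟩, Geo.NS_congr hg hag hns, ?_⟩
  · unfold Geo.Vs BandV
    rw [mem_filter, mem_product, mem_Ico, mem_Icc]
    have e1 : g.cen j i = g.x₀ + 2 * i * g.μ j + g.μ j := by unfold Geo.cen; ring
    have e2 : g.x₀ + 2 * (i + 1) * g.μ j = g.x₀ + 2 * i * g.μ j + 2 * g.μ j := by ring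
    rw [e2]
    refine ⟨⟨⟨?_, ?_⟩, hX3, hX4⟩, hX5⟩ <;> omega
  · refine goodW_mono hξO fun z hz hocc => ?_
    obtain ⟨⟨b, p, p', hb, hp, hpc, hpc', hpt, hpt'⟩, hseen⟩ := hocc
    have b1 := inCell_bounds hM1 hq1 he1 hz hpc
    have b2 := inCell_bounds hM1 hq1 he1 hz hpc'
    have eμ : (g.M : ℤ) * g.q * g.η j = g.μ j := rfl
    rw [eμ] at b1 b2 hpt hpt'
    refine ⟨⟨b, p, p', hb, hpc, hpc', ?_⟩, ?_⟩
    · refine hmeet b p p' hb hp (by omega) (by omega) ?_ ?_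
      · obtain ⟨t, ht1, ht2⟩ := hpt
        refine ⟨t, ?_, by omega⟩
        unfold WF
        have e3 : g.cen j i + 12 * g.μ j = g.cen j i + 8 * g.μ j + 4 * g.μ j := by ring
        rw [e3]
        exact ht1
      · obtain ⟨t, ht1, ht2⟩ := hpt'
        refine ⟨t, ?_, by omega⟩
        unfold WF
        have e3 : g.cen j i + 12 * g.μ j = g.cen j i + 8 * g.μ j + 4 * g.μ j := by ring
        rw [e3]
        exact ht1
    · refine seen_congr (fun f hf => hwin f ?_) hseen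
      rw [eμ] at hf
      unfold Geo.Win
      have e3 : g.cen j i + 12 * g.μ j = g.cen j i + 8 * g.μ j + 4 * g.μ j := by ring
      rw [e3]
      exact hf

/-- (T3) The insertion. -/
theorem insert_step {col : ℤ} (hocc : OccHyp col) {s : ℝ} (hs : 0 < s) (hs' : s < 4 / 3) {N : ℤ}
    (hN : 8 ≤ N) : ∃ (κ A : ℝ) (M₀ : ℕ), 0 < κ ∧ 1 ≤ M₀ ∧ ∀ M : ℕ, M₀ ≤ M → ∃ q b₀ : ℕ,
      1 ≤ q ∧ ∀ g : Geo, g.Ok → g.col = col → g.N = N → g.M = M → g.q = q → (b₀ : ℤ) ≤ g.b → ∀ W : Finset (ℤ × ℤ),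
      g.B ⊆ W → ∀ j < g.m, ∀ i ∈ g.Is j, ∀ k ∈ g.K,
        κ * pr W (g.G j i k ∩ g.NS s A j i k ∩ g.Sep j i k) ≤ pr W (g.Fs s A j i k) := by
  classical
  obtain ⟨δ, hδ, hwalls⟩ := exists_walls hN
  obtain ⟨κ, A, M₀, hκ, hM₀, hO⟩ := hocc s hs hs' δ hδ
  refine ⟨κ, A, M₀, hκ, hM₀, fun M hM => ?_⟩
  obtain ⟨q, n₀, hq, hO'⟩ := hO M hM
  refine ⟨q, n₀, hq, ?_⟩
  intro g hg hcol hNg hMg hqg hb W hBW j hj i hi k hk
  -- the fresh event
  have key : ∀ ω ∈ g.G j i k ∩ g.NS s A j i k ∩ g.Sep j i k, ∃ E : Set Cfg, κ ≤ pr W E ∧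
      ∀ ξ ∈ E, mixC (g.St ω j i k) ω ξ ∈ g.Fs s A j i k := by
    rintro ω ⟨⟨hG, hNS⟩, τ, τ', h3, h4, h5, h1, h2⟩
    have hμ := Geo.μ_eq g j
    have hμ8 := hg.μ_pos j
    have ha1 := hg.a_pos j
    have hbox := box_sub hg hj hi
    obtain ⟨SP, SD, SU, SL, P, D, hdis, hP, hD, hpr⟩ := hwalls col g.h g.w (g.cen j i) (g.a j)
      τ τ' hg.w1 (hg.w_le j) h3 h4 (by rw [← hNg, ← hμ]; exact h5)
    rw [← hNg, ← hμ] at hpr
    rw [← hNg, ← hcol] at hP hD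
    have hsub : BR (g.cen j i, g.h) (32 * g.μ j + 2 * g.a j) ⊆ W := by
      refine subset_trans ?_ (hbox.trans hBW)
      intro f hf
      rw [mem_BR] at hf ⊢
      simp only at hf ⊢
      omega
    obtain ⟨hprP, hprD⟩ := hpr W hsub
    refine ⟨P ∩ D ∩ {ω | GoodW s A M {z | OccAt ω col (g.cen j i + 8 * g.μ j) (g.h + g.w) M q
      (g.η j) z}}, ?_, ?_⟩
    · have hPs := hP.sub
      have hDs := hD.sub
      have hPw := hP.win
      have hDw := hD.win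
      rw [← hμ] at hPs hDs hPw hDw
      have eμ : (M : ℤ) * q * g.η j = g.μ j := by rw [← hMg, ← hqg]; rfl
      have hPi := hP.inc
      have hDi := hD.inc
      rw [hcol] at hPi hDi
      refine hO' (g.η j) (g.cen j i + 8 * g.μ j) (g.h + g.w) (hb.trans (hg.b_le_η j)) (hg.η_pos j)
        W SP SD P D ?_ (hPs.trans hsub) (hDs.trans hsub) hdis hP.dep hD.dep hPi hDi ?_ ?_ hprP hprD
      · rw [eμ]
        refine subset_trans ?_ (hbox.trans hBW)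
        intro f hf
        rw [mem_RF] at hf
        rw [mem_BR]
        have hwa := hg.w_le j
        have hw1 := hg.w1
        simp only
        omega
      · intro f hf hfw
        rw [eμ] at hfw ⊢
        refine hPw f hf ?_
        rw [mem_RF] at hfw ⊢
        omega
      · intro f hf hfw
        rw [eμ] at hfw
        have h6 : 2 * f.2 < 2 * (g.h + g.w) + g.μ j := by
          refine hDw f hf ?_
          rw [mem_RF] at hfw ⊢
          omega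
        rw [← eμ] at h6
        exact h6
    · rintro ξ ⟨⟨hξP, hξD⟩, hξO⟩
      refine insert_det hg hj hi hk hG hNS h1 h2 h3 h4 h5 hP hD hξP hξD ?_
      rw [hcol, hMg, hqg]
      exact hξO
  choose! E hE1 hE2 using key
  exact pr_mixC (fun ω => g.St ω j i k) (fun ω ω' h => Geo.st_congr h) _ _ E hE1 hE2

end Pool.Agent.Perc6

end Partperc6Insert

section Partperc6Sum

/-!
# Almost every tag has a success
-/

set_option autoImplicit false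

namespace Pool.Agent.Perc6

open Finset Pool.Agent.Perc Pool.Agent.PercD Pool.Agent.PercL

/-- The abstract summation. `A j` is the expected number of pairs of strands without success which
reach the boxes of level `j`, `Y j` the number of separated ones. -/
theorem sum_abstract {m : ℕ} (hm : 1 ≤ m) {L C₀ C₁ : ℝ} (hL : 0 ≤ L) (A Y : ℕ → ℝ)
    (hA : ∀ j, 0 ≤ A j) (hY : ∀ j, 0 ≤ Y j) (h0 : A m ≤ C₀)
    (h1 : ∀ j < m, A j ≤ L * Y (j + 1) + A (j + 1) / 2)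
    (h2 : ∑ j ∈ range (m + 1), Y j ≤ C₁) : ∃ j < m, A j ≤ (2 * L * C₁ + C₀) / m := by
  have hm' : (0 : ℝ) < m := by exact_mod_cast hm
  have hs : ∑ j ∈ range m, A j ≤ 2 * L * C₁ + C₀ := by
    have e1 : ∑ j ∈ range m, A j ≤ ∑ j ∈ range m, (L * Y (j + 1) + A (j + 1) / 2) :=
      sum_le_sum fun j hj => h1 j (mem_range.1 hj)
    rw [sum_add_distrib, ← mul_sum, ← sum_div] at e1
    have e2 : ∑ j ∈ range m, Y (j + 1) ≤ C₁ := by
      rw [sum_range_succ'] at h2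
      linarith [hY 0]
    have e3 : ∑ j ∈ range m, A (j + 1) = ∑ j ∈ range m, A j + A m - A 0 := by
      rw [← sum_range_succ, sum_range_succ' A m]
      ring
    have e4 : L * ∑ j ∈ range m, Y (j + 1) ≤ L * C₁ := mul_le_mul_of_nonneg_left e2 hL
    rw [e3] at e1
    linarith [hA 0]
  by_contra hcon
  push Not at hcon
  have h3 : ∑ _j ∈ range m, (2 * L * C₁ + C₀) / m < ∑ j ∈ range m, A j :=
    sum_lt_sum_of_nonempty ⟨0, mem_range.2 hm⟩ fun j hj => hcon j (mem_range.1 hj)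
  rw [sum_const, card_range, nsmul_eq_mul, mul_div_cancel₀ _ hm'.ne'] at h3
  linarith

theorem Z1_mem_Vs {g : Geo} {j : ℕ} {i : ℤ} {X : ℤ × ℤ} (h : X ∈ g.Vs j i) :
    (g.cen j i - g.μ j ≤ X.1 ∧ X.1 < g.cen j i + g.μ j) ∧ (g.h - g.w ≤ X.2 ∧ X.2 ≤ g.h + g.w) ∧
      par X = g.col := by
  unfold Geo.Vs BandV at h
  rw [mem_filter, mem_product, mem_Ico, mem_Icc] at h
  obtain ⟨⟨⟨h1, h2⟩, h3⟩, h4⟩ := h
  refine ⟨?_, h3, h4⟩
  unfold Geo.cen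
  constructor
  · linarith
  · linarith

theorem Z1_RB {g : Geo} (hg : g.Ok) : g.w < g.RB := by
  have h1 := hg.w_le g.m
  have h2 := hg.μ_pos g.m
  have h3 := hg.a_pos g.m
  unfold Geo.RB
  linarith

/-- (T4) The first successes of different cells and pairs belong to different tags. -/
theorem sum_Fs_le {g : Geo} (hg : g.Ok) {s A : ℝ} {W : Finset (ℤ × ℤ)} (hW : g.B ⊆ W) :
    ∑ j ∈ range g.m, ∑ i ∈ g.Is j, ∑ k ∈ g.K, pr W (g.Fs s A j i k) ≤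
      ∑ X ∈ g.Vs g.m 0, pr W (TagEv g.h g.w g.cB g.RB X) := by
  classical
  set I : Finset (Σ _ : ℕ, ℤ × (ℤ × ℤ)) := (range g.m).sigma fun j => g.Is j ×ˢ g.K with hI
  have hwR := Z1_RB hg
  have e1 : ∑ j ∈ range g.m, ∑ i ∈ g.Is j, ∑ k ∈ g.K, pr W (g.Fs s A j i k)
      = ∑ x ∈ I, pr W (g.Fs s A x.1 x.2.1 x.2.2) := by
    rw [hI, sum_sigma]
    refine sum_congr rfl fun j _ => ?_
    rw [sum_product]
  rw [e1]
  simp_rw [ProbA.pr_eq_sum]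
  rw [← sum_div, ← sum_div, sum_comm, sum_comm (s := g.Vs g.m 0)]
  refine div_le_div_of_nonneg_right (sum_le_sum fun T _ => ?_) (by positivity)
  set ω := cfg T with hω
  rw [sum_boole, sum_boole]
  have hsel : ∀ x ∈ I.filter fun x => ω ∈ g.Fs s A x.1 x.2.1 x.2.2, ∃ X ∈ g.Vs x.1 x.2.1,
      ω ∈ TagEv g.h g.w g.cB g.RB X ∧ ω ∈ Exit g.h g.w g.cB g.RB X x.2.2 := by
    intro x hx
    exact (mem_filter.1 hx).2.1
  let F : (Σ _ : ℕ, ℤ × (ℤ × ℤ)) → ℤ × ℤ := fun x =>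
    if h : ∃ X ∈ g.Vs x.1 x.2.1,
      ω ∈ TagEv g.h g.w g.cB g.RB X ∧ ω ∈ Exit g.h g.w g.cB g.RB X x.2.2 then h.choose else 0
  have hF : ∀ x ∈ I.filter fun x => ω ∈ g.Fs s A x.1 x.2.1 x.2.2, F x ∈ g.Vs x.1 x.2.1 ∧
      ω ∈ TagEv g.h g.w g.cB g.RB (F x) ∧ ω ∈ Exit g.h g.w g.cB g.RB (F x) x.2.2 := by
    intro x hx
    have h := hsel x hx
    have e : F x = h.choose := dif_pos h
    rw [e]
    exact h.choose_spec
  have key : ∀ x ∈ I.filter fun x => ω ∈ g.Fs s A x.1 x.2.1 x.2.2,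
      ∀ y ∈ I.filter fun x => ω ∈ g.Fs s A x.1 x.2.1 x.2.2, F x = F y → x.1 ≤ y.1 → x = y := by
    intro x hx y hy hxy hle
    obtain ⟨hx1, hx2, hx3⟩ := hF x hx
    obtain ⟨hy1, hy2, hy3⟩ := hF y hy
    obtain ⟨hxI, hxF⟩ := mem_filter.1 hx
    obtain ⟨hyI, hyF⟩ := mem_filter.1 hy
    obtain ⟨j, i, k⟩ := x
    obtain ⟨j', i', k'⟩ := y
    simp only at hx1 hx2 hx3 hy1 hy2 hy3 hxF hyF hxy hle
    rw [hI, mem_sigma, mem_product, mem_range] at hxI hyI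
    simp only at hxI hyI
    rw [← hxy] at hy1 hy3
    set X := F ⟨j, i, k⟩ with hX
    have hpar : par X = g.col := (Z1_mem_Vs hx1).2.2
    have hkk : k = k' := by
      refine exit_unique hg.w1 hwR (X := X) (ω := ω) ?_ ?_ hx3 hy3
      · rw [hpar]; exact hxI.2.2
      · rw [hpar]; exact hyI.2.2
    subst hkk
    have hii : g.anc j i j' = i' := by
      obtain ⟨i₀, -, -, hu⟩ := hg.exists_cell (le_of_lt hyI.1)
        (hg.vs_sub (le_of_lt hyI.1) hyI.2.1 hy1)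
      rw [hu i' hy1]
      exact hu _ (hg.vs_anc hle hx1)
    rcases lt_or_eq_of_le hle with hlt | heq
    · exfalso
      have h1 := hxF.2.1 j' hlt hyI.1
      rw [hii] at h1
      exact h1 hyF.2.2
    · subst heq
      rw [Geo.anc_self] at hii
      subst hii
      rfl
  have hcard : (I.filter fun x => ω ∈ g.Fs s A x.1 x.2.1 x.2.2).card ≤
      ((g.Vs g.m 0).filter fun X => ω ∈ TagEv g.h g.w g.cB g.RB X).card := by
    refine card_le_card_of_injOn F ?_ ?_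
    · intro x hx
      have hx' := mem_coe.1 hx
      obtain ⟨h1, h2, -⟩ := hF x hx'
      have hxI := (mem_filter.1 hx').1
      rw [hI, mem_sigma, mem_product, mem_range] at hxI
      rw [mem_coe, mem_filter]
      exact ⟨hg.vs_sub (le_of_lt hxI.1) hxI.2.1 h1, h2⟩
    · intro x hx y hy hxy
      have hx' := mem_coe.1 hx
      have hy' := mem_coe.1 hy
      rcases le_total x.1 y.1 with h | h
      · exact key x hx' y hy' hxy h
      · exact (key y hy' x hx' hxy.symm h).symm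
  exact_mod_cast hcard

/-- Some tag of the segment has no success on the levels `1 ≤ j < m`. -/
def Fail (g : Geo) (s A : ℝ) : Set Cfg :=
  {ω | ∃ X ∈ g.Vs g.m 0, ω ∈ TagEv g.h g.w g.cB g.RB X ∧ ∀ (j : ℕ) (i : ℤ), 1 ≤ j → j < g.m →
    X ∈ g.Vs j i → ω ∉ SuccX g.col g.h g.w g.cB g.RB (g.cen j i) g.M g.q (g.η j) s A X}

/-- (T5) Independence of the inside and the outside of the boxes of level `j`. -/
theorem fail_le {g : Geo} (hg : g.Ok) {s A : ℝ} {W : Finset (ℤ × ℤ)} (hW : g.B ⊆ W) {j : ℕ}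
    (hj : j < g.m) {C : ℝ} (hC : ∀ i ∈ g.Is j, ∑ X ∈ g.Vs j i, pr W (g.T0 j i X) ≤ C) :
    pr W (Fail g s A) ≤ C * ∑ i ∈ g.Is j, ∑ k ∈ g.K, pr W (g.G j i k ∩ g.NS s A j i k) := by
  classical
  have hwR := Z1_RB hg
  have hcol : ∀ j, 0 < g.μ j := fun j => by
    have h2 := hg.μ_pos j
    have h3 := hg.a_pos j
    linarith
  -- the decomposition
  have hcov : ∀ ω ∈ Fail g s A, ∃ i ∈ g.Is j, ∃ X ∈ g.Vs j i, ∃ k ∈ g.K,
      ω ∈ g.T0 j i X ∩ (g.G j i k ∩ g.NS s A j i k) := by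
    rintro ω ⟨X, hX, hT, hno⟩
    obtain ⟨i, hi, hXi, -⟩ := hg.exists_cell hj.le hX
    obtain ⟨hX1, hX2, hX3⟩ := Z1_mem_Vs hX
    obtain ⟨hXi1, -, -⟩ := Z1_mem_Vs hXi
    have hμ := hcol g.m
    have hμj := hcol j
    have b1 : g.cB - g.RB < X.1 := by
      unfold Geo.cB Geo.RB
      linarith [hX1.1]
    have b2 : X.1 < g.cB + g.RB := by
      unfold Geo.cB Geo.RB
      linarith [hX1.2]
    obtain ⟨k, hk, he⟩ := tag_exit hg.w1 hwR b1 b2 hX2 hT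
    have c1 : g.cen j i - 32 * g.μ j < X.1 := by linarith [hXi1.1]
    have c2 : X.1 < g.cen j i + 32 * g.μ j := by linarith [hXi1.2]
    have hkK : k ∈ g.K := by
      unfold Geo.K
      rw [← hX3]
      exact hk
    refine ⟨i, hi, X, hXi, k, hkK, tag_sub (hg.nest hj hi) c1 c2 hX2 hT,
      tag_Gev (hg.nest hj hi) c1 c2 hX2 hT hk he, ?_⟩
    intro j' hj' hjm hls
    have hi' : g.anc j i j' ∈ g.Is j' := hg.anc_mem hj'.le hjm.le hi
    refine hno j' (g.anc j i j') (by omega) hjm (hg.vs_anc hj'.le hXi) ?_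
    have h1 := hg.nest4 hjm hi'
    unfold Geo.Ls at hls
    unfold Geo.μ at h1
    rw [← hX3] at hls ⊢
    refine succX_of_LS ?_ ?_ (hg.η_pos j') h1 hX2 b1 b2 hk he hls
    · exact_mod_cast hg.M1
    · exact_mod_cast hg.q1
  have hterm : ∀ i ∈ g.Is j, ∀ X ∈ g.Vs j i, ∀ k ∈ g.K,
      pr W (g.T0 j i X ∩ (g.G j i k ∩ g.NS s A j i k))
        = pr W (g.T0 j i X) * pr W (g.G j i k ∩ g.NS s A j i k) := by
    intro i hi X _ k _
    have hn := hg.nest hj hi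
    have hsub : BR (g.cen j i, g.h) (32 * g.μ j) ⊆ g.B := by
      unfold Geo.B
      intro f hf
      rw [mem_BR] at hf ⊢
      have h1 := hn.left
      have h2 := hn.right
      have h3 := hn.rad
      simp only at hf ⊢
      refine ⟨?_, ?_, ?_, ?_⟩ <;> omega
    have hA := Geo.depOn_T0 (g := g) j i X
    have hB := Geo.depOn_GNS (s := s) (A := A) (k := k) hg hj hi
    rw [pr_indep hA hB disjoint_sdiff (hsub.trans hW) (sdiff_subset.trans hW),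
      pr_eq_of_depOn hA (hsub.trans hW), pr_eq_of_depOn hB (sdiff_subset.trans hW)]
  set I : Finset (Σ _ : ℤ, (ℤ × ℤ) × (ℤ × ℤ)) := (g.Is j).sigma fun i => g.Vs j i ×ˢ g.K with hI
  have h1 : pr W (Fail g s A) ≤ ∑ x ∈ I, pr W (g.T0 j x.1 x.2.1 ∩
      (g.G j x.1 x.2.2 ∩ g.NS s A j x.1 x.2.2)) := by
    refine (pr_mono W ?_).trans (pr_biUnion_le W I _)
    intro ω hω
    obtain ⟨i, hi, X, hX, k, hk, h⟩ := hcov ω hω
    rw [Set.mem_iUnion₂]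
    refine ⟨⟨i, X, k⟩, ?_, h⟩
    rw [hI, mem_sigma, mem_product]
    exact ⟨hi, hX, hk⟩
  refine h1.trans ?_
  rw [hI, sum_sigma, mul_sum]
  refine sum_le_sum fun i hi => ?_
  rw [sum_product]
  simp only
  calc ∑ X ∈ g.Vs j i, ∑ k ∈ g.K, pr W (g.T0 j i X ∩ (g.G j i k ∩ g.NS s A j i k))
      = ∑ X ∈ g.Vs j i, ∑ k ∈ g.K, pr W (g.T0 j i X) * pr W (g.G j i k ∩ g.NS s A j i k) :=
        sum_congr rfl fun X hX => sum_congr rfl fun k hk => hterm i hi X hX k hk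
    _ = (∑ X ∈ g.Vs j i, pr W (g.T0 j i X)) * ∑ k ∈ g.K, pr W (g.G j i k ∩ g.NS s A j i k) := by
        rw [sum_mul]
        exact sum_congr rfl fun X _ => (mul_sum _ _ _).symm
    _ ≤ C * ∑ k ∈ g.K, pr W (g.G j i k ∩ g.NS s A j i k) :=
        mul_le_mul_of_nonneg_right (hC i hi) (sum_nonneg fun k _ => pr_nonneg _ _)

theorem Z2_Vs {g : Geo} (hg : g.Ok) (j : ℕ) (i : ℤ) {W : Finset (ℤ × ℤ)} {C : ℝ}
    (hC : ∀ (col h w c R : ℤ) (W : Finset (ℤ × ℤ)), 1 ≤ w →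
    8 * w ≤ R → BR (c, h) R ⊆ W →
      ∑ X ∈ BandV col h w (c - R / 8) (c + R / 8), pr W (TagEv h w c R X) ≤ C)
    (hW : BR (g.cen j i, g.h) (32 * g.μ j) ⊆ W) :
    ∑ X ∈ g.Vs j i, pr W (g.T0 j i X) ≤ C := by
  have hμ := hg.μ_pos j
  have ha := hg.a_pos j
  have hw := hg.w_le j
  have h1 := hC g.col g.h g.w (g.cen j i) (32 * g.μ j) W hg.w1 (by omega) hW
  refine le_trans (sum_le_sum_of_subset_of_nonneg ?_ fun X _ _ => pr_nonneg _ _) h1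
  intro X hX
  unfold Geo.Vs BandV at hX
  unfold BandV
  rw [mem_filter, mem_product, mem_Ico, mem_Icc] at hX ⊢
  refine ⟨⟨⟨?_, ?_⟩, hX.1.2⟩, hX.2⟩
  · have h2 := hX.1.1.1
    unfold Geo.cen
    have h3 : 32 * g.μ j / 8 = 4 * g.μ j := by omega
    rw [h3]
    nlinarith
  · have h2 := hX.1.1.2
    unfold Geo.cen
    have h3 : 32 * g.μ j / 8 = 4 * g.μ j := by omega
    rw [h3]
    nlinarith

/-- The result of the multiscale argument for one segment of a band. -/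
theorem seg_main {col : ℤ} (hcol : col = 0 ∨ col = 1) (hocc : OccHyp col) {s : ℝ} (hs : 0 < s)
    (hs' : s < 4 / 3) {ε : ℝ} (hε : 0 < ε) : ∃ (N : ℤ) (m : ℕ) (A : ℝ) (M₀ : ℕ), 8 ≤ N ∧ 2 ≤ m ∧
      1 ≤ M₀ ∧ ∀ M : ℕ, M₀ ≤ M → ∃ q b₀ : ℕ, 1 ≤ q ∧ ∀ g : Geo, g.Ok → g.col = col → g.N = N → g.L = 64 →
        g.m = m → g.M = M → g.q = q → (b₀ : ℤ) ≤ g.b → ∀ W : Finset (ℤ × ℤ), g.B ⊆ W →
          pr W (Fail g s A) ≤ ε := by
  obtain ⟨N₀, hN₀⟩ := theta_step (θ := 1 / 128) (by norm_num)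
  obtain ⟨κ, A, M₀, hκ, hM₀, hins⟩ := insert_step hocc hs hs' (N := max N₀ 8) (le_max_right _ _)
  obtain ⟨CG, hCG0, hCG⟩ := count_Gev
  obtain ⟨CT, hCT0, hCT⟩ := count_tags
  obtain ⟨m, hm⟩ := exists_nat_gt (CT * (2 * 64 * (CT / κ) + 64 * CG) / ε)
  refine ⟨max N₀ 8, m + 2, A, M₀, le_max_right _ _, by omega, hM₀, fun M hM => ?_⟩
  obtain ⟨q, b₀, hq, hins⟩ := hins M hM
  refine ⟨q, b₀, hq, fun g hg gcol gN gL gm gM gq gb W hW => ?_⟩
  have hins := hins g hg gcol gN gM gq gb W hW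
  have hth := hN₀ g hg (by rw [gN]; exact le_max_left _ _) s A W hW
  -- the sums
  set a : ℕ → ℝ := fun j => ∑ i ∈ g.Is j, ∑ k ∈ g.K, pr W (g.G j i k ∩ g.NS s A j i k) with ha
  set y : ℕ → ℝ := fun j => ∑ i ∈ g.Is j, ∑ k ∈ g.K,
    pr W (g.G j i k ∩ g.NS s A j i k ∩ g.Sep j i k) with hy
  have ha0 : ∀ j, 0 ≤ a j := fun j =>
    sum_nonneg fun i _ => sum_nonneg fun k _ => pr_nonneg _ _
  have hy0 : ∀ j, 0 ≤ y j := fun j =>
    sum_nonneg fun i _ => sum_nonneg fun k _ => pr_nonneg _ _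
  have hBW : ∀ j < g.m, ∀ i ∈ g.Is j, BR (g.cen j i, g.h) (32 * g.μ j) ⊆ W := by
    intro j hj i hi
    obtain ⟨n1, n2, n3, n4, n5⟩ := hg.nest hj hi
    refine Subset.trans ?_ hW
    intro f hf
    unfold Geo.B
    rw [mem_BR] at hf ⊢
    dsimp only at hf ⊢
    omega
  -- (T1)
  have h0 : a (m + 1) ≤ 64 * CG := by
    have hmm : m + 1 < g.m := by omega
    have hIs : (g.Is (m + 1)).card = 64 := by
      unfold Geo.Is
      rw [gm, gL, show m + 2 - (m + 1) = 1 by omega]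
      simp
    have h1 : ∀ i ∈ g.Is (m + 1), ∑ k ∈ g.K, pr W (g.G (m + 1) i k ∩ g.NS s A (m + 1) i k) ≤
        CG := by
      intro i hi
      have hn := hg.nest hmm hi
      have hμ := hg.μ_pos (m + 1)
      have hap := hg.a_pos (m + 1)
      have hμs : g.μ g.m = 64 * g.μ (m + 1) := by
        rw [gm, Geo.μ_succ g (m + 1), gL]
        norm_num
      have hi' : 0 ≤ i ∧ i < 64 := by
        unfold Geo.Is at hi
        rw [gm, gL, show m + 2 - (m + 1) = 1 by omega, mem_Ico] at hi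
        simpa using hi
      refine le_trans (sum_le_sum fun k _ => ?_) (hCG g.col g.h g.w g.cB g.RB (g.cen (m + 1) i)
        (32 * g.μ (m + 1)) W hn ?_ ?_ ?_ hW)
      · exact pr_mono W fun ω hω => hω.1
      · unfold Geo.cB Geo.cen
        rw [hμs]
        nlinarith [hi'.1, hi'.2]
      · unfold Geo.cB Geo.cen
        rw [hμs]
        nlinarith [hi'.1, hi'.2]
      · unfold Geo.RB
        rw [hμs]
        linarith
    calc a (m + 1) ≤ ∑ i ∈ g.Is (m + 1), CG := sum_le_sum h1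
      _ = 64 * CG := by rw [sum_const, hIs, nsmul_eq_mul]; norm_num
  -- (T2)
  have h1 : ∀ j < m + 1, a j ≤ 64 * y (j + 1) + a (j + 1) / 2 := by
    intro j hj
    have hj' : j + 1 < g.m := by omega
    have e1 : a j ≤ ∑ i ∈ g.Is j, (fun i' => (∑ k ∈ g.K,
        pr W (g.G (j + 1) i' k ∩ g.NS s A (j + 1) i' k ∩ g.Sep (j + 1) i' k)) +
        1 / 128 * ∑ k ∈ g.K, pr W (g.G (j + 1) i' k ∩ g.NS s A (j + 1) i' k))
        (g.anc j i (j + 1)) := by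
      refine sum_le_sum fun i hi => ?_
      beta_reduce
      rw [mul_sum, ← sum_add_distrib]
      exact sum_le_sum fun k hk => hth j hj' i hi k hk
    rw [hg.children (by omega : j < g.m) (fun i' => (∑ k ∈ g.K,
        pr W (g.G (j + 1) i' k ∩ g.NS s A (j + 1) i' k ∩ g.Sep (j + 1) i' k)) +
        1 / 128 * ∑ k ∈ g.K, pr W (g.G (j + 1) i' k ∩ g.NS s A (j + 1) i' k)) fun i => ?_] at e1
    · rw [sum_add_distrib, ← mul_sum, gL] at e1
      push_cast at e1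
      have e2 : a (j + 1) = ∑ i ∈ g.Is (j + 1), ∑ k ∈ g.K,
        pr W (g.G (j + 1) i k ∩ g.NS s A (j + 1) i k) := rfl
      have e3 : y (j + 1) = ∑ i ∈ g.Is (j + 1), ∑ k ∈ g.K,
        pr W (g.G (j + 1) i k ∩ g.NS s A (j + 1) i k ∩ g.Sep (j + 1) i k) := rfl
      rw [← e2, ← e3] at e1
      linarith
    · have e2 : 0 ≤ ∑ k ∈ g.K, pr W (g.G (j + 1) i k ∩ g.NS s A (j + 1) i k) :=
        sum_nonneg fun k _ => pr_nonneg _ _
      have e3 : 0 ≤ ∑ k ∈ g.K,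
          pr W (g.G (j + 1) i k ∩ g.NS s A (j + 1) i k ∩ g.Sep (j + 1) i k) :=
        sum_nonneg fun k _ => pr_nonneg _ _
      positivity
  -- (T3), (T4)
  have h2 : ∑ j ∈ range (m + 1 + 1), y j ≤ CT / κ := by
    rw [le_div_iff₀ hκ, mul_comm, mul_sum]
    have e1 : ∑ j ∈ range (m + 1 + 1), κ * y j ≤
        ∑ j ∈ range g.m, ∑ i ∈ g.Is j, ∑ k ∈ g.K, pr W (g.Fs s A j i k) := by
      rw [show m + 1 + 1 = g.m by omega]
      refine sum_le_sum fun j hj => ?_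
      rw [hy]
      beta_reduce
      rw [mul_sum]
      refine sum_le_sum fun i hi => ?_
      rw [mul_sum]
      exact sum_le_sum fun k hk => hins j (mem_range.1 hj) i hi k hk
    refine le_trans e1 (le_trans (sum_Fs_le hg hW) ?_)
    exact Z2_Vs hg g.m 0 hCT hW
  obtain ⟨j, hj, hjA⟩ := sum_abstract (m := m + 1) (by omega) (L := 64) (by norm_num) a y ha0 hy0
    h0 h1 h2
  have hjm : j < g.m := by omega
  have hfail := fail_le (s := s) (A := A) hg hW hjm (C := CT) fun i hi =>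
    Z2_Vs hg j i hCT (hBW j hjm i hi)
  refine hfail.trans ?_
  have e1 : ∑ i ∈ g.Is j, ∑ k ∈ g.K, pr W (g.G j i k ∩ g.NS s A j i k) = a j := rfl
  rw [e1]
  have hm1 : (0 : ℝ) < ((m + 1 : ℕ) : ℝ) := by positivity
  have e2 : CT * a j ≤ CT * ((2 * 64 * (CT / κ) + 64 * CG) / ((m + 1 : ℕ) : ℝ)) :=
    mul_le_mul_of_nonneg_left hjA hCT0.le
  refine e2.trans ?_
  rw [← mul_div_assoc, div_le_iff₀ hm1]
  rw [div_lt_iff₀ hε] at hm
  push_cast
  nlinarith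

end Pool.Agent.Perc6

end Partperc6Sum

section Partperc6BcProb

/-!
# The union bound for the largest cluster
-/

set_option autoImplicit false

namespace Pool.Agent.PercBc

open Finset Filter Topology
open Pool.Agent.Perc Pool.Agent.PercD Pool.Agent.PercS5 Pool.Agent.Perc6
open Pool.Agent.PercX60 (Sn)

/-! ### The rare events -/

theorem pr_longH {θ : ℝ} (hθ : ∀ (col x y w : ℤ) (N : ℕ), 0 < w →
    pr (RF x (x + 2 * w * N) (y - w) (y + w)) (Blocks col x y w N) ≤ θ ^ N) {Δ x y : ℤ} {N : ℕ}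
    (hΔ : 0 < Δ) {W : Finset (ℤ × ℤ)} (hW : RF x (x + 6 * Δ * N) y (y + 6 * Δ) ⊆ W) :
    pr W (LongH x (6 * Δ * N) (Strip y (y + 6 * Δ))) ≤ 2 * θ ^ N := by
  have e : (2 : ℤ) * (3 * Δ) * N = 6 * Δ * N := by ring
  refine (pr_mono _ ?_).trans (pr_long hθ (x := x) (y := y + 3 * Δ) (w := 3 * Δ) (N := N) (by omega)
    (F := Strip y (y + 6 * Δ)) (fun f hf => ?_) (W := W) ?_)
  · rintro ω ⟨a, b, h1, h2, h3⟩
    exact ⟨a, b, h1, by rw [e]; exact h2, h3⟩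
  · have h1 : y ≤ f.2 ∧ f.2 < y + 6 * Δ := hf
    omega
  · rw [e]
    refine Subset.trans ?_ hW
    intro f hf
    rw [mem_RFi] at hf ⊢
    omega

theorem pr_arm {C β : ℝ} (hC : ∀ (col : ℤ) (p : ℤ × ℤ) (r R : ℤ), 0 < r → r ≤ R →
    pr (RFb p R) (ArmB col p r R) ≤ C * ((r : ℝ) / R) ^ β) {p : ℤ × ℤ} {r R : ℤ} (hr : 0 < r)
    (hR : r ≤ R) {W : Finset (ℤ × ℤ)} (hW : RFb p R ⊆ W) :
    pr W (ArmB 0 p r R) ≤ C * ((r : ℝ) / R) ^ β := by
  rw [pr_eq_of_depOn (depOn_ArmB 0 p r R) hW]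
  exact hC 0 p r R hr hR

/-! ### The parameters -/

/-- The geometry of the segment `l` of the band `i`. -/
def gm (Δ κ μ b N' : ℤ) (M q lev : ℕ) (i l : ℤ) : Geo where
  h := i * Δ
  w := M * q * b
  x₀ := |i * Δ| + κ + 2 * μ * l
  col := 0
  b := b
  N := N'
  L := 64
  M := M
  q := q
  m := lev

variable {n m p a₀ N J L lev b M q : ℕ} {s A₀ c₀ : ℝ} {D Δ κ R N' : ℤ}

/-- The deterministic statement. -/
theorem good_det (hn : 0 < n) {ω : Cfg} {u : ℤ × ℤ} (hu : u ∈ Box n) (hΔ : 0 < Δ)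
    (hJ : (n : ℤ) ≤ 2 * J * Δ) (hJ1 : 1 ≤ J) (hD : 6 * Δ * (N + 2) ≤ D) (hD0 : 0 < D)
    (hdiam : (D : ℝ) ≤ Metric.diam (clS (cfgE n ω) u)) (hR : 4 * R ≤ D)
    (hM : 1 ≤ M) (hq : 1 ≤ q) (hb : 1 ≤ b) (hN : 8 ≤ N')
    (hκR : κ ≤ R) (hμκ : 65 * ((M : ℤ) * q * (N' * b * 64 ^ lev)) ≤ κ)
    (hL : (n : ℤ) ≤ L * ((M : ℤ) * q * (N' * b * 64 ^ lev)))
    (hη : ∀ j, 1 ≤ j → j < lev → (N' * b * 64 ^ j : ℤ) ≤ 4 * (M * q * b) ∧
      1 + 4 * n / 2 ^ p ≤ (((N' * b * 64 ^ j : ℤ) : ℝ)) / 4 ∧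
      4 * (((q : ℤ) * (N' * b * 64 ^ j) : ℤ) : ℝ) * 2 ^ m ≤ n ∧
      c₀ ≤ (((M : ℤ) * q * (N' * b * 64 ^ j) : ℤ) : ℝ) / (4 * n))
    (hpm : (4 : ℝ) * 2 ^ m ≤ 2 ^ p) (hs : 0 < s) (hc₀ : 0 < c₀)
    (hlong : ∀ j ∈ Icc (-(2 * J : ℤ)) (2 * J), ∀ k ∈ Icc (0 : ℤ) J,
      ω ∉ LongH (6 * Δ * k) (6 * Δ * N) (Strip (j * Δ) (j * Δ + 6 * Δ)))
    (harm : ∀ i ∈ Icc (-(2 * J : ℤ)) (2 * J), ω ∉ ArmB 0 (|i * Δ|, i * Δ) κ R ∧
      ω ∉ ArmB 0 (2 * n - |i * Δ|, i * Δ) κ R)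
    (hfail : ∀ i ∈ Icc (-(2 * J : ℤ)) (2 * J), ∀ l ∈ Icc (0 : ℤ) L,
      ω ∉ Fail (gm Δ κ ((M : ℤ) * q * (N' * b * 64 ^ lev)) b N' M q lev i l) s A₀) :
    Good s m (A₀ * c₀ ^ (-s)) (GO p m (perK n (cfgE n ω) u : Set ℂ)) := by
  set μ : ℤ := (M : ℤ) * q * (N' * b * 64 ^ lev) with hμ
  have hMq : (1 : ℤ) ≤ (M : ℤ) * q := by
    have h1 : (1 : ℤ) ≤ M := by exact_mod_cast hM
    have h2 : (1 : ℤ) ≤ q := by exact_mod_cast hq
    nlinarith
  have hb' : (1 : ℤ) ≤ b := by exact_mod_cast hb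
  have hw1 : (1 : ℤ) ≤ M * q * b := by nlinarith
  have h64 : (1 : ℤ) ≤ 64 ^ lev := one_le_pow₀ (by norm_num)
  have hwμ : (M : ℤ) * q * b ≤ μ := by
    have e : μ = ((M : ℤ) * q * b) * (N' * 64 ^ lev) := by rw [hμ]; ring
    have h1 : (1 : ℤ) ≤ N' * 64 ^ lev := by nlinarith
    rw [e]
    nlinarith
  have hμ0 : 0 < μ := by omega
  obtain ⟨i, hi, l, hl, X, hX1, hX2, hXb, ht, hTag, hsub⟩ := exists_tag (N := N) (J := J) (L := L)
    (κ := κ) (R := R) (w := M * q * b) (μ := μ) hu hΔ hJ hJ1 hD hD0 hdiam hlong hR (by omega)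
    (by omega) hκR harm hμ0 hμκ (by omega) hL
  have hnf := hfail i hi l hl
  set g : Geo := gm Δ κ μ b N' M q lev i l with hg
  have hgμ : ∀ j, g.μ j = M * q * (N' * b * 64 ^ j) := fun j => by
    simp [Geo.μ, Geo.η, hg, gm]
  have hcB : g.cB = |i * Δ| + κ + 2 * μ * l + μ := by
    have h1 : g.cB = (|i * Δ| + κ + 2 * μ * l) + (2 * 0 + 1) * g.μ lev := rfl
    rw [h1, hgμ, ← hμ]
    ring
  have hRB : g.RB = 32 * μ := by
    have h1 : g.RB = 32 * g.μ lev := rfl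
    rw [h1, hgμ, ← hμ]
  have hXV : X ∈ g.Vs g.m 0 := by
    have h1 : g.Vs g.m 0 = BandV 0 (i * Δ) (M * q * b)
      ((|i * Δ| + κ + 2 * μ * l) + 2 * 0 * g.μ lev)
      ((|i * Δ| + κ + 2 * μ * l) + 2 * (0 + 1) * g.μ lev) := rfl
    rw [h1, hgμ, ← hμ]
    unfold BandV
    rw [mem_filter, mem_product, mem_Ico, mem_Icc]
    have hpar := CL_par ht.mem
    refine ⟨⟨⟨by omega, by omega⟩, hXb⟩, ?_⟩
    unfold par
    omega
  have hex : ∃ (j : ℕ) (i' : ℤ), 1 ≤ j ∧ j < g.m ∧ X ∈ g.Vs j i' ∧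
      ω ∈ SuccX g.col g.h g.w g.cB g.RB (g.cen j i') g.M g.q (g.η j) s A₀ X := by
    by_contra hcon
    push Not at hcon
    refine hnf ⟨X, hXV, ?_, fun j i' h1 h2 h3 => hcon j i' h1 h2 h3⟩
    rw [hcB, hRB]
    exact hTag
  obtain ⟨j, i', hj1, hj2, hXj, hsucc⟩ := hex
  have hj2' : j < lev := hj2
  obtain ⟨e1, e2, e3, e4⟩ := hη j hj1 hj2'
  have hηj : g.η j = N' * b * 64 ^ j := by simp [Geo.η, hg, gm]
  rw [hηj] at hsucc
  rw [hcB, hRB] at hsucc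
  have h64j : (1 : ℤ) ≤ 64 ^ j := one_le_pow₀ (by norm_num)
  refine good_of_succ (M := (M : ℤ)) (q := (q : ℤ)) (η := N' * b * 64 ^ j) (h := i * Δ)
    (w := M * q * b) (cB := |i * Δ| + κ + 2 * μ * l + μ) (RB := 32 * μ) (c := g.cen j i') hn hu ht
    hsub ?_ (by exact_mod_cast hM) (by exact_mod_cast hq) ?_ e1 e2 hpm e3 hs hc₀ e4 hsucc
  · have h1 : X ∈ BandV 0 (i * Δ) (M * q * b)
      ((|i * Δ| + κ + 2 * μ * l) + 2 * i' * g.μ j)
      ((|i * Δ| + κ + 2 * μ * l) + 2 * (i' + 1) * g.μ j) := hXj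
    unfold BandV at h1
    rw [mem_filter, mem_product, mem_Ico] at h1
    have h2 : g.cen j i' = (|i * Δ| + κ + 2 * μ * l) + (2 * i' + 1) * g.μ j := rfl
    have h3 := h1.1.1.2
    have h4 : 0 < g.μ j := by
      rw [hgμ]
      positivity
    rw [h2, ← hgμ j]
    nlinarith
  · have h5 : (0 : ℤ) < N' * b * 64 ^ j := mul_pos (mul_pos (by omega) (by omega)) (by positivity)
    omega

/-- The union bound. -/
theorem prB_not_good (hn : 0 < n) {sel : Finset Edg → ℤ × ℤ} (hsel : IsSel n sel)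
    {D : ℕ} {κ R : ℕ} {e₁ e₂ e₃ e₄ : ℝ} (hΔ : 0 < Δ)
    (hJ : (n : ℤ) ≤ 2 * J * Δ) (hJ1 : 1 ≤ J) (hD : 6 * Δ * (N + 2) ≤ D) (hD0 : 0 < D)
    (hR : 4 * (R : ℤ) ≤ D)
    (hM : 1 ≤ M) (hq : 1 ≤ q) (hb : 1 ≤ b) (hN : 8 ≤ N')
    (hκR : (κ : ℤ) ≤ R) (hμκ : 65 * ((M : ℤ) * q * (N' * b * 64 ^ lev)) ≤ κ)
    (hL : (n : ℤ) ≤ L * ((M : ℤ) * q * (N' * b * 64 ^ lev)))
    (hη : ∀ j, 1 ≤ j → j < lev → (N' * b * 64 ^ j : ℤ) ≤ 4 * (M * q * b) ∧
      1 + 4 * n / 2 ^ p ≤ (((N' * b * 64 ^ j : ℤ) : ℝ)) / 4 ∧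
      4 * (((q : ℤ) * (N' * b * 64 ^ j) : ℤ) : ℝ) * 2 ^ m ≤ n ∧
      c₀ ≤ (((M : ℤ) * q * (N' * b * 64 ^ j) : ℤ) : ℝ) / (4 * n))
    (hpm : (4 : ℝ) * 2 ^ m ≤ 2 ^ p) (hs : 0 < s) (hc₀ : 0 < c₀)
    (h1 : prB n {T | ∀ v ∈ Box n, Metric.diam (clS T v) < D} ≤ e₁)
    {W : Finset (ℤ × ℤ)} (hW : Sn n ⊆ W)
    (h2 : ∀ j ∈ Icc (-(2 * J : ℤ)) (2 * J), ∀ k ∈ Icc (0 : ℤ) J,
      pr W (LongH (6 * Δ * k) (6 * Δ * N) (Strip (j * Δ) (j * Δ + 6 * Δ))) ≤ e₂)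
    (h3 : ∀ i ∈ Icc (-(2 * J : ℤ)) (2 * J), pr W (ArmB 0 (|i * Δ|, i * Δ) κ R) ≤ e₃ ∧
      pr W (ArmB 0 (2 * n - |i * Δ|, i * Δ) κ R) ≤ e₃)
    (h4 : ∀ i ∈ Icc (-(2 * J : ℤ)) (2 * J), ∀ l ∈ Icc (0 : ℤ) L,
      pr W (Fail (gm Δ κ ((M : ℤ) * q * (N' * b * 64 ^ lev)) b N' M q lev i l) s A₀) ≤ e₄) :
    prB n {T | ¬ Good s m (A₀ * c₀ ^ (-s)) (GO p m (perK n T (sel T) : Set ℂ))} ≤
      e₁ + (4 * J + 1) * ((J + 1) * e₂) + (4 * J + 1) * (2 * e₃) + (4 * J + 1) * ((L + 1) * e₄) := by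
  classical
  set I : Finset ℤ := Icc (-(2 * J : ℤ)) (2 * J) with hI
  have hIc : (I.card : ℝ) = 4 * J + 1 := by
    have : I.card = 4 * J + 1 := by
      rw [hI, Int.card_Icc]
      omega
    rw [this]
    push_cast
    ring
  have hcK : ∀ K : ℕ, ((Icc (0 : ℤ) K).card : ℝ) = K + 1 := by
    intro K
    have : (Icc (0 : ℤ) K).card = K + 1 := by
      rw [Int.card_Icc]
      omega
    rw [this]
    push_cast
    ring
  set g : ℤ → ℤ → Geo := gm Δ κ ((M : ℤ) * q * (N' * b * 64 ^ lev)) b N' M q lev with hg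
  set E1 : Set Cfg := {ω | cfgE n ω ∈ {T : Finset Edg | ∀ v ∈ Box n, Metric.diam (clS T v) < D}}
    with hE1
  set E2 : Set Cfg := {ω | ∃ j ∈ I, ω ∈ {ω | ∃ k ∈ Icc (0 : ℤ) J,
    ω ∈ LongH (6 * Δ * k) (6 * Δ * N) (Strip (j * Δ) (j * Δ + 6 * Δ))}} with hE2
  set E3 : Set Cfg := {ω | ∃ i ∈ I, ω ∈ (ArmB 0 (|i * Δ|, i * Δ) κ R ∪
    ArmB 0 (2 * n - |i * Δ|, i * Δ) κ R : Set Cfg)} with hE3
  set E4 : Set Cfg := {ω | ∃ i ∈ I, ω ∈ {ω | ∃ l ∈ Icc (0 : ℤ) L, ω ∈ Fail (g i l) s A₀}} with hE4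
  rw [← pr_box hW]
  have hsub : ∀ ω ∈ {ω : Cfg | cfgE n ω ∈ {T : Finset Edg |
      ¬ Good s m (A₀ * c₀ ^ (-s)) (GO p m (perK n T (sel T) : Set ℂ))}},
      ω ∈ ((E1 ∪ E2) ∪ E3) ∪ E4 := by
    intro ω hω
    by_contra hcon
    rw [Set.mem_union, Set.mem_union, Set.mem_union] at hcon
    push Not at hcon
    obtain ⟨⟨⟨n1, n2⟩, n3⟩, n4⟩ := hcon
    refine hω ?_
    obtain ⟨hu, hmax⟩ := hsel (cfgE n ω) (DictB.cfgE_subset n ω)
    have hdiam : ((D : ℤ) : ℝ) ≤ Metric.diam (clS (cfgE n ω) (sel (cfgE n ω))) := by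
      by_contra hc
      push Not at hc
      refine n1 fun v hv => ?_
      have h5 := hmax v hv
      have h6 : ((D : ℤ) : ℝ) = (D : ℝ) := by norm_cast
      rw [h6] at hc
      linarith
    refine good_det (N := N) (J := J) (L := L) (lev := lev) (D := (D : ℤ)) hn hu hΔ hJ hJ1 hD
      (by exact_mod_cast hD0) hdiam hR hM hq hb hN hκR hμκ hL hη hpm hs hc₀ ?_ ?_ ?_
    · intro j hj k hk hω'
      exact n2 ⟨j, hj, k, hk, hω'⟩
    · intro i hi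
      exact ⟨fun h => n3 ⟨i, hi, Or.inl h⟩, fun h => n3 ⟨i, hi, Or.inr h⟩⟩
    · intro i hi l hl hω'
      exact n4 ⟨i, hi, l, hl, hω'⟩
  refine (pr_mono _ hsub).trans ?_
  have b1 : pr W E1 ≤ e₁ := by
    rw [hE1, pr_box hW]
    exact h1
  have b2 : pr W E2 ≤ (4 * J + 1) * ((J + 1) * e₂) := by
    refine (PercL.pr_biUnion_le I _).trans ?_
    rw [← hIc, ← nsmul_eq_mul]
    refine sum_le_card_nsmul _ _ _ fun j hj => ?_
    refine (PercL.pr_biUnion_le (Icc (0 : ℤ) J) _).trans ?_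
    rw [← hcK, ← nsmul_eq_mul]
    exact sum_le_card_nsmul _ _ _ fun k hk => h2 j hj k hk
  have b3 : pr W E3 ≤ (4 * J + 1) * (2 * e₃) := by
    refine (PercL.pr_biUnion_le I _).trans ?_
    rw [← hIc, ← nsmul_eq_mul]
    refine sum_le_card_nsmul _ _ _ fun i hi => ?_
    refine (pr_union_le _ _ _).trans ?_
    have := h3 i hi
    linarith [this.1, this.2]
  have b4 : pr W E4 ≤ (4 * J + 1) * ((L + 1) * e₄) := by
    refine (PercL.pr_biUnion_le I _).trans ?_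
    rw [← hIc, ← nsmul_eq_mul]
    refine sum_le_card_nsmul _ _ _ fun i hi => ?_
    refine (PercL.pr_biUnion_le (Icc (0 : ℤ) L) _).trans ?_
    rw [← hcK, ← nsmul_eq_mul]
    exact sum_le_card_nsmul _ _ _ fun l hl => h4 i hi l hl
  refine (pr_union_le _ _ _).trans (add_le_add ?_ b4)
  refine (pr_union_le _ _ _).trans (add_le_add ?_ b3)
  exact (pr_union_le _ _ _).trans (add_le_add b1 b2)

end Pool.Agent.PercBc

end Partperc6BcProb
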