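import Pool.Agent.Lib.MP_6bd702_zc.Pre
import Pool.Agent.Lib.MP_6bd702_zc.Y029
import Pool.Agent.Lib.MP_6bd702_zc.Y022
import Pool.Agent.Lib.MP_6bd702_zc.Y034
import Pool.Agent.Lib.MP_6bd702_zc.Y028
import Pool.Agent.Lib.MP_6bd702_zc.Y037
import Pool.Agent.Lib.MP_6bd702_zc.Y026

section Partperc3T2Final

/-!
# Crossing strands: the recursion (T2)
-/

set_option autoImplicit false

namespace Pool.Agent.Perc.Q

open Finset Pool.Agent.Perc Relation

/-- One step of the recursion. -/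
theorem aT_step (h1 : CloseInP) (h2 : SpecInP) {q : ℝ} (hq : 0 < q) :
    ∃ M : ℕ, 0 < M ∧ ∀ g r w : ℕ, 1 ≤ g → M * g ≤ r → 4 * r < w →
      aT r w ≤ q * aT (2 * r) w + q * aT (4 * r) w + ∑ t ∈ TA w, pr (BW w) (SepI (2 * r) w g t) := by
  obtain ⟨M₁, hM₁, hc⟩ := h1 q hq
  obtain ⟨M₂, hM₂, hs⟩ := h2 q hq
  refine ⟨M₁ + M₂, by omega, fun g r w hg hR hw => ?_⟩
  have hR1 : M₁ * g ≤ r := by nlinarith
  have hR2 : M₂ * g ≤ 2 * r := by nlinarith
  unfold aT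
  rw [mul_sum, mul_sum, ← sum_add_distrib, ← sum_add_distrib]
  refine sum_le_sum fun t ht => ?_
  have hA := mem_TA.1 ht
  have c1 := hc g r w hg hR1 (by omega) t hA
  have c2 := hs g (2 * r) w hg hR2 (by omega) t hA
  push_cast at c2
  have e4 : (2 : ℤ) * (2 * (r : ℤ)) = 4 * r := by ring
  rw [e4] at c2
  have c3 : pr (BW w) (Rea3 r w t) ≤ pr (BW w) (Rea3 r w t ∩ CloseI (2 * r) w g t) +
      (pr (BW w) (SpecI (2 * r) w g t) + pr (BW w) (SepI (2 * r) w g t)) := by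
    refine le_trans ?_ (add_le_add (le_refl _) (pr_union_le _ _ _))
    refine le_trans ?_ (pr_union_le _ _ _)
    refine pr_mono _ fun ω hω => ?_
    have hω' : ω ∈ Rea3 (2 * r) w t :=
      rea3_mono (by positivity) (by omega) (by exact_mod_cast (by omega : 2 * r < w)) hA hω
    rcases cases_tips (g := g) (by exact_mod_cast hg) hω' with h | h | h
    · exact Or.inl ⟨hω, h⟩
    · exact Or.inr (Or.inl h)
    · exact Or.inr (Or.inr h)
  linarith

/-- The sum over the separated triples. -/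
theorem sum_sep_le (h3 : GlueInP) (hB : BaseP) (hA : Arm3Anti)
    (hq3 : ∃ C : ℝ, 0 < C ∧ ∀ R : ℕ, 1 ≤ R → q3 R ≤ C * (R : ℝ) ^ (-(2 / 3 : ℝ))) (K : ℕ) :
    ∃ C : ℝ, ∃ g₀ : ℕ, 0 < C ∧ ∀ g d w : ℕ, g₀ ≤ g → 1 ≤ d → d ≤ K * g → 2 * d < w →
      ∑ t ∈ TA w, pr (BW w) (SepI d w g t) ≤ C * ((d : ℝ) / w) ^ (2 / 3 : ℝ) := by
  obtain ⟨C₁, g₀, hC₁, hg⟩ := h3 K
  obtain ⟨C₂, hC₂, hb⟩ := hB
  obtain ⟨C₃, hC₃, hq⟩ := hq3
  refine ⟨C₁ * (C₂ * (C₃ * 4)), g₀, by positivity, fun g d w hg1 hd hK hw => ?_⟩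
  have hd0 : (0 : ℝ) < d := by exact_mod_cast hd
  have hw0 : (0 : ℝ) < w := by exact_mod_cast (by omega : 0 < w)
  set h := w / 2 with hh
  have hh1 : 1 ≤ h := by omega
  have hdh : d ≤ h := by omega
  have hhw : h < w := by omega
  -- one triple
  have key : ∀ t ∈ TA (w : ℤ), pr (BW w) (SepI d w g t) ≤
      C₁ * (d : ℝ) ^ (2 / 3 : ℝ) * (q3 h * pr (BW w) (Rea3 h w t)) := by
    intro t ht
    have hAlt := mem_TA.1 ht
    have c1 := hg g d w hg1 hd hK hw t hAlt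
    have c2 : pr (BW w) (Rea3 d w t ∩ Arm3 w) ≤ pr (BW w) (Rea3 h w t) * q3 h := by
      have e := pr_rea3_inter (d := (h : ℤ)) (w := (w : ℤ)) (T := t) (by exact_mod_cast hhw.le)
        (depOn_arm3' (h : ℤ))
      unfold q3
      rw [← e]
      refine pr_mono _ fun ω hω => ⟨?_, hA h w hh1 hhw.le ω hω.2⟩
      exact rea3_mono (by positivity) (by exact_mod_cast hdh) (by exact_mod_cast hhw) hAlt hω.1
    have e1 : (d : ℝ) ^ (-(2 / 3 : ℝ)) * (d : ℝ) ^ (2 / 3 : ℝ) = 1 := by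
      rw [← Real.rpow_add hd0]; norm_num
    have hp : 0 < (d : ℝ) ^ (2 / 3 : ℝ) := Real.rpow_pos_of_pos hd0 _
    have c3 : pr (BW w) (SepI d w g t) * (d : ℝ) ^ (-(2 / 3 : ℝ)) ≤
        C₁ * (pr (BW w) (Rea3 h w t) * q3 h) := c1.trans (mul_le_mul_of_nonneg_left c2 hC₁.le)
    calc pr (BW w) (SepI d w g t)
        = pr (BW w) (SepI d w g t) * (d : ℝ) ^ (-(2 / 3 : ℝ)) * (d : ℝ) ^ (2 / 3 : ℝ) := by
          rw [mul_assoc, e1, mul_one]
      _ ≤ C₁ * (pr (BW w) (Rea3 h w t) * q3 h) * (d : ℝ) ^ (2 / 3 : ℝ) :=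
          mul_le_mul_of_nonneg_right c3 hp.le
      _ = C₁ * (d : ℝ) ^ (2 / 3 : ℝ) * (q3 h * pr (BW w) (Rea3 h w t)) := by ring
  have hsum := sum_le_sum key
  rw [← mul_sum, ← mul_sum] at hsum
  change _ ≤ C₁ * (d : ℝ) ^ (2 / 3 : ℝ) * (q3 h * aT h w) at hsum
  have b1 : aT h w ≤ C₂ := hb h w hh1 (by omega) (by omega)
  have b2 : q3 h ≤ C₃ * (4 * (w : ℝ) ^ (-(2 / 3) : ℝ)) :=
    (hq h hh1).trans (mul_le_mul_of_nonneg_left
      (rpow_scale (R := w) (n := h) (by omega) hh1 (by omega)) hC₃.le)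
  have b3 : q3 h * aT h w ≤ C₃ * (4 * (w : ℝ) ^ (-(2 / 3) : ℝ)) * C₂ :=
    mul_le_mul b2 b1 (aT_nonneg _ _) (by positivity)
  refine hsum.trans ?_
  have e2 : ((d : ℝ) / w) ^ (2 / 3 : ℝ) = (d : ℝ) ^ (2 / 3 : ℝ) * (w : ℝ) ^ (-(2 / 3) : ℝ) := by
    rw [Real.div_rpow hd0.le hw0.le, Real.rpow_neg hw0.le, div_eq_mul_inv]
  rw [e2]
  have hp : 0 < (d : ℝ) ^ (2 / 3 : ℝ) := Real.rpow_pos_of_pos hd0 _
  calc C₁ * (d : ℝ) ^ (2 / 3 : ℝ) * (q3 h * aT h w)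
      ≤ C₁ * (d : ℝ) ^ (2 / 3 : ℝ) * (C₃ * (4 * (w : ℝ) ^ (-(2 / 3) : ℝ)) * C₂) :=
        mul_le_mul_of_nonneg_left b3 (by positivity)
    _ = _ := by ring

/-- The bound for the alternating triples, inner radius at least `M`. -/
theorem aT_le_big (h1 : CloseInP) (h2 : SpecInP) (h3 : GlueInP) (hB : BaseP) (hA : Arm3Anti)
    (hq3 : ∃ C : ℝ, 0 < C ∧ ∀ R : ℕ, 1 ≤ R → q3 R ≤ C * (R : ℝ) ^ (-(2 / 3 : ℝ))) :
    ∃ (M : ℕ) (C : ℝ), 0 < M ∧ 0 < C ∧ ∀ d w : ℕ, M ≤ d → 2 * d ≤ w →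
      aT d w ≤ C * ((d : ℝ) / w) ^ (2 / 3 : ℝ) := by
  obtain ⟨M, hM, hstep⟩ := aT_step h1 h2 (q := 1 / 16) (by norm_num)
  obtain ⟨C₁, g₀, hC₁, hsep⟩ := sum_sep_le h3 hB hA hq3 (4 * M)
  obtain ⟨C₀, hC₀, hb⟩ := hB
  set β : ℝ := (2 : ℝ) ^ (-(2 / 3) : ℝ) with hβ
  have hβ0 : 0 < β := by positivity
  have hβ1 : β ≤ 1 := Real.rpow_le_one_of_one_le_of_nonpos (by norm_num) (by norm_num)
  have hβ2 : 1 / 2 ≤ β := by
    have : (2 : ℝ) ^ (-1 : ℝ) ≤ (2 : ℝ) ^ (-(2 / 3) : ℝ) :=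
      Real.rpow_le_rpow_of_exponent_le (by norm_num) (by norm_num)
    rw [Real.rpow_neg_one] at this
    linarith
  refine ⟨M * (g₀ + 1), (C₀ + 2 * C₁) / β * 4, by positivity, by positivity,
    fun d w hd hw => ?_⟩
  have hd1 : 1 ≤ d := le_trans (Nat.mul_pos hM (by omega)) hd
  -- the number of scales
  obtain ⟨K, hK1, hK2⟩ : ∃ K : ℕ, 2 * (d * 2 ^ K) ≤ w ∧ w < 4 * (d * 2 ^ K) := by
    have hex : ∃ K : ℕ, w < 4 * (d * 2 ^ K) := by
      refine ⟨w, ?_⟩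
      have : w < 2 ^ w := Nat.lt_two_pow_self
      nlinarith [Nat.one_le_two_pow (n := w)]
    classical
    refine ⟨Nat.find hex, ?_, Nat.find_spec hex⟩
    rcases Nat.eq_zero_or_pos (Nat.find hex) with h0 | h0
    · rw [h0]; simpa using hw
    · have h5 := Nat.find_min hex (m := Nat.find hex - 1) (by omega)
      have h6 : 2 ^ (Nat.find hex) = 2 * 2 ^ (Nat.find hex - 1) := by
        rw [← pow_succ', Nat.sub_add_cancel h0]
      rw [h6]
      nlinarith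
  set b : ℕ → ℝ := fun k => if k ≤ K then aT ((d * 2 ^ (K - k) : ℕ) : ℤ) w else 0 with hbdef
  have hpow : ∀ k, k ≤ K → 1 ≤ 2 ^ k := fun k _ => Nat.one_le_two_pow
  have hdk : ∀ k, d * 2 ^ (K - k) ≤ d * 2 ^ K := fun k =>
    Nat.mul_le_mul_left d (Nat.pow_le_pow_right (by norm_num) (Nat.sub_le _ _))
  have hbase : ∀ k, b k ≤ C₀ := by
    intro k
    simp only [hbdef]
    split_ifs with hk
    · refine (aT_mono (by positivity) (d' := ((d * 2 ^ K : ℕ) : ℤ)) ?_ ?_).trans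
        (hb (d * 2 ^ K) w ?_ ?_ ?_)
      · exact_mod_cast hdk k
      · exact_mod_cast (by
          have : 1 ≤ d * 2 ^ K := Nat.mul_pos hd1 (by positivity)
          omega : d * 2 ^ K < w)
      · exact Nat.mul_pos hd1 (by positivity)
      · exact hK2.le
      · exact hK1
    · exact hC₀.le
  have hw0 : (0 : ℝ) < w := by exact_mod_cast (by omega : 0 < w)
  have hd0 : (0 : ℝ) < d := by exact_mod_cast hd1
  have hrec : ∀ k, b (k + 2) ≤ 1 / 16 * b (k + 1) + 1 / 16 * b k + C₁ * β ^ (k + 1) := by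
    intro k
    by_cases hk : k + 2 ≤ K
    · have e0 : b (k + 2) = aT ((d * 2 ^ (K - (k + 2)) : ℕ) : ℤ) w := if_pos hk
      have e1 : b (k + 1) = aT ((d * 2 ^ (K - (k + 1)) : ℕ) : ℤ) w := if_pos (by omega)
      have e2 : b k = aT ((d * 2 ^ (K - k) : ℕ) : ℤ) w := if_pos (by omega)
      rw [e0, e1, e2]
      set r := d * 2 ^ (K - (k + 2)) with hr
      have e3 : d * 2 ^ (K - (k + 1)) = 2 * r := by
        rw [hr, show K - (k + 1) = K - (k + 2) + 1 by omega, pow_succ]; ring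
      have e4 : d * 2 ^ (K - k) = 4 * r := by
        rw [hr, show K - k = K - (k + 2) + 2 by omega, pow_add]; ring
      have hMr' : M * (g₀ + 1) ≤ r := by
        have : 1 ≤ 2 ^ (K - (k + 2)) := Nat.one_le_two_pow
        nlinarith
      have hMr : M ≤ r := le_trans (Nat.le_mul_of_pos_right M (by omega)) hMr'
      have h4r : 4 * r < w := by
        have := hdk k
        rw [e4] at this
        have h7 : 1 ≤ d * 2 ^ K := Nat.mul_pos hd1 (by positivity)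
        omega
      set g := r / M with hgdef
      have hg1 : 1 ≤ g := (Nat.one_le_div_iff hM).2 hMr
      have hg0 : g₀ ≤ g := by
        rw [hgdef, Nat.le_div_iff_mul_le hM]
        nlinarith
      have hgR : M * g ≤ r := Nat.mul_div_le r M
      have hgR2 : 2 * r ≤ 4 * M * g := by
        have : r < M * (g + 1) := Nat.lt_mul_div_succ r hM
        nlinarith
      have k1 := hstep g r w hg1 hgR h4r
      have k2 := hsep g (2 * r) w hg0 (by omega) hgR2 (by omega)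
      have k3 : (((2 * r : ℕ) : ℝ) / w) ^ (2 / 3 : ℝ) ≤ β ^ (k + 1) := by
        have h5 : ((2 * r : ℕ) : ℝ) / w ≤ (2 : ℝ) ^ (-((k + 1 : ℕ) : ℝ)) := by
          rw [div_le_iff₀ hw0, Real.rpow_neg (by norm_num), Real.rpow_natCast]
          have h6 : (2 * r) * 2 ^ (k + 1) ≤ w := by
            rw [← e3, mul_assoc, ← pow_add, show K - (k + 1) + (k + 1) = K by omega]
            omega
          have h7 : ((2 * r : ℕ) : ℝ) * 2 ^ (k + 1) ≤ w := by exact_mod_cast h6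
          rw [← div_eq_inv_mul, le_div_iff₀ (by positivity)]
          exact h7
        refine (Real.rpow_le_rpow (by positivity) h5 (by norm_num)).trans (le_of_eq ?_)
        rw [hβ, ← Real.rpow_natCast, ← Real.rpow_mul (by norm_num), ← Real.rpow_mul (by norm_num)]
        congr 1
        ring
      rw [e3, e4]
      push_cast at k1 k2 k3 ⊢
      have k4 := mul_le_mul_of_nonneg_left k3 hC₁.le
      linarith
    · have e0 : b (k + 2) = 0 := if_neg hk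
      rw [e0]
      have n1 : 0 ≤ b (k + 1) := by
        simp only [hbdef]; split_ifs; exacts [aT_nonneg _ _, le_refl _]
      have n2 : 0 ≤ b k := by
        simp only [hbdef]; split_ifs; exacts [aT_nonneg _ _, le_refl _]
      positivity
  have hfin := geom_of_rec (b := b) (β := β) (θ := 1 / 16) (ε := 1 / 16) (C₀ := C₀) (C₂ := C₁)
    hβ0 hβ1 (by norm_num) (by norm_num) hC₁.le (by
      have h5 : 1 / 16 / β ≤ 1 / 8 := by rw [div_le_iff₀ hβ0]; linarith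
      have h6 : 1 / 16 / β ^ 2 ≤ 1 / 4 := by
        rw [div_le_iff₀ (by positivity)]
        nlinarith
      linarith) hC₀.le (hbase 0) (hbase 1) hrec K
  have e5 : b K = aT d w := by
    simp only [hbdef, le_refl, if_true, Nat.sub_self, pow_zero, mul_one]
  rw [e5] at hfin
  refine hfin.trans ?_
  have k5 : β ^ K ≤ 4 * ((d : ℝ) / w) ^ (2 / 3 : ℝ) := by
    have h5 : (2 : ℝ) ^ (-(K : ℝ)) ≤ 4 * (d / w) := by
      rw [Real.rpow_neg (by norm_num), Real.rpow_natCast, inv_le_iff_one_le_mul₀ (by positivity)]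
      have h7 : (w : ℝ) ≤ 4 * (d * 2 ^ K) := by exact_mod_cast hK2.le
      have e6 : 4 * ((d : ℝ) / w) * 2 ^ K = (4 * (d * 2 ^ K)) / w := by ring
      rw [e6, le_div_iff₀ hw0, one_mul]
      exact h7
    have h6 : β ^ K = ((2 : ℝ) ^ (-(K : ℝ))) ^ (2 / 3 : ℝ) := by
      rw [hβ, ← Real.rpow_natCast, ← Real.rpow_mul (by norm_num), ← Real.rpow_mul (by norm_num)]
      congr 1
      ring
    rw [h6]
    refine (Real.rpow_le_rpow (by positivity) h5 (by norm_num)).trans ?_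
    rw [Real.mul_rpow (by norm_num) (by positivity)]
    refine mul_le_mul_of_nonneg_right ?_ (by positivity)
    calc (4 : ℝ) ^ (2 / 3 : ℝ) ≤ (4 : ℝ) ^ (1 : ℝ) :=
          Real.rpow_le_rpow_of_exponent_le (by norm_num) (by norm_num)
      _ = 4 := by norm_num
  calc (C₀ + 2 * C₁) / β * β ^ K ≤ (C₀ + 2 * C₁) / β * (4 * ((d : ℝ) / w) ^ (2 / 3 : ℝ)) :=
        mul_le_mul_of_nonneg_left k5 (by positivity)
    _ = _ := by ring

/-- The bound for the alternating triples. -/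
theorem aT_le_pow (h1 : CloseInP) (h2 : SpecInP) (h3 : GlueInP) (hB : BaseP) (hA : Arm3Anti)
    (hq3 : ∃ C : ℝ, 0 < C ∧ ∀ R : ℕ, 1 ≤ R → q3 R ≤ C * (R : ℝ) ^ (-(2 / 3 : ℝ))) :
    ∃ C : ℝ, 0 < C ∧ ∀ d w : ℕ, 1 ≤ d → 2 * d ≤ w →
      aT d w ≤ C * ((d : ℝ) / w) ^ (2 / 3 : ℝ) := by
  obtain ⟨M, C, hM, hC, h⟩ := aT_le_big h1 h2 h3 hB hA hq3
  obtain ⟨C₀, hC₀, hb⟩ := hB
  refine ⟨(C + 2 * C₀) * M, by positivity, fun d w hd hw => ?_⟩
  have hw0 : (0 : ℝ) < w := by exact_mod_cast (by omega : 0 < w)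
  have hd0 : (0 : ℝ) < d := by exact_mod_cast hd
  have hM1 : (1 : ℝ) ≤ M := by exact_mod_cast hM
  have hx : 0 ≤ ((d : ℝ) / w) ^ (2 / 3 : ℝ) := by positivity
  have hMpow : (M : ℝ) ^ (2 / 3 : ℝ) ≤ M := by
    calc (M : ℝ) ^ (2 / 3 : ℝ) ≤ (M : ℝ) ^ (1 : ℝ) :=
          Real.rpow_le_rpow_of_exponent_le hM1 (by norm_num)
      _ = M := Real.rpow_one _
  by_cases hdM : M ≤ d
  · refine (h d w hdM hw).trans (mul_le_mul_of_nonneg_right ?_ hx)
    nlinarith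
  · by_cases hMw : 2 * M ≤ w
    · have k1 : aT d w ≤ aT M w := aT_mono (by positivity) (by exact_mod_cast (by omega : d ≤ M))
        (by exact_mod_cast (by omega : M < w))
      have k2 := h M w le_rfl hMw
      have k3 : ((M : ℝ) / w) ^ (2 / 3 : ℝ) ≤ M * ((d : ℝ) / w) ^ (2 / 3 : ℝ) := by
        have k4 : (M : ℝ) / w ≤ M * (d / w) := by
          rw [mul_div_assoc']
          refine div_le_div_of_nonneg_right ?_ hw0.le
          have : (1 : ℝ) ≤ d := by exact_mod_cast hd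
          nlinarith
        refine (Real.rpow_le_rpow (by positivity) k4 (by norm_num)).trans ?_
        rw [Real.mul_rpow (by positivity) (by positivity)]
        exact mul_le_mul_of_nonneg_right hMpow hx
      have k5 := mul_le_mul_of_nonneg_left k3 hC.le
      have k6 : C * (M * ((d : ℝ) / w) ^ (2 / 3 : ℝ)) ≤
          (C + 2 * C₀) * M * ((d : ℝ) / w) ^ (2 / 3 : ℝ) := by
        have : 0 ≤ 2 * C₀ * M * ((d : ℝ) / w) ^ (2 / 3 : ℝ) := by positivity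
        nlinarith
      linarith
    · have k1 : aT d w ≤ C₀ := by
        have hh : d ≤ w / 2 := by omega
        refine (aT_mono (d' := ((w / 2 : ℕ) : ℤ)) (by positivity) (by exact_mod_cast hh)
          (by exact_mod_cast (by omega : w / 2 < w))).trans (hb (w / 2) w ?_ ?_ ?_) <;> omega
      have k2 : 1 ≤ 2 * M * ((d : ℝ) / w) ^ (2 / 3 : ℝ) := by
        have k3 : (1 : ℝ) / (2 * M) ≤ (d : ℝ) / w := by
          rw [div_le_div_iff₀ (by positivity) hw0]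
          have h5 : (w : ℝ) ≤ 2 * M := by exact_mod_cast (by omega : w ≤ 2 * M)
          have h6 : (1 : ℝ) ≤ d := by exact_mod_cast hd
          nlinarith
        have k4 := Real.rpow_le_rpow (by positivity) k3 (by norm_num : (0 : ℝ) ≤ 2 / 3)
        have k5 : (1 : ℝ) / (2 * M) ≤ (1 / (2 * M) : ℝ) ^ (2 / 3 : ℝ) := by
          have h7 : (1 : ℝ) / (2 * M) ≤ 1 := by
            rw [div_le_one (by positivity)]; linarith
          have := Real.rpow_le_rpow_of_exponent_ge (by positivity) h7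
            (by norm_num : (2 / 3 : ℝ) ≤ 1)
          rwa [Real.rpow_one] at this
        have k6 := k5.trans k4
        rw [div_le_iff₀ (by positivity)] at k6
        linarith
      have k3 : C₀ * 1 ≤ C₀ * (2 * M * ((d : ℝ) / w) ^ (2 / 3 : ℝ)) :=
        mul_le_mul_of_nonneg_left k2 hC₀.le
      have k4 : 0 ≤ C * M * ((d : ℝ) / w) ^ (2 / 3 : ℝ) := by positivity
      nlinarith

end Pool.Agent.Perc.Q

end Partperc3T2Final

section PartoccXP

/-!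
# XP: the legs have their tips in the ports

The walls of `LinkP`, `PortsP` are continued by fixed sets of cells and by four horizontal
crossings of long rectangles in the upper half plane.
-/

set_option autoImplicit false

namespace Pool.Agent.Occ

open Finset Pool.Agent.Perc Pool.Agent.Perc.Q Pool.Agent.Perc3

namespace XP

/-! ### Horizontal crossings and cells -/

theorem conn_cut {η : Cfg} {F S : Set (ℤ × ℤ)} {P Z : ℤ × ℤ → Prop}
    (h1 : ∀ f ∈ F, ∀ v, IsCor f v → P v → ¬ Z v → f ∈ S)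
    (h2 : ∀ f ∈ S, ∀ v, IsCor f v → P v) {u v : ℤ × ℤ} (hu : P u) (h : Conn η F u v) :
    (Conn η S u v ∧ P v) ∨ ∃ z, Z z ∧ P z ∧ Conn η S u z := by
  induction h with
  | refl => exact Or.inl ⟨Relation.ReflTransGen.refl, hu⟩
  | @tail a b _ hb ih =>
    rcases ih with ⟨h3, h4⟩ | h3
    · by_cases hZ : Z a
      · exact Or.inr ⟨a, hZ, h4, h3⟩
      · obtain ⟨f, hf, hb', c1, c2⟩ := hb.exists_face
        have hfS := h1 f hf a c1 h4 hZ
        refine Or.inl ⟨Relation.ReflTransGen.tail h3 ?_, h2 f hfS b c2⟩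
        obtain ⟨x, y, hxy, hh⟩ := hb'
        exact ⟨x, y, by rw [Set.mem_singleton_iff.1 hxy]; exact hfS, hh⟩
    · exact Or.inr h3

theorem cut_right {η : Cfg} {x₀ X x y₀ y₁ : ℤ} {u v : ℤ × ℤ}
    (hu : u.1 = x₀ ∧ y₀ ≤ u.2 ∧ u.2 ≤ y₁) (hv : v.1 = X) (h0 : x₀ ≤ x) (hx : x ≤ X)
    (h : Conn η (RF x₀ X y₀ y₁) u v) :
    ∃ z : ℤ × ℤ, z.1 = x ∧ y₀ ≤ z.2 ∧ z.2 ≤ y₁ ∧ Conn η (RF x₀ x y₀ y₁) u z := by
  rcases conn_cut (S := (RF x₀ x y₀ y₁ : Set (ℤ × ℤ))) (P := fun v => v.1 ≤ x ∧ y₀ ≤ v.2 ∧ v.2 ≤ y₁)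
    (Z := fun v => v.1 = x) (by
      intro f hf v hv h1 h2
      have hf' := mem_RFi.1 (Finset.mem_coe.1 hf)
      unfold IsCor at hv
      exact Finset.mem_coe.2 (mem_RFi.2 (by omega))) (by
      intro f hf v hv
      have hf' := mem_RFi.1 (Finset.mem_coe.1 hf)
      unfold IsCor at hv
      omega) (u := u) (v := v) (by omega) h with ⟨h1, h2⟩ | ⟨z, h1, h2, h3⟩
  · exact ⟨v, by omega, h2.2.1, h2.2.2, h1⟩
  · exact ⟨z, h1, h2.2.1, h2.2.2, h3⟩

theorem cut_left {η : Cfg} {x₀ X x y₀ y₁ : ℤ} {u v : ℤ × ℤ}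
    (hu : u.1 = X ∧ y₀ ≤ u.2 ∧ u.2 ≤ y₁) (hv : v.1 = x₀) (h0 : x₀ ≤ x) (hx : x ≤ X)
    (h : Conn η (RF x₀ X y₀ y₁) u v) :
    ∃ z : ℤ × ℤ, z.1 = x ∧ y₀ ≤ z.2 ∧ z.2 ≤ y₁ ∧ Conn η (RF x X y₀ y₁) u z := by
  rcases conn_cut (S := (RF x X y₀ y₁ : Set (ℤ × ℤ))) (P := fun v => x ≤ v.1 ∧ y₀ ≤ v.2 ∧ v.2 ≤ y₁)
    (Z := fun v => v.1 = x) (by
      intro f hf v hv h1 h2
      have hf' := mem_RFi.1 (Finset.mem_coe.1 hf)
      unfold IsCor at hv
      exact Finset.mem_coe.2 (mem_RFi.2 (by omega))) (by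
      intro f hf v hv
      have hf' := mem_RFi.1 (Finset.mem_coe.1 hf)
      unfold IsCor at hv
      omega) (u := u) (v := v) (by omega) h with ⟨h1, h2⟩ | ⟨z, h1, h2, h3⟩
  · exact ⟨v, by omega, h2.2.1, h2.2.2, h1⟩
  · exact ⟨z, h1, h2.2.1, h2.2.2, h3⟩

/-- The crossings of an upper cell in the coordinates of the plane. -/
theorem cell_up {ξ : Cfg} {m c : ℤ} {G : Finset (ℤ × ℤ)} {g : ℤ × ℤ} (hm : 0 < m)
    (hξ : ξ ∈ Tub m c G) (hg : g ∈ G) (hup : 0 ≤ g.2) :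
    ∃ p q : ℤ × ℤ, p.2 = g.2 * m ∧ g.1 * m ≤ p.1 ∧ p.1 ≤ g.1 * m + m ∧ q.2 = g.2 * m + m ∧
      (p.1 + p.2 - c) % 2 = 0 ∧
      Conn ξ (RF (g.1 * m) (g.1 * m + m) (g.2 * m) (g.2 * m + m)) p q ∧
      Conn ξ (RF (g.1 * m) (g.1 * m + m) (g.2 * m) (g.2 * m + m)) (rep m c ξ g) p := by
  have h0 : 0 ≤ g.2 * m := mul_nonneg hup hm.le
  obtain ⟨u, v, e1, u1, u2, u3, v1, u4, k1⟩ := rep_spec hξ hg
  obtain ⟨p, q, p1, p2, p3, q1, p4, k2⟩ := tub_BT hξ hg
  unfold sqF at k1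
  have hpos : ∀ f ∈ (RF (g.1 * m) (g.1 * m + m) (g.2 * m) (g.2 * m + m) : Set (ℤ × ℤ)),
      0 ≤ f.2 := by
    intro f hf
    have := mem_RFi.1 (Finset.mem_coe.1 hf)
    omega
  have k1' := (conn_chC_up hpos).1 k1
  have k2' := (conn_chC_up hpos).1 k2
  rw [chF_up (by omega)] at e1
  obtain ⟨z, -, -, -, -, c1, c2⟩ := PercT.cross_meet le_rfl (by omega) le_rfl le_rfl
    (by omega) le_rfl ⟨u1, u2, u3⟩ v1 ⟨p1, p2, p3⟩ q1 (by omega) k1' k2'
  refine ⟨p, q, p1, p2, p3, q1, p4, k2', ?_⟩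
  rw [e1]
  exact c1.trans (Conn.symm c2)

theorem touch_right {ξ : Cfg} {m c X x : ℤ} {G : Finset (ℤ × ℤ)} {g : ℤ × ℤ} (hm : 0 < m)
    (hξ : ξ ∈ Tub m c G) (hg : g ∈ G) (hup : 0 ≤ g.2)
    (hR : ξ ∈ LR c (g.1 * m) X (g.2 * m) (g.2 * m + m)) (h1 : g.1 * m + m ≤ x) (h2 : x ≤ X) :
    ∃ z : ℤ × ℤ, z.1 = x ∧ g.2 * m ≤ z.2 ∧ z.2 ≤ g.2 * m + m ∧
      Conn ξ (RF (g.1 * m) x (g.2 * m) (g.2 * m + m)) (rep m c ξ g) z := by
  obtain ⟨p, q, p1, p2, p3, q1, p4, k2, k3⟩ := cell_up hm hξ hg hup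
  obtain ⟨a, b, a1, a2, a3, b1, a4, ab⟩ := hR
  obtain ⟨z, z1, z2, z3, az⟩ := cut_right ⟨a1, a2, a3⟩ b1 (by omega) h2 ab
  obtain ⟨y, -, -, -, -, d1, d2⟩ := PercT.cross_meet (x₀' := g.1 * m) (x₁' := g.1 * m + m)
    (y₀' := g.2 * m) (y₁' := g.2 * m + m) le_rfl (by omega) h1 le_rfl
    (by omega) le_rfl ⟨a1, a2, a3⟩ z1 ⟨p1, p2, p3⟩ q1 (by omega) az k2
  have m1 : (RF (g.1 * m) (g.1 * m + m) (g.2 * m) (g.2 * m + m) : Set (ℤ × ℤ)) ⊆
      RF (g.1 * m) x (g.2 * m) (g.2 * m + m) :=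
    PercT.Cross.rf_sub le_rfl h1 le_rfl le_rfl
  exact ⟨z, z1, z2, z3, ((k3.mono m1).trans (d2.mono m1)).trans ((Conn.symm d1).trans az)⟩

theorem touch_left {ξ : Cfg} {m c X x : ℤ} {G : Finset (ℤ × ℤ)} {g : ℤ × ℤ} (hm : 0 < m)
    (hξ : ξ ∈ Tub m c G) (hg : g ∈ G) (hup : 0 ≤ g.2)
    (hR : ξ ∈ LR c X (g.1 * m + m) (g.2 * m) (g.2 * m + m)) (h1 : X ≤ x) (h2 : x ≤ g.1 * m) :
    ∃ z : ℤ × ℤ, z.1 = x ∧ g.2 * m ≤ z.2 ∧ z.2 ≤ g.2 * m + m ∧
      Conn ξ (RF x (g.1 * m + m) (g.2 * m) (g.2 * m + m)) (rep m c ξ g) z := by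
  obtain ⟨p, q, p1, p2, p3, q1, p4, k2, k3⟩ := cell_up hm hξ hg hup
  obtain ⟨a, b, a1, a2, a3, b1, a4, ab⟩ := hR
  have hb : g.2 * m ≤ b.2 ∧ b.2 ≤ g.2 * m + m := by
    rcases conn_cut (S := (RF X (g.1 * m + m) (g.2 * m) (g.2 * m + m) : Set (ℤ × ℤ)))
      (P := fun v => g.2 * m ≤ v.2 ∧ v.2 ≤ g.2 * m + m) (Z := fun _ => False)
      (fun f hf _ _ _ _ => hf) (by
        intro f hf v hv
        have hf' := mem_RFi.1 (Finset.mem_coe.1 hf)
        unfold IsCor at hv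
        omega) (u := a) (v := b) (by omega) ab with h | ⟨_, h, _⟩
    · exact h.2
    · exact h.elim
  obtain ⟨z, z1, z2, z3, bz⟩ := cut_left ⟨b1, hb⟩ a1 h1 (by omega) (Conn.symm ab)
  have hpa := Conn.parity ab
  have hpz := Conn.parity bz
  obtain ⟨y, -, -, -, -, d1, d2⟩ := PercT.cross_meet (x₀' := g.1 * m) (x₁' := g.1 * m + m)
    (y₀' := g.2 * m) (y₁' := g.2 * m + m) h2 (by omega) le_rfl le_rfl
    (by omega) le_rfl ⟨z1, z2, z3⟩ b1 ⟨p1, p2, p3⟩ q1 (by omega) (Conn.symm bz) k2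
  have m1 : (RF (g.1 * m) (g.1 * m + m) (g.2 * m) (g.2 * m + m) : Set (ℤ × ℤ)) ⊆
      RF x (g.1 * m + m) (g.2 * m) (g.2 * m + m) :=
    PercT.Cross.rf_sub h2 le_rfl le_rfl le_rfl
  exact ⟨z, z1, z2, z3, ((k3.mono m1).trans (d2.mono m1)).trans (Conn.symm d1)⟩

/-! ### The far parts of the walls -/

/-- The boxes of cells of the three walls. -/
def InBox (J : ℤ) (g : ℤ × ℤ) : Prop := -J ≤ g.1 ∧ g.1 < J ∧ -J ≤ g.2 ∧ g.2 < J

/-- The cells of the far parts. -/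
def Far (J k₀ k₁ : ℤ) (i : Fin 3) (g : ℤ × ℤ) : Prop :=
  ![g.1 = J ∧ 0 ≤ g.2 ∧ g.2 ≤ k₀, g.1 = -J - 1 ∧ 0 ≤ g.2 ∧ g.2 ≤ k₁,
    (g.2 = -J - 1 ∧ -J - 3 ≤ g.1 ∧ g.1 ≤ -20) ∨ (g.1 = -J - 3 ∧ -J - 1 ≤ g.2 ∧ g.2 ≤ k₀)] i

open Classical in
/-- The far parts. -/
noncomputable def ext (J k₀ k₁ : ℤ) (i : Fin 3) : Finset (ℤ × ℤ) :=
  ((Icc (-J - 3) J) ×ˢ (Icc (-J - 1) k₁)).filter (Far J k₀ k₁ i)

theorem mem_ext {J k₀ k₁ : ℤ} (hJ : 60 ≤ J) (h0 : J < k₀) (h1 : k₀ < k₁) {i : Fin 3} {g : ℤ × ℤ} :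
    g ∈ ext J k₀ k₁ i ↔ Far J k₀ k₁ i g := by
  classical
  unfold ext
  rw [mem_filter, mem_product, mem_Icc, mem_Icc]
  refine ⟨fun h => h.2, fun h => ⟨?_, h⟩⟩
  fin_cases i
  · change g.1 = J ∧ 0 ≤ g.2 ∧ g.2 ≤ k₀ at h
    omega
  · change g.1 = -J - 1 ∧ 0 ≤ g.2 ∧ g.2 ≤ k₁ at h
    omega
  · change (g.2 = -J - 1 ∧ -J - 3 ≤ g.1 ∧ g.1 ≤ -20) ∨ (g.1 = -J - 3 ∧ -J - 1 ≤ g.2 ∧ g.2 ≤ k₀) at h
    omega

theorem far_port {J k₀ k₁ : ℤ} (hJ : 60 ≤ J) (h0 : J < k₀) (h1 : k₀ < k₁) (i : Fin 3) :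
    Far J k₀ k₁ i (port3 J i) := by
  fin_cases i
  · change J = J ∧ (0 : ℤ) ≤ 0 ∧ (0 : ℤ) ≤ k₀
    omega
  · change -J - 1 = -J - 1 ∧ (0 : ℤ) ≤ 0 ∧ (0 : ℤ) ≤ k₁
    omega
  · change (-J - 1 = -J - 1 ∧ -J - 3 ≤ -20 ∧ (-20 : ℤ) ≤ -20) ∨ _
    omega

theorem far_notBox {J k₀ k₁ : ℤ} (i : Fin 3) {g : ℤ × ℤ}
    (h : Far J k₀ k₁ i g) (hb : InBox J g) : False := by
  unfold InBox at hb
  fin_cases i
  · change g.1 = J ∧ 0 ≤ g.2 ∧ g.2 ≤ k₀ at h
    omega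
  · change g.1 = -J - 1 ∧ 0 ≤ g.2 ∧ g.2 ≤ k₁ at h
    omega
  · change (g.2 = -J - 1 ∧ -J - 3 ≤ g.1 ∧ g.1 ≤ -20) ∨ (g.1 = -J - 3 ∧ -J - 1 ≤ g.2 ∧ g.2 ≤ k₀) at h
    omega

theorem far_disj {J k₀ k₁ : ℤ} (hJ : 60 ≤ J) {i j : Fin 3} {g : ℤ × ℤ}
    (h : Far J k₀ k₁ i g) (h' : Far J k₀ k₁ j g) : i = j := by
  by_contra hne
  have e0 : Far J k₀ k₁ 0 g ↔ g.1 = J ∧ 0 ≤ g.2 ∧ g.2 ≤ k₀ := Iff.rfl
  have e1 : Far J k₀ k₁ 1 g ↔ g.1 = -J - 1 ∧ 0 ≤ g.2 ∧ g.2 ≤ k₁ := Iff.rfl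
  have e2 : Far J k₀ k₁ 2 g ↔ (g.2 = -J - 1 ∧ -J - 3 ≤ g.1 ∧ g.1 ≤ -20) ∨
    (g.1 = -J - 3 ∧ -J - 1 ≤ g.2 ∧ g.2 ≤ k₀) := Iff.rfl
  fin_cases i <;> fin_cases j <;> first | exact hne rfl | skip
  all_goals
    simp only [Fin.zero_eta, Fin.mk_one, Fin.reduceFinMk, e0, e1, e2] at h h'
    omega

theorem far_ok {J k₀ k₁ : ℤ} (hJ : 60 ≤ J) {i : Fin 3} {g : ℤ × ℤ}
    (h : Far J k₀ k₁ i g) : CellOk g := by
  unfold CellOk
  fin_cases i
  · change g.1 = J ∧ 0 ≤ g.2 ∧ g.2 ≤ k₀ at h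
    omega
  · change g.1 = -J - 1 ∧ 0 ≤ g.2 ∧ g.2 ≤ k₁ at h
    omega
  · change (g.2 = -J - 1 ∧ -J - 3 ≤ g.1 ∧ g.1 ≤ -20) ∨ (g.1 = -J - 3 ∧ -J - 1 ≤ g.2 ∧ g.2 ≤ k₀) at h
    omega

/-- The complete walls. -/
structure GX (J k₀ k₁ : ℤ) (G : Fin 3 → Finset (ℤ × ℤ)) : Prop where
  disj : ∀ i j, i ≠ j → Disjoint (G i) (G j)
  ok : ∀ i, ∀ g ∈ G i, CellOk g
  loc : ∀ i, ∀ g ∈ G i, Far J k₀ k₁ i g ∨ InBox J g
  far : ∀ i g, Far J k₀ k₁ i g → g ∈ G i

theorem gx_of {J k₀ k₁ : ℤ} (hJ : 60 ≤ J) (h0 : J < k₀) (h1 : k₀ < k₁)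
    {G : Fin 3 → Finset (ℤ × ℤ)} (hd : ∀ i j, i ≠ j → Disjoint (G i) (G j))
    (hok : ∀ i, ∀ g ∈ G i, CellOk g)
    (hloc : ∀ i, ∀ g ∈ G i, g = port3 J i ∨ (-J ≤ g.1 ∧ g.1 < J ∧ -J ≤ g.2 ∧ g.2 < J)) :
    GX J k₀ k₁ fun i => G i ∪ ext J k₀ k₁ i := by
  have hl : ∀ i, ∀ g ∈ G i ∪ ext J k₀ k₁ i, Far J k₀ k₁ i g ∨ InBox J g := by
    intro i g hg
    rw [mem_union, mem_ext hJ h0 h1] at hg
    rcases hg with hg | hg
    · rcases hloc i g hg with rfl | h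
      · exact Or.inl (far_port hJ h0 h1 i)
      · exact Or.inr h
    · exact Or.inl hg
  refine ⟨fun i j hij => ?_, fun i g hg => ?_, hl, fun i g hg => ?_⟩
  · rw [disjoint_left]
    intro g hi hj
    rcases hl i g hi with h2 | h2 <;> rcases hl j g hj with h3 | h3
    · exact hij (far_disj hJ h2 h3)
    · exact far_notBox i h2 h3
    · exact far_notBox j h3 h2
    · rw [mem_union, mem_ext hJ h0 h1] at hi hj
      rcases hi with hi | hi
      · rcases hj with hj | hj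
        · exact (disjoint_left.1 (hd i j hij)) hi hj
        · exact far_notBox j hj h2
      · exact far_notBox i hi h2
  · rw [mem_union, mem_ext hJ h0 h1] at hg
    rcases hg with hg | hg
    · exact hok i g hg
    · exact far_ok hJ hg
  · rw [mem_union, mem_ext hJ h0 h1]
    exact Or.inr hg

/-- Chains of cells in the upward direction. -/
theorem chain_up {Q : ℤ × ℤ → Prop} {a b b' : ℤ} (hb : b ≤ b')
    (h : ∀ y, b ≤ y → y ≤ b' → Q (a, y)) :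
    Relation.ReflTransGen (fun x y => Q x ∧ Q y ∧ CAdj x y) (a, b) (a, b') := by
  induction b', hb using Int.leInduction with
  | base => exact Relation.ReflTransGen.refl
  | succ n hn ih =>
    refine Relation.ReflTransGen.tail (ih fun y h1 h2 => h y h1 (by omega)) ?_
    exact ⟨h n hn (by omega), h (n + 1) (by omega) le_rfl, Or.inr (Or.inr (Or.inl ⟨rfl, rfl⟩))⟩

theorem chain_left {Q : ℤ × ℤ → Prop} {a a' b : ℤ} (ha : a' ≤ a)
    (h : ∀ x, a' ≤ x → x ≤ a → Q (x, b)) :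
    Relation.ReflTransGen (fun x y => Q x ∧ Q y ∧ CAdj x y) (a, b) (a', b) := by
  induction a, ha using Int.leInduction with
  | base => exact Relation.ReflTransGen.refl
  | succ n hn ih =>
    refine Relation.ReflTransGen.head ?_ (ih fun y h1 h2 => h y h1 (by omega))
    exact ⟨h (n + 1) (by omega) le_rfl, h n hn (by omega), Or.inr (Or.inl ⟨rfl, rfl⟩)⟩

/-- The ends of the far parts. -/
def tgt (J k₀ k₁ : ℤ) (i : Fin 3) : ℤ × ℤ := ![(J, k₀), (-J - 1, k₁), (-J - 3, k₀)] i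

theorem far_path {J k₀ k₁ : ℤ} (hJ : 60 ≤ J) (h0 : J < k₀) (h1 : k₀ < k₁) (i : Fin 3) :
    Relation.ReflTransGen (fun x y => Far J k₀ k₁ i x ∧ Far J k₀ k₁ i y ∧ CAdj x y)
      (port3 J i) (tgt J k₀ k₁ i) := by
  fin_cases i
  · refine chain_up (Q := Far J k₀ k₁ 0) (by omega) fun y h2 h3 => ?_
    change J = J ∧ 0 ≤ y ∧ y ≤ k₀
    omega
  · refine chain_up (Q := Far J k₀ k₁ 1) (by omega) fun y h2 h3 => ?_
    change -J - 1 = -J - 1 ∧ 0 ≤ y ∧ y ≤ k₁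
    omega
  · refine (chain_left (Q := Far J k₀ k₁ 2) (a := -20) (a' := -J - 3) (b := -J - 1) (by omega)
      fun y h2 h3 => ?_).trans (chain_up (Q := Far J k₀ k₁ 2) (by omega) fun y h2 h3 => ?_)
    · change (-J - 1 = -J - 1 ∧ -J - 3 ≤ y ∧ y ≤ -20) ∨ _
      omega
    · change _ ∨ (-J - 3 = -J - 3 ∧ -J - 1 ≤ y ∧ y ≤ k₀)
      omega

/-- The order of the fresh configuration. -/
noncomputable def ordX (m k₁ : ℤ) (G : Fin 3 → Finset (ℤ × ℤ)) (f : ℤ × ℤ) : Bool := by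
  classical
  exact if f ∈ cellsF m (G 0) then colD 0 f
  else if f ∈ cellsF m (G 1) then colD 1 f
  else if f ∈ cellsF m (G 2) then colD 2 f
  else if k₁ * m ≤ f.2 then parD 1 f else parD 0 f

theorem ordX_cells {m J k₀ k₁ : ℤ} {G : Fin 3 → Finset (ℤ × ℤ)} (hm : 2 ≤ m)
    (hG : GX J k₀ k₁ G) (i : Fin 3) {f : ℤ × ℤ} (hf : f ∈ cellsF m (G i)) :
    ordX m k₁ G f = colD ((i : ℕ) : ℤ) f := by
  have hne : ∀ j, j ≠ i → f ∉ cellsF m (G j) := fun j hj hf' =>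
    (disjoint_left.1 (disjoint_cellsF hm (hG.ok i) (hG.ok j) (hG.disj i j hj.symm))) hf hf'
  unfold ordX
  fin_cases i
  · change f ∈ cellsF m (G 0) at hf
    rw [if_pos hf]; rfl
  · change f ∈ cellsF m (G 1) at hf
    rw [if_neg (hne 0 (by decide)), if_pos hf]; rfl
  · change f ∈ cellsF m (G 2) at hf
    rw [if_neg (hne 0 (by decide)), if_neg (hne 1 (by decide)), if_pos hf]; rfl

/-- The location of the faces of the cells. -/
theorem loc_face {m J k₀ k₁ : ℤ} {G : Fin 3 → Finset (ℤ × ℤ)}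
    (hG : GX J k₀ k₁ G) {i : Fin 3} {f : ℤ × ℤ} (hf : f ∈ cellsF m (G i)) (h0 : 0 ≤ f.2) :
    ∃ g ∈ G i, (Far J k₀ k₁ i g ∨ InBox J g) ∧ g.2 * m ≤ f.2 ∧ f.2 < g.2 * m + m ∧
      g.1 * m ≤ f.1 ∧ f.1 < g.1 * m + m := by
  obtain ⟨g, hg, h1⟩ := mem_cellsF.1 hf
  rw [mem_cellF] at h1
  exact ⟨g, hg, hG.loc i g hg, by omega, by omega, by omega, by omega⟩

theorem colD_up {c : ℤ} {f : ℤ × ℤ} (h : 0 ≤ f.2) : colD c f = parD c f := by
  unfold colD
  rw [if_neg (by omega)]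

theorem parD_two (f : ℤ × ℤ) : parD 2 f = parD 0 f := by
  unfold parD
  simp only [decide_eq_decide]
  omega

theorem mul_lt {a b m : ℤ} (hm : 0 < m) (h : a * m < b * m) : a < b := by
  by_contra hn
  have := mul_le_mul_of_nonneg_right (not_lt.1 hn) hm.le
  omega

/-- The order on the upper faces which are not in the cells of the wall with the other colour. -/
theorem ordX_up {m k₁ : ℤ} {G : Fin 3 → Finset (ℤ × ℤ)} {f : ℤ × ℤ} (h0 : 0 ≤ f.2)
    (h1 : f ∉ cellsF m (G 1)) (h2 : f.2 < k₁ * m) : ordX m k₁ G f = parD 0 f := by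
  unfold ordX
  split_ifs
  · exact colD_up h0
  · rw [colD_up h0, parD_two]
  · omega
  · rfl

theorem ordX_top {m J k₀ k₁ : ℤ} {G : Fin 3 → Finset (ℤ × ℤ)} {f : ℤ × ℤ} (hm : 2 ≤ m)
    (hJ : 60 ≤ J) (hk0 : J < k₀) (hk : k₀ < k₁) (hG : GX J k₀ k₁ G)
    (h2 : k₁ * m ≤ f.2) : ordX m k₁ G f = parD 1 f := by
  have hk1 : 0 ≤ k₁ * m := mul_nonneg (by omega) (by omega)
  have key : ∀ i : Fin 3, i ≠ 1 → f ∉ cellsF m (G i) := by
    intro i hi hf
    obtain ⟨g, -, hg, g1, g2, g3, g4⟩ := loc_face hG hf (by omega)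
    have hlt : k₁ < g.2 + 1 := mul_lt (m := m) (by omega) (by rw [add_mul, one_mul]; omega)
    rcases hg with hg | hg
    · fin_cases i
      · change g.1 = J ∧ 0 ≤ g.2 ∧ g.2 ≤ k₀ at hg
        omega
      · exact hi rfl
      · change (g.2 = -J - 1 ∧ -J - 3 ≤ g.1 ∧ g.1 ≤ -20) ∨
          (g.1 = -J - 3 ∧ -J - 1 ≤ g.2 ∧ g.2 ≤ k₀) at hg
        omega
    · unfold InBox at hg
      omega
  unfold ordX
  rw [if_neg (key 0 (by decide)), if_neg (key 2 (by decide)), if_pos h2]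
  split_ifs
  · exact colD_up (by omega)
  · rfl

/-- The order right of the box. -/
theorem ordX_R {m J k₀ k₁ : ℤ} {G : Fin 3 → Finset (ℤ × ℤ)} {f : ℤ × ℤ} (hm : 2 ≤ m)
    (hJ : 60 ≤ J) (hG : GX J k₀ k₁ G) (h0 : 0 ≤ f.2) (h1 : J * m ≤ f.1) (h2 : f.2 < k₁ * m) :
    ordX m k₁ G f = parD 0 f := by
  refine ordX_up h0 (fun hf => ?_) h2
  obtain ⟨g, -, hg, g1, g2, g3, g4⟩ := loc_face hG hf (by omega)
  have hlt : J < g.1 + 1 := mul_lt (m := m) (by omega) (by rw [add_mul, one_mul]; omega)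
  rcases hg with hg | hg
  · change g.1 = -J - 1 ∧ 0 ≤ g.2 ∧ g.2 ≤ k₁ at hg
    omega
  · unfold InBox at hg
    omega

/-- The order left of the box. -/
theorem ordX_L {m J k₀ k₁ : ℤ} {G : Fin 3 → Finset (ℤ × ℤ)} {f : ℤ × ℤ} (hm : 2 ≤ m)
    (hG : GX J k₀ k₁ G) (h0 : 0 ≤ f.2) (h1 : f.1 < (-J - 2) * m) (h2 : f.2 < k₁ * m) :
    ordX m k₁ G f = parD 0 f := by
  refine ordX_up h0 (fun hf => ?_) h2
  obtain ⟨g, -, hg, g1, g2, g3, g4⟩ := loc_face hG hf (by omega)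
  have hlt : g.1 < -J - 2 := mul_lt (m := m) (by omega) (by omega)
  rcases hg with hg | hg
  · change g.1 = -J - 1 ∧ 0 ≤ g.2 ∧ g.2 ≤ k₁ at hg
    omega
  · unfold InBox at hg
    omega

/-! ### The event of the fresh configuration -/

/-- The event of the fresh configuration. -/
def XEv (m w J k₀ k₁ : ℤ) (G : Fin 3 → Finset (ℤ × ℤ)) : Set Cfg :=
  {ξ | (∀ i : Fin 3, ξ ∈ Tub m ((i : ℕ) : ℤ) (G i)) ∧
    ξ ∈ LR 0 (J * m) (2 * w) (k₀ * m) (k₀ * m + m) ∧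
    ξ ∈ LR 1 ((-J - 1) * m) (2 * w) (k₁ * m) (k₁ * m + m) ∧
    ξ ∈ LR 1 (-(2 * w + 2)) ((-J - 1) * m + m) (k₁ * m) (k₁ * m + m) ∧
    ξ ∈ LR 2 (-(2 * w + 2)) ((-J - 3) * m + m) (k₀ * m) (k₀ * m + m)}

/-- The cells are inside the box. -/
theorem cells_box {m w J k₀ k₁ : ℤ} {G : Fin 3 → Finset (ℤ × ℤ)} (hm : 2 ≤ m)
    (hJ : 60 ≤ J) (hk0 : J < k₀) (hk : k₀ < k₁) (hG : GX J k₀ k₁ G) (hw : 2 * (k₁ * m + m) ≤ w)
    {i : Fin 3} {f : ℤ × ℤ} (hf : f ∈ cellsF m (G i)) : f ∈ BW w := by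
  obtain ⟨g, hg, h1⟩ := mem_cellsF.1 hf
  rw [mem_cellF] at h1
  have key : -k₁ - 1 ≤ g.1 ∧ g.1 ≤ k₁ ∧ -k₁ - 1 ≤ g.2 ∧ g.2 ≤ k₁ := by
    rcases hG.loc i g hg with h | h
    · fin_cases i
      · change g.1 = J ∧ 0 ≤ g.2 ∧ g.2 ≤ k₀ at h
        omega
      · change g.1 = -J - 1 ∧ 0 ≤ g.2 ∧ g.2 ≤ k₁ at h
        omega
      · change (g.2 = -J - 1 ∧ -J - 3 ≤ g.1 ∧ g.1 ≤ -20) ∨
          (g.1 = -J - 3 ∧ -J - 1 ≤ g.2 ∧ g.2 ≤ k₀) at h
        omega
    · unfold InBox at h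
      omega
  have a1 : (-k₁ - 1) * m ≤ g.1 * m := mul_le_mul_of_nonneg_right key.1 (by omega)
  have a2 : g.1 * m ≤ k₁ * m := mul_le_mul_of_nonneg_right key.2.1 (by omega)
  have a3 : (-k₁ - 1) * m ≤ g.2 * m := mul_le_mul_of_nonneg_right key.2.2.1 (by omega)
  have a4 : g.2 * m ≤ k₁ * m := mul_le_mul_of_nonneg_right key.2.2.2 (by omega)
  have e1 : (-k₁ - 1) * m = -(k₁ * m) - m := by ring
  have a5 : 60 * m ≤ k₁ * m := mul_le_mul_of_nonneg_right (by omega) (by omega)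
  rw [e1] at a1 a3
  unfold BW
  rw [mem_union, mem_RFi, mem_RFi]
  rcases chS_cases g with ⟨b1, b2⟩ | ⟨b1, b2⟩ <;> omega

theorem good_id {F W : Finset (ℤ × ℤ)} {A : Set Cfg} {D₀ D : ℤ × ℤ → Bool} {c : ℝ}
    (hA : DepOn F A) (hD : IncD D₀ A) (hm : ∀ f ∈ F, f ∈ W) (hDD : ∀ f ∈ F, D f = D₀ f)
    (hc : c ≤ pr F A) : DepOn W A ∧ IncD D A ∧ c ≤ pr W A :=
  Cyl3.good (g := fun f => f) hA hD (fun _ _ _ _ h => h) hm hDD hc

theorem pr_xev (J k₀ k₁ : ℤ) (K : ℕ) (n : ℕ) (hJ : 60 ≤ J) (hk0 : J < k₀) (hk : k₀ < k₁) :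
    ∃ c : ℝ, 0 < c ∧ ∀ m w : ℤ, 2 ≤ m → 2 * (k₁ * m + m) ≤ w → 4 * w + 2 ≤ n * m →
      ∀ G : Fin 3 → Finset (ℤ × ℤ), GX J k₀ k₁ G → (∀ i, (G i).card ≤ K) →
      c ≤ pr (BW (2 * w)) (XEv m w J k₀ k₁ G) := by
  classical
  obtain ⟨c₀, hc0, hc1, htub⟩ := pr_tub
  obtain ⟨c', hc', hrsw⟩ := PercT.rsw_holds n
  set c₁ : ℝ := min (c₀ ^ K) c' with hc₁
  have hc₁0 : 0 < c₁ := lt_min (by positivity) hc'
  refine ⟨c₁ ^ 7, by positivity, fun m w hm hw hn G hG hK => ?_⟩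
  have hJm : 60 * m ≤ J * m := mul_le_mul_of_nonneg_right hJ (by omega)
  have hJk : J * m + m ≤ k₀ * m := mul_lt_of_lt (by omega) hk0
  have hkk : k₀ * m + m ≤ k₁ * m := mul_lt_of_lt (by omega) hk
  have e1 : (-J - 1) * m = -(J * m) - m := by ring
  have e2 : (-J - 2) * m = -(J * m) - 2 * m := by ring
  have e3 : (-J - 3) * m = -(J * m) - 3 * m := by ring
  have hBW : ∀ f : ℤ × ℤ, 0 ≤ f.2 → f.2 < 2 * w → -(2 * w + 2) ≤ f.1 → f.1 < 2 * w →
      f ∈ BW (2 * w) := by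
    intro f h1 h2 h3 h4
    unfold BW
    rw [mem_union, mem_RFi, mem_RFi]
    omega
  have hBW2 : ∀ f : ℤ × ℤ, f ∈ BW w → f ∈ BW (2 * w) := by
    intro f h
    exact BW_sub (by omega) h
  set l : List (Set Cfg) := [Tub m ((0 : ℕ) : ℤ) (G 0), Tub m ((1 : ℕ) : ℤ) (G 1),
    Tub m ((2 : ℕ) : ℤ) (G 2), LR 0 (J * m) (2 * w) (k₀ * m) (k₀ * m + m),
    LR 1 ((-J - 1) * m) (2 * w) (k₁ * m) (k₁ * m + m),
    LR 1 (-(2 * w + 2)) ((-J - 1) * m + m) (k₁ * m) (k₁ * m + m),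
    LR 2 (-(2 * w + 2)) ((-J - 3) * m + m) (k₀ * m) (k₀ * m + m)] with hl
  have htubs : ∀ i : Fin 3, DepOn (BW (2 * w)) (Tub m ((i : ℕ) : ℤ) (G i)) ∧
      IncD (ordX m k₁ G) (Tub m ((i : ℕ) : ℤ) (G i)) ∧
      c₁ ≤ pr (BW (2 * w)) (Tub m ((i : ℕ) : ℤ) (G i)) := by
    intro i
    refine good_id (F := cellsF m (G i)) (depOn_tub (hG.ok i)) (Cyl3.incD_tub hm (hG.ok i))
      (fun f hf => hBW2 f (cells_box hm hJ hk0 hk hG hw hf)) (fun f hf => ordX_cells hm hG i hf) ?_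
    refine le_trans ?_ (htub m _ hm (G i) (hG.ok i))
    exact (min_le_left _ _).trans (pow_le_pow_of_le_one hc0.le hc1 (hK i))
  have hgood : ∀ A ∈ l, DepOn (BW (2 * w)) A ∧ IncD (ordX m k₁ G) A ∧ c₁ ≤ pr (BW (2 * w)) A := by
    intro A hA
    rw [hl] at hA
    simp only [List.mem_cons, List.not_mem_nil, or_false] at hA
    rcases hA with rfl | rfl | rfl | rfl | rfl | rfl | rfl
    · exact htubs 0
    · exact htubs 1
    · exact htubs 2
    · refine good_id (depOn_LR _ _ _ _ _) (incD_LR _ _ _ _ _) ?_ ?_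
        ((min_le_right _ _).trans ((hrsw 0 _ _ _ _ (by omega) (by omega)).1
          (by rw [add_sub_cancel_left]; omega)))
      · intro f hf
        have hf' := mem_RFi.1 hf
        exact hBW f (by omega) (by omega) (by omega) (by omega)
      · intro f hf
        have hf' := mem_RFi.1 hf
        exact ordX_R hm hJ hG (by omega) (by omega) (by omega)
    · refine good_id (depOn_LR _ _ _ _ _) (incD_LR _ _ _ _ _) ?_ ?_
        ((min_le_right _ _).trans ((hrsw 1 _ _ _ _ (by omega) (by omega)).1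
          (by rw [add_sub_cancel_left]; omega)))
      · intro f hf
        have hf' := mem_RFi.1 hf
        exact hBW f (by omega) (by omega) (by omega) (by omega)
      · intro f hf
        have hf' := mem_RFi.1 hf
        exact ordX_top hm hJ hk0 hk hG (by omega)
    · refine good_id (depOn_LR _ _ _ _ _) (incD_LR _ _ _ _ _) ?_ ?_
        ((min_le_right _ _).trans ((hrsw 1 _ _ _ _ (by omega) (by omega)).1
          (by rw [add_sub_cancel_left]; omega)))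
      · intro f hf
        have hf' := mem_RFi.1 hf
        exact hBW f (by omega) (by omega) (by omega) (by omega)
      · intro f hf
        have hf' := mem_RFi.1 hf
        exact ordX_top hm hJ hk0 hk hG (by omega)
    · refine good_id (depOn_LR _ _ _ _ _) (incD_LR _ _ _ _ _) ?_ ?_
        ((min_le_right _ _).trans ((hrsw 2 _ _ _ _ (by omega) (by omega)).1
          (by rw [add_sub_cancel_left]; omega)))
      · intro f hf
        have hf' := mem_RFi.1 hf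
        exact hBW f (by omega) (by omega) (by omega) (by omega)
      · intro f hf
        have hf' := mem_RFi.1 hf
        rw [parD_two]
        exact ordX_L hm hG (by omega) (by omega) (by omega)
  have hfin := PercT.TubeP.harris_list hc₁0.le l hgood
  have hlen : l.length = 7 := rfl
  rw [hlen] at hfin
  refine hfin.trans (pr_mono _ ?_)
  intro ξ hξ
  have hmem : ∀ A ∈ l, ξ ∈ A := hξ
  refine ⟨fun i => ?_, hmem _ (by simp [hl]), hmem _ (by simp [hl]), hmem _ (by simp [hl]),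
    hmem _ (by simp [hl])⟩
  fin_cases i
  · exact hmem _ (by simp [hl])
  · exact hmem _ (by simp [hl])
  · exact hmem _ (by simp [hl])

/-! ### The landing -/

/-- The first and the last tip on an arc. -/
theorem arc_tips {L : ℤ} {s : Fin 3 → ℤ} {S : ℤ → Fin 3} {K : ℤ → ZMod 2} (C : Cyc L s S K)
    (hs : ∀ i, 0 ≤ s i ∧ s i < L) {a : Fin 3} {x y x' y' : ℤ} (h0 : 0 ≤ x) (hxy : x ≤ y)
    (h1 : y ≤ x') (h2 : x' ≤ y') (h3 : y' < L) (e1 : S x ≠ a) (e2 : S y = a) (e3 : S x' = a)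
    (e4 : S y' ≠ a) : (x ≤ s a ∧ s a < y) ∧ (x' ≤ s (a + 1) ∧ s (a + 1) < y') := by
  have hdvd : ∀ z j, 0 ≤ z → z < L → L ∣ z - s j → z = s j := by
    intro z j hz hz' hd
    have h4 := hs j
    obtain ⟨c, hc⟩ := hd
    have hL := C.pos
    have : c = 0 := by
      by_contra hne
      rcases lt_or_gt_of_ne hne with h5 | h5
      · have : L * c ≤ L * (-1) := mul_le_mul_of_nonneg_left (by omega) hL.le
        omega
      · have : L * 1 ≤ L * c := mul_le_mul_of_nonneg_left (by omega) hL.le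
        omega
    rw [this, mul_zero] at hc
    omega
  constructor
  · by_contra hcon
    have key : ∀ z, x ≤ z → z ≤ y → S z ≠ a := by
      intro z hz
      induction z, hz using Int.leInduction with
      | base => intro _; exact e1
      | succ z hz ih =>
        intro hz'
        have ih' := ih (by omega)
        by_cases hj : ∃ j, L ∣ z - s j
        · obtain ⟨j, hj⟩ := hj
          have hzj := hdvd z j (by omega) (by omega) hj
          rw [hzj, (C.tip j).2.1]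
          rintro rfl
          exact hcon ⟨by omega, by omega⟩
        · push Not at hj
          rw [(C.step z hj).1]
          exact ih'
    exact key y hxy le_rfl e2
  · by_contra hcon
    have key : ∀ z, x' ≤ z → z ≤ y' → S z = a := by
      intro z hz
      induction z, hz using Int.leInduction with
      | base => intro _; exact e3
      | succ z hz ih =>
        intro hz'
        have ih' := ih (by omega)
        by_cases hj : ∃ j, L ∣ z - s j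
        · obtain ⟨j, hj⟩ := hj
          have hzj := hdvd z j (by omega) (by omega) hj
          rw [hzj, (C.tip j).1] at ih'
          have : j = a + 1 := by
            rw [← ih']
            fin_cases j <;> rfl
          subst this
          exact absurd ⟨by omega, by omega⟩ hcon
        · push Not at hj
          rw [(C.step z hj).1]
          exact ih'
    exact e4 (key y' h2 le_rfl)

/-- The tips of the legs are in the ports. -/
theorem port_of {w y₀ y₁ y₁' y₂ : ℤ} {ζ : Cfg} {x : Fin 3 → ℤ} (hw : 1 ≤ w) (hζ : ζ ∈ Arm3 w)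
    (hx : Function.Injective x) (hC : ∀ i, Core (x i))
    (h0 : w ≤ 4 * y₀ ∧ y₀ < y₁ ∧ 2 * y₁ ≤ w) (h2 : w ≤ 4 * y₂ ∧ y₂ < y₁' ∧ 2 * y₁' ≤ w)
    (c0 : ConnW emP ζ (BW w) (x 0, 0) (w, y₀)) (c1 : ConnW emP ζ (BW w) (x 1, 0) (w, y₁))
    (c1' : ConnW emP ζ (BW w) (x 1, 0) (-(w + 2), y₁'))
    (c2 : ConnW emP ζ (BW w) (x 2, 0) (-(w + 2), y₂)) : ∃ i ya yb, PortEv w ζ i ya yb := by
  choose s s0 s1 sO using fun i => LegsAux.exit_leg hw hζ i
  have hleg : ∀ i : Fin 3, (ine w (s i)).swap ∈ Orb TQ ζ (An 0 w) (ine 0 ((i : ℕ) : ℤ)).swap := by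
    intro i
    rw [An_zero]
    exact sO i
  obtain ⟨sec, kap, H⟩ := secOut (ω := ζ) (d := 0) (w := w) (t := fun i : Fin 3 => ((i : ℕ) : ℤ))
    le_rfl (by omega) alt_core fun i => ⟨s i, s0 i, s1 i, hleg i⟩
  have C := cyc_out (s := s) le_rfl (show (0 : ℤ) < w by omega)
    (fun i => alt_core.mem i) H (fun i => ⟨s0 i, s1 i⟩) hleg
  have hsec : ∀ {u v : ℤ × ℤ}, ConnW emP ζ (BW w) u v → sec u = sec v := by
    intro u v h
    have h' : ConnQ TQ ζ (An 0 w) u v := by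
      rw [An_zero]
      exact (connQ_iff emP_mono).2 h
    exact (H.conn_eq h').1
  have hcx : ∀ i : Fin 3, sec (cx i, 0) = i := by
    intro i
    have h3 := (H.left i _ mem_Orb_self).1
    rw [← leg_fst i]
    exact h3
  have hcore : ∀ y, Core y → ∃ i, y = cx i := by
    intro y hy
    unfold Core at hy
    rcases hy with rfl | rfl | rfl
    · exact ⟨1, by decide⟩
    · exact ⟨0, by decide⟩
    · exact ⟨2, by decide⟩
  choose a ha using fun i => hcore (x i) (hC i)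
  have hainj : Function.Injective a := by
    intro i j hij
    apply hx
    rw [ha i, ha j, hij]
  have hS : ∀ i, sec (x i, 0) = a i := fun i => by rw [ha i]; exact hcx (a i)
  have b0 : bdc w y₀ = (w, y₀) := by
    rw [bdc_eq (by omega) (by omega), BdAux.bd_R (by omega)]
  have b1 : bdc w y₁ = (w, y₁) := by
    rw [bdc_eq (by omega) (by omega), BdAux.bd_R (by omega)]
  have b1' : bdc w (4 * w + 2 - y₁') = (-(w + 2), y₁') := by
    rw [bdc_eq (by omega) (by omega), BdAux.bd_L (by omega) (by omega) (by omega)]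
    congr 1
    omega
  have b2 : bdc w (4 * w + 2 - y₂) = (-(w + 2), y₂) := by
    rw [bdc_eq (by omega) (by omega), BdAux.bd_L (by omega) (by omega) (by omega)]
    congr 1
    omega
  have key := arc_tips C (fun i => ⟨s0 i, s1 i⟩) (a := a 1) (x := y₀) (y := y₁)
    (x' := 4 * w + 2 - y₁') (y' := 4 * w + 2 - y₂) (by omega) (by omega) (by omega) (by omega)
    (by omega)
    (by
      simp only [b0]
      rw [← hsec c0, hS]
      intro h
      exact absurd (hainj h) (by decide))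
    (by
      simp only [b1]
      rw [← hsec c1, hS])
    (by
      simp only [b1']
      rw [← hsec c1', hS])
    (by
      simp only [b2]
      rw [← hsec c2, hS]
      intro h
      exact absurd (hainj h) (by decide))
  obtain ⟨⟨k1, k2⟩, k3, k4⟩ := key
  have hgap := C.gap_odd (a 1)
  unfold gap at hgap
  have hmod : (s (a 1 + 1) - s (a 1)) % (8 * w + 3) = s (a 1 + 1) - s (a 1) :=
    Int.emod_eq_of_lt (by omega) (by omega)
  rw [hmod] at hgap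
  refine ⟨a 1, s (a 1), 4 * w + 1 - s (a 1 + 1), ?_, ⟨⟨s0 _, s1 _⟩, sO _⟩, ?_⟩
  · unfold Ports
    rw [mem_filter, mem_product, mem_Ico, mem_Ico]
    refine ⟨⟨by omega, by simp only; omega⟩, ?_⟩
    simp only
    omega
  · rw [sub_sub_cancel]
    exact ⟨⟨s0 _, s1 _⟩, sO _⟩

theorem tub_mono' {m c : ℤ} {G G' : Finset (ℤ × ℤ)} (h : G' ⊆ G) : Tub m c G ⊆ Tub m c G' :=
  fun _ hω g hg k hk => hω g (h hg) k ⟨fun h1 => h (hk.1 h1), fun h1 => h (hk.2 h1)⟩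

/-- The walls, the mixed configuration and the ports. -/
theorem mix_port {m w R J k₀ k₁ : ℤ} {K : ℕ} {ω ξ : Cfg} {t : Fin 3 → ℤ}
    {G : Fin 3 → Finset (ℤ × ℤ)} (hm : 3 ≤ m) (hR : 60 * m ≤ R) (hRJ : R + 60 * m ≤ J * m)
    (hJ : 60 ≤ J) (hk0 : J < k₀) (hk' : k₀ + 1 < k₁) (hw0 : w ≤ 4 * (k₀ * m))
    (hw : 2 * (k₁ * m + m) ≤ w) (hD : Cyl3.Dat m R J K ω t G)
    (hξ : ξ ∈ XEv m w J k₀ k₁ fun i => G i ∪ ext J k₀ k₁ i) :
    PercT.mix (VUL R ω) ω ξ ∈ Arm3 (2 * w) ∧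
      (PercT.mix (VUL R ω) ω ξ ∈ Arm3 w → ∃ i ya yb, PortEv w (PercT.mix (VUL R ω) ω ξ) i ya yb) := by
  obtain ⟨d1, d2, d3, d4, d5, d6⟩ := hD
  obtain ⟨x1, x2, x3, x4, x5⟩ := hξ
  have hk : k₀ < k₁ := by omega
  have hkk' : (k₀ + 1) * m + m ≤ k₁ * m := mul_lt_of_lt (by omega) hk'
  rw [add_mul, one_mul] at hkk'
  have hG := gx_of hJ hk0 hk d3.1 d3.2.1 d5
  set G' : Fin 3 → Finset (ℤ × ℤ) := fun i => G i ∪ ext J k₀ k₁ i with hG'
  set ζ := PercT.mix (VUL R ω) ω ξ with hζ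
  have hJm : 60 * m ≤ J * m := mul_le_mul_of_nonneg_right hJ (by omega)
  have hJk : J * m + m ≤ k₀ * m := mul_lt_of_lt (by omega) hk0
  have hkk : k₀ * m + m ≤ k₁ * m := mul_lt_of_lt (by omega) hk
  have e1 : (-J - 1) * m = -(J * m) - m := by ring
  have e3 : (-J - 3) * m = -(J * m) - 3 * m := by ring
  have v1 : ∀ f ∈ VUL R ω, ζ f = ω f := by
    intro f hf
    rw [hζ]
    unfold PercT.mix
    rw [if_pos hf]
  have v2 : ∀ f, f ∉ VUL R ω → ζ f = ξ f := by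
    intro f hf
    rw [hζ]
    unfold PercT.mix
    rw [if_neg hf]
  have v3 : ∀ f, f ∉ BW R → ζ f = ξ f := fun f hf => v2 f fun h => hf (Cyl3.vul_sub h)
  -- the cells
  have hcell : ∀ i, ∀ f ∈ cellsF m (G' i), f ∈ BW w := fun i f hf =>
    cells_box (by omega) hJ hk0 hk hG hw hf
  obtain ⟨x, hx, hC, hland⟩ := linkP m R 0 ω ξ ζ t G hm hR d1 d2 d3
    (fun i => by rw [zero_add]; exact tub_mono' subset_union_left (x1 i)) v1
    (fun f hf _ => v2 f hf)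
  simp only [zero_add] at hland
  have hport : ∀ i, ConnW emP ζ (BW w : Set (ℤ × ℤ)) (x i, 0)
      (rep m ((i : ℕ) : ℤ) ξ (tgt J k₀ k₁ i)) := by
    intro i
    have h1 : ConnW emP ζ (BW w : Set (ℤ × ℤ)) (x i, 0)
        (rep m ((i : ℕ) : ℤ) ξ (oport m R (t i))) := by
      refine (hland i).mono ?_
      rintro f (hf | hf)
      · exact Finset.mem_coe.2 (BW_sub (by omega) (Finset.mem_coe.1 hf))
      · refine Finset.mem_coe.2 (hcell i f ?_)
        obtain ⟨g, hg, hgf⟩ := mem_cellsF.1 (Finset.mem_coe.1 hf)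
        exact mem_cellsF.2 ⟨g, mem_union_left _ hg, hgf⟩
    have hfar : Relation.ReflTransGen (fun a b => a ∈ G' i ∧ b ∈ G' i ∧ COut m R a ∧
        COut m R b ∧ CAdj a b) (port3 J i) (tgt J k₀ k₁ i) := by
      have hout : ∀ g, Far J k₀ k₁ i g → COut m R g := by
        intro g hg
        unfold COut
        rw [add_mul, one_mul, add_mul, one_mul]
        fin_cases i
        · change g.1 = J ∧ 0 ≤ g.2 ∧ g.2 ≤ k₀ at hg
          rw [hg.1]
          omega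
        · change g.1 = -J - 1 ∧ 0 ≤ g.2 ∧ g.2 ≤ k₁ at hg
          rw [hg.1]
          omega
        · change (g.2 = -J - 1 ∧ -J - 3 ≤ g.1 ∧ g.1 ≤ -20) ∨
            (g.1 = -J - 3 ∧ -J - 1 ≤ g.2 ∧ g.2 ≤ k₀) at hg
          rcases hg with hg | hg
          · rw [hg.1]
            omega
          · rw [hg.1]
            omega
      exact Relation.ReflTransGen.mono
        (fun a b h => ⟨hG.far i a h.1, hG.far i b h.2.1, hout a h.1, hout b h.2.1, h.2.2⟩) _ _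
        (far_path hJ hk0 hk i)
    have hall : Relation.ReflTransGen (fun a b => a ∈ G' i ∧ b ∈ G' i ∧ COut m R a ∧
        COut m R b ∧ CAdj a b) (oport m R (t i)) (tgt J k₀ k₁ i) :=
      (Relation.ReflTransGen.mono (fun a b h => ⟨mem_union_left _ h.1, mem_union_left _ h.2.1,
        h.2.2.1, h.2.2.2.1, h.2.2.2.2⟩) _ _ (d6 i)).trans hfar
    have h2 := tub_link (w := m) (P := COut m R) (by omega) (hG.ok i) (x1 i) hall
    refine h1.trans ((ConnW.congr_cfg (ω' := ζ) ?_ h2).mono ?_)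
    · rintro f ⟨a, ha, ha', hfa⟩
      exact (v3 f (Cyl3.cout_not (by omega) (by omega) ha' hfa)).symm
    · rintro f ⟨a, ha, -, hfa⟩
      exact Finset.mem_coe.2 (hcell i f (mem_cellsF.2 ⟨a, ha, hfa⟩))
  have htgt : ∀ i, tgt J k₀ k₁ i ∈ G' i := by
    intro i
    refine hG.far i _ ?_
    fin_cases i
    · change J = J ∧ 0 ≤ k₀ ∧ k₀ ≤ k₀
      omega
    · change -J - 1 = -J - 1 ∧ 0 ≤ k₁ ∧ k₁ ≤ k₁
      omega
    · change _ ∨ (-J - 3 = -J - 3 ∧ -J - 1 ≤ k₀ ∧ k₀ ≤ k₀)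
      omega
  -- the rectangles
  have hrect : ∀ {X X' Y Y' : ℤ} {u v : ℤ × ℤ} (r : ℤ), R ≤ Y → Y' ≤ r → -(r + 2) ≤ X → X' ≤ r →
      Conn ξ (RF X X' Y Y') u v → ConnW emP ζ (BW r : Set (ℤ × ℤ)) u v := by
    intro X X' Y Y' u v r h1 h2 h3 h4 h
    have h5 : Conn ζ (RF X X' Y Y') u v := Cyl3.conn_cfg (fun f hf => (v3 f (by
      have hf' := mem_RFi.1 (Finset.mem_coe.1 hf)
      unfold BW
      rw [mem_union, mem_RFi, mem_RFi]
      omega)).symm) h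
    refine (connW_up (em := emP) (fun f hf => ?_) h5).mono fun f hf => ?_
    · have hf' := mem_RFi.1 (Finset.mem_coe.1 hf)
      omega
    · have hf' := mem_RFi.1 (Finset.mem_coe.1 hf)
      rw [Finset.mem_coe]
      unfold BW
      rw [mem_union, mem_RFi, mem_RFi]
      omega
  have hbig : ∀ {u v : ℤ × ℤ}, ConnW emP ζ (BW w : Set (ℤ × ℤ)) u v →
      ConnW emP ζ (BW (2 * w) : Set (ℤ × ℤ)) u v := fun h =>
    h.mono fun f hf => Finset.mem_coe.2 (BW_sub (by omega) (Finset.mem_coe.1 hf))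
  have t0 : ∀ z, J * m + m ≤ z → z ≤ 2 * w → _ := fun z h1 h2 =>
    touch_right (x := z) (by omega) (x1 0) (htgt 0) (show (0 : ℤ) ≤ k₀ by omega) x2 h1 h2
  have t1 : ∀ z, (-J - 1) * m + m ≤ z → z ≤ 2 * w → _ := fun z h1 h2 =>
    touch_right (x := z) (by omega) (x1 1) (htgt 1) (show (0 : ℤ) ≤ k₁ by omega) x3 h1 h2
  have t1' : ∀ z, -(2 * w + 2) ≤ z → z ≤ (-J - 1) * m → _ := fun z h1 h2 =>
    touch_left (x := z) (by omega) (x1 1) (htgt 1) (show (0 : ℤ) ≤ k₁ by omega) x4 h1 h2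
  have t2 : ∀ z, -(2 * w + 2) ≤ z → z ≤ (-J - 3) * m → _ := fun z h1 h2 =>
    touch_left (x := z) (by omega) (x1 2) (htgt 2) (show (0 : ℤ) ≤ k₀ by omega) x5 h1 h2
  constructor
  · intro y hy
    have hall : y = x 0 ∨ y = x 1 ∨ y = x 2 := by
      have h0 := hC 0
      have h1 := hC 1
      have h2 := hC 2
      have n01 : x 0 ≠ x 1 := fun h => absurd (hx h) (by decide)
      have n02 : x 0 ≠ x 2 := fun h => absurd (hx h) (by decide)
      have n12 : x 1 ≠ x 2 := fun h => absurd (hx h) (by decide)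
      unfold Core at hy h0 h1 h2
      omega
    rcases hall with rfl | rfl | rfl
    · obtain ⟨z, z1, z2, z3, h⟩ := t0 (2 * w) (by omega) le_rfl
      change k₀ * m ≤ z.2 at z2
      change z.2 ≤ k₀ * m + m at z3
      refine ⟨z, (hbig (hport 0)).trans (hrect (2 * w) ?_ ?_ ?_ ?_ h), ?_⟩
      · change R ≤ k₀ * m
        omega
      · change k₀ * m + m ≤ 2 * w
        omega
      · change -(2 * w + 2) ≤ J * m
        omega
      · omega
      · unfold BdW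
        omega
    · obtain ⟨z, z1, z2, z3, h⟩ := t1 (2 * w) (by omega) le_rfl
      change k₁ * m ≤ z.2 at z2
      change z.2 ≤ k₁ * m + m at z3
      refine ⟨z, (hbig (hport 1)).trans (hrect (2 * w) ?_ ?_ ?_ ?_ h), ?_⟩
      · change R ≤ k₁ * m
        omega
      · change k₁ * m + m ≤ 2 * w
        omega
      · change -(2 * w + 2) ≤ (-J - 1) * m
        omega
      · omega
      · unfold BdW
        omega
    · obtain ⟨z, z1, z2, z3, h⟩ := t2 (-(2 * w + 2)) le_rfl (by omega)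
      change k₀ * m ≤ z.2 at z2
      change z.2 ≤ k₀ * m + m at z3
      refine ⟨z, (hbig (hport 2)).trans (hrect (2 * w) ?_ ?_ ?_ ?_ h), ?_⟩
      · change R ≤ k₀ * m
        omega
      · change k₀ * m + m ≤ 2 * w
        omega
      · omega
      · change (-J - 3) * m + m ≤ 2 * w
        omega
      · unfold BdW
        omega
  · intro hA
    obtain ⟨z0, a1, a2, a3, a4⟩ := t0 w (by omega) (by omega)
    obtain ⟨z1, b1, b2, b3, b4⟩ := t1 w (by omega) (by omega)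
    obtain ⟨z1', c1, c2, c3, c4⟩ := t1' (-(w + 2)) (by omega) (by omega)
    obtain ⟨z2, g1, g2, g3, g4⟩ := t2 (-(w + 2)) (by omega) (by omega)
    change k₀ * m ≤ z0.2 at a2
    change z0.2 ≤ k₀ * m + m at a3
    change k₁ * m ≤ z1.2 at b2
    change z1.2 ≤ k₁ * m + m at b3
    change k₁ * m ≤ z1'.2 at c2
    change z1'.2 ≤ k₁ * m + m at c3
    change k₀ * m ≤ z2.2 at g2
    change z2.2 ≤ k₀ * m + m at g3
    have f0 : z0 = (w, z0.2) := Prod.ext a1 rfl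
    have f1 : z1 = (w, z1.2) := Prod.ext b1 rfl
    have f1' : z1' = (-(w + 2), z1'.2) := Prod.ext c1 rfl
    have f2 : z2 = (-(w + 2), z2.2) := Prod.ext g1 rfl
    rw [f0] at a4
    rw [f1] at b4
    rw [f1'] at c4
    rw [f2] at g4
    refine port_of (y₀ := z0.2) (y₁ := z1.2) (y₁' := z1'.2) (y₂ := z2.2) (by omega) hA hx hC
      (by omega) (by omega) ((hport 0).trans (hrect w ?_ ?_ ?_ ?_ a4))
      ((hport 1).trans (hrect w ?_ ?_ ?_ ?_ b4)) ((hport 1).trans (hrect w ?_ ?_ ?_ ?_ c4))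
      ((hport 2).trans (hrect w ?_ ?_ ?_ ?_ g4))
    · change R ≤ k₀ * m
      omega
    · change k₀ * m + m ≤ w
      omega
    · change -(w + 2) ≤ J * m
      omega
    · omega
    · change R ≤ k₁ * m
      omega
    · change k₁ * m + m ≤ w
      omega
    · change -(w + 2) ≤ (-J - 1) * m
      omega
    · omega
    · change R ≤ k₁ * m
      omega
    · change k₁ * m + m ≤ w
      omega
    · omega
    · change (-J - 1) * m + m ≤ w
      omega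
    · change R ≤ k₀ * m
      omega
    · change k₀ * m + m ≤ w
      omega
    · omega
    · change (-J - 3) * m + m ≤ w
      omega

end XP

open XP Cyl3 in
/-- The legs have their tips in the ports. -/
theorem portLow : PortLow := by
  classical
  obtain ⟨M, c, hM, hc, hsep⟩ := sep3_lower_top Rt.portsP
  set N : ℕ := 40 * (M + 2) with hN
  obtain ⟨Kc, hPorts⟩ := Rt.portsP N
  set J : ℕ := N + 60 with hJ
  set q : ℕ := J + 3 with hq
  set k₀ : ℤ := 5 * q with hk₀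
  set k₁ : ℤ := 6 * q with hk₁
  have hJ60 : (60 : ℤ) ≤ J := by omega
  have hk0 : (J : ℤ) < k₀ := by omega
  have hk' : k₀ + 1 < k₁ := by omega
  set K : ℕ := Kc + ((ext J k₀ k₁ 0).card + (ext J k₀ k₁ 1).card + (ext J k₀ k₁ 2).card) with hK
  obtain ⟨c', hc', hx⟩ := pr_xev J k₀ k₁ K (4 * (16 * q + 1) + 2) hJ60 hk0 (by omega)
  refine ⟨c * c', 16 * q * (16 * q), by positivity, fun w hw => ?_⟩
  set m : ℕ := w / (16 * q) with hm
  have hq0 : 0 < 16 * q := by omega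
  have hmw : 16 * q * m ≤ w := Nat.mul_div_le w (16 * q)
  have hmw' : w < 16 * q * m + 16 * q := by
    have := Nat.lt_div_mul_add (a := w) hq0
    rw [← hm, mul_comm] at this
    exact this
  have hm16 : 16 * q ≤ m := (Nat.le_div_iff_mul_le hq0).2 hw
  set R : ℕ := N * m with hR
  have hm1 : 0 < m := by omega
  have hNR : (R : ℤ) = N * m := by rw [hR]; push_cast; ring
  have h60 : 60 * m ≤ R := by
    rw [hR]
    exact Nat.mul_le_mul_right _ (by omega)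
  have hRw : R ≤ w := by
    refine le_trans ?_ hmw
    rw [hR]
    exact Nat.mul_le_mul_right _ (by omega)
  have hsep' := hsep (40 * m) R (by omega) (by
    rw [hR, hN, show M * (40 * m) = 40 * M * m by ring]
    exact Nat.mul_le_mul_right _ (by omega))
  -- integers
  have i1 : ((16 * q * m : ℕ) : ℤ) ≤ w := by omega
  have i2 : (w : ℤ) < ((16 * q * m : ℕ) : ℤ) + ((16 * q : ℕ) : ℤ) := by omega
  have i3 : ((16 * q : ℕ) : ℤ) ≤ (m : ℤ) := by omega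
  push_cast at i1 i2 i3
  set mz : ℤ := (m : ℤ) with hmz
  have i4 : (63 : ℤ) ≤ q := by omega
  have j0 : k₀ * mz = 5 * (q * mz) := by rw [hk₀]; ring
  have j1 : k₁ * mz = 6 * (q * mz) := by rw [hk₁]; ring
  have j2 : 16 * (q : ℤ) * mz = 16 * (q * mz) := by ring
  rw [j2] at i1 i2
  have j3 : 63 * mz ≤ q * mz := mul_le_mul_of_nonneg_right i4 (by omega)
  have j4 : (R : ℤ) + 60 * mz = J * mz := by
    rw [hNR, hJ]
    push_cast
    ring
  have hw0 : (w : ℤ) ≤ 4 * (k₀ * mz) := by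
    rw [j0]
    omega
  have hw1 : 2 * (k₁ * mz + mz) ≤ w := by
    rw [j1]
    omega
  have hw2 : 4 * (w : ℤ) + 2 ≤ ((4 * (16 * q + 1) + 2 : ℕ) : ℤ) * mz := by
    push_cast
    rw [show (4 * (16 * (q : ℤ) + 1) + 2) * mz = 64 * (q * mz) + 6 * mz by ring]
    omega
  -- the data
  have hdat : ∀ η : Cfg, η ∈ Sep3 (R : ℤ) ((40 * m : ℕ) : ℤ) → ∃ s G, Dat mz R J Kc η s G := by
    rintro η ⟨t, h1, h2, h3⟩
    obtain ⟨s, s1, s2, s3, s4⟩ := sort_tlin (R := (R : ℤ)) (g := ((40 * m : ℕ) : ℤ))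
      (P := IsTip R η)
      (fun i => (h1 i).1) (fun i => ⟨(h1 i).1.1, (h1 i).1.2.1, (h1 i).2⟩) h2 h3 (by omega)
    have hpos : TipPos mz R s := by
      refine ⟨fun i => ⟨(s2 i).1, (s2 i).2.1, fun z hz => le_trans ?_ ((s2 i).2.2 z hz)⟩, ?_, ?_⟩
      · omega
      · omega
      · omega
    obtain ⟨G, g1, g2, g3, g4⟩ := hPorts mz R (by omega) (by omega) (by rw [hNR]) s hpos
    refine ⟨s, G, hpos, s1, g1, g2, ?_, ?_⟩
    · rw [hJ]
      push_cast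
      exact g3
    · rw [hJ]
      push_cast
      exact g4
  let B : Cfg → Set Cfg := fun ω =>
    if h : ∃ s G, Dat mz R J Kc ω s G then
      XEv mz w J k₀ k₁ (fun i => h.choose_spec.choose i ∪ ext J k₀ k₁ i) else ∅
  have key := PercT.pr_mix (W := BW (2 * (w : ℤ))) (S := fun ω => VUL R ω) (c := c')
    (fun ω ω' h => vul_congr h) (Sep3 (R : ℤ) ((40 * m : ℕ) : ℤ)) B
    {ω | ω ∈ Arm3 ((2 * w : ℕ) : ℤ) ∧ ∃ i ya yb, PortEv w ω i ya yb}
    (by
      intro ω hω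
      have h := hdat _ hω
      simp only [B]
      rw [dif_pos h]
      obtain ⟨d1, d2, d3, d4, d5, d6⟩ := h.choose_spec.choose_spec
      refine hx mz w (by omega) hw1 hw2 _ (gx_of hJ60 hk0 (by omega) d3.1 d3.2.1 d5) fun i => ?_
      have hu := card_union_le (h.choose_spec.choose i) (ext J k₀ k₁ i)
      have hd := d4 i
      have he : (ext J k₀ k₁ i).card ≤
          (ext J k₀ k₁ 0).card + (ext J k₀ k₁ 1).card + (ext J k₀ k₁ 2).card := by
        fin_cases i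
        · change (ext J k₀ k₁ 0).card ≤ _
          omega
        · change (ext J k₀ k₁ 1).card ≤ _
          omega
        · change (ext J k₀ k₁ 2).card ≤ _
          omega
      omega)
    (by
      intro ω hω ξ hξ
      have h := hdat _ hω
      simp only [B] at hξ
      rw [dif_pos h] at hξ
      have hres := mix_port (by omega) (by omega) (by omega) hJ60 hk0 hk' hw0 hw1
        h.choose_spec.choose_spec hξ
      have hA : PercT.mix (VUL R ω) ω ξ ∈ Arm3 ((2 * w : ℕ) : ℤ) := by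
        push_cast
        exact hres.1
      exact ⟨hA, hres.2 (arm3Anti w (2 * w) (by omega) (by omega) _ hA)⟩)
  rw [pr_eq_of_depOn (depOn_sep3 _ _) (BW_sub (show (R : ℤ) ≤ 2 * (w : ℤ) by omega))] at key
  have hcast : ((2 * w : ℕ) : ℤ) = 2 * (w : ℤ) := by push_cast; ring
  have hRpos : (0 : ℝ) < R := by
    have : 0 < R := by omega
    exact_mod_cast this
  have k3 : (w : ℝ) ^ (-(2 / 3) : ℝ) ≤ (R : ℝ) ^ (-(2 / 3) : ℝ) := by
    refine Real.rpow_le_rpow_of_nonpos hRpos ?_ (by norm_num)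
    exact_mod_cast hRw
  calc c * c' * (w : ℝ) ^ (-(2 / 3) : ℝ) ≤ c * c' * (R : ℝ) ^ (-(2 / 3) : ℝ) :=
        mul_le_mul_of_nonneg_left k3 (by positivity)
    _ = c' * (c * (R : ℝ) ^ (-(2 / 3 : ℝ))) := by ring
    _ ≤ c' * pr (BW R) (Sep3 R ((40 * m : ℕ) : ℤ)) := mul_le_mul_of_nonneg_left hsep' hc'.le
    _ ≤ _ := by
      refine key.trans (le_of_eq ?_)
      rw [hcast]

end Pool.Agent.Occ

end PartoccXP
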