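import Pool.Agent.Lib.MP_6bd702_zc.Pre
import Pool.Agent.Lib.MP_6bd702_zc.Y033
import Pool.Agent.Lib.MP_6bd702_zc.Y028
import Pool.Agent.Lib.MP_6bd702_zc.Y026

section PartoccTwoUp

/-!
# The two point estimate for occupied cells from above
-/

set_option autoImplicit false

namespace Pool.Agent.Occ

open Finset Filter Pool.Agent.Perc Pool.Agent.PercL Pool.Agent.Perc3
open Pool.Agent.PercD (BR mem_BR mem_BR' pr_indep MM_congr')
open Pool.Agent.PercN (LT mem_LT pr_LT_le)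
open Pool.Agent.PercS5 (Ev Av depOn_Av AnF_sub_RF TTBound av_sharp Ev_sub_Av first_exit')

variable {ω : Cfg} {n a ρ q d w D y b : ℤ} {z z' c c' : ℤ × ℤ} {M : ℕ}

/-! ### The strip on the left side -/

/-- The component of the unit edge crosses the strip on the left side. -/
def XS (n a b y : ℤ) : Set Cfg :=
  {ω | ∃ g, 0 ≤ g ∧ g < n * a ∧ ((b, g, true) : UE) ∈ MM ω (RF 0 b 0 (n * a)) (eL y)}

theorem depOn_XS (n a b y : ℤ) : DepOn (RF 0 b 0 (n * a) : Set (ℤ × ℤ)) (XS n a b y) := by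
  intro ω ω' h
  unfold XS
  simp only [Set.mem_ofPred_eq, MM_congr' h]

theorem xs_of_lr (hb : 0 < b) (hbn : b < n * a) (hy : 0 ≤ y) (hy' : y < n * a)
    (h : Lr n a ω (eL y)) : ω ∈ XS n a b y := by
  obtain ⟨y', hy1⟩ := h
  have hIn : ∀ x, x ∈ MM ω (RF 0 b 0 (n * a)) (eL y) →
      InR 0 b 0 (n * a) (ua x) ∧ InR 0 b 0 (n * a) (ub x) := by
    intro x hx
    induction hx with
    | refl =>
      unfold InR eL
      rw [ua_mk, ub_true]
      simp only
      omega
    | tail _ hs _ =>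
      obtain ⟨f, hf, hm⟩ := hs
      rw [mem_coe, Perc.mem_RF] at hf
      obtain ⟨x, v⟩ := f
      unfold InR
      rcases hm.right with rfl | rfl | rfl | rfl
      · simp only [bo, ua_mk, ub_false] at hf ⊢; omega
      · simp only [le', ua_mk, ub_true] at hf ⊢; omega
      · simp only [to', ua_mk, ub_false] at hf ⊢; omega
      · simp only [ri, ua_mk, ub_true] at hf ⊢; omega
  rcases first_exit' (F := (RF 0 b 0 (n * a) : Set (ℤ × ℤ))) hy1 with h2 | ⟨t, ht, f, hf, hf', hsd⟩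
  · exfalso
    have h3 := (hIn _ h2).1
    unfold InR at h3
    rw [ua_mk] at h3
    simp only at h3
    omega
  · have h3 := hIn _ ht
    rw [mem_coe, mem_Wn] at hf
    rw [mem_coe, Perc.mem_RF] at hf'
    obtain ⟨x, v⟩ := f
    unfold InR at h3
    rcases hsd with rfl | rfl | rfl | rfl
    · simp only [bo, ua_mk, ub_false] at h3 hf hf'; omega
    · simp only [le', ua_mk, ub_true] at h3 hf hf'
      have hx : x = b := by omega
      subst hx
      exact ⟨v, by omega, by omega, ht⟩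
    · simp only [to', ua_mk, ub_false] at h3 hf hf'; omega
    · simp only [ri, ua_mk, ub_true] at h3 hf hf'; omega

theorem sum_XS : ∃ C : ℝ, 0 < C ∧ ∀ n a b : ℤ, 0 < b → 0 < n * a → n * a ≤ 16 * b →
    ∑ y ∈ Ico 0 (n * a), pr (RF 0 b 0 (n * a)) (XS n a b y) ≤ C := by
  obtain ⟨q, hq, hq1, H⟩ := pr_LT_le 16
  refine ⟨2 / (1 - q), div_pos (by norm_num) (by linarith), fun n a b hb hna hle => ?_⟩
  refine sum_card_le hq hq1 (RF 0 b 0 (n * a)) (Ico 0 (n * a)) (fun y => XS n a b y)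
    (fun ω => LT ω 0 b 0 (n * a)) ?_ ?_
  · intro ω y
    rw [mem_LT, mem_Ico]
    exact Iff.rfl
  · intro k
    refine H 0 b 0 (n * a) _ hb hna ?_ (Finset.Subset.refl _) k
    push_cast
    omega

/-! ### The annuli -/

/-- Two strands and a corridor across the annulus, if it is not empty. -/
def XA (z : ℤ × ℤ) (d w D : ℤ) (M : ℕ) : Set Cfg :=
  {ω | d < w → shiftC z.1 z.2 ω ∈ Av w w d D M}

/-- The faces of the annulus. -/
noncomputable def AZ (z : ℤ × ℤ) (d w : ℤ) : Finset (ℤ × ℤ) := BR z w \ BR z d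

theorem mem_AZ {f : ℤ × ℤ} : f ∈ AZ z d w ↔
    (z.1 - w ≤ f.1 ∧ f.1 < z.1 + w ∧ z.2 - w ≤ f.2 ∧ f.2 < z.2 + w) ∧
      ¬ (z.1 - d ≤ f.1 ∧ f.1 < z.1 + d ∧ z.2 - d ≤ f.2 ∧ f.2 < z.2 + d) := by
  unfold AZ
  rw [Finset.mem_sdiff, mem_BR, mem_BR]

theorem shift_mem_AZ {f : ℤ × ℤ} (hf : f ∈ AnF w w d) : (f.1 + z.1, f.2 + z.2) ∈ AZ z d w := by
  rw [mem_AnF] at hf
  rw [mem_AZ]
  simp only
  omega

theorem depOn_XA (z : ℤ × ℤ) (d w D : ℤ) (M : ℕ) :
    DepOn (AZ z d w : Set (ℤ × ℤ)) (XA z d w D M) := by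
  intro ω ω' h
  have h1 := depOn_Av w w d D M (shiftC z.1 z.2 ω) (shiftC z.1 z.2 ω') fun f hf => by
    unfold shiftC
    exact h _ (mem_coe.2 (shift_mem_AZ (mem_coe.1 hf)))
  unfold XA
  simp only [Set.mem_ofPred_eq, h1]

theorem pr_XA (hTT : TTBound) : ∃ C : ℝ, 1 ≤ C ∧ ∀ (z : ℤ × ℤ) (d w : ℤ) (M : ℕ)
    (S : Finset (ℤ × ℤ)) (x : ℝ), 0 < x → 4 * ((M : ℤ) + 6) ≤ d → AZ z d w ⊆ S →
      (d < w → (d : ℝ) ≤ x * w) → (w ≤ d → 1 ≤ x) →
      pr S (XA z d w (8 * (M + 6)) M) ≤ C * x ^ (2 / 3 : ℝ) := by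
  obtain ⟨C, hC, H⟩ := av_sharp hTT
  refine ⟨max C 1, le_max_right _ _, fun z d w M S x hx hM hS h1 h2 => ?_⟩
  have hC1 : (1 : ℝ) ≤ max C 1 := le_max_right _ _
  rcases lt_or_ge d w with hdw | hdw
  · have e1 : XA z d w (8 * (M + 6)) M = {ω | shiftC z.1 z.2 ω ∈ Av w w d (8 * (M + 6)) M} := by
      ext ω
      unfold XA
      simp only [Set.mem_ofPred_eq, hdw, true_imp_iff]
    have e2 := TwoArm.pr_shift (S' := S) (depOn_Av w w d (8 * (M + 6)) M) z.1 z.2
      fun f hf => hS (shift_mem_AZ hf)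
    have e3 := pr_eq_of_depOn (depOn_Av w w d (8 * (M + 6)) M) (AnF_sub_RF (L := w) (w := w) (d := d))
    rw [e1, e2, ← e3]
    refine (H w d M hM hdw.le).trans ?_
    have hw0 : (0 : ℝ) < w := by
      have : 0 < w := by omega
      exact_mod_cast this
    have hd0 : (0 : ℝ) ≤ d := by
      have : 0 ≤ d := by omega
      exact_mod_cast this
    refine mul_le_mul (le_max_left _ _) (Real.rpow_le_rpow (by positivity) ?_ (by norm_num))
      (by positivity) (by positivity)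
    rw [div_le_iff₀ hw0]
    exact h1 hdw
  · refine (pr_le_one _ _).trans ?_
    have h3 : 1 ≤ x ^ (2 / 3 : ℝ) := Real.one_le_rpow (h2 hdw) (by norm_num)
    nlinarith

/-! ### The product -/

theorem pr_four {W S0 S1 S2 S3 : Finset (ℤ × ℤ)} {A0 A1 A2 A3 : Set Cfg} (h0 : DepOn S0 A0)
    (h1 : DepOn S1 A1) (h2 : DepOn S2 A2) (h3 : DepOn S3 A3) (w0 : S0 ⊆ W) (w1 : S1 ⊆ W)
    (w2 : S2 ⊆ W) (w3 : S3 ⊆ W) (d01 : Disjoint S0 S1) (d02 : Disjoint S0 S2)
    (d03 : Disjoint S0 S3) (d12 : Disjoint S1 S2) (d13 : Disjoint S1 S3) (d23 : Disjoint S2 S3) :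
    pr W (A0 ∩ (A1 ∩ (A2 ∩ A3))) = pr S0 A0 * (pr S1 A1 * (pr S2 A2 * pr S3 A3)) := by
  have g2 : DepOn (S2 ∪ S3 : Finset (ℤ × ℤ)) (A2 ∩ A3) := by
    intro ω ω' h
    exact and_congr (h2 ω ω' fun f hf => h f (mem_coe.2 (mem_union_left _ (mem_coe.1 hf))))
      (h3 ω ω' fun f hf => h f (mem_coe.2 (mem_union_right _ (mem_coe.1 hf))))
  have g1 : DepOn (S1 ∪ (S2 ∪ S3) : Finset (ℤ × ℤ)) (A1 ∩ (A2 ∩ A3)) := by
    intro ω ω' h
    exact and_congr (h1 ω ω' fun f hf => h f (mem_coe.2 (mem_union_left _ (mem_coe.1 hf))))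
      (g2 ω ω' fun f hf => h f (mem_coe.2 (mem_union_right _ (mem_coe.1 hf))))
  rw [pr_indep h0 g1 (disjoint_union_right.2 ⟨d01, disjoint_union_right.2 ⟨d02, d03⟩⟩) w0
      (union_subset w1 (union_subset w2 w3)),
    pr_indep h1 g2 (disjoint_union_right.2 ⟨d12, d13⟩) subset_union_left subset_union_right,
    pr_indep h2 h3 d23 subset_union_left subset_union_right]

theorem real_prod {x n : ℝ} (hx : 0 < x) (hn : 0 < n) :
    (8 / x) ^ (2 / 3 : ℝ) * ((8 / x) ^ (2 / 3 : ℝ) * (32 * x / n) ^ (2 / 3 : ℝ)) =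
      2048 ^ (2 / 3 : ℝ) * n ^ (-(2 / 3) : ℝ) * x ^ (-(2 / 3) : ℝ) := by
  rw [← Real.mul_rpow (by positivity) (by positivity),
    ← Real.mul_rpow (by positivity) (by positivity)]
  have e : 8 / x * (8 / x * (32 * x / n)) = 2048 * (n⁻¹ * x⁻¹) := by
    field_simp
    norm_num
  rw [e, Real.mul_rpow (by norm_num) (by positivity), Real.mul_rpow (by positivity) (by positivity),
    Real.inv_rpow hn.le, Real.inv_rpow hx.le, Real.rpow_neg hn.le, Real.rpow_neg hx.le, mul_assoc]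

theorem mid_pos (ha : 0 < a) (hc : Mid n c) : 3 * (n * a) ≤ 8 * (c.1 * a) ∧
    8 * (c.1 * a) < 5 * (n * a) ∧ 3 * (n * a) ≤ 8 * (c.2 * a) ∧ 8 * (c.2 * a) < 5 * (n * a) := by
  obtain ⟨m1, m2, m3, m4⟩ := hc
  have h1 := mul_le_mul_of_nonneg_right m1 ha.le
  have h2 := mul_lt_mul_of_pos_right m2 ha
  have h3 := mul_le_mul_of_nonneg_right m3 ha.le
  have h4 := mul_lt_mul_of_pos_right m4 ha
  refine ⟨?_, ?_, ?_, ?_⟩ <;> linarith

/-- **The two point estimate from above.** -/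
theorem twoUp (hTT : TTBound) : TwoUp := by
  obtain ⟨C, hC, H⟩ := pr_XA hTT
  obtain ⟨C', hC', H'⟩ := sum_XS
  refine ⟨C' * (C ^ 3 * 2048 ^ (2 / 3 : ℝ)), by positivity, 1, fun n hn k => ?_⟩
  rcases Nat.eq_zero_or_pos k with rfl | hk
  · filter_upwards [eventually_ge_atTop 1] with a ha ρ h
    exfalso
    push_cast at h
    omega
  set M : ℕ := 2 * (2 * k * n) ^ 2 with hM
  set D : ℤ := 8 * ((M : ℤ) + 6) with hD
  filter_upwards [eventually_ge_atTop (4 * k * (8 * (M + 6)))] with a ha ρ hρ c c' hc hc'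
  have hD0 : 48 ≤ D := by omega
  have hk1 : (1 : ℤ) ≤ k := by exact_mod_cast hk
  have haD : 4 * k * D ≤ a := by
    have : ((4 * k * (8 * (M + 6)) : ℕ) : ℤ) ≤ a := by exact_mod_cast ha
    rw [hD]
    push_cast at this
    linarith
  have hn1 : (1 : ℤ) ≤ n := by exact_mod_cast hn
  set q : ℤ := a / (4 * k) with hq
  have hqD : D ≤ q := by
    rw [hq, Int.le_ediv_iff_mul_le (by omega)]
    linarith
  have hq1 : 4 * k * q ≤ a := Int.mul_ediv_self_le (by omega)
  have hq2 : (a : ℤ) < 4 * k * (q + 1) := by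
    have := Int.lt_mul_ediv_self_add (x := (a : ℤ)) (show 0 < 4 * (k : ℤ) by omega)
    linarith
  have hq0 : 0 < q := by omega
  have hkq : q ≤ k * q := by nlinarith
  have hqa : 4 * q ≤ a := by linarith
  have haq : (a : ℤ) < 8 * k * q := by nlinarith
  have ha48 : (48 : ℤ) ≤ a := by omega
  have hρ' : D + 2 * q ≤ ρ := by
    have h1 : 4 * (k : ℤ) * q ≤ k * ρ := hq1.trans hρ
    have h2 : (4 * q) * (k : ℤ) ≤ ρ * k := by linarith
    have h3 : 4 * q ≤ ρ := le_of_mul_le_mul_right h2 (by omega)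
    omega
  have hna : 48 ≤ (n : ℤ) * a := by nlinarith
  set K : ℕ := 2 * k * n with hK
  have hKw : ∀ w : ℤ, 8 * w ≤ n * a → 2 * w < K * q := by
    intro w hw
    have h1 : (n : ℤ) * a < n * (8 * k * q) := mul_lt_mul_of_pos_left haq (by omega)
    have h2 : ((K : ℤ)) * q = 2 * k * n * q := by rw [hK]; push_cast; ring
    rw [h2]
    nlinarith
  -- the distance of the cells
  set r : ℤ := max |c.1 - c'.1| |c.2 - c'.2| with hr
  set r' : ℤ := max 1 r with hr'
  have hr0 : 0 ≤ r := le_max_of_le_left (abs_nonneg _)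
  have hr1 : 1 ≤ r' := le_max_left _ _
  have hrr : r ≤ r' := le_max_right _ _
  have h4r : 4 * r ≤ n := by
    obtain ⟨m1, m2, m3, m4⟩ := hc
    obtain ⟨m1', m2', m3', m4'⟩ := hc'
    have h1 : |c.1 - c'.1| ≤ r := le_max_left _ _
    rcases max_cases |c.1 - c'.1| |c.2 - c'.2| with ⟨h, -⟩ | ⟨h, -⟩
    · rw [hr, h]
      rcases abs_cases (c.1 - c'.1) with ⟨h, -⟩ | ⟨h, -⟩ <;> rw [h] <;> omega
    · rw [hr, h]
      rcases abs_cases (c.2 - c'.2) with ⟨h, -⟩ | ⟨h, -⟩ <;> rw [h] <;> omega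
  set z : ℤ × ℤ := (c.1 * a, c.2 * a) with hz
  set z' : ℤ × ℤ := (c'.1 * a, c'.2 * a) with hz'
  set w₁ : ℤ := r * a / 2 with hw₁
  set w₂ : ℤ := n * a / 8 with hw₂
  set d₂ : ℤ := 2 * (r' * a) with hd₂
  set b : ℤ := n * a / 8 with hb
  have hw1a : 2 * w₁ ≤ r * a := by omega
  have hw1b : r * a ≤ 2 * w₁ + 1 := by omega
  have hw2a : 8 * w₂ ≤ n * a := by omega
  have hw2b : n * a ≤ 8 * w₂ + 7 := by omega
  have hra0 : 0 ≤ r * a := by positivity
  have hr'a : (a : ℤ) ≤ r' * a := by nlinarith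
  have hrr'a : r * a ≤ r' * a := mul_le_mul_of_nonneg_right hrr (by omega)
  have h4ra : 4 * (r * a) ≤ n * a := by nlinarith
  have h8w1 : 8 * w₁ ≤ n * a := by omega
  -- positions
  have hpz := mid_pos (show 0 < (a : ℤ) by omega) hc
  have hpz' := mid_pos (show 0 < (a : ℤ) by omega) hc'
  -- the distance of the centres
  have hzz : |z.1 - z'.1| ≤ r * a ∧ |z.2 - z'.2| ≤ r * a := by
    have e1 : z.1 - z'.1 = (c.1 - c'.1) * a := by rw [hz, hz']; ring
    have e2 : z.2 - z'.2 = (c.2 - c'.2) * a := by rw [hz, hz']; ring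
    have e3 : |(a : ℤ)| = a := abs_of_nonneg (by omega)
    rw [e1, e2, abs_mul, abs_mul, e3]
    exact ⟨mul_le_mul_of_nonneg_right (le_max_left _ _) (by omega),
      mul_le_mul_of_nonneg_right (le_max_right _ _) (by omega)⟩
  have hzz' : |z.1 - z'.1| = r * a ∨ |z.2 - z'.2| = r * a := by
    have e1 : z.1 - z'.1 = (c.1 - c'.1) * a := by rw [hz, hz']; ring
    have e2 : z.2 - z'.2 = (c.2 - c'.2) * a := by rw [hz, hz']; ring
    have e3 : |(a : ℤ)| = a := abs_of_nonneg (by omega)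
    rw [e1, e2, abs_mul, abs_mul, e3]
    rcases max_cases |c.1 - c'.1| |c.2 - c'.2| with ⟨h, -⟩ | ⟨h, -⟩
    · left; rw [hr, h]
    · right; rw [hr, h]
  have hz1 : z.1 = c.1 * a := rfl
  have hz2 : z.2 = c.2 * a := rfl
  have hz1' : z'.1 = c'.1 * a := rfl
  have hz2' : z'.2 = c'.2 * a := rfl
  rw [← hz1, ← hz2] at hpz
  rw [← hz1', ← hz2'] at hpz'
  -- the supports
  have w0 : RF 0 b 0 ((n : ℤ) * a) ⊆ Wn n a := by
    intro f hf
    rw [Perc.mem_RF] at hf
    rw [mem_Wn]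
    omega
  have w1 : AZ z (2 * a) w₁ ⊆ Wn n a := by
    intro f hf
    rw [mem_AZ] at hf
    rw [mem_Wn]
    omega
  have w2 : AZ z' (2 * a) w₁ ⊆ Wn n a := by
    intro f hf
    rw [mem_AZ] at hf
    rw [mem_Wn]
    omega
  have w3 : AZ z d₂ w₂ ⊆ Wn n a := by
    intro f hf
    rw [mem_AZ] at hf
    rw [mem_Wn]
    omega
  have d01 : Disjoint (RF 0 b 0 ((n : ℤ) * a)) (AZ z (2 * a) w₁) := by
    rw [Finset.disjoint_left]
    intro f hf hf'
    rw [Perc.mem_RF] at hf
    rw [mem_AZ] at hf'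
    omega
  have d02 : Disjoint (RF 0 b 0 ((n : ℤ) * a)) (AZ z' (2 * a) w₁) := by
    rw [Finset.disjoint_left]
    intro f hf hf'
    rw [Perc.mem_RF] at hf
    rw [mem_AZ] at hf'
    omega
  have d03 : Disjoint (RF 0 b 0 ((n : ℤ) * a)) (AZ z d₂ w₂) := by
    rw [Finset.disjoint_left]
    intro f hf hf'
    rw [Perc.mem_RF] at hf
    rw [mem_AZ] at hf'
    omega
  have d12 : Disjoint (AZ z (2 * a) w₁) (AZ z' (2 * a) w₁) := by
    rw [Finset.disjoint_left]
    intro f hf hf'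
    rw [mem_AZ] at hf hf'
    obtain ⟨hf, -⟩ := hf
    obtain ⟨hf', -⟩ := hf'
    rcases hzz' with h | h
    · rcases abs_cases (z.1 - z'.1) with ⟨h', -⟩ | ⟨h', -⟩ <;> rw [h'] at h <;> omega
    · rcases abs_cases (z.2 - z'.2) with ⟨h', -⟩ | ⟨h', -⟩ <;> rw [h'] at h <;> omega
  have d13 : Disjoint (AZ z (2 * a) w₁) (AZ z d₂ w₂) := by
    rw [Finset.disjoint_left]
    intro f hf hf'
    rw [mem_AZ] at hf hf'
    omega
  have d23 : Disjoint (AZ z' (2 * a) w₁) (AZ z d₂ w₂) := by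
    rw [Finset.disjoint_left]
    intro f hf hf'
    rw [mem_AZ] at hf hf'
    rw [abs_le, abs_le] at hzz
    omega
  -- the inclusion of the events
  have hincl : ∀ y ∈ Ico (0 : ℤ) (n * a),
      {ω | Lr n a ω (eL y) ∧ OccC n a ρ ω (eL y) c ∧ OccC n a ρ ω (eL y) c'} ⊆
      XS n a b y ∩ (XA z (2 * a) w₁ D M ∩ (XA z' (2 * a) w₁ D M ∩ XA z d₂ w₂ D M)) := by
    rintro y hy ω ⟨h1, h2, h3⟩
    rw [mem_Ico] at hy
    have key : ∀ (c : ℤ × ℤ) (d w : ℤ), Mid n c → OccC n a ρ ω (eL y) c → 2 * a ≤ d →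
        8 * w ≤ n * a → ω ∈ XA (c.1 * a, c.2 * a) d w D M := by
      intro c d w hc h hd hw hdw
      exact Ev_sub_Av (by omega) hdw hdw
        (ev_of_occ hq0 hqa (by omega) (by omega) hc h hd hdw hw (hKw w hw) hρ')
    exact ⟨xs_of_lr (by omega) (by omega) hy.1 hy.2 h1, key c _ _ hc h2 le_rfl h8w1,
      key c' _ _ hc' h3 le_rfl h8w1, key c _ _ hc h2 (by omega) hw2a⟩
  -- the bounds
  have hMd : 4 * ((M : ℤ) + 6) ≤ 2 * a := by omega
  have hr'0 : (0 : ℝ) < r' := by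
    have : 0 < r' := by omega
    exact_mod_cast this
  have hn0 : (0 : ℝ) < n := by exact_mod_cast hn
  have har : (0 : ℝ) < a := by
    have : (0 : ℤ) < a := by omega
    exact_mod_cast this
  have x1 : 2 * (a : ℤ) < w₁ → ((2 * a : ℤ) : ℝ) ≤ 8 / r' * w₁ := by
    intro h
    have h1 : r' = r := by
      rw [hr']
      refine max_eq_right ?_
      by_contra hcon
      have h0 : r = 0 := by omega
      rw [h0] at hw1a
      omega
    rw [div_mul_eq_mul_div, le_div_iff₀ hr'0, h1]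
    have h2 : 2 * (a : ℤ) * r ≤ 8 * w₁ := by
      have : 2 * (a : ℤ) * r = 2 * (r * a) := by ring
      rw [this]
      omega
    exact_mod_cast h2
  have x1' : w₁ ≤ 2 * (a : ℤ) → (1 : ℝ) ≤ 8 / r' := by
    intro h
    rw [one_le_div hr'0]
    have h1 : r' ≤ 8 := by
      rw [hr']
      refine max_le (by norm_num) ?_
      have h2 : r * (a : ℤ) < 5 * a := by omega
      have h3 : r < 5 := lt_of_mul_lt_mul_right h2 (by omega)
      omega
    exact_mod_cast h1
  have x3 : d₂ < w₂ → ((d₂ : ℤ) : ℝ) ≤ 32 * r' / n * w₂ := by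
    intro h
    rw [div_mul_eq_mul_div, le_div_iff₀ hn0]
    have h2 : (n : ℤ) * a ≤ 16 * w₂ := by omega
    have h3 : (n : ℝ) * a ≤ 16 * w₂ := by exact_mod_cast h2
    have h4 : (d₂ : ℝ) = 2 * (r' * a) := by rw [hd₂]; push_cast; ring
    rw [h4]
    nlinarith
  have x3' : w₂ ≤ d₂ → (1 : ℝ) ≤ 32 * r' / n := by
    intro h
    rw [one_le_div hn0]
    have h1 : (n : ℤ) * a < (16 * r' + 1) * a := by
      have : (16 * r' + 1) * (a : ℤ) = 16 * (r' * a) + a := by ring
      rw [this]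
      omega
    have h2 : (n : ℤ) < 16 * r' + 1 := lt_of_mul_lt_mul_right h1 (by omega)
    have h3 : (n : ℤ) ≤ 32 * r' := by omega
    exact_mod_cast h3
  have b1 := H z (2 * a) w₁ M (AZ z (2 * a) w₁) (8 / r') (by positivity) hMd (Subset.refl _) x1 x1'
  have b2 := H z' (2 * a) w₁ M (AZ z' (2 * a) w₁) (8 / r') (by positivity) hMd (Subset.refl _) x1
    x1'
  have b3 := H z d₂ w₂ M (AZ z d₂ w₂) (32 * r' / n) (by positivity) (by omega) (Subset.refl _) x3
    x3'
  have hS := H' n a b (by omega) (by omega) (by omega)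
  have hdC : dC c c' = r' := by
    unfold dC
    rw [hr', hr]
    push_cast
    rfl
  unfold EL
  rw [hdC]
  set Y : ℝ := pr (AZ z (2 * a) w₁) (XA z (2 * a) w₁ D M) *
    (pr (AZ z' (2 * a) w₁) (XA z' (2 * a) w₁ D M) * pr (AZ z d₂ w₂) (XA z d₂ w₂ D M)) with hY
  have hY0 : 0 ≤ Y := mul_nonneg (pr_nonneg _ _) (mul_nonneg (pr_nonneg _ _) (pr_nonneg _ _))
  have hYle : Y ≤ C ^ 3 * (2048 ^ (2 / 3 : ℝ) * (n : ℝ) ^ (-(2 / 3) : ℝ) *
      (r' : ℝ) ^ (-(2 / 3) : ℝ)) := by
    rw [← real_prod hr'0 hn0]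
    calc Y ≤ (C * (8 / r') ^ (2 / 3 : ℝ)) * ((C * (8 / r') ^ (2 / 3 : ℝ)) *
          (C * (32 * r' / n) ^ (2 / 3 : ℝ))) := by
          refine mul_le_mul b1 (mul_le_mul b2 b3 (pr_nonneg _ _) (by positivity))
            (mul_nonneg (pr_nonneg _ _) (pr_nonneg _ _)) (by positivity)
      _ = _ := by ring
  calc ∑ y ∈ Ico (0 : ℤ) (n * a), pr (Wn n a)
        {ω | Lr n a ω (eL y) ∧ OccC n a ρ ω (eL y) c ∧ OccC n a ρ ω (eL y) c'}
      ≤ ∑ y ∈ Ico (0 : ℤ) (n * a), pr (RF 0 b 0 (n * a)) (XS n a b y) * Y := by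
        refine sum_le_sum fun y hy => (pr_mono _ (hincl y hy)).trans (le_of_eq ?_)
        exact pr_four (depOn_XS n a b y) (depOn_XA _ _ _ _ _) (depOn_XA _ _ _ _ _)
          (depOn_XA _ _ _ _ _) w0 w1 w2 w3 d01 d02 d03 d12 d13 d23
    _ = (∑ y ∈ Ico (0 : ℤ) (n * a), pr (RF 0 b 0 (n * a)) (XS n a b y)) * Y := by rw [sum_mul]
    _ ≤ C' * (C ^ 3 * (2048 ^ (2 / 3 : ℝ) * (n : ℝ) ^ (-(2 / 3) : ℝ) *
        (r' : ℝ) ^ (-(2 / 3) : ℝ))) := mul_le_mul hS hYle hY0 hC'.le
    _ = C' * (C ^ 3 * 2048 ^ (2 / 3 : ℝ)) * (n : ℝ) ^ (-(2 / 3) : ℝ) *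
        (r' : ℝ) ^ (-(2 / 3) : ℝ) := by ring

end Pool.Agent.Occ

end PartoccTwoUp

section Partperc3T3Tip

/-!
# T3, row Tip: from the legs of the core to the strands of the annulus, boundary edges
-/

set_option autoImplicit false

namespace Pool.Agent.Perc3

open Finset Pool.Agent.Perc Pool.Agent.Perc.Q

variable {d w W n t : ℤ} {ω : Cfg} {i : Fin 3}

namespace TipAux

open Relation

/-- The elements of the strand which enters at the tip of a leg are elements of the leg, with the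
other direction. -/
theorem orb_swap {F F' : Set (ℤ × ℤ)} (hF : F ⊆ F') {e b a : (ℤ × ℤ) × (ℤ × ℤ)} (he : Ini TQ F' e)
    (hb : b.swap ∈ Orb TQ ω F' e) (ha : a ∈ Orb TQ ω F b) : a.swap ∈ Orb TQ ω F' e := by
  induction ha with
  | refl => exact hb
  | @tail x y _ hs ih =>
    have h1 : Nx TQ ω F' y.swap x.swap := by
      obtain ⟨f, hf, h⟩ := hs.rev
      exact ⟨f, hF hf, h⟩
    rcases Orb_pred ih with h2 | ⟨c, hc, h2⟩
    · exfalso
      obtain ⟨f, hf, k, -, ⟨-, h3⟩ | ⟨-, h3⟩⟩ := h1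
      · refine he f hf (k + 1) ?_
        rw [z1, ← h2]
        exact h3
      · refine he f hf (k + 3) ?_
        rw [z5, ← h2]
        exact h3
    · rw [h1.inj h2]
      exact hc

/-- A boundary edge and the side of the face inside. -/
theorem ine_in {r : ℤ} (hr : 0 < r) (h0 : 0 ≤ t) (h1 : t < 8 * r + 3) :
    ∃ (f : ℤ × ℤ) (k : ZMod 4), ine r t = (TQ.c f k, TQ.c f (k + 1)) ∧ sd f k = bdU r t ∧
      ((sd f k).2.2 = true ∨ (sd f k).2.1 ≠ 0) ∧ ∀ m : ℤ, sd (f.1 + m, f.2) k = shE m (sd f k) := by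
  have hm : ∀ (f : ℤ × ℤ) (k : ZMod 4) (m : ℤ), sd (f.1 + m, f.2) k = shE m (sd f k) := by
    intro f k m
    unfold sd shE bo ri to' le'
    split_ifs <;> simp only [Prod.mk.injEq, and_true] <;> ring
  unfold ine
  by_cases a1 : t < r
  · rw [BdAux.bd_R (by omega), BdAux.bd_R (by omega)]
    refine ⟨(r - 1, t), 1, ?_, ?_, ?_, hm _ _⟩
    · rw [BdAux.zk1, BdAux.c_1, BdAux.c_2, BdAux.gl_of_ne (by omega), BdAux.gl_of_ne (by omega),
        sub_add_cancel]
    · unfold bdU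
      rw [if_pos a1]
      change ri (r - 1, t) = _
      unfold ri
      rw [sub_add_cancel]
    · exact Or.inl rfl
  by_cases a2 : t < 3 * r + 2
  · rw [BdAux.bd_T (by omega) (by omega), BdAux.bd_T (by omega) (by omega)]
    refine ⟨(2 * r - t - 1, r - 1), 2, ?_, ?_, ?_, hm _ _⟩
    · rw [BdAux.zk2, BdAux.c_2, BdAux.c_3, BdAux.gl_of_ne (by omega), BdAux.gl_of_ne (by omega),
        sub_add_cancel, sub_add_cancel, sub_add_eq_sub_sub]
    · unfold bdU
      rw [if_neg a1, if_pos a2]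
      change to' (2 * r - t - 1, r - 1) = _
      unfold to'
      rw [sub_add_cancel]
    · refine Or.inr ?_
      change r - 1 + 1 ≠ 0
      omega
  by_cases a3 : t < 4 * r + 2
  · rw [BdAux.bd_L hr.le (by omega) (by omega), BdAux.bd_L hr.le (by omega) (by omega)]
    refine ⟨(-(r + 2), 4 * r + 1 - t), 3, ?_, ?_, ?_, hm _ _⟩
    · rw [BdAux.zk3, BdAux.c_3, BdAux.c_0, BdAux.gl_of_ne (by omega), BdAux.gl_of_ne (by omega),
        Prod.ext_iff, Prod.ext_iff, Prod.ext_iff]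
      dsimp only
      omega
    · unfold bdU
      rw [if_neg a1, if_neg a2, if_pos a3]
      rfl
    · exact Or.inl rfl
  by_cases a4 : t < 5 * r + 2
  · have hq : bd r (t + 1) = (-(r + 1), 4 * r + 1 - t) := by
      rw [BdAux.bd_Ll hr.le (by omega) (by omega), Prod.mk.injEq]; omega
    have hp : bd r t = BdAux.gl (-1) (-(r + 1)) (4 * r + 2 - t) := by
      by_cases h : t = 4 * r + 2
      · rw [BdAux.gl_of (by omega) (by omega) (by omega), BdAux.bd_L hr.le (by omega) (by omega),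
          Prod.mk.injEq]
        omega
      · rw [BdAux.gl_of_ne (by omega), BdAux.bd_Ll hr.le (by omega) (by omega)]
    have hgl : ∀ y, y < 0 → BdAux.gl y (-(r + 1)) (4 * r + 2 - t) =
        BdAux.gl (-1) (-(r + 1)) (4 * r + 2 - t) := by
      intro y hy
      unfold BdAux.gl
      simp only [hy, show (-1 : ℤ) < 0 by norm_num]
    have e2 : BdAux.gl (4 * r + 1 - t) (-(r + 1)) (4 * r + 1 - t) = (-(r + 1), 4 * r + 1 - t) :=
      BdAux.gl_of_ne (by omega)
    rw [hp, hq]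
    refine ⟨(-(r + 1), 4 * r + 1 - t), 3, ?_, ?_, ?_, hm _ _⟩
    · rw [BdAux.zk3, BdAux.c_3, BdAux.c_0]
      dsimp only
      rw [show 4 * r + 1 - t + 1 = 4 * r + 2 - t by ring, hgl (4 * r + 1 - t) (by omega), e2]
    · unfold bdU
      rw [if_neg a1, if_neg a2, if_neg a3, if_pos a4]
      rfl
    · exact Or.inl rfl
  by_cases a5 : t < 7 * r + 3
  · rw [BdAux.bd_B hr (by omega) (by omega), BdAux.bd_B hr (by omega) (by omega)]
    refine ⟨(t - 6 * r - 3, -r), 0, ?_, ?_, ?_, hm _ _⟩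
    · rw [BdAux.zk0, BdAux.c_0, BdAux.c_1, BdAux.gl_of_ne (by omega), BdAux.gl_of_ne (by omega),
        Prod.ext_iff, Prod.ext_iff, Prod.ext_iff]
      dsimp only
      omega
    · unfold bdU
      rw [if_neg a1, if_neg a2, if_neg a3, if_neg a4, if_pos a5]
      rfl
    · refine Or.inr ?_
      change -r ≠ 0
      omega
  · rw [BdAux.bd_Rl (by omega) (by omega), BdAux.bd_Rl (by omega) (by omega)]
    refine ⟨(r - 1, t - 8 * r - 3), 1, ?_, ?_, ?_, hm _ _⟩
    · rw [BdAux.zk1, BdAux.c_1, BdAux.c_2, BdAux.gl_of_ne (by omega), BdAux.gl_of_ne (by omega),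
        Prod.ext_iff, Prod.ext_iff, Prod.ext_iff]
      dsimp only
      omega
    · unfold bdU
      rw [if_neg a1, if_neg a2, if_neg a3, if_neg a4, if_neg a5]
      change ri (r - 1, t - 8 * r - 3) = _
      unfold ri
      rw [sub_add_cancel]
    · exact Or.inl rfl

/-- A boundary edge and the side of the face outside. -/
theorem ine_out {r : ℤ} (hr : 0 < r) (h0 : 0 ≤ t) (h1 : t < 8 * r + 3) :
    ∃ (f : ℤ × ℤ) (k : ZMod 4), (ine r t).swap = (TQ.c f k, TQ.c f (k + 1)) ∧ sd f k = bdU r t ∧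
      ((sd f k).2.2 = true ∨ (sd f k).2.1 ≠ 0) ∧ ∀ m : ℤ, sd (f.1 + m, f.2) k = shE m (sd f k) := by
  have hm : ∀ (f : ℤ × ℤ) (k : ZMod 4) (m : ℤ), sd (f.1 + m, f.2) k = shE m (sd f k) := by
    intro f k m
    unfold sd shE bo ri to' le'
    split_ifs <;> simp only [Prod.mk.injEq, and_true] <;> ring
  unfold ine
  rw [Prod.swap_prod_mk]
  by_cases a1 : t < r
  · rw [BdAux.bd_R (by omega), BdAux.bd_R (by omega)]
    refine ⟨(r, t), 3, ?_, ?_, ?_, hm _ _⟩
    · rw [BdAux.zk3, BdAux.c_3, BdAux.c_0, BdAux.gl_of_ne (by omega), BdAux.gl_of_ne (by omega)]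
    · unfold bdU
      rw [if_pos a1]
      rfl
    · exact Or.inl rfl
  by_cases a2 : t < 3 * r + 2
  · rw [BdAux.bd_T (by omega) (by omega), BdAux.bd_T (by omega) (by omega)]
    refine ⟨(2 * r - t - 1, r), 0, ?_, ?_, ?_, hm _ _⟩
    · rw [BdAux.zk0, BdAux.c_0, BdAux.c_1, BdAux.gl_of_ne (by omega), BdAux.gl_of_ne (by omega),
        sub_add_cancel, sub_add_eq_sub_sub]
    · unfold bdU
      rw [if_neg a1, if_pos a2]
      rfl
    · refine Or.inr ?_
      change r ≠ 0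
      omega
  by_cases a3 : t < 4 * r + 2
  · rw [BdAux.bd_L hr.le (by omega) (by omega), BdAux.bd_L hr.le (by omega) (by omega)]
    refine ⟨(-(r + 3), 4 * r + 1 - t), 1, ?_, ?_, ?_, hm _ _⟩
    · rw [BdAux.zk1, BdAux.c_1, BdAux.c_2, BdAux.gl_of_ne (by omega), BdAux.gl_of_ne (by omega),
        Prod.ext_iff, Prod.ext_iff, Prod.ext_iff]
      dsimp only
      omega
    · unfold bdU
      rw [if_neg a1, if_neg a2, if_pos a3]
      change ri (-(r + 3), 4 * r + 1 - t) = _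
      unfold ri
      rw [show -(r + 3) + 1 = -(r + 2) by ring]
    · exact Or.inl rfl
  by_cases a4 : t < 5 * r + 2
  · have hq : bd r (t + 1) = (-(r + 1), 4 * r + 1 - t) := by
      rw [BdAux.bd_Ll hr.le (by omega) (by omega), Prod.mk.injEq]; omega
    have hp : bd r t = BdAux.gl (-1) (-(r + 1)) (4 * r + 2 - t) := by
      by_cases h : t = 4 * r + 2
      · rw [BdAux.gl_of (by omega) (by omega) (by omega), BdAux.bd_L hr.le (by omega) (by omega),
          Prod.mk.injEq]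
        omega
      · rw [BdAux.gl_of_ne (by omega), BdAux.bd_Ll hr.le (by omega) (by omega)]
    have hgl : ∀ y, y < 0 → BdAux.gl y (-(r + 1)) (4 * r + 2 - t) =
        BdAux.gl (-1) (-(r + 1)) (4 * r + 2 - t) := by
      intro y hy
      unfold BdAux.gl
      simp only [hy, show (-1 : ℤ) < 0 by norm_num]
    have e2 : BdAux.gl (4 * r + 1 - t) (-(r + 1)) (4 * r + 1 - t) = (-(r + 1), 4 * r + 1 - t) :=
      BdAux.gl_of_ne (by omega)
    rw [hp, hq]
    refine ⟨(-(r + 2), 4 * r + 1 - t), 1, ?_, ?_, ?_, hm _ _⟩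
    · rw [BdAux.zk1, BdAux.c_1, BdAux.c_2]
      dsimp only
      rw [show 4 * r + 1 - t + 1 = 4 * r + 2 - t by ring, show -(r + 2) + 1 = -(r + 1) by ring,
        hgl (4 * r + 1 - t) (by omega), e2]
    · unfold bdU
      rw [if_neg a1, if_neg a2, if_neg a3, if_pos a4]
      change ri (-(r + 2), 4 * r + 1 - t) = _
      unfold ri
      rw [show -(r + 2) + 1 = -(r + 1) by ring]
    · exact Or.inl rfl
  by_cases a5 : t < 7 * r + 3
  · rw [BdAux.bd_B hr (by omega) (by omega), BdAux.bd_B hr (by omega) (by omega)]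
    refine ⟨(t - 6 * r - 3, -r - 1), 2, ?_, ?_, ?_, hm _ _⟩
    · rw [BdAux.zk2, BdAux.c_2, BdAux.c_3, BdAux.gl_of_ne (by omega), BdAux.gl_of_ne (by omega),
        Prod.ext_iff, Prod.ext_iff, Prod.ext_iff]
      dsimp only
      omega
    · unfold bdU
      rw [if_neg a1, if_neg a2, if_neg a3, if_neg a4, if_pos a5]
      change to' (t - 6 * r - 3, -r - 1) = _
      unfold to'
      rw [sub_add_cancel]
    · refine Or.inr ?_
      change -r - 1 + 1 ≠ 0
      omega
  · rw [BdAux.bd_Rl (by omega) (by omega), BdAux.bd_Rl (by omega) (by omega)]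
    refine ⟨(r, t - 8 * r - 3), 3, ?_, ?_, ?_, hm _ _⟩
    · rw [BdAux.zk3, BdAux.c_3, BdAux.c_0, BdAux.gl_of_ne (by omega), BdAux.gl_of_ne (by omega),
        Prod.ext_iff, Prod.ext_iff, Prod.ext_iff]
      dsimp only
      omega
    · unfold bdU
      rw [if_neg a1, if_neg a2, if_neg a3, if_neg a4, if_neg a5]
      rfl
    · exact Or.inl rfl

/-- The lift of a side which is not on the cut. -/
theorem shS_eq {r : ℤ} {f : ℤ × ℤ} {k : ZMod 4} (h1 : sd f k = bdU r t)
    (h2 : (sd f k).2.2 = true ∨ (sd f k).2.1 ≠ 0)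
    (h3 : ∀ m : ℤ, sd (f.1 + m, f.2) k = shE m (sd f k)) (N : ℤ × ℤ → ℤ) :
    shS N f k = bdL r t (N f) := by
  have h4 := h3 (-N f)
  rw [← sub_eq_add_neg] at h4
  unfold shS lft shF bdL
  simp only
  rw [h4, ← h1, if_neg]
  rintro ⟨⟨h5, h6, -⟩, -⟩
  unfold shE at h5 h6
  simp only at h5 h6
  rcases h2 with h | h
  · rw [h] at h5
    exact Bool.noConfusion h5
  · exact h h6

end TipAux

open TipAux

/-- The strand which enters the box of radius `w` at the tip of a leg is a part of the leg; it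
reaches the inner box. -/
theorem vis_tip (hd : 0 < d) (hdw : d < w) (hwW : w ≤ W) (h0 : 0 ≤ t) (h1 : t < 8 * w + 3)
    (ht : (ine w t).swap ∈ Orb TQ ω (BW w) (leg i)) :
    Vis TQ ω (An d w) (ine w t) ⊆ VT W ω i ∩ An d w ∧ Rea d w ω t := by
  have hw : 0 < w := hd.trans hdw
  have hW : 0 < W := hw.trans_le hwW
  have hsub : An d w ⊆ (BW w : Set (ℤ × ℤ)) := fun f hf => hf.1
  have hiw := LegsAux.ini_leg (R := w) hw i
  constructor
  · rintro f ⟨hf, k, hk⟩
    refine ⟨?_, hf⟩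
    unfold VT
    rw [LegsAux.an_zero W]
    have h2 := orb_swap (ω := ω) hsub hiw ht hk
    have h3 : (TQ.c f k, TQ.c f (k + 1)).swap ∈ Orb TQ ω (BW W : Set (ℤ × ℤ)) (leg i) :=
      Orb_mono (BW_mono hwW) h2
    exact vis_of_un (LegsAux.ini_leg (R := W) hW i) (BW_mono hwW hf.1) (Or.inr h3)
  · have hfin : (An d w).Finite := (BW w).finite_toSet.subset hsub
    obtain ⟨a, ha, hter⟩ := exists_ter (Q := TQ) (ω := ω) hfin (ini_outer hd.le hdw h0 h1)
    rcases Orb_pred ha with h2 | ⟨b, hb, f, hf, k, -, h2⟩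
    · -- the first edge is not terminal
      exfalso
      obtain ⟨f, hf, hf', k, hk⟩ := ine_face hw h0 h1
      have hfd : f ∉ BW d := fun h => hf' (Finset.mem_coe.1 (BW_mono (show d ≤ w - 1 by omega)
        (Finset.mem_coe.2 h)))
      exact hter f ⟨hf, hfd⟩ k (h2.trans hk)
    · have hside : ∃ l : ZMod 4, a = (TQ.c f (l + 1), TQ.c f l) := by
        rcases h2 with ⟨-, h2⟩ | ⟨-, h2⟩
        · exact ⟨k + 1, by rw [z1]; exact h2⟩
        · exact ⟨k + 3, by rw [z5]; exact h2⟩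
      obtain ⟨l, hl⟩ := hside
      rw [hl] at hter
      rcases ter_annulus hd.le hdw hf hter with ⟨s, s0, s1, hs⟩ | ⟨s, s0, s1, hs⟩
      · exact ⟨s, s0, s1, by rw [← hs, ← hl]; exact ha⟩
      · exfalso
        have h3 := orb_swap (ω := ω) hsub hiw ht ha
        rw [hl, hs, Prod.swap_swap] at h3
        have h4 := eq_of_ini h3 (LegsAux.ini_out hw s0 s1)
        have h5 : bd w s = bd 0 ((i : ℕ) + 1) := (Prod.mk.inj h4).1
        exact bd_ne (d := 0) (w := w) le_rfl hw (by omega) (by omega) s0 (by omega) h5.symm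

/-- The boundary edge in the coordinates of the face inside, and its lift. -/
theorem bdL_out (hw : 0 < w) (h0 : 0 ≤ t) (h1 : t < 8 * w + 3) {f : ℤ × ℤ} {k : ZMod 4}
    (hf : f ∈ BW w) (h : ine w t = (TQ.c f k, TQ.c f (k + 1))) (N : ℤ × ℤ → ℤ) (hN : |N f| + 2 ≤ w) :
    shS N f k = bdL w t (N f) := by
  obtain ⟨f', k', h2, h3, h4, h5⟩ := ine_in hw h0 h1
  rw [h] at h2
  obtain ⟨rfl, rfl⟩ := TQ.inj (Prod.mk.inj h2).1 (Prod.mk.inj h2).2
  exact shS_eq h3 h4 h5 N

/-- The same for the boundary of the inner box and the face outside. -/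
theorem bdL_in (hd : 0 < d) (h0 : 0 ≤ t) (h1 : t < 8 * d + 3) {f : ℤ × ℤ} {k : ZMod 4}
    (hf : f ∉ BW d) (h : (ine d t).swap = (TQ.c f k, TQ.c f (k + 1))) (N : ℤ × ℤ → ℤ)
    (hN : |N f| + 2 ≤ d) : shS N f k = bdL d t (N f) := by
  obtain ⟨f', k', h2, h3, h4, h5⟩ := ine_out hd h0 h1
  rw [h] at h2
  obtain ⟨rfl, rfl⟩ := TQ.inj (Prod.mk.inj h2).1 (Prod.mk.inj h2).2
  exact shS_eq h3 h4 h5 N

end Pool.Agent.Perc3

end Partperc3T3Tip

section Partperc3T3Dual

/-!
# T3: a set of faces with the monodromy of the cut modulo 2 leaves room for a corridor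

`T` is a finite set of faces which contains the four faces at the vertex `(-1, 0)`. If a function
with values in `ZMod 2` on the faces next to `T` had the monodromy of the cut, the sum over all
vertices of the increments along the boundary of `T` would be both `0` and `1`.
-/

set_option autoImplicit false

namespace Pool.Agent.Perc3.Dual2

open Finset Pool.Agent.Perc Pool.Agent.Perc.Q Pool.Agent.Perc3

theorem vs_aux (A B C D : Bool) : ∀ (p q r s u c : ZMod 2)
    (_ : A = false → B = false → C = true → D = true → p - c = q - c)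
    (_ : A = false → C = false → B = true → D = true → p - c = r - (c + u))
    (_ : A = false → D = false → (B = true ∨ C = true) → p - c = s - (c + u))
    (_ : B = false → C = false → (A = true ∨ D = true) → q - c = r - (c + u))
    (_ : B = false → D = false → A = true → C = true → q - c = s - (c + u))
    (_ : C = false → D = false → A = true → B = true → r - (c + u) = s - (c + u)),
    ((if B = true ∧ ¬ D = true then s else 0) - (if D = true ∧ ¬ B = true then q else 0)) -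
      ((if A = true ∧ ¬ C = true then r else 0) - (if C = true ∧ ¬ A = true then p else 0)) +
      ((if D = true ∧ ¬ C = true then r else 0) - (if C = true ∧ ¬ D = true then s else 0)) -
      ((if B = true ∧ ¬ A = true then p else 0) - (if A = true ∧ ¬ B = true then q else 0)) =
      u * ((if B = true ∨ D = true then 1 else 0) - (if A = true ∨ C = true then 1 else 0)) := by
  intro p q r s u c r1 r2 r3 r4 r5 r6
  cases A <;> cases B <;> cases C <;> cases D <;>
    simp only [Bool.false_eq_true, not_false_eq_true, not_true, and_true, and_false, or_true,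
      or_false, if_true, if_false, forall_const, IsEmpty.forall_iff, Bool.true_eq_false,
      and_self, or_self] at r1 r2 r3 r4 r5 r6 ⊢ <;>
    first
    | (ring; done)
    | (revert p q r s u c; decide)

section stokes

variable (T : ℤ × ℤ → Prop) [DecidablePred T] (h : ℤ × ℤ → ZMod 2)

/-- Contribution of a horizontal unit edge. -/
def FH (i j : ℤ) : ZMod 2 :=
  (if T (i, j) ∧ ¬ T (i, j - 1) then h (i, j - 1) else 0) -
    (if T (i, j - 1) ∧ ¬ T (i, j) then h (i, j) else 0)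

/-- Contribution of a vertical unit edge. -/
def FV (i j : ℤ) : ZMod 2 :=
  (if T (i - 1, j) ∧ ¬ T (i, j) then h (i, j) else 0) -
    (if T (i, j) ∧ ¬ T (i - 1, j) then h (i - 1, j) else 0)

/-- The unit edge `(x, 0, false)` is a side of a face of `T`. -/
def tT (x : ℤ) : ZMod 2 := if T (x, 0) ∨ T (x, -1) then 1 else 0

/-- The correction at the cut. -/
def cadj (x y b : ℤ) : ZMod 2 := if y = 0 ∧ x ≤ -1 ∧ b < 0 then 1 else 0

/-- The faces `f` and `f'` at the vertex `(x, y)` have compatible values. -/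
def RelV (x y : ℤ) (f f' : ℤ × ℤ) : Prop := h f - cadj x y f.2 = h f' - cadj x y f'.2

variable {T h}

theorem vertex_sum {x y : ℤ}
    (r1 : ¬ T (x, y) → ¬ T (x - 1, y) → T (x, y - 1) → T (x - 1, y - 1) →
      RelV h x y (x, y) (x - 1, y))
    (r2 : ¬ T (x, y) → ¬ T (x, y - 1) → T (x - 1, y) → T (x - 1, y - 1) →
      RelV h x y (x, y) (x, y - 1))
    (r3 : ¬ T (x, y) → ¬ T (x - 1, y - 1) → (T (x - 1, y) ∨ T (x, y - 1)) →
      RelV h x y (x, y) (x - 1, y - 1))
    (r4 : ¬ T (x - 1, y) → ¬ T (x, y - 1) → (T (x, y) ∨ T (x - 1, y - 1)) →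
      RelV h x y (x - 1, y) (x, y - 1))
    (r5 : ¬ T (x - 1, y) → ¬ T (x - 1, y - 1) → T (x, y) → T (x, y - 1) →
      RelV h x y (x - 1, y) (x - 1, y - 1))
    (r6 : ¬ T (x, y - 1) → ¬ T (x - 1, y - 1) → T (x, y) → T (x - 1, y) →
      RelV h x y (x, y - 1) (x - 1, y - 1)) :
    FH T h (x - 1) y - FH T h x y + FV T h x (y - 1) - FV T h x y =
      if y = 0 ∧ x ≤ -1 then tT T (x - 1) - tT T x else 0 := by
  obtain ⟨u, hu⟩ : ∃ u : ZMod 2, u = if y = 0 ∧ x ≤ -1 then 1 else 0 := ⟨_, rfl⟩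
  obtain ⟨c1, hc1⟩ : ∃ c : ZMod 2, c = cadj x y y := ⟨_, rfl⟩
  obtain ⟨c2, hc2⟩ : ∃ c : ZMod 2, c = cadj x y (y - 1) := ⟨_, rfl⟩
  have hc3 : c2 = c1 + u := by
    rw [hc1, hc2, hu]
    unfold cadj
    split_ifs <;> first | (exfalso; omega) | decide
  have e2 : (if y = 0 ∧ x ≤ -1 then tT T (x - 1) - tT T x else 0) =
      u * ((if T (x - 1, y) ∨ T (x - 1, y - 1) then 1 else 0) -
        (if T (x, y) ∨ T (x, y - 1) then 1 else 0)) := by
    by_cases hy : y = 0 ∧ x ≤ -1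
    · obtain ⟨rfl, hx⟩ := hy
      rw [hu, if_pos ⟨rfl, hx⟩, if_pos ⟨rfl, hx⟩, one_mul]
      unfold tT
      rw [zero_sub]
    · rw [hu, if_neg hy, if_neg hy, zero_mul]
  rw [e2]
  unfold RelV at *
  simp only [← hc1, ← hc2] at r1 r2 r3 r4 r5 r6
  clear e2 hu hc1 hc2
  unfold FH FV
  have key := vs_aux (decide (T (x, y))) (decide (T (x - 1, y))) (decide (T (x, y - 1)))
    (decide (T (x - 1, y - 1))) (h (x, y)) (h (x - 1, y)) (h (x, y - 1)) (h (x - 1, y - 1)) u c1
  subst hc3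
  simp only [decide_eq_true_eq, decide_eq_false_iff_not] at key
  exact key r1 (fun a b c d => r2 a b c d) r3 r4 r5 r6

theorem sum_Ico_tel {a b : ℤ} (hab : a ≤ b) (g : ℤ → ZMod 2) :
    ∑ i ∈ Ico a b, (g (i - 1) - g i) = g (a - 1) - g (b - 1) := by
  induction b, hab using Int.leInduction with
  | base => simp
  | succ b hb ih =>
    rw [show Ico a (b + 1) = insert b (Ico a b) by ext i; simp only [mem_Ico, mem_insert]; omega,
      sum_insert (by simp), ih, add_sub_cancel_right]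
    ring

/-- Stokes: the sum over all vertices vanishes. -/
theorem total_sum {M : ℤ} (hM : 0 ≤ M) (hT : ∀ f, T f → -M < f.1 ∧ f.1 < M ∧ -M < f.2 ∧ f.2 < M) :
    ∑ y ∈ Ico (-M) (M + 1), ∑ x ∈ Ico (-M) (M + 1),
      (FH T h (x - 1) y - FH T h x y + FV T h x (y - 1) - FV T h x y) = 0 := by
  have h1 : ∀ y ∈ Ico (-M) (M + 1), ∑ x ∈ Ico (-M) (M + 1),
      (FH T h (x - 1) y - FH T h x y + FV T h x (y - 1) - FV T h x y) =
      ∑ x ∈ Ico (-M) (M + 1), (FV T h x (y - 1) - FV T h x y) := by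
    intro y _
    have e : ∑ x ∈ Ico (-M) (M + 1), (FH T h (x - 1) y - FH T h x y) = 0 := by
      rw [sum_Ico_tel (by omega) fun x => FH T h x y]
      have z1 : FH T h (-M - 1) y = 0 := by
        unfold FH
        rw [if_neg (fun hc => by have := hT _ hc.1; simp only at this; omega),
          if_neg (fun hc => by have := hT _ hc.1; simp only at this; omega)]
        rfl
      have z2 : FH T h (M + 1 - 1) y = 0 := by
        unfold FH
        rw [if_neg (fun hc => by have := hT _ hc.1; simp only at this; omega),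
          if_neg (fun hc => by have := hT _ hc.1; simp only at this; omega)]
        rfl
      rw [z1, z2]
      rfl
    calc ∑ x ∈ Ico (-M) (M + 1),
          (FH T h (x - 1) y - FH T h x y + FV T h x (y - 1) - FV T h x y)
        = ∑ x ∈ Ico (-M) (M + 1), ((FH T h (x - 1) y - FH T h x y) +
            (FV T h x (y - 1) - FV T h x y)) := by
          refine sum_congr rfl fun x _ => ?_
          ring
      _ = _ := by rw [sum_add_distrib, e, zero_add]
  rw [sum_congr rfl h1, sum_comm]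
  refine sum_eq_zero fun x _ => ?_
  rw [sum_Ico_tel (by omega) fun y => FV T h x y]
  have z1 : FV T h x (-M - 1) = 0 := by
    unfold FV
    rw [if_neg (fun hc => by have := hT _ hc.1; simp only at this; omega),
      if_neg (fun hc => by have := hT _ hc.1; simp only at this; omega)]
    rfl
  have z2 : FV T h x (M + 1 - 1) = 0 := by
    unfold FV
    rw [if_neg (fun hc => by have := hT _ hc.1; simp only at this; omega),
      if_neg (fun hc => by have := hT _ hc.1; simp only at this; omega)]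
    rfl
  rw [z1, z2]
  rfl

/-- The value of the sum given by the monodromy. -/
theorem cut_sum {M : ℤ} (hM : 1 < M) (hT : ∀ f, T f → -M < f.1 ∧ f.1 < M ∧ -M < f.2 ∧ f.2 < M)
    (h0 : T (-1, 0)) :
    ∑ y ∈ Ico (-M) (M + 1), ∑ x ∈ Ico (-M) (M + 1),
      (if y = 0 ∧ x ≤ -1 then tT T (x - 1) - tT T x else 0) = -1 := by
  rw [sum_eq_single_of_mem (0 : ℤ) (by rw [mem_Ico]; omega)]
  · have e : ∑ x ∈ Ico (-M) (M + 1), (if (0 : ℤ) = 0 ∧ x ≤ -1 then tT T (x - 1) - tT T x else 0) =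
        ∑ x ∈ Ico (-M) 0, (tT T (x - 1) - tT T x) := by
      rw [← sum_filter]
      refine sum_congr ?_ fun _ _ => rfl
      ext x
      rw [mem_filter, mem_Ico, mem_Ico]
      constructor
      · rintro ⟨h1, h2⟩
        omega
      · intro h1
        exact ⟨by omega, rfl, by omega⟩
    rw [e, sum_Ico_tel (by omega) fun x => tT T x]
    have z1 : tT T (-M - 1) = 0 := by
      unfold tT
      rw [if_neg]
      rintro (hc | hc)
      · have := hT _ hc
        simp only at this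
        omega
      · have := hT _ hc
        simp only at this
        omega
    have z2 : tT T (0 - 1) = 1 := by
      unfold tT
      rw [zero_sub, if_pos (Or.inl h0)]
    rw [z1, z2]
    rfl
  · intro y _ hy
    refine sum_eq_zero fun x _ => ?_
    rw [if_neg (fun hc => hy hc.1)]

/-- There is no function with the monodromy of the cut on the faces next to a finite set of faces
which contains the four faces at `(-1, 0)`. -/
theorem no_function {M : ℤ} (hM : 1 < M)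
    (hT : ∀ f, T f → -M < f.1 ∧ f.1 < M ∧ -M < f.2 ∧ f.2 < M)
    (h1 : T (-1, 0)) (h2 : T (-2, 0)) (h3 : T (-1, -1)) (_ : T (-2, -1))
    (hrel : ∀ x y : ℤ, (x, y) ≠ (-1, 0) → ∀ f f' g g' : ℤ × ℤ, FaceAt x y f → FaceAt x y f' →
      ¬ T f → ¬ T f' → T g → T g' → Adj4 f g → Adj4 f' g' → RelV h x y f f') : False := by
  have key := total_sum (T := T) (h := h) (by omega) hT
  have e : ∀ x y : ℤ, FH T h (x - 1) y - FH T h x y + FV T h x (y - 1) - FV T h x y =
      if y = 0 ∧ x ≤ -1 then tT T (x - 1) - tT T x else 0 := by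
    intro x y
    by_cases hv : (x, y) = (-1, 0)
    · simp only [Prod.mk.injEq] at hv
      obtain ⟨rfl, rfl⟩ := hv
      apply vertex_sum
      · intro ha; exact absurd h1 ha
      · intro ha; exact absurd h1 ha
      · intro ha; exact absurd h1 ha
      · intro ha; exact absurd h2 ha
      · intro ha; exact absurd h2 ha
      · intro ha; exact absurd h3 ha
    · have r := hrel x y hv
      apply vertex_sum
      · intro ha hb hc hd
        exact r _ _ _ _ (by unfold FaceAt; simp) (by unfold FaceAt; simp) ha hb hc hd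
          (by unfold Adj4; simp) (by unfold Adj4; simp)
      · intro ha hb hc hd
        exact r _ _ _ _ (by unfold FaceAt; simp) (by unfold FaceAt; simp) ha hb hc hd
          (by unfold Adj4; simp) (by unfold Adj4; simp)
      · rintro ha hb (hc | hc)
        · exact r _ _ _ _ (by unfold FaceAt; simp) (by unfold FaceAt; simp) ha hb hc hc
            (by unfold Adj4; simp) (by unfold Adj4; simp)
        · exact r _ _ _ _ (by unfold FaceAt; simp) (by unfold FaceAt; simp) ha hb hc hc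
            (by unfold Adj4; simp) (by unfold Adj4; simp)
      · rintro ha hb (hc | hc)
        · exact r _ _ _ _ (by unfold FaceAt; simp) (by unfold FaceAt; simp) ha hb hc hc
            (by unfold Adj4; simp) (by unfold Adj4; simp)
        · exact r _ _ _ _ (by unfold FaceAt; simp) (by unfold FaceAt; simp) ha hb hc hc
            (by unfold Adj4; simp) (by unfold Adj4; simp)
      · intro ha hb hc hd
        exact r _ _ _ _ (by unfold FaceAt; simp) (by unfold FaceAt; simp) ha hb hc hd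
          (by unfold Adj4; simp) (by unfold Adj4; simp)
      · intro ha hb hc hd
        exact r _ _ _ _ (by unfold FaceAt; simp) (by unfold FaceAt; simp) ha hb hc hd
          (by unfold Adj4; simp) (by unfold Adj4; simp)
  have h5 := cut_sum (T := T) hM hT h1
  have h6 : ∑ y ∈ Ico (-M) (M + 1), ∑ x ∈ Ico (-M) (M + 1),
      (FH T h (x - 1) y - FH T h x y + FV T h x (y - 1) - FV T h x y) =
      ∑ y ∈ Ico (-M) (M + 1), ∑ x ∈ Ico (-M) (M + 1),
      (if y = 0 ∧ x ≤ -1 then tT T (x - 1) - tT T x else 0) :=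
    sum_congr rfl fun y _ => sum_congr rfl fun x _ => e x y
  rw [key, h5] at h6
  exact absurd h6 (by norm_num)

end stokes

/-! ### The corridor -/

theorem add_self (x : ZMod 2) : x + x = 0 := by revert x; decide

theorem rel_aux {ρ d x y a b a' b' p q p' q' : ℤ} {i i' : ZMod 2} (hρ : 0 ≤ ρ)
    (hd : 2 * ρ + 3 < d)
    (hf : (a = x ∨ a = x - 1) ∧ (b = y ∨ b = y - 1))
    (hf' : (a' = x ∨ a' = x - 1) ∧ (b' = y ∨ b' = y - 1))
    (o : ¬ (-d ≤ p ∧ p < d ∧ -d ≤ q ∧ q < d))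
    (h1 : -ρ ≤ a - p ∧ a - p ≤ ρ) (h2 : -ρ ≤ b - q ∧ b - q ≤ ρ)
    (h3 : -ρ ≤ a' - p' ∧ a' - p' ≤ ρ) (h4 : -ρ ≤ b' - q' ∧ b' - q' ≤ ρ)
    (o' : ¬ (-d ≤ p' ∧ p' < d ∧ -d ≤ q' ∧ q' < d))
    (hs : i' + lv2 p q' = i + lv2 p q) :
    i + lv2 p q + lv2 p b - cadj x y b = i' + lv2 p' q' + lv2 p' b' - cadj x y b' := by
  have key : lv2 p' b' = lv2 p b' ∧ lv2 p' q' = lv2 p q' ∨
      (lv2 p' b' = lv2 p' q' ∧ lv2 p b' = lv2 p q' ∧ lv2 p b = lv2 p q ∧ b < 0 ∧ b' < 0) ∨
      (lv2 p' b' = 0 ∧ lv2 p' q' = 0 ∧ lv2 p b' = 0 ∧ lv2 p q' = 0 ∧ 0 ≤ b ∧ 0 ≤ b') := by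
    by_cases hq : 0 ≤ b ∧ 0 ≤ b' ∧ 0 ≤ q ∧ 0 ≤ q'
    · right; right
      unfold lv2
      refine ⟨if_neg (by omega), if_neg (by omega), if_neg (by omega), if_neg (by omega), hq.1,
        hq.2.1⟩
    · by_cases hq2 : b < 0 ∧ b' < 0 ∧ q < 0 ∧ q' < 0
      · right; left
        unfold lv2
        refine ⟨?_, ?_, ?_, hq2.1, hq2.2.1⟩ <;> split_ifs <;> first | rfl | (exfalso; omega)
      · left
        have hpp : p < 0 ↔ p' < 0 := by omega
        unfold lv2
        simp only [hpp]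
        exact ⟨trivial, trivial⟩
  have hc : (lv2 p b - cadj x y b) = (lv2 p b' - cadj x y b') ∨ (b < 0 ∧ b' < 0) ∨
      (0 ≤ b ∧ 0 ≤ b') := by
    by_cases hb : (b < 0 ∧ b' < 0) ∨ (0 ≤ b ∧ 0 ≤ b')
    · exact Or.inr hb
    · left
      have hy : y = 0 := by omega
      unfold lv2 cadj
      by_cases hp : p < 0
      · have hx : x ≤ -1 := by omega
        split_ifs <;> first | rfl | (exfalso; omega) | decide
      · have hx : ¬ x ≤ -1 := by omega
        split_ifs <;> first | rfl | (exfalso; omega) | decide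
  have hc2 : b < 0 ∧ b' < 0 → cadj x y b = cadj x y b' := by
    intro h
    unfold cadj
    split_ifs <;> first | rfl | (exfalso; omega)
  have hc3 : 0 ≤ b ∧ 0 ≤ b' → cadj x y b = cadj x y b' := by
    intro h
    unfold cadj
    split_ifs <;> first | rfl | (exfalso; omega)
  have hl2 : b < 0 ∧ b' < 0 → lv2 p b = lv2 p b' := by
    intro h
    unfold lv2
    split_ifs <;> first | rfl | (exfalso; omega)
  have hl4 : ∀ c, 0 ≤ c → lv2 p c = 0 := by
    intro c h
    unfold lv2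
    exact if_neg (by omega)
  have hcc : lv2 p b - cadj x y b = lv2 p b' - cadj x y b' := by
    rcases hc with h | h | h
    · exact h
    · rw [hl2 h, hc2 h]
    · rw [hl4 b h.1, hl4 b' h.2, hc3 h]
  rcases key with ⟨e1, e2⟩ | ⟨e1, e2, e3, hb, hb'⟩ | ⟨e1, e2, e3, e4, hb, hb'⟩
  · linear_combination hcc - hs - e1 - e2
  · have t1 := add_self (lv2 p b')
    have t2 := add_self (lv2 p' q')
    linear_combination hcc - hs - e2 - e1 - t2 + t1
  · have t1 := hl4 b hb
    have t2 := hc3 ⟨hb, hb'⟩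
    linear_combination - hs - e1 - e2 + e4 + t1 - t2

/-- A set of faces with the monodromy of the cut leaves room for a corridor. -/
theorem _root_.Pool.Agent.Perc3.exists_corridor2 {S : Set (ℤ × ℤ)} {h : ℤ × ℤ → ZMod 2}
    {L d ρ : ℤ} (hρ : 0 ≤ ρ) (hd : 2 * ρ + 3 < d)
    (hS : ∀ s ∈ S, ¬ (-d ≤ s.1 ∧ s.1 < d ∧ -d ≤ s.2 ∧ s.2 < d)) (hsep : SepH (2 * ρ + 1) S h) :
    ∃ f, ¬ (-L ≤ f.1 ∧ f.1 < L ∧ -L ≤ f.2 ∧ f.2 < L) ∧ ChainS ρ S (-1, 0) f := by
  classical
  by_contra hcon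
  have hin : ∀ f, ChainS ρ S (-1, 0) f → -L ≤ f.1 ∧ f.1 < L ∧ -L ≤ f.2 ∧ f.2 < L := by
    intro f hf
    by_contra hc
    exact hcon ⟨f, hc, hf⟩
  -- faces near the centre are free
  have hfree : ∀ f : ℤ × ℤ, -2 ≤ f.1 → f.1 ≤ 0 → -2 ≤ f.2 → f.2 ≤ 0 → FreeS ρ S f := by
    intro f h1 h2 h3 h4 s hs
    have h5 := hS s hs
    rw [lt_max_iff, lt_abs, lt_abs]
    omega
  let T : ℤ × ℤ → Prop := fun f => ChainS ρ S (-1, 0) f
  have t1 : T (-1, 0) := Relation.ReflTransGen.refl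
  have t2 : T (-2, 0) := Relation.ReflTransGen.single
    ⟨by unfold Adj4; simp, hfree _ (by norm_num) (by norm_num) (by norm_num) (by norm_num),
      hfree _ (by norm_num) (by norm_num) (by norm_num) (by norm_num)⟩
  have t3 : T (-1, -1) := Relation.ReflTransGen.single
    ⟨by unfold Adj4; simp, hfree _ (by norm_num) (by norm_num) (by norm_num) (by norm_num),
      hfree _ (by norm_num) (by norm_num) (by norm_num) (by norm_num)⟩
  have t4 : T (-2, -1) := Relation.ReflTransGen.tail t2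
    ⟨by unfold Adj4; simp, hfree _ (by norm_num) (by norm_num) (by norm_num) (by norm_num),
      hfree _ (by norm_num) (by norm_num) (by norm_num) (by norm_num)⟩
  have hTfree : ∀ f, T f → FreeS ρ S f := by
    intro f hf
    induction hf with
    | refl => exact hfree _ (by norm_num) (by norm_num) (by norm_num) (by norm_num)
    | tail _ hs _ => exact hs.2.2
  -- the neighbours of `T` are close to `S`
  have hnear : ∀ f g, ¬ T f → T g → Adj4 f g → ∃ s ∈ S, |f.1 - s.1| ≤ ρ ∧ |f.2 - s.2| ≤ ρ := by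
    intro f g hf hg ha
    by_contra hc
    apply hf
    refine Relation.ReflTransGen.tail hg ⟨ha.symm, hTfree g hg, ?_⟩
    intro s hs
    rw [lt_max_iff]
    by_contra h
    rw [not_or, not_lt, not_lt] at h
    exact hc ⟨s, hs, h⟩
  let Q : ℤ × ℤ → ℤ × ℤ → Prop := fun f s => s ∈ S ∧ |f.1 - s.1| ≤ ρ ∧ |f.2 - s.2| ≤ ρ
  let h' : ℤ × ℤ → ZMod 2 := fun f => if hf : ∃ s, Q f s then
    h (Classical.choose hf) + lv2 (Classical.choose hf).1 (Classical.choose hf).2 +
      lv2 (Classical.choose hf).1 f.2 else 0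
  have hspec : ∀ f g, ¬ T f → T g → Adj4 f g → ∃ s, Q f s ∧
      h' f = h s + lv2 s.1 s.2 + lv2 s.1 f.2 := by
    intro f g hf hg ha
    obtain ⟨s, hs, h1, h2⟩ := hnear f g hf hg ha
    have hf' : ∃ s, Q f s := ⟨s, hs, h1, h2⟩
    refine ⟨Classical.choose hf', Classical.choose_spec hf', ?_⟩
    simp only [h']
    rw [dif_pos hf']
  refine no_function (T := T) (h := h') (M := |L| + 2) ?_ ?_ t1 t2 t3 t4 ?_
  · have h1 := abs_nonneg L
    omega
  · intro f hf
    have h1 := hin f hf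
    have h2 := le_abs_self L
    have h4 := abs_nonneg L
    omega
  · intro x y hv f f' g g' hf hf' hTf hTf' hg hg' ha ha'
    obtain ⟨s, ⟨hs, hs1, hs2⟩, e⟩ := hspec f g hTf hg ha
    obtain ⟨s', ⟨hs', hs1', hs2'⟩, e'⟩ := hspec f' g' hTf' hg' ha'
    unfold FaceAt at hf hf'
    have o := hS s hs
    rw [abs_le] at hs1 hs2 hs1' hs2'
    have hsep := hsep s hs s' hs' (by rw [abs_le]; omega) (by rw [abs_le]; omega)
    unfold RelV
    rw [e, e']
    exact rel_aux hρ hd hf hf' o hs1 hs2 hs1' hs2' (hS s' hs') hsep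

end Pool.Agent.Perc3.Dual2

end Partperc3T3Dual
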