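import Pool.Agent.Lib.MP_6bd702_zc.Pre
import Pool.Agent.Lib.MP_6bd702_zc.Y028

section PartoccZA

/-!
# Row ZA: cochains, dual paths, potentials on rectangles
-/

set_option autoImplicit false

namespace Pool.Agent.Occ

open Finset Pool.Agent.Perc Pool.Agent.Perc3 Pool.Agent.PercD

variable {x₀ x₁ y₀ y₁ : ℤ} {c c' : Co} {f g : ℤ × ℤ} {a : UE} {l l' : List (ℤ × ℤ)}

/-- Every closed cochain of a rectangle has a potential, with a prescribed value. -/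
theorem exists_potC (h : ∀ f ∈ RF x₀ x₁ y₀ y₁, bdC c f = 0) (p : ℤ × ℤ) (z : ZMod 2) :
    ∃ Φ, PotC (RF x₀ x₁ y₀ y₁) c Φ ∧ Φ p = z := by
  set M : Set UE := {a | c a = 1} with hM
  have hc : ∀ a, c a = ind2 (a ∈ M) := by
    intro a
    rcases z2_cases (c a) with h0 | h0
    · rw [h0, ind2_neg]
      intro hcon
      have : c a = 1 := hcon
      rw [h0] at this
      exact absurd this (by decide)
    · rw [h0]
      exact (ind2_pos (show a ∈ M from h0)).symm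
  have hE : ∀ f ∈ RF x₀ x₁ y₀ y₁, EvenAt M f := by
    intro f hf
    have := h f hf
    unfold bdC at this
    rw [hc, hc, hc, hc] at this
    exact this
  refine ⟨fun w => pot x₀ y₀ M w + (z + pot x₀ y₀ M p), ?_, ?_⟩
  · intro f hf a ha
    rw [mem_coe, mem_RF] at hf
    have key : pot x₀ y₀ M (ub a) = pot x₀ y₀ M (ua a) + c a := by
      rw [hc]
      rcases ha with rfl | rfl | rfl | rfl
      · unfold bo
        rw [ua_mk, ub_false]
        exact pot_hor hE hf.1 hf.2.1 hf.2.2.1 hf.2.2.2.le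
      · unfold le'
        rw [ua_mk, ub_true]
        exact pot_ver hf.2.2.1
      · unfold to'
        rw [ua_mk, ub_false]
        exact pot_hor hE hf.1 hf.2.1 (by omega) (by omega)
      · unfold ri
        rw [ua_mk, ub_true]
        exact pot_ver hf.2.2.1
    show pot x₀ y₀ M (ub a) + (z + pot x₀ y₀ M p) = pot x₀ y₀ M (ua a) + (z + pot x₀ y₀ M p) + c a
    rw [key]
    ring
  · show pot x₀ y₀ M p + (z + pot x₀ y₀ M p) = z
    generalize pot x₀ y₀ M p = t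
    revert t z
    decide

theorem bdC_add : bdC (fun a => c a + c' a) f = bdC c f + bdC c' f := by
  unfold bdC
  ring

theorem bdC_cM {ω : Cfg} {F : Set (ℤ × ℤ)} {e : UE} (hf : f ∈ F) : bdC (cM (MM ω F e)) f = 0 :=
  evenAt_MM hf

theorem bo_ne_ri : bo f ≠ ri f := by simp [bo, ri]
theorem bo_ne_le : bo f ≠ le' f := by simp [bo, le']
theorem bo_ne_to : bo f ≠ to' f := by simp [bo, to']
theorem ri_ne_le : ri f ≠ le' f := by simp [ri, le']
theorem ri_ne_to : ri f ≠ to' f := by simp [ri, to']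
theorem le_ne_to : le' f ≠ to' f := by simp [le', to']

/-- If exactly one side of the face is in `M`. -/
theorem bdC_cM_one {M : Set UE} {e : UE} (he : IsSide f e) (hM : e ∈ M)
    (h : ∀ a, IsSide f a → a ∈ M → a = e) : bdC (cM M) f = 1 := by
  have h1 : ∀ a, IsSide f a → a ≠ e → cM M a = 0 := fun a ha hne =>
    ind2_neg fun hm => hne (h a ha hm)
  have h2 : cM M e = 1 := ind2_pos hM
  unfold bdC
  rcases he with rfl | rfl | rfl | rfl
  · rw [h2, h1 (ri f) (Or.inr (Or.inr (Or.inr rfl))) bo_ne_ri.symm,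
      h1 (to' f) (Or.inr (Or.inr (Or.inl rfl))) bo_ne_to.symm,
      h1 (le' f) (Or.inr (Or.inl rfl)) bo_ne_le.symm]
    decide
  · rw [h2, h1 (ri f) (Or.inr (Or.inr (Or.inr rfl))) ri_ne_le,
      h1 (to' f) (Or.inr (Or.inr (Or.inl rfl))) le_ne_to.symm,
      h1 (bo f) (Or.inl rfl) bo_ne_le]
    decide
  · rw [h2, h1 (ri f) (Or.inr (Or.inr (Or.inr rfl))) ri_ne_to,
      h1 (bo f) (Or.inl rfl) bo_ne_to,
      h1 (le' f) (Or.inr (Or.inl rfl)) le_ne_to]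
    decide
  · rw [h2, h1 (bo f) (Or.inl rfl) bo_ne_ri,
      h1 (to' f) (Or.inr (Or.inr (Or.inl rfl))) ri_ne_to.symm,
      h1 (le' f) (Or.inr (Or.inl rfl)) ri_ne_le.symm]
    decide

theorem bdC_cM_zero {M : Set UE} (h : ∀ a, IsSide f a → a ∉ M) : bdC (cM M) f = 0 := by
  have h1 : ∀ a, IsSide f a → cM M a = 0 := fun a ha => ind2_neg (h a ha)
  unfold bdC
  rw [h1 (bo f) (Or.inl rfl), h1 (ri f) (Or.inr (Or.inr (Or.inr rfl))),
    h1 (to' f) (Or.inr (Or.inr (Or.inl rfl))), h1 (le' f) (Or.inr (Or.inl rfl))]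
  decide

/-- The common side is a side of exactly the two faces. -/
theorem side_cr (h : Adj4 f g) {k : ℤ × ℤ} : IsSide k (cr f g) ↔ k = f ∨ k = g := by
  obtain ⟨x, y⟩ := f
  obtain ⟨x', y'⟩ := g
  obtain ⟨x'', y''⟩ := k
  unfold Adj4 at h
  unfold cr IsSide
  simp only [bo, ri, to', le', Prod.mk.injEq] at h ⊢
  by_cases h1 : x' = x + 1
  · rw [if_pos h1]
    simp only [Prod.mk.injEq, Bool.true_eq_false, and_false, false_or, and_true]
    omega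
  · rw [if_neg h1]
    by_cases h2 : x = x' + 1
    · rw [if_pos h2]
      simp only [Prod.mk.injEq, Bool.true_eq_false, and_false, false_or, and_true]
      omega
    · rw [if_neg h2]
      by_cases h3 : y' = y + 1
      · rw [if_pos h3]
        simp only [Prod.mk.injEq, Bool.false_eq_true, and_false, false_or, and_true, or_false]
        omega
      · rw [if_neg h3]
        simp only [Prod.mk.injEq, Bool.false_eq_true, and_false, false_or, and_true, or_false]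
        omega

theorem adj_ne (h : Adj4 f g) : f ≠ g := by
  rintro rfl
  unfold Adj4 at h
  omega

theorem bdC_cr (h : Adj4 f g) (k : ℤ × ℤ) :
    bdC (fun a => ind2 (a = cr f g)) k = ind2 (some f = some k) + ind2 (some g = some k) := by
  have e : (fun a => ind2 (a = cr f g)) = cM {cr f g} := by
    funext a
    rfl
  rw [e]
  have hne := adj_ne h
  by_cases hk : k = f ∨ k = g
  · rw [bdC_cM_one (M := {cr f g}) ((side_cr h).2 hk) rfl (fun a _ ha => Set.mem_singleton_iff.1 ha)]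
    rcases hk with rfl | rfl
    · rw [ind2_pos rfl, ind2_neg (by simpa using hne.symm)]
      decide
    · rw [ind2_neg (by simpa using hne), ind2_pos rfl]
      decide
  · rw [bdC_cM_zero fun a ha ham => hk ((side_cr h).1 (by rw [← show a = cr f g from ham]; exact ha))]
    rw [not_or] at hk
    rw [ind2_neg (by simpa using fun h' : f = k => hk.1 h'.symm),
      ind2_neg (by simpa using fun h' : g = k => hk.2 h'.symm)]
    decide

/-- The boundary of a dual path. -/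
theorem bdC_xp (h : IsCh l) : bdC (xp l) f = ind2 (l.head? = some f) + ind2 (l.getLast? = some f) := by
  induction l with
  | nil =>
    rw [List.head?_nil, List.getLast?_nil, ind2_neg (by simp)]
    unfold bdC xp
    decide
  | cons p l ih =>
    cases l with
    | nil =>
      have e : bdC (xp [p]) f = 0 := by
        unfold bdC xp
        decide
      rw [e, List.head?_cons, List.getLast?_singleton, z2_add_self]
    | cons q l =>
      have e : bdC (xp (p :: q :: l)) f =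
          bdC (fun a => ind2 (a = cr p q)) f + bdC (xp (q :: l)) f := by
        rw [← bdC_add]
        rfl
      rw [e, ih h.2, bdC_cr h.1, List.head?_cons, List.head?_cons, List.getLast?_cons_cons]
      generalize ind2 (some p = some f) = t1
      generalize ind2 (some q = some f) = t2
      generalize ind2 ((q :: l).getLast? = some f) = t3
      revert t1 t2 t3
      decide

/-- A face next to a crossed unit edge is on the path. -/
theorem xp_side (h : IsCh l) (ha : IsSide f a) (hf : f ∉ l) : xp l a = 0 := by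
  induction l with
  | nil => rfl
  | cons p l ih =>
    cases l with
    | nil => rfl
    | cons q l =>
      show ind2 (a = cr p q) + xp (q :: l) a = 0
      rw [ih h.2 fun hm => hf (List.mem_cons_of_mem _ hm), ind2_neg, add_zero]
      rintro rfl
      rcases (side_cr h.1).1 ha with rfl | rfl
      · exact hf List.mem_cons_self
      · exact hf (List.mem_cons_of_mem _ List.mem_cons_self)

theorem xp_append (h : l.getLast? = some f) (h' : l'.head? = some g) (a : UE) :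
    xp (l ++ l') a = xp l a + ind2 (a = cr f g) + xp l' a := by
  induction l with
  | nil => simp at h
  | cons p l ih =>
    cases l with
    | nil =>
      rw [List.getLast?_singleton, Option.some.injEq] at h
      subst h
      cases l' with
      | nil => simp at h'
      | cons q l' =>
        rw [List.head?_cons, Option.some.injEq] at h'
        subst h'
        show ind2 (a = cr p q) + xp (q :: l') a = 0 + ind2 (a = cr p q) + xp (q :: l') a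
        rw [zero_add]
    | cons q l =>
      rw [List.getLast?_cons_cons] at h
      have := ih h
      show ind2 (a = cr p q) + xp ((q :: l) ++ l') a =
        (ind2 (a = cr p q) + xp (q :: l) a) + ind2 (a = cr f g) + xp l' a
      rw [this]
      ring

theorem IsCh.append (h1 : IsCh l) (h2 : IsCh l') (h : ∀ f g, l.getLast? = some f →
    l'.head? = some g → Adj4 f g) : IsCh (l ++ l') := by
  induction l with
  | nil => exact h2
  | cons p l ih =>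
    cases l with
    | nil =>
      cases l' with
      | nil => trivial
      | cons q l' => exact ⟨h p q (by simp) (by simp), h2⟩
    | cons q l =>
      exact ⟨h1.1, ih h1.2 fun f g hf hg => h f g (by rw [List.getLast?_cons_cons]; exact hf) hg⟩

/-! ### Straight rows -/

theorem cast_list (l : List ℕ) : (do let a ← l; pure ((a : ℤ))) = l.map (fun n : ℕ => (n : ℤ)) := by
  show List.flatMap (fun a : ℕ => [(a : ℤ)]) l = _
  induction l with
  | nil => rfl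
  | cons a l ih => rw [List.flatMap_cons, ih, List.map_cons]; rfl

/-- The list of the first values of a sequence. -/
def seqL (u : ℕ → ℤ × ℤ) (n : ℕ) : List (ℤ × ℤ) := (List.range n).map u

theorem seqL_succ (u : ℕ → ℤ × ℤ) (n : ℕ) : seqL u (n + 1) = seqL u n ++ [u n] := by
  unfold seqL
  rw [List.range_succ, List.map_append, List.map_singleton]

theorem seqL_last (u : ℕ → ℤ × ℤ) (n : ℕ) : (seqL u (n + 1)).getLast? = some (u n) := by
  rw [seqL_succ, List.getLast?_concat]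

theorem seqL_head (u : ℕ → ℤ × ℤ) (n : ℕ) : (seqL u (n + 1)).head? = some (u 0) := by
  unfold seqL
  rw [List.range_succ_eq_map, List.map_cons, List.head?_cons]

theorem isCh_seqL {u : ℕ → ℤ × ℤ} (h : ∀ i, Adj4 (u i) (u (i + 1))) (n : ℕ) :
    IsCh (seqL u n) := by
  induction n with
  | zero => trivial
  | succ n ih =>
    rw [seqL_succ]
    refine ih.append (l' := [u n]) trivial fun f g hf hg => ?_
    rw [List.head?_cons, Option.some.injEq] at hg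
    subst hg
    cases n with
    | zero => simp [seqL] at hf
    | succ n =>
      rw [seqL_last, Option.some.injEq] at hf
      subst hf
      exact h n

theorem mem_seqL {u : ℕ → ℤ × ℤ} {n : ℕ} : f ∈ seqL u n ↔ ∃ i < n, u i = f := by
  unfold seqL
  rw [List.mem_map]
  simp only [List.mem_range]

theorem isCh_eRow {w y X : ℤ} (h : w ≤ X) : IsCh (eRow w y X) ∧ (eRow w y X).head? = some (w, y) ∧
    (eRow w y X).getLast? = some (X, y) ∧ ∀ f, f ∈ eRow w y X ↔ f.2 = y ∧ w ≤ f.1 ∧ f.1 ≤ X := by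
  obtain ⟨n, hn⟩ : ∃ n : ℕ, (X - w + 1).toNat = n + 1 := ⟨(X - w).toNat, by omega⟩
  have hX : X = w + n := by omega
  have e : eRow w y X = seqL (fun i => (w + i, y)) (n + 1) := by
    unfold eRow seqL
    rw [hn, cast_list, List.map_map]
    rfl
  rw [e]
  refine ⟨isCh_seqL (fun i => Or.inl ⟨rfl, Or.inl ?_⟩) _, ?_, ?_, fun f => ?_⟩
  · show w + ((i + 1 : ℕ) : ℤ) = w + i + 1
    push_cast; ring
  · rw [seqL_head]
    simp
  · rw [seqL_last, hX]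
  · rw [mem_seqL]
    constructor
    · rintro ⟨i, hi, rfl⟩
      refine ⟨rfl, ?_, ?_⟩
      · show w ≤ w + (i : ℤ)
        omega
      · show w + (i : ℤ) ≤ X
        omega
    · rintro ⟨h1, h2, h3⟩
      refine ⟨(f.1 - w).toNat, by omega, ?_⟩
      ext
      · show w + (((f.1 - w).toNat : ℕ) : ℤ) = f.1
        omega
      · exact h1.symm

theorem isCh_wRow {w y X : ℤ} (h : X - 1 ≤ -(w + 3)) : IsCh (wRow w y X) ∧
    (wRow w y X).head? = some (-(w + 3), y) ∧ (wRow w y X).getLast? = some (X - 1, y) ∧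
    ∀ f, f ∈ wRow w y X ↔ f.2 = y ∧ X - 1 ≤ f.1 ∧ f.1 ≤ -(w + 3) := by
  obtain ⟨n, hn⟩ : ∃ n : ℕ, (-(w + 3) - (X - 1) + 1).toNat = n + 1 :=
    ⟨(-(w + 3) - (X - 1)).toNat, by omega⟩
  have hX : X - 1 = -(w + 3) - n := by omega
  have e : wRow w y X = seqL (fun i => (-(w + 3) - i, y)) (n + 1) := by
    unfold wRow seqL
    rw [hn, cast_list, List.map_map]
    rfl
  rw [e]
  refine ⟨isCh_seqL (fun i => Or.inl ⟨rfl, Or.inr ?_⟩) _, ?_, ?_, fun f => ?_⟩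
  · show -(w + 3) - (i : ℤ) = -(w + 3) - ((i + 1 : ℕ) : ℤ) + 1
    push_cast; ring
  · rw [seqL_head]
    simp
  · rw [seqL_last, hX]
  · rw [mem_seqL]
    constructor
    · rintro ⟨i, hi, rfl⟩
      refine ⟨rfl, ?_, ?_⟩
      · show X - 1 ≤ -(w + 3) - (i : ℤ)
        omega
      · show -(w + 3) - (i : ℤ) ≤ -(w + 3)
        omega
    · rintro ⟨h1, h2, h3⟩
      refine ⟨(-(w + 3) - f.1).toNat, by omega, ?_⟩
      ext
      · show -(w + 3) - (((-(w + 3) - f.1).toNat : ℕ) : ℤ) = f.1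
        omega
      · exact h1.symm

theorem ind2_or {P Q : Prop} (h : ¬ (P ∧ Q)) : ind2 P + ind2 Q = ind2 (P ∨ Q) := by
  by_cases hP : P
  · by_cases hQ : Q
    · exact absurd ⟨hP, hQ⟩ h
    · rw [ind2_pos hP, ind2_neg hQ, ind2_pos (Or.inl hP)]
      decide
  · by_cases hQ : Q
    · rw [ind2_neg hP, ind2_pos hQ, ind2_pos (Or.inr hQ)]
      decide
    · rw [ind2_neg hP, ind2_neg hQ, ind2_neg (by tauto)]
      decide

theorem xp_seqL_succ (u : ℕ → ℤ × ℤ) (n : ℕ) (a : UE) :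
    xp (seqL u (n + 2)) a = xp (seqL u (n + 1)) a + ind2 (a = cr (u n) (u (n + 1))) := by
  rw [seqL_succ, xp_append (seqL_last u n) (List.head?_cons) a]
  show _ + _ + 0 = _
  rw [add_zero]

/-- The crossed unit edges of the rows. -/
theorem xp_eRow {w y X : ℤ} (h : w ≤ X) (a : UE) :
    xp (eRow w y X) a = ind2 (a.2.2 = true ∧ a.2.1 = y ∧ w < a.1 ∧ a.1 ≤ X) := by
  obtain ⟨n, hn⟩ : ∃ n : ℕ, (X - w + 1).toNat = n + 1 := ⟨(X - w).toNat, by omega⟩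
  have hX : X = w + n := by omega
  have e : eRow w y X = seqL (fun i => (w + i, y)) (n + 1) := by
    unfold eRow seqL
    rw [hn, cast_list, List.map_map]
    rfl
  rw [e, hX]
  clear e hX hn h
  obtain ⟨x, z, b⟩ := a
  induction n with
  | zero =>
    rw [ind2_neg (by simp only; omega)]
    rfl
  | succ n ih =>
    rw [xp_seqL_succ, ih]
    have e2 : cr (w + ((n : ℕ) : ℤ), y) (w + ((n + 1 : ℕ) : ℤ), y) = (w + n + 1, y, true) := by
      unfold cr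
      rw [if_pos (by simp only; push_cast; ring)]
      rfl
    rw [e2, ind2_or (by simp only [Prod.mk.injEq]; omega)]
    refine ind2_congr ?_
    simp only [Prod.mk.injEq]
    push_cast
    cases b <;> simp only [Bool.false_eq_true, false_and, and_false, or_false, true_and, and_true]
    all_goals omega

theorem xp_wRow {w y X : ℤ} (h : X - 1 ≤ -(w + 3)) (a : UE) :
    xp (wRow w y X) a = ind2 (a.2.2 = true ∧ a.2.1 = y ∧ X ≤ a.1 ∧ a.1 ≤ -(w + 3)) := by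
  obtain ⟨n, hn⟩ : ∃ n : ℕ, (-(w + 3) - (X - 1) + 1).toNat = n + 1 :=
    ⟨(-(w + 3) - (X - 1)).toNat, by omega⟩
  have hX : X = -(w + 3) - n + 1 := by omega
  have e : wRow w y X = seqL (fun i => (-(w + 3) - i, y)) (n + 1) := by
    unfold wRow seqL
    rw [hn, cast_list, List.map_map]
    rfl
  rw [e, hX]
  clear e hX hn h
  obtain ⟨x, z, b⟩ := a
  induction n with
  | zero =>
    rw [ind2_neg (by simp only; omega)]
    rfl
  | succ n ih =>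
    rw [xp_seqL_succ, ih]
    have e2 : cr (-(w + 3) - ((n : ℕ) : ℤ), y) (-(w + 3) - ((n + 1 : ℕ) : ℤ), y) =
        (-(w + 3) - n, y, true) := by
      unfold cr
      rw [if_neg (by simp only; push_cast; omega), if_pos (by simp only; push_cast; ring)]
      rfl
    rw [e2, ind2_or (by simp only [Prod.mk.injEq]; omega)]
    refine ind2_congr ?_
    simp only [Prod.mk.injEq]
    push_cast
    cases b <;> simp only [Bool.false_eq_true, false_and, and_false, or_false, true_and, and_true]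
    all_goals omega

/-- A chain of neighbouring faces as a list. -/
theorem exists_list {P : ℤ × ℤ → Prop} {f g : ℤ × ℤ} (hf : P f)
    (h : Relation.ReflTransGen (fun f g => Adj4 f g ∧ P f ∧ P g) f g) :
    ∃ l, IsCh l ∧ l.head? = some f ∧ l.getLast? = some g ∧ ∀ k ∈ l, P k := by
  induction h with
  | refl => exact ⟨[f], trivial, rfl, rfl, fun k hk => by
      rw [List.mem_singleton] at hk
      rw [hk]; exact hf⟩
  | @tail b c _ hs ih =>
    obtain ⟨l, h1, h2, h3, h4⟩ := ih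
    refine ⟨l ++ [c], h1.append trivial fun p q hp hq => ?_, ?_, ?_, ?_⟩
    · rw [h3, Option.some.injEq] at hp
      rw [List.head?_cons, Option.some.injEq] at hq
      subst hp hq
      exact hs.1
    · cases l with
      | nil => simp at h2
      | cons q l => exact h2
    · rw [List.getLast?_concat]
    · intro k hk
      rw [List.mem_append, List.mem_singleton] at hk
      rcases hk with hk | rfl
      · exact h4 k hk
      · exact hs.2.2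

end Pool.Agent.Occ

end PartoccZA

section PartoccZB

/-!
# Row ZB: two strands and their sectors; landing lemmas

`Φ₁ + Φ₂ = 1` is the D side (`Φ₁ = 1` next to the first strand, `Φ₂ = 1` next to the second one).
-/

set_option autoImplicit false

namespace Pool.Agent.Occ

open Finset Pool.Agent.Perc Pool.Agent.Perc3 Pool.Agent.PercD Pool.Agent.Perc6

/-- Two different strands with potentials: `uᵢ` the ends of colour P, `vᵢ` the ends of colour D. -/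
structure Sec (η : Cfg) (D₀ : Set (ℤ × ℤ)) (t₁ t₂ : UE) (u₁ v₁ u₂ v₂ : ℤ × ℤ)
    (Φ₁ Φ₂ : ℤ × ℤ → ZMod 2) : Prop where
  j₁ : Joins t₁ u₁ v₁
  j₂ : Joins t₂ u₂ v₂
  par_u : par u₁ = par u₂
  s₁ : ∃ f ∈ D₀, IsSide f t₁
  s₂ : ∃ f ∈ D₀, IsSide f t₂
  ne : t₂ ∉ MM η D₀ t₁
  pot₁ : ∀ f ∈ SS η D₀ t₁ ∪ SS η D₀ t₂, ∀ a, IsSide f a →
    Φ₁ (ub a) = Φ₁ (ua a) + ind2 (a ∈ MM η D₀ t₁)
  pot₂ : ∀ f ∈ SS η D₀ t₁ ∪ SS η D₀ t₂, ∀ a, IsSide f a →
    Φ₂ (ub a) = Φ₂ (ua a) + ind2 (a ∈ MM η D₀ t₂)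
  v₁₁ : Φ₁ v₁ = 1
  v₂₁ : Φ₂ v₁ = 0
  v₁₂ : Φ₁ v₂ = 0
  v₂₂ : Φ₂ v₂ = 1

variable {η ξ : Cfg} {D₀ : Set (ℤ × ℤ)} {t₁ t₂ : UE} {u₁ v₁ u₂ v₂ : ℤ × ℤ}
  {Φ₁ Φ₂ Θ : ℤ × ℤ → ZMod 2} {f p q : ℤ × ℤ} {G : Set (ℤ × ℤ)}

namespace ZBaux

/-- The component in the set of the visited faces. -/
theorem mm_vis {V : Set (ℤ × ℤ)} {t : UE} (h1 : SS η D₀ t ⊆ V) (h2 : V ⊆ D₀) :
    MM η V t = MM η D₀ t := (MM_eq_of_closed h2 h1).symm

theorem ss_vis {V : Set (ℤ × ℤ)} {t : UE} (h1 : SS η D₀ t ⊆ V) (h2 : V ⊆ D₀) :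
    SS η V t = SS η D₀ t := by
  ext f
  constructor
  · rintro ⟨hf, a, ha, hs⟩
    rw [mm_vis h1 h2] at ha
    exact ⟨h2 hf, a, ha, hs⟩
  · intro hf
    have hf0 := hf
    obtain ⟨hf', a, ha, hs⟩ := hf
    exact ⟨h1 hf0, a, by rw [mm_vis h1 h2]; exact ha, hs⟩

theorem isPot_of {V : Set (ℤ × ℤ)} {t : UE} {Φ : ℤ × ℤ → ZMod 2} (h1 : SS η D₀ t ⊆ V)
    (h2 : V ⊆ D₀)
    (h : ∀ f ∈ V, ∀ a, IsSide f a → Φ (ub a) = Φ (ua a) + ind2 (a ∈ MM η D₀ t)) :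
    IsPot V (MM η V t) Φ := by
  intro f hf a ha
  rw [mm_vis h1 h2, h f hf a ha]
  by_cases hm : a ∈ MM η D₀ t
  · rw [ind2_pos hm]
    simp [hm]
  · rw [ind2_neg hm]
    simp [hm]

theorem conn_symm {F₁ : Set (ℤ × ℤ)} {p q : ℤ × ℤ} (hc : Conn η F₁ p q) : Conn η F₁ q p := by
  induction hc with
  | refl => exact Relation.ReflTransGen.refl
  | tail _ hb ih => exact Relation.ReflTransGen.head hb.symm' ih

theorem exists_bond (η : Cfg) (f : ℤ × ℤ) : ∃ p q, Bond η {f} p q := by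
  cases h : η f
  · exact ⟨(f.1, f.2 + 1), (f.1 + 1, f.2), f.1, f.2, rfl, Or.inr ⟨h, Or.inl ⟨rfl, rfl⟩⟩⟩
  · exact ⟨(f.1, f.2), (f.1 + 1, f.2 + 1), f.1, f.2, rfl, Or.inl ⟨h, Or.inl ⟨rfl, rfl⟩⟩⟩

/-- A corner with the parity of the ends of the bond is an end of the bond. -/
theorem bond_cor {g p q r : ℤ × ℤ} (hb : Bond η {g} p q) (hr : IsCor g r) (h2 : par r = par p) :
    r = p ∨ r = q := by
  obtain ⟨x, y, hxy, h⟩ := hb
  rw [Set.mem_singleton_iff] at hxy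
  subst hxy
  obtain ⟨r1, r2⟩ := r
  unfold IsCor at hr
  simp only at hr
  unfold par at h2
  rcases h with ⟨-, (⟨rfl, rfl⟩ | ⟨rfl, rfl⟩)⟩ | ⟨-, (⟨rfl, rfl⟩ | ⟨rfl, rfl⟩)⟩ <;>
    simp only [Prod.mk.injEq] at h2 ⊢ <;> omega

theorem par_two {t : UE} {u v : ℤ × ℤ} (h : Joins t u v) (k : ℤ) (hk : k = 0 ∨ k = 1) :
    k = par u ∨ k = par v := by
  have h1 := h.par_ne
  have h4 := par_cases u
  have h5 := par_cases v
  omega

end ZBaux

open ZBaux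

theorem Sec.sub (η : Cfg) (D₀ : Set (ℤ × ℤ)) (t₁ t₂ : UE) :
    SS η D₀ t₁ ∪ SS η D₀ t₂ ⊆ D₀ := Set.union_subset SS_sub SS_sub

theorem Sec.isPot₁ (H : Sec η D₀ t₁ t₂ u₁ v₁ u₂ v₂ Φ₁ Φ₂) :
    IsPot (SS η D₀ t₁ ∪ SS η D₀ t₂) (MM η (SS η D₀ t₁ ∪ SS η D₀ t₂) t₁) Φ₁ :=
  isPot_of Set.subset_union_left (Sec.sub η D₀ t₁ t₂) H.pot₁

theorem Sec.isPot₂ (H : Sec η D₀ t₁ t₂ u₁ v₁ u₂ v₂ Φ₁ Φ₂) :
    IsPot (SS η D₀ t₁ ∪ SS η D₀ t₂) (MM η (SS η D₀ t₁ ∪ SS η D₀ t₂) t₂) Φ₂ :=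
  isPot_of Set.subset_union_right (Sec.sub η D₀ t₁ t₂) H.pot₂

theorem Sec.side₁ (H : Sec η D₀ t₁ t₂ u₁ v₁ u₂ v₂ Φ₁ Φ₂) :
    ∃ f ∈ SS η D₀ t₁ ∪ SS η D₀ t₂, IsSide f t₁ := by
  obtain ⟨f, hf, hs⟩ := H.s₁
  exact ⟨f, Or.inl ⟨hf, t₁, mem_MM_self, hs⟩, hs⟩

theorem Sec.side₂ (H : Sec η D₀ t₁ t₂ u₁ v₁ u₂ v₂ Φ₁ Φ₂) :
    ∃ f ∈ SS η D₀ t₁ ∪ SS η D₀ t₂, IsSide f t₂ := by
  obtain ⟨f, hf, hs⟩ := H.s₂
  exact ⟨f, Or.inr ⟨hf, t₂, mem_MM_self, hs⟩, hs⟩

theorem Sec.par_v (H : Sec η D₀ t₁ t₂ u₁ v₁ u₂ v₂ Φ₁ Φ₂) : par v₁ = par v₂ := by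
  have h1 := H.j₁.par_ne
  have h2 := H.j₂.par_ne
  have h3 := H.par_u
  have h4 := par_cases u₁
  have h5 := par_cases v₁
  have h6 := par_cases u₂
  have h7 := par_cases v₂
  omega

theorem ZBaux.mm_symm_not {t t' : UE} (h : t' ∉ MM η D₀ t) : t ∉ MM η D₀ t' := by
  intro h'
  have key : ∀ x, x ∈ MM η D₀ t' → t' ∈ MM η D₀ x := by
    intro x hx
    change Relation.ReflTransGen _ t' x at hx
    change Relation.ReflTransGen _ x t'
    induction hx with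
    | refl => exact Relation.ReflTransGen.refl
    | tail _ hs ih =>
      obtain ⟨f, hf, hm⟩ := hs
      exact Relation.ReflTransGen.head ⟨f, hf, hm.symm⟩ ih
  exact h (key t h')

theorem Sec.swap (H : Sec η D₀ t₁ t₂ u₁ v₁ u₂ v₂ Φ₁ Φ₂) :
    Sec η D₀ t₂ t₁ u₂ v₂ u₁ v₁ Φ₂ Φ₁ where
  j₁ := H.j₂
  j₂ := H.j₁
  par_u := H.par_u.symm
  s₁ := H.s₂
  s₂ := H.s₁
  ne := mm_symm_not H.ne
  pot₁ := by rw [Set.union_comm]; exact H.pot₂
  pot₂ := by rw [Set.union_comm]; exact H.pot₁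
  v₁₁ := H.v₂₂
  v₂₁ := H.v₁₂
  v₁₂ := H.v₂₁
  v₂₂ := H.v₁₁

theorem Sec.ss₁ (η : Cfg) (D₀ : Set (ℤ × ℤ)) (t₁ t₂ : UE) :
    SS η (SS η D₀ t₁ ∪ SS η D₀ t₂) t₁ = SS η D₀ t₁ :=
  ss_vis Set.subset_union_left (Sec.sub η D₀ t₁ t₂)

theorem Sec.ss₂ (η : Cfg) (D₀ : Set (ℤ × ℤ)) (t₁ t₂ : UE) :
    SS η (SS η D₀ t₁ ∪ SS η D₀ t₂) t₂ = SS η D₀ t₂ :=
  ss_vis Set.subset_union_right (Sec.sub η D₀ t₁ t₂)

/-- A corner of a face visited by the first strand, on the side of `v₁`. -/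
theorem Sec.cor₁ (H : Sec η D₀ t₁ t₂ u₁ v₁ u₂ v₂ Φ₁ Φ₂) (hf : f ∈ SS η D₀ t₁)
    (hq : IsCor f q) (hp : par q = par v₁) (h : Φ₁ q = 1) : Conn η (SS η D₀ t₁) v₁ q := by
  have := H.isPot₁.ss_conn H.j₁.symm H.side₁ (by rw [Sec.ss₁]; exact hf) hq hp
    (by rw [h, H.v₁₁])
  rwa [Sec.ss₁] at this

theorem Sec.cor₂ (H : Sec η D₀ t₁ t₂ u₁ v₁ u₂ v₂ Φ₁ Φ₂) (hf : f ∈ SS η D₀ t₂)
    (hq : IsCor f q) (hp : par q = par v₂) (h : Φ₂ q = 1) : Conn η (SS η D₀ t₂) v₂ q :=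
  H.swap.cor₁ hf hq hp h

theorem Sec.Φu₁ (H : Sec η D₀ t₁ t₂ u₁ v₁ u₂ v₂ Φ₁ Φ₂) : Φ₁ u₁ = 0 := by
  have h := H.isPot₁.ne H.j₁ H.side₁
  rw [H.v₁₁] at h
  rcases z2_cases (Φ₁ u₁) with h1 | h1
  · exact h1
  · exact absurd h1 h

/-- The potential of the second strand at the ends of the first one. -/
theorem Sec.Φu₂₁ (H : Sec η D₀ t₁ t₂ u₁ v₁ u₂ v₂ Φ₁ Φ₂) : Φ₂ u₁ = 0 := by
  obtain ⟨f, hf, hs⟩ := H.side₁
  have h := H.isPot₂.joins hf hs H.j₁
  rw [mm_vis Set.subset_union_right (Sec.sub η D₀ t₁ t₂)] at h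
  have h2 : Φ₂ u₁ = Φ₂ v₁ := by
    by_contra hne
    exact mm_symm_not H.ne (h.2 hne)
  rw [h2, H.v₂₁]

/-- On a face visited by the first strand there is a corner of the colour of `v₁` with the values
of `v₁`, joined to `v₁`, and a corner of the colour of `u₁` with the values `0`. -/
theorem Sec.mark₁ (H : Sec η D₀ t₁ t₂ u₁ v₁ u₂ v₂ Φ₁ Φ₂) (hf : f ∈ SS η D₀ t₁) :
    ∃ r s, IsCor f r ∧ IsCor f s ∧ par r = par v₁ ∧ par s = par u₁ ∧ Φ₁ r = 1 ∧ Φ₂ r = 0 ∧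
      Φ₁ s = 0 ∧ Φ₂ s = 0 ∧ Conn η (SS η D₀ t₁) v₁ r ∧ Conn η (SS η D₀ t₁) u₁ s := by
  obtain ⟨hfD, a, ha, hside⟩ := hf
  obtain ⟨r, s, hj, hr, hc⟩ := MM_conn H.j₁.symm ha
  obtain ⟨s', r', hj', hs', hc'⟩ := MM_conn H.j₁ ha
  obtain ⟨rfl, rfl⟩ := hj.symm.of_par hj' (by
    have h1 := hj.par_ne
    have h2 := H.j₁.par_ne
    have h3 := par_cases r
    have h4 := par_cases s
    have h5 := par_cases u₁
    have h6 := par_cases v₁
    omega)
  have e1 : ∀ {x y}, Conn η (SS η D₀ t₁) x y → Conn η (SS η D₀ t₁ ∪ SS η D₀ t₂) x y :=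
    fun h => h.mono Set.subset_union_left
  refine ⟨r, s, hside.cor_left hj, hside.cor_left hj.symm, hr, hs', ?_, ?_, ?_, ?_, hc, hc'⟩
  · rw [← H.isPot₁.conn (e1 hc), H.v₁₁]
  · rw [← H.isPot₂.conn (e1 hc), H.v₂₁]
  · rw [← H.isPot₁.conn (e1 hc'), H.Φu₁]
  · rw [← H.isPot₂.conn (e1 hc'), H.Φu₂₁]

/-- The second potential is constant on a face which the second strand does not visit. -/
theorem Sec.fresh₂ (H : Sec η D₀ t₁ t₂ u₁ v₁ u₂ v₂ Φ₁ Φ₂) (hf : f ∈ SS η D₀ t₁ ∪ SS η D₀ t₂)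
    (hf2 : f ∉ SS η D₀ t₂) (hp : IsCor f p) (hq : IsCor f q) : Φ₂ p = Φ₂ q :=
  H.isPot₂.fresh hf (by rw [Sec.ss₂]; exact hf2) hp hq

theorem Sec.fresh₁ (H : Sec η D₀ t₁ t₂ u₁ v₁ u₂ v₂ Φ₁ Φ₂) (hf : f ∈ SS η D₀ t₁ ∪ SS η D₀ t₂)
    (hf1 : f ∉ SS η D₀ t₁) (hp : IsCor f p) (hq : IsCor f q) : Φ₁ p = Φ₁ q :=
  H.isPot₁.fresh hf (by rw [Sec.ss₁]; exact hf1) hp hq

/-- A D corner of a visited face on the D side is a D mark of the first or of the second strand. -/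
theorem Sec.marksD (H : Sec η D₀ t₁ t₂ u₁ v₁ u₂ v₂ Φ₁ Φ₂)
    (hf : f ∈ SS η D₀ t₁ ∪ SS η D₀ t₂) (hq : IsCor f q) (hp : par q = par v₁)
    (h : Φ₁ q + Φ₂ q = 1) :
    (Φ₁ q = 1 ∧ Φ₂ q = 0 ∧ Conn η (SS η D₀ t₁) v₁ q) ∨
      (Φ₁ q = 0 ∧ Φ₂ q = 1 ∧ Conn η (SS η D₀ t₂) v₂ q) := by
  have key : ∀ {D₀ : Set (ℤ × ℤ)} {t₁ t₂ : UE} {u₁ v₁ u₂ v₂ : ℤ × ℤ} {Φ₁ Φ₂ : ℤ × ℤ → ZMod 2}
      (H : Sec η D₀ t₁ t₂ u₁ v₁ u₂ v₂ Φ₁ Φ₂) (hf : f ∈ SS η D₀ t₁ ∪ SS η D₀ t₂)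
      (hp : par q = par v₁) (h1 : Φ₁ q = 1) (h2 : Φ₂ q = 0), Conn η (SS η D₀ t₁) v₁ q := by
    intro D₀ t₁ t₂ u₁ v₁ u₂ v₂ Φ₁ Φ₂ H hf hp h1 h2
    by_cases hf1 : f ∈ SS η D₀ t₁
    · exact H.cor₁ hf1 hq hp h1
    · exfalso
      have hf2 : f ∈ SS η D₀ t₂ := hf.resolve_left hf1
      obtain ⟨r, s, hr, hs, -, -, h3, h4, -⟩ := H.swap.mark₁ hf2
      have := H.fresh₁ hf hf1 hq hr
      rw [h1, h4] at this
      exact absurd this (by decide)
  rcases z2_cases (Φ₁ q) with h1 | h1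
  · have h2 : Φ₂ q = 1 := by rw [h1, zero_add] at h; exact h
    right
    exact ⟨h1, h2, key H.swap (by rw [Set.union_comm]; exact hf) (hp.trans H.par_v) h2 h1⟩
  · have h2 : Φ₂ q = 0 := by
      rcases z2_cases (Φ₂ q) with h2 | h2
      · exact h2
      · rw [h1, h2] at h
        exact absurd h (by decide)
    left
    exact ⟨h1, h2, key H hf hp h1 h2⟩

/-- A P corner of a visited face on the P side. -/
theorem Sec.marksP (H : Sec η D₀ t₁ t₂ u₁ v₁ u₂ v₂ Φ₁ Φ₂)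
    (hf : f ∈ SS η D₀ t₁ ∪ SS η D₀ t₂) (hq : IsCor f q) (hp : par q = par u₁)
    (h : Φ₁ q + Φ₂ q = 0) :
    Conn η (SS η D₀ t₁) u₁ q ∨ Conn η (SS η D₀ t₂) u₂ q := by
  have key : ∀ {D₀ : Set (ℤ × ℤ)} {t₁ t₂ : UE} {u₁ v₁ u₂ v₂ : ℤ × ℤ} {Φ₁ Φ₂ : ℤ × ℤ → ZMod 2}
      (H : Sec η D₀ t₁ t₂ u₁ v₁ u₂ v₂ Φ₁ Φ₂) (hf : f ∈ SS η D₀ t₁)
      (hp : par q = par u₁) (h : Φ₁ q + Φ₂ q = 0), Conn η (SS η D₀ t₁) u₁ q := by
    intro D₀ t₁ t₂ u₁ v₁ u₂ v₂ Φ₁ Φ₂ H hf hp h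
    have hV : f ∈ SS η D₀ t₁ ∪ SS η D₀ t₂ := Or.inl hf
    rcases z2_cases (Φ₁ q) with h1 | h1
    · have := H.isPot₁.ss_conn H.j₁ H.side₁ (by rw [Sec.ss₁]; exact hf) hq hp
        (by rw [h1, H.Φu₁])
      rwa [Sec.ss₁] at this
    · exfalso
      have h2 : Φ₂ q = 1 := by
        rcases z2_cases (Φ₂ q) with h2 | h2
        · rw [h1, h2] at h
          exact absurd h (by decide)
        · exact h2
      obtain ⟨r, s, hr, hs, hpr, hps, h3, h4, h5, h6, -⟩ := H.mark₁ hf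
      -- the face is visited by the second strand
      by_cases hf2 : f ∈ SS η D₀ t₂
      · obtain ⟨r', s', hr', hs', hpr', hps', h3', h4', h5', h6', -⟩ := H.swap.mark₁ hf2
        obtain ⟨a, b, hb⟩ := exists_bond η f
        have hbV : Bond η (SS η D₀ t₁ ∪ SS η D₀ t₂) a b := hb.of_single hV
        have hab := H.isPot₁.bond hbV
        rcases ZBaux.par_two H.j₁ (par a) (par_cases a) with hpa | hpa
        · have h7 : Φ₁ q = Φ₁ a := by
            rcases bond_cor hb hq (hp.trans hpa.symm) with rfl | rfl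
            · rfl
            · exact hab.symm
          have h8 : Φ₁ s = Φ₁ a := by
            rcases bond_cor hb hs (hps.trans hpa.symm) with rfl | rfl
            · rfl
            · exact hab.symm
          rw [← h8, h1, h5] at h7
          exact absurd h7 (by decide)
        · have h7 : Φ₁ r = Φ₁ a := by
            rcases bond_cor hb hr (hpr.trans hpa.symm) with rfl | rfl
            · rfl
            · exact hab.symm
          have h8 : Φ₁ r' = Φ₁ a := by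
            rcases bond_cor hb hr' (hpr'.trans (H.par_v.symm.trans hpa.symm)) with rfl | rfl
            · rfl
            · exact hab.symm
          rw [← h8, h3, h4'] at h7
          exact absurd h7 (by decide)
      · have := H.fresh₂ hV hf2 hq hs
        rw [h2, h6] at this
        exact absurd this (by decide)
  rcases hf with hf | hf
  · exact Or.inl (key H hf hp h)
  · exact Or.inr (key H.swap hf (hp.trans H.par_u) (by rw [add_comm]; exact h))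

/-- Landing of a D path next to the first strand. -/
theorem Sec.landD₁ (H : Sec η D₀ t₁ t₂ u₁ v₁ u₂ v₂ Φ₁ Φ₂)
    (hξ : ∀ f ∈ G, f ∉ SS η D₀ t₁ ∪ SS η D₀ t₂ → η f = ξ f)
    (hΦ : ∀ f ∈ G, f ∉ SS η D₀ t₁ ∪ SS η D₀ t₂ → ∀ p q, IsCor f p → IsCor f q →
      Φ₁ p = Φ₁ q ∧ Φ₂ p = Φ₂ q)
    (hc : Conn ξ G p q) (hp : par p = par v₁) (h1 : Φ₁ p = 1) (h2 : Φ₂ p = 0)
    (h3 : Φ₁ q + Φ₂ q = 0) : Conn η (G ∪ SS η D₀ t₁) p v₁ := by
  have key : ∀ r, Conn ξ G p r →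
      ((Φ₁ r = 1 ∧ Φ₂ r = 0) ∧ Conn η (G ∪ SS η D₀ t₁) p r) ∨
        Conn η (G ∪ SS η D₀ t₁) p v₁ := by
    intro r hr
    induction hr with
    | refl => exact Or.inl ⟨⟨h1, h2⟩, Relation.ReflTransGen.refl⟩
    | tail hc hb ih =>
      rename_i r r'
      rcases ih with ⟨⟨h4, h5⟩, h6⟩ | h
      · obtain ⟨g, hg, hbg, hcr, hcr'⟩ := hb.exists_face
        by_cases hV : g ∈ SS η D₀ t₁ ∪ SS η D₀ t₂
        · right
          have hpr : par r = par v₁ := by rw [← Conn.par_eq hc]; exact hp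
          rcases H.marksD hV hcr hpr (by rw [h4, h5, add_zero]) with h7 | h7
          · exact h6.trans ((conn_symm h7.2.2).mono Set.subset_union_right)
          · rw [h4] at h7
            exact absurd h7.1 (by decide)
        · left
          obtain ⟨h7, h8⟩ := hΦ g hg hV r r' hcr hcr'
          exact ⟨⟨by rw [← h7, h4], by rw [← h8, h5]⟩,
            h6.tail ((Bond.congr (hξ g hg hV).symm hbg).of_single (Or.inl hg))⟩
      · exact Or.inr h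
  rcases key q hc with ⟨⟨h4, h5⟩, -⟩ | h
  · rw [h4, h5] at h3
    exact absurd h3 (by decide)
  · exact h

/-- Landing of a D path next to the second strand. -/
theorem Sec.landD₂ (H : Sec η D₀ t₁ t₂ u₁ v₁ u₂ v₂ Φ₁ Φ₂)
    (hξ : ∀ f ∈ G, f ∉ SS η D₀ t₁ ∪ SS η D₀ t₂ → η f = ξ f)
    (hΦ : ∀ f ∈ G, f ∉ SS η D₀ t₁ ∪ SS η D₀ t₂ → ∀ p q, IsCor f p → IsCor f q →
      Φ₁ p = Φ₁ q ∧ Φ₂ p = Φ₂ q)
    (hc : Conn ξ G p q) (hp : par p = par v₁) (h1 : Φ₁ p = 0) (h2 : Φ₂ p = 1)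
    (h3 : Φ₁ q + Φ₂ q = 0) : Conn η (G ∪ SS η D₀ t₂) p v₂ :=
  H.swap.landD₁ (by rw [Set.union_comm]; exact hξ)
    (by
      rw [Set.union_comm]
      exact fun f hf hf' p q hp hq => (hΦ f hf hf' p q hp hq).symm)
    hc (hp.trans H.par_v) h2 h1 (by rw [add_comm]; exact h3)

/-- Landing of a P path. -/
theorem Sec.landP (H : Sec η D₀ t₁ t₂ u₁ v₁ u₂ v₂ Φ₁ Φ₂)
    (hξ : ∀ f ∈ G, f ∉ SS η D₀ t₁ ∪ SS η D₀ t₂ → η f = ξ f)
    (hΦ : ∀ f ∈ G, f ∉ SS η D₀ t₁ ∪ SS η D₀ t₂ → ∀ p q, IsCor f p → IsCor f q →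
      Φ₁ p + Φ₂ p = Φ₁ q + Φ₂ q)
    (hc : Conn ξ G p q) (hp : par p = par u₁) (h1 : Φ₁ p + Φ₂ p = 0) (h3 : Φ₁ q + Φ₂ q = 1) :
    Conn η (G ∪ SS η D₀ t₁) p u₁ ∨ Conn η (G ∪ SS η D₀ t₂) p u₂ := by
  have key : ∀ r, Conn ξ G p r →
      (Φ₁ r + Φ₂ r = 0 ∧ Conn η G p r) ∨
        (Conn η (G ∪ SS η D₀ t₁) p u₁ ∨ Conn η (G ∪ SS η D₀ t₂) p u₂) := by
    intro r hr
    induction hr with
    | refl => exact Or.inl ⟨h1, Relation.ReflTransGen.refl⟩
    | tail hc hb ih =>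
      rename_i r r'
      rcases ih with ⟨h4, h6⟩ | h
      · obtain ⟨g, hg, hbg, hcr, hcr'⟩ := hb.exists_face
        by_cases hV : g ∈ SS η D₀ t₁ ∪ SS η D₀ t₂
        · right
          have hpr : par r = par u₁ := by rw [← Conn.par_eq hc]; exact hp
          rcases H.marksP hV hcr hpr h4 with h7 | h7
          · exact Or.inl ((h6.mono Set.subset_union_left).trans
              ((conn_symm h7).mono Set.subset_union_right))
          · exact Or.inr ((h6.mono Set.subset_union_left).trans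
              ((conn_symm h7).mono Set.subset_union_right))
        · left
          exact ⟨by rw [← hΦ g hg hV r r' hcr hcr', h4],
            h6.tail ((Bond.congr (hξ g hg hV).symm hbg).of_single hg)⟩
      · exact Or.inr h
  rcases key q hc with ⟨h4, -⟩ | h
  · rw [h4] at h3
    exact absurd h3 (by decide)
  · exact h

/-- A D path between two vertices on the P side with different values of `Θ` joins the D sides of
the two strands: `Θ` changes only together with `Φ₁`, on faces with `Φ₁ + Φ₂ = 1`, which are not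
visited (the faces of the corridor). Invariant: `Θ` on the P side, `Θ + Φ₁ + [the current D cluster
is that of the first strand]` on the D side. -/
theorem Sec.ringD (H : Sec η D₀ t₁ t₂ u₁ v₁ u₂ v₂ Φ₁ Φ₂)
    (hξ : ∀ f ∈ G, f ∉ SS η D₀ t₁ ∪ SS η D₀ t₂ → η f = ξ f)
    (hΦ : ∀ f ∈ G, f ∉ SS η D₀ t₁ ∪ SS η D₀ t₂ → ∀ p q, IsCor f p → IsCor f q →
      Φ₁ p + Φ₂ p = Φ₁ q + Φ₂ q ∧ Θ p + Φ₁ p = Θ q + Φ₁ q ∧ (Φ₁ p + Φ₂ p = 0 → Θ p = Θ q))
    (hΘ : ∀ f ∈ G, f ∈ SS η D₀ t₁ ∪ SS η D₀ t₂ → ∀ p q, IsCor f p → IsCor f q → Θ p = Θ q)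
    (hc : Conn ξ G p q) (hp : par p = par v₁) (h1 : Φ₁ p + Φ₂ p = 0) (h3 : Φ₁ q + Φ₂ q = 0)
    (hne : Θ p ≠ Θ q) : Conn η (G ∪ (SS η D₀ t₁ ∪ SS η D₀ t₂)) v₁ v₂ := by
  set W : Set (ℤ × ℤ) := G ∪ (SS η D₀ t₁ ∪ SS η D₀ t₂) with hW
  have m1 : SS η D₀ t₁ ⊆ W := fun x hx => Or.inr (Or.inl hx)
  have m2 : SS η D₀ t₂ ⊆ W := fun x hx => Or.inr (Or.inr hx)
  -- a corner of a visited face with the old value of `Θ`
  have arr : ∀ {g r' : ℤ × ℤ}, g ∈ SS η D₀ t₁ ∪ SS η D₀ t₂ → IsCor g r' → par r' = par v₁ →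
      Θ r' = Θ p → Conn η W v₁ v₂ ∨
        (Φ₁ r' + Φ₂ r' = 0 ∧ Θ r' = Θ p) ∨
        (Φ₁ r' + Φ₂ r' = 1 ∧ Conn η W v₁ r' ∧ Θ r' + Φ₁ r' + 1 = Θ p) ∨
        (Φ₁ r' + Φ₂ r' = 1 ∧ Conn η W v₂ r' ∧ Θ r' + Φ₁ r' = Θ p) := by
    intro g r' hV hcr' hpr' hθ
    right
    rcases z2_cases (Φ₁ r' + Φ₂ r') with h | h
    · exact Or.inl ⟨h, hθ⟩
    · rcases H.marksD hV hcr' hpr' h with h4 | h4
      · right; left
        refine ⟨h, h4.2.2.mono m1, ?_⟩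
        rw [h4.1, hθ, add_assoc]
        rw [show (1 : ZMod 2) + 1 = 0 from by decide, add_zero]
      · right; right
        refine ⟨h, h4.2.2.mono m2, ?_⟩
        rw [h4.1, hθ, add_zero]
  have key : ∀ r, Conn ξ G p r → Conn η W v₁ v₂ ∨
      (Φ₁ r + Φ₂ r = 0 ∧ Θ r = Θ p) ∨
      (Φ₁ r + Φ₂ r = 1 ∧ Conn η W v₁ r ∧ Θ r + Φ₁ r + 1 = Θ p) ∨
      (Φ₁ r + Φ₂ r = 1 ∧ Conn η W v₂ r ∧ Θ r + Φ₁ r = Θ p) := by
    intro r hr
    induction hr with
    | refl => exact Or.inr (Or.inl ⟨h1, rfl⟩)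
    | tail hc hb ih =>
      rename_i r r'
      obtain ⟨g, hg, hbg, hcr, hcr'⟩ := hb.exists_face
      have hpr : par r = par v₁ := by rw [← Conn.par_eq hc]; exact hp
      have hpr' : par r' = par v₁ := by rw [← hb.par_eq]; exact hpr
      by_cases hV : g ∈ SS η D₀ t₁ ∪ SS η D₀ t₂
      · have hθ := hΘ g hg hV r r' hcr hcr'
        rcases ih with h | ⟨h4, h5⟩ | ⟨h4, h5, h6⟩ | ⟨h4, h5, h6⟩
        · exact Or.inl h
        · exact arr hV hcr' hpr' (hθ.symm.trans h5)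
        · rcases H.marksD hV hcr hpr h4 with h7 | h7
          · apply arr hV hcr' hpr'
            rw [h7.1, add_assoc, show (1 : ZMod 2) + 1 = 0 from by decide, add_zero] at h6
            exact hθ.symm.trans h6
          · left
            exact h5.trans (conn_symm (h7.2.2.mono m2))
        · rcases H.marksD hV hcr hpr h4 with h7 | h7
          · left
            exact (h7.2.2.mono m1).trans (conn_symm h5)
          · apply arr hV hcr' hpr'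
            rw [h7.1, add_zero] at h6
            exact hθ.symm.trans h6
      · obtain ⟨h7, h8, h9⟩ := hΦ g hg hV r r' hcr hcr'
        have hb' : Bond η W r r' := (Bond.congr (hξ g hg hV).symm hbg).of_single (Or.inl hg)
        rcases ih with h | ⟨h4, h5⟩ | ⟨h4, h5, h6⟩ | ⟨h4, h5, h6⟩
        · exact Or.inl h
        · right; left
          exact ⟨by rw [← h7, h4], by rw [← h9 h4, h5]⟩
        · right; right; left
          exact ⟨by rw [← h7, h4], h5.tail hb', by rw [← h8, h6]⟩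
        · right; right; right
          exact ⟨by rw [← h7, h4], h5.tail hb', by rw [← h8, h6]⟩
  rcases key q hc with h | ⟨-, h5⟩ | ⟨h4, -⟩ | ⟨h4, -⟩
  · exact h
  · exact absurd h5.symm hne
  · rw [h3] at h4
    exact absurd h4 (by decide)
  · rw [h3] at h4
    exact absurd h4 (by decide)

end Pool.Agent.Occ

end PartoccZB

section PartoccZC

/-!
# Row ZC: the potentials in the window
-/

set_option autoImplicit false

namespace Pool.Agent.Occ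

open Finset Pool.Agent.Perc Pool.Agent.Perc3 Pool.Agent.PercD

variable {g : Par} {ω η : Cfg} {ya yb : ℤ} {a₁ a₂ : ℤ × ℤ} {x₁ x₂ : UE} {k₁ k₂ kk : ℤ}
  {l₁ l₂ lk : List (ℤ × ℤ)} {S : Set (ℤ × ℤ)} {X₀ X₁ Y₀ Y₁ : ℤ} {Φ₁ Φ₂ : ℤ × ℤ → ZMod 2}

namespace ZCAux

/-! ### Potentials along lines -/

theorem side_h {f : ℤ × ℤ} {x y : ℤ} : IsSide f (x, y, false) ↔ f.1 = x ∧ (f.2 = y ∨ f.2 = y - 1) := by
  obtain ⟨u, v⟩ := f
  unfold IsSide bo le' to' ri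
  simp only [Prod.mk.injEq, and_false, and_true, or_false, false_or, reduceCtorEq]
  omega

theorem side_v {f : ℤ × ℤ} {x y : ℤ} : IsSide f (x, y, true) ↔ f.2 = y ∧ (f.1 = x ∨ f.1 = x - 1) := by
  obtain ⟨u, v⟩ := f
  unfold IsSide bo le' to' ri
  simp only [Prod.mk.injEq, and_false, and_true, false_or, reduceCtorEq]
  omega

variable {c : Co} {Φ : ℤ × ℤ → ZMod 2}

theorem pot_h (h : PotC (RF X₀ X₁ Y₀ Y₁) c Φ) (hY : Y₀ < Y₁) {x y : ℤ} (h1 : X₀ ≤ x) (h2 : x < X₁)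
    (h3 : Y₀ ≤ y) (h4 : y ≤ Y₁) : Φ (x + 1, y) = Φ (x, y) + c (x, y, false) := by
  rcases h4.lt_or_eq with h5 | h5
  · have := h (x, y) (mem_RF'.2 ⟨h1, h2, h3, h5⟩) (x, y, false) (side_h.2 ⟨rfl, Or.inl rfl⟩)
    rwa [ub_false, ua_mk] at this
  · have := h (x, y - 1) (mem_RF'.2 ⟨h1, h2, by dsimp only; omega, by dsimp only; omega⟩)
      (x, y, false) (side_h.2 ⟨rfl, Or.inr rfl⟩)
    rwa [ub_false, ua_mk] at this

theorem pot_v (h : PotC (RF X₀ X₁ Y₀ Y₁) c Φ) (hX : X₀ < X₁) {x y : ℤ} (h1 : X₀ ≤ x) (h2 : x ≤ X₁)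
    (h3 : Y₀ ≤ y) (h4 : y < Y₁) : Φ (x, y + 1) = Φ (x, y) + c (x, y, true) := by
  rcases h2.lt_or_eq with h5 | h5
  · have := h (x, y) (mem_RF'.2 ⟨h1, h5, h3, h4⟩) (x, y, true) (side_v.2 ⟨rfl, Or.inl rfl⟩)
    rwa [ub_true, ua_mk] at this
  · have := h (x - 1, y) (mem_RF'.2 ⟨by dsimp only; omega, by dsimp only; omega, h3, h4⟩)
      (x, y, true) (side_v.2 ⟨rfl, Or.inr rfl⟩)
    rwa [ub_true, ua_mk] at this

/-- The potential is constant along a horizontal line which is not crossed. -/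
theorem line_h (h : PotC (RF X₀ X₁ Y₀ Y₁) c Φ) (hY : Y₀ < Y₁) {x x' y : ℤ} (h1 : X₀ ≤ x)
    (hx : x ≤ x') (h2 : x' ≤ X₁) (h3 : Y₀ ≤ y) (h4 : y ≤ Y₁)
    (hc : ∀ t, x ≤ t → t < x' → c (t, y, false) = 0) : Φ (x', y) = Φ (x, y) := by
  induction x', hx using Int.leInduction with
  | base => rfl
  | succ t ht ih =>
    rw [pot_h h hY (by omega) (by omega) h3 h4, hc t ht (by omega), add_zero]
    exact ih (by omega) fun s hs hs' => hc s hs (by omega)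

theorem line_v (h : PotC (RF X₀ X₁ Y₀ Y₁) c Φ) (hX : X₀ < X₁) {x y y' : ℤ} (h1 : X₀ ≤ x)
    (h2 : x ≤ X₁) (h3 : Y₀ ≤ y) (hy : y ≤ y') (h4 : y' ≤ Y₁)
    (hc : ∀ t, y ≤ t → t < y' → c (x, t, true) = 0) : Φ (x, y') = Φ (x, y) := by
  induction y', hy using Int.leInduction with
  | base => rfl
  | succ t ht ih =>
    rw [pot_v h hX h1 h2 (by omega) (by omega), hc t ht (by omega), add_zero]
    exact ih (by omega) fun s hs hs' => hc s hs (by omega)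

theorem z2_add {a b : ZMod 2} (h : 0 = a + b) : a = b := by revert a b; decide

/-- The values of a potential with the crossings `t₁` on the right side and `t₂` on the left side. -/
theorem values {w A t : ℤ} {t₁ t₂ : ZMod 2} (h : PotC (RF X₀ X₁ Y₀ Y₁) c Φ) (hA : 100 ≤ A)
    (hw : 100 * A ≤ w) (w1 : X₀ ≤ -(w + 4 * A)) (w2 : w + 4 * A ≤ X₁) (w3 : Y₀ ≤ -(w + 4 * A))
    (w4 : w + 4 * A ≤ Y₁) (ya1 : 0 ≤ ya) (ya2 : ya < w) (yb1 : 0 ≤ yb) (yb2 : yb < w)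
    (ht : t = 0) (h0 : Φ (X₀, Y₁) = 0)
    (h1 : ∀ x, X₀ ≤ x → x < X₁ → c (x, Y₁, false) = 0)
    (h2 : ∀ y, ya < y → y < Y₁ → c (w + 2 * A, y, true) = 0)
    (h3 : ∀ x, w ≤ x → x < w + 2 * A → c (x, ya + 1, false) = 0)
    (h4 : c (w, ya, true) = t₁)
    (h2' : ∀ y, yb < y → y < Y₁ → c (-(w + 2 * A), y, true) = 0)
    (h3' : ∀ x, -(w + 2 * A) ≤ x → x < -(w + 2) → c (x, yb + 1, false) = 0)
    (h4' : c (-(w + 2), yb, true) = t₂)
    (h5 : ∀ y, Y₀ ≤ y → y < Y₁ → c (X₁, y, true) = if y = ya then t₁ else 0)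
    (h5' : ∀ y, Y₀ ≤ y → y < Y₁ → c (X₀, y, true) = if y = yb then t₂ else 0)
    (h6 : ∀ x, X₀ ≤ x → x < X₁ → x ≠ t → c (x, Y₀, false) = 0)
    (h7 : ∀ x, 1 ≤ x → x < X₁ → c (x, -(w + A), false) = 0) :
    (∀ x, X₀ ≤ x → x ≤ X₁ → Φ (x, Y₁) = 0) ∧
    (∀ y, ya < y → y ≤ Y₁ → Φ (w + 2 * A, y) = 0) ∧
    (∀ y, yb < y → y ≤ Y₁ → Φ (-(w + 2 * A), y) = 0) ∧
    Φ (w, ya) = t₁ ∧ Φ (-(w + 2), yb) = t₂ ∧
    (∀ x, 1 ≤ x → x ≤ X₁ → Φ (x, Y₀) = t₁) ∧
    (∀ x, X₀ ≤ x → x ≤ 0 → Φ (x, Y₀) = t₂) ∧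
    (∀ x, 1 ≤ x → x ≤ X₁ → Φ (x, -(w + A)) = t₁) := by
  have hX : X₀ < X₁ := by omega
  have hY : Y₀ < Y₁ := by omega
  have top : ∀ x, X₀ ≤ x → x ≤ X₁ → Φ (x, Y₁) = 0 := fun x hx hx' => by
    rw [line_h h hY (x := X₀) le_rfl hx hx' hY.le le_rfl fun t ht ht' => h1 t ht (by omega), h0]
  have right : ∀ y, ya < y → y ≤ Y₁ → Φ (w + 2 * A, y) = 0 := fun y hy hy' => by
    rw [← line_v h hX (x := w + 2 * A) (y := y) (y' := Y₁) (by omega) (by omega) (by omega) hy'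
      le_rfl fun t ht ht' => h2 t (by omega) ht', top _ (by omega) (by omega)]
  have left : ∀ y, yb < y → y ≤ Y₁ → Φ (-(w + 2 * A), y) = 0 := fun y hy hy' => by
    rw [← line_v h hX (x := -(w + 2 * A)) (y := y) (y' := Y₁) (by omega) (by omega) (by omega) hy'
      le_rfl fun t ht ht' => h2' t (by omega) ht', top _ (by omega) (by omega)]
  have v1 : Φ (w, ya) = t₁ := by
    have e1 := line_h h hY (x := w) (x' := w + 2 * A) (y := ya + 1) (by omega) (by omega)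
      (by omega) (by omega) (by omega) h3
    rw [right _ (by omega) (by omega)] at e1
    have e2 := pot_v h hX (x := w) (y := ya) (by omega) (by omega) (by omega) (by omega)
    rw [← e1, h4] at e2
    exact z2_add e2
  have v2 : Φ (-(w + 2), yb) = t₂ := by
    have e1 := line_h h hY (x := -(w + 2 * A)) (x' := -(w + 2)) (y := yb + 1) (by omega) (by omega)
      (by omega) (by omega) (by omega) h3'
    rw [left _ (by omega) (by omega)] at e1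
    have e2 := pot_v h hX (x := -(w + 2)) (y := yb) (by omega) (by omega) (by omega) (by omega)
    rw [e1, h4'] at e2
    exact z2_add e2
  have rx : ∀ y, Y₀ ≤ y → y ≤ ya → Φ (X₁, y) = t₁ := by
    intro y hy hy'
    have e1 := line_v h hX (x := X₁) (y := ya + 1) (y' := Y₁) (by omega) le_rfl (by omega)
      (by omega) le_rfl fun t ht ht' => by rw [h5 t (by omega) ht', if_neg (by omega)]
    rw [top _ hX.le le_rfl] at e1
    have e2 := pot_v h hX (x := X₁) (y := ya) hX.le le_rfl (by omega) (by omega)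
    rw [← e1, h5 ya (by omega) (by omega), if_pos rfl] at e2
    rw [← line_v h hX (x := X₁) (y := y) (y' := ya) hX.le le_rfl hy hy' (by omega)
      fun t ht ht' => by rw [h5 t (by omega) (by omega), if_neg (by omega)]]
    exact z2_add e2
  have lx : ∀ y, Y₀ ≤ y → y ≤ yb → Φ (X₀, y) = t₂ := by
    intro y hy hy'
    have e1 := line_v h hX (x := X₀) (y := yb + 1) (y' := Y₁) le_rfl hX.le (by omega)
      (by omega) le_rfl fun t ht ht' => by rw [h5' t (by omega) ht', if_neg (by omega)]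
    rw [h0] at e1
    have e2 := pot_v h hX (x := X₀) (y := yb) le_rfl hX.le (by omega) (by omega)
    rw [← e1, h5' yb (by omega) (by omega), if_pos rfl] at e2
    rw [← line_v h hX (x := X₀) (y := y) (y' := yb) le_rfl hX.le hy hy' (by omega)
      fun t ht ht' => by rw [h5' t (by omega) (by omega), if_neg (by omega)]]
    exact z2_add e2
  refine ⟨top, right, left, v1, v2, fun x hx hx' => ?_, fun x hx hx' => ?_, fun x hx hx' => ?_⟩
  · rw [← line_h h hY (x := x) (x' := X₁) (y := Y₀) (by omega) hx' le_rfl le_rfl hY.le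
      fun t ht ht' => h6 t (by omega) ht' (by omega)]
    exact rx _ le_rfl (by omega)
  · rw [line_h h hY (x := X₀) (x' := x) (y := Y₀) le_rfl hx (by omega) le_rfl hY.le
      fun t ht ht' => h6 t (by omega) (by omega) (by omega)]
    exact lx _ le_rfl (by omega)
  · rw [← line_h h hY (x := x) (x' := X₁) (y := -(w + A)) (by omega) hx' le_rfl (by omega)
      (by omega) fun t ht ht' => h7 t (by omega) ht']
    exact rx _ (by omega) (by omega)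

/-! ### The strands -/

theorem mm_side {F : Set (ℤ × ℤ)} {e a : UE} (h : a ∈ MM ω F e) :
    a = e ∨ ∃ f ∈ SS ω F e, IsSide f a := by
  rcases Relation.ReflTransGen.cases_tail h with h1 | ⟨b, h1, f, hf, hm⟩
  · exact Or.inl h1
  · exact Or.inr ⟨f, ⟨hf, b, h1, hm.left⟩, hm.right⟩

/-- Linear facts on the parameters. -/
theorem lin (hg : g.Ok) : 12 ≤ g.n ∧ 8 * g.n ≤ g.σ ∧ 100 * g.σ ≤ g.Ai ∧ g.d + 4 * g.Ai ≤ g.A ∧
    g.R = g.d - g.Ai ∧ 100 * g.Ai ≤ g.d ∧ 100 * g.A ≤ g.w ∧ (g.N + 1) * g.A = g.w + g.A ∧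
    (g.N + 2) * g.A = g.w + 2 * g.A ∧ (g.N + 4) * g.A = g.w + 4 * g.A := by
  obtain ⟨h1, h2, h3, h4, h5, h6⟩ := hg
  have hAi : 0 ≤ g.Ai := by linarith
  have hd : 100 * g.Ai ≤ g.d := by unfold Par.d; nlinarith
  have hA : g.d + 4 * g.Ai ≤ g.A := by
    have : (g.Ni + 4) * g.Ai = g.d + 4 * g.Ai := by unfold Par.d; ring
    linarith
  refine ⟨h3, h4, h5, hA, ?_, hd, ?_, ?_, ?_, ?_⟩
  · unfold Par.R Par.d; ring
  · unfold Par.w
    have : 0 ≤ g.A := by linarith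
    nlinarith
  all_goals unfold Par.w; ring

theorem port (h : (ya, yb) ∈ Ports g.w) : 0 ≤ ya ∧ ya < g.w ∧ g.w ≤ 4 * ya ∧ 2 * ya < g.w ∧
    0 ≤ yb ∧ yb < g.w ∧ g.w ≤ 4 * yb ∧ 2 * yb < g.w ∧ (ya + yb) % 2 = 0 := by
  unfold Ports at h
  rw [mem_filter, mem_product, mem_Ico, mem_Ico] at h
  obtain ⟨⟨⟨a1, a2⟩, a3, a4⟩, a5, a6, a7, a8, a9⟩ := h
  exact ⟨a1, a2, a5, a6, a3, a4, a7, a8, a9⟩

theorem mem_box {l : List (ℤ × ℤ)} {a : ℤ × ℤ} {k : ℤ} (h : InL g S a k l) (hg : g.Ok)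
    {f : ℤ × ℤ} (hf : f ∈ l) : -(g.d + 2 * g.n + 4) ≤ f.1 ∧ f.1 < g.d + 2 * g.n + 4 ∧
      -(g.d + 2 * g.n + 4) ≤ f.2 ∧ f.2 < g.d + 2 * g.n + 4 := by
  obtain ⟨f1, f2, f3, f4, f5, f6, f7, -⟩ := lin hg
  rcases h.loc f hf with h1 | ⟨-, h1⟩
  · have h1' := mem_BR.1 h1
    dsimp only at h1'
    omega
  · have h1' := mem_BR.1 h1
    dsimp only at h1'
    omega

theorem head_mem {l : List (ℤ × ℤ)} {a : ℤ × ℤ} (h : l.head? = some a) : a ∈ l :=
  List.mem_of_mem_head? h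

/-- The face ahead of the inner tip is in the row `k`. -/
theorem outR {l : List (ℤ × ℤ)} {a : ℤ × ℤ} {k : ℤ} {x e : UE} {F : Set (ℤ × ℤ)} (h : InL g S a k l)
    (hg : g.Ok) (hx : x ∈ MM ω F e) (hs : IsSide a x) (he : ¬ IsSide a e) (hS : SS ω F e ⊆ S)
    (hh : ∀ f ∈ S, f ∉ BR (0, 0) (g.d - g.n - 2)) : OutR g.R k a := by
  obtain ⟨f1, f2, f3, f4, f5, f6, f7, -⟩ := lin hg
  rcases h.loc a (head_mem h.head) with h1 | ⟨h1, -⟩
  · exfalso
    rcases mm_side hx with rfl | ⟨f, hf, hfx⟩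
    · exact he hs
    · have h2 := hh f (hS hf)
      rw [mem_BR] at h1 h2
      dsimp only at h1 h2
      obtain ⟨x, y, b⟩ := x
      cases b with
      | true =>
        rw [side_v] at hs hfx
        omega
      | false =>
        rw [side_h] at hs hfx
        omega
  · exact h1

/-- The boundary of a strand. -/
theorem bd_M {F : Set (ℤ × ℤ)} {t x : UE} {a a' p p' f : ℤ × ℤ}
    (hin : ∀ f, f ≠ a → f ≠ a' → f ≠ p → f ≠ p' → f ∈ F) (hx : x ∈ MM ω F t) (hxs : IsSide a x)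
    (ht : IsSide p t)
    (hone : ∀ e f, (f = a ∨ f = a' ∨ f = p ∨ f = p') → IsSide f e → e ∈ MM ω F t →
      (f = a ∧ e = x) ∨ (f = p ∧ e = t))
    (n1 : a ≠ p) (n2 : a' ≠ a) (n3 : a' ≠ p) (n4 : p' ≠ a) (n5 : p' ≠ p) :
    bdC (cM (MM ω F t)) f = ind2 (a = f) + ind2 (p = f) := by
  by_cases h1 : f = a
  · subst h1
    rw [ind2_pos rfl, ind2_neg n1.symm, add_zero]
    refine bdC_cM_one hxs hx fun e he he' => ?_
    rcases hone e f (Or.inl rfl) he he' with h | h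
    · exact h.2
    · exact absurd h.1 n1
  · by_cases h2 : f = p
    · subst h2
      rw [ind2_pos rfl, ind2_neg n1, zero_add]
      refine bdC_cM_one ht mem_MM_self fun e he he' => ?_
      rcases hone e f (Or.inr (Or.inr (Or.inl rfl))) he he' with h | h
      · exact absurd h.1 h1
      · exact h.2
    · rw [ind2_neg (Ne.symm h1), ind2_neg (Ne.symm h2), add_zero]
      by_cases h3 : f = a'
      · subst h3
        refine bdC_cM_zero fun e he he' => ?_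
        rcases hone e f (Or.inr (Or.inl rfl)) he he' with h | h
        · exact h1 h.1
        · exact h2 h.1
      · by_cases h4 : f = p'
        · subst h4
          refine bdC_cM_zero fun e he he' => ?_
          rcases hone e f (Or.inr (Or.inr (Or.inr rfl))) he he' with h | h
          · exact h1 h.1
          · exact h2 h.1
        · exact bdC_cM (hin f h1 h3 h2 h4)

theorem closed {M : Set UE} {l row lk : List (ℤ × ℤ)} {a p o c o' f : ℤ × ℤ} (h1 : IsCh l)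
    (h2 : IsCh row) (h3 : IsCh lk) (h4 : l.head? = some a) (h5 : l.getLast? = some c)
    (h6 : row.head? = some p) (h7 : row.getLast? = some o) (h8 : lk.head? = some c)
    (h9 : lk.getLast? = some o') (ho : o ≠ f) (ho' : o' ≠ f)
    (hM : bdC (cM M) f = ind2 (a = f) + ind2 (p = f)) :
    bdC (fun e => cM M e + xp l e + xp row e + xp lk e) f = 0 := by
  rw [bdC_add (c := fun e => cM M e + xp l e + xp row e) (c' := xp lk),
    bdC_add (c := fun e => cM M e + xp l e) (c' := xp row),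
    bdC_add (c := cM M) (c' := xp l), hM, bdC_xp h1, bdC_xp h2, bdC_xp h3, h4, h5, h6, h7, h8, h9]
  have e : ∀ u v : ℤ × ℤ, ind2 (some u = some v) = ind2 (u = v) := fun u v =>
    ind2_congr (by rw [Option.some.injEq])
  simp only [e]
  rw [ind2_neg ho, ind2_neg ho']
  generalize ind2 (a = f) = x
  generalize ind2 (p = f) = y
  generalize ind2 (c = f) = z
  revert x y z
  decide

/-- The unit edge `e` is not near the strands, the inner rows and the corridor. -/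
structure Clean (S : Set (ℤ × ℤ)) (l₁ l₂ lk : List (ℤ × ℤ)) (e : UE) : Prop where
  S : ∀ f ∈ S, ¬ IsSide f e
  l₁ : ∃ f, IsSide f e ∧ f ∉ l₁
  l₂ : ∃ f, IsSide f e ∧ f ∉ l₂
  lk : ∃ f, IsSide f e ∧ f ∉ lk

theorem c_eq {M : Set UE} {l lk : List (ℤ × ℤ)} {e : UE} {r : ZMod 2} (h1 : IsCh l)
    (h3 : IsCh lk) (hM : e ∉ M) (hl : ∃ f, IsSide f e ∧ f ∉ l) (hlk : ∃ f, IsSide f e ∧ f ∉ lk) :
    cM M e + xp l e + r + xp lk e = r := by
  obtain ⟨f, hf, hf'⟩ := hl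
  obtain ⟨f', hf2, hf3⟩ := hlk
  rw [xp_side h1 hf hf', xp_side h3 hf2 hf3, show cM M e = 0 from ind2_neg hM, add_zero, add_zero,
    zero_add]

theorem c_eq' {M : Set UE} {l lk : List (ℤ × ℤ)} {e : UE} {r : ZMod 2} (h1 : IsCh l)
    (h3 : IsCh lk) (hM : e ∈ M) (hl : ∃ f, IsSide f e ∧ f ∉ l) (hlk : ∃ f, IsSide f e ∧ f ∉ lk) :
    cM M e + xp l e + r + xp lk e = 1 + r := by
  obtain ⟨f, hf, hf'⟩ := hl
  obtain ⟨f', hf2, hf3⟩ := hlk
  rw [xp_side h1 hf hf', xp_side h3 hf2 hf3, show cM M e = 1 from ind2_pos hM, add_zero, add_zero]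

section clean

variable (hg : g.Ok) (hw : WinOk g X₀ X₁ Y₀ Y₁)
  (hS : StrZ g ω ya yb a₁ a₂ x₁ x₂ k₁ k₂ l₁ l₂ S) (hK : KapZ g Y₀ ya yb S l₁ l₂ kk lk)
include hg hw hS hK

/-- Unit edges far away. -/
theorem clean_of {e : UE} (f : ℤ × ℤ) (hf : IsSide f e) (hlk : f ∉ lk)
    (hfar : ¬ (-(g.w - 3) ≤ f.1 ∧ f.1 < g.w - 3 ∧ -(g.w - 3) ≤ f.2 ∧ f.2 < g.w - 3))
    (hs : ∀ f ∈ S, ¬ IsSide f e) : Clean S l₁ l₂ lk e := by
  obtain ⟨f1, f2, f3, f4, f5, f6, f7, f8, f9, f10⟩ := lin hg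
  refine ⟨hs, ⟨f, hf, fun h => ?_⟩, ⟨f, hf, fun h => ?_⟩, ⟨f, hf, hlk⟩⟩
  · have := mem_box hS.in₁ hg h
    omega
  · have := mem_box hS.in₂ hg h
    omega

theorem clean_top {x : ℤ} : Clean S l₁ l₂ lk (x, Y₁, false) := by
  obtain ⟨f1, f2, f3, f4, f5, f6, f7, f8, f9, f10⟩ := lin hg
  have w4 := hw.y₁
  rw [f10] at w4
  refine clean_of hg hw hS hK (x, Y₁) (side_h.2 ⟨rfl, Or.inl rfl⟩) (fun h => ?_)
    (by dsimp only; omega) fun f hf hs => ?_
  · have := hK.box _ h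
    dsimp only at this
    omega
  · have := hS.box f hf
    rw [side_h] at hs
    omega

theorem clean_v {x y : ℤ} (hx : g.w + 2 * g.A ≤ x ∨ x ≤ -(g.w + 2 * g.A)) :
    Clean S l₁ l₂ lk (x, y, true) := by
  obtain ⟨f1, f2, f3, f4, f5, f6, f7, f8, f9, f10⟩ := lin hg
  refine clean_of hg hw hS hK (x, y) (side_v.2 ⟨rfl, Or.inl rfl⟩) (fun h => ?_)
    (by dsimp only; omega) fun f hf hs => ?_
  · have := hK.box _ h
    dsimp only at this
    omega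
  · have := hS.box f hf
    rw [side_v] at hs
    omega

theorem clean_rh {x : ℤ} (h1 : g.w ≤ x) (h2 : x < g.w + 2 * g.A) :
    Clean S l₁ l₂ lk (x, ya + 1, false) := by
  obtain ⟨f1, f2, f3, f4, f5, f6, f7, f8, f9, f10⟩ := lin hg
  have hp := port hS.port
  refine clean_of hg hw hS hK (x, ya) (side_h.2 ⟨rfl, Or.inr (by ring)⟩) (fun h => ?_)
    (by dsimp only; omega) fun f hf hs => ?_
  · refine hK.ball₁ _ h ?_
    dsimp only
    rw [abs_le, abs_le]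
    omega
  · rw [side_h] at hs
    have := hS.near₁ f hf (by rw [abs_le]; omega) (by rw [abs_le]; omega)
    omega

theorem clean_lh {x : ℤ} (h1 : -(g.w + 2 * g.A) ≤ x) (h2 : x < -(g.w + 2)) :
    Clean S l₁ l₂ lk (x, yb + 1, false) := by
  obtain ⟨f1, f2, f3, f4, f5, f6, f7, f8, f9, f10⟩ := lin hg
  have hp := port hS.port
  refine clean_of hg hw hS hK (x, yb) (side_h.2 ⟨rfl, Or.inr (by ring)⟩) (fun h => ?_)
    (by dsimp only; omega) fun f hf hs => ?_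
  · refine hK.ball₂ _ h ?_
    dsimp only
    rw [abs_le, abs_le]
    omega
  · rw [side_h] at hs
    have := hS.near₂ f hf (by rw [abs_le]; omega) (by rw [abs_le]; omega)
    omega

theorem clean_bot {x : ℤ} (hx : x ≠ 0) : Clean S l₁ l₂ lk (x, Y₀, false) := by
  obtain ⟨f1, f2, f3, f4, f5, f6, f7, f8, f9, f10⟩ := lin hg
  have w3 := hw.y₀
  rw [f10] at w3
  refine clean_of hg hw hS hK (x, Y₀) (side_h.2 ⟨rfl, Or.inl rfl⟩) (fun h => ?_)
    (by dsimp only; omega) fun f hf hs => ?_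
  · exact hx (hK.low _ h (by dsimp only; omega))
  · have := hS.box f hf
    rw [side_h] at hs
    omega

theorem clean_strip {x : ℤ} (hx : 1 ≤ x) : Clean S l₁ l₂ lk (x, -(g.w + g.A), false) := by
  obtain ⟨f1, f2, f3, f4, f5, f6, f7, f8, f9, f10⟩ := lin hg
  refine clean_of hg hw hS hK (x, -(g.w + g.A) - 1) (side_h.2 ⟨rfl, Or.inr rfl⟩) (fun h => ?_)
    (by dsimp only; omega) fun f hf hs => ?_
  · have := hK.low _ h (by dsimp only; omega)
    dsimp only at this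
    omega
  · have := hS.box f hf
    rw [side_h] at hs
    omega

theorem tipR : (∃ f, IsSide f (tR g.w ya) ∧ f ∉ l₁) ∧ (∃ f, IsSide f (tR g.w ya) ∧ f ∉ l₂) ∧
    ∃ f, IsSide f (tR g.w ya) ∧ f ∉ lk := by
  obtain ⟨f1, f2, f3, f4, f5, f6, f7, f8, f9, f10⟩ := lin hg
  have hs : IsSide (g.w, ya) (tR g.w ya) := side_v.2 ⟨rfl, Or.inl rfl⟩
  refine ⟨⟨_, hs, fun h => ?_⟩, ⟨_, hs, fun h => ?_⟩, ⟨_, hs, fun h => ?_⟩⟩
  · have := mem_box hS.in₁ hg h
    dsimp only at this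
    omega
  · have := mem_box hS.in₂ hg h
    dsimp only at this
    omega
  · refine hK.ball₁ _ h ?_
    dsimp only
    rw [abs_le, abs_le]
    omega

theorem tipL : (∃ f, IsSide f (tL g.w yb) ∧ f ∉ l₁) ∧ (∃ f, IsSide f (tL g.w yb) ∧ f ∉ l₂) ∧
    ∃ f, IsSide f (tL g.w yb) ∧ f ∉ lk := by
  obtain ⟨f1, f2, f3, f4, f5, f6, f7, f8, f9, f10⟩ := lin hg
  have hs : IsSide (-(g.w + 2), yb) (tL g.w yb) := side_v.2 ⟨rfl, Or.inl rfl⟩
  refine ⟨⟨_, hs, fun h => ?_⟩, ⟨_, hs, fun h => ?_⟩, ⟨_, hs, fun h => ?_⟩⟩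
  · have := mem_box hS.in₁ hg h
    dsimp only at this
    omega
  · have := mem_box hS.in₂ hg h
    dsimp only at this
    omega
  · refine hK.ball₂ _ h ?_
    dsimp only
    rw [abs_le, abs_le]
    omega

omit hg hw hK in
theorem vis₁ : SS ω (DZ g.w ya yb a₁ a₂) (tR g.w ya) ⊆ S := fun f hf => by
  rw [← hS.vis]; exact Or.inl hf

omit hg hw hK in
theorem vis₂ : SS ω (DZ g.w ya yb a₁ a₂) (tL g.w yb) ⊆ S := fun f hf => by
  rw [← hS.vis]; exact Or.inr hf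

omit hg hw hK in
theorem notMem₁ {e : UE} (h : ∀ f ∈ S, ¬ IsSide f e) (he : e ≠ tR g.w ya) :
    e ∉ MM ω (DZ g.w ya yb a₁ a₂) (tR g.w ya) := by
  intro h1
  rcases mm_side h1 with h2 | ⟨f, hf, h2⟩
  · exact he h2
  · exact h f (vis₁ hS hf) h2

omit hg hw hK in
theorem notMem₂ {e : UE} (h : ∀ f ∈ S, ¬ IsSide f e) (he : e ≠ tL g.w yb) :
    e ∉ MM ω (DZ g.w ya yb a₁ a₂) (tL g.w yb) := by
  intro h1
  rcases mm_side h1 with h2 | ⟨f, hf, h2⟩
  · exact he h2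
  · exact h f (vis₂ hS hf) h2

omit hg hw hK in
theorem tR_notMem : tR g.w ya ∉ MM ω (DZ g.w ya yb a₁ a₂) (tL g.w yb) :=
  fun h => hS.ne (MM_symm h)

omit hw hK in
theorem places : (OutR g.R k₁ a₁ ∧ OutR g.R k₂ a₂) ∧ a₁ ≠ a₂ ∧
    (-(g.w - 3) ≤ a₁.1 ∧ a₁.1 < g.w - 3 ∧ -(g.w - 3) ≤ a₁.2 ∧ a₁.2 < g.w - 3) ∧
    (-(g.w - 3) ≤ a₂.1 ∧ a₂.1 < g.w - 3 ∧ -(g.w - 3) ≤ a₂.2 ∧ a₂.2 < g.w - 3) := by
  obtain ⟨f1, f2, f3, f4, f5, f6, f7, f8, f9, f10⟩ := lin hg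
  have b1 := mem_box hS.in₁ hg (head_mem hS.in₁.head)
  have b2 := mem_box hS.in₂ hg (head_mem hS.in₂.head)
  have e1 : OutR g.R k₁ a₁ := by
    refine outR hS.in₁ hg hS.xm₁ hS.xs₁ (fun h => ?_) (vis₁ hS) hS.hole
    unfold tR at h
    rw [side_v] at h
    omega
  have e2 : OutR g.R k₂ a₂ := by
    refine outR hS.in₂ hg hS.xm₂ hS.xs₂ (fun h => ?_) (vis₂ hS) hS.hole
    unfold tL at h
    rw [side_v] at h
    omega
  refine ⟨⟨e1, e2⟩, ?_, ⟨by omega, by omega, by omega, by omega⟩,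
    ⟨by omega, by omega, by omega, by omega⟩⟩
  intro h
  rw [← h] at e2
  have h3 := hS.sep.1
  have h4 : k₁ = k₂ := by
    unfold OutR at e1 e2
    omega
  rw [h4, sub_self, abs_zero] at h3
  omega

theorem exists₁ : ∃ Φ₁, PotC (RF X₀ X₁ Y₀ Y₁) (fun a =>
    cM (MM ω (DZ g.w ya yb a₁ a₂) (tR g.w ya)) a + xp l₁ a + xp (eRow g.w ya X₁) a + xp lk a) Φ₁ ∧
    (∀ x, X₀ ≤ x → x ≤ X₁ → Φ₁ (x, Y₁) = 0) ∧
    (∀ y, ya < y → y ≤ Y₁ → Φ₁ (g.w + 2 * g.A, y) = 0) ∧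
    (∀ y, yb < y → y ≤ Y₁ → Φ₁ (-(g.w + 2 * g.A), y) = 0) ∧
    Φ₁ (g.w, ya) = 1 ∧ Φ₁ (-(g.w + 2), yb) = 0 ∧
    (∀ x, 1 ≤ x → x ≤ X₁ → Φ₁ (x, Y₀) = 1) ∧
    (∀ x, X₀ ≤ x → x ≤ 0 → Φ₁ (x, Y₀) = 0) ∧
    (∀ x, 1 ≤ x → x ≤ X₁ → Φ₁ (x, -(g.w + g.A)) = 1) := by
  obtain ⟨f1, f2, f3, f4, f5, f6, f7, f8, f9, f10⟩ := lin hg
  have w1 := hw.x₀
  have w2 := hw.x₁
  have w3 := hw.y₀
  have w4 := hw.y₁
  rw [f10] at w1 w2 w3 w4
  have hp := port hS.port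
  obtain ⟨-, n0, b1, b2⟩ := places hg hS
  obtain ⟨r1, r2, r3, r4⟩ := isCh_eRow (w := g.w) (y := ya) (X := X₁) (by omega)
  have hcl : ∀ f ∈ RF X₀ X₁ Y₀ Y₁, bdC (fun a => cM (MM ω (DZ g.w ya yb a₁ a₂) (tR g.w ya)) a +
      xp l₁ a + xp (eRow g.w ya X₁) a + xp lk a) f = 0 := by
    intro f hf
    rw [mem_RF] at hf
    refine closed hS.in₁.chain r1 hK.chain hS.in₁.head hS.in₁.last r2 r3 hK.head hK.last ?_ ?_ ?_
    · rintro rfl
      dsimp only at hf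
      omega
    · rintro rfl
      dsimp only at hf
      omega
    · refine bd_M (a := a₁) (a' := a₂) (p := (g.w, ya)) (p' := (-(g.w + 3), yb)) (x := x₁)
        (fun f h1 h2 h3 h4 => ⟨h1, h2, h3, h4⟩) hS.xm₁ hS.xs₁ (side_v.2 ⟨rfl, Or.inl rfl⟩)
        hS.only₁ ?_ n0.symm ?_ ?_ ?_
      · rintro rfl; dsimp only at b1; omega
      · rintro rfl; dsimp only at b2; omega
      · rintro rfl; dsimp only at b1; omega
      · intro h; rw [Prod.mk.injEq] at h; omega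
  obtain ⟨Φ, hΦ, h0⟩ := exists_potC hcl (X₀, Y₁) 0
  have hne : ∀ {e : UE}, Clean S l₁ l₂ lk e → e ≠ tR g.w ya →
      cM (MM ω (DZ g.w ya yb a₁ a₂) (tR g.w ya)) e + xp l₁ e + xp (eRow g.w ya X₁) e + xp lk e =
        ind2 (e.2.2 = true ∧ e.2.1 = ya ∧ g.w < e.1 ∧ e.1 ≤ X₁) := by
    intro e he he'
    rw [xp_eRow (by omega)]
    exact c_eq hS.in₁.chain hK.chain (notMem₁ hS he.S he') he.l₁ he.lk
  obtain ⟨t1, -, t3⟩ := tipR hg hw hS hK
  obtain ⟨s1, -, s3⟩ := tipL hg hw hS hK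
  refine ⟨Φ, hΦ, values (w := g.w) (A := g.A) (t := 0) hΦ (by omega) f7 w1 w2 w3 w4 hp.1 hp.2.1
    hp.2.2.2.2.1 (by omega) rfl h0 ?_ ?_ ?_ ?_ ?_ ?_ ?_ ?_ ?_ ?_ ?_⟩
  · intro x _ _
    rw [hne (clean_top hg hw hS hK) (by intro h; simp [tR] at h), ind2_neg (by simp)]
  · intro y hy _
    rw [hne (clean_v hg hw hS hK (Or.inl le_rfl))
      (by intro h; unfold tR at h; rw [Prod.mk.injEq] at h; omega), ind2_neg]
    rintro ⟨-, h, -⟩
    dsimp only at h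
    omega
  · intro x h1 h2
    rw [hne (clean_rh hg hw hS hK h1 h2) (by intro h; simp [tR] at h), ind2_neg (by simp)]
  · have h1 := c_eq' (r := xp (eRow g.w ya X₁) (tR g.w ya)) hS.in₁.chain hK.chain
      (M := MM ω (DZ g.w ya yb a₁ a₂) (tR g.w ya)) mem_MM_self t1 t3
    have h2 : xp (eRow g.w ya X₁) (tR g.w ya) = 0 := by
      rw [xp_eRow (by omega), ind2_neg (fun h => absurd h.2.2.1 (by simp [tR]))]
    rw [h2, add_zero, add_zero] at h1
    change cM (MM ω (DZ g.w ya yb a₁ a₂) (tR g.w ya)) (tR g.w ya) + xp l₁ (tR g.w ya) +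
      xp (eRow g.w ya X₁) (tR g.w ya) + xp lk (tR g.w ya) = 1
    rw [h2, add_zero]
    exact h1
  · intro y hy _
    rw [hne (clean_v hg hw hS hK (Or.inr le_rfl))
      (by intro h; unfold tR at h; rw [Prod.mk.injEq] at h; omega), ind2_neg]
    rintro ⟨-, h, h1, -⟩
    dsimp only at h h1
    omega
  · intro x h1 h2
    rw [hne (clean_lh hg hw hS hK h1 h2) (by intro h; simp [tR] at h), ind2_neg (by simp)]
  · have h1 := c_eq (r := xp (eRow g.w ya X₁) (tL g.w yb)) hS.in₁.chain hK.chain hS.ne s1 s3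
    have h2 : xp (eRow g.w ya X₁) (tL g.w yb) = 0 := by
      rw [xp_eRow (by omega), ind2_neg (fun h => absurd h.2.2.1 (by simp only [tL]; omega))]
    rw [h2] at h1
    change cM (MM ω (DZ g.w ya yb a₁ a₂) (tR g.w ya)) (tL g.w yb) + xp l₁ (tL g.w yb) +
      xp (eRow g.w ya X₁) (tL g.w yb) + xp lk (tL g.w yb) = 0
    rw [h2]
    exact h1
  · intro y _ _
    rw [hne (clean_v hg hw hS hK (Or.inl (by omega)))
      (by intro h; unfold tR at h; rw [Prod.mk.injEq] at h; omega)]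
    by_cases hy : y = ya
    · rw [if_pos hy, ind2_pos ⟨rfl, hy, by dsimp only; omega, le_rfl⟩]
    · rw [if_neg hy, ind2_neg fun h => hy h.2.1]
  · intro y _ _
    rw [hne (clean_v hg hw hS hK (Or.inr (by omega)))
      (by intro h; unfold tR at h; rw [Prod.mk.injEq] at h; omega), ind2_neg, ite_self]
    rintro ⟨-, h, h1, -⟩
    dsimp only at h h1
    omega
  · intro x _ _ hx
    rw [hne (clean_bot hg hw hS hK hx) (by intro h; simp [tR] at h), ind2_neg (by simp)]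
  · intro x hx _
    rw [hne (clean_strip hg hw hS hK hx) (by intro h; simp [tR] at h), ind2_neg (by simp)]

theorem exists₂ : ∃ Φ₂, PotC (RF X₀ X₁ Y₀ Y₁) (fun a =>
    cM (MM ω (DZ g.w ya yb a₁ a₂) (tL g.w yb)) a + xp l₂ a + xp (wRow g.w yb X₀) a + xp lk a) Φ₂ ∧
    (∀ x, X₀ ≤ x → x ≤ X₁ → Φ₂ (x, Y₁) = 0) ∧
    (∀ y, ya < y → y ≤ Y₁ → Φ₂ (g.w + 2 * g.A, y) = 0) ∧
    (∀ y, yb < y → y ≤ Y₁ → Φ₂ (-(g.w + 2 * g.A), y) = 0) ∧
    Φ₂ (g.w, ya) = 0 ∧ Φ₂ (-(g.w + 2), yb) = 1 ∧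
    (∀ x, 1 ≤ x → x ≤ X₁ → Φ₂ (x, Y₀) = 0) ∧
    (∀ x, X₀ ≤ x → x ≤ 0 → Φ₂ (x, Y₀) = 1) ∧
    (∀ x, 1 ≤ x → x ≤ X₁ → Φ₂ (x, -(g.w + g.A)) = 0) := by
  obtain ⟨f1, f2, f3, f4, f5, f6, f7, f8, f9, f10⟩ := lin hg
  have w1 := hw.x₀
  have w2 := hw.x₁
  have w3 := hw.y₀
  have w4 := hw.y₁
  rw [f10] at w1 w2 w3 w4
  have hp := port hS.port
  obtain ⟨-, n0, b1, b2⟩ := places hg hS
  obtain ⟨r1, r2, r3, r4⟩ := isCh_wRow (w := g.w) (y := yb) (X := X₀) (by omega)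
  have hcl : ∀ f ∈ RF X₀ X₁ Y₀ Y₁, bdC (fun a => cM (MM ω (DZ g.w ya yb a₁ a₂) (tL g.w yb)) a +
      xp l₂ a + xp (wRow g.w yb X₀) a + xp lk a) f = 0 := by
    intro f hf
    rw [mem_RF] at hf
    refine closed hS.in₂.chain r1 hK.chain hS.in₂.head hS.in₂.last r2 r3 hK.head hK.last ?_ ?_ ?_
    · rintro rfl
      dsimp only at hf
      omega
    · rintro rfl
      dsimp only at hf
      omega
    · refine bd_M (a := a₂) (a' := a₁) (p := (-(g.w + 3), yb)) (p' := (g.w, ya)) (x := x₂)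
        (fun f h1 h2 h3 h4 => ⟨h2, h1, h4, h3⟩) hS.xm₂ hS.xs₂ (side_v.2 ⟨rfl, Or.inr (by ring)⟩)
        (fun e f hf => hS.only₂ e f (by tauto)) ?_ n0 ?_ ?_ ?_
      · rintro rfl; dsimp only at b2; omega
      · rintro rfl; dsimp only at b1; omega
      · rintro rfl; dsimp only at b2; omega
      · intro h; rw [Prod.mk.injEq] at h; omega
  obtain ⟨Φ, hΦ, h0⟩ := exists_potC hcl (X₀, Y₁) 0
  have hne : ∀ {e : UE}, Clean S l₁ l₂ lk e → e ≠ tL g.w yb →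
      cM (MM ω (DZ g.w ya yb a₁ a₂) (tL g.w yb)) e + xp l₂ e + xp (wRow g.w yb X₀) e + xp lk e =
        ind2 (e.2.2 = true ∧ e.2.1 = yb ∧ X₀ ≤ e.1 ∧ e.1 ≤ -(g.w + 3)) := by
    intro e he he'
    rw [xp_wRow (by omega)]
    exact c_eq hS.in₂.chain hK.chain (notMem₂ hS he.S he') he.l₂ he.lk
  obtain ⟨-, t1, t3⟩ := tipR hg hw hS hK
  obtain ⟨-, s1, s3⟩ := tipL hg hw hS hK
  refine ⟨Φ, hΦ, values (w := g.w) (A := g.A) (t := 0) hΦ (by omega) f7 w1 w2 w3 w4 hp.1 hp.2.1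
    hp.2.2.2.2.1 (by omega) rfl h0 ?_ ?_ ?_ ?_ ?_ ?_ ?_ ?_ ?_ ?_ ?_⟩
  · intro x _ _
    rw [hne (clean_top hg hw hS hK) (by intro h; simp [tL] at h), ind2_neg (by simp)]
  · intro y hy _
    rw [hne (clean_v hg hw hS hK (Or.inl le_rfl))
      (by intro h; unfold tL at h; rw [Prod.mk.injEq] at h; omega), ind2_neg]
    rintro ⟨-, h, -, h1⟩
    dsimp only at h h1
    omega
  · intro x h1 h2
    rw [hne (clean_rh hg hw hS hK h1 h2) (by intro h; simp [tL] at h), ind2_neg (by simp)]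
  · have h1 := c_eq (r := xp (wRow g.w yb X₀) (tR g.w ya)) hS.in₂.chain hK.chain (tR_notMem hS) t1 t3
    have h2 : xp (wRow g.w yb X₀) (tR g.w ya) = 0 := by
      rw [xp_wRow (by omega), ind2_neg (fun h => absurd h.2.2.2 (by simp only [tR]; omega))]
    rw [h2] at h1
    change cM (MM ω (DZ g.w ya yb a₁ a₂) (tL g.w yb)) (tR g.w ya) + xp l₂ (tR g.w ya) +
      xp (wRow g.w yb X₀) (tR g.w ya) + xp lk (tR g.w ya) = 0
    rw [h2]
    exact h1
  · intro y hy _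
    rw [hne (clean_v hg hw hS hK (Or.inr le_rfl))
      (by intro h; unfold tL at h; rw [Prod.mk.injEq] at h; omega), ind2_neg]
    rintro ⟨-, h, -, h1⟩
    dsimp only at h h1
    omega
  · intro x h1 h2
    rw [hne (clean_lh hg hw hS hK h1 h2) (by intro h; simp [tL] at h), ind2_neg (by simp)]
  · have h1 := c_eq' (r := xp (wRow g.w yb X₀) (tL g.w yb)) hS.in₂.chain hK.chain
      (M := MM ω (DZ g.w ya yb a₁ a₂) (tL g.w yb)) mem_MM_self s1 s3
    have h2 : xp (wRow g.w yb X₀) (tL g.w yb) = 0 := by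
      rw [xp_wRow (by omega), ind2_neg (fun h => absurd h.2.2.2 (by simp only [tL]; omega))]
    rw [h2, add_zero, add_zero] at h1
    change cM (MM ω (DZ g.w ya yb a₁ a₂) (tL g.w yb)) (tL g.w yb) + xp l₂ (tL g.w yb) +
      xp (wRow g.w yb X₀) (tL g.w yb) + xp lk (tL g.w yb) = 1
    rw [h2, add_zero]
    exact h1
  · intro y _ _
    rw [hne (clean_v hg hw hS hK (Or.inl (by omega)))
      (by intro h; unfold tL at h; rw [Prod.mk.injEq] at h; omega), ind2_neg, ite_self]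
    rintro ⟨-, h, -, h1⟩
    dsimp only at h h1
    omega
  · intro y _ _
    rw [hne (clean_v hg hw hS hK (Or.inr (by omega)))
      (by intro h; unfold tL at h; rw [Prod.mk.injEq] at h; omega)]
    by_cases hy : y = yb
    · rw [if_pos hy, ind2_pos ⟨rfl, hy, le_rfl, by dsimp only; omega⟩]
    · rw [if_neg hy, ind2_neg fun h => hy h.2.1]
  · intro x _ _ hx
    rw [hne (clean_bot hg hw hS hK hx) (by intro h; simp [tL] at h), ind2_neg (by simp)]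
  · intro x hx _
    rw [hne (clean_strip hg hw hS hK hx) (by intro h; simp [tL] at h), ind2_neg (by simp)]

end clean

theorem const_cor {Ψ : ℤ × ℤ → ZMod 2} {f : ℤ × ℤ} (h : ∀ a, IsSide f a → Ψ (ub a) = Ψ (ua a))
    {p q : ℤ × ℤ} (hp : IsCor f p) (hq : IsCor f q) : Ψ p = Ψ q := by
  obtain ⟨x, y⟩ := f
  have h1 := h (bo (x, y)) (Or.inl rfl)
  have h2 := h (le' (x, y)) (Or.inr (Or.inl rfl))
  have h3 := h (to' (x, y)) (Or.inr (Or.inr (Or.inl rfl)))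
  unfold bo at h1
  unfold le' at h2
  unfold to' at h3
  dsimp only at h1 h2 h3
  rw [ub_false, ua_mk] at h1 h3
  rw [ub_true, ua_mk] at h2
  have key : ∀ p, IsCor (x, y) p → Ψ p = Ψ (x, y) := by
    rintro ⟨u, v⟩ ⟨hu, hv⟩
    dsimp only at hu hv
    rcases hu with rfl | rfl <;> rcases hv with rfl | rfl
    · rfl
    · exact h2
    · exact h1
    · exact h3.trans h2
  rw [key p hp, key q hq]

theorem isCh_tail {f : ℤ × ℤ} {l : List (ℤ × ℤ)} (h : IsCh (f :: l)) : IsCh l := by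
  cases l with
  | nil => exact trivial
  | cons g l => exact h.2

theorem isCh_suffix {l' l : List (ℤ × ℤ)} (h : IsCh (l' ++ l)) : IsCh l := by
  induction l' with
  | nil => exact h
  | cons f l' ih => exact ih (isCh_tail h)

/-- The value along a dual path, from its end. -/
theorem along {Ψ : ℤ × ℤ → ZMod 2} {Y : ℤ} (h0 : Ψ (0, Y) = 1) (l : List (ℤ × ℤ)) (hl : IsCh l)
    (hlast : l.getLast? = some (0, Y - 1))
    (hc : ∀ f ∈ l, f = (0, Y - 1) ∨ (Y ≤ f.2 ∧ ∀ p q, IsCor f p → IsCor f q → Ψ p = Ψ q))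
    {f : ℤ × ℤ} (hf : f ∈ l) (hfY : Y ≤ f.2) {p : ℤ × ℤ} (hp : IsCor f p) : Ψ p = 1 := by
  induction l generalizing f p with
  | nil => exact absurd hf (List.not_mem_nil)
  | cons f₀ l ih =>
    cases l with
    | nil =>
      rw [List.getLast?_singleton, Option.some.injEq] at hlast
      rw [List.mem_singleton] at hf
      rw [hf, hlast] at hfY
      dsimp only at hfY
      omega
    | cons f₁ l =>
      rw [List.getLast?_cons_cons] at hlast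
      have ih' : ∀ {f : ℤ × ℤ}, f ∈ f₁ :: l → Y ≤ f.2 → ∀ {p : ℤ × ℤ}, IsCor f p → Ψ p = 1 :=
        fun {f} h1 h2 {p} h3 => ih hl.2 hlast (fun f hf => hc f (List.mem_cons_of_mem _ hf)) h1 h2 h3
      rcases List.mem_cons.1 hf with rfl | hf
      · have hadj : Adj4 f f₁ := hl.1
        have hcf : ∀ p q, IsCor f p → IsCor f q → Ψ p = Ψ q := by
          rcases hc f (List.mem_cons_self) with h | h
          · rw [h] at hfY
            dsimp only at hfY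
            omega
          · exact h.2
        rcases hc f₁ (List.mem_cons_of_mem _ (List.mem_cons_self)) with h | ⟨h, -⟩
        · rw [h] at hadj
          obtain ⟨x, y⟩ := f
          unfold Adj4 at hadj
          dsimp only at hadj hfY
          have e1 : x = 0 ∧ y = Y := by omega
          obtain ⟨rfl, rfl⟩ := e1
          rw [hcf p (0, y) hp ⟨Or.inl rfl, Or.inl rfl⟩, h0]
        · obtain ⟨c, hc1, hc2⟩ : ∃ c, IsCor f c ∧ IsCor f₁ c := by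
            refine ⟨(max f.1 f₁.1, max f.2 f₁.2), ?_, ?_⟩ <;> unfold IsCor Adj4 at * <;>
              dsimp only at * <;> omega
          rw [hcf p c hp hc1]
          exact ih' (List.mem_cons_self) h hc2
      · exact ih' hf hfY hp

end ZCAux

open ZCAux

/-- The potentials exist (`Φᵢ (X₀, Y₁) = 0`). -/
theorem exists_pots (hg : g.Ok) (hw : WinOk g X₀ X₁ Y₀ Y₁)
    (hS : StrZ g ω ya yb a₁ a₂ x₁ x₂ k₁ k₂ l₁ l₂ S) (hK : KapZ g Y₀ ya yb S l₁ l₂ kk lk) :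
    ∃ Φ₁ Φ₂, Pots g X₀ X₁ Y₀ Y₁ ω ya yb a₁ a₂ l₁ l₂ lk Φ₁ Φ₂ := by
  obtain ⟨Φ₁, p1, t1, r1, e1, v1, v1', b1, b1', s1⟩ := exists₁ hg hw hS hK
  obtain ⟨Φ₂, p2, t2, r2, e2, v2, v2', b2, b2', s2⟩ := exists₂ hg hw hS hK
  obtain ⟨f1, f2, f3, f4, f5, f6, f7, f8, f9, f10⟩ := lin hg
  refine ⟨Φ₁, Φ₂, p1, p2, ⟨v1, v2⟩, ⟨v1', v2'⟩, fun x h h' => ⟨t1 x h h', t2 x h h'⟩,
    fun x h h' => ⟨b1 x h h', b2 x h h'⟩, fun x h h' => ⟨b1' x h h', b2' x h h'⟩, ?_, ?_, ?_⟩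
  · rw [f9]; exact fun y h h' => ⟨r1 y h h', r2 y h h'⟩
  · rw [f9]; exact fun y h h' => ⟨e1 y h h', e2 y h h'⟩
  · rw [f8]; exact fun x h h' => ⟨s1 x h h', s2 x h h'⟩

/-- The strands of a configuration which agrees on the visited faces. -/
theorem MM_agree (hS : StrZ g ω ya yb a₁ a₂ x₁ x₂ k₁ k₂ l₁ l₂ S) (h : ∀ f ∈ S, η f = ω f) :
    MM η (DZ g.w ya yb a₁ a₂) (tR g.w ya) = MM ω (DZ g.w ya yb a₁ a₂) (tR g.w ya) ∧
    MM η (DZ g.w ya yb a₁ a₂) (tL g.w yb) = MM ω (DZ g.w ya yb a₁ a₂) (tL g.w yb) ∧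
    SS η (DZ g.w ya yb a₁ a₂) (tR g.w ya) ∪ SS η (DZ g.w ya yb a₁ a₂) (tL g.w yb) = S := by
  have h1 : ∀ f ∈ SS ω (DZ g.w ya yb a₁ a₂) (tR g.w ya), ω f = η f := fun f hf =>
    (h f (vis₁ hS hf)).symm
  have h2 : ∀ f ∈ SS ω (DZ g.w ya yb a₁ a₂) (tL g.w yb), ω f = η f := fun f hf =>
    (h f (vis₂ hS hf)).symm
  refine ⟨MM_congr h1, MM_congr h2, ?_⟩
  rw [SS_congr h1, SS_congr h2, hS.vis]

theorem ZCAux.notMem_lk (hg : g.Ok) (hK : KapZ g Y₀ ya yb S l₁ l₂ kk lk) {f : ℤ × ℤ} (hf : f ∈ S) :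
    f ∉ lk := by
  obtain ⟨f1, f2, f3, f4, f5, f6, f7, f8, f9, f10⟩ := lin hg
  intro h
  have h1 := hK.far f h f hf
  rw [sub_self, sub_self, abs_zero, max_self] at h1
  omega

theorem ZCAux.row_e (hg : g.Ok)
    (hS : StrZ g ω ya yb a₁ a₂ x₁ x₂ k₁ k₂ l₁ l₂ S) {f : ℤ × ℤ} (hf : f ∈ S) :
    ¬ (f.2 = ya ∧ g.w ≤ f.1) := by
  obtain ⟨f1, f2, f3, f4, f5, f6, f7, f8, f9, f10⟩ := lin hg
  rintro ⟨h1, h2⟩
  have h3 := hS.box f hf
  have h4 := hS.near₁ f hf (by rw [abs_le]; omega) (by rw [abs_le]; omega)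
  omega

theorem ZCAux.row_w (hg : g.Ok)
    (hS : StrZ g ω ya yb a₁ a₂ x₁ x₂ k₁ k₂ l₁ l₂ S) {f : ℤ × ℤ} (hf : f ∈ S) :
    ¬ (f.2 = yb ∧ f.1 ≤ -(g.w + 3)) := by
  obtain ⟨f1, f2, f3, f4, f5, f6, f7, f8, f9, f10⟩ := lin hg
  rintro ⟨h1, h2⟩
  have h3 := hS.box f hf
  have h4 := hS.near₂ f hf (by rw [abs_le]; omega) (by rw [abs_le]; omega)
  omega

theorem ZCAux.rows_zero (hg : g.Ok) (hw : WinOk g X₀ X₁ Y₀ Y₁) {f : ℤ × ℤ}
    (h4 : ¬ (f.2 = ya ∧ g.w ≤ f.1)) (h5 : ¬ (f.2 = yb ∧ f.1 ≤ -(g.w + 3))) {a : UE}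
    (ha : IsSide f a) : xp (eRow g.w ya X₁) a = 0 ∧ xp (wRow g.w yb X₀) a = 0 := by
  obtain ⟨f1, f2, f3, f4, f5, f6, f7, f8, f9, f10⟩ := lin hg
  have w1 := hw.x₀
  have w2 := hw.x₁
  rw [f10] at w1 w2
  obtain ⟨r1, r2, r3, r4⟩ := isCh_eRow (w := g.w) (y := ya) (X := X₁) (by omega)
  obtain ⟨q1, q2, q3, q4⟩ := isCh_wRow (w := g.w) (y := yb) (X := X₀) (by omega)
  refine ⟨xp_side r1 ha fun h => ?_, xp_side q1 ha fun h => ?_⟩
  · rw [r4] at h
    exact h4 ⟨h.1, h.2.1⟩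
  · rw [q4] at h
    exact h5 ⟨h.1, h.2.2⟩

/-- The sectors, for every configuration which agrees on the visited faces. -/
theorem sec_of_pots (hg : g.Ok) (hw : WinOk g X₀ X₁ Y₀ Y₁)
    (hS : StrZ g ω ya yb a₁ a₂ x₁ x₂ k₁ k₂ l₁ l₂ S) (hK : KapZ g Y₀ ya yb S l₁ l₂ kk lk)
    (hP : Pots g X₀ X₁ Y₀ Y₁ ω ya yb a₁ a₂ l₁ l₂ lk Φ₁ Φ₂) (h : ∀ f ∈ S, η f = ω f) :
    Sec η (DZ g.w ya yb a₁ a₂) (tR g.w ya) (tL g.w yb) (g.w, ya + 1) (g.w, ya)
      (-(g.w + 2), yb + 1) (-(g.w + 2), yb) Φ₁ Φ₂ := by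
  obtain ⟨f1, f2, f3, f4, f5, f6, f7, f8, f9, f10⟩ := lin hg
  have w1 := hw.x₀
  have w2 := hw.x₁
  have w3 := hw.y₀
  have w4 := hw.y₁
  rw [f10] at w1 w2 w3 w4
  have hp := port hS.port
  obtain ⟨-, n0, b1, b2⟩ := places hg hS
  obtain ⟨m1, m2, m3⟩ := MM_agree hS h
  have hRF : ∀ f ∈ S, f ∈ (RF X₀ X₁ Y₀ Y₁ : Set (ℤ × ℤ)) := by
    intro f hf
    have := hS.box f hf
    rw [mem_RF']
    omega
  refine ⟨Or.inr ⟨?_, rfl⟩, Or.inr ⟨?_, rfl⟩, ?_, ⟨(g.w - 1, ya), ⟨?_, ?_, ?_, ?_⟩, ?_⟩,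
    ⟨(-(g.w + 2), yb), ⟨?_, ?_, ?_, ?_⟩, ?_⟩, ?_, ?_, ?_, hP.v₁.1, hP.v₁.2, hP.v₂.1, hP.v₂.2⟩
  · unfold tR; rw [ub_true]
  · unfold tL; rw [ub_true]
  · unfold par
    dsimp only
    omega
  · rintro rfl; dsimp only at b1; omega
  · rintro rfl; dsimp only at b2; omega
  · intro h; rw [Prod.mk.injEq] at h; omega
  · intro h; rw [Prod.mk.injEq] at h; omega
  · exact side_v.2 ⟨rfl, Or.inr rfl⟩
  · rintro rfl; dsimp only at b1; omega
  · rintro rfl; dsimp only at b2; omega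
  · intro h; rw [Prod.mk.injEq] at h; omega
  · intro h; rw [Prod.mk.injEq] at h; omega
  · exact side_v.2 ⟨rfl, Or.inl rfl⟩
  · rw [m1]; exact hS.ne
  · rw [m3]
    intro f hf a ha
    have e1 := hP.p₁ f (hRF f hf) a ha
    obtain ⟨e2, e3⟩ := rows_zero hg hw (row_e hg hS hf) (row_w hg hS hf) ha
    dsimp only at e1
    rw [xp_side hS.in₁.chain ha (fun h => hS.in₁.fresh f h hf), e2,
      xp_side hK.chain ha (notMem_lk hg hK hf), add_zero, add_zero, add_zero] at e1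
    rw [e1, m1]
    rfl
  · rw [m3]
    intro f hf a ha
    have e1 := hP.p₂ f (hRF f hf) a ha
    obtain ⟨e2, e3⟩ := rows_zero hg hw (row_e hg hS hf) (row_w hg hS hf) ha
    dsimp only at e1
    rw [xp_side hS.in₂.chain ha (fun h => hS.in₂.fresh f h hf), e3,
      xp_side hK.chain ha (notMem_lk hg hK hf), add_zero, add_zero, add_zero] at e1
    rw [e1, m2]
    rfl

/-- The potentials on a face which is not visited and not on the dual paths. -/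
theorem pots_fresh (hS : StrZ g ω ya yb a₁ a₂ x₁ x₂ k₁ k₂ l₁ l₂ S) (hK : KapZ g Y₀ ya yb S l₁ l₂ kk lk)
    (hw : WinOk g X₀ X₁ Y₀ Y₁) (hg : g.Ok)
    (hP : Pots g X₀ X₁ Y₀ Y₁ ω ya yb a₁ a₂ l₁ l₂ lk Φ₁ Φ₂) {f : ℤ × ℤ}
    (hf : f ∈ RF X₀ X₁ Y₀ Y₁) (h1 : f ∉ S) (h2 : f ∉ l₁) (h3 : f ∉ l₂)
    (h4 : ¬ (f.2 = ya ∧ g.w ≤ f.1)) (h5 : ¬ (f.2 = yb ∧ f.1 ≤ -(g.w + 3))) {p q : ℤ × ℤ}
    (hp : IsCor f p) (hq : IsCor f q) :
    Φ₁ p + Φ₂ p = Φ₁ q + Φ₂ q ∧ (f ∉ lk → Φ₁ p = Φ₁ q ∧ Φ₂ p = Φ₂ q) := by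
  have hD : f ∈ DZ g.w ya yb a₁ a₂ := by
    refine ⟨?_, ?_, ?_, ?_⟩
    · rintro rfl; exact h2 (head_mem hS.in₁.head)
    · rintro rfl; exact h3 (head_mem hS.in₂.head)
    · rintro rfl; exact h4 ⟨rfl, le_rfl⟩
    · rintro rfl; exact h5 ⟨rfl, le_rfl⟩
  have hc : ∀ a, IsSide f a → Φ₁ (ub a) = Φ₁ (ua a) + xp lk a ∧ Φ₂ (ub a) = Φ₂ (ua a) + xp lk a := by
    intro a ha
    have e1 := hP.p₁ f hf a ha
    have e1' := hP.p₂ f hf a ha
    obtain ⟨e2, e3⟩ := rows_zero hg hw h4 h5 ha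
    have m1 : cM (MM ω (DZ g.w ya yb a₁ a₂) (tR g.w ya)) a = 0 :=
      ind2_neg fun h => h1 (vis₁ hS ⟨hD, a, h, ha⟩)
    have m2 : cM (MM ω (DZ g.w ya yb a₁ a₂) (tL g.w yb)) a = 0 :=
      ind2_neg fun h => h1 (vis₂ hS ⟨hD, a, h, ha⟩)
    dsimp only at e1 e1'
    rw [xp_side hS.in₁.chain ha h2, e2, m1, add_zero, add_zero, zero_add] at e1
    rw [xp_side hS.in₂.chain ha h3, e3, m2, add_zero, add_zero, zero_add] at e1'
    exact ⟨e1, e1'⟩
  constructor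
  · refine const_cor (Ψ := fun p => Φ₁ p + Φ₂ p) (fun a ha => ?_) hp hq
    obtain ⟨e1, e2⟩ := hc a ha
    rw [e1, e2]
    generalize Φ₁ (ua a) = x
    generalize Φ₂ (ua a) = y
    generalize xp lk a = z
    revert x y z
    decide
  · intro hlk
    constructor
    · refine const_cor (fun a ha => ?_) hp hq
      rw [(hc a ha).1, xp_side hK.chain ha hlk, add_zero]
    · refine const_cor (fun a ha => ?_) hp hq
      rw [(hc a ha).2, xp_side hK.chain ha hlk, add_zero]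

/-- The faces of the corridor outside the hole are on the D side. -/
theorem pots_kap (hg : g.Ok) (hw : WinOk g X₀ X₁ Y₀ Y₁)
    (hS : StrZ g ω ya yb a₁ a₂ x₁ x₂ k₁ k₂ l₁ l₂ S) (hK : KapZ g Y₀ ya yb S l₁ l₂ kk lk)
    (hP : Pots g X₀ X₁ Y₀ Y₁ ω ya yb a₁ a₂ l₁ l₂ lk Φ₁ Φ₂) {f : ℤ × ℤ} (hf : f ∈ lk)
    (hf1 : f ∉ BR (0, 0) g.R) (hf2 : Y₀ ≤ f.2) {p : ℤ × ℤ} (hp : IsCor f p) :
    Φ₁ p + Φ₂ p = 1 := by
  obtain ⟨f1, f2, f3, f4, f5, f6, f7, f8, f9, f10⟩ := lin hg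
  have w1 := hw.x₀
  have w2 := hw.x₁
  have w3 := hw.y₀
  have w4 := hw.y₁
  rw [f10] at w1 w2 w3 w4
  obtain ⟨l', l'', hl, hl1, hl2⟩ := hK.split
  have hfl : f ∈ l'' := by
    rw [hl, List.mem_append] at hf
    rcases hf with hf | hf
    · exact absurd (hl1 f hf) hf1
    · exact hf
  have hch : IsCh l'' := isCh_suffix (l' := l') (by rw [← hl]; exact hK.chain)
  have hne : l'' ≠ [] := by
    rintro rfl
    exact absurd hfl List.not_mem_nil
  have hlast : l''.getLast? = some (0, Y₀ - 1) := by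
    have h1 := hK.last
    rw [hl, List.getLast?_append_of_ne_nil _ hne] at h1
    exact h1
  have h0 : Φ₁ (0, Y₀) + Φ₂ (0, Y₀) = 1 := by
    obtain ⟨e1, e2⟩ := hP.botL 0 (by omega) le_rfl
    rw [e1, e2, zero_add]
  refine along (Ψ := fun p => Φ₁ p + Φ₂ p) h0 l'' hch hlast (fun s hs => ?_) hfl hf2 hp
  have hslk : s ∈ lk := by rw [hl, List.mem_append]; exact Or.inr hs
  rcases hK.only s hslk with h | h
  · exact Or.inl h
  · refine Or.inr ⟨h, fun p q hp hq => ?_⟩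
    have hb := hK.box s hslk
    obtain ⟨n1, n2⟩ := hK.free s hslk (hl2 s hs)
    refine (pots_fresh hS hK hw hg hP ?_ (fun h => notMem_lk hg hK h hslk) n1 n2 ?_ ?_ hp hq).1
    · rw [mem_RF]; omega
    · rintro ⟨h1, h2⟩
      by_cases h3 : g.w + g.A / 4 + 2 ≤ s.1
      · have := (hK.side s hslk).1 h3
        omega
      · exact hK.ball₁ s hslk ⟨by rw [abs_le]; omega, by rw [abs_le]; omega⟩
    · rintro ⟨h1, h2⟩
      by_cases h3 : s.1 < -(g.w + g.A / 4 + 2)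
      · have := (hK.side s hslk).2 h3
        omega
      · exact hK.ball₂ s hslk ⟨by rw [abs_le]; omega, by rw [abs_le]; omega⟩

end Pool.Agent.Occ

end PartoccZC

section PartoccZGC

/-!
# Row ZG, the geometry of the gate: cells
-/

set_option autoImplicit false

namespace Pool.Agent.Occ

open Finset Pool.Agent.Perc Pool.Agent.Perc3 Pool.Agent.PercD Pool.Agent.Perc6

namespace ZGAux

variable {g : Par} {ξ : Cfg} {s : Fin 4} {i : ℤ} {f : ℤ × ℤ}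

/-! ### Cells -/

theorem cell_lt {a c x m : ℤ} (ha : 0 < a) (h1 : a * c ≤ x) (h2 : x < a * m) : c < m := by
  have : a * c < a * m := lt_of_le_of_lt h1 h2
  exact lt_of_mul_lt_mul_left this ha.le

theorem mul_le {a c m : ℤ} (ha : 0 < a) (h : c ≤ m) : a * c ≤ a * m :=
  mul_le_mul_of_nonneg_left h ha.le

/-- The radial coordinate of a face on the side `s`. -/
def rad (s : Fin 4) (f : ℤ × ℤ) : ℤ := ![f.1, f.2, -1 - f.1, -1 - f.2] s

/-- The position of a face on the side `s`. -/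
def pos (s : Fin 4) (f : ℤ × ℤ) : ℤ := ![f.2, f.1, f.2, f.1] s

theorem mem_cellF {a : ℤ} {c : ℤ × ℤ} : f ∈ cellF 0 0 a c ↔ a * c.1 ≤ f.1 ∧ f.1 < a * c.1 + a ∧
    a * c.2 ≤ f.2 ∧ f.2 < a * c.2 + a := by
  unfold Perc6.cellF
  rw [mem_RFi, mul_add, mul_add, mul_one, zero_add, zero_add, zero_add, zero_add]

theorem mem_lay {r : ℤ} {c : ℤ × ℤ} : c ∈ lay r ↔ (-r - 1 ≤ c.1 ∧ c.1 ≤ r ∧ -r - 1 ≤ c.2 ∧
    c.2 ≤ r) ∧ (c.1 = r ∨ c.1 = -r - 1 ∨ c.2 = r ∨ c.2 = -r - 1) := by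
  unfold lay
  rw [mem_filter, mem_product, mem_Icc, mem_Icc]
  tauto

theorem mem_RD {c : ℤ × ℤ} : c ∈ RD g s i ↔ (c ≠ ceS s (g.Ni + 1) i ∧ c ∈ lay (g.Ni + 1)) ∨
    c = ceS s g.Ni (i - 1) ∨ c = ceS s (g.Ni - 1) (i - 1) ∨ c = ceS s g.Ni (i + 1) ∨
    c = ceS s (g.Ni - 1) (i + 1) := by
  unfold RD
  rw [mem_union, mem_erase, mem_insert, mem_insert, mem_insert, mem_singleton]

theorem lay_box {a R r : ℤ} (ha : 0 < a) (hR : R = a * r) {c : ℤ × ℤ} (hc : c ∈ lay r)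
    (hf : f ∈ cellF 0 0 a c) : f ∈ BR (0, 0) (R + a) ∧ f ∉ BR (0, 0) R := by
  rw [mem_lay] at hc
  rw [mem_cellF] at hf
  obtain ⟨⟨h1, h2, h3, h4⟩, h5⟩ := hc
  have e1 := mul_le ha h1
  have e2 := mul_le ha h2
  have e3 := mul_le ha h3
  have e4 := mul_le ha h4
  have e5 : a * (-r - 1) = -R - a := by rw [hR]; ring
  rw [e5] at e1 e3
  rw [← hR] at e2 e4
  rw [mem_BR, mem_BR]
  simp only
  have h6 : a * c.1 = R ∨ a * c.1 = -R - a ∨ a * c.2 = R ∨ a * c.2 = -R - a := by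
    rcases h5 with h | h | h | h
    · left; rw [h, hR]
    · right; left; rw [h, e5]
    · right; right; left; rw [h, hR]
    · right; right; right; rw [h, e5]
  omega

end ZGAux

end Pool.Agent.Occ

end PartoccZGC
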