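import Pool.Agent.Lib.MP_6bd702_zc.Pre
import Pool.Agent.Lib.MP_6bd702_zc.Y040
import Pool.Agent.Lib.MP_6bd702_zc.Y029
import Pool.Agent.Lib.MP_6bd702_zc.Y028
import Pool.Agent.Lib.MP_6bd702_zc.Y033
import Pool.Agent.Lib.MP_6bd702_zc.Y031
import Pool.Agent.Lib.MP_6bd702_zc.Y036
import Pool.Agent.Lib.MP_6bd702_zc.Y027

section PartoccZD

/-!
# Row ZD: reading of the lifted event in the square grid
-/

set_option autoImplicit false

namespace Pool.Agent.Occ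

open Finset Pool.Agent.Perc Pool.Agent.Perc3 Pool.Agent.PercD

/-- The parameters of the event `PX`. -/
def parX (N A Ni Ai σ : ℤ) (m : ℕ) : Par := ⟨N, A, Ni, Ai, 2 * m + 12, σ⟩

namespace ZDAux

/-! ### Chains in rectangles -/

theorem row_chain {x₀ x₁ y₀ y₁ y : ℤ} (hy : y₀ ≤ y) (hy' : y < y₁) {a b : ℤ} (hab : a ≤ b)
    (ha : x₀ ≤ a) (hb : b < x₁) : Relation.ReflTransGen
      (fun f g : ℤ × ℤ => Adj4 f g ∧ f ∈ RF x₀ x₁ y₀ y₁ ∧ g ∈ RF x₀ x₁ y₀ y₁) (a, y) (b, y) := by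
  induction b, hab using Int.leInduction with
  | base => exact Relation.ReflTransGen.refl
  | succ b hb' ih =>
    refine (ih (by omega)).tail ⟨Or.inl ⟨rfl, Or.inl rfl⟩, ?_, ?_⟩ <;>
      (rw [mem_RF]; simp only; omega)

theorem col_chain {x₀ x₁ y₀ y₁ x : ℤ} (hx : x₀ ≤ x) (hx' : x < x₁) {a b : ℤ} (hab : a ≤ b)
    (ha : y₀ ≤ a) (hb : b < y₁) : Relation.ReflTransGen
      (fun f g : ℤ × ℤ => Adj4 f g ∧ f ∈ RF x₀ x₁ y₀ y₁ ∧ g ∈ RF x₀ x₁ y₀ y₁) (x, a) (x, b) := by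
  induction b, hab using Int.leInduction with
  | base => exact Relation.ReflTransGen.refl
  | succ b hb' ih =>
    refine (ih (by omega)).tail ⟨Or.inr ⟨rfl, Or.inl rfl⟩, ?_, ?_⟩ <;>
      (rw [mem_RF]; simp only; omega)

theorem sym_chain {x₀ x₁ y₀ y₁ : ℤ} {f g : ℤ × ℤ} (h : Relation.ReflTransGen
      (fun f g : ℤ × ℤ => Adj4 f g ∧ f ∈ RF x₀ x₁ y₀ y₁ ∧ g ∈ RF x₀ x₁ y₀ y₁) f g) :
    Relation.ReflTransGen
      (fun f g : ℤ × ℤ => Adj4 f g ∧ f ∈ RF x₀ x₁ y₀ y₁ ∧ g ∈ RF x₀ x₁ y₀ y₁) g f := by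
  induction h with
  | refl => exact Relation.ReflTransGen.refl
  | tail _ hs ih => exact Relation.ReflTransGen.head ⟨hs.1.symm, hs.2.2, hs.2.1⟩ ih

/-- A dual path between two faces of a rectangle. -/
theorem rect_list {x₀ x₁ y₀ y₁ : ℤ} {f g : ℤ × ℤ} (hf : f ∈ RF x₀ x₁ y₀ y₁)
    (hg : g ∈ RF x₀ x₁ y₀ y₁) : ∃ l, IsCh l ∧ l.head? = some f ∧ l.getLast? = some g ∧
      ∀ k ∈ l, k ∈ RF x₀ x₁ y₀ y₁ := by
  refine exists_list (P := fun k => k ∈ RF x₀ x₁ y₀ y₁) hf ?_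
  obtain ⟨a, b⟩ := f
  obtain ⟨c, d⟩ := g
  rw [mem_RF] at hf hg
  simp only at hf hg
  refine Relation.ReflTransGen.trans (b := (c, b)) ?_ ?_
  · rcases le_total a c with h | h
    · exact row_chain (by omega) (by omega) h (by omega) (by omega)
    · exact sym_chain (row_chain (by omega) (by omega) h (by omega) (by omega))
  · rcases le_total b d with h | h
    · exact col_chain (by omega) (by omega) h (by omega) (by omega)
    · exact sym_chain (col_chain (by omega) (by omega) h (by omega) (by omega))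

/-! ### The path into the hole -/

/-- The boundary unit edges of the hole. -/
theorem cycE_inj {R k k' : ℤ} (h0 : 0 ≤ k) (h1 : k < 8 * R) (h0' : 0 ≤ k') (h1' : k' < 8 * R)
    (h : Perc6.cycE 0 0 0 R k = Perc6.cycE 0 0 0 R k') : k = k' := by
  unfold Perc6.cycE at h
  split_ifs at h <;> simp only [Prod.mk.injEq, Bool.true_eq_false, Bool.false_eq_true, and_true,
    and_false] at h <;> omega

theorem cycE_in {R k : ℤ} (hR : 0 < R) (h0 : 0 ≤ k) (h1 : k < 8 * R) :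
    (∃ f ∈ BR (0, 0) R, IsSide f (Perc6.cycE 0 0 0 R k)) ∧
      ∃ f, f ∉ BR (0, 0) R ∧ IsSide f (Perc6.cycE 0 0 0 R k) := by
  unfold Perc6.cycE
  split_ifs with c1 c2 c3 c4
  · refine ⟨⟨(R - 1, k), ?_, Or.inr (Or.inr (Or.inr ?_))⟩, (R, k), ?_, Or.inr (Or.inl ?_)⟩
    · rw [mem_BR]; simp only; omega
    · unfold ri; simp only [Prod.mk.injEq, and_true]; omega
    · rw [mem_BR]; simp only; omega
    · unfold le'; simp only [Prod.mk.injEq, and_true]; omega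
  · refine ⟨⟨(2 * R - k - 1, R - 1), ?_, Or.inr (Or.inr (Or.inl ?_))⟩, (2 * R - k - 1, R), ?_,
      Or.inl ?_⟩
    · rw [mem_BR]; simp only; omega
    · unfold to'; simp only [Prod.mk.injEq, and_true]; omega
    · rw [mem_BR]; simp only; omega
    · unfold bo; simp only [Prod.mk.injEq, and_true]; omega
  · refine ⟨⟨(-R, 4 * R - k - 1), ?_, Or.inr (Or.inl ?_)⟩, (-R - 1, 4 * R - k - 1), ?_,
      Or.inr (Or.inr (Or.inr ?_))⟩
    · rw [mem_BR]; simp only; omega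
    · unfold le'; simp only [Prod.mk.injEq, and_true]; omega
    · rw [mem_BR]; simp only; omega
    · unfold ri; simp only [Prod.mk.injEq, and_true]; omega
  · refine ⟨⟨(k - 6 * R, -R), ?_, Or.inl ?_⟩, (k - 6 * R, -R - 1), ?_,
      Or.inr (Or.inr (Or.inl ?_))⟩
    · rw [mem_BR]; simp only; omega
    · unfold bo; simp only [Prod.mk.injEq, and_true]; omega
    · rw [mem_BR]; simp only; omega
    · unfold to'; simp only [Prod.mk.injEq, and_true]; omega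
  · refine ⟨⟨(R - 1, k - 8 * R), ?_, Or.inr (Or.inr (Or.inr ?_))⟩, (R, k - 8 * R), ?_,
      Or.inr (Or.inl ?_)⟩
    · rw [mem_BR]; simp only; omega
    · unfold ri; simp only [Prod.mk.injEq, and_true]; omega
    · rw [mem_BR]; simp only; omega
    · unfold le'; simp only [Prod.mk.injEq, and_true]; omega

theorem cr_cases {f g : ℤ × ℤ} {R k : ℤ} (h0 : 0 ≤ k) (h1 : k < 8 * R)
    (h : (k < R ∧ f = (R, k) ∧ g = (R - 1, k)) ∨
      (R ≤ k ∧ k < 3 * R ∧ f = (2 * R - k - 1, R) ∧ g = (2 * R - k - 1, R - 1)) ∨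
      (3 * R ≤ k ∧ k < 5 * R ∧ f = (-R - 1, 4 * R - k - 1) ∧ g = (-R, 4 * R - k - 1)) ∨
      (5 * R ≤ k ∧ k < 7 * R ∧ f = (k - 6 * R, -R - 1) ∧ g = (k - 6 * R, -R)) ∨
      (7 * R ≤ k ∧ f = (R, k - 8 * R) ∧ g = (R - 1, k - 8 * R))) :
    Adj4 f g ∧ cr f g = Perc6.cycE 0 0 0 R k := by
  rcases h with ⟨h2, rfl, rfl⟩ | ⟨h2, h3, rfl, rfl⟩ | ⟨h2, h3, rfl, rfl⟩ | ⟨h2, h3, rfl, rfl⟩ |
    ⟨h2, rfl, rfl⟩
  · constructor
    · exact Or.inl ⟨rfl, Or.inr (by simp only; omega)⟩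
    · unfold cr Perc6.cycE le' ri to' bo
      simp only
      split_ifs <;> first | omega | (simp only [Prod.mk.injEq, and_true]; omega)
  · constructor
    · exact Or.inr ⟨rfl, Or.inr (by simp only; omega)⟩
    · unfold cr Perc6.cycE le' ri to' bo
      simp only
      split_ifs <;> first | omega | (simp only [Prod.mk.injEq, and_true]; omega)
  · constructor
    · exact Or.inl ⟨rfl, Or.inl (by simp only; omega)⟩
    · unfold cr Perc6.cycE le' ri to' bo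
      simp only
      split_ifs <;> first | omega | (simp only [Prod.mk.injEq, and_true]; omega)
  · constructor
    · exact Or.inr ⟨rfl, Or.inl (by simp only; omega)⟩
    · unfold cr Perc6.cycE le' ri to' bo
      simp only
      split_ifs <;> first | omega | (simp only [Prod.mk.injEq, and_true]; omega)
  · constructor
    · exact Or.inl ⟨rfl, Or.inr (by simp only; omega)⟩
    · unfold cr Perc6.cycE le' ri to' bo
      simp only
      split_ifs <;> first | omega | (simp only [Prod.mk.injEq, and_true]; omega)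

/-- The path into the hole from a straight row. -/
theorem inL_of_row {g : Par} {S : Set (ℤ × ℤ)} {a f₀ g₀ : ℤ × ℤ} {k x₀ x₁ y₀ y₁ : ℤ}
    (hR : 1 < g.R) (h0 : 0 ≤ k) (h1 : k < 8 * g.R)
    (h : (k < g.R ∧ f₀ = (g.R, k) ∧ g₀ = (g.R - 1, k)) ∨
      (g.R ≤ k ∧ k < 3 * g.R ∧ f₀ = (2 * g.R - k - 1, g.R) ∧ g₀ = (2 * g.R - k - 1, g.R - 1)) ∨
      (3 * g.R ≤ k ∧ k < 5 * g.R ∧ f₀ = (-g.R - 1, 4 * g.R - k - 1) ∧
        g₀ = (-g.R, 4 * g.R - k - 1)) ∨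
      (5 * g.R ≤ k ∧ k < 7 * g.R ∧ f₀ = (k - 6 * g.R, -g.R - 1) ∧ g₀ = (k - 6 * g.R, -g.R)) ∨
      (7 * g.R ≤ k ∧ f₀ = (g.R, k - 8 * g.R) ∧ g₀ = (g.R - 1, k - 8 * g.R)))
    (ha : a ∈ RF x₀ x₁ y₀ y₁) (hf₀ : f₀ ∈ RF x₀ x₁ y₀ y₁)
    (hrow : ∀ f ∈ RF x₀ x₁ y₀ y₁, OutR g.R k f ∧ f ∈ BR (0, 0) (g.d + 2 * g.n + 4) ∧ f ∉ S)
    (hH : ∀ f ∈ S, f ∉ BR (0, 0) g.R) : ∃ l, InL g S a k l := by
  obtain ⟨hadj, hcr⟩ := cr_cases h0 h1 h
  obtain ⟨l, hl1, hl2, hl3, hl4⟩ := rect_list ha hf₀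
  have hg₀ : g₀ ∈ RF (-g.R) g.R (-g.R) g.R := by
    rw [mem_RF]
    rcases h with ⟨h2, -, rfl⟩ | ⟨h2, h3, -, rfl⟩ | ⟨h2, h3, -, rfl⟩ | ⟨h2, h3, -, rfl⟩ |
      ⟨h2, -, rfl⟩ <;> simp only <;> omega
  obtain ⟨l', hl1', hl2', hl3', hl4'⟩ := rect_list (g := (-1, 0)) hg₀ (by
    rw [mem_RF]; simp only; omega)
  have hBR : ∀ f, f ∈ BR (0, 0) g.R ↔ f ∈ RF (-g.R) g.R (-g.R) g.R := by
    intro f
    rw [mem_BR, mem_RF]
    simp only
    omega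
  have hout : ∀ f ∈ l, f ∉ BR (0, 0) g.R := by
    intro f hf hb
    have h2 := (hrow f (hl4 f hf)).1
    rw [mem_BR] at hb
    unfold OutR at h2
    simp only at hb
    omega
  have hne : l ≠ [] := by
    rintro rfl
    simp at hl2
  have hne' : l' ≠ [] := by
    rintro rfl
    simp at hl2'
  refine ⟨l ++ l', ⟨⟨h0, h1⟩, ?_, ?_, ?_, ?_, ?_, ?_⟩⟩
  · refine IsCh.append hl1 hl1' ?_
    intro f f' e1 e2
    rw [hl3] at e1
    rw [hl2'] at e2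
    simp only [Option.some.injEq] at e1 e2
    rw [← e1, ← e2]
    exact hadj
  · rw [List.head?_append_of_ne_nil _ hne]
    exact hl2
  · rw [List.getLast?_append_of_ne_nil _ hne']
    exact hl3'
  · intro f hf
    rcases List.mem_append.1 hf with hf | hf
    · exact (hrow f (hl4 f hf)).2.2
    · intro hS
      exact hH f hS ((hBR f).2 (hl4' f hf))
  · intro f hf
    rcases List.mem_append.1 hf with hf | hf
    · exact Or.inr ⟨(hrow f (hl4 f hf)).1, (hrow f (hl4 f hf)).2.1⟩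
    · exact Or.inl ((hBR f).2 (hl4' f hf))
  · intro k' h0' h1'
    rw [xp_append hl3 hl2', hcr]
    obtain ⟨⟨fi, hfi, hsi⟩, fo, hfo, hso⟩ := cycE_in (by omega) h0' h1'
    rw [xp_side hl1 hsi (fun hh => hout _ hh hfi), xp_side hl1' hso
      (fun hh => hfo ((hBR _).2 (hl4' _ hh))), zero_add, add_zero]
    refine ind2_congr ⟨fun e => cycE_inj h0' h1' h0 h1 e, fun e => by rw [e]⟩


/-! ### The tips -/

theorem par_lin {g : Par} (hg : g.Ok) : g.R = g.d - g.Ai ∧ 100 * g.Ai ≤ g.d ∧ 100 * g.A ≤ g.w ∧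
    g.d + 4 * g.Ai ≤ g.A ∧ 100 * g.σ ≤ g.Ai ∧ 8 * g.n ≤ g.σ ∧ 12 ≤ g.n := by
  obtain ⟨h1, h2, h3, h4, h5, h6⟩ := hg
  have hAi : 0 ≤ g.Ai := by linarith
  have e1 : 100 * g.Ai ≤ g.Ni * g.Ai := mul_le_mul_of_nonneg_right h2 hAi
  have e2 : (g.Ni + 4) * g.Ai = g.Ni * g.Ai + 4 * g.Ai := by ring
  have hA : 0 ≤ g.A := by
    rw [e2] at h6
    linarith
  have e3 : 100 * g.A ≤ g.N * g.A := mul_le_mul_of_nonneg_right h1 hA
  refine ⟨?_, e1, e3, ?_, h5, h4, h3⟩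
  · unfold Par.R Par.d
    ring
  · unfold Par.d
    linarith

/-- The relation of the positions on the boundaries of the two boxes. -/
def KT (d Ai i t k : ℤ) : Prop :=
  (t < d ∧ k = t) ∨ (d ≤ t ∧ t < 3 * d + 2 ∧ k = t - 2 * Ai + i) ∨
  (3 * d + 2 ≤ t ∧ t < 5 * d + 2 ∧ k = t - 4 * Ai - 2) ∨
  (5 * d + 2 ≤ t ∧ t < 7 * d + 3 ∧ k = t - 6 * Ai - 3 - i) ∨
  (7 * d + 3 ≤ t ∧ k = t - 8 * Ai - 3)

theorem mem_LAT' {d w n : ℤ} {s : LF} (h : s ∈ LAT d w n) :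
    (((-(w + 2) ≤ s.1.1 + s.2 ∧ s.1.1 + s.2 < w ∧ 0 ≤ s.1.2 ∧ s.1.2 < w) ∨
      (-(w + 1) ≤ s.1.1 + s.2 ∧ s.1.1 + s.2 < w ∧ -w ≤ s.1.2 ∧ s.1.2 < 0)) ∧
    ¬ ((-(d + 2) ≤ s.1.1 + s.2 ∧ s.1.1 + s.2 < d ∧ 0 ≤ s.1.2 ∧ s.1.2 < d) ∨
      (-(d + 1) ≤ s.1.1 + s.2 ∧ s.1.1 + s.2 < d ∧ -d ≤ s.1.2 ∧ s.1.2 < 0))) ∧
    -n ≤ s.2 ∧ s.2 ≤ n := by
  obtain ⟨⟨h1, h2⟩, h3⟩ := mem_LAT.1 h
  rw [mem_BW] at h1 h2
  unfold pj at h1 h2
  simp only [one_mul] at h1 h2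
  exact ⟨⟨h1, h2⟩, abs_le.1 h3⟩

theorem away_lin {d a t : ℤ} (h : Perc.Q.Away d a t) : (a ≤ t ∨ t ≤ -a) ∧
    (a ≤ t - d ∨ t - d ≤ -a) ∧ (a ≤ t - (3 * d + 2) ∨ t - (3 * d + 2) ≤ -a) ∧
    (a ≤ t - (4 * d + 2) ∨ t - (4 * d + 2) ≤ -a) ∧ (a ≤ t - (5 * d + 2) ∨ t - (5 * d + 2) ≤ -a) ∧
    (a ≤ t - (7 * d + 3) ∨ t - (7 * d + 3) ≤ -a) ∧
    (a ≤ t - (8 * d + 3) ∨ t - (8 * d + 3) ≤ -a) := by
  have key : ∀ z ∈ Perc.Q.spec d, a ≤ t - z ∨ t - z ≤ -a := by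
    intro z hz
    have h1 := h z hz
    rw [le_abs] at h1
    omega
  have h0 := key 0 (by simp [Perc.Q.spec])
  rw [sub_zero] at h0
  exact ⟨h0, key _ (by simp [Perc.Q.spec]), key _ (by simp [Perc.Q.spec]),
    key _ (by simp [Perc.Q.spec]), key _ (by simp [Perc.Q.spec]), key _ (by simp [Perc.Q.spec]),
    key _ (by simp [Perc.Q.spec])⟩

/-- Visited faces in the same row. -/
theorem near_idx {σ : ℤ} {S : Set LF} (hsep : Perc3.Sep (σ - 1) S) {s s' : LF} (hs : s ∈ S)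
    (hs' : s' ∈ S) (h2 : s'.1.2 = s.1.2) (h1 : -(σ - 1) ≤ s.1.1 - s'.1.1)
    (h1' : s.1.1 - s'.1.1 ≤ σ - 1) : s'.2 = s.2 := by
  have h3 := hsep s hs s' hs' (abs_le.2 ⟨h1, h1'⟩) (by rw [h2, sub_self, abs_zero]; omega)
  rw [h2] at h3
  linarith

theorem bdU_cut {d t i : ℤ} (hd : 0 < d) : ¬ IsCut (shE i (bdU d t)) := by
  unfold IsCut shE bdU
  split_ifs <;> simp only [false_and, not_false_eq_true, true_and] <;> omega

/-- What is used of the visited faces. -/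
structure Cx (g : Par) (S : Set LF) : Prop where
  eR : g.R = g.d - g.Ai
  hd : 100 * g.Ai ≤ g.d
  hσ : 100 * g.σ ≤ g.Ai
  hn : 8 * g.n ≤ g.σ
  hn1 : 12 ≤ g.n
  idx : ∀ s ∈ S, -g.n ≤ s.2 ∧ s.2 ≤ g.n
  up : ∀ s ∈ S, 0 ≤ s.1.2 → s.1.2 < g.d → s.1.1 + s.2 < -(g.d + 2) ∨ g.d ≤ s.1.1 + s.2
  low : ∀ s ∈ S, -g.d ≤ s.1.2 → s.1.2 < 0 → s.1.1 + s.2 < -(g.d + 1) ∨ g.d ≤ s.1.1 + s.2
  sep : Perc3.Sep (g.σ - 1) S

theorem cx_of {g : Par} (hg : g.Ok) {S : Set LF} (hS : S ⊆ LAT g.d g.w g.n)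
    (hsep : Perc3.Sep (g.σ - 1) S) : Cx g S := by
  obtain ⟨eR, hd, hw, hA, hσ, hn, hn1⟩ := par_lin hg
  refine ⟨eR, hd, hσ, hn, hn1, ?_, ?_, ?_, hsep⟩
  · intro s hs
    exact (mem_LAT' (mem_coe.1 (hS hs))).2
  · intro s hs h1 h2
    have h3 := (mem_LAT' (mem_coe.1 (hS hs))).1.2
    clear hsep hS
    omega
  · intro s hs h1 h2
    have h3 := (mem_LAT' (mem_coe.1 (hS hs))).1.2
    clear hsep hS
    omega

theorem Cx.hole {g : Par} {S : Set LF} (h : Cx g S) {s : LF} (hs : s ∈ S) :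
    s.1 ∉ BR (0, 0) (g.d - g.n - 2) := by
  intro hb
  rw [mem_BR] at hb
  simp only at hb
  have h1 := h.idx s hs
  have h2 := h.up s hs
  have h3 := h.low s hs
  have h4 := h.hn1
  omega

theorem Cx.holeR {g : Par} {S : Set LF} (h : Cx g S) :
    ∀ f ∈ {f | ∃ s ∈ S, s.1 = f}, f ∉ BR (0, 0) g.R := by
  rintro f ⟨s, hs, rfl⟩ hb
  refine h.hole hs ?_
  have h1 := h.eR
  have h2 := h.hσ
  have h3 := h.hn
  have h4 := h.hn1
  rw [mem_BR] at hb ⊢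
  simp only at hb ⊢
  omega

theorem caseR {g : Par} {S : Set LF} (h : Cx g S) {i y k : ℤ} (hi : -g.n ≤ i) (hi' : i ≤ g.n)
    (hk : (k = y ∧ 0 ≤ y ∧ y ≤ g.d - 20 * g.Ai) ∨ (k = y + 8 * g.R ∧ y < 0 ∧
      -(g.d - 20 * g.Ai) ≤ y)) (hs₀ : ((g.d - i, y), i) ∈ S) :
    ∃ l, InL g {f | ∃ s ∈ S, s.1 = f} (g.d - 1 - i, y) k l := by
  have hH := h.holeR
  obtain ⟨eR, hd, hσ, hn, hn1, idx, up, low, sep⟩ := h
  refine inL_of_row (g := g) (f₀ := (g.R, y)) (g₀ := (g.R - 1, y)) (x₀ := g.R) (x₁ := g.d - i)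
    (y₀ := y) (y₁ := y + 1) (by omega) (by omega) (by omega) ?_
      (by rw [mem_RF]; simp only; omega) (by rw [mem_RF]; simp only; omega) ?_ hH
  · rcases hk with ⟨rfl, h1, h2⟩ | ⟨rfl, h1, h2⟩
    · exact Or.inl ⟨by omega, rfl, rfl⟩
    · exact Or.inr (Or.inr (Or.inr (Or.inr ⟨by omega, by rw [add_sub_cancel_right],
        by rw [add_sub_cancel_right]⟩)))
  · rintro ⟨x, y'⟩ hf
    rw [mem_RF] at hf
    simp only at hf
    obtain rfl : y' = y := by omega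
    refine ⟨?_, ?_, ?_⟩
    · unfold OutR
      rcases hk with ⟨rfl, h1, h2⟩ | ⟨rfl, h1, h2⟩
      · exact Or.inl ⟨by omega, by omega, rfl, by simp only; omega⟩
      · exact Or.inr (Or.inr (Or.inr (Or.inr ⟨by omega, by omega, by simp only; omega,
          by simp only; omega⟩)))
    · rw [mem_BR]; simp only; omega
    · rintro ⟨⟨⟨x', y''⟩, j⟩, hs', e⟩
      simp only [Prod.mk.injEq] at e
      obtain ⟨rfl, rfl⟩ := e
      have h2 := idx _ hs'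
      have h3 := up _ hs'
      have h4 := low _ hs'
      simp only at h2 h3 h4
      have h5 := near_idx sep hs₀ hs' rfl (by simp only; omega) (by simp only; omega)
      simp only at h5
      omega

theorem caseL {g : Par} {S : Set LF} (h : Cx g S) {i y z k : ℤ} (hi : -g.n ≤ i) (hi' : i ≤ g.n)
    (hk : k = 4 * g.R - y - 1) (hy : y ≤ g.d - 10 * g.Ai) (hy' : -(g.d - 10 * g.Ai) ≤ y)
    (hz : (0 ≤ y ∧ z = -(g.d + 2)) ∨ (y < 0 ∧ z = -(g.d + 1)))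
    (hs₀ : ((z - 1 - i, y), i) ∈ S) :
    ∃ l, InL g {f | ∃ s ∈ S, s.1 = f} (z - i, y) k l := by
  have hH := h.holeR
  obtain ⟨eR, hd, hσ, hn, hn1, idx, up, low, sep⟩ := h
  subst hk
  refine inL_of_row (g := g) (f₀ := (-g.R - 1, y)) (g₀ := (-g.R, y)) (x₀ := z - i) (x₁ := -g.R)
    (y₀ := y) (y₁ := y + 1) (by omega) (by omega) (by omega)
      (Or.inr (Or.inr (Or.inl ⟨by omega, by omega, by rw [Prod.mk.injEq]; omega,
        by rw [Prod.mk.injEq]; omega⟩)))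
      (by rw [mem_RF]; simp only; omega) (by rw [mem_RF]; simp only; omega) ?_ hH
  rintro ⟨x, y'⟩ hf
  rw [mem_RF] at hf
  simp only at hf
  obtain rfl : y' = y := by omega
  refine ⟨?_, ?_, ?_⟩
  · exact Or.inr (Or.inr (Or.inl ⟨by omega, by omega, by simp only; omega,
      by simp only; omega⟩))
  · rw [mem_BR]; simp only; omega
  · rintro ⟨⟨⟨x', y''⟩, j⟩, hs', e⟩
    simp only [Prod.mk.injEq] at e
    obtain ⟨rfl, rfl⟩ := e
    have h2 := idx _ hs'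
    have h3 := up _ hs'
    have h4 := low _ hs'
    simp only at h2 h3 h4
    have h5 := near_idx sep hs₀ hs' rfl (by simp only; omega) (by simp only; omega)
    simp only at h5
    omega

theorem caseT {g : Par} {S : Set LF} (h : Cx g S) {x k : ℤ}
    (hk : k = 2 * g.R - x - 1) (hx : x ≤ g.d - 10 * g.Ai) (hx' : -(g.d - 10 * g.Ai) ≤ x) :
    ∃ l, InL g {f | ∃ s ∈ S, s.1 = f} (x, g.d - 1) k l := by
  have hH := h.holeR
  obtain ⟨eR, hd, hσ, hn, hn1, idx, up, low, sep⟩ := h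
  subst hk
  refine inL_of_row (g := g) (f₀ := (x, g.R)) (g₀ := (x, g.R - 1)) (x₀ := x) (x₁ := x + 1)
    (y₀ := g.R) (y₁ := g.d) (by omega) (by omega) (by omega)
      (Or.inr (Or.inl ⟨by omega, by omega, by rw [Prod.mk.injEq]; omega,
        by rw [Prod.mk.injEq]; omega⟩))
      (by rw [mem_RF]; simp only; omega) (by rw [mem_RF]; simp only; omega) ?_ hH
  rintro ⟨x', y⟩ hf
  rw [mem_RF] at hf
  simp only at hf
  obtain rfl : x' = x := by omega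
  refine ⟨?_, ?_, ?_⟩
  · exact Or.inr (Or.inl ⟨by omega, by omega, by simp only; omega, by simp only; omega⟩)
  · rw [mem_BR]; simp only; omega
  · rintro ⟨⟨⟨x'', y''⟩, j⟩, hs', e⟩
    simp only [Prod.mk.injEq] at e
    obtain ⟨rfl, rfl⟩ := e
    have h2 := idx _ hs'
    have h3 := up _ hs'
    simp only at h2 h3
    omega

theorem caseB {g : Par} {S : Set LF} (h : Cx g S) {x k : ℤ}
    (hk : k = x + 6 * g.R) (hx : x ≤ g.d - 10 * g.Ai) (hx' : -(g.d - 10 * g.Ai) ≤ x) :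
    ∃ l, InL g {f | ∃ s ∈ S, s.1 = f} (x, -g.d) k l := by
  have hH := h.holeR
  obtain ⟨eR, hd, hσ, hn, hn1, idx, up, low, sep⟩ := h
  subst hk
  refine inL_of_row (g := g) (f₀ := (x, -g.R - 1)) (g₀ := (x, -g.R)) (x₀ := x) (x₁ := x + 1)
    (y₀ := -g.d) (y₁ := -g.R) (by omega) (by omega) (by omega)
      (Or.inr (Or.inr (Or.inr (Or.inl ⟨by omega, by omega, by rw [Prod.mk.injEq]; omega,
        by rw [Prod.mk.injEq]; omega⟩))))
      (by rw [mem_RF]; simp only; omega) (by rw [mem_RF]; simp only; omega) ?_ hH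
  rintro ⟨x', y⟩ hf
  rw [mem_RF] at hf
  simp only at hf
  obtain rfl : x' = x := by omega
  refine ⟨?_, ?_, ?_⟩
  · exact Or.inr (Or.inr (Or.inr (Or.inl ⟨by omega, by omega, by simp only; omega,
      by simp only; omega⟩)))
  · rw [mem_BR]; simp only; omega
  · rintro ⟨⟨⟨x'', y''⟩, j⟩, hs', e⟩
    simp only [Prod.mk.injEq] at e
    obtain ⟨rfl, rfl⟩ := e
    have h2 := idx _ hs'
    have h3 := low _ hs'
    simp only at h2 h3
    omega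

/-- The path into the hole from a tip. -/
theorem tip_inL {g : Par} {S : Set LF} (h : Cx g S) {t i : ℤ} (h0 : 0 ≤ t)
    (h1 : t < 8 * g.d + 3) (haw : Perc.Q.Away g.d (20 * g.Ai) t) {s₀ : LF} (hs₀ : s₀ ∈ S) {a : UE}
    (hside : IsSide s₀.1 a) (hl : lft s₀ a = bdL g.d t i) :
    ∃ a₁ k l, IsSide a₁ a ∧ KT g.d g.Ai i t k ∧ (-g.n ≤ i ∧ i ≤ g.n) ∧
      (0 ≤ k ∧ k < 8 * g.R) ∧ InL g {f | ∃ s ∈ S, s.1 = f} a₁ k l := by
  have hd := h.hd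
  have hσ := h.hσ
  have hn := h.hn
  have hn1 := h.hn1
  obtain ⟨w0, w1, w3, w4, w5, w7, w8⟩ := away_lin haw
  clear haw
  unfold lft bdL at hl
  rw [Prod.mk.injEq] at hl
  obtain ⟨ea, ei⟩ := hl
  rw [if_neg (fun h => bdU_cut (d := g.d) (t := t) (i := -i) (by omega) (ea ▸ h.1))] at ei
  have hi := h.idx _ hs₀
  have hu := h.up _ hs₀
  have hw := h.low _ hs₀
  obtain ⟨⟨x₀, y₀⟩, i₀⟩ := s₀
  simp only at ei hside hi hu hw
  subst ei
  have hR := h.eR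
  suffices hh : ∃ a₁ k l, IsSide a₁ a ∧ KT g.d g.Ai i₀ t k ∧
      InL g {f | ∃ s ∈ S, s.1 = f} a₁ k l by
    obtain ⟨a₁, k, l, k1, k2, k3⟩ := hh
    exact ⟨a₁, k, l, k1, k2, hi, k3.rng, k3⟩
  unfold shE bdU at ea
  by_cases c1 : t < g.d
  · rw [if_pos c1] at ea
    simp only at ea
    subst ea
    have e0 : x₀ = g.d - i₀ ∧ y₀ = t := by
      clear w0 w1 w3 w4 w5 w7 w8
      unfold IsSide bo le' to' ri at hside
      simp only [Prod.mk.injEq, Bool.true_eq_false, and_false, false_or, and_true] at hside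
      omega
    clear hu hw w3 w4 w5 w7 w8
    obtain ⟨rfl, rfl⟩ := e0
    obtain ⟨l, hl⟩ := caseR h (k := y₀) hi.1 hi.2 (Or.inl ⟨rfl, h0, by omega⟩) hs₀
    exact ⟨_, _, l, Or.inr (Or.inr (Or.inr (by
        unfold ri; simp only [Prod.mk.injEq, and_true]; omega))), Or.inl ⟨c1, rfl⟩, hl⟩
  rw [if_neg c1] at ea
  by_cases c2 : t < 3 * g.d + 2
  · rw [if_pos c2] at ea
    simp only at ea
    subst ea
    have e0 : x₀ = 2 * g.d - t - 1 - i₀ ∧ y₀ = g.d := by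
      clear w0 w1 w3 w4 w5 w7 w8
      unfold IsSide bo le' to' ri at hside
      simp only [Prod.mk.injEq, Bool.false_eq_true, and_false, false_or, and_true, or_false]
        at hside
      omega
    clear hu hw w0 w4 w5 w7 w8
    obtain ⟨rfl, rfl⟩ := e0
    obtain ⟨l, hl⟩ := caseT h (x := 2 * g.d - t - 1 - i₀) rfl (by omega) (by omega)
    exact ⟨_, _, l, Or.inr (Or.inr (Or.inl (by
        unfold to'; simp only [Prod.mk.injEq, and_true]; omega))),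
        Or.inr (Or.inl ⟨by omega, c2, by omega⟩), hl⟩
  rw [if_neg c2] at ea
  by_cases c3 : t < 5 * g.d + 2
  · obtain ⟨z, hz, ez⟩ : ∃ z : ℤ, ((t < 4 * g.d + 2 ∧ z = -(g.d + 2)) ∨
        (4 * g.d + 2 ≤ t ∧ z = -(g.d + 1))) ∧ a = (z - i₀, 4 * g.d + 1 - t, true) := by
      by_cases c4 : t < 4 * g.d + 2
      · rw [if_pos c4] at ea
        exact ⟨_, Or.inl ⟨c4, rfl⟩, by rw [ea]; rfl⟩
      · rw [if_neg c4, if_pos c3] at ea
        exact ⟨_, Or.inr ⟨by omega, rfl⟩, by rw [ea]; rfl⟩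
    clear ea
    subst ez
    have e0 : x₀ = z - 1 - i₀ ∧ y₀ = 4 * g.d + 1 - t := by
      clear w0 w1 w3 w4 w5 w7 w8
      unfold IsSide bo le' to' ri at hside
      simp only [Prod.mk.injEq, Bool.true_eq_false, and_false, false_or, and_true] at hside
      omega
    clear hu hw w0 w1 w4 w7 w8
    obtain ⟨rfl, rfl⟩ := e0
    obtain ⟨l, hl⟩ := caseL h (z := z) (k := 4 * g.R - (4 * g.d + 1 - t) - 1) hi.1 hi.2 rfl
      (by omega) (by omega) (by omega) hs₀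
    exact ⟨_, _, l, Or.inr (Or.inl (by unfold le'; simp only)),
        Or.inr (Or.inr (Or.inl ⟨by omega, c3, by omega⟩)), hl⟩
  rw [if_neg (by omega), if_neg c3] at ea
  by_cases c5 : t < 7 * g.d + 3
  · rw [if_pos c5] at ea
    simp only at ea
    subst ea
    have e0 : x₀ = t - 6 * g.d - 3 - i₀ ∧ y₀ = -g.d - 1 := by
      clear w0 w1 w3 w4 w5 w7 w8
      unfold IsSide bo le' to' ri at hside
      simp only [Prod.mk.injEq, Bool.false_eq_true, and_false, false_or, and_true, or_false]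
        at hside
      omega
    clear hu hw w0 w1 w3 w4 w8
    obtain ⟨rfl, rfl⟩ := e0
    obtain ⟨l, hl⟩ := caseB h (x := t - 6 * g.d - 3 - i₀) rfl (by omega) (by omega)
    exact ⟨_, _, l, Or.inl (by
        unfold bo; simp only [Prod.mk.injEq, and_true]; omega),
        Or.inr (Or.inr (Or.inr (Or.inl ⟨by omega, c5, by omega⟩))), hl⟩
  · rw [if_neg c5] at ea
    simp only at ea
    subst ea
    have e0 : x₀ = g.d - i₀ ∧ y₀ = t - 8 * g.d - 3 := by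
      clear w0 w1 w3 w4 w5 w7 w8
      unfold IsSide bo le' to' ri at hside
      simp only [Prod.mk.injEq, Bool.true_eq_false, and_false, false_or, and_true] at hside
      omega
    clear hu hw w0 w1 w3 w4 w5
    obtain ⟨rfl, rfl⟩ := e0
    obtain ⟨l, hl⟩ := caseR h (y := t - 8 * g.d - 3) (k := t - 8 * g.d - 3 + 8 * g.R) hi.1 hi.2
      (Or.inr ⟨rfl, by omega, by omega⟩) hs₀
    exact ⟨_, _, l, Or.inr (Or.inr (Or.inr (by
        unfold ri; simp only [Prod.mk.injEq, and_true]; omega))),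
        Or.inr (Or.inr (Or.inr (Or.inr ⟨by omega, by omega⟩))), hl⟩

/-! ### The components -/

/-- The structure of a lifted component which is compatible with an index. -/
theorem comp {ω : Cfg} {F S₁ D : Set (ℤ × ℤ)} {Ft : Set LF} {N : ℤ × ℤ → ℤ} {ν : UE → ℤ}
    {b x : UE} {i : ℤ} {p₀ q₀ q : ℤ × ℤ} (hI : IsInd F N ν) (hF : ∀ f ∈ F, (f, N f) ∈ Ft)
    (hS₁ : S₁ = {f | ∃ s ∈ SL (lcf 0 ω) Ft {(b, ν b)}, s.1 = f}) (hSF : S₁ ⊆ F) (hFD : F ⊆ D)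
    (hx : (x, i) ∈ ML (lcf 0 ω) Ft {(b, ν b)}) (hxb : x ≠ b) (hp₀ : p₀ ∈ S₁) (hp₀b : IsSide p₀ b)
    (hq₀ : q₀ ∉ D) (hq₀b : IsSide q₀ b) (hq : q ∉ D) (hqx : IsSide q x) :
    (x ∈ MM ω D b) ∧ SS ω D b = S₁ ∧ (∀ a f, f ∉ D → IsSide f a → a ∈ MM ω D b →
      (f = q ∧ a = x) ∨ (f = q₀ ∧ a = b)) := by
  -- projection
  have hproj : ∀ c ∈ ML (lcf 0 ω) Ft {(b, ν b)}, c.1 ∈ MM ω S₁ b := by
    refine ML_induction ?_ ?_
    · rintro c rfl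
      exact mem_MM_self
    · rintro c c' s hs hm hc h1
      have hsS : s ∈ SL (lcf 0 ω) Ft {(b, ν b)} := SL_of_MtL hs hm hc
      obtain ⟨a, a', hm, rfl, rfl⟩ := hm
      rw [Mt_const (lcf_zero ω _)] at hm
      exact MM_step (hS₁ ▸ ⟨s, hsS, rfl⟩) hm h1
  -- lift
  have hlift : ∀ a ∈ MM ω S₁ b, (a, ν a) ∈ ML (lcf 0 ω) Ft {(b, ν b)} := by
    intro a ha
    refine ML_of_MM (hI.mono fun f hf => hSF hf.1) (fun f hf => hF f (hSF hf.1)) ha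
  -- each unit edge has a visited face
  have hadj : ∀ a ∈ MM ω S₁ b, ∃ f ∈ S₁, IsSide f a := by
    intro a ha
    rcases Relation.ReflTransGen.cases_tail ha with h | ⟨c, -, f, hf, hm⟩
    · subst h
      exact ⟨p₀, hp₀, hp₀b⟩
    · exact ⟨f, hf, hm.right⟩
  have hxM : x ∈ MM ω S₁ b := hproj _ hx
  have hS₁D : S₁ ⊆ D := hSF.trans hFD
  have hbD : Perc6.BdU D b := ⟨⟨p₀, hS₁D hp₀, hp₀b⟩, q₀, hq₀, hq₀b⟩
  have hxD : Perc6.BdU D x := by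
    obtain ⟨f, hf, hs⟩ := hadj x hxM
    exact ⟨⟨f, hS₁D hf, hs⟩, q, hq, hqx⟩
  have hbS : Perc6.BdU S₁ b := ⟨⟨p₀, hp₀, hp₀b⟩, q₀, fun h => hq₀ (hS₁D h), hq₀b⟩
  have hxS : Perc6.BdU S₁ x := by
    obtain ⟨f, hf, hs⟩ := hadj x hxM
    exact ⟨⟨f, hf, hs⟩, q, fun h => hq (hS₁D h), hqx⟩
  have heq : MM ω D b = MM ω S₁ b :=
    Perc6.MM_eq_of_two hS₁D mem_MM_self hxM hxb.symm hbD hxD
  -- the faces of a unit edge
  have htwo : ∀ {f g h : ℤ × ℤ} {a : UE}, IsSide f a → IsSide g a → IsSide h a → f ≠ g → h ≠ g →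
      f = h := by
    intro f g h a h1 h2 h3 h4 h5
    rcases Perc6.C2Aux.eq_ahead h1 with e1 | e1 <;> rcases Perc6.C2Aux.eq_ahead h2 with e2 | e2 <;>
      rcases Perc6.C2Aux.eq_ahead h3 with e3 | e3 <;> first
      | exact e1.trans e3.symm
      | exact absurd (e1.trans e2.symm) h4
      | exact absurd (e3.trans e2.symm) h5
  have hends : ∀ a f, f ∉ S₁ → IsSide f a → a ∈ MM ω S₁ b → (f = q ∧ a = x) ∨
      (f = q₀ ∧ a = b) := by
    intro a f hf hs ha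
    obtain ⟨g, hg, hgs⟩ := hadj a ha
    have haS : Perc6.BdU S₁ a := ⟨⟨g, hg, hgs⟩, f, hf, hs⟩
    have hfg : f ≠ g := fun h => hf (h ▸ hg)
    rcases Perc6.bdU_le_two mem_MM_self hxM ha hbS hxS haS with h | h | h
    · exact absurd h.symm hxb
    · subst h
      right
      refine ⟨htwo hs hgs hq₀b hfg ?_, rfl⟩
      intro h
      exact hq₀ (hS₁D (h ▸ hg))
    · subst h
      left
      refine ⟨htwo hs hgs hqx hfg ?_, rfl⟩
      intro h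
      exact hq (hS₁D (h ▸ hg))
  refine ⟨heq ▸ hxM, ?_, ?_⟩
  · ext f
    constructor
    · rintro ⟨hfD, a, ha, hs⟩
      rw [heq] at ha
      by_contra hf
      rcases hends a f hf hs ha with ⟨rfl, -⟩ | ⟨rfl, -⟩
      · exact hq hfD
      · exact hq₀ hfD
    · intro hf
      have hf' := hf
      rw [hS₁] at hf'
      obtain ⟨s, ⟨hs, a, ha, hl⟩, rfl⟩ := hf'
      refine ⟨hS₁D hf, a, ?_, ha⟩
      rw [heq]
      exact hproj _ hl
  · intro a f hf hs ha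
    rw [heq] at ha
    exact hends a f (fun h => hf (hS₁D h)) hs ha

/-- The index of the visited faces. -/
theorem exists_ind {S : Set LF} {σ : ℤ} (hσ : 2 ≤ σ) (hsep : Perc3.Sep (σ - 1) S)
    (h0 : ∀ s ∈ S, s.1 ≠ (-1, 0) ∧ s.1 ≠ (-1, -1)) :
    ∃ N ν, IsInd {f | ∃ s ∈ S, s.1 = f} N ν ∧ ∀ s ∈ S, N s.1 = s.2 := by
  classical
  have huniq : ∀ s ∈ S, ∀ s' ∈ S, s.1 = s'.1 → s.2 = s'.2 := by
    intro s hs s' hs' h
    refine near_idx hsep hs' hs (by rw [h]) ?_ ?_ <;> rw [h] <;> omega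
  have hcomp : ∀ s ∈ S, ∀ s' ∈ S, ∀ a, IsSide s.1 a → IsSide s'.1 a → lft s a = lft s' a := by
    have key : ∀ s ∈ S, ∀ s' ∈ S, ∀ a, IsSide s.1 a → IsSide s'.1 a → s.1.1 ≤ s'.1.1 →
        s'.1.2 ≤ s.1.2 → lft s a = lft s' a := by
      intro s hs s' hs' a h1 h2 h3 h4
      by_cases he : s.1 = s'.1
      · have h5 := huniq s hs s' hs' he
        rw [Prod.ext he h5]
      have hz := h0 s hs
      have hz' := h0 s' hs'
      obtain ⟨⟨x, y⟩, i⟩ := s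
      obtain ⟨⟨x', y'⟩, i'⟩ := s'
      simp only at h1 h2 h3 h4 he hz hz'
      have hne : x ≠ x' ∨ y ≠ y' := by
        by_contra hc
        rw [not_or, not_not, not_not] at hc
        exact he (by rw [hc.1, hc.2])
      have hgeo : (x' = x + 1 ∧ y' = y ∧ a = (x', y, true)) ∨
          (x' = x ∧ y' = y - 1 ∧ a = (x, y, false)) := by
        obtain ⟨u, v, c⟩ := a
        unfold IsSide bo le' to' ri at h1 h2
        simp only [Prod.mk.injEq] at h1 h2 ⊢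
        cases c
        · simp only [Bool.false_eq_true, and_false, false_or, and_true, or_false] at h1 h2 ⊢
          omega
        · simp only [Bool.true_eq_false, and_false, false_or, and_true, or_false] at h1 h2 ⊢
          omega
      rcases hgeo with ⟨rfl, rfl, rfl⟩ | ⟨rfl, rfl, rfl⟩
      · have h5 := near_idx hsep hs hs' rfl (by simp only; omega) (by simp only; omega)
        simp only at h5
        unfold lft IsCut
        simp only [Bool.true_eq_false, false_and, if_false, h5]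
      · have h5 := hsep _ hs _ hs' (by simp only; rw [abs_le]; omega)
          (by simp only; rw [abs_le]; omega)
        simp only [ne_eq, Prod.mk.injEq, not_and] at hz hz'
        unfold lft IsCut
        unfold lv at h5
        simp only [true_and, Prod.mk.injEq] at h5 ⊢
        split_ifs at h5 ⊢ <;> omega
    intro s hs s' hs' a h1 h2
    have hgeo : (s.1.1 ≤ s'.1.1 ∧ s'.1.2 ≤ s.1.2) ∨ (s'.1.1 ≤ s.1.1 ∧ s.1.2 ≤ s'.1.2) := by
      obtain ⟨⟨x, y⟩, i⟩ := s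
      obtain ⟨⟨x', y'⟩, i'⟩ := s'
      obtain ⟨u, v, c⟩ := a
      unfold IsSide bo le' to' ri at h1 h2
      simp only [Prod.mk.injEq] at h1 h2 ⊢
      cases c
      · simp only [Bool.false_eq_true, and_false, false_or, and_true, or_false] at h1 h2 ⊢
        omega
      · simp only [Bool.true_eq_false, and_false, false_or, and_true] at h1 h2 ⊢
        omega
    rcases hgeo with h | h
    · exact key s hs s' hs' a h1 h2 h.1 h.2
    · exact (key s' hs' s hs a h2 h1 h.1 h.2).symm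
  refine ⟨fun f => if h : ∃ i, (f, i) ∈ S then h.choose else 0,
    fun a => if h : ∃ s ∈ S, IsSide s.1 a then (lft h.choose a).2 else 0, ?_, ?_⟩
  · rintro f ⟨s, hs, rfl⟩ a ha
    have h1 : ∃ i, (s.1, i) ∈ S := ⟨s.2, hs⟩
    have h2 : ∃ s ∈ S, IsSide s.1 a := ⟨s, hs, ha⟩
    beta_reduce
    rw [dif_pos h1, dif_pos h2]
    have h3 := hcomp _ h1.choose_spec _ h2.choose_spec.1 a ha h2.choose_spec.2
    rw [h3]
    rfl
  · intro s hs
    have h1 : ∃ i, (s.1, i) ∈ S := ⟨s.2, hs⟩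
    simp only
    rw [dif_pos h1]
    exact huniq _ h1.choose_spec _ hs rfl

/-- An element of a component other than the start has a visited face. -/
theorem exists_face {ζ : LF → Bool} {Ft : Set LF} {e c : LE} (hc : c ∈ ML ζ Ft {e}) (hne : c ≠ e) :
    ∃ s ∈ SL ζ Ft {e}, ∃ a, IsSide s.1 a ∧ lft s a = c := by
  obtain ⟨e', he', hr⟩ := hc
  rw [Set.mem_singleton_iff] at he'
  subst he'
  rcases Relation.ReflTransGen.cases_tail hr with h | ⟨c', hc', s, hs, hm⟩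
  · exact absurd h hne
  · obtain ⟨a, a', hm, rfl, rfl⟩ := hm
    exact ⟨s, ⟨hs, a, hm.left, ⟨_, rfl, hc'⟩⟩, a', hm.right, rfl⟩

theorem sep_of_near {g : Par} (hg : g.Ok) {t₁ t₂ i₁ i₂ k₁ k₂ : ℤ} (h1 : KT g.d g.Ai i₁ t₁ k₁)
    (h2 : KT g.d g.Ai i₂ t₂ k₂) (hi₁ : -g.n ≤ i₁ ∧ i₁ ≤ g.n) (hi₂ : -g.n ≤ i₂ ∧ i₂ ≤ g.n)
    (hn : ¬ Perc.Q.Near g.d (20 * g.Ai) t₁ t₂) :
    10 * g.Ai ≤ |k₁ - k₂| ∧ |k₁ - k₂| ≤ 8 * g.R - 10 * g.Ai := by
  obtain ⟨eR, hd, -, -, hσ, hn1, hn2⟩ := par_lin hg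
  unfold Perc.Q.Near at hn
  rw [not_or, not_lt, not_lt, le_abs, abs_le] at hn
  rw [le_abs, abs_le, eR]
  unfold KT at h1 h2
  rcases h1 with h1 | h1 | h1 | h1 | h1 <;> rcases h2 with h2 | h2 | h2 | h2 | h2 <;> omega

/-- The positions are not near the corners of the hole. -/
theorem cor_of {g : Par} (hg : g.Ok) {t i k : ℤ} (h1 : KT g.d g.Ai i t k)
    (hi : -g.n ≤ i ∧ i ≤ g.n) (haw : Perc.Q.Away g.d (20 * g.Ai) t) :
    ∀ j : ℤ, (j = 1 ∨ j = 3 ∨ j = 5 ∨ j = 7) → 10 * g.Ai ≤ |k - j * g.R| := by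
  obtain ⟨eR, hd, -, -, hσ, hn1, hn2⟩ := par_lin hg
  obtain ⟨w0, w1, w3, w4, w5, w7, w8⟩ := away_lin haw
  clear haw
  rw [eR]
  unfold KT at h1
  intro j hj
  rw [le_abs]
  rcases hj with rfl | rfl | rfl | rfl <;> rcases h1 with h1 | h1 | h1 | h1 | h1 <;> omega

theorem bdU_bd {d t : ℤ} (hd : 0 < d) (h0 : 0 ≤ t) (h1 : t < 8 * d + 3) :
    -(d + 2) ≤ (bdU d t).1 ∧ (bdU d t).1 ≤ d := by
  unfold bdU
  split_ifs <;> simp only <;> omega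

/-- One of the two strands. -/
theorem path {g : Par} {ω : Cfg} {S : Set LF} (h : Cx g S) (hSL : S ⊆ LAT g.d g.w g.n) {b : UE}
    {p : ℤ × ℤ} {N : ℤ × ℤ → ℤ} {ν : UE → ℤ} (hb : g.d + g.n + 3 ≤ b.1 ∨ b.1 ≤ -(g.d + g.n + 3))
    (hsub : SL (lcf 0 ω) (LAT g.d g.w g.n) {(b, 0)} ⊆ S)
    (hI : IsInd {f | ∃ s ∈ S, s.1 = f} N ν) (hN : ∀ s ∈ S, N s.1 = s.2)
    (hR : RinT (lcf 0 ω) g.d g.w g.n (b, 0))
    (haw : ∀ s i, 0 ≤ s → s < 8 * g.d + 3 → bdL g.d s i ∈ ML (lcf 0 ω) (LAT g.d g.w g.n) {(b, 0)} →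
      Perc.Q.Away g.d (20 * g.Ai) s)
    (hp : (p, 0) ∈ LAT g.d g.w g.n) (hpb : IsSide p b) (hcut : ¬ IsCut b) :
    ∃ (a₁ : ℤ × ℤ) (x₁ : UE) (k₁ : ℤ) (l₁ : List (ℤ × ℤ)) (t i : ℤ),
      (0 ≤ t ∧ t < 8 * g.d + 3 ∧ bdL g.d t i ∈ ML (lcf 0 ω) (LAT g.d g.w g.n) {(b, 0)}) ∧
      (-(g.d + g.n + 2) ≤ x₁.1 ∧ x₁.1 ≤ g.d + g.n) ∧ IsSide a₁ x₁ ∧ KT g.d g.Ai i t k₁ ∧
      (-g.n ≤ i ∧ i ≤ g.n) ∧ InL g {f | ∃ s ∈ S, s.1 = f} a₁ k₁ l₁ ∧
      ∀ (D : Set (ℤ × ℤ)) (q₀ : ℤ × ℤ), {f | ∃ s ∈ S, s.1 = f} ⊆ D → q₀ ∉ D → IsSide q₀ b →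
        a₁ ∉ D → x₁ ∈ MM ω D b ∧
        SS ω D b = {f | ∃ s ∈ SL (lcf 0 ω) (LAT g.d g.w g.n) {(b, 0)}, s.1 = f} ∧
        (∀ a f, f ∉ D → IsSide f a → a ∈ MM ω D b → (f = a₁ ∧ a = x₁) ∨ (f = q₀ ∧ a = b)) := by
  obtain ⟨t, i, ⟨h0, h1⟩, hm⟩ := hR
  have hd := h.hd
  have hσ := h.hσ
  have hn := h.hn
  have hn1 := h.hn1
  have hbd := bdU_bd (d := g.d) (by omega) h0 h1
  have hne : bdL g.d t i ≠ (b, 0) := by
    intro he
    unfold bdL shE at he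
    rw [Prod.mk.injEq] at he
    obtain ⟨e1, e2⟩ := he
    subst e2
    rw [← e1] at hb
    simp only at hb
    omega
  obtain ⟨s₀, hs₀, a, hside, hl⟩ := exists_face hm hne
  obtain ⟨a₁, k, l, hs₁, hk, hi, hkr, hin⟩ := tip_inL h h0 h1 (haw t i h0 h1 hm) (hsub hs₀) hside hl
  have hax : a = (bdL g.d t i).1 := by
    rw [← hl]; rfl
  have hx : -(g.d + g.n + 2) ≤ a.1 ∧ a.1 ≤ g.d + g.n := by
    rw [hax]
    unfold bdL shE
    simp only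
    omega
  have hab : a ≠ b := by
    rintro rfl
    omega
  have hp₀ : (p, 0) ∈ SL (lcf 0 ω) (LAT g.d g.w g.n) {(b, 0)} := by
    refine ⟨mem_coe.2 hp, b, hpb, ?_⟩
    have : lft (p, 0) b = (b, 0) := by
      unfold lft
      rw [if_neg (fun hh => hcut hh.1)]
    rw [this]
    exact mem_ML_of_mem rfl
  have hν : ν b = 0 := by
    have h2 := hI p ⟨_, hsub hp₀, rfl⟩ b hpb
    have h3 := hN _ (hsub hp₀)
    simp only at h3
    rw [h3] at h2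
    unfold lft at h2
    rw [if_neg (fun hh => hcut hh.1), Prod.mk.injEq] at h2
    exact h2.2.symm
  refine ⟨a₁, a, k, l, t, i, ⟨h0, h1, hm⟩, hx, hs₁, hk, hi, hin, ?_⟩
  intro D q₀ hD hq₀ hq₀b ha₁
  refine comp (ω := ω) (F := {f | ∃ s ∈ S, s.1 = f})
    (S₁ := {f | ∃ s ∈ SL (lcf 0 ω) (LAT g.d g.w g.n) {(b, 0)}, s.1 = f})
    (Ft := LAT g.d g.w g.n) (N := N) (ν := ν) (i := i) (p₀ := p) hI ?_ (by rw [hν]) ?_ hD ?_ hab
    ⟨_, hp₀, rfl⟩ hpb hq₀ hq₀b ha₁ hs₁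
  · rintro f ⟨s, hs, rfl⟩
    rw [hN s hs]
    exact hSL hs
  · rintro f ⟨s, hs, rfl⟩
    exact ⟨s, hsub hs, rfl⟩
  · rw [hν]
    have : (a, i) = bdL g.d t i := by
      rw [hax]; rfl
    rw [this]
    exact hm

theorem eR_eq {w y : ℤ} (h : y < w) : eR w y = (tR w y, 0) := by
  unfold eR bdL bdU shE tR
  rw [if_pos h]
  simp

theorem eLf_eq {w y : ℤ} (h0 : 0 ≤ y) (h : y < w) : eLf w y = (tL w y, 0) := by
  unfold eLf bdL bdU shE tL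
  rw [if_neg (by omega), if_neg (by omega), if_pos (by omega)]
  simp

end ZDAux

open ZDAux

theorem reading {N A Ni Ai σ : ℤ} {m : ℕ} (hg : (parX N A Ni Ai σ m).Ok) {ω : Cfg} {ya yb : ℤ}
    (hp : (ya, yb) ∈ Ports (N * A)) (h : lcf 0 ω ∈ PX N A Ni Ai σ m ya yb) :
    ∃ a₁ a₂ x₁ x₂ k₁ k₂ l₁ l₂, StrZ (parX N A Ni Ai σ m) ω ya yb a₁ a₂ x₁ x₂ k₁ k₂ l₁ l₂
      (SPZ (N * A) (Ni * Ai) (2 * m + 12) ya yb ω) := by
  obtain ⟨hP, hX⟩ := h
  obtain ⟨eR', hd, hw, hA, hσ, hn, hn1⟩ := par_lin hg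
  have hyp := hp
  unfold Ports at hyp
  rw [mem_filter, mem_product, mem_Ico, mem_Ico] at hyp
  simp only at hyp
  obtain ⟨⟨⟨ya0, ya1⟩, yb0, yb1⟩, ya2, ya3, yb2, yb3, -⟩ := hyp
  set g := parX N A Ni Ai σ m with hgdef
  have gw : g.w = N * A := rfl
  have gd : g.d = Ni * Ai := rfl
  have gn : g.n = 2 * m + 12 := rfl
  have gσ : g.σ = σ := rfl
  have gA : g.A = A := rfl
  have gAi : g.Ai = Ai := rfl
  rw [← gw] at ya1 yb1 ya2 ya3 yb2 yb3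
  -- the set of the visited lifted faces
  obtain ⟨S, hSdef⟩ : ∃ S : Set LF, S = SL (lcf 0 ω) (LAT g.d g.w g.n)
    ({eR g.w ya} ∪ {eLf g.w yb}) := ⟨_, rfl⟩
  have hSL : S ⊆ LAT g.d g.w g.n := hSdef ▸ SL_sub
  have hsep : Perc3.Sep (g.σ - 1) S := by
    rw [hSdef]
    exact sep_pairT (L := g.w + g.σ) (d₀ := g.d - g.σ) (m := m) (t₁ := ya)
      (t₂ := 4 * g.w + 1 - yb) (ε := 0) (by omega) (by omega) (by omega) (by omega) hP
  have hcx : Cx g S := cx_of hg hSL hsep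
  have hSPZ : SPZ (N * A) (Ni * Ai) (2 * m + 12) ya yb ω = {f | ∃ s ∈ S, s.1 = f} := by
    rw [hSdef]; rfl
  rw [hSPZ]
  have hSu : S = SL (lcf 0 ω) (LAT g.d g.w g.n) {eR g.w ya} ∪
      SL (lcf 0 ω) (LAT g.d g.w g.n) {eLf g.w yb} := by
    rw [hSdef, SL_union]
  have hb₁ : ∀ s ∈ S, |s.1.1 - g.w| ≤ 6 * g.A → |s.1.2 - ya| ≤ 6 * g.A → s.2 = 0 := by
    rw [hSdef]; exact hX.ball₁
  have hb₂ : ∀ s ∈ S, |s.1.1 + g.w| ≤ 6 * g.A → |s.1.2 - yb| ≤ 6 * g.A → s.2 = 0 := by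
    rw [hSdef]; exact hX.ball₂
  have near₁ : ∀ f ∈ {f | ∃ s ∈ S, s.1 = f}, |f.1 - g.w| ≤ 5 * g.A → |f.2 - ya| ≤ 5 * g.A →
      f.1 < g.w := by
    rintro f ⟨s, hs, rfl⟩ h1 h2
    have h3 := hb₁ s hs (by linarith [abs_nonneg (s.1.1 - g.w)])
      (by linarith [abs_nonneg (s.1.1 - g.w)])
    have h4 := (mem_LAT' (mem_coe.1 (hSL hs))).1.1
    rw [h3] at h4
    omega
  have near₂ : ∀ f ∈ {f | ∃ s ∈ S, s.1 = f}, |f.1 + g.w| ≤ 5 * g.A → |f.2 - yb| ≤ 5 * g.A →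
      -(g.w + 2) ≤ f.1 := by
    rintro f ⟨s, hs, rfl⟩ h1 h2
    have h3 := hb₂ s hs (by linarith [abs_nonneg (s.1.1 + g.w)])
      (by linarith [abs_nonneg (s.1.1 + g.w)])
    have h4 := (mem_LAT' (mem_coe.1 (hSL hs))).1.1
    rw [h3] at h4
    omega
  obtain ⟨N', ν, hI, hN⟩ := exists_ind (S := S) (σ := g.σ) (by omega) hsep (fun s hs => by
    have h1 := hcx.hole hs
    rw [mem_BR] at h1
    simp only at h1
    constructor
    · intro he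
      rw [he] at h1
      simp only at h1
      omega
    · intro he
      rw [he] at h1
      simp only at h1
      omega)
  have heR : eR g.w ya = (tR g.w ya, 0) := eR_eq ya1
  have heL : eLf g.w yb = (tL g.w yb, 0) := eLf_eq yb0 yb1
  have hR₁ : RinT (lcf 0 ω) g.d g.w g.n (eR g.w ya) := hP.1
  have hR₂ : RinT (lcf 0 ω) g.d g.w g.n (eLf g.w yb) := hP.2.1
  rw [heR] at hR₁
  rw [heL] at hR₂
  have hin₁ : ((g.w - 1, ya), 0) ∈ LAT g.d g.w g.n := by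
    rw [mem_LAT, mem_BW, mem_BW]
    unfold pj
    simp only [abs_zero]
    omega
  have hin₂ : ((-(g.w + 2), yb), 0) ∈ LAT g.d g.w g.n := by
    rw [mem_LAT, mem_BW, mem_BW]
    unfold pj
    simp only [abs_zero]
    omega
  have hcR : ¬ IsCut (tR g.w ya) := by
    unfold IsCut tR
    simp
  have hcL : ¬ IsCut (tL g.w yb) := by
    unfold IsCut tL
    simp
  have haw₁ : ∀ s i, 0 ≤ s → s < 8 * g.d + 3 →
      bdL g.d s i ∈ ML (lcf 0 ω) (LAT g.d g.w g.n) {(tR g.w ya, 0)} →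
      Perc.Q.Away g.d (20 * g.Ai) s := by
    rw [← heR]
    exact hX.away₁
  have haw₂ : ∀ s i, 0 ≤ s → s < 8 * g.d + 3 →
      bdL g.d s i ∈ ML (lcf 0 ω) (LAT g.d g.w g.n) {(tL g.w yb, 0)} →
      Perc.Q.Away g.d (20 * g.Ai) s := by
    rw [← heL]
    exact hX.away₂
  have hsub₁ : SL (lcf 0 ω) (LAT g.d g.w g.n) {(tR g.w ya, 0)} ⊆ S := by
    rw [← heR, hSu]
    exact Set.subset_union_left
  have hsub₂ : SL (lcf 0 ω) (LAT g.d g.w g.n) {(tL g.w yb, 0)} ⊆ S := by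
    rw [← heL, hSu]
    exact Set.subset_union_right
  obtain ⟨a₁, x₁, k₁, l₁, t₁, i₁, ⟨ht₁, ht₁', hm₁⟩, hx₁, hs₁, hK₁, hi₁, hl₁, hc₁⟩ :=
    path (ω := ω) (b := tR g.w ya) (p := (g.w - 1, ya)) hcx hSL (by unfold tR; simp only; omega)
      hsub₁ hI hN hR₁ haw₁ hin₁ (Or.inr (Or.inr (Or.inr (by
        unfold tR ri; simp only [sub_add_cancel])))) hcR
  obtain ⟨a₂, x₂, k₂, l₂, t₂, i₂, ⟨ht₂, ht₂', hm₂⟩, hx₂, hs₂, hK₂, hi₂, hl₂, hc₂⟩ :=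
    path (ω := ω) (b := tL g.w yb) (p := (-(g.w + 2), yb)) hcx hSL (by unfold tL; simp only; omega)
      hsub₂ hI hN hR₂ haw₂ hin₂ (Or.inr (Or.inl (by unfold tL le'; simp only))) hcL
  have hD : {f | ∃ s ∈ S, s.1 = f} ⊆ DZ g.w ya yb a₁ a₂ := by
    intro f hf
    refine ⟨?_, ?_, ?_, ?_⟩
    · rintro rfl
      exact hl₁.fresh _ (List.mem_of_mem_head? hl₁.head) hf
    · rintro rfl
      exact hl₂.fresh _ (List.mem_of_mem_head? hl₂.head) hf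
    · rintro rfl
      have h1 := near₁ _ hf (by simp only; rw [abs_le]; omega) (by simp only; rw [abs_le]; omega)
      simp only at h1
      omega
    · rintro rfl
      have h1 := near₂ _ hf (by simp only; rw [abs_le]; omega) (by simp only; rw [abs_le]; omega)
      simp only at h1
      omega
  have hn₁ : a₁ ∉ DZ g.w ya yb a₁ a₂ := fun h => h.1 rfl
  have hn₂ : a₂ ∉ DZ g.w ya yb a₁ a₂ := fun h => h.2.1 rfl
  have hn₃ : (g.w, ya) ∉ DZ g.w ya yb a₁ a₂ := fun h => h.2.2.1 rfl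
  have hn₄ : (-(g.w + 3), yb) ∉ DZ g.w ya yb a₁ a₂ := fun h => h.2.2.2 rfl
  have hsR : IsSide (g.w, ya) (tR g.w ya) := Or.inr (Or.inl rfl)
  have hsL : IsSide (-(g.w + 3), yb) (tL g.w yb) := by
    refine Or.inr (Or.inr (Or.inr ?_))
    unfold tL ri
    simp only [Prod.mk.injEq, and_true]
    omega
  obtain ⟨m₁, v₁, e₁⟩ := hc₁ _ _ hD hn₃ hsR hn₁
  obtain ⟨m₂, v₂, e₂⟩ := hc₂ _ _ hD hn₄ hsL hn₂
  have hnot : ∀ f, (f = a₁ ∨ f = a₂ ∨ f = (g.w, ya) ∨ f = (-(g.w + 3), yb)) →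
      f ∉ DZ g.w ya yb a₁ a₂ := by
    rintro f (rfl | rfl | rfl | rfl)
    · exact hn₁
    · exact hn₂
    · exact hn₃
    · exact hn₄
  refine ⟨a₁, a₂, x₁, x₂, k₁, k₂, l₁, l₂, ⟨hp, m₁, m₂, hs₁, hs₂,
    fun a f hf hs ha => e₁ a f (hnot f hf) hs ha, fun a f hf hs ha => e₂ a f (hnot f hf) hs ha,
    ?_, ?_, ?_, ?_, near₁, near₂, hl₁, hl₂, ?_, fun j hj =>
      ⟨cor_of hg hK₁ hi₁ (haw₁ t₁ i₁ ht₁ ht₁' hm₁) j hj,
        cor_of hg hK₂ hi₂ (haw₂ t₂ i₂ ht₂ ht₂' hm₂) j hj⟩⟩⟩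
  · intro hm
    rcases e₁ _ _ hn₄ hsL hm with ⟨-, h1⟩ | ⟨-, h1⟩
    · rw [← h1] at hx₁
      unfold tL at hx₁
      simp only at hx₁
      omega
    · unfold tL tR at h1
      rw [Prod.mk.injEq] at h1
      omega
  · rw [v₁, v₂, hSu, heR, heL]
    ext f
    constructor
    · rintro (⟨s, hs, rfl⟩ | ⟨s, hs, rfl⟩)
      · exact ⟨s, Or.inl hs, rfl⟩
      · exact ⟨s, Or.inr hs, rfl⟩
    · rintro ⟨s, hs | hs, rfl⟩
      · exact Or.inl ⟨s, hs, rfl⟩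
      · exact Or.inr ⟨s, hs, rfl⟩
  · rintro f ⟨s, hs, rfl⟩
    have h1 := mem_LAT' (mem_coe.1 (hSL hs))
    omega
  · rintro f ⟨s, hs, rfl⟩
    exact hcx.hole hs
  · refine sep_of_near hg hK₁ hK₂ hi₁ hi₂ ?_
    rw [← heR] at hm₁
    rw [← heL] at hm₂
    exact hX.near t₁ i₁ t₂ i₂ ht₁ ht₁' hm₁ ht₂ ht₂' hm₂

/-- The visited faces form a stopping set. -/
theorem stop_SPZ (w d n ya yb : ℤ) (ω ω' : Cfg) (h : ∀ f ∈ SPZ w d n ya yb ω, ω f = ω' f) :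
    SPZ w d n ya yb ω' = SPZ w d n ya yb ω := by
  have h1 := stopping_SL (LAT d w n : Set LF) ({eR w ya} ∪ {eLf w yb}) (lcf 0 ω) (lcf 0 ω')
    (fun s hs => by
      rw [lcf_zero, lcf_zero]
      exact h s.1 ⟨s, hs, rfl⟩)
  unfold SPZ
  simp only at h1
  rw [h1]

end Pool.Agent.Occ

end PartoccZD

section PartoccBallB

/-!
# The number of strands of a port which leave the half box

The heights of a port are cut into at most `80` blocks of length `ρ = w / 40`. The strands of a block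
which leave the half box of radius `w / 8` through another side cross the half box of radius `4 ρ` of
the block, hence they give disjoint connections of one colour across an annulus of ratio `4`.
-/

set_option autoImplicit false

namespace Pool.Agent.Occ.Ball

open Finset Pool.Agent.Perc Pool.Agent.Perc.Q
open Pool.Agent.PercN (Wit conn_open pr_Wit_le depOn_Wit)

/-- The strand which enters the half box of radius `w / 8` on the left of the line `x = w` at the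
height `y` leaves it through another side than the right one. -/
def ER (w y : ℤ) : Set Cfg :=
  {ω | ∃ c ∈ Orb ZQ ω (FbR w (w / 8) y : Set (ℤ × ℤ)) ((w, y), (w, y + 1)),
    Ter ZQ (FbR w (w / 8) y : Set (ℤ × ℤ)) c ∧ ¬ (c.1.1 = w ∧ c.2.1 = w)}

/-- The same for the half box on the right of the line `x = -(w + 2)`. -/
def EL (w y : ℤ) : Set Cfg :=
  {ω | ∃ c ∈ Orb ZQ ω (FbL w (w / 8) y : Set (ℤ × ℤ)) ((-(w + 2), y + 1), (-(w + 2), y)),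
    Ter ZQ (FbL w (w / 8) y : Set (ℤ × ℤ)) c ∧ ¬ (c.1.1 = -(w + 2) ∧ c.2.1 = -(w + 2))}

/-- The heights of the ports. -/
noncomputable def Hts (w : ℤ) : Finset ℤ := (Ico 0 w).filter fun y => w ≤ 4 * y ∧ 2 * y < w

/-! ### Disjoint arms -/

theorem incD_ArmB (col : ℤ) (p : ℤ × ℤ) (r R : ℤ) : IncD (parD col) (ArmB col p r R) := by
  rintro ω ω' h ⟨u, v, h1, h2, h3, h4, h5, h6, h7⟩
  exact ⟨u, v, h1, h2, h3, h4, h5, h6, incD_conn col _ h5 ω ω' h h7⟩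

theorem wit_arm {ω : Cfg} {k : ℕ} {c r R : ℤ} {p : ℤ × ℤ} {K : Fin k → Finset (ℤ × ℤ)}
    (h1 : ∀ i, K i ⊆ RFb p R) (h2 : ∀ i j, i ≠ j → Disjoint (K i) (K j))
    (h3 : ∀ i, ∃ u v : ℤ × ℤ, (p.1 - r ≤ u.1 ∧ u.1 ≤ p.1 + r ∧ p.2 - r ≤ u.2 ∧ u.2 ≤ p.2 + r) ∧
      (u.1 + u.2 - c) % 2 = 0 ∧ OnBd (p.1 - R) (p.1 + R) (p.2 - R) (p.2 + R) v ∧
      Conn ω (K i) u v) : ω ∈ Wit (parD c) (RFb p R) (ArmB c p r R) k := by
  refine ⟨fun i => (K i).filter fun f => flip (parD c) ω f = true,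
    fun i => (filter_subset _ _).trans (h1 i), fun i f hf => (mem_filter.1 hf).2,
    fun i j hij => disjoint_filter_filter (h2 i j hij), fun i => ?_⟩
  obtain ⟨u, v, ⟨e1, e2, e3, e4⟩, e5, e6, e7⟩ := h3 i
  exact ⟨u, v, e1, e2, e3, e4, e5, e6, conn_open (by exact_mod_cast h1 i) e5 e7⟩

/-- The tail of the number of disjoint arms. -/
theorem pr_wit_arm : ∃ q : ℝ, 0 < q ∧ q < 1 ∧ ∀ (k : ℕ) (col : ℤ) (p : ℤ × ℤ) (r : ℤ)
    (W : Finset (ℤ × ℤ)), 0 < r → RFb p (4 * r) ⊆ W →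
    pr W (Wit (parD col) (RFb p (4 * r)) (ArmB col p r (4 * r)) k) ≤ q ^ k := by
  obtain ⟨c, hc, h⟩ := pr_ArmB_le
  refine ⟨max (1 - c) (1 / 2), by positivity, max_lt (by linarith) (by norm_num), ?_⟩
  intro k col p r W hr hW
  rw [pr_eq_of_depOn (depOn_Wit _ _ _ _) hW]
  refine (pr_Wit_le (depOn_ArmB col p r (4 * r)) (incD_ArmB col p r (4 * r)) k).trans ?_
  exact pow_le_pow_left₀ (pr_nonneg _ _) ((h col p r hr).trans (le_max_left _ _)) k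

/-! ### Blocks -/

/-- The sum over the heights from the tails of the blocks. -/
theorem sum_blocks {q : ℝ} (hq : 0 < q) (hq1 : q < 1) {w : ℕ} (hw : 40 ≤ w) {W : Finset (ℤ × ℤ)}
    (A : ℤ → Set Cfg) (hT : ∀ (m : ℕ) (J : Cfg → Finset ℤ),
      (∀ ω, ∀ j ∈ J ω, j ∈ Hts w ∧ (m : ℤ) * ((w : ℤ) / 40) ≤ j ∧
        j < (m : ℤ) * ((w : ℤ) / 40) + (w : ℤ) / 40 ∧ ω ∈ A j) →
      ∀ k : ℕ, pr W {ω | 2 * k ≤ (J ω).card + 1} ≤ q ^ k) :
    ∑ y ∈ Hts w, pr W (A y) ≤ 80 * (2 / (1 - q)) := by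
  classical
  have hρ : (1 : ℤ) ≤ (w : ℤ) / 40 := by omega
  have hw80 : (w : ℤ) < 80 * ((w : ℤ) / 40) := by omega
  set ρ := (w : ℤ) / 40 with hρd
  have hmap : ∀ y ∈ Hts w, (y / ρ).toNat ∈ range 80 := by
    intro y hy
    unfold Hts at hy
    rw [mem_filter, mem_Ico] at hy
    rw [mem_range]
    have h1 : 0 ≤ y / ρ := Int.ediv_nonneg hy.1.1 (by omega)
    have h2 : y / ρ < 80 := by
      apply Int.ediv_lt_of_lt_mul (by omega)
      omega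
    omega
  rw [← sum_fiberwise_of_maps_to hmap]
  have hb : ∀ m ∈ range 80, ∑ y ∈ Hts w with (y / ρ).toNat = m, pr W (A y) ≤ 2 / (1 - q) := by
    intro m _
    refine sum_card_le hq hq1 W ((Hts w).filter fun y => (y / ρ).toNat = m) A
      (fun ω => ((Hts w).filter fun y => (y / ρ).toNat = m).filter fun y => ω ∈ A y)
      (fun ω i => by rw [mem_filter]) ?_
    refine hT m _ ?_
    intro ω j hj
    rw [mem_filter, mem_filter] at hj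
    obtain ⟨⟨h1, h2⟩, h3⟩ := hj
    have hy := h1
    unfold Hts at hy
    rw [mem_filter, mem_Ico] at hy
    have h4 : 0 ≤ j / ρ := Int.ediv_nonneg hy.1.1 (by omega)
    have h5 : (m : ℤ) = j / ρ := by omega
    refine ⟨h1, ?_, ?_, h3⟩
    · rw [h5]
      exact Int.ediv_mul_le _ (by omega)
    · rw [h5]
      have := Int.lt_ediv_add_one_mul_self j (show 0 < ρ by omega)
      linarith
  refine (sum_le_sum hb).trans ?_
  rw [sum_const, card_range, nsmul_eq_mul]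
  norm_num

/-! ### The right side -/

theorem cross_R {ω : Cfg} {w ρ y y₀ : ℤ} (hρ : 1 ≤ ρ) (hw : 5 * ρ ≤ w / 8) (h0 : y₀ ≤ y)
    (h1 : y < y₀ + ρ) (h : ω ∈ ER w y) :
    (∃ x, ((x, y₀ + 4 * ρ), (x + 1, y₀ + 4 * ρ)) ∈ Orb ZQ ω
      (RF (w - 4 * ρ) w (y₀ - 4 * ρ) (y₀ + 4 * ρ) : Finset (ℤ × ℤ)) ((w, y), (w, y + 1))) ∨
    (∃ z, ((w - 4 * ρ, z), (w - 4 * ρ, z + 1)) ∈ Orb ZQ ω
      (RF (w - 4 * ρ) w (y₀ - 4 * ρ) (y₀ + 4 * ρ) : Finset (ℤ × ℤ)) ((w, y), (w, y + 1))) ∨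
    ∃ x, ((x + 1, y₀ - 4 * ρ), (x, y₀ - 4 * ρ)) ∈ Orb ZQ ω
      (RF (w - 4 * ρ) w (y₀ - 4 * ρ) (y₀ + 4 * ρ) : Finset (ℤ × ℤ)) ((w, y), (w, y + 1)) := by
  obtain ⟨c, hc, hcT, hcn⟩ := h
  have hsub : ((RF (w - 4 * ρ) w (y₀ - 4 * ρ) (y₀ + 4 * ρ) : Finset (ℤ × ℤ)) : Set (ℤ × ℤ)) ⊆
      (FbR w (w / 8) y : Set (ℤ × ℤ)) := by
    intro f hf
    rw [mem_coe, rf_iff] at hf
    rw [mem_coe]
    unfold FbR
    rw [rf_iff]
    omega
  rcases exit_cases (ω := ω) (ini_of_ter (ter_right (x₀ := w - 4 * ρ) (x₁ := w) (y₀ := y₀ - 4 * ρ)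
    (y₁ := y₀ + 4 * ρ) y)) ⟨(w - 1, y), by rw [rf_iff]; simp only; omega, 1, by
      simp only [ZQ_c, k11, cor0_1, cor0_2, sub_add_cancel]⟩ with
    ⟨z, -, h2⟩ | ⟨x, -, h2⟩ | ⟨z, -, h2⟩ | ⟨x, -, h2⟩
  · exfalso
    have h3 : ((w, z + 1), (w, z)) ∈ Orb ZQ ω (FbR w (w / 8) y : Set (ℤ × ℤ))
        ((w, y), (w, y + 1)) := Orb_mono hsub h2
    have h4 := ter_unique h3 hc (ter_right z) hcT
    rw [← h4] at hcn
    exact hcn ⟨rfl, rfl⟩
  · exact Or.inl ⟨x, h2⟩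
  · exact Or.inr (Or.inl ⟨z, h2⟩)
  · exact Or.inr (Or.inr ⟨x, h2⟩)

theorem wit_R {ω : Cfg} {w ρ y₀ : ℤ} {k : ℕ} (hρ : 1 ≤ ρ) (hw : 5 * ρ ≤ w / 8) {J : Finset ℤ}
    (hJ : ∀ j ∈ J, y₀ ≤ j ∧ j < y₀ + ρ ∧ ω ∈ ER w j) (hk : 2 * k ≤ J.card + 1) :
    ω ∈ Wit (parD 0) (RFb (w, y₀) (4 * ρ)) (ArmB 0 (w, y₀) ρ (4 * ρ)) k := by
  obtain ⟨K, h1, h2, h3⟩ := dis_gen (ω := ω) (x₀ := w - 4 * ρ) (x₁ := w) (y₀ := y₀ - 4 * ρ)
    (y₁ := y₀ + 4 * ρ) (c := 0) (k := k) (s := fun l => (w, l)) (a := y₀) (b := y₀ + ρ)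
    (T := fun t => (∃ x, t = ((x, y₀ + 4 * ρ), (x + 1, y₀ + 4 * ρ))) ∨
      (∃ z, t = ((w - 4 * ρ, z), (w - 4 * ρ, z + 1))) ∨
      ∃ x, t = ((x + 1, y₀ - 4 * ρ), (x, y₀ - 4 * ρ))) (J := J)
    (fun l h1 h2 => by simp only; omega)
    (fun l h1 h2 => ⟨(w - 1, l), by rw [rf_iff]; simp only; omega, 1, by
      simp only [ZQ_c, k11, cor0_1, cor0_2, sub_add_cancel]⟩)
    (fun l _ _ => ter_right l)
    (fun l l' h => (Prod.mk.inj h).2)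
    (by
      rintro t (⟨x, rfl⟩ | ⟨z, rfl⟩ | ⟨x, rfl⟩)
      · exact ter_top x
      · exact ter_left z
      · exact ter_bot x)
    (by
      rintro l h1 h2 (⟨x, h⟩ | ⟨z, h⟩ | ⟨x, h⟩) <;> simp only [Prod.mk.injEq] at h <;> omega)
    (fun l _ _ => by simp only; omega)
    (fun j hj => by
      obtain ⟨h1, h2, h3⟩ := hJ j hj
      refine ⟨h1, h2, ?_⟩
      rcases cross_R hρ hw h1 h2 h3 with ⟨x, h⟩ | ⟨z, h⟩ | ⟨x, h⟩
      · exact ⟨_, h, Or.inl ⟨x, rfl⟩⟩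
      · exact ⟨_, h, Or.inr (Or.inl ⟨z, rfl⟩)⟩
      · exact ⟨_, h, Or.inr (Or.inr ⟨x, rfl⟩)⟩) hk
  refine wit_arm (fun i => (h1 i).trans fun f hf => ?_) h2 fun i => ?_
  · rw [rf_iff] at hf
    rw [mem_RFb]
    simp only
    omega
  · obtain ⟨u, v, ⟨j, j1, j2, rfl⟩, ⟨t, ht, hv⟩, hr, hp, -, hc⟩ := h3 i
    refine ⟨(w, j), v, by simp only; omega, hp, ?_, hc⟩
    have hv' : v.1 = w - 4 * ρ ∨ v.2 = y₀ - 4 * ρ ∨ v.2 = y₀ + 4 * ρ := by
      rcases ht with ⟨x, rfl⟩ | ⟨z, rfl⟩ | ⟨x, rfl⟩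
      · exact Or.inr (Or.inr (by rcases hv with rfl | rfl <;> rfl))
      · exact Or.inl (by rcases hv with rfl | rfl <;> rfl)
      · exact Or.inr (Or.inl (by rcases hv with rfl | rfl <;> rfl))
    unfold OnBd
    simp only
    omega

theorem sum_ER : ∃ (K : ℝ) (w₀ : ℕ), 0 < K ∧ ∀ w : ℕ, w₀ ≤ w → ∀ W : Finset (ℤ × ℤ),
    RF ((w : ℤ) / 2) (2 * w) 0 w ⊆ W → ∑ y ∈ Hts w, pr W (ER w y) ≤ K := by
  obtain ⟨q, hq, hq1, H⟩ := pr_wit_arm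
  refine ⟨80 * (2 / (1 - q)), 40, by
    have : 0 < 1 - q := by linarith
    positivity, fun w hw W hW => ?_⟩
  refine sum_blocks hq hq1 hw (fun y => ER w y) fun m J hJ k => ?_
  have hρ : (1 : ℤ) ≤ (w : ℤ) / 40 := by omega
  have hw8 : 5 * ((w : ℤ) / 40) ≤ (w : ℤ) / 8 := by omega
  set ρ := (w : ℤ) / 40 with hρd
  set y₀ := (m : ℤ) * ρ with hy₀
  rcases Nat.eq_zero_or_pos k with rfl | hk0
  · rw [pow_zero]
    exact pr_le_one _ _
  by_cases hne : ∃ ω, 2 * k ≤ (J ω).card + 1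
  · obtain ⟨ω₁, hω₁⟩ := hne
    have hpos : 0 < (J ω₁).card := by omega
    obtain ⟨j, hj⟩ := card_pos.1 hpos
    obtain ⟨j1, j2, j3, -⟩ := hJ ω₁ j hj
    unfold Hts at j1
    rw [mem_filter, mem_Ico] at j1
    refine (pr_mono _ (B := Wit (parD 0) (RFb ((w : ℤ), y₀) (4 * ρ))
      (ArmB 0 ((w : ℤ), y₀) ρ (4 * ρ)) k) fun ω hω => ?_).trans (H k 0 ((w : ℤ), y₀) ρ W
      (by omega) (Subset.trans (fun f hf => ?_) hW))
    · exact wit_R hρ hw8 (fun j hj => ⟨(hJ ω j hj).2.1, (hJ ω j hj).2.2.1, (hJ ω j hj).2.2.2⟩) hω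
    · rw [mem_RFb] at hf
      simp only at hf
      rw [rf_iff]
      omega
  · have h0 : pr W {ω | 2 * k ≤ (J ω).card + 1} ≤ pr W ∅ :=
      pr_mono _ fun ω hω => absurd ⟨ω, hω⟩ hne
    refine h0.trans (le_trans (le_of_eq ?_) (pow_nonneg hq.le k))
    unfold pr
    simp

/-! ### The left side -/

theorem cross_L {ω : Cfg} {w ρ y y₀ : ℤ} (hρ : 1 ≤ ρ) (hw : 5 * ρ ≤ w / 8) (h0 : y₀ ≤ y)
    (h1 : y < y₀ + ρ) (h : ω ∈ EL w y) :
    (∃ x, ((x, y₀ + 4 * ρ), (x + 1, y₀ + 4 * ρ)) ∈ Orb ZQ ω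
      (RF (-(w + 2)) (-(w + 2) + 4 * ρ) (y₀ - 4 * ρ) (y₀ + 4 * ρ) : Finset (ℤ × ℤ))
        ((-(w + 2), y + 1), (-(w + 2), y))) ∨
    (∃ z, ((-(w + 2) + 4 * ρ, z + 1), (-(w + 2) + 4 * ρ, z)) ∈ Orb ZQ ω
      (RF (-(w + 2)) (-(w + 2) + 4 * ρ) (y₀ - 4 * ρ) (y₀ + 4 * ρ) : Finset (ℤ × ℤ))
        ((-(w + 2), y + 1), (-(w + 2), y))) ∨
    ∃ x, ((x + 1, y₀ - 4 * ρ), (x, y₀ - 4 * ρ)) ∈ Orb ZQ ω
      (RF (-(w + 2)) (-(w + 2) + 4 * ρ) (y₀ - 4 * ρ) (y₀ + 4 * ρ) : Finset (ℤ × ℤ))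
        ((-(w + 2), y + 1), (-(w + 2), y)) := by
  obtain ⟨c, hc, hcT, hcn⟩ := h
  have hsub : ((RF (-(w + 2)) (-(w + 2) + 4 * ρ) (y₀ - 4 * ρ) (y₀ + 4 * ρ) : Finset (ℤ × ℤ)) :
      Set (ℤ × ℤ)) ⊆ (FbL w (w / 8) y : Set (ℤ × ℤ)) := by
    intro f hf
    rw [mem_coe, rf_iff] at hf
    rw [mem_coe]
    unfold FbL
    rw [rf_iff]
    omega
  rcases exit_cases (ω := ω) (ini_of_ter (ter_left (x₀ := -(w + 2)) (x₁ := -(w + 2) + 4 * ρ)
    (y₀ := y₀ - 4 * ρ) (y₁ := y₀ + 4 * ρ) y)) ⟨(-(w + 2), y), by rw [rf_iff]; simp only; omega, 3,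
      by simp only [ZQ_c, k31, cor0_3, cor0_0]⟩ with
    ⟨z, -, h2⟩ | ⟨x, -, h2⟩ | ⟨z, -, h2⟩ | ⟨x, -, h2⟩
  · exact Or.inr (Or.inl ⟨z, h2⟩)
  · exact Or.inl ⟨x, h2⟩
  · exfalso
    have h3 : ((-(w + 2), z), (-(w + 2), z + 1)) ∈ Orb ZQ ω (FbL w (w / 8) y : Set (ℤ × ℤ))
        ((-(w + 2), y + 1), (-(w + 2), y)) := Orb_mono hsub h2
    have h4 := ter_unique h3 hc (ter_left z) hcT
    rw [← h4] at hcn
    exact hcn ⟨rfl, rfl⟩
  · exact Or.inr (Or.inr ⟨x, h2⟩)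

theorem wit_L {ω : Cfg} {w ρ y₀ : ℤ} {k : ℕ} (hρ : 1 ≤ ρ) (hw : 5 * ρ ≤ w / 8) {J : Finset ℤ}
    (hJ : ∀ j ∈ J, y₀ ≤ j ∧ j < y₀ + ρ ∧ ω ∈ EL w j) (hk : 2 * k ≤ J.card + 1) :
    ω ∈ Wit (parD 0) (RFb (-(w + 2), y₀) (4 * ρ)) (ArmB 0 (-(w + 2), y₀) ρ (4 * ρ)) k := by
  classical
  have hcard : (J.image fun y => -(y + 1)).card = J.card :=
    card_image_of_injective _ fun a b (h : -(a + 1) = -(b + 1)) => by omega
  obtain ⟨K, h1, h2, h3⟩ := dis_gen (ω := ω) (x₀ := -(w + 2)) (x₁ := -(w + 2) + 4 * ρ)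
    (y₀ := y₀ - 4 * ρ) (y₁ := y₀ + 4 * ρ) (c := 0) (k := k) (s := fun l => (-(w + 2), -l))
    (a := -(y₀ + ρ)) (b := -y₀)
    (T := fun t => (∃ x, t = ((x, y₀ + 4 * ρ), (x + 1, y₀ + 4 * ρ))) ∨
      (∃ z, t = ((-(w + 2) + 4 * ρ, z + 1), (-(w + 2) + 4 * ρ, z))) ∨
      ∃ x, t = ((x + 1, y₀ - 4 * ρ), (x, y₀ - 4 * ρ))) (J := J.image fun y => -(y + 1))
    (fun l h1 h2 => by simp only; omega)
    (fun l h1 h2 => ⟨(-(w + 2), -(l + 1)), by rw [rf_iff]; simp only; omega, 3, by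
      simp only [ZQ_c, k31, cor0_3, cor0_0, show -(l + 1) + 1 = -l by ring]⟩)
    (fun l _ _ => by
      have h := ter_left (x₀ := -(w + 2)) (x₁ := -(w + 2) + 4 * ρ) (y₀ := y₀ - 4 * ρ)
        (y₁ := y₀ + 4 * ρ) (-(l + 1))
      rwa [show -(l + 1) + 1 = -l by ring] at h)
    (fun l l' h => by have := (Prod.mk.inj h).2; omega)
    (by
      rintro t (⟨x, rfl⟩ | ⟨z, rfl⟩ | ⟨x, rfl⟩)
      · exact ter_top x
      · exact ter_right z
      · exact ter_bot x)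
    (by
      rintro l h1 h2 (⟨x, h⟩ | ⟨z, h⟩ | ⟨x, h⟩) <;> simp only [Prod.mk.injEq] at h <;> omega)
    (fun l _ _ => by simp only; omega)
    (fun j hj => by
      obtain ⟨y, hy, rfl⟩ := mem_image.1 hj
      obtain ⟨h1, h2, h3⟩ := hJ y hy
      refine ⟨by omega, by omega, ?_⟩
      rw [show -(-(y + 1)) = y + 1 by ring, show -(-(y + 1) + 1) = y by ring]
      rcases cross_L hρ hw h1 h2 h3 with ⟨x, h⟩ | ⟨z, h⟩ | ⟨x, h⟩
      · exact ⟨_, h, Or.inl ⟨x, rfl⟩⟩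
      · exact ⟨_, h, Or.inr (Or.inl ⟨z, rfl⟩)⟩
      · exact ⟨_, h, Or.inr (Or.inr ⟨x, rfl⟩)⟩) (by rw [hcard]; exact hk)
  refine wit_arm (fun i => (h1 i).trans fun f hf => ?_) h2 fun i => ?_
  · rw [rf_iff] at hf
    rw [mem_RFb]
    simp only
    omega
  · obtain ⟨u, v, ⟨j, j1, j2, rfl⟩, ⟨t, ht, hv⟩, hr, hp, -, hc⟩ := h3 i
    refine ⟨(-(w + 2), -j), v, by simp only; omega, hp, ?_, hc⟩
    have hv' : v.1 = -(w + 2) + 4 * ρ ∨ v.2 = y₀ - 4 * ρ ∨ v.2 = y₀ + 4 * ρ := by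
      rcases ht with ⟨x, rfl⟩ | ⟨z, rfl⟩ | ⟨x, rfl⟩
      · exact Or.inr (Or.inr (by rcases hv with rfl | rfl <;> rfl))
      · exact Or.inl (by rcases hv with rfl | rfl <;> rfl)
      · exact Or.inr (Or.inl (by rcases hv with rfl | rfl <;> rfl))
    unfold OnBd
    simp only
    omega

theorem sum_EL : ∃ (K : ℝ) (w₀ : ℕ), 0 < K ∧ ∀ w : ℕ, w₀ ≤ w → ∀ W : Finset (ℤ × ℤ),
    RF (-(2 * w)) (-((w : ℤ) / 2)) 0 w ⊆ W → ∑ y ∈ Hts w, pr W (EL w y) ≤ K := by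
  obtain ⟨q, hq, hq1, H⟩ := pr_wit_arm
  refine ⟨80 * (2 / (1 - q)), 40, by
    have : 0 < 1 - q := by linarith
    positivity, fun w hw W hW => ?_⟩
  refine sum_blocks hq hq1 hw (fun y => EL w y) fun m J hJ k => ?_
  have hρ : (1 : ℤ) ≤ (w : ℤ) / 40 := by omega
  have hw8 : 5 * ((w : ℤ) / 40) ≤ (w : ℤ) / 8 := by omega
  set ρ := (w : ℤ) / 40 with hρd
  set y₀ := (m : ℤ) * ρ with hy₀
  rcases Nat.eq_zero_or_pos k with rfl | hk0
  · rw [pow_zero]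
    exact pr_le_one _ _
  by_cases hne : ∃ ω, 2 * k ≤ (J ω).card + 1
  · obtain ⟨ω₁, hω₁⟩ := hne
    have hpos : 0 < (J ω₁).card := by omega
    obtain ⟨j, hj⟩ := card_pos.1 hpos
    obtain ⟨j1, j2, j3, -⟩ := hJ ω₁ j hj
    unfold Hts at j1
    rw [mem_filter, mem_Ico] at j1
    refine (pr_mono _ (B := Wit (parD 0) (RFb (-((w : ℤ) + 2), y₀) (4 * ρ))
      (ArmB 0 (-((w : ℤ) + 2), y₀) ρ (4 * ρ)) k) fun ω hω => ?_).trans (H k 0 (-((w : ℤ) + 2), y₀) ρ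
      W (by omega) (Subset.trans (fun f hf => ?_) hW))
    · exact wit_L hρ hw8 (fun j hj => ⟨(hJ ω j hj).2.1, (hJ ω j hj).2.2.1, (hJ ω j hj).2.2.2⟩) hω
    · rw [mem_RFb] at hf
      simp only at hf
      rw [rf_iff]
      omega
  · have h0 : pr W {ω | 2 * k ≤ (J ω).card + 1} ≤ pr W ∅ :=
      pr_mono _ fun ω hω => absurd ⟨ω, hω⟩ hne
    refine h0.trans (le_trans (le_of_eq ?_) (pow_nonneg hq.le k))
    unfold pr
    simp

end Pool.Agent.Occ.Ball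

end PartoccBallB

section PartoccBallC

/-!
# A fresh arm near a tip in a port
-/

set_option autoImplicit false

namespace Pool.Agent.Occ.Ball

open Finset Relation Pool.Agent.Perc Pool.Agent.Perc.Q Pool.Agent.Perc.Q.CO
  Pool.Agent.Perc.Q.LegsAux

variable {ω : Cfg} {F : Finset (ℤ × ℤ)} {e₀ a b : (ℤ × ℤ) × (ℤ × ℤ)} {f : ℤ × ℤ}
  {x₀ x₁ y₀ y₁ w R y : ℤ} {j : Fin 3}

theorem cT (h : 0 ≤ f.2) (k : ZMod 4) : TQ.c f k = ZQ.c f k := corT_up h k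

theorem nx_TZ {F : Set (ℤ × ℤ)} (hF : ∀ f ∈ F, 0 ≤ f.2) :
    Nx TQ ω F a b ↔ Nx ZQ ω F a b := by
  constructor <;> rintro ⟨f, hf, k, h1, h2⟩ <;> refine ⟨f, hf, k, ?_, ?_⟩
  · rw [← cT (hF f hf), ← cT (hF f hf)]; exact h1
  · rw [← cT (hF f hf), ← cT (hF f hf), ← cT (hF f hf), ← cT (hF f hf)]; exact h2
  · rw [cT (hF f hf), cT (hF f hf)]; exact h1
  · rw [cT (hF f hf), cT (hF f hf), cT (hF f hf), cT (hF f hf)]; exact h2

theorem orb_TZ {F : Set (ℤ × ℤ)} (hF : ∀ f ∈ F, 0 ≤ f.2) (e : (ℤ × ℤ) × (ℤ × ℤ)) :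
    Orb TQ ω F e = Orb ZQ ω F e := by
  ext a
  constructor
  · exact fun h => rtg_mono (fun _ _ h => (nx_TZ hF).1 h) h
  · exact fun h => rtg_mono (fun _ _ h => (nx_TZ hF).2 h) h

theorem ter_TZ {F : Set (ℤ × ℤ)} (hF : ∀ f ∈ F, 0 ≤ f.2) :
    Ter TQ F a ↔ Ter ZQ F a := by
  constructor <;> intro h f hf k h1
  · refine h f hf k ?_
    rw [cT (hF f hf), cT (hF f hf)]; exact h1
  · refine h f hf k ?_
    rw [← cT (hF f hf), ← cT (hF f hf)]; exact h1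

/-- The parity of a vertex. -/
def kp (v : ℤ × ℤ) : ZMod 2 := ((v.1 + v.2 : ℤ) : ZMod 2)

theorem col_up {F : Set (ℤ × ℤ)} (hF : ∀ f ∈ F, 0 ≤ f.2) : Col TQ F kp := by
  intro f hf k
  rw [cT (hF f hf), cT (hF f hf), ZQ_c, ZQ_c]
  have h11 : (1 : ZMod 2) + 1 = 0 := rfl
  rcases k4_cases k with rfl | rfl | rfl | rfl
  · rw [k01, cor0_0, cor0_1]
    unfold kp
    push_cast
    ring
  · rw [k11, cor0_1, cor0_2]
    unfold kp
    push_cast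
    ring
  · rw [k21, cor0_2, cor0_3]
    unfold kp
    push_cast
    linear_combination (-1 : ZMod 2) * h11
  · rw [k31, cor0_3, cor0_0]
    unfold kp
    push_cast
    linear_combination (-1 : ZMod 2) * h11

/-- The potential of the strand of `e₀`. -/
theorem exists_pot (hF : F = RF x₀ x₁ y₀ y₁) (hy : 0 ≤ y₀) (he₀ : Ini TQ (F : Set (ℤ × ℤ)) e₀) :
    ∃ χ : ℤ × ℤ → ZMod 2, ∀ f ∈ (F : Set (ℤ × ℤ)), ∀ k, χ (TQ.c f k) + χ (TQ.c f (k + 1)) =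
      cochain TQ ω (F : Set (ℤ × ℤ)) e₀ (TQ.c f k) (TQ.c f (k + 1)) := by
  have hup : ∀ f ∈ (F : Set (ℤ × ℤ)), 0 ≤ f.2 := by
    intro f hf
    rw [mem_coe, hF, rf_iff] at hf
    omega
  have h1 : ∀ f ∈ (RF x₀ x₁ y₀ y₁ : Finset (ℤ × ℤ)), f ∈ (F : Set (ℤ × ℤ)) := by
    intro f hf
    rw [mem_coe, hF]; exact hf
  obtain ⟨χ, hχ⟩ := sc_rect (x₀ := x₀) (x₁ := x₁) (y₀ := y₀) (y₁ := y₁)
    (cochain TQ ω (F : Set (ℤ × ℤ)) e₀) (fun p q => cochain_symm p q) (fun f hf => by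
      have hf' := h1 f hf
      rw [← cochain_even (ω := ω) he₀ hf']
      refine sum_congr rfl fun k _ => ?_
      rw [cT (hup f hf'), cT (hup f hf')])
  refine ⟨χ, fun f hf k => ?_⟩
  rw [cT (hup f hf), cT (hup f hf)]
  refine hχ f ?_ k
  rw [mem_coe, hF] at hf
  exact hf

theorem leg_ends (i : Fin 3) : (∃ x, Core x ∧ (leg i).1 = (x, 0)) ∧ ∃ x, Core x ∧ (leg i).2 = (x, 0) := by
  refine ⟨leg_core i, ?_⟩
  rw [mark_eq]
  exact leg_core _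

/-- A face visited by a leg but not by the strand of `e₀` gives an arm in the faces which are not
visited by the strand of `e₀`. -/
theorem arm_gen (hF : F = RF x₀ x₁ y₀ y₁) (hy : 0 ≤ y₀) (hw : 0 < w) (hFG : F ⊆ BW w)
    (he₀ : Ini TQ (F : Set (ℤ × ℤ)) e₀) (hf : f ∈ Vis TQ ω (BW w) (leg j)) (hfF : f ∈ F)
    (hbad : f ∉ Vis TQ ω (F : Set (ℤ × ℤ)) e₀) {p : ℤ × ℤ}
    (hfar : ∀ g ∈ BW w, g ∉ F → ∀ k, R ≤ dT (TQ.c g k) p)
    (hcore : ∀ x, Core x → R ≤ dT (x, 0) p) :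
    ∃ u v, (∃ k, u = TQ.c f k) ∧ R ≤ dT v p ∧
      ConnQ TQ ω ((F : Set (ℤ × ℤ)) \ Vis TQ ω (F : Set (ℤ × ℤ)) e₀) u v := by
  have hup : ∀ f ∈ (F : Set (ℤ × ℤ)), 0 ≤ f.2 := by
    intro f hf
    rw [mem_coe, hF, rf_iff] at hf
    omega
  obtain ⟨χ, hχ⟩ := exists_pot (ω := ω) hF hy he₀
  obtain ⟨-, k, hk⟩ := hf
  have hi : Ini TQ (F : Set (ℤ × ℤ)) (leg j) := fun f hf => ini_leg hw j f (hFG hf)
  obtain ⟨b, hb, hbi, hab, hcase⟩ := exists_entry (F := (F : Set (ℤ × ℤ))) hi hk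
  have hends : R ≤ dT b.1 p ∧ R ≤ dT b.2 p := by
    rcases hcase with rfl | ⟨g, hg, hgF, l, rfl⟩
    · obtain ⟨⟨x, hx, h1⟩, x', hx', h2⟩ := leg_ends j
      rw [h1, h2]
      exact ⟨hcore x hx, hcore x' hx'⟩
    · exact ⟨hfar g hg hgF _, hfar g hg hgF _⟩
  rcases fresh_arm he₀ hχ (col_up hup) hab hfF hbad with h | h
  · exact ⟨_, _, ⟨k, rfl⟩, hends.1, h⟩
  · exact ⟨_, _, ⟨k + 1, rfl⟩, hends.2, h⟩

/-! ### The two sides -/

theorem ine_right (hw : 0 < w) (h0 : 0 ≤ y) (h1 : y < w) : ine w y = ((w, y), (w, y + 1)) := by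
  have h := ine_R hw (show -w ≤ y by omega) h1
  rwa [if_pos h0] at h

theorem ine_left (hw : 0 < w) (h0 : 0 ≤ y) (h1 : y < w) :
    ine w (4 * w + 1 - y) = ((-(w + 2), y + 1), (-(w + 2), y)) := by
  have h := ine_L hw (j := -(y + 1)) (by omega) (by omega)
  rw [show -(y + 1) + 4 * w + 2 = 4 * w + 1 - y by ring] at h
  rw [h]
  simp only [Prod.map, neg_neg]
  rw [show -(-(y + 1) + 1) = y by ring, chF_up (by simp only; omega), chF_up (by simp only; omega)]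

theorem ini_BW (hw : 0 < w) {t : ℤ} (h0 : 0 ≤ t) (h1 : t < 8 * w + 3) (hFG : F ⊆ BW w) :
    Ini TQ (F : Set (ℤ × ℤ)) (ine w t) := fun f hf => ini_out hw h0 h1 f (hFG hf)

/-- A tip of a leg on the right side gives the event `ER`. -/
theorem er_of_tip (hw : 64 ≤ w) (h1 : w ≤ 4 * y) (h2 : 2 * y < w)
    (h : (ine w y).swap ∈ Orb TQ ω (BW w) (leg j)) : ω ∈ ER w y := by
  have hF : FbR w (w / 8) y ⊆ BW w := by
    intro f hf
    unfold FbR at hf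
    rw [rf_iff] at hf
    rw [BdAux.mem_BW]
    omega
  have hup : ∀ f ∈ (FbR w (w / 8) y : Set (ℤ × ℤ)), 0 ≤ f.2 := by
    intro f hf
    unfold FbR at hf
    rw [mem_coe, rf_iff] at hf
    omega
  have hi : Ini TQ (FbR w (w / 8) y : Set (ℤ × ℤ)) (ine w y) :=
    ini_BW (by omega) (by omega) (by omega) hF
  obtain ⟨c, hc, hct⟩ := exists_ter (ω := ω) (FbR w (w / 8) y).finite_toSet hi
  have he := ine_right (w := w) (y := y) (by omega) (by omega) (by omega)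
  rw [he] at hc hi h
  refine ⟨c, ?_, (ter_TZ hup).1 hct, ?_⟩
  · rw [← orb_TZ hup]; exact hc
  rintro ⟨c1, c2⟩
  rcases Orb_pred hc with rfl | ⟨b, -, hb⟩
  · refine hct (w - 1, y) ?_ 1 ?_
    · unfold FbR
      rw [mem_coe, rf_iff]
      simp only
      omega
    · rw [cT (by simp only; omega), cT (by simp only; omega), k11, ZQ_c, ZQ_c, cor0_1, cor0_2]
      simp only [sub_add_cancel]
  obtain ⟨g, hg, l, rfl⟩ := nx_out hb
  have hg0 := hup g hg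
  have hg' : g ∈ FbR w (w / 8) y := hg
  unfold FbR at hg'
  rw [rf_iff] at hg'
  simp only [cT hg0, ZQ_c] at c1 c2
  have hl : l = 1 := by
    rcases k4_cases l with rfl | rfl | rfl | rfl
    · rw [cor0_0] at c2
      rw [k01, cor0_1] at c1
      simp only at c1 c2
      omega
    · rfl
    · rw [cor0_2] at c2
      rw [k21, cor0_3] at c1
      simp only at c1 c2
      omega
    · rw [cor0_3] at c2
      rw [k31, cor0_0] at c1
      simp only at c1 c2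
      omega
  subst hl
  rw [cor0_1] at c2
  simp only at c2
  have hsw : (TQ.c g (1 + 1), TQ.c g 1) = (ine w g.2).swap := by
    rw [ine_right (by omega) (by omega) (by omega), cT hg0, cT hg0, k11, ZQ_c, ZQ_c, cor0_1, cor0_2]
    simp only [Prod.swap_prod_mk, Prod.mk.injEq, and_true]
    omega
  have t1 : Ter TQ (BW w : Set (ℤ × ℤ)) (ine w g.2).swap := ter_ine (by omega) (by omega) (by omega)
  have t2 : Ter TQ (BW w : Set (ℤ × ℤ)) (leg j).swap := (ini_leg (by omega) j).ter_swap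
  have o1 := Orb_mono hF hc
  have o2 := orb_rev h
  rw [hsw] at o1
  have e2 : (((w, y), (w, y + 1)) : (ℤ × ℤ) × (ℤ × ℤ)).swap.swap = ((w, y), (w, y + 1)) := rfl
  rw [e2] at o2
  have h3 := ter_unique o1 o2 t1 t2
  obtain ⟨⟨x, hx, hx1⟩, -⟩ := leg_ends j
  have h4 : (ine w g.2).1 = (leg j).1 := congrArg (fun z => z.2) h3
  rw [ine_right (by omega) (by omega) (by omega), hx1] at h4
  have h5 := (Prod.mk.inj h4).1
  unfold Core at hx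
  omega

/-- A tip of a leg on the left side gives the event `EL`. -/
theorem el_of_tip (hw : 64 ≤ w) (h1 : w ≤ 4 * y) (h2 : 2 * y < w)
    (h : (ine w (4 * w + 1 - y)).swap ∈ Orb TQ ω (BW w) (leg j)) : ω ∈ EL w y := by
  have hF : FbL w (w / 8) y ⊆ BW w := by
    intro f hf
    unfold FbL at hf
    rw [rf_iff] at hf
    rw [BdAux.mem_BW]
    omega
  have hup : ∀ f ∈ (FbL w (w / 8) y : Set (ℤ × ℤ)), 0 ≤ f.2 := by
    intro f hf
    unfold FbL at hf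
    rw [mem_coe, rf_iff] at hf
    omega
  have hi : Ini TQ (FbL w (w / 8) y : Set (ℤ × ℤ)) (ine w (4 * w + 1 - y)) :=
    ini_BW (by omega) (by omega) (by omega) hF
  obtain ⟨c, hc, hct⟩ := exists_ter (ω := ω) (FbL w (w / 8) y).finite_toSet hi
  have he := ine_left (w := w) (y := y) (by omega) (by omega) (by omega)
  rw [he] at hc hi h
  refine ⟨c, ?_, (ter_TZ hup).1 hct, ?_⟩
  · rw [← orb_TZ hup]; exact hc
  rintro ⟨c1, c2⟩
  rcases Orb_pred hc with rfl | ⟨b, -, hb⟩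
  · refine hct (-(w + 2), y) ?_ 3 ?_
    · unfold FbL
      rw [mem_coe, rf_iff]
      simp only
      omega
    · rw [cT (by simp only; omega), cT (by simp only; omega), k31, ZQ_c, ZQ_c, cor0_3, cor0_0]
  obtain ⟨g, hg, l, rfl⟩ := nx_out hb
  have hg0 := hup g hg
  have hg' : g ∈ FbL w (w / 8) y := hg
  unfold FbL at hg'
  rw [rf_iff] at hg'
  simp only [cT hg0, ZQ_c] at c1 c2
  have hl : l = 3 := by
    rcases k4_cases l with rfl | rfl | rfl | rfl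
    · rw [cor0_0] at c2
      rw [k01, cor0_1] at c1
      simp only at c1 c2
      omega
    · rw [cor0_1] at c2
      rw [k11, cor0_2] at c1
      simp only at c1 c2
      omega
    · rw [cor0_2] at c2
      rw [k21, cor0_3] at c1
      simp only at c1 c2
      omega
    · rfl
  subst hl
  rw [cor0_3] at c2
  simp only at c2
  have hsw : (TQ.c g (3 + 1), TQ.c g 3) = (ine w (4 * w + 1 - g.2)).swap := by
    rw [ine_left (by omega) (by omega) (by omega), cT hg0, cT hg0, k31, ZQ_c, ZQ_c, cor0_3, cor0_0]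
    simp only [Prod.swap_prod_mk, Prod.mk.injEq, and_true]
    exact ⟨Prod.ext (by simp only; omega) rfl, by omega⟩
  have t1 : Ter TQ (BW w : Set (ℤ × ℤ)) (ine w (4 * w + 1 - g.2)).swap :=
    ter_ine (by omega) (by omega) (by omega)
  have t2 : Ter TQ (BW w : Set (ℤ × ℤ)) (leg j).swap := (ini_leg (by omega) j).ter_swap
  have o1 := Orb_mono hF hc
  have o2 := orb_rev h
  rw [hsw] at o1
  have e2 : (((-(w + 2), y + 1), (-(w + 2), y)) : (ℤ × ℤ) × (ℤ × ℤ)).swap.swap =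
    ((-(w + 2), y + 1), (-(w + 2), y)) := rfl
  rw [e2] at o2
  have h3 := ter_unique o1 o2 t1 t2
  obtain ⟨⟨x, hx, hx1⟩, -⟩ := leg_ends j
  have h4 : (ine w (4 * w + 1 - g.2)).1 = (leg j).1 := congrArg (fun z => z.2) h3
  rw [ine_left (by omega) (by omega) (by omega), hx1] at h4
  have h5 := (Prod.mk.inj h4).1
  unfold Core at hx
  omega

end Pool.Agent.Occ.Ball

end PartoccBallC
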