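import Pool.Agent.Lib.MP_6bd702_zc.Pre
import Pool.Agent.Lib.MP_6bd702_zc.Y042
import Pool.Agent.Lib.MP_6bd702_zc.Y032
import Pool.Agent.Lib.MP_6bd702_zc.Y026
import Pool.Agent.Lib.MP_6bd702_zc.Y037

section Partperc3T2Top

/-!
# The expected number of pairs of strands which cross an annulus (T2)
-/

set_option autoImplicit false

namespace Pool.Agent.Perc.Q

open Finset Pool.Agent.Perc

/-- The bound for the triples, from the gluing and from the one point bound. -/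
theorem aT_le_pow' (hG : GlueInP)
    (hq3 : ∃ C : ℝ, 0 < C ∧ ∀ R : ℕ, 1 ≤ R → q3 R ≤ C * (R : ℝ) ^ (-(2 / 3 : ℝ))) :
    ∃ C : ℝ, 0 < C ∧ ∀ d w : ℕ, 1 ≤ d → 2 * d ≤ w → aT d w ≤ C * ((d : ℝ) / w) ^ (2 / 3 : ℝ) :=
  aT_le_pow closeInP specInP hG baseP arm3Anti hq3

/-- The bound for the pairs. -/
theorem nT_le_pow (hG : GlueInP)
    (hq3 : ∃ C : ℝ, 0 < C ∧ ∀ R : ℕ, 1 ≤ R → q3 R ≤ C * (R : ℝ) ^ (-(2 / 3 : ℝ))) :
    ∃ C : ℝ, 0 < C ∧ ∀ d w : ℕ, 1 ≤ d → 2 * d ≤ w → nT d w ≤ C * ((d : ℝ) / w) ^ (2 / 3 : ℝ) := by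
  obtain ⟨C, hC, h⟩ := aT_le_pow' hG hq3
  refine ⟨6 * C, by positivity, fun d w hd hw => ?_⟩
  refine (nT_le (d := (d : ℤ)) (w := (w : ℤ)) (by omega) (by omega)).trans ?_
  rw [mul_assoc]
  exact mul_le_mul_of_nonneg_left (h d w hd hw) (by norm_num)

end Pool.Agent.Perc.Q

end Partperc3T2Top

section Partperc3T2All

/-!
# The expected number of pairs of strands which cross an annulus: from the two routing statements
-/

set_option autoImplicit false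

namespace Pool.Agent.Perc.Q

open Finset Pool.Agent.Perc

/-- The bound for the pairs. -/
theorem nT_le_top (hP : PortsP) (hR : RoutesP) :
    ∃ C : ℝ, 0 < C ∧ ∀ d w : ℕ, 1 ≤ d → 2 * d ≤ w → nT d w ≤ C * ((d : ℝ) / w) ^ (2 / 3 : ℝ) :=
  nT_le_pow (glueIn_of hR (sep3_lower_top hP)) (q3_upper_top hP)

/-- The bound for the alternating triples. -/
theorem aT_le_top (hP : PortsP) (hR : RoutesP) :
    ∃ C : ℝ, 0 < C ∧ ∀ d w : ℕ, 1 ≤ d → 2 * d ≤ w → aT d w ≤ C * ((d : ℝ) / w) ^ (2 / 3 : ℝ) :=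
  aT_le_pow' (glueIn_of hR (sep3_lower_top hP)) (q3_upper_top hP)

end Pool.Agent.Perc.Q

end Partperc3T2All
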