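import Pool.Agent.Lib.MP_6bd702_zc.Pre
import Pool.Agent.Lib.MP_6bd702_zc.Y040
import Pool.Agent.Lib.MP_6bd702_zc.Y028
import Pool.Agent.Lib.MP_6bd702_zc.Y005
import Pool.Agent.Lib.MP_6bd702_z.Z016

section PartoccZF

/-!
# Row ZF: the legs and the P strip land
-/

set_option autoImplicit false

namespace Pool.Agent.Occ

open Finset Pool.Agent.Perc Pool.Agent.Perc3 Pool.Agent.PercD

namespace ZFaux

/-- The heights of the vertices of a path in a rectangle. -/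
theorem conn_bd {η : Cfg} {x₀ x₁ y₀ y₁ : ℤ} {u v : ℤ × ℤ} (hu : y₀ ≤ u.2 ∧ u.2 ≤ y₁)
    (h : Conn η (RF x₀ x₁ y₀ y₁) u v) : y₀ ≤ v.2 ∧ v.2 ≤ y₁ := by
  induction h with
  | refl => exact hu
  | tail _ hb _ =>
    obtain ⟨f, hf, -, -, c⟩ := hb.exists_face
    have hf' := mem_RFi.1 (Finset.mem_coe.1 hf)
    unfold IsCor at c
    omega

/-- The path around a tip: four crossings, the channel is contained in the first column
`[x₁, x₁']`, the inner arm in the second column `[x₂, x₂']`. -/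
theorem four {ξ : Cfg} {F : Set (ℤ × ℤ)} {c X X' x₁ x₁' x₂ x₂' y₀ y₁ y₁' y₂ y₂' : ℤ}
    (h1 : X ≤ x₁ ∧ x₁ < x₁' ∧ x₁' ≤ X') (h2 : X ≤ x₂ ∧ x₂ < x₂' ∧ x₂' ≤ X')
    (h3 : y₀ ≤ y₁ ∧ y₁ < y₁' ∧ y₁' ≤ y₂ ∧ y₂ < y₂')
    (a1 : ξ ∈ BT c x₁ x₁' y₀ y₁') (a2 : ξ ∈ LR c X X' y₁ y₁') (a3 : ξ ∈ BT c x₂ x₂' y₁ y₂')
    (a4 : ξ ∈ LR c X X' y₂ y₂') (f1 : (RF x₁ x₁' y₀ y₁' : Set (ℤ × ℤ)) ⊆ F)
    (f2 : (RF X X' y₁ y₁' : Set (ℤ × ℤ)) ⊆ F) (f3 : (RF x₂ x₂' y₁ y₂' : Set (ℤ × ℤ)) ⊆ F)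
    (f4 : (RF X X' y₂ y₂' : Set (ℤ × ℤ)) ⊆ F) :
    ∃ p q q' : ℤ × ℤ, p.2 = y₀ ∧ x₁ ≤ p.1 ∧ p.1 ≤ x₁' ∧ (p.1 + p.2 - c) % 2 = 0 ∧
      q.1 = X' ∧ y₂ ≤ q.2 ∧ q.2 ≤ y₂' ∧ q'.1 = X ∧ y₂ ≤ q'.2 ∧ q'.2 ≤ y₂' ∧
      Conn ξ F p q ∧ Conn ξ F p q' := by
  obtain ⟨p, p', p1, p2, p3, p4, p5, pc⟩ := a1
  obtain ⟨r, r', r1, r2, r3, r4, r5, rc⟩ := a2
  obtain ⟨s, s', s1, s2, s3, s4, s5, sc⟩ := a3
  obtain ⟨t, t', t1, t2, t3, t4, t5, tc⟩ := a4
  obtain ⟨z1, -, -, -, -, b1, b2⟩ := PercT.cross_meet h1.1 h1.2.1 h1.2.2 h3.1 h3.2.1 le_rfl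
    ⟨r1, r2, r3⟩ r4 ⟨p1, p2, p3⟩ p4 (by omega) rc pc
  obtain ⟨z2, -, -, -, -, b3, b4⟩ := PercT.cross_meet h2.1 h2.2.1 h2.2.2 le_rfl h3.2.1
    (by omega) ⟨r1, r2, r3⟩ r4 ⟨s1, s2, s3⟩ s4 (by omega) rc sc
  obtain ⟨z3, -, -, -, -, b5, b6⟩ := PercT.cross_meet h2.1 h2.2.1 h2.2.2 (by omega) h3.2.2.2
    le_rfl ⟨t1, t2, t3⟩ t4 ⟨s1, s2, s3⟩ s4 (by omega) tc sc
  have hp : Conn ξ F p t :=
    ((((b2.mono f1).trans (Conn.symm (b1.mono f2))).trans (b3.mono f2)).trans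
      (Conn.symm (b4.mono f3))).trans ((b6.mono f3).trans (Conn.symm (b5.mono f4)))
  exact ⟨p, t', t, p1, p2, p3, p5, t4, (conn_bd ⟨t2, t3⟩ tc).1, (conn_bd ⟨t2, t3⟩ tc).2, t1, t2, t3,
    hp.trans (tc.mono f4), hp⟩

theorem rw_spec {A y : ℤ} (hA : 0 < A) (hy : 0 ≤ y) : 0 ≤ rw' A y ∧ rw' A y ≤ y ∧ y < rw' A y + A := by
  unfold rw'
  have h1 := Int.mul_ediv_self_le (x := y) (k := A) hA.ne'
  have h2 := Int.lt_mul_ediv_self_add (x := y) (k := A) hA
  refine ⟨mul_nonneg hA.le (Int.ediv_nonneg hy hA.le), h1, h2⟩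

theorem mem_ports {w : ℤ} {p : ℤ × ℤ} (h : p ∈ Ports w) : (0 ≤ p.1 ∧ p.1 < w) ∧ (0 ≤ p.2 ∧ p.2 < w) ∧
    w ≤ 4 * p.1 ∧ 2 * p.1 < w ∧ w ≤ 4 * p.2 ∧ 2 * p.2 < w ∧ (p.1 + p.2) % 2 = 0 := by
  unfold Ports at h
  rw [mem_filter, mem_product, mem_Ico, mem_Ico] at h
  exact ⟨h.1.1, h.1.2, h.2⟩

/-- The numbers. -/
theorem nums {g : Par} (hg : g.Ok) : (0 < g.A ∧ 100 < g.A) ∧ 100 * g.A ≤ g.w ∧ g.d + 2 * g.n + 4 < g.A ∧
    g.R < g.A ∧ (g.N + 1) * g.A = g.w + g.A ∧ (g.N + 2) * g.A = g.w + 2 * g.A ∧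
    (g.N + 4) * g.A = g.w + 4 * g.A ∧ (g.N - 3) * g.A = g.w - 3 * g.A ∧
    (g.N - 2) * g.A = g.w - 2 * g.A ∧ (g.N - 20) * g.A = g.w - 20 * g.A ∧
    (g.N - 19) * g.A = g.w - 19 * g.A := by
  obtain ⟨h1, h2, h3, h4, h5, h6⟩ := hg
  have hAi : 0 < g.Ai := by omega
  have hd : 100 * g.Ai ≤ g.Ni * g.Ai := mul_le_mul_of_nonneg_right h2 hAi.le
  rw [add_mul] at h6
  have hA : 0 < g.A := by omega
  have hw : 100 * g.A ≤ g.N * g.A := mul_le_mul_of_nonneg_right h1 hA.le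
  unfold Par.w Par.d Par.R
  rw [sub_mul, one_mul]
  refine ⟨⟨hA, by omega⟩, hw, by omega, by omega, ?_, ?_, ?_, ?_, ?_, ?_, ?_⟩ <;> ring

/-- The dual paths into the hole are near the hole. -/
theorem notIn {g : Par} (hg : g.Ok) {S : Set (ℤ × ℤ)} {a : ℤ × ℤ} {k : ℤ} {l : List (ℤ × ℤ)}
    (h : InL g S a k l) {f : ℤ × ℤ} (hf : g.A ≤ f.1 ∨ f.1 < -g.A) : f ∉ l := by
  obtain ⟨h1, h2, h3, h4, -⟩ := nums hg
  intro hl
  rcases h.loc f hl with h5 | ⟨-, h5⟩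
  · rw [mem_BR] at h5
    simp only at h5
    omega
  · rw [mem_BR] at h5
    simp only at h5
    omega

end ZFaux

open ZFaux

variable {g : Par} {ω η ξ : Cfg} {ya yb : ℤ} {a₁ a₂ : ℤ × ℤ} {x₁ x₂ : UE} {k₁ k₂ kk : ℤ}
  {l₁ l₂ lk : List (ℤ × ℤ)} {S : Set (ℤ × ℤ)} {X₀ X₁ Y₀ Y₁ : ℤ} {Φ₁ Φ₂ : ℤ × ℤ → ZMod 2}

theorem leg₁ (hg : g.Ok) (hw : WinOk g X₀ X₁ Y₀ Y₁)
    (hS : StrZ g ω ya yb a₁ a₂ x₁ x₂ k₁ k₂ l₁ l₂ S) (hK : KapZ g Y₀ ya yb S l₁ l₂ kk lk)
    (hP : Pots g X₀ X₁ Y₀ Y₁ ω ya yb a₁ a₂ l₁ l₂ lk Φ₁ Φ₂) (h1 : ∀ f ∈ S, η f = ω f)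
    (h2 : ∀ f ∈ F1 g Y₀ ya, f ∉ S → η f = ξ f) (hξ : ξ ∈ D1 g (par (g.w, ya)) Y₀ ya) :
    ∃ b : ℤ × ℤ, b.2 = Y₀ ∧ (g.N + 1) * g.A ≤ b.1 ∧ b.1 ≤ (g.N + 2) * g.A ∧
      par b = par (g.w, ya) ∧ Conn η ((F1 g Y₀ ya : Set (ℤ × ℤ)) ∪ S) b (g.w, ya) := by
  obtain ⟨⟨n1, n1'⟩, n2, n3, n4, e1, e2, e4, e3, e2', -, -⟩ := nums hg
  have hport := mem_ports hS.port
  simp only at hport
  obtain ⟨r0, r1, r2⟩ := rw_spec n1 (y := ya) (by omega)
  have hx₁ := hw.x₁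
  have hy₀ := hw.y₀
  have hy₁ := hw.y₁
  have hx₀ := hw.x₀
  rw [e4] at hx₁ hy₀ hy₁ hx₀
  obtain ⟨⟨⟨c1, c2⟩, c3⟩, c4⟩ := hξ
  have hF : ∀ f : ℤ × ℤ, f ∈ (F1 g Y₀ ya : Set (ℤ × ℤ)) ↔
      (f ∈ RF ((g.N + 1) * g.A) ((g.N + 2) * g.A) Y₀ (rw' g.A ya - g.A) ∨
      f ∈ RF ((g.N - 3) * g.A) ((g.N + 2) * g.A) (rw' g.A ya - 2 * g.A) (rw' g.A ya - g.A)) ∨
      f ∈ RF ((g.N - 3) * g.A) ((g.N - 2) * g.A) (rw' g.A ya - 2 * g.A) (rw' g.A ya + 3 * g.A) ∨
      f ∈ RF ((g.N - 3) * g.A) ((g.N + 2) * g.A) (rw' g.A ya + 2 * g.A) (rw' g.A ya + 3 * g.A) := by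
    intro f
    unfold F1
    rw [Finset.mem_coe, mem_union, mem_union, mem_union, or_assoc]
  obtain ⟨p, q, -, p1, p2, p3, p4, q1, q2, q3, -, -, -, hc, -⟩ := four (F := (F1 g Y₀ ya : Set (ℤ × ℤ)))
    (by omega) (by omega) (by omega) c1 c2 c3 c4
    (fun f hf => (hF f).2 (Or.inl (Or.inl (Finset.mem_coe.1 hf))))
    (fun f hf => (hF f).2 (Or.inl (Or.inr (Finset.mem_coe.1 hf))))
    (fun f hf => (hF f).2 (Or.inr (Or.inl (Finset.mem_coe.1 hf))))
    (fun f hf => (hF f).2 (Or.inr (Or.inr (Finset.mem_coe.1 hf))))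
  have hpar : par p = par (g.w, ya) := by
    unfold par at p4 ⊢
    omega
  have hss := (MM_agree hS h1).2.2
  have H := sec_of_pots hg hw hS hK hP h1
  have hb := hP.botR p.1 (by omega) (by omega)
  have hr := hP.right q.2 (by omega) (by omega)
  have ep : p = (p.1, Y₀) := Prod.ext rfl p1
  have eq' : q = ((g.N + 2) * g.A, q.2) := Prod.ext q1 rfl
  rw [← ep] at hb
  rw [← eq'] at hr
  refine ⟨p, p1, p2, p3, hpar, ?_⟩
  refine (H.landD₁ ?_ ?_ hc hpar hb.1 hb.2 (by rw [hr.1, hr.2, add_zero])).mono ?_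
  · intro f hf hf'
    rw [hss] at hf'
    exact h2 f (Finset.mem_coe.1 hf) hf'
  · intro f hf hf' p q hp hq
    rw [hss] at hf'
    have hf2 := (hF f).1 hf
    rw [mem_RFi, mem_RFi, mem_RFi, mem_RFi] at hf2
    refine (pots_fresh hS hK hw hg hP (f := f) (mem_RFi.2 (by omega)) hf'
      (notIn hg hS.in₁ (by omega)) (notIn hg hS.in₂ (by omega)) (by omega) (by omega) hp hq).2 ?_
    intro hl
    have k1 := hK.ball₁ f hl
    have k2 := (hK.box f hl).2.1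
    apply k1
    rw [abs_le, abs_le]
    omega
  · rintro f (hf | hf)
    · exact Or.inl hf
    · refine Or.inr ?_
      rw [← hss]
      exact Or.inl hf

theorem leg₂ (hg : g.Ok) (hw : WinOk g X₀ X₁ Y₀ Y₁)
    (hS : StrZ g ω ya yb a₁ a₂ x₁ x₂ k₁ k₂ l₁ l₂ S) (hK : KapZ g Y₀ ya yb S l₁ l₂ kk lk)
    (hP : Pots g X₀ X₁ Y₀ Y₁ ω ya yb a₁ a₂ l₁ l₂ lk Φ₁ Φ₂) (h1 : ∀ f ∈ S, η f = ω f)
    (h2 : ∀ f ∈ F2 g Y₀ yb, f ∉ S → η f = ξ f) (hξ : ξ ∈ D2 g (par (g.w, ya)) Y₀ yb) :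
    ∃ b : ℤ × ℤ, b.2 = Y₀ ∧ -((g.N + 2) * g.A) ≤ b.1 ∧ b.1 ≤ -((g.N + 1) * g.A) ∧
      par b = par (g.w, ya) ∧ Conn η ((F2 g Y₀ yb : Set (ℤ × ℤ)) ∪ S) b (-(g.w + 2), yb) := by
  obtain ⟨⟨n1, n1'⟩, n2, n3, n4, e1, e2, e4, e3, e2', -, -⟩ := nums hg
  have hport := mem_ports hS.port
  simp only at hport
  obtain ⟨r0, r1, r2⟩ := rw_spec n1 (y := yb) (by omega)
  have hx₁ := hw.x₁
  have hy₀ := hw.y₀
  have hy₁ := hw.y₁
  have hx₀ := hw.x₀
  rw [e4] at hx₁ hy₀ hy₁ hx₀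
  obtain ⟨⟨⟨c1, c2⟩, c3⟩, c4⟩ := hξ
  have hF : ∀ f : ℤ × ℤ, f ∈ (F2 g Y₀ yb : Set (ℤ × ℤ)) ↔
      (f ∈ RF (-((g.N + 2) * g.A)) (-((g.N + 1) * g.A)) Y₀ (rw' g.A yb - g.A) ∨
      f ∈ RF (-((g.N + 2) * g.A)) (-((g.N - 3) * g.A)) (rw' g.A yb - 2 * g.A)
        (rw' g.A yb - g.A)) ∨
      f ∈ RF (-((g.N - 2) * g.A)) (-((g.N - 3) * g.A)) (rw' g.A yb - 2 * g.A)
        (rw' g.A yb + 3 * g.A) ∨
      f ∈ RF (-((g.N + 2) * g.A)) (-((g.N - 3) * g.A)) (rw' g.A yb + 2 * g.A)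
        (rw' g.A yb + 3 * g.A) := by
    intro f
    unfold F2
    rw [Finset.mem_coe, mem_union, mem_union, mem_union, or_assoc]
  obtain ⟨p, -, q, p1, p2, p3, p4, -, -, -, q1, q2, q3, -, hc⟩ := four (F := (F2 g Y₀ yb : Set (ℤ × ℤ)))
    (by omega) (by omega) (by omega) c1 c2 c3 c4
    (fun f hf => (hF f).2 (Or.inl (Or.inl (Finset.mem_coe.1 hf))))
    (fun f hf => (hF f).2 (Or.inl (Or.inr (Finset.mem_coe.1 hf))))
    (fun f hf => (hF f).2 (Or.inr (Or.inl (Finset.mem_coe.1 hf))))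
    (fun f hf => (hF f).2 (Or.inr (Or.inr (Finset.mem_coe.1 hf))))
  have hpar : par p = par (g.w, ya) := by
    unfold par at p4 ⊢
    omega
  have hss := (MM_agree hS h1).2.2
  have H := sec_of_pots hg hw hS hK hP h1
  have hb := hP.botL p.1 (by omega) (by omega)
  have hr := hP.left q.2 (by omega) (by omega)
  have ep : p = (p.1, Y₀) := Prod.ext rfl p1
  have eq' : q = (-((g.N + 2) * g.A), q.2) := Prod.ext q1 rfl
  rw [← ep] at hb
  rw [← eq'] at hr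
  refine ⟨p, p1, p2, p3, hpar, ?_⟩
  refine (H.landD₂ ?_ ?_ hc hpar hb.1 hb.2 (by rw [hr.1, hr.2, add_zero])).mono ?_
  · intro f hf hf'
    rw [hss] at hf'
    exact h2 f (Finset.mem_coe.1 hf) hf'
  · intro f hf hf' p q hp hq
    rw [hss] at hf'
    have hf2 := (hF f).1 hf
    rw [mem_RFi, mem_RFi, mem_RFi, mem_RFi] at hf2
    refine (pots_fresh hS hK hw hg hP (f := f) (mem_RFi.2 (by omega)) hf'
      (notIn hg hS.in₁ (by omega)) (notIn hg hS.in₂ (by omega)) (by omega) (by omega) hp hq).2 ?_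
    intro hl
    have k1 := hK.ball₂ f hl
    have k2 := (hK.box f hl).1
    apply k1
    rw [abs_le, abs_le]
    omega
  · rintro f (hf | hf)
    · exact Or.inl hf
    · refine Or.inr ?_
      rw [← hss]
      exact Or.inr hf

theorem strip (hg : g.Ok) (hw : WinOk g X₀ X₁ Y₀ Y₁)
    (hS : StrZ g ω ya yb a₁ a₂ x₁ x₂ k₁ k₂ l₁ l₂ S) (hK : KapZ g Y₀ ya yb S l₁ l₂ kk lk)
    (hP : Pots g X₀ X₁ Y₀ Y₁ ω ya yb a₁ a₂ l₁ l₂ lk Φ₁ Φ₂) (h1 : ∀ f ∈ S, η f = ω f)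
    (h2 : ∀ f ∈ FP g Y₁, f ∉ S → η f = ξ f) (hξ : ξ ∈ PS g (par (g.w, ya + 1)) Y₁) :
    ∃ t : ℤ × ℤ, t.2 = Y₁ ∧ (Conn η ((FP g Y₁ : Set (ℤ × ℤ)) ∪ S) t (g.w, ya + 1) ∨
      Conn η ((FP g Y₁ : Set (ℤ × ℤ)) ∪ S) t (-(g.w + 2), yb + 1)) := by
  obtain ⟨⟨n1, n1'⟩, n2, n3, n4, e1, e2, e4, e3, e2', e20, e19⟩ := nums hg
  have hx₁ := hw.x₁
  have hy₀ := hw.y₀
  have hy₁ := hw.y₁
  have hx₀ := hw.x₀
  rw [e4] at hx₁ hy₀ hy₁ hx₀
  obtain ⟨q, p, q1, q2, q3, p1, q4, hc⟩ := hξ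
  have hpp := Conn.parity hc
  have hpx : (g.N - 20) * g.A ≤ p.1 ∧ p.1 ≤ (g.N - 19) * g.A := by
    have key : ∀ {v : ℤ × ℤ}, Conn ξ (RF ((g.N - 20) * g.A) ((g.N - 19) * g.A)
        (-((g.N + 1) * g.A)) Y₁) q v → (g.N - 20) * g.A ≤ v.1 ∧ v.1 ≤ (g.N - 19) * g.A := by
      intro v h
      induction h with
      | refl => exact ⟨q2, q3⟩
      | tail _ hb _ =>
        obtain ⟨f, hf, -, -, c⟩ := hb.exists_face
        have hf' := mem_RFi.1 (Finset.mem_coe.1 hf)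
        unfold IsCor at c
        omega
    exact key hc
  have hpar : par p = par (g.w, ya + 1) := by
    unfold par at q4 ⊢
    omega
  have hss := (MM_agree hS h1).2.2
  have H := sec_of_pots hg hw hS hK hP h1
  have hb := hP.strip q.1 (by omega) (by omega)
  have ht := hP.top p.1 (by omega) (by omega)
  have ep : p = (p.1, Y₁) := Prod.ext rfl p1
  have eq' : q = (q.1, -((g.N + 1) * g.A)) := Prod.ext rfl q1
  rw [← eq'] at hb
  rw [← ep] at ht
  refine ⟨p, p1, ?_⟩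
  have hFP : ∀ f : ℤ × ℤ, f ∈ (FP g Y₁ : Set (ℤ × ℤ)) ↔ f ∈ RF ((g.N - 20) * g.A)
      ((g.N - 19) * g.A) (-((g.N + 1) * g.A)) Y₁ := fun f => by
    unfold FP
    exact Finset.mem_coe
  have hc' : Conn ξ (FP g Y₁ : Set (ℤ × ℤ)) p q :=
    Conn.symm (hc.mono fun f hf => (hFP f).2 (Finset.mem_coe.1 hf))
  have t1 : ∀ f ∈ (FP g Y₁ : Set (ℤ × ℤ)), f ∉ SS η (DZ g.w ya yb a₁ a₂) (tR g.w ya) ∪
      SS η (DZ g.w ya yb a₁ a₂) (tL g.w yb) → η f = ξ f := by
    intro f hf hf'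
    rw [hss] at hf'
    exact h2 f (Finset.mem_coe.1 hf) hf'
  have t2 : ∀ f ∈ (FP g Y₁ : Set (ℤ × ℤ)), f ∉ SS η (DZ g.w ya yb a₁ a₂) (tR g.w ya) ∪
      SS η (DZ g.w ya yb a₁ a₂) (tL g.w yb) → ∀ p q, IsCor f p → IsCor f q →
      Φ₁ p + Φ₂ p = Φ₁ q + Φ₂ q := by
    intro f hf hf' p q hp hq
    rw [hss] at hf'
    have hf2 := (hFP f).1 hf
    rw [mem_RFi] at hf2
    exact (pots_fresh hS hK hw hg hP (f := f) (mem_RFi.2 (by omega)) hf'
      (notIn hg hS.in₁ (by omega)) (notIn hg hS.in₂ (by omega)) (by omega) (by omega) hp hq).1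
  rcases H.landP t1 t2 hc' hpar (by rw [ht.1, ht.2, add_zero])
    (by rw [hb.1, hb.2, add_zero]) with h3 | h3
  · refine Or.inl (h3.mono ?_)
    rintro f (hf | hf)
    · exact Or.inl hf
    · refine Or.inr ?_
      rw [← hss]
      exact Or.inl hf
  · refine Or.inr (h3.mono ?_)
    rintro f (hf | hf)
    · exact Or.inl hf
    · refine Or.inr ?_
      rw [← hss]
      exact Or.inr hf

end Pool.Agent.Occ

end PartoccZF

section PartoccZGF

/-!
# Row ZG, the geometry of the gate: the arc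
-/

set_option autoImplicit false

namespace Pool.Agent.Occ

open Finset Pool.Agent.Perc Pool.Agent.Perc3 Pool.Agent.PercD Pool.Agent.Perc6

namespace ZGAux

/-- A part of a side of the hole on the P arc. -/
theorem exists_arc {R a k₁ k₂ kk : ℤ} (ha : 0 < a) (hR : 99 * a ≤ R) (r1 : 0 ≤ k₁ ∧ k₁ < 8 * R)
    (r2 : 0 ≤ k₂ ∧ k₂ < 8 * R) (hs : 10 * a ≤ |k₁ - k₂| ∧ |k₁ - k₂| ≤ 8 * R - 10 * a)
    (hc : ∀ j : ℤ, (j = 1 ∨ j = 3 ∨ j = 5 ∨ j = 7) →
      10 * a ≤ |k₁ - j * R| ∧ 10 * a ≤ |k₂ - j * R|) :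
    ∃ b b' α β, ((b = 0 ∧ b' = R) ∨ (b = R ∧ b' = 3 * R) ∨ (b = 3 * R ∧ b' = 5 * R) ∨
      (b = 5 * R ∧ b' = 7 * R) ∨ (b = 7 * R ∧ b' = 8 * R)) ∧ b ≤ α ∧ α + 5 * a - 1 ≤ β ∧
      β ≤ b' ∧ ∀ k, α ≤ k → k ≤ β →
        ((kk ≤ k₁ ∧ kk ≤ k₂ ∨ k₁ < kk ∧ k₂ < kk) ∧ (k₁ < k ∧ k ≤ k₂ ∨ k₂ < k ∧ k ≤ k₁)) ∨
        ((k₁ < kk ∧ kk ≤ k₂ ∨ k₂ < kk ∧ kk ≤ k₁) ∧ (k ≤ k₁ ∧ k ≤ k₂ ∨ k₁ < k ∧ k₂ < k)) := by
  have c1 := hc 1 (by omega)
  have c3 := hc 3 (by omega)
  have c5 := hc 5 (by omega)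
  have c7 := hc 7 (by omega)
  clear hc
  rw [one_mul] at c1
  simp only [le_abs'] at c1 c3 c5 c7
  rw [le_abs', abs_le] at hs
  wlog hlt : k₁ < k₂ generalizing k₁ k₂ with H
  · obtain ⟨b, b', α, β, h1, h2, h3, h4, h5⟩ := H r2 r1 (by omega) ⟨c1.2, c1.1⟩ ⟨c3.2, c3.1⟩
      ⟨c5.2, c5.1⟩ ⟨c7.2, c7.1⟩ (by omega)
    exact ⟨b, b', α, β, h1, h2, h3, h4, fun k h6 h7 => by have := h5 k h6 h7; omega⟩
  by_cases hA : kk ≤ k₁ ∨ k₂ < kk
  · -- the arc between `k₁` and `k₂`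
    by_cases g1 : k₁ < R ∧ R < k₂
    · exact ⟨R, 3 * R, R, R + 5 * a, by omega, by omega, by omega, by omega, fun k _ _ => by omega⟩
    by_cases g3 : k₁ < 3 * R ∧ 3 * R < k₂
    · exact ⟨3 * R, 5 * R, 3 * R, 3 * R + 5 * a, by omega, by omega, by omega, by omega,
        fun k _ _ => by omega⟩
    by_cases g5 : k₁ < 5 * R ∧ 5 * R < k₂
    · exact ⟨5 * R, 7 * R, 5 * R, 5 * R + 5 * a, by omega, by omega, by omega, by omega,
        fun k _ _ => by omega⟩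
    by_cases g7 : k₁ < 7 * R ∧ 7 * R < k₂
    · exact ⟨5 * R, 7 * R, 7 * R - 5 * a, 7 * R, by omega, by omega, by omega, by omega,
        fun k _ _ => by omega⟩
    by_cases q1 : k₂ < R
    · exact ⟨0, R, k₁ + 1, k₂, by omega, by omega, by omega, by omega, fun k _ _ => by omega⟩
    by_cases q3 : k₂ < 3 * R
    · exact ⟨R, 3 * R, k₁ + 1, k₂, by omega, by omega, by omega, by omega, fun k _ _ => by omega⟩
    by_cases q5 : k₂ < 5 * R
    · exact ⟨3 * R, 5 * R, k₁ + 1, k₂, by omega, by omega, by omega, by omega,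
        fun k _ _ => by omega⟩
    by_cases q7 : k₂ < 7 * R
    · exact ⟨5 * R, 7 * R, k₁ + 1, k₂, by omega, by omega, by omega, by omega,
        fun k _ _ => by omega⟩
    exact ⟨7 * R, 8 * R, k₁ + 1, k₂, by omega, by omega, by omega, by omega, fun k _ _ => by omega⟩
  · by_cases q1 : R < k₁
    · exact ⟨0, R, 0, R, by omega, by omega, by omega, by omega, fun k _ _ => by omega⟩
    by_cases q2 : k₂ < 7 * R
    · exact ⟨7 * R, 8 * R, 7 * R, 8 * R, by omega, by omega, by omega, by omega,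
        fun k _ _ => by omega⟩
    by_cases q3 : 5 * a ≤ k₁
    · exact ⟨0, R, 0, k₁, by omega, by omega, by omega, by omega, fun k _ _ => by omega⟩
    · exact ⟨7 * R, 8 * R, k₂ + 1, 8 * R, by omega, by omega, by omega, by omega,
        fun k _ _ => by omega⟩

end ZGAux

end Pool.Agent.Occ

end PartoccZGF

section PartoccZBar

/-!
# The barrier: squares behind a path of the other colour are free
-/

set_option autoImplicit false

namespace Pool.Agent.Occ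

open Finset Pool.Agent.Perc Pool.Agent.PercD Pool.Agent.PercL Pool.Agent.Perc6

/-- Four boundary points in alternating order: a connection of the lower side with itself and a
connection of the other parity from the lower side, in between, to the left, right or upper side
exclude each other. -/
theorem no_alt {ω : Cfg} {x₀ x₁ y₀ y₁ : ℤ} {u w p z : ℤ × ℤ} (hu0 : x₀ ≤ u.1)
    (hu : u.2 = y₀) (hw : w.2 = y₀) (hup : u.1 < p.1) (hpw : p.1 < w.1) (hp : p.2 = y₀)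
    (hpar : (p.1 + p.2) % 2 ≠ (u.1 + u.2) % 2) (h : Conn ω (RF x₀ x₁ y₀ y₁) u w)
    (hc : Conn ω (RF x₀ x₁ y₀ y₁) p z) (hz : z.1 = x₀ ∨ z.1 = x₁ ∨ z.2 = y₁) : False := by
  obtain ⟨β, h1, h2, h3, h4, h5⟩ := PlanarA.exists_chain h
  have hβ : ∀ f, β f ≠ 0 → x₀ ≤ f.1 := fun f hf => (PlanarA.mem_RF.mp (h1 f hf)).1.1
  have hβ0 : ∀ f, f ∉ RF x₀ x₁ y₀ y₁ → β f = 0 := by
    intro f hf
    by_contra h0
    exact hf (h1 f h0)
  set P := u.1 + u.2 with hP
  -- the potential does not change across the higher rows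
  have agree : ∀ x Y : ℤ, x₀ ≤ x → y₀ < Y → (x + Y - P) % 2 ≠ 0 →
      PlanarA.pre x₀ β x Y = PlanarA.pre x₀ β x (Y - 1) := by
    intro x Y hx hY hxP
    refine PlanarA.pre_agree (p := P) hβ ?_ (x - x₀ + 1).toNat x (by omega) hxP
    intro x' hx'
    rw [h4 (x', Y) hx']
    have e1 : (x', Y) ≠ u := by
      intro h0
      rw [← h0] at hu
      simp only at hu
      omega
    have e2 : (x', Y) ≠ w := by
      intro h0
      rw [← h0] at hw
      simp only at hw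
      omega
    simp [PlanarA.ind, e1, e2]
  -- constant along the path
  have hconst : ∀ q, Conn ω (RF x₀ x₁ y₀ y₁) p q →
      PlanarA.pre x₀ β p.1 p.2 = PlanarA.pre x₀ β q.1 q.2 := by
    intro q hq
    induction hq with
    | refl => rfl
    | tail hab hb ih =>
      rename_i a b
      rw [ih]
      have hpa := Conn.parity hab
      obtain ⟨x, y, hxy, hb⟩ := hb
      have hm := PlanarA.mem_RF.mp (Finset.mem_coe.mp hxy)
      simp only at hm
      have hb0 : β (x, y) = 0 := by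
        by_contra h0
        have h6 := h3 _ h0
        simp only at h6
        rcases hb with ⟨hω, ⟨rfl, rfl⟩ | ⟨rfl, rfl⟩⟩ | ⟨hω, ⟨rfl, rfl⟩ | ⟨rfl, rfl⟩⟩
        · have := h6.mp hω; simp only at hpa; omega
        · have := h6.mp hω; simp only at hpa; omega
        · simp only at hpa
          have := h6.mpr (by omega)
          rw [hω] at this
          exact absurd this (by simp)
        · simp only at hpa
          have := h6.mpr (by omega)
          rw [hω] at this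
          exact absurd this (by simp)
      have hs := PlanarA.pre_succ hβ x y
      rw [hb0, add_zero] at hs
      have ag1 : (x + 1 + (y + 1) - P) % 2 ≠ 0 →
          PlanarA.pre x₀ β (x + 1) (y + 1) = PlanarA.pre x₀ β (x + 1) y := by
        intro h7
        have := agree (x + 1) (y + 1) (by omega) (by omega) h7
        rwa [add_sub_cancel_right] at this
      have ag2 : (x + (y + 1) - P) % 2 ≠ 0 →
          PlanarA.pre x₀ β x (y + 1) = PlanarA.pre x₀ β x y := by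
        intro h7
        have := agree x (y + 1) (by omega) (by omega) h7
        rwa [add_sub_cancel_right] at this
      rcases hb with ⟨hω, ⟨rfl, rfl⟩ | ⟨rfl, rfl⟩⟩ | ⟨hω, ⟨rfl, rfl⟩ | ⟨rfl, rfl⟩⟩
      · simp only at hpa ⊢
        rw [ag1 (by omega), hs]
      · simp only at hpa ⊢
        rw [ag1 (by omega), hs]
      · simp only at hpa ⊢
        rw [ag2 (by omega), hs]
      · simp only at hpa ⊢
        rw [ag2 (by omega), hs]
  -- the lower row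
  have hrow : ∀ n : ℕ, ∀ x : ℤ, x = x₀ - 1 + n → (x + y₀ - P) % 2 ≠ 0 →
      PlanarA.pre x₀ β x y₀ = (if u.1 < x then 1 else 0) + (if w.1 < x then 1 else 0) := by
    intro n
    induction n using Nat.strong_induction_on with
    | _ n ih =>
      intro x hx hxP
      by_cases hn : x ≤ x₀
      · rw [PlanarA.pre_of_le β y₀ hn, if_neg (by omega), if_neg (by omega), add_zero]
      · have e1 := PlanarA.pre_succ hβ (x - 1) y₀
        have e2 := PlanarA.pre_succ hβ (x - 1 - 1) y₀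
        rw [sub_add_cancel] at e1 e2
        have e3 := h4 (x - 1, y₀) (by simp only; omega)
        unfold PlanarA.deg at e3
        simp only at e3
        rw [hβ0 (x - 1, y₀ - 1) (by rw [PlanarA.mem_RF]; simp only; omega),
          hβ0 (x - 1 - 1, y₀ - 1) (by rw [PlanarA.mem_RF]; simp only; omega), add_zero,
          add_zero] at e3
        have e4 : PlanarA.pre x₀ β (x - 1 - 1) y₀ =
            (if u.1 < x - 1 - 1 then 1 else 0) + (if w.1 < x - 1 - 1 then 1 else 0) := by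
          by_cases h8 : x - 1 - 1 ≤ x₀
          · rw [PlanarA.pre_of_le β y₀ h8, if_neg (by omega), if_neg (by omega), add_zero]
          · exact ih (n - 2) (by omega) (x - 1 - 1) (by omega) (by omega)
        rw [e1, e2, e4]
        have e5 : β (x - 1 - 1, y₀) + β (x - 1, y₀) = PlanarA.ind u (x - 1, y₀) +
            PlanarA.ind w (x - 1, y₀) := by rw [← e3, add_comm]
        rw [add_assoc, e5]
        have e6 : ∀ v : ℤ × ℤ, v.2 = y₀ → (v.1 + v.2 - P) % 2 = 0 →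
            (if v.1 < x - 1 - 1 then (1 : ZMod 2) else 0) + PlanarA.ind v (x - 1, y₀) =
              if v.1 < x then 1 else 0 := by
          intro v hv hvP
          unfold PlanarA.ind
          by_cases h9 : v.1 = x - 1
          · have h10 : (x - 1, y₀) = v := by rw [← h9, ← hv]
            rw [if_neg (by omega), if_pos h10, if_pos (by omega), zero_add]
          · have h10 : (x - 1, y₀) ≠ v := by
              intro h11
              rw [← h11] at h9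
              exact h9 rfl
            rw [if_neg h10, add_zero]
            by_cases h11 : v.1 < x - 1 - 1
            · rw [if_pos h11, if_pos (by omega)]
            · rw [if_neg h11, if_neg (by omega)]
        have hwpar := Conn.parity h
        rw [← e6 u hu (by omega), ← e6 w hw (by omega)]
        ring
  have hΦp : PlanarA.pre x₀ β p.1 p.2 = 1 := by
    rw [hp, hrow (p.1 - x₀ + 1).toNat p.1 (by omega) (by omega), if_pos hup,
      if_neg (by omega), add_zero]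
  have hΦz : PlanarA.pre x₀ β z.1 z.2 = 0 := by
    rcases hz with h6 | h6 | h6
    · exact PlanarA.pre_of_le β z.2 h6.le
    · rw [h6]
      unfold PlanarA.pre
      rw [h5, hu, hw]
      exact PlanarA.zmod_add_self _
    · rw [h6]
      unfold PlanarA.pre
      refine Finset.sum_eq_zero fun i _ => hβ0 _ ?_
      rw [PlanarA.mem_RF]
      simp only
      omega
  rw [hconst z hc, hΦz] at hΦp
  exact absurd hΦp (by decide)

/-- The faces of the squares of `T`. -/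
def SqF (x y η : ℤ) (T : Set (ℤ × ℤ)) : Set (ℤ × ℤ) :=
  {f | ∃ t ∈ T, x + η * t.1 ≤ f.1 ∧ f.1 < x + η * (t.1 + 1) ∧ y + η * t.2 ≤ f.2 ∧
    f.2 < y + η * (t.2 + 1)}

/-- The vertex `p` is in the closed square `t`. -/
def InSq (x y η : ℤ) (t p : ℤ × ℤ) : Prop :=
  x + η * t.1 ≤ p.1 ∧ p.1 ≤ x + η * (t.1 + 1) ∧ y + η * t.2 ≤ p.2 ∧ p.2 ≤ y + η * (t.2 + 1)

/-- The bond of the face `f` of the parity `col`. -/
def pb (col : ℤ) (f : ℤ × ℤ) : Bool := decide ((f.1 + f.2 - col) % 2 = 0)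

/-- Adding bonds of the parity `col` preserves the connections of this parity. -/
theorem conn_add {col : ℤ} {K F : Set (ℤ × ℤ)} {ω ω' : Cfg} (h : ∀ f ∈ K, ω' f = pb col f)
    (h' : ∀ f, f ∉ K → ω' f = ω f) {p q : ℤ × ℤ} (hp : par p = col) (hc : Conn ω F p q) :
    Conn ω' F p q := by
  induction hc with
  | refl => exact Relation.ReflTransGen.refl
  | tail hab hb ih =>
    rename_i a b
    refine ih.tail ?_
    have hpa := Conn.parity hab
    unfold par at hp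
    obtain ⟨x, y, hxy, hb⟩ := hb
    refine ⟨x, y, hxy, ?_⟩
    by_cases hK : (x, y) ∈ K
    · have h1 := h _ hK
      rcases hb with ⟨hω, ⟨rfl, rfl⟩ | ⟨rfl, rfl⟩⟩ | ⟨hω, ⟨rfl, rfl⟩ | ⟨rfl, rfl⟩⟩
      · refine Or.inl ⟨?_, Or.inl ⟨rfl, rfl⟩⟩
        rw [h1]
        unfold pb
        simp only at hpa ⊢
        exact decide_eq_true (by omega)
      · refine Or.inl ⟨?_, Or.inr ⟨rfl, rfl⟩⟩
        rw [h1]
        unfold pb
        simp only at hpa ⊢
        exact decide_eq_true (by omega)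
      · refine Or.inr ⟨?_, Or.inl ⟨rfl, rfl⟩⟩
        rw [h1]
        unfold pb
        simp only at hpa ⊢
        exact decide_eq_false (by omega)
      · refine Or.inr ⟨?_, Or.inr ⟨rfl, rfl⟩⟩
        rw [h1]
        unfold pb
        simp only at hpa ⊢
        exact decide_eq_false (by omega)
    · rwa [h' _ hK]

/-- The vertices of one parity of a rectangle are connected if all bonds have this parity: down. -/
theorem to_bottom {col : ℤ} {ω : Cfg} {F : Set (ℤ × ℤ)} {X Y η : ℤ} (hη : 1 ≤ η)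
    (hF : ∀ f : ℤ × ℤ, X ≤ f.1 → f.1 < X + η → Y ≤ f.2 → f.2 < Y + η → f ∈ F ∧ ω f = pb col f) :
    ∀ n : ℕ, ∀ v : ℤ × ℤ, v.2 = Y + n → X ≤ v.1 → v.1 ≤ X + η → v.2 ≤ Y + η → par v = col →
      ∃ a, X ≤ a ∧ a ≤ X + η ∧ par (a, Y) = col ∧ Conn ω F v (a, Y) := by
  intro n
  induction n with
  | zero =>
    rintro ⟨a, b⟩ hb h1 h2 h3 hp
    simp only [Nat.cast_zero, add_zero] at hb h1 h2
    subst hb
    exact ⟨a, h1, h2, hp, Relation.ReflTransGen.refl⟩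
  | succ n ih =>
    rintro ⟨a, b⟩ hb h1 h2 h3 hp
    simp only at hb h1 h2 h3
    push_cast at hb
    unfold par at hp ih ⊢
    simp only at hp
    by_cases ha : X < a
    · obtain ⟨a', e1, e2, e3, e4⟩ := ih (a - 1, b - 1) (by simp only; omega) (by simp only; omega)
        (by simp only; omega) (by simp only; omega) (by simp only; omega)
      refine ⟨a', e1, e2, e3, Relation.ReflTransGen.head ?_ e4⟩
      obtain ⟨f1, f2⟩ := hF (a - 1, b - 1) (by simp only; omega) (by simp only; omega)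
        (by simp only; omega) (by simp only; omega)
      refine ⟨a - 1, b - 1, f1, Or.inl ⟨?_, Or.inr ⟨by rw [sub_add_cancel, sub_add_cancel], rfl⟩⟩⟩
      rw [f2]
      unfold pb
      exact decide_eq_true (by simp only; omega)
    · obtain ⟨a', e1, e2, e3, e4⟩ := ih (a + 1, b - 1) (by simp only; omega) (by simp only; omega)
        (by simp only; omega) (by simp only; omega) (by simp only; omega)
      refine ⟨a', e1, e2, e3, Relation.ReflTransGen.head ?_ e4⟩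
      obtain ⟨f1, f2⟩ := hF (a, b - 1) (by simp only; omega) (by simp only; omega)
        (by simp only; omega) (by simp only; omega)
      refine ⟨a, b - 1, f1, Or.inr ⟨?_, Or.inl ⟨by rw [sub_add_cancel], rfl⟩⟩⟩
      rw [f2]
      unfold pb
      exact decide_eq_false (by simp only; omega)

/-- Along the lower side. -/
theorem along_bottom {col : ℤ} {ω : Cfg} {F : Set (ℤ × ℤ)} {X Y η : ℤ}
    (hF : ∀ f : ℤ × ℤ, X ≤ f.1 → f.1 < X + η → Y ≤ f.2 → f.2 < Y + η → f ∈ F ∧ ω f = pb col f) :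
    ∀ n : ℕ, ∀ a : ℤ, X ≤ a → a + 2 * n ≤ X + η → par (a, Y) = col →
      Conn ω F (a, Y) (a + 2 * n, Y) := by
  intro n
  induction n with
  | zero =>
    intro a _ _ _
    simp only [Nat.cast_zero, mul_zero, add_zero]
    exact Relation.ReflTransGen.refl
  | succ n ih =>
    intro a h1 h2 hp
    push_cast at h2
    have h3 := ih a h1 (by omega) hp
    unfold par at hp
    simp only at hp
    have h4 : Conn ω F (a, Y) (a + 2 * n + 1, Y + 1) := by
      refine h3.tail ?_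
      obtain ⟨f1, f2⟩ := hF (a + 2 * n, Y) (by simp only; omega) (by simp only; omega)
        (by simp only; omega) (by simp only; omega)
      refine ⟨a + 2 * n, Y, f1, Or.inl ⟨?_, Or.inl ⟨rfl, rfl⟩⟩⟩
      rw [f2]
      unfold pb
      exact decide_eq_true (by simp only; omega)
    refine h4.tail ?_
    obtain ⟨f1, f2⟩ := hF (a + 2 * n + 1, Y) (by simp only; omega) (by simp only; omega)
      (by simp only; omega) (by simp only; omega)
    refine ⟨a + 2 * n + 1, Y, f1, Or.inr ⟨?_, Or.inl ⟨rfl, ?_⟩⟩⟩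
    · rw [f2]
      unfold pb
      exact decide_eq_false (by simp only; omega)
    · push_cast
      rw [show a + 2 * (n + 1 : ℤ) = a + 2 * n + 1 + 1 by ring]

/-- The vertices of one parity of a square with all bonds of this parity are connected. -/
theorem sq_conn {col : ℤ} {ω : Cfg} {F : Set (ℤ × ℤ)} {X Y η : ℤ} (hη : 1 ≤ η)
    (hF : ∀ f : ℤ × ℤ, X ≤ f.1 → f.1 < X + η → Y ≤ f.2 → f.2 < Y + η → f ∈ F ∧ ω f = pb col f)
    {v v' : ℤ × ℤ} (hv : X ≤ v.1 ∧ v.1 ≤ X + η ∧ Y ≤ v.2 ∧ v.2 ≤ Y + η) (hp : par v = col)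
    (hv' : X ≤ v'.1 ∧ v'.1 ≤ X + η ∧ Y ≤ v'.2 ∧ v'.2 ≤ Y + η) (hp' : par v' = col) :
    Conn ω F v v' := by
  obtain ⟨a, a1, a2, a3, a4⟩ := to_bottom hη hF (v.2 - Y).toNat v (by omega) hv.1 hv.2.1
    hv.2.2.2 hp
  obtain ⟨b, b1, b2, b3, b4⟩ := to_bottom hη hF (v'.2 - Y).toNat v' (by omega) hv'.1 hv'.2.1
    hv'.2.2.2 hp'
  have hab : (a - b) % 2 = 0 := by
    unfold par at a3 b3
    simp only at a3 b3
    omega
  have key : Conn ω F (a, Y) (b, Y) := by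
    rcases le_total a b with h | h
    · have := along_bottom hF ((b - a) / 2).toNat a a1 (by omega) a3
      rwa [show a + 2 * (((b - a) / 2).toNat : ℤ) = b by omega] at this
    · have := along_bottom hF ((a - b) / 2).toNat b b1 (by omega) b3
      rw [show b + 2 * (((a - b) / 2).toNat : ℤ) = a by omega] at this
      exact this.symm
  exact (a4.trans key).trans b4.symm

/-- The neighbour relation of squares of `T`. -/
def NbT (T : Set (ℤ × ℤ)) (t t' : ℤ × ℤ) : Prop :=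
  ((t.1 = t'.1 ∧ |t.2 - t'.2| = 1) ∨ (t.2 = t'.2 ∧ |t.1 - t'.1| = 1)) ∧ t ∈ T ∧ t' ∈ T

/-- Neighbouring squares have a common vertex of every parity. -/
theorem common_vertex {col x y η : ℤ} (hη : 1 ≤ η) (hcol : col = 0 ∨ col = 1) {t t' : ℤ × ℤ}
    (h : (t.1 = t'.1 ∧ |t.2 - t'.2| = 1) ∨ (t.2 = t'.2 ∧ |t.1 - t'.1| = 1)) :
    ∃ v, InSq x y η t v ∧ InSq x y η t' v ∧ par v = col := by
  have key : ∀ X Y X' Y' : ℤ, (par (X, Y) = col ∨ par (X', Y') = col) →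
      (InSq x y η t (X, Y) ∧ InSq x y η t' (X, Y)) → (InSq x y η t (X', Y') ∧ InSq x y η t' (X', Y')) →
      ∃ v, InSq x y η t v ∧ InSq x y η t' v ∧ par v = col := by
    intro X Y X' Y' h1 h2 h3
    rcases h1 with h1 | h1
    · exact ⟨(X, Y), h2.1, h2.2, h1⟩
    · exact ⟨(X', Y'), h3.1, h3.2, h1⟩
  obtain ⟨a, b⟩ := t
  obtain ⟨a', b'⟩ := t'
  simp only at h
  have hpar : ∀ X Y X' Y' : ℤ, (X' + Y' = X + Y + 1) → (par (X, Y) = col ∨ par (X', Y') = col) := by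
    intro X Y X' Y' h1
    unfold par
    simp only
    omega
  have e1 : η * (a + 1) = η * a + η := by ring
  have e2 : η * (b + 1) = η * b + η := by ring
  rcases h with ⟨rfl, h⟩ | ⟨rfl, h⟩
  · rcases (abs_eq (by norm_num : (0 : ℤ) ≤ 1)).1 h with h | h
    · -- `b = b' + 1`
      obtain rfl : b = b' + 1 := by omega
      have e3 : η * (b' + 1) = η * b' + η := by ring
      have e4 : η * (b' + 1 + 1) = η * b' + η + η := by ring
      refine key (x + η * a) (y + η * (b' + 1)) (x + η * a + 1) (y + η * (b' + 1))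
        (hpar _ _ _ _ (by ring)) ?_ ?_ <;> unfold InSq <;> simp only <;> omega
    · obtain rfl : b' = b + 1 := by omega
      have e3 : η * (b + 1 + 1) = η * b + η + η := by ring
      refine key (x + η * a) (y + η * (b + 1)) (x + η * a + 1) (y + η * (b + 1))
        (hpar _ _ _ _ (by ring)) ?_ ?_ <;> unfold InSq <;> simp only <;> omega
  · rcases (abs_eq (by norm_num : (0 : ℤ) ≤ 1)).1 h with h | h
    · obtain rfl : a = a' + 1 := by omega
      have e3 : η * (a' + 1) = η * a' + η := by ring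
      have e4 : η * (a' + 1 + 1) = η * a' + η + η := by ring
      refine key (x + η * (a' + 1)) (y + η * b) (x + η * (a' + 1)) (y + η * b + 1)
        (hpar _ _ _ _ (by ring)) ?_ ?_ <;> unfold InSq <;> simp only <;> omega
    · obtain rfl : a' = a + 1 := by omega
      have e3 : η * (a + 1 + 1) = η * a + η + η := by ring
      refine key (x + η * (a + 1)) (y + η * b) (x + η * (a + 1)) (y + η * b + 1)
        (hpar _ _ _ _ (by ring)) ?_ ?_ <;> unfold InSq <;> simp only <;> omega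

/-- The barrier: the squares of a chain to the lower side which are enclosed by a path of the other
parity from the lower side to the lower side are free. -/
theorem seen_of_squares {ω : Cfg} {col x y s η : ℤ} (hη : 1 ≤ η) (hcol : col = 0 ∨ col = 1)
    {T : Set (ℤ × ℤ)} (hT : ∀ t ∈ T, 0 ≤ t.1 ∧ η * (t.1 + 1) ≤ s ∧ 0 ≤ t.2 ∧ η * (t.2 + 1) ≤ s)
    {t t₀ : ℤ × ℤ} (ht : t ∈ T) (hch : Relation.ReflTransGen (NbT T) t t₀) (h0 : t₀.2 = 0)
    {a₁ a₂ : ℤ} (ha : x ≤ a₁) (ha1 : a₁ < x + η * t₀.1) (ha2 : x + η * (t₀.1 + 1) < a₂)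
    (hpar : par (a₁, y) ≠ col)
    (hD : Conn ω ((RF x (x + s) y (y + s) : Set (ℤ × ℤ)) \ SqF x y η T) (a₁, y) (a₂, y)) :
    FreeSq ω col x y s η t ∧ Relation.ReflTransGen (SqStep ω col x y s η) t t₀ := by
  classical
  set K := SqF x y η T with hK
  set ω' : Cfg := fun f => if f ∈ K then pb col f else ω f with hω'
  have hK1 : ∀ f ∈ K, ω' f = pb col f := fun f hf => by rw [hω']; simp only [if_pos hf]
  have hK2 : ∀ f, f ∉ K → ω' f = ω f := fun f hf => by rw [hω']; simp only [if_neg hf]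
  set F : Finset (ℤ × ℤ) := RF x (x + s) y (y + s) with hF
  -- faces of the squares
  have hsq : ∀ t ∈ T, ∀ f : ℤ × ℤ, x + η * t.1 ≤ f.1 → f.1 < x + η * t.1 + η →
      y + η * t.2 ≤ f.2 → f.2 < y + η * t.2 + η → f ∈ (F : Set (ℤ × ℤ)) ∧ ω' f = pb col f := by
    intro t ht f h1 h2 h3 h4
    obtain ⟨c1, c2, c3, c4⟩ := hT t ht
    have e1 : η * (t.1 + 1) = η * t.1 + η := by ring
    have e2 : η * (t.2 + 1) = η * t.2 + η := by ring
    have m1 : 0 ≤ η * t.1 := mul_nonneg (by omega) c1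
    have m2 : 0 ≤ η * t.2 := mul_nonneg (by omega) c3
    refine ⟨?_, hK1 f ⟨t, ht, h1, by omega, h3, by omega⟩⟩
    rw [Finset.mem_coe, hF, PlanarA.mem_RF]
    omega
  have hconn : ∀ t ∈ T, ∀ v v', InSq x y η t v → InSq x y η t v' → par v = col → par v' = col →
      Conn ω' F v v' := by
    intro t ht v v' hv hv' hp hp'
    unfold InSq at hv hv'
    have e1 : η * (t.1 + 1) = η * t.1 + η := by ring
    have e2 : η * (t.2 + 1) = η * t.2 + η := by ring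
    exact sq_conn hη (hsq t ht) (by omega) hp (by omega) hp'
  -- all vertices of the colour in the squares of a chain are connected
  have hall : ∀ t, Relation.ReflTransGen (NbT T) t t₀ → t ∈ T → ∀ v v', InSq x y η t v →
      InSq x y η t₀ v' → par v = col → par v' = col → Conn ω' F v v' := by
    intro t hch
    induction hch using Relation.ReflTransGen.head_induction_on with
    | refl => exact fun ht v v' hv hv' hp hp' => hconn _ ht v v' hv hv' hp hp'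
    | head hab _ ih =>
      intro ht v v' hv hv' hp hp'
      obtain ⟨hnb, hT1, hT2⟩ := hab
      obtain ⟨q, hq1, hq2, hq3⟩ := common_vertex (x := x) (y := y) hη hcol hnb
      exact (hconn _ hT1 v q hv hq1 hp hq3).trans (ih hT2 q v' hq2 hv' hq3 hp')
  have ht₀ : t₀ ∈ T := by
    rcases Relation.ReflTransGen.cases_tail hch with h | ⟨c, -, hc⟩
    · rw [h]; exact ht
    · exact hc.2.2
  -- a vertex of the colour on the lower side
  obtain ⟨b, hb1, hb2, hb3⟩ : ∃ b, x + η * t₀.1 ≤ b ∧ b ≤ x + η * (t₀.1 + 1) ∧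
      par (b, y) = col := by
    have e1 : η * (t₀.1 + 1) = η * t₀.1 + η := by ring
    by_cases h : par (x + η * t₀.1, y) = col
    · exact ⟨_, le_rfl, by omega, h⟩
    · refine ⟨x + η * t₀.1 + 1, by omega, by omega, ?_⟩
      unfold par at h ⊢
      simp only at h ⊢
      omega
  have hbsq : InSq x y η t₀ (b, y) := by
    unfold InSq
    rw [h0]
    simp only [mul_zero, add_zero, zero_add, mul_one]
    omega
  have hD' : Conn ω' F (a₁, y) (a₂, y) :=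
    (GridA.conn_congr _ (fun f hf => (hK2 f hf.2).symm) hD).mono Set.sdiff_subset
  have hfree : ∀ t, Relation.ReflTransGen (NbT T) t t₀ → t ∈ T → FreeSq ω col x y s η t := by
    intro t hch ht
    refine ⟨hT t ht, ?_⟩
    rintro p h1 h2 h3 h4 hp ⟨z, hz, hz2⟩
    have hc1 := hall t hch ht p (b, y) ⟨h1, h2, h3, h4⟩ hbsq hp hb3
    have hc2 : Conn ω' F p z := conn_add hK1 hK2 hp hz
    refine no_alt (ω := ω') (x₀ := x) (x₁ := x + s) (y₀ := y) (y₁ := y + s) (u := (a₁, y))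
      (w := (a₂, y)) (p := (b, y)) (z := z) ha rfl rfl (by simp only; omega) (by simp only; omega)
      rfl ?_ hD' (hc1.symm.trans hc2) hz2
    unfold par at hpar hb3
    simp only at hpar hb3 ⊢
    omega
  refine ⟨hfree t hch ht, ?_⟩
  have key : ∀ t, Relation.ReflTransGen (NbT T) t t₀ →
      Relation.ReflTransGen (SqStep ω col x y s η) t t₀ := by
    intro t hch
    induction hch using Relation.ReflTransGen.head_induction_on with
    | refl => exact Relation.ReflTransGen.refl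
    | head hab hbc ih =>
      refine Relation.ReflTransGen.head ⟨hab.1, ?_, ?_⟩ ih
      · exact hfree _ (Relation.ReflTransGen.head hab hbc) hab.2.1
      · exact hfree _ hbc hab.2.2
  exact key t hch

end Pool.Agent.Occ

end PartoccZBar
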