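import Pool.Agent.Lib.MP_6bd702_zc.Pre
import Pool.Agent.Lib.MP_6bd702_zc.Y040

section PartoccZGB

/-!
# Row ZG, the geometry of the gate: paths into the hole, the boundary of the hole
-/

set_option autoImplicit false

namespace Pool.Agent.Occ

open Finset Pool.Agent.Perc Pool.Agent.Perc3 Pool.Agent.PercD Pool.Agent.Perc6

namespace ZGAux

/-! ### Chains in rectangles -/

theorem row_chain {x₀ x₁ y₀ y₁ y : ℤ} (hy : y₀ ≤ y) (hy' : y < y₁) {a b : ℤ} (hab : a ≤ b)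
    (ha : x₀ ≤ a) (hb : b < x₁) : Relation.ReflTransGen
      (fun f g : ℤ × ℤ => Adj4 f g ∧ f ∈ RF x₀ x₁ y₀ y₁ ∧ g ∈ RF x₀ x₁ y₀ y₁) (a, y) (b, y) := by
  induction b, hab using Int.leInduction with
  | base => exact Relation.ReflTransGen.refl
  | succ b hb' ih =>
    refine (ih (by omega)).tail ⟨Or.inl ⟨rfl, Or.inl rfl⟩, ?_, ?_⟩ <;>
      (rw [mem_RF]; simp only; omega)

theorem col_chain {x₀ x₁ y₀ y₁ x : ℤ} (hx : x₀ ≤ x) (hx' : x < x₁) {a b : ℤ} (hab : a ≤ b)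
    (ha : y₀ ≤ a) (hb : b < y₁) : Relation.ReflTransGen
      (fun f g : ℤ × ℤ => Adj4 f g ∧ f ∈ RF x₀ x₁ y₀ y₁ ∧ g ∈ RF x₀ x₁ y₀ y₁) (x, a) (x, b) := by
  induction b, hab using Int.leInduction with
  | base => exact Relation.ReflTransGen.refl
  | succ b hb' ih =>
    refine (ih (by omega)).tail ⟨Or.inr ⟨rfl, Or.inl rfl⟩, ?_, ?_⟩ <;>
      (rw [mem_RF]; simp only; omega)

theorem sym_chain {x₀ x₁ y₀ y₁ : ℤ} {f g : ℤ × ℤ} (h : Relation.ReflTransGen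
      (fun f g : ℤ × ℤ => Adj4 f g ∧ f ∈ RF x₀ x₁ y₀ y₁ ∧ g ∈ RF x₀ x₁ y₀ y₁) f g) :
    Relation.ReflTransGen
      (fun f g : ℤ × ℤ => Adj4 f g ∧ f ∈ RF x₀ x₁ y₀ y₁ ∧ g ∈ RF x₀ x₁ y₀ y₁) g f := by
  induction h with
  | refl => exact Relation.ReflTransGen.refl
  | tail _ hs ih => exact Relation.ReflTransGen.head ⟨hs.1.symm, hs.2.2, hs.2.1⟩ ih

/-- A dual path between two faces of a rectangle. -/
theorem rect_list {x₀ x₁ y₀ y₁ : ℤ} {f g : ℤ × ℤ} (hf : f ∈ RF x₀ x₁ y₀ y₁)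
    (hg : g ∈ RF x₀ x₁ y₀ y₁) : ∃ l, IsCh l ∧ l.head? = some f ∧ l.getLast? = some g ∧
      ∀ k ∈ l, k ∈ RF x₀ x₁ y₀ y₁ := by
  refine exists_list (P := fun k => k ∈ RF x₀ x₁ y₀ y₁) hf ?_
  obtain ⟨a, b⟩ := f
  obtain ⟨c, d⟩ := g
  rw [mem_RF] at hf hg
  simp only at hf hg
  refine Relation.ReflTransGen.trans (b := (c, b)) ?_ ?_
  · rcases le_total a c with h | h
    · exact row_chain (by omega) (by omega) h (by omega) (by omega)
    · exact sym_chain (row_chain (by omega) (by omega) h (by omega) (by omega))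
  · rcases le_total b d with h | h
    · exact col_chain (by omega) (by omega) h (by omega) (by omega)
    · exact sym_chain (col_chain (by omega) (by omega) h (by omega) (by omega))

/-! ### The path into the hole -/

/-- The boundary unit edges of the hole. -/
theorem cycE_inj {R k k' : ℤ} (h0 : 0 ≤ k) (h1 : k < 8 * R) (h0' : 0 ≤ k') (h1' : k' < 8 * R)
    (h : Perc6.cycE 0 0 0 R k = Perc6.cycE 0 0 0 R k') : k = k' := by
  unfold Perc6.cycE at h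
  split_ifs at h <;> simp only [Prod.mk.injEq, Bool.true_eq_false, Bool.false_eq_true, and_true,
    and_false] at h <;> omega

theorem cycE_in {R k : ℤ} (hR : 0 < R) (h0 : 0 ≤ k) (h1 : k < 8 * R) :
    (∃ f ∈ BR (0, 0) R, IsSide f (Perc6.cycE 0 0 0 R k)) ∧
      ∃ f, f ∉ BR (0, 0) R ∧ IsSide f (Perc6.cycE 0 0 0 R k) := by
  unfold Perc6.cycE
  split_ifs with c1 c2 c3 c4
  · refine ⟨⟨(R - 1, k), ?_, Or.inr (Or.inr (Or.inr ?_))⟩, (R, k), ?_, Or.inr (Or.inl ?_)⟩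
    · rw [mem_BR]; simp only; omega
    · unfold ri; simp only [Prod.mk.injEq, and_true]; omega
    · rw [mem_BR]; simp only; omega
    · unfold le'; simp only [Prod.mk.injEq, and_true]; omega
  · refine ⟨⟨(2 * R - k - 1, R - 1), ?_, Or.inr (Or.inr (Or.inl ?_))⟩, (2 * R - k - 1, R), ?_,
      Or.inl ?_⟩
    · rw [mem_BR]; simp only; omega
    · unfold to'; simp only [Prod.mk.injEq, and_true]; omega
    · rw [mem_BR]; simp only; omega
    · unfold bo; simp only [Prod.mk.injEq, and_true]; omega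
  · refine ⟨⟨(-R, 4 * R - k - 1), ?_, Or.inr (Or.inl ?_)⟩, (-R - 1, 4 * R - k - 1), ?_,
      Or.inr (Or.inr (Or.inr ?_))⟩
    · rw [mem_BR]; simp only; omega
    · unfold le'; simp only [Prod.mk.injEq, and_true]; omega
    · rw [mem_BR]; simp only; omega
    · unfold ri; simp only [Prod.mk.injEq, and_true]; omega
  · refine ⟨⟨(k - 6 * R, -R), ?_, Or.inl ?_⟩, (k - 6 * R, -R - 1), ?_,
      Or.inr (Or.inr (Or.inl ?_))⟩
    · rw [mem_BR]; simp only; omega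
    · unfold bo; simp only [Prod.mk.injEq, and_true]; omega
    · rw [mem_BR]; simp only; omega
    · unfold to'; simp only [Prod.mk.injEq, and_true]; omega
  · refine ⟨⟨(R - 1, k - 8 * R), ?_, Or.inr (Or.inr (Or.inr ?_))⟩, (R, k - 8 * R), ?_,
      Or.inr (Or.inl ?_)⟩
    · rw [mem_BR]; simp only; omega
    · unfold ri; simp only [Prod.mk.injEq, and_true]; omega
    · rw [mem_BR]; simp only; omega
    · unfold le'; simp only [Prod.mk.injEq, and_true]; omega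

theorem cr_cases {f g : ℤ × ℤ} {R k : ℤ} (h0 : 0 ≤ k) (h1 : k < 8 * R)
    (h : (k < R ∧ f = (R, k) ∧ g = (R - 1, k)) ∨
      (R ≤ k ∧ k < 3 * R ∧ f = (2 * R - k - 1, R) ∧ g = (2 * R - k - 1, R - 1)) ∨
      (3 * R ≤ k ∧ k < 5 * R ∧ f = (-R - 1, 4 * R - k - 1) ∧ g = (-R, 4 * R - k - 1)) ∨
      (5 * R ≤ k ∧ k < 7 * R ∧ f = (k - 6 * R, -R - 1) ∧ g = (k - 6 * R, -R)) ∨
      (7 * R ≤ k ∧ f = (R, k - 8 * R) ∧ g = (R - 1, k - 8 * R))) :
    Adj4 f g ∧ cr f g = Perc6.cycE 0 0 0 R k := by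
  rcases h with ⟨h2, rfl, rfl⟩ | ⟨h2, h3, rfl, rfl⟩ | ⟨h2, h3, rfl, rfl⟩ | ⟨h2, h3, rfl, rfl⟩ |
    ⟨h2, rfl, rfl⟩
  · constructor
    · exact Or.inl ⟨rfl, Or.inr (by simp only; omega)⟩
    · unfold cr Perc6.cycE le' ri to' bo
      simp only
      split_ifs <;> first | omega | (simp only [Prod.mk.injEq, and_true]; omega)
  · constructor
    · exact Or.inr ⟨rfl, Or.inr (by simp only; omega)⟩
    · unfold cr Perc6.cycE le' ri to' bo
      simp only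
      split_ifs <;> first | omega | (simp only [Prod.mk.injEq, and_true]; omega)
  · constructor
    · exact Or.inl ⟨rfl, Or.inl (by simp only; omega)⟩
    · unfold cr Perc6.cycE le' ri to' bo
      simp only
      split_ifs <;> first | omega | (simp only [Prod.mk.injEq, and_true]; omega)
  · constructor
    · exact Or.inr ⟨rfl, Or.inl (by simp only; omega)⟩
    · unfold cr Perc6.cycE le' ri to' bo
      simp only
      split_ifs <;> first | omega | (simp only [Prod.mk.injEq, and_true]; omega)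
  · constructor
    · exact Or.inl ⟨rfl, Or.inr (by simp only; omega)⟩
    · unfold cr Perc6.cycE le' ri to' bo
      simp only
      split_ifs <;> first | omega | (simp only [Prod.mk.injEq, and_true]; omega)

/-- The path into the hole from a straight row. -/
theorem inL_of_row {g : Par} {S : Set (ℤ × ℤ)} {a f₀ g₀ : ℤ × ℤ} {k x₀ x₁ y₀ y₁ : ℤ}
    (hR : 1 < g.R) (h0 : 0 ≤ k) (h1 : k < 8 * g.R)
    (h : (k < g.R ∧ f₀ = (g.R, k) ∧ g₀ = (g.R - 1, k)) ∨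
      (g.R ≤ k ∧ k < 3 * g.R ∧ f₀ = (2 * g.R - k - 1, g.R) ∧ g₀ = (2 * g.R - k - 1, g.R - 1)) ∨
      (3 * g.R ≤ k ∧ k < 5 * g.R ∧ f₀ = (-g.R - 1, 4 * g.R - k - 1) ∧
        g₀ = (-g.R, 4 * g.R - k - 1)) ∨
      (5 * g.R ≤ k ∧ k < 7 * g.R ∧ f₀ = (k - 6 * g.R, -g.R - 1) ∧ g₀ = (k - 6 * g.R, -g.R)) ∨
      (7 * g.R ≤ k ∧ f₀ = (g.R, k - 8 * g.R) ∧ g₀ = (g.R - 1, k - 8 * g.R)))
    (ha : a ∈ RF x₀ x₁ y₀ y₁) (hf₀ : f₀ ∈ RF x₀ x₁ y₀ y₁)
    (hrow : ∀ f ∈ RF x₀ x₁ y₀ y₁, OutR g.R k f ∧ f ∈ BR (0, 0) (g.d + 2 * g.n + 4) ∧ f ∉ S)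
    (hH : ∀ f ∈ S, f ∉ BR (0, 0) g.R) : ∃ l, InL g S a k l := by
  obtain ⟨hadj, hcr⟩ := cr_cases h0 h1 h
  obtain ⟨l, hl1, hl2, hl3, hl4⟩ := rect_list ha hf₀
  have hg₀ : g₀ ∈ RF (-g.R) g.R (-g.R) g.R := by
    rw [mem_RF]
    rcases h with ⟨h2, -, rfl⟩ | ⟨h2, h3, -, rfl⟩ | ⟨h2, h3, -, rfl⟩ | ⟨h2, h3, -, rfl⟩ |
      ⟨h2, -, rfl⟩ <;> simp only <;> omega
  obtain ⟨l', hl1', hl2', hl3', hl4'⟩ := rect_list (g := (-1, 0)) hg₀ (by
    rw [mem_RF]; simp only; omega)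
  have hBR : ∀ f, f ∈ BR (0, 0) g.R ↔ f ∈ RF (-g.R) g.R (-g.R) g.R := by
    intro f
    rw [mem_BR, mem_RF]
    simp only
    omega
  have hout : ∀ f ∈ l, f ∉ BR (0, 0) g.R := by
    intro f hf hb
    have h2 := (hrow f (hl4 f hf)).1
    rw [mem_BR] at hb
    unfold OutR at h2
    simp only at hb
    omega
  have hne : l ≠ [] := by
    rintro rfl
    simp at hl2
  have hne' : l' ≠ [] := by
    rintro rfl
    simp at hl2'
  refine ⟨l ++ l', ⟨⟨h0, h1⟩, ?_, ?_, ?_, ?_, ?_, ?_⟩⟩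
  · refine IsCh.append hl1 hl1' ?_
    intro f f' e1 e2
    rw [hl3] at e1
    rw [hl2'] at e2
    simp only [Option.some.injEq] at e1 e2
    rw [← e1, ← e2]
    exact hadj
  · rw [List.head?_append_of_ne_nil _ hne]
    exact hl2
  · rw [List.getLast?_append_of_ne_nil _ hne']
    exact hl3'
  · intro f hf
    rcases List.mem_append.1 hf with hf | hf
    · exact (hrow f (hl4 f hf)).2.2
    · intro hS
      exact hH f hS ((hBR f).2 (hl4' f hf))
  · intro f hf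
    rcases List.mem_append.1 hf with hf | hf
    · exact Or.inr ⟨(hrow f (hl4 f hf)).1, (hrow f (hl4 f hf)).2.1⟩
    · exact Or.inl ((hBR f).2 (hl4' f hf))
  · intro k' h0' h1'
    rw [xp_append hl3 hl2', hcr]
    obtain ⟨⟨fi, hfi, hsi⟩, fo, hfo, hso⟩ := cycE_in (by omega) h0' h1'
    rw [xp_side hl1 hsi (fun hh => hout _ hh hfi), xp_side hl1' hso
      (fun hh => hfo ((hBR _).2 (hl4' _ hh))), zero_add, add_zero]
    refine ind2_congr ⟨fun e => cycE_inj h0' h1' h0 h1 e, fun e => by rw [e]⟩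



variable {g : Par} {ξ : Cfg} {s : Fin 4} {i : ℤ} {f : ℤ × ℤ}

/-! ### The boundary of the hole -/

theorem joins_cyc {R k : ℤ} (hR : 0 < R) (h0 : 0 ≤ k) (h1 : k < 8 * R) :
    Joins (cycE 0 0 0 R k) (cyc 0 0 0 R k) (cyc 0 0 0 R (k + 1)) := by
  unfold cycE cyc
  split_ifs <;> first | (exfalso; omega) | skip
  all_goals
    unfold Joins
    simp only [ua_mk, ub_false, ub_true, Prod.mk.injEq, true_and, and_true]
    omega

theorem step {Ψ : ℤ × ℤ → ZMod 2} {z : ZMod 2} {a : UE} {u v : ℤ × ℤ}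
    (h : Ψ (ub a) = Ψ (ua a) + z) (hj : Joins a u v) : Ψ v = Ψ u + z := by
  rcases hj with ⟨rfl, rfl⟩ | ⟨rfl, rfl⟩
  · exact h
  · rw [h, add_assoc]
    have : ∀ z : ZMod 2, z + z = 0 := by decide
    rw [this, add_zero]

theorem ind2_lt_succ {m k : ℤ} : ind2 (m < k + 1) = ind2 (m < k) + ind2 (k = m) := by
  rcases lt_trichotomy m k with h | h | h
  · rw [ind2_pos (show m < k + 1 by omega), ind2_pos h, ind2_neg (show ¬ k = m by omega), add_zero]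
  · rw [ind2_pos (show m < k + 1 by omega), ind2_neg (show ¬ m < k by omega),
      ind2_pos h.symm, zero_add]
  · rw [ind2_neg (show ¬ m < k + 1 by omega), ind2_neg (show ¬ m < k by omega),
      ind2_neg (show ¬ k = m by omega), zero_add]

/-- A function on the boundary of the hole which jumps at `m` and `m'`. -/
theorem jumps {Ψ : ℤ × ℤ → ZMod 2} {R m m' : ℤ} (hR : 0 < R)
    (h : ∀ k, 0 ≤ k → k < 8 * R → Ψ (ub (cycE 0 0 0 R k)) = Ψ (ua (cycE 0 0 0 R k)) +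
      (ind2 (k = m) + ind2 (k = m'))) (hm : 0 ≤ m) (hm' : 0 ≤ m') {k : ℤ} (h0 : 0 ≤ k)
    (h1 : k ≤ 8 * R) :
    Ψ (cyc 0 0 0 R k) = Ψ (cyc 0 0 0 R 0) + (ind2 (m < k) + ind2 (m' < k)) := by
  induction k, h0 using Int.leInduction with
  | base =>
    rw [ind2_neg (show ¬ m < 0 by omega), ind2_neg (show ¬ m' < 0 by omega), add_zero, add_zero]
  | succ k hk ih =>
    rw [step (h k hk (by omega)) (joins_cyc hR hk (by omega)), ih (by omega), ind2_lt_succ,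
      ind2_lt_succ]
    ring

end ZGAux

end Pool.Agent.Occ

end PartoccZGB

section PartoccZGE

/-!
# Row ZG, the geometry of the gate: the ends of the legs
-/

set_option autoImplicit false

namespace Pool.Agent.Occ

open Finset Pool.Agent.Perc Pool.Agent.Perc3 Pool.Agent.PercD Pool.Agent.Perc6

namespace ZGAux

variable {g : Par} {ξ : Cfg} {s : Fin 4} {i : ℤ} {f : ℤ × ℤ}

/-! ### The ends of the legs -/

/-- The vertex of the boundary of the hole on the side `s` at the position `y`. -/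
def vS (s : Fin 4) (R y : ℤ) : ℤ × ℤ := ![(R, y), (y, R), (-R, y), (y, -R)] s

theorem end_s {K : Finset (ℤ × ℤ)} {col j : ℤ} (ha : 1 ≤ g.Ai) (s : Fin 4)
    (hω : ξ ∈ TubeEv col 0 0 g.Ai K) (hk : ceS s (g.Ni - 1) j ∈ K) :
    ∃ y, g.Ai * j ≤ y ∧ y ≤ g.Ai * j + g.Ai ∧
      Spine ξ col 0 0 g.Ai (ceS s (g.Ni - 1) j) (vS s g.R y) := by
  have eR : g.R = g.Ai * (g.Ni - 1) := by unfold Par.R; ring
  have eN : g.Ai * (-(g.Ni - 1) - 1 + 1) = -g.R := by rw [eR]; ring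
  have eJ : g.Ai * (j + 1) = g.Ai * j + g.Ai := by ring
  fin_cases s
  · change (g.Ni - 1, j) ∈ K at hk
    change ∃ y, _ ∧ _ ∧ Spine ξ col 0 0 g.Ai (g.Ni - 1, j) (g.R, y)
    obtain ⟨u, v, hu, -, hs, -, -⟩ := exists_spine_LR ha hω hk
    simp only [zero_add, ← eR] at hu
    have h2 := hs.2.1
    simp only [zero_add, eJ] at h2
    have he : u = (g.R, u.2) := Prod.ext hu rfl
    exact ⟨u.2, h2.2.2.1, h2.2.2.2, by rw [← he]; exact hs⟩
  · change (j, g.Ni - 1) ∈ K at hk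
    change ∃ y, _ ∧ _ ∧ Spine ξ col 0 0 g.Ai (j, g.Ni - 1) (y, g.R)
    obtain ⟨u, v, hu, -, hs, -, -⟩ := exists_spine_BT ha hω hk
    simp only [zero_add, ← eR] at hu
    have h2 := hs.2.1
    simp only [zero_add, eJ] at h2
    have he : u = (u.1, g.R) := Prod.ext rfl hu
    exact ⟨u.1, h2.1, h2.2.1, by rw [← he]; exact hs⟩
  · change (-(g.Ni - 1) - 1, j) ∈ K at hk
    change ∃ y, _ ∧ _ ∧ Spine ξ col 0 0 g.Ai (-(g.Ni - 1) - 1, j) (-g.R, y)
    obtain ⟨u, v, -, hv, -, hs, -⟩ := exists_spine_LR ha hω hk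
    simp only [zero_add, eN] at hv
    have h2 := hs.2.1
    simp only [zero_add, eJ] at h2
    have he : v = (-g.R, v.2) := Prod.ext hv rfl
    exact ⟨v.2, h2.2.2.1, h2.2.2.2, by rw [← he]; exact hs⟩
  · change (j, -(g.Ni - 1) - 1) ∈ K at hk
    change ∃ y, _ ∧ _ ∧ Spine ξ col 0 0 g.Ai (j, -(g.Ni - 1) - 1) (y, -g.R)
    obtain ⟨u, v, -, hv, -, hs, -⟩ := exists_spine_BT ha hω hk
    simp only [zero_add, eN] at hv
    have h2 := hs.2.1
    simp only [zero_add, eJ] at h2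
    have he : v = (v.1, -g.R) := Prod.ext rfl hv
    exact ⟨v.1, h2.1, h2.2.1, by rw [← he]; exact hs⟩

/-! ### Connection of the cells -/

theorem cconn_symm {K : Finset (ℤ × ℤ)} {k k' : ℤ × ℤ} (h : CConn K k k') : CConn K k' k := by
  unfold CConn at h ⊢
  induction h with
  | refl => exact Relation.ReflTransGen.refl
  | tail _ hs ih =>
    refine Relation.ReflTransGen.head ⟨hs.2.1, hs.1, ?_⟩ ih
    rcases hs.2.2 with ⟨h1, h2⟩ | ⟨h1, h2⟩
    · exact Or.inl ⟨h1.symm, by rw [abs_sub_comm]; exact h2⟩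
    · exact Or.inr ⟨h1.symm, by rw [abs_sub_comm]; exact h2⟩

theorem seg_V {K : Finset (ℤ × ℤ)} {x a b : ℤ} (hab : a ≤ b)
    (h : ∀ j, a ≤ j → j ≤ b → (x, j) ∈ K) : CConn K (x, a) (x, b) := by
  induction b, hab using Int.leInduction with
  | base => exact Relation.ReflTransGen.refl
  | succ b hb ih =>
    refine (ih fun j h1 h2 => h j h1 (by omega)).tail ⟨h b hb (by omega), h _ (by omega) le_rfl,
      Or.inl ⟨rfl, ?_⟩⟩
    simp only
    rw [show b - (b + 1) = -1 by ring]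
    norm_num

theorem seg_H {K : Finset (ℤ × ℤ)} {y a b : ℤ} (hab : a ≤ b)
    (h : ∀ j, a ≤ j → j ≤ b → (j, y) ∈ K) : CConn K (a, y) (b, y) := by
  induction b, hab using Int.leInduction with
  | base => exact Relation.ReflTransGen.refl
  | succ b hb ih =>
    refine (ih fun j h1 h2 => h j h1 (by omega)).tail ⟨h b hb (by omega), h _ (by omega) le_rfl,
      Or.inr ⟨rfl, ?_⟩⟩
    simp only
    rw [show b - (b + 1) = -1 by ring]
    norm_num

theorem conn_cells (hN : 100 ≤ g.Ni) (hi : GateOk g i) (s : Fin 4) :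
    CConn (RD g s i) (ceS s (g.Ni - 1) (i - 1)) (ceS s (g.Ni - 1) (i + 1)) ∧
      ceS s (g.Ni - 1) (i - 1) ∈ RD g s i ∧ ceS s (g.Ni - 1) (i + 1) ∈ RD g s i := by
  obtain ⟨i1, i2⟩ := hi
  refine ⟨?_, mem_RD.2 (Or.inr (Or.inr (Or.inl rfl))),
    mem_RD.2 (Or.inr (Or.inr (Or.inr (Or.inr rfl))))⟩
  generalize hN' : g.Ni = N at *
  fin_cases s
  · change CConn (RD g 0 i) (N - 1, i - 1) (N - 1, i + 1)
    have hm : ∀ x y, (((-(N + 1) - 1 ≤ x ∧ x ≤ N + 1 ∧ -(N + 1) - 1 ≤ y ∧ y ≤ N + 1) ∧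
        (x = N + 1 ∨ x = -(N + 1) - 1 ∨ y = N + 1 ∨ y = -(N + 1) - 1)) ∧ ¬ (x = N + 1 ∧ y = i)) ∨
        ((x = N ∨ x = N - 1) ∧ (y = i - 1 ∨ y = i + 1)) → (x, y) ∈ RD g 0 i := by
      intro x y h
      rw [mem_RD, mem_lay, hN']
      change ((x, y) ≠ (N + 1, i) ∧ _) ∨ (x, y) = (N, i - 1) ∨ (x, y) = (N - 1, i - 1) ∨
        (x, y) = (N, i + 1) ∨ (x, y) = (N - 1, i + 1)
      simp only [ne_eq, Prod.mk.injEq]
      omega
    have c1 : CConn (RD g 0 i) (N - 1, i - 1) (N + 1, i - 1) :=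
      seg_H (by omega) fun j _ _ => hm _ _ (by omega)
    have c2 : CConn (RD g 0 i) (N + 1, -(N + 1) - 1) (N + 1, i - 1) :=
      seg_V (by omega) fun j _ _ => hm _ _ (by omega)
    have c3 : CConn (RD g 0 i) (-(N + 1) - 1, -(N + 1) - 1) (N + 1, -(N + 1) - 1) :=
      seg_H (by omega) fun j _ _ => hm _ _ (by omega)
    have c4 : CConn (RD g 0 i) (-(N + 1) - 1, -(N + 1) - 1) (-(N + 1) - 1, N + 1) :=
      seg_V (by omega) fun j _ _ => hm _ _ (by omega)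
    have c5 : CConn (RD g 0 i) (-(N + 1) - 1, N + 1) (N + 1, N + 1) :=
      seg_H (by omega) fun j _ _ => hm _ _ (by omega)
    have c6 : CConn (RD g 0 i) (N + 1, i + 1) (N + 1, N + 1) :=
      seg_V (by omega) fun j _ _ => hm _ _ (by omega)
    have c7 : CConn (RD g 0 i) (N - 1, i + 1) (N + 1, i + 1) :=
      seg_H (by omega) fun j _ _ => hm _ _ (by omega)
    exact c1.trans ((cconn_symm c2).trans ((cconn_symm c3).trans (c4.trans (c5.trans
      ((cconn_symm c6).trans (cconn_symm c7))))))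
  · change CConn (RD g 1 i) (i - 1, N - 1) (i + 1, N - 1)
    have hm : ∀ x y, (((-(N + 1) - 1 ≤ x ∧ x ≤ N + 1 ∧ -(N + 1) - 1 ≤ y ∧ y ≤ N + 1) ∧
        (x = N + 1 ∨ x = -(N + 1) - 1 ∨ y = N + 1 ∨ y = -(N + 1) - 1)) ∧ ¬ (x = i ∧ y = N + 1)) ∨
        ((y = N ∨ y = N - 1) ∧ (x = i - 1 ∨ x = i + 1)) → (x, y) ∈ RD g 1 i := by
      intro x y h
      rw [mem_RD, mem_lay, hN']
      change ((x, y) ≠ (i, N + 1) ∧ _) ∨ (x, y) = (i - 1, N) ∨ (x, y) = (i - 1, N - 1) ∨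
        (x, y) = (i + 1, N) ∨ (x, y) = (i + 1, N - 1)
      simp only [ne_eq, Prod.mk.injEq]
      omega
    have c1 : CConn (RD g 1 i) (i - 1, N - 1) (i - 1, N + 1) :=
      seg_V (by omega) fun j _ _ => hm _ _ (by omega)
    have c2 : CConn (RD g 1 i) (-(N + 1) - 1, N + 1) (i - 1, N + 1) :=
      seg_H (by omega) fun j _ _ => hm _ _ (by omega)
    have c3 : CConn (RD g 1 i) (-(N + 1) - 1, -(N + 1) - 1) (-(N + 1) - 1, N + 1) :=
      seg_V (by omega) fun j _ _ => hm _ _ (by omega)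
    have c4 : CConn (RD g 1 i) (-(N + 1) - 1, -(N + 1) - 1) (N + 1, -(N + 1) - 1) :=
      seg_H (by omega) fun j _ _ => hm _ _ (by omega)
    have c5 : CConn (RD g 1 i) (N + 1, -(N + 1) - 1) (N + 1, N + 1) :=
      seg_V (by omega) fun j _ _ => hm _ _ (by omega)
    have c6 : CConn (RD g 1 i) (i + 1, N + 1) (N + 1, N + 1) :=
      seg_H (by omega) fun j _ _ => hm _ _ (by omega)
    have c7 : CConn (RD g 1 i) (i + 1, N - 1) (i + 1, N + 1) :=
      seg_V (by omega) fun j _ _ => hm _ _ (by omega)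
    exact c1.trans ((cconn_symm c2).trans ((cconn_symm c3).trans (c4.trans (c5.trans
      ((cconn_symm c6).trans (cconn_symm c7))))))
  · change CConn (RD g 2 i) (-(N - 1) - 1, i - 1) (-(N - 1) - 1, i + 1)
    have hm : ∀ x y, (((-(N + 1) - 1 ≤ x ∧ x ≤ N + 1 ∧ -(N + 1) - 1 ≤ y ∧ y ≤ N + 1) ∧
        (x = N + 1 ∨ x = -(N + 1) - 1 ∨ y = N + 1 ∨ y = -(N + 1) - 1)) ∧
          ¬ (x = -(N + 1) - 1 ∧ y = i)) ∨
        ((x = -N - 1 ∨ x = -(N - 1) - 1) ∧ (y = i - 1 ∨ y = i + 1)) → (x, y) ∈ RD g 2 i := by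
      intro x y h
      rw [mem_RD, mem_lay, hN']
      change ((x, y) ≠ (-(N + 1) - 1, i) ∧ _) ∨ (x, y) = (-N - 1, i - 1) ∨
        (x, y) = (-(N - 1) - 1, i - 1) ∨ (x, y) = (-N - 1, i + 1) ∨ (x, y) = (-(N - 1) - 1, i + 1)
      simp only [ne_eq, Prod.mk.injEq]
      omega
    have c1 : CConn (RD g 2 i) (-(N + 1) - 1, i - 1) (-(N - 1) - 1, i - 1) :=
      seg_H (by omega) fun j _ _ => hm _ _ (by omega)
    have c2 : CConn (RD g 2 i) (-(N + 1) - 1, -(N + 1) - 1) (-(N + 1) - 1, i - 1) :=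
      seg_V (by omega) fun j _ _ => hm _ _ (by omega)
    have c3 : CConn (RD g 2 i) (-(N + 1) - 1, -(N + 1) - 1) (N + 1, -(N + 1) - 1) :=
      seg_H (by omega) fun j _ _ => hm _ _ (by omega)
    have c4 : CConn (RD g 2 i) (N + 1, -(N + 1) - 1) (N + 1, N + 1) :=
      seg_V (by omega) fun j _ _ => hm _ _ (by omega)
    have c5 : CConn (RD g 2 i) (-(N + 1) - 1, N + 1) (N + 1, N + 1) :=
      seg_H (by omega) fun j _ _ => hm _ _ (by omega)
    have c6 : CConn (RD g 2 i) (-(N + 1) - 1, i + 1) (-(N + 1) - 1, N + 1) :=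
      seg_V (by omega) fun j _ _ => hm _ _ (by omega)
    have c7 : CConn (RD g 2 i) (-(N + 1) - 1, i + 1) (-(N - 1) - 1, i + 1) :=
      seg_H (by omega) fun j _ _ => hm _ _ (by omega)
    exact (cconn_symm c1).trans ((cconn_symm c2).trans (c3.trans (c4.trans ((cconn_symm c5).trans
      ((cconn_symm c6).trans c7)))))
  · change CConn (RD g 3 i) (i - 1, -(N - 1) - 1) (i + 1, -(N - 1) - 1)
    have hm : ∀ x y, (((-(N + 1) - 1 ≤ x ∧ x ≤ N + 1 ∧ -(N + 1) - 1 ≤ y ∧ y ≤ N + 1) ∧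
        (x = N + 1 ∨ x = -(N + 1) - 1 ∨ y = N + 1 ∨ y = -(N + 1) - 1)) ∧
          ¬ (x = i ∧ y = -(N + 1) - 1)) ∨
        ((y = -N - 1 ∨ y = -(N - 1) - 1) ∧ (x = i - 1 ∨ x = i + 1)) → (x, y) ∈ RD g 3 i := by
      intro x y h
      rw [mem_RD, mem_lay, hN']
      change ((x, y) ≠ (i, -(N + 1) - 1) ∧ _) ∨ (x, y) = (i - 1, -N - 1) ∨
        (x, y) = (i - 1, -(N - 1) - 1) ∨ (x, y) = (i + 1, -N - 1) ∨ (x, y) = (i + 1, -(N - 1) - 1)
      simp only [ne_eq, Prod.mk.injEq]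
      omega
    have c1 : CConn (RD g 3 i) (i - 1, -(N + 1) - 1) (i - 1, -(N - 1) - 1) :=
      seg_V (by omega) fun j _ _ => hm _ _ (by omega)
    have c2 : CConn (RD g 3 i) (-(N + 1) - 1, -(N + 1) - 1) (i - 1, -(N + 1) - 1) :=
      seg_H (by omega) fun j _ _ => hm _ _ (by omega)
    have c3 : CConn (RD g 3 i) (-(N + 1) - 1, -(N + 1) - 1) (-(N + 1) - 1, N + 1) :=
      seg_V (by omega) fun j _ _ => hm _ _ (by omega)
    have c4 : CConn (RD g 3 i) (-(N + 1) - 1, N + 1) (N + 1, N + 1) :=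
      seg_H (by omega) fun j _ _ => hm _ _ (by omega)
    have c5 : CConn (RD g 3 i) (N + 1, -(N + 1) - 1) (N + 1, N + 1) :=
      seg_V (by omega) fun j _ _ => hm _ _ (by omega)
    have c6 : CConn (RD g 3 i) (i + 1, -(N + 1) - 1) (N + 1, -(N + 1) - 1) :=
      seg_H (by omega) fun j _ _ => hm _ _ (by omega)
    have c7 : CConn (RD g 3 i) (i + 1, -(N + 1) - 1) (i + 1, -(N - 1) - 1) :=
      seg_V (by omega) fun j _ _ => hm _ _ (by omega)
    exact (cconn_symm c1).trans ((cconn_symm c2).trans (c3.trans (c4.trans ((cconn_symm c5).trans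
      ((cconn_symm c6).trans c7)))))

/-- The two ends of the ring. -/
theorem ends (hg : g.Ok) (hi : GateOk g i) {col : ℤ} (hω : ξ ∈ TubeEv col 0 0 g.Ai (RD g s i)) :
    ∃ y y', g.Ai * i - g.Ai ≤ y ∧ y ≤ g.Ai * i ∧ g.Ai * i + g.Ai ≤ y' ∧
      y' ≤ g.Ai * i + 2 * g.Ai ∧ ((vS s g.R y).1 + (vS s g.R y).2 - col) % 2 = 0 ∧
      Conn ξ (FR g s i) (vS s g.R y) (vS s g.R y') := by
  obtain ⟨f1, f2, f3, f4, f5, f6, f7, -⟩ := ZCAux.lin hg
  have ha : 1 ≤ g.Ai := by omega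
  obtain ⟨h1, h2, h3⟩ := conn_cells hg.Ni1 hi s
  obtain ⟨y, y1, y2, hy⟩ := end_s ha s hω h2
  obtain ⟨y', y1', y2', hy'⟩ := end_s ha s hω h3
  have e1 : g.Ai * (i - 1) = g.Ai * i - g.Ai := by ring
  have e2 : g.Ai * (i + 1) = g.Ai * i + g.Ai := by ring
  rw [e1] at y1 y2
  rw [e2] at y1' y2'
  exact ⟨y, y', y1, by omega, y1', by omega, hy.1, tube_conn ha hω h1 h2 hy hy'⟩

end ZGAux

end Pool.Agent.Occ

end PartoccZGE
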