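import Pool.Agent.Lib.MP_6bd702_zc.Pre
import Pool.Agent.Lib.MP_6bd702_zc.Y040

/-!
# Row ZG, the geometry of the gate: the faces of the ring
-/

set_option autoImplicit false

namespace Pool.Agent.Occ

open Finset Pool.Agent.Perc Pool.Agent.Perc3 Pool.Agent.PercD Pool.Agent.Perc6

namespace ZGAux

variable {g : Par} {ξ : Cfg} {s : Fin 4} {i : ℤ} {f : ℤ × ℤ}

/-- The faces of the ring in coordinates. -/
theorem mem_FR_lin (hg : g.Ok) (hi : GateOk g i) (hf : f ∈ FR g s i) :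
    f ∈ BR (0, 0) (g.R + 3 * g.Ai) ∧
    ((f ∉ BR (0, 0) (g.R + 2 * g.Ai) ∧ ¬ (g.R + 2 * g.Ai ≤ rad s f ∧ g.Ai * i ≤ pos s f ∧
      pos s f < g.Ai * i + g.Ai)) ∨
    (g.R ≤ rad s f ∧ rad s f < g.R + 2 * g.Ai ∧
      ((g.Ai * i - g.Ai ≤ pos s f ∧ pos s f < g.Ai * i) ∨
        (g.Ai * i + g.Ai ≤ pos s f ∧ pos s f < g.Ai * i + 2 * g.Ai)))) := by
  obtain ⟨f1, f2, f3, f4, f5, f6, f7, -⟩ := ZCAux.lin hg
  have ha : 0 < g.Ai := by omega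
  unfold FR Perc6.cellsF at hf
  obtain ⟨c, hc, hfc⟩ := mem_biUnion.1 hf
  have eR : g.R = g.Ai * (g.Ni - 1) := by unfold Par.R; ring
  have eI1 : g.Ai * (i - 1) = g.Ai * i - g.Ai := by ring
  have eI2 : g.Ai * (i + 1) = g.Ai * i + g.Ai := by ring
  have eN0 : g.Ai * g.Ni = g.R + g.Ai := by rw [eR]; ring
  have eN1 : g.Ai * (g.Ni + 1) = g.R + 2 * g.Ai := by rw [eR]; ring
  have eN2 : g.Ai * (-g.Ni - 1) = -(g.R + 2 * g.Ai) := by rw [eR]; ring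
  have eN3 : g.Ai * (-(g.Ni - 1) - 1) = -(g.R + g.Ai) := by rw [eR]; ring
  have eN4 : g.Ai * (-(g.Ni + 1) - 1) = -(g.R + 3 * g.Ai) := by rw [eR]; ring
  have b1 : g.Ai * (-(g.Ni - 1) + 2) ≤ g.Ai * i := mul_le ha hi.1
  have b2 : g.Ai * i ≤ g.Ai * (g.Ni - 2 - 2) := mul_le ha hi.2
  have b1' : g.Ai * (-(g.Ni - 1) + 2) = -g.R + 2 * g.Ai := by rw [eR]; ring
  have b2' : g.Ai * (g.Ni - 2 - 2) = g.R - 3 * g.Ai := by rw [eR]; ring
  rw [b1'] at b1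
  rw [b2'] at b2
  rw [mem_RD] at hc
  rcases hc with ⟨hc, hl⟩ | hc
  · have h1 := lay_box ha (R := g.R + 2 * g.Ai) (by rw [eN1]) hl hfc
    rw [show g.R + 2 * g.Ai + g.Ai = g.R + 3 * g.Ai by ring] at h1
    refine ⟨h1.1, Or.inl ⟨h1.2, ?_⟩⟩
    rintro ⟨h2, h3, h4⟩
    rw [mem_cellF] at hfc
    rw [mem_lay] at hl
    apply hc
    obtain ⟨c1, c2⟩ := c
    simp only at hfc hl
    obtain ⟨q1, q2, q3, q4⟩ := hfc
    have l1 : ∀ {c x : ℤ}, g.Ai * c ≤ x → x < g.Ai * c + g.Ai → g.Ai * i ≤ x →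
        x < g.Ai * i + g.Ai → c = i := by
      intro c x g1 g2 g3 g4
      have k1 : c < i + 1 := cell_lt ha g1 (by rw [eI2]; exact g4)
      have k2 : i < c + 1 := cell_lt ha g3 (by rw [mul_add, mul_one]; exact g2)
      omega
    have l2 : ∀ {c x : ℤ}, x < g.Ai * c + g.Ai → g.R + 2 * g.Ai ≤ x → g.Ni + 1 ≤ c := by
      intro c x g1 g2
      have k1 : g.Ni + 1 < c + 1 := cell_lt (x := x) ha (by rw [eN1]; exact g2)
        (by rw [mul_add, mul_one]; exact g1)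
      omega
    have l3 : ∀ {c x : ℤ}, g.Ai * c ≤ x → g.R + 2 * g.Ai ≤ -1 - x → c ≤ -(g.Ni + 1) - 1 := by
      intro c x g1 g2
      have k1 : c < -g.Ni - 1 := cell_lt ha g1 (by rw [eN2]; omega)
      omega
    obtain ⟨⟨r1, r2, r3, r4⟩, -⟩ := hl
    fin_cases s
    · change g.R + 2 * g.Ai ≤ f.1 at h2
      change g.Ai * i ≤ f.2 at h3
      change f.2 < g.Ai * i + g.Ai at h4
      change (c1, c2) = (g.Ni + 1, i)
      rw [Prod.mk.injEq]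
      have := l2 q2 h2
      exact ⟨by omega, l1 q3 q4 h3 h4⟩
    · change g.R + 2 * g.Ai ≤ f.2 at h2
      change g.Ai * i ≤ f.1 at h3
      change f.1 < g.Ai * i + g.Ai at h4
      change (c1, c2) = (i, g.Ni + 1)
      rw [Prod.mk.injEq]
      have := l2 q4 h2
      exact ⟨l1 q1 q2 h3 h4, by omega⟩
    · change g.R + 2 * g.Ai ≤ -1 - f.1 at h2
      change g.Ai * i ≤ f.2 at h3
      change f.2 < g.Ai * i + g.Ai at h4
      change (c1, c2) = (-(g.Ni + 1) - 1, i)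
      rw [Prod.mk.injEq]
      have := l3 q1 h2
      exact ⟨by omega, l1 q3 q4 h3 h4⟩
    · change g.R + 2 * g.Ai ≤ -1 - f.2 at h2
      change g.Ai * i ≤ f.1 at h3
      change f.1 < g.Ai * i + g.Ai at h4
      change (c1, c2) = (i, -(g.Ni + 1) - 1)
      rw [Prod.mk.injEq]
      have := l3 q3 h2
      exact ⟨l1 q1 q2 h3 h4, by omega⟩
  · rw [mem_cellF] at hfc
    rw [mem_BR]
    simp only
    fin_cases s
    · change c = (g.Ni, i - 1) ∨ c = (g.Ni - 1, i - 1) ∨ c = (g.Ni, i + 1) ∨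
        c = (g.Ni - 1, i + 1) at hc
      change _ ∧ (_ ∨ (g.R ≤ f.1 ∧ f.1 < g.R + 2 * g.Ai ∧
        ((g.Ai * i - g.Ai ≤ f.2 ∧ f.2 < g.Ai * i) ∨
        (g.Ai * i + g.Ai ≤ f.2 ∧ f.2 < g.Ai * i + 2 * g.Ai))))
      rcases hc with rfl | rfl | rfl | rfl <;>
        simp only [eI1, eI2, eN0, ← eR] at hfc <;>
        refine ⟨by omega, Or.inr (by omega)⟩
    · change c = (i - 1, g.Ni) ∨ c = (i - 1, g.Ni - 1) ∨ c = (i + 1, g.Ni) ∨
        c = (i + 1, g.Ni - 1) at hc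
      change _ ∧ (_ ∨ (g.R ≤ f.2 ∧ f.2 < g.R + 2 * g.Ai ∧
        ((g.Ai * i - g.Ai ≤ f.1 ∧ f.1 < g.Ai * i) ∨
        (g.Ai * i + g.Ai ≤ f.1 ∧ f.1 < g.Ai * i + 2 * g.Ai))))
      rcases hc with rfl | rfl | rfl | rfl <;>
        simp only [eI1, eI2, eN0, ← eR] at hfc <;>
        refine ⟨by omega, Or.inr (by omega)⟩
    · change c = (-g.Ni - 1, i - 1) ∨ c = (-(g.Ni - 1) - 1, i - 1) ∨ c = (-g.Ni - 1, i + 1) ∨
        c = (-(g.Ni - 1) - 1, i + 1) at hc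
      change _ ∧ (_ ∨ (g.R ≤ -1 - f.1 ∧ -1 - f.1 < g.R + 2 * g.Ai ∧
        ((g.Ai * i - g.Ai ≤ f.2 ∧ f.2 < g.Ai * i) ∨
        (g.Ai * i + g.Ai ≤ f.2 ∧ f.2 < g.Ai * i + 2 * g.Ai))))
      rcases hc with rfl | rfl | rfl | rfl <;>
        simp only [eI1, eI2, eN2, eN3] at hfc <;>
        refine ⟨by omega, Or.inr (by omega)⟩
    · change c = (i - 1, -g.Ni - 1) ∨ c = (i - 1, -(g.Ni - 1) - 1) ∨ c = (i + 1, -g.Ni - 1) ∨
        c = (i + 1, -(g.Ni - 1) - 1) at hc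
      change _ ∧ (_ ∨ (g.R ≤ -1 - f.2 ∧ -1 - f.2 < g.R + 2 * g.Ai ∧
        ((g.Ai * i - g.Ai ≤ f.1 ∧ f.1 < g.Ai * i) ∨
        (g.Ai * i + g.Ai ≤ f.1 ∧ f.1 < g.Ai * i + 2 * g.Ai))))
      rcases hc with rfl | rfl | rfl | rfl <;>
        simp only [eI1, eI2, eN2, eN3] at hfc <;>
        refine ⟨by omega, Or.inr (by omega)⟩

end ZGAux

end Pool.Agent.Occ
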