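import Pool.Agent.Lib.MP_6bd702_zc.Pre
import Pool.Agent.Lib.MP_6bd702_zc.Y041
import Pool.Agent.Lib.MP_6bd702_zc.Y043
import Pool.Agent.Lib.MP_6bd702_zc.Y044

section PartoccZGG

/-!
# Row ZG, the geometry of the gate: the gate
-/

set_option autoImplicit false

namespace Pool.Agent.Occ

open Finset Pool.Agent.Perc Pool.Agent.Perc3 Pool.Agent.PercD Pool.Agent.Perc6

namespace ZGAux

variable {g : Par} {ξ : Cfg} {s : Fin 4} {i : ℤ} {f : ℤ × ℤ}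

/-! ### The gate -/

/-- The gate at the positions `[κ, κ + 3 Ai]` of the boundary of the hole. -/
structure GD (g : Par) (s : Fin 4) (i κ : ℤ) : Prop where
  ok : GateOk g i
  r0 : 0 ≤ κ
  r1 : κ + 3 * g.Ai ≤ 8 * g.R
  out : ∀ f ∈ FR g s i, f ∈ BR (0, 0) (g.R + 3 * g.Ai) ∧ f ∉ BR (0, 0) g.R ∧
    ¬ OutR g.R (κ + g.Ai) f ∧ (f ∈ BR (0, 0) (g.d + g.Ai) → ∀ k, OutR g.R k f →
      κ ≤ k ∧ k < κ + 3 * g.Ai)
  ends : ∀ ξ col, ξ ∈ TubeEv col 0 0 g.Ai (RD g s i) → ∃ k k', κ ≤ k ∧ k ≤ κ + g.Ai ∧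
    κ + 2 * g.Ai ≤ k' ∧ k' ≤ κ + 3 * g.Ai ∧
    ((cyc 0 0 0 g.R k).1 + (cyc 0 0 0 g.R k).2 - col) % 2 = 0 ∧
    Conn ξ (FR g s i) (cyc 0 0 0 g.R k) (cyc 0 0 0 g.R k')
  gate : ∃ a L, InL { g with n := g.Ai } ∅ a (κ + g.Ai) L ∧ a ∉ BR (0, 0) (g.R + 3 * g.Ai)

theorem csymm {η : Cfg} {F₁ : Set (ℤ × ℤ)} {p q : ℤ × ℤ} (hc : Conn η F₁ p q) :
    Conn η F₁ q p := by
  induction hc with
  | refl => exact Relation.ReflTransGen.refl
  | tail _ hb ih => exact Relation.ReflTransGen.head hb.symm' ih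

theorem gd_of (hg : g.Ok) {κ : ℤ} (hi : GateOk g i)
    (h : (s = 0 ∧ g.Ai * i = κ + g.Ai ∧ g.Ai ≤ κ ∧ κ + 4 * g.Ai ≤ g.R) ∨
      (s = 1 ∧ g.Ai * i = 2 * g.R - κ - 2 * g.Ai ∧ g.R + g.Ai ≤ κ ∧ κ + 4 * g.Ai ≤ 3 * g.R) ∨
      (s = 2 ∧ g.Ai * i = 4 * g.R - κ - 2 * g.Ai ∧ 3 * g.R + g.Ai ≤ κ ∧
        κ + 4 * g.Ai ≤ 5 * g.R) ∨
      (s = 3 ∧ g.Ai * i = κ + g.Ai - 6 * g.R ∧ 5 * g.R + g.Ai ≤ κ ∧ κ + 4 * g.Ai ≤ 7 * g.R) ∨
      (s = 0 ∧ g.Ai * i = κ + g.Ai - 8 * g.R ∧ 7 * g.R + g.Ai ≤ κ ∧ κ + 4 * g.Ai ≤ 8 * g.R)) :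
    GD g s i κ := by
  obtain ⟨f1, f2, f3, f4, f5, f6, f7, -⟩ := ZCAux.lin hg
  have gn : ({ g with n := g.Ai } : Par).R = g.R := rfl
  have gd : ({ g with n := g.Ai } : Par).d = g.d := rfl
  refine ⟨hi, ?_, ?_, ?_, ?_, ?_⟩
  · rcases h with h | h | h | h | h <;> omega
  · rcases h with h | h | h | h | h <;> omega
  · intro f hf
    obtain ⟨h1, h2⟩ := mem_FR_lin hg hi hf
    rw [mem_BR, mem_BR] at *
    rw [mem_BR]
    unfold OutR
    simp only at h1 h2 ⊢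
    rcases h with ⟨rfl, h3, h4, h5⟩ | ⟨rfl, h3, h4, h5⟩ | ⟨rfl, h3, h4, h5⟩ | ⟨rfl, h3, h4, h5⟩ |
      ⟨rfl, h3, h4, h5⟩
    · change (_ ∧ ¬ (g.R + 2 * g.Ai ≤ f.1 ∧ g.Ai * i ≤ f.2 ∧ f.2 < g.Ai * i + g.Ai)) ∨
        (g.R ≤ f.1 ∧ f.1 < g.R + 2 * g.Ai ∧ ((g.Ai * i - g.Ai ≤ f.2 ∧ f.2 < g.Ai * i) ∨
        (g.Ai * i + g.Ai ≤ f.2 ∧ f.2 < g.Ai * i + 2 * g.Ai))) at h2
      refine ⟨h1, by omega, fun h9 => ?_, fun h6 k h7 => ?_⟩
      · rcases h2 with ⟨h2', h2⟩ | h2 <;> rcases h9 with h9 | h9 | h9 | h9 | h9 <;> omega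
      · have h8 := h2.resolve_left fun h => h.1 (by omega)
        clear h2
        rcases h7 with h7 | h7 | h7 | h7 | h7 <;> omega
    · change (_ ∧ ¬ (g.R + 2 * g.Ai ≤ f.2 ∧ g.Ai * i ≤ f.1 ∧ f.1 < g.Ai * i + g.Ai)) ∨
        (g.R ≤ f.2 ∧ f.2 < g.R + 2 * g.Ai ∧ ((g.Ai * i - g.Ai ≤ f.1 ∧ f.1 < g.Ai * i) ∨
        (g.Ai * i + g.Ai ≤ f.1 ∧ f.1 < g.Ai * i + 2 * g.Ai))) at h2
      refine ⟨h1, by omega, fun h9 => ?_, fun h6 k h7 => ?_⟩
      · rcases h2 with ⟨h2', h2⟩ | h2 <;> rcases h9 with h9 | h9 | h9 | h9 | h9 <;> omega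
      · have h8 := h2.resolve_left fun h => h.1 (by omega)
        clear h2
        rcases h7 with h7 | h7 | h7 | h7 | h7 <;> omega
    · change (_ ∧ ¬ (g.R + 2 * g.Ai ≤ -1 - f.1 ∧ g.Ai * i ≤ f.2 ∧ f.2 < g.Ai * i + g.Ai)) ∨
        (g.R ≤ -1 - f.1 ∧ -1 - f.1 < g.R + 2 * g.Ai ∧ ((g.Ai * i - g.Ai ≤ f.2 ∧
        f.2 < g.Ai * i) ∨ (g.Ai * i + g.Ai ≤ f.2 ∧ f.2 < g.Ai * i + 2 * g.Ai))) at h2
      refine ⟨h1, by omega, fun h9 => ?_, fun h6 k h7 => ?_⟩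
      · rcases h2 with ⟨h2', h2⟩ | h2 <;> rcases h9 with h9 | h9 | h9 | h9 | h9 <;> omega
      · have h8 := h2.resolve_left fun h => h.1 (by omega)
        clear h2
        rcases h7 with h7 | h7 | h7 | h7 | h7 <;> omega
    · change (_ ∧ ¬ (g.R + 2 * g.Ai ≤ -1 - f.2 ∧ g.Ai * i ≤ f.1 ∧ f.1 < g.Ai * i + g.Ai)) ∨
        (g.R ≤ -1 - f.2 ∧ -1 - f.2 < g.R + 2 * g.Ai ∧ ((g.Ai * i - g.Ai ≤ f.1 ∧
        f.1 < g.Ai * i) ∨ (g.Ai * i + g.Ai ≤ f.1 ∧ f.1 < g.Ai * i + 2 * g.Ai))) at h2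
      refine ⟨h1, by omega, fun h9 => ?_, fun h6 k h7 => ?_⟩
      · rcases h2 with ⟨h2', h2⟩ | h2 <;> rcases h9 with h9 | h9 | h9 | h9 | h9 <;> omega
      · have h8 := h2.resolve_left fun h => h.1 (by omega)
        clear h2
        rcases h7 with h7 | h7 | h7 | h7 | h7 <;> omega
    · change (_ ∧ ¬ (g.R + 2 * g.Ai ≤ f.1 ∧ g.Ai * i ≤ f.2 ∧ f.2 < g.Ai * i + g.Ai)) ∨
        (g.R ≤ f.1 ∧ f.1 < g.R + 2 * g.Ai ∧ ((g.Ai * i - g.Ai ≤ f.2 ∧ f.2 < g.Ai * i) ∨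
        (g.Ai * i + g.Ai ≤ f.2 ∧ f.2 < g.Ai * i + 2 * g.Ai))) at h2
      refine ⟨h1, by omega, fun h9 => ?_, fun h6 k h7 => ?_⟩
      · rcases h2 with ⟨h2', h2⟩ | h2 <;> rcases h9 with h9 | h9 | h9 | h9 | h9 <;> omega
      · have h8 := h2.resolve_left fun h => h.1 (by omega)
        clear h2
        rcases h7 with h7 | h7 | h7 | h7 | h7 <;> omega
  · intro ξ col hω
    obtain ⟨y, y', y1, y2, y3, y4, y5, y6⟩ := ends hg hi hω
    have par' : ((vS s g.R y').1 + (vS s g.R y').2 - col) % 2 = 0 := by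
      have := Conn.parity y6
      clear * - this y5
      omega
    rcases h with ⟨rfl, h3, h4, h5⟩ | ⟨rfl, h3, h4, h5⟩ | ⟨rfl, h3, h4, h5⟩ | ⟨rfl, h3, h4, h5⟩ |
      ⟨rfl, h3, h4, h5⟩
    · have e : ∀ y, 0 ≤ y → y ≤ g.R → vS 0 g.R y = cyc 0 0 0 g.R y := by
        intro y a1 a2
        change (g.R, y) = _
        unfold cyc
        rw [if_pos (by omega), Prod.mk.injEq]
        omega
      rw [e y (by omega) (by omega)] at y5 y6
      rw [e y' (by omega) (by omega)] at y6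
      exact ⟨y, y', by omega, by omega, by omega, by omega, y5, y6⟩
    · have e : ∀ y, -g.R < y → y < g.R → vS 1 g.R y = cyc 0 0 0 g.R (2 * g.R - y) := by
        intro y a1 a2
        change (y, g.R) = _
        unfold cyc
        rw [if_neg (by omega), if_pos (by omega), Prod.mk.injEq]
        omega
      rw [e y (by omega) (by omega)] at y6
      rw [e y' (by omega) (by omega)] at y6 par'
      exact ⟨2 * g.R - y', 2 * g.R - y, by omega, by omega, by omega, by omega, par', csymm y6⟩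
    · have e : ∀ y, -g.R < y → y < g.R → vS 2 g.R y = cyc 0 0 0 g.R (4 * g.R - y) := by
        intro y a1 a2
        change (-g.R, y) = _
        unfold cyc
        rw [if_neg (by omega), if_neg (by omega), if_pos (by omega), Prod.mk.injEq]
        omega
      rw [e y (by omega) (by omega)] at y6
      rw [e y' (by omega) (by omega)] at y6 par'
      exact ⟨4 * g.R - y', 4 * g.R - y, by omega, by omega, by omega, by omega, par', csymm y6⟩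
    · have e : ∀ y, -g.R < y → y < g.R → vS 3 g.R y = cyc 0 0 0 g.R (y + 6 * g.R) := by
        intro y a1 a2
        change (y, -g.R) = _
        unfold cyc
        rw [if_neg (by omega), if_neg (by omega), if_neg (by omega), if_pos (by omega),
          Prod.mk.injEq]
        omega
      rw [e y (by omega) (by omega)] at y5 y6
      rw [e y' (by omega) (by omega)] at y6
      exact ⟨y + 6 * g.R, y' + 6 * g.R, by omega, by omega, by omega, by omega, y5, y6⟩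
    · have e : ∀ y, -g.R < y → y ≤ 0 → vS 0 g.R y = cyc 0 0 0 g.R (y + 8 * g.R) := by
        intro y a1 a2
        change (g.R, y) = _
        unfold cyc
        rw [if_neg (by omega), if_neg (by omega), if_neg (by omega), if_neg (by omega),
          Prod.mk.injEq]
        omega
      rw [e y (by omega) (by omega)] at y5 y6
      rw [e y' (by omega) (by omega)] at y6
      exact ⟨y + 8 * g.R, y' + 8 * g.R, by omega, by omega, by omega, by omega, y5, y6⟩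
  · have hE : ∀ f ∈ (∅ : Set (ℤ × ℤ)), f ∉ BR (0, 0) ({ g with n := g.Ai } : Par).R :=
      fun f hf => absurd hf (Set.notMem_empty f)
    rcases h with ⟨-, h3, h4, h5⟩ | ⟨-, h3, h4, h5⟩ | ⟨-, h3, h4, h5⟩ | ⟨-, h3, h4, h5⟩ |
      ⟨-, h3, h4, h5⟩
    · have := inL_of_row (g := { g with n := g.Ai }) (S := ∅) (a := (g.R + 3 * g.Ai, κ + g.Ai))
        (f₀ := (g.R, κ + g.Ai)) (g₀ := (g.R - 1, κ + g.Ai)) (k := κ + g.Ai) (x₀ := g.R)
        (x₁ := g.R + 3 * g.Ai + 1) (y₀ := κ + g.Ai) (y₁ := κ + g.Ai + 1)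
        (by rw [gn]; omega) (by omega) (by rw [gn]; omega)
        (by rw [gn]; exact Or.inl ⟨by omega, rfl, rfl⟩)
        (by rw [mem_RF]; simp only; omega) (by rw [mem_RF]; simp only; omega)
        (fun f hf => ?_) hE
      · obtain ⟨l, hl⟩ := this
        refine ⟨_, l, hl, ?_⟩
        rw [mem_BR]
        simp only
        omega
      · rw [mem_RF] at hf
        rw [mem_BR, gn, gd]
        unfold OutR
        simp only
        refine ⟨by omega, by omega, Set.notMem_empty f⟩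
    · have := inL_of_row (g := { g with n := g.Ai }) (S := ∅)
        (a := (2 * g.R - (κ + g.Ai) - 1, g.R + 3 * g.Ai))
        (f₀ := (2 * g.R - (κ + g.Ai) - 1, g.R)) (g₀ := (2 * g.R - (κ + g.Ai) - 1, g.R - 1))
        (k := κ + g.Ai) (x₀ := 2 * g.R - (κ + g.Ai) - 1)
        (x₁ := 2 * g.R - (κ + g.Ai)) (y₀ := g.R) (y₁ := g.R + 3 * g.Ai + 1)
        (by rw [gn]; omega) (by omega) (by rw [gn]; omega)
        (by rw [gn]; exact Or.inr (Or.inl ⟨by omega, by omega, rfl, rfl⟩))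
        (by rw [mem_RF]; simp only; omega) (by rw [mem_RF]; simp only; omega)
        (fun f hf => ?_) hE
      · obtain ⟨l, hl⟩ := this
        refine ⟨_, l, hl, ?_⟩
        rw [mem_BR]
        simp only
        omega
      · rw [mem_RF] at hf
        rw [mem_BR, gn, gd]
        unfold OutR
        simp only
        refine ⟨by omega, by omega, Set.notMem_empty f⟩
    · have := inL_of_row (g := { g with n := g.Ai }) (S := ∅)
        (a := (-g.R - 1 - 3 * g.Ai, 4 * g.R - (κ + g.Ai) - 1))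
        (f₀ := (-g.R - 1, 4 * g.R - (κ + g.Ai) - 1)) (g₀ := (-g.R, 4 * g.R - (κ + g.Ai) - 1))
        (k := κ + g.Ai) (x₀ := -g.R - 1 - 3 * g.Ai)
        (x₁ := -g.R) (y₀ := 4 * g.R - (κ + g.Ai) - 1) (y₁ := 4 * g.R - (κ + g.Ai))
        (by rw [gn]; omega) (by omega) (by rw [gn]; omega)
        (by rw [gn]; exact Or.inr (Or.inr (Or.inl ⟨by omega, by omega, rfl, rfl⟩)))
        (by rw [mem_RF]; simp only; omega) (by rw [mem_RF]; simp only; omega)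
        (fun f hf => ?_) hE
      · obtain ⟨l, hl⟩ := this
        refine ⟨_, l, hl, ?_⟩
        rw [mem_BR]
        simp only
        omega
      · rw [mem_RF] at hf
        rw [mem_BR, gn, gd]
        unfold OutR
        simp only
        refine ⟨by omega, by omega, Set.notMem_empty f⟩
    · have := inL_of_row (g := { g with n := g.Ai }) (S := ∅)
        (a := (κ + g.Ai - 6 * g.R, -g.R - 1 - 3 * g.Ai))
        (f₀ := (κ + g.Ai - 6 * g.R, -g.R - 1)) (g₀ := (κ + g.Ai - 6 * g.R, -g.R))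
        (k := κ + g.Ai) (x₀ := κ + g.Ai - 6 * g.R)
        (x₁ := κ + g.Ai - 6 * g.R + 1) (y₀ := -g.R - 1 - 3 * g.Ai) (y₁ := -g.R)
        (by rw [gn]; omega) (by omega) (by rw [gn]; omega)
        (by rw [gn]; exact Or.inr (Or.inr (Or.inr (Or.inl ⟨by omega, by omega, rfl, rfl⟩))))
        (by rw [mem_RF]; simp only; omega) (by rw [mem_RF]; simp only; omega)
        (fun f hf => ?_) hE
      · obtain ⟨l, hl⟩ := this
        refine ⟨_, l, hl, ?_⟩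
        rw [mem_BR]
        simp only
        omega
      · rw [mem_RF] at hf
        rw [mem_BR, gn, gd]
        unfold OutR
        simp only
        refine ⟨by omega, by omega, Set.notMem_empty f⟩
    · have := inL_of_row (g := { g with n := g.Ai }) (S := ∅)
        (a := (g.R + 3 * g.Ai, κ + g.Ai - 8 * g.R))
        (f₀ := (g.R, κ + g.Ai - 8 * g.R)) (g₀ := (g.R - 1, κ + g.Ai - 8 * g.R))
        (k := κ + g.Ai) (x₀ := g.R)
        (x₁ := g.R + 3 * g.Ai + 1) (y₀ := κ + g.Ai - 8 * g.R) (y₁ := κ + g.Ai - 8 * g.R + 1)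
        (by rw [gn]; omega) (by omega) (by rw [gn]; omega)
        (by rw [gn]; exact Or.inr (Or.inr (Or.inr (Or.inr ⟨by omega, rfl, rfl⟩))))
        (by rw [mem_RF]; simp only; omega) (by rw [mem_RF]; simp only; omega)
        (fun f hf => ?_) hE
      · obtain ⟨l, hl⟩ := this
        refine ⟨_, l, hl, ?_⟩
        rw [mem_BR]
        simp only
        omega
      · rw [mem_RF] at hf
        rw [mem_BR, gn, gd]
        unfold OutR
        simp only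
        refine ⟨by omega, by omega, Set.notMem_empty f⟩

/-- A gate in a part of a side of the hole. -/
theorem exists_gd (hg : g.Ok) {b b' α β : ℤ}
    (hb : (b = 0 ∧ b' = g.R) ∨ (b = g.R ∧ b' = 3 * g.R) ∨ (b = 3 * g.R ∧ b' = 5 * g.R) ∨
      (b = 5 * g.R ∧ b' = 7 * g.R) ∨ (b = 7 * g.R ∧ b' = 8 * g.R)) (h1 : b ≤ α)
    (h2 : α + 5 * g.Ai - 1 ≤ β) (h3 : β ≤ b') :
    ∃ s i κ, GD g s i κ ∧ α ≤ κ ∧ κ + 3 * g.Ai ≤ β := by
  obtain ⟨f1, f2, f3, f4, f5, f6, f7, -⟩ := ZCAux.lin hg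
  have ha : 0 < g.Ai := by omega
  have eR : g.R = g.Ai * (g.Ni - 1) := by unfold Par.R; ring
  -- the multiples of the mesh
  obtain ⟨B, hB⟩ : ∃ B, b = g.Ai * B := by
    rcases hb with ⟨rfl, -⟩ | ⟨rfl, -⟩ | ⟨rfl, -⟩ | ⟨rfl, -⟩ | ⟨rfl, -⟩
    · exact ⟨0, by ring⟩
    · exact ⟨g.Ni - 1, eR⟩
    · exact ⟨3 * (g.Ni - 1), by rw [eR]; ring⟩
    · exact ⟨5 * (g.Ni - 1), by rw [eR]; ring⟩
    · exact ⟨7 * (g.Ni - 1), by rw [eR]; ring⟩
  obtain ⟨B', hB'⟩ : ∃ B', b' = g.Ai * B' := by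
    rcases hb with ⟨-, rfl⟩ | ⟨-, rfl⟩ | ⟨-, rfl⟩ | ⟨-, rfl⟩ | ⟨-, rfl⟩
    · exact ⟨g.Ni - 1, eR⟩
    · exact ⟨3 * (g.Ni - 1), by rw [eR]; ring⟩
    · exact ⟨5 * (g.Ni - 1), by rw [eR]; ring⟩
    · exact ⟨7 * (g.Ni - 1), by rw [eR]; ring⟩
    · exact ⟨8 * (g.Ni - 1), by rw [eR]; ring⟩
  obtain ⟨t, t1, t2, t3⟩ : ∃ t, α ≤ g.Ai * t ∧ g.Ai * t ≤ α + g.Ai ∧ b + g.Ai ≤ g.Ai * t := by
    rcases h1.eq_or_lt with h | h
    · refine ⟨B + 1, ?_, ?_, ?_⟩ <;> rw [mul_add, mul_one, ← hB] <;> omega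
    · have d1 := Int.mul_ediv_add_emod (α + g.Ai - 1) g.Ai
      have d2 := Int.emod_nonneg (α + g.Ai - 1) ha.ne'
      have d3 := Int.emod_lt_of_pos (α + g.Ai - 1) ha
      refine ⟨(α + g.Ai - 1) / g.Ai, by omega, by omega, ?_⟩
      have d4 : B < (α + g.Ai - 1) / g.Ai := cell_lt (x := b) ha hB.ge (by omega)
      have d5 := mul_le ha (show B + 1 ≤ (α + g.Ai - 1) / g.Ai by omega)
      rw [mul_add, mul_one, ← hB] at d5
      exact d5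
  have t4 : g.Ai * t + 4 * g.Ai ≤ b' := by
    have d6 : g.Ai * (t + 3) = g.Ai * t + 3 * g.Ai := by ring
    have d7 : g.Ai * (B' - 1) = b' - g.Ai := by rw [hB']; ring
    by_contra hc
    have d8 : B' - 1 < t + 3 := cell_lt (x := b' - g.Ai) ha (by rw [d7]) (by rw [d6]; omega)
    have d9 := mul_le ha (show B' ≤ t + 3 by omega)
    rw [d6, ← hB'] at d9
    omega
  have key : ∀ (s : Fin 4) (i : ℤ),
      ((s = 0 ∧ g.Ai * i = g.Ai * t + g.Ai ∧ g.Ai ≤ g.Ai * t ∧ g.Ai * t + 4 * g.Ai ≤ g.R) ∨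
      (s = 1 ∧ g.Ai * i = 2 * g.R - g.Ai * t - 2 * g.Ai ∧ g.R + g.Ai ≤ g.Ai * t ∧
        g.Ai * t + 4 * g.Ai ≤ 3 * g.R) ∨
      (s = 2 ∧ g.Ai * i = 4 * g.R - g.Ai * t - 2 * g.Ai ∧ 3 * g.R + g.Ai ≤ g.Ai * t ∧
        g.Ai * t + 4 * g.Ai ≤ 5 * g.R) ∨
      (s = 3 ∧ g.Ai * i = g.Ai * t + g.Ai - 6 * g.R ∧ 5 * g.R + g.Ai ≤ g.Ai * t ∧
        g.Ai * t + 4 * g.Ai ≤ 7 * g.R) ∨
      (s = 0 ∧ g.Ai * i = g.Ai * t + g.Ai - 8 * g.R ∧ 7 * g.R + g.Ai ≤ g.Ai * t ∧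
        g.Ai * t + 4 * g.Ai ≤ 8 * g.R)) →
      ∃ s i κ, GD g s i κ ∧ α ≤ κ ∧ κ + 3 * g.Ai ≤ β := by
    intro s i h
    have e1 : g.Ai * (-(g.Ni - 1) + 2) = -g.R + 2 * g.Ai := by rw [eR]; ring
    have e2 : g.Ai * (g.Ni - 2 - 2) = g.R - 3 * g.Ai := by rw [eR]; ring
    have hi : GateOk g i := by
      constructor
      · by_contra hc
        have := mul_le ha (show i ≤ -(g.Ni - 1) + 2 - 1 by omega)
        rw [mul_sub, mul_one, e1] at this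
        omega
      · by_contra hc
        have := mul_le ha (show g.Ni - 2 - 2 + 1 ≤ i by omega)
        rw [mul_add, mul_one, e2] at this
        omega
    exact ⟨s, i, g.Ai * t, gd_of hg hi h, t1, by omega⟩
  rcases hb with ⟨rfl, rfl⟩ | ⟨rfl, rfl⟩ | ⟨rfl, rfl⟩ | ⟨rfl, rfl⟩ | ⟨rfl, rfl⟩
  · exact key 0 (t + 1) (Or.inl ⟨rfl, by ring, by omega, t4⟩)
  · exact key 1 (2 * (g.Ni - 1) - t - 2) (Or.inr (Or.inl ⟨rfl, by rw [eR]; ring, by omega, t4⟩))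
  · exact key 2 (4 * (g.Ni - 1) - t - 2)
      (Or.inr (Or.inr (Or.inl ⟨rfl, by rw [eR]; ring, by omega, t4⟩)))
  · exact key 3 (t + 1 - 6 * (g.Ni - 1))
      (Or.inr (Or.inr (Or.inr (Or.inl ⟨rfl, by rw [eR]; ring, by omega, t4⟩))))
  · exact key 0 (t + 1 - 8 * (g.Ni - 1))
      (Or.inr (Or.inr (Or.inr (Or.inr ⟨rfl, by rw [eR]; ring, by omega, t4⟩))))

end ZGAux

end Pool.Agent.Occ

end PartoccZGG

section PartoccZG

/-!
# Row ZG: the D ring around the hole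

The gate is in the arc of the boundary of the hole between `k₁` and `k₂` which does not contain `kk`
(at distance at least two cells from `k₁` and `k₂` and from the corners). `L` = dual path from the
centre through the gate to the face outside the box of radius `(Ni + 2) Ai`; `Θ` = potential of
`xp lk + xp L` on this box.
-/

set_option autoImplicit false

namespace Pool.Agent.Occ

open Finset Pool.Agent.Perc Pool.Agent.Perc3 Pool.Agent.PercD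

variable {g : Par} {ω : Cfg} {ya yb : ℤ} {a₁ a₂ : ℤ × ℤ} {x₁ x₂ : UE} {k₁ k₂ kk : ℤ}
  {l₁ l₂ lk : List (ℤ × ℤ)} {S : Set (ℤ × ℤ)} {X₀ X₁ Y₀ Y₁ : ℤ} {Φ₁ Φ₂ : ℤ × ℤ → ZMod 2}

namespace ZGAux

/-- The potentials change on the boundary of the hole only at `k₁`, `k₂`, `kk`. -/
theorem jump_hole (hg : g.Ok) (hw : WinOk g X₀ X₁ Y₀ Y₁)
    (hS : StrZ g ω ya yb a₁ a₂ x₁ x₂ k₁ k₂ l₁ l₂ S) (hK : KapZ g Y₀ ya yb S l₁ l₂ kk lk)
    (hP : Pots g X₀ X₁ Y₀ Y₁ ω ya yb a₁ a₂ l₁ l₂ lk Φ₁ Φ₂) {k : ℤ} (h0 : 0 ≤ k)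
    (h1 : k < 8 * g.R) :
    Φ₁ (ub (Perc6.cycE 0 0 0 g.R k)) = Φ₁ (ua (Perc6.cycE 0 0 0 g.R k)) +
      (ind2 (k = k₁) + ind2 (k = kk)) ∧
    Φ₂ (ub (Perc6.cycE 0 0 0 g.R k)) = Φ₂ (ua (Perc6.cycE 0 0 0 g.R k)) +
      (ind2 (k = k₂) + ind2 (k = kk)) := by
  obtain ⟨f1, f2, f3, f4, f5, f6, f7, f8, f9, f10⟩ := ZCAux.lin hg
  have w1 := hw.x₀
  have w2 := hw.x₁
  have w3 := hw.y₀
  have w4 := hw.y₁
  rw [f10] at w1 w2 w3 w4
  obtain ⟨⟨fi, hfi, hsi⟩, -⟩ := cycE_in (R := g.R) (by omega) h0 h1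
  obtain ⟨⟨o1, o2⟩, -, -, -⟩ := ZCAux.places hg hS
  have hb := mem_BR.1 hfi
  simp only at hb
  have hRF : fi ∈ (RF X₀ X₁ Y₀ Y₁ : Set (ℤ × ℤ)) := by
    rw [mem_RF']
    omega
  obtain ⟨e2, e3⟩ := ZCAux.rows_zero (f := fi) hg hw (ya := ya) (yb := yb) (by omega) (by omega) hsi
  have hD : fi ∈ DZ g.w ya yb a₁ a₂ := by
    unfold OutR at o1 o2
    refine ⟨?_, ?_, ?_, ?_⟩
    · rintro rfl
      omega
    · rintro rfl
      omega
    · rintro rfl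
      simp only at hb
      omega
    · rintro rfl
      simp only at hb
      omega
  have hnS : fi ∉ S := by
    intro h
    have := hS.hole fi h
    rw [mem_BR] at this
    simp only at this
    omega
  have m1 : cM (MM ω (DZ g.w ya yb a₁ a₂) (tR g.w ya)) (Perc6.cycE 0 0 0 g.R k) = 0 :=
    ind2_neg fun h => hnS (ZCAux.vis₁ hS ⟨hD, _, h, hsi⟩)
  have m2 : cM (MM ω (DZ g.w ya yb a₁ a₂) (tL g.w yb)) (Perc6.cycE 0 0 0 g.R k) = 0 :=
    ind2_neg fun h => hnS (ZCAux.vis₂ hS ⟨hD, _, h, hsi⟩)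
  have e1 := hP.p₁ fi hRF _ hsi
  have e1' := hP.p₂ fi hRF _ hsi
  dsimp only at e1 e1'
  rw [m1, e2, hS.in₁.jump k h0 h1, hK.jump k h0 h1, zero_add, add_zero] at e1
  rw [m2, e3, hS.in₂.jump k h0 h1, hK.jump k h0 h1, zero_add, add_zero] at e1'
  exact ⟨e1, e1'⟩

/-- On the boundary of the hole, at the exit of the corridor. -/
theorem chi_kk (hg : g.Ok) (hw : WinOk g X₀ X₁ Y₀ Y₁)
    (hS : StrZ g ω ya yb a₁ a₂ x₁ x₂ k₁ k₂ l₁ l₂ S) (hK : KapZ g Y₀ ya yb S l₁ l₂ kk lk)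
    (hP : Pots g X₀ X₁ Y₀ Y₁ ω ya yb a₁ a₂ l₁ l₂ lk Φ₁ Φ₂) :
    Φ₁ (Perc6.cyc 0 0 0 g.R kk) + Φ₂ (Perc6.cyc 0 0 0 g.R kk) = 1 := by
  obtain ⟨f1, f2, f3, f4, f5, f6, f7, f8, f9, f10⟩ := ZCAux.lin hg
  obtain ⟨h0, h1⟩ := hK.rng
  have w3 := hw.y₀
  rw [f10] at w3
  obtain ⟨⟨fi, hfi, hsi⟩, fo, hfo, hso⟩ := cycE_in (R := g.R) (by omega) h0 h1
  have hfo' : fo ∈ lk := by
    by_contra h
    have h2 := xp_side hK.chain hso h
    rw [hK.jump kk h0 h1, ind2_pos rfl] at h2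
    exact absurd h2 (by decide)
  have hj := joins_cyc (R := g.R) (by omega) h0 h1
  have hY : Y₀ ≤ fo.2 := by
    have hc1 := hsi.cor_left hj
    have hc2 := hso.cor_left hj
    have hb := mem_BR.1 hfi
    simp only at hb
    unfold IsCor at hc1 hc2
    omega
  exact pots_kap hg hw hS hK hP hfo' hfo hY (hso.cor_left hj)

/-- The potentials on the P arc of the boundary of the hole. -/
theorem chi_arc (hg : g.Ok) (hw : WinOk g X₀ X₁ Y₀ Y₁)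
    (hS : StrZ g ω ya yb a₁ a₂ x₁ x₂ k₁ k₂ l₁ l₂ S) (hK : KapZ g Y₀ ya yb S l₁ l₂ kk lk)
    (hP : Pots g X₀ X₁ Y₀ Y₁ ω ya yb a₁ a₂ l₁ l₂ lk Φ₁ Φ₂) {k : ℤ} (h0 : 0 ≤ k)
    (h1 : k ≤ 8 * g.R)
    (ha : ((kk ≤ k₁ ∧ kk ≤ k₂ ∨ k₁ < kk ∧ k₂ < kk) ∧ (k₁ < k ∧ k ≤ k₂ ∨ k₂ < k ∧ k ≤ k₁)) ∨
        ((k₁ < kk ∧ kk ≤ k₂ ∨ k₂ < kk ∧ kk ≤ k₁) ∧ (k ≤ k₁ ∧ k ≤ k₂ ∨ k₁ < k ∧ k₂ < k))) :
    Φ₁ (Perc6.cyc 0 0 0 g.R k) + Φ₂ (Perc6.cyc 0 0 0 g.R k) = 0 := by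
  obtain ⟨f1, f2, f3, f4, f5, f6, f7, f8, f9, f10⟩ := ZCAux.lin hg
  have hj : ∀ k, 0 ≤ k → k < 8 * g.R →
      (fun p => Φ₁ p + Φ₂ p) (ub (Perc6.cycE 0 0 0 g.R k)) =
      (fun p => Φ₁ p + Φ₂ p) (ua (Perc6.cycE 0 0 0 g.R k)) + (ind2 (k = k₁) + ind2 (k = k₂)) := by
    intro k h0 h1
    obtain ⟨e1, e2⟩ := jump_hole hg hw hS hK hP h0 h1
    simp only
    rw [e1, e2]
    generalize Φ₁ (ua (Perc6.cycE 0 0 0 g.R k)) = x
    generalize Φ₂ (ua (Perc6.cycE 0 0 0 g.R k)) = y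
    generalize ind2 (k = k₁) = u
    generalize ind2 (k = k₂) = v
    generalize ind2 (k = kk) = z
    clear * -
    revert x y u v z
    decide
  have hkk := chi_kk hg hw hS hK hP
  have e1 := jumps (Ψ := fun p => Φ₁ p + Φ₂ p) (R := g.R) (by omega) hj hS.in₁.rng.1 hS.in₂.rng.1
    hK.rng.1 hK.rng.2.le
  have e2 := jumps (Ψ := fun p => Φ₁ p + Φ₂ p) (R := g.R) (by omega) hj hS.in₁.rng.1 hS.in₂.rng.1
    h0 h1
  rw [hkk] at e1
  rw [e2]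
  generalize Φ₁ (Perc6.cyc 0 0 0 g.R 0) + Φ₂ (Perc6.cyc 0 0 0 g.R 0) = x at *
  by_cases p1 : k₁ < kk <;> by_cases p2 : k₂ < kk <;> by_cases p3 : k₁ < k <;>
    by_cases p4 : k₂ < k <;> first | (exfalso; omega) | skip
  all_goals
    first | rw [ind2_pos p1] at e1 | rw [ind2_neg p1] at e1
    first | rw [ind2_pos p2] at e1 | rw [ind2_neg p2] at e1
    first | rw [ind2_pos p3] | rw [ind2_neg p3]
    first | rw [ind2_pos p4] | rw [ind2_neg p4]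
    clear * - e1
    revert x e1
    decide

/-- The first potential on a face which is not visited and not on the paths of the tips. -/
theorem fresh_jump (hS : StrZ g ω ya yb a₁ a₂ x₁ x₂ k₁ k₂ l₁ l₂ S)
    (hw : WinOk g X₀ X₁ Y₀ Y₁) (hg : g.Ok)
    (hP : Pots g X₀ X₁ Y₀ Y₁ ω ya yb a₁ a₂ l₁ l₂ lk Φ₁ Φ₂) {f : ℤ × ℤ}
    (hf : f ∈ RF X₀ X₁ Y₀ Y₁) (h1 : f ∉ S) (h2 : f ∉ l₁) (h3 : f ∉ l₂)
    (h4 : ¬ (f.2 = ya ∧ g.w ≤ f.1)) (h5 : ¬ (f.2 = yb ∧ f.1 ≤ -(g.w + 3))) {a : UE}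
    (ha : IsSide f a) : Φ₁ (ub a) = Φ₁ (ua a) + xp lk a := by
  have hD : f ∈ DZ g.w ya yb a₁ a₂ := by
    refine ⟨?_, ?_, ?_, ?_⟩
    · rintro rfl; exact h2 (ZCAux.head_mem hS.in₁.head)
    · rintro rfl; exact h3 (ZCAux.head_mem hS.in₂.head)
    · rintro rfl; exact h4 ⟨rfl, le_rfl⟩
    · rintro rfl; exact h5 ⟨rfl, le_rfl⟩
  have e1 := hP.p₁ f hf a ha
  obtain ⟨e2, e3⟩ := ZCAux.rows_zero hg hw h4 h5 ha
  have m1 : cM (MM ω (DZ g.w ya yb a₁ a₂) (tR g.w ya)) a = 0 :=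
    ind2_neg fun h => h1 (ZCAux.vis₁ hS ⟨hD, a, h, ha⟩)
  dsimp only at e1
  rw [xp_side hS.in₁.chain ha h2, e2, m1, add_zero, add_zero, zero_add] at e1
  exact e1

end ZGAux

open ZGAux

theorem ring_close (hg : g.Ok) (hw : WinOk g X₀ X₁ Y₀ Y₁)
    (hS : StrZ g ω ya yb a₁ a₂ x₁ x₂ k₁ k₂ l₁ l₂ S) (hK : KapZ g Y₀ ya yb S l₁ l₂ kk lk)
    (hP : Pots g X₀ X₁ Y₀ Y₁ ω ya yb a₁ a₂ l₁ l₂ lk Φ₁ Φ₂) :
    ∃ (s : Fin 4) (i : ℤ), GateOk g i ∧ ∀ η ξ : Cfg, (∀ f ∈ S, η f = ω f) →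
      (∀ f ∈ FR g s i, f ∉ S → η f = ξ f) →
      ξ ∈ Perc6.TubeEv (par (g.w, ya)) 0 0 g.Ai (RD g s i) →
      Conn η ((FR g s i : Set (ℤ × ℤ)) ∪ S) (g.w, ya) (-(g.w + 2), yb) := by
  obtain ⟨f1, f2, f3, f4, f5, f6, f7, f8, f9, f10⟩ := ZCAux.lin hg
  have w1 := hw.x₀
  have w2 := hw.x₁
  have w3 := hw.y₀
  have w4 := hw.y₁
  rw [f10] at w1 w2 w3 w4
  obtain ⟨b, b', α, β, hb, hα, hαβ, hβ, harc⟩ := exists_arc (a := g.Ai) (R := g.R) (kk := kk)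
    (by omega) (by omega) hS.in₁.rng hS.in₂.rng hS.sep hS.cor
  obtain ⟨s, i, κ, hGD, hκ1, hκ2⟩ := exists_gd hg hb hα hαβ hβ
  refine ⟨s, i, hGD.ok, fun η ξ hη hξ hT => ?_⟩
  obtain ⟨a, L, hL, haL⟩ := hGD.gate
  -- the potential of the corridor and of the path through the gate
  obtain ⟨Θ, hΘ, -⟩ := exists_potC (x₀ := -(g.R + 3 * g.Ai)) (x₁ := g.R + 3 * g.Ai)
    (y₀ := -(g.R + 3 * g.Ai)) (y₁ := g.R + 3 * g.Ai) (c := fun a => xp lk a + xp L a)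
    (fun f hf => by
      have hf' : -(g.R + 3 * g.Ai) ≤ f.1 ∧ f.1 < g.R + 3 * g.Ai ∧ -(g.R + 3 * g.Ai) ≤ f.2 ∧
          f.2 < g.R + 3 * g.Ai := by
        rw [mem_RF] at hf
        omega
      rw [bdC_add, bdC_xp hK.chain, bdC_xp hL.chain, hK.head, hK.last, hL.head, hL.last]
      have n1 : ¬ (some ((0 : ℤ), Y₀ - 1) = some f) := by
        intro h
        rw [Option.some.injEq] at h
        rw [← h] at hf'
        simp only at hf'
        omega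
      have n2 : ¬ (some a = some f) := by
        intro h
        rw [Option.some.injEq] at h
        apply haL
        rw [h, mem_BR]
        simp only
        omega
      rw [ind2_neg n1, ind2_neg n2, add_zero, zero_add]
      generalize ind2 (some ((-1 : ℤ), (0 : ℤ)) = some f) = z
      revert z
      decide) (0, 0) 0
  obtain ⟨k, k', q1, q2, q3, q4, q5, q6⟩ := hGD.ends ξ _ hT
  have hsec := sec_of_pots hg hw hS hK hP hη
  obtain ⟨-, -, hm⟩ := MM_agree hS hη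
  have hr0 := hGD.r0
  have hr1 := hGD.r1
  -- facts on the faces of the ring
  have hface : ∀ f ∈ (FR g s i : Set (ℤ × ℤ)), f ∈ RF X₀ X₁ Y₀ Y₁ ∧ f ∉ l₁ ∧ f ∉ l₂ ∧ f ∉ L ∧
      ¬ (f.2 = ya ∧ g.w ≤ f.1) ∧ ¬ (f.2 = yb ∧ f.1 ≤ -(g.w + 3)) ∧ f ∉ BR (0, 0) g.R ∧
      Y₀ ≤ f.2 ∧ f ∈ (RF (-(g.R + 3 * g.Ai)) (g.R + 3 * g.Ai) (-(g.R + 3 * g.Ai))
        (g.R + 3 * g.Ai) : Set (ℤ × ℤ)) := by
    intro f hf
    obtain ⟨h1, h2, h3, h4⟩ := hGD.out f hf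
    have h1' := mem_BR.1 h1
    simp only at h1'
    have hk1 := harc k₁
    have hk2 := harc k₂
    have hk1' := harc (k₁ + 1)
    have hk2' := harc (k₂ + 1)
    refine ⟨?_, ?_, ?_, ?_, ?_, ?_, h2, ?_, ?_⟩
    · rw [mem_RF]
      omega
    · intro h
      rcases hS.in₁.loc f h with h5 | ⟨h5, h6⟩
      · exact h2 h5
      · have h7 : f ∈ BR (0, 0) (g.d + g.Ai) := by
          rw [mem_BR] at h6 ⊢
          simp only at h6 ⊢
          omega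
        have h8 := h4 h7 _ h5
        omega
    · intro h
      rcases hS.in₂.loc f h with h5 | ⟨h5, h6⟩
      · exact h2 h5
      · have h7 : f ∈ BR (0, 0) (g.d + g.Ai) := by
          rw [mem_BR] at h6 ⊢
          simp only at h6 ⊢
          omega
        have h8 := h4 h7 _ h5
        omega
    · intro h
      rcases hL.loc f h with h5 | ⟨h5, -⟩
      · exact h2 h5
      · exact h3 h5
    · omega
    · omega
    · omega
    · rw [mem_RF']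
      omega
  have hΘs : ∀ f ∈ (FR g s i : Set (ℤ × ℤ)), ∀ a, IsSide f a → Θ (ub a) = Θ (ua a) + xp lk a := by
    intro f hf a ha
    obtain ⟨-, -, -, h1, -, -, -, -, h2⟩ := hface f hf
    have := hΘ f h2 a ha
    dsimp only at this
    rw [xp_side hL.chain ha h1, add_zero] at this
    exact this
  have hΘc : ∀ f ∈ (FR g s i : Set (ℤ × ℤ)), f ∉ lk → ∀ p q, IsCor f p → IsCor f q → Θ p = Θ q := by
    intro f hf hlk p q hp hq
    refine ZCAux.const_cor (fun a ha => ?_) hp hq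
    rw [hΘs f hf a ha, xp_side hK.chain ha hlk, add_zero]
  -- the values on the boundary of the hole
  have hjΘ : ∀ k, 0 ≤ k → k < 8 * g.R → Θ (ub (Perc6.cycE 0 0 0 g.R k)) =
      Θ (ua (Perc6.cycE 0 0 0 g.R k)) + (ind2 (k = kk) + ind2 (k = κ + g.Ai)) := by
    intro k h0 h1
    obtain ⟨⟨fi, hfi, hsi⟩, -⟩ := cycE_in (R := g.R) (by omega) h0 h1
    have hb := mem_BR.1 hfi
    simp only at hb
    have := hΘ fi (by rw [mem_RF']; omega) _ hsi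
    dsimp only at this
    have hLj : xp L (Perc6.cycE 0 0 0 g.R k) = ind2 (k = κ + g.Ai) := hL.jump k h0 h1
    rw [hK.jump k h0 h1, hLj] at this
    exact this
  have hne : Θ (Perc6.cyc 0 0 0 g.R k) ≠ Θ (Perc6.cyc 0 0 0 g.R k') := by
    have hkk := harc kk
    have e1 := jumps (R := g.R) (by omega) hjΘ hK.rng.1 (by omega) (k := k) (by omega) (by omega)
    have e2 := jumps (R := g.R) (by omega) hjΘ hK.rng.1 (by omega) (k := k') (by omega) (by omega)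
    rw [ind2_neg (show ¬ κ + g.Ai < k by omega), add_zero] at e1
    rw [ind2_pos (show κ + g.Ai < k' by omega),
      ind2_congr (show kk < k' ↔ kk < k by omega)] at e2
    rw [e1, e2]
    generalize Θ (Perc6.cyc 0 0 0 g.R 0) = x
    generalize ind2 (kk < k) = y
    clear * -
    revert x y
    decide
  have hχ : Φ₁ (Perc6.cyc 0 0 0 g.R k) + Φ₂ (Perc6.cyc 0 0 0 g.R k) = 0 :=
    chi_arc hg hw hS hK hP (by omega) (by omega) (harc k (by omega) (by omega))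
  have hχ' : Φ₁ (Perc6.cyc 0 0 0 g.R k') + Φ₂ (Perc6.cyc 0 0 0 g.R k') = 0 :=
    chi_arc hg hw hS hK hP (by omega) (by omega) (harc k' (by omega) (by omega))
  have hfin := hsec.ringD (G := (FR g s i : Set (ℤ × ℤ))) (ξ := ξ) (Θ := Θ)
    (p := Perc6.cyc 0 0 0 g.R k) (q := Perc6.cyc 0 0 0 g.R k')
    (by rw [hm]; exact hξ)
    (by
      rw [hm]
      intro f hf hfS p q hp hq
      obtain ⟨g1, g2, g3, g4, g5, g6, g7, g8, g9⟩ := hface f hf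
      obtain ⟨h1, h2⟩ := pots_fresh hS hK hw hg hP g1 hfS g2 g3 g5 g6 hp hq
      by_cases hlk : f ∈ lk
      · have h3 := pots_kap hg hw hS hK hP hlk g7 g8 hp
        refine ⟨h1, ?_, fun h4 => ?_⟩
        · refine ZCAux.const_cor (Ψ := fun p => Θ p + Φ₁ p) (fun a ha => ?_) hp hq
          rw [hΘs f hf a ha, fresh_jump hS hw hg hP g1 hfS g2 g3 g5 g6 ha]
          generalize Θ (ua a) = x
          generalize Φ₁ (ua a) = y
          generalize xp lk a = z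
          clear * -
          revert x y z
          decide
        · rw [h3] at h4
          exact absurd h4 (by decide)
      · obtain ⟨h4, -⟩ := h2 hlk
        have h5 := hΘc f hf hlk p q hp hq
        exact ⟨h1, by rw [h4, h5], fun _ => h5⟩)
    (by
      rw [hm]
      intro f hf hfS p q hp hq
      exact hΘc f hf (ZCAux.notMem_lk hg hK hfS) p q hp hq)
    q6
    (by
      unfold par at q5 ⊢
      dsimp only at q5 ⊢
      omega)
    hχ hχ' hne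
  rw [hm] at hfin
  exact hfin

end Pool.Agent.Occ

end PartoccZG
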