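import Pool.Agent.Lib.MP_6bd702_zc.Pre
import Pool.Agent.Lib.MP_6bd702_zc.Y040
import Pool.Agent.Lib.MP_6bd702_zc.Y044
import Pool.Agent.Lib.MP_6bd702_zc.Y028
import Pool.Agent.Lib.MP_6bd702_zc.Y027

section PartoccZH

/-!
# Row ZH: four alternating boundary points, squares which are seen from the lower side
-/

set_option autoImplicit false

namespace Pool.Agent.Occ

open Finset Pool.Agent.Perc Pool.Agent.Perc3 Pool.Agent.PercD Pool.Agent.Perc6

/-- A path of one colour between two vertices of the lower side and a path of the other colour from a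
vertex of the lower side between them to the left, right or upper side. -/
theorem alt4 {ω : Cfg} {x₀ x₁ y₀ y₁ : ℤ} {b₁ b₂ c z : ℤ × ℤ} (hb₁ : b₁.2 = y₀) (hb₂ : b₂.2 = y₀)
    (hc : c.2 = y₀) (h1 : x₀ ≤ b₂.1) (h2 : b₂.1 < c.1) (h3 : c.1 < b₁.1) (h4 : b₁.1 ≤ x₁)
    (hy : y₀ < y₁) (hp : par b₁ ≠ par c) (hD : Conn ω (RF x₀ x₁ y₀ y₁) b₁ b₂)
    (hP : Conn ω (RF x₀ x₁ y₀ y₁) c z) (hz : z.1 = x₀ ∨ z.1 = x₁ ∨ z.2 = y₁) : False := by
  refine no_alt (u := b₂) (w := b₁) (p := c) (z := z) h1 hb₂ hb₁ h2 h3 hc ?_ hD.symm hP hz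
  have h5 := Conn.parity hD
  unfold par at hp
  omega

/-- The square of the face `f`. -/
def sqi (x y e : ℤ) (f : ℤ × ℤ) : ℤ × ℤ := ((f.1 - x) / e, (f.2 - y) / e)

theorem sqi_adj {x y e : ℤ} (he : 1 ≤ e) {f f' : ℤ × ℤ} (h : Adj4 f f') :
    sqi x y e f = sqi x y e f' ∨ ((sqi x y e f).1 = (sqi x y e f').1 ∧
      |(sqi x y e f).2 - (sqi x y e f').2| = 1) ∨ ((sqi x y e f).2 = (sqi x y e f').2 ∧
      |(sqi x y e f).1 - (sqi x y e f').1| = 1) := by
  have key : ∀ a b : ℤ, a = b + 1 ∨ b = a + 1 → a / e = b / e ∨ |a / e - b / e| = 1 := by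
    have k2 : ∀ a : ℤ, (a + 1) / e = a / e ∨ (a + 1) / e = a / e + 1 := by
      intro a
      have e1 : a / e ≤ (a + 1) / e := Int.ediv_le_ediv (by omega) (by omega)
      have e2 : (a + 1) / e ≤ (a + e) / e := Int.ediv_le_ediv (by omega) (by omega)
      have e3 : (a + e) / e = a / e + 1 := by
        rw [Int.add_ediv_of_dvd_right (dvd_refl e), Int.ediv_self (by omega)]
      omega
    intro a b hab
    rcases hab with rfl | rfl
    · rcases k2 b with h1 | h1
      · exact Or.inl h1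
      · right; rw [h1]; simp
    · rcases k2 a with h1 | h1
      · exact Or.inl h1.symm
      · right; rw [h1]; simp
  unfold sqi
  simp only [Prod.mk.injEq]
  rcases h with ⟨h1, h2⟩ | ⟨h1, h2⟩
  · rcases key (f.1 - x) (f'.1 - x) (by omega) with h3 | h3
    · left; exact ⟨h3, by rw [h1]⟩
    · right; right; exact ⟨by rw [h1], h3⟩
  · rcases key (f.2 - y) (f'.2 - y) (by omega) with h3 | h3
    · left; exact ⟨by rw [h1], h3⟩
    · right; left; exact ⟨by rw [h1], h3⟩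

/-- A chain of faces gives a chain of squares. -/
theorem ch_squares {x y e : ℤ} (he : 1 ≤ e) {T : Set (ℤ × ℤ)} : ∀ {l : List (ℤ × ℤ)}, IsCh l →
    (∀ f ∈ l, sqi x y e f ∈ T) → ∀ {f₀ f₁ : ℤ × ℤ}, l.head? = some f₀ → l.getLast? = some f₁ →
    Relation.ReflTransGen (NbT T) (sqi x y e f₀) (sqi x y e f₁)
  | [], _, _, _, _, h, _ => absurd h (by simp)
  | [a], _, _, _, _, h, h' => by
    simp only [List.head?_cons, Option.some.injEq, List.getLast?_singleton] at h h'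
    rw [← h, ← h']
  | a :: b :: l, hl, hT, f₀, f₁, h, h' => by
    simp only [List.head?_cons, Option.some.injEq] at h
    subst h
    have ih := ch_squares he (l := b :: l) hl.2 (fun f hf => hT f (List.mem_cons_of_mem _ hf))
      (f₀ := b) (f₁ := f₁) rfl (by rw [← h']; simp [List.getLast?_cons_cons])
    rcases sqi_adj (x := x) (y := y) he hl.1 with h1 | h1
    · rw [h1]; exact ih
    · exact Relation.ReflTransGen.head ⟨h1, hT a (by simp), hT b (by simp)⟩ ih

/-- The bounds of the square of a face. -/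
theorem sqi_bd {e x a : ℤ} (he : 1 ≤ e) : x + e * ((a - x) / e) ≤ a ∧
    a < x + e * ((a - x) / e) + e := by
  have e1 := Int.emod_add_mul_ediv (a - x) e
  have e2 := Int.emod_nonneg (a - x) (by omega : e ≠ 0)
  have e3 := Int.emod_lt_of_pos (a - x) (by omega : 0 < e)
  constructor <;> linarith

/-- The cell is seen: the barrier `Λ` joins two vertices of the lower side, the dual path `l` leads
from the cell to the lower side between them, at distance more than `2 e` of `Λ`. -/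
theorem seen_of_barrier {ω : Cfg} {col x y M q e : ℤ} {z : ℤ × ℤ} (hcol : col = 0 ∨ col = 1)
    (he : 1 ≤ e) (hM : 1 ≤ M) (hq : 1 ≤ q) {Λ : Set (ℤ × ℤ)}
    (hΛ : ∀ f ∈ Λ, f ∈ RF x (x + 4 * (M * q * e)) y (y + 4 * (M * q * e))) {b₁ b₂ : ℤ × ℤ}
    (hb₁ : b₁.2 = y) (hb₂ : b₂.2 = y) (hr₁ : b₁.1 ≤ x + 4 * (M * q * e)) (hr₂ : x ≤ b₂.1)
    (hpar : par b₁ = (col + 1) % 2) (hc : Conn ω Λ b₁ b₂) {l : List (ℤ × ℤ)} (hl : IsCh l)
    (hlw : ∀ f ∈ l, f ∈ RF x (x + 4 * (M * q * e)) y (y + 4 * (M * q * e)))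
    (hfar : ∀ f ∈ l, ∀ s ∈ Λ, 2 * e < max |f.1 - s.1| |f.2 - s.2|) {f₀ f₁ : ℤ × ℤ}
    (h₀ : l.head? = some f₀) (h₁ : l.getLast? = some f₁)
    (hcell : x + q * e * (M + z.1) ≤ f₀.1 ∧ f₀.1 < x + q * e * (M + z.1 + 1) ∧
      y + q * e * (M + z.2) ≤ f₀.2 ∧ f₀.2 < y + q * e * (M + z.2 + 1))
    (hlow : f₁.2 = y ∧ b₂.1 + 2 * e < f₁.1 ∧ f₁.1 + 2 * e < b₁.1) :
    Seen ω col x y M q e z := by
  set T : Set (ℤ × ℤ) := {t | ∃ f ∈ l, sqi x y e f = t} with hT
  have hMq : 4 * (M * q * e) = e * (4 * (M * q)) := by ring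
  have hTw : ∀ t ∈ T, 0 ≤ t.1 ∧ e * (t.1 + 1) ≤ 4 * (M * q * e) ∧ 0 ≤ t.2 ∧
      e * (t.2 + 1) ≤ 4 * (M * q * e) := by
    rintro t ⟨f, hf, rfl⟩
    have h1 := PlanarA.mem_RF.1 (hlw f hf)
    have key : ∀ a x : ℤ, x ≤ a → a < x + 4 * (M * q * e) →
        0 ≤ (a - x) / e ∧ e * ((a - x) / e + 1) ≤ 4 * (M * q * e) := by
      intro a x h2 h3
      refine ⟨Int.ediv_nonneg (by omega) (by omega), ?_⟩
      rw [hMq] at h3 ⊢
      refine mul_le_mul_of_nonneg_left ?_ (by omega)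
      have h4 : (a - x) / e < 4 * (M * q) := by
        rw [Int.ediv_lt_iff_lt_mul (by omega)]
        linarith
      omega
    exact ⟨(key f.1 x h1.1.1 h1.1.2).1, (key f.1 x h1.1.1 h1.1.2).2,
      (key f.2 y h1.2.1 h1.2.2).1, (key f.2 y h1.2.1 h1.2.2).2⟩
  have hmem : ∀ f ∈ l, sqi x y e f ∈ T := fun f hf => ⟨f, hf, rfl⟩
  have hf₀ : f₀ ∈ l := by
    cases l with
    | nil => simp at h₀
    | cons a l =>
      simp only [List.head?_cons, Option.some.injEq] at h₀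
      rw [← h₀]; simp
  have hch := ch_squares (x := x) (y := y) he hl hmem h₀ h₁
  have hb1 := sqi_bd (x := x) (a := f₁.1) he
  have hD : Conn ω ((RF x (x + 4 * (M * q * e)) y (y + 4 * (M * q * e)) : Set (ℤ × ℤ)) \
      SqF x y e T) (b₂.1, y) (b₁.1, y) := by
    have h2 : Conn ω Λ (b₂.1, y) (b₁.1, y) := by
      have e1 : b₂ = (b₂.1, y) := by rw [← hb₂]
      have e2 : b₁ = (b₁.1, y) := by rw [← hb₁]
      rw [← e1, ← e2]
      exact hc.symm
    refine Conn.mono ?_ h2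
    intro s hs
    refine ⟨hΛ s hs, ?_⟩
    rintro ⟨t, ⟨f, hf, rfl⟩, g1, g2, g3, g4⟩
    have h3 := hfar f hf s hs
    have k1 := sqi_bd (x := x) (a := f.1) he
    have k2 := sqi_bd (x := y) (a := f.2) he
    unfold sqi at g1 g2 g3 g4
    simp only at g1 g2 g3 g4
    have r1 : e * ((f.1 - x) / e + 1) = e * ((f.1 - x) / e) + e := by ring
    have r2 : e * ((f.2 - y) / e + 1) = e * ((f.2 - y) / e) + e := by ring
    rw [r1] at g2
    rw [r2] at g4
    rw [lt_max_iff, lt_abs, lt_abs] at h3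
    omega
  have h0 : (sqi x y e f₁).2 = 0 := by
    unfold sqi
    simp only
    rw [hlow.1, sub_self, Int.zero_ediv]
  have hsn := seen_of_squares (col := col) (t := sqi x y e f₀) (t₀ := sqi x y e f₁) he hcol hTw
    (hmem f₀ hf₀) hch h0 (a₁ := b₂.1) (a₂ := b₁.1) hr₂ (by
      unfold sqi
      simp only
      omega) (by
      unfold sqi
      simp only
      have r1 : e * ((f₁.1 - x) / e + 1) = e * ((f₁.1 - x) / e) + e := by ring
      rw [r1]
      omega) (by
      have h5 := Conn.parity hc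
      unfold par at hpar ⊢
      simp only
      rw [hb₁, hb₂] at h5
      rw [hb₁] at hpar
      omega) hD
  refine ⟨sqi x y e f₀, sqi x y e f₁, ?_, h0, hsn.1, hsn.2⟩
  obtain ⟨c1, c2, c3, c4⟩ := hcell
  have key : ∀ a x k : ℤ, x + q * e * k ≤ a → a < x + q * e * (k + 1) →
      q * k ≤ (a - x) / e ∧ (a - x) / e < q * (k + 1) := by
    intro a x k h2 h3
    constructor
    · rw [Int.le_ediv_iff_mul_le (by omega)]
      linarith [show q * k * e = q * e * k by ring]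
    · rw [Int.ediv_lt_iff_lt_mul (by omega)]
      linarith [show q * (k + 1) * e = q * e * (k + 1) by ring]
  unfold sqi
  simp only
  exact ⟨(key f₀.1 x _ c1 c2).1, (key f₀.1 x _ c1 c2).2, (key f₀.2 y _ c3 c4).1,
    (key f₀.2 y _ c3 c4).2⟩

end Pool.Agent.Occ

end PartoccZH

section PartoccZI

/-!
# Row ZI: the cell is occupied
-/

set_option autoImplicit false

namespace Pool.Agent.Occ

open Finset Pool.Agent.Perc Pool.Agent.Perc3 Pool.Agent.PercD Pool.Agent.Perc6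

/-- A chain of faces as a relation. -/
theorem ch_rel : ∀ {l : List (ℤ × ℤ)}, IsCh l → ∀ {a b : ℤ × ℤ}, l.head? = some a →
    l.getLast? = some b →
    Relation.ReflTransGen (fun f g => Adj4 f g ∧ f ∈ l ∧ g ∈ l) a b
  | [], _, _, _, h, _ => absurd h (by simp)
  | [c], _, a, b, h, h' => by
    simp only [List.head?_cons, Option.some.injEq, List.getLast?_singleton] at h h'
    rw [← h, ← h']
  | c :: c' :: l, hl, a, b, h, h' => by
    simp only [List.head?_cons, Option.some.injEq] at h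
    subst h
    have ih := ch_rel (l := c' :: l) hl.2 (a := c') (b := b) rfl
      (by rw [← h']; simp [List.getLast?_cons_cons])
    refine Relation.ReflTransGen.head ⟨hl.1, by simp, by simp⟩ (Perc.Q.rtg_mono ?_ ih)
    rintro f g ⟨h1, h2, h3⟩
    exact ⟨h1, List.mem_cons_of_mem _ h2, List.mem_cons_of_mem _ h3⟩

/-- The part of a chain between its last visit of a box and its first visit of its end. -/
theorem cut_chain {L : Set (ℤ × ℤ)} {r : ℤ} {a b : ℤ × ℤ} (hb : b ∉ BR (0, 0) (r + 1))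
    (h : Relation.ReflTransGen (fun f g => Adj4 f g ∧ f ∈ L ∧ g ∈ L) a b)
    (ha : a ∈ BR (0, 0) r) :
    ∃ f₀ f₁, f₀ ∈ BR (0, 0) (r + 1) ∧ (f₀ ∈ L ∧ f₀ ≠ b ∧ f₀ ∉ BR (0, 0) r) ∧ Adj4 f₁ b ∧
      (f₁ ∈ L ∧ f₁ ≠ b ∧ f₁ ∉ BR (0, 0) r) ∧
      Relation.ReflTransGen (fun f g => Adj4 f g ∧ (f ∈ L ∧ f ≠ b ∧ f ∉ BR (0, 0) r) ∧
        (g ∈ L ∧ g ≠ b ∧ g ∉ BR (0, 0) r)) f₀ f₁ := by
  set G : ℤ × ℤ → Prop := fun f => f ∈ L ∧ f ≠ b ∧ f ∉ BR (0, 0) r with hG
  have key : ∀ f, Relation.ReflTransGen (fun f g => Adj4 f g ∧ f ∈ L ∧ g ∈ L) f b → f ≠ b →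
      (G f ∧ ∃ f₁, Adj4 f₁ b ∧ G f₁ ∧
        Relation.ReflTransGen (fun f g => Adj4 f g ∧ G f ∧ G g) f f₁) ∨
      ∃ f₀ f₁, f₀ ∈ BR (0, 0) (r + 1) ∧ G f₀ ∧ Adj4 f₁ b ∧ G f₁ ∧
        Relation.ReflTransGen (fun f g => Adj4 f g ∧ G f ∧ G g) f₀ f₁ := by
    intro f hf
    induction hf using Relation.ReflTransGen.head_induction_on with
    | refl => exact fun h => absurd rfl h
    | head hab hbc ih =>
      rename_i f g
      intro hfb
      obtain ⟨hadj, hfL, hgL⟩ := hab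
      by_cases hgb : g = b
      · subst hgb
        have hfr : f ∉ BR (0, 0) r := by
          rw [mem_BR] at hb ⊢
          unfold Adj4 at hadj
          simp only at hb ⊢
          omega
        exact Or.inl ⟨⟨hfL, hfb, hfr⟩, f, hadj, ⟨hfL, hfb, hfr⟩, Relation.ReflTransGen.refl⟩
      · rcases ih hgb with ⟨hGg, f₁, h1, h2, h3⟩ | h4
        · by_cases hfr : f ∈ BR (0, 0) r
          · right
            refine ⟨g, f₁, ?_, hGg, h1, h2, h3⟩
            rw [mem_BR] at hfr ⊢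
            unfold Adj4 at hadj
            simp only at hfr ⊢
            omega
          · exact Or.inl ⟨⟨hfL, hfb, hfr⟩, f₁, h1, h2,
              Relation.ReflTransGen.head ⟨hadj, ⟨hfL, hfb, hfr⟩, hGg⟩ h3⟩
        · exact Or.inr h4
  have hab : a ≠ b := by
    rintro rfl
    rw [mem_BR] at hb ha
    simp only at hb ha
    omega
  rcases key a h hab with ⟨h1, -⟩ | ⟨f₀, f₁, h1, h2, h3, h4, h5⟩
  · exact absurd ha h1.2.2
  · exact ⟨f₀, f₁, h1, h2, h3, h4, h5⟩

/-- The cells of the ring are in a box. -/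
theorem FR_box {g : Par} (hAi : 0 ≤ g.Ai) (hNi : 100 ≤ g.Ni) {s : Fin 4} {i : ℤ} (hi : GateOk g i)
    {f : ℤ × ℤ} (hf : f ∈ FR g s i) :
    -(g.d + 2 * g.Ai) ≤ f.1 ∧ f.1 < g.d + 2 * g.Ai ∧ -(g.d + 2 * g.Ai) ≤ f.2 ∧
      f.2 < g.d + 2 * g.Ai := by
  unfold FR Perc6.cellsF at hf
  rw [Finset.mem_biUnion] at hf
  obtain ⟨k, hk, hf⟩ := hf
  have hkb : -(g.Ni + 2) ≤ k.1 ∧ k.1 ≤ g.Ni + 1 ∧ -(g.Ni + 2) ≤ k.2 ∧ k.2 ≤ g.Ni + 1 := by
    unfold RD at hk
    unfold GateOk at hi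
    rw [Finset.mem_union] at hk
    rcases hk with hk | hk
    · have h1 := (Finset.mem_erase.1 hk).2
      unfold lay at h1
      rw [Finset.mem_filter, Finset.mem_product, Finset.mem_Icc, Finset.mem_Icc] at h1
      omega
    · simp only [Finset.mem_insert, Finset.mem_singleton] at hk
      rcases hk with rfl | rfl | rfl | rfl <;> fin_cases s <;>
        simp only [ceS, Fin.zero_eta, Fin.mk_one, Fin.reduceFinMk, Matrix.cons_val_zero,
          Matrix.cons_val_one, Matrix.cons_val] <;> omega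
  unfold Perc6.cellF at hf
  rw [PlanarA.mem_RF] at hf
  obtain ⟨⟨f1, f2⟩, f3, f4⟩ := hf
  have hd : g.d = g.Ni * g.Ai := rfl
  have key : ∀ a k : ℤ, 0 + g.Ai * k ≤ a → a < 0 + g.Ai * (k + 1) → -(g.Ni + 2) ≤ k →
      k ≤ g.Ni + 1 → -(g.d + 2 * g.Ai) ≤ a ∧ a < g.d + 2 * g.Ai := by
    intro a k h1 h2 h3 h4
    rw [hd]
    constructor
    · have h5 : g.Ai * (-(g.Ni + 2)) ≤ g.Ai * k := mul_le_mul_of_nonneg_left h3 hAi
      linarith [show g.Ai * (-(g.Ni + 2)) = -(g.Ni * g.Ai + 2 * g.Ai) by ring]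
    · have h5 : g.Ai * (k + 1) ≤ g.Ai * (g.Ni + 1 + 1) :=
        mul_le_mul_of_nonneg_left (by omega) hAi
      linarith [show g.Ai * (g.Ni + 1 + 1) = g.Ni * g.Ai + 2 * g.Ai by ring]
  have k1 := key f.1 k.1 f1 f2 hkb.1 hkb.2.1
  have k2 := key f.2 k.2 f3 f4 hkb.2.2.1 hkb.2.2.2
  exact ⟨k1.1, k1.2, k2.1, k2.2⟩

theorem closing {g : Par} (hg : g.Ok) {ω η : Cfg} {ya yb : ℤ} {a₁ a₂ : ℤ × ℤ} {x₁ x₂ : UE}
    {k₁ k₂ kk : ℤ} {l₁ l₂ lk : List (ℤ × ℤ)} {S : Set (ℤ × ℤ)} {col x y M q e : ℤ} {z : ℤ × ℤ}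
    (hcol : col = 0 ∨ col = 1) (he : 1 ≤ e) (heσ : 16 * e ≤ g.σ) (hM : 1 ≤ M) (hq : 1 ≤ q)
    (hpar : par (g.w, ya) = (col + 1) % 2)
    (hw : WinOk g x (x + 4 * (M * q * e)) y (y + 4 * (M * q * e)))
    (hcell : x + q * e * (M + z.1) ≤ -(g.d + 4 * g.Ai) ∧
      g.d + 4 * g.Ai ≤ x + q * e * (M + z.1 + 1) ∧ y + q * e * (M + z.2) ≤ -(g.d + 4 * g.Ai) ∧
      g.d + 4 * g.Ai ≤ y + q * e * (M + z.2 + 1))
    (hS : StrZ g ω ya yb a₁ a₂ x₁ x₂ k₁ k₂ l₁ l₂ S) (hK : KapZ g y ya yb S l₁ l₂ kk lk)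
    (h1 : ∀ f ∈ S, η f = ω f) {b₁ b₂ t : ℤ × ℤ} (hb₁ : b₁.2 = y)
    (hb₁' : (g.N + 1) * g.A ≤ b₁.1 ∧ b₁.1 ≤ (g.N + 2) * g.A) (hb₂ : b₂.2 = y)
    (hb₂' : -((g.N + 2) * g.A) ≤ b₂.1 ∧ b₂.1 ≤ -((g.N + 1) * g.A))
    (c₁ : Conn η ((F1 g y ya : Set (ℤ × ℤ)) ∪ S) b₁ (g.w, ya))
    (c₂ : Conn η ((F2 g y yb : Set (ℤ × ℤ)) ∪ S) b₂ (-(g.w + 2), yb))
    (ht : t.2 = y + 4 * (M * q * e))
    (c₃ : Conn η ((FP g (y + 4 * (M * q * e)) : Set (ℤ × ℤ)) ∪ S) t (g.w, ya + 1) ∨
      Conn η ((FP g (y + 4 * (M * q * e)) : Set (ℤ × ℤ)) ∪ S) t (-(g.w + 2), yb + 1))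
    {s : Fin 4} {i : ℤ} (hi : GateOk g i)
    (c₄ : Conn η ((FR g s i : Set (ℤ × ℤ)) ∪ S) (g.w, ya) (-(g.w + 2), yb)) :
    OccAt η col x y M q e z := by
  obtain ⟨N1, Ni1, n1, σn, σA, AA⟩ := hg
  obtain ⟨w0, w1, w2, w3⟩ := hw
  -- numerical facts
  have hσ : 16 ≤ g.σ := by omega
  have hAi : 1600 ≤ g.Ai := by omega
  have hA : 104 * g.Ai ≤ g.A := by nlinarith
  have hwA : g.w = g.N * g.A := rfl
  have hd : g.d = g.Ni * g.Ai := rfl
  have eN1 : (g.N + 1) * g.A = g.w + g.A := by rw [hwA]; ring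
  have eN2 : (g.N + 2) * g.A = g.w + 2 * g.A := by rw [hwA]; ring
  have eN4 : (g.N + 4) * g.A = g.w + 4 * g.A := by rw [hwA]; ring
  have eN3 : (g.N - 3) * g.A = g.w - 3 * g.A := by rw [hwA]; ring
  have eN2' : (g.N - 2) * g.A = g.w - 2 * g.A := by rw [hwA]; ring
  have eN19 : (g.N - 19) * g.A = g.w - 19 * g.A := by rw [hwA]; ring
  have eN20 : (g.N - 20) * g.A = g.w - 20 * g.A := by rw [hwA]; ring
  have hw100 : 100 * g.A ≤ g.w := by rw [hwA]; nlinarith
  have hdA : g.d + 4 * g.Ai ≤ g.A := by rw [hd]; nlinarith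
  have hd100 : 100 * g.Ai ≤ g.d := by rw [hd]; nlinarith
  rw [eN4] at w0 w1 w2 w3
  rw [eN1, eN2] at hb₁' hb₂'
  set X₁ := x + 4 * (M * q * e) with hX₁
  set Y₁ := y + 4 * (M * q * e) with hY₁
  obtain ⟨port, xm₁, xm₂, xs₁, xs₂, -, -, -, vis, box, hole, near₁, near₂, in₁, in₂, -, -⟩ := id hS
  unfold Ports at port
  rw [Finset.mem_filter, Finset.mem_product, Finset.mem_Ico, Finset.mem_Ico] at port
  obtain ⟨⟨⟨p1, p2⟩, p3, p4⟩, p5, p6, p7, p8, p9⟩ := port
  simp only at p1 p2 p3 p4 p5 p6 p7 p8 p9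
  obtain ⟨mm₁, mm₂, ssU⟩ := MM_agree hS h1
  -- the rows of the tips
  have hrw : ∀ v : ℤ, rw' g.A v ≤ v ∧ v < rw' g.A v + g.A := by
    intro v
    unfold rw'
    have e1 := Int.emod_add_mul_ediv v g.A
    have e2 := Int.emod_nonneg v (by omega : g.A ≠ 0)
    have e3 := Int.emod_lt_of_pos v (by omega : 0 < g.A)
    constructor <;> linarith
  have ra := hrw ya
  have rb := hrw yb
  -- the face sets are in the window
  have hSw : ∀ f ∈ S, f ∈ RF x X₁ y Y₁ := by
    intro f hf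
    have := box f hf
    rw [PlanarA.mem_RF]
    omega
  have hF1 : ∀ f ∈ F1 g y ya, (g.w + g.A ≤ f.1 ∧ f.1 < g.w + 2 * g.A ∧ y ≤ f.2 ∧ f.2 < ya) ∨
      (g.w - 3 * g.A ≤ f.1 ∧ f.1 < g.w + 2 * g.A ∧ ya - 3 * g.A ≤ f.2 ∧
        f.2 < ya + 3 * g.A) := by
    intro f hf
    unfold F1 at hf
    rw [Finset.mem_union, Finset.mem_union, Finset.mem_union, PlanarA.mem_RF, PlanarA.mem_RF,
      PlanarA.mem_RF, PlanarA.mem_RF, eN1, eN2, eN3, eN2'] at hf
    omega
  have hF2 : ∀ f ∈ F2 g y yb,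
      (-(g.w + 2 * g.A) ≤ f.1 ∧ f.1 < -(g.w + g.A) ∧ y ≤ f.2 ∧ f.2 < yb) ∨
      (-(g.w + 2 * g.A) ≤ f.1 ∧ f.1 < -(g.w - 3 * g.A) ∧ yb - 3 * g.A ≤ f.2 ∧
        f.2 < yb + 3 * g.A) := by
    intro f hf
    unfold F2 at hf
    rw [Finset.mem_union, Finset.mem_union, Finset.mem_union, PlanarA.mem_RF, PlanarA.mem_RF,
      PlanarA.mem_RF, PlanarA.mem_RF, eN1, eN2, eN3, eN2'] at hf
    omega
  have hF1w : ∀ f ∈ F1 g y ya, f ∈ RF x X₁ y Y₁ := by
    intro f hf
    have := hF1 f hf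
    rw [PlanarA.mem_RF]
    omega
  have hF2w : ∀ f ∈ F2 g y yb, f ∈ RF x X₁ y Y₁ := by
    intro f hf
    have := hF2 f hf
    rw [PlanarA.mem_RF]
    omega
  have hFPw : ∀ f ∈ FP g Y₁, f ∈ RF x X₁ y Y₁ := by
    intro f hf
    unfold FP at hf
    rw [PlanarA.mem_RF, eN1, eN19, eN20] at hf
    rw [PlanarA.mem_RF]
    omega
  have hFRb := fun f hf => FR_box (g := g) (s := s) (f := f) (by omega) Ni1 hi hf
  have hFRw : ∀ f ∈ FR g s i, f ∈ RF x X₁ y Y₁ := by
    intro f hf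
    have := hFRb f hf
    rw [PlanarA.mem_RF]
    omega
  have win : ∀ {F : Finset (ℤ × ℤ)}, (∀ f ∈ F, f ∈ RF x X₁ y Y₁) →
      ((F : Set (ℤ × ℤ)) ∪ S) ⊆ (RF x X₁ y Y₁ : Set (ℤ × ℤ)) := by
    rintro F hF f (hf | hf)
    · exact hF f hf
    · exact hSw f hf
  -- parities
  have hparP : par (g.w, ya + 1) = col := by
    unfold par at hpar ⊢
    simp only at hpar ⊢
    omega
  have hpar2 : par (-(g.w + 2), yb) = (col + 1) % 2 := by
    unfold par at hpar ⊢
    simp only at hpar ⊢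
    omega
  have hparP2 : par (-(g.w + 2), yb + 1) = col := by
    unfold par at hpar2 ⊢
    simp only at hpar2 ⊢
    omega
  have hj₁ : Joins (tR g.w ya) (g.w, ya + 1) (g.w, ya) := by
    right
    exact ⟨rfl, rfl⟩
  have hj₂ : Joins (tL g.w yb) (-(g.w + 2), yb + 1) (-(g.w + 2), yb) := by
    right
    exact ⟨rfl, rfl⟩
  have ss₁ : SS η (DZ g.w ya yb a₁ a₂) (tR g.w ya) ⊆ S := by
    rw [← ssU]; exact Set.subset_union_left
  have ss₂ : SS η (DZ g.w ya yb a₁ a₂) (tL g.w yb) ⊆ S := by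
    rw [← ssU]; exact Set.subset_union_right
  have hSset : S ⊆ (RF x X₁ y Y₁ : Set (ℤ × ℤ)) := hSw
  -- the box of the inner tips
  have hcor : ∀ {a : ℤ × ℤ} {k : ℤ} {l : List (ℤ × ℤ)} {b : UE} {u v : ℤ × ℤ}, InL g S a k l →
      IsSide a b → Joins b u v → InCell x y M q e z u := by
    intro a k l b u v hin hb hj
    have ha : a ∈ l := by
      have := hin.head
      cases l with
      | nil => simp at this
      | cons c l =>
        simp only [List.head?_cons, Option.some.injEq] at this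
        rw [← this]; simp
    have h2 : -(g.d + 2 * g.n + 4) ≤ a.1 ∧ a.1 < g.d + 2 * g.n + 4 ∧
        -(g.d + 2 * g.n + 4) ≤ a.2 ∧ a.2 < g.d + 2 * g.n + 4 := by
      rcases hin.loc a ha with h3 | ⟨-, h3⟩
      · rw [mem_BR] at h3
        have hR : g.R = g.d - g.Ai := by
          rw [hd]
          unfold Par.R
          ring
        simp only at h3
        omega
      · rw [mem_BR] at h3
        simp only at h3
        omega
    have hu : (u.1 = a.1 ∨ u.1 = a.1 + 1) ∧ (u.2 = a.2 ∨ u.2 = a.2 + 1) := by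
      unfold Joins ua ub at hj
      unfold IsSide bo le' to' ri at hb
      rcases hb with rfl | rfl | rfl | rfl <;>
        simp only [Bool.false_eq_true, if_false, if_true] at hj <;>
        rcases hj with ⟨rfl, rfl⟩ | ⟨rfl, rfl⟩ <;> simp
    unfold Perc6.InCell
    omega
  refine ⟨?_, ?_⟩
  · -- the unit edge
    rcases c₃ with c₃ | c₃
    · obtain ⟨p, p', j1, j2, j3⟩ := MM_conn (ω := η) (F := DZ g.w ya yb a₁ a₂) (a := x₁) hj₁
        (by rw [mm₁]; exact xm₁)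
      obtain ⟨r, r', k1, k2, k3⟩ := MM_conn (ω := η) (F := DZ g.w ya yb a₁ a₂) (a := x₁) hj₁.symm
        (by rw [mm₁]; exact xm₁)
      have hrp : r = p' := by
        have h3 : par r = par p' := by
          have := j1.par_ne
          have e1 := par_cases r
          have e2 := par_cases p
          have e3 := par_cases p'
          rw [hparP] at j2
          rw [hpar] at k2
          omega
        exact (k1.of_par j1.symm h3).1
      subst hrp
      refine ⟨x₁, p, r, j1, j2.trans hparP, hcor in₁ xs₁ j1, hcor in₁ xs₁ j1.symm, ⟨t, ?_, ht⟩,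
        ⟨b₁, ?_, hb₁⟩⟩
      · exact (j3.symm.mono (ss₁.trans hSset)).trans (c₃.symm.mono (win hFPw))
      · exact (k3.symm.mono (ss₁.trans hSset)).trans (c₁.symm.mono (win hF1w))
    · obtain ⟨p, p', j1, j2, j3⟩ := MM_conn (ω := η) (F := DZ g.w ya yb a₁ a₂) (a := x₂) hj₂
        (by rw [mm₂]; exact xm₂)
      obtain ⟨r, r', k1, k2, k3⟩ := MM_conn (ω := η) (F := DZ g.w ya yb a₁ a₂) (a := x₂) hj₂.symm
        (by rw [mm₂]; exact xm₂)
      have hrp : r = p' := by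
        have h3 : par r = par p' := by
          have := j1.par_ne
          have e1 := par_cases r
          have e2 := par_cases p
          have e3 := par_cases p'
          rw [hparP2] at j2
          rw [hpar2] at k2
          omega
        exact (k1.of_par j1.symm h3).1
      subst hrp
      refine ⟨x₂, p, r, j1, j2.trans hparP2, hcor in₂ xs₂ j1, hcor in₂ xs₂ j1.symm, ⟨t, ?_, ht⟩,
        ⟨b₂, ?_, hb₂⟩⟩
      · exact (j3.symm.mono (ss₂.trans hSset)).trans (c₃.symm.mono (win hFPw))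
      · exact (k3.symm.mono (ss₂.trans hSset)).trans (c₂.symm.mono (win hF2w))
  · -- the corridor
    have hrel := ch_rel hK.chain hK.head hK.last
    obtain ⟨f₀, f₁, g1, g2, g3, g4, g5⟩ := cut_chain (L := {f | f ∈ lk}) (r := g.d + 3 * g.Ai - 1)
      (a := (-1, 0)) (b := (0, y - 1)) (by rw [mem_BR]; simp only; omega) hrel
      (by rw [mem_BR]; simp only; omega)
    obtain ⟨m, m1, m2, m3, m4⟩ := exists_list (P := fun f => f ∈ {f | f ∈ lk} ∧ f ≠ (0, y - 1) ∧
      f ∉ BR (0, 0) (g.d + 3 * g.Ai - 1)) g2 g5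
    set Λ : Set (ℤ × ℤ) := ((F1 g y ya : Set (ℤ × ℤ)) ∪ (F2 g y yb : Set (ℤ × ℤ))) ∪
      ((FR g s i : Set (ℤ × ℤ)) ∪ S) with hΛ
    have hconn : Conn η Λ b₁ b₂ := by
      refine ((c₁.mono ?_).trans (c₄.mono ?_)).trans (c₂.symm.mono ?_)
      · rintro f (hf | hf)
        · exact Or.inl (Or.inl hf)
        · exact Or.inr (Or.inr hf)
      · rintro f (hf | hf)
        · exact Or.inr (Or.inl hf)
        · exact Or.inr (Or.inr hf)
      · rintro f (hf | hf)
        · exact Or.inl (Or.inr hf)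
        · exact Or.inr (Or.inr hf)
    have hy : ∀ f ∈ m, y ≤ f.2 := by
      intro f hf
      obtain ⟨h2, h3, -⟩ := m4 f hf
      rcases hK.only f h2 with h4 | h4
      · exact absurd h4 h3
      · exact h4
    have hparb : par b₁ = (col + 1) % 2 := by
      have h5 := Conn.parity c₁
      unfold par at hpar ⊢
      simp only at hpar h5
      omega
    refine seen_of_barrier (Λ := Λ) hcol he hM hq ?_ hb₁ hb₂ (by omega) (by omega) hparb hconn m1 ?_
      ?_ m2 m3 ?_ ?_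
    · rintro f ((hf | hf) | (hf | hf))
      · exact hF1w f hf
      · exact hF2w f hf
      · exact hFRw f hf
      · exact hSw f hf
    · intro f hf
      obtain ⟨h2, h3, -⟩ := m4 f hf
      have h4 := hy f hf
      have h5 := hK.box f h2
      rw [PlanarA.mem_RF]
      omega
    · intro f hf s' hs'
      obtain ⟨h2, h3, h4⟩ := m4 f hf
      have h5 := hK.box f h2
      rcases hs' with (hs' | hs') | (hs' | hs')
      · have h6 := hF1 s' hs'
        have h7 := hK.ball₁ f h2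
        rw [abs_le, abs_le] at h7
        rw [lt_max_iff, lt_abs, lt_abs]
        omega
      · have h6 := hF2 s' hs'
        have h7 := hK.ball₂ f h2
        rw [abs_le, abs_le] at h7
        rw [lt_max_iff, lt_abs, lt_abs]
        omega
      · have h6 := hFRb s' hs'
        rw [mem_BR] at h4
        simp only at h4
        rw [lt_max_iff, lt_abs, lt_abs]
        omega
      · have h6 := hK.far f h2 s' hs'
        omega
    · rw [mem_BR] at g1
      simp only at g1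
      omega
    · have h6 : f₁.2 = y ∧ f₁.1 = 0 := by
        obtain ⟨h2, h3, -⟩ := g4
        rcases hK.only f₁ h2 with h4 | h4
        · exact absurd h4 h3
        · unfold Adj4 at g3
          simp only at g3
          omega
      refine ⟨h6.1, ?_, ?_⟩ <;> rw [h6.2] <;> omega

end Pool.Agent.Occ

end PartoccZI

section Partperc3T3Fresh

/-!
# T3, row Fresh: a near touch leaves only a neck for the left marks of the leg `i + 1`
-/

set_option autoImplicit false

namespace Pool.Agent.Perc.Q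

open Finset Pool.Agent.Perc Relation

namespace FA

section general

variable {V Φ : Type} {Q : QC V Φ} {ω : Φ → Bool} {F Z : Set Φ} {e : V × V} {f x : Φ} {k : ZMod 4}

theorem Ini.mono {G : Set Φ} (h : Ini Q F e) (hG : G ⊆ F) : Ini Q G e :=
  fun f hf k => h f (hG hf) k

/-- A strand which visits `Z` enters `Z` for the first time. -/
theorem first_entry (h : (Vis Q ω F e ∩ Z).Nonempty) :
    ∃ x ∈ Z, x ∈ F ∧ ∃ k, (Q.c x k, Q.c x (k + 1)) ∈ Orb Q ω (F \ Z) e := by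
  by_contra hcon
  have key : Orb Q ω F e ⊆ Orb Q ω (F \ Z) e := by
    intro a ha
    induction ha with
    | refl => exact mem_Orb_self
    | tail _ hs ih =>
      obtain ⟨f, hf, k, rfl, hs⟩ := hs
      refine Orb_step ih ⟨f, ⟨hf, fun hZ => hcon ⟨f, hZ, hf, k, ih⟩⟩, k, rfl, hs⟩
  obtain ⟨f, ⟨hf, k, hk⟩, hZ⟩ := h
  exact hcon ⟨f, hZ, hf, k, key hk⟩

/-- The strand is not crossed backwards into a face which does not belong to the set. -/
theorem not_back {G : Set Φ} (he : Ini Q F e) (hf : f ∈ F) (hfG : f ∉ G) :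
    (Q.c f (k + 1), Q.c f k) ∉ Orb Q ω G e := by
  intro h
  rcases Orb_pred h with h1 | ⟨b, -, f', hf', k', -, ⟨-, h1⟩ | ⟨-, h1⟩⟩
  · exact he f hf k h1.symm
  · have h4 := Prod.mk.inj h1
    have := (Q.inj (f := f) (k := k) (f' := f') (k' := k' + 1) h4.2
      (by rw [z1]; exact h4.1)).1
    exact hfG (this ▸ hf')
  · have h4 := Prod.mk.inj h1
    have := (Q.inj (f := f) (k := k) (f' := f') (k' := k' + 3) h4.2
      (by rw [z5]; exact h4.1)).1
    exact hfG (this ▸ hf')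

/-- An edge which enters a face outside the set is the last one. -/
theorem ter_of_mem {G : Set Φ} (hfG : f ∉ G) : Ter Q G (Q.c f k, Q.c f (k + 1)) := by
  intro g hg l h
  have := (Q.inj (Prod.mk.inj h).1 (Prod.mk.inj h).2).1
  exact hfG (this ▸ hg)

theorem entry_unique {G : Set Φ} (hx : x ∉ G) (h : (Q.c x k, Q.c x (k + 1)) ∈ Orb Q ω G e)
    {k' : ZMod 4} (hf : f ∉ G) (h' : (Q.c f k', Q.c f (k' + 1)) ∈ Orb Q ω G e) :
    f = x ∧ k' = k := by
  have h1 := ter_unique h' h (ter_of_mem hf) (ter_of_mem hx)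
  exact Q.inj (Prod.mk.inj h1).1 (Prod.mk.inj h1).2

open Classical in
theorem sum_one (k : ZMod 4) : ∑ j : ZMod 4, (if j = k then (1 : ZMod 2) else 0) = 1 := by
  rw [sum_ite_eq' univ k (fun _ => (1 : ZMod 2)), if_pos (mem_univ _)]

/-- The stopped strand does not cross the other faces outside the set. -/
theorem ind_zero {G : Set Φ} (he : Ini Q F e) (hx : x ∉ G)
    (h : (Q.c x k, Q.c x (k + 1)) ∈ Orb Q ω G e) (hf : f ∈ F) (hfG : f ∉ G) (hfx : f ≠ x)
    (j : ZMod 4) : indU Q ω G e (Q.c f j) (Q.c f (j + 1)) = 0 := by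
  unfold indU
  rw [if_neg]
  rintro (h1 | h1)
  · exact hfx (entry_unique hx h hfG h1).1
  · exact not_back he hf hfG h1

open Classical in
/-- The divergence of a stopped strand. -/
theorem div_stopped {G : Set Φ} (hG : G ⊆ F) (he : Ini Q F e) (hx : x ∉ G)
    (h : (Q.c x k, Q.c x (k + 1)) ∈ Orb Q ω G e) (hf : f ∈ F) :
    ∑ j, indU Q ω G e (Q.c f j) (Q.c f (j + 1)) = if f = x then 1 else 0 := by
  by_cases hfG : f ∉ G
  · by_cases hfx : f = x
    · subst hfx
      rw [if_pos rfl, ← sum_one k]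
      refine sum_congr rfl fun j _ => ?_
      unfold indU
      by_cases hj : j = k
      · subst hj
        rw [if_pos (show (Q.c f j, Q.c f (j + 1)) ∈ Un Q ω G e from Or.inl h), if_pos rfl]
      · rw [if_neg hj, if_neg]
        rintro (h1 | h1)
        · exact hj (entry_unique hx h hfG h1).2
        · exact not_back he hf hfG h1
    · rw [if_neg hfx]
      exact sum_eq_zero fun j _ => ind_zero he hx h hf hfG hfx j
  · rw [not_not] at hfG
    have hne : f ≠ x := fun h1 => hx (h1 ▸ hfG)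
    rw [if_neg hne]
    have hmat : Mat Q ω G (indU Q ω G e) := fun g hg k hk =>
      indU_eq (Ini.mono he hG) hg hk
    exact hmat.even (f := f) hfG

/-- The stopped strand is matched at all faces but the last one. -/
theorem mat_stopped {G : Set Φ} (hG : G ⊆ F) (he : Ini Q F e) (hx : x ∉ G)
    (h : (Q.c x k, Q.c x (k + 1)) ∈ Orb Q ω G e) (hf : f ∈ F) (hne : f ≠ x) {j : ZMod 4}
    (hj : ω f = ev j) : indU Q ω G e (Q.c f j) (Q.c f (j + 1)) =
      indU Q ω G e (Q.c f (j + 1)) (Q.c f (j + 2)) := by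
  by_cases hfG : f ∈ G
  · exact indU_eq (Ini.mono he hG) hfG hj
  · have h1 := ind_zero he hx h hf hfG hne (j + 1)
    rw [z1] at h1
    rw [ind_zero he hx h hf hfG hne j, h1]

/-- The bond of a visited face is a mark. -/
theorem bond_mark {G : Set Φ} (hf : f ∈ Vis Q ω G e) (hk : ω f = ev k) :
    (∃ a ∈ Orb Q ω G e, a.1 = Q.c f k ∨ a.1 = Q.c f (k + 2)) ∨
      (∃ a ∈ Orb Q ω G e, a.2 = Q.c f k ∨ a.2 = Q.c f (k + 2)) := by
  obtain ⟨-, j, hj⟩ := hf
  rcases z4_cases j k with rfl | rfl | rfl | rfl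
  · exact Or.inl ⟨_, hj, Or.inl rfl⟩
  · refine Or.inr ⟨_, hj, Or.inr ?_⟩
    rw [z1]
  · exact Or.inl ⟨_, hj, Or.inr rfl⟩
  · refine Or.inr ⟨_, hj, Or.inl ?_⟩
    rw [z5]

end general

/-! ### The neck -/

theorem adj_dT {f g : ℤ × ℤ} (h : AdjQ TQ f g) : dT g f ≤ 1 := by
  obtain ⟨k, l, h1, h2⟩ := h
  obtain ⟨x, y⟩ := f
  obtain ⟨x', y'⟩ := g
  have hc : ∀ g l, TQ.c g l = corT emP g l := fun _ _ => rfl
  rw [hc, hc] at h1 h2
  unfold dT
  rw [max_le_iff, abs_le, abs_le]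
  obtain ⟨a0, a1, a2, a3⟩ := corT_eq emP x y
  obtain ⟨b0, b1, b2, b3⟩ := corT_eq emP x' y'
  have e0 : ∀ l, emP l = if 0 ≤ l then l else l - 1 := fun _ => rfl
  by_cases hy : y = -1
  · obtain ⟨a4, a5⟩ := a3 hy
    by_cases hy' : y' = -1
    · obtain ⟨b4, b5⟩ := b3 hy'
      rcases k4_cases k with rfl | rfl | rfl | rfl <;>
        rcases k4_cases l with rfl | rfl | rfl | rfl <;>
        simp only [k01, k11, k21, k31, a0, a1, a4, a5, b0, b1, b4, b5, Prod.mk.injEq, e0]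
          at h1 h2 ⊢ <;> (try split_ifs at h1 h2) <;> omega
    · obtain ⟨b4, b5⟩ := b2 hy'
      rcases k4_cases k with rfl | rfl | rfl | rfl <;>
        rcases k4_cases l with rfl | rfl | rfl | rfl <;>
        simp only [k01, k11, k21, k31, a0, a1, a4, a5, b0, b1, b4, b5, Prod.mk.injEq, e0]
          at h1 h2 ⊢ <;> (try split_ifs at h1 h2) <;> omega
  · obtain ⟨a4, a5⟩ := a2 hy
    by_cases hy' : y' = -1
    · obtain ⟨b4, b5⟩ := b3 hy'
      rcases k4_cases k with rfl | rfl | rfl | rfl <;>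
        rcases k4_cases l with rfl | rfl | rfl | rfl <;>
        simp only [k01, k11, k21, k31, a0, a1, a4, a5, b0, b1, b4, b5, Prod.mk.injEq, e0]
          at h1 h2 ⊢ <;> (try split_ifs at h1 h2) <;> omega
    · obtain ⟨b4, b5⟩ := b2 hy'
      rcases k4_cases k with rfl | rfl | rfl | rfl <;>
        rcases k4_cases l with rfl | rfl | rfl | rfl <;>
        simp only [k01, k11, k21, k31, a0, a1, a4, a5, b0, b1, b4, b5, Prod.mk.injEq]
          at h1 h2 ⊢ <;> omega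

theorem corner_dT (f : ℤ × ℤ) (k : ZMod 4) : dT (TQ.c f k) f ≤ 1 := by
  obtain ⟨x, y⟩ := f
  have hc : ∀ g l, TQ.c g l = corT emP g l := fun _ _ => rfl
  rw [hc]
  unfold dT
  rw [max_le_iff, abs_le, abs_le]
  obtain ⟨a0, a1, a2, a3⟩ := corT_eq emP x y
  have e0 : ∀ l, emP l = if 0 ≤ l then l else l - 1 := fun _ => rfl
  by_cases hy : y = -1
  · obtain ⟨a4, a5⟩ := a3 hy
    rcases k4_cases k with rfl | rfl | rfl | rfl <;> simp only [a0, a1, a4, a5, e0] <;>
      (try split_ifs) <;> omega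
  · obtain ⟨a4, a5⟩ := a2 hy
    rcases k4_cases k with rfl | rfl | rfl | rfl <;> simp only [a0, a1, a4, a5] <;> omega

theorem dT_tri (u v x : ℤ × ℤ) : dT u x ≤ dT u v + dT v x := by
  unfold dT
  rw [max_le_iff]
  have h1 := abs_sub_le u.1 v.1 x.1
  have h2 := abs_sub_le u.2 v.2 x.2
  have h3 := le_max_left |u.1 - v.1| |u.2 - v.2|
  have h4 := le_max_right |u.1 - v.1| |u.2 - v.2|
  have h5 := le_max_left |v.1 - x.1| |v.2 - x.2|
  have h6 := le_max_right |v.1 - x.1| |v.2 - x.2|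
  constructor <;> omega

theorem dT_self (u : ℤ × ℤ) : dT u u = 0 := by
  unfold dT
  simp

theorem Zn_mono {V Φ : Type} {Q : QC V Φ} {X A B : Set Φ} : ∀ r : ℕ,
    Zn Q X A B r ⊆ Zn Q X A B (r + 1) := by
  intro r
  induction r with
  | zero => intro f hf; exact absurd hf (by simp [Zn])
  | succ r ih =>
    rintro f ⟨h1, h2, g, hg, h3 | h3⟩
    · exact ⟨h1, h2, g, hg, Or.inl h3⟩
    · exact ⟨h1, h2, g, hg, Or.inr (ih h3)⟩

theorem Zn_sub {V Φ : Type} {Q : QC V Φ} {X A B : Set Φ} (r : ℕ) {f : Φ}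
    (h : f ∈ Zn Q X A B r) : f ∈ X ∧ f ∉ A := by
  cases r with
  | zero => exact absurd h (by simp [Zn])
  | succ r => exact ⟨h.1, h.2.1⟩

open Classical in
/-- The indicator of one directed edge. -/
noncomputable def dl (a : (ℤ × ℤ) × (ℤ × ℤ)) (p q : ℤ × ℤ) : ZMod 2 := if (p, q) = a then 1 else 0

open Classical in
theorem sum_dl (g : ℤ × ℤ) (l : ZMod 4) (f : ℤ × ℤ) :
    ∑ j, dl (TQ.c g l, TQ.c g (l + 1)) (TQ.c f j) (TQ.c f (j + 1)) = if f = g then 1 else 0 := by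
  by_cases h : f = g
  · subst h
    rw [if_pos rfl, ← sum_one l]
    refine sum_congr rfl fun j _ => ?_
    unfold dl
    by_cases hj : j = l
    · subst hj
      rw [if_pos rfl, if_pos rfl]
    · rw [if_neg hj, if_neg]
      intro h1
      exact hj (TQ.inj (Prod.mk.inj h1).1 (Prod.mk.inj h1).2).2
  · rw [if_neg h]
    refine sum_eq_zero fun j _ => ?_
    unfold dl
    rw [if_neg]
    intro h1
    exact h (TQ.inj (Prod.mk.inj h1).1 (Prod.mk.inj h1).2).1

theorem z2_four (a b c : ZMod 2) : a + b + (b + c) = a + c := by revert a b c; decide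

open Classical in
/-- The neck: a cochain with divergence at the ends of the chain. -/
theorem neck {X A B : Set (ℤ × ℤ)} : ∀ (r : ℕ) (x : ℤ × ℤ), x ∈ Zn TQ X A B r →
    ∃ y ∈ B, ∃ (N : Set (ℤ × ℤ)) (ν : ℤ × ℤ → ℤ × ℤ → ZMod 2), x ∈ N ∧ y ∈ N ∧
      (∀ p q, ν p q = ν q p) ∧ (∀ f ∈ N, f ∈ Zn TQ X A B r ∨ f = y) ∧
      (∀ f ∈ N, dT f x ≤ r) ∧
      (∀ p q, (∀ f ∈ N, ∀ j, (p, q) ≠ (TQ.c f j, TQ.c f (j + 1))) → ν p q = 0) ∧
      ∀ f, ∑ j, ν (TQ.c f j) (TQ.c f (j + 1)) =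
        (if f = x then 1 else 0) + if f = y then 1 else 0 := by
  intro r
  induction r with
  | zero => intro x hx; exact absurd hx (by simp [Zn])
  | succ r ih =>
    rintro x ⟨hX, hA, g, hadj, hg⟩
    obtain ⟨k, l, h1, h2⟩ := hadj
    have hdist : dT g x ≤ 1 := adj_dT ⟨k, l, h1, h2⟩
    -- the two directed edges of the common side
    set a : (ℤ × ℤ) × (ℤ × ℤ) := (TQ.c x k, TQ.c x (k + 1)) with ha
    set b : (ℤ × ℤ) × (ℤ × ℤ) := (TQ.c g l, TQ.c g (l + 1)) with hb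
    have hab : b = a.swap := by rw [ha, hb, h1, h2]; rfl
    have hsw : ∀ p q, dl a p q + dl b p q = dl a q p + dl b q p := by
      intro p q
      have e1 : ∀ p q, dl b p q = dl a q p := by
        intro p q
        unfold dl
        rw [hab]
        have : ((p, q) = a.swap) ↔ ((q, p) = a) := by
          constructor
          · intro h; rw [← Prod.swap_swap a, ← h]; rfl
          · intro h; rw [← h]; rfl
        simp only [this]
      rw [e1, e1]
      exact add_comm _ _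
    have hxx : x ∈ Zn TQ X A B (r + 1) := ⟨hX, hA, g, ⟨k, l, h1, h2⟩, hg⟩
    have hsum : ∀ f, ∑ j, (dl a (TQ.c f j) (TQ.c f (j + 1)) + dl b (TQ.c f j) (TQ.c f (j + 1))) =
        (if f = x then 1 else 0) + if f = g then 1 else 0 := by
      intro f
      rw [sum_add_distrib, ha, hb, sum_dl, sum_dl]
    rcases hg with hg | hg
    · refine ⟨g, hg, {x, g}, fun p q => dl a p q + dl b p q, by simp, by simp, hsw, ?_, ?_, ?_,
        hsum⟩
      · rintro f (rfl | rfl)
        · exact Or.inl hxx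
        · exact Or.inr rfl
      · rintro f (rfl | rfl)
        · rw [dT_self]; positivity
        · push_cast; omega
      · intro p q h
        change dl a p q + dl b p q = 0
        have e1 : dl a p q = 0 := if_neg (h x (by simp) k)
        have e2 : dl b p q = 0 := if_neg (h g (by simp) l)
        rw [e1, e2, add_zero]
    · obtain ⟨y, hy, N, ν, n1, n2, n3, n4, n5, n7, n8⟩ := ih g hg
      refine ⟨y, hy, insert x N, fun p q => dl a p q + dl b p q + ν p q, by simp,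
        Set.mem_insert_of_mem _ n2, ?_, ?_, ?_, ?_, ?_⟩
      · intro p q
        change dl a p q + dl b p q + ν p q = dl a q p + dl b q p + ν q p
        rw [hsw, n3 p q]
      · rintro f (rfl | hf)
        · exact Or.inl hxx
        · rcases n4 f hf with h | h
          · exact Or.inl (Zn_mono r h)
          · exact Or.inr h
      · rintro f (rfl | hf)
        · rw [dT_self]; positivity
        · have h3 := dT_tri f g x
          have h4 := n5 f hf
          push_cast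
          omega
      · intro p q h
        change dl a p q + dl b p q + ν p q = 0
        have e1 : dl a p q = 0 := if_neg (h x (by simp) k)
        have e2 : dl b p q = 0 := if_neg (h g (Set.mem_insert_of_mem _ n1) l)
        rw [e1, e2, add_zero, zero_add, n7 p q fun f hf j => h f (Set.mem_insert_of_mem _ hf) j]
      · intro f
        change ∑ j, (dl a (TQ.c f j) (TQ.c f (j + 1)) + dl b (TQ.c f j) (TQ.c f (j + 1)) +
          ν (TQ.c f j) (TQ.c f (j + 1))) = _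
        rw [sum_add_distrib, hsum, n8]
        exact z2_four _ _ _

/-! ### The legs -/

theorem cast_succ (i : Fin 3) :
    bd 0 (((i + 1 : Fin 3) : ℕ) : ℤ) = bd 0 (((i : ℕ) : ℤ) + 1) := by
  have h := bd_last (r := 0) le_rfl
  fin_cases i
  · rfl
  · rfl
  · exact h.symm

theorem exists_sec {W : ℤ} {ω : Cfg} (hW : 0 < W) (hL : Lea3 W ω) :
    ∃ (sec : ℤ × ℤ → Fin 3) (kap : ℤ × ℤ → ZMod 2),
      IsSec TQ ω (An 0 W) leg (fun j => j) (fun j => j + 2) sec kap := by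
  obtain ⟨sec, kap, H⟩ := secOut (d := 0) (w := W) (ω := ω) le_rfl hW alt_core hL
  exact ⟨sec, kap, H⟩

theorem ine_of_lt (i : Fin 3) : (0 : ℤ) ≤ ((i : ℕ) : ℤ) ∧ ((i : ℕ) : ℤ) < 8 * 0 + 3 := by
  have := i.2
  omega

/-- The core edges in a stopped strand. -/
theorem core_stopped {W : ℤ} {ω : Cfg} (hW : 0 < W) {G : Set (ℤ × ℤ)} (hG : G ⊆ An 0 W)
    {x : ℤ × ℤ} {k : ZMod 4} {i : Fin 3} (hxF : x ∈ An 0 W) (hxG : x ∉ G)
    (h : (TQ.c x k, TQ.c x (k + 1)) ∈ Orb TQ ω G (leg i)) {t : ℤ} (h0 : 0 ≤ t)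
    (h1 : t < 8 * 0 + 3) : indU TQ ω G (leg i) (bd 0 t) (bd 0 (t + 1)) =
      if t = ((i : ℕ) : ℤ) then 1 else 0 := by
  unfold indU
  by_cases ht : t = ((i : ℕ) : ℤ)
  · rw [if_pos ht]
    subst ht
    exact if_pos (show (bd 0 ((i : ℕ) : ℤ), bd 0 (((i : ℕ) : ℤ) + 1)) ∈
      Un TQ ω G (leg i) from Or.inr mem_Orb_self)
  · rw [if_neg ht, if_neg]
    rintro (h2 | h2)
    · have h3 : Ter TQ (An 0 W) (ine 0 t) := by
        have := (ini_inner (d := 0) (w := W) le_rfl hW h0 h1).ter_swap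
        rwa [Prod.swap_swap] at this
      have h4 : Ter TQ G (ine 0 t) := fun f hf => h3 f (hG hf)
      have h5 := ter_unique h2 h h4 (ter_of_mem hxG)
      exact h3 x hxF k h5
    · have h3 : Ini TQ G (ine 0 t).swap :=
        Ini.mono (ini_inner (d := 0) (w := W) le_rfl hW h0 h1) hG
      have h4 : (ine 0 t).swap = leg i := eq_of_ini h2 h3
      exact ht (ine_inj le_rfl h0 h1 (ine_of_lt i).1 (ine_of_lt i).2 (Prod.swap_injective h4))

/-- The sectors of the bond of a visited face. -/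
theorem bond_sec {F : Set (ℤ × ℤ)} {ω : Cfg} {sec : ℤ × ℤ → Fin 3} {kap : ℤ × ℤ → ZMod 2}
    (H : IsSec TQ ω F leg (fun j => j) (fun j => j + 2) sec kap) {j : Fin 3} {f : ℤ × ℤ}
    {k : ZMod 4} (hf : f ∈ Vis TQ ω F (leg j)) (hk : ω f = ev k) :
    sec (TQ.c f k) = j ∨ sec (TQ.c f k) = j + 2 := by
  have h2 := (H.bond_eq hf.1 hk).1
  rcases bond_mark hf hk with ⟨a, ha, h | h⟩ | ⟨a, ha, h | h⟩
  · left; rw [← h]; exact (H.left j a ha).1
  · left; rw [h2, ← h]; exact (H.left j a ha).1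
  · right; rw [← h]; exact (H.right j a ha).1
  · right; rw [h2, ← h]; exact (H.right j a ha).1

end FA

/-- If the three legs reach the boundary of the box of radius `W` and the leg `i + 1` comes close to
the right side of the leg `i` at the face `x` in the box of radius `w`, there is a path of
unexplored faces from the neighbourhood of `x` to the boundary of the box of radius `W`. -/
theorem fresh_arm {r : ℕ} {d w W : ℤ} (hd : 0 < d) (hdw : d < w) (hwW : w < W) {i : Fin 3}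
    {ω : Cfg} (hL : Lea3 W ω) (hLw : Lea3 w ω) (hN : ω ∈ NT r d w w i) :
    ∃ x k y t, x ∈ ZT r d w w ω i ∧
      (TQ.c x k, TQ.c x (k + 1)) ∈ Orb TQ ω (An 0 w \ ZT r d w w ω i) (leg (i + 1)) ∧
      dT y x ≤ r + 2 ∧ (0 ≤ t ∧ t < 8 * W + 3) ∧
      ConnQ TQ ω (An 0 W \ ET r d w w ω i) y (bd W t) := by
  classical
  have hW : 0 < W := by omega
  obtain ⟨sec, kap, H⟩ := FA.exists_sec hW hL
  have hsub0 : An 0 w ⊆ An 0 W := fun f hf => ⟨BW_mono (by omega) hf.1, hf.2⟩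
  have hsubw : An d w ⊆ An 0 w := by
    rintro f ⟨hf1, -⟩
    refine ⟨hf1, ?_⟩
    intro h
    rw [mem_coe, Perc3.mem_BW] at h
    omega
  have hsubF : An d w ⊆ An 0 W := hsubw.trans hsub0
  obtain ⟨x, hxZ, hxF', k, hk⟩ := FA.first_entry (Q := TQ) (ω := ω) (F := An 0 w)
    (Z := ZT r d w w ω i) (e := leg (i + 1)) hN
  have hxF : x ∈ An 0 W := hsub0 hxF'
  obtain ⟨y, ⟨hyR, hyA⟩, N, ν, n1, n2, n3, n4, n5, n7, n8⟩ := FA.neck r x hxZ
  have hyF : y ∈ An 0 W := hsubF hyA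
  obtain ⟨ky, hky⟩ : ∃ ky, (TQ.c y ky, TQ.c y (ky + 1)) ∈ Orb TQ ω (An 0 w \ {y}) (leg i) := by
    obtain ⟨y', hy', -, ky, hky⟩ := FA.first_entry (Q := TQ) (ω := ω) (F := An 0 w)
      (Z := {y}) (e := leg i) ⟨y, ⟨hsubw hyA, hyR.2.choose, hyR.2.choose_spec.1⟩, rfl⟩
    rw [Set.mem_singleton_iff] at hy'
    subst hy'
    exact ⟨ky, hky⟩
  have hia : Ini TQ (An 0 W) (leg i) := H.ini i
  have hib : Ini TQ (An 0 W) (leg (i + 1)) := H.ini (i + 1)
  -- the two sets in which the legs are explored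
  set Ga : Set (ℤ × ℤ) := An 0 w \ {y} with hGa
  set Gb : Set (ℤ × ℤ) := An 0 w \ ZT r d w w ω i with hGb
  have hGa1 : Ga ⊆ An 0 W := Set.sdiff_subset.trans hsub0
  have hGb1 : Gb ⊆ An 0 W := Set.sdiff_subset.trans hsub0
  have hya : y ∉ Ga := fun h => h.2 rfl
  have hxb : x ∉ Gb := fun h => h.2 hxZ
  -- the faces of the neck
  have hNZ : ∀ f ∈ N, f ≠ y → f ∈ ZT r d w w ω i := fun f hf hne => (n4 f hf).resolve_right hne
  have hZA : ∀ f ∈ ZT r d w w ω i, f ∈ An d w ∧ f ∉ VT w ω i := fun f hf => FA.Zn_sub r hf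
  have hNd : ∀ f ∈ N, f ∈ An d w := fun f hf => by
    by_cases h : f = y
    · rw [h]; exact hyA
    · exact (hZA f (hNZ f hf h)).1
  have hν0 : ∀ f, f ∉ N → ∀ j, ν (TQ.c f j) (TQ.c f (j + 1)) = 0 := by
    intro f hf j
    refine n7 _ _ fun g hg l h => hf ?_
    rw [(TQ.inj (Prod.mk.inj h).1 (Prod.mk.inj h).2).1]
    exact hg
  set m : ℤ × ℤ → ℤ × ℤ → ZMod 2 := fun p q =>
    indU TQ ω Gb (leg (i + 1)) p q + ν p q + indU TQ ω Ga (leg i) p q with hm
  have hmsymm : ∀ p q, m p q = m q p := by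
    intro p q
    change indU TQ ω _ _ p q + ν p q + indU TQ ω _ _ p q =
      indU TQ ω _ _ q p + ν q p + indU TQ ω _ _ q p
    rw [indU_symm TQ ω Gb (leg (i + 1)) p q, n3 p q, indU_symm TQ ω Ga (leg i) p q]
  -- the potential
  obtain ⟨χ, hχ⟩ : ∃ χ, PotQ TQ (An 0 W) m χ := by
    refine exists_pot_inner (d := 0) (w := W) le_rfl hW hmsymm (fun f hf => ?_) ?_
    · have e1 := FA.div_stopped hGb1 hib hxb hk (f := f) hf
      have e2 := FA.div_stopped hGa1 hia hya hky (f := f) hf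
      have e3 := n8 f
      change ∑ j, (indU TQ ω _ _ (TQ.c f j) (TQ.c f (j + 1)) + ν (TQ.c f j) (TQ.c f (j + 1)) +
        indU TQ ω _ _ (TQ.c f j) (TQ.c f (j + 1))) = 0
      rw [sum_add_distrib, sum_add_distrib, e1, e2, e3]
      clear * -
      split_ifs <;> decide
    · have e1 : ∀ t ∈ Ico (0 : ℤ) (8 * 0 + 3), m (bd 0 t) (bd 0 (t + 1)) =
          (if t = (((i + 1 : Fin 3) : ℕ) : ℤ) then 1 else 0) +
            if t = ((i : ℕ) : ℤ) then 1 else 0 := by
        intro t ht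
        rw [mem_Ico] at ht
        change indU TQ ω _ _ (bd 0 t) (bd 0 (t + 1)) + ν (bd 0 t) (bd 0 (t + 1)) +
          indU TQ ω _ _ (bd 0 t) (bd 0 (t + 1)) = _
        rw [FA.core_stopped hW hGb1 hxF hxb hk ht.1 ht.2,
          FA.core_stopped hW hGa1 hyF hya hky ht.1 ht.2,
          n7 (bd 0 t) (bd 0 (t + 1)) ?_, add_zero]
        intro f hf j h
        have h3 := (ini_inner (d := 0) (w := W) le_rfl hW ht.1 ht.2).ter_swap
        rw [Prod.swap_swap] at h3
        exact h3 f (hsubF (hNd f hf)) j h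
      rw [sum_congr rfl e1, sum_add_distrib, sum_ite_Ico (FA.ine_of_lt _).1 (FA.ine_of_lt _).2,
        sum_ite_Ico (FA.ine_of_lt _).1 (FA.ine_of_lt _).2]
      decide
  -- the cochain vanishes outside the box of radius `w`
  have hmz : ∀ f ∈ An 0 W, f ∉ BW w → ∀ j, m (TQ.c f j) (TQ.c f (j + 1)) = 0 := by
    intro f hf hfw j
    have hfx : f ≠ x := fun h => hfw (h ▸ hxF'.1)
    have hfy : f ≠ y := fun h => hfw (h ▸ hyA.1)
    have e1 := FA.ind_zero hib hxb hk hf (fun h => hfw h.1.1) hfx j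
    have e2 := FA.ind_zero hia hya hky hf (fun h => hfw h.1.1) hfy j
    have e3 := hν0 f (fun h => hfw (hNd f h).1) j
    change indU TQ ω _ _ _ _ + ν _ _ + indU TQ ω _ _ _ _ = 0
    rw [e1, e2, e3]
    decide
  have hχz : ∀ f ∈ An 0 W, f ∉ BW w → ∀ j, χ (TQ.c f j) = χ (TQ.c f (j + 1)) := by
    intro f hf hfw j
    have h1 := hχ f hf j
    rw [hmz f hf hfw j] at h1
    exact z2_eq h1
  have hw0 : 0 < w := by omega
  have hz0 : ∀ f : ℤ × ℤ, f ∉ (BW 0 : Set (ℤ × ℤ)) := by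
    intro f h
    rw [mem_coe, Perc3.mem_BW] at h
    omega
  -- constant on the two boundaries
  have houtw : ∀ t, 0 ≤ t → t ≤ 8 * w + 3 → χ (bd w t) = χ (bd w 0) := by
    intro t h0
    induction t, h0 using Int.leInduction with
    | base => intro _; rfl
    | succ t ht ih =>
      intro h1
      rw [← ih (by omega)]
      obtain ⟨f, hf, hf', l, hl⟩ := ine_opp (r := w) hw0.le ht (by omega)
      have h2 := hχz f ⟨BW_mono (by omega) hf, hz0 f⟩ hf' l
      have h3 := Prod.mk.inj hl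
      rw [← h3.1, ← h3.2] at h2
      exact h2
  have hrow : ∀ a, w ≤ a → a ≤ W → χ (a, 0) = χ (w, 0) := by
    intro a ha
    induction a, ha using Int.leInduction with
    | base => intro _; rfl
    | succ a ha ih =>
      intro h1
      rw [← ih (by omega)]
      have hf : ((a, 0) : ℤ × ℤ) ∈ An 0 W := by
        refine ⟨?_, hz0 _⟩
        rw [mem_coe, Perc3.mem_BW]
        simp only
        omega
      have h2 := hχz (a, 0) hf (by rw [Perc3.mem_BW]; simp only; omega) 0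
      obtain ⟨c0, c1, -, -⟩ := corT_eq emP a 0
      have hc : ∀ g l, TQ.c g l = corT emP g l := fun _ _ => rfl
      rw [hc, hc, k01, c0, c1] at h2
      exact h2.symm
  have hbd0 : ∀ a : ℤ, 0 ≤ a → bd a 0 = (a, 0) := by
    intro a ha
    unfold bd
    rw [if_pos ha]
  have houtW : ∀ t, 0 ≤ t → t ≤ 8 * W + 3 → χ (bd W t) = χ (bd W 0) := by
    intro t h0
    induction t, h0 using Int.leInduction with
    | base => intro _; rfl
    | succ t ht ih =>
      intro h1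
      rw [← ih (by omega)]
      obtain ⟨f, hf, hf', l, hl⟩ := ine_face (r := W) hW ht (by omega)
      have h2 := hχz f ⟨hf, hz0 f⟩ (fun h => hf' (BW_mono (by omega) h)) l
      have h3 := Prod.mk.inj hl
      rw [← h3.1, ← h3.2] at h2
      exact h2.symm
  have hwW0 : χ (bd w 0) = χ (bd W 0) := by
    rw [hbd0 w hw0.le, hbd0 W hW.le]
    exact (hrow W (by omega) le_rfl).symm
  -- bonds outside the neck
  have hbond : ∀ f ∈ An 0 W, f ∉ N → ∀ j, ω f = ev j → χ (TQ.c f j) = χ (TQ.c f (j + 2)) := by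
    intro f hf hfN j hj
    have h1 := hχ f hf j
    have h2 := hχ f hf (j + 1)
    rw [z1] at h2
    have h3 : m (TQ.c f j) (TQ.c f (j + 1)) = m (TQ.c f (j + 1)) (TQ.c f (j + 2)) := by
      have e1 := FA.mat_stopped hGb1 hib hxb hk hf (fun h => hfN (h ▸ n1)) hj
      have e2 := FA.mat_stopped hGa1 hia hya hky hf (fun h => hfN (h ▸ n2)) hj
      have e3 := hν0 f hfN (j + 1)
      rw [z1] at e3
      change indU TQ ω _ _ _ _ + ν _ _ + indU TQ ω _ _ _ _ =
        indU TQ ω _ _ _ _ + ν _ _ + indU TQ ω _ _ _ _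
      rw [e1, e2, e3, hν0 f hfN j]
    rw [h3, ← h2] at h1
    generalize χ (TQ.c f j) = a at h1 ⊢
    generalize χ (TQ.c f (j + 1)) = b at h1
    generalize χ (TQ.c f (j + 2)) = c at h1 ⊢
    revert a b c
    decide
  -- the bond of `y`
  have hysec : ∀ j, ω y = ev j → sec (TQ.c y j) = i + 2 := by
    intro j hj
    obtain ⟨-, l, hl, hl2⟩ := hyR
    have h1 : sec (TQ.c y (l + 1)) = i + 2 := (H.right i _ (Orb_mono hsub0 hl)).1
    have h2 : ω y = ev (l + 1) := by rw [ev_add_one]; exact hl2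
    have h3 := (H.bond_eq hyF h2).1
    rw [h2] at hj
    have h4 : j = l + 1 ∨ j = l + 1 + 2 := by
      revert hj
      clear * -
      revert j l
      decide
    rcases h4 with rfl | rfl
    · exact h1
    · rw [← h3, h1]
  -- the left marks of the leg `i`
  have hleft : ∀ v, ConnQ TQ ω (VT w ω i) (leg i).1 v → χ v = χ (leg i).1 ∧ sec v = i := by
    intro v hv
    induction hv with
    | refl => exact ⟨rfl, (H.left i _ mem_Orb_self).1⟩
    | tail _ hb ih =>
      obtain ⟨f, hf, j, hj, h1, h2⟩ := hb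
      have hfF : f ∈ An 0 W := hsub0 hf.1
      have h3 := H.bond_eq hfF hj
      have h4 : sec (TQ.c f j) = i := by rw [← h1]; exact ih.2
      have hfN : f ∉ N := by
        intro hN'
        by_cases h : f = y
        · subst h
          have := hysec j hj
          rw [h4] at this
          revert this
          clear * -
          revert i
          decide
        · exact (hZA f (hNZ f hN' h)).2 hf
      refine ⟨?_, ?_⟩
      · rw [h2, ← hbond f hfF hfN j hj, ← h1]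
        exact ih.1
      · rw [h2, ← h3.1, h4]
  have hinf : χ (leg i).1 = χ (bd W 0) := by
    obtain ⟨s, hs0, hs1, hs⟩ := hLw i
    have h1 := (marks hs).1
    have h2 := (hleft _ h1).1
    rw [← h2, ← hwW0]
    exact houtw (s + 1) (by omega) (by omega)
  -- the left marks of the leg `i + 1`
  have hstart : χ (leg (i + 1)).1 ≠ χ (bd W 0) := by
    have h1 := pot_inner (d := 0) le_rfl hW (m := m) hmsymm hχ (FA.ine_of_lt (i + 1)).1
      (FA.ine_of_lt (i + 1)).2
    have h2 : m (bd 0 (((i + 1 : Fin 3) : ℕ) : ℤ)) (bd 0 ((((i + 1 : Fin 3) : ℕ) : ℤ) + 1)) =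
        1 := by
      change indU TQ ω _ _ _ _ + ν _ _ + indU TQ ω _ _ _ _ = 1
      rw [FA.core_stopped hW hGb1 hxF hxb hk (FA.ine_of_lt _).1 (FA.ine_of_lt _).2,
        FA.core_stopped hW hGa1 hyF hya hky (FA.ine_of_lt _).1 (FA.ine_of_lt _).2,
        n7 _ _ ?_, if_pos rfl, if_neg ?_, add_zero, add_zero]
      · fin_cases i <;> decide
      · intro f hf j h
        have h3 := (ini_inner (d := 0) (w := W) le_rfl hW (FA.ine_of_lt (i + 1)).1
          (FA.ine_of_lt (i + 1)).2).ter_swap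
        rw [Prod.swap_swap] at h3
        exact h3 f (hsubF (hNd f hf)) j h
    rw [h2, FA.cast_succ] at h1
    have h3 : χ (bd 0 (((i : ℕ) : ℤ) + 1)) = χ (bd W 0) := hinf
    rw [h3] at h1
    intro h4
    have h5 : χ (bd 0 ((((i + 1 : Fin 3) : ℕ) : ℤ) + 1)) = χ (bd W 0) := h4
    rw [h5] at h1
    generalize χ (bd W 0) = a at h1
    revert a
    decide
  -- no face of the neck is visited by the stopped leg
  have hyB : y ∉ Vis TQ ω (An 0 W) (leg (i + 1)) := by
    intro hyV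
    obtain ⟨j, hj⟩ : ∃ j, ω y = ev j := by
      cases h : ω y
      · exact ⟨1, by decide⟩
      · exact ⟨0, by decide⟩
    have h1 := FA.bond_sec H hyV hj
    rw [hysec j hj] at h1
    revert h1
    clear * -
    revert i
    decide
  have hNB : ∀ f ∈ Vis TQ ω Gb (leg (i + 1)), f ∉ N := by
    intro f hf hfN
    by_cases h : f = y
    · subst h
      exact hyB (Vis_mono hGb1 hf)
    · exact hf.1.2 (hNZ f hfN h)
  have hpast : ∀ v, ConnQ TQ ω (Vis TQ ω Gb (leg (i + 1))) (leg (i + 1)).1 v →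
      χ v = χ (leg (i + 1)).1 := by
    intro v hv
    induction hv with
    | refl => rfl
    | tail _ hb ih =>
      obtain ⟨f, hf, j, hj, h1, h2⟩ := hb
      rw [h2, ← hbond f (hGb1 hf.1) (hNB f hf) j hj, ← h1]
      exact ih
  -- the path
  obtain ⟨s, hs0, hs1, hs⟩ := hL (i + 1)
  have hpath := (marks hs).1
  have hend : χ ((ine W s).swap).1 = χ (bd W 0) := houtW (s + 1) (by omega) (by omega)
  have key : ∀ u, ConnQ TQ ω (Vis TQ ω (An 0 W) (leg (i + 1))) u ((ine W s).swap).1 →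
      sec u = i + 1 →
      (χ u = χ (bd W 0) ∧ ConnQ TQ ω (An 0 W \ ET r d w w ω i) u ((ine W s).swap).1) ∨
      ∃ z, dT z x ≤ r + 2 ∧ ConnQ TQ ω (An 0 W \ ET r d w w ω i) z ((ine W s).swap).1 := by
    intro u hu
    induction hu using ReflTransGen.head_induction_on with
    | refl => intro _; exact Or.inl ⟨hend, ReflTransGen.refl⟩
    | head hb hc ih =>
      rename_i u u'
      intro hsu
      obtain ⟨f, hf, j, hj, h1, h2⟩ := hb
      have hfF : f ∈ An 0 W := hf.1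
      have h3 := H.bond_eq hfF hj
      have hsf : sec (TQ.c f j) = i + 1 := by rw [← h1]; exact hsu
      rcases ih (by rw [h2, ← h3.1]; exact hsf) with ⟨h4, h5⟩ | h4
      · by_cases hfN : f ∈ N
        · refine Or.inr ⟨u', ?_, h5⟩
          have h6 := FA.dT_tri u' f x
          have h7 := n5 f hfN
          have h8 := FA.corner_dT f (j + 2)
          rw [← h2] at h8
          omega
        · refine Or.inl ⟨?_, ReflTransGen.head ⟨f, ⟨hfF, ?_⟩, j, hj, h1, h2⟩ h5⟩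
          · rw [h1, hbond f hfF hfN j hj, ← h2, h4]
          · have hχf : χ (TQ.c f j) = χ (bd W 0) := by
              rw [hbond f hfF hfN j hj, ← h2, h4]
            rintro (hfA | hfB)
            · have h6 := FA.bond_sec H (j := i) (Vis_mono hsub0 hfA) hj
              rw [hsf] at h6
              revert h6
              clear * -
              revert i
              decide
            · rcases FA.bond_mark hfB hj with ⟨a, ha, h6⟩ | ⟨a, ha, h6⟩
              · have h7 := hpast a.1 (marks ha).1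
                apply hstart
                rw [← h7]
                rcases h6 with h6 | h6
                · rw [h6, hχf]
                · rw [h6, ← hbond f hfF hfN j hj, hχf]
              · have h7 := (H.right (i + 1) a (Orb_mono hGb1 ha)).1
                have h8 : sec a.2 = i + 1 := by
                  rcases h6 with h6 | h6
                  · rw [h6, hsf]
                  · rw [h6, ← h3.1, hsf]
                rw [h8] at h7
                revert h7
                clear * -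
                revert i
                decide
      · exact Or.inr h4
  rcases key _ hpath (H.left (i + 1) _ mem_Orb_self).1 with ⟨h, -⟩ | ⟨z, hz1, hz2⟩
  · exact absurd h hstart
  · rcases eq_or_lt_of_le (show s + 1 ≤ 8 * W + 3 by omega) with h | h
    · refine ⟨x, k, z, 0, hxZ, hk, hz1, ⟨le_rfl, by omega⟩, ?_⟩
      have h1 : ((ine W s).swap).1 = bd W 0 := by
        change bd W (s + 1) = bd W 0
        rw [h, bd_last hW.le]
      rw [← h1]
      exact hz2
    · exact ⟨x, k, z, s + 1, hxZ, hk, hz1, ⟨by omega, h⟩, hz2⟩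

end Pool.Agent.Perc.Q

end Partperc3T3Fresh

section Partperc3T3Prob

/-!
# T3, row Prob: the probability of a near touch
-/

set_option autoImplicit false

namespace Pool.Agent.Perc.Q

open Finset Pool.Agent.Perc Relation Pool.Agent.PercT BdAux

/-- Everything is determined by the explored faces. -/
theorem VT_congr {W : ℤ} {i : Fin 3} {ω ω' : Cfg} (h : ∀ f ∈ VT W ω i, ω f = ω' f) :
    VT W ω' i = VT W ω i := Vis_congr h

theorem VR_congr {V Φ : Type} {Q : QC V Φ} {ω ω' : Φ → Bool} {F : Set Φ} {e : V × V}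
    (h : ∀ f ∈ Vis Q ω F e, ω f = ω' f) : VR Q ω' F e = VR Q ω F e := by
  have hO := Orb_congr h
  ext f
  unfold VR
  rw [hO]
  constructor
  · rintro ⟨hf, k, hk, h2⟩
    exact ⟨hf, k, hk, by rw [h f ⟨hf, k, hk⟩]; exact h2⟩
  · rintro ⟨hf, k, hk, h2⟩
    exact ⟨hf, k, hk, by rw [← h f ⟨hf, k, hk⟩]; exact h2⟩

theorem ZT_congr {r : ℕ} {d w W : ℤ} {i : Fin 3} {ω ω' : Cfg}
    (h : ∀ f ∈ VT W ω i, ω f = ω' f) : ZT r d w W ω' i = ZT r d w W ω i := by
  unfold ZT
  rw [VT_congr h, VR_congr h]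

theorem ET_vt {r : ℕ} {d w W : ℤ} {i : Fin 3} {ω ω' : Cfg}
    (h : ∀ f ∈ ET r d w W ω i, ω f = ω' f) : ∀ f ∈ VT W ω i, ω f = ω' f :=
  fun f hf => h f (Or.inl hf)

/-- `ET` is a stopping set. -/
theorem ET_congr {r : ℕ} {d w W : ℤ} {i : Fin 3} {ω ω' : Cfg}
    (h : ∀ f ∈ ET r d w W ω i, ω f = ω' f) : ET r d w W ω' i = ET r d w W ω i := by
  have h1 := ET_vt h
  unfold ET
  rw [VT_congr h1, ZT_congr h1]
  rw [Vis_congr fun f hf => h f (Or.inr hf)]

theorem ZT_sub {r : ℕ} {d w W : ℤ} {i : Fin 3} {ω : Cfg} {f : ℤ × ℤ}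
    (h : f ∈ ZT r d w W ω i) : f ∈ An d w := by
  unfold ZT at h
  cases r with
  | zero => exact absurd h (Set.notMem_empty f)
  | succ r => exact h.1

/-- The explored event: the leg `i` reaches the boundary, the leg `i + 1` comes close to the right
side of the leg `i`. -/
def ExEv (r : ℕ) (d w W : ℤ) (i : Fin 3) : Set Cfg :=
  {ω | Lea 0 W ω ((i : ℕ) : ℤ) ∧ ∃ x k, x ∈ ZT r d w W ω i ∧
    (TQ.c x k, TQ.c x (k + 1)) ∈ Orb TQ ω (An 0 W \ ZT r d w W ω i) (leg (i + 1))}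

theorem exEv_congr {r : ℕ} {d w W : ℤ} {i : Fin 3} {ω ω' : Cfg} (hω : ω ∈ ExEv r d w W i)
    (h : ∀ f ∈ ET r d w W ω i, ω f = ω' f) : ω' ∈ ExEv r d w W i := by
  obtain ⟨⟨s, h0, h1, h2⟩, x, k, hx, hk⟩ := hω
  have h3 := ET_vt h
  refine ⟨⟨s, h0, h1, ?_⟩, x, k, ?_, ?_⟩
  · have e : Orb TQ ω' (An 0 W) (ine 0 ((i : ℕ) : ℤ)).swap =
        Orb TQ ω (An 0 W) (ine 0 ((i : ℕ) : ℤ)).swap := Orb_congr h3
    rw [e]
    exact h2
  · rw [ZT_congr h3]
    exact hx
  · rw [ZT_congr h3, Orb_congr fun f hf => h f (Or.inr hf)]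
    exact hk

/-- An arm to the outside of a box. -/
theorem arm_of_conn {d x : ℤ} (hd : 0 < d) {ω : Cfg} {F : Set (ℤ × ℤ)} (hx : Core x)
    {v : ℤ × ℤ} (hv : ConnQ TQ ω F (x, 0) v) (hv2 : InW d v → BdW d v) :
    ∃ v, ConnW emP ω (BW d) (x, 0) v ∧ BdW d v := by
  have key : ∀ w, ConnQ TQ ω F (x, 0) w →
      (ConnQ TQ ω (BW d : Set (ℤ × ℤ)) (x, 0) w ∧ InW d w) ∨
        ∃ v, ConnQ TQ ω (BW d : Set (ℤ × ℤ)) (x, 0) v ∧ BdW d v := by
    intro w hw
    induction hw with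
    | refl => exact Or.inl ⟨ReflTransGen.refl, LegsAux.inW_core hd.le hx⟩
    | tail _ hb ih =>
      rcases ih with ⟨h1, h2⟩ | h1
      · obtain ⟨f, hf, k, hk, rfl, rfl⟩ := hb
        by_cases hfR : f ∈ BW d
        · exact Or.inl ⟨h1.tail ⟨f, hfR, k, hk, rfl, rfl⟩, inW_corner hd.le hfR _⟩
        · exact Or.inr ⟨_, h1, LegsAux.bdW_of_corner (by omega) hfR h2⟩
      · exact Or.inr h1
  rcases key v hv with ⟨h1, h2⟩ | ⟨v, h1, h2⟩
  · exact ⟨v, (connQ_iff emP_mono).1 h1, hv2 h2⟩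
  · exact ⟨v, (connQ_iff emP_mono).1 h1, h2⟩

/-- The explored event implies three arms. -/
theorem exEv_arm {r : ℕ} {d w W : ℤ} (hd : 0 < d) (hdW : d < W) {i : Fin 3} {ω : Cfg}
    (hω : ω ∈ ExEv r d w W i) : ω ∈ Arm3 d := by
  obtain ⟨⟨s, h0, h1, h2⟩, x, k, hx, hk⟩ := hω
  have hxd : x ∉ BW d := (ZT_sub hx).2
  have m1 := marks h2
  have m2 := marks hk
  have hout : ∀ t, 0 ≤ t → t ≤ 8 * W + 3 → InW d (bd W t) → BdW d (bd W t) := by
    intro t ht0 ht1 hin
    exfalso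
    have h3 : BdW W (bd W t) := by
      rcases ht1.lt_or_eq with h | h
      · exact CO.bdW_bd (by omega) ht0 h
      · rw [h, bd_last (by omega)]
        exact CO.bdW_bd (by omega) le_rfl (by omega)
    unfold InW at hin
    unfold BdW at h3
    omega
  have c1 : ConnQ TQ ω (An 0 W) (leg i).1 (bd W (s + 1)) := m1.1.mono Vis_sub
  have c2 : ConnQ TQ ω (An 0 W) (leg i).2 (bd W s) := m1.2.mono Vis_sub
  have c3 : ConnQ TQ ω (An 0 W) (leg (i + 1)).1 (TQ.c x k) :=
    (m2.1.mono Vis_sub).mono Set.sdiff_subset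
  rw [CO.mark_eq] at c2
  intro y hy
  obtain ⟨j, hj⟩ := CO.core_leg hy
  have hji : j = i ∨ j = i + 2 ∨ j = i + 1 := by
    clear * -
    revert i j
    decide
  rcases hji with rfl | rfl | rfl
  · rw [hj] at c1
    exact arm_of_conn hd hy c1 (hout _ (by omega) (by omega))
  · rw [hj] at c2
    exact arm_of_conn hd hy c2 (hout _ (by omega) (by omega))
  · rw [hj] at c3
    exact arm_of_conn hd hy c3 fun h => CO.bdW_of_out hd hxd k h

theorem lea3_of_arm {W : ℤ} (hW : 1 ≤ W) {ω : Cfg} (hω : ω ∈ Arm3 W) : Lea3 W ω := by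
  intro j
  obtain ⟨t, h0, h1, h2⟩ := LegsAux.exit_leg hW hω j
  refine ⟨t, h0, h1, ?_⟩
  rw [CO.An_zero]
  exact h2

/-- The fresh configuration has an arm. -/
theorem fresh_det {r : ℕ} {d w W : ℤ} (hd : 0 < d) (hdw : d < w) (hwW : w + d ≤ W) {i : Fin 3}
    {ω ξ : Cfg} {x : ℤ × ℤ} {k : ZMod 4} (hx : x ∈ ZT r d w w ω i)
    (hk : (TQ.c x k, TQ.c x (k + 1)) ∈ Orb TQ ω (An 0 w \ ZT r d w w ω i) (leg (i + 1)))
    (hLw : Lea3 w (mix (ET r d w w ω i) ω ξ))
    (hζ : mix (ET r d w w ω i) ω ξ ∈ Arm3 W ∩ NT r d w w i) :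
    ∃ y z, dT y x ≤ r + 2 ∧ d - 4 ≤ dT z x ∧ ConnQ TQ ξ (BW W) y z := by
  set ζ := mix (ET r d w w ω i) ω ξ with hζd
  have hag : ∀ f ∈ ET r d w w ω i, ω f = ζ f := fun f hf => (mix_of_mem hf).symm
  obtain ⟨x', k', y, t, hx', hk', hy, ht, hc⟩ :=
    fresh_arm hd hdw (by omega) (lea3_of_arm (by omega) hζ.1) hLw hζ.2
  have h3 := ET_vt hag
  rw [ZT_congr h3] at hx' hk'
  rw [Orb_congr fun f hf => hag f (Or.inr hf)] at hk'
  rw [ET_congr hag] at hc
  have hter : ∀ (x : ℤ × ℤ) (k : ZMod 4), x ∈ ZT r d w w ω i →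
      Ter TQ (An 0 w \ ZT r d w w ω i) (TQ.c x k, TQ.c x (k + 1)) := by
    intro x k hx f hf l hl
    have h5 := Prod.mk.inj hl
    have h6 := TQ.inj h5.1 h5.2
    exact hf.2 (h6.1 ▸ hx)
  have he := ter_unique hk hk' (hter x k hx) (hter x' k' hx')
  have h5 := Prod.mk.inj he
  have h6 := (TQ.inj h5.1 h5.2).1
  subst h6
  refine ⟨y, bd W t, hy, ?_, ?_⟩
  · have h7 := CO.bdW_bd (R := W) (by omega) ht.1 ht.2
    have h8 := (ZT_sub hx).1
    rw [mem_coe, mem_BW] at h8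
    rw [CO.le_dT]
    unfold BdW at h7
    omega
  · refine (ConnQ.congr (fun f hf => ?_) hc).mono ?_
    · exact mix_of_notMem hf.2
    · rw [CO.An_zero]
      exact Set.sdiff_subset

/-- Near touches cost the power `β` of the ratio of the scales. -/
theorem nt_prob : ∃ C β : ℝ, 0 < C ∧ 0 < β ∧ ∀ (r d w W : ℕ) (i : Fin 3), 1 ≤ r → 1 ≤ d → d < w →
    w + d ≤ W → pr (BW W) (Arm3 W ∩ NT r d w w i) ≤ C * ((r : ℝ) / d) ^ β * pr (BW d) (Arm3 d) := by
  obtain ⟨C, β, hC, hβ, hone⟩ := oneArmT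
  refine ⟨C * 12 ^ β + 12 ^ β, β, by positivity, hβ, ?_⟩
  intro r d w W i hr hd hdw hwW
  have hr0 : (0 : ℝ) < r := by exact_mod_cast hr
  have hd0 : (0 : ℝ) < d := by exact_mod_cast hd
  have hsub : BW (d : ℤ) ⊆ BW (W : ℤ) := BW_sub (by omega)
  have hArm : pr (BW (W : ℤ)) (Arm3 d) = pr (BW d) (Arm3 d) :=
    pr_eq_of_depOn (depOn_arm3' (d : ℤ)) hsub
  have hp0 : 0 ≤ pr (BW (d : ℤ)) (Arm3 d) := pr_nonneg _ _
  by_cases hbig : d < r + 10
  · -- trivial case
    have h1 : pr (BW (W : ℤ)) (Arm3 W ∩ NT r d w w i) ≤ pr (BW (d : ℤ)) (Arm3 d) := by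
      rw [← hArm]
      refine pr_mono _ fun ω h => ?_
      exact arm3Anti d W hd (by omega) ω h.1
    have h2 : (1 : ℝ) ≤ 12 ^ β * ((r : ℝ) / d) ^ β := by
      rw [← Real.mul_rpow (by norm_num) (by positivity)]
      refine Real.one_le_rpow ?_ hβ.le
      rw [← mul_div_assoc, one_le_div hd0]
      have : d ≤ 12 * r := by omega
      exact_mod_cast this
    have h3 : (1 : ℝ) ≤ (C * 12 ^ β + 12 ^ β) * ((r : ℝ) / d) ^ β := by
      have : 0 ≤ C * 12 ^ β * ((r : ℝ) / d) ^ β := by positivity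
      rw [add_mul]
      linarith
    calc pr (BW (W : ℤ)) (Arm3 W ∩ NT r d w w i) ≤ 1 * pr (BW (d : ℤ)) (Arm3 d) := by
          rw [one_mul]; exact h1
      _ ≤ _ := mul_le_mul_of_nonneg_right h3 hp0
  rw [not_lt] at hbig
  set q : ℝ := C * (((r + 2 : ℤ) : ℝ) / ((d - 4 : ℤ) : ℝ)) ^ β with hq
  have hchoose : ∀ ω ∈ ExEv r d w w i, ∃ p : (ℤ × ℤ) × ZMod 4, p.1 ∈ ZT r d w w ω i ∧
      (TQ.c p.1 p.2, TQ.c p.1 (p.2 + 1)) ∈
        Orb TQ ω (An 0 w \ ZT r d w w ω i) (leg (i + 1)) := by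
    rintro ω ⟨-, x, k, hx, hk⟩
    exact ⟨(x, k), hx, hk⟩
  choose! p hpZ hpO using hchoose
  have hLw : ∀ ω ∈ Arm3 (W : ℤ), Lea3 (w : ℤ) ω := fun ω hω =>
    lea3_of_arm (by omega) (arm3Anti w W (by omega) (by omega) ω hω)
  have hmix := pr_mix_le (W := BW W) (S := fun ω => ET r d w w ω i)
    (fun ω ω' h => ET_congr h) (A := ExEv r d w w i)
    (fun ω hω ω' h => exEv_congr hω h)
    (fun ω => {ξ | ∃ y z, dT y (p ω).1 ≤ ((r + 2 : ℤ)) ∧
      (d - 4 : ℤ) ≤ dT z (p ω).1 ∧ ConnQ TQ ξ (BW W) y z})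
    (Arm3 W ∩ NT r d w w i) (q := q)
    (fun ω hω => by
      refine hone (p ω).1 (r + 2) (d - 4) (BW W) (by omega) (by omega) ?_
      have h8 := (ZT_sub (hpZ ω hω)).2
      rw [mem_coe, mem_BW] at h8
      rw [le_max_iff, le_abs, le_abs]
      omega)
    (fun ω hω ξ hξ => fresh_det (by omega) (by omega) (by omega) (hpZ ω hω) (hpO ω hω)
      (hLw _ hξ.1) hξ)
  have hsubset : Arm3 W ∩ NT r d w w i ⊆ ExEv r d w w i ∩ (Arm3 W ∩ NT r d w w i) := by
    intro ω hω
    refine ⟨?_, hω⟩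
    have hL := lea3_of_arm (W := W) (by omega) hω.1
    obtain ⟨x, k, y, t, hx, hk, -⟩ :=
      fresh_arm (by omega) (by omega) (by omega) hL (hLw ω hω.1) hω.2
    exact ⟨hLw ω hω.1 i, x, k, hx, hk⟩
  have hq0 : 0 ≤ q := by
    rw [hq]
    have : (0 : ℝ) ≤ ((d - 4 : ℤ) : ℝ) := by
      have : (0 : ℤ) ≤ d - 4 := by omega
      exact_mod_cast this
    positivity
  calc pr (BW (W : ℤ)) (Arm3 W ∩ NT r d w w i)
      ≤ pr (BW (W : ℤ)) (ExEv r d w w i ∩ (Arm3 W ∩ NT r d w w i)) := pr_mono _ hsubset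
    _ ≤ q * pr (BW (W : ℤ)) (ExEv r d w w i) := hmix
    _ ≤ q * pr (BW (W : ℤ)) (Arm3 d) := by
        refine mul_le_mul_of_nonneg_left (pr_mono _ fun ω h => ?_) hq0
        exact exEv_arm (by omega) (by omega) h
    _ = q * pr (BW d) (Arm3 d) := by rw [hArm]
    _ ≤ (C * 12 ^ β + 12 ^ β) * ((r : ℝ) / d) ^ β * pr (BW (d : ℤ)) (Arm3 d) := by
        refine mul_le_mul_of_nonneg_right ?_ hp0
        have h1 : (((r + 2 : ℤ) : ℝ) / ((d - 4 : ℤ) : ℝ)) ≤ 12 * ((r : ℝ) / d) := by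
          have e1 : ((d - 4 : ℤ) : ℝ) = (d : ℝ) - 4 := by push_cast; ring
          have e2 : ((r + 2 : ℤ) : ℝ) = (r : ℝ) + 2 := by push_cast; ring
          rw [e1, e2]
          have e3 : (r : ℝ) + 10 ≤ d := by exact_mod_cast hbig
          have e4 : (1 : ℝ) ≤ r := by exact_mod_cast hr
          rw [← mul_div_assoc, div_le_div_iff₀ (by linarith) hd0]
          nlinarith
        have h2 : (0 : ℝ) ≤ (((r + 2 : ℤ) : ℝ) / ((d - 4 : ℤ) : ℝ)) := by
          have : (0 : ℝ) ≤ ((d - 4 : ℤ) : ℝ) := by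
            have : (0 : ℤ) ≤ d - 4 := by omega
            exact_mod_cast this
          positivity
        have h3 := Real.rpow_le_rpow h2 h1 hβ.le
        rw [Real.mul_rpow (by norm_num) (by positivity)] at h3
        calc q ≤ C * (12 ^ β * ((r : ℝ) / d) ^ β) := mul_le_mul_of_nonneg_left h3 hC.le
          _ ≤ _ := by
            have : 0 ≤ 12 ^ β * ((r : ℝ) / d) ^ β := by positivity
            linarith

end Pool.Agent.Perc.Q

end Partperc3T3Prob
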