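import Pool.Agent.Lib.MP_6bd702_zc.Pre
import Pool.Agent.Lib.MP_6bd702_zc.Y017

/-!
# The occupied cells of a window carry a measure of small energy (task OSum2)
-/

set_option autoImplicit false

namespace Pool.Agent.Occ.Sum2

open Finset Pool.Agent.Perc Pool.Agent.PercL Pool.Agent.Perc6

/-! ### Lattice sums -/

theorem step_pow {β : ℝ} (h0 : 0 ≤ β) (h1 : β < 1) {m : ℝ} (hm : 1 ≤ m) :
    m ^ (-β) ≤ 2 / (1 - β) * ((m + 1) ^ (1 - β) - m ^ (1 - β)) := by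
  have hm0 : 0 < m := by linarith
  have hm1 : 0 < m + 1 := by linarith
  have hb : 0 < 1 - β := by linarith
  have e1 : m ^ (1 - β) = (m + 1) ^ (1 - β) * (1 + -(1 / (m + 1))) ^ (1 - β) := by
    rw [← Real.mul_rpow hm1.le (by
      have : 1 / (m + 1) ≤ 1 := by rw [div_le_one hm1]; linarith
      linarith)]
    congr 1
    field_simp
    ring
  have e2 : (1 + -(1 / (m + 1))) ^ (1 - β) ≤ 1 + (1 - β) * -(1 / (m + 1)) := by
    refine rpow_one_add_le_one_add_mul_self ?_ hb.le (by linarith)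
    have : 1 / (m + 1) ≤ 1 := by rw [div_le_one hm1]; linarith
    linarith
  have e3 : (m + 1) ^ (1 - β) = (m + 1) ^ (-β) * (m + 1) := by
    rw [show 1 - β = -β + 1 by ring, Real.rpow_add hm1, Real.rpow_one]
  have hp : 0 < (m + 1) ^ (-β) := Real.rpow_pos_of_pos hm1 _
  have hp1 : 0 < (m + 1) ^ (1 - β) := Real.rpow_pos_of_pos hm1 _
  have e4 : (1 - β) * (m + 1) ^ (-β) ≤ (m + 1) ^ (1 - β) - m ^ (1 - β) := by
    have h2 := mul_le_mul_of_nonneg_left e2 hp1.le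
    rw [← e1] at h2
    have h3 : (m + 1) ^ (1 - β) * (1 + (1 - β) * -(1 / (m + 1))) =
        (m + 1) ^ (1 - β) - (1 - β) * (m + 1) ^ (-β) := by
      rw [e3]
      field_simp
      ring
    rw [h3] at h2
    linarith
  have e5 : m ^ (-β) ≤ 2 * (m + 1) ^ (-β) := by
    have h2 : (2 * m) ^ (-β) ≤ (m + 1) ^ (-β) :=
      Real.rpow_le_rpow_of_nonpos hm1 (by linarith) (by linarith)
    rw [Real.mul_rpow (by norm_num) hm0.le] at h2
    have h3 : (1 : ℝ) / 2 ≤ (2 : ℝ) ^ (-β) := by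
      have : (2 : ℝ) ^ (-1 : ℝ) ≤ (2 : ℝ) ^ (-β) :=
        Real.rpow_le_rpow_of_exponent_le (by norm_num) (by linarith)
      rw [Real.rpow_neg_one] at this
      linarith
    have h4 : 0 < m ^ (-β) := Real.rpow_pos_of_pos hm0 _
    nlinarith
  calc m ^ (-β) ≤ 2 * (m + 1) ^ (-β) := e5
    _ = 2 / (1 - β) * ((1 - β) * (m + 1) ^ (-β)) := by field_simp
    _ ≤ _ := mul_le_mul_of_nonneg_left e4 (by positivity)

theorem sum_pow1 {β : ℝ} (h0 : 0 ≤ β) (h1 : β < 1) (n : ℕ) :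
    ∑ m ∈ range n, (max 1 (m : ℝ)) ^ (-β) ≤ 2 / (1 - β) * (n : ℝ) ^ (1 - β) := by
  have hb : 0 < 1 - β := by linarith
  induction n with
  | zero =>
    rw [range_zero, sum_empty, Nat.cast_zero, Real.zero_rpow hb.ne', mul_zero]
  | succ n ih =>
    rw [sum_range_succ]
    rcases Nat.eq_zero_or_pos n with hn | hn
    · subst hn
      rw [range_zero, sum_empty, Nat.cast_zero, max_eq_left (by norm_num), Real.one_rpow]
      have : (1 : ℝ) ≤ 2 / (1 - β) := by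
        rw [le_div_iff₀ hb]
        linarith
      simpa using this
    · have hn1 : (1 : ℝ) ≤ n := by exact_mod_cast hn
      have h2 := step_pow h0 h1 hn1
      rw [max_eq_right hn1]
      push_cast
      have h3 : 2 / (1 - β) * ((n : ℝ) + 1) ^ (1 - β) = 2 / (1 - β) * (n : ℝ) ^ (1 - β) +
          2 / (1 - β) * (((n : ℝ) + 1) ^ (1 - β) - (n : ℝ) ^ (1 - β)) := by ring
      rw [h3]
      exact add_le_add ih h2

/-- The sum over a line. -/
theorem sum_line {β : ℝ} (h0 : 0 ≤ β) (h1 : β < 1) {n : ℕ} {c : ℤ} (hc : 0 ≤ c) (hc' : c < n) :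
    ∑ x ∈ Ico (0 : ℤ) n, (max 1 ((|x - c| : ℤ) : ℝ)) ^ (-β) ≤
      4 / (1 - β) * (n : ℝ) ^ (1 - β) := by
  have hnn : ∀ m : ℕ, 0 ≤ (max 1 (m : ℝ)) ^ (-β) := fun m =>
    Real.rpow_nonneg (le_trans zero_le_one (le_max_left _ _)) _
  have hA : ∑ x ∈ (Ico (0 : ℤ) n).filter (fun x => x < c), (max 1 ((|x - c| : ℤ) : ℝ)) ^ (-β) ≤
      ∑ m ∈ range n, (max 1 (m : ℝ)) ^ (-β) := by
    have e : ∀ x ∈ (Ico (0 : ℤ) n).filter (fun x => x < c),
        (max 1 ((|x - c| : ℤ) : ℝ)) ^ (-β) = (max 1 (((c - x).toNat : ℕ) : ℝ)) ^ (-β) := by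
      intro x hx
      rw [mem_filter, mem_Ico] at hx
      have h2 : ((c - x).toNat : ℤ) = |x - c| := by
        rw [Int.toNat_of_nonneg (by omega), abs_of_nonpos (by omega)]
        omega
      rw [← h2, Int.cast_natCast]
    rw [sum_congr rfl e, ← sum_image (f := fun m : ℕ => (max 1 (m : ℝ)) ^ (-β))
      (g := fun x : ℤ => (c - x).toNat) (by
        intro x hx y hy hxy
        rw [mem_coe, mem_filter, mem_Ico] at hx hy
        simp only at hxy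
        omega)]
    refine sum_le_sum_of_subset_of_nonneg ?_ fun m _ _ => hnn m
    intro m hm
    rw [mem_image] at hm
    obtain ⟨x, hx, rfl⟩ := hm
    rw [mem_filter, mem_Ico] at hx
    rw [mem_range]
    omega
  have hB : ∑ x ∈ (Ico (0 : ℤ) n).filter (fun x => ¬ x < c), (max 1 ((|x - c| : ℤ) : ℝ)) ^ (-β) ≤
      ∑ m ∈ range n, (max 1 (m : ℝ)) ^ (-β) := by
    have e : ∀ x ∈ (Ico (0 : ℤ) n).filter (fun x => ¬ x < c),
        (max 1 ((|x - c| : ℤ) : ℝ)) ^ (-β) = (max 1 (((x - c).toNat : ℕ) : ℝ)) ^ (-β) := by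
      intro x hx
      rw [mem_filter, mem_Ico] at hx
      have h2 : ((x - c).toNat : ℤ) = |x - c| := by
        rw [Int.toNat_of_nonneg (by omega), abs_of_nonneg (by omega)]
      rw [← h2, Int.cast_natCast]
    rw [sum_congr rfl e, ← sum_image (f := fun m : ℕ => (max 1 (m : ℝ)) ^ (-β))
      (g := fun x : ℤ => (x - c).toNat) (by
        intro x hx y hy hxy
        rw [mem_coe, mem_filter, mem_Ico] at hx hy
        simp only at hxy
        omega)]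
    refine sum_le_sum_of_subset_of_nonneg ?_ fun m _ _ => hnn m
    intro m hm
    rw [mem_image] at hm
    obtain ⟨x, hx, rfl⟩ := hm
    rw [mem_filter, mem_Ico] at hx
    rw [mem_range]
    omega
  have h2 := sum_pow1 h0 h1 n
  rw [← sum_filter_add_sum_filter_not (Ico (0 : ℤ) n) (fun x => x < c)]
  have h3 : 4 / (1 - β) * (n : ℝ) ^ (1 - β) = 2 / (1 - β) * (n : ℝ) ^ (1 - β) +
      2 / (1 - β) * (n : ℝ) ^ (1 - β) := by ring
  rw [h3]
  exact add_le_add (hA.trans h2) (hB.trans h2)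


theorem dsup_pos (z z' : ℤ × ℤ) : 0 < dsup z z' := lt_of_lt_of_le one_pos (le_max_right _ _)

theorem dsup_x (z z' : ℤ × ℤ) : max 1 ((|z'.1 - z.1| : ℤ) : ℝ) ≤ dsup z z' := by
  unfold dsup
  refine max_le (le_max_right _ _) (le_trans ?_ (le_max_left _ _))
  rw [abs_sub_comm]
  push_cast
  exact le_max_left _ _

theorem dsup_y (z z' : ℤ × ℤ) : max 1 ((|z'.2 - z.2| : ℤ) : ℝ) ≤ dsup z z' := by
  unfold dsup
  refine max_le (le_max_right _ _) (le_trans ?_ (le_max_left _ _))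
  rw [abs_sub_comm]
  push_cast
  exact le_max_right _ _

/-- The sum over the box. -/
theorem sum_box {α : ℝ} (h0 : 0 ≤ α) (h1 : α < 2) {n : ℕ} {c : ℤ × ℤ} (hc : 0 ≤ c.1 ∧ c.1 < n)
    (hc' : 0 ≤ c.2 ∧ c.2 < n) :
    ∑ c' ∈ Ico (0 : ℤ) n ×ˢ Ico (0 : ℤ) n, dsup c c' ^ (-α) ≤
      (4 / (1 - α / 2)) ^ 2 * (n : ℝ) ^ (2 - α) := by
  have hn : (0 : ℝ) < n := by
    have : (0 : ℤ) < n := by omega
    exact_mod_cast this
  have key : ∀ c' ∈ Ico (0 : ℤ) n ×ˢ Ico (0 : ℤ) n, dsup c c' ^ (-α) ≤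
      (max 1 ((|c'.1 - c.1| : ℤ) : ℝ)) ^ (-(α / 2)) *
        (max 1 ((|c'.2 - c.2| : ℤ) : ℝ)) ^ (-(α / 2)) := by
    intro c' _
    have e : dsup c c' ^ (-α) = dsup c c' ^ (-(α / 2)) * dsup c c' ^ (-(α / 2)) := by
      rw [← Real.rpow_add (dsup_pos c c')]
      congr 1
      ring
    rw [e]
    have k1 := dsup_x c c'
    have k2 := dsup_y c c'
    have k3 : (0 : ℝ) < max 1 ((|c'.1 - c.1| : ℤ) : ℝ) := lt_of_lt_of_le one_pos (le_max_left _ _)
    have k4 : (0 : ℝ) < max 1 ((|c'.2 - c.2| : ℤ) : ℝ) := lt_of_lt_of_le one_pos (le_max_left _ _)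
    exact mul_le_mul (Real.rpow_le_rpow_of_nonpos k3 k1 (by linarith))
      (Real.rpow_le_rpow_of_nonpos k4 k2 (by linarith)) (Real.rpow_nonneg (dsup_pos c c').le _)
      (Real.rpow_nonneg k3.le _)
  refine (sum_le_sum key).trans ?_
  rw [sum_product]
  simp only
  have e2 : ∀ x ∈ Ico (0 : ℤ) n, ∑ y ∈ Ico (0 : ℤ) n, (max 1 ((|x - c.1| : ℤ) : ℝ)) ^ (-(α / 2)) *
      (max 1 ((|y - c.2| : ℤ) : ℝ)) ^ (-(α / 2)) =
      (max 1 ((|x - c.1| : ℤ) : ℝ)) ^ (-(α / 2)) *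
        ∑ y ∈ Ico (0 : ℤ) n, (max 1 ((|y - c.2| : ℤ) : ℝ)) ^ (-(α / 2)) := by
    intro x _
    rw [mul_sum]
  rw [sum_congr rfl e2, ← sum_mul]
  have l1 := sum_line (β := α / 2) (by linarith) (by linarith) hc.1 hc.2
  have l2 := sum_line (β := α / 2) (by linarith) (by linarith) hc'.1 hc'.2
  have l3 : 0 ≤ ∑ y ∈ Ico (0 : ℤ) n, (max 1 ((|y - c.2| : ℤ) : ℝ)) ^ (-(α / 2)) :=
    sum_nonneg fun y _ => Real.rpow_nonneg (le_trans zero_le_one (le_max_left _ _)) _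
  have l4 : 0 ≤ 4 / (1 - α / 2) * (n : ℝ) ^ (1 - α / 2) :=
    mul_nonneg (div_nonneg (by norm_num) (by linarith)) (Real.rpow_nonneg hn.le _)
  refine (mul_le_mul l1 l2 l3 l4).trans (le_of_eq ?_)
  have e3 : (n : ℝ) ^ (2 - α) = (n : ℝ) ^ (1 - α / 2) * (n : ℝ) ^ (1 - α / 2) := by
    rw [← Real.rpow_add hn]
    congr 1
    ring
  rw [e3]
  ring

/-! ### The cells of the middle -/

open Classical in
/-- The cells of the middle. -/
noncomputable def MF (M : ℤ) : Finset (ℤ × ℤ) := (IM M).filter fun z => MidZ M z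

theorem mem_MF {M : ℤ} {z : ℤ × ℤ} :
    z ∈ MF M ↔ ((0 ≤ z.1 ∧ z.1 < 2 * M) ∧ 0 ≤ z.2 ∧ z.2 < 2 * M) ∧ MidZ M z := by
  classical
  unfold MF IM
  rw [mem_filter, mem_product, mem_Ico, mem_Ico]

theorem MF_sub {M : ℤ} : MF M ⊆ IM M := by
  classical
  unfold MF
  exact filter_subset _ _

theorem card_MF_le (M : ℕ) : ((MF (M : ℤ)).card : ℝ) ≤ 4 * (M : ℝ) ^ 2 := by
  have h := card_le_card (MF_sub (M := (M : ℤ)))
  unfold IM at h
  rw [card_product, Int.card_Ico] at h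
  have e : (2 * (M : ℤ) - 0).toNat = 2 * M := by omega
  rw [e] at h
  have h2 : (((MF (M : ℤ)).card : ℕ) : ℝ) ≤ ((2 * M * (2 * M) : ℕ) : ℝ) := by exact_mod_cast h
  refine h2.trans (le_of_eq ?_)
  push_cast
  ring

theorem card_MF_ge {M : ℕ} (hM : 2 ≤ M) : (M : ℝ) ^ 2 / 16 ≤ ((MF (M : ℤ)).card : ℝ) := by
  have h1 : (range (M / 2) ×ˢ range (M / 2)).card ≤ (MF (M : ℤ)).card := by
    refine card_le_card_of_injOn
      (fun p => (((3 * M + 3) / 4 + p.1 : ℕ), (((3 * M + 3) / 4 + p.2 : ℕ) : ℤ))) ?_ ?_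
    · intro p hp
      rw [mem_coe, mem_product, mem_range, mem_range] at hp
      rw [mem_coe, mem_MF]
      unfold MidZ
      dsimp only
      push_cast
      omega
    · intro p _ q _ h
      have h2 := Prod.mk.inj h
      exact Prod.ext (by omega) (by omega)
  rw [card_product, card_range] at h1
  have h2 : (M : ℝ) / 4 ≤ ((M / 2 : ℕ) : ℝ) := by
    have h3 : M ≤ 4 * (M / 2) := by omega
    have h4 : (M : ℝ) ≤ 4 * ((M / 2 : ℕ) : ℝ) := by exact_mod_cast h3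
    linarith
  have h5 : ((M / 2 : ℕ) : ℝ) * ((M / 2 : ℕ) : ℝ) ≤ ((MF (M : ℤ)).card : ℝ) := by
    exact_mod_cast h1
  have h6 : (0 : ℝ) ≤ (M : ℝ) / 4 := by positivity
  nlinarith

/-- The energy of the middle. -/
theorem sum_MF {α : ℝ} (h0 : 0 ≤ α) (h1 : α < 2) {M : ℕ} (hM : 1 ≤ M) :
    ∑ z ∈ MF (M : ℤ), ∑ z' ∈ MF (M : ℤ), dsup z z' ^ (-α) ≤
      16 * (4 / (1 - α / 2)) ^ 2 * (M : ℝ) ^ (4 - α) := by
  have hM0 : (0 : ℝ) < M := by
    have : 0 < M := by omega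
    exact_mod_cast this
  have h2 : ∀ z ∈ MF (M : ℤ), ∑ z' ∈ MF (M : ℤ), dsup z z' ^ (-α) ≤
      (4 / (1 - α / 2)) ^ 2 * (4 * (M : ℝ) ^ (2 - α)) := by
    intro z hz
    have h3 := mem_MF.1 hz
    have h4 := sum_box (n := 2 * M) h0 h1 (c := z) (by push_cast; exact h3.1.1)
      (by push_cast; exact h3.1.2)
    have h5 : ∑ z' ∈ MF (M : ℤ), dsup z z' ^ (-α) ≤
        ∑ c' ∈ Ico (0 : ℤ) ((2 * M : ℕ) : ℤ) ×ˢ Ico (0 : ℤ) ((2 * M : ℕ) : ℤ),
          dsup z c' ^ (-α) := by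
      refine sum_le_sum_of_subset_of_nonneg ?_ fun z' _ _ => Real.rpow_nonneg (dsup_pos z z').le _
      have h6 := MF_sub (M := (M : ℤ))
      unfold IM at h6
      push_cast
      exact h6
    refine (h5.trans h4).trans ?_
    refine mul_le_mul_of_nonneg_left ?_ (by positivity)
    push_cast
    rw [Real.mul_rpow (by norm_num) hM0.le]
    refine mul_le_mul_of_nonneg_right ?_ (by positivity)
    have h7 : (2 : ℝ) ^ (2 - α) ≤ (2 : ℝ) ^ (2 : ℝ) :=
      Real.rpow_le_rpow_of_exponent_le (by norm_num) (by linarith)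
    refine h7.trans (le_of_eq ?_)
    norm_num
  refine (sum_le_sum h2).trans ?_
  rw [sum_const, nsmul_eq_mul]
  refine (mul_le_mul_of_nonneg_right (card_MF_le M) (by positivity)).trans (le_of_eq ?_)
  have e : (M : ℝ) ^ (4 - α) = (M : ℝ) ^ 2 * (M : ℝ) ^ (2 - α) := by
    rw [← Real.rpow_natCast, ← Real.rpow_add hM0]
    congr 1
    push_cast
    ring
  rw [e]
  ring

/-! ### Dependence -/

theorem occAt_congr {ω ω' : Cfg} {col x y M q η : ℤ}
    (h : ∀ f ∈ (RF x (x + 4 * (M * q * η)) y (y + 4 * (M * q * η)) : Set (ℤ × ℤ)), ω f = ω' f)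
    (z : ℤ × ℤ) : OccAt ω col x y M q η z ↔ OccAt ω' col x y M q η z := by
  have hc : Conn ω (RF x (x + 4 * (M * q * η)) y (y + 4 * (M * q * η))) =
      Conn ω' (RF x (x + 4 * (M * q * η)) y (y + 4 * (M * q * η))) := by
    funext u v
    exact propext (GridA.conn_iff _ h u v)
  have hs : SqStep ω col x y (4 * (M * q * η)) η = SqStep ω' col x y (4 * (M * q * η)) η := by
    funext t t'
    unfold SqStep FreeSq Rim
    rw [hc]
  have hf : FreeSq ω col x y (4 * (M * q * η)) η = FreeSq ω' col x y (4 * (M * q * η)) η := by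
    funext t
    unfold FreeSq Rim
    rw [hc]
  unfold OccAt Seen
  rw [hc, hs, hf]

theorem depOn_occ2 (col x y M q η : ℤ) (z z' : ℤ × ℤ) :
    DepOn (Wd x y M q η : Set (ℤ × ℤ))
      {ω | OccAt ω col x y M q η z ∧ OccAt ω col x y M q η z'} := by
  intro ω ω' h
  simp only [Set.mem_ofPred_eq]
  rw [occAt_congr h z, occAt_congr h z']

/-! ### Expectations -/

/-- The expectation of a function of the configuration. -/
noncomputable def EP (W : Finset (ℤ × ℤ)) (φ : Cfg → ℝ) : ℝ :=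
  (∑ T ∈ W.powerset, φ (cfg T)) / 2 ^ W.card

open Classical in
theorem pr_eq (W : Finset (ℤ × ℤ)) (A : Set Cfg) :
    pr W A = EP W fun ω => if ω ∈ A then 1 else 0 := by
  unfold EP
  rw [ProbA.pr_eq_sum]

theorem EP_mono {W : Finset (ℤ × ℤ)} {φ ψ : Cfg → ℝ} (h : ∀ ω, φ ω ≤ ψ ω) : EP W φ ≤ EP W ψ := by
  unfold EP
  refine div_le_div_of_nonneg_right ?_ (by positivity)
  exact sum_le_sum fun T _ => h _

theorem EP_add (W : Finset (ℤ × ℤ)) (φ ψ : Cfg → ℝ) :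
    EP W (fun ω => φ ω + ψ ω) = EP W φ + EP W ψ := by
  unfold EP
  rw [sum_add_distrib, add_div]

theorem EP_mul (W : Finset (ℤ × ℤ)) (c : ℝ) (φ : Cfg → ℝ) :
    EP W (fun ω => c * φ ω) = c * EP W φ := by
  unfold EP
  rw [← mul_sum, mul_div_assoc]

theorem EP_sum {ι : Type*} (W : Finset (ℤ × ℤ)) (s : Finset ι) (φ : ι → Cfg → ℝ) :
    EP W (fun ω => ∑ i ∈ s, φ i ω) = ∑ i ∈ s, EP W (φ i) := by
  unfold EP
  rw [sum_comm, sum_div]

theorem EP_const (W : Finset (ℤ × ℤ)) (c : ℝ) : EP W (fun _ => c) = c := by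
  unfold EP
  rw [sum_const, card_powerset, nsmul_eq_mul]
  push_cast
  field_simp

/-! ### Occupied cells -/

open Classical in
/-- The indicator of an occupied cell. -/
noncomputable def Xc (A : Set Cfg) (O : Cfg → ℤ × ℤ → Prop) (z : ℤ × ℤ) (ω : Cfg) : ℝ :=
  if ω ∈ A ∧ O ω z then 1 else 0

/-- The number of occupied cells. -/
noncomputable def Tc (A : Set Cfg) (O : Cfg → ℤ × ℤ → Prop) (M : ℤ) (ω : Cfg) : ℝ :=
  ∑ z ∈ MF M, Xc A O z ω

/-- The energy of the counting measure. -/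
noncomputable def Ic (A : Set Cfg) (O : Cfg → ℤ × ℤ → Prop) (s : ℝ) (M : ℤ) (ω : Cfg) : ℝ :=
  ∑ z ∈ MF M, ∑ z' ∈ MF M, Xc A O z ω * Xc A O z' ω * dsup z z' ^ (-s)

section

variable {A : Set Cfg} {O : Cfg → ℤ × ℤ → Prop} {s : ℝ} {M : ℤ}

theorem Xc_nonneg (z : ℤ × ℤ) (ω : Cfg) : 0 ≤ Xc A O z ω := by
  unfold Xc
  split_ifs <;> norm_num

theorem Tc_nonneg (ω : Cfg) : 0 ≤ Tc A O M ω := sum_nonneg fun z _ => Xc_nonneg z ω

theorem Ic_nonneg (ω : Cfg) : 0 ≤ Ic A O s M ω :=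
  sum_nonneg fun z _ => sum_nonneg fun z' _ =>
    mul_nonneg (mul_nonneg (Xc_nonneg z ω) (Xc_nonneg z' ω)) (Real.rpow_nonneg (dsup_pos z z').le _)

theorem mem_of_Tc {ω : Cfg} (h : Tc A O M ω ≠ 0) : ω ∈ A := by
  obtain ⟨z, _, h3⟩ := exists_ne_zero_of_sum_ne_zero h
  unfold Xc at h3
  by_contra hcon
  exact h3 (if_neg fun h => hcon h.1)

/-- Many occupied cells and small energy: the normalised counting measure. -/
theorem good_of {ω : Cfg} {t A' : ℝ} (ht : 0 < t) (h1 : t ≤ Tc A O M ω)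
    (h2 : Ic A O s M ω ≤ A') (hA' : 0 ≤ A') :
    ∃ c : ℤ × ℤ → ℝ, (∀ z, 0 ≤ c z) ∧ (∀ z, z ∉ {z | O ω z} → c z = 0) ∧ ∑ z ∈ IM M, c z = 1 ∧
      ∑ z ∈ IM M, ∑ z' ∈ IM M, c z * c z' * dsup z z' ^ (-s) ≤ A' / t ^ 2 := by
  classical
  have hT : 0 < Tc A O M ω := lt_of_lt_of_le ht h1
  have hsub : ∀ f : ℤ × ℤ → ℝ, ∑ z ∈ IM M, (if z ∈ MF M then f z else 0) = ∑ z ∈ MF M, f z := by
    intro f
    rw [← sum_filter]
    refine sum_congr ?_ fun _ _ => rfl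
    ext z
    rw [mem_filter]
    exact ⟨fun h => h.2, fun h => ⟨MF_sub h, h⟩⟩
  refine ⟨fun z => if z ∈ MF M then Xc A O z ω / Tc A O M ω else 0, ?_, ?_, ?_, ?_⟩
  · intro z
    simp only
    split_ifs
    · exact div_nonneg (Xc_nonneg z ω) hT.le
    · exact le_rfl
  · intro z hz
    simp only
    split_ifs with hm
    · unfold Xc
      rw [if_neg fun h => hz h.2, zero_div]
    · rfl
  · rw [hsub, ← sum_div]
    exact div_self hT.ne'
  · have key : ∀ z ∈ IM M, ∑ z' ∈ IM M,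
        (if z ∈ MF M then Xc A O z ω / Tc A O M ω else 0) *
          (if z' ∈ MF M then Xc A O z' ω / Tc A O M ω else 0) * dsup z z' ^ (-s) =
        if z ∈ MF M then (∑ z' ∈ MF M, Xc A O z ω * Xc A O z' ω * dsup z z' ^ (-s)) /
          Tc A O M ω ^ 2 else 0 := by
      intro z _
      by_cases hm : z ∈ MF M
      · rw [if_pos hm]
        simp only [if_pos hm]
        have e3 : ∀ z' ∈ IM M, Xc A O z ω / Tc A O M ω *
            (if z' ∈ MF M then Xc A O z' ω / Tc A O M ω else 0) * dsup z z' ^ (-s) =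
            if z' ∈ MF M then Xc A O z ω * Xc A O z' ω * dsup z z' ^ (-s) /
              Tc A O M ω ^ 2 else 0 := by
          intro z' _
          split_ifs
          · field_simp
          · rw [mul_zero, zero_mul]
        rw [sum_congr rfl e3, hsub, sum_div]
      · rw [if_neg hm]
        simp only [if_neg hm, zero_mul]
        exact sum_const_zero
    simp only
    rw [sum_congr rfl key, hsub, ← sum_div]
    have e5 : ∑ z ∈ MF M, ∑ z' ∈ MF M, Xc A O z ω * Xc A O z' ω * dsup z z' ^ (-s) =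
        Ic A O s M ω := rfl
    rw [e5]
    have h5 : t ^ 2 ≤ Tc A O M ω ^ 2 := pow_le_pow_left₀ ht.le h1 2
    exact div_le_div₀ hA' h2 (by positivity) h5

open Classical in
/-- The pointwise inequality. -/
theorem pointwise (hM : 0 < M) {lam ε A' N : ℝ} (hl : 0 < lam) (hε : 0 < ε)
    (hA' : 0 < A') (hN : 0 < N) (ω : Cfg) :
    Tc A O M ω ≤ lam * N +
      (ε / N * Tc A O M ω ^ 2 + (1 / (4 * ε * A' * N * (M : ℝ) ^ (-s)) * Ic A O s M ω +
        N / (4 * ε) * (if ω ∈ A ∩ {ω | GoodW s (A' / lam ^ 2) M {z | O ω z}}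
          then 1 else 0))) := by
  have hM0 : (0 : ℝ) < M := by exact_mod_cast hM
  have hMs : 0 < (M : ℝ) ^ (-s) := Real.rpow_pos_of_pos hM0 _
  have hT := Tc_nonneg (A := A) (O := O) (M := M) ω
  have hI := Ic_nonneg (A := A) (O := O) (s := s) (M := M) ω
  have hamgm : Tc A O M ω ≤ ε / N * Tc A O M ω ^ 2 + N / (4 * ε) := by
    have h1 : ε / N * Tc A O M ω ^ 2 + N / (4 * ε) - Tc A O M ω =
        (ε / N) * (Tc A O M ω - N / (2 * ε)) ^ 2 := by
      field_simp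
      ring
    have h2 : 0 ≤ (ε / N) * (Tc A O M ω - N / (2 * ε)) ^ 2 := by positivity
    linarith
  have t1 : 0 ≤ ε / N * Tc A O M ω ^ 2 := by positivity
  have t2 : 0 ≤ 1 / (4 * ε * A' * N * (M : ℝ) ^ (-s)) * Ic A O s M ω := by positivity
  have t3 : (0 : ℝ) ≤ N / (4 * ε) *
      (if ω ∈ A ∩ {ω | GoodW s (A' / lam ^ 2) M {z | O ω z}} then 1 else 0) := by
    split_ifs <;> positivity
  have t4 : 0 < lam * N := by positivity
  by_cases h0 : Tc A O M ω < lam * N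
  · linarith
  · push Not at h0
    by_cases hI2 : Ic A O s M ω ≤ A' * N ^ 2 * (M : ℝ) ^ (-s)
    · have h5 := good_of (A := A) (O := O) t4 h0 hI2 (by positivity)
      have e6 : A' * N ^ 2 * (M : ℝ) ^ (-s) / (lam * N) ^ 2 = A' / lam ^ 2 * (M : ℝ) ^ (-s) := by
        field_simp
      rw [e6] at h5
      have h7 : ω ∈ A := mem_of_Tc (O := O) (M := M) (lt_of_lt_of_le t4 h0).ne'
      rw [if_pos (show ω ∈ A ∩ {ω | GoodW s (A' / lam ^ 2) M {z | O ω z}} from ⟨h7, h5⟩)]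
      linarith
    · push Not at hI2
      have h6 : N / (4 * ε) ≤ 1 / (4 * ε * A' * N * (M : ℝ) ^ (-s)) * Ic A O s M ω := by
        have h7 : 1 / (4 * ε * A' * N * (M : ℝ) ^ (-s)) * (A' * N ^ 2 * (M : ℝ) ^ (-s)) =
            N / (4 * ε) := by
          field_simp
        rw [← h7]
        exact mul_le_mul_of_nonneg_left hI2.le (by positivity)
      linarith

theorem EP_Xc (W : Finset (ℤ × ℤ)) (z : ℤ × ℤ) :
    EP W (fun ω => Xc A O z ω) = pr W (A ∩ {ω | O ω z}) := by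
  classical
  rw [pr_eq]
  congr 1
  funext ω
  unfold Xc
  by_cases h : ω ∈ A ∧ O ω z
  · rw [if_pos h, if_pos (show ω ∈ A ∩ {ω | O ω z} from h)]
  · rw [if_neg h, if_neg (show ω ∉ A ∩ {ω | O ω z} from h)]

theorem EP_XX (W : Finset (ℤ × ℤ)) (z z' : ℤ × ℤ) :
    EP W (fun ω => Xc A O z ω * Xc A O z' ω) ≤ pr W {ω | O ω z ∧ O ω z'} := by
  classical
  rw [pr_eq]
  refine EP_mono fun ω => ?_
  unfold Xc
  simp only [Set.mem_ofPred_eq]
  by_cases h1 : ω ∈ A <;> by_cases h2 : O ω z <;> by_cases h3 : O ω z' <;> simp [h1, h2, h3]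

theorem EP_Tc (W : Finset (ℤ × ℤ)) : EP W (fun ω => Tc A O M ω) =
    ∑ z ∈ MF M, pr W (A ∩ {ω | O ω z}) := by
  unfold Tc
  rw [EP_sum (φ := fun z ω => Xc A O z ω)]
  exact sum_congr rfl fun z _ => EP_Xc W z

theorem EP_Tc2 (W : Finset (ℤ × ℤ)) : EP W (fun ω => Tc A O M ω ^ 2) ≤
    ∑ z ∈ MF M, ∑ z' ∈ MF M, pr W {ω | O ω z ∧ O ω z'} := by
  have e : (fun (ω : Cfg) => Tc A O M ω ^ 2) = fun ω =>
      ∑ z ∈ MF M, ∑ z' ∈ MF M, Xc A O z ω * Xc A O z' ω := by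
    funext ω
    unfold Tc
    rw [sq, sum_mul_sum]
  rw [e, EP_sum (φ := fun z ω => ∑ z' ∈ MF M, Xc A O z ω * Xc A O z' ω)]
  refine sum_le_sum fun z _ => ?_
  rw [EP_sum (φ := fun z' ω => Xc A O z ω * Xc A O z' ω)]
  exact sum_le_sum fun z' _ => EP_XX W z z'

theorem EP_Ic (W : Finset (ℤ × ℤ)) (s : ℝ) : EP W (fun ω => Ic A O s M ω) ≤
    ∑ z ∈ MF M, ∑ z' ∈ MF M, dsup z z' ^ (-s) * pr W {ω | O ω z ∧ O ω z'} := by
  have e : (fun (ω : Cfg) => Ic A O s M ω) = fun ω =>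
      ∑ z ∈ MF M, ∑ z' ∈ MF M, dsup z z' ^ (-s) * (Xc A O z ω * Xc A O z' ω) := by
    funext ω
    unfold Ic
    exact sum_congr rfl fun z _ => sum_congr rfl fun z' _ => mul_comm _ _
  rw [e, EP_sum (φ := fun z ω => ∑ z' ∈ MF M, dsup z z' ^ (-s) * (Xc A O z ω * Xc A O z' ω))]
  refine sum_le_sum fun z _ => ?_
  rw [EP_sum (φ := fun z' ω => dsup z z' ^ (-s) * (Xc A O z ω * Xc A O z' ω))]
  refine sum_le_sum fun z' _ => ?_
  rw [EP_mul W (dsup z z' ^ (-s)) (fun ω => Xc A O z ω * Xc A O z' ω)]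
  exact mul_le_mul_of_nonneg_left (EP_XX W z z') (Real.rpow_nonneg (dsup_pos z z').le _)

end

/-- The analysis for one window. -/
theorem window {A : Set Cfg} {O : Cfg → ℤ × ℤ → Prop} {W : Finset (ℤ × ℤ)} {s c₁ C₂ : ℝ}
    (hs0 : 0 < s) (hs1 : s < 4 / 3) (hc₁ : 0 < c₁) (hC₂ : 0 < C₂) {M : ℕ} (hM : 2 ≤ M)
    (H1 : ∀ z : ℤ × ℤ, MidZ M z → c₁ * (M : ℝ) ^ (-(2 / 3) : ℝ) ≤ pr W (A ∩ {ω | O ω z}))
    (H2 : ∀ z z' : ℤ × ℤ, MidZ M z → MidZ M z' → pr W {ω | O ω z ∧ O ω z'} ≤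
      C₂ * (M : ℝ) ^ (-(2 / 3) : ℝ) * dsup z z' ^ (-(2 / 3) : ℝ))
    {lam ε A' : ℝ} (hlam : 0 < lam) (hε : 0 < ε) (hA' : 0 < A') :
    4 * ε * (c₁ / 16 - lam - ε * (C₂ * 576) -
      C₂ * (16 * (4 / (1 - (2 / 3 + s) / 2)) ^ 2) / (4 * ε * A')) ≤
      pr W (A ∩ {ω | GoodW s (A' / lam ^ 2) M {z | O ω z}}) := by
  classical
  have hM0 : (0 : ℝ) < M := by
    have : 0 < M := by omega
    exact_mod_cast this
  set K' : ℝ := 16 * (4 / (1 - (2 / 3 + s) / 2)) ^ 2 with hK'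
  set N : ℝ := (M : ℝ) ^ (4 / 3 : ℝ) with hN
  have hN0 : 0 < N := Real.rpow_pos_of_pos hM0 _
  have hN2 : N ^ 2 = (M : ℝ) ^ (8 / 3 : ℝ) := by
    rw [hN, ← Real.rpow_natCast, ← Real.rpow_mul hM0.le]
    norm_num
  set Ms : ℝ := (M : ℝ) ^ (-s) with hMs
  have hMs0 : 0 < Ms := Real.rpow_pos_of_pos hM0 _
  set G := pr W (A ∩ {ω | GoodW s (A' / lam ^ 2) M {z | O ω z}}) with hG
  have key : EP W (fun ω => Tc A O M ω) ≤ lam * N + (ε / N * EP W (fun ω => Tc A O M ω ^ 2) +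
      (1 / (4 * ε * A' * N * Ms) * EP W (fun ω => Ic A O s M ω) + N / (4 * ε) * G)) := by
    have h := EP_mono (W := W) fun ω => pointwise (A := A) (O := O) (s := s) (M := (M : ℤ))
      (by omega) hlam hε hA' hN0 ω
    rw [EP_add, EP_add, EP_add, EP_const, EP_mul, EP_mul, EP_mul] at h
    rw [hG, pr_eq]
    rw [Int.cast_natCast] at h
    convert h
  -- first moment
  have m1 : N * (c₁ / 16) ≤ EP W (fun ω => Tc A O M ω) := by
    rw [EP_Tc]
    have h1 : ∑ z ∈ MF (M : ℤ), c₁ * (M : ℝ) ^ (-(2 / 3) : ℝ) ≤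
        ∑ z ∈ MF (M : ℤ), pr W (A ∩ {ω | O ω z}) :=
      sum_le_sum fun z hz => H1 z (mem_MF.1 hz).2
    refine le_trans ?_ h1
    rw [sum_const, nsmul_eq_mul]
    have h2 := card_MF_ge hM
    have h3 : N = (M : ℝ) ^ 2 * (M : ℝ) ^ (-(2 / 3) : ℝ) := by
      rw [hN, ← Real.rpow_natCast, ← Real.rpow_add hM0]
      congr 1
      norm_num
    have h4 : 0 ≤ c₁ * (M : ℝ) ^ (-(2 / 3) : ℝ) := by positivity
    have h5 := mul_le_mul_of_nonneg_right h2 h4
    rw [h3]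
    refine le_trans (le_of_eq ?_) h5
    ring
  -- second moment
  have m2 : EP W (fun ω => Tc A O M ω ^ 2) ≤ N ^ 2 * (C₂ * 576) := by
    refine (EP_Tc2 W).trans ?_
    have h1 : ∑ z ∈ MF (M : ℤ), ∑ z' ∈ MF (M : ℤ), pr W {ω | O ω z ∧ O ω z'} ≤
        ∑ z ∈ MF (M : ℤ), ∑ z' ∈ MF (M : ℤ),
          C₂ * (M : ℝ) ^ (-(2 / 3) : ℝ) * dsup z z' ^ (-(2 / 3) : ℝ) :=
      sum_le_sum fun z hz => sum_le_sum fun z' hz' => H2 z z' (mem_MF.1 hz).2 (mem_MF.1 hz').2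
    refine h1.trans ?_
    simp only [← mul_sum]
    have h2 := sum_MF (α := 2 / 3) (by norm_num) (by norm_num) (show 1 ≤ M by omega)
    have h3 : N ^ 2 = (M : ℝ) ^ (-(2 / 3) : ℝ) * (M : ℝ) ^ (4 - 2 / 3 : ℝ) := by
      rw [hN2, ← Real.rpow_add hM0]
      congr 1
      norm_num
    rw [h3]
    have h4 : 0 ≤ C₂ * (M : ℝ) ^ (-(2 / 3) : ℝ) := by positivity
    have h5 := mul_le_mul_of_nonneg_left h2 h4
    refine h5.trans (le_of_eq ?_)
    norm_num
    ring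
  -- energy
  have m3 : EP W (fun ω => Ic A O s M ω) ≤ N ^ 2 * Ms * (C₂ * K') := by
    refine (EP_Ic W s).trans ?_
    have h1 : ∑ z ∈ MF (M : ℤ), ∑ z' ∈ MF (M : ℤ), dsup z z' ^ (-s) * pr W {ω | O ω z ∧ O ω z'} ≤
        ∑ z ∈ MF (M : ℤ), ∑ z' ∈ MF (M : ℤ),
          C₂ * (M : ℝ) ^ (-(2 / 3) : ℝ) * dsup z z' ^ (-(2 / 3 + s)) := by
      refine sum_le_sum fun z hz => sum_le_sum fun z' hz' => ?_
      have h2 := H2 z z' (mem_MF.1 hz).2 (mem_MF.1 hz').2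
      have h3 := mul_le_mul_of_nonneg_left h2 (Real.rpow_nonneg (dsup_pos z z').le (-s))
      refine h3.trans (le_of_eq ?_)
      have e2 : dsup z z' ^ (-(2 / 3 + s)) = dsup z z' ^ (-s) * dsup z z' ^ (-(2 / 3) : ℝ) := by
        rw [← Real.rpow_add (dsup_pos z z')]
        congr 1
        ring
      rw [e2]
      ring
    refine h1.trans ?_
    simp only [← mul_sum]
    have h2 := sum_MF (α := 2 / 3 + s) (by linarith) (by linarith) (show 1 ≤ M by omega)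
    have h3 : N ^ 2 * Ms = (M : ℝ) ^ (-(2 / 3) : ℝ) * (M : ℝ) ^ (4 - (2 / 3 + s)) := by
      rw [hN2, hMs, ← Real.rpow_add hM0, ← Real.rpow_add hM0]
      congr 1
      ring
    rw [h3]
    have h4 : 0 ≤ C₂ * (M : ℝ) ^ (-(2 / 3) : ℝ) := by positivity
    have h5 := mul_le_mul_of_nonneg_left h2 h4
    refine h5.trans (le_of_eq ?_)
    rw [hK']
    ring
  -- conclusion
  have k2 : ε / N * EP W (fun ω => Tc A O M ω ^ 2) ≤ N * (ε * (C₂ * 576)) := by
    have h := mul_le_mul_of_nonneg_left m2 (by positivity : (0 : ℝ) ≤ ε / N)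
    refine h.trans (le_of_eq ?_)
    field_simp
  have k3 : 1 / (4 * ε * A' * N * Ms) * EP W (fun ω => Ic A O s M ω) ≤
      N * (C₂ * K' / (4 * ε * A')) := by
    have h := mul_le_mul_of_nonneg_left m3 (by positivity : (0 : ℝ) ≤ 1 / (4 * ε * A' * N * Ms))
    refine h.trans (le_of_eq ?_)
    field_simp
  have k4 : N * (c₁ / 16 - lam - ε * (C₂ * 576) - C₂ * K' / (4 * ε * A')) ≤
      N * (G / (4 * ε)) := by
    have e : N / (4 * ε) * G = N * (G / (4 * ε)) := by ring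
    rw [e] at key
    have e2 : N * (c₁ / 16 - lam - ε * (C₂ * 576) - C₂ * K' / (4 * ε * A')) =
      N * (c₁ / 16) - lam * N - N * (ε * (C₂ * 576)) - N * (C₂ * K' / (4 * ε * A')) := by
      ring
    rw [e2]
    linarith
  have k5 := le_of_mul_le_mul_left k4 hN0
  rw [le_div_iff₀ (by positivity)] at k5
  linarith

end Sum2

open Finset Pool.Agent.Perc Pool.Agent.PercL Pool.Agent.Perc6

/-- The input of the last step from the one point and two point estimates. -/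
theorem occHyp_of_pt {col : ℤ} (h1 : OnePt col) (h2 : TwoPt col) : Pool.Agent.Perc6.OccHyp col := by
  intro s hs0 hs1 δ hδ
  obtain ⟨c₁, M₁, hc₁, hM₁, H1⟩ := h1 δ hδ
  obtain ⟨C₂, M₂, hC₂, H2⟩ := h2
  set K' : ℝ := 16 * (4 / (1 - (2 / 3 + s) / 2)) ^ 2 with hK'
  have hK'0 : 0 < K' := by
    have : 0 < 1 - (2 / 3 + s) / 2 := by linarith
    positivity
  set c := c₁ / 16 with hc
  have hc0 : 0 < c := by positivity
  set lam : ℝ := c / 4 with hlam
  set ε : ℝ := c / (4 * (C₂ * 576)) with hε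
  set A' : ℝ := C₂ * K' / (ε * c) with hA'
  have hlam0 : 0 < lam := by positivity
  have hε0 : 0 < ε := by positivity
  have hA'0 : 0 < A' := by positivity
  refine ⟨ε * c, A' / lam ^ 2, max 2 (max M₁ M₂), by positivity, by omega, fun M hM => ?_⟩
  have hM2 : 2 ≤ M := (le_max_left _ _).trans hM
  have hMa : M₁ ≤ M := (le_max_left _ _).trans ((le_max_right _ _).trans hM)
  have hMb : M₂ ≤ M := (le_max_right _ _).trans ((le_max_right _ _).trans hM)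
  obtain ⟨q, n₁, hq, H1'⟩ := H1 M hMa
  obtain ⟨n₂, H2'⟩ := H2 M q hMb (by omega) hq
  refine ⟨q, max n₁ n₂, hq, ?_⟩
  intro η x y hη hη1 W SP SD P D w1 w2 w3 w4 w5 w6 w7 w8 w9 w10 w11 w12
  have hη₁ : (n₁ : ℤ) ≤ η := le_trans (by exact_mod_cast le_max_left _ _) hη
  have hη₂ : (n₂ : ℤ) ≤ η := le_trans (by exact_mod_cast le_max_right _ _) hη
  have hW : Walls col x y M q η δ W SP SD P D :=
    ⟨w1, w2, w3, w4, w5, w6, w7, w8, w9, w10, w11, w12⟩
  have w := Sum2.window (A := P ∩ D) (O := fun ω z => OccAt ω col x y M q η z) (W := W) (s := s)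
    hs0 hs1 hc₁ hC₂ hM2 (H1' η x y hη₁ hη1 W SP SD P D hW)
    (fun z z' hz hz' => by
      rw [pr_eq_of_depOn (Sum2.depOn_occ2 col x y M q η z z') w1]
      exact H2' η x y hη₂ hη1 z z' hz hz') hlam0 hε0 hA'0
  refine le_trans (le_of_eq ?_) w
  have e1 : ε * (C₂ * 576) = c / 4 := by
    rw [hε]
    field_simp
  have e3 : C₂ * K' / (4 * ε * A') = c / 4 := by
    rw [hA']
    field_simp
  rw [← hc, e1, ← hK', e3, hlam]
  ring

end Pool.Agent.Occ
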