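import Pool.Agent.Lib.MP_6bd702_zc.Pre
import Pool.Agent.Lib.MP_6bd702_z.LawP
import Pool.Agent.Lib.MP_6bd702_zc.Y007
import Pool.Agent.Lib.MP_6bd702_zc.Y028
import Pool.Agent.Lib.MP_6bd702_zc.Y047
import Pool.Agent.Lib.MP_6bd702_zc.Y050
import Pool.Agent.Lib.MP_6bd702_zc.Y032
import Pool.Agent.Lib.MP_6bd702_zc.Y034

section PartpercDOutCurve

/-!
# The outer boundary of the limit curves, and the final form with all three properties
-/

set_option autoImplicit false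

namespace Pool.Agent.PercD

open Set Filter Topology MeasureTheory TopologicalSpace
open Pool.Agent.Perc Pool.Agent.PercS5

/-- Almost surely for every subsequential limit law, the outer boundary of the curve has
dimension `4 / 3`. -/
def TargetOutCurve : Prop := ∀ (sel : ℕ → Finset Edg → ℤ × ℤ) (φ : ℕ → ℕ) (μ : Measure Curve)
  [IsProbabilityMeasure μ], (∀ n, IsSel n (sel n)) → StrictMono φ → LimitCurve sel φ μ →
    ∀ᵐ c : Curve ∂μ, dimH (outB (c.trace : Set ℂ)) = 4 / 3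

theorem targetOutCurve_of (h : TargetOutB) : TargetOutCurve := by
  intro sel φ μ _ hsel hφ hlim
  let _ : MeasurableSpace (NonemptyCompacts ℂ) := borel _
  have : BorelSpace (NonemptyCompacts ℂ) := ⟨rfl⟩
  have hm : Measurable Curve.trace := Curve.continuous_trace.measurable
  have : IsProbabilityMeasure (μ.map Curve.trace) :=
    Measure.isProbabilityMeasure_map hm.aemeasurable
  exact ae_of_ae_map hm.aemeasurable
    (h sel φ (μ.map Curve.trace) hsel hφ (limitLaw_of_limitCurve hlim))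

/-- The final form: the laws are tight, limits along subsequences exist, and every limit law gives
full measure to the curves with trace of dimension `7 / 4` which are not self-avoiding and whose
outer boundary has dimension `4 / 3`. -/
theorem scaling_full_of (h1 : TargetTight) (h2 : TargetExist) (h3 : TargetCurve)
    (h4 : TargetOutCurve) (sel : ℕ → Finset Edg → ℤ × ℤ) (hsel : ∀ n, IsSel n (sel n)) :
    IsTightMeasureSet (range fun n => (lawP n (sel n) : Measure Curve)) ∧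
    ∀ φ : ℕ → ℕ, Tendsto φ atTop atTop →
      (∃ ψ : ℕ → ℕ, StrictMono ψ ∧ ∃ μ : ProbabilityMeasure Curve,
        Tendsto (fun k => lawP (φ (ψ k)) (sel (φ (ψ k)))) atTop (𝓝 μ)) ∧
      ∀ μ : ProbabilityMeasure Curve, Tendsto (fun k => lawP (φ k) (sel (φ k))) atTop (𝓝 μ) →
        ∀ᵐ c : Curve ∂(μ : Measure Curve), dimH (c.trace : Set ℂ) = 7 / 4 ∧ ¬ c.SelfAvoiding ∧
          dimH (outB (c.trace : Set ℂ)) = 4 / 3 := by
  obtain ⟨ht, hs⟩ := scaling_of h1 h2 h3 sel hsel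
  refine ⟨ht, fun φ hφ => ⟨(hs φ hφ).1, fun μ hμ => ?_⟩⟩
  obtain ⟨ψ, hψ, hmono⟩ := strictMono_subseq_of_tendsto_atTop hφ
  have h5 := h4 sel (φ ∘ ψ) μ hsel hmono (limitCurve_iff.2 (hμ.comp hψ.tendsto_atTop))
  filter_upwards [(hs φ hφ).2 μ hμ, h5] with c hc hc'
  exact ⟨hc.1, hc.2, hc'⟩

end Pool.Agent.PercD

end PartpercDOutCurve

section PartoccXC

/-!
# The row XC: close inner tips are unlikely
-/

set_option autoImplicit false

namespace Pool.Agent.Occ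

open Finset Pool.Agent.Perc Pool.Agent.Perc.Q Pool.Agent.Perc3

namespace XC

variable {d w g r : ℤ} {ω : Cfg}

/-- The tips of different legs are different. -/
theorem tip_ne (hw : 0 < w) {i j : Fin 3} (hij : i ≠ j) {t t' : ℤ} (h : TipL w ω i t)
    (h' : TipL w ω j t') : t ≠ t' := by
  rintro rfl
  have h4 := LegsAux.orb_eq (LegsAux.ini_leg hw i) (LegsAux.ini_leg hw j) h.2 h'.2
  have h5 : ine 0 (i : ℕ) = ine 0 (j : ℕ) := Prod.swap_injective h4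
  have h6 := ine_inj (r := 0) le_rfl (by omega) (by omega) (by omega) (by omega) h5
  exact hij (Fin.ext (by exact_mod_cast h6))

/-- Two different tips belong to an alternating triple of crossing strands. -/
theorem exists_triple' (hr : 0 < r) (hrw : r < w) {i j : Fin 3} (hij : i ≠ j) {t t' : ℤ}
    (h : TipL w ω i t) (h' : TipL w ω j t') :
    ∃ s ∈ TA w, ω ∈ Rea3 r w s ∧ ∃ k l, k ≠ l ∧ s k = t ∧ s l = t' := by
  have hne := tip_ne (by omega) hij h h'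
  have h1 := (vis_tip hr hrw le_rfl h.1.1 h.1.2 h.2).2
  have h2 := (vis_tip hr hrw le_rfl h'.1.1 h'.1.2 h'.2).2
  have main : ∃ s : Fin 3 → ℤ, Alt w s ∧ (∀ i, Rea r w ω (s i)) ∧ (∃ i, s i = t) ∧
      ∃ i, s i = t' := by
    rcases lt_or_gt_of_ne hne with hlt | hlt
    · exact exists_triple hr.le hrw h.1.1 hlt h'.1.2 h1 h2
    · obtain ⟨s, k1, k2, k3, k4⟩ := exists_triple hr.le hrw h'.1.1 hlt h.1.2 h2 h1
      exact ⟨s, k1, k2, k4, k3⟩
  obtain ⟨s, hA, hS, ⟨k, hk⟩, l, hl⟩ := main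
  refine ⟨s, mem_TA.2 hA, hS, k, l, ?_, hk, hl⟩
  rintro rfl
  exact hne (hk.symm.trans hl)

/-- The event is covered by the events of the triples. -/
theorem cover (hr : 0 < r) (hrd : r ≤ d) (hdw : d < w) (hω : ω ∈ Arm3 w)
    (h : ω ∈ CloseL d w g) :
    ∃ s ∈ TA w, ω ∈ Rea3 r w s ∩ CloseI d w g s ∨ ω ∈ SpecI d w g s := by
  have hw : 1 ≤ w := by omega
  obtain ⟨i, t, x, hT, hx, hxO, hcase⟩ := h
  rcases hcase with hns | ⟨j, t', x', hji, hT', hx', hxO', hnear⟩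
  · obtain ⟨t', h0, h1, h2⟩ := LegsAux.exit_leg hw hω (i + 1)
    have hT' : TipL w ω (i + 1) t' := ⟨⟨h0, h1⟩, h2⟩
    have hi : i ≠ i + 1 := by
      fin_cases i <;> decide
    obtain ⟨s, hs, hR, k, l, hkl, hk, hl⟩ := exists_triple' hr (by omega) hi hT hT'
    refine ⟨s, hs, Or.inr ⟨rea3_mono hr.le hrd hdw (mem_TA.1 hs) hR, k, x, ?_, hns⟩⟩
    refine ⟨hx.1, hx.2, ?_⟩
    rw [hk]
    exact hxO
  · obtain ⟨s, hs, hR, k, l, hkl, hk, hl⟩ := exists_triple' hr (by omega) hji.symm hT hT'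
    refine ⟨s, hs, Or.inl ⟨hR, rea3_mono hr.le hrd hdw (mem_TA.1 hs) hR, k, l, x, x', hkl, ?_,
      ?_, hnear⟩⟩
    · refine ⟨hx.1, hx.2, ?_⟩
      rw [hk]
      exact hxO
    · refine ⟨hx'.1, hx'.2, ?_⟩
      rw [hl]
      exact hxO'

/-- The closeness event depends on the faces of the annulus. -/
theorem depOn_closeI (d w g : ℤ) (t : Fin 3 → ℤ) :
    DepOn ((BW w \ BW d : Finset (ℤ × ℤ)) : Set (ℤ × ℤ)) (CloseI d w g t) := by
  intro ω ω' h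
  rw [coe_sdiff] at h
  constructor
  · exact closeI_congr fun f hf => h f (VS_sub hf)
  · exact closeI_congr fun f hf => (h f (VS_sub hf)).symm

theorem specI_congr {ω' : Cfg} {t : Fin 3 → ℤ} (h : ∀ f ∈ VS d w t ω, ω f = ω' f)
    (hω : ω ∈ SpecI d w g t) : ω' ∈ SpecI d w g t := by
  obtain ⟨h1, i, s, h2, h3⟩ := hω
  exact ⟨rea3_congr h h1, i, s, (TipI.congr h).2 h2, h3⟩

theorem depOn_specI (d w g : ℤ) (t : Fin 3 → ℤ) :
    DepOn ((BW w \ BW d : Finset (ℤ × ℤ)) : Set (ℤ × ℤ)) (SpecI d w g t) := by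
  intro ω ω' h
  rw [coe_sdiff] at h
  constructor
  · exact specI_congr fun f hf => h f (VS_sub hf)
  · exact specI_congr fun f hf => (h f (VS_sub hf)).symm

theorem dep_mono {S S' : Set (ℤ × ℤ)} (h : S ⊆ S') {A : Set Cfg} (hA : DepOn S A) :
    DepOn S' A := fun ω ω' h' => hA ω ω' fun f hf => h' f (h hf)

theorem dep_inter {S : Set (ℤ × ℤ)} {A B : Set Cfg} (hA : DepOn S A) (hB : DepOn S B) :
    DepOn S (A ∩ B) := fun ω ω' h => and_congr (hA ω ω' h) (hB ω ω' h)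

/-- Independence. -/
theorem pr_arm_inter {W : ℤ} (hrw : r ≤ w) (hwW : w ≤ W) {A : Set Cfg}
    (hA : DepOn ((BW w \ BW r : Finset (ℤ × ℤ)) : Set (ℤ × ℤ)) A) :
    pr (BW W) (Arm3 r ∩ A) = pr (BW r) (Arm3 r) * pr (BW w) A := by
  have h1 := pr_inter_of_disjoint (TwE.depOn_arm3 r) hA
    (by rw [disjoint_comm]; exact sdiff_disjoint)
  have e : BW r ∪ BW w \ BW r = BW w := union_sdiff_of_subset (BW_mono hrw)
  rw [e] at h1
  have h2 : DepOn ((BW w : Finset (ℤ × ℤ)) : Set (ℤ × ℤ)) (Arm3 r ∩ A) := by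
    refine dep_inter (dep_mono ?_ (TwE.depOn_arm3 r)) (dep_mono ?_ hA)
    · exact BW_mono hrw
    · exact coe_subset.2 sdiff_subset
  rw [pr_eq_of_depOn h2 (BW_sub hwW), h1, pr_eq_of_depOn hA sdiff_subset]

end XC

/-- XC -/
theorem closeLow : CloseLow := by
  obtain ⟨C, hC, haT⟩ := aT_le_top Rt.portsP Rt.routesP
  obtain ⟨C', hC', hq3⟩ := q3_upper_top Rt.portsP
  intro q hq
  set q' : ℝ := q / (6 * C * C') with hq'
  have hq'0 : 0 < q' := by positivity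
  obtain ⟨M₁, hM₁, hc⟩ := closeInP q' hq'0
  obtain ⟨M₂, hM₂, hs⟩ := specInP q' hq'0
  refine ⟨2 * (M₁ + M₂), by omega, ?_⟩
  intro g d w hg hMd hdw hd2
  obtain ⟨r, rfl⟩ : ∃ r, d = 2 * r := ⟨d / 2, by omega⟩
  have hMr : (M₁ + M₂) * g ≤ r := by
    have : 2 * ((M₁ + M₂) * g) ≤ 2 * r := by rw [← mul_assoc]; exact hMd
    omega
  have h1 : M₁ * g ≤ r := le_trans (Nat.mul_le_mul_right g (by omega)) hMr
  have h2 : M₂ * g ≤ 2 * r := le_trans (Nat.mul_le_mul_right g (by omega)) (hMr.trans (by omega))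
  have hM1g : 1 ≤ M₁ * g := Nat.mul_pos hM₁ hg
  have hr1 : 1 ≤ r := by omega
  have hrZ : (0 : ℤ) < (r : ℤ) := by exact_mod_cast hr1
  have hsub : ∀ ω ∈ Arm3 ((2 * w : ℕ) : ℤ) ∩ CloseL ((2 * r : ℕ) : ℤ) w g,
      ∃ s ∈ TA w, ω ∈ Arm3 (r : ℤ) ∩ (Rea3 r w s ∩ CloseI (2 * r) w g s ∪ SpecI (2 * r) w g s) := by
    rintro ω ⟨hA, hCl⟩
    have hAw : ω ∈ Arm3 (w : ℤ) := arm3Anti w (2 * w) (by omega) (by omega) ω hA
    have hAr : ω ∈ Arm3 (r : ℤ) := arm3Anti r w hr1 (by omega) ω hAw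
    rw [show (((2 * r : ℕ) : ℤ)) = 2 * (r : ℤ) by push_cast; ring] at hCl
    obtain ⟨s, hs, h⟩ := XC.cover (r := r) hrZ (by omega) (by omega) hAw hCl
    exact ⟨s, hs, hAr, h⟩
  have hsum := pr_sum_le (BW ((2 * w : ℕ) : ℤ)) (TA w)
    (Arm3 ((2 * w : ℕ) : ℤ) ∩ CloseL ((2 * r : ℕ) : ℤ) w g)
    (fun s => Arm3 (r : ℤ) ∩ (Rea3 r w s ∩ CloseI (2 * r) w g s ∪ SpecI (2 * r) w g s)) hsub
  have hterm : ∀ s ∈ TA w, pr (BW ((2 * w : ℕ) : ℤ))
      (Arm3 (r : ℤ) ∩ (Rea3 r w s ∩ CloseI (2 * r) w g s ∪ SpecI (2 * r) w g s)) ≤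
      q3 r * (q' * pr (BW w) (Rea3 (2 * r) w s) + q' * pr (BW w) (Rea3 (2 * (2 * r)) w s)) := by
    intro s hsT
    have hAlt := mem_TA.1 hsT
    have hdis : (BW w \ BW (2 * r) : Finset (ℤ × ℤ)) ⊆ BW w \ BW r :=
      sdiff_subset_sdiff subset_rfl (BW_sub (by omega))
    have hd1 : DepOn ((BW w \ BW r : Finset (ℤ × ℤ)) : Set (ℤ × ℤ))
        (Rea3 r w s ∩ CloseI (2 * r) w g s ∪ SpecI (2 * r) w g s) := by
      intro ω ω' h
      have a1 := depOn_rea3 r w s ω ω' h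
      have a2 := XC.dep_mono (coe_subset.2 hdis) (XC.depOn_closeI (2 * r) w g s) ω ω' h
      have a3 := XC.dep_mono (coe_subset.2 hdis) (XC.depOn_specI (2 * r) w g s) ω ω' h
      rw [Set.mem_union, Set.mem_union, Set.mem_inter_iff, Set.mem_inter_iff, a1, a2, a3]
    rw [XC.pr_arm_inter (by omega) (by omega) hd1]
    refine mul_le_mul_of_nonneg_left ?_ (q3_nonneg r)
    refine (pr_union_le _ _ _).trans (add_le_add ?_ ?_)
    · exact hc g r w hg h1 (by omega) s hAlt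
    · have := hs g (2 * r) w hg h2 (by omega) s hAlt
      push_cast at this
      exact this
  refine (hsum.trans (sum_le_sum hterm)).trans ?_
  rw [← mul_sum, sum_add_distrib, ← mul_sum, ← mul_sum]
  change q3 r * (q' * aT (2 * r) w + q' * aT (2 * (2 * r)) w) ≤ _
  have e1 := haT (2 * r) w (by omega) (by omega)
  have e2 := haT (2 * (2 * r)) w (by omega) (by omega)
  have e3 := hq3 r hr1
  push_cast at e1 e2
  have hr0 : (0 : ℝ) < r := by exact_mod_cast hr1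
  have hw0 : (0 : ℝ) < w := by
    have : 0 < w := by omega
    exact_mod_cast this
  have key : ∀ m : ℝ, 0 < m → (m * r / w) ^ (2 / 3 : ℝ) =
      m ^ (2 / 3 : ℝ) * ((r : ℝ) ^ (2 / 3 : ℝ) * (w : ℝ) ^ (-(2 / 3) : ℝ)) := by
    intro m hm
    rw [Real.div_rpow (by positivity) hw0.le, Real.mul_rpow hm.le hr0.le, Real.rpow_neg hw0.le]
    ring
  have p2 : (2 : ℝ) ^ (2 / 3 : ℝ) ≤ 2 := by
    calc (2 : ℝ) ^ (2 / 3 : ℝ) ≤ (2 : ℝ) ^ (1 : ℝ) :=
          Real.rpow_le_rpow_of_exponent_le (by norm_num) (by norm_num)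
      _ = 2 := Real.rpow_one _
  have p4 : (4 : ℝ) ^ (2 / 3 : ℝ) ≤ 4 := by
    calc (4 : ℝ) ^ (2 / 3 : ℝ) ≤ (4 : ℝ) ^ (1 : ℝ) :=
          Real.rpow_le_rpow_of_exponent_le (by norm_num) (by norm_num)
      _ = 4 := Real.rpow_one _
  set X : ℝ := (r : ℝ) ^ (2 / 3 : ℝ) * (w : ℝ) ^ (-(2 / 3) : ℝ) with hX
  have hX0 : 0 ≤ X := by positivity
  have f1 : aT (2 * r) w ≤ C * (2 * X) := by
    refine e1.trans (mul_le_mul_of_nonneg_left ?_ hC.le)
    rw [key 2 (by norm_num)]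
    exact mul_le_mul_of_nonneg_right p2 hX0
  have f2 : aT (2 * (2 * r)) w ≤ C * (4 * X) := by
    refine e2.trans (mul_le_mul_of_nonneg_left ?_ hC.le)
    rw [show (2 : ℝ) * (2 * r) / w = 4 * r / w by ring, key 4 (by norm_num)]
    exact mul_le_mul_of_nonneg_right p4 hX0
  have hcancel : (r : ℝ) ^ (-(2 / 3) : ℝ) * (r : ℝ) ^ (2 / 3 : ℝ) = 1 := by
    rw [← Real.rpow_add hr0]
    norm_num
  calc q3 r * (q' * aT (2 * r) w + q' * aT (2 * (2 * r)) w)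
      ≤ (C' * (r : ℝ) ^ (-(2 / 3) : ℝ)) * (q' * (C * (2 * X)) + q' * (C * (4 * X))) := by
        refine mul_le_mul e3 ?_ ?_ (by positivity)
        · exact add_le_add (mul_le_mul_of_nonneg_left f1 hq'0.le)
            (mul_le_mul_of_nonneg_left f2 hq'0.le)
        · exact add_nonneg (mul_nonneg hq'0.le (aT_nonneg _ _))
            (mul_nonneg hq'0.le (aT_nonneg _ _))
    _ = q' * (6 * C * C') * ((r : ℝ) ^ (-(2 / 3) : ℝ) * (r : ℝ) ^ (2 / 3 : ℝ)) *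
          (w : ℝ) ^ (-(2 / 3) : ℝ) := by
        rw [hX]
        ring
    _ = q * (w : ℝ) ^ (-(2 / 3) : ℝ) := by
        rw [hcancel, mul_one, hq', div_mul_cancel₀ _ (by positivity)]

end Pool.Agent.Occ

end PartoccXC

section Partperc3T3Lift

/-!
# T3, row Lift: the strands of the twisted plane and the cover
-/

set_option autoImplicit false

namespace Pool.Agent.Perc3

open Finset Pool.Agent.Perc Pool.Agent.Perc.Q

variable {d w n : ℤ} {ω : Cfg} {N : ℤ × ℤ → ℤ}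

namespace LiftAux

open Relation

theorem sd_0 (f : ℤ × ℤ) : sd f 0 = (f.1, f.2, false) := rfl
theorem sd_1 (f : ℤ × ℤ) : sd f 1 = (f.1 + 1, f.2, true) := rfl
theorem sd_2 (f : ℤ × ℤ) : sd f 2 = (f.1, f.2 + 1, false) := rfl
theorem sd_3 (f : ℤ × ℤ) : sd f 3 = (f.1, f.2, true) := rfl

theorem isSide_iff {f : ℤ × ℤ} {a : UE} : IsSide f a ↔ ∃ k, a = sd f k := by
  constructor
  · rintro (rfl | rfl | rfl | rfl)
    · exact ⟨0, rfl⟩
    · exact ⟨3, rfl⟩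
    · exact ⟨2, rfl⟩
    · exact ⟨1, rfl⟩
  · rintro ⟨k, rfl⟩
    rcases BdAux.zk k with rfl | rfl | rfl | rfl
    · exact Or.inl rfl
    · exact Or.inr (Or.inr (Or.inr rfl))
    · exact Or.inr (Or.inr (Or.inl rfl))
    · exact Or.inr (Or.inl rfl)

theorem mt_iff {v : Bool} {f : ℤ × ℤ} {a a' : UE} : Mt (fun _ => v) f a a' ↔
    ∃ k, v = ev k ∧ ((a = sd f k ∧ a' = sd f (k + 1)) ∨ (a = sd f (k + 1) ∧ a' = sd f k)) := by
  constructor
  · rintro (⟨h0, ⟨h1, h2⟩ | ⟨h1, h2⟩ | ⟨h1, h2⟩ | ⟨h1, h2⟩⟩ |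
      ⟨h0, ⟨h1, h2⟩ | ⟨h1, h2⟩ | ⟨h1, h2⟩ | ⟨h1, h2⟩⟩)
    · exact ⟨0, h0, Or.inl ⟨h1, h2⟩⟩
    · exact ⟨0, h0, Or.inr ⟨h1, h2⟩⟩
    · exact ⟨2, h0, Or.inr ⟨h1, h2⟩⟩
    · exact ⟨2, h0, Or.inl ⟨h1, h2⟩⟩
    · exact ⟨3, h0, Or.inr ⟨h1, h2⟩⟩
    · exact ⟨3, h0, Or.inl ⟨h1, h2⟩⟩
    · exact ⟨1, h0, Or.inr ⟨h1, h2⟩⟩
    · exact ⟨1, h0, Or.inl ⟨h1, h2⟩⟩
  · rintro ⟨k, h0, h⟩
    rcases BdAux.zk k with rfl | rfl | rfl | rfl
    · refine Or.inl ⟨h0, ?_⟩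
      rcases h with h | h
      · exact Or.inl h
      · exact Or.inr (Or.inl h)
    · refine Or.inr ⟨h0, ?_⟩
      rcases h with h | h
      · exact Or.inr (Or.inr (Or.inr h))
      · exact Or.inr (Or.inr (Or.inl h))
    · refine Or.inl ⟨h0, ?_⟩
      rcases h with h | h
      · exact Or.inr (Or.inr (Or.inr h))
      · exact Or.inr (Or.inr (Or.inl h))
    · refine Or.inr ⟨h0, ?_⟩
      rcases h with h | h
      · exact Or.inr (Or.inl h)
      · exact Or.inl h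

theorem pj_shF (f : ℤ × ℤ) : pj 1 (shF N f) = f := by
  unfold pj shF
  simp

theorem lcf_shF (f : ℤ × ℤ) : lcf 1 ω (shF N f) = ω f := by
  unfold lcf
  rw [pj_shF]

theorem shF_mem {f : ℤ × ℤ} (hf : f ∈ An d w) (h : |N f| ≤ n) : shF N f ∈ LAT d w n := by
  rw [mem_LAT, pj_shF]
  exact ⟨hf, h⟩

theorem pj_mem {s : LF} (hs : s ∈ LAT d w n) : pj 1 s ∈ An d w := by
  rw [mem_LAT] at hs
  exact hs.1

/-- The unit edges determine the column. -/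
theorem sd_inj {x x' y : ℤ} {k : ZMod 4} (h : sd (x, y) k = sd (x', y) k) : x = x' := by
  rcases BdAux.zk k with rfl | rfl | rfl | rfl <;>
    · simp only [sd_0, sd_1, sd_2, sd_3, Prod.mk.injEq] at h
      omega

end LiftAux

open LiftAux

/-- Two lifted faces with a common lifted side project to neighbouring faces of the twisted plane
(or they are equal). -/
theorem adj_of_lft (hn : n + 2 ≤ d) {s s' : LF} (hs : s ∈ LAT d w n) (hs' : s' ∈ LAT d w n)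
    {k k' : ZMod 4} (h : lft s (sd s.1 k) = lft s' (sd s'.1 k')) : (s = s' ∧ k = k') ∨
      (TQ.c (pj 1 s') k' = TQ.c (pj 1 s) (k + 1) ∧ TQ.c (pj 1 s') (k' + 1) = TQ.c (pj 1 s) k) := by
  obtain ⟨⟨x, y⟩, i⟩ := s
  obtain ⟨⟨x', y'⟩, i'⟩ := s'
  rw [mem_LAT, BdAux.mem_BW, BdAux.mem_BW, abs_le] at hs hs'
  unfold pj at hs hs'
  unfold lft at h
  unfold pj
  simp only [one_mul] at hs hs' h ⊢
  have hij := (Prod.mk.inj h).2
  have hab := (Prod.mk.inj h).1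
  clear h
  rcases BdAux.zk k with rfl | rfl | rfl | rfl <;> rcases BdAux.zk k' with rfl | rfl | rfl | rfl <;>
    simp only [sd_0, sd_1, sd_2, sd_3, Prod.mk.injEq, Bool.true_eq_false, Bool.false_eq_true,
      and_false, and_true] at hab <;>
    simp only [sd_0, sd_1, sd_2, sd_3, IsCut, Bool.true_eq_false, false_and, if_false, true_and]
      at hij
  · -- 0 0
    obtain ⟨rfl, rfl⟩ := hab
    left
    refine ⟨?_, rfl⟩
    have : i = i' := by split_ifs at hij <;> omega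
    rw [this]
  · -- 0 2
    obtain ⟨rfl, h2⟩ := hab
    right
    rw [BdAux.zk2, BdAux.zk0, BdAux.c_2, BdAux.c_3, BdAux.c_1, BdAux.c_0]
    simp only
    rw [← h2]
    by_cases hc : y = 0 ∧ x ≤ -2
    · rw [if_neg (by omega), if_pos (by omega)] at hij
      rw [BdAux.gl_of (by omega) (by omega) (by omega), BdAux.gl_of_ne (by omega),
        BdAux.gl_of (by omega) (by omega) (by omega), BdAux.gl_of_ne (by omega)]
      simp only [Prod.mk.injEq, and_true]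
      omega
    · rw [if_neg (by omega), if_neg (by omega)] at hij
      rw [BdAux.gl_of_ne (by omega), BdAux.gl_of_ne (by omega),
        BdAux.gl_of_ne (by omega), BdAux.gl_of_ne (by omega)]
      simp only [Prod.mk.injEq, and_true]
      omega
  · -- 1 1
    obtain ⟨h1, rfl⟩ := hab
    left
    refine ⟨?_, rfl⟩
    have h3 : x = x' := by omega
    rw [h3, hij]
  · -- 1 3
    obtain ⟨h1, rfl⟩ := hab
    right
    rw [BdAux.zk3, BdAux.zk1, BdAux.c_2, BdAux.c_3, BdAux.c_1, BdAux.c_0]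
    simp only
    rw [show x' + i' = x + i + 1 by omega]
    exact ⟨rfl, rfl⟩
  · -- 2 0
    obtain ⟨rfl, h2⟩ := hab
    right
    rw [BdAux.zk2, BdAux.zk0, BdAux.c_2, BdAux.c_3, BdAux.c_1, BdAux.c_0]
    simp only
    rw [← h2]
    by_cases hc : y + 1 = 0 ∧ x ≤ -2
    · rw [if_pos (by omega), if_neg (by omega)] at hij
      rw [BdAux.gl_of_ne (by omega), BdAux.gl_of (by omega) (by omega) (by omega),
        BdAux.gl_of_ne (by omega), BdAux.gl_of (by omega) (by omega) (by omega)]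
      simp only [Prod.mk.injEq, and_true]
      omega
    · rw [if_neg (by omega), if_neg (by omega)] at hij
      rw [BdAux.gl_of_ne (by omega), BdAux.gl_of_ne (by omega),
        BdAux.gl_of_ne (by omega), BdAux.gl_of_ne (by omega)]
      simp only [Prod.mk.injEq, and_true]
      omega
  · -- 2 2
    obtain ⟨rfl, h2⟩ := hab
    left
    refine ⟨?_, rfl⟩
    have h3 : y = y' := by omega
    subst h3
    have : i = i' := by split_ifs at hij <;> omega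
    rw [this]
  · -- 3 1
    obtain ⟨h1, rfl⟩ := hab
    right
    rw [BdAux.zk3, BdAux.zk1, BdAux.c_2, BdAux.c_3, BdAux.c_1, BdAux.c_0]
    simp only
    rw [show x + i = x' + i' + 1 by omega]
    exact ⟨rfl, rfl⟩
  · -- 3 3
    obtain ⟨rfl, rfl⟩ := hab
    left
    exact ⟨by rw [hij], rfl⟩

namespace LiftAux

variable {f₀ : ℤ × ℤ} {k₀ : ZMod 4}

/-- The lifts of the sides of the strand are in the lifted component. -/
theorem claimA (hini : Ini TQ (An d w) (TQ.c f₀ k₀, TQ.c f₀ (k₀ + 1)))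
    (hI : IsIndT (Vis TQ ω (An d w) (TQ.c f₀ k₀, TQ.c f₀ (k₀ + 1))) N)
    (hN : ∀ f ∈ Vis TQ ω (An d w) (TQ.c f₀ k₀, TQ.c f₀ (k₀ + 1)), |N f| ≤ n)
    {a : (ℤ × ℤ) × (ℤ × ℤ)} (ha : a ∈ Orb TQ ω (An d w) (TQ.c f₀ k₀, TQ.c f₀ (k₀ + 1))) :
    ∀ g ∈ An d w, ∀ l, (a = (TQ.c g l, TQ.c g (l + 1)) ∨ a = (TQ.c g (l + 1), TQ.c g l)) →
      shS N g l ∈ ML (lcf 1 ω) (LAT d w n) {shS N f₀ k₀} := by
  induction ha with
  | refl =>
    rintro g hg l (h | h)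
    · obtain ⟨rfl, rfl⟩ := TQ.inj (Prod.mk.inj h).1 (Prod.mk.inj h).2
      exact mem_ML_of_mem rfl
    · exact absurd h (hini g hg l)
  | @tail a b hab hs ih =>
    obtain ⟨f, hf, k, rfl, hs⟩ := hs
    have hfV : f ∈ Vis TQ ω (An d w) (TQ.c f₀ k₀, TQ.c f₀ (k₀ + 1)) := ⟨hf, k, hab⟩
    have h1 := ih f hf k (Or.inl rfl)
    have hmem : shF N f ∈ (LAT d w n : Set LF) := Finset.mem_coe.2 (shF_mem hf (hN f hfV))
    have hb : b ∈ Orb TQ ω (An d w) (TQ.c f₀ k₀, TQ.c f₀ (k₀ + 1)) :=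
      Orb_step hab ⟨f, hf, k, rfl, hs⟩
    -- the matched side
    have key : ∀ k', (TQ.c f (k' + 1), TQ.c f k') = b →
        MtL (lcf 1 ω) (shF N f) (shS N f k) (shS N f k') →
        ∀ g ∈ An d w, ∀ l, (b = (TQ.c g l, TQ.c g (l + 1)) ∨ b = (TQ.c g (l + 1), TQ.c g l)) →
          shS N g l ∈ ML (lcf 1 ω) (LAT d w n) {shS N f₀ k₀} := by
      intro k' hk' hm g hg l hl
      have h2 := ML_step hmem hm h1
      rw [← hk'] at hl
      rcases hl with hl | hl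
      · have hgV : g ∈ Vis TQ ω (An d w) (TQ.c f₀ k₀, TQ.c f₀ (k₀ + 1)) :=
          ⟨hg, l, by rw [← hl, hk']; exact hb⟩
        rw [← hI f hfV g hgV k' l (Prod.mk.inj hl).1.symm (Prod.mk.inj hl).2.symm]
        exact h2
      · obtain ⟨rfl, rfl⟩ := TQ.inj (Prod.mk.inj hl).2 (Prod.mk.inj hl).1
        exact h2
    rcases hs with ⟨h2, rfl⟩ | ⟨h2, rfl⟩
    · refine key (k + 1) (by rw [z1]) ?_
      refine ⟨sd (shF N f).1 k, sd (shF N f).1 (k + 1), ?_, rfl, rfl⟩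
      rw [lcf_shF]
      exact mt_iff.2 ⟨k, h2, Or.inl ⟨rfl, rfl⟩⟩
    · refine key (k + 3) (by rw [z5]) ?_
      refine ⟨sd (shF N f).1 k, sd (shF N f).1 (k + 3), ?_, rfl, rfl⟩
      rw [lcf_shF]
      exact mt_iff.2 ⟨k + 3, by rw [ev_add_three]; exact h2, Or.inr ⟨by rw [z5], rfl⟩⟩

/-- A lifted face with a side in the lift of the strand. -/
theorem claimC (hn : n + 2 ≤ d) (hini : Ini TQ (An d w) (TQ.c f₀ k₀, TQ.c f₀ (k₀ + 1)))
    (hI : IsIndT (Vis TQ ω (An d w) (TQ.c f₀ k₀, TQ.c f₀ (k₀ + 1))) N)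
    (hN : ∀ f ∈ Vis TQ ω (An d w) (TQ.c f₀ k₀, TQ.c f₀ (k₀ + 1)), |N f| ≤ n) {s : LF}
    (hs : s ∈ LAT d w n) {k l : ZMod 4} {g : ℤ × ℤ}
    (hg : g ∈ Vis TQ ω (An d w) (TQ.c f₀ k₀, TQ.c f₀ (k₀ + 1)))
    (hl : (TQ.c g l, TQ.c g (l + 1)) ∈ Un TQ ω (An d w) (TQ.c f₀ k₀, TQ.c f₀ (k₀ + 1)))
    (h : lft s (sd s.1 k) = shS N g l) :
    s = shF N (pj 1 s) ∧ pj 1 s ∈ Vis TQ ω (An d w) (TQ.c f₀ k₀, TQ.c f₀ (k₀ + 1)) ∧
      (TQ.c (pj 1 s) k, TQ.c (pj 1 s) (k + 1)) ∈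
        Un TQ ω (An d w) (TQ.c f₀ k₀, TQ.c f₀ (k₀ + 1)) := by
  have hgL : shF N g ∈ LAT d w n := shF_mem hg.1 (hN g hg)
  have hsA := pj_mem hs
  rcases adj_of_lft hn hs hgL (k := k) (k' := l) h with ⟨h1, h2⟩ | ⟨h1, h2⟩
  · subst h2
    have h3 : pj 1 s = g := by rw [h1, pj_shF]
    rw [h3]
    exact ⟨h1, hg, hl⟩
  · rw [pj_shF] at h1 h2
    have hUn : (TQ.c (pj 1 s) k, TQ.c (pj 1 s) (k + 1)) ∈
        Un TQ ω (An d w) (TQ.c f₀ k₀, TQ.c f₀ (k₀ + 1)) := by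
      rw [← h1, ← h2]
      have := Un_swap.2 hl
      exact this
    have hV := vis_of_un hini hsA hUn
    refine ⟨?_, hV, hUn⟩
    have h3 : shS N (pj 1 s) k = shS N g l := hI _ hV _ hg k l h1 h2
    rw [← h3] at h
    have h4 := (Prod.mk.inj h).1
    obtain ⟨⟨x, y⟩, i⟩ := s
    unfold pj at h4 ⊢
    unfold shF at h4 ⊢
    simp only [one_mul] at h4 ⊢
    have h5 := sd_inj h4
    have h6 : i = N (x + i, y) := by omega
    rw [← h6]
    simp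

/-- The projection of the lifted component. -/
theorem claimB (hn : n + 2 ≤ d) (hf₀ : f₀ ∈ An d w)
    (hini : Ini TQ (An d w) (TQ.c f₀ k₀, TQ.c f₀ (k₀ + 1)))
    (hI : IsIndT (Vis TQ ω (An d w) (TQ.c f₀ k₀, TQ.c f₀ (k₀ + 1))) N)
    (hN : ∀ f ∈ Vis TQ ω (An d w) (TQ.c f₀ k₀, TQ.c f₀ (k₀ + 1)), |N f| ≤ n) {c : LE}
    (hc : c ∈ ML (lcf 1 ω) (LAT d w n) {shS N f₀ k₀}) :
    ∃ g ∈ Vis TQ ω (An d w) (TQ.c f₀ k₀, TQ.c f₀ (k₀ + 1)), ∃ l, c = shS N g l ∧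
      (TQ.c g l, TQ.c g (l + 1)) ∈ Un TQ ω (An d w) (TQ.c f₀ k₀, TQ.c f₀ (k₀ + 1)) := by
  refine ML_induction (P := fun c => ∃ g ∈ Vis TQ ω (An d w) (TQ.c f₀ k₀, TQ.c f₀ (k₀ + 1)),
    ∃ l, c = shS N g l ∧ (TQ.c g l, TQ.c g (l + 1)) ∈
      Un TQ ω (An d w) (TQ.c f₀ k₀, TQ.c f₀ (k₀ + 1))) ?_ ?_ c hc
  · rintro c rfl
    exact ⟨f₀, ⟨hf₀, k₀, mem_Orb_self⟩, k₀, rfl, Or.inl mem_Orb_self⟩
  · rintro b b' s hs ⟨a, a', hm, rfl, rfl⟩ _ ⟨g, hg, l, h1, h2⟩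
    obtain ⟨k, hk, hka⟩ := mt_iff.1 hm
    have hs' : s ∈ LAT d w n := Finset.mem_coe.1 hs
    have hval : ω (pj 1 s) = ev k := hk
    rcases hka with ⟨rfl, rfl⟩ | ⟨rfl, rfl⟩
    · obtain ⟨c1, c2, c3⟩ := claimC hn hini hI hN hs' hg h2 h1
      refine ⟨pj 1 s, c2, k + 1, ?_, ?_⟩
      · unfold shS
        rw [← c1]
      · rw [z1]
        exact (un_iff hini c2.1 hval).1 c3
    · obtain ⟨c1, c2, c3⟩ := claimC hn hini hI hN hs' hg h2 h1
      refine ⟨pj 1 s, c2, k, ?_, ?_⟩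
      · unfold shS
        rw [← c1]
      · rw [z1] at c3
        exact (un_iff hini c2.1 hval).2 c3

end LiftAux

/-- The lifted component of a strand of the annulus `BW w \ BW d`: the visited lifted faces. -/
theorem SL_liftT (hn : n + 2 ≤ d) (hdw : d < w) {f₀ : ℤ × ℤ} {k₀ : ZMod 4} (hf₀ : f₀ ∈ An d w)
    (hini : Ini TQ (An d w) (TQ.c f₀ k₀, TQ.c f₀ (k₀ + 1)))
    (hI : IsIndT (Vis TQ ω (An d w) (TQ.c f₀ k₀, TQ.c f₀ (k₀ + 1))) N)
    (hN : ∀ f ∈ Vis TQ ω (An d w) (TQ.c f₀ k₀, TQ.c f₀ (k₀ + 1)), |N f| ≤ n) :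
    SL (lcf 1 ω) (LAT d w n) {shS N f₀ k₀} =
      {s | ∃ f ∈ Vis TQ ω (An d w) (TQ.c f₀ k₀, TQ.c f₀ (k₀ + 1)), s = shF N f} := by
  ext s
  constructor
  · rintro ⟨hs, a, ha, hm⟩
    obtain ⟨k, rfl⟩ := isSide_iff.1 ha
    obtain ⟨g, hg, l, h1, h2⟩ := claimB hn hf₀ hini hI hN hm
    obtain ⟨c1, c2, -⟩ := claimC hn hini hI hN (Finset.mem_coe.1 hs) hg h2 h1
    exact ⟨pj 1 s, c2, c1⟩
  · rintro ⟨f, hf, rfl⟩
    obtain ⟨hfA, k, hk⟩ := hf
    exact ⟨Finset.mem_coe.2 (shF_mem hfA (hN f ⟨hfA, k, hk⟩)), sd (shF N f).1 k,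
      isSide_iff.2 ⟨k, rfl⟩, claimA hini hI hN hk f hfA k (Or.inl rfl)⟩

/-- The lifted component contains the lifts of all the unit edges of the strand. -/
theorem ML_liftT (hn : n + 2 ≤ d) (hdw : d < w) {f₀ : ℤ × ℤ} {k₀ : ZMod 4} (hf₀ : f₀ ∈ An d w)
    (hini : Ini TQ (An d w) (TQ.c f₀ k₀, TQ.c f₀ (k₀ + 1)))
    (hI : IsIndT (Vis TQ ω (An d w) (TQ.c f₀ k₀, TQ.c f₀ (k₀ + 1))) N)
    (hN : ∀ f ∈ Vis TQ ω (An d w) (TQ.c f₀ k₀, TQ.c f₀ (k₀ + 1)), |N f| ≤ n) {f : ℤ × ℤ}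
    (hf : f ∈ An d w) {k : ZMod 4}
    (h : (TQ.c f k, TQ.c f (k + 1)) ∈ Un TQ ω (An d w) (TQ.c f₀ k₀, TQ.c f₀ (k₀ + 1))) :
    shS N f k ∈ ML (lcf 1 ω) (LAT d w n) {shS N f₀ k₀} := by
  rcases h with h | h
  · exact claimA hini hI hN h f hf k (Or.inl rfl)
  · exact claimA hini hI hN h f hf k (Or.inr rfl)

end Pool.Agent.Perc3

end Partperc3T3Lift

section Partperc3TopDone

/-!
# The exponent 2/3 of the three legs and of the pairs: final statements without hypotheses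
-/

set_option autoImplicit false

namespace Pool.Agent.Perc.Q

open Finset Pool.Agent.Perc

theorem glue3_done : Glue3 := glue3_top Rt.portsP

/-- The upper bound for the three legs. -/
theorem q3_upper_done :
    ∃ C : ℝ, 0 < C ∧ ∀ R : ℕ, 1 ≤ R → q3 R ≤ C * (R : ℝ) ^ (-(2 / 3 : ℝ)) :=
  q3_upper_top Rt.portsP

/-- Three legs with separated tips. -/
theorem sep3_lower_done :
    ∃ M : ℕ, ∃ c : ℝ, 0 < M ∧ 0 < c ∧ ∀ g R : ℕ, 1 ≤ g → M * g ≤ R →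
      c * (R : ℝ) ^ (-(2 / 3 : ℝ)) ≤ pr (BW R) (Sep3 R g) :=
  sep3_lower_top Rt.portsP

/-- The bound for the pairs. -/
theorem nT_le_done :
    ∃ C : ℝ, 0 < C ∧ ∀ d w : ℕ, 1 ≤ d → 2 * d ≤ w → nT d w ≤ C * ((d : ℝ) / w) ^ (2 / 3 : ℝ) :=
  nT_le_top Rt.portsP Rt.routesP

/-- The bound for the alternating triples. -/
theorem aT_le_done :
    ∃ C : ℝ, 0 < C ∧ ∀ d w : ℕ, 1 ≤ d → 2 * d ≤ w → aT d w ≤ C * ((d : ℝ) / w) ^ (2 / 3 : ℝ) :=
  aT_le_top Rt.portsP Rt.routesP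

end Pool.Agent.Perc.Q

end Partperc3TopDone
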