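import Pool.Agent.Lib.MP_6bd702_zc.Pre
import Pool.Agent.Lib.MP_6bd702_zc.Y028
import Pool.Agent.Lib.MP_6bd702_zc.Y055
import Pool.Agent.Lib.MP_6bd702_zc.Y047
import Pool.Agent.Lib.MP_6bd702_zc.Y029
import Pool.Agent.Lib.MP_6bd702_zc.Y030
import Pool.Agent.Lib.MP_6bd702_zc.Y038
import Pool.Agent.Lib.MP_6bd702_zc.Y046
import Pool.Agent.Lib.MP_6bd702_zc.Y037
import Pool.Agent.Lib.MP_6bd702_zc.Y034
import Pool.Agent.Lib.MP_6bd702_z.Z033

section PartoccXTDet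

/-!
# The two lifted components of the legs: the projection, the inner tips and the balls
(row XT, deterministic part)
-/

set_option autoImplicit false

namespace Pool.Agent.Occ.XTAux

open Finset Pool.Agent.Perc Pool.Agent.Perc.Q Pool.Agent.Perc3 Relation
open Pool.Agent.Perc3.LiftAux Pool.Agent.Perc3.TipAux

variable {d w n t : ℤ} {ω : Cfg} {E : Set LE} {F : Set (ℤ × ℤ)} {e : (ℤ × ℤ) × (ℤ × ℤ)}

/-- Two lifted faces with a common lifted side. -/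
theorem un_of_lft (hn : n + 2 ≤ d) {s s' : LF} (hs : s ∈ LAT d w n) (hs' : s' ∈ LAT d w n)
    {k k' : ZMod 4} (h : lft s (sd s.1 k) = lft s' (sd s'.1 k'))
    (hU : (TQ.c (pj 1 s') k', TQ.c (pj 1 s') (k' + 1)) ∈ Un TQ ω F e) :
    (TQ.c (pj 1 s) k, TQ.c (pj 1 s) (k + 1)) ∈ Un TQ ω F e := by
  rcases adj_of_lft hn hs hs' h with ⟨rfl, rfl⟩ | ⟨h1, h2⟩
  · exact hU
  · rw [← h1, ← h2]
    exact Un_swap.2 hU

/-- The lift of a starting edge. -/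
theorem start (hd : 0 ≤ d) (hdw : d < w) (h0 : 0 ≤ t) (h1 : t < 8 * w + 3) :
    ∃ f ∈ An d w, ∃ k, ine w t = (TQ.c f k, TQ.c f (k + 1)) ∧
      shS (fun _ => 0) f k = bdL w t 0 := by
  obtain ⟨f, hf, hf', k, hk⟩ := ine_face (r := w) (by omega) h0 h1
  obtain ⟨f', k', h2, h3, h4, h5⟩ := ine_in (r := w) (by omega) h0 h1
  rw [hk] at h2
  obtain ⟨rfl, rfl⟩ := TQ.inj (Prod.mk.inj h2).1 (Prod.mk.inj h2).2
  exact ⟨f, ⟨hf, fun h => hf' (Finset.mem_coe.1 (BW_mono (show d ≤ w - 1 by omega)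
    (Finset.mem_coe.2 h)))⟩, k, hk, shS_eq h3 h4 h5 _⟩

/-- The projection of the lifted component of a boundary edge. -/
theorem projB (hn0 : 0 ≤ n) (hn : n + 2 ≤ d) (hdw : d < w) (h0 : 0 ≤ t) (h1 : t < 8 * w + 3)
    {c : LE} (hc : c ∈ ML (lcf 1 ω) (LAT d w n) {bdL w t 0}) :
    ∃ s ∈ LAT d w n, ∃ k, c = lft s (sd s.1 k) ∧
      (TQ.c (pj 1 s) k, TQ.c (pj 1 s) (k + 1)) ∈ Un TQ ω (An d w) (ine w t) := by
  have hini := ini_outer (d := d) (by omega) hdw h0 h1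
  refine ML_induction (P := fun c => ∃ s ∈ LAT d w n, ∃ k, c = lft s (sd s.1 k) ∧
      (TQ.c (pj 1 s) k, TQ.c (pj 1 s) (k + 1)) ∈ Un TQ ω (An d w) (ine w t)) ?_ ?_ c hc
  · rintro c rfl
    obtain ⟨f, hf, k, h2, h3⟩ := start (d := d) (by omega) hdw h0 h1
    refine ⟨shF (fun _ => 0) f, shF_mem hf (by simpa using hn0), k, h3.symm, ?_⟩
    rw [pj_shF, ← h2]
    exact Or.inl mem_Orb_self
  · rintro b b' s hs ⟨a, a', hm, rfl, rfl⟩ _ ⟨s₀, hs₀, k₀, h2, h3⟩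
    have hs' : s ∈ LAT d w n := Finset.mem_coe.1 hs
    obtain ⟨k, hk, hka⟩ := mt_iff.1 hm
    have hval : ω (pj 1 s) = ev k := hk
    have hsA : pj 1 s ∈ An d w := pj_mem hs'
    rcases hka with ⟨rfl, rfl⟩ | ⟨rfl, rfl⟩
    · have h4 := un_of_lft hn hs' hs₀ h2 h3
      refine ⟨s, hs', k + 1, rfl, ?_⟩
      rw [z1]
      exact (un_iff hini hsA hval).1 h4
    · have h4 := un_of_lft hn hs' hs₀ h2 h3
      refine ⟨s, hs', k, rfl, ?_⟩
      rw [z1] at h4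
      exact (un_iff hini hsA hval).2 h4

/-- The projection of the visited lifted faces. -/
theorem projS (hn0 : 0 ≤ n) (hn : n + 2 ≤ d) (hdw : d < w) (h0 : 0 ≤ t) (h1 : t < 8 * w + 3)
    {s : LF} (hs : s ∈ SL (lcf 1 ω) (LAT d w n) {bdL w t 0}) :
    pj 1 s ∈ Vis TQ ω (An d w) (ine w t) := by
  obtain ⟨hs', a, ha, hm⟩ := hs
  obtain ⟨k, rfl⟩ := isSide_iff.1 ha
  obtain ⟨s₀, hs₀, k₀, h2, h3⟩ := projB hn0 hn hdw h0 h1 hm
  exact vis_of_un (ini_outer (by omega) hdw h0 h1) (pj_mem (Finset.mem_coe.1 hs'))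
    (un_of_lft hn (Finset.mem_coe.1 hs') hs₀ h2 h3)

/-- The inner tips. -/
theorem proj_in (hn0 : 0 ≤ n) (hn : n + 2 ≤ d) (hdw : d < w) (h0 : 0 ≤ t) (h1 : t < 8 * w + 3)
    {x i : ℤ} (hx0 : 0 ≤ x) (hx1 : x < 8 * d + 3)
    (h : bdL d x i ∈ ML (lcf 1 ω) (LAT d w n) {bdL w t 0}) :
    ine d x ∈ Orb TQ ω (An d w) (ine w t) := by
  obtain ⟨s₀, hs₀, k₀, h2, h3⟩ := projB hn0 hn hdw h0 h1 h
  obtain ⟨f, k, g1, g2, g3, g4⟩ := ine_out (r := d) (by omega) hx0 hx1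
  obtain ⟨f', hf'1, hf'2, k', g5⟩ := ine_opp (r := d) (by omega) hx0 hx1
  rw [g1] at g5
  obtain ⟨rfl, rfl⟩ := TQ.inj (Prod.mk.inj g5).1 (Prod.mk.inj g5).2
  have hfA : f ∈ An d w := ⟨Finset.mem_coe.1 (BW_mono (show d + 1 ≤ w by omega)
    (Finset.mem_coe.2 hf'1)), hf'2⟩
  -- the index
  have hi : i = s₀.2 := by
    have h4 := congrArg Prod.snd h2
    have h5 := congrArg Prod.fst h2
    unfold bdL lft at h4 h5
    simp only at h4 h5
    rw [← h5, if_neg] at h4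
    · exact h4
    · rintro ⟨⟨h6, h7, -⟩, -⟩
      rw [← g2] at h6 h7
      unfold shE at h6 h7
      simp only at h6 h7
      rcases g3 with g3 | g3
      · rw [g3] at h6
        exact Bool.noConfusion h6
      · exact g3 h7
  have hin : |i| ≤ n := by
    rw [hi]
    rw [mem_LAT] at hs₀
    exact hs₀.2
  have h6 : shS (fun _ => i) f k = bdL d x i := shS_eq g2 g3 g4 _
  have h7 := un_of_lft (ω := ω) (F := An d w) (e := ine w t) hn
    (shF_mem (N := fun _ => i) hfA hin) hs₀ (k := k) (k' := k₀) (h6.trans h2) h3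
  rw [pj_shF, ← g1] at h7
  rcases h7 with h7 | h7
  · exfalso
    have h8 := eq_of_ini h7 (ini_inner (by omega) hdw hx0 hx1)
    have h9 : bd d (x + 1) = bd w t := (Prod.mk.inj h8).1
    exact bd_ne (by omega) hdw (by omega) (by omega) h0 (by omega) h9
  · rwa [Prod.swap_swap] at h7

/-- The components of two tips are different. -/
theorem proj_ne (hn0 : 0 ≤ n) (hn : n + 2 ≤ d) (hdw : d < w) (h0 : 0 ≤ t) (h1 : t < 8 * w + 3)
    {t' : ℤ} (h0' : 0 ≤ t') (h1' : t' < 8 * w + 3) (hR : Rea d w ω t)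
    (h : bdL w t' 0 ∈ ML (lcf 1 ω) (LAT d w n) {bdL w t 0}) : t' = t := by
  obtain ⟨s₀, hs₀, k₀, h2, h3⟩ := projB hn0 hn hdw h0 h1 h
  obtain ⟨f, hf, k, h4, h5⟩ := start (d := d) (by omega) hdw h0' h1'
  have h7 := un_of_lft (ω := ω) (F := An d w) (e := ine w t) hn
    (shF_mem (N := fun _ => 0) hf (by simpa using hn0)) hs₀ (k := k) (k' := k₀)
    (h5.trans h2) h3
  rw [pj_shF, ← h4] at h7
  rcases h7 with h7 | h7
  · exact ine_inj (by omega) h0' h1' h0 h1 (eq_of_ini h7 (ini_outer (by omega) hdw h0' h1'))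
  · exact absurd h7 (hR.not_out (by omega) hdw h0' h1')

/-! ### The balls -/

/-- The index `0` is compatible with the cover in a region above the axis. -/
theorem isIndT_zero {X : Set (ℤ × ℤ)} (hX : ∀ f ∈ X, 0 < f.2) : IsIndT X (fun _ => 0) := by
  intro f hf g hg k l h1 h2
  have hf' := hX f hf
  have hg' := hX g hg
  obtain ⟨hl, h⟩ := BdAux.side_eq (f := f) (g := g) (k := k) (l := l) (by rw [h1, h2])
  subst hl
  have e : ∀ (f : ℤ × ℤ) (k : ZMod 4), 0 < f.2 → shS (fun _ => 0) f k = (sd f k, 0) := by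
    intro f k hf
    unfold shS lft shF
    simp only [sub_zero]
    rw [if_neg (by omega)]
  rw [e f k hf', e g _ hg']
  congr 1
  rcases h with ⟨rfl, h3, h4⟩ | ⟨rfl, h3, h4⟩ | ⟨rfl, h3, h4⟩ | ⟨rfl, h3, h4⟩
  · rw [BdAux.zp0, sd_0, sd_2]
    simp only [Prod.mk.injEq, and_true]
    omega
  · rw [BdAux.zp1, sd_1, sd_3]
    simp only [Prod.mk.injEq, and_true]
    omega
  · rw [BdAux.zp2, sd_2, sd_0]
    simp only [Prod.mk.injEq, and_true]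
    omega
  · rw [BdAux.zp3, sd_3, sd_1]
    simp only [Prod.mk.injEq, and_true]
    omega

/-- The lifts with index `0` of the sides of a strand in a region above the axis. -/
theorem claimX {X : Set (ℤ × ℤ)} (hXA : X ⊆ An d w) (hX : ∀ f ∈ X, 0 < f.2) (hn0 : 0 ≤ n)
    {f₀ : ℤ × ℤ} {k₀ : ZMod 4} (hini : Ini TQ X (TQ.c f₀ k₀, TQ.c f₀ (k₀ + 1)))
    {a : (ℤ × ℤ) × (ℤ × ℤ)} (ha : a ∈ Orb TQ ω X (TQ.c f₀ k₀, TQ.c f₀ (k₀ + 1))) :
    ∀ g ∈ X, ∀ l, (a = (TQ.c g l, TQ.c g (l + 1)) ∨ a = (TQ.c g (l + 1), TQ.c g l)) →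
      shS (fun _ => 0) g l ∈ ML (lcf 1 ω) (LAT d w n) {shS (fun _ => 0) f₀ k₀} := by
  induction ha with
  | refl =>
    rintro g hg l (h | h)
    · obtain ⟨rfl, rfl⟩ := TQ.inj (Prod.mk.inj h).1 (Prod.mk.inj h).2
      exact mem_ML_of_mem rfl
    · exact absurd h (hini g hg l)
  | @tail a b hab hs ih =>
    obtain ⟨f, hf, k, rfl, hs⟩ := hs
    have h1 := ih f hf k (Or.inl rfl)
    have hmem : shF (fun _ => 0) f ∈ (LAT d w n : Set LF) :=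
      Finset.mem_coe.2 (shF_mem (hXA hf) (by simpa using hn0))
    have hb : b ∈ Orb TQ ω X (TQ.c f₀ k₀, TQ.c f₀ (k₀ + 1)) :=
      Orb_step hab ⟨f, hf, k, rfl, hs⟩
    -- the matched side
    have key : ∀ k', (TQ.c f (k' + 1), TQ.c f k') = b →
        MtL (lcf 1 ω) (shF (fun _ => 0) f) (shS (fun _ => 0) f k) (shS (fun _ => 0) f k') →
        ∀ g ∈ X, ∀ l, (b = (TQ.c g l, TQ.c g (l + 1)) ∨ b = (TQ.c g (l + 1), TQ.c g l)) →
          shS (fun _ => 0) g l ∈ ML (lcf 1 ω) (LAT d w n) {shS (fun _ => 0) f₀ k₀} := by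
      intro k' hk' hm g hg l hl
      have h2 := ML_step hmem hm h1
      rw [← hk'] at hl
      rcases hl with hl | hl
      · rw [← isIndT_zero hX f hf g hg k' l (Prod.mk.inj hl).1.symm (Prod.mk.inj hl).2.symm]
        exact h2
      · obtain ⟨rfl, rfl⟩ := TQ.inj (Prod.mk.inj hl).2 (Prod.mk.inj hl).1
        exact h2
    rcases hs with ⟨h2, rfl⟩ | ⟨h2, rfl⟩
    · refine key (k + 1) (by rw [z1]) ?_
      refine ⟨sd (shF (fun _ => 0) f).1 k, sd (shF (fun _ => 0) f).1 (k + 1), ?_, rfl, rfl⟩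
      rw [lcf_shF]
      exact mt_iff.2 ⟨k, h2, Or.inl ⟨rfl, rfl⟩⟩
    · refine key (k + 3) (by rw [z5]) ?_
      refine ⟨sd (shF (fun _ => 0) f).1 k, sd (shF (fun _ => 0) f).1 (k + 3), ?_, rfl, rfl⟩
      rw [lcf_shF]
      exact mt_iff.2 ⟨k + 3, by rw [ev_add_three]; exact h2, Or.inr ⟨by rw [z5], rfl⟩⟩

/-- The faces which are visited by the strand in a region above the axis. -/
theorem sl_zero {X : Set (ℤ × ℤ)} (hXA : X ⊆ An d w) (hX : ∀ f ∈ X, 0 < f.2) (hn0 : 0 ≤ n)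
    (hd : 0 ≤ d) (hdw : d < w) (h0 : 0 ≤ t) (h1 : t < 8 * w + 3) {f : ℤ × ℤ}
    (hf : f ∈ Vis TQ ω X (ine w t)) :
    ((f, 0) : LF) ∈ SL (lcf 1 ω) (LAT d w n) {bdL w t 0} := by
  obtain ⟨f₀, hf₀, k₀, h2, h3⟩ := start (d := d) hd hdw h0 h1
  obtain ⟨hfX, k, hk⟩ := hf
  have hini : Ini TQ X (ine w t) := fun g hg l => ini_outer hd hdw h0 h1 g (hXA hg) l
  rw [h2] at hini hk
  have h4 := claimX (n := n) hXA hX hn0 hini hk f hfX k (Or.inl rfl)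
  rw [h3] at h4
  have h5 : shF (fun _ => 0) f = (f, 0) := by
    unfold shF
    simp
  have h6 : ((f, 0) : LF) ∈ LAT d w n := by
    rw [← h5]
    exact shF_mem (hXA hfX) (by simpa using hn0)
  refine ⟨Finset.mem_coe.2 h6, sd f k, isSide_iff.2 ⟨k, rfl⟩, ?_⟩
  unfold shS at h4
  rwa [h5] at h4

theorem sl_union {ζ : LF → Bool} {Ft : Set LF} {E₁ E₂ : Set LE} {s : LF}
    (h : s ∈ SL ζ Ft (E₁ ∪ E₂)) : s ∈ SL ζ Ft E₁ ∨ s ∈ SL ζ Ft E₂ := by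
  obtain ⟨hs, a, ha, e, he | he, hr⟩ := h
  · exact Or.inl ⟨hs, a, ha, e, he, hr⟩
  · exact Or.inr ⟨hs, a, ha, e, he, hr⟩

theorem sl_mono {ζ : LF → Bool} {Ft : Set LF} {E₁ E₂ : Set LE} (h : E₁ ⊆ E₂) {s : LF}
    (hs : s ∈ SL ζ Ft E₁) : s ∈ SL ζ Ft E₂ := by
  obtain ⟨hs, a, ha, hm⟩ := hs
  exact ⟨hs, a, ha, ML_mono (fun _ h => h) h hm⟩

/-- The index is determined by the projection. -/
theorem index_zero {L d₀ D μ : ℤ} {u : ℤ × ℤ} {l : List (ℤ × ℤ)} {S : Set LF}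
    (hc : Corr L L d₀ u l) (h1 : 1 < d₀) (hd : d₀ + n ≤ d) (hw : w + n + 2 ≤ L) (hD : n < D)
    (hS : ∀ s ∈ S, FarP D u l s.1 ∧ s.2 = ind L L u l s.1 - μ) {s : LF} (hs : s ∈ S)
    (hsL : s ∈ LAT d w n) (h0 : ((pj 1 s, 0) : LF) ∈ S) : s.2 = 0 := by
  obtain ⟨-, h2⟩ := hS s hs
  obtain ⟨h3, h4⟩ := hS _ h0
  simp only at h3 h4
  have hsn : |-s.2| ≤ n := by
    rw [abs_neg]
    rw [mem_LAT] at hsL
    exact hsL.2
  have h5 := ind_move hc h1 hd hw hD (pj_mem hsL) h3 hsn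
  have h6 : ((pj 1 s).1 + -s.2, (pj 1 s).2) = s.1 := by
    unfold pj
    simp
  rw [h6] at h5
  omega

end Pool.Agent.Occ.XTAux

end PartoccXTDet

section PartoccXTAx

/-!
# The additional conditions on the two lifted components (row XT)
-/

set_option autoImplicit false

namespace Pool.Agent.Occ.XTAux

open Finset Pool.Agent.Perc Pool.Agent.Perc.Q Pool.Agent.Perc3 Relation
open Pool.Agent.Perc3.LiftAux Pool.Agent.Perc3.TipAux

variable {d w A σ g ya yb : ℤ} {m : ℕ} {ω : Cfg} {i : Fin 3}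

theorem mem_Ports {w : ℤ} {p : ℤ × ℤ} (h : p ∈ Ports w) :
    w ≤ 4 * p.1 ∧ 2 * p.1 < w ∧ w ≤ 4 * p.2 ∧ 2 * p.2 < w ∧ (p.1 + p.2) % 2 = 0 := by
  unfold Ports at h
  rw [mem_filter] at h
  exact h.2

/-- The faces visited by the strand which enters at a tip. -/
theorem vis_sub (hd : 0 < d) (hdw : d < w) {t : ℤ} (h : TipL w ω i t) {f : ℤ × ℤ}
    (hf : f ∈ Vis TQ ω (An d w) (ine w t)) : f ∈ Vis TQ ω (BW w : Set (ℤ × ℤ)) (leg i) := by
  have h1 := (vis_tip hd hdw le_rfl h.1.1 h.1.2 h.2).1 hf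
  unfold VT at h1
  rw [LegsAux.an_zero w] at h1
  exact h1.1

/-- The conditions on the inner tips and on the balls. -/
theorem ax_of (hσ : 16 * ((m : ℤ) + 7) ≤ σ) (hσA : σ ≤ A) (hσd : 16 * σ ≤ d) (hdw : 4 * d < w)
    (hA : 100 * A ≤ w) (hPE : PortEv w ω i ya yb) (hclose : ω ∉ CloseL d w g)
    (hball : ω ∉ BallBad w (7 * A))
    (hpt : lcf 1 ω ∈ PairT (w + σ) (d - σ) d w (2 * m + 12) σ m ya (4 * w + 1 - yb) 0) :
    AX (lcf 1 ω) A g d w (2 * m + 12) ya yb := by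
  obtain ⟨hP, hT1, hT2⟩ := hPE
  have hP' := mem_Ports hP
  simp only at hP'
  have hn0 : (0 : ℤ) ≤ 2 * m + 12 := by omega
  have hn : (2 * m + 12 : ℤ) + 2 ≤ d := by omega
  have hdw' : d < w := by omega
  have hd : 0 < d := by omega
  have ht1 : 0 ≤ ya ∧ ya < 8 * w + 3 := by omega
  have ht2 : 0 ≤ 4 * w + 1 - yb ∧ 4 * w + 1 - yb < 8 * w + 3 := by omega
  have hi : i + 1 ≠ i := by
    fin_cases i <;> decide
  have hR1 : Rea d w ω ya := (vis_tip hd hdw' le_rfl ht1.1 ht1.2 hT1.2).2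
  obtain ⟨-, -, u, l, μ, hc, -, -, hS⟩ := hpt
  -- the common part of the two balls
  have key : ∀ (X : Set (ℤ × ℤ)) (t : ℤ), X ⊆ An d w → (∀ f ∈ X, 0 < f.2) → 0 ≤ t →
      t < 8 * w + 3 → ({bdL w t 0} : Set LE) ⊆ {bdL w ya 0} ∪ {bdL w (4 * w + 1 - yb) 0} →
      ∀ s ∈ SL (lcf 1 ω) (LAT d w (2 * m + 12))
        ({bdL w ya 0} ∪ {bdL w (4 * w + 1 - yb) 0}), pj 1 s ∈ Vis TQ ω X (ine w t) →
      s.2 = 0 := by
    intro X t hXA hX h0 h1 hE s hs hv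
    refine index_zero (L := w + σ) (d₀ := d - σ) (n := 2 * m + 12) (D := σ) (μ := μ) hc
      (by omega) (by omega) (by omega) (by omega) hS hs (Finset.mem_coe.1 (SL_sub hs)) ?_
    exact sl_mono hE (sl_zero hXA hX hn0 hd.le hdw' h0 h1 hv)
  have hvis : ∀ s ∈ SL (lcf 1 ω) (LAT d w (2 * m + 12))
      ({bdL w ya 0} ∪ {bdL w (4 * w + 1 - yb) 0}), pj 1 s ∈
        Vis TQ ω (BW w : Set (ℤ × ℤ)) (leg i) ∪ Vis TQ ω (BW w : Set (ℤ × ℤ)) (leg (i + 1)) := by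
    intro s hs
    rcases sl_union hs with h | h
    · exact Or.inl (vis_sub hd hdw' hT1 (projS hn0 hn hdw' ht1.1 ht1.2 h))
    · exact Or.inr (vis_sub hd hdw' hT2 (projS hn0 hn hdw' ht2.1 ht2.2 h))
  have hbw : ∀ s ∈ SL (lcf 1 ω) (LAT d w (2 * m + 12))
      ({bdL w ya 0} ∪ {bdL w (4 * w + 1 - yb) 0}), pj 1 s ∈ BW w ∧ |s.2| ≤ 2 * m + 12 := by
    intro s hs
    have h1 := mem_LAT.1 (Finset.mem_coe.1 (SL_sub hs))
    exact ⟨h1.1.1, h1.2⟩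
  refine ⟨?_, ?_, ?_, ?_, ?_, ?_⟩
  · intro h
    have h1 := proj_ne hn0 hn hdw' ht1.1 ht1.2 ht2.1 ht2.2 hR1 h
    omega
  · intro s j hs0 hs1 h
    have h1 := proj_in hn0 hn hdw' ht1.1 ht1.2 hs0 hs1 h
    by_contra hcon
    exact hclose ⟨i, ya, s, hT1, ⟨hs0, hs1⟩, h1, Or.inl hcon⟩
  · intro s j hs0 hs1 h
    have h1 := proj_in hn0 hn hdw' ht2.1 ht2.2 hs0 hs1 h
    by_contra hcon
    exact hclose ⟨i + 1, _, s, hT2, ⟨hs0, hs1⟩, h1, Or.inl hcon⟩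
  · intro s j s' j' hs0 hs1 h hs0' hs1' h' hcon
    have h1 := proj_in hn0 hn hdw' ht1.1 ht1.2 hs0 hs1 h
    have h2 := proj_in hn0 hn hdw' ht2.1 ht2.2 hs0' hs1' h'
    exact hclose ⟨i, ya, s, hT1, ⟨hs0, hs1⟩, h1, Or.inr ⟨i + 1, _, s', hi, hT2, ⟨hs0', hs1'⟩,
      h2, hcon⟩⟩
  · intro s hs h1 h2
    have hv := hvis s hs
    obtain ⟨hb, hsn⟩ := hbw s hs
    have hXA : ((FbR w (w / 8) ya : Finset (ℤ × ℤ)) : Set (ℤ × ℤ)) ⊆ An d w := by
      intro f hf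
      rw [mem_coe, FbR, mem_RF] at hf
      refine ⟨?_, ?_⟩
      · rw [mem_coe, BdAux.mem_BW]
        omega
      · rw [mem_coe, BdAux.mem_BW]
        omega
    refine key (FbR w (w / 8) ya : Finset (ℤ × ℤ)) ya hXA ?_ ht1.1 ht1.2
      Set.subset_union_left s hs ?_
    · intro f hf
      rw [mem_coe, FbR, mem_RF] at hf
      omega
    · by_contra hcon
      refine hball ⟨i, ya, yb, ⟨hP, hT1, hT2⟩, Or.inl ⟨pj 1 s, hv, ?_, hcon⟩⟩
      rw [FbR, mem_RF]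
      rw [BdAux.mem_BW] at hb
      rw [abs_le] at h1 h2 hsn
      unfold pj at hb ⊢
      simp only [one_mul] at hb ⊢
      omega
  · intro s hs h1 h2
    have hv := hvis s hs
    obtain ⟨hb, hsn⟩ := hbw s hs
    have hXA : ((FbL w (w / 8) yb : Finset (ℤ × ℤ)) : Set (ℤ × ℤ)) ⊆ An d w := by
      intro f hf
      rw [mem_coe, FbL, mem_RF] at hf
      refine ⟨?_, ?_⟩
      · rw [mem_coe, BdAux.mem_BW]
        omega
      · rw [mem_coe, BdAux.mem_BW]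
        omega
    refine key (FbL w (w / 8) yb : Finset (ℤ × ℤ)) (4 * w + 1 - yb) hXA ?_ ht2.1 ht2.2
      Set.subset_union_right s hs ?_
    · intro f hf
      rw [mem_coe, FbL, mem_RF] at hf
      omega
    · by_contra hcon
      refine hball ⟨i, ya, yb, ⟨hP, hT1, hT2⟩, Or.inr ⟨pj 1 s, hv, ?_, hcon⟩⟩
      rw [FbL, mem_RF]
      rw [BdAux.mem_BW] at hb
      rw [abs_le] at h1 h2 hsn
      unfold pj at hb ⊢
      simp only [one_mul] at hb ⊢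
      omega

/-! ### Dependence -/

theorem ml_congr {ζ ζ' : LF → Bool} {Ft : Set LF} (h : ∀ s ∈ Ft, ζ s = ζ' s) (E : Set LE) :
    ML ζ' Ft E = ML ζ Ft E := ML_eq fun s hs => h s (SL_sub hs)

theorem sl_congr {ζ ζ' : LF → Bool} {Ft : Set LF} (h : ∀ s ∈ Ft, ζ s = ζ' s) (E : Set LE) :
    SL ζ' Ft E = SL ζ Ft E := by
  unfold SL
  rw [ml_congr h]

theorem pairT_congr {L d₀ d w n D : ℤ} {m : ℕ} {t₁ t₂ ε : ℤ} {ζ ζ' : LF → Bool}
    (h : ∀ s ∈ LAT d w n, ζ s = ζ' s) :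
    ζ ∈ PairT L d₀ d w n D m t₁ t₂ ε → ζ' ∈ PairT L d₀ d w n D m t₁ t₂ ε := by
  rintro ⟨h1, h2, u, l, μ, h3, h4, h5, h6⟩
  have h' : ∀ s ∈ (LAT d w n : Set LF), ζ s = ζ' s := fun s hs => h s (Finset.mem_coe.1 hs)
  refine ⟨?_, ?_, u, l, μ, h3, h4, h5, ?_⟩
  · obtain ⟨s, j, h7, h8⟩ := h1
    exact ⟨s, j, h7, by rw [ml_congr h']; exact h8⟩
  · obtain ⟨s, j, h7, h8⟩ := h2
    exact ⟨s, j, h7, by rw [ml_congr h']; exact h8⟩
  · rw [sl_congr h']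
    exact h6

theorem ax_congr {A g d w n ya yb : ℤ} {ζ ζ' : LF → Bool} (h : ∀ s ∈ LAT d w n, ζ s = ζ' s)
    (hA : AX ζ A g d w n ya yb) : AX ζ' A g d w n ya yb := by
  have h' : ∀ s ∈ (LAT d w n : Set LF), ζ s = ζ' s := fun s hs => h s (Finset.mem_coe.1 hs)
  have e1 := fun E => ml_congr h' E
  have e2 := fun E => sl_congr h' E
  obtain ⟨a1, a2, a3, a4, a5, a6⟩ := hA
  refine ⟨?_, ?_, ?_, ?_, ?_, ?_⟩
  · rw [e1]; exact a1
  · rw [e1]; exact a2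
  · rw [e1]; exact a3
  · rw [e1, e1]; exact a4
  · rw [e2]; exact a5
  · rw [e2]; exact a6

theorem px_congr {N A Ni Ai σ : ℤ} {m : ℕ} {ya yb : ℤ} {ζ ζ' : LF → Bool}
    (h : ∀ s ∈ LAT (Ni * Ai) (N * A) (2 * m + 12), ζ s = ζ' s) :
    ζ ∈ PX N A Ni Ai σ m ya yb → ζ' ∈ PX N A Ni Ai σ m ya yb :=
  fun h1 => ⟨pairT_congr h h1.1, ax_congr h h1.2⟩

theorem depOn_px (N A Ni Ai σ : ℤ) (m : ℕ) (ya yb : ℤ) :
    DepOn ((BW (N * A) \ BW (Ni * Ai) : Finset (ℤ × ℤ)) : Set (ℤ × ℤ))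
      {ω | lcf 1 ω ∈ PX N A Ni Ai σ m ya yb} := by
  intro ω ω' h
  have h' : ∀ s ∈ LAT (Ni * Ai) (N * A) (2 * m + 12), lcf 1 ω s = lcf 1 ω' s := by
    intro s hs
    rw [mem_LAT] at hs
    refine h _ ?_
    rw [mem_coe, mem_sdiff]
    exact hs.1
  exact ⟨px_congr h', px_congr fun s hs => (h' s hs).symm⟩

end Pool.Agent.Occ.XTAux

end PartoccXTAx

section Partperc3T3Pair

/-!
# T3, row Pair: without near touches the two strands lift to the cover and leave a corridor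
-/

set_option autoImplicit false

namespace Pool.Agent.Perc3

open Finset Pool.Agent.Perc Pool.Agent.Perc.Q

/-- The counterclockwise arc of the boundary from `t₁` to `t₂` crosses the cut. -/
def epsT (w t₁ t₂ : ℤ) : ℤ :=
  if (t₁ < 4 * w + 2 ∧ 4 * w + 2 ≤ t₂) ∨ (t₂ < t₁ ∧ (t₁ < 4 * w + 2 ∨ 4 * w + 2 ≤ t₂)) then 1 else 0

namespace PA

variable {L d₀ d w n D : ℤ} {u : ℤ × ℤ} {l : List (ℤ × ℤ)}

/-- The indices along an arc of the boundary. -/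
theorem arc_ind (hc : Corr L L d₀ u l) (h1 : 1 < d₀) (hn : 2 ≤ n) (hd : d₀ + n ≤ d) (hdw : d < w)
    (hw : w + n + 2 ≤ L) (hD : n < D) {t₁ g : ℤ} (h0 : 0 ≤ t₁) (ht : t₁ < 8 * w + 3)
    (hg : g < 8 * w + 3)
    (hfar : ∀ j, 0 ≤ j → j ≤ g → ∀ f ∈ BW w, ∀ k : ZMod 4,
      ine w ((t₁ + j) % (8 * w + 3)) = (TQ.c f k, TQ.c f (k + 1)) → FarP D u l f)
    {f₁ : ℤ × ℤ} {k₁ : ZMod 4} (e₁ : ine w t₁ = (TQ.c f₁ k₁, TQ.c f₁ (k₁ + 1)))
    {j : ℤ} (hj : 0 ≤ j) :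
    j ≤ g → ∀ f ∈ BW w, ∀ k : ZMod 4,
      ine w ((t₁ + j) % (8 * w + 3)) = (TQ.c f k, TQ.c f (k + 1)) →
      ind L L u l f = ind L L u l f₁ + (if t₁ < 4 * w + 2 then (if 4 * w + 2 ≤ t₁ + j then 1 else 0)
        else if 12 * w + 5 ≤ t₁ + j then 1 else 0) := by
  have hw0 : 0 < w := by
    have : 0 < d := by omega
    omega
  induction j, hj using Int.leInduction with
  | base =>
    intro _ f hf k e
    rw [add_zero, Int.emod_eq_of_lt h0 ht, e₁] at e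
    have := (TQ.inj (Prod.mk.inj e).1 (Prod.mk.inj e).2).1
    subst this
    split_ifs <;> omega
  | succ j hj ih =>
    intro hjg f hf k e
    -- the previous face
    obtain ⟨x, hx⟩ : ∃ x, x = (t₁ + j) % (8 * w + 3) := ⟨_, rfl⟩
    have hx0 : 0 ≤ x := by rw [hx]; exact Int.emod_nonneg _ (by omega)
    have hx1 : x < 8 * w + 3 := by rw [hx]; exact Int.emod_lt_of_pos _ (by omega)
    obtain ⟨f', hf', -, k', e'⟩ := ine_face (r := w) hw0 hx0 hx1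
    rw [hx] at e'
    have h2 := ih (by omega) f' hf' k' e'
    have hF' := hfar j hj (by omega) f' hf' k' e'
    have hF := hfar (j + 1) (by omega) hjg f hf k e
    rw [← hx] at e'
    have hcase : (t₁ + j < 8 * w + 3 ∧ x = t₁ + j) ∨ (8 * w + 3 ≤ t₁ + j ∧
        x = t₁ + j - (8 * w + 3)) := by
      rcases lt_or_ge (t₁ + j) (8 * w + 3) with h | h
      · left
        refine ⟨h, ?_⟩
        rw [hx, Int.emod_eq_of_lt (by omega) h]
      · right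
        refine ⟨h, ?_⟩
        rw [hx, Int.emod_eq_sub_self_emod, Int.emod_eq_of_lt (by omega) (by omega)]
    by_cases hlast : x = 8 * w + 2
    · have hy : (t₁ + (j + 1)) % (8 * w + 3) = 0 := by
        rcases hcase with ⟨h, h3⟩ | ⟨h, h3⟩
        · rw [show t₁ + (j + 1) = 8 * w + 3 by omega, Int.emod_self]
        · exfalso; omega
      rw [hy] at e
      rw [hlast] at e'
      rw [ind_bd_last hc h1 hn hd hdw hw hD hf' hf e' e hF' hF, h2]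
      have h5 : t₁ + j = 8 * w + 2 := by omega
      rw [show t₁ + (j + 1) = 8 * w + 3 by omega, h5]
      clear * - hw0
      split_ifs <;> omega
    · have hy : (t₁ + (j + 1)) % (8 * w + 3) = x + 1 := by
        rcases hcase with ⟨h, h3⟩ | ⟨h, h3⟩
        · rw [Int.emod_eq_of_lt (by omega) (by omega)]; omega
        · rw [Int.emod_eq_sub_self_emod, Int.emod_eq_of_lt (by omega) (by omega)]; omega
      rw [hy] at e
      rw [ind_bd hc h1 hn hd hdw hw hD hx0 (by omega) hf' hf e' e hF' hF, h2]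
      clear h2 ih e e' hfar hF hF' hy hx
      split_ifs <;> omega

end PA

/-- The legs `i` and `i + 1`, with the tips `t₁` and `t₂` on the boundary of `BW w`. -/
theorem pairT_of_legs (K : ℕ) : ∃ m : ℕ, ∀ (σ d w : ℤ) (r : ℕ) (i : Fin 3) (ω : Cfg) (t₁ t₂ : ℤ),
    16 * (m + 7) ≤ σ → 16 * σ ≤ d → d < w → w ≤ K * σ → 16 * σ + 3 ≤ r → Lea3 w ω →
    ω ∉ NT r d w w i → (0 ≤ t₁ ∧ t₁ < 8 * w + 3) → (0 ≤ t₂ ∧ t₂ < 8 * w + 3) →
    (ine w t₁).swap ∈ Orb TQ ω (BW w) (leg i) →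
    (ine w t₂).swap ∈ Orb TQ ω (BW w) (leg (i + 1)) →
    lcf 1 ω ∈ PairT (w + σ) (d - σ) d w (2 * m + 12) σ m t₁ t₂ (epsT w t₁ t₂) := by
  obtain ⟨m, hm⟩ := exists_corr (K + 1)
  refine ⟨m, fun σ d w r i ω t₁ t₂ hσ hd hdw hwK hr hL hN ht₁ ht₂ hO₁ hO₂ => ?_⟩
  have hw : 0 < w := by omega
  have hm0 : (0 : ℤ) ≤ m := by positivity
  set n : ℤ := 2 * m + 12 with hn
  have hnσ : 8 * n ≤ σ := by omega
  obtain ⟨sec, kap, H⟩ := FA.exists_sec hw hL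
  obtain ⟨χ, hχ⟩ := exists_cutPot hw (hL (i + 2))
  obtain ⟨h, hh⟩ := exists_sepH (r := r) (d := d) (w := w) (W := w) (D := 2 * (4 * σ) + 1)
    (by omega) (by omega) hdw le_rfl (by omega) H hχ hN
  set S : Set (ℤ × ℤ) := {f | f ∈ An d w ∧ ∃ k, sec (TQ.c f k) = i} with hS
  obtain ⟨f₀, hf₀, hch⟩ := exists_corridor2 (S := S) (h := h) (L := (w + σ) + 4 * σ) (d := d)
    (ρ := 4 * σ) (by omega) (by omega) (by
      rintro s ⟨⟨-, hs⟩, -⟩ hc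
      apply hs
      rw [mem_coe, mem_BW]
      omega) hh
  obtain ⟨u, l, hc, hlen, hfar⟩ := hm (w + σ) σ (d - σ) S f₀ (by omega) (by omega) (by omega)
    (by push_cast; linarith) hf₀ hch
  have hlen' : (l.length : ℤ) ≤ m := by exact_mod_cast hlen
  have hd₀ : 1 < d - σ := by omega
  have hd₁ : d - σ + n ≤ d := by omega
  have hL₁ : w + n + 2 ≤ w + σ := by omega
  -- the starting faces
  have hAn : ∀ f ∈ BW w, f ∉ BW (w - 1) → f ∈ An d w := by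
    intro f hf hf'
    refine ⟨hf, fun h => hf' ?_⟩
    exact BW_mono (show d ≤ w - 1 by omega) h
  obtain ⟨f₁, hf₁, hf₁', k₁, e₁⟩ := ine_face (r := w) hw ht₁.1 ht₁.2
  obtain ⟨f₂, hf₂, hf₂', k₂, e₂⟩ := ine_face (r := w) hw ht₂.1 ht₂.2
  set μ : ℤ := ind (w + σ) (w + σ) u l f₁ with hμ
  set N : ℤ × ℤ → ℤ := fun f => ind (w + σ) (w + σ) u l f - μ with hNdef
  have hμle : |μ| ≤ m + 6 := by
    rw [hμ]
    exact (abs_ind_le _).trans (by linarith)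
  have hNle : ∀ f, |N f| ≤ n := by
    intro f
    have h1 := abs_ind_le (L := w + σ) (w := w + σ) (u := u) (l := l) f
    rw [hNdef]
    simp only
    rw [abs_le] at h1 hμle ⊢
    constructor <;> linarith
  -- the visited faces
  obtain ⟨v1, r1⟩ := vis_tip (W := w) (by omega) hdw le_rfl ht₁.1 ht₁.2 hO₁
  obtain ⟨v2, r2⟩ := vis_tip (W := w) (by omega) hdw le_rfl ht₂.1 ht₂.2 hO₂
  have hS1 : Vis TQ ω (An d w) (ine w t₁) ⊆ S := by
    intro f hf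
    obtain ⟨⟨hfw, k, hk⟩, hfA⟩ := v1 hf
    exact ⟨hfA, k, (H.left i _ hk).1⟩
  have hS2 : Vis TQ ω (An d w) (ine w t₂) ⊆ S := by
    intro f hf
    obtain ⟨⟨hfw, k, hk⟩, hfA⟩ := v2 hf
    refine ⟨hfA, k + 1, ?_⟩
    have h1 := (H.right (i + 1) _ hk).1
    change sec (TQ.c f (k + 1)) = _ at h1
    rw [h1]
    clear * -
    revert i
    decide
  have hI : ∀ X : Set (ℤ × ℤ), X ⊆ S → IsIndT X N := by
    intro X hX
    exact isIndT_ind hc hd₀ (by omega) hd₁ hL₁ (D := 2 * σ) (by omega) (fun f hf => (hX hf).1)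
      (fun f hf => hfar f (hX hf)) hNle
  have hN1 : N f₁ = 0 := by
    rw [hNdef]
    simp only
    rw [hμ, sub_self]
  -- the arc
  have hN2 : N f₂ = epsT w t₁ t₂ := by
    classical
    set s : Fin 3 → ℤ := fun j => if j = i then t₁ else if j = i + 1 then t₂ else
      (hL j).choose with hs
    have hs1 : s i = t₁ := by rw [hs]; simp
    have hi1 : i + 1 ≠ i := by
      clear * -
      revert i
      decide
    have hs2 : s (i + 1) = t₂ := by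
      change (if i + 1 = i then t₁ else if i + 1 = i + 1 then t₂ else _) = t₂
      rw [if_neg hi1, if_pos rfl]
    have hsp : ∀ j, (0 ≤ s j ∧ s j < 8 * w + 3) ∧
        (ine w (s j)).swap ∈ Orb TQ ω (An 0 w) (leg j) := by
      intro j
      by_cases h1 : j = i
      · subst h1
        rw [hs1]
        exact ⟨ht₁, by rw [LegsAux.an_zero]; exact hO₁⟩
      · by_cases h2 : j = i + 1
        · rw [h2, hs2]
          exact ⟨ht₂, by rw [LegsAux.an_zero]; exact hO₂⟩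
        · have h3 : s j = (hL j).choose := by
            rw [hs]
            simp only
            rw [if_neg h1, if_neg h2]
          rw [h3]
          have h4 := (hL j).choose_spec
          exact ⟨⟨h4.1, h4.2.1⟩, h4.2.2⟩
    have hcyc := cyc_out (d := 0) (w := w) (ω := ω) le_rfl hw (fun j => FA.ine_of_lt j) H
      (fun j => (hsp j).1) (fun j => (hsp j).2)
    set g : ℤ := gap (8 * w + 3) s i with hg
    have hg0 : 0 < g := hcyc.gap_pos i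
    have hg1 : g < 8 * w + 3 := hcyc.gap_lt i
    have hgd := hcyc.dvd i
    rw [hs1, hs2, ← hg] at hgd
    have hmod : (t₁ + g) % (8 * w + 3) = t₂ := by
      have h1 := Int.emod_eq_emod_iff_emod_sub_eq_zero.2 (Int.emod_eq_zero_of_dvd hgd)
      rw [h1, Int.emod_eq_of_lt ht₂.1 ht₂.2]
    have harcS : ∀ j, 0 ≤ j → j ≤ g → ∀ f ∈ BW w, ∀ k : ZMod 4,
        ine w ((t₁ + j) % (8 * w + 3)) = (TQ.c f k, TQ.c f (k + 1)) → FarP (2 * σ) u l f := by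
      intro j hj0 hjg f hf k e
      refine hfar f ?_
      obtain ⟨x, hx⟩ : ∃ x, x = (t₁ + j) % (8 * w + 3) := ⟨_, rfl⟩
      have hx0 : 0 ≤ x := by rw [hx]; exact Int.emod_nonneg _ (by omega)
      have hx1 : x < 8 * w + 3 := by rw [hx]; exact Int.emod_lt_of_pos _ (by omega)
      rw [← hx] at e
      obtain ⟨f', hf', hf'', k', e'⟩ := ine_face (r := w) hw hx0 hx1
      have e3 := e'.symm.trans e
      obtain ⟨rfl, rfl⟩ := TQ.inj (Prod.mk.inj e3).1 (Prod.mk.inj e3).2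
      refine ⟨hAn f' hf' hf'', ?_⟩
      have hb1 : bdc w (t₁ + j) = TQ.c f' k' := by
        unfold bdc
        rw [← hx]
        exact (Prod.mk.inj e').1
      have hb2 : bdc w (t₁ + (j + 1)) = TQ.c f' (k' + 1) := by
        have h1 : bdc w (t₁ + (j + 1)) = bdc w (x + 1) := by
          apply bdc_per
          have h2 := Int.emod_add_mul_ediv (t₁ + j) (8 * w + 3)
          exact ⟨(t₁ + j) / (8 * w + 3), by rw [hx]; linarith⟩
        rw [h1, bdc_succ hw.le hx0 hx1]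
        exact (Prod.mk.inj e').2
      rcases hj0.lt_or_eq with h1 | h1
      · refine ⟨k', ?_⟩
        have h2 := (hcyc.arc i (n := j) (by omega) hjg).1
        simp only [hs1] at h2
        rw [← hb1]
        exact h2
      · refine ⟨k' + 1, ?_⟩
        have h2 := (hcyc.arc i (n := j + 1) (by omega) (by omega)).1
        simp only [hs1] at h2
        rw [← hb2]
        exact h2
    have h5 := PA.arc_ind hc hd₀ (n := n) (D := 2 * σ) (by omega) hd₁ hdw hL₁ (by omega) ht₁.1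
      ht₁.2 hg1 harcS e₁ (j := g) hg0.le le_rfl f₂ hf₂ k₂ (by rw [hmod]; exact e₂)
    rw [hNdef]
    simp only
    rw [h5, hμ]
    have hcase : t₁ + g = t₂ ∨ t₁ + g = t₂ + (8 * w + 3) := by
      rcases lt_or_ge (t₁ + g) (8 * w + 3) with h | h
      · left
        rw [Int.emod_eq_of_lt (by omega) h] at hmod
        exact hmod
      · right
        rw [Int.emod_eq_sub_self_emod, Int.emod_eq_of_lt (by omega) (by omega)] at hmod
        omega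
    unfold epsT
    have ha := ht₁.1
    have hb := ht₁.2
    have hc' := ht₂.1
    have hd' := ht₂.2
    clear * - hcase hg0 hg1 ha hb hc' hd' hw
    split_ifs <;> omega
  -- the lifts
  have hini : ∀ t, 0 ≤ t → t < 8 * w + 3 → Ini TQ (An d w) (ine w t) := fun t h0 h1 =>
    ini_outer (by omega) hdw h0 h1
  have lift : ∀ (t : ℤ) (f : ℤ × ℤ) (k : ZMod 4), 0 ≤ t → t < 8 * w + 3 → f ∈ BW w →
      f ∉ BW (w - 1) → ine w t = (TQ.c f k, TQ.c f (k + 1)) →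
      Vis TQ ω (An d w) (ine w t) ⊆ S → Rea d w ω t →
      RinT (lcf 1 ω) d w n (bdL w t (N f)) ∧
      ∀ s ∈ SL (lcf 1 ω) (LAT d w n) {bdL w t (N f)}, FarP σ u l s.1 ∧
        s.2 = ind (w + σ) (w + σ) u l s.1 - μ := by
    intro t f k h0 h1 hf hf' e hV hR
    have hfA := hAn f hf hf'
    have hst : shS N f k = bdL w t (N f) := bdL_out hw h0 h1 hf e N (by
      have := hNle f
      omega)
    have hi := hini t h0 h1
    rw [e] at hi hV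
    have hI' := hI _ hV
    rw [← hst]
    constructor
    · obtain ⟨s, hs0, hs1, hs⟩ := hR
      obtain ⟨g, hg, hg', k', e'⟩ := ine_opp (r := d) (by omega) hs0 hs1
      have hgA : g ∈ An d w := ⟨BW_mono (by omega) hg, hg'⟩
      refine ⟨s, N g, ⟨hs0, hs1⟩, ?_⟩
      rw [← bdL_in (by omega) hs0 hs1 hg' e' N (by have := hNle g; omega)]
      refine ML_liftT (by omega) hdw hfA hi hI' (fun f _ => hNle f) hgA ?_
      right
      rw [← e', Prod.swap_swap, ← e]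
      exact hs
    · intro s hs
      rw [SL_liftT (by omega) hdw hfA hi hI' (fun f _ => hNle f)] at hs
      obtain ⟨f', hf'', rfl⟩ := hs
      have hfS := hV hf''
      have hF := hfar f' hfS
      have hNf := hNle f'
      constructor
      · intro a ha
        have h2 := hF a ha
        change σ < max |a.1 - (f'.1 - N f')| |a.2.1 - f'.2|
        rw [lt_max_iff, lt_abs, lt_abs] at h2 ⊢
        rw [abs_le] at hNf
        omega
      · have h3 := ind_move hc hd₀ hd₁ hL₁ (D := 2 * σ) (by omega) hfS.1 hF (j := -N f')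
          (by rw [abs_neg]; exact hNf)
        change N f' = ind (w + σ) (w + σ) u l (f'.1 - N f', f'.2) - μ
        rw [sub_eq_add_neg f'.1, h3]
  obtain ⟨a1, a2⟩ := lift t₁ f₁ k₁ ht₁.1 ht₁.2 hf₁ hf₁' e₁ hS1 r1
  obtain ⟨b1, b2⟩ := lift t₂ f₂ k₂ ht₂.1 ht₂.2 hf₂ hf₂' e₂ hS2 r2
  rw [hN1] at a1 a2
  rw [hN2] at b1 b2
  refine ⟨a1, b1, u, l, μ, hc, hlen, hμle, fun s hs => ?_⟩
  rw [SL_union] at hs
  rcases hs with hs | hs
  · exact a2 s hs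
  · exact b2 s hs

end Pool.Agent.Perc3

end Partperc3T3Pair

section PartoccXT

/-!
# The lower bound in the twisted plane (row XT)
-/

set_option autoImplicit false

namespace Pool.Agent.Occ

open Finset Filter Topology Pool.Agent.Perc Pool.Agent.Perc.Q Pool.Agent.Perc3
open Pool.Agent.PercL (pr_biUnion_le)

namespace XTAux

theorem lea3_of {W : ℤ} (hW : 1 ≤ W) {ω : Cfg} (h : ω ∈ Arm3 W) : Lea3 W ω := by
  intro j
  obtain ⟨t, h0, h1, h2⟩ := LegsAux.exit_leg hW h j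
  refine ⟨t, h0, h1, ?_⟩
  rw [LegsAux.an_zero W]
  exact h2

/-- The deterministic implication. -/
theorem px_of_ev {K m : ℕ} (hK : ∀ (σ d w : ℤ) (r : ℕ) (i : Fin 3) (ω : Cfg) (t₁ t₂ : ℤ),
    16 * (m + 7) ≤ σ → 16 * σ ≤ d → d < w → w ≤ K * σ → 16 * σ + 3 ≤ r → Lea3 w ω →
    ω ∉ NT r d w w i → (0 ≤ t₁ ∧ t₁ < 8 * w + 3) → (0 ≤ t₂ ∧ t₂ < 8 * w + 3) →
    (ine w t₁).swap ∈ Orb TQ ω (BW w) (leg i) →
    (ine w t₂).swap ∈ Orb TQ ω (BW w) (leg (i + 1)) →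
    lcf 1 ω ∈ PairT (w + σ) (d - σ) d w (2 * m + 12) σ m t₁ t₂ (epsT w t₁ t₂))
    {N A Ni Ai σ : ℤ} {r : ℕ} (hσ : 16 * ((m : ℤ) + 7) ≤ σ) (hσA : σ ≤ A)
    (hσd : 16 * σ ≤ Ni * Ai) (hdw : 4 * (Ni * Ai) < N * A) (hA : 100 * A ≤ N * A)
    (hKσ : N * A ≤ K * σ) (hr : 16 * σ + 3 ≤ r) {ω : Cfg}
    (hω : ω ∈ Arm3 (N * A)) {i : Fin 3} {ya yb : ℤ} (hPE : PortEv (N * A) ω i ya yb)
    (hN : ω ∉ NT r (Ni * Ai) (N * A) (N * A) i) (hclose : ω ∉ CloseL (Ni * Ai) (N * A) (20 * Ai))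
    (hball : ω ∉ BallBad (N * A) (7 * A)) : lcf 1 ω ∈ PX N A Ni Ai σ m ya yb := by
  obtain ⟨hP, hT1, hT2⟩ := hPE
  have hP' := mem_Ports hP
  simp only at hP'
  have h1 := hK σ (Ni * Ai) (N * A) r i ω ya (4 * (N * A) + 1 - yb) hσ hσd (by omega) hKσ hr
    (lea3_of (by omega) hω) hN hT1.1 hT2.1 hT1.2 hT2.2
  have h2 : epsT (N * A) ya (4 * (N * A) + 1 - yb) = 0 := by
    unfold epsT
    rw [if_neg (by omega)]
  rw [h2] at h1
  exact ⟨h1, ax_of hσ hσA hσd hdw hA ⟨hP, hT1, hT2⟩ hclose hball h1⟩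

/-- The covering of the event. -/
theorem ev_cover {K m : ℕ} (hK : ∀ (σ d w : ℤ) (r : ℕ) (i : Fin 3) (ω : Cfg) (t₁ t₂ : ℤ),
    16 * (m + 7) ≤ σ → 16 * σ ≤ d → d < w → w ≤ K * σ → 16 * σ + 3 ≤ r → Lea3 w ω →
    ω ∉ NT r d w w i → (0 ≤ t₁ ∧ t₁ < 8 * w + 3) → (0 ≤ t₂ ∧ t₂ < 8 * w + 3) →
    (ine w t₁).swap ∈ Orb TQ ω (BW w) (leg i) →
    (ine w t₂).swap ∈ Orb TQ ω (BW w) (leg (i + 1)) →
    lcf 1 ω ∈ PairT (w + σ) (d - σ) d w (2 * m + 12) σ m t₁ t₂ (epsT w t₁ t₂))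
    {N A Ni Ai σ r : ℕ} (hσ : 16 * (m + 7) ≤ σ) (hσA : σ ≤ A)
    (hσd : 16 * σ ≤ Ni * Ai) (hdw : 4 * (Ni * Ai) < N * A) (hA : 100 * A ≤ N * A)
    (hKσ : N * A ≤ K * σ) (hr : 16 * σ + 3 ≤ r) :
    pr (BW ((2 * (N * A) : ℕ) : ℤ)) {ω | ω ∈ Arm3 ((2 * (N * A) : ℕ) : ℤ) ∧
        ∃ i ya yb, PortEv ((N * A : ℕ) : ℤ) ω i ya yb} ≤
      pr (BW ((Ni * Ai : ℕ) : ℤ)) (Arm3 ((Ni * Ai : ℕ) : ℤ)) *
        ∑ p ∈ Ports (N * A), pr (BW (N * A)) {ω | lcf 1 ω ∈ PX N A Ni Ai σ m p.1 p.2} +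
      ∑ i : Fin 3, pr (BW ((2 * (N * A) : ℕ) : ℤ)) (Arm3 ((2 * (N * A) : ℕ) : ℤ) ∩
        NT r ((Ni * Ai : ℕ) : ℤ) ((N * A : ℕ) : ℤ) ((N * A : ℕ) : ℤ) i) +
      pr (BW ((2 * (N * A) : ℕ) : ℤ)) (Arm3 ((2 * (N * A) : ℕ) : ℤ) ∩
        CloseL ((Ni * Ai : ℕ) : ℤ) ((N * A : ℕ) : ℤ) ((20 * Ai : ℕ) : ℤ)) +
      pr (BW ((2 * (N * A) : ℕ) : ℤ)) (Arm3 ((2 * (N * A) : ℕ) : ℤ) ∩
        BallBad ((N * A : ℕ) : ℤ) ((7 * A : ℕ) : ℤ)) := by
  set W : ℤ := ((2 * (N * A) : ℕ) : ℤ) with hW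
  set X : Set Cfg := {ω | ∃ p ∈ Ports ((N : ℤ) * A), ω ∈
    {ω | lcf 1 ω ∈ PX N A Ni Ai σ m p.1 p.2}} with hX
  set U : Fin 3 → Set Cfg := fun i => Arm3 W ∩
    NT r ((Ni * Ai : ℕ) : ℤ) ((N * A : ℕ) : ℤ) ((N * A : ℕ) : ℤ) i with hU
  set E2 : Set Cfg := Arm3 W ∩ CloseL ((Ni * Ai : ℕ) : ℤ) ((N * A : ℕ) : ℤ) ((20 * Ai : ℕ) : ℤ)
    with hE2
  set E3 : Set Cfg := Arm3 W ∩ BallBad ((N * A : ℕ) : ℤ) ((7 * A : ℕ) : ℤ) with hE3
  have hNA : ((N * A : ℕ) : ℤ) = (N : ℤ) * A := by push_cast; ring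
  have hNi : ((Ni * Ai : ℕ) : ℤ) = (Ni : ℤ) * Ai := by push_cast; ring
  have hdwZ : 4 * ((Ni : ℤ) * Ai) < (N : ℤ) * A := by exact_mod_cast hdw
  have hd0 : 1 ≤ Ni * Ai := by omega
  -- the cover
  have h1 : pr (BW W) {ω | ω ∈ Arm3 W ∧ ∃ i ya yb, PortEv ((N * A : ℕ) : ℤ) ω i ya yb} ≤
      pr (BW W) ((((Arm3 ((Ni * Ai : ℕ) : ℤ) ∩ X) ∪ {ω | ∃ i ∈ (univ : Finset (Fin 3)), ω ∈ U i}) ∪
        E2) ∪ E3) := by
    refine pr_mono _ ?_
    rintro ω ⟨hω, i, ya, yb, hPE⟩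
    by_cases g3 : ω ∈ E3
    · exact Or.inr g3
    by_cases g2 : ω ∈ E2
    · exact Or.inl (Or.inr g2)
    by_cases g1 : ω ∈ U i
    · exact Or.inl (Or.inl (Or.inr ⟨i, mem_univ i, g1⟩))
    refine Or.inl (Or.inl (Or.inl ⟨?_, ?_⟩))
    · exact arm3Anti (Ni * Ai) (2 * (N * A)) hd0 (by omega) ω hω
    · refine ⟨(ya, yb), ?_, ?_⟩
      · rw [← hNA]
        exact hPE.1
      · have hσZ : 16 * ((m : ℤ) + 7) ≤ σ := by exact_mod_cast hσ
        have hσdZ : 16 * (σ : ℤ) ≤ (Ni : ℤ) * Ai := by exact_mod_cast hσd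
        have hAZ : 100 * (A : ℤ) ≤ (N : ℤ) * A := by exact_mod_cast hA
        have hKZ : (N : ℤ) * A ≤ K * (σ : ℤ) := by exact_mod_cast hKσ
        refine px_of_ev (r := r) hK hσZ (by exact_mod_cast hσA) hσdZ hdwZ hAZ hKZ
          (by exact_mod_cast hr) ?_ (i := i) ?_ ?_ ?_ ?_
        · rw [← hNA]
          exact arm3Anti (N * A) (2 * (N * A)) (by omega) (by omega) ω hω
        · rw [← hNA]
          exact hPE
        · intro h
          exact g1 ⟨hω, by rw [hNi, hNA]; exact h⟩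
        · intro h
          refine g2 ⟨hω, ?_⟩
          rw [hNi, hNA]
          push_cast
          exact h
        · intro h
          refine g3 ⟨hω, ?_⟩
          rw [hNA]
          push_cast
          exact h
  -- independence
  have hsub1 : BW ((Ni * Ai : ℕ) : ℤ) ∪ (BW ((N : ℤ) * A) \ BW ((Ni : ℤ) * Ai)) ⊆ BW W := by
    intro f hf
    rw [Finset.mem_union, Finset.mem_sdiff, BdAux.mem_BW, BdAux.mem_BW, BdAux.mem_BW] at hf
    rw [BdAux.mem_BW, hW]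
    push_cast at hf ⊢
    omega
  have hdX : DepOn ((BW ((N : ℤ) * A) \ BW ((Ni : ℤ) * Ai) : Finset (ℤ × ℤ)) : Set (ℤ × ℤ)) X := by
    intro ω ω' h
    exact exists_congr fun p => and_congr_right fun _ =>
      depOn_px (N : ℤ) A Ni Ai σ m p.1 p.2 ω ω' h
  have hdisj : Disjoint (BW ((Ni * Ai : ℕ) : ℤ)) (BW ((N : ℤ) * A) \ BW ((Ni : ℤ) * Ai)) := by
    rw [hNi]
    exact disjoint_sdiff
  have h2 : pr (BW W) (Arm3 ((Ni * Ai : ℕ) : ℤ) ∩ X) =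
      pr (BW ((Ni * Ai : ℕ) : ℤ)) (Arm3 ((Ni * Ai : ℕ) : ℤ)) *
        pr (BW ((N : ℤ) * A) \ BW ((Ni : ℤ) * Ai)) X := by
    have h3 := pr_inter_of_disjoint (depOn_arm3' ((Ni * Ai : ℕ) : ℤ)) hdX hdisj
    rw [← h3]
    refine pr_eq_of_depOn ?_ hsub1
    intro ω ω' h
    refine and_congr (depOn_arm3' _ ω ω' fun f hf => h f ?_) (hdX ω ω' fun f hf => h f ?_)
    · rw [coe_union]
      exact Or.inl hf
    · rw [coe_union]
      exact Or.inr hf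
  have h3 : pr (BW ((N : ℤ) * A) \ BW ((Ni : ℤ) * Ai)) X ≤
      ∑ p ∈ Ports ((N : ℤ) * A), pr (BW ((N : ℤ) * A)) {ω | lcf 1 ω ∈ PX N A Ni Ai σ m p.1 p.2} := by
    refine (pr_biUnion_le _ _).trans (le_of_eq (Finset.sum_congr rfl fun p _ => ?_))
    exact (pr_eq_of_depOn (depOn_px (N : ℤ) A Ni Ai σ m p.1 p.2) sdiff_subset).symm
  have h4 := pr_union_le (BW W) (((Arm3 ((Ni * Ai : ℕ) : ℤ) ∩ X) ∪
    {ω | ∃ i ∈ (univ : Finset (Fin 3)), ω ∈ U i}) ∪ E2) E3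
  have h5 := pr_union_le (BW W) ((Arm3 ((Ni * Ai : ℕ) : ℤ) ∩ X) ∪
    {ω | ∃ i ∈ (univ : Finset (Fin 3)), ω ∈ U i}) E2
  have h6 := pr_union_le (BW W) (Arm3 ((Ni * Ai : ℕ) : ℤ) ∩ X)
    {ω | ∃ i ∈ (univ : Finset (Fin 3)), ω ∈ U i}
  have h7 := pr_biUnion_le (W := BW W) (univ : Finset (Fin 3)) U
  have h8 : pr (BW W) (Arm3 ((Ni * Ai : ℕ) : ℤ) ∩ X) ≤
      pr (BW ((Ni * Ai : ℕ) : ℤ)) (Arm3 ((Ni * Ai : ℕ) : ℤ)) *
        ∑ p ∈ Ports ((N : ℤ) * A),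
          pr (BW ((N : ℤ) * A)) {ω | lcf 1 ω ∈ PX N A Ni Ai σ m p.1 p.2} := by
    rw [h2]
    exact mul_le_mul_of_nonneg_left h3 (pr_nonneg _ _)
  exact h1.trans (h4.trans (add_le_add (h5.trans (add_le_add (h6.trans (add_le_add h8 h7)) le_rfl))
    le_rfl))

/-- The final computation. -/
theorem final_real {cP C3 V D S x : ℝ}
    (h : cP * V ≤ C3 * D * S + cP / 8 * V + cP / 8 * V + cP / 8 * V) (hDV : D * x = V)
    (hD0 : 0 < D) (hC3 : 0 < C3) (hx : 0 ≤ x) (hcP : 0 < cP) : cP / (4 * C3) * x ≤ S := by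
  have e10 : cP / 2 * x ≤ C3 * S := by
    have h6 : D * (cP / 2 * x) ≤ D * (C3 * S) := by
      rw [← hDV] at h
      have h7 : 0 ≤ cP * (D * x) := by positivity
      linarith
    exact le_of_mul_le_mul_left h6 hD0
  have h8 : cP / 4 * x ≤ C3 * S := by
    have h7 : 0 ≤ cP * x := by positivity
    linarith
  calc cP / (4 * C3) * x = (cP / 4 * x) / C3 := by field_simp
    _ ≤ (C3 * S) / C3 := div_le_div_of_nonneg_right h8 hC3.le
    _ = S := by field_simp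

/-- The bound for one near touch. -/
theorem nt_real {cP C1 C3 B k D V ρ q P : ℝ} (hB : B = 3 * C1 * C3 * k) (hC1 : 0 < C1)
    (hC3 : 0 < C3) (hk : 0 < k) (hcP : 0 < cP) (hρ : ρ ≤ q) (hq : q ≤ cP / 8 / B)
    (hP : P ≤ C3 * D) (hP0 : 0 ≤ P) (hDV : D ≤ k * V) : C1 * ρ * P ≤ cP / 24 * V := by
  have hB0 : 0 < B := by rw [hB]; positivity
  have h6 : C1 * ρ ≤ C1 * (cP / 8 / B) := mul_le_mul_of_nonneg_left (hρ.trans hq) hC1.le
  calc C1 * ρ * P ≤ C1 * (cP / 8 / B) * (C3 * D) := mul_le_mul h6 hP hP0 (by positivity)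
    _ ≤ C1 * (cP / 8 / B) * (C3 * (k * V)) := by
        refine mul_le_mul_of_nonneg_left ?_ (by positivity)
        exact mul_le_mul_of_nonneg_left hDV hC3.le
    _ = cP / 24 * V := by
        rw [hB]
        field_simp
        ring

/-- The powers. -/
theorem pow_real {d w κ : ℝ} (hd0 : 0 < d) (hw0 : 0 < w) (h : w ≤ κ * d) :
    d ^ (-(2 / 3 : ℝ)) * (d / w) ^ ((2 : ℝ) / 3) = w ^ (-(2 / 3 : ℝ)) ∧
      d ^ (-(2 / 3 : ℝ)) ≤ κ ^ ((2 : ℝ) / 3) * w ^ (-(2 / 3 : ℝ)) := by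
  have h6 : d ^ ((2 : ℝ) / 3) ≠ 0 := (Real.rpow_pos_of_pos hd0 _).ne'
  have h7 : w ^ ((2 : ℝ) / 3) ≠ 0 := (Real.rpow_pos_of_pos hw0 _).ne'
  constructor
  · rw [Real.div_rpow hd0.le hw0.le, Real.rpow_neg hd0.le, Real.rpow_neg hw0.le]
    field_simp
  · have h8 : w / d ≤ κ := by rwa [div_le_iff₀ hd0]
    have h9 : (w / d) ^ ((2 : ℝ) / 3) ≤ κ ^ ((2 : ℝ) / 3) :=
      Real.rpow_le_rpow (by positivity) h8 (by norm_num)
    have h10 : d ^ (-(2 / 3 : ℝ)) = (w / d) ^ ((2 : ℝ) / 3) * w ^ (-(2 / 3 : ℝ)) := by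
      rw [Real.div_rpow hw0.le hd0.le, Real.rpow_neg hd0.le, Real.rpow_neg hw0.le]
      field_simp
    rw [h10]
    exact mul_le_mul_of_nonneg_right h9 (by positivity)

end XTAux

open XTAux

/-- XT -/
theorem ttLow (h1 : PortLow) (h2 : CloseLow) (h3 : BallLow) : TTLow := by
  obtain ⟨cP, wP, hcP, hP⟩ := h1
  obtain ⟨M2, hM2, hC⟩ := h2 (cP / 8) (by positivity)
  obtain ⟨M3, wB, hM3, hB⟩ := h3 (cP / 8) (by positivity)
  obtain ⟨C1, β, hC1, hβ, hN⟩ := nt_prob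
  obtain ⟨C3, hC3, hq⟩ := q3_upper_top Rt.portsP
  refine ⟨100 * M3, 100 * M2, cP / (4 * C3) * (((100 * M2 : ℕ) : ℝ) / ((100 * M3 : ℕ) : ℝ)) ^
    ((2 : ℝ) / 3), ?_, by omega, by omega, ?_⟩
  · have : (0 : ℝ) < M2 := by exact_mod_cast hM2
    have : (0 : ℝ) < M3 := by exact_mod_cast hM3
    push_cast
    positivity
  set N : ℕ := 100 * M3 with hNdef
  set Ni : ℕ := 100 * M2 with hNidef
  intro K
  set B : ℝ := 3 * C1 * C3 * ((N : ℝ) * K + 1) ^ ((2 : ℝ) / 3) with hBdef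
  have hB0 : 0 < B := by positivity
  -- the choice of `Q`
  obtain ⟨Q, hQ100, hQ⟩ : ∃ Q : ℕ, 100 ≤ Q ∧ (Q : ℝ) ^ (-β) ≤ cP / 8 / B := by
    have h4 : Tendsto (fun Q : ℕ => (Q : ℝ) ^ (-β)) atTop (𝓝 0) :=
      (tendsto_rpow_neg_atTop hβ).comp tendsto_natCast_atTop_atTop
    have h5 := h4.eventually_lt_const (show (0 : ℝ) < cP / 8 / B by positivity)
    obtain ⟨Q, hQ1, hQ2⟩ := (h5.and (eventually_ge_atTop 100)).exists
    exact ⟨Q, hQ2, hQ1.le⟩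
  obtain ⟨m, hK⟩ := pairT_of_legs (2 * N * K * Q)
  refine ⟨Q, m, 16 * (m + 7) * Q + wP + wB + 1, hQ100, ?_⟩
  intro A Ai ha0 hA1 hA2
  set σ : ℕ := Ai / Q with hσdef
  have hσ : 16 * (m + 7) ≤ σ := by
    rw [hσdef, Nat.le_div_iff_mul_le (by omega)]
    omega
  refine ⟨hσ, ?_⟩
  have hσAi : σ * Q ≤ Ai := Nat.div_mul_le_self _ _
  have hσAi' : Ai < Q * (σ + 1) := Nat.lt_mul_div_succ Ai (by omega)
  have hAi2 : Ai ≤ 2 * Q * σ := by nlinarith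
  have hσ100 : 100 * σ ≤ Ai := by nlinarith
  have hNi100 : 100 * Ai ≤ Ni * Ai := Nat.mul_le_mul_right _ (by omega)
  have hN100 : 100 * A ≤ N * A := Nat.mul_le_mul_right _ (by omega)
  have hA1' : Ni * Ai + 4 * Ai ≤ A := by
    have : (Ni + 4) * Ai = Ni * Ai + 4 * Ai := by ring
    omega
  have hKσ : N * A ≤ 2 * N * K * Q * σ := by
    calc N * A ≤ N * (K * Ai) := Nat.mul_le_mul_left _ hA2
      _ ≤ N * (K * (2 * Q * σ)) := Nat.mul_le_mul_left _ (Nat.mul_le_mul_left _ hAi2)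
      _ = 2 * N * K * Q * σ := by ring
  set r : ℕ := 16 * σ + 3 with hr
  have hmain := ev_cover (r := r) hK (N := N) (A := A) (Ni := Ni) (Ai := Ai) (σ := σ) hσ (by omega)
    (by omega) (by omega) hN100 hKσ le_rfl
  -- the inputs
  have e1 := hP (N * A) (by omega)
  have e2 := hC (20 * Ai) (Ni * Ai) (N * A) (by omega)
    (by rw [hNidef]; nlinarith) (by omega) (by
      rw [hNidef, show 100 * M2 * Ai = 2 * (50 * M2 * Ai) by ring]
      exact Nat.mul_mod_right 2 _)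
  have e3 := hB (7 * A) (N * A) (by omega) (by omega) (by rw [hNdef]; nlinarith)
  have e4 := fun i => hN r (Ni * Ai) (N * A) (2 * (N * A)) i (by omega) (by omega) (by omega)
    (by omega)
  have e5 := hq (Ni * Ai) (by omega)
  unfold q3 at e5
  -- real numbers
  have hd0 : (0 : ℝ) < ((Ni * Ai : ℕ) : ℝ) := by
    have : 0 < Ni * Ai := by omega
    exact_mod_cast this
  have hw0 : (0 : ℝ) < ((N * A : ℕ) : ℝ) := by
    have : 0 < N * A := by omega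
    exact_mod_cast this
  have hwd : ((N * A : ℕ) : ℝ) ≤ ((N : ℝ) * K + 1) * ((Ni * Ai : ℕ) : ℝ) := by
    have h7 : N * A ≤ (N * K + 1) * (Ni * Ai) := by
      calc N * A ≤ N * (K * Ai) := Nat.mul_le_mul_left _ hA2
        _ = (N * K) * Ai := by ring
        _ ≤ (N * K + 1) * (Ni * Ai) := Nat.mul_le_mul (by omega) (by omega)
    have h8 : ((N * A : ℕ) : ℝ) ≤ (((N * K + 1) * (Ni * Ai) : ℕ) : ℝ) := Nat.cast_le.2 h7
    rw [Nat.cast_mul (N * K + 1), Nat.cast_add, Nat.cast_mul N K, Nat.cast_one] at h8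
    exact h8
  obtain ⟨hDV, hDK⟩ := pow_real hd0 hw0 hwd
  have hD0 : 0 < ((Ni * Ai : ℕ) : ℝ) ^ (-(2 / 3 : ℝ)) := Real.rpow_pos_of_pos hd0 _
  have hrd : ((r : ℝ) / ((Ni * Ai : ℕ) : ℝ)) ^ β ≤ (Q : ℝ) ^ (-β) := by
    have hQ0 : (0 : ℝ) < Q := by
      have : 0 < Q := by omega
      exact_mod_cast this
    have h6 : (r : ℝ) / ((Ni * Ai : ℕ) : ℝ) ≤ (Q : ℝ)⁻¹ := by
      rw [div_le_iff₀ hd0, inv_mul_eq_div, le_div_iff₀ hQ0]
      have h7 : r * Q ≤ Ni * Ai := by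
        have h71 : 3 ≤ σ := by omega
        calc r * Q ≤ (17 * σ) * Q := Nat.mul_le_mul_right _ (by omega)
          _ = 17 * (σ * Q) := by ring
          _ ≤ 17 * Ai := Nat.mul_le_mul_left _ hσAi
          _ ≤ Ni * Ai := by omega
      have h8 : ((r * Q : ℕ) : ℝ) ≤ ((Ni * Ai : ℕ) : ℝ) := Nat.cast_le.2 h7
      rw [Nat.cast_mul r Q] at h8
      exact h8
    rw [Real.rpow_neg hQ0.le, ← Real.inv_rpow hQ0.le]
    exact Real.rpow_le_rpow (by positivity) h6 hβ.le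
  have e6 := fun i => (e4 i).trans (nt_real hBdef hC1 hC3 (by positivity) hcP hrd hQ e5
    (pr_nonneg _ _) hDK)
  have e7 := Finset.sum_le_card_nsmul (univ : Finset (Fin 3)) _ _ fun i _ => e6 i
  rw [Finset.card_univ, Fintype.card_fin, nsmul_eq_mul] at e7
  have e7' := e7.trans (le_of_eq (show ((3 : ℕ) : ℝ) * (cP / 24 *
    ((N * A : ℕ) : ℝ) ^ (-(2 / 3 : ℝ))) = cP / 8 * ((N * A : ℕ) : ℝ) ^ (-(2 / 3 : ℝ)) by
      push_cast; ring))
  have hS0 : 0 ≤ ∑ p ∈ Ports ((N : ℤ) * A),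
      pr (BW ((N : ℤ) * A)) {ω | lcf 1 ω ∈ PX N A Ni Ai σ m p.1 p.2} :=
    sum_nonneg fun _ _ => pr_nonneg _ _
  have e8 := mul_le_mul_of_nonneg_right e5 hS0
  have e9 := e1.trans (hmain.trans (add_le_add (add_le_add (add_le_add e8 e7') e2) e3))
  have e10 := final_real e9 hDV hD0 hC3 (by positivity) hcP
  refine le_trans (le_of_eq ?_) e10
  rw [mul_assoc, ← Real.mul_rpow (by positivity) (by positivity), div_mul_div_comm,
    Nat.cast_mul Ni Ai, Nat.cast_mul N A]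

end Pool.Agent.Occ

end PartoccXT
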