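import Pool.Agent.Lib.MP_6bd702_zc.Pre
import Pool.Agent.Lib.MP_6bd702_zc.Y053
import Pool.Agent.Lib.MP_6bd702_zc.Y042
import Pool.Agent.Lib.MP_6bd702_zc.Y055
import Pool.Agent.Lib.MP_6bd702_zc.Y057
import Pool.Agent.Lib.MP_6bd702_zc.Y056
import Pool.Agent.Lib.MP_6bd702_zc.Y054
import Pool.Agent.Lib.MP_6bd702_zc.Y051

/-!
# The occupied cells of a window
-/

set_option autoImplicit false

namespace Pool.Agent.Occ

open Pool.Agent.Perc.TTBd

/-- Many cells of a window are occupied with positive probability. -/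
theorem occHyp : Perc6.OccHyp 0 :=
  occHyp_of_pt (onePt ttBound (zLow (ttLow portLow closeLow ballLow)) (Or.inl rfl))
    (twoPt ttBound 0)

end Pool.Agent.Occ
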