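import Pool.Agent.Lib.MP_6bd702_z.Pre
import Mathlib.Algebra.Order.Chebyshev
import Mathlib.Combinatorics.SimpleGraph.Connectivity.Connected
import Mathlib.Data.Fin.Tuple.Sort
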